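import Pool.Agent.Lib.MP_6a3dac_ag.Mg.G065
import Pool.Agent.Lib.MP_6a3dac_ag.DNF.Hyper

section

/-!
# Densities of sets defined by local conditions
-/

set_option autoImplicit false

namespace Pool.Agent.Lib.MP_6a3dac_ag.Sys

open MvPolynomial NumberField IsDedekindDomain Filter Topology
open Pool.Agent.Lib.MP_6a3dac_ag.DNF

section

variable {ι : Type} [Fintype ι] [DecidableEq ι] {E : Type} [Field E] [NumberField E] {s : ℕ}
  (b : Module.Basis (Fin s) ℤ (𝓞 E))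

/-- The size of the box. -/
theorem rs_card_box (N : Type) [Fintype N] [DecidableEq N] (H : ℕ) :
    ((box N H).card : ℝ) = (2 * H + 1) ^ Fintype.card N := by
  have h1 : (box N H).card = (2 * H + 1) ^ Fintype.card N := by
    rw [box, Fintype.card_piFinset]
    simp only [Int.card_Icc, Finset.prod_const, Finset.card_univ]
    congr 1
    omega
  rw [h1]
  push_cast
  ring

omit [Fintype ι] [DecidableEq ι] [NumberField E] in
/-- Coefficients of a vector in a residue class. -/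
theorem rs_coeffs_add_mul (v w : ι × Fin s → ℤ) (q : ℕ) (i : ι) :
    coeffs b (fun x => v x + q * w x) i = coeffs b v i + q * ∑ j, w (i, j) • b j := by
  unfold DNF.coeffs
  rw [Finset.mul_sum, ← Finset.sum_add_distrib]
  refine Finset.sum_congr rfl fun j _ => ?_
  rw [add_smul, mul_smul, natCast_zsmul, nsmul_eq_mul]

omit [Fintype ι] [DecidableEq ι] [NumberField E] in
/-- Congruent vectors have the same reduction. -/
theorem rs_red_add_mul (P : HeightOneSpectrum (𝓞 E)) (v w : ι × Fin s → ℤ) (q : ℕ)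
    (hq : (q : 𝓞 E) ∈ P.asIdeal) : red b P (fun x => v x + q * w x) = red b P v := by
  funext i
  rw [red, red, rs_coeffs_add_mul, map_add, map_mul, Ideal.Quotient.eq_zero_iff_mem.2 hq, zero_mul,
    add_zero]

/-- A height one prime contains a rational prime. -/
theorem rs_exists_prime_mem (P : HeightOneSpectrum (𝓞 E)) :
    ∃ p : ℕ, p.Prime ∧ (p : 𝓞 E) ∈ P.asIdeal := by
  have hP : P.asIdeal.IsPrime := P.isPrime
  have h0 : (Ideal.absNorm P.asIdeal : 𝓞 E) ∈ P.asIdeal := Ideal.absNorm_mem _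
  have hne : Ideal.absNorm P.asIdeal ≠ 0 := by
    rw [Ne, Ideal.absNorm_eq_zero_iff]
    exact P.ne_bot
  have key : ∀ n : ℕ, n ≠ 0 → (n : 𝓞 E) ∈ P.asIdeal → ∃ p : ℕ, p.Prime ∧ (p : 𝓞 E) ∈ P.asIdeal := by
    intro n
    induction n using Nat.recOnMul with
    | zero => intro h; exact absurd rfl h
    | one =>
      intro _ h
      exact absurd ((Ideal.eq_top_iff_one _).2 (by simpa using h)) hP.ne_top
    | prime p hp => intro _ h; exact ⟨p, hp, h⟩
    | mul a c ha hc =>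
      intro hn h
      have ha0 : a ≠ 0 := fun h => hn (by rw [h, zero_mul])
      have hc0 : c ≠ 0 := fun h => hn (by rw [h, mul_zero])
      rw [Nat.cast_mul] at h
      rcases hP.mem_or_mem h with h | h
      · exact ha ha0 h
      · exact hc hc0 h
  exact key _ hne h0

/-- **The relative sieve**: among the vectors which satisfy the conditions at the small primes,
the proportion of those which violate a condition at a large prime is small. -/
theorem relative_sieve {T : Type} [Fintype T] (g G : T → MvPolynomial ι ℤ)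
    (hg : ∀ t, Irreducible (g t)) (hgG : ∀ t, ¬ g t ∣ G t) :
    ∃ (C : ℝ) (M₀ : ℕ), 0 ≤ C ∧ ∀ Ω : ∀ P : HeightOneSpectrum (𝓞 E), Set (ι → 𝓞 E ⧸ P.asIdeal),
      (∀ (P : HeightOneSpectrum (𝓞 E)) (a : ι → 𝓞 E), (2 : 𝓞 E) ∉ P.asIdeal →
        (fun i => Ideal.Quotient.mk P.asIdeal (a i)) ∉ Ω P →
        ∃ t, aeval a (g t) ∈ P.asIdeal ∧ aeval a (G t) ∈ P.asIdeal) →
      ∀ M, M₀ ≤ M → ∀ δ : ℝ,
        Tendsto (prop fun u => ∀ P : HeightOneSpectrum (𝓞 E),
          (∃ p : ℕ, p.Prime ∧ p ≤ M ∧ (p : 𝓞 E) ∈ P.asIdeal) → red b P u ∈ Ω P) atTop (𝓝 δ) →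
        ∀ ε, 0 < ε → ∀ᶠ H in atTop, prop (fun u => (∀ P : HeightOneSpectrum (𝓞 E),
          (∃ p : ℕ, p.Prime ∧ p ≤ M ∧ (p : 𝓞 E) ∈ P.asIdeal) → red b P u ∈ Ω P) ∧
            ∃ P, red b P u ∉ Ω P) H ≤ C / M * δ + ε := by
  classical
  choose CC M0 hCC using fun t => dens_sieve_nf (g t) (G t) (hg t) (hgG t) E b
  refine ⟨∑ t, |CC t|, 2 + ∑ t, M0 t, Finset.sum_nonneg fun t _ => abs_nonneg _,
    fun Ω hΩ M hM δ hδ ε hε => ?_⟩
  have hM0 : ∀ t, M0 t ≤ M := fun t => by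
    have := Finset.single_le_sum (f := M0) (fun _ _ => Nat.zero_le _) (Finset.mem_univ t)
    omega
  have hM2 : 2 ≤ M := by omega
  obtain ⟨q, hq0, hpq, hqp⟩ : ∃ q : ℕ, 0 < q ∧ (∀ p : ℕ, p.Prime → p ∣ q → p ≤ M) ∧
      (∀ p : ℕ, p.Prime → p ≤ M → p ∣ q) :=
    ⟨M.factorial, M.factorial_pos, fun p hp h => (hp.dvd_factorial).1 h,
      fun p hp h => (hp.dvd_factorial).2 h⟩
  have : NeZero q := ⟨hq0.ne'⟩
  let Sm : (ι × Fin s → ℤ) → Prop := fun u => ∀ P : HeightOneSpectrum (𝓞 E),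
          (∃ p : ℕ, p.Prime ∧ p ≤ M ∧ (p : 𝓞 E) ∈ P.asIdeal) → red b P u ∈ Ω P
  change Tendsto (prop Sm) atTop (𝓝 δ) at hδ
  change ∀ᶠ H in atTop, prop (fun u => Sm u ∧ ∃ P, red b P u ∉ Ω P) H ≤ (∑ t, |CC t|) / M * δ + ε
  -- the condition at the small primes depends only on the class modulo `q`
  have hSm : ∀ v w : ι × Fin s → ℤ, Sm (fun x => v x + q * w x) ↔ Sm v := by
    intro v w
    refine forall_congr' fun P => imp_congr_right ?_
    rintro ⟨p, hp, hpM, hpP⟩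
    have hqP : (q : 𝓞 E) ∈ P.asIdeal := by
      obtain ⟨k, hk⟩ := hqp p hp hpM
      rw [hk, Nat.cast_mul]
      exact P.asIdeal.mul_mem_right _ hpP
    rw [rs_red_add_mul b P v w q hqP]
  let ψ : (ι × Fin s → ℤ) →+ (ι × Fin s → ZMod q) :=
    (Int.castAddHom (ZMod q)).compLeft (ι × Fin s)
  have hψ : ∀ u x, ψ u x = (u x : ZMod q) := fun u x => rfl
  have hψs : Function.Surjective ψ := by
    intro a
    refine ⟨fun x => ((a x).val : ℤ), ?_⟩
    funext x
    rw [hψ]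
    simp
  -- writing a vector with its class
  have hdec : ∀ u : ι × Fin s → ℤ, ∃ w : ι × Fin s → ℤ, u = fun x => ((ψ u x).val : ℤ) + q * w x := by
    intro u
    have h1 : ∀ x, ∃ w : ℤ, u x = ((ψ u x).val : ℤ) + q * w := by
      intro x
      have h2 : ((u x : ℤ) : ZMod q) = (((ψ u x).val : ℤ) : ZMod q) := by
        rw [hψ]
        simp
      obtain ⟨w, hw⟩ := (ZMod.intCast_eq_intCast_iff_dvd_sub _ _ _).1 h2.symm
      exact ⟨w, by linarith⟩
    choose w hw using h1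
    exact ⟨w, funext hw⟩
  let S : Set (ι × Fin s → ZMod q) := {a | Sm fun x => ((a x).val : ℤ)}
  have hS : ∀ u, ψ u ∈ S ↔ Sm u := by
    intro u
    obtain ⟨w, hw⟩ := hdec u
    change (Sm fun x => ((ψ u x).val : ℤ)) ↔ Sm u
    rw [← hSm (fun x => ((ψ u x).val : ℤ)) w, ← hw]
  have hδ' : δ = (Nat.card S : ℝ) / Nat.card (ι × Fin s → ZMod q) := by
    have h1 := tendsto_prop_hom ψ hψs S
    simp only [hS] at h1
    exact tendsto_nhds_unique hδ h1
  have hcardA : Nat.card (ι × Fin s → ZMod q) = q ^ Fintype.card (ι × Fin s) := by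
    rw [Nat.card_pi]
    simp [Finset.prod_const]
  -- the sieve in each class
  have hC' : ∀ (t : T) (a : ι × Fin s → ZMod q), ∃ C' : ℝ, ∀ H : ℕ,
      (((box (ι × Fin s) H).filter fun u => ∃ 𝔭 : Ideal (𝓞 E), 𝔭.IsPrime ∧
            (∃ p : ℕ, p.Prime ∧ M < p ∧ (p : 𝓞 E) ∈ 𝔭) ∧
            aeval (fun i => coeffs b (fun x => ((a x).val : ℤ)) i + q * ∑ j, u (i, j) • b j)
              (g t) ∈ 𝔭 ∧
            aeval (fun i => coeffs b (fun x => ((a x).val : ℤ)) i + q * ∑ j, u (i, j) • b j)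
              (G t) ∈ 𝔭).card : ℝ) ≤
          (CC t / M + C' / (2 * H + 1)) * (2 * H + 1) ^ Fintype.card (ι × Fin s) :=
    fun t a => hCC t M q (hM0 t) hq0 hpq _
  choose C' hC'' using hC'
  let bad : T → (ι × Fin s → ZMod q) → ℕ → Finset (ι × Fin s → ℤ) := fun t a H =>
    (box (ι × Fin s) H).filter fun u => ∃ 𝔭 : Ideal (𝓞 E), 𝔭.IsPrime ∧
            (∃ p : ℕ, p.Prime ∧ M < p ∧ (p : 𝓞 E) ∈ 𝔭) ∧
            aeval (fun i => coeffs b (fun x => ((a x).val : ℤ)) i + q * ∑ j, u (i, j) • b j)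
              (g t) ∈ 𝔭 ∧
            aeval (fun i => coeffs b (fun x => ((a x).val : ℤ)) i + q * ∑ j, u (i, j) • b j)
              (G t) ∈ 𝔭
  have hbad : ∀ t a H, ((bad t a H).card : ℝ) ≤
      (CC t / M + C' t a / (2 * H + 1)) * (2 * H + 1) ^ Fintype.card (ι × Fin s) :=
    fun t a H => hC'' t a H
  let Sf : Finset (ι × Fin s → ZMod q) := Finset.univ.filter fun a => a ∈ S
  have hsub : ∀ H, ((box (ι × Fin s) H).filter fun u => Sm u ∧ ∃ P, red b P u ∉ Ω P) ⊆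
      Sf.biUnion fun a => Finset.univ.biUnion fun t => (bad t a (H / q + 1)).image
        fun w x => ((a x).val : ℤ) + q * w x := by
    intro H u hu
    rw [Finset.mem_filter] at hu
    obtain ⟨hub, hSmu, P, hP⟩ := hu
    obtain ⟨w, hw⟩ := hdec u
    obtain ⟨p, hp, hpP⟩ := rs_exists_prime_mem P
    have hMp : M < p := by
      by_contra h
      exact hP (hSmu P ⟨p, hp, not_lt.1 h, hpP⟩)
    have h2P : (2 : 𝓞 E) ∉ P.asIdeal := by
      intro h
      exact hP (hSmu P ⟨2, Nat.prime_two, hM2, by exact_mod_cast h⟩)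
    obtain ⟨t, ht1, ht2⟩ := hΩ P (coeffs b u) h2P hP
    have hcf : coeffs b u = fun i => coeffs b (fun x => ((ψ u x).val : ℤ)) i +
        q * ∑ j, w (i, j) • b j := by
      funext i
      rw [← rs_coeffs_add_mul, ← hw]
    rw [hcf] at ht1 ht2
    simp only [Finset.mem_biUnion, Finset.mem_image, Finset.mem_univ, true_and]
    refine ⟨ψ u, ?_, t, w, ?_, hw.symm⟩
    · exact Finset.mem_filter.2 ⟨Finset.mem_univ _, (hS u).2 hSmu⟩
    · refine Finset.mem_filter.2 ⟨?_, P.asIdeal, P.isPrime, ⟨p, hp, hMp, hpP⟩, ht1, ht2⟩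
      rw [box, Fintype.mem_piFinset] at hub ⊢
      intro x
      have h1 := Finset.mem_Icc.1 (hub x)
      have h3 : u x = ((ψ u x).val : ℤ) + q * w x := congrFun hw x
      have h4 : (ψ u x).val < q := ZMod.val_lt _
      have h5 : (H : ℤ) = q * (H / q : ℕ) + (H % q : ℕ) := by
        exact_mod_cast (Nat.div_add_mod H q).symm
      have h6 : H % q < q := Nat.mod_lt _ hq0
      have hq' : (0 : ℤ) < q := by exact_mod_cast hq0
      rw [Finset.mem_Icc]
      zify at h4 h6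
      push_cast at *
      constructor
      · by_contra h
        push Not at h
        have h7 : w x ≤ -((H : ℤ) / q) - 2 := by omega
        nlinarith [h1.1, mul_le_mul_of_nonneg_left h7 hq'.le]
      · by_contra h
        push Not at h
        have h7 : ((H : ℤ) / q) + 1 ≤ w x := by omega
        nlinarith [h1.2, mul_le_mul_of_nonneg_left h7 hq'.le]
  have hcard : ∀ H : ℕ, (((box (ι × Fin s) H).filter fun u =>
      Sm u ∧ ∃ P, red b P u ∉ Ω P).card : ℝ) ≤ ∑ a ∈ Sf, ∑ t, ((bad t a (H / q + 1)).card : ℝ) := by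
    intro H
    have h1 : ((box (ι × Fin s) H).filter fun u => Sm u ∧ ∃ P, red b P u ∉ Ω P).card ≤
        ∑ a ∈ Sf, ∑ t, (bad t a (H / q + 1)).card := by
      refine (Finset.card_le_card (hsub H)).trans (Finset.card_biUnion_le.trans ?_)
      refine Finset.sum_le_sum fun a _ => Finset.card_biUnion_le.trans ?_
      exact Finset.sum_le_sum fun t _ => Finset.card_image_le
    exact_mod_cast h1
  set n := Fintype.card (ι × Fin s) with hn
  have hMpos : (0 : ℝ) < M := by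
    have : 0 < M := by omega
    exact_mod_cast this
  have hqpos : (0 : ℝ) < q := by exact_mod_cast hq0
  have hq1 : (1 : ℝ) ≤ q := by exact_mod_cast hq0
  -- the comparison of the two boxes
  have hest : ∀ (H : ℕ) (a : ι × Fin s → ZMod q) (t : T),
      ((bad t a (H / q + 1)).card : ℝ) / (2 * H + 1) ^ n ≤
        (|CC t| / M + |C' t a| * q * (1 / (2 * H + 1))) * (1 / q + 3 * (1 / (2 * H + 1))) ^ n := by
    intro H a t
    have hH0 : (0 : ℝ) < 2 * H + 1 := by positivity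
    have h1 : (q : ℝ) * (H / q : ℕ) ≤ H := by exact_mod_cast Nat.mul_div_le H q
    have h2 : (H : ℝ) < q * (H / q : ℕ) + q := by
      have := Nat.lt_mul_div_succ H hq0
      rw [Nat.mul_succ] at this
      exact_mod_cast this
    have hH' : (0 : ℝ) < 2 * ((H / q + 1 : ℕ) : ℝ) + 1 := by positivity
    have h3 : (2 * ((H / q + 1 : ℕ) : ℝ) + 1) / (2 * H + 1) ≤ 1 / q + 3 * (1 / (2 * H + 1)) := by
      rw [div_le_iff₀ hH0]
      have h4 : (1 / (q : ℝ) + 3 * (1 / (2 * H + 1))) * (2 * H + 1) = (2 * H + 1) / q + 3 := by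
        field_simp
      rw [h4]
      have h5 : (2 * ((H / q : ℕ) : ℝ)) ≤ (2 * H + 1) / q := by
        rw [le_div_iff₀ hqpos]
        linarith
      push_cast at *
      linarith
    have h6 : C' t a / (2 * ((H / q + 1 : ℕ) : ℝ) + 1) ≤ |C' t a| * q * (1 / (2 * H + 1)) := by
      have h7 : C' t a / (2 * ((H / q + 1 : ℕ) : ℝ) + 1) ≤
          |C' t a| / (2 * ((H / q + 1 : ℕ) : ℝ) + 1) :=
        div_le_div_of_nonneg_right (le_abs_self _) hH'.le
      refine h7.trans ?_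
      rw [mul_assoc, div_eq_mul_inv]
      refine mul_le_mul_of_nonneg_left ?_ (abs_nonneg _)
      rw [mul_one_div, inv_eq_one_div, div_le_div_iff₀ hH' hH0]
      push_cast at *
      nlinarith [hq1]
    have h8 : CC t / M ≤ |CC t| / M := div_le_div_of_nonneg_right (le_abs_self _) hMpos.le
    have h9 : 0 ≤ |CC t| / M + |C' t a| * q * (1 / (2 * H + 1)) := by positivity
    calc ((bad t a (H / q + 1)).card : ℝ) / (2 * H + 1) ^ n
        ≤ ((CC t / M + C' t a / (2 * ((H / q + 1 : ℕ) : ℝ) + 1)) *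
            (2 * ((H / q + 1 : ℕ) : ℝ) + 1) ^ n) / (2 * H + 1) ^ n :=
          div_le_div_of_nonneg_right (hbad t a (H / q + 1)) (by positivity)
      _ = (CC t / M + C' t a / (2 * ((H / q + 1 : ℕ) : ℝ) + 1)) *
            ((2 * ((H / q + 1 : ℕ) : ℝ) + 1) / (2 * H + 1)) ^ n := by
          rw [div_pow, mul_div_assoc]
      _ ≤ (|CC t| / M + |C' t a| * q * (1 / (2 * H + 1))) *
            ((2 * ((H / q + 1 : ℕ) : ℝ) + 1) / (2 * H + 1)) ^ n :=
          mul_le_mul_of_nonneg_right (add_le_add h8 h6) (by positivity)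
      _ ≤ _ := mul_le_mul_of_nonneg_left (pow_le_pow_left₀ (by positivity) h3 n) h9
  have hprop : ∀ H : ℕ, prop (fun u => Sm u ∧ ∃ P, red b P u ∉ Ω P) H ≤
      ∑ a ∈ Sf, ∑ t, (|CC t| / M + |C' t a| * q * (1 / (2 * H + 1))) *
        (1 / q + 3 * (1 / (2 * H + 1))) ^ n := by
    intro H
    have h1 : prop (fun u => Sm u ∧ ∃ P, red b P u ∉ Ω P) H ≤
        (∑ a ∈ Sf, ∑ t, ((bad t a (H / q + 1)).card : ℝ)) / (2 * H + 1) ^ n := by
      unfold prop
      rw [rs_card_box]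
      refine div_le_div_of_nonneg_right ?_ (by positivity)
      exact le_trans (le_of_eq (by congr)) (hcard H)
    refine h1.trans ?_
    rw [Finset.sum_div]
    refine Finset.sum_le_sum fun a _ => ?_
    rw [Finset.sum_div]
    exact Finset.sum_le_sum fun t _ => hest H a t
  have hy : Tendsto (fun H : ℕ => 1 / (2 * (H : ℝ) + 1)) atTop (𝓝 0) := by
    refine Tendsto.div_atTop tendsto_const_nhds ?_
    exact tendsto_atTop_add_const_right _ _
      (tendsto_natCast_atTop_atTop.const_mul_atTop (by norm_num))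
  have hlim : Tendsto (fun H : ℕ => ∑ a ∈ Sf, ∑ t,
      (|CC t| / M + |C' t a| * q * (1 / (2 * (H : ℝ) + 1))) *
        (1 / q + 3 * (1 / (2 * (H : ℝ) + 1))) ^ n) atTop
      (𝓝 (∑ a ∈ Sf, ∑ t, (|CC t| / M + |C' t a| * q * 0) * (1 / q + 3 * 0) ^ n)) := by
    refine tendsto_finsetSum _ fun a _ => tendsto_finsetSum _ fun t _ => ?_
    refine Tendsto.mul ?_ ?_
    · exact tendsto_const_nhds.add (tendsto_const_nhds.mul hy)
    · exact (tendsto_const_nhds.add (tendsto_const_nhds.mul hy)).pow n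
  have hval : (∑ a ∈ Sf, ∑ t, (|CC t| / M + |C' t a| * q * 0) * (1 / q + 3 * 0) ^ n) =
      (∑ t, |CC t|) / M * δ := by
    have h1 : (Nat.card S : ℝ) = Sf.card := by
      have : Nat.card S = Sf.card := by
        rw [Nat.card_eq_fintype_card, Fintype.card_subtype]
      rw [this]
    rw [hδ', h1, hcardA]
    simp only [mul_zero, add_zero]
    rw [Finset.sum_const, ← Finset.sum_mul, ← Finset.sum_div, nsmul_eq_mul]
    push_cast
    rw [one_div, inv_pow]
    ring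
  rw [hval] at hlim
  have hev : ∀ᶠ H : ℕ in atTop, (∑ a ∈ Sf, ∑ t,
      (|CC t| / M + |C' t a| * q * (1 / (2 * (H : ℝ) + 1))) *
        (1 / q + 3 * (1 / (2 * (H : ℝ) + 1))) ^ n) < (∑ t, |CC t|) / M * δ + ε :=
    (tendsto_order.1 hlim).2 _ (by linarith)
  filter_upwards [hev] with H hH
  exact (hprop H).trans hH.le

end

end Pool.Agent.Lib.MP_6a3dac_ag.Sys
end

section

/-!
# Densities of sets defined by local conditions (assembly)
-/

set_option autoImplicit false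

namespace Pool.Agent.Lib.MP_6a3dac_ag.Sys

open MvPolynomial NumberField IsDedekindDomain Filter Topology
open Pool.Agent.Lib.MP_6a3dac_ag.DNF

/-- The proportion is monotone. -/
theorem t30_prop_mono {N : Type} [Fintype N] [DecidableEq N] {S S' : (N → ℤ) → Prop}
    (h : ∀ u, S u → S' u) (H : ℕ) : prop S H ≤ prop S' H := by
  classical
  unfold prop
  refine div_le_div_of_nonneg_right ?_ (Nat.cast_nonneg _)
  refine Nat.cast_le.mpr (Finset.card_le_card ?_)
  intro u hu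
  rw [Finset.mem_filter] at hu ⊢
  exact ⟨hu.1, h u hu.2⟩

/-- The proportion of a disjoint union. -/
theorem t30_prop_add {N : Type} [Fintype N] [DecidableEq N] (S Q : (N → ℤ) → Prop) (H : ℕ) :
    prop S H = prop (fun u => S u ∧ Q u) H + prop (fun u => S u ∧ ¬ Q u) H := by
  classical
  unfold prop
  rw [← add_div]
  congr 1
  rw [← Nat.cast_add]
  congr 1
  have h := Finset.card_filter_add_card_filter_not (s := (box N H).filter fun u => S u)
    (fun u => Q u)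
  rw [Finset.filter_filter, Finset.filter_filter] at h
  convert h.symm using 2
  all_goals
    congr 1
    ext u
    simp only [Finset.mem_filter]

theorem density_abs {ι : Type} [Fintype ι] [DecidableEq ι] {E : Type} [Field E] [NumberField E]
    {s : ℕ} (b : Module.Basis (Fin s) ℤ (𝓞 E)) {T : Type} [Fintype T]
    (g G : T → MvPolynomial ι ℤ) (hg : ∀ t, Irreducible (g t)) (hgG : ∀ t, ¬ g t ∣ G t) :
    ∃ (C : ℝ) (M₀ : ℕ), ∀ Ω : ∀ P : HeightOneSpectrum (𝓞 E), Set (ι → 𝓞 E ⧸ P.asIdeal),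
      (∀ (P : HeightOneSpectrum (𝓞 E)) (a : ι → 𝓞 E), (2 : 𝓞 E) ∉ P.asIdeal →
        (fun i => Ideal.Quotient.mk P.asIdeal (a i)) ∉ Ω P →
        ∃ t, aeval a (g t) ∈ P.asIdeal ∧ aeval a (G t) ∈ P.asIdeal) →
      ∃ Δ : ℝ, HasProd (fun P => (Nat.card (Ω P) : ℝ) / Nat.card (ι → 𝓞 E ⧸ P.asIdeal)) Δ ∧
        Tendsto (prop fun u => ∀ P, red b P u ∈ Ω P) atTop (𝓝 Δ) ∧
        ((∀ P, (Ω P).Nonempty) → 0 < Δ) ∧
        ∀ M, M₀ ≤ M → (∀ (P : HeightOneSpectrum (𝓞 E)) (p : ℕ), p.Prime → p ≤ M →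
          (p : 𝓞 E) ∈ P.asIdeal → Ω P = Set.univ) → 1 - C / M ≤ Δ := by
  classical
  obtain ⟨C, M₀, hC, hsieve⟩ := relative_sieve b g G hg hgG
  refine ⟨C, M₀, fun Ω hΩ => ?_⟩
  have hfin : ∀ P : HeightOneSpectrum (𝓞 E), Finite (ι → 𝓞 E ⧸ P.asIdeal) := by
    intro P
    have : Finite (𝓞 E ⧸ P.asIdeal) := Ideal.finiteQuotientOfFreeOfNeBot P.asIdeal P.ne_bot
    infer_instance
  have hpos : ∀ P : HeightOneSpectrum (𝓞 E), (0 : ℝ) < Nat.card (ι → 𝓞 E ⧸ P.asIdeal) := by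
    intro P
    have := hfin P
    have h : 0 < Nat.card (ι → 𝓞 E ⧸ P.asIdeal) := Nat.card_pos
    exact_mod_cast h
  set TT : ℕ → Finset (HeightOneSpectrum (𝓞 E)) := fun M => (finite_small E M).toFinset with hTT
  have hmem : ∀ M P, P ∈ TT M ↔ ∃ p : ℕ, p.Prime ∧ p ≤ M ∧ (p : 𝓞 E) ∈ P.asIdeal := by
    intro M P
    simp [hTT]
  obtain ⟨Δ, h1, h2, h3, h4⟩ := exists_density
    (fun P => (Nat.card (Ω P) : ℝ) / Nat.card (ι → 𝓞 E ⧸ P.asIdeal))
    (fun P => by positivity)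
    (fun P => by
      have := hfin P
      rw [div_le_one (hpos P)]
      exact_mod_cast Nat.card_le_card_of_injective (Subtype.val : Ω P → _)
        Subtype.val_injective)
    TT (by
      intro M M' hMM' P hP
      rw [hmem] at hP ⊢
      obtain ⟨p, hp, hpM, hpP⟩ := hP
      exact ⟨p, hp, hpM.trans hMM', hpP⟩)
    (by
      intro P
      have hne : P.asIdeal ≠ ⊥ := P.ne_bot
      -- a prime ideal contains a rational prime
      have := hfin P
      have hfinq : Finite (𝓞 E ⧸ P.asIdeal) :=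
        Ideal.finiteQuotientOfFreeOfNeBot P.asIdeal P.ne_bot
      have : P.asIdeal.IsPrime := P.isPrime
      have : IsDomain (𝓞 E ⧸ P.asIdeal) := Ideal.Quotient.isDomain P.asIdeal
      obtain ⟨p, hp⟩ := CharP.exists (𝓞 E ⧸ P.asIdeal)
      have hp0 : p ≠ 0 := CharP.char_ne_zero_of_finite (𝓞 E ⧸ P.asIdeal) p
      have hpp : p.Prime := (CharP.char_is_prime_or_zero (𝓞 E ⧸ P.asIdeal) p).resolve_right hp0
      refine ⟨p, (hmem p P).mpr ⟨p, hpp, le_rfl, ?_⟩⟩
      rw [← Ideal.Quotient.eq_zero_iff_mem]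
      rw [map_natCast]
      exact CharP.cast_eq_zero _ p)
    (prop fun u => ∀ P, red b P u ∈ Ω P)
    (fun M => prop fun u => ∀ P ∈ TT M, red b P u ∈ Ω P)
    (fun M => tendsto_prop_red b (TT M) Ω)
    (fun M H => t30_prop_mono (fun u hu P _ => hu P) H)
    (C := C) (M₀ := M₀)
    (by
      intro M hM ε hε
      have hlim := tendsto_prop_red b (TT M) Ω
      have heq : (fun u : ι × Fin s → ℤ => ∀ P ∈ TT M, red b P u ∈ Ω P) =
          fun u => ∀ P : HeightOneSpectrum (𝓞 E),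
            (∃ p : ℕ, p.Prime ∧ p ≤ M ∧ (p : 𝓞 E) ∈ P.asIdeal) → red b P u ∈ Ω P := by
        funext u
        refine propext ⟨fun h P hP => h P ((hmem M P).mpr hP),
          fun h P hP => h P ((hmem M P).mp hP)⟩
      have hs := hsieve Ω hΩ M hM _ (by rw [← heq]; exact hlim) ε hε
      filter_upwards [hs] with H hH
      have hadd := t30_prop_add (fun u : ι × Fin s → ℤ => ∀ P ∈ TT M, red b P u ∈ Ω P)
        (fun u => ∀ P, red b P u ∈ Ω P) H
      have e1 : prop (fun u : ι × Fin s → ℤ => (∀ P ∈ TT M, red b P u ∈ Ω P) ∧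
          ∀ P, red b P u ∈ Ω P) H ≤ prop (fun u => ∀ P, red b P u ∈ Ω P) H :=
        t30_prop_mono (fun u hu => hu.2) H
      have e2 : prop (fun u : ι × Fin s → ℤ => (∀ P ∈ TT M, red b P u ∈ Ω P) ∧
          ¬ ∀ P, red b P u ∈ Ω P) H ≤ prop (fun u => (∀ P : HeightOneSpectrum (𝓞 E),
          (∃ p : ℕ, p.Prime ∧ p ≤ M ∧ (p : 𝓞 E) ∈ P.asIdeal) → red b P u ∈ Ω P) ∧
            ∃ P, red b P u ∉ Ω P) H := by
        refine t30_prop_mono (fun u hu => ⟨fun P hP => hu.1 P ((hmem M P).mpr hP), ?_⟩) H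
        have := hu.2
        push Not at this
        exact this
      show prop (fun u : ι × Fin s → ℤ => ∀ P ∈ TT M, red b P u ∈ Ω P) H - _ ≤ _
      linarith)
  refine ⟨Δ, h1, h2, ?_, ?_⟩
  · intro hne
    refine h3 fun P => ?_
    have := hfin P
    have : Nonempty (Ω P) := (hne P).to_subtype
    have h : 0 < Nat.card (Ω P) := Nat.card_pos
    exact div_pos (by exact_mod_cast h) (hpos P)
  · intro M hM hall
    refine h4 M hM fun P hP => ?_
    obtain ⟨p, hp, hpM, hpP⟩ := (hmem M P).mp hP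
    rw [hall P p hp hpM hpP]
    have : Nat.card (Set.univ : Set (ι → 𝓞 E ⧸ P.asIdeal)) =
        Nat.card (ι → 𝓞 E ⧸ P.asIdeal) := Nat.card_congr (Equiv.Set.univ _)
    rw [this]
    exact div_self (hpos P).ne'

end Pool.Agent.Lib.MP_6a3dac_ag.Sys
end

section

/-!
# Equidistribution modulo powers of primes, and the tail
-/

set_option autoImplicit false

namespace Pool.Agent.Lib.MP_6a3dac_ag.Maj

open MvPolynomial NumberField IsDedekindDomain Filter Topology
open Pool.Agent.Lib.MP_6a3dac_ag.DNF Pool.Agent.Lib.MP_6a3dac_ag.Sys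

variable {ι : Type} [Fintype ι] [DecidableEq ι] {E : Type} [Field E] [NumberField E] {s : ℕ}
  (b : Module.Basis (Fin s) ℤ (𝓞 E))

/-- The coefficients modulo `P ^ k`. -/
noncomputable def redk (k : ℕ) (P : HeightOneSpectrum (𝓞 E)) (u : ι × Fin s → ℤ) (i : ι) :
    𝓞 E ⧸ P.asIdeal ^ k :=
  Ideal.Quotient.mk (P.asIdeal ^ k) (coeffs b u i)

omit [Fintype ι] [DecidableEq ι] in
lemma d1_redk_add (k : ℕ) (P : HeightOneSpectrum (𝓞 E)) (u v : ι × Fin s → ℤ) :
    redk b k P (u + v) = redk b k P u + redk b k P v := by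
  funext i
  simp only [redk, Pi.add_apply]
  rw [← map_add]
  congr 1
  simp only [DNF.coeffs, Pi.add_apply, add_smul, Finset.sum_add_distrib]

omit [Fintype ι] [DecidableEq ι] in
lemma d1_redk_zero (k : ℕ) (P : HeightOneSpectrum (𝓞 E)) :
    redk b k P (0 : ι × Fin s → ℤ) = 0 := by
  funext i
  simp [redk, DNF.coeffs]

/-- Reduction modulo the `k`-th powers of finitely many primes. -/
noncomputable def d1_hom (ι : Type) {E : Type} [Field E] [NumberField E] {s : ℕ}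
    (b : Module.Basis (Fin s) ℤ (𝓞 E)) (k : ℕ) (T : Finset (HeightOneSpectrum (𝓞 E))) :
    (ι × Fin s → ℤ) →+ (∀ P : T, ι → 𝓞 E ⧸ P.1.asIdeal ^ k) where
  toFun u P := redk b k P.1 u
  map_zero' := by
    funext P
    exact d1_redk_zero b k P.1
  map_add' u v := by
    funext P
    exact d1_redk_add b k P.1 u v

omit [Fintype ι] [DecidableEq ι] in
lemma d1_surj (k : ℕ) (T : Finset (HeightOneSpectrum (𝓞 E))) :
    Function.Surjective (d1_hom ι b k T) := by
  intro x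
  have h1 : ∀ i : ι, ∃ y : 𝓞 E, ∀ P : T, Ideal.Quotient.mk (P.1.asIdeal ^ k) y = x P i := by
    intro i
    choose r hr using fun P : T => Ideal.Quotient.mk_surjective (I := P.1.asIdeal ^ k) (x P i)
    obtain ⟨y, hy⟩ := IsDedekindDomain.exists_forall_sub_mem_ideal (s := T)
      (fun P : HeightOneSpectrum (𝓞 E) => P.asIdeal) (fun _ => k)
      (fun P _ => P.prime) (fun P _ Q _ hPQ h => hPQ (HeightOneSpectrum.ext h)) r
    refine ⟨y, fun P => ?_⟩
    rw [← hr P, Ideal.Quotient.mk_eq_mk_iff_sub_mem]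
    exact hy P.1 P.2
  choose y hy using h1
  refine ⟨fun v => b.repr (y v.1) v.2, ?_⟩
  funext P i
  have h2 : coeffs b (fun v : ι × Fin s => b.repr (y v.1) v.2) i = y i := by
    simp only [DNF.coeffs]
    exact b.sum_repr (y i)
  change Ideal.Quotient.mk (P.1.asIdeal ^ k)
    (coeffs b (fun v : ι × Fin s => b.repr (y v.1) v.2) i) = _
  rw [h2]
  exact hy i P

lemma d1_finite (k : ℕ) (P : HeightOneSpectrum (𝓞 E)) : Finite (𝓞 E ⧸ P.asIdeal ^ k) :=
  Ideal.finiteQuotientOfFreeOfNeBot (P.asIdeal ^ k) (pow_ne_zero k P.ne_bot)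

/-- Like `tendsto_prop_red` of Sys/DensityA.lean. -/
theorem tendsto_prop_redk {k : ℕ} (hk : 1 ≤ k) (T : Finset (HeightOneSpectrum (𝓞 E)))
    (Ω : ∀ P : HeightOneSpectrum (𝓞 E), Set (ι → 𝓞 E ⧸ P.asIdeal ^ k)) :
    Tendsto (prop fun u => ∀ P ∈ T, redk b k P u ∈ Ω P) atTop
      (𝓝 (∏ P ∈ T, (Nat.card (Ω P) : ℝ) / Nat.card (ι → 𝓞 E ⧸ P.asIdeal ^ k))) := by
  classical
  have _ := hk
  have hfin : ∀ P : HeightOneSpectrum (𝓞 E), Finite (𝓞 E ⧸ P.asIdeal ^ k) := d1_finite k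
  have h1 := tendsto_prop_hom (d1_hom ι b k T) (d1_surj b k T)
    {x | ∀ P : T, x P ∈ Ω P.1}
  have h2 : (fun u : ι × Fin s → ℤ => ∀ P ∈ T, redk b k P u ∈ Ω P) =
      fun u => d1_hom ι b k T u ∈
        {x : ∀ P : T, ι → 𝓞 E ⧸ P.1.asIdeal ^ k | ∀ P : T, x P ∈ Ω P.1} := by
    funext u
    refine propext ⟨fun h P => h P.1 P.2, fun h P hP => h ⟨P, hP⟩⟩
  rw [h2]
  have h3 : (Nat.card {x : ∀ P : T, ι → 𝓞 E ⧸ P.1.asIdeal ^ k | ∀ P : T, x P ∈ Ω P.1} : ℝ) /
      Nat.card (∀ P : T, ι → 𝓞 E ⧸ P.1.asIdeal ^ k) =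
      ∏ P ∈ T, (Nat.card (Ω P) : ℝ) / Nat.card (ι → 𝓞 E ⧸ P.asIdeal ^ k) := by
    have e1 : Nat.card {x : ∀ P : T, ι → 𝓞 E ⧸ P.1.asIdeal ^ k | ∀ P : T, x P ∈ Ω P.1} =
        ∏ P : T, Nat.card (Ω P.1) := by
      rw [← Nat.card_pi]
      refine Nat.card_congr
        { toFun := fun x P => ⟨x.1 P, x.2 P⟩
          invFun := fun x => ⟨fun P => (x P).1, fun P => (x P).2⟩
          left_inv := fun x => rfl
          right_inv := fun x => rfl }
    have e2 : Nat.card (∀ P : T, ι → 𝓞 E ⧸ P.1.asIdeal ^ k) =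
        ∏ P : T, Nat.card (ι → 𝓞 E ⧸ P.1.asIdeal ^ k) := Nat.card_pi
    rw [e1, e2]
    push_cast
    rw [← Finset.prod_div_distrib,
      ← Finset.prod_coe_sort T
        (fun P => (Nat.card (Ω P) : ℝ) / Nat.card (ι → 𝓞 E ⧸ P.asIdeal ^ k))]
  rw [← h3]
  exact h1

/-- Reduction modulo one power of a prime is surjective. -/
theorem redk_hom {k : ℕ} (hk : 1 ≤ k) (P : HeightOneSpectrum (𝓞 E)) :
    Finite (𝓞 E ⧸ P.asIdeal ^ k) ∧ ∃ ψ : (ι × Fin s → ℤ) →+ (ι → 𝓞 E ⧸ P.asIdeal ^ k),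
      Function.Surjective ψ ∧ ∀ u, ψ u = redk b k P u := by
  have _ := hk
  refine ⟨d1_finite k P,
    { toFun := redk b k P
      map_zero' := d1_redk_zero b k P
      map_add' := d1_redk_add b k P }, ?_, fun u => rfl⟩
  intro x
  obtain ⟨u, hu⟩ := d1_surj b k {P} (fun Q => (by
    have h : Q.1 = P := Finset.mem_singleton.mp Q.2
    rw [h]
    exact x))
  refine ⟨u, ?_⟩
  have h := congrFun hu ⟨P, Finset.mem_singleton_self P⟩
  exact h

end Pool.Agent.Lib.MP_6a3dac_ag.Maj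
end

section

/-!
# Equidistribution modulo powers of primes, and the tail
-/

set_option autoImplicit false

namespace Pool.Agent.Lib.MP_6a3dac_ag.Maj

open MvPolynomial NumberField IsDedekindDomain Filter Topology
open Pool.Agent.Lib.MP_6a3dac_ag.DNF Pool.Agent.Lib.MP_6a3dac_ag.Sys

variable {ι : Type} [Fintype ι] [DecidableEq ι] {E : Type} [Field E] [NumberField E] {s : ℕ}
  (b : Module.Basis (Fin s) ℤ (𝓞 E))

omit [Fintype ι] [DecidableEq ι] [NumberField E] in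
lemma d2_aeval_mem (P : Ideal (𝓞 E)) {a a' : ι → 𝓞 E}
    (h : ∀ i, Ideal.Quotient.mk P (a i) = Ideal.Quotient.mk P (a' i)) (f : MvPolynomial ι ℤ)
    (hf : aeval a' f ∈ P) : aeval a f ∈ P := by
  have key : ∀ c : ι → 𝓞 E, Ideal.Quotient.mk P (aeval c f) =
      eval₂ (Int.castRingHom (𝓞 E ⧸ P)) (fun i => Ideal.Quotient.mk P (c i)) f := by
    intro c
    rw [aeval_def, eval₂_comp_left (Ideal.Quotient.mk P)]
    congr 1
  rw [← Ideal.Quotient.eq_zero_iff_mem] at hf ⊢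
  rw [key] at hf ⊢
  rw [← hf]
  congr 1
  funext i
  exact h i

/-- Uses `density_abs` of Sys/Density.lean. -/
theorem tail_bound {T : Type} [Fintype T] (g G : T → MvPolynomial ι ℤ)
    (hg : ∀ t, Irreducible (g t)) (hgG : ∀ t, ¬ g t ∣ G t) :
    ∃ (C : ℝ) (M₀ : ℕ), ∀ M, M₀ ≤ M → UD (fun u : ι × Fin s → ℤ =>
      ∃ P : HeightOneSpectrum (𝓞 E), (¬ ∃ p : ℕ, p.Prime ∧ p ≤ M ∧ (p : 𝓞 E) ∈ P.asIdeal) ∧
        ∃ t, aeval (coeffs b u) (g t) ∈ P.asIdeal ∧ aeval (coeffs b u) (G t) ∈ P.asIdeal)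
      (C / M) := by
  classical
  obtain ⟨C, M₀, h⟩ := density_abs b g G hg hgG
  refine ⟨C, M₀, fun M hM => ?_⟩
  let Ω : ∀ P : HeightOneSpectrum (𝓞 E), Set (ι → 𝓞 E ⧸ P.asIdeal) := fun P =>
    {x | (∃ p : ℕ, p.Prime ∧ p ≤ M ∧ (p : 𝓞 E) ∈ P.asIdeal) ∨
      ¬ ∃ a : ι → 𝓞 E, (∀ i, Ideal.Quotient.mk P.asIdeal (a i) = x i) ∧
        ∃ t, aeval a (g t) ∈ P.asIdeal ∧ aeval a (G t) ∈ P.asIdeal}
  obtain ⟨Δ, _, h2, _, h4⟩ := h Ω (by
    intro P a _ ha
    have ha' : ¬ ((∃ p : ℕ, p.Prime ∧ p ≤ M ∧ (p : 𝓞 E) ∈ P.asIdeal) ∨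
      ¬ ∃ a' : ι → 𝓞 E, (∀ i, Ideal.Quotient.mk P.asIdeal (a' i) =
        Ideal.Quotient.mk P.asIdeal (a i)) ∧
        ∃ t, aeval a' (g t) ∈ P.asIdeal ∧ aeval a' (G t) ∈ P.asIdeal) := ha
    rw [not_or, not_not] at ha'
    obtain ⟨_, a', ha1, t, ht1, ht2⟩ := ha'
    exact ⟨t, d2_aeval_mem P.asIdeal (fun i => (ha1 i).symm) _ ht1,
      d2_aeval_mem P.asIdeal (fun i => (ha1 i).symm) _ ht2⟩)
  have hΔ : 1 - C / M ≤ Δ := h4 M hM (by
    intro P p hp hpM hpP
    refine Set.eq_univ_of_forall fun x => ?_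
    exact Or.inl ⟨p, hp, hpM, hpP⟩)
  have h5 : UD (fun u : ι × Fin s → ℤ => ¬ ∀ P, red b P u ∈ Ω P) (1 - Δ) := by
    refine UD.of_tendsto ?_
    have h6 : prop (fun u : ι × Fin s → ℤ => ¬ ∀ P, red b P u ∈ Ω P) =
        fun H => 1 - prop (fun u => ∀ P, red b P u ∈ Ω P) H := by
      funext H
      exact prop_compl _ H
    rw [h6]
    exact h2.const_sub 1
  refine h5.mono ?_ (by linarith)
  rintro u ⟨P, hP1, t, ht1, ht2⟩ hall
  rcases hall P with h6 | h6
  · exact hP1 h6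
  · exact h6 ⟨coeffs b u, fun i => rfl, t, ht1, ht2⟩

end Pool.Agent.Lib.MP_6a3dac_ag.Maj
end

section

end
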