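import Mathlib
import Pool.Agent.Lib.MP_6a3dac_ag.Dens.Defs

section

/-!
# Smooth residue classes over any commutative ring

The residue classes of integer coefficients which are smooth modulo all primes up to a bound stay
smooth over every commutative ring; by Nakayama's lemma the forms in these classes are smooth away
from an element congruent to one modulo the product of these primes.
-/

set_option autoImplicit false

namespace Pool.Agent.Lib.MP_6a3dac_ag

open MvPolynomial

open scoped Pointwise

attribute [local instance] MvPolynomial.gradedAlgebra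

namespace SmoothAlg

/-- The Jacobian ideal of a polynomial. -/
noncomputable def jac {n : ℕ} {A : Type} [CommRing A] (f : MvPolynomial (Fin (n + 1)) A) :
    Ideal (MvPolynomial (Fin (n + 1)) A) :=
  Ideal.span (insert f (Set.range fun l => pderiv l f))

theorem form_isHomogeneous {n d : ℕ} {R : Type} [CommRing R] (a : Mono n d → R) :
    (form a).IsHomogeneous d := by
  unfold form
  refine IsHomogeneous.sum _ _ _ fun μ _ => ?_
  refine IsHomogeneous.C_mul ?_ _
  have := IsHomogeneous.prod Finset.univ
    (fun i => (X i : MvPolynomial (Fin (n + 1)) R) ^ (μ.1 i : ℕ)) (fun i => (μ.1 i : ℕ))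
    (fun i _ => isHomogeneous_X_pow i _)
  rwa [μ.2] at this

theorem form_add {n d : ℕ} {R : Type} [CommRing R] (a b : Mono n d → R) :
    form (a + b) = form a + form b := by
  unfold form
  rw [← Finset.sum_add_distrib]
  refine Finset.sum_congr rfl fun μ _ => ?_
  simp [add_mul]

theorem form_smul {n d : ℕ} {R : Type} [CommRing R] (c : R) (a : Mono n d → R) :
    form (c • a) = C c * form a := by
  unfold form
  rw [Finset.mul_sum]
  refine Finset.sum_congr rfl fun μ _ => ?_
  simp [mul_assoc]

theorem form_map {n d : ℕ} {R S : Type} [CommRing R] [CommRing S] (φ : R →+* S)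
    (a : Mono n d → R) : MvPolynomial.map φ (form a) = form fun μ => φ (a μ) := by
  unfold form
  rw [map_sum]
  refine Finset.sum_congr rfl fun μ _ => ?_
  rw [map_mul, map_C, map_prod]
  simp only [map_pow, map_X]

theorem form_exists {n d : ℕ} {R : Type} [CommRing R] {f : MvPolynomial (Fin (n + 1)) R}
    (hf : f.IsHomogeneous d) : ∃ a : Mono n d → R, form a = f := by
  classical
  rw [as_sum f]
  refine Finset.sum_induction _ (fun g => ∃ a : Mono n d → R, form a = g) ?_ ?_ ?_
  · rintro g h ⟨a, rfl⟩ ⟨b, rfl⟩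
    exact ⟨a + b, form_add a b⟩
  · exact ⟨0, by simp [form]⟩
  · intro s hs
    have hsd : s.degree = d := by
      by_contra hne
      exact (mem_support_iff.1 hs) (hf.coeff_eq_zero hne)
    have hsum : ∑ i, s i = d := by
      rw [← hsd, Finsupp.degree_eq_sum]
    have hle : ∀ i, s i < d + 1 := fun i =>
      Nat.lt_succ_of_le (hsum ▸ Finset.single_le_sum (fun _ _ => Nat.zero_le _) (Finset.mem_univ i))
    let μ : Mono n d := ⟨fun i => ⟨s i, hle i⟩, hsum⟩
    refine ⟨Pi.single μ (coeff s f), ?_⟩
    unfold form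
    rw [Finset.sum_eq_single μ]
    · rw [Pi.single_eq_same, monomial_eq, Finsupp.prod_fintype _ _ (fun i => pow_zero _)]
    · intro ν _ hν
      rw [Pi.single_eq_of_ne hν]
      simp
    · intro h
      exact absurd (Finset.mem_univ _) h

theorem jac_self {n : ℕ} {A : Type} [CommRing A] (f : MvPolynomial (Fin (n + 1)) A) :
    f ∈ jac f :=
  Ideal.subset_span (Set.mem_insert _ _)

theorem jac_pderiv {n : ℕ} {A : Type} [CommRing A] (f : MvPolynomial (Fin (n + 1)) A)
    (l : Fin (n + 1)) : pderiv l f ∈ jac f :=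
  Ideal.subset_span (Set.mem_insert_of_mem _ ⟨l, rfl⟩)

/-- The Fermat form is smooth modulo the primes not dividing the degree. -/
theorem fermat {n d : ℕ} {A : Type} [CommRing A] {p : ℕ} (hp : p.Prime) (hpd : ¬ p ∣ d)
    (h : MvPolynomial (Fin (n + 1)) A) (P : Ideal (MvPolynomial (Fin (n + 1)) A)) [P.IsPrime]
    (hC : C (p : A) ∈ P) (hJ : jac (∑ i, X i ^ d + C (p : A) * h) ≤ P) (i : Fin (n + 1)) :
    X i ∈ P := by
  classical
  have h1 := hJ (jac_pderiv _ i)
  have h2 : pderiv i (∑ j, (X j : MvPolynomial (Fin (n + 1)) A) ^ d + C (p : A) * h) =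
      C (d : A) * X i ^ (d - 1) + C (p : A) * pderiv i h := by
    rw [map_add, pderiv_C_mul, map_sum]
    congr 1
    rw [Finset.sum_eq_single i]
    · rw [pderiv_pow, pderiv_X_self]
      simp
    · intro j _ hj
      rw [pderiv_pow, pderiv_X_of_ne hj, mul_zero]
    · intro h
      exact absurd (Finset.mem_univ _) h
  rw [h2] at h1
  have h3 : C (d : A) * X i ^ (d - 1) ∈ P :=
    (P.add_mem_iff_left (P.mul_mem_right _ hC)).1 h1
  rcases (inferInstance : P.IsPrime).mem_or_mem h3 with h4 | h4
  · exfalso
    have hco : IsCoprime (p : ℤ) (d : ℤ) :=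
      Nat.isCoprime_iff_coprime.2 ((Nat.Prime.coprime_iff_not_dvd hp).2 hpd)
    obtain ⟨u, v, huv⟩ := hco
    apply (inferInstance : P.IsPrime).ne_top
    rw [Ideal.eq_top_iff_one]
    have huv' : (u : A) * (p : A) + (v : A) * (d : A) = 1 := by
      have := congrArg (Int.cast : ℤ → A) huv
      simpa using this
    have : (1 : MvPolynomial (Fin (n + 1)) A) = C (u : A) * C (p : A) + C (v : A) * C (d : A) := by
      rw [← C_mul, ← C_mul, ← C_add, huv', C_1]
    rw [this]
    exact P.add_mem (P.mul_mem_left _ hC) (P.mul_mem_left _ h4)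
  · exact (inferInstance : P.IsPrime).mem_of_pow_mem _ h4

/-- The chain form. -/
noncomputable def chain (A : Type) [CommRing A] (n d : ℕ) : MvPolynomial (Fin (n + 1)) A :=
  ∑ i : Fin n, X i.castSucc ^ (d - 1) * X i.succ + X (Fin.last n) ^ d

theorem chain_homog {n d : ℕ} (A : Type) [CommRing A] (hd : 1 ≤ d) :
    (chain A n d).IsHomogeneous d := by
  unfold chain
  refine IsHomogeneous.add (IsHomogeneous.sum _ _ _ fun i _ => ?_) (isHomogeneous_X_pow _ _)
  have := (isHomogeneous_X_pow (R := A) i.castSucc (d - 1)).mul (isHomogeneous_X A i.succ)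
  rwa [Nat.sub_add_cancel hd] at this

theorem chain_map {n d : ℕ} (A : Type) [CommRing A] :
    MvPolynomial.map (Int.castRingHom A) (chain ℤ n d) = chain A n d := by
  unfold chain
  simp only [map_add, map_sum, map_mul, map_pow, map_X]

/-- The chain form is smooth modulo the primes dividing the degree. -/
theorem chain_smooth {n d : ℕ} {A : Type} [CommRing A] (hd : 3 ≤ d) {p : ℕ} (hpd : p ∣ d)
    (h : MvPolynomial (Fin (n + 1)) A) (P : Ideal (MvPolynomial (Fin (n + 1)) A)) [P.IsPrime]
    (hC : C (p : A) ∈ P) (hJ : jac (chain A n d + C (p : A) * h) ≤ P) (i : Fin (n + 1)) :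
    X i ∈ P := by
  classical
  have hdP : C (d : A) ∈ P := by
    obtain ⟨e, he⟩ := hpd
    rw [he, Nat.cast_mul, C_mul]
    exact P.mul_mem_right _ hC
  have hder : ∀ l, pderiv l (chain A n d) ∈ P := by
    intro l
    have h1 := hJ (jac_pderiv _ l)
    rw [map_add, pderiv_C_mul] at h1
    exact (P.add_mem_iff_left (P.mul_mem_right _ hC)).1 h1
  have hself : chain A n d ∈ P :=
    (P.add_mem_iff_left (P.mul_mem_right _ hC)).1 (hJ (jac_self _))
  have hstep : ∀ k : Fin n, (∀ j : Fin n, k < j → X j.castSucc ∈ P) → X k.castSucc ∈ P := by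
    intro k hk
    have h1 := hder k.succ
    unfold chain at h1
    rw [map_add, map_sum, pderiv_pow] at h1
    have h2 : C (d : A) * (X (Fin.last n) ^ (d - 1) *
        (pderiv k.succ (X (Fin.last n) : MvPolynomial (Fin (n + 1)) A))) ∈ P :=
      P.mul_mem_right _ hdP
    have h3 : ∑ x : Fin n, pderiv k.succ
        ((X x.castSucc : MvPolynomial (Fin (n + 1)) A) ^ (d - 1) * X x.succ) ∈ P := by
      refine (P.add_mem_iff_left ?_).1 h1
      convert h2 using 1
      simp [mul_assoc]
    rw [← Finset.add_sum_erase _ _ (Finset.mem_univ k)] at h3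
    have h4 : ∑ x ∈ Finset.univ.erase k, pderiv k.succ
        ((X x.castSucc : MvPolynomial (Fin (n + 1)) A) ^ (d - 1) * X x.succ) ∈ P := by
      refine Ideal.sum_mem _ fun x hx => ?_
      have hxk : x ≠ k := (Finset.mem_erase.1 hx).1
      have hne : x.succ ≠ k.succ := fun e => hxk (Fin.succ_injective _ e)
      rw [pderiv_mul, pderiv_X_of_ne hne, mul_zero, add_zero, pderiv_pow]
      by_cases hx2 : x.castSucc = k.succ
      · have hlt : k < x := by
          have : (x : ℕ) = k + 1 := by
            have := congrArg Fin.val hx2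
            simpa using this
          exact Fin.lt_def.2 (by omega)
        have hm := hk x hlt
        have hpow : (X x.castSucc : MvPolynomial (Fin (n + 1)) A) ^ (d - 1 - 1) ∈ P :=
          P.pow_mem_of_mem hm _ (by omega)
        exact P.mul_mem_right _ (P.mul_mem_right _ (P.mul_mem_left _ hpow))
      · rw [pderiv_X_of_ne hx2, mul_zero, zero_mul]
        exact P.zero_mem
    have h5 : pderiv k.succ
        ((X k.castSucc : MvPolynomial (Fin (n + 1)) A) ^ (d - 1) * X k.succ) ∈ P :=
      (P.add_mem_iff_left h4).1 h3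
    have hne : k.castSucc ≠ k.succ := (Fin.castSucc_lt_succ (i := k)).ne
    rw [pderiv_mul, pderiv_pow, pderiv_X_of_ne hne, pderiv_X_self, mul_zero, zero_mul, zero_add,
      mul_one] at h5
    exact (inferInstance : P.IsPrime).mem_of_pow_mem _ h5
  have hall : ∀ m : ℕ, ∀ k : Fin n, n - (k : ℕ) ≤ m → X k.castSucc ∈ P := by
    intro m
    induction m with
    | zero =>
      intro k hk
      have := k.2
      omega
    | succ m ih =>
      intro k hk
      refine hstep k fun j hj => ih j ?_
      have := Fin.lt_def.1 hj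
      omega
  have hcast : ∀ k : Fin n, X k.castSucc ∈ P := fun k => hall _ k le_rfl
  refine Fin.lastCases ?_ hcast i
  have h6 : ∑ i : Fin n, (X i.castSucc : MvPolynomial (Fin (n + 1)) A) ^ (d - 1) * X i.succ ∈ P :=
    Ideal.sum_mem _ fun x _ => P.mul_mem_right _ (P.pow_mem_of_mem (hcast x) _ (by omega))
  have h7 : (X (Fin.last n) : MvPolynomial (Fin (n + 1)) A) ^ d ∈ P :=
    (P.add_mem_iff_right h6).1 hself
  exact (inferInstance : P.IsPrime).mem_of_pow_mem _ h7

/-- Coefficients of a form which is smooth modulo a given prime, over every ring. -/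
theorem prime_class {n d : ℕ} (hd : 3 ≤ d) (p : ℕ) (hp : p.Prime) :
    ∃ s : Mono n d → ℤ, ∀ (A : Type) [CommRing A], ∀ h : MvPolynomial (Fin (n + 1)) A,
      ∀ P : Ideal (MvPolynomial (Fin (n + 1)) A), P.IsPrime → C (p : A) ∈ P →
        jac (form (fun μ => (s μ : A)) + C (p : A) * h) ≤ P → ∀ i, X i ∈ P := by
  by_cases hpd : p ∣ d
  · obtain ⟨s, hs⟩ := form_exists (chain_homog (n := n) (d := d) ℤ (by omega))
    refine ⟨s, fun A _ h P hP hC hJ i => ?_⟩
    have hs' : form (fun μ => (s μ : A)) = chain A n d := by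
      rw [← chain_map A, ← hs, form_map]
      rfl
    rw [hs'] at hJ
    exact chain_smooth hd hpd h P hC hJ i
  · obtain ⟨s, hs⟩ := form_exists (n := n) (d := d) (R := ℤ) (f := ∑ i, X i ^ d)
      (IsHomogeneous.sum _ _ _ fun i _ => isHomogeneous_X_pow i d)
    refine ⟨s, fun A _ h P hP hC hJ i => ?_⟩
    have hs' : form (fun μ => (s μ : A)) = ∑ i, (X i : MvPolynomial (Fin (n + 1)) A) ^ d := by
      have := congrArg (MvPolynomial.map (Int.castRingHom A)) hs
      rw [form_map] at this
      simp only [map_sum, map_pow, map_X] at this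
      exact this
    rw [hs'] at hJ
    exact fermat hp hpd h P hC hJ i

/-- The Nakayama step. -/
theorem nakayama {n d : ℕ} {A : Type} [CommRing A] {f : MvPolynomial (Fin (n + 1)) A}
    (hf : f.IsHomogeneous d) (q : A)
    (hrad : ∀ P : Ideal (MvPolynomial (Fin (n + 1)) A), P.IsPrime → C q ∈ P → jac f ≤ P →
      ∀ i, X i ∈ P) :
    ∃ (m : A) (K : ℕ), q ∣ m - 1 ∧ ∀ i, C m * X i ^ K ∈ jac f := by
  classical
  have h1 : idealOfVars (Fin (n + 1)) A ≤ (jac f ⊔ Ideal.span {C q}).radical := by
    rw [Ideal.radical_eq_sInf, idealOfVars, Ideal.span_le]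
    rintro _ ⟨i, rfl⟩
    rw [SetLike.mem_coe, Submodule.mem_sInf]
    rintro P ⟨hP1, hP2⟩
    refine hrad P hP2 ?_ ?_ i
    · exact hP1 (Ideal.mem_sup_right (Ideal.mem_span_singleton_self _))
    · exact le_sup_left.trans hP1
  obtain ⟨K, hK⟩ := Ideal.exists_pow_le_of_le_radical_of_fg h1 (idealOfVars_fg _ _)
  have hJhom : (jac f).IsHomogeneous (homogeneousSubmodule (Fin (n + 1)) A) := by
    refine Ideal.homogeneous_span _ _ ?_
    rintro x (rfl | ⟨l, rfl⟩)
    · exact ⟨d, hf⟩
    · exact ⟨d - 1, hf.pderiv⟩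
  set V := homogeneousSubmodule (Fin (n + 1)) A K with hV
  have hVfg : V.FG := homogeneousSubmodule_fg _ _ _
  set J' : Submodule A (MvPolynomial (Fin (n + 1)) A) := (jac f).restrictScalars A with hJ'
  have hVle : V ≤ J' ⊔ (Ideal.span {q} : Ideal A) • V := by
    intro v hv
    have hvh : v.IsHomogeneous K := hv
    have hv1 : v ∈ idealOfVars (Fin (n + 1)) A ^ K := by
      rw [mem_pow_idealOfVars_iff']
      intro x hx
      exact hvh.coeff_eq_zero hx.ne
    obtain ⟨j, hj, w, hw, hjw⟩ := Submodule.mem_sup.1 (hK hv1)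
    obtain ⟨c, rfl⟩ := Ideal.mem_span_singleton'.1 hw
    have h2 : v = homogeneousComponent K j + q • homogeneousComponent K c := by
      conv_lhs => rw [← homogeneousComponent_eq_self hvh, ← hjw]
      rw [map_add, mul_comm, homogeneousComponent_C_mul, ← smul_eq_C_mul]
    rw [h2]
    refine Submodule.add_mem_sup ?_ ?_
    · exact homogeneousComponent_mem_of_mem hJhom hj K
    · exact Submodule.smul_mem_smul (Ideal.mem_span_singleton_self q)
        (homogeneousComponent_isHomogeneous K c)
  obtain ⟨m, hm1, hm2⟩ := Submodule.exists_sub_one_mem_and_smul_le_of_fg_of_le_sup hVfg le_rfl hVle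
  refine ⟨m, K, Ideal.mem_span_singleton.1 hm1, fun i => ?_⟩
  have h3 : m • (X i ^ K : MvPolynomial (Fin (n + 1)) A) ∈ m • V :=
    Submodule.smul_mem_pointwise_smul _ _ _ (isHomogeneous_X_pow i K)
  have h4 := hm2 h3
  rw [smul_eq_C_mul] at h4
  exact h4

end SmoothAlg

open SmoothAlg in
/-- TASK F (smooth residue classes over any ring). -/
theorem dens_exists_smooth_class_alg {n d : ℕ} (hd : 3 ≤ d) (M : ℕ) (hM : 2 ≤ M) :
    ∃ (q : ℕ) (r : Mono n d → ℤ), 1 ≤ q ∧ (∀ p : ℕ, p.Prime → (p ∣ q ↔ p ≤ M)) ∧
      ∀ (A : Type) [CommRing A] (a : Mono n d → A), ∃ (m : A) (K : ℕ), (q : A) ∣ m - 1 ∧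
        ∀ i, C m * X i ^ K ∈ Ideal.span
          (insert (form fun μ => (r μ : A) + q * a μ)
            (Set.range fun l => pderiv l (form fun μ => (r μ : A) + q * a μ))) := by
  classical
  have _ := hM
  choose! s hs using fun p (hp : p.Prime) => prime_class (n := n) hd p hp
  set T : Finset ℕ := (Finset.range (M + 1)).filter Nat.Prime with hT
  have hTp : ∀ p ∈ T, p.Prime := fun p hp => (Finset.mem_filter.1 hp).2
  have hTM : ∀ p ∈ T, p ≤ M := fun p hp =>
    Nat.lt_succ_iff.1 (Finset.mem_range.1 (Finset.mem_filter.1 hp).1)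
  have hmemT : ∀ p : ℕ, p.Prime → p ≤ M → p ∈ T := fun p hp hpM =>
    Finset.mem_filter.2 ⟨Finset.mem_range.2 (Nat.lt_succ_of_le hpM), hp⟩
  have hcop : Set.Pairwise (T : Set ℕ) (Function.onFun Nat.Coprime fun p => p) := by
    intro a ha b hb hab
    exact (Nat.coprime_primes (hTp a ha) (hTp b hb)).2 hab
  have hcrt : ∀ μ : Mono n d, ∃ r : ℤ, ∀ p ∈ T, (p : ℤ) ∣ r - s p μ := by
    intro μ
    obtain ⟨k, hk⟩ := Nat.chineseRemainderOfFinset (fun p => (s p μ % (p : ℤ)).toNat)
      (fun p => p) T (fun p hp => (hTp p hp).ne_zero) hcop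
    refine ⟨k, fun p hp => ?_⟩
    have h1 := (Nat.modEq_iff_dvd.1 (hk p hp).symm)
    have hp0 : (p : ℤ) ≠ 0 := by exact_mod_cast (hTp p hp).ne_zero
    rw [Int.toNat_of_nonneg (Int.emod_nonneg _ hp0)] at h1
    have h2 : (p : ℤ) ∣ s p μ % (p : ℤ) - s p μ := by
      rw [Int.emod_def]
      exact ⟨-(s p μ / p), by ring⟩
    have h3 := dvd_add h1 h2
    have h4 : (k : ℤ) - s p μ % (p : ℤ) + (s p μ % (p : ℤ) - s p μ) = k - s p μ := by ring
    rwa [h4] at h3
  choose r hr using hcrt
  set q : ℕ := ∏ p ∈ T, p with hq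
  have hq1 : 1 ≤ q := Nat.one_le_iff_ne_zero.2
    (Finset.prod_ne_zero_iff.2 fun p hp => (hTp p hp).ne_zero)
  have hdvd : ∀ p ∈ T, p ∣ q := fun p hp => Finset.dvd_prod_of_mem _ hp
  refine ⟨q, r, hq1, ?_, fun A _ a => ?_⟩
  · intro p hp
    constructor
    · intro hpq
      obtain ⟨l, hl, hpl⟩ := (Nat.Prime.prime hp).exists_mem_finset_dvd hpq
      exact (Nat.le_of_dvd (hTp l hl).pos hpl).trans (hTM l hl)
    · intro hpM
      exact hdvd p (hmemT p hp hpM)
  · set f := form (fun μ => (r μ : A) + (q : A) * a μ) with hf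
    have hfp : ∀ p ∈ T, ∃ h, f = form (fun μ => (s p μ : A)) + C (p : A) * h := by
      intro p hp
      have hex : ∀ μ, ∃ t : A, (r μ : A) + (q : A) * a μ = (s p μ : A) + p * t := by
        intro μ
        obtain ⟨t1, ht1⟩ := hr μ p hp
        obtain ⟨t2, ht2⟩ := hdvd p hp
        refine ⟨(t1 : A) + (t2 : A) * a μ, ?_⟩
        have h1 : (q : A) = (p : A) * (t2 : A) := by exact_mod_cast congrArg (Nat.cast : ℕ → A) ht2
        have h2 : (r μ : A) - (s p μ : A) = (p : A) * (t1 : A) := by
          have := congrArg (Int.cast : ℤ → A) ht1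
          simpa using this
        rw [h1]
        linear_combination h2
      choose t ht using hex
      refine ⟨form t, ?_⟩
      rw [hf, ← form_smul, ← form_add]
      congr 1
      funext μ
      simpa using ht μ
    exact nakayama (form_isHomogeneous _ : f.IsHomogeneous d) (q : A) (by
      intro P hP hCq hJ i
      have h1 : ∏ p ∈ T, (C (p : A) : MvPolynomial (Fin (n + 1)) A) ∈ P := by
        have : (∏ p ∈ T, (C (p : A) : MvPolynomial (Fin (n + 1)) A)) = C (q : A) := by
          rw [hq, Nat.cast_prod, map_prod]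
        rw [this]
        exact hCq
      obtain ⟨p, hp, hpP⟩ := hP.prod_mem_iff.1 h1
      obtain ⟨h, hh⟩ := hfp p hp
      refine hs p (hTp p hp) A h P hP hpP ?_ i
      rw [← hh]
      exact hJ)

end Pool.Agent.Lib.MP_6a3dac_ag
end

section

/-!
# Zero sets without generic points are finite
-/

set_option autoImplicit false

namespace Pool.Agent.Lib.MP_6a3dac_ag.Maj

open MvPolynomial

/-- A proper ideal in a polynomial ring over a field has a zero in every algebraically closed
extension. -/
theorem i4_exists_zero {F Ω : Type} [Field F] [Field Ω] [Algebra F Ω] [IsAlgClosed Ω]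
    {σ : Type} [Finite σ] (I : Ideal (MvPolynomial σ F)) (hI : I ≠ ⊤) :
    ∃ z : σ → Ω, ∀ f ∈ I, aeval z f = 0 := by
  obtain ⟨m, hm, hIm⟩ := Ideal.exists_le_maximal I hI
  let _ : Field (MvPolynomial σ F ⧸ m) := Ideal.Quotient.field m
  have _ : Algebra.FiniteType F (MvPolynomial σ F ⧸ m) := inferInstance
  have _ : Module.Finite F (MvPolynomial σ F ⧸ m) := finite_of_finite_type_of_isJacobsonRing F _
  have _ : Algebra.IsAlgebraic F (MvPolynomial σ F ⧸ m) := Algebra.IsAlgebraic.of_finite F _
  let φ : (MvPolynomial σ F ⧸ m) →ₐ[F] Ω := IsAlgClosed.lift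
  refine ⟨fun i => φ (Ideal.Quotient.mk m (X i)), fun f hf => ?_⟩
  have h1 : aeval (fun i => φ (Ideal.Quotient.mk m (X i))) f
      = (φ.comp (Ideal.Quotient.mkₐ F m)) f := by
    have : aeval (fun i => φ (Ideal.Quotient.mk m (X i))) = φ.comp (Ideal.Quotient.mkₐ F m) := by
      apply MvPolynomial.algHom_ext
      intro i
      simp
    rw [this]
  rw [h1]
  have h2 : Ideal.Quotient.mk m f = 0 := Ideal.Quotient.eq_zero_iff_mem.2 (hIm hf)
  simp only [AlgHom.comp_apply, Ideal.Quotient.mkₐ_eq_mk, h2, map_zero]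

/-- Inverting the nonzero polynomials in an element which satisfies no polynomial equation. -/
theorem i4_hom {K : Type} [Field K] {R : Type} [CommRing R] (g : Polynomial K →+* R)
    (hg : ∀ p : Polynomial K, p ≠ 0 → g p ≠ 0) :
    ∃ (A : Type) (_ : CommRing A) (_ : Nontrivial A) (α : R →+* A)
      (ψ : FractionRing (Polynomial K) →+* A),
      ∀ p : Polynomial K, ψ (algebraMap (Polynomial K) (FractionRing (Polynomial K)) p)
        = α (g p) := by
  let M : Submonoid R := (nonZeroDivisors (Polynomial K)).map g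
  have h0 : (0 : R) ∉ M := by
    rintro ⟨p, hp, hp0⟩
    exact hg p (nonZeroDivisors.ne_zero hp) hp0
  have hA : Nontrivial (Localization M) := by
    refine ⟨⟨0, 1, fun h01 => ?_⟩⟩
    have h1 : algebraMap R (Localization M) 0 = algebraMap R (Localization M) 1 := by
      rw [map_zero, map_one, h01]
    obtain ⟨c, hc⟩ := (IsLocalization.eq_iff_exists M (Localization M)).1 h1
    rw [mul_zero, mul_one] at hc
    exact h0 (hc ▸ c.2)
  have hunit : ∀ y : nonZeroDivisors (Polynomial K),
      IsUnit (((algebraMap R (Localization M)).comp g) y) := by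
    intro y
    have : g (y : Polynomial K) ∈ M := ⟨y, y.2, rfl⟩
    exact IsLocalization.map_units (Localization M) (⟨_, this⟩ : M)
  refine ⟨Localization M, inferInstance, hA, algebraMap R (Localization M),
    IsLocalization.lift (M := nonZeroDivisors (Polynomial K)) hunit, fun p => ?_⟩
  exact IsLocalization.lift_eq hunit p

/-- If no zero of the ideal `J` has the transcendental `j`-th coordinate `t`, the `j`-th
coordinate satisfies a polynomial equation modulo `J`. (Otherwise the localization of
`K[x] / J` at the nonzero polynomials in `x_j` is a nonzero algebra of finite type over `K(x_j)`; a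
maximal ideal gives a finite extension of `K(x_j)`, which embeds into `Ω` with `x_j ↦ t`.) -/
theorem exists_poly_of_no_generic {K Ω : Type} [Field K] [Field Ω] [Algebra K Ω] [IsAlgClosed Ω]
    {σ : Type} [Finite σ] (J : Ideal (MvPolynomial σ K)) (j : σ) {t : Ω} (ht : Transcendental K t)
    (h : ∀ z : σ → Ω, (∀ f ∈ J, aeval z f = 0) → z j ≠ t) :
    ∃ p : Polynomial K, p ≠ 0 ∧ Polynomial.aeval (X j : MvPolynomial σ K) p ∈ J := by
  by_contra hcon
  push Not at hcon
  let F := FractionRing (Polynomial K)
  have htinj : Function.Injective (Polynomial.aeval t : Polynomial K →ₐ[K] Ω) :=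
    transcendental_iff_injective.1 ht
  let θ : F →+* Ω := IsFractionRing.lift (A := Polynomial K) (K := F)
    (g := (Polynomial.aeval t : Polynomial K →ₐ[K] Ω).toRingHom) htinj
  let algFΩ : Algebra F Ω := θ.toAlgebra
  let ι : K →+* F := (algebraMap (Polynomial K) F).comp Polynomial.C
  have hθ : ∀ p : Polynomial K, θ (algebraMap (Polynomial K) F p) = Polynomial.aeval t p :=
    fun p => IsFractionRing.lift_algebraMap htinj p
  have hθι : ∀ c : K, θ (ι c) = algebraMap K Ω c := by
    intro c
    have := hθ (Polynomial.C c)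
    simpa [ι] using this
  let T : F := algebraMap (Polynomial K) F Polynomial.X
  let I : Ideal (MvPolynomial σ F) :=
    Ideal.map (MvPolynomial.map ι) J ⊔ Ideal.span {X j - C T}
  have hI : I ≠ ⊤ := by
    intro htop
    let R := MvPolynomial σ K ⧸ J
    let xj : R := Ideal.Quotient.mk J (X j)
    let g : Polynomial K →ₐ[K] R := Polynomial.aeval xj
    have hg : ∀ p : Polynomial K, p ≠ 0 → g.toRingHom p ≠ 0 := by
      intro p hp h0
      apply hcon p hp
      rw [← Ideal.Quotient.eq_zero_iff_mem]
      have : Ideal.Quotient.mk J (Polynomial.aeval (X j : MvPolynomial σ K) p) = g p := by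
        have := Polynomial.aeval_algHom_apply (Ideal.Quotient.mkₐ K J) (X j) p
        simpa [g, xj] using this.symm
      rw [this]
      exact h0
    obtain ⟨A, instA, hA, α, ψ, hψ⟩ := i4_hom g.toRingHom hg
    let Φ : MvPolynomial σ F →+* A :=
      MvPolynomial.eval₂Hom ψ (fun i => α (Ideal.Quotient.mk J (X i)))
    have hΦmap : ∀ f : MvPolynomial σ K, Φ (MvPolynomial.map ι f)
        = α (Ideal.Quotient.mk J f) := by
      intro f
      have : Φ.comp (MvPolynomial.map ι) = α.comp (Ideal.Quotient.mk J) := by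
        apply MvPolynomial.ringHom_ext
        · intro c
          simp only [RingHom.comp_apply, MvPolynomial.map_C, Φ, MvPolynomial.coe_eval₂Hom,
            MvPolynomial.eval₂_C]
          show ψ (algebraMap (Polynomial K) F (Polynomial.C c)) = _
          rw [hψ]
          congr 1
          show g (Polynomial.C c) = _
          rw [Polynomial.C_eq_algebraMap, AlgHom.commutes]
          rfl
        · intro i
          simp [Φ]
      exact congrArg (fun (q : MvPolynomial σ K →+* A) => q f) this
    have hle : I ≤ RingHom.ker Φ := by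
      apply sup_le
      · rw [Ideal.map_le_iff_le_comap]
        intro f hf
        rw [Ideal.mem_comap, RingHom.mem_ker, hΦmap, Ideal.Quotient.eq_zero_iff_mem.2 hf, map_zero]
      · rw [Ideal.span_le, Set.singleton_subset_iff]
        show Φ (X j - C T) = 0
        simp only [Φ, map_sub, MvPolynomial.coe_eval₂Hom, MvPolynomial.eval₂_X,
          MvPolynomial.eval₂_C]
        rw [sub_eq_zero]
        show _ = ψ (algebraMap (Polynomial K) F Polynomial.X)
        rw [hψ]
        congr 1
        show xj = g Polynomial.X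
        simp [g]
    have h1 : (1 : MvPolynomial σ F) ∈ RingHom.ker Φ := hle (htop ▸ Submodule.mem_top)
    rw [RingHom.mem_ker, map_one] at h1
    exact one_ne_zero h1
  obtain ⟨z, hz⟩ := i4_exists_zero (Ω := Ω) I hI
  have hzT : z j = t := by
    have := hz (X j - C T) (Ideal.mem_sup_right (Ideal.mem_span_singleton_self _))
    rw [map_sub, aeval_X, aeval_C, sub_eq_zero] at this
    rw [this]
    show θ (algebraMap (Polynomial K) F Polynomial.X) = t
    rw [hθ, Polynomial.aeval_X]
  apply h z _ hzT
  intro f hf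
  have h1 := hz (MvPolynomial.map ι f) (Ideal.mem_sup_left (Ideal.mem_map_of_mem _ hf))
  rw [← h1]
  rw [aeval_def, aeval_def, MvPolynomial.eval₂_map]
  congr 1
  ext c
  exact (hθι c).symm

/-- If all coordinates satisfy polynomial equations modulo `J`, the quotient is finite
dimensional. -/
theorem finite_quot_of_poly {K : Type} [Field K] {σ : Type} [Finite σ]
    (J : Ideal (MvPolynomial σ K))
    (h : ∀ j, ∃ p : Polynomial K, p ≠ 0 ∧ Polynomial.aeval (X j : MvPolynomial σ K) p ∈ J) :
    Module.Finite K (MvPolynomial σ K ⧸ J) := by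
  have hint : ∀ j, IsIntegral K (Ideal.Quotient.mk J (X j)) := by
    intro j
    obtain ⟨p, hp, hpJ⟩ := h j
    rw [← isAlgebraic_iff_isIntegral]
    refine ⟨p, hp, ?_⟩
    have := Polynomial.aeval_algHom_apply (Ideal.Quotient.mkₐ K J) (X j) p
    rw [Ideal.Quotient.mkₐ_eq_mk] at this
    rw [this]
    exact Ideal.Quotient.eq_zero_iff_mem.2 hpJ
  have hII : Algebra.IsIntegral K (MvPolynomial σ K ⧸ J) := by
    constructor
    intro y
    obtain ⟨f, rfl⟩ := Ideal.Quotient.mk_surjective y
    induction f using MvPolynomial.induction_on with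
    | C c => exact isIntegral_algebraMap (R := K) (A := MvPolynomial σ K ⧸ J) (x := c)
    | add p q hp hq => rw [map_add]; exact hp.add hq
    | mul_X p j hp => rw [map_mul]; exact hp.mul (hint j)
  exact Algebra.IsIntegral.finite

/-- If all coordinates satisfy polynomial equations modulo `J`, there are finitely many
zeros. -/
theorem finite_zeros_of_poly {K Ω : Type} [Field K] [Field Ω] [Algebra K Ω] {σ : Type} [Finite σ]
    (J : Ideal (MvPolynomial σ K))
    (h : ∀ j, ∃ p : Polynomial K, p ≠ 0 ∧ Polynomial.aeval (X j : MvPolynomial σ K) p ∈ J) :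
    {z : σ → Ω | ∀ f ∈ J, aeval z f = 0}.Finite := by
  choose p hp hpJ using h
  have hfin : {z : σ → Ω | ∀ j, z j ∈ (p j).rootSet Ω}.Finite :=
    Set.Finite.pi' (fun j => Polynomial.rootSet_finite (p j) Ω)
  refine hfin.subset ?_
  intro z hz j
  rw [Polynomial.mem_rootSet]
  refine ⟨hp j, ?_⟩
  have := hz _ (hpJ j)
  have h2 := Polynomial.aeval_algHom_apply (aeval z : MvPolynomial σ K →ₐ[K] Ω) (X j) (p j)
  rw [aeval_X] at h2
  rw [h2, this]

end Pool.Agent.Lib.MP_6a3dac_ag.Maj
end

section

/-!
# Analytic independence of systems of parameters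
-/

set_option autoImplicit false

namespace Pool.Agent.Lib.MP_6a3dac_ag.Maj

open MvPolynomial IsLocalRing

/-- An element of `(f) ^ (s + 1)` is the value at `f` of a form of degree `s` with coefficients
in `(f)`. -/
theorem i1_exists_form {R : Type} [CommRing R] {T : Type} (f : T → R) {s : ℕ} {x : R}
    (hx : x ∈ Ideal.span (Set.range f) ^ (s + 1)) :
    ∃ G : MvPolynomial T R, G.IsHomogeneous s ∧ (∀ α, G.coeff α ∈ Ideal.span (Set.range f)) ∧
      aeval f G = x := by
  rw [pow_succ'] at hx
  refine Submodule.mul_induction_on hx ?_ ?_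
  · intro a ha b hb
    obtain ⟨H, hH, hHb⟩ := (Ideal.mem_span_pow_iff_exists_isHomogeneous f b).mp hb
    refine ⟨C a * H, by simpa using hH.C_mul a, ?_, ?_⟩
    · intro α
      rw [coeff_C_mul]
      exact Ideal.mul_mem_right _ _ ha
    · rw [map_mul, aeval_C, Algebra.algebraMap_self, RingHom.id_apply]
      congr 1
  · rintro x y ⟨G, hG, hGc, hGx⟩ ⟨H, hH, hHc, hHy⟩
    refine ⟨G + H, hG.add hH, ?_, ?_⟩
    · intro α
      rw [coeff_add]
      exact add_mem (hGc α) (hHc α)
    · rw [map_add, hGx, hHy]

/-- The value of a form at a multiple of a point. -/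
theorem i1_eval_mul {R : Type} [CommRing R] {T : Type} {s : ℕ}
    (F : MvPolynomial T R) (hF : F.IsHomogeneous s) (a : T → R) (c : R) :
    eval (fun i => a i * c) F = c ^ s * eval a F := by
  rw [eval_eq, eval_eq, Finset.mul_sum]
  refine Finset.sum_congr rfl fun d hd => ?_
  have h1 : ∑ i ∈ d.support, d i = s := by
    have := hF (mem_support_iff.mp hd)
    rw [← this]
    simp [Finsupp.weight_apply, Finsupp.sum]
  rw [← h1, ← Finset.prod_pow_eq_pow_sum]
  simp_rw [mul_pow]
  rw [Finset.prod_mul_distrib]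
  ring

theorem analytic_indep {R : Type} [CommRing R] [IsLocalRing R] [IsNoetherianRing R]
    [Infinite (ResidueField R)] {T : Type} [Fintype T] (f : T → R)
    (hdim : ((Fintype.card T : ℕ) : WithBot ℕ∞) ≤ ringKrullDim R)
    (hrad : ∃ k, maximalIdeal R ^ k ≤ Ideal.span (Set.range f)) (hf : ∀ i, f i ∈ maximalIdeal R)
    {s : ℕ} (F : MvPolynomial T R) (hF : F.IsHomogeneous s)
    (h : aeval f F ∈ Ideal.span (Set.range f) ^ (s + 1)) (α : T →₀ ℕ) :
    F.coeff α ∈ maximalIdeal R := by
  classical
  by_contra hα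
  have hspan : Ideal.span (Set.range f) ≤ maximalIdeal R := by
    rw [Ideal.span_le]
    rintro _ ⟨i, rfl⟩
    exact hf i
  obtain ⟨G, hG, hGc, hGf⟩ := i1_exists_form f h
  -- the form vanishing at `f`
  set H := F - G with hHdef
  have hH : H.IsHomogeneous s := hF.sub hG
  have hHf : aeval f H = 0 := by rw [hHdef, map_sub, hGf, sub_self]
  have hHα : H.coeff α ∉ maximalIdeal R := by
    rw [hHdef, coeff_sub]
    intro hc
    apply hα
    have := add_mem hc (hspan (hGc α))
    simpa using this
  have hne : (map (residue R)) H ≠ 0 := by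
    intro h0
    apply hHα
    have := congrArg (coeff α) h0
    rw [coeff_map, coeff_zero] at this
    exact (residue_eq_zero_iff _).mp this
  by_cases hT : Nonempty T
  swap
  · have hT' : IsEmpty T := not_nonempty_iff.mp hT
    apply hHα
    have h1 : H = C (H.coeff 0) := eq_C_of_isEmpty H
    have h2 : α = 0 := Subsingleton.elim _ _
    rw [h1] at hHf
    rw [aeval_C, Algebra.algebraMap_self, RingHom.id_apply] at hHf
    rw [h2, hHf]
    exact zero_mem _
  obtain ⟨t₀⟩ := hT
  -- a point where the reduced form and the coordinate `t₀` do not vanish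
  have hne' : (map (residue R)) H * X t₀ ≠ 0 := mul_ne_zero hne (X_ne_zero t₀)
  have hex : ∃ a : T → ResidueField R, eval a ((map (residue R)) H * X t₀) ≠ 0 := by
    by_contra hcon
    push Not at hcon
    exact hne' (MvPolynomial.funext fun x => by rw [hcon x, map_zero])
  obtain ⟨a, ha⟩ := hex
  rw [map_mul, eval_X] at ha
  have ha1 := left_ne_zero_of_mul ha
  have ha2 := right_ne_zero_of_mul ha
  choose b hb using fun i => residue_surjective (R := R) (a i)
  have hunit : IsUnit (eval b H) := by
    by_contra hcon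
    have h1 : eval b H ∈ maximalIdeal R := (mem_maximalIdeal _).mpr hcon
    have h2 : residue R (eval b H) = 0 := (residue_eq_zero_iff _).mpr h1
    apply ha1
    have h3 : a = residue R ∘ b := by
      funext i
      exact (hb i).symm
    rw [← h2, eval_map, eval, coe_eval₂Hom, eval₂_comp_left, h3, RingHom.comp_id]
  have hunit0 : IsUnit (b t₀) := by
    by_contra hcon
    have h1 : b t₀ ∈ maximalIdeal R := (mem_maximalIdeal _).mpr hcon
    have h2 : residue R (b t₀) = 0 := (residue_eq_zero_iff _).mpr h1
    exact ha2 ((hb t₀).symm.trans h2)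
  obtain ⟨u, hu⟩ := hunit0
  let g : R := ↑u⁻¹ * f t₀
  let y : T → R := fun i => f i - b i * g
  have hy0 : y t₀ = 0 := by
    simp only [y, g]
    rw [← hu, ← mul_assoc, Units.mul_inv, one_mul, sub_self]
  let J : Ideal R := Ideal.span (((Finset.univ.erase t₀).image y : Finset R) : Set R)
  have hyJ : ∀ i, y i ∈ J := by
    intro i
    by_cases hi : i = t₀
    · rw [hi, hy0]
      exact zero_mem _
    · apply Ideal.subset_span
      rw [Finset.mem_coe, Finset.mem_image]
      exact ⟨i, Finset.mem_erase.mpr ⟨hi, Finset.mem_univ _⟩, rfl⟩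
  have hgs : g ^ s ∈ J := by
    have h1 : Ideal.Quotient.mk J (eval f H) = Ideal.Quotient.mk J (eval (fun i => b i * g) H) := by
      rw [eval, eval, coe_eval₂Hom, coe_eval₂Hom, eval₂_comp_left, eval₂_comp_left]
      congr 1
      funext i
      simp only [Function.comp_apply]
      rw [Ideal.Quotient.mk_eq_mk_iff_sub_mem]
      exact hyJ i
    have h2 : eval f H = 0 := by rw [← hHf]; rfl
    rw [h2, map_zero, i1_eval_mul H hH] at h1
    have h3 : g ^ s * eval b H ∈ J := Ideal.Quotient.eq_zero_iff_mem.mp h1.symm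
    exact (Ideal.mul_unit_mem_iff_mem J hunit).mp h3
  have hgrad : g ∈ J.radical := ⟨s, hgs⟩
  have hfrad : Ideal.span (Set.range f) ≤ J.radical := by
    rw [Ideal.span_le]
    rintro _ ⟨i, rfl⟩
    have : f i = y i + b i * g := by simp only [y]; ring
    rw [this]
    exact add_mem (Ideal.le_radical (hyJ i)) (Ideal.mul_mem_left _ _ hgrad)
  have hmrad : maximalIdeal R ≤ J.radical := by
    obtain ⟨k, hk⟩ := hrad
    intro z hz
    have : z ^ k ∈ J.radical := hfrad (hk (Ideal.pow_mem_pow hz k))
    exact J.radical_isRadical ⟨k, this⟩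
  have hJm : J ≤ maximalIdeal R := by
    rw [Ideal.span_le]
    intro z hz
    rw [Finset.mem_coe, Finset.mem_image] at hz
    obtain ⟨i, -, rfl⟩ := hz
    exact sub_mem (hf i) (Ideal.mul_mem_left _ _ (Ideal.mul_mem_left _ _ (hf t₀)))
  have hmin : maximalIdeal R ∈ J.minimalPrimes := by
    refine ⟨⟨inferInstance, hJm⟩, ?_⟩
    rintro p ⟨hp, hJp⟩ -
    exact hmrad.trans (hp.radical_le_iff.mpr hJp)
  have hht := Ideal.height_le_card_of_mem_minimalPrimes_span_finset hmin
  rw [← maximalIdeal_height_eq_ringKrullDim] at hdim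
  have hdim' : ((Fintype.card T : ℕ) : ℕ∞) ≤ (maximalIdeal R).height := by
    exact_mod_cast hdim
  have h5 := hdim'.trans hht
  have h6 : Fintype.card T ≤ ((Finset.univ.erase t₀).image y).card := by exact_mod_cast h5
  have h7 : ((Finset.univ.erase t₀).image y).card ≤ (Finset.univ.erase t₀).card :=
    Finset.card_image_le
  rw [Finset.card_erase_of_mem (Finset.mem_univ _), Finset.card_univ] at h7
  have h8 : 0 < Fintype.card T := Fintype.card_pos_iff.mpr ⟨t₀⟩
  omega

end Pool.Agent.Lib.MP_6a3dac_ag.Maj
end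

section

/-!
# Algebraic relations of small degree
-/

set_option autoImplicit false

namespace Pool.Agent.Lib.MP_6a3dac_ag.Maj

open MvPolynomial

/-- the exponent of a bounded exponent function -/
noncomputable def i2_expo {σ : Type} [Fintype σ] {K : ℕ} (α : σ → Fin (K + 1)) : σ →₀ ℕ :=
  Finsupp.equivFunOnFinite.symm fun t => (α t : ℕ)

lemma i2_expo_apply {σ : Type} [Fintype σ] {K : ℕ} (α : σ → Fin (K + 1)) (t : σ) :
    i2_expo α t = (α t : ℕ) := rfl

lemma i2_expo_inj {σ : Type} [Fintype σ] {K : ℕ} {α β : σ → Fin (K + 1)}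
    (h : i2_expo α = i2_expo β) : α = β := by
  funext t
  have := DFunLike.congr_fun h t
  rw [i2_expo_apply, i2_expo_apply] at this
  exact Fin.ext this

/-- the products -/
noncomputable def i2_prod {Ω : Type} [Field Ω] {σ : Type} [Fintype σ] (f : σ → MvPolynomial σ Ω)
    (j : σ) {K : ℕ} (q : Fin (K + 1) × (σ → Fin (K + 1))) : MvPolynomial σ Ω :=
  X j ^ (q.1 : ℕ) * ∏ t, f t ^ (q.2 t : ℕ)

lemma i2_deg {Ω : Type} [Field Ω] {σ : Type} [Fintype σ] {D : ℕ} (f : σ → MvPolynomial σ Ω)
    (hD : ∀ t, (f t).totalDegree ≤ D) (j : σ) {K : ℕ} (q : Fin (K + 1) × (σ → Fin (K + 1))) :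
    (i2_prod f j q).totalDegree ≤ K + Fintype.card σ * (K * D) := by
  unfold i2_prod
  refine (totalDegree_mul _ _).trans (add_le_add ?_ ?_)
  · refine (totalDegree_pow _ _).trans ?_
    rw [totalDegree_X, mul_one]
    exact Nat.lt_succ_iff.1 q.1.2
  · refine (totalDegree_finsetProd _ _).trans ?_
    have : ∀ t ∈ (Finset.univ : Finset σ), (f t ^ (q.2 t : ℕ)).totalDegree ≤ K * D := by
      intro t _
      refine (totalDegree_pow _ _).trans ?_
      exact Nat.mul_le_mul (Nat.lt_succ_iff.1 (q.2 t).2) (hD t)
    refine (Finset.sum_le_card_nsmul _ _ _ this).trans ?_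
    simp [Finset.card_univ]

/-- the combination with the coefficients `c` -/
noncomputable def i2_comb {Ω : Type} [Field Ω] {σ : Type} [Fintype σ] (f : σ → MvPolynomial σ Ω)
    (j : σ) {K : ℕ} (c : Fin (K + 1) × (σ → Fin (K + 1)) → Ω) : MvPolynomial σ Ω := by
  classical
  exact ∑ q, c q • i2_prod f j q

lemma i2_exists {Ω : Type} [Field Ω] {σ : Type} [Fintype σ] {D : ℕ} (f : σ → MvPolynomial σ Ω)
    (hD : ∀ t, (f t).totalDegree ≤ D) (j : σ) {K : ℕ}
    (hK : (K + Fintype.card σ * (K * D) + 1) ^ Fintype.card σ < (K + 1) ^ (Fintype.card σ + 1)) :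
    ∃ c : Fin (K + 1) × (σ → Fin (K + 1)) → Ω, c ≠ 0 ∧ i2_comb f j c = 0 := by
  classical
  set M := K + Fintype.card σ * (K * D) with hM
  let L : (Fin (K + 1) × (σ → Fin (K + 1)) → Ω) →ₗ[Ω] ((σ → Fin (M + 1)) → Ω) :=
    { toFun := fun c β => coeff (i2_expo β) (i2_comb f j c)
      map_add' := by
        intro c c'
        funext β
        simp only [Pi.add_apply, i2_comb, ← coeff_add]
        congr 1
        rw [← Finset.sum_add_distrib]
        exact Finset.sum_congr rfl fun q _ => add_smul _ _ _
      map_smul' := by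
        intro a c
        funext β
        simp only [Pi.smul_apply, i2_comb, RingHom.id_apply, ← coeff_smul]
        congr 1
        rw [Finset.smul_sum]
        refine Finset.sum_congr rfl fun q _ => ?_
        rw [smul_smul, smul_eq_mul] }
  have hfin : Module.finrank Ω ((σ → Fin (M + 1)) → Ω) <
      Module.finrank Ω (Fin (K + 1) × (σ → Fin (K + 1)) → Ω) := by
    rw [Module.finrank_fintype_fun_eq_card, Module.finrank_fintype_fun_eq_card]
    simp only [Fintype.card_prod, Fintype.card_fin, Fintype.card_pi, Finset.prod_const,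
      Finset.card_univ]
    calc (M + 1) ^ Fintype.card σ < (K + 1) ^ (Fintype.card σ + 1) := hK
      _ = (K + 1) * (K + 1) ^ Fintype.card σ := by ring
  have hker := LinearMap.ker_ne_bot_of_finrank_lt (f := L) hfin
  obtain ⟨c, hc, hc0⟩ := Submodule.exists_mem_ne_zero_of_ne_bot hker
  refine ⟨c, hc0, ?_⟩
  have hL : ∀ β : σ → Fin (M + 1), coeff (i2_expo β) (i2_comb f j c) = 0 := fun β =>
    congrFun (LinearMap.mem_ker.1 hc) β
  have hdeg : (i2_comb f j c).totalDegree ≤ M := by
    unfold i2_comb
    refine (totalDegree_finsetSum _ _).trans (Finset.sup_le fun q _ => ?_)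
    exact (totalDegree_smul_le _ _).trans (i2_deg f hD j q)
  rw [eq_zero_iff]
  intro β
  by_contra hβ
  have hβs : β ∈ (i2_comb f j c).support := mem_support_iff.2 hβ
  have h1 := le_totalDegree hβs
  have h2 : ∀ t, β t < M + 1 := by
    intro t
    have h3 : β t ≤ β.sum fun _ e => e := by
      by_cases ht : t ∈ β.support
      · exact Finset.single_le_sum (f := fun t => β t) (fun _ _ => Nat.zero_le _) ht
      · rw [Finsupp.notMem_support_iff.1 ht]; exact Nat.zero_le _
    omega
  apply hβ
  have := hL fun t => ⟨β t, h2 t⟩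
  convert this using 2
  ext t
  rfl

/-- `m` polynomials `f` of degree at most `D` and one coordinate `x_j` in `m` unknowns
satisfy an algebraic relation with degree less than `(m * D + 1) ^ m` in `x_j`. (Let
`K + 1 = (m * D + 1) ^ m`. The `(K + 1) ^ (m + 1)` products of a power of `x_j` with exponent at
most `K` and powers of the `f t` with exponents at most `K` lie in the space of polynomials of
degree at most `K + m * K * D` in each variable, of dimension
`((m * D + 1) * K + 1) ^ m < (K + 1) ^ (m + 1)`.) -/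
theorem perron {Ω : Type} [Field Ω] {σ : Type} [Fintype σ] {D : ℕ} (f : σ → MvPolynomial σ Ω)
    (hD : ∀ t, (f t).totalDegree ≤ D) (j : σ) :
    ∃ G : MvPolynomial σ (Polynomial Ω), G ≠ 0 ∧
      (∀ α, (G.coeff α).natDegree < (Fintype.card σ * D + 1) ^ Fintype.card σ) ∧
      eval₂ (Polynomial.aeval (X j : MvPolynomial σ Ω)).toRingHom f G = 0 := by
  classical
  have hm : 0 < Fintype.card σ := Fintype.card_pos_iff.2 ⟨j⟩
  rcases Nat.eq_zero_or_pos D with hD0 | hD0
  · subst hD0
    have hfj : f j = C (coeff 0 (f j)) :=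
      totalDegree_eq_zero_iff_eq_C.1 (Nat.le_zero.1 (hD j))
    refine ⟨X j - C (Polynomial.C (coeff 0 (f j))), ?_, ?_, ?_⟩
    · intro h
      have := congrArg (coeff (Finsupp.single j 1)) h
      rw [coeff_sub, coeff_X, coeff_C, coeff_zero] at this
      have h0 : (0 : σ →₀ ℕ) ≠ Finsupp.single j 1 := by
        intro h0
        have := DFunLike.congr_fun h0 j
        simp at this
      simp [h0] at this
    · intro α
      have hz : (Fintype.card σ * 0 + 1) ^ Fintype.card σ = 1 := by simp
      rw [hz, Nat.lt_one_iff, coeff_sub, coeff_X, coeff_C]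
      by_cases h1 : Finsupp.single j 1 = α <;> by_cases h2 : (0 : σ →₀ ℕ) = α
      · exfalso
        have := DFunLike.congr_fun (h1.trans h2.symm) j
        simp at this
      · simp only [h1, h2, if_true, if_false, sub_zero, Polynomial.natDegree_one]
      · simp only [h1, h2, if_true, if_false, zero_sub, Polynomial.natDegree_neg,
          Polynomial.natDegree_C]
      · simp only [h1, h2, if_false, sub_zero, Polynomial.natDegree_zero]
    · rw [eval₂_sub, eval₂_X, eval₂_C]
      conv_lhs => rw [hfj]
      simp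
  · have hK1 : 1 ≤ (Fintype.card σ * D + 1) ^ Fintype.card σ := Nat.one_le_pow _ _ (by omega)
    obtain ⟨K, hKK⟩ : ∃ K, K + 1 = (Fintype.card σ * D + 1) ^ Fintype.card σ :=
      ⟨(Fintype.card σ * D + 1) ^ Fintype.card σ - 1, by omega⟩
    have hK : (K + Fintype.card σ * (K * D) + 1) ^ Fintype.card σ <
        (K + 1) ^ (Fintype.card σ + 1) := by
      calc (K + Fintype.card σ * (K * D) + 1) ^ Fintype.card σ
          < ((Fintype.card σ * D + 1) * (K + 1)) ^ Fintype.card σ := by
            refine Nat.pow_lt_pow_left ?_ hm.ne'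
            have : 0 < Fintype.card σ * D := Nat.mul_pos hm hD0
            nlinarith
        _ = (K + 1) ^ (Fintype.card σ + 1) := by
            rw [mul_pow, ← hKK, pow_succ]; ring
    obtain ⟨c, hc0, hc⟩ := i2_exists f hD j hK
    let G : MvPolynomial σ (Polynomial Ω) := ∑ α : σ → Fin (K + 1),
      monomial (i2_expo α) (∑ a : Fin (K + 1), Polynomial.monomial (a : ℕ) (c (a, α)))
    have hcoef : ∀ α : σ → Fin (K + 1), G.coeff (i2_expo α) =
        ∑ a : Fin (K + 1), Polynomial.monomial (a : ℕ) (c (a, α)) := by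
      intro α
      simp only [G, coeff_sum, coeff_monomial]
      rw [Finset.sum_eq_single α]
      · simp
      · intro β _ hβ
        rw [if_neg]
        intro h
        exact hβ (i2_expo_inj h)
      · intro h; exact absurd (Finset.mem_univ _) h
    refine ⟨G, ?_, ?_, ?_⟩
    · intro hG
      apply hc0
      funext q
      obtain ⟨a, α⟩ := q
      have h1 := hcoef α
      rw [hG, coeff_zero] at h1
      have h2 := congrArg (fun p => Polynomial.coeff p (a : ℕ)) h1
      simp only [Polynomial.coeff_zero, Polynomial.finsetSum_coeff,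
        Polynomial.coeff_monomial] at h2
      rw [Finset.sum_eq_single a] at h2
      · simpa using h2.symm
      · intro b _ hb
        rw [if_neg]
        intro h
        exact hb (Fin.ext h)
      · intro h; exact absurd (Finset.mem_univ _) h
    · intro α
      rw [← hKK, Nat.lt_succ_iff]
      simp only [G, coeff_sum, coeff_monomial]
      refine Polynomial.natDegree_sum_le_of_forall_le _ _ fun β _ => ?_
      split_ifs
      · refine Polynomial.natDegree_sum_le_of_forall_le _ _ fun a _ => ?_
        refine (Polynomial.natDegree_monomial_le _).trans ?_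
        exact Nat.lt_succ_iff.1 a.2
      · simp
    · rw [← hc]
      simp only [G, eval₂_sum, eval₂_monomial, i2_comb]
      rw [Fintype.sum_prod_type_right]
      refine Finset.sum_congr rfl fun α _ => ?_
      rw [map_sum, Finset.sum_mul]
      refine Finset.sum_congr rfl fun a _ => ?_
      unfold i2_prod
      rw [Finsupp.prod_fintype _ _ fun t => pow_zero _]
      simp only [i2_expo_apply]
      change (Polynomial.aeval (X j : MvPolynomial σ Ω)) (Polynomial.monomial (a : ℕ) (c (a, α))) *
        _ = _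
      rw [Polynomial.aeval_monomial, algebraMap_eq, smul_eq_C_mul, mul_assoc]

end Pool.Agent.Lib.MP_6a3dac_ag.Maj
end

section

/-!
# The number of the zeros of a system of as many equations as unknowns
-/

set_option autoImplicit false

namespace Pool.Agent.Lib.MP_6a3dac_ag.Maj

open MvPolynomial

/-- The value of a polynomial without terms of degree less than `k` lies in the `k`-th power of the
ideal. -/
theorem i3_aeval_mem {R T : Type} [CommRing R] (f : T → R) (p : MvPolynomial T R) (k : ℕ)
    (h : ∀ α, p.coeff α ≠ 0 → k ≤ α.degree) :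
    aeval f p ∈ Ideal.span (Set.range f) ^ k := by
  rw [aeval_def, eval₂_eq]
  refine Ideal.sum_mem _ fun α hα => Ideal.mul_mem_left _ _ ?_
  have h1 : k ≤ α.degree := h α (mem_support_iff.1 hα)
  refine Ideal.pow_le_pow_right h1 ?_
  have h2 : α.degree = ∑ i ∈ α.support, α i := rfl
  rw [h2, ← Finset.prod_pow_eq_pow_sum]
  exact Ideal.prod_mem_prod fun i _ =>
    Ideal.pow_mem_pow (Ideal.subset_span (Set.mem_range_self i)) _

/-- The height of the ideal of a point of affine space. -/
theorem i3_height {Ω σ : Type} [Field Ω] [Fintype σ] (z : σ → Ω)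
    [hz : (RingHom.ker (eval z)).IsPrime] :
    ((Fintype.card σ : ℕ) : ℕ∞) ≤ (RingHom.ker (eval z)).height := by
  classical
  set n := Fintype.card σ with hn
  let e : σ ≃ Fin n := Fintype.equivFin σ
  let φ : ℕ → (MvPolynomial σ Ω →ₐ[Ω] MvPolynomial σ Ω) := fun k =>
    aeval fun s => if (e s : ℕ) < k then C (z s) else X s
  have hφX : ∀ k s, φ k (X s) = if (e s : ℕ) < k then C (z s) else X s := fun k s => by
    simp [φ]
  have hcomp : ∀ k, (φ (k + 1)).comp (φ k) = φ (k + 1) := by
    intro k
    apply algHom_ext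
    intro s
    rw [AlgHom.comp_apply, hφX]
    split_ifs with h
    · rw [hφX, if_pos (by lia)]
      exact (φ (k + 1)).commutes (z s)
    · rfl
  have hprime : ∀ k, (RingHom.ker (φ k)).IsPrime := fun k => RingHom.ker_isPrime _
  have hmono : StrictMono fun i : Fin (n + 1) =>
      (⟨RingHom.ker (φ (i : ℕ)), hprime i⟩ : PrimeSpectrum (MvPolynomial σ Ω)) := by
    rw [Fin.strictMono_iff_lt_succ]
    intro i
    rw [← PrimeSpectrum.asIdeal_lt_asIdeal]
    refine lt_of_le_of_ne ?_ ?_
    · intro p hp
      have hp' : φ (i : ℕ) p = 0 := hp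
      show φ ((i : ℕ) + 1) p = 0
      rw [← hcomp, AlgHom.comp_apply, hp', map_zero]
    · intro heq
      have heq' : RingHom.ker (φ (i : ℕ)) = RingHom.ker (φ ((i : ℕ) + 1)) := heq
      have h1 : X (e.symm i) - C (z (e.symm i)) ∈ RingHom.ker (φ ((i : ℕ) + 1)) := by
        rw [RingHom.mem_ker, map_sub, hφX, if_pos (by simp)]
        have : φ ((i : ℕ) + 1) (C (z (e.symm i))) = C (z (e.symm i)) :=
          (φ ((i : ℕ) + 1)).commutes _
        rw [this, sub_self]
      rw [← heq', RingHom.mem_ker, map_sub, hφX, if_neg (by simp)] at h1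
      have h2 : φ (i : ℕ) (C (z (e.symm i))) = C (z (e.symm i)) := (φ (i : ℕ)).commutes _
      rw [h2, sub_eq_zero] at h1
      have h3 := congrArg (fun p => eval (fun _ => z (e.symm i) + 1) p) h1
      simp at h3
  have h1 : (LTSeries.mk n _ hmono).last ≤
      (⟨RingHom.ker (eval z), hz⟩ : PrimeSpectrum (MvPolynomial σ Ω)) := by
    show RingHom.ker (φ ((Fin.last n : Fin (n + 1)) : ℕ)) ≤ RingHom.ker (eval z)
    intro p hp
    have hp' : φ n p = 0 := hp
    have h2 : ∀ p, eval z (φ n p) = eval z p := by
      intro p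
      have : ((aeval z : MvPolynomial σ Ω →ₐ[Ω] Ω).comp (φ n)) = aeval z := by
        apply algHom_ext
        intro s
        rw [AlgHom.comp_apply, hφX, if_pos (e s).2]
        simp
      have h3 := congrArg (fun g : MvPolynomial σ Ω →ₐ[Ω] Ω => g p) this
      simpa [coe_aeval_eq_eval] using h3
    show eval z p = 0
    rw [← h2, hp', map_zero]
  have h2 := Order.length_le_height h1
  rw [← PrimeSpectrum.height_eq_orderHeight] at h2
  exact h2

/-- In the local ring of an isolated zero the functions generate a primary ideal. -/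
theorem i3_rad {Ω : Type} [Field Ω] [IsAlgClosed Ω] {σ T : Type} [Fintype σ]
    (f : T → MvPolynomial σ Ω) (hfin : {z : σ → Ω | ∀ t, eval z (f t) = 0}.Finite)
    (z : σ → Ω) [hz : (RingHom.ker (eval z)).IsPrime] :
    IsLocalRing.maximalIdeal (Localization.AtPrime (RingHom.ker (eval z))) ≤
      (Ideal.span (Set.range fun t => algebraMap (MvPolynomial σ Ω)
        (Localization.AtPrime (RingHom.ker (eval z))) (f t))).radical := by
  classical
  set R := Localization.AtPrime (RingHom.ker (eval z)) with hR
  -- a function which vanishes at the other zeros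
  obtain ⟨g, hg1, hg2⟩ : ∃ g : MvPolynomial σ Ω, eval z g ≠ 0 ∧
      ∀ w : σ → Ω, (∀ t, eval w (f t) = 0) → w ≠ z → eval w g = 0 := by
    have hsep : ∀ w : σ → Ω, w ≠ z → ∃ g : MvPolynomial σ Ω, eval z g ≠ 0 ∧ eval w g = 0 := by
      intro w hw
      obtain ⟨s, hs⟩ := Function.ne_iff.1 hw
      refine ⟨X s - C (w s), ?_, by simp⟩
      simpa [sub_eq_zero] using fun h => hs h.symm
    choose! G hG1 hG2 using hsep
    refine ⟨∏ w ∈ hfin.toFinset.erase z, G w, ?_, ?_⟩
    · rw [map_prod]
      exact Finset.prod_ne_zero_iff.2 fun w hw => hG1 w (Finset.ne_of_mem_erase hw)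
    · intro w hw hwz
      rw [map_prod]
      exact Finset.prod_eq_zero (Finset.mem_erase.2 ⟨hwz, hfin.mem_toFinset.2 hw⟩) (hG2 w hwz)
  have hgu : IsUnit (algebraMap (MvPolynomial σ Ω) R g) :=
    IsLocalization.map_units R (⟨g, fun h => hg1 h⟩ : (RingHom.ker (eval z)).primeCompl)
  rw [← Localization.AtPrime.map_eq_maximalIdeal, Ideal.map_le_iff_le_comap]
  intro p hp
  have hp' : eval z p = 0 := hp
  rw [Ideal.mem_comap]
  have h1 : g * p ∈ (Ideal.span (Set.range f)).radical := by
    rw [← vanishingIdeal_zeroLocus_eq_radical (K := Ω), mem_vanishingIdeal_iff]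
    intro w hw
    rw [zeroLocus_span] at hw
    have hw' : ∀ t, eval w (f t) = 0 := fun t => by
      have := hw (f t) (Set.mem_range_self t)
      simpa [coe_aeval_eq_eval] using this
    rw [map_mul]
    by_cases hwz : w = z
    · rw [hwz]
      have : aeval z p = 0 := by simpa [coe_aeval_eq_eval] using hp'
      rw [this, mul_zero]
    · have : aeval w g = 0 := by simpa [coe_aeval_eq_eval] using hg2 w hw' hwz
      rw [this, zero_mul]
  obtain ⟨N, hN⟩ := h1
  refine ⟨N, ?_⟩
  have h2 : algebraMap (MvPolynomial σ Ω) R ((g * p) ^ N) ∈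
      Ideal.span (Set.range fun t => algebraMap (MvPolynomial σ Ω) R (f t)) := by
    have h3 := Ideal.mem_map_of_mem (algebraMap (MvPolynomial σ Ω) R) hN
    rw [Ideal.map_span, ← Set.range_comp] at h3
    exact h3
  rw [map_pow, map_mul, mul_pow] at h2
  exact (Ideal.unit_mul_mem_iff_mem _ (hgu.pow N)).1 h2

/-- At a zero of the `f t` the lowest coefficients of a relation vanish. -/
theorem i3_root {Ω : Type} [Field Ω] [IsAlgClosed Ω] {σ T : Type} [Fintype σ] [Fintype T]
    (hT : Fintype.card T = Fintype.card σ) (f : T → MvPolynomial σ Ω)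
    (hfin : {z : σ → Ω | ∀ t, eval z (f t) = 0}.Finite) (j : σ)
    (G : MvPolynomial T (Polynomial Ω))
    (hG : eval₂ (Polynomial.aeval (X j : MvPolynomial σ Ω)).toRingHom f G = 0)
    (α : T →₀ ℕ) (hmin : ∀ β, G.coeff β ≠ 0 → α.degree ≤ β.degree)
    (z : σ → Ω) (hz : ∀ t, eval z (f t) = 0) : (G.coeff α).eval (z j) = 0 := by
  classical
  have hP : (RingHom.ker (eval z)).IsPrime := RingHom.ker_isPrime _
  set R := Localization.AtPrime (RingHom.ker (eval z)) with hR
  let ι : MvPolynomial σ Ω →+* R := algebraMap (MvPolynomial σ Ω) R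
  let θ : Polynomial Ω →+* R := ι.comp (Polynomial.aeval (X j : MvPolynomial σ Ω)).toRingHom
  have : Infinite (IsLocalRing.ResidueField R) := by
    have : Infinite Ω := IsAlgClosed.instInfinite
    exact Infinite.of_injective
      (((IsLocalRing.residue R).comp ι).comp (C : Ω →+* MvPolynomial σ Ω)) (RingHom.injective _)
  have : IsNoetherianRing R := IsLocalization.isNoetherianRing
    (RingHom.ker (eval z)).primeCompl R inferInstance
  have hdim : ((Fintype.card T : ℕ) : WithBot ℕ∞) ≤ ringKrullDim R := by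
    rw [IsLocalization.AtPrime.ringKrullDim_eq_height (RingHom.ker (eval z)) R, hT]
    exact_mod_cast i3_height z
  have hmem : ∀ t, ι (f t) ∈ IsLocalRing.maximalIdeal R := fun t => by
    rw [← Localization.AtPrime.map_eq_maximalIdeal]
    exact Ideal.mem_map_of_mem _ (hz t)
  have hrad : ∃ k, IsLocalRing.maximalIdeal R ^ k ≤
      Ideal.span (Set.range fun t => ι (f t)) :=
    Ideal.exists_pow_le_of_le_radical_of_fg (i3_rad f hfin z)
      (IsNoetherian.noetherian _)
  set G' : MvPolynomial T R := map θ G with hG'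
  have hGval : aeval (fun t => ι (f t)) G' = 0 := by
    rw [hG', aeval_def, eval₂_map]
    have h1 := congrArg ι hG
    rw [map_zero, hom_eval₂] at h1
    exact h1
  set F : MvPolynomial T R := homogeneousComponent α.degree G' with hF
  have hFval : aeval (fun t => ι (f t)) F ∈
      Ideal.span (Set.range fun t => ι (f t)) ^ (α.degree + 1) := by
    have h1 : aeval (fun t => ι (f t)) F = - aeval (fun t => ι (f t)) (G' - F) := by
      rw [map_sub, hGval]
      ring
    rw [h1]
    refine Submodule.neg_mem _ (i3_aeval_mem _ _ _ fun β hβ => ?_)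
    rw [coeff_sub, hF, coeff_homogeneousComponent] at hβ
    split_ifs at hβ with hdeg
    · simp at hβ
    · rw [sub_zero, hG', coeff_map] at hβ
      have h2 : G.coeff β ≠ 0 := by
        intro h0
        rw [h0, map_zero] at hβ
        exact hβ rfl
      have := hmin β h2
      lia
  have hcoef := analytic_indep (fun t => ι (f t)) hdim hrad hmem F
    (homogeneousComponent_isHomogeneous _ _) hFval α
  rw [hF, coeff_homogeneousComponent, if_pos rfl, hG', coeff_map] at hcoef
  have h3 : Polynomial.aeval (X j : MvPolynomial σ Ω) (G.coeff α) ∈ RingHom.ker (eval z) := by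
    rw [← Localization.AtPrime.under_maximalIdeal (I := RingHom.ker (eval z))]
    exact hcoef
  have h4 : eval z (Polynomial.aeval (X j : MvPolynomial σ Ω) (G.coeff α)) = 0 := h3
  have h5 : eval z (Polynomial.aeval (X j : MvPolynomial σ Ω) (G.coeff α)) =
      (G.coeff α).eval (z j) := by
    have h6 : (aeval z : MvPolynomial σ Ω →ₐ[Ω] Ω) (Polynomial.aeval (X j) (G.coeff α)) =
        Polynomial.aeval (z j) (G.coeff α) := by
      rw [← Polynomial.aeval_algHom_apply]
      simp
    simpa [coe_aeval_eq_eval] using h6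
  rw [← h5, h4]

/-- A finite zero set of `m` polynomials of degree at most `D` in `m` unknowns has at most
`(m * D + 1) ^ (m ^ 2)` elements. (By `perron` there is a relation `∑ G_α(x_j) f ^ α = 0`; let `s`
be the smallest degree of an `α` with `G_α ≠ 0`, and `α` one with degree `s`. At each zero `z`, the
`f` are a system of parameters of the local ring, as the zero is isolated, so by `analytic_indep`
the polynomial `G_α` vanishes at `z j`. So each coordinate takes at most `(m * D + 1) ^ m`
values.) -/
theorem card_zeros {Ω : Type} [Field Ω] [IsAlgClosed Ω] {σ T : Type} [Fintype σ] [Fintype T]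
    (hT : Fintype.card T = Fintype.card σ) {D : ℕ} (f : T → MvPolynomial σ Ω)
    (hD : ∀ t, (f t).totalDegree ≤ D) (hfin : {z : σ → Ω | ∀ t, eval z (f t) = 0}.Finite) :
    {z : σ → Ω | ∀ t, eval z (f t) = 0}.ncard ≤
      (Fintype.card σ * D + 1) ^ (Fintype.card σ ^ 2) := by
  classical
  set B : ℕ := (Fintype.card σ * D + 1) ^ Fintype.card σ with hB
  have key : ∀ j : σ, ∃ q : Polynomial Ω, q ≠ 0 ∧ q.natDegree < B ∧
      ∀ z : σ → Ω, (∀ t, eval z (f t) = 0) → q.eval (z j) = 0 := by
    intro j
    let e : σ ≃ T := Fintype.equivOfCardEq hT.symm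
    obtain ⟨G, hG0, hGd, hG⟩ := perron (fun s => f (e s)) (fun s => hD (e s)) j
    obtain ⟨α, hα, hmin⟩ := Finset.exists_min_image G.support (fun β => β.degree)
      (support_nonempty.2 hG0)
    refine ⟨G.coeff α, mem_support_iff.1 hα, hGd α, fun z hz => ?_⟩
    have hset : {z : σ → Ω | ∀ s, eval z (f (e s)) = 0} = {z : σ → Ω | ∀ t, eval z (f t) = 0} := by
      ext z
      exact ⟨fun h t => by simpa using h (e.symm t), fun h s => h (e s)⟩
    exact i3_root rfl (fun s => f (e s)) (by rw [hset]; exact hfin) j G hG α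
      (fun β hβ => hmin β (mem_support_iff.2 hβ)) z (fun s => hz (e s))
  choose q hq0 hqd hq using key
  have hsub : {z : σ → Ω | ∀ t, eval z (f t) = 0} ⊆
      ((Fintype.piFinset fun j => (q j).roots.toFinset : Finset (σ → Ω)) : Set (σ → Ω)) := by
    intro z hz
    rw [Finset.mem_coe, Fintype.mem_piFinset]
    intro j
    rw [Multiset.mem_toFinset, Polynomial.mem_roots (hq0 j)]
    exact hq j z hz
  calc {z : σ → Ω | ∀ t, eval z (f t) = 0}.ncard
      ≤ ((Fintype.piFinset fun j => (q j).roots.toFinset : Finset (σ → Ω)) :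
          Set (σ → Ω)).ncard := Set.ncard_le_ncard hsub (Finset.finite_toSet _)
    _ = ∏ j, (q j).roots.toFinset.card := by
        rw [Set.ncard_coe_finset, Fintype.card_piFinset]
    _ ≤ ∏ _j : σ, B := by
        refine Finset.prod_le_prod' fun j _ => ?_
        exact (Multiset.toFinset_card_le _).trans
          (((q j).card_roots').trans (hqd j).le)
    _ = (Fintype.card σ * D + 1) ^ (Fintype.card σ ^ 2) := by
        rw [Finset.prod_const, Finset.card_univ, hB, ← pow_mul, sq]

end Pool.Agent.Lib.MP_6a3dac_ag.Maj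
end
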