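import Mathlib
import Pool.Agent.Lib.MP_6a3dac_ag.Defs

section

/-!
# Base change of `Proj` along a localization of the base
-/

set_option autoImplicit false

namespace Pool.Agent.Lib.MP_6a3dac_ag

open CategoryTheory Limits AlgebraicGeometry HomogeneousLocalization

section

variable {R S : Type} [CommRing R] [CommRing S] [Algebra R S]
  (𝒮 : ℕ → Submodule R S) [GradedAlgebra 𝒮]

/-- The ring homomorphism from the base ring to the degree zero part of a localization. -/
def baseToAway (s : S) : R →+* Away 𝒮 s :=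
  (fromZeroRingHom 𝒮 (Submonoid.powers s)).comp (algebraMap R (𝒮 0))

theorem val_baseToAway (s : S) (r : R) :
    (baseToAway 𝒮 s r).val = algebraMap S (Localization.Away s) (algebraMap R S r) := by
  change Localization.mk _ _ = _
  rw [← Localization.mk_one_eq_algebraMap]
  rfl

theorem awayι_projTo {d : ℕ} (s : S) (hs : s ∈ 𝒮 d) (hd : 0 < d) :
    Proj.awayι 𝒮 s hs hd ≫ projTo R 𝒮 = Spec.map (CommRingCat.ofHom (baseToAway 𝒮 s)) := by
  rw [projTo, Proj.awayι_toSpecZero_assoc, ← Spec.map_comp]
  rfl

end

section BaseChange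

variable {R K S A : Type} [CommRing R] [CommRing K] [CommRing S] [CommRing A]
  [Algebra R K] [Algebra R S] [Algebra K A]
  (𝒮 : ℕ → Submodule R S) [GradedAlgebra 𝒮] (𝒜 : ℕ → Submodule K A) [GradedAlgebra 𝒜]
  (M : Submonoid R) [IsLocalization M K] (φ : 𝒮 →+*ᵍ 𝒜)
  (hφ : ∀ r : R, φ (algebraMap R S r) = algebraMap K A (algebraMap R K r))

include hφ in
theorem isLocalization_away
    (hsurj : ∀ a : A, ∃ r ∈ M, ∃ b : S, φ b = algebraMap K A (algebraMap R K r) * a)
    (hinj : ∀ b : S, φ b = 0 → ∃ r ∈ M, algebraMap R S r * b = 0)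
    {d : ℕ} (s : S) (hs : s ∈ 𝒮 d) :
    letI := (Away.map φ s).toAlgebra
    IsLocalization (M.map (baseToAway 𝒮 s)) (Away 𝒜 (φ s)) := by
  let := (Away.map φ s).toAlgebra
  have hcomm : ∀ r : R, Away.map φ s (baseToAway 𝒮 s r) = baseToAway 𝒜 (φ s) (algebraMap R K r) := by
    intro r
    ext
    rw [val_baseToAway]
    change (Away.map φ s (HomogeneousLocalization.mk _)).val = _
    rw [Away.map, HomogeneousLocalization.map_mk, val_mk, ← Localization.mk_one_eq_algebraMap]
    rw [Localization.mk_eq_mk_iff, Localization.r_iff_exists]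
    refine ⟨1, ?_⟩
    simp only [OneMemClass.coe_one, one_mul]
    change φ (algebraMap R S r) = φ ((1 : 𝒮 0) : S) * algebraMap K A (algebraMap R K r)
    rw [hφ, show (((1 : 𝒮 0) : S)) = 1 from rfl, map_one, one_mul]
  refine ⟨⟨?_, ?_, ?_⟩⟩
  · rintro ⟨_, r, hr, rfl⟩
    change IsUnit (Away.map φ s (baseToAway 𝒮 s r))
    rw [hcomm]
    exact (IsLocalization.map_units K ⟨r, hr⟩).map _
  · intro z
    obtain ⟨k, a, ha, rfl⟩ := Away.mk_surjective 𝒜 (φ.2 hs) z
    obtain ⟨r, hr, b, hb⟩ := hsurj a
    have hb' : φ (DirectSum.decompose 𝒮 b (k • d) : S) =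
        algebraMap K A (algebraMap R K r) * a := by
      rw [GradedRingHom.map_directSumDecompose, hb, ← Algebra.smul_def,
        DirectSum.decompose_of_mem_same]
      exact Submodule.smul_mem _ _ ha
    refine ⟨⟨Away.mk 𝒮 hs k _ (DirectSum.decompose 𝒮 b (k • d)).2,
      ⟨_, r, hr, rfl⟩⟩, ?_⟩
    change Away.mk 𝒜 (φ.2 hs) k a ha * Away.map φ s (baseToAway 𝒮 s r) = Away.map φ s _
    rw [hcomm, Away.map_mk]
    ext
    rw [val_mul, val_baseToAway, Away.val_mk, Away.val_mk, ← Localization.mk_one_eq_algebraMap,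
      Localization.mk_mul, hb', mul_one, mul_comm a]
    rfl
  · intro x x' hxx
    obtain ⟨k, a, ha, rfl⟩ := Away.mk_surjective 𝒮 hs x
    obtain ⟨k', a', ha', rfl⟩ := Away.mk_surjective 𝒮 hs x'
    change Away.map φ s _ = Away.map φ s _ at hxx
    rw [Away.map_mk, Away.map_mk] at hxx
    have h1 := congrArg HomogeneousLocalization.val hxx
    rw [Away.val_mk, Away.val_mk, Localization.mk_eq_mk_iff, Localization.r_iff_exists] at h1
    obtain ⟨⟨_, m, rfl⟩, hm⟩ := h1
    simp only at hm
    have h2 : φ (s ^ m * (s ^ k' * a - s ^ k * a')) = 0 := by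
      rw [map_mul, map_sub, map_mul, map_mul, map_pow, map_pow, map_pow, mul_sub, sub_eq_zero]
      exact hm
    obtain ⟨r, hr, hr2⟩ := hinj _ h2
    refine ⟨⟨_, r, hr, rfl⟩, ?_⟩
    ext
    simp only [val_mul, val_baseToAway, Away.val_mk, ← Localization.mk_one_eq_algebraMap,
      Localization.mk_mul]
    rw [Localization.mk_eq_mk_iff, Localization.r_iff_exists]
    refine ⟨⟨_, m, rfl⟩, ?_⟩
    simp only [Submonoid.coe_mul, OneMemClass.coe_one, one_mul]
    rw [← sub_eq_zero]
    calc s ^ m * (s ^ k' * (algebraMap R S r * a)) - s ^ m * (s ^ k * (algebraMap R S r * a'))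
        = algebraMap R S r * (s ^ m * (s ^ k' * a - s ^ k * a')) := by ring
      _ = 0 := hr2

theorem irrelevant_le_map
    (hsurj : ∀ a : A, ∃ r ∈ M, ∃ b : S, φ b = algebraMap K A (algebraMap R K r) * a) :
    HomogeneousIdeal.irrelevant 𝒜 ≤ (HomogeneousIdeal.irrelevant 𝒮).map φ := by
  change (HomogeneousIdeal.irrelevant 𝒜).toIdeal ≤ ((HomogeneousIdeal.irrelevant 𝒮).map φ).toIdeal
  rw [HomogeneousIdeal.toIdeal_irrelevant_le]
  intro i hi a ha
  obtain ⟨r, hr, b, hb⟩ := hsurj a
  have hb' : φ (DirectSum.decompose 𝒮 b i : S) =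
      algebraMap K A (algebraMap R K r) * a := by
    rw [GradedRingHom.map_directSumDecompose, hb, ← Algebra.smul_def,
      DirectSum.decompose_of_mem_same]
    exact Submodule.smul_mem _ _ ha
  obtain ⟨u, hu⟩ := IsLocalization.map_units K ⟨r, hr⟩
  have h1 : a = algebraMap K A (↑u⁻¹) * φ (DirectSum.decompose 𝒮 b i : S) := by
    rw [hb', ← mul_assoc, ← map_mul, ← hu]
    simp
  rw [h1]
  apply Ideal.mul_mem_left
  apply Ideal.mem_map_of_mem
  exact HomogeneousIdeal.mem_irrelevant_of_mem 𝒮 hi (DirectSum.decompose 𝒮 b i).2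

include hφ in
/-- If the graded ring `𝒜` is the localization of the graded `R`-algebra `𝒮` at `M ⊆ R`, then
`Proj 𝒜` is the base change of `Proj 𝒮` along `Spec (M⁻¹ R) ⟶ Spec R`. -/
theorem isPullback_proj
    (hsurj : ∀ a : A, ∃ r ∈ M, ∃ b : S, φ b = algebraMap K A (algebraMap R K r) * a)
    (hinj : ∀ b : S, φ b = 0 → ∃ r ∈ M, algebraMap R S r * b = 0)
    (hirr : HomogeneousIdeal.irrelevant 𝒜 ≤ (HomogeneousIdeal.irrelevant 𝒮).map φ) :
    IsPullback (Proj.map φ hirr) (projTo K 𝒜) (projTo R 𝒮)
      (Spec.map (CommRingCat.ofHom (algebraMap R K))) := by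
  have hcomm : ∀ (s : S) (r : R), Away.map φ s (baseToAway 𝒮 s r) =
      baseToAway 𝒜 (φ s) (algebraMap R K r) := by
    intro s r
    ext
    rw [val_baseToAway]
    change (Away.map φ s (HomogeneousLocalization.mk _)).val = _
    rw [Away.map, HomogeneousLocalization.map_mk, val_mk, ← Localization.mk_one_eq_algebraMap]
    rw [Localization.mk_eq_mk_iff, Localization.r_iff_exists]
    refine ⟨1, ?_⟩
    simp only [OneMemClass.coe_one, one_mul]
    change φ (algebraMap R S r) = φ ((1 : 𝒮 0) : S) * algebraMap K A (algebraMap R K r)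
    rw [hφ, show (((1 : 𝒮 0) : S)) = 1 from rfl, map_one, one_mul]
  apply Scheme.isPullback_of_openCover _ _ _ _ (Proj.affineOpenCover 𝒮).openCover
  rintro ⟨i, s⟩
  -- the affine square
  have h1 : IsPullback (Spec.map (CommRingCat.ofHom (Away.map φ (s : S))))
      (Spec.map (CommRingCat.ofHom (baseToAway 𝒜 (φ s))))
      (Spec.map (CommRingCat.ofHom (baseToAway 𝒮 (s : S))))
      (Spec.map (CommRingCat.ofHom (algebraMap R K))) := by
    let := (Away.map φ (s : S)).toAlgebra
    have := isLocalization_away 𝒮 𝒜 M φ hφ hsurj hinj (s : S) s.2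
    apply isPullback_SpecMap_of_isPushout
    exact CommRingCat.isPushout_of_isLocalization (baseToAway 𝒮 (s : S)) (baseToAway 𝒜 (φ s))
      (RingHom.ext fun r => (hcomm s r).symm) M
  -- the open immersion square
  have h2 : IsPullback (Spec.map (CommRingCat.ofHom (Away.map φ (s : S))))
      (Proj.awayι 𝒜 (φ s) (φ.2 s.2) i.pos)
      (Proj.awayι 𝒮 (s : S) s.2 i.pos) (Proj.map φ hirr) := by
    apply IsOpenImmersion.isPullback
    · exact Proj.awayι_comp_map φ hirr i.pos (s : S) s.2
    · rw [Proj.opensRange_awayι, Proj.opensRange_awayι, Proj.map_preimage_basicOpen]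
  let e : pullback (Proj.map φ hirr) (Proj.awayι 𝒮 (s : S) s.2 i.pos) ≅
      Spec (CommRingCat.of (Away 𝒜 (φ s))) := h2.flip.isoPullback.symm
  have he1 : e.hom ≫ Spec.map (CommRingCat.ofHom (Away.map φ (s : S))) = pullback.snd _ _ := by
    simp [e]
  have he2 : e.hom ≫ Proj.awayι 𝒜 (φ s) (φ.2 s.2) i.pos = pullback.fst _ _ := by
    simp [e]
  have h3 : IsPullback (pullback.snd (Proj.map φ hirr) (Proj.awayι 𝒮 (s : S) s.2 i.pos))
      (pullback.fst (Proj.map φ hirr) (Proj.awayι 𝒮 (s : S) s.2 i.pos) ≫ projTo K 𝒜)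
      (Proj.awayι 𝒮 (s : S) s.2 i.pos ≫ projTo R 𝒮)
      (Spec.map (CommRingCat.ofHom (algebraMap R K))) := by
    refine IsPullback.of_iso h1 e.symm (Iso.refl _) (Iso.refl _) (Iso.refl _) ?_ ?_ ?_ ?_
    · rw [← he1]; simp
    · rw [← he2, Category.assoc, awayι_projTo]; simp
    · rw [awayι_projTo]; simp
    · simp
  exact h3

end BaseChange

section ProperFlat

variable {R S : Type} [CommRing R] [CommRing S] [Algebra R S]
  (𝒮 : ℕ → Submodule R S) [GradedAlgebra 𝒮]

theorem isProper_projTo [Algebra.FiniteType R S]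
    (h0 : Function.Bijective (algebraMap R (𝒮 0))) : IsProper (projTo R 𝒮) := by
  have hst : @IsScalarTower R (𝒮 0) S Algebra.toSMul Algebra.toSMul Algebra.toSMul :=
    IsScalarTower.of_algebraMap_eq (fun r => rfl)
  have : Algebra.FiniteType (𝒮 0) S :=
    @Algebra.FiniteType.of_restrictScalars_finiteType R (𝒮 0) S _ _ _ _ _ _ hst _
  have : IsIso (Spec.map (CommRingCat.ofHom (algebraMap R (𝒮 0)))) := by
    have : IsIso (CommRingCat.ofHom (algebraMap R (𝒮 0))) :=
      (RingEquiv.ofBijective _ h0).toCommRingCatIso.isIso_hom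
    infer_instance
  unfold projTo
  infer_instance

theorem flat_projTo [IsDedekindDomain R]
    (htf : ∀ (r : R) (s : S), r ≠ 0 → algebraMap R S r * s = 0 → s = 0) :
    Flat (projTo R 𝒮) := by
  rw [IsZariskiLocalAtSource.iff_of_openCover (P := @Flat) (Proj.affineOpenCover 𝒮).openCover]
  rintro ⟨i, s⟩
  change Flat (Proj.awayι 𝒮 (s : S) s.2 i.pos ≫ projTo R 𝒮)
  rw [awayι_projTo, Flat.SpecMap_iff]
  change (baseToAway 𝒮 (s : S)).Flat
  let := (baseToAway 𝒮 (s : S)).toAlgebra
  change Module.Flat R (Away 𝒮 (s : S))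
  have : Module.IsTorsionFree R (Away 𝒮 (s : S)) := by
    refine ⟨fun r hr => ?_⟩
    have hr0 : r ≠ 0 := by
      rintro rfl
      exact (not_isRegular_zero) hr
    intro x y hxy
    obtain ⟨k, a, ha, rfl⟩ := Away.mk_surjective 𝒮 s.2 x
    obtain ⟨k', a', ha', rfl⟩ := Away.mk_surjective 𝒮 s.2 y
    change baseToAway 𝒮 (s : S) r * _ = baseToAway 𝒮 (s : S) r * _ at hxy
    have h1 := congrArg HomogeneousLocalization.val hxy
    simp only [val_mul, val_baseToAway, Away.val_mk, ← Localization.mk_one_eq_algebraMap,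
      Localization.mk_mul] at h1
    rw [Localization.mk_eq_mk_iff, Localization.r_iff_exists] at h1
    obtain ⟨⟨_, m, rfl⟩, hm⟩ := h1
    simp only [one_mul] at hm
    have h2 : algebraMap R S r * ((s : S) ^ m * ((s : S) ^ k' * a - (s : S) ^ k * a')) = 0 := by
      rw [← sub_eq_zero] at hm
      rw [← hm]; ring
    have h3 := htf r _ hr0 h2
    ext
    rw [Away.val_mk, Away.val_mk, Localization.mk_eq_mk_iff, Localization.r_iff_exists]
    refine ⟨⟨_, m, rfl⟩, ?_⟩
    rw [mul_sub, sub_eq_zero] at h3
    exact h3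
  infer_instance

theorem isRegularLocalRing_stalk (y : ProjectiveSpectrum 𝒮)
    (h : IsRegularLocalRing (AtPrime 𝒮 y.asHomogeneousIdeal.toIdeal)) :
    IsRegularLocalRing ((Proj 𝒮).presheaf.stalk y) :=
  IsRegularLocalRing.of_ringEquiv (R := AtPrime 𝒮 y.asHomogeneousIdeal.toIdeal)
    (Proj.stalkIso 𝒮 y).symm.commRingCatIsoToRingEquiv

end ProperFlat

end Pool.Agent.Lib.MP_6a3dac_ag
end

section

/-!
# Regular local rings: quotients by part of a regular system of parameters
-/

set_option autoImplicit false

namespace Pool.Agent.Lib.MP_6a3dac_ag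

open IsLocalRing

theorem le_of_add_one_le_add_one' (n : ℕ) (b : WithBot ℕ∞)
    (h : (n : WithBot ℕ∞) + 1 ≤ b + 1) : (n : WithBot ℕ∞) ≤ b := by
  induction b using WithBot.recBotCoe with
  | bot => simp at h
  | coe b =>
    have h' : (n : ℕ∞) + 1 ≤ b + 1 := by exact_mod_cast h
    have : (n : ℕ∞) ≤ b := (ENat.add_le_add_iff_right (by simp)).mp h'
    exact_mod_cast this

section Quotient

variable {O : Type*} [CommRing O] [IsLocalRing O] [IsNoetherianRing O]

/-- An element of the maximal ideal outside its square can be completed to a minimal generating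
set of the maximal ideal. -/
theorem exists_gens_of_notMem_sq {f : O} (hf : f ∈ maximalIdeal O)
    (hf2 : f ∉ maximalIdeal O ^ 2) :
    ∃ s : Set O, s.Finite ∧ s.ncard + 1 ≤ (maximalIdeal O).spanFinrank ∧
      Ideal.span (insert f s) = maximalIdeal O := by
  classical
  set k := ResidueField O
  set V := CotangentSpace O
  let v : V := (maximalIdeal O).toCotangent ⟨f, hf⟩
  have hv : v ≠ 0 := by
    intro h
    exact hf2 ((Ideal.toCotangent_eq_zero _ _).mp h)
  obtain ⟨W, hW⟩ := Submodule.exists_isCompl (Submodule.span k {v})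
  have hdim : Module.finrank k (Submodule.span k {v}) + Module.finrank k W =
      Module.finrank k V := Submodule.finrank_add_eq_of_isCompl hW
  rw [finrank_span_singleton hv] at hdim
  let b := Module.finBasis k W
  have hlift : ∀ i, ∃ x : maximalIdeal O, (maximalIdeal O).toCotangent x = (b i : V) := fun i =>
    (maximalIdeal O).toCotangent_surjective _
  choose x hx using hlift
  refine ⟨Set.range fun i => (x i : O), Set.finite_range _, ?_, ?_⟩
  · rw [spanFinrank_maximalIdeal_eq_finrank_cotangentSpace]
    have h1 : (Set.range fun i => (x i : O)).ncard ≤ Module.finrank k W := by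
      have := Set.ncard_image_le (f := fun i => (x i : O))
        (Set.finite_univ (α := Fin (Module.finrank k W)))
      rw [Set.image_univ, Set.ncard_univ, Nat.card_eq_fintype_card, Fintype.card_fin] at this
      exact this
    change _ ≤ Module.finrank k V
    omega
  · have key : Submodule.span O
        (insert (⟨f, hf⟩ : maximalIdeal O) (Set.range x)) = ⊤ := by
      rw [← CotangentSpace.span_image_eq_top_iff, Set.image_insert_eq, ← Set.range_comp]
      rw [eq_top_iff]
      rw [← hW.sup_eq_top]
      apply sup_le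
      · apply Submodule.span_mono
        intro y hy
        exact Or.inl hy
      · intro w hw
        have := b.mem_span ⟨w, hw⟩
        have h2 : w ∈ (Submodule.span k (Set.range b)).map W.subtype := ⟨⟨w, hw⟩, this, rfl⟩
        rw [Submodule.map_span] at h2
        refine Submodule.span_mono ?_ h2
        rintro _ ⟨_, ⟨i, rfl⟩, rfl⟩
        right
        exact ⟨i, hx i⟩
    have h3 := congrArg (Submodule.map (Submodule.subtype (maximalIdeal O))) key
    rw [Submodule.map_span, Submodule.map_top, Submodule.range_subtype, Set.image_insert_eq,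
      ← Set.range_comp] at h3
    exact h3

omit [IsNoetherianRing O] in
theorem isLocalRing_quotient {f : O} (hf : f ∈ maximalIdeal O) :
    IsLocalRing (O ⧸ Ideal.span {f}) := by
  have : Nontrivial (O ⧸ Ideal.span {f}) := by
    apply Ideal.Quotient.nontrivial_iff.mpr
    intro h
    have : Ideal.span {f} ≤ maximalIdeal O := by
      rw [Ideal.span_le]; simpa using hf
    rw [h] at this
    exact (maximalIdeal.isMaximal O).ne_top (top_le_iff.mp this)
  exact IsLocalRing.of_surjective' (Ideal.Quotient.mk _) Ideal.Quotient.mk_surjective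

theorem spanFinrank_quotient_add_one_le {f : O}
    (hf : f ∈ maximalIdeal O) (hf2 : f ∉ maximalIdeal O ^ 2) [IsLocalRing (O ⧸ Ideal.span {f})] :
    (maximalIdeal (O ⧸ Ideal.span {f})).spanFinrank + 1 ≤ (maximalIdeal O).spanFinrank := by
  obtain ⟨s, hsfin, hscard, hspan⟩ := exists_gens_of_notMem_sq hf hf2
  have hmap : maximalIdeal (O ⧸ Ideal.span {f}) =
      Ideal.span ((Ideal.Quotient.mk (Ideal.span {f})) '' s) := by
    have h1 : (maximalIdeal O).map (Ideal.Quotient.mk (Ideal.span {f})) =
        maximalIdeal (O ⧸ Ideal.span {f}) := by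
      apply IsLocalRing.eq_maximalIdeal
      have hle : RingHom.ker (Ideal.Quotient.mk (Ideal.span {f})) ≤ maximalIdeal O := by
        rw [Ideal.mk_ker, Ideal.span_le]; simpa using hf
      refine (Ideal.map_eq_top_or_isMaximal_of_surjective _
        Ideal.Quotient.mk_surjective (maximalIdeal.isMaximal O)).resolve_left ?_
      intro htop
      have := congrArg (Ideal.comap (Ideal.Quotient.mk (Ideal.span {f}))) htop
      rw [Ideal.comap_map_of_surjective' _ Ideal.Quotient.mk_surjective, Ideal.comap_top,
        sup_eq_left.mpr hle] at this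
      exact (maximalIdeal.isMaximal O).ne_top this
    rw [← h1, ← hspan, Ideal.map_span, Set.image_insert_eq]
    have : (Ideal.Quotient.mk (Ideal.span {f})) f = 0 := by
      rw [Ideal.Quotient.eq_zero_iff_mem]; exact Ideal.mem_span_singleton_self f
    rw [this, Ideal.span_insert, Ideal.span_singleton_eq_bot.mpr rfl, bot_sup_eq]
  have hle : (maximalIdeal (O ⧸ Ideal.span {f})).spanFinrank ≤ s.ncard := by
    rw [hmap]
    exact (Submodule.spanFinrank_span_le_ncard_of_finite (hsfin.image _)).trans
      (Set.ncard_image_le hsfin)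
  omega

theorem isRegularLocalRing_quotient (hO : IsRegularLocalRing O) {f : O}
    (hf : f ∈ maximalIdeal O) (hf2 : f ∉ maximalIdeal O ^ 2) :
    IsRegularLocalRing (O ⧸ Ideal.span {f}) := by
  have := isLocalRing_quotient hf
  apply IsRegularLocalRing.of_spanFinrank_maximalIdeal_le
  have hle := spanFinrank_quotient_add_one_le hf hf2
  have hreg := (isRegularLocalRing_iff O).mp hO
  have hdim : ringKrullDim O ≤ ringKrullDim (O ⧸ Ideal.span {f}) + 1 := by
    rw [← maximalIdeal_height_eq_ringKrullDim]
    exact Ideal.height_le_ringKrullDim_quotient_add_one hf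
  have h2 : (((maximalIdeal (O ⧸ Ideal.span {f})).spanFinrank : ℕ) + 1 : WithBot ℕ∞) ≤
      ringKrullDim (O ⧸ Ideal.span {f}) + 1 := by
    refine le_trans ?_ hdim
    rw [← hreg]
    exact_mod_cast hle
  exact le_of_add_one_le_add_one' _ _ h2

/-- If the quotient of a Noetherian local ring by a nonzerodivisor in the maximal ideal is
regular, so is the ring. -/
theorem isRegularLocalRing_of_quotient {t : O} (ht : t ∈ maximalIdeal O)
    (htreg : t ∈ nonZeroDivisors O) (h : IsRegularLocalRing (O ⧸ Ideal.span {t})) :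
    IsRegularLocalRing O := by
  classical
  have hdim := ringKrullDim_quotient_span_singleton_succ_eq_ringKrullDim_of_mem_nonZeroDivisors
    htreg ht
  have hreg := (isRegularLocalRing_iff _).mp h
  have hfg : (maximalIdeal (O ⧸ Ideal.span {t})).FG := Ideal.fg_of_isNoetherianRing _
  obtain ⟨s, hs1, hs2⟩ := Submodule.FG.exists_span_finset_card_eq_spanFinrank hfg
  have hlift : ∀ x : O ⧸ Ideal.span {t}, ∃ y : O, Ideal.Quotient.mk _ y = x :=
    Ideal.Quotient.mk_surjective
  choose g hg using hlift
  apply IsRegularLocalRing.of_spanFinrank_maximalIdeal_le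
  have hspan : maximalIdeal O = Ideal.span (insert t ((s.image g : Finset O) : Set O)) := by
    have hcomap : maximalIdeal O = (maximalIdeal (O ⧸ Ideal.span {t})).comap
        (Ideal.Quotient.mk (Ideal.span {t})) := by
      have := IsLocalHom.of_surjective (Ideal.Quotient.mk (Ideal.span {t}))
        Ideal.Quotient.mk_surjective
      have h5 := ((IsLocalRing.local_hom_TFAE (Ideal.Quotient.mk (Ideal.span {t}))).out 0 4).mp
        this
      exact h5.symm
    apply le_antisymm
    · intro x hx
      rw [hcomap, Ideal.mem_comap, ← hs2] at hx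
      have h1 : (s : Set (O ⧸ Ideal.span {t})) =
          Ideal.Quotient.mk (Ideal.span {t}) '' ((s.image g : Finset O) : Set O) := by
        rw [Finset.coe_image, Set.image_image]
        simp [hg]
      have h2 : Ideal.Quotient.mk (Ideal.span {t}) x ∈ (Ideal.span
          ((s.image g : Finset O) : Set O)).map (Ideal.Quotient.mk (Ideal.span {t})) := by
        rw [Ideal.map_span, ← h1]; exact hx
      have h3 : x ∈ ((Ideal.span ((s.image g : Finset O) : Set O)).map
          (Ideal.Quotient.mk (Ideal.span {t}))).comap (Ideal.Quotient.mk (Ideal.span {t})) := h2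
      rw [Ideal.comap_map_of_surjective' _ Ideal.Quotient.mk_surjective, Ideal.mk_ker] at h3
      rw [Ideal.span_insert, sup_comm]
      exact h3
    · rw [Ideal.span_le]
      rintro x (rfl | hx)
      · exact ht
      · simp only [Finset.coe_image, Set.mem_image, Finset.mem_coe] at hx
        obtain ⟨y, hy, rfl⟩ := hx
        rw [hcomap]
        change Ideal.Quotient.mk (Ideal.span {t}) (g y) ∈ maximalIdeal (O ⧸ Ideal.span {t})
        rw [hg, ← hs2]
        exact Submodule.subset_span hy
  have hle : (maximalIdeal O).spanFinrank ≤ s.card + 1 := by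
    rw [hspan]
    refine (Submodule.spanFinrank_span_le_ncard_of_finite (Set.toFinite _)).trans ?_
    refine (Set.ncard_insert_le _ _).trans ?_
    rw [Set.ncard_coe_finset]
    exact Nat.add_le_add_right Finset.card_image_le 1
  rw [← hdim, ← hreg, ← hs1]
  exact_mod_cast hle

end Quotient

section Derivation

variable {B : Type*} [CommRing B] (Y : Ideal B) [Y.IsPrime]

theorem mem_maximalIdeal_pow_iff {x : B} {n : ℕ} :
    algebraMap B (Localization.AtPrime Y) x ∈ maximalIdeal (Localization.AtPrime Y) ^ n ↔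
      ∃ s : B, s ∉ Y ∧ s * x ∈ Y ^ n := by
  rw [← Localization.AtPrime.map_eq_maximalIdeal, ← Ideal.map_pow,
    IsLocalization.algebraMap_mem_map_algebraMap_iff Y.primeCompl]
  rfl

/-- A derivation maps an element which is locally in the square of a prime ideal to an element
of this prime ideal. -/
theorem derivation_mem {A : Type*} [CommRing A] [Algebra A B] (D : Derivation A B B) {x s : B}
    (hs : s ∉ Y) (hx : s * x ∈ Y ^ 2) : D x ∈ Y := by
  have hD : ∀ z ∈ Y ^ 2, D z ∈ Y := by
    intro z hz
    rw [pow_two] at hz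
    induction hz using Submodule.mul_induction_on' with
    | mem_mul_mem a ha b hb =>
      rw [Derivation.leibniz]
      exact Y.add_mem (Y.mul_mem_right _ ha) (Y.mul_mem_right _ hb)
    | add a _ b _ ha hb => rw [map_add]; exact Y.add_mem ha hb
  have hxY : x ∈ Y :=
    (Ideal.IsPrime.mem_or_mem ‹_› (Ideal.pow_le_self two_ne_zero hx)).resolve_left hs
  have h1 := hD _ hx
  rw [Derivation.leibniz, smul_eq_mul, smul_eq_mul] at h1
  have h2 : s * D x ∈ Y := by
    have h3 : x * D s ∈ Y := Y.mul_mem_right _ hxY
    simpa using Y.sub_mem h1 h3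
  exact (Ideal.IsPrime.mem_or_mem ‹_› h2).resolve_left hs

end Derivation

end Pool.Agent.Lib.MP_6a3dac_ag
end

section

/-!
# Regular local rings are domains; quotients by independent elements
-/

set_option autoImplicit false

namespace Pool.Agent.Lib.MP_6a3dac_ag

open IsLocalRing

section Gens

variable {O : Type*} [CommRing O] [IsLocalRing O] [IsNoetherianRing O]

theorem exists_lift_gens {t : O} (ht : t ∈ maximalIdeal O) [IsLocalRing (O ⧸ Ideal.span {t})] :
    ∃ s : Finset O, s.card ≤ (maximalIdeal (O ⧸ Ideal.span {t})).spanFinrank ∧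
      maximalIdeal O = Ideal.span (insert t (s : Set O)) := by
  classical
  have hfg : (maximalIdeal (O ⧸ Ideal.span {t})).FG := Ideal.fg_of_isNoetherianRing _
  obtain ⟨s, hs1, hs2⟩ := Submodule.FG.exists_span_finset_card_eq_spanFinrank hfg
  have hlift : ∀ x : O ⧸ Ideal.span {t}, ∃ y : O, Ideal.Quotient.mk _ y = x :=
    Ideal.Quotient.mk_surjective
  choose g hg using hlift
  refine ⟨s.image g, Finset.card_image_le.trans hs1.le, ?_⟩
  have hcomap : maximalIdeal O = (maximalIdeal (O ⧸ Ideal.span {t})).comap
      (Ideal.Quotient.mk (Ideal.span {t})) := by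
    have := IsLocalHom.of_surjective (Ideal.Quotient.mk (Ideal.span {t}))
      Ideal.Quotient.mk_surjective
    have h5 := ((IsLocalRing.local_hom_TFAE (Ideal.Quotient.mk (Ideal.span {t}))).out 0 4).mp
      this
    exact h5.symm
  apply le_antisymm
  · intro x hx
    rw [hcomap, Ideal.mem_comap, ← hs2] at hx
    have h1 : (s : Set (O ⧸ Ideal.span {t})) =
        Ideal.Quotient.mk (Ideal.span {t}) '' ((s.image g : Finset O) : Set O) := by
      rw [Finset.coe_image, Set.image_image]
      simp [hg]
    have h2 : Ideal.Quotient.mk (Ideal.span {t}) x ∈ (Ideal.span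
        ((s.image g : Finset O) : Set O)).map (Ideal.Quotient.mk (Ideal.span {t})) := by
      rw [Ideal.map_span, ← h1]; exact hx
    have h3 : x ∈ ((Ideal.span ((s.image g : Finset O) : Set O)).map
        (Ideal.Quotient.mk (Ideal.span {t}))).comap (Ideal.Quotient.mk (Ideal.span {t})) := h2
    rw [Ideal.comap_map_of_surjective' _ Ideal.Quotient.mk_surjective, Ideal.mk_ker] at h3
    rw [Ideal.span_insert, sup_comm]
    exact h3
  · rw [Ideal.span_le]
    rintro x (rfl | hx)
    · exact ht
    · simp only [Finset.coe_image, Set.mem_image, Finset.mem_coe] at hx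
      obtain ⟨y, hy, rfl⟩ := hx
      rw [hcomap]
      change Ideal.Quotient.mk (Ideal.span {t}) (g y) ∈ maximalIdeal (O ⧸ Ideal.span {t})
      rw [hg, ← hs2]
      exact Submodule.subset_span hy

/-- If the quotient of a Noetherian local ring by a nonzerodivisor `t` in the maximal ideal is
regular, then `t` is not in the square of the maximal ideal. -/
theorem notMem_sq_of_quotient {t : O} (ht : t ∈ maximalIdeal O)
    (htreg : t ∈ nonZeroDivisors O) (h : IsRegularLocalRing (O ⧸ Ideal.span {t})) :
    t ∉ maximalIdeal O ^ 2 := by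
  intro ht2
  have hdim := ringKrullDim_quotient_span_singleton_succ_eq_ringKrullDim_of_mem_nonZeroDivisors
    htreg ht
  have hreg := (isRegularLocalRing_iff _).mp h
  obtain ⟨s, hs, hspan⟩ := exists_lift_gens ht
  have h1 : maximalIdeal O ≤ Ideal.span (s : Set O) := by
    apply Submodule.le_of_le_smul_of_le_jacobson_bot (I := maximalIdeal O)
      (N := Ideal.span (s : Set O)) (N' := maximalIdeal O) (Ideal.fg_of_isNoetherianRing _)
      (IsLocalRing.maximalIdeal_le_jacobson _)
    conv_lhs => rw [hspan]
    rw [Ideal.span_le]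
    rintro x (rfl | hx)
    · refine Submodule.mem_sup_right ?_
      rw [smul_eq_mul, ← pow_two]
      exact ht2
    · exact Submodule.mem_sup_left (Ideal.subset_span hx)
  have h2 : maximalIdeal O = Ideal.span (s : Set O) := by
    apply le_antisymm h1
    rw [hspan]
    exact Ideal.span_mono (Set.subset_insert _ _)
  have h3 : (maximalIdeal O).spanFinrank ≤ s.card := by
    rw [h2, ← Set.ncard_coe_finset]
    exact Submodule.spanFinrank_span_le_ncard_of_finite (Finset.finite_toSet s)
  have h4 := ringKrullDim_le_spanFinrank_maximalIdeal O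
  rw [← hdim, ← hreg] at h4
  have h5 : (maximalIdeal (O ⧸ Ideal.span {t})).spanFinrank + 1 ≤
      (maximalIdeal O).spanFinrank := by exact_mod_cast h4
  omega

end Gens

section Domain

universe u

theorem isDomain_aux (d : ℕ) : ∀ (O : Type u) [CommRing O] [IsRegularLocalRing O],
    (maximalIdeal O).spanFinrank ≤ d → IsDomain O := by
  classical
  induction d with
  | zero =>
    intro O _ _ h
    have hfg : (maximalIdeal O).FG := Ideal.fg_of_isNoetherianRing _
    have h0 : maximalIdeal O = ⊥ := by
      obtain ⟨s, hs1, hs2⟩ := Submodule.FG.exists_span_finset_card_eq_spanFinrank hfg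
      have : s = ∅ := Finset.card_eq_zero.mp (by omega)
      rw [← hs2, this]
      simp
    have hf : IsField O := IsLocalRing.isField_iff_maximalIdeal_eq.mpr h0
    exact hf.isDomain
  | succ d ih =>
    intro O _ hO h
    by_cases hle : (maximalIdeal O).spanFinrank ≤ d
    · exact ih O hle
    have hd : (maximalIdeal O).spanFinrank = d + 1 := by omega
    have hdim : ringKrullDim O = ((d + 1 : ℕ) : WithBot ℕ∞) := by
      rw [← (isRegularLocalRing_iff O).mp hO, hd]
    have hm2 : ¬ maximalIdeal O ≤ maximalIdeal O ^ 2 := by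
      intro hle2
      have h0 : maximalIdeal O = ⊥ := by
        apply Submodule.eq_bot_of_le_smul_of_le_jacobson_bot (maximalIdeal O) _
          (Ideal.fg_of_isNoetherianRing _) _ (IsLocalRing.maximalIdeal_le_jacobson _)
        rwa [smul_eq_mul, ← pow_two]
      rw [h0] at hd
      simp at hd
    have hmin : ∀ p ∈ minimalPrimes O, ¬ maximalIdeal O ≤ p := by
      intro p hp hle2
      have hpm : p = maximalIdeal O := by
        have := hp.1.1
        exact le_antisymm (IsLocalRing.le_maximalIdeal this.ne_top) hle2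
      have h0 : (maximalIdeal O).height = 0 := by
        have := hp.1.1
        rw [← hpm, Ideal.height_eq_zero_iff]
        exact hp
      have h1 := maximalIdeal_height_eq_ringKrullDim (R := O)
      rw [h0, hdim] at h1
      have h2 : ((0 : ℕ) : WithBot ℕ∞) = ((d + 1 : ℕ) : WithBot ℕ∞) := by exact_mod_cast h1
      have h3 : 0 = d + 1 := by exact_mod_cast h2
      omega
    -- prime avoidance
    have havoid : ∃ x ∈ maximalIdeal O, x ∉ maximalIdeal O ^ 2 ∧ ∀ p ∈ minimalPrimes O, x ∉ p := by
      by_contra hcon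
      push Not at hcon
      have hfin : (minimalPrimes O).Finite := minimalPrimes.finite_of_isNoetherianRing O
      let s : Finset (Ideal O) := insert (maximalIdeal O ^ 2) hfin.toFinset
      have hsub : (maximalIdeal O : Set O) ⊆ ⋃ i ∈ (↑s : Set (Ideal O)), (i : Set O) := by
        intro x hx
        by_cases hx2 : x ∈ maximalIdeal O ^ 2
        · exact Set.mem_biUnion (Finset.mem_coe.mpr (Finset.mem_insert_self _ _)) hx2
        · obtain ⟨p, hp, hxp⟩ := hcon x hx hx2
          refine Set.mem_biUnion (x := p) (Finset.mem_coe.mpr (Finset.mem_insert_of_mem ?_)) hxp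
          simpa using hp
      have := (Ideal.subset_union_prime (s := s) (f := id) (maximalIdeal O ^ 2)
        (maximalIdeal O ^ 2) (by
          intro i hi h1 _
          rcases Finset.mem_insert.mp hi with h3 | h3
          · exact absurd h3 h1
          · exact ((Set.Finite.mem_toFinset hfin).mp h3).1.1)).mp hsub
      obtain ⟨i, hi, hle3⟩ := this
      rcases Finset.mem_insert.mp hi with h3 | h3
      · rw [h3] at hle3
        exact hm2 hle3
      · exact hmin i ((Set.Finite.mem_toFinset hfin).mp h3) hle3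
    obtain ⟨x, hx, hx2, hxmin⟩ := havoid
    have hreg := isRegularLocalRing_quotient hO hx hx2
    have hgens : (maximalIdeal (O ⧸ Ideal.span {x})).spanFinrank ≤ d := by
      have h1 := spanFinrank_quotient_add_one_le hx hx2
      omega
    have hdom := ih (O ⧸ Ideal.span {x}) hgens
    have hprime : (Ideal.span {x}).IsPrime := (Ideal.Quotient.isDomain_iff_prime _).mp hdom
    obtain ⟨p, hp, hpx⟩ := Ideal.exists_minimalPrimes_le (bot_le : ⊥ ≤ Ideal.span {x})
    have hpp : p.IsPrime := hp.1.1
    have hxp : x ∉ p := hxmin p hp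
    have hp0 : p = ⊥ := by
      apply Submodule.eq_bot_of_le_smul_of_le_jacobson_bot (maximalIdeal O) _
        (Ideal.fg_of_isNoetherianRing _) _ (IsLocalRing.maximalIdeal_le_jacobson _)
      intro a ha
      obtain ⟨b, rfl⟩ := Ideal.mem_span_singleton'.mp (hpx ha)
      have hb : b ∈ p := (hpp.mem_or_mem ha).resolve_right hxp
      rw [smul_eq_mul, mul_comm b x]
      exact Ideal.mul_mem_mul hx hb
    rw [hp0] at hpp
    exact IsDomain.of_bot_isPrime O

end Domain

end Pool.Agent.Lib.MP_6a3dac_ag
end

section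

/-!
# Regularity of a local ring presented, up to localization, by independent equations
-/

set_option autoImplicit false

namespace Pool.Agent.Lib.MP_6a3dac_ag

open IsLocalRing

universe u

/-- The quotient of a regular local ring by elements of the maximal ideal which are linearly
independent modulo its square is regular. -/
theorem isRegularLocalRing_quotient_range (r : ℕ) : ∀ (O : Type u) [CommRing O]
    [IsLocalRing O] (_ : IsRegularLocalRing O) (f : Fin r → O), (∀ i, f i ∈ maximalIdeal O) →
    (∀ c : Fin r → O, ∑ i, c i * f i ∈ maximalIdeal O ^ 2 → ∀ i, c i ∈ maximalIdeal O) →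
    IsRegularLocalRing (O ⧸ Ideal.span (Set.range f)) := by
  induction r with
  | zero =>
    intro O _ _ hO f _ _
    have h0 : Ideal.span (Set.range f) = ⊥ := by
      rw [Set.range_eq_empty, Ideal.span_empty]
    exact IsRegularLocalRing.of_ringEquiv ((RingEquiv.quotientBot O).symm.trans
      (Ideal.quotEquivOfEq h0.symm))
  | succ r ih =>
    intro O _ _ hO f hf hind
    have hf0 : f 0 ∉ maximalIdeal O ^ 2 := by
      intro h0
      have h1 := hind (Pi.single 0 1) (by simpa [Fin.sum_univ_succ] using h0) 0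
      rw [Pi.single_eq_same] at h1
      exact (maximalIdeal.isMaximal O).ne_top ((Ideal.eq_top_iff_one _).mpr h1)
    have hreg := isRegularLocalRing_quotient hO (hf 0) hf0
    have := isLocalRing_quotient (hf 0)
    have hcomap : ∀ x : O, Ideal.Quotient.mk (Ideal.span {f 0}) x ∈
        maximalIdeal (O ⧸ Ideal.span {f 0}) ↔ x ∈ maximalIdeal O := by
      intro x
      have := IsLocalHom.of_surjective (Ideal.Quotient.mk (Ideal.span {f 0}))
        Ideal.Quotient.mk_surjective
      have h5 := ((IsLocalRing.local_hom_TFAE (Ideal.Quotient.mk (Ideal.span {f 0}))).out 0 4).mp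
        this
      rw [← Ideal.mem_comap, h5]
    have hmap : (maximalIdeal O).map (Ideal.Quotient.mk (Ideal.span {f 0})) =
        maximalIdeal (O ⧸ Ideal.span {f 0}) := by
      apply le_antisymm
      · rw [Ideal.map_le_iff_le_comap]
        intro x hx
        exact (hcomap x).mpr hx
      · intro y hy
        obtain ⟨x, rfl⟩ := Ideal.Quotient.mk_surjective y
        exact Ideal.mem_map_of_mem _ ((hcomap x).mp hy)
    have h2 := ih (O ⧸ Ideal.span {f 0}) hreg
      (fun i => Ideal.Quotient.mk (Ideal.span {f 0}) (f i.succ))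
      (fun i => (hcomap _).mpr (hf i.succ)) (by
        intro c hc i
        choose d hd using fun i => Ideal.Quotient.mk_surjective (c i)
        have h3 : Ideal.Quotient.mk (Ideal.span {f 0}) (∑ i : Fin r, d i * f i.succ) ∈
            (maximalIdeal O ^ 2).map (Ideal.Quotient.mk (Ideal.span {f 0})) := by
          rw [Ideal.map_pow, hmap, map_sum]
          simp_rw [map_mul, hd]
          exact hc
        obtain ⟨y, hy, hy2⟩ := (Ideal.mem_map_iff_of_surjective _
          Ideal.Quotient.mk_surjective).mp h3
        rw [← sub_eq_zero, ← map_sub, Ideal.Quotient.eq_zero_iff_mem] at hy2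
        obtain ⟨e, he⟩ := Ideal.mem_span_singleton'.mp hy2
        have h4 := hind (Fin.cons e d) (by
          rw [Fin.sum_univ_succ]
          simp only [Fin.cons_zero, Fin.cons_succ]
          rw [he, sub_add_cancel]
          exact hy) i.succ
        rw [Fin.cons_succ] at h4
        rw [← hd]
        exact (hcomap _).mpr h4)
    let J : Ideal O := Ideal.span (Set.range fun i : Fin r => f i.succ)
    have e1 : Ideal.span (Set.range fun i : Fin r => Ideal.Quotient.mk (Ideal.span {f 0})
        (f i.succ)) = J.map (Ideal.Quotient.mk (Ideal.span {f 0})) := by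
      rw [Ideal.map_span, ← Set.range_comp]
      rfl
    have e2 : Ideal.span {f 0} ⊔ J = Ideal.span (Set.range f) := by
      rw [← Ideal.span_union]
      congr 1
      ext x
      constructor
      · rintro (rfl | ⟨i, rfl⟩)
        · exact ⟨0, rfl⟩
        · exact ⟨i.succ, rfl⟩
      · rintro ⟨i, rfl⟩
        rcases Fin.eq_zero_or_eq_succ i with rfl | ⟨j, rfl⟩
        · exact Or.inl rfl
        · exact Or.inr ⟨j, rfl⟩
    exact IsRegularLocalRing.of_ringEquiv (((Ideal.quotEquivOfEq e1).trans
      (DoubleQuot.quotQuotEquivQuotSup (Ideal.span {f 0}) J)).trans (Ideal.quotEquivOfEq e2))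

/-- **Chart lemma.** -/
theorem isRegularLocalRing_of_chart {P D : Type u} [CommRing P] [IsRegularRing P] [CommRing D]
    [IsLocalRing D] (δ : P →+* D) {r : ℕ} (f : Fin r → P) (hf : ∀ i, δ (f i) = 0)
    (hc : ∀ s, IsUnit (δ s) → ∀ c : Fin r → P,
      s * ∑ i, c i * f i ∈ (Ideal.comap δ (maximalIdeal D)) ^ 2 →
        ∀ i, c i ∈ Ideal.comap δ (maximalIdeal D))
    (ha : ∀ z, ∃ a b, IsUnit (δ b) ∧ z * δ b = δ a)
    (hb : ∀ p, δ p = 0 → ∃ τ, δ τ ≠ 0 ∧ τ * p ∈ Ideal.span (Set.range f)) :
    IsRegularLocalRing D := by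
  classical
  set Q := Ideal.comap δ (maximalIdeal D) with hQ
  have hQp : Q.IsPrime := Ideal.IsPrime.comap δ
  have hunit : ∀ s, s ∉ Q ↔ IsUnit (δ s) := by
    intro s
    rw [hQ, Ideal.mem_comap, IsLocalRing.mem_maximalIdeal, mem_nonunits_iff, not_not]
  let R := Localization.AtPrime Q
  have hR : IsRegularLocalRing R := inferInstance
  let g : Fin r → R := fun i => algebraMap P R (f i)
  have hfQ : ∀ i, f i ∈ Q := by
    intro i
    rw [hQ, Ideal.mem_comap, hf i]
    exact Ideal.zero_mem _
  have hg : ∀ i, g i ∈ maximalIdeal R := by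
    intro i
    rw [← Localization.AtPrime.map_eq_maximalIdeal]
    exact Ideal.mem_map_of_mem _ (hfQ i)
  have hind : ∀ c : Fin r → R, ∑ i, c i * g i ∈ maximalIdeal R ^ 2 → ∀ i, c i ∈ maximalIdeal R := by
    intro c hcm i
    obtain ⟨s, hs⟩ := IsLocalization.exist_integer_multiples_of_finite Q.primeCompl c
    choose a ha using hs
    have h1 : algebraMap P R (∑ i, a i * f i) ∈ maximalIdeal R ^ 2 := by
      have h2 : algebraMap P R (∑ i, a i * f i) = algebraMap P R s * ∑ i, c i * g i := by
        rw [map_sum, Finset.mul_sum]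
        refine Finset.sum_congr rfl fun i _ => ?_
        rw [map_mul, ha, Algebra.smul_def]
        ring
      rw [h2]
      exact Ideal.mul_mem_left _ _ hcm
    rw [mem_maximalIdeal_pow_iff] at h1
    obtain ⟨s', hs', hs2⟩ := h1
    have h3 := hc s' ((hunit s').mp hs') a hs2 i
    have h4 : algebraMap P R (a i) ∈ maximalIdeal R := by
      rw [← Localization.AtPrime.map_eq_maximalIdeal]
      exact Ideal.mem_map_of_mem _ h3
    rw [ha, Algebra.smul_def] at h4
    exact (Ideal.unit_mul_mem_iff_mem _ (IsLocalization.map_units R s)).mp h4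
  have hQ0 := isRegularLocalRing_quotient_range r R hR g hg hind
  have hdom : IsDomain (R ⧸ Ideal.span (Set.range g)) :=
    isDomain_aux _ _ le_rfl
  -- the comparison map
  let δR : R →+* D := IsLocalization.lift (M := Q.primeCompl) (g := δ)
    fun y => (hunit y).mp y.2
  have hδR : ∀ p, δR (algebraMap P R p) = δ p := fun p => IsLocalization.lift_eq _ _
  let Φ : R ⧸ Ideal.span (Set.range g) →+* D := Ideal.Quotient.lift _ δR (by
    intro a ha
    have hle : Ideal.span (Set.range g) ≤ RingHom.ker δR := by
      rw [Ideal.span_le]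
      rintro _ ⟨i, rfl⟩
      change δR (algebraMap P R (f i)) = 0
      rw [hδR, hf]
    exact hle ha)
  have hΦ : ∀ p, Φ (Ideal.Quotient.mk _ (algebraMap P R p)) = δ p := by
    intro p
    rw [Ideal.Quotient.lift_mk, hδR]
  have hinj : Function.Injective Φ := by
    rw [injective_iff_map_eq_zero]
    intro x hx
    obtain ⟨x, rfl⟩ := Ideal.Quotient.mk_surjective x
    obtain ⟨p, s, rfl⟩ := IsLocalization.exists_mk'_eq Q.primeCompl x
    have h1 : Ideal.Quotient.mk (Ideal.span (Set.range g)) (IsLocalization.mk' R p s) *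
        Ideal.Quotient.mk (Ideal.span (Set.range g)) (algebraMap P R s) =
        Ideal.Quotient.mk (Ideal.span (Set.range g)) (algebraMap P R p) := by
      rw [← map_mul, IsLocalization.mk'_spec]
    have hp : δ p = 0 := by
      rw [← hΦ, ← h1, map_mul, hx, zero_mul]
    obtain ⟨τ, hτ, hτp⟩ := hb p hp
    have h2 : Ideal.Quotient.mk (Ideal.span (Set.range g)) (algebraMap P R τ) *
        Ideal.Quotient.mk (Ideal.span (Set.range g)) (algebraMap P R p) = 0 := by
      rw [← map_mul, ← map_mul, Ideal.Quotient.eq_zero_iff_mem]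
      have h3 := Ideal.mem_map_of_mem (algebraMap P R) hτp
      rw [Ideal.map_span, ← Set.range_comp] at h3
      exact h3
    have h3 : Ideal.Quotient.mk (Ideal.span (Set.range g)) (algebraMap P R τ) ≠ 0 := by
      intro h4
      apply hτ
      rw [← hΦ, h4, map_zero]
    have h4 := (mul_eq_zero.mp h2).resolve_left h3
    rw [h4] at h1
    have h5 : Ideal.Quotient.mk (Ideal.span (Set.range g)) (algebraMap P R s) ≠ 0 := by
      intro h6
      have h7 := hΦ s
      rw [h6, map_zero] at h7
      have h8 := (hunit s).mp s.2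
      rw [← h7] at h8
      exact not_isUnit_zero h8
    exact (mul_eq_zero.mp h1).resolve_right h5
  have hsurj : Function.Surjective Φ := by
    intro z
    obtain ⟨a, b, hb1, hb2⟩ := ha z
    refine ⟨Ideal.Quotient.mk _ (IsLocalization.mk' R a (⟨b, (hunit b).mpr hb1⟩ :
      Q.primeCompl)), ?_⟩
    rw [Ideal.Quotient.lift_mk, IsLocalization.lift_mk'_spec, mul_comm, ← hb2, mul_comm]
  exact IsRegularLocalRing.of_ringEquiv (RingEquiv.ofBijective Φ ⟨hinj, hsurj⟩)

end Pool.Agent.Lib.MP_6a3dac_ag
end

section

/-!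
# Smooth algebras over regular rings are regular
-/

set_option autoImplicit false

namespace Pool.Agent.Lib.MP_6a3dac_ag

open IsLocalRing MvPolynomial

theorem derivation_mem_of_mem_sq {A P : Type} [CommRing A] [CommRing P] [Algebra A P]
    (d : Derivation A P P) (Q : Ideal P) {x : P} (hx : x ∈ Q ^ 2) : d x ∈ Q := by
  rw [pow_two] at hx
  induction hx using Submodule.mul_induction_on' with
  | mem_mul_mem a ha b hb =>
    rw [Derivation.leibniz, smul_eq_mul, smul_eq_mul]
    exact Q.add_mem (Q.mul_mem_right _ ha) (Q.mul_mem_right _ hb)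
  | add a _ b _ ha hb =>
    rw [map_add]
    exact Q.add_mem ha hb

theorem isRegularRing_of_isStandardSmooth (A B : Type) [CommRing A] [IsRegularRing A]
    [CommRing B] [Algebra A B] [Algebra.IsStandardSmooth A B] : IsRegularRing B := by
  classical
  obtain ⟨ι, σ, hσ, hι, ⟨P⟩⟩ := Algebra.IsStandardSmooth.out (R := A) (S := B)
  have hBN : IsNoetherianRing B := Algebra.FiniteType.isNoetherianRing A B
  cases nonempty_fintype σ
  rw [isRegularRing_iff]
  intro q hq
  obtain ⟨e⟩ : Nonempty (Fin (Fintype.card σ) ≃ σ) := ⟨(Fintype.equivFin σ).symm⟩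
  let R := MvPolynomial ι A
  let π : R →+* B := (aeval P.val : R →ₐ[A] B)
  have hπ : Function.Surjective π := P.aeval_val_surjective
  have hker : ∀ p : R, π p = 0 ↔ p ∈ Ideal.span (Set.range P.relation) := by
    intro p
    rw [P.span_range_relation_eq_ker, P.ker_eq_ker_aeval_val]
    exact RingHom.mem_ker.symm
  let δ : R →+* Localization.AtPrime q := (algebraMap B (Localization.AtPrime q)).comp π
  have hunit : ∀ p : R, IsUnit (δ p) ↔ π p ∉ q := by
    intro p
    exact IsLocalization.AtPrime.isUnit_to_map_iff (Localization.AtPrime q) q (π p)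
  have hfr : Set.range (fun i => P.relation (e i)) = Set.range P.relation := by
    ext x
    constructor
    · rintro ⟨i, rfl⟩
      exact ⟨e i, rfl⟩
    · rintro ⟨i, rfl⟩
      exact ⟨e.symm i, by simp⟩
  refine isRegularLocalRing_of_chart δ (fun i => P.relation (e i)) ?_ ?_ ?_ ?_
  · intro i
    change algebraMap B _ (π _) = 0
    rw [(hker _).mpr (Ideal.subset_span ⟨_, rfl⟩), map_zero]
  · intro s hs c hc
    obtain ⟨Q, hQ⟩ : ∃ Q, Q = (maximalIdeal (Localization.AtPrime q)).comap δ := ⟨_, rfl⟩
    rw [← hQ] at hc ⊢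
    have hQp : Q.IsPrime := hQ ▸ Ideal.IsPrime.comap δ
    have hQu : ∀ x, x ∈ Q ↔ ¬ IsUnit (δ x) := by
      intro x
      rw [hQ, Ideal.mem_comap, IsLocalRing.mem_maximalIdeal, mem_nonunits_iff]
    have hrel : ∀ j, P.relation j ∈ Q := by
      intro j
      rw [hQ, Ideal.mem_comap]
      change algebraMap B _ (π _) ∈ _
      rw [(hker _).mpr (Ideal.subset_span ⟨_, rfl⟩), map_zero]
      exact Ideal.zero_mem _
    let d : σ → R := fun j => c (e.symm j)
    have hsum : ∑ i, c i * P.relation (e i) = ∑ j, d j * P.relation j := by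
      rw [← Equiv.sum_comp e]
      simp [d]
    rw [hsum] at hc
    have hM : ∀ i, (P.jacobiMatrix.mulVec d) i ∈ Q := by
      intro i
      have h1 := derivation_mem_of_mem_sq (MvPolynomial.pderiv (P.map i)) Q hc
      rw [Derivation.leibniz, map_sum, smul_eq_mul, smul_eq_mul] at h1
      have h2 : (∑ j, d j * P.relation j) ∈ Q :=
        Q.sum_mem fun j _ => Q.mul_mem_left _ (hrel j)
      have h3 : s * ∑ j, (MvPolynomial.pderiv (P.map i)) (d j * P.relation j) ∈ Q := by
        have := Q.sub_mem h1 (Q.mul_mem_right ((MvPolynomial.pderiv (P.map i)) s) h2)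
        rwa [add_sub_cancel_right] at this
      have h4 := (hQp.mem_or_mem h3).resolve_left ((hQu s).not.mpr (not_not.mpr hs))
      have h5 : ∑ j, (MvPolynomial.pderiv (P.map i)) (d j * P.relation j) =
          (P.jacobiMatrix.mulVec d) i + ∑ j, P.relation j * MvPolynomial.pderiv (P.map i) (d j) := by
        rw [Matrix.mulVec, dotProduct, ← Finset.sum_add_distrib]
        refine Finset.sum_congr rfl fun j _ => ?_
        rw [Derivation.leibniz, smul_eq_mul, smul_eq_mul, P.jacobiMatrix_apply]
        ring
      rw [h5] at h4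
      have h6 : ∑ j, P.relation j * MvPolynomial.pderiv (P.map i) (d j) ∈ Q :=
        Q.sum_mem fun j _ => Q.mul_mem_right _ (hrel j)
      have := Q.sub_mem h4 h6
      rwa [add_sub_cancel_right] at this
    have hdet : IsUnit (δ P.jacobiMatrix.det) := by
      have h1 := P.jacobian_isUnit
      rw [P.jacobian_eq_jacobiMatrix_det] at h1
      have h2 : π P.jacobiMatrix.det = algebraMap P.Ring B P.jacobiMatrix.det := by
        rw [P.algebraMap_eq]
      change IsUnit (algebraMap B _ (π P.jacobiMatrix.det))
      rw [h2]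
      exact h1.map _
    intro i
    have h1 : P.jacobiMatrix.adjugate.mulVec (P.jacobiMatrix.mulVec d) =
        P.jacobiMatrix.det • d := by
      rw [Matrix.mulVec_mulVec, Matrix.adjugate_mul, Matrix.smul_mulVec, Matrix.one_mulVec]
    have h2 : P.jacobiMatrix.det * d (e i) ∈ Q := by
      have h3 := congrFun h1 (e i)
      rw [Pi.smul_apply, smul_eq_mul] at h3
      rw [← h3, Matrix.mulVec, dotProduct]
      exact Q.sum_mem fun j _ => Q.mul_mem_left _ (hM j)
    have h3 := (hQp.mem_or_mem h2).resolve_left ((hQu _).not.mpr (not_not.mpr hdet))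
    simpa [d] using h3
  · intro z
    obtain ⟨⟨a, s⟩, hz⟩ := IsLocalization.surj q.primeCompl z
    obtain ⟨a', ha'⟩ := hπ a
    obtain ⟨s', hs'⟩ := hπ s
    refine ⟨a', s', ?_, ?_⟩
    · rw [hunit, hs']
      exact s.2
    · change z * algebraMap B _ (π s') = algebraMap B _ (π a')
      rw [ha', hs']
      exact hz
  · intro p hp
    change algebraMap B _ (π p) = 0 at hp
    rw [IsLocalization.map_eq_zero_iff q.primeCompl] at hp
    obtain ⟨s, hs⟩ := hp
    obtain ⟨s', hs'⟩ := hπ s
    refine ⟨s', ?_, ?_⟩
    · have : IsUnit (δ s') := by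
        rw [hunit, hs']
        exact s.2
      exact this.ne_zero
    · rw [hfr, ← hker, map_mul, hs', hs]

/-- **Smooth algebras over regular rings are regular.** -/
theorem isRegularRing_of_smooth (A B : Type) [CommRing A] [IsRegularRing A]
    [CommRing B] [Algebra A B] [Algebra.Smooth A B] : IsRegularRing B := by
  have hBN : IsNoetherianRing B := Algebra.FiniteType.isNoetherianRing A B
  rw [isRegularRing_iff]
  intro q hq
  have hq' : Algebra.IsSmoothAt A q := by
    have h := Algebra.smoothLocus_eq_univ (R := A) (A := B)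
    have h2 : (⟨q, hq⟩ : PrimeSpectrum B) ∈ Algebra.smoothLocus A B := by
      rw [h]; exact Set.mem_univ _
    exact h2
  obtain ⟨f, hf, hst⟩ := Algebra.IsSmoothAt.exists_notMem_isStandardSmooth A q
  have hreg := isRegularRing_of_isStandardSmooth A (Localization.Away f)
  have hdisj : Disjoint (Submonoid.powers f : Set B) (q : Set B) :=
    (Ideal.disjoint_powers_iff_notMem_of_isPrime (I := q) (y := f)).mpr hf
  have hqp : (q.map (algebraMap B (Localization.Away f))).IsPrime :=
    IsLocalization.isPrime_of_isPrime_disjoint (Submonoid.powers f) _ _ hq hdisj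
  have h1 : (q.map (algebraMap B (Localization.Away f))).comap (algebraMap B (Localization.Away f)) = q :=
    IsLocalization.under_map_of_isPrime_disjoint (Submonoid.powers f) _ hq hdisj
  let q' := q.map (algebraMap B (Localization.Away f))
  have h2 : IsLocalization.AtPrime (Localization.AtPrime q') (q'.comap (algebraMap B (Localization.Away f))) :=
    IsLocalization.isLocalization_isLocalization_atPrime_isLocalization (Submonoid.powers f)
      (Localization.AtPrime q') q'
  have h3 : (q'.comap (algebraMap B (Localization.Away f))).primeCompl = q.primeCompl := by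
    ext x
    rw [Ideal.mem_primeCompl_iff, Ideal.mem_primeCompl_iff, h1]
  have h4 : IsLocalization q.primeCompl (Localization.AtPrime q') := h3 ▸ h2
  exact IsRegularLocalRing.of_ringEquiv (IsLocalization.algEquiv q.primeCompl
    (Localization.AtPrime q') (Localization.AtPrime q)).toRingEquiv

end Pool.Agent.Lib.MP_6a3dac_ag
end
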