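import Mathlib
import Pool.Agent.Lib.MP_6a3dac_ag.Mg.G072
import Pool.Agent.Lib.MP_6a3dac_ag.Defs

section

/-!
# Quadratic forms over finite fields: totally singular subspaces
-/

set_option autoImplicit false

namespace Pool.Agent.Lib.MP_6a3dac_ag

open Matrix Module

section Basic

variable {R : Type*} [CommRing R] {n : ℕ}

/-- The value of the quadratic form with matrix `A`. -/
def qf (A : Matrix (Fin n) (Fin n) R) (v : Fin n → R) : R := v ⬝ᵥ A *ᵥ v

theorem qf_eq_sum (A : Matrix (Fin n) (Fin n) R) (v : Fin n → R) :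
    qf A v = ∑ i, ∑ j, A i j * v i * v j := by
  simp only [qf, dotProduct, mulVec, Finset.mul_sum]
  refine Finset.sum_congr rfl fun i _ => Finset.sum_congr rfl fun j _ => by ring

theorem dotProduct_transpose_mulVec (A : Matrix (Fin n) (Fin n) R) (v w : Fin n → R) :
    v ⬝ᵥ Aᵀ *ᵥ w = w ⬝ᵥ A *ᵥ v := by
  rw [mulVec_transpose, dotProduct_comm, dotProduct_mulVec]

theorem qf_add (A : Matrix (Fin n) (Fin n) R) (v w : Fin n → R) :
    qf A (v + w) = qf A v + qf A w + v ⬝ᵥ (A + Aᵀ) *ᵥ w := by
  simp only [qf, mulVec_add, dotProduct_add, add_dotProduct, add_mulVec,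
    dotProduct_transpose_mulVec]
  ring

theorem qf_smul (A : Matrix (Fin n) (Fin n) R) (c : R) (v : Fin n → R) :
    qf A (c • v) = c ^ 2 * qf A v := by
  simp only [qf, mulVec_smul, dotProduct_smul, smul_dotProduct, smul_eq_mul]
  ring

theorem qf_zero (A : Matrix (Fin n) (Fin n) R) : qf A 0 = 0 := by simp [qf]

theorem qf_neg (A : Matrix (Fin n) (Fin n) R) (v : Fin n → R) : qf A (-v) = qf A v := by
  simp [qf, mulVec_neg]

theorem qf_conj (A H : Matrix (Fin n) (Fin n) R) (v : Fin n → R) :
    qf (Hᵀ * A * H) v = qf A (H *ᵥ v) := by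
  rw [qf, qf, ← mulVec_mulVec, ← mulVec_mulVec, mulVec_transpose, ← mulVec_transpose,
    dotProduct_transpose_mulVec, dotProduct_comm]

theorem dot_symm (A : Matrix (Fin n) (Fin n) R) (v w : Fin n → R) :
    v ⬝ᵥ (A + Aᵀ) *ᵥ w = w ⬝ᵥ (A + Aᵀ) *ᵥ v := by
  rw [← dotProduct_transpose_mulVec, transpose_add, transpose_transpose, add_comm Aᵀ]

theorem dot_self (A : Matrix (Fin n) (Fin n) R) (v : Fin n → R) :
    v ⬝ᵥ (A + Aᵀ) *ᵥ v = 2 * qf A v := by
  rw [add_mulVec, dotProduct_add, dotProduct_transpose_mulVec, qf]; ring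

end Basic

section Field

variable {k : Type*} [Field k] {n : ℕ} (A : Matrix (Fin n) (Fin n) k)

/-- The space of singular vectors in the radical. -/
def nullSub : Submodule k (Fin n → k) where
  carrier := {v | (A + Aᵀ) *ᵥ v = 0 ∧ qf A v = 0}
  add_mem' := by
    rintro v w ⟨hv, hv'⟩ ⟨hw, hw'⟩
    refine ⟨?_, ?_⟩
    · rw [mulVec_add, hv, hw, add_zero]
    · rw [qf_add, hv', hw', hw, dotProduct_zero]; ring
  zero_mem' := ⟨by simp, qf_zero A⟩
  smul_mem' := by
    rintro c v ⟨hv, hv'⟩
    exact ⟨by rw [mulVec_smul, hv, smul_zero], by rw [qf_smul, hv', mul_zero]⟩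

theorem mem_nullSub {v : Fin n → k} : v ∈ nullSub A ↔ (A + Aᵀ) *ᵥ v = 0 ∧ qf A v = 0 := Iff.rfl

/-- A totally singular subspace. -/
def TotSing (J : Submodule k (Fin n → k)) : Prop := ∀ v ∈ J, qf A v = 0

variable {A}

theorem TotSing.dot {J : Submodule k (Fin n → k)} (hJ : TotSing A J) {v w : Fin n → k}
    (hv : v ∈ J) (hw : w ∈ J) : v ⬝ᵥ (A + Aᵀ) *ᵥ w = 0 := by
  have h1 := qf_add A v w
  rw [hJ _ (J.add_mem hv hw), hJ _ hv, hJ _ hw, zero_add, zero_add] at h1
  exact h1.symm

theorem TotSing.sup_span {J : Submodule k (Fin n → k)} (hJ : TotSing A J) {w : Fin n → k}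
    (hw : qf A w = 0) (h : ∀ v ∈ J, v ⬝ᵥ (A + Aᵀ) *ᵥ w = 0) :
    TotSing A (J ⊔ Submodule.span k {w}) := by
  intro x hx
  obtain ⟨v, hv, y, hy, rfl⟩ := Submodule.mem_sup.mp hx
  obtain ⟨c, rfl⟩ := Submodule.mem_span_singleton.mp hy
  rw [qf_add, hJ v hv, qf_smul, hw, mulVec_smul, dotProduct_smul, h v hv]
  simp

variable (A)

/-- Over a finite field there is a totally singular subspace of large dimension. -/
theorem exists_totSing [Finite k] : ∃ J : Submodule k (Fin n → k), TotSing A J ∧
    n + finrank k (nullSub A) ≤ 2 * finrank k J + 2 := by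
  classical
  have := Fintype.ofFinite k
  -- a totally singular subspace of maximal dimension
  have hex : ∃ J : Submodule k (Fin n → k), TotSing A J ∧
      ∀ J' : Submodule k (Fin n → k), TotSing A J' → finrank k J' ≤ finrank k J := by
    let P : ℕ → Prop := fun m => ∃ J : Submodule k (Fin n → k), TotSing A J ∧ finrank k J = m
    have hP0 : P 0 := ⟨⊥, by
      intro v hv
      rw [Submodule.mem_bot] at hv
      rw [hv, qf_zero], finrank_bot _ _⟩
    have hbd : ∀ m, P m → m ≤ n := by
      rintro m ⟨J, _, rfl⟩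
      have := Submodule.finrank_le J
      rwa [Module.finrank_fin_fun] at this
    obtain ⟨J, hJ, hJm⟩ := Nat.findGreatest_spec (P := P) (Nat.zero_le n) hP0
    refine ⟨J, hJ, fun J' hJ' => ?_⟩
    rw [hJm]
    exact Nat.le_findGreatest (hbd _ ⟨J', hJ', rfl⟩) ⟨J', hJ', rfl⟩
  obtain ⟨J, hJ, hmax⟩ := hex
  refine ⟨J, hJ, ?_⟩
  have hmem : ∀ w, qf A w = 0 → (∀ v ∈ J, v ⬝ᵥ (A + Aᵀ) *ᵥ w = 0) → w ∈ J := by
    intro w hw h
    have h1 := hmax _ (hJ.sup_span hw h)
    have h2 : J = J ⊔ Submodule.span k {w} :=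
      Submodule.eq_of_le_of_finrank_le le_sup_left h1
    rw [h2]
    exact Submodule.mem_sup_right (Submodule.mem_span_singleton_self w)
  have hN : nullSub A ≤ J := by
    intro w hw
    refine hmem w hw.2 fun v _ => ?_
    rw [hw.1, dotProduct_zero]
  let B : LinearMap.BilinForm k (Fin n → k) := Matrix.toBilin' (A + Aᵀ)
  have hB : ∀ v w, B v w = v ⬝ᵥ (A + Aᵀ) *ᵥ w := fun v w => Matrix.toBilin'_apply' _ _ _
  have hJle : J ≤ B.orthogonal J := by
    intro w hw v hv
    change B v w = 0
    rw [hB]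
    exact hJ.dot hv hw
  have hdim := LinearMap.BilinForm.finrank_add_finrank_orthogonal' (B := B) J
  have hNker : nullSub A ≤ J ⊓ LinearMap.ker B := by
    intro w hw
    refine ⟨hN hw, ?_⟩
    change B w = 0
    refine LinearMap.ext fun v => ?_
    rw [hB, dot_symm, hw.1, dotProduct_zero, LinearMap.zero_apply]
  have hNle := Submodule.finrank_mono hNker
  rw [Module.finrank_fin_fun] at hdim
  by_contra hcon
  push Not at hcon
  -- three independent vectors in the orthogonal complement modulo `J`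
  let J' : Submodule k (B.orthogonal J) := J.comap (B.orthogonal J).subtype
  have hJ'dim : finrank k J' = finrank k J :=
    (Submodule.comapSubtypeEquivOfLe hJle).finrank_eq
  have hquot := Submodule.finrank_quotient_add_finrank J'
  have h3 : 3 ≤ finrank k ((B.orthogonal J) ⧸ J') := by omega
  obtain ⟨f, hf⟩ := exists_linearIndependent_of_le_finrank h3
  choose b hb using fun i => Submodule.Quotient.mk_surjective J' (f i)
  let M : Matrix (Fin 3) (Fin 3) k :=
    Matrix.of fun i j => ((b i : Fin n → k)) ⬝ᵥ A *ᵥ (b j : Fin n → k)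
  let P : MvPolynomial (Fin 3) k :=
    ∑ i, ∑ j, MvPolynomial.C (M i j) * MvPolynomial.X i * MvPolynomial.X j
  have hPeval : ∀ t : Fin 3 → k, MvPolynomial.eval t P = qf A (∑ i, t i • (b i : Fin n → k)) := by
    intro t
    have h1 : MvPolynomial.eval t P = ∑ i, ∑ j, M i j * t i * t j := by
      simp [P, map_sum]
    rw [h1, qf, sum_dotProduct]
    refine Finset.sum_congr rfl fun i _ => ?_
    rw [mulVec_sum, dotProduct_sum]
    refine Finset.sum_congr rfl fun j _ => ?_
    rw [mulVec_smul, dotProduct_smul, smul_dotProduct]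
    simp only [M, Matrix.of_apply, smul_eq_mul]
    ring
  have hPdeg : P.totalDegree < Fintype.card (Fin 3) := by
    rw [Fintype.card_fin]
    refine lt_of_le_of_lt (b := 2) ?_ (by norm_num)
    refine MvPolynomial.totalDegree_finsetSum_le fun i _ =>
      MvPolynomial.totalDegree_finsetSum_le fun j _ => ?_
    refine (MvPolynomial.totalDegree_mul _ _).trans ?_
    have e1 := MvPolynomial.totalDegree_mul (MvPolynomial.C (M i j))
      (MvPolynomial.X i : MvPolynomial (Fin 3) k)
    have e2 : (MvPolynomial.X i : MvPolynomial (Fin 3) k).totalDegree = 1 :=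
      MvPolynomial.totalDegree_X i
    have e3 : (MvPolynomial.X j : MvPolynomial (Fin 3) k).totalDegree = 1 :=
      MvPolynomial.totalDegree_X j
    have e4 : (MvPolynomial.C (M i j) : MvPolynomial (Fin 3) k).totalDegree = 0 :=
      MvPolynomial.totalDegree_C _
    omega
  obtain ⟨q, hq⟩ := CharP.exists k
  have hqprime : q.Prime := (CharP.char_is_prime_or_zero k q).resolve_right
    (CharP.char_ne_zero_of_finite k q)
  have hdvd := char_dvd_card_solutions q hPdeg
  have hP0 : MvPolynomial.eval (0 : Fin 3 → k) P = 0 := by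
    rw [hPeval]
    simp [qf_zero]
  have hex : ∃ t : Fin 3 → k, t ≠ 0 ∧ MvPolynomial.eval t P = 0 := by
    by_contra hno
    push Not at hno
    have hcard : Fintype.card { x : Fin 3 → k // MvPolynomial.eval x P = 0 } = 1 := by
      rw [Fintype.card_eq_one_iff]
      refine ⟨⟨0, hP0⟩, ?_⟩
      rintro ⟨x, hx⟩
      ext1
      by_contra hx0
      exact hno x hx0 hx
    rw [hcard] at hdvd
    exact hqprime.one_lt.ne' (Nat.dvd_one.mp hdvd)
  obtain ⟨t, ht0, htP⟩ := hex
  rw [hPeval] at htP
  have hvJ : (∑ i, t i • (b i : Fin n → k)) ∈ J := by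
    refine hmem _ htP fun v hv => ?_
    rw [mulVec_sum, dotProduct_sum]
    refine Finset.sum_eq_zero fun i _ => ?_
    rw [mulVec_smul, dotProduct_smul]
    have : B v (b i : Fin n → k) = 0 := (b i).2 v hv
    rw [hB] at this
    rw [this, smul_zero]
  have hsum : ∑ i, t i • f i = 0 := by
    have h1 : ∑ i, t i • b i ∈ J' := by
      change ((∑ i, t i • b i : B.orthogonal J) : Fin n → k) ∈ J
      rw [Submodule.coe_sum]
      exact hvJ
    have h2 : ∑ i, t i • f i = Submodule.Quotient.mk (∑ i, t i • b i) := by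
      simp only [← hb]
      rw [← Submodule.mkQ_apply, map_sum]
      rfl
    rw [h2, Submodule.Quotient.mk_eq_zero]
    exact h1
  have := Fintype.linearIndependent_iff.mp hf t hsum
  exact ht0 (funext this)

end Field

end Pool.Agent.Lib.MP_6a3dac_ag
end

section

/-!
# Singular vectors in the radical over extension fields
-/

set_option autoImplicit false

namespace Pool.Agent.Lib.MP_6a3dac_ag

open Matrix Module

theorem qf_sum {R : Type*} [CommRing R] {n : ℕ} (A : Matrix (Fin n) (Fin n) R) {ι : Type*}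
    (s : Finset ι) (x : ι → Fin n → R) (h : ∀ a ∈ s, (A + Aᵀ) *ᵥ x a = 0) :
    qf A (∑ a ∈ s, x a) = ∑ a ∈ s, qf A (x a) := by
  classical
  induction s using Finset.induction_on with
  | empty => simp [qf_zero]
  | insert a s ha ih =>
    rw [Finset.sum_insert ha, Finset.sum_insert ha, qf_add,
      ih fun b hb => h b (Finset.mem_insert_of_mem hb), dot_symm,
      h a (Finset.mem_insert_self _ _), dotProduct_zero, add_zero]

theorem map_mulVec' {R S : Type*} [CommRing R] [CommRing S] {n : ℕ} (φ : R →+* S)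
    (A : Matrix (Fin n) (Fin n) R) (v : Fin n → R) :
    A.map φ *ᵥ (φ ∘ v) = φ ∘ (A *ᵥ v) := by
  ext i
  simp [mulVec, dotProduct, map_sum]

theorem qf_map {R S : Type*} [CommRing R] [CommRing S] {n : ℕ} (φ : R →+* S)
    (A : Matrix (Fin n) (Fin n) R) (v : Fin n → R) :
    qf (A.map φ) (φ ∘ v) = φ (qf A v) := by
  rw [qf, qf, map_mulVec']
  simp [dotProduct, map_sum]

theorem map_add_transpose {R S : Type*} [CommRing R] [CommRing S] {n : ℕ} (φ : R →+* S)
    (A : Matrix (Fin n) (Fin n) R) : (A + Aᵀ).map φ = A.map φ + (A.map φ)ᵀ := by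
  ext i j
  simp

/-- A singular vector in the radical of a quadratic form over an extension of a finite field is a
linear combination of such vectors over the finite field. -/
theorem exists_expansion {k κ : Type*} [Field k] [Finite k] [Field κ] [Algebra k κ] {n : ℕ}
    (A : Matrix (Fin n) (Fin n) k) (v : Fin n → κ)
    (h1 : (A.map (algebraMap k κ) + (A.map (algebraMap k κ))ᵀ) *ᵥ v = 0)
    (h2 : qf (A.map (algebraMap k κ)) v = 0) :
    ∃ (s : Finset (Basis.ofVectorSpaceIndex k κ)) (ω : Basis.ofVectorSpaceIndex k κ → κ)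
      (w : Basis.ofVectorSpaceIndex k κ → Fin n → k),
      (∀ a ∈ s, w a ∈ nullSub A) ∧ v = ∑ a ∈ s, ω a • (algebraMap k κ ∘ w a) := by
  classical
  let b := Basis.ofVectorSpace k κ
  let w : Basis.ofVectorSpaceIndex k κ → Fin n → k := fun a i => b.repr (v i) a
  let s : Finset (Basis.ofVectorSpaceIndex k κ) :=
    Finset.univ.biUnion fun i => (b.repr (v i)).support
  have hv : v = ∑ a ∈ s, b a • (algebraMap k κ ∘ w a) := by
    ext i
    rw [Finset.sum_apply]
    simp only [Pi.smul_apply, Function.comp_apply, smul_eq_mul]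
    conv_lhs => rw [← b.linearCombination_repr (v i), Finsupp.linearCombination_apply]
    rw [Finsupp.sum_of_support_subset (s := s)]
    · refine Finset.sum_congr rfl fun a _ => ?_
      rw [Algebra.smul_def, mul_comm]
    · intro a ha
      exact Finset.mem_biUnion.mpr ⟨i, Finset.mem_univ _, ha⟩
    · simp
  have hG : ∀ a, (A + Aᵀ) *ᵥ w a = 0 := by
    intro a
    ext i
    have h3 := congrFun h1 i
    rw [← map_add_transpose] at h3
    simp only [mulVec, dotProduct, Matrix.map_apply, Pi.zero_apply] at h3 ⊢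
    have h4 := congrArg (fun x => b.repr x a) h3
    simp only [map_sum, ← Algebra.smul_def, map_smul, map_zero, Finsupp.coe_finsetSum,
      Finset.sum_apply, Finsupp.smul_apply, smul_eq_mul, Finsupp.coe_zero, Pi.zero_apply] at h4
    exact h4
  have hGκ : ∀ a, (A.map (algebraMap k κ) + (A.map (algebraMap k κ))ᵀ) *ᵥ
      (b a • (algebraMap k κ ∘ w a)) = 0 := by
    intro a
    rw [mulVec_smul, ← map_add_transpose, map_mulVec', hG a]
    ext i
    simp
  have hq : ∑ a ∈ s, b a ^ 2 * algebraMap k κ (qf A (w a)) = 0 := by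
    rw [← h2, hv, qf_sum _ _ _ fun a _ => hGκ a]
    refine Finset.sum_congr rfl fun a _ => ?_
    rw [qf_smul, qf_map]
  refine ⟨s, fun a => b a, w, ?_, hv⟩
  intro a ha
  refine ⟨hG a, ?_⟩
  by_cases h20 : (2 : k) = 0
  · -- characteristic two
    have hchar : ringChar k = 2 := by
      have h3 : ringChar k ∣ 2 := (ringChar.spec k 2).mp (by exact_mod_cast h20)
      rcases (Nat.dvd_prime Nat.prime_two).mp h3 with h4 | h4
      · exact absurd h4 (CharP.ringChar_ne_one)
      · exact h4
    have hsq : ∀ a, ∃ c : k, qf A (w a) = c ^ 2 := by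
      intro a
      obtain ⟨c, hc⟩ := FiniteField.isSquare_of_char_two hchar (qf A (w a))
      exact ⟨c, by rw [hc, pow_two]⟩
    choose c hc using hsq
    have h20κ : (2 : κ) = 0 := by
      have := congrArg (algebraMap k κ) h20
      rwa [map_ofNat, map_zero] at this
    have : CharP κ 2 := CharTwo.of_one_ne_zero_of_two_eq_zero one_ne_zero h20κ
    have h5 : (∑ a ∈ s, algebraMap k κ (c a) * b a) ^ 2 = 0 := by
      rw [CharTwo.sum_sq, ← hq]
      refine Finset.sum_congr rfl fun a _ => ?_
      rw [hc, map_pow]; ring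
    have h6 : ∑ a ∈ s, c a • b a = 0 := by
      rw [← pow_eq_zero_iff two_ne_zero, ← h5]
      simp_rw [Algebra.smul_def]
    have h7 := linearIndependent_iff'.mp b.linearIndependent s c h6 a ha
    rw [hc, h7, zero_pow two_ne_zero]
  · have h3 := dot_self A (w a)
    rw [hG a, dotProduct_zero] at h3
    exact (mul_eq_zero.mp h3.symm).resolve_left h20

end Pool.Agent.Lib.MP_6a3dac_ag
end

section

/-!
# Quadratic polynomials given by matrices, and the smoothness estimate at homogeneous primes
-/

set_option autoImplicit false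

namespace Pool.Agent.Lib.MP_6a3dac_ag

open IsLocalRing MvPolynomial

section Basic

variable {R : Type*} [CommRing R] {n : ℕ}

theorem quadPoly_isHomogeneous (A : Matrix (Fin n) (Fin n) R) :
    (quadPoly A).IsHomogeneous 2 := by
  unfold quadPoly
  refine IsHomogeneous.sum _ _ _ fun i _ => IsHomogeneous.sum _ _ _ fun j _ => ?_
  have h1 : (C (A i j) * X i : MvPolynomial (Fin n) R).IsHomogeneous 1 :=
    isHomogeneous_C_mul_X _ _
  exact h1.mul (isHomogeneous_X _ _)

theorem map_quadPoly {S : Type*} [CommRing S] (φ : R →+* S) (A : Matrix (Fin n) (Fin n) R) :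
    MvPolynomial.map φ (quadPoly A) = quadPoly (A.map φ) := by
  simp [quadPoly, map_sum]

theorem eval₂_quadPoly {S : Type*} [CommRing S] (φ : R →+* S) (A : Matrix (Fin n) (Fin n) R)
    (v : Fin n → S) :
    eval₂Hom φ v (quadPoly A) = ∑ i, ∑ j, φ (A i j) * v i * v j := by
  simp [quadPoly, map_sum]

theorem pderiv_quadPoly (A : Matrix (Fin n) (Fin n) R) (l : Fin n) :
    pderiv l (quadPoly A) = ∑ j, C ((A + A.transpose) l j) * X j := by
  classical
  simp only [quadPoly, map_sum]
  have h : ∀ i j, pderiv l (C (A i j) * X i * X j : MvPolynomial (Fin n) R) =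
      (if l = j then C (A i j) * X i else 0) + (if l = i then C (A i j) * X j else 0) := by
    intro i j
    rw [pderiv_mul, pderiv_mul, pderiv_C, pderiv_X, pderiv_X, Pi.single_apply, Pi.single_apply]
    by_cases h1 : l = i <;> by_cases h2 : l = j
    · rw [if_pos h1.symm, if_pos h2.symm, if_pos h2, if_pos h1]; ring
    · rw [if_pos h1.symm, if_neg (Ne.symm h2), if_neg h2, if_pos h1]; ring
    · rw [if_neg (Ne.symm h1), if_pos h2.symm, if_pos h2, if_neg h1]; ring
    · rw [if_neg (Ne.symm h1), if_neg (Ne.symm h2), if_neg h2, if_neg h1]; ring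
  simp_rw [h, Finset.sum_add_distrib, Finset.sum_ite_eq, Finset.mem_univ, if_true]
  rw [Finset.sum_comm (f := fun i j => if l = i then C (A i j) * X j else 0)]
  simp_rw [Finset.sum_ite_eq, Finset.mem_univ, if_true]
  rw [← Finset.sum_add_distrib]
  refine Finset.sum_congr rfl fun j _ => ?_
  simp [Matrix.add_apply, Matrix.transpose_apply]
  ring

end Basic

section Good

variable {O : Type} [CommRing O] [IsLocalRing O] {n : ℕ}

/-- `A` is a *good* matrix over the local ring `O` (with distinguished index `i₀`): the associated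
quadratic form has nonzero discriminant, all its singular vectors over fields containing the residue
field are multiples of the `i₀`-th basis vector, and they vanish if the value at this basis vector
is in the square of the maximal ideal. -/
structure GoodForm (A : Matrix (Fin n) (Fin n) O) (i₀ : Fin n) : Prop where
  det_ne : (A + A.transpose).det ≠ 0
  rad : ∀ (κ : Type) [Field κ] (φ : O →+* κ), (∀ x ∈ maximalIdeal O, φ x = 0) →
    ∀ v : Fin n → κ, (∀ i, ∑ j, φ ((A + A.transpose) i j) * v j = 0) →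
      ∑ i, ∑ j, φ (A i j) * v i * v j = 0 →
        (∀ l, l ≠ i₀ → v l = 0) ∧ (A i₀ i₀ ∈ maximalIdeal O ^ 2 → v i₀ = 0)

variable [IsDomain O] [Ring.DimensionLEOne O]

theorem GoodForm.notMem {A : Matrix (Fin n) (Fin n) O} {i₀ : Fin n} (h : GoodForm A i₀)
    (Y : Ideal (MvPolynomial (Fin n) O)) [hYp : Y.IsPrime]
    (hY : ∀ p ∈ Y, ∀ k, homogeneousComponent k p ∈ Y)
    (hX : ∃ i, X i ∉ Y) {s : MvPolynomial (Fin n) O} (hs : s ∉ Y) :
    s * quadPoly A ∉ Y ^ 2 := by
  classical
  intro hsf
  have hder : ∀ l, pderiv l (quadPoly A) ∈ Y := fun l => derivation_mem Y (pderiv l) hs hsf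
  have hfY : quadPoly A ∈ Y :=
    (hYp.mem_or_mem (Ideal.pow_le_self two_ne_zero hsf)).resolve_left hs
  -- the determinant lies in `Y`
  have hdetX : ∀ i, C (A + A.transpose).det * X i ∈ Y := by
    intro i
    set G := (A + A.transpose) with hG
    have h1 : C G.det * X i = ∑ l, C (G.adjugate i l) * pderiv l (quadPoly A) := by
      simp_rw [pderiv_quadPoly, Finset.mul_sum]
      rw [Finset.sum_comm]
      have h2 : ∀ j, ∑ l, C (G.adjugate i l) * (C (G l j) * X j) =
          C ((G.adjugate * G) i j) * (X j : MvPolynomial (Fin n) O) := by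
        intro j
        rw [Matrix.mul_apply, map_sum, Finset.sum_mul]
        refine Finset.sum_congr rfl fun l _ => ?_
        rw [map_mul]; ring
      rw [← hG]
      simp_rw [h2, Matrix.adjugate_mul, Matrix.smul_apply, Matrix.one_apply]
      rw [Finset.sum_eq_single i]
      · simp
      · intro j _ hj; simp [Ne.symm hj]
      · simp
    rw [h1]
    exact Y.sum_mem fun l _ => Y.mul_mem_left _ (hder l)
  have hdet : C (A + A.transpose).det ∈ Y := by
    obtain ⟨i, hi⟩ := hX
    exact (hYp.mem_or_mem (hdetX i)).resolve_right hi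
  -- `Y` lies over the maximal ideal
  have hcomap : Y.comap (C : O →+* MvPolynomial (Fin n) O) = maximalIdeal O := by
    have hp : (Y.comap (C : O →+* MvPolynomial (Fin n) O)).IsPrime := Ideal.IsPrime.comap _
    have hne : Y.comap (C : O →+* MvPolynomial (Fin n) O) ≠ ⊥ := by
      intro hbot
      have : (A + A.transpose).det ∈ Y.comap (C : O →+* MvPolynomial (Fin n) O) := hdet
      rw [hbot] at this
      exact h.det_ne this
    have := hp.isMaximal hne
    exact IsLocalRing.eq_maximalIdeal this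
  -- the residue field argument
  let κ := FractionRing (MvPolynomial (Fin n) O ⧸ Y)
  let ψ : MvPolynomial (Fin n) O →+* κ :=
    (algebraMap (MvPolynomial (Fin n) O ⧸ Y) κ).comp (Ideal.Quotient.mk Y)
  have hψ : ∀ p, ψ p = 0 ↔ p ∈ Y := by
    intro p
    simp only [ψ, RingHom.comp_apply]
    rw [FaithfulSMul.algebraMap_eq_zero_iff, Ideal.Quotient.eq_zero_iff_mem]
  have hrad0 : (∀ l, l ≠ i₀ → ψ (X l) = 0) ∧ (A i₀ i₀ ∈ maximalIdeal O ^ 2 → ψ (X i₀) = 0) := by
    refine h.rad κ (ψ.comp C) ?_ (fun i => ψ (X i)) ?_ ?_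
    · intro x hx
      rw [← hcomap] at hx
      exact (hψ _).mpr hx
    · intro i
      have := (hψ _).mpr (hder i)
      rw [pderiv_quadPoly, map_sum] at this
      simpa using this
    · have := (hψ _).mpr hfY
      simpa [quadPoly, map_sum] using this
  have hrad : ∀ l, l ≠ i₀ → X l ∈ Y := fun l hl => (hψ _).mp (hrad0.1 l hl)
  have hX0 : X i₀ ∉ Y := by
    obtain ⟨i, hi⟩ := hX
    by_cases hii : i = i₀
    · rwa [← hii]
    · exact absurd (hrad i hii) hi
  -- restriction to the coordinate axis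
  let ρ : MvPolynomial (Fin n) O →ₐ[O] Polynomial O :=
    aeval (fun i => if i = i₀ then Polynomial.X else 0)
  let ι : Polynomial O →ₐ[O] MvPolynomial (Fin n) O := Polynomial.aeval (X i₀)
  have hcong : ∀ p, ι (ρ p) - p ∈ Y := by
    intro p
    induction p using MvPolynomial.induction_on with
    | C a => simp [ρ, ι, ← algebraMap_eq]
    | add p q hp hq =>
      have := Y.add_mem hp hq
      rw [map_add, map_add]
      convert this using 1; ring
    | mul_X p i hp =>
      rw [map_mul, map_mul]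
      by_cases hi : i = i₀
      · subst hi
        have h3 : ι (ρ (X i)) = X i := by simp [ρ, ι]
        rw [h3]
        have := Y.mul_mem_right (X i) hp
        convert this using 1; ring
      · have h3 : ι (ρ (X i)) = 0 := by simp [ρ, ι, hi]
        rw [h3, mul_zero, zero_sub]
        exact Y.neg_mem (Y.mul_mem_left _ (hrad i hi))
  have hρY : ∀ p ∈ Y, ρ p ∈ (maximalIdeal O).map (Polynomial.C : O →+* Polynomial O) := by
    intro p hp
    rw [Ideal.mem_map_C_iff]
    intro k
    have h4 : ι (ρ p) ∈ Y := by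
      have := Y.add_mem (hcong p) hp
      simpa using this
    have h5 := hY _ h4 k
    have h6 : homogeneousComponent k (ι (ρ p)) = C ((ρ p).coeff k) * X i₀ ^ k := by
      simp only [ι]
      rw [Polynomial.aeval_eq_sum_range, map_sum]
      have h7 : ∀ m, homogeneousComponent k ((ρ p).coeff m • (X i₀ : MvPolynomial (Fin n) O) ^ m) =
          if k = m then C ((ρ p).coeff k) * X i₀ ^ k else 0 := by
        intro m
        rw [homogeneousComponent_of_mem (n := m)]
        · split_ifs with hkm
          · rw [hkm, smul_eq_C_mul]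
          · rfl
        · rw [mem_homogeneousSubmodule, smul_eq_C_mul]
          exact isHomogeneous_C_mul_X_pow _ _ _
      simp_rw [h7]
      rw [Finset.sum_ite_eq]
      split_ifs with hk
      · rfl
      · rw [Finset.mem_range, not_lt] at hk
        rw [Polynomial.coeff_eq_zero_of_natDegree_lt (by omega), map_zero, zero_mul]
    rw [h6] at h5
    have h8 : C ((ρ p).coeff k) ∈ Y := by
      rcases hYp.mem_or_mem h5 with h9 | h9
      · exact h9
      · exact absurd (hYp.mem_of_pow_mem _ h9) hX0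
    rw [← hcomap]
    exact h8
  have hρs : ρ s ∉ (maximalIdeal O).map (Polynomial.C : O →+* Polynomial O) := by
    intro hmem
    apply hs
    have h10 : ι (ρ s) ∈ Y := by
      simp only [ι]
      rw [Polynomial.aeval_eq_sum_range]
      refine Y.sum_mem fun m _ => ?_
      rw [smul_eq_C_mul]
      apply Y.mul_mem_right
      have := (Ideal.mem_map_C_iff.mp hmem) m
      rw [← hcomap] at this
      exact this
    have := Y.sub_mem h10 (hcong s)
    simpa using this
  have hρf : ρ (quadPoly A) = Polynomial.C (A i₀ i₀) * Polynomial.X ^ 2 := by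
    simp only [quadPoly, map_sum, map_mul, ρ, aeval_X, algHom_C]
    rw [Finset.sum_eq_single i₀, Finset.sum_eq_single i₀]
    · simp only [if_true]; rw [Polynomial.algebraMap_eq]; ring
    · intro j _ hj; simp [hj]
    · simp
    · intro i _ hi; simp [hi]
    · simp
  have hfin : ρ (s * quadPoly A) ∈ (maximalIdeal O ^ 2).map (Polynomial.C : O →+* Polynomial O) := by
    rw [Ideal.map_pow]
    have h11 : (Y ^ 2).map ρ ≤ ((maximalIdeal O).map (Polynomial.C : O →+* Polynomial O)) ^ 2 := by
      rw [Ideal.map_pow]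
      apply Ideal.pow_right_mono
      rw [Ideal.map_le_iff_le_comap]
      exact hρY
    exact h11 (Ideal.mem_map_of_mem ρ hsf)
  rw [map_mul, hρf, Ideal.mem_map_C_iff] at hfin
  rw [Ideal.mem_map_C_iff] at hρs
  push Not at hρs
  obtain ⟨k, hk⟩ := hρs
  have h12 := hfin (k + 2)
  rw [← mul_assoc, Polynomial.coeff_mul_X_pow, Polynomial.coeff_mul_C] at h12
  have hunit : IsUnit ((ρ s).coeff k) := by
    by_contra hnu
    exact hk ((IsLocalRing.mem_maximalIdeal _).mpr hnu)
  have h13 : A i₀ i₀ ∈ maximalIdeal O ^ 2 := (Ideal.unit_mul_mem_iff_mem _ hunit).mp h12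
  exact hX0 ((hψ _).mp (hrad0.2 h13))

end Good

end Pool.Agent.Lib.MP_6a3dac_ag
end

section

/-!
# Changing lattices for quadratic forms over discrete valuation rings
-/

set_option autoImplicit false

namespace Pool.Agent.Lib.MP_6a3dac_ag

open Matrix Module IsLocalRing

section Div

variable {O : Type*} [CommRing O] {n : ℕ}

theorem exists_div (M : Matrix (Fin n) (Fin n) O) (c : O) (h1 : ∀ i, c ∣ M i i)
    (h2 : ∀ i j, i ≠ j → c ∣ (M + Mᵀ) i j) :
    ∃ A : Matrix (Fin n) (Fin n) O, c • (A + Aᵀ) = M + Mᵀ := by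
  classical
  choose f hf using h1
  choose! g hg using h2
  refine ⟨Matrix.of fun i j => if i = j then f i else if i < j then g i j else 0, ?_⟩
  ext i j
  rw [Matrix.smul_apply, Matrix.add_apply, Matrix.transpose_apply, Matrix.of_apply, Matrix.of_apply]
  rcases lt_trichotomy i j with h | h | h
  · rw [if_neg h.ne, if_pos h, if_neg h.ne', if_neg h.not_gt, add_zero, smul_eq_mul, ← hg i j h.ne]
  · subst h
    rw [if_pos rfl, Matrix.add_apply, Matrix.transpose_apply, smul_eq_mul, mul_add, ← hf]
  · rw [if_neg h.ne', if_neg h.not_gt, if_neg h.ne, if_pos h, zero_add, smul_eq_mul,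
      ← hg j i h.ne, Matrix.add_apply, Matrix.add_apply, Matrix.transpose_apply,
      Matrix.transpose_apply, add_comm]

theorem conj_apply (M H : Matrix (Fin n) (Fin n) O) (i j : Fin n) :
    (Hᵀ * M * H) i j = (fun l => H l i) ⬝ᵥ M *ᵥ (fun l => H l j) := by
  simp only [Matrix.mul_apply, dotProduct, mulVec, Matrix.transpose_apply, Finset.sum_mul,
    Finset.mul_sum]
  rw [Finset.sum_comm]
  refine Finset.sum_congr rfl fun a _ => Finset.sum_congr rfl fun b _ => by ring

theorem conj_add_transpose (A H : Matrix (Fin n) (Fin n) O) :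
    Hᵀ * A * H + (Hᵀ * A * H)ᵀ = Hᵀ * (A + Aᵀ) * H := by
  rw [transpose_mul, transpose_mul, transpose_transpose, Matrix.mul_add, Matrix.add_mul,
    ← Matrix.mul_assoc]

end Div

section Local

variable {O : Type*} [CommRing O] [IsDomain O] [IsLocalRing O] {n : ℕ}

omit [IsDomain O] in
theorem isUnit_det_of_residue (U : Matrix (Fin n) (Fin n) O)
    (h : (U.map (residue O)).det ≠ 0) : IsUnit U.det := by
  by_contra hu
  apply h
  rw [← RingHom.mapMatrix_apply, ← RingHom.map_det, residue_eq_zero_iff]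
  exact hu

/-- Any subspace of the reduction of `Oⁿ` is spanned by the reductions of some columns of an
invertible matrix over `O`. -/
theorem exists_cols (J : Submodule (ResidueField O) (Fin n → ResidueField O)) :
    ∃ (U : Matrix (Fin n) (Fin n) O) (s : Finset (Fin n)), IsUnit U.det ∧
      s.card = finrank (ResidueField O) J ∧ ∀ i ∈ s, (fun l => residue O (U l i)) ∈ J := by
  classical
  obtain ⟨C, hC⟩ := Submodule.exists_isCompl J
  let bJ := Module.finBasis (ResidueField O) J
  let bC := Module.finBasis (ResidueField O) C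
  let b0 := (bJ.prod bC).map (Submodule.prodEquivOfIsCompl J C hC)
  have hn : finrank (ResidueField O) J + finrank (ResidueField O) C = n := by
    rw [Submodule.finrank_add_eq_of_isCompl hC, Module.finrank_fin_fun]
  let e : Fin (finrank (ResidueField O) J) ⊕ Fin (finrank (ResidueField O) C) ≃ Fin n :=
    finSumFinEquiv.trans (finCongr hn)
  let b := b0.reindex e
  have hres : Function.Surjective (residue O) := residue_surjective
  choose lift hlift using hres
  let U : Matrix (Fin n) (Fin n) O := Matrix.of fun l i => lift (b i l)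
  have hU : U.map (residue O) = (Pi.basisFun (ResidueField O) (Fin n)).toMatrix b := by
    ext l i
    simp [U, hlift, Basis.toMatrix_apply]
  refine ⟨U, Finset.univ.image (fun a => e (Sum.inl a)), ?_, ?_, ?_⟩
  · apply isUnit_det_of_residue
    rw [hU]
    have h1 : (Pi.basisFun (ResidueField O) (Fin n)).toMatrix b *
        b.toMatrix (Pi.basisFun (ResidueField O) (Fin n)) = 1 :=
      Basis.toMatrix_mul_toMatrix_flip _ _
    have h2 := congrArg Matrix.det h1
    rw [Matrix.det_mul, Matrix.det_one] at h2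
    exact left_ne_zero_of_mul_eq_one h2
  · rw [Finset.card_image_of_injective, Finset.card_univ, Fintype.card_fin]
    exact e.injective.comp Sum.inl_injective
  · intro i hi
    obtain ⟨a, _, rfl⟩ := Finset.mem_image.mp hi
    have h1 : (fun l => residue O (U l (e (Sum.inl a)))) = ((bJ a : J) : Fin n → ResidueField O) := by
      ext l
      simp only [U, Matrix.of_apply, hlift, b, Basis.reindex_apply, Equiv.symm_apply_apply, b0,
        Basis.map_apply, Basis.prod_apply_inl_fst, Submodule.coe_prodEquivOfIsCompl']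
      simp
    rw [h1]
    exact (bJ a).2

variable {π : O} (hπ : maximalIdeal O = Ideal.span {π})
include hπ

omit [IsDomain O] in
theorem residue_eq_zero_iff_dvd {x : O} : residue O x = 0 ↔ π ∣ x := by
  rw [residue_eq_zero_iff, hπ, Ideal.mem_span_singleton]

/-- First move: dividing along a totally singular subspace. -/
theorem move_one (A : Matrix (Fin n) (Fin n) O)
    (J : Submodule (ResidueField O) (Fin n → ResidueField O)) (hJ : TotSing (A.map (residue O)) J) :
    ∃ (H A' : Matrix (Fin n) (Fin n) O) (u : O), IsUnit u ∧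
      H.det = u * π ^ (n - finrank (ResidueField O) J) ∧
      π • (A' + A'ᵀ) = Hᵀ * (A + Aᵀ) * H := by
  classical
  obtain ⟨U, s, hU, hs, hsJ⟩ := exists_cols J
  let d : Fin n → O := fun i => if i ∈ s then 1 else π
  let H := U * Matrix.diagonal d
  have hH : ∀ i, (fun l => H l i) = d i • (fun l => U l i) := by
    intro i
    ext l
    simp [H, Matrix.mul_diagonal, mul_comm]
  have hdet : H.det = U.det * π ^ (n - finrank (ResidueField O) J) := by
    rw [Matrix.det_mul, Matrix.det_diagonal]
    congr 1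
    simp only [d]
    rw [Finset.prod_ite, Finset.prod_const_one, one_mul, Finset.prod_const, ← hs]
    congr 1
    rw [Finset.filter_not, Finset.card_sdiff]
    simp
  have hqf : ∀ i ∈ s, π ∣ qf A (fun l => U l i) := by
    intro i hi
    rw [← residue_eq_zero_iff_dvd hπ, ← qf_map]
    exact hJ _ (hsJ i hi)
  have hdot : ∀ i ∈ s, ∀ j ∈ s, π ∣ (fun l => U l i) ⬝ᵥ (A + Aᵀ) *ᵥ (fun l => U l j) := by
    intro i hi j hj
    have h1 := hJ.dot (hsJ i hi) (hsJ j hj)
    rw [← map_add_transpose] at h1
    have h2 : ((A + Aᵀ).map (residue O)) *ᵥ (fun l => residue O (U l j)) =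
        residue O ∘ ((A + Aᵀ) *ᵥ (fun l => U l j)) := map_mulVec' _ _ _
    rw [h2] at h1
    rw [← residue_eq_zero_iff_dvd hπ, ← h1]
    simp [dotProduct, map_sum]
  obtain ⟨A', hA'⟩ := exists_div (Hᵀ * A * H) π (by
    intro i
    rw [conj_apply]
    change π ∣ qf A _
    rw [hH, qf_smul]
    by_cases hi : i ∈ s
    · exact dvd_mul_of_dvd_right (hqf i hi) _
    · simp only [d, if_neg hi]
      exact dvd_mul_of_dvd_left (dvd_pow_self π two_ne_zero) _) (by
    intro i j hij
    rw [conj_add_transpose, conj_apply, hH, hH, mulVec_smul, dotProduct_smul, smul_dotProduct,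
      smul_eq_mul, smul_eq_mul]
    by_cases hi : i ∈ s
    · by_cases hj : j ∈ s
      · exact dvd_mul_of_dvd_right (dvd_mul_of_dvd_right (hdot i hi j hj) _) _
      · refine dvd_mul_of_dvd_left ?_ _
        simp [d, hj]
    · refine dvd_mul_of_dvd_right (dvd_mul_of_dvd_left ?_ _) _
      simp [d, hi])
  refine ⟨H, A', U.det, hU, hdet, ?_⟩
  rw [hA', conj_add_transpose]

/-- Second move: dividing a vector. -/
theorem move_two (A : Matrix (Fin n) (Fin n) O) (v : Fin n → O) (i₀ : Fin n) (hv : IsUnit (v i₀))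
    (h1 : ∀ i, π ∣ ((A + Aᵀ) *ᵥ v) i) (h2 : π ^ 2 ∣ qf A v) :
    ∃ (H A' : Matrix (Fin n) (Fin n) O) (u : O), IsUnit u ∧
      H.det = u * π ^ (n - 1) ∧ (π ^ 2) • (A' + A'ᵀ) = Hᵀ * (A + Aᵀ) * H := by
  classical
  let H : Matrix (Fin n) (Fin n) O := (Matrix.diagonal fun _ => π).updateCol i₀ v
  have hH0 : (fun l => H l i₀) = v := by
    ext l
    simp [H]
  have hH : ∀ i, i ≠ i₀ → (fun l => H l i) = π • Pi.single i 1 := by
    intro i hi
    ext l
    simp only [H, Matrix.updateCol_ne hi, Matrix.diagonal_apply, Pi.smul_apply, Pi.single_apply,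
      smul_eq_mul]
    by_cases hli : l = i <;> simp [hli]
  have hdet : H.det = v i₀ * π ^ (n - 1) := by
    have h3 : H.det = Matrix.cramer (Matrix.diagonal fun _ => π) v i₀ := by
      rw [Matrix.cramer_apply]
    rw [h3, Matrix.cramer_eq_adjugate_mulVec, Matrix.adjugate_diagonal, Matrix.mulVec_diagonal,
      Finset.prod_const, Finset.card_erase_of_mem (Finset.mem_univ _), Finset.card_univ,
      Fintype.card_fin, mul_comm]
  obtain ⟨A', hA'⟩ := exists_div (Hᵀ * A * H) (π ^ 2) (by
    intro i
    rw [conj_apply]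
    change π ^ 2 ∣ qf A _
    by_cases hi : i = i₀
    · subst hi
      rw [hH0]
      exact h2
    · rw [hH i hi, qf_smul]
      exact dvd_mul_right _ _) (by
    intro i j hij
    rw [conj_add_transpose, conj_apply]
    by_cases hi : i = i₀
    · subst hi
      rw [hH0, hH j (Ne.symm hij), mulVec_smul, dotProduct_smul, dot_symm, pow_two, smul_eq_mul]
      refine mul_dvd_mul_left _ ?_
      rw [single_one_dotProduct]
      exact h1 j
    · by_cases hj : j = i₀
      · subst hj
        rw [hH0, hH i hi, smul_dotProduct, pow_two, smul_eq_mul]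
        refine mul_dvd_mul_left _ ?_
        rw [single_one_dotProduct]
        exact h1 i
      · rw [hH i hi, hH j hj, mulVec_smul, dotProduct_smul, smul_dotProduct, pow_two,
          smul_eq_mul, smul_eq_mul, ← mul_assoc]
        exact dvd_mul_right _ _)
  refine ⟨H, A', v i₀, hv, hdet, ?_⟩
  rw [hA', conj_add_transpose]

end Local

end Pool.Agent.Lib.MP_6a3dac_ag
end

section

/-!
# Existence of good integral forms in odd dimension
-/

set_option autoImplicit false

namespace Pool.Agent.Lib.MP_6a3dac_ag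

open Matrix Module IsLocalRing

section Cls

variable {O K : Type*} [CommRing O] [IsDomain O] [Field K] [Algebra O K] [IsFractionRing O K]
  {n : ℕ}

/-- The quadratic form with matrix `A` over `O` is, up to a nonzero scalar and a linear change of
coordinates over `K`, the one whose polar form has Gram matrix `G₀`. -/
def Cls (G₀ : Matrix (Fin n) (Fin n) K) (A : Matrix (Fin n) (Fin n) O) : Prop :=
  ∃ g h : Matrix (Fin n) (Fin n) K, g * h = 1 ∧ h * g = 1 ∧ ∃ c : K, c ≠ 0 ∧
    (A + Aᵀ).map (algebraMap O K) = c • (gᵀ * G₀ * g)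

variable {G₀ : Matrix (Fin n) (Fin n) K} {A : Matrix (Fin n) (Fin n) O}

omit [IsDomain O] in
theorem det_map_ne_zero {H : Matrix (Fin n) (Fin n) O} :
    (H.map (algebraMap O K)).det ≠ 0 ↔ H.det ≠ 0 := by
  rw [← RingHom.mapMatrix_apply, ← RingHom.map_det, Ne, FaithfulSMul.algebraMap_eq_zero_iff]

omit [IsDomain O] in
theorem Cls.det_ne (h : Cls G₀ A) (hG : G₀.det ≠ 0) : (A + Aᵀ).det ≠ 0 := by
  obtain ⟨g, h, hgh, _, c, hc, he⟩ := h
  rw [← det_map_ne_zero (K := K), he, Matrix.det_smul, Matrix.det_mul, Matrix.det_mul,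
    Matrix.det_transpose]
  have hg : g.det ≠ 0 := by
    have := congrArg Matrix.det hgh
    rw [Matrix.det_mul, Matrix.det_one] at this
    exact left_ne_zero_of_mul_eq_one this
  exact mul_ne_zero (pow_ne_zero _ hc) (mul_ne_zero (mul_ne_zero hg hG) hg)

theorem Cls.of_move (h : Cls G₀ A) {A' H : Matrix (Fin n) (Fin n) O} {t : O} (hH : H.det ≠ 0)
    (ht : t ≠ 0) (e : t • (A' + A'ᵀ) = Hᵀ * (A + Aᵀ) * H) : Cls G₀ A' := by
  obtain ⟨g, h, hgh, hhg, c, hc, he⟩ := h
  have hHK := (det_map_ne_zero (K := K)).mpr hH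
  set HK := H.map (algebraMap O K) with hHKdef
  have hunit : IsUnit HK.det := isUnit_iff_ne_zero.mpr hHK
  have htK : algebraMap O K t ≠ 0 := by
    rwa [Ne, FaithfulSMul.algebraMap_eq_zero_iff]
  refine ⟨g * HK, HK⁻¹ * h, ?_, ?_, (algebraMap O K t)⁻¹ * c,
    mul_ne_zero (inv_ne_zero htK) hc, ?_⟩
  · rw [Matrix.mul_assoc, ← Matrix.mul_assoc HK, Matrix.mul_nonsing_inv _ hunit, Matrix.one_mul, hgh]
  · rw [Matrix.mul_assoc, ← Matrix.mul_assoc h, hhg, Matrix.one_mul, Matrix.nonsing_inv_mul _ hunit]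
  · have e2 := congrArg (fun M => M.map (algebraMap O K)) e
    simp only [Matrix.map_mul] at e2
    have e4 : Hᵀ.map (algebraMap O K) = HKᵀ := rfl
    rw [he, ← hHKdef, e4] at e2
    have e3 : (t • (A' + A'ᵀ)).map (algebraMap O K) =
        algebraMap O K t • (A' + A'ᵀ).map (algebraMap O K) := by
      ext i j
      simp [mul_add]
    rw [e3] at e2
    rw [mul_smul, eq_inv_smul_iff₀ htK, e2, Matrix.transpose_mul, Matrix.mul_smul, Matrix.smul_mul]
    simp only [Matrix.mul_assoc]

theorem exists_cls (B : Matrix (Fin n) (Fin n) K) :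
    ∃ A : Matrix (Fin n) (Fin n) O, Cls (B + Bᵀ) A := by
  classical
  obtain ⟨b, hb⟩ := IsLocalization.exist_integer_multiples_of_finite (nonZeroDivisors O)
    (fun ij : Fin n × Fin n => B ij.1 ij.2)
  choose f hf using hb
  refine ⟨Matrix.of fun i j => f (i, j), 1, 1, Matrix.mul_one _, Matrix.mul_one _,
    algebraMap O K b, ?_, ?_⟩
  · rw [Ne, FaithfulSMul.algebraMap_eq_zero_iff]
    exact nonZeroDivisors.ne_zero b.2
  · ext i j
    rw [Matrix.map_apply, Matrix.add_apply, map_add, Matrix.transpose_apply, Matrix.of_apply,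
      Matrix.of_apply, hf, hf, Matrix.transpose_one, Matrix.mul_one, Matrix.one_mul,
      Matrix.smul_apply, Matrix.add_apply, Matrix.transpose_apply, smul_add, Algebra.smul_def,
      Algebra.smul_def, smul_eq_mul, smul_eq_mul]

end Cls

section Min

variable {O K : Type*} [CommRing O] [IsDomain O] [IsDiscreteValuationRing O] [Field K]
  [Algebra O K] [IsFractionRing O K] {n : ℕ} {G₀ : Matrix (Fin n) (Fin n) K}

/-- An integral form in the given class with minimal discriminant. -/
def IsMin (G₀ : Matrix (Fin n) (Fin n) K) (A : Matrix (Fin n) (Fin n) O) : Prop :=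
  Cls G₀ A ∧ ∀ A' : Matrix (Fin n) (Fin n) O, Cls G₀ A' →
    ¬ DvdNotUnit (A' + A'ᵀ).det (A + Aᵀ).det

theorem exists_isMin (B : Matrix (Fin n) (Fin n) K) :
    ∃ A : Matrix (Fin n) (Fin n) O, IsMin (B + Bᵀ) A := by
  obtain ⟨A₀, hA₀⟩ := exists_cls (O := O) B
  let S : Set O := {d | ∃ A : Matrix (Fin n) (Fin n) O, Cls (B + Bᵀ) A ∧ (A + Aᵀ).det = d}
  obtain ⟨d, ⟨A, hA, hd⟩, hmin⟩ := WellFounded.has_min
    (IsWellFounded.wf (r := DvdNotUnit (α := O))) S ⟨_, A₀, hA₀, rfl⟩
  refine ⟨A, hA, fun A' hA' => ?_⟩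
  rw [hd]
  exact hmin _ ⟨A', hA', rfl⟩

variable {A : Matrix (Fin n) (Fin n) O} {π : O} (hπ : Irreducible π)
include hπ

theorem IsMin.two_mul_finrank_le (h : IsMin G₀ A) (hG : G₀.det ≠ 0)
    {J : Submodule (ResidueField O) (Fin n → ResidueField O)}
    (hJ : TotSing (A.map (residue O)) J) : 2 * finrank (ResidueField O) J ≤ n := by
  by_contra hcon
  push Not at hcon
  have hJn : finrank (ResidueField O) J ≤ n := by
    have := Submodule.finrank_le J
    rwa [Module.finrank_fin_fun] at this
  obtain ⟨H, A', u, hu, hdet, he⟩ := move_one hπ.maximalIdeal_eq A J hJ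
  have hdet0 : H.det ≠ 0 := by
    rw [hdet]
    exact mul_ne_zero hu.ne_zero (pow_ne_zero _ hπ.ne_zero)
  have hcls := h.1.of_move hdet0 hπ.ne_zero he
  refine h.2 A' hcls ⟨hcls.det_ne hG, ?_⟩
  obtain ⟨v, rfl⟩ := hu
  have e1 := congrArg Matrix.det he
  rw [Matrix.det_smul, Matrix.det_mul, Matrix.det_mul, Matrix.det_transpose, hdet,
    Fintype.card_fin] at e1
  refine ⟨π ^ (2 * finrank (ResidueField O) J - n) * (↑(v⁻¹) : O) ^ 2, ?_, ?_⟩
  · intro hunit
    have h1 := isUnit_of_mul_isUnit_left hunit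
    rw [isUnit_pow_iff (by omega)] at h1
    exact hπ.not_isUnit h1
  · set j := finrank (ResidueField O) J
    have hpow : π ^ n = π ^ (n - j) * π ^ (n - j) * π ^ (2 * j - n) := by
      rw [← pow_add, ← pow_add]
      congr 1
      omega
    have hv : (v : O) * (↑(v⁻¹) : O) = 1 := v.mul_inv
    have hne : π ^ (n - j) * π ^ (n - j) ≠ 0 :=
      mul_ne_zero (pow_ne_zero _ hπ.ne_zero) (pow_ne_zero _ hπ.ne_zero)
    apply mul_left_cancel₀ hne
    calc π ^ (n - j) * π ^ (n - j) * (A + Aᵀ).det
        = ((v : O) * (↑(v⁻¹) : O)) ^ 2 * (π ^ (n - j) * π ^ (n - j) * (A + Aᵀ).det) := by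
          rw [hv]; ring
      _ = (↑(v⁻¹) : O) ^ 2 * ((v : O) * π ^ (n - j) * (A + Aᵀ).det * ((v : O) * π ^ (n - j))) := by
          ring
      _ = (↑(v⁻¹) : O) ^ 2 * (π ^ n * (A' + A'ᵀ).det) := by rw [e1]
      _ = _ := by rw [hpow]; ring

theorem IsMin.not_sq_dvd (h : IsMin G₀ A) (hG : G₀.det ≠ 0) {v : Fin n → O} {i₀ : Fin n}
    (hv : IsUnit (v i₀)) (h1 : ∀ i, π ∣ ((A + Aᵀ) *ᵥ v) i) : ¬ π ^ 2 ∣ qf A v := by
  intro h2
  obtain ⟨H, A', u, hu, hdet, he⟩ := move_two hπ.maximalIdeal_eq A v i₀ hv h1 h2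
  have hdet0 : H.det ≠ 0 := by
    rw [hdet]
    exact mul_ne_zero hu.ne_zero (pow_ne_zero _ hπ.ne_zero)
  have hcls := h.1.of_move hdet0 (pow_ne_zero 2 hπ.ne_zero) he
  refine h.2 A' hcls ⟨hcls.det_ne hG, ?_⟩
  obtain ⟨v, rfl⟩ := hu
  have e1 := congrArg Matrix.det he
  rw [Matrix.det_smul, Matrix.det_mul, Matrix.det_mul, Matrix.det_transpose, hdet,
    Fintype.card_fin] at e1
  have hn : 0 < n := Fin.pos i₀
  refine ⟨π ^ 2 * (↑(v⁻¹) : O) ^ 2, ?_, ?_⟩
  · intro hunit
    have h1 := isUnit_of_mul_isUnit_left hunit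
    rw [isUnit_pow_iff two_ne_zero] at h1
    exact hπ.not_isUnit h1
  · have hpow : (π ^ 2) ^ n = π ^ (n - 1) * π ^ (n - 1) * π ^ 2 := by
      rw [← pow_add, ← pow_add, ← pow_mul]
      congr 1
      omega
    have hv : (v : O) * (↑(v⁻¹) : O) = 1 := v.mul_inv
    have hne : π ^ (n - 1) * π ^ (n - 1) ≠ 0 :=
      mul_ne_zero (pow_ne_zero _ hπ.ne_zero) (pow_ne_zero _ hπ.ne_zero)
    apply mul_left_cancel₀ hne
    calc π ^ (n - 1) * π ^ (n - 1) * (A + Aᵀ).det
        = ((v : O) * (↑(v⁻¹) : O)) ^ 2 * (π ^ (n - 1) * π ^ (n - 1) * (A + Aᵀ).det) := by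
          rw [hv]; ring
      _ = (↑(v⁻¹) : O) ^ 2 * ((v : O) * π ^ (n - 1) * (A + Aᵀ).det * ((v : O) * π ^ (n - 1))) := by
          ring
      _ = (↑(v⁻¹) : O) ^ 2 * ((π ^ 2) ^ n * (A' + A'ᵀ).det) := by rw [e1]
      _ = _ := by rw [hpow]; ring

end Min

section Rad

variable {O : Type} [CommRing O] [IsLocalRing O] [Finite (ResidueField O)] {n : ℕ}

theorem rad_aux (A : Matrix (Fin n) (Fin n) O) {κ : Type} [Field κ] (φ : O →+* κ)
    (hφ : ∀ x ∈ maximalIdeal O, φ x = 0) (w : Fin n → κ)
    (h1 : (A.map φ + (A.map φ)ᵀ) *ᵥ w = 0) (h2 : qf (A.map φ) w = 0) (r : Fin n → O)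
    (hr : nullSub (A.map (residue O)) ≤ Submodule.span (ResidueField O) {residue O ∘ r}) :
    ∃ t : κ, w = t • (φ ∘ r) := by
  classical
  let φ' : ResidueField O →+* κ := Ideal.Quotient.lift (maximalIdeal O) φ hφ
  let : Algebra (ResidueField O) κ := φ'.toAlgebra
  have hcomp : ∀ x, algebraMap (ResidueField O) κ (residue O x) = φ x := fun x => rfl
  have hA : (A.map (residue O)).map (algebraMap (ResidueField O) κ) = A.map φ := by
    ext i j
    exact hcomp _
  obtain ⟨s, ω, x, hx, hw⟩ := exists_expansion (A.map (residue O)) w (by rw [hA]; exact h1)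
    (by rw [hA]; exact h2)
  have h3 : ∀ a ∈ s, ∃ c : ResidueField O, x a = c • (residue O ∘ r) := by
    intro a ha
    obtain ⟨c, hc⟩ := Submodule.mem_span_singleton.mp (hr (hx a ha))
    exact ⟨c, hc.symm⟩
  choose! c hc using h3
  refine ⟨∑ a ∈ s, ω a * algebraMap (ResidueField O) κ (c a), ?_⟩
  rw [hw, Finset.sum_smul]
  refine Finset.sum_congr rfl fun a ha => ?_
  rw [hc a ha]
  ext i
  simp only [Pi.smul_apply, Function.comp_apply, smul_eq_mul, map_mul, hcomp]
  ring

theorem mulVec_eq_zero_of_isUnit {κ : Type*} [Field κ] {M : Matrix (Fin n) (Fin n) κ}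
    (hM : IsUnit M.det) {v : Fin n → κ} (h : M *ᵥ v = 0) : v = 0 := by
  have h1 := congrArg (fun w => M⁻¹ *ᵥ w) h
  simp only [mulVec_mulVec, Matrix.nonsing_inv_mul _ hM, one_mulVec, mulVec_zero] at h1
  exact h1

theorem goodForm_conj (A U : Matrix (Fin n) (Fin n) O) (i₀ : Fin n) (hU : IsUnit U.det)
    (hdet : (A + Aᵀ).det ≠ 0) [IsDomain O] (r : Fin n → O)
    (hr : nullSub (A.map (residue O)) ≤ Submodule.span (ResidueField O) {residue O ∘ r})
    (hcase : ((fun l => U l i₀) = r ∧ qf A r ∉ maximalIdeal O ^ 2) ∨ r = 0) :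
    GoodForm (Uᵀ * A * U) i₀ := by
  refine ⟨?_, ?_⟩
  · change (Uᵀ * A * U + (Uᵀ * A * U)ᵀ).det ≠ 0
    rw [conj_add_transpose, Matrix.det_mul, Matrix.det_mul, Matrix.det_transpose]
    exact mul_ne_zero (mul_ne_zero hU.ne_zero hdet) hU.ne_zero
  · intro κ _ φ hφ v h1 h2
    have hUφ : IsUnit (U.map φ).det := by
      rw [← RingHom.mapMatrix_apply, ← RingHom.map_det]
      exact hU.map φ
    have hUφT : IsUnit ((U.map φ)ᵀ).det := by rwa [Matrix.det_transpose]
    have h1' : ((Uᵀ * (A + Aᵀ) * U).map φ) *ᵥ v = 0 := by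
      ext i
      have := h1 i
      rw [← conj_add_transpose]
      exact this
    have h2' : qf ((Uᵀ * A * U).map φ) v = 0 := by
      rw [qf_eq_sum]
      exact h2
    have e1 : (Uᵀ).map φ = (U.map φ)ᵀ := rfl
    rw [Matrix.map_mul, Matrix.map_mul, map_add_transpose, ← mulVec_mulVec, ← mulVec_mulVec,
      e1] at h1'
    have h3 := mulVec_eq_zero_of_isUnit hUφT h1'
    rw [Matrix.map_mul, Matrix.map_mul, e1, qf_conj] at h2'
    obtain ⟨t, ht⟩ := rad_aux A φ hφ _ h3 h2' r hr
    rcases hcase with ⟨hUr, hq⟩ | hr0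
    · have h4 : (U.map φ) *ᵥ (v - t • Pi.single i₀ 1) = 0 := by
        rw [mulVec_sub, ht, mulVec_smul, mulVec_single_one, sub_eq_zero]
        congr 1
        rw [← hUr]
        rfl
      have h5 := mulVec_eq_zero_of_isUnit hUφ h4
      refine ⟨fun l hl => ?_, fun hA => ?_⟩
      · have := congrFun h5 l
        simpa [hl] using this
      · exfalso
        apply hq
        rw [conj_apply, hUr] at hA
        exact hA
    · subst hr0
      have h4 : (U.map φ) *ᵥ v = 0 := by
        rw [ht]
        ext i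
        simp
      have h5 := mulVec_eq_zero_of_isUnit hUφ h4
      subst h5
      exact ⟨fun _ _ => rfl, fun _ => rfl⟩

end Rad

section Exist

variable {O K : Type} [CommRing O] [IsDomain O] [IsDiscreteValuationRing O]
  [Finite (ResidueField O)] [Field K] [Algebra O K] [IsFractionRing O K] {n : ℕ}

/-- In odd dimension, every nondegenerate quadratic form over `K` becomes, after a change of
coordinates and a scaling, a good form over `O`. -/
theorem exists_goodForm (hn : Odd n) (B : Matrix (Fin n) (Fin n) K) (hB : (B + Bᵀ).det ≠ 0) :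
    ∃ (A : Matrix (Fin n) (Fin n) O) (i₀ : Fin n), Cls (B + Bᵀ) A ∧ GoodForm A i₀ := by
  classical
  obtain ⟨π, hπ⟩ := IsDiscreteValuationRing.exists_irreducible O
  obtain ⟨A, hA⟩ := exists_isMin (O := O) B
  have hdet := hA.1.det_ne hB
  obtain ⟨J, hJ, hJdim⟩ := exists_totSing (A.map (residue O))
  have h2J := hA.two_mul_finrank_le hπ hB hJ
  have hnu : finrank (ResidueField O) (nullSub (A.map (residue O))) ≤ 1 := by
    obtain ⟨m, hm⟩ := hn
    omega
  have hmem : ∀ x, x ∈ maximalIdeal O ↔ π ∣ x := by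
    intro x
    rw [hπ.maximalIdeal_eq, Ideal.mem_span_singleton]
  rcases Nat.eq_zero_or_pos (finrank (ResidueField O) (nullSub (A.map (residue O)))) with h0 | h1
  · -- no singular vector in the radical
    have hbot : nullSub (A.map (residue O)) = ⊥ := Submodule.finrank_eq_zero.mp h0
    have hn0 : 0 < n := hn.pos
    refine ⟨1ᵀ * A * 1, ⟨0, hn0⟩, ?_, ?_⟩
    · rw [Matrix.transpose_one, Matrix.one_mul, Matrix.mul_one]
      exact hA.1
    · refine goodForm_conj A 1 _ (by rw [Matrix.det_one]; exact isUnit_one) hdet 0 ?_ (Or.inr rfl)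
      rw [hbot]
      exact bot_le
  · obtain ⟨x, hx0, hx⟩ : ∃ x : Fin n → ResidueField O, x ≠ 0 ∧
        nullSub (A.map (residue O)) = Submodule.span (ResidueField O) {x} := by
      have h2 : finrank (ResidueField O) (nullSub (A.map (residue O))) = 1 := by omega
      obtain ⟨⟨x, hxm⟩, hx0, hx⟩ := finrank_eq_one_iff'.mp h2
      refine ⟨x, fun h => hx0 (Subtype.ext h), ?_⟩
      apply le_antisymm
      · intro y hy
        obtain ⟨c, hc⟩ := hx ⟨y, hy⟩
        rw [Submodule.mem_span_singleton]
        exact ⟨c, congrArg Subtype.val hc⟩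
      · rw [Submodule.span_singleton_le_iff_mem]
        exact hxm
    obtain ⟨i₀, hi₀⟩ : ∃ i, x i ≠ 0 := by
      by_contra hcon
      push Not at hcon
      exact hx0 (funext hcon)
    choose r hr using fun i => residue_surjective (R := O) (x i)
    have hrx : residue O ∘ r = x := funext hr
    have hri₀ : IsUnit (r i₀) := by
      by_contra hnu
      apply hi₀
      rw [← hr i₀, residue_eq_zero_iff]
      exact hnu
    let U : Matrix (Fin n) (Fin n) O := (1 : Matrix (Fin n) (Fin n) O).updateCol i₀ r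
    have hUdet : U.det = r i₀ := by
      have h3 : U.det = Matrix.cramer (1 : Matrix (Fin n) (Fin n) O) r i₀ := by
        rw [Matrix.cramer_apply]
      rw [h3, Matrix.cramer_one]
      rfl
    have hU : IsUnit U.det := hUdet ▸ hri₀
    have hUr : (fun l => U l i₀) = r := by
      ext l
      simp [U]
    have hxN : x ∈ nullSub (A.map (residue O)) := by
      rw [hx]
      exact Submodule.mem_span_singleton_self x
    refine ⟨Uᵀ * A * U, i₀, ?_, ?_⟩
    · refine hA.1.of_move (H := U) (t := 1) hU.ne_zero one_ne_zero ?_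
      rw [one_smul, conj_add_transpose]
    · refine goodForm_conj A U i₀ hU hdet r (by rw [hrx, hx]) (Or.inl ⟨hUr, ?_⟩)
      rw [hπ.maximalIdeal_eq, Ideal.span_singleton_pow, Ideal.mem_span_singleton]
      refine hA.not_sq_dvd hπ hB hri₀ fun i => ?_
      rw [← residue_eq_zero_iff_dvd hπ.maximalIdeal_eq]
      have h3 := congrFun hxN.1 i
      rw [← map_add_transpose, ← hrx, map_mulVec'] at h3
      exact h3

end Exist

end Pool.Agent.Lib.MP_6a3dac_ag
end

section

/-!
# Local rings of hypersurfaces in regular rings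
-/

set_option autoImplicit false

namespace Pool.Agent.Lib.MP_6a3dac_ag

open IsLocalRing

section

variable {P T : Type*} [CommRing P] [CommRing T] (ψ : P →+* T) (hψ : Function.Surjective ψ)
  (y : Ideal T) [y.IsPrime]

include hψ in
theorem localRingHom_surjective :
    Function.Surjective (Localization.localRingHom (y.comap ψ) y ψ rfl) := by
  intro z
  obtain ⟨a, s, rfl⟩ := IsLocalization.exists_mk'_eq y.primeCompl z
  obtain ⟨b, rfl⟩ := hψ a
  obtain ⟨t, ht⟩ := hψ s
  have htY : t ∈ (y.comap ψ).primeCompl := by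
    intro h
    exact s.2 (ht ▸ h)
  refine ⟨IsLocalization.mk' _ b ⟨t, htY⟩, ?_⟩
  rw [Localization.localRingHom_mk']
  congr 1
  ext
  exact ht

include hψ in
theorem ker_localRingHom :
    RingHom.ker (Localization.localRingHom (y.comap ψ) y ψ rfl) =
      (RingHom.ker ψ).map (algebraMap P (Localization.AtPrime (y.comap ψ))) := by
  apply le_antisymm
  · intro z hz
    obtain ⟨a, s, rfl⟩ := IsLocalization.exists_mk'_eq (y.comap ψ).primeCompl z
    rw [RingHom.mem_ker, Localization.localRingHom_mk', IsLocalization.mk'_eq_zero_iff] at hz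
    obtain ⟨t, ht⟩ := hz
    obtain ⟨u, hu⟩ := hψ t
    rw [IsLocalization.mk'_mem_map_algebraMap_iff]
    refine ⟨u, ?_, ?_⟩
    · intro h
      exact t.2 (hu ▸ h)
    · rw [RingHom.mem_ker, map_mul, hu, ht]
  · rw [Ideal.map_le_iff_le_comap]
    intro a ha
    rw [Ideal.mem_comap, RingHom.mem_ker, Localization.localRingHom_to_map]
    rw [RingHom.mem_ker] at ha
    rw [ha, map_zero]

include hψ in
/-- The local rings of a hypersurface `f = 0` in a regular ring `P` are regular at all primes at
which `f` does not lie in the square of the maximal ideal. -/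
theorem isRegularLocalRing_of_hypersurface [IsRegularRing P] {f : P}
    (hker : RingHom.ker ψ = Ideal.span {f})
    (h : ∀ s, s ∉ y.comap ψ → s * f ∉ (y.comap ψ) ^ 2) :
    IsRegularLocalRing (Localization.AtPrime y) := by
  set Y := y.comap ψ with hY
  have hreg : IsRegularLocalRing (Localization.AtPrime Y) := inferInstance
  have hfY : f ∈ Y := by
    rw [hY, Ideal.mem_comap]
    have : ψ f = 0 := by
      rw [← RingHom.mem_ker, hker]; exact Ideal.mem_span_singleton_self f
    rw [this]; exact y.zero_mem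
  have hf1 : algebraMap P (Localization.AtPrime Y) f ∈ maximalIdeal (Localization.AtPrime Y) := by
    rw [← Localization.AtPrime.map_eq_maximalIdeal]
    exact Ideal.mem_map_of_mem _ hfY
  have hf2 : algebraMap P (Localization.AtPrime Y) f ∉
      maximalIdeal (Localization.AtPrime Y) ^ 2 := by
    rw [mem_maximalIdeal_pow_iff]
    rintro ⟨s, hs, hs2⟩
    exact h s hs hs2
  have hq := isRegularLocalRing_quotient hreg hf1 hf2
  have hk : RingHom.ker (Localization.localRingHom Y y ψ rfl) =
      Ideal.span {algebraMap P (Localization.AtPrime Y) f} := by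
    rw [ker_localRingHom ψ hψ y, hker, Ideal.map_span, Set.image_singleton]
  let e := RingHom.quotientKerEquivOfSurjective (localRingHom_surjective ψ hψ y)
  let e' := (Ideal.quotEquivOfEq hk.symm).trans e
  exact IsRegularLocalRing.of_ringEquiv e'

end

end Pool.Agent.Lib.MP_6a3dac_ag
end

section

/-!
# The linear algebra of the charts over nondegenerate double points
-/

set_option autoImplicit false

namespace Pool.Agent.Lib.MP_6a3dac_ag

open Matrix

section

variable {κ σ : Type} [Field κ] [Fintype σ] [DecidableEq σ]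

/-- The quadratic form. -/
def qval (β : Matrix σ σ κ) (w : σ → κ) : κ := ∑ i, ∑ j, β i j * (w i * w j)

theorem qval_eq (β : Matrix σ σ κ) (w : σ → κ) :
    2 * qval β w = w ⬝ᵥ ((β + βᵀ) *ᵥ w) := by
  have h1 : w ⬝ᵥ ((β + βᵀ) *ᵥ w) = ∑ i, ∑ j, β i j * (w i * w j) +
      ∑ i, ∑ j, β j i * (w i * w j) := by
    simp only [dotProduct, mulVec, Matrix.add_apply, Matrix.transpose_apply, Finset.mul_sum,
      ← Finset.sum_add_distrib]
    refine Finset.sum_congr rfl fun i _ => Finset.sum_congr rfl fun j _ => ?_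
    ring
  rw [h1, Finset.sum_comm (f := fun i j => β j i * (w i * w j)), qval, two_mul]
  congr 1
  refine Finset.sum_congr rfl fun i _ => Finset.sum_congr rfl fun j _ => ?_
  ring

/-- If all entries of `(β + βᵀ) w` but one vanish, then the value of the form is nonzero. -/
theorem qval_ne_zero {β : Matrix σ σ κ} (hβ : (β + βᵀ).det ≠ 0) {w : σ → κ} {l₀ : σ}
    (hw : w l₀ = 1) (h : ∀ j, j ≠ l₀ → ((β + βᵀ) *ᵥ w) j = 0) : qval β w ≠ 0 := by
  intro h0
  have h1 := qval_eq β w
  rw [h0, mul_zero, dotProduct, Finset.sum_eq_single l₀ (fun j _ hj => by rw [h j hj, mul_zero])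
    (fun h => absurd (Finset.mem_univ _) h), hw, one_mul] at h1
  have h2 : (β + βᵀ) *ᵥ w = 0 := by
    funext j
    by_cases hj : j = l₀
    · rw [hj, ← h1]; rfl
    · exact h j hj
  have h3 := Matrix.eq_zero_of_mulVec_eq_zero hβ h2
  rw [h3] at hw
  exact zero_ne_one hw

/-- **Linear algebra of the charts.** -/
theorem core_eq_zero (h2 : (2 : κ) ≠ 0) {β : Matrix σ σ κ} (hβ : (β + βᵀ).det ≠ 0) {w : σ → κ}
    {l₀ : σ} (hw : w l₀ = 1) {u v t : κ} (hu : u ≠ 0) (hvt : v * t = 0) {e k : ℕ} (he : 1 ≤ e)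
    (hF : u * v ^ (e - (2 * k + 2)) * t ^ (e - 2 * k) +
      v ^ (2 * k + 2 - e) * t ^ (2 * k - e) * qval β w = 0)
    {c₀ cF : κ}
    (hcw : ∀ j, j ≠ l₀ → cF * (v ^ (2 * k + 2 - e) * t ^ (2 * k - e) *
      ((β + βᵀ) *ᵥ w) j) = 0)
    (hct : c₀ * v + cF * (u * v ^ (e - (2 * k + 2)) * ((e - 2 * k : ℕ) * t ^ (e - 2 * k - 1)) +
      v ^ (2 * k + 2 - e) * ((2 * k - e : ℕ) * t ^ (2 * k - e - 1)) * qval β w) = 0)
    (hcv : 1 ≤ k → c₀ * t + cF * (u * ((e - (2 * k + 2) : ℕ) * v ^ (e - (2 * k + 2) - 1)) *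
      t ^ (e - 2 * k) + ((2 * k + 2 - e : ℕ) * v ^ (2 * k + 2 - e - 1)) * t ^ (2 * k - e) *
        qval β w) = 0) : cF = 0 := by
  by_contra hcF
  rcases Nat.lt_or_ge e (2 * k) with h | h
  · -- `e < 2 k`
    have e1 : e - (2 * k + 2) = 0 := by omega
    have e2 : e - 2 * k = 0 := by omega
    obtain ⟨m, hm⟩ : ∃ m, 2 * k + 2 - e = m + 1 := ⟨2 * k + 2 - e - 1, by omega⟩
    obtain ⟨m', hm'⟩ : ∃ m, 2 * k - e = m + 1 := ⟨2 * k - e - 1, by omega⟩
    rw [e1, e2, hm, hm', pow_zero, pow_zero, mul_one, mul_one] at hF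
    have h3 : v ^ (m + 1) * t ^ (m' + 1) * qval β w = 0 := by
      rw [pow_succ, pow_succ]
      linear_combination (v ^ m * t ^ m' * qval β w) * hvt
    rw [h3, add_zero] at hF
    exact hu hF
  · rcases Nat.eq_or_lt_of_le h with h | h
    · -- `e = 2 k`
      subst h
      have e1 : 2 * k - (2 * k + 2) = 0 := by omega
      have e2 : 2 * k - 2 * k = 0 := by omega
      have e3 : 2 * k + 2 - 2 * k = 2 := by omega
      have hk : 1 ≤ k := by omega
      have hcv' := hcv hk
      rw [e1, e2, e3] at hF hcv'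
      simp only [pow_zero, mul_one, Nat.cast_zero, zero_mul, mul_zero, zero_add] at hF hcv'
      have hv : v ≠ 0 := by
        rintro rfl
        apply hu
        rw [← hF]
        ring
      have hq : qval β w ≠ 0 := by
        intro h0
        rw [h0, mul_zero, add_zero] at hF
        exact hu hF
      have ht : t = 0 := (mul_eq_zero.mp hvt).resolve_left hv
      rw [ht, mul_zero, zero_add] at hcv'
      have h3 : cF * (2 * v * qval β w) = 0 := by
        rw [← hcv']
        norm_num
      exact mul_ne_zero hcF (mul_ne_zero (mul_ne_zero h2 hv) hq) h3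
    · rcases Nat.eq_or_lt_of_le (show 2 * k + 1 ≤ e from h) with h | h
      · -- `e = 2 k + 1`
        subst h
        have e1 : 2 * k + 1 - (2 * k + 2) = 0 := by omega
        have e2 : 2 * k + 1 - 2 * k = 1 := by omega
        have e3 : 2 * k + 2 - (2 * k + 1) = 1 := by omega
        have e4 : 2 * k - (2 * k + 1) = 0 := by omega
        rw [e1, e2, e3, e4] at hF hct
        simp only [e3, e4] at hcw
        simp only [pow_zero, mul_one, pow_one, Nat.cast_zero, Nat.cast_one, zero_mul, mul_zero,
          add_zero, Nat.sub_self] at hF hct hcw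
        by_cases hv : v = 0
        · rw [hv, mul_zero, zero_add] at hct
          exact mul_ne_zero hcF hu hct
        · have ht : t = 0 := (mul_eq_zero.mp hvt).resolve_left hv
          rw [ht, mul_zero, zero_add] at hF
          have hq := (mul_eq_zero.mp hF).resolve_left hv
          refine qval_ne_zero hβ hw (fun j hj => ?_) hq
          have := hcw j hj
          exact (mul_eq_zero.mp ((mul_eq_zero.mp this).resolve_left hcF)).resolve_left hv
      · rcases Nat.eq_or_lt_of_le (show 2 * k + 2 ≤ e from h) with h | h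
        · -- `e = 2 k + 2`
          subst h
          have e1 : 2 * k + 2 - (2 * k + 2) = 0 := by omega
          have e2 : 2 * k + 2 - 2 * k = 2 := by omega
          have e4 : 2 * k - (2 * k + 2) = 0 := by omega
          rw [e1, e2, e4] at hF hct
          simp only [e1, e4] at hcw
          simp only [pow_zero, mul_one, one_mul, Nat.cast_zero, zero_mul,
            add_zero, Nat.cast_ofNat] at hF hct hcw
          have hq : qval β w ≠ 0 := by
            refine qval_ne_zero hβ hw (fun j hj => ?_)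
            exact (mul_eq_zero.mp (hcw j hj)).resolve_left hcF
          have ht : t ≠ 0 := by
            rintro rfl
            apply hq
            rw [← hF]
            ring
          have hv : v = 0 := (mul_eq_zero.mp hvt).resolve_right ht
          rw [hv, mul_zero, zero_add] at hct
          have h3 : cF * (u * (2 * t)) = 0 := by
            rw [← hct]
            norm_num
          exact mul_ne_zero hcF (mul_ne_zero hu (mul_ne_zero h2 ht)) h3
        · -- `e ≥ 2 k + 3`
          have e3 : 2 * k + 2 - e = 0 := by omega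
          have e4 : 2 * k - e = 0 := by omega
          obtain ⟨m, hm⟩ : ∃ m, e - (2 * k + 2) = m + 1 := ⟨e - (2 * k + 2) - 1, by omega⟩
          obtain ⟨m', hm'⟩ : ∃ m, e - 2 * k = m + 1 := ⟨e - 2 * k - 1, by omega⟩
          rw [e3, e4, hm, hm', pow_zero, pow_zero, one_mul, one_mul] at hF
          simp only [e3, e4, pow_zero, one_mul] at hcw
          have h3 : u * v ^ (m + 1) * t ^ (m' + 1) = 0 := by
            rw [pow_succ, pow_succ]
            linear_combination (u * v ^ m * t ^ m') * hvt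
          rw [h3, zero_add] at hF
          refine qval_ne_zero hβ hw (fun j hj => ?_) hF
          exact (mul_eq_zero.mp (hcw j hj)).resolve_left hcF

end

end Pool.Agent.Lib.MP_6a3dac_ag
end

section

/-!
# Dominated subrings of a local ring and regular systems of parameters
-/

set_option autoImplicit false

namespace Pool.Agent.Lib.MP_6a3dac_ag

open IsLocalRing

section Dom

variable {D : Type} [CommRing D] [IsLocalRing D]

/-- The subring `R` contains the inverses of its elements that are units of `D`. -/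
def Dom (R : Subring D) : Prop := ∀ a ∈ R, ∀ b, a * b = 1 → b ∈ R

variable {R : Subring D}

theorem Dom.isUnit_iff (h : Dom R) (a : R) : IsUnit a ↔ IsUnit (a : D) := by
  constructor
  · exact fun ha => ha.map R.subtype
  · rintro ha
    obtain ⟨b, hb⟩ := ha.exists_right_inv
    exact IsUnit.of_mul_eq_one ⟨b, h a a.2 b hb⟩ (Subtype.ext hb)

theorem Dom.isLocalRing (h : Dom R) : IsLocalRing R := by
  have : Nontrivial R := ⟨0, 1, fun h0 => zero_ne_one (congrArg (fun z : R => (z : D)) h0)⟩
  apply IsLocalRing.of_nonunits_add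
  intro a b ha hb
  rw [mem_nonunits_iff, h.isUnit_iff] at ha hb ⊢
  rw [← mem_nonunits_iff, ← IsLocalRing.mem_maximalIdeal] at ha hb ⊢
  exact Ideal.add_mem _ ha hb

theorem Dom.mem_maximalIdeal (h : Dom R) [IsLocalRing R] (a : R) :
    a ∈ maximalIdeal R ↔ (a : D) ∈ maximalIdeal D := by
  rw [IsLocalRing.mem_maximalIdeal, IsLocalRing.mem_maximalIdeal, mem_nonunits_iff,
    mem_nonunits_iff, h.isUnit_iff]

/-- The finite set `s` is a regular system of parameters of the dominated subring `R`. -/
structure RSP (R : Subring D) (s : Finset D) : Prop where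
  dom : Dom R
  noeth : IsNoetherianRing R
  mem : ∀ x ∈ s, x ∈ R ∧ x ∈ maximalIdeal D
  gen : ∀ z ∈ R, z ∈ maximalIdeal D → ∃ c : D → D, (∀ x ∈ s, c x ∈ R) ∧ z = ∑ x ∈ s, c x * x
  card : ((s.card : ℕ) : WithBot ℕ∞) ≤ ringKrullDim R

theorem spanFinrank_le_of_gen (h : Dom R) [IsLocalRing R] {t : Finset D}
    (mem : ∀ x ∈ t, x ∈ R ∧ x ∈ maximalIdeal D)
    (gen : ∀ z ∈ R, z ∈ maximalIdeal D → ∃ c : D → D, (∀ x ∈ t, c x ∈ R) ∧
      z = ∑ x ∈ t, c x * x) : (maximalIdeal R).spanFinrank ≤ t.card := by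
  classical
  let g : {x // x ∈ t} → R := fun x => ⟨x, (mem x x.2).1⟩
  have h1 : maximalIdeal R = Ideal.span (Set.range g) := by
    apply le_antisymm
    · intro z hz
      obtain ⟨c, hc, hz2⟩ := gen z z.2 ((h.mem_maximalIdeal z).mp hz)
      have h2 : z = ∑ x : {x // x ∈ t}, (⟨c x, hc x x.2⟩ : R) * g x := by
        apply Subtype.ext
        rw [hz2, ← Finset.sum_coe_sort]
        simp [g]
      rw [h2]
      exact Ideal.sum_mem _ fun x _ => Ideal.mul_mem_left _ _ (Ideal.subset_span ⟨x, rfl⟩)
    · rw [Ideal.span_le]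
      rintro _ ⟨x, rfl⟩
      exact (h.mem_maximalIdeal _).mpr (mem x x.2).2
  rw [h1]
  refine (Submodule.spanFinrank_span_le_ncard_of_finite (Set.finite_range _)).trans ?_
  rw [← Set.image_univ]
  refine (Set.ncard_image_le Set.finite_univ).trans ?_
  rw [Set.ncard_univ, Nat.card_eq_fintype_card, Fintype.card_coe]

theorem RSP.isRegularLocalRing {s : Finset D} (hs : RSP R s) : IsRegularLocalRing R := by
  have := hs.dom.isLocalRing
  have := hs.noeth
  apply IsRegularLocalRing.of_spanFinrank_maximalIdeal_le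
  refine le_trans ?_ hs.card
  exact_mod_cast spanFinrank_le_of_gen hs.dom hs.mem hs.gen

theorem RSP.card_le {s t : Finset D} (hs : RSP R s)
    (mem : ∀ x ∈ t, x ∈ R ∧ x ∈ maximalIdeal D)
    (gen : ∀ z ∈ R, z ∈ maximalIdeal D → ∃ c : D → D, (∀ x ∈ t, c x ∈ R) ∧
      z = ∑ x ∈ t, c x * x) : s.card ≤ t.card := by
  have := hs.dom.isLocalRing
  have := hs.noeth
  have h1 := spanFinrank_le_of_gen hs.dom mem gen
  have h2 := (hs.card).trans (ringKrullDim_le_spanFinrank_maximalIdeal R)
  have h3 : s.card ≤ (maximalIdeal R).spanFinrank := by exact_mod_cast h2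
  exact h3.trans h1

theorem RSP.ne_zero {s : Finset D} (hs : RSP R s) {a : D} (ha : a ∈ s) : a ≠ 0 := by
  classical
  rintro rfl
  have h1 := hs.card_le (t := s.erase 0) (fun x hx => hs.mem x (Finset.mem_of_mem_erase hx)) (by
    intro z hz hzm
    obtain ⟨c, hc, hz2⟩ := hs.gen z hz hzm
    refine ⟨c, fun x hx => hc x (Finset.mem_of_mem_erase hx), ?_⟩
    rw [hz2, ← Finset.add_sum_erase s _ ha, mul_zero, zero_add])
  have h2 := Finset.card_erase_lt_of_mem ha
  omega

end Dom

end Pool.Agent.Lib.MP_6a3dac_ag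
end

section

/-!
# The linear algebra of the charts, in every characteristic
-/

set_option autoImplicit false

namespace Pool.Agent.Lib.MP_6a3dac_ag.Sys

open Matrix

variable {κ σ : Type} [Field κ] [Fintype σ] [DecidableEq σ]

/-- **Linear algebra of the charts.** -/
theorem core_eq_zero_all {β : Matrix σ σ κ} (hβ : (β + βᵀ).det ≠ 0) {w : σ → κ}
    {l₀ : σ} (hw : w l₀ = 1) {u v t : κ} (hu : u ≠ 0) (hvt : v * t = 0) {e k : ℕ} (he : 1 ≤ e)
    (hF : u * v ^ (e - (2 * k + 2)) * t ^ (e - 2 * k) +
      v ^ (2 * k + 2 - e) * t ^ (2 * k - e) * qval β w = 0)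
    {c₀ cF : κ}
    (hcw : ∀ j, j ≠ l₀ → cF * (v ^ (2 * k + 2 - e) * t ^ (2 * k - e) *
      ((β + βᵀ) *ᵥ w) j) = 0)
    (hct : c₀ * v + cF * (u * v ^ (e - (2 * k + 2)) * ((e - 2 * k : ℕ) * t ^ (e - 2 * k - 1)) +
      v ^ (2 * k + 2 - e) * ((2 * k - e : ℕ) * t ^ (2 * k - e - 1)) * qval β w) = 0)
    (hcv : 1 ≤ k → c₀ * t + cF * (u * ((e - (2 * k + 2) : ℕ) * v ^ (e - (2 * k + 2) - 1)) *
      t ^ (e - 2 * k) + ((2 * k + 2 - e : ℕ) * v ^ (2 * k + 2 - e - 1)) * t ^ (2 * k - e) *
        qval β w) = 0) : cF = 0 := by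
  by_cases h2 : (2 : κ) = 0
  · by_contra hcF
    have key : ¬ ∀ j, j ≠ l₀ → ((β + βᵀ) *ᵥ w) j = 0 := by
      intro h
      have h1 := qval_eq β w
      rw [h2, zero_mul, dotProduct,
        Finset.sum_eq_single l₀ (fun j _ hj => by rw [h j hj, mul_zero])
        (fun h => absurd (Finset.mem_univ _) h), hw, one_mul] at h1
      have h3 : (β + βᵀ) *ᵥ w = 0 := by
        funext j
        by_cases hj : j = l₀
        · rw [hj, ← h1]; rfl
        · exact h j hj
      have h4 := Matrix.eq_zero_of_mulVec_eq_zero hβ h3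
      rw [h4] at hw
      exact zero_ne_one hw
    rcases Nat.lt_or_ge e (2 * k) with h | h
    · have e1 : e - (2 * k + 2) = 0 := by omega
      have e2 : e - 2 * k = 0 := by omega
      obtain ⟨m, hm⟩ : ∃ m, 2 * k + 2 - e = m + 1 := ⟨2 * k + 2 - e - 1, by omega⟩
      obtain ⟨m', hm'⟩ : ∃ m, 2 * k - e = m + 1 := ⟨2 * k - e - 1, by omega⟩
      rw [e1, e2, hm, hm', pow_zero, pow_zero, mul_one, mul_one] at hF
      have h3 : v ^ (m + 1) * t ^ (m' + 1) * qval β w = 0 := by
        rw [pow_succ, pow_succ]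
        linear_combination (v ^ m * t ^ m' * qval β w) * hvt
      rw [h3, add_zero] at hF
      exact hu hF
    · rcases Nat.eq_or_lt_of_le h with h | h
      · subst h
        have e1 : 2 * k - (2 * k + 2) = 0 := by omega
        have e2 : 2 * k - 2 * k = 0 := by omega
        have e3 : 2 * k + 2 - 2 * k = 2 := by omega
        rw [e1, e2, e3] at hF
        simp only [e2, e3] at hcw
        simp only [pow_zero, mul_one] at hF hcw
        have hv : v ≠ 0 := by
          rintro rfl
          apply hu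
          rw [← hF]
          ring
        apply key
        intro j hj
        exact (mul_eq_zero.mp ((mul_eq_zero.mp (hcw j hj)).resolve_left hcF)).resolve_left
          (pow_ne_zero _ hv)
      · rcases Nat.eq_or_lt_of_le (show 2 * k + 1 ≤ e from h) with h | h
        · subst h
          have e1 : 2 * k + 1 - (2 * k + 2) = 0 := by omega
          have e2 : 2 * k + 1 - 2 * k = 1 := by omega
          have e3 : 2 * k + 2 - (2 * k + 1) = 1 := by omega
          have e4 : 2 * k - (2 * k + 1) = 0 := by omega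
          rw [e1, e2, e3, e4] at hct
          simp only [e3, e4] at hcw
          simp only [pow_zero, mul_one, pow_one, Nat.cast_zero, Nat.cast_one, zero_mul, mul_zero,
            add_zero, Nat.sub_self] at hct hcw
          by_cases hv : v = 0
          · rw [hv, mul_zero, zero_add] at hct
            exact mul_ne_zero hcF hu hct
          · apply key
            intro j hj
            exact (mul_eq_zero.mp ((mul_eq_zero.mp (hcw j hj)).resolve_left hcF)).resolve_left hv
        · have e3 : 2 * k + 2 - e = 0 := by omega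
          have e4 : 2 * k - e = 0 := by omega
          simp only [e3, e4, pow_zero, one_mul] at hcw
          apply key
          intro j hj
          exact (mul_eq_zero.mp (hcw j hj)).resolve_left hcF
  · exact core_eq_zero h2 hβ hw hu hvt he hF hcw hct hcv

end Pool.Agent.Lib.MP_6a3dac_ag.Sys
end
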