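import Pool.Agent.Lib.MP_6a3dac_ag.Mg.G072
import Pool.Agent.Lib.MP_6a3dac_ag.Mg.G001
import Pool.Agent.Lib.MP_6a3dac_ag.DNF.Dehom
import Pool.Agent.Lib.MP_6a3dac_ag.DNF.Hyper

section

/-!
# Regular quotients of regular local rings
-/

set_option autoImplicit false

namespace Pool.Agent.Lib.MP_6a3dac_ag

open IsLocalRing

/-- If the ideal `I` is contained in the square of the maximal ideal, then the embedding dimension
does not drop. -/
theorem spanFinrank_le_of_le_sq {O : Type} [CommRing O] [IsLocalRing O] [IsNoetherianRing O]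
    (I : Ideal O) (hI : I ≤ maximalIdeal O ^ 2) [IsLocalRing (O ⧸ I)] :
    (maximalIdeal O).spanFinrank ≤ (maximalIdeal (O ⧸ I)).spanFinrank := by
  classical
  have hfg : (maximalIdeal (O ⧸ I)).FG := Ideal.fg_of_isNoetherianRing _
  obtain ⟨s, hs1, hs2⟩ := Submodule.FG.exists_span_finset_card_eq_spanFinrank hfg
  have hlift : ∀ x : O ⧸ I, ∃ y : O, Ideal.Quotient.mk _ y = x := Ideal.Quotient.mk_surjective
  choose g hg using hlift
  have hcomap : maximalIdeal O = (maximalIdeal (O ⧸ I)).comap (Ideal.Quotient.mk I) := by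
    have := IsLocalHom.of_surjective (Ideal.Quotient.mk I) Ideal.Quotient.mk_surjective
    have h5 := ((IsLocalRing.local_hom_TFAE (Ideal.Quotient.mk I)).out 0 4).mp this
    exact h5.symm
  have hsub : Ideal.span ((s.image g : Finset O) : Set O) ≤ maximalIdeal O := by
    rw [Ideal.span_le]
    intro x hx
    simp only [Finset.coe_image, Set.mem_image, Finset.mem_coe] at hx
    obtain ⟨y, hy, rfl⟩ := hx
    rw [hcomap]
    change Ideal.Quotient.mk I (g y) ∈ maximalIdeal (O ⧸ I)
    rw [hg, ← hs2]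
    exact Submodule.subset_span hy
  have h1 : maximalIdeal O ≤ Ideal.span ((s.image g : Finset O) : Set O) := by
    apply Submodule.le_of_le_smul_of_le_jacobson_bot (I := maximalIdeal O)
      (N := Ideal.span ((s.image g : Finset O) : Set O)) (N' := maximalIdeal O)
      (Ideal.fg_of_isNoetherianRing _) (IsLocalRing.maximalIdeal_le_jacobson _)
    intro x hx
    rw [hcomap, Ideal.mem_comap, ← hs2] at hx
    have h1 : (s : Set (O ⧸ I)) =
        Ideal.Quotient.mk I '' ((s.image g : Finset O) : Set O) := by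
      rw [Finset.coe_image, Set.image_image]
      simp [hg]
    have h2 : Ideal.Quotient.mk I x ∈ (Ideal.span
        ((s.image g : Finset O) : Set O)).map (Ideal.Quotient.mk I) := by
      rw [Ideal.map_span, ← h1]; exact hx
    have h3 : x ∈ ((Ideal.span ((s.image g : Finset O) : Set O)).map
        (Ideal.Quotient.mk I)).comap (Ideal.Quotient.mk I) := h2
    rw [Ideal.comap_map_of_surjective' _ Ideal.Quotient.mk_surjective, Ideal.mk_ker] at h3
    have h4 : I ≤ maximalIdeal O • maximalIdeal O := by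
      rw [smul_eq_mul, ← pow_two]
      exact hI
    have h5 : Ideal.span ((s.image g : Finset O) : Set O) ⊔ I ≤
        Ideal.span ((s.image g : Finset O) : Set O) ⊔ maximalIdeal O • maximalIdeal O :=
      sup_le_sup le_rfl h4
    exact h5 h3
  have h2 : maximalIdeal O = Ideal.span ((s.image g : Finset O) : Set O) := le_antisymm h1 hsub
  rw [h2, ← hs1]
  refine (Submodule.spanFinrank_span_le_ncard_of_finite (Finset.finite_toSet _)).trans ?_
  rw [Set.ncard_coe_finset]
  exact Finset.card_image_le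

/-- If a regular local ring modulo the ideal generated by a finite set `Z` is regular, then the
ideal is generated by part of a regular system of parameters contained in `Z`. -/
theorem exists_par (d : ℕ) : ∀ (O : Type) [CommRing O] [IsRegularLocalRing O],
    (maximalIdeal O).spanFinrank ≤ d → ∀ Z : Finset O, (∀ z ∈ Z, z ∈ maximalIdeal O) →
    IsRegularLocalRing (O ⧸ Ideal.span (Z : Set O)) →
    ∃ Z₀ ⊆ Z, ∃ s : Finset O, Ideal.span (Z₀ : Set O) = Ideal.span (Z : Set O) ∧
      Ideal.span ((Z₀ : Set O) ∪ s) = maximalIdeal O ∧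
      Z₀.card + s.card ≤ (maximalIdeal O).spanFinrank := by
  classical
  induction d with
  | zero =>
    intro O _ hO hd Z hZ _
    have hfg : (maximalIdeal O).FG := Ideal.fg_of_isNoetherianRing _
    obtain ⟨s, hs1, hs2⟩ := Submodule.FG.exists_span_finset_card_eq_spanFinrank hfg
    have hs : s = ∅ := Finset.card_eq_zero.mp (by omega)
    have hm : maximalIdeal O = ⊥ := by rw [← hs2, hs]; simp
    refine ⟨∅, Finset.empty_subset _, s, ?_, ?_, by simp [hs]⟩
    · symm
      rw [Finset.coe_empty, Ideal.span_empty, Ideal.span_eq_bot]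
      intro z hz
      have := hZ z hz
      rwa [hm] at this
    · rw [Finset.coe_empty, Set.empty_union]
      exact hs2
  | succ d ih =>
    intro O _ hO hd Z hZ hreg
    have hdomO : IsDomain O := isDomain_aux _ O le_rfl
    by_cases hsq : ∀ z ∈ Z, z ∈ maximalIdeal O ^ 2
    · -- the ideal vanishes
      have hI : Ideal.span (Z : Set O) ≤ maximalIdeal O ^ 2 := by
        rw [Ideal.span_le]; exact hsq
      have h1 := spanFinrank_le_of_le_sq (Ideal.span (Z : Set O)) hI
      have hZ0 : Ideal.span (Z : Set O) = ⊥ := by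
        rw [Ideal.span_eq_bot]
        by_contra hcon
        push Not at hcon
        obtain ⟨z, hz, hz0⟩ := hcon
        have h2 := ringKrullDim_quotient_span_singleton_succ_eq_ringKrullDim_of_mem_nonZeroDivisors
          (mem_nonZeroDivisors_of_ne_zero hz0) (hZ z hz)
        have h3 : ringKrullDim (O ⧸ Ideal.span (Z : Set O)) ≤
            ringKrullDim (O ⧸ Ideal.span {z}) := by
          apply ringKrullDim_le_of_surjective
            (Ideal.Quotient.factor (S := Ideal.span {z}) (T := Ideal.span (Z : Set O)) (by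
              rw [Ideal.span_le, Set.singleton_subset_iff]
              exact Ideal.subset_span hz))
          exact Ideal.Quotient.factor_surjective _
        have h4 := (isRegularLocalRing_iff _).mp hreg
        have h5 := (isRegularLocalRing_iff _).mp hO
        rw [← h5] at h2
        rw [← h4] at h3
        have h6 : (((maximalIdeal (O ⧸ Ideal.span (Z : Set O))).spanFinrank : ℕ) + 1 :
            WithBot ℕ∞) ≤ ((maximalIdeal O).spanFinrank : ℕ) := by
          rw [← h2]
          exact add_le_add_left h3 1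
        have h7 : (maximalIdeal (O ⧸ Ideal.span (Z : Set O))).spanFinrank + 1 ≤
            (maximalIdeal O).spanFinrank := by exact_mod_cast h6
        omega
      have hfg : (maximalIdeal O).FG := Ideal.fg_of_isNoetherianRing _
      obtain ⟨s, hs1, hs2⟩ := Submodule.FG.exists_span_finset_card_eq_spanFinrank hfg
      refine ⟨∅, Finset.empty_subset _, s, ?_, ?_, by simp [hs1]⟩
      · rw [hZ0, Finset.coe_empty, Ideal.span_empty]
      · rw [Finset.coe_empty, Set.empty_union]
        exact hs2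
    · push Not at hsq
      obtain ⟨z, hz, hz2⟩ := hsq
      have hzm := hZ z hz
      have hreg1 := isRegularLocalRing_quotient hO hzm hz2
      have hle := spanFinrank_quotient_add_one_le hzm hz2
      let mk := Ideal.Quotient.mk (Ideal.span {z})
      have hcomap : ∀ x : O, mk x ∈ maximalIdeal (O ⧸ Ideal.span {z}) ↔ x ∈ maximalIdeal O := by
        intro x
        have := IsLocalHom.of_surjective mk Ideal.Quotient.mk_surjective
        have h5 := ((IsLocalRing.local_hom_TFAE mk).out 0 4).mp this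
        rw [← Ideal.mem_comap, h5]
      have hspan1 : ∀ (S : Set O), Ideal.span (mk '' S) = (Ideal.span S).map mk :=
        fun S => (Ideal.map_span mk S).symm
      obtain ⟨Z₁, hZ₁, s₁, h1, h2, h3⟩ := ih (O ⧸ Ideal.span {z}) (by omega) (Z.image mk) (by
          intro x hx
          obtain ⟨y, hy, rfl⟩ := Finset.mem_image.mp hx
          exact (hcomap y).mpr (hZ y hy)) (by
          have e1 : Ideal.span ((Z.image mk : Finset (O ⧸ Ideal.span {z})) :
              Set (O ⧸ Ideal.span {z})) = (Ideal.span (Z : Set O)).map mk := by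
            rw [Finset.coe_image, hspan1]
          have e2 : Ideal.span {z} ⊔ Ideal.span (Z : Set O) = Ideal.span (Z : Set O) := by
            rw [sup_eq_right, Ideal.span_le, Set.singleton_subset_iff]
            exact Ideal.subset_span hz
          exact IsRegularLocalRing.of_ringEquiv (((Ideal.quotEquivOfEq e1).trans
            (DoubleQuot.quotQuotEquivQuotSup (Ideal.span {z}) (Ideal.span (Z : Set O)))).trans
              (Ideal.quotEquivOfEq e2)).symm)
      -- lifts
      have hlift1 : ∀ x : O ⧸ Ideal.span {z}, ∃ y : O, mk y = x ∧ (x ∈ Z₁ → y ∈ Z) := by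
        intro x
        by_cases hx : x ∈ Z₁
        · obtain ⟨y, hy, hyx⟩ := Finset.mem_image.mp (hZ₁ hx)
          exact ⟨y, hyx, fun _ => hy⟩
        · obtain ⟨y, hy⟩ := Ideal.Quotient.mk_surjective x
          exact ⟨y, hy, fun h => absurd h hx⟩
      choose g hg1 hg2 using hlift1
      have himg : ∀ S : Finset (O ⧸ Ideal.span {z}), mk '' ((S.image g : Finset O) : Set O) =
          S := by
        intro S
        rw [Finset.coe_image, Set.image_image]
        simp [hg1]
      have hmem : ∀ (S : Set O) (x : O), mk x ∈ Ideal.span (mk '' S) →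
          x ∈ Ideal.span (insert z S) := by
        intro S x hx
        rw [hspan1, ← Ideal.mem_comap,
          Ideal.comap_map_of_surjective' _ Ideal.Quotient.mk_surjective, Ideal.mk_ker] at hx
        rw [Ideal.span_insert, sup_comm]
        exact hx
      refine ⟨insert z (Z₁.image g), ?_, s₁.image g, ?_, ?_, ?_⟩
      · intro x hx
        rcases Finset.mem_insert.mp hx with rfl | hx
        · exact hz
        · obtain ⟨y, hy, rfl⟩ := Finset.mem_image.mp hx
          exact hg2 y hy
      · apply le_antisymm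
        · apply Ideal.span_mono
          intro x hx
          rw [Finset.coe_insert] at hx
          rcases hx with rfl | hx
          · exact hz
          · obtain ⟨y, hy, rfl⟩ := Finset.mem_image.mp hx
            exact hg2 y hy
        · rw [Ideal.span_le]
          intro x hx
          rw [Finset.coe_insert]
          apply hmem
          rw [himg, h1]
          apply Ideal.subset_span
          rw [Finset.coe_image]
          exact ⟨x, hx, rfl⟩
      · apply le_antisymm
        · rw [Ideal.span_le]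
          rintro x (hx | hx)
          · rw [Finset.coe_insert] at hx
            rcases hx with rfl | hx
            · exact hzm
            · obtain ⟨y, hy, rfl⟩ := Finset.mem_image.mp hx
              exact hZ _ (hg2 y hy)
          · obtain ⟨y, hy, rfl⟩ := Finset.mem_image.mp hx
            apply (hcomap _).mp
            rw [hg1, ← h2]
            exact Ideal.subset_span (Or.inr hy)
        · intro x hx
          have h4 := (hcomap x).mpr hx
          rw [← h2, ← himg Z₁, ← himg s₁, ← Set.image_union] at h4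
          have h5 := hmem _ _ h4
          rw [Finset.coe_insert, Set.insert_union]
          exact h5
      · have h4 : (insert z (Z₁.image g)).card ≤ Z₁.card + 1 :=
          (Finset.card_insert_le _ _).trans (add_le_add_left Finset.card_image_le 1)
        have h5 : (s₁.image g).card ≤ s₁.card := Finset.card_image_le
        omega

end Pool.Agent.Lib.MP_6a3dac_ag
end

section

/-!
# Regular systems of parameters adapted to an ideal
-/

set_option autoImplicit false

namespace Pool.Agent.Lib.MP_6a3dac_ag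

open IsLocalRing

/-- A regular system of parameters containing `a` and adapted to the ideal generated by `a`
and `Z`. -/
theorem exists_par_insert {O : Type} [CommRing O] [IsRegularLocalRing O] {a : O}
    (ha : a ∈ maximalIdeal O) (ha0 : a ∈ nonZeroDivisors O)
    (hreg1 : IsRegularLocalRing (O ⧸ Ideal.span {a})) (Z : Finset O)
    (hZ : ∀ z ∈ Z, z ∈ maximalIdeal O)
    (hreg : IsRegularLocalRing (O ⧸ Ideal.span (insert a (Z : Set O)))) :
    ∃ Z₀ ⊆ Z, ∃ s : Finset O,
      Ideal.span (insert a (Z₀ : Set O)) = Ideal.span (insert a (Z : Set O)) ∧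
      Ideal.span (insert a ((Z₀ : Set O) ∪ s)) = maximalIdeal O ∧
      Z₀.card + s.card + 1 ≤ (maximalIdeal O).spanFinrank := by
  classical
  have ha2 := notMem_sq_of_quotient ha ha0 hreg1
  have hle := spanFinrank_quotient_add_one_le ha ha2
  let mk := Ideal.Quotient.mk (Ideal.span {a})
  have hcomap : ∀ x : O, mk x ∈ maximalIdeal (O ⧸ Ideal.span {a}) ↔ x ∈ maximalIdeal O := by
    intro x
    have := IsLocalHom.of_surjective mk Ideal.Quotient.mk_surjective
    have h5 := ((IsLocalRing.local_hom_TFAE mk).out 0 4).mp this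
    rw [← Ideal.mem_comap, h5]
  have hspan1 : ∀ (S : Set O), Ideal.span (mk '' S) = (Ideal.span S).map mk :=
    fun S => (Ideal.map_span mk S).symm
  obtain ⟨Z₁, hZ₁, s₁, h1, h2, h3⟩ := exists_par _ (O ⧸ Ideal.span {a}) le_rfl (Z.image mk) (by
      intro x hx
      obtain ⟨y, hy, rfl⟩ := Finset.mem_image.mp hx
      exact (hcomap y).mpr (hZ y hy)) (by
      have e1 : Ideal.span ((Z.image mk : Finset (O ⧸ Ideal.span {a})) :
          Set (O ⧸ Ideal.span {a})) = (Ideal.span (Z : Set O)).map mk := by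
        rw [Finset.coe_image, hspan1]
      have e2 : Ideal.span {a} ⊔ Ideal.span (Z : Set O) = Ideal.span (insert a (Z : Set O)) :=
        (Ideal.span_insert _ _).symm
      exact IsRegularLocalRing.of_ringEquiv (((Ideal.quotEquivOfEq e1).trans
        (DoubleQuot.quotQuotEquivQuotSup (Ideal.span {a}) (Ideal.span (Z : Set O)))).trans
          (Ideal.quotEquivOfEq e2)).symm)
  -- lifts
  have hlift1 : ∀ x : O ⧸ Ideal.span {a}, ∃ y : O, mk y = x ∧ (x ∈ Z₁ → y ∈ Z) := by
    intro x
    by_cases hx : x ∈ Z₁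
    · obtain ⟨y, hy, hyx⟩ := Finset.mem_image.mp (hZ₁ hx)
      exact ⟨y, hyx, fun _ => hy⟩
    · obtain ⟨y, hy⟩ := Ideal.Quotient.mk_surjective x
      exact ⟨y, hy, fun h => absurd h hx⟩
  choose g hg1 hg2 using hlift1
  have himg : ∀ S : Finset (O ⧸ Ideal.span {a}), mk '' ((S.image g : Finset O) : Set O) =
      S := by
    intro S
    rw [Finset.coe_image, Set.image_image]
    simp [hg1]
  have hmem : ∀ (S : Set O) (x : O), mk x ∈ Ideal.span (mk '' S) →
      x ∈ Ideal.span (insert a S) := by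
    intro S x hx
    rw [hspan1, ← Ideal.mem_comap,
      Ideal.comap_map_of_surjective' _ Ideal.Quotient.mk_surjective, Ideal.mk_ker] at hx
    rw [Ideal.span_insert, sup_comm]
    exact hx
  refine ⟨Z₁.image g, ?_, s₁.image g, ?_, ?_, ?_⟩
  · intro x hx
    obtain ⟨y, hy, rfl⟩ := Finset.mem_image.mp hx
    exact hg2 y hy
  · apply le_antisymm
    · apply Ideal.span_mono
      apply Set.insert_subset_insert
      intro x hx
      obtain ⟨y, hy, rfl⟩ := Finset.mem_image.mp hx
      exact hg2 y hy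
    · rw [Ideal.span_le]
      rintro x (rfl | hx)
      · exact Ideal.subset_span (Set.mem_insert _ _)
      · apply hmem
        rw [himg, h1]
        apply Ideal.subset_span
        rw [Finset.coe_image]
        exact ⟨x, hx, rfl⟩
  · apply le_antisymm
    · rw [Ideal.span_le]
      rintro x (rfl | hx | hx)
      · exact ha
      · obtain ⟨y, hy, rfl⟩ := Finset.mem_image.mp hx
        exact hZ _ (hg2 y hy)
      · obtain ⟨y, hy, rfl⟩ := Finset.mem_image.mp hx
        apply (hcomap _).mp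
        rw [hg1, ← h2]
        exact Ideal.subset_span (Or.inr hy)
    · intro x hx
      have h4 := (hcomap x).mpr hx
      rw [← h2, ← himg Z₁, ← himg s₁, ← Set.image_union] at h4
      exact hmem _ _ h4
  · have h4 : (Z₁.image g).card ≤ Z₁.card := Finset.card_image_le
    have h5 : (s₁.image g).card ≤ s₁.card := Finset.card_image_le
    omega

/-- Flatness modulo a power of `a`. -/
theorem span_insert_pow_eq {O : Type} [CommRing O] [IsLocalRing O] [IsNoetherianRing O] {a : O}
    (ha : a ∈ maximalIdeal O) {r : ℕ} (hr : 1 ≤ r) {Z Z₀ : Set O} (hZ₀ : Z₀ ⊆ Z)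
    (hspan : Ideal.span (insert a Z₀) = Ideal.span (insert a Z))
    (hflat : ∀ x, a * x ∈ Ideal.span (insert (a ^ r) Z) →
      x ∈ Ideal.span (insert (a ^ (r - 1)) Z)) :
    Ideal.span (insert (a ^ r) Z) = Ideal.span (insert (a ^ r) Z₀) := by
  apply le_antisymm _ (Ideal.span_mono (Set.insert_subset_insert hZ₀))
  apply Submodule.le_of_le_smul_of_le_jacobson_bot (I := maximalIdeal O)
    (N := Ideal.span (insert (a ^ r) Z₀)) (N' := Ideal.span (insert (a ^ r) Z))
    (Ideal.fg_of_isNoetherianRing _) (IsLocalRing.maximalIdeal_le_jacobson _)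
  rw [Ideal.span_le]
  rintro x (rfl | hx)
  · exact Submodule.mem_sup_left (Ideal.subset_span (Set.mem_insert _ _))
  · have h1 : x ∈ Ideal.span (insert a Z₀) := by
      rw [hspan]
      exact Ideal.subset_span (Set.mem_insert_of_mem _ hx)
    obtain ⟨c, z₀, hz₀, rfl⟩ := Ideal.mem_span_insert.mp h1
    have h2 : a * c ∈ Ideal.span (insert (a ^ r) Z) := by
      have h3 : a * c = (c * a + z₀) - z₀ := by ring
      rw [h3]
      exact Ideal.sub_mem _ (Ideal.subset_span (Set.mem_insert_of_mem _ hx))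
        (Ideal.span_mono (hZ₀.trans (Set.subset_insert _ _)) hz₀)
    obtain ⟨d, z₁, hz₁, hc⟩ := Ideal.mem_span_insert.mp (hflat c h2)
    have h4 : c * a + z₀ = (d * a ^ r + z₀) + a * z₁ := by
      rw [hc]
      have h5 : a ^ r = a ^ (r - 1) * a := by
        rw [← pow_succ]
        congr 1
        omega
      rw [h5]; ring
    rw [h4]
    apply Submodule.add_mem
    · apply Submodule.mem_sup_left
      exact Ideal.add_mem _ (Ideal.mul_mem_left _ _ (Ideal.subset_span (Set.mem_insert _ _)))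
        (Ideal.span_mono (Set.subset_insert _ _) hz₀)
    · apply Submodule.mem_sup_right
      exact Submodule.smul_mem_smul ha (Ideal.span_mono (Set.subset_insert _ _) hz₁)

theorem RSP.of_span {D : Type} [CommRing D] [IsLocalRing D] {R : Subring D} (h : Dom R)
    (hR : IsRegularLocalRing R) [DecidableEq D] (T : Finset R)
    (hT : Ideal.span (T : Set R) = maximalIdeal R)
    (hcard : T.card ≤ (maximalIdeal R).spanFinrank) :
    RSP R (T.image Subtype.val) := by
  classical
  refine ⟨h, inferInstance, ?_, ?_, ?_⟩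
  · intro x hx
    obtain ⟨y, hy, rfl⟩ := Finset.mem_image.mp hx
    refine ⟨y.2, (h.mem_maximalIdeal y).mp ?_⟩
    rw [← hT]
    exact Ideal.subset_span hy
  · intro z hz hzm
    have h1 : (⟨z, hz⟩ : R) ∈ Ideal.span (T : Set R) := by
      rw [hT, h.mem_maximalIdeal]
      exact hzm
    obtain ⟨c, -, hc⟩ := Submodule.mem_span_finset.mp h1
    have h2 := congrArg (Subtype.val) hc
    refine ⟨fun x => if hx : x ∈ R then (c ⟨x, hx⟩ : D) else 0, ?_, ?_⟩
    · intro x _
      dsimp only
      split_ifs with hx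
      · exact (c ⟨x, hx⟩).2
      · exact R.zero_mem
    · rw [Finset.sum_image (fun x _ y _ hxy => Subtype.ext hxy)]
      change ((∑ a ∈ T, c a • a : R) : D) = z at h2
      rw [← h2]
      push_cast
      refine Finset.sum_congr rfl fun x _ => ?_
      rw [dif_pos x.2]
      rfl
  · rw [← (isRegularLocalRing_iff R).mp hR]
    have h3 : (T.image Subtype.val : Finset D).card ≤ T.card := Finset.card_image_le
    exact_mod_cast h3.trans hcard

end Pool.Agent.Lib.MP_6a3dac_ag
end

section

/-!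
# Elementary transforms of regular local rings
-/

set_option autoImplicit false

namespace Pool.Agent.Lib.MP_6a3dac_ag

open IsLocalRing Polynomial

set_option linter.unusedSectionVars false

section Step

variable {D : Type} [CommRing D] [IsLocalRing D] (R : Subring D) (w : D)

/-- Evaluation of polynomials over `R` at the element `w` of `D`. -/
noncomputable def evW : R[X] →+* D := eval₂RingHom R.subtype w

@[simp]
theorem evW_C (r : R) : evW R w (C r) = r := by simp [evW]

@[simp]
theorem evW_X : evW R w X = w := by simp [evW]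

/-- The polynomials whose value at `w` is not a unit of `D`. -/
noncomputable def primeW : Ideal R[X] := (maximalIdeal D).comap (evW R w)

instance : (primeW R w).IsPrime := Ideal.IsPrime.comap _

theorem mem_primeW {p : R[X]} : p ∈ primeW R w ↔ evW R w p ∈ maximalIdeal D := Iff.rfl

open Classical in
/-- The constant polynomial of an element of `R`. -/
noncomputable def cR (x : D) : R[X] := if h : x ∈ R then C ⟨x, h⟩ else 0

variable {R w}

theorem cR_of_mem {x : D} (h : x ∈ R) : cR R x = C ⟨x, h⟩ := dif_pos h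

theorem evW_cR {x : D} (h : x ∈ R) : evW R w (cR R x) = x := by
  rw [cR_of_mem h, evW_C]

theorem mem_span_cR {s : Finset D} (hs : RSP R s) {p : R[X]}
    (hp : ∀ k, (p.coeff k : D) ∈ maximalIdeal D) : p ∈ Ideal.span (cR R '' (s : Set D)) := by
  have h1 : ∀ r : R, (r : D) ∈ maximalIdeal D → C r ∈ Ideal.span (cR R '' (s : Set D)) := by
    intro r hr
    obtain ⟨c, hc, hr2⟩ := hs.gen r r.2 hr
    have h2 : r = ∑ x ∈ s.attach, (⟨c x, hc x x.2⟩ : R) * ⟨x, (hs.mem x x.2).1⟩ := by
      apply Subtype.ext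
      rw [hr2, ← Finset.sum_attach]
      simp
    rw [h2, map_sum]
    refine Ideal.sum_mem _ fun x _ => ?_
    rw [map_mul]
    apply Ideal.mul_mem_left
    rw [← cR_of_mem (hs.mem x x.2).1]
    exact Ideal.subset_span ⟨x, x.2, rfl⟩
  rw [p.as_sum_range_C_mul_X_pow]
  exact Ideal.sum_mem _ fun k _ => Ideal.mul_mem_right _ _ (h1 _ (hp k))

theorem exists_gen_primeW {s : Finset D} (hs : RSP R s) :
    ∃ gs : Finset R[X], gs.card ≤ 1 ∧ (∀ g ∈ gs, g ∈ primeW R w) ∧
      (primeW R w ≤ Ideal.span (cR R '' (s : Set D) ∪ gs)) ∧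
      (gs.card = 1 → ∃ p ∈ primeW R w, ∃ k, (p.coeff k : D) ∉ maximalIdeal D) ∧
      (w ∈ maximalIdeal D → gs = {X}) := by
  classical
  have hloc := hs.dom.isLocalRing
  have hres : ∀ r : R, residue R r = 0 ↔ (r : D) ∈ maximalIdeal D := by
    intro r
    rw [residue_eq_zero_iff, hs.dom.mem_maximalIdeal]
  by_cases hw : w ∈ maximalIdeal D
  · refine ⟨{X}, by simp, ?_, ?_, ?_, fun _ => rfl⟩
    · intro g hg
      rw [Finset.mem_singleton] at hg
      rw [hg, mem_primeW, evW_X]
      exact hw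
    · intro p hp
      rw [← Polynomial.divX_mul_X_add p]
      rw [mem_primeW, ← Polynomial.divX_mul_X_add p, map_add, map_mul, evW_X, evW_C] at hp
      refine Ideal.add_mem _ (Ideal.mul_mem_left _ _ (Ideal.subset_span (Or.inr (by simp)))) ?_
      apply Ideal.span_mono Set.subset_union_left
      apply mem_span_cR hs
      intro k
      rw [coeff_C]
      split_ifs
      · have := (Ideal.add_mem_iff_right _ (Ideal.mul_mem_left _ _ hw)).mp hp
        exact this
      · exact Ideal.zero_mem _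
    · intro _
      refine ⟨X, by rw [mem_primeW, evW_X]; exact hw, 1, ?_⟩
      rw [coeff_X_one]
      intro h
      exact (maximalIdeal.isMaximal D).ne_top ((Ideal.eq_top_iff_one _).mpr h)
  · by_cases hall : ∀ p ∈ primeW R w, ∀ k, (p.coeff k : D) ∈ maximalIdeal D
    · refine ⟨∅, by simp, by simp, ?_, by simp, fun h => absurd h hw⟩
      intro p hp
      apply Ideal.span_mono Set.subset_union_left
      exact mem_span_cR hs (hall p hp)
    · push Not at hall
      let φ : R[X] →+* (ResidueField R)[X] := mapRingHom (residue R)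
      have hφ : Function.Surjective φ := Polynomial.map_surjective _ residue_surjective
      obtain ⟨γ, hγ⟩ := (inferInstance : ((primeW R w).map φ).IsPrincipal)
      have hγm : γ ∈ (primeW R w).map φ := by
        rw [hγ]
        exact Submodule.mem_span_singleton_self γ
      obtain ⟨g, hg, hgγ⟩ := (Ideal.mem_map_iff_of_surjective φ hφ).mp hγm
      refine ⟨{g}, by simp, ?_, ?_, ?_, fun h => absurd h hw⟩
      · intro g' hg'
        rw [Finset.mem_singleton] at hg'
        rw [hg']
        exact hg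
      · intro p hp
        have h1 : φ p ∈ Ideal.span {γ} := by
          have := Ideal.mem_map_of_mem φ hp
          rwa [hγ] at this
        obtain ⟨t', ht'⟩ := Ideal.mem_span_singleton'.mp h1
        obtain ⟨t, rfl⟩ := hφ t'
        have h2 : φ (p - t * g) = 0 := by
          rw [map_sub, map_mul, hgγ, ht', sub_self]
        have h3 : p = (p - t * g) + t * g := by ring
        rw [h3]
        refine Ideal.add_mem _ ?_ (Ideal.mul_mem_left _ _ (Ideal.subset_span (Or.inr (by simp))))
        apply Ideal.span_mono Set.subset_union_left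
        apply mem_span_cR hs
        intro k
        rw [← hres]
        have h4 := congrArg (fun q => Polynomial.coeff q k) h2
        rw [Polynomial.coe_mapRingHom, Polynomial.coeff_map, Polynomial.coeff_zero] at h4
        exact h4
      · intro _
        exact hall

theorem card_add_card_le_height {s : Finset D} (hs : RSP R s) {gs : Finset R[X]}
    (h1 : gs.card ≤ 1)
    (h2 : gs.card = 1 → ∃ p ∈ primeW R w, ∃ k, (p.coeff k : D) ∉ maximalIdeal D) :
    ((s.card + gs.card : ℕ) : ℕ∞) ≤ (primeW R w).height := by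
  have hloc := hs.dom.isLocalRing
  have hN := hs.noeth
  have hle : (maximalIdeal R).map C ≤ primeW R w := by
    rw [Ideal.map_le_iff_le_comap]
    intro r hr
    rw [Ideal.mem_comap, mem_primeW, evW_C]
    exact (hs.dom.mem_maximalIdeal r).mp hr
  have h3 : ((s.card : ℕ) : ℕ∞) ≤ ((maximalIdeal R).map (C : R →+* R[X])).height := by
    rw [Polynomial.height_map_C]
    have h4 := hs.card
    rw [← maximalIdeal_height_eq_ringKrullDim] at h4
    exact_mod_cast h4
  rcases Nat.le_one_iff_eq_zero_or_eq_one.mp h1 with h0 | h0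
  · rw [h0, add_zero]
    exact h3.trans (Ideal.height_mono hle)
  · obtain ⟨p, hp, k, hk⟩ := h2 h0
    have hlt : (maximalIdeal R).map C < primeW R w := by
      refine lt_of_le_of_ne hle ?_
      intro heq
      rw [← heq, Ideal.mem_map_C_iff] at hp
      exact hk ((hs.dom.mem_maximalIdeal _).mp (hp k))
    have hprime : ((maximalIdeal R).map (C : R →+* R[X])).IsPrime :=
      Ideal.isPrime_map_C_of_isPrime
    have h4 := Ideal.height_add_one_le_of_lt_of_isPrime hlt
    rw [h0]
    push_cast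
    exact (add_le_add_left h3 1).trans h4

end Step

section Main

variable {D : Type} [CommRing D] [IsDomain D] [IsLocalRing D] {R : Subring D}

theorem exists_step_aux {s : Finset D} (hs : RSP R s) {a b w : D} (ha : a ∈ s) (hb : b ∈ s)
    (hab : a ≠ b) (hw : a * w = b) (P : Type) [CommRing P] [Algebra R[X] P]
    [IsLocalization.AtPrime P (primeW R w)] :
    ∃ (R' : Subring D) (s' : Finset D), R ≤ R' ∧ w ∈ R' ∧ RSP R' s' ∧
      (∀ x ∈ s, x ≠ b → x ∈ s') ∧
      (w ∈ maximalIdeal D → w ∈ s' ∧ ∀ x ∈ s, x ≠ b → x ≠ w) := by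
  classical
  have hloc := hs.dom.isLocalRing
  have hN := hs.noeth
  obtain ⟨gs, hgs1, hgs2, hgs3, hgs4, hgs5⟩ := exists_gen_primeW (w := w) hs
  have hht := card_add_card_le_height hs hgs1 hgs4
  have ha0 := hs.ne_zero ha
  have hsR : ∀ x ∈ s, x ∈ R := fun x hx => (hs.mem x hx).1
  have hlocP : IsLocalRing P := IsLocalization.AtPrime.isLocalRing P (primeW R w)
  have hNP : IsNoetherianRing P :=
    IsLocalization.isNoetherianRing (primeW R w).primeCompl P inferInstance
  have hunit : ∀ q : (primeW R w).primeCompl, IsUnit (evW R w q) := by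
    intro q
    by_contra hcon
    exact q.2 ((IsLocalRing.mem_maximalIdeal _).mpr hcon)
  let δ : P →+* D := IsLocalization.lift (M := (primeW R w).primeCompl) (g := evW R w) hunit
  have hδ : ∀ p : R[X], δ (algebraMap R[X] P p) = evW R w p := fun p => IsLocalization.lift_eq _ _
  have hmemP : ∀ x : P, x ∈ maximalIdeal P → δ x ∈ maximalIdeal D := by
    intro x hx
    rw [← IsLocalization.AtPrime.map_eq_maximalIdeal (primeW R w) P] at hx
    have h1 : Ideal.map (algebraMap R[X] P) (primeW R w) ≤ (maximalIdeal D).comap δ := by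
      rw [Ideal.map_le_iff_le_comap]
      intro p hp
      rw [Ideal.mem_comap, Ideal.mem_comap, hδ]
      exact hp
    exact h1 hx
  have hmemP' : ∀ x : P, δ x ∈ maximalIdeal D → x ∈ maximalIdeal P := by
    intro x hx
    rw [IsLocalRing.mem_maximalIdeal, mem_nonunits_iff] at hx ⊢
    exact fun h => hx (h.map δ)
  -- generators of the maximal ideal of `P`
  have hprime : primeW R w = Ideal.span (cR R '' (s : Set D) ∪ gs) := by
    apply le_antisymm hgs3
    rw [Ideal.span_le]
    rintro _ (⟨x, hx, rfl⟩ | hg)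
    · rw [SetLike.mem_coe, mem_primeW, evW_cR (hs.mem x hx).1]
      exact (hs.mem x hx).2
    · exact hgs2 _ hg
  -- the equation
  let f : R[X] := cR R a * X - cR R b
  have hf : evW R w f = 0 := by
    simp only [f, map_sub, map_mul, evW_X, evW_cR (hsR a ha), evW_cR (hsR b hb), hw, sub_self]
  let f' : P := algebraMap R[X] P f
  have hf'm : f' ∈ maximalIdeal P := hmemP' _ (by rw [hδ, hf]; exact Ideal.zero_mem _)
  let T : Finset R[X] := (s.erase b).image (cR R) ∪ gs
  have hTcard : T.card ≤ (s.card - 1) + gs.card := by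
    refine (Finset.card_union_le _ _).trans ?_
    refine add_le_add_left ?_ _
    exact Finset.card_image_le.trans (Finset.card_erase_of_mem hb).le
  have hmaxT : maximalIdeal P ≤ Ideal.span {f'} ⊔
      Ideal.span (algebraMap R[X] P '' (T : Set R[X])) := by
    rw [← IsLocalization.AtPrime.map_eq_maximalIdeal (primeW R w) P, Ideal.map_le_iff_le_comap]
    intro q hq
    rw [hprime] at hq
    refine Submodule.span_induction (p := fun q _ => q ∈ Ideal.comap (algebraMap R[X] P)
      (Ideal.span {f'} ⊔ Ideal.span (algebraMap R[X] P '' (T : Set R[X])))) ?_ ?_ ?_ ?_ hq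
    · rintro _ (⟨x, hx, rfl⟩ | hg)
      · by_cases hxb : x = b
        · subst hxb
          have h1 : cR R x = cR R a * X - f := by simp only [f]; ring
          rw [h1, Ideal.mem_comap, map_sub, map_mul]
          refine Ideal.sub_mem _ ?_ ?_
          · apply Ideal.mul_mem_right
            apply Ideal.mem_sup_right
            apply Ideal.subset_span
            refine ⟨_, ?_, rfl⟩
            simp only [T, Finset.coe_union, Finset.coe_image]
            exact Or.inl ⟨a, by simpa [hab] using ha, rfl⟩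
          · exact Ideal.mem_sup_left (Ideal.mem_span_singleton_self _)
        · rw [Ideal.mem_comap]
          apply Ideal.mem_sup_right
          apply Ideal.subset_span
          refine ⟨_, ?_, rfl⟩
          simp only [T, Finset.coe_union, Finset.coe_image]
          exact Or.inl ⟨x, by simpa [hxb] using hx, rfl⟩
      · rw [Ideal.mem_comap]
        apply Ideal.mem_sup_right
        apply Ideal.subset_span
        refine ⟨_, ?_, rfl⟩
        simp only [T, Finset.coe_union]
        exact Or.inr hg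
    · exact Ideal.zero_mem _
    · exact fun x y _ _ hx hy => Ideal.add_mem _ hx hy
    · exact fun c x _ hx => Ideal.mul_mem_left _ c hx
  -- the quotient is regular
  have hlocO := isLocalRing_quotient hf'm
  let O := P ⧸ Ideal.span {f'}
  have hmaxO : maximalIdeal O = Ideal.span ((Ideal.Quotient.mk (Ideal.span {f'})) ''
      (algebraMap R[X] P '' (T : Set R[X]))) := by
    have h1 : (maximalIdeal P).map (Ideal.Quotient.mk (Ideal.span {f'})) = maximalIdeal O := by
      apply IsLocalRing.eq_maximalIdeal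
      refine (Ideal.map_eq_top_or_isMaximal_of_surjective _
        Ideal.Quotient.mk_surjective (maximalIdeal.isMaximal P)).resolve_left ?_
      intro htop
      have h2 : RingHom.ker (Ideal.Quotient.mk (Ideal.span {f'})) ≤ maximalIdeal P := by
        rw [Ideal.mk_ker, Ideal.span_le]; simpa using hf'm
      have := congrArg (Ideal.comap (Ideal.Quotient.mk (Ideal.span {f'}))) htop
      rw [Ideal.comap_map_of_surjective' _ Ideal.Quotient.mk_surjective, Ideal.comap_top,
        sup_eq_left.mpr h2] at this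
      exact (maximalIdeal.isMaximal P).ne_top this
    apply le_antisymm
    · rw [← h1]
      refine (Ideal.map_mono hmaxT).trans ?_
      rw [Ideal.map_sup, Ideal.map_span, Ideal.map_span, Set.image_singleton]
      have : (Ideal.Quotient.mk (Ideal.span {f'})) f' = 0 := by
        rw [Ideal.Quotient.eq_zero_iff_mem]; exact Ideal.mem_span_singleton_self f'
      rw [this, Ideal.span_singleton_eq_bot.mpr rfl, bot_sup_eq]
    · rw [← h1, Ideal.span_le]
      rintro _ ⟨_, ⟨q, hq, rfl⟩, rfl⟩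
      apply Ideal.mem_map_of_mem
      apply hmemP'
      rw [hδ]
      have hq2 : q ∈ primeW R w := by
        rw [hprime]
        apply Ideal.subset_span
        simp only [T, Finset.coe_union, Finset.coe_image] at hq
        rcases hq with ⟨x, hx, rfl⟩ | hq
        · exact Or.inl ⟨x, Finset.mem_of_mem_erase hx, rfl⟩
        · exact Or.inr hq
      exact hq2
  have hdimP : ((s.card + gs.card : ℕ) : WithBot ℕ∞) ≤ ringKrullDim P := by
    rw [IsLocalization.AtPrime.ringKrullDim_eq_height (primeW R w) P]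
    exact_mod_cast hht
  have hspos : 1 ≤ s.card := Finset.card_pos.mpr ⟨b, hb⟩
  have hdimO : ((s.card - 1 + gs.card : ℕ) : WithBot ℕ∞) ≤ ringKrullDim O := by
    apply le_of_add_one_le_add_one'
    have h1 : ringKrullDim P ≤ ringKrullDim O + 1 := by
      rw [← maximalIdeal_height_eq_ringKrullDim]
      exact Ideal.height_le_ringKrullDim_quotient_add_one hf'm
    refine le_trans ?_ (hdimP.trans h1)
    have h2 : s.card - 1 + gs.card + 1 = s.card + gs.card := by omega
    exact_mod_cast h2.le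
  have hspanO : (maximalIdeal O).spanFinrank ≤ T.card := by
    rw [hmaxO]
    refine (Submodule.spanFinrank_span_le_ncard_of_finite (Set.toFinite _)).trans ?_
    refine (Set.ncard_image_le (Set.toFinite _)).trans ?_
    refine (Set.ncard_image_le (Set.toFinite _)).trans ?_
    rw [Set.ncard_coe_finset]
  have hregO : IsRegularLocalRing O := by
    apply IsRegularLocalRing.of_spanFinrank_maximalIdeal_le
    refine le_trans ?_ hdimO
    exact_mod_cast hspanO.trans hTcard
  have hdomO : IsDomain O := isDomain_aux _ O le_rfl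
  -- the comparison map
  let Φ : O →+* D := Ideal.Quotient.lift _ δ (by
    intro x hx
    have hle : Ideal.span {f'} ≤ RingHom.ker δ := by
      rw [Ideal.span_le, Set.singleton_subset_iff]
      change δ f' = 0
      rw [hδ, hf]
    exact hle hx)
  have hΦmk : ∀ x, Φ (Ideal.Quotient.mk _ x) = δ x := fun x => Ideal.Quotient.lift_mk _ _ _
  have hΦ : ∀ p, Φ (Ideal.Quotient.mk _ (algebraMap R[X] P p)) = evW R w p := by
    intro p
    rw [hΦmk, hδ]
  -- elimination
  have helim : ∀ p : R[X], evW R w p = 0 →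
      Ideal.Quotient.mk (Ideal.span {f'}) (algebraMap R[X] P p) = 0 := by
    intro p hp
    let ψ : R[X] →+* O := (Ideal.Quotient.mk (Ideal.span {f'})).comp (algebraMap R[X] P)
    have hψf : ψ f = 0 := by
      change Ideal.Quotient.mk _ f' = 0
      rw [Ideal.Quotient.eq_zero_iff_mem]
      exact Ideal.mem_span_singleton_self f'
    have hψ : ψ (cR R a) * ψ X = ψ (cR R b) := by
      rw [← map_mul, ← sub_eq_zero, ← map_sub]
      exact hψf
    change ψ p = 0
    have key : ∀ n : ℕ, ∀ p : R[X], p.natDegree ≤ n → ∃ r : R, ψ (cR R a) ^ n * ψ p = ψ (C r) ∧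
        a ^ n * evW R w p = r := by
      intro n
      induction n with
      | zero =>
        intro p hp
        obtain ⟨r, rfl⟩ : ∃ r, p = C r := ⟨_, Polynomial.eq_C_of_natDegree_le_zero hp⟩
        exact ⟨r, by simp, by simp⟩
      | succ n ih =>
        intro p hp
        obtain ⟨r, hr1, hr2⟩ := ih p.divX (by
          rw [Polynomial.natDegree_divX_eq_natDegree_tsub_one]; omega)
        have e1 : ψ p = ψ p.divX * ψ X + ψ (C (p.coeff 0)) := by
          conv_lhs => rw [← Polynomial.divX_mul_X_add p]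
          rw [map_add, map_mul]
        have e2 : evW R w p = evW R w p.divX * w + p.coeff 0 := by
          conv_lhs => rw [← Polynomial.divX_mul_X_add p]
          rw [map_add, map_mul, evW_X, evW_C]
        refine ⟨⟨b, hsR b hb⟩ * r + ⟨a, hsR a ha⟩ ^ (n + 1) * p.coeff 0, ?_, ?_⟩
        · have h3 : ψ (cR R a) ^ (n + 1) * ψ p = (ψ (cR R a) ^ n * ψ p.divX) *
              (ψ (cR R a) * ψ X) + ψ (cR R a) ^ (n + 1) * ψ (C (p.coeff 0)) := by
            rw [e1]; ring
          rw [h3, hr1, hψ, cR_of_mem (hsR a ha), cR_of_mem (hsR b hb)]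
          simp only [map_add, map_mul, map_pow]
          ring
        · have h3 : a ^ (n + 1) * evW R w p = (a ^ n * evW R w p.divX) * (a * w) +
              a ^ (n + 1) * p.coeff 0 := by
            rw [e2]; ring
          rw [h3, hr2, hw]
          push_cast
          ring
    obtain ⟨r, hr1, hr2⟩ := key _ p le_rfl
    rw [hp, mul_zero] at hr2
    have hr0 : r = 0 := Subtype.ext hr2.symm
    rw [hr0, C_0, map_zero] at hr1
    refine (mul_eq_zero.mp hr1).resolve_left (pow_ne_zero _ ?_)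
    intro h0
    apply ha0
    have h4 := hΦ (cR R a)
    change Φ (ψ (cR R a)) = _ at h4
    rw [h0, map_zero, evW_cR (hsR a ha)] at h4
    exact h4.symm
  have hinj : Function.Injective Φ := by
    rw [injective_iff_map_eq_zero]
    intro x hx
    obtain ⟨x, rfl⟩ := Ideal.Quotient.mk_surjective x
    obtain ⟨p, q, rfl⟩ := IsLocalization.exists_mk'_eq (primeW R w).primeCompl x
    have h1 : Ideal.Quotient.mk (Ideal.span {f'}) (IsLocalization.mk' P p q) *
        Ideal.Quotient.mk (Ideal.span {f'}) (algebraMap R[X] P q) =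
        Ideal.Quotient.mk (Ideal.span {f'}) (algebraMap R[X] P p) := by
      rw [← map_mul, IsLocalization.mk'_spec]
    have hp : evW R w p = 0 := by
      rw [← hΦ, ← h1, map_mul, hx, zero_mul]
    rw [helim p hp] at h1
    refine (mul_eq_zero.mp h1).resolve_right ?_
    intro h6
    have h7 := hΦ q
    rw [h6, map_zero] at h7
    have h8 := hunit q
    rw [← h7] at h8
    exact not_isUnit_zero h8
  let R' : Subring D := Φ.range
  let e : O ≃+* R' := RingEquiv.ofBijective Φ.rangeRestrict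
    ⟨fun x y hxy => hinj (congrArg Subtype.val hxy), Φ.rangeRestrict_surjective⟩
  have hmemR' : ∀ z ∈ R', ∃ x : P, δ x = z := by
    rintro _ ⟨x, rfl⟩
    obtain ⟨x, rfl⟩ := Ideal.Quotient.mk_surjective x
    exact ⟨x, (hΦmk x).symm⟩
  have hmemR'' : ∀ x : P, δ x ∈ R' := fun x => ⟨Ideal.Quotient.mk _ x, hΦmk x⟩
  have hdom' : Dom R' := by
    intro z hz y hzy
    obtain ⟨x, rfl⟩ := hmemR' z hz
    have hx : IsUnit x := by
      by_contra hcon
      have h1 := hmemP x ((IsLocalRing.mem_maximalIdeal _).mpr hcon)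
      rw [IsLocalRing.mem_maximalIdeal, mem_nonunits_iff] at h1
      exact h1 (IsUnit.of_mul_eq_one _ hzy)
    obtain ⟨x', hx'⟩ := hx.exists_right_inv
    have h2 : δ x * δ x' = 1 := by rw [← map_mul, hx', map_one]
    have h3 : y = δ x' := by
      calc y = y * (δ x * δ x') := by rw [h2, mul_one]
        _ = (δ x * y) * δ x' := by ring
        _ = δ x' := by rw [hzy, one_mul]
    rw [h3]
    exact hmemR'' x'
  let s' : Finset D := (s.erase b) ∪ gs.image (evW R w)
  have hs'card : s'.card ≤ (s.card - 1) + gs.card := by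
    refine (Finset.card_union_le _ _).trans ?_
    exact add_le_add (Finset.card_erase_of_mem hb).le Finset.card_image_le
  have hRR' : R ≤ R' := by
    intro r hr
    have := hmemR'' (algebraMap R[X] P (C ⟨r, hr⟩))
    rwa [hδ, evW_C] at this
  have hdimR' : ringKrullDim R' = ringKrullDim O := (ringKrullDim_eq_of_ringEquiv e).symm
  have hmem' : ∀ x ∈ s', x ∈ R' ∧ x ∈ maximalIdeal D := by
    intro x hx
    rcases Finset.mem_union.mp hx with hx | hx
    · exact ⟨hRR' (hsR x (Finset.mem_of_mem_erase hx)), (hs.mem x (Finset.mem_of_mem_erase hx)).2⟩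
    · obtain ⟨g, hg, rfl⟩ := Finset.mem_image.mp hx
      refine ⟨?_, hgs2 g hg⟩
      rw [← hδ]
      exact hmemR'' _
  have hgen' : ∀ z ∈ R', z ∈ maximalIdeal D → ∃ c : D → D, (∀ x ∈ s', c x ∈ R') ∧
      z = ∑ x ∈ s', c x * x := by
    intro z hz hzm
    obtain ⟨x, rfl⟩ := hmemR' z hz
    have hx := hmaxT (hmemP' x hzm)
    -- the ideal of `R'` generated by `s'`
    let J : Ideal R' := Ideal.span (Set.range fun x : {x // x ∈ s'} =>
      (⟨x, (hmem' x x.2).1⟩ : R'))
    have hJ : ∀ x (hx : x ∈ s'), (⟨x, (hmem' x hx).1⟩ : R') ∈ J := fun x hx =>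
      Ideal.subset_span ⟨⟨x, hx⟩, rfl⟩
    let δ' : P →+* R' := δ.codRestrict R' hmemR''
    have hle : Ideal.span {f'} ⊔ Ideal.span (algebraMap R[X] P '' (T : Set R[X])) ≤
        J.comap δ' := by
      rw [sup_le_iff, Ideal.span_le, Ideal.span_le]
      constructor
      · rw [Set.singleton_subset_iff]
        change δ' f' ∈ J
        have : δ' f' = 0 := by
          apply Subtype.ext
          change δ f' = 0
          rw [hδ, hf]
        rw [this]
        exact J.zero_mem
      · rintro _ ⟨q, hq, rfl⟩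
        simp only [T, Finset.coe_union, Finset.coe_image] at hq
        rcases hq with ⟨x, hx, rfl⟩ | hq
        · have hxs : x ∈ s := Finset.mem_of_mem_erase hx
          have hx' : x ∈ s' := Finset.mem_union_left _ hx
          have : δ' (algebraMap R[X] P (cR R x)) = ⟨x, (hmem' x hx').1⟩ := by
            apply Subtype.ext
            change δ (algebraMap R[X] P (cR R x)) = x
            rw [hδ, evW_cR (hsR x hxs)]
          change δ' (algebraMap R[X] P (cR R x)) ∈ J
          rw [this]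
          exact hJ x hx'
        · have hx' : evW R w q ∈ s' := Finset.mem_union_right _ (Finset.mem_image_of_mem _ hq)
          have : δ' (algebraMap R[X] P q) = ⟨evW R w q, (hmem' _ hx').1⟩ := by
            apply Subtype.ext
            change δ (algebraMap R[X] P q) = _
            rw [hδ]
          change δ' (algebraMap R[X] P q) ∈ J
          rw [this]
          exact hJ _ hx'
    have h1 : δ' x ∈ J := hle hx
    obtain ⟨c, hc⟩ := (Ideal.mem_span_range_iff_exists_fun).mp h1
    refine ⟨fun y => if h : y ∈ s' then c ⟨y, h⟩ else 0, ?_, ?_⟩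
    · intro y hy
      simp only [dif_pos hy]
      exact (c ⟨y, hy⟩).2
    · have h2 := congrArg (fun z : R' => (z : D)) hc
      rw [← Finset.sum_coe_sort]
      simp only [Subtype.coe_eta]
      have h3 : ((δ' x : R') : D) = δ x := rfl
      rw [← h3, ← h2]
      simp
  have hrsp : RSP R' s' := by
    refine ⟨hdom', ?_, hmem', hgen', ?_⟩
    · exact isNoetherianRing_of_ringEquiv O e
    · rw [hdimR']
      refine le_trans ?_ hdimO
      exact_mod_cast hs'card
  refine ⟨R', s', hRR', ?_, hrsp, ?_, ?_⟩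
  · have := hmemR'' (algebraMap R[X] P X)
    rwa [hδ, evW_X] at this
  · intro x hx hxb
    exact Finset.mem_union_left _ (Finset.mem_erase.mpr ⟨hxb, hx⟩)
  · intro hwm
    have hgs := hgs5 hwm
    have hws' : w ∈ s' := by
      apply Finset.mem_union_right
      rw [hgs]
      simp
    refine ⟨hws', ?_⟩
    rintro x hx hxb rfl
    have h1 : s' = s.erase b := by
      simp only [s', hgs, Finset.image_singleton, evW_X]
      rw [Finset.union_eq_left, Finset.singleton_subset_iff]
      exact Finset.mem_erase.mpr ⟨hxb, hx⟩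
    have := hrsp.isRegularLocalRing
    have h2 : ((s.card : ℕ) : WithBot ℕ∞) ≤ ringKrullDim R' := by
      rw [hdimR']
      refine le_trans ?_ hdimO
      rw [hgs, Finset.card_singleton]
      have : s.card ≤ s.card - 1 + 1 := by omega
      exact_mod_cast this
    have h3 := spanFinrank_le_of_gen hdom' hmem' hgen'
    have h4 : ((s.card : ℕ) : WithBot ℕ∞) ≤ ((s'.card : ℕ) : WithBot ℕ∞) := by
      refine (h2.trans (ringKrullDim_le_spanFinrank_maximalIdeal R')).trans ?_
      exact_mod_cast h3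
    have h5 : s.card ≤ s'.card := by exact_mod_cast h4
    rw [h1, Finset.card_erase_of_mem hb] at h5
    omega

/-- **Elementary transform.** -/
theorem exists_step {s : Finset D} (hs : RSP R s) {a b w : D} (ha : a ∈ s) (hb : b ∈ s)
    (hab : a ≠ b) (hw : a * w = b) :
    ∃ (R' : Subring D) (s' : Finset D), R ≤ R' ∧ w ∈ R' ∧ RSP R' s' ∧
      (∀ x ∈ s, x ≠ b → x ∈ s') ∧
      (w ∈ maximalIdeal D → w ∈ s' ∧ ∀ x ∈ s, x ≠ b → x ≠ w) :=
  exists_step_aux hs ha hb hab hw (Localization.AtPrime (primeW R w))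

end Main

end Pool.Agent.Lib.MP_6a3dac_ag
end

section

/-!
# Towers of elementary transforms
-/

set_option autoImplicit false

namespace Pool.Agent.Lib.MP_6a3dac_ag

open IsLocalRing

section Tower

variable {D : Type} [CommRing D] [IsDomain D] [IsLocalRing D]

theorem exists_pow_step (k : ℕ) (hk : 1 ≤ k) : ∀ {R : Subring D} {s : Finset D}, RSP R s →
    ∀ {a u w : D}, a ∈ s → u ∈ s → a ≠ u → a ^ k * w = u →
    ∃ (R' : Subring D) (s' : Finset D), R ≤ R' ∧ w ∈ R' ∧ RSP R' s' ∧
      (∀ x ∈ s, x ≠ u → x ∈ s') ∧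
      (w ∈ maximalIdeal D → w ∈ s' ∧ ∀ x ∈ s, x ≠ u → x ≠ w) := by
  induction k, hk using Nat.le_induction with
  | base =>
    intro R s hs a u w ha hu hau hw
    rw [pow_one] at hw
    exact exists_step hs ha hu hau hw
  | succ k hk ih =>
    intro R s hs a u w ha hu hau hw
    obtain ⟨w₁, hw₁⟩ : ∃ w₁, w₁ = a ^ k * w := ⟨_, rfl⟩
    have h1 : a * w₁ = u := by rw [hw₁, ← hw]; ring
    obtain ⟨R₁, s₁, h2, h3, h4, h5, h6⟩ := exists_step hs ha hu hau h1
    have ham : a ∈ maximalIdeal D := (hs.mem a ha).2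
    have hw₁m : w₁ ∈ maximalIdeal D := by
      rw [hw₁]
      exact Ideal.mul_mem_right _ _ (Ideal.pow_mem_of_mem _ ham _ (by omega))
    obtain ⟨h7, h8⟩ := h6 hw₁m
    obtain ⟨R', s', g1, g2, g3, g4, g5⟩ := ih h4 (h5 a ha hau) h7 (h8 a ha hau) hw₁.symm
    refine ⟨R', s', h2.trans g1, g2, g3, ?_, ?_⟩
    · intro x hx hxu
      exact g4 x (h5 x hx hxu) (h8 x hx hxu)
    · intro hwm
      obtain ⟨g6, g7⟩ := g5 hwm
      exact ⟨g6, fun x hx hxu => g7 x (h5 x hx hxu) (h8 x hx hxu)⟩

theorem exists_pow_steps (k : ℕ) (hk : 1 ≤ k) (a : D) (w : D → D) (us : Finset D) :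
    ∀ {R : Subring D} {s : Finset D}, RSP R s → a ∈ s → a ∉ us → us ⊆ s →
    (∀ u ∈ us, a ^ k * w u = u) →
    ∃ (R' : Subring D) (s' : Finset D), R ≤ R' ∧ (∀ u ∈ us, w u ∈ R') ∧ RSP R' s' ∧
      (∀ x ∈ s, x ∉ us → x ∈ s') := by
  classical
  induction us using Finset.induction_on with
  | empty =>
    intro R s hs _ _ _ _
    exact ⟨R, s, le_rfl, by simp, hs, fun x hx _ => hx⟩
  | insert u us hu ih =>
    intro R s hs ha hau hsub hw
    rw [Finset.mem_insert, not_or] at hau
    obtain ⟨R₁, s₁, h2, h3, h4, h5, -⟩ := exists_pow_step k hk hs ha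
      (hsub (Finset.mem_insert_self _ _)) hau.1 (hw u (Finset.mem_insert_self _ _))
    obtain ⟨R', s', g1, g2, g3, g4⟩ := ih h4 (h5 a ha hau.1) hau.2 (by
        intro x hx
        refine h5 x (hsub (Finset.mem_insert_of_mem hx)) ?_
        rintro rfl
        exact hu hx)
      (fun x hx => hw x (Finset.mem_insert_of_mem hx))
    refine ⟨R', s', h2.trans g1, ?_, g3, ?_⟩
    · intro x hx
      rcases Finset.mem_insert.mp hx with rfl | hx
      · exact g1 h3
      · exact g2 x hx
    · intro x hx hxu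
      rw [Finset.mem_insert, not_or] at hxu
      exact g4 x (h5 x hx hxu.1) hxu.2

theorem isRegularLocalRing_of_top {R : Subring D} {s : Finset D} (hs : RSP R s) (h : R = ⊤) :
    IsRegularLocalRing D := by
  subst h
  have := hs.isRegularLocalRing
  exact IsRegularLocalRing.of_ringEquiv Subring.topEquiv

/-- First kind of chart. -/
theorem isRegularLocalRing_of_tower₁ {R : Subring D} {s : Finset D} (hs : RSP R s) {a : D}
    (ha : a ∈ s) (k : ℕ) (hk : 1 ≤ k) (w : D → D) (us : Finset D) (hau : a ∉ us) (hus : us ⊆ s)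
    (hw : ∀ u ∈ us, a ^ k * w u = u)
    (hgen : ∀ R' : Subring D, Dom R' → R ≤ R' → (∀ u ∈ us, w u ∈ R') → R' = ⊤) :
    IsRegularLocalRing D := by
  obtain ⟨R', s', h1, h2, h3, -⟩ := exists_pow_steps k hk a w us hs ha hau hus hw
  exact isRegularLocalRing_of_top h3 (hgen R' h3.dom h1 h2)

/-- Second kind of chart. -/
theorem isRegularLocalRing_of_tower₂ {R : Subring D} {s : Finset D} (hs : RSP R s) {a u₁ : D}
    (ha : a ∈ s) (hu₁ : u₁ ∈ s) (hau₁ : a ≠ u₁) (k : ℕ) (v t : D) (hv : a ^ k * v = u₁)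
    (ht : v * t = a) (w : D → D) (us : Finset D) (hau : a ∉ us) (hu₁u : u₁ ∉ us) (hus : us ⊆ s)
    (hw : ∀ u ∈ us, u₁ * w u = u)
    (hgen : ∀ R' : Subring D, Dom R' → R ≤ R' → v ∈ R' → t ∈ R' → (∀ u ∈ us, w u ∈ R') →
      R' = ⊤) :
    IsRegularLocalRing D := by
  obtain ⟨R₁, s₁, h1, h2, h3, h4⟩ := exists_pow_steps 1 le_rfl u₁ w us hs hu₁ hu₁u hus
    (by simpa using hw)
  have ha₁ := h4 a ha hau
  have hu₁₁ := h4 u₁ hu₁ hu₁u
  -- adjoin `v`
  obtain ⟨R₂, s₂, g1, g2, g3, g4, g5⟩ : ∃ (R₂ : Subring D) (s₂ : Finset D), R₁ ≤ R₂ ∧ v ∈ R₂ ∧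
      RSP R₂ s₂ ∧ a ∈ s₂ ∧ (v ∈ maximalIdeal D → v ∈ s₂ ∧ v ≠ a) := by
    rcases Nat.eq_zero_or_pos k with rfl | hk
    · rw [pow_zero, one_mul] at hv
      subst hv
      exact ⟨R₁, s₁, le_rfl, (h3.mem _ hu₁₁).1, h3, ha₁, fun _ => ⟨hu₁₁, hau₁.symm⟩⟩
    · obtain ⟨R₂, s₂, g1, g2, g3, g4, g5⟩ := exists_pow_step k hk h3 ha₁ hu₁₁ hau₁ hv
      refine ⟨R₂, s₂, g1, g2, g3, g4 a ha₁ hau₁, fun hvm => ?_⟩
      obtain ⟨g6, g7⟩ := g5 hvm
      exact ⟨g6, (g7 a ha₁ hau₁).symm⟩
  -- adjoin `t`
  obtain ⟨R₃, s₃, f1, f2, f3⟩ : ∃ (R₃ : Subring D) (s₃ : Finset D), R₂ ≤ R₃ ∧ t ∈ R₃ ∧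
      RSP R₃ s₃ := by
    by_cases hvm : v ∈ maximalIdeal D
    · obtain ⟨g6, g7⟩ := g5 hvm
      obtain ⟨R₃, s₃, f1, f2, f3, -⟩ := exists_step g3 g6 g4 g7 ht
      exact ⟨R₃, s₃, f1, f2, f3⟩
    · rw [IsLocalRing.mem_maximalIdeal, mem_nonunits_iff, not_not] at hvm
      obtain ⟨v', hv'⟩ := hvm.exists_right_inv
      refine ⟨R₂, s₂, le_rfl, ?_, g3⟩
      have h5 : t = a * v' := by
        calc t = (v * v') * t := by rw [hv', one_mul]
          _ = (v * t) * v' := by ring
          _ = a * v' := by rw [ht]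
      rw [h5]
      exact R₂.mul_mem (g3.mem a g4).1 (g3.dom v g2 v' hv')
  refine isRegularLocalRing_of_top f3 (hgen R₃ f3.dom ((h1.trans g1).trans f1) (f1 g2) f2 ?_)
  exact fun u hu => f1 (g1 (h2 u hu))

end Tower

end Pool.Agent.Lib.MP_6a3dac_ag
end

section

/-!
# Double points of the total space which are resolved by one blow-up
-/

set_option autoImplicit false

namespace Pool.Agent.Lib.MP_6a3dac_ag.Maj

open MvPolynomial
open Pool.Agent.Lib.MP_6a3dac_ag.DNF

section Quad

variable {ι κ : Type} [Fintype ι] [CommRing κ]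

/-- The quadratic form with the matrix `c`. -/
def qf (c : ι → ι → κ) (v : ι → κ) : κ := ∑ j, ∑ k, c j k * (v j * v k)

/-- The partial derivative of the quadratic form with respect to the `k`-th variable. -/
def qd (c : ι → ι → κ) (v : ι → κ) (k : ι) : κ := ∑ j, (c j k + c k j) * v j

/-- The quadric has no singular point with coordinates in `κ`. -/
def QNondeg (c : ι → ι → κ) : Prop := ∀ v : ι → κ, v ≠ 0 → qf c v = 0 → ∃ k, qd c v k ≠ 0

end Quad

section Odp

variable {O : Type} [CommRing O] {σ : Type} [Fintype σ]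

/-- The `g o` lie in `𝔮` and generate it modulo its square. -/
def Par (𝔮 : Ideal (MvPolynomial σ O)) (g : Option σ → MvPolynomial σ O) : Prop :=
  (∀ o, g o ∈ 𝔮) ∧ 𝔮 ≤ Ideal.span (Set.range g) ⊔ 𝔮 ^ 2

/-- The tangent cone at `𝔮` is a nondegenerate quadratic form. -/
def Odp1 (F : MvPolynomial σ O) (𝔮 : Ideal (MvPolynomial σ O)) : Prop :=
  ∃ (g : Option σ → MvPolynomial σ O) (c : Option σ → Option σ → MvPolynomial σ O), Par 𝔮 g ∧
    F - ∑ j, ∑ k, c j k * (g j * g k) ∈ 𝔮 ^ 3 ∧ QNondeg fun j k => Ideal.Quotient.mk 𝔮 (c j k)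

/-- The tangent cone at `𝔮` is a quadratic form of corank one, and the cubic term does not vanish on
its kernel. -/
def Odp2 (F : MvPolynomial σ O) (𝔮 : Ideal (MvPolynomial σ O)) : Prop :=
  ∃ (g : Option σ → MvPolynomial σ O) (c : σ → σ → MvPolynomial σ O) (u : MvPolynomial σ O),
    Par 𝔮 g ∧
    F - (∑ j, ∑ k, c j k * (g (some j) * g (some k)) + u * g none ^ 3) ∈
      𝔮 ^ 2 * Ideal.span (Set.range fun j => g (some j)) ⊔ 𝔮 ^ 4 ∧
    (QNondeg fun j k => Ideal.Quotient.mk 𝔮 (c j k)) ∧ u ∉ 𝔮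

/-- The double points which are resolved by the blow-up of the point. -/
def OdpAt (F : MvPolynomial σ O) (𝔮 : Ideal (MvPolynomial σ O)) : Prop := Odp1 F 𝔮 ∨ Odp2 F 𝔮

/-- The singular locus of the special fibre is finite. -/
def FinJac (ϖ : O) (F : MvPolynomial σ O) : Prop :=
  Finite (MvPolynomial σ O ⧸ Ideal.span (insert (C ϖ) (Set.range fun l => pderiv l F)))

end Odp

/-- The special fibre of the hypersurface has finitely many singular points, and the singular points
of the total space are double points resolved by one blow-up. A closed point is considered in the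
chart of its first nonzero coordinate. -/
def OdpForm {O : Type} [CommRing O] {n : ℕ} (ϖ : O) (f : MvPolynomial (Fin (n + 1)) O) : Prop :=
  ∀ i : Fin (n + 1), FinJac ϖ (dehom i f) ∧
    ∀ 𝔮 : Ideal (MvPolynomial {l : Fin (n + 1) // l ≠ i} O), 𝔮.IsMaximal → C ϖ ∈ 𝔮 →
      (∀ (l : Fin (n + 1)) (hl : l < i), X ⟨l, hl.ne⟩ ∈ 𝔮) → dehom i f ∈ 𝔮 ^ 2 →
        OdpAt (dehom i f) 𝔮

end Pool.Agent.Lib.MP_6a3dac_ag.Maj
end

section

/-!
# The homogeneous ideal of finitely many closed points
-/

set_option autoImplicit false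

namespace Pool.Agent.Lib.MP_6a3dac_ag.Maj

open MvPolynomial
open Pool.Agent.Lib.MP_6a3dac_ag.DNF

theorem z1_integral {O : Type} [CommRing O] [IsDomain O] [IsDiscreteValuationRing O]
    {σ : Type} [Finite σ] {ϖ : O} (hϖ : Irreducible ϖ) (𝔮 : Ideal (MvPolynomial σ O))
    (hq : 𝔮.IsMaximal) (hc : C ϖ ∈ 𝔮) (l : σ) :
    ∃ p : Polynomial O, p.Monic ∧ Polynomial.aeval (X l : MvPolynomial σ O) p ∈ 𝔮 := by
  have hmax : (Ideal.span {ϖ} : Ideal O).IsMaximal :=
    PrincipalIdealRing.isMaximal_of_irreducible hϖ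
  let _ : Field (MvPolynomial σ O ⧸ 𝔮) := Ideal.Quotient.field 𝔮
  let _ : Field (O ⧸ (Ideal.span {ϖ} : Ideal O)) := Ideal.Quotient.field _
  let φ : (O ⧸ (Ideal.span {ϖ} : Ideal O)) →+* (MvPolynomial σ O ⧸ 𝔮) :=
    Ideal.Quotient.lift _ (algebraMap O (MvPolynomial σ O ⧸ 𝔮)) (by
      intro a ha
      obtain ⟨b, rfl⟩ := Ideal.mem_span_singleton.mp ha
      have h1 : algebraMap O (MvPolynomial σ O ⧸ 𝔮) ϖ = 0 := by
        change Ideal.Quotient.mk 𝔮 (C ϖ) = 0
        exact Ideal.Quotient.eq_zero_iff_mem.mpr hc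
      rw [map_mul, h1, zero_mul])
  let _ : Algebra (O ⧸ (Ideal.span {ϖ} : Ideal O)) (MvPolynomial σ O ⧸ 𝔮) := φ.toAlgebra
  have : IsScalarTower O (O ⧸ (Ideal.span {ϖ} : Ideal O)) (MvPolynomial σ O ⧸ 𝔮) :=
    IsScalarTower.of_algebraMap_eq fun a => rfl
  have : Algebra.FiniteType O (MvPolynomial σ O ⧸ 𝔮) := inferInstance
  have : Algebra.FiniteType (O ⧸ (Ideal.span {ϖ} : Ideal O)) (MvPolynomial σ O ⧸ 𝔮) :=
    Algebra.FiniteType.of_restrictScalars_finiteType O _ _
  have : Module.Finite (O ⧸ (Ideal.span {ϖ} : Ideal O)) (MvPolynomial σ O ⧸ 𝔮) :=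
    finite_of_finite_type_of_isJacobsonRing _ _
  have : Algebra.IsIntegral O (O ⧸ (Ideal.span {ϖ} : Ideal O)) :=
    Algebra.isIntegral_of_surjective Ideal.Quotient.mk_surjective
  have h2 : IsIntegral (O ⧸ (Ideal.span {ϖ} : Ideal O)) (Ideal.Quotient.mk 𝔮 (X l)) :=
    Algebra.IsIntegral.isIntegral _
  have h3 : IsIntegral O (Ideal.Quotient.mk 𝔮 (X l)) := isIntegral_trans _ h2
  obtain ⟨p, hp, hp0⟩ := h3
  refine ⟨p, hp, ?_⟩
  rw [← Ideal.Quotient.eq_zero_iff_mem]
  rw [← hp0]
  rw [Polynomial.aeval_def, Polynomial.hom_eval₂]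
  rfl

/-- The homogenization of `p (X l)` with respect to `X i`. -/
noncomputable def z1_hom {O : Type} [CommRing O] {n : ℕ} (i l : Fin (n + 1))
    (p : Polynomial O) : MvPolynomial (Fin (n + 1)) O :=
  ∑ j ∈ Finset.range (p.natDegree + 1), C (p.coeff j) * (X l ^ j * X i ^ (p.natDegree - j))

theorem z1_hom_homog {O : Type} [CommRing O] {n : ℕ} (i l : Fin (n + 1))
    (p : Polynomial O) : (z1_hom i l p).IsHomogeneous p.natDegree := by
  refine IsHomogeneous.sum _ _ _ fun j hj => ?_
  rw [Finset.mem_range] at hj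
  have h1 : ((X l : MvPolynomial (Fin (n + 1)) O) ^ j).IsHomogeneous j := by
    simpa using (isHomogeneous_X O l).pow j
  have h2 : ((X i : MvPolynomial (Fin (n + 1)) O) ^ (p.natDegree - j)).IsHomogeneous
      (p.natDegree - j) := by
    simpa using (isHomogeneous_X O i).pow (p.natDegree - j)
  have h3 := (isHomogeneous_C (Fin (n + 1)) (p.coeff j)).mul (h1.mul h2)
  have h4 : 0 + (j + (p.natDegree - j)) = p.natDegree := by omega
  rwa [h4] at h3

theorem z1_dehom_hom {O : Type} [CommRing O] {n : ℕ} (i : Fin (n + 1))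
    (l : {l : Fin (n + 1) // l ≠ i}) (p : Polynomial O) :
    dehom i (z1_hom i l.1 p) = Polynomial.aeval (X l) p := by
  rw [z1_hom, map_sum, Polynomial.aeval_eq_sum_range]
  refine Finset.sum_congr rfl fun j _ => ?_
  rw [map_mul, map_mul, map_pow, map_pow, dehom_X_self, dehom_X, dehom_C, one_pow, mul_one,
    smul_eq_C_mul]

theorem z1_dehom_hom' {O : Type} [CommRing O] {n : ℕ} (i l : Fin (n + 1)) (hil : i ≠ l)
    (p : Polynomial O) (hp : p.Monic)
    (𝔮 : Ideal (MvPolynomial {k : Fin (n + 1) // k ≠ l} O)) (hq : 𝔮 ≠ ⊤)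
    (hX : X ⟨i, hil⟩ ∈ 𝔮) : dehom l (z1_hom i l p) ∉ 𝔮 := by
  intro h
  rw [z1_hom, map_sum, Finset.sum_range_succ] at h
  have h1 : ∑ j ∈ Finset.range p.natDegree,
      dehom l (C (p.coeff j) * (X l ^ j * X i ^ (p.natDegree - j))) ∈ 𝔮 := by
    refine Ideal.sum_mem _ fun j hj => ?_
    rw [Finset.mem_range] at hj
    rw [map_mul, map_mul, map_pow, map_pow]
    refine Ideal.mul_mem_left _ _ (Ideal.mul_mem_left _ _ ?_)
    have h2 : dehom l (X i : MvPolynomial (Fin (n + 1)) O) = X ⟨i, hil⟩ := dehom_X l ⟨i, hil⟩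
    rw [h2]
    exact Ideal.pow_mem_of_mem _ hX _ (by omega)
  have h3 := (Ideal.add_mem_iff_right 𝔮 h1).mp h
  rw [Nat.sub_self, pow_zero, mul_one, map_mul, map_pow, dehom_X_self, one_pow, mul_one,
    dehom_C] at h3
  have h4 : p.coeff p.natDegree = 1 := hp
  rw [h4, C_1] at h3
  exact hq ((Ideal.eq_top_iff_one _).mpr h3)

theorem z1_point {O : Type} [CommRing O] [IsDomain O] [IsDiscreteValuationRing O] {n : ℕ}
    {ϖ : O} (hϖ : Irreducible ϖ)
    (z : Σ i : Fin (n + 1), Ideal (MvPolynomial {l : Fin (n + 1) // l ≠ i} O))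
    (hq : z.2.IsMaximal) (hc : C ϖ ∈ z.2)
    (hX : ∀ (l : Fin (n + 1)) (hl : l < z.1), X ⟨l, hl.ne⟩ ∈ z.2) :
    ∃ F : Finset (MvPolynomial (Fin (n + 1)) O), (∀ h ∈ F, ∃ N, h.IsHomogeneous N) ∧
      (∀ h ∈ F, dehom z.1 h ∈ z.2) ∧
      (∀ x ∈ z.2, x ∈ Ideal.span {w | ∃ h ∈ F, w = dehom z.1 h}) ∧
      ∀ y : Σ i : Fin (n + 1), Ideal (MvPolynomial {l : Fin (n + 1) // l ≠ i} O),
        y.2.IsPrime → C ϖ ∈ y.2 → (∀ (l : Fin (n + 1)) (hl : l < y.1), X ⟨l, hl.ne⟩ ∈ y.2) →
        y ≠ z → ∃ h ∈ F, dehom y.1 h ∉ y.2 := by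
  classical
  obtain ⟨i, 𝔮⟩ := z
  simp only at hq hc hX ⊢
  obtain ⟨T, hT⟩ : ∃ T : Finset (MvPolynomial {l : Fin (n + 1) // l ≠ i} O),
      Ideal.span (T : Set (MvPolynomial {l : Fin (n + 1) // l ≠ i} O)) = 𝔮 :=
    (isNoetherianRing_iff_ideal_fg _).mp inferInstance 𝔮
  choose N H hH hHi using exists_homog (O := O) i
  have hint : ∀ l : Fin (n + 1), ∃ p : Polynomial O, l ≠ i → (p.Monic ∧
      ∀ hl : l ≠ i, Polynomial.aeval (X ⟨l, hl⟩ : MvPolynomial {l : Fin (n + 1) // l ≠ i} O) p
        ∈ 𝔮) := by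
    intro l
    by_cases hl : l = i
    · exact ⟨1, fun h => absurd hl h⟩
    · obtain ⟨p, hp, hp'⟩ := z1_integral hϖ 𝔮 hq hc ⟨l, hl⟩
      exact ⟨p, fun _ => ⟨hp, fun _ => hp'⟩⟩
  choose p hp using hint
  refine ⟨(T.image H) ∪ ((Finset.univ.filter fun l => l < i).image X) ∪
    ((Finset.univ.filter fun l => l ≠ i).image fun l => z1_hom i l (p l)), ?_, ?_, ?_, ?_⟩
  · intro h hh
    rw [Finset.mem_union, Finset.mem_union, Finset.mem_image, Finset.mem_image,
      Finset.mem_image] at hh
    rcases hh with (⟨t, _, rfl⟩ | ⟨l, _, rfl⟩) | ⟨l, _, rfl⟩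
    · exact ⟨_, hH t⟩
    · exact ⟨1, isHomogeneous_X O l⟩
    · exact ⟨_, z1_hom_homog i l (p l)⟩
  · intro h hh
    rw [Finset.mem_union, Finset.mem_union, Finset.mem_image, Finset.mem_image,
      Finset.mem_image] at hh
    rcases hh with (⟨t, ht, rfl⟩ | ⟨l, hl, rfl⟩) | ⟨l, hl, rfl⟩
    · rw [hHi, ← hT]
      exact Ideal.subset_span ht
    · rw [Finset.mem_filter] at hl
      have h2 : dehom i (X l : MvPolynomial (Fin (n + 1)) O) = X ⟨l, hl.2.ne⟩ :=
        dehom_X i ⟨l, hl.2.ne⟩
      rw [h2]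
      exact hX l hl.2
    · rw [Finset.mem_filter] at hl
      rw [z1_dehom_hom i ⟨l, hl.2⟩ (p l)]
      exact (hp l hl.2).2 hl.2
  · intro x hx
    rw [← hT] at hx
    refine Ideal.span_mono ?_ hx
    intro t ht
    refine ⟨H t, ?_, (hHi t).symm⟩
    rw [Finset.mem_union, Finset.mem_union]
    exact Or.inl (Or.inl (Finset.mem_image_of_mem _ ht))
  · rintro ⟨i', 𝔮'⟩ hprime _ hX' hne
    simp only at hprime hX' ⊢
    rcases lt_trichotomy i' i with hlt | heq | hgt
    · refine ⟨X i', ?_, ?_⟩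
      · rw [Finset.mem_union, Finset.mem_union]
        exact Or.inl (Or.inr (Finset.mem_image_of_mem _
          (Finset.mem_filter.mpr ⟨Finset.mem_univ _, hlt⟩)))
      · rw [dehom_X_self]
        exact fun h => hprime.ne_top ((Ideal.eq_top_iff_one _).mpr h)
    · subst heq
      by_contra hcon
      push Not at hcon
      apply hne
      have hle : 𝔮 ≤ 𝔮' := by
        rw [← hT, Ideal.span_le]
        intro t ht
        have h1 := hcon (H t) (by
          rw [Finset.mem_union, Finset.mem_union]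
          exact Or.inl (Or.inl (Finset.mem_image_of_mem _ ht)))
        rwa [hHi] at h1
      rw [hq.eq_of_le hprime.ne_top hle]
    · refine ⟨z1_hom i i' (p i'), ?_, ?_⟩
      · rw [Finset.mem_union, Finset.mem_union]
        exact Or.inr (Finset.mem_image.mpr ⟨i', Finset.mem_filter.mpr
          ⟨Finset.mem_univ _, hgt.ne'⟩, rfl⟩)
      · exact z1_dehom_hom' i i' hgt.ne (p i') (hp i' hgt.ne').1 𝔮' hprime.ne_top (hX' i hgt)

theorem z1_all {O : Type} [CommRing O] [IsDomain O] [IsDiscreteValuationRing O] {n : ℕ}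
    {ϖ : O} (hϖ : Irreducible ϖ)
    (S : Set (Σ i : Fin (n + 1), Ideal (MvPolynomial {l : Fin (n + 1) // l ≠ i} O)))
    (hS : S.Finite) (hmem : ∀ z ∈ S, z.2.IsMaximal ∧ C ϖ ∈ z.2 ∧
      ∀ (l : Fin (n + 1)) (hl : l < z.1), X ⟨l, hl.ne⟩ ∈ z.2) :
    ∃ G : Finset (MvPolynomial (Fin (n + 1)) O), (∀ g ∈ G, ∃ N, g.IsHomogeneous N) ∧
      (∀ z ∈ S, ∀ g ∈ G, dehom z.1 g ∈ z.2) ∧
      (∀ z ∈ S, ∀ x ∈ z.2, ∃ s, s ∉ z.2 ∧
        s * x ∈ Ideal.span {w | ∃ g ∈ G, w = dehom z.1 g}) ∧
      ∀ y : Σ i : Fin (n + 1), Ideal (MvPolynomial {l : Fin (n + 1) // l ≠ i} O),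
        y.2.IsPrime → C ϖ ∈ y.2 → (∀ (l : Fin (n + 1)) (hl : l < y.1), X ⟨l, hl.ne⟩ ∈ y.2) →
        y ∉ S → ∃ g ∈ G, dehom y.1 g ∉ y.2 := by
  classical
  induction S, hS using Set.Finite.induction_on with
  | empty =>
    refine ⟨{1}, ?_, ?_, ?_, ?_⟩
    · intro g hg
      rw [Finset.mem_singleton] at hg
      subst hg
      exact ⟨0, isHomogeneous_one _ _⟩
    · intro z hz
      exact absurd hz (Set.notMem_empty z)
    · intro z hz
      exact absurd hz (Set.notMem_empty z)
    · intro y hy _ _ _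
      refine ⟨1, Finset.mem_singleton_self _, ?_⟩
      rw [map_one]
      exact fun h => hy.ne_top ((Ideal.eq_top_iff_one _).mpr h)
  | @insert z S hzS _ ih =>
    obtain ⟨G, hG1, hG2, hG3, hG4⟩ := ih fun w hw => hmem w (Set.mem_insert_of_mem _ hw)
    obtain ⟨hz1, hz2, hz3⟩ := hmem z (Set.mem_insert _ _)
    obtain ⟨F, hF1, hF2, hF3, hF4⟩ := z1_point hϖ z hz1 hz2 hz3
    have hmul : ∀ (y : Σ i : Fin (n + 1), Ideal (MvPolynomial {l : Fin (n + 1) // l ≠ i} O))
        (x : MvPolynomial {l : Fin (n + 1) // l ≠ y.1} O) (h : MvPolynomial (Fin (n + 1)) O),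
        h ∈ F → x ∈ Ideal.span {w | ∃ g ∈ G, w = dehom y.1 g} →
        dehom y.1 h * x ∈ Ideal.span {w | ∃ g ∈ Finset.image₂ (· * ·) G F,
          w = dehom y.1 g} := by
      intro y x h hh hx
      induction hx using Submodule.span_induction with
      | mem x hx =>
        obtain ⟨g, hg, rfl⟩ := hx
        rw [← map_mul, mul_comm]
        exact Ideal.subset_span ⟨g * h, Finset.mem_image₂.mpr ⟨g, hg, h, hh, rfl⟩, rfl⟩
      | zero => rw [mul_zero]; exact Ideal.zero_mem _
      | add a b _ _ ha hb => rw [mul_add]; exact Ideal.add_mem _ ha hb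
      | smul a b _ hb =>
        rw [smul_eq_mul, mul_left_comm]
        exact Ideal.mul_mem_left _ _ hb
    have hmul' : ∀ (y : Σ i : Fin (n + 1), Ideal (MvPolynomial {l : Fin (n + 1) // l ≠ i} O))
        (x : MvPolynomial {l : Fin (n + 1) // l ≠ y.1} O) (g : MvPolynomial (Fin (n + 1)) O),
        g ∈ G → x ∈ Ideal.span {w | ∃ h ∈ F, w = dehom y.1 h} →
        dehom y.1 g * x ∈ Ideal.span {w | ∃ g ∈ Finset.image₂ (· * ·) G F,
          w = dehom y.1 g} := by
      intro y x g hg hx
      induction hx using Submodule.span_induction with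
      | mem x hx =>
        obtain ⟨h, hh, rfl⟩ := hx
        rw [← map_mul]
        exact Ideal.subset_span ⟨g * h, Finset.mem_image₂.mpr ⟨g, hg, h, hh, rfl⟩, rfl⟩
      | zero => rw [mul_zero]; exact Ideal.zero_mem _
      | add a b _ _ ha hb => rw [mul_add]; exact Ideal.add_mem _ ha hb
      | smul a b _ hb =>
        rw [smul_eq_mul, mul_left_comm]
        exact Ideal.mul_mem_left _ _ hb
    refine ⟨Finset.image₂ (· * ·) G F, ?_, ?_, ?_, ?_⟩
    · intro g hg
      obtain ⟨a, ha, b, hb, rfl⟩ := Finset.mem_image₂.mp hg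
      obtain ⟨N, hN⟩ := hG1 a ha
      obtain ⟨N', hN'⟩ := hF1 b hb
      exact ⟨N + N', hN.mul hN'⟩
    · intro w hw g hg
      obtain ⟨a, ha, b, hb, rfl⟩ := Finset.mem_image₂.mp hg
      rw [map_mul]
      rcases Set.mem_insert_iff.mp hw with rfl | hw
      · exact Ideal.mul_mem_left _ _ (hF2 b hb)
      · exact Ideal.mul_mem_right _ _ (hG2 w hw a ha)
    · intro w hw x hx
      rcases Set.mem_insert_iff.mp hw with rfl | hw'
      · obtain ⟨g, hg, hgw⟩ := hG4 w hz1.isPrime hz2 hz3 hzS
        exact ⟨dehom w.1 g, hgw, hmul' w x g hg (hF3 x hx)⟩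
      · obtain ⟨s, hs, hsx⟩ := hG3 w hw' x hx
        obtain ⟨hw1, hw2, hw3⟩ := hmem w hw
        have hne : w ≠ z := by
          rintro rfl
          exact hzS hw'
        obtain ⟨h, hh, hhw⟩ := hF4 w hw1.isPrime hw2 hw3 hne
        refine ⟨dehom w.1 h * s, ?_, ?_⟩
        · intro h1
          rcases hw1.isPrime.mem_or_mem h1 with h2 | h2
          · exact hhw h2
          · exact hs h2
        · rw [mul_assoc]
          exact hmul w _ h hh hsx
    · intro y hy1 hy2 hy3 hyS
      have hyz : y ≠ z := fun h => hyS (h ▸ Set.mem_insert _ _)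
      have hyS' : y ∉ S := fun h => hyS (Set.mem_insert_of_mem _ h)
      obtain ⟨g, hg, hgy⟩ := hG4 y hy1 hy2 hy3 hyS'
      obtain ⟨h, hh, hhy⟩ := hF4 y hy1 hy2 hy3 hyz
      refine ⟨g * h, Finset.mem_image₂.mpr ⟨g, hg, h, hh, rfl⟩, ?_⟩
      rw [map_mul]
      intro h1
      rcases hy1.mem_or_mem h1 with h2 | h2
      · exact hgy h2
      · exact hhy h2

theorem exists_centre {O : Type} [CommRing O] [IsDomain O] [IsDiscreteValuationRing O] {n : ℕ}
    {ϖ : O} (hϖ : Irreducible ϖ)
    (S : Set (Σ i : Fin (n + 1), Ideal (MvPolynomial {l : Fin (n + 1) // l ≠ i} O)))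
    (hS : S.Finite) (hmem : ∀ z ∈ S, z.2.IsMaximal ∧ C ϖ ∈ z.2 ∧
      ∀ (l : Fin (n + 1)) (hl : l < z.1), X ⟨l, hl.ne⟩ ∈ z.2) :
    ∃ (δ : ℕ) (G : Finset (MvPolynomial (Fin (n + 1)) O)), 1 ≤ δ ∧
      (∀ g ∈ G, g.IsHomogeneous δ) ∧
      ∀ (i : Fin (n + 1)) (𝔮 : Ideal (MvPolynomial {l : Fin (n + 1) // l ≠ i} O)), 𝔮.IsPrime →
        C ϖ ∈ 𝔮 → (∀ (l : Fin (n + 1)) (hl : l < i), X ⟨l, hl.ne⟩ ∈ 𝔮) →
        ((⟨i, 𝔮⟩ ∈ S ∧ (∀ g ∈ G, dehom i g ∈ 𝔮) ∧ ∀ z ∈ 𝔮, ∃ s, s ∉ 𝔮 ∧
            s * z ∈ Ideal.span (insert (C ϖ) {w | ∃ g ∈ G, w = dehom i g})) ∨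
          (⟨i, 𝔮⟩ ∉ S ∧ ∃ g ∈ G, dehom i g ∉ 𝔮)) := by
  classical
  obtain ⟨G, hG1, hG2, hG3, hG4⟩ := z1_all hϖ S hS hmem
  have hdeg : ∀ g : MvPolynomial (Fin (n + 1)) O, ∃ N, g ∈ G → g.IsHomogeneous N := by
    intro g
    by_cases hg : g ∈ G
    · obtain ⟨N, hN⟩ := hG1 g hg
      exact ⟨N, fun _ => hN⟩
    · exact ⟨0, fun h => absurd h hg⟩
  choose N hN using hdeg
  set δ : ℕ := G.sup N + 1 with hδ
  have hle : ∀ g ∈ G, N g ≤ δ := fun g hg => (Finset.le_sup (f := N) hg).trans (Nat.le_succ _)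
  refine ⟨δ, Finset.image₂ (fun g k => g * X k ^ (δ - N g)) G Finset.univ, Nat.le_add_left _ _,
    ?_, ?_⟩
  · intro g hg
    obtain ⟨a, ha, k, _, rfl⟩ := Finset.mem_image₂.mp hg
    have h1 : ((X k : MvPolynomial (Fin (n + 1)) O) ^ (δ - N a)).IsHomogeneous (δ - N a) := by
      simpa using (isHomogeneous_X O k).pow (δ - N a)
    have h2 := (hN a ha).mul h1
    rwa [Nat.add_sub_cancel' (hle a ha)] at h2
  · intro i 𝔮 hq hc hX
    have hkey : ∀ g ∈ G, dehom i (g * X i ^ (δ - N g)) = dehom i g := by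
      intro g _
      rw [map_mul, map_pow, dehom_X_self, one_pow, mul_one]
    have hin : ∀ g ∈ G, g * X i ^ (δ - N g) ∈
        Finset.image₂ (fun g k => g * X k ^ (δ - N g)) G Finset.univ := fun g hg =>
      Finset.mem_image₂.mpr ⟨g, hg, i, Finset.mem_univ _, rfl⟩
    by_cases hmemS : (⟨i, 𝔮⟩ :
        Σ i : Fin (n + 1), Ideal (MvPolynomial {l : Fin (n + 1) // l ≠ i} O)) ∈ S
    · left
      refine ⟨hmemS, ?_, ?_⟩
      · intro g hg
        obtain ⟨a, ha, k, _, rfl⟩ := Finset.mem_image₂.mp hg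
        rw [map_mul]
        exact Ideal.mul_mem_right _ _ (hG2 _ hmemS a ha)
      · intro x hx
        obtain ⟨s, hs, hsx⟩ := hG3 _ hmemS x hx
        refine ⟨s, hs, Ideal.span_mono ?_ hsx⟩
        rintro w ⟨g, hg, rfl⟩
        exact Set.mem_insert_of_mem _ ⟨_, hin g hg, (hkey g hg).symm⟩
    · right
      obtain ⟨g, hg, hgy⟩ := hG4 ⟨i, 𝔮⟩ hq hc hX hmemS
      exact ⟨hmemS, _, hin g hg, by rw [hkey g hg]; exact hgy⟩

end Pool.Agent.Lib.MP_6a3dac_ag.Maj
end

section

/-!
# Nondegenerate quadratic forms over extensions of a finite field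
-/

set_option autoImplicit false

namespace Pool.Agent.Lib.MP_6a3dac_ag.Maj

section Aux

variable {ι κ : Type} [Fintype ι] [CommRing κ]

theorem q1_qf_add (c : ι → ι → κ) (v w : ι → κ) :
    qf c (v + w) = qf c v + qf c w + ∑ k, qd c v k * w k := by
  unfold qf qd
  have h1 : ∑ k, (∑ j, (c j k + c k j) * v j) * w k
      = (∑ j, ∑ k, c j k * (v j * w k)) + ∑ j, ∑ k, c j k * (w j * v k) := by
    have h2 : ∑ j, ∑ k, c j k * (w j * v k) = ∑ k, ∑ j, c k j * (w k * v j) := rfl
    rw [h2, Finset.sum_comm (f := fun j k => c j k * (v j * w k)), ← Finset.sum_add_distrib]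
    refine Finset.sum_congr rfl fun k _ => ?_
    rw [Finset.sum_mul, ← Finset.sum_add_distrib]
    refine Finset.sum_congr rfl fun j _ => ?_
    ring
  rw [h1, ← Finset.sum_add_distrib, ← Finset.sum_add_distrib, ← Finset.sum_add_distrib]
  refine Finset.sum_congr rfl fun j _ => ?_
  rw [← Finset.sum_add_distrib, ← Finset.sum_add_distrib, ← Finset.sum_add_distrib]
  refine Finset.sum_congr rfl fun k _ => ?_
  simp only [Pi.add_apply]
  ring

theorem q1_qf_smul (c : ι → ι → κ) (t : κ) (v : ι → κ) : qf c (t • v) = t ^ 2 * qf c v := by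
  unfold qf
  rw [Finset.mul_sum]
  refine Finset.sum_congr rfl fun j _ => ?_
  rw [Finset.mul_sum]
  refine Finset.sum_congr rfl fun k _ => ?_
  simp only [Pi.smul_apply, smul_eq_mul]
  ring

theorem q1_qd_add (c : ι → ι → κ) (v w : ι → κ) (k : ι) :
    qd c (v + w) k = qd c v k + qd c w k := by
  unfold qd
  rw [← Finset.sum_add_distrib]
  refine Finset.sum_congr rfl fun j _ => ?_
  simp only [Pi.add_apply]
  ring

theorem q1_qd_smul (c : ι → ι → κ) (t : κ) (v : ι → κ) (k : ι) :
    qd c (t • v) k = t * qd c v k := by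
  unfold qd
  rw [Finset.mul_sum]
  refine Finset.sum_congr rfl fun j _ => ?_
  simp only [Pi.smul_apply, smul_eq_mul]
  ring

theorem q1_euler (c : ι → ι → κ) (v : ι → κ) : ∑ k, qd c v k * v k = 2 * qf c v := by
  unfold qf qd
  have hsc : ∑ k, ∑ j, c j k * (v j * v k) = ∑ j, ∑ k, c j k * (v j * v k) := Finset.sum_comm
  have h1 : ∑ k, (∑ j, (c j k + c k j) * v j) * v k
      = (∑ k, ∑ j, c j k * (v j * v k)) + ∑ k, ∑ j, c k j * (v k * v j) := by
    rw [← Finset.sum_add_distrib]
    refine Finset.sum_congr rfl fun k _ => ?_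
    rw [Finset.sum_mul, ← Finset.sum_add_distrib]
    refine Finset.sum_congr rfl fun j _ => ?_
    ring
  rw [h1, hsc, two_mul]

end Aux

theorem QNondeg.ext {ι κ L : Type} [Fintype ι] [Field κ] [Finite κ] [Field L] (θ : κ →+* L)
    {c : ι → ι → κ} (h : QNondeg c) : QNondeg fun j k => θ (c j k) := by
  let _ : Algebra κ L := θ.toAlgebra
  have hθ : ∀ (a : κ) (x : L), θ a * x = a • x := fun a x => (Algebra.smul_def a x).symm
  intro v0 hv0 hq0
  by_contra hcon
  push Not at hcon
  obtain ⟨j0, hj0⟩ : ∃ j, v0 j ≠ 0 := by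
    by_contra hc
    push Not at hc
    exact hv0 (funext hc)
  -- scale
  set v : ι → L := (v0 j0)⁻¹ • v0 with hv
  have hv1 : v j0 = 1 := by
    rw [hv, Pi.smul_apply, smul_eq_mul, inv_mul_cancel₀ hj0]
  have hq : qf (fun j k => θ (c j k)) v = 0 := by
    rw [hv, q1_qf_smul, hq0, mul_zero]
  have hd : ∀ k, qd (fun j k => θ (c j k)) v k = 0 := by
    intro k
    rw [hv, q1_qd_smul, hcon k, mul_zero]
  -- functionals
  have hR : ∀ (lam : L →ₗ[κ] κ) (k : ι), qd c (fun j => lam (v j)) k = 0 := by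
    intro lam k
    have h1 := congrArg lam (hd k)
    rw [map_zero] at h1
    rw [← h1]
    unfold qd
    rw [map_sum]
    refine Finset.sum_congr rfl fun j _ => ?_
    rw [← map_add, hθ, map_smul, smul_eq_mul]
  obtain ⟨lam0, hlam0⟩ := LinearMap.exists_leftInverse_of_injective (Algebra.linearMap κ L)
    (LinearMap.ker_eq_bot.2 (algebraMap κ L).injective)
  have hl1 : lam0 1 = 1 := by
    have h1 := LinearMap.congr_fun hlam0 1
    simpa using h1
  set a0 : ι → κ := fun j => lam0 (v j) with ha0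
  have ha01 : a0 j0 = 1 := by rw [ha0]; simp only [hv1, hl1]
  have ha0ne : a0 ≠ 0 := by
    intro h0
    have := congrFun h0 j0
    rw [ha01] at this
    exact one_ne_zero this
  have hRa0 : ∀ k, qd c a0 k = 0 := hR lam0
  have hzero : ∀ w : ι → κ, (∀ k, qd c w k = 0) → qf c w = 0 → w = 0 := by
    intro w hw hqw
    by_contra hne
    obtain ⟨k, hk⟩ := h w hne hqw
    exact hk (hw k)
  by_cases h2 : (2 : κ) = 0
  · -- characteristic two
    have hchar : ringChar κ = 2 :=
      CharP.ringChar_of_prime_eq_zero Nat.prime_two (by exact_mod_cast h2)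
    have hadd : ∀ x y : ι → κ, (∀ k, qd c x k = 0) → qf c (x + y) = qf c x + qf c y := by
      intro x y hx
      rw [q1_qf_add]
      simp [hx]
    have hprop : ∀ w : ι → κ, (∀ k, qd c w k = 0) → w j0 = 0 → w = 0 := by
      intro w hw hwj
      apply hzero w hw
      have hqa0 : qf c a0 ≠ 0 := fun h0 => ha0ne (hzero a0 hRa0 h0)
      obtain ⟨s, hs⟩ := FiniteField.isSquare_of_char_two hchar (qf c w / qf c a0)
      have h3 : qf c w = s ^ 2 * qf c a0 := by
        rw [sq, ← hs, div_mul_cancel₀ _ hqa0]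
      have h4 : w + s • a0 = 0 := by
        apply hzero
        · intro k
          rw [q1_qd_add, q1_qd_smul, hw k, hRa0 k, mul_zero, add_zero]
        · rw [hadd _ _ hw, q1_qf_smul, ← h3, ← two_mul, h2, zero_mul]
      have h5 := congrFun h4 j0
      rw [Pi.add_apply, hwj, zero_add, Pi.smul_apply, ha01, smul_eq_mul, mul_one,
        Pi.zero_apply] at h5
      rw [h3, h5]
      ring
    have hvj : ∀ j, v j = θ (a0 j) := by
      intro j
      rw [← sub_eq_zero, ← Module.forall_dual_apply_eq_zero_iff κ]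
      intro lam
      have h3 : (fun j => lam (v j)) - lam 1 • a0 = 0 := by
        apply hprop
        · intro k
          have h4 : (fun j => lam (v j)) - lam 1 • a0
              = (fun j => lam (v j)) + (-lam 1) • a0 := by
            rw [neg_smul, sub_eq_add_neg]
          rw [h4, q1_qd_add, q1_qd_smul, hR lam k, hRa0 k, mul_zero, add_zero]
        · simp only [Pi.sub_apply, Pi.smul_apply, hv1, ha01, smul_eq_mul, mul_one, sub_self]
      have h4 := congrFun h3 j
      simp only [Pi.sub_apply, Pi.smul_apply, smul_eq_mul, Pi.zero_apply] at h4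
      have h5 : lam (θ (a0 j)) = lam 1 * a0 j := by
        have h6 : θ (a0 j) = a0 j • (1 : L) := by rw [← hθ, mul_one]
        rw [h6, map_smul, smul_eq_mul, mul_comm]
      rw [map_sub, h5]
      exact h4
    have h3 : qf (fun j k => θ (c j k)) v = θ (qf c a0) := by
      unfold qf
      rw [map_sum]
      refine Finset.sum_congr rfl fun j _ => ?_
      rw [map_sum]
      refine Finset.sum_congr rfl fun k _ => ?_
      rw [hvj j, hvj k, map_mul, map_mul]
    rw [hq] at h3
    have h4 : qf c a0 = 0 := θ.injective (by rw [← h3, map_zero])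
    exact ha0ne (hzero a0 hRa0 h4)
  · have h3 := q1_euler c a0
    simp only [hRa0, zero_mul, Finset.sum_const_zero] at h3
    have h4 : qf c a0 = 0 := by
      rcases mul_eq_zero.1 h3.symm with h5 | h5
      · exact absurd h5 h2
      · exact h5
    exact ha0ne (hzero a0 hRa0 h4)

end Pool.Agent.Lib.MP_6a3dac_ag.Maj
end

section

/-!
# The number of closed points of the affine space over a finite field
-/

set_option autoImplicit false

namespace Pool.Agent.Lib.MP_6a3dac_ag.Maj

open MvPolynomial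

section

variable {O : Type} [CommRing O] [IsDomain O] [IsDiscreteValuationRing O] {ϖ : O}
  (hϖ : Irreducible ϖ) (hfin : Finite (O ⧸ Ideal.span {ϖ}))

/-- the residue field of the base maps to the residue field of a closed point -/
noncomputable def n1_res {O : Type} [CommRing O] {ϖ : O} {σ : Type}
    {𝔮 : Ideal (MvPolynomial σ O)} (h𝔮 : C ϖ ∈ 𝔮) :
    (O ⧸ Ideal.span {ϖ}) →+* (MvPolynomial σ O ⧸ 𝔮) :=
  Ideal.Quotient.lift _ ((Ideal.Quotient.mk 𝔮).comp C) (by
    intro a ha
    obtain ⟨b, rfl⟩ := Ideal.mem_span_singleton'.1 ha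
    rw [RingHom.comp_apply, map_mul]
    exact Ideal.Quotient.eq_zero_iff_mem.2 (𝔮.mul_mem_left _ h𝔮))

lemma n1_res_mk {O : Type} [CommRing O] {ϖ : O} {σ : Type}
    {𝔮 : Ideal (MvPolynomial σ O)} (h𝔮 : C ϖ ∈ 𝔮) (a : O) :
    n1_res h𝔮 (Ideal.Quotient.mk _ a) = Ideal.Quotient.mk 𝔮 (C a) := rfl

include hϖ in
lemma n1_max : (Ideal.span {ϖ}).IsMaximal :=
  PrincipalIdealRing.isMaximal_of_irreducible hϖ

include hϖ hfin in
lemma n1_moduleFinite {σ : Type} [Finite σ] {𝔮 : Ideal (MvPolynomial σ O)}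
    (hmax : 𝔮.IsMaximal) (h𝔮 : C ϖ ∈ 𝔮) :
    letI := (n1_res h𝔮).toAlgebra
    Module.Finite (O ⧸ Ideal.span {ϖ}) (MvPolynomial σ O ⧸ 𝔮) := by
  let := (n1_res h𝔮).toAlgebra
  have := n1_max hϖ
  let := Ideal.Quotient.field (Ideal.span {ϖ})
  let := Ideal.Quotient.field 𝔮
  have hft : Algebra.FiniteType (O ⧸ Ideal.span {ϖ}) (MvPolynomial σ O ⧸ 𝔮) := by
    let f : MvPolynomial σ (O ⧸ Ideal.span {ϖ}) →ₐ[O ⧸ Ideal.span {ϖ}] (MvPolynomial σ O ⧸ 𝔮) :=
      aeval fun j => Ideal.Quotient.mk 𝔮 (X j)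
    have hf : (f.toRingHom).comp (map (Ideal.Quotient.mk (Ideal.span {ϖ}))) =
        Ideal.Quotient.mk 𝔮 := by
      apply MvPolynomial.ringHom_ext
      · intro a
        simp only [f, RingHom.comp_apply, map_C, AlgHom.toRingHom_eq_coe, RingHom.coe_coe]
        rw [aeval_C]
        rfl
      · intro j
        simp [f]
    refine Algebra.FiniteType.of_surjective f fun y => ?_
    obtain ⟨p, rfl⟩ := Ideal.Quotient.mk_surjective y
    exact ⟨map (Ideal.Quotient.mk (Ideal.span {ϖ})) p, by
      have := congrArg (fun g => g p) hf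
      simpa using this⟩
  exact finite_of_finite_type_of_isJacobsonRing (O ⧸ Ideal.span {ϖ}) (MvPolynomial σ O ⧸ 𝔮)

include hϖ hfin

/-- The residue fields of the closed points are finite. -/
theorem exists_card_residue {σ : Type} [Finite σ] {𝔮 : Ideal (MvPolynomial σ O)}
    (hmax : 𝔮.IsMaximal) (h𝔮 : C ϖ ∈ 𝔮) :
    ∃ e, 1 ≤ e ∧ Nat.card (MvPolynomial σ O ⧸ 𝔮) = Nat.card (O ⧸ Ideal.span {ϖ}) ^ e := by
  let := (n1_res h𝔮).toAlgebra
  have := n1_max hϖ
  let := Ideal.Quotient.field (Ideal.span {ϖ})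
  let := Ideal.Quotient.field 𝔮
  have : Module.Finite (O ⧸ Ideal.span {ϖ}) (MvPolynomial σ O ⧸ 𝔮) :=
    n1_moduleFinite hϖ hfin hmax h𝔮
  exact ⟨Module.finrank (O ⧸ Ideal.span {ϖ}) (MvPolynomial σ O ⧸ 𝔮), Module.finrank_pos,
    Module.natCard_eq_pow_finrank⟩

/-- The closed points of degree `e` of the special fibre of the affine space whose first
coordinates vanish. -/
def closedPts {O : Type} [CommRing O] (ϖ : O) {n : ℕ} (i : Fin (n + 1)) (e : ℕ) :
    Set (Ideal (MvPolynomial {l : Fin (n + 1) // l ≠ i} O)) :=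
  {𝔮 | 𝔮.IsMaximal ∧ C ϖ ∈ 𝔮 ∧ (∀ (l : Fin (n + 1)) (hl : l < i), X ⟨l, hl.ne⟩ ∈ 𝔮) ∧
    Nat.card (MvPolynomial {l : Fin (n + 1) // l ≠ i} O ⧸ 𝔮) =
      Nat.card (O ⧸ Ideal.span {ϖ}) ^ e}

omit hϖ hfin in
/-- the kernel of the evaluation at a point with coordinates in an extension -/
noncomputable def n1_ker {O : Type} [CommRing O] (ϖ : O) {L : Type} [Field L]
    (θ : (O ⧸ Ideal.span {ϖ}) →+* L) {σ : Type} (x : σ → L) : Ideal (MvPolynomial σ O) :=
  RingHom.ker (eval₂Hom (θ.comp (Ideal.Quotient.mk _)) x)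

/-- each closed point is the kernel of the evaluation at `e` points -/
lemma n1_fiber {σ : Type} [Finite σ] {𝔮 : Ideal (MvPolynomial σ O)}
    (hmax : 𝔮.IsMaximal) (h𝔮 : C ϖ ∈ 𝔮) {e : ℕ}
    (hc : Nat.card (MvPolynomial σ O ⧸ 𝔮) = Nat.card (O ⧸ Ideal.span {ϖ}) ^ e)
    {L : Type} [Field L] [Finite L] (θ : (O ⧸ Ideal.span {ϖ}) →+* L)
    (hL : Nat.card L = Nat.card (O ⧸ Ideal.span {ϖ}) ^ e) :
    e ≤ {x : σ → L | n1_ker ϖ θ x = 𝔮}.ncard := by
  let := (n1_res h𝔮).toAlgebra
  have := n1_max hϖ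
  let := Ideal.Quotient.field (Ideal.span {ϖ})
  let := Ideal.Quotient.field 𝔮
  let := θ.toAlgebra
  have : Module.Finite (O ⧸ Ideal.span {ϖ}) (MvPolynomial σ O ⧸ 𝔮) :=
    n1_moduleFinite hϖ hfin hmax h𝔮
  have : Module.Finite (O ⧸ Ideal.span {ϖ}) L := Module.Finite.of_finite
  have h2 : 2 ≤ Nat.card (O ⧸ Ideal.span {ϖ}) := Finite.one_lt_card
  have hr1 : Module.finrank (O ⧸ Ideal.span {ϖ}) (MvPolynomial σ O ⧸ 𝔮) = e := by
    apply Nat.pow_right_injective h2
    simp only
    rw [← Module.natCard_eq_pow_finrank, hc]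
  have hr2 : Module.finrank (O ⧸ Ideal.span {ϖ}) L = e := by
    apply Nat.pow_right_injective h2
    simp only
    rw [← Module.natCard_eq_pow_finrank, hL]
  have hcard : Nat.card ((MvPolynomial σ O ⧸ 𝔮) →ₐ[O ⧸ Ideal.span {ϖ}] L) = e := by
    rw [FiniteField.natCard_algHom_of_finrank_dvd (by rw [hr1, hr2]), hr1]
  have hev : ∀ h : (MvPolynomial σ O ⧸ 𝔮) →ₐ[O ⧸ Ideal.span {ϖ}] L,
      eval₂Hom (θ.comp (Ideal.Quotient.mk (Ideal.span {ϖ})))
        (fun l => h (Ideal.Quotient.mk 𝔮 (X l))) =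
      (h : (MvPolynomial σ O ⧸ 𝔮) →+* L).comp (Ideal.Quotient.mk 𝔮) := by
    intro h
    apply MvPolynomial.ringHom_ext
    · intro a
      rw [eval₂Hom_C, RingHom.comp_apply, RingHom.comp_apply]
      exact (h.commutes (Ideal.Quotient.mk (Ideal.span {ϖ}) a)).symm
    · intro l
      rw [eval₂Hom_X']
      rfl
  let g : ((MvPolynomial σ O ⧸ 𝔮) →ₐ[O ⧸ Ideal.span {ϖ}] L) → {x : σ → L | n1_ker ϖ θ x = 𝔮} :=
    fun h => ⟨fun l => h (Ideal.Quotient.mk 𝔮 (X l)), by
      change RingHom.ker _ = 𝔮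
      rw [hev h]
      ext p
      rw [RingHom.mem_ker, RingHom.comp_apply]
      rw [← Ideal.Quotient.eq_zero_iff_mem]
      constructor
      · intro hp
        exact (RingHom.injective (h : (MvPolynomial σ O ⧸ 𝔮) →+* L)) (hp.trans (map_zero _).symm)
      · intro hp
        rw [hp, map_zero]⟩
  have hg : Function.Injective g := by
    intro h h' hh
    have h1 : (fun l => h (Ideal.Quotient.mk 𝔮 (X l))) =
        fun l => h' (Ideal.Quotient.mk 𝔮 (X l)) := congrArg Subtype.val hh
    have h3 := hev h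
    rw [h1, hev h'] at h3
    apply AlgHom.ext
    intro y
    obtain ⟨p, rfl⟩ := Ideal.Quotient.mk_surjective y
    exact (congrArg (fun f => f p) h3).symm
  have : Finite (σ → L) := inferInstance
  have : Finite {x : σ → L | n1_ker ϖ θ x = 𝔮} := inferInstance
  have := Nat.card_le_card_of_injective g hg
  rw [hcard] at this
  exact this

/-- The number of closed points of degree `e`. -/
theorem card_closedPts {n : ℕ} (i : Fin (n + 1)) {e : ℕ} (he : 1 ≤ e) :
    (closedPts ϖ i e).Finite ∧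
      e * (closedPts ϖ i e).ncard ≤ Nat.card (O ⧸ Ideal.span {ϖ}) ^ (e * (n - i)) := by
  classical
  have := n1_max hϖ
  let := Ideal.Quotient.field (Ideal.span {ϖ})
  obtain ⟨p, hp⟩ := CharP.exists (O ⧸ Ideal.span {ϖ})
  have : Fact p.Prime := ⟨CharP.char_is_prime (O ⧸ Ideal.span {ϖ}) p⟩
  have : NeZero e := ⟨by omega⟩
  let L := FiniteField.Extension (O ⧸ Ideal.span {ϖ}) p e
  let θ : (O ⧸ Ideal.span {ϖ}) →+* L := algebraMap _ _
  have hL : Nat.card L = Nat.card (O ⧸ Ideal.span {ϖ}) ^ e :=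
    FiniteField.natCard_extension _ p e
  let P := {x : {l : Fin (n + 1) // l ≠ i} → L // ∀ (l : Fin (n + 1)) (hl : l < i),
    x ⟨l, hl.ne⟩ = 0}
  have : Finite P := inferInstance
  have : Fintype P := Fintype.ofFinite P
  let κ : P → Ideal (MvPolynomial {l : Fin (n + 1) // l ≠ i} O) := fun x => n1_ker ϖ θ x.1
  -- the points above a closed point lie in `P`
  have hP : ∀ 𝔮 ∈ closedPts ϖ i e, ∀ x, n1_ker ϖ θ x = 𝔮 →
      ∀ (l : Fin (n + 1)) (hl : l < i), x ⟨l, hl.ne⟩ = 0 := by
    intro 𝔮 h𝔮 x hx l hl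
    have h1 := h𝔮.2.2.1 l hl
    rw [← hx] at h1
    have h2 := RingHom.mem_ker.1 h1
    rwa [eval₂Hom_X'] at h2
  have hfib : ∀ 𝔮 ∈ closedPts ϖ i e, e ≤ (Finset.univ.filter fun x : P => κ x = 𝔮).card := by
    intro 𝔮 h𝔮
    refine (n1_fiber hϖ hfin h𝔮.1 h𝔮.2.1 h𝔮.2.2.2 θ hL).trans ?_
    have h1 : {x | n1_ker ϖ θ x = 𝔮} =
        Subtype.val '' (↑(Finset.univ.filter fun x : P => κ x = 𝔮) : Set P) := by
      ext x
      simp only [Set.mem_ofPred_eq, Set.mem_image, Finset.coe_filter, Finset.mem_univ, true_and]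
      constructor
      · intro hx
        exact ⟨⟨x, hP 𝔮 h𝔮 x hx⟩, hx, rfl⟩
      · rintro ⟨y, hy, rfl⟩
        exact hy
    rw [h1, Set.ncard_image_of_injective _ Subtype.val_injective, Set.ncard_coe_finset]
  have hsub : closedPts ϖ i e ⊆ Set.range κ := by
    intro 𝔮 h𝔮
    have h1 := hfib 𝔮 h𝔮
    have h2 : 0 < (Finset.univ.filter fun x : P => κ x = 𝔮).card := by omega
    obtain ⟨x, hx⟩ := Finset.card_pos.1 h2
    exact ⟨x, (Finset.mem_filter.1 hx).2⟩
  have hfinS : (closedPts ϖ i e).Finite := (Set.finite_range κ).subset hsub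
  refine ⟨hfinS, ?_⟩
  have hcardP : Fintype.card P ≤ Nat.card (O ⧸ Ideal.span {ϖ}) ^ (e * (n - i)) := by
    have h1 : Nat.card P ≤ Nat.card ({l : Fin (n + 1) // i < l} → L) := by
      refine Nat.card_le_card_of_injective (fun x l => x.1 ⟨l.1, l.2.ne'⟩) ?_
      intro x y hxy
      apply Subtype.ext
      funext l
      rcases lt_or_gt_of_ne l.2 with h | h
      · exact (x.2 l.1 h).trans (y.2 l.1 h).symm
      · exact congrFun hxy ⟨l.1, h⟩
    rw [Nat.card_eq_fintype_card] at h1
    refine h1.trans (le_of_eq ?_)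
    rw [Nat.card_fun, hL, ← pow_mul]
    congr 2
    rw [Nat.card_eq_fintype_card, Fintype.card_subtype]
    have h3 : (Finset.univ.filter fun l : Fin (n + 1) => i < l) = Finset.Ioi i := by
      ext l; simp
    rw [h3, Fin.card_Ioi]
    omega
  refine le_trans ?_ hcardP
  rw [Set.ncard_eq_toFinset_card _ hfinS]
  have h5 : hfinS.toFinset.card * e ≤
      (Finset.univ.filter fun x : P => κ x ∈ hfinS.toFinset).card := by
    rw [Finset.card_eq_sum_card_fiberwise (f := κ) (t := hfinS.toFinset)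
      (fun x hx => by simpa using hx)]
    rw [← smul_eq_mul]
    refine Finset.card_nsmul_le_sum _ _ _ fun 𝔮 h𝔮 => ?_
    have h𝔮' : 𝔮 ∈ closedPts ϖ i e := hfinS.mem_toFinset.1 h𝔮
    refine (hfib 𝔮 h𝔮').trans (Finset.card_le_card ?_)
    intro x hx
    rw [Finset.mem_filter] at hx
    rw [Finset.mem_filter, Finset.mem_filter]
    exact ⟨⟨Finset.mem_univ _, by rw [hx.2]; exact h𝔮⟩, hx.2⟩
  rw [mul_comm]
  exact h5.trans (Finset.card_le_univ _)

end

end Pool.Agent.Lib.MP_6a3dac_ag.Maj
end
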