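import Pool.Agent.Lib.MP_6a3dac_ag.Mg.G008

section

/-!
# Tangent cones of corank one with a nonvanishing cubic term
-/

set_option autoImplicit false

namespace Pool.Agent.Lib.MP_6a3dac_ag.Maj

open MvPolynomial IsLocalRing
open Pool.Agent.Lib.MP_6a3dac_ag.DNF

section L3aux

theorem l3_mul_le {A : Type} [CommRing A] {𝔮 N S : Ideal A} {s : A} (h : ∀ z ∈ 𝔮, s * z ∈ N)
    {x : A} (hx : x ∈ 𝔮 ^ 2 * S ⊔ 𝔮 ^ 4) : s ^ 4 * x ∈ N ^ 2 * S ⊔ N ^ 4 := by
  obtain ⟨x1, h1, x2, h2, rfl⟩ := Submodule.mem_sup.mp hx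
  rw [mul_add]
  refine Ideal.add_mem _ (Ideal.mem_sup_left ?_) (Ideal.mem_sup_right (l2_pow h 4 h2))
  have h3 : s ^ 2 * x1 ∈ N ^ 2 * S := by
    refine Submodule.mul_induction_on h1 (fun a ha b hb => ?_) (fun a b ha hb => ?_)
    · rw [← mul_assoc]
      exact Ideal.mul_mem_mul (l2_pow h 2 ha) hb
    · rw [mul_add]
      exact Ideal.add_mem _ ha hb
  have e : s ^ 4 * x1 = s ^ 2 * (s ^ 2 * x1) := by ring
  rw [e]
  exact Ideal.mul_mem_left _ _ h3

theorem l3_ideal {B : Type} [CommRing B] (I J T : Ideal B) :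
    (I ⊔ J) ^ 2 * (I * T ⊔ J) ⊔ (I ⊔ J) ^ 4 ≤ (I ^ 3 * T ⊔ I ^ 4) ⊔ J := by
  have h1 := l2_sup_pow I J 2
  have h2 := l2_sup_pow I J 4
  refine sup_le ?_ (h2.trans (sup_le (le_sup_of_le_left le_sup_right) le_sup_right))
  have h3 : (I ⊔ J) ^ 2 * (I * T ⊔ J) ≤ (I ^ 2 ⊔ J) * (I * T ⊔ J) := Ideal.mul_mono_left h1
  refine h3.trans ?_
  have h4 : (I ^ 2 ⊔ J) * (I * T ⊔ J) = (I ^ 2 * (I * T) ⊔ I ^ 2 * J) ⊔ J * (I * T ⊔ J) := by
    rw [Ideal.sup_mul, Ideal.mul_sup]
  have h5 : I ^ 2 * J ≤ J := Ideal.mul_le_right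
  have h6 : J * (I * T ⊔ J) ≤ J := Ideal.mul_le_left
  have h7 : I ^ 2 * (I * T) = I ^ 3 * T := by ring
  rw [h4, h7]
  exact sup_le (sup_le (le_sup_of_le_left le_sup_left) (le_sup_of_le_right h5))
    (le_sup_of_le_right h6)

variable {O : Type} [CommRing O] {σ : Type} {g : Option σ → MvPolynomial σ O}
  {o₀ : Option σ}

theorem l3_map_some : (Ideal.span (Set.range fun j => g (some j))).map
      (rename (R := O) (Sum.inl : σ → σ ⊕ _)) ≤
    Ideal.span {rename Sum.inl (g o₀)} * Ideal.span (Set.range fun j => chartT O o₀ (some j)) ⊔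
      Ideal.span (Set.range (chartRel g o₀)) := by
  rw [Ideal.map_span, Ideal.span_le]
  rintro _ ⟨_, ⟨o, rfl⟩, rfl⟩
  have h1 := l2_rel (g := g) (o₀ := o₀) (some o)
  have h2 : rename Sum.inl (g (some o)) = rename Sum.inl (g o₀) * chartT O o₀ (some o) +
      (rename Sum.inl (g (some o)) - rename Sum.inl (g o₀) * chartT O o₀ (some o)) := by ring
  change rename Sum.inl (g (some o)) ∈ _
  rw [h2]
  exact Ideal.add_mem _ (Ideal.mem_sup_left (Ideal.mul_mem_mul
    (Ideal.mem_span_singleton_self _) (Ideal.subset_span ⟨o, rfl⟩))) (Ideal.mem_sup_right h1)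

theorem l3_map {𝔮 : Ideal (MvPolynomial σ O)} {s x : MvPolynomial σ O}
    (h : ∀ z ∈ 𝔮, s * z ∈ Ideal.span (Set.range g))
    (hx : x ∈ 𝔮 ^ 2 * Ideal.span (Set.range fun j => g (some j)) ⊔ 𝔮 ^ 4) :
    ∃ w ∈ Ideal.span (Set.range fun j => chartT O o₀ (some j)),
    ∃ b : MvPolynomial (σ ⊕ {o : Option σ // o ≠ o₀}) O,
      rename Sum.inl (s ^ 4 * x) - rename Sum.inl (g o₀) ^ 3 * (w + rename Sum.inl (g o₀) * b) ∈
        Ideal.span (Set.range (chartRel g o₀)) := by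
  have h1 : rename Sum.inl (s ^ 4 * x) ∈ (Ideal.span (Set.range g) ^ 2 *
      Ideal.span (Set.range fun j => g (some j)) ⊔ Ideal.span (Set.range g) ^ 4).map
      (rename (R := O) (Sum.inl : σ → σ ⊕ {o : Option σ // o ≠ o₀})) :=
    Ideal.mem_map_of_mem _ (l3_mul_le h hx)
  rw [Ideal.map_sup, Ideal.map_mul, Ideal.map_pow, Ideal.map_pow] at h1
  have h2 := sup_le_sup (Ideal.mul_mono (Ideal.pow_right_mono (l2_map (g := g) (o₀ := o₀)) 2)
    (l3_map_some (g := g) (o₀ := o₀))) (Ideal.pow_right_mono (l2_map (g := g) (o₀ := o₀)) 4) h1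
  have h3 := l3_ideal _ _ _ h2
  rw [Ideal.span_singleton_pow, Ideal.span_singleton_pow] at h3
  obtain ⟨y, hy, j, hj, hyj⟩ := Submodule.mem_sup.mp h3
  obtain ⟨y1, hy1, y2, hy2, hy12⟩ := Submodule.mem_sup.mp hy
  obtain ⟨w, hw, hw1⟩ := Ideal.mem_span_singleton_mul.mp hy1
  obtain ⟨b, hb⟩ := Ideal.mem_span_singleton.mp hy2
  refine ⟨w, hw, b, ?_⟩
  have e : rename Sum.inl (s ^ 4 * x) - rename Sum.inl (g o₀) ^ 3 *
      (w + rename Sum.inl (g o₀) * b) = j := by
    rw [← hyj, ← hy12, ← hw1, hb]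
    ring
  rw [e]
  exact hj

end L3aux

variable {O : Type} [CommRing O] [IsDomain O] [IsDiscreteValuationRing O] {σ : Type} [Fintype σ]
  [DecidableEq σ] {D : Type} [CommRing D] [IsDomain D] [IsLocalRing D]
  {φ : MvPolynomial σ O →+* D} {ϖ : O} (hϖ : Irreducible ϖ) (hfin : Finite (O ⧸ Ideal.span {ϖ}))
  {F : MvPolynomial σ O} {𝔮 : Ideal (MvPolynomial σ O)} {Z : Set (MvPolynomial σ O)}
  {z₀ : MvPolynomial σ O} (h : BlowHyp φ ϖ F 𝔮 Z z₀)
include hϖ hfin h

/-- Uses `BlowHyp.chart`, `QNondeg.ext`, `par_indep`. -/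
theorem BlowHyp.reg2 (hF : Odp2 F 𝔮) : IsRegularLocalRing D := by
  obtain ⟨g, c, u, hg, hr, hc, hu⟩ := hF
  obtain ⟨o₀, hg0, ψ, hψ, hψrel, hmain⟩ := BlowHyp.chart hϖ hfin h hg
  have hprime : 𝔮.IsPrime := h.max.isPrime
  obtain ⟨s, hs, hspan⟩ := l2_span hprime.ne_top hg.2
  have hs4 : s ^ 4 ∉ 𝔮 := fun hh => hs (hprime.mem_of_pow_mem _ hh)
  have hs4u : s ^ 4 * u ∉ 𝔮 := fun hh => (hprime.mem_or_mem hh).elim hs4 hu
  obtain ⟨w, hw, b, hb⟩ := l3_map (o₀ := o₀) hspan hr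
  have hker : RingHom.ker ((residue D).comp ψ) = Ideal.comap ψ (maximalIdeal D) := by
    ext x
    rw [RingHom.mem_ker, RingHom.comp_apply, residue_eq_zero_iff, Ideal.mem_comap]
  have hres : ∀ a, (residue D).comp ψ (rename Sum.inl a) = residue D (φ a) := fun a => by
    rw [RingHom.comp_apply, hψ]
  have hq0 : ∀ a, a ∈ 𝔮 ↔ residue D (φ a) = 0 := fun a => by
    rw [residue_eq_zero_iff, h.eq, Ideal.mem_comap]
  have hid : rename Sum.inl (s ^ 4 * F) - rename Sum.inl (g o₀) ^ 2 *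
      (rename Sum.inl (s ^ 4) * qf (fun j l => rename Sum.inl (c j l))
        (fun j => chartT O o₀ (some j)) + rename Sum.inl (g o₀) *
          (rename Sum.inl (s ^ 4 * u) * chartT O o₀ none ^ 3 +
            (w + rename Sum.inl (g o₀) * b))) ∈
        Ideal.span (Set.range (chartRel g o₀)) := by
    rw [← Ideal.Quotient.eq]
    have hπ : ∀ o, Ideal.Quotient.mk (Ideal.span (Set.range (chartRel g o₀)))
        (rename Sum.inl (g o)) = Ideal.Quotient.mk _ (rename Sum.inl (g o₀)) *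
          Ideal.Quotient.mk _ (chartT O o₀ o) := fun o => by
      rw [← map_mul, Ideal.Quotient.eq]
      exact l2_rel o
    have hb' := Ideal.Quotient.eq.mpr hb
    have e1 : F = (F - (∑ j, ∑ k, c j k * (g (some j) * g (some k)) + u * g none ^ 3)) +
        (qf c (fun j => g (some j)) + u * g none ^ 3) := by
      rw [qf]
      ring
    have e2 : Ideal.Quotient.mk (Ideal.span (Set.range (chartRel g o₀)))
        (rename Sum.inl (qf c fun j => g (some j))) =
        Ideal.Quotient.mk _ (rename Sum.inl (g o₀)) ^ 2 *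
        Ideal.Quotient.mk _ (qf (fun j l => rename Sum.inl (c j l))
          (fun j => chartT O o₀ (some j))) := by
      have e3 : rename Sum.inl (qf c fun j => g (some j)) = qf (fun j l => rename Sum.inl (c j l))
        (fun j => (rename Sum.inl (g (some j)) : MvPolynomial (σ ⊕ {o : Option σ // o ≠ o₀}) O)) :=
        l2_map_qf (rename Sum.inl : MvPolynomial σ O →ₐ[O] _).toRingHom c fun j => g (some j)
      have e4 := funext (fun j => hπ (some j))
      rw [e3, l2_map_qf, l2_map_qf, e4, l2_qf_smul]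
    have e5 := hπ none
    rw [e1, mul_add, map_add, map_add, hb']
    simp only [map_mul, map_add, map_pow, e2, e5]
    ring
  have hψG : ψ (rename Sum.inl (g o₀)) ≠ 0 := by
    rw [hψ]
    exact hg0
  have hψFs : ψ (rename Sum.inl (s ^ 4) * qf (fun j l => rename Sum.inl (c j l))
        (fun j => chartT O o₀ (some j)) + rename Sum.inl (g o₀) *
          (rename Sum.inl (s ^ 4 * u) * chartT O o₀ none ^ 3 +
            (w + rename Sum.inl (g o₀) * b))) = 0 := by
    have h1 : Ideal.span (Set.range (chartRel g o₀)) ≤ RingHom.ker ψ := by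
      rw [Ideal.span_le]
      rintro _ ⟨o, rfl⟩
      exact hψrel o
    have h2 : ψ _ = 0 := h1 hid
    rw [map_sub, hψ, map_mul φ, h.zero, mul_zero, zero_sub, neg_eq_zero, map_mul, map_pow] at h2
    exact (mul_eq_zero.mp h2).resolve_left (pow_ne_zero _ hψG)
  have hG : (residue D).comp ψ (rename Sum.inl (g o₀)) = 0 := by
    rw [hres, ← hq0]
    exact hg.1 o₀
  have hs1 : (residue D).comp ψ (rename Sum.inl (s ^ 4)) ≠ 0 := by
    rw [hres, Ne, ← hq0]
    exact hs4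
  have hFs0 : (residue D).comp ψ (rename Sum.inl (s ^ 4) * qf (fun j l => rename Sum.inl (c j l))
        (fun j => chartT O o₀ (some j)) + rename Sum.inl (g o₀) *
          (rename Sum.inl (s ^ 4 * u) * chartT O o₀ none ^ 3 +
            (w + rename Sum.inl (g o₀) * b))) = 0 := by
    rw [RingHom.comp_apply, hψFs, map_zero]
  have hqf : qf (fun j l => (residue D).comp ψ (rename Sum.inl (c j l)))
      (fun j => (residue D).comp ψ (chartT O o₀ (some j))) = 0 := by
    rw [← l2_map_qf]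
    have h1 := hFs0
    rw [map_add, map_mul, map_mul, hG, zero_mul, add_zero] at h1
    exact (mul_eq_zero.mp h1).resolve_left hs1
  have ht0 : (residue D).comp ψ (chartT O o₀ o₀) = 1 := by
    rw [chartT, dif_pos rfl, map_one]
  have hnd : QNondeg (fun j l => (residue D).comp ψ (rename Sum.inl (c j l))) := by
    simp only [hres]
    exact l2_theta hϖ hfin h hc
  refine hmain _ (s ^ 4) hs4 hid fun s' e' c' hs' hmem => ?_
  rw [← residue_eq_zero_iff]
  rw [← hker] at hmem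
  have hs'' : (residue D).comp ψ s' ≠ 0 := by
    rw [RingHom.comp_apply, Ne, residue_eq_zero_iff]
    intro hh
    exact (mem_nonunits_iff.mp ((mem_maximalIdeal _).mp hh)) hs'
  have hrel0 : ∀ o, (residue D).comp ψ (chartRel g o₀ o) = 0 := fun o => by
    rw [RingHom.comp_apply, hψrel, map_zero]
  by_cases hv : (fun j => (residue D).comp ψ (chartT O o₀ (some j))) = 0
  · -- the point is the vertex of the tangent cone
    obtain rfl | ⟨i, rfl⟩ : o₀ = none ∨ ∃ i, o₀ = some i := by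
      cases o₀ with
      | none => exact Or.inl rfl
      | some i => exact Or.inr ⟨i, rfl⟩
    swap
    · exact absurd (ht0.symm.trans (congrFun hv i)) one_ne_zero
    set Θ := (residue D).comp ψ with hΘ
    have hQp : (RingHom.ker Θ).IsPrime := RingHom.ker_isPrime Θ
    have hQ : ∀ p : MvPolynomial σ O, rename Sum.inl p ∈ RingHom.ker Θ ↔ p ∈ 𝔮 := fun p => by
      rw [RingHom.mem_ker, hres, hq0]
    have hGQ : rename Sum.inl (g none) ∈ RingHom.ker Θ := hG
    have hTQ : ∀ j, chartT O none (some j) ∈ RingHom.ker Θ := fun j => congrFun hv j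
    have hXT : ∀ o : {o : Option σ // o ≠ none}, (X (Sum.inr o) : MvPolynomial
        (σ ⊕ {o : Option σ // o ≠ none}) O) = chartT O none o.1 := fun o => by
      rw [chartT, dif_neg o.2]
    have hXQ : ∀ o : {o : Option σ // o ≠ none}, (X (Sum.inr o) : MvPolynomial
        (σ ⊕ {o : Option σ // o ≠ none}) O) ∈ RingHom.ker Θ := by
      rintro ⟨o, ho⟩
      cases o with
      | none => exact absurd rfl ho
      | some j =>
        rw [hXT]
        exact hTQ j
    have hwQ : w ∈ RingHom.ker Θ := by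
      have : Ideal.span (Set.range fun j => chartT O none (some j)) ≤ RingHom.ker Θ := by
        rw [Ideal.span_le]
        rintro _ ⟨j, rfl⟩
        exact hTQ j
      exact this hw
    have hTn : chartT O (none : Option σ) none = 1 := by
      rw [chartT, dif_pos rfl]
    have hsq : ∀ {a b : MvPolynomial (σ ⊕ {o : Option σ // o ≠ none}) O}, a ∈ RingHom.ker Θ →
        b ∈ RingHom.ker Θ → a * b ∈ RingHom.ker Θ ^ 2 := fun ha hb => by
      rw [pow_two]
      exact Ideal.mul_mem_mul ha hb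
    let c'' : Option σ → MvPolynomial (σ ⊕ {o : Option σ // o ≠ none}) O := fun o =>
      o.elim (e' * rename Sum.inl (s ^ 4 * u)) fun j => c' ⟨some j, Option.some_ne_none j⟩
    have hbij : Function.Bijective (fun j : σ => (⟨some j, Option.some_ne_none j⟩ :
        {o : Option σ // o ≠ none})) := by
      constructor
      · intro a b hab
        exact Option.some_injective _ (congrArg Subtype.val hab)
      · rintro ⟨o, ho⟩
        cases o with
        | none => exact absurd rfl ho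
        | some j => exact ⟨j, rfl⟩
    have hsum : ∑ o, c' o * chartRel g none o = ∑ j, c' ⟨some j, Option.some_ne_none j⟩ *
        (rename Sum.inl (g (some j)) - rename Sum.inl (g none) *
          X (Sum.inr ⟨some j, Option.some_ne_none j⟩)) := by
      rw [← (Equiv.ofBijective _ hbij).sum_comp]
      rfl
    have hkey : s' * ∑ o, c'' o * rename Sum.inl (g o) ∈ RingHom.ker Θ ^ 2 := by
      have e1 : s' * ∑ o, c'' o * rename Sum.inl (g o) =
          s' * (∑ o, c' o * chartRel g none o + e' *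
            (rename Sum.inl (s ^ 4) * qf (fun j l => rename Sum.inl (c j l))
            (fun j => chartT O none (some j)) + rename Sum.inl (g none) *
            (rename Sum.inl (s ^ 4 * u) * chartT O none none ^ 3 +
            (w + rename Sum.inl (g none) * b)))) +
          s' * (∑ j, c' ⟨some j, Option.some_ne_none j⟩ * (rename Sum.inl (g none) *
            X (Sum.inr ⟨some j, Option.some_ne_none j⟩))) -
          s' * (e' * (rename Sum.inl (s ^ 4) * qf (fun j l => rename Sum.inl (c j l))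
            (fun j => chartT O none (some j)) + rename Sum.inl (g none) *
            (w + rename Sum.inl (g none) * b))) := by
        rw [hsum, Fintype.sum_option, hTn]
        simp only [c'', Option.elim]
        simp only [mul_sub, Finset.sum_sub_distrib]
        ring
      rw [e1]
      refine Ideal.sub_mem _ (Ideal.add_mem _ hmem (Ideal.mul_mem_left _ _ (Ideal.sum_mem _
        fun j _ => Ideal.mul_mem_left _ _ (hsq hGQ (hXQ _))))) (Ideal.mul_mem_left _ _
        (Ideal.mul_mem_left _ _ (Ideal.add_mem _ (Ideal.mul_mem_left _ _ ?_)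
        (hsq hGQ (Ideal.add_mem _ hwQ (Ideal.mul_mem_right _ _ hGQ))))))
      rw [qf]
      exact Ideal.sum_mem _ fun j _ => Ideal.sum_mem _ fun k _ => Ideal.mul_mem_left _ _
        (hsq (hTQ j) (hTQ k))
    have hfinal := par_indep hϖ hfin h.max h.unif hg hQp hQ (s := s')
      (fun hh => hs'' hh) (c := c'') hkey none
    have h1 : e' * rename Sum.inl (s ^ 4 * u) ∈ RingHom.ker Θ := hfinal
    exact (hQp.mem_or_mem h1).resolve_right (fun hh => hs4u ((hQ _).mp hh))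
  · obtain ⟨k, hk, hqd⟩ : ∃ k, some k ≠ o₀ ∧
        qd (fun j l => (residue D).comp ψ (rename Sum.inl (c j l)))
          (fun j => (residue D).comp ψ (chartT O o₀ (some j))) k ≠ 0 := by
      obtain rfl | ⟨i, rfl⟩ : o₀ = none ∨ ∃ i, o₀ = some i := by
        cases o₀ with
        | none => exact Or.inl rfl
        | some i => exact Or.inr ⟨i, rfl⟩
      · obtain ⟨k, hk⟩ := hnd _ hv hqf
        exact ⟨k, Option.some_ne_none k, hk⟩
      · obtain ⟨k, hk, hqd⟩ := l2_exists hnd hv hqf (i₀ := i) ht0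
        exact ⟨k, fun hh => hk (Option.some_injective _ hh), hqd⟩
    exact l2_final (e := some) (g := g) (o₀ := o₀) (Θ := (residue D).comp ψ) hrel0 hG
      (Option.some_injective _) hs1 hFs0 hk hqd hs'' hmem

end Pool.Agent.Lib.MP_6a3dac_ag.Maj
end

section

/-!
# The local rings of the blow-up of finitely many closed points of a hypersurface
-/

set_option autoImplicit false
set_option linter.unusedSectionVars false

namespace Pool.Agent.Lib.MP_6a3dac_ag.Maj

open MvPolynomial IsLocalRing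
open Pool.Agent.Lib.MP_6a3dac_ag.DNF

section Data

variable {A O : Type} [CommRing A] [CommRing O] {n : ℕ} (π : MvPolynomial (Fin (n + 1)) O →+* A)
  (δ : ℕ) (G : Finset (MvPolynomial (Fin (n + 1)) O))

/-- The generators of the `j`-th ideal. -/
def oset (ϖ : A) (j : ℕ) : Set A :=
  {b | (∃ k, b = ϖ ^ j * π (X k) ^ δ) ∨ ∃ g ∈ G, b = π g}

theorem finite_oset (ϖ : A) (j : ℕ) : (oset π δ G ϖ j).Finite := by
  refine ((Set.finite_range fun k => ϖ ^ j * π (X k) ^ δ).union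
    (G.finite_toSet.image π)).subset ?_
  rintro b (⟨k, rfl⟩ | ⟨g, hg, rfl⟩)
  · exact Or.inl ⟨k, rfl⟩
  · exact Or.inr ⟨g, hg, rfl⟩

end Data

section

variable {R K A O : Type} [CommRing R] [Field K] [Algebra R K] [CommRing A] [IsDomain A]
  [Algebra K A] [Algebra R A] [IsScalarTower R K A] {𝒜 : ℕ → Submodule K A} [GradedAlgebra 𝒜]
  [CommRing O] [IsDomain O] [IsDiscreteValuationRing O] [Algebra R O] [Algebra O K]
  [IsScalarTower R O K] (hOK : Function.Injective (algebraMap O K))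
  (P : Ideal R) [P.IsPrime] [IsLocalization.AtPrime O P] {n : ℕ}
  {π : MvPolynomial (Fin (n + 1)) O →+* A} {f : MvPolynomial (Fin (n + 1)) O} {d : ℕ}
  (h : HypData 𝒜 π f d) (hπC : ∀ c, π (C c) = algebraMap K A (algebraMap O K c))
  {δ : ℕ} (hδ : 1 ≤ δ) {G : Finset (MvPolynomial (Fin (n + 1)) O)}
  (hG : ∀ g ∈ G, g.IsHomogeneous δ)
include h hπC hδ hG

theorem orderHypO (ϖ : O) (r : ℕ) :
    DNF.OrderHyp 𝒜 (fun k => π (X k)) (oset π δ G (oA K A O ϖ)) δ (oA K A O ϖ)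
      (oA K A O).range r
      (locSub P (Algebra.adjoin R (DNF.WSet (fun k => π (X k)) (oset π δ G (oA K A O ϖ)) r ∪
        DNF.W1Set (fun k => π (X k)) (oA K A O ϖ) r))) := by
  have hdeg0 : ∀ c : O, oA K A O c ∈ 𝒜 0 := fun c => SetLike.algebraMap_mem_graded 𝒜 _
  have hpow : ∀ j, (oA K A O ϖ) ^ j ∈ 𝒜 0 := fun j => by
    simpa using SetLike.pow_mem_graded j (hdeg0 ϖ)
  have hx : ∀ k, π (X k) ∈ 𝒜 1 := fun k => h.deg _ _ (isHomogeneous_X O k)
  have hB : ∀ j, ∀ b ∈ oset π δ G (oA K A O ϖ) j, b ∈ 𝒜 δ := by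
    rintro j b (⟨k, rfl⟩ | ⟨g, hg, rfl⟩)
    · have h1 := SetLike.mul_mem_graded (hpow j) (SetLike.pow_mem_graded δ (hx k))
      simpa using h1
    · exact h.deg _ _ (hG g hg)
  have hadj : IsHomog 𝒜 (Algebra.adjoin R (DNF.WSet (fun k => π (X k))
      (oset π δ G (oA K A O ϖ)) r ∪ DNF.W1Set (fun k => π (X k)) (oA K A O ϖ) r)) := by
    apply isHomog_adjoin 𝒜
    rintro w (⟨i, q, ⟨β, hβ, rfl⟩, rfl⟩ | ⟨i, rfl⟩)
    · exact ⟨1 + ∑ j ∈ Finset.Icc 1 r, δ, SetLike.mul_mem_graded (hx i)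
        (SetLike.prod_mem_graded (A := 𝒜) (fun _ => δ) _ fun j hj => hB j _ (hβ j hj))⟩
    · exact ⟨(∑ j ∈ Finset.Icc 1 r, 0) + 1, SetLike.mul_mem_graded
        (SetLike.prod_mem_graded (A := 𝒜) (fun _ => 0) _ fun j _ => hpow j) (hx i)⟩
  exact
    { xdeg := hx
      δpos := hδ
      B_deg := hB
      B_pow := fun j k => Or.inl ⟨k, rfl⟩
      Λdeg := by
        rintro _ ⟨c, rfl⟩
        exact hdeg0 c
      ϖΛ := ⟨ϖ, rfl⟩
      hom := isHomog_locSub 𝒜 P hadj
      Λ_le := by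
        rintro _ ⟨c, rfl⟩
        obtain ⟨s, hs, a, ha⟩ := exists_smul_oA (K := K) (A := A) P c
        refine ⟨s, hs, ?_⟩
        rw [ha]
        exact Subalgebra.algebraMap_mem _ a
      W_le := fun c hc => le_locSub _ _ (Algebra.subset_adjoin (Or.inl hc))
      W1_le := fun c hc => le_locSub _ _ (Algebra.subset_adjoin (Or.inr hc))
      gen := by
        intro N hN1 hN2 hN3 t ht
        obtain ⟨a, ha, hat⟩ := ht
        have hadjN : ∀ m ∈ Algebra.adjoin R (DNF.WSet (fun k => π (X k))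
            (oset π δ G (oA K A O ϖ)) r ∪ DNF.W1Set (fun k => π (X k)) (oA K A O ϖ) r), m ∈ N := by
          intro m hm
          induction hm using Algebra.adjoin_induction with
          | mem m hm =>
            rcases hm with hm | hm
            · exact hN2 _ hm
            · exact hN3 _ hm
          | algebraMap a => exact hN1 _ ⟨algebraMap R O a, oA_algebraMap a⟩
          | add a b _ _ ha hb => exact N.add_mem ha hb
          | mul a b _ _ ha hb => exact N.mul_mem ha hb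
        obtain ⟨b, hb⟩ := (IsLocalization.map_units O (⟨a, ha⟩ : P.primeCompl)).exists_right_inv
        have hab : algebraMap R A a * oA K A O b = 1 := by
          rw [← oA_algebraMap (K := K) (O := O), ← map_mul, hb, map_one]
        have h1 : t = oA K A O b * (a • t) := by
          rw [Algebra.smul_def, ← mul_assoc, mul_comm (oA K A O b), hab, one_mul]
        rw [h1]
        exact N.mul_mem (hN1 _ ⟨b, rfl⟩) (hadjN _ hat) }

include hOK in
theorem mainO {F : Type} [Field F] (ι : A →+* F)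
    (hι : Function.Injective ι) {ϖ : O} (hϖ : Irreducible ϖ)
    (hfin : Finite (O ⧸ Ideal.span {ϖ})) {T : Subalgebra R A}
    (hT : T = locSub P (Algebra.adjoin R (DNF.WSet (fun k => π (X k))
        (oset π δ G (oA K A O ϖ)) 1 ∪ DNF.W1Set (fun k => π (X k)) (oA K A O ϖ) 1)))
    (hsing : ∀ (i : Fin (n + 1)) (𝔮 : Ideal (MvPolynomial {l : Fin (n + 1) // l ≠ i} O)),
      𝔮.IsPrime → dehom i f ∈ 𝔮 →
      (∀ (l : Fin (n + 1)) (hl : l < i), X ⟨l, hl.ne⟩ ∈ 𝔮) →
      ((C ϖ ∉ 𝔮 ∨ ∃ g ∈ G, dehom i g ∉ 𝔮) ∧ ∀ s, s ∉ 𝔮 → s * dehom i f ∉ 𝔮 ^ 2) ∨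
      (C ϖ ∈ 𝔮 ∧ 𝔮.IsMaximal ∧ (∀ g ∈ G, dehom i g ∈ 𝔮) ∧
        (∀ z ∈ 𝔮, ∃ s, s ∉ 𝔮 ∧
          s * z ∈ Ideal.span (insert (C ϖ) {w | ∃ g ∈ G, w = dehom i g})) ∧
        OdpAt (dehom i f) 𝔮))
    (Q : Ideal T) (hQ : Q.IsPrime)
    (hrel : ∃ k, 0 < k ∧ ∃ t : T, (t : A) ∈ 𝒜 k ∧ t ∉ Q) :
    IsRegularLocalRing (homLoc 𝒜 ι T Q) := by
  classical
  have hO : DNF.OrderHyp 𝒜 (fun k => π (X k)) (oset π δ G (oA K A O ϖ)) δ (oA K A O ϖ)
      (oA K A O).range 1 T := by
    rw [hT]; exact orderHypO P h hπC hδ hG ϖ 1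
  -- the first coordinate
  obtain ⟨i, hi, himin⟩ := (wellFounded_lt (α := Fin (n + 1))).has_min
    {i | ∃ β : ℕ → A, (∀ j ∈ Finset.Icc 1 1, β j ∈ oset π δ G (oA K A O ϖ) j) ∧
      ∃ hf : π (X i) * ∏ j ∈ Finset.Icc 1 1, β j ∈ T,
        (⟨π (X i) * ∏ j ∈ Finset.Icc 1 1, β j, hf⟩ : T) ∉ Q} (hO.exists_notMem Q hrel)
  obtain ⟨β₁, hβ₁, hf₁, hfQ₁⟩ := hi
  have h11 : (1 : ℕ) ∈ Finset.Icc 1 1 := by simp
  -- normalization of the second generator
  obtain ⟨β, hβ, hf, hfQ, z₀, hz₀Z, hz₀⟩ : ∃ β : ℕ → A,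
      (∀ j ∈ Finset.Icc 1 1, β j ∈ oset π δ G (oA K A O ϖ) j) ∧
      ∃ hf : π (X i) * ∏ j ∈ Finset.Icc 1 1, β j ∈ T,
        (⟨π (X i) * ∏ j ∈ Finset.Icc 1 1, β j, hf⟩ : T) ∉ Q ∧
        ∃ z₀ : MvPolynomial (Fin (n + 1)) O, (z₀ = C ϖ ∨ z₀ ∈ G) ∧
          ((z₀ = C ϖ ∧ β 1 = oA K A O ϖ * π (X i) ^ δ) ∨ (z₀ ∈ G ∧ β 1 = π z₀)) := by
    rcases hβ₁ 1 h11 with ⟨k, hk⟩ | ⟨g, hg, hk⟩
    · rw [pow_one] at hk
      obtain ⟨hx0, hβ0⟩ := OrderHyp.chart_ne_zero (x := fun k => π (X k)) ι hι Q hf₁ hfQ₁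
      change ι (π (X i)) ≠ 0 at hx0
      have hb : oA K A O ϖ ^ 1 * π (X i) ^ δ ∈ oset π δ G (oA K A O ϖ) 1 := Or.inl ⟨i, rfl⟩
      have hr := hO.ratio_mem ι hι Q hβ₁ hf₁ hfQ₁ h11 hb
      have hck := hO.coord_mem ι hι Q hβ₁ hf₁ hfQ₁ k
      change ι (π (X k)) / ι (π (X i)) ∈ homLoc 𝒜 ι T Q at hck
      rw [pow_one] at hr
      have hβ10 := hβ0 1 h11
      rw [hk, map_mul, map_pow] at hβ10
      have hu : IsUnit (⟨_, hr⟩ : homLoc 𝒜 ι T Q) := by
        refine IsUnit.of_mul_eq_one ((⟨_, hck⟩ : homLoc 𝒜 ι T Q) ^ δ) (Subtype.ext ?_)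
        rw [Subring.coe_mul, Subring.coe_pow]
        change ι (oA K A O ϖ * π (X i) ^ δ) / ι (β₁ 1) *
          (ι (π (X k)) / ι (π (X i))) ^ δ = 1
        have h1 := left_ne_zero_of_mul hβ10
        have h2 := right_ne_zero_of_mul hβ10
        rw [hk, map_mul, map_mul, map_pow, map_pow, div_pow]
        field_simp
      have hw : (fun k => π (X k)) i * ∏ j ∈ Finset.Icc 1 1,
          (fun _ : ℕ => oA K A O ϖ * π (X i) ^ δ) j ∈ DNF.WSet (fun k => π (X k))
            (oset π δ G (oA K A O ϖ)) 1 := by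
        refine ⟨i, _, ⟨fun _ : ℕ => oA K A O ϖ * π (X i) ^ δ, ?_, rfl⟩, rfl⟩
        intro j hj
        have hj1 : j = 1 := by
          rw [Finset.mem_Icc] at hj
          omega
        subst hj1
        exact Or.inl ⟨i, by rw [pow_one]⟩
      have hw₁ : (fun k => π (X k)) i * ∏ j ∈ Finset.Icc 1 1, β₁ j ∈ DNF.WSet (fun k => π (X k))
            (oset π δ G (oA K A O ϖ)) 1 := ⟨i, _, ⟨β₁, hβ₁, rfl⟩, rfl⟩
      refine ⟨fun _ => oA K A O ϖ * π (X i) ^ δ, ?_, hO.W_le _ hw, ?_, C ϖ, Or.inl rfl,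
        Or.inl ⟨rfl, rfl⟩⟩
      · intro j hj
        have hj1 : j = 1 := by
          rw [Finset.mem_Icc] at hj
          omega
        subst hj1
        exact Or.inl ⟨i, by rw [pow_one]⟩
      · refine (isUnit_homLoc_iff 𝒜 ι T Q hι _ (n := δ * 1 + 1)
          (a := ⟨_, hO.W_le _ hw⟩) (s := ⟨_, hf₁⟩) (hO.W_deg hw) (hO.W_deg hw₁) hfQ₁ ?_).mp hu
        change ι (oA K A O ϖ * π (X i) ^ δ) / ι (β₁ 1) *
          ι (π (X i) * ∏ j ∈ Finset.Icc 1 1, β₁ j) =
          ι (π (X i) * ∏ j ∈ Finset.Icc 1 1, (oA K A O ϖ * π (X i) ^ δ))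
        have h3 := hβ0 1 h11
        simp only [Finset.Icc_self, Finset.prod_singleton, map_mul]
        field_simp
    · exact ⟨β₁, hβ₁, hf₁, hfQ₁, g, Or.inr hg, Or.inr ⟨hg, hk⟩⟩
  have hloc := isLocalRing_homLoc 𝒜 ι T Q hι
  obtain ⟨D, hD⟩ : ∃ D, D = homLoc 𝒜 ι T Q := ⟨_, rfl⟩
  have hlocD : IsLocalRing D := hD ▸ hloc
  have hΛD : ∀ c : O, ι (oA K A O c) ∈ D := fun c =>
    hD ▸ hO.const_mem ι hι Q hβ hf hfQ ⟨c, rfl⟩
  obtain ⟨hx0, hβ0⟩ := OrderHyp.chart_ne_zero (x := fun k => π (X k)) ι hι Q hf hfQ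
  change ι (π (X i)) ≠ 0 at hx0
  have hcoord : ∀ k, ι (π (X k)) / ι (π (X i)) ∈ D := fun k =>
    hD ▸ hO.coord_mem ι hι Q hβ hf hfQ k
  have hratio : ∀ b ∈ oset π δ G (oA K A O ϖ) 1, ι b / ι (β 1) ∈ D :=
    fun b hb => hD ▸ hO.ratio_mem ι hι Q hβ hf hfQ h11 hb
  -- characteristic zero
  have hchar : ∀ a : O, a ≠ 0 → ι (oA K A O a) ≠ 0 := by
    intro a ha h0
    have h2 : oA K A O a = 0 := hι (by rw [h0, map_zero])
    rw [oA, RingHom.comp_apply, map_eq_zero] at h2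
    exact ha (hOK (by rw [h2, map_zero]))
  -- the evaluation maps
  let oD : O →+* D := (ι.comp (oA K A O)).codRestrict D fun c => hΛD c
  let ψ : MvPolynomial (Fin (n + 1)) O →+* F := eval₂Hom (ι.comp (oA K A O))
    fun k => ι (π (X k)) / ι (π (X i))
  let φ : MvPolynomial {l : Fin (n + 1) // l ≠ i} O →+* D := eval₂Hom oD
    fun l => ⟨ι (π (X l.1)) / ι (π (X i)), hcoord l.1⟩
  have hφC : ∀ c : O, ((φ (C c) : D) : F) = ι (oA K A O c) := by
    intro c
    simp only [φ, coe_eval₂Hom, eval₂_C]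
    rfl
  have hφψ : ∀ q, ((φ (dehom i q) : D) : F) = ψ q := by
    intro q
    have h1 : (D.subtype.comp φ).comp (dehom i : _ →ₐ[O] _).toRingHom = ψ := by
      apply MvPolynomial.ringHom_ext
      · intro a
        change D.subtype (φ (dehom i (C a))) = ψ (C a)
        rw [dehom_C]
        change ((φ (C a) : D) : F) = _
        rw [hφC]
        simp only [ψ, coe_eval₂Hom, eval₂_C]
        rfl
      · intro k
        change D.subtype (φ (dehom i (X k))) = ψ (X k)
        by_cases hk : k = i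
        · subst hk
          rw [dehom_X_self, map_one, map_one]
          simp only [ψ, coe_eval₂Hom, eval₂_X]
          rw [div_self hx0]
        · rw [show k = (⟨k, hk⟩ : {l : Fin (n + 1) // l ≠ i}).1 from rfl, dehom_X]
          simp only [φ, ψ, coe_eval₂Hom, eval₂_X]
          rfl
    exact congrArg (fun g : MvPolynomial (Fin (n + 1)) O →+* F => g q) h1
  have hψhom : ∀ (e : ℕ) (q : MvPolynomial (Fin (n + 1)) O), q.IsHomogeneous e →
      ι (π q) = ι (π (X i)) ^ e * ψ q := by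
    intro e q hq
    have h1 : ι (π q) = eval₂ (ι.comp (oA K A O)) (fun k => ι (π (X k))) q := by
      have h2 : ι.comp π = eval₂Hom (ι.comp (oA K A O)) (fun k => ι (π (X k))) := by
        apply MvPolynomial.ringHom_ext
        · intro a
          simp only [RingHom.comp_apply, coe_eval₂Hom, eval₂_C]
          rw [hπC]
          rfl
        · intro k
          simp only [RingHom.comp_apply, coe_eval₂Hom, eval₂_X]
      exact congrArg (fun g : MvPolynomial (Fin (n + 1)) O →+* F => g q) h2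
    rw [h1]
    change _ = ι (π (X i)) ^ e * eval₂ (ι.comp (oA K A O))
      (fun k => ι (π (X k)) / ι (π (X i))) q
    rw [eval₂_eq, eval₂_eq, Finset.mul_sum]
    refine Finset.sum_congr rfl fun s hs => ?_
    have h3 : s.degree = e := by
      have := hq (mem_support_iff.mp hs)
      rw [← this, Finsupp.degree_eq_weight_one]
      rfl
    have h4 : ∏ k ∈ s.support, (ι (π (X k)) / ι (π (X i))) ^ s k =
        (∏ k ∈ s.support, ι (π (X k)) ^ s k) / ι (π (X i)) ^ e := by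
      rw [← h3, Finsupp.degree_apply, ← Finset.prod_pow_eq_pow_sum, ← Finset.prod_div_distrib]
      refine Finset.prod_congr rfl fun k _ => ?_
      rw [div_pow]
    rw [h4]
    field_simp
  have hφf : φ (dehom i f) = 0 := by
    apply Subtype.ext
    rw [hφψ]
    have h1 := hψhom d f h.hf
    rw [h.zero, map_zero] at h1
    exact (mul_eq_zero.mp h1.symm).resolve_left (pow_ne_zero _ hx0)
  have hker : ∀ g, φ g = 0 → ∃ m : O, m ≠ 0 ∧ ∃ q, C m * g = dehom i f * q := by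
    intro g hg
    obtain ⟨N, G, hG, rfl⟩ := exists_homog i g
    have h1 := hψhom N G hG
    rw [← hφψ, hg] at h1
    have h2 : π G = 0 := by
      apply hι
      rw [h1, map_zero]
      exact mul_zero _
    obtain ⟨m, hm, q, hq⟩ := h.ker G h2
    refine ⟨m, hm, dehom i q, ?_⟩
    rw [← dehom_C i, ← map_mul, hq, map_mul]
  have hpD : ((φ (C ϖ) : D) : F) = ι (oA K A O ϖ) := hφC ϖ
  have hφXi : φ (dehom i (X i)) = 1 := by rw [dehom_X_self, map_one]
  have hφloc : ∀ g, φ g ∈ locIn φ := map_mem_locIn φ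
  have hx1 : ι (π (X i)) ^ δ ≠ 0 := pow_ne_zero _ hx0
  have hβ10 : ι (β 1) ≠ 0 := hβ0 1 h11
  -- the generator
  have hz₀F : ((φ (dehom i z₀) : D) : F) = ι (β 1) / ι (π (X i)) ^ δ := by
    rcases hz₀ with ⟨h1, h2⟩ | ⟨h1, h2⟩
    · rw [h1, h2, dehom_C, hpD, map_mul, map_pow]
      field_simp
    · rw [h2, hφψ, hψhom δ z₀ (hG _ h1)]
      field_simp
  -- the elements of the set of generators of the ideal
  have hZ : ∀ z, z ∈ (insert (C ϖ) {w | ∃ g ∈ G, w = dehom i g} :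
      Set (MvPolynomial {l : Fin (n + 1) // l ≠ i} O)) →
      ∃ b ∈ oset π δ G (oA K A O ϖ) 1, ((φ z : D) : F) = ι b / ι (π (X i)) ^ δ := by
    rintro z (rfl | ⟨g, hg, rfl⟩)
    · refine ⟨_, Or.inl ⟨i, rfl⟩, ?_⟩
      rw [hpD, pow_one, map_mul, map_pow]
      field_simp
    · refine ⟨_, Or.inr ⟨g, hg, rfl⟩, ?_⟩
      rw [hφψ, hψhom δ g (hG g hg)]
      field_simp
  have hz₀mem : dehom i z₀ ∈ (insert (C ϖ) {w | ∃ g ∈ G, w = dehom i g} :
      Set (MvPolynomial {l : Fin (n + 1) // l ≠ i} O)) := by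
    rcases hz₀Z with h1 | h1
    · left
      rw [h1, dehom_C]
    · right
      exact ⟨z₀, h1, rfl⟩
  have hz₀ne : φ (dehom i z₀) ≠ 0 := by
    intro h0
    have h1 := congrArg (fun z : D => (z : F)) h0
    change ((φ (dehom i z₀) : D) : F) = 0 at h1
    rw [hz₀F, div_eq_zero_iff] at h1
    rcases h1 with h1 | h1
    · exact hβ10 h1
    · exact hx1 h1
  have hdvd : ∀ z ∈ (insert (C ϖ) {w | ∃ g ∈ G, w = dehom i g} :
      Set (MvPolynomial {l : Fin (n + 1) // l ≠ i} O)), φ (dehom i z₀) ∣ φ z := by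
    intro z hz
    obtain ⟨b, hb, hbz⟩ := hZ z hz
    refine ⟨⟨_, hratio b hb⟩, Subtype.ext ?_⟩
    rw [Subring.coe_mul, hz₀F, hbz]
    change _ = ι (β 1) / ι (π (X i)) ^ δ * (ι b / ι (β 1))
    field_simp
  have hgen : ∀ R' : Subring D, Dom R' → locIn φ ≤ R' →
      (∀ z ∈ (insert (C ϖ) {w | ∃ g ∈ G, w = dehom i g} :
        Set (MvPolynomial {l : Fin (n + 1) // l ≠ i} O)), ∀ w,
          φ (dehom i z₀) * w = φ z → w ∈ R') → R' = ⊤ := by
    subst hD
    intro R' hdom hRle hRJ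
    rw [eq_top_iff]
    rintro ⟨z, hz⟩ -
    have h4 := hO.eq_top ι hι Q hβ hf hfQ (R'.map (homLoc 𝒜 ι T Q).subtype) ?_ ?_ ?_ ?_ ?_ z hz
    · obtain ⟨w, hw, hwz⟩ := h4
      have : w = ⟨z, hz⟩ := Subtype.ext hwz
      rwa [← this]
    · rintro _ ⟨w, -, rfl⟩
      exact w.2
    · rintro _ ⟨a, ha, rfl⟩ b hb hab
      exact ⟨⟨b, hb⟩, hdom a ha ⟨b, hb⟩ (Subtype.ext hab), rfl⟩
    · rintro _ ⟨c, rfl⟩
      refine ⟨φ (C c), hRle (hφloc _), ?_⟩
      exact hφC c
    · intro k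
      refine ⟨φ (dehom i (X k)), hRle (hφloc _), ?_⟩
      change ((φ (dehom i (X k)) : homLoc 𝒜 ι T Q) : F) = _
      rw [hφψ]
      simp only [ψ, coe_eval₂Hom, eval₂_X]
    · intro j hj b hb
      have hj1 : j = 1 := by
        rw [Finset.mem_Icc] at hj
        omega
      subst hj1
      rcases hb with ⟨k, rfl⟩ | ⟨g, hg, rfl⟩
      · have hb' : oA K A O ϖ ^ 1 * π (X i) ^ δ ∈ oset π δ G (oA K A O ϖ) 1 :=
          Or.inl ⟨i, rfl⟩
        have h1 : (⟨_, hratio _ hb'⟩ : homLoc 𝒜 ι T Q) ∈ R' := by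
          refine hRJ (C ϖ) (Or.inl rfl) _ (Subtype.ext ?_)
          rw [Subring.coe_mul, hz₀F, hpD]
          change ι (β 1) / ι (π (X i)) ^ δ * (ι (oA K A O ϖ ^ 1 * π (X i) ^ δ) / ι (β 1)) = _
          rw [pow_one, map_mul, map_pow]
          field_simp
        refine ⟨(⟨_, hratio _ hb'⟩ : homLoc 𝒜 ι T Q) * φ (dehom i (X k)) ^ δ,
          R'.mul_mem h1 (R'.pow_mem (hRle (hφloc _)) _), ?_⟩
        change (((⟨_, hratio _ hb'⟩ : homLoc 𝒜 ι T Q) * φ (dehom i (X k)) ^ δ :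
          homLoc 𝒜 ι T Q) : F) = _
        rw [Subring.coe_mul, Subring.coe_pow, hφψ]
        simp only [ψ, coe_eval₂Hom, eval₂_X]
        rw [map_mul, map_mul, map_pow, map_pow, map_pow, div_pow]
        field_simp
      · refine ⟨⟨_, hratio _ (Or.inr ⟨g, hg, rfl⟩)⟩, ?_, rfl⟩
        refine hRJ (dehom i g) (Or.inr ⟨g, hg, rfl⟩) _ (Subtype.ext ?_)
        rw [Subring.coe_mul, hz₀F, hφψ]
        change ι (β 1) / ι (π (X i)) ^ δ * (ι (π g) / ι (β 1)) = _
        rw [hψhom δ g (hG g hg)]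
        field_simp
  -- the point
  have hun : ∀ x, x ∉ Ideal.comap φ (maximalIdeal D) ↔ IsUnit (φ x) := by
    intro x
    rw [Ideal.mem_comap, IsLocalRing.mem_maximalIdeal, mem_nonunits_iff, not_not]
  have hQp : (Ideal.comap φ (maximalIdeal D)).IsPrime := Ideal.IsPrime.comap φ
  have hFQ : dehom i f ∈ Ideal.comap φ (maximalIdeal D) := by
    rw [Ideal.mem_comap, hφf]; exact Ideal.zero_mem _
  have hstr : ∀ (l : Fin (n + 1)) (hl : l < i),
      X ⟨l, hl.ne⟩ ∈ Ideal.comap φ (maximalIdeal D) := by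
    intro l hl
    by_contra hcon
    have h1 := (hun _).mp hcon
    refine himin l ?_ hl
    have hw : (fun k => π (X k)) l * ∏ j ∈ Finset.Icc 1 1, β j ∈ DNF.WSet (fun k => π (X k))
        (oset π δ G (oA K A O ϖ)) 1 := ⟨l, _, ⟨β, hβ, rfl⟩, rfl⟩
    refine ⟨β, hβ, hO.W_le _ hw, ?_⟩
    refine hO.change ι hι Q hβ hf hfQ l (hO.W_le _ hw) ?_
    subst hD
    have h2 : φ (X ⟨l, hl.ne⟩) = (⟨_, hO.coord_mem ι hι Q hβ hf hfQ l⟩ : homLoc 𝒜 ι T Q) := by
      simp only [φ, coe_eval₂Hom, eval₂_X]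
    rw [← h2]
    exact h1
  have hcharD : ∀ m : O, m ≠ 0 → φ (C m) ≠ 0 := by
    intro a ha h0
    apply hchar a ha
    have := congrArg (fun z : D => (z : F)) h0
    change ((φ (C a) : D) : F) = 0 at this
    rw [← hφC]
    exact this
  rcases hsing i _ hQp hFQ hstr with ⟨h1, h2⟩ | ⟨h1, h2, h3, h4, h5⟩
  · -- the blow-up is an isomorphism
    have hz : ∃ z ∈ (insert (C ϖ) {w | ∃ g ∈ G, w = dehom i g} :
        Set (MvPolynomial {l : Fin (n + 1) // l ≠ i} O)), IsUnit (φ z) := by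
      rcases h1 with h1 | ⟨g, hg, h1⟩
      · exact ⟨C ϖ, Or.inl rfl, (hun _).mp h1⟩
      · exact ⟨dehom i g, Or.inr ⟨g, hg, rfl⟩, (hun _).mp h1⟩
    obtain ⟨z, hz, hzu⟩ := hz
    have hu : IsUnit (φ (dehom i z₀)) := isUnit_of_dvd_unit (hdvd z hz) hzu
    have htop : locIn φ = ⊤ := by
      refine hgen (locIn φ) (dom_locIn φ) le_rfl ?_
      intro z hz w hw
      obtain ⟨y, hy⟩ := hu.exists_right_inv
      have h5 : y ∈ locIn φ := dom_locIn φ _ (hφloc _) _ hy
      have h6 : w = y * φ z := by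
        rw [← hw, ← mul_assoc, mul_comm y, hy, one_mul]
      rw [h6]
      exact (locIn φ).mul_mem h5 (hφloc _)
    rw [← hD]
    refine isRegularLocalRing_of_chart φ (fun _ : Fin 1 => dehom i f) (fun _ => hφf) ?_ ?_ ?_
    · intro s hs c hc j
      have hj : j = 0 := Subsingleton.elim _ _
      rw [Fin.sum_univ_one] at hc
      rw [hj]
      by_contra hcon
      refine h2 (s * c 0) (hQp.mul_notMem ((hun s).mpr hs) hcon) ?_
      rw [mul_assoc]
      exact hc
    · intro z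
      have h1 : z ∈ locIn φ := by rw [htop]; exact Subring.mem_top z
      obtain ⟨a, s, h2, h3⟩ := h1
      exact ⟨a, s, h2, h3⟩
    · intro g hg
      obtain ⟨m, hm, q, hq⟩ := hker g hg
      refine ⟨C m, hcharD m hm, ?_⟩
      rw [hq]
      exact Ideal.mul_mem_right _ _ (Ideal.subset_span ⟨0, rfl⟩)
  · -- the blow-up of a double point
    have hB : BlowHyp φ ϖ (dehom i f) (Ideal.comap φ (maximalIdeal D))
        (insert (C ϖ) {w | ∃ g ∈ G, w = dehom i g}) (dehom i z₀) :=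
      { zero := hφf
        ker := hker
        char := hcharD
        eq := rfl
        max := h2
        unif := h1
        Zmem := by
          rintro z (rfl | ⟨g, hg, rfl⟩)
          · exact h1
          · exact h3 g hg
        Zgen := h4
        z₀mem := hz₀mem
        ne := hz₀ne
        dvd := hdvd
        gen := hgen }
    rw [← hD]
    rcases h5 with h5 | h5
    · exact hB.reg1 hϖ hfin h5
    · exact hB.reg2 hϖ hfin h5

end

end Pool.Agent.Lib.MP_6a3dac_ag.Maj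
end
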