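import Pool.Agent.Lib.MP_6a3dac_ag.Mg.G015

section

/-!
# The components of a projective scheme
-/

set_option autoImplicit false

namespace Pool.Agent.Lib.MP_6a3dac_ag.Bert

open MvPolynomial CategoryTheory Limits AlgebraicGeometry HomogeneousLocalization
open Pool.Agent.Lib.MP_6a3dac_ag.DNF
open Pool.Agent.Lib.MP_6a3dac_ag.PC

attribute [local instance] MvPolynomial.gradedAlgebra

/-- The quotient by an ideal generated by an idempotent is open. -/
theorem isOpenImmersion_of_idempotent {B B' : Type} [CommRing B] [CommRing B'] (f : B →+* B')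
    (hf : Function.Surjective f) {e : B} (he : IsIdempotentElem e)
    (hker : RingHom.ker f = Ideal.span {e}) :
    IsOpenImmersion (Spec.map (CommRingCat.ofHom f)) := by
  let _ : Algebra B B' := f.toAlgebra
  have hfe : f e = 0 := by
    rw [← RingHom.mem_ker, hker]
    exact Ideal.mem_span_singleton_self e
  have hf1 : f (1 - e) = 1 := by rw [map_sub, map_one, hfe, sub_zero]
  have hloc : IsLocalization.Away (1 - e) B' := by
    refine ⟨⟨?_, ?_, ?_⟩⟩
    · rintro ⟨_, N, rfl⟩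
      change IsUnit (f ((1 - e) ^ N))
      rw [map_pow, hf1, one_pow]
      exact isUnit_one
    · intro z
      obtain ⟨b, rfl⟩ := hf z
      refine ⟨⟨b, 1⟩, ?_⟩
      change f b * f 1 = f b
      rw [map_one, mul_one]
    · intro x y hxy
      have hxy' : f x = f y := hxy
      have h1 : x - y ∈ RingHom.ker f := by rw [RingHom.mem_ker, map_sub, hxy', sub_self]
      rw [hker, Ideal.mem_span_singleton] at h1
      obtain ⟨c, hc⟩ := h1
      refine ⟨⟨(1 - e) ^ 1, 1, rfl⟩, ?_⟩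
      change (1 - e) ^ 1 * x = (1 - e) ^ 1 * y
      have h2 : e * e = e := he
      have h3 : (1 - e) * (x - y) = 0 := by
        rw [hc]
        linear_combination (-c) * h2
      linear_combination h3
  exact IsOpenImmersion.of_isLocalization (R := B) (S := B') (1 - e)

section

variable {k : Type} [CommRing k] {n : ℕ} {J p : HomIdeal k (n + 1)} (h : J.ideal ≤ p.ideal)

/-- The projection of the homogeneous coordinate rings. -/
noncomputable def hSub : coordGr J.toHom →+*ᵍ coordGr p.toHom where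
  toRingHom := (Ideal.Quotient.factor (S := J.toHom.toIdeal) (T := p.toHom.toIdeal) h)
  map_mem := by
    rintro i _ ⟨f, hf, rfl⟩
    exact ⟨f, hf, rfl⟩

theorem hSub_mk (f : MvPolynomial (Fin (n + 1)) k) :
    hSub h (Ideal.Quotient.mk J.toHom.toIdeal f) = Ideal.Quotient.mk p.toHom.toIdeal f := by
  exact Ideal.Quotient.factor_mk h f

theorem irrelevant_le_map_hSub : HomogeneousIdeal.irrelevant (coordGr p.toHom) ≤
    (HomogeneousIdeal.irrelevant (coordGr J.toHom)).map (hSub h) := by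
  change (HomogeneousIdeal.irrelevant (coordGr p.toHom)).toIdeal ≤
    ((HomogeneousIdeal.irrelevant (coordGr J.toHom)).map (hSub h)).toIdeal
  rw [HomogeneousIdeal.toIdeal_irrelevant_le]
  intro i hi a ha
  obtain ⟨f, hf, rfl⟩ := ha
  change Ideal.Quotient.mk p.toHom.toIdeal f ∈ _
  rw [← hSub_mk h]
  apply Ideal.mem_map_of_mem
  exact HomogeneousIdeal.mem_irrelevant_of_mem _ hi ⟨f, hf, rfl⟩

/-- The inclusion of a closed subscheme. -/
noncomputable def hIncl₀ : Proj (coordGr p.toHom) ⟶ Proj (coordGr J.toHom) :=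
  Proj.map (hSub h) (irrelevant_le_map_hSub h)

/-- The inclusion of a closed subscheme. -/
noncomputable def hIncl : hProj p ⟶ hProj J := hIncl₀ h

theorem I1b_baseToAway (s : CoordQuot J.toHom) (r : k) :
    Away.map (hSub h) s (baseToAway (coordGr J.toHom) s r) =
      baseToAway (coordGr p.toHom) (hSub h s) r := by
  ext
  rw [val_baseToAway]
  change (Away.map (hSub h) s (HomogeneousLocalization.mk _)).val = _
  rw [Away.map, HomogeneousLocalization.map_mk, val_mk, ← Localization.mk_one_eq_algebraMap]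
  rw [Localization.mk_eq_mk_iff, Localization.r_iff_exists]
  refine ⟨1, ?_⟩
  simp only [OneMemClass.coe_one, one_mul]
  change hSub h (algebraMap k (CoordQuot J.toHom) r) =
    hSub h ((1 : coordGr J.toHom 0) : CoordQuot J.toHom) * algebraMap k (CoordQuot p.toHom) r
  rw [show (((1 : coordGr J.toHom 0) : CoordQuot J.toHom)) = 1 from rfl, map_one, one_mul]
  exact hSub_mk h (C r)

theorem I1b_aux : hIncl₀ h ≫ projTo k (coordGr J.toHom) = projTo k (coordGr p.toHom) := by
  refine (Proj.mapAffineOpenCover (hSub h) (irrelevant_le_map_hSub h)).openCover.hom_ext _ _ ?_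
  rintro ⟨i, s⟩
  have h1 := Proj.awayι_comp_map_assoc (hSub h) (irrelevant_le_map_hSub h) i.2
    (s : CoordQuot J.toHom) s.2 (projTo k (coordGr J.toHom))
  have h2 := awayι_projTo (coordGr J.toHom) (s : CoordQuot J.toHom) s.2 i.2
  have h3 := awayι_projTo (coordGr p.toHom) (hSub h (s : CoordQuot J.toHom))
    ((hSub h).2 s.2) i.2
  refine h1.trans ((congrArg (fun z => Spec.map (CommRingCat.ofHom
    (Away.map (hSub h) (s : CoordQuot J.toHom))) ≫ z) h2).trans (Eq.trans ?_ h3.symm))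
  change Spec.map _ ≫ Spec.map _ = _
  rw [← Spec.map_comp, ← CommRingCat.ofHom_comp]
  exact congrArg (fun z => Spec.map (CommRingCat.ofHom z))
    (RingHom.ext fun r => I1b_baseToAway h (s : CoordQuot J.toHom) r)

theorem hIncl_hProjTo : hIncl h ≫ hProjTo J = hProjTo p := by
  exact I1b_aux h

/-- The homogeneous prime ideal of the polynomial ring at a point. -/
noncomputable def ptIdealL (J : HomIdeal k (n + 1)) (y : hProj J) :
    Ideal (MvPolynomial (Fin (n + 1)) k) :=
  Ideal.comap (Ideal.Quotient.mk J.toHom.toIdeal)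
    ((show ProjectiveSpectrum (coordGr J.toHom) from y).asHomogeneousIdeal.toIdeal)

theorem I2_mem_gr {f : MvPolynomial (Fin (n + 1)) k} {e : ℕ} (hf : f.IsHomogeneous e) :
    Ideal.Quotient.mk J.toHom.toIdeal f ∈ coordGr J.toHom e :=
  ⟨f, hf, rfl⟩

theorem I2_decompose (f : MvPolynomial (Fin (n + 1)) k) (e : ℕ) :
    ((DirectSum.decompose (coordGr J.toHom) (Ideal.Quotient.mk J.toHom.toIdeal f) e :
      coordGr J.toHom e) : CoordQuot J.toHom) =
      Ideal.Quotient.mk J.toHom.toIdeal (homogeneousComponent e f) := by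
  classical
  have key : ∀ i : ℕ,
      ((DirectSum.decompose (coordGr J.toHom) (Ideal.Quotient.mk J.toHom.toIdeal
        (homogeneousComponent i f)) e : coordGr J.toHom e) :
        CoordQuot J.toHom) = if i = e then Ideal.Quotient.mk J.toHom.toIdeal
          (homogeneousComponent e f) else 0 := by
    intro i
    have hi := I2_mem_gr (J := J) (homogeneousComponent_isHomogeneous i f)
    split_ifs with h
    · subst h
      exact DirectSum.decompose_of_mem_same _ hi
    · exact DirectSum.decompose_of_mem_ne _ hi h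
  conv_lhs => rw [← sum_homogeneousComponent f]
  rw [map_sum, DirectSum.decompose_sum, DFinsupp.finsetSum_apply,
    AddSubmonoidClass.coe_finsetSum, Finset.sum_congr rfl (fun i _ => key i),
    Finset.sum_ite_eq']
  split_ifs with h
  · rfl
  · rw [Finset.mem_range, not_lt] at h
    rw [homogeneousComponent_eq_zero _ _ (by omega), map_zero]

theorem exists_homIdeal_ptIdeal (y : hProj J) : ∃ q : HomIdeal k (n + 1), q.ideal = ptIdealL J y := by
  refine ⟨⟨ptIdealL J y, ?_⟩, rfl⟩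
  intro f hf e
  change Ideal.Quotient.mk J.toHom.toIdeal (homogeneousComponent e f) ∈
    (show ProjectiveSpectrum (coordGr J.toHom) from y).asHomogeneousIdeal.toIdeal
  rw [← I2_decompose]
  exact (show ProjectiveSpectrum (coordGr J.toHom) from y).asHomogeneousIdeal.isHomogeneous e hf

theorem isPrime_ptIdeal (y : hProj J) : (ptIdealL J y).IsPrime := by
  have hpr : (show ProjectiveSpectrum (coordGr J.toHom) from y).asHomogeneousIdeal.toIdeal.IsPrime :=
    (show ProjectiveSpectrum (coordGr J.toHom) from y).isPrime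
  exact Ideal.comap_isPrime _ _

theorem le_ptIdeal (y : hProj J) : J.ideal ≤ ptIdealL J y := by
  intro f hf
  have h0 : Ideal.Quotient.mk J.toHom.toIdeal f = 0 := Ideal.Quotient.eq_zero_iff_mem.2 hf
  change Ideal.Quotient.mk J.toHom.toIdeal f ∈
    (show ProjectiveSpectrum (coordGr J.toHom) from y).asHomogeneousIdeal.toIdeal
  rw [h0]
  exact Ideal.zero_mem _

theorem exists_X_notMem_ptIdeal (y : hProj J) : ∃ i, X i ∉ ptIdealL J y := by
  by_contra hcon
  push Not at hcon
  apply (show ProjectiveSpectrum (coordGr J.toHom) from y).not_irrelevant_le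
  change (HomogeneousIdeal.irrelevant (coordGr J.toHom)).toIdeal ≤
    (show ProjectiveSpectrum (coordGr J.toHom) from y).asHomogeneousIdeal.toIdeal
  rw [HomogeneousIdeal.toIdeal_irrelevant_le]
  intro e he a ha
  obtain ⟨f, hf, rfl⟩ := ha
  have hf' : f.IsHomogeneous e := (mem_homogeneousSubmodule e f).1 hf
  change f ∈ ptIdealL J y
  rw [f.as_sum]
  refine Ideal.sum_mem _ fun m hm => ?_
  have hdeg : m.degree = e := by
    have := hf' (mem_support_iff.1 hm)
    rw [Finsupp.degree_eq_weight_one]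
    exact this
  have hm0 : m ≠ 0 := by
    rintro rfl
    simp at hdeg
    omega
  obtain ⟨i, hi⟩ := Finsupp.ne_iff.1 hm0
  have h1 : monomial m (coeff m f) =
      monomial (m - Finsupp.single i 1) (coeff m f) * X i := by
    rw [X, monomial_mul, mul_one, tsub_add_cancel_of_le]
    rw [Finsupp.single_le_iff]
    simp only [Finsupp.coe_zero, Pi.zero_apply] at hi
    omega
  rw [h1]
  exact Ideal.mul_mem_left _ _ (hcon i)

/-- The points of the closed subscheme. -/
theorem mem_range_hIncl (y : hProj J) : y ∈ Set.range (hIncl h) ↔ p.ideal ≤ ptIdealL J y := by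
  constructor
  · rintro ⟨x, rfl⟩
    intro f hf
    have h0 : Ideal.Quotient.mk p.toHom.toIdeal f = 0 := Ideal.Quotient.eq_zero_iff_mem.2 hf
    change hSub h (Ideal.Quotient.mk J.toHom.toIdeal f) ∈
      (show ProjectiveSpectrum (coordGr p.toHom) from x).asHomogeneousIdeal.toIdeal
    rw [hSub_mk, h0]
    exact Ideal.zero_mem _
  · intro hle
    set z : ProjectiveSpectrum (coordGr J.toHom) := y with hz
    have hsurj : Function.Surjective (hSub h) := by
      intro a
      obtain ⟨f, rfl⟩ := Ideal.Quotient.mk_surjective a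
      exact ⟨Ideal.Quotient.mk J.toHom.toIdeal f, hSub_mk h f⟩
    have hsurj' : Function.Surjective (hSub h).toRingHom := hsurj
    have hker : RingHom.ker (hSub h).toRingHom ≤ z.asHomogeneousIdeal.toIdeal := by
      intro a ha
      obtain ⟨f, rfl⟩ := Ideal.Quotient.mk_surjective a
      rw [RingHom.mem_ker] at ha
      have ha' : hSub h (Ideal.Quotient.mk J.toHom.toIdeal f) = 0 := ha
      rw [hSub_mk, Ideal.Quotient.eq_zero_iff_mem] at ha'
      exact hle ha'
    have hpr : z.asHomogeneousIdeal.toIdeal.IsPrime := z.isPrime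
    have hcm : (z.asHomogeneousIdeal.toIdeal.map (hSub h).toRingHom).comap (hSub h).toRingHom =
        z.asHomogeneousIdeal.toIdeal := by
      rw [Ideal.comap_map_of_surjective' _ hsurj']
      exact sup_eq_left.2 hker
    have hprime : (z.asHomogeneousIdeal.toIdeal.map (hSub h).toRingHom).IsPrime :=
      Ideal.map_isPrime_of_surjective hsurj' hker
    let w : ProjectiveSpectrum (coordGr p.toHom) :=
      ⟨z.asHomogeneousIdeal.map (hSub h), hprime, by
        intro hirr
        apply z.not_irrelevant_le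
        change (HomogeneousIdeal.irrelevant (coordGr J.toHom)).toIdeal ≤
          z.asHomogeneousIdeal.toIdeal
        rw [HomogeneousIdeal.toIdeal_irrelevant_le]
        intro e he a ha
        have h1 : hSub h a ∈ HomogeneousIdeal.irrelevant (coordGr p.toHom) :=
          HomogeneousIdeal.mem_irrelevant_of_mem _ he ((hSub h).2 ha)
        have h2 : hSub h a ∈ z.asHomogeneousIdeal.toIdeal.map (hSub h).toRingHom := hirr h1
        rw [← hcm]
        exact h2⟩
    refine ⟨w, ?_⟩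
    change (ProjectiveSpectrum.comap (hSub h) (irrelevant_le_map_hSub h) w) = z
    apply ProjectiveSpectrum.ext
    apply HomogeneousIdeal.toIdeal_injective
    exact hcm

theorem I4_irrelevant : (HomogeneousIdeal.irrelevant (coordGr J.toHom)).toIdeal ≤
    Ideal.span (Set.range (sCl J.toHom)) := by
  rw [HomogeneousIdeal.toIdeal_irrelevant_le]
  intro i hi s hs
  obtain ⟨P, hP, rfl⟩ := hs
  change Ideal.Quotient.mk J.toHom.toIdeal P ∈ _
  rw [P.as_sum, map_sum]
  refine Ideal.sum_mem _ fun m hm => ?_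
  have h1 : m ≠ 0 := by
    rintro rfl
    have := hP (mem_support_iff.mp hm)
    simp at this
    omega
  obtain ⟨l, hl⟩ : ∃ l, m l ≠ 0 := by
    by_contra hcon
    push Not at hcon
    exact h1 (Finsupp.ext hcon)
  have h2 : ∀ c : k, monomial m c = X l * monomial (m - Finsupp.single l 1) c := by
    intro c
    conv_lhs => rw [← Finsupp.sub_add_single_one_cancel hl, monomial_add_single, pow_one]
    rw [mul_comm]
  rw [h2, map_mul]
  exact Ideal.mul_mem_right _ _ (Ideal.subset_span ⟨l, rfl⟩)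

/-- A morphism is an open immersion if it is one on the charts. -/
theorem isOpenImmersion_of_charts (hc : ∀ i, IsOpenImmersion
    (Spec.map (CommRingCat.ofHom (Away.map (hSub h) (sCl J.toHom i))))) :
    IsOpenImmersion (hIncl h) := by
  change IsOpenImmersion (hIncl₀ h)
  rw [IsZariskiLocalAtTarget.iff_of_openCover (P := @IsOpenImmersion)
    (Proj.affineOpenCoverOfIrrelevantLESpan (coordGr J.toHom) (sCl J.toHom) (m := fun _ => 1)
      (sCl_mem J.toHom) (fun _ => one_pos) (I4_irrelevant (J := J))).openCover]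
  intro i
  change IsOpenImmersion (pullback.snd (hIncl₀ h)
    (Proj.awayι (coordGr J.toHom) (sCl J.toHom i) (sCl_mem J.toHom i) one_pos))
  have h2 : IsPullback (Spec.map (CommRingCat.ofHom (Away.map (hSub h) (sCl J.toHom i))))
      (Proj.awayι (coordGr p.toHom) (hSub h (sCl J.toHom i)) ((hSub h).2 (sCl_mem J.toHom i))
        one_pos)
      (Proj.awayι (coordGr J.toHom) (sCl J.toHom i) (sCl_mem J.toHom i) one_pos)
      (hIncl₀ h) := by
    apply IsOpenImmersion.isPullback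
    · exact Proj.awayι_comp_map (hSub h) (irrelevant_le_map_hSub h) one_pos _ (sCl_mem J.toHom i)
    · rw [Proj.opensRange_awayι, Proj.opensRange_awayι, hIncl₀, Proj.map_preimage_basicOpen]
  have h3 : pullback.snd (hIncl₀ h)
      (Proj.awayι (coordGr J.toHom) (sCl J.toHom i) (sCl_mem J.toHom i) one_pos) =
      h2.flip.isoPullback.inv ≫
        Spec.map (CommRingCat.ofHom (Away.map (hSub h) (sCl J.toHom i))) := by
    rw [IsPullback.isoPullback_inv_snd]
  rw [h3]
  have := hc i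
  infer_instance

/-- The homomorphism of the chart rings. -/
noncomputable def i5_g (i : Fin (n + 1)) : ChartRing J.toHom i →+* ChartRing p.toHom i :=
  Away.map (hSub h) (sCl J.toHom i)

theorem i5_comm {R S A : Type} [CommRing R] [CommRing S] [CommRing A] [Algebra R S]
    [Algebra R A] (𝒮 : ℕ → Submodule R S) [GradedAlgebra 𝒮] (𝒜 : ℕ → Submodule R A)
    [GradedAlgebra 𝒜] (φ : 𝒮 →+*ᵍ 𝒜) (hφ : ∀ r : R, φ (algebraMap R S r) = algebraMap R A r)
    (s : S) (r : R) : Away.map φ s (baseToAway 𝒮 s r) = baseToAway 𝒜 (φ s) r := by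
  ext
  rw [val_baseToAway]
  change (Away.map φ s (HomogeneousLocalization.mk _)).val = _
  rw [Away.map, HomogeneousLocalization.map_mk, val_mk, ← Localization.mk_one_eq_algebraMap]
  rw [Localization.mk_eq_mk_iff, Localization.r_iff_exists]
  refine ⟨1, ?_⟩
  simp only [OneMemClass.coe_one, one_mul]
  change φ (algebraMap R S r) = φ ((1 : 𝒮 0) : S) * algebraMap R A r
  rw [hφ, show (((1 : 𝒮 0) : S)) = 1 from rfl, map_one, one_mul]

theorem i5_algebraMap (i : Fin (n + 1)) (c : k) :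
    i5_g h i (algebraMap k (ChartRing J.toHom i) c) = algebraMap k (ChartRing p.toHom i) c :=
  i5_comm (coordGr J.toHom) (coordGr p.toHom) (hSub h) (fun _ => rfl) (sCl J.toHom i) c

theorem i5_chartX (i l : Fin (n + 1)) :
    i5_g h i (chartX J.toHom i l) = chartX p.toHom i l :=
  Away.map_mk (hSub h) (sCl J.toHom i) (sCl_mem J.toHom i) 1 (sCl J.toHom l) _

theorem i5_chi (i : Fin (n + 1)) (q : MvPolynomial {l : Fin (n + 1) // l ≠ i} k) :
    i5_g h i (chi J i q) = chi p i q := by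
  induction q using MvPolynomial.induction_on with
  | C c =>
    have h1 : ∀ 𝔞 : HomIdeal k (n + 1), chi 𝔞 i (C c) = algebraMap k (ChartRing 𝔞.toHom i) c :=
      fun 𝔞 => (chi 𝔞 i).commutes c
    rw [h1, h1, i5_algebraMap]
  | add a b ha hb => rw [map_add, map_add, map_add, ha, hb]
  | mul_X a l ha =>
    have h1 : ∀ 𝔞 : HomIdeal k (n + 1), chi 𝔞 i (X l) = chartX 𝔞.toHom i l.1 :=
      fun 𝔞 => aeval_X _ _
    rw [map_mul, map_mul, map_mul, ha, h1, h1, i5_chartX]

/-- The charts of the component. -/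
theorem isOpenImmersion_chart [IsNoetherianRing k] (hLD : ∀ i, LocDom (dId J i))
    (hp : p.ideal ∈ J.ideal.minimalPrimes) (i : Fin (n + 1)) :
    IsOpenImmersion (Spec.map (CommRingCat.ofHom (Away.map (hSub h) (sCl J.toHom i)))) := by
  have hχ := chi_surjective J i
  have hsurj : Function.Surjective (i5_g h i) := by
    intro y
    obtain ⟨q, rfl⟩ := chi_surjective p i y
    exact ⟨chi J i q, i5_chi h i q⟩
  have hg : ∀ q, i5_g h i (chi J i q) = 0 ↔ q ∈ dId p i := fun q => by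
    rw [i5_chi, chi_eq_zero_iff]
  suffices hid : ∃ e : ChartRing J.toHom i, IsIdempotentElem e ∧
      RingHom.ker (i5_g h i) = Ideal.span {e} by
    obtain ⟨e, he, hker⟩ := hid
    exact isOpenImmersion_of_idempotent (i5_g h i) hsurj he hker
  by_cases hi : X i ∈ p.ideal
  · refine ⟨1, IsIdempotentElem.one, ?_⟩
    rw [Ideal.span_singleton_one, Ideal.eq_top_iff_one, RingHom.mem_ker,
      ← map_one (chi J i), hg, ← dehom_X_self i]
    exact dehom_mem_dId p hi
  · have hmin := dId_mem_minimalPrimes J p hp hi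
    have hnoeth : IsNoetherianRing (ChartRing J.toHom i) :=
      isNoetherianRing_of_surjective _ _ (chi J i).toRingHom hχ
    have hLD' : LocDom (⊥ : Ideal (ChartRing J.toHom i)) :=
      LocDom.map_of_surjective (chi J i).toRingHom hχ (chi_eq_zero_iff J i) (hLD i)
    have hkerχ : RingHom.ker (chi J i).toRingHom = dId J i := by
      ext q
      rw [RingHom.mem_ker]
      exact chi_eq_zero_iff J i q
    have hmem : (dId p i).map (chi J i).toRingHom ∈ minimalPrimes (ChartRing J.toHom i) := by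
      have h1 := Ideal.minimalPrimes_map_of_surjective (f := (chi J i).toRingHom) hχ ⊥
      rw [Ideal.map_bot, bot_sup_eq, hkerχ] at h1
      change _ ∈ (⊥ : Ideal (ChartRing J.toHom i)).minimalPrimes
      rw [h1]
      exact ⟨_, hmin, rfl⟩
    obtain ⟨e, he, hspan⟩ := hLD'.exists_idempotent hmem
    refine ⟨e, he, ?_⟩
    rw [← hspan]
    ext x
    obtain ⟨q, rfl⟩ := hχ x
    rw [RingHom.mem_ker, hg, Ideal.mem_map_iff_of_surjective (chi J i).toRingHom hχ]
    constructor
    · intro hq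
      exact ⟨q, hq, rfl⟩
    · rintro ⟨q', hq', hqq'⟩
      have h2 : chi J i (q - q') = 0 := by
        rw [map_sub, sub_eq_zero]
        exact hqq'.symm
      have h3 := dId_mono h ((chi_eq_zero_iff J i _).1 h2)
      have h4 := add_mem h3 hq'
      rwa [sub_add_cancel] at h4

/-- The closed subscheme defined by a minimal prime is open. -/
theorem isOpenImmersion_hIncl [IsNoetherianRing k] (hLD : ∀ i, LocDom (dId J i))
    (hp : p.ideal ∈ J.ideal.minimalPrimes) : IsOpenImmersion (hIncl h) :=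
  isOpenImmersion_of_charts h fun i => isOpenImmersion_chart h hLD hp i

end

/-- **The components.** -/
theorem exists_components {k : Type} [CommRing k] [IsNoetherianRing k] {n : ℕ}
    (J : HomIdeal k (n + 1)) (hLD : ∀ i, LocDom (dId J i)) :
    ∃ (τ : Type) (_ : Finite τ) (p : τ → HomIdeal k (n + 1)) (f : ∀ j, hProj (p j) ⟶ hProj J),
      (∀ j, (p j).ideal ∈ J.ideal.minimalPrimes) ∧ (∀ j, ∃ i, X i ∉ (p j).ideal) ∧
      (∀ j, f j ≫ hProjTo J = hProjTo (p j)) ∧ (∀ j, IsOpenImmersion (f j)) ∧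
      (∀ y : hProj J, ∃ j, y ∈ Set.range (f j)) ∧
      ∀ j j', j ≠ j' → Disjoint (Set.range (f j)) (Set.range (f j')) := by
  classical
  let τ : Type := {q : Ideal (MvPolynomial (Fin (n + 1)) k) //
    q ∈ J.ideal.minimalPrimes ∧ ∃ i, X i ∉ q}
  have hfin : Finite τ := by
    have h1 := Ideal.finite_minimalPrimes_of_isNoetherianRing (MvPolynomial (Fin (n + 1)) k) J.ideal
    exact (h1.subset fun q hq => hq.1 : {q | q ∈ J.ideal.minimalPrimes ∧ ∃ i, X i ∉ q}.Finite)
  choose p hp using fun j : τ => exists_homIdeal_of_minimal J j.2.1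
  have hmin : ∀ j, (p j).ideal ∈ J.ideal.minimalPrimes := fun j => by
    rw [hp j]; exact j.2.1
  have hle : ∀ j, J.ideal ≤ (p j).ideal := fun j => (hmin j).1.2
  refine ⟨τ, hfin, p, fun j => hIncl (hle j), hmin, fun j => ?_, fun j => hIncl_hProjTo (hle j),
    fun j => isOpenImmersion_hIncl (hle j) hLD (hmin j), fun y => ?_, fun j j' hne => ?_⟩
  · rw [hp j]; exact j.2.2
  · have hpr := isPrime_ptIdeal y
    obtain ⟨q, hq, hqle⟩ := Ideal.exists_minimalPrimes_le (le_ptIdeal y)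
    obtain ⟨i, hi⟩ := exists_X_notMem_ptIdeal y
    let j : τ := ⟨q, hq, i, fun h => hi (hqle h)⟩
    refine ⟨j, (mem_range_hIncl (hle j) y).2 ?_⟩
    rw [hp j]
    exact hqle
  · rw [Set.disjoint_left]
    intro y hy hy'
    rw [mem_range_hIncl (hle j) y] at hy
    rw [mem_range_hIncl (hle j') y] at hy'
    obtain ⟨q, hq⟩ := exists_homIdeal_ptIdeal y
    obtain ⟨i, hi⟩ := exists_X_notMem_ptIdeal y
    have h1 := eq_of_minimal J hLD (p j) (p j') q (hmin j) (hmin j')
      (by rw [hq]; exact isPrime_ptIdeal y) (i := i) (by rw [hq]; exact hi)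
      (by rw [hq]; exact hy) (by rw [hq]; exact hy')
    apply hne
    apply Subtype.ext
    rw [← hp j, ← hp j', h1]

end Pool.Agent.Lib.MP_6a3dac_ag.Bert
end

section

/-!
# The regular points of a section
-/

set_option autoImplicit false

namespace Pool.Agent.Lib.MP_6a3dac_ag.Bert

open MvPolynomial CategoryTheory Limits AlgebraicGeometry NumberField IsDedekindDomain
open Pool.Agent.Lib.MP_6a3dac_ag.DNF
open Pool.Agent.Lib.MP_6a3dac_ag.PC

/-- The charts of a regular scheme are regular. -/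
theorem isRegularRing_chart {O : Type} [CommRing O] [IsNoetherianRing O] {n : ℕ}
    (I : HomIdeal O (n + 1)) (hreg : ∀ y : hProj I, IsRegularLocalRing ((hProj I).presheaf.stalk y))
    (i : Fin (n + 1)) : IsRegularRing (ChartRing I.toHom i) :=
  isRegularRing_chartRing I.toHom i hreg

private theorem s1_map_dehom {R S : Type} [CommRing R] [CommRing S] (θ : R →+* S) {n : ℕ}
    (i : Fin (n + 1)) (q : MvPolynomial (Fin (n + 1)) R) :
    dehom i (MvPolynomial.map θ q) = MvPolynomial.map θ (dehom i q) := by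
  induction q using MvPolynomial.induction_on with
  | C a => rw [dehom_C, map_C, map_C, dehom_C]
  | add a b ha hb => rw [map_add, map_add, map_add, map_add, ha, hb]
  | mul_X a k ha =>
    rw [map_mul, map_mul, map_mul, map_mul, ha]
    congr 1
    by_cases hk : k = i
    · subst hk
      rw [dehom_X_self, map_one, map_X, dehom_X_self]
    · rw [map_X, show k = (⟨k, hk⟩ : {l : Fin (n + 1) // l ≠ i}).1 from rfl, dehom_X, dehom_X,
        map_X]

/-- The dehomogenization of the ideal of a section. -/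
theorem dId_secIdeal {O K : Type} [CommRing O] [CommRing K] [Algebra O K] {n d : ℕ}
    (I : HomIdeal O (n + 1)) (a : Mono n d → O) (i : Fin (n + 1)) :
    dId (secIdeal I K a) i = (dId I i).map (MvPolynomial.map (algebraMap O K)) ⊔
      Ideal.span {MvPolynomial.map (algebraMap O K) (dF a i)} := by
  have h1 : (dehom i : MvPolynomial (Fin (n + 1)) K →ₐ[K] _).toRingHom.comp
      (MvPolynomial.map (algebraMap O K)) =
      (MvPolynomial.map (algebraMap O K)).comp (dehom i : _ →ₐ[O] _).toRingHom :=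
    RingHom.ext fun q => s1_map_dehom _ i q
  have h2 : form (fun μ => algebraMap O K (a μ)) = MvPolynomial.map (algebraMap O K) (form a) := by
    simp [form, map_sum, map_prod]
  have h3 : (I.ideal.map (MvPolynomial.map (algebraMap O K))).map
      (dehom i : MvPolynomial (Fin (n + 1)) K →ₐ[K] _).toRingHom =
      (I.ideal.map (dehom i : _ →ₐ[O] _).toRingHom).map (MvPolynomial.map (algebraMap O K)) := by
    rw [Ideal.map_map, h1, Ideal.map_map]
  have h4 : dehom i (form fun μ => algebraMap O K (a μ)) =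
      MvPolynomial.map (algebraMap O K) (dF a i) := by
    rw [h2, s1_map_dehom, dF]
  have h5 : (secIdeal I K a).ideal = I.ideal.map (MvPolynomial.map (algebraMap O K)) ⊔
      Ideal.span {form fun μ => algebraMap O K (a μ)} := rfl
  rw [dId, h5, Ideal.map_sup, Ideal.map_span, Set.image_singleton, h4]
  exact congrArg (· ⊔ Ideal.span {MvPolynomial.map (algebraMap O K) (dF a i)}) h3

/-- Clearing denominators. -/
theorem exists_C_mul_mem {R O σ : Type} [CommRing R] [CommRing O] [Algebra R O]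
    (M : Submonoid R) [IsLocalization M O] (𝔟 : Ideal (MvPolynomial σ R))
    {h : MvPolynomial σ R}
    (hh : MvPolynomial.map (algebraMap R O) h ∈ 𝔟.map (MvPolynomial.map (algebraMap R O))) :
    ∃ m ∈ M, C m * h ∈ 𝔟 := by
  let _ := MvPolynomial.algebraMvPolynomial (R := R) (S := O) (σ := σ)
  have h1 := (IsLocalization.algebraMap_mem_map_algebraMap_iff (M.map (C (σ := σ)))
    (MvPolynomial σ O) 𝔟 h).1 hh
  obtain ⟨_, ⟨m, hm, rfl⟩, h2⟩ := h1
  exact ⟨m, hm, h2⟩

/-- Clearing denominators. -/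
theorem exists_C_mul_eq {R O σ : Type} [CommRing R] [CommRing O] [Algebra R O]
    (M : Submonoid R) [IsLocalization M O] (q : MvPolynomial σ O) :
    ∃ m ∈ M, ∃ q₀ : MvPolynomial σ R,
      MvPolynomial.map (algebraMap R O) q₀ = C (algebraMap R O m) * q := by
  let _ := MvPolynomial.algebraMvPolynomial (R := R) (S := O) (σ := σ)
  obtain ⟨⟨q₀, ⟨_, ⟨m, hm, rfl⟩⟩⟩, h⟩ := IsLocalization.surj (M.map (C (σ := σ))) q
  refine ⟨m, hm, q₀, ?_⟩
  have h2 : q * MvPolynomial.map (algebraMap R O) (C m) = MvPolynomial.map (algebraMap R O) q₀ := h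
  rw [← h2, map_C, mul_comm]

variable {E : Type} [Field E] [NumberField E] {n d : ℕ} {I : HomIdeal (𝓞 E) (n + 1)}
  {a : Mono n d → 𝓞 E} {𝒰 : Charts (𝓞 E) n} {m₀ : 𝓞 E}

theorem notSq_of_smoothIn (hm₀ : m₀ ≠ 0) (h𝒰 : 𝒰.For I m₀) (hsm : SmoothIn 𝒰 I a)
    (i : Fin (n + 1)) (𝔮 : Ideal (MvPolynomial {l : Fin (n + 1) // l ≠ i} (𝓞 E)))
    (h𝔮 : 𝔮.IsPrime) (hI : dId I i ≤ 𝔮) (hc : ∀ c : 𝓞 E, C c ∈ 𝔮 → c = 0) (hF : dF a i ∈ 𝔮) :
    NotSq (dId I i) (dF a i) 𝔮 := by
  have ht : ∃ t, (𝒰.U i t).h ∉ 𝔮 := by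
    by_contra hcon
    push Not at hcon
    apply hm₀
    apply hc
    have hle : dId I i ⊔ Ideal.span (Set.range fun t => (𝒰.U i t).h) ≤ 𝔮 := by
      refine sup_le hI (Ideal.span_le.2 ?_)
      rintro _ ⟨t, rfl⟩
      exact hcon t
    exact hle (h𝒰.cover i)
  obtain ⟨t, ht⟩ := ht
  obtain ⟨e, -, hev⟩ := hsm i t 𝔮 h𝔮 hI hc ht hF
  refine (h𝒰.is i t).notSq h𝔮 hI hF ?_ hev
  intro hs
  apply ht
  rw [Std.h]
  exact Ideal.mul_mem_right _ _ hs

/-- A prime ideal over a closed point is an intersection of maximal ideals. -/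
private theorem s3_maximal {B J : Type} [CommRing B] [CommRing J] [IsJacobsonRing J] (π : B →+* J)
    (hπ : Function.Surjective π) {𝔮 : Ideal B} (h𝔮 : 𝔮.IsPrime) (hk : RingHom.ker π ≤ 𝔮) {z : B}
    (hz : z ∉ 𝔮) : ∃ 𝔫 : Ideal B, 𝔫.IsMaximal ∧ 𝔮 ≤ 𝔫 ∧ z ∉ 𝔫 := by
  have hprime : (𝔮.map π).IsPrime := Ideal.map_isPrime_of_surjective hπ hk
  have hz' : π z ∉ 𝔮.map π := by
    intro h
    obtain ⟨v, hv, hv2⟩ := (Ideal.mem_map_iff_of_surjective π hπ).1 h
    have h1 : z - v ∈ 𝔮 := hk (by rw [RingHom.mem_ker, map_sub, hv2, sub_self])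
    exact hz (by simpa using 𝔮.add_mem h1 hv)
  have hjac : (𝔮.map π).jacobson = 𝔮.map π := IsJacobsonRing.out inferInstance hprime.isRadical
  rw [← hjac, Ideal.jacobson, Ideal.mem_sInf] at hz'
  push Not at hz'
  obtain ⟨𝔫, ⟨hle, hmax⟩, hzn⟩ := hz'
  exact ⟨𝔫.comap π, Ideal.comap_isMaximal_of_surjective π hπ, Ideal.map_le_iff_le_comap.1 hle, hzn⟩

theorem notSq_of_totReg {P : HeightOneSpectrum (𝓞 E)} (hP : TotReg I P a)
    (i : Fin (n + 1)) (𝔮 : Ideal (MvPolynomial {l : Fin (n + 1) // l ≠ i} (𝓞 E)))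
    (h𝔮 : 𝔮.IsPrime) (hI : dId I i ≤ 𝔮) (hPq : P.asIdeal.map C ≤ 𝔮) :
    NotSq (dId I i) (dF a i) 𝔮 := by
  intro z hz hmem
  have hmax : P.asIdeal.IsMaximal := P.isMaximal
  let _ : Field (𝓞 E ⧸ P.asIdeal) := Ideal.Quotient.field P.asIdeal
  have hπ : Function.Surjective (MvPolynomial.map (Ideal.Quotient.mk P.asIdeal) :
      MvPolynomial {l : Fin (n + 1) // l ≠ i} (𝓞 E) →+* _) :=
    MvPolynomial.map_surjective _ Ideal.Quotient.mk_surjective
  obtain ⟨𝔫, hn, hle, hzn⟩ := s3_maximal (MvPolynomial.map (Ideal.Quotient.mk P.asIdeal)) hπ h𝔮 (by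
    rw [MvPolynomial.ker_map, Ideal.mk_ker]
    exact hPq) hz
  refine hP i 𝔫 hn (hI.trans hle) (hPq.trans hle) ?_
  have hmem' : z * dF a i ∈ 𝔫 ^ 2 ⊔ dId I i :=
    (sup_le_sup_right (Ideal.pow_right_mono hle 2) _) hmem
  obtain ⟨w, hw⟩ : ∃ w, 1 - w * z ∈ 𝔫 := by
    obtain ⟨w, v, hv, hw⟩ := hn.exists_inv hzn
    refine ⟨w, ?_⟩
    rw [← hw, add_sub_cancel_left]
    exact hv
  have h2 : (1 - w * z) ^ 2 ∈ 𝔫 ^ 2 := Ideal.pow_mem_pow hw 2
  change dF a i ∈ 𝔫 ^ 2 ⊔ dId I i
  have h3 : dF a i = (1 - w * z) ^ 2 * dF a i + (2 * w - w ^ 2 * z) * (z * dF a i) := by ring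
  rw [h3]
  exact Ideal.add_mem _ (Ideal.mul_mem_right _ _ (Ideal.mem_sup_left h2))
    (Ideal.mul_mem_left _ _ hmem')

/-- The local rings of the section over the number field are domains. -/
theorem locDom_secIdeal (hreg : ∀ y : hProj I, IsRegularLocalRing ((hProj I).presheaf.stalk y))
    (hm₀ : m₀ ≠ 0) (h𝒰 : 𝒰.For I m₀) (hsm : SmoothIn 𝒰 I a) (i : Fin (n + 1)) :
    LocDom (dId (secIdeal I E a) i) := by
  intro 𝔮 h𝔮 hle x y hxy
  have hJ := dId_secIdeal (K := E) I a i
  set φ : MvPolynomial {l : Fin (n + 1) // l ≠ i} (𝓞 E) →+*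
    MvPolynomial {l : Fin (n + 1) // l ≠ i} E := MvPolynomial.map (algebraMap (𝓞 E) E) with hφ
  have hJ' : dId (secIdeal I E a) i = (dId I i ⊔ Ideal.span {dF a i}).map φ := by
    rw [hJ, Ideal.map_sup, Ideal.map_span, Set.image_singleton]
  have hunit : ∀ c : 𝓞 E, c ≠ 0 → IsUnit (C (algebraMap (𝓞 E) E c) :
      MvPolynomial {l : Fin (n + 1) // l ≠ i} E) := by
    intro c hc
    have h1 : algebraMap (𝓞 E) E c ≠ 0 := by
      rw [Ne, FaithfulSMul.algebraMap_eq_zero_iff]
      exact hc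
    exact h1.isUnit.map C
  have hnot : ∀ c : 𝓞 E, c ≠ 0 → (C (algebraMap (𝓞 E) E c) :
      MvPolynomial {l : Fin (n + 1) // l ≠ i} E) ∉ 𝔮 := fun c hc h =>
    h𝔮.ne_top (Ideal.eq_top_of_isUnit_mem _ h (hunit c hc))
  have h𝔮₀ : (𝔮.comap φ).IsPrime := Ideal.comap_isPrime φ 𝔮
  have hb𝔮 : dId I i ⊔ Ideal.span {dF a i} ≤ 𝔮.comap φ := by
    rw [← Ideal.map_le_iff_le_comap, ← hJ']
    exact hle
  have hI : dId I i ≤ 𝔮.comap φ := le_sup_left.trans hb𝔮
  have hF : dF a i ∈ 𝔮.comap φ :=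
    hb𝔮 (Ideal.mem_sup_right (Ideal.subset_span (Set.mem_singleton _)))
  have hc : ∀ c : 𝓞 E, C c ∈ 𝔮.comap φ → c = 0 := by
    intro c hc
    by_contra hc0
    rw [Ideal.mem_comap, hφ, map_C] at hc
    exact hnot c hc0 hc
  have hns := notSq_of_smoothIn hm₀ h𝒰 hsm i (𝔮.comap φ) h𝔮₀ hI hc hF
  obtain ⟨m₁, hm₁, x₀, hx₀⟩ := exists_C_mul_eq (nonZeroDivisors (𝓞 E)) x
  obtain ⟨m₂, hm₂, y₀, hy₀⟩ := exists_C_mul_eq (nonZeroDivisors (𝓞 E)) y
  have hxy' : φ (x₀ * y₀) ∈ (dId I i ⊔ Ideal.span {dF a i}).map φ := by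
    rw [map_mul, hφ, hx₀, hy₀, ← hφ, ← hJ']
    have h2 : C (algebraMap (𝓞 E) E m₁) * x * (C (algebraMap (𝓞 E) E m₂) * y) =
        C (algebraMap (𝓞 E) E m₁) * C (algebraMap (𝓞 E) E m₂) * (x * y) := by ring
    rw [h2]
    exact Ideal.mul_mem_left _ _ hxy
  obtain ⟨m₃, hm₃, h3⟩ := exists_C_mul_mem (nonZeroDivisors (𝓞 E)) _ hxy'
  have hreg' : IsRegularRing (ChartRing I.toHom i) := isRegularRing_chart I hreg i
  have hχ : Function.Surjective (chi I i).toRingHom := chi_surjective I i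
  rw [← mul_assoc] at h3
  have h0 : ∀ m ∈ nonZeroDivisors (𝓞 E), m ≠ 0 := fun m hm => nonZeroDivisors.ne_zero hm
  rcases locally_prime_of_notSq' (chi I i).toRingHom hχ (chi_eq_zero_iff I i) h𝔮₀ hI hF hns h3
    with ⟨z, hz, hzx⟩ | ⟨z, hz, hzy⟩
  · left
    refine ⟨φ z * (C (algebraMap (𝓞 E) E m₃) * C (algebraMap (𝓞 E) E m₁)), ?_, ?_⟩
    · intro h4
      rcases h𝔮.mem_or_mem h4 with h5 | h5
      · exact hz h5
      · rcases h𝔮.mem_or_mem h5 with h6 | h6
        · exact hnot m₃ (h0 m₃ hm₃) h6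
        · exact hnot m₁ (h0 m₁ hm₁) h6
    · have h4 := Ideal.mem_map_of_mem φ hzx
      rw [← hJ', map_mul, map_mul, hφ, map_C, hx₀, ← hφ] at h4
      have h5 : φ z * (C (algebraMap (𝓞 E) E m₃) * C (algebraMap (𝓞 E) E m₁)) * x =
          φ z * (C (algebraMap (𝓞 E) E m₃) * (C (algebraMap (𝓞 E) E m₁) * x)) := by ring
      rw [h5]
      exact h4
  · right
    refine ⟨φ z * C (algebraMap (𝓞 E) E m₂), ?_, ?_⟩
    · intro h4
      rcases h𝔮.mem_or_mem h4 with h5 | h5
      · exact hz h5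
      · exact hnot m₂ (h0 m₂ hm₂) h5
    · have h4 := Ideal.mem_map_of_mem φ hzy
      rw [← hJ', map_mul, hφ, hy₀, ← hφ, ← mul_assoc] at h4
      exact h4

private theorem s5_one (hsm : SmoothIn 𝒰 I a) (i : Fin (n + 1)) (t : 𝒰.τ i) :
    ∃ m : 𝓞 E, m ≠ 0 ∧ ∃ N : ℕ, C m * (𝒰.U i t).h ^ N ∈ dId I i ⊔ Ideal.span (insert (dF a i)
        {x | ∃ e ∈ (𝒰.U i t).T, x = (𝒰.U i t).vf e (dF a i)}) := by
  by_contra hcon
  push Not at hcon
  have hdis : Disjoint ((dId I i ⊔ Ideal.span (insert (dF a i)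
        {x | ∃ e ∈ (𝒰.U i t).T, x = (𝒰.U i t).vf e (dF a i)}) :
        Ideal (MvPolynomial {l : Fin (n + 1) // l ≠ i} (𝓞 E))) :
        Set (MvPolynomial {l : Fin (n + 1) // l ≠ i} (𝓞 E)))
      (((nonZeroDivisors (𝓞 E)).map (C : 𝓞 E →+* MvPolynomial {l : Fin (n + 1) // l ≠ i} (𝓞 E)) ⊔
        Submonoid.powers (𝒰.U i t).h : Submonoid (MvPolynomial {l : Fin (n + 1) // l ≠ i} (𝓞 E))) :
        Set (MvPolynomial {l : Fin (n + 1) // l ≠ i} (𝓞 E))) := by
    rw [Set.disjoint_left]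
    intro x hx hxS
    rw [SetLike.mem_coe, Submonoid.mem_sup] at hxS
    obtain ⟨y, hy, z, hz, rfl⟩ := hxS
    obtain ⟨m, hm, rfl⟩ := hy
    obtain ⟨N, rfl⟩ := hz
    exact hcon m (nonZeroDivisors.ne_zero hm) N hx
  obtain ⟨𝔮, h𝔮, hle, hd⟩ := Ideal.exists_le_prime_disjoint _ _ hdis
  rw [Set.disjoint_left] at hd
  have hI : dId I i ≤ 𝔮 := le_sup_left.trans hle
  have hspan := le_sup_right.trans hle
  have hF : dF a i ∈ 𝔮 := hspan (Ideal.subset_span (Set.mem_insert _ _))
  have hc : ∀ c : 𝓞 E, C c ∈ 𝔮 → c = 0 := by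
    intro c hc
    by_contra h0
    refine hd hc ?_
    exact Submonoid.mem_sup_left (Submonoid.mem_map_of_mem _ (mem_nonZeroDivisors_of_ne_zero h0))
  have hh : (𝒰.U i t).h ∉ 𝔮 := fun h =>
    hd h (Submonoid.mem_sup_right (Submonoid.mem_powers _))
  obtain ⟨e, he, hev⟩ := hsm i t 𝔮 h𝔮 hI hc hh hF
  exact hev (hspan (Ideal.subset_span (Set.mem_insert_of_mem _ ⟨e, he, rfl⟩)))

/-- The Jacobian ideals over the ring of integers. -/
theorem exists_jac (hsm : SmoothIn 𝒰 I a) :
    ∃ m : 𝓞 E, m ≠ 0 ∧ ∀ (i : Fin (n + 1)) (t : 𝒰.τ i), ∃ N : ℕ,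
      C m * (𝒰.U i t).h ^ N ∈ dId I i ⊔ Ideal.span (insert (dF a i)
        {x | ∃ e ∈ (𝒰.U i t).T, x = (𝒰.U i t).vf e (dF a i)}) := by
  classical
  choose m hm N hN using fun x : (Σ i, 𝒰.τ i) => s5_one hsm x.1 x.2
  refine ⟨∏ x, m x, Finset.prod_ne_zero_iff.2 fun x _ => hm x, fun i t => ⟨N ⟨i, t⟩, ?_⟩⟩
  rw [← Finset.mul_prod_erase Finset.univ m (Finset.mem_univ ⟨i, t⟩), C_mul, mul_comm (C _) (C _),
    mul_assoc]
  exact Ideal.mul_mem_left _ _ (hN ⟨i, t⟩)

end Pool.Agent.Lib.MP_6a3dac_ag.Bert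
end

section

/-!
# Smoothness of the section over the number field
-/

set_option autoImplicit false

namespace Pool.Agent.Lib.MP_6a3dac_ag.Bert

open MvPolynomial CategoryTheory Limits AlgebraicGeometry NumberField IsDedekindDomain
open Pool.Agent.Lib.MP_6a3dac_ag.DNF
open Pool.Agent.Lib.MP_6a3dac_ag.PC

/-- The first order expansion. -/
private theorem f1_taylor {k σ B : Type} [CommRing k] [Fintype σ] [CommRing B] [Algebra k B]
    {N : Ideal B} (hN : ∀ u ∈ N, ∀ v ∈ N, u * v = 0) (y ε : σ → B) (hε : ∀ l, ε l ∈ N)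
    (f : MvPolynomial σ k) :
    aeval (fun l => y l + ε l) f = aeval y f + ∑ l, ε l * aeval y (pderiv l f) := by
  classical
  induction f using MvPolynomial.induction_on with
  | C a => simp
  | add p q hp hq =>
    rw [map_add, hp, hq, map_add]
    simp only [map_add, mul_add, Finset.sum_add_distrib]
    ring
  | mul_X p i hp =>
    rw [map_mul, hp, aeval_X, map_mul, aeval_X]
    have h1 : ∀ l, ε l * aeval y (pderiv l (p * X i)) =
        ε l * aeval y (pderiv l p) * y i + (if l = i then ε i * aeval y p else 0) := by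
      intro l
      rw [Derivation.leibniz, map_add, smul_eq_mul, smul_eq_mul, map_mul, map_mul, aeval_X,
        pderiv_X, Pi.single_apply]
      by_cases h : l = i
      · subst h
        rw [if_pos rfl, if_pos rfl, map_one]
        ring
      · rw [if_neg (Ne.symm h), if_neg h, map_zero]
        ring
    have h2 : (∑ l, ε l * aeval y (pderiv l p)) * ε i = 0 := by
      rw [Finset.sum_mul]
      refine Finset.sum_eq_zero fun l _ => ?_
      have h3 := hN _ (hε l) _ (hε i)
      linear_combination (aeval y (pderiv l p)) * h3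
    rw [Finset.sum_congr rfl fun l _ => h1 l, Finset.sum_add_distrib, Finset.sum_ite_eq' Finset.univ i,
      if_pos (Finset.mem_univ i), ← Finset.sum_mul]
    linear_combination h2

/-- The correction of an approximate solution. -/
theorem exists_correction {k σ B : Type} [CommRing k] [Fintype σ] [DecidableEq σ] (U : Std k σ)
    (F : MvPolynomial σ k) (e : σ) [CommRing B] [Algebra k B] {N : Ideal B}
    (hN : ∀ u ∈ N, ∀ v ∈ N, u * v = 0) (y : σ → B) (hg : ∀ κ, aeval y (U.g κ) ∈ N)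
    (hF : aeval y F ∈ N) (hΔ : IsUnit (aeval y U.Δ)) (hv : IsUnit (aeval y (U.vf e F))) :
    ∃ ε : σ → B, (∀ l, ε l ∈ N) ∧ (∀ κ, aeval (fun l => y l + ε l) (U.g κ) = 0) ∧
      aeval (fun l => y l + ε l) F = 0 := by
  obtain ⟨u, hu⟩ := hΔ.exists_right_inv
  obtain ⟨w, hw⟩ := hv.exists_right_inv
  let δ : σ → B := fun l => if h : l ∈ U.T then 0 else
    -(u * ∑ κ, aeval y (U.J.adjugate ⟨l, h⟩ κ) * aeval y (U.g κ))
  have hδN : ∀ l, δ l ∈ N := by
    intro l
    by_cases h : l ∈ U.T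
    · simp only [δ, dif_pos h]
      exact N.zero_mem
    · simp only [δ, dif_neg h]
      exact N.neg_mem (N.mul_mem_left _ (Ideal.sum_mem _ fun κ _ => N.mul_mem_left _ (hg κ)))
  have hδg : ∀ κ, ∑ l, δ l * aeval y (pderiv l (U.g κ)) = - aeval y (U.g κ) := by
    intro κ
    have h1 : ∑ l, δ l * aeval y (pderiv l (U.g κ)) =
        ∑ l : {l : σ // l ∉ U.T}, δ l.1 * aeval y (pderiv l.1 (U.g κ)) := by
      rw [← Finset.sum_add_sum_compl U.T]
      rw [Finset.sum_eq_zero, zero_add]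
      · exact Finset.sum_subtype U.Tᶜ (fun x => by simp) _
      · intro l hl
        simp only [δ, dif_pos hl, zero_mul]
    rw [h1]
    have h2 : ∀ l : {l : σ // l ∉ U.T}, δ l.1 * aeval y (pderiv l.1 (U.g κ)) =
        -(u * ∑ κ', (aeval y (U.J κ l) * aeval y (U.J.adjugate l κ')) * aeval y (U.g κ')) := by
      intro l
      simp only [δ, dif_neg l.2]
      rw [show U.J κ l = pderiv l.1 (U.g κ) from rfl, neg_mul, mul_assoc, Finset.sum_mul]
      congr 2
      exact Finset.sum_congr rfl fun κ' _ => by ring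
    rw [Finset.sum_congr rfl fun l _ => h2 l, Finset.sum_neg_distrib, ← Finset.mul_sum,
      Finset.sum_comm]
    have h3 : ∀ κ', ∑ l : {l : σ // l ∉ U.T}, (aeval y (U.J κ l) * aeval y (U.J.adjugate l κ')) *
        aeval y (U.g κ') = aeval y ((U.J * U.J.adjugate) κ κ') * aeval y (U.g κ') := by
      intro κ'
      rw [← Finset.sum_mul, Matrix.mul_apply, map_sum]
      simp only [map_mul]
    rw [Finset.sum_congr rfl fun κ' _ => h3 κ', Matrix.mul_adjugate]
    have h4 : ∀ κ', aeval y ((U.J.det • (1 : Matrix {l : σ // l ∉ U.T} {l : σ // l ∉ U.T}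
        (MvPolynomial σ k))) κ κ') * aeval y (U.g κ') =
        if κ = κ' then aeval y U.Δ * aeval y (U.g κ) else 0 := by
      intro κ'
      rw [Matrix.smul_apply, Matrix.one_apply, smul_eq_mul]
      by_cases h : κ = κ'
      · subst h
        rw [if_pos rfl, if_pos rfl, mul_one]
        rfl
      · rw [if_neg h, if_neg h, mul_zero, map_zero, zero_mul]
    rw [Finset.sum_congr rfl fun κ' _ => h4 κ', Finset.sum_ite_eq, if_pos (Finset.mem_univ κ)]
    linear_combination (- aeval y (U.g κ)) * hu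
  let μ : B := -(w * (aeval y F + ∑ l, δ l * aeval y (pderiv l F)))
  have hμN : μ ∈ N := by
    refine N.neg_mem (N.mul_mem_left _ (N.add_mem hF (Ideal.sum_mem _ fun l _ => ?_)))
    exact N.mul_mem_right _ (hδN l)
  let ε : σ → B := fun l => δ l + μ * aeval y (U.vc e l)
  have hεN : ∀ l, ε l ∈ N := fun l => N.add_mem (hδN l) (N.mul_mem_right _ hμN)
  have hsum : ∀ f : MvPolynomial σ k, ∑ l, ε l * aeval y (pderiv l f) =
      ∑ l, δ l * aeval y (pderiv l f) + μ * aeval y (U.vf e f) := by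
    intro f
    rw [U.vf_eq_sum, map_sum, Finset.mul_sum, ← Finset.sum_add_distrib]
    refine Finset.sum_congr rfl fun l _ => ?_
    rw [map_mul]
    simp only [ε]
    ring
  refine ⟨ε, hεN, fun κ => ?_, ?_⟩
  · rw [f1_taylor hN y ε hεN, hsum, hδg, U.vf_gL, map_zero]
    ring
  · rw [f1_taylor hN y ε hεN, hsum]
    linear_combination (-(aeval y F + ∑ l, δ l * aeval y (pderiv l F))) * hw

theorem f2_isUnit {B : Type} [CommRing B] {I : Ideal B} (hI2 : ∀ u ∈ I, ∀ v ∈ I, u * v = 0)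
    {x : B} (hx : IsUnit (Ideal.Quotient.mk I x)) : IsUnit x := by
  obtain ⟨y', hy'⟩ := hx.exists_right_inv
  obtain ⟨y, rfl⟩ := Ideal.Quotient.mk_surjective y'
  have hu : x * y - 1 ∈ I := by
    rw [← Ideal.Quotient.eq_zero_iff_mem, map_sub, map_mul, hy', map_one, sub_self]
  have h2 := hI2 _ hu _ hu
  refine IsUnit.of_mul_eq_one (y * (1 - (x * y - 1))) ?_
  linear_combination (-1 : B) * h2

/-- Smoothness where a vector field does not kill the section. -/
theorem formallySmooth_away {k σ B : Type} [Field k] [Fintype σ] [DecidableEq σ] (U : Std k σ)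
    {𝔞 : Ideal (MvPolynomial σ k)} (hU : U.For 𝔞) (F : MvPolynomial σ k) (e : σ) [CommRing B]
    [Algebra k B] (χ : MvPolynomial σ k →ₐ[k] B) (hχ : Function.Surjective χ)
    (hker : ∀ f, χ f = 0 ↔ f ∈ 𝔞 ⊔ Ideal.span {F}) :
    Algebra.FormallySmooth k (Localization.Away (χ (U.h * U.vf e F))) := by
  classical
  apply Algebra.FormallySmooth.of_comp_surjective
  intro R _ _ I hI g
  have hI2 : ∀ u ∈ I, ∀ v ∈ I, u * v = 0 := by
    intro u hu v hv
    have h1 : u * v ∈ I ^ 2 := by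
      rw [pow_two]
      exact Ideal.mul_mem_mul hu hv
    rw [hI] at h1
    exact h1
  let L := Localization.Away (χ (U.h * U.vf e F))
  let ι : B →ₐ[k] L := IsScalarTower.toAlgHom k B L
  let p : MvPolynomial σ k →ₐ[k] R ⧸ I := g.comp (ι.comp χ)
  have hpw : IsUnit (p (U.h * U.vf e F)) := by
    have h1 : IsUnit (algebraMap B L (χ (U.h * U.vf e F))) :=
      IsLocalization.Away.algebraMap_isUnit _
    exact h1.map g
  have hp0 : ∀ f, f ∈ 𝔞 ⊔ Ideal.span {F} → p f = 0 := by
    intro f hf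
    change g (ι (χ f)) = 0
    rw [(hker f).2 hf, map_zero, map_zero]
  choose y hy using fun l => Ideal.Quotient.mk_surjective (p (X l))
  have hmk : ∀ (z : σ → R) (_ : ∀ l, Ideal.Quotient.mk I (z l) = p (X l))
      (q : MvPolynomial σ k), Ideal.Quotient.mk I (aeval z q) = p q := by
    intro z hz q
    have h1 : (Ideal.Quotient.mkₐ k I).comp (aeval z) = p := by
      apply MvPolynomial.algHom_ext
      intro l
      change Ideal.Quotient.mk I (aeval z (X l)) = p (X l)
      rw [aeval_X, hz]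
    exact AlgHom.congr_fun h1 q
  have hF𝔞 : F ∈ 𝔞 ⊔ Ideal.span {F} := Ideal.mem_sup_right (Ideal.mem_span_singleton_self F)
  have hunit : ∀ q, IsUnit (p q) → ∀ (z : σ → R) (_ : ∀ l, Ideal.Quotient.mk I (z l) = p (X l)),
      IsUnit (aeval z q) := by
    intro q hq z hz
    apply f2_isUnit hI2
    rw [hmk z hz]
    exact hq
  have hps : IsUnit (p U.s) ∧ IsUnit (p U.Δ) ∧ IsUnit (p (U.vf e F)) := by
    rw [Std.h, map_mul, map_mul] at hpw
    exact ⟨isUnit_of_mul_isUnit_left (isUnit_of_mul_isUnit_left hpw),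
      isUnit_of_mul_isUnit_right (isUnit_of_mul_isUnit_left hpw),
      isUnit_of_mul_isUnit_right hpw⟩
  obtain ⟨ε, hε, hεg, hεF⟩ := exists_correction U F e (N := I) hI2 y
    (fun κ => by
      rw [← Ideal.Quotient.eq_zero_iff_mem, hmk y hy]
      exact hp0 _ (Ideal.mem_sup_left (hU.mem κ)))
    (by
      rw [← Ideal.Quotient.eq_zero_iff_mem, hmk y hy]
      exact hp0 _ hF𝔞)
    (hunit _ hps.2.1 y hy) (hunit _ hps.2.2 y hy)
  have hy' : ∀ l, Ideal.Quotient.mk I (y l + ε l) = p (X l) := by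
    intro l
    rw [map_add, hy, Ideal.Quotient.eq_zero_iff_mem.mpr (hε l), add_zero]
  let Ψ₀ : MvPolynomial σ k →ₐ[k] R := aeval fun l => y l + ε l
  have h𝔞 : ∀ f ∈ 𝔞, Ψ₀ f = 0 := by
    intro f hf
    have h1 := hU.le f hf
    have h2 : Ideal.span (Set.range U.g) ≤ RingHom.ker Ψ₀ := by
      rw [Ideal.span_le]
      rintro _ ⟨κ, rfl⟩
      exact hεg κ
    have h3 : Ψ₀ (U.s * f) = 0 := h2 h1
    rw [map_mul] at h3
    exact (hunit _ hps.1 _ hy').mul_right_eq_zero.1 h3
  have hΨ₀ : RingHom.ker χ.toRingHom ≤ RingHom.ker Ψ₀.toRingHom := by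
    intro f hf
    have h1 : f ∈ 𝔞 ⊔ Ideal.span {F} := (hker f).1 hf
    have h2 : 𝔞 ⊔ Ideal.span {F} ≤ RingHom.ker Ψ₀.toRingHom := by
      refine sup_le (fun q hq => h𝔞 q hq) ?_
      rw [Ideal.span_le]
      rintro _ rfl
      exact hεF
    exact h2 h1
  let Ψ₁ : B →ₐ[k] R := AlgHom.liftOfSurjective χ hχ Ψ₀ hΨ₀
  have hΨ₁ : ∀ q, Ψ₁ (χ q) = Ψ₀ q := fun q => AlgHom.liftOfSurjective_apply χ hχ Ψ₀ hΨ₀ q
  have hw : IsUnit (Ψ₁ (χ (U.h * U.vf e F))) := by
    rw [hΨ₁]
    exact hunit _ hpw _ hy'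
  let Ψ : L →ₐ[k] R := IsLocalization.Away.liftAlgHom (χ (U.h * U.vf e F)) hw
  refine ⟨Ψ, ?_⟩
  change (Ideal.Quotient.mkₐ k I).comp Ψ = g
  apply AlgHom.coe_ringHom_injective
  apply IsLocalization.ringHom_ext (Submonoid.powers (χ (U.h * U.vf e F)))
  refine RingHom.ext fun b => ?_
  obtain ⟨q, rfl⟩ := hχ b
  have h1 : Ψ (algebraMap B L (χ q)) = Ψ₀ q := by
    rw [← hΨ₁]
    exact IsLocalization.Away.lift_eq (g := Ψ₁.toRingHom) (χ (U.h * U.vf e F)) hw (χ q)
  change Ideal.Quotient.mk I (Ψ (algebraMap B L (χ q))) = g (algebraMap B L (χ q))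
  rw [h1]
  exact hmk _ hy' q

theorem smooth_of_span {k B : Type} [Field k] [CommRing B] [Algebra k B] [Algebra.FiniteType k B]
    (s : Set B) (hs : Ideal.span s = ⊤)
    (h : ∀ f ∈ s, Algebra.FormallySmooth k (Localization.Away f)) : Algebra.Smooth k B := by
  have hfp : Algebra.FinitePresentation k B :=
    Algebra.FinitePresentation.of_finiteType.mp inferInstance
  refine ⟨Algebra.smoothLocus_eq_univ_iff.mp (Set.eq_univ_iff_forall.mpr fun x => ?_), hfp⟩
  obtain ⟨f, hf, hfx⟩ : ∃ f ∈ s, f ∉ x.asIdeal := by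
    by_contra hcon
    push Not at hcon
    have h1 : Ideal.span s ≤ x.asIdeal := Ideal.span_le.mpr hcon
    rw [hs] at h1
    exact x.isPrime.ne_top (top_le_iff.mp h1)
  exact Algebra.basicOpen_subset_smoothLocus_iff.mpr (h f hf) hfx

attribute [local instance] MvPolynomial.gradedAlgebra in
theorem f4_smooth_projTo {k : Type} [Field k] {n : ℕ}
    (𝔞 : HomogeneousIdeal (homogeneousSubmodule (Fin n) k))
    (h : ∀ i, Algebra.Smooth k (ChartRing 𝔞 i)) : Smooth (projTo k (coordGr 𝔞)) := by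
  have hirr : (HomogeneousIdeal.irrelevant (coordGr 𝔞)).toIdeal ≤
      Ideal.span (Set.range (sCl 𝔞)) := by
    rw [HomogeneousIdeal.toIdeal_irrelevant_le]
    intro i hi s hs
    obtain ⟨P, hP, rfl⟩ := hs
    change Ideal.Quotient.mk 𝔞.toIdeal P ∈ _
    rw [P.as_sum, map_sum]
    refine Ideal.sum_mem _ fun m hm => ?_
    have h1 : m ≠ 0 := by
      rintro rfl
      have := hP (mem_support_iff.mp hm)
      simp at this
      omega
    obtain ⟨l, hl⟩ : ∃ l, m l ≠ 0 := by
      by_contra hcon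
      push Not at hcon
      exact h1 (Finsupp.ext hcon)
    have h2 : ∀ c : k, monomial m c = X l * monomial (m - Finsupp.single l 1) c := by
      intro c
      conv_lhs => rw [← Finsupp.sub_add_single_one_cancel hl, monomial_add_single, pow_one]
      rw [mul_comm]
    rw [h2, map_mul]
    exact Ideal.mul_mem_right _ _ (Ideal.subset_span ⟨l, rfl⟩)
  rw [IsZariskiLocalAtSource.iff_of_openCover (P := @Smooth)
    (Proj.affineOpenCoverOfIrrelevantLESpan (coordGr 𝔞) (sCl 𝔞) (m := fun _ => 1)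
      (sCl_mem 𝔞) (fun _ => one_pos) hirr).openCover]
  intro a
  change Smooth (Proj.awayι (coordGr 𝔞) (sCl 𝔞 a) (sCl_mem 𝔞 a) one_pos ≫ projTo k (coordGr 𝔞))
  rw [awayι_projTo, HasRingHomProperty.Spec_iff (P := @Smooth)]
  change (algebraMap k (ChartRing 𝔞 a)).Smooth
  rw [RingHom.smooth_algebraMap]
  exact h a

theorem smooth_hProjTo {k : Type} [Field k] {n : ℕ} (𝔞 : HomIdeal k (n + 1))
    (h : ∀ i, Algebra.Smooth k (ChartRing 𝔞.toHom i)) : Smooth (hProjTo 𝔞) :=
  f4_smooth_projTo 𝔞.toHom h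

variable {E : Type} [Field E] [NumberField E] {n d : ℕ} {I : HomIdeal (𝓞 E) (n + 1)}
  {a : Mono n d → 𝓞 E} {𝒰 : Charts (𝓞 E) n} {m₀ : 𝓞 E}

/-- The charts of the section are smooth. -/
theorem smooth_chart (hm₀ : m₀ ≠ 0) (h𝒰 : 𝒰.For I m₀) (hsm : SmoothIn 𝒰 I a)
    (i : Fin (n + 1)) : Algebra.Smooth E (ChartRing (secIdeal I E a).toHom i) := by
  let χ := chi (secIdeal I E a) i
  have hχ : Function.Surjective χ := chi_surjective (secIdeal I E a) i
  have hker : ∀ q, χ q = 0 ↔ q ∈ (dId I i).map (MvPolynomial.map (algebraMap (𝓞 E) E)) ⊔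
      Ideal.span {MvPolynomial.map (algebraMap (𝓞 E) E) (dF a i)} := by
    intro q
    rw [← dId_secIdeal]
    exact chi_eq_zero_iff (secIdeal I E a) i q
  have hft : Algebra.FiniteType E (ChartRing (secIdeal I E a).toHom i) :=
    Algebra.FiniteType.of_surjective χ hχ
  let ψ : MvPolynomial {l : Fin (n + 1) // l ≠ i} (𝓞 E) →+*
      ChartRing (secIdeal I E a).toHom i :=
    χ.toRingHom.comp (MvPolynomial.map (algebraMap (𝓞 E) E))
  refine smooth_of_span {x | ∃ t, ∃ e ∈ (𝒰.U i t).T,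
    x = ψ ((𝒰.U i t).h * (𝒰.U i t).vf e (dF a i))} ?_ ?_
  · by_contra hne
    obtain ⟨𝔫, h𝔫, hle⟩ := Ideal.exists_le_maximal _ hne
    have h𝔫p : 𝔫.IsPrime := h𝔫.isPrime
    have h𝔮 : (𝔫.comap ψ).IsPrime := Ideal.IsPrime.comap ψ
    have hI : dId I i ≤ 𝔫.comap ψ := by
      intro x hx
      have h1 : χ (MvPolynomial.map (algebraMap (𝓞 E) E) x) = 0 :=
        (hker _).2 (Ideal.mem_sup_left (Ideal.mem_map_of_mem _ hx))
      change χ (MvPolynomial.map (algebraMap (𝓞 E) E) x) ∈ 𝔫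
      rw [h1]
      exact 𝔫.zero_mem
    have hF : dF a i ∈ 𝔫.comap ψ := by
      have h1 : χ (MvPolynomial.map (algebraMap (𝓞 E) E) (dF a i)) = 0 :=
        (hker _).2 (Ideal.mem_sup_right (Ideal.mem_span_singleton_self _))
      change χ (MvPolynomial.map (algebraMap (𝓞 E) E) (dF a i)) ∈ 𝔫
      rw [h1]
      exact 𝔫.zero_mem
    have hc : ∀ c : 𝓞 E, C c ∈ 𝔫.comap ψ → c = 0 := by
      intro c hc
      by_contra hc0
      have hu : IsUnit (algebraMap (𝓞 E) E c) := by
        rw [isUnit_iff_ne_zero]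
        exact (map_ne_zero_iff _ (FaithfulSMul.algebraMap_injective (𝓞 E) E)).2 hc0
      have hu' : IsUnit (ψ (C c)) := by
        change IsUnit (χ (MvPolynomial.map (algebraMap (𝓞 E) E) (C c)))
        rw [map_C]
        exact (hu.map C).map χ
      exact h𝔫.ne_top (Ideal.eq_top_of_isUnit_mem _ hc hu')
    have ht : ∃ t, (𝒰.U i t).h ∉ 𝔫.comap ψ := by
      by_contra hcon
      push Not at hcon
      apply hm₀
      apply hc
      have hle : dId I i ⊔ Ideal.span (Set.range fun t => (𝒰.U i t).h) ≤ 𝔫.comap ψ := by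
        refine sup_le hI (Ideal.span_le.2 ?_)
        rintro _ ⟨t, rfl⟩
        exact hcon t
      exact hle (h𝒰.cover i)
    obtain ⟨t, ht⟩ := ht
    obtain ⟨e, he, hev⟩ := hsm i t _ h𝔮 hI hc ht hF
    have h1 : (𝒰.U i t).h * (𝒰.U i t).vf e (dF a i) ∈ 𝔫.comap ψ :=
      hle (Ideal.subset_span ⟨t, e, he, rfl⟩)
    rcases h𝔮.mem_or_mem h1 with h2 | h2
    · exact ht h2
    · exact hev h2
  · rintro f ⟨t, e, -, rfl⟩
    have h1 : ψ ((𝒰.U i t).h * (𝒰.U i t).vf e (dF a i)) =
        χ (((𝒰.U i t).map (algebraMap (𝓞 E) E)).h *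
          ((𝒰.U i t).map (algebraMap (𝓞 E) E)).vf e
            (MvPolynomial.map (algebraMap (𝓞 E) E) (dF a i))) := by
      rw [Std.map_hL, Std.map_vfL, ← map_mul]
      rfl
    rw [h1]
    exact formallySmooth_away _ ((h𝒰.is i t).mapL (algebraMap (𝓞 E) E)) _ e χ hχ hker

theorem smooth_secIdeal (hm₀ : m₀ ≠ 0) (h𝒰 : 𝒰.For I m₀) (hsm : SmoothIn 𝒰 I a) :
    Smooth (hProjTo (secIdeal I E a)) :=
  smooth_hProjTo _ fun i => smooth_chart hm₀ h𝒰 hsm i

end Pool.Agent.Lib.MP_6a3dac_ag.Bert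
end
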