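import Mathlib
import Pool.Agent.Lib.MP_6a3dac_ag.Dens.Defs
import Pool.Agent.Lib.MP_6a3dac_ag.DNF.Hyper

section

/-!
# Densities
-/

set_option autoImplicit false

namespace Pool.Agent.Lib.MP_6a3dac_ag.Sys

open Filter Topology

open Classical in
/-- The proportion of the vectors in the box with the property `S`. -/
noncomputable def prop {N : Type} [Fintype N] [DecidableEq N] (S : (N → ℤ) → Prop) (H : ℕ) : ℝ :=
  (((box N H).filter fun u => S u).card : ℝ) / (box N H).card

section T26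

variable {N : Type} [Fintype N] [DecidableEq N]

lemma t26_card_box (H : ℕ) : (box N H).card = (2 * H + 1) ^ Fintype.card N := by
  rw [box, Fintype.card_piFinset]
  simp only [Int.card_Icc, Finset.prod_const, Finset.card_univ]
  congr 1
  omega

lemma t26_mem_box {H : ℕ} {u : N → ℤ} : u ∈ box N H ↔ ∀ i, -(H : ℤ) ≤ u i ∧ u i ≤ H := by
  simp [box, Fintype.mem_piFinset]

lemma t26_box_mono {H K : ℕ} (h : H ≤ K) : box N H ⊆ box N K := by
  intro u hu
  rw [t26_mem_box] at hu ⊢
  intro i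
  have := hu i
  omega

lemma t26_card_pos (H : ℕ) : 0 < ((box N H).card : ℝ) := by
  rw [t26_card_box]
  positivity

lemma t26_ratio (m : ℕ) :
    Tendsto (fun H => ((box N (H - m)).card : ℝ) / (box N H).card) atTop (𝓝 1) := by
  have h1 : Tendsto (fun H : ℕ => 1 - (2 * (m : ℝ)) / (2 * (H : ℝ) + 1)) atTop (𝓝 (1 - 0)) := by
    refine Tendsto.sub tendsto_const_nhds ?_
    refine Tendsto.div_atTop tendsto_const_nhds ?_
    refine tendsto_atTop_add_const_right _ _ ?_
    exact Tendsto.const_mul_atTop (by norm_num) tendsto_natCast_atTop_atTop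
  have h2 := h1.pow (Fintype.card N)
  rw [sub_zero, one_pow] at h2
  refine h2.congr' ?_
  filter_upwards [eventually_ge_atTop m] with H hH
  rw [t26_card_box, t26_card_box]
  push_cast [Nat.cast_sub hH]
  rw [← div_pow]
  congr 1
  have : (2 * (H : ℝ) + 1) ≠ 0 := by positivity
  field_simp
  ring

open Classical in
lemma t26_shift {A : Type} [AddCommGroup A] (ψ : (N → ℤ) →+ A) (v : N → ℤ) {m : ℕ}
    (hv : ∀ i, |v i| ≤ m) (a : A) {H : ℕ} (hH : m ≤ H) :
    ((box N (H - m)).filter fun u => ψ u = a).card ≤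
      ((box N H).filter fun u => ψ u = a + ψ v).card := by
  refine Finset.card_le_card_of_injOn (fun u => u + v) ?_ ?_
  · intro u hu
    rw [Finset.mem_coe, Finset.mem_filter, t26_mem_box] at hu ⊢
    refine ⟨fun i => ?_, ?_⟩
    · have h1 := hu.1 i
      have h2 := abs_le.1 (hv i)
      simp only [Pi.add_apply]
      omega
    · rw [map_add, hu.2]
  · intro u _ w _ h
    exact add_right_cancel h

open Classical in
lemma t26_shrink {A : Type} [AddCommGroup A] (ψ : (N → ℤ) →+ A) (m : ℕ) (a : A) (H : ℕ) :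
    ((box N H).filter fun u => ψ u = a).card + (box N (H - m)).card ≤
      ((box N (H - m)).filter fun u => ψ u = a).card + (box N H).card := by
  have hsub : box N (H - m) ⊆ box N H := t26_box_mono (Nat.sub_le _ _)
  have h1 : (box N H).filter (fun u => ψ u = a) ⊆
      ((box N (H - m)).filter fun u => ψ u = a) ∪ (box N H \ box N (H - m)) := by
    intro u hu
    rw [Finset.mem_filter] at hu
    by_cases h : u ∈ box N (H - m)
    · exact Finset.mem_union_left _ (Finset.mem_filter.2 ⟨h, hu.2⟩)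
    · exact Finset.mem_union_right _ (Finset.mem_sdiff.2 ⟨hu.1, h⟩)
  have h2 := (Finset.card_le_card h1).trans (Finset.card_union_le _ _)
  rw [Finset.card_sdiff_of_subset hsub] at h2
  have h3 := Finset.card_le_card hsub
  omega

open Classical in
lemma t26_fiber {A : Type} [AddCommGroup A] [Fintype A] (ψ : (N → ℤ) →+ A)
    (hψ : Function.Surjective ψ) (a : A) :
    Tendsto (fun H => (((box N H).filter fun u => ψ u = a).card : ℝ) / (box N H).card) atTop
      (𝓝 (1 / (Fintype.card A : ℝ))) := by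
  obtain ⟨g, hg⟩ : ∃ g : A → N → ℤ, ∀ b, ψ (g b) = b := ⟨fun b => (hψ b).choose,
    fun b => (hψ b).choose_spec⟩
  -- a uniform bound for the representatives
  set m : ℕ := ∑ b, ∑ i, (g b i).natAbs with hm
  have hgm : ∀ b i, |g b i| ≤ m := by
    intro b i
    have h1 : (g b i).natAbs ≤ ∑ i, (g b i).natAbs :=
      Finset.single_le_sum (f := fun i => (g b i).natAbs) (fun _ _ => Nat.zero_le _)
        (Finset.mem_univ i)
    have h2 : ∑ i, (g b i).natAbs ≤ m :=
      Finset.single_le_sum (f := fun b => ∑ i, (g b i).natAbs) (fun _ _ => Nat.zero_le _)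
        (Finset.mem_univ b)
    rw [Int.abs_eq_natAbs]
    exact_mod_cast h1.trans h2
  set D : A → ℕ → ℝ := fun b H =>
    (((box N H).filter fun u => ψ u = b).card : ℝ) / (box N H).card with hD
  set e : ℕ → ℝ := fun H => 1 - ((box N (H - m)).card : ℝ) / (box N H).card with he
  have he0 : Tendsto e atTop (𝓝 0) := by
    have := (t26_ratio (N := N) m).const_sub 1
    simpa [he] using this
  have hcmp : ∀ b c : A, ∀ H, m ≤ H → D b H ≤ D c H + e H := by
    intro b c H hH
    have h1 := t26_shift ψ (g (c - b)) (hgm (c - b)) b hH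
    rw [hg, add_sub_cancel] at h1
    have h2 := t26_shrink ψ m b H
    have h3 : (((box N H).filter fun u => ψ u = b).card : ℝ) + (box N (H - m)).card ≤
        ((box N H).filter fun u => ψ u = c).card + (box N H).card := by
      exact_mod_cast h2.trans (Nat.add_le_add_right h1 _)
    have hpos := t26_card_pos (N := N) H
    simp only [hD, he]
    rw [← sub_nonneg]
    have h4 : (((box N H).filter fun u => ψ u = c).card : ℝ) / (box N H).card +
        (1 - ((box N (H - m)).card : ℝ) / (box N H).card) -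
        (((box N H).filter fun u => ψ u = b).card : ℝ) / (box N H).card =
        ((((box N H).filter fun u => ψ u = c).card : ℝ) + (box N H).card -
          ((((box N H).filter fun u => ψ u = b).card : ℝ) + (box N (H - m)).card)) /
          (box N H).card := by
      field_simp
      ring
    rw [h4]
    exact div_nonneg (sub_nonneg.2 h3) hpos.le
  have hsum : ∀ H, ∑ b, D b H = 1 := by
    intro H
    simp only [hD]
    rw [← Finset.sum_div]
    have h1 : (box N H).card = ∑ b, ((box N H).filter fun u => ψ u = b).card :=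
      Finset.card_eq_sum_card_fiberwise (fun _ _ => Finset.mem_coe.2 (Finset.mem_univ _))
    rw [div_eq_one_iff_eq (t26_card_pos (N := N) H).ne']
    exact_mod_cast h1.symm
  have hA : 0 < (Fintype.card A : ℝ) := by
    exact_mod_cast Fintype.card_pos_iff.2 ⟨(0 : A)⟩
  -- the two bounds
  have hup : ∀ H, m ≤ H → D a H ≤ 1 / (Fintype.card A : ℝ) + e H := by
    intro H hH
    have h1 : ∑ _b : A, D a H ≤ ∑ b, (D b H + e H) :=
      Finset.sum_le_sum (fun b _ => hcmp a b H hH)
    rw [Finset.sum_const, Finset.sum_add_distrib, hsum, Finset.sum_const, Finset.card_univ,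
      nsmul_eq_mul, nsmul_eq_mul] at h1
    have h2 : (Fintype.card A : ℝ) * (1 / (Fintype.card A : ℝ) + e H) =
        1 + Fintype.card A * e H := by
      field_simp
    rw [← h2] at h1
    exact le_of_mul_le_mul_left h1 hA
  have hlo : ∀ H, m ≤ H → 1 / (Fintype.card A : ℝ) - e H ≤ D a H := by
    intro H hH
    have h1 : ∑ b, D b H ≤ ∑ _b : A, (D a H + e H) :=
      Finset.sum_le_sum (fun b _ => hcmp b a H hH)
    rw [Finset.sum_const, hsum, Finset.card_univ, nsmul_eq_mul] at h1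
    have h2 : (Fintype.card A : ℝ) * (1 / (Fintype.card A : ℝ)) = 1 := by
      field_simp
    rw [← h2] at h1
    have := le_of_mul_le_mul_left h1 hA
    linarith
  have l1 : Tendsto (fun H => 1 / (Fintype.card A : ℝ) + e H) atTop
      (𝓝 (1 / (Fintype.card A : ℝ))) := by
    simpa using he0.const_add (1 / (Fintype.card A : ℝ))
  have l2 : Tendsto (fun H => 1 / (Fintype.card A : ℝ) - e H) atTop
      (𝓝 (1 / (Fintype.card A : ℝ))) := by
    simpa using he0.const_sub (1 / (Fintype.card A : ℝ))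
  refine tendsto_of_tendsto_of_tendsto_of_le_of_le' l2 l1 ?_ ?_
  · filter_upwards [eventually_ge_atTop m] with H hH using hlo H hH
  · filter_upwards [eventually_ge_atTop m] with H hH using hup H hH

end T26

/-- **Equidistribution** modulo the kernel of a surjective homomorphism to a finite group. -/
theorem tendsto_prop_hom {N : Type} [Fintype N] [DecidableEq N] {A : Type} [AddCommGroup A]
    [Finite A] (ψ : (N → ℤ) →+ A) (hψ : Function.Surjective ψ) (S : Set A) :
    Tendsto (prop fun u => ψ u ∈ S) atTop (𝓝 ((Nat.card S : ℝ) / Nat.card A)) := by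
  classical
  have := Fintype.ofFinite A
  have h1 := tendsto_finsetSum (S.toFinset) (fun a _ => t26_fiber ψ hψ a)
  rw [Finset.sum_const, nsmul_eq_mul, mul_one_div, Set.toFinset_card] at h1
  rw [Nat.card_eq_fintype_card, Nat.card_eq_fintype_card]
  refine h1.congr ?_
  intro H
  rw [← Finset.sum_div]
  simp only [prop]
  congr 1
  have h2 : ((box N H).filter fun u => ψ u ∈ S).card =
      ∑ a ∈ S.toFinset, (((box N H).filter fun u => ψ u ∈ S).filter fun u => ψ u = a).card := by
    refine Finset.card_eq_sum_card_fiberwise ?_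
    intro u hu
    rw [Finset.mem_coe, Finset.mem_filter] at hu
    rw [Finset.mem_coe, Set.mem_toFinset]
    exact hu.2
  have h3 : ∀ a ∈ S.toFinset, (((box N H).filter fun u => ψ u ∈ S).filter fun u => ψ u = a) =
      (box N H).filter fun u => ψ u = a := by
    intro a ha
    rw [Set.mem_toFinset] at ha
    ext u
    simp only [Finset.mem_filter]
    constructor
    · rintro ⟨⟨h, -⟩, h'⟩
      exact ⟨h, h'⟩
    · rintro ⟨h, h'⟩
      exact ⟨⟨h, h' ▸ ha⟩, h'⟩
  have h4 : ((box N H).filter fun u => ψ u ∈ S).card =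
      ∑ a ∈ S.toFinset, ((box N H).filter fun u => ψ u = a).card := by
    rw [h2]
    exact Finset.sum_congr rfl (fun a ha => by rw [h3 a ha])
  push_cast [h4]
  rfl

theorem t29_prod_le {I : Type} {μ : I → ℝ} (hμ0 : ∀ P, 0 ≤ μ P) (hμ1 : ∀ P, μ P ≤ 1)
    {s t : Finset I} (h : s ⊆ t) : ∏ P ∈ t, μ P ≤ ∏ P ∈ s, μ P := by
  classical
  rw [← Finset.prod_sdiff h]
  have h1 : ∏ P ∈ t \ s, μ P ≤ 1 := Finset.prod_le_one (fun P _ => hμ0 P) fun P _ => hμ1 P
  have h2 : 0 ≤ ∏ P ∈ s, μ P := Finset.prod_nonneg fun P _ => hμ0 P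
  exact mul_le_of_le_one_left h2 h1

theorem exists_density {I : Type} (μ : I → ℝ) (hμ0 : ∀ P, 0 ≤ μ P) (hμ1 : ∀ P, μ P ≤ 1)
    (T : ℕ → Finset I) (hT : Monotone T) (hT' : ∀ P, ∃ M, P ∈ T M) (f : ℕ → ℝ)
    (F : ℕ → ℕ → ℝ) (hF : ∀ M, Tendsto (F M) atTop (𝓝 (∏ P ∈ T M, μ P)))
    (hf : ∀ M H, f H ≤ F M H) {C : ℝ} {M₀ : ℕ}
    (hs : ∀ M, M₀ ≤ M → ∀ ε, 0 < ε → ∀ᶠ H in atTop, F M H - f H ≤ C / M * (∏ P ∈ T M, μ P) + ε) :
    ∃ Δ : ℝ, HasProd μ Δ ∧ Tendsto f atTop (𝓝 Δ) ∧ ((∀ P, 0 < μ P) → 0 < Δ) ∧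
      ∀ M, M₀ ≤ M → (∀ P ∈ T M, μ P = 1) → 1 - C / M ≤ Δ := by
  classical
  set δ : ℕ → ℝ := fun M => ∏ P ∈ T M, μ P with hδ
  have hanti : Antitone fun s : Finset I => ∏ P ∈ s, μ P := fun s t h => t29_prod_le hμ0 hμ1 h
  have hbdd : BddBelow (Set.range fun s : Finset I => ∏ P ∈ s, μ P) := by
    refine ⟨0, ?_⟩
    rintro _ ⟨s, rfl⟩
    exact Finset.prod_nonneg fun P _ => hμ0 P
  set Δ : ℝ := ⨅ s : Finset I, ∏ P ∈ s, μ P with hΔ
  have hprod : HasProd μ Δ := by
    have := tendsto_atTop_ciInf hanti hbdd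
    simpa [HasProd] using this
  have hle : ∀ M, Δ ≤ δ M := fun M => ciInf_le hbdd (T M)
  have hδ0 : ∀ M, 0 ≤ δ M := fun M => Finset.prod_nonneg fun P _ => hμ0 P
  have hδ1 : ∀ M, δ M ≤ 1 := fun M => Finset.prod_le_one (fun P _ => hμ0 P) fun P _ => hμ1 P
  have hlim : Tendsto δ atTop (𝓝 Δ) := by
    have h1 : Tendsto T atTop atTop := tendsto_atTop_finset_of_monotone hT hT'
    exact (tendsto_atTop_ciInf hanti hbdd).comp h1
  have hCM : Tendsto (fun M : ℕ => C / (M : ℝ)) atTop (𝓝 0) := tendsto_const_div_atTop_nhds_zero_nat C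
  have hfl : Tendsto f atTop (𝓝 Δ) := by
    rw [Metric.tendsto_atTop]
    intro ε hε
    have e1 : Tendsto (fun M : ℕ => C / (M : ℝ) * δ M) atTop (𝓝 (0 * Δ)) := hCM.mul hlim
    rw [zero_mul] at e1
    have e2 : ∀ᶠ M in atTop, δ M < Δ + ε / 2 := hlim.eventually_lt_const (by linarith)
    have e3 : ∀ᶠ M : ℕ in atTop, C / (M : ℝ) * δ M < ε / 4 := e1.eventually_lt_const (by linarith)
    obtain ⟨M, ⟨hM1, hM2⟩, hM3⟩ := ((e2.and e3).and (eventually_ge_atTop M₀)).exists
    have e4 : ∀ᶠ H in atTop, δ M - ε / 4 < F M H := (hF M).eventually_const_lt (by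
      change δ M - ε / 4 < δ M
      linarith)
    have e5 : ∀ᶠ H in atTop, F M H < δ M + ε / 4 := (hF M).eventually_lt_const (by
      change δ M < δ M + ε / 4
      linarith)
    have e6 := hs M hM3 (ε / 4) (by linarith)
    obtain ⟨N, hN⟩ := eventually_atTop.1 ((e4.and e5).and e6)
    refine ⟨N, fun H hH => ?_⟩
    obtain ⟨⟨h1, h2⟩, h3⟩ := hN H hH
    have h4 := hf M H
    have h5 := hle M
    change F M H - f H ≤ C / M * δ M + ε / 4 at h3
    rw [Real.dist_eq, abs_lt]
    constructor <;> linarith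
  have hkey : ∀ M, M₀ ≤ M → δ M - Δ ≤ C / M * δ M := by
    intro M hM
    have h1 : Tendsto (fun H => F M H - f H) atTop (𝓝 (δ M - Δ)) := (hF M).sub hfl
    refine le_of_forall_pos_le_add fun ε hε => ?_
    exact le_of_tendsto h1 (hs M hM ε hε)
  refine ⟨Δ, hprod, hfl, fun hpos => ?_, fun M hM h1 => ?_⟩
  · have e1 : ∀ᶠ M : ℕ in atTop, C / (M : ℝ) < 1 / 2 := hCM.eventually_lt_const (by norm_num)
    obtain ⟨M, hM1, hM2⟩ := (e1.and (eventually_ge_atTop M₀)).exists
    have h2 := hkey M hM2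
    have h3 : 0 < δ M := Finset.prod_pos fun P _ => hpos P
    nlinarith
  · have h2 := hkey M hM
    have h3 : δ M = 1 := Finset.prod_eq_one h1
    rw [h3] at h2
    linarith

end Pool.Agent.Lib.MP_6a3dac_ag.Sys
end

section

/-!
# Upper densities
-/

set_option autoImplicit false

namespace Pool.Agent.Lib.MP_6a3dac_ag.Maj

open Filter Topology
open Pool.Agent.Lib.MP_6a3dac_ag.Sys

variable {N : Type} [Fintype N] [DecidableEq N]

/-- The upper density of `S` is at most `c`. -/
def UD (S : (N → ℤ) → Prop) (c : ℝ) : Prop := ∀ ε : ℝ, 0 < ε → ∀ᶠ H in atTop, prop S H ≤ c + ε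

theorem prop_nonneg (S : (N → ℤ) → Prop) (H : ℕ) : 0 ≤ prop S H :=
  div_nonneg (Nat.cast_nonneg _) (Nat.cast_nonneg _)

theorem prop_mono {S S' : (N → ℤ) → Prop} (h : ∀ u, S u → S' u) (H : ℕ) :
    prop S H ≤ prop S' H := by
  classical
  refine div_le_div_of_nonneg_right ?_ (Nat.cast_nonneg _)
  refine Nat.cast_le.mpr (Finset.card_le_card ?_)
  intro u hu
  rw [Finset.mem_filter] at hu ⊢
  exact ⟨hu.1, h u hu.2⟩

theorem prop_or {S S' : (N → ℤ) → Prop} (H : ℕ) :
    prop (fun u => S u ∨ S' u) H ≤ prop S H + prop S' H := by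
  classical
  unfold prop
  rw [← add_div]
  refine div_le_div_of_nonneg_right ?_ (Nat.cast_nonneg _)
  rw [← Nat.cast_add]
  refine Nat.cast_le.mpr ?_
  have h : (box N H).filter (fun u => S u ∨ S' u) =
      (box N H).filter (fun u => S u) ∪ (box N H).filter (fun u => S' u) := Finset.filter_or _ _ _
  refine le_trans (le_of_eq ?_) (Finset.card_union_le _ _)
  rw [← h]
  congr

theorem prop_compl (S : (N → ℤ) → Prop) (H : ℕ) : prop (fun u => ¬ S u) H = 1 - prop S H := by
  classical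
  unfold prop
  have hpos := t26_card_pos (N := N) H
  rw [eq_sub_iff_add_eq, ← add_div, div_eq_one_iff_eq hpos.ne', ← Nat.cast_add]
  congr 1
  have h := Finset.card_filter_add_card_filter_not (s := box N H) (fun u => S u)
  rw [add_comm] at h
  rw [← h]
  congr

theorem UD.mono {S S' : (N → ℤ) → Prop} {c c' : ℝ} (h : UD S' c) (hS : ∀ u, S u → S' u)
    (hc : c ≤ c') : UD S c' := by
  intro ε hε
  filter_upwards [h ε hε] with H hH
  exact (prop_mono hS H).trans (hH.trans (by linarith))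

theorem UD.or {S S' : (N → ℤ) → Prop} {c c' : ℝ} (h : UD S c) (h' : UD S' c') :
    UD (fun u => S u ∨ S' u) (c + c') := by
  intro ε hε
  filter_upwards [h (ε / 2) (by linarith), h' (ε / 2) (by linarith)] with H h1 h2
  exact (prop_or H).trans (by linarith)

theorem UD.false : UD (fun _ : N → ℤ => False) 0 := by
  classical
  intro ε hε
  refine Eventually.of_forall fun H => ?_
  unfold prop
  simp only [Finset.filter_false, Finset.card_empty, Nat.cast_zero, zero_div]
  linarith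

theorem UD.exists_finset {T : Type} (s : Finset T) {S : T → (N → ℤ) → Prop} {c : T → ℝ}
    (h : ∀ t ∈ s, UD (S t) (c t)) : UD (fun u => ∃ t ∈ s, S t u) (∑ t ∈ s, c t) := by
  classical
  induction s using Finset.induction_on with
  | empty =>
    simp only [Finset.notMem_empty, false_and, exists_false, Finset.sum_empty]
    exact UD.false
  | insert a s ha ih =>
    rw [Finset.sum_insert ha]
    refine ((h a (Finset.mem_insert_self _ _)).or
      (ih fun t ht => h t (Finset.mem_insert_of_mem ht))).mono ?_ le_rfl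
    rintro u ⟨t, ht, hu⟩
    rcases Finset.mem_insert.mp ht with rfl | ht
    · exact Or.inl hu
    · exact Or.inr ⟨t, ht, hu⟩

theorem UD.of_tendsto {S : (N → ℤ) → Prop} {c : ℝ} (h : Tendsto (prop S) atTop (𝓝 c)) : UD S c := by
  intro ε hε
  exact (h.eventually (Iio_mem_nhds (show c < c + ε by linarith))).mono fun H hH => le_of_lt hH

theorem UD.le_of_tendsto {S : (N → ℤ) → Prop} {c c' : ℝ} (h : UD S c)
    (h' : Tendsto (prop S) atTop (𝓝 c')) : c' ≤ c := by
  refine le_of_forall_pos_le_add fun ε hε => ?_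
  exact _root_.le_of_tendsto h' (h ε hε)

/-- Conditions modulo the kernel of a surjective homomorphism to a finite group. -/
theorem UD.hom {A : Type} [AddCommGroup A] [Finite A] (ψ : (N → ℤ) →+ A)
    (hψ : Function.Surjective ψ) (S' : Set A) {S : (N → ℤ) → Prop} (hS : ∀ u, S u → ψ u ∈ S')
    {c : ℝ} (hc : (Nat.card S' : ℝ) ≤ c * Nat.card A) : UD S c := by
  refine (UD.of_tendsto (tendsto_prop_hom ψ hψ S')).mono hS ?_
  rw [div_le_iff₀ (by exact_mod_cast Nat.card_pos)]
  exact hc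

end Pool.Agent.Lib.MP_6a3dac_ag.Maj
end

section

/-!
# The Ekedahl–Poonen sieve
-/

set_option autoImplicit false

namespace Pool.Agent.Lib.MP_6a3dac_ag

open MvPolynomial

namespace Sieve

/-! ### Counting in boxes -/

theorem card_Icc_box (H : ℕ) : (Finset.Icc (-(H : ℤ)) H).card = 2 * H + 1 := by
  rw [Int.card_Icc]
  omega

theorem card_box {ι : Type} [Fintype ι] [DecidableEq ι] (H : ℕ) :
    (box ι H).card = (2 * H + 1) ^ Fintype.card ι := by
  unfold box
  rw [Fintype.card_piFinset]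
  simp only [card_Icc_box, Finset.prod_const, Finset.card_univ]

theorem card_box_succ {n : ℕ} (H : ℕ) (P : (Fin (n + 1) → ℤ) → Prop) [DecidablePred P] :
    ((box (Fin (n + 1)) H).filter P).card =
      ∑ a ∈ box (Fin n) H,
        ((Finset.Icc (-(H : ℤ)) H).filter fun t => P (Fin.cons t a)).card := by
  classical
  rw [← Finset.card_sigma]
  refine Finset.card_bij' (fun x _ => ⟨Fin.tail x, x 0⟩) (fun y _ => Fin.cons y.2 y.1) ?_ ?_ ?_ ?_
  · intro x hx
    simp only [Finset.mem_filter, box, Fintype.mem_piFinset] at hx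
    simp only [Finset.mem_sigma, box, Fintype.mem_piFinset, Finset.mem_filter]
    refine ⟨fun i => hx.1 i.succ, hx.1 0, ?_⟩
    rw [Fin.cons_self_tail]
    exact hx.2
  · rintro ⟨a, t⟩ hy
    simp only [Finset.mem_sigma, box, Fintype.mem_piFinset, Finset.mem_filter] at hy
    simp only [Finset.mem_filter, box, Fintype.mem_piFinset]
    refine ⟨fun i => ?_, hy.2.2⟩
    refine Fin.cases ?_ (fun j => ?_) i
    · rw [Fin.cons_zero]; exact hy.2.1
    · rw [Fin.cons_succ]; exact hy.1 j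
  · intro x hx
    exact Fin.cons_self_tail x
  · rintro ⟨a, t⟩ hy
    simp only [Fin.tail_cons, Fin.cons_zero]

/-- Zeros of a univariate polynomial along a map with small fibres. -/
theorem card_roots_fiber {k : Type} [CommRing k] [IsDomain k] [DecidableEq k]
    (S : Finset ℤ) (s : ℤ → k) (m : ℕ) (hs : ∀ y : k, (S.filter fun t => s t = y).card ≤ m)
    (P : Polynomial k) (hP : P ≠ 0) :
    (S.filter fun t => P.eval (s t) = 0).card ≤ P.natDegree * m := by
  have h1 : (S.filter fun t => P.eval (s t) = 0).card ≤ m * P.roots.toFinset.card := by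
    refine Finset.card_le_mul_card_image_of_maps_to (f := s) ?_ m ?_
    · intro t ht
      rw [Finset.mem_filter] at ht
      rw [Multiset.mem_toFinset, Polynomial.mem_roots hP]
      exact ht.2
    · intro y hy
      refine le_trans (Finset.card_le_card ?_) (hs y)
      intro t ht
      simp only [Finset.mem_filter] at ht ⊢
      exact ⟨ht.1.1, ht.2⟩
  refine h1.trans ?_
  rw [mul_comm]
  exact Nat.mul_le_mul_right _ ((Multiset.toFinset_card_le _).trans (Polynomial.card_roots' P))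

/-- The Schwartz–Zippel bound along maps with small fibres. -/
theorem card_zeros_box {k : Type} [CommRing k] [IsDomain k] [DecidableEq k] (H m : ℕ) :
    ∀ (n : ℕ) (s : Fin n → ℤ → k)
      (_ : ∀ i, ∀ y : k, ((Finset.Icc (-(H : ℤ)) H).filter fun t => s i t = y).card ≤ m)
      (G : MvPolynomial (Fin n) k) (_ : G ≠ 0),
      ((box (Fin n) H).filter fun a => eval (fun i => s i (a i)) G = 0).card * (2 * H + 1) ≤
        G.totalDegree * m * (2 * H + 1) ^ n := by
  intro n
  induction n with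
  | zero =>
    intro s hs G hG
    have : (box (Fin 0) H).filter (fun a => eval (fun i => s i (a i)) G = 0) = ∅ := by
      rw [Finset.filter_eq_empty_iff]
      intro a _ h
      apply hG
      rw [eq_C_of_isEmpty G] at h ⊢
      rw [eval_C] at h
      rw [h, C_0]
    rw [this]
    simp
  | succ n ih =>
    intro s hs G hG
    set G' := finSuccEquiv k n G with hG'
    have hG'0 : G' ≠ 0 := by
      rw [hG']
      exact (map_ne_zero_iff _ (finSuccEquiv k n).injective).2 hG
    have hc : G'.leadingCoeff ≠ 0 := Polynomial.leadingCoeff_ne_zero.2 hG'0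
    have hdeg : G'.leadingCoeff.totalDegree + G'.natDegree ≤ G.totalDegree := by
      refine totalDegree_coeff_finSuccEquiv_add_le G G'.natDegree ?_
      exact hc
    have ih' := ih (fun i => s i.succ) (fun i y => hs i.succ y) G'.leadingCoeff hc
    rw [card_box_succ]
    set Z := (box (Fin n) H).filter
      fun a => eval (fun i => s i.succ (a i)) G'.leadingCoeff = 0 with hZ
    have hbound : ∀ a ∈ box (Fin n) H,
        ((Finset.Icc (-(H : ℤ)) H).filter
          fun t => eval (fun i => s i ((Fin.cons t a : Fin (n + 1) → ℤ) i)) G = 0).card ≤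
        (if eval (fun i => s i.succ (a i)) G'.leadingCoeff = 0 then (2 * H + 1) else 0) +
          G'.natDegree * m := by
      intro a _
      split_ifs with h0
      · refine le_trans (Finset.card_filter_le _ _) ?_
        rw [card_Icc_box]
        exact Nat.le_add_right _ _
      · rw [zero_add]
        have hP : G'.map (eval fun i => s i.succ (a i)) ≠ 0 := by
          intro h
          apply h0
          have := congrArg (fun P => Polynomial.coeff P G'.natDegree) h
          simpa using this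
        have h1 := card_roots_fiber (Finset.Icc (-(H : ℤ)) H) (s 0) m (hs 0) _ hP
        refine le_trans (le_of_eq ?_)
          (h1.trans (Nat.mul_le_mul_right _ (Polynomial.natDegree_map_le)))
        congr 1
        apply Finset.filter_congr
        intro t _
        have : (fun i => s i ((Fin.cons t a : Fin (n + 1) → ℤ) i)) =
            (Fin.cons (s 0 t) (fun i => s i.succ (a i)) : Fin (n + 1) → k) := by
          funext i
          refine Fin.cases ?_ (fun j => ?_) i
          · simp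
          · simp
        rw [this, eval_eq_eval_mv_eval']
    have hsum := Finset.sum_le_sum hbound
    rw [Finset.sum_add_distrib, ← Finset.sum_filter, Finset.sum_const, Finset.sum_const,
      smul_eq_mul, smul_eq_mul, card_box, Fintype.card_fin] at hsum
    calc _ ≤ (Z.card * (2 * H + 1) + (2 * H + 1) ^ n * (G'.natDegree * m)) * (2 * H + 1) :=
          Nat.mul_le_mul_right _ hsum
      _ = (Z.card * (2 * H + 1)) * (2 * H + 1) + G'.natDegree * m * (2 * H + 1) ^ (n + 1) := by
          ring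
      _ ≤ (G'.leadingCoeff.totalDegree * m * (2 * H + 1) ^ n) * (2 * H + 1) +
            G'.natDegree * m * (2 * H + 1) ^ (n + 1) :=
          Nat.add_le_add_right (Nat.mul_le_mul_right _ ih') _
      _ = (G'.leadingCoeff.totalDegree + G'.natDegree) * m * (2 * H + 1) ^ (n + 1) := by ring
      _ ≤ G.totalDegree * m * (2 * H + 1) ^ (n + 1) :=
          Nat.mul_le_mul_right _ (Nat.mul_le_mul_right _ hdeg)

/-! ### Residues, large primes, sizes -/

theorem card_fiber_zmod (H p q : ℕ) (hp : p.Prime) (hq : ¬ p ∣ q) (r : ℤ) (y : ZMod p) :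
    ((Finset.Icc (-(H : ℤ)) H).filter fun t => ((r + q * t : ℤ) : ZMod p) = y).card ≤
      (2 * H + 1) / p + 1 := by
  by_cases hE : ((Finset.Icc (-(H : ℤ)) H).filter
      fun t => ((r + q * t : ℤ) : ZMod p) = y) = ∅
  · rw [hE]
    simp
  obtain ⟨t₀, ht₀⟩ := Finset.nonempty_iff_ne_empty.2 hE
  rw [Finset.mem_filter] at ht₀
  have hsub : ((Finset.Icc (-(H : ℤ)) H).filter fun t => ((r + q * t : ℤ) : ZMod p) = y) ⊆
      (Finset.Ioc (-(H : ℤ) - 1) H).filter fun x => x ≡ t₀ [ZMOD p] := by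
    intro t ht
    rw [Finset.mem_filter] at ht ⊢
    refine ⟨by rw [Finset.mem_Icc] at ht; rw [Finset.mem_Ioc]; omega, ?_⟩
    have h1 : ((r + q * t : ℤ) : ZMod p) = ((r + q * t₀ : ℤ) : ZMod p) := ht.2.trans ht₀.2.symm
    have h2 : (p : ℤ) ∣ (r + q * t₀) - (r + q * t) :=
      (ZMod.intCast_eq_intCast_iff_dvd_sub _ _ _).1 h1
    have h3 : (p : ℤ) ∣ (q : ℤ) * (t₀ - t) := by
      have : (q : ℤ) * (t₀ - t) = (r + q * t₀) - (r + q * t) := by ring
      rw [this]
      exact h2
    have h4 : (p : ℤ) ∣ t₀ - t := by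
      rcases Int.Prime.dvd_mul' hp h3 with h | h
      · exact absurd (Int.natCast_dvd_natCast.1 h) hq
      · exact h
    exact Int.modEq_iff_dvd.2 h4
  refine (Finset.card_le_card hsub).trans ?_
  have hp0 : (0 : ℤ) < p := by exact_mod_cast hp.pos
  have hc := Int.Ioc_filter_modEq_card (-(H : ℤ) - 1) H (r := (p : ℤ)) hp0 t₀
  set c := ((Finset.Ioc (-(H : ℤ) - 1) H).filter fun x => x ≡ t₀ [ZMOD p]).card with hcdef
  have hpq : (0 : ℚ) < ((p : ℤ) : ℚ) := by exact_mod_cast hp.pos
  have hx := Int.floor_le (((H : ℤ) - t₀ : ℚ) / ((p : ℤ) : ℚ))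
  have hy := Int.lt_floor_add_one ((((-(H : ℤ) - 1 : ℤ) : ℚ) - t₀) / ((p : ℤ) : ℚ))
  set X := ⌊(((H : ℤ) - t₀ : ℚ) / ((p : ℤ) : ℚ))⌋ with hX
  set Y := ⌊((((-(H : ℤ) - 1 : ℤ) : ℚ) - t₀) / ((p : ℤ) : ℚ))⌋ with hY
  have hD : ((X - Y - 1 : ℤ) : ℚ) * ((p : ℤ) : ℚ) ≤ ((2 * H + 1 : ℤ) : ℚ) := by
    have h5 : ((X - Y - 1 : ℤ) : ℚ) ≤ ((2 * H + 1 : ℤ) : ℚ) / ((p : ℤ) : ℚ) := by
      have h6 : (((H : ℤ) - t₀ : ℚ) / ((p : ℤ) : ℚ)) -
          ((((-(H : ℤ) - 1 : ℤ) : ℚ) - t₀) / ((p : ℤ) : ℚ)) =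
          ((2 * H + 1 : ℤ) : ℚ) / ((p : ℤ) : ℚ) := by
        rw [← sub_div]
        congr 1
        push_cast
        ring
      rw [← h6]
      push_cast at hx hy ⊢
      linarith
    rwa [le_div_iff₀ hpq] at h5
  have hD' : (X - Y - 1) * (p : ℤ) ≤ 2 * H + 1 := by exact_mod_cast hD
  have hD'' : X - Y - 1 ≤ (2 * H + 1) / (p : ℤ) := Int.le_ediv_of_mul_le hp0 hD'
  have hfin : (c : ℤ) ≤ (((2 * H + 1) / p + 1 : ℕ) : ℤ) := by
    rw [hc]
    push_cast
    refine max_le ?_ ?_
    · linarith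
    · positivity
  exact_mod_cast hfin

theorem card_large_primes (L B D : ℕ) (b : ℤ) (hb : b ≠ 0) (hL : 1 ≤ L)
    (hbound : b.natAbs ≤ B * L ^ D) :
    (b.natAbs.primeFactors.filter fun p => L < p).card ≤ D + B := by
  set T := b.natAbs.primeFactors.filter fun p => L < p with hT
  have hb' : 0 < b.natAbs := Int.natAbs_pos.2 hb
  have h1 : ∏ p ∈ T, p ∣ b.natAbs :=
    (Finset.prod_dvd_prod_of_subset _ _ _ (Finset.filter_subset _ _)).trans
      (Nat.prod_primeFactors_dvd _)
  have h2 : (L + 1) ^ T.card ≤ ∏ p ∈ T, p := by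
    rw [← Finset.prod_const]
    refine Finset.prod_le_prod' ?_
    intro p hp
    rw [hT, Finset.mem_filter] at hp
    exact hp.2
  have h3 : (L + 1) ^ T.card ≤ B * (L + 1) ^ D :=
    (h2.trans (Nat.le_of_dvd hb' h1)).trans
      (hbound.trans (Nat.mul_le_mul_left _ (Nat.pow_le_pow_left (Nat.le_succ L) D)))
  by_contra hcon
  push Not at hcon
  obtain ⟨e, he⟩ : ∃ e, T.card = e + D := ⟨T.card - D, by omega⟩
  rw [he, pow_add] at h3
  have h4 : (L + 1) ^ e ≤ B := Nat.le_of_mul_le_mul_right h3 (by positivity)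
  have h5 : 2 ^ e ≤ (L + 1) ^ e := Nat.pow_le_pow_left (by omega) e
  have h6 : e < 2 ^ e := Nat.lt_two_pow_self
  omega

theorem natAbs_eval_le {n : ℕ} (g : MvPolynomial (Fin n) ℤ) (Y : ℕ) (hY : 1 ≤ Y)
    (x : Fin n → ℤ) (hx : ∀ i, (x i).natAbs ≤ Y) :
    (eval x g).natAbs ≤ (∑ s ∈ g.support, (g.coeff s).natAbs) * Y ^ g.totalDegree := by
  rw [eval_eq, Finset.sum_mul]
  refine (Int.natAbs_sum_le _ _).trans (Finset.sum_le_sum ?_)
  intro s hs
  rw [Int.natAbs_mul]
  refine Nat.mul_le_mul_left _ ?_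
  have h1 : (∏ i ∈ s.support, x i ^ s i).natAbs = ∏ i ∈ s.support, (x i).natAbs ^ s i :=
    (map_prod Int.natAbsHom (fun i => x i ^ s i) s.support).trans
      (Finset.prod_congr rfl fun i _ => Int.natAbs_pow _ _)
  rw [h1]
  calc ∏ i ∈ s.support, (x i).natAbs ^ s i ≤ ∏ i ∈ s.support, Y ^ s i :=
        Finset.prod_le_prod' fun i _ => Nat.pow_le_pow_left (hx i) _
    _ = Y ^ (s.sum fun _ e => e) := by
        rw [Finset.prod_pow_eq_pow_sum]
        rfl
    _ ≤ Y ^ g.totalDegree := Nat.pow_le_pow_right hY (le_totalDegree hs)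

theorem exists_elim {A : Type} [CommRing A] [IsDomain A] [UniqueFactorizationMonoid A]
    (g F : Polynomial A) (hg : Irreducible g) (hdeg : g.natDegree ≠ 0) (hF : ¬ g ∣ F) :
    ∃ R : A, R ≠ 0 ∧ ∃ u v : Polynomial A, g * u + F * v = Polynomial.C R := by
  classical
  let K := FractionRing A
  have hprim : g.IsPrimitive := hg.isPrimitive hdeg
  have hinj : Function.Injective (algebraMap A K) := IsFractionRing.injective A K
  have hirr : Irreducible (g.map (algebraMap A K)) :=
    (hprim.irreducible_iff_irreducible_map_fraction_map (K := K)).1 hg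
  have hndvd : ¬ g.map (algebraMap A K) ∣ F.map (algebraMap A K) := fun h =>
    hF (hprim.dvd_of_fraction_map_dvd_fraction_map (K := K) h)
  have hcop : IsCoprime (g.map (algebraMap A K)) (F.map (algebraMap A K)) :=
    (Irreducible.coprime_iff_not_dvd hirr).2 hndvd
  have hres : Polynomial.resultant (g.map (algebraMap A K)) (F.map (algebraMap A K)) ≠ 0 := by
    intro h
    exact (Polynomial.resultant_eq_zero_iff.1 h).2 hcop
  rw [Polynomial.natDegree_map_eq_of_injective hinj, Polynomial.natDegree_map_eq_of_injective hinj,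
    Polynomial.resultant_map_map] at hres
  refine ⟨Polynomial.resultant g F, fun h => hres (by rw [h, map_zero]), ?_⟩
  obtain ⟨u, v, _, _, h⟩ := Polynomial.exists_mul_add_mul_eq_C_resultant g F le_rfl le_rfl
    (Or.inl hdeg)
  exact ⟨u, v, h⟩

/-! ### Events of small probability -/

theorem map_zmod_ne_zero {n : ℕ} (g : MvPolynomial (Fin n) ℤ) (hg : Irreducible g)
    (hdeg : g.totalDegree ≠ 0) (p : ℕ) (hp : p.Prime) :
    map (Int.castRingHom (ZMod p)) g ≠ 0 := by
  intro h
  obtain ⟨u, hu⟩ := (C_dvd_iff_zmod p g).2 h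
  rcases hg.isUnit_or_isUnit hu with h1 | h1
  · rw [isUnit_iff_totalDegree_of_isReduced] at h1
    have h2 := h1.1
    rw [coeff_zero_C] at h2
    have := Int.isUnit_iff_natAbs_eq.1 h2
    rw [Int.natAbs_natCast] at this
    exact hp.one_lt.ne' this
  · rw [isUnit_iff_totalDegree_of_isReduced] at h1
    apply hdeg
    rw [hu]
    have := totalDegree_mul (C (p : ℤ)) u
    rw [totalDegree_C, h1.2] at this
    omega

open Classical in
/-- An event whose probability is at most `C / M + O(1 / H)`. -/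
def Bd {ι : Type} [Fintype ι] [DecidableEq ι] (E : ℕ → (ι → ℤ) → Prop) : Prop :=
  ∃ C : ℝ, ∀ (M q : ℕ), 1 ≤ M → 1 ≤ q → (∀ p : ℕ, p.Prime → p ∣ q → p ≤ M) →
    ∀ r : ι → ℤ, ∃ C' : ℝ, ∀ H : ℕ,
      (((box ι H).filter fun a => E M (fun i => r i + q * a i)).card : ℝ) ≤
        (C / M + C' / (2 * H + 1)) * (2 * H + 1) ^ Fintype.card ι

theorem Bd.mono {ι : Type} [Fintype ι] [DecidableEq ι] {E E' : ℕ → (ι → ℤ) → Prop}
    (h : Bd E') (hE : ∀ M x, E M x → E' M x) : Bd E := by
  classical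
  obtain ⟨C, hC⟩ := h
  refine ⟨C, fun M q hM hq hpq r => ?_⟩
  obtain ⟨C', hC'⟩ := hC M q hM hq hpq r
  refine ⟨C', fun H => le_trans ?_ (hC' H)⟩
  exact_mod_cast Finset.card_le_card (Finset.monotone_filter_right _ fun a _ ha => hE M _ ha)

theorem card_filter_or {α : Type} (s : Finset α) (P Q R : α → Prop) [DecidablePred P]
    [DecidablePred Q] [DecidablePred R] (h : ∀ a, P a → Q a ∨ R a) :
    (s.filter P).card ≤ (s.filter Q).card + (s.filter R).card := by
  classical
  refine le_trans (Finset.card_le_card ?_) (Finset.card_union_le _ _)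
  intro a ha
  rw [Finset.mem_filter] at ha
  rw [Finset.mem_union, Finset.mem_filter, Finset.mem_filter]
  rcases h a ha.2 with h2 | h2
  · exact Or.inl ⟨ha.1, h2⟩
  · exact Or.inr ⟨ha.1, h2⟩

theorem Bd.or {ι : Type} [Fintype ι] [DecidableEq ι] {E E' : ℕ → (ι → ℤ) → Prop}
    (h : Bd E) (h' : Bd E') : Bd fun M x => E M x ∨ E' M x := by
  classical
  obtain ⟨C₁, hC₁⟩ := h
  obtain ⟨C₂, hC₂⟩ := h'
  refine ⟨C₁ + C₂, fun M q hM hq hpq r => ?_⟩
  obtain ⟨C₁', hC₁'⟩ := hC₁ M q hM hq hpq r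
  obtain ⟨C₂', hC₂'⟩ := hC₂ M q hM hq hpq r
  refine ⟨C₁' + C₂', fun H => ?_⟩
  refine le_trans ?_ ((add_le_add (hC₁' H) (hC₂' H)).trans (le_of_eq (by ring)))
  rw [← Nat.cast_add]
  exact Nat.cast_le.2 (@card_filter_or _ _ _ _ _ (fun _ => Classical.propDecidable _)
    (fun _ => Classical.propDecidable _) (fun _ => Classical.propDecidable _) fun a ha => ha)

theorem bd_false {ι : Type} [Fintype ι] [DecidableEq ι] :
    Bd (ι := ι) fun _ _ => False := by
  classical
  refine ⟨0, fun M q _ _ _ r => ⟨0, fun H => ?_⟩⟩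
  simp

/-- An event that forces `M` to be small. -/
theorem bd_const {ι : Type} [Fintype ι] [DecidableEq ι] (l : ℕ) {E : ℕ → (ι → ℤ) → Prop}
    (hE : ∀ M x, E M x → M ≤ l) : Bd E := by
  classical
  refine ⟨l, fun M q hM _ _ r => ⟨0, fun H => ?_⟩⟩
  rw [zero_div, add_zero]
  by_cases h : M ≤ l
  · have h1 : (((box ι H).filter fun a => E M (fun i => r i + q * a i)).card : ℝ) ≤
        (2 * H + 1) ^ Fintype.card ι := by
      have := (Finset.card_filter_le (box ι H) fun a => E M (fun i => r i + q * a i)).trans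
        (le_of_eq (card_box H))
      exact_mod_cast this
    refine h1.trans ?_
    have hM' : (0 : ℝ) < M := by exact_mod_cast hM
    have h2 : (1 : ℝ) ≤ l / M := by
      rw [le_div_iff₀ hM', one_mul]
      exact_mod_cast h
    exact le_mul_of_one_le_left (by positivity) h2
  · have h1 : ((box ι H).filter fun a => E M (fun i => r i + q * a i)) = ∅ := by
      rw [Finset.filter_eq_empty_iff]
      intro a _ ha
      exact h (hE _ _ ha)
    rw [h1, Finset.card_empty, Nat.cast_zero]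
    positivity

/-- Events that do not depend on the first coordinate. -/
theorem bd_tail {n : ℕ} {E : ℕ → (Fin n → ℤ) → Prop} (h : Bd E) :
    Bd (ι := Fin (n + 1)) fun M x => E M (Fin.tail x) := by
  classical
  obtain ⟨C, hC⟩ := h
  refine ⟨C, fun M q hM hq hpq r => ?_⟩
  obtain ⟨C', hC'⟩ := hC M q hM hq hpq (Fin.tail r)
  refine ⟨C', fun H => ?_⟩
  have h1 : ((box (Fin (n + 1)) H).filter
      fun a => E M (Fin.tail fun i => r i + q * a i)).card =
      ((box (Fin n) H).filter fun a => E M (fun i => Fin.tail r i + q * a i)).card *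
        (2 * H + 1) := by
    rw [card_box_succ]
    have : ∀ a ∈ box (Fin n) H, ((Finset.Icc (-(H : ℤ)) H).filter fun t =>
        E M (Fin.tail fun i => r i + q * (Fin.cons t a : Fin (n + 1) → ℤ) i)).card =
        if E M (fun i => Fin.tail r i + q * a i) then (2 * H + 1) else 0 := by
      intro a _
      have h2 : ∀ t : ℤ, (Fin.tail fun i => r i + q * (Fin.cons t a : Fin (n + 1) → ℤ) i) =
          fun i => Fin.tail r i + q * a i := by
        intro t
        funext i
        simp [Fin.tail]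
      simp only [h2]
      split_ifs with h3
      · rw [Finset.filter_true_of_mem fun _ _ => h3, card_Icc_box]
      · rw [Finset.filter_false_of_mem fun _ _ => h3, Finset.card_empty]
    rw [Finset.sum_congr rfl this, ← Finset.sum_filter, Finset.sum_const, smul_eq_mul]
  rw [h1, Fintype.card_fin]
  have h2 := hC' H
  rw [Fintype.card_fin] at h2
  push_cast
  calc _ ≤ ((C / M + C' / (2 * H + 1)) * (2 * H + 1) ^ n) * (2 * H + 1) :=
        mul_le_mul_of_nonneg_right h2 (by positivity)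
    _ = _ := by ring


/-- For a fixed tail, the values of the first coordinate at which `F` vanishes modulo `p`. -/
theorem card_fiber_poly {n : ℕ} (F : Polynomial (MvPolynomial (Fin n) ℤ)) (H p q : ℕ)
    (hp : p.Prime) (hq : ¬ p ∣ q) (r₀ : ℤ) (x : Fin n → ℤ)
    (hc : ¬ (p : ℤ) ∣ eval x F.leadingCoeff) :
    ((Finset.Icc (-(H : ℤ)) H).filter fun t =>
      (p : ℤ) ∣ (F.map (eval x)).eval (r₀ + q * t)).card ≤
        F.natDegree * ((2 * H + 1) / p + 1) := by
  have := Fact.mk hp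
  set P : Polynomial (ZMod p) := (F.map (eval x)).map (Int.castRingHom (ZMod p)) with hP
  have hP0 : P ≠ 0 := by
    intro h
    apply hc
    have h1 : P.coeff F.natDegree = 0 := by rw [h, Polynomial.coeff_zero]
    rw [hP, Polynomial.coeff_map, Polynomial.coeff_map, eq_intCast] at h1
    exact (ZMod.intCast_zmod_eq_zero_iff_dvd _ p).1 h1
  have h1 := card_roots_fiber (Finset.Icc (-(H : ℤ)) H)
    (fun t => ((r₀ + q * t : ℤ) : ZMod p)) _ (card_fiber_zmod H p q hp hq r₀) P hP0
  refine le_trans (le_of_eq ?_) (h1.trans (Nat.mul_le_mul_right _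
    (Polynomial.natDegree_map_le.trans Polynomial.natDegree_map_le)))
  congr 1
  apply Finset.filter_congr
  intro t _
  have h2 := Polynomial.eval_intCast_map (Int.castRingHom (ZMod p)) (F.map (eval x)) (r₀ + q * t)
  rw [hP, h2, Int.cast_id, eq_intCast, ZMod.intCast_zmod_eq_zero_iff_dvd]

theorem card_zeros_mod {n : ℕ} (g : MvPolynomial (Fin n) ℤ) (hg : Irreducible g)
    (hdeg : g.totalDegree ≠ 0) (H p q : ℕ) (hp : p.Prime) (hq : ¬ p ∣ q) (r : Fin n → ℤ) :
    ((box (Fin n) H).filter fun a =>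
      (p : ℤ) ∣ eval (fun i => r i + q * a i) g).card * (2 * H + 1) ≤
      g.totalDegree * ((2 * H + 1) / p + 1) * (2 * H + 1) ^ n := by
  have := Fact.mk hp
  have h0 := map_zmod_ne_zero g hg hdeg p hp
  have h1 := card_zeros_box H ((2 * H + 1) / p + 1) n
    (fun i t => ((r i + q * t : ℤ) : ZMod p)) (fun i => card_fiber_zmod H p q hp hq (r i)) _ h0
  have h2 : (map (Int.castRingHom (ZMod p)) g).totalDegree ≤ g.totalDegree :=
    Finset.sup_mono (support_map_subset _ _)
  refine le_trans (le_of_eq ?_) (h1.trans (Nat.mul_le_mul_right _ (Nat.mul_le_mul_right _ h2)))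
  congr 2
  apply Finset.filter_congr
  intro a _
  have h3 := eval₂_comp (Int.castRingHom (ZMod p)) (fun i => r i + q * a i) g
  rw [eval_map, ← ZMod.intCast_zmod_eq_zero_iff_dvd]
  have h4 : ((Int.castRingHom (ZMod p)) : ℤ → ZMod p) ∘ (fun i => r i + q * a i) =
      fun i => ((r i + q * a i : ℤ) : ZMod p) := rfl
  rw [h4] at h3
  rw [← h3, eq_intCast]

theorem card_zeros_int {n : ℕ} (g : MvPolynomial (Fin n) ℤ) (hg : g ≠ 0)
    (H q : ℕ) (hq : 1 ≤ q) (r : Fin n → ℤ) :
    ((box (Fin n) H).filter fun a => eval (fun i => r i + q * a i) g = 0).card * (2 * H + 1) ≤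
      g.totalDegree * 1 * (2 * H + 1) ^ n := by
  refine card_zeros_box H 1 n (fun i t => (r i + q * t : ℤ)) (fun i y => ?_) g hg
  rw [Finset.card_le_one]
  intro t ht t' ht'
  rw [Finset.mem_filter] at ht ht'
  have h1 : (q : ℤ) * t = q * t' := by
    have := ht.2.trans ht'.2.symm
    linarith
  exact mul_left_cancel₀ (by exact_mod_cast (by omega : q ≠ 0)) h1


open Classical in
/-- The fibre bound for the exceptional event. -/
theorem card_fiber_bad {n : ℕ} (g : MvPolynomial (Fin n) ℤ)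
    (F : Polynomial (MvPolynomial (Fin n) ℤ)) (H M q B D : ℕ) (r₀ : ℤ) (x : Fin n → ℤ)
    (hpq : ∀ p : ℕ, p.Prime → M < p → ¬ p ∣ q)
    (hB : eval x g ≠ 0 → (eval x g).natAbs ≤ B * (2 * H + 1) ^ D) :
    ((Finset.Icc (-(H : ℤ)) H).filter fun t => ∃ p : ℕ, p.Prime ∧ M < p ∧
      (p : ℤ) ∣ eval x g ∧ ¬ (p : ℤ) ∣ eval x F.leadingCoeff ∧
        (p : ℤ) ∣ (F.map (eval x)).eval (r₀ + q * t)).card ≤
      (∑ p ∈ (Finset.Ioc M (2 * H + 1)).filter Nat.Prime,
        if (p : ℤ) ∣ eval x g then F.natDegree * ((2 * H + 1) / p + 1) else 0) +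
      (if eval x g = 0 then 2 * H + 1 else (D + B) * F.natDegree) := by
  classical
  set L := 2 * H + 1 with hL
  set T : ℕ → Finset ℤ := fun p => (Finset.Icc (-(H : ℤ)) H).filter fun t =>
    ¬ (p : ℤ) ∣ eval x F.leadingCoeff ∧ (p : ℤ) ∣ (F.map (eval x)).eval (r₀ + q * t) with hT
  have hTcard : ∀ p : ℕ, p.Prime → M < p → (T p).card ≤ F.natDegree * (L / p + 1) := by
    intro p hp hMp
    by_cases hc : (p : ℤ) ∣ eval x F.leadingCoeff
    · have : T p = ∅ := by
        rw [hT]
        exact Finset.filter_false_of_mem fun t _ h => h.1 hc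
      rw [this, Finset.card_empty]
      exact Nat.zero_le _
    · refine le_trans (Finset.card_le_card ?_) (card_fiber_poly F H p q hp (hpq p hp hMp) r₀ x hc)
      intro t ht
      rw [hT, Finset.mem_filter] at ht
      rw [Finset.mem_filter]
      exact ⟨ht.1, ht.2.2⟩
  set U : Finset ℤ := if eval x g = 0 then Finset.Icc (-(H : ℤ)) H else
    ((eval x g).natAbs.primeFactors.filter fun p => L < p ∧ M < p).biUnion T with hU
  have hsub : ((Finset.Icc (-(H : ℤ)) H).filter fun t => ∃ p : ℕ, p.Prime ∧ M < p ∧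
      (p : ℤ) ∣ eval x g ∧ ¬ (p : ℤ) ∣ eval x F.leadingCoeff ∧
        (p : ℤ) ∣ (F.map (eval x)).eval (r₀ + q * t)) ⊆
      ((((Finset.Ioc M L).filter Nat.Prime).filter
        fun p : ℕ => (p : ℤ) ∣ eval x g).biUnion T) ∪ U := by
    intro t ht
    rw [Finset.mem_filter] at ht
    obtain ⟨ht0, p, hp, hMp, hpg, hpc, hpF⟩ := ht
    rw [Finset.mem_union]
    by_cases hpL : p ≤ L
    · left
      rw [Finset.mem_biUnion]
      refine ⟨p, ?_, ?_⟩
      · rw [Finset.mem_filter, Finset.mem_filter, Finset.mem_Ioc]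
        exact ⟨⟨⟨hMp, hpL⟩, hp⟩, hpg⟩
      · rw [hT, Finset.mem_filter]
        exact ⟨ht0, hpc, hpF⟩
    · right
      rw [hU]
      split_ifs with h0
      · exact ht0
      · rw [Finset.mem_biUnion]
        refine ⟨p, ?_, ?_⟩
        · rw [Finset.mem_filter, Nat.mem_primeFactors]
          refine ⟨⟨hp, Int.natCast_dvd.1 hpg, ?_⟩, by omega, hMp⟩
          exact Int.natAbs_ne_zero.2 h0
        · rw [hT, Finset.mem_filter]
          exact ⟨ht0, hpc, hpF⟩
  refine (Finset.card_le_card hsub).trans ((Finset.card_union_le _ _).trans (add_le_add ?_ ?_))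
  · refine Finset.card_biUnion_le.trans ?_
    rw [Finset.sum_filter]
    refine Finset.sum_le_sum ?_
    intro p hp
    rw [Finset.mem_filter, Finset.mem_Ioc] at hp
    split_ifs with h
    · exact hTcard p hp.2 hp.1.1
    · exact le_rfl
  · rw [hU]
    split_ifs with h0
    · exact le_of_eq (card_Icc_box H)
    · refine Finset.card_biUnion_le.trans ?_
      have h1 : ∀ p ∈ (eval x g).natAbs.primeFactors.filter (fun p => L < p ∧ M < p),
          (T p).card ≤ F.natDegree := by
        intro p hp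
        rw [Finset.mem_filter, Nat.mem_primeFactors] at hp
        have := hTcard p hp.1.1 hp.2.2
        rwa [Nat.div_eq_of_lt hp.2.1, zero_add, mul_one] at this
      refine (Finset.sum_le_card_nsmul _ _ _ h1).trans ?_
      rw [smul_eq_mul]
      refine Nat.mul_le_mul_right _ ?_
      refine le_trans (Finset.card_le_card ?_)
        (card_large_primes L B D (eval x g) h0 (by omega) (hB h0))
      intro p hp
      rw [Finset.mem_filter] at hp ⊢
      exact ⟨hp.1, hp.2.1⟩

theorem bd_bad {n : ℕ} (g : MvPolynomial (Fin n) ℤ) (hg : Irreducible g)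
    (hdeg : g.totalDegree ≠ 0) (F : Polynomial (MvPolynomial (Fin n) ℤ)) :
    Bd (ι := Fin (n + 1)) fun M x => ∃ p : ℕ, p.Prime ∧ M < p ∧
      (p : ℤ) ∣ eval (Fin.tail x) g ∧ ¬ (p : ℤ) ∣ eval (Fin.tail x) F.leadingCoeff ∧
        (p : ℤ) ∣ (F.map (eval (Fin.tail x))).eval (x 0) := by
  classical
  set D := g.totalDegree with hD
  set k := F.natDegree with hk
  refine ⟨4 * D * k, fun M q hM hq hpq r => ?_⟩
  set ρ : ℕ := ∑ i, (r i).natAbs + q with hρ
  set B : ℕ := (∑ s ∈ g.support, (g.coeff s).natAbs) * ρ ^ D with hB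
  refine ⟨(D + B) * k + D, fun H => ?_⟩
  have hpq' : ∀ p : ℕ, p.Prime → M < p → ¬ p ∣ q := fun p hp hMp h =>
    absurd (hpq p hp h) (by omega)
  set x : (Fin n → ℤ) → (Fin n → ℤ) := fun a i => r i.succ + q * a i with hx
  have hfib : ∀ a ∈ box (Fin n) H, (eval (x a) g).natAbs ≤ B * (2 * H + 1) ^ D := by
    intro a ha
    have h1 := natAbs_eval_le g (ρ * (2 * H + 1)) (by
      have : 1 ≤ ρ := by omega
      nlinarith) (x a) (by
        intro i
        have h2 : (r i.succ).natAbs ≤ ∑ i, (r i).natAbs :=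
          Finset.single_le_sum (f := fun i => (r i).natAbs) (fun _ _ => Nat.zero_le _)
            (Finset.mem_univ _)
        have h3 : (a i).natAbs ≤ H := by
          have := (Fintype.mem_piFinset.1 ha) i
          rw [Finset.mem_Icc] at this
          omega
        have h4 : (x a i).natAbs ≤ (r i.succ).natAbs + q * (a i).natAbs := by
          rw [hx]
          refine (Int.natAbs_add_le _ _).trans ?_
          rw [Int.natAbs_mul, Int.natAbs_natCast]
        have h5 : q * (a i).natAbs ≤ q * H := Nat.mul_le_mul_left _ h3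
        calc (x a i).natAbs ≤ (∑ i, (r i).natAbs) + q * H := by omega
          _ ≤ ρ * (2 * H + 1) := by
            rw [hρ]
            nlinarith [Nat.zero_le (∑ i, (r i).natAbs), Nat.zero_le H, Nat.zero_le q,
              Nat.zero_le ((∑ i, (r i).natAbs) * H), Nat.zero_le (q * H)])
    refine h1.trans (le_of_eq ?_)
    rw [mul_pow, hB]
    ring
  have hcount : ((box (Fin (n + 1)) H).filter fun a => ∃ p : ℕ, p.Prime ∧ M < p ∧
      (p : ℤ) ∣ eval (Fin.tail fun i => r i + q * a i) g ∧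
      ¬ (p : ℤ) ∣ eval (Fin.tail fun i => r i + q * a i) F.leadingCoeff ∧
        (p : ℤ) ∣ (F.map (eval (Fin.tail fun i => r i + q * a i))).eval (r 0 + q * a 0)).card ≤
      (∑ p ∈ (Finset.Ioc M (2 * H + 1)).filter Nat.Prime,
        ((box (Fin n) H).filter fun a => (p : ℤ) ∣ eval (x a) g).card *
          (k * ((2 * H + 1) / p + 1))) +
      (((box (Fin n) H).filter fun a => eval (x a) g = 0).card * (2 * H + 1) +
        (2 * H + 1) ^ n * ((D + B) * k)) := by
    rw [card_box_succ]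
    have h1 : ∀ a ∈ box (Fin n) H, ((Finset.Icc (-(H : ℤ)) H).filter fun t => ∃ p : ℕ, p.Prime ∧
        M < p ∧
        (p : ℤ) ∣ eval (Fin.tail fun i => r i + q * (Fin.cons t a : Fin (n + 1) → ℤ) i) g ∧
        ¬ (p : ℤ) ∣ eval (Fin.tail fun i => r i + q * (Fin.cons t a : Fin (n + 1) → ℤ) i)
          F.leadingCoeff ∧
        (p : ℤ) ∣ (F.map (eval (Fin.tail fun i =>
          r i + q * (Fin.cons t a : Fin (n + 1) → ℤ) i))).eval
            (r 0 + q * (Fin.cons t a : Fin (n + 1) → ℤ) 0)).card ≤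
        (∑ p ∈ (Finset.Ioc M (2 * H + 1)).filter Nat.Prime,
          if (p : ℤ) ∣ eval (x a) g then k * ((2 * H + 1) / p + 1) else 0) +
        ((if eval (x a) g = 0 then 2 * H + 1 else 0) + (D + B) * k) := by
      intro a ha
      have h2 : ∀ t : ℤ, (Fin.tail fun i => r i + q * (Fin.cons t a : Fin (n + 1) → ℤ) i) =
          x a := by
        intro t
        funext i
        simp [Fin.tail, hx]
      simp only [h2, Fin.cons_zero]
      refine (card_fiber_bad g F H M q B D (r 0) (x a) hpq' fun _ => hfib a ha).trans ?_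
      refine Nat.add_le_add_left ?_ _
      split_ifs
      · exact Nat.le_add_right _ _
      · exact (Nat.zero_add _).ge
    refine (Finset.sum_le_sum h1).trans (le_of_eq ?_)
    rw [Finset.sum_add_distrib, Finset.sum_add_distrib, Finset.sum_comm, ← Finset.sum_filter,
      Finset.sum_const, Finset.sum_const, smul_eq_mul, smul_eq_mul, card_box, Fintype.card_fin]
    congr 1
    refine Finset.sum_congr rfl fun p _ => ?_
    rw [← Finset.sum_filter, Finset.sum_const, smul_eq_mul]
  -- the real estimates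
  set L : ℕ := 2 * H + 1 with hL
  have hLr : (2 * (H : ℝ) + 1) = (L : ℝ) := by rw [hL]; push_cast; ring
  have hL0 : (0 : ℝ) < L := by rw [← hLr]; positivity
  have hM0 : (0 : ℝ) < M := by exact_mod_cast hM
  have hsmall : ∀ p ∈ (Finset.Ioc M L).filter Nat.Prime,
      ((((box (Fin n) H).filter fun a => (p : ℤ) ∣ eval (x a) g).card *
          (k * (L / p + 1)) : ℕ) : ℝ) ≤ 4 * D * k * (L : ℝ) ^ (n + 1) * ((p : ℝ) ^ 2)⁻¹ := by
    intro p hp
    rw [Finset.mem_filter, Finset.mem_Ioc] at hp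
    have hp0 : (0 : ℝ) < p := by exact_mod_cast hp.2.pos
    have h1 := card_zeros_mod g hg hdeg H p q hp.2 (hpq' p hp.2 hp.1.1) (fun i => r i.succ)
    set N := ((box (Fin n) H).filter fun a => (p : ℤ) ∣ eval (x a) g).card with hN
    have h2 : ((L / p + 1 : ℕ) : ℝ) ≤ 2 * L / p := by
      have h3 : ((L / p : ℕ) : ℝ) ≤ (L : ℝ) / p := Nat.cast_div_le
      have h4 : (1 : ℝ) ≤ (L : ℝ) / p := by
        rw [le_div_iff₀ hp0, one_mul]
        exact_mod_cast hp.1.2
      push_cast
      calc ((L / p : ℕ) : ℝ) + 1 ≤ (L : ℝ) / p + (L : ℝ) / p := add_le_add h3 h4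
        _ = 2 * L / p := by ring
    have h1' : (N : ℝ) * L ≤ D * ((L / p + 1 : ℕ) : ℝ) * (L : ℝ) ^ n := by
      exact_mod_cast h1
    have h5 : (N : ℝ) * L ≤ D * (2 * L / p) * (L : ℝ) ^ n := by
      refine h1'.trans ?_
      gcongr
    have h6 : (N : ℝ) ≤ D * (2 / p) * (L : ℝ) ^ n := by
      have h7 : (N : ℝ) * L ≤ (D * (2 / p) * (L : ℝ) ^ n) * L := by
        refine h5.trans (le_of_eq ?_)
        ring
      exact le_of_mul_le_mul_right h7 hL0
    have h8 : (((N * (k * (L / p + 1)) : ℕ)) : ℝ) = (N : ℝ) * (k * ((L / p + 1 : ℕ) : ℝ)) := by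
      push_cast
      ring
    rw [h8]
    calc (N : ℝ) * (k * ((L / p + 1 : ℕ) : ℝ)) ≤
          (D * (2 / p) * (L : ℝ) ^ n) * (k * (2 * L / p)) := by
          gcongr
      _ = 4 * D * k * (L : ℝ) ^ (n + 1) * ((p : ℝ) ^ 2)⁻¹ := by
          field_simp
          ring
  have hsum : (∑ p ∈ (Finset.Ioc M L).filter Nat.Prime, ((p : ℝ) ^ 2)⁻¹) ≤ 1 / M := by
    refine le_trans (Finset.sum_le_sum_of_subset_of_nonneg (Finset.filter_subset _ _)
      fun _ _ _ => by positivity) ?_
    by_cases hML : M ≤ L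
    · refine (sum_Ioc_inv_sq_le_sub (by omega) hML).trans ?_
      rw [one_div]
      have : (0 : ℝ) ≤ (L : ℝ)⁻¹ := by positivity
      linarith
    · rw [Finset.Ioc_eq_empty (by omega), Finset.sum_empty]
      positivity
  have hzero : ((((box (Fin n) H).filter fun a => eval (x a) g = 0).card * L : ℕ) : ℝ) ≤
      D * (L : ℝ) ^ n := by
    have := card_zeros_int g hg.ne_zero H q hq (fun i => r i.succ)
    rw [mul_one] at this
    exact_mod_cast this
  have hcount' : ((((box (Fin (n + 1)) H).filter fun a => ∃ p : ℕ, p.Prime ∧ M < p ∧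
      (p : ℤ) ∣ eval (Fin.tail fun i => r i + q * a i) g ∧
      ¬ (p : ℤ) ∣ eval (Fin.tail fun i => r i + q * a i) F.leadingCoeff ∧
        (p : ℤ) ∣ (F.map (eval (Fin.tail fun i => r i + q * a i))).eval
          (r 0 + q * a 0)).card : ℕ) : ℝ) ≤
      (∑ p ∈ (Finset.Ioc M L).filter Nat.Prime,
        4 * D * k * (L : ℝ) ^ (n + 1) * ((p : ℝ) ^ 2)⁻¹) +
      (D * (L : ℝ) ^ n + (L : ℝ) ^ n * ((D + B) * k)) := by
    refine (Nat.cast_le.2 hcount).trans ?_
    rw [Nat.cast_add, Nat.cast_sum, Nat.cast_add]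
    refine add_le_add (Finset.sum_le_sum hsmall) (add_le_add hzero (le_of_eq ?_))
    push_cast
    ring
  refine hcount'.trans ?_
  rw [← Finset.mul_sum, Fintype.card_fin, hLr]
  calc 4 * D * k * (L : ℝ) ^ (n + 1) * (∑ p ∈ (Finset.Ioc M L).filter Nat.Prime,
        ((p : ℝ) ^ 2)⁻¹) + (D * (L : ℝ) ^ n + (L : ℝ) ^ n * ((D + B) * k)) ≤
      4 * D * k * (L : ℝ) ^ (n + 1) * (1 / M) +
        (D * (L : ℝ) ^ n + (L : ℝ) ^ n * ((D + B) * k)) := by
        gcongr
    _ = (4 * D * k / M + (((D : ℝ) + B) * k + D) / L) * (L : ℝ) ^ (n + 1) := by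
        field_simp
        ring

/-! ### The induction -/

/-- The event that a prime larger than `M` divides two given values. -/
def Ev {ι : Type} (g F : MvPolynomial ι ℤ) (M : ℕ) (x : ι → ℤ) : Prop :=
  ∃ p : ℕ, p.Prime ∧ M < p ∧ (p : ℤ) ∣ eval x g ∧ (p : ℤ) ∣ eval x F

/-- The same event for a polynomial in the last coordinates and a general one. -/
def EvP {n : ℕ} (g : MvPolynomial (Fin n) ℤ) (F : Polynomial (MvPolynomial (Fin n) ℤ)) (M : ℕ)
    (x : Fin (n + 1) → ℤ) : Prop :=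
  ∃ p : ℕ, p.Prime ∧ M < p ∧ (p : ℤ) ∣ eval (Fin.tail x) g ∧
    (p : ℤ) ∣ (F.map (eval (Fin.tail x))).eval (x 0)

theorem le_natAbs_of_dvd_eval_C {ι : Type} (g : MvPolynomial ι ℤ) (hg : Irreducible g)
    (hdeg : g.totalDegree = 0) : ∃ l : ℕ, ∀ (M p : ℕ) (x : ι → ℤ), M < p →
      (p : ℤ) ∣ eval x g → M ≤ l := by
  obtain ⟨l, hl⟩ : ∃ l : ℤ, g = C l := ⟨g.coeff 0, totalDegree_eq_zero_iff_eq_C.1 hdeg⟩
  refine ⟨l.natAbs, fun M p x hMp hp => ?_⟩
  rw [hl, eval_C] at hp
  have hl0 : l ≠ 0 := by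
    rintro rfl
    rw [C_0] at hl
    exact hg.ne_zero hl
  have h1 := Nat.le_of_dvd (Int.natAbs_pos.2 hl0) (Int.natCast_dvd.1 hp)
  omega

theorem bd_step {n : ℕ}
    (IH : ∀ g c : MvPolynomial (Fin n) ℤ, Irreducible g → ¬ g ∣ c → Bd (Ev g c))
    (g : MvPolynomial (Fin n) ℤ) (hg : Irreducible g) :
    ∀ (m : ℕ) (F : Polynomial (MvPolynomial (Fin n) ℤ)), F.support.card ≤ m →
      ¬ Polynomial.C g ∣ F → Bd (EvP g F) := by
  by_cases hdeg : g.totalDegree = 0
  · intro m F _ _
    obtain ⟨l, hl⟩ := le_natAbs_of_dvd_eval_C g hg hdeg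
    refine bd_const l ?_
    rintro M x ⟨p, _, hMp, hpg, _⟩
    exact hl M p _ hMp hpg
  intro m
  induction m with
  | zero =>
    intro F hF hdvd
    exfalso
    apply hdvd
    rw [Nat.le_zero, Finset.card_eq_zero, Polynomial.support_eq_empty] at hF
    rw [hF]
    exact dvd_zero _
  | succ m ih =>
    intro F hF hdvd
    have hF0 : F ≠ 0 := by
      rintro rfl
      exact hdvd (dvd_zero _)
    have hexp := Polynomial.eraseLead_add_C_mul_X_pow F
    have hev : ∀ x : Fin (n + 1) → ℤ, (F.map (eval (Fin.tail x))).eval (x 0) =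
        (F.eraseLead.map (eval (Fin.tail x))).eval (x 0) +
          eval (Fin.tail x) F.leadingCoeff * x 0 ^ F.natDegree := by
      intro x
      conv_lhs => rw [← hexp]
      rw [Polynomial.map_add, Polynomial.map_mul, Polynomial.map_pow, Polynomial.map_C,
        Polynomial.map_X, Polynomial.eval_add, Polynomial.eval_mul, Polynomial.eval_pow,
        Polynomial.eval_C, Polynomial.eval_X]
    by_cases hc : g ∣ F.leadingCoeff
    · refine (ih F.eraseLead ?_ ?_).mono ?_
      · have := Polynomial.eraseLead_support_card_lt hF0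
        omega
      · intro h
        apply hdvd
        rw [← hexp]
        exact dvd_add h (Dvd.dvd.mul_right (_root_.map_dvd Polynomial.C hc) _)
      · rintro M x ⟨p, hp, hMp, hpg, hpF⟩
        refine ⟨p, hp, hMp, hpg, ?_⟩
        have h1 : (p : ℤ) ∣ eval (Fin.tail x) F.leadingCoeff :=
          hpg.trans (_root_.map_dvd (eval (Fin.tail x)) hc)
        rw [hev x] at hpF
        exact (Int.dvd_add_left (h1.mul_right _)).1 hpF
    · refine ((bd_tail (IH g F.leadingCoeff hg hc)).or (bd_bad g hg hdeg F)).mono ?_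
      rintro M x ⟨p, hp, hMp, hpg, hpF⟩
      by_cases h : (p : ℤ) ∣ eval (Fin.tail x) F.leadingCoeff
      · exact Or.inl ⟨p, hp, hMp, hpg, h⟩
      · exact Or.inr ⟨p, hp, hMp, hpg, h, hpF⟩

theorem eval_eq_tail {n : ℕ} (f : MvPolynomial (Fin (n + 1)) ℤ) (x : Fin (n + 1) → ℤ) :
    eval x f = ((finSuccEquiv ℤ n f).map (eval (Fin.tail x))).eval (x 0) := by
  rw [← eval_eq_eval_mv_eval', Fin.cons_self_tail]

theorem bd_main : ∀ (n : ℕ) (g F : MvPolynomial (Fin n) ℤ), Irreducible g → ¬ g ∣ F →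
    Bd (Ev g F) := by
  intro n
  induction n with
  | zero =>
    intro g F hg _
    have hdeg : g.totalDegree = 0 := by
      rw [eq_C_of_isEmpty g, totalDegree_C]
    obtain ⟨l, hl⟩ := le_natAbs_of_dvd_eval_C g hg hdeg
    refine bd_const l ?_
    rintro M x ⟨p, _, hMp, hpg, _⟩
    exact hl M p _ hMp hpg
  | succ n IH =>
    intro g F hg hF
    set G := finSuccEquiv ℤ n g with hG
    set F' := finSuccEquiv ℤ n F with hF'
    have hGirr : Irreducible G :=
      (MulEquiv.irreducible_iff (finSuccEquiv ℤ n)).2 hg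
    have hGF : ¬ G ∣ F' := by
      intro h
      apply hF
      have := _root_.map_dvd (finSuccEquiv ℤ n).symm h
      rwa [hG, hF', AlgEquiv.symm_apply_apply, AlgEquiv.symm_apply_apply] at this
    by_cases hd : G.natDegree = 0
    · have hGC := Polynomial.eq_C_of_natDegree_eq_zero hd
      set g' := G.coeff 0 with hg'
      have hg'irr : Irreducible g' := by
        have h1 : Prime G := hGirr.prime
        rw [hGC, Polynomial.prime_C_iff] at h1
        exact h1.irreducible
      rw [hGC] at hGF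
      refine (bd_step IH g' hg'irr _ F' le_rfl hGF).mono ?_
      rintro M x ⟨p, hp, hMp, hpg, hpF⟩
      refine ⟨p, hp, hMp, ?_, ?_⟩
      · rw [eval_eq_tail, ← hG, hGC, Polynomial.map_C, Polynomial.eval_C] at hpg
        exact hpg
      · rw [eval_eq_tail] at hpF
        exact hpF
    · obtain ⟨R, hR0, u, v, huv⟩ := exists_elim G F' hGirr hd hGF
      have hall : ∀ R : MvPolynomial (Fin n) ℤ, R ≠ 0 → Bd (EvP R G) := by
        intro R
        refine UniqueFactorizationMonoid.induction_on_prime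
          (P := fun R : MvPolynomial (Fin n) ℤ => R ≠ 0 → Bd (EvP R G)) R ?_ ?_ ?_
        · intro h
          exact absurd rfl h
        · intro u hu _
          refine bd_false.mono ?_
          rintro M x ⟨p, hp, _, hpg, _⟩
          have h1 : IsUnit (eval (Fin.tail x) u) := hu.map (eval (Fin.tail x))
          have h2 : IsUnit (p : ℤ) := isUnit_of_dvd_unit hpg h1
          have h3 := Int.isUnit_iff_natAbs_eq.1 h2
          rw [Int.natAbs_natCast] at h3
          exact hp.one_lt.ne' h3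
        · intro a h ha hh iha _
          have h1 : ¬ Polynomial.C h ∣ G := by
            rintro ⟨W, hW⟩
            rcases hGirr.isUnit_or_isUnit hW with h2 | h2
            · exact hh.not_isUnit (Polynomial.isUnit_C.1 h2)
            · apply hd
              rw [hW, Polynomial.natDegree_C_mul hh.ne_zero,
                Polynomial.natDegree_eq_zero_of_isUnit h2]
          refine ((bd_step IH h hh.irreducible _ G le_rfl h1).or (iha ha)).mono ?_
          rintro M x ⟨p, hp, hMp, hpg, hpG⟩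
          rw [map_mul] at hpg
          rcases Int.Prime.dvd_mul' hp hpg with h2 | h2
          · exact Or.inl ⟨p, hp, hMp, h2, hpG⟩
          · exact Or.inr ⟨p, hp, hMp, h2, hpG⟩
      refine (hall R hR0).mono ?_
      rintro M x ⟨p, hp, hMp, hpg, hpF⟩
      rw [eval_eq_tail] at hpg hpF
      refine ⟨p, hp, hMp, ?_, hpg⟩
      have h1 := congrArg (fun Q => (Q.map (eval (Fin.tail x))).eval (x 0)) huv
      simp only [Polynomial.map_add, Polynomial.map_mul, Polynomial.eval_add, Polynomial.eval_mul,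
        Polynomial.map_C, Polynomial.eval_C] at h1
      rw [← h1]
      exact dvd_add (hpg.mul_right _) (hpF.mul_right _)

end Sieve

open Classical in
/-- **The Ekedahl–Poonen sieve.** If `g` is irreducible and does not divide `F`, then for most
integer points of a residue class modulo `q` (a number with all prime factors at most `M`) no
prime larger than `M` divides both values. -/
theorem dens_sieve {ι : Type} [Fintype ι] [DecidableEq ι] (g F : MvPolynomial ι ℤ)
    (hg : Irreducible g) (hF : ¬ g ∣ F) :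
    ∃ C : ℝ, ∀ (M q : ℕ), 1 ≤ M → 1 ≤ q → (∀ p : ℕ, p.Prime → p ∣ q → p ≤ M) →
      ∀ r : ι → ℤ, ∃ C' : ℝ, ∀ H : ℕ,
        (((box ι H).filter fun a => ∃ p : ℕ, p.Prime ∧ M < p ∧
            (p : ℤ) ∣ eval (fun i => r i + q * a i) g ∧
            (p : ℤ) ∣ eval (fun i => r i + q * a i) F).card : ℝ) ≤
          (C / M + C' / (2 * H + 1)) * (2 * H + 1) ^ Fintype.card ι := by
  set n := Fintype.card ι with hn
  let e : ι ≃ Fin n := Fintype.equivFin ι
  have hg' : Irreducible (rename e g) := (MulEquiv.irreducible_iff (renameEquiv ℤ e)).2 hg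
  have hF' : ¬ rename e g ∣ rename e F := by
    intro h
    apply hF
    have := _root_.map_dvd (renameEquiv ℤ e).symm h
    have h1 : ∀ f : MvPolynomial ι ℤ, (renameEquiv ℤ e).symm (rename e f) = f := fun f =>
      (renameEquiv ℤ e).symm_apply_apply f
    rwa [h1, h1] at this
  obtain ⟨C, hC⟩ := Sieve.bd_main n _ _ hg' hF'
  refine ⟨C, fun M q hM hq hpq r => ?_⟩
  obtain ⟨C', hC'⟩ := hC M q hM hq hpq (r ∘ e.symm)
  refine ⟨C', fun H => le_trans ?_ (le_of_le_of_eq (hC' H) (by rw [Fintype.card_fin]))⟩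
  refine Nat.cast_le.2 ?_
  refine Finset.card_le_card_of_injOn (fun a => a ∘ e.symm) ?_ ?_
  · intro a ha
    rw [Finset.mem_coe, Finset.mem_filter] at ha ⊢
    obtain ⟨ha0, p, hp, hMp, h1, h2⟩ := ha
    refine ⟨?_, p, hp, hMp, ?_, ?_⟩
    · rw [box, Fintype.mem_piFinset] at ha0 ⊢
      exact fun i => ha0 _
    · rw [eval_rename]
      convert h1 using 3
      funext i
      simp
    · rw [eval_rename]
      convert h2 using 3
      funext i
      simp
  · intro a _ b _ hab
    funext i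
    have := congrFun hab (e i)
    simpa using this

end Pool.Agent.Lib.MP_6a3dac_ag
end

section

/-!
# Norm polynomials of coprime polynomials are coprime
-/

set_option autoImplicit false

namespace Pool.Agent.Lib.MP_6a3dac_ag

open MvPolynomial NumberField

namespace NormCoprime

/-- Elimination of a variable. -/
theorem elim {ι : Type} [Fintype ι] [DecidableEq ι] (g F : MvPolynomial ι ℤ)
    (hg : Irreducible g) (hF : ¬ g ∣ F) (a : ι) (ha : degreeOf a g ≠ 0) :
    ∃ R : MvPolynomial {b // b ≠ a} ℤ, R ≠ 0 ∧ ∃ u v : MvPolynomial ι ℤ,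
      g * u + F * v = rename Subtype.val R := by
  classical
  let Θ : MvPolynomial ι ℤ ≃ₐ[ℤ] Polynomial (MvPolynomial {b // b ≠ a} ℤ) :=
    (renameEquiv ℤ (Equiv.optionSubtypeNe a).symm).trans (optionEquivLeft ℤ {b // b ≠ a})
  have hΘ : ∀ p, Θ p = optionEquivLeft ℤ {b // b ≠ a}
      (rename (Equiv.optionSubtypeNe a).symm p) := fun p => rfl
  have h1 : Irreducible (Θ g) := (MulEquiv.irreducible_iff Θ).2 hg
  have h2 : (Θ g).natDegree ≠ 0 := by
    rw [hΘ, ← degreeOf_eq_natDegree]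
    exact ha
  have h3 : ¬ Θ g ∣ Θ F := by
    intro h
    apply hF
    have := map_dvd Θ.symm h
    rwa [AlgEquiv.symm_apply_apply, AlgEquiv.symm_apply_apply] at this
  obtain ⟨R, hR, u, v, huv⟩ := Sieve.exists_elim (Θ g) (Θ F) h1 h2 h3
  refine ⟨R, hR, Θ.symm u, Θ.symm v, ?_⟩
  apply Θ.injective
  rw [map_add, map_mul, map_mul, AlgEquiv.apply_symm_apply, AlgEquiv.apply_symm_apply, huv, hΘ,
    rename_rename]
  have h4 : ((Equiv.optionSubtypeNe a).symm ∘ Subtype.val : {b // b ≠ a} → Option {b // b ≠ a}) =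
      some := by
    funext x
    simpa using x.2
  rw [h4]
  have h5 : ∀ R : MvPolynomial {b // b ≠ a} ℤ,
      (optionEquivLeft ℤ {b // b ≠ a}) (rename some R) = Polynomial.C R := by
    intro R
    induction R using MvPolynomial.induction_on with
    | C c => simp
    | add p q hp hq => rw [map_add, map_add, map_add, hp, hq]
    | mul_X p i hp => rw [map_mul, map_mul, map_mul, hp, rename_X, optionEquivLeft_X_some]
  rw [h5]

/-- A divisor of a nonzero polynomial only involves its variables. -/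
theorem degreeOf_eq_zero_of_dvd {τ : Type} {K : Type} [Field K] {q P : MvPolynomial τ K}
    (h : q ∣ P) (hP : P ≠ 0) {v : τ} (hv : degreeOf v P = 0) : degreeOf v q = 0 := by
  obtain ⟨w, rfl⟩ := h
  rw [degreeOf_mul_eq (left_ne_zero_of_mul hP) (right_ne_zero_of_mul hP)] at hv
  omega

theorem degreeOf_rename_eq_zero {τ κ : Type} {K : Type} [Field K] (f : τ → κ)
    (P : MvPolynomial τ K) {v : κ} (hv : v ∉ Set.range f) : degreeOf v (rename f P) = 0 := by
  classical
  by_contra h
  have h1 : v ∈ (rename f P).vars := mem_vars_iff_degreeOf_ne_zero.2 h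
  have h2 := vars_rename f P h1
  rw [Finset.mem_image] at h2
  obtain ⟨x, _, hx⟩ := h2
  exact hv ⟨x, hx⟩

/-- The matrix of the embeddings at a basis is invertible. -/
theorem exists_inv (E : Type) [Field E] [NumberField E] {s : ℕ}
    (b : Module.Basis (Fin s) ℤ (𝓞 E)) :
    ∃ N : Fin s → (E →+* ℂ) → ℂ,
      (∀ σ τ : E →+* ℂ, σ = τ → ∑ j, σ (b j : E) * N j τ = 1) ∧
      (∀ σ τ : E →+* ℂ, σ ≠ τ → ∑ j, σ (b j : E) * N j τ = 0) ∧
      (∀ j k : Fin s, j = k → ∑ σ : E →+* ℂ, N j σ * σ (b k : E) = 1) ∧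
      (∀ j k : Fin s, j ≠ k → ∑ σ : E →+* ℂ, N j σ * σ (b k : E) = 0) := by
  classical
  let b' : Module.Basis (Fin s) ℚ E := b.localizationLocalization ℚ (nonZeroDivisors ℤ) E
  have hb' : ∀ i, b' i = (b i : E) := fun i =>
    Module.Basis.localizationLocalization_apply ℚ (nonZeroDivisors ℤ) E b i
  have hcard : Fintype.card (Fin s) = Fintype.card (E →ₐ[ℚ] ℂ) := by
    rw [AlgHom.card, Module.finrank_eq_card_basis b']
  let e : Fin s ≃ (E →ₐ[ℚ] ℂ) := Fintype.equivOfCardEq hcard
  let f : Fin s ≃ (E →+* ℂ) := e.trans (RingHom.equivRatAlgHom E ℂ).symm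
  let D : Matrix (Fin s) (Fin s) ℂ := Algebra.embeddingsMatrixReindex ℚ ℂ b' e
  have hD : ∀ i k, D i k = f k (b i : E) := by
    intro i k
    rw [← hb']
    rfl
  have hdet : D.det ≠ 0 := by
    intro h
    have h1 := Algebra.discr_eq_det_embeddingsMatrixReindex_pow_two ℚ ℂ b' e
    have h2 : (Algebra.embeddingsMatrixReindex ℚ ℂ b' e).det = 0 := h
    rw [h2, zero_pow two_ne_zero, map_eq_zero] at h1
    exact Algebra.discr_not_zero_of_basis ℚ b' h1
  have hu : IsUnit D.det := isUnit_iff_ne_zero.2 hdet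
  have hl : D⁻¹ * D = 1 := Matrix.nonsing_inv_mul D hu
  have hr : D * D⁻¹ = 1 := Matrix.mul_nonsing_inv D hu
  have key1 : ∀ σ τ : E →+* ℂ, ∑ j, σ (b j : E) * D⁻¹ (f.symm τ) j =
      (1 : Matrix (Fin s) (Fin s) ℂ) (f.symm τ) (f.symm σ) := by
    intro σ τ
    rw [← hl, Matrix.mul_apply]
    refine Finset.sum_congr rfl fun j _ => ?_
    rw [hD, Equiv.apply_symm_apply, mul_comm]
  have key2 : ∀ j k : Fin s, ∑ σ : E →+* ℂ, D⁻¹ (f.symm σ) j * σ (b k : E) =
      (1 : Matrix (Fin s) (Fin s) ℂ) k j := by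
    intro j k
    rw [← hr, Matrix.mul_apply, ← Equiv.sum_comp f]
    refine Finset.sum_congr rfl fun l _ => ?_
    rw [hD, Equiv.symm_apply_apply, mul_comm]
  refine ⟨fun j τ => D⁻¹ (f.symm τ) j, ?_, ?_, ?_, ?_⟩
  · rintro σ τ rfl
    rw [key1, Matrix.one_apply_eq]
  · intro σ τ h
    rw [key1, Matrix.one_apply_ne]
    intro h'
    exact h (f.symm.injective h').symm
  · rintro j k rfl
    rw [key2, Matrix.one_apply_eq]
  · intro j k h
    rw [key2, Matrix.one_apply_ne (Ne.symm h)]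

theorem degreeOf_map_eq {τ : Type} (P : MvPolynomial τ ℤ) (v : τ) :
    degreeOf v (map (Int.castRingHom ℂ) P) = degreeOf v P := by
  classical
  have hinj : Function.Injective (Int.castRingHom ℂ) := by
    intro x y h
    simpa using h
  rw [degreeOf_def, degreeOf_def, degrees_map_of_injective P hinj]

/-- A nonconstant polynomial does not divide both products of conjugates. -/
theorem isUnit_of_dvd {ι : Type} [Fintype ι] [DecidableEq ι] (T : Type) [Fintype T]
    (g F : MvPolynomial ι ℤ) (hg : Irreducible g) (hF : ¬ g ∣ F)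
    (q : MvPolynomial (ι × T) ℂ)
    (h1 : q ∣ ∏ σ : T, rename (fun i => (i, σ)) (map (Int.castRingHom ℂ) g))
    (h2 : q ∣ ∏ σ : T, rename (fun i => (i, σ)) (map (Int.castRingHom ℂ) F)) : IsUnit q := by
  classical
  have hinj : Function.Injective (Int.castRingHom ℂ) := by
    intro x y h
    simpa using h
  have hpinj : ∀ σ : T, Function.Injective (fun i : ι => (i, σ)) := by
    intro σ x y h
    exact (Prod.ext_iff.1 h).1
  have hg0 : g ≠ 0 := hg.ne_zero
  have hF0 : F ≠ 0 := fun h => hF (h ▸ dvd_zero g)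
  have hne : ∀ (P : MvPolynomial ι ℤ), P ≠ 0 → ∀ σ : T,
      rename (fun i => (i, σ)) (map (Int.castRingHom ℂ) P) ≠ 0 := by
    intro P hP σ h
    apply hP
    apply map_injective _ hinj
    apply rename_injective _ (hpinj σ)
    rw [h, map_zero, map_zero]
  have hq0 : q ≠ 0 := by
    rintro rfl
    rw [zero_dvd_iff, Finset.prod_eq_zero_iff] at h1
    obtain ⟨σ, _, h⟩ := h1
    exact hne g hg0 σ h
  by_contra hu
  obtain ⟨r, hr, hrq⟩ := WfDvdMonoid.exists_irreducible_factor hu hq0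
  have hrp : Prime r := hr.prime
  obtain ⟨σ, _, hσ⟩ := hrp.exists_mem_finset_dvd (hrq.trans h1)
  obtain ⟨τ, _, hτ⟩ := hrp.exists_mem_finset_dvd (hrq.trans h2)
  -- a variable of `r`
  have hv : ∃ v, degreeOf v r ≠ 0 := by
    by_contra h
    push Not at h
    have h3 : r.vars = ∅ := by
      rw [Finset.eq_empty_iff_forall_notMem]
      intro v hv
      exact mem_vars_iff_degreeOf_ne_zero.1 hv (h v)
    rw [vars_eq_empty_iff_eq_C] at h3
    apply hr.not_isUnit
    rw [h3]
    refine (isUnit_iff_ne_zero.2 ?_).map C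
    intro h4
    rw [h4, map_zero] at h3
    exact hr.ne_zero h3
  obtain ⟨v, hv⟩ := hv
  have hvσ : v.2 = σ := by
    by_contra h
    apply hv
    refine degreeOf_eq_zero_of_dvd hσ (hne g hg0 σ) (degreeOf_rename_eq_zero _ _ ?_)
    rintro ⟨x, hx⟩
    exact h (by rw [← hx])
  have hvτ : v.2 = τ := by
    by_contra h
    apply hv
    refine degreeOf_eq_zero_of_dvd hτ (hne F hF0 τ) (degreeOf_rename_eq_zero _ _ ?_)
    rintro ⟨x, hx⟩
    exact h (by rw [← hx])
  obtain ⟨a, t⟩ := v
  simp only at hvσ hvτ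
  subst hvσ
  subst hvτ
  have ha : degreeOf a g ≠ 0 := by
    intro h
    apply hv
    refine degreeOf_eq_zero_of_dvd hσ (hne g hg0 _) ?_
    rw [degreeOf_rename_of_injective (hpinj _), degreeOf_map_eq, h]
  obtain ⟨R, hR, u, v, huv⟩ := elim g F hg hF a ha
  have h5 : r ∣ rename (fun i => (i, t)) (map (Int.castRingHom ℂ) (rename Subtype.val R)) := by
    rw [← huv, map_add, map_mul, map_mul, map_add, map_mul, map_mul]
    exact dvd_add (hσ.mul_right _) (hτ.mul_right _)
  apply hv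
  refine degreeOf_eq_zero_of_dvd h5 ?_ ?_
  · apply hne
    intro h
    apply hR
    apply rename_injective _ Subtype.val_injective
    rw [h, map_zero]
  · rw [degreeOf_rename_of_injective (hpinj _), degreeOf_map_eq]
    by_contra h
    have h6 : a ∈ (rename Subtype.val R : MvPolynomial ι ℤ).vars :=
      mem_vars_iff_degreeOf_ne_zero.2 h
    have h7 := vars_rename _ R h6
    rw [Finset.mem_image] at h7
    obtain ⟨x, _, hx⟩ := h7
    exact x.2 hx

end NormCoprime

/-- TASK E2 (norm polynomials of coprime polynomials are coprime). -/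
theorem normPoly_coprime {ι : Type} [Fintype ι] [DecidableEq ι] (E : Type) [Field E]
    [NumberField E] {s : ℕ} (b : Module.Basis (Fin s) ℤ (𝓞 E)) (g F : MvPolynomial ι ℤ)
    (hg : Irreducible g) (hF : ¬ g ∣ F) {G H Q : MvPolynomial (ι × Fin s) ℤ}
    (hG : map (Int.castRingHom ℂ) G = ∏ σ : E →+* ℂ,
        eval₂ (C.comp (Int.castRingHom ℂ))
          (fun i => ∑ j, C (σ (b j : E)) * X (i, j) : ι → MvPolynomial (ι × Fin s) ℂ) g)
    (hH : map (Int.castRingHom ℂ) H = ∏ σ : E →+* ℂ,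
        eval₂ (C.comp (Int.castRingHom ℂ))
          (fun i => ∑ j, C (σ (b j : E)) * X (i, j) : ι → MvPolynomial (ι × Fin s) ℂ) F)
    (hQG : Q ∣ G) (hQH : Q ∣ H) : ∃ c : ℤ, Q = C c := by
  classical
  obtain ⟨N, hN1, hN2, hN3, hN4⟩ := NormCoprime.exists_inv E b
  let Ψ : MvPolynomial (ι × Fin s) ℂ →ₐ[ℂ] MvPolynomial (ι × (E →+* ℂ)) ℂ :=
    aeval fun p => ∑ τ : E →+* ℂ, C (N p.2 τ) * X (p.1, τ)
  let Φ : MvPolynomial (ι × (E →+* ℂ)) ℂ →ₐ[ℂ] MvPolynomial (ι × Fin s) ℂ :=
    aeval fun p => ∑ j : Fin s, C (p.2 (b j : E)) * X (p.1, j)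
  have hΨX : ∀ p, Ψ (X p) = ∑ τ : E →+* ℂ, C (N p.2 τ) * X (p.1, τ) := fun p => aeval_X _ p
  have hΦX : ∀ p, Φ (X p) = ∑ j : Fin s, C (p.2 (b j : E)) * X (p.1, j) := fun p => aeval_X _ p
  have hΨC : ∀ c, Ψ (C c) = C c := fun c => aeval_C _ c
  have hΦC : ∀ c, Φ (C c) = C c := fun c => aeval_C _ c
  -- `Φ` is a left inverse of `Ψ`
  have hΦΨ : ∀ P, Φ (Ψ P) = P := by
    intro P
    have : Φ.comp Ψ = AlgHom.id ℂ _ := by
      apply algHom_ext
      rintro ⟨i, k⟩
      rw [AlgHom.comp_apply, hΨX, map_sum, AlgHom.id_apply]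
      simp only [map_mul, hΦC, hΦX, Finset.mul_sum]
      rw [Finset.sum_comm]
      rw [Finset.sum_eq_single k]
      · have h1 : ∀ x : E →+* ℂ, (C (N k x) * (C (x (b k : E)) * X (i, k)) :
            MvPolynomial (ι × Fin s) ℂ) = C (N k x * x (b k : E)) * X (i, k) := by
          intro x
          rw [C_mul, mul_assoc]
        simp only [h1]
        rw [← Finset.sum_mul, ← map_sum, hN3 k k rfl, C_1, one_mul]
      · intro j _ hj
        have h1 : ∀ x : E →+* ℂ, (C (N k x) * (C (x (b j : E)) * X (i, j)) :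
            MvPolynomial (ι × Fin s) ℂ) = C (N k x * x (b j : E)) * X (i, j) := by
          intro x
          rw [C_mul, mul_assoc]
        simp only [h1]
        rw [← Finset.sum_mul, ← map_sum, hN4 k j (Ne.symm hj), C_0, zero_mul]
      · intro h
        exact absurd (Finset.mem_univ k) h
    have h2 := congrArg (fun f => f P) this
    simpa using h2
  -- `Ψ` maps the conjugates to the copies of the polynomial
  have hΨ : ∀ (P : MvPolynomial ι ℤ) (σ : E →+* ℂ),
      Ψ (eval₂ (C.comp (Int.castRingHom ℂ))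
          (fun i => ∑ j, C (σ (b j : E)) * X (i, j) : ι → MvPolynomial (ι × Fin s) ℂ) P) =
        rename (fun i => (i, σ)) (map (Int.castRingHom ℂ) P) := by
    intro P σ
    have hx : ∀ i : ι, Ψ (∑ j, C (σ (b j : E)) * X (i, j)) = X (i, σ) := by
      intro i
      rw [map_sum]
      simp only [map_mul, hΨC, hΨX, Finset.mul_sum]
      rw [Finset.sum_comm, Finset.sum_eq_single σ]
      · have h1 : ∀ j : Fin s, (C (σ (b j : E)) * (C (N j σ) * X (i, σ)) :
            MvPolynomial (ι × (E →+* ℂ)) ℂ) = C (σ (b j : E) * N j σ) * X (i, σ) := by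
          intro x
          rw [C_mul, mul_assoc]
        simp only [h1]
        rw [← Finset.sum_mul, ← map_sum, hN1 σ σ rfl, C_1, one_mul]
      · intro τ _ hτ
        have h1 : ∀ j : Fin s, (C (σ (b j : E)) * (C (N j τ) * X (i, τ)) :
            MvPolynomial (ι × (E →+* ℂ)) ℂ) = C (σ (b j : E) * N j τ) * X (i, τ) := by
          intro x
          rw [C_mul, mul_assoc]
        simp only [h1]
        rw [← Finset.sum_mul, ← map_sum, hN2 σ τ (Ne.symm hτ), C_0, zero_mul]
      · intro h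
        exact absurd (Finset.mem_univ σ) h
    induction P using MvPolynomial.induction_on with
    | C c => rw [eval₂_C, RingHom.comp_apply, hΨC, map_C, rename_C]
    | add p q hp hq => rw [eval₂_add, map_add, hp, hq, map_add, map_add]
    | mul_X p i hp => rw [eval₂_mul, map_mul, hp, eval₂_X, hx, map_mul, map_mul, map_X, rename_X]
  have hunit : IsUnit (Ψ (map (Int.castRingHom ℂ) Q)) := by
    refine NormCoprime.isUnit_of_dvd (E →+* ℂ) g F hg hF _ ?_ ?_
    · have h1 := map_dvd Ψ (map_dvd (map (Int.castRingHom ℂ)) hQG)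
      rw [hG, map_prod] at h1
      simpa only [hΨ] using h1
    · have h1 := map_dvd Ψ (map_dvd (map (Int.castRingHom ℂ)) hQH)
      rw [hH, map_prod] at h1
      simpa only [hΨ] using h1
  have hunit2 : IsUnit (map (Int.castRingHom ℂ) Q) := by
    have := hunit.map Φ
    rwa [hΦΨ] at this
  have hvars : ∀ v, degreeOf v Q = 0 := by
    intro v
    rw [← NormCoprime.degreeOf_map_eq]
    obtain ⟨w, hw⟩ := hunit2.exists_right_inv
    exact NormCoprime.degreeOf_eq_zero_of_dvd (Dvd.intro _ hw) one_ne_zero (degreeOf_one v)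
  refine ⟨coeff 0 Q, vars_eq_empty_iff_eq_C.1 ?_⟩
  rw [Finset.eq_empty_iff_forall_notMem]
  intro v hv
  exact mem_vars_iff_degreeOf_ne_zero.1 hv (hvars v)

end Pool.Agent.Lib.MP_6a3dac_ag
end

section

/-!
# The norm polynomial of an integer polynomial
-/

set_option autoImplicit false

namespace Pool.Agent.Lib.MP_6a3dac_ag

open MvPolynomial NumberField

namespace NormPoly

/-- The norm is the product over the complex embeddings. -/
theorem norm_cast (E : Type) [Field E] [NumberField E] (x : 𝓞 E) :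
    ((Algebra.norm ℤ x : ℤ) : ℂ) = ∏ σ : E →+* ℂ, σ (x : E) := by
  have h1 := Algebra.norm_eq_prod_embeddings ℚ ℂ (x : E)
  rw [← Algebra.coe_norm_int] at h1
  have h2 : (∏ σ : E →+* ℂ, σ (x : E)) = ∏ σ : E →ₐ[ℚ] ℂ, σ (x : E) :=
    Fintype.prod_equiv (RingHom.equivRatAlgHom E ℂ) _ _ fun σ => by
      simp [RingHom.equivRatAlgHom_apply]
  rw [h2, ← h1]
  simp

variable {κ : Type} {E : Type} [Field E] [NumberField E] {s : ℕ}

/-- The matrix of multiplication by a polynomial with coefficients in the ring of integers. -/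
noncomputable def mulMat (b : Module.Basis (Fin s) ℤ (𝓞 E)) (P : MvPolynomial κ (𝓞 E)) :
    Matrix (Fin s) (Fin s) (MvPolynomial κ ℤ) :=
  Matrix.of fun j k => ∑ m ∈ P.support, monomial m (Algebra.leftMulMatrix b (coeff m P) j k)

omit [NumberField E] in
theorem eval_mulMat (b : Module.Basis (Fin s) ℤ (𝓞 E)) (P : MvPolynomial κ (𝓞 E)) (u : κ → ℤ) :
    (eval u).mapMatrix (mulMat b P) =
      Algebra.leftMulMatrix b (eval (fun v => ((u v : ℤ) : 𝓞 E)) P) := by
  ext j k
  have h1 : eval (fun v => ((u v : ℤ) : 𝓞 E)) P =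
      ∑ m ∈ P.support, (m.prod fun n e => u n ^ e : ℤ) • coeff m P := by
    rw [eval_eq]
    apply Finset.sum_congr rfl
    intro m _
    rw [zsmul_eq_mul, mul_comm, Finsupp.prod]
    push_cast
    rfl
  rw [h1, map_sum]
  simp only [RingHom.mapMatrix_apply, Matrix.map_apply, mulMat, Matrix.of_apply, map_sum,
    eval_monomial, Matrix.sum_apply, map_zsmul, Matrix.smul_apply, smul_eq_mul]
  exact Finset.sum_congr rfl fun m _ => mul_comm _ _

end NormPoly

open NormPoly in
/-- The norm of the values of an integer polynomial `g` at integral points of a number field is an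
integer polynomial in the coordinates. -/
theorem exists_normPoly {ι : Type} [Fintype ι] (E : Type) [Field E] [NumberField E] {s : ℕ}
    (b : Module.Basis (Fin s) ℤ (𝓞 E)) (g : MvPolynomial ι ℤ) :
    ∃ G : MvPolynomial (ι × Fin s) ℤ,
      (∀ u : ι × Fin s → ℤ, eval u G =
        Algebra.norm ℤ (aeval (fun i => ∑ j, u (i, j) • b j) g)) ∧
      map (Int.castRingHom ℂ) G = ∏ σ : E →+* ℂ,
        eval₂ (C.comp (Int.castRingHom ℂ))
          (fun i => ∑ j, C (σ (b j : E)) * X (i, j) : ι → MvPolynomial (ι × Fin s) ℂ) g := by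
  obtain ⟨P, hP⟩ : ∃ P : MvPolynomial (ι × Fin s) (𝓞 E), P =
      eval₂ (C.comp (Int.castRingHom (𝓞 E))) (fun i => ∑ j, C (b j) * X (i, j)) g := ⟨_, rfl⟩
  have hev : ∀ u : ι × Fin s → ℤ, eval (fun v => ((u v : ℤ) : 𝓞 E)) P =
      aeval (fun i => ∑ j, u (i, j) • b j) g := by
    intro u
    rw [hP, aeval_def]
    have h1 := eval₂_comp_left (eval (fun v => ((u v : ℤ) : 𝓞 E)))
      ((C : 𝓞 E →+* MvPolynomial (ι × Fin s) (𝓞 E)).comp (Int.castRingHom (𝓞 E)))
      (fun i => ∑ j, C (b j) * X (i, j)) g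
    rw [h1]
    congr 1
    · exact RingHom.ext_int _ _
    · funext i
      simp [zsmul_eq_mul, mul_comm]
  have h1 : ∀ u : ι × Fin s → ℤ, eval u (mulMat b P).det =
      Algebra.norm ℤ (aeval (fun i => ∑ j, u (i, j) • b j) g) := by
    intro u
    rw [RingHom.map_det, eval_mulMat, ← Algebra.norm_eq_matrix_det, hev]
  refine ⟨(mulMat b P).det, h1, ?_⟩
  apply funext_set (fun _ => Set.range (fun z : ℤ => (z : ℂ)))
    (fun _ => Set.infinite_range_of_injective Int.cast_injective)
  intro x hx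
  choose u hu using fun v => hx v (Set.mem_univ v)
  have hxu : x = fun v => ((u v : ℤ) : ℂ) := by
    funext v
    exact (hu v).symm
  subst hxu
  rw [map_prod]
  have h2 : eval (fun v => ((u v : ℤ) : ℂ)) (map (Int.castRingHom ℂ) (mulMat b P).det) =
      ((eval u (mulMat b P).det : ℤ) : ℂ) := by
    rw [eval_map]
    exact (eval₂_comp_left (Int.castRingHom ℂ) (RingHom.id ℤ) u _).symm ▸ rfl
  rw [h2, h1, norm_cast]
  apply Finset.prod_congr rfl
  intro σ _
  rw [aeval_def]
  have h3 := eval₂_comp_left (eval (fun v => ((u v : ℤ) : ℂ)))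
      ((C : ℂ →+* MvPolynomial (ι × Fin s) ℂ).comp (Int.castRingHom ℂ))
      (fun i => ∑ j, C (σ (b j : E)) * X (i, j)) g
  rw [h3]
  have h4 := eval₂_comp_left (σ.comp (algebraMap (𝓞 E) E)) (algebraMap ℤ (𝓞 E))
    (fun i => ∑ j, u (i, j) • b j) g
  refine Eq.trans h4 ?_
  congr 1
  · exact RingHom.ext_int _ _
  · funext i
    simp [zsmul_eq_mul, mul_comm]

end Pool.Agent.Lib.MP_6a3dac_ag
end

section

/-!
# The sieve over a number field
-/

set_option autoImplicit false

namespace Pool.Agent.Lib.MP_6a3dac_ag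

open MvPolynomial NumberField

namespace SieveNF

/-- If a prime ideal of the ring of integers contains a rational prime `p` and an element `x`,
then `p` divides the norm of `x`. -/
theorem prime_dvd_norm {E : Type} [Field E] [NumberField E] (𝔭 : Ideal (𝓞 E)) (h𝔭 : 𝔭.IsPrime)
    {p : ℕ} (hp : p.Prime) (hp𝔭 : (p : 𝓞 E) ∈ 𝔭) {x : 𝓞 E} (hx : x ∈ 𝔭) :
    (p : ℤ) ∣ Algebra.norm ℤ x := by
  have h1 : ((Algebra.norm ℤ x).natAbs : 𝓞 E) ∈ 𝔭 := by
    have h2 := Ideal.absNorm_mem (Ideal.span {x})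
    rw [Ideal.absNorm_span_singleton] at h2
    exact (Ideal.span_singleton_le_iff_mem 𝔭).2 hx h2
  rw [Int.natCast_dvd]
  by_contra hdvd
  have hcop : IsCoprime (p : ℤ) ((Algebra.norm ℤ x).natAbs : ℤ) :=
    Nat.isCoprime_iff_coprime.2 ((Nat.Prime.coprime_iff_not_dvd hp).2 hdvd)
  obtain ⟨a, b, hab⟩ := hcop
  apply h𝔭.ne_top
  rw [Ideal.eq_top_iff_one]
  have h3 : ((a * p + b * ((Algebra.norm ℤ x).natAbs : ℤ) : ℤ) : 𝓞 E) = 1 := by
    rw [hab]; simp
  rw [← h3]
  push_cast
  refine 𝔭.add_mem (𝔭.mul_mem_left _ hp𝔭) (𝔭.mul_mem_left _ ?_)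
  have h4 : (((Algebra.norm ℤ x).natAbs : ℤ) : 𝓞 E) = ((Algebra.norm ℤ x).natAbs : 𝓞 E) :=
    Int.cast_natCast _
  simpa [← h4] using h1

/-- The norm polynomial of a nonzero polynomial is nonzero. -/
theorem normPoly_ne_zero {ι : Type} [Fintype ι] (E : Type) [Field E] [NumberField E] {s : ℕ}
    (b : Module.Basis (Fin s) ℤ (𝓞 E)) (g : MvPolynomial ι ℤ) (hg : g ≠ 0)
    (G : MvPolynomial (ι × Fin s) ℤ)
    (hG : ∀ u : ι × Fin s → ℤ, eval u G =
        Algebra.norm ℤ (aeval (fun i => ∑ j, u (i, j) • b j) g)) : G ≠ 0 := by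
  intro h0
  apply hg
  apply MvPolynomial.funext
  intro a
  rw [map_zero]
  have h1 := hG fun x => b.repr ((a x.1 : ℤ) : 𝓞 E) x.2
  rw [h0, map_zero] at h1
  have h2 := Algebra.norm_eq_zero_iff.1 h1.symm
  have h3 : (fun i => ∑ j, (b.repr ((a i : ℤ) : 𝓞 E) j) • b j) = fun i => ((a i : ℤ) : 𝓞 E) := by
    funext i
    exact b.sum_repr _
  simp only [h3] at h2
  have h4 : aeval (fun i => ((a i : ℤ) : 𝓞 E)) g = algebraMap ℤ (𝓞 E) (eval a g) :=
    aeval_algebraMap_apply (𝓞 E) a g
  rw [h4] at h2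
  simpa using h2

end SieveNF

open Classical in
/-- TASK E3 (the sieve over a number field, from `dens_sieve`, E1 and E2). -/
theorem dens_sieve_nf {ι : Type} [Fintype ι] [DecidableEq ι] (g F : MvPolynomial ι ℤ)
    (hg : Irreducible g) (hF : ¬ g ∣ F) (E : Type) [Field E] [NumberField E] {s : ℕ}
    (b : Module.Basis (Fin s) ℤ (𝓞 E)) :
    ∃ (C : ℝ) (M₀ : ℕ), ∀ (M q : ℕ), M₀ ≤ M → 1 ≤ q → (∀ p : ℕ, p.Prime → p ∣ q → p ≤ M) →
      ∀ r : ι → 𝓞 E, ∃ C' : ℝ, ∀ H : ℕ,
        (((box (ι × Fin s) H).filter fun u => ∃ 𝔭 : Ideal (𝓞 E), 𝔭.IsPrime ∧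
            (∃ p : ℕ, p.Prime ∧ M < p ∧ (p : 𝓞 E) ∈ 𝔭) ∧
            aeval (fun i => r i + q * ∑ j, u (i, j) • b j) g ∈ 𝔭 ∧
            aeval (fun i => r i + q * ∑ j, u (i, j) • b j) F ∈ 𝔭).card : ℝ) ≤
          (C / M + C' / (2 * H + 1)) * (2 * H + 1) ^ Fintype.card (ι × Fin s) := by
  obtain ⟨G, hG1, hG2⟩ := exists_normPoly E b g
  obtain ⟨K, hK1, hK2⟩ := exists_normPoly E b F
  have hG0 : G ≠ 0 := SieveNF.normPoly_ne_zero E b g hg.ne_zero G hG1
  obtain ⟨f, hf, u0, hfG⟩ := WfDvdMonoid.exists_factors G hG0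
  -- the nonconstant factors
  let S : Finset (MvPolynomial (ι × Fin s) ℤ) := f.toFinset.filter fun Q => ¬ ∃ c : ℤ, Q = MvPolynomial.C c
  have hS : ∀ Q ∈ S, Irreducible Q ∧ ¬ Q ∣ K := by
    intro Q hQ
    rw [Finset.mem_filter, Multiset.mem_toFinset] at hQ
    refine ⟨hf Q hQ.1, fun hQK => hQ.2 ?_⟩
    have hQG : Q ∣ G := by
      rw [← hfG]
      exact Dvd.dvd.mul_right (Multiset.dvd_prod hQ.1) _
    exact normPoly_coprime E b g F hg hF hG2 hK2 hQG hQK
  -- the sieve for each nonconstant factor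
  have hsieve : ∀ Q : MvPolynomial (ι × Fin s) ℤ, ∃ C : ℝ, Q ∈ S → ∀ (M q : ℕ), 1 ≤ M → 1 ≤ q →
      (∀ p : ℕ, p.Prime → p ∣ q → p ≤ M) →
      ∀ r : ι × Fin s → ℤ, ∃ C' : ℝ, ∀ H : ℕ,
        (((box (ι × Fin s) H).filter fun a => ∃ p : ℕ, p.Prime ∧ M < p ∧
            (p : ℤ) ∣ eval (fun i => r i + q * a i) Q ∧
            (p : ℤ) ∣ eval (fun i => r i + q * a i) K).card : ℝ) ≤
          (C / M + C' / (2 * H + 1)) * (2 * H + 1) ^ Fintype.card (ι × Fin s) := by
    intro Q
    by_cases hQ : Q ∈ S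
    · obtain ⟨C, hC⟩ := dens_sieve Q K (hS Q hQ).1 (hS Q hQ).2
      exact ⟨C, fun _ => hC⟩
    · exact ⟨0, fun h => absurd h hQ⟩
  choose CC hCC using hsieve
  let M₀ : ℕ := 1 + ∑ Q ∈ f.toFinset, (coeff 0 Q).natAbs
  refine ⟨∑ Q ∈ S, CC Q, M₀, fun M q hM hq hpq r => ?_⟩
  have hM1 : 1 ≤ M := le_trans (Nat.le_add_right 1 _) hM
  let r' : ι × Fin s → ℤ := fun x => b.repr (r x.1) x.2
  have hsieve' : ∀ Q : MvPolynomial (ι × Fin s) ℤ, ∃ C' : ℝ, Q ∈ S → ∀ H : ℕ,
        (((box (ι × Fin s) H).filter fun a => ∃ p : ℕ, p.Prime ∧ M < p ∧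
            (p : ℤ) ∣ eval (fun i => r' i + q * a i) Q ∧
            (p : ℤ) ∣ eval (fun i => r' i + q * a i) K).card : ℝ) ≤
          (CC Q / M + C' / (2 * H + 1)) * (2 * H + 1) ^ Fintype.card (ι × Fin s) := by
    intro Q
    by_cases hQ : Q ∈ S
    · obtain ⟨C', hC'⟩ := hCC Q hQ M q hM1 hq hpq r'
      exact ⟨C', fun _ => hC'⟩
    · exact ⟨0, fun h => absurd h hQ⟩
  choose CD hCD using hsieve'
  refine ⟨∑ Q ∈ S, CD Q, fun H => ?_⟩
  -- the inclusion
  have hsub : ((box (ι × Fin s) H).filter fun u => ∃ 𝔭 : Ideal (𝓞 E), 𝔭.IsPrime ∧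
            (∃ p : ℕ, p.Prime ∧ M < p ∧ (p : 𝓞 E) ∈ 𝔭) ∧
            aeval (fun i => r i + q * ∑ j, u (i, j) • b j) g ∈ 𝔭 ∧
            aeval (fun i => r i + q * ∑ j, u (i, j) • b j) F ∈ 𝔭) ⊆
      S.biUnion fun Q => (box (ι × Fin s) H).filter fun a => ∃ p : ℕ, p.Prime ∧ M < p ∧
            (p : ℤ) ∣ eval (fun i => r' i + q * a i) Q ∧
            (p : ℤ) ∣ eval (fun i => r' i + q * a i) K := by
    intro u hu
    rw [Finset.mem_filter] at hu
    obtain ⟨hbox, 𝔭, h𝔭, ⟨p, hp, hMp, hp𝔭⟩, hg𝔭, hF𝔭⟩ := hu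
    have hcoord : (fun i => ∑ j, (r' (i, j) + q * u (i, j)) • b j) =
        fun i => r i + q * ∑ j, u (i, j) • b j := by
      funext i
      simp only [add_smul, Finset.sum_add_distrib, mul_smul, ← Finset.smul_sum]
      congr 1
      · exact b.sum_repr (r i)
      · rw [natCast_zsmul, nsmul_eq_mul]
    have hpG : (p : ℤ) ∣ eval (fun i => r' i + q * u i) G := by
      rw [hG1]
      rw [hcoord]
      exact SieveNF.prime_dvd_norm 𝔭 h𝔭 hp hp𝔭 hg𝔭
    have hpK : (p : ℤ) ∣ eval (fun i => r' i + q * u i) K := by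
      rw [hK1]
      rw [hcoord]
      exact SieveNF.prime_dvd_norm 𝔭 h𝔭 hp hp𝔭 hF𝔭
    have hpZ : Prime (p : ℤ) := Nat.prime_iff_prime_int.1 hp
    rw [← hfG, map_mul] at hpG
    have hunit : ¬ (p : ℤ) ∣ eval (fun i => r' i + q * u i) (u0 : MvPolynomial (ι × Fin s) ℤ) := by
      intro h
      apply hpZ.not_isUnit
      exact isUnit_of_dvd_unit h (u0.isUnit.map _)
    have hprod := (hpZ.dvd_or_dvd hpG).resolve_right hunit
    rw [map_multiset_prod] at hprod
    obtain ⟨Q, hQf, hQdvd⟩ := hpZ.exists_mem_multiset_map_dvd hprod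
    rw [Finset.mem_biUnion]
    refine ⟨Q, ?_, ?_⟩
    · rw [Finset.mem_filter, Multiset.mem_toFinset]
      refine ⟨hQf, ?_⟩
      rintro ⟨c, hc⟩
      have hc0 : c ≠ 0 := by
        rintro rfl
        exact (hf Q hQf).ne_zero (by rw [hc, map_zero])
      have h1 : c.natAbs ≤ ∑ Q ∈ f.toFinset, (coeff 0 Q).natAbs := by
        have h2 : (coeff 0 Q).natAbs ≤ ∑ Q ∈ f.toFinset, (coeff 0 Q).natAbs :=
          Finset.single_le_sum (f := fun Q : MvPolynomial (ι × Fin s) ℤ => (coeff 0 Q).natAbs)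
            (fun _ _ => Nat.zero_le _) (Multiset.mem_toFinset.2 hQf)
        rw [hc, coeff_zero_C] at h2
        exact h2
      rw [hc, eval_C, Int.natCast_dvd] at hQdvd
      have h3 : p ≤ c.natAbs := Nat.le_of_dvd (Int.natAbs_pos.2 hc0) hQdvd
      have h4 : 1 + ∑ Q ∈ f.toFinset, (coeff 0 Q).natAbs ≤ M := hM
      omega
    · rw [Finset.mem_filter]
      exact ⟨hbox, p, hp, hMp, hQdvd, hpK⟩
  calc _ ≤ ((S.biUnion fun Q => (box (ι × Fin s) H).filter fun a => ∃ p : ℕ, p.Prime ∧ M < p ∧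
            (p : ℤ) ∣ eval (fun i => r' i + q * a i) Q ∧
            (p : ℤ) ∣ eval (fun i => r' i + q * a i) K).card : ℝ) := by
        exact_mod_cast Finset.card_le_card hsub
    _ ≤ ∑ Q ∈ S, (((box (ι × Fin s) H).filter fun a => ∃ p : ℕ, p.Prime ∧ M < p ∧
            (p : ℤ) ∣ eval (fun i => r' i + q * a i) Q ∧
            (p : ℤ) ∣ eval (fun i => r' i + q * a i) K).card : ℝ) := by
        exact_mod_cast Finset.card_biUnion_le
    _ ≤ ∑ Q ∈ S, (CC Q / M + CD Q / (2 * H + 1)) * (2 * H + 1) ^ Fintype.card (ι × Fin s) :=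
        Finset.sum_le_sum fun Q hQ => hCD Q hQ H
    _ = _ := by
        rw [← Finset.sum_mul, Finset.sum_add_distrib, ← Finset.sum_div, ← Finset.sum_div]

end Pool.Agent.Lib.MP_6a3dac_ag
end

section

/-!
# Densities of sets defined by local conditions
-/

set_option autoImplicit false

namespace Pool.Agent.Lib.MP_6a3dac_ag.Sys

open MvPolynomial NumberField IsDedekindDomain Filter Topology
open Pool.Agent.Lib.MP_6a3dac_ag.DNF

section

variable {ι : Type} [Fintype ι] [DecidableEq ι] {E : Type} [Field E] [NumberField E] {s : ℕ}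
  (b : Module.Basis (Fin s) ℤ (𝓞 E))

/-- The coefficients modulo `P`. -/
noncomputable def red (P : HeightOneSpectrum (𝓞 E)) (u : ι × Fin s → ℤ) (i : ι) :
    𝓞 E ⧸ P.asIdeal :=
  Ideal.Quotient.mk P.asIdeal (coeffs b u i)

omit [Fintype ι] [DecidableEq ι] in
lemma t27_red_add (P : HeightOneSpectrum (𝓞 E)) (u v : ι × Fin s → ℤ) :
    red b P (u + v) = red b P u + red b P v := by
  funext i
  simp only [red, Pi.add_apply]
  rw [← map_add]
  congr 1
  simp only [DNF.coeffs, Pi.add_apply, add_smul, Finset.sum_add_distrib]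

omit [Fintype ι] [DecidableEq ι] in
lemma t27_red_zero (P : HeightOneSpectrum (𝓞 E)) :
    red b P (0 : ι × Fin s → ℤ) = 0 := by
  funext i
  simp [red, DNF.coeffs]

/-- Reduction modulo finitely many primes. -/
noncomputable def t27_hom (ι : Type) {E : Type} [Field E] [NumberField E] {s : ℕ}
    (b : Module.Basis (Fin s) ℤ (𝓞 E)) (T : Finset (HeightOneSpectrum (𝓞 E))) :
    (ι × Fin s → ℤ) →+ (∀ P : T, ι → 𝓞 E ⧸ P.1.asIdeal) where
  toFun u P := red b P.1 u
  map_zero' := by
    funext P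
    exact t27_red_zero b P.1
  map_add' u v := by
    funext P
    exact t27_red_add b P.1 u v

omit [Fintype ι] [DecidableEq ι] in
lemma t27_surj (T : Finset (HeightOneSpectrum (𝓞 E))) :
    Function.Surjective (t27_hom ι b T) := by
  intro x
  have h1 : ∀ i : ι, ∃ y : 𝓞 E, ∀ P : T, Ideal.Quotient.mk P.1.asIdeal y = x P i := by
    intro i
    choose r hr using fun P : T => Ideal.Quotient.mk_surjective (I := P.1.asIdeal) (x P i)
    obtain ⟨y, hy⟩ := IsDedekindDomain.exists_forall_sub_mem_ideal (s := T)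
      (fun P : HeightOneSpectrum (𝓞 E) => P.asIdeal) (fun _ => 1)
      (fun P _ => P.prime) (fun P _ Q _ hPQ h => hPQ (HeightOneSpectrum.ext h)) r
    refine ⟨y, fun P => ?_⟩
    rw [← hr P, Ideal.Quotient.mk_eq_mk_iff_sub_mem]
    simpa using hy P.1 P.2
  choose y hy using h1
  refine ⟨fun v => b.repr (y v.1) v.2, ?_⟩
  funext P i
  have h2 : coeffs b (fun v : ι × Fin s => b.repr (y v.1) v.2) i = y i := by
    simp only [DNF.coeffs]
    exact b.sum_repr (y i)
  change Ideal.Quotient.mk P.1.asIdeal (coeffs b (fun v : ι × Fin s => b.repr (y v.1) v.2) i) = _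
  rw [h2]
  exact hy i P

/-- **Chinese remainder theorem.** -/
theorem tendsto_prop_red (T : Finset (HeightOneSpectrum (𝓞 E)))
    (Ω : ∀ P : HeightOneSpectrum (𝓞 E), Set (ι → 𝓞 E ⧸ P.asIdeal)) :
    Tendsto (prop fun u => ∀ P ∈ T, red b P u ∈ Ω P) atTop
      (𝓝 (∏ P ∈ T, (Nat.card (Ω P) : ℝ) / Nat.card (ι → 𝓞 E ⧸ P.asIdeal))) := by
  classical
  have hfin : ∀ P : HeightOneSpectrum (𝓞 E), Finite (𝓞 E ⧸ P.asIdeal) := fun P =>
    Ideal.finiteQuotientOfFreeOfNeBot P.asIdeal P.ne_bot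
  have h1 := tendsto_prop_hom (t27_hom ι b T) (t27_surj b T)
    {x | ∀ P : T, x P ∈ Ω P.1}
  have h2 : (fun u : ι × Fin s → ℤ => ∀ P ∈ T, red b P u ∈ Ω P) =
      fun u => t27_hom ι b T u ∈ {x : ∀ P : T, ι → 𝓞 E ⧸ P.1.asIdeal | ∀ P : T, x P ∈ Ω P.1} := by
    funext u
    refine propext ⟨fun h P => h P.1 P.2, fun h P hP => h ⟨P, hP⟩⟩
  rw [h2]
  have h3 : (Nat.card {x : ∀ P : T, ι → 𝓞 E ⧸ P.1.asIdeal | ∀ P : T, x P ∈ Ω P.1} : ℝ) /
      Nat.card (∀ P : T, ι → 𝓞 E ⧸ P.1.asIdeal) =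
      ∏ P ∈ T, (Nat.card (Ω P) : ℝ) / Nat.card (ι → 𝓞 E ⧸ P.asIdeal) := by
    have e1 : Nat.card {x : ∀ P : T, ι → 𝓞 E ⧸ P.1.asIdeal | ∀ P : T, x P ∈ Ω P.1} =
        ∏ P : T, Nat.card (Ω P.1) := by
      rw [← Nat.card_pi]
      refine Nat.card_congr
        { toFun := fun x P => ⟨x.1 P, x.2 P⟩
          invFun := fun x => ⟨fun P => (x P).1, fun P => (x P).2⟩
          left_inv := fun x => rfl
          right_inv := fun x => rfl }
    have e2 : Nat.card (∀ P : T, ι → 𝓞 E ⧸ P.1.asIdeal) =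
        ∏ P : T, Nat.card (ι → 𝓞 E ⧸ P.1.asIdeal) := Nat.card_pi
    rw [e1, e2]
    push_cast
    rw [← Finset.prod_div_distrib,
      ← Finset.prod_coe_sort T
        (fun P => (Nat.card (Ω P) : ℝ) / Nat.card (ι → 𝓞 E ⧸ P.asIdeal))]
  rw [← h3]
  exact h1

/-- The height one primes containing a rational prime `p ≤ M`. -/
theorem finite_small (E : Type) [Field E] [NumberField E] (M : ℕ) :
    {P : HeightOneSpectrum (𝓞 E) | ∃ p : ℕ, p.Prime ∧ p ≤ M ∧ (p : 𝓞 E) ∈ P.asIdeal}.Finite := by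
  have h1 : ∀ p : ℕ, p.Prime → {P : HeightOneSpectrum (𝓞 E) | (p : 𝓞 E) ∈ P.asIdeal}.Finite := by
    intro p hp
    have hp0 : (Ideal.span {(p : 𝓞 E)} : Ideal (𝓞 E)) ≠ 0 := by
      rw [Ne, Ideal.zero_eq_bot, Ideal.span_singleton_eq_bot]
      exact_mod_cast hp.ne_zero
    refine (Ideal.finite_factors hp0).subset ?_
    intro P hP
    rw [Set.mem_ofPred_eq, Ideal.dvd_span_singleton]
    exact hP
  refine ((Set.finite_Iic M).biUnion (t := fun p =>
    {P : HeightOneSpectrum (𝓞 E) | p.Prime ∧ (p : 𝓞 E) ∈ P.asIdeal}) ?_).subset ?_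
  · intro p _
    by_cases hp : p.Prime
    · exact (h1 p hp).subset fun P hP => hP.2
    · refine Set.Finite.subset Set.finite_empty ?_
      rintro P ⟨h, -⟩
      exact absurd h hp
  · rintro P ⟨p, hp, hpM, hpP⟩
    exact Set.mem_biUnion (Set.mem_Iic.2 hpM) ⟨hp, hpP⟩

end

end Pool.Agent.Lib.MP_6a3dac_ag.Sys
end

section

/-!
# Densities of sets defined by local conditions
-/

set_option autoImplicit false

namespace Pool.Agent.Lib.MP_6a3dac_ag.Sys

open MvPolynomial NumberField IsDedekindDomain Filter Topology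
open Pool.Agent.Lib.MP_6a3dac_ag.DNF

section T31

open Classical in
lemma t31_zeros {κ : Type} [Fintype κ] [DecidableEq κ] (G : MvPolynomial κ ℤ) (hG : G ≠ 0) :
    ∃ D : ℕ, ∀ H : ℕ, ((box κ H).filter fun a => eval a G = 0).card * (2 * H + 1) ≤
      D * (2 * H + 1) ^ Fintype.card κ := by
  set e := Fintype.equivFin κ with he
  have hG' : rename e G ≠ 0 := by
    intro h
    exact hG (rename_injective e e.injective (by rw [h, map_zero]))
  refine ⟨(rename e G).totalDegree * 1, fun H => ?_⟩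
  refine le_trans (Nat.mul_le_mul_right _ ?_)
    (Sieve.card_zeros_int (rename e G) hG' H 1 le_rfl (fun _ => 0))
  refine Finset.card_le_card_of_injOn (fun a => a ∘ e.symm) ?_ ?_
  · intro a ha
    rw [Finset.mem_coe, Finset.mem_filter] at ha ⊢
    refine ⟨?_, ?_⟩
    · have h1 := ha.1
      rw [box, Fintype.mem_piFinset] at h1 ⊢
      exact fun i => h1 _
    · have h2 : (fun i => (0 : ℤ) + ((1 : ℕ) : ℤ) * (a ∘ e.symm) i) = a ∘ e.symm := by
        funext i
        simp
      rw [h2, eval_rename]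
      have h3 : (a ∘ e.symm) ∘ e = a := by
        funext i
        simp
      rw [h3]
      exact ha.2
  · intro a _ a' _ h
    funext i
    have := congrFun h (e i)
    simpa using this

end T31

/-- The zeros of a polynomial have density zero. -/
theorem tendsto_prop_zero {ι : Type} [Fintype ι] [DecidableEq ι] {E : Type} [Field E]
    [NumberField E] {s : ℕ} (b : Module.Basis (Fin s) ℤ (𝓞 E)) (g : MvPolynomial ι ℤ)
    (hg : g ≠ 0) : Tendsto (prop fun u => aeval (coeffs b u) g = 0) atTop (𝓝 0) := by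
  classical
  obtain ⟨G, hG, -⟩ := exists_normPoly E b g
  have hG0 := SieveNF.normPoly_ne_zero E b g hg G hG
  obtain ⟨D, hD⟩ := t31_zeros G hG0
  have hlim : Tendsto (fun H : ℕ => (D : ℝ) / (2 * (H : ℝ) + 1)) atTop (𝓝 0) := by
    refine Tendsto.div_atTop tendsto_const_nhds ?_
    refine tendsto_atTop_add_const_right _ _ ?_
    exact Tendsto.const_mul_atTop (by norm_num) tendsto_natCast_atTop_atTop
  refine squeeze_zero (fun H => ?_) (fun H => ?_) hlim
  · exact div_nonneg (Nat.cast_nonneg _) (Nat.cast_nonneg _)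
  · have h1 : ((box (ι × Fin s) H).filter fun u => aeval (coeffs b u) g = 0).card ≤
        ((box (ι × Fin s) H).filter fun a => eval a G = 0).card := by
      apply Finset.card_le_card
      intro u hu
      rw [Finset.mem_filter] at hu ⊢
      refine ⟨hu.1, ?_⟩
      rw [hG u]
      have h2 : aeval (fun i => ∑ j, u (i, j) • b j) g = 0 := hu.2
      rw [h2, Algebra.norm_zero]
    have h2 := (Nat.mul_le_mul_right (2 * H + 1) h1).trans (hD H)
    have hcard : (box (ι × Fin s) H).card = (2 * H + 1) ^ Fintype.card (ι × Fin s) := by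
      rw [box, Fintype.card_piFinset]
      simp only [Int.card_Icc, Finset.prod_const, Finset.card_univ]
      congr 1
      omega
    have hpos : 0 < ((box (ι × Fin s) H).card : ℝ) := by
      rw [hcard]
      positivity
    simp only [prop]
    rw [div_le_div_iff₀ hpos (by positivity)]
    rw [← hcard] at h2
    exact_mod_cast h2

end Pool.Agent.Lib.MP_6a3dac_ag.Sys
end
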