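import Pool.Agent.Lib.MP_6a3dac_ag.Mg.G005
import Pool.Agent.Lib.MP_6a3dac_ag.Mg.G067
import Pool.Agent.Lib.MP_6a3dac_ag.Mg.G065
import Pool.Agent.Lib.MP_6a3dac_ag.QuadricModel

section

/-!
# Hypersurfaces with infinite singular locus over finite fields are rare
-/

set_option autoImplicit false

namespace Pool.Agent.Lib.MP_6a3dac_ag.Maj

open MvPolynomial NumberField IsDedekindDomain
open Pool.Agent.Lib.MP_6a3dac_ag.DNF Pool.Agent.Lib.MP_6a3dac_ag.Sys

/-- The points with the coordinates `τ i` for `i ∈ I` where the partial derivatives with respect to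
the variables in `A` vanish. -/
def Zset {k Ω : Type} [Field k] [Field Ω] [Algebra k Ω] {σ : Type} (τ : σ → Ω)
    (f : MvPolynomial σ k) (A I : Finset σ) : Set (σ → Ω) :=
  {z | (∀ e ∈ A, aeval z (pderiv e f) = 0) ∧ ∀ i ∈ I, z i = τ i}

open scoped IntermediateField.algebraAdjoinAdjoin in
theorem i5_transc {k Ω : Type} [Field k] [Field Ω] [Algebra k Ω] {σ : Type} {τ : σ → Ω}
    (hτ : AlgebraicIndependent k τ) (I : Finset σ) {j : σ} (hj : j ∉ I) :
    Transcendental (IntermediateField.adjoin k (τ '' (I : Set σ))) (τ j) := by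
  have h1 : Transcendental (Algebra.adjoin k (τ '' (I : Set σ))) (τ j) :=
    hτ.transcendental_adjoin (by simpa using hj)
  intro h2
  apply h1
  exact (IsFractionRing.isAlgebraic_iff (Algebra.adjoin k (τ '' (I : Set σ)))
    (IntermediateField.adjoin k (τ '' (I : Set σ))) Ω).mpr h2

/-- From `exists_poly_of_no_generic`, `finite_zeros_of_poly` over the subfield
`k(τ_i : i ∈ I)` of `Ω`, over which the other `τ_j` are transcendental. -/
theorem exists_insert_of_infinite {k Ω : Type} [Field k] [Field Ω] [Algebra k Ω] [IsAlgClosed Ω]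
    {σ : Type} [Fintype σ] [DecidableEq σ] {τ : σ → Ω} (hτ : AlgebraicIndependent k τ)
    (f : MvPolynomial σ k) (A I : Finset σ) (h : ¬ (Zset τ f A I).Finite) :
    ∃ j ∉ I, (Zset τ f A (insert j I)).Nonempty := by
  by_contra hcon
  push Not at hcon
  apply h
  let K := IntermediateField.adjoin k (τ '' (I : Set σ))
  have hmem : ∀ i : I, τ i ∈ K := fun i =>
    IntermediateField.subset_adjoin _ _ ⟨i, i.2, rfl⟩
  let J : Ideal (MvPolynomial σ K) := Ideal.span
    ((fun e => MvPolynomial.map (algebraMap k K) (pderiv e f)) '' (A : Set σ) ∪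
      Set.range fun i : I => X (i : σ) - C (⟨τ i, hmem i⟩ : K))
  have hJ : ∀ z : σ → Ω, (∀ g ∈ J, aeval z g = 0) ↔ z ∈ Zset τ f A I := by
    intro z
    have h1 : (∀ g ∈ J, aeval z g = 0) ↔ J ≤ RingHom.ker (aeval z : MvPolynomial σ K →ₐ[K] Ω) :=
      Iff.rfl
    rw [h1, Ideal.span_le]
    constructor
    · intro h2
      refine ⟨fun e he => ?_, fun i hi => ?_⟩
      · have h3 := h2 (Or.inl ⟨e, he, rfl⟩)
        simp only [SetLike.mem_coe, RingHom.mem_ker] at h3
        rwa [aeval_map_algebraMap] at h3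
      · have h3 := h2 (Or.inr ⟨⟨i, hi⟩, rfl⟩)
        simp only [SetLike.mem_coe, RingHom.mem_ker, map_sub, aeval_X, aeval_C] at h3
        exact sub_eq_zero.mp h3
    · rintro ⟨h2, h3⟩ g (⟨e, he, rfl⟩ | ⟨i, rfl⟩)
      · simp only [SetLike.mem_coe, RingHom.mem_ker]
        rw [aeval_map_algebraMap]
        exact h2 e he
      · simp only [SetLike.mem_coe, RingHom.mem_ker, map_sub, aeval_X, aeval_C]
        exact sub_eq_zero.mpr (h3 i i.2)
  have hfin : {z : σ → Ω | ∀ g ∈ J, aeval z g = 0}.Finite := by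
    refine finite_zeros_of_poly J fun j => ?_
    by_cases hj : j ∈ I
    · refine ⟨Polynomial.X - Polynomial.C (⟨τ j, hmem ⟨j, hj⟩⟩ : K), Polynomial.X_sub_C_ne_zero _,
        ?_⟩
      have : Polynomial.aeval (X j : MvPolynomial σ K)
          (Polynomial.X - Polynomial.C (⟨τ j, hmem ⟨j, hj⟩⟩ : K)) =
          X j - C (⟨τ j, hmem ⟨j, hj⟩⟩ : K) := by
        simp
      rw [this]
      exact Ideal.subset_span (Or.inr ⟨⟨j, hj⟩, rfl⟩)
    · refine exists_poly_of_no_generic J j (i5_transc hτ I hj) fun z hz hzj => ?_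
      have hz' := (hJ z).mp hz
      have := hcon j hj
      refine Set.eq_empty_iff_forall_notMem.mp this z ⟨hz'.1, fun i hi => ?_⟩
      rcases Finset.mem_insert.mp hi with rfl | hi
      · exact hzj
      · exact hz'.2 i hi
  exact hfin.subset fun z hz => (hJ z).mpr hz

theorem exists_zero_of_infinite {k Ω : Type} [Field k] [Finite k] [Field Ω] [Algebra k Ω]
    [IsAlgClosed Ω] {σ : Type} [Fintype σ] [DecidableEq σ] {τ : σ → Ω}
    (hτ : AlgebraicIndependent k τ) (f : MvPolynomial σ k)
    (h : ¬ Finite (MvPolynomial σ k ⧸ Ideal.span (Set.range fun l => pderiv l f))) :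
    ∃ j, (Zset τ f Finset.univ {j}).Nonempty := by
  by_contra hcon
  push Not at hcon
  apply h
  have h1 : Module.Finite k (MvPolynomial σ k ⧸ Ideal.span (Set.range fun l => pderiv l f)) := by
    refine finite_quot_of_poly _ fun j => ?_
    refine exists_poly_of_no_generic (Ω := Ω) _ j (hτ.transcendental j) fun z hz hzj => ?_
    refine Set.eq_empty_iff_forall_notMem.mp (hcon j) z ⟨fun e _ => ?_, fun i hi => ?_⟩
    · exact hz _ (Ideal.subset_span ⟨e, rfl⟩)
    · rw [Finset.mem_singleton.mp hi]
      exact hzj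
  exact Module.finite_of_finite k

theorem i6_count {α β : Type} [AddCommGroup α] [Finite α] [Finite β] (P : β → α) (B : Set α)
    (M : ℕ) (h : ∀ b : α, Nat.card {c : β // b - P c ∈ B} ≤ M) :
    Nat.card B * Nat.card β ≤ M * Nat.card α := by
  classical
  have := Fintype.ofFinite α
  rw [← Nat.card_prod]
  have h1 : Nat.card (B × β) ≤ Nat.card (Σ b : α, {c : β // b - P c ∈ B}) := by
    refine Nat.card_le_card_of_injective
      (fun x : B × β => (⟨(x.1 : α) + P x.2, ⟨x.2, by
        rw [add_sub_cancel_right]; exact x.1.2⟩⟩ : Σ b : α, {c : β // b - P c ∈ B})) ?_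
    rintro ⟨⟨a, ha⟩, c⟩ ⟨⟨a', ha'⟩, c'⟩ hx
    have h2 := congrArg (fun y : Σ b : α, {c : β // b - P c ∈ B} => (y.1, (y.2 : β))) hx
    simp only [Prod.mk.injEq] at h2
    obtain ⟨h3, rfl⟩ := h2
    have h4 : a = a' := by simpa using h3
    subst h4
    rfl
  refine h1.trans ?_
  rw [Nat.card_sigma, mul_comm, Nat.card_eq_fintype_card, ← smul_eq_mul, ← Finset.card_univ]
  exact Finset.sum_le_card_nsmul _ _ _ fun b _ => h b

/-- The exponents up to `d` which are not zero in `k`. -/
noncomputable def i6_S (k : Type) [Field k] (d : ℕ) : Finset ℕ :=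
  open Classical in (Finset.Icc 1 d).filter fun j => (j : k) ≠ 0

theorem i6_mem_S {k : Type} [Field k] {d j : ℕ} :
    j ∈ i6_S k d ↔ (1 ≤ j ∧ j ≤ d) ∧ (j : k) ≠ 0 := by
  classical
  unfold i6_S
  rw [Finset.mem_filter, Finset.mem_Icc]

theorem i6_card_S (k : Type) [Field k] (d : ℕ) : (d + 1) / 2 ≤ (i6_S k d).card := by
  classical
  have h1 := Finset.card_filter_add_card_filter_not (s := Finset.Icc 1 d)
    (fun j : ℕ => (j : k) ≠ 0)
  have h2 : ((Finset.Icc 1 d).filter fun j : ℕ => ¬ (j : k) ≠ 0).card ≤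
      ((Finset.Icc 1 d).filter fun j : ℕ => (j : k) ≠ 0).card := by
    refine Finset.card_le_card_of_injOn (fun j => j - 1) ?_ ?_
    · intro j hj
      simp only [Finset.coe_filter, Finset.mem_Icc, Set.mem_ofPred_eq, not_not] at hj ⊢
      obtain ⟨⟨h3, h4⟩, h5⟩ := hj
      have h6 : j ≠ 1 := by
        rintro rfl
        simp at h5
      have h7 : ((j - 1 : ℕ) : k) = -1 := by
        rw [Nat.cast_sub h3, h5]
        simp
      refine ⟨by omega, ?_⟩
      rw [h7]
      simp
    · intro j hj j' hj' h3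
      simp only [Finset.coe_filter, Finset.mem_Icc, Set.mem_ofPred_eq, not_not] at hj hj' h3
      omega
  rw [Nat.card_Icc] at h1
  have h3 : (i6_S k d).card = ((Finset.Icc 1 d).filter fun j : ℕ => (j : k) ≠ 0).card := by
    unfold i6_S
    congr
  omega

theorem i6_indep {k Ω : Type} [Field k] [Field Ω] [Algebra k Ω] {t : Ω} (ht : Transcendental k t)
    {d : ℕ} (c : i6_S k d → k)
    (h : ∑ j : i6_S k d, algebraMap k Ω (c j) * ((j : ℕ) * t ^ ((j : ℕ) - 1)) = 0) : c = 0 := by
  classical
  set p : Polynomial k := ∑ j : i6_S k d, Polynomial.monomial ((j : ℕ) - 1) (c j * (j : ℕ)) with hp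
  have h1 : Polynomial.aeval t p = 0 := by
    rw [hp, map_sum, ← h]
    refine Finset.sum_congr rfl fun j _ => ?_
    rw [Polynomial.aeval_monomial, map_mul, map_natCast, mul_assoc]
  have h2 : p = 0 := by
    by_contra hne
    exact ht ⟨p, hne, h1⟩
  funext j
  have h3 : p.coeff ((j : ℕ) - 1) = c j * (j : ℕ) := by
    rw [hp, Polynomial.finsetSum_coeff, Finset.sum_eq_single j]
    · rw [Polynomial.coeff_monomial, if_pos rfl]
    · intro j' _ hj'
      rw [Polynomial.coeff_monomial, if_neg]
      intro h4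
      apply hj'
      have h5 := i6_mem_S.mp j.2
      have h6 := i6_mem_S.mp j'.2
      exact Subtype.ext (by omega)
    · intro h4
      exact absurd (Finset.mem_univ _) h4
  rw [h2, Polynomial.coeff_zero] at h3
  exact (mul_eq_zero.mp h3.symm).resolve_right (i6_mem_S.mp j.2).2

theorem i6_exists_v {k : Type} [Field k] {n d : ℕ} (i : Fin (n + 1))
    (e : {l : Fin (n + 1) // l ≠ i}) {j : ℕ} (hj : j ≤ d) :
    ∃ v : Mono n d → k, dehom i (form v) = X e ^ j := by
  obtain ⟨v, hv⟩ := SmoothAlg.form_exists (d := d) (R := k) (n := n)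
    (f := X e.1 ^ j * X i ^ (d - j)) (by
      have h1 := ((isHomogeneous_X k e.1).pow j).mul ((isHomogeneous_X k i).pow (d - j))
      rw [one_mul, one_mul, Nat.add_sub_cancel' hj] at h1
      exact h1)
  refine ⟨v, ?_⟩
  rw [hv, map_mul, map_pow, map_pow, dehom_X, dehom_X_self, one_pow, mul_one]

theorem i6_form_sub {n d : ℕ} {R : Type} [CommRing R] (a b : Mono n d → R) :
    form (a - b) = form a - form b := by
  rw [eq_sub_iff_add_eq, ← SmoothAlg.form_add, sub_add_cancel]

theorem i6_form_sum {n d : ℕ} {R ι : Type} [CommRing R] (s : Finset ι) (c : ι → R)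
    (v : ι → Mono n d → R) :
    form (∑ j ∈ s, c j • v j) = ∑ j ∈ s, C (c j) * form (v j) := by
  classical
  induction s using Finset.induction_on with
  | empty =>
    simp [form]
  | insert a s ha ih =>
    rw [Finset.sum_insert ha, Finset.sum_insert ha, SmoothAlg.form_add, SmoothAlg.form_smul, ih]

theorem i6_totalDegree_pderiv {R σ : Type} [CommRing R] (l : σ) (p : MvPolynomial σ R) :
    (pderiv l p).totalDegree ≤ p.totalDegree := by
  classical
  have h := MvPolynomial.as_sum p
  conv_lhs => rw [h]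
  rw [map_sum]
  refine (totalDegree_finsetSum _ _).trans (Finset.sup_le fun s hs => ?_)
  rw [pderiv_monomial]
  refine (totalDegree_monomial_le _ _).trans ?_
  refine le_trans ?_ (le_totalDegree hs)
  have h1 : (s - Finsupp.single l 1).degree ≤ s.degree := Finsupp.degree_mono tsub_le_self
  exact h1

theorem i6_totalDegree_dehom {R : Type} [CommRing R] {n d : ℕ} (i : Fin (n + 1))
    (a : Mono n d → R) : (dehom i (form a)).totalDegree ≤ d := by
  classical
  unfold form
  rw [map_sum]
  refine (totalDegree_finsetSum _ _).trans (Finset.sup_le fun μ _ => ?_)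
  rw [map_mul, dehom_C, map_prod]
  refine (totalDegree_mul _ _).trans ?_
  rw [totalDegree_C, zero_add]
  refine (totalDegree_finsetProd _ _).trans ?_
  have h1 : ∀ l : Fin (n + 1), (dehom i (X l ^ (μ.1 l : ℕ) : MvPolynomial (Fin (n + 1)) R)).totalDegree ≤
      (μ.1 l : ℕ) := by
    intro l
    rw [map_pow]
    refine (totalDegree_pow _ _).trans ?_
    have h2 : (dehom i (X l : MvPolynomial (Fin (n + 1)) R)).totalDegree ≤ 1 := by
      by_cases hl : l = i
      · subst hl
        rw [dehom_X_self, totalDegree_one]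
        exact Nat.zero_le _
      · have h3 := dehom_X (O := R) i ⟨l, hl⟩
        rw [h3]
        rcases subsingleton_or_nontrivial R with hR | hR
        · rw [Subsingleton.elim (X _ : MvPolynomial {l : Fin (n + 1) // l ≠ i} R) 0, totalDegree_zero]
          exact Nat.zero_le _
        · rw [totalDegree_X]
    calc _ ≤ (μ.1 l : ℕ) * 1 := Nat.mul_le_mul_left _ h2
      _ = _ := mul_one _
  refine (Finset.sum_le_sum fun l _ => h1 l).trans ?_
  rw [μ.2]

theorem i6_totalDegree_map {R S σ : Type} [CommRing R] [CommRing S] (f : R →+* S)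
    (p : MvPolynomial σ R) : (MvPolynomial.map f p).totalDegree ≤ p.totalDegree :=
  Finset.sup_mono (support_map_subset _ _)

theorem i6_card_Zset {k Ω : Type} [Field k] [Field Ω] [Algebra k Ω] [IsAlgClosed Ω]
    {n d : ℕ} (hd : 1 ≤ d) (i : Fin (n + 1)) (τ : {l : Fin (n + 1) // l ≠ i} → Ω)
    (A I : Finset {l : Fin (n + 1) // l ≠ i}) (hAI : A.card + I.card = n) (b : Mono n d → k)
    (hfin : (Zset τ (dehom i (form b)) A I).Finite) :
    (Zset τ (dehom i (form b)) A I).ncard ≤ (n * d + 1) ^ (n ^ 2) := by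
  classical
  have hcard : Fintype.card {l : Fin (n + 1) // l ≠ i} = n := by
    rw [Fintype.card_subtype_compl, Fintype.card_fin]
    simp
  let g : A ⊕ I → MvPolynomial {l : Fin (n + 1) // l ≠ i} Ω := Sum.elim
    (fun e => MvPolynomial.map (algebraMap k Ω) (pderiv (e : {l : Fin (n + 1) // l ≠ i})
      (dehom i (form b)))) (fun j => X (j : {l : Fin (n + 1) // l ≠ i}) - C (τ j))
  have hZ : {z : {l : Fin (n + 1) // l ≠ i} → Ω | ∀ t, eval z (g t) = 0} =
      Zset τ (dehom i (form b)) A I := by
    ext z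
    constructor
    · intro hz
      refine ⟨fun e he => ?_, fun j hj => ?_⟩
      · have h1 := hz (Sum.inl ⟨e, he⟩)
        simp only [g, Sum.elim_inl] at h1
        rwa [eval_map, ← aeval_def] at h1
      · have h1 := hz (Sum.inr ⟨j, hj⟩)
        simp only [g, Sum.elim_inr, map_sub, eval_X, eval_C] at h1
        exact sub_eq_zero.mp h1
    · rintro ⟨h1, h2⟩ (⟨e, he⟩ | ⟨j, hj⟩)
      · simp only [g, Sum.elim_inl]
        rw [eval_map, ← aeval_def]
        exact h1 e he
      · simp only [g, Sum.elim_inr, map_sub, eval_X, eval_C]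
        exact sub_eq_zero.mpr (h2 j hj)
  have hT : Fintype.card (A ⊕ I) = Fintype.card {l : Fin (n + 1) // l ≠ i} := by
    rw [Fintype.card_sum, Fintype.card_coe, Fintype.card_coe, hAI, hcard]
  have hD : ∀ t, (g t).totalDegree ≤ d := by
    rintro (e | j)
    · simp only [g, Sum.elim_inl]
      exact (i6_totalDegree_map _ _).trans
        ((i6_totalDegree_pderiv _ _).trans (i6_totalDegree_dehom i b))
    · simp only [g, Sum.elim_inr]
      refine (totalDegree_sub_C_le _ _).trans ?_
      rw [totalDegree_X]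
      exact hd
  have h1 := card_zeros hT g hD (by rw [hZ]; exact hfin)
  rwa [hZ, hcard] at h1

/-- Uses `card_zeros`. The coefficients of the monomials `x_e ^ j * x_i ^ (d - j)`, `j`
prime to the characteristic, are independent of `Zset τ f A I`, which has at most
`(n * d + 1) ^ (n ^ 2)` elements if it is finite; the value of the derivative of this part of the
form at a point with transcendental coordinate `τ e` determines these coefficients. -/
theorem card_decouple {k Ω : Type} [Field k] [Finite k] [Field Ω] [Algebra k Ω] [IsAlgClosed Ω]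
    {n d : ℕ} (hd : 1 ≤ d) (i : Fin (n + 1)) {τ : {l : Fin (n + 1) // l ≠ i} → Ω}
    (hτ : AlgebraicIndependent k τ) (A I : Finset {l : Fin (n + 1) // l ≠ i})
    {e : {l : Fin (n + 1) // l ≠ i}} (heA : e ∉ A) (heI : e ∈ I) (hAI : A.card + I.card = n) :
    Nat.card {a : Mono n d → k // (Zset τ (dehom i (form a)) A I).Finite ∧
        (Zset τ (dehom i (form a)) (insert e A) I).Nonempty} * Nat.card k ^ ((d + 1) / 2) ≤
      (n * d + 1) ^ (n ^ 2) * Nat.card (Mono n d → k) := by
  classical
  have hv : ∀ j : i6_S k d, ∃ v : Mono n d → k, dehom i (form v) = X e ^ (j : ℕ) := fun j =>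
    i6_exists_v i e (i6_mem_S.mp j.2).1.2
  choose v hv using hv
  set P : (i6_S k d → k) → (Mono n d → k) := fun c => ∑ j, c j • v j with hP
  have hF : ∀ (b : Mono n d → k) (c : i6_S k d → k), dehom i (form (b - P c)) =
      dehom i (form b) - ∑ j : i6_S k d, C (c j) * X e ^ (j : ℕ) := by
    intro b c
    rw [i6_form_sub, hP, i6_form_sum, map_sub, map_sum]
    congr 1
    refine Finset.sum_congr rfl fun j _ => ?_
    rw [map_mul, dehom_C, hv]
  have hne : ∀ (b : Mono n d → k) (c : i6_S k d → k) (e' : {l : Fin (n + 1) // l ≠ i}), e' ≠ e →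
      pderiv e' (dehom i (form (b - P c))) = pderiv e' (dehom i (form b)) := by
    intro b c e' he'
    rw [hF, map_sub, map_sum, sub_eq_self]
    refine Finset.sum_eq_zero fun j _ => ?_
    rw [pderiv_C_mul, Derivation.leibniz_pow, pderiv_X_of_ne (Ne.symm he')]
    simp
  have heq : ∀ (b : Mono n d → k) (c : i6_S k d → k) (z : {l : Fin (n + 1) // l ≠ i} → Ω),
      aeval z (pderiv e (dehom i (form (b - P c)))) = aeval z (pderiv e (dehom i (form b))) -
        ∑ j : i6_S k d, algebraMap k Ω (c j) * ((j : ℕ) * z e ^ ((j : ℕ) - 1)) := by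
    intro b c z
    rw [hF, map_sub, map_sub, map_sum, map_sum]
    congr 1
    refine Finset.sum_congr rfl fun j _ => ?_
    rw [pderiv_C_mul, Derivation.leibniz_pow, pderiv_X_self]
    simp
  have hZ : ∀ (b : Mono n d → k) (c : i6_S k d → k),
      Zset τ (dehom i (form (b - P c))) A I = Zset τ (dehom i (form b)) A I := by
    intro b c
    ext z
    refine and_congr (forall₂_congr fun e' he' => ?_) Iff.rfl
    rw [hne b c e' (fun h => heA (h ▸ he'))]
  have key := i6_count P {a : Mono n d → k | (Zset τ (dehom i (form a)) A I).Finite ∧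
        (Zset τ (dehom i (form a)) (insert e A) I).Nonempty} ((n * d + 1) ^ (n ^ 2)) (by
    intro b
    by_cases hfin : (Zset τ (dehom i (form b)) A I).Finite
    · refine le_trans ?_ (i6_card_Zset hd i τ A I hAI b hfin)
      have hmem : ∀ c : {c : i6_S k d → k // b - P c ∈ {a : Mono n d → k |
          (Zset τ (dehom i (form a)) A I).Finite ∧
            (Zset τ (dehom i (form a)) (insert e A) I).Nonempty}},
          ∃ z : {l : Fin (n + 1) // l ≠ i} → Ω,
            z ∈ Zset τ (dehom i (form (b - P c.1))) (insert e A) I := fun c => c.2.2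
      choose z hz using hmem
      have hzZ : ∀ c, z c ∈ Zset τ (dehom i (form b)) A I := fun c => by
        rw [← hZ b c.1]
        exact ⟨fun e' he' => (hz c).1 e' (Finset.mem_insert_of_mem he'), (hz c).2⟩
      have := hfin.to_subtype
      rw [← Nat.card_coe_set_eq]
      refine Nat.card_le_card_of_injective
        (fun c => (⟨z c, hzZ c⟩ : Zset τ (dehom i (form b)) A I)) ?_
      intro c c' hcc
      have h1 : z c = z c' := congrArg Subtype.val hcc
      have h2 := (hz c).1 e (Finset.mem_insert_self _ _)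
      have h3 := (hz c').1 e (Finset.mem_insert_self _ _)
      rw [heq] at h2 h3
      rw [← h1] at h3
      have h4 : z c e = τ e := (hz c).2 e heI
      rw [h4] at h2 h3
      have h5 : ∑ j : i6_S k d, algebraMap k Ω ((c.1 - c'.1) j) *
          ((j : ℕ) * τ e ^ ((j : ℕ) - 1)) = 0 := by
        have h6 : ∑ j : i6_S k d, algebraMap k Ω ((c.1 - c'.1) j) *
            ((j : ℕ) * τ e ^ ((j : ℕ) - 1)) =
            (∑ j : i6_S k d, algebraMap k Ω (c.1 j) * ((j : ℕ) * τ e ^ ((j : ℕ) - 1))) -
            ∑ j : i6_S k d, algebraMap k Ω (c'.1 j) * ((j : ℕ) * τ e ^ ((j : ℕ) - 1)) := by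
          rw [← Finset.sum_sub_distrib]
          refine Finset.sum_congr rfl fun j _ => ?_
          rw [Pi.sub_apply, map_sub, sub_mul]
        rw [h6]
        linear_combination h3 - h2
      have h6 := i6_indep (hτ.transcendental e) _ h5
      exact Subtype.ext (sub_eq_zero.mp h6)
    · have hempty : IsEmpty {c : i6_S k d → k // b - P c ∈ {a : Mono n d → k |
          (Zset τ (dehom i (form a)) A I).Finite ∧
            (Zset τ (dehom i (form a)) (insert e A) I).Nonempty}} := by
        refine ⟨fun c => hfin ?_⟩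
        have := c.2.1
        rwa [hZ] at this
      rw [Nat.card_of_isEmpty]
      exact Nat.zero_le _)
  refine le_trans (Nat.mul_le_mul_left _ ?_) key
  rw [Nat.card_fun, Nat.card_eq_fintype_card (α := i6_S k d), Fintype.card_coe]
  exact Nat.pow_le_pow_right Nat.card_pos (i6_card_S k d)

theorem i7_exists_alg (k : Type) [Field k] (σ : Type) :
    ∃ (Ω : Type) (_ : Field Ω) (_ : Algebra k Ω) (_ : IsAlgClosed Ω) (τ : σ → Ω),
      AlgebraicIndependent k τ := by
  let K := FractionRing (MvPolynomial σ k)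
  let Ω := AlgebraicClosure K
  let φ : MvPolynomial σ k →ₐ[k] Ω := IsScalarTower.toAlgHom k (MvPolynomial σ k) Ω
  have hφ : Function.Injective φ := by
    have h1 : Function.Injective (algebraMap (MvPolynomial σ k) Ω) := by
      rw [IsScalarTower.algebraMap_eq (MvPolynomial σ k) K Ω]
      exact (algebraMap K Ω).injective.comp (IsFractionRing.injective (MvPolynomial σ k) K)
    exact h1
  exact ⟨Ω, inferInstance, inferInstance, inferInstance, _,
    (MvPolynomial.algebraicIndependent_X σ k).map' hφ⟩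

/-- A union bound. -/
theorem i7_union {α ι : Type} [Finite α] (s : Finset ι) (p : α → Prop) (q : ι → α → Prop)
    (h : ∀ a, p a → ∃ j ∈ s, q j a) :
    Nat.card {a // p a} ≤ ∑ j ∈ s, Nat.card {a // q j a} := by
  classical
  have := Fintype.ofFinite α
  have h1 : Nat.card {a // p a} = (Finset.univ.filter p).card := by
    rw [Nat.card_eq_fintype_card, Fintype.card_subtype]
  have h2 : ∀ j, Nat.card {a // q j a} = (Finset.univ.filter (q j)).card := fun j => by
    rw [Nat.card_eq_fintype_card, Fintype.card_subtype]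
  rw [h1, Finset.sum_congr rfl fun j _ => h2 j]
  refine (Finset.card_le_card ?_).trans Finset.card_biUnion_le
  intro a ha
  rw [Finset.mem_filter] at ha
  obtain ⟨j, hj, hja⟩ := h a ha.2
  rw [Finset.mem_biUnion]
  exact ⟨j, hj, by rw [Finset.mem_filter]; exact ⟨Finset.mem_univ _, hja⟩⟩

theorem i7_or {α : Type} [Finite α] (p q r : α → Prop) (h : ∀ a, p a → q a ∨ r a) :
    Nat.card {a // p a} ≤ Nat.card {a // q a} + Nat.card {a // r a} := by
  have h1 := i7_union (Finset.univ : Finset Bool) p (fun t a => if t then q a else r a) (by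
    intro a ha
    rcases h a ha with h | h
    · exact ⟨true, Finset.mem_univ _, by simpa using h⟩
    · exact ⟨false, Finset.mem_univ _, by simpa using h⟩)
  simpa using h1

theorem i7_step {k Ω : Type} [Field k] [Finite k] [Field Ω] [Algebra k Ω] [IsAlgClosed Ω]
    {n d : ℕ} (hn : 1 ≤ n) (hd : 1 ≤ d) (i : Fin (n + 1)) {τ : {l : Fin (n + 1) // l ≠ i} → Ω}
    (hτ : AlgebraicIndependent k τ) (m : ℕ) : ∀ A I : Finset {l : Fin (n + 1) // l ≠ i},
    A.card + I.card = n + 1 → 1 ≤ I.card → I.card + m = n →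
    Nat.card {a : Mono n d → k // (Zset τ (dehom i (form a)) A I).Nonempty} *
      Nat.card k ^ ((d + 1) / 2) ≤
      n ^ m * (n * d + 1) ^ (n ^ 2) * Nat.card (Mono n d → k) := by
  classical
  have hcard : Fintype.card {l : Fin (n + 1) // l ≠ i} = n := by
    rw [Fintype.card_subtype_compl, Fintype.card_fin]
    simp
  induction m with
  | zero =>
    intro A I h1 h2 h3
    have hI : I = Finset.univ := by
      rw [← Finset.card_eq_iff_eq_univ, hcard]
      omega
    obtain ⟨e, he⟩ : ∃ e, e ∈ A := by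
      have : 0 < A.card := by omega
      exact Finset.card_pos.mp this
    have heI : e ∈ I := by rw [hI]; exact Finset.mem_univ _
    have h4 := card_decouple hd i hτ (A.erase e) I (Finset.notMem_erase e A) heI (by
      rw [Finset.card_erase_of_mem he]
      have : 0 < A.card := Finset.card_pos.mpr ⟨e, he⟩
      omega)
    rw [Finset.insert_erase he] at h4
    rw [pow_zero, one_mul]
    refine le_trans (Nat.mul_le_mul_right _ ?_) h4
    refine Nat.card_le_card_of_injective (fun a => ⟨a.1, ?_, a.2⟩) ?_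
    · refine (Set.finite_singleton τ).subset ?_
      rintro z ⟨_, hz⟩
      funext l
      exact hz l (by rw [hI]; exact Finset.mem_univ _)
    · intro a a' haa
      simp only [Subtype.mk.injEq] at haa
      exact Subtype.ext haa
  | succ m ih =>
    intro A I h1 h2 h3
    obtain ⟨e, heA, heI⟩ : ∃ e, e ∈ A ∧ e ∈ I := by
      by_contra hcon
      push Not at hcon
      have h4 : Disjoint A I := Finset.disjoint_left.mpr hcon
      have h5 := Finset.card_union_of_disjoint h4
      have h6 := Finset.card_le_univ (A ∪ I)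
      rw [hcard] at h6
      omega
    have hA0 : 0 < A.card := Finset.card_pos.mpr ⟨e, heA⟩
    have hA' : (A.erase e).card + I.card = n := by
      rw [Finset.card_erase_of_mem heA]
      omega
    have h4 := card_decouple hd i hτ (A.erase e) I (Finset.notMem_erase e A) heI hA'
    rw [Finset.insert_erase heA] at h4
    have h5 : Nat.card {a : Mono n d → k // (Zset τ (dehom i (form a)) A I).Nonempty} ≤
        Nat.card {a : Mono n d → k // (Zset τ (dehom i (form a)) (A.erase e) I).Finite ∧
          (Zset τ (dehom i (form a)) A I).Nonempty} +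
        Nat.card {a : Mono n d → k // ∃ j ∈ Iᶜ,
          (Zset τ (dehom i (form a)) (A.erase e) (insert j I)).Nonempty} := by
      refine i7_or _ _ _ fun a ha => ?_
      by_cases hfin : (Zset τ (dehom i (form a)) (A.erase e) I).Finite
      · exact Or.inl ⟨hfin, ha⟩
      · obtain ⟨j, hj, hj'⟩ := exists_insert_of_infinite hτ _ _ _ hfin
        exact Or.inr ⟨j, Finset.mem_compl.mpr hj, hj'⟩
    have h6 : Nat.card {a : Mono n d → k // ∃ j ∈ Iᶜ,
          (Zset τ (dehom i (form a)) (A.erase e) (insert j I)).Nonempty} ≤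
        ∑ j ∈ Iᶜ, Nat.card {a : Mono n d → k //
          (Zset τ (dehom i (form a)) (A.erase e) (insert j I)).Nonempty} :=
      i7_union _ _ _ fun a ha => ha
    have h7 : (∑ j ∈ Iᶜ, Nat.card {a : Mono n d → k //
          (Zset τ (dehom i (form a)) (A.erase e) (insert j I)).Nonempty}) *
            Nat.card k ^ ((d + 1) / 2) ≤
        (m + 1) * (n ^ m * (n * d + 1) ^ (n ^ 2) * Nat.card (Mono n d → k)) := by
      rw [Finset.sum_mul]
      have h8 : (Iᶜ).card = m + 1 := by
        rw [Finset.card_compl, hcard]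
        omega
      rw [← h8, ← smul_eq_mul (a := (Iᶜ).card)]
      refine Finset.sum_le_card_nsmul _ _ _ fun j hj => ?_
      have hj' : j ∉ I := Finset.mem_compl.mp hj
      refine ih (A.erase e) (insert j I) ?_ ?_ ?_
      · rw [Finset.card_insert_of_notMem hj']
        omega
      · rw [Finset.card_insert_of_notMem hj']
        omega
      · rw [Finset.card_insert_of_notMem hj']
        omega
    set M := (n * d + 1) ^ (n ^ 2) * Nat.card (Mono n d → k) with hM
    have h9 : 1 + (m + 1) * n ^ m ≤ n ^ (m + 1) := by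
      have h10 : m + 1 + 1 ≤ n := by omega
      have h11 : 1 ≤ n ^ m := Nat.one_le_pow _ _ (by omega)
      calc 1 + (m + 1) * n ^ m ≤ n ^ m + (m + 1) * n ^ m := by omega
        _ = (m + 1 + 1) * n ^ m := by ring
        _ ≤ n * n ^ m := Nat.mul_le_mul_right _ h10
        _ = n ^ (m + 1) := by ring
    calc _ ≤ (Nat.card {a : Mono n d → k // (Zset τ (dehom i (form a)) (A.erase e) I).Finite ∧
          (Zset τ (dehom i (form a)) A I).Nonempty} +
          ∑ j ∈ Iᶜ, Nat.card {a : Mono n d → k //
          (Zset τ (dehom i (form a)) (A.erase e) (insert j I)).Nonempty}) *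
            Nat.card k ^ ((d + 1) / 2) :=
          Nat.mul_le_mul_right _ (h5.trans (Nat.add_le_add_left h6 _))
      _ ≤ M + (m + 1) * (n ^ m * (n * d + 1) ^ (n ^ 2) * Nat.card (Mono n d → k)) := by
          rw [add_mul]
          exact add_le_add h4 h7
      _ = (1 + (m + 1) * n ^ m) * M := by rw [hM]; ring
      _ ≤ n ^ (m + 1) * M := Nat.mul_le_mul_right _ h9
      _ = _ := by rw [hM]; ring

/-- Uses I5, I6. By induction on `|A|`, for `|A| + |I| = n + 1`, `1 ≤ |I|`, the set of
the `a` with nonempty `Zset τ (dehom i (form a)) A I` has at most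
`n ^ (n - |I|) * (n * d + 1) ^ (n ^ 2) * q ^ (#Mono - (d + 1) / 2)` elements: choose `e ∈ A ∩ I` and
apply `card_decouple` to `A.erase e` and `I`, and `exists_insert_of_infinite`. -/
theorem card_not_finite {k : Type} [Field k] [Finite k] {n d : ℕ} (hn : 1 ≤ n) (hd : 1 ≤ d)
    (i : Fin (n + 1)) :
    Nat.card {a : Mono n d → k // ¬ Finite (MvPolynomial {l : Fin (n + 1) // l ≠ i} k ⧸
        Ideal.span (Set.range fun l => pderiv l (dehom i (form a))))} *
          Nat.card k ^ ((d + 1) / 2) ≤
      n ^ n * (n * d + 1) ^ (n ^ 2) * Nat.card (Mono n d → k) := by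
  classical
  have hcard : Fintype.card {l : Fin (n + 1) // l ≠ i} = n := by
    rw [Fintype.card_subtype_compl, Fintype.card_fin]
    simp
  obtain ⟨Ω, _, _, _, τ, hτ⟩ := i7_exists_alg k {l : Fin (n + 1) // l ≠ i}
  have h1 : Nat.card {a : Mono n d → k // ¬ Finite (MvPolynomial {l : Fin (n + 1) // l ≠ i} k ⧸
        Ideal.span (Set.range fun l => pderiv l (dehom i (form a))))} ≤
      ∑ j ∈ (Finset.univ : Finset {l : Fin (n + 1) // l ≠ i}), Nat.card {a : Mono n d → k //
          (Zset τ (dehom i (form a)) Finset.univ {j}).Nonempty} := by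
    refine i7_union _ _ _ fun a ha => ?_
    obtain ⟨j, hj⟩ := exists_zero_of_infinite hτ _ ha
    exact ⟨j, Finset.mem_univ _, hj⟩
  refine (Nat.mul_le_mul_right _ h1).trans ?_
  rw [Finset.sum_mul]
  have h2 : ∀ j ∈ (Finset.univ : Finset {l : Fin (n + 1) // l ≠ i}),
      Nat.card {a : Mono n d → k // (Zset τ (dehom i (form a)) Finset.univ {j}).Nonempty} *
        Nat.card k ^ ((d + 1) / 2) ≤
      n ^ (n - 1) * (n * d + 1) ^ (n ^ 2) * Nat.card (Mono n d → k) := fun j _ =>
    i7_step hn hd i hτ (n - 1) Finset.univ {j} (by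
      rw [Finset.card_univ, hcard, Finset.card_singleton]) (by
      rw [Finset.card_singleton]) (by
      rw [Finset.card_singleton]; omega)
  refine (Finset.sum_le_card_nsmul _ _ _ h2).trans ?_
  rw [Finset.card_univ, hcard, smul_eq_mul]
  have h3 : n ^ n = n * n ^ (n - 1) := by
    rw [← pow_succ']
    congr 1
    omega
  rw [h3]
  refine le_of_eq ?_
  ring

/-- The reduction of the local ring. -/
theorem i8_exists_red {E : Type} [Field E] [NumberField E] (P : HeightOneSpectrum (𝓞 E))
    {ϖ : locRing E P} (hϖ : Irreducible ϖ) :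
    ∃ ρ : locRing E P →+* 𝓞 E ⧸ P.asIdeal, (∀ x : 𝓞 E, ρ (algebraMap (𝓞 E) (locRing E P) x) =
      Ideal.Quotient.mk P.asIdeal x) ∧ RingHom.ker ρ = Ideal.span {ϖ} := by
  have h1 : Ideal.span {ϖ} = IsLocalRing.maximalIdeal (locRing E P) :=
    (IsDiscreteValuationRing.irreducible_iff_uniformizer ϖ).mp hϖ ▸ rfl
  let e := IsLocalization.AtPrime.equivQuotMaximalIdeal P.asIdeal (locRing E P)
  refine ⟨(e.symm : locRing E P ⧸ IsLocalRing.maximalIdeal (locRing E P) →+* 𝓞 E ⧸ P.asIdeal).comp
    (Ideal.Quotient.mk _), fun x => ?_, ?_⟩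
  · simp only [RingHom.comp_apply]
    change e.symm _ = _
    rw [RingEquiv.symm_apply_eq]
    exact (IsLocalization.AtPrime.equivQuotMaximalIdeal_apply_mk P.asIdeal (locRing E P) x).symm
  · rw [h1]
    ext x
    rw [RingHom.mem_ker, RingHom.comp_apply]
    change e.symm _ = 0 ↔ _
    rw [map_eq_zero_iff e.symm e.symm.injective, Ideal.Quotient.eq_zero_iff_mem]

theorem i8_dehom_map {R S : Type} [CommRing R] [CommRing S] (φ : R →+* S) {n : ℕ}
    (i : Fin (n + 1)) (f : MvPolynomial (Fin (n + 1)) R) :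
    MvPolynomial.map φ (dehom i f) = dehom i (MvPolynomial.map φ f) := by
  induction f using MvPolynomial.induction_on with
  | C a => rw [dehom_C, map_C, map_C, dehom_C]
  | add a b ha hb => rw [map_add, map_add, map_add, map_add, ha, hb]
  | mul_X a l ha =>
    rw [map_mul, map_mul, map_mul, map_mul, ha, map_X]
    congr 1
    by_cases hl : l = i
    · subst hl
      rw [dehom_X_self, dehom_X_self, map_one]
    · have h1 := dehom_X (O := R) i ⟨l, hl⟩
      have h2 := dehom_X (O := S) i ⟨l, hl⟩
      rw [h1, h2, map_X]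

theorem i8_finite {O k : Type} [CommRing O] [CommRing k] {σ : Type} (ρ : O →+* k)
    (hρ : Function.Surjective ρ) {ϖ : O} (hker : RingHom.ker ρ = Ideal.span {ϖ})
    (F : MvPolynomial σ O)
    (h : Finite (MvPolynomial σ k ⧸ Ideal.span (Set.range fun l => pderiv l
      (MvPolynomial.map ρ F)))) :
    Finite (MvPolynomial σ O ⧸ Ideal.span (insert (C ϖ) (Set.range fun l => pderiv l F))) := by
  set J := Ideal.span (Set.range fun l => pderiv l (MvPolynomial.map ρ F)) with hJ
  let ψ : MvPolynomial σ O →+* MvPolynomial σ k ⧸ J := (Ideal.Quotient.mk J).comp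
    (MvPolynomial.map ρ)
  have hk : RingHom.ker ψ = Ideal.span (insert (C ϖ) (Set.range fun l => pderiv l F)) := by
    have h1 : RingHom.ker ψ = J.comap (MvPolynomial.map ρ) := by
      ext x
      rw [RingHom.mem_ker, RingHom.comp_apply, Ideal.Quotient.eq_zero_iff_mem, Ideal.mem_comap]
    have h2 : J = (Ideal.span (Set.range fun l => pderiv l F)).map (MvPolynomial.map ρ) := by
      rw [Ideal.map_span, hJ, ← Set.range_comp]
      congr 1
      congr 1
      funext l
      exact pderiv_map
    rw [h1, h2, Ideal.comap_map_of_surjective _ (MvPolynomial.map_surjective ρ hρ),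
      ← RingHom.ker_eq_comap_bot, MvPolynomial.ker_map, hker, Ideal.map_span, Set.image_singleton,
      Ideal.span_insert, sup_comm]
  rw [← hk]
  exact Finite.of_injective _ (RingHom.kerLift_injective ψ)

/-- Uses `card_not_finite`, `UD.hom`. -/
theorem finJac_UD {E : Type} [Field E] [NumberField E] {s : ℕ} (b : Module.Basis (Fin s) ℤ (𝓞 E))
    {n d : ℕ} (hn : 1 ≤ n) (hd : 1 ≤ d) (i : Fin (n + 1)) (P : HeightOneSpectrum (𝓞 E))
    {ϖ : locRing E P} (hϖ : Irreducible ϖ) :
    UD (fun u : Mono n d × Fin s → ℤ => ¬ FinJac ϖ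
        (dehom i (form fun μ => algebraMap (𝓞 E) (locRing E P) (coeffs b u μ))))
      ((n : ℝ) ^ n * (n * d + 1) ^ (n ^ 2) / (Nat.card (𝓞 E ⧸ P.asIdeal) : ℝ) ^ ((d + 1) / 2)) := by
  classical
  obtain ⟨ρ, hρ, hker⟩ := i8_exists_red P hϖ
  have hρs : Function.Surjective ρ := by
    intro y
    obtain ⟨x, rfl⟩ := Ideal.Quotient.mk_surjective y
    exact ⟨_, hρ x⟩
  have hfin : Finite (𝓞 E ⧸ P.asIdeal) := Ideal.finiteQuotientOfFreeOfNeBot _ P.ne_bot
  have hmax : P.asIdeal.IsMaximal := P.isMaximal
  let _ : Field (𝓞 E ⧸ P.asIdeal) := Ideal.Quotient.field P.asIdeal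
  have key := card_not_finite (k := 𝓞 E ⧸ P.asIdeal) (n := n) (d := d) hn hd i
  let ψ : (Mono n d × Fin s → ℤ) →+ (Mono n d → 𝓞 E ⧸ P.asIdeal) :=
    { toFun := fun u μ => Ideal.Quotient.mk P.asIdeal (coeffs b u μ)
      map_zero' := by
        funext μ
        simp [DNF.coeffs]
      map_add' := by
        intro u v
        funext μ
        simp [DNF.coeffs, add_smul, Finset.sum_add_distrib] }
  have hψ : Function.Surjective ψ := by
    intro a
    choose x hx using fun μ => Ideal.Quotient.mk_surjective (a μ)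
    refine ⟨fun p => b.repr (x p.1) p.2, ?_⟩
    funext μ
    rw [← hx μ]
    change Ideal.Quotient.mk P.asIdeal (∑ j, (b.repr (x μ)) j • b j) = _
    rw [b.sum_repr]
  have hq : (0 : ℝ) < Nat.card (𝓞 E ⧸ P.asIdeal) := by exact_mod_cast Nat.card_pos
  refine UD.hom ψ hψ {a | ¬ Finite (MvPolynomial {l : Fin (n + 1) // l ≠ i} (𝓞 E ⧸ P.asIdeal) ⧸
        Ideal.span (Set.range fun l => pderiv l (dehom i (form a))))} ?_ ?_
  · intro u hu hfinite
    apply hu
    refine i8_finite ρ hρs hker _ ?_
    rw [i8_dehom_map, SmoothAlg.form_map]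
    have h1 : (fun μ => ρ (algebraMap (𝓞 E) (locRing E P) (coeffs b u μ))) = ψ u := by
      funext μ
      exact hρ _
    rw [h1]
    exact hfinite
  · rw [div_mul_eq_mul_div, le_div_iff₀ (pow_pos hq _)]
    exact_mod_cast key

end Pool.Agent.Lib.MP_6a3dac_ag.Maj
end

section

/-!
# The residue fields of the local rings of the ring of integers
-/

set_option autoImplicit false

namespace Pool.Agent.Lib.MP_6a3dac_ag.Maj

open NumberField IsDedekindDomain

variable {E : Type} [Field E] [NumberField E] (P : HeightOneSpectrum (𝓞 E)) {ϖ : locRing E P}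
  (hϖ : Irreducible ϖ)
include hϖ

theorem span_uniformizer : Ideal.span {ϖ} = IsLocalRing.maximalIdeal (locRing E P) :=
  (IsDiscreteValuationRing.irreducible_iff_uniformizer ϖ).mp hϖ ▸ rfl

theorem card_res : Nat.card (locRing E P ⧸ Ideal.span {ϖ}) = Nat.card (𝓞 E ⧸ P.asIdeal) := by
  rw [span_uniformizer P hϖ]
  exact Nat.card_congr
    (IsLocalization.AtPrime.equivQuotMaximalIdeal P.asIdeal (locRing E P)).toEquiv.symm

theorem finite_res : Finite (locRing E P ⧸ Ideal.span {ϖ}) := by
  have hfin : Finite (𝓞 E ⧸ P.asIdeal) := Ideal.finiteQuotientOfFreeOfNeBot _ P.ne_bot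
  rw [span_uniformizer P hϖ]
  exact Finite.of_equiv _
    (IsLocalization.AtPrime.equivQuotMaximalIdeal P.asIdeal (locRing E P)).toEquiv

end Pool.Agent.Lib.MP_6a3dac_ag.Maj
end

section

/-!
# Surjectivity of evaluation on the forms of large degree
-/

set_option autoImplicit false

namespace Pool.Agent.Lib.MP_6a3dac_ag.Maj

open MvPolynomial NumberField IsDedekindDomain
open Pool.Agent.Lib.MP_6a3dac_ag.DNF

theorem s1_exists_kill {R A : Type} [CommRing R] [AddCommGroup A] [Module R A] (P : Ideal R)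
    (N : Submodule R A) (x : A) (hx : x ∉ N) :
    ∀ k : ℕ, (∀ r ∈ P ^ k, r • x ∈ N) → ∃ t : R, t • x ∉ N ∧ ∀ r ∈ P, r • (t • x) ∈ N := by
  intro k
  induction k with
  | zero =>
    intro h
    exact absurd (by simpa using h 1 (by simp)) hx
  | succ k ih =>
    intro h
    by_cases h1 : ∀ r ∈ P ^ k, r • x ∈ N
    · exact ih h1
    · push Not at h1
      obtain ⟨t, ht, htx⟩ := h1
      refine ⟨t, htx, fun r hr => ?_⟩
      rw [smul_smul]
      apply h
      rw [pow_succ, mul_comm r t]
      exact Ideal.mul_mem_mul ht hr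

theorem s1_card_lt {R A : Type} [CommRing R] [AddCommGroup A] [Module R A] [Finite A]
    (P : Ideal R) (hP : P.IsMaximal) (hfin : Finite (R ⧸ P)) {k : ℕ}
    (hk : ∀ x ∈ P ^ k, ∀ a : A, x • a = 0) {N N' : Submodule R A} (h : N < N') :
    Nat.card (R ⧸ P) * Nat.card N ≤ Nat.card N' := by
  obtain ⟨hle, x, hx', hx⟩ := SetLike.lt_iff_le_and_exists.mp h
  obtain ⟨t, ht, hP'⟩ := s1_exists_kill P N x hx k (fun r hr => by rw [hk r hr]; exact N.zero_mem)
  set y := t • x with hy
  have hy' : y ∈ N' := N'.smul_mem _ hx'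
  rw [← Nat.card_prod]
  let f : (R ⧸ P) × N → N' := fun p =>
    ⟨(Quotient.out p.1 : R) • y + p.2, N'.add_mem (N'.smul_mem _ hy') (hle p.2.2)⟩
  refine Nat.card_le_card_of_injective f ?_
  rintro ⟨r, a⟩ ⟨r', a'⟩ he
  have he1 : (Quotient.out r : R) • y + (a : A) = (Quotient.out r' : R) • y + (a' : A) :=
    congrArg Subtype.val he
  have he2 : ((Quotient.out r : R) - Quotient.out r') • y ∈ N := by
    have : ((Quotient.out r : R) - Quotient.out r') • y = (a' : A) - a := by
      rw [sub_smul, sub_eq_sub_iff_add_eq_add, he1, add_comm]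
    rw [this]
    exact N.sub_mem a'.2 a.2
  have he3 : (Quotient.out r : R) - Quotient.out r' ∈ P := by
    by_contra hn
    obtain ⟨u, v, hv, huv⟩ : ∃ u : R, ∃ v ∈ P, u * ((Quotient.out r : R) - Quotient.out r') + v = 1 := by
      have := hP.exists_inv hn
      obtain ⟨u, v, hv, huv⟩ := this
      exact ⟨u, v, hv, huv⟩
    apply ht
    have h1 : y = u • (((Quotient.out r : R) - Quotient.out r') • y) + v • y := by
      rw [smul_smul, ← add_smul, huv, one_smul]
    rw [h1]
    exact N.add_mem (N.smul_mem _ he2) (hP' v hv)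
  have he4 : r = r' := by
    have h1 : (Ideal.Quotient.mk P (Quotient.out r : R)) = Ideal.Quotient.mk P (Quotient.out r') :=
      Ideal.Quotient.eq.mpr he3
    have h2 : ∀ s : R ⧸ P, Ideal.Quotient.mk P (Quotient.out s : R) = s := fun s =>
      Quotient.out_eq s
    rw [h2, h2] at h1
    exact h1
  subst he4
  have he5 : (a : A) = a' := by simpa using he1
  exact Prod.ext rfl (Subtype.ext he5)

/-- The image of the polynomials of degree at most `m`. -/
def s1_img {R A : Type} [CommRing R] [CommRing A] [Algebra R A] {σ : Type}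
    (ψ : MvPolynomial σ R →ₐ[R] A) (m : ℕ) : Submodule R A where
  carrier := {z | ∃ f : MvPolynomial σ R, f.totalDegree ≤ m ∧ ψ f = z}
  add_mem' := by
    rintro _ _ ⟨f, hf, rfl⟩ ⟨g, hg, rfl⟩
    exact ⟨f + g, (totalDegree_add f g).trans (max_le hf hg), map_add ψ f g⟩
  zero_mem' := ⟨0, by simp, map_zero ψ⟩
  smul_mem' := by
    rintro c _ ⟨f, hf, rfl⟩
    exact ⟨c • f, (totalDegree_smul_le c f).trans hf, map_smul ψ c f⟩

theorem s1_dichotomy {R A : Type} [CommRing R] [CommRing A] [Algebra R A] [Finite A] {σ : Type}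
    (P : Ideal R) (hP : P.IsMaximal) (hfin : Finite (R ⧸ P)) {k : ℕ}
    (ψ : MvPolynomial σ R →ₐ[R] A) (hψ : Function.Surjective ψ)
    (hk : ∀ x ∈ P ^ k, ∀ a : A, x • a = 0) (m : ℕ) :
    s1_img ψ m = ⊤ ∨ Nat.card (R ⧸ P) ^ (m + 1) ≤ Nat.card (s1_img ψ m) := by
  have hone : ∀ m, (1 : A) ∈ s1_img ψ m := fun m => ⟨1, by simp, map_one ψ⟩
  have hmono : ∀ m, s1_img ψ m ≤ s1_img ψ (m + 1) := by
    rintro m _ ⟨f, hf, rfl⟩
    exact ⟨f, hf.trans (Nat.le_succ m), rfl⟩
  induction m with
  | zero =>
    by_cases h : s1_img ψ 0 = ⊤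
    · exact Or.inl h
    · right
      have hlt : (⊥ : Submodule R A) < s1_img ψ 0 := by
        rw [bot_lt_iff_ne_bot]
        intro h0
        apply h
        have h1 : (1 : A) = 0 := by
          have := hone 0
          rw [h0] at this
          exact (Submodule.mem_bot R).mp this
        rw [eq_top_iff]
        intro z _
        have hz : z = 0 := by rw [← one_mul z, h1, zero_mul]
        rw [hz]
        exact Submodule.zero_mem _
      have := s1_card_lt P hP hfin hk hlt
      simpa using this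
  | succ m ih =>
    rcases ih with h | h
    · left
      rw [eq_top_iff, ← h]
      exact hmono m
    · by_cases he : s1_img ψ m = s1_img ψ (m + 1)
      · left
        rw [← he, eq_top_iff]
        intro z _
        obtain ⟨f, rfl⟩ := hψ z
        induction f using MvPolynomial.induction_on with
        | C a => exact ⟨C a, by simp, rfl⟩
        | add p q hp hq =>
          rw [map_add]
          exact Submodule.add_mem _ (hp trivial) (hq trivial)
        | mul_X p i hp =>
          obtain ⟨g, hg, hge⟩ := hp trivial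
          rw [he, map_mul, ← hge, ← map_mul]
          refine ⟨g * X i, ?_, rfl⟩
          refine (totalDegree_mul g (X i)).trans (Nat.add_le_add hg ?_)
          by_cases hR : Nontrivial R
          · rw [totalDegree_X]
          · rw [not_nontrivial_iff_subsingleton] at hR
            have : (X i : MvPolynomial σ R) = 0 := Subsingleton.elim _ _
            rw [this]
            simp
      · right
        have hlt := lt_of_le_of_ne (hmono m) he
        have h1 := s1_card_lt P hP hfin hk hlt
        calc Nat.card (R ⧸ P) ^ (m + 1 + 1) = Nat.card (R ⧸ P) * Nat.card (R ⧸ P) ^ (m + 1) := by ring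
          _ ≤ Nat.card (R ⧸ P) * Nat.card (s1_img ψ m) := Nat.mul_le_mul_left _ h
          _ ≤ _ := h1

/-- The polynomials of degree at most `d` map onto the quotients of small length: the
images `A_m` of the polynomials of degree at most `m` are `R`-submodules, `A_m = A_(m+1)` implies
`A_m = A`, and a proper inclusion multiplies the cardinality by at least `#(R / P)`. -/
theorem deg_surj {R A : Type} [CommRing R] [CommRing A] [Finite A] {σ : Type} [Finite σ]
    (P : Ideal R) (hP : P.IsMaximal) (hfin : Finite (R ⧸ P)) {k : ℕ}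
    (ψ : MvPolynomial σ R →+* A) (hψ : Function.Surjective ψ)
    (hk : ∀ x ∈ P ^ k, ψ (C x) = 0) {ℓ : ℕ} (hcard : Nat.card A ≤ Nat.card (R ⧸ P) ^ ℓ) {d : ℕ}
    (hd : ℓ ≤ d + 1) (z : A) : ∃ f : MvPolynomial σ R, f.totalDegree ≤ d ∧ ψ f = z := by
  letI : Algebra R A := (ψ.comp C).toAlgebra
  let Ψ : MvPolynomial σ R →ₐ[R] A := { ψ with commutes' := fun r => rfl }
  have hk' : ∀ x ∈ P ^ k, ∀ a : A, x • a = 0 := by
    intro x hx a
    have : x • a = ψ (C x) * a := rfl
    rw [this, hk x hx, zero_mul]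
  have hq : 1 ≤ Nat.card (R ⧸ P) := Nat.card_pos
  have htop : s1_img Ψ d = ⊤ := by
    rcases s1_dichotomy P hP hfin Ψ hψ hk' d with h | h
    · exact h
    · have h1 : Nat.card A ≤ Nat.card (s1_img Ψ d) :=
        hcard.trans ((Nat.pow_le_pow_right hq hd).trans h)
      rw [eq_top_iff]
      intro x _
      have h2 : Function.Bijective (Subtype.val : s1_img Ψ d → A) := by
        rw [Nat.bijective_iff_injective_and_card]
        exact ⟨Subtype.val_injective,
          le_antisymm (Nat.card_le_card_of_injective _ Subtype.val_injective) h1⟩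
      obtain ⟨y, rfl⟩ := h2.2 x
      exact y.2
  have : z ∈ s1_img Ψ d := by rw [htop]; trivial
  exact this

/-- The image of the polynomials of degree at most `d` in a quotient of length at least
`m` has length at least `min m (d + 1)`. -/
theorem deg_image {R A : Type} [CommRing R] [CommRing A] [Finite A] {σ : Type} [Finite σ]
    (P : Ideal R) (hP : P.IsMaximal) (hfin : Finite (R ⧸ P)) {k : ℕ}
    (ψ : MvPolynomial σ R →+* A) (hψ : Function.Surjective ψ)
    (hk : ∀ x ∈ P ^ k, ψ (C x) = 0) {m : ℕ} (hcard : Nat.card (R ⧸ P) ^ m ≤ Nat.card A) {d : ℕ}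
    (hd : m ≤ d + 1) :
    Nat.card (R ⧸ P) ^ m ≤ Nat.card {z : A // ∃ f : MvPolynomial σ R, f.totalDegree ≤ d ∧ ψ f = z} := by
  letI : Algebra R A := (ψ.comp C).toAlgebra
  let Ψ : MvPolynomial σ R →ₐ[R] A := { ψ with commutes' := fun r => rfl }
  have hk' : ∀ x ∈ P ^ k, ∀ a : A, x • a = 0 := by
    intro x hx a
    have : x • a = ψ (C x) * a := rfl
    rw [this, hk x hx, zero_mul]
  have hq : 1 ≤ Nat.card (R ⧸ P) := Nat.card_pos
  show Nat.card (R ⧸ P) ^ m ≤ Nat.card (s1_img Ψ d)
  rcases s1_dichotomy P hP hfin Ψ hψ hk' d with h | h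
  · rw [h]
    have : Nat.card (⊤ : Submodule R A) = Nat.card A :=
      Nat.card_congr (Submodule.topEquiv (R := R) (M := A)).toEquiv
    rw [this]
    exact hcard
  · exact (Nat.pow_le_pow_right hq hd).trans h

/-- Every polynomial of degree at most `d` is the dehomogenization of a form of degree
`d`. -/
theorem exists_form_dehom {R : Type} [CommRing R] {n d : ℕ} (i : Fin (n + 1))
    (f : MvPolynomial {l : Fin (n + 1) // l ≠ i} R) (hf : f.totalDegree ≤ d) :
    ∃ a : Mono n d → R, dehom i (form a) = f := by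
  classical
  have key : ∀ s ∈ f.support, ∃ a : Mono n d → R,
      dehom i (form a) = monomial s (coeff s f) := by
    intro s hs
    have hle : s.degree ≤ d := by
      refine le_trans ?_ hf
      have := le_totalDegree hs
      rwa [Finsupp.degree_eq_sum, ← Finsupp.sum_fintype s (fun _ e => e) (fun _ => rfl)]
    have hhom : (C (coeff s f) * (∏ l : {l : Fin (n + 1) // l ≠ i}, X l.1 ^ s l) *
        X i ^ (d - s.degree) : MvPolynomial (Fin (n + 1)) R).IsHomogeneous d := by
      have h1 : (∏ l : {l : Fin (n + 1) // l ≠ i}, (X l.1 : MvPolynomial (Fin (n + 1)) R) ^ s l).IsHomogeneous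
          (∑ l, s l) := IsHomogeneous.prod _ _ _ fun l _ => isHomogeneous_X_pow _ _
      rw [← Finsupp.degree_eq_sum] at h1
      have h2 := (h1.C_mul (coeff s f)).mul (isHomogeneous_X_pow (R := R) i (d - s.degree))
      rwa [Nat.add_sub_cancel' hle] at h2
    obtain ⟨a, ha⟩ := SmoothAlg.form_exists hhom
    refine ⟨a, ?_⟩
    rw [ha, map_mul, map_mul, map_pow, dehom_X_self, one_pow, mul_one, dehom_C, map_prod,
      monomial_eq, Finsupp.prod_fintype _ _ (fun l => pow_zero _)]
    congr 1
    refine Finset.prod_congr rfl fun l _ => ?_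
    rw [map_pow, dehom_X]
  rw [as_sum f]
  refine Finset.sum_induction _ (fun g => ∃ a : Mono n d → R, dehom i (form a) = g) ?_ ?_ key
  · rintro g h ⟨a, rfl⟩ ⟨b, rfl⟩
    exact ⟨a + b, by rw [SmoothAlg.form_add, map_add]⟩
  · exact ⟨0, by simp [form]⟩

theorem totalDegree_dehom_form {R : Type} [CommRing R] {n d : ℕ} (i : Fin (n + 1))
    (a : Mono n d → R) : (dehom i (form a)).totalDegree ≤ d := by
  classical
  unfold form
  rw [map_sum]
  refine totalDegree_finsetSum_le fun μ _ => ?_
  rw [map_mul, dehom_C, map_prod]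
  refine (totalDegree_mul _ _).trans ?_
  rw [totalDegree_C, zero_add]
  refine (totalDegree_finsetProd _ _).trans ?_
  calc ∑ l, (dehom i (X l ^ (μ.1 l : ℕ)) : MvPolynomial {l : Fin (n + 1) // l ≠ i} R).totalDegree
      ≤ ∑ l, (μ.1 l : ℕ) := by
        refine Finset.sum_le_sum fun l _ => ?_
        rw [map_pow]
        refine (totalDegree_pow _ _).trans ?_
        have h1 : (dehom i (X l : MvPolynomial (Fin (n + 1)) R)).totalDegree ≤ 1 := by
          rw [dehom, aeval_X]
          split_ifs with h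
          · rw [totalDegree_one]
            exact Nat.zero_le _
          · by_cases hR : Nontrivial R
            · rw [totalDegree_X]
            · rw [not_nontrivial_iff_subsingleton] at hR
              have : (X ⟨l, h⟩ : MvPolynomial {l : Fin (n + 1) // l ≠ i} R) = 0 :=
                Subsingleton.elim _ _
              rw [this]
              simp
        calc (μ.1 l : ℕ) * (dehom i (X l : MvPolynomial (Fin (n + 1)) R)).totalDegree
            ≤ (μ.1 l : ℕ) * 1 := Nat.mul_le_mul_left _ h1
          _ = _ := mul_one _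
    _ = d := μ.2

/-- A unit of a finite ring in a subring has its inverse in the subring. -/
theorem s2_inv_mem {A : Type} [CommRing A] [Finite A] (S : Subring A) (u : Aˣ) (hu : (u : A) ∈ S) :
    ((u⁻¹ : Aˣ) : A) ∈ S := by
  obtain ⟨m, hm, hpow⟩ := isOfFinOrder_iff_pow_eq_one.mp (isOfFinOrder_of_finite u)
  have h1 : u⁻¹ = u ^ (m - 1) := by
    rw [inv_eq_iff_mul_eq_one, ← pow_succ']
    rw [Nat.sub_add_cancel hm]
    exact hpow
  rw [h1, Units.val_pow_eq_pow_val]
  exact S.pow_mem hu _

theorem s2_map_dehom {R R' : Type} [CommRing R] [CommRing R'] (φ : R →+* R') {n : ℕ}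
    (i : Fin (n + 1)) (g : MvPolynomial (Fin (n + 1)) R) :
    MvPolynomial.map φ (dehom i g) = dehom i (MvPolynomial.map φ g) := by
  induction g using MvPolynomial.induction_on with
  | C c => rw [map_C, dehom_C, dehom_C, map_C]
  | add p q hp hq => rw [map_add, map_add, map_add, map_add, hp, hq]
  | mul_X p l hp =>
    rw [map_mul, map_mul, map_mul, map_mul, hp, map_X]
    congr 1
    by_cases hl : l = i
    · subst hl
      rw [dehom_X_self, dehom_X_self, map_one]
    · rw [dehom_X i ⟨l, hl⟩, dehom_X i ⟨l, hl⟩, map_X]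

/-- The polynomials over a ring surject onto the finite quotients of the polynomials over a
localization. -/
theorem s2_surj {R R' A : Type} [CommRing R] [CommRing R'] [Algebra R R'] (M : Submonoid R)
    [IsLocalization M R'] [CommRing A] [Finite A] {σ : Type} (g : MvPolynomial σ R' →+* A)
    (hg : Function.Surjective g) :
    Function.Surjective (g.comp (MvPolynomial.map (algebraMap R R'))) := by
  have hC : ∀ x : R', g (C x) ∈ (g.comp (MvPolynomial.map (algebraMap R R'))).range := by
    intro x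
    obtain ⟨r, t, rfl⟩ := IsLocalization.exists_mk'_eq M x
    have hu : IsUnit (algebraMap R R' t) := IsLocalization.map_units _ t
    obtain ⟨v, hv⟩ := (hu.map (C : R' →+* MvPolynomial σ R')).map g
    have h1 : ((v⁻¹ : Aˣ) : A) ∈ (g.comp (MvPolynomial.map (algebraMap R R'))).range := by
      refine s2_inv_mem _ v ?_
      rw [hv]
      exact ⟨C (t : R), by simp⟩
    have h2 : g (C (IsLocalization.mk' R' r t)) =
        g (C (algebraMap R R' r)) * ((v⁻¹ : Aˣ) : A) := by
      rw [Units.eq_mul_inv_iff_mul_eq, hv, ← map_mul, ← map_mul, IsLocalization.mk'_spec]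
    rw [h2]
    exact Subring.mul_mem _ ⟨C r, by simp⟩ h1
  intro z
  obtain ⟨f, rfl⟩ := hg z
  show g f ∈ (g.comp (MvPolynomial.map (algebraMap R R'))).range
  induction f using MvPolynomial.induction_on with
  | C a => exact hC a
  | add p q hp hq =>
    rw [map_add]
    exact Subring.add_mem _ hp hq
  | mul_X p l hp =>
    rw [map_mul]
    exact Subring.mul_mem _ hp ⟨X l, by simp⟩

theorem s2_form_surj {B R' : Type} [CommRing B] [CommRing R'] [Algebra B R'] (M : Submonoid B)
    [IsLocalization M R'] {s : ℕ} (b : Module.Basis (Fin s) ℤ B) {n d : ℕ} (i : Fin (n + 1))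
    (P : Ideal B) (hP : P.IsMaximal) (hPfin : Finite (B ⧸ P)) {k ℓ : ℕ}
    (J : Ideal (MvPolynomial {l : Fin (n + 1) // l ≠ i} R'))
    (hJ : Finite (MvPolynomial {l : Fin (n + 1) // l ≠ i} R' ⧸ J))
    (hk0 : ∀ x ∈ P ^ k, C (algebraMap B R' x) ∈ J)
    (hℓ : Nat.card (MvPolynomial {l : Fin (n + 1) // l ≠ i} R' ⧸ J) ≤ Nat.card (B ⧸ P) ^ ℓ)
    (hd : ℓ ≤ d + 1) :
    Function.Surjective fun u : Mono n d × Fin s → ℤ =>
      Ideal.Quotient.mk J (dehom i (form fun μ => algebraMap B R' (coeffs b u μ))) := by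
  intro z
  have hψ := s2_surj M (Ideal.Quotient.mk J) Ideal.Quotient.mk_surjective
  obtain ⟨f, hf, hz⟩ := deg_surj P hP hPfin _ hψ (k := k)
    (fun x hx => by
      rw [RingHom.comp_apply, map_C]
      exact Ideal.Quotient.eq_zero_iff_mem.mpr (hk0 x hx)) hℓ hd z
  obtain ⟨a, ha⟩ := exists_form_dehom i f hf
  refine ⟨fun p => b.repr (a p.1) p.2, ?_⟩
  have h1 : (fun μ => algebraMap B R'
      (coeffs b (fun p : Mono n d × Fin s => b.repr (a p.1) p.2) μ)) =
      fun μ => algebraMap B R' (a μ) := by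
    funext μ
    exact congrArg _ (b.sum_repr (a μ))
  show Ideal.Quotient.mk J (dehom i (form fun μ => algebraMap B R'
      (coeffs b (fun p : Mono n d × Fin s => b.repr (a p.1) p.2) μ))) = z
  rw [h1, ← SmoothAlg.form_map, ← s2_map_dehom, ha, ← hz, RingHom.comp_apply]

theorem s2_map_pow_le {R S : Type} [CommRing R] [CommRing S] (f : R →+* S) (P : Ideal R)
    (Q : Ideal S) (h : ∀ x ∈ P, f x ∈ Q) (k : ℕ) : ∀ x ∈ P ^ k, f x ∈ Q ^ k := by
  intro x hx
  have h1 : Ideal.map f P ≤ Q := Ideal.map_le_iff_le_comap.mpr h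
  have h3 := Ideal.mem_map_of_mem f hx
  rw [Ideal.map_pow] at h3
  exact Ideal.pow_right_mono h1 k h3

/-- Uses `deg_surj`. Forms with coefficients in the ring of integers surject onto the
quotients of small length of the local rings of the closed points of the affine space over `P`. -/
theorem form_surj {E : Type} [Field E] [NumberField E] {s : ℕ} (b : Module.Basis (Fin s) ℤ (𝓞 E))
    {n d : ℕ} (i : Fin (n + 1)) (P : HeightOneSpectrum (𝓞 E)) {ϖ : locRing E P}
    (hϖ : Irreducible ϖ) {k ℓ : ℕ} (hk : 1 ≤ k)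
    (𝔮 : Ideal (MvPolynomial {l : Fin (n + 1) // l ≠ i} (locRing E P)))
    (hmax : 𝔮.IsMaximal) (h𝔮 : C ϖ ∈ 𝔮)
    (hfin : Finite (MvPolynomial {l : Fin (n + 1) // l ≠ i} (locRing E P) ⧸ 𝔮 ^ k))
    (hℓ : Nat.card (MvPolynomial {l : Fin (n + 1) // l ≠ i} (locRing E P) ⧸ 𝔮 ^ k) ≤
      Nat.card (𝓞 E ⧸ P.asIdeal) ^ ℓ) (hd : ℓ ≤ d + 1) :
    Function.Surjective fun u : Mono n d × Fin s → ℤ => Ideal.Quotient.mk (𝔮 ^ k)
      (dehom i (form fun μ => algebraMap (𝓞 E) (locRing E P) (coeffs b u μ))) := by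
  have h2 : ∀ y ∈ P.asIdeal, C (algebraMap (𝓞 E) (locRing E P) y) ∈ 𝔮 := by
    intro y hy
    have h2 : algebraMap (𝓞 E) (locRing E P) y ∈ Ideal.span {ϖ} := by
      rw [span_uniformizer P hϖ]
      exact (IsLocalization.AtPrime.to_map_mem_maximal_iff (locRing E P) P.asIdeal y).mpr hy
    obtain ⟨c, hc⟩ := Ideal.mem_span_singleton'.mp h2
    rw [← hc, map_mul]
    exact Ideal.mul_mem_left _ _ h𝔮
  have h3 := s2_map_pow_le (C.comp (algebraMap (𝓞 E) (locRing E P))) P.asIdeal 𝔮 h2 k
  exact s2_form_surj P.asIdeal.primeCompl b i P.asIdeal P.isMaximal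
    (Ideal.finiteQuotientOfFreeOfNeBot _ P.ne_bot) (𝔮 ^ k) hfin h3 hℓ hd

end Pool.Agent.Lib.MP_6a3dac_ag.Maj
end
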