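import Mathlib
import Pool.Agent.Lib.MP_6a3dac_ag.Mg.G001
import Pool.Agent.Lib.MP_6a3dac_ag.Defs

section

/-!
# Descent of regularity along pure local homomorphisms with `m_O C = m_C`
-/

set_option autoImplicit false

namespace Pool.Agent.Lib.MP_6a3dac_ag

open IsLocalRing

theorem isNoetherianRing_of_comap_map {O C : Type*} [CommRing O] [CommRing C]
    [IsNoetherianRing C] (φ : O →+* C) (hφ : ∀ J : Ideal O, (J.map φ).comap φ = J) :
    IsNoetherianRing O := by
  rw [isNoetherianRing_iff, ← monotone_stabilizes_iff_noetherian]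
  intro F
  have hC : IsNoetherian C C := inferInstance
  rw [← monotone_stabilizes_iff_noetherian] at hC
  obtain ⟨n, hn⟩ := hC ⟨fun k => (Ideal.map φ (F k) : Ideal C),
    fun a b h => Ideal.map_mono (F.monotone h)⟩
  refine ⟨n, fun m hm => ?_⟩
  have : Ideal.map φ (F n) = Ideal.map φ (F m) := hn m hm
  rw [← hφ (F n), ← hφ (F m), this]

theorem isRegularLocalRing_of_comap_map {O C : Type*} [CommRing O] [CommRing C]
    [IsLocalRing O] [IsLocalRing C] (φ : O →+* C)
    (hφ : ∀ J : Ideal O, (J.map φ).comap φ = J)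
    (hm : (maximalIdeal O).map φ = maximalIdeal C)
    (hC : IsRegularLocalRing C) : IsRegularLocalRing O := by
  classical
  have hNoeth := isNoetherianRing_of_comap_map φ hφ
  have hregC := (isRegularLocalRing_iff C).mp hC
  -- dimension
  have hdim : ringKrullDim C ≤ ringKrullDim O := by
    obtain ⟨s, hs1, hs2⟩ := (maximalIdeal O).exists_finset_card_eq_height_of_isNoetherianRing
    rw [← maximalIdeal_height_eq_ringKrullDim, ← maximalIdeal_height_eq_ringKrullDim, ← hs2]
    have hmin : maximalIdeal C ∈ (Ideal.span ((s.image φ : Finset C) : Set C)).minimalPrimes := by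
      refine ⟨⟨inferInstance, ?_⟩, ?_⟩
      · rw [Finset.coe_image, ← Ideal.map_span, ← hm]
        exact Ideal.map_mono hs1.1.2
      · rintro Q ⟨hQ, hQs⟩ hQle
        rw [Finset.coe_image, ← Ideal.map_span, Ideal.map_le_iff_le_comap] at hQs
        have hQp : (Q.comap φ).IsPrime := Ideal.IsPrime.comap φ
        have h1 := hs1.2 ⟨hQp, hQs⟩ (IsLocalRing.le_maximalIdeal hQp.ne_top)
        rw [← hm, Ideal.map_le_iff_le_comap]
        exact h1
    have h2 := Ideal.height_le_card_of_mem_minimalPrimes_span_finset hmin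
    have h3 : (maximalIdeal C).height ≤ (s.card : ℕ∞) :=
      h2.trans (by exact_mod_cast Finset.card_image_le)
    exact_mod_cast h3
  -- generators
  apply IsRegularLocalRing.of_spanFinrank_maximalIdeal_le
  refine le_trans ?_ hdim
  rw [← hregC]
  norm_cast
  have himg : ∀ a : maximalIdeal O, φ a ∈ maximalIdeal C := fun a => by
    rw [← hm]; exact Ideal.mem_map_of_mem φ a.2
  let c : maximalIdeal O → maximalIdeal C := fun a => ⟨φ a, himg a⟩
  have hspan : Submodule.span C (Set.range c) = ⊤ := by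
    apply Submodule.map_injective_of_injective
      (Submodule.injective_subtype (maximalIdeal C))
    rw [Submodule.map_span, Submodule.map_top, Submodule.range_subtype, ← Set.range_comp]
    conv_rhs => rw [← hm]
    rw [Ideal.map]
    congr 1
    ext z
    constructor
    · rintro ⟨a, rfl⟩; exact ⟨a, a.2, rfl⟩
    · rintro ⟨a, ha, rfl⟩; exact ⟨⟨a, ha⟩, rfl⟩
  rw [← CotangentSpace.span_image_eq_top_iff, ← Set.range_comp] at hspan
  obtain ⟨κ, a, -, ha2, ha3⟩ := exists_linearIndependent' (ResidueField C)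
    ((maximalIdeal C).toCotangent ∘ c)
  rw [hspan] at ha2
  have hfin : Finite κ := LinearIndependent.finite_of_isNoetherian ha3
  have hcard : Nat.card κ ≤ (maximalIdeal C).spanFinrank := by
    rw [spanFinrank_maximalIdeal_eq_finrank_cotangentSpace]
    have := Fintype.ofFinite κ
    rw [Nat.card_eq_fintype_card]
    exact ha3.fintype_card_le_finrank
  have hgen : Submodule.span C (Set.range (c ∘ a)) = ⊤ := by
    rw [← CotangentSpace.span_image_eq_top_iff, ← Set.range_comp]
    exact ha2
  have hgen2 : (Ideal.span (Set.range fun k => (a k : O))).map φ = maximalIdeal C := by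
    have h4 := congrArg (Submodule.map (Submodule.subtype (maximalIdeal C))) hgen
    rw [Submodule.map_span, Submodule.map_top, Submodule.range_subtype, ← Set.range_comp] at h4
    rw [Ideal.map_span, ← Set.range_comp]
    exact h4
  have hgen3 : Ideal.span (Set.range fun k => (a k : O)) = maximalIdeal O := by
    rw [← hφ (Ideal.span _), hgen2, ← hm, hφ]
  rw [← hgen3]
  refine (Submodule.spanFinrank_span_le_ncard_of_finite (Set.finite_range _)).trans ?_
  refine le_trans ?_ hcard
  rw [← Set.image_univ, ← Set.ncard_univ]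
  exact Set.ncard_image_le Set.finite_univ

end Pool.Agent.Lib.MP_6a3dac_ag
end

section

/-!
# Regularity of rings of invariants of involutions
-/

set_option autoImplicit false

namespace Pool.Agent.Lib.MP_6a3dac_ag

open IsLocalRing

section Fixed

variable {D : Type} [CommRing D] [IsDomain D] [IsLocalRing D] (τ : D →+* D)

/-- The subring of the elements fixed by `τ`. -/
def fixedRing : Subring D where
  carrier := {z | τ z = z}
  mul_mem' {a b} ha hb := by
    change τ (a * b) = a * b
    rw [map_mul, show τ a = a from ha, show τ b = b from hb]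
  one_mem' := map_one τ
  add_mem' {a b} ha hb := by
    change τ (a + b) = a + b
    rw [map_add, show τ a = a from ha, show τ b = b from hb]
  zero_mem' := map_zero τ
  neg_mem' {a} ha := by
    change τ (-a) = -a
    rw [map_neg, show τ a = a from ha]

omit [IsDomain D] [IsLocalRing D] in
theorem mem_fixedRing {z : D} : z ∈ fixedRing τ ↔ τ z = z := Iff.rfl

omit [IsDomain D] [IsLocalRing D] in
theorem dom_fixedRing : Dom (fixedRing τ) := by
  intro a ha b hab
  rw [mem_fixedRing] at ha ⊢
  have h1 : a * τ b = 1 := by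
    conv_lhs => rw [← ha]
    rw [← map_mul, hab, map_one]
  calc τ b = τ b * (a * b) := by rw [hab, mul_one]
    _ = (a * τ b) * b := by ring
    _ = b := by rw [h1, one_mul]

variable {τ}

/-- **Regularity of the ring of invariants.** -/
theorem isRegularLocalRing_fixedRing (hD : IsRegularLocalRing D) (hτ : ∀ z, τ (τ z) = z) {y : D}
    (hy : τ y - y ≠ 0) (hI : ∀ z, ∃ c, τ z - z = c * (τ y - y)) :
    IsRegularLocalRing (fixedRing τ) := by
  classical
  obtain ⟨h, hh⟩ : ∃ h, h = τ y - y := ⟨_, rfl⟩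
  rw [← hh] at hy hI
  have hτh : τ h = -h := by
    rw [hh, map_sub, hτ]; ring
  -- the coefficients are invariant
  have hcinv : ∀ z c, τ z - z = c * h → τ c = c := by
    intro z c hc
    have h1 := congrArg τ hc
    rw [map_sub, hτ, map_mul, hτh] at h1
    have h2 : (τ c - c) * h = 0 := by
      have : z - τ z = -(c * h) := by rw [← hc]; ring
      rw [this] at h1
      linear_combination h1
    rcases mul_eq_zero.mp h2 with h3 | h3
    · exact sub_eq_zero.mp h3
    · exact absurd h3 hy
  -- decomposition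
  have hdec : ∀ z, ∃ a b : fixedRing τ, z = a + b * y := by
    intro z
    obtain ⟨c, hc⟩ := hI z
    have hcτ := hcinv z c hc
    refine ⟨⟨z - c * y, ?_⟩, ⟨c, hcτ⟩, by simp⟩
    rw [mem_fixedRing, map_sub, map_mul, hcτ]
    rw [hh] at hc
    linear_combination hc
  have hloc : IsLocalRing (fixedRing τ) := (dom_fixedRing τ).isLocalRing
  have hmem : ∀ a : fixedRing τ, a ∈ maximalIdeal (fixedRing τ) ↔ (a : D) ∈ maximalIdeal D :=
    (dom_fixedRing τ).mem_maximalIdeal
  have hinvm : ∀ z : D, z ∈ maximalIdeal D → τ z ∈ maximalIdeal D := by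
    intro z hz
    rw [IsLocalRing.mem_maximalIdeal, mem_nonunits_iff] at hz ⊢
    intro hu
    apply hz
    have := hu.map τ
    rwa [hτ] at this
  -- uniqueness
  have huniq : ∀ a b : fixedRing τ, (a : D) + b * y = 0 → b = 0 := by
    intro a b hab
    have h1 := congrArg τ hab
    rw [map_add, map_mul, show τ (a : D) = a from a.2, show τ (b : D) = b from b.2,
      map_zero] at h1
    have h2 : (b : D) * h = 0 := by
      rw [hh]
      linear_combination h1 - hab
    exact Subtype.ext ((mul_eq_zero.mp h2).resolve_right hy)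
  -- purity
  let φ : fixedRing τ →+* D := (fixedRing τ).subtype
  have hpure : ∀ J : Ideal (fixedRing τ), (J.map φ).comap φ = J := by
    intro J
    apply le_antisymm _ Ideal.le_comap_map
    have key : ∀ x ∈ J.map φ, ∃ a ∈ J, ∃ b ∈ J, x = (a : D) + b * y := by
      intro x hx
      refine Submodule.span_induction (p := fun x _ => ∃ a ∈ J, ∃ b ∈ J, x = (a : D) + b * y)
        ?_ ?_ ?_ ?_ hx
      · rintro _ ⟨a, ha, rfl⟩
        exact ⟨a, ha, 0, J.zero_mem, by simp [φ]⟩
      · exact ⟨0, J.zero_mem, 0, J.zero_mem, by simp⟩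
      · rintro _ _ _ _ ⟨a, ha, b, hb, rfl⟩ ⟨a', ha', b', hb', rfl⟩
        exact ⟨a + a', J.add_mem ha ha', b + b', J.add_mem hb hb', by push_cast; ring⟩
      · rintro c _ _ ⟨a, ha, b, hb, rfl⟩
        obtain ⟨c₁, c₂, hc⟩ := hdec c
        obtain ⟨e₁, e₂, he⟩ := hdec (y * y)
        refine ⟨c₁ * a + c₂ * b * e₁, ?_, c₂ * a + c₁ * b + c₂ * b * e₂, ?_, ?_⟩
        · exact J.add_mem (J.mul_mem_left _ ha) (J.mul_mem_right _ (J.mul_mem_left _ hb))
        · exact J.add_mem (J.add_mem (J.mul_mem_left _ ha) (J.mul_mem_left _ hb))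
            (J.mul_mem_right _ (J.mul_mem_left _ hb))
        · rw [smul_eq_mul, hc]
          push_cast
          linear_combination ((c₂ : D) * b) * he
    intro x hx
    obtain ⟨a, ha, b, hb, hab⟩ := key _ hx
    have h1 : b = 0 := by
      apply huniq (a - x) b
      push_cast
      change (x : D) = a + b * y at hab
      rw [hab]; ring
    rw [h1] at hab
    have h2 : x = a := by
      apply Subtype.ext
      change (x : D) = a + ((0 : fixedRing τ) : D) * y at hab
      rw [hab]; simp
    rwa [h2]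
  have hNoeth : IsNoetherianRing (fixedRing τ) := isNoetherianRing_of_comap_map φ hpure
  by_cases hc : ∃ c : fixedRing τ, y - c ∈ maximalIdeal D
  · -- the ramified case
    obtain ⟨c, hc⟩ := hc
    obtain ⟨z, hz⟩ : ∃ z, z = y - c := ⟨_, rfl⟩
    rw [← hz] at hc
    have hzh : τ z - z = h := by
      rw [hz, hh, map_sub, show τ (c : D) = c from c.2]; ring
    have hdec' : ∀ x, ∃ a b : fixedRing τ, x = a + b * z := by
      intro x
      obtain ⟨a, b, hab⟩ := hdec x
      refine ⟨a + b * c, b, ?_⟩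
      rw [hab, hz]; push_cast; ring
    have hzsq : z ∉ maximalIdeal D ^ 2 := by
      intro hz2
      have key : ∀ x ∈ maximalIdeal D ^ 2, ∃ c ∈ maximalIdeal D, τ x - x = c * h := by
        intro x hx
        rw [pow_two] at hx
        induction hx using Submodule.mul_induction_on' with
        | mem_mul_mem a ha b hb =>
          obtain ⟨c₁, hc₁⟩ := hI a
          obtain ⟨c₂, hc₂⟩ := hI b
          refine ⟨τ a * c₂ + b * c₁, Ideal.add_mem _ (Ideal.mul_mem_right _ _ (hinvm a ha))
            (Ideal.mul_mem_right _ _ hb), ?_⟩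
          rw [map_mul]
          linear_combination (τ a) * hc₂ + b * hc₁
        | add a _ b _ ha hb =>
          obtain ⟨c₁, hc₁, h1⟩ := ha
          obtain ⟨c₂, hc₂, h2⟩ := hb
          refine ⟨c₁ + c₂, Ideal.add_mem _ hc₁ hc₂, ?_⟩
          rw [map_add]
          linear_combination h1 + h2
      obtain ⟨c', hc', h1⟩ := key z hz2
      rw [hzh] at h1
      have h2 : (1 - c') * h = 0 := by linear_combination h1
      rcases mul_eq_zero.mp h2 with h3 | h3
      · rw [sub_eq_zero] at h3
        rw [← h3] at hc'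
        exact (maximalIdeal.isMaximal D).ne_top ((Ideal.eq_top_iff_one _).mpr hc')
      · exact hy h3
    have hz0 : z ≠ 0 := by
      rintro h0
      exact hzsq (h0 ▸ Ideal.zero_mem _)
    have hτz0 : τ z ≠ 0 := by
      intro h0
      apply hz0
      rw [← hτ z, h0, map_zero]
    -- norm and trace
    let N : fixedRing τ := ⟨z * τ z, by rw [mem_fixedRing, map_mul, hτ, mul_comm]⟩
    let Tr : fixedRing τ := ⟨z + τ z, by rw [mem_fixedRing, map_add, hτ, add_comm]⟩
    have hN0 : N ≠ 0 := fun h0 => mul_ne_zero hz0 hτz0 (congrArg Subtype.val h0)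
    have hNm : N ∈ maximalIdeal (fixedRing τ) := by
      rw [hmem]
      exact Ideal.mul_mem_right _ _ hc
    have hregq := isRegularLocalRing_quotient hD hc hzsq
    -- comparison of the quotients
    let ψ : fixedRing τ →+* D ⧸ Ideal.span {z} := (Ideal.Quotient.mk _).comp φ
    have hψs : Function.Surjective ψ := by
      intro x
      obtain ⟨x, rfl⟩ := Ideal.Quotient.mk_surjective x
      obtain ⟨a, b, hab⟩ := hdec' x
      refine ⟨a, ?_⟩
      change Ideal.Quotient.mk _ (a : D) = _
      rw [← sub_eq_zero, ← map_sub, Ideal.Quotient.eq_zero_iff_mem, hab]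
      rw [Ideal.mem_span_singleton']
      exact ⟨-b, by ring⟩
    have hψk : RingHom.ker ψ = Ideal.span {N} := by
      apply le_antisymm
      · intro x hx
        rw [RingHom.mem_ker] at hx
        change Ideal.Quotient.mk _ (x : D) = 0 at hx
        rw [Ideal.Quotient.eq_zero_iff_mem, Ideal.mem_span_singleton'] at hx
        obtain ⟨q, hq⟩ := hx
        obtain ⟨a, b, hab⟩ := hdec' q
        rw [Ideal.mem_span_singleton']
        refine ⟨-b, ?_⟩
        have h1 : (x : D) = (-b * N : fixedRing τ) + (a + b * Tr : fixedRing τ) * z := by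
          rw [← hq, hab]
          push_cast
          simp only [N, Tr]
          ring
        have h2 : (a + b * Tr : fixedRing τ) = 0 := by
          apply huniq ((-b * N - x) - (a + b * Tr) * c) (a + b * Tr)
          push_cast
          rw [h1, hz]
          push_cast
          ring
        rw [h2] at h1
        apply Subtype.ext
        rw [h1]
        simp
      · rw [Ideal.span_le, Set.singleton_subset_iff]
        change ψ N = 0
        change Ideal.Quotient.mk _ (z * τ z) = 0
        rw [Ideal.Quotient.eq_zero_iff_mem]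
        exact Ideal.mul_mem_right _ _ (Ideal.mem_span_singleton_self z)
    apply isRegularLocalRing_of_quotient hNm (mem_nonZeroDivisors_of_ne_zero hN0)
    exact IsRegularLocalRing.of_ringEquiv ((Ideal.quotEquivOfEq hψk.symm).trans
      (RingHom.quotientKerEquivOfSurjective hψs)).symm
  · -- the case where the maximal ideals generate each other
    push Not at hc
    apply isRegularLocalRing_of_comap_map φ hpure _ hD
    apply le_antisymm
    · rw [Ideal.map_le_iff_le_comap]
      intro a ha
      exact (hmem a).mp ha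
    · intro x hx
      obtain ⟨a, b, hab⟩ := hdec x
      have hb : b ∈ maximalIdeal (fixedRing τ) := by
        by_contra hb
        rw [IsLocalRing.mem_maximalIdeal, mem_nonunits_iff, not_not] at hb
        obtain ⟨b', hb'⟩ := hb.exists_right_inv
        have h1 : (b : D) * b' = 1 := congrArg Subtype.val hb'
        apply hc (-(a * b'))
        have h2 : y - ((-(a * b') : fixedRing τ) : D) = b' * x := by
          rw [hab]
          push_cast
          linear_combination (-y) * h1
        rw [h2]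
        exact Ideal.mul_mem_left _ _ hx
      have ha : a ∈ maximalIdeal (fixedRing τ) := by
        rw [hmem]
        have h1 : (a : D) = x - b * y := by rw [hab]; ring
        rw [h1]
        exact Ideal.sub_mem _ hx (Ideal.mul_mem_right _ _ ((hmem b).mp hb))
      rw [hab]
      exact Ideal.add_mem _ (Ideal.mem_map_of_mem φ ha)
        (Ideal.mul_mem_right _ _ (Ideal.mem_map_of_mem φ hb))

end Fixed

end Pool.Agent.Lib.MP_6a3dac_ag
end

section

/-!
# The grading on a homogeneous subalgebra over a smaller base ring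
-/

set_option autoImplicit false

namespace Pool.Agent.Lib.MP_6a3dac_ag

variable {R K A : Type} [CommRing R] [CommRing K] [CommRing A] [Algebra R K] [Algebra K A]
  [Algebra R A] [IsScalarTower R K A]
  (𝒜 : ℕ → Submodule K A) [GradedAlgebra 𝒜] (S : Subalgebra R A)

/-- The degree-`i` part of a subalgebra. -/
def subGr (i : ℕ) : Submodule R S :=
  ((𝒜 i).restrictScalars R).comap S.val.toLinearMap

omit [GradedAlgebra 𝒜] in
theorem mem_subGr {i : ℕ} {s : S} : s ∈ subGr 𝒜 S i ↔ (s : A) ∈ 𝒜 i := Iff.rfl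

/-- A subalgebra is homogeneous if it contains the homogeneous components of its elements. -/
def IsHomog : Prop := ∀ s ∈ S, ∀ i, (DirectSum.decompose 𝒜 s i : A) ∈ S

variable {S}

instance subGr_gradedMonoid : SetLike.GradedMonoid (subGr 𝒜 S) where
  one_mem := by
    rw [mem_subGr]
    exact SetLike.GradedOne.one_mem
  mul_mem i j a b ha hb := by
    rw [mem_subGr] at *
    exact SetLike.mul_mem_graded ha hb

theorem decompose_coe_subGr (x : DirectSum ℕ fun i => subGr 𝒜 S i) (j : ℕ) :
    (DirectSum.decompose 𝒜 ((DirectSum.coeAddMonoidHom (subGr 𝒜 S) x : S) : A) j : A) =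
      ((x j : S) : A) := by
  induction x using DirectSum.induction_on with
  | zero => simp
  | of i s =>
    rw [DirectSum.coeAddMonoidHom_of]
    have hs : ((s : S) : A) ∈ 𝒜 i := s.2
    by_cases h : i = j
    · subst h
      rw [DirectSum.decompose_of_mem_same 𝒜 hs, DirectSum.of_eq_same]
    · rw [DirectSum.decompose_of_mem_ne 𝒜 hs h, DirectSum.of_eq_of_ne _ _ _ (Ne.symm h)]
      simp
  | add x y hx hy =>
    rw [map_add, Subalgebra.coe_add, DirectSum.decompose_add, DirectSum.add_apply,
      DirectSum.add_apply, Submodule.coe_add, Submodule.coe_add, Subalgebra.coe_add, hx, hy]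

theorem isInternal_subGr (hS : IsHomog 𝒜 S) : DirectSum.IsInternal (subGr 𝒜 S) := by
  classical
  constructor
  · intro x y hxy
    ext j
    have h1 := decompose_coe_subGr 𝒜 x j
    have h2 := decompose_coe_subGr 𝒜 y j
    rw [← h1, ← h2]
    change DirectSum.coeAddMonoidHom (subGr 𝒜 S) x = DirectSum.coeAddMonoidHom (subGr 𝒜 S) y at hxy
    rw [hxy]
  · intro s
    refine ⟨∑ i ∈ (DirectSum.decompose 𝒜 (s : A)).support, DirectSum.of (fun i => subGr 𝒜 S i) i
      ⟨⟨DirectSum.decompose 𝒜 (s : A) i, hS s s.2 i⟩, (DirectSum.decompose 𝒜 (s : A) i).2⟩, ?_⟩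
    rw [map_sum]
    ext
    simp only [DirectSum.coeAddMonoidHom_of, AddSubmonoidClass.coe_finsetSum]
    exact DirectSum.sum_support_decompose 𝒜 (s : A)

/-- The grading of a homogeneous subalgebra. -/
@[reducible]
noncomputable def subGradedAlgebra (hS : IsHomog 𝒜 S) : GradedAlgebra (subGr 𝒜 S) :=
  { (isInternal_subGr 𝒜 hS).chooseDecomposition, subGr_gradedMonoid 𝒜 with }

/-- The inclusion as a graded ring homomorphism. -/
def subGrHom : subGr 𝒜 S →+*ᵍ 𝒜 where
  __ := (S.val : S →+* A)
  map_mem h := h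

theorem coe_decompose_subGr (hS : IsHomog 𝒜 S) (s : S) (i : ℕ) :
    letI := subGradedAlgebra 𝒜 hS
    ((DirectSum.decompose (subGr 𝒜 S) s i : S) : A) = DirectSum.decompose 𝒜 (s : A) i := by
  letI := subGradedAlgebra 𝒜 hS
  rw [← decompose_coe_subGr 𝒜 (DirectSum.decompose (subGr 𝒜 S) s) i]
  congr 4
  exact ((DirectSum.decompose (subGr 𝒜 S)).symm_apply_apply s).symm ▸ rfl

/-- A subalgebra generated by homogeneous elements is homogeneous. -/
theorem isHomog_adjoin {Λ : Set A} (hΛ : ∀ x ∈ Λ, ∃ i, x ∈ 𝒜 i) :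
    IsHomog 𝒜 (Algebra.adjoin R Λ) := by
  classical
  intro s hs
  induction hs using Algebra.adjoin_induction with
  | mem x hx =>
    intro i
    obtain ⟨j, hj⟩ := hΛ x hx
    by_cases h : j = i
    · subst h
      rw [DirectSum.decompose_of_mem_same 𝒜 hj]
      exact Algebra.subset_adjoin hx
    · rw [DirectSum.decompose_of_mem_ne 𝒜 hj h]
      exact Subalgebra.zero_mem _
  | algebraMap r =>
    intro i
    have h0 : algebraMap R A r ∈ 𝒜 0 := by
      rw [IsScalarTower.algebraMap_apply R K A]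
      exact SetLike.algebraMap_mem_graded 𝒜 _
    by_cases h : 0 = i
    · subst h
      rw [DirectSum.decompose_of_mem_same 𝒜 h0]
      exact Subalgebra.algebraMap_mem _ _
    · rw [DirectSum.decompose_of_mem_ne 𝒜 h0 h]
      exact Subalgebra.zero_mem _
  | add x y _ _ hx hy =>
    intro i
    rw [DirectSum.decompose_add, DirectSum.add_apply, Submodule.coe_add]
    exact Subalgebra.add_mem _ (hx i) (hy i)
  | mul x y _ _ hx hy =>
    intro i
    rw [← DirectSum.sum_support_decompose 𝒜 x, Finset.sum_mul, DirectSum.decompose_sum,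
      DFinsupp.finsetSum_apply, AddSubmonoidClass.coe_finsetSum]
    refine Subalgebra.sum_mem _ fun j _ => ?_
    rw [DirectSum.coe_decompose_mul_of_left_mem 𝒜 _ (DirectSum.decompose 𝒜 x j).2]
    split_ifs
    · exact Subalgebra.mul_mem _ (hx j) (hy _)
    · exact Subalgebra.zero_mem _

/-- The degree zero part of a subalgebra generated by elements of positive degree. -/
theorem adjoin_degree_zero {Λ : Set A} (hΛ : ∀ x ∈ Λ, ∃ i, 0 < i ∧ x ∈ 𝒜 i) {s : A}
    (hs : s ∈ Algebra.adjoin R Λ) (h0 : s ∈ 𝒜 0) : ∃ r : R, algebraMap R A r = s := by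
  have key : ∀ t ∈ Algebra.adjoin R Λ, ∃ r : R,
      algebraMap R A r = GradedRing.projZeroRingHom 𝒜 t := by
    intro t ht
    induction ht using Algebra.adjoin_induction with
    | mem x hx =>
      obtain ⟨i, hi, hxi⟩ := hΛ x hx
      refine ⟨0, ?_⟩
      rw [map_zero, GradedRing.projZeroRingHom_apply, DirectSum.decompose_of_mem_ne 𝒜 hxi hi.ne']
    | algebraMap r =>
      refine ⟨r, ?_⟩
      rw [GradedRing.projZeroRingHom_apply, DirectSum.decompose_of_mem_same 𝒜]
      rw [IsScalarTower.algebraMap_apply R K A]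
      exact SetLike.algebraMap_mem_graded 𝒜 _
    | add x y _ _ hx hy =>
      obtain ⟨a, ha⟩ := hx
      obtain ⟨b, hb⟩ := hy
      exact ⟨a + b, by rw [map_add, map_add, ha, hb]⟩
    | mul x y _ _ hx hy =>
      obtain ⟨a, ha⟩ := hx
      obtain ⟨b, hb⟩ := hy
      exact ⟨a * b, by rw [map_mul, map_mul, ha, hb]⟩
  obtain ⟨r, hr⟩ := key s hs
  refine ⟨r, ?_⟩
  rw [hr, GradedRing.projZeroRingHom_apply, DirectSum.decompose_of_mem_same 𝒜 h0]

end Pool.Agent.Lib.MP_6a3dac_ag
end

section

/-!
# Gluing local graded orders to a global graded order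
-/

set_option autoImplicit false

namespace Pool.Agent.Lib.MP_6a3dac_ag

open IsDedekindDomain

section LG

variable {R : Type*} [CommRing R] [IsDedekindDomain R] {W : Type*} [AddCommGroup W] [Module R W]

theorem exists_pow_smul_mem (N : Submodule R W) (q : HeightOneSpectrum R)
    (h1 : ∀ r, r ∉ q.asIdeal → ∀ w, r • w ∈ N → w ∈ N) {w : W}
    (h3 : ∃ r : R, r ≠ 0 ∧ r • w ∈ N) :
    ∃ v : ℕ, ∀ a ∈ q.asIdeal ^ v, a • w ∈ N := by
  obtain ⟨r, hr, hrw⟩ := h3
  have hne : Ideal.span {r} ≠ 0 := by simpa using hr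
  have hfin : FiniteMultiplicity q.asIdeal (Ideal.span {r}) :=
    FiniteMultiplicity.of_prime_left q.prime hne
  obtain ⟨c, hc, hqc⟩ := hfin.exists_eq_pow_mul_and_not_dvd
  rw [Ideal.dvd_iff_le] at hqc
  obtain ⟨b, hbc, hbq⟩ := SetLike.not_le_iff_exists.mp hqc
  refine ⟨multiplicity q.asIdeal (Ideal.span {r}), fun a ha => h1 b hbq _ ?_⟩
  have hab : a * b ∈ Ideal.span {r} := by
    rw [hc]; exact Ideal.mul_mem_mul ha hbc
  obtain ⟨t, ht⟩ := Ideal.mem_span_singleton'.mp hab
  rw [smul_smul, mul_comm b a, ← ht, mul_smul]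
  exact N.smul_mem _ hrw

/-- Local-global principle for intersections of local submodules. -/
theorem exists_smul_mem_iInf (N : HeightOneSpectrum R → Submodule R W)
    (h1 : ∀ q : HeightOneSpectrum R, ∀ r, r ∉ q.asIdeal → ∀ w, r • w ∈ N q → w ∈ N q) {w : W}
    (h2 : {q | w ∉ N q}.Finite) (h3 : ∀ q, ∃ r : R, r ≠ 0 ∧ r • w ∈ N q)
    (p : HeightOneSpectrum R) (hw : w ∈ N p) : ∃ r, r ∉ p.asIdeal ∧ r • w ∈ ⨅ q, N q := by
  classical
  have key : ∀ q : HeightOneSpectrum R, w ∉ N q → ∃ r, r ∉ p.asIdeal ∧ r • w ∈ N q := by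
    intro q hq
    obtain ⟨v, hv⟩ := exists_pow_smul_mem (N q) q (h1 q) (h3 q)
    have hpq : ¬ q.asIdeal ^ v ≤ p.asIdeal := by
      intro hle
      have hle' : q.asIdeal ≤ p.asIdeal := by
        rcases Nat.eq_zero_or_pos v with rfl | hv0
        · rw [pow_zero, Ideal.one_eq_top, top_le_iff] at hle
          exact absurd hle p.isPrime.ne_top
        · exact p.isPrime.le_of_pow_le hle
      have : q = p := by
        ext1
        exact q.isMaximal.eq_of_le p.isPrime.ne_top hle'
      subst this
      exact hq hw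
    obtain ⟨a, ha, hap⟩ := SetLike.not_le_iff_exists.mp hpq
    exact ⟨a, hap, hv a ha⟩
  choose! f hf using key
  refine ⟨∏ q ∈ h2.toFinset, f q, ?_, ?_⟩
  · intro hmem
    rw [p.isPrime.prod_mem_iff] at hmem
    obtain ⟨q, hq, hqp⟩ := hmem
    exact (hf q (by simpa using hq)).1 hqp
  · rw [Submodule.mem_iInf]
    intro q
    by_cases hq : w ∈ N q
    · exact (N q).smul_mem _ hq
    · have hq' : q ∈ h2.toFinset := by simpa using hq
      rw [← Finset.mul_prod_erase _ _ hq', mul_comm, mul_smul]
      exact (N q).smul_mem _ (hf q hq).2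

theorem finite_mem_prime {r : R} (hr : r ≠ 0) :
    {q : HeightOneSpectrum R | r ∈ q.asIdeal}.Finite := by
  have hne : Ideal.span {r} ≠ 0 := by simpa using hr
  refine (Ideal.finite_factors hne).subset ?_
  intro q hq
  change q.asIdeal ∣ Ideal.span {r}
  rw [Ideal.dvd_span_singleton]
  exact hq

end LG

section LocSub

variable {R A : Type*} [CommRing R] [CommRing A] [Algebra R A]

/-- The elements of `A` which lie in the subalgebra `S` after multiplication with an element of
`R` outside the prime ideal `p`. -/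
def locSub (p : Ideal R) [p.IsPrime] (S : Subalgebra R A) : Subalgebra R A where
  carrier := {a | ∃ r, r ∉ p ∧ r • a ∈ S}
  mul_mem' := by
    rintro a b ⟨r, hr, ha⟩ ⟨s, hs, hb⟩
    refine ⟨r * s, fun h => ?_, ?_⟩
    · exact (Ideal.IsPrime.mem_or_mem ‹_› h).elim hr hs
    · rw [← smul_mul_smul_comm]
      exact S.mul_mem ha hb
  add_mem' := by
    rintro a b ⟨r, hr, ha⟩ ⟨s, hs, hb⟩
    refine ⟨r * s, fun h => ?_, ?_⟩
    · exact (Ideal.IsPrime.mem_or_mem ‹_› h).elim hr hs
    · rw [smul_add, mul_smul r s b, mul_comm r s, mul_smul s r a]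
      exact S.add_mem (S.smul_mem ha s) (S.smul_mem hb r)
  algebraMap_mem' r := ⟨1, fun h => Ideal.IsPrime.ne_top ‹_› ((Ideal.eq_top_iff_one p).mpr h), by
    rw [one_smul]; exact S.algebraMap_mem r⟩

variable (p : Ideal R) [p.IsPrime] (S : Subalgebra R A)

theorem mem_locSub {a : A} : a ∈ locSub p S ↔ ∃ r, r ∉ p ∧ r • a ∈ S := Iff.rfl

theorem le_locSub : S ≤ locSub p S := fun a ha =>
  ⟨1, fun h => Ideal.IsPrime.ne_top ‹_› ((Ideal.eq_top_iff_one p).mpr h), by rwa [one_smul]⟩

theorem mem_locSub_of_smul {r : R} (hr : r ∉ p) {a : A} (ha : r • a ∈ locSub p S) :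
    a ∈ locSub p S := by
  obtain ⟨s, hs, ha⟩ := ha
  refine ⟨s * r, fun h => ?_, ?_⟩
  · exact (Ideal.IsPrime.mem_or_mem ‹_› h).elim hs hr
  · rwa [mul_smul]

theorem locSub_mono {S S' : Subalgebra R A} (h : S ≤ S') : locSub p S ≤ locSub p S' :=
  fun _ ⟨r, hr, ha⟩ => ⟨r, hr, h ha⟩

theorem locSub_le_of_le {S S' : Subalgebra R A} (h : S ≤ locSub p S') :
    locSub p S ≤ locSub p S' :=
  fun _ ⟨_, hr, ha⟩ => mem_locSub_of_smul p S' hr (h ha)

theorem isHomog_locSub {K : Type} {R A : Type} [CommRing R] [CommRing A] [Algebra R A]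
    [CommRing K] [Algebra K A] [Algebra R K] [IsScalarTower R K A]
    (𝒜 : ℕ → Submodule K A) [GradedAlgebra 𝒜] (p : Ideal R) [p.IsPrime] {S : Subalgebra R A}
    (hS : IsHomog 𝒜 S) : IsHomog 𝒜 (locSub p S) := by
  rintro a ⟨r, hr, ha⟩ i
  refine ⟨r, hr, ?_⟩
  have := hS _ ha i
  rw [← IsScalarTower.algebraMap_smul K r a, DirectSum.decompose_smul, DirectSum.smul_apply,
    Submodule.coe_smul, IsScalarTower.algebraMap_smul] at this
  exact this

end LocSub

section Global

variable {R K A : Type} [CommRing R] [IsDedekindDomain R] [Field K] [Algebra R K]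
  [IsFractionRing R K] [CommRing A] [Algebra K A] [Algebra R A] [IsScalarTower R K A]
  (𝒜 : ℕ → Submodule K A) [GradedAlgebra 𝒜]

/-- A family of finite sets of homogeneous elements of positive degree, one for each prime, all
generating the algebra `A` over the fraction field, and almost all equal to one of them. -/
structure LocalGens (F : HeightOneSpectrum R → Set A) (F₀ : Set A) : Prop where
  finite : ∀ p, (F p).Finite
  finite₀ : F₀.Finite
  ae : {p | F p ≠ F₀}.Finite
  homog : ∀ p, ∀ x ∈ F p, ∃ i, 0 < i ∧ x ∈ 𝒜 i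
  full : ∀ p a, ∃ r : R, r ≠ 0 ∧ r • a ∈ Algebra.adjoin R (F p)
  full₀ : ∀ a, ∃ r : R, r ≠ 0 ∧ r • a ∈ Algebra.adjoin R F₀

/-- The localization at `p` of the algebra generated by the `p`-th generating set. -/
def localOrder (F : HeightOneSpectrum R → Set A) (p : HeightOneSpectrum R) : Subalgebra R A :=
  locSub p.asIdeal (Algebra.adjoin R (F p))

/-- The global order with given localizations. -/
def globalOrder (F : HeightOneSpectrum R → Set A) : Subalgebra R A :=
  ⨅ p : HeightOneSpectrum R, localOrder F p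

variable {F : HeightOneSpectrum R → Set A} {F₀ : Set A}

omit [IsDedekindDomain R] in
theorem mem_globalOrder {a : A} : a ∈ globalOrder F ↔ ∀ p, a ∈ localOrder F p := by
  rw [globalOrder, Algebra.mem_iInf]

omit [IsDedekindDomain R] in
theorem globalOrder_le (p : HeightOneSpectrum R) : globalOrder F ≤ localOrder F p :=
  fun _ ha => mem_globalOrder.mp ha p

variable (h : LocalGens 𝒜 F F₀)
include h

theorem LocalGens.finite_notMem (a : A) : {p | a ∉ localOrder F p}.Finite := by
  obtain ⟨r, hr, hra⟩ := h.full₀ a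
  refine (h.ae.union (finite_mem_prime hr)).subset ?_
  intro p hp
  by_contra hcon
  rw [Set.mem_union, not_or] at hcon
  have h1 : F p = F₀ := by
    by_contra h1
    exact hcon.1 h1
  apply hp
  refine ⟨r, hcon.2, ?_⟩
  rw [h1]
  exact hra

theorem LocalGens.exists_smul_mem {p : HeightOneSpectrum R} {a : A} (ha : a ∈ localOrder F p) :
    ∃ r, r ∉ p.asIdeal ∧ r • a ∈ globalOrder F := by
  obtain ⟨r, hr, hra⟩ := exists_smul_mem_iInf (R := R) (W := A)
    (fun q => Subalgebra.toSubmodule (localOrder F q))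
    (fun q r hr w hw => mem_locSub_of_smul q.asIdeal _ hr hw) (w := a)
    (h.finite_notMem 𝒜 a)
    (fun q => by
      obtain ⟨r, hr, hra⟩ := h.full q a
      exact ⟨r, hr, le_locSub _ _ hra⟩) p ha
  refine ⟨r, hr, ?_⟩
  rw [Submodule.mem_iInf] at hra
  rw [mem_globalOrder]
  exact hra

theorem LocalGens.locSub_globalOrder (p : HeightOneSpectrum R) :
    locSub p.asIdeal (globalOrder F) = localOrder F p := by
  apply le_antisymm
  · exact locSub_le_of_le _ (globalOrder_le p)
  · intro a ha
    exact h.exists_smul_mem 𝒜 ha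

theorem LocalGens.exists_ne_zero_smul_mem (a : A) : ∃ r : R, r ≠ 0 ∧ r • a ∈ globalOrder F := by
  classical
  have h1 := h.finite_notMem 𝒜 a
  choose f hf using fun q => h.full q a
  refine ⟨∏ q ∈ h1.toFinset, f q, ?_, ?_⟩
  · rw [Finset.prod_ne_zero_iff]
    exact fun q _ => (hf q).1
  · rw [mem_globalOrder]
    intro q
    by_cases hq : a ∈ localOrder F q
    · exact (localOrder F q).smul_mem hq _
    · have hq' : q ∈ h1.toFinset := by simpa using hq
      rw [← Finset.mul_prod_erase _ _ hq', mul_comm, mul_smul]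
      exact (localOrder F q).smul_mem (le_locSub _ _ (hf q).2) _

theorem LocalGens.isHomog_localOrder (p : HeightOneSpectrum R) : IsHomog 𝒜 (localOrder F p) :=
  isHomog_locSub 𝒜 _ (isHomog_adjoin 𝒜 fun x hx => by
    obtain ⟨i, _, hi⟩ := h.homog p x hx
    exact ⟨i, hi⟩)

theorem LocalGens.isHomog_globalOrder : IsHomog 𝒜 (globalOrder F) := by
  intro a ha i
  rw [mem_globalOrder] at ha ⊢
  exact fun p => h.isHomog_localOrder 𝒜 p a (ha p) i

theorem LocalGens.finiteType (hR : ¬ IsField R) : Algebra.FiniteType R (globalOrder F) := by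
  classical
  -- a common denominator for `F₀`
  have h0 : ∃ r : R, r ≠ 0 ∧ ∀ x ∈ F₀, r • x ∈ globalOrder F := by
    choose f hf using fun x => h.exists_ne_zero_smul_mem 𝒜 x
    refine ⟨∏ x ∈ h.finite₀.toFinset, f x, ?_, ?_⟩
    · rw [Finset.prod_ne_zero_iff]
      exact fun x _ => (hf x).1
    · intro x hx
      have hx' : x ∈ h.finite₀.toFinset := by simpa using hx
      rw [← Finset.mul_prod_erase _ _ hx', mul_comm, mul_smul]
      exact (globalOrder F).smul_mem (hf x).2 _
  obtain ⟨r₀, hr₀, hr₀F⟩ := h0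
  -- the bad primes
  set B : Set (HeightOneSpectrum R) := {p | F p ≠ F₀} ∪ {p | r₀ ∈ p.asIdeal} with hB
  have hBfin : B.Finite := h.ae.union (finite_mem_prime hr₀)
  have h1 : ∀ p : HeightOneSpectrum R, ∀ x ∈ F p, ∃ r, r ∉ p.asIdeal ∧ r • x ∈ globalOrder F := by
    intro p x hx
    exact h.exists_smul_mem 𝒜 (le_locSub _ _ (Algebra.subset_adjoin hx))
  choose! f hf using h1
  set G : Set A := (fun x => r₀ • x) '' F₀ ∪ ⋃ p ∈ B, (fun x => f p x • x) '' F p with hG
  have hGfin : G.Finite := (h.finite₀.image _).union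
    (hBfin.biUnion fun p _ => (h.finite p).image _)
  have hGS : Algebra.adjoin R G = globalOrder F := by
    apply le_antisymm
    · rw [Algebra.adjoin_le_iff]
      rintro a (⟨x, hx, rfl⟩ | ha)
      · exact hr₀F x hx
      · rw [Set.mem_iUnion₂] at ha
        obtain ⟨p, _, x, hx, rfl⟩ := ha
        exact (hf p x hx).2
    · intro a ha
      -- the conductor
      let c : Ideal R :=
        { carrier := {r | r • a ∈ Algebra.adjoin R G}
          add_mem' := fun {x y} hx hy => by
            change (x + y) • a ∈ Algebra.adjoin R G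
            rw [add_smul]
            exact Subalgebra.add_mem _ hx hy
          zero_mem' := by simp
          smul_mem' := fun x y hy => by
            change (x • y) • a ∈ Algebra.adjoin R G
            rw [smul_eq_mul, mul_smul]
            exact Subalgebra.smul_mem _ hy _ }
      have hc : c = ⊤ := by
        by_contra hcon
        obtain ⟨m, hm, hcm⟩ := Ideal.exists_le_maximal c hcon
        have hmne : m ≠ ⊥ := fun hbot => hR (Ring.isField_iff_maximal_bot.mpr (hbot ▸ hm))
        let p : HeightOneSpectrum R := ⟨m, hm.isPrime, hmne⟩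
        have hle : Algebra.adjoin R (F p) ≤ locSub p.asIdeal (Algebra.adjoin R G) := by
          rw [Algebra.adjoin_le_iff]
          intro x hx
          by_cases hpB : p ∈ B
          · refine ⟨f p x, (hf p x hx).1, Algebra.subset_adjoin ?_⟩
            right
            rw [Set.mem_iUnion₂]
            exact ⟨p, hpB, x, hx, rfl⟩
          · rw [hB, Set.mem_union, not_or] at hpB
            have h2 : F p = F₀ := by
              by_contra h2
              exact hpB.1 h2
            refine ⟨r₀, hpB.2, Algebra.subset_adjoin ?_⟩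
            left
            exact ⟨x, h2 ▸ hx, rfl⟩
        have h3 : a ∈ locSub p.asIdeal (Algebra.adjoin R G) :=
          locSub_le_of_le _ hle (mem_globalOrder.mp ha p)
        obtain ⟨r, hr, hra⟩ := h3
        exact hr (hcm hra)
      have h1c : (1 : R) ∈ c := hc ▸ Submodule.mem_top
      have h2c : (1 : R) • a ∈ Algebra.adjoin R G := h1c
      rwa [one_smul] at h2c
  rw [← Subalgebra.fg_iff_finiteType, ← hGS]
  exact ⟨hGfin.toFinset, by rw [Set.Finite.coe_toFinset]⟩

end Global

end Pool.Agent.Lib.MP_6a3dac_ag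
end

section

/-!
# Comparison of the local rings of `Proj` of a global order and of its localizations
-/

set_option autoImplicit false

namespace Pool.Agent.Lib.MP_6a3dac_ag

open HomogeneousLocalization

section General

variable {S T : Type} [CommRing S] [CommRing T] {σ τ : Type} [SetLike σ S] [SetLike τ T]
  [AddSubgroupClass σ S] [AddSubgroupClass τ T] (𝒮 : ℕ → σ) (𝒯 : ℕ → τ) [GradedRing 𝒮]
  [GradedRing 𝒯]

/-- A graded ring homomorphism which is bijective up to denominators outside given prime ideals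
induces an isomorphism of homogeneous local rings. -/
theorem isRegularLocalRing_of_map (g : 𝒮 →+*ᵍ 𝒯) (y₀ : Ideal S) [y₀.IsPrime] (y₁ : Ideal T)
    [y₁.IsPrime] (hle : y₀.primeCompl ≤ y₁.primeCompl.comap g)
    (h1 : ∀ t, t ∉ y₁ → ∀ x : S, t * g x = 0 → ∃ s, s ∉ y₀ ∧ s * x = 0)
    (h2 : ∀ i, ∀ a ∈ 𝒯 i, ∀ b ∈ 𝒯 i, b ∉ y₁ →
      ∃ a' ∈ 𝒮 i, ∃ b' ∈ 𝒮 i, b' ∉ y₀ ∧ b * g a' = g b' * a)
    (h : IsRegularLocalRing (AtPrime 𝒯 y₁)) : IsRegularLocalRing (AtPrime 𝒮 y₀) := by
  let Φ : AtPrime 𝒮 y₀ →+* AtPrime 𝒯 y₁ := HomogeneousLocalization.map g hle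
  have hinj : Function.Injective Φ := by
    rw [injective_iff_map_eq_zero]
    intro z hz
    obtain ⟨⟨i, a, b, hb⟩, rfl⟩ := mk_surjective z
    have h3 := congrArg val hz
    rw [HomogeneousLocalization.map_mk, val_mk, val_zero, Localization.mk_eq_mk',
      IsLocalization.mk'_eq_zero_iff] at h3
    obtain ⟨⟨t, ht⟩, hta⟩ := h3
    obtain ⟨s, hs, hsx⟩ := h1 t ht _ hta
    apply val_injective
    rw [val_mk, val_zero, Localization.mk_eq_mk', IsLocalization.mk'_eq_zero_iff]
    exact ⟨⟨s, hs⟩, hsx⟩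
  have hsurj : Function.Surjective Φ := by
    intro z
    obtain ⟨⟨i, a, b, hb⟩, rfl⟩ := mk_surjective z
    obtain ⟨a', ha', b', hb', hby, hab⟩ := h2 i a a.2 b b.2 hb
    have hmk := HomogeneousLocalization.map_mk (P := y₀.primeCompl) (Q := y₁.primeCompl) g hle
      (NumDenSameDeg.mk i ⟨a', ha'⟩ ⟨b', hb'⟩ hby)
    refine ⟨_, hmk.trans ?_⟩
    apply val_injective
    rw [val_mk, val_mk, Localization.mk_eq_mk_iff, Localization.r_iff_exists]
    refine ⟨1, ?_⟩
    simp only [OneMemClass.coe_one, one_mul]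
    exact hab
  exact IsRegularLocalRing.of_ringEquiv (RingEquiv.ofBijective Φ ⟨hinj, hsurj⟩).symm

end General

variable {R K A : Type} [CommRing R] [CommRing K] [CommRing A] [Algebra R K] [Algebra K A]
  [Algebra R A] [IsScalarTower R K A]
  (𝒜 : ℕ → Submodule K A) (p : Ideal R) [p.IsPrime] {S : Subalgebra R A}

/-- The graded inclusion of a subalgebra in its localization. -/
def locSubHom : subGr 𝒜 S →+*ᵍ subGr 𝒜 (locSub p S) where
  __ := (Subalgebra.inclusion (le_locSub p S) : S →+* locSub p S)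
  map_mem h := h

theorem coe_locSubHom (s : S) : ((locSubHom 𝒜 p s : locSub p S) : A) = s := rfl

/-- The extension of a prime ideal to a localized subalgebra. -/
def extIdeal (y : Ideal S) : Ideal (locSub p S) where
  carrier := {t | ∃ r, r ∉ p ∧ ∃ s ∈ y, (s : A) = r • (t : A)}
  add_mem' := by
    rintro a b ⟨r, hr, s, hs, hrs⟩ ⟨r', hr', s', hs', hrs'⟩
    refine ⟨r * r', fun h => (Ideal.IsPrime.mem_or_mem ‹_› h).elim hr hr', r' • s + r • s',
      y.add_mem ?_ ?_, ?_⟩
    · rw [Algebra.smul_def]; exact y.mul_mem_left _ hs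
    · rw [Algebra.smul_def]; exact y.mul_mem_left _ hs'
    · rw [Subalgebra.coe_add, Subalgebra.coe_smul, Subalgebra.coe_smul, hrs, hrs',
        Subalgebra.coe_add, smul_add, smul_smul, smul_smul, mul_comm r' r]
  zero_mem' := ⟨1, fun h => Ideal.IsPrime.ne_top ‹_› ((Ideal.eq_top_iff_one p).mpr h), 0, y.zero_mem, by simp⟩
  smul_mem' := by
    rintro ⟨c, r', hr', hc⟩ a ⟨r, hr, s, hs, hrs⟩
    refine ⟨r' * r, fun h => (Ideal.IsPrime.mem_or_mem ‹_› h).elim hr' hr, ⟨r' • c, hc⟩ * s,
      y.mul_mem_left _ hs, ?_⟩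
    rw [Subalgebra.coe_mul, hrs, smul_eq_mul, Subalgebra.coe_mul, smul_mul_smul_comm]

theorem mem_extIdeal {y : Ideal S} {t : locSub p S} :
    t ∈ extIdeal p y ↔ ∃ r, r ∉ p ∧ ∃ s ∈ y, (s : A) = r • (t : A) := Iff.rfl

variable (y : Ideal S) [hy : y.IsPrime] (hyp : ∀ r, r ∉ p → algebraMap R S r ∉ y)
include hyp

theorem locSubHom_mem_extIdeal {s : S} : locSubHom 𝒜 p s ∈ extIdeal p y ↔ s ∈ y := by
  constructor
  · rintro ⟨r, hr, s', hs', hrs⟩
    rw [coe_locSubHom] at hrs
    have : s' = r • s := by ext; exact hrs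
    rw [this, Algebra.smul_def] at hs'
    exact (hy.mem_or_mem hs').resolve_left (hyp r hr)
  · intro hs
    exact ⟨1, fun h => Ideal.IsPrime.ne_top ‹_› ((Ideal.eq_top_iff_one p).mpr h), s, hs, by
      rw [one_smul]; rfl⟩

theorem isPrime_extIdeal : (extIdeal p y).IsPrime := by
  constructor
  · intro htop
    have h1 : (1 : locSub p S) ∈ extIdeal p y := htop ▸ Submodule.mem_top
    obtain ⟨r, hr, s, hs, hrs⟩ := h1
    apply hyp r hr
    have : s = algebraMap R S r := by
      ext
      rw [hrs, Subalgebra.coe_one, Algebra.smul_def, mul_one]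
      rfl
    rwa [this] at hs
  · rintro ⟨a, r₁, hr₁, ha⟩ ⟨b, r₂, hr₂, hb⟩ ⟨r, hr, s, hs, hrs⟩
    have h1 : (r₁ * r₂) • s = r • ((⟨r₁ • a, ha⟩ : S) * ⟨r₂ • b, hb⟩) := by
      ext
      rw [Subalgebra.coe_smul, hrs, Subalgebra.coe_smul, Subalgebra.coe_mul]
      change (r₁ * r₂) • r • (a * b) = r • ((r₁ • a) * (r₂ • b))
      rw [smul_mul_smul_comm, smul_comm]
    have h2 : r • ((⟨r₁ • a, ha⟩ : S) * ⟨r₂ • b, hb⟩) ∈ y := by
      rw [← h1, Algebra.smul_def]
      exact y.mul_mem_left _ hs
    rw [Algebra.smul_def] at h2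
    rcases hy.mem_or_mem ((hy.mem_or_mem h2).resolve_left (hyp r hr)) with h3 | h3
    · exact Or.inl ⟨r₁, hr₁, _, h3, rfl⟩
    · exact Or.inr ⟨r₂, hr₂, _, h3, rfl⟩

/-- The comparison isomorphism of homogeneous local rings. -/
theorem isRegularLocalRing_of_locSub [GradedAlgebra 𝒜] (hS : IsHomog 𝒜 S)
    (h : letI := subGradedAlgebra 𝒜 (isHomog_locSub 𝒜 p hS)
      letI := isPrime_extIdeal p y hyp
      IsRegularLocalRing (AtPrime (subGr 𝒜 (locSub p S)) (extIdeal p y))) :
    letI := subGradedAlgebra 𝒜 hS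
    IsRegularLocalRing (AtPrime (subGr 𝒜 S) y) := by
  let := subGradedAlgebra 𝒜 (isHomog_locSub 𝒜 p hS)
  let := subGradedAlgebra 𝒜 hS
  let := isPrime_extIdeal p y hyp
  have hle : y.primeCompl ≤ (extIdeal p y).primeCompl.comap (locSubHom 𝒜 p) := by
    intro s hs hs'
    exact hs ((locSubHom_mem_extIdeal 𝒜 p y hyp).mp hs')
  refine isRegularLocalRing_of_map (subGr 𝒜 S) (subGr 𝒜 (locSub p S)) (locSubHom 𝒜 p) y
    (extIdeal p y) hle ?_ ?_ h
  · intro t ht a hta
    obtain ⟨r, hr, hrt⟩ := t.2
    refine ⟨⟨r • (t : A), hrt⟩, fun h2 => ht ⟨r, hr, _, h2, rfl⟩, ?_⟩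
    ext
    have h3 := congrArg (Subtype.val) hta
    rw [Subalgebra.coe_mul]
    change (r • (t : A)) * (a : A) = 0
    change (t : A) * (a : A) = 0 at h3
    rw [smul_mul_assoc, h3, smul_zero]
  · intro i a ha b hb hby
    obtain ⟨r, hr, hra⟩ := a.2
    obtain ⟨r', hr', hrb⟩ := b.2
    have hr2 : r' • r • (a : A) ∈ S := S.smul_mem hra _
    have hb2 : r • r' • (b : A) ∈ S := S.smul_mem hrb _
    have ha𝒜 : r' • r • (a : A) ∈ 𝒜 i := by
      rw [smul_smul, ← IsScalarTower.algebraMap_smul K (r' * r)]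
      exact (𝒜 i).smul_mem _ ha
    have hb𝒜 : r • r' • (b : A) ∈ 𝒜 i := by
      rw [smul_smul, ← IsScalarTower.algebraMap_smul K (r * r')]
      exact (𝒜 i).smul_mem _ hb
    refine ⟨⟨_, hr2⟩, ha𝒜, ⟨_, hb2⟩, hb𝒜, fun h2 => ?_, ?_⟩
    · exact hby ⟨r * r', fun h => (Ideal.IsPrime.mem_or_mem ‹_› h).elim hr hr', _, h2,
        smul_smul r r' _⟩
    · ext
      change (b : A) * (r' • r • (a : A)) = (r • r' • (b : A)) * (a : A)
      rw [smul_smul, smul_smul, mul_smul_comm, smul_mul_assoc, mul_comm r r']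

omit hy hyp in
theorem isHomogeneous_extIdeal [GradedAlgebra 𝒜] (hS : IsHomog 𝒜 S)
    (hyh : letI := subGradedAlgebra 𝒜 hS; y.IsHomogeneous (subGr 𝒜 S)) :
    letI := subGradedAlgebra 𝒜 (isHomog_locSub 𝒜 p hS)
    (extIdeal p y).IsHomogeneous (subGr 𝒜 (locSub p S)) := by
  let := subGradedAlgebra 𝒜 (isHomog_locSub 𝒜 p hS)
  let := subGradedAlgebra 𝒜 hS
  rintro i t ⟨r, hr, s, hs, hrs⟩
  refine ⟨r, hr, _, hyh i hs, ?_⟩
  rw [coe_decompose_subGr 𝒜 hS, coe_decompose_subGr 𝒜 (isHomog_locSub 𝒜 p hS), hrs,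
    ← IsScalarTower.algebraMap_smul K r, DirectSum.decompose_smul, DirectSum.smul_apply,
    Submodule.coe_smul, IsScalarTower.algebraMap_smul]

end Pool.Agent.Lib.MP_6a3dac_ag
end

section

/-!
# The local ring of `Proj` at a point and the local ring of the affine cone
-/

set_option autoImplicit false

namespace Pool.Agent.Lib.MP_6a3dac_ag

open IsLocalRing HomogeneousLocalization

variable {S σ : Type*} [CommRing S] [SetLike σ S] [AddSubgroupClass σ S]
variable (𝒮 : ℕ → σ) [GradedRing 𝒮] (y : Ideal S) [y.IsPrime]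

/-- The degree-zero fraction `s / g ^ i` for `s` homogeneous of degree `i`. -/
def frac {g : S} (hg : g ∈ 𝒮 1) (hgy : g ∉ y) (i : ℕ) :
    𝒮 i →+ HomogeneousLocalization.AtPrime 𝒮 y where
  toFun s := HomogeneousLocalization.mk
    { deg := i
      num := s
      den := ⟨g ^ i, by simpa using SetLike.pow_mem_graded i hg⟩
      den_mem := (y.primeCompl).pow_mem hgy i }
  map_zero' := by
    ext
    simp [Localization.mk_zero]
  map_add' s t := by
    ext
    simp [Localization.add_mk_self]

theorem val_frac {g : S} (hg : g ∈ 𝒮 1) (hgy : g ∉ y) (i : ℕ) (s : 𝒮 i) :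
    (frac 𝒮 y hg hgy i s).val =
      Localization.mk (s : S) ⟨g ^ i, (y.primeCompl).pow_mem hgy i⟩ := rfl

theorem frac_one {g : S} (hg : g ∈ 𝒮 1) (hgy : g ∉ y) :
    frac 𝒮 y hg hgy 0 ⟨1, SetLike.GradedOne.one_mem⟩ = 1 := by
  ext
  rw [val_frac, val_one, ← Localization.mk_one]
  congr 1
  ext; simp

theorem frac_mul {g : S} (hg : g ∈ 𝒮 1) (hgy : g ∉ y) {i j : ℕ} (a : 𝒮 i) (b : 𝒮 j) :
    frac 𝒮 y hg hgy (i + j) ⟨a * b, SetLike.mul_mem_graded a.2 b.2⟩ =
      frac 𝒮 y hg hgy i a * frac 𝒮 y hg hgy j b := by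
  ext
  rw [val_mul, val_frac, val_frac, val_frac, Localization.mk_mul]
  congr 1
  ext; simp [pow_add]

open Polynomial in
/-- The ring homomorphism `S → O[X]` sending a homogeneous element `s` of degree `i` to
`(s / g ^ i) X ^ i`. -/
noncomputable def coneHom {g : S} (hg : g ∈ 𝒮 1) (hgy : g ∉ y) :
    S →+* (HomogeneousLocalization.AtPrime 𝒮 y)[X] :=
  (DirectSum.toSemiring (A := fun i => 𝒮 i)
    (fun i => ((monomial i).toAddMonoidHom).comp (frac 𝒮 y hg hgy i))
    (by
      change monomial 0 (frac 𝒮 y hg hgy 0 ⟨1, SetLike.GradedOne.one_mem⟩) = 1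
      rw [frac_one]; rfl)
    (by
      intro i j a b
      change monomial (i + j) (frac 𝒮 y hg hgy (i + j) ⟨a * b, SetLike.mul_mem_graded a.2 b.2⟩) =
        monomial i (frac 𝒮 y hg hgy i a) * monomial j (frac 𝒮 y hg hgy j b)
      rw [frac_mul, monomial_mul_monomial])).comp
  (DirectSum.decomposeRingEquiv 𝒮).toRingHom

open Polynomial in
theorem coneHom_of_mem {g : S} (hg : g ∈ 𝒮 1) (hgy : g ∉ y) {i : ℕ} {s : S} (hs : s ∈ 𝒮 i) :
    coneHom 𝒮 y hg hgy s = monomial i (frac 𝒮 y hg hgy i ⟨s, hs⟩) := by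
  simp only [coneHom, RingHom.coe_comp, Function.comp_apply]
  have : (DirectSum.decomposeRingEquiv 𝒮).toRingHom s = DirectSum.of (fun i => 𝒮 i) i ⟨s, hs⟩ := by
    change DirectSum.decompose 𝒮 s = _
    exact DirectSum.decompose_of_mem 𝒮 hs
  rw [this, DirectSum.toSemiring_of]
  rfl

open Polynomial in
theorem coeff_coneHom {g : S} (hg : g ∈ 𝒮 1) (hgy : g ∉ y) (s : S) (i : ℕ) :
    (coneHom 𝒮 y hg hgy s).coeff i = frac 𝒮 y hg hgy i (DirectSum.decompose 𝒮 s i) := by
  classical
  conv_lhs => rw [← DirectSum.sum_support_decompose 𝒮 s]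
  rw [map_sum, finsetSum_coeff]
  by_cases hi : i ∈ (DirectSum.decompose 𝒮 s).support
  · rw [Finset.sum_eq_single i]
    · rw [coneHom_of_mem 𝒮 y hg hgy (DirectSum.decompose 𝒮 s i).2, coeff_monomial, if_pos rfl]
    · intro j _ hj
      rw [coneHom_of_mem 𝒮 y hg hgy (DirectSum.decompose 𝒮 s j).2, coeff_monomial, if_neg hj]
    · exact fun h => absurd hi h
  · have h0 : DirectSum.decompose 𝒮 s i = 0 := by simpa using hi
    rw [h0, map_zero]
    apply Finset.sum_eq_zero
    intro j hj
    rw [coneHom_of_mem 𝒮 y hg hgy (DirectSum.decompose 𝒮 s j).2, coeff_monomial, if_neg]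
    rintro rfl
    exact hi hj

theorem isUnit_frac {g : S} (hg : g ∈ 𝒮 1) (hgy : g ∉ y) {i : ℕ} {s : 𝒮 i} (hs : (s : S) ∉ y) :
    IsUnit (frac 𝒮 y hg hgy i s) := by
  rw [← isUnit_iff_isUnit_val, val_frac, Localization.mk_eq_mk']
  exact (IsLocalization.AtPrime.isUnit_mk'_iff _ y _ _).mpr hs

omit [y.IsPrime] in
theorem exists_component_notMem (hy : y.IsHomogeneous 𝒮) {w : S} (hw : w ∉ y) :
    ∃ e, (DirectSum.decompose 𝒮 w e : S) ∉ y := by
  by_contra h
  push Not at h
  exact hw ((hy.mem_iff).mpr h)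

open Polynomial in
theorem comap_map_cone (hy : y.IsHomogeneous 𝒮) {g : S} (hg : g ∈ 𝒮 1) (hgy : g ∉ y)
    (J : Ideal (HomogeneousLocalization.AtPrime 𝒮 y)) :
    (J.map (algebraMap (HomogeneousLocalization.AtPrime 𝒮 y)
      (Localization.AtPrime y))).comap (algebraMap _ _) = J := by
  apply le_antisymm _ Ideal.le_comap_map
  set Jp : Ideal S := (J.map C).comap (coneHom 𝒮 y hg hgy) with hJp
  have hle : J.map (algebraMap (HomogeneousLocalization.AtPrime 𝒮 y)
      (Localization.AtPrime y)) ≤ Jp.map (algebraMap S (Localization.AtPrime y)) := by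
    rw [Ideal.map_le_iff_le_comap]
    intro a ha
    obtain ⟨⟨d, α, t, ht⟩, rfl⟩ := HomogeneousLocalization.mk_surjective a
    have h1 : (α : S) ∈ Jp := by
      rw [hJp, Ideal.mem_comap, coneHom_of_mem 𝒮 y hg hgy α.2, Ideal.mem_map_C_iff]
      intro n
      rw [coeff_monomial]
      split_ifs with hn
      · have : frac 𝒮 y hg hgy d α = frac 𝒮 y hg hgy d t *
            HomogeneousLocalization.mk ⟨d, α, t, ht⟩ := by
          ext
          rw [val_mul, val_frac, val_frac, val_mk, Localization.mk_mul,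
            Localization.mk_eq_mk_iff, Localization.r_iff_exists]
          exact ⟨1, by simp; ring⟩
        rw [this]
        exact J.mul_mem_left _ ha
      · exact J.zero_mem
    rw [Ideal.mem_comap, HomogeneousLocalization.algebraMap_apply, val_mk]
    have h2 : Localization.mk (α : S) ⟨(t : S), ht⟩ =
        algebraMap S (Localization.AtPrime y) α * Localization.mk 1 ⟨(t : S), ht⟩ := by
      rw [← Localization.mk_one_eq_algebraMap, Localization.mk_mul]
      simp
    rw [h2]
    exact Ideal.mul_mem_right _ _ (Ideal.mem_map_of_mem _ h1)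
  intro a ha
  have ha2 := hle ha
  obtain ⟨⟨d, α, t, ht⟩, rfl⟩ := HomogeneousLocalization.mk_surjective a
  rw [HomogeneousLocalization.algebraMap_apply, val_mk] at ha2
  have h3 : algebraMap S (Localization.AtPrime y) α ∈
      Jp.map (algebraMap S (Localization.AtPrime y)) := by
    have h4 := Ideal.mul_mem_left _ (algebraMap S (Localization.AtPrime y) t) ha2
    rwa [← Localization.mk_one_eq_algebraMap, Localization.mk_mul,
      show Localization.mk ((t : S) * (α : S)) (1 * ⟨(t : S), ht⟩) =
        Localization.mk (α : S) 1 from by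
          rw [Localization.mk_eq_mk_iff, Localization.r_iff_exists]
          exact ⟨1, by simp⟩, Localization.mk_one_eq_algebraMap] at h4
  rw [IsLocalization.algebraMap_mem_map_algebraMap_iff y.primeCompl] at h3
  obtain ⟨w, hw, hwα⟩ := h3
  obtain ⟨e, he⟩ := exists_component_notMem 𝒮 y hy hw
  have h5 := (Ideal.mem_map_C_iff.mp (Ideal.mem_comap.mp hwα)) (e + d)
  rw [map_mul, coneHom_of_mem 𝒮 y hg hgy α.2, coeff_mul_monomial, coeff_coneHom] at h5
  have hu1 : IsUnit (frac 𝒮 y hg hgy e (DirectSum.decompose 𝒮 w e)) := isUnit_frac 𝒮 y hg hgy he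
  have hu2 : IsUnit (frac 𝒮 y hg hgy d t) := isUnit_frac 𝒮 y hg hgy ht
  have h6 : frac 𝒮 y hg hgy d α ∈ J := (Ideal.unit_mul_mem_iff_mem J hu1).mp h5
  have h7 : frac 𝒮 y hg hgy d α = frac 𝒮 y hg hgy d t *
      HomogeneousLocalization.mk ⟨d, α, t, ht⟩ := by
    ext
    rw [val_mul, val_frac, val_frac, val_mk, Localization.mk_mul,
      Localization.mk_eq_mk_iff, Localization.r_iff_exists]
    exact ⟨1, by simp; ring⟩
  rw [h7] at h6
  exact (Ideal.unit_mul_mem_iff_mem J hu2).mp h6

theorem map_maximalIdeal_cone (hy : y.IsHomogeneous 𝒮) {g : S} (hg : g ∈ 𝒮 1) (hgy : g ∉ y) :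
    (maximalIdeal (HomogeneousLocalization.AtPrime 𝒮 y)).map
      (algebraMap (HomogeneousLocalization.AtPrime 𝒮 y) (Localization.AtPrime y)) =
      maximalIdeal (Localization.AtPrime y) := by
  classical
  apply le_antisymm
  · rw [Ideal.map_le_iff_le_comap]
    intro a ha
    rw [Ideal.mem_comap, IsLocalRing.mem_maximalIdeal, mem_nonunits_iff, HomogeneousLocalization.algebraMap_apply,
      isUnit_iff_isUnit_val]
    exact ha
  · rw [← Localization.AtPrime.map_eq_maximalIdeal, Ideal.map_le_iff_le_comap]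
    intro s hs
    rw [Ideal.mem_comap, ← DirectSum.sum_support_decompose 𝒮 s, map_sum]
    apply Ideal.sum_mem
    intro i _
    have hsi : (DirectSum.decompose 𝒮 s i : S) ∈ y := hy i hs
    have h1 : algebraMap S (Localization.AtPrime y) (DirectSum.decompose 𝒮 s i) =
        algebraMap (HomogeneousLocalization.AtPrime 𝒮 y) (Localization.AtPrime y)
          (frac 𝒮 y hg hgy i (DirectSum.decompose 𝒮 s i)) *
        algebraMap S (Localization.AtPrime y) (g ^ i) := by
      rw [HomogeneousLocalization.algebraMap_apply, val_frac, ← Localization.mk_one_eq_algebraMap,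
        ← Localization.mk_one_eq_algebraMap, Localization.mk_mul, Localization.mk_eq_mk_iff,
        Localization.r_iff_exists]
      exact ⟨1, by simp; ring⟩
    rw [h1]
    apply Ideal.mul_mem_right
    apply Ideal.mem_map_of_mem
    rw [IsLocalRing.mem_maximalIdeal, mem_nonunits_iff, ← isUnit_iff_isUnit_val, val_frac,
      Localization.mk_eq_mk']
    intro hu
    exact ((IsLocalization.AtPrime.isUnit_mk'_iff _ y _ _).mp hu) hsi

/-- **Cone lemma.** If the local ring of the affine cone at a homogeneous prime `y` is regular, so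
is the local ring of `Proj` at `y` (assuming some element of degree one is not in `y`). -/
theorem isRegularLocalRing_homogeneousLocalization (hy : y.IsHomogeneous 𝒮) {g : S}
    (hg : g ∈ 𝒮 1) (hgy : g ∉ y) (h : IsRegularLocalRing (Localization.AtPrime y)) :
    IsRegularLocalRing (HomogeneousLocalization.AtPrime 𝒮 y) :=
  isRegularLocalRing_of_comap_map (algebraMap _ _) (comap_map_cone 𝒮 y hy hg hgy)
    (map_maximalIdeal_cone 𝒮 y hy hg hgy) h

end Pool.Agent.Lib.MP_6a3dac_ag
end

section

/-!
# Regularity of `Proj` of a graded hypersurface ring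
-/

set_option autoImplicit false

namespace Pool.Agent.Lib.MP_6a3dac_ag

open MvPolynomial

variable {O T σ : Type} [CommRing O] [CommRing T] [SetLike σ T] [AddSubgroupClass σ T]
  (𝒯 : ℕ → σ) [GradedRing 𝒯] {n : ℕ} (ψ : MvPolynomial (Fin n) O →+* T)
  (hC : ∀ r, ψ (C r) ∈ 𝒯 0) (hX : ∀ i, ψ (X i) ∈ 𝒯 1)

include hC hX in
theorem mem_of_isHomogeneous {p : MvPolynomial (Fin n) O} {k : ℕ} (hp : p.IsHomogeneous k) :
    ψ p ∈ 𝒯 k := by
  rw [p.as_sum, map_sum]
  refine sum_mem fun d hd => ?_
  rw [monomial_eq, map_mul, Finsupp.prod, map_prod]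
  have h1 : ∏ i ∈ d.support, ψ (X i ^ d i) ∈ 𝒯 (∑ i ∈ d.support, d i) := by
    refine SetLike.prod_mem_graded (A := 𝒯) (fun i => d i) _ fun i _ => ?_
    rw [map_pow]
    have := SetLike.pow_mem_graded (A := 𝒯) (d i) (hX i)
    simpa using this
  have h2 : ∑ i ∈ d.support, d i = k := by
    have := hp (mem_support_iff.mp hd)
    rw [← this, Finsupp.weight_apply, Finsupp.sum]
    simp
  rw [← h2, ← zero_add (∑ i ∈ d.support, d i)]
  exact SetLike.mul_mem_graded (hC _) h1

include hC hX in
theorem decompose_map (p : MvPolynomial (Fin n) O) (k : ℕ) :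
    (DirectSum.decompose 𝒯 (ψ p) k : T) = ψ (homogeneousComponent k p) := by
  conv_lhs => rw [← sum_homogeneousComponent p]
  rw [map_sum, DirectSum.decompose_sum, DFinsupp.finsetSum_apply, AddSubmonoidClass.coe_finsetSum]
  have h1 : ∀ i, (DirectSum.decompose 𝒯 (ψ (homogeneousComponent i p)) k : T) =
      if i = k then ψ (homogeneousComponent k p) else 0 := by
    intro i
    have hi := mem_of_isHomogeneous 𝒯 ψ hC hX (homogeneousComponent_isHomogeneous i p)
    split_ifs with h
    · subst h
      rw [DirectSum.decompose_of_mem_same 𝒯 hi]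
    · rw [DirectSum.decompose_of_mem_ne 𝒯 hi h]
  simp_rw [h1]
  rw [Finset.sum_ite_eq']
  split_ifs with h
  · rfl
  · rw [Finset.mem_range, not_lt] at h
    rw [homogeneousComponent_eq_zero _ _ (by omega), map_zero]

include hC hX in
/-- Regularity of the homogeneous local rings of a graded hypersurface ring. -/
theorem isRegularLocalRing_of_graded_hypersurface (hψ : Function.Surjective ψ)
    [IsRegularRing (MvPolynomial (Fin n) O)] {f : MvPolynomial (Fin n) O}
    (hker : RingHom.ker ψ = Ideal.span {f}) (y : Ideal T) [y.IsPrime] (hy : y.IsHomogeneous 𝒯)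
    (hyX : ∃ i, ψ (X i) ∉ y)
    (h : ∀ (Y : Ideal (MvPolynomial (Fin n) O)), Y.IsPrime →
      (∀ p ∈ Y, ∀ k, homogeneousComponent k p ∈ Y) → (∃ i, X i ∉ Y) →
      ∀ s, s ∉ Y → s * f ∉ Y ^ 2) :
    IsRegularLocalRing (HomogeneousLocalization.AtPrime 𝒯 y) := by
  obtain ⟨i, hi⟩ := hyX
  refine isRegularLocalRing_homogeneousLocalization 𝒯 y hy (hX i) hi ?_
  refine isRegularLocalRing_of_hypersurface ψ hψ y hker ?_
  refine h (y.comap ψ) (Ideal.IsPrime.comap ψ) ?_ ⟨i, hi⟩
  intro p hp k
  rw [Ideal.mem_comap, ← decompose_map 𝒯 ψ hC hX]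
  exact hy k hp

end Pool.Agent.Lib.MP_6a3dac_ag
end

section

/-!
# Weil restrictions of projective spaces along quadratic algebras: the basic definitions

Let `L = K[ω] / (ω ^ 2 - t ω + n)`, with conjugation `τ(ω) = t - ω`.  A vector `v` of `L ^ N` is
written as `v_i = a_i + b_i ω`.
-/

set_option autoImplicit false

namespace Pool.Agent.Lib.MP_6a3dac_ag

open MvPolynomial

attribute [local instance] MvPolynomial.gradedAlgebra

/-- The polynomial ring in the coordinates `a_i` (first summand) and `b_i` (second summand). -/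
abbrev CoordRing (K : Type) [CommRing K] (N : ℕ) : Type := MvPolynomial (Fin N ⊕ Fin N) K

section Basic

variable {K : Type} [CommRing K] {N : ℕ}

/-- The coefficient `b_i a_j - a_i b_j` of `ω` in `v_i τ(v_j)`, where `v_i = a_i + b_i ω`. -/
noncomputable def delP (K : Type) [CommRing K] {N : ℕ} (i j : Fin N) : CoordRing K N :=
  X (Sum.inr i) * X (Sum.inl j) - X (Sum.inl i) * X (Sum.inr j)

/-- The coefficient `a_i a_j + n b_i b_j + t a_i b_j` of `1` in `v_i τ(v_j)`, where
`v_i = a_i + b_i ω`. -/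
noncomputable def epsP (t n : K) (i j : Fin N) : CoordRing K N :=
  X (Sum.inl i) * X (Sum.inl j) + C n * (X (Sum.inr i) * X (Sum.inr j)) +
    C t * (X (Sum.inl i) * X (Sum.inr j))

/-- The algebra generated by the coefficients of all products `v_i τ(v_j)`. -/
noncomputable def weilAlg (t n : K) (N : ℕ) : Subalgebra K (CoordRing K N) :=
  Algebra.adjoin K (Set.range (fun ij : Fin N × Fin N => epsP t n ij.1 ij.2) ∪
    Set.range (fun ij : Fin N × Fin N => delP K ij.1 ij.2))

/-- The degree-`k` part of this algebra consists of the homogeneous polynomials of degree `2 k`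
in it. -/
noncomputable def weilGr (t n : K) (N : ℕ) (k : ℕ) : Submodule K (weilAlg t n N) :=
  (homogeneousSubmodule (Fin N ⊕ Fin N) K (2 * k)).comap (weilAlg t n N).val.toLinearMap

theorem delP_isHomogeneous (i j : Fin N) : (delP K i j).IsHomogeneous 2 :=
  ((isHomogeneous_X _ _).mul (isHomogeneous_X _ _)).sub
    ((isHomogeneous_X _ _).mul (isHomogeneous_X _ _))

theorem epsP_isHomogeneous (t n : K) (i j : Fin N) : (epsP t n i j).IsHomogeneous 2 := by
  have h1 : (X (Sum.inl i) * X (Sum.inl j) : CoordRing K N).IsHomogeneous 2 :=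
    (isHomogeneous_X _ _).mul (isHomogeneous_X _ _)
  have h2 : (C n * (X (Sum.inr i) * X (Sum.inr j)) : CoordRing K N).IsHomogeneous 2 := by
    have h3 := (isHomogeneous_C (Fin N ⊕ Fin N) n).mul
      ((isHomogeneous_X K (Sum.inr i)).mul (isHomogeneous_X K (Sum.inr j)))
    simpa using h3
  have h3 : (C t * (X (Sum.inl i) * X (Sum.inr j)) : CoordRing K N).IsHomogeneous 2 := by
    have h3 := (isHomogeneous_C (Fin N ⊕ Fin N) t).mul
      ((isHomogeneous_X K (Sum.inl i)).mul (isHomogeneous_X K (Sum.inr j)))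
    simpa using h3
  exact (h1.add h2).add h3

theorem isHomog_weilAlg (t n : K) (N : ℕ) :
    IsHomog (homogeneousSubmodule (Fin N ⊕ Fin N) K) (weilAlg t n N) := by
  refine isHomog_adjoin (R := K) _ ?_
  rintro x (⟨ij, rfl⟩ | ⟨ij, rfl⟩)
  · exact ⟨2, epsP_isHomogeneous _ _ _ _⟩
  · exact ⟨2, delP_isHomogeneous _ _⟩

end Basic

section Halve

variable {K A : Type} [CommRing K] [CommRing A] [Algebra K A] (𝒜 : ℕ → Submodule K A)
  [GradedAlgebra 𝒜]

theorem isInternal_halve (h : ∀ (a : A) (i : ℕ), Odd i → (DirectSum.decompose 𝒜 a i : A) = 0) :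
    DirectSum.IsInternal fun k => 𝒜 (2 * k) := by
  classical
  have key : ∀ (x : DirectSum ℕ fun k => 𝒜 (2 * k)) (j : ℕ),
      (DirectSum.decompose 𝒜 (DirectSum.coeAddMonoidHom (fun k => 𝒜 (2 * k)) x) (2 * j) : A) =
        x j := by
    intro x j
    induction x using DirectSum.induction_on with
    | zero => simp
    | of i s =>
      rw [DirectSum.coeAddMonoidHom_of]
      by_cases hij : i = j
      · subst hij
        rw [DirectSum.decompose_of_mem_same 𝒜 s.2, DirectSum.of_eq_same]
      · rw [DirectSum.decompose_of_mem_ne 𝒜 s.2 (by omega), DirectSum.of_eq_of_ne _ _ _ (Ne.symm hij)]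
        simp
    | add x y hx hy =>
      rw [map_add, DirectSum.decompose_add, DirectSum.add_apply, DirectSum.add_apply,
        Submodule.coe_add, Submodule.coe_add, hx, hy]
  constructor
  · intro x y hxy
    ext j
    rw [← key x j, ← key y j]
    change DirectSum.coeAddMonoidHom _ x = DirectSum.coeAddMonoidHom _ y at hxy
    rw [hxy]
  · intro a
    refine ⟨∑ i ∈ (DirectSum.decompose 𝒜 a).support, if hi : Even i then
      DirectSum.of (fun k => 𝒜 (2 * k)) (i / 2) ⟨DirectSum.decompose 𝒜 a i, by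
        rw [Nat.two_mul_div_two_of_even hi]
        exact (DirectSum.decompose 𝒜 a i).2⟩ else 0, ?_⟩
    rw [map_sum]
    conv_rhs => rw [← DirectSum.sum_support_decompose 𝒜 a]
    refine Finset.sum_congr rfl fun i _ => ?_
    split_ifs with hi
    · rw [DirectSum.coeAddMonoidHom_of]
    · rw [map_zero, h a i (Nat.not_even_iff_odd.mp hi)]

end Halve

section Grading

variable {K : Type} [CommRing K] {N : ℕ}

theorem decompose_odd_weilAlg (t n : K) (x : CoordRing K N) (hx : x ∈ weilAlg t n N) :
    ∀ i, Odd i →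
      (DirectSum.decompose (homogeneousSubmodule (Fin N ⊕ Fin N) K) x i : CoordRing K N) = 0 := by
  classical
  unfold weilAlg at hx
  induction hx using Algebra.adjoin_induction with
  | mem x hx =>
    intro i hi
    have h2 : x ∈ homogeneousSubmodule (Fin N ⊕ Fin N) K 2 := by
      rcases hx with ⟨ij, rfl⟩ | ⟨ij, rfl⟩
      · exact epsP_isHomogeneous _ _ _ _
      · exact delP_isHomogeneous _ _
    refine DirectSum.decompose_of_mem_ne _ h2 ?_
    rintro rfl
    exact absurd hi (by decide)
  | algebraMap r =>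
    intro i hi
    refine DirectSum.decompose_of_mem_ne _ (SetLike.algebraMap_mem_graded _ _) ?_
    rintro rfl
    exact absurd hi (by decide)
  | add x y _ _ hx hy =>
    intro i hi
    rw [DirectSum.decompose_add, DirectSum.add_apply, Submodule.coe_add, hx i hi, hy i hi,
      add_zero]
  | mul x y _ _ hx hy =>
    intro i hi
    conv_lhs => rw [← DirectSum.sum_support_decompose (homogeneousSubmodule (Fin N ⊕ Fin N) K) x]
    rw [Finset.sum_mul, DirectSum.decompose_sum, DFinsupp.finsetSum_apply,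
      AddSubmonoidClass.coe_finsetSum]
    refine Finset.sum_eq_zero fun j _ => ?_
    rw [DirectSum.coe_decompose_mul_of_left_mem _ _ (DirectSum.decompose _ x j).2]
    split_ifs with hji
    · rcases Nat.even_or_odd j with hj | hj
      · rw [hy (i - j) (Nat.Odd.sub_even hji hi hj), mul_zero]
      · rw [hx j hj, zero_mul]
    · rfl

theorem isInternal_weilGr (t n : K) (N : ℕ) : DirectSum.IsInternal (weilGr t n N) := by
  let := subGradedAlgebra (R := K) (homogeneousSubmodule (Fin N ⊕ Fin N) K)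
    (isHomog_weilAlg t n N)
  refine isInternal_halve (subGr (homogeneousSubmodule (Fin N ⊕ Fin N) K) (weilAlg t n N)) ?_
  intro a i hi
  apply Subtype.ext
  rw [coe_decompose_subGr (R := K) _ (isHomog_weilAlg t n N) a i]
  exact decompose_odd_weilAlg (N := N) t n (a : CoordRing K N) a.2 i hi

theorem gradedMonoid_weilGr (t n : K) (N : ℕ) : SetLike.GradedMonoid (weilGr t n N) where
  one_mem := by
    change ((1 : weilAlg t n N) : CoordRing K N) ∈ homogeneousSubmodule (Fin N ⊕ Fin N) K (2 * 0)
    exact isHomogeneous_one _ _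
  mul_mem i j a b ha hb := by
    change ((a * b : weilAlg t n N) : CoordRing K N) ∈
      homogeneousSubmodule (Fin N ⊕ Fin N) K (2 * (i + j))
    rw [mul_add]
    exact IsHomogeneous.mul ha hb

/-- The graded algebra structure (its decomposition map is determined by the grading). -/
noncomputable instance weilGradedAlgebra (t n : K) (N : ℕ) : GradedAlgebra (weilGr t n N) :=
  { (isInternal_weilGr t n N).chooseDecomposition, gradedMonoid_weilGr t n N with }

end Grading

end Pool.Agent.Lib.MP_6a3dac_ag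
end
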