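import Mathlib
import Pool.Agent.Lib.MP_6a3dac_ag.Defs
import Pool.Agent.Lib.MP_6a3dac_ag.Mg.G001
import Pool.Agent.Lib.MP_6a3dac_ag.Mg.G006
import Pool.Agent.Lib.MP_6a3dac_ag.QWPres

section

/-!
# The grading on the quotient of a graded algebra by a homogeneous ideal
-/

set_option autoImplicit false

namespace Pool.Agent.Lib.MP_6a3dac_ag

variable {K A : Type*} [CommRing K] [CommRing A] [Algebra K A]
  (𝒜 : ℕ → Submodule K A) [GradedAlgebra 𝒜] (I : Ideal A)

omit [GradedAlgebra 𝒜] in
theorem mem_quotGr {i : ℕ} {x : A ⧸ I} :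
    x ∈ quotGr 𝒜 I i ↔ ∃ a ∈ 𝒜 i, Ideal.Quotient.mk I a = x := Iff.rfl

instance quotGr_gradedMonoid : SetLike.GradedMonoid (quotGr 𝒜 I) where
  one_mem := ⟨1, SetLike.GradedOne.one_mem, map_one (Ideal.Quotient.mk I)⟩
  mul_mem := by
    rintro i j _ _ ⟨a, ha, rfl⟩ ⟨b, hb, rfl⟩
    exact ⟨a * b, SetLike.mul_mem_graded ha hb, map_mul (Ideal.Quotient.mk I) _ _⟩

/-- The projection of the degree-`i` part. -/
def quotGrMk (i : ℕ) : 𝒜 i →+ quotGr 𝒜 I i where
  toFun a := ⟨Ideal.Quotient.mk I a, a, a.2, rfl⟩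
  map_zero' := by ext; simp
  map_add' a b := by ext; simp

/-- The decomposition on representatives. -/
noncomputable def quotGrDecompAux : A →+ DirectSum ℕ (fun i => quotGr 𝒜 I i) :=
  (DirectSum.map (quotGrMk 𝒜 I)).comp
    (DirectSum.decomposeAddEquiv 𝒜).toAddMonoidHom

theorem quotGrDecompAux_apply (a : A) (i : ℕ) :
    ((quotGrDecompAux 𝒜 I a i : quotGr 𝒜 I i) : A ⧸ I) =
      Ideal.Quotient.mk I (DirectSum.decompose 𝒜 a i : A) := by
  rw [quotGrDecompAux, AddMonoidHom.comp_apply, DirectSum.map_apply]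
  rfl

/-- The decomposition of the quotient. -/
noncomputable def quotGrDecomp (hI : I.IsHomogeneous 𝒜) :
    (A ⧸ I) →+ DirectSum ℕ (fun i => quotGr 𝒜 I i) :=
  QuotientAddGroup.lift (Submodule.toAddSubgroup I) (quotGrDecompAux 𝒜 I) (by
    intro a ha
    rw [AddMonoidHom.mem_ker]
    ext i
    rw [quotGrDecompAux_apply]
    rw [DirectSum.zero_apply, Submodule.coe_zero, Ideal.Quotient.eq_zero_iff_mem]
    exact hI i ha)

theorem quotGrDecomp_mk (hI : I.IsHomogeneous 𝒜) (a : A) :
    quotGrDecomp 𝒜 I hI (Ideal.Quotient.mk I a) = quotGrDecompAux 𝒜 I a := rfl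

/-- The decomposition of the quotient of a graded algebra by a homogeneous ideal. -/
@[reducible]
noncomputable def quotDecomposition (hI : I.IsHomogeneous 𝒜) :
    DirectSum.Decomposition (quotGr 𝒜 I) :=
  DirectSum.Decomposition.ofAddHom (quotGr 𝒜 I) (quotGrDecomp 𝒜 I hI)
      (by
        classical
        ext x
        obtain ⟨a, rfl⟩ := Ideal.Quotient.mk_surjective x
        rw [AddMonoidHom.comp_apply, quotGrDecomp_mk, AddMonoidHom.id_apply]
        induction a using DirectSum.Decomposition.inductionOn 𝒜 with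
        | zero => simp
        | homogeneous m =>
          rename_i i
          have : quotGrDecompAux 𝒜 I (m : A) = DirectSum.of (fun i => quotGr 𝒜 I i) i
              (quotGrMk 𝒜 I i m) := by
            rw [quotGrDecompAux, AddMonoidHom.comp_apply]
            change DirectSum.map _ (DirectSum.decompose 𝒜 (m : A)) = _
            rw [DirectSum.decompose_coe, DirectSum.map_of]
          rw [this, DirectSum.coeAddMonoidHom_of]
          rfl
        | add a b ha hb =>
          rw [map_add, map_add, ha, hb, map_add])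
      (by
        classical
        ext i x : 2
        obtain ⟨x, a, ha, rfl⟩ := x
        rw [AddMonoidHom.comp_apply, AddMonoidHom.comp_apply, DirectSum.coeAddMonoidHom_of]
        change quotGrDecompAux 𝒜 I a = DirectSum.of (fun i => quotGr 𝒜 I i) i _
        rw [quotGrDecompAux, AddMonoidHom.comp_apply]
        change DirectSum.map _ (DirectSum.decompose 𝒜 a) = _
        rw [DirectSum.decompose_of_mem 𝒜 ha, DirectSum.map_of]
        rfl)

theorem isInternal_quotGr (hI : I.IsHomogeneous 𝒜) : DirectSum.IsInternal (quotGr 𝒜 I) :=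
  let := quotDecomposition 𝒜 I hI
  DirectSum.Decomposition.isInternal _

end Pool.Agent.Lib.MP_6a3dac_ag
end

section

/-!
# The ideal of a quadric is homogeneous
-/

set_option autoImplicit false

namespace Pool.Agent.Lib.MP_6a3dac_ag

open MvPolynomial

attribute [local instance] MvPolynomial.gradedAlgebra

theorem isHomogeneous_span_quadPoly {K : Type} [CommRing K] {n : ℕ}
    (B : Matrix (Fin n) (Fin n) K) :
    (Ideal.span {quadPoly B}).IsHomogeneous (homogeneousSubmodule (Fin n) K) := by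
  apply Ideal.homogeneous_span
  rintro _ rfl
  exact ⟨2, quadPoly_isHomogeneous B⟩

theorem isInternal_quadricGr {K : Type} [CommRing K] {n : ℕ} (B : Matrix (Fin n) (Fin n) K) :
    DirectSum.IsInternal (quadricGr B) :=
  isInternal_quotGr (homogeneousSubmodule (Fin n) K) _ (isHomogeneous_span_quadPoly B)

theorem gradedMonoid_quadricGr {K : Type} [CommRing K] {n : ℕ} (B : Matrix (Fin n) (Fin n) K) :
    SetLike.GradedMonoid (quadricGr B) :=
  quotGr_gradedMonoid (homogeneousSubmodule (Fin n) K) _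

end Pool.Agent.Lib.MP_6a3dac_ag
end

section

/-!
# The graded ring structure on the homogeneous coordinate ring of a quadric
-/

set_option autoImplicit false

namespace Pool.Agent.Lib.MP_6a3dac_ag

/-- The grading `quadricGr B` makes the homogeneous coordinate ring a graded algebra (its
decomposition map is determined by the grading). -/
noncomputable instance quadricGradedAlgebra {K : Type} [CommRing K] {n : ℕ}
    (B : Matrix (Fin n) (Fin n) K) : GradedAlgebra (quadricGr B) :=
  { (isInternal_quadricGr B).chooseDecomposition, gradedMonoid_quadricGr B with }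

end Pool.Agent.Lib.MP_6a3dac_ag
end

section

/-!
# Weil restrictions of projective schemes along quadratic extensions: the basic definitions

Let `L / K` be a quadratic extension with involution `σ`, let `O → L` be a ring homomorphism and
let `𝔞` be a homogeneous ideal of `O[x_1, ..., x_n]`.  With `Y` the closed subscheme of the
projective space over `L` defined by `𝔞` we describe the homogeneous coordinate ring of the Weil
restriction of `Y` from `L` to `K`.
-/

set_option autoImplicit false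

namespace Pool.Agent.Lib.MP_6a3dac_ag

open MvPolynomial CategoryTheory Limits AlgebraicGeometry

attribute [local instance] MvPolynomial.gradedAlgebra

section Coord

variable {O : Type} [CommRing O] {n : ℕ}

/-- The homogeneous coordinate ring `O[x_1, ..., x_n] / 𝔞`. -/
abbrev CoordQuot (𝔞 : HomogeneousIdeal (homogeneousSubmodule (Fin n) O)) : Type :=
  MvPolynomial (Fin n) O ⧸ 𝔞.toIdeal

/-- The grading of the homogeneous coordinate ring `O[x_1, ..., x_n] / 𝔞`: the degree-`k` part
consists of the classes of the homogeneous polynomials of degree `k`. -/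
noncomputable def coordGr (𝔞 : HomogeneousIdeal (homogeneousSubmodule (Fin n) O)) :
    ℕ → Submodule O (CoordQuot 𝔞) :=
  quotGr (homogeneousSubmodule (Fin n) O) 𝔞.toIdeal

theorem isInternal_coordGr (𝔞 : HomogeneousIdeal (homogeneousSubmodule (Fin n) O)) :
    DirectSum.IsInternal (coordGr 𝔞) :=
  isInternal_quotGr _ _ 𝔞.isHomogeneous

theorem gradedMonoid_coordGr (𝔞 : HomogeneousIdeal (homogeneousSubmodule (Fin n) O)) :
    SetLike.GradedMonoid (coordGr 𝔞) :=
  quotGr_gradedMonoid _ _

/-- The graded algebra structure (its decomposition map is determined by the grading). -/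
noncomputable instance coordGradedAlgebra
    (𝔞 : HomogeneousIdeal (homogeneousSubmodule (Fin n) O)) : GradedAlgebra (coordGr 𝔞) :=
  { (isInternal_coordGr 𝔞).chooseDecomposition, gradedMonoid_coordGr 𝔞 with }

/-- The scheme `𝒴 = Proj (O[x_1, ..., x_n] / 𝔞)` is smooth over the localization of `O` at the prime
`𝔓`: the base change of `𝒴 ⟶ Spec O` along `Spec O_𝔓 ⟶ Spec O` is smooth. -/
def SmoothAt (𝔞 : HomogeneousIdeal (homogeneousSubmodule (Fin n) O)) (𝔓 : Ideal O) [𝔓.IsPrime] :
    Prop :=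
  Smooth (pullback.snd (projTo O (coordGr 𝔞))
    (Spec.map (CommRingCat.ofHom (algebraMap O (Localization.AtPrime 𝔓)))))

end Coord

section Weil

variable {K L O : Type} [Field K] [Field L] [Algebra K L] [CommRing O] [Algebra O L] {n : ℕ}

/-- The ideal of `L[x_1, ..., x_n, y_1, ..., y_n]` generated by the polynomials `f(x_1, ..., x_n)`
and `f^σ(y_1, ..., y_n)`, where `f` runs through the elements of `𝔞` and `f^σ` is obtained from
`f` by applying `σ` to the coefficients. -/
noncomputable def pairIdeal (σ : L ≃ₐ[K] L)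
    (𝔞 : HomogeneousIdeal (homogeneousSubmodule (Fin n) O)) :
    Ideal (MvPolynomial (Fin n ⊕ Fin n) L) :=
  𝔞.toIdeal.map (xHom O L n) ⊔ 𝔞.toIdeal.map (yHom O σ n)

omit [Algebra K L] in
theorem xHom_eq (n : ℕ) (f : MvPolynomial (Fin n) O) :
    xHom O L n f = rename Sum.inl (MvPolynomial.map (algebraMap O L) f) := by
  have h : (xHom O L n : MvPolynomial (Fin n) O →+* MvPolynomial (Fin n ⊕ Fin n) L) =
      ((rename Sum.inl : MvPolynomial (Fin n) L →ₐ[L] _).toRingHom).comp
        (MvPolynomial.map (algebraMap O L)) := by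
    apply MvPolynomial.ringHom_ext
    · intro r
      simp [xHom]
    · intro i
      simp [xHom]
  rw [h]
  rfl

theorem yHom_eq (σ : L ≃ₐ[K] L) (n : ℕ) (f : MvPolynomial (Fin n) O) :
    yHom O σ n f =
      rename Sum.inr (MvPolynomial.map ((σ : L →+* L).comp (algebraMap O L)) f) := by
  have h : (yHom O σ n : MvPolynomial (Fin n) O →+* MvPolynomial (Fin n ⊕ Fin n) L) =
      ((rename Sum.inr : MvPolynomial (Fin n) L →ₐ[L] _).toRingHom).comp
        (MvPolynomial.map ((σ : L →+* L).comp (algebraMap O L))) := by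
    apply MvPolynomial.ringHom_ext
    · intro r
      simp [yHom]
    · intro i
      simp [yHom]
  rw [h]
  rfl

theorem pairIdeal_eq (σ : L ≃ₐ[K] L)
    (𝔞 : HomogeneousIdeal (homogeneousSubmodule (Fin n) O)) :
    pairIdeal σ 𝔞 =
  Ideal.span ((fun f => rename Sum.inl (MvPolynomial.map (algebraMap O L) f)) ''
      (𝔞.toIdeal : Set (MvPolynomial (Fin n) O)) ∪
    (fun f => rename Sum.inr (MvPolynomial.map ((σ : L →+* L).comp (algebraMap O L)) f)) ''
      (𝔞.toIdeal : Set (MvPolynomial (Fin n) O))) := by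
  rw [pairIdeal, Ideal.span_union]
  congr 1
  · exact congrArg Ideal.span (Set.image_congr fun f _ => xHom_eq n f)
  · exact congrArg Ideal.span (Set.image_congr fun f _ => yHom_eq σ n f)

theorem inl_mem_pairIdeal (σ : L ≃ₐ[K] L)
    (𝔞 : HomogeneousIdeal (homogeneousSubmodule (Fin n) O)) {f : MvPolynomial (Fin n) O}
    (hf : f ∈ 𝔞.toIdeal) :
    rename Sum.inl (MvPolynomial.map (algebraMap O L) f) ∈ pairIdeal σ 𝔞 := by
  rw [pairIdeal_eq]
  exact Ideal.subset_span (Or.inl ⟨f, hf, rfl⟩)

theorem inr_mem_pairIdeal (σ : L ≃ₐ[K] L)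
    (𝔞 : HomogeneousIdeal (homogeneousSubmodule (Fin n) O)) {f : MvPolynomial (Fin n) O}
    (hf : f ∈ 𝔞.toIdeal) :
    rename Sum.inr (MvPolynomial.map ((σ : L →+* L).comp (algebraMap O L)) f) ∈
      pairIdeal σ 𝔞 := by
  rw [pairIdeal_eq]
  exact Ideal.subset_span (Or.inr ⟨f, hf, rfl⟩)

/-- The bihomogeneous coordinate ring of `Y × Y^σ`. -/
abbrev PairRing (σ : L ≃ₐ[K] L) (𝔞 : HomogeneousIdeal (homogeneousSubmodule (Fin n) O)) : Type :=
  MvPolynomial (Fin n ⊕ Fin n) L ⧸ pairIdeal σ 𝔞

/-- The `σ`-semilinear involution `x_i ↦ y_i`, `y_i ↦ x_i` of the polynomial ring. -/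
noncomputable def swapPoly (n : ℕ) (σ : L ≃ₐ[K] L) :
    MvPolynomial (Fin n ⊕ Fin n) L →+* MvPolynomial (Fin n ⊕ Fin n) L :=
  (rename Sum.swap : MvPolynomial (Fin n ⊕ Fin n) L →ₐ[L] _).toRingHom.comp
    (MvPolynomial.map (σ : L →+* L))

/-- The subalgebra generated by the products `x_i y_j`, the homogeneous coordinate ring of the
Segre embedding of `Y × Y^σ`. -/
noncomputable def segreAlg (σ : L ≃ₐ[K] L)
    (𝔞 : HomogeneousIdeal (homogeneousSubmodule (Fin n) O)) : Subalgebra L (PairRing σ 𝔞) :=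
  Algebra.adjoin L (Set.range fun ij : Fin n × Fin n =>
    Ideal.Quotient.mk (pairIdeal σ 𝔞) (X (Sum.inl ij.1) * X (Sum.inr ij.2)))

/-- The homogeneous coordinate ring of the Weil restriction of `Y` in its Segre embedding: the
`K`-algebra of the elements of the Segre algebra which are invariant under the involution
`x_i ↦ y_i`, `y_i ↦ x_i`, `σ` on the coefficients. -/
noncomputable def resAlg (σ : L ≃ₐ[K] L)
    (𝔞 : HomogeneousIdeal (homogeneousSubmodule (Fin n) O)) : Subalgebra K (PairRing σ 𝔞) where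
  carrier := {z | z ∈ segreAlg σ 𝔞 ∧ ∃ P : MvPolynomial (Fin n ⊕ Fin n) L,
    Ideal.Quotient.mk (pairIdeal σ 𝔞) P = z ∧ Ideal.Quotient.mk (pairIdeal σ 𝔞) (swapPoly n σ P) = z}
  mul_mem' := by
    rintro z w ⟨hz, P, hP1, hP2⟩ ⟨hw, Q, hQ1, hQ2⟩
    exact ⟨mul_mem hz hw, P * Q, by rw [map_mul, hP1, hQ1], by rw [map_mul, map_mul, hP2, hQ2]⟩
  add_mem' := by
    rintro z w ⟨hz, P, hP1, hP2⟩ ⟨hw, Q, hQ1, hQ2⟩
    exact ⟨add_mem hz hw, P + Q, by rw [map_add, hP1, hQ1], by rw [map_add, map_add, hP2, hQ2]⟩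
  algebraMap_mem' := by
    intro c
    have h1 : algebraMap K (PairRing σ 𝔞) c =
        Ideal.Quotient.mk (pairIdeal σ 𝔞) (C (algebraMap K L c)) := rfl
    refine ⟨?_, C (algebraMap K L c), h1.symm, ?_⟩
    · rw [IsScalarTower.algebraMap_apply K L (PairRing σ 𝔞)]
      exact Subalgebra.algebraMap_mem _ _
    · rw [h1, swapPoly, RingHom.comp_apply, map_C]
      change Ideal.Quotient.mk (pairIdeal σ 𝔞) (rename Sum.swap (C (σ (algebraMap K L c)))) = _
      rw [rename_C, AlgEquiv.commutes]

/-- The grading of the homogeneous coordinate ring of the Weil restriction: the degree-`k` part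
consists of the elements which are represented by homogeneous polynomials of degree `2 k`. -/
noncomputable def resGr (σ : L ≃ₐ[K] L)
    (𝔞 : HomogeneousIdeal (homogeneousSubmodule (Fin n) O)) (k : ℕ) :
    Submodule K (resAlg σ 𝔞) :=
  ((quotGr (homogeneousSubmodule (Fin n ⊕ Fin n) L) (pairIdeal σ 𝔞) (2 * k)).restrictScalars
    K).comap (resAlg σ 𝔞).val.toLinearMap

end Weil

end Pool.Agent.Lib.MP_6a3dac_ag
end

section

/-!
# The grading of the coordinate ring of the Weil restriction
-/

set_option autoImplicit false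

namespace Pool.Agent.Lib.MP_6a3dac_ag

open MvPolynomial

attribute [local instance] MvPolynomial.gradedAlgebra

section Odd

variable {R K A : Type} [CommRing R] [CommRing K] [CommRing A] [Algebra R K] [Algebra K A]
  [Algebra R A] [IsScalarTower R K A] (𝒜 : ℕ → Submodule K A) [GradedAlgebra 𝒜]

/-- An algebra generated by elements of degree two lives in even degrees. -/
theorem decompose_odd_adjoin {s : Set A} (hs : ∀ x ∈ s, x ∈ 𝒜 2) {x : A}
    (hx : x ∈ Algebra.adjoin R s) : ∀ i, Odd i → (DirectSum.decompose 𝒜 x i : A) = 0 := by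
  classical
  induction hx using Algebra.adjoin_induction with
  | mem x hx =>
    intro i hi
    refine DirectSum.decompose_of_mem_ne _ (hs x hx) ?_
    rintro rfl
    exact absurd hi (by decide)
  | algebraMap r =>
    intro i hi
    rw [IsScalarTower.algebraMap_apply R K A]
    refine DirectSum.decompose_of_mem_ne _ (SetLike.algebraMap_mem_graded _ _) ?_
    rintro rfl
    exact absurd hi (by decide)
  | add x y _ _ hx hy =>
    intro i hi
    rw [DirectSum.decompose_add, DirectSum.add_apply, Submodule.coe_add, hx i hi, hy i hi,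
      add_zero]
  | mul x y _ _ hx hy =>
    intro i hi
    conv_lhs => rw [← DirectSum.sum_support_decompose 𝒜 x]
    rw [Finset.sum_mul, DirectSum.decompose_sum, DFinsupp.finsetSum_apply,
      AddSubmonoidClass.coe_finsetSum]
    refine Finset.sum_eq_zero fun j _ => ?_
    rw [DirectSum.coe_decompose_mul_of_left_mem _ _ (DirectSum.decompose _ x j).2]
    split_ifs with hji
    · rcases Nat.even_or_odd j with hj | hj
      · rw [hy (i - j) (Nat.Odd.sub_even hji hi hj), mul_zero]
      · rw [hx j hj, zero_mul]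
    · rfl

end Odd

section Quot

variable {K A : Type} [CommRing K] [CommRing A] [Algebra K A] (𝒜 : ℕ → Submodule K A)
  [GradedAlgebra 𝒜] (I : Ideal A)

/-- The components of the class of an element are the classes of its components. -/
theorem decompose_mk [GradedAlgebra (quotGr 𝒜 I)] (a : A) (i : ℕ) :
    (DirectSum.decompose (quotGr 𝒜 I) (Ideal.Quotient.mk I a) i : A ⧸ I) =
      Ideal.Quotient.mk I (DirectSum.decompose 𝒜 a i : A) := by
  classical
  conv_lhs => rw [← DirectSum.sum_support_decompose 𝒜 a, map_sum, DirectSum.decompose_sum,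
    DFinsupp.finsetSum_apply, AddSubmonoidClass.coe_finsetSum]
  have h1 : ∀ k ∈ (DirectSum.decompose 𝒜 a).support, (DirectSum.decompose (quotGr 𝒜 I)
      (Ideal.Quotient.mk I (DirectSum.decompose 𝒜 a k : A)) i : A ⧸ I) = if k = i then
        Ideal.Quotient.mk I (DirectSum.decompose 𝒜 a i : A) else 0 := by
    intro k _
    have hk : Ideal.Quotient.mk I (DirectSum.decompose 𝒜 a k : A) ∈ quotGr 𝒜 I k :=
      ⟨_, (DirectSum.decompose 𝒜 a k).2, rfl⟩
    split_ifs with hki
    · subst hki
      rw [DirectSum.decompose_of_mem_same (quotGr 𝒜 I) hk]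
    · rw [DirectSum.decompose_of_mem_ne (quotGr 𝒜 I) hk hki]
  rw [Finset.sum_congr rfl h1, Finset.sum_ite_eq']
  split_ifs with h2
  · rfl
  · rw [DFinsupp.notMem_support_iff] at h2
    rw [h2]
    simp

end Quot

section Weil

variable {K L O : Type} [Field K] [Field L] [Algebra K L] [CommRing O] [Algebra O L] {n : ℕ}
  (σ : L ≃ₐ[K] L) (𝔞 : HomogeneousIdeal (homogeneousSubmodule (Fin n) O))

theorem isHomogeneous_pairIdeal :
    (pairIdeal σ 𝔞).IsHomogeneous (homogeneousSubmodule (Fin n ⊕ Fin n) L) := by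
  classical
  have h1 : pairIdeal σ 𝔞 = Ideal.span
      ((fun f => rename Sum.inl (MvPolynomial.map (algebraMap O L) f)) ''
        {f | f ∈ 𝔞.toIdeal ∧ ∃ i, f ∈ homogeneousSubmodule (Fin n) O i} ∪
      (fun f => rename Sum.inr (MvPolynomial.map ((σ : L →+* L).comp (algebraMap O L)) f)) ''
        {f | f ∈ 𝔞.toIdeal ∧ ∃ i, f ∈ homogeneousSubmodule (Fin n) O i}) := by
    apply le_antisymm
    · rw [pairIdeal_eq, Ideal.span_le]
      rintro _ (⟨f, hf, rfl⟩ | ⟨f, hf, rfl⟩)
      · change rename Sum.inl (MvPolynomial.map (algebraMap O L) f) ∈ _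
        rw [← DirectSum.sum_support_decompose (homogeneousSubmodule (Fin n) O) f, map_sum, map_sum]
        refine Ideal.sum_mem _ fun i _ => Ideal.subset_span (Or.inl ⟨_, ⟨?_, i, ?_⟩, rfl⟩)
        · exact 𝔞.isHomogeneous i hf
        · exact (DirectSum.decompose _ f i).2
      · change rename Sum.inr (MvPolynomial.map ((σ : L →+* L).comp (algebraMap O L)) f) ∈ _
        rw [← DirectSum.sum_support_decompose (homogeneousSubmodule (Fin n) O) f, map_sum, map_sum]
        refine Ideal.sum_mem _ fun i _ => Ideal.subset_span (Or.inr ⟨_, ⟨?_, i, ?_⟩, rfl⟩)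
        · exact 𝔞.isHomogeneous i hf
        · exact (DirectSum.decompose _ f i).2
    · rw [pairIdeal_eq]
      apply Ideal.span_mono
      apply Set.union_subset_union
      · exact Set.image_mono fun f hf => hf.1
      · exact Set.image_mono fun f hf => hf.1
  rw [h1]
  apply Ideal.homogeneous_span
  rintro _ (⟨f, ⟨-, i, hi⟩, rfl⟩ | ⟨f, ⟨-, i, hi⟩, rfl⟩)
  · exact ⟨i, (IsHomogeneous.map hi _).rename_isHomogeneous⟩
  · exact ⟨i, (IsHomogeneous.map hi _).rename_isHomogeneous⟩

/-- The grading of the bihomogeneous coordinate ring by total degree. -/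
noncomputable def pairGr : ℕ → Submodule L (PairRing σ 𝔞) :=
  quotGr (homogeneousSubmodule (Fin n ⊕ Fin n) L) (pairIdeal σ 𝔞)

noncomputable instance pairGradedAlgebra : GradedAlgebra (pairGr σ 𝔞) :=
  { (isInternal_quotGr _ _ (isHomogeneous_pairIdeal σ 𝔞)).chooseDecomposition,
    quotGr_gradedMonoid _ _ with }

/-- The class of `x_i`. -/
noncomputable def xCl (i : Fin n) : PairRing σ 𝔞 := Ideal.Quotient.mk _ (X (Sum.inl i))

/-- The class of `y_i`. -/
noncomputable def yCl (i : Fin n) : PairRing σ 𝔞 := Ideal.Quotient.mk _ (X (Sum.inr i))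

theorem xCl_mul_yCl_mem (i j : Fin n) : xCl σ 𝔞 i * yCl σ 𝔞 j ∈ pairGr σ 𝔞 2 :=
  ⟨X (Sum.inl i) * X (Sum.inr j), (isHomogeneous_X _ _).mul (isHomogeneous_X _ _), rfl⟩

theorem segreAlg_eq : segreAlg σ 𝔞 = Algebra.adjoin L
    (Set.range fun ij : Fin n × Fin n => xCl σ 𝔞 ij.1 * yCl σ 𝔞 ij.2) := rfl

theorem xy_mem_segreAlg (i j : Fin n) : xCl σ 𝔞 i * yCl σ 𝔞 j ∈ segreAlg σ 𝔞 := by
  rw [segreAlg_eq]
  exact Algebra.subset_adjoin ⟨(i, j), rfl⟩

theorem isHomog_segreAlg : IsHomog (pairGr σ 𝔞) (segreAlg σ 𝔞) := by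
  rw [segreAlg_eq]
  refine isHomog_adjoin (R := L) _ ?_
  rintro x ⟨ij, rfl⟩
  exact ⟨2, xCl_mul_yCl_mem _ _ _ _⟩

theorem decompose_odd_segreAlg {x : PairRing σ 𝔞} (hx : x ∈ segreAlg σ 𝔞) (i : ℕ) (hi : Odd i) :
    (DirectSum.decompose (pairGr σ 𝔞) x i : PairRing σ 𝔞) = 0 := by
  rw [segreAlg_eq] at hx
  refine decompose_odd_adjoin (R := L) _ ?_ hx i hi
  rintro x ⟨ij, rfl⟩
  exact xCl_mul_yCl_mem _ _ _ _

/-- The grading of the Segre algebra. -/
noncomputable def segreGr (k : ℕ) : Submodule L (segreAlg σ 𝔞) :=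
  (pairGr σ 𝔞 (2 * k)).comap (segreAlg σ 𝔞).val.toLinearMap

theorem isInternal_segreGr : DirectSum.IsInternal (segreGr σ 𝔞) := by
  let := subGradedAlgebra (R := L) (pairGr σ 𝔞) (isHomog_segreAlg σ 𝔞)
  refine isInternal_halve (subGr (pairGr σ 𝔞) (segreAlg σ 𝔞)) ?_
  intro a i hi
  apply Subtype.ext
  rw [coe_decompose_subGr (R := L) _ (isHomog_segreAlg σ 𝔞) a i]
  exact decompose_odd_segreAlg σ 𝔞 a.2 i hi

theorem gradedMonoid_segreGr : SetLike.GradedMonoid (segreGr σ 𝔞) where
  one_mem := by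
    change (1 : PairRing σ 𝔞) ∈ pairGr σ 𝔞 0
    exact SetLike.GradedOne.one_mem (A := pairGr σ 𝔞)
  mul_mem i j a b ha hb := by
    change ((a * b : segreAlg σ 𝔞) : PairRing σ 𝔞) ∈ pairGr σ 𝔞 (2 * (i + j))
    rw [mul_add]
    exact SetLike.mul_mem_graded (A := pairGr σ 𝔞) ha hb

noncomputable instance segreGradedAlgebra : GradedAlgebra (segreGr σ 𝔞) :=
  { (isInternal_segreGr σ 𝔞).chooseDecomposition, gradedMonoid_segreGr σ 𝔞 with }

theorem decompose_swapPoly (P : MvPolynomial (Fin n ⊕ Fin n) L) (i : ℕ) :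
    (DirectSum.decompose (homogeneousSubmodule (Fin n ⊕ Fin n) L) (swapPoly n σ P) i :
      MvPolynomial (Fin n ⊕ Fin n) L) =
      swapPoly n σ (DirectSum.decompose (homogeneousSubmodule (Fin n ⊕ Fin n) L) P i) := by
  classical
  have hmem : ∀ k (Q : MvPolynomial (Fin n ⊕ Fin n) L), Q ∈ homogeneousSubmodule _ L k →
      swapPoly n σ Q ∈ homogeneousSubmodule _ L k := fun k Q hQ =>
    (IsHomogeneous.map hQ _).rename_isHomogeneous
  conv_lhs => rw [← DirectSum.sum_support_decompose (homogeneousSubmodule (Fin n ⊕ Fin n) L) P,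
    map_sum, DirectSum.decompose_sum, DFinsupp.finsetSum_apply, AddSubmonoidClass.coe_finsetSum]
  have h1 : ∀ k ∈ (DirectSum.decompose (homogeneousSubmodule (Fin n ⊕ Fin n) L) P).support,
      (DirectSum.decompose (homogeneousSubmodule (Fin n ⊕ Fin n) L)
      (swapPoly n σ (DirectSum.decompose (homogeneousSubmodule (Fin n ⊕ Fin n) L) P k)) i :
        MvPolynomial (Fin n ⊕ Fin n) L) = if k = i then
        swapPoly n σ (DirectSum.decompose (homogeneousSubmodule (Fin n ⊕ Fin n) L) P i) else 0 := by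
    intro k _
    have hk := hmem k _ (DirectSum.decompose (homogeneousSubmodule (Fin n ⊕ Fin n) L) P k).2
    split_ifs with hki
    · subst hki
      rw [DirectSum.decompose_of_mem_same _ hk]
    · rw [DirectSum.decompose_of_mem_ne _ hk hki]
  rw [Finset.sum_congr rfl h1, Finset.sum_ite_eq']
  split_ifs with h2
  · rfl
  · rw [DFinsupp.notMem_support_iff] at h2
    rw [h2]
    simp

theorem decompose_mk_pair (P : MvPolynomial (Fin n ⊕ Fin n) L) (i : ℕ) :
    (DirectSum.decompose (pairGr σ 𝔞) (Ideal.Quotient.mk (pairIdeal σ 𝔞) P) i : PairRing σ 𝔞) =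
      Ideal.Quotient.mk _
        (DirectSum.decompose (homogeneousSubmodule (Fin n ⊕ Fin n) L) P i :
          MvPolynomial (Fin n ⊕ Fin n) L) := by
  let : GradedAlgebra (quotGr (homogeneousSubmodule (Fin n ⊕ Fin n) L) (pairIdeal σ 𝔞)) :=
    pairGradedAlgebra σ 𝔞
  exact decompose_mk _ _ P i

theorem isHomog_resAlg : IsHomog (pairGr σ 𝔞) (resAlg σ 𝔞) := by
  rintro z ⟨hz, P, hP1, hP2⟩ i
  refine ⟨isHomog_segreAlg σ 𝔞 z hz i,
    DirectSum.decompose (homogeneousSubmodule (Fin n ⊕ Fin n) L) P i, ?_, ?_⟩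
  · rw [← hP1]
    exact (decompose_mk_pair σ 𝔞 P i).symm
  · rw [← decompose_swapPoly, ← hP2]
    exact (decompose_mk_pair σ 𝔞 (swapPoly n σ P) i).symm

theorem resAlg_le {z : PairRing σ 𝔞} (hz : z ∈ resAlg σ 𝔞) : z ∈ segreAlg σ 𝔞 := hz.1

theorem isInternal_resGr : DirectSum.IsInternal (resGr σ 𝔞) := by
  let := subGradedAlgebra (R := K) (pairGr σ 𝔞) (isHomog_resAlg σ 𝔞)
  refine isInternal_halve (subGr (pairGr σ 𝔞) (resAlg σ 𝔞)) ?_
  intro a i hi
  apply Subtype.ext
  rw [coe_decompose_subGr (R := K) _ (isHomog_resAlg σ 𝔞) a i]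
  exact decompose_odd_segreAlg σ 𝔞 a.2.1 i hi

theorem gradedMonoid_resGr : SetLike.GradedMonoid (resGr σ 𝔞) where
  one_mem := by
    change (1 : PairRing σ 𝔞) ∈ pairGr σ 𝔞 0
    exact SetLike.GradedOne.one_mem (A := pairGr σ 𝔞)
  mul_mem i j a b ha hb := by
    change ((a * b : resAlg σ 𝔞) : PairRing σ 𝔞) ∈ pairGr σ 𝔞 (2 * (i + j))
    rw [mul_add]
    exact SetLike.mul_mem_graded (A := pairGr σ 𝔞) ha hb

theorem isInternal_of_isHomog {A₀ : Subalgebra K (PairRing σ 𝔞)}
    (h : IsHomog (pairGr σ 𝔞) A₀) (hle : ∀ z ∈ A₀, z ∈ segreAlg σ 𝔞) :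
    DirectSum.IsInternal fun k =>
      ((pairGr σ 𝔞 (2 * k)).restrictScalars K).comap A₀.val.toLinearMap := by
  let := subGradedAlgebra (R := K) (pairGr σ 𝔞) h
  refine isInternal_halve (subGr (pairGr σ 𝔞) A₀) ?_
  intro a i hi
  apply Subtype.ext
  rw [coe_decompose_subGr (R := K) _ h a i]
  exact decompose_odd_segreAlg σ 𝔞 (hle _ a.2) i hi

/-- The graded algebra structure (its decomposition map is determined by the grading). -/
noncomputable instance resGradedAlgebra : GradedAlgebra (resGr σ 𝔞) :=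
  { (isInternal_resGr σ 𝔞).chooseDecomposition, gradedMonoid_resGr σ 𝔞 with }

end Weil

end Pool.Agent.Lib.MP_6a3dac_ag
end

section

/-!
# Linear algebra for systems of equations
-/

set_option autoImplicit false

namespace Pool.Agent.Lib.MP_6a3dac_ag.Sys

open Matrix

/-- A matrix over a field with independent rows has a nonzero minor of maximal size. -/
theorem exists_minor_ne_zero {L : Type} [Field L] {τ σ : Type} [Fintype τ] [DecidableEq τ]
    [Fintype σ]
    (J : Matrix τ σ L) (h : ∀ y : τ → L, y ᵥ* J = 0 → y = 0) :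
    ∃ s : τ → σ, (J.submatrix id s).det ≠ 0 := by
  classical
  -- the rows are independent, so the columns span
  have hrow : LinearIndependent L J.row := by
    rw [Fintype.linearIndependent_iff]
    intro y hy k
    have h1 : y ᵥ* J = 0 := by
      rw [← hy]
      funext j
      simp [Matrix.vecMul, dotProduct, Finset.sum_apply, Matrix.row]
    exact congrFun (h y h1) k
  have hrank : J.rank = Fintype.card τ := by
    rw [Matrix.rank_eq_finrank_span_row, finrank_span_eq_card hrow]
  have hspan : Submodule.span L (Set.range J.col) = ⊤ := by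
    apply Submodule.eq_top_of_finrank_eq
    rw [← Matrix.rank_eq_finrank_span_cols, hrank, Module.finrank_fintype_fun_eq_card]
  obtain ⟨κ, a, ha, hsp, hli⟩ := exists_linearIndependent' L J.col
  rw [hspan] at hsp
  have : Finite κ := Finite.of_injective a ha
  have := Fintype.ofFinite κ
  let b : Module.Basis κ L (τ → L) := Module.Basis.mk hli (by rw [hsp])
  have hcard : Fintype.card κ = Fintype.card τ := by
    rw [← Module.finrank_eq_card_basis b, Module.finrank_fintype_fun_eq_card]
  obtain ⟨e⟩ : Nonempty (τ ≃ κ) := Fintype.card_eq.1 hcard.symm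
  refine ⟨fun t => a (e t), ?_⟩
  have hli2 : LinearIndependent L (J.submatrix id fun t => a (e t)).col := by
    have h1 : (J.submatrix id fun t => a (e t)).col = (J.col ∘ a) ∘ e := by
      funext t
      rfl
    rw [h1]
    exact hli.comp e e.injective
  exact ((Matrix.isUnit_iff_isUnit_det _).1
    (Matrix.linearIndependent_cols_iff_isUnit.1 hli2)).ne_zero

theorem exists_minor_of_block {L : Type} [Field L] {τ σ : Type} [Fintype τ] [DecidableEq τ]
    [Fintype σ] [DecidableEq σ] (A : Matrix σ σ L) (B : Matrix τ σ L)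
    (h : (Matrix.fromBlocks A Bᵀ B 0).det ≠ 0) : ∃ s : τ → σ, (B.submatrix id s).det ≠ 0 := by
  apply exists_minor_ne_zero
  intro y hy
  have h1 : (Sum.elim (0 : σ → L) y) ᵥ* (Matrix.fromBlocks A Bᵀ B 0) = 0 := by
    rw [Matrix.vecMul_fromBlocks]
    funext i
    rcases i with i | i
    · simp [hy]
    · simp
  have h2 := Matrix.eq_zero_of_vecMul_eq_zero h h1
  funext k
  exact congrFun h2 (Sum.inr k)

theorem t5_block {L : Type} [Field L] {τ : Type} [Fintype τ] [DecidableEq τ]
    (P Q : Matrix τ τ L) (hQ : Q.det ≠ 0) : (Matrix.fromBlocks P Qᵀ Q 0).det ≠ 0 := by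
  intro h0
  obtain ⟨v, hv, h1⟩ := Matrix.exists_mulVec_eq_zero_iff.2 h0
  obtain ⟨u, w, rfl⟩ : ∃ u w : τ → L, v = Sum.elim u w :=
    ⟨fun i => v (Sum.inl i), fun i => v (Sum.inr i), by funext i; rcases i with i | i <;> rfl⟩
  rw [Matrix.fromBlocks_mulVec] at h1
  have h2 : Q *ᵥ u = 0 := by
    funext k
    have := congrFun h1 (Sum.inr k)
    simpa using this
  have hu : u = 0 := Matrix.eq_zero_of_mulVec_eq_zero hQ h2
  have h3 : Qᵀ *ᵥ w = 0 := by
    funext k
    have := congrFun h1 (Sum.inl k)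
    simpa [hu] using this
  have hw : w = 0 := Matrix.eq_zero_of_mulVec_eq_zero (by rwa [Matrix.det_transpose]) h3
  apply hv
  rw [hu, hw]
  funext i
  rcases i with i | i <;> rfl

theorem det_block_ne_zero {L : Type} [Field L] {τ σ : Type} [Fintype τ] [DecidableEq τ]
    [Fintype σ] [DecidableEq σ] (A : Matrix σ σ L) (B : Matrix τ σ L) (s : τ → σ)
    (hs : (B.submatrix id s).det ≠ 0) (M : Finset (σ ⊕ τ))
    (hM : M = (Finset.univ.image fun b => Sum.inl (s b)) ∪ Finset.univ.image Sum.inr) :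
    ((Matrix.fromBlocks A Bᵀ B 0).submatrix (fun a : {a // a ∈ M} => a.1) fun a => a.1).det ≠ 0 := by
  have hinj : Function.Injective s := by
    intro a b hab
    by_contra hne
    exact hs (Matrix.det_zero_of_column_eq hne (fun k => by simp [hab]))
  let g : τ ⊕ τ → {a // a ∈ M} := fun x => ⟨Sum.map s id x, by
    rw [hM]
    rcases x with x | x <;> simp⟩
  have hg : Function.Bijective g := by
    constructor
    · intro x y hxy
      have h1 : Sum.map s id x = Sum.map s id y := congrArg Subtype.val hxy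
      exact (hinj.sumMap Function.injective_id) h1
    · rintro ⟨a, ha⟩
      rw [hM] at ha
      simp only [Finset.mem_union, Finset.mem_image, Finset.mem_univ, true_and] at ha
      rcases ha with ⟨b, rfl⟩ | ⟨b, rfl⟩
      · exact ⟨Sum.inl b, rfl⟩
      · exact ⟨Sum.inr b, rfl⟩
  let e : τ ⊕ τ ≃ {a // a ∈ M} := Equiv.ofBijective g hg
  rw [← Matrix.det_submatrix_equiv_self e]
  have h1 : (((Matrix.fromBlocks A Bᵀ B 0).submatrix (fun a : {a // a ∈ M} => a.1)
      fun a => a.1).submatrix e e) =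
      Matrix.fromBlocks (A.submatrix s s) (B.submatrix id s)ᵀ (B.submatrix id s) 0 := by
    ext i j
    rcases i with i | i <;> rcases j with j | j <;> rfl
  rw [h1]
  exact t5_block _ _ hs

/-- The maximal minors of a product. -/
theorem det_mul_mem {R : Type} [CommRing R] {c : ℕ} {σ : Type} [Fintype σ]
    (J : Matrix (Fin c) σ R) (T : Matrix σ (Fin c) R) :
    (J * T).det ∈ Ideal.span (Set.range fun s : Fin c → σ => (J.submatrix id s).det) := by
  rw [← Matrix.det_transpose, Matrix.transpose_mul]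
  have h1 : (Tᵀ * Jᵀ).det =
      (Matrix.detRowAlternating (R := R) (n := Fin c)).toMultilinearMap
        (fun i => ∑ l, T l i • Jᵀ l) := by
    show Matrix.detRowAlternating _ = Matrix.detRowAlternating _
    congr 1
    funext i j
    simp [Matrix.mul_apply, Finset.sum_apply]
  rw [h1, MultilinearMap.map_sum]
  refine Ideal.sum_mem _ fun r _ => ?_
  rw [MultilinearMap.map_smul_univ]
  rw [smul_eq_mul]
  refine Ideal.mul_mem_left _ _ (Ideal.subset_span ⟨r, ?_⟩)
  show (J.submatrix id r).det = Matrix.det _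
  rw [← Matrix.det_transpose]
  rfl

end Pool.Agent.Lib.MP_6a3dac_ag.Sys
end
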