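import Pool.Agent.Lib.MP_6a3dac_ag.Mg.G001
import Pool.Agent.Lib.MP_6a3dac_ag.Mg.G072
import Pool.Agent.Lib.MP_6a3dac_ag.Mg.G005
import Pool.Agent.Lib.MP_6a3dac_ag.Mg.G006
import Pool.Agent.Lib.MP_6a3dac_ag.Mg.G007

section

/-!
# The integral coordinate ring of a quadric as a quotient of a polynomial ring
-/

set_option autoImplicit false

namespace Pool.Agent.Lib.MP_6a3dac_ag

open MvPolynomial IsLocalRing

section Subst

variable {K : Type*} [CommRing K] {n : ℕ}

/-- Linear substitution of variables. -/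
noncomputable def linSubst (h : Matrix (Fin n) (Fin n) K) :
    MvPolynomial (Fin n) K →ₐ[K] MvPolynomial (Fin n) K :=
  aeval fun i => ∑ j, C (h i j) * X j

theorem linSubst_X (h : Matrix (Fin n) (Fin n) K) (i : Fin n) :
    linSubst h (X i) = ∑ j, C (h i j) * X j := by
  simp [linSubst]

theorem linSubst_C (h : Matrix (Fin n) (Fin n) K) (r : K) :
    linSubst h (C r) = C r := by
  simp [linSubst, algebraMap_eq]

theorem linSubst_comp {g h : Matrix (Fin n) (Fin n) K} (hgh : g * h = 1)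
    (p : MvPolynomial (Fin n) K) : linSubst h (linSubst g p) = p := by
  have : (linSubst h).comp (linSubst g) = AlgHom.id K _ := by
    ext i : 1
    rw [AlgHom.comp_apply, linSubst_X, map_sum, AlgHom.id_apply]
    simp_rw [map_mul, linSubst_C, linSubst_X, Finset.mul_sum, ← mul_assoc, ← C_mul]
    rw [Finset.sum_comm]
    simp_rw [← Finset.sum_mul, ← map_sum, ← Matrix.mul_apply, hgh]
    rw [Finset.sum_eq_single i]
    · simp
    · intro j _ hj
      simp [Matrix.one_apply_ne (Ne.symm hj)]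
    · simp
  exact DFunLike.congr_fun this p

theorem linSubst_quadPoly (g B : Matrix (Fin n) (Fin n) K) :
    linSubst g (quadPoly B) = quadPoly (g.transpose * B * g) := by
  simp only [quadPoly, map_sum, map_mul, linSubst_C, linSubst_X]
  have h1 : ∀ k l, (C ((g.transpose * B * g) k l) : MvPolynomial (Fin n) K) * X k * X l =
      ∑ i, ∑ j, C (B i j) * (C (g i k) * X k) * (C (g j l) * X l) := by
    intro k l
    rw [Matrix.mul_apply]
    simp_rw [Matrix.mul_apply, Finset.sum_mul, map_sum, Finset.sum_mul]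
    rw [Finset.sum_comm]
    refine Finset.sum_congr rfl fun i _ => Finset.sum_congr rfl fun j _ => ?_
    rw [Matrix.transpose_apply, map_mul, map_mul]
    ring
  simp_rw [h1]
  have h2 : ∀ i j, C (B i j) * (∑ k, C (g i k) * X k) * (∑ l, C (g j l) * X l) =
      ∑ k, ∑ l, C (B i j) * (C (g i k) * X k) * (C (g j l) * X l : MvPolynomial (Fin n) K) := by
    intro i j
    rw [mul_assoc, Finset.sum_mul_sum, Finset.mul_sum]
    refine Finset.sum_congr rfl fun k _ => ?_
    rw [Finset.mul_sum]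
    refine Finset.sum_congr rfl fun l _ => by ring
  simp_rw [h2]
  calc ∑ i, ∑ j, ∑ k, ∑ l, C (B i j) * (C (g i k) * X k) * (C (g j l) * X l)
      = ∑ i, ∑ k, ∑ j, ∑ l, C (B i j) * (C (g i k) * X k) * (C (g j l) * X l) :=
        Finset.sum_congr rfl fun i _ => Finset.sum_comm
    _ = ∑ k, ∑ i, ∑ j, ∑ l, C (B i j) * (C (g i k) * X k) * (C (g j l) * X l) :=
        Finset.sum_comm
    _ = ∑ k, ∑ i, ∑ l, ∑ j, C (B i j) * (C (g i k) * X k) * (C (g j l) * X l) :=
        Finset.sum_congr rfl fun k _ => Finset.sum_congr rfl fun i _ => Finset.sum_comm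
    _ = ∑ k, ∑ l, ∑ i, ∑ j, C (B i j) * (C (g i k) * X k) * (C (g j l) * X l) :=
        Finset.sum_congr rfl fun k _ => Finset.sum_comm

theorem two_mul_quadPoly (A : Matrix (Fin n) (Fin n) K) :
    2 * quadPoly A = quadPoly (A + A.transpose) := by
  simp only [quadPoly, Matrix.add_apply, Matrix.transpose_apply, map_add, add_mul,
    Finset.sum_add_distrib]
  rw [two_mul]
  congr 1
  rw [Finset.sum_comm]
  refine Finset.sum_congr rfl fun i _ => Finset.sum_congr rfl fun j _ => by ring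

theorem quadPoly_smul (c : K) (A : Matrix (Fin n) (Fin n) K) :
    quadPoly (c • A) = C c * quadPoly A := by
  simp only [quadPoly, Finset.mul_sum, Matrix.smul_apply, smul_eq_mul, map_mul]
  refine Finset.sum_congr rfl fun i _ => Finset.sum_congr rfl fun j _ => by ring

end Subst

section Ker

variable {O K : Type*} [CommRing O] [IsDomain O] [IsDiscreteValuationRing O] [Field K]
  [Algebra O K] [IsFractionRing O K] {n : ℕ}

/-- Gauss lemma for principal ideals. -/
theorem mem_span_of_map_mem_span {π : O} (hπ : Irreducible π) {f : MvPolynomial (Fin n) O}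
    (hf : ¬ C π ∣ f) {p : MvPolynomial (Fin n) O}
    (hp : MvPolynomial.map (algebraMap O K) p ∈
      Ideal.span {MvPolynomial.map (algebraMap O K) f}) : p ∈ Ideal.span {f} := by
  obtain ⟨q, hq⟩ := Ideal.mem_span_singleton.mp hp
  -- clear denominators
  have hden : ∃ (d : O) (q' : MvPolynomial (Fin n) O), d ≠ 0 ∧
      MvPolynomial.map (algebraMap O K) q' = C (algebraMap O K d) * q := by
    classical
    obtain ⟨d, hd⟩ := IsLocalization.exist_integer_multiples_of_finset (nonZeroDivisors O)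
      (q.support.image fun m => q.coeff m)
    have hd' : ∀ m, ∃ x : O, algebraMap O K x = (d : O) • q.coeff m := by
      intro m
      by_cases hm : m ∈ q.support
      · exact hd _ (Finset.mem_image_of_mem _ hm)
      · rw [notMem_support_iff.mp hm]
        exact ⟨0, by simp⟩
    choose x hx using hd'
    refine ⟨d, ∑ m ∈ q.support, monomial m (x m), nonZeroDivisors.ne_zero d.2, ?_⟩
    rw [map_sum]
    conv_rhs => rw [q.as_sum, Finset.mul_sum]
    refine Finset.sum_congr rfl fun m _ => ?_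
    rw [map_monomial, hx, C_mul_monomial, Algebra.smul_def]
  obtain ⟨d, q', hd, hq'⟩ := hden
  have hinj : Function.Injective (MvPolynomial.map (σ := Fin n) (algebraMap O K)) :=
    map_injective _ (IsFractionRing.injective O K)
  have h1 : C d * p = f * q' := by
    apply hinj
    rw [map_mul, map_mul, hq', hq, map_C]
    ring
  obtain ⟨m, u, hdu⟩ := IsDiscreteValuationRing.eq_unit_mul_pow_irreducible hd hπ
  have hprime : Prime (C π : MvPolynomial (Fin n) O) :=
    (MvPolynomial.prime_C_iff (Fin n)).mpr hπ.prime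
  have h2 : (C π : MvPolynomial (Fin n) O) ^ m ∣ f * q' := by
    rw [← h1, hdu, map_mul, map_pow]
    exact ⟨C (u : O) * p, by ring⟩
  obtain ⟨q'', hq''⟩ := hprime.pow_dvd_of_dvd_mul_left m hf h2
  have h3 : (C π : MvPolynomial (Fin n) O) ^ m * (C (u : O) * p) = C π ^ m * (f * q'') := by
    calc (C π : MvPolynomial (Fin n) O) ^ m * (C (u : O) * p) = C d * p := by
          rw [hdu, map_mul, map_pow]; ring
      _ = f * q' := h1
      _ = _ := by rw [hq'']; ring
  have h4 := mul_left_cancel₀ (pow_ne_zero m hprime.ne_zero) h3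
  rw [Ideal.mem_span_singleton]
  refine ⟨C (↑(u⁻¹) : O) * q'', ?_⟩
  have h5 : (C (↑(u⁻¹) : O) : MvPolynomial (Fin n) O) * C (u : O) = 1 := by
    rw [← C_mul, u.inv_mul, C_1]
  calc p = (C (↑(u⁻¹) : O) * C (u : O)) * p := by rw [h5, one_mul]
    _ = C (↑(u⁻¹) : O) * (C (u : O) * p) := by ring
    _ = _ := by rw [h4]; ring

end Ker

section Prim

variable {O : Type} [CommRing O] [IsDomain O] [IsDiscreteValuationRing O] {n : ℕ}

theorem GoodForm.not_dvd (hn : 2 ≤ n) {A : Matrix (Fin n) (Fin n) O} {i₀ : Fin n}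
    (h : GoodForm A i₀) {π : O} (hπ : Irreducible π) : ¬ C π ∣ quadPoly A := by
  intro hdvd
  obtain ⟨l, hl⟩ : ∃ l : Fin n, l ≠ i₀ := by
    have : Nontrivial (Fin n) := Fin.nontrivial_iff_two_le.mpr hn
    exact exists_ne i₀
  have hπ0 : residue O π = 0 := by
    rw [residue_eq_zero_iff]
    exact hπ.not_isUnit
  obtain ⟨q, hq⟩ := hdvd
  have h1 := (h.rad (ResidueField O) (residue O) (fun x hx => (residue_eq_zero_iff x).mpr hx)
    (Pi.single l 1) ?_ ?_).1 l hl
  · simp at h1
  · intro i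
    have h2 : pderiv i (quadPoly A) = C π * pderiv i q := by
      rw [hq, pderiv_C_mul]
    have h3 := congrArg (eval₂Hom (residue O) (Pi.single l 1 : Fin n → ResidueField O)) h2
    rw [pderiv_quadPoly, map_mul, map_sum] at h3
    simp only [coe_eval₂Hom, eval₂_C, hπ0, zero_mul, eval₂_mul, eval₂_X] at h3
    exact h3
  · have h3 := congrArg (eval₂Hom (residue O) (Pi.single l 1 : Fin n → ResidueField O)) hq
    rw [eval₂_quadPoly, map_mul] at h3
    simp only [coe_eval₂Hom, eval₂_C, hπ0, zero_mul] at h3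
    exact h3

end Prim

section Psi

variable {O K : Type*} [CommRing O] [IsDomain O] [IsDiscreteValuationRing O] [Field K]
  [Algebra O K] [IsFractionRing O K] {n : ℕ}

/-- The ring homomorphism from the integral polynomial ring to the coordinate ring of the cone over
the quadric, in the coordinates given by the matrix `h`. -/
noncomputable def psi (O : Type*) [CommRing O] [Algebra O K] (B h : Matrix (Fin n) (Fin n) K) :
    MvPolynomial (Fin n) O →+* MvPolynomial (Fin n) K ⧸ Ideal.span {quadPoly B} :=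
  (Ideal.Quotient.mk _).comp ((linSubst h).toRingHom.comp (MvPolynomial.map (algebraMap O K)))

omit [IsDomain O] [IsDiscreteValuationRing O] [IsFractionRing O K] in
theorem psi_apply (B h : Matrix (Fin n) (Fin n) K) (p : MvPolynomial (Fin n) O) :
    psi O B h p = Ideal.Quotient.mk _ (linSubst h (MvPolynomial.map (algebraMap O K) p)) := rfl

theorem ker_psi [CharZero K] {B g h : Matrix (Fin n) (Fin n) K} (hgh : g * h = 1)
    (hhg : h * g = 1) {c : K} (hc : c ≠ 0) {A : Matrix (Fin n) (Fin n) O}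
    (e : (A + A.transpose).map (algebraMap O K) = c • (g.transpose * (B + B.transpose) * g))
    {π : O} (hπ : Irreducible π) (hA : ¬ C π ∣ quadPoly A) :
    RingHom.ker (psi O B h) = Ideal.span {quadPoly A} := by
  -- the relation between the quadratic polynomials
  have h2 : (2 : MvPolynomial (Fin n) K) ≠ 0 := by
    have : (2 : MvPolynomial (Fin n) K) = C 2 := (map_ofNat C 2).symm
    rw [this, Ne, C_eq_zero]
    exact two_ne_zero
  have hrel : MvPolynomial.map (algebraMap O K) (quadPoly A) = C c * linSubst g (quadPoly B) := by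
    apply mul_left_cancel₀ h2
    have e1 : MvPolynomial.map (algebraMap O K) (2 * quadPoly A) =
        2 * MvPolynomial.map (algebraMap O K) (quadPoly A) := by
      rw [map_mul, map_ofNat]
    have e2 : linSubst g (2 * quadPoly B) = 2 * linSubst g (quadPoly B) := by
      rw [map_mul, map_ofNat]
    rw [← e1, two_mul_quadPoly, map_quadPoly, e, quadPoly_smul]
    calc C c * quadPoly (g.transpose * (B + B.transpose) * g)
        = C c * linSubst g (2 * quadPoly B) := by rw [two_mul_quadPoly, linSubst_quadPoly]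
      _ = _ := by rw [e2]; ring
  ext p
  rw [RingHom.mem_ker, psi_apply, Ideal.Quotient.eq_zero_iff_mem]
  constructor
  · intro hp
    apply mem_span_of_map_mem_span (K := K) hπ hA
    obtain ⟨q, hq⟩ := Ideal.mem_span_singleton.mp hp
    have h3 := congrArg (linSubst g) hq
    rw [linSubst_comp hhg, map_mul] at h3
    rw [Ideal.mem_span_singleton, h3, hrel]
    refine ⟨C c⁻¹ * linSubst g q, ?_⟩
    have h4 : (C c : MvPolynomial (Fin n) K) * C c⁻¹ = 1 := by
      rw [← C_mul, mul_inv_cancel₀ hc, C_1]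
    calc linSubst g (quadPoly B) * linSubst g q
        = (C c * C c⁻¹) * (linSubst g (quadPoly B) * linSubst g q) := by rw [h4, one_mul]
      _ = _ := by ring
  · intro hp
    obtain ⟨q, hq⟩ := Ideal.mem_span_singleton.mp hp
    rw [Ideal.mem_span_singleton, hq, map_mul, hrel, map_mul, map_mul, linSubst_comp hgh,
      linSubst_C]
    exact ⟨C c * linSubst h (MvPolynomial.map (algebraMap O K) q), by ring⟩

end Psi

end Pool.Agent.Lib.MP_6a3dac_ag
end

section

/-!
# Integral forms split along the singular radical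
-/

set_option autoImplicit false

namespace Pool.Agent.Lib.MP_6a3dac_ag

open Matrix Module IsLocalRing

/-- A quadratic form over a local ring `O` written as `q + π (c + h)`, where `h` only involves the
variables in `W`, `q` only involves the variables outside `W`, and `c` involves products of a
variable outside `W` and a variable in `W`; both `q` and `h` have no nonzero singular vectors in
the radical over fields containing the residue field. -/
structure SplitForm {O : Type} [CommRing O] [IsLocalRing O] {n : ℕ} (π : O)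
    (q c h : Matrix (Fin n) (Fin n) O) (W : Finset (Fin n)) : Prop where
  q_zero : ∀ i j, (i ∈ W ∨ j ∈ W) → q i j = 0
  c_zero : ∀ i j, (i ∈ W ∨ j ∉ W) → c i j = 0
  h_zero : ∀ i j, (i ∉ W ∨ j ∉ W) → h i j = 0
  det_ne : ((q + π • (c + h)) + (q + π • (c + h))ᵀ).det ≠ 0
  radq : ∀ (κ : Type) [Field κ] (φ : O →+* κ), (∀ x ∈ maximalIdeal O, φ x = 0) →
    ∀ v : Fin n → κ, (q.map φ + (q.map φ)ᵀ) *ᵥ v = 0 → qf (q.map φ) v = 0 → ∀ l, l ∉ W → v l = 0
  radh : ∀ (κ : Type) [Field κ] (φ : O →+* κ), (∀ x ∈ maximalIdeal O, φ x = 0) →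
    ∀ v : Fin n → κ, (h.map φ + (h.map φ)ᵀ) *ᵥ v = 0 → qf (h.map φ) v = 0 → ∀ l, l ∈ W → v l = 0
  ne_univ : W ≠ Finset.univ

section Aux

variable {O : Type} [CommRing O] [IsLocalRing O] [Finite (ResidueField O)] {n : ℕ}

theorem rad_aux' (A : Matrix (Fin n) (Fin n) O) {κ : Type} [Field κ] (φ : O →+* κ)
    (hφ : ∀ x ∈ maximalIdeal O, φ x = 0) (w : Fin n → κ)
    (h1 : (A.map φ + (A.map φ)ᵀ) *ᵥ w = 0) (h2 : qf (A.map φ) w = 0) (s : Finset (Fin n))
    (hr : ∀ x ∈ nullSub (A.map (residue O)), ∀ l, l ∉ s → x l = 0) :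
    ∀ l, l ∉ s → w l = 0 := by
  classical
  let φ' : ResidueField O →+* κ := Ideal.Quotient.lift (maximalIdeal O) φ hφ
  let : Algebra (ResidueField O) κ := φ'.toAlgebra
  have hcomp : ∀ x, algebraMap (ResidueField O) κ (residue O x) = φ x := fun x => rfl
  have hA : (A.map (residue O)).map (algebraMap (ResidueField O) κ) = A.map φ := by
    ext i j
    exact hcomp _
  obtain ⟨t, ω, x, hx, hw⟩ := exists_expansion (A.map (residue O)) w (by rw [hA]; exact h1)
    (by rw [hA]; exact h2)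
  intro l hl
  rw [hw, Finset.sum_apply]
  refine Finset.sum_eq_zero fun a ha => ?_
  rw [Pi.smul_apply, Function.comp_apply, hr _ (hx a ha) l hl, map_zero, smul_zero]

end Aux

section Exist

variable {O K : Type} [CommRing O] [IsDomain O] [IsDiscreteValuationRing O]
  [Finite (ResidueField O)] [Field K] [CharZero K] [Algebra O K] [IsFractionRing O K] {n : ℕ}

theorem quadPoly_congr {A B : Matrix (Fin n) (Fin n) O} (K : Type) [Field K] [CharZero K]
    [Algebra O K] [IsFractionRing O K] (h : A + Aᵀ = B + Bᵀ) : quadPoly A = quadPoly B := by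
  have h2 : (2 : MvPolynomial (Fin n) O) ≠ 0 := by
    have h3 : (2 : MvPolynomial (Fin n) O) = MvPolynomial.C 2 := (map_ofNat MvPolynomial.C 2).symm
    rw [h3, Ne, MvPolynomial.C_eq_zero]
    intro h4
    have h5 := congrArg (algebraMap O K) h4
    rw [map_ofNat, map_zero] at h5
    exact two_ne_zero h5
  apply mul_left_cancel₀ h2
  rw [two_mul_quadPoly, two_mul_quadPoly, h]

theorem qf_map_congr {A B : Matrix (Fin n) (Fin n) O} (h : quadPoly A = quadPoly B)
    {κ : Type*} [CommRing κ] (φ : O →+* κ) (v : Fin n → κ) : qf (A.map φ) v = qf (B.map φ) v := by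
  have := congrArg (MvPolynomial.eval₂Hom φ v) h
  rw [eval₂_quadPoly, eval₂_quadPoly] at this
  rw [qf_eq_sum, qf_eq_sum]
  exact this

/-- Every nondegenerate quadratic form over `K` becomes a split form over `O` after a change of
coordinates and a scaling. -/
theorem exists_splitForm (hn : 0 < n) (B : Matrix (Fin n) (Fin n) K) (hB : (B + Bᵀ).det ≠ 0)
    {π : O} (hπ : Irreducible π) :
    ∃ (q c h : Matrix (Fin n) (Fin n) O) (W : Finset (Fin n)),
      Cls (B + Bᵀ) (q + π • (c + h)) ∧ SplitForm π q c h W := by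
  classical
  obtain ⟨A, hA⟩ := exists_isMin (O := O) B
  have hdet := hA.1.det_ne hB
  have hres0 : ∀ x : O, residue O x = 0 ↔ π ∣ x := fun x =>
    residue_eq_zero_iff_dvd hπ.maximalIdeal_eq
  obtain ⟨U, W, hU, hWcard, hUW⟩ := exists_cols (nullSub (A.map (residue O)))
  set N := nullSub (A.map (residue O)) with hN
  have htot : TotSing (A.map (residue O)) N := fun v hv => hv.2
  have h2N := hA.two_mul_finrank_le hπ hB htot
  have hWne : W ≠ Finset.univ := by
    intro h
    rw [h, Finset.card_univ, Fintype.card_fin] at hWcard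
    omega
  -- the new Gram matrix
  set A' := Uᵀ * A * U with hA'
  have hGA' : A' + A'ᵀ = Uᵀ * (A + Aᵀ) * U := conj_add_transpose A U
  -- columns in the radical
  have hcol : ∀ i ∈ W, ∀ j, π ∣ (A' + A'ᵀ) j i := by
    intro i hi j
    rw [hGA', conj_apply]
    have h1 := (hUW i hi).1
    rw [← map_add_transpose] at h1
    have h2 : ((A + Aᵀ).map (residue O)) *ᵥ (fun l => residue O (U l i)) =
        residue O ∘ ((A + Aᵀ) *ᵥ (fun l => U l i)) := map_mulVec' _ _ _
    rw [h2] at h1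
    rw [← hres0]
    have h3 : ∀ l, residue O (((A + Aᵀ) *ᵥ (fun l => U l i)) l) = 0 := fun l => congrFun h1 l
    simp [dotProduct, map_sum, h3]
  have hdiag : ∀ i ∈ W, π ∣ A' i i := by
    intro i hi
    rw [hA', conj_apply, ← hres0]
    have h1 := (hUW i hi).2
    have h2 : qf (A.map (residue O)) (fun l => residue O (U l i)) =
        residue O (qf A (fun l => U l i)) := qf_map _ _ _
    rw [h2] at h1
    exact h1
  choose! g hg using hcol
  choose! d hd using hdiag
  -- the components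
  let q : Matrix (Fin n) (Fin n) O := Matrix.of fun i j => if i ∈ W ∨ j ∈ W then 0 else A' i j
  let c : Matrix (Fin n) (Fin n) O := Matrix.of fun i j => if i ∈ W ∨ j ∉ W then 0 else g j i
  let h : Matrix (Fin n) (Fin n) O := Matrix.of fun i j =>
    if i ∉ W ∨ j ∉ W then 0 else if i = j then d i else if i < j then g j i else 0
  have hgsymm : ∀ i ∈ W, ∀ j ∈ W, g i j = g j i := by
    intro i hi j hj
    apply mul_left_cancel₀ hπ.ne_zero
    rw [← hg i hi j, ← hg j hj i, Matrix.add_apply, Matrix.add_apply, Matrix.transpose_apply,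
      Matrix.transpose_apply, add_comm]
  have hsum : (q + π • (c + h)) + (q + π • (c + h))ᵀ = A' + A'ᵀ := by
    ext i j
    simp only [Matrix.add_apply, Matrix.smul_apply, Matrix.transpose_apply, smul_eq_mul, q, c, h,
      Matrix.of_apply]
    by_cases hi : i ∈ W
    · by_cases hj : j ∈ W
      · simp only [hi, hj, true_or, or_true, if_true, not_true_eq_false, or_self, if_false,
          zero_add]
        rcases lt_trichotomy i j with hij | hij | hij
        · rw [if_neg hij.ne, if_pos hij, if_neg hij.ne', if_neg hij.not_gt, mul_zero, add_zero,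
            ← hg j hj i]
          rfl
        · subst hij
          rw [if_pos rfl, ← hd i hi]
        · rw [if_neg hij.ne', if_neg hij.not_gt, if_neg hij.ne, if_pos hij, mul_zero, zero_add,
            hgsymm i hi j hj, ← hg j hj i]
          rfl
      · simp only [hi, hj, true_or, or_true, if_true, not_true_eq_false, not_false_eq_true, or_self,
          if_false, zero_add, add_zero, mul_zero]
        rw [← hg i hi j, Matrix.add_apply, Matrix.transpose_apply, add_comm]
    · by_cases hj : j ∈ W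
      · simp only [hi, hj, true_or, or_true, if_true, not_true_eq_false, not_false_eq_true, or_self,
          if_false, zero_add, add_zero, mul_zero]
        rw [← hg j hj i, Matrix.add_apply, Matrix.transpose_apply]
      · simp only [hi, hj, or_true, if_true, not_false_eq_true, or_self,
          if_false, add_zero, mul_zero]
  have hquad : quadPoly (q + π • (c + h)) = quadPoly A' := quadPoly_congr K hsum
  have hclsA' : Cls (B + Bᵀ) A' := by
    refine hA.1.of_move (H := U) (t := 1) hU.ne_zero one_ne_zero ?_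
    rw [one_smul, hGA']
  -- the null vectors in the new coordinates
  have hUres : IsUnit (U.map (residue O)).det := by
    rw [← RingHom.mapMatrix_apply, ← RingHom.map_det]
    exact hU.map _
  have hnull : ∀ x ∈ nullSub (A'.map (residue O)), ∀ l, l ∉ W → x l = 0 := by
    -- the image of the null space under the change of coordinates
    intro x hx l hl
    have e1 : (Uᵀ).map (residue O) = (U.map (residue O))ᵀ := rfl
    have hUx : (U.map (residue O)) *ᵥ x ∈ N := by
      constructor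
      · have h1 := hx.1
        rw [← map_add_transpose, hGA', Matrix.map_mul, Matrix.map_mul, map_add_transpose,
          ← mulVec_mulVec, ← mulVec_mulVec, e1] at h1
        exact mulVec_eq_zero_of_isUnit (by rwa [Matrix.det_transpose]) h1
      · have h1 := hx.2
        rw [hA', Matrix.map_mul, Matrix.map_mul, e1, qf_conj] at h1
        exact h1
    -- the span of the columns
    have hspan : N = Submodule.span (ResidueField O)
        ((fun i => (fun l => residue O (U l i))) '' (W : Set (Fin n))) := by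
      symm
      apply Submodule.eq_of_le_of_finrank_le
      · rw [Submodule.span_le]
        rintro _ ⟨i, hi, rfl⟩
        exact hUW i hi
      · have hli : LinearIndependent (ResidueField O)
            (fun i : Fin n => (fun l => residue O (U l i))) := by
          have := Matrix.linearIndependent_cols_of_isUnit
            (A := U.map (residue O)) ((Matrix.isUnit_iff_isUnit_det _).mpr hUres)
          exact this
        have h3 : LinearIndependent (ResidueField O)
            (fun i : W => (fun l => residue O (U l i))) := hli.comp _ Subtype.val_injective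
        have h4 := finrank_span_eq_card h3
        have h5 : (Set.range fun i : W => (fun l => residue O (U l i))) =
            (fun i => (fun l => residue O (U l i))) '' (W : Set (Fin n)) := by
          ext y
          constructor
          · rintro ⟨⟨i, hi⟩, rfl⟩
            exact ⟨i, hi, rfl⟩
          · rintro ⟨i, hi, rfl⟩
            exact ⟨⟨i, hi⟩, rfl⟩
        rw [h5] at h4
        rw [h4, Fintype.card_coe, hWcard]
    rw [hspan] at hUx
    have h6 : ∀ y ∈ Submodule.span (ResidueField O)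
        ((fun i => (fun l => residue O (U l i))) '' (W : Set (Fin n))),
        ∃ z : Fin n → ResidueField O, (∀ l, l ∉ W → z l = 0) ∧ y = (U.map (residue O)) *ᵥ z := by
      intro y hy
      induction hy using Submodule.span_induction with
      | mem y hy =>
        obtain ⟨i, hi, rfl⟩ := hy
        refine ⟨Pi.single i 1, ?_, ?_⟩
        · intro l hl
          rw [Pi.single_eq_of_ne]
          rintro rfl
          exact hl hi
        · rw [mulVec_single_one]
          rfl
      | zero => exact ⟨0, fun _ _ => rfl, by simp⟩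
      | add y y' _ _ hy hy' =>
        obtain ⟨z, hz, rfl⟩ := hy
        obtain ⟨z', hz', rfl⟩ := hy'
        exact ⟨z + z', fun l hl => by rw [Pi.add_apply, hz l hl, hz' l hl, add_zero],
          by rw [mulVec_add]⟩
      | smul a y _ hy =>
        obtain ⟨z, hz, rfl⟩ := hy
        exact ⟨a • z, fun l hl => by rw [Pi.smul_apply, hz l hl, smul_zero],
          by rw [mulVec_smul]⟩
    obtain ⟨z, hz, hzx⟩ := h6 _ hUx
    have h7 : (U.map (residue O)) *ᵥ (x - z) = 0 := by
      rw [mulVec_sub, hzx, sub_self]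
    have h8 := mulVec_eq_zero_of_isUnit hUres h7
    rw [sub_eq_zero] at h8
    rw [h8]
    exact hz l hl
  refine ⟨q, c, h, W, ?_, ?_⟩
  · obtain ⟨g', h', e1, e2, c', hc', e3⟩ := hclsA'
    exact ⟨g', h', e1, e2, c', hc', by rw [hsum]; exact e3⟩
  · refine ⟨?_, ?_, ?_, ?_, ?_, ?_, hWne⟩
    · intro i j hij
      simp only [q, Matrix.of_apply, if_pos hij]
    · intro i j hij
      simp only [c, Matrix.of_apply, if_pos hij]
    · intro i j hij
      simp only [h, Matrix.of_apply, if_pos hij]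
    · rw [hsum]
      exact hclsA'.det_ne hB
    · intro κ _ φ hφ v h1 h2
      have hπφ : φ π = 0 := hφ π (by rw [hπ.maximalIdeal_eq]; exact Ideal.mem_span_singleton_self π)
      have hq : (q + π • (c + h)).map φ = q.map φ := by
        ext i j
        simp [hπφ]
      have h3 : (A'.map φ + (A'.map φ)ᵀ) *ᵥ v = 0 := by
        rw [← map_add_transpose, ← hsum, map_add_transpose, hq]
        exact h1
      have h4 : qf (A'.map φ) v = 0 := by
        rw [← qf_map_congr hquad, hq]
        exact h2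
      exact rad_aux' A' φ hφ v h3 h4 W hnull
    · intro κ _ φ hφ v h1 h2 l hl
      have h3 := rad_aux' h φ hφ v h1 h2 Wᶜ (by
        intro x hx l hl
        rw [Finset.mem_compl, not_not] at hl
        -- lift the vector
        choose y hy using fun i => residue_surjective (R := O) (x i)
        let z : Fin n → O := fun i => if i ∈ W then y i else 0
        have hzW : ∀ i, i ∉ W → z i = 0 := fun i hi => if_neg hi
        have hres : ∀ i ∈ W, residue O (z i) = x i := by
          intro i hi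
          simp only [z, if_pos hi, hy]
        by_contra hne
        -- the value of `h` at `z`
        have hqh : residue O (qf h z) = 0 := by
          rw [← hx.2, qf_eq_sum, qf_eq_sum, map_sum]
          refine Finset.sum_congr rfl fun i _ => ?_
          rw [map_sum]
          refine Finset.sum_congr rfl fun j _ => ?_
          by_cases hij : i ∉ W ∨ j ∉ W
          · simp only [h, Matrix.of_apply, Matrix.map_apply, if_pos hij, map_zero, zero_mul]
          · push Not at hij
            rw [map_mul, map_mul, hres i hij.1, hres j hij.2]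
            rfl
        have hqz : qf (q + π • (c + h)) z = π * qf h z := by
          rw [qf_eq_sum, qf_eq_sum, Finset.mul_sum]
          refine Finset.sum_congr rfl fun i _ => ?_
          rw [Finset.mul_sum]
          refine Finset.sum_congr rfl fun j _ => ?_
          by_cases hi : i ∈ W
          · have hq0 : q i j = 0 := by simp only [q, Matrix.of_apply, if_pos (Or.inl hi)]
            have hc0 : c i j = 0 := by simp only [c, Matrix.of_apply, if_pos (Or.inl hi)]
            rw [Matrix.add_apply, Matrix.smul_apply, Matrix.add_apply, hq0, hc0, smul_eq_mul]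
            ring
          · rw [hzW i hi]
            ring
        have hqA' : qf A' z = π * qf h z := by
          have h5 := qf_map_congr hquad (RingHom.id O) z
          have h6 : ∀ M : Matrix (Fin n) (Fin n) O, M.map (RingHom.id O) = M := by
            intro M
            ext i j
            rfl
          rw [h6, h6] at h5
          rw [← h5, hqz]
        have hdvd : π ^ 2 ∣ qf A (U *ᵥ z) := by
          rw [← qf_conj, ← hA', hqA', pow_two]
          exact mul_dvd_mul_left _ ((hres0 _).mp hqh)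
        -- a unit coordinate
        have hUz : ∃ i, IsUnit ((U *ᵥ z) i) := by
          by_contra hcon
          push Not at hcon
          have h5 : (U.map (residue O)) *ᵥ (residue O ∘ z) = 0 := by
            rw [map_mulVec']
            ext i
            rw [Function.comp_apply, Pi.zero_apply, residue_eq_zero_iff]
            exact hcon i
          have h6 := congrFun (mulVec_eq_zero_of_isUnit hUres h5) l
          rw [Function.comp_apply, hres l hl] at h6
          exact hne h6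
        obtain ⟨i, hi⟩ := hUz
        refine hA.not_sq_dvd hπ hB hi ?_ hdvd
        intro j
        rw [← hres0]
        have h5 : ∀ j, residue O ((Uᵀ *ᵥ ((A + Aᵀ) *ᵥ (U *ᵥ z))) j) = 0 := by
          intro j
          rw [mulVec_mulVec, mulVec_mulVec, ← hGA', hres0]
          rw [mulVec, dotProduct]
          refine Finset.dvd_sum fun a _ => ?_
          by_cases ha : a ∈ W
          · exact dvd_mul_of_dvd_left ⟨_, hg a ha j⟩ _
          · rw [hzW a ha, mul_zero]
            exact dvd_zero _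
        have h6 : ((U.map (residue O))ᵀ) *ᵥ (residue O ∘ ((A + Aᵀ) *ᵥ (U *ᵥ z))) = 0 := by
          have e1 : (U.map (residue O))ᵀ = (Uᵀ).map (residue O) := rfl
          rw [e1, map_mulVec']
          exact funext h5
        exact congrFun (mulVec_eq_zero_of_isUnit (by rwa [Matrix.det_transpose]) h6) j)
      exact h3 l (by rw [Finset.mem_compl, not_not]; exact hl)

end Exist

end Pool.Agent.Lib.MP_6a3dac_ag
end

section

/-!
# The equations of the blow-up of a split quadric
-/

set_option autoImplicit false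

namespace Pool.Agent.Lib.MP_6a3dac_ag

open MvPolynomial IsLocalRing

section Eqs

variable {O : Type} [CommRing O] {n : ℕ} (π : O) (q c h : Matrix (Fin n) (Fin n) O)
  (W : Finset (Fin n))

/-- The base polynomials: the coordinates, `1`, `π` and the form `h`. -/
noncomputable def baseP : Fin n ⊕ Fin 3 → MvPolynomial (Fin n) O :=
  Sum.elim X ![1, C π, quadPoly h]

/-- The degrees of the base polynomials. -/
def degP (n : ℕ) : Fin n ⊕ Fin 3 → ℕ := Sum.elim (fun _ => 1) ![0, 0, 2]

/-- The generators of the ideal to be blown up: the coordinates outside `W`, `π` and `h`. -/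
def IsGood : Fin n ⊕ Fin 3 → Prop := Sum.elim (fun l => l ∉ W) ![False, True, True]

/-- The substitution. -/
noncomputable def sigma : MvPolynomial (Fin n) O →ₐ[O] MvPolynomial (Fin n ⊕ Fin 3) O :=
  aeval fun i => if i ∈ W then X (Sum.inl i) else X (Sum.inr 0) * X (Sum.inl i)

/-- A quadratic polynomial in the large polynomial ring. -/
noncomputable def bigQuad (A : Matrix (Fin n) (Fin n) O) : MvPolynomial (Fin n ⊕ Fin 3) O :=
  ∑ i, ∑ j, C (A i j) * X (Sum.inl i) * X (Sum.inl j)

/-- The equations of the blow-up in the chart given by the variables `κ` and `j`. -/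
noncomputable def eqs (κ : Fin n ⊕ Fin 3) (j : Fin n) : Fin 5 → MvPolynomial (Fin n ⊕ Fin 3) O :=
  ![X (Sum.inr 1) * X (Sum.inr 0) - C π,
    X (Sum.inr 2) * X (Sum.inr 0) - bigQuad h,
    bigQuad q + X (Sum.inr 1) * (bigQuad c + X (Sum.inr 2)),
    X κ - 1,
    X (Sum.inl j) - 1]

variable {π q c h W}

theorem sigma_X_mem {i : Fin n} (hi : i ∈ W) : sigma (O := O) W (X i) = X (Sum.inl i) := by
  simp [sigma, hi]

theorem sigma_X_notMem {i : Fin n} (hi : i ∉ W) :
    sigma (O := O) W (X i) = X (Sum.inr 0) * X (Sum.inl i) := by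
  simp [sigma, hi]

theorem sigma_C (r : O) : sigma W (C r) = C r := by
  simp [sigma, algebraMap_eq]

variable (h_zero : ∀ i j, (i ∉ W ∨ j ∉ W) → h i j = 0)
include h_zero

theorem sigma_quadPoly_h : sigma W (quadPoly h) = bigQuad h := by
  simp only [quadPoly, bigQuad, map_sum, map_mul, sigma_C]
  refine Finset.sum_congr rfl fun i _ => Finset.sum_congr rfl fun j _ => ?_
  by_cases hij : i ∉ W ∨ j ∉ W
  · rw [h_zero i j hij, C_0, zero_mul, zero_mul, zero_mul, zero_mul]
  · push Not at hij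
    rw [sigma_X_mem hij.1, sigma_X_mem hij.2]

/-- The base polynomials become multiples of the exceptional variable. -/
theorem sigma_base {κ' : Fin n ⊕ Fin 3} (hκ : IsGood W κ') (κ : Fin n ⊕ Fin 3) (j : Fin n) :
    sigma W (baseP π h κ') - X (Sum.inr 0) * X κ' ∈
      Ideal.span (Set.range (eqs π q c h κ j)) := by
  rcases κ' with l | a
  · have h1 : sigma W (baseP π h (Sum.inl l)) - X (Sum.inr 0) * X (Sum.inl l) = 0 := by
      change sigma W (X l) - _ = 0
      rw [sigma_X_notMem hκ, sub_self]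
    rw [h1]
    exact Ideal.zero_mem _
  · fin_cases a
    · exact absurd hκ (by simp [IsGood])
    · have h1 : sigma W (baseP π h (Sum.inr 1)) - X (Sum.inr 0) * X (Sum.inr 1) =
          -(eqs π q c h κ j 0) := by
        change sigma W (C π) - _ = -(X (Sum.inr 1) * X (Sum.inr 0) - C π)
        rw [sigma_C]
        ring
      change sigma W (baseP π h (Sum.inr 1)) - X (Sum.inr 0) * X (Sum.inr 1) ∈ _
      rw [h1]
      exact Ideal.neg_mem_iff _ |>.mpr (Ideal.subset_span ⟨0, rfl⟩)
    · have h1 : sigma W (baseP π h (Sum.inr 2)) - X (Sum.inr 0) * X (Sum.inr 2) =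
          -(eqs π q c h κ j 1) := by
        change sigma W (quadPoly h) - _ = -(X (Sum.inr 2) * X (Sum.inr 0) - bigQuad h)
        rw [sigma_quadPoly_h h_zero]
        ring
      change sigma W (baseP π h (Sum.inr 2)) - X (Sum.inr 0) * X (Sum.inr 2) ∈ _
      rw [h1]
      exact Ideal.neg_mem_iff _ |>.mpr (Ideal.subset_span ⟨1, rfl⟩)

theorem sigma_quadPoly (q_zero : ∀ i j, (i ∈ W ∨ j ∈ W) → q i j = 0)
    (c_zero : ∀ i j, (i ∈ W ∨ j ∉ W) → c i j = 0) :
    sigma W (quadPoly (q + π • (c + h))) =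
      X (Sum.inr 0) ^ 2 * bigQuad q + C π * (X (Sum.inr 0) * bigQuad c + bigQuad h) := by
  have hq : sigma W (quadPoly q) = X (Sum.inr 0) ^ 2 * bigQuad q := by
    simp only [quadPoly, bigQuad, map_sum, map_mul, sigma_C, Finset.mul_sum]
    refine Finset.sum_congr rfl fun i _ => Finset.sum_congr rfl fun j _ => ?_
    by_cases hij : i ∈ W ∨ j ∈ W
    · rw [q_zero i j hij, C_0]
      ring
    · push Not at hij
      rw [sigma_X_notMem hij.1, sigma_X_notMem hij.2]
      ring
  have hc : sigma W (quadPoly c) = X (Sum.inr 0) * bigQuad c := by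
    simp only [quadPoly, bigQuad, map_sum, map_mul, sigma_C, Finset.mul_sum]
    refine Finset.sum_congr rfl fun i _ => Finset.sum_congr rfl fun j _ => ?_
    by_cases hij : i ∈ W ∨ j ∉ W
    · rw [c_zero i j hij, C_0]
      ring
    · push Not at hij
      rw [sigma_X_notMem hij.1, sigma_X_mem hij.2]
      ring
  have hadd : quadPoly (q + π • (c + h)) = quadPoly q + C π * (quadPoly c + quadPoly h) := by
    simp only [quadPoly, Finset.mul_sum, ← Finset.sum_add_distrib]
    refine Finset.sum_congr rfl fun i _ => Finset.sum_congr rfl fun j _ => ?_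
    simp only [Matrix.add_apply, Matrix.smul_apply, smul_eq_mul, map_add, map_mul]
    ring
  rw [hadd, map_add, map_mul, map_add, hq, hc, sigma_quadPoly_h h_zero, sigma_C]

theorem sigma_quadPoly_mem (q_zero : ∀ i j, (i ∈ W ∨ j ∈ W) → q i j = 0)
    (c_zero : ∀ i j, (i ∈ W ∨ j ∉ W) → c i j = 0) (κ : Fin n ⊕ Fin 3) (j : Fin n) :
    sigma W (quadPoly (q + π • (c + h))) ∈ Ideal.span (Set.range (eqs π q c h κ j)) := by
  rw [sigma_quadPoly h_zero q_zero c_zero]
  have h1 : (X (Sum.inr 0) ^ 2 * bigQuad q + C π * (X (Sum.inr 0) * bigQuad c + bigQuad h) :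
      MvPolynomial (Fin n ⊕ Fin 3) O) =
      X (Sum.inr 0) ^ 2 * eqs π q c h κ j 2 -
        (X (Sum.inr 0) * bigQuad c + X (Sum.inr 2) * X (Sum.inr 0)) * eqs π q c h κ j 0 -
        C π * eqs π q c h κ j 1 := by
    change _ = X (Sum.inr 0) ^ 2 * (bigQuad q + X (Sum.inr 1) * (bigQuad c + X (Sum.inr 2))) -
      (X (Sum.inr 0) * bigQuad c + X (Sum.inr 2) * X (Sum.inr 0)) *
        (X (Sum.inr 1) * X (Sum.inr 0) - C π) - C π * (X (Sum.inr 2) * X (Sum.inr 0) - bigQuad h)
    ring
  rw [h1]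
  exact Ideal.sub_mem _ (Ideal.sub_mem _ (Ideal.mul_mem_left _ _ (Ideal.subset_span ⟨2, rfl⟩))
    (Ideal.mul_mem_left _ _ (Ideal.subset_span ⟨0, rfl⟩)))
    (Ideal.mul_mem_left _ _ (Ideal.subset_span ⟨1, rfl⟩))

omit h_zero in
/-- Up to a power of the exceptional variable, every polynomial comes from downstairs. -/
theorem exists_sigma {κ : Fin n ⊕ Fin 3} (hκ : IsGood W κ)
    (J : Ideal (MvPolynomial (Fin n ⊕ Fin 3) O))
    (hbase : ∀ κ', IsGood W κ' → sigma W (baseP π h κ') - X (Sum.inr 0) * X κ' ∈ J)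
    (hk : X κ - 1 ∈ J) (p : MvPolynomial (Fin n ⊕ Fin 3) O) :
    ∃ (N : ℕ) (t : MvPolynomial (Fin n) O), X (Sum.inr 0) ^ N * p - sigma W t ∈ J := by
  -- the exceptional variable itself
  have hE : (X (Sum.inr 0) : MvPolynomial (Fin n ⊕ Fin 3) O) - sigma W (baseP π h κ) ∈ J := by
    have h1 := hbase κ hκ
    have h2 : (X (Sum.inr 0) : MvPolynomial (Fin n ⊕ Fin 3) O) - sigma W (baseP π h κ) =
        -(sigma W (baseP π h κ) - X (Sum.inr 0) * X κ) - X (Sum.inr 0) * (X κ - 1) := by ring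
    rw [h2]
    exact J.sub_mem (J.neg_mem h1) (J.mul_mem_left _ hk)
  have hEpow : ∀ m : ℕ, (X (Sum.inr 0) : MvPolynomial (Fin n ⊕ Fin 3) O) ^ m -
      sigma W (baseP π h κ ^ m) ∈ J := by
    intro m
    induction m with
    | zero => simp
    | succ m ih =>
      have h2 : (X (Sum.inr 0) : MvPolynomial (Fin n ⊕ Fin 3) O) ^ (m + 1) -
          sigma W (baseP π h κ ^ (m + 1)) =
          X (Sum.inr 0) * (X (Sum.inr 0) ^ m - sigma W (baseP π h κ ^ m)) +
            sigma W (baseP π h κ ^ m) * (X (Sum.inr 0) - sigma W (baseP π h κ)) := by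
        rw [pow_succ, pow_succ, map_mul]
        ring
      rw [h2]
      exact J.add_mem (J.mul_mem_left _ ih) (J.mul_mem_left _ hE)
  -- the variables
  have hvar : ∀ κ' : Fin n ⊕ Fin 3, ∃ (N : ℕ) (t : MvPolynomial (Fin n) O),
      X (Sum.inr 0) ^ N * X κ' - sigma W t ∈ J := by
    intro κ'
    by_cases hgood : IsGood W κ'
    · refine ⟨1, baseP π h κ', ?_⟩
      have h1 := J.neg_mem (hbase κ' hgood)
      rw [neg_sub] at h1
      rwa [pow_one]
    · rcases κ' with l | a
      · have hl : l ∈ W := by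
          by_contra hcon
          exact hgood hcon
        refine ⟨0, X l, ?_⟩
        rw [sigma_X_mem hl, pow_zero, one_mul, sub_self]
        exact J.zero_mem
      · fin_cases a
        · refine ⟨0, baseP π h κ, ?_⟩
          rw [pow_zero, one_mul]
          exact hE
        · exact absurd trivial hgood
        · exact absurd trivial hgood
  induction p using MvPolynomial.induction_on with
  | C a =>
    refine ⟨0, C a, ?_⟩
    rw [sigma_C, pow_zero, one_mul, sub_self]
    exact J.zero_mem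
  | add p p' hp hp' =>
    obtain ⟨N, t, ht⟩ := hp
    obtain ⟨N', t', ht'⟩ := hp'
    refine ⟨N + N', baseP π h κ ^ N' * t + baseP π h κ ^ N * t', ?_⟩
    have h2 : X (Sum.inr 0) ^ (N + N') * (p + p') -
        sigma W (baseP π h κ ^ N' * t + baseP π h κ ^ N * t') =
        (X (Sum.inr 0) ^ N' * (X (Sum.inr 0) ^ N * p - sigma W t) +
          sigma W t * (X (Sum.inr 0) ^ N' - sigma W (baseP π h κ ^ N'))) +
        (X (Sum.inr 0) ^ N * (X (Sum.inr 0) ^ N' * p' - sigma W t') +
          sigma W t' * (X (Sum.inr 0) ^ N - sigma W (baseP π h κ ^ N))) := by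
      rw [map_add, map_mul, map_mul, pow_add]
      ring
    rw [h2]
    exact J.add_mem (J.add_mem (J.mul_mem_left _ ht) (J.mul_mem_left _ (hEpow N')))
      (J.add_mem (J.mul_mem_left _ ht') (J.mul_mem_left _ (hEpow N)))
  | mul_X p κ' hp =>
    obtain ⟨N, t, ht⟩ := hp
    obtain ⟨N', t', ht'⟩ := hvar κ'
    refine ⟨N + N', t * t', ?_⟩
    have h2 : X (Sum.inr 0) ^ (N + N') * (p * X κ') - sigma W (t * t') =
        (X (Sum.inr 0) ^ N' * X κ') * (X (Sum.inr 0) ^ N * p - sigma W t) +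
          sigma W t * (X (Sum.inr 0) ^ N' * X κ' - sigma W t') := by
      rw [map_mul, pow_add]
      ring
    rw [h2]
    exact J.add_mem (J.mul_mem_left _ ht) (J.mul_mem_left _ ht')

end Eqs

end Pool.Agent.Lib.MP_6a3dac_ag
end

section

/-!
# Uniformizers are not in the square of a prime of a polynomial ring
-/

set_option autoImplicit false

namespace Pool.Agent.Lib.MP_6a3dac_ag

open MvPolynomial IsLocalRing

section NotSq

variable {O : Type} [CommRing O] [IsDomain O] [IsDiscreteValuationRing O] {σ : Type} [Finite σ]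

theorem mul_C_notMem_sq {π : O} (hπ : Irreducible π) (Y : Ideal (MvPolynomial σ O)) [Y.IsPrime]
    (hY : C π ∈ Y) {s : MvPolynomial σ O} (hs : s ∉ Y) : s * C π ∉ Y ^ 2 := by
  let ψ : MvPolynomial σ O →+* MvPolynomial σ (ResidueField O) := MvPolynomial.map (residue O)
  have hψ : Function.Surjective ψ := MvPolynomial.map_surjective _ residue_surjective
  have hker : RingHom.ker ψ = Ideal.span {C π} := by
    change RingHom.ker (MvPolynomial.map (residue O)) = _
    rw [MvPolynomial.ker_map, ker_residue, hπ.maximalIdeal_eq, Ideal.map_span, Set.image_singleton]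
  have hkerY : RingHom.ker ψ ≤ Y := by
    rw [hker, Ideal.span_singleton_le_iff_mem]
    exact hY
  have hyp : (Y.map ψ).IsPrime := Ideal.map_isPrime_of_surjective hψ hkerY
  have hYy : Y = (Y.map ψ).comap ψ := by
    rw [Ideal.comap_map_of_surjective' _ hψ, sup_of_le_left hkerY]
  have key : ∀ (y : Ideal (MvPolynomial σ (ResidueField O))) (_ : y.IsPrime)
      (s : MvPolynomial σ O), s ∉ y.comap ψ → s * C π ∉ (y.comap ψ) ^ 2 := by
    intro y _ s hs hsπ
    set L := Localization.AtPrime (y.comap ψ) with hL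
    have hπy : C π ∈ y.comap ψ := by
      have h1 : C π ∈ RingHom.ker ψ := by
        rw [hker]
        exact Ideal.mem_span_singleton_self _
      rw [Ideal.mem_comap, RingHom.mem_ker.mp h1]
      exact y.zero_mem
    have ht : algebraMap (MvPolynomial σ O) L (C π) ∈ maximalIdeal L := by
      rw [← Localization.AtPrime.map_eq_maximalIdeal]
      exact Ideal.mem_map_of_mem _ hπy
    have hk : RingHom.ker (Localization.localRingHom (y.comap ψ) y ψ rfl) =
        Ideal.span {algebraMap (MvPolynomial σ O) L (C π)} := by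
      rw [ker_localRingHom ψ hψ y, hker, Ideal.map_span, Set.image_singleton]
    let e := RingHom.quotientKerEquivOfSurjective (localRingHom_surjective ψ hψ y)
    let e' := (Ideal.quotEquivOfEq hk.symm).trans e
    have hreg : IsRegularLocalRing (L ⧸ Ideal.span {algebraMap (MvPolynomial σ O) L (C π)}) :=
      IsRegularLocalRing.of_ringEquiv e'.symm
    have hnzd : algebraMap (MvPolynomial σ O) L (C π) ∈ nonZeroDivisors L := by
      apply mem_nonZeroDivisors_of_ne_zero
      rw [Ne, FaithfulSMul.algebraMap_eq_zero_iff, C_eq_zero]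
      exact hπ.ne_zero
    apply notMem_sq_of_quotient ht hnzd hreg
    rw [mem_maximalIdeal_pow_iff]
    exact ⟨s, hs, hsπ⟩
  have h1 := key (Y.map ψ) hyp s
  rw [← hYy] at h1
  exact h1 hs

end NotSq

section Rad

open Matrix

theorem mem_of_rad {O P : Type} [CommRing O] [IsLocalRing O] [CommRing P] {n : ℕ} (ι : O →+* P)
    (Y : Ideal P) [Y.IsPrime] (hι : ∀ x ∈ maximalIdeal O, ι x ∈ Y)
    (A : Matrix (Fin n) (Fin n) O) (p : Fin n → Prop)
    (hrad : ∀ (κ : Type) [Field κ] (φ : O →+* κ), (∀ x ∈ maximalIdeal O, φ x = 0) →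
      ∀ v : Fin n → κ, (A.map φ + (A.map φ)ᵀ) *ᵥ v = 0 → qf (A.map φ) v = 0 → ∀ l, p l → v l = 0)
    (v : Fin n → P) (h1 : ∀ l, ∑ j, ι ((A + Aᵀ) l j) * v j ∈ Y)
    (h2 : ∑ i, ∑ j, ι (A i j) * v i * v j ∈ Y) : ∀ l, p l → v l ∈ Y := by
  let κ := FractionRing (P ⧸ Y)
  let ψ : P →+* κ := (algebraMap (P ⧸ Y) κ).comp (Ideal.Quotient.mk Y)
  have hψ : ∀ p, ψ p = 0 ↔ p ∈ Y := by
    intro p
    simp only [ψ, RingHom.comp_apply]
    rw [FaithfulSMul.algebraMap_eq_zero_iff, Ideal.Quotient.eq_zero_iff_mem]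
  intro l hl
  rw [← hψ]
  refine hrad κ (ψ.comp ι) (fun x hx => (hψ _).mpr (hι x hx)) (fun i => ψ (v i)) ?_ ?_ l hl
  · ext i
    have h3 := (hψ _).mpr (h1 i)
    rw [map_sum] at h3
    rw [mulVec, dotProduct, Pi.zero_apply, ← h3]
    refine Finset.sum_congr rfl fun j _ => ?_
    simp only [Matrix.add_apply, Matrix.map_apply, Matrix.transpose_apply, map_add,
      RingHom.comp_apply, map_mul]
  · have h3 := (hψ _).mpr h2
    rw [map_sum] at h3
    rw [qf_eq_sum, ← h3]
    refine Finset.sum_congr rfl fun i _ => ?_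
    rw [map_sum]
    refine Finset.sum_congr rfl fun j _ => ?_
    simp only [Matrix.map_apply, RingHom.comp_apply, map_mul]

end Rad

end Pool.Agent.Lib.MP_6a3dac_ag
end

section

/-!
# The charts of the blow-up of a product of ideals
-/

set_option autoImplicit false

namespace Pool.Agent.Lib.MP_6a3dac_ag

open IsLocalRing

section Chart

variable {D : Type} [CommRing D]

/-- Membership in the ideal of `R` generated by `a ^ j` and `Z`. -/
def InJ (R : Subring D) (a : D) (Z : Finset D) (j : ℕ) (x : D) : Prop :=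
  ∃ c₀ ∈ R, ∃ c : D → D, (∀ z ∈ Z, c z ∈ R) ∧ x = c₀ * a ^ j + ∑ z ∈ Z, c z * z

theorem inJ_pow (R : Subring D) (a : D) (Z : Finset D) (j : ℕ) : InJ R a Z j (a ^ j) :=
  ⟨1, R.one_mem, fun _ => 0, fun _ _ => R.zero_mem, by simp⟩

theorem inJ_of_mem (R : Subring D) (a : D) {Z : Finset D} (j : ℕ) {z : D} (hz : z ∈ Z) :
    InJ R a Z j z := by
  classical
  refine ⟨0, R.zero_mem, fun x => if x = z then 1 else 0, ?_, ?_⟩
  · intro x _
    dsimp only
    split_ifs
    · exact R.one_mem
    · exact R.zero_mem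
  · simp [hz]

theorem InJ.dvd {R : Subring D} {a : D} {Z : Finset D} {j : ℕ} {x g : D} (h : InJ R a Z j x)
    {R' : Subring D} (hR : R ≤ R') (h1 : ∃ q ∈ R', a ^ j = g * q)
    (h2 : ∀ z ∈ Z, ∃ q ∈ R', z = g * q) : ∃ q ∈ R', x = g * q := by
  classical
  obtain ⟨c₀, hc₀, c, hc, rfl⟩ := h
  obtain ⟨q₀, hq₀, hq⟩ := h1
  choose! q hq1 hq2 using h2
  refine ⟨c₀ * q₀ + ∑ z ∈ Z, c z * q z, ?_, ?_⟩
  · exact R'.add_mem (R'.mul_mem (hR hc₀) hq₀)
      (R'.sum_mem fun z hz => R'.mul_mem (hR (hc z hz)) (hq1 z hz))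
  · rw [mul_add, Finset.mul_sum, hq]
    congr 1
    · ring
    · exact Finset.sum_congr rfl fun z hz => by linear_combination (c z) * hq2 z hz

variable [IsDomain D] [IsLocalRing D]

/-- The two kinds of charts. -/
theorem chart_cases {R : Subring D} {a : D} (ha : a ∈ R)
    (ha0 : a ≠ 0) {r : ℕ} {Z : Finset D} (b : ℕ → D)
    (hb : ∀ j, 1 ≤ j → j ≤ r → b j ≠ 0 ∧ InJ R a Z j (b j) ∧ b j ∣ a ^ j ∧ ∀ z ∈ Z, b j ∣ z)
    (hgen : ∀ R' : Subring D, Dom R' → R ≤ R' →
      (∀ j, 1 ≤ j → j ≤ r → ∀ x, InJ R a Z j x → ∀ w, b j * w = x → w ∈ R') → R' = ⊤) :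
    (∃ w : D → D, (∀ z ∈ Z, a ^ r * w z = z) ∧
      ∀ R' : Subring D, Dom R' → R ≤ R' → (∀ z ∈ Z, w z ∈ R') → R' = ⊤) ∨
    ∃ k < r, ∃ u ∈ Z, ∃ (v t : D) (w : D → D), a ^ k * v = u ∧ v * t = a ∧
      (∀ z ∈ Z, u * w z = z) ∧
      ∀ R' : Subring D, Dom R' → R ≤ R' → v ∈ R' → t ∈ R' → (∀ z ∈ Z, w z ∈ R') → R' = ⊤ := by
  classical
  -- reduction of the generation property
  have hred : ∀ (R' : Subring D), Dom R' → R ≤ R' → ∀ g : ℕ → D,
      (∀ j, 1 ≤ j → j ≤ r → g j ≠ 0 ∧ b j ∣ g j ∧ (∃ q ∈ R', a ^ j = g j * q) ∧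
        ∀ z ∈ Z, ∃ q ∈ R', z = g j * q) → R' = ⊤ := by
    intro R' hR' hle g hg
    apply hgen R' hR' hle
    intro j h1 h2 x hx w hw
    obtain ⟨g1, ⟨γ, g2⟩, g3, g4⟩ := hg j h1 h2
    obtain ⟨hb0, hb1, -, -⟩ := hb j h1 h2
    obtain ⟨q, hq, hxq⟩ := hx.dvd hle g3 g4
    obtain ⟨β, hβ, hbβ⟩ := hb1.dvd hle g3 g4
    have h3 : β * γ = 1 := by
      apply mul_left_cancel₀ g1
      rw [mul_one, ← mul_assoc, ← hbβ]
      exact g2.symm
    have hγ : γ ∈ R' := hR' β hβ γ h3
    have h4 : w = γ * q := by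
      have h5 : q = β * w := by
        apply mul_left_cancel₀ g1
        rw [← hxq, ← mul_assoc, ← hbβ]
        exact hw.symm
      rw [h5, ← mul_assoc, mul_comm γ β, h3, one_mul]
    rw [h4]
    exact R'.mul_mem hγ hq
  by_cases hall : ∀ z ∈ Z, a ^ r ∣ z
  · left
    choose! w hw using hall
    refine ⟨w, fun z hz => (hw z hz).symm, ?_⟩
    intro R' hR' hle hwR
    apply hred R' hR' hle fun j => a ^ j
    intro j h1 h2
    refine ⟨pow_ne_zero _ ha0, (hb j h1 h2).2.2.1, ⟨1, R'.one_mem, (mul_one _).symm⟩, ?_⟩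
    intro z hz
    refine ⟨a ^ (r - j) * w z, R'.mul_mem (R'.pow_mem (hle ha) _) (hwR z hz), ?_⟩
    rw [← mul_assoc, ← pow_add, Nat.add_sub_cancel' h2]
    exact hw z hz
  · right
    -- the largest power of `a` dividing all elements of `Z`
    let P : ℕ → Prop := fun j => ∀ z ∈ Z, a ^ j ∣ z
    have hP0 : P 0 := fun z _ => by rw [pow_zero]; exact one_dvd z
    obtain ⟨k, hk⟩ : ∃ k, k = Nat.findGreatest P r := ⟨_, rfl⟩
    have hPk : P k := hk ▸ Nat.findGreatest_spec (Nat.zero_le r) hP0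
    have hkr : k ≤ r := hk ▸ Nat.findGreatest_le r
    have hkr' : k < r := by
      refine lt_of_le_of_ne hkr ?_
      rintro rfl
      exact hall hPk
    have hPk1 : ¬ P (k + 1) := by
      intro h
      have := Nat.le_findGreatest (P := P) hkr' h
      omega
    obtain ⟨hb0, ⟨c₀, hc₀, c, hc, hbc⟩, ⟨e₀, he₀⟩, hbz⟩ := hb (k + 1) (by omega) hkr'
    choose! e he using hbz
    have h1 : c₀ * e₀ + ∑ z ∈ Z, c z * e z = 1 := by
      apply mul_left_cancel₀ hb0
      rw [mul_one, mul_add, Finset.mul_sum]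
      conv_rhs => rw [hbc, he₀]
      congr 1
      · ring
      · exact Finset.sum_congr rfl fun z hz => by linear_combination (-(c z)) * he z hz
    have hu : ∃ z ∈ Z, IsUnit (e z) := by
      by_contra hcon
      push Not at hcon
      have h2 : ∑ z ∈ Z, c z * e z ∈ maximalIdeal D := Ideal.sum_mem _ fun z hz =>
        Ideal.mul_mem_left _ _ ((IsLocalRing.mem_maximalIdeal _).mpr (hcon z hz))
      have h3 : IsUnit e₀ := by
        by_contra h3
        have h4 : c₀ * e₀ ∈ maximalIdeal D :=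
          Ideal.mul_mem_left _ _ ((IsLocalRing.mem_maximalIdeal _).mpr h3)
        have h5 := Ideal.add_mem _ h4 h2
        rw [h1] at h5
        exact (maximalIdeal.isMaximal D).ne_top ((Ideal.eq_top_iff_one _).mpr h5)
      apply hPk1
      intro z hz
      have h4 : a ^ (k + 1) ∣ b (k + 1) := by
        obtain ⟨e', he'⟩ := h3.exists_right_inv
        refine ⟨e', ?_⟩
        rw [he₀, mul_assoc, he', mul_one]
      exact h4.trans ⟨e z, he z hz⟩
    obtain ⟨u, huZ, hu⟩ := hu
    obtain ⟨u', hu'⟩ := hu.exists_right_inv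
    have hub : u ∣ b (k + 1) := ⟨u', by rw [he u huZ, mul_assoc, hu', mul_one]⟩
    have hu0 : u ≠ 0 := by
      rintro h0
      rw [h0, zero_dvd_iff] at hub
      exact hb0 hub
    obtain ⟨v, hv⟩ := hPk u huZ
    have hut : u ∣ a ^ (k + 1) := hub.trans ⟨e₀, he₀⟩
    obtain ⟨t, ht⟩ := hut
    have huz : ∀ z ∈ Z, u ∣ z := fun z hz => hub.trans ⟨e z, he z hz⟩
    choose! w hw using huz
    have hvt : v * t = a := by
      apply mul_left_cancel₀ (pow_ne_zero k ha0)
      rw [← mul_assoc, ← hv, ← ht, pow_succ]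
    refine ⟨k, hkr', u, huZ, v, t, w, hv.symm, hvt, fun z hz => (hw z hz).symm, ?_⟩
    intro R' hR' hle hvR htR hwR
    apply hred R' hR' hle fun j => if j ≤ k then a ^ j else u
    intro j h2 h3
    by_cases hjk : j ≤ k
    · simp only [if_pos hjk]
      refine ⟨pow_ne_zero _ ha0, (hb j h2 h3).2.2.1, ⟨1, R'.one_mem, (mul_one _).symm⟩, ?_⟩
      intro z hz
      refine ⟨a ^ (k - j) * v * w z, R'.mul_mem (R'.mul_mem (R'.pow_mem (hle ha) _) hvR)
        (hwR z hz), ?_⟩
      have h4 : a ^ k = a ^ j * a ^ (k - j) := by rw [← pow_add, Nat.add_sub_cancel' hjk]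
      conv_lhs => rw [hw z hz, hv, h4]
      ring
    · simp only [if_neg hjk]
      push Not at hjk
      refine ⟨hu0, (hb j h2 h3).2.2.2 u huZ, ?_, fun z hz => ⟨w z, hwR z hz, hw z hz⟩⟩
      refine ⟨t * a ^ (j - (k + 1)), R'.mul_mem htR (R'.pow_mem (hle ha) _), ?_⟩
      rw [← mul_assoc, ← ht, ← pow_add]
      congr 1
      omega

/-- **Regularity of the charts.** -/
theorem isRegularLocalRing_of_chart_data {R : Subring D} {a : D} {r : ℕ} (hr : 1 ≤ r)
    {Z : Finset D} {s : Finset D} (hs : RSP R s) (has : a ∈ s) (hZs : Z ⊆ s) (haZ : a ∉ Z)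
    (b : ℕ → D)
    (hb : ∀ j, 1 ≤ j → j ≤ r → b j ≠ 0 ∧ InJ R a Z j (b j) ∧ b j ∣ a ^ j ∧ ∀ z ∈ Z, b j ∣ z)
    (hgen : ∀ R' : Subring D, Dom R' → R ≤ R' →
      (∀ j, 1 ≤ j → j ≤ r → ∀ x, InJ R a Z j x → ∀ w, b j * w = x → w ∈ R') → R' = ⊤) :
    IsRegularLocalRing D := by
  classical
  rcases chart_cases (hs.mem a has).1 (hs.ne_zero has) b hb hgen with
    ⟨w, hw, hg⟩ | ⟨k, hk, u, huZ, v, t, w, hv, ht, hw, hg⟩
  · exact isRegularLocalRing_of_tower₁ hs has r hr w Z haZ hZs hw hg
  · refine isRegularLocalRing_of_tower₂ hs has (hZs huZ) ?_ k v t hv ht w (Z.erase u) ?_ ?_ ?_ ?_ ?_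
    · rintro rfl
      exact haZ huZ
    · exact fun h => haZ (Finset.mem_of_mem_erase h)
    · exact Finset.notMem_erase _ _
    · exact (Finset.erase_subset _ _).trans hZs
    · exact fun z hz => hw z (Finset.mem_of_mem_erase hz)
    · intro R' hR' hle hvR htR hwR
      apply hg R' hR' hle hvR htR
      intro z hz
      by_cases hzu : z = u
      · have h1 : w z = 1 := by
          have h2 := hw z hz
          rw [hzu] at h2 ⊢
          have hu0 : u ≠ 0 := hs.ne_zero (hZs huZ)
          apply mul_left_cancel₀ hu0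
          rw [h2, mul_one]
        rw [h1]
        exact R'.one_mem
      · exact hwR z (Finset.mem_erase.mpr ⟨hzu, hz⟩)

end Chart

end Pool.Agent.Lib.MP_6a3dac_ag
end

section

/-!
# The augmentation ideal of the involution on the charts is principal
-/

set_option autoImplicit false

namespace Pool.Agent.Lib.MP_6a3dac_ag

open IsLocalRing

section Elem

variable {D : Type} [CommRing D] [IsDomain D] {τ : D →+* D}

/-- The sums `ϖ ^ j + τ(ϖ) ^ j` are divisible by `ϖ ^ (2 j)`. -/
theorem exists_sum_eq (hτ : ∀ z, τ (τ z) = z) {ϖ ε e : D} {r : ℕ} (hr : 1 ≤ r) (hϖ0 : ϖ ≠ 0)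
    (hh : τ ϖ - ϖ = ε * ϖ ^ r) (hε : IsUnit ε) (he : τ ε - ε = e * ϖ ^ r) :
    (∃ η, IsUnit η ∧ τ ϖ = η * ϖ) ∧ ∀ j ≤ r, ∃ c, ϖ ^ j + τ ϖ ^ j = c * ϖ ^ (2 * j) := by
  obtain ⟨n, rfl⟩ : ∃ n, r = n + 1 := ⟨r - 1, by omega⟩
  have hη : τ ϖ = (1 + ε * ϖ ^ n) * ϖ := by
    rw [pow_succ] at hh
    linear_combination hh
  obtain ⟨η, hη'⟩ : ∃ η, η = 1 + ε * ϖ ^ n := ⟨_, rfl⟩
  rw [← hη'] at hη
  have hηu : IsUnit η := by
    refine IsUnit.of_mul_eq_one (τ η) ?_
    apply mul_right_cancel₀ hϖ0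
    calc η * τ η * ϖ = τ η * (η * ϖ) := by ring
      _ = τ η * τ ϖ := by rw [← hη]
      _ = τ (η * ϖ) := by rw [map_mul]
      _ = 1 * ϖ := by rw [← hη, hτ, one_mul]
  have hpow : ∀ j, ∃ q, η ^ j - 1 = q * ϖ ^ n := by
    intro j
    obtain ⟨q, hq⟩ : (η - 1) ∣ η ^ j - 1 ^ j := sub_dvd_pow_sub_pow η 1 j
    refine ⟨q * ε, ?_⟩
    rw [one_pow] at hq
    rw [hq, hη']
    ring
  have hEr : ∃ c, ϖ ^ (n + 1) + τ ϖ ^ (n + 1) = c * ϖ ^ (2 * (n + 1)) := by
    have h1 : τ ε * τ ϖ ^ (n + 1) = - (ε * ϖ ^ (n + 1)) := by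
      rw [← map_pow, ← map_mul, ← hh, map_sub, hτ]
      ring
    have hτε : IsUnit (τ ε) := hε.map τ
    obtain ⟨ε', hε'⟩ := hτε.exists_right_inv
    refine ⟨ε' * e, ?_⟩
    have h2 : τ ε * (ϖ ^ (n + 1) + τ ϖ ^ (n + 1)) = e * ϖ ^ (2 * (n + 1)) := by
      rw [two_mul, pow_add]
      linear_combination h1 + (ϖ ^ (n + 1)) * he
    calc ϖ ^ (n + 1) + τ ϖ ^ (n + 1)
        = (τ ε * ε') * (ϖ ^ (n + 1) + τ ϖ ^ (n + 1)) := by rw [hε', one_mul]
      _ = ε' * (τ ε * (ϖ ^ (n + 1) + τ ϖ ^ (n + 1))) := by ring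
      _ = ε' * e * ϖ ^ (2 * (n + 1)) := by rw [h2]; ring
  have h2 : ∃ q, (2 : D) = q * ϖ ^ n := by
    obtain ⟨c, hc⟩ := hEr
    obtain ⟨q, hq⟩ := hpow (n + 1)
    refine ⟨c * ϖ - q, ?_⟩
    apply mul_right_cancel₀ (pow_ne_zero (n + 1) hϖ0)
    rw [hη, mul_pow] at hc
    have h3 : (c * ϖ - q) * ϖ ^ n * ϖ ^ (n + 1) = c * ϖ ^ (2 * (n + 1)) - q * ϖ ^ n * ϖ ^ (n + 1) := by
      have : ϖ ^ (2 * (n + 1)) = ϖ * ϖ ^ n * ϖ ^ (n + 1) := by ring
      rw [this]; ring
    rw [h3, ← hc, ← hq]
    ring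
  refine ⟨⟨η, hηu, hη⟩, fun j hj => ?_⟩
  rcases Nat.lt_or_ge n j with hj' | hj'
  · have : j = n + 1 := by omega
    rw [this]
    exact hEr
  · obtain ⟨q, hq⟩ := hpow j
    obtain ⟨q₂, hq₂⟩ := h2
    refine ⟨(q₂ + q) * ϖ ^ (n - j), ?_⟩
    have h3 : ϖ ^ n = ϖ ^ (n - j) * ϖ ^ j := by rw [← pow_add, Nat.sub_add_cancel hj']
    rw [hη, mul_pow]
    have h4 : η ^ j = 1 + q * ϖ ^ n := by rw [← hq]; ring
    rw [h4, two_mul, pow_add]
    rw [h3] at hq₂ ⊢
    linear_combination (ϖ ^ j) * hq₂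

end Elem

section Sub

variable {D : Type} [CommRing D] {τ : D →+* D}

/-- The elements whose difference with their conjugate is divisible by `h`. -/
def diffRing (τ : D →+* D) (h : D) : Subring D where
  carrier := {z | ∃ c, τ z - z = c * h}
  mul_mem' := by
    rintro a b ⟨c, hc⟩ ⟨d, hd⟩
    refine ⟨c * τ b + a * d, ?_⟩
    rw [map_mul]
    linear_combination (τ b) * hc + a * hd
  one_mem' := ⟨0, by simp⟩
  add_mem' := by
    rintro a b ⟨c, hc⟩ ⟨d, hd⟩
    refine ⟨c + d, ?_⟩
    rw [map_add]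
    linear_combination hc + hd
  zero_mem' := ⟨0, by simp⟩
  neg_mem' := by
    rintro a ⟨c, hc⟩
    refine ⟨-c, ?_⟩
    rw [map_neg]
    linear_combination -hc

theorem mem_diffRing {h z : D} : z ∈ diffRing τ h ↔ ∃ c, τ z - z = c * h := Iff.rfl

theorem dom_diffRing [IsLocalRing D] (h : D) : Dom (diffRing τ h) := by
  rintro a ⟨c, hc⟩ b hab
  refine ⟨-(b * τ b * c), ?_⟩
  have h1 : τ a * τ b = 1 := by rw [← map_mul, hab, map_one]
  calc τ b - b = (a * b) * τ b - (τ a * τ b) * b := by rw [hab, h1, one_mul, one_mul]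
    _ = -(b * τ b * (τ a - a)) := by ring
    _ = -(b * τ b * c) * h := by rw [hc]; ring

end Sub

section Main

variable {D : Type} [CommRing D] [IsDomain D] [IsLocalRing D] {τ : D →+* D}

/-- **The augmentation ideal is principal.** -/
theorem exists_principal (hτ : ∀ z, τ (τ z) = z) {R : Subring D} {ϖ ε e : D} {r : ℕ}
    (hϖ : ϖ ∈ R) (hr : 1 ≤ r) (hϖ0 : ϖ ≠ 0)
    (hh : τ ϖ - ϖ = ε * ϖ ^ r) (hε : IsUnit ε) (he : τ ε - ε = e * ϖ ^ r) {Z : Finset D}
    (hZ0 : ∀ z ∈ Z, z ≠ 0) (hZ : ∀ z ∈ Z, ∃ y ∈ R, τ y - y = z)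
    (hRΔ : ∀ x ∈ R, InJ R ϖ Z r (τ x - x)) (b : ℕ → D)
    (hb : ∀ j, 1 ≤ j → j ≤ r → b j ≠ 0 ∧ InJ R ϖ Z j (b j) ∧ b j ∣ ϖ ^ j ∧ ∀ z ∈ Z, b j ∣ z)
    (hgen : ∀ R' : Subring D, Dom R' → R ≤ R' →
      (∀ j, 1 ≤ j → j ≤ r → ∀ x, InJ R ϖ Z j x → ∀ w, b j * w = x → w ∈ R') → R' = ⊤) :
    ∃ y, τ y - y ≠ 0 ∧ ∀ z, ∃ c, τ z - z = c * (τ y - y) := by
  classical
  obtain ⟨⟨η, hη, hτϖ⟩, hE⟩ := exists_sum_eq hτ hr hϖ0 hh hε he
  obtain ⟨η', hη'⟩ := hη.exists_right_inv
  obtain ⟨ε', hε'⟩ := hε.exists_right_inv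
  have hZτ : ∀ z ∈ Z, τ z = -z := by
    intro z hz
    obtain ⟨y, -, hy⟩ := hZ z hz
    rw [← hy, map_sub, hτ]
    ring
  have hfin : ∀ y, τ y - y ≠ 0 → diffRing τ (τ y - y) = ⊤ →
      ∃ y, τ y - y ≠ 0 ∧ ∀ z, ∃ c, τ z - z = c * (τ y - y) := by
    intro y hy htop
    refine ⟨y, hy, fun z => ?_⟩
    have : z ∈ diffRing τ (τ y - y) := htop ▸ Subring.mem_top z
    exact this
  have hRle : ∀ h, (∃ q, ϖ ^ r = q * h) → (∀ z ∈ Z, ∃ q, z = q * h) → R ≤ diffRing τ h := by
    intro h h1 h2 x hx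
    obtain ⟨q, -, hq⟩ := (hRΔ x hx).dvd (R' := ⊤) le_top (g := h) (by
      obtain ⟨q, hq⟩ := h1
      exact ⟨q, Subring.mem_top _, by rw [hq, mul_comm]⟩) (by
      intro z hz
      obtain ⟨q, hq⟩ := h2 z hz
      exact ⟨q, Subring.mem_top _, by rw [hq, mul_comm]⟩)
    exact ⟨q, by rw [hq, mul_comm]⟩
  rcases chart_cases hϖ hϖ0 b hb hgen with
    ⟨w, hw, hg⟩ | ⟨k, hk, u, huZ, v, t, w, hv, ht, hw, hg⟩
  · have hy : τ ϖ - ϖ ≠ 0 := by
      rw [hh]
      exact mul_ne_zero hε.ne_zero (pow_ne_zero _ hϖ0)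
    refine hfin ϖ hy (hg _ (dom_diffRing _) (hRle _ ⟨ε', ?_⟩ fun z hz => ⟨ε' * w z, ?_⟩) ?_)
    · rw [hh, ← mul_assoc, mul_comm ε', hε', one_mul]
    · rw [hh]
      calc z = ϖ ^ r * w z := (hw z hz).symm
        _ = (ε * ε') * (ϖ ^ r * w z) := by rw [hε', one_mul]
        _ = _ := by ring
    · intro z hz
      rw [mem_diffRing]
      obtain ⟨c, hc⟩ := hE r le_rfl
      -- `τ (w z) = - z / τ ϖ ^ r`
      have h1 : τ ϖ ^ r * τ (w z) = -z := by
        rw [← map_pow, ← map_mul, hw z hz, hZτ z hz]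
      have h2 : τ ϖ ^ r * (τ (w z) - w z) = - (w z * (c * ϖ ^ (2 * r))) := by
        rw [mul_sub, h1, ← hc]
        linear_combination hw z hz
      refine ⟨-(η' ^ r * w z * c * ε'), ?_⟩
      have h3 : η ^ r * η' ^ r = 1 := by rw [← mul_pow, hη', one_pow]
      apply mul_left_cancel₀ (a := τ ϖ ^ r)
      · rw [hτϖ]
        exact pow_ne_zero _ (mul_ne_zero hη.ne_zero hϖ0)
      · rw [h2, hh, hτϖ, mul_pow, two_mul, pow_add]
        linear_combination ((η ^ r * η' ^ r) * w z * c * ϖ ^ r * ϖ ^ r) * hε' +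
          (w z * c * ϖ ^ r * ϖ ^ r) * h3
  · obtain ⟨y, hyR, hy⟩ := hZ u huZ
    have hu0 : u ≠ 0 := hZ0 u huZ
    have hτu := hZτ u huZ
    have hyne : τ y - y ≠ 0 := by rw [hy]; exact hu0
    have hv0 : v ≠ 0 := by
      rintro rfl
      rw [mul_zero] at hv
      exact hu0 hv.symm
    have hut : ϖ ^ (k + 1) = t * u := by
      rw [pow_succ, ← hv]
      linear_combination (-(ϖ ^ k)) * ht
    have hτp0 : ∀ j, τ ϖ ^ j ≠ 0 := by
      intro j
      rw [hτϖ]
      exact pow_ne_zero _ (mul_ne_zero hη.ne_zero hϖ0)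
    refine hfin y hyne (hg _ (dom_diffRing _) (hRle _ ⟨ϖ ^ (r - (k + 1)) * t, ?_⟩
      fun z hz => ⟨w z, ?_⟩) ?_ ?_ ?_)
    · rw [hy, mul_assoc, ← hut, ← pow_add]
      congr 1
      omega
    · rw [hy, mul_comm, hw z hz]
    · -- `v`
      rw [mem_diffRing, hy]
      obtain ⟨c, hc⟩ := hE k (by omega)
      have h1 : τ ϖ ^ k * τ v = -u := by
        rw [← map_pow, ← map_mul, hv, hτu]
      have h2 : τ ϖ ^ k * (τ v - v) = - (v * (c * ϖ ^ (2 * k))) := by
        rw [mul_sub, h1, ← hc, ← hv]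
        ring
      refine ⟨-(η' ^ k * c), ?_⟩
      have h3 : η ^ k * η' ^ k = 1 := by rw [← mul_pow, hη', one_pow]
      apply mul_left_cancel₀ (hτp0 k)
      rw [h2, hτϖ, mul_pow, two_mul, pow_add]
      linear_combination (-(c * ϖ ^ k) * (η ^ k * η' ^ k)) * hv + (c * ϖ ^ k * v * ϖ ^ k) * h3
    · -- `t`
      rw [mem_diffRing, hy]
      obtain ⟨c, hc⟩ := hE (k + 1) (by omega)
      refine ⟨-(c * t ^ 2), ?_⟩
      have h1 : τ ϖ ^ (k + 1) = - (τ t * u) := by
        rw [← map_pow, hut, map_mul, hτu]; ring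
      apply mul_right_cancel₀ hu0
      have h2 : ϖ ^ (2 * (k + 1)) = (t * u) ^ 2 := by
        rw [← hut, ← pow_mul, mul_comm]
      rw [h1, h2] at hc
      rw [hut] at hc
      linear_combination -hc
    · intro z hz
      rw [mem_diffRing]
      refine ⟨0, ?_⟩
      rw [zero_mul, sub_eq_zero]
      apply mul_left_cancel₀ hu0
      have h1 : τ u * τ (w z) = τ z := by rw [← map_mul, hw z hz]
      rw [hτu, hZτ z hz] at h1
      linear_combination -h1 - hw z hz

end Main

end Pool.Agent.Lib.MP_6a3dac_ag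
end

section

/-!
# Localizations inside a local ring, and the local theorem
-/

set_option autoImplicit false

namespace Pool.Agent.Lib.MP_6a3dac_ag

open IsLocalRing

section General

theorem isRegularLocalRing_of_atPrime {A B : Type} [CommRing A] [IsRegularRing A] [CommRing B]
    [Algebra A B] (q : Ideal A) [q.IsPrime] [IsLocalization.AtPrime B q] :
    IsRegularLocalRing B :=
  IsRegularLocalRing.of_ringEquiv (IsLocalization.algEquiv q.primeCompl
    (Localization.AtPrime q) B).toRingEquiv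

/-- The quotient of a localization at a prime is regular if the quotient of the ring is. -/
theorem isRegularLocalRing_quotient_atPrime {A B : Type} [CommRing A] [CommRing B]
    [Algebra A B] (q : Ideal A) [hq : q.IsPrime] [IsLocalization.AtPrime B q] (I : Ideal A)
    (hI : I ≤ q) (hreg : IsRegularRing (A ⧸ I)) :
    IsRegularLocalRing (B ⧸ I.map (algebraMap A B)) := by
  have h1 : IsLocalization (q.primeCompl.map (Ideal.Quotient.mk I)) (B ⧸ I.map (algebraMap A B)) :=
    IsLocalization.of_surjective q.primeCompl B (Ideal.Quotient.mk I) Ideal.Quotient.mk_surjective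
      (Ideal.Quotient.mk (I.map (algebraMap A B))) Ideal.Quotient.mk_surjective rfl (by simp)
  have hker : RingHom.ker (Ideal.Quotient.mk I) ≤ q := by rwa [Ideal.mk_ker]
  have hqp : (q.map (Ideal.Quotient.mk I)).IsPrime :=
    Ideal.map_isPrime_of_surjective Ideal.Quotient.mk_surjective hker
  have h2 : q.primeCompl.map (Ideal.Quotient.mk I) = (q.map (Ideal.Quotient.mk I)).primeCompl := by
    ext x
    obtain ⟨x, rfl⟩ := Ideal.Quotient.mk_surjective x
    have h3 : Ideal.Quotient.mk I x ∈ q.map (Ideal.Quotient.mk I) ↔ x ∈ q := by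
      constructor
      · intro h
        have h4 : x ∈ (q.map (Ideal.Quotient.mk I)).comap (Ideal.Quotient.mk I) := h
        rw [Ideal.comap_map_of_surjective _ Ideal.Quotient.mk_surjective] at h4
        have h5 : Ideal.comap (Ideal.Quotient.mk I) ⊥ ≤ q := hker
        rwa [sup_eq_left.mpr h5] at h4
      · exact Ideal.mem_map_of_mem _
    rw [Ideal.mem_primeCompl_iff, h3]
    constructor
    · rintro ⟨y, hy, hxy⟩ hx
      have h6 : y - x ∈ I := (Ideal.Quotient.mk_eq_mk_iff_sub_mem _ _).mp hxy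
      apply hy
      have := q.add_mem (hI h6) hx
      rwa [sub_add_cancel] at this
    · intro hx
      exact ⟨x, hx, rfl⟩
  rw [h2] at h1
  have h7 : IsLocalization.AtPrime (B ⧸ I.map (algebraMap A B)) (q.map (Ideal.Quotient.mk I)) := h1
  exact isRegularLocalRing_of_atPrime (q.map (Ideal.Quotient.mk I))

end General

section LocIn

variable {G D : Type} [CommRing G] [CommRing D]

/-- The elements of `D` which are quotients of elements of `G`. -/
def locIn (φ : G →+* D) : Subring D where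
  carrier := {z | ∃ a s : G, IsUnit (φ s) ∧ z * φ s = φ a}
  mul_mem' := by
    rintro z w ⟨a, s, hs, h1⟩ ⟨b, t, ht, h2⟩
    refine ⟨a * b, s * t, ?_, ?_⟩
    · rw [map_mul]; exact hs.mul ht
    · rw [map_mul, map_mul, ← h1, ← h2]; ring
  one_mem' := ⟨1, 1, by simp, by simp⟩
  add_mem' := by
    rintro z w ⟨a, s, hs, h1⟩ ⟨b, t, ht, h2⟩
    refine ⟨a * t + b * s, s * t, ?_, ?_⟩
    · rw [map_mul]; exact hs.mul ht
    · rw [map_mul, map_add, map_mul, map_mul, ← h1, ← h2]; ring
  zero_mem' := ⟨0, 1, by simp, by simp⟩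
  neg_mem' := by
    rintro z ⟨a, s, hs, h1⟩
    exact ⟨-a, s, hs, by rw [map_neg, ← h1]; ring⟩

theorem mem_locIn {φ : G →+* D} {z : D} :
    z ∈ locIn φ ↔ ∃ a s : G, IsUnit (φ s) ∧ z * φ s = φ a := Iff.rfl

theorem map_mem_locIn (φ : G →+* D) (a : G) : φ a ∈ locIn φ := ⟨a, 1, by simp, by simp⟩

variable [IsDomain D] [IsLocalRing D]

theorem dom_locIn (φ : G →+* D) : Dom (locIn φ) := by
  rintro z ⟨a, s, hs, h1⟩ w hzw
  refine ⟨s, a, ?_, ?_⟩
  · rw [← h1]
    exact (IsUnit.of_mul_eq_one w hzw).mul hs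
  · rw [← h1, ← mul_assoc, mul_comm w z, hzw, one_mul]

theorem locIn_le {φ : G →+* D} {R' : Subring D} (h : Dom R') (hφ : ∀ a, φ a ∈ R') :
    locIn φ ≤ R' := by
  rintro z ⟨a, s, hs, h1⟩
  obtain ⟨t, ht⟩ := hs.exists_right_inv
  have h2 : z = φ a * t := by rw [← h1, mul_assoc, ht, mul_one]
  rw [h2]
  exact R'.mul_mem (hφ a) (h _ (hφ s) t ht)

/-- The map from `G` to the localization. -/
def toLocIn (φ : G →+* D) : G →+* locIn φ := φ.codRestrict (locIn φ) (map_mem_locIn φ)

theorem isLocalization_locIn (φ : G →+* D) (hφ : Function.Injective φ) :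
    letI := (toLocIn φ).toAlgebra
    IsLocalization.AtPrime (locIn φ) ((maximalIdeal D).comap φ) := by
  letI := (toLocIn φ).toAlgebra
  have hmem : ∀ s, s ∈ ((maximalIdeal D).comap φ).primeCompl ↔ IsUnit (φ s) := by
    intro s
    rw [Ideal.mem_primeCompl_iff, Ideal.mem_comap, IsLocalRing.mem_maximalIdeal,
      mem_nonunits_iff, not_not]
  refine ⟨⟨?_, ?_, ?_⟩⟩
  · rintro ⟨s, hs⟩
    change IsUnit (toLocIn φ s)
    rw [(dom_locIn φ).isUnit_iff]
    exact (hmem s).mp hs
  · rintro ⟨z, a, s, hs, h1⟩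
    exact ⟨⟨a, ⟨s, (hmem s).mpr hs⟩⟩, Subtype.ext h1⟩
  · intro a b hab
    refine ⟨1, ?_⟩
    have : φ a = φ b := congrArg Subtype.val hab
    rw [hφ this]

theorem isRegularLocalRing_locIn (φ : G →+* D) (hφ : Function.Injective φ) [IsRegularRing G] :
    IsRegularLocalRing (locIn φ) := by
  letI := (toLocIn φ).toAlgebra
  have := isLocalization_locIn φ hφ
  exact isRegularLocalRing_of_atPrime ((maximalIdeal D).comap φ)

theorem isRegularLocalRing_locIn_quotient (φ : G →+* D) (hφ : Function.Injective φ) (X : Set G)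
    (hX : ∀ x ∈ X, φ x ∈ maximalIdeal D) (hreg : IsRegularRing (G ⧸ Ideal.span X)) :
    IsRegularLocalRing (locIn φ ⧸ Ideal.span (toLocIn φ '' X)) := by
  letI := (toLocIn φ).toAlgebra
  have := isLocalization_locIn φ hφ
  have h1 := isRegularLocalRing_quotient_atPrime (B := locIn φ) ((maximalIdeal D).comap φ)
    (Ideal.span X) (by rw [Ideal.span_le]; exact hX) hreg
  rw [Ideal.map_span] at h1
  exact h1

theorem mem_span_locIn_iff (φ : G →+* D) (hφ : Function.Injective φ) (X : Set G) (z : locIn φ) :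
    z ∈ Ideal.span (toLocIn φ '' X) ↔
      ∃ a ∈ Ideal.span X, ∃ s, IsUnit (φ s) ∧ (z : D) * φ s = φ a := by
  letI := (toLocIn φ).toAlgebra
  have := isLocalization_locIn φ hφ
  have h1 : Ideal.span (toLocIn φ '' X) = (Ideal.span X).map (algebraMap G (locIn φ)) := by
    rw [Ideal.map_span]; rfl
  have hmem : ∀ s, s ∈ ((maximalIdeal D).comap φ).primeCompl ↔ IsUnit (φ s) := by
    intro s
    rw [Ideal.mem_primeCompl_iff, Ideal.mem_comap, IsLocalRing.mem_maximalIdeal,
      mem_nonunits_iff, not_not]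
  rw [h1, IsLocalization.mem_map_algebraMap_iff ((maximalIdeal D).comap φ).primeCompl]
  constructor
  · rintro ⟨⟨⟨a, ha⟩, ⟨s, hs⟩⟩, h2⟩
    exact ⟨a, ha, s, (hmem s).mp hs, congrArg Subtype.val h2⟩
  · rintro ⟨a, ha, s, hs, h2⟩
    exact ⟨⟨⟨a, ha⟩, ⟨s, (hmem s).mpr hs⟩⟩, Subtype.ext h2⟩

end LocIn

end Pool.Agent.Lib.MP_6a3dac_ag
end

section

/-!
# Orders in the coordinate ring of a quadric
-/

set_option autoImplicit false

namespace Pool.Agent.Lib.MP_6a3dac_ag

open MvPolynomial IsDedekindDomain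

section

variable {K : Type} [CommRing K] {n : ℕ}

theorem mk_mem_quadricGr (B : Matrix (Fin n) (Fin n) K) {i : ℕ} {p : MvPolynomial (Fin n) K}
    (hp : p.IsHomogeneous i) : Ideal.Quotient.mk (Ideal.span {quadPoly B}) p ∈ quadricGr B i :=
  ⟨p, hp, rfl⟩

theorem isHomogeneous_linSubst_X (h : Matrix (Fin n) (Fin n) K) (i : Fin n) :
    (linSubst h (X i)).IsHomogeneous 1 := by
  rw [linSubst_X]
  exact IsHomogeneous.sum _ _ _ fun j _ => isHomogeneous_C_mul_X _ _

/-- The coordinates `∑ j, h i j x_j` in the coordinate ring. -/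
noncomputable def coordSet (B h : Matrix (Fin n) (Fin n) K) : Set (QCoord B) :=
  Set.range fun i => Ideal.Quotient.mk (Ideal.span {quadPoly B}) (linSubst h (X i))

end

section

variable {R O K : Type} [CommRing R] [CommRing O] [Field K] [Algebra R K]
  [Algebra R O] [Algebra O K] [IsScalarTower R O K] {n : ℕ} (p : Ideal R) [p.IsPrime]
  [IsLocalization.AtPrime O p] (B h : Matrix (Fin n) (Fin n) K)

theorem algebraMap_qcoord (r : R) : algebraMap R (QCoord B) r =
    Ideal.Quotient.mk _ (C (algebraMap R K r)) := rfl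

include p in
theorem mem_range_psi (a : QCoord B) : a ∈ (psi O B h).range ↔
    a ∈ locSub p (Algebra.adjoin R (coordSet B h)) := by
  have hC : ∀ r : R, psi O B h (C (algebraMap R O r)) = algebraMap R (QCoord B) r := by
    intro r
    rw [psi_apply, map_C, linSubst_C, algebraMap_qcoord, IsScalarTower.algebraMap_apply R O K]
  have hXc : ∀ i, psi O B h (X i) = Ideal.Quotient.mk _ (linSubst h (X i)) := by
    intro i
    rw [psi_apply, map_X]
  constructor
  · rintro ⟨q, rfl⟩
    induction q using MvPolynomial.induction_on with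
    | C x =>
      obtain ⟨r, s, rfl⟩ := IsLocalization.exists_mk'_eq p.primeCompl x
      refine ⟨s, s.2, ?_⟩
      rw [Algebra.smul_def, ← hC, ← map_mul, ← map_mul, IsLocalization.mk'_spec', hC]
      exact Subalgebra.algebraMap_mem _ _
    | add f g hf hg =>
      rw [map_add]
      exact Subalgebra.add_mem _ hf hg
    | mul_X f i hf =>
      rw [map_mul]
      refine Subalgebra.mul_mem _ hf (le_locSub _ _ (Algebra.subset_adjoin ⟨i, ?_⟩))
      exact (hXc i).symm
  · rintro ⟨r, hr, ha⟩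
    have h1 : ∀ x ∈ Algebra.adjoin R (coordSet B h), x ∈ (psi O B h).range := by
      intro x hx
      induction hx using Algebra.adjoin_induction with
      | mem x hx =>
        obtain ⟨i, rfl⟩ := hx
        exact ⟨X i, hXc i⟩
      | algebraMap r => exact ⟨_, hC r⟩
      | add x y _ _ hx hy => exact Subring.add_mem _ hx hy
      | mul x y _ _ hx hy => exact Subring.mul_mem _ hx hy
    obtain ⟨q, hq⟩ := h1 _ ha
    refine ⟨C (IsLocalization.mk' O 1 (⟨r, hr⟩ : p.primeCompl)) * q, ?_⟩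
    rw [map_mul, hq, Algebra.smul_def, ← hC, ← mul_assoc, ← map_mul, ← map_mul,
      IsLocalization.mk'_spec, map_one, map_one, map_one, one_mul]

end

end Pool.Agent.Lib.MP_6a3dac_ag
end

section

/-!
# Regularity of the local models of quadrics
-/

set_option autoImplicit false

namespace Pool.Agent.Lib.MP_6a3dac_ag

open MvPolynomial IsDedekindDomain

section RegAt

variable {R K A : Type} [CommRing R] [CommRing K] [CommRing A] [Algebra R K] [Algebra K A]
  [Algebra R A] [IsScalarTower R K A] (𝒜 : ℕ → Submodule K A) [GradedAlgebra 𝒜]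

/-- All homogeneous local rings of a homogeneous subalgebra at relevant homogeneous primes are
regular. -/
def RegAt (S : Subalgebra R A) : Prop :=
  ∀ hS : IsHomog 𝒜 S,
    letI := subGradedAlgebra 𝒜 hS
    ∀ (y : Ideal S) (_ : y.IsPrime), y.IsHomogeneous (subGr 𝒜 S) →
      ¬ (HomogeneousIdeal.irrelevant (subGr 𝒜 S)).toIdeal ≤ y →
      IsRegularLocalRing (HomogeneousLocalization.AtPrime (subGr 𝒜 S) y)

end RegAt

section

variable {R O K : Type} [CommRing R] [CommRing O] [IsDomain O] [IsDiscreteValuationRing O]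
  [Field K] [CharZero K] [Algebra R K] [Algebra R O] [Algebra O K] [IsScalarTower R O K]
  [IsFractionRing O K] {n : ℕ} (p : Ideal R) [p.IsPrime] [IsLocalization.AtPrime O p]

include p in
theorem regAt_of_goodForm (hn : 2 ≤ n) {B g h : Matrix (Fin n) (Fin n) K} (hgh : g * h = 1)
    (hhg : h * g = 1) {c : K} (hc : c ≠ 0) {A : Matrix (Fin n) (Fin n) O} {i₀ : Fin n}
    (e : (A + A.transpose).map (algebraMap O K) = c • (g.transpose * (B + B.transpose) * g))
    (hA : GoodForm A i₀) :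
    RegAt (quadricGr B) (locSub p (Algebra.adjoin R (coordSet B h))) := by
  intro hS y hy hyh hirr
  obtain ⟨π, hπ⟩ := IsDiscreteValuationRing.exists_irreducible O
  let := subGradedAlgebra (quadricGr B) hS
  let T := locSub p (Algebra.adjoin R (coordSet B h))
  let ψ : MvPolynomial (Fin n) O →+* T :=
    (psi O B h).codRestrict T.toSubring fun x => (mem_range_psi p B h _).mp ⟨x, rfl⟩
  have hψcoe : ∀ q, ((ψ q : T) : QCoord B) = psi O B h q := fun q => rfl
  have hψsurj : Function.Surjective ψ := by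
    rintro ⟨a, ha⟩
    obtain ⟨q, hq⟩ := (mem_range_psi (O := O) p B h a).mpr ha
    exact ⟨q, Subtype.ext hq⟩
  have hC : ∀ r, ψ (C r) ∈ subGr (quadricGr B) T 0 := by
    intro r
    rw [mem_subGr, hψcoe, psi_apply, map_C, linSubst_C]
    exact mk_mem_quadricGr B (isHomogeneous_C _ _)
  have hX : ∀ i, ψ (X i) ∈ subGr (quadricGr B) T 1 := by
    intro i
    rw [mem_subGr, hψcoe, psi_apply, map_X]
    exact mk_mem_quadricGr B (isHomogeneous_linSubst_X h i)
  have hker : RingHom.ker ψ = Ideal.span {quadPoly A} := by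
    rw [← ker_psi hgh hhg hc e hπ (hA.not_dvd hn hπ)]
    ext q
    rw [RingHom.mem_ker, RingHom.mem_ker, ← hψcoe]
    exact ⟨fun h => by rw [h]; rfl, fun h => Subtype.ext h⟩
  refine isRegularLocalRing_of_graded_hypersurface (subGr (quadricGr B) T) ψ hC hX hψsurj hker
    y hyh ?_ ?_
  · by_contra hcon
    push Not at hcon
    apply hirr
    have hhom : ∀ (q : MvPolynomial (Fin n) O) (k : ℕ), 0 < k → q.IsHomogeneous k → ψ q ∈ y := by
      intro q k hk hq
      rw [q.as_sum, map_sum]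
      refine y.sum_mem fun d hd => ?_
      have hdk : d.degree = k := by
        have := hq (mem_support_iff.mp hd)
        rw [← this, Finsupp.degree_eq_weight_one]
        rfl
      have hd0 : d ≠ 0 := by
        rintro rfl
        rw [map_zero] at hdk
        omega
      obtain ⟨i, hi⟩ := Finsupp.ne_iff.mp hd0
      rw [monomial_eq, map_mul, Finsupp.prod, map_prod]
      refine y.mul_mem_left _ (Ideal.mem_of_dvd _
        (Finset.dvd_prod_of_mem (fun i => ψ (X i ^ d i)) (Finsupp.mem_support_iff.mpr hi)) ?_)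
      rw [map_pow]
      exact Ideal.pow_mem_of_mem _ (hcon i) _ (Nat.pos_of_ne_zero hi)
    rw [HomogeneousIdeal.toIdeal_irrelevant_le]
    intro i hi s hs
    obtain ⟨q, rfl⟩ := hψsurj s
    have h1 := decompose_map (subGr (quadricGr B) T) ψ hC hX q i
    rw [DirectSum.decompose_of_mem_same (subGr (quadricGr B) T) hs] at h1
    change ψ q ∈ y
    rw [h1]
    exact hhom _ i hi (homogeneousComponent_isHomogeneous i q)
  · intro Y hYp hYh hYX s hs
    exact hA.notMem Y hYh hYX hs

end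

end Pool.Agent.Lib.MP_6a3dac_ag
end

section

/-!
# Homogeneous local rings as subrings of a field
-/

set_option autoImplicit false

namespace Pool.Agent.Lib.MP_6a3dac_ag

open HomogeneousLocalization

section

variable {R K A F : Type} [CommRing R] [CommRing K] [CommRing A] [Algebra R K] [Algebra K A]
  [Algebra R A] [IsScalarTower R K A] [Field F]
  (𝒜 : ℕ → Submodule K A) [GradedAlgebra 𝒜] (ι : A →+* F) (S : Subalgebra R A)
  (y : Ideal S) [hy : y.IsPrime]

/-- The ring of fractions of homogeneous elements of `S` of the same degree with denominator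
outside `y`, inside a field. -/
def homLoc : Subring F where
  carrier := {z | ∃ (n : ℕ) (a s : S), (a : A) ∈ 𝒜 n ∧ (s : A) ∈ 𝒜 n ∧ s ∉ y ∧ z * ι s = ι a}
  mul_mem' := by
    rintro z w ⟨n, a, s, ha, hs, hsy, h1⟩ ⟨m, b, t, hb, ht, hty, h2⟩
    refine ⟨n + m, a * b, s * t, SetLike.mul_mem_graded ha hb, SetLike.mul_mem_graded hs ht,
      hy.mul_notMem hsy hty, ?_⟩
    rw [Subalgebra.coe_mul, Subalgebra.coe_mul, map_mul, map_mul, ← h1, ← h2]
    ring
  one_mem' := ⟨0, 1, 1, SetLike.GradedOne.one_mem, SetLike.GradedOne.one_mem,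
    fun h => hy.ne_top ((Ideal.eq_top_iff_one _).mpr h), by simp⟩
  add_mem' := by
    rintro z w ⟨n, a, s, ha, hs, hsy, h1⟩ ⟨m, b, t, hb, ht, hty, h2⟩
    refine ⟨n + m, a * t + s * b, s * t, (𝒜 (n + m)).add_mem (SetLike.mul_mem_graded ha ht)
      (SetLike.mul_mem_graded hs hb), SetLike.mul_mem_graded hs ht, hy.mul_notMem hsy hty, ?_⟩
    rw [Subalgebra.coe_add, Subalgebra.coe_mul, Subalgebra.coe_mul, Subalgebra.coe_mul, map_mul,
      map_add, map_mul, map_mul, ← h1, ← h2]
    ring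
  zero_mem' := ⟨0, 0, 1, (𝒜 0).zero_mem, SetLike.GradedOne.one_mem,
    fun h => hy.ne_top ((Ideal.eq_top_iff_one _).mpr h), by simp⟩
  neg_mem' := by
    rintro z ⟨n, a, s, ha, hs, hsy, h1⟩
    exact ⟨n, -a, s, (𝒜 n).neg_mem ha, hs, hsy, by
      rw [Subalgebra.coe_neg, map_neg, ← h1]; ring⟩

theorem mem_homLoc {z : F} : z ∈ homLoc 𝒜 ι S y ↔
    ∃ (n : ℕ) (a s : S), (a : A) ∈ 𝒜 n ∧ (s : A) ∈ 𝒜 n ∧ s ∉ y ∧ z * ι s = ι a := Iff.rfl

variable (hι : Function.Injective ι)
include hι

omit [Algebra R K] [IsScalarTower R K A] [GradedAlgebra 𝒜] in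
theorem map_ne_zero_of_notMem {s : S} (hs : s ∉ y) : ι s ≠ 0 := by
  intro h
  apply hs
  have h1 : (s : A) = 0 := hι (by rw [h, map_zero])
  have h2 : s = 0 := Subtype.ext h1
  rw [h2]
  exact y.zero_mem

/-- The criterion for units. -/
theorem isUnit_homLoc_iff (z : homLoc 𝒜 ι S y) {n : ℕ} {a s : S} (ha : (a : A) ∈ 𝒜 n)
    (hs : (s : A) ∈ 𝒜 n) (hsy : s ∉ y) (h : (z : F) * ι s = ι a) : IsUnit z ↔ a ∉ y := by
  constructor
  · intro hz hay
    obtain ⟨w, hw⟩ := hz.exists_right_inv
    obtain ⟨m, b, t, hb, ht, hty, h2⟩ := w.2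
    have h3 : (z : F) * w = 1 := congrArg Subtype.val hw
    have h4 : ι (s * t) = ι (a * b) := by
      rw [map_mul, map_mul, ← h, ← h2]
      calc ι s * ι t = (z * w) * (ι s * ι t) := by rw [h3, one_mul]
        _ = _ := by ring
    have h5 : s * t = a * b := Subtype.ext (hι h4)
    have h6 : s * t ∈ y := by
      rw [h5]
      exact y.mul_mem_right _ hay
    exact hy.mul_notMem hsy hty h6
  · intro hay
    have h0 := map_ne_zero_of_notMem ι S y hι hay
    have h1 := map_ne_zero_of_notMem ι S y hι hsy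
    refine IsUnit.of_mul_eq_one ⟨ι s / ι a, n, s, a, hs, ha, hay, ?_⟩ ?_
    · rw [div_mul_cancel₀ _ h0]
    · apply Subtype.ext
      change (z : F) * (ι s / ι a) = 1
      rw [← mul_div_assoc, h, div_self h0]

theorem isLocalRing_homLoc : IsLocalRing (homLoc 𝒜 ι S y) := by
  apply IsLocalRing.of_nonunits_add
  intro z w hz hw
  obtain ⟨n, a, s, ha, hs, hsy, h1⟩ := z.2
  obtain ⟨m, b, t, hb, ht, hty, h2⟩ := w.2
  rw [mem_nonunits_iff, isUnit_homLoc_iff 𝒜 ι S y hι z ha hs hsy h1, not_not] at hz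
  rw [mem_nonunits_iff, isUnit_homLoc_iff 𝒜 ι S y hι w hb ht hty h2, not_not] at hw
  rw [mem_nonunits_iff, isUnit_homLoc_iff 𝒜 ι S y hι (z + w) (n := n + m) (a := a * t + s * b)
    (s := s * t) ((𝒜 (n + m)).add_mem (SetLike.mul_mem_graded ha ht)
      (SetLike.mul_mem_graded hs hb)) (SetLike.mul_mem_graded hs ht) (hy.mul_notMem hsy hty) ?_,
    not_not]
  · exact y.add_mem (y.mul_mem_right _ hz) (y.mul_mem_left _ hw)
  · rw [Subring.coe_add, Subalgebra.coe_add, Subalgebra.coe_mul, Subalgebra.coe_mul,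
      Subalgebra.coe_mul, map_mul, map_add, map_mul, map_mul, ← h1, ← h2]
    ring

/-- Regularity of the homogeneous local ring can be checked on the subring of the field. -/
theorem isRegularLocalRing_of_homLoc (hS : IsHomog 𝒜 S)
    (h : IsRegularLocalRing (homLoc 𝒜 ι S y)) :
    letI := subGradedAlgebra 𝒜 hS
    IsRegularLocalRing (HomogeneousLocalization.AtPrime (subGr 𝒜 S) y) := by
  let := subGradedAlgebra 𝒜 hS
  let ψ : S →+* F := ι.comp (S.val : S →+* A)
  have hψ : Function.Injective ψ := hι.comp Subtype.val_injective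
  have hunit : ∀ s : y.primeCompl, IsUnit (ψ s) := fun s =>
    isUnit_iff_ne_zero.mpr (map_ne_zero_of_notMem ι S y hι s.2)
  let Ψ : Localization.AtPrime y →+* F := IsLocalization.lift (M := y.primeCompl) hunit
  have hΨ : Function.Injective Ψ := by
    rw [IsLocalization.lift_injective_iff]
    intro a b
    constructor
    · intro hab
      obtain ⟨c, hc⟩ := (IsLocalization.eq_iff_exists y.primeCompl (Localization.AtPrime y)).mp hab
      have h1 : ψ c * ψ a = ψ c * ψ b := by rw [← map_mul, ← map_mul, hc]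
      exact mul_left_cancel₀ (hunit c).ne_zero h1
    · intro hab
      rw [hψ hab]
  let Θ : HomogeneousLocalization.AtPrime (subGr 𝒜 S) y →+* F :=
    Ψ.comp (algebraMap (HomogeneousLocalization.AtPrime (subGr 𝒜 S) y) (Localization.AtPrime y))
  have hΘ : Function.Injective Θ := fun a b hab => val_injective _ (hΨ hab)
  have hΘmk : ∀ (k : ℕ) (a b : S) (ha : (a : A) ∈ 𝒜 k) (hb : (b : A) ∈ 𝒜 k) (hby : b ∉ y),
      Θ (HomogeneousLocalization.mk ⟨k, ⟨a, ha⟩, ⟨b, hb⟩, hby⟩) * ι b = ι a := by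
    intro k a b ha hb hby
    have h1 : Θ (HomogeneousLocalization.mk ⟨k, ⟨a, ha⟩, ⟨b, hb⟩, hby⟩) =
        Ψ (IsLocalization.mk' (Localization.AtPrime y) a (⟨b, hby⟩ : y.primeCompl)) := by
      rw [← Localization.mk_eq_mk']
      rfl
    have h2 := (IsLocalization.lift_mk'_spec (S := Localization.AtPrime y) (hg := hunit) a
      (Ψ (IsLocalization.mk' (Localization.AtPrime y) a (⟨b, hby⟩ : y.primeCompl)))
      ⟨b, hby⟩).mp rfl
    rw [h1, mul_comm]
    exact h2.symm
  have hrange : ∀ z : F, z ∈ homLoc 𝒜 ι S y ↔ ∃ x, Θ x = z := by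
    intro z
    constructor
    · rintro ⟨n, a, s, ha, hs, hsy, h1⟩
      refine ⟨HomogeneousLocalization.mk ⟨n, ⟨a, ha⟩, ⟨s, hs⟩, hsy⟩, ?_⟩
      apply mul_right_cancel₀ (map_ne_zero_of_notMem ι S y hι hsy)
      rw [hΘmk, h1]
    · rintro ⟨x, rfl⟩
      obtain ⟨⟨k, ⟨a, ha⟩, ⟨b, hb⟩, hby⟩, rfl⟩ := mk_surjective x
      exact ⟨k, a, b, ha, hb, hby, hΘmk k a b ha hb hby⟩
  let e : HomogeneousLocalization.AtPrime (subGr 𝒜 S) y ≃+* homLoc 𝒜 ι S y :=
    RingEquiv.ofBijective (Θ.codRestrict (homLoc 𝒜 ι S y) fun x => (hrange _).mpr ⟨x, rfl⟩)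
      ⟨fun a b hab => hΘ (congrArg Subtype.val hab), fun z => by
        obtain ⟨x, hx⟩ := (hrange z).mp z.2
        exact ⟨x, Subtype.ext hx⟩⟩
  exact IsRegularLocalRing.of_ringEquiv e.symm

end

end Pool.Agent.Lib.MP_6a3dac_ag
end

section

/-!
# The local theorem
-/

set_option autoImplicit false

namespace Pool.Agent.Lib.MP_6a3dac_ag

open IsLocalRing

section Conv

variable {D : Type} [CommRing D]

open Classical in
theorem inJ_iff {R : Subring D} (a : R) (Z : Finset R) (j : ℕ) (x : D) :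
    InJ R (a : D) (Z.image Subtype.val) j x ↔
      ∃ h : x ∈ R, (⟨x, h⟩ : R) ∈ Ideal.span (insert (a ^ j) (Z : Set R)) := by
  constructor
  · rintro ⟨c₀, hc₀, c, hc, rfl⟩
    rw [Finset.sum_image (fun x _ y _ h => Subtype.ext h)]
    have hc' : ∀ z ∈ Z, c z ∈ R := fun z hz => hc z (Finset.mem_image_of_mem _ hz)
    have h1 : c₀ * (a : D) ^ j + ∑ z ∈ Z, c z * (z : D) =
        (((⟨c₀, hc₀⟩ : R) * a ^ j + ∑ z ∈ Z.attach, (⟨c z, hc' z z.2⟩ : R) * z : R) : D) := by
      push_cast
      rw [← Finset.sum_attach Z]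
    refine ⟨?_, ?_⟩
    · rw [h1]
      exact Subtype.property _
    · have h2 : (⟨c₀ * (a : D) ^ j + ∑ z ∈ Z, c z * (z : D), h1 ▸ Subtype.property _⟩ : R) =
          (⟨c₀, hc₀⟩ : R) * a ^ j + ∑ z ∈ Z.attach, (⟨c z, hc' z z.2⟩ : R) * z := Subtype.ext h1
      rw [h2]
      refine Ideal.add_mem _ (Ideal.mul_mem_left _ _ (Ideal.subset_span (Set.mem_insert _ _)))
        (Ideal.sum_mem _ fun z _ => Ideal.mul_mem_left _ _
          (Ideal.subset_span (Set.mem_insert_of_mem _ z.2)))
  · rintro ⟨h, hx⟩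
    rw [Ideal.mem_span_insert] at hx
    obtain ⟨c₀, y, hy, hxy⟩ := hx
    rw [Submodule.mem_span_finset] at hy
    obtain ⟨c, -, hc⟩ := hy
    refine ⟨c₀, c₀.2, fun z => if hz : z ∈ R then c ⟨z, hz⟩ else 0, ?_, ?_⟩
    · intro z hz
      obtain ⟨w, -, rfl⟩ := Finset.mem_image.mp hz
      simp
    · rw [Finset.sum_image (fun x _ y _ h => Subtype.ext h)]
      have h1 := congrArg Subtype.val hxy
      change x = _ at h1
      rw [h1, ← hc]
      simp

theorem InJ.mono_subset {R : Subring D} {a : D} {Z : Finset D} {j : ℕ} {x : D}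
    (h : InJ R a Z j x) (c : D) (hc : c ∈ R) : InJ R a Z j (c * x) := by
  obtain ⟨c₀, hc₀, d, hd, rfl⟩ := h
  refine ⟨c * c₀, R.mul_mem hc hc₀, fun z => c * d z, fun z hz => R.mul_mem hc (hd z hz), ?_⟩
  rw [mul_add, Finset.mul_sum]
  congr 1
  · ring
  · exact Finset.sum_congr rfl fun z _ => by ring

theorem InJ.add {R : Subring D} {a : D} {Z : Finset D} {j : ℕ} {x y : D}
    (h : InJ R a Z j x) (h' : InJ R a Z j y) : InJ R a Z j (x + y) := by
  obtain ⟨c₀, hc₀, d, hd, rfl⟩ := h
  obtain ⟨c₀', hc₀', d', hd', rfl⟩ := h'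
  refine ⟨c₀ + c₀', R.add_mem hc₀ hc₀', fun z => d z + d' z,
    fun z hz => R.add_mem (hd z hz) (hd' z hz), ?_⟩
  simp only [add_mul, Finset.sum_add_distrib]
  ring

end Conv

section Local

variable {G D : Type} [CommRing G] [CommRing D] [IsDomain D] [IsLocalRing D]

/-- The first case of the local theorem: the ideals are trivial. -/
theorem locIn_eq_top {φ : G →+* D} (J : ℕ → Set G) {r : ℕ} (b : ℕ → G)
    (hb : ∀ j, 1 ≤ j → j ≤ r → IsUnit (φ (b j)))
    (hgen : ∀ R' : Subring D, Dom R' → (∀ g, φ g ∈ R') →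
      (∀ j, 1 ≤ j → j ≤ r → ∀ x ∈ J j, ∀ w, φ (b j) * w = φ x → w ∈ R') → R' = ⊤) :
    locIn φ = ⊤ := by
  refine hgen _ (dom_locIn φ) (map_mem_locIn φ) fun j h1 h2 x _ w hw => ⟨x, b j, hb j h1 h2, ?_⟩
  rw [mul_comm]
  exact hw

theorem isRegularLocalRing_of_units (φ : G →+* D) (hφ : Function.Injective φ) [IsRegularRing G]
    (J : ℕ → Set G) {r : ℕ} (b : ℕ → G)
    (hb : ∀ j, 1 ≤ j → j ≤ r → IsUnit (φ (b j)))
    (hgen : ∀ R' : Subring D, Dom R' → (∀ g, φ g ∈ R') →
      (∀ j, 1 ≤ j → j ≤ r → ∀ x ∈ J j, ∀ w, φ (b j) * w = φ x → w ∈ R') → R' = ⊤) :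
    IsRegularLocalRing D := by
  have h1 := locIn_eq_top J b hb hgen
  have h2 := isRegularLocalRing_locIn φ hφ
  have h3 : IsRegularLocalRing (⊤ : Subring D) := h1 ▸ h2
  exact IsRegularLocalRing.of_ringEquiv Subring.topEquiv

/-- **The second case of the local theorem.** -/
theorem local_main (φ : G →+* D) (hφ : Function.Injective φ) [IsRegularRing G] {ϖ : G}
    (hϖ0 : ϖ ≠ 0) (hϖm : φ ϖ ∈ maximalIdeal D) {r : ℕ} (hr : 1 ≤ r) {Z : Finset G}
    (hZm : ∀ z ∈ Z, φ z ∈ maximalIdeal D)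
    (H1 : IsRegularRing (G ⧸ Ideal.span {ϖ}))
    (H2 : IsRegularRing (G ⧸ Ideal.span (insert ϖ (Z : Set G))))
    (H3 : ∀ x, ϖ * x ∈ Ideal.span (insert (ϖ ^ r) (Z : Set G)) →
      x ∈ Ideal.span (insert (ϖ ^ (r - 1)) (Z : Set G)))
    (b : ℕ → G)
    (hb : ∀ j, 1 ≤ j → j ≤ r → φ (b j) ≠ 0 ∧ b j ∈ Ideal.span (insert (ϖ ^ j) (Z : Set G)) ∧
      φ (b j) ∣ φ ϖ ^ j ∧ ∀ z ∈ Z, φ (b j) ∣ φ z)
    (hgen : ∀ R' : Subring D, Dom R' → (∀ g, φ g ∈ R') →
      (∀ j, 1 ≤ j → j ≤ r → ∀ x ∈ Ideal.span (insert (ϖ ^ j) (Z : Set G)), ∀ w,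
        φ (b j) * w = φ x → w ∈ R') → R' = ⊤) :
    IsRegularLocalRing D ∧
    ∀ (τ : D →+* D), (∀ z, τ (τ z) = z) → ∀ ε e : D, τ (φ ϖ) - φ ϖ = ε * φ ϖ ^ r →
      IsUnit ε → τ ε - ε = e * φ ϖ ^ r →
      (∀ z ∈ Z, ∃ y, τ (φ y) - φ y = φ z) →
      (∀ g, ∃ x ∈ Ideal.span (insert (ϖ ^ r) (Z : Set G)), τ (φ g) - φ g = φ x) →
      ∃ y, τ y - y ≠ 0 ∧ ∀ z, ∃ c, τ z - z = c * (τ y - y) := by
  classical
  have hdom := dom_locIn φ
  have hreg := isRegularLocalRing_locIn φ hφ
  obtain ⟨a, ha⟩ : ∃ a, a = toLocIn φ ϖ := ⟨_, rfl⟩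
  have hac : (a : D) = φ ϖ := by rw [ha]; rfl
  obtain ⟨Zr, hZr⟩ : ∃ Zr : Finset (locIn φ), Zr = Z.image (toLocIn φ) := ⟨_, rfl⟩
  have hZrc : (Zr : Set (locIn φ)) = toLocIn φ '' Z := by rw [hZr, Finset.coe_image]
  have hcm : ∀ x : locIn φ, x ∈ maximalIdeal (locIn φ) ↔ (x : D) ∈ maximalIdeal D :=
    hdom.mem_maximalIdeal
  have ham : a ∈ maximalIdeal (locIn φ) := by rw [hcm, hac]; exact hϖm
  have hφϖ0 : φ ϖ ≠ 0 := by
    intro h0
    apply hϖ0
    apply hφ
    rw [h0, map_zero]
  have ha0 : a ≠ 0 := by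
    intro h0
    apply hφϖ0
    rw [← hac, h0]; rfl
  have hZrm : ∀ z ∈ Zr, z ∈ maximalIdeal (locIn φ) := by
    intro z hz
    rw [hZr] at hz
    obtain ⟨x, hx, rfl⟩ := Finset.mem_image.mp hz
    rw [hcm]
    exact hZm x hx
  have hreg1 : IsRegularLocalRing (locIn φ ⧸ Ideal.span {a}) := by
    have := isRegularLocalRing_locIn_quotient φ hφ {ϖ} (by simpa using hϖm) H1
    rw [Set.image_singleton, ← ha] at this
    exact this
  have hreg2 : IsRegularLocalRing (locIn φ ⧸ Ideal.span (insert a (Zr : Set (locIn φ)))) := by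
    have := isRegularLocalRing_locIn_quotient φ hφ (insert ϖ (Z : Set G)) (by
      rintro x (rfl | hx)
      · exact hϖm
      · exact hZm x hx) H2
    rw [Set.image_insert_eq, ← ha, ← hZrc] at this
    exact this
  have hspanG : ∀ j, Ideal.span (insert (a ^ j) (Zr : Set (locIn φ))) =
      Ideal.span (toLocIn φ '' (insert (ϖ ^ j) (Z : Set G))) := by
    intro j
    rw [Set.image_insert_eq, map_pow, ← ha, hZrc]
  have hflat : ∀ x, a * x ∈ Ideal.span (insert (a ^ r) (Zr : Set (locIn φ))) →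
      x ∈ Ideal.span (insert (a ^ (r - 1)) (Zr : Set (locIn φ))) := by
    rintro ⟨x, g, s, hs, hxg⟩ hx
    rw [hspanG, mem_span_locIn_iff φ hφ] at hx ⊢
    obtain ⟨g', hg', s', hs', h1⟩ := hx
    change (a : D) * x * φ s' = φ g' at h1
    refine ⟨s' * g, ?_, s' * s, ?_, ?_⟩
    · apply H3
      have h2 : ϖ * (s' * g) = s * g' := by
        apply hφ
        rw [map_mul, map_mul, map_mul, ← h1, ← hxg, hac]
        ring
      rw [h2]
      exact Ideal.mul_mem_left _ _ hg'
    · rw [map_mul]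
      exact hs'.mul hs
    · change x * φ (s' * s) = _
      rw [map_mul, map_mul, ← hxg]
      ring
  obtain ⟨Z₀, hZ₀, s, hs1, hs2, hs3⟩ := exists_par_insert ham
    (mem_nonZeroDivisors_of_ne_zero ha0) hreg1 Zr hZrm hreg2
  have hspanr := span_insert_pow_eq ham hr (Z := (Zr : Set (locIn φ))) (Z₀ := (Z₀ : Set (locIn φ)))
    (by exact_mod_cast hZ₀) hs1 hflat
  have hspanj : ∀ j, j ≤ r → Ideal.span (insert (a ^ j) (Zr : Set (locIn φ))) =
      Ideal.span (insert (a ^ j) (Z₀ : Set (locIn φ))) := by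
    intro j hj
    apply le_antisymm
    · rw [Ideal.span_le]
      rintro x (rfl | hx)
      · exact Ideal.subset_span (Set.mem_insert _ _)
      · have h1 : x ∈ Ideal.span (insert (a ^ r) (Z₀ : Set (locIn φ))) := by
          rw [← hspanr]
          exact Ideal.subset_span (Set.mem_insert_of_mem _ hx)
        refine (Ideal.span_le.mpr ?_) h1
        rintro y (rfl | hy)
        · rw [← Nat.sub_add_cancel hj, pow_add]
          exact Ideal.mul_mem_left _ _ (Ideal.subset_span (Set.mem_insert _ _))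
        · exact Ideal.subset_span (Set.mem_insert_of_mem _ hy)
    · exact Ideal.span_mono (Set.insert_subset_insert (by exact_mod_cast hZ₀))
  -- the regular system of parameters
  obtain ⟨T, hT⟩ : ∃ T : Finset (locIn φ), T = insert a (Z₀ ∪ s) := ⟨_, rfl⟩
  have hTs : Ideal.span (T : Set (locIn φ)) = maximalIdeal (locIn φ) := by
    rw [← hs2, hT]
    push_cast
    rfl
  have hTle : (maximalIdeal (locIn φ)).spanFinrank ≤ T.card := by
    rw [← hTs]
    refine (Submodule.spanFinrank_span_le_ncard_of_finite T.finite_toSet).trans ?_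
    rw [Set.ncard_coe_finset]
  have hTcard : T.card ≤ (maximalIdeal (locIn φ)).spanFinrank := by
    rw [hT]
    refine (Finset.card_insert_le _ _).trans ?_
    have := Finset.card_union_le Z₀ s
    omega
  have haZ₀ : a ∉ Z₀ := by
    intro h
    have h1 : T = Z₀ ∪ s := by
      rw [hT]
      exact Finset.insert_eq_self.mpr (Finset.mem_union_left _ h)
    rw [h1] at hTle
    have := Finset.card_union_le Z₀ s
    omega
  have hRSP := RSP.of_span hdom hreg T hTs hTcard
  have haT : (a : D) ∈ T.image Subtype.val := Finset.mem_image_of_mem _ (by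
    rw [hT]; exact Finset.mem_insert_self _ _)
  have hZT : Z₀.image Subtype.val ⊆ T.image Subtype.val := Finset.image_subset_image (by
    rw [hT]
    exact Finset.subset_union_left.trans (Finset.subset_insert _ _))
  have haZ : (a : D) ∉ Z₀.image Subtype.val := by
    intro h
    obtain ⟨x, hx, hxa⟩ := Finset.mem_image.mp h
    apply haZ₀
    rwa [← Subtype.ext hxa]
  have hInJ : ∀ j ≤ r, ∀ x ∈ Ideal.span (insert (ϖ ^ j) (Z : Set G)),
      InJ (locIn φ) (a : D) (Z₀.image Subtype.val) j (φ x) := by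
    intro j hj x hx
    rw [inJ_iff]
    refine ⟨map_mem_locIn φ x, ?_⟩
    rw [← hspanj j hj, hspanG, ← Ideal.map_span]
    exact Ideal.mem_map_of_mem (toLocIn φ) hx
  have hb' : ∀ j, 1 ≤ j → j ≤ r → φ (b j) ≠ 0 ∧
      InJ (locIn φ) (a : D) (Z₀.image Subtype.val) j (φ (b j)) ∧
      φ (b j) ∣ (a : D) ^ j ∧ ∀ z ∈ Z₀.image Subtype.val, φ (b j) ∣ z := by
    intro j h1 h2
    obtain ⟨g1, g2, g3, g4⟩ := hb j h1 h2
    refine ⟨g1, hInJ j h2 _ g2, by rw [hac]; exact g3, ?_⟩
    intro z hz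
    obtain ⟨x, hx, rfl⟩ := Finset.mem_image.mp hz
    have hx' := hZ₀ hx
    rw [hZr] at hx'
    obtain ⟨y, hy, rfl⟩ := Finset.mem_image.mp hx'
    exact g4 y hy
  have hgen' : ∀ R' : Subring D, Dom R' → locIn φ ≤ R' →
      (∀ j, 1 ≤ j → j ≤ r → ∀ x, InJ (locIn φ) (a : D) (Z₀.image Subtype.val) j x → ∀ w,
        φ (b j) * w = x → w ∈ R') → R' = ⊤ := by
    intro R' h1 h2 h3
    exact hgen R' h1 (fun g => h2 (map_mem_locIn φ g)) fun j g1 g2 x hx w hw =>
      h3 j g1 g2 _ (hInJ j g2 x hx) w hw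
  refine ⟨isRegularLocalRing_of_chart_data hr hRSP haT hZT haZ (fun j => φ (b j)) hb' hgen', ?_⟩
  intro τ hτ ε e hh hε he hZτ hΔ
  have hstab : ∀ x ∈ locIn φ, τ x ∈ locIn φ := by
    rintro x ⟨g, s, hs, hxg⟩
    have h1 : ∀ g, τ (φ g) ∈ locIn φ := by
      intro g
      obtain ⟨y, -, hy⟩ := hΔ g
      rw [show τ (φ g) = φ (g + y) by rw [map_add, ← hy]; ring]
      exact map_mem_locIn φ _
    obtain ⟨t, ht⟩ := hs.exists_right_inv
    have h2 : τ (φ s) * τ t = 1 := by rw [← map_mul, ht, map_one]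
    have h3 : τ x = τ (φ g) * τ t := by
      rw [← hxg, ← map_mul, mul_assoc, ht, mul_one]
    rw [h3]
    exact (locIn φ).mul_mem (h1 g) (hdom _ (h1 s) _ h2)
  refine exists_principal hτ (R := locIn φ) (ϖ := φ ϖ) (ε := ε) (e := e) (r := r)
    (Z := Z₀.image Subtype.val) (map_mem_locIn φ ϖ) hr hφϖ0 hh hε he
    (fun z hz => hRSP.ne_zero (hZT hz)) ?_ ?_ (fun j => φ (b j)) (hac ▸ hb') (hac ▸ hgen')
  · intro z hz
    obtain ⟨x, hx, rfl⟩ := Finset.mem_image.mp hz
    have hx' := hZ₀ hx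
    rw [hZr] at hx'
    obtain ⟨y, hy, rfl⟩ := Finset.mem_image.mp hx'
    obtain ⟨u, hu⟩ := hZτ y hy
    exact ⟨φ u, map_mem_locIn φ u, hu⟩
  · intro x hx
    obtain ⟨g, s, hs, hxg⟩ := hx
    rw [← hac]
    obtain ⟨y₁, hy₁, h1⟩ := hΔ g
    obtain ⟨y₂, hy₂, h2⟩ := hΔ s
    obtain ⟨t, ht⟩ := hs.exists_right_inv
    have htR : t ∈ locIn φ := hdom _ (map_mem_locIn φ s) t ht
    have hxR : x ∈ locIn φ := ⟨g, s, hs, hxg⟩
    have h3 : τ x - x = t * (φ y₁) + (-(t * τ x)) * φ y₂ := by
      have h4 : φ s * (τ x - x) = φ y₁ - τ x * φ y₂ := by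
        rw [← h1, ← h2, ← hxg, map_mul]
        ring
      calc τ x - x = (φ s * t) * (τ x - x) := by rw [ht, one_mul]
        _ = t * (φ s * (τ x - x)) := by ring
        _ = _ := by rw [h4]; ring
    rw [h3]
    exact ((hInJ r le_rfl y₁ hy₁).mono_subset _ htR).add
      ((hInJ r le_rfl y₂ hy₂).mono_subset _
        ((locIn φ).neg_mem ((locIn φ).mul_mem htR (hstab x hxR))))

end Local

end Pool.Agent.Lib.MP_6a3dac_ag
end
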