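import Mathlib

section

/-!
# Gluing schemes over a star-shaped open cover of the base
-/

set_option autoImplicit false

namespace Pool.Agent.Lib.MP_6a3dac_ag.GL

open CategoryTheory Limits AlgebraicGeometry TopologicalSpace

universe u

section Glue

variable {S : Scheme.{u}} {J : Type u} [Nonempty J] (W : S.Opens) (U : J → S.Opens)
  (hdis : ∀ j k, j ≠ k → U j ⊓ U k ≤ W)
  {Y₀ : Scheme.{u}} {Y : J → Scheme.{u}} (g₀ : Y₀ ⟶ S) (g : ∀ j, Y j ⟶ S)
  (ι : ∀ j, Y₀ ⟶ Y j) [∀ j, IsOpenImmersion (ι j)] (hι : ∀ j, ι j ≫ g j = g₀)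
  (hrange : ∀ j (y : Y j), g j y ∈ W → y ∈ Set.range (ι j)) (hU : ∀ j (y : Y j), g j y ∈ U j)

include hdis hι hrange hU in
/-- Gluing along a star-shaped diagram. -/
theorem exists_glue : ∃ (Z : Scheme.{u}) (q : Z ⟶ S) (f : ∀ j, Y j ⟶ Z),
    (∀ j, IsOpenImmersion (f j)) ∧ (∀ j, f j ≫ q = g j) ∧
    (∀ z : Z, ∃ j, z ∈ Set.range (f j)) ∧
    ∀ j (z : Z), q z ∈ U j → z ∈ Set.range (f j) := by
  let F : WidePushoutShape J ⥤ Scheme.{u} := WidePushoutShape.wideSpan Y₀ Y ι
  have hF : ∀ {i j : WidePushoutShape J} (a : i ⟶ j), IsOpenImmersion (F.map a) := by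
    rintro _ _ (_ | j)
    · simp only [WidePushoutShape.hom_id, CategoryTheory.Functor.map_id]
      infer_instance
    · exact inferInstanceAs (IsOpenImmersion (ι j))
  let c : Cocone F :=
    WidePushoutShape.mkCocone (F := F) g₀ g hι
  let q : colimit F ⟶ S := colimit.desc F c
  have hq : ∀ j, colimit.ι F (some j) ≫ q = g j := fun j => colimit.ι_desc c (some j)
  have hsurj : ∀ z : (colimit F : Scheme.{u}), ∃ j, z ∈ Set.range (colimit.ι F (some j)) := by
    intro z
    obtain ⟨i, x, rfl⟩ := Scheme.IsLocallyDirected.ι_jointly_surjective F z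
    rcases i with _ | j
    · obtain ⟨j⟩ := ‹Nonempty J›
      refine ⟨j, F.map (WidePushoutShape.Hom.init j) x, ?_⟩
      rw [← Scheme.Hom.comp_apply, colimit.w]
    · exact ⟨j, x, rfl⟩
  refine ⟨colimit F, q, fun j => colimit.ι F (some j),
    fun j => inferInstanceAs (IsOpenImmersion (colimit.ι F (some j))), hq, hsurj, ?_⟩
  intro j z hz
  obtain ⟨k, x, rfl⟩ := hsurj z
  by_cases hjk : j = k
  · subst hjk
    exact ⟨x, rfl⟩
  · rw [← Scheme.Hom.comp_apply, hq] at hz
    obtain ⟨w, hw⟩ := hrange k x (hdis j k hjk ⟨hz, hU k x⟩)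
    subst hw
    refine ⟨ι j w, ?_⟩
    have h1 : ι j ≫ colimit.ι F (some j) = ι k ≫ colimit.ι F (some k) :=
      (colimit.w F (WidePushoutShape.Hom.init j)).trans
        (colimit.w F (WidePushoutShape.Hom.init k)).symm
    exact congr($h1 w)

end Glue

/-- A property which can be checked over an open cover of the target, for a glued scheme. -/
theorem of_glue {P : MorphismProperty Scheme.{u}} [IsZariskiLocalAtTarget P] {S Z : Scheme.{u}}
    (q : Z ⟶ S) {J : Type u} (U : J → S.Opens) (hU : ⨆ j, U j = ⊤) {Y : J → Scheme.{u}}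
    (l : ∀ j, Y j ⟶ (U j).toScheme) (f : ∀ j, Y j ⟶ Z) (hf : ∀ j, IsOpenImmersion (f j))
    (hq : ∀ j, f j ≫ q = l j ≫ (U j).ι) (hr : ∀ j (z : Z), q z ∈ U j → z ∈ Set.range (f j))
    (h : ∀ j, P (l j)) : P q := by
  rw [IsZariskiLocalAtTarget.iff_of_iSup_eq_top (P := P) U hU]
  intro j
  have h1 : Set.range (f j) = Set.range (q ⁻¹ᵁ U j).ι := by
    rw [Scheme.Opens.range_ι]
    ext z
    constructor
    · rintro ⟨y, rfl⟩
      change q (f j y) ∈ U j
      rw [← Scheme.Hom.comp_apply, hq, Scheme.Hom.comp_apply]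
      exact (l j y).2
    · exact fun hz => hr j z hz
  have h2 : (IsOpenImmersion.isoOfRangeEq (f j) (q ⁻¹ᵁ U j).ι h1).hom ≫ (q ∣_ U j) = l j := by
    rw [← cancel_mono (U j).ι, Category.assoc, morphismRestrict_ι,
      IsOpenImmersion.isoOfRangeEq_hom_fac_assoc, hq]
  rw [← P.cancel_left_of_respectsIso (IsOpenImmersion.isoOfRangeEq (f j) (q ⁻¹ᵁ U j).ι h1).hom,
    h2]
  exact h j

/-- Restriction to a smaller open subset of the target. -/
theorem morphismRestrict_of_le {P : MorphismProperty Scheme.{u}} [P.IsStableUnderBaseChange]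
    {X Y : Scheme.{u}} (g : X ⟶ Y) {U V : Y.Opens} (hVU : V ≤ U) (h : P (g ∣_ U)) :
    P (g ∣_ V) := by
  have h1 := isPullback_morphismRestrict g U
  have h2 := isPullback_morphismRestrict g V
  have h4 : g ⁻¹ᵁ V ≤ g ⁻¹ᵁ U := fun x hx => hVU hx
  have h3 : IsPullback (g ∣_ V) (X.homOfLE h4) (Y.homOfLE hVU) (g ∣_ U) := by
    refine IsPullback.of_bot ?_ ?_ h1
    · rwa [Scheme.homOfLE_ι, Scheme.homOfLE_ι]
    · rw [← cancel_mono U.ι, Category.assoc, Category.assoc, Scheme.homOfLE_ι,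
        morphismRestrict_ι, morphismRestrict_ι, Scheme.homOfLE_ι_assoc]
  exact MorphismProperty.of_isPullback h3.flip h

/-- The fibre product with an open subscheme which contains the relevant points. -/
theorem exists_pullback_iso {S Z Y T : Scheme.{u}} (q : Z ⟶ S) (g : Y ⟶ S) (f : Y ⟶ Z)
    [IsOpenImmersion f] (hf : f ≫ q = g) (η : T ⟶ S)
    (h : ∀ z : Z, q z ∈ Set.range η → z ∈ Set.range f) :
    ∃ e : pullback g η ≅ pullback q η, e.hom ≫ pullback.snd q η = pullback.snd g η := by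
  have h1 : Set.range (pullback.fst q η) ⊆ Set.range f := by
    rintro _ ⟨z, rfl⟩
    apply h
    rw [← Scheme.Hom.comp_apply, pullback.condition, Scheme.Hom.comp_apply]
    exact ⟨_, rfl⟩
  have h2 := IsOpenImmersion.lift_fac f (pullback.fst q η) h1
  generalize IsOpenImmersion.lift f (pullback.fst q η) h1 = l at h2
  have h3 : (pullback.fst g η ≫ f) ≫ q = pullback.snd g η ≫ η := by
    rw [Category.assoc, hf, pullback.condition]
  have h4 : l ≫ g = pullback.snd q η ≫ η := by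
    rw [← hf, ← Category.assoc, h2, pullback.condition]
  refine ⟨⟨pullback.lift (pullback.fst g η ≫ f) (pullback.snd g η) h3,
    pullback.lift l (pullback.snd q η) h4, ?_, ?_⟩, ?_⟩
  · apply pullback.hom_ext
    · rw [Category.assoc, pullback.lift_fst, Category.id_comp, ← cancel_mono f, Category.assoc,
        h2, pullback.lift_fst]
    · rw [Category.assoc, pullback.lift_snd, Category.id_comp, pullback.lift_snd]
  · apply pullback.hom_ext
    · rw [Category.assoc, pullback.lift_fst, Category.id_comp, ← Category.assoc,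
        pullback.lift_fst, h2]
    · rw [Category.assoc, pullback.lift_snd, Category.id_comp, pullback.lift_snd]
  · rw [pullback.lift_snd]

/-- The stalks of an open subscheme. -/
theorem isRegularLocalRing_stalk_of_isOpenImmersion {X Y : Scheme.{u}} (f : X ⟶ Y)
    [IsOpenImmersion f] (x : X) :
    IsRegularLocalRing (X.presheaf.stalk x) ↔ IsRegularLocalRing (Y.presheaf.stalk (f x)) := by
  have e := (asIso (f.stalkMap x)).commRingCatIsoToRingEquiv
  exact ⟨fun h => IsRegularLocalRing.of_ringEquiv e.symm,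
    fun h => IsRegularLocalRing.of_ringEquiv e⟩

section Star

variable {S : Scheme.{u}} {p₀ : S} (hfin : ∀ U : S.Opens, p₀ ∈ U → ((U : Set S)ᶜ).Finite)
  (hcl : ∀ U : S.Opens, p₀ ∈ U → ∀ x ∉ U, IsClosed ({x} : Set S))
  {K : Type u} [Finite K] {x : K → S} (hinj : Function.Injective x) {U : Option K → S.Opens}
  (hp : ∀ j, p₀ ∈ U j) (hx : ∀ k, x k ∈ U (some k)) (hx0 : ∀ k, x k ∉ U none)
  (hcov : ∀ y, y ∉ U none → ∃ k, x k = y) {Y : Option K → Scheme.{u}} (g : ∀ j, Y j ⟶ S)
  (W : K → S.Opens) (hpW : ∀ k, p₀ ∈ W k) (hW : ∀ k, W k ≤ U (some k))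
  (φ : ∀ k, (g none ⁻¹ᵁ W k).toScheme ≅ (g (some k) ⁻¹ᵁ W k).toScheme)
  (hφ : ∀ k, (φ k).hom ≫ (g (some k) ⁻¹ᵁ W k).ι ≫ g (some k) = (g none ⁻¹ᵁ W k).ι ≫ g none)

include hfin hcl in
theorem exists_opens (V : S.Opens) (hV : p₀ ∈ V) (y : S) :
    ∃ V' : S.Opens, (V' : Set S) = (V : Set S) ∪ {y} := by
  refine ⟨⟨(V : Set S) ∪ {y}, ?_⟩, rfl⟩
  rw [← isClosed_compl_iff]
  have h1 : (((V : Set S) ∪ {y})ᶜ).Finite :=
    (hfin V hV).subset (Set.compl_subset_compl.2 Set.subset_union_left)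
  have h2 : ((V : Set S) ∪ {y})ᶜ = ⋃ z ∈ ((V : Set S) ∪ {y})ᶜ, ({z} : Set S) := by
    rw [Set.biUnion_of_singleton]
  rw [h2]
  exact h1.isClosed_biUnion fun z hz => hcl V hV z fun h => hz (Or.inl h)

include hfin hcl hinj hp hx hx0 hcov hpW hW hφ in
/-- Gluing finitely many schemes over the neighbourhoods of finitely many closed points. -/
theorem exists_star : ∃ (V : Option K → S.Opens) (Z : Scheme.{u}) (q : Z ⟶ S)
    (f : ∀ j, (g j ⁻¹ᵁ V j).toScheme ⟶ Z), (∀ j, V j ≤ U j) ∧ (⨆ j, V j = ⊤) ∧ V none = U none ∧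
    (∀ j, IsOpenImmersion (f j)) ∧ (∀ j, f j ≫ q = (g j ∣_ V j) ≫ (V j).ι) ∧
    (∀ z, ∃ j, z ∈ Set.range (f j)) ∧ ∀ j z, q z ∈ V j → z ∈ Set.range (f j) := by
  obtain ⟨W', hW'⟩ : ∃ W' : S.Opens, (W' : Set S) = (⋂ k, (W k : Set S)) ∩ U none :=
    ⟨⟨(⋂ k, (W k : Set S)) ∩ U none, (isOpen_iInter_of_finite fun k => (W k).isOpen).inter
      (U none).isOpen⟩, rfl⟩
  have hmem : ∀ y : S, y ∈ W' ↔ (∀ k, y ∈ W k) ∧ y ∈ U none := by
    intro y
    rw [← SetLike.mem_coe, hW', Set.mem_inter_iff, Set.mem_iInter]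
    rfl
  have hpW' : p₀ ∈ W' := (hmem _).2 ⟨hpW, hp none⟩
  have hWk : ∀ k, W' ≤ W k := fun k y hy => ((hmem y).1 hy).1 k
  have hW0 : W' ≤ U none := fun y hy => ((hmem y).1 hy).2
  choose V' hV' using fun k => exists_opens hfin hcl W' hpW' (x k)
  have hmem' : ∀ k (y : S), y ∈ V' k ↔ y ∈ W' ∨ y = x k := by
    intro k y
    rw [← SetLike.mem_coe, hV']
    rfl
  obtain ⟨V, hVn, hVs⟩ : ∃ V : Option K → S.Opens, V none = U none ∧ ∀ k, V (some k) = V' k :=
    ⟨fun j => j.elim (U none) V', rfl, fun k => rfl⟩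
  have hWV : ∀ j, W' ≤ V j := by
    rintro (_ | k)
    · rw [hVn]
      exact hW0
    · rw [hVs]
      exact fun y hy => (hmem' k y).2 (Or.inl hy)
  have hVU : ∀ j, V j ≤ U j := by
    rintro (_ | k)
    · rw [hVn]
    · rw [hVs]
      intro y hy
      rcases (hmem' k y).1 hy with h | rfl
      · exact hW k (hWk k h)
      · exact hx k
  have hdis : ∀ j j', j ≠ j' → V j ⊓ V j' ≤ W' := by
    have h1 : ∀ k, U none ⊓ V' k ≤ W' := by
      rintro k y ⟨h2, h3⟩
      rcases (hmem' k y).1 h3 with h | rfl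
      · exact h
      · exact absurd h2 (hx0 k)
    rintro (_ | k) (_ | k') hne
    · exact absurd rfl hne
    · rw [hVn, hVs]
      exact h1 k'
    · rw [hVn, hVs, inf_comm]
      exact h1 k
    · rw [hVs, hVs]
      rintro y ⟨h2, h3⟩
      rcases (hmem' k y).1 h2 with h | rfl
      · exact h
      · rcases (hmem' k' _).1 h3 with h | h
        · exact h
        · exact absurd (congrArg some (hinj h)) hne
  have hψ : ∀ j, ∃ ψ : (g none ⁻¹ᵁ W').toScheme ⟶ Y j, IsOpenImmersion ψ ∧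
      ψ ≫ g j = (g none ⁻¹ᵁ W').ι ≫ g none ∧ ∀ y : Y j, y ∈ Set.range ψ ↔ g j y ∈ W' := by
    rintro (_ | k)
    · refine ⟨(g none ⁻¹ᵁ W').ι, inferInstance, rfl, fun y => ?_⟩
      rw [Scheme.Opens.range_ι]
      rfl
    · have h1 : g none ⁻¹ᵁ W' ≤ g none ⁻¹ᵁ W k := fun y hy => hWk k hy
      refine ⟨(Y none).homOfLE h1 ≫ (φ k).hom ≫ (g (some k) ⁻¹ᵁ W k).ι, inferInstance, ?_,
        fun y => ⟨?_, fun hy => ?_⟩⟩
      · rw [Category.assoc, Category.assoc, hφ, Scheme.homOfLE_ι_assoc]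
      · rintro ⟨z, rfl⟩
        rw [← Scheme.Hom.comp_apply, Category.assoc, Category.assoc, hφ, Scheme.homOfLE_ι_assoc,
          Scheme.Hom.comp_apply]
        exact z.2
      · obtain ⟨w, rfl⟩ : y ∈ Set.range (g (some k) ⁻¹ᵁ W k).ι := by
          rw [Scheme.Opens.range_ι]
          exact hWk k hy
        obtain ⟨v, rfl⟩ : ∃ v, (φ k).hom v = w := ⟨(φ k).inv w, by
          rw [← Scheme.Hom.comp_apply, Iso.inv_hom_id]; rfl⟩
        rw [← Scheme.Hom.comp_apply, ← Scheme.Hom.comp_apply, hφ, Scheme.Hom.comp_apply] at hy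
        obtain ⟨z, hz⟩ : v ∈ Set.range ((Y none).homOfLE h1) := by
          rw [← Scheme.Hom.coe_opensRange, Scheme.opensRange_homOfLE]
          exact hy
        refine ⟨z, ?_⟩
        rw [Scheme.Hom.comp_apply, Scheme.Hom.comp_apply, hz]
  choose ψ hψ1 hψ2 hψ3 using hψ
  have hr : ∀ j, Set.range (ψ j) ⊆ Set.range (g j ⁻¹ᵁ V j).ι := by
    intro j y hy
    rw [Scheme.Opens.range_ι]
    exact hWV j ((hψ3 j y).1 hy)
  have hlift := fun j => IsOpenImmersion.lift_fac (g j ⁻¹ᵁ V j).ι (ψ j) (hr j)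
  have hopen : ∀ j, IsOpenImmersion (IsOpenImmersion.lift (g j ⁻¹ᵁ V j).ι (ψ j) (hr j)) := by
    intro j
    have : IsOpenImmersion (IsOpenImmersion.lift (g j ⁻¹ᵁ V j).ι (ψ j) (hr j) ≫
        (g j ⁻¹ᵁ V j).ι) := by
      rw [hlift]
      exact hψ1 j
    exact IsOpenImmersion.of_comp _ (g j ⁻¹ᵁ V j).ι
  obtain ⟨Z, q, f, hf1, hf2, hf3, hf4⟩ := exists_glue W' V hdis ((g none ⁻¹ᵁ W').ι ≫ g none)
    (fun j => (g j ⁻¹ᵁ V j).ι ≫ g j)
    (fun j => IsOpenImmersion.lift (g j ⁻¹ᵁ V j).ι (ψ j) (hr j))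
    (fun j => by rw [← Category.assoc, hlift, hψ2]) (fun j y hy => by
      obtain ⟨w, hw⟩ := (hψ3 j _).2 (show g j ((g j ⁻¹ᵁ V j).ι y) ∈ W' from hy)
      refine ⟨w, (g j ⁻¹ᵁ V j).ι.injective ?_⟩
      rw [← hw, ← Scheme.Hom.comp_apply, hlift]) (fun j y => y.2)
  refine ⟨V, Z, q, f, hVU, ?_, hVn, hf1, fun j => by rw [hf2, morphismRestrict_ι], hf3, hf4⟩
  rw [eq_top_iff]
  intro y _
  rw [Opens.mem_iSup]
  by_cases hy : y ∈ U none
  · exact ⟨none, by rwa [hVn]⟩
  · obtain ⟨k, rfl⟩ := hcov y hy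
    exact ⟨some k, by rw [hVs]; exact (hmem' k _).2 (Or.inr rfl)⟩

end Star

end Pool.Agent.Lib.MP_6a3dac_ag.GL
end

section

/-!
# Maximal minors
-/

set_option autoImplicit false

namespace Pool.Agent.Lib.MP_6a3dac_ag.MA

variable {A : Type} [CommRing A]

/-- A determinant with a row in an ideal lies in the ideal. -/
theorem det_mem_of_row {ι : Type} [Fintype ι] [DecidableEq ι] (M : Matrix ι ι A) (𝔫 : Ideal A)
    (i₀ : ι) (h : ∀ j, M i₀ j ∈ 𝔫) : M.det ∈ 𝔫 := by
  rw [Matrix.det_apply']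
  refine Ideal.sum_mem _ fun s _ => Ideal.mul_mem_left _ _ ?_
  have h1 : M (s (s.symm i₀)) (s.symm i₀) ∣ ∏ i, M (s i) i :=
    Finset.dvd_prod_of_mem (fun i => M (s i) i) (Finset.mem_univ _)
  refine Ideal.mem_of_dvd _ h1 ?_
  rw [Equiv.apply_symm_apply]
  exact h _

/-- A determinant whose rows are combinations of given rows. -/
theorem det_mem_of_rows {ι κ : Type} [Fintype ι] [DecidableEq ι] [Fintype κ] (a : ι → κ → A)
    (v : κ → ι → A) (𝔫 : Ideal A)
    (h : ∀ ρ : ι → κ, (Matrix.of fun i j => v (ρ i) j).det ∈ 𝔫) :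
    (Matrix.of fun i j => ∑ x, a i x * v x j).det ∈ 𝔫 := by
  classical
  have h1 : (Matrix.of fun i j => ∑ x, a i x * v x j).det =
      (Matrix.detRowAlternating (R := A) (n := ι)).toMultilinearMap
        (fun i => ∑ x, a i x • v x) := by
    change Matrix.detRowAlternating _ = Matrix.detRowAlternating _
    congr 1
    funext i j
    simp [Finset.sum_apply]
  rw [h1, MultilinearMap.map_sum]
  refine Ideal.sum_mem _ fun ρ _ => ?_
  rw [MultilinearMap.map_smul_univ (Matrix.detRowAlternating (R := A) (n := ι)).toMultilinearMap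
    (fun i => a i (ρ i)) (fun i => v (ρ i)), smul_eq_mul]
  exact Ideal.mul_mem_left _ _ (h ρ)

/-- The last row of a matrix may be reduced by a combination of the other rows. -/
theorem det_reduce {ι : Type} [Fintype ι] [DecidableEq ι] (N : Matrix (ι ⊕ Unit) (ι ⊕ Unit) A)
    (c : ι → A) (z : ι ⊕ Unit → A)
    (h : ∀ j, N (Sum.inr ()) j = ∑ κ, c κ * N (Sum.inl κ) j + z j) :
    N.det = (N.updateRow (Sum.inr ()) z).det := by
  classical
  have h1 : N = N.updateRow (Sum.inr ())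
      ((∑ x, (Sum.elim c (fun _ => 0) : ι ⊕ Unit → A) x • N x) + z) := by
    ext x j
    rw [Matrix.updateRow_apply]
    split_ifs with hx
    · rw [hx, h j, Pi.add_apply, Finset.sum_apply, Fintype.sum_sum_type]
      simp
    · rfl
  conv_lhs => rw [h1]
  rw [Matrix.det_updateRow_add, Matrix.det_updateRow_sum]
  simp

section Fit

variable {σ : Type} [Fintype σ] [DecidableEq σ] (T : Finset σ)
  (v : {l : σ // l ∉ T} → σ → A) (w : σ → A) (c : {l : σ // l ∉ T} → A) (r : σ → A)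
  (hw : ∀ l, w l = ∑ κ, c κ * v κ l + r l) {k : ℕ} (u : Fin k → σ → A) {m : ℕ}
  (hm : Fintype.card {l : σ // l ∉ T} + 1 = m)

include hw hm

/-- The minors of a matrix whose rows are combinations of the rows `v κ` and `w`. -/
theorem minor_mem (a : Fin k → ({l : σ // l ∉ T} ⊕ Unit) → A)
    (hu : ∀ x l, u x l = ∑ j, a x j * Sum.elim v (fun _ => w) j l) (𝔫 : Ideal A)
    (hr : ∀ l, r l ∈ 𝔫) {τ : Type} (p : τ → σ → A) (row : Fin m → Fin k) (col : Fin m → τ) :
    (Matrix.of fun x y => ∑ l, p (col y) l * u (row x) l).det ∈ 𝔫 := by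
  classical
  have h1 : (Matrix.of fun x y => ∑ l, p (col y) l * u (row x) l) =
      Matrix.of fun x y => ∑ j, a (row x) j *
        ∑ l, p (col y) l * (Sum.elim v (fun _ => w) : {l : σ // l ∉ T} ⊕ Unit → σ → A) j l := by
    ext x y
    rw [Matrix.of_apply, Matrix.of_apply]
    simp only [hu, Finset.mul_sum]
    rw [Finset.sum_comm]
    exact Finset.sum_congr rfl fun j _ => Finset.sum_congr rfl fun l _ => by ring
  rw [h1]
  refine det_mem_of_rows (fun x j => a (row x) j) (fun j y => ∑ l, p (col y) l *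
    (Sum.elim v (fun _ => w) : {l : σ // l ∉ T} ⊕ Unit → σ → A) j l) 𝔫 fun ρ => ?_
  by_cases hρ : Function.Injective ρ
  · have hcard : Fintype.card (Fin m) = Fintype.card ({l : σ // l ∉ T} ⊕ Unit) := by
      rw [Fintype.card_fin, Fintype.card_sum, Fintype.card_unit, hm]
    have hbij : Function.Bijective ρ := (Fintype.bijective_iff_injective_and_card ρ).2 ⟨hρ, hcard⟩
    let θ : Fin m ≃ {l : σ // l ∉ T} ⊕ Unit := Equiv.ofBijective ρ hbij
    let N : Matrix ({l : σ // l ∉ T} ⊕ Unit) ({l : σ // l ∉ T} ⊕ Unit) A :=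
      Matrix.of fun j j' => ∑ l, p (col (θ.symm j')) l *
        (Sum.elim v (fun _ => w) : {l : σ // l ∉ T} ⊕ Unit → σ → A) j l
    have h2 : (Matrix.of fun x y => ∑ l, p (col y) l *
        (Sum.elim v (fun _ => w) : {l : σ // l ∉ T} ⊕ Unit → σ → A) (ρ x) l) =
        N.submatrix θ θ := by
      ext x y
      simp [N, θ]
    have h3 : N.det ∈ 𝔫 := by
      rw [det_reduce N c (fun j' => ∑ l, p (col (θ.symm j')) l * r l) ?_]
      · refine det_mem_of_row _ 𝔫 (Sum.inr ()) fun j => ?_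
        rw [Matrix.updateRow_self]
        exact Ideal.sum_mem _ fun l _ => Ideal.mul_mem_left _ _ (hr l)
      · intro j
        simp only [N, Matrix.of_apply, Sum.elim_inr, Sum.elim_inl, hw, Finset.mul_sum, mul_add,
          Finset.sum_add_distrib]
        congr 1
        rw [Finset.sum_comm]
        exact Finset.sum_congr rfl fun κ _ => Finset.sum_congr rfl fun l _ => by ring
    rw [h2, Matrix.det_submatrix_equiv_self]
    exact h3
  · simp only [Function.Injective, not_forall] at hρ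
    obtain ⟨x, y, hxy, hne⟩ := hρ
    have h4 := Matrix.det_zero_of_row_eq (M := Matrix.of fun x y => ∑ l, p (col y) l *
      (Sum.elim v (fun _ => w) : {l : σ // l ∉ T} ⊕ Unit → σ → A) (ρ x) l) hne (by
        funext z
        simp only [Matrix.of_apply, hxy])
    rw [h4]
    exact 𝔫.zero_mem

/-- The reduced last row is a combination of the minors. -/
theorem reduced_mem (b : ({l : σ // l ∉ T} ⊕ Unit) → Fin k → A)
    (hv : ∀ j l, (Sum.elim v (fun _ => w) : {l : σ // l ∉ T} ⊕ Unit → σ → A) j l =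
      ∑ x, b j x * u x l) (hr : ∀ l ∉ T, r l = 0) (𝔫 : Ideal A)
    (h : ∀ (row : Fin m → Fin k) (col : Fin m → σ),
      (Matrix.of fun x y => u (row x) (col y)).det ∈ 𝔫) (e : σ) :
    (Matrix.of fun κ (l : {l : σ // l ∉ T}) => v κ l.1).det * r e ∈ 𝔫 := by
  classical
  have hcard : Fintype.card (Fin m) = Fintype.card ({l : σ // l ∉ T} ⊕ Unit) := by
    rw [Fintype.card_fin, Fintype.card_sum, Fintype.card_unit, hm]
  let θ : Fin m ≃ {l : σ // l ∉ T} ⊕ Unit := Fintype.equivOfCardEq hcard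
  let co : {l : σ // l ∉ T} ⊕ Unit → σ := Sum.elim (fun l => l.1) (fun _ => e)
  let N : Matrix ({l : σ // l ∉ T} ⊕ Unit) ({l : σ // l ∉ T} ⊕ Unit) A :=
    Matrix.of fun j j' => (Sum.elim v (fun _ => w) : {l : σ // l ∉ T} ⊕ Unit → σ → A) j (co j')
  have h1 : N.det = (Matrix.of fun κ (l : {l : σ // l ∉ T}) => v κ l.1).det * r e := by
    rw [det_reduce N c (fun j' => r (co j')) (fun j => by simp [N, hw])]
    have h2 : N.updateRow (Sum.inr ()) (fun j' => r (co j')) =
        Matrix.fromBlocks (Matrix.of fun κ (l : {l : σ // l ∉ T}) => v κ l.1)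
          (Matrix.of fun κ (_ : Unit) => v κ e) 0 (Matrix.of fun (_ _ : Unit) => r e) := by
      ext x y
      rcases x with x | x <;> rcases y with y | y
      · rw [Matrix.updateRow_ne (by simp)]
        simp [N, co]
      · rw [Matrix.updateRow_ne (by simp)]
        simp [N, co]
      · rw [Matrix.updateRow_self]
        simp only [co, Sum.elim_inl, Matrix.fromBlocks_apply₂₁, Matrix.zero_apply]
        exact hr _ y.2
      · rw [Matrix.updateRow_self]
        simp [co]
    rw [h2, Matrix.det_fromBlocks_zero₂₁]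
    simp
  rw [← h1]
  have h3 : N = Matrix.of fun j j' => ∑ x, b j x * u x (co j') := by
    ext j j'
    exact hv j (co j')
  rw [h3]
  refine det_mem_of_rows b (fun x j' => u x (co j')) 𝔫 fun ρ => ?_
  rw [← Matrix.det_submatrix_equiv_self θ]
  exact h (fun x => ρ (θ x)) (fun y => co (θ y))

end Fit

end Pool.Agent.Lib.MP_6a3dac_ag.MA
end

section

/-! Coherent unimodular subdivisions of simplicial cones: definitions.

A chart is a family of r vectors of Z^r.  The cone is the positive orthant, N a subgroup of Z^r of finite index. -/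

namespace TorFan

universe u

/-- a chart: r vectors in Z^r -/
abbrev Chart (r : ℕ) := Fin r → Fin r → ℤ

variable {r : ℕ}

/-- the determinant of a chart -/
def dt (τ : Chart r) : ℤ := (Matrix.of τ : Matrix (Fin r) (Fin r) ℤ).det

/-- the coordinates of x with respect to the chart τ (Cramer's rule) -/
noncomputable def co (τ : Chart r) (x : Fin r → ℤ) (j : Fin r) : ℚ :=
  (dt (Function.update τ j x) : ℚ) / (dt τ : ℚ)

/-- the linear function which has the values φ at the vectors of τ -/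
noncomputable def lin (τ : Chart r) (φ : (Fin r → ℤ) → ℤ) (x : Fin r → ℤ) : ℚ :=
  ∑ l, co τ x l * (φ (τ l) : ℚ)

/-- a coherent simplicial subdivision (without the covering property): the linear function of τ is ≥ φ at all
vertices, with equality only at the vertices of τ -/
structure Coh (N : AddSubgroup (Fin r → ℤ)) (T : Finset (Chart r)) (φ : (Fin r → ℤ) → ℤ) : Prop where
  ne : T.Nonempty
  mem : ∀ τ ∈ T, ∀ j, τ j ∈ N
  nonneg : ∀ τ ∈ T, ∀ j i, 0 ≤ τ j i
  det : ∀ τ ∈ T, dt τ ≠ 0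
  conv : ∀ τ ∈ T, ∀ τ' ∈ T, ∀ j, (φ (τ' j) : ℚ) ≤ lin τ φ (τ' j) ∧
    ((φ (τ' j) : ℚ) = lin τ φ (τ' j) → ∃ l, τ' j = τ l)

/-- the charts cover the positive orthant over every ordered abelian group -/
def Cov (T : Finset (Chart r)) : Prop :=
  ∀ (Γ : Type u) [AddCommGroup Γ] [LinearOrder Γ] [IsOrderedAddMonoid Γ] (x : Fin r → Γ),
    (∀ i, 0 ≤ x i) → ∃ τ ∈ T, ∃ (n : ℕ) (c : Fin r → Γ), 1 ≤ n ∧ (∀ j, 0 ≤ c j) ∧
      ∀ i, n • x i = ∑ j, τ j i • c j

/-- τ contains the set F of vectors -/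
def Has (τ : Chart r) (F : Finset (Fin r → ℤ)) : Prop := ∀ ρ ∈ F, ∃ l, τ l = ρ

/-- the vectors of τ which occur in w -/
noncomputable def supp (τ : Chart r) (w : Fin r → ℤ) : Finset (Fin r → ℤ) :=
  open Classical in (Finset.univ.filter (fun l => 0 < co τ w l)).image τ

/-- the star subdivision at w, F the minimal face which contains w -/
noncomputable def star (T : Finset (Chart r)) (F : Finset (Fin r → ℤ)) (w : Fin r → ℤ) : Finset (Chart r) :=
  open Classical in
  T.filter (fun τ => ¬ Has τ F) ∪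
    (T.filter (fun τ => Has τ F)).biUnion (fun τ =>
      (Finset.univ.filter (fun j => τ j ∈ F)).image (fun j => Function.update τ j w))

/-- w is a point of the half-open parallelepiped of τ, not 0 -/
def Half (τ : Chart r) (w : Fin r → ℤ) : Prop := (∀ l, 0 ≤ co τ w l ∧ co τ w l < 1) ∧ ∃ l, co τ w l ≠ 0

end TorFan
end

section

/-! Row F1: linear algebra of charts. -/

namespace TorFan

variable {r : ℕ}

/-- Cramer's rule over Z (`Matrix.mulVec_cramer`, `Matrix.cramer_transpose_apply`) -/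
theorem cramer_int (τ : Chart r) (x : Fin r → ℤ) (i : Fin r) :
    dt τ * x i = ∑ j, dt (Function.update τ j x) * τ j i := by
  have h := congrFun (Matrix.mulVec_cramer (Matrix.of τ : Matrix (Fin r) (Fin r) ℤ).transpose x) i
  rw [Matrix.det_transpose] at h
  simp only [Matrix.mulVec, dotProduct, Matrix.cramer_transpose_apply, Matrix.transpose_apply,
    Matrix.of_apply, Pi.smul_apply, smul_eq_mul] at h
  unfold dt
  rw [← h]
  refine Finset.sum_congr rfl (fun j _ => ?_)
  rw [mul_comm]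
  rfl

/-- the determinant over the rationals -/
theorem F1_cast_dt (τ : Chart r) :
    (dt τ : ℚ) = (Matrix.of (fun a b => (τ a b : ℚ)) : Matrix (Fin r) (Fin r) ℚ).det := by
  have h := (Int.castRingHom ℚ).map_det (Matrix.of τ : Matrix (Fin r) (Fin r) ℤ)
  exact h

theorem F1_cast_update (τ : Chart r) (x : Fin r → ℤ) (j : Fin r) :
    (dt (Function.update τ j x) : ℚ) =
      ((Matrix.of (fun a b => (τ a b : ℚ)) : Matrix (Fin r) (Fin r) ℚ).updateRow j
        (fun i => (x i : ℚ))).det := by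
  rw [F1_cast_dt]
  congr 1
  ext a b
  rw [Matrix.updateRow_apply]
  by_cases h : a = j
  · subst h
    simp
  · simp [h]

theorem co_sum (τ : Chart r) (h : dt τ ≠ 0) (x : Fin r → ℤ) (i : Fin r) :
    (x i : ℚ) = ∑ j, co τ x j * (τ j i : ℚ) := by
  have h0 : (dt τ : ℚ) ≠ 0 := by exact_mod_cast h
  have h1 : (dt τ : ℚ) * (x i : ℚ) = ∑ j, (dt (Function.update τ j x) : ℚ) * (τ j i : ℚ) := by
    exact_mod_cast cramer_int τ x i
  have h2 : ∑ j, co τ x j * (τ j i : ℚ)
      = (∑ j, (dt (Function.update τ j x) : ℚ) * (τ j i : ℚ)) / (dt τ : ℚ) := by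
    rw [Finset.sum_div]
    refine Finset.sum_congr rfl (fun j _ => ?_)
    unfold co
    ring
  rw [h2, ← h1, mul_div_cancel_left₀ _ h0]

theorem co_unique (τ : Chart r) (h : dt τ ≠ 0) (x : Fin r → ℤ) (c : Fin r → ℚ)
    (hc : ∀ i, (x i : ℚ) = ∑ j, c j * (τ j i : ℚ)) : co τ x = c := by
  have h0 : (dt τ : ℚ) ≠ 0 := by exact_mod_cast h
  funext j
  unfold co
  rw [F1_cast_update]
  have h1 : (fun i => (x i : ℚ)) =
      ∑ k, c k • (Matrix.of (fun a b => (τ a b : ℚ)) : Matrix (Fin r) (Fin r) ℚ) k := by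
    funext i
    rw [hc i, Finset.sum_apply]
    rfl
  rw [h1, Matrix.det_updateRow_sum, ← F1_cast_dt, smul_eq_mul, mul_div_cancel_right₀ _ h0]

theorem co_self (τ : Chart r) (h : dt τ ≠ 0) (l j : Fin r) : co τ (τ l) j = if j = l then 1 else 0 := by
  have h1 := co_unique τ h (τ l) (fun j => if j = l then 1 else 0) (fun i => by simp)
  exact congrFun h1 j

/-- linearity of the coordinates -/
theorem co_lin (τ τ' : Chart r) (h : dt τ ≠ 0) (h' : dt τ' ≠ 0) (x : Fin r → ℤ) (j : Fin r) :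
    co τ x j = ∑ l, co τ' x l * co τ (τ' l) j := by
  have h1 := co_unique τ h x (fun j => ∑ l, co τ' x l * co τ (τ' l) j) (fun i => by
    rw [co_sum τ' h' x i]
    have h2 : ∀ l ∈ (Finset.univ : Finset (Fin r)), co τ' x l * (τ' l i : ℚ)
        = ∑ j, co τ' x l * co τ (τ' l) j * (τ j i : ℚ) := by
      intro l _
      rw [co_sum τ h (τ' l) i, Finset.mul_sum]
      exact Finset.sum_congr rfl (fun j _ => by ring)
    rw [Finset.sum_congr rfl h2, Finset.sum_comm]
    refine Finset.sum_congr rfl (fun j _ => ?_)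
    rw [Finset.sum_mul])
  exact congrFun h1 j

theorem co_add (τ : Chart r) (h : dt τ ≠ 0) (x y : Fin r → ℤ) (j : Fin r) :
    co τ (x + y) j = co τ x j + co τ y j := by
  have h1 := co_unique τ h (x + y) (fun j => co τ x j + co τ y j) (fun i => by
    rw [Pi.add_apply, Int.cast_add, co_sum τ h x i, co_sum τ h y i, ← Finset.sum_add_distrib]
    exact Finset.sum_congr rfl (fun j _ => by ring))
  exact congrFun h1 j

theorem co_zsmul (τ : Chart r) (h : dt τ ≠ 0) (z : ℤ) (x : Fin r → ℤ) (j : Fin r) :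
    co τ (z • x) j = z * co τ x j := by
  have h1 := co_unique τ h (z • x) (fun j => z * co τ x j) (fun i => by
    rw [Pi.smul_apply, smul_eq_mul, Int.cast_mul, co_sum τ h x i, Finset.mul_sum]
    exact Finset.sum_congr rfl (fun j _ => by ring))
  exact congrFun h1 j

theorem co_sum_smul (τ : Chart r) (h : dt τ ≠ 0) (z : Fin r → ℤ) (j : Fin r) :
    co τ (∑ l, z l • τ l) j = z j := by
  have h1 := co_unique τ h (∑ l, z l • τ l) (fun j => (z j : ℚ)) (fun i => by
    rw [Finset.sum_apply]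
    push_cast
    exact Finset.sum_congr rfl (fun j _ => by simp))
  exact congrFun h1 j

theorem dt_update (τ : Chart r) (h : dt τ ≠ 0) (w : Fin r → ℤ) (j : Fin r) :
    (dt (Function.update τ j w) : ℚ) = co τ w j * dt τ := by
  have h0 : (dt τ : ℚ) ≠ 0 := by exact_mod_cast h
  unfold co
  rw [div_mul_cancel₀ _ h0]

theorem co_update (τ : Chart r) (h : dt τ ≠ 0) (w : Fin r → ℤ) (j : Fin r) (hj : co τ w j ≠ 0)
    (x : Fin r → ℤ) (l : Fin r) :
    co (Function.update τ j w) x l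
      = if l = j then co τ x j / co τ w j else co τ x l - co τ w l * (co τ x j / co τ w j) := by
  have h0 : (dt τ : ℚ) ≠ 0 := by exact_mod_cast h
  have h' : dt (Function.update τ j w) ≠ 0 := by
    have h2 : (dt (Function.update τ j w) : ℚ) ≠ 0 := by
      rw [dt_update τ h w j]
      exact mul_ne_zero hj h0
    exact_mod_cast h2
  have h1 := co_unique (Function.update τ j w) h' x
    (fun l => if l = j then co τ x j / co τ w j else
      co τ x l - co τ w l * (co τ x j / co τ w j)) (fun i => by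
    have h3 : ∀ l ∈ (Finset.univ : Finset (Fin r)),
        (if l = j then co τ x j / co τ w j else
          co τ x l - co τ w l * (co τ x j / co τ w j)) * ((Function.update τ j w l i : ℤ) : ℚ)
        = (if l = j then co τ x j / co τ w j * (w i : ℚ) else 0) +
          (co τ x l * (τ l i : ℚ) - (co τ x j / co τ w j) * (co τ w l * (τ l i : ℚ))) := by
      intro l _
      by_cases hl : l = j
      · subst hl
        rw [if_pos rfl, if_pos rfl, Function.update_self]
        have : co τ x l / co τ w l * (co τ w l * (τ l i : ℚ)) = co τ x l * (τ l i : ℚ) := by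
          rw [← mul_assoc, div_mul_cancel₀ _ hj]
        rw [this]
        ring
      · rw [if_neg hl, if_neg hl, Function.update_of_ne hl]
        ring
    rw [Finset.sum_congr rfl h3, Finset.sum_add_distrib, Finset.sum_sub_distrib,
      ← Finset.mul_sum, ← co_sum τ h x i, ← co_sum τ h w i, Finset.sum_ite_eq' Finset.univ j,
      if_pos (Finset.mem_univ j)]
    ring)
  exact congrFun h1 l

theorem inj_of_dt (τ : Chart r) (h : dt τ ≠ 0) : Function.Injective τ := by
  intro a b hab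
  by_contra hne
  exact h (Matrix.det_zero_of_row_eq hne hab)

theorem lin_self (τ : Chart r) (h : dt τ ≠ 0) (φ : (Fin r → ℤ) → ℤ) (l : Fin r) : lin τ φ (τ l) = φ (τ l) := by
  unfold lin
  simp only [co_self τ h l]
  simp

/-- `lin τ φ` is linear -/
theorem lin_lin (τ τ' : Chart r) (h : dt τ ≠ 0) (h' : dt τ' ≠ 0) (φ : (Fin r → ℤ) → ℤ) (x : Fin r → ℤ) :
    lin τ φ x = ∑ l, co τ' x l * lin τ φ (τ' l) := by
  unfold lin
  have h1 : ∀ m ∈ (Finset.univ : Finset (Fin r)), co τ x m * (φ (τ m) : ℚ)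
      = ∑ l, co τ' x l * (co τ (τ' l) m * (φ (τ m) : ℚ)) := by
    intro m _
    rw [co_lin τ τ' h h' x m, Finset.sum_mul]
    exact Finset.sum_congr rfl (fun l _ => by ring)
  rw [Finset.sum_congr rfl h1, Finset.sum_comm]
  exact Finset.sum_congr rfl (fun l _ => by rw [Finset.mul_sum])

end TorFan
end

section

/-! Row F6: the dual exponents of a unimodular chart. -/

namespace TorFan

/-- the linear form: -v at 0, e i at i + 1 -/
def ell {r : ℕ} (e : Fin r → ℕ) (v : ℕ) : Fin (r + 1) → ℤ := Fin.cons (-(v : ℤ)) (fun i => (e i : ℤ))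

/-- the group N -/
def NN {r : ℕ} (e : Fin r → ℕ) (v : ℕ) : AddSubgroup (Fin r → ℤ) where
  carrier := {x | (v : ℤ) ∣ ∑ i, (e i : ℤ) * x i}
  add_mem' := by
    intro a b ha hb
    have h : ∑ i, (e i : ℤ) * (a + b) i = ∑ i, (e i : ℤ) * a i + ∑ i, (e i : ℤ) * b i := by
      rw [← Finset.sum_add_distrib]
      exact Finset.sum_congr rfl (fun i _ => by rw [Pi.add_apply]; ring)
    show (v : ℤ) ∣ _
    rw [h]
    exact dvd_add ha hb
  zero_mem' := by
    show (v : ℤ) ∣ _
    simp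
  neg_mem' := by
    intro a ha
    have h : ∑ i, (e i : ℤ) * (-a) i = -∑ i, (e i : ℤ) * a i := by
      rw [← Finset.sum_neg_distrib]
      exact Finset.sum_congr rfl (fun i _ => by rw [Pi.neg_apply]; ring)
    show (v : ℤ) ∣ _
    rw [h]
    exact (dvd_neg).mpr ha

/-- Bezout for the gcd g0 of v, e_1, ..., e_r -/
theorem bezout {r : ℕ} (e : Fin r → ℕ) (v : ℕ) (hv : 1 ≤ v) :
    ∃ (g0 : ℕ) (ell' s : Fin (r + 1) → ℤ), 1 ≤ g0 ∧ g0 ∣ v ∧ (∀ a, ell e v a = g0 * ell' a) ∧
      ∑ a, ell' a * s a = 1 := by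
  obtain ⟨g, hg⟩ := (IsPrincipalIdealRing.principal (Ideal.span (Set.range (ell e v)))).principal
  have hmem : ∀ a, g ∣ ell e v a := by
    intro a
    have h1 : ell e v a ∈ Ideal.span (Set.range (ell e v)) := Ideal.subset_span ⟨a, rfl⟩
    rw [hg] at h1
    exact Ideal.mem_span_singleton.mp h1
  have h0 : ell e v 0 = -(v : ℤ) := rfl
  have hg0 : g ≠ 0 := by
    rintro rfl
    have h1 := hmem 0
    rw [h0, zero_dvd_iff, neg_eq_zero] at h1
    have h2 : v = 0 := by exact_mod_cast h1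
    omega
  have hgn : ((g.natAbs : ℕ) : ℤ) ∈ Ideal.span (Set.range (ell e v)) := by
    rw [hg]
    exact Ideal.mem_span_singleton.mpr (Int.dvd_natAbs.mpr dvd_rfl)
  obtain ⟨s, hs⟩ := Ideal.mem_span_range_iff_exists_fun.mp hgn
  have hd : ∀ a, ∃ z, ell e v a = (g.natAbs : ℤ) * z := fun a => Int.natAbs_dvd.mpr (hmem a)
  choose ell' hell' using hd
  have hnz : ((g.natAbs : ℕ) : ℤ) ≠ 0 := by
    have := Int.natAbs_ne_zero.mpr hg0
    exact_mod_cast this
  refine ⟨g.natAbs, ell', s, Nat.one_le_iff_ne_zero.mpr (Int.natAbs_ne_zero.mpr hg0), ?_, hell', ?_⟩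
  · have h1 : ((g.natAbs : ℕ) : ℤ) ∣ -(v : ℤ) := by
      rw [← h0]
      exact ⟨_, hell' 0⟩
    exact Int.natCast_dvd_natCast.mp ((dvd_neg).mp h1)
  · apply mul_left_cancel₀ hnz
    rw [mul_one]
    calc (g.natAbs : ℤ) * ∑ a, ell' a * s a = ∑ a, s a * ell e v a := by
          rw [Finset.mul_sum]
          exact Finset.sum_congr rfl (fun a _ => by rw [hell']; ring)
      _ = _ := hs

/-- A j = (β_j, τ j), v β_j = ∑ e_i τ j i.  For x in Z^(r+1) the vector P x = x - (∑ ell' x) s lies in the kernel of ell, so its last r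
coordinates lie in N and co τ of them is integral; Y j a = co τ of the last coordinates of P (unit vector a).  The identities:
(A, s) times (Y, ell') is the identity (`co_sum` for the last r coordinates, for the coordinate 0 divide by v);
the other product follows as the matrices are square (`Matrix.mul_eq_one_comm`) -/
theorem exists_dual {r : ℕ} (e : Fin r → ℕ) (v : ℕ) (hv : 1 ≤ v) (g0 : ℕ) (ell' s : Fin (r + 1) → ℤ) (hg : 1 ≤ g0)
    (hell : ∀ a, ell e v a = g0 * ell' a) (hs : ∑ a, ell' a * s a = 1) (τ : Chart r) (hd : dt τ ≠ 0)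
    (hN : ∀ j, τ j ∈ NN e v) (h0 : ∀ j i, 0 ≤ τ j i) (hu : ∀ x ∈ NN e v, ∀ j, ∃ z : ℤ, co τ x j = z) :
    ∃ (A : Fin r → Fin (r + 1) → ℕ) (Y : Fin r → Fin (r + 1) → ℤ),
      (∀ j i, (A j (Fin.succ i) : ℤ) = τ j i) ∧
      (∀ j l, ∑ a, Y j a * (A l a : ℤ) = if j = l then 1 else 0) ∧
      (∀ j, ∑ a, Y j a * s a = 0) ∧ (∀ j, ∑ a, ell' a * (A j a : ℤ) = 0) ∧
      (∀ a b, (∑ j, (A j a : ℤ) * Y j b) + s a * ell' b = if a = b then 1 else 0) ∧
      (∀ x : Fin (r + 1) → ℤ, ∑ a, ell e v a * x a = 0 → ∀ j,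
        ((∑ a, Y j a * x a : ℤ) : ℚ) = co τ (fun i => x (Fin.succ i)) j) := by
  have hv0 : (v : ℤ) ≠ 0 := by
    have : v ≠ 0 := by omega
    exact_mod_cast this
  have hvp : (0 : ℤ) < v := by
    have : 0 < v := by omega
    exact_mod_cast this
  have hg0 : (g0 : ℤ) ≠ 0 := by
    have : g0 ≠ 0 := by omega
    exact_mod_cast this
  -- the coordinate 0 of the vectors A j
  have hβ : ∀ j, ∃ β : ℕ, (v : ℤ) * β = ∑ i, (e i : ℤ) * τ j i := by
    intro j
    obtain ⟨z, hz⟩ : (v : ℤ) ∣ ∑ i, (e i : ℤ) * τ j i := hN j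
    have h1 : 0 ≤ (v : ℤ) * z := by
      rw [← hz]
      exact Finset.sum_nonneg (fun i _ => mul_nonneg (by positivity) (h0 j i))
    have h2 : 0 ≤ z := nonneg_of_mul_nonneg_right h1 hvp
    exact ⟨z.toNat, by rw [Int.toNat_of_nonneg h2, hz]⟩
  choose β hβ using hβ
  have hnat : ∀ j i, ∃ n : ℕ, (n : ℤ) = τ j i := fun j i => ⟨(τ j i).toNat, Int.toNat_of_nonneg (h0 j i)⟩
  choose t ht using hnat
  -- the linear form
  have hl : ∀ x : Fin (r + 1) → ℤ,
      ∑ a, ell e v a * x a = -(v : ℤ) * x 0 + ∑ i, (e i : ℤ) * x (Fin.succ i) := by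
    intro x
    rw [Fin.sum_univ_succ]
    rfl
  have hl' : ∀ x : Fin (r + 1) → ℤ, ∑ a, ell e v a * x a = g0 * ∑ a, ell' a * x a := by
    intro x
    rw [Finset.mul_sum]
    exact Finset.sum_congr rfl (fun a _ => by rw [hell]; ring)
  -- the projections of the unit vectors
  obtain ⟨P, hPdef⟩ : ∃ P : Fin (r + 1) → Fin (r + 1) → ℤ,
      ∀ b a, P b a = (if a = b then 1 else 0) - s a * ell' b := ⟨_, fun _ _ => rfl⟩
  have hP : ∀ b, ∑ a, ell' a * P b a = 0 := by
    intro b
    have h1 : ∀ a, ell' a * P b a = (if a = b then ell' a else 0) - (ell' a * s a) * ell' b := by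
      intro a
      rw [hPdef]
      split_ifs <;> ring
    rw [Finset.sum_congr rfl (fun a _ => h1 a), Finset.sum_sub_distrib, ← Finset.sum_mul, hs,
      Finset.sum_ite_eq' Finset.univ b ell', if_pos (Finset.mem_univ b)]
    ring
  have hP0 : ∀ b, (v : ℤ) * P b 0 = ∑ i, (e i : ℤ) * P b (Fin.succ i) := by
    intro b
    have h1 := hl (P b)
    rw [hl', hP, mul_zero] at h1
    linarith
  have hPN : ∀ b, (fun i => P b (Fin.succ i)) ∈ NN e v := by
    intro b
    show (v : ℤ) ∣ ∑ i, (e i : ℤ) * P b (Fin.succ i)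
    exact ⟨P b 0, (hP0 b).symm⟩
  choose Y hY using fun b j => hu _ (hPN b) j
  have hZ : ∀ b i, P b (Fin.succ i) = ∑ j, Y b j * τ j i := by
    intro b i
    have h1 := co_sum τ hd (fun i => P b (Fin.succ i)) i
    simp only [hY] at h1
    exact_mod_cast h1
  have hZ0 : ∀ b, P b 0 = ∑ j, Y b j * (β j : ℤ) := by
    intro b
    apply mul_left_cancel₀ hv0
    rw [hP0, Finset.mul_sum]
    calc ∑ i, (e i : ℤ) * P b (Fin.succ i) = ∑ i, ∑ j, (e i : ℤ) * (Y b j * τ j i) :=
          Finset.sum_congr rfl (fun i _ => by rw [hZ, Finset.mul_sum])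
      _ = ∑ j, ∑ i, (e i : ℤ) * (Y b j * τ j i) := Finset.sum_comm
      _ = ∑ j, (v : ℤ) * (Y b j * (β j : ℤ)) := Finset.sum_congr rfl (fun j _ => by
          have h2 : (v : ℤ) * (Y b j * (β j : ℤ)) = Y b j * ((v : ℤ) * β j) := by ring
          rw [h2, hβ, Finset.mul_sum]
          exact Finset.sum_congr rfl (fun i _ => by ring))
  -- the functionals Y are the coordinates of the projection
  have hsumP : ∀ (x : Fin (r + 1) → ℤ) a, ∑ b, x b * P b a = x a - s a * ∑ b, ell' b * x b := by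
    intro x a
    have h1 : ∀ b, x b * P b a = (if a = b then x b else 0) - s a * (ell' b * x b) := by
      intro b
      rw [hPdef]
      split_ifs <;> ring
    rw [Finset.sum_congr rfl (fun b _ => h1 b), Finset.sum_sub_distrib, ← Finset.mul_sum,
      Finset.sum_ite_eq Finset.univ a x, if_pos (Finset.mem_univ a)]
  have hco : ∀ (x : Fin (r + 1) → ℤ) j, ((∑ a, Y a j * x a : ℤ) : ℚ) =
      co τ (fun i => x (Fin.succ i) - s (Fin.succ i) * ∑ b, ell' b * x b) j := by
    intro x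
    have h1 := co_unique τ hd (fun i => x (Fin.succ i) - s (Fin.succ i) * ∑ b, ell' b * x b)
      (fun j => ((∑ a, Y a j * x a : ℤ) : ℚ)) (fun i => by
        have h2 : x (Fin.succ i) - s (Fin.succ i) * ∑ b, ell' b * x b =
            ∑ j, (∑ a, Y a j * x a) * τ j i := by
          rw [← hsumP x (Fin.succ i)]
          calc ∑ b, x b * P b (Fin.succ i) = ∑ b, ∑ j, Y b j * x b * τ j i :=
                Finset.sum_congr rfl (fun b _ => by
                  rw [hZ, Finset.mul_sum]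
                  exact Finset.sum_congr rfl (fun j _ => by ring))
            _ = ∑ j, ∑ b, Y b j * x b * τ j i := Finset.sum_comm
            _ = _ := Finset.sum_congr rfl (fun j _ => by rw [Finset.sum_mul])
        show ((x (Fin.succ i) - s (Fin.succ i) * ∑ b, ell' b * x b : ℤ) : ℚ) = _
        rw [h2]
        push_cast
        rfl)
    intro j
    rw [h1]
  -- the vectors A j
  obtain ⟨A, hA0, hA1⟩ : ∃ A : Fin r → Fin (r + 1) → ℕ, (∀ j, A j 0 = β j) ∧
      ∀ j i, (A j (Fin.succ i) : ℤ) = τ j i :=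
    ⟨fun j => Fin.cons (β j) (t j), fun j => rfl, fun j i => ht j i⟩
  have hAl : ∀ j, ∑ a, ell' a * (A j a : ℤ) = 0 := by
    intro j
    apply mul_left_cancel₀ hg0
    rw [← hl' (fun a => (A j a : ℤ)), hl, mul_zero, hA0, neg_mul, hβ]
    simp only [hA1]
    ring
  refine ⟨A, fun j a => Y a j, hA1, ?_, ?_, hAl, ?_, ?_⟩
  · intro j l
    have h1 := hco (fun a => (A l a : ℤ)) j
    rw [hAl l] at h1
    simp only [mul_zero, sub_zero, hA1] at h1
    have h2 : co τ (fun i => τ l i) j = if j = l then 1 else 0 := co_self τ hd l j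
    rw [h2] at h1
    have h3 : ((∑ a, Y a j * (A l a : ℤ) : ℤ) : ℚ) = ((if j = l then 1 else 0 : ℤ) : ℚ) := by
      rw [h1]
      split_ifs <;> simp
    exact_mod_cast h3
  · intro j
    have h1 := hco s j
    rw [hs] at h1
    have h2 : co τ (fun i => s (Fin.succ i) - s (Fin.succ i) * 1) j = 0 := by
      have h3 := co_unique τ hd (fun i => s (Fin.succ i) - s (Fin.succ i) * 1) (fun _ => 0)
        (fun i => by simp)
      rw [h3]
    rw [h2] at h1
    exact_mod_cast h1
  · intro a b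
    have h1 : ∑ j, (A j a : ℤ) * Y b j = P b a := by
      refine Fin.cases ?_ (fun i => ?_) a
      · rw [hZ0]
        exact Finset.sum_congr rfl (fun j _ => by rw [hA0]; ring)
      · rw [hZ]
        exact Finset.sum_congr rfl (fun j _ => by rw [hA1]; ring)
    rw [h1, hPdef]
    ring
  · intro x hx j
    have h1 := hco x j
    have h2 : ∑ b, ell' b * x b = 0 := by
      have h3 := hl' x
      rw [hx] at h3
      rcases mul_eq_zero.mp h3.symm with h4 | h4
      · exact absurd h4 hg0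
      · exact h4
    rw [h2] at h1
    simp only [mul_zero, sub_zero] at h1
    exact h1

end TorFan
end

section

/-! Row F2: the new vertex of a star subdivision. -/

namespace TorFan

variable {r : ℕ}

private theorem Vert_mem_supp {τ : Chart r} {w : Fin r → ℤ} {l : Fin r} (h : 0 < co τ w l) :
    τ l ∈ supp τ w := by
  classical
  unfold supp
  exact Finset.mem_image.2 ⟨l, Finset.mem_filter.2 ⟨Finset.mem_univ _, h⟩, rfl⟩

private theorem Vert_supp {τ : Chart r} {w ρ : Fin r → ℤ} (h : ρ ∈ supp τ w) :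
    ∃ l, 0 < co τ w l ∧ τ l = ρ := by
  classical
  unfold supp at h
  obtain ⟨l, hl, rfl⟩ := Finset.mem_image.1 h
  exact ⟨l, (Finset.mem_filter.1 hl).2, rfl⟩

/-- the coordinates of w in the charts which contain the face F = supp τ0 w -/
theorem co_face {N : AddSubgroup (Fin r → ℤ)} {T : Finset (Chart r)} {φ : (Fin r → ℤ) → ℤ} (hT : Coh N T φ)
    (τ0 : Chart r) (h0 : τ0 ∈ T) (w : Fin r → ℤ) (hw : Half τ0 w) (τ : Chart r) (hτ : τ ∈ T)
    (hF : Has τ (supp τ0 w)) (l : Fin r) :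
    (∀ l0, τ0 l0 = τ l → co τ w l = co τ0 w l0) ∧ ((∀ l0, τ0 l0 ≠ τ l) → co τ w l = 0) := by
  have hd0 := hT.det τ0 h0
  have hd := hT.det τ hτ
  have key : ∀ l', τ0 l' ≠ τ l → co τ0 w l' * co τ (τ0 l') l = 0 := by
    intro l' hne
    rcases (hw.1 l').1.lt_or_eq with hpos | hz
    · obtain ⟨m, hm⟩ := hF _ (Vert_mem_supp hpos)
      rw [← hm, co_self τ hd, if_neg, mul_zero]
      rintro rfl
      exact hne hm.symm
    · rw [← hz, zero_mul]
  constructor
  · intro l0 hl0
    rw [co_lin τ τ0 hd hd0, Finset.sum_eq_single l0]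
    · rw [hl0, co_self τ hd, if_pos rfl, mul_one]
    · intro l' _ hne
      apply key
      intro h
      exact hne (inj_of_dt τ0 hd0 (h.trans hl0.symm))
    · intro h
      exact absurd (Finset.mem_univ _) h
  · intro hno
    rw [co_lin τ τ0 hd hd0]
    exact Finset.sum_eq_zero fun l' _ => key l' (hno l')

theorem half_face {N : AddSubgroup (Fin r → ℤ)} {T : Finset (Chart r)} {φ : (Fin r → ℤ) → ℤ} (hT : Coh N T φ)
    (τ0 : Chart r) (h0 : τ0 ∈ T) (w : Fin r → ℤ) (hw : Half τ0 w) (τ : Chart r) (hτ : τ ∈ T)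
    (hF : Has τ (supp τ0 w)) : Half τ w ∧ ∀ l, 0 < co τ w l ↔ τ l ∈ supp τ0 w := by
  have hc := fun l => co_face hT τ0 h0 w hw τ hτ hF l
  refine ⟨⟨fun l => ?_, ?_⟩, fun l => ⟨fun hl => ?_, fun hl => ?_⟩⟩
  · by_cases hl : ∃ l0, τ0 l0 = τ l
    · obtain ⟨l0, hl0⟩ := hl
      rw [(hc l).1 l0 hl0]
      exact hw.1 l0
    · push Not at hl
      rw [(hc l).2 hl]
      exact ⟨le_rfl, one_pos⟩
  · obtain ⟨l1, hl1⟩ := hw.2
    have hpos : 0 < co τ0 w l1 := lt_of_le_of_ne (hw.1 l1).1 (Ne.symm hl1)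
    obtain ⟨l, hl⟩ := hF _ (Vert_mem_supp hpos)
    exact ⟨l, by rw [(hc l).1 l1 hl.symm]; exact hl1⟩
  · by_cases hex : ∃ l0, τ0 l0 = τ l
    · obtain ⟨l0, hl0⟩ := hex
      rw [(hc l).1 l0 hl0] at hl
      rw [← hl0]
      exact Vert_mem_supp hl
    · push Not at hex
      rw [(hc l).2 hex] at hl
      exact absurd hl (lt_irrefl 0)
  · obtain ⟨l0, hpos, hl0⟩ := Vert_supp hl
    rw [(hc l).1 l0 hl0]
    exact hpos

theorem lin_face {N : AddSubgroup (Fin r → ℤ)} {T : Finset (Chart r)} {φ : (Fin r → ℤ) → ℤ} (hT : Coh N T φ)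
    (τ0 : Chart r) (h0 : τ0 ∈ T) (w : Fin r → ℤ) (hw : Half τ0 w) (τ : Chart r) (hτ : τ ∈ T)
    (hF : Has τ (supp τ0 w)) : lin τ φ w = lin τ0 φ w := by
  have hd0 := hT.det τ0 h0
  have hd := hT.det τ hτ
  rw [lin_lin τ τ0 hd hd0]
  unfold lin
  refine Finset.sum_congr rfl fun l _ => ?_
  rcases (hw.1 l).1.lt_or_eq with hpos | hz
  · obtain ⟨m, hm⟩ := hF _ (Vert_mem_supp hpos)
    have h1 := lin_self τ hd φ m
    rw [hm] at h1
    unfold lin at h1
    rw [h1]
  · rw [← hz, zero_mul, zero_mul]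

/-- `lin_lin`: lin τ φ w = ∑ co τ0 w l * lin τ φ (τ0 l), and lin τ φ (τ0 l) > φ (τ0 l) for some l with co > 0 -/
theorem lin_gt {N : AddSubgroup (Fin r → ℤ)} {T : Finset (Chart r)} {φ : (Fin r → ℤ) → ℤ} (hT : Coh N T φ)
    (τ0 : Chart r) (h0 : τ0 ∈ T) (w : Fin r → ℤ) (hw : Half τ0 w) (τ : Chart r) (hτ : τ ∈ T)
    (hF : ¬ Has τ (supp τ0 w)) : lin τ0 φ w < lin τ φ w := by
  have hd0 := hT.det τ0 h0
  have hd := hT.det τ hτ
  unfold Has at hF
  push Not at hF
  obtain ⟨ρ, hρ, hno⟩ := hF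
  obtain ⟨l1, hpos, rfl⟩ := Vert_supp hρ
  rw [lin_lin τ τ0 hd hd0]
  have h2 : lin τ0 φ w = ∑ l, co τ0 w l * (φ (τ0 l) : ℚ) := rfl
  rw [h2]
  apply Finset.sum_lt_sum
  · intro l _
    exact mul_le_mul_of_nonneg_left (hT.conv τ hτ τ0 h0 l).1 (hw.1 l).1
  · refine ⟨l1, Finset.mem_univ _, mul_lt_mul_of_pos_left ?_ hpos⟩
    refine lt_of_le_of_ne (hT.conv τ hτ τ0 h0 l1).1 fun h => ?_
    obtain ⟨l, hl⟩ := (hT.conv τ hτ τ0 h0 l1).2 h
    exact hno l hl.symm

/-- w is not a vertex: φ w = lin τ φ w ≥ lin τ0 φ w ≥ φ w would give w = τ0 l -/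
theorem new_vertex {N : AddSubgroup (Fin r → ℤ)} {T : Finset (Chart r)} {φ : (Fin r → ℤ) → ℤ} (hT : Coh N T φ)
    (τ0 : Chart r) (h0 : τ0 ∈ T) (w : Fin r → ℤ) (hw : Half τ0 w) (τ : Chart r) (hτ : τ ∈ T) (j : Fin r) :
    τ j ≠ w := by
  intro hj
  have hd0 := hT.det τ0 h0
  have hd := hT.det τ hτ
  have h1 : lin τ φ w = φ w := by
    have := lin_self τ hd φ j
    rwa [hj] at this
  have h2 : lin τ0 φ w ≤ lin τ φ w := by
    by_cases hF : Has τ (supp τ0 w)
    · exact (lin_face hT τ0 h0 w hw τ hτ hF).ge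
    · exact (lin_gt hT τ0 h0 w hw τ hτ hF).le
  have h3 := hT.conv τ0 h0 τ hτ j
  rw [hj] at h3
  obtain ⟨l, hl⟩ := h3.2 (le_antisymm h3.1 (h2.trans_eq h1))
  have h4 := (hw.1 l).2
  rw [hl, co_self τ0 hd0, if_pos rfl] at h4
  exact lt_irrefl _ h4

theorem w_nonneg {N : AddSubgroup (Fin r → ℤ)} {T : Finset (Chart r)} {φ : (Fin r → ℤ) → ℤ} (hT : Coh N T φ)
    (τ0 : Chart r) (h0 : τ0 ∈ T) (w : Fin r → ℤ) (hw : Half τ0 w) (i : Fin r) : 0 ≤ w i := by
  have h1 : (0 : ℚ) ≤ (w i : ℚ) := by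
    rw [co_sum τ0 (hT.det τ0 h0) w i]
    refine Finset.sum_nonneg fun j _ => mul_nonneg (hw.1 j).1 ?_
    exact_mod_cast hT.nonneg τ0 h0 j i
  exact_mod_cast h1

end TorFan
end

section

/-! Row F4: star subdivisions cover. -/

namespace TorFan

universe u

variable {r : ℕ}

/-- integral coordinates of w -/
theorem cover_int (τ : Chart r) (h : dt τ ≠ 0) (w : Fin r → ℤ) (hw : ∀ l, 0 ≤ co τ w l) :
    ∃ (q : ℤ) (p : Fin r → ℤ), 1 ≤ q ∧ (∀ l, 0 ≤ p l) ∧ (∀ l, 0 < p l ↔ 0 < co τ w l) ∧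
      ∀ i, q * w i = ∑ l, p l * τ l i := by
  have hq : 0 < |dt τ| := abs_pos.mpr h
  have hqQ : (0:ℚ) < ((|dt τ| : ℤ) : ℚ) := by exact_mod_cast hq
  have hs : (dt τ).sign * dt τ = |dt τ| := Int.sign_mul_self_eq_abs (dt τ)
  have hco : ∀ l, (((dt τ).sign * dt (Function.update τ l w) : ℤ) : ℚ) = |dt τ| * co τ w l := by
    intro l
    unfold co
    have h1 : ((|dt τ| : ℤ) : ℚ) = ((dt τ).sign : ℚ) * (dt τ : ℚ) := by rw [← hs]; push_cast; ring
    have h2 : (dt τ : ℚ) ≠ 0 := by exact_mod_cast h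
    have h3 : |(dt τ : ℚ)| = ((|dt τ| : ℤ) : ℚ) := by push_cast; rfl
    push_cast
    rw [h3, h1]
    field_simp
  refine ⟨|dt τ|, fun l => (dt τ).sign * dt (Function.update τ l w), hq, ?_, ?_, ?_⟩
  · intro l
    have h1 : (0:ℚ) ≤ (((dt τ).sign * dt (Function.update τ l w) : ℤ) : ℚ) := by
      rw [hco]
      have := hw l
      have h3 : (0:ℚ) < |(dt τ : ℚ)| := by exact_mod_cast hq
      positivity
    exact_mod_cast h1
  · intro l
    have h3 : (0:ℚ) < |(dt τ : ℚ)| := by exact_mod_cast hq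
    have h1 : (0 < (dt τ).sign * dt (Function.update τ l w)) ↔
        (0:ℚ) < (((dt τ).sign * dt (Function.update τ l w) : ℤ) : ℚ) := by
      exact_mod_cast Iff.rfl
    rw [h1, hco]
    exact mul_pos_iff_of_pos_left hqQ
  · intro i
    have h1 := cramer_int τ w i
    rw [← hs, mul_assoc, h1, Finset.mul_sum]
    exact Finset.sum_congr rfl fun l _ => by ring

/-- the smallest quotient c_j / p_j -/
theorem cover_min {Γ : Type u} [AddCommGroup Γ] [LinearOrder Γ] [IsOrderedAddMonoid Γ]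
    (p : Fin r → ℤ) (hp : ∀ l, 0 ≤ p l) (c : Fin r → Γ) (hc : ∀ l, 0 ≤ c l) (hex : ∃ l, 0 < p l) :
    ∃ j, 0 < p j ∧ ∀ l, p l • c j ≤ p j • c l := by
  classical
  set S : Finset (Fin r) := Finset.univ.filter fun l => 0 < p l with hS
  have hSne : S.Nonempty := by
    obtain ⟨l, hl⟩ := hex
    exact ⟨l, by rw [hS, Finset.mem_filter]; exact ⟨Finset.mem_univ _, hl⟩⟩
  obtain ⟨j, hj, hmin⟩ := Finset.exists_min_image S (fun l => (∏ k ∈ S.erase l, p k) • c l) hSne
  have hj0 : 0 < p j := (Finset.mem_filter.mp hj).2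
  refine ⟨j, hj0, ?_⟩
  intro l
  by_cases hl : 0 < p l
  · have hlS : l ∈ S := by rw [hS, Finset.mem_filter]; exact ⟨Finset.mem_univ _, hl⟩
    have h1 := hmin l hlS
    have hP : 0 < ∏ k ∈ S, p k := Finset.prod_pos fun k hk => (Finset.mem_filter.mp hk).2
    have e1 : p j * ∏ k ∈ S.erase j, p k = ∏ k ∈ S, p k := Finset.mul_prod_erase S p hj
    have e2 : p l * ∏ k ∈ S.erase l, p k = ∏ k ∈ S, p k := Finset.mul_prod_erase S p hlS
    have h2 : (p l * p j) • ((∏ k ∈ S.erase j, p k) • c j) ≤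
        (p l * p j) • ((∏ k ∈ S.erase l, p k) • c l) :=
      zsmul_le_zsmul_right (mul_pos hl hj0).le h1
    have h3 : (p l * p j) • ((∏ k ∈ S.erase j, p k) • c j) = (∏ k ∈ S, p k) • (p l • c j) := by
      rw [smul_smul, smul_smul, ← e1]
      congr 1
      ring
    have h4 : (p l * p j) • ((∏ k ∈ S.erase l, p k) • c l) = (∏ k ∈ S, p k) • (p j • c l) := by
      rw [smul_smul, smul_smul, ← e2]
      congr 1
      ring
    rw [h3, h4] at h2
    exact (zsmul_le_zsmul_iff_right hP).mp h2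
  · have h0 : p l = 0 := le_antisymm (not_lt.mp hl) (hp l)
    rw [h0, zero_smul]
    exact zsmul_nonneg (hc l) hj0.le

/-- n x = ∑ c_l τ_l; if τ contains F, write co τ w l = p_l / q with q ≥ 1 and choose j with p_j > 0 such that
p_l c_j ≤ p_j c_l for all l with p_l > 0; then n p_j x = q c_j w + ∑_{l ≠ j} (p_j c_l - p_l c_j) τ_l -/
theorem star_cov {N : AddSubgroup (Fin r → ℤ)} {T : Finset (Chart r)} {φ : (Fin r → ℤ) → ℤ} (hT : Coh N T φ)
    (hc : Cov.{u} T) (τ0 : Chart r) (h0 : τ0 ∈ T) (w : Fin r → ℤ) (hw : Half τ0 w) :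
    Cov.{u} (star T (supp τ0 w) w) := by
  classical
  intro Γ _ _ _ x hx
  obtain ⟨τ, hτ, n, c, hn, hcn, hsum⟩ := hc Γ x hx
  by_cases hF : Has τ (supp τ0 w)
  · obtain ⟨hhalf, hpos⟩ := half_face hT τ0 h0 w hw τ hτ hF
    obtain ⟨q, p, hq, hp, hpco, hqw⟩ := cover_int τ (hT.det τ hτ) w (fun l => (hhalf.1 l).1)
    have hex : ∃ l, 0 < p l := by
      obtain ⟨l, hl⟩ := hhalf.2
      exact ⟨l, (hpco l).mpr (lt_of_le_of_ne (hhalf.1 l).1 (Ne.symm hl))⟩
    obtain ⟨j, hj, hmin⟩ := cover_min p hp c hcn hex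
    have hjF : τ j ∈ supp τ0 w := (hpos j).mp ((hpco j).mp hj)
    refine ⟨Function.update τ j w, ?_, n * (p j).toNat,
      fun l => if l = j then q • c j else p j • c l - p l • c j, ?_, ?_, ?_⟩
    · unfold star
      rw [Finset.mem_union]
      right
      rw [Finset.mem_biUnion]
      refine ⟨τ, Finset.mem_filter.mpr ⟨hτ, hF⟩, ?_⟩
      rw [Finset.mem_image]
      exact ⟨j, Finset.mem_filter.mpr ⟨Finset.mem_univ _, hjF⟩, rfl⟩
    · have : 1 ≤ (p j).toNat := by omega
      exact Nat.mul_pos hn this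
    · intro l
      by_cases hl : l = j
      · simp only [hl, if_true]
        exact zsmul_nonneg (hcn j) (by omega)
      · simp only [if_neg hl]
        exact sub_nonneg.mpr (hmin l)
    · intro i
      have hjn : ((p j).toNat : ℤ) = p j := Int.toNat_of_nonneg hj.le
      have e1 : (n * (p j).toNat) • x i = p j • (n • x i) := by
        rw [mul_comm, mul_smul, ← natCast_zsmul, hjn]
      rw [e1, hsum i]
      have e2 : ∑ l, Function.update τ j w l i • (if l = j then q • c j else p j • c l - p l • c j) =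
          w i • (q • c j) + ∑ l ∈ Finset.univ.erase j, τ l i • (p j • c l - p l • c j) := by
        rw [← Finset.add_sum_erase Finset.univ _ (Finset.mem_univ j)]
        congr 1
        · simp
        · apply Finset.sum_congr rfl
          intro l hl
          have hlj := Finset.ne_of_mem_erase hl
          rw [Function.update_of_ne hlj, if_neg hlj]
      rw [e2]
      have e3 : ∑ l ∈ Finset.univ.erase j, τ l i • (p j • c l - p l • c j) =
          ∑ l, τ l i • (p j • c l - p l • c j) := by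
        rw [← Finset.add_sum_erase Finset.univ (fun l => τ l i • (p j • c l - p l • c j))
          (Finset.mem_univ j)]
        rw [sub_self, smul_zero, zero_add]
      rw [e3]
      have e4 : w i • (q • c j) = ∑ l, τ l i • (p l • c j) := by
        rw [smul_smul, mul_comm, hqw i, Finset.sum_smul]
        exact Finset.sum_congr rfl fun l _ => by rw [smul_smul, mul_comm]
      rw [e4, ← Finset.sum_add_distrib, Finset.smul_sum]
      apply Finset.sum_congr rfl
      intro l _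
      rw [← smul_add, smul_comm (p j) (τ l i) (c l)]
      congr 1
      abel
  · refine ⟨τ, ?_, n, c, hn, hcn, hsum⟩
    unfold star
    rw [Finset.mem_union]
    left
    exact Finset.mem_filter.mpr ⟨hτ, hF⟩

/-- the first chart: the multiples D e_i of the standard basis -/
theorem init_coh (N : AddSubgroup (Fin r → ℤ)) (D : ℤ) (hD : 1 ≤ D) (hN : ∀ x : Fin r → ℤ, D • x ∈ N) :
    Coh N {fun j i => if i = j then D else 0} (fun _ => 0) := by
  classical
  constructor
  · exact Finset.singleton_nonempty _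
  · intro τ hτ j
    rw [Finset.mem_singleton] at hτ
    subst hτ
    have := hN (Pi.single j 1)
    convert this using 1
    funext i
    simp only [Pi.smul_apply, Pi.single_apply, smul_eq_mul]
    split_ifs <;> simp
  · intro τ hτ j i
    rw [Finset.mem_singleton] at hτ
    subst hτ
    show 0 ≤ (if i = j then D else 0)
    split_ifs <;> omega
  · intro τ hτ
    rw [Finset.mem_singleton] at hτ
    subst hτ
    unfold dt
    have : (Matrix.of (fun j i : Fin r => if i = j then D else 0) : Matrix (Fin r) (Fin r) ℤ) =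
        Matrix.diagonal fun _ => D := by
      ext j i
      simp only [Matrix.of_apply, Matrix.diagonal_apply]
      by_cases h : i = j
      · rw [if_pos h, if_pos h.symm]
      · rw [if_neg h, if_neg (Ne.symm h)]
    rw [this, Matrix.det_diagonal, Finset.prod_const]
    exact pow_ne_zero _ (by omega)
  · intro τ hτ τ' hτ' j
    rw [Finset.mem_singleton] at hτ hτ'
    subst hτ
    subst hτ'
    refine ⟨?_, fun _ => ⟨j, rfl⟩⟩
    unfold lin
    simp

theorem init_cov (D : ℤ) (hD : 1 ≤ D) : Cov.{u} ({fun j i => if i = j then D else 0} : Finset (Chart r)) := by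
  classical
  intro Γ _ _ _ x hx
  refine ⟨_, Finset.mem_singleton_self _, D.toNat, x, by omega, hx, ?_⟩
  intro i
  have hDn : (D.toNat : ℤ) = D := Int.toNat_of_nonneg (by omega)
  rw [← natCast_zsmul, hDn]
  rw [Finset.sum_eq_single i]
  · simp
  · intro j _ hj
    show (if i = j then D else 0) • x j = 0
    rw [if_neg (Ne.symm hj), zero_smul]
  · intro h
    exact absurd (Finset.mem_univ i) h

end TorFan
end

section

/-! Row F5: termination. -/

namespace TorFan

variable {r : ℕ}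

/-- the measure: ∑ (r+1)^|det τ| -/
def meas (T : Finset (Chart r)) : ℕ := ∑ τ ∈ T, (r + 1) ^ (dt τ).natAbs

theorem natAbs_lt_of_co {τ : Chart r} (h : dt τ ≠ 0) (w : Fin r → ℤ) (j : Fin r) (h0 : 0 ≤ co τ w j)
    (h1 : co τ w j < 1) : (dt (Function.update τ j w)).natAbs < (dt τ).natAbs := by
  have h2 : ((dt (Function.update τ j w)).natAbs : ℚ) < ((dt τ).natAbs : ℚ) := by
    rw [Nat.cast_natAbs, Nat.cast_natAbs, Int.cast_abs, Int.cast_abs, dt_update τ h w j, abs_mul,
      abs_of_nonneg h0]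
    have h3 : (0 : ℚ) < |((dt τ : ℤ) : ℚ)| := abs_pos.mpr (by exact_mod_cast h)
    nlinarith
  exact_mod_cast h2

theorem sum_union_le' {α : Type*} [DecidableEq α] (s t : Finset α) (f : α → ℕ) :
    ∑ a ∈ s ∪ t, f a ≤ ∑ a ∈ s, f a + ∑ a ∈ t, f a := by
  rw [← Finset.sum_union_inter]
  exact Nat.le_add_right _ _

theorem sum_biUnion_le' {ι α : Type*} [DecidableEq α] [DecidableEq ι] (s : Finset ι) (t : ι → Finset α)
    (f : α → ℕ) : ∑ a ∈ s.biUnion t, f a ≤ ∑ i ∈ s, ∑ a ∈ t i, f a := by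
  induction s using Finset.induction_on with
  | empty => simp
  | insert i s hi ih =>
    rw [Finset.biUnion_insert, Finset.sum_insert hi]
    exact (sum_union_le' _ _ f).trans (Nat.add_le_add_left ih _)

/-- each τ ⊇ F is replaced by at most r charts of determinant |co τ w j| |det τ| < |det τ| -/
theorem star_meas {N : AddSubgroup (Fin r → ℤ)} {T : Finset (Chart r)} {φ : (Fin r → ℤ) → ℤ} (hT : Coh N T φ)
    (τ0 : Chart r) (h0 : τ0 ∈ T) (w : Fin r → ℤ) (hw : Half τ0 w) :
    meas (star T (supp τ0 w) w) < meas T := by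
  classical
  have hF0 : Has τ0 (supp τ0 w) := by
    intro ρ hρ
    unfold supp at hρ
    rw [Finset.mem_image] at hρ
    obtain ⟨l, _, hl⟩ := hρ
    exact ⟨l, hl⟩
  have hstep : ∀ τ ∈ T, Has τ (supp τ0 w) →
      ∑ σ ∈ (Finset.univ.filter (fun j => τ j ∈ supp τ0 w)).image (fun j => Function.update τ j w),
        (r + 1) ^ (dt σ).natAbs < (r + 1) ^ (dt τ).natAbs := by
    intro τ hτ hF
    have hh := (half_face hT τ0 h0 w hw τ hτ hF).1
    have hd := hT.det τ hτ
    obtain ⟨j0, hj0⟩ := hh.2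
    have hpos : 0 < (dt τ).natAbs := Int.natAbs_pos.mpr hd
    obtain ⟨k, hk⟩ : ∃ k, (dt τ).natAbs = k + 1 := ⟨(dt τ).natAbs - 1, by omega⟩
    have h1 : ∀ σ ∈ (Finset.univ.filter (fun j => τ j ∈ supp τ0 w)).image (fun j => Function.update τ j w),
        (r + 1) ^ (dt σ).natAbs ≤ (r + 1) ^ k := by
      intro σ hσ
      rw [Finset.mem_image] at hσ
      obtain ⟨j, _, rfl⟩ := hσ
      have h2 := natAbs_lt_of_co hd w j (hh.1 j).1 (hh.1 j).2
      exact Nat.pow_le_pow_right (by omega) (by omega)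
    have h3 : ((Finset.univ.filter (fun j => τ j ∈ supp τ0 w)).image (fun j => Function.update τ j w)).card ≤ r := by
      refine (Finset.card_image_le).trans ((Finset.card_le_univ _).trans ?_)
      rw [Fintype.card_fin]
    calc ∑ σ ∈ (Finset.univ.filter (fun j => τ j ∈ supp τ0 w)).image (fun j => Function.update τ j w),
        (r + 1) ^ (dt σ).natAbs
        ≤ ((Finset.univ.filter (fun j => τ j ∈ supp τ0 w)).image
            (fun j => Function.update τ j w)).card • (r + 1) ^ k := Finset.sum_le_card_nsmul _ _ _ h1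
      _ ≤ r * (r + 1) ^ k := by
          rw [smul_eq_mul]
          exact Nat.mul_le_mul_right _ h3
      _ < (r + 1) ^ (dt τ).natAbs := by
          rw [hk, pow_succ]
          have h4 : 0 < (r + 1) ^ k := by positivity
          nlinarith
  unfold meas star
  calc ∑ σ ∈ (T.filter (fun τ => ¬ Has τ (supp τ0 w)) ∪
      (T.filter (fun τ => Has τ (supp τ0 w))).biUnion (fun τ =>
        (Finset.univ.filter (fun j => τ j ∈ supp τ0 w)).image (fun j => Function.update τ j w))),
        (r + 1) ^ (dt σ).natAbs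
      ≤ ∑ σ ∈ T.filter (fun τ => ¬ Has τ (supp τ0 w)), (r + 1) ^ (dt σ).natAbs +
        ∑ σ ∈ (T.filter (fun τ => Has τ (supp τ0 w))).biUnion (fun τ =>
          (Finset.univ.filter (fun j => τ j ∈ supp τ0 w)).image (fun j => Function.update τ j w)),
          (r + 1) ^ (dt σ).natAbs := by
        exact sum_union_le' _ _ _
    _ ≤ ∑ σ ∈ T.filter (fun τ => ¬ Has τ (supp τ0 w)), (r + 1) ^ (dt σ).natAbs +
        ∑ τ ∈ T.filter (fun τ => Has τ (supp τ0 w)),
          ∑ σ ∈ (Finset.univ.filter (fun j => τ j ∈ supp τ0 w)).image (fun j => Function.update τ j w),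
            (r + 1) ^ (dt σ).natAbs := by
        refine Nat.add_le_add_left ?_ _
        exact sum_biUnion_le' _ _ _
    _ < ∑ σ ∈ T.filter (fun τ => ¬ Has τ (supp τ0 w)), (r + 1) ^ (dt σ).natAbs +
        ∑ τ ∈ T.filter (fun τ => Has τ (supp τ0 w)), (r + 1) ^ (dt τ).natAbs := by
        refine Nat.add_lt_add_left ?_ _
        refine Finset.sum_lt_sum_of_nonempty ⟨τ0, Finset.mem_filter.mpr ⟨h0, hF0⟩⟩ ?_
        intro τ hτ
        rw [Finset.mem_filter] at hτ
        exact hstep τ hτ.1 hτ.2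
    _ = ∑ τ ∈ T, (r + 1) ^ (dt τ).natAbs := by
        rw [add_comm]
        exact Finset.sum_filter_add_sum_filter_not _ _ _

/-- if some x in N has a coordinate which is not an integer, subtract the floors -/
theorem exists_half {N : AddSubgroup (Fin r → ℤ)} (τ : Chart r) (hd : dt τ ≠ 0) (hτ : ∀ j, τ j ∈ N)
    (x : Fin r → ℤ) (hx : x ∈ N) (j : Fin r) (hj : ¬ ∃ z : ℤ, co τ x j = z) : ∃ w ∈ N, Half τ w := by
  have hco : ∀ l, co τ (x + ∑ i, (-⌊co τ x i⌋) • τ i) l = co τ x l - ⌊co τ x l⌋ := by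
    intro l
    rw [co_add τ hd, co_sum_smul τ hd (fun i => -⌊co τ x i⌋) l]
    push_cast
    ring
  refine ⟨x + ∑ i, (-⌊co τ x i⌋) • τ i, ?_, ?_, j, ?_⟩
  · exact N.add_mem hx (N.sum_mem (fun i _ => N.zsmul_mem (hτ i) _))
  · intro l
    rw [hco l]
    exact ⟨sub_nonneg.mpr (Int.floor_le _), by linarith [Int.lt_floor_add_one (co τ x l)]⟩
  · rw [hco j]
    intro h
    exact hj ⟨⌊co τ x j⌋, by linarith⟩

end TorFan
end

section

/-! Row F3: star subdivisions are coherent. -/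

namespace TorFan

variable {r : ℕ}

private theorem Star_mem {T : Finset (Chart r)} {F : Finset (Fin r → ℤ)} {w : Fin r → ℤ} {τ : Chart r} :
    τ ∈ star T F w ↔ (τ ∈ T ∧ ¬ Has τ F) ∨ ∃ σ ∈ T, Has σ F ∧ ∃ j, σ j ∈ F ∧ Function.update σ j w = τ := by
  classical
  unfold star
  simp only [Finset.mem_union, Finset.mem_filter, Finset.mem_biUnion, Finset.mem_image, Finset.mem_univ,
    true_and]
  constructor
  · rintro (h | ⟨σ, ⟨h1, h2⟩, j, h3, h4⟩)
    · exact Or.inl h
    · exact Or.inr ⟨σ, h1, h2, j, h3, h4⟩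
  · rintro (h | ⟨σ, h1, h2, j, h3, h4⟩)
    · exact Or.inl h
    · exact Or.inr ⟨σ, ⟨h1, h2⟩, j, h3, h4⟩

/-- the vertices of the star subdivision -/
private theorem Star_vertex {T : Finset (Chart r)} {F : Finset (Fin r → ℤ)} {w : Fin r → ℤ} {τ : Chart r}
    (hτ : τ ∈ star T F w) (i : Fin r) : τ i = w ∨ ∃ σ ∈ T, ∃ l, τ i = σ l := by
  rcases Star_mem.1 hτ with ⟨h, -⟩ | ⟨σ, h1, -, j, -, rfl⟩
  · exact Or.inr ⟨τ, h, i, rfl⟩
  · by_cases hi : i = j
    · subst hi
      exact Or.inl (Function.update_self _ _ _)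
    · exact Or.inr ⟨σ, h1, i, Function.update_of_ne hi _ _⟩

private theorem Star_large {a : ℚ} (ha : 0 < a) (b : ℚ) : ∀ᶠ k : ℕ in Filter.atTop, b < (k : ℚ) * a := by
  obtain ⟨n, hn⟩ := exists_nat_gt (b / a)
  filter_upwards [Filter.eventually_ge_atTop n] with k hk
  rw [div_lt_iff₀ ha] at hn
  have : (n : ℚ) ≤ k := by exact_mod_cast hk
  nlinarith

/-- the linear function of an updated chart -/
private theorem Star_lin {σ : Chart r} (hd : dt σ ≠ 0) {w : Fin r → ℤ} {j : Fin r} (hj : 0 < co σ w j)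
    {φ φ' : (Fin r → ℤ) → ℤ} {K : ℚ} (hw : (φ' w : ℚ) = K * lin σ φ w + 1)
    (hK : ∀ l, (φ' (σ l) : ℚ) = K * φ (σ l)) (x : Fin r → ℤ) :
    lin (Function.update σ j w) φ' x = K * lin σ φ x + co σ x j / co σ w j := by
  classical
  have h1 : ∀ l ∈ (Finset.univ : Finset (Fin r)).erase j,
      co (Function.update σ j w) x l * (φ' (Function.update σ j w l) : ℚ)
        = K * (co σ x l * φ (σ l)) - co σ x j / co σ w j * (K * (co σ w l * φ (σ l))) := by
    intro l hl
    have hne := Finset.ne_of_mem_erase hl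
    rw [co_update σ hd w j hj.ne' x l, if_neg hne, Function.update_of_ne hne, hK]
    ring
  have h2 : lin (Function.update σ j w) φ' x
      = co (Function.update σ j w) x j * (φ' (Function.update σ j w j) : ℚ)
        + ∑ l ∈ (Finset.univ : Finset (Fin r)).erase j,
          co (Function.update σ j w) x l * (φ' (Function.update σ j w l) : ℚ) := by
    unfold lin
    exact (Finset.add_sum_erase _ _ (Finset.mem_univ j)).symm
  have h3 : lin σ φ x = co σ x j * (φ (σ j) : ℚ)
      + ∑ l ∈ (Finset.univ : Finset (Fin r)).erase j, co σ x l * (φ (σ l) : ℚ) := by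
    unfold lin
    exact (Finset.add_sum_erase _ _ (Finset.mem_univ j)).symm
  have h4 : lin σ φ w = co σ w j * (φ (σ j) : ℚ)
      + ∑ l ∈ (Finset.univ : Finset (Fin r)).erase j, co σ w l * (φ (σ l) : ℚ) := by
    unfold lin
    exact (Finset.add_sum_erase _ _ (Finset.mem_univ j)).symm
  rw [h2, Finset.sum_congr rfl h1, Finset.sum_sub_distrib, ← Finset.mul_sum, ← Finset.mul_sum,
    ← Finset.mul_sum, co_update σ hd w j hj.ne' x j, if_pos rfl, Function.update_self, hw, h3, h4]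
  field_simp
  ring

/-- new values: φ' = K φ at the old vertices, φ' w = K (lin τ0 φ w) + 1, K a large multiple of the denominator.
For the chart update τ j w (τ ⊇ F, τ j ∈ F) the linear function is K lin τ φ + (1/co τ w j) (coordinate j), it is ≥ K φ + 1/co > K φ at
τ j, = at the other τ l and at w, and > at the other vertices as K is large; for τ not ⊇ F `lin_gt` at w -/
theorem star_coh {N : AddSubgroup (Fin r → ℤ)} {T : Finset (Chart r)} {φ : (Fin r → ℤ) → ℤ} (hT : Coh N T φ)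
    (τ0 : Chart r) (h0 : τ0 ∈ T) (w : Fin r → ℤ) (hwN : w ∈ N) (hw : Half τ0 w) :
    ∃ φ' : (Fin r → ℤ) → ℤ, Coh N (star T (supp τ0 w) w) φ' := by
  classical
  obtain ⟨F, hFdef⟩ : ∃ F, F = supp τ0 w := ⟨_, rfl⟩
  rw [← hFdef]
  have hd0 := hT.det τ0 h0
  have hface : ∀ σ ∈ T, Has σ F → ∀ l, 0 < co σ w l ↔ σ l ∈ F := by
    intro σ hσ hH
    rw [hFdef] at hH ⊢
    exact (half_face hT τ0 h0 w hw σ hσ hH).2
  have hnew : ∀ σ ∈ T, ∀ l, σ l ≠ w := fun σ hσ l => new_vertex hT τ0 h0 w hw σ hσ l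
  -- the denominator
  obtain ⟨D, hD, m, hm⟩ : ∃ D : ℤ, 0 < D ∧ ∃ m : ℤ, (D : ℚ) * lin τ0 φ w = m := by
    have h1 : (dt τ0 : ℚ) * lin τ0 φ w
        = ((∑ l, dt (Function.update τ0 l w) * φ (τ0 l) : ℤ) : ℚ) := by
      unfold lin co
      push_cast
      rw [Finset.mul_sum]
      refine Finset.sum_congr rfl fun l _ => ?_
      have : (dt τ0 : ℚ) ≠ 0 := by exact_mod_cast hd0
      field_simp
    rcases lt_or_gt_of_ne hd0 with h | h
    · refine ⟨-dt τ0, by omega, -(∑ l, dt (Function.update τ0 l w) * φ (τ0 l)), ?_⟩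
      push_cast at h1 ⊢
      rw [neg_mul, h1]
    · exact ⟨dt τ0, h, _, h1⟩
  have hDq : (0 : ℚ) < D := by exact_mod_cast hD
  -- the large number
  have hE1 : ∀ᶠ k : ℕ in Filter.atTop, ∀ τ ∈ T, ¬ Has τ F →
      1 < (k : ℚ) * (D * (lin τ φ w - lin τ0 φ w)) := by
    rw [Filter.eventually_all_finset]
    intro τ hτ
    by_cases hH : Has τ F
    · exact Filter.Eventually.of_forall fun k h => absurd hH h
    · have h1 : lin τ0 φ w < lin τ φ w := by
        rw [hFdef] at hH
        exact lin_gt hT τ0 h0 w hw τ hτ hH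
      filter_upwards [Star_large (mul_pos hDq (sub_pos.2 h1)) 1] with k hk _
      exact hk
  have hE2 : ∀ᶠ k : ℕ in Filter.atTop, ∀ σ ∈ T, ∀ τ' ∈ T, ∀ l j : Fin r, (∀ m, τ' l ≠ σ m) →
      -(co σ (τ' l) j / co σ w j) < (k : ℚ) * (D * (lin σ φ (τ' l) - φ (τ' l))) := by
    rw [Filter.eventually_all_finset]
    intro σ hσ
    rw [Filter.eventually_all_finset]
    intro τ' hτ'
    rw [Filter.eventually_all]
    intro l
    rw [Filter.eventually_all]
    intro j
    by_cases hno : ∀ m, τ' l ≠ σ m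
    · have h1 : (φ (τ' l) : ℚ) < lin σ φ (τ' l) := by
        refine lt_of_le_of_ne (hT.conv σ hσ τ' hτ' l).1 fun h => ?_
        obtain ⟨m, hm⟩ := (hT.conv σ hσ τ' hτ' l).2 h
        exact hno m hm
      filter_upwards [Star_large (mul_pos hDq (sub_pos.2 h1)) (-(co σ (τ' l) j / co σ w j))] with k hk _
      exact hk
    · exact Filter.Eventually.of_forall fun k h => absurd h hno
  obtain ⟨k, hk1, hk2⟩ := (hE1.and hE2).exists
  -- the new function
  obtain ⟨K, hK⟩ : ∃ K : ℤ, K = (k : ℤ) * D := ⟨_, rfl⟩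
  have hKq : (K : ℚ) = (k : ℚ) * D := by rw [hK]; push_cast; ring
  obtain ⟨φ', hφ'⟩ : ∃ φ' : (Fin r → ℤ) → ℤ, ∀ x, φ' x = if x = w then (k : ℤ) * m + 1 else K * φ x :=
    ⟨_, fun x => rfl⟩
  have hφw : (φ' w : ℚ) = K * lin τ0 φ w + 1 := by
    rw [hφ', if_pos rfl, hKq]
    push_cast
    rw [← hm]
    ring
  have hφo : ∀ x, x ≠ w → (φ' x : ℚ) = K * φ x := by
    intro x hx
    rw [hφ', if_neg hx]
    push_cast
    ring
  -- the charts
  have hA : ∀ τ ∈ T, ∀ x, lin τ φ' x = K * lin τ φ x := by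
    intro τ hτ x
    unfold lin
    rw [Finset.mul_sum]
    refine Finset.sum_congr rfl fun l _ => ?_
    rw [hφo _ (hnew τ hτ l)]
    ring
  have hB : ∀ σ ∈ T, Has σ F → ∀ j, σ j ∈ F → ∀ x,
      lin (Function.update σ j w) φ' x = K * lin σ φ x + co σ x j / co σ w j := by
    intro σ hσ hH j hj x
    have h1 : (φ' w : ℚ) = K * lin σ φ w + 1 := by
      rw [hφw]
      have h2 : lin σ φ w = lin τ0 φ w := by
        rw [hFdef] at hH
        exact lin_face hT τ0 h0 w hw σ hσ hH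
      rw [h2]
    exact Star_lin (hT.det σ hσ) ((hface σ hσ hH j).2 hj) h1 (fun l => hφo _ (hnew σ hσ l)) x
  refine ⟨φ', ?_, ?_, ?_, ?_, ?_⟩
  · -- nonempty
    obtain ⟨l1, hl1⟩ := hw.2
    have hpos : 0 < co τ0 w l1 := lt_of_le_of_ne (hw.1 l1).1 (Ne.symm hl1)
    have hH : Has τ0 F := by
      intro ρ hρ
      rw [hFdef] at hρ
      unfold supp at hρ
      obtain ⟨l, -, hl⟩ := Finset.mem_image.1 hρ
      exact ⟨l, hl⟩
    exact ⟨_, Star_mem.2 (Or.inr ⟨τ0, h0, hH, l1, (hface τ0 h0 hH l1).1 hpos, rfl⟩)⟩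
  · intro τ hτ i
    rcases Star_vertex hτ i with h | ⟨σ, hσ, l, h⟩
    · rw [h]
      exact hwN
    · rw [h]
      exact hT.mem σ hσ l
  · intro τ hτ i a
    rcases Star_vertex hτ i with h | ⟨σ, hσ, l, h⟩
    · rw [h]
      exact w_nonneg hT τ0 h0 w hw a
    · rw [h]
      exact hT.nonneg σ hσ l a
  · intro τ hτ
    rcases Star_mem.1 hτ with ⟨h, -⟩ | ⟨σ, hσ, hH, j, hj, rfl⟩
    · exact hT.det τ h
    · intro h
      have h1 := dt_update σ (hT.det σ hσ) w j
      rw [h] at h1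
      have h2 : co σ w j ≠ 0 := ((hface σ hσ hH j).2 hj).ne'
      have h3 : (dt σ : ℚ) ≠ 0 := by exact_mod_cast hT.det σ hσ
      exact mul_ne_zero h2 h3 (by rw [← h1]; norm_num)
  · intro τ hτ τ' hτ' i
    rcases Star_mem.1 hτ with ⟨hτT, hH⟩ | ⟨σ, hσ, hH, j, hj, rfl⟩
    · rcases Star_vertex hτ' i with h | ⟨σ', hσ', l, h⟩
      · -- the new vertex, an old chart
        rw [h, hA τ hτT, hφw]
        have h1 := hk1 τ hτT hH
        have h2 : (K : ℚ) * lin τ0 φ w + 1 < K * lin τ φ w := by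
          rw [hKq]
          linarith
        exact ⟨h2.le, fun h3 => absurd h3 h2.ne⟩
      · -- an old vertex, an old chart
        rw [h, hA τ hτT, hφo _ (hnew σ' hσ' l)]
        have hc := hT.conv τ hτT σ' hσ' l
        rcases Nat.eq_zero_or_pos k with hk0 | hk0
        · exfalso
          have h1 := hk1 τ hτT hH
          rw [hk0] at h1
          norm_num at h1
        · have hK0 : (0 : ℚ) < K := by
            rw [hKq]
            exact mul_pos (by exact_mod_cast hk0) hDq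
          refine ⟨mul_le_mul_of_nonneg_left hc.1 hK0.le, fun h1 => hc.2 ?_⟩
          exact mul_left_cancel₀ hK0.ne' h1
    · have hγ : 0 < co σ w j := (hface σ hσ hH j).2 hj
      have hd := hT.det σ hσ
      rcases Star_vertex hτ' i with h | ⟨σ', hσ', l, h⟩
      · -- the new vertex, a new chart
        rw [h, hB σ hσ hH j hj, hφw, div_self hγ.ne']
        have h2 : lin σ φ w = lin τ0 φ w := by
          rw [hFdef] at hH
          exact lin_face hT τ0 h0 w hw σ hσ hH
        rw [h2]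
        exact ⟨le_rfl, fun _ => ⟨j, by rw [Function.update_self]⟩⟩
      · rw [h, hB σ hσ hH j hj, hφo _ (hnew σ' hσ' l)]
        by_cases hex : ∃ m, σ' l = σ m
        · obtain ⟨m', hm'⟩ := hex
          rw [hm', lin_self σ hd, co_self σ hd]
          by_cases hmj : m' = j
          · subst hmj
            rw [if_pos rfl]
            have h3 : 0 < 1 / co σ w m' := by positivity
            exact ⟨by linarith, fun h4 => absurd h4 (by linarith : (K : ℚ) * φ (σ m') < _).ne⟩
          · rw [if_neg (fun h => hmj h.symm), zero_div, add_zero]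
            exact ⟨le_rfl, fun _ => ⟨m', (Function.update_of_ne hmj _ _).symm⟩⟩
        · push Not at hex
          have h1 := hk2 σ hσ σ' hσ' l j hex
          have h2 : (K : ℚ) * φ (σ' l) < K * lin σ φ (σ' l) + co σ (σ' l) j / co σ w j := by
            rw [hKq]
            linarith
          exact ⟨h2.le, fun h3 => absurd h3 h2.ne⟩

end TorFan
end
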