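import Pool.Agent.Lib.MP_6a3dac_ag.Mg.G013
import Pool.Agent.Lib.MP_6a3dac_ag.Fam.LDef
import Pool.Agent.Lib.MP_6a3dac_ag.Fam.GLDefs
import Pool.Agent.Lib.MP_6a3dac_ag.Bert.Defs
import Pool.Agent.Lib.MP_6a3dac_ag.Mg.G012
import Pool.Agent.Lib.MP_6a3dac_ag.ModelExist

section

/-!
# Almost all primes are good
-/

set_option autoImplicit false

namespace Pool.Agent.Lib.MP_6a3dac_ag.Fam

open MvPolynomial NumberField IsDedekindDomain
open Pool.Agent.Lib.MP_6a3dac_ag.DNF Pool.Agent.Lib.MP_6a3dac_ag.Bert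

/-- At a smooth point there are `c` independent equations. -/
theorem SmoothPt.tanPt {R σ : Type} [CommRing R] [Fintype σ] [DecidableEq σ] {m c : ℕ}
    (hcard : Fintype.card σ = m + c) {𝔞 𝔮 : Ideal (MvPolynomial σ R)} (h𝔮 : 𝔮.IsPrime)
    (hle : 𝔞 ≤ 𝔮) (h : SmoothPt m 𝔞 𝔮) : TanPt c 𝔞 𝔮 := by
  classical
  obtain ⟨U, F, hP, hT, hh, e, he, hev⟩ := h
  have hΔ : U.Δ ∉ 𝔮 := fun h0 => hh (Ideal.mul_mem_left _ _ h0)
  have hc : Fintype.card (Option {l : σ // l ∉ U.T}) = Fintype.card (Fin c) := by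
    have h3 := Finset.card_le_univ U.T
    rw [Fintype.card_option, Fintype.card_subtype_compl, Fintype.card_coe, Fintype.card_fin]
    omega
  let ε : Option {l : σ // l ∉ U.T} ≃ Fin c := Fintype.equivOfCardEq hc
  let f : Option {l : σ // l ∉ U.T} → MvPolynomial σ R := fun o => o.elim F U.g
  refine ⟨fun k => f (ε.symm k), fun k => ?_, fun b hb => ?_⟩
  · have h0 : ∀ o, f o ∈ 𝔞 := by
      rintro (_ | κ)
      · exact hP.memF
      · exact hP.mem κ
    exact h0 _
  · have h1 : ∑ k, b k * f (ε.symm k) = ∑ κ, b (ε (some κ)) * U.g κ + b (ε none) * F := by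
      rw [← ε.sum_comp fun k => b k * f (ε.symm k), Fintype.sum_option, add_comm]
      simp only [Equiv.symm_apply_apply, f, Option.elim]
    have hb' : ∑ k, b k * f (ε.symm k) ∈ 𝔮 ^ 2 := hb
    rw [h1] at hb'
    obtain ⟨h2, h3⟩ := fc1_indep hP hΔ h𝔮 hle hev _ _ hb'
    intro k
    rw [← ε.apply_symm_apply k]
    rcases ε.symm k with _ | κ
    · exact h3
    · exact h2 κ

section L1

variable {E : Type} [Field E] [NumberField E] {m c : ℕ} {J : HomIdeal (𝓞 E) (m + c + 1)}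

omit [NumberField E] in
private theorem fl1_one (h : GenFibreSmooth J) (i : Fin (m + c + 1)) :
    ∃ z : 𝓞 E, z ≠ 0 ∧ ∀ 𝔮 : Ideal (MvPolynomial {l : Fin (m + c + 1) // l ≠ i} (𝓞 E)),
      𝔮.IsPrime → dId J i ≤ 𝔮 → C z ∉ 𝔮 → SmoothPt m (dId J i) 𝔮 := by
  let K : Ideal (MvPolynomial {l : Fin (m + c + 1) // l ≠ i} (𝓞 E)) :=
    dId J i ⊔ Ideal.span {x | ∃ (U : Std (𝓞 E) {l : Fin (m + c + 1) // l ≠ i})
      (F : MvPolynomial {l : Fin (m + c + 1) // l ≠ i} (𝓞 E)), IsPres (dId J i) U F ∧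
        U.T.card = m + 1 ∧ ∃ e ∈ U.T, x = U.h * U.vf e F}
  have hK : ∃ z : 𝓞 E, z ≠ 0 ∧ C z ∈ K := by
    by_contra hcon
    push Not at hcon
    have hdis : Disjoint (K : Set (MvPolynomial {l : Fin (m + c + 1) // l ≠ i} (𝓞 E)))
        (((nonZeroDivisors (𝓞 E)).map
          (C : 𝓞 E →+* MvPolynomial {l : Fin (m + c + 1) // l ≠ i} (𝓞 E)) :
          Submonoid (MvPolynomial {l : Fin (m + c + 1) // l ≠ i} (𝓞 E))) :
          Set (MvPolynomial {l : Fin (m + c + 1) // l ≠ i} (𝓞 E))) := by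
      rw [Set.disjoint_left]
      rintro x hx ⟨z, hz, rfl⟩
      exact hcon z (nonZeroDivisors.ne_zero hz) hx
    obtain ⟨𝔮, h𝔮, hle, hd⟩ := Ideal.exists_le_prime_disjoint _ _ hdis
    rw [Set.disjoint_left] at hd
    have hc : ∀ z : 𝓞 E, C z ∈ 𝔮 → z = 0 := by
      intro z hz
      by_contra h0
      exact hd hz (Submonoid.mem_map_of_mem _ (mem_nonZeroDivisors_of_ne_zero h0))
    obtain ⟨U, F, hP, hT, hh, e, he, hev⟩ := h i 𝔮 h𝔮 (le_sup_left.trans hle) hc
    have h1 : U.h * U.vf e F ∈ 𝔮 := hle ((le_sup_right : _ ≤ K)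
      (Ideal.subset_span ⟨U, F, hP, hT, e, he, rfl⟩))
    rcases h𝔮.mem_or_mem h1 with h1 | h1
    · exact hh h1
    · exact hev h1
  obtain ⟨z, hz, hzK⟩ := hK
  refine ⟨z, hz, fun 𝔮 h𝔮 hle hz𝔮 => ?_⟩
  have h1 : ¬ K ≤ 𝔮 := fun h0 => hz𝔮 (h0 hzK)
  have h2 : ¬ ({x | ∃ (U : Std (𝓞 E) {l : Fin (m + c + 1) // l ≠ i})
      (F : MvPolynomial {l : Fin (m + c + 1) // l ≠ i} (𝓞 E)), IsPres (dId J i) U F ∧
        U.T.card = m + 1 ∧ ∃ e ∈ U.T, x = U.h * U.vf e F} ⊆
          (𝔮 : Set (MvPolynomial {l : Fin (m + c + 1) // l ≠ i} (𝓞 E)))) :=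
    fun h0 => h1 (sup_le hle (Ideal.span_le.2 h0))
  rw [Set.not_subset] at h2
  obtain ⟨_, ⟨U, F, hP, hT, e, he, rfl⟩, hn⟩ := h2
  exact ⟨U, F, hP, hT, fun h0 => hn (Ideal.mul_mem_right _ _ h0), e, he,
    fun h0 => hn (Ideal.mul_mem_left _ _ h0)⟩

/-- TASK L1: at almost all primes there are `c` independent equations. -/
theorem exists_tanOver (h : GenFibreSmooth J) :
    ∃ z : 𝓞 E, z ≠ 0 ∧ ∀ P : HeightOneSpectrum (𝓞 E), z ∉ P.asIdeal → TanOver P J := by
  classical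
  choose z hz hzs using fun i => fl1_one h i
  refine ⟨∏ i, z i, Finset.prod_ne_zero_iff.2 fun i _ => hz i, fun P hP i 𝔮 h𝔮 hle hP𝔮 => ?_⟩
  have h1 : C (z i) ∉ 𝔮 := by
    intro h0
    have h2 : P.asIdeal ≤ 𝔮.comap C := Ideal.map_le_iff_le_comap.1 hP𝔮
    have h3 : (𝔮.comap (C : 𝓞 E →+* MvPolynomial {l : Fin (m + c + 1) // l ≠ i} (𝓞 E))).IsPrime :=
      h𝔮.comap _
    have h4 : P.asIdeal = 𝔮.comap C := P.isMaximal.eq_of_le h3.ne_top h2
    apply hP
    have h5 : z i ∈ P.asIdeal := by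
      rw [h4, Ideal.mem_comap]
      exact h0
    exact Ideal.mem_of_dvd _ (Finset.dvd_prod_of_mem z (Finset.mem_univ i)) h5
  refine (hzs i 𝔮 h𝔮 hle h1).tanPt ?_ h𝔮 hle
  rw [Fintype.card_subtype_compl, Fintype.card_fin, Fintype.card_subtype_eq]
  rfl

end L1

end Pool.Agent.Lib.MP_6a3dac_ag.Fam
end

section

/-!
# Models which are regular over a set of primes: disjoint unions, models near a prime
-/

set_option autoImplicit false

namespace Pool.Agent.Lib.MP_6a3dac_ag.Fam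

open CategoryTheory Limits AlgebraicGeometry NumberField IsDedekindDomain
open Pool.Agent.Lib.MP_6a3dac_ag.DNF Pool.Agent.Lib.MP_6a3dac_ag.Bert

theorem regular_coprod_on {X Y S : Scheme.{0}} {f : X ⟶ S} {g : Y ⟶ S} {q : S → Prop}
    (hX : ∀ x : X, q (f x) → IsRegularLocalRing (X.presheaf.stalk x))
    (hY : ∀ y : Y, q (g y) → IsRegularLocalRing (Y.presheaf.stalk y)) (z : (X ⨿ Y : Scheme.{0}))
    (hz : q (coprod.desc f g z)) : IsRegularLocalRing ((X ⨿ Y : Scheme.{0}).presheaf.stalk z) := by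
  obtain ⟨(x | x), rfl⟩ := (coprodMk X Y).surjective z
  · rw [coprodMk_inl] at hz ⊢
    rw [← Scheme.Hom.comp_apply, coprod.inl_desc] at hz
    exact c1_stalk _ x (hX x hz)
  · rw [coprodMk_inr] at hz ⊢
    rw [← Scheme.Hom.comp_apply, coprod.inr_desc] at hz
    exact c1_stalk _ x (hY x hz)

variable {E : Type} [Field E] {S : Set (HeightOneSpectrum (𝓞 E))}

theorem ModelOn.of_iso {X X' : Scheme.{0}}
    {π : X ⟶ Spec (CommRingCat.of E)} {π' : X' ⟶ Spec (CommRingCat.of E)}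
    (h : ModelOn E S π') (e : X' ≅ X) (he : e.hom ≫ π = π') : ModelOn E S π := by
  obtain ⟨Y, g, h1, h2, h3, e', he'⟩ := h
  exact ⟨Y, g, h1, h2, h3, e' ≪≫ e, by rw [Iso.trans_hom, Category.assoc, he, he']⟩

theorem ModelOn.of_hasRegularModel {X : Scheme.{0}} {π : X ⟶ Spec (CommRingCat.of E)}
    (h : HasRegularModel E π) : ModelOn E S π := by
  obtain ⟨Y, g, h1, h2, h3, h4⟩ := h
  exact ⟨Y, g, h1, h2, fun y _ => h3 y, h4⟩

/-- Two complementary open subschemes. -/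
theorem ModelOn.of_isCompl {X X₁ X₂ : Scheme.{0}}
    {π : X ⟶ Spec (CommRingCat.of E)} (f₁ : X₁ ⟶ X) (f₂ : X₂ ⟶ X) [IsOpenImmersion f₁]
    [IsOpenImmersion f₂] (hc : IsCompl f₁.opensRange f₂.opensRange)
    (h₁ : ModelOn E S (f₁ ≫ π)) (h₂ : ModelOn E S (f₂ ≫ π)) : ModelOn E S π := by
  obtain ⟨Y₁, g₁, p₁, q₁, r₁, e₁, he₁⟩ := h₁
  obtain ⟨Y₂, g₂, p₂, q₂, r₂, e₂, he₂⟩ := h₂
  exact ⟨Y₁ ⨿ Y₂, coprod.desc g₁ g₂, isProper_coprodDesc _ _, flat_coprodDesc _ _,
    regular_coprod_on (S := Spec (CommRingCat.of (𝓞 E)))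
      (q := fun s => ∀ P : HeightOneSpectrum (𝓞 E), s.asIdeal = P.asIdeal → P ∈ S) r₁ r₂, c3_main f₁ f₂ hc g₁ g₂ _ e₁ e₂ he₁ he₂⟩

/-- **Finite disjoint unions.** -/
theorem ModelOn.of_finite {X : Scheme.{0}}
    {π : X ⟶ Spec (CommRingCat.of E)} {τ : Type} [Finite τ] {Z : τ → Scheme.{0}}
    (f : ∀ j, Z j ⟶ X) (hf : ∀ j, IsOpenImmersion (f j))
    (hcov : ∀ y : X, ∃ j, y ∈ Set.range (f j))
    (hdisj : ∀ j j', j ≠ j' → Disjoint (Set.range (f j)) (Set.range (f j')))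
    (h : ∀ j, ModelOn E S (f j ≫ π)) : ModelOn E S π := by
  classical
  have := Fintype.ofFinite τ
  have key : ∀ s : Finset τ, ∃ U : X.Opens, (∀ x : X, x ∈ U ↔ ∃ j ∈ s, x ∈ Set.range (f j)) ∧
      ModelOn E S (U.ι ≫ π) := by
    intro s
    induction s using Finset.induction_on with
    | empty =>
      refine ⟨⊥, fun x => ?_, ?_⟩
      · simp
      · have : IsEmpty (⊥ : X.Opens).toScheme := ⟨fun x => x.2⟩
        exact ModelOn.of_hasRegularModel (HasRegularModel.of_isEmpty _)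
    | insert j s hj ih =>
      obtain ⟨U, hU, hm⟩ := ih
      obtain ⟨g₁, hg₁, k₁, r₁⟩ := c4_lift U.ι (U ⊔ (f j).opensRange) (by
        rw [Scheme.Opens.range_ι]
        exact fun x hx => Or.inl hx)
      obtain ⟨g₂, hg₂, k₂, r₂⟩ := c4_lift (f j) (U ⊔ (f j).opensRange) (fun x hx => Or.inr hx)
      refine ⟨U ⊔ (f j).opensRange, fun x => ?_, ?_⟩
      · constructor
        · rintro (hx | hx)
          · obtain ⟨i, hi, hx⟩ := (hU x).1 hx
            exact ⟨i, Finset.mem_insert_of_mem hi, hx⟩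
          · exact ⟨j, Finset.mem_insert_self _ _, hx⟩
        · rintro ⟨i, hi, hx⟩
          rcases Finset.mem_insert.1 hi with rfl | hi
          · exact Or.inr hx
          · exact Or.inl ((hU x).2 ⟨i, hi, hx⟩)
      · refine ModelOn.of_isCompl g₁ g₂ ?_ ?_ ?_
        · rw [r₁, r₂, Scheme.Opens.opensRange_ι, isCompl_iff, disjoint_iff, codisjoint_iff,
            ← Scheme.Hom.preimage_inf, ← Scheme.Hom.preimage_sup]
          have h1 : U ⊓ (f j).opensRange = ⊥ := by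
            rw [eq_bot_iff]
            rintro x ⟨hx, hx'⟩
            obtain ⟨i, hi, hx⟩ := (hU x).1 hx
            exact (hdisj i j (by rintro rfl; exact hj hi)).le_bot ⟨hx, hx'⟩
          rw [h1, Scheme.Opens.ι_preimage_self]
          exact ⟨rfl, rfl⟩
        · rwa [← Category.assoc, k₁]
        · rw [← Category.assoc, k₂]
          exact h j
  obtain ⟨U, hU, hm⟩ := key Finset.univ
  have hT : U = ⊤ := by
    rw [eq_top_iff]
    intro x _
    obtain ⟨j, hj⟩ := hcov x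
    exact (hU x).2 ⟨j, Finset.mem_univ _, hj⟩
  subst hT
  exact ModelOn.of_iso hm X.topIso rfl

/-- A model which is regular outside of finitely many primes is a model near each other prime. -/
theorem ModelOn.hasModelAt [NumberField E] {X : Scheme.{0}} {π : X ⟶ Spec (CommRingCat.of E)}
    (h : ModelOn E S π) (hS : Sᶜ.Finite) {P : HeightOneSpectrum (𝓞 E)} (hP : P ∈ S) :
    HasModelAt E P π := by
  obtain ⟨Y, g, h1, h2, h3, h4⟩ := h
  have hcl : IsClosed (⋃ Q ∈ Sᶜ, ({⟨Q.asIdeal, Q.isPrime⟩} : Set (PrimeSpectrum (𝓞 E)))) :=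
    hS.isClosed_biUnion fun Q _ =>
      (PrimeSpectrum.isClosed_singleton_iff_isMaximal _).2 Q.isMaximal
  let U : (Spec (CommRingCat.of (𝓞 E))).Opens := ⟨_, hcl.isOpen_compl⟩
  have hU : ∀ x : Spec (CommRingCat.of (𝓞 E)), x ∈ U →
      ∀ Q : HeightOneSpectrum (𝓞 E), x.asIdeal = Q.asIdeal → Q ∈ S := by
    intro x hx Q hQ
    by_contra hQS
    refine hx (Set.mem_biUnion (x := Q) hQS ?_)
    exact PrimeSpectrum.ext hQ
  refine ⟨U, Y, g, ?_, inferInstance, inferInstance, fun y hy => h3 y (hU _ hy), h4⟩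
  intro hx
  obtain ⟨Q, hQ, hx⟩ := Set.mem_iUnion₂.1 hx
  apply hQ
  have : P = Q := by
    ext1
    exact congrArg PrimeSpectrum.asIdeal hx
  rwa [← this]

end Pool.Agent.Lib.MP_6a3dac_ag.Fam
end

section

/-!
# The minors of the Jacobian matrix of homogeneous equations
-/

set_option autoImplicit false

namespace Pool.Agent.Lib.MP_6a3dac_ag.MA

open MvPolynomial
open Pool.Agent.Lib.MP_6a3dac_ag.DNF

variable {R : Type} [CommRing R] {n k : ℕ}

/-- The minor of the Jacobian matrix of the `f κ` with the given rows and columns. -/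
noncomputable def jmin (f : Fin k → MvPolynomial (Fin (n + 1)) R) {c : ℕ} (row : Fin c → Fin k)
    (col : Fin c → Fin (n + 1)) : MvPolynomial (Fin (n + 1)) R :=
  (Matrix.of fun a b => pderiv (col b) (f (row a))).det

theorem isHomogeneous_det {σ : Type} {c : ℕ} (M : Matrix (Fin c) (Fin c) (MvPolynomial σ R))
    (e : Fin c → ℕ) (h : ∀ a b, (M a b).IsHomogeneous (e a)) :
    M.det.IsHomogeneous (∑ a, e a) := by
  classical
  rw [Matrix.det_apply]
  refine IsHomogeneous.sum _ _ _ fun s _ => ?_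
  have h1 : (∏ b, M (s b) b).IsHomogeneous (∑ b, e (s b)) :=
    IsHomogeneous.prod _ _ _ fun b _ => h (s b) b
  rw [Equiv.sum_comp s e] at h1
  rw [Units.smul_def]
  exact (homogeneousSubmodule σ R (∑ a, e a)).toAddSubgroup.zsmul_mem h1 _

theorem isHomogeneous_jmin {f : Fin k → MvPolynomial (Fin (n + 1)) R} {e : Fin k → ℕ}
    (hf : ∀ κ, (f κ).IsHomogeneous (e κ)) {c : ℕ} (row : Fin c → Fin k)
    (col : Fin c → Fin (n + 1)) : (jmin f row col).IsHomogeneous (∑ a, (e (row a) - 1)) :=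
  isHomogeneous_det _ (fun a => e (row a) - 1) fun a _ => (hf (row a)).pderiv

/-- Finitely many forms of the same degree which generate, in every affine chart, the ideal of the
minors of the Jacobian matrix. -/
theorem exists_jacForms {f : Fin k → MvPolynomial (Fin (n + 1)) R} {e : Fin k → ℕ}
    (hf : ∀ κ, (f κ).IsHomogeneous (e κ)) (c : ℕ) :
    ∃ (δ : ℕ) (G : Finset (MvPolynomial (Fin (n + 1)) R)), 1 ≤ δ ∧
      (∀ g ∈ G, g.IsHomogeneous δ) ∧
      (∀ g ∈ G, ∃ (x : MvPolynomial (Fin (n + 1)) R) (row : Fin c → Fin k)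
        (col : Fin c → Fin (n + 1)), g = x * jmin f row col) ∧
      ∀ (row : Fin c → Fin k) (col : Fin c → Fin (n + 1)) (i : Fin (n + 1)),
        ∃ g ∈ G, dehom i g = dehom i (jmin f row col) := by
  classical
  let w : (Fin c → Fin k) → ℕ := fun row => ∑ a, (e (row a) - 1)
  let δ : ℕ := 1 + ∑ row, w row
  have hδ : ∀ row, w row ≤ δ := fun row =>
    (Finset.single_le_sum (f := w) (fun _ _ => Nat.zero_le _) (Finset.mem_univ row)).trans
      (Nat.le_add_left _ _)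
  let G : Finset (MvPolynomial (Fin (n + 1)) R) :=
    (Finset.univ : Finset ((Fin c → Fin k) × (Fin c → Fin (n + 1)) × Fin (n + 1))).image
      fun p => X p.2.2 ^ (δ - w p.1) * jmin f p.1 p.2.1
  refine ⟨δ, G, Nat.le_add_right _ _, ?_, ?_, ?_⟩
  · intro g hg
    obtain ⟨⟨row, col, l⟩, -, rfl⟩ := Finset.mem_image.1 hg
    have h3 : (X l ^ (δ - w row) : MvPolynomial (Fin (n + 1)) R).IsHomogeneous (δ - w row) := by
      simpa using (isHomogeneous_X R l).pow (δ - w row)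
    have h4 := h3.mul (isHomogeneous_jmin hf row col)
    rwa [Nat.sub_add_cancel (hδ row)] at h4
  · intro g hg
    obtain ⟨⟨row, col, l⟩, -, rfl⟩ := Finset.mem_image.1 hg
    exact ⟨_, row, col, rfl⟩
  · intro row col i
    refine ⟨X i ^ (δ - w row) * jmin f row col,
      Finset.mem_image.2 ⟨(row, col, i), Finset.mem_univ _, rfl⟩, ?_⟩
    rw [map_mul, map_pow, dehom_X_self, one_pow, one_mul]

end Pool.Agent.Lib.MP_6a3dac_ag.MA
end

section

/-!
# The Jacobian minors and the vector fields of a standard chart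
-/

set_option autoImplicit false

namespace Pool.Agent.Lib.MP_6a3dac_ag.MA

open MvPolynomial
open Pool.Agent.Lib.MP_6a3dac_ag.DNF
open Pool.Agent.Lib.MP_6a3dac_ag.Bert

variable {R : Type} [CommRing R] {A : Type} [CommRing A]

theorem vf_apply {σ : Type} [DecidableEq σ] [Fintype σ] (U : Std R σ) (e : σ)
    (f : MvPolynomial σ R) : U.vf e f = U.Δ * pderiv e f -
    ∑ l : {l : σ // l ∉ U.T}, (∑ κ, U.J.adjugate l κ * pderiv e (U.g κ)) * pderiv l.1 f := by
  rw [Std.vf, Derivation.sub_apply, Derivation.smul_apply, smul_eq_mul]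
  congr 1
  rw [← Derivation.coeFnAddMonoidHom_apply, map_sum, Finset.sum_apply]
  rfl

theorem vf_of_notMem {σ : Type} [DecidableEq σ] [Fintype σ] (U : Std R σ) {e : σ} (he : e ∉ U.T)
    (f : MvPolynomial σ R) : U.vf e f = 0 := by
  rw [vf_apply]
  have h1 : ∀ l : {l : σ // l ∉ U.T}, ∑ κ, U.J.adjugate l κ * pderiv e (U.g κ) =
      if l = ⟨e, he⟩ then U.Δ else 0 := by
    intro l
    have h2 : ∑ κ, U.J.adjugate l κ * pderiv e (U.g κ) = (U.J.adjugate * U.J) l ⟨e, he⟩ := rfl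
    rw [h2, Matrix.adjugate_mul, Matrix.smul_apply, Matrix.one_apply, smul_eq_mul, ← Std.Δ]
    split_ifs
    · rw [mul_one]
    · rw [mul_zero]
  simp [h1]

/-- The gradients of a combination. -/
theorem grad_comb {σ ι : Type} [Fintype ι] (ψ : MvPolynomial σ R →+* A) {s h : MvPolynomial σ R}
    {G : ι → MvPolynomial σ R} (hs : IsUnit (ψ s)) (hh : ψ h = 0) (hG : ∀ j, ψ (G j) = 0)
    (hsh : s * h ∈ Ideal.span (Set.range G)) :
    ∃ a : ι → A, ∀ l, ψ (pderiv l h) = ∑ j, a j * ψ (pderiv l (G j)) := by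
  obtain ⟨c, hc⟩ := (Ideal.mem_span_range_iff_exists_fun).1 hsh
  obtain ⟨w, hw⟩ := hs.exists_right_inv
  refine ⟨fun j => w * ψ (c j), fun l => ?_⟩
  have h1 := congrArg (fun x => ψ (pderiv l x)) hc
  simp only [map_sum, Derivation.leibniz, smul_eq_mul, map_add, map_mul, hG, hh, zero_mul,
    add_zero] at h1
  have h2 : ψ (pderiv l h) = w * (ψ s * ψ (pderiv l h)) := by
    rw [← mul_assoc, mul_comm w, hw, one_mul]
  rw [h2, ← h1, Finset.mul_sum]
  exact Finset.sum_congr rfl fun j _ => by ring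

section Fit

variable {n k : ℕ} {i : Fin (n + 1)} (ψ : MvPolynomial {l : Fin (n + 1) // l ≠ i} R →+* A)
  (U : Std R {l : Fin (n + 1) // l ≠ i}) (F : MvPolynomial {l : Fin (n + 1) // l ≠ i} R)
  (hg : ∀ κ, ψ (U.g κ) = 0) (hF : ψ F = 0) (hΔ : IsUnit (ψ U.Δ))
  {f : Fin k → MvPolynomial (Fin (n + 1)) R} {e : Fin k → ℕ}
  (hf : ∀ κ, (f κ).IsHomogeneous (e κ)) (hf0 : ∀ κ, ψ (dehom i (f κ)) = 0)
  {m : ℕ} (hm : Fintype.card {l : {l : Fin (n + 1) // l ≠ i} // l ∉ U.T} + 1 = m)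

/-- The coefficients of the derivatives of `F` along the étale coordinates. -/
theorem exists_reduced (hΔ : IsUnit (ψ U.Δ)) : ∃ (w : A) (c : {l : {l : Fin (n + 1) // l ≠ i} // l ∉ U.T} → A),
    w * ψ U.Δ = 1 ∧ ∀ l, ψ (pderiv l F) =
      ∑ κ, c κ * ψ (pderiv l (U.g κ)) + w * ψ (U.vf l F) := by
  obtain ⟨w, hw⟩ := hΔ.exists_left_inv
  refine ⟨w, fun κ => w * ∑ l' : {l : {l : Fin (n + 1) // l ≠ i} // l ∉ U.T},
    ψ (U.J.adjugate l' κ) * ψ (pderiv l'.1 F), hw, fun l => ?_⟩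
  have h1 : ψ (U.vf l F) = ψ U.Δ * ψ (pderiv l F) -
      ∑ κ, (∑ l' : {l : {l : Fin (n + 1) // l ≠ i} // l ∉ U.T},
        ψ (U.J.adjugate l' κ) * ψ (pderiv l'.1 F)) * ψ (pderiv l (U.g κ)) := by
    rw [vf_apply, map_sub, map_mul, map_sum]
    congr 1
    simp only [map_mul, map_sum, Finset.sum_mul]
    rw [Finset.sum_comm]
    exact Finset.sum_congr rfl fun κ _ => Finset.sum_congr rfl fun l' _ => by ring
  rw [h1, mul_sub, ← mul_assoc, hw, one_mul, Finset.mul_sum]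
  simp only [mul_assoc]
  ring

include hg hF hΔ hf hf0 hm

/-- The Jacobian minors are combinations of the derivatives of `F` along the vector fields of the
chart. -/
theorem jmin_mem (h1 : ∀ κ, ∃ s, IsUnit (ψ s) ∧
      s * dehom i (f κ) ∈ Ideal.span (insert F (Set.range U.g)))
    (row : Fin m → Fin k) (col : Fin m → Fin (n + 1)) :
    ψ (dehom i (jmin f row col)) ∈ Ideal.span {z | ∃ l ∈ U.T, z = ψ (U.vf l F)} := by
  classical
  obtain ⟨w, c, hw, hc⟩ := exists_reduced ψ U F hΔ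
  have hran : insert F (Set.range U.g) = Set.range
      (Sum.elim U.g (fun _ => F) : {l : {l : Fin (n + 1) // l ≠ i} // l ∉ U.T} ⊕ Unit → _) := by
    rw [Set.Sum.elim_range, Set.range_const, Set.union_comm]
    rfl
  have h2 : ∀ κ, ∃ a : {l : {l : Fin (n + 1) // l ≠ i} // l ∉ U.T} ⊕ Unit → A, ∀ l,
      ψ (pderiv l (dehom i (f κ))) = ∑ j, a j * ψ (pderiv l ((Sum.elim U.g (fun _ => F) :
        {l : {l : Fin (n + 1) // l ≠ i} // l ∉ U.T} ⊕ Unit → _) j)) := by
    intro κ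
    obtain ⟨s, hs, hsf⟩ := h1 κ
    rw [hran] at hsf
    refine grad_comb ψ hs (hf0 κ) ?_ hsf
    rintro (j | j)
    · exact hg j
    · exact hF
  choose a ha using h2
  have h3 : ψ (dehom i (jmin f row col)) = (Matrix.of fun x y =>
      ∑ l : {l : Fin (n + 1) // l ≠ i}, (if (col y) = l.1 then 1 else
        if (col y) = i then - ψ (X l) else 0) * ψ (pderiv l (dehom i (f (row x))))).det := by
    rw [jmin, AlgHom.map_det, RingHom.map_det]
    congr 1
    ext x y
    simp only [Matrix.map_apply, Matrix.of_apply, AlgHom.mapMatrix_apply, RingHom.mapMatrix_apply]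
    by_cases hy : col y = i
    · have h4 : ∀ l : {l : Fin (n + 1) // l ≠ i}, (if (col y) = l.1 then (1 : A) else
          if (col y) = i then - ψ (X l) else 0) = - ψ (X l) := by
        intro l
        rw [if_neg, if_pos hy]
        rw [hy]
        exact fun h => l.2 h.symm
      simp only [h4]
      rw [hy, euler_dehom i (hf (row x)), map_sub, map_mul, hf0, mul_zero, zero_sub, map_sum,
        ← Finset.sum_neg_distrib]
      exact Finset.sum_congr rfl fun l _ => by rw [map_mul, neg_mul]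
    · rw [Finset.sum_eq_single ⟨col y, hy⟩]
      · rw [if_pos rfl, one_mul, pderiv_dehom]
      · intro l _ hl
        rw [if_neg, if_neg hy, zero_mul]
        intro h
        exact hl (Subtype.ext h.symm)
      · intro h
        exact absurd (Finset.mem_univ _) h
  rw [h3]
  refine minor_mem U.T (fun κ l => ψ (pderiv l (U.g κ))) (fun l => ψ (pderiv l F)) c
    (fun l => w * ψ (U.vf l F)) hc (fun κ l => ψ (pderiv l (dehom i (f κ)))) hm a ?_ _ ?_
    (fun t l => if t = l.1 then 1 else if t = i then - ψ (X l) else 0) row col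
  · intro x l
    rw [ha x l]
    refine Finset.sum_congr rfl fun j _ => ?_
    rcases j with j | j <;> rfl
  · intro l
    refine Ideal.mul_mem_left _ _ ?_
    by_cases hl : l ∈ U.T
    · exact Ideal.subset_span ⟨l, hl, rfl⟩
    · rw [vf_of_notMem U hl, map_zero]
      exact Ideal.zero_mem _

omit hf in
/-- The derivatives of `F` along the vector fields of the chart are combinations of the Jacobian
minors. -/
theorem vf_mem (h1 : ∀ x ∈ insert F (Set.range U.g), ∃ s, IsUnit (ψ s) ∧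
      s * x ∈ Ideal.span (Set.range fun κ => dehom i (f κ)))
    (𝔫 : Ideal A) (h𝔫 : ∀ (row : Fin m → Fin k) (col : Fin m → Fin (n + 1)),
      ψ (dehom i (jmin f row col)) ∈ 𝔫) (l : {l : Fin (n + 1) // l ≠ i}) :
    ψ (U.vf l F) ∈ 𝔫 := by
  classical
  obtain ⟨w, c, hw, hc⟩ := exists_reduced ψ U F hΔ
  have h2 : ∀ j : {l : {l : Fin (n + 1) // l ≠ i} // l ∉ U.T} ⊕ Unit,
      ∃ b : Fin k → A, ∀ l, ψ (pderiv l ((Sum.elim U.g (fun _ => F) :
        {l : {l : Fin (n + 1) // l ≠ i} // l ∉ U.T} ⊕ Unit → _) j)) =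
          ∑ κ, b κ * ψ (pderiv l (dehom i (f κ))) := by
    intro j
    have h3 : (Sum.elim U.g (fun _ => F) :
        {l : {l : Fin (n + 1) // l ≠ i} // l ∉ U.T} ⊕ Unit → _) j ∈
          insert F (Set.range U.g) := by
      rcases j with j | j
      · exact Or.inr ⟨j, rfl⟩
      · exact Or.inl rfl
    obtain ⟨s, hs, hsf⟩ := h1 _ h3
    refine grad_comb ψ hs ?_ hf0 hsf
    rcases j with j | j
    · exact hg j
    · exact hF
  choose b hb using h2
  have h4 := reduced_mem U.T (fun κ l => ψ (pderiv l (U.g κ))) (fun l => ψ (pderiv l F)) c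
    (fun l => w * ψ (U.vf l F)) hc (fun κ l => ψ (pderiv l (dehom i (f κ)))) hm b ?_ ?_ 𝔫 ?_ l
  · have h5 : (Matrix.of fun κ (l : {l : {l : Fin (n + 1) // l ≠ i} // l ∉ U.T}) =>
        ψ (pderiv l.1 (U.g κ))).det = ψ U.Δ := by
      rw [Std.Δ, RingHom.map_det]
      rfl
    rw [h5] at h4
    have h6 : ψ (U.vf l F) = ψ U.Δ * (w * ψ (U.vf l F)) := by
      rw [← mul_assoc, mul_comm (ψ U.Δ), hw, one_mul]
    rw [h6]
    exact h4
  · intro j l
    rw [← hb j l]
    rcases j with j | j <;> rfl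
  · intro l hl
    rw [vf_of_notMem U hl, map_zero, mul_zero]
  · intro row col
    have h7 := h𝔫 row (fun y => (col y).1)
    have h8 : ψ (dehom i (jmin f row fun y => (col y).1)) =
        (Matrix.of fun x y => ψ (pderiv (col y) (dehom i (f (row x))))).det := by
      rw [jmin, AlgHom.map_det, RingHom.map_det]
      congr 1
      ext x y
      simp only [Matrix.map_apply, Matrix.of_apply, AlgHom.mapMatrix_apply,
        RingHom.mapMatrix_apply, pderiv_dehom]
    rw [h8] at h7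
    exact h7

end Fit

theorem span_coe {D : Type} [CommRing D] (L : Subring D) {S : Set L} {x : L}
    (hx : x ∈ Ideal.span S) : (x : D) ∈ Submodule.span L ((fun y : L => (y : D)) '' S) := by
  induction hx using Submodule.span_induction with
  | mem x hx => exact Submodule.subset_span ⟨x, hx, rfl⟩
  | zero => exact Submodule.zero_mem _
  | add x y _ _ hx hy => exact Submodule.add_mem _ hx hy
  | smul a x _ hx => exact Submodule.smul_mem _ a hx

/-- The two ideals agree, in a subring `L` of `D` with enough units. -/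
theorem jac_span {n k : ℕ} {i : Fin (n + 1)} {D : Type} [CommRing D]
    (φ : MvPolynomial {l : Fin (n + 1) // l ≠ i} R →+* D) (L : Subring D) (hL : ∀ q, φ q ∈ L)
    (hdom : ∀ a ∈ L, ∀ b, a * b = 1 → b ∈ L)
    (U : Std R {l : Fin (n + 1) // l ≠ i}) (F : MvPolynomial {l : Fin (n + 1) // l ≠ i} R)
    (hg : ∀ κ, φ (U.g κ) = 0) (hF : φ F = 0) (hΔ : IsUnit (φ U.Δ))
    {f : Fin k → MvPolynomial (Fin (n + 1)) R} {e : Fin k → ℕ}
    (hf : ∀ κ, (f κ).IsHomogeneous (e κ)) (hf0 : ∀ κ, φ (dehom i (f κ)) = 0)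
    {m : ℕ} (hm : Fintype.card {l : {l : Fin (n + 1) // l ≠ i} // l ∉ U.T} + 1 = m)
    (h1 : ∀ κ, ∃ s, IsUnit (φ s) ∧ s * dehom i (f κ) ∈ Ideal.span (insert F (Set.range U.g)))
    (h2 : ∀ x ∈ insert F (Set.range U.g), ∃ s, IsUnit (φ s) ∧
      s * x ∈ Ideal.span (Set.range fun κ => dehom i (f κ)))
    {G : Finset (MvPolynomial (Fin (n + 1)) R)}
    (hG1 : ∀ g ∈ G, ∃ (x : MvPolynomial (Fin (n + 1)) R) (row : Fin m → Fin k)
        (col : Fin m → Fin (n + 1)), g = x * jmin f row col)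
    (hG2 : ∀ (row : Fin m → Fin k) (col : Fin m → Fin (n + 1)),
        ∃ g ∈ G, dehom i g = dehom i (jmin f row col)) :
    (∀ g ∈ G, φ (dehom i g) ∈ Submodule.span L {z | ∃ l ∈ U.T, z = φ (U.vf l F)}) ∧
      ∀ l, φ (U.vf l F) ∈ Submodule.span L ((fun g => φ (dehom i g)) '' (G : Set _)) := by
  obtain ⟨ψ, hψ⟩ : ∃ ψ : MvPolynomial {l : Fin (n + 1) // l ≠ i} R →+* L,
      ∀ q, (ψ q : D) = φ q := ⟨φ.codRestrict L hL, fun _ => rfl⟩
  have hz : ∀ q, φ q = 0 → ψ q = 0 := fun q hq => Subtype.ext (by rw [hψ, hq]; rfl)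
  have hu : ∀ q, IsUnit (φ q) → IsUnit (ψ q) := by
    intro q hq
    obtain ⟨b, hb⟩ := hq.exists_right_inv
    refine IsUnit.of_mul_eq_one ⟨b, hdom _ (hL q) b hb⟩ (Subtype.ext ?_)
    change (ψ q : D) * b = 1
    rw [hψ, hb]
  constructor
  · intro g hg'
    obtain ⟨x, row, col, rfl⟩ := hG1 g hg'
    have h3 := jmin_mem ψ U F (fun κ => hz _ (hg κ)) (hz _ hF) (hu _ hΔ) hf
      (fun κ => hz _ (hf0 κ)) hm (fun κ => (h1 κ).imp fun s hs => ⟨hu s hs.1, hs.2⟩) row col
    have h4 := span_coe L (Ideal.mul_mem_left _ (ψ (dehom i x)) h3)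
    have h5 : φ (dehom i (x * jmin f row col)) =
        ((ψ (dehom i x) * ψ (dehom i (jmin f row col)) : L) : D) := by
      rw [← map_mul ψ, hψ, map_mul (dehom i)]
    rw [h5]
    refine Submodule.span_mono ?_ h4
    rintro _ ⟨_, ⟨l, hl, rfl⟩, rfl⟩
    exact ⟨l, hl, hψ _⟩
  · intro l
    have h3 := vf_mem ψ U F (fun κ => hz _ (hg κ)) (hz _ hF) (hu _ hΔ)
      (fun κ => hz _ (hf0 κ)) hm (fun x hx => (h2 x hx).imp fun s hs => ⟨hu s hs.1, hs.2⟩)
      (Ideal.span ((fun g => ψ (dehom i g)) '' (G : Set _))) ?_ l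
    · have h4 := span_coe L h3
      rw [hψ] at h4
      refine Submodule.span_mono ?_ h4
      rintro _ ⟨_, ⟨g, hg', rfl⟩, rfl⟩
      exact ⟨g, hg', (hψ _).symm⟩
    · intro row col
      obtain ⟨g, hg', hgj⟩ := hG2 row col
      rw [← hgj]
      exact Ideal.subset_span ⟨g, hg', rfl⟩

end Pool.Agent.Lib.MP_6a3dac_ag.MA
end

section

/-!
# Models from local graded orders, regular over a set of primes
-/

set_option autoImplicit false

namespace Pool.Agent.Lib.MP_6a3dac_ag.Fam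

open CategoryTheory Limits AlgebraicGeometry IsDedekindDomain HomogeneousLocalization

section Point

variable {R S : Type} [CommRing R] [CommRing S] [Algebra R S]
  (𝒮 : ℕ → Submodule R S) [GradedAlgebra 𝒮]

/-- The image of a point of `Proj` in the base. -/
theorem projTo_apply_asIdeal (y : Proj 𝒮) :
    (projTo R 𝒮 y).asIdeal = Ideal.comap (algebraMap R S)
      (y : ProjectiveSpectrum 𝒮).asHomogeneousIdeal.toIdeal := by
  -- a homogeneous element of positive degree outside of the point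
  obtain ⟨d, f, hd, hf, hfy⟩ : ∃ (d : ℕ) (f : S), 0 < d ∧ f ∈ 𝒮 d ∧
      f ∉ (y : ProjectiveSpectrum 𝒮).asHomogeneousIdeal.toIdeal := by
    by_contra hcon
    push Not at hcon
    apply (y : ProjectiveSpectrum 𝒮).not_irrelevant_le
    change (HomogeneousIdeal.irrelevant 𝒮).toIdeal ≤ _
    rw [HomogeneousIdeal.toIdeal_irrelevant_le]
    intro i hi s hs
    exact hcon i s hi hs
  obtain ⟨z, hz⟩ : y ∈ Set.range (Proj.awayι 𝒮 f hf hd) := by
    change y ∈ ((Proj.awayι 𝒮 f hf hd).opensRange : Set _)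
    rw [Proj.opensRange_awayι]
    exact hfy
  ext r
  have h1 : projTo R 𝒮 y = Spec.map (CommRingCat.ofHom (baseToAway 𝒮 f)) z := by
    rw [← hz, ← Scheme.Hom.comp_apply, awayι_projTo]
  have h2 : r ∈ (projTo R 𝒮 y).asIdeal ↔ baseToAway 𝒮 f r ∈ z.asIdeal := by
    rw [h1]
    rfl
  have hrf : algebraMap R S r * f ∈ 𝒮 d := by
    rw [← Algebra.smul_def]
    exact (𝒮 d).smul_mem r hf
  have h3 := Proj.awayι_preimage_basicOpen 𝒮 hf hd hrf hd
  have h4 : Away.isLocalizationElem hf hrf = baseToAway 𝒮 f r ^ d := by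
    ext
    rw [Away.isLocalizationElem, Away.val_mk, val_pow, val_baseToAway, mul_pow,
      ← map_pow (algebraMap S (Localization.Away f)), ← Localization.mk_one_eq_algebraMap,
      Localization.mk_eq_mk_iff, Localization.r_iff_exists]
    exact ⟨1, by simp [mul_comm]⟩
  have h5 : y ∈ Proj.basicOpen 𝒮 (algebraMap R S r * f) ↔
      z ∈ PrimeSpectrum.basicOpen (Away.isLocalizationElem hf hrf) := by
    rw [← h3, ← hz]
    rfl
  rw [h2, Ideal.mem_comap, ← not_iff_not]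
  rw [h4, Proj.mem_basicOpen] at h5
  change _ ↔ baseToAway 𝒮 f r ^ d ∉ z.asIdeal at h5
  constructor
  · intro h
    have h6 := h5.2 fun h7 => h (z.isPrime.mem_of_pow_mem _ h7)
    exact fun h7 => h6 (Ideal.mul_mem_right _ _ h7)
  · intro h h7
    refine h5.1 (fun h8 => ?_) (Ideal.pow_mem_of_mem _ h7 _ hd)
    rcases (y : ProjectiveSpectrum 𝒮).isPrime.mem_or_mem h8 with h9 | h9
    · exact h h9
    · exact hfy h9

end Point

section Exist

variable {R K A : Type} [CommRing R] [IsDedekindDomain R] [Field K] [Algebra R K]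
  [IsFractionRing R K] [CommRing A] [Algebra K A] [Algebra R A] [IsScalarTower R K A]
  (𝒜 : ℕ → Submodule K A) [GradedAlgebra 𝒜]
  {F : HeightOneSpectrum R → Set A} {F₀ : Set A} (h : LocalGens 𝒜 F F₀)

include h in
/-- Regularity at a point whose image in the base lies in the closed set of `p`. -/
theorem regular_stalk_of_le (p : HeightOneSpectrum R) (hregp : RegAt 𝒜 (localOrder F p)) :
    letI := subGradedAlgebra 𝒜 (h.isHomog_globalOrder 𝒜)
    ∀ y : Proj (subGr 𝒜 (globalOrder F)),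
      (projTo R (subGr 𝒜 (globalOrder F)) y).asIdeal ≤ p.asIdeal →
      IsRegularLocalRing ((Proj (subGr 𝒜 (globalOrder F))).presheaf.stalk y) := by
  let := subGradedAlgebra 𝒜 (h.isHomog_globalOrder 𝒜)
  intro y hyl
  rw [projTo_apply_asIdeal] at hyl
  apply isRegularLocalRing_stalk
  change ProjectiveSpectrum (subGr 𝒜 (globalOrder F)) at y
  set Y₀ := y.asHomogeneousIdeal.toIdeal with hY₀
  have hY₀p : Y₀.IsPrime := y.isPrime
  have hY₀h : Y₀.IsHomogeneous (subGr 𝒜 (globalOrder F)) := y.asHomogeneousIdeal.isHomogeneous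
  have hyp : ∀ r, r ∉ p.asIdeal → algebraMap R (globalOrder F) r ∉ Y₀ :=
    fun r hr hr' => hr (hyl hr')
  rw [← h.locSub_globalOrder 𝒜 p] at hregp
  refine isRegularLocalRing_of_locSub 𝒜 p.asIdeal Y₀ hyp (h.isHomog_globalOrder 𝒜) ?_
  refine hregp (isHomog_locSub 𝒜 p.asIdeal (h.isHomog_globalOrder 𝒜)) (extIdeal p.asIdeal Y₀)
    (isPrime_extIdeal p.asIdeal Y₀ hyp)
    (isHomogeneous_extIdeal 𝒜 p.asIdeal Y₀ (h.isHomog_globalOrder 𝒜) hY₀h) ?_
  intro hle
  apply y.not_irrelevant_le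
  change (HomogeneousIdeal.irrelevant (subGr 𝒜 (globalOrder F))).toIdeal ≤ Y₀
  let := subGradedAlgebra 𝒜 (isHomog_locSub 𝒜 p.asIdeal (h.isHomog_globalOrder 𝒜))
  rw [HomogeneousIdeal.toIdeal_irrelevant_le] at hle ⊢
  intro i hi s hs
  exact (locSubHom_mem_extIdeal 𝒜 p.asIdeal Y₀ hyp).mp (hle i hi (x := locSubHom 𝒜 p.asIdeal s) hs)

include h in
/-- **Models from local graded orders**, with the condition at the primes of a nonempty set `T`
only; the model is regular at all points which do not lie over a prime outside of `T`. -/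
theorem exists_model_on [Nontrivial A] (hR : ¬ IsField R) {T : Set (HeightOneSpectrum R)}
    (hT : T.Nonempty) (hreg : ∀ p ∈ T, RegAt 𝒜 (localOrder F p)) :
    ∃ (Y : Scheme.{0}) (g : Y ⟶ Spec (CommRingCat.of R)),
      IsProper g ∧ Flat g ∧
      (∀ y : Y, (∀ P : HeightOneSpectrum R, (g y).asIdeal = P.asIdeal → P ∈ T) →
        IsRegularLocalRing (Y.presheaf.stalk y)) ∧
      ∃ e : pullback g (Spec.map (CommRingCat.ofHom (algebraMap R K))) ≅ Proj 𝒜,
        e.hom ≫ projTo K 𝒜 =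
          pullback.snd g (Spec.map (CommRingCat.ofHom (algebraMap R K))) := by
  let := subGradedAlgebra 𝒜 (h.isHomog_globalOrder 𝒜)
  have := h.finiteType 𝒜 hR
  refine ⟨Proj (subGr 𝒜 (globalOrder F)), projTo R (subGr 𝒜 (globalOrder F)),
    isProper_projTo _ (bijective_algebraMap_zero 𝒜 h hR), flat_projTo _ ?_, ?_, ?_⟩
  · intro r s hr hrs
    ext
    have h1 := congrArg Subtype.val hrs
    change algebraMap R A r * (s : A) = 0 at h1
    rw [IsScalarTower.algebraMap_apply R K A, ← Algebra.smul_def] at h1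
    have hr' : algebraMap R K r ≠ 0 := by
      rwa [Ne, FaithfulSMul.algebraMap_eq_zero_iff]
    exact (smul_eq_zero.mp h1).resolve_left hr'
  · intro y hy
    by_cases hbot : (projTo R (subGr 𝒜 (globalOrder F)) y).asIdeal = ⊥
    · obtain ⟨p, hp⟩ := hT
      exact regular_stalk_of_le 𝒜 h p (hreg p hp) y (by rw [hbot]; exact bot_le)
    · have hp := hy ⟨_, (projTo R (subGr 𝒜 (globalOrder F)) y).isPrime, hbot⟩ rfl
      exact regular_stalk_of_le 𝒜 h _ (hreg _ hp) y le_rfl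
  · have hsurj : ∀ a : A, ∃ r ∈ nonZeroDivisors R, ∃ b : globalOrder F,
        (subGrHom 𝒜 : subGr 𝒜 (globalOrder F) →+*ᵍ 𝒜) b =
          algebraMap K A (algebraMap R K r) * a := by
      intro a
      obtain ⟨r, hr, hra⟩ := h.exists_ne_zero_smul_mem 𝒜 a
      refine ⟨r, mem_nonZeroDivisors_of_ne_zero hr, ⟨_, hra⟩, ?_⟩
      rw [← IsScalarTower.algebraMap_apply, ← Algebra.smul_def]
      rfl
    have hpb := isPullback_proj (subGr 𝒜 (globalOrder F)) 𝒜 (nonZeroDivisors R)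
      (subGrHom 𝒜) (fun r => by
        rw [← IsScalarTower.algebraMap_apply]
        rfl) hsurj (fun b hb => ⟨1, one_mem _, by
          rw [map_one, one_mul]
          exact Subtype.ext hb⟩)
      (irrelevant_le_map (subGr 𝒜 (globalOrder F)) 𝒜 (nonZeroDivisors R) (subGrHom 𝒜) hsurj)
    exact ⟨hpb.isoPullback.symm, by simp⟩

end Exist

end Pool.Agent.Lib.MP_6a3dac_ag.Fam
end
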