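import Pool.Agent.Lib.MP_6a3dac_ag.Mg.G072
import Pool.Agent.Lib.MP_6a3dac_ag.Mg.G002

section

/-!
# Local parameters of the affine space over a discrete valuation ring
-/

set_option autoImplicit false

namespace Pool.Agent.Lib.MP_6a3dac_ag.DNF

open MvPolynomial IsLocalRing

section Span

/-- In a regular local ring of dimension at most `r`, independent elements `f 0, ..., f (r-1)`
generate the maximal ideal. -/
theorem span_range_eq_maximalIdeal {O : Type} [CommRing O] [IsLocalRing O]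
    (hO : IsRegularLocalRing O) {r : ℕ} (hdim : ringKrullDim O ≤ r) (f : Fin r → O)
    (hf : ∀ i, f i ∈ maximalIdeal O)
    (hind : ∀ c : Fin r → O, ∑ i, c i * f i ∈ maximalIdeal O ^ 2 → ∀ i, c i ∈ maximalIdeal O) :
    Ideal.span (Set.range f) = maximalIdeal O := by
  have hreg := (isRegularLocalRing_iff O).mp hO
  have hfin : Module.finrank (ResidueField O) (CotangentSpace O) ≤ r := by
    rw [← IsLocalRing.spanFinrank_maximalIdeal_eq_finrank_cotangentSpace]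
    have h1 : ((maximalIdeal O).spanFinrank : WithBot ℕ∞) ≤ (r : WithBot ℕ∞) := by
      rw [hreg]; exact hdim
    exact_mod_cast h1
  let v : Fin r → CotangentSpace O := fun i => (maximalIdeal O).toCotangent ⟨f i, hf i⟩
  have hli : LinearIndependent (ResidueField O) v := by
    rw [Fintype.linearIndependent_iff]
    intro c hc i
    choose d hd using fun i => residue_surjective (c i)
    have h1 : (maximalIdeal O).toCotangent (∑ i, d i • ⟨f i, hf i⟩) = 0 := by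
      rw [map_sum, ← hc]
      refine Finset.sum_congr rfl fun j _ => ?_
      rw [map_smul, ← hd j]
      rfl
    rw [Ideal.toCotangent_eq_zero] at h1
    have h2 : ((∑ i, d i • (⟨f i, hf i⟩ : maximalIdeal O) : maximalIdeal O) : O) =
        ∑ i, d i * f i := by
      rw [AddSubmonoidClass.coe_finsetSum]
      rfl
    rw [h2] at h1
    have h3 := hind d h1 i
    rw [← hd i]
    exact (residue_eq_zero_iff _).mpr h3
  have hcard : Fintype.card (Fin r) = Module.finrank (ResidueField O) (CotangentSpace O) := by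
    apply le_antisymm
    · exact hli.fintype_card_le_finrank
    · rw [Fintype.card_fin]; exact hfin
  have htop := hli.span_eq_top_of_card_eq_finrank' hcard
  have h1 : Set.range v = (maximalIdeal O).toCotangent '' (Set.range fun i => ⟨f i, hf i⟩) := by
    rw [← Set.range_comp]
    rfl
  rw [h1, CotangentSpace.span_image_eq_top_iff] at htop
  apply le_antisymm
  · rw [Ideal.span_le]
    rintro _ ⟨i, rfl⟩
    exact hf i
  · intro x hx
    have h2 : (⟨x, hx⟩ : maximalIdeal O) ∈ Submodule.span O (Set.range fun i =>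
        (⟨f i, hf i⟩ : maximalIdeal O)) := by
      rw [htop]; exact Submodule.mem_top
    have h3 := Submodule.mem_map_of_mem (f := (maximalIdeal O).subtype) h2
    rw [Submodule.map_span, ← Set.range_comp] at h3
    exact h3

end Span

section Param

variable {σ : Type} [Fintype σ] [DecidableEq σ] {O : Type} [CommRing O] [IsDomain O]
  [IsDiscreteValuationRing O] {ϖ : O} (hϖ : Irreducible ϖ)
  (Q : Ideal (MvPolynomial σ O)) [hQp : Q.IsPrime] (hQ : C ϖ ∈ Q)
  {y : σ → MvPolynomial σ O} (hy : ∀ j, y j ∈ Q)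
  (hdet : (Matrix.of fun i j => pderiv i (y j)).det ∉ Q)
include hϖ hQ hy hdet

/-- Independence of `ϖ` and the `y j`. -/
theorem param_indep {s c₀ : MvPolynomial σ O} {c : σ → MvPolynomial σ O} (hs : s ∉ Q)
    (h : s * (c₀ * C ϖ + ∑ j, c j * y j) ∈ Q ^ 2) : c₀ ∈ Q ∧ ∀ j, c j ∈ Q := by
  have hc : ∀ j, c j ∈ Q := by
    have h1 : ∀ i, ∑ j, (Matrix.of fun i j => pderiv i (y j)) i j * c j ∈ Q := by
      intro i
      have h2 := derivation_mem Q (pderiv i) hs h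
      rw [map_add, Derivation.leibniz, pderiv_C, smul_zero, zero_add, map_sum] at h2
      have h3 : (C ϖ : MvPolynomial σ O) • (pderiv i c₀ : MvPolynomial σ O) ∈ Q := by
        rw [smul_eq_mul]; exact Q.mul_mem_right _ hQ
      have h4 := (Submodule.add_mem_iff_right Q h3).mp h2
      have h5 : ∑ j, pderiv i (c j * y j) = ∑ j, (Matrix.of fun i j => pderiv i (y j)) i j * c j +
          ∑ j, y j * pderiv i (c j) := by
        rw [← Finset.sum_add_distrib]
        refine Finset.sum_congr rfl fun j _ => ?_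
        rw [Derivation.leibniz, smul_eq_mul, smul_eq_mul, Matrix.of_apply]
        ring
      rw [h5] at h4
      exact (Submodule.add_mem_iff_left Q (Q.sum_mem fun j _ => Q.mul_mem_right _ (hy j))).mp h4
    intro j
    have h2 : (Matrix.of fun i j => pderiv i (y j)).det * c j ∈ Q := by
      have h3 : ((Matrix.of fun i j => pderiv i (y j)).adjugate.mulVec
          ((Matrix.of fun i j => pderiv i (y j)).mulVec c)) j =
          (Matrix.of fun i j => pderiv i (y j)).det * c j := by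
        rw [Matrix.mulVec_mulVec, Matrix.adjugate_mul, Matrix.smul_mulVec, Matrix.one_mulVec,
          Pi.smul_apply, smul_eq_mul]
      rw [← h3]
      exact Q.sum_mem fun i _ => Q.mul_mem_left _ (h1 i)
    exact (hQp.mem_or_mem h2).resolve_left hdet
  refine ⟨?_, hc⟩
  by_contra hc₀
  have h1 : s * (∑ j, c j * y j) ∈ Q ^ 2 := by
    refine Ideal.mul_mem_left _ _ (Ideal.sum_mem _ fun j _ => ?_)
    rw [pow_two]
    exact Ideal.mul_mem_mul (hc j) (hy j)
  rw [mul_add] at h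
  have h2 := (Submodule.add_mem_iff_left _ h1).mp h
  rw [← mul_assoc] at h2
  exact mul_C_notMem_sq hϖ Q hQ (hQp.mul_notMem hs hc₀) h2

theorem param_indep_loc (c₀ : Localization.AtPrime Q) (c : σ → Localization.AtPrime Q)
    (h : c₀ * algebraMap (MvPolynomial σ O) _ (C ϖ) +
      ∑ j, c j * algebraMap (MvPolynomial σ O) _ (y j) ∈
      maximalIdeal (Localization.AtPrime Q) ^ 2) :
    c₀ ∈ maximalIdeal (Localization.AtPrime Q) ∧
      ∀ j, c j ∈ maximalIdeal (Localization.AtPrime Q) := by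
  let P := MvPolynomial σ O
  let R := Localization.AtPrime Q
  let c' : Option σ → R := fun o => o.elim c₀ c
  obtain ⟨s, hs⟩ := IsLocalization.exist_integer_multiples_of_finite Q.primeCompl c'
  choose a ha using hs
  have h1 : algebraMap P R (a none * C ϖ + ∑ j, a (some j) * y j) ∈
      maximalIdeal R ^ 2 := by
    have h2 : algebraMap P R (a none * C ϖ + ∑ j, a (some j) * y j) =
        algebraMap P R s * (c₀ * algebraMap P R (C ϖ) + ∑ j, c j * algebraMap P R (y j)) := by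
      rw [map_add, map_sum, mul_add, Finset.mul_sum, map_mul, ha none, Algebra.smul_def]
      congr 1
      · change algebraMap P R s * c₀ * _ = _
        ring
      · refine Finset.sum_congr rfl fun j _ => ?_
        rw [map_mul, ha (some j), Algebra.smul_def]
        change algebraMap P R s * c j * _ = _
        ring
    rw [h2]
    exact Ideal.mul_mem_left _ _ h
  rw [mem_maximalIdeal_pow_iff] at h1
  obtain ⟨s', hs', hs2⟩ := h1
  obtain ⟨h3, h4⟩ := param_indep hϖ Q hQ hy hdet hs' hs2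
  have h5 : ∀ o, a o ∈ Q → c' o ∈ maximalIdeal R := by
    intro o ho
    have h6 : algebraMap P R (a o) ∈ maximalIdeal R := by
      rw [← Localization.AtPrime.map_eq_maximalIdeal]
      exact Ideal.mem_map_of_mem _ ho
    rw [ha, Algebra.smul_def] at h6
    exact (Ideal.unit_mul_mem_iff_mem _ (IsLocalization.map_units R s)).mp h6
  exact ⟨h5 none h3, fun j => h5 (some j) (h4 j)⟩

/-- The prime is generated locally by `ϖ` and the `y j`. -/
theorem param_span {g : MvPolynomial σ O} (hg : g ∈ Q) :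
    ∃ s, s ∉ Q ∧ ∃ (c₀ : MvPolynomial σ O) (c : σ → MvPolynomial σ O),
      s * g = c₀ * C ϖ + ∑ j, c j * y j := by
  let P := MvPolynomial σ O
  let R := Localization.AtPrime Q
  let e := Fintype.equivFin (Option σ)
  let f' : Option σ → P := fun o => o.elim (C ϖ) y
  have hf' : ∀ o, f' o ∈ Q := by
    rintro (_ | j)
    · exact hQ
    · exact hy j
  let f : Fin (Fintype.card (Option σ)) → R := fun i => algebraMap P R (f' (e.symm i))
  have hdim : ringKrullDim R ≤ (Fintype.card (Option σ) : ℕ) := by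
    rw [IsLocalization.AtPrime.ringKrullDim_eq_height Q]
    refine (Ideal.height_le_ringKrullDim_of_ne_top hQp.ne_top).trans ?_
    rw [MvPolynomial.ringKrullDim_of_isNoetherianRing,
      IsPrincipalIdealRing.ringKrullDim_eq_one O (IsDiscreteValuationRing.not_isField O), Nat.card_eq_fintype_card,
      Fintype.card_option, add_comm]
    push_cast
    rfl
  have h1 := span_range_eq_maximalIdeal (O := R) inferInstance hdim f (by
    intro i
    rw [← Localization.AtPrime.map_eq_maximalIdeal]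
    exact Ideal.mem_map_of_mem _ (hf' _)) (by
    intro c hc i
    have h2 : c (e none) * algebraMap P R (C ϖ) +
        ∑ j, c (e (some j)) * algebraMap P R (y j) ∈ maximalIdeal R ^ 2 := by
      have h3 : ∑ i, c i * f i = c (e none) * algebraMap P R (C ϖ) +
          ∑ j, c (e (some j)) * algebraMap P R (y j) := by
        rw [← Equiv.sum_comp e, Fintype.sum_option]
        simp only [f, Equiv.symm_apply_apply]
        rfl
      rw [← h3]
      exact hc
    obtain ⟨h3, h4⟩ := param_indep_loc hϖ Q hQ hy hdet _ _ h2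
    obtain ⟨o, rfl⟩ := e.surjective i
    rcases o with _ | j
    · exact h3
    · exact h4 j)
  have h2 : algebraMap P R g ∈ (Ideal.span (Set.range f')).map (algebraMap P R) := by
    have h3 : (Ideal.span (Set.range f')).map (algebraMap P R) = maximalIdeal R := by
      rw [← h1, Ideal.map_span, ← Set.range_comp]
      congr 1
      ext x
      constructor
      · rintro ⟨o, rfl⟩
        exact ⟨e o, by simp only [f, Equiv.symm_apply_apply]; rfl⟩
      · rintro ⟨i, rfl⟩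
        exact ⟨e.symm i, rfl⟩
    rw [h3, ← Localization.AtPrime.map_eq_maximalIdeal]
    exact Ideal.mem_map_of_mem _ hg
  rw [IsLocalization.algebraMap_mem_map_algebraMap_iff Q.primeCompl] at h2
  obtain ⟨s, hs, hsg⟩ := h2
  refine ⟨s, hs, ?_⟩
  obtain ⟨c, hc⟩ := (Ideal.mem_span_range_iff_exists_fun).mp hsg
  rw [Fintype.sum_option] at hc
  exact ⟨c none, fun j => c (some j), hc.symm⟩

/-- No power of `ϖ` lies locally in the ideal of the `y j`. -/
theorem param_pow_notMem (N : ℕ) {s : MvPolynomial σ O} (hs : s ∉ Q)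
    {c : σ → MvPolynomial σ O} (h : s * C ϖ ^ N = ∑ j, c j * y j) : False := by
  let P := MvPolynomial σ O
  let R := Localization.AtPrime Q
  have hR : IsRegularLocalRing R := inferInstance
  let e := Fintype.equivFin σ
  let f : Fin (Fintype.card σ) → R := fun i => algebraMap P R (y (e.symm i))
  have hfm : ∀ i, f i ∈ maximalIdeal R := by
    intro i
    rw [← Localization.AtPrime.map_eq_maximalIdeal]
    exact Ideal.mem_map_of_mem _ (hy _)
  have hconv : ∀ c : Fin (Fintype.card σ) → R, ∑ i, c i * f i =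
      ∑ j, c (e j) * algebraMap P R (y j) := by
    intro c
    rw [← Equiv.sum_comp e]
    simp only [f, Equiv.symm_apply_apply]
  have hreg := isRegularLocalRing_quotient_range _ R hR f hfm (by
    intro c hc i
    rw [hconv] at hc
    obtain ⟨-, h4⟩ := param_indep_loc hϖ Q hQ hy hdet 0 (fun j => c (e j)) (by
      rw [zero_mul, zero_add]; exact hc)
    obtain ⟨j, rfl⟩ := e.surjective i
    exact h4 j)
  have hdom : IsDomain (R ⧸ Ideal.span (Set.range f)) :=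
    isDomain_aux _ (R ⧸ Ideal.span (Set.range f)) le_rfl
  have h1 : Ideal.Quotient.mk (Ideal.span (Set.range f)) (algebraMap P R (s * C ϖ ^ N)) = 0 := by
    rw [Ideal.Quotient.eq_zero_iff_mem, h, map_sum]
    refine Ideal.sum_mem _ fun j _ => ?_
    rw [map_mul]
    refine Ideal.mul_mem_left _ _ (Ideal.subset_span ⟨e j, ?_⟩)
    simp only [f, Equiv.symm_apply_apply]
  rw [map_mul, map_mul, map_pow, map_pow] at h1
  rcases mul_eq_zero.mp h1 with h2 | h2
  · rw [Ideal.Quotient.eq_zero_iff_mem] at h2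
    have h3 : algebraMap P R s ∈ maximalIdeal R := by
      refine (Ideal.span_le.mpr ?_) h2
      rintro _ ⟨i, rfl⟩
      exact hfm i
    have h4 : IsUnit (algebraMap P R s) := IsLocalization.map_units R (⟨s, hs⟩ : Q.primeCompl)
    exact (IsLocalRing.mem_maximalIdeal _).mp h3 h4
  · have h3 := eq_zero_of_pow_eq_zero h2
    rw [Ideal.Quotient.eq_zero_iff_mem] at h3
    obtain ⟨c', hc'⟩ := (Ideal.mem_span_range_iff_exists_fun).mp h3
    rw [hconv] at hc'
    obtain ⟨h4, -⟩ := param_indep_loc hϖ Q hQ hy hdet 1 (fun j => - c' (e j)) (by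
      have h5 : (1 : R) * algebraMap P R (C ϖ) +
          ∑ j, -c' (e j) * algebraMap P R (y j) = 0 := by
        rw [one_mul, ← hc', ← Finset.sum_add_distrib]
        exact Finset.sum_eq_zero fun j _ => by ring
      rw [h5]
      exact Ideal.zero_mem _)
    exact (maximalIdeal.isMaximal R).ne_top ((Ideal.eq_top_iff_one _).mpr h4)

end Param

end Pool.Agent.Lib.MP_6a3dac_ag.DNF
end

section

/-!
# Normal form of a hypersurface near a nondegenerate double point of a fibre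
-/

set_option autoImplicit false

namespace Pool.Agent.Lib.MP_6a3dac_ag.DNF

open MvPolynomial IsLocalRing Matrix

section Sq

/-- Elements of the square of a finitely generated ideal. -/
theorem mem_span_sq {P σ : Type} [CommRing P] [Fintype σ] (y : σ → P) {x : P}
    (hx : x ∈ Ideal.span (Set.range y) ^ 2) :
    ∃ β : Matrix σ σ P, x = ∑ i, ∑ j, β i j * (y i * y j) := by
  classical
  rw [pow_two] at hx
  induction hx using Submodule.mul_induction_on' with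
  | mem_mul_mem a ha b hb =>
    obtain ⟨c, rfl⟩ := (Ideal.mem_span_range_iff_exists_fun).mp ha
    obtain ⟨c', rfl⟩ := (Ideal.mem_span_range_iff_exists_fun).mp hb
    refine ⟨Matrix.of fun i j => c i * c' j, ?_⟩
    rw [Finset.sum_mul_sum]
    refine Finset.sum_congr rfl fun i _ => Finset.sum_congr rfl fun j _ => ?_
    rw [Matrix.of_apply]
    ring
  | add a _ b _ ha hb =>
    obtain ⟨β, rfl⟩ := ha
    obtain ⟨β', rfl⟩ := hb
    refine ⟨β + β', ?_⟩
    simp only [← Finset.sum_add_distrib]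
    refine Finset.sum_congr rfl fun i _ => Finset.sum_congr rfl fun j _ => ?_
    rw [Matrix.add_apply]
    ring

/-- Second derivatives of products modulo an ideal. -/
theorem second_deriv_mem {A P : Type} [CommRing A] [CommRing P] [Algebra A P]
    (D E : Derivation A P P) (Q : Ideal P) {b x y : P} (hx : x ∈ Q) (hy : y ∈ Q) :
    D (E (b * (x * y))) - b * (D x * E y + E x * D y) ∈ Q := by
  have h1 : D (E (b * (x * y))) - b * (D x * E y + E x * D y) =
      x * (b * D (E y) + D b * E y + y * D (E b) + D y * E b) +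
      y * (b * D (E x) + D b * E x + D x * E b) := by
    simp only [Derivation.leibniz, map_add, smul_eq_mul]
    ring
  rw [h1]
  exact Q.add_mem (Q.mul_mem_right _ hx) (Q.mul_mem_right _ hy)

theorem second_deriv_mem₁ {A P : Type} [CommRing A] [CommRing P] [Algebra A P]
    (D E : Derivation A P P) (Q : Ideal P) {b x : P} (hx : x ∈ Q) (hDx : D x ∈ Q)
    (hEx : E x ∈ Q) : D (E (b * x)) - b * D (E x) ∈ Q := by
  have h1 : D (E (b * x)) - b * D (E x) = x * D (E b) + D x * E b + E x * D b := by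
    simp only [Derivation.leibniz, map_add, smul_eq_mul]
    ring
  rw [h1]
  exact Q.add_mem (Q.add_mem (Q.mul_mem_right _ hx) (Q.mul_mem_right _ hDx))
    (Q.mul_mem_right _ hEx)

end Sq

section Normal

variable {σ : Type} [Fintype σ] [DecidableEq σ] {O : Type} [CommRing O] [IsDomain O]
  [IsDiscreteValuationRing O] {ϖ : O} (hϖ : Irreducible ϖ)
  (Q : Ideal (MvPolynomial σ O)) [hQp : Q.IsPrime] (hQ : C ϖ ∈ Q)
  {F : MvPolynomial σ O} (hF : F ∈ Q) (hy : ∀ j, pderiv j F ∈ Q)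
  (hdet : (Matrix.of fun i j => pderiv i (pderiv j F)).det ∉ Q)
include hϖ hQ hF hy hdet

/-- First step: the linear normal form. -/
theorem exists_linear_form {r : ℕ} {t c₀ : MvPolynomial σ O} {c : σ → MvPolynomial σ O}
    (ht : t ∉ Q) (hr : t * C ϖ ^ r = c₀ * F + ∑ j, c j * pderiv j F) :
    ∃ e, 1 ≤ e ∧ e ≤ r ∧ ∃ s U : MvPolynomial σ O, s ∉ Q ∧ U ∉ Q ∧
      ∃ c : σ → MvPolynomial σ O, s * F = U * C ϖ ^ e + ∑ j, c j * pderiv j F := by
  by_contra hcon
  push Not at hcon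
  have key : ∀ k ≤ r + 1, ∃ s U : MvPolynomial σ O, s ∉ Q ∧
      ∃ c : σ → MvPolynomial σ O, s * F = U * C ϖ ^ k + ∑ j, c j * pderiv j F := by
    intro k
    induction k with
    | zero =>
      intro _
      exact ⟨1, F, fun h => hQp.ne_top ((Ideal.eq_top_iff_one _).mpr h), 0, by simp⟩
    | succ k ih =>
      intro hk
      obtain ⟨s, U, hs, c', hc'⟩ := ih (by omega)
      have hU : U ∈ Q := by
        rcases Nat.eq_zero_or_pos k with rfl | hk0
        · have h1 : U = s * F - ∑ j, c' j * pderiv j F := by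
            rw [hc']; ring
          rw [h1]
          exact Q.sub_mem (Q.mul_mem_left _ hF) (Q.sum_mem fun j _ => Q.mul_mem_left _ (hy j))
        · by_contra hU
          exact hcon k hk0 (by omega) s U hs hU c' hc'
      obtain ⟨s', hs', d₀, d, hd⟩ := param_span hϖ Q hQ hy hdet hU
      refine ⟨s' * s, d₀, hQp.mul_notMem hs' hs, fun j => d j * C ϖ ^ k + s' * c' j, ?_⟩
      rw [mul_assoc, hc', mul_add, ← mul_assoc, hd, add_mul, Finset.sum_mul, Finset.mul_sum,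
        add_assoc, ← Finset.sum_add_distrib]
      congr 1
      · ring
      · refine Finset.sum_congr rfl fun j _ => ?_
        ring
  obtain ⟨s, U, hs, c', hc'⟩ := key (r + 1) le_rfl
  refine param_pow_notMem hϖ Q hQ hy hdet r (s := s * t - c₀ * U * C ϖ)
    (c := fun j => c₀ * c' j + s * c j) ?_ ?_
  · intro h
    have h1 : s * t ∈ Q := by
      have := Q.add_mem h (Q.mul_mem_left (c₀ * U) hQ)
      rwa [sub_add_cancel] at this
    exact hQp.mul_notMem hs ht h1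
  · have h1 : ∑ j, (c₀ * c' j + s * c j) * pderiv j F =
        c₀ * ∑ j, c' j * pderiv j F + s * ∑ j, c j * pderiv j F := by
      rw [Finset.mul_sum, Finset.mul_sum, ← Finset.sum_add_distrib]
      refine Finset.sum_congr rfl fun j _ => ?_
      ring
    rw [h1]
    linear_combination s * hr + c₀ * hc'

/-- **Normal form.** -/
theorem exists_normal_form {r : ℕ} {t c₀ : MvPolynomial σ O} {c : σ → MvPolynomial σ O}
    (ht : t ∉ Q) (hr : t * C ϖ ^ r = c₀ * F + ∑ j, c j * pderiv j F) :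
    ∃ e, 1 ≤ e ∧ e ≤ r ∧ ∃ s U : MvPolynomial σ O, s ∉ Q ∧ U ∉ Q ∧
      ∃ β : Matrix σ σ (MvPolynomial σ O),
        s * F = U * C ϖ ^ e + ∑ i, ∑ j, β i j * (pderiv i F * pderiv j F) ∧
        (β + βᵀ).det ∉ Q := by
  obtain ⟨e, he1, he2, s, U, hs, hU, c, hc⟩ := exists_linear_form hϖ Q hQ hF hy hdet ht hr
  let H : Matrix σ σ (MvPolynomial σ O) := Matrix.of fun i j => pderiv i (pderiv j F)
  obtain ⟨h, hh⟩ : ∃ h, h = H.det := ⟨_, rfl⟩
  have hh' : h ∉ Q := by rw [hh]; exact hdet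
  obtain ⟨y, hyd⟩ : ∃ y : σ → MvPolynomial σ O, y = fun j => pderiv j F := ⟨_, rfl⟩
  have hyj : ∀ j, y j = pderiv j F := fun j => by rw [hyd]
  have hyQ : ∀ j, y j ∈ Q := fun j => by rw [hyj]; exact hy j
  let I : Ideal (MvPolynomial σ O) := Ideal.span (Set.range y)
  have hyI : ∀ j, y j ∈ I := fun j => Ideal.subset_span ⟨j, rfl⟩
  have hIQ : I ≤ Q := by
    rw [Ideal.span_le]
    rintro _ ⟨j, rfl⟩
    exact hyQ j
  let D : σ → MvPolynomial σ O → MvPolynomial σ O := fun m x =>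
    ∑ k, H.adjugate m k * pderiv k x
  have hDy : ∀ m j, D m (y j) = if m = j then h else 0 := by
    intro m j
    have h1 : (H.adjugate * H) m j = (h • (1 : Matrix σ σ (MvPolynomial σ O))) m j := by
      rw [Matrix.adjugate_mul, hh]
    rw [Matrix.mul_apply, Matrix.smul_apply, Matrix.one_apply, smul_eq_mul] at h1
    change ∑ k, H.adjugate m k * pderiv k (y j) = _
    rw [hyj]
    refine h1.trans ?_
    split_ifs <;> simp
  have hDmul : ∀ m a b, D m (a * b) = a * D m b + b * D m a := by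
    intro m a b
    simp only [D, Finset.mul_sum, ← Finset.sum_add_distrib]
    refine Finset.sum_congr rfl fun k _ => ?_
    rw [Derivation.leibniz, smul_eq_mul, smul_eq_mul]
    ring
  have hDadd : ∀ m a b, D m (a + b) = D m a + D m b := by
    intro m a b
    simp only [D, ← Finset.sum_add_distrib]
    refine Finset.sum_congr rfl fun k _ => ?_
    rw [map_add]
    ring
  have hDsum : ∀ m (f : σ → MvPolynomial σ O), D m (∑ j, f j) = ∑ j, D m (f j) := by
    intro m f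
    simp only [D, map_sum, Finset.mul_sum]
    rw [Finset.sum_comm]
  have hDp : ∀ m, D m (C ϖ ^ e) = 0 := by
    intro m
    simp only [D]
    refine Finset.sum_eq_zero fun k _ => ?_
    rw [← map_pow, pderiv_C, mul_zero]
  have hDF : ∀ m, D m F ∈ I := by
    intro m
    refine I.sum_mem fun k _ => I.mul_mem_left _ ?_
    rw [← hyj]
    exact hyI k
  -- the coefficients
  have hcm : ∀ m, s * c m * h - C ϖ ^ e * (D m s * U - s * D m U) ∈ I := by
    intro m
    have h1 := congrArg (D m) hc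
    rw [hDmul, hDadd, hDmul, hDp, mul_zero, zero_add, hDsum] at h1
    have h2 : ∑ j, D m (c j * pderiv j F) = ∑ j, y j * D m (c j) + c m * h := by
      have h3 : ∀ j, D m (c j * pderiv j F) = y j * D m (c j) + c j * if m = j then h else 0 := by
        intro j
        rw [← hyj, hDmul, hDy]
        ring
      simp_rw [h3]
      rw [Finset.sum_add_distrib]
      simp
    rw [h2] at h1
    have h4 : ∑ j, y j * D m (c j) ∈ I := I.sum_mem fun j _ => I.mul_mem_right _ (hyI j)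
    have h5 : ∑ j, c j * pderiv j F ∈ I := I.sum_mem fun j _ => by
      rw [← hyj]; exact I.mul_mem_left _ (hyI j)
    have h6 : s * c m * h - C ϖ ^ e * (D m s * U - s * D m U) =
        s * s * D m F + D m s * (∑ j, c j * pderiv j F) - s * ∑ j, y j * D m (c j) := by
      linear_combination D m s * hc - s * h1
    rw [h6]
    exact I.sub_mem (I.add_mem (I.mul_mem_left _ (hDF m)) (I.mul_mem_left _ h5))
      (I.mul_mem_left _ h4)
  obtain ⟨V, hV⟩ : ∃ V : σ → MvPolynomial σ O, V = fun m => D m s * U - s * D m U := ⟨_, rfl⟩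
  have hsq : s * s * h * F - (s * h * U + ∑ j, V j * y j) * C ϖ ^ e ∈ I ^ 2 := by
    have h1 : s * s * h * F - (s * h * U + ∑ j, V j * y j) * C ϖ ^ e =
        ∑ j, (s * c j * h - C ϖ ^ e * (D j s * U - s * D j U)) * y j := by
      have h2 : ∑ j, (s * c j * h - C ϖ ^ e * (D j s * U - s * D j U)) * y j =
          s * h * (∑ j, c j * pderiv j F) - C ϖ ^ e * ∑ j, V j * y j := by
        rw [Finset.mul_sum, Finset.mul_sum, ← Finset.sum_sub_distrib]
        refine Finset.sum_congr rfl fun j _ => ?_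
        rw [← hyj, hV]
        ring
      rw [h2]
      linear_combination s * h * hc
    rw [h1, pow_two]
    exact Ideal.sum_mem _ fun j _ => Ideal.mul_mem_mul (hcm j) (hyI j)
  obtain ⟨β, hβ⟩ := mem_span_sq y hsq
  have hs' : s * s * h ∉ Q := hQp.mul_notMem (hQp.mul_notMem hs hs) hh'
  have heq : s * s * h * F = (s * h * U + ∑ j, V j * y j) * C ϖ ^ e +
      ∑ i, ∑ j, β i j * (pderiv i F * pderiv j F) := by
    have h1 : ∑ i, ∑ j, β i j * (pderiv i F * pderiv j F) =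
        ∑ i, ∑ j, β i j * (y i * y j) := by
      simp_rw [hyj]
    rw [h1, ← hβ]
    ring
  refine ⟨e, he1, he2, s * s * h, s * h * U + ∑ j, V j * y j, hs', ?_, β, heq, ?_⟩
  · intro hmem
    have h1 : s * h * U ∈ Q := by
      have h2 := Q.sub_mem hmem (Q.sum_mem (t := Finset.univ) (f := fun j => V j * y j)
        fun j _ => Q.mul_mem_left _ (hyQ j))
      rwa [add_sub_cancel_right] at h2
    exact hQp.mul_notMem (hQp.mul_notMem hs hh') hU h1
  · intro hmem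
    -- second derivatives
    have h1 : ∀ k l, s * s * h * H k l - (H * (β + βᵀ) * Hᵀ) k l ∈ Q := by
      intro k l
      have e1 := second_deriv_mem₁ (pderiv k) (pderiv l) Q (b := s * s * h) hF (hy k) (hy l)
      have e2 : pderiv k (pderiv l ((s * h * U + ∑ j, V j * y j) * C ϖ ^ e)) ∈ Q := by
        have e3 : pderiv k (pderiv l ((s * h * U + ∑ j, V j * y j) * C ϖ ^ e)) =
            C ϖ ^ e * pderiv k (pderiv l (s * h * U + ∑ j, V j * y j)) := by
          rw [← map_pow, mul_comm, pderiv_C_mul, pderiv_C_mul]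
        rw [e3]
        exact Q.mul_mem_right _ (Q.pow_mem_of_mem hQ _ (by omega))
      have e4 : pderiv k (pderiv l (∑ i, ∑ j, β i j * (pderiv i F * pderiv j F))) -
          ∑ i, ∑ j, β i j * (H k i * H l j + H l i * H k j) ∈ Q := by
        rw [map_sum, map_sum, ← Finset.sum_sub_distrib]
        refine Q.sum_mem fun i _ => ?_
        rw [map_sum, map_sum, ← Finset.sum_sub_distrib]
        refine Q.sum_mem fun j _ => ?_
        exact second_deriv_mem (pderiv k) (pderiv l) Q (hy i) (hy j)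
      rw [heq, map_add, map_add] at e1
      have e5 : (H * (β + βᵀ) * Hᵀ) k l =
          ∑ i, ∑ j, β i j * (H k i * H l j + H l i * H k j) := by
        have e6 : ∑ i, ∑ j, β i j * (H k i * H l j + H l i * H k j) =
            ∑ i, ∑ j, β i j * (H k i * H l j) + ∑ i, ∑ j, β i j * (H l i * H k j) := by
          simp only [← Finset.sum_add_distrib, mul_add]
        rw [e6, Finset.sum_comm (f := fun i j => β i j * (H l i * H k j))]
        rw [Matrix.mul_add, Matrix.add_mul, Matrix.add_apply]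
        congr 1
        · rw [Matrix.mul_apply, Finset.sum_comm]
          refine Finset.sum_congr rfl fun j _ => ?_
          rw [Matrix.mul_apply, Finset.sum_mul, Matrix.transpose_apply]
          refine Finset.sum_congr rfl fun i _ => ?_
          ring
        · rw [Matrix.mul_apply, Finset.sum_comm]
          refine Finset.sum_congr rfl fun j _ => ?_
          rw [Matrix.mul_apply, Finset.sum_mul, Matrix.transpose_apply]
          refine Finset.sum_congr rfl fun i _ => ?_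
          rw [Matrix.transpose_apply]
          ring
      rw [e5]
      have e7 : s * s * h * H k l - ∑ i, ∑ j, β i j * (H k i * H l j + H l i * H k j) =
          pderiv k (pderiv l ((s * h * U + ∑ j, V j * y j) * C ϖ ^ e)) +
          (pderiv k (pderiv l (∑ i, ∑ j, β i j * (pderiv i F * pderiv j F))) -
            ∑ i, ∑ j, β i j * (H k i * H l j + H l i * H k j)) -
          (pderiv k (pderiv l ((s * h * U + ∑ j, V j * y j) * C ϖ ^ e)) +
            pderiv k (pderiv l (∑ i, ∑ j, β i j * (pderiv i F * pderiv j F))) -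
            s * s * h * pderiv k (pderiv l F)) := by
        change s * s * h * pderiv k (pderiv l F) - _ = _
        ring
      rw [e7]
      exact Q.sub_mem (Q.add_mem e2 e4) e1
    have h2 : ((s * s * h) • H).map (Ideal.Quotient.mk Q) =
        (H * (β + βᵀ) * Hᵀ).map (Ideal.Quotient.mk Q) := by
      ext k l
      rw [Matrix.map_apply, Matrix.map_apply, Ideal.Quotient.eq, Matrix.smul_apply, smul_eq_mul]
      exact h1 k l
    have h3 := congrArg Matrix.det h2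
    rw [← RingHom.mapMatrix_apply, ← RingHom.mapMatrix_apply, ← RingHom.map_det,
      ← RingHom.map_det, Matrix.det_smul, Matrix.det_mul, Matrix.det_mul, Matrix.det_transpose,
      Ideal.Quotient.eq] at h3
    have h4 : H.det * (β + βᵀ).det * H.det ∈ Q := Q.mul_mem_right _ (Q.mul_mem_left _ hmem)
    have h5 := Q.add_mem h3 h4
    rw [sub_add_cancel] at h5
    exact hQp.mul_notMem (fun h6 => hs' (hQp.mem_of_pow_mem _ h6)) hdet h5

end Normal

end Pool.Agent.Lib.MP_6a3dac_ag.DNF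
end

section

/-!
# The blow-up order and its charts
-/

set_option autoImplicit false

namespace Pool.Agent.Lib.MP_6a3dac_ag

section GradedSub

variable {L M : Type} [CommRing L] [CommRing M] [Algebra L M] (ℳ : ℕ → Submodule L M)
  [GradedAlgebra ℳ]

/-- The subring of the elements all of whose components lie in the members of a multiplicative
family of additive subgroups. -/
def gradedSub (N : ℕ → AddSubgroup M) (h1 : (1 : M) ∈ N 0)
    (hmul : ∀ k l a b, a ∈ N k → b ∈ N l → a * b ∈ N (k + l)) : Subring M where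
  carrier := {a | ∀ i, (DirectSum.decompose ℳ a i : M) ∈ N i}
  mul_mem' := by
    classical
    intro a b ha hb i
    rw [← DirectSum.sum_support_decompose ℳ a, Finset.sum_mul, DirectSum.decompose_sum,
      DFinsupp.finsetSum_apply, AddSubmonoidClass.coe_finsetSum]
    refine AddSubgroup.sum_mem _ fun j _ => ?_
    rw [DirectSum.coe_decompose_mul_of_left_mem ℳ _ (DirectSum.decompose ℳ a j).2]
    split_ifs with h
    · have := hmul j (i - j) _ _ (ha j) (hb (i - j))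
      rwa [Nat.add_sub_cancel' h] at this
    · exact AddSubgroup.zero_mem _
  one_mem' := by
    intro i
    by_cases h : 0 = i
    · subst h
      rw [DirectSum.decompose_of_mem_same ℳ SetLike.GradedOne.one_mem]
      exact h1
    · rw [DirectSum.decompose_of_mem_ne ℳ SetLike.GradedOne.one_mem h]
      exact AddSubgroup.zero_mem _
  add_mem' := by
    intro a b ha hb i
    rw [DirectSum.decompose_add, DirectSum.add_apply, Submodule.coe_add]
    exact AddSubgroup.add_mem _ (ha i) (hb i)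
  zero_mem' := by
    intro i
    rw [DirectSum.decompose_zero, DirectSum.zero_apply, Submodule.coe_zero]
    exact AddSubgroup.zero_mem _
  neg_mem' := by
    intro a ha i
    rw [DirectSum.decompose_neg]
    exact AddSubgroup.neg_mem _ (ha i)

theorem mem_gradedSub_of_mem {N : ℕ → AddSubgroup M} {h1 : (1 : M) ∈ N 0}
    {hmul : ∀ k l a b, a ∈ N k → b ∈ N l → a * b ∈ N (k + l)} {n : ℕ} {a : M} (ha : a ∈ ℳ n)
    (haN : a ∈ N n) : a ∈ gradedSub ℳ N h1 hmul := by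
  intro i
  by_cases h : n = i
  · subst h
    rw [DirectSum.decompose_of_mem_same ℳ ha]
    exact haN
  · rw [DirectSum.decompose_of_mem_ne ℳ ha h]
    exact AddSubgroup.zero_mem _

theorem mem_of_mem_gradedSub {N : ℕ → AddSubgroup M} {h1 : (1 : M) ∈ N 0}
    {hmul : ∀ k l a b, a ∈ N k → b ∈ N l → a * b ∈ N (k + l)} {n : ℕ} {a : M} (ha : a ∈ ℳ n)
    (haN : a ∈ gradedSub ℳ N h1 hmul) : a ∈ N n := by
  have := haN n
  rwa [DirectSum.decompose_of_mem_same ℳ ha] at this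

end GradedSub

section Sets

variable {M I : Type} [CommRing M] (x : I → M) (τ : M →+* M) (ϖ : M)

/-- The equations of the locus of fixed points. -/
def uEl (k l : I) : M := x k * τ (x l) - x l * τ (x k)

/-- The generators of the `j`-th ideal. -/
def BSet (j : ℕ) : Set M := {b | ∃ k l, b = ϖ ^ j * (x k * x l) ∨ b = uEl x τ k l}

/-- The products of generators of the first `r` ideals. -/
def PSet (r : ℕ) : Set M :=
  {w | ∃ β : ℕ → M, (∀ j ∈ Finset.Icc 1 r, β j ∈ BSet x τ ϖ j) ∧ w = ∏ j ∈ Finset.Icc 1 r, β j}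

/-- The generators of degree `2 r + 1`. -/
def WSet (r : ℕ) : Set M := {w | ∃ i, ∃ q ∈ PSet x τ ϖ r, w = x i * q}

/-- The generators of degree one. -/
def W1Set (r : ℕ) : Set M := {w | ∃ i, w = (∏ j ∈ Finset.Icc 1 r, ϖ ^ j) * x i}

variable {x τ ϖ}

theorem finite_BSet [Finite I] (j : ℕ) : (BSet x τ ϖ j).Finite := by
  have h1 : BSet x τ ϖ j ⊆ Set.range (fun p : I × I => ϖ ^ j * (x p.1 * x p.2)) ∪
      Set.range (fun p : I × I => uEl x τ p.1 p.2) := by
    rintro b ⟨k, l, rfl | rfl⟩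
    · exact Or.inl ⟨(k, l), rfl⟩
    · exact Or.inr ⟨(k, l), rfl⟩
  exact ((Set.finite_range _).union (Set.finite_range _)).subset h1

theorem finite_PSet [Finite I] (r : ℕ) : (PSet x τ ϖ r).Finite := by
  induction r with
  | zero =>
    refine (Set.finite_singleton (1 : M)).subset ?_
    rintro w ⟨β, -, rfl⟩
    simp
  | succ r ih =>
    refine (Set.Finite.image2 (fun a b => a * b) ih
      (finite_BSet (x := x) (τ := τ) (ϖ := ϖ) (r + 1))).subset ?_
    rintro w ⟨β, hβ, rfl⟩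
    rw [Finset.prod_Icc_succ_top (by omega)]
    refine ⟨_, ⟨β, fun j hj => hβ j ?_, rfl⟩, _, hβ (r + 1) (by simp), rfl⟩
    rw [Finset.mem_Icc] at hj ⊢
    omega

theorem finite_WSet [Finite I] (r : ℕ) : (WSet x τ ϖ r).Finite := by
  refine (Set.Finite.image2 (fun a b => a * b) (Set.finite_range x)
    (finite_PSet (x := x) (τ := τ) (ϖ := ϖ) r)).subset ?_
  rintro w ⟨i, q, hq, rfl⟩
  exact ⟨_, ⟨i, rfl⟩, q, hq, rfl⟩

theorem finite_W1Set [Finite I] (r : ℕ) : (W1Set x ϖ r).Finite := by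
  refine (Set.finite_range fun i => (∏ j ∈ Finset.Icc 1 r, ϖ ^ j) * x i).subset ?_
  rintro w ⟨i, rfl⟩
  exact ⟨i, rfl⟩

end Sets

section Order

variable {R L M F I : Type} [CommRing R] [CommRing L] [CommRing M] [Algebra R L] [Algebra L M]
  [Algebra R M] [IsScalarTower R L M] [Field F] (ℳ : ℕ → Submodule L M) [GradedAlgebra ℳ]
  (x : I → M) (τ : M →+* M) (ϖ : M) (Λ : Subring M) (r : ℕ) (T : Subalgebra R M)

/-- The hypotheses on the order `T`. -/
structure OrderHyp : Prop where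
  xdeg : ∀ i, x i ∈ ℳ 1
  τdeg : ∀ n m, m ∈ ℳ n → τ m ∈ ℳ n
  Λdeg : ∀ c ∈ Λ, c ∈ ℳ 0
  ϖΛ : ϖ ∈ Λ
  hom : IsHomog ℳ T
  Λ_le : ∀ c ∈ Λ, c ∈ T
  W_le : ∀ c ∈ WSet x τ ϖ r, c ∈ T
  W1_le : ∀ c ∈ W1Set x ϖ r, c ∈ T
  gen : ∀ N : Subring M, (∀ c ∈ Λ, c ∈ N) → (∀ c ∈ WSet x τ ϖ r, c ∈ N) →
    (∀ c ∈ W1Set x ϖ r, c ∈ N) → ∀ t ∈ T, t ∈ N

variable {ℳ x τ ϖ Λ r T} (h : OrderHyp ℳ x τ ϖ Λ r T)
include h

omit [IsScalarTower R L M] in
theorem OrderHyp.ϖdeg : ϖ ∈ ℳ 0 := h.Λdeg _ h.ϖΛ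

omit [IsScalarTower R L M] in
theorem OrderHyp.pow_deg (j : ℕ) : ϖ ^ j ∈ ℳ 0 := by
  have := SetLike.pow_mem_graded j h.ϖdeg
  simpa using this

omit [IsScalarTower R L M] in
theorem OrderHyp.B_deg {j : ℕ} {b : M} (hb : b ∈ BSet x τ ϖ j) : b ∈ ℳ 2 := by
  obtain ⟨k, l, rfl | rfl⟩ := hb
  · have := SetLike.mul_mem_graded (h.pow_deg j) (SetLike.mul_mem_graded (h.xdeg k) (h.xdeg l))
    simpa using this
  · exact (ℳ 2).sub_mem (SetLike.mul_mem_graded (h.xdeg k) (h.τdeg _ _ (h.xdeg l)))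
      (SetLike.mul_mem_graded (h.xdeg l) (h.τdeg _ _ (h.xdeg k)))

omit [IsScalarTower R L M] in
theorem OrderHyp.prod_deg (s : Finset ℕ) {β : ℕ → M} (hβ : ∀ j ∈ s, β j ∈ BSet x τ ϖ j) :
    ∏ j ∈ s, β j ∈ ℳ (2 * s.card) := by
  classical
  induction s using Finset.induction_on with
  | empty => simpa using (SetLike.GradedOne.one_mem (A := ℳ))
  | insert a s ha ih =>
    rw [Finset.prod_insert ha, Finset.card_insert_of_notMem ha]
    have h1 := h.B_deg (hβ a (Finset.mem_insert_self _ _))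
    have h2 := ih fun j hj => hβ j (Finset.mem_insert_of_mem hj)
    have := SetLike.mul_mem_graded h1 h2
    rwa [show 2 * (s.card + 1) = 2 + 2 * s.card by ring]

omit [IsScalarTower R L M] in
theorem OrderHyp.W_deg {w : M} (hw : w ∈ WSet x τ ϖ r) : w ∈ ℳ (2 * r + 1) := by
  obtain ⟨i, q, ⟨β, hβ, rfl⟩, rfl⟩ := hw
  have h1 := h.prod_deg _ hβ
  rw [Nat.card_Icc, Nat.add_sub_cancel] at h1
  have := SetLike.mul_mem_graded (h.xdeg i) h1
  rwa [add_comm] at this

omit [IsScalarTower R L M] in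
theorem OrderHyp.theta_deg : (∏ j ∈ Finset.Icc 1 r, ϖ ^ j) ∈ ℳ 0 := by
  classical
  have : ∀ s : Finset ℕ, (∏ j ∈ s, ϖ ^ j) ∈ ℳ 0 := by
    intro s
    induction s using Finset.induction_on with
    | empty => simpa using (SetLike.GradedOne.one_mem (A := ℳ))
    | insert a s ha ih =>
      rw [Finset.prod_insert ha]
      have := SetLike.mul_mem_graded (h.pow_deg a) ih
      simpa using this
  exact this _

omit [IsScalarTower R L M] in
theorem OrderHyp.W1_deg {w : M} (hw : w ∈ W1Set x ϖ r) : w ∈ ℳ 1 := by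
  obtain ⟨i, rfl⟩ := hw
  have := SetLike.mul_mem_graded h.theta_deg (h.xdeg i)
  simpa using this

/-- Some generator of degree `2 r + 1` lies outside a relevant prime. -/
theorem OrderHyp.exists_notMem (Q : Ideal T) [hQ : Q.IsPrime]
    (hrel : ∃ n, 0 < n ∧ ∃ t : T, (t : M) ∈ ℳ n ∧ t ∉ Q) :
    ∃ i, ∃ β : ℕ → M, (∀ j ∈ Finset.Icc 1 r, β j ∈ BSet x τ ϖ j) ∧
      ∃ hf : x i * ∏ j ∈ Finset.Icc 1 r, β j ∈ T,
        (⟨x i * ∏ j ∈ Finset.Icc 1 r, β j, hf⟩ : T) ∉ Q := by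
  classical
  by_contra hcon
  push Not at hcon
  have hW : ∀ w (hw : w ∈ WSet x τ ϖ r), (⟨w, h.W_le w hw⟩ : T) ∈ Q := by
    rintro w ⟨i, q, ⟨β, hβ, rfl⟩, rfl⟩
    exact hcon i β hβ _
  have hTh : (∏ j ∈ Finset.Icc 1 r, ϖ ^ j) ∈ T := by
    apply h.Λ_le
    exact Λ.prod_mem fun j _ => Λ.pow_mem h.ϖΛ j
  have hW1 : ∀ w (hw : w ∈ W1Set x ϖ r), (⟨w, h.W1_le w hw⟩ : T) ∈ Q := by
    rintro w hw
    obtain ⟨i, hi⟩ := hw
    apply hQ.mem_of_pow_mem (2 * r + 1)
    have h1 : x i * ∏ j ∈ Finset.Icc 1 r, (ϖ ^ j * (x i * x i)) ∈ WSet x τ ϖ r :=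
      ⟨i, _, ⟨fun j => ϖ ^ j * (x i * x i), fun j _ => ⟨i, i, Or.inl rfl⟩, rfl⟩, rfl⟩
    have h2 : (⟨w, h.W1_le w ⟨i, hi⟩⟩ : T) ^ (2 * r + 1) =
        (⟨_, hTh⟩ : T) ^ (2 * r) * ⟨_, h.W_le _ h1⟩ := by
      apply Subtype.ext
      rw [SubmonoidClass.coe_pow, Subalgebra.coe_mul, SubmonoidClass.coe_pow]
      change w ^ (2 * r + 1) = (∏ j ∈ Finset.Icc 1 r, ϖ ^ j) ^ (2 * r) *
        (x i * ∏ j ∈ Finset.Icc 1 r, (ϖ ^ j * (x i * x i)))
      rw [Finset.prod_mul_distrib, Finset.prod_const, Nat.card_Icc, Nat.add_sub_cancel, hi]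
      ring
    rw [h2]
    exact Q.mul_mem_left _ (hW _ h1)
  -- all elements of positive degree lie in `Q`
  let N : ℕ → AddSubgroup M := fun i =>
    { carrier := {t | ∃ ht : t ∈ T, 0 < i → (⟨t, ht⟩ : T) ∈ Q}
      add_mem' := by
        rintro a b ⟨ha, ha'⟩ ⟨hb, hb'⟩
        exact ⟨T.add_mem ha hb, fun hi => Q.add_mem (ha' hi) (hb' hi)⟩
      zero_mem' := ⟨T.zero_mem, fun _ => Q.zero_mem⟩
      neg_mem' := by
        rintro a ⟨ha, ha'⟩
        exact ⟨T.neg_mem ha, fun hi => Q.neg_mem (ha' hi)⟩ }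
  have hN : ∀ i t, t ∈ N i ↔ ∃ ht : t ∈ T, 0 < i → (⟨t, ht⟩ : T) ∈ Q := fun _ _ => Iff.rfl
  have hN1 : (1 : M) ∈ N 0 := ⟨T.one_mem, fun hi => absurd hi (lt_irrefl 0)⟩
  have hNmul : ∀ k l a b, a ∈ N k → b ∈ N l → a * b ∈ N (k + l) := by
    rintro k l a b ⟨ha, ha'⟩ ⟨hb, hb'⟩
    refine ⟨T.mul_mem ha hb, fun hi => ?_⟩
    rcases Nat.eq_zero_or_pos k with rfl | hk
    · exact Q.mul_mem_left ⟨a, ha⟩ (hb' (by omega))
    · exact Q.mul_mem_right ⟨b, hb⟩ (ha' hk)
  obtain ⟨n, hn, t, ht, htQ⟩ := hrel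
  apply htQ
  have htN : (t : M) ∈ gradedSub ℳ N hN1 hNmul := by
    refine h.gen _ ?_ ?_ ?_ t t.2
    · intro c hc
      exact mem_gradedSub_of_mem ℳ (h.Λdeg c hc) ⟨h.Λ_le c hc, fun hi => absurd hi (lt_irrefl 0)⟩
    · intro c hc
      exact mem_gradedSub_of_mem ℳ (h.W_deg hc) ⟨h.W_le c hc, fun _ => hW c hc⟩
    · intro c hc
      exact mem_gradedSub_of_mem ℳ (h.W1_deg hc) ⟨h.W1_le c hc, fun _ => hW1 c hc⟩
  obtain ⟨ht', ht2⟩ := mem_of_mem_gradedSub ℳ ht htN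
  exact ht2 hn

section Chart

variable (ι : M →+* F) (hι : Function.Injective ι) (Q : Ideal T) [hQ : Q.IsPrime] {i : I}
  {β : ℕ → M} (hβ : ∀ j ∈ Finset.Icc 1 r, β j ∈ BSet x τ ϖ j)
  (hf : x i * ∏ j ∈ Finset.Icc 1 r, β j ∈ T)
  (hfQ : (⟨x i * ∏ j ∈ Finset.Icc 1 r, β j, hf⟩ : T) ∉ Q)
include hι hβ hfQ

omit [IsScalarTower R L M] h hβ in
theorem OrderHyp.chart_ne_zero : ι (x i) ≠ 0 ∧ ∀ j ∈ Finset.Icc 1 r, ι (β j) ≠ 0 := by
  have h1 := map_ne_zero_of_notMem ι T Q hι hfQ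
  change ι (x i * ∏ j ∈ Finset.Icc 1 r, β j) ≠ 0 at h1
  rw [map_mul, map_prod] at h1
  exact ⟨left_ne_zero_of_mul h1, fun j hj => (Finset.prod_ne_zero_iff.mp
    (right_ne_zero_of_mul h1)) j hj⟩

theorem OrderHyp.coord_mem (k : I) : ι (x k) / ι (x i) ∈ homLoc ℳ ι T Q := by
  obtain ⟨h1, h2⟩ := OrderHyp.chart_ne_zero ι hι Q hf hfQ
  have hw : x k * ∏ j ∈ Finset.Icc 1 r, β j ∈ WSet x τ ϖ r := ⟨k, _, ⟨β, hβ, rfl⟩, rfl⟩
  refine ⟨2 * r + 1, ⟨_, h.W_le _ hw⟩, ⟨_, hf⟩, h.W_deg hw,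
    h.W_deg ⟨i, _, ⟨β, hβ, rfl⟩, rfl⟩, hfQ, ?_⟩
  change ι (x k) / ι (x i) * ι (x i * ∏ j ∈ Finset.Icc 1 r, β j) =
    ι (x k * ∏ j ∈ Finset.Icc 1 r, β j)
  rw [map_mul, map_mul, ← mul_assoc, div_mul_cancel₀ _ h1]

/-- Another coordinate can be used if the quotient is a unit. -/
theorem OrderHyp.change (k : I) (hk : x k * ∏ j ∈ Finset.Icc 1 r, β j ∈ T)
    (hu : IsUnit (⟨_, h.coord_mem ι hι Q hβ hf hfQ k⟩ : homLoc ℳ ι T Q)) :
    (⟨x k * ∏ j ∈ Finset.Icc 1 r, β j, hk⟩ : T) ∉ Q := by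
  obtain ⟨h1, h2⟩ := OrderHyp.chart_ne_zero ι hι Q hf hfQ
  refine (isUnit_homLoc_iff ℳ ι T Q hι _ (n := 2 * r + 1)
    (a := ⟨x k * ∏ j ∈ Finset.Icc 1 r, β j, hk⟩)
    (s := ⟨x i * ∏ j ∈ Finset.Icc 1 r, β j, hf⟩)
    (h.W_deg ⟨k, _, ⟨β, hβ, rfl⟩, rfl⟩)
    (h.W_deg ⟨i, _, ⟨β, hβ, rfl⟩, rfl⟩) hfQ ?_).mp hu
  change ι (x k) / ι (x i) * ι (x i * ∏ j ∈ Finset.Icc 1 r, β j) =
    ι (x k * ∏ j ∈ Finset.Icc 1 r, β j)
  rw [map_mul, map_mul, ← mul_assoc, div_mul_cancel₀ _ h1]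

theorem OrderHyp.const_mem {c : M} (hc : c ∈ Λ) : ι c ∈ homLoc ℳ ι T Q := by
  have h1 := SetLike.mul_mem_graded (h.Λdeg c hc) (h.W_deg ⟨i, _, ⟨β, hβ, rfl⟩, rfl⟩)
  rw [zero_add] at h1
  refine ⟨2 * r + 1, ⟨_, h.Λ_le c hc⟩ * ⟨_, hf⟩, ⟨_, hf⟩, h1,
    h.W_deg ⟨i, _, ⟨β, hβ, rfl⟩, rfl⟩, hfQ, ?_⟩
  exact (map_mul ι c _).symm

theorem OrderHyp.ratio_mem {j : ℕ} (hj : j ∈ Finset.Icc 1 r) {b : M} (hb : b ∈ BSet x τ ϖ j) :
    ι b / ι (β j) ∈ homLoc ℳ ι T Q := by
  classical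
  obtain ⟨h1, h2⟩ := OrderHyp.chart_ne_zero ι hι Q hf hfQ
  have hβ' : ∀ l ∈ Finset.Icc 1 r, Function.update β j b l ∈ BSet x τ ϖ l := by
    intro l hl
    by_cases hlj : l = j
    · subst hlj
      rwa [Function.update_self]
    · rw [Function.update_of_ne hlj]
      exact hβ l hl
  have hw : x i * ∏ l ∈ Finset.Icc 1 r, Function.update β j b l ∈ WSet x τ ϖ r :=
    ⟨i, _, ⟨_, hβ', rfl⟩, rfl⟩
  refine ⟨2 * r + 1, ⟨_, h.W_le _ hw⟩, ⟨_, hf⟩, h.W_deg hw,
    h.W_deg ⟨i, _, ⟨β, hβ, rfl⟩, rfl⟩, hfQ, ?_⟩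
  change ι b / ι (β j) * ι (x i * ∏ j ∈ Finset.Icc 1 r, β j) =
    ι (x i * ∏ l ∈ Finset.Icc 1 r, Function.update β j b l)
  rw [Finset.prod_update_of_mem hj, ← Finset.mul_prod_erase _ _ hj, Finset.sdiff_singleton_eq_erase]
  simp only [map_mul]
  have := h2 j hj
  field_simp

/-- **Generation of the homogeneous local ring.** -/
theorem OrderHyp.eq_top (R' : Subring F) (hR' : R' ≤ homLoc ℳ ι T Q)
    (hdom : ∀ a ∈ R', ∀ b ∈ homLoc ℳ ι T Q, a * b = 1 → b ∈ R')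
    (hΛ : ∀ c ∈ Λ, ι c ∈ R') (hx : ∀ k, ι (x k) / ι (x i) ∈ R')
    (hB : ∀ j ∈ Finset.Icc 1 r, ∀ b ∈ BSet x τ ϖ j, ι b / ι (β j) ∈ R') :
    ∀ z ∈ homLoc ℳ ι T Q, z ∈ R' := by
  classical
  obtain ⟨h1, h2⟩ := OrderHyp.chart_ne_zero ι hι Q hf hfQ
  obtain ⟨f, hfdef⟩ : ∃ f, f = x i * ∏ j ∈ Finset.Icc 1 r, β j := ⟨_, rfl⟩
  obtain ⟨m, hm⟩ : ∃ m, m = 2 * r + 1 := ⟨_, rfl⟩
  have hf0 : ι f ≠ 0 := by
    rw [hfdef]
    exact map_ne_zero_of_notMem ι T Q hι hfQ
  obtain ⟨γ, hγ⟩ : ∃ γ, γ = ι (∏ j ∈ Finset.Icc 1 r, ϖ ^ j) * ι (x i) := ⟨_, rfl⟩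
  -- `γ ^ m` is divisible by `f`
  have hγm : ∃ ρ ∈ R', γ ^ m = ι f * ρ := by
    refine ⟨ι (∏ j ∈ Finset.Icc 1 r, ϖ ^ j) ^ (2 * r) *
      ∏ j ∈ Finset.Icc 1 r, ι (ϖ ^ j * (x i * x i)) / ι (β j), ?_, ?_⟩
    · refine R'.mul_mem (R'.pow_mem (hΛ _ (Λ.prod_mem fun j _ => Λ.pow_mem h.ϖΛ j)) _)
        (R'.prod_mem fun j hj => hB j hj _ ⟨i, i, Or.inl rfl⟩)
    · have h3 : (∏ j ∈ Finset.Icc 1 r, ι (β j)) ≠ 0 := Finset.prod_ne_zero_iff.mpr h2
      rw [Finset.prod_div_distrib, hfdef, hγ, hm, map_mul, map_prod ι β]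
      have h4 : ∏ j ∈ Finset.Icc 1 r, ι (ϖ ^ j * (x i * x i)) =
          ι (∏ j ∈ Finset.Icc 1 r, ϖ ^ j) * (ι (x i) * ι (x i)) ^ r := by
        rw [← map_prod, Finset.prod_mul_distrib, Finset.prod_const, Nat.card_Icc,
          Nat.add_sub_cancel]
        simp only [map_mul, map_pow]
      rw [h4]
      field_simp
      ring
  obtain ⟨ρ₀, hρ₀, hρ₀2⟩ := hγm
  let N : ℕ → AddSubgroup M := fun i =>
    { carrier := {a | ∃ ρ ∈ R', ι a = γ ^ (i % m) * ι f ^ (i / m) * ρ}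
      add_mem' := by
        rintro a b ⟨ρ, hρ, h3⟩ ⟨ρ', hρ', h4⟩
        exact ⟨ρ + ρ', R'.add_mem hρ hρ', by rw [map_add, h3, h4]; ring⟩
      zero_mem' := ⟨0, R'.zero_mem, by simp⟩
      neg_mem' := by
        rintro a ⟨ρ, hρ, h3⟩
        exact ⟨-ρ, R'.neg_mem hρ, by rw [map_neg, h3]; ring⟩ }
  have hN1 : (1 : M) ∈ N 0 := ⟨1, R'.one_mem, by simp⟩
  have hNmul : ∀ k l a b, a ∈ N k → b ∈ N l → a * b ∈ N (k + l) := by
    rintro k l a b ⟨ρ, hρ, h3⟩ ⟨ρ', hρ', h4⟩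
    have hm0 : 0 < m := by omega
    rcases Nat.lt_or_ge (k % m + l % m) m with hlt | hge
    · refine ⟨ρ * ρ', R'.mul_mem hρ hρ', ?_⟩
      have e1 : (k + l) % m = k % m + l % m := by rw [Nat.add_mod, Nat.mod_eq_of_lt hlt]
      have e2 : (k + l) / m = k / m + l / m := Nat.add_div_eq_of_add_mod_lt hlt
      rw [e1, e2, map_mul, h3, h4, pow_add, pow_add]
      ring
    · refine ⟨ρ₀ * (ρ * ρ'), R'.mul_mem hρ₀ (R'.mul_mem hρ hρ'), ?_⟩
      have e2 : (k + l) / m = k / m + l / m + 1 := Nat.add_div_eq_of_le_mod_add_mod hge hm0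
      have e1 : k % m + l % m = (k + l) % m + m := by
        have a1 := Nat.div_add_mod (k + l) m
        have a2 := Nat.div_add_mod k m
        have a3 := Nat.div_add_mod l m
        rw [e2] at a1
        have : m * (k / m + l / m + 1) = m * (k / m) + m * (l / m) + m := by ring
        omega
      have e3 : γ ^ (k % m) * γ ^ (l % m) = γ ^ ((k + l) % m) * (ι f * ρ₀) := by
        rw [← pow_add, e1, pow_add, hρ₀2]
      rw [e2, map_mul, h3, h4, pow_succ, pow_add]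
      linear_combination (ι f ^ (k / m) * ι f ^ (l / m) * ρ * ρ') * e3
  have hT : ∀ t ∈ T, t ∈ gradedSub ℳ N hN1 hNmul := by
    refine h.gen _ ?_ ?_ ?_
    · intro c hc
      refine mem_gradedSub_of_mem ℳ (h.Λdeg c hc) ⟨ι c, hΛ c hc, by simp⟩
    · intro c hc
      refine mem_gradedSub_of_mem ℳ (h.W_deg hc) ?_
      obtain ⟨k, q, ⟨β', hβ', rfl⟩, rfl⟩ := hc
      refine ⟨ι (x k) / ι (x i) * ∏ j ∈ Finset.Icc 1 r, ι (β' j) / ι (β j),
        R'.mul_mem (hx k) (R'.prod_mem fun j hj => hB j hj _ (hβ' j hj)), ?_⟩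
      rw [← hm, Nat.mod_self, Nat.div_self (by omega), pow_zero, pow_one, one_mul, hfdef,
        Finset.prod_div_distrib, map_mul, map_mul, map_prod, map_prod]
      have h3 : (∏ j ∈ Finset.Icc 1 r, ι (β j)) ≠ 0 := Finset.prod_ne_zero_iff.mpr h2
      field_simp
    · intro c hc
      refine mem_gradedSub_of_mem ℳ (h.W1_deg hc) ?_
      obtain ⟨k, rfl⟩ := hc
      refine ⟨ι (x k) / ι (x i), hx k, ?_⟩
      rcases Nat.eq_zero_or_pos r with hr | hr
      · subst hr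
        have : m = 1 := hm
        subst this
        rw [hfdef]
        simp only [Finset.Icc_eq_empty_of_lt zero_lt_one, Finset.prod_empty, mul_one, one_mul,
          Nat.mod_one, Nat.div_one, pow_zero, pow_one]
        field_simp
      · rw [Nat.mod_eq_of_lt (by omega), Nat.div_eq_of_lt (by omega), pow_one, pow_zero, mul_one,
          hγ, map_mul]
        field_simp
  rintro z ⟨n, a, s, ha, hs, hsQ, hz⟩
  have hs0 := map_ne_zero_of_notMem ι T Q hι hsQ
  have hsm : ((s : M) ^ m) ∈ ℳ (m * n) := SetLike.pow_mem_graded m hs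
  have ham : ((a : M) * s ^ (2 * r)) ∈ ℳ (m * n) := by
    have := SetLike.mul_mem_graded ha (SetLike.pow_mem_graded (2 * r) hs)
    rw [hm, show (2 * r + 1) * n = n + (2 * r) • n by rw [smul_eq_mul]; ring]
    exact this
  obtain ⟨ρ, hρ, h3⟩ := mem_of_mem_gradedSub ℳ hsm (hT _ (T.pow_mem s.2 m))
  obtain ⟨ρ', hρ', h4⟩ := mem_of_mem_gradedSub ℳ ham (hT _ (T.mul_mem a.2 (T.pow_mem s.2 _)))
  rw [Nat.mul_mod_right, Nat.mul_div_cancel_left _ (by omega : 0 < m), pow_zero, one_mul] at h3 h4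
  have hfn : ι f ^ n ≠ 0 := pow_ne_zero _ hf0
  have hρ0 : ρ ≠ 0 := by
    rintro rfl
    rw [mul_zero, map_pow] at h3
    exact pow_ne_zero _ hs0 h3
  have hρinv : ρ⁻¹ ∈ homLoc ℳ ι T Q := by
    refine ⟨m * n, ⟨f, hfdef ▸ hf⟩ ^ n, s ^ m, ?_, hsm, fun h => hsQ (hQ.mem_of_pow_mem m h), ?_⟩
    · rw [SubmonoidClass.coe_pow]
      have : f ∈ ℳ m := by
        rw [hfdef, hm]
        exact h.W_deg ⟨i, _, ⟨β, hβ, rfl⟩, rfl⟩
      have := SetLike.pow_mem_graded n this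
      rwa [smul_eq_mul, mul_comm] at this
    · rw [SubmonoidClass.coe_pow, SubmonoidClass.coe_pow, h3, map_pow]
      field_simp
  have h5 : z = ρ' * ρ⁻¹ := by
    rw [map_mul, ← hz, map_pow] at h4
    rw [map_pow, hm, pow_succ] at h3
    have h6 : z * (ι f ^ n * ρ) = ι f ^ n * ρ' := by
      rw [← h3, ← h4]
      ring
    field_simp
    apply mul_left_cancel₀ hfn
    linear_combination h6
  rw [h5]
  exact R'.mul_mem hρ' (hdom ρ hρ _ hρinv (mul_inv_cancel₀ hρ0))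

end Chart

end Order

end Pool.Agent.Lib.MP_6a3dac_ag
end

section

/-!
# The blow-up order of a product of ideals and its charts
-/

set_option autoImplicit false

namespace Pool.Agent.Lib.MP_6a3dac_ag.DNF

section Sets

variable {M I : Type} [CommRing M] (x : I → M) (B : ℕ → Set M) (ϖ : M)

/-- The products of generators of the first `r` ideals. -/
def PSet (r : ℕ) : Set M :=
  {w | ∃ β : ℕ → M, (∀ j ∈ Finset.Icc 1 r, β j ∈ B j) ∧ w = ∏ j ∈ Finset.Icc 1 r, β j}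

/-- The generators of degree `δ r + 1`. -/
def WSet (r : ℕ) : Set M := {w | ∃ i, ∃ q ∈ PSet B r, w = x i * q}

/-- The generators of degree one. -/
def W1Set (r : ℕ) : Set M := {w | ∃ i, w = (∏ j ∈ Finset.Icc 1 r, ϖ ^ j) * x i}

variable {x B ϖ}

theorem finite_PSet (hB : ∀ j, (B j).Finite) (r : ℕ) : (PSet B r).Finite := by
  induction r with
  | zero =>
    refine (Set.finite_singleton (1 : M)).subset ?_
    rintro w ⟨β, -, rfl⟩
    simp
  | succ r ih =>
    refine (Set.Finite.image2 (fun a b => a * b) ih (hB (r + 1))).subset ?_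
    rintro w ⟨β, hβ, rfl⟩
    rw [Finset.prod_Icc_succ_top (by omega)]
    refine ⟨_, ⟨β, fun j hj => hβ j ?_, rfl⟩, _, hβ (r + 1) (by simp), rfl⟩
    rw [Finset.mem_Icc] at hj ⊢
    omega

theorem finite_WSet [Finite I] (hB : ∀ j, (B j).Finite) (r : ℕ) : (WSet x B r).Finite := by
  refine (Set.Finite.image2 (fun a b => a * b) (Set.finite_range x)
    (finite_PSet hB r)).subset ?_
  rintro w ⟨i, q, hq, rfl⟩
  exact ⟨_, ⟨i, rfl⟩, q, hq, rfl⟩

theorem finite_W1Set [Finite I] (r : ℕ) : (W1Set x ϖ r).Finite := by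
  refine (Set.finite_range fun i => (∏ j ∈ Finset.Icc 1 r, ϖ ^ j) * x i).subset ?_
  rintro w ⟨i, rfl⟩
  exact ⟨i, rfl⟩

end Sets

section Order

variable {R L M F I : Type} [CommRing R] [CommRing L] [CommRing M] [Algebra R L] [Algebra L M]
  [Algebra R M] [IsScalarTower R L M] [Field F] (ℳ : ℕ → Submodule L M) [GradedAlgebra ℳ]
  (x : I → M) (B : ℕ → Set M) (δ : ℕ) (ϖ : M) (Λ : Subring M) (r : ℕ) (T : Subalgebra R M)

/-- The hypotheses on the order `T`. -/
structure OrderHyp : Prop where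
  xdeg : ∀ i, x i ∈ ℳ 1
  δpos : 1 ≤ δ
  B_deg : ∀ j, ∀ b ∈ B j, b ∈ ℳ δ
  B_pow : ∀ j i, ϖ ^ j * x i ^ δ ∈ B j
  Λdeg : ∀ c ∈ Λ, c ∈ ℳ 0
  ϖΛ : ϖ ∈ Λ
  hom : IsHomog ℳ T
  Λ_le : ∀ c ∈ Λ, c ∈ T
  W_le : ∀ c ∈ WSet x B r, c ∈ T
  W1_le : ∀ c ∈ W1Set x ϖ r, c ∈ T
  gen : ∀ N : Subring M, (∀ c ∈ Λ, c ∈ N) → (∀ c ∈ WSet x B r, c ∈ N) →
    (∀ c ∈ W1Set x ϖ r, c ∈ N) → ∀ t ∈ T, t ∈ N

variable {ℳ x B δ ϖ Λ r T} (h : OrderHyp ℳ x B δ ϖ Λ r T)
include h

omit [IsScalarTower R L M] in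
theorem OrderHyp.ϖdeg : ϖ ∈ ℳ 0 := h.Λdeg _ h.ϖΛ

omit [IsScalarTower R L M] in
theorem OrderHyp.pow_deg (j : ℕ) : ϖ ^ j ∈ ℳ 0 := by
  have := SetLike.pow_mem_graded j h.ϖdeg
  simpa using this

omit [IsScalarTower R L M] in
theorem OrderHyp.prod_deg (s : Finset ℕ) {β : ℕ → M} (hβ : ∀ j ∈ s, β j ∈ B j) :
    ∏ j ∈ s, β j ∈ ℳ (δ * s.card) := by
  classical
  induction s using Finset.induction_on with
  | empty => simpa using (SetLike.GradedOne.one_mem (A := ℳ))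
  | insert a s ha ih =>
    rw [Finset.prod_insert ha, Finset.card_insert_of_notMem ha]
    have h1 := h.B_deg _ _ (hβ a (Finset.mem_insert_self _ _))
    have h2 := ih fun j hj => hβ j (Finset.mem_insert_of_mem hj)
    have := SetLike.mul_mem_graded h1 h2
    rwa [show δ * (s.card + 1) = δ + δ * s.card by ring]

omit [IsScalarTower R L M] in
theorem OrderHyp.W_deg {w : M} (hw : w ∈ WSet x B r) : w ∈ ℳ (δ * r + 1) := by
  obtain ⟨i, q, ⟨β, hβ, rfl⟩, rfl⟩ := hw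
  have h1 := h.prod_deg _ hβ
  rw [Nat.card_Icc, Nat.add_sub_cancel] at h1
  have := SetLike.mul_mem_graded (h.xdeg i) h1
  rwa [add_comm] at this

omit [IsScalarTower R L M] in
theorem OrderHyp.theta_deg : (∏ j ∈ Finset.Icc 1 r, ϖ ^ j) ∈ ℳ 0 := by
  classical
  have : ∀ s : Finset ℕ, (∏ j ∈ s, ϖ ^ j) ∈ ℳ 0 := by
    intro s
    induction s using Finset.induction_on with
    | empty => simpa using (SetLike.GradedOne.one_mem (A := ℳ))
    | insert a s ha ih =>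
      rw [Finset.prod_insert ha]
      have := SetLike.mul_mem_graded (h.pow_deg a) ih
      simpa using this
  exact this _

omit [IsScalarTower R L M] in
theorem OrderHyp.W1_deg {w : M} (hw : w ∈ W1Set x ϖ r) : w ∈ ℳ 1 := by
  obtain ⟨i, rfl⟩ := hw
  have := SetLike.mul_mem_graded h.theta_deg (h.xdeg i)
  simpa using this

/-- Some generator of degree `2 r + 1` lies outside a relevant prime. -/
theorem OrderHyp.exists_notMem (Q : Ideal T) [hQ : Q.IsPrime]
    (hrel : ∃ n, 0 < n ∧ ∃ t : T, (t : M) ∈ ℳ n ∧ t ∉ Q) :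
    ∃ i, ∃ β : ℕ → M, (∀ j ∈ Finset.Icc 1 r, β j ∈ B j) ∧
      ∃ hf : x i * ∏ j ∈ Finset.Icc 1 r, β j ∈ T,
        (⟨x i * ∏ j ∈ Finset.Icc 1 r, β j, hf⟩ : T) ∉ Q := by
  classical
  by_contra hcon
  push Not at hcon
  have hW : ∀ w (hw : w ∈ WSet x B r), (⟨w, h.W_le w hw⟩ : T) ∈ Q := by
    rintro w ⟨i, q, ⟨β, hβ, rfl⟩, rfl⟩
    exact hcon i β hβ _
  have hTh : (∏ j ∈ Finset.Icc 1 r, ϖ ^ j) ∈ T := by
    apply h.Λ_le
    exact Λ.prod_mem fun j _ => Λ.pow_mem h.ϖΛ j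
  have hW1 : ∀ w (hw : w ∈ W1Set x ϖ r), (⟨w, h.W1_le w hw⟩ : T) ∈ Q := by
    rintro w hw
    obtain ⟨i, hi⟩ := hw
    apply hQ.mem_of_pow_mem (δ * r + 1)
    have h1 : x i * ∏ j ∈ Finset.Icc 1 r, (ϖ ^ j * x i ^ δ) ∈ WSet x B r :=
      ⟨i, _, ⟨fun j => ϖ ^ j * x i ^ δ, fun j _ => h.B_pow j i, rfl⟩, rfl⟩
    have h2 : (⟨w, h.W1_le w ⟨i, hi⟩⟩ : T) ^ (δ * r + 1) =
        (⟨_, hTh⟩ : T) ^ (δ * r) * ⟨_, h.W_le _ h1⟩ := by
      apply Subtype.ext
      rw [SubmonoidClass.coe_pow, Subalgebra.coe_mul, SubmonoidClass.coe_pow]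
      change w ^ (δ * r + 1) = (∏ j ∈ Finset.Icc 1 r, ϖ ^ j) ^ (δ * r) *
        (x i * ∏ j ∈ Finset.Icc 1 r, (ϖ ^ j * x i ^ δ))
      rw [Finset.prod_mul_distrib, Finset.prod_const, Nat.card_Icc, Nat.add_sub_cancel, hi]
      ring
    rw [h2]
    exact Q.mul_mem_left _ (hW _ h1)
  -- all elements of positive degree lie in `Q`
  let N : ℕ → AddSubgroup M := fun i =>
    { carrier := {t | ∃ ht : t ∈ T, 0 < i → (⟨t, ht⟩ : T) ∈ Q}
      add_mem' := by
        rintro a b ⟨ha, ha'⟩ ⟨hb, hb'⟩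
        exact ⟨T.add_mem ha hb, fun hi => Q.add_mem (ha' hi) (hb' hi)⟩
      zero_mem' := ⟨T.zero_mem, fun _ => Q.zero_mem⟩
      neg_mem' := by
        rintro a ⟨ha, ha'⟩
        exact ⟨T.neg_mem ha, fun hi => Q.neg_mem (ha' hi)⟩ }
  have hN : ∀ i t, t ∈ N i ↔ ∃ ht : t ∈ T, 0 < i → (⟨t, ht⟩ : T) ∈ Q := fun _ _ => Iff.rfl
  have hN1 : (1 : M) ∈ N 0 := ⟨T.one_mem, fun hi => absurd hi (lt_irrefl 0)⟩
  have hNmul : ∀ k l a b, a ∈ N k → b ∈ N l → a * b ∈ N (k + l) := by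
    rintro k l a b ⟨ha, ha'⟩ ⟨hb, hb'⟩
    refine ⟨T.mul_mem ha hb, fun hi => ?_⟩
    rcases Nat.eq_zero_or_pos k with rfl | hk
    · exact Q.mul_mem_left ⟨a, ha⟩ (hb' (by omega))
    · exact Q.mul_mem_right ⟨b, hb⟩ (ha' hk)
  obtain ⟨n, hn, t, ht, htQ⟩ := hrel
  apply htQ
  have htN : (t : M) ∈ gradedSub ℳ N hN1 hNmul := by
    refine h.gen _ ?_ ?_ ?_ t t.2
    · intro c hc
      exact mem_gradedSub_of_mem ℳ (h.Λdeg c hc) ⟨h.Λ_le c hc, fun hi => absurd hi (lt_irrefl 0)⟩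
    · intro c hc
      exact mem_gradedSub_of_mem ℳ (h.W_deg hc) ⟨h.W_le c hc, fun _ => hW c hc⟩
    · intro c hc
      exact mem_gradedSub_of_mem ℳ (h.W1_deg hc) ⟨h.W1_le c hc, fun _ => hW1 c hc⟩
  obtain ⟨ht', ht2⟩ := mem_of_mem_gradedSub ℳ ht htN
  exact ht2 hn

section Chart

variable (ι : M →+* F) (hι : Function.Injective ι) (Q : Ideal T) [hQ : Q.IsPrime] {i : I}
  {β : ℕ → M} (hβ : ∀ j ∈ Finset.Icc 1 r, β j ∈ B j)
  (hf : x i * ∏ j ∈ Finset.Icc 1 r, β j ∈ T)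
  (hfQ : (⟨x i * ∏ j ∈ Finset.Icc 1 r, β j, hf⟩ : T) ∉ Q)
include hι hβ hfQ

omit [IsScalarTower R L M] h hβ in
theorem OrderHyp.chart_ne_zero : ι (x i) ≠ 0 ∧ ∀ j ∈ Finset.Icc 1 r, ι (β j) ≠ 0 := by
  have h1 := map_ne_zero_of_notMem ι T Q hι hfQ
  change ι (x i * ∏ j ∈ Finset.Icc 1 r, β j) ≠ 0 at h1
  rw [map_mul, map_prod] at h1
  exact ⟨left_ne_zero_of_mul h1, fun j hj => (Finset.prod_ne_zero_iff.mp
    (right_ne_zero_of_mul h1)) j hj⟩

theorem OrderHyp.coord_mem (k : I) : ι (x k) / ι (x i) ∈ homLoc ℳ ι T Q := by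
  obtain ⟨h1, h2⟩ := OrderHyp.chart_ne_zero ι hι Q hf hfQ
  have hw : x k * ∏ j ∈ Finset.Icc 1 r, β j ∈ WSet x B r := ⟨k, _, ⟨β, hβ, rfl⟩, rfl⟩
  refine ⟨δ * r + 1, ⟨_, h.W_le _ hw⟩, ⟨_, hf⟩, h.W_deg hw,
    h.W_deg ⟨i, _, ⟨β, hβ, rfl⟩, rfl⟩, hfQ, ?_⟩
  change ι (x k) / ι (x i) * ι (x i * ∏ j ∈ Finset.Icc 1 r, β j) =
    ι (x k * ∏ j ∈ Finset.Icc 1 r, β j)
  rw [map_mul, map_mul, ← mul_assoc, div_mul_cancel₀ _ h1]

/-- Another coordinate can be used if the quotient is a unit. -/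
theorem OrderHyp.change (k : I) (hk : x k * ∏ j ∈ Finset.Icc 1 r, β j ∈ T)
    (hu : IsUnit (⟨_, h.coord_mem ι hι Q hβ hf hfQ k⟩ : homLoc ℳ ι T Q)) :
    (⟨x k * ∏ j ∈ Finset.Icc 1 r, β j, hk⟩ : T) ∉ Q := by
  obtain ⟨h1, h2⟩ := OrderHyp.chart_ne_zero ι hι Q hf hfQ
  refine (isUnit_homLoc_iff ℳ ι T Q hι _ (n := δ * r + 1)
    (a := ⟨x k * ∏ j ∈ Finset.Icc 1 r, β j, hk⟩)
    (s := ⟨x i * ∏ j ∈ Finset.Icc 1 r, β j, hf⟩)
    (h.W_deg ⟨k, _, ⟨β, hβ, rfl⟩, rfl⟩)
    (h.W_deg ⟨i, _, ⟨β, hβ, rfl⟩, rfl⟩) hfQ ?_).mp hu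
  change ι (x k) / ι (x i) * ι (x i * ∏ j ∈ Finset.Icc 1 r, β j) =
    ι (x k * ∏ j ∈ Finset.Icc 1 r, β j)
  rw [map_mul, map_mul, ← mul_assoc, div_mul_cancel₀ _ h1]

theorem OrderHyp.const_mem {c : M} (hc : c ∈ Λ) : ι c ∈ homLoc ℳ ι T Q := by
  have h1 := SetLike.mul_mem_graded (h.Λdeg c hc) (h.W_deg ⟨i, _, ⟨β, hβ, rfl⟩, rfl⟩)
  rw [zero_add] at h1
  refine ⟨δ * r + 1, ⟨_, h.Λ_le c hc⟩ * ⟨_, hf⟩, ⟨_, hf⟩, h1,
    h.W_deg ⟨i, _, ⟨β, hβ, rfl⟩, rfl⟩, hfQ, ?_⟩
  exact (map_mul ι c _).symm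

theorem OrderHyp.ratio_mem {j : ℕ} (hj : j ∈ Finset.Icc 1 r) {b : M} (hb : b ∈ B j) :
    ι b / ι (β j) ∈ homLoc ℳ ι T Q := by
  classical
  obtain ⟨h1, h2⟩ := OrderHyp.chart_ne_zero ι hι Q hf hfQ
  have hβ' : ∀ l ∈ Finset.Icc 1 r, Function.update β j b l ∈ B l := by
    intro l hl
    by_cases hlj : l = j
    · subst hlj
      rwa [Function.update_self]
    · rw [Function.update_of_ne hlj]
      exact hβ l hl
  have hw : x i * ∏ l ∈ Finset.Icc 1 r, Function.update β j b l ∈ WSet x B r :=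
    ⟨i, _, ⟨_, hβ', rfl⟩, rfl⟩
  refine ⟨δ * r + 1, ⟨_, h.W_le _ hw⟩, ⟨_, hf⟩, h.W_deg hw,
    h.W_deg ⟨i, _, ⟨β, hβ, rfl⟩, rfl⟩, hfQ, ?_⟩
  change ι b / ι (β j) * ι (x i * ∏ j ∈ Finset.Icc 1 r, β j) =
    ι (x i * ∏ l ∈ Finset.Icc 1 r, Function.update β j b l)
  rw [Finset.prod_update_of_mem hj, ← Finset.mul_prod_erase _ _ hj, Finset.sdiff_singleton_eq_erase]
  simp only [map_mul]
  have := h2 j hj
  field_simp

/-- **Generation of the homogeneous local ring.** -/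
theorem OrderHyp.eq_top (R' : Subring F) (hR' : R' ≤ homLoc ℳ ι T Q)
    (hdom : ∀ a ∈ R', ∀ b ∈ homLoc ℳ ι T Q, a * b = 1 → b ∈ R')
    (hΛ : ∀ c ∈ Λ, ι c ∈ R') (hx : ∀ k, ι (x k) / ι (x i) ∈ R')
    (hB : ∀ j ∈ Finset.Icc 1 r, ∀ b ∈ B j, ι b / ι (β j) ∈ R') :
    ∀ z ∈ homLoc ℳ ι T Q, z ∈ R' := by
  classical
  obtain ⟨h1, h2⟩ := OrderHyp.chart_ne_zero ι hι Q hf hfQ
  obtain ⟨f, hfdef⟩ : ∃ f, f = x i * ∏ j ∈ Finset.Icc 1 r, β j := ⟨_, rfl⟩
  obtain ⟨m, hm⟩ : ∃ m, m = δ * r + 1 := ⟨_, rfl⟩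
  have hf0 : ι f ≠ 0 := by
    rw [hfdef]
    exact map_ne_zero_of_notMem ι T Q hι hfQ
  obtain ⟨γ, hγ⟩ : ∃ γ, γ = ι (∏ j ∈ Finset.Icc 1 r, ϖ ^ j) * ι (x i) := ⟨_, rfl⟩
  -- `γ ^ m` is divisible by `f`
  have hγm : ∃ ρ ∈ R', γ ^ m = ι f * ρ := by
    refine ⟨ι (∏ j ∈ Finset.Icc 1 r, ϖ ^ j) ^ (δ * r) *
      ∏ j ∈ Finset.Icc 1 r, ι (ϖ ^ j * x i ^ δ) / ι (β j), ?_, ?_⟩
    · refine R'.mul_mem (R'.pow_mem (hΛ _ (Λ.prod_mem fun j _ => Λ.pow_mem h.ϖΛ j)) _)
        (R'.prod_mem fun j hj => hB j hj _ (h.B_pow j i))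
    · have h3 : (∏ j ∈ Finset.Icc 1 r, ι (β j)) ≠ 0 := Finset.prod_ne_zero_iff.mpr h2
      rw [Finset.prod_div_distrib, hfdef, hγ, hm, map_mul, map_prod ι β]
      have h4 : ∏ j ∈ Finset.Icc 1 r, ι (ϖ ^ j * x i ^ δ) =
          ι (∏ j ∈ Finset.Icc 1 r, ϖ ^ j) * (ι (x i) ^ δ) ^ r := by
        rw [← map_prod, Finset.prod_mul_distrib, Finset.prod_const, Nat.card_Icc,
          Nat.add_sub_cancel]
        simp only [map_mul, map_pow]
      rw [h4]
      field_simp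
      ring
  obtain ⟨ρ₀, hρ₀, hρ₀2⟩ := hγm
  let N : ℕ → AddSubgroup M := fun i =>
    { carrier := {a | ∃ ρ ∈ R', ι a = γ ^ (i % m) * ι f ^ (i / m) * ρ}
      add_mem' := by
        rintro a b ⟨ρ, hρ, h3⟩ ⟨ρ', hρ', h4⟩
        exact ⟨ρ + ρ', R'.add_mem hρ hρ', by rw [map_add, h3, h4]; ring⟩
      zero_mem' := ⟨0, R'.zero_mem, by simp⟩
      neg_mem' := by
        rintro a ⟨ρ, hρ, h3⟩
        exact ⟨-ρ, R'.neg_mem hρ, by rw [map_neg, h3]; ring⟩ }
  have hN1 : (1 : M) ∈ N 0 := ⟨1, R'.one_mem, by simp⟩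
  have hNmul : ∀ k l a b, a ∈ N k → b ∈ N l → a * b ∈ N (k + l) := by
    rintro k l a b ⟨ρ, hρ, h3⟩ ⟨ρ', hρ', h4⟩
    have hm0 : 0 < m := by omega
    rcases Nat.lt_or_ge (k % m + l % m) m with hlt | hge
    · refine ⟨ρ * ρ', R'.mul_mem hρ hρ', ?_⟩
      have e1 : (k + l) % m = k % m + l % m := by rw [Nat.add_mod, Nat.mod_eq_of_lt hlt]
      have e2 : (k + l) / m = k / m + l / m := Nat.add_div_eq_of_add_mod_lt hlt
      rw [e1, e2, map_mul, h3, h4, pow_add, pow_add]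
      ring
    · refine ⟨ρ₀ * (ρ * ρ'), R'.mul_mem hρ₀ (R'.mul_mem hρ hρ'), ?_⟩
      have e2 : (k + l) / m = k / m + l / m + 1 := Nat.add_div_eq_of_le_mod_add_mod hge hm0
      have e1 : k % m + l % m = (k + l) % m + m := by
        have a1 := Nat.div_add_mod (k + l) m
        have a2 := Nat.div_add_mod k m
        have a3 := Nat.div_add_mod l m
        rw [e2] at a1
        have : m * (k / m + l / m + 1) = m * (k / m) + m * (l / m) + m := by ring
        omega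
      have e3 : γ ^ (k % m) * γ ^ (l % m) = γ ^ ((k + l) % m) * (ι f * ρ₀) := by
        rw [← pow_add, e1, pow_add, hρ₀2]
      rw [e2, map_mul, h3, h4, pow_succ, pow_add]
      linear_combination (ι f ^ (k / m) * ι f ^ (l / m) * ρ * ρ') * e3
  have hT : ∀ t ∈ T, t ∈ gradedSub ℳ N hN1 hNmul := by
    refine h.gen _ ?_ ?_ ?_
    · intro c hc
      refine mem_gradedSub_of_mem ℳ (h.Λdeg c hc) ⟨ι c, hΛ c hc, by simp⟩
    · intro c hc
      refine mem_gradedSub_of_mem ℳ (h.W_deg hc) ?_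
      obtain ⟨k, q, ⟨β', hβ', rfl⟩, rfl⟩ := hc
      refine ⟨ι (x k) / ι (x i) * ∏ j ∈ Finset.Icc 1 r, ι (β' j) / ι (β j),
        R'.mul_mem (hx k) (R'.prod_mem fun j hj => hB j hj _ (hβ' j hj)), ?_⟩
      rw [← hm, Nat.mod_self, Nat.div_self (by omega), pow_zero, pow_one, one_mul, hfdef,
        Finset.prod_div_distrib, map_mul, map_mul, map_prod, map_prod]
      have h3 : (∏ j ∈ Finset.Icc 1 r, ι (β j)) ≠ 0 := Finset.prod_ne_zero_iff.mpr h2
      field_simp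
    · intro c hc
      refine mem_gradedSub_of_mem ℳ (h.W1_deg hc) ?_
      obtain ⟨k, rfl⟩ := hc
      refine ⟨ι (x k) / ι (x i), hx k, ?_⟩
      rcases Nat.eq_zero_or_pos r with hr | hr
      · subst hr
        have : m = 1 := hm
        subst this
        rw [hfdef]
        simp only [Finset.Icc_eq_empty_of_lt zero_lt_one, Finset.prod_empty, mul_one, one_mul,
          Nat.mod_one, Nat.div_one, pow_zero, pow_one]
        field_simp
      · have hδr : 0 < δ * r := Nat.mul_pos h.δpos hr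
        rw [Nat.mod_eq_of_lt (by omega), Nat.div_eq_of_lt (by omega), pow_one, pow_zero, mul_one,
          hγ, map_mul]
        field_simp
  rintro z ⟨n, a, s, ha, hs, hsQ, hz⟩
  have hs0 := map_ne_zero_of_notMem ι T Q hι hsQ
  have hsm : ((s : M) ^ m) ∈ ℳ (m * n) := SetLike.pow_mem_graded m hs
  have ham : ((a : M) * s ^ (δ * r)) ∈ ℳ (m * n) := by
    have := SetLike.mul_mem_graded ha (SetLike.pow_mem_graded (δ * r) hs)
    rw [hm, show (δ * r + 1) * n = n + (δ * r) • n by rw [smul_eq_mul]; ring]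
    exact this
  obtain ⟨ρ, hρ, h3⟩ := mem_of_mem_gradedSub ℳ hsm (hT _ (T.pow_mem s.2 m))
  obtain ⟨ρ', hρ', h4⟩ := mem_of_mem_gradedSub ℳ ham (hT _ (T.mul_mem a.2 (T.pow_mem s.2 _)))
  rw [Nat.mul_mod_right, Nat.mul_div_cancel_left _ (by omega : 0 < m), pow_zero, one_mul] at h3 h4
  have hfn : ι f ^ n ≠ 0 := pow_ne_zero _ hf0
  have hρ0 : ρ ≠ 0 := by
    rintro rfl
    rw [mul_zero, map_pow] at h3
    exact pow_ne_zero _ hs0 h3
  have hρinv : ρ⁻¹ ∈ homLoc ℳ ι T Q := by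
    refine ⟨m * n, ⟨f, hfdef ▸ hf⟩ ^ n, s ^ m, ?_, hsm, fun h => hsQ (hQ.mem_of_pow_mem m h), ?_⟩
    · rw [SubmonoidClass.coe_pow]
      have : f ∈ ℳ m := by
        rw [hfdef, hm]
        exact h.W_deg ⟨i, _, ⟨β, hβ, rfl⟩, rfl⟩
      have := SetLike.pow_mem_graded n this
      rwa [smul_eq_mul, mul_comm] at this
    · rw [SubmonoidClass.coe_pow, SubmonoidClass.coe_pow, h3, map_pow]
      field_simp
  have h5 : z = ρ' * ρ⁻¹ := by
    rw [map_mul, ← hz, map_pow] at h4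
    rw [map_pow, hm, pow_succ] at h3
    have h6 : z * (ι f ^ n * ρ) = ι f ^ n * ρ' := by
      rw [← h3, ← h4]
      ring
    field_simp
    apply mul_left_cancel₀ hfn
    linear_combination h6
  rw [h5]
  exact R'.mul_mem hρ' (hdom ρ hρ _ hρinv (mul_inv_cancel₀ hρ0))

end Chart

end Order

end Pool.Agent.Lib.MP_6a3dac_ag.DNF
end

section

/-!
# Regularity of the homogeneous local rings of the blow-up order
-/

set_option autoImplicit false

namespace Pool.Agent.Lib.MP_6a3dac_ag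

open IsLocalRing

section Charts

variable {M F I : Type} [CommRing M] [Field F] (ι : M →+* F) (τF : F →+* F) (x : I → M)
  (Λ : Subring M) (ϖ : M) (r : ℕ)

/-- A regular chart ring of a local subring `D` of the field. -/
structure IsChart (D : Subring F) (i : I) {G : Type} [CommRing G] (φ : G →+* F) : Prop where
  inj : Function.Injective φ
  reg : IsRegularRing G
  mem : ∀ a, φ a ∈ D
  lam : ∀ c ∈ Λ, ∃ a, φ a = ι c
  coord : ∀ k, ∃ a, φ a = ι (x k) / ι (x i)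

/-- A chart ring around a fixed point in the fibre over a ramified prime. -/
structure IsRamChart (D : Subring F) (i : I) {G : Type} [CommRing G] (φ : G →+* F) (ϖG : G)
    (Z : Finset G) : Prop extends IsChart ι x Λ D i φ where
  ϖ_eq : φ ϖG = ι ϖ
  Z_mem : ∀ k, ∃ z ∈ Z, φ z = τF (ι (x k) / ι (x i)) - ι (x k) / ι (x i)
  Z_sub : ∀ z ∈ Z, ∃ k, φ z = τF (ι (x k) / ι (x i)) - ι (x k) / ι (x i)
  H1 : IsRegularRing (G ⧸ Ideal.span {ϖG})
  H2 : IsRegularRing (G ⧸ Ideal.span (insert ϖG (Z : Set G)))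
  H3 : ∀ a, ϖG * a ∈ Ideal.span (insert (ϖG ^ r) (Z : Set G)) →
      a ∈ Ideal.span (insert (ϖG ^ (r - 1)) (Z : Set G))
  H4 : ∀ g, ∃ y ∈ Ideal.span (insert (ϖG ^ r) (Z : Set G)), τF (φ g) - φ g = φ y

end Charts

section Main

variable {R L M F I : Type} [CommRing R] [CommRing L] [CommRing M] [Algebra R L] [Algebra L M]
  [Algebra R M] [IsScalarTower R L M] [Field F] {ℳ : ℕ → Submodule L M} [GradedAlgebra ℳ]
  {x : I → M} {τ : M →+* M} {ϖ : M} {Λ : Subring M} {r : ℕ} {T : Subalgebra R M}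
  (h : OrderHyp ℳ x τ ϖ Λ r T) (ι : M →+* F) (hι : Function.Injective ι)
  (τF : F →+* F) (hτF : ∀ m, τF (ι m) = ι (τ m)) (hτF2 : ∀ z, τF (τF z) = z)
  (hstar : ∀ l, ∃ l', τ (x l) = x l')
  {I₀ : Set I} (hseg : ∀ i, ∃ k l, k ∈ I₀ ∧ τ (x k) = x k ∧ x i * τ (x i) = x k * x l)
  (hϖ0 : ϖ ≠ 0)
  (hC : ∀ (i : I) (D : Subring F), IsLocalRing D → (∀ c ∈ Λ, ι c ∈ D) → ι (x i) ≠ 0 →
    (∀ k, ι (x k) / ι (x i) ∈ D) → ∃ (G : Type) (_ : CommRing G) (φ : G →+* F),
      IsChart ι x Λ D i φ)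
  (hR : 1 ≤ r → ∀ (i : I) (D : Subring F), i ∈ I₀ → τ (x i) = x i → IsLocalRing D →
    (∀ c ∈ Λ, ι c ∈ D) → ι (x i) ≠ 0 → (∀ k, ι (x k) / ι (x i) ∈ D) →
    (∀ w ∈ D, ι ϖ * w ≠ 1) →
    (∀ k, ∀ w ∈ D, (τF (ι (x k) / ι (x i)) - ι (x k) / ι (x i)) * w ≠ 1) →
    ∃ (G : Type) (_ : CommRing G) (φ : G →+* F) (ϖG : G) (Z : Finset G),
      IsRamChart ι τF x Λ ϖ r D i φ ϖG Z)
  (hΛ : (r = 0 ∧ ∃ c ∈ Λ, ∃ d ∈ Λ, (τ c - c) * d = 1) ∨
    (1 ≤ r ∧ ∃ ε ∈ Λ, ∃ ε' ∈ Λ, ∃ e ∈ Λ, τ ϖ - ϖ = ε * ϖ ^ r ∧ ε * ε' = 1 ∧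
      τ ε - ε = e * ϖ ^ r))

/-- The conclusion on the involution. -/
def Principal (τF : F →+* F) (D : Subring F) : Prop :=
  ∃ y ∈ D, τF y - y ≠ 0 ∧ ∀ z ∈ D, ∃ c ∈ D, τF z - z = c * (τF y - y)

theorem principal_of_unit {D : Subring F} (hD : ∀ z ∈ D, τF z ∈ D) {y w : F} (hy : y ∈ D)
    (hw : w ∈ D) (hyw : (τF y - y) * w = 1) : Principal τF D := by
  refine ⟨y, hy, left_ne_zero_of_mul_eq_one hyw, fun z hz => ⟨(τF z - z) * w,
    D.mul_mem (D.sub_mem (hD z hz) hz) hw, ?_⟩⟩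
  rw [mul_assoc, mul_comm w, hyw, mul_one]

include h hι hτF hτF2 hstar hseg hϖ0 hC hR hΛ in
/-- **The main local theorem.** -/
theorem OrderHyp.main (Q : Ideal T) (hQ : Q.IsPrime)
    (hrel : ∃ n, 0 < n ∧ ∃ t : T, (t : M) ∈ ℳ n ∧ t ∉ Q) :
    IsRegularLocalRing (homLoc ℳ ι T Q) ∧
      ((∀ z ∈ homLoc ℳ ι T Q, τF z ∈ homLoc ℳ ι T Q) → Principal τF (homLoc ℳ ι T Q)) := by
  classical
  obtain ⟨i, β, hβ, hf, hfQ⟩ := h.exists_notMem Q hrel
  have hloc := isLocalRing_homLoc ℳ ι T Q hι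
  obtain ⟨D, hD⟩ : ∃ D, D = homLoc ℳ ι T Q := ⟨_, rfl⟩
  have hlocD : IsLocalRing D := hD ▸ hloc
  have hΛD : ∀ c ∈ Λ, ι c ∈ D := fun c hc => hD ▸ h.const_mem ι hι Q hβ hf hfQ hc
  -- facts on charts
  have hunitD : ∀ z : D, (∃ w ∈ D, (z : F) * w = 1) ↔ IsUnit z := by
    intro z
    constructor
    · rintro ⟨w, hw, hzw⟩
      exact IsUnit.of_mul_eq_one ⟨w, hw⟩ (Subtype.ext hzw)
    · intro hz
      obtain ⟨w, hw⟩ := hz.exists_right_inv
      exact ⟨w, w.2, congrArg Subtype.val hw⟩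
  -- generation, for any chart
  have hgenD : ∀ (i : I) (hf : x i * ∏ j ∈ Finset.Icc 1 r, β j ∈ T)
      (_ : (⟨x i * ∏ j ∈ Finset.Icc 1 r, β j, hf⟩ : T) ∉ Q) (R' : Subring D), Dom R' →
      (∀ c (hc : c ∈ Λ), (⟨ι c, hΛD c hc⟩ : D) ∈ R') →
      (∀ k, ∃ w ∈ R', (w : F) = ι (x k) / ι (x i)) →
      (∀ j ∈ Finset.Icc 1 r, ∀ b ∈ BSet x τ ϖ j, ∃ w ∈ R', (w : F) = ι b / ι (β j)) →
      R' = ⊤ := by
    intro i hf hfQ R' hdom h1 h2 h3
    rw [eq_top_iff]
    rintro ⟨z, hz⟩ -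
    have h4 := h.eq_top ι hι Q hβ hf hfQ (R'.map D.subtype) ?_ ?_ ?_ ?_ ?_ z (hD ▸ hz)
    · obtain ⟨w, hw, hwz⟩ := h4
      have : w = ⟨z, hz⟩ := Subtype.ext hwz
      rwa [← this]
    · rintro _ ⟨w, -, rfl⟩
      exact hD ▸ w.2
    · rintro _ ⟨a, ha, rfl⟩ b hb hab
      exact ⟨⟨b, hD ▸ hb⟩, hdom a ha ⟨b, hD ▸ hb⟩ (Subtype.ext hab), rfl⟩
    · intro c hc
      exact ⟨_, h1 c hc, rfl⟩
    · intro k
      obtain ⟨w, hw, hwk⟩ := h2 k
      exact ⟨w, hw, hwk⟩
    · intro j hj b hb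
      obtain ⟨w, hw, hwk⟩ := h3 j hj b hb
      exact ⟨w, hw, hwk⟩
  by_cases hcase : 1 ≤ r ∧ (∀ w ∈ D, ι ϖ * w ≠ 1) ∧
      ∀ k l, ∀ w ∈ D, ι (uEl x τ k l) / (ι (x i) * ι (x i)) * w ≠ 1
  · -- the ramified chart
    obtain ⟨hr, hϖD, huD⟩ := hcase
    -- a fixed coordinate
    obtain ⟨hxi0, hβ0⟩ := OrderHyp.chart_ne_zero ι hι Q hf hfQ
    obtain ⟨k, l, hk0, hk1, hk2⟩ := hseg i
    have hcoord : ∀ k, ι (x k) / ι (x i) ∈ D := fun k => hD ▸ h.coord_mem ι hι Q hβ hf hfQ k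
    obtain ⟨i', hi'⟩ := hstar i
    have hkD : IsUnit (⟨ι (x k) / ι (x i), hcoord k⟩ : D) := by
      have hττ : τ (x i') = x i := by
        apply hι
        rw [← hi', ← hτF, ← hτF, hτF2]
      obtain ⟨u, hu⟩ : ∃ u : D, (u : F) = ι (uEl x τ i i') / (ι (x i) * ι (x i)) := by
        refine ⟨⟨1 - (ι (x i') / ι (x i)) ^ 2, D.sub_mem D.one_mem (D.pow_mem (hcoord i') 2)⟩, ?_⟩
        change 1 - (ι (x i') / ι (x i)) ^ 2 = _
        rw [uEl, hττ, hi', map_sub, map_mul, map_mul]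
        field_simp
      have hun : ¬ IsUnit u := by
        rw [← hunitD]
        rintro ⟨w, hw, huw⟩
        exact huD i i' w hw (by rw [← hu]; exact huw)
      have h1 : (⟨ι (x i') / ι (x i), hcoord i'⟩ : D) ^ 2 = 1 - u := by
        apply Subtype.ext
        change (ι (x i') / ι (x i)) ^ 2 = 1 - (u : F)
        rw [hu, uEl, hττ, hi', map_sub, map_mul, map_mul]
        field_simp
        ring
      have h2 : IsUnit ((⟨ι (x i') / ι (x i), hcoord i'⟩ : D) ^ 2) := by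
        rw [h1]
        by_contra hcon
        have h3 := Ideal.add_mem (maximalIdeal D) ((IsLocalRing.mem_maximalIdeal _).mpr hcon)
          ((IsLocalRing.mem_maximalIdeal _).mpr hun)
        rw [sub_add_cancel] at h3
        exact (maximalIdeal.isMaximal D).ne_top ((Ideal.eq_top_iff_one _).mpr h3)
      have h3 : IsUnit (⟨ι (x i') / ι (x i), hcoord i'⟩ : D) := by
        rw [isUnit_pow_iff two_ne_zero] at h2
        exact h2
      have h4 : (⟨ι (x i') / ι (x i), hcoord i'⟩ : D) =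
          ⟨ι (x k) / ι (x i), hcoord k⟩ * ⟨ι (x l) / ι (x i), hcoord l⟩ := by
        apply Subtype.ext
        change ι (x i') / ι (x i) = ι (x k) / ι (x i) * (ι (x l) / ι (x i))
        have h5 := congrArg ι hk2
        rw [hi', map_mul, map_mul] at h5
        field_simp
        linear_combination h5
      rw [h4] at h3
      exact isUnit_of_mul_isUnit_left h3
    have hkT : x k * ∏ j ∈ Finset.Icc 1 r, β j ∈ T := h.W_le _ ⟨k, _, ⟨β, hβ, rfl⟩, rfl⟩
    have hkQ : (⟨x k * ∏ j ∈ Finset.Icc 1 r, β j, hkT⟩ : T) ∉ Q := by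
      apply h.change ι hι Q hβ hf hfQ k hkT
      subst hD
      exact hkD
    obtain ⟨hxk0, -⟩ := OrderHyp.chart_ne_zero ι hι Q hkT hkQ
    have hcoordk : ∀ a, ι (x a) / ι (x k) ∈ D := fun a => hD ▸ h.coord_mem ι hι Q hβ hkT hkQ a
    have hratio : ∀ j ∈ Finset.Icc 1 r, ∀ b ∈ BSet x τ ϖ j, ι b / ι (β j) ∈ D := fun j hj b hb =>
      hD ▸ h.ratio_mem ι hι Q hβ hkT hkQ hj hb
    have hΔ : ∀ a, τF (ι (x a) / ι (x k)) - ι (x a) / ι (x k) =
        ι (uEl x τ k a) / (ι (x k) * ι (x k)) := by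
      intro a
      rw [map_div₀, hτF, hτF, hk1, uEl, hk1, map_sub, map_mul, map_mul]
      field_simp
    have hΔn : ∀ a, ∀ w ∈ D, (τF (ι (x a) / ι (x k)) - ι (x a) / ι (x k)) * w ≠ 1 := by
      intro a w hw h1
      rw [hΔ] at h1
      apply huD k a (w * (ι (x i) / ι (x k)) ^ 2) (D.mul_mem hw (D.pow_mem (hcoordk i) 2))
      rw [← h1]
      field_simp
    obtain ⟨G, _, φ, ϖG, Z, hch⟩ := hR hr k D hk0 hk1 hlocD hΛD hxk0 hcoordk hϖD hΔn
    let φD : G →+* D := φ.codRestrict D hch.mem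
    have hφD : ∀ g, ((φD g : D) : F) = φ g := fun _ => rfl
    have hφDi : Function.Injective φD := fun a b hab => hch.inj (congrArg Subtype.val hab)
    have hreg := hch.reg
    -- the generators of the ideals
    have hBG : ∀ j, ∀ b ∈ BSet x τ ϖ j, ∃ a ∈ Ideal.span (insert (ϖG ^ j) (Z : Set G)),
        φ a = ι b / (ι (x k) * ι (x k)) := by
      rintro j b ⟨a, c, rfl | rfl⟩
      · obtain ⟨ga, hga⟩ := hch.coord a
        obtain ⟨gc, hgc⟩ := hch.coord c
        refine ⟨(ga * gc) * ϖG ^ j, Ideal.mul_mem_left _ _ (Ideal.subset_span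
          (Set.mem_insert _ _)), ?_⟩
        rw [map_mul, map_mul, map_pow, hga, hgc, hch.ϖ_eq, map_mul, map_mul, map_pow]
        field_simp
      · obtain ⟨ga, hga⟩ := hch.coord a
        obtain ⟨gc, hgc⟩ := hch.coord c
        obtain ⟨za, hza, hza2⟩ := hch.Z_mem a
        obtain ⟨zc, hzc, hzc2⟩ := hch.Z_mem c
        refine ⟨ga * zc - gc * za, Ideal.sub_mem _
          (Ideal.mul_mem_left _ _ (Ideal.subset_span (Set.mem_insert_of_mem _ hzc)))
          (Ideal.mul_mem_left _ _ (Ideal.subset_span (Set.mem_insert_of_mem _ hza))), ?_⟩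
        rw [map_sub, map_mul, map_mul, hga, hgc, hza2, hzc2, map_div₀, map_div₀, hτF, hτF, hτF,
          hk1, uEl, map_sub, map_mul, map_mul]
        field_simp
        ring
    choose! bG hbG1 hbG2 using fun j (hj : j ∈ Finset.Icc 1 r) => hBG j (β j) (hβ j hj)
    have hu0 : (ι ϖ) ≠ 0 := by
      intro h0
      apply hϖ0
      apply hι
      rw [h0, map_zero]
    have hmain := local_main φD hφDi (ϖ := ϖG) (r := r) (Z := Z) (b := bG) ?_ ?_ hr ?_ hch.H1 hch.H2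
      hch.H3 ?_ ?_
    · obtain ⟨hm1, hm2⟩ := hmain
      subst hD
      refine ⟨hm1, fun hτD => ?_⟩
      let τD : homLoc ℳ ι T Q →+* homLoc ℳ ι T Q :=
        (τF.comp (homLoc ℳ ι T Q).subtype).codRestrict (homLoc ℳ ι T Q) fun z => hτD z z.2
      have hτDc : ∀ z, ((τD z : homLoc ℳ ι T Q) : F) = τF z := fun _ => rfl
      rcases hΛ with ⟨hr0, -⟩ | ⟨-, ε, hε, ε', hε', e, he, h1, h2, h3⟩
      · omega
      obtain ⟨y, hy1, hy2⟩ := hm2 τD (fun z => Subtype.ext (hτF2 _)) ⟨ι ε, hΛD ε hε⟩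
        ⟨ι e, hΛD e he⟩ (by
          apply Subtype.ext
          change τF (φ ϖG) - φ ϖG = ι ε * (φ ϖG) ^ r
          rw [hch.ϖ_eq, hτF, ← map_pow, ← map_mul, ← h1, map_sub]) (by
          refine IsUnit.of_mul_eq_one ⟨ι ε', hΛD ε' hε'⟩ (Subtype.ext ?_)
          change ι ε * ι ε' = 1
          rw [← map_mul, h2, map_one]) (by
          apply Subtype.ext
          change τF (ι ε) - ι ε = ι e * (φ ϖG) ^ r
          rw [hch.ϖ_eq, hτF, ← map_pow, ← map_mul, ← h3, map_sub]) (by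
          intro z hz
          obtain ⟨a, ha⟩ := hch.Z_sub z hz
          obtain ⟨g, hg⟩ := hch.coord a
          refine ⟨g, Subtype.ext ?_⟩
          change τF (φ g) - φ g = φ z
          rw [hg, ha]) (by
          intro g
          obtain ⟨y, hy, hy2⟩ := hch.H4 g
          exact ⟨y, hy, Subtype.ext hy2⟩)
      refine ⟨y, y.2, fun h0 => hy1 (Subtype.ext h0), fun z hz => ?_⟩
      obtain ⟨c, hc⟩ := hy2 ⟨z, hz⟩
      exact ⟨c, c.2, congrArg Subtype.val hc⟩
    · intro h0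
      rw [← hch.ϖ_eq, h0, map_zero] at hu0
      exact hu0 rfl
    · rw [IsLocalRing.mem_maximalIdeal, mem_nonunits_iff, ← hunitD]
      rintro ⟨w, hw, h1⟩
      rw [hφD, hch.ϖ_eq] at h1
      exact hϖD w hw h1
    · intro z hz
      rw [IsLocalRing.mem_maximalIdeal, mem_nonunits_iff, ← hunitD]
      rintro ⟨w, hw, h1⟩
      obtain ⟨a, ha⟩ := hch.Z_sub z hz
      rw [hφD, ha] at h1
      exact hΔn a w hw h1
    · intro j hj1 hj2
      have hj : j ∈ Finset.Icc 1 r := Finset.mem_Icc.mpr ⟨hj1, hj2⟩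
      have hb0 := hβ0 j hj
      refine ⟨?_, hbG1 j hj, ?_, ?_⟩
      · intro h0
        have h1 := congrArg Subtype.val h0
        change φ (bG j) = 0 at h1
        rw [hbG2 j hj, div_eq_zero_iff] at h1
        rcases h1 with h1 | h1
        · exact hb0 h1
        · exact (mul_ne_zero hxk0 hxk0) h1
      · refine ⟨⟨_, hratio j hj (ϖ ^ j * (x k * x k)) ⟨k, k, Or.inl rfl⟩⟩, Subtype.ext ?_⟩
        change (φ ϖG) ^ j = φ (bG j) * (ι (ϖ ^ j * (x k * x k)) / ι (β j))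
        rw [hbG2 j hj, hch.ϖ_eq, map_mul, map_mul, map_pow]
        field_simp
      · intro z hz
        obtain ⟨a, ha⟩ := hch.Z_sub z hz
        refine ⟨⟨_, hratio j hj (uEl x τ k a) ⟨k, a, Or.inr rfl⟩⟩, Subtype.ext ?_⟩
        change φ z = φ (bG j) * (ι (uEl x τ k a) / ι (β j))
        rw [hbG2 j hj, ha, hΔ]
        field_simp
    · intro R' hdom hRφ hRJ
      refine hgenD k hkT hkQ R' hdom ?_ ?_ ?_
      · intro c hc
        obtain ⟨g, hg⟩ := hch.lam c hc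
        have : (⟨ι c, hΛD c hc⟩ : D) = φD g := Subtype.ext hg.symm
        rw [this]
        exact hRφ g
      · intro a
        obtain ⟨g, hg⟩ := hch.coord a
        exact ⟨φD g, hRφ g, hg⟩
      · intro j hj b hb
        obtain ⟨y, hy, hy2⟩ := hBG j b hb
        refine ⟨⟨_, hratio j hj b hb⟩, ?_, rfl⟩
        rw [Finset.mem_Icc] at hj
        refine hRJ j hj.1 hj.2 y hy _ (Subtype.ext ?_)
        have hj' : j ∈ Finset.Icc 1 r := Finset.mem_Icc.mpr hj
        have hb0 := hβ0 j hj'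
        change φ (bG j) * (ι b / ι (β j)) = φ y
        rw [hbG2 j hj', hy2]
        field_simp
  · -- the unramified chart
    obtain ⟨hxi0, hβ0⟩ := OrderHyp.chart_ne_zero ι hι Q hf hfQ
    have hcoord : ∀ k, ι (x k) / ι (x i) ∈ D := fun k => hD ▸ h.coord_mem ι hι Q hβ hf hfQ k
    have hratio : ∀ j ∈ Finset.Icc 1 r, ∀ b ∈ BSet x τ ϖ j, ι b / ι (β j) ∈ D := fun j hj b hb =>
      hD ▸ h.ratio_mem ι hι Q hβ hf hfQ hj hb
    obtain ⟨G, _, φ, hch⟩ := hC i D hlocD hΛD hxi0 hcoord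
    let φD : G →+* D := φ.codRestrict D hch.mem
    have hφD : ∀ g, ((φD g : D) : F) = φ g := fun _ => rfl
    have hφDi : Function.Injective φD := fun a b hab => hch.inj (congrArg Subtype.val hab)
    have hreg := hch.reg
    obtain ⟨ϖG, hϖG⟩ := hch.lam ϖ h.ϖΛ
    have hBG : ∀ j, ∀ b ∈ BSet x τ ϖ j, ∃ a : G, φ a = ι b / (ι (x i) * ι (x i)) := by
      rintro j b ⟨a, c, rfl | rfl⟩
      · obtain ⟨ga, hga⟩ := hch.coord a
        obtain ⟨gc, hgc⟩ := hch.coord c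
        refine ⟨(ga * gc) * ϖG ^ j, ?_⟩
        rw [map_mul, map_mul, map_pow, hga, hgc, hϖG, map_mul, map_mul, map_pow]
        field_simp
      · obtain ⟨a', ha'⟩ := hstar a
        obtain ⟨c', hc'⟩ := hstar c
        obtain ⟨ga, hga⟩ := hch.coord a
        obtain ⟨gc, hgc⟩ := hch.coord c
        obtain ⟨ga', hga'⟩ := hch.coord a'
        obtain ⟨gc', hgc'⟩ := hch.coord c'
        refine ⟨ga * gc' - gc * ga', ?_⟩
        rw [map_sub, map_mul, map_mul, hga, hgc, hga', hgc', uEl, ha', hc', map_sub, map_mul,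
          map_mul]
        field_simp
    choose! bG hbG2 using fun j (hj : j ∈ Finset.Icc 1 r) => hBG j (β j) (hβ j hj)
    -- the case distinction
    have hcase' : r = 0 ∨ (1 ≤ r ∧ ∃ w ∈ D, ι ϖ * w = 1) ∨
        (1 ≤ r ∧ ∃ k l, ∃ w ∈ D, ι (uEl x τ k l) / (ι (x i) * ι (x i)) * w = 1) := by
      rcases Nat.eq_zero_or_pos r with hr | hr
      · exact Or.inl hr
      · right
        by_contra hcon
        push Not at hcon
        exact hcase ⟨hr, fun w hw => hcon.1 hr w hw, fun k l w hw => hcon.2 hr k l w hw⟩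
    have hbunit : ∀ j ∈ Finset.Icc 1 r, IsUnit (φD (bG j)) := by
      intro j hj
      have hb0 := hβ0 j hj
      rw [← hunitD]
      rcases hcase' with h1 | ⟨-, w, hw, h1⟩ | ⟨-, k, l, w, hw, h1⟩
      · rw [Finset.mem_Icc] at hj
        omega
      · refine ⟨w ^ j * (ι (ϖ ^ j * (x i * x i)) / ι (β j)), D.mul_mem (D.pow_mem hw j)
          (hratio j hj _ ⟨i, i, Or.inl rfl⟩), ?_⟩
        rw [hφD, hbG2 j hj, map_mul, map_mul, map_pow]
        have h2 : ι ϖ ^ j * w ^ j = 1 := by rw [← mul_pow, h1, one_pow]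
        field_simp
        linear_combination h2
      · refine ⟨w * (ι (uEl x τ k l) / ι (β j)), D.mul_mem hw
          (hratio j hj _ ⟨k, l, Or.inr rfl⟩), ?_⟩
        rw [hφD, hbG2 j hj]
        field_simp at h1 ⊢
        linear_combination h1
    have hregD : IsRegularLocalRing D := by
      refine isRegularLocalRing_of_units φD hφDi (fun _ => Set.univ) (r := r) bG
        (fun j h1 h2 => hbunit j (Finset.mem_Icc.mpr ⟨h1, h2⟩)) ?_
      intro R' hdom hRφ hRJ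
      refine hgenD i hf hfQ R' hdom ?_ ?_ ?_
      · intro c hc
        obtain ⟨g, hg⟩ := hch.lam c hc
        have : (⟨ι c, hΛD c hc⟩ : D) = φD g := Subtype.ext hg.symm
        rw [this]
        exact hRφ g
      · intro a
        obtain ⟨g, hg⟩ := hch.coord a
        exact ⟨φD g, hRφ g, hg⟩
      · intro j hj b hb
        obtain ⟨y, hy2⟩ := hBG j b hb
        refine ⟨⟨_, hratio j hj b hb⟩, ?_, rfl⟩
        have hj' := hj
        rw [Finset.mem_Icc] at hj
        refine hRJ j hj.1 hj.2 y (Set.mem_univ _) _ (Subtype.ext ?_)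
        have hb0 := hβ0 j hj'
        change φ (bG j) * (ι b / ι (β j)) = φ y
        rw [hbG2 j hj', hy2]
        field_simp
    subst hD
    refine ⟨hregD, fun hτD => ?_⟩
    rcases hΛ with ⟨hr0, c, hc, d, hd, hcd⟩ | ⟨hr1, ε, hε, ε', hε', e, he, h1, h2, h3⟩
    · refine principal_of_unit τF hτD (hΛD c hc) (hΛD d hd) ?_
      rw [hτF, ← map_sub, ← map_mul, hcd, map_one]
    · rcases hcase' with h4 | ⟨-, w, hw, h4⟩ | ⟨-, k, l, w, hw, h4⟩
      · omega
      · refine principal_of_unit τF hτD (hΛD ϖ h.ϖΛ) ((homLoc ℳ ι T Q).mul_mem (hΛD ε' hε')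
          ((homLoc ℳ ι T Q).pow_mem hw r)) ?_
        rw [hτF, ← map_sub, h1, map_mul, map_pow]
        have h5 : ι ε * ι ε' = 1 := by rw [← map_mul, h2, map_one]
        have h6 : ι ϖ ^ r * w ^ r = 1 := by rw [← mul_pow, h4, one_pow]
        linear_combination (ι ϖ ^ r * w ^ r) * h5 + h6
      · -- one of the two differences is a unit
        obtain ⟨i', hi'⟩ := hstar i
        have hxi'0 : ι (x i') ≠ 0 := by
          rw [← hi', ← hτF]
          exact (map_ne_zero τF).mpr hxi0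
        obtain ⟨u, hu⟩ : ∃ u : F, u = ι (x i') / ι (x i) *
          (ι (x k) / ι (x i) * (τF (ι (x l) / ι (x i)) - ι (x l) / ι (x i))) := ⟨_, rfl⟩
        obtain ⟨v, hv⟩ : ∃ v : F, v = ι (x i') / ι (x i) *
          (ι (x l) / ι (x i) * (τF (ι (x k) / ι (x i)) - ι (x k) / ι (x i))) := ⟨_, rfl⟩
        have huD : u ∈ homLoc ℳ ι T Q := by
          rw [hu]
          exact Subring.mul_mem _ (hcoord i') (Subring.mul_mem _ (hcoord k)
            (Subring.sub_mem _ (hτD _ (hcoord l)) (hcoord l)))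
        have hvD : v ∈ homLoc ℳ ι T Q := by
          rw [hv]
          exact Subring.mul_mem _ (hcoord i') (Subring.mul_mem _ (hcoord l)
            (Subring.sub_mem _ (hτD _ (hcoord k)) (hcoord k)))
        have huv : u - v = ι (uEl x τ k l) / (ι (x i) * ι (x i)) := by
          rw [hu, hv, map_div₀, map_div₀, hτF, hτF, hτF, hi', uEl, map_sub, map_mul, map_mul]
          field_simp
          ring
        have huvu : (u - v) * w = 1 := by rw [huv]; exact h4
        have hor : IsUnit (⟨u, huD⟩ : homLoc ℳ ι T Q) ∨ IsUnit (⟨v, hvD⟩ : homLoc ℳ ι T Q) := by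
          by_contra hcon
          push Not at hcon
          have h5 := Ideal.sub_mem (maximalIdeal (homLoc ℳ ι T Q))
            ((IsLocalRing.mem_maximalIdeal _).mpr hcon.1)
            ((IsLocalRing.mem_maximalIdeal _).mpr hcon.2)
          rw [IsLocalRing.mem_maximalIdeal, mem_nonunits_iff, ← hunitD] at h5
          exact h5 ⟨w, hw, huvu⟩
        rcases hor with h5 | h5
        · obtain ⟨w', hw', h6⟩ := (hunitD _).mpr h5
          refine principal_of_unit τF hτD (hcoord l) (w := ι (x i') / ι (x i) *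
            (ι (x k) / ι (x i)) * w') (Subring.mul_mem _ (Subring.mul_mem _ (hcoord i')
              (hcoord k)) hw') ?_
          change u * w' = 1 at h6
          rw [← h6, hu]
          ring
        · obtain ⟨w', hw', h6⟩ := (hunitD _).mpr h5
          refine principal_of_unit τF hτD (hcoord k) (w := ι (x i') / ι (x i) *
            (ι (x l) / ι (x i)) * w') (Subring.mul_mem _ (Subring.mul_mem _ (hcoord i')
              (hcoord l)) hw') ?_
          change v * w' = 1 at h6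
          rw [← h6, hv]
          ring

end Main

end Pool.Agent.Lib.MP_6a3dac_ag
end
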