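import Pool.Agent.Lib.MP_6a3dac_ag.DNF.Dehom
import Pool.Agent.Lib.MP_6a3dac_ag.DNF.LocalD
import Pool.Agent.Lib.MP_6a3dac_ag.Mg.G003
import Pool.Agent.Lib.MP_6a3dac_ag.Mg.G002
import Pool.Agent.Lib.MP_6a3dac_ag.QuadricModel
import Pool.Agent.Lib.MP_6a3dac_ag.Mg.G005

section

/-!
# The local rings of the blow-up of a hypersurface
-/

set_option autoImplicit false
set_option linter.unusedSectionVars false

namespace Pool.Agent.Lib.MP_6a3dac_ag.DNF

open MvPolynomial IsLocalRing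

section Data

variable {K A O : Type} [Field K] [CommRing A] [Algebra K A] [CommRing O] (𝒜 : ℕ → Submodule K A)
  {n : ℕ} (π : MvPolynomial (Fin (n + 1)) O →+* A) (f : MvPolynomial (Fin (n + 1)) O) (d : ℕ)

/-- The homogeneous coordinate ring of a hypersurface. -/
structure HypData : Prop where
  deg : ∀ q e, q.IsHomogeneous e → π q ∈ 𝒜 e
  hf : f.IsHomogeneous d
  zero : π f = 0
  ker : ∀ g, π g = 0 → ∃ m : O, m ≠ 0 ∧ ∃ q, C m * g = f * q

/-- The generators of the `j`-th ideal. -/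
def bset (ϖ : A) (j : ℕ) : Set A :=
  {b | (∃ k, b = ϖ ^ j * π (X k) ^ (d - 1)) ∨ ∃ l, b = π (pderiv l f)}

theorem finite_bset (ϖ : A) (j : ℕ) : (bset π f d ϖ j).Finite := by
  refine ((Set.finite_range fun k => ϖ ^ j * π (X k) ^ (d - 1)).union
    (Set.finite_range fun l => π (pderiv l f))).subset ?_
  rintro b (⟨k, rfl⟩ | ⟨l, rfl⟩)
  · exact Or.inl ⟨k, rfl⟩
  · exact Or.inr ⟨l, rfl⟩

end Data

section

variable {R K A O : Type} [CommRing R] [Field K] [Algebra R K] [CommRing A] [IsDomain A]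
  [Algebra K A] [Algebra R A] [IsScalarTower R K A] {𝒜 : ℕ → Submodule K A} [GradedAlgebra 𝒜]
  [CommRing O] [IsDomain O] [IsDiscreteValuationRing O] [Algebra R O] [Algebra O K]
  [IsScalarTower R O K] (hOK : Function.Injective (algebraMap O K))
  (P : Ideal R) [P.IsPrime] [IsLocalization.AtPrime O P] {n : ℕ}
  {π : MvPolynomial (Fin (n + 1)) O →+* A} {f : MvPolynomial (Fin (n + 1)) O} {d : ℕ}
  (h : HypData 𝒜 π f d) (hπC : ∀ c, π (C c) = algebraMap K A (algebraMap O K c)) (hd : 2 ≤ d)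
include h hπC hd

variable (K A O) in
/-- The embedding of the local ring. -/
def oA : O →+* A := (algebraMap K A).comp (algebraMap O K)

omit [IsDomain A] [IsDomain O] [IsDiscreteValuationRing O] [IsScalarTower R K A] [Algebra R A]
  [GradedAlgebra 𝒜] h hπC hd in
theorem oA_algebraMap [Algebra R A] [IsScalarTower R K A] (a : R) :
    oA K A O (algebraMap R O a) = algebraMap R A a := by
  rw [oA, RingHom.comp_apply, ← IsScalarTower.algebraMap_apply R O K,
    ← IsScalarTower.algebraMap_apply R K A]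

omit h hπC hd in
include P in
theorem exists_smul_oA (c : O) : ∃ s : R, s ∉ P ∧ ∃ a : R,
    s • oA K A O c = algebraMap R A a := by
  obtain ⟨a, s, hs⟩ := IsLocalization.exists_mk'_eq P.primeCompl c
  refine ⟨s, s.2, a, ?_⟩
  rw [Algebra.smul_def, ← oA_algebraMap (K := K) (O := O), ← map_mul, ← hs,
    IsLocalization.mk'_spec', oA_algebraMap]

theorem HypData.orderHyp (ϖ : O) (r : ℕ) :
    OrderHyp 𝒜 (fun k => π (X k)) (bset π f d (oA K A O ϖ)) (d - 1) (oA K A O ϖ)
      (oA K A O).range r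
      (locSub P (Algebra.adjoin R (WSet (fun k => π (X k)) (bset π f d (oA K A O ϖ)) r ∪
        W1Set (fun k => π (X k)) (oA K A O ϖ) r))) := by
  have hdeg0 : ∀ c : O, oA K A O c ∈ 𝒜 0 := fun c => SetLike.algebraMap_mem_graded 𝒜 _
  have hpow : ∀ j, (oA K A O ϖ) ^ j ∈ 𝒜 0 := fun j => by
    simpa using SetLike.pow_mem_graded j (hdeg0 ϖ)
  have hx : ∀ k, π (X k) ∈ 𝒜 1 := fun k => h.deg _ _ (isHomogeneous_X O k)
  have hB : ∀ j, ∀ b ∈ bset π f d (oA K A O ϖ) j, b ∈ 𝒜 (d - 1) := by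
    rintro j b (⟨k, rfl⟩ | ⟨l, rfl⟩)
    · have h1 := SetLike.mul_mem_graded (hpow j) (SetLike.pow_mem_graded (d - 1) (hx k))
      simpa using h1
    · exact h.deg _ _ h.hf.pderiv
  have hadj : IsHomog 𝒜 (Algebra.adjoin R (WSet (fun k => π (X k))
      (bset π f d (oA K A O ϖ)) r ∪ W1Set (fun k => π (X k)) (oA K A O ϖ) r)) := by
    apply isHomog_adjoin 𝒜
    rintro w (⟨i, q, ⟨β, hβ, rfl⟩, rfl⟩ | ⟨i, rfl⟩)
    · exact ⟨1 + ∑ j ∈ Finset.Icc 1 r, (d - 1), SetLike.mul_mem_graded (hx i)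
        (SetLike.prod_mem_graded (A := 𝒜) (fun _ => d - 1) _ fun j hj => hB j _ (hβ j hj))⟩
    · exact ⟨(∑ j ∈ Finset.Icc 1 r, 0) + 1, SetLike.mul_mem_graded
        (SetLike.prod_mem_graded (A := 𝒜) (fun _ => 0) _ fun j _ => hpow j) (hx i)⟩
  exact
    { xdeg := hx
      δpos := by omega
      B_deg := hB
      B_pow := fun j k => Or.inl ⟨k, rfl⟩
      Λdeg := by
        rintro _ ⟨c, rfl⟩
        exact hdeg0 c
      ϖΛ := ⟨ϖ, rfl⟩
      hom := isHomog_locSub 𝒜 P hadj
      Λ_le := by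
        rintro _ ⟨c, rfl⟩
        obtain ⟨s, hs, a, ha⟩ := exists_smul_oA (K := K) (A := A) P c
        refine ⟨s, hs, ?_⟩
        rw [ha]
        exact Subalgebra.algebraMap_mem _ a
      W_le := fun c hc => le_locSub _ _ (Algebra.subset_adjoin (Or.inl hc))
      W1_le := fun c hc => le_locSub _ _ (Algebra.subset_adjoin (Or.inr hc))
      gen := by
        intro N hN1 hN2 hN3 t ht
        obtain ⟨a, ha, hat⟩ := ht
        have hadjN : ∀ m ∈ Algebra.adjoin R (WSet (fun k => π (X k))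
            (bset π f d (oA K A O ϖ)) r ∪ W1Set (fun k => π (X k)) (oA K A O ϖ) r), m ∈ N := by
          intro m hm
          induction hm using Algebra.adjoin_induction with
          | mem m hm =>
            rcases hm with hm | hm
            · exact hN2 _ hm
            · exact hN3 _ hm
          | algebraMap a => exact hN1 _ ⟨algebraMap R O a, oA_algebraMap a⟩
          | add a b _ _ ha hb => exact N.add_mem ha hb
          | mul a b _ _ ha hb => exact N.mul_mem ha hb
        obtain ⟨b, hb⟩ := (IsLocalization.map_units O (⟨a, ha⟩ : P.primeCompl)).exists_right_inv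
        have hab : algebraMap R A a * oA K A O b = 1 := by
          rw [← oA_algebraMap (K := K) (O := O), ← map_mul, hb, map_one]
        have h1 : t = oA K A O b * (a • t) := by
          rw [Algebra.smul_def, ← mul_assoc, mul_comm (oA K A O b), hab, one_mul]
        rw [h1]
        exact N.mul_mem (hN1 _ ⟨b, rfl⟩) (hadjN _ hat) }

include hOK in
/-- **The local rings are regular.** -/
theorem HypData.main {F : Type} [Field F] (ι : A →+* F) (hι : Function.Injective ι)
    {ϖ : O} (hϖ : Irreducible ϖ) (r : ℕ) {T : Subalgebra R A}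
    (hT : T = locSub P (Algebra.adjoin R (WSet (fun k => π (X k))
        (bset π f d (oA K A O ϖ)) r ∪ W1Set (fun k => π (X k)) (oA K A O ϖ) r)))
    (hsing : r = 0 ∨ (IsUnit (2 : O) ∧ ∀ i, NondegAt ϖ (dehom i f)))
    (hr : ∀ i, ∃ (c₀ : MvPolynomial {l : Fin (n + 1) // l ≠ i} O)
      (c : {l : Fin (n + 1) // l ≠ i} → MvPolynomial {l : Fin (n + 1) // l ≠ i} O),
      C ϖ ^ r = c₀ * dehom i f + ∑ l, c l * pderiv l (dehom i f))
    (Q : Ideal T) (hQ : Q.IsPrime)
    (hrel : ∃ k, 0 < k ∧ ∃ t : T, (t : A) ∈ 𝒜 k ∧ t ∉ Q) :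
    IsRegularLocalRing (homLoc 𝒜 ι T Q) := by
  classical
  have hO : OrderHyp 𝒜 (fun k => π (X k)) (bset π f d (oA K A O ϖ)) (d - 1) (oA K A O ϖ)
      (oA K A O).range r T := by
    rw [hT]; exact h.orderHyp P hπC hd ϖ r
  obtain ⟨i, β, hβ, hf, hfQ⟩ := hO.exists_notMem Q hrel
  have hloc := isLocalRing_homLoc 𝒜 ι T Q hι
  obtain ⟨D, hD⟩ : ∃ D, D = homLoc 𝒜 ι T Q := ⟨_, rfl⟩
  have hlocD : IsLocalRing D := hD ▸ hloc
  have hΛD : ∀ c : O, ι (oA K A O c) ∈ D := fun c =>
    hD ▸ hO.const_mem ι hι Q hβ hf hfQ ⟨c, rfl⟩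
  obtain ⟨hx0, hβ0⟩ := OrderHyp.chart_ne_zero (x := fun k => π (X k)) ι hι Q hf hfQ
  change ι (π (X i)) ≠ 0 at hx0
  have hcoord : ∀ k, ι (π (X k)) / ι (π (X i)) ∈ D := fun k =>
    hD ▸ hO.coord_mem ι hι Q hβ hf hfQ k
  have hratio : ∀ j ∈ Finset.Icc 1 r, ∀ b ∈ bset π f d (oA K A O ϖ) j, ι b / ι (β j) ∈ D :=
    fun j hj b hb => hD ▸ hO.ratio_mem ι hι Q hβ hf hfQ hj hb
  -- characteristic zero
  have hchar : ∀ a : O, a ≠ 0 → ι (oA K A O a) ≠ 0 := by
    intro a ha h0
    have h2 : oA K A O a = 0 := hι (by rw [h0, map_zero])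
    rw [oA, RingHom.comp_apply, map_eq_zero] at h2
    exact ha (hOK (by rw [h2, map_zero]))
  -- the evaluation maps
  let oD : O →+* D := (ι.comp (oA K A O)).codRestrict D fun c => hΛD c
  let ψ : MvPolynomial (Fin (n + 1)) O →+* F := eval₂Hom (ι.comp (oA K A O))
    fun k => ι (π (X k)) / ι (π (X i))
  let φ : MvPolynomial {l : Fin (n + 1) // l ≠ i} O →+* D := eval₂Hom oD
    fun l => ⟨ι (π (X l.1)) / ι (π (X i)), hcoord l.1⟩
  have hφC : ∀ c : O, ((φ (C c) : D) : F) = ι (oA K A O c) := by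
    intro c
    simp only [φ, coe_eval₂Hom, eval₂_C]
    rfl
  have hφψ : ∀ q, ((φ (dehom i q) : D) : F) = ψ q := by
    intro q
    have h1 : (D.subtype.comp φ).comp (dehom i : _ →ₐ[O] _).toRingHom = ψ := by
      apply MvPolynomial.ringHom_ext
      · intro a
        change D.subtype (φ (dehom i (C a))) = ψ (C a)
        rw [dehom_C]
        change ((φ (C a) : D) : F) = _
        rw [hφC]
        simp only [ψ, coe_eval₂Hom, eval₂_C]
        rfl
      · intro k
        change D.subtype (φ (dehom i (X k))) = ψ (X k)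
        by_cases hk : k = i
        · subst hk
          rw [dehom_X_self, map_one, map_one]
          simp only [ψ, coe_eval₂Hom, eval₂_X]
          rw [div_self hx0]
        · rw [show k = (⟨k, hk⟩ : {l : Fin (n + 1) // l ≠ i}).1 from rfl, dehom_X]
          simp only [φ, ψ, coe_eval₂Hom, eval₂_X]
          rfl
    exact congrArg (fun g : MvPolynomial (Fin (n + 1)) O →+* F => g q) h1
  have hψhom : ∀ (e : ℕ) (q : MvPolynomial (Fin (n + 1)) O), q.IsHomogeneous e →
      ι (π q) = ι (π (X i)) ^ e * ψ q := by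
    intro e q hq
    have h1 : ι (π q) = eval₂ (ι.comp (oA K A O)) (fun k => ι (π (X k))) q := by
      have h2 : ι.comp π = eval₂Hom (ι.comp (oA K A O)) (fun k => ι (π (X k))) := by
        apply MvPolynomial.ringHom_ext
        · intro a
          simp only [RingHom.comp_apply, coe_eval₂Hom, eval₂_C]
          rw [hπC]
          rfl
        · intro k
          simp only [RingHom.comp_apply, coe_eval₂Hom, eval₂_X]
      exact congrArg (fun g : MvPolynomial (Fin (n + 1)) O →+* F => g q) h2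
    rw [h1]
    change _ = ι (π (X i)) ^ e * eval₂ (ι.comp (oA K A O))
      (fun k => ι (π (X k)) / ι (π (X i))) q
    rw [eval₂_eq, eval₂_eq, Finset.mul_sum]
    refine Finset.sum_congr rfl fun s hs => ?_
    have h3 : s.degree = e := by
      have := hq (mem_support_iff.mp hs)
      rw [← this, Finsupp.degree_eq_weight_one]
      rfl
    have h4 : ∏ k ∈ s.support, (ι (π (X k)) / ι (π (X i))) ^ s k =
        (∏ k ∈ s.support, ι (π (X k)) ^ s k) / ι (π (X i)) ^ e := by
      rw [← h3, Finsupp.degree_apply, ← Finset.prod_pow_eq_pow_sum, ← Finset.prod_div_distrib]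
      refine Finset.prod_congr rfl fun k _ => ?_
      rw [div_pow]
    rw [h4]
    field_simp
  have hφf : φ (dehom i f) = 0 := by
    apply Subtype.ext
    rw [hφψ]
    have h1 := hψhom d f h.hf
    rw [h.zero, map_zero] at h1
    exact (mul_eq_zero.mp h1.symm).resolve_left (pow_ne_zero _ hx0)
  have hker : ∀ g, φ g = 0 → ∃ m : O, m ≠ 0 ∧ ∃ q, C m * g = dehom i f * q := by
    intro g hg
    obtain ⟨N, G, hG, rfl⟩ := exists_homog i g
    have h1 := hψhom N G hG
    rw [← hφψ, hg] at h1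
    have h2 : π G = 0 := by
      apply hι
      rw [h1, map_zero]
      exact mul_zero _
    obtain ⟨m, hm, q, hq⟩ := h.ker G h2
    refine ⟨m, hm, dehom i q, ?_⟩
    rw [← dehom_C i, ← map_mul, hq, map_mul]
  have hpD : ((φ (C ϖ) : D) : F) = ι (oA K A O ϖ) := hφC ϖ
  -- the ideal
  obtain ⟨Z, hZ⟩ : ∃ Z : Finset D, Z = Finset.univ.image fun l => φ (pderiv l (dehom i f)) :=
    ⟨_, rfl⟩
  have hZmem : ∀ z, z ∈ Z ↔ ∃ l, φ (pderiv l (dehom i f)) = z := by
    intro z
    rw [hZ]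
    simp
  have hφloc : ∀ g, φ g ∈ locIn φ := map_mem_locIn φ
  have hB : ∀ j, ∀ b ∈ bset π f d (oA K A O ϖ) j, ∃ y : D,
      (y : F) = ι b / ι (π (X i)) ^ (d - 1) ∧ InJ (locIn φ) (φ (C ϖ)) Z j y := by
    rintro j b (⟨k, rfl⟩ | ⟨l, rfl⟩)
    · refine ⟨φ (dehom i (X k)) ^ (d - 1) * (φ (C ϖ)) ^ j, ?_,
        (inJ_pow _ _ _ _).mono_subset _ (Subring.pow_mem _ (hφloc _) _)⟩
      rw [Subring.coe_mul, Subring.coe_pow, Subring.coe_pow, hφψ, hpD, map_mul, map_pow, map_pow]
      simp only [ψ, coe_eval₂Hom, eval₂_X]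
      rw [div_pow]
      ring
    · refine ⟨φ (dehom i (pderiv l f)), ?_, ?_⟩
      · rw [hφψ, hψhom (d - 1) _ h.hf.pderiv]
        field_simp
      · by_cases hl : l = i
        · subst hl
          rw [euler_dehom l h.hf, map_sub, map_mul, hφf, mul_zero, zero_sub, map_sum,
            ← Finset.sum_neg_distrib]
          have key : ∀ s : Finset {k : Fin (n + 1) // k ≠ l},
              InJ (locIn φ) (φ (C ϖ)) Z j (∑ k ∈ s, -φ (X k * pderiv k (dehom l f))) := by
            intro s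
            induction s using Finset.induction_on with
            | empty =>
              rw [Finset.sum_empty]
              exact ⟨0, Subring.zero_mem _, fun _ => 0, fun _ _ => Subring.zero_mem _, by simp⟩
            | insert a s ha ih =>
              rw [Finset.sum_insert ha]
              refine InJ.add ?_ ih
              rw [map_mul, ← neg_mul]
              exact (inJ_of_mem _ _ _ ((hZmem _).mpr ⟨a, rfl⟩)).mono_subset _
                (Subring.neg_mem _ (hφloc _))
          exact key Finset.univ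
        · rw [← pderiv_dehom i ⟨l, hl⟩]
          exact inJ_of_mem _ _ _ ((hZmem _).mpr ⟨_, rfl⟩)
  choose! bG hbG1 hbG2 using fun j (hj : j ∈ Finset.Icc 1 r) => hB j (β j) (hβ j hj)
  have hx1 : ι (π (X i)) ^ (d - 1) ≠ 0 := pow_ne_zero _ hx0
  subst hD
  obtain ⟨c₀, c, hc⟩ := hr i
  refine isRegularLocalRing_local φ (F := dehom i f) hϖ hφf hker ?_ (r := r)
    (hsing.imp id fun h1 => ⟨h1.1, h1.2 i⟩) hc hZmem bG ?_ ?_
  · intro a ha h0
    apply hchar a ha
    have := congrArg (fun z : homLoc 𝒜 ι T Q => (z : F)) h0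
    rw [← hφC]
    exact this
  · intro j hj1 hj2
    have hj : j ∈ Finset.Icc 1 r := Finset.mem_Icc.mpr ⟨hj1, hj2⟩
    have hb0 := hβ0 j hj
    refine ⟨?_, hbG2 j hj, ?_, ?_⟩
    · intro h0
      have h1 := congrArg (fun z : homLoc 𝒜 ι T Q => (z : F)) h0
      change (bG j : F) = 0 at h1
      rw [hbG1 j hj, div_eq_zero_iff] at h1
      rcases h1 with h1 | h1
      · exact hb0 h1
      · exact hx1 h1
    · refine ⟨⟨_, hratio j hj ((oA K A O ϖ) ^ j * π (X i) ^ (d - 1)) (Or.inl ⟨i, rfl⟩)⟩,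
        Subtype.ext ?_⟩
      have e : ι ((oA K A O ϖ) ^ j * π (X i) ^ (d - 1)) =
          ι (oA K A O ϖ) ^ j * ι (π (X i)) ^ (d - 1) := by
        rw [map_mul, map_pow, map_pow]
      rw [Subring.coe_mul, Subring.coe_pow, hpD, hbG1 j hj]
      change ι (oA K A O ϖ) ^ j = ι (β j) / ι (π (X i)) ^ (d - 1) *
        (ι ((oA K A O ϖ) ^ j * π (X i) ^ (d - 1)) / ι (β j))
      rw [e]
      field_simp
    · intro z hz
      obtain ⟨l, rfl⟩ := (hZmem z).mp hz
      refine ⟨⟨_, hratio j hj (π (pderiv l.1 f)) (Or.inr ⟨l.1, rfl⟩)⟩, Subtype.ext ?_⟩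
      have e := hψhom (d - 1) _ (h.hf.pderiv (i := l.1))
      rw [Subring.coe_mul, hbG1 j hj, pderiv_dehom, hφψ]
      change ψ (pderiv l.1 f) = ι (β j) / ι (π (X i)) ^ (d - 1) *
        (ι (π (pderiv l.1 f)) / ι (β j))
      rw [e]
      field_simp
  · intro R' hdom hRle hRJ
    rw [eq_top_iff]
    rintro ⟨z, hz⟩ -
    have h4 := hO.eq_top ι hι Q hβ hf hfQ (R'.map (homLoc 𝒜 ι T Q).subtype) ?_ ?_ ?_ ?_ ?_ z hz
    · obtain ⟨w, hw, hwz⟩ := h4
      have : w = ⟨z, hz⟩ := Subtype.ext hwz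
      rwa [← this]
    · rintro _ ⟨w, -, rfl⟩
      exact w.2
    · rintro _ ⟨a, ha, rfl⟩ b hb hab
      exact ⟨⟨b, hb⟩, hdom a ha ⟨b, hb⟩ (Subtype.ext hab), rfl⟩
    · rintro _ ⟨c, rfl⟩
      refine ⟨φ (C c), hRle (hφloc _), ?_⟩
      exact hφC c
    · intro k
      refine ⟨φ (dehom i (X k)), hRle (hφloc _), ?_⟩
      change ((φ (dehom i (X k)) : homLoc 𝒜 ι T Q) : F) = _
      rw [hφψ]
      simp only [ψ, coe_eval₂Hom, eval₂_X]
    · intro j hj b hb
      obtain ⟨y, hy1, hy2⟩ := hB j b hb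
      refine ⟨⟨_, hratio j hj b hb⟩, ?_, rfl⟩
      have hj' := Finset.mem_Icc.mp hj
      refine hRJ j hj'.1 hj'.2 y hy2 _ (Subtype.ext ?_)
      have hb0 := hβ0 j hj
      rw [Subring.coe_mul, hbG1 j hj, hy1]
      change ι (β j) / ι (π (X i)) ^ (d - 1) * (ι b / ι (β j)) = _
      field_simp

end

end Pool.Agent.Lib.MP_6a3dac_ag.DNF
end

section

/-!
# Regular models of hypersurfaces with nondegenerate double points over a Dedekind domain
-/

set_option autoImplicit false
set_option linter.unusedSectionVars false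

namespace Pool.Agent.Lib.MP_6a3dac_ag.DNF

open MvPolynomial IsLocalRing IsDedekindDomain CategoryTheory Limits AlgebraicGeometry

section

variable {M I : Type} [CommRing M] {x : I → M} {B : ℕ → Set M} {ϖ : M}

theorem WSet_zero : WSet x B 0 = Set.range x := by
  ext w
  constructor
  · rintro ⟨i, q, ⟨β, -, rfl⟩, rfl⟩
    exact ⟨i, by simp⟩
  · rintro ⟨i, rfl⟩
    exact ⟨i, 1, ⟨fun _ => 0, by simp, by simp⟩, by simp⟩

theorem W1Set_zero : W1Set x ϖ 0 = Set.range x := by
  ext w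
  constructor
  · rintro ⟨i, rfl⟩
    exact ⟨i, by simp⟩
  · rintro ⟨i, rfl⟩
    exact ⟨i, by simp⟩

end

/-- Clearing the denominators of a polynomial. -/
theorem exists_clear_frac {S K σ : Type} [CommRing S] [IsDomain S] [Field K] [Algebra S K]
    [IsFractionRing S K] (q : MvPolynomial σ K) : ∃ (m : S) (Q : MvPolynomial σ S),
    m ≠ 0 ∧ map (algebraMap S K) Q = C (algebraMap S K m) * q := by
  induction q using MvPolynomial.induction_on with
  | C a =>
    obtain ⟨x, y, hy, rfl⟩ := IsFractionRing.div_surjective (A := S) a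
    have hy0 : algebraMap S K y ≠ 0 := by
      rw [Ne, FaithfulSMul.algebraMap_eq_zero_iff]
      exact nonZeroDivisors.ne_zero hy
    refine ⟨y, C x, nonZeroDivisors.ne_zero hy, ?_⟩
    rw [map_C, ← C_mul, mul_div_cancel₀ _ hy0]
  | add a b ha hb =>
    obtain ⟨m, Q, hm, hQ⟩ := ha
    obtain ⟨m', Q', hm', hQ'⟩ := hb
    refine ⟨m * m', C m' * Q + C m * Q', mul_ne_zero hm hm', ?_⟩
    rw [map_add, map_mul, map_mul, hQ, hQ', map_C, map_C, map_mul, C_mul]
    ring
  | mul_X a k ha =>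
    obtain ⟨m, Q, hm, hQ⟩ := ha
    refine ⟨m, Q * X k, hm, ?_⟩
    rw [map_mul, hQ, map_X]
    ring

section

variable {R K A : Type} [CommRing R] [IsDedekindDomain R] [Field K] [Algebra R K]
  [IsFractionRing R K]

theorem exists_unif (P : HeightOneSpectrum R) :
    ∃ ϖ : R, Irreducible (algebraMap R (locRing K P) ϖ) := by
  obtain ⟨π₀, hπ₀⟩ := IsDiscreteValuationRing.exists_irreducible (locRing K P)
  obtain ⟨a, s, hs⟩ := IsLocalization.exists_mk'_eq P.asIdeal.primeCompl π₀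
  refine ⟨a, ?_⟩
  have hsu : IsUnit (algebraMap R (locRing K P) s) := IsLocalization.map_units _ s
  have h1 : algebraMap R (locRing K P) a = algebraMap R (locRing K P) s * π₀ := by
    rw [← hs, IsLocalization.mk'_spec']
  rw [h1]
  obtain ⟨u, hu⟩ := hsu
  rw [← hu]
  have h2 : Associated π₀ (u * π₀) := ⟨u, mul_comm _ _⟩
  exact h2.irreducible_iff.mp hπ₀

theorem exists_exponent (P : HeightOneSpectrum R) {m : R} (hm : m ≠ 0) {ϖ : locRing K P}
    (hϖ : Irreducible ϖ) : ∃ (r : ℕ) (u : locRing K P), IsUnit u ∧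
      u * algebraMap R (locRing K P) m = ϖ ^ r ∧ (m ∉ P.asIdeal → r = 0) := by
  have hm0 : algebraMap R (locRing K P) m ≠ 0 := by
    intro h0
    apply hm
    have h1 := congrArg (algebraMap (locRing K P) K) h0
    rw [← IsScalarTower.algebraMap_apply, map_zero, FaithfulSMul.algebraMap_eq_zero_iff] at h1
    exact h1
  obtain ⟨r, u, hu⟩ := IsDiscreteValuationRing.associated_pow_irreducible hm0 hϖ
  refine ⟨r, u, u.isUnit, by rw [mul_comm]; exact hu, fun hmP => ?_⟩
  by_contra hr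
  have h1 : IsUnit (algebraMap R (locRing K P) m) :=
    IsLocalization.map_units (locRing K P) (⟨m, hmP⟩ : P.asIdeal.primeCompl)
  have h2 : IsUnit (ϖ ^ r) := by rw [← hu]; exact h1.mul u.isUnit
  exact hϖ.not_isUnit ((isUnit_pow_iff hr).mp h2)

variable [CommRing A] [IsDomain A] [Algebra K A] [Algebra R A] [IsScalarTower R K A]
  {𝒜 : ℕ → Submodule K A} [GradedAlgebra 𝒜] {n : ℕ}
  (π : MvPolynomial (Fin (n + 1)) K →ₐ[K] A) {f : MvPolynomial (Fin (n + 1)) R} {d : ℕ}

/-- The map from the polynomials over a subring. -/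
noncomputable def piS (S : Type) [CommRing S] [Algebra S K] :
    MvPolynomial (Fin (n + 1)) S →+* A :=
  (π : MvPolynomial (Fin (n + 1)) K →+* A).comp (map (algebraMap S K))

theorem piS_apply (S : Type) [CommRing S] [Algebra S K] (q : MvPolynomial (Fin (n + 1)) S) :
    piS π S q = π (map (algebraMap S K) q) := rfl

theorem piS_C (S : Type) [CommRing S] [Algebra S K] (c : S) :
    piS π S (C c) = algebraMap K A (algebraMap S K c) := by
  rw [piS_apply, map_C]
  exact π.commutes _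

theorem piS_X (S : Type) [CommRing S] [Algebra S K] (k : Fin (n + 1)) :
    piS π S (X k) = π (X k) := by
  rw [piS_apply, map_X]

variable (hdeg : ∀ q e, q.IsHomogeneous e → π q ∈ 𝒜 e) (hf : f.IsHomogeneous d)
  (hzero : π (map (algebraMap R K) f) = 0) (hkerK : ∀ g, π g = 0 → map (algebraMap R K) f ∣ g)

include hdeg hf hzero hkerK in
theorem hypData_piS (S : Type) [CommRing S] [IsDomain S] [Algebra S K] [IsFractionRing S K]
    [Algebra R S] [IsScalarTower R S K] :
    HypData 𝒜 (piS π S) (map (algebraMap R S) f) d where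
  deg q e hq := hdeg _ _ (hq.map _)
  hf := hf.map _
  zero := by
    rw [piS_apply, map_map, ← IsScalarTower.algebraMap_eq]
    exact hzero
  ker g hg := by
    rw [piS_apply] at hg
    obtain ⟨q, hq⟩ := hkerK _ hg
    obtain ⟨m, Q, hm, hQ⟩ := exists_clear_frac (S := S) q
    refine ⟨m, hm, Q, ?_⟩
    apply map_injective (algebraMap S K) (FaithfulSMul.algebraMap_injective S K)
    rw [map_mul, map_mul, hQ, hq, map_C, map_map, ← IsScalarTower.algebraMap_eq]
    ring

/-- The generating sets do not depend on the ring of coefficients. -/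
theorem bset_piS (S : Type) [CommRing S] [Algebra S K] [Algebra R S] [IsScalarTower R S K]
    (ϖ : A) : bset (piS π S) (map (algebraMap R S) f) d ϖ = bset (piS π R) f d ϖ := by
  funext j
  have h1 : ∀ k, piS π S (X k) = piS π R (X k) := fun k => by rw [piS_X, piS_X]
  have h2 : ∀ l, piS π S (pderiv l (map (algebraMap R S) f)) = piS π R (pderiv l f) := fun l => by
    rw [piS_apply, piS_apply, pderiv_map, map_map, ← IsScalarTower.algebraMap_eq]
  simp only [bset, h1, h2]

variable (hgen : Algebra.adjoin K (Set.range fun k => π (X k)) = ⊤)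

include hgen in
/-- The algebra is spanned by the order. -/
theorem full_order {B : ℕ → Set A} {ϖ : R} (hϖ : ϖ ≠ 0) (r : ℕ) (a : A) : ∃ c : R, c ≠ 0 ∧
    c • a ∈ Algebra.adjoin R (WSet (fun k => π (X k)) B r ∪
        W1Set (fun k => π (X k)) (algebraMap R A ϖ) r) := by
  have hU : ∀ a : A, a ∈ locSub (⊥ : Ideal R) (Algebra.adjoin R
      (WSet (fun k => π (X k)) B r ∪ W1Set (fun k => π (X k)) (algebraMap R A ϖ) r)) := by
    intro a
    have ha : a ∈ Algebra.adjoin K (Set.range fun k => π (X k)) := by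
      rw [hgen]; exact Algebra.mem_top
    induction ha using Algebra.adjoin_induction with
    | mem m hm =>
      obtain ⟨i, rfl⟩ := hm
      refine mem_locSub_of_smul _ _ (r := ∏ j ∈ Finset.Icc 1 r, ϖ ^ j) ?_ ?_
      · rw [Ideal.mem_bot]
        exact Finset.prod_ne_zero_iff.mpr fun j _ => pow_ne_zero _ hϖ
      · refine le_locSub _ _ (Algebra.subset_adjoin (Or.inr ⟨i, ?_⟩))
        rw [Algebra.smul_def, map_prod]
        simp only [map_pow]
    | algebraMap l =>
      obtain ⟨x, y, hy, rfl⟩ := IsFractionRing.div_surjective (A := R) l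
      have hy0 : algebraMap R K y ≠ 0 := by
        rw [Ne, FaithfulSMul.algebraMap_eq_zero_iff]
        exact nonZeroDivisors.ne_zero hy
      refine mem_locSub_of_smul _ _ (r := y) ?_ ?_
      · rw [Ideal.mem_bot]
        exact nonZeroDivisors.ne_zero hy
      · have h1 : y • algebraMap K A (algebraMap R K x / algebraMap R K y) =
            algebraMap R A x := by
          rw [Algebra.smul_def, IsScalarTower.algebraMap_apply R K A y, ← map_mul,
            mul_div_cancel₀ _ hy0, ← IsScalarTower.algebraMap_apply]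
        rw [h1]
        exact Subalgebra.algebraMap_mem _ _
    | add a b _ _ ha hb => exact Subalgebra.add_mem _ ha hb
    | mul a b _ _ ha hb => exact Subalgebra.mul_mem _ ha hb
  obtain ⟨c, hc, hca⟩ := hU a
  exact ⟨c, by simpa using hc, hca⟩

include hdeg hf hzero hkerK hgen in
/-- **Regular models of hypersurfaces.** -/
theorem exists_model_hyp (hRf : ¬ IsField R) (hd : 2 ≤ d) {m : R} (hm : m ≠ 0) {N : ℕ}
    (hmN : ∀ i, C m * X i ^ N ∈ Ideal.span (insert f (Set.range fun l => pderiv l f)))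
    (hsing : ∀ P : HeightOneSpectrum R, m ∈ P.asIdeal → (2 : R) ∉ P.asIdeal ∧
      ∀ (ϖ : locRing K P), Irreducible ϖ → ∀ i,
        NondegAt ϖ (dehom i (map (algebraMap R (locRing K P)) f))) :
    ∃ (Y : Scheme.{0}) (g : Y ⟶ Spec (CommRingCat.of R)),
      IsProper g ∧ Flat g ∧ (∀ y : Y, IsRegularLocalRing (Y.presheaf.stalk y)) ∧
      ∃ e : pullback g (Spec.map (CommRingCat.ofHom (algebraMap R K))) ≅ Proj 𝒜,
        e.hom ≫ projTo K 𝒜 =
          pullback.snd g (Spec.map (CommRingCat.ofHom (algebraMap R K))) := by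
  classical
  choose ϖ hϖ using fun P : HeightOneSpectrum R => exists_unif (K := K) P
  choose rr u hu1 hu2 hr0 using fun P : HeightOneSpectrum R => exists_exponent P hm (hϖ P)
  have hϖ0 : ∀ P, ϖ P ≠ 0 := fun P h0 => (hϖ P).ne_zero (by rw [h0, map_zero])
  have hH : ∀ P : HeightOneSpectrum R, HypData 𝒜 (piS π (locRing K P))
      (map (algebraMap R (locRing K P)) f) d := fun P =>
    hypData_piS π hdeg hf hzero hkerK (locRing K P)
  have hoA : ∀ P : HeightOneSpectrum R, oA K A (locRing K P)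
      (algebraMap R (locRing K P) (ϖ P)) = algebraMap R A (ϖ P) := fun P =>
    oA_algebraMap (K := K) (O := locRing K P) (ϖ P)
  have hxP : ∀ P : HeightOneSpectrum R, (fun k => piS π (locRing K P) (X k)) =
      fun k => π (X k) := fun P => funext fun k => piS_X π _ k
  have hsets : ∀ P : HeightOneSpectrum R,
      (WSet (fun k => piS π (locRing K P) (X k)) (bset (piS π (locRing K P))
        (map (algebraMap R (locRing K P)) f) d (oA K A (locRing K P)
          (algebraMap R (locRing K P) (ϖ P)))) (rr P) ∪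
        W1Set (fun k => piS π (locRing K P) (X k)) (oA K A (locRing K P)
          (algebraMap R (locRing K P) (ϖ P))) (rr P)) =
      (WSet (fun k => π (X k)) (bset (piS π R) f d (algebraMap R A (ϖ P))) (rr P) ∪
        W1Set (fun k => π (X k)) (algebraMap R A (ϖ P)) (rr P)) := by
    intro P
    rw [hxP, hoA, bset_piS]
  have hO := fun P : HeightOneSpectrum R => (hH P).orderHyp (R := R) P.asIdeal
    (fun c => piS_C π _ c) hd (algebraMap R (locRing K P) (ϖ P)) (rr P)
  have hLG : LocalGens (R := R) 𝒜 (fun P => WSet (fun k => π (X k))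
      (bset (piS π R) f d (algebraMap R A (ϖ P))) (rr P) ∪
        W1Set (fun k => π (X k)) (algebraMap R A (ϖ P)) (rr P))
        (Set.range fun k => π (X k)) :=
    { finite := fun P => (finite_WSet (fun j => finite_bset _ f d _ j) _).union (finite_W1Set _)
      finite₀ := Set.finite_range _
      ae := by
        refine (finite_mem_prime hm).subset ?_
        intro P hP
        by_contra hdp
        apply hP
        have h1 : rr P = 0 := hr0 P hdp
        change WSet (fun k => π (X k)) (bset (piS π R) f d (algebraMap R A (ϖ P))) (rr P) ∪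
          W1Set (fun k => π (X k)) (algebraMap R A (ϖ P)) (rr P) = _
        rw [h1, WSet_zero, W1Set_zero, Set.union_self]
      homog := by
        intro P w hw
        rw [← hsets P] at hw
        rcases hw with hw | ⟨i, rfl⟩
        · exact ⟨_, Nat.succ_pos _, (hO P).W_deg hw⟩
        · refine ⟨1, one_pos, ?_⟩
          have := SetLike.mul_mem_graded (hO P).theta_deg ((hO P).xdeg i)
          simpa using this
      full := fun P a => full_order π hgen (hϖ0 P) (rr P) a
      full₀ := fun a => by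
        have := full_order π hgen (B := fun _ => ∅) (one_ne_zero (α := R)) 0 a
        rwa [WSet_zero, W1Set_zero, Set.union_self] at this }
  have hnt : Nontrivial A := inferInstance
  refine Pool.Agent.Lib.MP_6a3dac_ag.exists_model 𝒜 hLG hRf fun P => ?_
  intro hS y hy hyh hirr
  let F := FractionRing A
  let ι : A →+* F := algebraMap A F
  have hι : Function.Injective ι := IsFractionRing.injective A F
  apply isRegularLocalRing_of_homLoc 𝒜 ι _ y hι hS
  refine (hH P).main (R := R) (FaithfulSMul.algebraMap_injective _ K) P.asIdeal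
    (fun c => piS_C π _ c) hd ι hι (hϖ P) (rr P) (by rw [hsets]; rfl) ?_ ?_ y hy ?_
  · by_cases hp : m ∈ P.asIdeal
    · right
      obtain ⟨h2, hnd⟩ := hsing P hp
      refine ⟨?_, hnd _ (hϖ P)⟩
      have h3 := IsLocalization.map_units (locRing K P) (⟨2, h2⟩ : P.asIdeal.primeCompl)
      change IsUnit (algebraMap R (locRing K P) 2) at h3
      rwa [map_ofNat] at h3
    · exact Or.inl (hr0 P hp)
  · intro i
    have h1 := Ideal.mem_map_of_mem (map (algebraMap R (locRing K P))) (hmN i)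
    rw [Ideal.map_span, Set.image_insert_eq, ← Set.range_comp, map_mul, map_C, map_pow,
      map_X] at h1
    have h2 : ((map (algebraMap R (locRing K P))) ∘ fun l => pderiv l f) =
        fun l => pderiv l (map (algebraMap R (locRing K P)) f) := by
      funext l
      exact (pderiv_map (φ := algebraMap R (locRing K P)) (f := f) (i := l)).symm
    rw [h2] at h1
    obtain ⟨c₀, c, hc⟩ := jac_dehom i (hf.map _) h1
    refine ⟨C (u P) * c₀, fun l => C (u P) * c l, ?_⟩
    rw [← map_pow, ← hu2 P, C_mul, hc, mul_add, Finset.mul_sum]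
    congr 1
    · ring
    · exact Finset.sum_congr rfl fun l _ => by ring
  · by_contra hcon
    push Not at hcon
    apply hirr
    rw [HomogeneousIdeal.toIdeal_irrelevant_le]
    intro i hi s hs
    exact hcon i hi s hs

end

end Pool.Agent.Lib.MP_6a3dac_ag.DNF
end

section

/-!
# Local parameters at the closed points of the affine space
-/

set_option autoImplicit false

namespace Pool.Agent.Lib.MP_6a3dac_ag.Maj

open MvPolynomial
open Pool.Agent.Lib.MP_6a3dac_ag.DNF

variable {O : Type} [CommRing O] [IsDomain O] [IsDiscreteValuationRing O] {σ τ : Type} [Fintype σ]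
  [DecidableEq σ] [Fintype τ] {ϖ : O} (hϖ : Irreducible ϖ) (hfin : Finite (O ⧸ Ideal.span {ϖ}))
  {𝔮 : Ideal (MvPolynomial σ O)} (hmax : 𝔮.IsMaximal) (h𝔮 : C ϖ ∈ 𝔮)
include hϖ hfin hmax h𝔮

omit [DecidableEq σ] in
theorem p1_lift (j : σ) : ∃ M : Polynomial O, Polynomial.aeval (X j : MvPolynomial σ O) M ∈ 𝔮 ∧
    Polynomial.aeval (X j : MvPolynomial σ O) (Polynomial.derivative M) ∉ 𝔮 := by
  classical
  have hkmax : (Ideal.span {ϖ}).IsMaximal := by
    rw [← hϖ.maximalIdeal_eq]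
    exact IsLocalRing.maximalIdeal.isMaximal O
  let _ : Field (O ⧸ Ideal.span {ϖ}) := Ideal.Quotient.field _
  let _ : Field (MvPolynomial σ O ⧸ 𝔮) := Ideal.Quotient.field _
  let f : O →+* MvPolynomial σ O ⧸ 𝔮 := (Ideal.Quotient.mk 𝔮).comp C
  have hf : ∀ a ∈ Ideal.span {ϖ}, f a = 0 := by
    intro a ha
    obtain ⟨b, rfl⟩ := Ideal.mem_span_singleton'.mp ha
    change Ideal.Quotient.mk 𝔮 (C (b * ϖ)) = 0
    rw [Ideal.Quotient.eq_zero_iff_mem, C_mul]
    exact 𝔮.mul_mem_left _ h𝔮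
  let _ : Algebra (O ⧸ Ideal.span {ϖ}) (MvPolynomial σ O ⧸ 𝔮) :=
    (Ideal.Quotient.lift (Ideal.span {ϖ}) f hf).toAlgebra
  have halg : ∀ a : O, algebraMap (O ⧸ Ideal.span {ϖ}) (MvPolynomial σ O ⧸ 𝔮)
      (Ideal.Quotient.mk _ a) = Ideal.Quotient.mk 𝔮 (C a) := fun a => rfl
  have : IsScalarTower O (O ⧸ Ideal.span {ϖ}) (MvPolynomial σ O ⧸ 𝔮) :=
    IsScalarTower.of_algebraMap_eq fun a => rfl
  have : Algebra.FiniteType O (MvPolynomial σ O ⧸ 𝔮) :=
    Algebra.FiniteType.of_surjective (Ideal.Quotient.mkₐ O 𝔮)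
      (Ideal.Quotient.mkₐ_surjective O 𝔮)
  have : Algebra.FiniteType (O ⧸ Ideal.span {ϖ}) (MvPolynomial σ O ⧸ 𝔮) :=
    Algebra.FiniteType.of_restrictScalars_finiteType O _ _
  have : Module.Finite (O ⧸ Ideal.span {ϖ}) (MvPolynomial σ O ⧸ 𝔮) :=
    finite_of_finite_type_of_isJacobsonRing _ _
  set x : MvPolynomial σ O ⧸ 𝔮 := Ideal.Quotient.mk 𝔮 (X j) with hx
  have hint : IsIntegral (O ⧸ Ideal.span {ϖ}) x := Algebra.IsIntegral.isIntegral x
  have hirr := minpoly.irreducible hint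
  have hsep : (minpoly (O ⧸ Ideal.span {ϖ}) x).Separable := PerfectField.separable_of_irreducible hirr
  obtain ⟨M, hM⟩ := Polynomial.map_surjective (Ideal.Quotient.mk (Ideal.span {ϖ}))
    Ideal.Quotient.mk_surjective (minpoly (O ⧸ Ideal.span {ϖ}) x)
  have key : ∀ N : Polynomial O, Ideal.Quotient.mk 𝔮 (Polynomial.aeval (X j) N) =
      Polynomial.aeval x (N.map (Ideal.Quotient.mk (Ideal.span {ϖ}))) := by
    intro N
    rw [Polynomial.aeval_def, Polynomial.hom_eval₂, Polynomial.aeval_def, Polynomial.eval₂_map]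
    rfl
  refine ⟨M, ?_, ?_⟩
  · rw [← Ideal.Quotient.eq_zero_iff_mem, key, hM, minpoly.aeval]
  · rw [← Ideal.Quotient.eq_zero_iff_mem, key, ← Polynomial.derivative_map, hM]
    exact hsep.aeval_derivative_ne_zero (minpoly.aeval _ _)

theorem exists_params : ∃ y : σ → MvPolynomial σ O, (∀ j, y j ∈ 𝔮) ∧
    (Matrix.of fun i j => pderiv i (y j)).det ∉ 𝔮 ∧ Par 𝔮 fun o => o.elim (C ϖ) y := by
  choose M hM1 hM2 using p1_lift hϖ hfin hmax h𝔮
  have hprime : 𝔮.IsPrime := hmax.isPrime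
  let y : σ → MvPolynomial σ O := fun j => Polynomial.aeval (X j) (M j)
  have hy : ∀ j, y j ∈ 𝔮 := hM1
  have hdet : (Matrix.of fun i j => pderiv i (y j)).det ∉ 𝔮 := by
    have h1 : (Matrix.of fun i j => pderiv i (y j)) = Matrix.diagonal fun j =>
        Polynomial.aeval (X j : MvPolynomial σ O) (Polynomial.derivative (M j)) := by
      ext1 i j
      rw [Matrix.of_apply, Derivation.map_aeval, pderiv_X, smul_eq_mul, Matrix.diagonal_apply]
      by_cases hij : i = j
      · subst hij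
        simp
      · rw [if_neg hij, Pi.single_apply, if_neg (fun h => hij h.symm), mul_zero]
    rw [h1, Matrix.det_diagonal]
    intro h2
    obtain ⟨j, -, hj⟩ := hprime.prod_mem_iff.mp h2
    exact hM2 j hj
  refine ⟨y, hy, hdet, ?_, ?_⟩
  · rintro (_ | j)
    · exact h𝔮
    · exact hy j
  · intro z hz
    obtain ⟨s, hs, c₀, c, hc⟩ := param_span hϖ 𝔮 h𝔮 hy hdet hz
    obtain ⟨t, ht⟩ := Ideal.IsMaximal.exists_inv hmax hs
    obtain ⟨i, hi, hti⟩ := ht
    have h1 : z = t * (s * z) + i * z := by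
      rw [← mul_assoc, ← add_mul, hti, one_mul]
    rw [h1]
    refine Submodule.add_mem_sup (Ideal.mul_mem_left _ _ ?_) ?_
    · rw [hc]
      refine Ideal.add_mem _ (Ideal.mul_mem_left _ _ (Ideal.subset_span ⟨none, rfl⟩))
        (Ideal.sum_mem _ fun j _ => Ideal.mul_mem_left _ _ (Ideal.subset_span ⟨some j, rfl⟩))
    · rw [pow_two]
      exact Ideal.mul_mem_mul hi hz

omit hfin hmax h𝔮 in
theorem p1_indep_std {ρ : Type} [Finite ρ] {Q : Ideal (MvPolynomial ρ O)} (hQp : Q.IsPrime)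
    (hQ : C ϖ ∈ Q) (D : σ → Derivation O (MvPolynomial ρ O) (MvPolynomial ρ O))
    {y : σ → MvPolynomial ρ O} (hy : ∀ j, y j ∈ Q)
    (hdet : (Matrix.of fun i j => D i (y j)).det ∉ Q)
    {s c₀ : MvPolynomial ρ O} {c : σ → MvPolynomial ρ O} (hs : s ∉ Q)
    (h : s * (c₀ * C ϖ + ∑ j, c j * y j) ∈ Q ^ 2) : c₀ ∈ Q ∧ ∀ j, c j ∈ Q := by
  have hc : ∀ j, c j ∈ Q := by
    have h1 : ∀ i, ∑ j, (Matrix.of fun i j => D i (y j)) i j * c j ∈ Q := by
      intro i
      have h2 := derivation_mem Q (D i) hs h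
      rw [map_add, Derivation.leibniz, derivation_C, smul_zero, zero_add, map_sum] at h2
      have h3 : (C ϖ : MvPolynomial ρ O) • (D i c₀ : MvPolynomial ρ O) ∈ Q := by
        rw [smul_eq_mul]; exact Q.mul_mem_right _ hQ
      have h4 := (Submodule.add_mem_iff_right Q h3).mp h2
      have h5 : ∑ j, D i (c j * y j) = ∑ j, (Matrix.of fun i j => D i (y j)) i j * c j +
          ∑ j, y j * D i (c j) := by
        rw [← Finset.sum_add_distrib]
        refine Finset.sum_congr rfl fun j _ => ?_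
        rw [Derivation.leibniz, smul_eq_mul, smul_eq_mul, Matrix.of_apply]
        ring
      rw [h5] at h4
      exact (Submodule.add_mem_iff_left Q (Q.sum_mem fun j _ => Q.mul_mem_right _ (hy j))).mp h4
    intro j
    have h2 : (Matrix.of fun i j => D i (y j)).det * c j ∈ Q := by
      have h3 : ((Matrix.of fun i j => D i (y j)).adjugate.mulVec
          ((Matrix.of fun i j => D i (y j)).mulVec c)) j =
          (Matrix.of fun i j => D i (y j)).det * c j := by
        rw [Matrix.mulVec_mulVec, Matrix.adjugate_mul, Matrix.smul_mulVec, Matrix.one_mulVec,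
          Pi.smul_apply, smul_eq_mul]
      rw [← h3]
      exact Q.sum_mem fun i _ => Q.mul_mem_left _ (h1 i)
    exact (hQp.mem_or_mem h2).resolve_left hdet
  refine ⟨?_, hc⟩
  by_contra hc₀
  have h1 : s * (∑ j, c j * y j) ∈ Q ^ 2 := by
    refine Ideal.mul_mem_left _ _ (Ideal.sum_mem _ fun j _ => ?_)
    rw [pow_two]
    exact Ideal.mul_mem_mul (hc j) (hy j)
  rw [mul_add] at h
  have h2 := (Submodule.add_mem_iff_left _ h1).mp h
  rw [← mul_assoc] at h2
  exact mul_C_notMem_sq hϖ Q hQ (hQp.mul_notMem hs hc₀) h2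

omit hϖ hfin hmax h𝔮 [IsDomain O] [IsDiscreteValuationRing O] [DecidableEq σ] in
theorem p1_coord {g : Option σ → MvPolynomial σ O} (hg : Par 𝔮 g) {z : MvPolynomial σ O}
    (hz : z ∈ 𝔮) : ∃ a : Option σ → MvPolynomial σ O, z - ∑ o, a o * g o ∈ 𝔮 ^ 2 := by
  obtain ⟨u, hu, v, hv, huv⟩ := Submodule.mem_sup.mp (hg.2 hz)
  obtain ⟨a, ha⟩ := Ideal.mem_span_range_iff_exists_fun.mp hu
  refine ⟨a, ?_⟩
  rw [ha, ← huv]
  simpa using hv

theorem p1_indep {ρ : Type} [Finite ρ] (φ : MvPolynomial σ O →ₐ[O] MvPolynomial ρ O)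
    (D : σ → Derivation O (MvPolynomial ρ O) (MvPolynomial ρ O))
    (hD : ∀ i p, D i (φ p) = φ (pderiv i p))
    {g : Option σ → MvPolynomial σ O} (hg : Par 𝔮 g)
    {Q : Ideal (MvPolynomial ρ O)} (hQp : Q.IsPrime)
    (hQ : ∀ p : MvPolynomial σ O, φ p ∈ Q ↔ p ∈ 𝔮)
    {s : MvPolynomial ρ O} (hs : s ∉ Q) {c : Option σ → MvPolynomial ρ O}
    (h : s * ∑ o, c o * φ (g o) ∈ Q ^ 2) : ∀ o, c o ∈ Q := by
  obtain ⟨y, hy, hdet, hpar⟩ := exists_params hϖ hfin hmax h𝔮
  set H : Option σ → MvPolynomial σ O := fun o => o.elim (C ϖ) y with hH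
  have hprime : 𝔮.IsPrime := hmax.isPrime
  have hφ2 : ∀ p ∈ 𝔮 ^ 2, φ p ∈ Q ^ 2 := by
    intro p hp
    have h1 : 𝔮.map φ ≤ Q := Ideal.map_le_iff_le_comap.mpr fun x hx => (hQ x).mpr hx
    have h2 : φ p ∈ (𝔮 ^ 2).map φ := Ideal.mem_map_of_mem _ hp
    rw [Ideal.map_pow] at h2
    exact Ideal.pow_right_mono h1 2 h2
  choose a ha using fun o => p1_coord hpar (hg.1 o)
  choose b hb using fun o => p1_coord hg (hpar.1 o)
  -- `b a = 1` modulo `𝔮`
  have hba : ∀ o' o'' : Option σ, ∑ o, b o' o * a o o'' - (if o' = o'' then 1 else 0) ∈ 𝔮 := by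
    intro o'
    have h1 : ∑ o'', (∑ o, b o' o * a o o'' - (if o' = o'' then 1 else 0)) * H o'' ∈ 𝔮 ^ 2 := by
      have h2 : ∑ o'', (∑ o, b o' o * a o o'' - (if o' = o'' then 1 else 0)) * H o'' =
          - (H o' - ∑ o, b o' o * g o) - ∑ o, b o' o * (g o - ∑ o'', a o o'' * H o'') := by
        have e1 : ∑ o'', (if o' = o'' then (1 : MvPolynomial σ O) else 0) * H o'' = H o' := by
          simp
        have e2 : ∑ o'', (∑ o, b o' o * a o o'') * H o'' =
            ∑ o, b o' o * ∑ o'', a o o'' * H o'' := by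
          simp_rw [Finset.sum_mul, Finset.mul_sum]
          rw [Finset.sum_comm]
          exact Finset.sum_congr rfl fun _ _ => Finset.sum_congr rfl fun _ _ => by ring
        simp_rw [sub_mul]
        rw [Finset.sum_sub_distrib, e1, e2]
        simp_rw [mul_sub]
        rw [Finset.sum_sub_distrib]
        ring
      rw [h2]
      exact Ideal.sub_mem _ (Ideal.neg_mem_iff _ |>.mpr (hb o'))
        (Ideal.sum_mem _ fun o _ => Ideal.mul_mem_left _ _ (ha o))
    rw [Fintype.sum_option] at h1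
    have h3 := param_indep hϖ 𝔮 h𝔮 hy hdet (s := 1)
      (fun h => hprime.ne_top ((Ideal.eq_top_iff_one _).mpr h)) (by
        rw [one_mul]
        exact h1)
    rintro (_ | j)
    · exact h3.1
    · exact h3.2 j
  -- `a b = 1` modulo `𝔮`
  have hab : ∀ o' o'' : Option σ, ∑ o, a o' o * b o o'' - (if o' = o'' then 1 else 0) ∈ 𝔮 := by
    let A : Matrix (Option σ) (Option σ) (MvPolynomial σ O ⧸ 𝔮) :=
      Matrix.of fun i j => Ideal.Quotient.mk 𝔮 (a i j)
    let B : Matrix (Option σ) (Option σ) (MvPolynomial σ O ⧸ 𝔮) :=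
      Matrix.of fun i j => Ideal.Quotient.mk 𝔮 (b i j)
    have h1 : B * A = 1 := by
      ext i j
      have h2 := Ideal.Quotient.eq_zero_iff_mem.mpr (hba i j)
      rw [map_sub, map_sum, sub_eq_zero] at h2
      simp only [map_mul] at h2
      rw [Matrix.mul_apply, Matrix.one_apply]
      simp only [A, B, Matrix.of_apply]
      rw [h2]
      split_ifs <;> simp
    have h2 : A * B = 1 := mul_eq_one_comm.mp h1
    intro i j
    rw [← Ideal.Quotient.eq_zero_iff_mem, map_sub, map_sum, sub_eq_zero]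
    have h3 := congrFun (congrFun h2 i) j
    rw [Matrix.mul_apply, Matrix.one_apply] at h3
    simp only [A, B, Matrix.of_apply] at h3
    simp only [map_mul]
    rw [h3]
    split_ifs <;> simp
  -- the coefficients with respect to `H`
  have hd : ∀ o', ∑ o, c o * φ (a o o') ∈ Q := by
    have h1 : s * ∑ o', (∑ o, c o * φ (a o o')) * φ (H o') ∈ Q ^ 2 := by
      have h2 : s * ∑ o', (∑ o, c o * φ (a o o')) * φ (H o') = s * ∑ o, c o * φ (g o) -
          s * ∑ o, c o * φ (g o - ∑ o', a o o' * H o') := by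
        have e1 : ∑ o', (∑ o, c o * φ (a o o')) * φ (H o') =
            ∑ o, c o * φ (∑ o', a o o' * H o') := by
          simp_rw [map_sum, map_mul, Finset.sum_mul, Finset.mul_sum]
          rw [Finset.sum_comm]
          exact Finset.sum_congr rfl fun _ _ => Finset.sum_congr rfl fun _ _ => by ring
        rw [e1]
        simp_rw [map_sub, mul_sub]
        rw [Finset.sum_sub_distrib]
        ring
      rw [h2]
      exact Ideal.sub_mem _ h (Ideal.mul_mem_left _ _
        (Ideal.sum_mem _ fun o _ => Ideal.mul_mem_left _ _ (hφ2 _ (ha o))))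
    rw [Fintype.sum_option] at h1
    have hC : φ (H none) = C ϖ := φ.commutes ϖ
    rw [hC] at h1
    have h3 := p1_indep_std hϖ hQp (by rw [← hC]; exact (hQ _).mpr h𝔮) D
      (y := fun j => φ (y j)) (fun j => (hQ _).mpr (hy j)) (by
        have h4 : (Matrix.of fun i j => D i (φ (y j))) =
            φ.toRingHom.mapMatrix (Matrix.of fun i j => pderiv i (y j)) := by
          ext1 i j
          exact hD i (y j)
        rw [h4, ← RingHom.map_det]
        exact fun h5 => hdet ((hQ _).mp h5)) hs h1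
    rintro (_ | j)
    · exact h3.1
    · exact h3.2 j
  intro o
  have h1 : c o = ∑ o', (∑ o'', c o'' * φ (a o'' o')) * φ (b o' o) -
      ∑ o'', c o'' * φ (∑ o', a o'' o' * b o' o - (if o'' = o then 1 else 0)) := by
    have e1 : ∑ o', (∑ o'', c o'' * φ (a o'' o')) * φ (b o' o) =
        ∑ o'', c o'' * φ (∑ o', a o'' o' * b o' o) := by
      simp_rw [map_sum, map_mul, Finset.sum_mul, Finset.mul_sum]
      rw [Finset.sum_comm]
      exact Finset.sum_congr rfl fun _ _ => Finset.sum_congr rfl fun _ _ => by ring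
    rw [e1, ← Finset.sum_sub_distrib]
    simp_rw [← mul_sub, ← map_sub, sub_sub_cancel]
    have e2 : ∀ o'' : Option σ, c o'' * φ (if o'' = o then 1 else 0) = if o'' = o then c o'' else 0 := by
      intro o''
      split_ifs <;> simp
    simp_rw [e2]
    simp
  rw [h1]
  exact Ideal.sub_mem _ (Ideal.sum_mem _ fun o' _ => Ideal.mul_mem_right _ _ (hd o'))
    (Ideal.sum_mem _ fun o'' _ => Ideal.mul_mem_left _ _ ((hQ _).mpr (hab o'' o)))

theorem par_indep {g : Option σ → MvPolynomial σ O} (hg : Par 𝔮 g)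
    {Q : Ideal (MvPolynomial (σ ⊕ τ) O)} (hQp : Q.IsPrime)
    (hQ : ∀ p : MvPolynomial σ O, rename Sum.inl p ∈ Q ↔ p ∈ 𝔮)
    {s : MvPolynomial (σ ⊕ τ) O} (hs : s ∉ Q) {c : Option σ → MvPolynomial (σ ⊕ τ) O}
    (h : s * ∑ o, c o * rename Sum.inl (g o) ∈ Q ^ 2) : ∀ o, c o ∈ Q :=
  p1_indep hϖ hfin hmax h𝔮 (rename Sum.inl) (fun i => pderiv (Sum.inl i))
    (fun i p => pderiv_rename Sum.inl_injective i p) hg hQp hQ hs h

theorem par_indep_self {g : Option σ → MvPolynomial σ O} (hg : Par 𝔮 g)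
    {s : MvPolynomial σ O} (hs : s ∉ 𝔮) {c : Option σ → MvPolynomial σ O}
    (h : s * ∑ o, c o * g o ∈ 𝔮 ^ 2) : ∀ o, c o ∈ 𝔮 :=
  p1_indep hϖ hfin hmax h𝔮 (AlgHom.id O _) (fun i => pderiv i) (fun _ _ => rfl) hg
    hmax.isPrime (fun _ => Iff.rfl) hs h

end Pool.Agent.Lib.MP_6a3dac_ag.Maj
end

section

/-!
# The charts of the blow-up of a closed point
-/

set_option autoImplicit false

namespace Pool.Agent.Lib.MP_6a3dac_ag.Maj

open MvPolynomial IsLocalRing
open Pool.Agent.Lib.MP_6a3dac_ag.DNF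

/-- The data of a local ring `D` of the blow-up of the point `𝔮` of the hypersurface `F = 0`: the
ideal of the point is generated by `Z` and becomes principal, generated by `z₀`, in `D`. -/
structure BlowHyp {O : Type} [CommRing O] {σ : Type} {D : Type} [CommRing D] [IsLocalRing D]
    (φ : MvPolynomial σ O →+* D) (ϖ : O) (F : MvPolynomial σ O) (𝔮 : Ideal (MvPolynomial σ O))
    (Z : Set (MvPolynomial σ O)) (z₀ : MvPolynomial σ O) : Prop where
  zero : φ F = 0
  ker : ∀ g, φ g = 0 → ∃ m : O, m ≠ 0 ∧ ∃ q, C m * g = F * q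
  char : ∀ m : O, m ≠ 0 → φ (C m) ≠ 0
  eq : 𝔮 = Ideal.comap φ (maximalIdeal D)
  max : 𝔮.IsMaximal
  unif : C ϖ ∈ 𝔮
  Zmem : ∀ z ∈ Z, z ∈ 𝔮
  Zgen : ∀ z ∈ 𝔮, ∃ s, s ∉ 𝔮 ∧ s * z ∈ Ideal.span Z
  z₀mem : z₀ ∈ Z
  ne : φ z₀ ≠ 0
  dvd : ∀ z ∈ Z, φ z₀ ∣ φ z
  gen : ∀ R' : Subring D, Dom R' → locIn φ ≤ R' →
    (∀ z ∈ Z, ∀ w, φ z₀ * w = φ z → w ∈ R') → R' = ⊤

section

variable {O : Type} [CommRing O] {σ : Type} (g : Option σ → MvPolynomial σ O) (o₀ : Option σ)

/-- The equations of the blow-up in the chart `o₀`. -/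
noncomputable def chartRel (o : {o : Option σ // o ≠ o₀}) :
    MvPolynomial (σ ⊕ {o : Option σ // o ≠ o₀}) O :=
  rename Sum.inl (g o.1) - rename Sum.inl (g o₀) * X (Sum.inr o)

open Classical in
/-- The coordinates of the chart `o₀`. -/
noncomputable def chartT (O : Type) [CommRing O] (o₀ : Option σ) (o : Option σ) :
    MvPolynomial (σ ⊕ {o : Option σ // o ≠ o₀}) O :=
  if h : o = o₀ then 1 else X (Sum.inr ⟨o, h⟩)

end

section L1aux

variable {O : Type} [CommRing O] {σ : Type}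

/-- Modulo the equations of the chart, `g o` is `g o₀` times the coordinate. -/
theorem l1_sub_mem (g : Option σ → MvPolynomial σ O) (o₀ o : Option σ) :
    rename Sum.inl (g o) - rename Sum.inl (g o₀) * chartT O o₀ o ∈
      Ideal.span (Set.range (chartRel g o₀)) := by
  unfold chartT
  split_ifs with h
  · subst h
    rw [mul_one, sub_self]
    exact Ideal.zero_mem _
  · exact Ideal.subset_span ⟨⟨o, h⟩, rfl⟩

/-- Clearing denominators in the chart. -/
theorem l1_clear (g : Option σ → MvPolynomial σ O) (o₀ : Option σ)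
    (p : MvPolynomial (σ ⊕ {o : Option σ // o ≠ o₀}) O) :
    ∃ (N : ℕ) (p₀ : MvPolynomial σ O),
      rename Sum.inl (g o₀) ^ N * p - rename Sum.inl p₀ ∈
        Ideal.span (Set.range (chartRel g o₀)) := by
  have hX : ∀ z : σ ⊕ {o : Option σ // o ≠ o₀}, ∃ (N : ℕ) (p₀ : MvPolynomial σ O),
      rename Sum.inl (g o₀) ^ N * X z - rename Sum.inl p₀ ∈
        Ideal.span (Set.range (chartRel g o₀)) := by
    rintro (j | o)
    · refine ⟨0, X j, ?_⟩
      rw [pow_zero, one_mul, rename_X, sub_self]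
      exact Ideal.zero_mem _
    · refine ⟨1, g o.1, ?_⟩
      rw [pow_one, ← neg_mem_iff, neg_sub]
      exact Ideal.subset_span ⟨o, rfl⟩
  induction p using MvPolynomial.induction_on with
  | C a =>
    refine ⟨0, C a, ?_⟩
    rw [pow_zero, one_mul, rename_C, sub_self]
    exact Ideal.zero_mem _
  | add a b ha hb =>
    obtain ⟨N, p, h1⟩ := ha
    obtain ⟨M, q, h2⟩ := hb
    refine ⟨N + M, g o₀ ^ M * p + g o₀ ^ N * q, ?_⟩
    have h3 : rename Sum.inl (g o₀) ^ (N + M) * (a + b) -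
        rename Sum.inl (g o₀ ^ M * p + g o₀ ^ N * q) =
        rename Sum.inl (g o₀) ^ M * (rename Sum.inl (g o₀) ^ N * a - rename Sum.inl p) +
        rename Sum.inl (g o₀) ^ N * (rename Sum.inl (g o₀) ^ M * b - rename Sum.inl q) := by
      simp only [map_add, map_mul, map_pow]
      ring
    rw [h3]
    exact Ideal.add_mem _ (Ideal.mul_mem_left _ _ h1) (Ideal.mul_mem_left _ _ h2)
  | mul_X a z ha =>
    obtain ⟨N, p, h1⟩ := ha
    obtain ⟨M, q, h2⟩ := hX z
    refine ⟨N + M, p * q, ?_⟩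
    have h3 : rename Sum.inl (g o₀) ^ (N + M) * (a * X z) -
        rename Sum.inl (p * q) =
        rename Sum.inl (g o₀) ^ M * X z * (rename Sum.inl (g o₀) ^ N * a - rename Sum.inl p) +
        rename Sum.inl p * (rename Sum.inl (g o₀) ^ M * X z - rename Sum.inl q) := by
      simp only [map_mul]
      ring
    rw [h3]
    exact Ideal.add_mem _ (Ideal.mul_mem_left _ _ h1) (Ideal.mul_mem_left _ _ h2)

/-- Local generation of the ideal by the parameters. -/
theorem l1_nak [IsNoetherianRing O] [Finite σ] {𝔮 : Ideal (MvPolynomial σ O)} (hq : 𝔮 ≠ ⊤)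
    {g : Option σ → MvPolynomial σ O} (hg : Par 𝔮 g) :
    ∃ s, s ∉ 𝔮 ∧ ∀ z ∈ 𝔮, s * z ∈ Ideal.span (Set.range g) := by
  have hfg : 𝔮.FG := Ideal.fg_of_isNoetherianRing 𝔮
  obtain ⟨r, hr, hr2⟩ := Submodule.exists_sub_one_mem_and_smul_le_of_fg_of_le_sup
    (I := 𝔮) (N := Ideal.span (Set.range g)) (N' := 𝔮) (P := 𝔮) hfg le_rfl
    (by rw [smul_eq_mul, ← pow_two]; exact hg.2)
  refine ⟨r, ?_, ?_⟩
  · intro h
    apply hq
    rw [Ideal.eq_top_iff_one]
    have := 𝔮.sub_mem h hr
    rwa [sub_sub_cancel] at this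
  · intro z hz
    exact hr2 (Submodule.smul_mem_pointwise_smul z r 𝔮 hz)

end L1aux

variable {O : Type} [CommRing O] [IsDomain O] [IsDiscreteValuationRing O] {σ : Type} [Fintype σ]
  [DecidableEq σ] {D : Type} [CommRing D] [IsDomain D] [IsLocalRing D]
  {φ : MvPolynomial σ O →+* D} {ϖ : O} (hϖ : Irreducible ϖ) (hfin : Finite (O ⧸ Ideal.span {ϖ}))
  {F : MvPolynomial σ O} {𝔮 : Ideal (MvPolynomial σ O)} {Z : Set (MvPolynomial σ O)}
  {z₀ : MvPolynomial σ O} (h : BlowHyp φ ϖ F 𝔮 Z z₀)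
include hϖ hfin h

omit [IsDomain O] [IsDiscreteValuationRing O] [Fintype σ] [DecidableEq σ] [IsDomain D] hϖ hfin in
theorem BlowHyp.l1_isUnit {s : MvPolynomial σ O} : s ∉ 𝔮 ↔ IsUnit (φ s) := by
  rw [h.eq, Ideal.mem_comap, IsLocalRing.mem_maximalIdeal, mem_nonunits_iff, not_not]

omit [IsDomain O] [IsDiscreteValuationRing O] [Fintype σ] [DecidableEq σ] [IsDomain D] hϖ hfin in
theorem BlowHyp.l1_dvd {z : MvPolynomial σ O} (hz : z ∈ 𝔮) : φ z₀ ∣ φ z := by
  obtain ⟨s, hs, hsz⟩ := h.Zgen z hz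
  have hu := h.l1_isUnit.mp hs
  have h1 : Ideal.span Z ≤ (Ideal.span {φ z₀}).comap φ := by
    rw [Ideal.span_le]
    intro z hz
    exact Ideal.mem_span_singleton.mpr (h.dvd z hz)
  have h2 : φ z₀ ∣ φ (s * z) := Ideal.mem_span_singleton.mp (h1 hsz)
  rw [map_mul] at h2
  exact (hu.dvd_mul_left).mp h2

omit [IsDomain O] [IsDiscreteValuationRing O] [Fintype σ] [DecidableEq σ] [IsDomain D] hϖ hfin in
theorem BlowHyp.l1_dvd_sq {z : MvPolynomial σ O} (hz : z ∈ 𝔮 ^ 2) : φ z₀ ^ 2 ∣ φ z := by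
  have h1 : 𝔮 ≤ (Ideal.span {φ z₀}).comap φ := fun x hx =>
    Ideal.mem_span_singleton.mpr (h.l1_dvd hx)
  have h2 : 𝔮 ^ 2 ≤ (Ideal.span {φ z₀ ^ 2}).comap φ := by
    rw [← Ideal.span_singleton_pow]
    exact (Ideal.pow_right_mono h1 2).trans (Ideal.le_comap_pow φ 2)
  exact Ideal.mem_span_singleton.mp (h2 hz)

/-- Uses `par_indep` of Params.lean. -/
theorem BlowHyp.chart {g : Option σ → MvPolynomial σ O} (hg : Par 𝔮 g) :
    ∃ o₀ : Option σ, φ (g o₀) ≠ 0 ∧
      ∃ ψ : MvPolynomial (σ ⊕ {o : Option σ // o ≠ o₀}) O →+* D,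
        (∀ p, ψ (rename Sum.inl p) = φ p) ∧ (∀ o, ψ (chartRel g o₀ o) = 0) ∧
        ∀ (Fs : MvPolynomial (σ ⊕ {o : Option σ // o ≠ o₀}) O) (s₁ : MvPolynomial σ O), s₁ ∉ 𝔮 →
          rename Sum.inl (s₁ * F) - rename Sum.inl (g o₀) ^ 2 * Fs ∈
            Ideal.span (Set.range (chartRel g o₀)) →
          (∀ (s e : MvPolynomial (σ ⊕ {o : Option σ // o ≠ o₀}) O)
            (c : {o : Option σ // o ≠ o₀} → MvPolynomial (σ ⊕ {o : Option σ // o ≠ o₀}) O),
            IsUnit (ψ s) →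
            s * (∑ o, c o * chartRel g o₀ o + e * Fs) ∈ (Ideal.comap ψ (maximalIdeal D)) ^ 2 →
            ψ e ∈ maximalIdeal D) →
          IsRegularLocalRing D := by
  classical
  have hφz : φ z₀ ∈ maximalIdeal D := by
    have h1 := h.Zmem z₀ h.z₀mem
    rw [h.eq] at h1
    exact h1
  -- the quotients
  choose t ht using fun o => h.l1_dvd (hg.1 o)
  obtain ⟨o₀, ho₀⟩ : ∃ o₀, IsUnit (t o₀) := by
    by_contra hcon
    push Not at hcon
    have h1 := hg.2 (h.Zmem z₀ h.z₀mem)
    obtain ⟨x, hx, r, hr, hxr⟩ := Submodule.mem_sup.mp h1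
    obtain ⟨a, ha⟩ := (Ideal.mem_span_range_iff_exists_fun).mp hx
    obtain ⟨b, hb⟩ := h.l1_dvd_sq hr
    have h2 : φ z₀ * (∑ o, φ (a o) * t o + φ z₀ * b) = φ z₀ * 1 := by
      calc φ z₀ * (∑ o, φ (a o) * t o + φ z₀ * b) =
          ∑ o, φ (a o) * (φ z₀ * t o) + φ z₀ ^ 2 * b := by
            rw [mul_add, Finset.mul_sum]
            congr 1
            · exact Finset.sum_congr rfl fun o _ => by ring
            · ring
        _ = φ (x + r) := by
            rw [map_add, ← ha, map_sum, hb]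
            congr 1
            exact Finset.sum_congr rfl fun o _ => by rw [← ht, map_mul]
        _ = φ z₀ * 1 := by rw [hxr, mul_one]
    have h3 := mul_left_cancel₀ h.ne h2
    have h4 : (1 : D) ∈ maximalIdeal D := by
      rw [← h3]
      refine Ideal.add_mem _ (Ideal.sum_mem _ fun o _ => Ideal.mul_mem_left _ _ ?_)
        (Ideal.mul_mem_right _ _ hφz)
      rw [IsLocalRing.mem_maximalIdeal, mem_nonunits_iff]
      exact hcon o
    exact (maximalIdeal.isMaximal D).ne_top ((Ideal.eq_top_iff_one _).mpr h4)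
  obtain ⟨u, hu⟩ := ho₀.exists_right_inv
  have hg0 : φ (g o₀) ≠ 0 := by
    rw [ht]
    exact mul_ne_zero h.ne ho₀.ne_zero
  let ψ : MvPolynomial (σ ⊕ {o : Option σ // o ≠ o₀}) O →+* D := eval₂Hom (φ.comp C)
    (Sum.elim (fun j => φ (X j)) (fun o => t o.1 * u))
  have hψ : ∀ p, ψ (rename Sum.inl p) = φ p := by
    intro p
    have : (ψ.comp ((rename Sum.inl : MvPolynomial σ O →ₐ[O]
        MvPolynomial (σ ⊕ {o : Option σ // o ≠ o₀}) O).toRingHom)) = φ := by
      apply MvPolynomial.ringHom_ext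
      · intro r
        change ψ (rename Sum.inl (C r)) = φ (C r)
        rw [rename_C]
        simp only [ψ, coe_eval₂Hom, eval₂_C]
        rfl
      · intro i
        change ψ (rename Sum.inl (X i)) = φ (X i)
        rw [rename_X]
        simp only [ψ, coe_eval₂Hom, eval₂_X, Sum.elim_inl]
    exact congrArg (fun f : MvPolynomial σ O →+* D => f p) this
  have hψC : ∀ m : O, ψ (C m) = φ (C m) := fun m => by
    rw [← hψ, rename_C]
  have hψX : ∀ o, φ (g o₀) * ψ (X (Sum.inr o)) = φ (g o.1) := by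
    intro o
    simp only [ψ, coe_eval₂Hom, eval₂_X, Sum.elim_inr]
    rw [ht o₀, ht o.1]
    linear_combination (φ z₀ * t o.1) * hu
  have hrel : ∀ o, ψ (chartRel g o₀ o) = 0 := by
    intro o
    rw [chartRel, map_sub, map_mul, hψ, hψ, hψX, sub_self]
  have hrelI : Ideal.span (Set.range (chartRel g o₀)) ≤ RingHom.ker ψ := by
    rw [Ideal.span_le]
    rintro _ ⟨o, rfl⟩
    exact hrel o
  have hψT : ∀ o, φ (g o₀) * ψ (chartT O o₀ o) = φ (g o) := by
    intro o
    have h1 : ψ _ = 0 := hrelI (l1_sub_mem g o₀ o)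
    rw [map_sub, map_mul, hψ, hψ] at h1
    exact (sub_eq_zero.mp h1).symm
  refine ⟨o₀, hg0, ψ, hψ, hrel, ?_⟩
  intro Fs s₁ hs₁ hFs hind
  have hψFs : ψ Fs = 0 := by
    have h1 : ψ _ = 0 := hrelI hFs
    rw [map_sub, hψ, map_mul, h.zero, mul_zero, zero_sub, neg_eq_zero, map_mul, map_pow, hψ] at h1
    exact (mul_eq_zero.mp h1).resolve_left (pow_ne_zero _ hg0)
  set Q := Ideal.comap ψ (maximalIdeal D) with hQdef
  have hQp : Q.IsPrime := Ideal.IsPrime.comap ψ
  have hQu : ∀ x, x ∉ Q ↔ IsUnit (ψ x) := by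
    intro x
    rw [hQdef, Ideal.mem_comap, IsLocalRing.mem_maximalIdeal, mem_nonunits_iff, not_not]
  have hQ0 : ∀ x, ψ x = 0 → x ∈ Q := by
    intro x hx
    rw [hQdef, Ideal.mem_comap, hx]
    exact Ideal.zero_mem _
  have hQq : ∀ p : MvPolynomial σ O, rename Sum.inl p ∈ Q ↔ p ∈ 𝔮 := by
    intro p
    rw [hQdef, Ideal.mem_comap, hψ, h.eq, Ideal.mem_comap]
  let κ := {o : Option σ // o ≠ o₀}
  let fr : Option κ → MvPolynomial (σ ⊕ {o : Option σ // o ≠ o₀}) O :=
    fun o => o.elim Fs (chartRel g o₀)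
  let E := Fintype.equivFin (Option κ)
  have hfr : ∀ o, ψ (fr o) = 0 := by
    rintro (_ | o)
    · exact hψFs
    · exact hrel o
  have hrange : Set.range (fun i => fr (E.symm i)) = Set.range fr := by
    ext x
    constructor
    · rintro ⟨i, rfl⟩
      exact ⟨E.symm i, rfl⟩
    · rintro ⟨i, rfl⟩
      exact ⟨E i, by simp⟩
  obtain ⟨s, hs, hsz⟩ := l1_nak h.max.ne_top hg
  refine isRegularLocalRing_of_chart ψ (fun i => fr (E.symm i)) (fun i => hfr _) ?_ ?_ ?_
  · -- independence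
    intro x hx c hc i
    have h2 : ∑ i, c i * fr (E.symm i) =
        ∑ o, c (E (some o)) * chartRel g o₀ o + c (E none) * Fs := by
      rw [← Equiv.sum_comp E]
      simp only [Equiv.symm_apply_apply]
      rw [Fintype.sum_option, add_comm]
      rfl
    rw [h2] at hc
    have h3 := hind x (c (E none)) (fun o => c (E (some o))) hx hc
    have h4 : x * ∑ o, c (E (some o)) * chartRel g o₀ o ∈ Q ^ 2 := by
      have h5 : x * (c (E none) * Fs) ∈ Q ^ 2 := by
        refine Ideal.mul_mem_left _ _ ?_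
        rw [pow_two]
        exact Ideal.mul_mem_mul h3 (hQ0 _ hψFs)
      rw [mul_add] at hc
      exact (Submodule.add_mem_iff_left _ h5).mp hc
    let c' : Option σ → MvPolynomial (σ ⊕ {o : Option σ // o ≠ o₀}) O := fun o =>
      if ho : o = o₀ then - ∑ o' : κ, c (E (some o')) * X (Sum.inr o') else c (E (some ⟨o, ho⟩))
    have h5 : ∑ o, c' o * rename Sum.inl (g o) = ∑ o, c (E (some o)) * chartRel g o₀ o := by
      have h6 : ∑ o, c' o * rename Sum.inl (g o) =
          c' o₀ * rename Sum.inl (g o₀) + ∑ o : κ, c' o.1 * rename Sum.inl (g o.1) := by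
        rw [← Finset.add_sum_erase _ _ (Finset.mem_univ o₀)]
        congr 1
        exact (Finset.sum_subtype _ (by simp) (fun o => c' o * rename Sum.inl (g o)))
      rw [h6]
      have h7 : c' o₀ = - ∑ o' : κ, c (E (some o')) * X (Sum.inr o') := by
        simp [c']
      have h8 : ∀ o : κ, c' o.1 = c (E (some o)) := by
        intro o
        simp only [c']
        rw [dif_neg o.2]
      rw [h7]
      simp only [h8]
      rw [neg_mul, Finset.sum_mul, ← Finset.sum_neg_distrib, ← Finset.sum_add_distrib]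
      refine Finset.sum_congr rfl fun o _ => ?_
      rw [chartRel]
      ring
    have h6 := par_indep hϖ hfin h.max h.unif hg hQp hQq ((hQu x).mpr hx) (c := c')
      (by rw [h5]; exact h4)
    obtain ⟨o, rfl⟩ := E.surjective i
    rcases o with _ | o
    · exact h3
    · have h7 := h6 o.1
      simp only [c'] at h7
      rw [dif_neg o.2] at h7
      exact h7
  · -- fractions
    intro z
    have hlin : ∀ z ∈ 𝔮, ∃ a, φ s * φ z = φ (g o₀) * ψ a := by
      intro z hz
      obtain ⟨a, ha⟩ := (Ideal.mem_span_range_iff_exists_fun).mp (hsz z hz)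
      refine ⟨∑ o, rename Sum.inl (a o) * chartT O o₀ o, ?_⟩
      rw [← map_mul, ← ha, map_sum, map_sum, Finset.mul_sum]
      refine Finset.sum_congr rfl fun o _ => ?_
      rw [map_mul, map_mul, hψ, ← hψT o]
      ring
    have hsu := h.l1_isUnit.mp hs
    obtain ⟨b, hb⟩ := hlin z₀ (h.Zmem z₀ h.z₀mem)
    have hbu : IsUnit (ψ b) := by
      have h1 : t o₀ * ψ b = φ s := by
        apply mul_left_cancel₀ h.ne
        rw [← mul_assoc, ← ht, ← hb, mul_comm]
      rw [← h1] at hsu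
      exact isUnit_of_mul_isUnit_right hsu
    have h1 : locIn ψ = ⊤ := by
      refine h.gen (locIn ψ) (dom_locIn ψ) (locIn_le (dom_locIn ψ) fun a => ?_) ?_
      · rw [← hψ]
        exact map_mem_locIn ψ _
      · intro z hz w hw
        obtain ⟨a, ha⟩ := hlin z (h.Zmem z hz)
        refine ⟨a, b, hbu, ?_⟩
        apply mul_left_cancel₀ hg0
        rw [← ha, ← hw]
        linear_combination (-w) * hb
    have h2 : z ∈ locIn ψ := by rw [h1]; exact Subring.mem_top z
    obtain ⟨a, b, h3, h4⟩ := h2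
    exact ⟨a, b, h3, h4⟩
  · -- the kernel
    intro p hp
    rw [hrange]
    obtain ⟨N, p₀, hp₀⟩ := l1_clear g o₀ p
    have hφp₀ : φ p₀ = 0 := by
      have h1 : ψ _ = 0 := hrelI hp₀
      rw [map_sub, map_mul, hp, mul_zero, zero_sub, neg_eq_zero, hψ] at h1
      exact h1
    obtain ⟨m, hm, q, hq⟩ := h.ker p₀ hφp₀
    have hle : Ideal.span (Set.range (chartRel g o₀)) ≤ Ideal.span (Set.range fr) := by
      rw [Ideal.span_le]
      rintro _ ⟨o, rfl⟩
      exact Ideal.subset_span ⟨some o, rfl⟩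
    refine ⟨C m * rename Sum.inl s₁ * rename Sum.inl (g o₀) ^ N, ?_, ?_⟩
    · rw [map_mul, map_mul, map_pow, hψC, hψ, hψ]
      exact mul_ne_zero (mul_ne_zero (h.char m hm) (h.l1_isUnit.mp hs₁).ne_zero)
        (pow_ne_zero _ hg0)
    · have h1 : (C m : MvPolynomial (σ ⊕ {o : Option σ // o ≠ o₀}) O) * rename Sum.inl p₀ =
          rename Sum.inl F * rename Sum.inl q := by
        rw [← map_mul, ← hq, map_mul, rename_C]
      have h2 : C m * rename Sum.inl s₁ * rename Sum.inl (g o₀) ^ N * p =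
          C m * rename Sum.inl s₁ * (rename Sum.inl (g o₀) ^ N * p - rename Sum.inl p₀) +
          rename Sum.inl q * (rename Sum.inl (s₁ * F) - rename Sum.inl (g o₀) ^ 2 * Fs) +
          rename Sum.inl q * rename Sum.inl (g o₀) ^ 2 * Fs := by
        rw [map_mul]
        linear_combination (rename Sum.inl s₁) * h1
      rw [h2]
      exact Ideal.add_mem _ (Ideal.add_mem _ (Ideal.mul_mem_left _ _ (hle hp₀))
        (Ideal.mul_mem_left _ _ (hle hFs))) (Ideal.mul_mem_left _ _
        (Ideal.subset_span ⟨none, rfl⟩))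

end Pool.Agent.Lib.MP_6a3dac_ag.Maj
end

section

/-!
# Nondegenerate tangent cones are resolved by the blow-up of the point
-/

set_option autoImplicit false

namespace Pool.Agent.Lib.MP_6a3dac_ag.Maj

open MvPolynomial IsLocalRing
open Pool.Agent.Lib.MP_6a3dac_ag.DNF

section L2aux

/-- Uniform Nakayama. -/
theorem l2_span {A : Type} [CommRing A] [IsNoetherianRing A] {𝔮 N : Ideal A} (hne : 𝔮 ≠ ⊤)
    (hN : 𝔮 ≤ N ⊔ 𝔮 ^ 2) : ∃ s, s ∉ 𝔮 ∧ ∀ z ∈ 𝔮, s * z ∈ N := by
  have hfg : 𝔮.FG := IsNoetherian.noetherian 𝔮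
  obtain ⟨r, hr, hle⟩ := Submodule.exists_sub_one_mem_and_smul_le_of_fg_of_le_sup
    (I := 𝔮) (N := N) (N' := 𝔮) (P := 𝔮) hfg le_rfl (by
      rw [pow_two] at hN
      exact hN)
  refine ⟨r, ?_, ?_⟩
  · intro h
    apply hne
    rw [Ideal.eq_top_iff_one]
    have := 𝔮.sub_mem h hr
    simpa using this
  · intro z hz
    exact hle (Submodule.smul_mem_pointwise_smul _ _ _ hz)

theorem l2_pow {A : Type} [CommRing A] {𝔮 N : Ideal A} {s : A} (h : ∀ z ∈ 𝔮, s * z ∈ N) (n : ℕ)
    {z : A} (hz : z ∈ 𝔮 ^ n) : s ^ n * z ∈ N ^ n := by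
  have h1 : Ideal.span {s} * 𝔮 ≤ N := by
    rw [Ideal.span_singleton_mul_le_iff]
    exact h
  have h2 := Ideal.pow_right_mono h1 n
  rw [mul_pow, Ideal.span_singleton_pow] at h2
  exact h2 (Ideal.mul_mem_mul (Ideal.mem_span_singleton_self _) hz)

theorem l2_sup_pow {B : Type} [CommRing B] (I J : Ideal B) (n : ℕ) :
    (I ⊔ J) ^ n ≤ I ^ n ⊔ J := by
  induction n with
  | zero => simp
  | succ n ih =>
    have h1 : (I ⊔ J) ^ n * (I ⊔ J) ≤ (I ^ n ⊔ J) * (I ⊔ J) := Ideal.mul_mono_left ih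
    have h2 : (I ^ n ⊔ J) * (I ⊔ J) = (I ^ n * I ⊔ I ^ n * J) ⊔ J * (I ⊔ J) := by
      rw [Ideal.sup_mul, Ideal.mul_sup]
    have h3 : I ^ n * J ≤ J := Ideal.mul_le_right
    have h4 : J * (I ⊔ J) ≤ J := Ideal.mul_le_left
    rw [pow_succ, pow_succ]
    refine h1.trans ?_
    rw [h2]
    exact sup_le (sup_le le_sup_left (le_sup_of_le_right h3)) (le_sup_of_le_right h4)

variable {O : Type} [CommRing O] {σ : Type} [Fintype σ] {g : Option σ → MvPolynomial σ O}
  {o₀ : Option σ}

omit [Fintype σ] in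
theorem l2_rel (o : Option σ) :
    rename Sum.inl (g o) - rename Sum.inl (g o₀) * chartT O o₀ o ∈
      Ideal.span (Set.range (chartRel g o₀)) := by
  unfold chartT
  split_ifs with h
  · subst h
    rw [mul_one, sub_self]
    exact Submodule.zero_mem _
  · exact Ideal.subset_span ⟨⟨o, h⟩, rfl⟩

omit [Fintype σ] in
theorem l2_map : (Ideal.span (Set.range g)).map (rename (R := O) (Sum.inl : σ → σ ⊕ _)) ≤
    Ideal.span {rename Sum.inl (g o₀)} ⊔ Ideal.span (Set.range (chartRel g o₀)) := by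
  rw [Ideal.map_span, Ideal.span_le]
  rintro _ ⟨_, ⟨o, rfl⟩, rfl⟩
  have h1 := l2_rel (g := g) (o₀ := o₀) o
  have h2 : rename Sum.inl (g o) = rename Sum.inl (g o₀) * chartT O o₀ o +
      (rename Sum.inl (g o) - rename Sum.inl (g o₀) * chartT O o₀ o) := by ring
  change rename Sum.inl (g o) ∈ _
  rw [h2]
  exact Ideal.add_mem _ (Ideal.mem_sup_left (Ideal.mul_mem_right _ _
    (Ideal.mem_span_singleton_self _))) (Ideal.mem_sup_right h1)

omit [Fintype σ] in
theorem l2_map_pow (n : ℕ) {x : MvPolynomial σ O} (hx : x ∈ Ideal.span (Set.range g) ^ n) :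
    ∃ b : MvPolynomial (σ ⊕ {o : Option σ // o ≠ o₀}) O,
      rename Sum.inl x - rename Sum.inl (g o₀) ^ n * b ∈
        Ideal.span (Set.range (chartRel g o₀)) := by
  have h1 : rename Sum.inl x ∈ (Ideal.span (Set.range g) ^ n).map
      (rename (R := O) (Sum.inl : σ → σ ⊕ {o : Option σ // o ≠ o₀})) :=
    Ideal.mem_map_of_mem _ hx
  rw [Ideal.map_pow] at h1
  have h2 := (Ideal.pow_right_mono (l2_map (g := g) (o₀ := o₀)) n).trans (l2_sup_pow _ _ n) h1
  rw [Ideal.span_singleton_pow, Ideal.mem_span_singleton_sup] at h2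
  obtain ⟨a, b, hb, hab⟩ := h2
  refine ⟨a, ?_⟩
  rw [← hab]
  have : a * rename Sum.inl (g o₀) ^ n + b - rename Sum.inl (g o₀) ^ n * a = b := by ring
  rw [this]
  exact hb

omit [Fintype σ] in
theorem l2_pd_inl {τ : Type} (k : τ) (q : MvPolynomial σ O) :
    pderiv (Sum.inr k : σ ⊕ τ) (rename Sum.inl q) = 0 := by
  classical
  apply pderiv_eq_zero_of_notMem_vars
  intro hmem
  apply MvPolynomial.vars_rename at hmem
  simp at hmem

omit [Fintype σ] in
theorem l2_pd_T [DecidableEq σ] (k : {o : Option σ // o ≠ o₀}) (o : Option σ) :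
    pderiv (Sum.inr k) (chartT O o₀ o) = if o = k.1 then 1 else 0 := by
  unfold chartT
  split_ifs with h h' h'
  · exact absurd (h'.symm.trans h) k.2
  · exact pderiv_one
  · rw [pderiv_X]
    have : k = ⟨o, h⟩ := Subtype.ext h'.symm
    rw [this, Pi.single_eq_same]
  · rw [pderiv_X]
    apply Pi.single_eq_of_ne
    intro hh
    apply h'
    have := Sum.inr_injective hh
    rw [← this]

omit [Fintype σ] in
theorem l2_pd_rel [DecidableEq σ] (k o : {o : Option σ // o ≠ o₀}) :
    pderiv (Sum.inr k) (chartRel g o₀ o) =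
      if o = k then -rename Sum.inl (g o₀) else 0 := by
  unfold chartRel
  rw [map_sub, l2_pd_inl, Derivation.leibniz, l2_pd_inl, smul_zero, add_zero, smul_eq_mul,
    pderiv_X]
  split_ifs with h
  · subst h
    rw [Pi.single_eq_same, mul_one, zero_sub]
  · rw [Pi.single_eq_of_ne, mul_zero, sub_zero]
    intro hh
    exact h (Sum.inr_injective hh)

theorem l2_indep [DecidableEq σ] {Q : Ideal (MvPolynomial (σ ⊕ {o : Option σ // o ≠ o₀}) O)}
    [Q.IsPrime]
    (hrel : ∀ o, chartRel g o₀ o ∈ Q) (hG : rename Sum.inl (g o₀) ∈ Q)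
    {Fs : MvPolynomial (σ ⊕ {o : Option σ // o ≠ o₀}) O} (hFs : Fs ∈ Q)
    (k : {o : Option σ // o ≠ o₀}) (hk : pderiv (Sum.inr k) Fs ∉ Q)
    {s e : MvPolynomial (σ ⊕ {o : Option σ // o ≠ o₀}) O}
    {c : {o : Option σ // o ≠ o₀} → MvPolynomial (σ ⊕ {o : Option σ // o ≠ o₀}) O}
    (hs : s ∉ Q) (h : s * (∑ o, c o * chartRel g o₀ o + e * Fs) ∈ Q ^ 2) : e ∈ Q := by
  have h1 := derivation_mem Q (pderiv (Sum.inr k)) hs h
  rw [map_add, map_sum, Derivation.leibniz, smul_eq_mul, smul_eq_mul] at h1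
  have h2 : ∑ o, pderiv (Sum.inr k) (c o * chartRel g o₀ o) ∈ Q := by
    apply Ideal.sum_mem
    intro o _
    rw [Derivation.leibniz, smul_eq_mul, smul_eq_mul, l2_pd_rel]
    apply Ideal.add_mem
    · apply Ideal.mul_mem_left
      split_ifs
      · exact Q.neg_mem hG
      · exact Q.zero_mem
    · exact Ideal.mul_mem_right _ _ (hrel o)
  have h3 : e * pderiv (Sum.inr k) Fs ∈ Q := by
    have h4 : Fs * pderiv (Sum.inr k) e ∈ Q := Ideal.mul_mem_right _ _ hFs
    have h5 := Q.sub_mem (Q.sub_mem h1 h2) h4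
    have e1 : ∑ o, pderiv (Sum.inr k) (c o * chartRel g o₀ o) +
        (e * pderiv (Sum.inr k) Fs + Fs * pderiv (Sum.inr k) e) -
        ∑ o, pderiv (Sum.inr k) (c o * chartRel g o₀ o) - Fs * pderiv (Sum.inr k) e =
        e * pderiv (Sum.inr k) Fs := by ring
    rwa [e1] at h5
  exact (Ideal.IsPrime.mem_or_mem ‹_› h3).resolve_right hk

/-- Euler's identity. -/
theorem l2_euler {ι κ : Type} [Fintype ι] [CommRing κ] (c : ι → ι → κ) (v : ι → κ) :
    ∑ k, v k * qd c v k = 2 * qf c v := by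
  unfold qd qf
  have e1 : ∑ k, v k * ∑ j, (c j k + c k j) * v j =
      (∑ k, ∑ j, c j k * (v j * v k)) + ∑ k, ∑ j, c k j * (v k * v j) := by
    rw [← Finset.sum_add_distrib]
    refine Finset.sum_congr rfl fun k _ => ?_
    rw [← Finset.sum_add_distrib, Finset.mul_sum]
    refine Finset.sum_congr rfl fun j _ => ?_
    ring
  rw [e1, Finset.sum_comm]
  ring

theorem l2_exists {ι κ : Type} [Fintype ι] [DecidableEq ι] [Field κ] {c : ι → ι → κ}
    (h : QNondeg c) {v : ι → κ} (hv : v ≠ 0) (hq : qf c v = 0) {i₀ : ι} (hi : v i₀ = 1) :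
    ∃ k, k ≠ i₀ ∧ qd c v k ≠ 0 := by
  obtain ⟨k, hk⟩ := h v hv hq
  by_cases hki : k = i₀
  · subst hki
    by_contra hno
    push Not at hno
    have h1 := l2_euler c v
    rw [hq, mul_zero, Finset.sum_eq_single_of_mem k (Finset.mem_univ _)
      (fun j _ hj => by rw [hno j hj, mul_zero]), hi, one_mul] at h1
    exact hk h1
  · exact ⟨k, hki, hk⟩

theorem l2_map_qf {ι R S : Type} [Fintype ι] [CommRing R] [CommRing S] (f : R →+* S)
    (c : ι → ι → R) (v : ι → R) : f (qf c v) = qf (fun j k => f (c j k)) fun j => f (v j) := by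
  simp only [qf, map_sum, map_mul]

theorem l2_map_qd {ι R S : Type} [Fintype ι] [CommRing R] [CommRing S] (f : R →+* S)
    (c : ι → ι → R) (v : ι → R) (k : ι) :
    f (qd c v k) = qd (fun j k => f (c j k)) (fun j => f (v j)) k := by
  simp only [qd, map_sum, map_mul, map_add]

theorem l2_qf_smul {ι R : Type} [Fintype ι] [CommRing R] (c : ι → ι → R) (a : R) (v : ι → R) :
    qf c (fun j => a * v j) = a ^ 2 * qf c v := by
  simp only [qf, Finset.mul_sum]
  refine Finset.sum_congr rfl fun j _ => Finset.sum_congr rfl fun k _ => ?_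
  ring

omit [Fintype σ] in
theorem l2_pd_quad [DecidableEq σ] {ι : Type} [Fintype ι] [DecidableEq ι] {e : ι → Option σ}
    (he : Function.Injective e) (c : ι → ι → MvPolynomial σ O) (k₀ : ι) (hk : e k₀ ≠ o₀) :
    pderiv (Sum.inr ⟨e k₀, hk⟩) (qf (fun j l => rename Sum.inl (c j l))
      (fun j => chartT O o₀ (e j))) =
      qd (fun j l => rename Sum.inl (c j l)) (fun j => chartT O o₀ (e j)) k₀ := by
  have h1 : ∀ j, pderiv (Sum.inr ⟨e k₀, hk⟩) (chartT O o₀ (e j)) = if j = k₀ then 1 else 0 := by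
    intro j
    rw [l2_pd_T]
    simp only [he.eq_iff]
  unfold qf qd
  rw [map_sum]
  have h2 : ∀ j, pderiv (Sum.inr ⟨e k₀, hk⟩) (∑ k, rename Sum.inl (c j k) *
      (chartT O o₀ (e j) * chartT O o₀ (e k))) =
      rename Sum.inl (c j k₀) * chartT O o₀ (e j) +
        if j = k₀ then ∑ k, rename Sum.inl (c k₀ k) * chartT O o₀ (e k) else 0 := by
    intro j
    rw [map_sum]
    have h3 : ∀ k, pderiv (Sum.inr ⟨e k₀, hk⟩) (rename Sum.inl (c j k) *
      (chartT O o₀ (e j) * chartT O o₀ (e k))) =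
      (if k = k₀ then rename Sum.inl (c j k) * chartT O o₀ (e j) else 0) +
      (if j = k₀ then rename Sum.inl (c j k) * chartT O o₀ (e k) else 0) := by
      intro k
      rw [Derivation.leibniz, Derivation.leibniz, l2_pd_inl, smul_zero, add_zero, h1, h1]
      simp only [smul_eq_mul]
      split_ifs <;> ring
    simp only [h3]
    rw [Finset.sum_add_distrib, Finset.sum_ite_eq' Finset.univ k₀, if_pos (Finset.mem_univ _)]
    congr 1
    split_ifs with hj
    · rw [hj]
    · rw [Finset.sum_const_zero]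
  simp only [h2]
  rw [Finset.sum_add_distrib, Finset.sum_ite_eq' Finset.univ k₀, if_pos (Finset.mem_univ _),
    ← Finset.sum_add_distrib]
  refine Finset.sum_congr rfl fun j _ => ?_
  ring

/-- The common final argument. -/
theorem l2_final [DecidableEq σ] {L : Type} [Field L]
    {Θ : MvPolynomial (σ ⊕ {o : Option σ // o ≠ o₀}) O →+* L}
    (hrel : ∀ o, Θ (chartRel g o₀ o) = 0) (hG : Θ (rename Sum.inl (g o₀)) = 0)
    {ι : Type} [Fintype ι] [DecidableEq ι] {e : ι → Option σ} (he : Function.Injective e)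
    {c : ι → ι → MvPolynomial σ O} {s₁ : MvPolynomial σ O} (hs₁ : Θ (rename Sum.inl s₁) ≠ 0)
    {W : MvPolynomial (σ ⊕ {o : Option σ // o ≠ o₀}) O}
    (hFs : Θ (rename Sum.inl s₁ * qf (fun j l => rename Sum.inl (c j l))
      (fun j => chartT O o₀ (e j)) + rename Sum.inl (g o₀) * W) = 0)
    {k₀ : ι} (hk : e k₀ ≠ o₀)
    (hqd : qd (fun j l => Θ (rename Sum.inl (c j l))) (fun j => Θ (chartT O o₀ (e j))) k₀ ≠ 0)
    {s e' : MvPolynomial (σ ⊕ {o : Option σ // o ≠ o₀}) O}
    {c' : {o : Option σ // o ≠ o₀} → MvPolynomial (σ ⊕ {o : Option σ // o ≠ o₀}) O}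
    (hs : Θ s ≠ 0) (h : s * (∑ o, c' o * chartRel g o₀ o + e' *
      (rename Sum.inl s₁ * qf (fun j l => rename Sum.inl (c j l))
      (fun j => chartT O o₀ (e j)) + rename Sum.inl (g o₀) * W)) ∈ (RingHom.ker Θ) ^ 2) :
    Θ e' = 0 := by
  have hQ : (RingHom.ker Θ).IsPrime := RingHom.ker_isPrime Θ
  refine l2_indep (Q := RingHom.ker Θ) (fun o => hrel o) hG hFs ⟨e k₀, hk⟩ ?_ hs h
  intro hd
  apply hqd
  have h1 : Θ _ = 0 := hd
  rw [map_add, Derivation.leibniz, Derivation.leibniz, l2_pd_inl, l2_pd_inl, l2_pd_quad he,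
    smul_zero, smul_zero, add_zero, add_zero, smul_eq_mul, smul_eq_mul, map_add, map_mul, map_mul,
    hG, zero_mul, add_zero, l2_map_qd] at h1
  exact (mul_eq_zero.mp h1).resolve_left hs₁

theorem l2_ext {ι κ L : Type} [Fintype ι] [CommRing κ] [Finite κ] [Field L] (hκ : IsField κ)
    (θ : κ →+* L) {c : ι → ι → κ} (h : QNondeg c) : QNondeg fun j k => θ (c j k) := by
  let _ := hκ.toField
  exact QNondeg.ext θ h

end L2aux

variable {O : Type} [CommRing O] [IsDomain O] [IsDiscreteValuationRing O] {σ : Type} [Fintype σ]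
  [DecidableEq σ] {D : Type} [CommRing D] [IsDomain D] [IsLocalRing D]
  {φ : MvPolynomial σ O →+* D} {ϖ : O} (hϖ : Irreducible ϖ) (hfin : Finite (O ⧸ Ideal.span {ϖ}))
  {F : MvPolynomial σ O} {𝔮 : Ideal (MvPolynomial σ O)} {Z : Set (MvPolynomial σ O)}
  {z₀ : MvPolynomial σ O} (h : BlowHyp φ ϖ F 𝔮 Z z₀)
include hϖ hfin h

omit [DecidableEq σ] [IsDomain D] in
/-- The extension of the residue fields. -/
theorem l2_theta {ι : Type} [Fintype ι] {c : ι → ι → MvPolynomial σ O}
    (hc : QNondeg fun j k => Ideal.Quotient.mk 𝔮 (c j k)) :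
    QNondeg fun j k => residue D (φ (c j k)) := by
  have hm := h.max
  have hfield : IsField (MvPolynomial σ O ⧸ 𝔮) :=
    (Ideal.Quotient.maximal_ideal_iff_isField_quotient 𝔮).mp hm
  have : Finite (MvPolynomial σ O ⧸ 𝔮) := by
    obtain ⟨e, he, hcard⟩ := exists_card_residue hϖ hfin h.max h.unif
    apply Nat.finite_of_card_ne_zero
    rw [hcard]
    have : Nontrivial (O ⧸ Ideal.span {ϖ}) := by
      apply Ideal.Quotient.nontrivial_iff.mpr
      rw [Ne, Ideal.span_singleton_eq_top]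
      exact hϖ.not_isUnit
    exact pow_ne_zero _ Nat.card_pos.ne'
  let θ : (MvPolynomial σ O ⧸ 𝔮) →+* ResidueField D :=
    Ideal.Quotient.lift 𝔮 ((residue D).comp φ) (fun a ha => by
      rw [h.eq, Ideal.mem_comap] at ha
      simpa [RingHom.comp_apply, residue_eq_zero_iff] using ha)
  have h1 : QNondeg fun j k => θ (Ideal.Quotient.mk 𝔮 (c j k)) := l2_ext hfield θ hc
  have e : (fun j k => θ (Ideal.Quotient.mk 𝔮 (c j k))) = fun j k => residue D (φ (c j k)) := by
    funext j k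
    exact Ideal.Quotient.lift_mk _ _ _
  rw [← e]
  exact h1

/-- Uses `BlowHyp.chart`, `QNondeg.ext`. -/
theorem BlowHyp.reg1 (hF : Odp1 F 𝔮) : IsRegularLocalRing D := by
  obtain ⟨g, c, hg, hr, hc⟩ := hF
  obtain ⟨o₀, hg0, ψ, hψ, hψrel, hmain⟩ := BlowHyp.chart hϖ hfin h hg
  have hprime : 𝔮.IsPrime := h.max.isPrime
  obtain ⟨s, hs, hspan⟩ := l2_span hprime.ne_top hg.2
  have hs3 : s ^ 3 ∉ 𝔮 := fun hh => hs (hprime.mem_of_pow_mem _ hh)
  obtain ⟨b, hb⟩ := l2_map_pow (o₀ := o₀) 3 (l2_pow hspan 3 hr)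
  have hker : RingHom.ker ((residue D).comp ψ) = Ideal.comap ψ (maximalIdeal D) := by
    ext x
    rw [RingHom.mem_ker, RingHom.comp_apply, residue_eq_zero_iff, Ideal.mem_comap]
  have hres : ∀ a, (residue D).comp ψ (rename Sum.inl a) = residue D (φ a) := fun a => by
    rw [RingHom.comp_apply, hψ]
  have hq0 : ∀ a, a ∈ 𝔮 ↔ residue D (φ a) = 0 := fun a => by
    rw [residue_eq_zero_iff, h.eq, Ideal.mem_comap]
  have hid : rename Sum.inl (s ^ 3 * F) - rename Sum.inl (g o₀) ^ 2 *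
      (rename Sum.inl (s ^ 3) * qf (fun j l => rename Sum.inl (c j l))
        (fun j => chartT O o₀ j) + rename Sum.inl (g o₀) * b) ∈
        Ideal.span (Set.range (chartRel g o₀)) := by
    rw [← Ideal.Quotient.eq]
    have hπ : ∀ o, Ideal.Quotient.mk (Ideal.span (Set.range (chartRel g o₀)))
        (rename Sum.inl (g o)) = Ideal.Quotient.mk _ (rename Sum.inl (g o₀)) *
          Ideal.Quotient.mk _ (chartT O o₀ o) := fun o => by
      rw [← map_mul, Ideal.Quotient.eq]
      exact l2_rel o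
    have hb' := Ideal.Quotient.eq.mpr hb
    have e1 : F = (F - ∑ j, ∑ k, c j k * (g j * g k)) + qf c g := by
      rw [qf]
      ring
    have e2 : Ideal.Quotient.mk (Ideal.span (Set.range (chartRel g o₀)))
        (rename Sum.inl (qf c g)) = Ideal.Quotient.mk _ (rename Sum.inl (g o₀)) ^ 2 *
        Ideal.Quotient.mk _ (qf (fun j l => rename Sum.inl (c j l)) (fun j => chartT O o₀ j)) := by
      have e3 : rename Sum.inl (qf c g) = qf (fun j l => rename Sum.inl (c j l))
        (fun j => (rename Sum.inl (g j) : MvPolynomial (σ ⊕ {o : Option σ // o ≠ o₀}) O)) :=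
        l2_map_qf (rename Sum.inl : MvPolynomial σ O →ₐ[O] _).toRingHom c g
      rw [e3, l2_map_qf, l2_map_qf, funext hπ, l2_qf_smul]
    rw [e1, mul_add, map_add, map_add, hb']
    simp only [map_mul, map_add, map_pow, e2]
    ring
  have hψG : ψ (rename Sum.inl (g o₀)) ≠ 0 := by
    rw [hψ]
    exact hg0
  have hψFs : ψ (rename Sum.inl (s ^ 3) * qf (fun j l => rename Sum.inl (c j l))
        (fun j => chartT O o₀ j) + rename Sum.inl (g o₀) * b) = 0 := by
    have h1 : Ideal.span (Set.range (chartRel g o₀)) ≤ RingHom.ker ψ := by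
      rw [Ideal.span_le]
      rintro _ ⟨o, rfl⟩
      exact hψrel o
    have h2 : ψ _ = 0 := h1 hid
    rw [map_sub, hψ, map_mul φ, h.zero, mul_zero, zero_sub, neg_eq_zero, map_mul, map_pow] at h2
    exact (mul_eq_zero.mp h2).resolve_left (pow_ne_zero _ hψG)
  have hG : (residue D).comp ψ (rename Sum.inl (g o₀)) = 0 := by
    rw [hres, ← hq0]
    exact hg.1 o₀
  have hs1 : (residue D).comp ψ (rename Sum.inl (s ^ 3)) ≠ 0 := by
    rw [hres, Ne, ← hq0]
    exact hs3
  have hFs0 : (residue D).comp ψ (rename Sum.inl (s ^ 3) * qf (fun j l => rename Sum.inl (c j l))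
        (fun j => chartT O o₀ j) + rename Sum.inl (g o₀) * b) = 0 := by
    rw [RingHom.comp_apply, hψFs, map_zero]
  have hqf : qf (fun j l => (residue D).comp ψ (rename Sum.inl (c j l)))
      (fun j => (residue D).comp ψ (chartT O o₀ j)) = 0 := by
    rw [← l2_map_qf]
    have h1 := hFs0
    rw [map_add, map_mul, map_mul, hG, zero_mul, add_zero] at h1
    exact (mul_eq_zero.mp h1).resolve_left hs1
  have ht0 : (residue D).comp ψ (chartT O o₀ o₀) = 1 := by
    rw [chartT, dif_pos rfl, map_one]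
  have hnd : QNondeg (fun j l => (residue D).comp ψ (rename Sum.inl (c j l))) := by
    simp only [hres]
    exact l2_theta hϖ hfin h hc
  obtain ⟨k, hk, hqd⟩ := l2_exists hnd (v := fun j => (residue D).comp ψ (chartT O o₀ j))
    (fun h0 => one_ne_zero (ht0.symm.trans (congrFun h0 o₀))) hqf ht0
  refine hmain _ (s ^ 3) hs3 hid fun s' e' c' hs' hmem => ?_
  rw [← residue_eq_zero_iff]
  rw [← hker] at hmem
  refine l2_final (e := id) (g := g) (o₀ := o₀) (Θ := (residue D).comp ψ) (fun o => ?_) hG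
    Function.injective_id hs1 hFs0 hk hqd ?_ hmem
  · rw [RingHom.comp_apply, hψrel, map_zero]
  · rw [RingHom.comp_apply, Ne, residue_eq_zero_iff]
    intro hh
    exact (mem_nonunits_iff.mp ((mem_maximalIdeal _).mp hh)) hs'

end Pool.Agent.Lib.MP_6a3dac_ag.Maj
end
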