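import Pool.Agent.Lib.MP_6a3dac_ag.Fam.GLDefs
import Pool.Agent.Lib.MP_6a3dac_ag.Mg.G012
import Pool.Agent.Lib.MP_6a3dac_ag.Fam.GL2
import Pool.Agent.Lib.MP_6a3dac_ag.Mg.G072
import Pool.Agent.Lib.MP_6a3dac_ag.Bert.Defs
import Pool.Agent.Lib.MP_6a3dac_ag.Fam.Defs
import Pool.Agent.Lib.MP_6a3dac_ag.Mg.G007

section

/-!
# Gluing regular models
-/

set_option autoImplicit false

namespace Pool.Agent.Lib.MP_6a3dac_ag.Fam

open MvPolynomial CategoryTheory Limits AlgebraicGeometry NumberField IsDedekindDomain Filter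
open Pool.Agent.Lib.MP_6a3dac_ag.DNF Pool.Agent.Lib.MP_6a3dac_ag.GL

section Dedekind

variable {R : Type} [CommRing R] [IsDedekindDomain R]

/-- The generic point. -/
def gpt (R : Type) [CommRing R] [IsDedekindDomain R] : Spec (CommRingCat.of R) :=
  (⟨⊥, Ideal.isPrime_bot⟩ : PrimeSpectrum R)

theorem gpt_mem (U : (Spec (CommRingCat.of R)).Opens) (x : Spec (CommRingCat.of R))
    (hx : x ∈ U) : gpt R ∈ U := by
  have h := (PrimeSpectrum.le_iff_specializes (gpt R : PrimeSpectrum R) x).1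
    (bot_le : (⊥ : Ideal R) ≤ _)
  exact h.mem_open U.isOpen hx

theorem asIdeal_ne_bot {U : (Spec (CommRingCat.of R)).Opens} (hU : gpt R ∈ U)
    {x : Spec (CommRingCat.of R)} (hx : x ∉ U) : (x : PrimeSpectrum R).asIdeal ≠ ⊥ := by
  intro h
  apply hx
  rwa [show x = gpt R from PrimeSpectrum.ext h]

theorem finite_compl (U : (Spec (CommRingCat.of R)).Opens) (hU : gpt R ∈ U) :
    ((U : Set (Spec (CommRingCat.of R)))ᶜ).Finite := by
  obtain ⟨s, hs⟩ := (PrimeSpectrum.isOpen_iff (R := R) U.1).1 U.isOpen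
  have h1 : ¬ s ⊆ ((⊥ : Ideal R) : Set R) := by
    intro h
    have h2 : (gpt R : PrimeSpectrum R) ∈ PrimeSpectrum.zeroLocus s := h
    rw [← hs] at h2
    exact h2 hU
  rw [Set.not_subset] at h1
  obtain ⟨f, hf, hf0⟩ := h1
  have hf0 : Ideal.span {f} ≠ 0 := by
    rw [Ne, Ideal.zero_eq_bot, Ideal.span_singleton_eq_bot]
    exact hf0
  have h2 := Ideal.finite_factors hf0
  refine (h2.image fun v : HeightOneSpectrum R =>
    (⟨v.asIdeal, v.isPrime⟩ : PrimeSpectrum R)).subset ?_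
  intro x hx
  refine ⟨⟨(x : PrimeSpectrum R).asIdeal, (x : PrimeSpectrum R).isPrime,
    asIdeal_ne_bot hU hx⟩, ?_, rfl⟩
  apply Ideal.dvd_span_singleton.2
  have h3 : (x : PrimeSpectrum R) ∈ PrimeSpectrum.zeroLocus s := by
    rw [← hs]
    exact hx
  exact h3 hf

theorem isClosed_singleton {U : (Spec (CommRingCat.of R)).Opens} (hU : gpt R ∈ U)
    {x : Spec (CommRingCat.of R)} (hx : x ∉ U) :
    IsClosed ({x} : Set (Spec (CommRingCat.of R))) := by
  have h := (x : PrimeSpectrum R).isPrime.isMaximal (asIdeal_ne_bot hU hx)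
  exact (PrimeSpectrum.isClosed_singleton_iff_isMaximal (x : PrimeSpectrum R)).2 h

end Dedekind

set_option backward.isDefEq.respectTransparency.types false in
theorem isZariskiLocalAtTarget_flat : IsZariskiLocalAtTarget @Flat := inferInstance

variable {E : Type} [Field E] [NumberField E]

theorem range_generic (y : Spec (CommRingCat.of (𝓞 E)))
    (hy : y ∈ Set.range (Spec.map (CommRingCat.ofHom (algebraMap (𝓞 E) E)))) :
    y = gpt (𝓞 E) := by
  obtain ⟨t, rfl⟩ := hy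
  apply PrimeSpectrum.ext
  change Ideal.comap (algebraMap (𝓞 E) E) (t : PrimeSpectrum E).asIdeal = ⊥
  have h1 : (t : PrimeSpectrum E).asIdeal = ⊥ :=
    (Ideal.eq_bot_or_top _).resolve_right (t : PrimeSpectrum E).isPrime.ne_top
  rw [h1]
  exact Ideal.comap_bot_of_injective _ (FaithfulSMul.algebraMap_injective (𝓞 E) E)

theorem exists_iso_restrict {Y₁ Y₂ : Scheme.{0}} (g₁ : Y₁ ⟶ Spec (CommRingCat.of (𝓞 E)))
    (g₂ : Y₂ ⟶ Spec (CommRingCat.of (𝓞 E))) (V₁ V₂ : (Spec (CommRingCat.of (𝓞 E))).Opens)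
    (h₁ : gpt (𝓞 E) ∈ V₁) (h₂ : gpt (𝓞 E) ∈ V₂) (hp₁ : IsProper (g₁ ∣_ V₁))
    (hp₂ : IsProper (g₂ ∣_ V₂))
    (e : pullback g₁ (Spec.map (CommRingCat.ofHom (algebraMap (𝓞 E) E))) ≅
      pullback g₂ (Spec.map (CommRingCat.ofHom (algebraMap (𝓞 E) E))))
    (he : e.hom ≫ pullback.snd g₂ (Spec.map (CommRingCat.ofHom (algebraMap (𝓞 E) E))) =
      pullback.snd g₁ (Spec.map (CommRingCat.ofHom (algebraMap (𝓞 E) E)))) :
    ∃ W : (Spec (CommRingCat.of (𝓞 E))).Opens, gpt (𝓞 E) ∈ W ∧ W ≤ V₁ ∧ W ≤ V₂ ∧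
      ∃ φ : (g₁ ⁻¹ᵁ W).toScheme ≅ (g₂ ⁻¹ᵁ W).toScheme,
        φ.hom ≫ (g₂ ⁻¹ᵁ W).ι ≫ g₂ = (g₁ ⁻¹ᵁ W).ι ≫ g₁ := by
  have hne : ∀ V : (Spec (CommRingCat.of (𝓞 E))).Opens, gpt (𝓞 E) ∈ V → V ≠ ⊥ := by
    rintro _ h rfl
    exact h
  obtain ⟨t, ht, ht₁, ht₂, φ, hφ⟩ := GL2.exists_iso_of_generic_of_isProper' E g₁ g₂ V₁ V₂
    (hne _ h₁) (hne _ h₂) hp₁ hp₂ e he
  exact ⟨_, ht, ht₁, ht₂, φ, hφ⟩

/-- **Gluing.** If the morphism `π` has a regular model near every prime, then it has a regular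
model. -/
theorem hasRegularModel_of_forall_hasModelAt {X : Scheme.{0}} {π : X ⟶ Spec (CommRingCat.of E)}
    (h : ∀ P : HeightOneSpectrum (𝓞 E), HasModelAt E P π) : HasRegularModel E π := by
  choose U Y g hPU hprop hflat hreg e he using h
  have hne : ∃ P : HeightOneSpectrum (𝓞 E), True := by
    obtain ⟨M, hM⟩ := Ideal.exists_maximal (𝓞 E)
    exact ⟨⟨M, hM.isPrime, Ring.ne_bot_of_isMaximal_of_not_isField hM
      (RingOfIntegers.not_isField E)⟩, trivial⟩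
  obtain ⟨P₀, -⟩ := hne
  have hp : ∀ P, gpt (𝓞 E) ∈ U P := fun P => gpt_mem _ _ (hPU P)
  obtain ⟨K, hK, x, hinj, hx0, hcov⟩ : ∃ (K : Type) (_ : Finite K)
      (x : K → Spec (CommRingCat.of (𝓞 E))), Function.Injective x ∧ (∀ k, x k ∉ U P₀) ∧
        ∀ y, y ∉ U P₀ → ∃ k, x k = y :=
    ⟨{x : Spec (CommRingCat.of (𝓞 E)) // x ∉ U P₀}, (finite_compl (U P₀) (hp P₀)).to_subtype,
      Subtype.val, Subtype.val_injective, fun k => k.2, fun y hy => ⟨⟨y, hy⟩, rfl⟩⟩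
  obtain ⟨pt, hpt0, hpt⟩ : ∃ pt : Option K → HeightOneSpectrum (𝓞 E), pt none = P₀ ∧
      ∀ k, ((pt (some k)).asIdeal = (x k : PrimeSpectrum (𝓞 E)).asIdeal) :=
    ⟨fun j => j.elim P₀ fun k => ⟨(x k : PrimeSpectrum (𝓞 E)).asIdeal,
      (x k : PrimeSpectrum (𝓞 E)).isPrime, asIdeal_ne_bot (hp P₀) (hx0 k)⟩, rfl, fun k => rfl⟩
  subst hpt0
  have hpt' : ∀ k, x k ∈ U (pt (some k)) := by
    intro k
    have h1 := hPU (pt (some k))
    have h2 : (⟨(pt (some k)).asIdeal, (pt (some k)).isPrime⟩ : PrimeSpectrum (𝓞 E)) = x k :=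
      PrimeSpectrum.ext (hpt k)
    rwa [h2] at h1
  have hiso := fun k : K =>
    exists_iso_restrict (g (pt none)) (g (pt (some k))) (U (pt none)) (U (pt (some k)))
      (hp _) (hp _) (hprop _) (hprop _) (e (pt none) ≪≫ (e (pt (some k))).symm) (by
        rw [Iso.trans_hom, Category.assoc, Iso.symm_hom, ← he (pt (some k)), Iso.inv_hom_id_assoc,
          he])
  choose W hpW hW0 hW φ hφ using hiso
  obtain ⟨V, Z, q, f, hVU, hVtop, hVn, hf1, hf2, hf3, hf4⟩ :=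
    exists_star (S := Spec (CommRingCat.of (𝓞 E))) (p₀ := gpt (𝓞 E)) finite_compl
      (fun U hU x hx => isClosed_singleton hU hx) hinj (U := fun j => U (pt j))
      (fun j => hp _) hpt' hx0 hcov (fun j => g (pt j)) W hpW hW φ hφ
  have hpr : IsProper q := of_glue (P := @IsProper) q V hVtop (fun j => g (pt j) ∣_ V j) f hf1 hf2
    hf4 fun j => morphismRestrict_of_le (P := @IsProper) _ (hVU j) (hprop (pt j))
  have := isZariskiLocalAtTarget_flat
  have hfl : Flat q := of_glue (P := @Flat) q V hVtop (fun j => g (pt j) ∣_ V j) f hf1 hf2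
    hf4 fun j => morphismRestrict_of_le (P := @Flat) _ (hVU j) (hflat (pt j))
  refine ⟨Z, q, hpr, hfl, ?_, ?_⟩
  · intro z
    obtain ⟨j, y, rfl⟩ := hf3 z
    have := hf1 j
    rw [← isRegularLocalRing_stalk_of_isOpenImmersion (f j) y,
      isRegularLocalRing_stalk_of_isOpenImmersion (g (pt j) ⁻¹ᵁ V j).ι y]
    exact hreg (pt j) _ (hVU j y.2)
  · have hV0 : gpt (𝓞 E) ∈ V none := by
      rw [hVn]
      exact hp _
    have := hf1 none
    obtain ⟨e₁, he₁⟩ := exists_pullback_iso q ((g (pt none) ⁻¹ᵁ V none).ι ≫ g (pt none)) (f none)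
      (by rw [hf2, morphismRestrict_ι]) (Spec.map (CommRingCat.ofHom (algebraMap (𝓞 E) E)))
      (fun z hz => hf4 none z (by rwa [range_generic _ hz]))
    obtain ⟨e₂, he₂⟩ := exists_pullback_iso (g (pt none))
      ((g (pt none) ⁻¹ᵁ V none).ι ≫ g (pt none)) (g (pt none) ⁻¹ᵁ V none).ι rfl
      (Spec.map (CommRingCat.ofHom (algebraMap (𝓞 E) E))) (fun z hz => by
        rw [Scheme.Opens.range_ι]
        change g (pt none) z ∈ V none
        rwa [range_generic _ hz])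
    refine ⟨e₁.symm ≪≫ e₂ ≪≫ e (pt none), ?_⟩
    rw [Iso.trans_hom, Iso.trans_hom, Category.assoc, Category.assoc, he, he₂, Iso.symm_hom,
      Iso.inv_comp_eq, he₁]

end Pool.Agent.Lib.MP_6a3dac_ag.Fam
end

section

/-!
# Ideals whose local rings are domains
-/

set_option autoImplicit false

namespace Pool.Agent.Lib.MP_6a3dac_ag.Bert

open IsLocalRing

/-- The localizations of `B ⧸ 𝔞` at the prime ideals are domains. -/
def LocDom {B : Type} [CommRing B] (𝔞 : Ideal B) : Prop :=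
  ∀ 𝔮 : Ideal B, 𝔮.IsPrime → 𝔞 ≤ 𝔮 → ∀ x y, x * y ∈ 𝔞 →
    (∃ z, z ∉ 𝔮 ∧ z * x ∈ 𝔞) ∨ (∃ z, z ∉ 𝔮 ∧ z * y ∈ 𝔞)

/-- A minimal prime is locally the given ideal. -/
theorem LocDom.exists_mul_mem {B : Type} [CommRing B] {𝔞 : Ideal B} (h : LocDom 𝔞) {𝔭 : Ideal B}
    (h𝔭 : 𝔭 ∈ 𝔞.minimalPrimes) {𝔮 : Ideal B} (h𝔮 : 𝔮.IsPrime) (hle : 𝔭 ≤ 𝔮) {x : B}
    (hx : x ∈ 𝔭) : ∃ z, z ∉ 𝔮 ∧ z * x ∈ 𝔞 := by
  have h𝔭p : 𝔭.IsPrime := h𝔭.1.1
  have h𝔞𝔭 : 𝔞 ≤ 𝔭 := h𝔭.1.2
  have h1 : (1 : B) ∉ 𝔮 := fun h1 => h𝔮.ne_top ((Ideal.eq_top_iff_one 𝔮).mpr h1)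
  let 𝔞' : Ideal B :=
    { carrier := {x | ∃ z, z ∉ 𝔮 ∧ z * x ∈ 𝔞}
      add_mem' := by
        rintro a b ⟨z, hz, hza⟩ ⟨w, hw, hwb⟩
        refine ⟨z * w, fun h2 => (h𝔮.mem_or_mem h2).elim hz hw, ?_⟩
        have e1 : z * w * (a + b) = w * (z * a) + z * (w * b) := by ring
        rw [e1]
        exact 𝔞.add_mem (𝔞.mul_mem_left _ hza) (𝔞.mul_mem_left _ hwb)
      zero_mem' := ⟨1, h1, by rw [mul_zero]; exact 𝔞.zero_mem⟩
      smul_mem' := by
        rintro c a ⟨z, hz, hza⟩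
        refine ⟨z, hz, ?_⟩
        have e1 : z * (c • a) = c * (z * a) := by rw [smul_eq_mul]; ring
        rw [e1]
        exact 𝔞.mul_mem_left _ hza }
  have hle' : 𝔞' ≤ 𝔭 := by
    rintro a ⟨z, hz, hza⟩
    exact (h𝔭p.mem_or_mem (h𝔞𝔭 hza)).resolve_left fun h2 => hz (hle h2)
  have hprime : 𝔞'.IsPrime := by
    refine ⟨fun htop => h𝔭p.ne_top (top_le_iff.mp (htop ▸ hle')), ?_⟩
    rintro a b ⟨z, hz, hzab⟩
    rw [← mul_assoc] at hzab
    rcases h 𝔮 h𝔮 (h𝔞𝔭.trans hle) (z * a) b hzab with ⟨w, hw, hwa⟩ | ⟨w, hw, hwb⟩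
    · left
      exact ⟨w * z, fun h2 => (h𝔮.mem_or_mem h2).elim hw hz, by rw [mul_assoc]; exact hwa⟩
    · right
      exact ⟨w, hw, hwb⟩
  have hmin : 𝔭 ≤ 𝔞' :=
    h𝔭.2 ⟨hprime, fun a ha => ⟨1, h1, by rw [one_mul]; exact ha⟩⟩ hle'
  exact hmin hx

/-- The minimal primes are generated by an idempotent modulo the ideal. -/
theorem LocDom.exists_idempotent {B : Type} [CommRing B] [IsNoetherianRing B]
    (h : LocDom (⊥ : Ideal B)) {𝔭 : Ideal B} (h𝔭 : 𝔭 ∈ minimalPrimes B) :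
    ∃ e : B, IsIdempotentElem e ∧ 𝔭 = Ideal.span {e} := by
  have hfg : 𝔭.FG := IsNoetherian.noetherian 𝔭
  rw [← Ideal.isIdempotentElem_iff_of_fg _ hfg]
  refine le_antisymm Ideal.mul_le_left ?_
  intro x hx
  by_contra hx2
  let c : Ideal B := (𝔭 * 𝔭).colon {x}
  have hmem : ∀ z, z ∈ c ↔ z * x ∈ 𝔭 * 𝔭 := by
    intro z
    rw [Submodule.mem_colon_singleton, smul_eq_mul]
  have hc : c ≠ ⊤ := by
    intro htop
    apply hx2
    have h1 : (1 : B) ∈ c := by rw [htop]; trivial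
    rw [hmem, one_mul] at h1
    exact h1
  obtain ⟨𝔫, h𝔫, hle⟩ := Ideal.exists_le_maximal c hc
  by_cases hp : 𝔭 ≤ 𝔫
  · obtain ⟨z, hz, hzx⟩ := h.exists_mul_mem h𝔭 h𝔫.isPrime hp hx
    apply hz
    apply hle
    rw [hmem, Ideal.mem_bot.1 hzx]
    exact Submodule.zero_mem _
  · obtain ⟨w, hw, hw'⟩ := SetLike.not_le_iff_exists.1 hp
    apply hw'
    apply hle
    rw [hmem]
    exact Ideal.mul_mem_mul hw hx

theorem LocDom.map_of_surjective {B B' : Type} [CommRing B] [CommRing B'] (χ : B →+* B')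
    (hχ : Function.Surjective χ) {𝔞 : Ideal B} (hker : ∀ x, χ x = 0 ↔ x ∈ 𝔞)
    (h : LocDom 𝔞) : LocDom (⊥ : Ideal B') := by
  intro 𝔮' h𝔮' _ x' y' hxy
  obtain ⟨x, rfl⟩ := hχ x'
  obtain ⟨y, rfl⟩ := hχ y'
  rw [Ideal.mem_bot, ← map_mul, hker] at hxy
  have hle : 𝔞 ≤ Ideal.comap χ 𝔮' := by
    intro w hw
    rw [Ideal.mem_comap, (hker w).2 hw]
    exact 𝔮'.zero_mem
  rcases h (Ideal.comap χ 𝔮') (Ideal.IsPrime.comap χ) hle x y hxy with ⟨z, hz, hzx⟩ | ⟨z, hz, hzx⟩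
  · exact Or.inl ⟨χ z, hz, by rw [Ideal.mem_bot, ← map_mul, hker]; exact hzx⟩
  · exact Or.inr ⟨χ z, hz, by rw [Ideal.mem_bot, ← map_mul, hker]; exact hzx⟩

/-- `f` is not in the square of the maximal ideal of the local ring at `𝔮` of `B ⧸ 𝔞`. -/
def NotSq {B : Type} [CommRing B] (𝔞 : Ideal B) (f : B) (𝔮 : Ideal B) : Prop :=
  ∀ z, z ∉ 𝔮 → z * f ∉ 𝔮 ^ 2 ⊔ 𝔞

/-- In a regular ring, the quotient by an element outside the square of the maximal ideal is
locally a domain. -/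
theorem locally_prime_of_notSq {S : Type} [CommRing S] [IsRegularRing S] {f : S} {𝔮 : Ideal S}
    (h𝔮 : 𝔮.IsPrime) (hf : f ∈ 𝔮) (hns : ∀ z, z ∉ 𝔮 → z * f ∉ 𝔮 ^ 2) {x y : S}
    (hxy : f ∣ x * y) : (∃ z, z ∉ 𝔮 ∧ f ∣ z * x) ∨ (∃ z, z ∉ 𝔮 ∧ f ∣ z * y) := by
  have hR : IsRegularLocalRing (Localization.AtPrime 𝔮) := inferInstance
  have h1 : algebraMap S (Localization.AtPrime 𝔮) f ∈ maximalIdeal (Localization.AtPrime 𝔮) := by
    rw [← Localization.AtPrime.map_eq_maximalIdeal]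
    exact Ideal.mem_map_of_mem _ hf
  have h2 : algebraMap S (Localization.AtPrime 𝔮) f ∉
      maximalIdeal (Localization.AtPrime 𝔮) ^ 2 := by
    rw [mem_maximalIdeal_pow_iff]
    rintro ⟨s, hs, hs2⟩
    exact hns s hs hs2
  have h3 := isRegularLocalRing_quotient hR h1 h2
  have hdom : IsDomain (Localization.AtPrime 𝔮 ⧸
      Ideal.span {algebraMap S (Localization.AtPrime 𝔮) f}) := isDomain_aux _ _ le_rfl
  have hprime := (Ideal.Quotient.isDomain_iff_prime _).1 hdom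
  have key : ∀ w : S, algebraMap S (Localization.AtPrime 𝔮) w ∈
      Ideal.span {algebraMap S (Localization.AtPrime 𝔮) f} → ∃ z, z ∉ 𝔮 ∧ f ∣ z * w := by
    intro w hw
    rw [← Set.image_singleton, ← Ideal.map_span,
      IsLocalization.algebraMap_mem_map_algebraMap_iff 𝔮.primeCompl] at hw
    obtain ⟨z, hz, hzw⟩ := hw
    exact ⟨z, hz, Ideal.mem_span_singleton.1 hzw⟩
  have h4 : algebraMap S (Localization.AtPrime 𝔮) x * algebraMap S (Localization.AtPrime 𝔮) y ∈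
      Ideal.span {algebraMap S (Localization.AtPrime 𝔮) f} := by
    rw [← map_mul, Ideal.mem_span_singleton]
    exact map_dvd _ hxy
  rcases hprime.mem_or_mem h4 with h | h
  · exact Or.inl (key x h)
  · exact Or.inr (key y h)

/-- The same in a presentation. -/
theorem locally_prime_of_notSq' {B S : Type} [CommRing B] [CommRing S] [IsRegularRing S]
    (χ : B →+* S) (hχ : Function.Surjective χ) {𝔞 : Ideal B} (hker : ∀ x, χ x = 0 ↔ x ∈ 𝔞)
    {f : B} {𝔮 : Ideal B} (h𝔮 : 𝔮.IsPrime) (hle : 𝔞 ≤ 𝔮) (hf : f ∈ 𝔮) (hns : NotSq 𝔞 f 𝔮)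
    {x y : B} (hxy : x * y ∈ 𝔞 ⊔ Ideal.span {f}) :
    (∃ z, z ∉ 𝔮 ∧ z * x ∈ 𝔞 ⊔ Ideal.span {f}) ∨ (∃ z, z ∉ 𝔮 ∧ z * y ∈ 𝔞 ⊔ Ideal.span {f}) := by
  have hk : RingHom.ker χ ≤ 𝔮 := fun w hw => hle ((hker w).1 hw)
  have hq : ∀ w, χ w ∈ 𝔮.map χ ↔ w ∈ 𝔮 := by
    intro w
    constructor
    · intro hw
      obtain ⟨v, hv, hv2⟩ := (Ideal.mem_map_iff_of_surjective χ hχ).1 hw
      have h1 : w - v ∈ 𝔮 := hk (by rw [RingHom.mem_ker, map_sub, hv2, sub_self])
      simpa using 𝔮.add_mem h1 hv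
    · exact fun hw => Ideal.mem_map_of_mem χ hw
  have hprime : (𝔮.map χ).IsPrime := Ideal.map_isPrime_of_surjective hχ hk
  have hsup : ∀ w, f ∣ w → w ∈ 𝔞 ⊔ Ideal.span {f} := fun w hw =>
    Ideal.mem_sup_right (Ideal.mem_span_singleton.2 hw)
  have h2 : χ f ∣ χ x * χ y := by
    obtain ⟨u, hu, v, hv, huv⟩ := Submodule.mem_sup.1 hxy
    obtain ⟨t, rfl⟩ := Ideal.mem_span_singleton.1 hv
    rw [← map_mul, ← huv, map_add, (hker u).2 hu, zero_add, map_mul]
    exact Dvd.intro _ rfl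
  have key : ∀ w, (∃ z, z ∉ 𝔮.map χ ∧ χ f ∣ z * χ w) →
      ∃ z, z ∉ 𝔮 ∧ z * w ∈ 𝔞 ⊔ Ideal.span {f} := by
    rintro w ⟨z', hz', t', ht'⟩
    obtain ⟨z, rfl⟩ := hχ z'
    obtain ⟨t, rfl⟩ := hχ t'
    refine ⟨z, fun hz => hz' ((hq z).2 hz), ?_⟩
    have h3 : z * w - f * t ∈ 𝔞 := by
      rw [← hker, map_sub, map_mul, map_mul, ht', sub_self]
    have h4 := add_mem (Ideal.mem_sup_left (T := Ideal.span {f}) h3) (hsup (f * t) (Dvd.intro _ rfl))
    simpa using h4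
  rcases locally_prime_of_notSq hprime ((hq f).2 hf) (by
    intro z' hz' hmem
    obtain ⟨z, rfl⟩ := hχ z'
    rw [← map_mul, ← Ideal.map_pow] at hmem
    obtain ⟨w, hw, hw2⟩ := (Ideal.mem_map_iff_of_surjective χ hχ).1 hmem
    apply hns z fun hz => hz' ((hq z).2 hz)
    have h5 : z * f - w ∈ 𝔞 := by rw [← hker, map_sub, hw2, sub_self]
    have h6 := add_mem (Ideal.mem_sup_right (S := 𝔮 ^ 2) h5) (Ideal.mem_sup_left hw)
    simpa using h6) h2 with h | h
  · exact Or.inl (key x h)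
  · exact Or.inr (key y h)

/-- The local ring at a point where `f` is not in the square of the maximal ideal. -/
theorem isRegularLocalRing_of_notSq {B S D : Type} [CommRing B] [CommRing S] [IsRegularRing S]
    [CommRing D] [IsDomain D] [IsLocalRing D] (χ : B →+* S) (hχ : Function.Surjective χ)
    {𝔞 : Ideal B} (hker : ∀ x, χ x = 0 ↔ x ∈ 𝔞) {f : B} (δ : B →+* D)
    (h𝔞 : ∀ x ∈ 𝔞, δ x = 0) (hf : δ f = 0)
    (hns : NotSq 𝔞 f (Ideal.comap δ (maximalIdeal D)))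
    (ha : ∀ z, ∃ a b, IsUnit (δ b) ∧ z * δ b = δ a)
    (hb : ∀ p, δ p = 0 → ∃ τ, δ τ ≠ 0 ∧ τ * p ∈ 𝔞 ⊔ Ideal.span {f}) :
    IsRegularLocalRing D := by
  have hk : RingHom.ker χ ≤ RingHom.ker δ := fun w hw => h𝔞 w ((hker w).1 hw)
  obtain ⟨δ', hδ'⟩ : ∃ δ' : S →+* D, ∀ x, δ' (χ x) = δ x :=
    ⟨RingHom.liftOfSurjective χ hχ ⟨δ, hk⟩, fun x =>
      RingHom.liftOfRightInverse_comp_apply _ _ _ ⟨δ, hk⟩ x⟩
  set Q := Ideal.comap δ (maximalIdeal D) with hQ
  have hmap : Ideal.comap δ' (maximalIdeal D) = Q.map χ := by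
    ext y
    obtain ⟨x, rfl⟩ := hχ y
    rw [Ideal.mem_comap, hδ']
    constructor
    · exact fun h => Ideal.mem_map_of_mem χ h
    · intro h
      obtain ⟨w, hw, hw2⟩ := (Ideal.mem_map_iff_of_surjective χ hχ).1 h
      rw [← hδ', ← hw2, hδ']
      exact hw
  apply isRegularLocalRing_of_chart δ' (r := 1) (fun _ => χ f)
  · intro i
    rw [hδ', hf]
  · intro s hs c hc i
    by_contra hci
    obtain ⟨s, rfl⟩ := hχ s
    have hi : i = 0 := Subsingleton.elim _ _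
    subst hi
    obtain ⟨c0, hc0⟩ := hχ (c 0)
    rw [Fin.sum_univ_one, hmap, ← hc0, ← map_mul, ← map_mul, ← Ideal.map_pow] at hc
    obtain ⟨w, hw, hw2⟩ := (Ideal.mem_map_iff_of_surjective χ hχ).1 hc
    have h5 : s * (c0 * f) - w ∈ 𝔞 := by rw [← hker, map_sub, hw2, sub_self]
    have h6 := add_mem (Ideal.mem_sup_right (S := Q ^ 2) h5) (Ideal.mem_sup_left hw)
    rw [sub_add_cancel, ← mul_assoc] at h6
    refine hns (s * c0) ?_ h6
    intro h7
    rw [hQ, Ideal.mem_comap, map_mul] at h7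
    rw [hδ'] at hs
    rw [Ideal.unit_mul_mem_iff_mem _ hs] at h7
    apply hci
    rw [Ideal.mem_comap, ← hc0, hδ']
    exact h7
  · intro z
    obtain ⟨a, b, hb1, hb2⟩ := ha z
    exact ⟨χ a, χ b, by rw [hδ']; exact hb1, by rw [hδ', hδ']; exact hb2⟩
  · intro p hp
    obtain ⟨p, rfl⟩ := hχ p
    rw [hδ'] at hp
    obtain ⟨τ, hτ, hτp⟩ := hb p hp
    refine ⟨χ τ, by rw [hδ']; exact hτ, ?_⟩
    obtain ⟨u, hu, v, hv, huv⟩ := Submodule.mem_sup.1 hτp
    obtain ⟨t, rfl⟩ := Ideal.mem_span_singleton.1 hv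
    rw [← map_mul, ← huv, map_add, (hker u).2 hu, zero_add, map_mul]
    exact Ideal.mul_mem_right _ _ (Ideal.subset_span ⟨0, rfl⟩)

end Pool.Agent.Lib.MP_6a3dac_ag.Bert
end

section

/-!
# The vector fields of a standard chart
-/

set_option autoImplicit false

namespace Pool.Agent.Lib.MP_6a3dac_ag.Bert

open MvPolynomial
open Pool.Agent.Lib.MP_6a3dac_ag.DNF

namespace Std

variable {R σ : Type} [CommRing R] [DecidableEq σ] [Fintype σ] (U : Std R σ)

/-- The coefficients of the vector fields. -/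
noncomputable def vc (e m : σ) : MvPolynomial σ R := U.vf e (X m)

private theorem d1_apply (e : σ) (f : MvPolynomial σ R) : U.vf e f = U.Δ * pderiv e f -
    ∑ l : {l : σ // l ∉ U.T}, (∑ κ, U.J.adjugate l κ * pderiv e (U.g κ)) * pderiv l.1 f := by
  rw [vf, Derivation.sub_apply, Derivation.smul_apply, smul_eq_mul]
  congr 1
  rw [← Derivation.coeFnAddMonoidHom_apply, map_sum, Finset.sum_apply]
  rfl

private theorem d1_deriv (D : Derivation R (MvPolynomial σ R) (MvPolynomial σ R))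
    (f : MvPolynomial σ R) : D f = ∑ m, D (X m) * pderiv m f := by
  have h : D = ∑ m, D (X m) • (pderiv m : Derivation R (MvPolynomial σ R) (MvPolynomial σ R)) := by
    apply MvPolynomial.derivation_ext
    intro i
    rw [← Derivation.coeFnAddMonoidHom_apply (∑ m, _), map_sum, Finset.sum_apply]
    simp [pderiv_X, Pi.single_apply]
  conv_lhs => rw [h]
  rw [← Derivation.coeFnAddMonoidHom_apply, map_sum, Finset.sum_apply]
  rfl

theorem vf_eq_sum (e : σ) (f : MvPolynomial σ R) : U.vf e f = ∑ m, U.vc e m * pderiv m f :=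
  d1_deriv (U.vf e) f

theorem vc_of_mem {e m : σ} (hm : m ∈ U.T) : U.vc e m = if e = m then U.Δ else 0 := by
  rw [vc, d1_apply, Finset.sum_eq_zero, sub_zero, pderiv_X, Pi.single_apply]
  · split_ifs with h1 h2 h2
    · rw [mul_one]
    · exact absurd h1.symm h2
    · exact absurd h2.symm h1
    · rw [mul_zero]
  · intro l _
    rw [pderiv_X, Pi.single_apply, if_neg, mul_zero]
    intro h
    exact l.2 (h ▸ hm)

/-- The equations are constant along the vector fields. -/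
theorem vf_gL (e : σ) (κ : {l : σ // l ∉ U.T}) : U.vf e (U.g κ) = 0 := by
  rw [d1_apply]
  have h1 : ∑ l : {l : σ // l ∉ U.T}, (∑ κ', U.J.adjugate l κ' * pderiv e (U.g κ')) *
      pderiv l.1 (U.g κ) = ∑ κ', (U.J * U.J.adjugate) κ κ' * pderiv e (U.g κ') := by
    simp only [Matrix.mul_apply, Finset.sum_mul]
    rw [Finset.sum_comm]
    refine Finset.sum_congr rfl fun κ' _ => Finset.sum_congr rfl fun l _ => ?_
    rw [J, Matrix.of_apply]
    ring
  rw [h1, Matrix.mul_adjugate]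
  simp [Matrix.one_apply, Δ]

private theorem d2_split {M : Type} [AddCommMonoid M] (T : Finset σ) (F : σ → M) :
    ∑ m, F m = ∑ e ∈ T, F e + ∑ l : {l : σ // l ∉ T}, F l.1 := by
  rw [← Finset.sum_add_sum_compl T F]
  congr 1
  exact Finset.sum_subtype Tᶜ (fun x => by simp) F

private theorem d2_aux {A : Type} [CommRing A] (T : Finset σ) (δ : A) (d p : σ → A)
    (c : {l : σ // l ∉ T} → σ → A) :
    δ * (∑ e ∈ T, d e * p e + ∑ l : {l : σ // l ∉ T}, d l.1 * p l.1) =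
      ∑ e ∈ T, d e * (δ * p e - ∑ l : {l : σ // l ∉ T}, c l e * p l.1) +
        ∑ l : {l : σ // l ∉ T}, (∑ e ∈ T, d e * c l e + δ * d l.1) * p l.1 := by
  have h1 : ∑ e ∈ T, d e * (δ * p e - ∑ l : {l : σ // l ∉ T}, c l e * p l.1) =
      ∑ e ∈ T, d e * (δ * p e) - ∑ l : {l : σ // l ∉ T}, ∑ e ∈ T, d e * c l e * p l.1 := by
    rw [Finset.sum_comm, ← Finset.sum_sub_distrib]
    refine Finset.sum_congr rfl fun e _ => ?_
    rw [mul_sub, Finset.mul_sum]
    congr 1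
    exact Finset.sum_congr rfl fun l _ => by ring
  have h2 : ∑ l : {l : σ // l ∉ T}, (∑ e ∈ T, d e * c l e + δ * d l.1) * p l.1 =
      ∑ l : {l : σ // l ∉ T}, ∑ e ∈ T, d e * c l e * p l.1 +
        ∑ l : {l : σ // l ∉ T}, δ * (d l.1 * p l.1) := by
    rw [← Finset.sum_add_distrib]
    refine Finset.sum_congr rfl fun l _ => ?_
    rw [add_mul, Finset.sum_mul]
    congr 1
    ring
  have h3 : ∑ e ∈ T, d e * (δ * p e) = ∑ e ∈ T, δ * (d e * p e) :=
    Finset.sum_congr rfl fun e _ => by ring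
  rw [h1, h2, h3, mul_add, Finset.mul_sum, Finset.mul_sum]
  ring

/-- Every derivation is a combination of the vector fields and the derivations along the other
coordinates. -/
theorem delta_mul (D : Derivation R (MvPolynomial σ R) (MvPolynomial σ R))
    (f : MvPolynomial σ R) : U.Δ * D f = ∑ e ∈ U.T, D (X e) * U.vf e f +
      ∑ l : {l : σ // l ∉ U.T}, (∑ κ, U.J.adjugate l κ * D (U.g κ)) * pderiv l.1 f := by
  have hg : ∀ l : {l : σ // l ∉ U.T}, ∑ κ, U.J.adjugate l κ * D (U.g κ) =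
      ∑ e ∈ U.T, D (X e) * ∑ κ, U.J.adjugate l κ * pderiv e (U.g κ) + U.Δ * D (X l.1) := by
    intro l
    have h1 : ∀ κ, D (U.g κ) = ∑ e ∈ U.T, D (X e) * pderiv e (U.g κ) +
        ∑ j : {l : σ // l ∉ U.T}, D (X j.1) * pderiv j.1 (U.g κ) := by
      intro κ
      rw [d1_deriv D (U.g κ), d2_split U.T]
    have h2 : ∑ j : {l : σ // l ∉ U.T}, D (X j.1) * (U.J.adjugate * U.J) l j =
        U.Δ * D (X l.1) := by
      rw [Matrix.adjugate_mul]
      simp only [Matrix.smul_apply, Matrix.one_apply, smul_eq_mul, mul_ite, mul_one, mul_zero,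
        Finset.sum_ite_eq, Finset.mem_univ, if_true]
      rw [mul_comm, Δ]
    have h3 : ∑ κ, U.J.adjugate l κ * D (U.g κ) = ∑ κ, (∑ e ∈ U.T, U.J.adjugate l κ *
        (D (X e) * pderiv e (U.g κ)) + ∑ j : {l : σ // l ∉ U.T}, U.J.adjugate l κ *
        (D (X j.1) * pderiv j.1 (U.g κ))) := by
      refine Finset.sum_congr rfl fun κ _ => ?_
      rw [h1 κ, mul_add, Finset.mul_sum, Finset.mul_sum]
    rw [h3, Finset.sum_add_distrib, ← h2]
    congr 1
    · rw [Finset.sum_comm]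
      refine Finset.sum_congr rfl fun e _ => ?_
      rw [Finset.mul_sum]
      refine Finset.sum_congr rfl fun κ _ => ?_
      ring
    · rw [Finset.sum_comm]
      refine Finset.sum_congr rfl fun j _ => ?_
      rw [Matrix.mul_apply, Finset.mul_sum]
      refine Finset.sum_congr rfl fun κ _ => ?_
      rw [J, Matrix.of_apply]
      ring
  have e1 : ∑ e ∈ U.T, D (X e) * U.vf e f = ∑ e ∈ U.T, D (X e) * (U.Δ * pderiv e f -
      ∑ l : {l : σ // l ∉ U.T}, (∑ κ, U.J.adjugate l κ * pderiv e (U.g κ)) * pderiv l.1 f) :=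
    Finset.sum_congr rfl fun e _ => by rw [d1_apply]
  have e2 : ∑ l : {l : σ // l ∉ U.T}, (∑ κ, U.J.adjugate l κ * D (U.g κ)) * pderiv l.1 f =
      ∑ l : {l : σ // l ∉ U.T}, (∑ e ∈ U.T, D (X e) * ∑ κ, U.J.adjugate l κ *
        pderiv e (U.g κ) + U.Δ * D (X l.1)) * pderiv l.1 f :=
    Finset.sum_congr rfl fun l _ => by rw [hg l]
  rw [e1, e2, d1_deriv D f, d2_split U.T]
  exact d2_aux U.T U.Δ (fun m => D (X m)) (fun m => pderiv m f)
    (fun l e => ∑ κ, U.J.adjugate l κ * pderiv e (U.g κ))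

/-- The vector fields preserve the ideal up to the multiplier. -/
theorem For.vf_mem {U : Std R σ} {I : Ideal (MvPolynomial σ R)} (h : U.For I) (e : σ)
    {f : MvPolynomial σ R} (hf : f ∈ I) : U.s * U.vf e f ∈ I := by
  have h1 : ∀ x ∈ Ideal.span (Set.range U.g), U.vf e x ∈ Ideal.span (Set.range U.g) := by
    intro x hx
    refine Submodule.span_induction (p := fun x _ => U.vf e x ∈ Ideal.span (Set.range U.g))
      ?_ ?_ ?_ ?_ hx
    · rintro _ ⟨κ, rfl⟩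
      rw [vf_gL]
      exact Ideal.zero_mem _
    · rw [map_zero]
      exact Ideal.zero_mem _
    · intro x y _ _ hx hy
      rw [map_add]
      exact Ideal.add_mem _ hx hy
    · intro a x hx' hx
      rw [smul_eq_mul, Derivation.leibniz, smul_eq_mul, smul_eq_mul]
      exact Ideal.add_mem _ (Ideal.mul_mem_left _ _ hx) (Ideal.mul_mem_right _ _ hx')
  have h2 : Ideal.span (Set.range U.g) ≤ I := by
    rw [Ideal.span_le]
    rintro _ ⟨κ, rfl⟩
    exact h.mem κ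
  have h3 := h2 (h1 _ (h.le f hf))
  rw [Derivation.leibniz, smul_eq_mul, smul_eq_mul] at h3
  exact (Ideal.add_mem_iff_left I (I.mul_mem_right _ hf)).1 h3

/-- The section is not in the square of the maximal ideal where a vector field does not kill it. -/
theorem For.notSq {U : Std R σ} {I : Ideal (MvPolynomial σ R)} (h : U.For I) {e : σ}
    {F : MvPolynomial σ R} {𝔮 : Ideal (MvPolynomial σ R)} (h𝔮 : 𝔮.IsPrime) (hI : I ≤ 𝔮)
    (hF : F ∈ 𝔮) (hs : U.s ∉ 𝔮) (he : U.vf e F ∉ 𝔮) : NotSq I F 𝔮 := by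
  intro z hz hzF
  obtain ⟨x, hx, y, hy, hxy⟩ := Submodule.mem_sup.1 hzF
  have h1 : U.vf e x ∈ 𝔮 := by
    rw [pow_two] at hx
    refine Submodule.mul_induction_on hx ?_ ?_
    · intro a ha b hb
      rw [Derivation.leibniz, smul_eq_mul, smul_eq_mul]
      exact Ideal.add_mem _ (Ideal.mul_mem_right _ _ ha) (Ideal.mul_mem_right _ _ hb)
    · intro a b ha hb
      rw [map_add]
      exact Ideal.add_mem _ ha hb
  have h2 : U.s * U.vf e y ∈ 𝔮 := hI (h.vf_mem e hy)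
  have h3 : U.s * z * U.vf e F = U.s * U.vf e x + U.s * U.vf e y - U.s * (F * U.vf e z) := by
    have := congrArg (U.vf e) hxy
    rw [map_add, Derivation.leibniz, smul_eq_mul, smul_eq_mul] at this
    rw [← mul_add, this]
    ring
  have h4 : U.s * z * U.vf e F ∈ 𝔮 := by
    rw [h3]
    exact Ideal.sub_mem _ (Ideal.add_mem _ (Ideal.mul_mem_left _ _ h1) h2)
      (Ideal.mul_mem_left _ _ (Ideal.mul_mem_right _ _ hF))
  rcases h𝔮.mem_or_mem h4 with h5 | h5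
  · rcases h𝔮.mem_or_mem h5 with h6 | h6
    · exact hs h6
    · exact hz h6
  · exact he h5

section Map

variable {S : Type} [CommRing S] (φ : R →+* S)

theorem map_T : (U.map φ).T = U.T := rfl

private theorem d4_J : (U.map φ).J = (MvPolynomial.map φ).mapMatrix U.J := by
  ext1 κ l
  change pderiv l.1 (MvPolynomial.map φ (U.g κ)) = MvPolynomial.map φ (pderiv l.1 (U.g κ))
  exact pderiv_map

theorem map_ΔL : (U.map φ).Δ = MvPolynomial.map φ U.Δ := by
  rw [Δ, d4_J, Δ, RingHom.map_det]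
  rfl

theorem map_hL : (U.map φ).h = MvPolynomial.map φ U.h := by
  rw [h, h, map_ΔL, map_mul]
  rfl

private theorem d4_adj (l κ : {l : σ // l ∉ U.T}) :
    (U.map φ).J.adjugate l κ = MvPolynomial.map φ (U.J.adjugate l κ) := by
  have h1 : (U.map φ).J.adjugate = (MvPolynomial.map φ).mapMatrix U.J.adjugate := by
    rw [d4_J]
    exact (RingHom.map_adjugate (MvPolynomial.map φ) U.J).symm
  exact congrFun (congrFun h1 l) κ

theorem map_vfL (e : σ) (f : MvPolynomial σ R) :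
    (U.map φ).vf e (MvPolynomial.map φ f) = MvPolynomial.map φ (U.vf e f) := by
  rw [d1_apply, d1_apply, map_sub, map_mul, map_sum, map_ΔL, pderiv_map]
  congr 1
  refine Finset.sum_congr rfl fun l _ => ?_
  rw [map_mul, pderiv_map, map_sum]
  congr 1
  refine Finset.sum_congr rfl fun κ _ => ?_
  rw [map_mul]
  exact congrArg₂ (· * ·) (d4_adj U φ l κ) pderiv_map

theorem map_hessL (f : MvPolynomial σ R) :
    ((U.map φ).hess (MvPolynomial.map φ f)).det = MvPolynomial.map φ (U.hess f).det := by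
  rw [RingHom.map_det]
  congr 1
  ext1 e e'
  change (U.map φ).vf e.1 ((U.map φ).vf e'.1 (MvPolynomial.map φ f)) =
    MvPolynomial.map φ (U.vf e.1 (U.vf e'.1 f))
  rw [map_vfL, map_vfL]

theorem For.mapL {U : Std R σ} {I : Ideal (MvPolynomial σ R)} (h : U.For I) :
    (U.map φ).For (I.map (MvPolynomial.map φ)) := by
  constructor
  · intro κ
    exact Ideal.mem_map_of_mem _ (h.mem κ)
  · intro f hf
    have hr : Ideal.span (Set.range (U.map φ).g) =
        (Ideal.span (Set.range U.g)).map (MvPolynomial.map φ) := by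
      rw [Ideal.map_span, ← Set.range_comp]
      rfl
    rw [hr]
    refine Submodule.span_induction (p := fun f _ => (U.map φ).s * f ∈
      (Ideal.span (Set.range U.g)).map (MvPolynomial.map φ)) ?_ ?_ ?_ ?_ hf
    · rintro _ ⟨x, hx, rfl⟩
      have := Ideal.mem_map_of_mem (MvPolynomial.map φ) (h.le x hx)
      rwa [map_mul] at this
    · rw [mul_zero]
      exact Ideal.zero_mem _
    · intro x y _ _ hx hy
      rw [mul_add]
      exact Ideal.add_mem _ hx hy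
    · intro a x _ hx
      rw [smul_eq_mul, mul_left_comm]
      exact Ideal.mul_mem_left _ _ hx

end Map

end Std

end Pool.Agent.Lib.MP_6a3dac_ag.Bert
end

section

/-!
# Smooth points
-/

set_option autoImplicit false

namespace Pool.Agent.Lib.MP_6a3dac_ag.Fam

open MvPolynomial CategoryTheory Limits AlgebraicGeometry NumberField IsDedekindDomain Filter
open IsLocalRing Topology
open Pool.Agent.Lib.MP_6a3dac_ag.DNF Pool.Agent.Lib.MP_6a3dac_ag.Bert

/-- In a regular ring, an ideal which is locally generated by independent elements is locally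
prime. -/
theorem fc1_locally_prime {S : Type} [CommRing S] [IsRegularRing S] {𝔞 𝔮 : Ideal S}
    (h𝔮 : 𝔮.IsPrime) (hle : 𝔞 ≤ 𝔮) {r : ℕ} (f : Fin r → S) (hf : ∀ j, f j ∈ 𝔞)
    (hind : ∀ b : Fin r → S, ∑ j, b j * f j ∈ 𝔮 ^ 2 → ∀ j, b j ∈ 𝔮)
    (hloc : ∀ x ∈ 𝔞, ∃ s, s ∉ 𝔮 ∧ s * x ∈ Ideal.span (Set.range f)) {x y : S}
    (hxy : x * y ∈ 𝔞) : (∃ z, z ∉ 𝔮 ∧ z * x ∈ 𝔞) ∨ (∃ z, z ∉ 𝔮 ∧ z * y ∈ 𝔞) := by
  classical
  let R := Localization.AtPrime 𝔮
  have hR : IsRegularLocalRing R := inferInstance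
  let g : Fin r → R := fun i => algebraMap S R (f i)
  have hg : ∀ i, g i ∈ maximalIdeal R := by
    intro i
    rw [← Localization.AtPrime.map_eq_maximalIdeal]
    exact Ideal.mem_map_of_mem _ (hle (hf i))
  have hindR : ∀ c : Fin r → R, ∑ i, c i * g i ∈ maximalIdeal R ^ 2 →
      ∀ i, c i ∈ maximalIdeal R := by
    intro c hcm i
    obtain ⟨s, hs⟩ := IsLocalization.exist_integer_multiples_of_finite 𝔮.primeCompl c
    choose a ha' using hs
    have h1 : algebraMap S R (∑ i, a i * f i) ∈ maximalIdeal R ^ 2 := by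
      have h2 : algebraMap S R (∑ i, a i * f i) = algebraMap S R s * ∑ i, c i * g i := by
        rw [map_sum, Finset.mul_sum]
        refine Finset.sum_congr rfl fun i _ => ?_
        rw [map_mul, ha', Algebra.smul_def]
        ring
      rw [h2]
      exact Ideal.mul_mem_left _ _ hcm
    rw [mem_maximalIdeal_pow_iff] at h1
    obtain ⟨s', hs', hs2⟩ := h1
    have h3 : s' * a i ∈ 𝔮 := by
      refine hind (fun j => s' * a j) ?_ i
      rw [Finset.mul_sum] at hs2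
      have h4 : ∑ j, s' * a j * f j = ∑ j, s' * (a j * f j) :=
        Finset.sum_congr rfl fun j _ => mul_assoc _ _ _
      rw [h4]
      exact hs2
    have h3' : a i ∈ 𝔮 := (h𝔮.mem_or_mem h3).resolve_left hs'
    have h4 : algebraMap S R (a i) ∈ maximalIdeal R := by
      rw [← Localization.AtPrime.map_eq_maximalIdeal]
      exact Ideal.mem_map_of_mem _ h3'
    rw [ha', Algebra.smul_def] at h4
    exact (Ideal.unit_mul_mem_iff_mem _ (IsLocalization.map_units R s)).mp h4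
  have hQ0 := isRegularLocalRing_quotient_range r R hR g hg hindR
  have hdom : IsDomain (R ⧸ Ideal.span (Set.range g)) := isDomain_aux _ _ le_rfl
  have hprime := (Ideal.Quotient.isDomain_iff_prime _).1 hdom
  have hspan : Ideal.span (Set.range g) = (Ideal.span (Set.range f)).map (algebraMap S R) := by
    rw [Ideal.map_span, ← Set.range_comp]
    rfl
  have key : ∀ w : S, algebraMap S R w ∈ Ideal.span (Set.range g) →
      ∃ z, z ∉ 𝔮 ∧ z * w ∈ 𝔞 := by
    intro w hw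
    rw [hspan, IsLocalization.algebraMap_mem_map_algebraMap_iff 𝔮.primeCompl] at hw
    obtain ⟨z, hz, hzw⟩ := hw
    refine ⟨z, hz, ?_⟩
    have h5 : Ideal.span (Set.range f) ≤ 𝔞 := by
      rw [Ideal.span_le]
      rintro _ ⟨j, rfl⟩
      exact hf j
    exact h5 hzw
  have h4 : algebraMap S R x * algebraMap S R y ∈ Ideal.span (Set.range g) := by
    rw [← map_mul, hspan, IsLocalization.algebraMap_mem_map_algebraMap_iff 𝔮.primeCompl]
    exact hloc _ hxy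
  rcases hprime.mem_or_mem h4 with h | h
  · exact Or.inl (key x h)
  · exact Or.inr (key y h)

/-- A derivation maps the square of an ideal to the ideal. -/
theorem fc1_derivation_mem {R B : Type} [CommRing R] [CommRing B] [Algebra R B]
    (δ : Derivation R B B) {𝔮 : Ideal B} {x : B} (hx : x ∈ 𝔮 ^ 2) : δ x ∈ 𝔮 := by
  rw [pow_two] at hx
  induction hx using Submodule.mul_induction_on' with
  | mem_mul_mem a ha b hb =>
    rw [Derivation.leibniz, smul_eq_mul, smul_eq_mul]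
    exact 𝔮.add_mem (Ideal.mul_mem_right _ _ ha) (Ideal.mul_mem_right _ _ hb)
  | add a _ b _ ha hb =>
    rw [map_add]
    exact 𝔮.add_mem ha hb

section Eqs

variable {R σ : Type} [CommRing R] [Fintype σ] [DecidableEq σ] {m : ℕ}
  {𝔞 𝔮 : Ideal (MvPolynomial σ R)} {U : Std R σ} {F : MvPolynomial σ R}

/-- The equations are independent. -/
theorem fc1_indep (h : IsPres 𝔞 U F) (hΔ : U.Δ ∉ 𝔮) (h𝔮 : 𝔮.IsPrime) (hle : 𝔞 ≤ 𝔮) {e : σ}
    (he : U.vf e F ∉ 𝔮) (b : {l : σ // l ∉ U.T} → MvPolynomial σ R) (b₀ : MvPolynomial σ R)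
    (hb : ∑ κ, b κ * U.g κ + b₀ * F ∈ 𝔮 ^ 2) : (∀ κ, b κ ∈ 𝔮) ∧ b₀ ∈ 𝔮 := by
  have hg : ∀ κ, U.g κ ∈ 𝔮 := fun κ => hle (h.mem κ)
  have hF : F ∈ 𝔮 := hle h.memF
  have key : ∀ δ : Derivation R (MvPolynomial σ R) (MvPolynomial σ R),
      ∑ κ, b κ * δ (U.g κ) + b₀ * δ F ∈ 𝔮 := by
    intro δ
    have h1 := fc1_derivation_mem δ hb
    have h2 : δ (∑ κ, b κ * U.g κ + b₀ * F) = (∑ κ, b κ * δ (U.g κ) + b₀ * δ F) +
        (∑ κ, U.g κ * δ (b κ) + F * δ b₀) := by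
      rw [map_add, map_sum, Derivation.leibniz, smul_eq_mul, smul_eq_mul]
      simp only [Derivation.leibniz, smul_eq_mul, Finset.sum_add_distrib]
      ring
    rw [h2] at h1
    refine (Ideal.add_mem_iff_left _ ?_).1 h1
    exact 𝔮.add_mem (Ideal.sum_mem _ fun κ _ => Ideal.mul_mem_right _ _ (hg κ))
      (Ideal.mul_mem_right _ _ hF)
  have hb0 : b₀ ∈ 𝔮 := by
    have h1 := key (U.vf e)
    have h2 : ∑ κ, b κ * U.vf e (U.g κ) = 0 := by
      refine Finset.sum_eq_zero fun κ _ => ?_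
      rw [U.vf_gL, mul_zero]
    rw [h2, zero_add] at h1
    exact (h𝔮.mem_or_mem h1).resolve_right he
  refine ⟨fun κ => ?_, hb0⟩
  have h1 : ∀ l : {l : σ // l ∉ U.T}, ∑ κ, b κ * U.J κ l ∈ 𝔮 := by
    intro l
    have h2 := key (pderiv l.1)
    exact (Ideal.add_mem_iff_left _ (Ideal.mul_mem_right _ _ hb0)).1 h2
  have h2 : ∑ l, (∑ κ', b κ' * U.J κ' l) * U.J.adjugate l κ ∈ 𝔮 :=
    Ideal.sum_mem _ fun l _ => Ideal.mul_mem_right _ _ (h1 l)
  have h3 : ∑ l, (∑ κ', b κ' * U.J κ' l) * U.J.adjugate l κ = b κ * U.Δ := by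
    have h4 : ∀ κ', ∑ l, b κ' * U.J κ' l * U.J.adjugate l κ =
        b κ' * (U.J * U.J.adjugate) κ' κ := by
      intro κ'
      rw [Matrix.mul_apply, Finset.mul_sum]
      exact Finset.sum_congr rfl fun l _ => by ring
    simp only [Finset.sum_mul]
    rw [Finset.sum_comm]
    simp only [h4]
    rw [Matrix.mul_adjugate]
    rw [Finset.sum_eq_single κ]
    · rw [Matrix.smul_apply, Matrix.one_apply_eq, smul_eq_mul, mul_one]
      rfl
    · intro κ' _ hκ'
      rw [Matrix.smul_apply, Matrix.one_apply_ne hκ', smul_zero, mul_zero]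
    · intro hκ
      exact absurd (Finset.mem_univ κ) hκ
  rw [h3] at h2
  exact (h𝔮.mem_or_mem h2).resolve_right hΔ

/-- The equations at a smooth point. -/
theorem fc1_exists_eqs (h : SmoothPt m 𝔞 𝔮) (h𝔮 : 𝔮.IsPrime) (hle : 𝔞 ≤ 𝔮) :
    ∃ (r : ℕ) (f : Fin r → MvPolynomial σ R) (s : MvPolynomial σ R), (∀ j, f j ∈ 𝔞) ∧
      (∀ b : Fin r → MvPolynomial σ R, ∑ j, b j * f j ∈ 𝔮 ^ 2 → ∀ j, b j ∈ 𝔮) ∧ s ∉ 𝔮 ∧
      ∀ x ∈ 𝔞, s * x ∈ Ideal.span (Set.range f) := by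
  obtain ⟨U, F, hU, -, hh, e, -, he⟩ := h
  have hΔ : U.Δ ∉ 𝔮 := fun h1 => hh (Ideal.mul_mem_left _ _ h1)
  have hs : U.s ∉ 𝔮 := fun h1 => hh (Ideal.mul_mem_right _ _ h1)
  let E : Option {l : σ // l ∉ U.T} ≃ Fin (Fintype.card (Option {l : σ // l ∉ U.T})) :=
    Fintype.equivFin _
  let f₀ : Option {l : σ // l ∉ U.T} → MvPolynomial σ R := fun o => o.elim F U.g
  have hrange : Set.range (fun j => f₀ (E.symm j)) = insert F (Set.range U.g) := by
    ext x
    constructor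
    · rintro ⟨j, rfl⟩
      change f₀ (E.symm j) ∈ _
      rcases E.symm j with _ | κ
      · exact Or.inl rfl
      · exact Or.inr ⟨κ, rfl⟩
    · rintro (rfl | ⟨κ, rfl⟩)
      · exact ⟨E none, by simp [f₀]⟩
      · exact ⟨E (some κ), by simp [f₀]⟩
  refine ⟨_, fun j => f₀ (E.symm j), U.s, fun j => ?_, fun b hb j => ?_, hs, fun x hx => ?_⟩
  · change f₀ (E.symm j) ∈ _
    rcases E.symm j with _ | κ
    · exact hU.memF
    · exact hU.mem κ
  · have h1 : ∑ j, b j * f₀ (E.symm j) = ∑ o, b (E o) * f₀ o := by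
      rw [← Equiv.sum_comp E]
      exact Finset.sum_congr rfl fun o _ => by rw [Equiv.symm_apply_apply]
    rw [h1, Fintype.sum_option, add_comm] at hb
    obtain ⟨h2, h3⟩ := fc1_indep hU hΔ h𝔮 hle he (fun κ => b (E (some κ))) (b (E none)) hb
    obtain ⟨o, rfl⟩ := E.surjective j
    rcases o with _ | κ
    · exact h3
    · exact h2 κ
  · rw [hrange]
    exact hU.le x hx

end Eqs

section C

variable {R σ D : Type} [CommRing R] [Fintype σ] [DecidableEq σ] [IsRegularRing (MvPolynomial σ R)]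
  {m : ℕ} {J : Ideal (MvPolynomial σ R)}

/-- TASK C1 -/
theorem regular_of_smoothPt [CommRing D] [IsDomain D] [IsLocalRing D]
    (δ : MvPolynomial σ R →+* D) (hJ : ∀ f ∈ J, δ f = 0)
    (ha : ∀ z, ∃ a b, IsUnit (δ b) ∧ z * δ b = δ a)
    (hb : ∀ p, δ p = 0 → ∃ τ, δ τ ≠ 0 ∧ τ * p ∈ J)
    (hS : SmoothPt m J (Ideal.comap δ (maximalIdeal D))) : IsRegularLocalRing D := by
  have hQp : (Ideal.comap δ (maximalIdeal D)).IsPrime := Ideal.IsPrime.comap δ
  have hle : J ≤ Ideal.comap δ (maximalIdeal D) := by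
    intro x hx
    rw [Ideal.mem_comap, hJ x hx]
    exact Ideal.zero_mem _
  have hunit : ∀ s, s ∉ Ideal.comap δ (maximalIdeal D) ↔ IsUnit (δ s) := by
    intro s
    rw [Ideal.mem_comap, IsLocalRing.mem_maximalIdeal, mem_nonunits_iff, not_not]
  obtain ⟨r, f, s, hf, hind, hs, hloc⟩ := fc1_exists_eqs hS hQp hle
  refine isRegularLocalRing_of_chart δ f (fun i => hJ _ (hf i)) ?_ ha ?_
  · intro t ht c hc i
    have h1 : t * c i ∈ Ideal.comap δ (maximalIdeal D) := by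
      refine hind (fun j => t * c j) ?_ i
      rw [Finset.mul_sum] at hc
      have h4 : ∑ j, t * c j * f j = ∑ j, t * (c j * f j) :=
        Finset.sum_congr rfl fun j _ => mul_assoc _ _ _
      rw [h4]
      exact hc
    exact (hQp.mem_or_mem h1).resolve_left ((hunit t).2 ht)
  · intro p hp
    obtain ⟨τ, hτ, hτp⟩ := hb p hp
    refine ⟨s * τ, ?_, ?_⟩
    · rw [map_mul]
      exact mul_ne_zero ((hunit s).1 hs).ne_zero hτ
    · rw [mul_assoc]
      exact hloc _ hτp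

/-- TASK C1 (b) -/
theorem locDom_of_smoothPt
    (h : ∀ 𝔮 : Ideal (MvPolynomial σ R), 𝔮.IsPrime → J ≤ 𝔮 → SmoothPt m J 𝔮) : LocDom J := by
  intro 𝔮 h𝔮 hle x y hxy
  obtain ⟨r, f, s, hf, hind, hs, hloc⟩ := fc1_exists_eqs (h 𝔮 h𝔮 hle) h𝔮 hle
  exact fc1_locally_prime h𝔮 hle f hf hind (fun x hx => ⟨s, hs, hloc x hx⟩) hxy

end C

end Pool.Agent.Lib.MP_6a3dac_ag.Fam
end

section

/-!
# Standard charts from independent differentials
-/

set_option autoImplicit false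

namespace Pool.Agent.Lib.MP_6a3dac_ag.Fam

open MvPolynomial NumberField
open Pool.Agent.Lib.MP_6a3dac_ag.DNF Pool.Agent.Lib.MP_6a3dac_ag.Bert

/-- TASK S1 -/
theorem exists_std {R σ L : Type} [CommRing R] [Fintype σ] [DecidableEq σ] [Field L]
    (φ : MvPolynomial σ R →+* L) {ρ : Type} [Fintype ρ] [DecidableEq ρ]
    (h : ρ → MvPolynomial σ R) (s : MvPolynomial σ R)
    (hind : ∀ y : ρ → L, (∀ l, ∑ k, y k * φ (pderiv l (h k)) = 0) → y = 0) :
    ∃ U : Std R σ, Set.range U.g = Set.range h ∧ U.s = s ∧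
      U.T.card + Fintype.card ρ = Fintype.card σ ∧ φ U.Δ ≠ 0 := by
  obtain ⟨c, hc⟩ := Sys.exists_minor_ne_zero
    (Matrix.of fun k l => φ (pderiv l (h k)) : Matrix ρ σ L)
    (fun y hy => hind y fun l => congrFun hy l)
  have hinj : Function.Injective c := by
    intro a b hab
    by_contra hne
    refine hc (Matrix.det_zero_of_column_eq hne fun k => ?_)
    simp only [Matrix.submatrix_apply, hab]
  let T : Finset σ := Finset.univ \ Finset.univ.image c
  have hT : ∀ l, l ∉ T ↔ ∃ k, c k = l := by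
    intro l
    simp [T]
  let e : ρ ≃ {l : σ // l ∉ T} := Equiv.ofBijective (fun k => ⟨c k, (hT _).2 ⟨k, rfl⟩⟩)
    ⟨fun a b hab => hinj (congrArg Subtype.val hab), fun l => by
      obtain ⟨k, hk⟩ := (hT l.1).1 l.2
      exact ⟨k, Subtype.ext hk⟩⟩
  refine ⟨⟨T, fun l => h (e.symm l), s⟩, ?_, rfl, ?_, ?_⟩
  · exact e.symm.surjective.range_comp h
  · show T.card + Fintype.card ρ = Fintype.card σ
    have h1 : (Finset.univ.image c).card = Fintype.card ρ := by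
      rw [Finset.card_image_of_injective _ hinj, Finset.card_univ]
    have h2 := Finset.card_sdiff_add_card_eq_card (Finset.subset_univ (Finset.univ.image c))
    rw [h1, Finset.card_univ] at h2
    exact h2
  · rw [Std.Δ, RingHom.map_det, ← Matrix.det_submatrix_equiv_self e]
    convert hc using 2
    ext k k'
    simp [Std.J, e]

end Pool.Agent.Lib.MP_6a3dac_ag.Fam
end

section

/-! A coherent unimodular subdivision exists. -/

namespace TorFan

universe u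

variable {r : ℕ}

theorem exists_uni_aux (N : AddSubgroup (Fin r → ℤ)) (n : ℕ) : ∀ (T : Finset (Chart r)) (φ : (Fin r → ℤ) → ℤ),
    meas T ≤ n → Coh N T φ → Cov.{u} T → ∃ (T' : Finset (Chart r)) (φ' : (Fin r → ℤ) → ℤ),
      Coh N T' φ' ∧ Cov.{u} T' ∧ ∀ τ ∈ T', ∀ x ∈ N, ∀ j, ∃ z : ℤ, co τ x j = z := by
  induction n with
  | zero =>
    intro T φ hm hT _
    exfalso
    obtain ⟨τ, hτ⟩ := hT.ne
    have h1 : (r + 1) ^ (dt τ).natAbs ≤ meas T :=
      Finset.single_le_sum (f := fun τ => (r + 1) ^ (dt τ).natAbs) (fun _ _ => Nat.zero_le _) hτ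
    have h2 : 0 < (r + 1) ^ (dt τ).natAbs := by positivity
    omega
  | succ n ih =>
    intro T φ hm hT hc
    by_cases h : ∀ τ ∈ T, ∀ x ∈ N, ∀ j, ∃ z : ℤ, co τ x j = z
    · exact ⟨T, φ, hT, hc, h⟩
    · push Not at h
      obtain ⟨τ, hτ, x, hx, j, hj⟩ := h
      obtain ⟨w, hwN, hw⟩ := exists_half τ (hT.det τ hτ) (hT.mem τ hτ) x hx j
        (fun ⟨z, hz⟩ => hj z hz)
      obtain ⟨φ', hφ'⟩ := star_coh hT τ hτ w hwN hw
      have h1 := star_meas hT τ hτ w hw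
      exact ih _ φ' (by omega) hφ' (star_cov hT hc τ hτ w hw)

/-- a coherent unimodular subdivision exists -/
theorem exists_uni (N : AddSubgroup (Fin r → ℤ)) (D : ℤ) (hD : 1 ≤ D) (hN : ∀ x : Fin r → ℤ, D • x ∈ N) :
    ∃ (T : Finset (Chart r)) (φ : (Fin r → ℤ) → ℤ),
      Coh N T φ ∧ Cov.{u} T ∧ ∀ τ ∈ T, ∀ x ∈ N, ∀ j, ∃ z : ℤ, co τ x j = z :=
  exists_uni_aux N _ _ _ le_rfl (init_coh N D hD hN) (init_cov D hD)

end TorFan
end

section

/-! Row F7: the output for the blow-up. -/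

namespace TorFan

universe u

/-- the exponents of a vector of the kernel of ell are determined by the last coordinates -/
theorem out_zero {r : ℕ} (e : Fin r → ℕ) (v : ℕ) (g0 : ℕ) (ell' : Fin (r + 1) → ℤ)
    (hell : ∀ a, ell e v a = g0 * ell' a) (x : Fin (r + 1) → ℤ) (hx : ∑ a, ell' a * x a = 0) :
    (v : ℤ) * x 0 = ∑ i, (e i : ℤ) * x (Fin.succ i) := by
  have h1 : ∑ a, ell e v a * x a = 0 := by
    have h2 : ∑ a, ell e v a * x a = g0 * ∑ a, ell' a * x a := by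
      rw [Finset.mul_sum]
      exact Finset.sum_congr rfl fun a _ => by rw [hell]; ring
    rw [h2, hx, mul_zero]
  rw [Fin.sum_univ_succ] at h1
  simp only [ell, Fin.cons_zero, Fin.cons_succ] at h1
  linarith

theorem out_ext {r : ℕ} (e : Fin r → ℕ) (v : ℕ) (hv : 1 ≤ v) (g0 : ℕ) (ell' : Fin (r + 1) → ℤ)
    (hell : ∀ a, ell e v a = g0 * ell' a) (x y : Fin (r + 1) → ℤ) (hx : ∑ a, ell' a * x a = 0)
    (hy : ∑ a, ell' a * y a = 0) (h : ∀ i : Fin r, x (Fin.succ i) = y (Fin.succ i)) : x = y := by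
  have h1 := out_zero e v g0 ell' hell x hx
  have h2 := out_zero e v g0 ell' hell y hy
  have h3 : (v : ℤ) * x 0 = v * y 0 := by
    rw [h1, h2]
    exact Finset.sum_congr rfl fun i _ => by rw [h i]
  have hv' : (v : ℤ) ≠ 0 := by positivity
  funext a
  refine Fin.cases ?_ h a
  exact mul_left_cancel₀ hv' h3

/-- covering for one chart -/
theorem out_cover {r : ℕ} (e : Fin r → ℕ) (v : ℕ) (hv : 1 ≤ v) (g0 : ℕ) (ell' : Fin (r + 1) → ℤ)
    (hell : ∀ a, ell e v a = g0 * ell' a) (τ : Chart r) (A : Fin r → Fin (r + 1) → ℕ)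
    (Y : Fin r → Fin (r + 1) → ℤ) (hA : ∀ j i, (A j (Fin.succ i) : ℤ) = τ j i)
    (h1 : ∀ j l, ∑ a, Y j a * (A l a : ℤ) = if j = l then 1 else 0)
    (h3 : ∀ j, ∑ a, ell' a * (A j a : ℤ) = 0) (Γ : Type u) [AddCommGroup Γ] [LinearOrder Γ]
    [IsOrderedAddMonoid Γ] (x : Fin (r + 1) → Γ) (hx : ∑ a, ell e v a • x a = 0) (n : ℕ)
    (c : Fin r → Γ) (hn : 1 ≤ n) (hc : ∀ j, 0 ≤ c j)
    (hnc : ∀ i : Fin r, n • x (Fin.succ i) = ∑ j, τ j i • c j) (j : Fin r) :
    0 ≤ ∑ a, Y j a • x a := by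
  have hall : ∀ a, n • x a = ∑ j, (A j a : ℤ) • c j := by
    intro a
    refine Fin.cases ?_ (fun i => ?_) a
    · have hv' : v ≠ 0 := by omega
      have h4 : v • (n • x 0) = v • ∑ j, (A j 0 : ℤ) • c j := by
        have h5 : (v : ℤ) • x 0 = ∑ i : Fin r, (e i : ℤ) • x (Fin.succ i) := by
          rw [Fin.sum_univ_succ] at hx
          simp only [ell, Fin.cons_zero, Fin.cons_succ] at hx
          rw [neg_smul, neg_add_eq_zero] at hx
          exact hx
        have h6 : ∀ j, (v : ℤ) * (A j 0 : ℤ) = ∑ i : Fin r, (e i : ℤ) * τ j i := by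
          intro j
          have := out_zero e v g0 ell' hell (fun a => (A j a : ℤ)) (h3 j)
          rw [this]
          exact Finset.sum_congr rfl fun i _ => by rw [hA]
        calc v • (n • x 0) = n • ((v : ℤ) • x 0) := by
              rw [natCast_zsmul, smul_comm]
          _ = ∑ i : Fin r, (e i : ℤ) • (n • x (Fin.succ i)) := by
              rw [h5, Finset.smul_sum]
              exact Finset.sum_congr rfl fun i _ => by rw [smul_comm]
          _ = ∑ i : Fin r, ∑ j, ((e i : ℤ) * τ j i) • c j := by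
              refine Finset.sum_congr rfl fun i _ => ?_
              rw [hnc, Finset.smul_sum]
              exact Finset.sum_congr rfl fun j _ => by rw [mul_smul]
          _ = ∑ j, (∑ i : Fin r, (e i : ℤ) * τ j i) • c j := by
              rw [Finset.sum_comm]
              exact Finset.sum_congr rfl fun j _ => by rw [Finset.sum_smul]
          _ = v • ∑ j, (A j 0 : ℤ) • c j := by
              rw [Finset.smul_sum]
              refine Finset.sum_congr rfl fun j _ => ?_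
              rw [← h6, mul_smul, natCast_zsmul]
      exact nsmul_right_injective hv' h4
    · rw [hnc]
      exact Finset.sum_congr rfl fun j _ => by rw [hA]
  have h7 : n • ∑ a, Y j a • x a = c j := by
    calc n • ∑ a, Y j a • x a = ∑ a, Y j a • (n • x a) := by
          rw [Finset.smul_sum]
          exact Finset.sum_congr rfl fun a _ => by rw [smul_comm]
      _ = ∑ a, ∑ l, (Y j a * (A l a : ℤ)) • c l := by
          refine Finset.sum_congr rfl fun a _ => ?_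
          rw [hall, Finset.smul_sum]
          exact Finset.sum_congr rfl fun l _ => by rw [mul_smul]
      _ = ∑ l, (∑ a, Y j a * (A l a : ℤ)) • c l := by
          rw [Finset.sum_comm]
          exact Finset.sum_congr rfl fun l _ => by rw [Finset.sum_smul]
      _ = c j := by
          simp only [h1, ite_smul, one_smul, zero_smul, Finset.sum_ite_eq, Finset.mem_univ, if_true]
  by_contra hneg
  rw [not_le] at hneg
  have h8 : n • ∑ a, Y j a • x a < 0 := nsmul_neg hneg (by omega)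
  rw [h7] at h8
  exact absurd (hc j) (not_le.2 h8)

/-- the main inequality: S = lin τ' φ (τ l) -/
theorem out_conv {r : ℕ} (e : Fin r → ℕ) (v : ℕ) (hv : 1 ≤ v) (g0 : ℕ) (ell' : Fin (r + 1) → ℤ)
    (hell : ∀ a, ell e v a = g0 * ell' a) {N : AddSubgroup (Fin r → ℤ)} {T : Finset (Chart r)}
    {φ : (Fin r → ℤ) → ℤ} (hT : Coh N T φ)
    (A : Chart r → Fin r → Fin (r + 1) → ℕ) (Y : Chart r → Fin r → Fin (r + 1) → ℤ)
    (hA : ∀ τ ∈ T, ∀ j i, (A τ j (Fin.succ i) : ℤ) = τ j i)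
    (h3 : ∀ τ ∈ T, ∀ j, ∑ a, ell' a * (A τ j a : ℤ) = 0)
    (h5 : ∀ τ ∈ T, ∀ x : Fin (r + 1) → ℤ, ∑ a, ell e v a * x a = 0 → ∀ j,
        ((∑ a, Y τ j a * x a : ℤ) : ℚ) = co τ (fun i => x (Fin.succ i)) j)
    (K : ℤ) (hK0 : 0 ≤ K) (δ : Fin (r + 1) → ℤ) (τ' : Chart r) (hτ' : τ' ∈ T) (τ : Chart r) (hτ : τ ∈ T)
    (l : Fin r) (hK : -K ≤ ∑ a, δ a * (A τ l a : ℤ)) (hδ : ∀ l', 0 ≤ ∑ a, δ a * (A τ' l' a : ℤ)) :
    K * φ (τ l) ≤ ∑ a, (K * (∑ j, φ (τ' j) * Y τ' j a) + δ a) * (A τ l a : ℤ) := by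
  have hcol : (fun i : Fin r => (A τ l (Fin.succ i) : ℤ)) = τ l := funext fun i => hA τ hτ l i
  have hker : ∑ a, ell e v a * (A τ l a : ℤ) = 0 := by
    have h2 : ∑ a, ell e v a * (A τ l a : ℤ) = g0 * ∑ a, ell' a * (A τ l a : ℤ) := by
      rw [Finset.mul_sum]
      exact Finset.sum_congr rfl fun a _ => by rw [hell]; ring
    rw [h2, h3 τ hτ, mul_zero]
  obtain ⟨S, hS⟩ : ∃ S : ℤ, S = ∑ j, φ (τ' j) * ∑ a, Y τ' j a * (A τ l a : ℤ) := ⟨_, rfl⟩
  have hSQ : (S : ℚ) = lin τ' φ (τ l) := by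
    rw [hS, lin, Int.cast_sum]
    refine Finset.sum_congr rfl fun j _ => ?_
    have h6 := h5 τ' hτ' (fun a => (A τ l a : ℤ)) hker j
    rw [hcol] at h6
    rw [Int.cast_mul, h6, mul_comm]
  have hsum : ∑ a, (K * (∑ j, φ (τ' j) * Y τ' j a) + δ a) * (A τ l a : ℤ) =
      K * S + ∑ a, δ a * (A τ l a : ℤ) := by
    rw [hS]
    have h7 : ∀ a, (K * (∑ j, φ (τ' j) * Y τ' j a) + δ a) * (A τ l a : ℤ) =
        K * (∑ j, φ (τ' j) * (Y τ' j a * (A τ l a : ℤ))) + δ a * (A τ l a : ℤ) := by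
      intro a
      have h8 : ∑ j, φ (τ' j) * (Y τ' j a * (A τ l a : ℤ)) =
          (∑ j, φ (τ' j) * Y τ' j a) * (A τ l a : ℤ) := by
        rw [Finset.sum_mul]
        exact Finset.sum_congr rfl fun j _ => by ring
      rw [h8]
      ring
    simp only [h7]
    rw [Finset.sum_add_distrib, ← Finset.mul_sum, Finset.sum_comm]
    simp only [← Finset.mul_sum]
  rw [hsum]
  obtain ⟨hc1, hc2⟩ := hT.conv τ' hτ' τ hτ l
  rw [← hSQ] at hc1 hc2
  have h9 : φ (τ l) ≤ S := by exact_mod_cast hc1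
  rcases h9.lt_or_eq with h | h
  · have h10 : K * φ (τ l) + K ≤ K * S := by nlinarith
    linarith
  · obtain ⟨l', hl'⟩ := hc2 (by rw [h])
    have h11 : (fun a => (A τ l a : ℤ)) = fun a => (A τ' l' a : ℤ) := by
      refine out_ext e v hv g0 ell' hell _ _ (h3 τ hτ l) (h3 τ' hτ' l') fun i => ?_
      rw [hA τ hτ, hA τ' hτ', hl']
    have h12 : ∑ a, δ a * (A τ l a : ℤ) = ∑ a, δ a * (A τ' l' a : ℤ) :=
      Finset.sum_congr rfl fun a _ => by rw [congrFun h11 a]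
    rw [h12, ← h]
    have := hδ l'
    linarith

theorem toric_fan (r : ℕ) (e : Fin r → ℕ) (v : ℕ) (hv : 1 ≤ v) :
    ∃ (g0 : ℕ) (ell' s : Fin (r + 1) → ℤ) (ι : Type) (_ : Fintype ι) (_ : Nonempty ι)
      (A : ι → Fin r → Fin (r + 1) → ℕ) (Y : ι → Fin r → Fin (r + 1) → ℤ)
      (κ : Type) (_ : Fintype κ) (E : κ → Fin (r + 1) → ℕ) (vx : ι → κ) (ed : ι → Fin r → κ) (tw : ι → κ),
      1 ≤ g0 ∧ g0 ∣ v ∧ (∀ a, ell e v a = g0 * ell' a) ∧
      -- (A τ, s) and (Y τ, ell') are inverse matrices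
      (∀ τ j l, ∑ a, Y τ j a * (A τ l a : ℤ) = if j = l then 1 else 0) ∧
      (∀ τ j, ∑ a, Y τ j a * s a = 0) ∧ (∀ τ j, ∑ a, ell' a * (A τ j a : ℤ) = 0) ∧ ∑ a, ell' a * s a = 1 ∧
      (∀ τ a b, (∑ j, (A τ j a : ℤ) * Y τ j b) + s a * ell' b = if a = b then 1 else 0) ∧
      -- the exponents of the generators
      (∀ τ j a, (E (ed τ j) a : ℤ) = E (vx τ) a + Y τ j a) ∧ (∀ τ a, (E (tw τ) a : ℤ) = E (vx τ) a + ell' a) ∧
      (∀ q τ l, ∑ a, E (vx τ) a * A τ l a ≤ ∑ a, E q a * A τ l a) ∧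
      -- covering
      ∀ (Γ : Type u) [AddCommGroup Γ] [LinearOrder Γ] [IsOrderedAddMonoid Γ] (x : Fin (r + 1) → Γ),
        (∀ a, 0 ≤ x a) → ∑ a, ell e v a • x a = 0 → ∃ τ, ∀ j, 0 ≤ ∑ a, Y τ j a • x a := by
  classical
  obtain ⟨T, φ, hT, hcov, huni⟩ := exists_uni.{u} (NN e v) (v : ℤ) (by exact_mod_cast hv) (by
    intro x
    show (v : ℤ) ∣ ∑ i, (e i : ℤ) * ((v : ℤ) • x) i
    refine Finset.dvd_sum fun i _ => ?_
    rw [Pi.smul_apply, smul_eq_mul]
    exact Dvd.intro (e i * x i) (by ring))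
  obtain ⟨g0, ell', s, hg1, hg2, hell, hs⟩ := bezout e v hv
  have hdual := fun (τ : Chart r) (hτ : τ ∈ T) => exists_dual e v hv g0 ell' s hg1 hell hs τ (hT.det τ hτ)
    (hT.mem τ hτ) (hT.nonneg τ hτ) (fun x hx j => huni τ hτ x hx j)
  have hdual' : ∀ τ : Chart r, ∃ (A : Fin r → Fin (r + 1) → ℕ) (Y : Fin r → Fin (r + 1) → ℤ), τ ∈ T →
      (∀ j i, (A j (Fin.succ i) : ℤ) = τ j i) ∧
      (∀ j l, ∑ a, Y j a * (A l a : ℤ) = if j = l then 1 else 0) ∧
      (∀ j, ∑ a, Y j a * s a = 0) ∧ (∀ j, ∑ a, ell' a * (A j a : ℤ) = 0) ∧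
      (∀ a b, (∑ j, (A j a : ℤ) * Y j b) + s a * ell' b = if a = b then 1 else 0) ∧
      (∀ x : Fin (r + 1) → ℤ, ∑ a, ell e v a * x a = 0 → ∀ j,
        ((∑ a, Y j a * x a : ℤ) : ℚ) = co τ (fun i => x (Fin.succ i)) j) := by
    intro τ
    by_cases hτ : τ ∈ T
    · obtain ⟨A, Y, h⟩ := hdual τ hτ
      exact ⟨A, Y, fun _ => h⟩
    · exact ⟨fun _ _ => 0, fun _ _ => 0, fun h => absurd h hτ⟩
  choose A Y hAY using hdual'
  have hA := fun τ hτ => (hAY τ hτ).1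
  have h1 := fun τ hτ => (hAY τ hτ).2.1
  have h2 := fun τ hτ => (hAY τ hτ).2.2.1
  have h3 := fun τ hτ => (hAY τ hτ).2.2.2.1
  have h4 := fun τ hτ => (hAY τ hτ).2.2.2.2.1
  have h5 := fun τ hτ => (hAY τ hτ).2.2.2.2.2
  -- the shifts
  let κ := T × Option (Option (Fin r))
  let sh : κ → Fin (r + 1) → ℤ := fun q a =>
    match q.2 with
    | none => 0
    | some none => ell' a
    | some (some j) => Y q.1.1 j a
  -- the constant K
  obtain ⟨K, hK0, hK⟩ : ∃ K : ℤ, 0 ≤ K ∧ ∀ (q : κ) (τ : T) (l : Fin r),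
      -K ≤ ∑ a, sh q a * (A τ.1 l a : ℤ) := by
    refine ⟨∑ q : κ, ∑ τ : T, ∑ l : Fin r, |∑ a, sh q a * (A τ.1 l a : ℤ)|,
      Finset.sum_nonneg fun _ _ => Finset.sum_nonneg fun _ _ => Finset.sum_nonneg fun _ _ => abs_nonneg _,
      fun q τ l => ?_⟩
    have i1 : |∑ a, sh q a * (A τ.1 l a : ℤ)| ≤ ∑ l : Fin r, |∑ a, sh q a * (A τ.1 l a : ℤ)| :=
      Finset.single_le_sum (f := fun l => |∑ a, sh q a * (A τ.1 l a : ℤ)|) (fun _ _ => abs_nonneg _)
        (Finset.mem_univ l)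
    have i2 : ∑ l : Fin r, |∑ a, sh q a * (A τ.1 l a : ℤ)| ≤
        ∑ τ : T, ∑ l : Fin r, |∑ a, sh q a * (A τ.1 l a : ℤ)| :=
      Finset.single_le_sum (f := fun τ : T => ∑ l : Fin r, |∑ a, sh q a * (A τ.1 l a : ℤ)|)
        (fun _ _ => Finset.sum_nonneg fun _ _ => abs_nonneg _) (Finset.mem_univ τ)
    have i3 : ∑ τ : T, ∑ l : Fin r, |∑ a, sh q a * (A τ.1 l a : ℤ)| ≤
        ∑ q : κ, ∑ τ : T, ∑ l : Fin r, |∑ a, sh q a * (A τ.1 l a : ℤ)| :=
      Finset.single_le_sum (f := fun q : κ => ∑ τ : T, ∑ l : Fin r, |∑ a, sh q a * (A τ.1 l a : ℤ)|)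
        (fun _ _ => Finset.sum_nonneg fun _ _ => Finset.sum_nonneg fun _ _ => abs_nonneg _)
        (Finset.mem_univ q)
    have i4 := neg_abs_le (∑ a, sh q a * (A τ.1 l a : ℤ))
    linarith
  -- the exponents before the shift
  let M : κ → Fin (r + 1) → ℤ := fun q a => K * (∑ j, φ (q.1.1 j) * Y q.1.1 j a) + sh q a
  obtain ⟨L, hL⟩ : ∃ L : ℤ, ∀ q a, 0 ≤ M q a + L := by
    refine ⟨∑ q : κ, ∑ a, |M q a|, fun q a => ?_⟩
    have i1 : |M q a| ≤ ∑ a, |M q a| :=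
      Finset.single_le_sum (f := fun a => |M q a|) (fun _ _ => abs_nonneg _) (Finset.mem_univ a)
    have i2 : ∑ a, |M q a| ≤ ∑ q : κ, ∑ a, |M q a| :=
      Finset.single_le_sum (f := fun q : κ => ∑ a, |M q a|)
        (fun _ _ => Finset.sum_nonneg fun _ _ => abs_nonneg _) (Finset.mem_univ q)
    have i3 := neg_abs_le (M q a)
    linarith
  let E : κ → Fin (r + 1) → ℕ := fun q a => (M q a + L).toNat
  have hE : ∀ q a, (E q a : ℤ) = M q a + L := fun q a => Int.toNat_of_nonneg (hL q a)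
  have hne : Nonempty T := by
    obtain ⟨τ, hτ⟩ := hT.ne
    exact ⟨⟨τ, hτ⟩⟩
  refine ⟨g0, ell', s, T, inferInstance, hne, fun τ => A τ.1, fun τ => Y τ.1, κ, inferInstance, E,
    fun τ => (τ, none), fun τ j => (τ, some (some j)), fun τ => (τ, some none), hg1, hg2, hell,
    fun τ => h1 τ.1 τ.2, fun τ => h2 τ.1 τ.2, fun τ => h3 τ.1 τ.2, hs, fun τ => h4 τ.1 τ.2,
    fun τ j a => ?_, fun τ a => ?_, fun q τ l => ?_, fun Γ _ _ _ x hx0 hx => ?_⟩
  · rw [hE, hE]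
    simp only [M, sh]
    ring
  · rw [hE, hE]
    simp only [M, sh]
    ring
  · have hvx : ∑ a, (E (τ, none) a : ℤ) * (A τ.1 l a : ℤ) =
        K * φ (τ.1 l) + L * ∑ a, (A τ.1 l a : ℤ) := by
      simp only [hE]
      have i1 : ∀ a, (M (τ, none) a + L) * (A τ.1 l a : ℤ) =
          K * (∑ j, φ (τ.1 j) * (Y τ.1 j a * (A τ.1 l a : ℤ))) + L * (A τ.1 l a : ℤ) := by
        intro a
        have i2 : ∑ j, φ (τ.1 j) * (Y τ.1 j a * (A τ.1 l a : ℤ)) =
            (∑ j, φ (τ.1 j) * Y τ.1 j a) * (A τ.1 l a : ℤ) := by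
          rw [Finset.sum_mul]
          exact Finset.sum_congr rfl fun j _ => by ring
        rw [i2]
        simp only [M, sh]
        ring
      simp only [i1]
      rw [Finset.sum_add_distrib, ← Finset.mul_sum, ← Finset.mul_sum, Finset.sum_comm]
      simp only [← Finset.mul_sum, h1 τ.1 τ.2, mul_ite, mul_one, mul_zero, Finset.sum_ite_eq',
        Finset.mem_univ, if_true]
    have hq : ∑ a, (E q a : ℤ) * (A τ.1 l a : ℤ) =
        (∑ a, (K * (∑ j, φ (q.1.1 j) * Y q.1.1 j a) + sh q a) * (A τ.1 l a : ℤ)) +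
          L * ∑ a, (A τ.1 l a : ℤ) := by
      rw [Finset.mul_sum, ← Finset.sum_add_distrib]
      refine Finset.sum_congr rfl fun a _ => ?_
      rw [hE]
      simp only [M]
      ring
    have hδ : ∀ l', 0 ≤ ∑ a, sh q a * (A q.1.1 l' a : ℤ) := by
      intro l'
      obtain ⟨q1, q2⟩ := q
      match q2 with
      | none => simp [sh]
      | some none =>
        have : ∑ a, sh (q1, some none) a * (A q1.1 l' a : ℤ) = 0 := h3 q1.1 q1.2 l'
        exact this.ge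
      | some (some j) =>
        have : ∑ a, sh (q1, some (some j)) a * (A q1.1 l' a : ℤ) = if j = l' then 1 else 0 :=
          h1 q1.1 q1.2 j l'
        rw [this]
        split_ifs <;> norm_num
    have hmain := out_conv e v hv g0 ell' hell hT A Y hA h3 h5 K hK0 (sh q) q.1.1 q.1.2 τ.1 τ.2 l
      (hK q τ l) hδ
    have : (∑ a, (E (τ, none) a : ℤ) * (A τ.1 l a : ℤ)) ≤ ∑ a, (E q a : ℤ) * (A τ.1 l a : ℤ) := by
      rw [hvx, hq]
      linarith
    exact_mod_cast this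
  · obtain ⟨τ, hτ, n, c, hn, hc, hnc⟩ := hcov Γ (fun i => x (Fin.succ i)) (fun i => hx0 _)
    exact ⟨⟨τ, hτ⟩, fun j => out_cover e v hv g0 ell' hell τ (A τ) (Y τ) (hA τ hτ) (h1 τ hτ)
      (h3 τ hτ) Γ x hx n c hn hc hnc j⟩

end TorFan
end
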