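import Pool.Agent.Lib.MP_6a3dac_ag.Sys.Defs
import Pool.Agent.Lib.MP_6a3dac_ag.Mg.G007

section

/-!
# The derivatives of the Lagrange function of a system
-/

set_option autoImplicit false

namespace Pool.Agent.Lib.MP_6a3dac_ag.Sys

open MvPolynomial Matrix
open Pool.Agent.Lib.MP_6a3dac_ag.DNF

section

variable {c : ℕ} {σ O : Type} [CommRing O] (F : Fin c → MvPolynomial σ O) (j : Fin c)

theorem pd_rename_inl {τ : Type} (l : σ) (q : MvPolynomial σ O) :
    pderiv (Sum.inl l : σ ⊕ τ) (rename Sum.inl q) = rename Sum.inl (pderiv l q) :=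
  pderiv_rename Sum.inl_injective l q

theorem pd_inr_rename {τ : Type} (k : τ) (q : MvPolynomial σ O) :
    pderiv (Sum.inr k : σ ⊕ τ) (rename Sum.inl q) = 0 := by
  classical
  apply pderiv_eq_zero_of_notMem_vars
  intro h
  have h1 := vars_rename (Sum.inl : σ → σ ⊕ τ) q h
  rw [Finset.mem_image] at h1
  obtain ⟨a, -, ha⟩ := h1
  exact absurd ha (by simp)

theorem pd_inl_lagr (l : σ) : pderiv (Sum.inl l) (lagr F j) = rename Sum.inl (pderiv l (F j)) +
    ∑ k : {k : Fin c // k ≠ j}, X (Sum.inr k) * rename Sum.inl (pderiv l (F k.1)) := by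
  classical
  rw [lagr, map_add, map_sum, pd_rename_inl]
  congr 1
  refine Finset.sum_congr rfl fun k _ => ?_
  rw [Derivation.leibniz, pd_rename_inl, pderiv_X_of_ne (by simp)]
  simp

theorem pd_inr_lagr (k : {k : Fin c // k ≠ j}) :
    pderiv (Sum.inr k) (lagr F j) = rename Sum.inl (F k.1) := by
  classical
  rw [lagr, map_add, map_sum, pd_inr_rename, zero_add, Finset.sum_eq_single k]
  · rw [Derivation.leibniz, pd_inr_rename, pderiv_X_self]
    simp
  · intro m _ hm
    rw [Derivation.leibniz, pd_inr_rename, pderiv_X_of_ne]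
    · simp
    · intro h
      exact hm (Sum.inr_injective h)
  · intro h
    exact absurd (Finset.mem_univ _) h

theorem pd2_inl_inl (l m : σ) : pderiv (Sum.inl l) (pderiv (Sum.inl m) (lagr F j)) =
    rename Sum.inl (pderiv l (pderiv m (F j))) +
      ∑ k : {k : Fin c // k ≠ j}, X (Sum.inr k) * rename Sum.inl (pderiv l (pderiv m (F k.1))) := by
  classical
  rw [pd_inl_lagr, map_add, map_sum, pd_rename_inl]
  congr 1
  refine Finset.sum_congr rfl fun k _ => ?_
  rw [Derivation.leibniz, pd_rename_inl, pderiv_X_of_ne (by simp)]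
  simp

theorem pd2_inl_inr (l : σ) (k : {k : Fin c // k ≠ j}) :
    pderiv (Sum.inl l) (pderiv (Sum.inr k) (lagr F j)) = rename Sum.inl (pderiv l (F k.1)) := by
  rw [pd_inr_lagr, pd_rename_inl]

theorem pd2_inr_inl (l : σ) (k : {k : Fin c // k ≠ j}) :
    pderiv (Sum.inr k) (pderiv (Sum.inl l) (lagr F j)) = rename Sum.inl (pderiv l (F k.1)) := by
  classical
  rw [pd_inl_lagr, map_add, map_sum, pd_inr_rename, zero_add, Finset.sum_eq_single k]
  · rw [Derivation.leibniz, pd_inr_rename, pderiv_X_self]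
    simp
  · intro m _ hm
    rw [Derivation.leibniz, pd_inr_rename, pderiv_X_of_ne]
    · simp
    · intro h
      exact hm (Sum.inr_injective h)
  · intro h
    exact absurd (Finset.mem_univ _) h

theorem pd2_inr_inr (k m : {k : Fin c // k ≠ j}) :
    pderiv (Sum.inr k) (pderiv (Sum.inr m) (lagr F j)) = 0 := by
  rw [pd_inr_lagr, pd_inr_rename]

/-- The Hessian matrix of the Lagrange function. -/
theorem hess_lagr : (Matrix.of fun a b => pderiv a (pderiv b (lagr F j))) =
    Matrix.fromBlocks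
      (Matrix.of fun l m => rename Sum.inl (pderiv l (pderiv m (F j))) +
        ∑ k : {k : Fin c // k ≠ j}, X (Sum.inr k) * rename Sum.inl (pderiv l (pderiv m (F k.1))))
      (Matrix.of fun l (k : {k : Fin c // k ≠ j}) => rename Sum.inl (pderiv l (F k.1)))
      (Matrix.of fun (k : {k : Fin c // k ≠ j}) l => rename Sum.inl (pderiv l (F k.1))) 0 := by
  ext a b
  rcases a with l | k <;> rcases b with m | k'
  · rw [Matrix.of_apply, pd2_inl_inl]; rfl
  · rw [Matrix.of_apply, pd2_inl_inr]; rfl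
  · rw [Matrix.of_apply, pd2_inr_inl]; rfl
  · rw [Matrix.of_apply, pd2_inr_inr]; rfl

theorem sum_ne {A : Type} [AddCommMonoid A] {c : ℕ} (j : Fin c) (f : Fin c → A) :
    ∑ k, f k = f j + ∑ k : {k : Fin c // k ≠ j}, f k.1 := by
  classical
  rw [← Finset.add_sum_erase _ _ (Finset.mem_univ j),
    Finset.sum_subtype (Finset.univ.erase j) (p := fun k => k ≠ j) (by simp)]

end

end Pool.Agent.Lib.MP_6a3dac_ag.Sys
end

section

/-!
# Lagrange multipliers at a singular point
-/

set_option autoImplicit false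

namespace Pool.Agent.Lib.MP_6a3dac_ag.Sys

open MvPolynomial Matrix IsLocalRing
open Pool.Agent.Lib.MP_6a3dac_ag.DNF

/-- evaluation of a derivative of the Lagrange function along the first variables -/
theorem t6_inl {O : Type} [CommRing O] {σ : Type} {c : ℕ} (F : Fin c → MvPolynomial σ O)
    (j : Fin c) {A : Type} [CommRing A] (e : MvPolynomial (σ ⊕ {k : Fin c // k ≠ j}) O →+* A)
    (l : σ) : e (pderiv (Sum.inl l) (lagr F j)) = e (rename Sum.inl (pderiv l (F j))) +
      ∑ k : {k : Fin c // k ≠ j}, e (X (Sum.inr k)) * e (rename Sum.inl (pderiv l (F k.1))) := by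
  rw [pd_inl_lagr, map_add, map_sum]
  congr 1
  refine Finset.sum_congr rfl fun k _ => ?_
  rw [map_mul]

/-- evaluation of the Lagrange function -/
theorem t6_lagr {O : Type} [CommRing O] {σ : Type} {c : ℕ} (F : Fin c → MvPolynomial σ O)
    (j : Fin c) {A : Type} [CommRing A] (e : MvPolynomial (σ ⊕ {k : Fin c // k ≠ j}) O →+* A) :
    e (lagr F j) = e (rename Sum.inl (F j)) +
      ∑ k : {k : Fin c // k ≠ j}, e (X (Sum.inr k)) * e (rename Sum.inl (F k.1)) := by
  rw [lagr, map_add, map_sum]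
  congr 1
  refine Finset.sum_congr rfl fun k _ => ?_
  rw [map_mul]

/-- the determinant of the Hessian after evaluation -/
theorem t6_hess {O : Type} [CommRing O] {σ : Type} [Fintype σ] [DecidableEq σ] {c : ℕ}
    (F : Fin c → MvPolynomial σ O)
    (j : Fin c) {A : Type} [CommRing A] (e : MvPolynomial (σ ⊕ {k : Fin c // k ≠ j}) O →+* A) :
    e (Matrix.of fun a b => pderiv a (pderiv b (lagr F j))).det =
      (Matrix.fromBlocks (Matrix.of fun l m => e (pderiv (Sum.inl l) (pderiv (Sum.inl m)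
        (lagr F j)))) (Matrix.of fun (k : {k : Fin c // k ≠ j}) (l : σ) =>
          e (rename Sum.inl (pderiv l (F k.1))))ᵀ
        (Matrix.of fun (k : {k : Fin c // k ≠ j}) (l : σ) =>
          e (rename Sum.inl (pderiv l (F k.1)))) 0).det := by
  rw [RingHom.map_det]
  congr 1
  ext a b
  rcases a with l | k <;> rcases b with m | k'
  · rfl
  · simp [pd2_inl_inr]
  · simp [pd2_inr_inl]
  · simp [pd2_inr_inr]

section

variable {O : Type} [CommRing O] {σ : Type} [Fintype σ] [DecidableEq σ] {c : ℕ}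
  {F : Fin c → MvPolynomial σ O} {D : Type} [CommRing D] [IsDomain D] [IsLocalRing D]
  (φ : MvPolynomial σ O →+* D)

/-- The multipliers exist. -/
theorem exists_lift {ϖ : O} (hφF : ∀ k, φ (F k) = 0) (hpm : φ (C ϖ) ∈ maximalIdeal D)
    (hmin : ∀ s, φ (minor F s) ∈ maximalIdeal D) (hnd : NondegSys ϖ F) :
    ∃ (j : Fin c) (s : {k : Fin c // k ≠ j} → σ)
      (φ' : MvPolynomial (σ ⊕ {k : Fin c // k ≠ j}) O →+* D),
      (∀ q, φ' (rename Sum.inl q) = φ q) ∧
      IsUnit (φ (Matrix.of fun k b : {k : Fin c // k ≠ j} => pderiv (s b) (F k.1)).det) ∧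
      (∀ b, φ' (pderiv (Sum.inl (s b)) (lagr F j)) = 0) ∧
      (∀ l, φ' (pderiv (Sum.inl l) (lagr F j)) ∈ maximalIdeal D) ∧
      IsUnit (φ' (Matrix.of fun a b => pderiv a (pderiv b (lagr F j))).det) := by
  classical
  -- a relation between the rows of the Jacobian matrix over the residue field
  obtain ⟨y₀, hy₀, hy₀0⟩ : ∃ y : Fin c → ResidueField D,
      (y ᵥ* (Matrix.of fun k l => residue D (φ (pderiv l (F k))))) = 0 ∧ y ≠ 0 := by
    by_contra hcon
    push Not at hcon
    obtain ⟨s, hs⟩ := exists_minor_ne_zero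
      (Matrix.of fun k l => residue D (φ (pderiv l (F k)))) hcon
    apply hs
    have h1 : ((Matrix.of fun k l => residue D (φ (pderiv l (F k)))).submatrix id s).det
        = residue D (φ (minor F s)) := by
      rw [minor, ← RingHom.comp_apply, RingHom.map_det]
      rfl
    rw [h1, residue_eq_zero_iff]
    exact hmin s
  obtain ⟨j, hj⟩ : ∃ j, y₀ j ≠ 0 := by
    by_contra hcon
    push Not at hcon
    exact hy₀0 (funext hcon)
  set y : Fin c → ResidueField D := (y₀ j)⁻¹ • y₀ with hy
  have hyj : y j = 1 := by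
    rw [hy, Pi.smul_apply, smul_eq_mul, inv_mul_cancel₀ hj]
  have hyJ : ∀ l, ∑ k, y k * residue D (φ (pderiv l (F k))) = 0 := by
    intro l
    have h1 : (y ᵥ* (Matrix.of fun k l => residue D (φ (pderiv l (F k))))) = 0 := by
      rw [hy, Matrix.smul_vecMul, hy₀, smul_zero]
    have h2 := congrFun h1 l
    simpa [Matrix.vecMul, dotProduct] using h2
  -- evaluation in the residue field
  set ev : MvPolynomial (σ ⊕ {k : Fin c // k ≠ j}) O →+* ResidueField D :=
    eval₂Hom (((residue D).comp φ).comp C)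
      (Sum.elim (fun l => residue D (φ (X l))) (fun k => y k.1)) with hev
  have hev1 : ∀ q, ev (rename Sum.inl q) = residue D (φ q) := by
    intro q
    have h1 : ev.comp (rename Sum.inl : MvPolynomial σ O →ₐ[O] _).toRingHom
        = (residue D).comp φ := by
      apply MvPolynomial.ringHom_ext
      · intro r
        simp [hev]
      · intro i
        simp [hev]
    exact RingHom.congr_fun h1 q
  have hev2 : ∀ k : {k : Fin c // k ≠ j}, ev (X (Sum.inr k)) = y k.1 := by
    intro k
    simp [hev]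
  have hdet : ev (Matrix.of fun a b => pderiv a (pderiv b (lagr F j))).det ≠ 0 := by
    have h1 := hnd j (RingHom.ker ev) (RingHom.ker_isPrime ev) ?_ ?_ ?_
    · exact fun h2 => h1 h2
    · rw [RingHom.mem_ker]
      have h2 : ev (C ϖ) = residue D (φ (C ϖ)) := by
        simp [hev]
      rw [h2, residue_eq_zero_iff]
      exact hpm
    · rw [RingHom.mem_ker, t6_lagr, hev1, hφF, map_zero, zero_add]
      refine Finset.sum_eq_zero fun k _ => ?_
      rw [hev1, hφF, map_zero, mul_zero]
    · rintro (l | k)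
      · rw [RingHom.mem_ker, t6_inl, hev1]
        have h2 := hyJ l
        rw [sum_ne j, hyj, one_mul] at h2
        rw [← h2]
        congr 1
        refine Finset.sum_congr rfl fun k _ => ?_
        rw [hev1, hev2]
      · rw [RingHom.mem_ker, pd_inr_lagr, hev1, hφF, map_zero]
  -- an invertible minor
  obtain ⟨s, hs⟩ : ∃ s : {k : Fin c // k ≠ j} → σ,
      ((Matrix.of fun (k : {k : Fin c // k ≠ j}) (l : σ) =>
        residue D (φ (pderiv l (F k.1)))).submatrix id s).det ≠ 0 := by
    rw [t6_hess] at hdet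
    simp only [hev1] at hdet
    exact exists_minor_of_block _ _ hdet
  set M : Matrix {k : Fin c // k ≠ j} {k : Fin c // k ≠ j} D :=
    Matrix.of fun k b => φ (pderiv (s b) (F k.1)) with hM
  have hMdet : M.det = φ (Matrix.of fun k b : {k : Fin c // k ≠ j} =>
      pderiv (s b) (F k.1)).det := by
    rw [RingHom.map_det]
    rfl
  have hMres : ((residue D).mapMatrix M) = (Matrix.of fun (k : {k : Fin c // k ≠ j}) (l : σ) =>
        residue D (φ (pderiv l (F k.1)))).submatrix id s := by
    ext k b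
    rfl
  have hMu : IsUnit M.det := by
    rw [← residue_ne_zero_iff_isUnit, RingHom.map_det, hMres]
    exact hs
  -- solve
  set v : {k : Fin c // k ≠ j} → D := fun b => - φ (pderiv (s b) (F j)) with hv
  set ys : {k : Fin c // k ≠ j} → D := v ᵥ* M⁻¹ with hys
  have hysM : ys ᵥ* M = v := by
    rw [hys, Matrix.vecMul_vecMul, Matrix.nonsing_inv_mul _ hMu, Matrix.vecMul_one]
  have hysb : ∀ b, φ (pderiv (s b) (F j)) + ∑ k, ys k * φ (pderiv (s b) (F k.1)) = 0 := by
    intro b
    have h1 := congrFun hysM b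
    have h2 : (ys ᵥ* M) b = ∑ k, ys k * φ (pderiv (s b) (F k.1)) := by
      simp [Matrix.vecMul, dotProduct, hM]
    rw [h2] at h1
    rw [h1, hv]
    ring
  have hres : ∀ k, residue D (ys k) = y k.1 := by
    have h1 : ∀ b, ∑ k, (residue D (ys k) - y k.1) * residue D (φ (pderiv (s b) (F k.1))) = 0 := by
      intro b
      have h2 := congrArg (residue D) (hysb b)
      rw [map_add, map_sum, map_zero] at h2
      have h3 := hyJ (s b)
      rw [sum_ne j, hyj, one_mul] at h3
      have h4 : ∑ k, (residue D (ys k) - y k.1) * residue D (φ (pderiv (s b) (F k.1)))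
          = (residue D (φ (pderiv (s b) (F j))) + ∑ k, residue D (ys k *
              φ (pderiv (s b) (F k.1)))) - (residue D (φ (pderiv (s b) (F j))) +
            ∑ k : {k : Fin c // k ≠ j}, y k.1 * residue D (φ (pderiv (s b) (F k.1)))) := by
        simp only [sub_mul, Finset.sum_sub_distrib, map_mul]
        ring
      rw [h4, h2, h3, sub_zero]
    have h2 : (fun k => residue D (ys k) - y k.1) ᵥ* ((residue D).mapMatrix M) = 0 := by
      ext b
      have := h1 b
      simpa [Matrix.vecMul, dotProduct, hM] using this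
    have h3 := Matrix.eq_zero_of_vecMul_eq_zero (M := (residue D).mapMatrix M) (by
      rw [hMres]
      exact hs) h2
    intro k
    have := congrFun h3 k
    exact sub_eq_zero.1 this
  -- the homomorphism
  set φ' : MvPolynomial (σ ⊕ {k : Fin c // k ≠ j}) O →+* D :=
    eval₂Hom (φ.comp C) (Sum.elim (fun l => φ (X l)) ys) with hφ'
  have h1 : ∀ q, φ' (rename Sum.inl q) = φ q := by
    intro q
    have h1 : φ'.comp (rename Sum.inl : MvPolynomial σ O →ₐ[O] _).toRingHom = φ := by
      apply MvPolynomial.ringHom_ext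
      · intro r
        simp [hφ']
      · intro i
        simp [hφ']
    exact RingHom.congr_fun h1 q
  have h2 : ∀ k : {k : Fin c // k ≠ j}, φ' (X (Sum.inr k)) = ys k := by
    intro k
    simp [hφ']
  have h3 : (residue D).comp φ' = ev := by
    apply MvPolynomial.ringHom_ext
    · intro r
      simp [hφ', hev]
    · rintro (i | k)
      · simp [hφ', hev]
      · simp [hφ', hev, hres]
  refine ⟨j, s, φ', h1, ?_, ?_, ?_, ?_⟩
  · rw [← hMdet]
    exact hMu
  · intro b
    rw [t6_inl, h1, ← hysb b]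
    congr 1
    refine Finset.sum_congr rfl fun k _ => ?_
    rw [h1, h2]
  · intro l
    rw [← residue_eq_zero_iff]
    have h4 : residue D (φ' (pderiv (Sum.inl l) (lagr F j))) = ev (pderiv (Sum.inl l) (lagr F j)) := by
      rw [← h3]
      rfl
    rw [h4, t6_inl, hev1]
    have h2 := hyJ l
    rw [sum_ne j, hyj, one_mul] at h2
    rw [← h2]
    congr 1
    refine Finset.sum_congr rfl fun k _ => ?_
    rw [hev1, hev2]
  · rw [← residue_ne_zero_iff_isUnit]
    have h4 : residue D (φ' (Matrix.of fun a b => pderiv a (pderiv b (lagr F j))).det)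
        = ev (Matrix.of fun a b => pderiv a (pderiv b (lagr F j))).det := by
      rw [← h3]
      rfl
    rw [h4]
    exact hdet

end

end Pool.Agent.Lib.MP_6a3dac_ag.Sys
end

section

/-!
# Lagrange multipliers at a singular point
-/

set_option autoImplicit false

namespace Pool.Agent.Lib.MP_6a3dac_ag.Sys

open MvPolynomial Matrix IsLocalRing
open Pool.Agent.Lib.MP_6a3dac_ag.DNF

section

variable {O : Type} [CommRing O] {σ : Type} [Fintype σ] [DecidableEq σ] {c : ℕ}
  {F : Fin c → MvPolynomial σ O} {D : Type} [CommRing D] [IsDomain D] [IsLocalRing D]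
  {φ : MvPolynomial σ O →+* D} {j : Fin c} {s : {k : Fin c // k ≠ j} → σ}
  {φ' : MvPolynomial (σ ⊕ {k : Fin c // k ≠ j}) O →+* D}

omit [Fintype σ] [DecidableEq σ] [IsDomain D] [IsLocalRing D] in
/-- The image of a derivative of the Lagrange function. -/
theorem t7_lagr (h1 : ∀ q, φ' (rename Sum.inl q) = φ q) (l : σ) :
    φ' (pderiv (Sum.inl l) (lagr F j)) = φ (pderiv l (F j)) +
      ∑ k : {k : Fin c // k ≠ j}, φ' (X (Sum.inr k)) * φ (pderiv l (F k.1)) := by
  rw [pd_inl_lagr, map_add, map_sum, h1]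
  congr 1
  refine Finset.sum_congr rfl fun k _ => ?_
  rw [map_mul, h1]

omit [Fintype σ] [DecidableEq σ] [IsDomain D] [IsLocalRing D] in
/-- The row operation. -/
theorem t7_det_minor (h1 : ∀ q, φ' (rename Sum.inl q) = φ q) (s' : Fin c → σ) :
    φ (minor F s') = ((φ.mapMatrix (Matrix.of fun k b => pderiv (s' b) (F k))).updateRow j
      fun b => φ' (pderiv (Sum.inl (s' b)) (lagr F j))).det := by
  classical
  set N : Matrix (Fin c) (Fin c) D :=
    φ.mapMatrix (Matrix.of fun k b => pderiv (s' b) (F k)) with hN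
  have e1 : φ (minor F s') = N.det := by
    rw [minor, RingHom.map_det]
  let y : Fin c → D := fun k => if h : k = j then 1 else φ' (X (Sum.inr ⟨k, h⟩))
  have e2 : (fun b => φ' (pderiv (Sum.inl (s' b)) (lagr F j))) = ∑ k, y k • N k := by
    funext b
    rw [t7_lagr h1, Finset.sum_apply, sum_ne j]
    congr 1
    · simp [y, hN]
    · refine Finset.sum_congr rfl fun k _ => ?_
      simp [y, hN, k.2]
  rw [e1, e2, Matrix.det_updateRow_sum]
  simp [y]

omit [Fintype σ] [DecidableEq σ] in
theorem t7_mem_locIn (h1 : ∀ q, φ' (rename Sum.inl q) = φ q)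
    (h2 : IsUnit (φ (Matrix.of fun k b : {k : Fin c // k ≠ j} => pderiv (s b) (F k.1)).det))
    (h3 : ∀ b, φ' (pderiv (Sum.inl (s b)) (lagr F j)) = 0)
    (k : {k : Fin c // k ≠ j}) : φ' (X (Sum.inr k)) ∈ locIn φ := by
  classical
  set A : Matrix {k : Fin c // k ≠ j} {k : Fin c // k ≠ j} (MvPolynomial σ O) :=
    Matrix.of fun k b => pderiv (s b) (F k.1) with hA
  let y : {k : Fin c // k ≠ j} → D := fun k => φ' (X (Sum.inr k))
  let v : {k : Fin c // k ≠ j} → MvPolynomial σ O := fun b => pderiv (s b) (F j)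
  have e1 : y ᵥ* φ.mapMatrix A = fun b => - φ (v b) := by
    funext b
    have := h3 b
    rw [t7_lagr h1] at this
    have e2 : (y ᵥ* φ.mapMatrix A) b =
        ∑ k : {k : Fin c // k ≠ j}, φ' (X (Sum.inr k)) * φ (pderiv (s b) (F k.1)) := by
      simp [Matrix.vecMul, dotProduct, hA, y]
    rw [e2]
    linear_combination this
  have e3 : (φ A.det) • y = fun k => φ (- ∑ b, v b * A.adjugate b k) := by
    have e4 : (y ᵥ* φ.mapMatrix A) ᵥ* (φ.mapMatrix A).adjugate = (φ A.det) • y := by
      rw [Matrix.vecMul_vecMul, Matrix.mul_adjugate, Matrix.vecMul_smul, Matrix.vecMul_one,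
        RingHom.map_det]
    rw [← e4, e1, ← RingHom.map_adjugate]
    funext k
    simp [Matrix.vecMul, dotProduct]
  refine ⟨- ∑ b, v b * A.adjugate b k, A.det, h2, ?_⟩
  have := congrFun e3 k
  simp only [Pi.smul_apply, smul_eq_mul] at this
  rw [mul_comm]
  exact this

omit [IsDomain D] [IsLocalRing D] in
/-- The elements of the span. -/
theorem t8_inJ_iff (R : Subring D) (a : D) (Z : Finset D) (i : ℕ) (x : D) :
    InJ R a Z i x ↔ x ∈ Submodule.span R (insert (a ^ i) (Z : Set D)) := by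
  classical
  rw [Submodule.mem_span_insert]
  constructor
  · rintro ⟨c₀, hc₀, c, hc, rfl⟩
    refine ⟨⟨c₀, hc₀⟩, ∑ z ∈ Z, c z * z, ?_, rfl⟩
    refine Submodule.sum_mem _ fun z hz => ?_
    have h : c z * z = (⟨c z, hc z hz⟩ : R) • z := rfl
    rw [h]
    exact Submodule.smul_mem _ _ (Submodule.subset_span hz)
  · rintro ⟨c₀, w, hw, rfl⟩
    rw [Submodule.mem_span_finset] at hw
    obtain ⟨f, -, rfl⟩ := hw
    exact ⟨c₀, c₀.2, fun z => f z, fun z _ => (f z).2, rfl⟩

end

section

variable {O : Type} [CommRing O] {σ : Type} [Fintype σ] [DecidableEq σ] {c : ℕ}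
  {F : Fin c → MvPolynomial σ O} {D : Type} [CommRing D] [IsDomain D] [IsLocalRing D]
  {φ : MvPolynomial σ O →+* D} {j : Fin c} {s : {k : Fin c // k ≠ j} → σ}
  {φ' : MvPolynomial (σ ⊕ {k : Fin c // k ≠ j}) O →+* D}
  (h1 : ∀ q, φ' (rename Sum.inl q) = φ q)
  (h2 : IsUnit (φ (Matrix.of fun k b : {k : Fin c // k ≠ j} => pderiv (s b) (F k.1)).det))
  (h3 : ∀ b, φ' (pderiv (Sum.inl (s b)) (lagr F j)) = 0)
include h1 h2 h3

theorem lift_mem_locIn (k : {k : Fin c // k ≠ j}) : φ' (X (Sum.inr k)) ∈ locIn φ :=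
  t7_mem_locIn h1 h2 h3 k

theorem lift_locIn : locIn φ' = locIn φ := by
  apply le_antisymm
  · apply locIn_le (dom_locIn φ)
    intro a
    induction a using MvPolynomial.induction_on with
    | C r =>
      have : (C r : MvPolynomial (σ ⊕ {k : Fin c // k ≠ j}) O) = rename Sum.inl (C r) := by
        rw [rename_C]
      rw [this, h1]
      exact map_mem_locIn φ _
    | add p q hp hq =>
      rw [map_add]
      exact (locIn φ).add_mem hp hq
    | mul_X p i hp =>
      rw [map_mul]
      refine (locIn φ).mul_mem hp ?_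
      rcases i with l | k
      · have : (X (Sum.inl l) : MvPolynomial (σ ⊕ {k : Fin c // k ≠ j}) O) =
            rename Sum.inl (X l) := by rw [rename_X]
        rw [this, h1]
        exact map_mem_locIn φ _
      · exact lift_mem_locIn h1 h2 h3 k
  · apply locIn_le (dom_locIn φ')
    intro a
    rw [← h1]
    exact map_mem_locIn φ' _

theorem lift_minor₁ (l : σ) :
    φ (minor F fun k => if h : k = j then l else s ⟨k, h⟩) =
      φ' (pderiv (Sum.inl l) (lagr F j)) *
        φ (Matrix.of fun k b : {k : Fin c // k ≠ j} => pderiv (s b) (F k.1)).det := by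
  classical
  set s' : Fin c → σ := fun k => if h : k = j then l else s ⟨k, h⟩ with hs'
  have e0 : s' j = l := by simp [hs']
  have e0' : ∀ b : {k : Fin c // k ≠ j}, s' b.1 = s b := by
    intro b
    simp [hs', b.2]
  rw [t7_det_minor h1 s', Matrix.twoBlockTriangular_det _ (fun k => k ≠ j), mul_comm]
  · congr 1
    · have e1 : ∀ x y : {k : Fin c // ¬ k ≠ j}, x = y := by
        rintro ⟨x, hx⟩ ⟨y, hy⟩
        simp only [ne_eq, not_not] at hx hy
        subst hx
        subst hy
        rfl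
      have : Subsingleton {k : Fin c // ¬ k ≠ j} := ⟨e1⟩
      rw [Matrix.det_eq_elem_of_subsingleton _ (⟨j, by simp⟩ : {k : Fin c // ¬ k ≠ j})]
      simp [Matrix.toSquareBlockProp, e0]
    · rw [RingHom.map_det]
      congr 1
      ext k b
      simp [Matrix.toSquareBlockProp, Matrix.updateRow_ne k.2, e0']
  · intro i hi b hb
    have hi' : i = j := not_not.mp hi
    subst hi'
    rw [Matrix.updateRow_self]
    have := h3 ⟨b, hb⟩
    rw [← e0' ⟨b, hb⟩] at this
    exact this

omit h2 h3 in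
theorem lift_minor₂ (s' : Fin c → σ) : ∃ e : Fin c → MvPolynomial σ O,
    φ (minor F s') = ∑ b, φ (e b) * φ' (pderiv (Sum.inl (s' b)) (lagr F j)) := by
  classical
  refine ⟨fun b => (Matrix.of fun k b => pderiv (s' b) (F k)).adjugate b j, ?_⟩
  rw [t7_det_minor h1 s', Matrix.det_eq_sum_mul_adjugate_row _ j]
  refine Finset.sum_congr rfl fun b _ => ?_
  rw [Matrix.updateRow_self, mul_comm]
  congr 1
  rw [Matrix.adjugate_apply, Matrix.updateRow_idem, ← Matrix.adjugate_apply,
    ← RingHom.map_adjugate]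
  rfl

theorem lift_inJ (hφF : ∀ k, φ (F k) = 0) {a : D} {Z Z' : Finset D}
    (hZ : ∀ z, z ∈ Z ↔ ∃ s', φ (minor F s') = z)
    (hZ' : ∀ z, z ∈ Z' ↔ ∃ l, φ' (pderiv l (lagr F j)) = z) (i : ℕ) (x : D) :
    InJ (locIn φ) a Z i x ↔ InJ (locIn φ) a Z' i x := by
  classical
  rw [t8_inJ_iff, t8_inJ_iff]
  have key : Submodule.span (locIn φ) (insert (a ^ i) (Z : Set D)) =
      Submodule.span (locIn φ) (insert (a ^ i) (Z' : Set D)) := by
    apply le_antisymm
    · rw [Submodule.span_le, Set.insert_subset_iff]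
      refine ⟨Submodule.subset_span (Set.mem_insert _ _), ?_⟩
      intro z hz
      obtain ⟨s', rfl⟩ := (hZ z).mp hz
      obtain ⟨e, he⟩ := lift_minor₂ (j := j) h1 s'
      rw [he]
      refine Submodule.sum_mem _ fun b _ => ?_
      have h : φ (e b) * φ' (pderiv (Sum.inl (s' b)) (lagr F j)) =
        (⟨φ (e b), map_mem_locIn φ _⟩ : locIn φ) • φ' (pderiv (Sum.inl (s' b)) (lagr F j)) := rfl
      rw [h]
      refine Submodule.smul_mem _ _ (Submodule.subset_span (Set.mem_insert_of_mem _ ?_))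
      exact (hZ' _).mpr ⟨_, rfl⟩
    · rw [Submodule.span_le, Set.insert_subset_iff]
      refine ⟨Submodule.subset_span (Set.mem_insert _ _), ?_⟩
      intro z hz
      obtain ⟨l, rfl⟩ := (hZ' z).mp hz
      rcases l with l | k
      · have h := lift_minor₁ h1 h2 h3 l
        obtain ⟨t, ht⟩ := h2.exists_right_inv
        have ht' : t ∈ locIn φ := dom_locIn φ _ (map_mem_locIn φ _) t ht
        have h' : φ' (pderiv (Sum.inl l) (lagr F j)) = (⟨t, ht'⟩ : locIn φ) •
            φ (minor F fun k => if h : k = j then l else s ⟨k, h⟩) := by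
          change _ = t * _
          rw [h]
          linear_combination (-φ' (pderiv (Sum.inl l) (lagr F j))) * ht
        rw [h']
        refine Submodule.smul_mem _ _ (Submodule.subset_span (Set.mem_insert_of_mem _ ?_))
        exact (hZ _).mpr ⟨_, rfl⟩
      · rw [pd_inr_lagr, h1, hφF]
        exact Submodule.zero_mem _
  rw [key]

theorem lift_dvd (hφF : ∀ k, φ (F k) = 0) {Z Z' : Finset D}
    (hZ : ∀ z, z ∈ Z ↔ ∃ s', φ (minor F s') = z)
    (hZ' : ∀ z, z ∈ Z' ↔ ∃ l, φ' (pderiv l (lagr F j)) = z) {x : D} (hx : ∀ z ∈ Z, x ∣ z) :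
    ∀ z ∈ Z', x ∣ z := by
  intro z hz
  obtain ⟨l, rfl⟩ := (hZ' z).mp hz
  rcases l with l | k
  · have h := hx _ ((hZ _).mpr ⟨_, lift_minor₁ h1 h2 h3 l⟩)
    exact (IsUnit.dvd_mul_right h2).mp h
  · rw [pd_inr_lagr, h1, hφF]
    exact dvd_zero x

end

end Pool.Agent.Lib.MP_6a3dac_ag.Sys
end

section

/-!
# Lagrange multipliers at a singular point
-/

set_option autoImplicit false

namespace Pool.Agent.Lib.MP_6a3dac_ag.Sys

open MvPolynomial Matrix IsLocalRing
open Pool.Agent.Lib.MP_6a3dac_ag.DNF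

section

variable {O : Type} [CommRing O] {σ : Type} [Fintype σ] [DecidableEq σ] {c : ℕ}
  {F : Fin c → MvPolynomial σ O} {D : Type} [CommRing D] [IsDomain D] [IsLocalRing D]
  {φ : MvPolynomial σ O →+* D} {j : Fin c} {s : {k : Fin c // k ≠ j} → σ}
  {φ' : MvPolynomial (σ ⊕ {k : Fin c // k ≠ j}) O →+* D}

/-- Elimination of the multipliers by Cramer's rule modulo an ideal. -/
theorem lift_elim (I : Ideal (MvPolynomial (σ ⊕ {k : Fin c // k ≠ j}) O))
    (hI : ∀ b, pderiv (Sum.inl (s b)) (lagr F j) ∈ I)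
    (g : MvPolynomial (σ ⊕ {k : Fin c // k ≠ j}) O) :
    ∃ (N : ℕ) (g₀ : MvPolynomial σ O),
      rename Sum.inl (Matrix.of fun k b : {k : Fin c // k ≠ j} => pderiv (s b) (F k.1)).det ^ N * g
        - rename Sum.inl g₀ ∈ I := by
  classical
  set P : Matrix {k : Fin c // k ≠ j} {k : Fin c // k ≠ j} (MvPolynomial σ O) :=
    Matrix.of fun k b : {k : Fin c // k ≠ j} => pderiv (s b) (F k.1) with hP
  set ι : MvPolynomial σ O →ₐ[O] MvPolynomial (σ ⊕ {k : Fin c // k ≠ j}) O :=
    rename Sum.inl with hι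
  induction g using MvPolynomial.induction_on with
  | C a => exact ⟨0, C a, by simp [hι]⟩
  | add p q hp hq =>
    obtain ⟨N, p₀, hp⟩ := hp
    obtain ⟨M, q₀, hq⟩ := hq
    refine ⟨N + M, P.det ^ M * p₀ + P.det ^ N * q₀, ?_⟩
    have h1 := I.mul_mem_left (ι P.det ^ M) hp
    have h2 := I.mul_mem_left (ι P.det ^ N) hq
    have h3 := I.add_mem h1 h2
    convert h3 using 1
    rw [map_add, map_mul, map_mul, map_pow, map_pow]
    ring
  | mul_X p i hp =>
    obtain ⟨N, p₀, hp⟩ := hp
    rcases i with l | m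
    · refine ⟨N, p₀ * X l, ?_⟩
      have h1 := I.mul_mem_right (X (Sum.inl l)) hp
      convert h1 using 1
      rw [map_mul, hι, rename_X]
      ring
    · refine ⟨N + 1, - p₀ * ∑ b, pderiv (s b) (F j) * P.adjugate b m, ?_⟩
      -- the Cramer relation
      have h4 : ∑ b, pderiv (Sum.inl (s b)) (lagr F j) * ι (P.adjugate b m) ∈ I :=
        I.sum_mem fun b _ => I.mul_mem_right _ (hI b)
      have h5 : ∑ b, pderiv (Sum.inl (s b)) (lagr F j) * ι (P.adjugate b m) =
          ι (∑ b, pderiv (s b) (F j) * P.adjugate b m) + X (Sum.inr m) * ι P.det := by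
        have h6 : ∀ b, pderiv (Sum.inl (s b)) (lagr F j) = ι (pderiv (s b) (F j)) +
            ∑ k : {k : Fin c // k ≠ j}, X (Sum.inr k) * ι (P k b) := by
          intro b
          rw [pd_inl_lagr]
          rfl
        simp only [h6, add_mul, Finset.sum_add_distrib, Finset.sum_mul]
        rw [map_sum]
        congr 1
        · exact Finset.sum_congr rfl fun b _ => (map_mul _ _ _).symm
        · rw [Finset.sum_comm]
          have h7 : ∀ k, ∑ b, X (Sum.inr k) * ι (P k b) * ι (P.adjugate b m) =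
              X (Sum.inr k) * ι ((P * P.adjugate) k m) := by
            intro k
            rw [Matrix.mul_apply, map_sum, Finset.mul_sum]
            refine Finset.sum_congr rfl fun b _ => ?_
            rw [map_mul]
            ring
          rw [Finset.sum_congr rfl fun k _ => h7 k, Matrix.mul_adjugate]
          rw [Finset.sum_eq_single m]
          · rw [Matrix.smul_apply, Matrix.one_apply_eq, smul_eq_mul, mul_one]
          · intro k _ hk
            rw [Matrix.smul_apply, Matrix.one_apply_ne hk, smul_zero, map_zero, mul_zero]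
          · intro h
            exact absurd (Finset.mem_univ _) h
      rw [h5] at h4
      have h8 := I.mul_mem_left (ι p₀) h4
      have h9 := I.mul_mem_right (X (Sum.inr m) * ι P.det) hp
      have h10 := I.add_mem h9 h8
      convert h10 using 1
      rw [map_mul, map_neg]
      ring

theorem lift_ker
    (h1 : ∀ q, φ' (rename Sum.inl q) = φ q)
    (h2 : IsUnit (φ (Matrix.of fun k b : {k : Fin c // k ≠ j} => pderiv (s b) (F k.1)).det))
    (h3 : ∀ b, φ' (pderiv (Sum.inl (s b)) (lagr F j)) = 0)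
    (hφF : ∀ k, φ (F k) = 0)
    (hker : ∀ g, φ g = 0 → ∃ z, φ z ≠ 0 ∧ z * g ∈ Ideal.span (Set.range F))
    (M : Finset (σ ⊕ {k : Fin c // k ≠ j}))
    (hM : M = (Finset.univ.image fun b => Sum.inl (s b)) ∪ Finset.univ.image Sum.inr)
    (g : MvPolynomial (σ ⊕ {k : Fin c // k ≠ j}) O) (hg : φ' g = 0) :
    ∃ z, φ' z ≠ 0 ∧ z * g ∈ Ideal.span (insert (lagr F j)
      ((fun a => pderiv a (lagr F j)) '' (M : Set (σ ⊕ {k : Fin c // k ≠ j})))) := by
  classical
  set I : Ideal (MvPolynomial (σ ⊕ {k : Fin c // k ≠ j}) O) := Ideal.span (insert (lagr F j)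
      ((fun a => pderiv a (lagr F j)) '' (M : Set (σ ⊕ {k : Fin c // k ≠ j})))) with hIdef
  have hMinl : ∀ b, Sum.inl (s b) ∈ M := by
    intro b
    rw [hM]
    exact Finset.mem_union_left _ (Finset.mem_image_of_mem _ (Finset.mem_univ b))
  have hMinr : ∀ k, Sum.inr k ∈ M := by
    intro k
    rw [hM]
    exact Finset.mem_union_right _ (Finset.mem_image_of_mem _ (Finset.mem_univ k))
  have hI1 : ∀ a ∈ M, pderiv a (lagr F j) ∈ I := fun a ha =>
    Ideal.subset_span (Set.mem_insert_of_mem _ ⟨a, ha, rfl⟩)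
  have hI0 : lagr F j ∈ I := Ideal.subset_span (Set.mem_insert _ _)
  -- the polynomials of the system lie in I
  have hFk : ∀ k : {k : Fin c // k ≠ j}, rename Sum.inl (F k.1) ∈ I := by
    intro k
    rw [← pd_inr_lagr]
    exact hI1 _ (hMinr k)
  have hFj : rename Sum.inl (F j) ∈ I := by
    have h4 : rename Sum.inl (F j) = lagr F j -
        ∑ k : {k : Fin c // k ≠ j}, X (Sum.inr k) * rename Sum.inl (F k.1) := by
      rw [lagr, add_sub_cancel_right]
    rw [h4]
    exact I.sub_mem hI0 (I.sum_mem fun k _ => I.mul_mem_left _ (hFk k))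
  have hF : ∀ k, rename Sum.inl (F k) ∈ I := by
    intro k
    by_cases hk : k = j
    · rw [hk]; exact hFj
    · exact hFk ⟨k, hk⟩
  have hspan : ∀ q ∈ Ideal.span (Set.range F), rename Sum.inl q ∈ I := by
    intro q hq
    have h4 : Ideal.span (Set.range F) ≤ I.comap (rename Sum.inl : MvPolynomial σ O →ₐ[O]
        MvPolynomial (σ ⊕ {k : Fin c // k ≠ j}) O) := by
      rw [Ideal.span_le]
      rintro _ ⟨k, rfl⟩
      exact hF k
    exact h4 hq
  -- φ' kills I
  have hlagr : φ' (lagr F j) = 0 := by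
    rw [lagr, map_add, map_sum, h1, hφF, zero_add]
    refine Finset.sum_eq_zero fun k _ => ?_
    rw [map_mul, h1, hφF, mul_zero]
  have hkill : ∀ q ∈ I, φ' q = 0 := by
    intro q hq
    have h4 : I ≤ RingHom.ker φ' := by
      rw [hIdef, Ideal.span_le]
      intro x hx
      rcases hx with rfl | ⟨a, ha, rfl⟩
      · exact hlagr
      · rw [Finset.mem_coe, hM, Finset.mem_union, Finset.mem_image, Finset.mem_image] at ha
        rcases ha with ⟨b, -, rfl⟩ | ⟨k, -, rfl⟩
        · exact h3 b
        · change φ' (pderiv (Sum.inr k) (lagr F j)) = 0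
          rw [pd_inr_lagr, h1, hφF]
    exact h4 hq
  obtain ⟨N, g₀, hN⟩ := lift_elim (s := s) I (fun b => hI1 _ (hMinl b)) g
  set Δ := (Matrix.of fun k b : {k : Fin c // k ≠ j} => pderiv (s b) (F k.1)).det with hΔ
  have h5 := hkill _ hN
  rw [map_sub, map_mul, hg, mul_zero, zero_sub, neg_eq_zero, h1] at h5
  obtain ⟨z₀, hz₀, hz₁⟩ := hker g₀ h5
  refine ⟨rename Sum.inl (z₀ * Δ ^ N), ?_, ?_⟩
  · rw [h1, map_mul, map_pow]
    exact mul_ne_zero hz₀ (pow_ne_zero _ h2.ne_zero)
  · have h6 : rename Sum.inl (z₀ * Δ ^ N) * g = rename Sum.inl z₀ *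
        (rename Sum.inl Δ ^ N * g - rename Sum.inl g₀) + rename Sum.inl (z₀ * g₀) := by
      rw [map_mul, map_mul, map_pow]
      ring
    rw [h6]
    exact I.add_mem (I.mul_mem_left _ hN) (hspan _ hz₁)

theorem lift_hessM
    (h1 : ∀ q, φ' (rename Sum.inl q) = φ q)
    (h2 : IsUnit (φ (Matrix.of fun k b : {k : Fin c // k ≠ j} => pderiv (s b) (F k.1)).det))
    (h3 : ∀ b, φ' (pderiv (Sum.inl (s b)) (lagr F j)) = 0)
    (hdet : IsUnit (φ' (Matrix.of fun a b => pderiv a (pderiv b (lagr F j))).det))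
    (M : Finset (σ ⊕ {k : Fin c // k ≠ j}))
    (hM : M = (Finset.univ.image fun b => Sum.inl (s b)) ∪ Finset.univ.image Sum.inr) :
    IsUnit (φ' (Matrix.of fun a b : {a // a ∈ M} =>
      pderiv a.1 (pderiv b.1 (lagr F j))).det) := by
  classical
  have _ := h3
  have _ := hdet
  have hunit : ∀ x : D, IsUnit x ↔ residue D x ≠ 0 := fun x => by
    rw [← residue_ne_zero_iff_isUnit]
  rw [hunit]
  set ψ : MvPolynomial (σ ⊕ {k : Fin c // k ≠ j}) O →+* ResidueField D :=
    (residue D).comp φ' with hψ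
  set B : Matrix {k : Fin c // k ≠ j} σ (ResidueField D) :=
    Matrix.of fun k l => residue D (φ (pderiv l (F k.1))) with hB
  set A : Matrix σ σ (ResidueField D) := Matrix.of fun l m =>
    ψ (rename Sum.inl (pderiv l (pderiv m (F j))) +
        ∑ k : {k : Fin c // k ≠ j}, X (Sum.inr k) * rename Sum.inl (pderiv l (pderiv m (F k.1))))
    with hA
  have hBs : (B.submatrix id s).det ≠ 0 := by
    rw [hunit] at h2
    convert h2 using 1
    rw [RingHom.map_det, RingHom.map_det]
    rfl
  have h5 := det_block_ne_zero A B s hBs M hM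
  convert h5 using 1
  rw [← RingHom.comp_apply, ← hψ, RingHom.map_det]
  congr 1
  have h6 := hess_lagr F j
  ext a b
  have h7 : pderiv a.1 (pderiv b.1 (lagr F j)) =
    (Matrix.of fun a b => pderiv a (pderiv b (lagr F j))) a.1 b.1 := rfl
  rw [RingHom.mapMatrix_apply, Matrix.map_apply, Matrix.of_apply, h7, h6, Matrix.submatrix_apply]
  rcases a with ⟨l | k, ha⟩ <;> rcases b with ⟨m | k', hb⟩
  · rfl
  · change ψ (rename Sum.inl (pderiv l (F k'.1))) = residue D (φ (pderiv l (F k'.1)))
    rw [hψ, RingHom.comp_apply, h1]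
  · change ψ (rename Sum.inl (pderiv m (F k.1))) = residue D (φ (pderiv m (F k.1)))
    rw [hψ, RingHom.comp_apply, h1]
  · change ψ 0 = 0
    exact map_zero ψ

end

end Pool.Agent.Lib.MP_6a3dac_ag.Sys
end

section

/-!
# The Jacobian ideal in terms of the Lagrange function
-/

set_option autoImplicit false

namespace Pool.Agent.Lib.MP_6a3dac_ag.Sys

open MvPolynomial Matrix IsLocalRing
open Pool.Agent.Lib.MP_6a3dac_ag.DNF

/-- A determinant lies in an ideal containing the entries of a combination of the rows with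
coefficient one at the row `j`. -/
theorem t10_det_mem {R : Type} [CommRing R] {c : ℕ} (I : Ideal R) (A : Matrix (Fin c) (Fin c) R)
    (j : Fin c) (y : Fin c → R) (hy : y j = 1) (h : ∀ b, ∑ k, y k * A k b ∈ I) : A.det ∈ I := by
  have h1 := Matrix.det_updateRow_sum A j y
  rw [hy, one_smul] at h1
  rw [← h1, ← Matrix.cramer_transpose_apply, Matrix.cramer_eq_adjugate_mulVec]
  rw [Matrix.mulVec, dotProduct]
  refine Ideal.sum_mem I fun b _ => Ideal.mul_mem_left I _ ?_
  have h2 := h b
  simpa [Finset.sum_apply, Pi.smul_apply, smul_eq_mul] using h2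

/-- The Jacobian ideal in terms of the Lagrange function. -/
theorem lift_jac {O : Type} [CommRing O] {σ : Type} [Fintype σ] [DecidableEq σ] {c : ℕ}
    {F : Fin c → MvPolynomial σ O} (j : Fin c) {x : MvPolynomial σ O}
    (hx : x ∈ Ideal.span (Set.range F ∪ Set.range (minor F))) :
    ∃ (c₀ : MvPolynomial (σ ⊕ {k : Fin c // k ≠ j}) O)
      (e : σ ⊕ {k : Fin c // k ≠ j} → MvPolynomial (σ ⊕ {k : Fin c // k ≠ j}) O),
      rename Sum.inl x = c₀ * lagr F j + ∑ a, e a * pderiv a (lagr F j) := by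
  classical
  set I : Ideal (MvPolynomial (σ ⊕ {k : Fin c // k ≠ j}) O) :=
    Ideal.span {lagr F j} ⊔ Ideal.span (Set.range fun a => pderiv a (lagr F j)) with hI
  have hL : lagr F j ∈ I := Ideal.mem_sup_left (Ideal.subset_span rfl)
  have hP : ∀ a, pderiv a (lagr F j) ∈ I := fun a =>
    Ideal.mem_sup_right (Ideal.subset_span ⟨a, rfl⟩)
  have hF1 : ∀ k : {k : Fin c // k ≠ j}, rename Sum.inl (F k.1) ∈ I := by
    intro k
    rw [← pd_inr_lagr F j k]
    exact hP _
  have hF : ∀ k : Fin c, rename Sum.inl (F k) ∈ I := by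
    intro k
    by_cases hk : k = j
    · subst hk
      have h1 : rename Sum.inl (F k) = lagr F k -
          ∑ m : {m : Fin c // m ≠ k}, X (Sum.inr m) * rename Sum.inl (F m.1) := by
        rw [lagr]; ring
      rw [h1]
      exact Ideal.sub_mem _ hL (Ideal.sum_mem _ fun m _ => Ideal.mul_mem_left _ _ (hF1 m))
    · exact hF1 ⟨k, hk⟩
  have hM : ∀ s, rename Sum.inl (minor F s) ∈ I := by
    intro s
    have h1 : rename (Sum.inl : σ → σ ⊕ {k : Fin c // k ≠ j}) (minor F s) =
        (Matrix.of fun k b : Fin c =>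
          rename (Sum.inl : σ → σ ⊕ {k : Fin c // k ≠ j}) (pderiv (s b) (F k))).det := by
      rw [minor, AlgHom.map_det]
      rfl
    rw [h1]
    refine t10_det_mem I _ j (fun k => if h : k = j then 1 else X (Sum.inr ⟨k, h⟩)) (by simp) ?_
    intro b
    have h2 : ∑ k, (if h : k = j then (1 : MvPolynomial (σ ⊕ {k : Fin c // k ≠ j}) O)
        else X (Sum.inr ⟨k, h⟩)) *
        (Matrix.of fun k b : Fin c =>
          rename (Sum.inl : σ → σ ⊕ {k : Fin c // k ≠ j}) (pderiv (s b) (F k))) k b =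
        pderiv (Sum.inl (s b)) (lagr F j) := by
      rw [pd_inl_lagr, sum_ne j]
      simp only [dite_true, one_mul, Matrix.of_apply]
      congr 1
      refine Finset.sum_congr rfl fun k _ => ?_
      rw [dif_neg k.2]
    rw [h2]
    exact hP _
  have h3 : Ideal.span (Set.range F ∪ Set.range (minor F)) ≤
      Ideal.comap (rename (R := O) (Sum.inl : σ → σ ⊕ {k : Fin c // k ≠ j})) I := by
    rw [Ideal.span_le]
    rintro z (⟨k, rfl⟩ | ⟨s, rfl⟩)
    · exact hF k
    · exact hM s
  have h4 : rename Sum.inl x ∈ I := h3 hx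
  rw [hI, Submodule.mem_sup] at h4
  obtain ⟨u, hu, v, hv, huv⟩ := h4
  obtain ⟨c₀, hc₀⟩ := Ideal.mem_span_singleton'.mp hu
  obtain ⟨e, he⟩ := (Submodule.mem_span_range_iff_exists_fun _).mp hv
  refine ⟨c₀, e, ?_⟩
  rw [← huv, hc₀, ← he]
  simp only [smul_eq_mul]

end Pool.Agent.Lib.MP_6a3dac_ag.Sys
end

section

/-!
# Lagrange multipliers at a singular point
-/
end
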