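import Pool.Agent.Lib.MP_6a3dac_ag.QWTensor
import Pool.Agent.Lib.MP_6a3dac_ag.QWWeilInv
import Pool.Agent.Lib.MP_6a3dac_ag.Mg.G003
import Pool.Agent.Lib.MP_6a3dac_ag.Mg.G072
import Pool.Agent.Lib.MP_6a3dac_ag.Bert.Defs
import Pool.Agent.Lib.MP_6a3dac_ag.Mg.G013

section

/-!
# The affine charts of a projective scheme
-/

set_option autoImplicit false
set_option linter.unusedSectionVars false
set_option linter.unusedVariables false

namespace Pool.Agent.Lib.MP_6a3dac_ag.PC

open CategoryTheory Limits AlgebraicGeometry HomogeneousLocalization MvPolynomial TensorProduct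

attribute [local instance] MvPolynomial.gradedAlgebra

section Scaling

variable {O T : Type} [CommRing O] [CommRing T] {n : ℕ}

theorem eval₂_smul_of_isHomogeneous (f : O →+* T) (u : T) (y : Fin n → T)
    {P : MvPolynomial (Fin n) O} {d : ℕ} (hP : P.IsHomogeneous d) :
    eval₂ f (fun k => u * y k) P = u ^ d * eval₂ f y P := by
  rw [eval₂_eq', eval₂_eq', Finset.mul_sum]
  refine Finset.sum_congr rfl fun m hm => ?_
  have h1 : ∑ i, m i = d := by
    have := hP (mem_support_iff.mp hm)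
    rw [Finsupp.weight_apply, Finsupp.sum_fintype _ _ (fun _ => by simp)] at this
    simpa using this
  simp only [mul_pow]
  rw [Finset.prod_mul_distrib, Finset.prod_pow_eq_pow_sum, h1]
  ring

end Scaling

section Chart

variable {O : Type} [CommRing O] {n : ℕ} (𝔞 : HomogeneousIdeal (homogeneousSubmodule (Fin n) O))

/-- The class of the coordinate `x_a`. -/
noncomputable def sCl (a : Fin n) : CoordQuot 𝔞 := Ideal.Quotient.mk _ (X a)

theorem sCl_mem (a : Fin n) : sCl 𝔞 a ∈ coordGr 𝔞 1 :=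
  ⟨X a, isHomogeneous_X _ _, rfl⟩

/-- The coordinate ring of the chart `x_a ≠ 0`. -/
def ChartRing (a : Fin n) : Type := Away (coordGr 𝔞) (sCl 𝔞 a)

noncomputable instance (a : Fin n) : CommRing (ChartRing 𝔞 a) :=
  inferInstanceAs (CommRing (Away (coordGr 𝔞) (sCl 𝔞 a)))

noncomputable instance (a : Fin n) : Algebra O (ChartRing 𝔞 a) :=
  (baseToAway (coordGr 𝔞) (sCl 𝔞 a)).toAlgebra

/-- The injection of the chart ring in the localization. -/
noncomputable def chartVal (a : Fin n) : ChartRing 𝔞 a →+* Localization.Away (sCl 𝔞 a) :=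
  algebraMap (Away (coordGr 𝔞) (sCl 𝔞 a)) (Localization.Away (sCl 𝔞 a))

theorem chartVal_injective (a : Fin n) : Function.Injective (chartVal 𝔞 a) :=
  HomogeneousLocalization.val_injective _

theorem chartVal_algebraMap (a : Fin n) (c : O) :
    chartVal 𝔞 a (algebraMap O (ChartRing 𝔞 a) c) =
      algebraMap (CoordQuot 𝔞) (Localization.Away (sCl 𝔞 a)) (algebraMap O (CoordQuot 𝔞) c) :=
  val_baseToAway _ _ _

/-- The coordinates `x_k / x_a`. -/
noncomputable def chartX (a k : Fin n) : ChartRing 𝔞 a :=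
  Away.mk (coordGr 𝔞) (sCl_mem 𝔞 a) 1 (sCl 𝔞 k) (by rw [one_smul]; exact sCl_mem 𝔞 k)

/-- The element `x_a` as a denominator. -/
noncomputable def denS (a : Fin n) : Submonoid.powers (sCl 𝔞 a) := ⟨sCl 𝔞 a ^ 1, ⟨1, rfl⟩⟩

theorem chartVal_chartX (a k : Fin n) : chartVal 𝔞 a (chartX 𝔞 a k) =
    Localization.mk (sCl 𝔞 k) (denS 𝔞 a) := Away.val_mk _ _ (sCl_mem 𝔞 a) _ _

/-- The inverse of `x_a`. -/
noncomputable def invS (a : Fin n) : Localization.Away (sCl 𝔞 a) :=
  Localization.mk 1 (denS 𝔞 a)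

theorem invS_mul (a : Fin n) :
    invS 𝔞 a * algebraMap (CoordQuot 𝔞) (Localization.Away (sCl 𝔞 a)) (sCl 𝔞 a) = 1 := by
  rw [invS, ← Localization.mk_one_eq_algebraMap, Localization.mk_mul]
  have h : (1 : CoordQuot 𝔞) * sCl 𝔞 a = ((denS 𝔞 a * 1 : Submonoid.powers (sCl 𝔞 a)) :
      CoordQuot 𝔞) := by
    simp [denS]
  rw [h]
  exact Localization.mk_self _

theorem chartVal_chartX' (a k : Fin n) : chartVal 𝔞 a (chartX 𝔞 a k) =
    invS 𝔞 a * algebraMap (CoordQuot 𝔞) (Localization.Away (sCl 𝔞 a)) (sCl 𝔞 k) := by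
  rw [chartVal_chartX, invS, ← Localization.mk_one_eq_algebraMap, Localization.mk_mul, one_mul,
    mul_one]

theorem chartX_self (a : Fin n) : chartX 𝔞 a a = 1 := by
  apply chartVal_injective
  rw [chartVal_chartX', invS_mul, map_one]

theorem mk_eq_eval₂ (P : MvPolynomial (Fin n) O) :
    Ideal.Quotient.mk 𝔞.toIdeal P = eval₂ (algebraMap O (CoordQuot 𝔞)) (sCl 𝔞) P := by
  induction P using MvPolynomial.induction_on with
  | C c =>
    rw [eval₂_C]
    rfl
  | add P Q hP hQ => rw [map_add, hP, hQ, eval₂_add]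
  | mul_X P i hP =>
    rw [map_mul, hP, eval₂_mul, eval₂_X]
    rfl

/-- Evaluation of a homogeneous polynomial at the affine coordinates. -/
theorem chartVal_aeval (a : Fin n) {P : MvPolynomial (Fin n) O} {d : ℕ} (hP : P.IsHomogeneous d) :
    chartVal 𝔞 a (aeval (chartX 𝔞 a) P) = invS 𝔞 a ^ d *
      algebraMap (CoordQuot 𝔞) (Localization.Away (sCl 𝔞 a)) (Ideal.Quotient.mk _ P) := by
  rw [aeval_def, eval₂_comp_left, mk_eq_eval₂, eval₂_comp_left,
    ← eval₂_smul_of_isHomogeneous _ _ _ hP]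
  have h1 : (chartVal 𝔞 a).comp (algebraMap O (ChartRing 𝔞 a)) =
      (algebraMap (CoordQuot 𝔞) (Localization.Away (sCl 𝔞 a))).comp
        (algebraMap O (CoordQuot 𝔞)) := RingHom.ext fun c => chartVal_algebraMap 𝔞 a c
  rw [h1]
  congr 1
  funext k
  exact chartVal_chartX' 𝔞 a k

/-- The relations between the affine coordinates. -/
theorem aeval_chartX (a : Fin n) {f : MvPolynomial (Fin n) O} (hf : f ∈ 𝔞.toIdeal) :
    aeval (chartX 𝔞 a) f = 0 := by
  classical
  rw [← DirectSum.sum_support_decompose (homogeneousSubmodule (Fin n) O) f, map_sum]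
  refine Finset.sum_eq_zero fun i _ => ?_
  apply chartVal_injective
  rw [chartVal_aeval 𝔞 a (DirectSum.decompose (homogeneousSubmodule (Fin n) O) f i).2]
  have h1 : Ideal.Quotient.mk 𝔞.toIdeal
      (DirectSum.decompose (homogeneousSubmodule (Fin n) O) f i : MvPolynomial (Fin n) O) = 0 := by
    rw [Ideal.Quotient.eq_zero_iff_mem]
    exact 𝔞.isHomogeneous i hf
  rw [h1, map_zero, mul_zero, map_zero]

/-- The affine coordinates generate. -/
theorem adjoin_chartX (a : Fin n) : Algebra.adjoin O (Set.range (chartX 𝔞 a)) = ⊤ := by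
  rw [eq_top_iff]
  rintro z -
  obtain ⟨k, f, hf, hz⟩ := Away.mk_surjective (coordGr 𝔞) (sCl_mem 𝔞 a) z
  have hf' := hf
  obtain ⟨P, hP, hPf⟩ := hf'
  have h1 : z = aeval (chartX 𝔞 a) P := by
    apply chartVal_injective
    rw [chartVal_aeval 𝔞 a hP]
    have h2 : chartVal 𝔞 a z = Localization.mk f
        (⟨sCl 𝔞 a ^ k, ⟨k, rfl⟩⟩ : Submonoid.powers (sCl 𝔞 a)) := by
      rw [← hz]
      exact Away.val_mk _ _ (sCl_mem 𝔞 a) _ _
    have h3 : Ideal.Quotient.mk 𝔞.toIdeal P = f := hPf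
    rw [h2, h3, invS, Localization.mk_pow, ← Localization.mk_one_eq_algebraMap,
      Localization.mk_mul, Localization.mk_eq_mk_iff, Localization.r_iff_exists]
    refine ⟨1, ?_⟩
    simp [denS]
  rw [h1, Algebra.adjoin_range_eq_range_aeval]
  exact ⟨P, rfl⟩

/-- The charts of a flat scheme are flat. -/
theorem flat_chartRing (a : Fin n) (hfl : Flat (projTo O (coordGr 𝔞))) :
    Module.Flat O (ChartRing 𝔞 a) := by
  have h1 : Flat (Proj.awayι (coordGr 𝔞) (sCl 𝔞 a) (sCl_mem 𝔞 a) one_pos ≫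
    projTo O (coordGr 𝔞)) := inferInstance
  rw [awayι_projTo, Flat.SpecMap_iff] at h1
  exact h1

/-- The charts of a regular scheme are regular. -/
theorem isRegularRing_chartRing [IsNoetherianRing O] (a : Fin n)
    (hreg : ∀ y : ProjectiveSpectrum (coordGr 𝔞),
      IsRegularLocalRing ((Proj (coordGr 𝔞)).presheaf.stalk y)) :
    IsRegularRing (ChartRing 𝔞 a) := by
  have hft : Algebra.FiniteType O (ChartRing 𝔞 a) := by
    refine ⟨⟨(Set.finite_range (chartX 𝔞 a)).toFinset, ?_⟩⟩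
    rw [Set.Finite.coe_toFinset]
    exact adjoin_chartX 𝔞 a
  have hN : IsNoetherianRing (ChartRing 𝔞 a) := Algebra.FiniteType.isNoetherianRing O _
  rw [isRegularRing_iff]
  intro q hq
  let f := Proj.awayι (coordGr 𝔞) (sCl 𝔞 a) (sCl_mem 𝔞 a) one_pos
  let x : Spec (CommRingCat.of (Away (coordGr 𝔞) (sCl 𝔞 a))) := ⟨q, hq⟩
  have h1 := hreg (f x)
  have h2 : IsIso (f.stalkMap x) := inferInstance
  have h3 : IsRegularLocalRing
      ((Spec (CommRingCat.of (Away (coordGr 𝔞) (sCl 𝔞 a)))).presheaf.stalk x) :=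
    IsRegularLocalRing.of_ringEquiv (asIso (f.stalkMap x)).commRingCatIsoToRingEquiv
  exact IsRegularLocalRing.of_ringEquiv
    (Spec.stalkIso (CommRingCat.of (Away (coordGr 𝔞) (sCl 𝔞 a))) x).commRingCatIsoToRingEquiv

/-- The charts of a smooth scheme are smooth. -/
theorem smooth_chartRing (O' : Type) [CommRing O'] [Algebra O O'] (a : Fin n)
    (hsm : Smooth (pullback.snd (projTo O (coordGr 𝔞))
      (Spec.map (CommRingCat.ofHom (algebraMap O O'))))) :
    Algebra.Smooth O' (O' ⊗[O] (ChartRing 𝔞 a)) := by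
  let f := Proj.awayι (coordGr 𝔞) (sCl 𝔞 a) (sCl_mem 𝔞 a) one_pos
  have h1 : Smooth (pullback.snd (f ≫ projTo O (coordGr 𝔞))
      (Spec.map (CommRingCat.ofHom (algebraMap O O')))) := by
    have h2 : pullback.snd (f ≫ projTo O (coordGr 𝔞))
        (Spec.map (CommRingCat.ofHom (algebraMap O O'))) =
        (pullbackRightPullbackFstIso (projTo O (coordGr 𝔞))
          (Spec.map (CommRingCat.ofHom (algebraMap O O'))) f).inv ≫
        pullback.snd f (pullback.fst _ _) ≫ pullback.snd _ _ := by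
      rw [pullbackRightPullbackFstIso_inv_snd_snd]
    rw [h2]
    infer_instance
  have h2 : f ≫ projTo O (coordGr 𝔞) =
      Spec.map (CommRingCat.ofHom (algebraMap O (ChartRing 𝔞 a))) :=
    awayι_projTo _ _ _ _
  rw [h2] at h1
  have h1' : Smooth (pullback.snd (Spec.map (CommRingCat.ofHom (algebraMap O (ChartRing 𝔞 a))))
      (Spec.map (CommRingCat.ofHom (algebraMap O O')))) := h1
  have h3 : Smooth ((pullbackSpecIso O (ChartRing 𝔞 a) O').inv ≫ pullback.snd _ _) :=
    inferInstance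
  rw [pullbackSpecIso_inv_snd, HasRingHomProperty.Spec_iff (P := @Smooth)] at h3
  have h4 := RingHom.Smooth.respectsIso.1 _
    (Algebra.TensorProduct.comm O (ChartRing 𝔞 a) O').toRingEquiv h3
  rw [← RingHom.smooth_algebraMap]
  exact h4

end Chart

end Pool.Agent.Lib.MP_6a3dac_ag.PC
end

section

/-!
# The coordinate rings of the charts of a projective scheme
-/

set_option autoImplicit false

namespace Pool.Agent.Lib.MP_6a3dac_ag.Bert

open MvPolynomial
open Pool.Agent.Lib.MP_6a3dac_ag.DNF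
open Pool.Agent.Lib.MP_6a3dac_ag.PC

section Dehom

variable {k : Type} [CommRing k] {n : ℕ} {i : Fin (n + 1)}

theorem a1_dehom_monomial (m : Fin (n + 1) →₀ ℕ) (a : k) :
    dehom i (monomial m a) = monomial (m.subtypeDomain (fun l => l ≠ i)) a := by
  classical
  have h1 : (monomial m a : MvPolynomial (Fin (n + 1)) k) = C a * ∏ l, X l ^ m l := by
    rw [monomial_eq, Finsupp.prod_fintype _ _ (fun l => pow_zero _)]
  have h2 : (monomial (m.subtypeDomain (fun l => l ≠ i)) a :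
      MvPolynomial {l : Fin (n + 1) // l ≠ i} k) =
      C a * ∏ l : {l : Fin (n + 1) // l ≠ i}, X l ^ m l.1 := by
    rw [monomial_eq, Finsupp.prod_fintype _ _ (fun l => pow_zero _)]
    rfl
  rw [h1, h2, map_mul, dehom_C, map_prod, ← Finset.mul_prod_erase _ _ (Finset.mem_univ i)]
  rw [map_pow, dehom_X_self, one_pow, one_mul]
  rw [Finset.prod_subtype (Finset.univ.erase i) (p := fun l => l ≠ i) (by simp)]
  congr 1
  refine Finset.prod_congr rfl fun l _ => ?_
  rw [map_pow, dehom_X]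

theorem a1_degree (m : Fin (n + 1) →₀ ℕ) :
    m.degree = m i + ∑ l : {l : Fin (n + 1) // l ≠ i}, m l.1 := by
  classical
  rw [Finsupp.degree_eq_sum, ← Finset.add_sum_erase _ _ (Finset.mem_univ i)]
  congr 1
  rw [Finset.sum_subtype (Finset.univ.erase i) (p := fun l => l ≠ i) (by simp)]

/-- A homogeneous polynomial with trivial dehomogenization is zero. -/
theorem eq_zero_of_dehom {f : MvPolynomial (Fin (n + 1)) k} {e : ℕ}
    (hf : f.IsHomogeneous e) (h : dehom i f = 0) : f = 0 := by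
  classical
  ext m
  rw [coeff_zero]
  by_contra hm
  have h1 : coeff (m.subtypeDomain (fun l => l ≠ i)) (dehom i f) = 0 := by rw [h, coeff_zero]
  rw [as_sum f, map_sum, coeff_sum, Finset.sum_eq_single m] at h1
  · rw [a1_dehom_monomial, coeff_monomial, if_pos rfl] at h1
    exact hm h1
  · intro m' hm' hne
    rw [a1_dehom_monomial, coeff_monomial, if_neg]
    intro h2
    apply hne
    have h3 : ∀ l, l ≠ i → m' l = m l := fun l hl => DFunLike.congr_fun h2 ⟨l, hl⟩
    have hd1 : m'.degree = e := by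
      rw [Finsupp.degree_eq_weight_one]
      exact hf (mem_support_iff.mp hm')
    have hd2 : m.degree = e := by
      rw [Finsupp.degree_eq_weight_one]
      exact hf hm
    ext l
    by_cases hl : l = i
    · subst hl
      rw [a1_degree (i := l)] at hd1 hd2
      have h4 : ∑ j : {j : Fin (n + 1) // j ≠ l}, m' j.1 = ∑ j : {j : Fin (n + 1) // j ≠ l}, m j.1 :=
        Finset.sum_congr rfl fun j _ => h3 j.1 j.2
      omega
    · exact h3 l hl
  · intro h2
    rw [notMem_support_iff] at h2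
    exact absurd h2 hm

theorem a1_homogenize (𝔞 : HomIdeal k (n + 1)) {g : MvPolynomial (Fin (n + 1)) k}
    (hg : g ∈ 𝔞.ideal) : ∃ e, ∃ f ∈ 𝔞.ideal, f.IsHomogeneous e ∧ dehom i f = dehom i g := by
  refine ⟨g.totalDegree, ∑ j ∈ Finset.range (g.totalDegree + 1),
    X i ^ (g.totalDegree - j) * homogeneousComponent j g, ?_, ?_, ?_⟩
  · exact Ideal.sum_mem _ fun j _ => Ideal.mul_mem_left _ _ (𝔞.homog g hg j)
  · refine IsHomogeneous.sum _ _ _ fun j hj => ?_
    have h1 := (isHomogeneous_X_pow (R := k) i (g.totalDegree - j)).mul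
      (homogeneousComponent_isHomogeneous j g)
    have h2 : g.totalDegree - j + j = g.totalDegree := by
      have := Finset.mem_range.mp hj
      omega
    rwa [h2] at h1
  · conv_rhs => rw [← sum_homogeneousComponent g]
    rw [map_sum, map_sum]
    refine Finset.sum_congr rfl fun j _ => ?_
    rw [map_mul, map_pow, dehom_X_self, one_pow, one_mul]

theorem a1_mem_dId (𝔞 : HomIdeal k (n + 1)) {q : MvPolynomial {l : Fin (n + 1) // l ≠ i} k}
    (hq : q ∈ dId 𝔞 i) : ∃ e, ∃ f ∈ 𝔞.ideal, f.IsHomogeneous e ∧ dehom i f = q := by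
  rw [dId, Ideal.map] at hq
  induction hq using Submodule.span_induction with
  | mem x hx =>
    obtain ⟨g, hg, rfl⟩ := hx
    exact a1_homogenize 𝔞 hg
  | zero => exact ⟨0, 0, 𝔞.ideal.zero_mem, isHomogeneous_zero _ _ _, map_zero _⟩
  | add x y _ _ hx hy =>
    obtain ⟨e, f, hf, hfe, rfl⟩ := hx
    obtain ⟨e', f', hf', hfe', rfl⟩ := hy
    refine ⟨e + e', X i ^ e' * f + X i ^ e * f', Ideal.add_mem _ (Ideal.mul_mem_left _ _ hf)
      (Ideal.mul_mem_left _ _ hf'), ?_, ?_⟩
    · refine IsHomogeneous.add ?_ ((isHomogeneous_X_pow (R := k) i e).mul hfe')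
      rw [add_comm e e']
      exact (isHomogeneous_X_pow (R := k) i e').mul hfe
    · simp only [map_add, map_mul, map_pow, dehom_X_self, one_pow, one_mul]
  | smul a x _ hx =>
    obtain ⟨e, f, hf, hfe, rfl⟩ := hx
    obtain ⟨e', g, hg, rfl⟩ := exists_homog i a
    exact ⟨e' + e, g * f, Ideal.mul_mem_left _ _ hf, hg.mul hfe, by rw [map_mul, smul_eq_mul]⟩

/-- A homogeneous polynomial whose dehomogenization lies in the dehomogenization of a homogeneous
ideal lies in this ideal after multiplication with a power of the variable. -/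
theorem exists_pow_mul_mem (𝔞 : HomIdeal k (n + 1)) {f : MvPolynomial (Fin (n + 1)) k} {e : ℕ}
    (hf : f.IsHomogeneous e) (h : dehom i f ∈ dId 𝔞 i) : ∃ N, X i ^ N * f ∈ 𝔞.ideal := by
  obtain ⟨e', g, hg, hge, h1⟩ := a1_mem_dId 𝔞 h
  refine ⟨e', ?_⟩
  have h2 : X i ^ e' * f - X i ^ e * g = 0 := by
    apply eq_zero_of_dehom (i := i) (e := e' + e)
    · refine IsHomogeneous.sub ((isHomogeneous_X_pow (R := k) i e').mul hf) ?_
      rw [add_comm e' e]
      exact (isHomogeneous_X_pow (R := k) i e).mul hge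
    · simp only [map_sub, map_mul, map_pow, dehom_X_self, one_pow, one_mul, h1, sub_self]
  rw [sub_eq_zero.mp h2]
  exact Ideal.mul_mem_left _ _ hg

theorem dehom_mem_dId (𝔞 : HomIdeal k (n + 1)) {f : MvPolynomial (Fin (n + 1)) k}
    (hf : f ∈ 𝔞.ideal) : dehom i f ∈ dId 𝔞 i := Ideal.mem_map_of_mem _ hf

/-- The elements of the dehomogenization of a homogeneous ideal. -/
theorem mem_dId_iff (𝔞 : HomIdeal k (n + 1)) {q : MvPolynomial {l : Fin (n + 1) // l ≠ i} k} :
    q ∈ dId 𝔞 i ↔ ∃ e, ∃ f ∈ 𝔞.ideal, f.IsHomogeneous e ∧ dehom i f = q := by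
  constructor
  · exact a1_mem_dId 𝔞
  · rintro ⟨e, f, hf, -, rfl⟩
    exact dehom_mem_dId 𝔞 hf

theorem dehom_mem_iff (𝔭 : HomIdeal k (n + 1)) (h𝔭 : 𝔭.ideal.IsPrime) (hi : X i ∉ 𝔭.ideal)
    {f : MvPolynomial (Fin (n + 1)) k} {e : ℕ} (hf : f.IsHomogeneous e) :
    dehom i f ∈ dId 𝔭 i ↔ f ∈ 𝔭.ideal := by
  refine ⟨fun h => ?_, fun h => dehom_mem_dId 𝔭 h⟩
  obtain ⟨N, hN⟩ := exists_pow_mul_mem 𝔭 hf h
  rcases h𝔭.mem_or_mem hN with h1 | h1
  · exact absurd (h𝔭.mem_of_pow_mem N h1) hi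
  · exact h1

theorem isPrime_dId (𝔭 : HomIdeal k (n + 1)) (h𝔭 : 𝔭.ideal.IsPrime) (hi : X i ∉ 𝔭.ideal) :
    (dId 𝔭 i).IsPrime := by
  refine ⟨fun h => ?_, fun {q q'} h => ?_⟩
  · have h1 : dehom i (1 : MvPolynomial (Fin (n + 1)) k) ∈ dId 𝔭 i := by
      rw [h]
      exact Submodule.mem_top
    rw [dehom_mem_iff 𝔭 h𝔭 hi (isHomogeneous_one _ _)] at h1
    exact h𝔭.ne_top ((Ideal.eq_top_iff_one _).mpr h1)
  · obtain ⟨N, G, hG, rfl⟩ := exists_homog i q
    obtain ⟨N', G', hG', rfl⟩ := exists_homog i q'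
    rw [← map_mul, dehom_mem_iff 𝔭 h𝔭 hi (hG.mul hG')] at h
    rw [dehom_mem_iff 𝔭 h𝔭 hi hG, dehom_mem_iff 𝔭 h𝔭 hi hG']
    exact h𝔭.mem_or_mem h

theorem dId_mono {𝔞 𝔟 : HomIdeal k (n + 1)} (h : 𝔞.ideal ≤ 𝔟.ideal) : dId 𝔞 i ≤ dId 𝔟 i :=
  Ideal.map_mono h

end Dehom

section Chi

variable {k : Type} [CommRing k] {n : ℕ} (𝔞 : HomIdeal k (n + 1)) (i : Fin (n + 1))

/-- The presentation of the coordinate ring of a chart. -/
noncomputable def chi : MvPolynomial {l : Fin (n + 1) // l ≠ i} k →ₐ[k]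
    ChartRing 𝔞.toHom i :=
  aeval fun l => chartX 𝔞.toHom i l.1

theorem chi_dehom (f : MvPolynomial (Fin (n + 1)) k) :
    chi 𝔞 i (dehom i f) = aeval (chartX 𝔞.toHom i) f := by
  have key : (chi 𝔞 i).comp (dehom i) = aeval (chartX 𝔞.toHom i) := by
    apply MvPolynomial.algHom_ext
    intro l
    rw [AlgHom.comp_apply, aeval_X]
    by_cases hl : l = i
    · subst hl
      rw [dehom_X_self, map_one, chartX_self]
    · have h1 : dehom i (X l : MvPolynomial (Fin (n + 1)) k) = X ⟨l, hl⟩ := dehom_X i ⟨l, hl⟩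
      rw [h1, chi, aeval_X]
  exact congrArg (fun φ : MvPolynomial (Fin (n + 1)) k →ₐ[k] ChartRing 𝔞.toHom i => φ f) key

theorem chi_surjective : Function.Surjective (chi 𝔞 i) := by
  rw [← AlgHom.range_eq_top, eq_top_iff, ← adjoin_chartX 𝔞.toHom i]
  refine Algebra.adjoin_le ?_
  rintro _ ⟨l, rfl⟩
  refine ⟨dehom i (X l), ?_⟩
  change chi 𝔞 i (dehom i (X l)) = _
  rw [chi_dehom, aeval_X]

theorem chi_eq_zero_iff (q : MvPolynomial {l : Fin (n + 1) // l ≠ i} k) :
    chi 𝔞 i q = 0 ↔ q ∈ dId 𝔞 i := by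
  constructor
  · intro h
    obtain ⟨N, f, hf, rfl⟩ := exists_homog i q
    rw [chi_dehom] at h
    have h1 := chartVal_aeval 𝔞.toHom i hf
    rw [h, map_zero] at h1
    have h2 : algebraMap (CoordQuot 𝔞.toHom) (Localization.Away (sCl 𝔞.toHom i))
        (Ideal.Quotient.mk _ f) = 0 := by
      have h3 := congrArg (fun z => algebraMap (CoordQuot 𝔞.toHom)
        (Localization.Away (sCl 𝔞.toHom i)) (sCl 𝔞.toHom i) ^ N * z) h1
      simp only [mul_zero] at h3
      rw [← mul_assoc, ← mul_pow, mul_comm (algebraMap _ _ (sCl 𝔞.toHom i)), invS_mul, one_pow,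
        one_mul] at h3
      exact h3.symm
    rw [IsLocalization.map_eq_zero_iff (Submonoid.powers (sCl 𝔞.toHom i))] at h2
    obtain ⟨⟨_, M, rfl⟩, hM⟩ := h2
    have h4 : X i ^ M * f ∈ 𝔞.ideal := by
      have h5 : Ideal.Quotient.mk 𝔞.ideal (X i ^ M * f) = 0 := by
        rw [map_mul, map_pow]
        exact hM
      exact Ideal.Quotient.eq_zero_iff_mem.1 h5
    have h6 := dehom_mem_dId (i := i) 𝔞 h4
    rwa [map_mul, map_pow, dehom_X_self, one_pow, one_mul] at h6
  · intro h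
    obtain ⟨e, f, hf, -, rfl⟩ := (mem_dId_iff 𝔞).1 h
    rw [chi_dehom]
    exact aeval_chartX 𝔞.toHom i hf

end Chi

end Pool.Agent.Lib.MP_6a3dac_ag.Bert
end

section

/-!
# Minimal primes of homogeneous ideals
-/

set_option autoImplicit false

namespace Pool.Agent.Lib.MP_6a3dac_ag.Bert

open MvPolynomial
open Pool.Agent.Lib.MP_6a3dac_ag.DNF

variable {k : Type} [CommRing k] {n : ℕ} (J : HomIdeal k (n + 1))

/-- The homogeneous core of a prime ideal. -/
theorem m1_exists_core (𝔭 : Ideal (MvPolynomial (Fin (n + 1)) k)) (h𝔭 : 𝔭.IsPrime) :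
    ∃ p : HomIdeal k (n + 1), p.ideal.IsPrime ∧ p.ideal ≤ 𝔭 ∧
      ∀ f e, f.IsHomogeneous e → f ∈ 𝔭 → f ∈ p.ideal := by
  let _ := MvPolynomial.gradedAlgebra (σ := Fin (n + 1)) (R := k)
  let c := 𝔭.homogeneousCore (homogeneousSubmodule (Fin (n + 1)) k)
  refine ⟨⟨c.toIdeal, ?_⟩, h𝔭.homogeneousCore, Ideal.toIdeal_homogeneousCore_le _ _, ?_⟩
  · intro f hf i
    have h2 := c.isHomogeneous i hf
    rwa [show DirectSum.decompose (homogeneousSubmodule (Fin (n + 1)) k) f i =
      MvPolynomial.decomposition.decompose' f i from rfl,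
      MvPolynomial.decomposition.decompose'_apply] at h2
  · intro f e hf hfp
    exact Ideal.mem_homogeneousCore_of_homogeneous_of_mem ⟨e, hf⟩ hfp

theorem m1_le {J : HomIdeal k (n + 1)} {𝔟 : Ideal (MvPolynomial (Fin (n + 1)) k)}
    (h : ∀ f e, f.IsHomogeneous e → f ∈ J.ideal → f ∈ 𝔟) : J.ideal ≤ 𝔟 := by
  intro f hf
  rw [← sum_homogeneousComponent f]
  exact Ideal.sum_mem _ fun j _ => h _ j (homogeneousComponent_isHomogeneous j f) (J.homog f hf j)

/-- The minimal primes of a homogeneous ideal are homogeneous. -/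
theorem exists_homIdeal_of_minimal {𝔭 : Ideal (MvPolynomial (Fin (n + 1)) k)}
    (h : 𝔭 ∈ J.ideal.minimalPrimes) : ∃ p : HomIdeal k (n + 1), p.ideal = 𝔭 := by
  obtain ⟨p, hp1, hp2, hp3⟩ := m1_exists_core 𝔭 h.1.1
  refine ⟨p, le_antisymm hp2 (h.2 ⟨hp1, ?_⟩ hp2)⟩
  exact m1_le fun f e hf hfJ => hp3 f e hf (h.1.2 hfJ)

/-- The homogeneous core of a prime ideal. -/
theorem m2_exists_core (𝔭 : Ideal (MvPolynomial (Fin (n + 1)) k)) (h𝔭 : 𝔭.IsPrime) :
    ∃ p : HomIdeal k (n + 1), p.ideal.IsPrime ∧ p.ideal ≤ 𝔭 ∧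
      ∀ f e, f.IsHomogeneous e → f ∈ 𝔭 → f ∈ p.ideal := by
  let _ := MvPolynomial.gradedAlgebra (σ := Fin (n + 1)) (R := k)
  let c := 𝔭.homogeneousCore (homogeneousSubmodule (Fin (n + 1)) k)
  refine ⟨⟨c.toIdeal, ?_⟩, h𝔭.homogeneousCore, Ideal.toIdeal_homogeneousCore_le _ _, ?_⟩
  · intro f hf i
    have h2 := c.isHomogeneous i hf
    rwa [show DirectSum.decompose (homogeneousSubmodule (Fin (n + 1)) k) f i =
      MvPolynomial.decomposition.decompose' f i from rfl,
      MvPolynomial.decomposition.decompose'_apply] at h2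
  · intro f e hf hfp
    exact Ideal.mem_homogeneousCore_of_homogeneous_of_mem ⟨e, hf⟩ hfp

theorem m2_le {J : HomIdeal k (n + 1)} {𝔟 : Ideal (MvPolynomial (Fin (n + 1)) k)}
    (h : ∀ f e, f.IsHomogeneous e → f ∈ J.ideal → f ∈ 𝔟) : J.ideal ≤ 𝔟 := by
  intro f hf
  rw [← sum_homogeneousComponent f]
  exact Ideal.sum_mem _ fun j _ => h _ j (homogeneousComponent_isHomogeneous j f) (J.homog f hf j)

/-- The dehomogenization of a minimal prime. -/
theorem dId_mem_minimalPrimes (p : HomIdeal k (n + 1)) (h : p.ideal ∈ J.ideal.minimalPrimes)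
    {i : Fin (n + 1)} (hi : X i ∉ p.ideal) : dId p i ∈ (dId J i).minimalPrimes := by
  refine ⟨⟨isPrime_dId p h.1.1 hi, dId_mono h.1.2⟩, ?_⟩
  rintro 𝔮' ⟨h1, h2⟩ h3
  obtain ⟨r, hr1, hr2, hr3⟩ := m2_exists_core (Ideal.comap (dehom i) 𝔮') (Ideal.IsPrime.comap _)
  have h4 : J.ideal ≤ r.ideal := m2_le fun f e hf hfJ =>
    hr3 f e hf (h2 (dehom_mem_dId J hfJ))
  have h5 : r.ideal ≤ p.ideal := m2_le fun f e hf hfr =>
    (dehom_mem_iff p h.1.1 hi hf).1 (h3 (hr2 hfr))
  have h6 := h.2 ⟨hr1, h4⟩ h5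
  exact Ideal.map_le_iff_le_comap.2 (h6.trans hr2)

/-- Minimal primes with a common point are equal. -/
theorem eq_of_minimal (hLD : ∀ i, LocDom (dId J i)) (p p' q : HomIdeal k (n + 1))
    (h : p.ideal ∈ J.ideal.minimalPrimes) (h' : p'.ideal ∈ J.ideal.minimalPrimes)
    (hq : q.ideal.IsPrime) {i : Fin (n + 1)} (hi : X i ∉ q.ideal) (hpq : p.ideal ≤ q.ideal)
    (hpq' : p'.ideal ≤ q.ideal) : p.ideal = p'.ideal := by
  have hip : X i ∉ p.ideal := fun hx => hi (hpq hx)
  have hip' : X i ∉ p'.ideal := fun hx => hi (hpq' hx)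
  have hle : p.ideal ≤ p'.ideal := by
    intro f hf
    rw [← sum_homogeneousComponent f]
    refine Ideal.sum_mem _ fun j _ => ?_
    have hj := homogeneousComponent_isHomogeneous j f
    obtain ⟨z, hz, hzx⟩ := (hLD i).exists_mul_mem (dId_mem_minimalPrimes J p h hip)
      (isPrime_dId q hq hi) (dId_mono hpq) (dehom_mem_dId p (p.homog f hf j))
    have h1 := isPrime_dId p' h'.1.1 hip'
    rw [← dehom_mem_iff p' h'.1.1 hip' hj]
    exact (h1.mem_or_mem (dId_mono h'.1.2 hzx)).resolve_left fun hz' => hz (dId_mono hpq' hz')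
  exact le_antisymm hle (h'.2 ⟨h.1.1, h.1.2⟩ hle)

end Pool.Agent.Lib.MP_6a3dac_ag.Bert
end

section

/-!
# Tangential derivations in homogeneous coordinates
-/

set_option autoImplicit false

namespace Pool.Agent.Lib.MP_6a3dac_ag.Bert

open MvPolynomial
open Pool.Agent.Lib.MP_6a3dac_ag.DNF

variable {R : Type} [CommRing R] {n : ℕ}

/-- The derivation `∑ A l ∂ / ∂ x l`, applied to a polynomial. -/
noncomputable def hDer (A : Fin (n + 1) → MvPolynomial (Fin (n + 1)) R)
    (f : MvPolynomial (Fin (n + 1)) R) : MvPolynomial (Fin (n + 1)) R :=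
  ∑ l, A l * pderiv l f

/-- The derivation `∑ A l ∂ / ∂ x l` with homogeneous coefficients preserves the ideal. -/
def IsTan (I : HomIdeal R (n + 1)) (A : Fin (n + 1) → MvPolynomial (Fin (n + 1)) R) (k : ℕ) :
    Prop :=
  (∀ l, (A l).IsHomogeneous k) ∧ ∀ f ∈ I.ideal, hDer A f ∈ I.ideal

/-- The corresponding derivation in the affine coordinates. -/
noncomputable def aDer (i : Fin (n + 1)) (A : Fin (n + 1) → MvPolynomial (Fin (n + 1)) R) :
    Derivation R (MvPolynomial {l : Fin (n + 1) // l ≠ i} R)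
      (MvPolynomial {l : Fin (n + 1) // l ≠ i} R) :=
  ∑ l : {l : Fin (n + 1) // l ≠ i}, (dehom i (A l.1) - X l * dehom i (A i)) • pderiv l

theorem isHomogeneous_hDer {A : Fin (n + 1) → MvPolynomial (Fin (n + 1)) R} {k d : ℕ}
    (hA : ∀ l, (A l).IsHomogeneous k) (hd : 1 ≤ d) {F : MvPolynomial (Fin (n + 1)) R}
    (hF : F.IsHomogeneous d) : (hDer A F).IsHomogeneous (k + (d - 1)) := by
  unfold hDer
  exact IsHomogeneous.sum _ _ _ fun l _ => (hA l).mul hF.pderiv

theorem t1_aDer_apply (i : Fin (n + 1)) (A : Fin (n + 1) → MvPolynomial (Fin (n + 1)) R)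
    (q : MvPolynomial {l : Fin (n + 1) // l ≠ i} R) :
    aDer i A q = ∑ l : {l : Fin (n + 1) // l ≠ i},
      (dehom i (A l.1) - X l * dehom i (A i)) * pderiv l q := by
  unfold aDer
  have h := congrFun (map_sum (Derivation.coeFnAddMonoidHom (R := R)
    (A := MvPolynomial {l : Fin (n + 1) // l ≠ i} R)
    (M := MvPolynomial {l : Fin (n + 1) // l ≠ i} R))
    (fun l : {l : Fin (n + 1) // l ≠ i} => (dehom i (A l.1) - X l * dehom i (A i)) • pderiv l)
    Finset.univ) q
  rw [Finset.sum_apply] at h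
  exact h

theorem dehom_hDer (i : Fin (n + 1)) (A : Fin (n + 1) → MvPolynomial (Fin (n + 1)) R)
    {f : MvPolynomial (Fin (n + 1)) R} {d : ℕ} (hf : f.IsHomogeneous d) :
    dehom i (hDer A f) = aDer i A (dehom i f) + d * dehom i (A i) * dehom i f := by
  classical
  have h2 : dehom i (hDer A f) = dehom i (A i) * dehom i (pderiv i f) +
      ∑ l : {l : Fin (n + 1) // l ≠ i}, dehom i (A l.1) * pderiv l (dehom i f) := by
    unfold hDer
    rw [map_sum, ← Finset.add_sum_erase _ _ (Finset.mem_univ i), map_mul]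
    congr 1
    rw [Finset.sum_subtype (Finset.univ.erase i) (p := fun l => l ≠ i) (by simp)]
    refine Finset.sum_congr rfl fun l _ => ?_
    rw [map_mul, pderiv_dehom]
  rw [h2, euler_dehom i hf, t1_aDer_apply]
  simp only [sub_mul, Finset.sum_sub_distrib, mul_sub, Finset.mul_sum]
  have h3 : ∑ l : {l : Fin (n + 1) // l ≠ i}, dehom i (A i) * (X l * pderiv l (dehom i f)) =
      ∑ l : {l : Fin (n + 1) // l ≠ i}, X l * dehom i (A i) * pderiv l (dehom i f) :=
    Finset.sum_congr rfl fun l _ => by ring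
  rw [h3]
  ring

theorem IsTan.aDer_mem {I : HomIdeal R (n + 1)}
    {A : Fin (n + 1) → MvPolynomial (Fin (n + 1)) R} {k : ℕ} (hA : IsTan I A k) (i : Fin (n + 1))
    {f : MvPolynomial {l : Fin (n + 1) // l ≠ i} R} (hf : f ∈ dId I i) :
    aDer i A f ∈ dId I i := by
  obtain ⟨e, g, hg, hge, rfl⟩ := (mem_dId_iff I).1 hf
  have h1 : aDer i A (dehom i g) =
      dehom i (hDer A g) - (e : MvPolynomial {l : Fin (n + 1) // l ≠ i} R) * dehom i (A i) *
        dehom i g := by
    rw [dehom_hDer i A hge]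
    ring
  rw [h1]
  exact Ideal.sub_mem _ (dehom_mem_dId I (hA.2 g hg)) (Ideal.mul_mem_left _ _ hf)

/-- The homogenization of a derivation. -/
theorem exists_isTan (I : HomIdeal R (n + 1)) (hI : I.ideal.IsPrime) {i : Fin (n + 1)}
    (hi : X i ∉ I.ideal) (D : Derivation R (MvPolynomial {l : Fin (n + 1) // l ≠ i} R)
      (MvPolynomial {l : Fin (n + 1) // l ≠ i} R)) (hD : ∀ f ∈ dId I i, D f ∈ dId I i) :
    ∃ (A : Fin (n + 1) → MvPolynomial (Fin (n + 1)) R) (k : ℕ), IsTan I A k ∧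
      ∀ f d, f.IsHomogeneous d → dehom i (hDer A f) = D (dehom i f) := by
  classical
  have h1 : ∀ l : {l : Fin (n + 1) // l ≠ i}, ∃ (N : ℕ) (G : MvPolynomial (Fin (n + 1)) R),
      G.IsHomogeneous N ∧ dehom i G = D (X l) := fun l => exists_homog i (D (X l))
  choose N G hG hGD using h1
  let k : ℕ := ∑ l, N l
  have hk : ∀ l, N l ≤ k := fun l =>
    Finset.single_le_sum (f := N) (fun _ _ => Nat.zero_le _) (Finset.mem_univ l)
  let A : Fin (n + 1) → MvPolynomial (Fin (n + 1)) R := fun l =>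
    if h : l = i then 0 else X i ^ (k - N ⟨l, h⟩) * G ⟨l, h⟩
  have hAi : A i = 0 := dif_pos rfl
  have hAl : ∀ l : {l : Fin (n + 1) // l ≠ i}, A l.1 = X i ^ (k - N l) * G l :=
    fun l => dif_neg l.2
  have hAh : ∀ l, (A l).IsHomogeneous k := by
    intro l
    by_cases h : l = i
    · rw [h, hAi]
      exact isHomogeneous_zero _ _ _
    · have h2 := hAl ⟨l, h⟩
      change A l = _ at h2
      rw [h2]
      have h3 : (X i ^ (k - N ⟨l, h⟩) : MvPolynomial (Fin (n + 1)) R).IsHomogeneous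
          (k - N ⟨l, h⟩) := by
        simpa using (isHomogeneous_X R i).pow (k - N ⟨l, h⟩)
      have h4 := h3.mul (hG ⟨l, h⟩)
      rwa [Nat.sub_add_cancel (hk ⟨l, h⟩)] at h4
  have hAD : aDer i A = D := by
    apply MvPolynomial.derivation_ext
    intro m
    rw [t1_aDer_apply, Finset.sum_eq_single m]
    · rw [pderiv_X_self, mul_one, hAi, map_zero, mul_zero, sub_zero, hAl, map_mul, map_pow,
        dehom_X_self, one_pow, one_mul, hGD]
    · intro l _ hl
      rw [pderiv_X_of_ne (fun h => hl h.symm), mul_zero]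
    · intro h
      exact absurd (Finset.mem_univ m) h
  have hmain : ∀ f d, f.IsHomogeneous d → dehom i (hDer A f) = D (dehom i f) := by
    intro f d hf
    rw [dehom_hDer i A hf, hAD, hAi, map_zero, mul_zero, zero_mul, add_zero]
  refine ⟨A, k, ⟨hAh, ?_⟩, hmain⟩
  intro f hf
  have h5 : hDer A f = ∑ j ∈ Finset.range (f.totalDegree + 1),
      hDer A (homogeneousComponent j f) := by
    unfold hDer
    rw [Finset.sum_comm]
    refine Finset.sum_congr rfl fun l _ => ?_
    rw [← Finset.mul_sum, ← map_sum, sum_homogeneousComponent]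
  rw [h5]
  refine Ideal.sum_mem _ fun j _ => ?_
  have hfj := I.homog f hf j
  have hfh : (homogeneousComponent j f).IsHomogeneous j := homogeneousComponent_isHomogeneous j f
  rcases Nat.eq_zero_or_pos j with hj | hj
  · subst hj
    have h6 : hDer A (homogeneousComponent 0 f) = 0 := by
      unfold hDer
      refine Finset.sum_eq_zero fun l _ => ?_
      rw [homogeneousComponent_zero, pderiv_C, mul_zero]
    rw [h6]
    exact Ideal.zero_mem _
  · have h7 : dehom i (hDer A (homogeneousComponent j f)) ∈ dId I i := by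
      rw [hmain _ j hfh]
      exact hD _ (dehom_mem_dId I hfj)
    obtain ⟨M, hM⟩ := exists_pow_mul_mem I (isHomogeneous_hDer hAh hj hfh) h7
    rcases hI.mem_or_mem hM with h8 | h8
    · exact absurd (hI.mem_of_pow_mem M h8) hi
    · exact h8

/-- Finitely many forms which generate the ideal of the derivatives of `F` along the tangential
derivations. -/
theorem exists_tanForms [IsNoetherianRing R] (I : HomIdeal R (n + 1)) {d : ℕ} (hd : 1 ≤ d)
    {F : MvPolynomial (Fin (n + 1)) R} (hF : F.IsHomogeneous d) :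
    ∃ (δ : ℕ) (G : Finset (MvPolynomial (Fin (n + 1)) R)), 1 ≤ δ ∧
      (∀ g ∈ G, g.IsHomogeneous δ) ∧ (∀ g ∈ G, ∃ c A k, IsTan I A k ∧ g = c * hDer A F) ∧
      ∀ A k, IsTan I A k → ∀ i, dehom i (hDer A F) ∈ Ideal.span ((dehom i) '' (G : Set _)) := by
  classical
  let S : Set (MvPolynomial (Fin (n + 1)) R) := {x | ∃ A k, IsTan I A k ∧ x = hDer A F}
  have hfg : (Ideal.span S).FG := IsNoetherian.noetherian _
  obtain ⟨G₀, hG₀, hspan⟩ := Submodule.fg_span_iff_fg_span_finset_subset S |>.1 hfg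
  have h1 : ∀ x : MvPolynomial (Fin (n + 1)) R, ∃ e : ℕ, x ∈ G₀ → x.IsHomogeneous e := by
    intro x
    by_cases hx : x ∈ G₀
    · obtain ⟨A, k, hA, rfl⟩ := hG₀ hx
      exact ⟨_, fun _ => isHomogeneous_hDer hA.1 hd hF⟩
    · exact ⟨0, fun h => absurd h hx⟩
  choose e he using h1
  let δ : ℕ := 1 + ∑ x ∈ G₀, e x
  have hδ : ∀ x ∈ G₀, e x ≤ δ := fun x hx =>
    (Finset.single_le_sum (f := e) (fun _ _ => Nat.zero_le _) hx).trans (Nat.le_add_left _ _)
  let G : Finset (MvPolynomial (Fin (n + 1)) R) :=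
    (G₀ ×ˢ (Finset.univ : Finset (Fin (n + 1)))).image
      fun p => X p.2 ^ (δ - e p.1) * p.1
  refine ⟨δ, G, Nat.le_add_right _ _, ?_, ?_, ?_⟩
  · intro g hg
    obtain ⟨⟨x, l⟩, hp, rfl⟩ := Finset.mem_image.1 hg
    have hx := (Finset.mem_product.1 hp).1
    have h3 : (X l ^ (δ - e x) : MvPolynomial (Fin (n + 1)) R).IsHomogeneous (δ - e x) := by
      simpa using (isHomogeneous_X R l).pow (δ - e x)
    have h4 := h3.mul (he x hx)
    rwa [Nat.sub_add_cancel (hδ x hx)] at h4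
  · intro g hg
    obtain ⟨⟨x, l⟩, hp, rfl⟩ := Finset.mem_image.1 hg
    have hx := (Finset.mem_product.1 hp).1
    obtain ⟨A, k, hA, hxA⟩ := hG₀ hx
    exact ⟨X l ^ (δ - e x), A, k, hA, by rw [← hxA]⟩
  · intro A k hA i
    have h5 : hDer A F ∈ Ideal.span (G₀ : Set (MvPolynomial (Fin (n + 1)) R)) := by
      have h6 : hDer A F ∈ Ideal.span S := Ideal.subset_span ⟨A, k, hA, rfl⟩
      have h7 : Ideal.span S = Ideal.span (G₀ : Set (MvPolynomial (Fin (n + 1)) R)) := hspan
      rwa [h7] at h6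
    have h8 := Ideal.mem_map_of_mem (dehom i) h5
    rw [Ideal.map_span] at h8
    refine Ideal.span_mono ?_ h8
    rintro _ ⟨x, hx, rfl⟩
    refine ⟨X i ^ (δ - e x) * x, ?_, ?_⟩
    · exact Finset.mem_coe.2 (Finset.mem_image.2 ⟨(x, i),
        Finset.mem_product.2 ⟨hx, Finset.mem_univ i⟩, rfl⟩)
    · rw [map_mul, map_pow, dehom_X_self, one_pow, one_mul]

section Compare

variable {i : Fin (n + 1)} {D : Type} [CommRing D] (φ : MvPolynomial {l : Fin (n + 1) // l ≠ i} R →+* D)
  {I : HomIdeal R (n + 1)} (U : Std R {l : Fin (n + 1) // l ≠ i}) (hU : U.For (dId I i))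
  (hφI : ∀ f ∈ dId I i, φ f = 0) {d : ℕ} {F : MvPolynomial (Fin (n + 1)) R}
  (hF : F.IsHomogeneous d) (hφF : φ (dehom i F) = 0) (hs : IsUnit (φ U.s)) (hΔ : IsUnit (φ U.Δ))
  (S : Subring D) (hS : ∀ q, φ q ∈ S) (hdom : ∀ a ∈ S, ∀ b, a * b = 1 → b ∈ S)

include hU hφI hF hφF hs hΔ hS hdom

/-- The derivatives along the tangential derivations are combinations of the derivatives along the
vector fields of the chart. -/
theorem hDer_mem_span {A : Fin (n + 1) → MvPolynomial (Fin (n + 1)) R} {k : ℕ}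
    (hA : IsTan I A k) : φ (dehom i (hDer A F)) ∈
      Submodule.span S {z | ∃ e ∈ U.T, z = φ (U.vf e (dehom i F))} := by
  have h1 := congrArg φ (U.delta_mul (aDer i A) (dehom i F))
  rw [map_mul, map_add, map_sum, map_sum] at h1
  have h2 : ∑ l : {l : {l : Fin (n + 1) // l ≠ i} // l ∉ U.T},
      φ ((∑ κ, U.J.adjugate l κ * aDer i A (U.g κ)) * pderiv l.1 (dehom i F)) = 0 := by
    refine Finset.sum_eq_zero fun l _ => ?_
    rw [map_mul, map_sum]
    have h3 : ∑ κ, φ (U.J.adjugate l κ * aDer i A (U.g κ)) = 0 := by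
      refine Finset.sum_eq_zero fun κ _ => ?_
      rw [map_mul, hφI _ (hA.aDer_mem i (hU.mem κ)), mul_zero]
    rw [h3, zero_mul]
  rw [h2, add_zero] at h1
  obtain ⟨w, hw⟩ := hΔ.exists_right_inv
  have hwS : w ∈ S := hdom _ (hS _) w hw
  have h4 : φ (dehom i (hDer A F)) =
      ∑ e ∈ U.T, w * φ (aDer i A (X e)) * φ (U.vf e (dehom i F)) := by
    rw [dehom_hDer i A hF, map_add, map_mul, hφF, mul_zero, add_zero]
    have h5 : φ (aDer i A (dehom i F)) = w * (φ U.Δ * φ (aDer i A (dehom i F))) := by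
      rw [← mul_assoc, mul_comm w, hw, one_mul]
    rw [h5, h1, Finset.mul_sum]
    refine Finset.sum_congr rfl fun e _ => ?_
    rw [map_mul, mul_assoc]
  rw [h4]
  refine Submodule.sum_mem _ fun e he => ?_
  have h6 : w * φ (aDer i A (X e)) * φ (U.vf e (dehom i F)) =
      (⟨w * φ (aDer i A (X e)), S.mul_mem hwS (hS _)⟩ : S) • φ (U.vf e (dehom i F)) := rfl
  rw [h6]
  exact Submodule.smul_mem _ _ (Submodule.subset_span ⟨e, he, rfl⟩)

/-- The derivatives along the vector fields of the chart are combinations of the derivatives along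
the tangential derivations. -/
theorem vf_mem_span (hI : I.ideal.IsPrime) (hi : X i ∉ I.ideal)
    {G : Finset (MvPolynomial (Fin (n + 1)) R)}
    (hG : ∀ A k, IsTan I A k → dehom i (hDer A F) ∈ Ideal.span ((dehom i) '' (G : Set _)))
    (e : {l : Fin (n + 1) // l ≠ i}) : φ (U.vf e (dehom i F)) ∈
      Submodule.span S ((fun g => φ (dehom i g)) '' (G : Set _)) := by
  obtain ⟨A, k, hA, hAD⟩ := exists_isTan I hI hi (U.s • U.vf e) (fun f hf => hU.vf_mem e hf)
  have h1 := hG A k hA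
  rw [hAD F d hF] at h1
  have h2 : ∀ x ∈ Ideal.span ((dehom i) '' (G : Set (MvPolynomial (Fin (n + 1)) R))),
      φ x ∈ Submodule.span S ((fun g => φ (dehom i g)) '' (G : Set _)) := by
    intro x hx
    induction hx using Submodule.span_induction with
    | mem x hx =>
      obtain ⟨g, hg, rfl⟩ := hx
      exact Submodule.subset_span ⟨g, hg, rfl⟩
    | zero => rw [map_zero]; exact Submodule.zero_mem _
    | add x y _ _ hx hy => rw [map_add]; exact Submodule.add_mem _ hx hy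
    | smul a x _ hx =>
      rw [smul_eq_mul, map_mul]
      exact Submodule.smul_mem _ (⟨φ a, hS a⟩ : S) hx
  have h3 := h2 _ h1
  obtain ⟨w, hw⟩ := hs.exists_right_inv
  have hwS : w ∈ S := hdom _ (hS _) w hw
  have h4 : φ (U.vf e (dehom i F)) = (⟨w, hwS⟩ : S) • φ ((U.s • U.vf e) (dehom i F)) := by
    change _ = w * φ (U.s * U.vf e (dehom i F))
    rw [map_mul, ← mul_assoc, mul_comm w, hw, one_mul]
  rw [h4]
  exact Submodule.smul_mem _ _ h3

end Compare

end Pool.Agent.Lib.MP_6a3dac_ag.Bert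
end

section

/-!
# Smoothness of projective hypersurfaces from the Jacobian criterion
-/

set_option autoImplicit false
set_option linter.unusedSectionVars false

namespace Pool.Agent.Lib.MP_6a3dac_ag.PC

open CategoryTheory Limits AlgebraicGeometry HomogeneousLocalization MvPolynomial

attribute [local instance] MvPolynomial.gradedAlgebra

/-- The Taylor formula modulo an ideal of square zero. -/
theorem aeval_add_of_sq_zero {k B σ : Type} [CommRing k] [CommRing B] [Algebra k B] [Fintype σ]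
    {y e : σ → B} (he : ∀ l m, e l * e m = 0) (f : MvPolynomial σ k) :
    aeval (fun l => y l + e l) f = aeval y f + ∑ l, e l * aeval y (pderiv l f) := by
  classical
  induction f using MvPolynomial.induction_on with
  | C a => simp
  | add p q hp hq =>
    simp only [map_add, hp, hq, mul_add, Finset.sum_add_distrib]
    ring
  | mul_X p m hp =>
    have h1 : ∑ l, e l * aeval y (pderiv l (p * X m)) =
        e m * aeval y p + y m * ∑ l, e l * aeval y (pderiv l p) := by
      have h2 : ∀ l, e l * aeval y (pderiv l (p * X m)) =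
          (if l = m then e m * aeval y p else 0) + y m * (e l * aeval y (pderiv l p)) := by
        intro l
        rw [Derivation.leibniz, pderiv_X, map_add]
        simp only [smul_eq_mul, map_mul, aeval_X]
        by_cases hl : l = m
        · subst hl
          rw [if_pos rfl, Pi.single_eq_same, map_one]
          ring
        · rw [if_neg hl, Pi.single_eq_of_ne (fun h => hl h.symm), map_zero]
          ring
      rw [Finset.sum_congr rfl fun l _ => h2 l, Finset.sum_add_distrib, ← Finset.mul_sum,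
        Finset.sum_ite_eq' Finset.univ m, if_pos (Finset.mem_univ m)]
    have h3 : (∑ l, e l * aeval y (pderiv l p)) * e m = 0 := by
      rw [Finset.sum_mul]
      refine Finset.sum_eq_zero fun l _ => ?_
      calc e l * aeval y (pderiv l p) * e m = (e l * e m) * aeval y (pderiv l p) := by ring
        _ = 0 := by rw [he, zero_mul]
    rw [map_mul, map_mul, aeval_X, aeval_X, hp, h1]
    linear_combination h3

section

variable {k : Type} [CommRing k] {n : ℕ} (𝔞 : HomogeneousIdeal (homogeneousSubmodule (Fin n) k))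
  {f : MvPolynomial (Fin n) k} {d : ℕ} (hf : f.IsHomogeneous d)
  (h𝔞 : 𝔞.toIdeal = Ideal.span {f})

include hf h𝔞

theorem formallySmooth_chartRing (a : Fin n) {K : ℕ}
    (hK : X a ^ K ∈ Ideal.span (insert f (Set.range fun l => pderiv l f))) :
    Algebra.FormallySmooth k (ChartRing 𝔞 a) := by
  classical
  apply Algebra.FormallySmooth.of_comp_surjective
  intro B _ _ I hI g
  have hI2 : ∀ u ∈ I, ∀ v ∈ I, u * v = 0 := by
    intro u hu v hv
    have h1 : u * v ∈ I ^ 2 := by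
      rw [pow_two]
      exact Ideal.mul_mem_mul hu hv
    rw [hI] at h1
    exact h1
  obtain ⟨c, b, hb, hcb⟩ := Ideal.mem_span_insert.mp hK
  obtain ⟨cl, hcl⟩ := (Ideal.mem_span_range_iff_exists_fun).mp hb
  choose y₀ hy₀ using fun l => Ideal.Quotient.mk_surjective (g (chartX 𝔞 a l))
  obtain ⟨y, hyd⟩ : ∃ y : Fin n → B, y = fun l => if l = a then 1 else y₀ l := ⟨_, rfl⟩
  have hya : y a = 1 := by rw [hyd]; simp
  have hy : ∀ l, Ideal.Quotient.mk I (y l) = g (chartX 𝔞 a l) := by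
    intro l
    by_cases hl : l = a
    · subst hl
      rw [hya, map_one, chartX_self, map_one]
    · rw [hyd]
      simp only [if_neg hl]
      exact hy₀ l
  have hmk : ∀ q : MvPolynomial (Fin n) k, Ideal.Quotient.mk I (aeval y q) =
      g (aeval (chartX 𝔞 a) q) := by
    intro q
    have h1 : (Ideal.Quotient.mkₐ k I).comp (aeval y) = g.comp (aeval (chartX 𝔞 a)) := by
      apply MvPolynomial.algHom_ext
      intro l
      change Ideal.Quotient.mk I (aeval y (X l)) = g (aeval (chartX 𝔞 a) (X l))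
      rw [aeval_X, aeval_X, hy]
    exact AlgHom.congr_fun h1 q
  have hfy : aeval y f ∈ I := by
    rw [← Ideal.Quotient.eq_zero_iff_mem, hmk, aeval_chartX 𝔞 a (by
      rw [h𝔞]; exact Ideal.subset_span rfl), map_zero]
  have hJ : 1 = aeval y c * aeval y f + ∑ l, aeval y (cl l) * aeval y (pderiv l f) := by
    have h1 := congrArg (aeval y) hcb
    rw [map_pow, aeval_X, hya, one_pow, map_add, map_mul, ← hcl, map_sum] at h1
    rw [h1]
    simp only [map_mul]
  have hE : ∑ l, y l * aeval y (pderiv l f) = d * aeval y f := by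
    have h1 := congrArg (aeval y) hf.sum_X_mul_pderiv
    rw [map_sum, map_nsmul, nsmul_eq_mul] at h1
    rw [← h1]
    simp only [map_mul, aeval_X]
  obtain ⟨e, hed⟩ : ∃ e : Fin n → B, e = fun l =>
    -(aeval y f) * (aeval y (cl l) - aeval y (cl a) * y l) := ⟨_, rfl⟩
  have he : ∀ l, e l ∈ I := by
    intro l
    rw [hed]
    exact I.mul_mem_right _ (I.neg_mem hfy)
  have hea : e a = 0 := by
    rw [hed]
    simp only [hya]
    ring
  have hfe : aeval (fun l => y l + e l) f = 0 := by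
    rw [aeval_add_of_sq_zero fun l m => hI2 _ (he l) _ (he m)]
    have h1 : ∑ l, e l * aeval y (pderiv l f) = -(aeval y f) *
        (∑ l, aeval y (cl l) * aeval y (pderiv l f) -
          aeval y (cl a) * ∑ l, y l * aeval y (pderiv l f)) := by
      rw [Finset.mul_sum, ← Finset.sum_sub_distrib, Finset.mul_sum, hed]
      refine Finset.sum_congr rfl fun l _ => ?_
      ring
    have h2 : aeval y f * aeval y f = 0 := hI2 _ hfy _ hfy
    rw [h1, hE]
    linear_combination (aeval y f) * hJ + (aeval y c + aeval y (cl a) * d) * h2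
  have hΨ₀ : ∀ q ∈ 𝔞.toIdeal, (aeval fun l => y l + e l : MvPolynomial (Fin n) k →ₐ[k] B) q = 0 := by
    intro q hq
    rw [h𝔞, Ideal.mem_span_singleton] at hq
    obtain ⟨q', rfl⟩ := hq
    rw [map_mul, hfe, zero_mul]
  let Ψ₀ : CoordQuot 𝔞 →ₐ[k] B := Ideal.Quotient.liftₐ 𝔞.toIdeal _ hΨ₀
  have hΨX : ∀ l, Ψ₀ (sCl 𝔞 l) = y l + e l := by
    intro l
    change (aeval fun l => y l + e l : MvPolynomial (Fin n) k →ₐ[k] B) (X l) = _
    rw [aeval_X]
  have hΨa : Ψ₀ (sCl 𝔞 a) = 1 := by rw [hΨX, hya, hea, add_zero]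
  have hunit : IsUnit ((Ψ₀ : CoordQuot 𝔞 →+* B) (sCl 𝔞 a)) := by
    change IsUnit (Ψ₀ (sCl 𝔞 a))
    rw [hΨa]
    exact isUnit_one
  let Ψ : Localization.Away (sCl 𝔞 a) →+* B := IsLocalization.Away.lift (sCl 𝔞 a) hunit
  have hΨ : ∀ z, Ψ (algebraMap (CoordQuot 𝔞) (Localization.Away (sCl 𝔞 a)) z) = Ψ₀ z :=
    fun z => IsLocalization.Away.lift_eq (sCl 𝔞 a) hunit z
  have hΨinv : Ψ (invS 𝔞 a) = 1 := by
    have h1 := congrArg Ψ (invS_mul 𝔞 a)
    rwa [map_mul, hΨ, hΨa, mul_one, map_one] at h1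
  let Φ : ChartRing 𝔞 a →ₐ[k] B :=
    { Ψ.comp (chartVal 𝔞 a) with
      commutes' := by
        intro r
        change Ψ (chartVal 𝔞 a (algebraMap k (ChartRing 𝔞 a) r)) = _
        rw [chartVal_algebraMap, hΨ, Ψ₀.commutes] }
  have hΦ : ∀ l, Φ (chartX 𝔞 a l) = y l + e l := by
    intro l
    change Ψ (chartVal 𝔞 a (chartX 𝔞 a l)) = _
    rw [chartVal_chartX', map_mul, hΨinv, one_mul, hΨ, hΨX]
  refine ⟨Φ, AlgHom.ext_of_adjoin_eq_top (adjoin_chartX 𝔞 a) ?_⟩
  rintro _ ⟨l, rfl⟩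
  change Ideal.Quotient.mk I (Φ (chartX 𝔞 a l)) = g (chartX 𝔞 a l)
  rw [hΦ, map_add, hy, Ideal.Quotient.eq_zero_iff_mem.mpr (he l), add_zero]

end

section

variable {k : Type} [Field k] {n : ℕ} (𝔞 : HomogeneousIdeal (homogeneousSubmodule (Fin n) k))
  {f : MvPolynomial (Fin n) k} {d : ℕ} (hf : f.IsHomogeneous d)
  (h𝔞 : 𝔞.toIdeal = Ideal.span {f})

include hf h𝔞

theorem smooth_projTo_of_jac {K : ℕ}
    (hK : ∀ a, X a ^ K ∈ Ideal.span (insert f (Set.range fun l => pderiv l f))) :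
    Smooth (projTo k (coordGr 𝔞)) := by
  have hirr : (HomogeneousIdeal.irrelevant (coordGr 𝔞)).toIdeal ≤
      Ideal.span (Set.range (sCl 𝔞)) := by
    rw [HomogeneousIdeal.toIdeal_irrelevant_le]
    intro i hi s hs
    obtain ⟨P, hP, rfl⟩ := hs
    change Ideal.Quotient.mk 𝔞.toIdeal P ∈ _
    rw [P.as_sum, map_sum]
    refine Ideal.sum_mem _ fun m hm => ?_
    have h1 : m ≠ 0 := by
      rintro rfl
      have := hP (mem_support_iff.mp hm)
      simp at this
      omega
    obtain ⟨l, hl⟩ : ∃ l, m l ≠ 0 := by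
      by_contra hcon
      push Not at hcon
      exact h1 (Finsupp.ext hcon)
    have h2 : ∀ c : k, monomial m c = X l * monomial (m - Finsupp.single l 1) c := by
      intro c
      conv_lhs => rw [← Finsupp.sub_add_single_one_cancel hl, monomial_add_single, pow_one]
      rw [mul_comm]
    rw [h2, map_mul]
    exact Ideal.mul_mem_right _ _ (Ideal.subset_span ⟨l, rfl⟩)
  rw [IsZariskiLocalAtSource.iff_of_openCover (P := @Smooth)
    (Proj.affineOpenCoverOfIrrelevantLESpan (coordGr 𝔞) (sCl 𝔞) (m := fun _ => 1)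
      (sCl_mem 𝔞) (fun _ => one_pos) hirr).openCover]
  intro a
  change Smooth (Proj.awayι (coordGr 𝔞) (sCl 𝔞 a) (sCl_mem 𝔞 a) one_pos ≫ projTo k (coordGr 𝔞))
  rw [awayι_projTo, HasRingHomProperty.Spec_iff (P := @Smooth)]
  change (algebraMap k (ChartRing 𝔞 a)).Smooth
  rw [RingHom.smooth_algebraMap]
  have h1 := formallySmooth_chartRing 𝔞 hf h𝔞 a (hK a)
  have hft : Algebra.FiniteType k (ChartRing 𝔞 a) := by
    refine ⟨⟨(Set.finite_range (chartX 𝔞 a)).toFinset, ?_⟩⟩
    rw [Set.Finite.coe_toFinset]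
    exact adjoin_chartX 𝔞 a
  have hfp : Algebra.FinitePresentation k (ChartRing 𝔞 a) :=
    Algebra.FinitePresentation.of_finiteType.mp hft
  exact ⟨h1, hfp⟩

end

end Pool.Agent.Lib.MP_6a3dac_ag.PC
end
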