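import Mathlib

section

/-!
# The charts of the toric modification of `∏ x i ^ e i = π ^ v`
-/

set_option autoImplicit false

namespace Pool.Agent.Lib.MP_6a3dac_ag.Tor

/-- The nonnegative elements for a total preorder of a commutative group compatible with the
addition. -/
structure IsTotal {M : Type} [AddCommGroup M] (P : Set M) : Prop where
  zero : (0 : M) ∈ P
  add : ∀ x ∈ P, ∀ y ∈ P, x + y ∈ P
  total : ∀ x : M, x ∈ P ∨ -x ∈ P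

/-- The exponents of a chart of a toric modification. -/
structure TChart (s : ℕ) where
  A : Fin s → Fin s → ℕ
  β : Fin s → ℕ
  c : Fin s → ℕ
  c₀ : ℕ
  B : Fin s → Fin s → ℤ
  B₀ : Fin s → ℤ
  μ : Fin s → ℕ
  μ₀ : ℕ

/-- The conditions on the exponents of a chart: `(B ρ, B₀ ρ)` and `(e, -v)` are a basis of
`ℤ ^ (s + 1)` with the dual basis `(A ρ, β ρ)`, `(c, c₀)`, and the exponents in `𝒢` are
`(μ, μ₀)` plus combinations of this basis with nonnegative coefficients of `(B ρ, B₀ ρ)`. -/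
structure TChart.IsFor {s : ℕ} (t : TChart s) (e : Fin s → ℕ) (v : ℕ)
    (𝒢 : Finset ((Fin s → ℕ) × ℕ)) : Prop where
  β_pos : ∀ ρ, 0 < t.β ρ
  rel : ∀ ρ, ∑ i, e i * t.A ρ i = v * t.β ρ
  rel_c : ∑ i, e i * t.c i = v * t.c₀ + 1
  inv₁ : ∀ i j, ∑ ρ, (t.A ρ i : ℤ) * t.B ρ j + t.c i * e j = if i = j then 1 else 0
  inv₂ : ∀ i, ∑ ρ, (t.A ρ i : ℤ) * t.B₀ ρ - t.c i * v = 0
  inv₃ : ∀ j, ∑ ρ, (t.β ρ : ℤ) * t.B ρ j + t.c₀ * e j = 0
  inv₄ : ∑ ρ, (t.β ρ : ℤ) * t.B₀ ρ - t.c₀ * v = 1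
  dual₁ : ∀ ρ ρ', ∑ i, (t.A ρ i : ℤ) * t.B ρ' i + t.β ρ * t.B₀ ρ' = if ρ = ρ' then 1 else 0
  dual₂ : ∀ ρ', ∑ i, (t.c i : ℤ) * t.B ρ' i + t.c₀ * t.B₀ ρ' = 0
  mem₀ : (t.μ, t.μ₀) ∈ 𝒢
  mem₁ : ∀ ρ, ∃ ν ∈ 𝒢, ∃ k : ℤ, (∀ i, (ν.1 i : ℤ) = t.μ i + t.B ρ i + k * e i) ∧
    (ν.2 : ℤ) = t.μ₀ + t.B₀ ρ - k * v
  mem₂ : ∃ ν ∈ 𝒢, (∀ i, ν.1 i = t.μ i + e i) ∧ ν.2 + v = t.μ₀
  ge : ∀ ν ∈ 𝒢, ∃ (n : Fin s → ℕ) (k : ℤ),
    (∀ i, (ν.1 i : ℤ) - t.μ i = ∑ ρ, n ρ * t.B ρ i + k * e i) ∧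
      (ν.2 : ℤ) - t.μ₀ = ∑ ρ, n ρ * t.B₀ ρ - k * v

end Pool.Agent.Lib.MP_6a3dac_ag.Tor
end

section

/-! Row F8b: a total preorder of a commutative group is the pullback of the order of a linearly ordered group. -/

set_option autoImplicit false

namespace Pool.Agent.Lib.MP_6a3dac_ag.Tor

theorem IsTotal.mem_of_sub {M : Type} [AddCommGroup M] {P : Set M} (hP : IsTotal P) {x y : M}
    (h : x - y ∈ P) (hy : y ∈ P) : x ∈ P := by
  have := hP.add _ h _ hy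
  rwa [sub_add_cancel] at this

/-- Γ := M ⧸ (P ∩ -P), x ≤ y iff y - x ∈ P (representatives) -/
theorem IsTotal.exists_order {M : Type} [AddCommGroup M] {P : Set M} (hP : IsTotal P) :
    ∃ (Γ : Type) (_ : AddCommGroup Γ) (_ : LinearOrder Γ) (_ : IsOrderedAddMonoid Γ) (f : M →+ Γ),
      ∀ x, x ∈ P ↔ 0 ≤ f x := by
  classical
  let H : AddSubgroup M :=
    { carrier := {x | x ∈ P ∧ -x ∈ P}
      add_mem' := fun {a b} ha hb => ⟨hP.add _ ha.1 _ hb.1, by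
        rw [neg_add]
        exact hP.add _ ha.2 _ hb.2⟩
      zero_mem' := ⟨hP.zero, by
        rw [neg_zero]
        exact hP.zero⟩
      neg_mem' := fun {a} ha => ⟨ha.2, by
        rw [neg_neg]
        exact ha.1⟩ }
  have key : ∀ x : M, (∃ y ∈ P, (QuotientAddGroup.mk y : M ⧸ H) = QuotientAddGroup.mk x) ↔ x ∈ P := by
    intro x
    refine ⟨fun ⟨y, hy, hyx⟩ => ?_, fun h => ⟨x, h, rfl⟩⟩
    have h1 : -y + x ∈ H := QuotientAddGroup.eq.1 hyx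
    refine hP.mem_of_sub (y := y) ?_ hy
    rw [sub_eq_neg_add]
    exact h1.1
  let C : AddGroupCone (M ⧸ H) :=
    { carrier := {z | ∃ y ∈ P, (QuotientAddGroup.mk y : M ⧸ H) = z}
      add_mem' := by
        rintro a b ⟨x, hx, rfl⟩ ⟨y, hy, rfl⟩
        exact ⟨x + y, hP.add _ hx _ hy, rfl⟩
      zero_mem' := ⟨0, hP.zero, rfl⟩
      eq_zero_of_mem_of_neg_mem' := by
        rintro a ⟨x, hx, rfl⟩ h
        rw [← QuotientAddGroup.mk_neg] at h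
        have h2 : -x ∈ P := (key (-x)).1 h
        exact (QuotientAddGroup.eq_zero_iff x).2 ⟨hx, h2⟩ }
  have hC : ∀ x : M, (QuotientAddGroup.mk x : M ⧸ H) ∈ C ↔ x ∈ P := key
  have hmax : HasMemOrNegMem C := ⟨fun z => by
    induction z using QuotientAddGroup.induction_on with
    | H x =>
      rcases hP.total x with h | h
      · exact Or.inl ((hC x).2 h)
      · right
        rw [← QuotientAddGroup.mk_neg]
        exact (hC _).2 h⟩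
  let _ : LinearOrder (M ⧸ H) := LinearOrder.mkOfAddGroupCone C
  refine ⟨M ⧸ H, inferInstance, LinearOrder.mkOfAddGroupCone C, IsOrderedAddMonoid.mkOfCone C,
    QuotientAddGroup.mk' H, fun x => ?_⟩
  rw [← hC x]
  change _ ↔ (QuotientAddGroup.mk x : M ⧸ H) - 0 ∈ C
  rw [sub_zero]

end Pool.Agent.Lib.MP_6a3dac_ag.Tor
end
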