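import Pool.Agent.Lib.MP_6a3dac_ag.Mg.G013
import Pool.Agent.Lib.MP_6a3dac_ag.Mg.G023
import Pool.Agent.Lib.MP_6a3dac_ag.Tor.Defs
import Pool.Agent.Lib.MP_6a3dac_ag.Mg.G002

section

/-! Row F8: `exists_charts` in the form of Tor/T1c.lean from `TorFan.toric_fan`. -/

set_option autoImplicit false

namespace Pool.Agent.Lib.MP_6a3dac_ag.Tor

open Matrix

/-- the family of exponents -/
private def f8G {s : ℕ} {κ : Type} (e : Fin s → ℕ) (v K : ℕ) (E : κ → Fin (s + 1) → ℕ) (p : κ × ℤ) :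
    (Fin s → ℕ) × ℕ :=
  (fun i => ((E p.1 i.succ : ℤ) + p.2 * e i + K).toNat, ((E p.1 0 : ℤ) - p.2 * v + K).toNat)

private lemma f8G_fst {s : ℕ} {κ : Type} (e : Fin s → ℕ) (v K T : ℕ) (E : κ → Fin (s + 1) → ℕ)
    (p : κ × ℤ) (hK : K = T * (v + ∑ i, e i)) (h1 : -(T : ℤ) ≤ p.2) (i : Fin s) :
    ((f8G e v K E p).1 i : ℤ) = E p.1 i.succ + p.2 * e i + K := by
  unfold f8G
  rw [Int.toNat_of_nonneg]
  have h3 : (e i : ℤ) ≤ v + ∑ i, (e i : ℤ) := by
    have := Finset.single_le_sum (f := fun i => (e i : ℤ)) (fun _ _ => by positivity)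
      (Finset.mem_univ i)
    have h4 : (0 : ℤ) ≤ v := by positivity
    linarith
  have h5 : (K : ℤ) = T * (v + ∑ i, (e i : ℤ)) := by rw [hK]; push_cast; ring
  have h6 : (0 : ℤ) ≤ e i := by positivity
  have h7 : (0 : ℤ) ≤ E p.1 i.succ := by positivity
  have h8 : -((T : ℤ) * e i) ≤ p.2 * e i := by nlinarith
  have h9 : (T : ℤ) * e i ≤ K := by
    rw [h5]
    exact mul_le_mul_of_nonneg_left h3 (by positivity)
  linarith

private lemma f8G_snd {s : ℕ} {κ : Type} (e : Fin s → ℕ) (v K T : ℕ) (E : κ → Fin (s + 1) → ℕ)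
    (p : κ × ℤ) (hK : K = T * (v + ∑ i, e i)) (h1 : p.2 ≤ (T : ℤ)) :
    ((f8G e v K E p).2 : ℤ) = E p.1 0 - p.2 * v + K := by
  unfold f8G
  rw [Int.toNat_of_nonneg]
  have h3 : (v : ℤ) ≤ v + ∑ i, (e i : ℤ) := by
    have : (0 : ℤ) ≤ ∑ i, (e i : ℤ) := by positivity
    linarith
  have h5 : (K : ℤ) = T * (v + ∑ i, (e i : ℤ)) := by rw [hK]; push_cast; ring
  have h6 : (0 : ℤ) ≤ v := by positivity
  have h7 : (0 : ℤ) ≤ E p.1 0 := by positivity
  have h8 : p.2 * v ≤ (T : ℤ) * v := by nlinarith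
  have h9 : (T : ℤ) * v ≤ K := by
    rw [h5]
    exact mul_le_mul_of_nonneg_left h3 (by positivity)
  linarith

/-- the charts -/
theorem exists_charts' {s : ℕ} (hs : 0 < s) (e : Fin s → ℕ) (v : ℕ) (he : ∀ i, 0 < e i)
    (hv : 0 < v) (hg : ∀ d : ℕ, (∀ i, d ∣ e i) → d ∣ v → d = 1) :
    ∃ 𝒢 : Finset ((Fin s → ℕ) × ℕ), ∀ P : Set ((Fin s → ℤ) × ℤ), IsTotal P →
      (∀ i, ((Pi.single i 1, 0) : (Fin s → ℤ) × ℤ) ∈ P) → ((0, 1) : (Fin s → ℤ) × ℤ) ∈ P →
      ((fun i => (e i : ℤ), -(v : ℤ)) : (Fin s → ℤ) × ℤ) ∈ P →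
      ((fun i => -(e i : ℤ), (v : ℤ)) : (Fin s → ℤ) × ℤ) ∈ P →
      ∃ t : TChart s, t.IsFor e v 𝒢 ∧ ∀ ρ, ((t.B ρ, t.B₀ ρ) : (Fin s → ℤ) × ℤ) ∈ P := by
  classical
  obtain ⟨g0, ell', σ, ι, _, _, A, Y, κ, _, E, vx, ed, tw, hg1, hgv, hell, hYA, hYσ, hlA, hlσ, hAY,
    hE1, hE2, hG, hC⟩ := TorFan.toric_fan.{0} s e v hv
  have hg0 : g0 = 1 := by
    refine hg g0 (fun i => ?_) hgv
    have h1 := hell i.succ
    simp only [TorFan.ell, Fin.cons_succ] at h1
    exact Int.natCast_dvd_natCast.mp ⟨_, h1⟩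
  have hl0 : ell' 0 = -(v : ℤ) := by
    have h1 := hell 0
    simp only [TorFan.ell, Fin.cons_zero, hg0] at h1
    rw [h1]; push_cast; ring
  have hls : ∀ i : Fin s, ell' i.succ = (e i : ℤ) := by
    intro i
    have h1 := hell i.succ
    simp only [TorFan.ell, Fin.cons_succ, hg0] at h1
    rw [h1]; push_cast; ring
  -- a nonnegative Bezout vector
  obtain ⟨s', hs', hls'⟩ : ∃ s' : Fin (s + 1) → ℕ, (∑ a, ell' a * (s' a : ℤ) = 1) ∧
      True := by
    set u : Fin (s + 1) → ℤ := Fin.cons (∑ i, (e i : ℤ)) (fun _ => (v : ℤ)) with hu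
    have hu1 : ∀ a, 1 ≤ u a := by
      intro a
      refine Fin.cases ?_ (fun i => ?_) a
      · rw [hu, Fin.cons_zero]
        have h1 := Finset.single_le_sum (f := fun i => (e i : ℤ)) (fun _ _ => by positivity)
          (Finset.mem_univ (⟨0, hs⟩ : Fin s))
        have h2 : (1 : ℤ) ≤ e ⟨0, hs⟩ := by exact_mod_cast he ⟨0, hs⟩
        exact h2.trans h1
      · rw [hu, Fin.cons_succ]
        exact_mod_cast hv
    have hu0 : ∑ a, ell' a * u a = 0 := by
      rw [Fin.sum_univ_succ, hl0, hu]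
      simp only [Fin.cons_zero, Fin.cons_succ, hls]
      rw [← Finset.sum_mul]
      ring
    set N : ℤ := ∑ a, |σ a| with hN
    have hnn : ∀ a, 0 ≤ σ a + N * u a := by
      intro a
      have h1 : |σ a| ≤ N := Finset.single_le_sum (f := fun a => |σ a|) (fun _ _ => abs_nonneg _)
        (Finset.mem_univ a)
      have h2 : 0 ≤ N := (abs_nonneg _).trans h1
      have h3 := neg_abs_le (σ a)
      nlinarith [hu1 a]
    refine ⟨fun a => (σ a + N * u a).toNat, ?_, trivial⟩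
    have h1 : ∀ a, ell' a * (((σ a + N * u a).toNat : ℕ) : ℤ) = ell' a * σ a + N * (ell' a * u a) := by
      intro a
      rw [Int.toNat_of_nonneg (hnn a)]
      ring
    simp only [h1]
    rw [Finset.sum_add_distrib, ← Finset.mul_sum, hu0, hlσ]
    ring
  set w : ι → Fin s → ℤ := fun τ j => ∑ a, Y τ j a * (s' a : ℤ) with hw
  set T : ℕ := 1 + ∑ τ, ∑ j, (w τ j).natAbs with hT
  have hwT : ∀ τ j, (w τ j).natAbs ≤ T := by
    intro τ j
    have h1 := Finset.single_le_sum (f := fun j => (w τ j).natAbs) (fun _ _ => Nat.zero_le _)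
      (Finset.mem_univ j)
    have h2 := Finset.single_le_sum (f := fun τ => ∑ j, (w τ j).natAbs) (fun _ _ => Nat.zero_le _)
      (Finset.mem_univ τ)
    exact (h1.trans h2).trans (by omega)
  have hT1 : 1 ≤ T := by omega
  obtain ⟨K, hK⟩ : ∃ K, K = T * (v + ∑ i, e i) := ⟨_, rfl⟩
  refine ⟨((Finset.univ : Finset κ) ×ˢ Finset.Icc (-(T : ℤ)) T).image (f8G e v K E), ?_⟩
  intro P hP hP1 hP2 hP3 hP4
  obtain ⟨Γ, _, _, _, π, hπ'⟩ := hP.exists_order
  have hπ : ∀ x, 0 ≤ π x ↔ x ∈ P := fun x => (hπ' x).symm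
  set x : Fin (s + 1) → Γ := Fin.cons (π (0, 1)) (fun i => π (Pi.single i 1, 0)) with hx
  -- the image of an integral vector
  have hsum : ∀ y : Fin (s + 1) → ℤ, ∑ a, y a • x a = π (fun i => y i.succ, y 0) := by
    intro y
    rw [Fin.sum_univ_succ, hx]
    simp only [Fin.cons_zero, Fin.cons_succ]
    simp only [← map_zsmul, ← map_sum, ← map_add]
    congr 1
    refine Prod.ext ?_ ?_
    · funext i
      simp only [Prod.smul_mk, Prod.fst_add, Prod.fst_sum, smul_zero, zero_add, Finset.sum_apply,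
        Pi.smul_apply, Pi.add_apply, Pi.zero_apply]
      rw [Finset.sum_eq_single i]
      · simp
      · intro j _ hj
        simp [hj.symm]
      · simp
    · simp [Prod.snd_sum]
  have hxe : ∑ a, TorFan.ell e v a • x a = 0 := by
    rw [hsum]
    have h1 : ((fun i : Fin s => TorFan.ell e v i.succ, TorFan.ell e v 0) : (Fin s → ℤ) × ℤ) =
        (fun i => (e i : ℤ), -(v : ℤ)) := by
      simp [TorFan.ell]
    rw [h1]
    have h2 := (hπ _).mpr hP3
    have h3 := (hπ _).mpr hP4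
    have h4 : ((fun i => -(e i : ℤ), (v : ℤ)) : (Fin s → ℤ) × ℤ) =
        -(fun i => (e i : ℤ), -(v : ℤ)) := by
      refine Prod.ext ?_ ?_
      · funext i; simp
      · simp
    rw [h4, map_neg] at h3
    exact le_antisymm (neg_nonneg.mp h3) h2
  obtain ⟨τ, hτ⟩ := hC Γ x (by
    intro a
    refine Fin.cases ?_ (fun i => ?_) a
    · rw [hx, Fin.cons_zero]; exact (hπ _).mpr hP2
    · rw [hx, Fin.cons_succ]; exact (hπ _).mpr (hP1 i)) hxe
  -- the modified dual vectors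
  set Y' : Fin s → Fin (s + 1) → ℤ := fun j a => Y τ j a - w τ j * ell' a with hY'
  have hY'A : ∀ j l, ∑ a, Y' j a * (A τ l a : ℤ) = if j = l then 1 else 0 := by
    intro j l
    rw [← hYA τ j l]
    have h1 : ∀ a, Y' j a * (A τ l a : ℤ) = Y τ j a * A τ l a - w τ j * (ell' a * A τ l a) := by
      intro a; rw [hY']; ring
    simp only [h1]
    rw [Finset.sum_sub_distrib, ← Finset.mul_sum, hlA]
    ring
  have hY's : ∀ j, ∑ a, Y' j a * (s' a : ℤ) = 0 := by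
    intro j
    have h1 : ∀ a, Y' j a * (s' a : ℤ) = Y τ j a * s' a - w τ j * (ell' a * s' a) := by
      intro a; rw [hY']; ring
    simp only [h1]
    rw [Finset.sum_sub_distrib, ← Finset.mul_sum, hs', hw]
    ring
  have hAY' : ∀ a b, (∑ j, (A τ j a : ℤ) * Y' j b) + s' a * ell' b = if a = b then 1 else 0 := by
    intro a b
    have h0 : ∑ j, (A τ j a : ℤ) * w τ j = s' a - σ a := by
      have h1 : ∀ j, (A τ j a : ℤ) * w τ j = ∑ b, ((A τ j a : ℤ) * Y τ j b) * s' b := by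
        intro j
        rw [hw, Finset.mul_sum]
        exact Finset.sum_congr rfl fun b _ => by ring
      simp only [h1]
      rw [Finset.sum_comm]
      have h2 : ∀ b, ∑ j, ((A τ j a : ℤ) * Y τ j b) * s' b =
          (if a = b then (s' b : ℤ) else 0) - σ a * (ell' b * s' b) := by
        intro b
        rw [← Finset.sum_mul]
        have h3 := hAY τ a b
        have h4 : ∑ j, (A τ j a : ℤ) * Y τ j b = (if a = b then 1 else 0) - σ a * ell' b := by
          linarith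
        rw [h4]
        split_ifs <;> ring
      simp only [h2]
      rw [Finset.sum_sub_distrib, ← Finset.mul_sum, hs', Finset.sum_ite_eq]
      simp
    have h1 : ∀ j, (A τ j a : ℤ) * Y' j b = (A τ j a : ℤ) * Y τ j b - (A τ j a * w τ j) * ell' b := by
      intro j; rw [hY']; ring
    simp only [h1]
    rw [Finset.sum_sub_distrib, ← Finset.sum_mul, h0, ← hAY τ a b]
    ring
  -- membership in the family
  have hmem : ∀ (q : κ) (t : ℤ), -(T : ℤ) ≤ t → t ≤ T → f8G e v K E (q, t) ∈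
      ((Finset.univ : Finset κ) ×ˢ Finset.Icc (-(T : ℤ)) T).image (f8G e v K E) := by
    intro q t h1 h2
    exact Finset.mem_image_of_mem _ (Finset.mem_product.mpr ⟨Finset.mem_univ _,
      Finset.mem_Icc.mpr ⟨h1, h2⟩⟩)
  have hT1' : (1 : ℤ) ≤ T := by exact_mod_cast hT1
  refine ⟨⟨fun ρ i => A τ ρ i.succ, fun ρ => A τ ρ 0, fun i => s' i.succ, s' 0,
    fun ρ i => Y' ρ i.succ, fun ρ => Y' ρ 0, (f8G e v K E (vx τ, 0)).1,
    (f8G e v K E (vx τ, 0)).2⟩, ?_, ?_⟩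
  · have hrel : ∀ ρ, ∑ i, e i * A τ ρ i.succ = v * A τ ρ 0 := by
      intro ρ
      have h1 := hlA τ ρ
      rw [Fin.sum_univ_succ, hl0] at h1
      simp only [hls] at h1
      have h2 : ∑ i, (e i : ℤ) * (A τ ρ i.succ : ℤ) = v * A τ ρ 0 := by linarith
      exact_mod_cast h2
    refine
      { β_pos := ?_
        rel := hrel
        rel_c := ?_
        inv₁ := ?_
        inv₂ := ?_
        inv₃ := ?_
        inv₄ := ?_
        dual₁ := ?_
        dual₂ := ?_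
        mem₀ := ?_
        mem₁ := ?_
        mem₂ := ?_
        ge := ?_ }
    · intro ρ
      show 0 < A τ ρ 0
      by_contra h0
      have h0' : A τ ρ 0 = 0 := by omega
      have h1 := hrel ρ
      rw [h0', mul_zero, Finset.sum_eq_zero_iff] at h1
      have h2 : ∀ i : Fin s, A τ ρ i.succ = 0 := by
        intro i
        have h3 := h1 i (Finset.mem_univ i)
        rcases Nat.mul_eq_zero.mp h3 with h4 | h4
        · exact absurd h4 (he i).ne'
        · exact h4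
      have h5 := hY'A ρ ρ
      rw [Fin.sum_univ_succ] at h5
      simp [h0', h2] at h5
    · show ∑ i, e i * s' i.succ = v * s' 0 + 1
      rw [Fin.sum_univ_succ, hl0] at hs'
      simp only [hls] at hs'
      have h2 : ∑ i, (e i : ℤ) * (s' i.succ : ℤ) = v * s' 0 + 1 := by linarith
      exact_mod_cast h2
    · intro i j
      have h1 := hAY' i.succ j.succ
      rw [hls] at h1
      simpa only [Fin.succ_inj] using h1
    · intro i
      have h1 := hAY' i.succ 0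
      rw [hl0, if_neg (Fin.succ_ne_zero i)] at h1
      show ∑ ρ, (A τ ρ i.succ : ℤ) * Y' ρ 0 - s' i.succ * v = 0
      linarith
    · intro j
      have h1 := hAY' 0 j.succ
      rw [hls, if_neg (Fin.succ_ne_zero j).symm] at h1
      exact h1
    · have h1 := hAY' 0 0
      rw [hl0, if_pos rfl] at h1
      show ∑ ρ, (A τ ρ 0 : ℤ) * Y' ρ 0 - s' 0 * v = 1
      linarith
    · intro ρ ρ'
      have h1 := hY'A ρ' ρ
      rw [Fin.sum_univ_succ] at h1
      show ∑ i : Fin s, (A τ ρ i.succ : ℤ) * Y' ρ' i.succ + A τ ρ 0 * Y' ρ' 0 = if ρ = ρ' then 1 else 0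
      have h2 : (if ρ' = ρ then (1 : ℤ) else 0) = if ρ = ρ' then 1 else 0 := by
        simp only [eq_comm]
      rw [← h2, ← h1, add_comm]
      congr 1
      · ring
      · exact Finset.sum_congr rfl fun i _ => by ring
    · intro ρ'
      have h1 := hY's ρ'
      rw [Fin.sum_univ_succ] at h1
      show ∑ i : Fin s, (s' i.succ : ℤ) * Y' ρ' i.succ + s' 0 * Y' ρ' 0 = 0
      rw [← h1, add_comm]
      congr 1
      · ring
      · exact Finset.sum_congr rfl fun i _ => by ring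
    · exact hmem (vx τ) 0 (by linarith) (by linarith)
    · intro ρ
      have hw1 : -(T : ℤ) ≤ -(w τ ρ) ∧ -(w τ ρ) ≤ T := by
        have := hwT τ ρ
        omega
      refine ⟨f8G e v K E (ed τ ρ, -(w τ ρ)), hmem _ _ hw1.1 hw1.2, 0, ?_, ?_⟩
      · intro i
        show (((f8G e v K E (ed τ ρ, -(w τ ρ))).1 i : ℕ) : ℤ) =
          (((f8G e v K E (vx τ, 0)).1 i : ℕ) : ℤ) + Y' ρ i.succ + 0 * (e i : ℤ)
        rw [f8G_fst e v K T E _ hK hw1.1, f8G_fst e v K T E _ hK (by simp)]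
        simp only [hE1, hY', hls]
        ring
      · show (((f8G e v K E (ed τ ρ, -(w τ ρ))).2 : ℕ) : ℤ) =
          (((f8G e v K E (vx τ, 0)).2 : ℕ) : ℤ) + Y' ρ 0 - 0 * (v : ℤ)
        rw [f8G_snd e v K T E _ hK hw1.2, f8G_snd e v K T E _ hK (by simp)]
        simp only [hE1, hY', hl0]
        ring
    · refine ⟨f8G e v K E (vx τ, 1), hmem _ _ (by linarith) (by linarith), ?_, ?_⟩
      · intro i
        show (f8G e v K E (vx τ, 1)).1 i = (f8G e v K E (vx τ, 0)).1 i + e i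
        zify
        rw [f8G_fst e v K T E _ hK (show -(T : ℤ) ≤ (1 : ℤ) by linarith), f8G_fst e v K T E _ hK (by simp)]
        ring
      · show (f8G e v K E (vx τ, 1)).2 + v = (f8G e v K E (vx τ, 0)).2
        zify
        rw [f8G_snd e v K T E _ hK (by simpa using hT1'), f8G_snd e v K T E _ hK (by simp)]
        ring
    · intro ν hν
      obtain ⟨⟨q, t⟩, hqt, rfl⟩ := Finset.mem_image.mp hν
      obtain ⟨-, ht⟩ := Finset.mem_product.mp hqt
      obtain ⟨ht1, ht2⟩ := Finset.mem_Icc.mp ht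
      simp only at ht1 ht2
      set d : Fin (s + 1) → ℤ := fun a => (E q a : ℤ) + t * ell' a - E (vx τ) a with hd
      have hdA : ∀ l, 0 ≤ ∑ a, (A τ l a : ℤ) * d a := by
        intro l
        have h1 : ∀ a, (A τ l a : ℤ) * d a =
            (E q a * A τ l a : ℤ) - E (vx τ) a * A τ l a + t * (ell' a * A τ l a) := by
          intro a; rw [hd]; ring
        simp only [h1]
        rw [Finset.sum_add_distrib, Finset.sum_sub_distrib, ← Finset.mul_sum, hlA]
        have h2 := hG q τ l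
        have h3 : ∑ a, (E (vx τ) a : ℤ) * A τ l a ≤ ∑ a, (E q a : ℤ) * A τ l a := by
          exact_mod_cast h2
        linarith
      have hexp : ∀ b, d b = ∑ ρ, (∑ a, (A τ ρ a : ℤ) * d a) * Y' ρ b +
          (∑ a, (s' a : ℤ) * d a) * ell' b := by
        intro b
        have h1 : ∑ ρ, (∑ a, (A τ ρ a : ℤ) * d a) * Y' ρ b =
            ∑ a, d a * ∑ ρ, (A τ ρ a : ℤ) * Y' ρ b := by
          simp only [Finset.sum_mul, Finset.mul_sum]
          rw [Finset.sum_comm]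
          exact Finset.sum_congr rfl fun a _ => Finset.sum_congr rfl fun ρ _ => by ring
        have h2 : ∀ a, d a * ∑ ρ, (A τ ρ a : ℤ) * Y' ρ b =
            (if a = b then d a else 0) - (s' a * d a) * ell' b := by
          intro a
          have h3 := hAY' a b
          have h4 : ∑ ρ, (A τ ρ a : ℤ) * Y' ρ b = (if a = b then 1 else 0) - s' a * ell' b := by
            linarith
          rw [h4]
          split_ifs <;> ring
        rw [h1]
        simp only [h2]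
        rw [Finset.sum_sub_distrib, ← Finset.sum_mul, Finset.sum_ite_eq']
        simp
      refine ⟨fun ρ => (∑ a, (A τ ρ a : ℤ) * d a).toNat, ∑ a, (s' a : ℤ) * d a, ?_, ?_⟩
      · intro i
        show (((f8G e v K E (q, t)).1 i : ℕ) : ℤ) - (((f8G e v K E (vx τ, 0)).1 i : ℕ) : ℤ) = _
        rw [f8G_fst e v K T E _ hK ht1, f8G_fst e v K T E _ hK (by simp)]
        have h1 := hexp i.succ
        rw [hls] at h1
        have h2 : ∀ ρ, (((∑ a, (A τ ρ a : ℤ) * d a).toNat : ℕ) : ℤ) * Y' ρ i.succ =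
            (∑ a, (A τ ρ a : ℤ) * d a) * Y' ρ i.succ := by
          intro ρ
          rw [Int.toNat_of_nonneg (hdA ρ)]
        show _ = ∑ ρ, (((∑ a, (A τ ρ a : ℤ) * d a).toNat : ℕ) : ℤ) * Y' ρ i.succ + _ * _
        simp only [h2]
        rw [← h1]
        simp only [hd, hls]
        ring
      · show (((f8G e v K E (q, t)).2 : ℕ) : ℤ) - (((f8G e v K E (vx τ, 0)).2 : ℕ) : ℤ) = _
        rw [f8G_snd e v K T E _ hK ht2, f8G_snd e v K T E _ hK (by simp)]
        have h1 := hexp 0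
        rw [hl0] at h1
        have h2 : ∀ ρ, (((∑ a, (A τ ρ a : ℤ) * d a).toNat : ℕ) : ℤ) * Y' ρ 0 =
            (∑ a, (A τ ρ a : ℤ) * d a) * Y' ρ 0 := by
          intro ρ
          rw [Int.toNat_of_nonneg (hdA ρ)]
        show _ = ∑ ρ, (((∑ a, (A τ ρ a : ℤ) * d a).toNat : ℕ) : ℤ) * Y' ρ 0 - _ * _
        simp only [h2]
        have h3 : ∑ ρ, (∑ a, (A τ ρ a : ℤ) * d a) * Y' ρ 0 - (∑ a, (s' a : ℤ) * d a) * v = d 0 := by
          rw [h1]; ring
        rw [h3]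
        simp only [hd, hl0]
        ring
  · intro ρ
    show ((fun i => Y' ρ i.succ, Y' ρ 0) : (Fin s → ℤ) × ℤ) ∈ P
    rw [← hπ, ← hsum]
    have h1 : ∀ a, Y' ρ a • x a = Y τ ρ a • x a - w τ ρ • (TorFan.ell e v a • x a) := by
      intro a
      have h2 : TorFan.ell e v a = ell' a := by rw [hell a, hg0]; push_cast; ring
      rw [hY', h2, sub_smul, mul_smul]
    simp only [h1]
    rw [Finset.sum_sub_distrib, ← Finset.smul_sum, hxe, smul_zero, sub_zero]
    exact hτ ρ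

end Pool.Agent.Lib.MP_6a3dac_ag.Tor
end

section

/-!
# Existence of the charts
-/

set_option autoImplicit false

namespace Pool.Agent.Lib.MP_6a3dac_ag.Tor

theorem IsTotal.of_nsmul {M : Type} [AddCommGroup M] {P : Set M} (hP : IsTotal P) {n : ℕ}
    (hn : 0 < n) {x : M} (hx : n • x ∈ P) : x ∈ P := by
  rcases hP.total x with h | h
  · exact h
  · obtain ⟨k, rfl⟩ : ∃ k, n = k + 1 := ⟨n - 1, by omega⟩
    have h1 : ∀ j : ℕ, j • (-x) ∈ P := by
      intro j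
      induction j with
      | zero => simpa using hP.zero
      | succ j ih =>
        rw [succ_nsmul]
        exact hP.add _ ih _ h
    have h2 : x = (k + 1) • x + k • (-x) := by
      rw [succ_nsmul, smul_neg]
      abel
    rw [h2]
    exact hP.add _ hx _ (h1 k)

/-- **The charts.** -/
theorem exists_charts {s : ℕ} (hs : 0 < s) (e : Fin s → ℕ) (v : ℕ) (he : ∀ i, 0 < e i)
    (hv : 0 < v) (hg : ∀ d : ℕ, (∀ i, d ∣ e i) → d ∣ v → d = 1) :
    ∃ 𝒢 : Finset ((Fin s → ℕ) × ℕ), ∀ P : Set ((Fin s → ℤ) × ℤ), IsTotal P →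
      (∀ i, ((Pi.single i 1, 0) : (Fin s → ℤ) × ℤ) ∈ P) → ((0, 1) : (Fin s → ℤ) × ℤ) ∈ P →
      ((fun i => (e i : ℤ), -(v : ℤ)) : (Fin s → ℤ) × ℤ) ∈ P →
      ((fun i => -(e i : ℤ), (v : ℤ)) : (Fin s → ℤ) × ℤ) ∈ P →
      ∃ t : TChart s, t.IsFor e v 𝒢 ∧ ∀ ρ, ((t.B ρ, t.B₀ ρ) : (Fin s → ℤ) × ℤ) ∈ P :=
  exists_charts' hs e v he hv hg

end Pool.Agent.Lib.MP_6a3dac_ag.Tor
end

section

/-!
# The ideal of the toric modification
-/

set_option autoImplicit false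

namespace Pool.Agent.Lib.MP_6a3dac_ag.Tor

open MvPolynomial
open Pool.Agent.Lib.MP_6a3dac_ag.DNF Pool.Agent.Lib.MP_6a3dac_ag.Bert
open Pool.Agent.Lib.MP_6a3dac_ag.Fam

/-- The sum of the ideals `∏ K j ^ ν j * (ϖ ^ ν₀)`, `(ν, ν₀) ∈ 𝒢`. -/
def torSpan {A : Type} [CommRing A] {s : ℕ} (K : Fin s → Ideal A) (ϖ : A)
    (𝒢 : Finset ((Fin s → ℕ) × ℕ)) : Ideal A :=
  ⨆ ν ∈ 𝒢, (∏ j, K j ^ ν.1 j) * Ideal.span {ϖ ^ ν.2}

/-- TASK T2 -/
theorem torSpan_map {A B : Type} [CommRing A] [CommRing B] {s : ℕ} (K : Fin s → Ideal A) (ϖ : A)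
    (𝒢 : Finset ((Fin s → ℕ) × ℕ)) (θ : A →+* B) :
    (torSpan K ϖ 𝒢).map θ = torSpan (fun j => (K j).map θ) (θ ϖ) 𝒢 := by
  unfold torSpan
  rw [Ideal.map_iSup]
  refine iSup_congr fun ν => ?_
  rw [Ideal.map_iSup]
  refine iSup_congr fun _ => ?_
  rw [Ideal.map_mul, Ideal.map_span, Set.image_singleton, map_pow]
  congr 1
  have h := map_prod (Ideal.mapHom θ) (fun j => K j ^ ν.1 j) Finset.univ
  rw [show (Ideal.mapHom θ) (∏ j, K j ^ ν.1 j) = (∏ j, K j ^ ν.1 j).map θ from rfl] at h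
  rw [h]
  exact Finset.prod_congr rfl fun j _ => by
    rw [map_pow]
    rfl

/-- TASK T2 -/
theorem mem_torSpan {A : Type} [CommRing A] {s : ℕ} {K : Fin s → Ideal A} {ϖ : A}
    {𝒢 : Finset ((Fin s → ℕ) × ℕ)} {ν : (Fin s → ℕ) × ℕ} (hν : ν ∈ 𝒢) {h : A}
    (hh : ∀ j, h ∈ K j) : h ^ (∑ j, ν.1 j) * ϖ ^ ν.2 ∈ torSpan K ϖ 𝒢 := by
  have h1 : (∏ j, K j ^ ν.1 j) * Ideal.span {ϖ ^ ν.2} ≤ torSpan K ϖ 𝒢 :=
    le_iSup₂ (f := fun (ν : (Fin s → ℕ) × ℕ) (_ : ν ∈ 𝒢) =>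
      (∏ j, K j ^ ν.1 j) * Ideal.span {ϖ ^ ν.2}) ν hν
  refine h1 (Ideal.mul_mem_mul ?_ (Ideal.mem_span_singleton_self _))
  rw [← Finset.prod_pow_eq_pow_sum]
  exact Ideal.prod_mem_prod fun j _ => Ideal.pow_mem_pow (hh j) _

/-- An ideal which is generated by forms. -/
def t2_HG {R σ : Type} [CommRing R] (I : Ideal (MvPolynomial σ R)) : Prop :=
  ∃ S : Set (MvPolynomial σ R), (∀ g ∈ S, ∃ j, g.IsHomogeneous j) ∧ I = Ideal.span S

theorem t2_HG_one {R σ : Type} [CommRing R] : t2_HG (1 : Ideal (MvPolynomial σ R)) :=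
  ⟨{1}, fun g hg => ⟨0, by rw [Set.mem_singleton_iff.mp hg]; exact isHomogeneous_one σ R⟩, by
    rw [Ideal.span_singleton_one, Ideal.one_eq_top]⟩

theorem t2_HG_mul {R σ : Type} [CommRing R] (I J : Ideal (MvPolynomial σ R)) (hI : t2_HG I)
    (hJ : t2_HG J) : t2_HG (I * J) := by
  obtain ⟨S, hS, rfl⟩ := hI
  obtain ⟨T, hT, rfl⟩ := hJ
  refine ⟨{g | ∃ a ∈ S, ∃ b ∈ T, a * b = g}, ?_, ?_⟩
  · rintro _ ⟨a, ha, b, hb, rfl⟩
    obtain ⟨i, hi⟩ := hS a ha
    obtain ⟨j, hj⟩ := hT b hb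
    exact ⟨i + j, hi.mul hj⟩
  · apply le_antisymm
    · rw [Ideal.mul_le]
      intro r hr t ht
      induction hr using Submodule.span_induction with
      | mem a ha =>
        induction ht using Submodule.span_induction with
        | mem b hb => exact Ideal.subset_span ⟨a, ha, b, hb, rfl⟩
        | zero => rw [mul_zero]; exact Ideal.zero_mem _
        | add x y _ _ hx hy => rw [mul_add]; exact Ideal.add_mem _ hx hy
        | smul c x _ hx =>
          rw [smul_eq_mul, mul_left_comm]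
          exact Ideal.mul_mem_left _ _ hx
      | zero => rw [zero_mul]; exact Ideal.zero_mem _
      | add x y _ _ hx hy => rw [add_mul]; exact Ideal.add_mem _ hx hy
      | smul c x _ hx =>
        rw [smul_eq_mul, mul_assoc]
        exact Ideal.mul_mem_left _ _ hx
    · rw [Ideal.span_le]
      rintro _ ⟨a, ha, b, hb, rfl⟩
      exact Ideal.mul_mem_mul (Ideal.subset_span ha) (Ideal.subset_span hb)

theorem t2_HG_iSup {R σ : Type} [CommRing R] {ι : Sort*} (I : ι → Ideal (MvPolynomial σ R))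
    (hI : ∀ i, t2_HG (I i)) : t2_HG (⨆ i, I i) := by
  choose S hS hI' using hI
  refine ⟨⋃ i, S i, ?_, ?_⟩
  · intro g hg
    obtain ⟨i, hi⟩ := Set.mem_iUnion.mp hg
    exact hS i g hi
  · rw [Ideal.span_iUnion]
    exact iSup_congr hI'

theorem t2_HG_pow {R σ : Type} [CommRing R] (I : Ideal (MvPolynomial σ R)) (hI : t2_HG I) (k : ℕ) :
    t2_HG (I ^ k) := by
  induction k with
  | zero => rw [pow_zero]; exact t2_HG_one
  | succ k ih => rw [pow_succ]; exact t2_HG_mul _ _ ih hI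

theorem t2_HG_torSpan {R σ : Type} [CommRing R] {s : ℕ} (K : Fin s → Ideal (MvPolynomial σ R))
    (hK : ∀ j, t2_HG (K j)) (ϖ : R) (𝒢 : Finset ((Fin s → ℕ) × ℕ)) :
    t2_HG (torSpan K (C ϖ) 𝒢) := by
  unfold torSpan
  refine t2_HG_iSup _ fun ν => t2_HG_iSup _ fun _ => t2_HG_mul _ _ ?_ ?_
  · exact Finset.prod_induction _ t2_HG t2_HG_mul t2_HG_one fun j _ => t2_HG_pow _ (hK j) _
  · refine ⟨{C ϖ ^ ν.2}, fun g hg => ⟨0, ?_⟩, rfl⟩
    rw [Set.mem_singleton_iff.mp hg, ← C_pow]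
    exact isHomogeneous_C σ _

theorem t2_HG_homIdeal {R : Type} [CommRing R] {n : ℕ} (J : HomIdeal R n) : t2_HG J.ideal := by
  refine ⟨{g | g ∈ J.ideal ∧ ∃ j, g.IsHomogeneous j}, fun g hg => hg.2, le_antisymm ?_ ?_⟩
  · intro g hg
    rw [← sum_homogeneousComponent g]
    exact Ideal.sum_mem _ fun j _ => Ideal.subset_span
      ⟨J.homog g hg j, j, homogeneousComponent_isHomogeneous j g⟩
  · rw [Ideal.span_le]
    exact fun g hg => hg.1

/-- TASK T2: homogeneous generators of one degree `δ`, up to the irrelevant ideal. -/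
theorem exists_torGenerators {R : Type} [CommRing R] [IsNoetherianRing R] {n s : ℕ}
    (K : Fin s → HomIdeal R (n + 1)) (ϖ : R) (𝒢 : Finset ((Fin s → ℕ) × ℕ)) :
    ∃ (δ : ℕ) (G : Finset (MvPolynomial (Fin (n + 1)) R)), 1 ≤ δ ∧
      (∀ g ∈ G, g.IsHomogeneous δ) ∧ ∀ i, Ideal.span (dehom i '' (G : Set _)) =
        torSpan (fun j => dId (K j) i) (C ϖ) 𝒢 := by
  classical
  obtain ⟨S, hS, hT⟩ := t2_HG_torSpan (fun j => (K j).ideal) (fun j => t2_HG_homIdeal (K j)) ϖ 𝒢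
  have hfg : (Ideal.span S).FG := IsNoetherian.noetherian _
  obtain ⟨G₀, hG₀, hspan⟩ := (Submodule.fg_span_iff_fg_span_finset_subset S).1 hfg
  have hmem : ∀ g : G₀, ∃ j, g.1.IsHomogeneous j := fun g => hS _ (hG₀ g.2)
  choose e he using hmem
  obtain ⟨M, hM⟩ : ∃ M, ∀ g : G₀, e g ≤ M :=
    ⟨∑ g, e g, fun g => Finset.single_le_sum (fun _ _ => Nat.zero_le _) (Finset.mem_univ g)⟩
  refine ⟨M + 1, (Finset.univ : Finset (G₀ × Fin (n + 1))).image
    (fun p => X p.2 ^ (M + 1 - e p.1) * p.1.1), Nat.le_add_left _ _, ?_, ?_⟩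
  · intro g hg
    obtain ⟨p, -, rfl⟩ := Finset.mem_image.mp hg
    have h1 := (isHomogeneous_X_pow (R := R) p.2 (M + 1 - e p.1)).mul (he p.1)
    have h2 : M + 1 - e p.1 + e p.1 = M + 1 := by
      have := hM p.1
      omega
    rwa [h2] at h1
  · intro i
    have h1 : torSpan (fun j => dId (K j) i) (C ϖ) 𝒢 =
        Ideal.span (dehom i '' (G₀ : Set (MvPolynomial (Fin (n + 1)) R))) := by
      have h2 := torSpan_map (fun j => (K j).ideal) (C ϖ) 𝒢
        (dehom i : MvPolynomial (Fin (n + 1)) R →ₐ[R] _).toRingHom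
      rw [hT, show Ideal.span S =
        Ideal.span (G₀ : Set (MvPolynomial (Fin (n + 1)) R)) from hspan] at h2
      have h3 : (dehom i : MvPolynomial (Fin (n + 1)) R →ₐ[R] _).toRingHom (C ϖ) = C ϖ :=
        dehom_C i ϖ
      rw [h3] at h2
      refine h2.symm.trans ?_
      have h4 := Ideal.map_span (dehom i : MvPolynomial (Fin (n + 1)) R →ₐ[R] _).toRingHom
        (G₀ : Set (MvPolynomial (Fin (n + 1)) R))
      exact h4
    rw [h1]
    apply le_antisymm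
    · rw [Ideal.span_le]
      rintro _ ⟨g, hg, rfl⟩
      obtain ⟨p, -, rfl⟩ := Finset.mem_image.mp (Finset.mem_coe.mp hg)
      show dehom i (X p.2 ^ (M + 1 - e p.1) * p.1.1) ∈ _
      rw [map_mul]
      exact Ideal.mul_mem_left _ _ (Ideal.subset_span ⟨p.1.1, p.1.2, rfl⟩)
    · rw [Ideal.span_le]
      rintro _ ⟨g, hg, rfl⟩
      refine Ideal.subset_span ⟨X i ^ (M + 1 - e ⟨g, hg⟩) * g, ?_, ?_⟩
      · exact Finset.mem_coe.mpr (Finset.mem_image.mpr ⟨(⟨g, hg⟩, i), Finset.mem_univ _, rfl⟩)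
      · rw [map_mul, map_pow, dehom_X_self, one_pow, one_mul]

end Pool.Agent.Lib.MP_6a3dac_ag.Tor
end

section

/-!
# The equations of a chart of the toric modification
-/

set_option autoImplicit false

namespace Pool.Agent.Lib.MP_6a3dac_ag.Tor

open MvPolynomial
open Pool.Agent.Lib.MP_6a3dac_ag.DNF Pool.Agent.Lib.MP_6a3dac_ag.Bert
open Pool.Agent.Lib.MP_6a3dac_ag.Fam

/-- The exponents in `𝒢` give a complete family of charts. -/
def IsCharts {s : ℕ} (e : Fin s → ℕ) (v : ℕ) (𝒢 : Finset ((Fin s → ℕ) × ℕ)) : Prop :=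
  ∀ P : Set ((Fin s → ℤ) × ℤ), IsTotal P →
    (∀ i, ((Pi.single i 1, 0) : (Fin s → ℤ) × ℤ) ∈ P) → ((0, 1) : (Fin s → ℤ) × ℤ) ∈ P →
    ((fun i => (e i : ℤ), -(v : ℤ)) : (Fin s → ℤ) × ℤ) ∈ P →
    ((fun i => -(e i : ℤ), (v : ℤ)) : (Fin s → ℤ) × ℤ) ∈ P →
    ∃ t : TChart s, t.IsFor e v 𝒢 ∧ ∀ ρ, ((t.B ρ, t.B₀ ρ) : (Fin s → ℤ) × ℤ) ∈ P

section Eqs

variable {O σ : Type} [CommRing O] [DecidableEq σ] {s : ℕ}

/-- The variables `x l` of the ambient chart as variables of the toric chart. -/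
noncomputable def up : MvPolynomial σ O →ₐ[O] MvPolynomial (σ ⊕ (Fin s ⊕ Unit)) O :=
  rename Sum.inl

/-- The coordinates `y ρ` of the toric chart. -/
noncomputable def yv (ρ : Fin s) : MvPolynomial (σ ⊕ (Fin s ⊕ Unit)) O := X (Sum.inr (Sum.inl ρ))

/-- The unit coordinate of the toric chart. -/
noncomputable def wv : MvPolynomial (σ ⊕ (Fin s ⊕ Unit)) O := X (Sum.inr (Sum.inr ()))

/-- The equations of the toric chart. -/
noncomputable def torEqs (U : Std O σ) (g : Fin s → MvPolynomial σ O) (w u : MvPolynomial σ O)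
    (ϖ : O) (g₀ : ℕ) (t : TChart s) :
    {l : σ // l ∉ U.T} ⊕ (Fin s ⊕ Bool) → MvPolynomial (σ ⊕ (Fin s ⊕ Unit)) O :=
  Sum.elim (fun κ => up (U.g κ)) (Sum.elim
    (fun i => up (g i) - wv ^ t.c i * ∏ ρ, yv ρ ^ t.A ρ i)
    (fun a => if a then C ϖ - wv ^ t.c₀ * ∏ ρ, yv ρ ^ t.β ρ else up w * wv ^ g₀ - up u))

end Eqs

end Pool.Agent.Lib.MP_6a3dac_ag.Tor
end

section

/-!
# The coordinates of a toric chart at a point
-/

set_option autoImplicit false

namespace Pool.Agent.Lib.MP_6a3dac_ag.Tor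

open IsLocalRing

/-- the monomials with integral exponents, as a homomorphism -/
private noncomputable def t3aHom {K : Type} [Field K] {s : ℕ} (G : Fin s → Kˣ) (P : Kˣ) :
    ((Fin s → ℤ) × ℤ) →+ Additive Kˣ where
  toFun l := Additive.ofMul ((∏ i, G i ^ l.1 i) * P ^ l.2)
  map_zero' := by simp
  map_add' a b := by
    rw [← ofMul_mul]
    congr 1
    simp only [Prod.fst_add, Prod.snd_add, Pi.add_apply, zpow_add, Finset.prod_mul_distrib]
    exact mul_mul_mul_comm _ _ _ _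

/-- the monomials with integral exponents -/
private noncomputable def t3aChi {K : Type} [Field K] {s : ℕ} (G : Fin s → Kˣ) (P : Kˣ)
    (l : (Fin s → ℤ) × ℤ) : K := ((t3aHom G P l).toMul : Kˣ)

section

variable {K : Type} [Field K] {s : ℕ} (G : Fin s → Kˣ) (P : Kˣ)

private lemma t3a_def (l : (Fin s → ℤ) × ℤ) :
    t3aChi G P l = (∏ i, (G i : K) ^ l.1 i) * (P : K) ^ l.2 := by
  unfold t3aChi t3aHom
  simp

private lemma t3a_zero : t3aChi G P 0 = 1 := by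
  unfold t3aChi
  rw [map_zero]
  rfl

private lemma t3a_add (a b : (Fin s → ℤ) × ℤ) :
    t3aChi G P (a + b) = t3aChi G P a * t3aChi G P b := by
  unfold t3aChi
  rw [map_add]
  rfl

private lemma t3a_neg (a : (Fin s → ℤ) × ℤ) : t3aChi G P (-a) = (t3aChi G P a)⁻¹ := by
  unfold t3aChi
  rw [map_neg]
  simp

private lemma t3a_zsmul (k : ℤ) (a : (Fin s → ℤ) × ℤ) :
    t3aChi G P (k • a) = t3aChi G P a ^ k := by
  unfold t3aChi
  rw [map_zsmul]
  simp

private lemma t3a_ne (a : (Fin s → ℤ) × ℤ) : t3aChi G P a ≠ 0 := Units.ne_zero _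

private lemma t3a_sum (f : Fin s → (Fin s → ℤ) × ℤ) :
    t3aChi G P (∑ ρ, f ρ) = ∏ ρ, t3aChi G P (f ρ) := by
  unfold t3aChi
  rw [map_sum, toMul_sum, Units.coe_prod]

private lemma t3a_comb (B : Fin s → Fin s → ℤ) (B₀ : Fin s → ℤ) (e : Fin s → ℕ) (v : ℕ)
    (n : Fin s → ℤ) (k : ℤ) :
    t3aChi G P (fun i => ∑ ρ, n ρ * B ρ i + k * e i, ∑ ρ, n ρ * B₀ ρ - k * v) =
      (∏ ρ, t3aChi G P (B ρ, B₀ ρ) ^ n ρ) * t3aChi G P (fun i => (e i : ℤ), -(v : ℤ)) ^ k := by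
  have h1 : ((fun i => ∑ ρ, n ρ * B ρ i + k * e i, ∑ ρ, n ρ * B₀ ρ - k * v) : (Fin s → ℤ) × ℤ) =
      ∑ ρ, n ρ • ((B ρ, B₀ ρ) : (Fin s → ℤ) × ℤ) +
        k • ((fun i => (e i : ℤ), -(v : ℤ)) : (Fin s → ℤ) × ℤ) := by
    refine Prod.ext ?_ ?_
    · funext i
      simp [Prod.fst_sum, Finset.sum_apply]
    · simp [Prod.snd_sum, sub_eq_add_neg]
  rw [h1, t3a_add, t3a_sum, t3a_zsmul]
  simp only [t3a_zsmul]

end

/-- TASK T3a -/
theorem exists_chart_elements {D : Type} [CommRing D] [IsDomain D] [IsLocalRing D] {s : ℕ}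
    {e : Fin s → ℕ} {v g₀ : ℕ} {e' : Fin s → ℕ} {v' : ℕ} (hg₀ : 0 < g₀)
    (hee : ∀ i, e i = g₀ * e' i) (hvv : v = g₀ * v') {𝒢 : Finset ((Fin s → ℕ) × ℕ)}
    (h𝒢 : IsCharts e' v' 𝒢) (γ : Fin s → D) (hγ : ∀ i, γ i ≠ 0) (p : D) (hp : p ≠ 0)
    (w u : D) (hw : IsUnit w) (hu : IsUnit u) (heq : w * ∏ i, γ i ^ e i = u * p ^ v)
    (b : D) (hb0 : b ≠ 0) (hb1 : ∀ ν ∈ 𝒢, b ∣ (∏ i, γ i ^ ν.1 i) * p ^ ν.2)
    (hb2 : b ∈ Ideal.span {x | ∃ ν ∈ 𝒢, x = (∏ i, γ i ^ ν.1 i) * p ^ ν.2}) :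
    ∃ (t : TChart s) (y : Fin s → D) (W ω : D), t.IsFor e' v' 𝒢 ∧ IsUnit W ∧ IsUnit ω ∧
      w * W ^ g₀ = u ∧ (∀ i, γ i = W ^ t.c i * ∏ ρ, y ρ ^ t.A ρ i) ∧
      p = W ^ t.c₀ * ∏ ρ, y ρ ^ t.β ρ ∧ (∏ i, γ i ^ t.μ i) * p ^ t.μ₀ = b * ω := by
  classical
  obtain ⟨V, hV, hloc⟩ := IsLocalRing.exists_factor_valuationRing (algebraMap D (FractionRing D))
  have hinj : Function.Injective (algebraMap D (FractionRing D)) :=
    IsFractionRing.injective D (FractionRing D)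
  set φ := algebraMap D (FractionRing D) with hφ
  have hVm : ∀ x, φ x ∈ V := hV
  have hVu : ∀ x, (φ x)⁻¹ ∈ V → φ x ≠ 0 → IsUnit x := by
    intro x hx h0
    have h1 : IsUnit ((φ.codRestrict V.toSubring hV) x) := by
      refine IsUnit.of_mul_eq_one (⟨(φ x)⁻¹, hx⟩ : V.toSubring) ?_
      apply Subtype.ext
      exact mul_inv_cancel₀ h0
    exact hloc.map_nonunit x h1
  have hne : ∀ x, x ≠ 0 → φ x ≠ 0 := fun x hx h => hx (hinj (by rw [h, map_zero]))
  set G : Fin s → (FractionRing D)ˣ := fun i => Units.mk0 (φ (γ i)) (hne _ (hγ i)) with hG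
  set Q : (FractionRing D)ˣ := Units.mk0 (φ p) (hne _ hp) with hQ
  have hmono : ∀ (m : Fin s → ℕ) (m₀ : ℕ), t3aChi G Q (fun i => (m i : ℤ), (m₀ : ℤ)) =
      φ ((∏ i, γ i ^ m i) * p ^ m₀) := by
    intro m m₀
    rw [t3a_def]
    simp [hG, hQ, map_mul, map_prod, map_pow]
  -- the unit
  have hWg : t3aChi G Q (fun i => (e' i : ℤ), -(v' : ℤ)) ^ (g₀ : ℤ) * φ w = φ u := by
    have h1 : t3aChi G Q (fun i => (e' i : ℤ), -(v' : ℤ)) ^ (g₀ : ℤ) *
        t3aChi G Q (0, (v : ℤ)) = t3aChi G Q (fun i => (e i : ℤ), ((0 : ℕ) : ℤ)) := by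
      rw [← t3a_zsmul, ← t3a_add]
      congr 1
      refine Prod.ext ?_ ?_
      · funext i
        simp [hee i]
      · simp [hvv]
    have h2 : t3aChi G Q (0, (v : ℤ)) = φ (p ^ v) := by
      have := hmono (fun _ => 0) v
      simp only [pow_zero, Finset.prod_const_one, one_mul, Nat.cast_zero] at this
      exact this
    rw [h2, hmono, pow_zero, mul_one] at h1
    have h3 : φ w * φ (∏ i, γ i ^ e i) = φ u * φ (p ^ v) := by
      rw [← map_mul, heq, map_mul]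
    have h4 : φ (p ^ v) ≠ 0 := hne _ (pow_ne_zero _ hp)
    apply mul_right_cancel₀ h4
    rw [← h3, ← h1]
    ring
  have hpow : ∀ x : FractionRing D, x ^ g₀ ∈ V → x ∈ V := by
    intro x hx
    rcases V.mem_or_inv_mem x with h | h
    · exact h
    · by_cases h0 : x = 0
      · rw [h0]; exact zero_mem _
      · have h1 : x = x ^ g₀ * x⁻¹ ^ (g₀ - 1) := by
          obtain ⟨k, rfl⟩ : ∃ k, g₀ = k + 1 := ⟨g₀ - 1, by omega⟩
          rw [Nat.add_sub_cancel, pow_succ, inv_pow]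
          field_simp
        rw [h1]
        exact mul_mem hx (pow_mem h _)
  obtain ⟨w', hw'⟩ := hw.exists_right_inv
  obtain ⟨u', hu'⟩ := hu.exists_right_inv
  have hφw : φ w * φ w' = 1 := by rw [← map_mul, hw', map_one]
  have hφu : φ u * φ u' = 1 := by rw [← map_mul, hu', map_one]
  set Wx := t3aChi G Q (fun i => (e' i : ℤ), -(v' : ℤ)) with hWx
  have hWx0 : Wx ≠ 0 := t3a_ne G Q _
  have hWx1 : Wx ∈ V := by
    apply hpow
    have h1 : Wx ^ g₀ = φ (u * w') := by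
      rw [map_mul, ← hWg, zpow_natCast, mul_assoc, hφw, mul_one]
    rw [h1]
    exact hVm _
  have hWx2 : Wx⁻¹ ∈ V := by
    apply hpow
    have h1 : Wx⁻¹ ^ g₀ = φ (w * u') := by
      rw [inv_pow, map_mul]
      have h2 : Wx ^ g₀ ≠ 0 := pow_ne_zero _ hWx0
      apply mul_left_cancel₀ h2
      rw [mul_inv_cancel₀ h2, ← mul_assoc, ← zpow_natCast, hWg, hφu]
    rw [h1]
    exact hVm _
  -- the chart
  obtain ⟨t, ht, htB⟩ := h𝒢 {l | t3aChi G Q l ∈ V}
    { zero := by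
        show t3aChi G Q 0 ∈ V
        rw [t3a_zero]
        exact one_mem _
      add := by
        intro x hx y hy
        show t3aChi G Q (x + y) ∈ V
        rw [t3a_add]
        exact mul_mem hx hy
      total := by
        intro x
        rcases V.mem_or_inv_mem (t3aChi G Q x) with h | h
        · exact Or.inl h
        · right
          show t3aChi G Q (-x) ∈ V
          rw [t3a_neg]
          exact h }
    (by
      intro i
      show t3aChi G Q (Pi.single i 1, 0) ∈ V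
      have h1 : t3aChi G Q (Pi.single i 1, 0) = φ (γ i) := by
        rw [t3a_def]
        simp only [zpow_zero, mul_one]
        rw [Finset.prod_eq_single i]
        · simp [hG]
        · intro j _ hj
          simp [Pi.single_eq_of_ne hj]
        · simp
      rw [h1]
      exact hVm _)
    (by
      show t3aChi G Q (0, 1) ∈ V
      have h1 : t3aChi G Q (0, 1) = φ p := by
        rw [t3a_def]
        simp [hQ]
      rw [h1]
      exact hVm _)
    hWx1
    (by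
      show t3aChi G Q (fun i => -(e' i : ℤ), (v' : ℤ)) ∈ V
      have h1 : ((fun i => -(e' i : ℤ), (v' : ℤ)) : (Fin s → ℤ) × ℤ) =
          -(fun i => (e' i : ℤ), -(v' : ℤ)) := by
        refine Prod.ext ?_ ?_
        · funext i; simp
        · simp
      rw [h1, t3a_neg]
      exact hWx2)
  have htB' : ∀ ρ, t3aChi G Q (t.B ρ, t.B₀ ρ) ∈ V := htB
  have hWz : ∀ k : ℤ, Wx ^ k ∈ V := by
    intro k
    obtain ⟨m, rfl | rfl⟩ := k.eq_nat_or_neg
    · rw [zpow_natCast]; exact pow_mem hWx1 _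
    · rw [zpow_neg, zpow_natCast, ← inv_pow]; exact pow_mem hWx2 _
  -- quotients of monomials
  have hquot : ∀ (ν : (Fin s → ℕ) × ℕ) (n : Fin s → ℤ) (k : ℤ),
      (∀ i, (ν.1 i : ℤ) - t.μ i = ∑ ρ, n ρ * t.B ρ i + k * e' i) →
      ((ν.2 : ℤ) - t.μ₀ = ∑ ρ, n ρ * t.B₀ ρ - k * v') →
      φ ((∏ i, γ i ^ ν.1 i) * p ^ ν.2) = φ ((∏ i, γ i ^ t.μ i) * p ^ t.μ₀) *
        ((∏ ρ, t3aChi G Q (t.B ρ, t.B₀ ρ) ^ n ρ) * Wx ^ k) := by
    intro ν n k h1 h2
    rw [← t3a_comb G Q t.B t.B₀ e' v' n k, ← hmono, ← hmono, ← t3a_add]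
    congr 1
    refine Prod.ext ?_ ?_
    · funext i
      simp only [Prod.fst_add, Pi.add_apply]
      rw [← h1 i]
      ring
    · simp only [Prod.snd_add]
      rw [← h2]
      ring
  obtain ⟨ω, hω⟩ := hb1 _ ht.mem₀
  simp only at hω
  have hmu0 : (∏ i, γ i ^ t.μ i) * p ^ t.μ₀ ≠ 0 :=
    mul_ne_zero (Finset.prod_ne_zero_iff.mpr fun i _ => pow_ne_zero _ (hγ i)) (pow_ne_zero _ hp)
  have hω0 : ω ≠ 0 := by
    intro h0
    rw [h0, mul_zero] at hω
    exact hmu0 hω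
  have hφμ : φ ((∏ i, γ i ^ t.μ i) * p ^ t.μ₀) = φ b * φ ω := by rw [hω, map_mul]
  have hφμ0 : φ ((∏ i, γ i ^ t.μ i) * p ^ t.μ₀) ≠ 0 := hne _ hmu0
  have hφb0 : φ b ≠ 0 := hne _ hb0
  have hφω0 : φ ω ≠ 0 := hne _ hω0
  have hωu : IsUnit ω := by
    refine hVu ω ?_ hφω0
    have key : ∀ z ∈ Ideal.span {x | ∃ ν ∈ 𝒢, x = (∏ i, γ i ^ ν.1 i) * p ^ ν.2},
        φ z * (φ ((∏ i, γ i ^ t.μ i) * p ^ t.μ₀))⁻¹ ∈ V := by
      intro z hz
      refine Submodule.span_induction (p := fun z _ =>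
        φ z * (φ ((∏ i, γ i ^ t.μ i) * p ^ t.μ₀))⁻¹ ∈ V) ?_ ?_ ?_ ?_ hz
      · rintro _ ⟨ν, hν, rfl⟩
        obtain ⟨n, k, h1, h2⟩ := ht.ge ν hν
        rw [hquot ν (fun ρ => (n ρ : ℤ)) k h1 h2, mul_comm, ← mul_assoc, inv_mul_cancel₀ hφμ0,
          one_mul]
        refine mul_mem (prod_mem fun ρ _ => ?_) (hWz k)
        rw [zpow_natCast]
        exact pow_mem (htB' ρ) _
      · rw [map_zero, zero_mul]; exact zero_mem _
      · intro x y _ _ hx hy
        rw [map_add, add_mul]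
        exact add_mem hx hy
      · intro a x _ hx
        rw [smul_eq_mul, map_mul, mul_assoc]
        exact mul_mem (hVm a) hx
    have h1 := key b hb2
    have h2 : φ b * (φ ((∏ i, γ i ^ t.μ i) * p ^ t.μ₀))⁻¹ = (φ ω)⁻¹ := by
      rw [hφμ, mul_inv, ← mul_assoc, mul_inv_cancel₀ hφb0, one_mul]
    rwa [h2] at h1
  obtain ⟨ω', hω'⟩ := hωu.exists_right_inv
  have hφωω' : φ ω * φ ω' = 1 := by rw [← map_mul, hω', map_one]
  -- quotients in D
  have hdiv : ∀ ν ∈ 𝒢, ∃ d : D, φ ((∏ i, γ i ^ ν.1 i) * p ^ ν.2) =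
      φ ((∏ i, γ i ^ t.μ i) * p ^ t.μ₀) * φ d := by
    intro ν hν
    obtain ⟨d, hd⟩ := hb1 ν hν
    refine ⟨d * ω', ?_⟩
    rw [hφμ, hd, map_mul, map_mul]
    calc φ b * φ d = φ b * (φ ω * φ ω') * φ d := by rw [hφωω', mul_one]
      _ = _ := by ring
  obtain ⟨W, hW⟩ : ∃ W : D, φ W = Wx := by
    obtain ⟨ν, hν, h1, h2⟩ := ht.mem₂
    obtain ⟨d, hd⟩ := hdiv ν hν
    refine ⟨d, ?_⟩
    have h3 := hquot ν (fun _ => 0) 1 (by
      intro i
      rw [h1 i]
      simp) (by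
      have : (ν.2 : ℤ) + v' = t.μ₀ := by exact_mod_cast h2
      simp
      linarith)
    rw [hd] at h3
    have h4 := mul_left_cancel₀ hφμ0 h3
    rw [h4]
    simp
  have hWg' : w * W ^ g₀ = u := by
    apply hinj
    rw [map_mul, map_pow, hW, ← hWg, zpow_natCast, mul_comm]
  have hWu : IsUnit W := by
    have h1 : IsUnit (w * W ^ g₀) := by rw [hWg']; exact hu
    exact (isUnit_pow_iff hg₀.ne').mp (isUnit_of_mul_isUnit_right h1)
  obtain ⟨Wu, hWu'⟩ := hWu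
  have hWk : ∀ k : ℤ, φ (((Wu ^ k : Dˣ) : D)) = Wx ^ k := by
    intro k
    have h1 : ((Units.map (φ : D →* FractionRing D) (Wu ^ k) : (FractionRing D)ˣ) : FractionRing D) =
        φ (((Wu ^ k : Dˣ) : D)) := rfl
    rw [← h1, map_zpow, Units.val_zpow_eq_zpow_val]
    congr 1
    show φ (Wu : D) = Wx
    rw [hWu', hW]
  have hy : ∀ ρ, ∃ y : D, φ y = t3aChi G Q (t.B ρ, t.B₀ ρ) := by
    intro ρ
    obtain ⟨ν, hν, k, h1, h2⟩ := ht.mem₁ ρ
    obtain ⟨d, hd⟩ := hdiv ν hν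
    refine ⟨d * ((Wu ^ (-k) : Dˣ) : D), ?_⟩
    have h3 := hquot ν (Pi.single ρ 1) k (by
      intro i
      rw [h1 i, Finset.sum_eq_single ρ]
      · simp; ring
      · intro j _ hj
        simp [Pi.single_eq_of_ne hj]
      · simp) (by
      rw [h2, Finset.sum_eq_single ρ]
      · simp; ring
      · intro j _ hj
        simp [Pi.single_eq_of_ne hj]
      · simp)
    rw [hd] at h3
    have h4 := mul_left_cancel₀ hφμ0 h3
    rw [map_mul, hWk, h4, mul_assoc, ← zpow_add₀ hWx0, add_neg_cancel, zpow_zero, mul_one,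
      Finset.prod_eq_single ρ]
    · simp
    · intro j _ hj
      simp [Pi.single_eq_of_ne hj]
    · simp
  choose y hy using hy
  refine ⟨t, y, W, ω, ht, ⟨Wu, hWu'⟩, hωu, hWg', ?_, ?_, hω⟩
  · intro i
    apply hinj
    have h1 := t3a_comb G Q t.B t.B₀ e' v' (fun ρ => (t.A ρ i : ℤ)) (t.c i)
    have h2 : ((fun j => ∑ ρ, (t.A ρ i : ℤ) * t.B ρ j + (t.c i : ℤ) * e' j,
        ∑ ρ, (t.A ρ i : ℤ) * t.B₀ ρ - (t.c i : ℤ) * v') : (Fin s → ℤ) × ℤ) =
        (fun j => ((Pi.single i 1 : Fin s → ℕ) j : ℤ), ((0 : ℕ) : ℤ)) := by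
      refine Prod.ext ?_ ?_
      · funext j
        simp only
        rw [ht.inv₁ i j]
        by_cases h : i = j
        · subst h; simp
        · rw [if_neg h, Pi.single_eq_of_ne (Ne.symm h)]; simp
      · simp only
        rw [ht.inv₂ i]; simp
    rw [h2, hmono] at h1
    have h3 : (∏ j, γ j ^ (Pi.single i 1 : Fin s → ℕ) j) * p ^ 0 = γ i := by
      rw [pow_zero, mul_one, Finset.prod_eq_single i]
      · simp
      · intro j _ hj
        simp [Pi.single_eq_of_ne hj]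
      · simp
    rw [h3] at h1
    rw [h1, map_mul, map_pow, hW, map_prod, mul_comm]
    simp only [map_pow, hy, zpow_natCast]
    rfl
  · apply hinj
    have h1 := t3a_comb G Q t.B t.B₀ e' v' (fun ρ => (t.β ρ : ℤ)) (t.c₀)
    have h2 : ((fun j => ∑ ρ, (t.β ρ : ℤ) * t.B ρ j + (t.c₀ : ℤ) * e' j,
        ∑ ρ, (t.β ρ : ℤ) * t.B₀ ρ - (t.c₀ : ℤ) * v') : (Fin s → ℤ) × ℤ) =
        (fun j => (((fun _ => 0 : Fin s → ℕ)) j : ℤ), ((1 : ℕ) : ℤ)) := by
      refine Prod.ext ?_ ?_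
      · funext j
        simp only
        rw [ht.inv₃ j]; simp
      · simp only
        rw [ht.inv₄]; simp
    rw [h2, hmono] at h1
    have h3 : (∏ j, γ j ^ ((fun _ => 0 : Fin s → ℕ)) j) * p ^ 1 = p := by simp
    rw [h3] at h1
    rw [h1, map_mul, map_pow, hW, map_prod, mul_comm]
    simp only [map_pow, hy, zpow_natCast]
    rfl

end Pool.Agent.Lib.MP_6a3dac_ag.Tor
end

section

/-!
# Independence of the equations of a toric chart
-/

set_option autoImplicit false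

namespace Pool.Agent.Lib.MP_6a3dac_ag.Tor

open MvPolynomial
open Pool.Agent.Lib.MP_6a3dac_ag.DNF Pool.Agent.Lib.MP_6a3dac_ag.Bert
open Pool.Agent.Lib.MP_6a3dac_ag.Fam

section General

variable {R B : Type} [CommRing R] [CommRing B] [Algebra R B]

/-- A derivation maps the square of an ideal to the ideal. -/
theorem t3b_mem (δ : Derivation R B B) {N : Ideal B} {x : B} (hx : x ∈ N ^ 2) : δ x ∈ N := by
  rw [pow_two] at hx
  induction hx using Submodule.mul_induction_on' with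
  | mem_mul_mem a ha b hb =>
    rw [Derivation.leibniz, smul_eq_mul, smul_eq_mul]
    exact N.add_mem (Ideal.mul_mem_right _ _ ha) (Ideal.mul_mem_right _ _ hb)
  | add a _ b _ ha hb =>
    rw [map_add]
    exact N.add_mem ha hb

/-- A derivation which kills the variables kills the monomials. -/
theorem t3b_mono_zero (δ : Derivation R B B) {τ : Type} (T : Finset τ) (Y : τ → B) (n : τ → ℕ)
    (h : ∀ ρ ∈ T, δ (Y ρ) = 0) : δ (∏ ρ ∈ T, Y ρ ^ n ρ) = 0 := by
  classical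
  induction T using Finset.induction_on with
  | empty => rw [Finset.prod_empty, Derivation.map_one_eq_zero]
  | insert a T ha ih =>
    rw [Finset.prod_insert ha, Derivation.leibniz, ih fun ρ hρ => h ρ (Finset.mem_insert_of_mem hρ),
      Derivation.leibniz_pow, h a (Finset.mem_insert_self a T)]
    simp

/-- The logarithmic derivative of a power. -/
theorem t3b_pow (δ : Derivation R B B) {Y : B} (n : ℕ) (h : δ Y = 1) :
    Y * δ (Y ^ n) = n * Y ^ n := by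
  rw [Derivation.leibniz_pow, h]
  simp only [smul_eq_mul, nsmul_eq_mul, mul_one]
  rcases Nat.eq_zero_or_pos n with h0 | h0
  · rw [h0]
    simp
  · obtain ⟨k, hk⟩ := Nat.exists_eq_add_of_lt h0
    rw [hk]
    simp only [zero_add, Nat.add_sub_cancel]
    ring

/-- The logarithmic derivatives of the monomials. -/
theorem t3b_mono (δ : Derivation R B B) {τ : Type} [Fintype τ] [DecidableEq τ] (Y : τ → B)
    (n : τ → ℕ) (ρ : τ) (h : ∀ ρ', δ (Y ρ') = if ρ' = ρ then 1 else 0) :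
    Y ρ * δ (∏ ρ', Y ρ' ^ n ρ') = n ρ * ∏ ρ', Y ρ' ^ n ρ' := by
  have h1 := t3b_pow δ (n ρ) (show δ (Y ρ) = 1 by rw [h, if_pos rfl])
  rw [← Finset.mul_prod_erase Finset.univ _ (Finset.mem_univ ρ), Derivation.leibniz,
    t3b_mono_zero δ _ Y n fun ρ' hρ' => by rw [h, if_neg (Finset.ne_of_mem_erase hρ')]]
  simp only [smul_eq_mul, mul_zero, zero_add]
  linear_combination (∏ x ∈ Finset.univ.erase ρ, Y x ^ n x) * h1

/-- A square system with a determinant outside of a prime ideal. -/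
theorem t3b_solve {N : Ideal B} (hN : N.IsPrime) {τ : Type} [Fintype τ] [DecidableEq τ]
    (M : Matrix τ τ B) (hM : M.det ∉ N) (a : τ → B) (h : ∀ k, ∑ i, a i * M k i ∈ N) (i : τ) :
    a i ∈ N := by
  have h1 : M.det * a i = ∑ k, M.adjugate i k * ∑ j, a j * M k j := by
    have h2 : (M.adjugate * M).mulVec a i = M.det * a i := by
      rw [Matrix.adjugate_mul, Matrix.smul_mulVec, Matrix.one_mulVec]
      rfl
    rw [← h2, ← Matrix.mulVec_mulVec]
    simp only [Matrix.mulVec, dotProduct]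
    refine Finset.sum_congr rfl fun k _ => ?_
    congr 1
    exact Finset.sum_congr rfl fun j _ => mul_comm _ _
  have h3 : M.det * a i ∈ N := by
    rw [h1]
    exact Ideal.sum_mem _ fun k _ => Ideal.mul_mem_left _ _ (h k)
  exact (hN.mem_or_mem h3).resolve_left hM

end General

/-- TASK T3b1: the linear algebra. Over a field `κ` in which the `e i` are not zero, the columns
`i ∉ I` of the matrix of the chart together with the last vector are independent. -/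
theorem TChart.IsFor.indep {s : ℕ} {t : TChart s} {e : Fin s → ℕ} {v : ℕ}
    {𝒢 : Finset ((Fin s → ℕ) × ℕ)}
    (ht : t.IsFor e v 𝒢) {A : Type} [CommRing A] {Q : Ideal A} (hQ : Q.IsPrime)
    (he : ∀ i, (e i : A) ∉ Q) {I : Finset (Fin s)} (hI : I.Nonempty) (l : Fin s → A)
    (hl : ∀ i ∈ I, l i ∈ Q) (h1 : ∀ ρ, ∑ i, l i * (t.A ρ i : A) ∈ Q) {l₀ : A} {g₀ : ℕ}
    (hg₀ : (g₀ : A) ∉ Q) (h2 : ∑ i, l i * (t.c i : A) + l₀ * g₀ ∈ Q) :
    (∀ i, l i ∈ Q) ∧ l₀ ∈ Q := by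
  classical
  obtain ⟨c, hc⟩ : ∃ c : A, c = ∑ i, l i * (t.c i : A) := ⟨_, rfl⟩
  have hkey : ∀ j, l j - c * (e j : A) ∈ Q := by
    intro j
    have h3 : l j - c * (e j : A) = ∑ ρ, ((t.B ρ j : ℤ) : A) * ∑ i, l i * (t.A ρ i : A) := by
      have h4 : ∀ i, ∑ ρ, (t.A ρ i : A) * ((t.B ρ j : ℤ) : A) + (t.c i : A) * (e j : A) =
          if i = j then 1 else 0 := by
        intro i
        have h5 := congrArg (Int.cast : ℤ → A) (ht.inv₁ i j)
        push_cast at h5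
        rw [h5]
      have h6 : l j = ∑ i, (if i = j then 1 else 0) * l i := by
        simp
      rw [h6, hc]
      simp only [← h4, add_mul, Finset.sum_add_distrib, Finset.mul_sum, Finset.sum_mul]
      rw [Finset.sum_comm]
      have h7 : ∑ i, (t.c i : A) * (e j : A) * l i = ∑ i, l i * (t.c i : A) * (e j : A) :=
        Finset.sum_congr rfl fun i _ => by ring
      rw [h7, add_sub_cancel_right]
      exact Finset.sum_congr rfl fun ρ _ => Finset.sum_congr rfl fun i _ => by ring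
    rw [h3]
    exact Ideal.sum_mem _ fun ρ _ => Q.mul_mem_left _ (h1 ρ)
  obtain ⟨j, hj⟩ := hI
  have hcQ : c ∈ Q := by
    have h3 := Q.sub_mem (hl j hj) (hkey j)
    rw [sub_sub_cancel] at h3
    exact (hQ.mem_or_mem h3).resolve_right (he j)
  refine ⟨fun i => ?_, ?_⟩
  · have h3 := Q.add_mem (hkey i) (Q.mul_mem_right (e i : A) hcQ)
    rwa [sub_add_cancel] at h3
  · rw [← hc] at h2
    exact (hQ.mem_or_mem ((Ideal.add_mem_iff_right _ hcQ).1 h2)).resolve_right hg₀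

section Main

variable {R B : Type} [CommRing R] [CommRing B] [Algebra R B] {s v : ℕ} {e : Fin s → ℕ}
  {𝒢 : Finset ((Fin s → ℕ) × ℕ)}

/-- **The equations of a chart are independent.** -/
theorem t3b_indep {t : TChart s} (ht : t.IsFor e v 𝒢) {N : Ideal B} (hN : N.IsPrime)
    (g Y : Fin s → B) (ϖ w u W : B) {g₀ : ℕ}
    (hw : w ∉ N) (hW : W ∉ N) (he : ∀ i, (e i : B) ∉ N) (hg₀ : (g₀ : B) ∉ N) (hϖ : ϖ ∈ N)
    (hsq : ∀ a, a * ϖ ∈ N ^ 2 → a ∈ N)
    (hr : ∀ i, g i - W ^ t.c i * ∏ ρ, Y ρ ^ t.A ρ i ∈ N)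
    (hr₀ : ϖ - W ^ t.c₀ * ∏ ρ, Y ρ ^ t.β ρ ∈ N) (hr₁ : w * W ^ g₀ - u ∈ N)
    -- the derivations with respect to the new variables
    (d : Fin s → Derivation R B B) (dY : ∀ ρ ρ', d ρ (Y ρ') = if ρ' = ρ then 1 else 0)
    (dg : ∀ ρ i, d ρ (g i) = 0) (dϖ : ∀ ρ, d ρ ϖ = 0) (dw : ∀ ρ, d ρ w = 0) (du : ∀ ρ, d ρ u = 0)
    (dW : ∀ ρ, d ρ W = 0)
    (dd : Derivation R B B) (ddY : ∀ ρ, dd (Y ρ) = 0) (ddg : ∀ i, dd (g i) = 0) (ddϖ : dd ϖ = 0)
    (ddw : dd w = 0) (ddu : dd u = 0) (ddW : dd W = 1)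
    -- the derivations with respect to the `g i` which vanish
    {I : Finset (Fin s)} (hI : ∀ i, i ∈ I ↔ g i ∈ N) (hIne : I.Nonempty)
    (D : I → Derivation R B B)
    (DY : ∀ k ρ, D k (Y ρ) = 0) (Dϖ : ∀ k, D k ϖ = 0) (DW : ∀ k, D k W = 0)
    (hD : (Matrix.of fun k i : I => D k (g i)).det ∉ N)
    -- the further equations
    {τ : Type} [Fintype τ] [DecidableEq τ] (G : τ → B) (hG : ∀ κ, G κ ∈ N)
    (dG : ∀ ρ κ, d ρ (G κ) = 0) (ddG : ∀ κ, dd (G κ) = 0) (DG : ∀ k κ, D k (G κ) = 0)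
    (D' : τ → Derivation R B B)
    (DY' : ∀ l ρ, D' l (Y ρ) = 0) (Dϖ' : ∀ l, D' l ϖ = 0) (DW' : ∀ l, D' l W = 0)
    (hD' : (Matrix.of fun l κ : τ => D' l (G κ)).det ∉ N)
    (b : τ → B) (a : Fin s → B) (a₀ a₁ : B)
    (h : ∑ κ, b κ * G κ + (∑ i, a i * (g i - W ^ t.c i * ∏ ρ, Y ρ ^ t.A ρ i) +
      (a₀ * (ϖ - W ^ t.c₀ * ∏ ρ, Y ρ ^ t.β ρ) + a₁ * (w * W ^ g₀ - u))) ∈ N ^ 2) :
    (∀ κ, b κ ∈ N) ∧ (∀ i, a i ∈ N) ∧ a₀ ∈ N ∧ a₁ ∈ N := by
  classical
  obtain ⟨M, hM⟩ : ∃ M : Fin s → B, ∀ i, M i = ∏ ρ, Y ρ ^ t.A ρ i := ⟨_, fun _ => rfl⟩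
  obtain ⟨M₀, hM₀⟩ : ∃ M₀ : B, M₀ = ∏ ρ, Y ρ ^ t.β ρ := ⟨_, rfl⟩
  simp only [← hM, ← hM₀] at hr hr₀ h
  have hWp : ∀ k, W ^ k ∉ N := fun k hk => hW (hN.mem_of_pow_mem k hk)
  have hMg : ∀ i, M i ∈ N ↔ g i ∈ N := by
    intro i
    constructor
    · intro h1
      have h3 := N.add_mem (hr i) (N.mul_mem_left (W ^ t.c i) h1)
      rwa [sub_add_cancel] at h3
    · intro h1
      have h3 := N.sub_mem h1 (hr i)
      rw [sub_sub_cancel] at h3
      exact (hN.mem_or_mem h3).resolve_left (hWp _)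
  have hM₀N : M₀ ∈ N := by
    have h3 := N.sub_mem hϖ hr₀
    rw [sub_sub_cancel] at h3
    exact (hN.mem_or_mem h3).resolve_left (hWp _)
  -- a derivation applied to the relation
  have key : ∀ δ : Derivation R B B,
      ∑ κ, b κ * δ (G κ) + (∑ i, a i * δ (g i - W ^ t.c i * M i) +
        (a₀ * δ (ϖ - W ^ t.c₀ * M₀) + a₁ * δ (w * W ^ g₀ - u))) ∈ N := by
    intro δ
    have h1 := t3b_mem δ h
    have h2 : δ (∑ κ, b κ * G κ + (∑ i, a i * (g i - W ^ t.c i * M i) +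
        (a₀ * (ϖ - W ^ t.c₀ * M₀) + a₁ * (w * W ^ g₀ - u)))) =
        (∑ κ, b κ * δ (G κ) + (∑ i, a i * δ (g i - W ^ t.c i * M i) +
        (a₀ * δ (ϖ - W ^ t.c₀ * M₀) + a₁ * δ (w * W ^ g₀ - u)))) +
        (∑ κ, G κ * δ (b κ) + (∑ i, (g i - W ^ t.c i * M i) * δ (a i) +
        ((ϖ - W ^ t.c₀ * M₀) * δ a₀ + (w * W ^ g₀ - u) * δ a₁))) := by
      rw [map_add, map_add, map_add, map_sum, map_sum, Derivation.leibniz δ a₀,
        Derivation.leibniz δ a₁, smul_eq_mul, smul_eq_mul, smul_eq_mul, smul_eq_mul]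
      simp only [fun κ => Derivation.leibniz δ (b κ) (G κ),
        fun i => Derivation.leibniz δ (a i) (g i - W ^ t.c i * M i), smul_eq_mul,
        Finset.sum_add_distrib]
      ring
    rw [h2] at h1
    refine (Ideal.add_mem_iff_left _ ?_).1 h1
    exact N.add_mem (Ideal.sum_mem _ fun κ _ => Ideal.mul_mem_right _ _ (hG κ))
      (N.add_mem (Ideal.sum_mem _ fun i _ => Ideal.mul_mem_right _ _ (hr i))
        (N.add_mem (Ideal.mul_mem_right _ _ hr₀) (Ideal.mul_mem_right _ _ hr₁)))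
  -- the coefficients of the equations for the units `g i` and of the equation for `W`
  have hA : ∀ ρ, ∑ i, a i * (W ^ t.c i * M i) * (t.A ρ i : B) ∈ N := by
    intro ρ
    have h2 := N.mul_mem_left (Y ρ) (key (d ρ))
    have h3 : ∀ i, Y ρ * d ρ (g i - W ^ t.c i * M i) = -(W ^ t.c i * M i * (t.A ρ i : B)) := by
      intro i
      rw [map_sub, Derivation.leibniz, Derivation.leibniz_pow, dg, dW]
      simp only [smul_eq_mul, smul_zero, mul_zero, add_zero, zero_sub]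
      have h4 := t3b_mono (d ρ) Y (fun ρ' => t.A ρ' i) ρ (dY ρ)
      rw [← hM] at h4
      linear_combination -(W ^ t.c i) * h4
    have h5 : Y ρ * d ρ (ϖ - W ^ t.c₀ * M₀) = -((t.β ρ : B) * (W ^ t.c₀ * M₀)) := by
      rw [map_sub, Derivation.leibniz, Derivation.leibniz_pow, dϖ, dW]
      simp only [smul_eq_mul, smul_zero, mul_zero, add_zero, zero_sub]
      have h4 := t3b_mono (d ρ) Y t.β ρ (dY ρ)
      rw [← hM₀] at h4
      linear_combination -(W ^ t.c₀) * h4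
    have h5' : d ρ (w * W ^ g₀ - u) = 0 := by
      rw [map_sub, Derivation.leibniz, Derivation.leibniz_pow, dw, dW, du]
      simp
    have h6 : Y ρ * (∑ κ, b κ * d ρ (G κ) + (∑ i, a i * d ρ (g i - W ^ t.c i * M i) +
        (a₀ * d ρ (ϖ - W ^ t.c₀ * M₀) + a₁ * d ρ (w * W ^ g₀ - u)))) =
        -(∑ i, a i * (W ^ t.c i * M i) * (t.A ρ i : B)) - a₀ * (t.β ρ : B) * W ^ t.c₀ * M₀ := by
      have h7 : ∑ κ, b κ * d ρ (G κ) = 0 := Finset.sum_eq_zero fun κ _ => by rw [dG, mul_zero]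
      rw [h7, h5', zero_add, mul_zero, add_zero, mul_add, Finset.mul_sum]
      have h8 : ∀ i, Y ρ * (a i * d ρ (g i - W ^ t.c i * M i)) =
          -(a i * (W ^ t.c i * M i) * (t.A ρ i : B)) := fun i => by
        linear_combination a i * h3 i
      simp only [h8, Finset.sum_neg_distrib]
      linear_combination a₀ * h5
    rw [h6] at h2
    have h9 := N.add_mem h2 (N.mul_mem_left (a₀ * (t.β ρ : B) * W ^ t.c₀) hM₀N)
    rw [sub_add_cancel] at h9
    exact neg_mem_iff.1 h9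
  have hC : ∑ i, a i * (W ^ t.c i * M i) * (t.c i : B) + -(a₁ * (w * W ^ g₀)) * (g₀ : B) ∈ N := by
    have hddM : ∀ i, dd (M i) = 0 := fun i => by
      rw [hM]
      exact t3b_mono_zero _ _ _ _ fun ρ _ => ddY ρ
    have hddM₀ : dd M₀ = 0 := by
      rw [hM₀]
      exact t3b_mono_zero _ _ _ _ fun ρ _ => ddY ρ
    have h2 := N.mul_mem_left W (key dd)
    have h3 : ∀ i, W * dd (g i - W ^ t.c i * M i) = -(W ^ t.c i * M i * (t.c i : B)) := by
      intro i
      rw [map_sub, Derivation.leibniz, hddM, ddg]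
      simp only [smul_eq_mul, mul_zero, zero_add, zero_sub]
      linear_combination -(M i) * t3b_pow dd (t.c i) ddW
    have h5 : W * dd (ϖ - W ^ t.c₀ * M₀) = -((t.c₀ : B) * W ^ t.c₀ * M₀) := by
      rw [map_sub, Derivation.leibniz, hddM₀, ddϖ]
      simp only [smul_eq_mul, mul_zero, zero_add, zero_sub]
      linear_combination -M₀ * t3b_pow dd t.c₀ ddW
    have h5' : W * dd (w * W ^ g₀ - u) = w * W ^ g₀ * g₀ := by
      rw [map_sub, Derivation.leibniz, ddw, ddu]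
      simp only [smul_eq_mul, mul_zero, add_zero, sub_zero]
      linear_combination w * t3b_pow dd g₀ ddW
    have h6 : W * (∑ κ, b κ * dd (G κ) + (∑ i, a i * dd (g i - W ^ t.c i * M i) +
        (a₀ * dd (ϖ - W ^ t.c₀ * M₀) + a₁ * dd (w * W ^ g₀ - u)))) =
        -(∑ i, a i * (W ^ t.c i * M i) * (t.c i : B) + -(a₁ * (w * W ^ g₀)) * (g₀ : B)) -
          a₀ * (t.c₀ : B) * W ^ t.c₀ * M₀ := by
      have h7 : ∑ κ, b κ * dd (G κ) = 0 := Finset.sum_eq_zero fun κ _ => by rw [ddG, mul_zero]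
      rw [h7, zero_add, mul_add, Finset.mul_sum]
      have h8 : ∀ i, W * (a i * dd (g i - W ^ t.c i * M i)) =
          -(a i * (W ^ t.c i * M i) * (t.c i : B)) := fun i => by
        linear_combination a i * h3 i
      simp only [h8, Finset.sum_neg_distrib]
      linear_combination a₀ * h5 + a₁ * h5'
    rw [h6] at h2
    have h9 := N.add_mem h2 (N.mul_mem_left (a₀ * (t.c₀ : B) * W ^ t.c₀) hM₀N)
    rw [sub_add_cancel] at h9
    exact neg_mem_iff.1 h9
  obtain ⟨hl, hl₀⟩ := ht.indep hN he hIne (fun i => a i * (W ^ t.c i * M i))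
    (fun i hi => N.mul_mem_left _ (N.mul_mem_left _ ((hMg i).2 ((hI i).1 hi)))) hA hg₀ hC
  have ha₁ : a₁ ∈ N := by
    rw [neg_mem_iff] at hl₀
    refine (hN.mem_or_mem hl₀).resolve_right fun h6 => ?_
    rcases hN.mem_or_mem h6 with h7 | h7
    · exact hw h7
    · exact hWp _ h7
  have ha1 : ∀ i, i ∉ I → a i ∈ N := by
    intro i hi
    rcases hN.mem_or_mem (hl i) with h1 | h1
    · exact h1
    · rcases hN.mem_or_mem h1 with h2 | h2
      · exact absurd h2 (hWp _)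
      · exact absurd ((hI i).2 ((hMg i).1 h2)) hi
  -- the coefficients of the equations for the `g i` which vanish
  have hDM : ∀ k i, D k (W ^ t.c i * M i) = 0 := fun k i => by
    rw [Derivation.leibniz, Derivation.leibniz_pow, DW, hM,
      t3b_mono_zero _ _ _ _ fun ρ _ => DY k ρ]
    simp
  have hDM₀ : ∀ k, D k (W ^ t.c₀ * M₀) = 0 := fun k => by
    rw [Derivation.leibniz, Derivation.leibniz_pow, DW, hM₀,
      t3b_mono_zero _ _ _ _ fun ρ _ => DY k ρ]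
    simp
  have ha2 : ∀ i : I, a i ∈ N := by
    refine t3b_solve hN _ hD (fun i : I => a i) fun k => ?_
    have h1 := key (D k)
    have h2 : ∑ κ, b κ * D k (G κ) = 0 := Finset.sum_eq_zero fun κ _ => by rw [DG, mul_zero]
    have h3 : D k (ϖ - W ^ t.c₀ * M₀) = 0 := by rw [map_sub, Dϖ, hDM₀, sub_zero]
    have h4 : ∀ i, D k (g i - W ^ t.c i * M i) = D k (g i) := fun i => by
      rw [map_sub, hDM, sub_zero]
    rw [h2, h3, zero_add, mul_zero, zero_add] at h1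
    simp only [h4] at h1
    have h5 := (Ideal.add_mem_iff_left _ (N.mul_mem_right (D k (w * W ^ g₀ - u)) ha₁)).1 h1
    rw [← Finset.sum_add_sum_compl I] at h5
    have h6 : ∑ i ∈ Iᶜ, a i * D k (g i) ∈ N :=
      Ideal.sum_mem _ fun i hi => N.mul_mem_right _ (ha1 i (Finset.mem_compl.1 hi))
    have h7 := (Ideal.add_mem_iff_left _ h6).1 h5
    rw [← Finset.sum_coe_sort I] at h7
    exact h7
  have ha : ∀ i, a i ∈ N := by
    intro i
    by_cases hi : i ∈ I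
    · exact ha2 ⟨i, hi⟩
    · exact ha1 i hi
  -- the further equations
  have hDM' : ∀ k, D' k (W ^ t.c₀ * M₀) = 0 := fun k => by
    rw [Derivation.leibniz, Derivation.leibniz_pow, DW', hM₀,
      t3b_mono_zero _ _ _ _ fun ρ _ => DY' k ρ]
    simp
  have hb : ∀ κ, b κ ∈ N := by
    refine t3b_solve hN _ hD' b fun l => ?_
    have h1 := key (D' l)
    have h3 : D' l (ϖ - W ^ t.c₀ * M₀) = 0 := by rw [map_sub, Dϖ', hDM', sub_zero]
    have h2 : ∑ i, a i * D' l (g i - W ^ t.c i * M i) +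
        (a₀ * D' l (ϖ - W ^ t.c₀ * M₀) + a₁ * D' l (w * W ^ g₀ - u)) ∈ N := by
      rw [h3, mul_zero, zero_add]
      exact N.add_mem (Ideal.sum_mem _ fun i _ => N.mul_mem_right _ (ha i))
        (N.mul_mem_right _ ha₁)
    exact (Ideal.add_mem_iff_left _ h2).1 h1
  refine ⟨hb, ha, ?_, ha₁⟩
  -- the coefficient of the last equation
  have hmul : ∀ {x y : B}, x ∈ N → y ∈ N → x * y ∈ N ^ 2 := by
    intro x y hx hy
    rw [pow_two]
    exact Ideal.mul_mem_mul hx hy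
  have h1 : a₀ * (ϖ - W ^ t.c₀ * M₀) ∈ N ^ 2 := by
    have h2 : ∑ κ, b κ * G κ ∈ N ^ 2 := Ideal.sum_mem _ fun κ _ => hmul (hb κ) (hG κ)
    have h3 : ∑ i, a i * (g i - W ^ t.c i * M i) ∈ N ^ 2 :=
      Ideal.sum_mem _ fun i _ => hmul (ha i) (hr i)
    have h4 := (Ideal.add_mem_iff_right _ h2).1 h
    have h5 := (Ideal.add_mem_iff_right _ h3).1 h4
    exact (Ideal.add_mem_iff_left _ (hmul ha₁ hr₁)).1 h5
  by_cases hM2 : M₀ ∈ N ^ 2
  · have h2 : a₀ * ϖ ∈ N ^ 2 := by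
      have h3 := (N ^ 2).add_mem h1 ((N ^ 2).mul_mem_left (a₀ * W ^ t.c₀) hM2)
      have h4 : a₀ * (ϖ - W ^ t.c₀ * M₀) + a₀ * W ^ t.c₀ * M₀ = a₀ * ϖ := by ring
      rwa [h4] at h3
    exact hsq _ h2
  · obtain ⟨ρ₀, hρ₀⟩ : ∃ ρ, Y ρ ^ t.β ρ ∈ N := by
      rw [hM₀] at hM₀N
      obtain ⟨ρ, -, hρ⟩ := (hN.prod_mem_iff).1 hM₀N
      exact ⟨ρ, hρ⟩
    have hYρ := hN.mem_of_pow_mem _ hρ₀
    obtain ⟨M', hM'⟩ : ∃ M' : B, M₀ = Y ρ₀ * M' := by
      rw [hM₀]
      exact ((dvd_pow_self _ (ht.β_pos ρ₀).ne').trans (Finset.dvd_prod_of_mem _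
        (Finset.mem_univ ρ₀)))
    have hM'N : M' ∉ N := fun h2 => hM2 (by rw [hM']; exact hmul hYρ h2)
    have h2 := t3b_mem (d ρ₀) h1
    rw [Derivation.leibniz, map_sub, Derivation.leibniz, Derivation.leibniz_pow, dϖ, dW, hM',
      Derivation.leibniz, dY, if_pos rfl] at h2
    simp only [smul_eq_mul, smul_zero, mul_zero, add_zero, zero_sub, mul_one] at h2
    have h3 := N.sub_mem h2 (N.mul_mem_right (d ρ₀ a₀) (show ϖ - W ^ t.c₀ * (Y ρ₀ * M') ∈ N by
      rw [← hM']; exact hr₀))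
    rw [add_sub_cancel_right] at h3
    have h4 := N.add_mem h3 (N.mul_mem_left (a₀ * W ^ t.c₀ * d ρ₀ M') hYρ)
    have h5 : a₀ * -(W ^ t.c₀ * (Y ρ₀ * d ρ₀ M' + M')) + a₀ * W ^ t.c₀ * d ρ₀ M' * Y ρ₀ =
        -(a₀ * (W ^ t.c₀ * M')) := by ring
    rw [h5, neg_mem_iff] at h4
    refine (hN.mem_or_mem h4).resolve_right fun h6 => ?_
    rcases hN.mem_or_mem h6 with h7 | h7
    · exact hWp _ h7
    · exact hM'N h7

end Main

section Poly

variable {O σ : Type} [CommRing O] [DecidableEq σ] {s : ℕ}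

/-- The extension of a derivation to the toric chart. -/
noncomputable def upDer (δ : Derivation O (MvPolynomial σ O) (MvPolynomial σ O)) :
    Derivation O (MvPolynomial (σ ⊕ (Fin s ⊕ Unit)) O) (MvPolynomial (σ ⊕ (Fin s ⊕ Unit)) O) :=
  mkDerivation O (Sum.elim (fun l => up (δ (X l))) fun _ => 0)

omit [DecidableEq σ] in
theorem upDer_up (δ : Derivation O (MvPolynomial σ O) (MvPolynomial σ O))
    (f : MvPolynomial σ O) : upDer (s := s) δ (up f) = up (δ f) := by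
  have hX : ∀ l, (up (X l) : MvPolynomial (σ ⊕ (Fin s ⊕ Unit)) O) = X (Sum.inl l) :=
    fun l => rename_X _ _
  induction f using MvPolynomial.induction_on with
  | C a =>
    rw [show (up (C a) : MvPolynomial (σ ⊕ (Fin s ⊕ Unit)) O) = C a from rename_C _ _,
      derivation_C, derivation_C, map_zero]
  | add p q hp hq => rw [map_add, map_add, map_add, map_add, hp, hq]
  | mul_X p l hp =>
    rw [map_mul, Derivation.leibniz, hp, hX, Derivation.leibniz, map_add]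
    simp only [smul_eq_mul, map_mul, hX]
    congr 2
    rw [upDer, mkDerivation_X]
    rfl

omit [DecidableEq σ] in
theorem upDer_inr (δ : Derivation O (MvPolynomial σ O) (MvPolynomial σ O)) (j : Fin s ⊕ Unit) :
    upDer (s := s) δ (X (Sum.inr j)) = 0 := by
  rw [upDer, mkDerivation_X]
  rfl

omit [DecidableEq σ] in
theorem t3b_pderiv_up (j : Fin s ⊕ Unit) (f : MvPolynomial σ O) :
    pderiv (Sum.inr j) (up f : MvPolynomial (σ ⊕ (Fin s ⊕ Unit)) O) = 0 := by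
  have hX : ∀ l, (up (X l) : MvPolynomial (σ ⊕ (Fin s ⊕ Unit)) O) = X (Sum.inl l) :=
    fun l => rename_X _ _
  induction f using MvPolynomial.induction_on with
  | C a =>
    rw [show (up (C a) : MvPolynomial (σ ⊕ (Fin s ⊕ Unit)) O) = C a from rename_C _ _,
      derivation_C]
  | add p q hp hq => rw [map_add, map_add, hp, hq, add_zero]
  | mul_X p l hp =>
    rw [map_mul, Derivation.leibniz, hp, hX, pderiv_X_of_ne (by simp)]
    simp

end Poly

variable {O σ : Type} [CommRing O] [IsDomain O] [IsDiscreteValuationRing O] [DecidableEq σ]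
  [Fintype σ] {s : ℕ}

/-- TASK T3b2 -/
theorem torEqs_indep {U : Std O σ} {g : Fin s → MvPolynomial σ O} {w u : MvPolynomial σ O}
    {ϖ : O} (hϖ : Irreducible ϖ) {g₀ : ℕ} {t : TChart s} {e : Fin s → ℕ} {v : ℕ}
    {𝒢 : Finset ((Fin s → ℕ) × ℕ)} (ht : t.IsFor e v 𝒢)
    {Q : Ideal (MvPolynomial (σ ⊕ (Fin s ⊕ Unit)) O)} (hQ : Q.IsPrime) (hϖQ : C ϖ ∈ Q)
    (he : ∀ i, (e i : MvPolynomial (σ ⊕ (Fin s ⊕ Unit)) O) ∉ Q)
    (hg₀ : (g₀ : MvPolynomial (σ ⊕ (Fin s ⊕ Unit)) O) ∉ Q)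
    (hU : up U.h ∉ Q) (hw : up w ∉ Q) (hwv : wv ∉ Q)
    (heqs : ∀ k, torEqs U g w u ϖ g₀ t k ∈ Q) {I : Finset (Fin s)}
    (hI : ∀ i, i ∈ I ↔ up (g i) ∈ Q) (hIne : I.Nonempty) {κ : I → σ} (hκ : ∀ i, κ i ∈ U.T)
    (hdet : up (Matrix.of fun i i' : I => U.vf (κ i) (g i')).det ∉ Q)
    {z : MvPolynomial (σ ⊕ (Fin s ⊕ Unit)) O} (hz : z ∉ Q)
    (b : {l : σ // l ∉ U.T} ⊕ (Fin s ⊕ Bool) → MvPolynomial (σ ⊕ (Fin s ⊕ Unit)) O)
    (hb : z * ∑ k, b k * torEqs U g w u ϖ g₀ t k ∈ Q ^ 2) : ∀ k, b k ∈ Q := by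
  classical
  have hΔ : up U.Δ ∉ Q := fun h1 => hU (by
    rw [show U.h = U.s * U.Δ from rfl, map_mul]
    exact Q.mul_mem_left _ h1)
  have hr : ∀ i, up (g i) - wv ^ t.c i * ∏ ρ, yv ρ ^ t.A ρ i ∈ Q := fun i =>
    heqs (Sum.inr (Sum.inl i))
  have hr₀ : C ϖ - wv ^ t.c₀ * ∏ ρ, yv ρ ^ t.β ρ ∈ Q := by
    have h1 := heqs (Sum.inr (Sum.inr true))
    simp only [torEqs, Sum.elim_inr, if_true] at h1
    exact h1
  have hr₁ : up w * wv ^ g₀ - up u ∈ Q := by
    have h1 := heqs (Sum.inr (Sum.inr false))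
    simp only [torEqs, Sum.elim_inr, Bool.false_eq_true, if_false] at h1
    exact h1
  have hG : ∀ κ, up (U.g κ) ∈ Q := fun κ => heqs (Sum.inl κ)
  have hXinr : ∀ (l : σ) (j : Fin s ⊕ Unit), pderiv (Sum.inl l)
      (X (Sum.inr j) : MvPolynomial (σ ⊕ (Fin s ⊕ Unit)) O) = 0 := fun l j =>
    pderiv_X_of_ne (by simp)
  have hpd : ∀ (l : σ) (f : MvPolynomial σ O), pderiv (Sum.inl l)
      (up f : MvPolynomial (σ ⊕ (Fin s ⊕ Unit)) O) = up (pderiv l f) := fun l f =>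
    pderiv_rename Sum.inl_injective _ _
  have hmain := t3b_indep (R := O) ht hQ (fun i => up (g i)) (fun ρ => yv ρ) (C ϖ) (up w) (up u)
    wv (g₀ := g₀) hw hwv he hg₀ hϖQ
    (fun a ha => by
      by_contra h1
      exact mul_C_notMem_sq hϖ Q hϖQ h1 ha) hr hr₀ hr₁
    (fun ρ => pderiv (Sum.inr (Sum.inl ρ)))
    (fun ρ ρ' => by
      rw [yv, pderiv_X, Pi.single_apply]
      simp only [Sum.inr.injEq, Sum.inl.injEq])
    (fun ρ i => t3b_pderiv_up _ _) (fun ρ => derivation_C _ _) (fun ρ => t3b_pderiv_up _ _)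
    (fun ρ => t3b_pderiv_up _ _) (fun ρ => pderiv_X_of_ne (by simp))
    (pderiv (Sum.inr (Sum.inr ()))) (fun ρ => pderiv_X_of_ne (by simp))
    (fun i => t3b_pderiv_up _ _) (derivation_C _ _) (t3b_pderiv_up _ _) (t3b_pderiv_up _ _)
    (pderiv_X_self _) hI hIne (fun k => upDer (U.vf (κ k))) (fun k ρ => upDer_inr _ _)
    (fun k => derivation_C _ _) (fun k => upDer_inr _ _)
    (by
      have h1 : (Matrix.of fun k i : I => upDer (s := s) (U.vf (κ k)) (up (g i))) =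
          (Matrix.of fun i i' : I => U.vf (κ i) (g i')).map
            (up : MvPolynomial σ O →ₐ[O] MvPolynomial (σ ⊕ (Fin s ⊕ Unit)) O) := by
        ext k i
        simp only [Matrix.of_apply, Matrix.map_apply, upDer_up]
      have h2 := AlgHom.map_det (up : MvPolynomial σ O →ₐ[O] MvPolynomial (σ ⊕ (Fin s ⊕ Unit)) O)
        (Matrix.of fun i i' : I => U.vf (κ i) (g i'))
      rw [h2] at hdet
      rw [h1]
      exact hdet)
    (fun κ => up (U.g κ)) hG (fun ρ κ => t3b_pderiv_up _ _) (fun κ => t3b_pderiv_up _ _)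
    (fun k κ' => by rw [upDer_up, U.vf_gL, map_zero])
    (fun l => pderiv (Sum.inl l.1)) (fun l ρ => hXinr _ _) (fun l => derivation_C _ _)
    (fun l => hXinr _ _)
    (by
      have h1 : (Matrix.of fun l κ : {l : σ // l ∉ U.T} => pderiv (Sum.inl l.1)
          (up (U.g κ) : MvPolynomial (σ ⊕ (Fin s ⊕ Unit)) O)) =
          (U.J.transpose).map
            (up : MvPolynomial σ O →ₐ[O] MvPolynomial (σ ⊕ (Fin s ⊕ Unit)) O) := by
        ext l κ'
        simp only [Matrix.of_apply, Matrix.map_apply, hpd, Matrix.transpose_apply]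
        rfl
      have h2 := AlgHom.map_det (up : MvPolynomial σ O →ₐ[O] MvPolynomial (σ ⊕ (Fin s ⊕ Unit)) O)
        U.J.transpose
      rw [Matrix.det_transpose] at h2
      rw [h1]
      have h3 : up U.Δ = (up : MvPolynomial σ O →ₐ[O] MvPolynomial (σ ⊕ (Fin s ⊕ Unit)) O)
        U.J.det := rfl
      rw [h3, h2] at hΔ
      exact hΔ)
    (fun κ => z * b (Sum.inl κ)) (fun i => z * b (Sum.inr (Sum.inl i)))
    (z * b (Sum.inr (Sum.inr true))) (z * b (Sum.inr (Sum.inr false)))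
    (by
      have h1 : z * ∑ k, b k * torEqs U g w u ϖ g₀ t k =
          ∑ κ, z * b (Sum.inl κ) * up (U.g κ) + (∑ i, z * b (Sum.inr (Sum.inl i)) *
            (up (g i) - wv ^ t.c i * ∏ ρ, yv ρ ^ t.A ρ i) +
            (z * b (Sum.inr (Sum.inr true)) * (C ϖ - wv ^ t.c₀ * ∏ ρ, yv ρ ^ t.β ρ) +
              z * b (Sum.inr (Sum.inr false)) * (up w * wv ^ g₀ - up u))) := by
        rw [Finset.mul_sum, Fintype.sum_sum_type, Fintype.sum_sum_type, Fintype.sum_bool]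
        simp only [torEqs, Sum.elim_inl, Sum.elim_inr, if_true, Bool.false_eq_true, if_false,
          mul_assoc]
      rw [← h1]
      exact hb)
  obtain ⟨h1, h2, h3, h4⟩ := hmain
  rintro (κ' | i | ⟨_ | _⟩)
  · exact (hQ.mem_or_mem (h1 κ')).resolve_left hz
  · exact (hQ.mem_or_mem (h2 i)).resolve_left hz
  · exact (hQ.mem_or_mem h4).resolve_left hz
  · exact (hQ.mem_or_mem h3).resolve_left hz

end Pool.Agent.Lib.MP_6a3dac_ag.Tor
end
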