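import Pool.Agent.Lib.MP_6a3dac_ag.Mg.G011
import Pool.Agent.Lib.MP_6a3dac_ag.Mg.G010
import Pool.Agent.Lib.MP_6a3dac_ag.Mg.G013
import Pool.Agent.Lib.MP_6a3dac_ag.Mg.G009
import Pool.Agent.Lib.MP_6a3dac_ag.Mg.G015
import Pool.Agent.Lib.MP_6a3dac_ag.Tor.Defs
import Pool.Agent.Lib.MP_6a3dac_ag.Fam.F2
import Pool.Agent.Lib.MP_6a3dac_ag.Mg.G007
import Pool.Agent.Lib.MP_6a3dac_ag.Fam.F1
import Pool.Agent.Lib.MP_6a3dac_ag.Mg.G024
import Pool.Agent.Lib.MP_6a3dac_ag.Mg.G025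
import Pool.Agent.Lib.MP_6a3dac_ag.Mg.G072
import Pool.Agent.Lib.MP_6a3dac_ag.Mg.G002
import Pool.Agent.Lib.MP_6a3dac_ag.Mg.G014

section

/-!
# The Lagrange function of a standard chart
-/

set_option autoImplicit false

namespace Pool.Agent.Lib.MP_6a3dac_ag.Bert

open MvPolynomial Matrix IsLocalRing
open Pool.Agent.Lib.MP_6a3dac_ag.DNF
open Pool.Agent.Lib.MP_6a3dac_ag.Sys

variable {O σ : Type} [CommRing O] [DecidableEq σ] [Fintype σ] (U : Std O σ)
  (F : MvPolynomial σ O)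

/-- The polynomial `F + ∑ κ, y κ * g κ` in the `x l` and the `y κ`. -/
noncomputable def lagS : MvPolynomial (σ ⊕ {l : σ // l ∉ U.T}) O :=
  rename Sum.inl F + ∑ κ, X (Sum.inr κ) * rename Sum.inl (U.g κ)

omit [DecidableEq σ] [Fintype σ] in
theorem l1_pd_inl {τ : Type} (l : σ) (q : MvPolynomial σ O) :
    pderiv (Sum.inl l : σ ⊕ τ) (rename Sum.inl q) = rename Sum.inl (pderiv l q) :=
  pderiv_rename Sum.inl_injective _ _

omit [DecidableEq σ] [Fintype σ] in
theorem l1_pd_inr {τ : Type} (κ : τ) (q : MvPolynomial σ O) :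
    pderiv (Sum.inr κ : σ ⊕ τ) (rename Sum.inl q) = 0 := by
  classical
  induction q using MvPolynomial.induction_on with
  | C a => rw [rename_C, pderiv_C]
  | add a b ha hb => rw [map_add, map_add, ha, hb, add_zero]
  | mul_X a k ha =>
    rw [map_mul, Derivation.leibniz, ha, rename_X, pderiv_X_of_ne (by simp), smul_zero,
      smul_zero, add_zero]

theorem pd_inl_lagS (l : σ) : pderiv (Sum.inl l) (lagS U F) = rename Sum.inl (pderiv l F) +
    ∑ κ, X (Sum.inr κ) * rename Sum.inl (pderiv l (U.g κ)) := by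
  rw [lagS, map_add, l1_pd_inl, map_sum]
  congr 1
  refine Finset.sum_congr rfl fun κ _ => ?_
  rw [Derivation.leibniz, l1_pd_inl, pderiv_X_of_ne (by simp), smul_zero, add_zero, smul_eq_mul]

theorem pd_inr_lagS (κ : {l : σ // l ∉ U.T}) :
    pderiv (Sum.inr κ) (lagS U F) = rename Sum.inl (U.g κ) := by
  rw [lagS, map_add, l1_pd_inr, map_sum, zero_add, Finset.sum_eq_single κ]
  · rw [Derivation.leibniz, l1_pd_inr, pderiv_X_self, smul_zero, zero_add, smul_eq_mul, mul_one]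
  · intro κ' _ hκ
    rw [Derivation.leibniz, l1_pd_inr, pderiv_X_of_ne, smul_zero, smul_zero, add_zero]
    exact fun h => hκ (Sum.inr_injective h)
  · intro h
    exact absurd (Finset.mem_univ _) h

/-- The Hessian matrix of the Lagrange function. -/
theorem hess_lagS : (Matrix.of fun a b => pderiv a (pderiv b (lagS U F))) =
    Matrix.fromBlocks
      (Matrix.of fun l m => rename Sum.inl (pderiv l (pderiv m F)) +
        ∑ κ, X (Sum.inr κ) * rename Sum.inl (pderiv l (pderiv m (U.g κ))))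
      (Matrix.of fun l κ => rename Sum.inl (pderiv l (U.g κ)))
      (Matrix.of fun κ l => rename Sum.inl (pderiv l (U.g κ))) 0 := by
  ext1 a b
  rcases a with l | κ <;> rcases b with m | κ'
  · rw [Matrix.fromBlocks_apply₁₁, Matrix.of_apply, Matrix.of_apply, pd_inl_lagS, map_add,
      l1_pd_inl, map_sum]
    congr 1
    refine Finset.sum_congr rfl fun κ _ => ?_
    rw [Derivation.leibniz, l1_pd_inl, pderiv_X_of_ne (by simp), smul_zero, add_zero,
      smul_eq_mul]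
  · rw [Matrix.fromBlocks_apply₁₂, Matrix.of_apply, Matrix.of_apply, pd_inr_lagS, l1_pd_inl]
  · rw [Matrix.fromBlocks_apply₂₁, Matrix.of_apply, Matrix.of_apply, pd_inl_lagS, map_add,
      l1_pd_inr, map_sum, zero_add, Finset.sum_eq_single κ]
    · rw [Derivation.leibniz, l1_pd_inr, pderiv_X_self, smul_zero, zero_add, smul_eq_mul, mul_one]
    · intro κ' _ hκ
      rw [Derivation.leibniz, l1_pd_inr, pderiv_X_of_ne, smul_zero, smul_zero, add_zero]
      exact fun h => hκ (Sum.inr_injective h)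
    · intro h
      exact absurd (Finset.mem_univ _) h
  · rw [Matrix.fromBlocks_apply₂₂, Matrix.of_apply, pd_inr_lagS, l1_pd_inr]
    rfl

/-- The derivatives of `F` along the vector fields in terms of the Lagrange function. -/
theorem rename_vf (e : σ) : rename Sum.inl (U.vf e F) =
    ∑ m, rename Sum.inl (U.vc e m) * pderiv (Sum.inl m) (lagS U F) := by
  simp_rw [pd_inl_lagS, mul_add, Finset.sum_add_distrib]
  rw [U.vf_eq_sum e F, map_sum]
  simp_rw [map_mul]
  rw [left_eq_add]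
  simp_rw [Finset.mul_sum]
  rw [Finset.sum_comm]
  refine Finset.sum_eq_zero fun κ _ => ?_
  have h1 : rename Sum.inl (U.vf e (U.g κ)) = (0 : MvPolynomial (σ ⊕ {l : σ // l ∉ U.T}) O) := by
    rw [U.vf_gL, map_zero]
  rw [U.vf_eq_sum, map_sum] at h1
  simp_rw [map_mul] at h1
  rw [← mul_zero (X (Sum.inr κ)), ← h1, Finset.mul_sum]
  refine Finset.sum_congr rfl fun m _ => ?_
  ring

/-- The Jacobian ideal in terms of the Lagrange function. -/
theorem lagS_jac {x : MvPolynomial σ O}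
    (hx : x ∈ Ideal.span (insert F (Set.range U.g ∪ {x | ∃ e ∈ U.T, x = U.vf e F}))) :
    ∃ (c₀ : MvPolynomial (σ ⊕ {l : σ // l ∉ U.T}) O)
      (c : σ ⊕ {l : σ // l ∉ U.T} → MvPolynomial (σ ⊕ {l : σ // l ∉ U.T}) O),
      rename Sum.inl x = c₀ * lagS U F + ∑ a, c a * pderiv a (lagS U F) := by
  have hd : ∀ a, pderiv a (lagS U F) ∈
      Ideal.span (insert (lagS U F) (Set.range fun a => pderiv a (lagS U F))) :=
    fun a => Ideal.subset_span (Set.mem_insert_of_mem _ ⟨a, rfl⟩)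
  have h1 : Ideal.span (insert F (Set.range U.g ∪ {x | ∃ e ∈ U.T, x = U.vf e F})) ≤
      (Ideal.span (insert (lagS U F) (Set.range fun a => pderiv a (lagS U F)))).comap
        (rename (Sum.inl : σ → σ ⊕ {l : σ // l ∉ U.T})).toRingHom := by
    rw [Ideal.span_le]
    intro y hy
    rw [SetLike.mem_coe, Ideal.mem_comap]
    change rename Sum.inl y ∈
      Ideal.span (insert (lagS U F) (Set.range fun a => pderiv a (lagS U F)))
    rcases hy with rfl | ⟨κ, rfl⟩ | ⟨e, _, rfl⟩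
    · have h2 : rename Sum.inl y = lagS U y -
          ∑ κ, X (Sum.inr κ) * pderiv (Sum.inr κ) (lagS U y) := by
        rw [eq_sub_iff_add_eq]
        simp only [pd_inr_lagS]
        rfl
      rw [h2]
      refine Ideal.sub_mem _ (Ideal.subset_span (Set.mem_insert _ _))
        (Ideal.sum_mem _ fun κ _ => Ideal.mul_mem_left _ _ (hd _))
    · rw [← pd_inr_lagS U F κ]
      exact hd _
    · rw [rename_vf]
      exact Ideal.sum_mem _ fun m _ => Ideal.mul_mem_left _ _ (hd _)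
  have h3 := h1 hx
  obtain ⟨a, z, hz, h4⟩ := Ideal.mem_span_insert.mp h3
  obtain ⟨c, hc⟩ := (Ideal.mem_span_range_iff_exists_fun).mp hz
  refine ⟨a, c, ?_⟩
  rw [hc]
  exact h4

theorem l3_deriv (e : σ) (p : MvPolynomial σ O) :
    ∑ l, (rename Sum.inl (U.vc e l) : MvPolynomial (σ ⊕ {l : σ // l ∉ U.T}) O) *
      pderiv (Sum.inl l) (rename Sum.inl p) = rename Sum.inl (U.vf e p) := by
  rw [U.vf_eq_sum, map_sum]
  refine Finset.sum_congr rfl fun l _ => ?_
  rw [pderiv_rename Sum.inl_injective, map_mul]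

theorem l3_hess {κ : Type} [Field κ]
    (ψ : MvPolynomial (σ ⊕ {l : σ // l ∉ U.T}) O →+* κ)
    (hcrit : ∀ l, ψ (pderiv (Sum.inl l) (lagS U F)) = 0) (e e' : σ) :
    ψ (rename Sum.inl (U.vf e (U.vf e' F))) = ∑ l, ψ (rename Sum.inl (U.vc e l)) *
      ∑ m, ψ (pderiv (Sum.inl l) (pderiv (Sum.inl m) (lagS U F))) *
        ψ (rename Sum.inl (U.vc e' m)) := by
  rw [← l3_deriv, map_sum]
  refine Finset.sum_congr rfl fun l _ => ?_
  rw [map_mul]
  congr 1
  rw [rename_vf, map_sum, map_sum]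
  refine Finset.sum_congr rfl fun m _ => ?_
  rw [Derivation.leibniz, smul_eq_mul, smul_eq_mul, map_add, map_mul, map_mul, hcrit, zero_mul,
    add_zero, mul_comm]

/-- The Hessian matrix of the Lagrange function at a critical point, over a field. -/
theorem det_hess_lagS_ne_zero {κ : Type} [Field κ]
    (ψ : MvPolynomial (σ ⊕ {l : σ // l ∉ U.T}) O →+* κ)
    (hΔ : ψ (rename Sum.inl U.Δ) ≠ 0) (hcrit : ∀ l, ψ (pderiv (Sum.inl l) (lagS U F)) = 0)
    (hdet : ψ (rename Sum.inl (U.hess F).det) ≠ 0) :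
    ψ (Matrix.of fun a b => pderiv a (pderiv b (lagS U F))).det ≠ 0 := by
  intro h0
  have hH := l3_hess U F ψ hcrit
  set V : σ → σ → κ := fun e l => ψ (rename Sum.inl (U.vc e l)) with hV
  set A : σ → σ → κ := fun l m => ψ (pderiv (Sum.inl l) (pderiv (Sum.inl m) (lagS U F))) with hA
  set B : {l : σ // l ∉ U.T} → σ → κ := fun k l => ψ (rename Sum.inl (pderiv l (U.g k))) with hB
  have hBV : ∀ e k, ∑ l, B k l * V e l = 0 := by
    intro e k
    have h1 : ψ (rename Sum.inl (U.vf e (U.g k))) = 0 := by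
      rw [U.vf_gL, map_zero, map_zero]
    rw [U.vf_eq_sum, map_sum, map_sum] at h1
    rw [← h1]
    refine Finset.sum_congr rfl fun l _ => ?_
    rw [map_mul, map_mul, mul_comm]
  have hHH : ∀ e e', ψ (rename Sum.inl (U.vf e (U.vf e' F))) =
      ∑ l, V e l * ∑ m, A l m * V e' m := hH
  -- the Jacobian matrix
  set Jm : Matrix {l : σ // l ∉ U.T} {l : σ // l ∉ U.T} κ := Matrix.of fun k l => B k l.1 with hJm
  have hJdet : Jm.det ≠ 0 := by
    have h1 : Jm.det = ψ (rename Sum.inl U.Δ) := by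
      have h2 : ψ (rename Sum.inl U.Δ) =
          (ψ.comp (rename Sum.inl :
            MvPolynomial σ O →ₐ[O] MvPolynomial (σ ⊕ {l : σ // l ∉ U.T}) O).toRingHom) U.Δ := rfl
      rw [h2, Std.Δ, RingHom.map_det]
      rfl
    rw [h1]
    exact hΔ
  have hHdet : (Matrix.of fun e e' : U.T => ψ (rename Sum.inl (U.vf e.1 (U.vf e'.1 F)))).det ≠
      0 := by
    have h2 : ψ (rename Sum.inl (U.hess F).det) =
        (ψ.comp (rename Sum.inl :
          MvPolynomial σ O →ₐ[O] MvPolynomial (σ ⊕ {l : σ // l ∉ U.T}) O).toRingHom)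
            (U.hess F).det := rfl
    rw [h2, RingHom.map_det] at hdet
    exact hdet
  -- the kernel vector
  rw [RingHom.map_det] at h0
  obtain ⟨v, hv0, hv⟩ := Matrix.exists_mulVec_eq_zero_iff.2 h0
  set u : σ → κ := fun l => v (Sum.inl l) with hu
  set w : {l : σ // l ∉ U.T} → κ := fun k => v (Sum.inr k) with hw
  have hrow : ∀ a, ∑ b, ψ (pderiv a (pderiv b (lagS U F))) * v b = 0 := fun a =>
    congrFun hv a
  have e1 : ∀ l, ∑ m, A l m * u m + ∑ k, B k l * w k = 0 := by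
    intro l
    have h1 := hrow (Sum.inl l)
    rw [Fintype.sum_sum_type] at h1
    rw [← h1]
    congr 1
    refine Finset.sum_congr rfl fun k _ => ?_
    rw [pd_inr_lagS, pderiv_rename Sum.inl_injective]
  have e2 : ∀ k, ∑ l, B k l * u l = 0 := by
    intro k
    have h1 := hrow (Sum.inr k)
    rw [Fintype.sum_sum_type] at h1
    have h2 : ∀ l : σ, ψ (pderiv (Sum.inr k) (pderiv (Sum.inl l) (lagS U F))) = B k l := by
      intro l
      have h := congrFun (congrFun (hess_lagS U F) (Sum.inr k)) (Sum.inl l)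
      exact congrArg ψ h
    have h3 : ∀ l : {l : σ // l ∉ U.T},
        ψ (pderiv (Sum.inr k) (pderiv (Sum.inr l) (lagS U F))) = 0 := by
      intro l
      have h := congrFun (congrFun (hess_lagS U F) (Sum.inr k)) (Sum.inr l)
      exact (congrArg ψ h).trans (map_zero ψ)
    rw [← h1]
    have h4 : ∑ l : {l : σ // l ∉ U.T},
        ψ (pderiv (Sum.inr k) (pderiv (Sum.inr l) (lagS U F))) * v (Sum.inr l) = 0 :=
      Finset.sum_eq_zero fun l _ => by rw [h3 l, zero_mul]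
    rw [h4, add_zero]
    exact Finset.sum_congr rfl fun l _ => by rw [h2 l]
  -- the coordinates of `u`
  set c : U.T → κ := fun e => u e.1 / ψ (rename Sum.inl U.Δ) with hc
  have hVT : ∀ (e : U.T) (m : σ), m ∈ U.T →
      V e.1 m = if e.1 = m then ψ (rename Sum.inl U.Δ) else 0 := by
    intro e m hm
    rw [hV]
    change ψ (rename Sum.inl (U.vc e.1 m)) = _
    rw [U.vc_of_mem hm]
    split_ifs <;> simp
  have hudiff : ∀ m, u m = ∑ e : U.T, c e * V e.1 m := by
    set u' : σ → κ := fun m => u m - ∑ e : U.T, c e * V e.1 m with hu'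
    have hT : ∀ m ∈ U.T, u' m = 0 := by
      intro m hm
      rw [hu']
      change u m - ∑ e : U.T, c e * V e.1 m = 0
      rw [Finset.sum_eq_single (⟨m, hm⟩ : U.T)]
      · rw [hVT _ m hm, if_pos rfl, hc]
        change u m - u m / _ * _ = 0
        rw [div_mul_cancel₀ _ hΔ, sub_self]
      · intro e _ hne
        rw [hVT e m hm, if_neg, mul_zero]
        intro h
        exact hne (Subtype.ext h)
      · intro h
        exact absurd (Finset.mem_univ _) h
    have hB' : ∀ k, ∑ l, B k l * u' l = 0 := by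
      intro k
      have h1 : ∀ l, B k l * u' l = B k l * u l - ∑ e : U.T, c e * (B k l * V e.1 l) := by
        intro l
        rw [hu']
        change B k l * (u l - ∑ e : U.T, c e * V e.1 l) = _
        rw [mul_sub, Finset.mul_sum]
        congr 1
        exact Finset.sum_congr rfl fun e _ => by ring
      rw [Finset.sum_congr rfl fun l _ => h1 l, Finset.sum_sub_distrib, e2, Finset.sum_comm]
      rw [Finset.sum_eq_zero, sub_zero]
      intro e _
      rw [← Finset.mul_sum, hBV, mul_zero]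
    have hJ0 : Jm *ᵥ (fun l : {l : σ // l ∉ U.T} => u' l.1) = 0 := by
      funext k
      change ∑ l : {l : σ // l ∉ U.T}, B k l.1 * u' l.1 = 0
      rw [← hB' k]
      have h1 : ∑ l, B k l * u' l = ∑ l ∈ Finset.univ.filter (fun l => l ∉ U.T), B k l * u' l := by
        rw [Finset.sum_filter]
        refine Finset.sum_congr rfl fun l _ => ?_
        by_cases hl : l ∈ U.T
        · rw [if_neg (by simpa using hl), hT l hl, mul_zero]
        · rw [if_pos hl]
      rw [h1]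
      exact (Finset.sum_subtype _ (by simp) (fun l => B k l * u' l)).symm
    have hu0 := Matrix.eq_zero_of_mulVec_eq_zero hJdet hJ0
    intro m
    have : u' m = 0 := by
      by_cases hm : m ∈ U.T
      · exact hT m hm
      · exact congrFun hu0 ⟨m, hm⟩
    exact sub_eq_zero.1 this
  have hc0 : c = 0 := by
    apply Matrix.eq_zero_of_mulVec_eq_zero hHdet
    funext e
    change ∑ e' : U.T, ψ (rename Sum.inl (U.vf e.1 (U.vf e'.1 F))) * c e' = 0
    have h1 : ∑ l, V e.1 l * (∑ m, A l m * u m + ∑ k, B k l * w k) = 0 :=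
      Finset.sum_eq_zero fun l _ => by rw [e1 l, mul_zero]
    have h2 : ∑ l, V e.1 l * ∑ k, B k l * w k = 0 := by
      have h3 : ∀ l, V e.1 l * ∑ k, B k l * w k = ∑ k, w k * (B k l * V e.1 l) := by
        intro l
        rw [Finset.mul_sum]
        exact Finset.sum_congr rfl fun k _ => by ring
      rw [Finset.sum_congr rfl fun l _ => h3 l, Finset.sum_comm]
      refine Finset.sum_eq_zero fun k _ => ?_
      rw [← Finset.mul_sum, hBV, mul_zero]
    simp only [mul_add, Finset.sum_add_distrib] at h1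
    rw [h2, add_zero] at h1
    rw [← h1]
    have h4 : ∀ l, V e.1 l * ∑ m, A l m * u m =
        ∑ e' : U.T, (V e.1 l * ∑ m, A l m * V e'.1 m) * c e' := by
      intro l
      have h5 : ∀ m, A l m * u m = ∑ e' : U.T, A l m * V e'.1 m * c e' := by
        intro m
        rw [hudiff m, Finset.mul_sum]
        exact Finset.sum_congr rfl fun e' _ => by ring
      rw [Finset.sum_congr rfl fun m _ => h5 m, Finset.sum_comm, Finset.mul_sum]
      refine Finset.sum_congr rfl fun e' _ => ?_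
      rw [← Finset.sum_mul]
      ring
    rw [Finset.sum_congr rfl fun l _ => h4 l, Finset.sum_comm]
    refine Finset.sum_congr rfl fun e' _ => ?_
    rw [hHH, Finset.sum_mul]
  have hu0 : ∀ m, u m = 0 := by
    intro m
    rw [hudiff m]
    refine Finset.sum_eq_zero fun e _ => ?_
    rw [hc0]
    simp
  have hw0 : w = 0 := by
    apply Matrix.eq_zero_of_vecMul_eq_zero hJdet
    funext l
    change ∑ k, w k * B k l.1 = 0
    have h1 := e1 l.1
    rw [Finset.sum_eq_zero (fun m _ => by rw [hu0 m, mul_zero]), zero_add] at h1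
    rw [← h1]
    exact Finset.sum_congr rfl fun k _ => mul_comm _ _
  apply hv0
  funext a
  rcases a with l | k
  · exact hu0 l
  · exact congrFun hw0 k

section Lift

variable {D : Type} [CommRing D] (φ : MvPolynomial σ O →+* D) (hΔ : IsUnit (φ U.Δ))

include hΔ in
/-- The multipliers exist. -/
theorem exists_mult : ∃ φ' : MvPolynomial (σ ⊕ {l : σ // l ∉ U.T}) O →+* D,
    (∀ q, φ' (rename Sum.inl q) = φ q) ∧
    (∀ l, l ∉ U.T → φ' (pderiv (Sum.inl l) (lagS U F)) = 0) ∧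
    (∀ e ∈ U.T, φ U.Δ * φ' (pderiv (Sum.inl e) (lagS U F)) = φ (U.vf e F)) := by
  obtain ⟨w, hw⟩ := hΔ.exists_right_inv
  let y : {l : σ // l ∉ U.T} → D := fun κ =>
    - (w * ∑ b : {l : σ // l ∉ U.T}, φ (pderiv b.1 F) * φ (U.J.adjugate b κ))
  let φ' : MvPolynomial (σ ⊕ {l : σ // l ∉ U.T}) O →+* D :=
    eval₂Hom (φ.comp C) (Sum.elim (fun l => φ (X l)) y)
  have h1 : ∀ q, φ' (rename Sum.inl q) = φ q := by
    intro q
    induction q using MvPolynomial.induction_on with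
    | C a =>
      rw [rename_C]
      exact eval₂_C _ _ _
    | add a b ha hb => rw [map_add, map_add, map_add, ha, hb]
    | mul_X a k ha =>
      rw [map_mul, map_mul, map_mul, ha, rename_X]
      congr 1
      exact eval₂_X _ _ _
  have hy : ∀ κ, φ' (X (Sum.inr κ)) = y κ := fun κ => eval₂_X _ _ _
  have h2 : ∀ l, φ' (pderiv (Sum.inl l) (lagS U F)) = φ (pderiv l F) +
      ∑ κ, y κ * φ (pderiv l (U.g κ)) := by
    intro l
    rw [pd_inl_lagS, map_add, h1, map_sum]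
    congr 1
    refine Finset.sum_congr rfl fun κ _ => ?_
    rw [map_mul, hy, h1]
  have h3 : ∀ l, ∑ κ, y κ * φ (pderiv l (U.g κ)) = - (w * ∑ b : {l : σ // l ∉ U.T},
      φ (pderiv b.1 F) * φ (∑ κ, U.J.adjugate b κ * pderiv l (U.g κ))) := by
    intro l
    simp only [y, neg_mul, Finset.sum_neg_distrib, map_sum, map_mul]
    congr 1
    simp_rw [mul_assoc, Finset.sum_mul, ← Finset.mul_sum]
    rw [Finset.sum_comm]
    congr 1
    refine Finset.sum_congr rfl fun b _ => ?_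
    rw [Finset.mul_sum]
    refine Finset.sum_congr rfl fun κ _ => ?_
    ring
  refine ⟨φ', h1, ?_, ?_⟩
  · intro l hl
    rw [h2, h3]
    have h4 : ∀ b : {l : σ // l ∉ U.T}, ∑ κ, U.J.adjugate b κ * pderiv l (U.g κ) =
        if b = ⟨l, hl⟩ then U.Δ else 0 := by
      intro b
      have h5 := congrFun (congrFun (Matrix.adjugate_mul U.J) b) ⟨l, hl⟩
      rw [Matrix.mul_apply, Matrix.smul_apply, Matrix.one_apply] at h5
      rw [show (∑ κ, U.J.adjugate b κ * pderiv l (U.g κ)) =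
        ∑ κ, U.J.adjugate b κ * U.J κ ⟨l, hl⟩ from rfl, h5, smul_eq_mul, mul_ite, mul_one,
        mul_zero]
      rfl
    simp_rw [h4]
    rw [Finset.sum_eq_single (⟨l, hl⟩ : {l : σ // l ∉ U.T})]
    · rw [if_pos rfl]
      linear_combination (-φ (pderiv l F)) * hw
    · intro b _ hb
      rw [if_neg hb, map_zero, mul_zero]
    · intro h
      exact absurd (Finset.mem_univ _) h
  · intro e _
    rw [h2, h3]
    have h4 : φ (U.vf e F) = φ U.Δ * φ (pderiv e F) - ∑ b : {l : σ // l ∉ U.T},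
      φ (pderiv b.1 F) * φ (∑ κ, U.J.adjugate b κ * pderiv e (U.g κ)) := by
      rw [Std.vf, Derivation.sub_apply, Derivation.smul_apply, map_sub, smul_eq_mul, map_mul]
      congr 1
      rw [← Derivation.coeFnAddMonoidHom_apply, map_sum, Finset.sum_apply, map_sum]
      refine Finset.sum_congr rfl fun b _ => ?_
      rw [Derivation.coeFnAddMonoidHom_apply, Derivation.smul_apply, smul_eq_mul, map_mul,
        mul_comm]
    rw [h4]
    linear_combination (- ∑ b : {l : σ // l ∉ U.T},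
      φ (pderiv b.1 F) * φ (∑ κ, U.J.adjugate b κ * pderiv e (U.g κ))) * hw

variable {U F φ} {φ' : MvPolynomial (σ ⊕ {l : σ // l ∉ U.T}) O →+* D}
  (h1 : ∀ q, φ' (rename Sum.inl q) = φ q)
  (h2 : ∀ l, l ∉ U.T → φ' (pderiv (Sum.inl l) (lagS U F)) = 0)
include h1 h2 hΔ

omit hΔ h1 h2 in
theorem l5_dom {G : Type} [CommRing G] (φ : G →+* D) : Dom (locIn φ) := by
  rintro z ⟨a, s, hs, h1⟩ w hzw
  refine ⟨s, a, ?_, ?_⟩
  · rw [← h1]
    exact (IsUnit.of_mul_eq_one w hzw).mul hs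
  · rw [← h1, ← mul_assoc, mul_comm w z, hzw, one_mul]

omit hΔ h1 h2 in
theorem l5_le {G : Type} [CommRing G] {φ : G →+* D} {R' : Subring D} (h : Dom R')
    (hφ : ∀ a, φ a ∈ R') : locIn φ ≤ R' := by
  rintro z ⟨a, s, hs, h1⟩
  obtain ⟨t, ht⟩ := hs.exists_right_inv
  have h2 : z = φ a * t := by rw [← h1, mul_assoc, ht, mul_one]
  rw [h2]
  exact R'.mul_mem (hφ a) (h _ (hφ s) t ht)

omit hΔ h2 in
theorem l5_lagS (l : σ) : φ' (pderiv (Sum.inl l) (lagS U F)) = φ (pderiv l F) +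
    ∑ k, φ' (X (Sum.inr k)) * φ (pderiv l (U.g k)) := by
  rw [pd_inl_lagS, map_add, map_sum, h1]
  congr 1
  refine Finset.sum_congr rfl fun k _ => ?_
  rw [map_mul, h1]

theorem l5_mem_locIn (k : {l : σ // l ∉ U.T}) : φ' (X (Sum.inr k)) ∈ locIn φ := by
  let y : {l : σ // l ∉ U.T} → D := fun k => φ' (X (Sum.inr k))
  let v : {l : σ // l ∉ U.T} → MvPolynomial σ O := fun b => pderiv b.1 F
  have e1 : y ᵥ* φ.mapMatrix U.J = fun b => - φ (v b) := by
    funext b
    have := h2 b.1 b.2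
    rw [l5_lagS h1] at this
    have e2 : (y ᵥ* φ.mapMatrix U.J) b = ∑ k, φ' (X (Sum.inr k)) * φ (pderiv b.1 (U.g k)) := by
      simp [Matrix.vecMul, dotProduct, Std.J, y]
    rw [e2]
    linear_combination this
  have e3 : (φ U.J.det) • y = fun k => φ (- ∑ b, v b * U.J.adjugate b k) := by
    have e4 : (y ᵥ* φ.mapMatrix U.J) ᵥ* (φ.mapMatrix U.J).adjugate = (φ U.J.det) • y := by
      rw [Matrix.vecMul_vecMul, Matrix.mul_adjugate, Matrix.vecMul_smul, Matrix.vecMul_one,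
        RingHom.map_det]
    rw [← e4, e1, ← RingHom.map_adjugate]
    funext k
    simp [Matrix.vecMul, dotProduct]
  refine ⟨- ∑ b, v b * U.J.adjugate b k, U.J.det, hΔ, ?_⟩
  have := congrFun e3 k
  simp only [Pi.smul_apply, smul_eq_mul] at this
  rw [mul_comm]
  exact this

/-- The multipliers lie in the local subring. -/
theorem lagS_locIn [IsLocalRing D] : locIn φ' = locIn φ := by
  apply le_antisymm
  · apply l5_le (l5_dom φ)
    intro a
    induction a using MvPolynomial.induction_on with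
    | C r =>
      have : (C r : MvPolynomial (σ ⊕ {l : σ // l ∉ U.T}) O) = rename Sum.inl (C r) := by
        rw [rename_C]
      rw [this, h1]
      exact map_mem_locIn φ _
    | add p q hp hq =>
      rw [map_add]
      exact (locIn φ).add_mem hp hq
    | mul_X p i hp =>
      rw [map_mul]
      refine (locIn φ).mul_mem hp ?_
      rcases i with l | k
      · have : (X (Sum.inl l) : MvPolynomial (σ ⊕ {l : σ // l ∉ U.T}) O) =
            rename Sum.inl (X l) := by rw [rename_X]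
        rw [this, h1]
        exact map_mem_locIn φ _
      · exact l5_mem_locIn hΔ h1 h2 k
  · apply l5_le (l5_dom φ')
    intro a
    rw [← h1]
    exact map_mem_locIn φ' _

omit h1 h2 hΔ in
/-- Elimination of the multipliers by Cramer's rule modulo an ideal. -/
theorem l6_elim {O σ : Type} [CommRing O] [DecidableEq σ] [Fintype σ] {U : Std O σ}
    {F : MvPolynomial σ O} (I : Ideal (MvPolynomial (σ ⊕ {l : σ // l ∉ U.T}) O))
    (hI : ∀ b : {l : σ // l ∉ U.T}, pderiv (Sum.inl b.1) (lagS U F) ∈ I)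
    (g : MvPolynomial (σ ⊕ {l : σ // l ∉ U.T}) O) :
    ∃ (N : ℕ) (g₀ : MvPolynomial σ O),
      rename Sum.inl U.Δ ^ N * g - rename Sum.inl g₀ ∈ I := by
  classical
  set ι : MvPolynomial σ O →ₐ[O] MvPolynomial (σ ⊕ {l : σ // l ∉ U.T}) O :=
    rename Sum.inl with hι
  induction g using MvPolynomial.induction_on with
  | C a => exact ⟨0, C a, by simp [hι]⟩
  | add p q hp hq =>
    obtain ⟨N, p₀, hp⟩ := hp
    obtain ⟨M, q₀, hq⟩ := hq
    refine ⟨N + M, U.Δ ^ M * p₀ + U.Δ ^ N * q₀, ?_⟩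
    have h1 := I.mul_mem_left (ι U.Δ ^ M) hp
    have h2 := I.mul_mem_left (ι U.Δ ^ N) hq
    have h3 := I.add_mem h1 h2
    convert h3 using 1
    rw [map_add, map_mul, map_mul, map_pow, map_pow]
    ring
  | mul_X p i hp =>
    obtain ⟨N, p₀, hp⟩ := hp
    rcases i with l | m
    · refine ⟨N, p₀ * X l, ?_⟩
      have h1 := I.mul_mem_right (X (Sum.inl l)) hp
      convert h1 using 1
      rw [map_mul, hι, rename_X]
      ring
    · refine ⟨N + 1, - p₀ * ∑ b : {l : σ // l ∉ U.T}, pderiv b.1 F * U.J.adjugate b m, ?_⟩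
      -- the Cramer relation
      have h4 : ∑ b : {l : σ // l ∉ U.T},
          pderiv (Sum.inl b.1) (lagS U F) * ι (U.J.adjugate b m) ∈ I :=
        I.sum_mem fun b _ => I.mul_mem_right _ (hI b)
      have h5 : ∑ b : {l : σ // l ∉ U.T},
          pderiv (Sum.inl b.1) (lagS U F) * ι (U.J.adjugate b m) =
          ι (∑ b : {l : σ // l ∉ U.T}, pderiv b.1 F * U.J.adjugate b m) +
            X (Sum.inr m) * ι U.Δ := by
        have h6 : ∀ b : {l : σ // l ∉ U.T}, pderiv (Sum.inl b.1) (lagS U F) =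
            ι (pderiv b.1 F) +
            ∑ k : {l : σ // l ∉ U.T}, X (Sum.inr k) * ι (U.J k b) := by
          intro b
          rw [pd_inl_lagS]
          rfl
        simp only [h6, add_mul, Finset.sum_add_distrib, Finset.sum_mul]
        rw [map_sum]
        congr 1
        · exact Finset.sum_congr rfl fun b _ => (map_mul _ _ _).symm
        · rw [Finset.sum_comm]
          have h7 : ∀ k, ∑ b, X (Sum.inr k) * ι (U.J k b) * ι (U.J.adjugate b m) =
              X (Sum.inr k) * ι ((U.J * U.J.adjugate) k m) := by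
            intro k
            rw [Matrix.mul_apply, map_sum, Finset.mul_sum]
            refine Finset.sum_congr rfl fun b _ => ?_
            rw [map_mul]
            ring
          rw [Finset.sum_congr rfl fun k _ => h7 k, Matrix.mul_adjugate]
          rw [Finset.sum_eq_single m]
          · rw [Matrix.smul_apply, Matrix.one_apply_eq, smul_eq_mul, mul_one]
            rfl
          · intro k _ hk
            rw [Matrix.smul_apply, Matrix.one_apply_ne hk, smul_zero, map_zero, mul_zero]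
          · intro h
            exact absurd (Finset.mem_univ _) h
      rw [h5] at h4
      have h8 := I.mul_mem_left (ι p₀) h4
      have h9 := I.mul_mem_right (X (Sum.inr m) * ι U.Δ) hp
      have h10 := I.add_mem h9 h8
      convert h10 using 1
      rw [map_mul, map_neg]
      ring

/-- The kernel of the lifted map. -/
theorem lagS_ker [IsDomain D] (hφF : φ F = 0) (hφg : ∀ κ, φ (U.g κ) = 0)
    (hker : ∀ q, φ q = 0 → ∃ z, φ z ≠ 0 ∧ z * q ∈ Ideal.span (insert F (Set.range U.g)))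
    (M : Finset (σ ⊕ {l : σ // l ∉ U.T}))
    (hM : M = (Finset.univ.image fun b : {l : σ // l ∉ U.T} => Sum.inl b.1) ∪
      Finset.univ.image Sum.inr)
    (q : MvPolynomial (σ ⊕ {l : σ // l ∉ U.T}) O) (hq : φ' q = 0) :
    ∃ z, φ' z ≠ 0 ∧ z * q ∈ Ideal.span (insert (lagS U F)
      ((fun a => pderiv a (lagS U F)) '' (M : Set (σ ⊕ {l : σ // l ∉ U.T})))) := by
  classical
  set I : Ideal (MvPolynomial (σ ⊕ {l : σ // l ∉ U.T}) O) := Ideal.span (insert (lagS U F)
      ((fun a => pderiv a (lagS U F)) '' (M : Set (σ ⊕ {l : σ // l ∉ U.T})))) with hIdef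
  have hMinl : ∀ b : {l : σ // l ∉ U.T}, Sum.inl b.1 ∈ M := by
    intro b
    rw [hM]
    exact Finset.mem_union_left _ (Finset.mem_image_of_mem _ (Finset.mem_univ b))
  have hMinr : ∀ k, Sum.inr k ∈ M := by
    intro k
    rw [hM]
    exact Finset.mem_union_right _ (Finset.mem_image_of_mem _ (Finset.mem_univ k))
  have hI1 : ∀ a ∈ M, pderiv a (lagS U F) ∈ I := fun a ha =>
    Ideal.subset_span (Set.mem_insert_of_mem _ ⟨a, ha, rfl⟩)
  have hI0 : lagS U F ∈ I := Ideal.subset_span (Set.mem_insert _ _)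
  -- the polynomials of the system lie in I
  have hgk : ∀ k : {l : σ // l ∉ U.T}, rename Sum.inl (U.g k) ∈ I := by
    intro k
    rw [← pd_inr_lagS U F]
    exact hI1 _ (hMinr k)
  have hF : rename Sum.inl F ∈ I := by
    have h4 : rename Sum.inl F = lagS U F -
        ∑ k : {l : σ // l ∉ U.T}, X (Sum.inr k) * rename Sum.inl (U.g k) := by
      rw [lagS, add_sub_cancel_right]
    rw [h4]
    exact I.sub_mem hI0 (I.sum_mem fun k _ => I.mul_mem_left _ (hgk k))
  have hspan : ∀ q ∈ Ideal.span (insert F (Set.range U.g)), rename Sum.inl q ∈ I := by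
    intro q hq
    have h4 : Ideal.span (insert F (Set.range U.g)) ≤ I.comap (rename Sum.inl :
        MvPolynomial σ O →ₐ[O] MvPolynomial (σ ⊕ {l : σ // l ∉ U.T}) O) := by
      rw [Ideal.span_le]
      rintro x hx
      rcases hx with rfl | ⟨k, rfl⟩
      · exact hF
      · exact hgk k
    exact h4 hq
  -- φ' kills I
  have hlagr : φ' (lagS U F) = 0 := by
    rw [lagS, map_add, map_sum, h1, hφF, zero_add]
    refine Finset.sum_eq_zero fun k _ => ?_
    rw [map_mul, h1, hφg, mul_zero]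
  have hkill : ∀ q ∈ I, φ' q = 0 := by
    intro q hq
    have h4 : I ≤ RingHom.ker φ' := by
      rw [hIdef, Ideal.span_le]
      intro x hx
      rcases hx with rfl | ⟨a, ha, rfl⟩
      · exact hlagr
      · rw [Finset.mem_coe, hM, Finset.mem_union, Finset.mem_image, Finset.mem_image] at ha
        rcases ha with ⟨b, -, rfl⟩ | ⟨k, -, rfl⟩
        · exact h2 _ b.2
        · change φ' (pderiv (Sum.inr k) (lagS U F)) = 0
          rw [pd_inr_lagS, h1, hφg]
    exact h4 hq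
  obtain ⟨N, g₀, hN⟩ := l6_elim I (fun b => hI1 _ (hMinl b)) q
  have h5 := hkill _ hN
  rw [map_sub, map_mul, hq, mul_zero, zero_sub, neg_eq_zero, h1] at h5
  obtain ⟨z₀, hz₀, hz₁⟩ := hker g₀ h5
  refine ⟨rename Sum.inl (z₀ * U.Δ ^ N), ?_, ?_⟩
  · rw [h1, map_mul, map_pow]
    exact mul_ne_zero hz₀ (pow_ne_zero _ hΔ.ne_zero)
  · have h6 : rename Sum.inl (z₀ * U.Δ ^ N) * q = rename Sum.inl z₀ *
        (rename Sum.inl U.Δ ^ N * q - rename Sum.inl g₀) + rename Sum.inl (z₀ * g₀) := by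
      rw [map_mul, map_mul, map_pow]
      ring
    rw [h6]
    exact I.add_mem (I.mul_mem_left _ hN) (hspan _ hz₁)

/-- A block of the Hessian matrix. -/
theorem lagS_hessM [IsLocalRing D] (M : Finset (σ ⊕ {l : σ // l ∉ U.T}))
    (hM : M = (Finset.univ.image fun b : {l : σ // l ∉ U.T} => Sum.inl b.1) ∪
      Finset.univ.image Sum.inr) :
    IsUnit (φ' (Matrix.of fun a b : {a // a ∈ M} =>
      pderiv a.1 (pderiv b.1 (lagS U F))).det) := by
  have _ := h2
  have hunit : ∀ x : D, IsUnit x ↔ residue D x ≠ 0 := fun x => by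
    rw [← residue_ne_zero_iff_isUnit]
  rw [hunit]
  set ψ : MvPolynomial (σ ⊕ {l : σ // l ∉ U.T}) O →+* ResidueField D :=
    (residue D).comp φ' with hψ
  set B : Matrix {l : σ // l ∉ U.T} σ (ResidueField D) :=
    Matrix.of fun κ l => residue D (φ (pderiv l (U.g κ))) with hB
  set A : Matrix σ σ (ResidueField D) := Matrix.of fun l m =>
    ψ (rename Sum.inl (pderiv l (pderiv m F)) +
        ∑ κ : {l : σ // l ∉ U.T}, X (Sum.inr κ) * rename Sum.inl (pderiv l (pderiv m (U.g κ))))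
    with hA
  have hBs : (B.submatrix id Subtype.val).det ≠ 0 := by
    have hΔ' := hΔ
    rw [hunit] at hΔ'
    convert hΔ' using 1
    rw [Std.Δ, RingHom.map_det, RingHom.map_det]
    rfl
  have h5 := det_block_ne_zero A B Subtype.val hBs M hM
  convert h5 using 1
  rw [← RingHom.comp_apply, ← hψ, RingHom.map_det]
  congr 1
  have h6 := hess_lagS U F
  ext a b
  have h7 : pderiv a.1 (pderiv b.1 (lagS U F)) =
    (Matrix.of fun a b => pderiv a (pderiv b (lagS U F))) a.1 b.1 := rfl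
  rw [RingHom.mapMatrix_apply, Matrix.map_apply, Matrix.of_apply, h7, h6, Matrix.submatrix_apply]
  rcases a with ⟨l | k, ha⟩ <;> rcases b with ⟨m | k', hb⟩
  · rfl
  · change ψ (rename Sum.inl (pderiv l (U.g k'))) = residue D (φ (pderiv l (U.g k')))
    rw [hψ, RingHom.comp_apply, h1]
  · change ψ (rename Sum.inl (pderiv m (U.g k))) = residue D (φ (pderiv m (U.g k)))
    rw [hψ, RingHom.comp_apply, h1]
  · change ψ 0 = 0
    exact map_zero ψ

end Lift

/-- `isRegularLocalRing_constr` with a multiplier. -/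
theorem isRegularLocalRing_constrM {O : Type} [CommRing O] {σ : Type} [Fintype σ] [DecidableEq σ]
    [IsDomain O] [IsDiscreteValuationRing O] {F : MvPolynomial σ O} {D : Type} [CommRing D]
    [IsDomain D] [IsLocalRing D] (φ : MvPolynomial σ O →+* D) {ϖ : O} (hϖ : Irreducible ϖ)
    (M : Finset σ) (hφF : φ F = 0) (hφM : ∀ a ∈ M, φ (pderiv a F) = 0)
    (hker : ∀ g, φ g = 0 → ∃ z, φ z ≠ 0 ∧
      z * g ∈ Ideal.span (insert F ((fun a => pderiv a F) '' (M : Set σ))))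
    (hchar : ∀ m : O, m ≠ 0 → φ (C m) ≠ 0) (hpm : φ (C ϖ) ∈ maximalIdeal D)
    (hy : ∀ l, φ (pderiv l F) ∈ maximalIdeal D)
    (hdet : IsUnit (φ (Matrix.of fun i j => pderiv i (pderiv j F)).det))
    (hdetM : IsUnit (φ (Matrix.of fun i j : {a // a ∈ M} => pderiv i.1 (pderiv j.1 F)).det))
    {r : ℕ} {t c₀ : MvPolynomial σ O} {c : σ → MvPolynomial σ O} (ht : IsUnit (φ t))
    (hr : t * C ϖ ^ r = c₀ * F + ∑ j, c j * pderiv j F)
    {Z : Finset D} (hZ : ∀ z, z ∈ Z ↔ ∃ l, φ (pderiv l F) = z) (b : ℕ → D)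
    (hb : ∀ j, 1 ≤ j → j ≤ r → b j ≠ 0 ∧ InJ (locIn φ) (φ (C ϖ)) Z j (b j) ∧ b j ∣ φ (C ϖ) ^ j ∧
      ∀ z ∈ Z, b j ∣ z)
    (hgen : ∀ R' : Subring D, Dom R' → locIn φ ≤ R' →
      (∀ j, 1 ≤ j → j ≤ r → ∀ x, InJ (locIn φ) (φ (C ϖ)) Z j x → ∀ w, b j * w = x → w ∈ R') →
        R' = ⊤) :
    IsRegularLocalRing D := by
  have hp0 : φ (C ϖ) ≠ 0 := hchar ϖ hϖ.ne_zero
  have hpR : φ (C ϖ) ∈ locIn φ := map_mem_locIn φ _
  have hQp : (Ideal.comap φ (maximalIdeal D)).IsPrime := Ideal.IsPrime.comap φ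
  have hun : ∀ x, x ∉ Ideal.comap φ (maximalIdeal D) ↔ IsUnit (φ x) := by
    intro x
    rw [Ideal.mem_comap, IsLocalRing.mem_maximalIdeal, mem_nonunits_iff, not_not]
  have hFQ : F ∈ Ideal.comap φ (maximalIdeal D) := by
    rw [Ideal.mem_comap, hφF]; exact Ideal.zero_mem _
  have hm' : t ∉ Ideal.comap φ (maximalIdeal D) := (hun _).mpr ht
  obtain ⟨e, he1, he2, s, U, hs, hU, β, hF, hβ⟩ := exists_normal_formM hϖ
    (Ideal.comap φ (maximalIdeal D)) (by rw [Ideal.mem_comap]; exact hpm) hFQ hy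
    ((hun _).mpr hdet) hm' hr
  have hβM := hβ M ((hun _).mpr hdetM)
  rcases chart_cases hpR hp0 b hb hgen with ⟨w, hw, hg⟩ | ⟨k, hk, u, huZ, v, t', w, hv, ht', hw, hg⟩
  · exfalso
    have h2 := congrArg φ hF
    rw [map_mul, hφF, mul_zero, map_add, map_mul, map_pow, map_sum] at h2
    have h3 : ∑ i, φ (∑ j, β i j * (pderiv i F * pderiv j F)) =
        φ (C ϖ) ^ e * (φ (C ϖ) ^ (2 * r - e) * ∑ i, ∑ j, φ (β i j) *
          (w (φ (pderiv i F)) * w (φ (pderiv j F)))) := by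
      rw [← mul_assoc, ← pow_add, Finset.mul_sum]
      refine Finset.sum_congr rfl fun i _ => ?_
      rw [map_sum, Finset.mul_sum]
      refine Finset.sum_congr rfl fun j _ => ?_
      have h4 := hw _ ((hZ _).mpr ⟨i, rfl⟩)
      have h5 := hw _ ((hZ _).mpr ⟨j, rfl⟩)
      have h6 : e + (2 * r - e) = r + r := by omega
      rw [map_mul, map_mul, h6, pow_add]
      conv_lhs => rw [← h4, ← h5]
      ring
    rw [h3] at h2
    have h4 : φ (C ϖ) ^ e * (φ U + φ (C ϖ) ^ (2 * r - e) * ∑ i, ∑ j, φ (β i j) *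
          (w (φ (pderiv i F)) * w (φ (pderiv j F)))) = 0 := by
      rw [mul_add, mul_comm _ (φ U)]
      exact h2.symm
    have h5 := (mul_eq_zero.mp h4).resolve_left (pow_ne_zero _ hp0)
    have h6 : φ U ∈ maximalIdeal D := by
      rw [eq_neg_of_add_eq_zero_left h5]
      refine Ideal.neg_mem_iff _ |>.mpr (Ideal.mul_mem_right _ _
        (Ideal.pow_mem_of_mem _ hpm _ (by omega)))
    exact hU h6
  · obtain ⟨l₀, rfl⟩ := (hZ u).mp huZ
    have hv0 : v ≠ 0 := by
      rintro rfl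
      rw [zero_mul] at ht'
      exact hp0 ht'.symm
    have hy0 : φ (pderiv l₀ F) ≠ 0 := by
      rw [← hv]
      exact mul_ne_zero (pow_ne_zero _ hp0) hv0
    have hl₀ : l₀ ∉ M := fun h => hy0 (hφM l₀ h)
    refine isRegularLocalRing_of_doubleM φ hϖ he1 M hl₀ hφF hφM hker hchar hpm hy
      ((hun _).mp hs) ((hun _).mp hU) hdet ((hun _).mp hβM) hF hv ht'
      (w := fun l => w (φ (pderiv l F))) (fun l => hw _ ((hZ _).mpr ⟨l, rfl⟩)) hy0 ?_
    intro R' hR' h1 h2 h3 h4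
    refine hg R' hR' (locIn_le hR' h1) h2 h3 ?_
    intro z hz
    obtain ⟨l, rfl⟩ := (hZ z).mp hz
    exact h4 l

/-- The elements which the `b j` generate, in terms of the Lagrange function. -/
theorem l9_inJ {O σ : Type} [CommRing O] [Fintype σ] [DecidableEq σ] {U : Std O σ}
    {F : MvPolynomial σ O} {D : Type} [CommRing D] [IsDomain D] [IsLocalRing D]
    {φ : MvPolynomial σ O →+* D} (hφg : ∀ κ, φ (U.g κ) = 0) (hΔ : IsUnit (φ U.Δ))
    {φ' : MvPolynomial (σ ⊕ {l : σ // l ∉ U.T}) O →+* D}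
    (h1 : ∀ q, φ' (rename Sum.inl q) = φ q)
    (h2 : ∀ l, l ∉ U.T → φ' (pderiv (Sum.inl l) (lagS U F)) = 0)
    (h3 : ∀ e ∈ U.T, φ U.Δ * φ' (pderiv (Sum.inl e) (lagS U F)) = φ (U.vf e F))
    {Z' : Finset D} (hZ' : ∀ z, z ∈ Z' ↔ ∃ l, φ' (pderiv l (lagS U F)) = z) (a : D) (j : ℕ)
    (x : D) : InJ (locIn φ) a Z' j x ↔ x ∈ Submodule.span (locIn φ)
      (insert (a ^ j) {z | ∃ e ∈ U.T, z = φ (U.vf e F)}) := by
  classical
  rw [t8_inJ_iff]
  have key : Submodule.span (locIn φ) (insert (a ^ j) (Z' : Set D)) =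
      Submodule.span (locIn φ) (insert (a ^ j) {z | ∃ e ∈ U.T, z = φ (U.vf e F)}) := by
    apply le_antisymm
    · rw [Submodule.span_le, Set.insert_subset_iff]
      refine ⟨Submodule.subset_span (Set.mem_insert _ _), ?_⟩
      intro z hz
      obtain ⟨l, rfl⟩ := (hZ' z).mp hz
      rcases l with l | k
      · by_cases hl : l ∈ U.T
        · obtain ⟨t, ht⟩ := hΔ.exists_right_inv
          have ht' : t ∈ locIn φ := dom_locIn φ _ (map_mem_locIn φ _) t ht
          have h' : φ' (pderiv (Sum.inl l) (lagS U F)) = (⟨t, ht'⟩ : locIn φ) •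
              φ (U.vf l F) := by
            change _ = t * _
            rw [← h3 l hl]
            linear_combination (-φ' (pderiv (Sum.inl l) (lagS U F))) * ht
          rw [h']
          exact Submodule.smul_mem _ _
            (Submodule.subset_span (Set.mem_insert_of_mem _ ⟨l, hl, rfl⟩))
        · rw [h2 l hl]
          exact Submodule.zero_mem _
      · rw [pd_inr_lagS, h1, hφg]
        exact Submodule.zero_mem _
    · rw [Submodule.span_le, Set.insert_subset_iff]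
      refine ⟨Submodule.subset_span (Set.mem_insert _ _), ?_⟩
      rintro z ⟨e, he, rfl⟩
      rw [← h3 e he]
      have h : φ U.Δ * φ' (pderiv (Sum.inl e) (lagS U F)) =
        (⟨φ U.Δ, map_mem_locIn φ _⟩ : locIn φ) • φ' (pderiv (Sum.inl e) (lagS U F)) := rfl
      rw [h]
      refine Submodule.smul_mem _ _ (Submodule.subset_span (Set.mem_insert_of_mem _ ?_))
      exact (hZ' _).mpr ⟨_, rfl⟩
  rw [key]

/-- **The local theorem at a nondegenerate double point.** -/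
theorem isRegularLocalRing_std {O σ : Type} [CommRing O] [Fintype σ] [DecidableEq σ]
    [IsDomain O] [IsDiscreteValuationRing O] (U : Std O σ) {F : MvPolynomial σ O} {D : Type}
    [CommRing D] [IsDomain D] [IsLocalRing D] (φ : MvPolynomial σ O →+* D) {ϖ : O}
    (hϖ : Irreducible ϖ) (hφg : ∀ κ, φ (U.g κ) = 0) (hφF : φ F = 0) (hΔ : IsUnit (φ U.Δ))
    (hker : ∀ q, φ q = 0 → ∃ z, φ z ≠ 0 ∧ z * q ∈ Ideal.span (insert F (Set.range U.g)))
    (hchar : ∀ m : O, m ≠ 0 → φ (C m) ≠ 0) (hpm : φ (C ϖ) ∈ maximalIdeal D)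
    (hcrit : ∀ e ∈ U.T, φ (U.vf e F) ∈ maximalIdeal D) (hdet : IsUnit (φ (U.hess F).det))
    {r : ℕ} {t : MvPolynomial σ O} (ht : IsUnit (φ t))
    (hr : t * C ϖ ^ r ∈ Ideal.span (insert F (Set.range U.g ∪ {x | ∃ e ∈ U.T, x = U.vf e F})))
    (b : ℕ → D)
    (hb : ∀ j, 1 ≤ j → j ≤ r → b j ≠ 0 ∧ b j ∣ φ (C ϖ) ^ j ∧
      (∀ e ∈ U.T, b j ∣ φ (U.vf e F)) ∧
      b j ∈ Submodule.span (locIn φ) (insert (φ (C ϖ) ^ j) {z | ∃ e ∈ U.T, z = φ (U.vf e F)}))
    (hgen : ∀ R' : Subring D, Dom R' → locIn φ ≤ R' →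
      (∀ j, 1 ≤ j → j ≤ r → ∀ x ∈ Submodule.span (locIn φ)
          (insert (φ (C ϖ) ^ j) {z | ∃ e ∈ U.T, z = φ (U.vf e F)}),
        ∀ w, b j * w = x → w ∈ R') → R' = ⊤) :
    IsRegularLocalRing D := by
  classical
  obtain ⟨φ', h1, h2, h3⟩ := exists_mult U F φ hΔ
  obtain ⟨M, hM⟩ : ∃ M : Finset (σ ⊕ {l : σ // l ∉ U.T}),
    M = (Finset.univ.image fun b : {l : σ // l ∉ U.T} => Sum.inl b.1) ∪
      Finset.univ.image Sum.inr := ⟨_, rfl⟩
  obtain ⟨Z', hZ'⟩ : ∃ Z' : Finset D, ∀ z, z ∈ Z' ↔ ∃ l, φ' (pderiv l (lagS U F)) = z := by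
    refine ⟨Finset.univ.image fun l => φ' (pderiv l (lagS U F)), fun z => ?_⟩
    simp
  have hC : ∀ m : O, φ' (C m) = φ (C m) := by
    intro m
    rw [← h1, rename_C]
  have hinr : ∀ κ : {l : σ // l ∉ U.T}, φ' (pderiv (Sum.inr κ) (lagS U F)) = 0 := by
    intro κ
    rw [pd_inr_lagS, h1, hφg]
  have hy : ∀ l, φ' (pderiv l (lagS U F)) ∈ maximalIdeal D := by
    rintro (l | κ)
    · by_cases hl : l ∈ U.T
      · have h4 := hcrit l hl
        rw [← h3 l hl] at h4
        exact (Ideal.unit_mul_mem_iff_mem _ hΔ).1 h4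
      · rw [h2 l hl]
        exact Ideal.zero_mem _
    · rw [hinr]
      exact Ideal.zero_mem _
  obtain ⟨c₀, e, hce⟩ := lagS_jac U F hr
  rw [map_mul, map_pow, rename_C] at hce
  have hloc : locIn φ' = locIn φ := lagS_locIn hΔ h1 h2
  refine isRegularLocalRing_constrM φ' hϖ M (F := lagS U F) ?_ ?_
    (fun g hg => lagS_ker hΔ h1 h2 hφF hφg hker M hM g hg) ?_ ?_ hy ?_
    (lagS_hessM hΔ h1 h2 M hM) (t := rename Sum.inl t) ?_ hce hZ' b ?_ ?_
  · rw [lagS, map_add, h1, hφF, zero_add, map_sum]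
    refine Finset.sum_eq_zero fun k _ => ?_
    rw [map_mul, h1, hφg, mul_zero]
  · intro a ha
    rw [hM, Finset.mem_union, Finset.mem_image, Finset.mem_image] at ha
    rcases ha with ⟨b', -, rfl⟩ | ⟨k, -, rfl⟩
    · exact h2 _ b'.2
    · exact hinr k
  · intro m hm
    rw [hC]
    exact hchar m hm
  · rw [hC]
    exact hpm
  · have hres : ∀ x : D, IsLocalRing.residue D x ≠ 0 ↔ IsUnit x := fun x => by
      rw [ne_eq, IsLocalRing.residue_eq_zero_iff, IsLocalRing.mem_maximalIdeal, mem_nonunits_iff,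
        not_not]
    have h5 := det_hess_lagS_ne_zero U F ((IsLocalRing.residue D).comp φ')
      (by rw [RingHom.comp_apply, h1, hres]; exact hΔ)
      (fun l => by
        rw [RingHom.comp_apply, IsLocalRing.residue_eq_zero_iff]
        exact hy _)
      (by rw [RingHom.comp_apply, h1, hres]; exact hdet)
    rw [RingHom.comp_apply, hres] at h5
    exact h5
  · rw [h1]
    exact ht
  · intro i hi1 hi2
    obtain ⟨a1, a2, a3, a4⟩ := hb i hi1 hi2
    rw [hC, hloc]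
    refine ⟨a1, (l9_inJ hφg hΔ h1 h2 h3 hZ' _ i _).mpr a4, a2, ?_⟩
    intro z hz
    obtain ⟨l, rfl⟩ := (hZ' z).mp hz
    rcases l with l | κ
    · by_cases hl : l ∈ U.T
      · have h4 := a3 l hl
        rw [← h3 l hl] at h4
        exact (IsUnit.dvd_mul_left hΔ).mp h4
      · rw [h2 l hl]
        exact dvd_zero _
    · rw [hinr]
      exact dvd_zero _
  · intro R' hR' hle' hx
    rw [hloc] at hle'
    refine hgen R' hR' hle' fun i hi1 hi2 x hx' w hw => ?_
    refine hx i hi1 hi2 x ?_ w hw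
    rw [hC, hloc]
    exact (l9_inJ hφg hΔ h1 h2 h3 hZ' _ i _).mpr hx'

end Pool.Agent.Lib.MP_6a3dac_ag.Bert
end

section

/-!
# The points of the blow-up order
-/

set_option autoImplicit false
set_option linter.unusedSectionVars false

namespace Pool.Agent.Lib.MP_6a3dac_ag.Bert

open MvPolynomial IsLocalRing
open Pool.Agent.Lib.MP_6a3dac_ag.DNF
open Pool.Agent.Lib.MP_6a3dac_ag.Maj

variable {R K A O : Type} [CommRing R] [Field K] [Algebra R K] [CommRing A] [IsDomain A]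
  [Algebra K A] [Algebra R A] [IsScalarTower R K A] {𝒜 : ℕ → Submodule K A} [GradedAlgebra 𝒜]
  [CommRing O] [IsDomain O] [IsDiscreteValuationRing O] [Algebra R O] [Algebra O K]
  [IsScalarTower R O K] (hOK : Function.Injective (algebraMap O K))
  (P : Ideal R) [P.IsPrime] [IsLocalization.AtPrime O P] {n : ℕ}
  {π : MvPolynomial (Fin (n + 1)) O →+* A} (hdeg : ∀ q e, q.IsHomogeneous e → π q ∈ 𝒜 e)
  (hπC : ∀ c, π (C c) = algebraMap K A (algebraMap O K c))
  {δ : ℕ} (hδ : 1 ≤ δ) {G : Finset (MvPolynomial (Fin (n + 1)) O)}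
  (hG : ∀ g ∈ G, g.IsHomogeneous δ)
include hdeg hπC hδ hG

/-- The order generated by the products of the generators of the ideals. -/
theorem orderHypB (ϖ : O) (r : ℕ) :
    DNF.OrderHyp 𝒜 (fun k => π (X k)) (oset π δ G (oA K A O ϖ)) δ (oA K A O ϖ)
      (oA K A O).range r
      (locSub P (Algebra.adjoin R (DNF.WSet (fun k => π (X k)) (oset π δ G (oA K A O ϖ)) r ∪
        DNF.W1Set (fun k => π (X k)) (oA K A O ϖ) r))) := by
  have hdeg0 : ∀ c : O, oA K A O c ∈ 𝒜 0 := fun c => SetLike.algebraMap_mem_graded 𝒜 _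
  have hpow : ∀ j, (oA K A O ϖ) ^ j ∈ 𝒜 0 := fun j => by
    simpa using SetLike.pow_mem_graded j (hdeg0 ϖ)
  have hx : ∀ k, π (X k) ∈ 𝒜 1 := fun k => hdeg _ _ (isHomogeneous_X O k)
  have hB : ∀ j, ∀ b ∈ oset π δ G (oA K A O ϖ) j, b ∈ 𝒜 δ := by
    rintro j b (⟨k, rfl⟩ | ⟨g, hg, rfl⟩)
    · have h1 := SetLike.mul_mem_graded (hpow j) (SetLike.pow_mem_graded δ (hx k))
      simpa using h1
    · exact hdeg _ _ (hG g hg)
  have hadj : IsHomog 𝒜 (Algebra.adjoin R (DNF.WSet (fun k => π (X k))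
      (oset π δ G (oA K A O ϖ)) r ∪ DNF.W1Set (fun k => π (X k)) (oA K A O ϖ) r)) := by
    apply isHomog_adjoin 𝒜
    rintro w (⟨i, q, ⟨β, hβ, rfl⟩, rfl⟩ | ⟨i, rfl⟩)
    · exact ⟨1 + ∑ j ∈ Finset.Icc 1 r, δ, SetLike.mul_mem_graded (hx i)
        (SetLike.prod_mem_graded (A := 𝒜) (fun _ => δ) _ fun j hj => hB j _ (hβ j hj))⟩
    · exact ⟨(∑ j ∈ Finset.Icc 1 r, 0) + 1, SetLike.mul_mem_graded
        (SetLike.prod_mem_graded (A := 𝒜) (fun _ => 0) _ fun j _ => hpow j) (hx i)⟩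
  exact
    { xdeg := hx
      δpos := hδ
      B_deg := hB
      B_pow := fun j k => Or.inl ⟨k, rfl⟩
      Λdeg := by
        rintro _ ⟨c, rfl⟩
        exact hdeg0 c
      ϖΛ := ⟨ϖ, rfl⟩
      hom := isHomog_locSub 𝒜 P hadj
      Λ_le := by
        rintro _ ⟨c, rfl⟩
        obtain ⟨s, hs, a, ha⟩ := exists_smul_oA (K := K) (A := A) P c
        refine ⟨s, hs, ?_⟩
        rw [ha]
        exact Subalgebra.algebraMap_mem _ a
      W_le := fun c hc => le_locSub _ _ (Algebra.subset_adjoin (Or.inl hc))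
      W1_le := fun c hc => le_locSub _ _ (Algebra.subset_adjoin (Or.inr hc))
      gen := by
        intro N hN1 hN2 hN3 t ht
        obtain ⟨a, ha, hat⟩ := ht
        have hadjN : ∀ m ∈ Algebra.adjoin R (DNF.WSet (fun k => π (X k))
            (oset π δ G (oA K A O ϖ)) r ∪ DNF.W1Set (fun k => π (X k)) (oA K A O ϖ) r), m ∈ N := by
          intro m hm
          induction hm using Algebra.adjoin_induction with
          | mem m hm =>
            rcases hm with hm | hm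
            · exact hN2 _ hm
            · exact hN3 _ hm
          | algebraMap a => exact hN1 _ ⟨algebraMap R O a, oA_algebraMap a⟩
          | add a b _ _ ha hb => exact N.add_mem ha hb
          | mul a b _ _ ha hb => exact N.mul_mem ha hb
        obtain ⟨b, hb⟩ := (IsLocalization.map_units O (⟨a, ha⟩ : P.primeCompl)).exists_right_inv
        have hab : algebraMap R A a * oA K A O b = 1 := by
          rw [← oA_algebraMap (K := K) (O := O), ← map_mul, hb, map_one]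
        have h1 : t = oA K A O b * (a • t) := by
          rw [Algebra.smul_def, ← mul_assoc, mul_comm (oA K A O b), hab, one_mul]
        rw [h1]
        exact N.mul_mem (hN1 _ ⟨b, rfl⟩) (hadjN _ hat) }

include hOK in
/-- The local rings of the order. -/
theorem exists_chartPoint {F : Type} [Field F] (ι : A →+* F) (hι : Function.Injective ι)
    (ϖ : O) (r : ℕ) {T : Subalgebra R A}
    (hT : T = locSub P (Algebra.adjoin R (DNF.WSet (fun k => π (X k))
        (oset π δ G (oA K A O ϖ)) r ∪ DNF.W1Set (fun k => π (X k)) (oA K A O ϖ) r)))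
    (Q : Ideal T) (hQ : Q.IsPrime)
    (hrel : ∃ k, 0 < k ∧ ∃ t : T, (t : A) ∈ 𝒜 k ∧ t ∉ Q) :
    ∃ (i : Fin (n + 1)) (φ : MvPolynomial {l : Fin (n + 1) // l ≠ i} O →+* homLoc 𝒜 ι T Q)
      (b : ℕ → homLoc 𝒜 ι T Q), π (X i) ≠ 0 ∧
      (∀ e g, g.IsHomogeneous e → (φ (dehom i g) = 0 ↔ π g = 0)) ∧
      (∀ j, 1 ≤ j → j ≤ r → b j ≠ 0 ∧ b j ∣ φ (C ϖ) ^ j ∧ (∀ g ∈ G, b j ∣ φ (dehom i g)) ∧
        b j ∈ Submodule.span (locIn φ)
          (insert (φ (C ϖ) ^ j) ((fun g => φ (dehom i g)) '' (G : Set _)))) ∧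
      (∀ R' : Subring (homLoc 𝒜 ι T Q), Dom R' → locIn φ ≤ R' →
        (∀ j, 1 ≤ j → j ≤ r → ∀ w, (b j * w = φ (C ϖ) ^ j ∨ ∃ g ∈ G, b j * w = φ (dehom i g)) →
          w ∈ R') → R' = ⊤) := by
  classical
  have hO : DNF.OrderHyp 𝒜 (fun k => π (X k)) (oset π δ G (oA K A O ϖ)) δ (oA K A O ϖ)
      (oA K A O).range r T := by
    rw [hT]; exact orderHypB P hdeg hπC hδ hG ϖ r
  obtain ⟨i, β, hβ, hf, hfQ⟩ := hO.exists_notMem Q hrel
  obtain ⟨D, hD⟩ : ∃ D, D = homLoc 𝒜 ι T Q := ⟨_, rfl⟩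
  have hΛD : ∀ c : O, ι (oA K A O c) ∈ D := fun c =>
    hD ▸ hO.const_mem ι hι Q hβ hf hfQ ⟨c, rfl⟩
  obtain ⟨hx0, hβ0⟩ := DNF.OrderHyp.chart_ne_zero (x := fun k => π (X k)) ι hι Q hf hfQ
  change ι (π (X i)) ≠ 0 at hx0
  have hcoord : ∀ k, ι (π (X k)) / ι (π (X i)) ∈ D := fun k =>
    hD ▸ hO.coord_mem ι hι Q hβ hf hfQ k
  have hratio : ∀ j ∈ Finset.Icc 1 r, ∀ b ∈ oset π δ G (oA K A O ϖ) j, ι b / ι (β j) ∈ D :=
    fun j hj b hb => hD ▸ hO.ratio_mem ι hι Q hβ hf hfQ hj hb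
  -- the evaluation maps
  let oD : O →+* D := (ι.comp (oA K A O)).codRestrict D fun c => hΛD c
  let ψ : MvPolynomial (Fin (n + 1)) O →+* F := eval₂Hom (ι.comp (oA K A O))
    fun k => ι (π (X k)) / ι (π (X i))
  let φ : MvPolynomial {l : Fin (n + 1) // l ≠ i} O →+* D := eval₂Hom oD
    fun l => ⟨ι (π (X l.1)) / ι (π (X i)), hcoord l.1⟩
  have hφC : ∀ c : O, ((φ (C c) : D) : F) = ι (oA K A O c) := by
    intro c
    simp only [φ, coe_eval₂Hom, eval₂_C]
    rfl
  have hφψ : ∀ q, ((φ (dehom i q) : D) : F) = ψ q := by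
    intro q
    have h1 : (D.subtype.comp φ).comp (dehom i : _ →ₐ[O] _).toRingHom = ψ := by
      apply MvPolynomial.ringHom_ext
      · intro a
        change D.subtype (φ (dehom i (C a))) = ψ (C a)
        rw [dehom_C]
        change ((φ (C a) : D) : F) = _
        rw [hφC]
        simp only [ψ, coe_eval₂Hom, eval₂_C]
        rfl
      · intro k
        change D.subtype (φ (dehom i (X k))) = ψ (X k)
        by_cases hk : k = i
        · subst hk
          rw [dehom_X_self, map_one, map_one]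
          simp only [ψ, coe_eval₂Hom, eval₂_X]
          rw [div_self hx0]
        · rw [show k = (⟨k, hk⟩ : {l : Fin (n + 1) // l ≠ i}).1 from rfl, dehom_X]
          simp only [φ, ψ, coe_eval₂Hom, eval₂_X]
          rfl
    exact congrArg (fun g : MvPolynomial (Fin (n + 1)) O →+* F => g q) h1
  have hψhom : ∀ (e : ℕ) (q : MvPolynomial (Fin (n + 1)) O), q.IsHomogeneous e →
      ι (π q) = ι (π (X i)) ^ e * ψ q := by
    intro e q hq
    have h1 : ι (π q) = eval₂ (ι.comp (oA K A O)) (fun k => ι (π (X k))) q := by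
      have h2 : ι.comp π = eval₂Hom (ι.comp (oA K A O)) (fun k => ι (π (X k))) := by
        apply MvPolynomial.ringHom_ext
        · intro a
          simp only [RingHom.comp_apply, coe_eval₂Hom, eval₂_C]
          rw [hπC]
          rfl
        · intro k
          simp only [RingHom.comp_apply, coe_eval₂Hom, eval₂_X]
      exact congrArg (fun g : MvPolynomial (Fin (n + 1)) O →+* F => g q) h2
    rw [h1]
    change _ = ι (π (X i)) ^ e * eval₂ (ι.comp (oA K A O))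
      (fun k => ι (π (X k)) / ι (π (X i))) q
    rw [eval₂_eq, eval₂_eq, Finset.mul_sum]
    refine Finset.sum_congr rfl fun s hs => ?_
    have h3 : s.degree = e := by
      have := hq (mem_support_iff.mp hs)
      rw [← this, Finsupp.degree_eq_weight_one]
      rfl
    have h4 : ∏ k ∈ s.support, (ι (π (X k)) / ι (π (X i))) ^ s k =
        (∏ k ∈ s.support, ι (π (X k)) ^ s k) / ι (π (X i)) ^ e := by
      rw [← h3, Finsupp.degree_apply, ← Finset.prod_pow_eq_pow_sum, ← Finset.prod_div_distrib]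
      refine Finset.prod_congr rfl fun k _ => ?_
      rw [div_pow]
    rw [h4]
    field_simp
  have hpD : ((φ (C ϖ) : D) : F) = ι (oA K A O ϖ) := hφC ϖ
  have hφloc : ∀ g, φ g ∈ locIn φ := map_mem_locIn φ
  have hx1 : ι (π (X i)) ^ δ ≠ 0 := pow_ne_zero _ hx0
  have hφg : ∀ g ∈ G, ((φ (dehom i g) : D) : F) = ι (π g) / ι (π (X i)) ^ δ := by
    intro g hg
    rw [hφψ, hψhom δ g (hG g hg)]
    field_simp
  -- the generators
  have hB : ∀ j, ∀ b ∈ oset π δ G (oA K A O ϖ) j, ∃ y : D,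
      (y : F) = ι b / ι (π (X i)) ^ δ ∧ y ∈ Submodule.span (locIn φ)
          (insert (φ (C ϖ) ^ j) ((fun g => φ (dehom i g)) '' (G : Set _))) := by
    rintro j b (⟨k, rfl⟩ | ⟨g, hg, rfl⟩)
    · refine ⟨φ (dehom i (X k)) ^ δ * (φ (C ϖ)) ^ j, ?_, ?_⟩
      · rw [Subring.coe_mul, Subring.coe_pow, Subring.coe_pow, hφψ, hpD, map_mul, map_pow, map_pow]
        simp only [ψ, coe_eval₂Hom, eval₂_X]
        rw [div_pow]
        ring
      · exact Submodule.smul_mem _
          (⟨φ (dehom i (X k)) ^ δ, (locIn φ).pow_mem (hφloc _) _⟩ : locIn φ)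
          (Submodule.subset_span (Set.mem_insert _ _))
    · exact ⟨φ (dehom i g), hφg g hg, Submodule.subset_span (Or.inr ⟨g, hg, rfl⟩)⟩
  choose! bG hbG1 hbG2 using fun j (hj : j ∈ Finset.Icc 1 r) => hB j (β j) (hβ j hj)
  subst hD
  refine ⟨i, φ, bG, ?_, ?_, ?_, ?_⟩
  · intro h0
    apply hx0
    rw [h0, map_zero]
  · intro e g hg
    constructor
    · intro h0
      apply hι
      rw [hψhom e g hg, ← hφψ, h0, map_zero]
      exact mul_zero _
    · intro h0
      apply Subtype.ext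
      rw [hφψ]
      have h1 := hψhom e g hg
      rw [h0, map_zero] at h1
      exact (mul_eq_zero.mp h1.symm).resolve_left (pow_ne_zero _ hx0)
  · intro j hj1 hj2
    have hj : j ∈ Finset.Icc 1 r := Finset.mem_Icc.mpr ⟨hj1, hj2⟩
    have hb0 := hβ0 j hj
    refine ⟨?_, ?_, ?_, hbG2 j hj⟩
    · intro h0
      have h1 := congrArg (fun z : homLoc 𝒜 ι T Q => (z : F)) h0
      change (bG j : F) = 0 at h1
      rw [hbG1 j hj, div_eq_zero_iff] at h1
      rcases h1 with h1 | h1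
      · exact hb0 h1
      · exact hx1 h1
    · refine ⟨⟨_, hratio j hj ((oA K A O ϖ) ^ j * π (X i) ^ δ)
        (Or.inl ⟨i, rfl⟩)⟩, Subtype.ext ?_⟩
      have e : ι ((oA K A O ϖ) ^ j * π (X i) ^ δ) =
          ι (oA K A O ϖ) ^ j * ι (π (X i)) ^ δ := by
        rw [map_mul, map_pow, map_pow]
      rw [Subring.coe_mul, Subring.coe_pow, hpD, hbG1 j hj]
      change ι (oA K A O ϖ) ^ j = ι (β j) / ι (π (X i)) ^ δ *
        (ι ((oA K A O ϖ) ^ j * π (X i) ^ δ) / ι (β j))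
      rw [e]
      field_simp
    · intro g hg
      refine ⟨⟨_, hratio j hj (π g) (Or.inr ⟨g, hg, rfl⟩)⟩, Subtype.ext ?_⟩
      rw [Subring.coe_mul, hbG1 j hj, hφg g hg]
      change _ = ι (β j) / ι (π (X i)) ^ δ * (ι (π g) / ι (β j))
      field_simp
  · intro R' hdom hRle hRJ
    rw [eq_top_iff]
    rintro ⟨z, hz⟩ -
    have h4 := hO.eq_top ι hι Q hβ hf hfQ (R'.map (homLoc 𝒜 ι T Q).subtype) ?_ ?_ ?_ ?_ ?_ z hz
    · obtain ⟨w, hw, hwz⟩ := h4
      have : w = ⟨z, hz⟩ := Subtype.ext hwz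
      rwa [← this]
    · rintro _ ⟨w, -, rfl⟩
      exact w.2
    · rintro _ ⟨a, ha, rfl⟩ b hb hab
      exact ⟨⟨b, hb⟩, hdom a ha ⟨b, hb⟩ (Subtype.ext hab), rfl⟩
    · rintro _ ⟨c, rfl⟩
      refine ⟨φ (C c), hRle (hφloc _), ?_⟩
      exact hφC c
    · intro k
      refine ⟨φ (dehom i (X k)), hRle (hφloc _), ?_⟩
      change ((φ (dehom i (X k)) : homLoc 𝒜 ι T Q) : F) = _
      rw [hφψ]
      simp only [ψ, coe_eval₂Hom, eval₂_X]
    · intro j hj b hb
      have hj' := Finset.mem_Icc.mp hj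
      have hb0 := hβ0 j hj
      rcases hb with ⟨k, rfl⟩ | ⟨g, hg, rfl⟩
      · have hb' : oA K A O ϖ ^ j * π (X i) ^ δ ∈ oset π δ G (oA K A O ϖ) j :=
          Or.inl ⟨i, rfl⟩
        have h1 : (⟨_, hratio j hj _ hb'⟩ : homLoc 𝒜 ι T Q) ∈ R' := by
          refine hRJ j hj'.1 hj'.2 _ (Or.inl (Subtype.ext ?_))
          rw [Subring.coe_mul, hbG1 j hj, Subring.coe_pow, hpD]
          change ι (β j) / ι (π (X i)) ^ δ * (ι (oA K A O ϖ ^ j * π (X i) ^ δ) / ι (β j)) = _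
          rw [map_mul, map_pow, map_pow]
          field_simp
        refine ⟨(⟨_, hratio j hj _ hb'⟩ : homLoc 𝒜 ι T Q) * φ (dehom i (X k)) ^ δ,
          R'.mul_mem h1 (R'.pow_mem (hRle (hφloc _)) _), ?_⟩
        change (((⟨_, hratio j hj _ hb'⟩ : homLoc 𝒜 ι T Q) * φ (dehom i (X k)) ^ δ :
          homLoc 𝒜 ι T Q) : F) = _
        rw [Subring.coe_mul, Subring.coe_pow, hφψ]
        simp only [ψ, coe_eval₂Hom, eval₂_X]
        rw [map_mul, map_mul, map_pow, map_pow, map_pow, div_pow]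
        field_simp
      · refine ⟨⟨_, hratio j hj _ (Or.inr ⟨g, hg, rfl⟩)⟩, ?_, rfl⟩
        refine hRJ j hj'.1 hj'.2 _ (Or.inr ⟨g, hg, Subtype.ext ?_⟩)
        rw [Subring.coe_mul, hbG1 j hj, hφg g hg]
        change ι (β j) / ι (π (X i)) ^ δ * (ι (π g) / ι (β j)) = _
        field_simp

end Pool.Agent.Lib.MP_6a3dac_ag.Bert
end

section

/-!
# The toroidal points are open
-/

set_option autoImplicit false

namespace Pool.Agent.Lib.MP_6a3dac_ag.Tor

open MvPolynomial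
open Pool.Agent.Lib.MP_6a3dac_ag.DNF Pool.Agent.Lib.MP_6a3dac_ag.Bert
open Pool.Agent.Lib.MP_6a3dac_ag.Fam

variable {R σ : Type} [CommRing R] [DecidableEq σ] [Fintype σ] {m s : ℕ} {e : Fin s → ℕ} {h : R}
  {J : Ideal (MvPolynomial σ R)} {K : Fin s → Ideal (MvPolynomial σ R)}
  {𝔮 : Ideal (MvPolynomial σ R)}

/-- TASK T4a -/
theorem SmoothPt.exists_nbhd (hq : 𝔮.IsPrime) (hh : C h ∉ 𝔮) (hS : SmoothPt m J 𝔮) :
    ∃ t, t ∉ 𝔮 ∧ ∀ 𝔮' : Ideal (MvPolynomial σ R), 𝔮'.IsPrime → t ∉ 𝔮' →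
      TorGood m e h J K 𝔮' := by
  obtain ⟨U, F, hP, hT, hUh, l, hl, hvf⟩ := hS
  refine ⟨C h * (U.h * U.vf l F), ?_, fun 𝔮' hq' ht => ?_⟩
  · intro h1
    rcases hq.mem_or_mem h1 with h2 | h2
    · exact hh h2
    · rcases hq.mem_or_mem h2 with h3 | h3
      · exact hUh h3
      · exact hvf h3
  · have h1 : C h ∉ 𝔮' := fun h2 => ht (Ideal.mul_mem_right _ _ h2)
    refine ⟨fun _ => ⟨U, F, hP, hT, fun h2 => ht ?_, l, hl, fun h2 => ht ?_⟩, fun h2 => absurd h2 h1⟩
    · exact Ideal.mul_mem_left _ _ (Ideal.mul_mem_right _ _ h2)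
    · exact Ideal.mul_mem_left _ _ (Ideal.mul_mem_left _ _ h2)

section AuxB

omit [DecidableEq σ] [Fintype σ] in
/-- The derivation which is a combination of derivations. -/
theorem t4b_comb {τ : Type} [Fintype τ] (c : τ → MvPolynomial σ R)
    (d : τ → Derivation R (MvPolynomial σ R) (MvPolynomial σ R)) :
    ∃ D : Derivation R (MvPolynomial σ R) (MvPolynomial σ R), ∀ f, D f = ∑ i, c i * d i f := by
  refine ⟨∑ i, c i • d i, fun f => ?_⟩
  rw [← Derivation.coeFnAddMonoidHom_apply, map_sum, Finset.sum_apply]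
  rfl

omit [DecidableEq σ] [Fintype σ] in
/-- A derivation which kills the factors kills the product of powers. -/
theorem t4b_prod_pow {τ : Type} (T : Finset τ) (g : τ → MvPolynomial σ R) (n : τ → ℕ)
    (D : Derivation R (MvPolynomial σ R) (MvPolynomial σ R)) (hD : ∀ i ∈ T, D (g i) = 0) :
    D (∏ i ∈ T, g i ^ n i) = 0 := by
  classical
  induction T using Finset.induction_on with
  | empty => rw [Finset.prod_empty]; exact D.map_one_eq_zero
  | insert a T ha ih =>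
    rw [Finset.prod_insert ha, Derivation.leibniz, ih fun i hi => hD i (Finset.mem_insert_of_mem hi),
      Derivation.leibniz_pow, hD a (Finset.mem_insert_self _ _)]
    simp

omit [DecidableEq σ] [Fintype σ] in
theorem t4b_prod_notMem {τ : Type} {𝔭 : Ideal (MvPolynomial σ R)} (hp : 𝔭.IsPrime) (T : Finset τ)
    (g : τ → MvPolynomial σ R) (hg : ∀ i ∈ T, g i ∉ 𝔭) : ∏ i ∈ T, g i ∉ 𝔭 := by
  intro hm
  obtain ⟨i, hi, h1⟩ := (hp.prod_mem_iff).1 hm
  exact hg i hi h1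

omit [DecidableEq σ] [Fintype σ] in
/-- The columns of a subset of the index set have a maximal minor which does not vanish. -/
theorem t4b_minor {τ υ : Type} [Fintype τ] [DecidableEq τ] [Fintype υ] [DecidableEq υ]
    {𝔭 : Ideal (MvPolynomial σ R)} (hp : 𝔭.IsPrime) (N : Matrix τ τ (MvPolynomial σ R))
    (hN : N.det ∉ 𝔭) (inc : υ → τ) (hinc : Function.Injective inc) :
    ∃ r : υ → τ, (Matrix.of fun i i' : υ => N (r i) (inc i')).det ∉ 𝔭 := by
  classical
  let A := MvPolynomial σ R ⧸ 𝔭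
  let L := FractionRing A
  let ψ : MvPolynomial σ R →+* L := (algebraMap A L).comp (Ideal.Quotient.mk 𝔭)
  have hψ : ∀ f, ψ f = 0 ↔ f ∈ 𝔭 := by
    intro f
    rw [← Ideal.Quotient.eq_zero_iff_mem]
    exact map_eq_zero_iff (algebraMap A L) (IsFractionRing.injective A L)
  have hdet : (N.map ψ).det ≠ 0 := by
    rw [← RingHom.mapMatrix_apply, ← RingHom.map_det]
    exact fun h0 => hN ((hψ _).1 h0)
  have hker : ∀ y : υ → L, Matrix.vecMul y (Matrix.of fun i' i => ψ (N i (inc i'))) = 0 →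
      y = 0 := by
    intro y hy
    obtain ⟨v, hv⟩ : ∃ v : τ → L, ∀ i, v i = ∑ i', if inc i' = i then y i' else 0 :=
      ⟨_, fun _ => rfl⟩
    have h1 : (N.map ψ).mulVec v = 0 := by
      funext i
      have h2 : ∑ i', y i' * ψ (N i (inc i')) = 0 := congrFun hy i
      have h3 : (N.map ψ).mulVec v i = ∑ x, ψ (N i x) * v x := rfl
      rw [h3]
      have h4 : ∀ x, ψ (N i x) * v x = ∑ i', if inc i' = x then y i' * ψ (N i x) else 0 := by
        intro x
        rw [hv, Finset.mul_sum]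
        refine Finset.sum_congr rfl fun i' _ => ?_
        split_ifs
        · rw [mul_comm]
        · rw [mul_zero]
      rw [Finset.sum_congr rfl fun x _ => h4 x, Finset.sum_comm]
      refine Eq.trans (Finset.sum_congr rfl fun i' _ => ?_) h2
      rw [Finset.sum_ite_eq, if_pos (Finset.mem_univ _)]
    have h3 := Matrix.eq_zero_of_mulVec_eq_zero hdet h1
    funext i'
    have h4 : v (inc i') = 0 := congrFun h3 (inc i')
    rw [hv, Finset.sum_eq_single i' (fun b _ hb => if_neg fun h => hb (hinc h))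
      (fun h => absurd (Finset.mem_univ _) h), if_pos rfl] at h4
    exact h4
  obtain ⟨r, hr⟩ := Sys.exists_minor_ne_zero _ hker
  refine ⟨r, fun hm => hr ?_⟩
  rw [← hψ, RingHom.map_det] at hm
  rw [← Matrix.det_transpose, ← hm]
  congr 1

end AuxB

/-- TASK T4b: at the points near a toroidal point where `h` does not vanish the scheme is smooth,
at those where it vanishes it is toroidal. -/
theorem TorPt.exists_nbhd (hq : 𝔮.IsPrime) (hJ : J ≤ 𝔮) (hh : C h ∈ 𝔮)
    (he : ∀ i, (e i : MvPolynomial σ R) ∉ 𝔮) (hT : TorPt m e h J K 𝔮) :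
    ∃ t, t ∉ 𝔮 ∧ ∀ 𝔮' : Ideal (MvPolynomial σ R), 𝔮'.IsPrime → J ≤ 𝔮' → t ∉ 𝔮' →
      TorGood m e h J K 𝔮' := by
  classical
  obtain ⟨U, F, w, u, g, I, κ, hpres, hcard, hUh, hF, hw, hu, hgK, hI, hκ, hdet⟩ := hT
  choose hgK1 a ha haf using hgK
  obtain ⟨N, hN⟩ : ∃ N : Matrix I I (MvPolynomial σ R),
      N = Matrix.of fun i i' : I => U.vf (κ i) (g i') := ⟨_, rfl⟩
  rw [← hN] at hdet
  -- the index set is not empty
  have hne : ∃ j, j ∈ I := by
    have h1 : w * ∏ i, g i ^ e i ∈ 𝔮 := by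
      have h2 : w * ∏ i, g i ^ e i = F + u * C h := by rw [hF]; ring
      rw [h2]
      exact Ideal.add_mem _ (hJ hpres.memF) (Ideal.mul_mem_left _ _ hh)
    rcases hq.mem_or_mem h1 with h2 | h2
    · exact absurd h2 hw
    · obtain ⟨i, -, h3⟩ := (hq.prod_mem_iff).1 h2
      exact ⟨i, (hI i).2 (hq.mem_of_pow_mem _ h3)⟩
  obtain ⟨j, hj⟩ := hne
  obtain ⟨D, hD⟩ := t4b_comb (fun i : I => N.adjugate ⟨j, hj⟩ i) (fun i : I => U.vf (κ i))
  have hDg : ∀ i : I, D (g i) = if (⟨j, hj⟩ : I) = i then N.det else 0 := by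
    intro i
    rw [hD]
    have h1 : ∑ k : I, N.adjugate ⟨j, hj⟩ k * U.vf (κ k) (g i) =
        (N.adjugate * N) ⟨j, hj⟩ i := by
      rw [Matrix.mul_apply, hN]
      rfl
    rw [h1, Matrix.adjugate_mul, Matrix.smul_apply, Matrix.one_apply, smul_eq_mul]
    split_ifs <;> simp
  have hDC : D (C h) = 0 := by
    have := D.map_algebraMap h
    rwa [MvPolynomial.algebraMap_eq] at this
  -- the product is split into three parts
  obtain ⟨G1, hG1⟩ : ∃ G1, G1 = ∏ i ∈ Iᶜ, g i ^ e i := ⟨_, rfl⟩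
  obtain ⟨G2, hG2⟩ : ∃ G2, G2 = ∏ i ∈ I.erase j, g i ^ e i := ⟨_, rfl⟩
  have hsplit : ∏ i, g i ^ e i = G1 * (G2 * g j ^ e j) := by
    rw [hG1, hG2, mul_comm _ (g j ^ e j), Finset.mul_prod_erase I (fun i => g i ^ e i) hj,
      mul_comm, Finset.prod_mul_prod_compl]
  have hDG2 : D G2 = 0 := by
    rw [hG2]
    refine t4b_prod_pow _ g e D fun i hi => ?_
    have h1 := hDg ⟨i, Finset.mem_of_mem_erase hi⟩
    rw [if_neg] at h1
    · exact h1
    · intro h2
      exact Finset.ne_of_mem_erase hi (congrArg Subtype.val h2).symm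
  have hDgj : D (g j) = N.det := by
    have h1 := hDg ⟨j, hj⟩
    rwa [if_pos rfl] at h1
  obtain ⟨W, hW⟩ : ∃ W, W = w * G1 := ⟨_, rfl⟩
  have hF2 : F = W * G2 * g j ^ e j - u * C h := by
    rw [hF, hsplit, hW]
    ring
  obtain ⟨A, hA⟩ : ∃ A, A = (e j : MvPolynomial σ R) * u * W * N.det +
    g j * (u * D W - W * D u) := ⟨_, rfl⟩
  have hG1q : G1 ∉ 𝔮 := by
    rw [hG1]
    refine t4b_prod_notMem hq _ _ fun i hi hm => ?_
    exact Finset.mem_compl.1 hi ((hI i).2 (hq.mem_of_pow_mem _ hm))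
  have hWq : W ∉ 𝔮 := by
    rw [hW]
    intro hm
    rcases hq.mem_or_mem hm with h1 | h1
    · exact hw h1
    · exact hG1q h1
  have hAq : A ∉ 𝔮 := by
    intro hm
    have h1 : (e j : MvPolynomial σ R) * u * W * N.det ∈ 𝔮 := by
      have h2 : (e j : MvPolynomial σ R) * u * W * N.det = A - g j * (u * D W - W * D u) := by
        rw [hA]; ring
      rw [h2]
      exact Ideal.sub_mem _ hm (Ideal.mul_mem_right _ _ ((hI j).1 hj))
    rcases hq.mem_or_mem h1 with h2 | h2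
    · rcases hq.mem_or_mem h2 with h3 | h3
      · rcases hq.mem_or_mem h3 with h4 | h4
        · exact he j h4
        · exact hu h4
      · exact hWq h3
    · exact hdet h2
  -- the identity for the derivative of `F`
  have hkey : u * g j * D F = G2 * g j ^ e j * A + g j * D u * F := by
    have h1 : g j * D (g j ^ e j) = (e j : MvPolynomial σ R) * N.det * g j ^ e j := by
      rw [Derivation.leibniz_pow, hDgj]
      rcases Nat.eq_zero_or_pos (e j) with h0 | h0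
      · rw [h0]
        simp
      · obtain ⟨n, hn⟩ := Nat.exists_eq_succ_of_ne_zero h0.ne'
        rw [hn]
        simp only [Nat.succ_eq_add_one, Nat.add_sub_cancel, smul_eq_mul, nsmul_eq_mul]
        ring
    have h2 : D F = (D W * G2) * g j ^ e j + W * G2 * D (g j ^ e j) - D u * C h := by
      rw [hF2, map_sub, Derivation.leibniz, Derivation.leibniz, Derivation.leibniz, hDG2, hDC]
      simp only [smul_eq_mul]
      ring
    rw [h2, hA, hF2]
    linear_combination (u * W * G2) * h1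
  -- the neighbourhood
  refine ⟨U.h * w * u * W * (∏ i, a i) * (∏ i ∈ Iᶜ, g i) * N.det * A, ?_, ?_⟩
  · intro hm
    rcases hq.mem_or_mem hm with hm | hm
    · rcases hq.mem_or_mem hm with hm | hm
      · rcases hq.mem_or_mem hm with hm | hm
        · rcases hq.mem_or_mem hm with hm | hm
          · rcases hq.mem_or_mem hm with hm | hm
            · rcases hq.mem_or_mem hm with hm | hm
              · rcases hq.mem_or_mem hm with hm | hm
                · exact hUh hm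
                · exact hw hm
              · exact hu hm
            · exact hWq hm
          · exact t4b_prod_notMem hq _ _ (fun i _ => ha i) hm
        · exact t4b_prod_notMem hq _ _ (fun i hi hg => Finset.mem_compl.1 hi ((hI i).2 hg)) hm
      · exact hdet hm
    · exact hAq hm
  intro 𝔮' hq' hJ' ht
  have t1 : A ∉ 𝔮' := fun hm => ht (Ideal.mul_mem_left _ _ hm)
  have ht := fun hm => ht (Ideal.mul_mem_right A _ hm)
  have t2 : N.det ∉ 𝔮' := fun hm => ht (Ideal.mul_mem_left _ _ hm)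
  have ht := fun hm => ht (Ideal.mul_mem_right N.det _ hm)
  have t3 : (∏ i ∈ Iᶜ, g i) ∉ 𝔮' := fun hm => ht (Ideal.mul_mem_left _ _ hm)
  have ht := fun hm => ht (Ideal.mul_mem_right (∏ i ∈ Iᶜ, g i) _ hm)
  have t4 : (∏ i, a i) ∉ 𝔮' := fun hm => ht (Ideal.mul_mem_left _ _ hm)
  have ht := fun hm => ht (Ideal.mul_mem_right (∏ i, a i) _ hm)
  have t5 : W ∉ 𝔮' := fun hm => ht (Ideal.mul_mem_left _ _ hm)
  have ht := fun hm => ht (Ideal.mul_mem_right W _ hm)
  have t6 : u ∉ 𝔮' := fun hm => ht (Ideal.mul_mem_left _ _ hm)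
  have ht := fun hm => ht (Ideal.mul_mem_right u _ hm)
  have t7 : w ∉ 𝔮' := fun hm => ht (Ideal.mul_mem_left _ _ hm)
  have t8 : U.h ∉ 𝔮' := fun hm => ht (Ideal.mul_mem_right w _ hm)
  have hgI : ∀ i, g i ∈ 𝔮' → i ∈ I := by
    intro i hi
    by_contra hn
    exact t3 (Ideal.mem_of_dvd _ (Finset.dvd_prod_of_mem _ (Finset.mem_compl.2 hn)) hi)
  constructor
  · -- smooth where `h` does not vanish
    intro hh'
    refine ⟨U, F, hpres, hcard, t8, ?_⟩
    by_contra hcon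
    push Not at hcon
    have hDF : D F ∈ 𝔮' := by
      rw [hD]
      exact Ideal.sum_mem _ fun i _ => Ideal.mul_mem_left _ _ (hcon (κ i) (hκ i))
    have hFq : F ∈ 𝔮' := hJ' hpres.memF
    have h1 : G2 * g j ^ e j * A ∈ 𝔮' := by
      have h2 : G2 * g j ^ e j * A = u * g j * D F - g j * D u * F := by rw [hkey]; ring
      rw [h2]
      exact Ideal.sub_mem _ (Ideal.mul_mem_left _ _ hDF) (Ideal.mul_mem_left _ _ hFq)
    have h3 : G2 * g j ^ e j ∈ 𝔮' := (hq'.mem_or_mem h1).resolve_right t1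
    have h4 : u * C h ∈ 𝔮' := by
      have h5 : u * C h = W * (G2 * g j ^ e j) - F := by rw [hF2]; ring
      rw [h5]
      exact Ideal.sub_mem _ (Ideal.mul_mem_left _ _ h3) hFq
    rcases hq'.mem_or_mem h4 with h5 | h5
    · exact t6 h5
    · exact hh' h5
  · -- toroidal where `h` vanishes
    intro _
    obtain ⟨I', hI'⟩ : ∃ I' : Finset (Fin s), I' = Finset.univ.filter fun i => g i ∈ 𝔮' := ⟨_, rfl⟩
    have hmem : ∀ i, i ∈ I' ↔ g i ∈ 𝔮' := by
      intro i
      rw [hI', Finset.mem_filter]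
      exact ⟨fun h => h.2, fun h => ⟨Finset.mem_univ _, h⟩⟩
    obtain ⟨r, hr⟩ := t4b_minor hq' N t2 (fun i : I' => (⟨i, hgI i ((hmem i).1 i.2)⟩ : I))
      (fun x y hxy => Subtype.ext (congrArg (fun z : I => (z : Fin s)) hxy))
    refine ⟨U, F, w, u, g, I', fun i => κ (r i), hpres, hcard, t8, hF, t7, t6, fun i =>
      ⟨hgK1 i, a i, fun hm => ?_, haf i⟩, hmem, fun i => hκ _, ?_⟩
    · exact t4 (Ideal.mem_of_dvd _ (Finset.dvd_prod_of_mem _ (Finset.mem_univ i)) hm)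
    · have h1 : (Matrix.of fun i i' : I' => U.vf (κ (r i)) (g i')) =
          Matrix.of fun i i' : I' => N (r i) (⟨i', hgI i' ((hmem i').1 i'.2)⟩ : I) := by
        rw [hN]
        rfl
      rw [h1]
      exact hr

/-- TASK T4c -/
theorem TorPt.map {R' : Type} [CommRing R'] (θ : R →+* R')
    {𝔮' : Ideal (MvPolynomial σ R')}
    (hT : TorPt m e h J K (𝔮'.comap (MvPolynomial.map θ))) :
    TorPt m e (θ h) (J.map (MvPolynomial.map θ)) (fun i => (K i).map (MvPolynomial.map θ)) 𝔮' := by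
  obtain ⟨U, F, w, u, g, I, κ, hP, hT, hUh, hF, hw, hu, hK, hI, hκ, hdet⟩ := hT
  refine ⟨U.map θ, MvPolynomial.map θ F, MvPolynomial.map θ w, MvPolynomial.map θ u,
    fun i => MvPolynomial.map θ (g i), I, κ, hP.map θ, hT, ?_, ?_, hw, hu, fun i => ?_, fun i => ?_,
    hκ, ?_⟩
  · rw [Std.map_hL]
    exact hUh
  · rw [hF, map_sub, map_mul, map_mul, map_prod, map_C]
    simp only [map_pow]
  · obtain ⟨hg, a, ha, haK⟩ := hK i
    refine ⟨Ideal.mem_map_of_mem _ hg, MvPolynomial.map θ a, ha, fun f hf => ?_⟩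
    have hr : J.map (MvPolynomial.map θ) ⊔ Ideal.span {MvPolynomial.map θ (g i)} =
        (J ⊔ Ideal.span {g i}).map (MvPolynomial.map θ) := by
      rw [Ideal.map_sup, Ideal.map_span, Set.image_singleton]
    rw [hr]
    refine Submodule.span_induction (p := fun f _ => MvPolynomial.map θ a * f ∈
      (J ⊔ Ideal.span {g i}).map (MvPolynomial.map θ)) ?_ ?_ ?_ ?_ hf
    · rintro _ ⟨x, hx, rfl⟩
      rw [← map_mul]
      exact Ideal.mem_map_of_mem _ (haK x hx)
    · rw [mul_zero]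
      exact Ideal.zero_mem _
    · intro x y _ _ hx hy
      rw [mul_add]
      exact Ideal.add_mem _ hx hy
    · intro c x _ hx
      rw [smul_eq_mul, mul_left_comm]
      exact Ideal.mul_mem_left _ _ hx
  · exact hI i
  · have hM : (Matrix.of fun i i' : I => (U.map θ).vf (κ i) (MvPolynomial.map θ (g i'))) =
        (Matrix.of fun i i' : I => U.vf (κ i) (g i')).map (MvPolynomial.map θ) := by
      refine Matrix.ext fun i i' => ?_
      rw [Matrix.of_apply, Matrix.map_apply, Matrix.of_apply, Std.map_vfL]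
    rw [hM]
    have hd : ((Matrix.of fun i i' : I => U.vf (κ i) (g i')).map (MvPolynomial.map θ)).det =
        MvPolynomial.map θ (Matrix.of fun i i' : I => U.vf (κ i) (g i')).det :=
      (RingHom.map_det (MvPolynomial.map θ) _).symm
    rw [hd]
    exact hdet

/-- TASK T4c -/
theorem TorGood.map {R' : Type} [CommRing R'] (θ : R →+* R')
    {𝔮' : Ideal (MvPolynomial σ R')}
    (hT : TorGood m e h J K (𝔮'.comap (MvPolynomial.map θ))) :
    TorGood m e (θ h) (J.map (MvPolynomial.map θ)) (fun i => (K i).map (MvPolynomial.map θ)) 𝔮' := by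
  have hC : (C h ∈ 𝔮'.comap (MvPolynomial.map θ)) ↔ C (θ h) ∈ 𝔮' := by
    rw [Ideal.mem_comap, map_C]
  exact ⟨fun h1 => (hT.1 (fun h2 => h1 (hC.mp h2))).map θ, fun h1 => TorPt.map θ (hT.2 (hC.mpr h1))⟩

end Pool.Agent.Lib.MP_6a3dac_ag.Tor
end

section

/-!
# Spreading out: the toroidal points
-/

set_option autoImplicit false

namespace Pool.Agent.Lib.MP_6a3dac_ag.Tor

open MvPolynomial NumberField IsDedekindDomain
open Pool.Agent.Lib.MP_6a3dac_ag.DNF Pool.Agent.Lib.MP_6a3dac_ag.Bert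
open Pool.Agent.Lib.MP_6a3dac_ag.Fam

/-- The elements `t` such that the scheme is good at all its points where `t` does not vanish. -/
def t5_set {R σ : Type} [CommRing R] [DecidableEq σ] [Fintype σ] (m : ℕ) {s : ℕ} (e : Fin s → ℕ)
    (h : R) (J : Ideal (MvPolynomial σ R)) (K : Fin s → Ideal (MvPolynomial σ R)) :
    Set (MvPolynomial σ R) :=
  {t | ∀ 𝔮' : Ideal (MvPolynomial σ R), 𝔮'.IsPrime → J ≤ 𝔮' → t ∉ 𝔮' → TorGood m e h J K 𝔮'}

/-- Near a good point there are only good points. -/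
theorem t5_exists_mem {R σ : Type} [CommRing R] [DecidableEq σ] [Fintype σ] {m s : ℕ}
    {e : Fin s → ℕ} {h : R} {J : Ideal (MvPolynomial σ R)} {K : Fin s → Ideal (MvPolynomial σ R)}
    {𝔮 : Ideal (MvPolynomial σ R)} (hq : 𝔮.IsPrime) (hJ : J ≤ 𝔮)
    (he : ∀ i, (e i : MvPolynomial σ R) ∉ 𝔮) (hT : TorGood m e h J K 𝔮) :
    ∃ t ∈ t5_set m e h J K, t ∉ 𝔮 := by
  by_cases hh : C h ∈ 𝔮
  · obtain ⟨t, ht, H⟩ := TorPt.exists_nbhd hq hJ hh he (hT.2 hh)
    exact ⟨t, fun 𝔮' h1 h2 h3 => H 𝔮' h1 h2 h3, ht⟩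
  · obtain ⟨t, ht, H⟩ := SmoothPt.exists_nbhd (e := e) (K := K) hq hh (hT.1 hh)
    exact ⟨t, fun 𝔮' h1 _ h3 => H 𝔮' h1 h3, ht⟩

variable {E : Type} [Field E] [NumberField E] {ι : Type} {m c s : ℕ}
  {J : HomIdeal (MvPolynomial ι (𝓞 E)) (m + c + 1)} {e : Fin s → ℕ} {h : MvPolynomial ι (𝓞 E)}
  {K : Fin s → HomIdeal (MvPolynomial ι (𝓞 E)) (m + c + 1)}

/-- A multiple of a power of `g` by a constant lies in the ideal of the bad points. -/
theorem t5_exists (he : ∀ i, 0 < e i) (i : Fin (m + c + 1)) (g : MvPolynomial ι (𝓞 E))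
    (H : ∀ (𝔮 : Ideal (MvPolynomial {l : Fin (m + c + 1) // l ≠ i} (MvPolynomial ι (𝓞 E)))),
      𝔮.IsPrime → dId J i ≤ 𝔮 → (∀ z : 𝓞 E, C (C z) ∈ 𝔮 → z = 0) → C g ∉ 𝔮 →
        TorGood m e h (dId J i) (fun j => dId (K j) i) 𝔮) :
    ∃ z : 𝓞 E, z ≠ 0 ∧ ∃ r : ℕ, C (C z) * (C g) ^ r ∈
      dId J i ⊔ Ideal.span (t5_set m e h (dId J i) (fun j => dId (K j) i)) := by
  classical
  let M : Submonoid (MvPolynomial {l : Fin (m + c + 1) // l ≠ i} (MvPolynomial ι (𝓞 E))) :=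
    { carrier := {y | ∃ z : 𝓞 E, z ≠ 0 ∧ ∃ r : ℕ, y = C (C z) * (C g) ^ r}
      one_mem' := ⟨1, one_ne_zero, 0, by simp⟩
      mul_mem' := by
        rintro _ _ ⟨z, hz, r, rfl⟩ ⟨w, hw, s, rfl⟩
        exact ⟨z * w, mul_ne_zero hz hw, r + s, by rw [C_mul, C_mul, pow_add]; ring⟩ }
  obtain ⟨x, ⟨z, hz, r, rfl⟩, hx⟩ := ff1_compact (dId J i)
    (t5_set m e h (dId J i) (fun j => dId (K j) i)) M (by
      intro 𝔮 h𝔮 hle hM
      have hz : ∀ z : 𝓞 E, C (C z) ∈ 𝔮 → z = 0 := by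
        intro z hz
        by_contra h0
        exact hM _ ⟨z, h0, 0, by simp⟩ hz
      have hg : (C g : MvPolynomial {l : Fin (m + c + 1) // l ≠ i} (MvPolynomial ι (𝓞 E))) ∉ 𝔮 :=
        fun hg => hM _ ⟨1, one_ne_zero, 1, by simp⟩ hg
      refine t5_exists_mem h𝔮 hle (fun j hj => ?_) (H 𝔮 h𝔮 hle hz hg)
      have h1 : (C (C (e j : 𝓞 E)) :
          MvPolynomial {l : Fin (m + c + 1) // l ≠ i} (MvPolynomial ι (𝓞 E))) ∈ 𝔮 := by
        rw [map_natCast, map_natCast]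
        exact hj
      exact (he j).ne' (Nat.cast_eq_zero.1 (hz _ h1)))
  exact ⟨z, hz, r, hx⟩

/-- TASK T5: as `exists_nodal`, with the ideal generated by `J` and all `t` such that `TorGood`
holds at all primes which contain `J` and do not contain `t`. -/
theorem exists_torOver [Finite ι] {g G : MvPolynomial ι (𝓞 E)} (he : ∀ i, 0 < e i)
    (hJK : ∀ i, J.ideal ≤ (K i).ideal) (hhK : ∀ i, C h ∈ (K i).ideal)
    (H : ∀ (i : Fin (m + c + 1))
      (𝔮 : Ideal (MvPolynomial {l : Fin (m + c + 1) // l ≠ i} (MvPolynomial ι (𝓞 E)))),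
      𝔮.IsPrime → dId J i ≤ 𝔮 → (∀ z : 𝓞 E, C (C z) ∈ 𝔮 → z = 0) → (C g ∉ 𝔮 ∨ C G ∉ 𝔮) →
        TorGood m e h (dId J i) (fun j => dId (K j) i) 𝔮) :
    ∃ m₀ : 𝓞 E, m₀ ≠ 0 ∧ ∀ P : HeightOneSpectrum (𝓞 E), m₀ ∉ P.asIdeal → ∀ a : ι → 𝓞 E,
      (eval a g ∉ P.asIdeal ∨ eval a G ∉ P.asIdeal) →
        TorOver P e (eval a h) (fib J a) (fun j => fib (K j) a) := by
  classical
  have h1 := fun i => t5_exists (J := J) (h := h) (K := K) he i g
    fun 𝔮 a1 a2 a3 a4 => H i 𝔮 a1 a2 a3 (Or.inl a4)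
  have h2 := fun i => t5_exists (J := J) (h := h) (K := K) he i G
    fun 𝔮 a1 a2 a3 a4 => H i 𝔮 a1 a2 a3 (Or.inr a4)
  choose z hz r hr using h1
  choose w hw l hl using h2
  refine ⟨(∏ i, (z i * w i)) * ∏ j, (e j : 𝓞 E), mul_ne_zero
    (Finset.prod_ne_zero_iff.2 fun i _ => mul_ne_zero (hz i) (hw i))
    (Finset.prod_ne_zero_iff.2 fun j _ => Nat.cast_ne_zero.2 (he j).ne'), ?_⟩
  intro P hP a hor
  have hzw : ∀ i, z i * w i ∉ P.asIdeal := fun i hm => hP (Ideal.mul_mem_right _ _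
    (Ideal.mem_of_dvd _ (Finset.dvd_prod_of_mem _ (Finset.mem_univ i)) hm))
  refine ⟨fun j => Ideal.map_mono (hJK j), fun j => ?_, fun j hm => hP (Ideal.mul_mem_left _ _
    (Ideal.mem_of_dvd _ (Finset.dvd_prod_of_mem _ (Finset.mem_univ j)) hm)), ?_⟩
  · have h3 := Ideal.mem_map_of_mem (MvPolynomial.map (eval a)) (hhK j)
    rw [map_C] at h3
    exact h3
  intro i 𝔮 h𝔮 hle hPle
  have hCP : ∀ y : 𝓞 E, y ∉ P.asIdeal →
      (C y : MvPolynomial {l : Fin (m + c + 1) // l ≠ i} (𝓞 E)) ∉ 𝔮 := by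
    intro y hy hmem
    have hmax : P.asIdeal.IsMaximal := P.isMaximal
    have h3 : P.asIdeal ≤ 𝔮.comap (C : 𝓞 E →+* _) := Ideal.map_le_iff_le_comap.1 hPle
    have h4 : 𝔮.comap (C : 𝓞 E →+* MvPolynomial {l : Fin (m + c + 1) // l ≠ i} (𝓞 E)) ≠ ⊤ :=
      Ideal.comap_ne_top _ h𝔮.ne_top
    rw [hmax.eq_of_le h4 h3] at hy
    exact hy hmem
  have hprime : (𝔮.comap (MvPolynomial.map (eval a))).IsPrime := Ideal.comap_isPrime _ 𝔮
  have key : ∀ (y : 𝓞 E) (f : MvPolynomial ι (𝓞 E)) (k : ℕ), y ∉ P.asIdeal →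
      eval a f ∉ P.asIdeal → C (C y) * (C f) ^ k ∈
        dId J i ⊔ Ideal.span (t5_set m e h (dId J i) (fun j => dId (K j) i)) →
      TorGood m e h (dId J i) (fun j => dId (K j) i) (𝔮.comap (MvPolynomial.map (eval a))) := by
    intro y f k hy hf hmem
    have h3 : C (C y) * (C f) ^ k ∉ 𝔮.comap (MvPolynomial.map (eval a)) := by
      intro h4
      rcases hprime.mem_or_mem h4 with h5 | h5
      · rw [Ideal.mem_comap, map_C, eval_C] at h5
        exact hCP y hy h5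
      · have h6 := hprime.mem_of_pow_mem _ h5
        rw [Ideal.mem_comap, map_C] at h6
        exact hCP _ hf h6
    obtain ⟨t, ht, hn⟩ := ff1_exists hmem (ff1_dId_le hle) h3
    exact ht _ hprime (ff1_dId_le hle) hn
  have hgood : TorGood m e h (dId J i) (fun j => dId (K j) i)
      (𝔮.comap (MvPolynomial.map (eval a))) := by
    rcases hor with hg | hG
    · exact key (z i) g (r i) (fun hm => hzw i (Ideal.mul_mem_right _ _ hm)) hg (hr i)
    · exact key (w i) G (l i) (fun hm => hzw i (Ideal.mul_mem_left _ _ hm)) hG (hl i)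
  have h7 := TorGood.map (eval a) hgood
  have h8 : (fun j => (dId (K j) i).map (MvPolynomial.map (eval a)))
      = fun j => dId (fib (K j) a) i := funext fun j => (dId_bc (eval a) (K j) i).symm
  rw [← dId_bc, h8] at h7
  exact h7

end Pool.Agent.Lib.MP_6a3dac_ag.Tor
end

section

/-!
# Regularity of the toric modification
-/

set_option autoImplicit false

namespace Pool.Agent.Lib.MP_6a3dac_ag.Tor

open MvPolynomial IsLocalRing
open Pool.Agent.Lib.MP_6a3dac_ag.DNF Pool.Agent.Lib.MP_6a3dac_ag.Bert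
open Pool.Agent.Lib.MP_6a3dac_ag.Fam

section MulIdeal

variable {B D : Type} [CommRing B] [CommRing D]

/-- The ideal of the elements whose image is a multiple of `x` with a factor in `locIn φ`. -/
def t3d_mulIdeal (φ : B →+* D) (x : D) : Ideal B where
  carrier := {f | ∃ c ∈ locIn φ, φ f = c * x}
  add_mem' := by
    rintro f f' ⟨c, hc, h⟩ ⟨c', hc', h'⟩
    exact ⟨c + c', (locIn φ).add_mem hc hc', by rw [map_add, h, h', add_mul]⟩
  zero_mem' := ⟨0, (locIn φ).zero_mem, by rw [map_zero, zero_mul]⟩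
  smul_mem' := by
    rintro a f ⟨c, hc, h⟩
    exact ⟨φ a * c, (locIn φ).mul_mem (map_mem_locIn φ a) hc, by
      rw [smul_eq_mul, map_mul, h, mul_assoc]⟩

theorem t3d_mem {φ : B →+* D} {x : D} {f : B} :
    f ∈ t3d_mulIdeal φ x ↔ ∃ c ∈ locIn φ, φ f = c * x := Iff.rfl

theorem t3d_mul_le (φ : B →+* D) (x y : D) :
    t3d_mulIdeal φ x * t3d_mulIdeal φ y ≤ t3d_mulIdeal φ (x * y) := by
  rw [Ideal.mul_le]
  rintro f ⟨c, hc, h⟩ f' ⟨c', hc', h'⟩
  exact ⟨c * c', (locIn φ).mul_mem hc hc', by rw [map_mul, h, h', mul_mul_mul_comm]⟩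

theorem t3d_pow_le (φ : B →+* D) (x : D) (n : ℕ) :
    t3d_mulIdeal φ x ^ n ≤ t3d_mulIdeal φ (x ^ n) := by
  induction n with
  | zero =>
    intro f _
    exact ⟨φ f, map_mem_locIn φ f, by rw [pow_zero, mul_one]⟩
  | succ n ih =>
    rw [pow_succ, pow_succ]
    exact (Ideal.mul_mono ih le_rfl).trans (t3d_mul_le φ _ _)

theorem t3d_prod_le {ι : Type} (φ : B →+* D) (s : Finset ι) (x : ι → D) (I : ι → Ideal B)
    (h : ∀ i, I i ≤ t3d_mulIdeal φ (x i)) :
    ∏ i ∈ s, I i ≤ t3d_mulIdeal φ (∏ i ∈ s, x i) := by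
  classical
  induction s using Finset.induction_on with
  | empty =>
    intro f _
    exact ⟨φ f, map_mem_locIn φ f, by rw [Finset.prod_empty, mul_one]⟩
  | insert i s hi ih =>
    rw [Finset.prod_insert hi, Finset.prod_insert hi]
    exact (Ideal.mul_mono (h i) ih).trans (t3d_mul_le φ _ _)

/-- The image of the ideal `torSpan K ϖ 𝒢`. -/
theorem t3d_torSpan {s : ℕ} (φ : B →+* D) (γ : Fin s → D) (K : Fin s → Ideal B) (ϖ : B)
    (𝒢 : Finset ((Fin s → ℕ) × ℕ)) (h : ∀ i, K i ≤ t3d_mulIdeal φ (γ i))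
    {f : B} (hf : f ∈ torSpan K ϖ 𝒢) :
    φ f ∈ Submodule.span (locIn φ) {x | ∃ ν ∈ 𝒢, x = (∏ i, γ i ^ ν.1 i) * φ ϖ ^ ν.2} := by
  obtain ⟨N, hN⟩ : ∃ N : Submodule (locIn φ) D, N = Submodule.span (locIn φ)
      {x | ∃ ν ∈ 𝒢, x = (∏ i, γ i ^ ν.1 i) * φ ϖ ^ ν.2} := ⟨_, rfl⟩
  obtain ⟨M, hM⟩ : ∃ M : Ideal B, ∀ f, f ∈ M ↔ φ f ∈ N :=
    ⟨{ carrier := {f | φ f ∈ N}
       add_mem' := fun {a b} ha hb => by
        change φ (a + b) ∈ N
        rw [map_add]
        exact Submodule.add_mem _ ha hb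
       zero_mem' := by
        change φ 0 ∈ N
        rw [map_zero]
        exact Submodule.zero_mem _
       smul_mem' := fun a f hf => by
        change φ (a * f) ∈ N
        rw [map_mul]
        exact N.smul_mem (⟨φ a, map_mem_locIn φ a⟩ : locIn φ) hf }, fun _ => Iff.rfl⟩
  rw [← hN, ← hM]
  have hle : torSpan K ϖ 𝒢 ≤ M := by
    refine iSup₂_le fun ν hν => ?_
    have h1 : (∏ j, K j ^ ν.1 j) * Ideal.span {ϖ ^ ν.2} ≤
        t3d_mulIdeal φ ((∏ i, γ i ^ ν.1 i) * φ ϖ ^ ν.2) := by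
      refine (Ideal.mul_mono (t3d_prod_le φ Finset.univ (fun i => γ i ^ ν.1 i)
        (fun i => K i ^ ν.1 i) fun i => ?_) ?_).trans (t3d_mul_le φ _ _)
      · exact (Ideal.pow_right_mono (h i) _).trans (t3d_pow_le φ _ _)
      · rw [Ideal.span_le, Set.singleton_subset_iff]
        exact ⟨1, (locIn φ).one_mem, by rw [map_pow, one_mul]⟩
    intro f hf
    obtain ⟨c, hc, hfc⟩ := h1 hf
    rw [hM, hfc, hN]
    exact Submodule.smul_mem _ (⟨c, hc⟩ : locIn φ) (Submodule.subset_span ⟨ν, hν, rfl⟩)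
  exact hle hf

theorem t3d_mem_torSpan {s : ℕ} {K : Fin s → Ideal B} {ϖ : B} {𝒢 : Finset ((Fin s → ℕ) × ℕ)}
    {g : Fin s → B} (hg : ∀ i, g i ∈ K i) {ν : (Fin s → ℕ) × ℕ} (hν : ν ∈ 𝒢) :
    (∏ i, g i ^ ν.1 i) * ϖ ^ ν.2 ∈ torSpan K ϖ 𝒢 := by
  have h1 : (∏ j, K j ^ ν.1 j) * Ideal.span {ϖ ^ ν.2} ≤ torSpan K ϖ 𝒢 :=
    le_iSup₂ (f := fun (ν : (Fin s → ℕ) × ℕ) (_ : ν ∈ 𝒢) =>
      (∏ j, K j ^ ν.1 j) * Ideal.span {ϖ ^ ν.2}) ν hν
  exact h1 (Ideal.mul_mem_mul (Ideal.prod_mem_prod fun i _ => Ideal.pow_mem_pow (hg i) _)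
    (Ideal.mem_span_singleton_self _))

end MulIdeal

section Exponents

variable {D : Type} [CommRing D] {s : ℕ}

/-- The monomials in the elements `γ i` and `p` in terms of the coordinates of the chart. -/
theorem t3d_monomial {t : TChart s} {γ : Fin s → D} {p W : D} {y : Fin s → D}
    (hγ : ∀ i, γ i = W ^ t.c i * ∏ ρ, y ρ ^ t.A ρ i) (hp : p = W ^ t.c₀ * ∏ ρ, y ρ ^ t.β ρ)
    (ν : Fin s → ℕ) (ν₀ : ℕ) :
    (∏ i, γ i ^ ν i) * p ^ ν₀ = W ^ (∑ i, t.c i * ν i + t.c₀ * ν₀) *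
      ∏ ρ, y ρ ^ (∑ i, t.A ρ i * ν i + t.β ρ * ν₀) := by
  simp only [hγ, hp]
  have h1 : ∀ i, (W ^ t.c i * ∏ ρ, y ρ ^ t.A ρ i) ^ ν i =
      W ^ (t.c i * ν i) * ∏ ρ, y ρ ^ (t.A ρ i * ν i) := by
    intro i
    rw [mul_pow, ← pow_mul, ← Finset.prod_pow]
    congr 1
    exact Finset.prod_congr rfl fun ρ _ => (pow_mul _ _ _).symm
  have h2 : (W ^ t.c₀ * ∏ ρ, y ρ ^ t.β ρ) ^ ν₀ =
      W ^ (t.c₀ * ν₀) * ∏ ρ, y ρ ^ (t.β ρ * ν₀) := by
    rw [mul_pow, ← pow_mul, ← Finset.prod_pow]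
    congr 1
    exact Finset.prod_congr rfl fun ρ _ => (pow_mul _ _ _).symm
  rw [h2, Finset.prod_congr rfl fun i _ => h1 i, Finset.prod_mul_distrib, Finset.prod_comm,
    Finset.prod_pow_eq_pow_sum, mul_mul_mul_comm, ← pow_add, ← Finset.prod_mul_distrib]
  congr 1
  refine Finset.prod_congr rfl fun ρ _ => ?_
  rw [Finset.prod_pow_eq_pow_sum, pow_add]

/-- The exponents of the coordinates `y ρ`. -/
theorem t3d_exponent {t : TChart s} {e : Fin s → ℕ} {v : ℕ} {𝒢 : Finset ((Fin s → ℕ) × ℕ)}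
    (ht : t.IsFor e v 𝒢) {ν : (Fin s → ℕ) × ℕ} (hν : ν ∈ 𝒢) :
    ∃ n : Fin s → ℕ, ∀ ρ, ∑ i, t.A ρ i * ν.1 i + t.β ρ * ν.2 =
      (∑ i, t.A ρ i * t.μ i + t.β ρ * t.μ₀) + n ρ := by
  obtain ⟨n, k, h1, h2⟩ := ht.ge ν hν
  refine ⟨n, fun ρ => ?_⟩
  have h3 : (∑ i, (t.A ρ i : ℤ) * ((ν.1 i : ℤ) - t.μ i)) + t.β ρ * ((ν.2 : ℤ) - t.μ₀) = n ρ := by
    have h4 : ∑ i, (t.A ρ i : ℤ) * ((ν.1 i : ℤ) - t.μ i) =
        ∑ ρ', n ρ' * ∑ i, (t.A ρ i : ℤ) * t.B ρ' i + k * ∑ i, (e i : ℤ) * t.A ρ i := by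
      simp only [h1, mul_add, Finset.mul_sum, Finset.sum_add_distrib]
      rw [Finset.sum_comm]
      congr 1
      · exact Finset.sum_congr rfl fun _ _ => Finset.sum_congr rfl fun _ _ => by ring
      · exact Finset.sum_congr rfl fun _ _ => by ring
    have h5 : (t.β ρ : ℤ) * ((ν.2 : ℤ) - t.μ₀) =
        ∑ ρ', n ρ' * ((t.β ρ : ℤ) * t.B₀ ρ') - k * (v * t.β ρ) := by
      rw [h2, mul_sub, Finset.mul_sum]
      congr 1
      · exact Finset.sum_congr rfl fun _ _ => by ring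
      · ring
    have h6 : ∑ i, (e i : ℤ) * t.A ρ i = v * t.β ρ := by exact_mod_cast ht.rel ρ
    rw [h4, h5, h6]
    have h7 : ∑ ρ', (n ρ' : ℤ) * ∑ i, (t.A ρ i : ℤ) * t.B ρ' i +
        ∑ ρ', (n ρ' : ℤ) * ((t.β ρ : ℤ) * t.B₀ ρ') = n ρ := by
      rw [← Finset.sum_add_distrib]
      have h8 : ∀ ρ', (n ρ' : ℤ) * ∑ i, (t.A ρ i : ℤ) * t.B ρ' i +
          (n ρ' : ℤ) * ((t.β ρ : ℤ) * t.B₀ ρ') = if ρ = ρ' then (n ρ' : ℤ) else 0 := by
        intro ρ'
        rw [← mul_add, ht.dual₁ ρ ρ', mul_ite, mul_one, mul_zero]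
      rw [Finset.sum_congr rfl fun ρ' _ => h8 ρ', Finset.sum_ite_eq]
      simp
    linear_combination h7
  have h9 : (∑ i, (t.A ρ i : ℤ) * ((ν.1 i : ℤ) - t.μ i)) =
      ∑ i, (t.A ρ i : ℤ) * ν.1 i - ∑ i, (t.A ρ i : ℤ) * t.μ i := by
    rw [← Finset.sum_sub_distrib]
    exact Finset.sum_congr rfl fun _ _ => by ring
  rw [h9] at h3
  zify
  linear_combination h3

end Exponents

variable {O σ D : Type} [CommRing O] [IsDomain O] [IsDiscreteValuationRing O] [DecidableEq σ]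
  [Fintype σ] [CommRing D] [IsDomain D] [IsLocalRing D]

/-- TASK T3d -/
theorem regular_of_toric (φ : MvPolynomial σ O →+* D) {J : Ideal (MvPolynomial σ O)} {m s : ℕ}
    {e e' : Fin s → ℕ} {v v' g₀ : ℕ} (he : ∀ i, 0 < e i) (hv : 0 < v) (hg₀ : 0 < g₀)
    (hee : ∀ i, e i = g₀ * e' i) (hvv : v = g₀ * v') {𝒢 : Finset ((Fin s → ℕ) × ℕ)}
    (h𝒢 : IsCharts e' v' 𝒢) {ϖ : O} (hϖ : Irreducible ϖ) {K : Fin s → Ideal (MvPolynomial σ O)}
    (hJ : ∀ f ∈ J, φ f = 0) (hker : ∀ f, φ f = 0 → ∃ τ, φ τ ≠ 0 ∧ τ * f ∈ J)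
    (hϖm : φ (C ϖ) ∈ maximalIdeal D) (hϖ0 : φ (C ϖ) ≠ 0) (hed : ∀ i, IsUnit (e i : D))
    (hT : TorPt m e (ϖ ^ v) J K (Ideal.comap φ (maximalIdeal D)))
    (G : Set (MvPolynomial σ O)) (hG : Ideal.span G = torSpan K (C ϖ) 𝒢)
    {Θ : MvPolynomial σ O} (hΘ : Θ ∈ torSpan K (C ϖ) 𝒢) (b : D) (hb0 : b ≠ 0) (hb1 : b ∣ φ Θ)
    (hb2 : ∀ f ∈ G, b ∣ φ f)
    (hb3 : b ∈ Submodule.span (locIn φ) (insert (φ Θ) (φ '' G)))
    (hmin : ∀ R' : Subring D, Dom R' → locIn φ ≤ R' →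
      (∀ w, (b * w = φ Θ ∨ ∃ f ∈ G, b * w = φ f) → w ∈ R') → R' = ⊤) :
    IsRegularLocalRing D := by
  classical
  have _ := hb1
  obtain ⟨U, F, w, u, g, I, κ, hpres, -, hUh, hF, hw, hu, hgK, hI, hκ, hdet⟩ := hT
  have hmem : ∀ f, f ∈ Ideal.comap φ (maximalIdeal D) ↔ φ f ∈ maximalIdeal D := fun f =>
    Ideal.mem_comap
  have hun : ∀ f, f ∉ Ideal.comap φ (maximalIdeal D) ↔ IsUnit (φ f) := by
    intro f
    rw [hmem, IsLocalRing.mem_maximalIdeal, mem_nonunits_iff, not_not]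
  have hwu : IsUnit (φ w) := (hun w).mp hw
  have huu : IsUnit (φ u) := (hun u).mp hu
  have hhu : IsUnit (φ U.h) := (hun _).mp hUh
  have hsu : IsUnit (φ U.s) := by
    have h1 := hhu
    rw [Std.h, map_mul] at h1
    exact isUnit_of_mul_isUnit_left h1
  have heq : φ w * ∏ i, φ (g i) ^ e i = φ u * φ (C ϖ) ^ v := by
    have h1 := hJ F hpres.memF
    rw [hF, map_sub, map_mul, map_mul, map_prod, sub_eq_zero] at h1
    simp only [map_pow] at h1
    exact h1
  have hγ : ∀ i, φ (g i) ≠ 0 := by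
    intro i h0
    have h1 : ∏ i, φ (g i) ^ e i = 0 :=
      Finset.prod_eq_zero (Finset.mem_univ i) (by rw [h0, zero_pow (he i).ne'])
    rw [h1, mul_zero] at heq
    exact mul_ne_zero huu.ne_zero (pow_ne_zero v hϖ0) heq.symm
  have hIne : I.Nonempty := by
    have h1 : φ w * ∏ i, φ (g i) ^ e i ∈ maximalIdeal D := by
      rw [heq]
      exact Ideal.mul_mem_left _ _ (Ideal.pow_mem_of_mem _ hϖm v hv)
    have h2 : ∏ i, φ (g i) ^ e i ∈ maximalIdeal D := (Ideal.unit_mul_mem_iff_mem _ hwu).mp h1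
    have hprime : (maximalIdeal D).IsPrime := (maximalIdeal.isMaximal D).isPrime
    obtain ⟨i, -, hi⟩ := (Ideal.IsPrime.prod_mem_iff (p := maximalIdeal D)).mp h2
    exact ⟨i, (hI i).mpr ((hmem _).mpr (hprime.mem_of_pow_mem _ hi))⟩
  -- the ideals `K i`
  have hK : ∀ i, K i ≤ t3d_mulIdeal φ (φ (g i)) := by
    intro i f hf
    obtain ⟨-, a, ha, haf⟩ := hgK i
    obtain ⟨x, hx, z, hz, hxz⟩ := Submodule.mem_sup.mp (haf f hf)
    obtain ⟨c, rfl⟩ := Ideal.mem_span_singleton'.mp hz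
    obtain ⟨a', ha'⟩ := ((hun a).mp ha).exists_right_inv
    have h1 : φ a * φ f = φ c * φ (g i) := by
      rw [← map_mul, ← hxz, map_add, hJ x hx, zero_add, map_mul]
    refine ⟨a' * φ c, (locIn φ).mul_mem (dom_locIn φ _ (map_mem_locIn φ a) a' ha')
      (map_mem_locIn φ c), ?_⟩
    rw [mul_assoc, ← h1, ← mul_assoc, mul_comm a', ha', one_mul]
  have hN : ∀ f ∈ torSpan K (C ϖ) 𝒢, φ f ∈ Submodule.span (locIn φ)
      {x | ∃ ν ∈ 𝒢, x = (∏ i, φ (g i) ^ ν.1 i) * φ (C ϖ) ^ ν.2} := fun f hf =>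
    t3d_torSpan φ (fun i => φ (g i)) K (C ϖ) 𝒢 hK hf
  have hGT : ∀ f ∈ G, f ∈ torSpan K (C ϖ) 𝒢 := fun f hf => by
    rw [← hG]; exact Ideal.subset_span hf
  have hbN : b ∈ Submodule.span (locIn φ)
      {x | ∃ ν ∈ 𝒢, x = (∏ i, φ (g i) ^ ν.1 i) * φ (C ϖ) ^ ν.2} := by
    have h1 : Submodule.span (locIn φ) (insert (φ Θ) (φ '' G)) ≤ Submodule.span (locIn φ)
        {x | ∃ ν ∈ 𝒢, x = (∏ i, φ (g i) ^ ν.1 i) * φ (C ϖ) ^ ν.2} := by
      rw [Submodule.span_le, Set.insert_subset_iff]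
      refine ⟨hN Θ hΘ, ?_⟩
      rintro _ ⟨f, hf, rfl⟩
      exact hN f (hGT f hf)
    exact h1 hb3
  have hdvd : ∀ ν ∈ 𝒢, b ∣ (∏ i, φ (g i) ^ ν.1 i) * φ (C ϖ) ^ ν.2 := by
    intro ν hν
    have h1 : (∏ i, g i ^ ν.1 i) * C ϖ ^ ν.2 ∈ Ideal.span G := by
      rw [hG]
      exact t3d_mem_torSpan (fun i => (hgK i).1) hν
    have h2 : Ideal.span G ≤ Ideal.comap φ (Ideal.span {b}) := by
      rw [Ideal.span_le]
      intro f hf
      exact Ideal.mem_comap.mpr (Ideal.mem_span_singleton.mpr (hb2 f hf))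
    have h3 := Ideal.mem_span_singleton.mp (Ideal.mem_comap.mp (h2 h1))
    rw [map_mul, map_prod, map_pow] at h3
    simp only [map_pow] at h3
    exact h3
  have hbI : b ∈ Ideal.span {x | ∃ ν ∈ 𝒢, x = (∏ i, φ (g i) ^ ν.1 i) * φ (C ϖ) ^ ν.2} := by
    generalize hbx : b = x at hbN
    clear hbx
    induction hbN using Submodule.span_induction with
    | mem x hx => exact Ideal.subset_span hx
    | zero => exact Ideal.zero_mem _
    | add x y _ _ hx hy => exact Ideal.add_mem _ hx hy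
    | smul c x _ hx => exact Ideal.mul_mem_left _ (c : D) hx
  obtain ⟨t, y, W, ω, ht, hW, hω, hwW, hgam, hp, hmu⟩ := exists_chart_elements hg₀ hee hvv h𝒢
    (fun i => φ (g i)) hγ (φ (C ϖ)) hϖ0 (φ w) (φ u) hwu huu heq b hb0 hdvd hbI
  have _ := hω
  -- the chart
  obtain ⟨δ, hδdef⟩ : ∃ δ : MvPolynomial (σ ⊕ (Fin s ⊕ Unit)) O →+* D,
      δ = eval₂Hom (φ.comp C) (Sum.elim (fun l => φ (X l)) (Sum.elim y fun _ => W)) := ⟨_, rfl⟩
  have hδC : ∀ a, δ (C a) = φ (C a) := fun a => by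
    rw [hδdef, coe_eval₂Hom, eval₂_C]
    rfl
  have hδup : ∀ f : MvPolynomial σ O, δ (up f) = φ f := by
    intro f
    have h1 : δ.comp ((up (O := O) (σ := σ) (s := s)) : MvPolynomial σ O →+*
        MvPolynomial (σ ⊕ (Fin s ⊕ Unit)) O) = φ := by
      apply MvPolynomial.ringHom_ext
      · intro a
        change δ (up (C a)) = φ (C a)
        rw [up, rename_C, hδC]
      · intro l
        change δ (up (X l)) = φ (X l)
        rw [up, rename_X, hδdef, coe_eval₂Hom, eval₂_X]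
        rfl
    exact RingHom.congr_fun h1 f
  have hδy : ∀ ρ, δ (yv ρ) = y ρ := fun ρ => by
    rw [yv, hδdef, coe_eval₂Hom, eval₂_X]
    rfl
  have hδw : δ wv = W := by
    rw [wv, hδdef, coe_eval₂Hom, eval₂_X]
    rfl
  have hδ : ∀ k, δ (torEqs U g w u ϖ g₀ t k) = 0 := by
    rintro (k | i | a)
    · change δ (up (U.g k)) = 0
      rw [hδup]
      exact hJ _ (hpres.mem k)
    · change δ (up (g i) - wv ^ t.c i * ∏ ρ, yv ρ ^ t.A ρ i) = 0
      rw [map_sub, map_mul, map_pow, map_prod, hδup, hδw, sub_eq_zero]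
      simp only [map_pow, hδy]
      exact hgam i
    · cases a
      · change δ (if (false = true) then C ϖ - wv ^ t.c₀ * ∏ ρ, yv ρ ^ t.β ρ
          else up w * wv ^ g₀ - up u) = 0
        rw [if_neg Bool.false_ne_true, map_sub, map_mul, map_pow, hδup, hδup, hδw, hwW, sub_self]
      · change δ (if (true = true) then C ϖ - wv ^ t.c₀ * ∏ ρ, yv ρ ^ t.β ρ
          else up w * wv ^ g₀ - up u) = 0
        rw [if_pos rfl, map_sub, map_mul, map_pow, map_prod, hδC, hδw, sub_eq_zero]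
        simp only [map_pow, hδy]
        exact hp
  -- the subring
  have hdom : Dom (locIn δ) := dom_locIn δ
  have hLR : locIn φ ≤ locIn δ := locIn_le hdom fun a => by
    rw [← hδup]
    exact map_mem_locIn δ _
  have hyR : ∀ ρ, y ρ ∈ locIn δ := fun ρ => by
    rw [← hδy]
    exact map_mem_locIn δ _
  have hWR : W ∈ locIn δ := by
    rw [← hδw]
    exact map_mem_locIn δ _
  obtain ⟨W', hW'⟩ := hW.exists_right_inv
  have hW'R : W' ∈ locIn δ := hdom W hWR W' hW'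
  have hmon : ∀ ν ∈ 𝒢, ∃ c ∈ locIn δ,
      (∏ i, φ (g i) ^ ν.1 i) * φ (C ϖ) ^ ν.2 = b * ω * c := by
    intro ν hν
    obtain ⟨n, hn⟩ := t3d_exponent ht hν
    refine ⟨(W' ^ (∑ i, t.c i * t.μ i + t.c₀ * t.μ₀) * W ^ (∑ i, t.c i * ν.1 i + t.c₀ * ν.2)) *
      ∏ ρ, y ρ ^ n ρ, (locIn δ).mul_mem ((locIn δ).mul_mem ((locIn δ).pow_mem hW'R _)
        ((locIn δ).pow_mem hWR _)) ((locIn δ).prod_mem fun ρ _ => (locIn δ).pow_mem (hyR ρ) _), ?_⟩
    have h1 := t3d_monomial hgam hp ν.1 ν.2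
    have h2 := t3d_monomial hgam hp t.μ t.μ₀
    rw [h1, ← hmu, h2]
    have h3 : ∏ ρ, y ρ ^ (∑ i, t.A ρ i * ν.1 i + t.β ρ * ν.2) =
        (∏ ρ, y ρ ^ (∑ i, t.A ρ i * t.μ i + t.β ρ * t.μ₀)) * ∏ ρ, y ρ ^ n ρ := by
      rw [← Finset.prod_mul_distrib]
      refine Finset.prod_congr rfl fun ρ _ => ?_
      rw [hn ρ, pow_add]
    rw [h3]
    have h4 : W ^ (∑ i, t.c i * t.μ i + t.c₀ * t.μ₀) *
        W' ^ (∑ i, t.c i * t.μ i + t.c₀ * t.μ₀) = 1 := by
      rw [← mul_pow, hW', one_pow]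
    linear_combination (-(W ^ (∑ i, t.c i * ν.1 i + t.c₀ * ν.2) *
      ((∏ ρ, y ρ ^ (∑ i, t.A ρ i * t.μ i + t.β ρ * t.μ₀)) * ∏ ρ, y ρ ^ n ρ))) * h4
  have hNR : ∀ x ∈ Submodule.span (locIn φ)
      {x | ∃ ν ∈ 𝒢, x = (∏ i, φ (g i) ^ ν.1 i) * φ (C ϖ) ^ ν.2},
        ∃ c ∈ locIn δ, x = b * ω * c := by
    intro x hx
    induction hx using Submodule.span_induction with
    | mem x hx =>
      obtain ⟨ν, hν, rfl⟩ := hx
      exact hmon ν hν
    | zero => exact ⟨0, (locIn δ).zero_mem, by rw [mul_zero]⟩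
    | add x y _ _ hx hy =>
      obtain ⟨c, hc, rfl⟩ := hx
      obtain ⟨c', hc', rfl⟩ := hy
      exact ⟨c + c', (locIn δ).add_mem hc hc', by rw [mul_add]⟩
    | smul a x _ hx =>
      obtain ⟨c, hc, rfl⟩ := hx
      refine ⟨(a : D) * c, (locIn δ).mul_mem (hLR a.2) hc, ?_⟩
      change (a : D) * (b * ω * c) = b * ω * ((a : D) * c)
      ring
  have hωR : ω ∈ locIn δ := by
    obtain ⟨c, hc, hbc⟩ := hNR b hbN
    refine hdom c hc ω ?_
    apply mul_left_cancel₀ hb0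
    rw [mul_one, mul_comm c, ← mul_assoc]
    exact hbc.symm
  have hdiv : ∀ f ∈ torSpan K (C ϖ) 𝒢, ∀ x, b * x = φ f → x ∈ locIn δ := by
    intro f hf x hx
    obtain ⟨c, hc, hfc⟩ := hNR _ (hN f hf)
    have h1 : x = ω * c := by
      apply mul_left_cancel₀ hb0
      rw [hx, hfc, mul_assoc]
    rw [h1]
    exact (locIn δ).mul_mem hωR hc
  have htop : locIn δ = ⊤ := by
    refine hmin (locIn δ) hdom hLR ?_
    rintro x (hx | ⟨f, hf, hx⟩)
    · exact hdiv Θ hΘ x hx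
    · exact hdiv f (hGT f hf) x hx
  -- the chart lemma
  have hQun : ∀ z, z ∉ Ideal.comap δ (maximalIdeal D) ↔ IsUnit (δ z) := by
    intro z
    rw [Ideal.mem_comap, IsLocalRing.mem_maximalIdeal, mem_nonunits_iff, not_not]
  obtain ⟨i₀, hi₀⟩ := hIne
  have hg₀u : IsUnit (g₀ : D) := by
    have h1 := hed i₀
    rw [hee i₀, Nat.cast_mul] at h1
    exact isUnit_of_mul_isUnit_left h1
  have he'u : ∀ i, IsUnit (e' i : D) := by
    intro i
    have h1 := hed i
    rw [hee i, Nat.cast_mul] at h1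
    exact isUnit_of_mul_isUnit_right h1
  let E := Fintype.equivFin ({l : σ // l ∉ U.T} ⊕ (Fin s ⊕ Bool))
  refine isRegularLocalRing_of_chart δ (fun i => torEqs U g w u ϖ g₀ t (E.symm i))
    (fun i => hδ _) ?_ ?_ ?_
  · intro z hz c hc i
    have h1 : ∑ i, c i * torEqs U g w u ϖ g₀ t (E.symm i) =
        ∑ k, c (E k) * torEqs U g w u ϖ g₀ t k := by
      rw [← Equiv.sum_comp E]
      refine Finset.sum_congr rfl fun k _ => ?_
      rw [E.symm_apply_apply]
    rw [h1] at hc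
    have h2 := torEqs_indep (U := U) (g := g) (w := w) (u := u) hϖ (g₀ := g₀) (t := t) ht
      (Q := Ideal.comap δ (maximalIdeal D)) (Ideal.IsPrime.comap δ)
      (by rw [Ideal.mem_comap, hδC]; exact hϖm)
      (fun i => by rw [hQun, map_natCast]; exact he'u i)
      (by rw [hQun, map_natCast]; exact hg₀u)
      (by rw [hQun, hδup]; exact hhu)
      (by rw [hQun, hδup]; exact hwu)
      (by rw [hQun, hδw]; exact hW)
      (fun k => by rw [Ideal.mem_comap, hδ k]; exact Ideal.zero_mem _)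
      (I := I) (fun i => by rw [Ideal.mem_comap, hδup, hI i, hmem])
      ⟨i₀, hi₀⟩ (κ := κ) hκ
      (by rw [hQun, hδup]; exact (hun _).mp hdet)
      ((hQun z).mpr hz) (fun k => c (E k)) hc (E.symm i)
    rwa [E.apply_symm_apply] at h2
  · intro z
    have h1 : z ∈ locIn δ := by rw [htop]; exact Subring.mem_top z
    exact h1
  · intro p hp0
    have h1 : Set.range (fun i => torEqs U g w u ϖ g₀ t (E.symm i)) =
        Set.range (torEqs U g w u ϖ g₀ t) := E.symm.surjective.range_comp _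
    rw [h1]
    refine torEqs_ker hee hvv ht hpres hF δ hδ (fun i => ?_) ?_ ?_ ?_ p hp0
    · rw [hδup]; exact hγ i
    · rw [hδC]; exact hϖ0
    · rw [hδup]; exact hsu.ne_zero
    · intro f hf
      rw [hδup] at hf
      obtain ⟨τ, hτ, hτf⟩ := hker f hf
      exact ⟨τ, by rw [hδup]; exact hτ, hτf⟩

end Pool.Agent.Lib.MP_6a3dac_ag.Tor
end

section

/-!
# Toroidal points of a scheme with a smooth generic fibre where `h` is zero
-/

set_option autoImplicit false

namespace Pool.Agent.Lib.MP_6a3dac_ag.Tor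

open MvPolynomial NumberField IsDedekindDomain IsLocalRing
open Pool.Agent.Lib.MP_6a3dac_ag.DNF Pool.Agent.Lib.MP_6a3dac_ag.Bert
open Pool.Agent.Lib.MP_6a3dac_ag.Fam

/-- A square system with a determinant outside of a prime ideal. -/
theorem t6z2_solve {B : Type} [CommRing B] {N : Ideal B} (hN : N.IsPrime) {τ : Type} [Fintype τ]
    [DecidableEq τ] (M : Matrix τ τ B) (hM : M.det ∉ N) (a : τ → B)
    (h : ∀ k, ∑ i, a i * M k i ∈ N) (i : τ) : a i ∈ N := by
  have h1 : M.det * a i = ∑ k, M.adjugate i k * ∑ j, a j * M k j := by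
    have h2 : (M.adjugate * M).mulVec a i = M.det * a i := by
      rw [Matrix.adjugate_mul, Matrix.smul_mulVec, Matrix.one_mulVec]
      rfl
    rw [← h2, ← Matrix.mulVec_mulVec]
    simp only [Matrix.mulVec, dotProduct]
    refine Finset.sum_congr rfl fun k _ => ?_
    congr 1
    exact Finset.sum_congr rfl fun j _ => mul_comm _ _
  have h3 : M.det * a i ∈ N := by
    rw [h1]
    exact Ideal.sum_mem _ fun k _ => Ideal.mul_mem_left _ _ (h k)
  exact (hN.mem_or_mem h3).resolve_left hM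

/-- More vectors than coordinates are dependent modulo a prime ideal. -/
theorem t6z2_dep {B : Type} [CommRing B] {𝔭 : Ideal B} (hp : 𝔭.IsPrime) {τ : Type} [Fintype τ]
    {c : ℕ} (hc : Fintype.card τ < c) (a : Fin c → τ → B) :
    ∃ β : Fin c → B, (∀ κ, ∑ k, β k * a k κ ∈ 𝔭) ∧ ∃ k, β k ∉ 𝔭 := by
  classical
  have : IsDomain (B ⧸ 𝔭) := Ideal.Quotient.isDomain 𝔭
  obtain ⟨ε⟩ : Nonempty (τ ↪ {k : Fin c // k ≠ ⟨Fintype.card τ, hc⟩}) := by
    refine Function.Embedding.nonempty_of_card_le ?_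
    rw [Fintype.card_subtype_compl, Fintype.card_fin, Fintype.card_subtype_eq]
    omega
  let M : Matrix (Fin c) (Fin c) (B ⧸ 𝔭) := fun j k =>
    if h : ∃ κ, (ε κ).1 = j then Ideal.Quotient.mk 𝔭 (a k h.choose) else 0
  have hM : ∀ κ k, M (ε κ).1 k = Ideal.Quotient.mk 𝔭 (a k κ) := by
    intro κ k
    have h : ∃ κ', (ε κ').1 = (ε κ).1 := ⟨κ, rfl⟩
    change (if h : ∃ κ', (ε κ').1 = (ε κ).1 then Ideal.Quotient.mk 𝔭 (a k h.choose) else 0) = _
    rw [dif_pos h, ε.injective (Subtype.ext h.choose_spec)]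
  have hdet : M.det = 0 := by
    refine Matrix.det_eq_zero_of_row_eq_zero ⟨Fintype.card τ, hc⟩ fun k => ?_
    change (if h : ∃ κ', (ε κ').1 = _ then Ideal.Quotient.mk 𝔭 (a k h.choose) else 0) = _
    rw [dif_neg]
    rintro ⟨κ, hκ⟩
    exact (ε κ).2 hκ
  obtain ⟨v, hv0, hv⟩ := Matrix.exists_mulVec_eq_zero_iff.2 hdet
  choose β hβ using fun k => Ideal.Quotient.mk_surjective (v k)
  refine ⟨β, fun κ => ?_, ?_⟩
  · have h1 := congrFun hv (ε κ).1
    simp only [Matrix.mulVec, dotProduct, hM, Pi.zero_apply] at h1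
    rw [← Ideal.Quotient.eq_zero_iff_mem, map_sum, ← h1]
    refine Finset.sum_congr rfl fun k _ => ?_
    rw [map_mul, hβ, mul_comm]
  · by_contra hcon
    push Not at hcon
    apply hv0
    funext k
    rw [← hβ, Ideal.Quotient.eq_zero_iff_mem.2 (hcon k)]
    rfl

/-- A monomial in elements of an ideal is in a power of the ideal. -/
theorem t6z2_prod {B : Type} [CommRing B] {𝔭 : Ideal B} {τ : Type} (S : Finset τ) (g : τ → B)
    (e : τ → ℕ) (hg : ∀ i ∈ S, g i ∈ 𝔭) : ∏ i ∈ S, g i ^ e i ∈ 𝔭 ^ ∑ i ∈ S, e i := by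
  classical
  rw [← Finset.prod_pow_eq_pow_sum]
  exact Ideal.prod_mem_prod fun i hi => Ideal.pow_mem_pow (hg i hi) _

section DVR

variable {O σ : Type} [CommRing O] [IsDomain O] [IsDiscreteValuationRing O] [DecidableEq σ]
  [Fintype σ]

/-- TASK T6z2: if `h = 0` and the generic fibre is smooth, only one `g i` vanishes at the point,
and its exponent is one. -/
theorem sum_exponents_le_one {ϖ : O} (hϖ : Irreducible ϖ) {m c s : ℕ}
    (hcard : Fintype.card σ = m + c) {e : Fin s → ℕ} (he : ∀ i, 0 < e i)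
    {J 𝔮 : Ideal (MvPolynomial σ O)} (hq : 𝔮.IsPrime) (hJ : J ≤ 𝔮) (hϖq : C ϖ ∈ 𝔮)
    (hgen : ∀ 𝔭 : Ideal (MvPolynomial σ O), 𝔭.IsPrime → J ≤ 𝔭 → C ϖ ∉ 𝔭 → TanPt c J 𝔭)
    {U : Std O σ} {F w : MvPolynomial σ O} {g : Fin s → MvPolynomial σ O} {I : Finset (Fin s)}
    {κ : I → σ} (hpres : IsPres J U F) (hT : U.T.card = m + 1) (hU : U.h ∉ 𝔮)
    (hF : F = w * ∏ i, g i ^ e i) (hI : ∀ i, i ∈ I ↔ g i ∈ 𝔮) (hκ : ∀ i, κ i ∈ U.T)
    (hdet : (Matrix.of fun i i' : I => U.vf (κ i) (g i')).det ∉ 𝔮) :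
    ∑ i ∈ I, e i ≤ 1 := by
  classical
  by_contra hcon
  have hs : U.s ∉ 𝔮 := fun h => hU (Ideal.mul_mem_right _ _ h)
  have hΔ : U.Δ ∉ 𝔮 := fun h => hU (Ideal.mul_mem_left _ _ h)
  -- the equations of the stratum
  let f₀ : {l : σ // l ∉ U.T} ⊕ I → MvPolynomial σ O := Sum.elim U.g fun i => g i
  let ε := (Fintype.equivFin ({l : σ // l ∉ U.T} ⊕ I)).symm
  obtain ⟨𝔭, hp, hpq, hfp, hϖp⟩ := exists_horizontal hϖ hq hϖq (fun k => f₀ (ε k))
    (by
      intro k
      rcases ε k with κ' | i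
      · exact hJ (hpres.mem κ')
      · exact (hI i).1 i.2)
    (by
      intro b hb
      have hb' : ∀ D : Derivation O (MvPolynomial σ O) (MvPolynomial σ O),
          ∑ κ', b (ε.symm (Sum.inl κ')) * D (U.g κ') +
            ∑ i : I, b (ε.symm (Sum.inr i)) * D (g i) ∈ 𝔮 := by
        intro D
        have h1 := hb D
        rw [← ε.symm.sum_comp, Fintype.sum_sum_type] at h1
        simpa only [Equiv.apply_symm_apply, f₀, Sum.elim_inl, Sum.elim_inr] using h1
      have h2 : ∀ i : I, b (ε.symm (Sum.inr i)) ∈ 𝔮 := by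
        refine t6z2_solve hq _ hdet (fun i : I => b (ε.symm (Sum.inr i))) fun k => ?_
        have h3 := hb' (U.vf (κ k))
        have h4 : ∑ κ', b (ε.symm (Sum.inl κ')) * U.vf (κ k) (U.g κ') = 0 :=
          Finset.sum_eq_zero fun κ' _ => by rw [U.vf_gL, mul_zero]
        rw [h4, zero_add] at h3
        exact h3
      have h3 : ∀ κ', b (ε.symm (Sum.inl κ')) ∈ 𝔮 := by
        refine t6z2_solve hq U.J.transpose (by rw [Matrix.det_transpose]; exact hΔ)
          (fun κ' => b (ε.symm (Sum.inl κ'))) fun l => ?_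
        have h4 := hb' (pderiv l.1)
        exact (Ideal.add_mem_iff_left _ (Ideal.sum_mem _ fun i _ =>
          Ideal.mul_mem_right _ _ (h2 i))).1 h4
      intro k
      rw [← ε.symm_apply_apply k]
      rcases ε k with κ' | i
      · exact h3 κ'
      · exact h2 i)
  have hUg : ∀ κ', U.g κ' ∈ 𝔭 := by
    intro κ'
    have h1 := hfp (ε.symm (Sum.inl κ'))
    simpa only [Equiv.apply_symm_apply, f₀, Sum.elim_inl] using h1
  have hg : ∀ i ∈ I, g i ∈ 𝔭 := by
    intro i hi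
    have h1 := hfp (ε.symm (Sum.inr ⟨i, hi⟩))
    simpa only [Equiv.apply_symm_apply, f₀, Sum.elim_inr] using h1
  have hsp : U.s ∉ 𝔭 := fun h => hs (hpq h)
  have hF2 : F ∈ 𝔭 ^ 2 := by
    rw [hF, ← Finset.prod_mul_prod_compl I]
    refine Ideal.mul_mem_left _ _ (Ideal.mul_mem_right _ _ ?_)
    exact Ideal.pow_le_pow_right (by omega) (t6z2_prod I g e hg)
  have hFp : F ∈ 𝔭 := Ideal.pow_le_self two_ne_zero hF2
  have hJp : J ≤ 𝔭 := by
    intro x hx
    have h1 : Ideal.span (insert F (Set.range U.g)) ≤ 𝔭 := by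
      rw [Ideal.span_le]
      rintro y (rfl | ⟨κ', rfl⟩)
      · exact hFp
      · exact hUg κ'
    exact (hp.mem_or_mem (h1 (hpres.le x hx))).resolve_left hsp
  obtain ⟨f, hfJ, hind⟩ := hgen 𝔭 hp hJp hϖp
  have h1 : ∀ k, ∃ (a₀ : MvPolynomial σ O) (a : {l : σ // l ∉ U.T} → MvPolynomial σ O),
      U.s * f k = a₀ * F + ∑ κ', a κ' * U.g κ' := by
    intro k
    obtain ⟨a₀, z, hz, h2⟩ := Ideal.mem_span_insert.1 (hpres.le (f k) (hfJ k))
    obtain ⟨a, ha⟩ := Ideal.mem_span_range_iff_exists_fun.1 hz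
    exact ⟨a₀, a, by rw [h2, ha]⟩
  choose a₀ a ha using h1
  have hcardτ : Fintype.card {l : σ // l ∉ U.T} < c := by
    have h2 : U.T.card ≤ Fintype.card σ := Finset.card_le_univ _
    rw [Fintype.card_subtype_compl, Fintype.card_coe]
    omega
  obtain ⟨β, hβ, k₀, hk₀⟩ := t6z2_dep hp hcardτ a
  have h2 : ∑ k, (β k * U.s) * f k ∈ 𝔭 ^ 2 := by
    have h3 : ∑ k, (β k * U.s) * f k = (∑ k, β k * a₀ k) * F +
        ∑ κ', (∑ k, β k * a k κ') * U.g κ' := by
      have h4 : ∀ k, (β k * U.s) * f k = β k * a₀ k * F + ∑ κ', β k * a k κ' * U.g κ' := by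
        intro k
        have h5 : ∑ κ', β k * a k κ' * U.g κ' = β k * ∑ κ', a k κ' * U.g κ' := by
          rw [Finset.mul_sum]
          exact Finset.sum_congr rfl fun κ' _ => by ring
        rw [h5]
        linear_combination β k * ha k
      simp only [h4, Finset.sum_add_distrib, Finset.sum_mul]
      rw [Finset.sum_comm (s := Finset.univ (α := Fin c))]
    rw [h3]
    refine Ideal.add_mem _ (Ideal.mul_mem_left _ _ hF2) (Ideal.sum_mem _ fun κ' _ => ?_)
    rw [pow_two]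
    exact Ideal.mul_mem_mul (hβ κ') (hUg κ')
  exact hk₀ ((hp.mem_or_mem (hind _ h2 k₀)).resolve_right hsp)

end DVR

end Pool.Agent.Lib.MP_6a3dac_ag.Tor
end
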