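import Pool.Agent.Lib.MP_6a3dac_ag.Fam.Defs
import Pool.Agent.Lib.MP_6a3dac_ag.Mg.G014
import Pool.Agent.Lib.MP_6a3dac_ag.Mg.G015
import Pool.Agent.Lib.MP_6a3dac_ag.Mg.G013
import Pool.Agent.Lib.MP_6a3dac_ag.Mg.G072
import Pool.Agent.Lib.MP_6a3dac_ag.NU.AN1

section

/-!
# The Jacobian forms
-/

set_option autoImplicit false

namespace Pool.Agent.Lib.MP_6a3dac_ag.Fam

open MvPolynomial
open Pool.Agent.Lib.MP_6a3dac_ag.DNF Pool.Agent.Lib.MP_6a3dac_ag.Bert

section B

variable {R σ : Type} [CommRing R]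

/-- A homogeneous ideal over a Noetherian ring has finitely many homogeneous generators. -/
theorem fb3_gens [IsNoetherianRing R] {n : ℕ} (J : HomIdeal R n) :
    ∃ (k : ℕ) (f : Fin k → MvPolynomial (Fin n) R) (e : Fin k → ℕ),
      (∀ κ, (f κ).IsHomogeneous (e κ)) ∧ J.ideal = Ideal.span (Set.range f) := by
  classical
  obtain ⟨T, hT⟩ : ∃ T : Set (MvPolynomial (Fin n) R),
      T = {g | g ∈ J.ideal ∧ ∃ j, g.IsHomogeneous j} := ⟨_, rfl⟩
  have hJT : J.ideal = Ideal.span T := by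
    refine le_antisymm ?_ ?_
    · intro g hg
      rw [← sum_homogeneousComponent g]
      refine Ideal.sum_mem _ fun j _ => Ideal.subset_span ?_
      rw [hT]
      exact ⟨J.homog g hg j, j, homogeneousComponent_isHomogeneous j g⟩
    · rw [Ideal.span_le]
      intro g hg
      rw [hT] at hg
      exact hg.1
  have hfg : (Ideal.span T).FG := IsNoetherian.noetherian _
  obtain ⟨G₀, hG₀, hspan⟩ := (Submodule.fg_span_iff_fg_span_finset_subset T).1 hfg
  have hmem : ∀ x : Fin G₀.card, ∃ j, (G₀.equivFin.symm x).1.IsHomogeneous j := by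
    intro x
    have h1 := hG₀ (G₀.equivFin.symm x).2
    rw [hT] at h1
    exact h1.2
  choose e he using hmem
  refine ⟨G₀.card, fun x => (G₀.equivFin.symm x).1, e, he, ?_⟩
  have h2 : Set.range (fun x => (G₀.equivFin.symm x).1) = (G₀ : Set (MvPolynomial (Fin n) R)) := by
    ext g
    constructor
    · rintro ⟨x, rfl⟩
      exact (G₀.equivFin.symm x).2
    · intro hg
      refine ⟨G₀.equivFin ⟨g, hg⟩, ?_⟩
      change (G₀.equivFin.symm (G₀.equivFin ⟨g, hg⟩)).1 = g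
      rw [Equiv.symm_apply_apply]
  rw [h2, hJT]
  exact hspan

/-- The localization of a quotient. -/
theorem fb3_away {B : Type} [CommRing B] (𝔞 : Ideal B) (h : B) :
    ∃ (A : Type) (_ : CommRing A) (ψ : B →+* A), (∀ x ∈ 𝔞, ψ x = 0) ∧ IsUnit (ψ h) ∧
      ∀ (x : B) (S : Set B), ψ x ∈ Ideal.span (ψ '' S) → ∃ k, h ^ k * x ∈ 𝔞 ⊔ Ideal.span S := by
  refine ⟨Localization.Away (Ideal.Quotient.mk 𝔞 h), inferInstance,
    (algebraMap (B ⧸ 𝔞) (Localization.Away (Ideal.Quotient.mk 𝔞 h))).comp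
      (Ideal.Quotient.mk 𝔞), ?_, ?_, ?_⟩
  · intro x hx
    rw [RingHom.comp_apply, Ideal.Quotient.eq_zero_iff_mem.2 hx, map_zero]
  · exact IsLocalization.Away.algebraMap_isUnit (Ideal.Quotient.mk 𝔞 h)
  · intro x S hx
    rw [← Ideal.map_span, ← Ideal.map_map, RingHom.comp_apply,
      IsLocalization.algebraMap_mem_map_algebraMap_iff
        (Submonoid.powers (Ideal.Quotient.mk 𝔞 h))] at hx
    obtain ⟨_, ⟨k, rfl⟩, hk⟩ := hx
    refine ⟨k, ?_⟩
    have h2 : h ^ k * x ∈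
        ((Ideal.span S).map (Ideal.Quotient.mk 𝔞)).comap (Ideal.Quotient.mk 𝔞) := by
      rw [Ideal.mem_comap, map_mul, map_pow]
      exact hk
    rw [Ideal.comap_map_of_surjective' _ Ideal.Quotient.mk_surjective, Ideal.mk_ker] at h2
    rwa [sup_comm]

/-- The Jacobian forms. -/
theorem exists_jacForms [IsNoetherianRing R] {m c : ℕ} (J : HomIdeal R (m + c + 1)) :
    ∃ (δ : ℕ) (G : Finset (MvPolynomial (Fin (m + c + 1)) R)), 1 ≤ δ ∧
      (∀ g ∈ G, g.IsHomogeneous δ) ∧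
      (∀ (i : Fin (m + c + 1)) (U : Std R {l : Fin (m + c + 1) // l ≠ i})
        (F : MvPolynomial {l : Fin (m + c + 1) // l ≠ i} R), IsPres (dId J i) U F →
        U.T.card = m + 1 → ∀ g ∈ G, ∃ k, U.h ^ k * dehom i g ∈
          dId J i ⊔ Ideal.span {x | ∃ e ∈ U.T, x = U.vf e F}) ∧
      (∀ (i : Fin (m + c + 1)) (U : Std R {l : Fin (m + c + 1) // l ≠ i})
        (F : MvPolynomial {l : Fin (m + c + 1) // l ≠ i} R), IsPres (dId J i) U F →
        U.T.card = m + 1 → ∀ e ∈ U.T, ∃ k, U.h ^ k * U.vf e F ∈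
          dId J i ⊔ Ideal.span (dehom i '' (G : Set (MvPolynomial (Fin (m + c + 1)) R)))) := by
  classical
  obtain ⟨k, f, e, hf, hJ⟩ := fb3_gens J
  obtain ⟨δ, G, hδ, hG, hG1, hG2⟩ := MA.exists_jacForms hf c
  have key : ∀ (i : Fin (m + c + 1)) (U : Std R {l : Fin (m + c + 1) // l ≠ i})
      (F : MvPolynomial {l : Fin (m + c + 1) // l ≠ i} R), IsPres (dId J i) U F →
      U.T.card = m + 1 → Fintype.card {l : {l : Fin (m + c + 1) // l ≠ i} // l ∉ U.T} + 1 = c ∧
      ∃ (A : Type) (_ : CommRing A)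
        (ψ : MvPolynomial {l : Fin (m + c + 1) // l ≠ i} R →+* A),
        (∀ (x : MvPolynomial {l : Fin (m + c + 1) // l ≠ i} R) (S : Set _),
          ψ x ∈ Ideal.span (ψ '' S) → ∃ k, U.h ^ k * x ∈ dId J i ⊔ Ideal.span S) ∧
        (∀ κ, ψ (U.g κ) = 0) ∧ ψ F = 0 ∧ IsUnit (ψ U.Δ) ∧ (∀ κ, ψ (dehom i (f κ)) = 0) ∧
        (∀ κ, ∃ s, IsUnit (ψ s) ∧ s * dehom i (f κ) ∈ Ideal.span (insert F (Set.range U.g))) ∧
        (∀ x ∈ insert F (Set.range U.g), ∃ s, IsUnit (ψ s) ∧
          s * x ∈ Ideal.span (Set.range fun κ => dehom i (f κ))) := by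
    intro i U F hU hT
    have hJi : dId J i = Ideal.span (Set.range fun κ => dehom i (f κ)) := by
      rw [dId, hJ, Ideal.map_span, ← Set.range_comp]
      rfl
    have hfJ : ∀ κ, dehom i (f κ) ∈ dId J i := fun κ => by
      rw [hJi]
      exact Ideal.subset_span ⟨κ, rfl⟩
    obtain ⟨A, _, ψ, hz, hu, hψ⟩ := fb3_away (dId J i) U.h
    have hu' : IsUnit (ψ U.s * ψ U.Δ) := by
      rw [← map_mul]
      exact hu
    refine ⟨?_, A, _, ψ, hψ, fun κ => hz _ (hU.mem κ), hz _ hU.memF, isUnit_of_mul_isUnit_right hu',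
      fun κ => hz _ (hfJ κ), fun κ => ⟨U.s, isUnit_of_mul_isUnit_left hu', hU.le _ (hfJ κ)⟩, ?_⟩
    · have h1 : Fintype.card {l : Fin (m + c + 1) // l ≠ i} = m + c := by
        rw [Fintype.card_subtype_compl, Fintype.card_fin, Fintype.card_subtype_eq]
        rfl
      have h2 : Fintype.card {l : {l : Fin (m + c + 1) // l ≠ i} // l ∉ U.T} =
          (m + c) - (m + 1) := by
        rw [Fintype.card_subtype_compl, h1, Fintype.card_coe, hT]
      have h3 := Finset.card_le_univ U.T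
      rw [h1, hT] at h3
      omega
    · rintro x hx
      refine ⟨1, by rw [map_one]; exact isUnit_one, ?_⟩
      rw [one_mul, ← hJi]
      rcases hx with rfl | ⟨κ, rfl⟩
      · exact hU.memF
      · exact hU.mem κ
  refine ⟨δ, G, hδ, hG, ?_, ?_⟩
  · intro i U F hU hT g hg
    obtain ⟨hc, A, _, ψ, hψ, h1, h2, h3, h4, h5, h6⟩ := key i U F hU hT
    obtain ⟨x, row, col, rfl⟩ := hG1 g hg
    refine hψ _ _ ?_
    have h7 := MA.jmin_mem ψ U F h1 h2 h3 hf h4 hc h5 row col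
    have h8 := Ideal.mul_mem_left _ (ψ (dehom i x)) h7
    rw [← map_mul, ← map_mul] at h8
    refine Ideal.span_mono ?_ h8
    rintro _ ⟨l, hl, rfl⟩
    exact ⟨U.vf l F, ⟨l, hl, rfl⟩, rfl⟩
  · intro i U F hU hT l _
    obtain ⟨hc, A, _, ψ, hψ, h1, h2, h3, h4, h5, h6⟩ := key i U F hU hT
    refine hψ _ _ ?_
    refine MA.vf_mem ψ U F h1 h2 h3 h4 hc h6 _ (fun row col => ?_) l
    obtain ⟨g, hg, hgj⟩ := hG2 row col i
    rw [← hgj]
    exact Ideal.subset_span ⟨_, ⟨g, hg, rfl⟩, rfl⟩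

end B

end Pool.Agent.Lib.MP_6a3dac_ag.Fam
end

section

/-!
# Points with enough equations
-/

set_option autoImplicit false

namespace Pool.Agent.Lib.MP_6a3dac_ag.Fam

open MvPolynomial CategoryTheory Limits AlgebraicGeometry NumberField IsDedekindDomain Filter
open IsLocalRing Topology
open Pool.Agent.Lib.MP_6a3dac_ag.DNF Pool.Agent.Lib.MP_6a3dac_ag.Bert

/-- The dimension theorem of Krull. -/
theorem fc2_height_le {B : Type} [CommRing B] [IsNoetherianRing B] {𝔭 : Ideal B}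
    (h𝔭 : 𝔭.IsPrime) {r : ℕ} (f : Fin r → B) (hf : ∀ j, f j ∈ 𝔭)
    (hloc : ∀ x ∈ 𝔭, ∃ s, s ∉ 𝔭 ∧ s * x ∈ Ideal.span (Set.range f)) : 𝔭.height ≤ r := by
  have hmin : 𝔭 ∈ (Ideal.span (Set.range f)).minimalPrimes := by
    refine ⟨⟨h𝔭, ?_⟩, ?_⟩
    · rw [Ideal.span_le]
      rintro _ ⟨j, rfl⟩
      exact hf j
    · rintro 𝔯 ⟨h𝔯, hle⟩ hle' x hx
      obtain ⟨s, hs, hsx⟩ := hloc x hx
      exact (h𝔯.mem_or_mem (hle hsx)).resolve_left fun h => hs (hle' h)
  refine (Ideal.height_le_spanRank_toENat_of_mem_minimalPrimes _ _ hmin).trans ?_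
  have h1 : Submodule.spanRank (Ideal.span (Set.range f)) ≤ (r : Cardinal) := by
    refine (Submodule.spanRank_span_le_card _).trans ?_
    refine (Cardinal.mk_range_le).trans ?_
    simp
  have h2 : Cardinal.toENat (Submodule.spanRank (Ideal.span (Set.range f))) ≤
      Cardinal.toENat (r : Cardinal) := (Cardinal.toENat : Cardinal →+*o ℕ∞).monotone' h1
  simpa using h2

/-- The local ring at a point with independent equations is regular. -/
theorem fc2_regular {P D : Type} [CommRing P] [IsRegularRing P] [CommRing D] [IsDomain D] [IsLocalRing D] (δ : P →+* D) {𝔞 : Ideal P}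
    {r : ℕ} (h0 : ∀ x ∈ 𝔞, δ x = 0) (hind : ∃ f : Fin r → P, (∀ k, f k ∈ 𝔞) ∧
      ∀ b : Fin r → P, ∑ k, b k * f k ∈ (Ideal.comap δ (maximalIdeal D)) ^ 2 →
        ∀ k, b k ∈ Ideal.comap δ (maximalIdeal D))
    (ha : ∀ z, ∃ a b, IsUnit (δ b) ∧ z * δ b = δ a) (f : Fin r → P) (hf : ∀ j, δ (f j) = 0)
    (hb : ∀ p, δ p = 0 → ∃ τ, δ τ ≠ 0 ∧ τ * p ∈ Ideal.span (Set.range f)) :
    IsRegularLocalRing D := by
  classical
  obtain ⟨g, hg, hc⟩ := hind
  set Q := Ideal.comap δ (maximalIdeal D) with hQ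
  have hQp : Q.IsPrime := Ideal.IsPrime.comap δ
  have hunit : ∀ s, s ∉ Q ↔ IsUnit (δ s) := by
    intro s
    rw [hQ, Ideal.mem_comap, IsLocalRing.mem_maximalIdeal, mem_nonunits_iff, not_not]
  let R := Localization.AtPrime Q
  have hR : IsRegularLocalRing R := inferInstance
  let δR : R →+* D := IsLocalization.lift (M := Q.primeCompl) (g := δ)
    fun y => (hunit y).mp y.2
  have hδR : ∀ p, δR (algebraMap P R p) = δ p := fun p => IsLocalization.lift_eq _ _
  have hsurj : Function.Surjective δR := by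
    intro z
    obtain ⟨a, b, hb1, hb2⟩ := ha z
    refine ⟨IsLocalization.mk' R a (⟨b, (hunit b).mpr hb1⟩ : Q.primeCompl), ?_⟩
    have h1 := congrArg δR (IsLocalization.mk'_spec R a (⟨b, (hunit b).mpr hb1⟩ : Q.primeCompl))
    rw [map_mul, hδR, hδR] at h1
    exact hb1.mul_right_cancel (h1.trans hb2.symm)
  have hker : (RingHom.ker δR).height ≤ r := by
    have h1 : Ideal.under P (RingHom.ker δR) = RingHom.ker δ := by
      ext p
      rw [Ideal.under, Ideal.mem_comap, RingHom.mem_ker, RingHom.mem_ker, hδR]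
    rw [← IsLocalization.height_under Q.primeCompl, h1]
    refine fc2_height_le (RingHom.ker_isPrime δ) f hf fun x hx => ?_
    obtain ⟨τ, h2, h3⟩ := hb x hx
    exact ⟨τ, h2, h3⟩
  refine NU.regular_of_independent hR δR hsurj hker (fun j => algebraMap P R (g j))
    (fun j => by rw [hδR]; exact h0 _ (hg j)) ?_
  intro c hcm i
  obtain ⟨s, hs⟩ := IsLocalization.exist_integer_multiples_of_finite Q.primeCompl c
  choose a ha' using hs
  have h1 : algebraMap P R (∑ i, a i * g i) ∈ maximalIdeal R ^ 2 := by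
    have h2 : algebraMap P R (∑ i, a i * g i) =
        algebraMap P R s * ∑ i, c i * algebraMap P R (g i) := by
      rw [map_sum, Finset.mul_sum]
      refine Finset.sum_congr rfl fun i _ => ?_
      rw [map_mul, ha', Algebra.smul_def]
      ring
    rw [h2]
    exact Ideal.mul_mem_left _ _ hcm
  rw [mem_maximalIdeal_pow_iff] at h1
  obtain ⟨s', hs', hs2⟩ := h1
  have h3 : s' * a i ∈ Q := by
    refine hc (fun j => s' * a j) ?_ i
    rw [Finset.mul_sum] at hs2
    have h4 : ∑ j, s' * a j * g j = ∑ j, s' * (a j * g j) :=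
      Finset.sum_congr rfl fun j _ => mul_assoc _ _ _
    rw [h4]
    exact hs2
  have h3' : a i ∈ Q := (hQp.mem_or_mem h3).resolve_left hs'
  have h4 : algebraMap P R (a i) ∈ maximalIdeal R := by
    rw [← Localization.AtPrime.map_eq_maximalIdeal]
    exact Ideal.mem_map_of_mem _ h3'
  rw [ha', Algebra.smul_def] at h4
  exact (Ideal.unit_mul_mem_iff_mem _ (IsLocalization.map_units R s)).mp h4

section C

variable {R σ D : Type} [CommRing R] [Fintype σ] [DecidableEq σ] [IsRegularRing (MvPolynomial σ R)]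
  {m : ℕ} {J : Ideal (MvPolynomial σ R)}

/-- TASK C2 -/
theorem regular_of_tanPt {c : ℕ} (hcard : Fintype.card σ = m + c) [CommRing D] [IsDomain D]
    [IsLocalRing D]
    (δ : MvPolynomial σ R →+* D) (hJ : ∀ f ∈ J, δ f = 0)
    (ha : ∀ z, ∃ a b, IsUnit (δ b) ∧ z * δ b = δ a)
    (hb : ∀ p, δ p = 0 → ∃ τ, δ τ ≠ 0 ∧ τ * p ∈ J)
    (hgen : SmoothPt m J (RingHom.ker δ))
    (hT : TanPt c J (Ideal.comap δ (maximalIdeal D))) : IsRegularLocalRing D := by
  classical
  obtain ⟨U, F, hU, hc, hh, e, -, -⟩ := hgen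
  have hcard2 : Fintype.card (Option {l : σ // l ∉ U.T}) = c := by
    have h1 : Fintype.card {l : σ // l ∉ U.T} = Fintype.card σ - U.T.card := by
      rw [Fintype.card_subtype_compl, Fintype.card_coe]
    have h2 : U.T.card ≤ Fintype.card σ := Finset.card_le_univ _
    rw [Fintype.card_option, h1]
    omega
  obtain ⟨E⟩ : Nonempty (Option {l : σ // l ∉ U.T} ≃ Fin c) :=
    ⟨Fintype.equivFinOfCardEq hcard2⟩
  let f₀ : Option {l : σ // l ∉ U.T} → MvPolynomial σ R := fun o => o.elim F U.g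
  have hrange : Set.range (fun j => f₀ (E.symm j)) = insert F (Set.range U.g) := by
    ext x
    constructor
    · rintro ⟨j, rfl⟩
      change f₀ (E.symm j) ∈ _
      rcases E.symm j with _ | κ
      · exact Or.inl rfl
      · exact Or.inr ⟨κ, rfl⟩
    · rintro (rfl | ⟨κ, rfl⟩)
      · exact ⟨E none, by simp [f₀]⟩
      · exact ⟨E (some κ), by simp [f₀]⟩
  refine fc2_regular δ (𝔞 := J) hJ hT ha (fun j => f₀ (E.symm j)) (fun j => ?_) fun p hp => ?_
  · change δ (f₀ (E.symm j)) = 0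
    rcases E.symm j with _ | κ
    · exact hJ _ hU.memF
    · exact hJ _ (hU.mem κ)
  · obtain ⟨τ, hτ, hτp⟩ := hb p hp
    have hs : δ U.s ≠ 0 := by
      intro h0
      apply hh
      rw [RingHom.mem_ker]
      show δ (U.s * U.Δ) = 0
      rw [map_mul, h0, zero_mul]
    refine ⟨U.s * τ, ?_, ?_⟩
    · rw [map_mul]
      exact mul_ne_zero hs hτ
    · rw [hrange, mul_assoc]
      exact hU.le _ hτp

end C

end Pool.Agent.Lib.MP_6a3dac_ag.Fam
end
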