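import Pool.Agent.Lib.MP_6a3dac_ag.Fam.Defs
import Pool.Agent.Lib.MP_6a3dac_ag.Mg.G013
import Pool.Agent.Lib.MP_6a3dac_ag.Mg.G016

section

/-!
# Presentations and change of the coefficient ring
-/

set_option autoImplicit false

namespace Pool.Agent.Lib.MP_6a3dac_ag.Fam

open MvPolynomial CategoryTheory Limits AlgebraicGeometry NumberField IsDedekindDomain Filter
open IsLocalRing Topology
open Pool.Agent.Lib.MP_6a3dac_ag.DNF Pool.Agent.Lib.MP_6a3dac_ag.Bert

section A

variable {R S σ : Type} [CommRing R] [CommRing S] (θ : R →+* S)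

private theorem fa_map_dehom {n : ℕ} (i : Fin (n + 1)) (q : MvPolynomial (Fin (n + 1)) R) :
    dehom i (MvPolynomial.map θ q) = MvPolynomial.map θ (dehom i q) := by
  induction q using MvPolynomial.induction_on with
  | C a => rw [dehom_C, map_C, map_C, dehom_C]
  | add a b ha hb => rw [map_add, map_add, map_add, map_add, ha, hb]
  | mul_X a k ha =>
    rw [map_mul, map_mul, map_mul, map_mul, ha]
    congr 1
    by_cases hk : k = i
    · subst hk
      rw [dehom_X_self, map_one, map_X, dehom_X_self]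
    · rw [map_X, show k = (⟨k, hk⟩ : {l : Fin (n + 1) // l ≠ i}).1 from rfl, dehom_X, dehom_X,
        map_X]

/-- The dehomogenization of the base change of an ideal. -/
theorem dId_bc {n : ℕ} (J : HomIdeal R (n + 1)) (i : Fin (n + 1)) :
    dId (bc θ J) i = (dId J i).map (MvPolynomial.map θ) := by
  have h1 : (dehom i : MvPolynomial (Fin (n + 1)) S →ₐ[S] _).toRingHom.comp
      (MvPolynomial.map θ) =
      (MvPolynomial.map θ).comp (dehom i : _ →ₐ[R] _).toRingHom :=
    RingHom.ext fun q => fa_map_dehom θ i q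
  have h3 : (J.ideal.map (MvPolynomial.map θ)).map
      (dehom i : MvPolynomial (Fin (n + 1)) S →ₐ[S] _).toRingHom =
      (J.ideal.map (dehom i : _ →ₐ[R] _).toRingHom).map (MvPolynomial.map θ) := by
    rw [Ideal.map_map, h1, Ideal.map_map]
  exact h3

/-- The base change along a composition. -/
theorem bc_bc {T : Type} [CommRing T] (η : S →+* T) {n : ℕ} (J : HomIdeal R n) :
    bc η (bc θ J) = bc (η.comp θ) J := by
  have h : (J.ideal.map (MvPolynomial.map θ)).map (MvPolynomial.map η) =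
      J.ideal.map (MvPolynomial.map (η.comp θ)) := by
    rw [Ideal.map_map]
    congr 1
    exact RingHom.ext fun q => MvPolynomial.map_map _ _ _
  unfold bc
  congr

variable [DecidableEq σ] {J : Ideal (MvPolynomial σ R)}

/-- The base change of a presentation. -/
theorem IsPres.map {U : Std R σ} {F : MvPolynomial σ R} (h : IsPres J U F) :
    IsPres (J.map (MvPolynomial.map θ)) (U.map θ) (MvPolynomial.map θ F) := by
  refine ⟨fun κ => Ideal.mem_map_of_mem _ (h.mem κ), Ideal.mem_map_of_mem _ h.memF, ?_⟩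
  intro f hf
  have hr : Ideal.span (insert (MvPolynomial.map θ F) (Set.range (U.map θ).g)) =
      (Ideal.span (insert F (Set.range U.g))).map (MvPolynomial.map θ) := by
    rw [Ideal.map_span, Set.image_insert_eq, ← Set.range_comp]
    rfl
  rw [hr]
  refine Submodule.span_induction (p := fun f _ => (U.map θ).s * f ∈
    (Ideal.span (insert F (Set.range U.g))).map (MvPolynomial.map θ)) ?_ ?_ ?_ ?_ hf
  · rintro _ ⟨x, hx, rfl⟩
    have := Ideal.mem_map_of_mem (MvPolynomial.map θ) (h.le x hx)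
    rwa [map_mul] at this
  · rw [mul_zero]
    exact Ideal.zero_mem _
  · intro x y _ _ hx hy
    rw [mul_add]
    exact Ideal.add_mem _ hx hy
  · intro a x _ hx
    rw [smul_eq_mul, mul_left_comm]
    exact Ideal.mul_mem_left _ _ hx

variable [Fintype σ] {m : ℕ}

/-- The base change of a smooth point. -/
theorem SmoothPt.map {𝔮 : Ideal (MvPolynomial σ S)}
    (h : SmoothPt m J (𝔮.comap (MvPolynomial.map θ))) :
    SmoothPt m (J.map (MvPolynomial.map θ)) 𝔮 := by
  obtain ⟨U, F, hP, hT, hh, e, he, hev⟩ := h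
  refine ⟨U.map θ, MvPolynomial.map θ F, hP.map θ, hT, ?_, e, he, ?_⟩
  · rw [Std.map_hL]
    exact hh
  · rw [Std.map_vfL]
    exact hev

/-- The base change of a nodal point. -/
theorem NodalPt.map {𝔮 : Ideal (MvPolynomial σ S)}
    (h : NodalPt m J (𝔮.comap (MvPolynomial.map θ))) :
    NodalPt m (J.map (MvPolynomial.map θ)) 𝔮 := by
  obtain ⟨U, F, hP, hT, hh, hor⟩ := h
  refine ⟨U.map θ, MvPolynomial.map θ F, hP.map θ, hT, ?_, ?_⟩
  · rw [Std.map_hL]
    exact hh
  · rcases hor with ⟨e, he, hev⟩ | hdet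
    · left
      refine ⟨e, he, ?_⟩
      rw [Std.map_vfL]
      exact hev
    · right
      rw [Std.map_hessL]
      exact hdet

end A

end Pool.Agent.Lib.MP_6a3dac_ag.Fam
end

section

/-!
# Smoothness over a field
-/

set_option autoImplicit false

namespace Pool.Agent.Lib.MP_6a3dac_ag.Fam

open MvPolynomial CategoryTheory Limits AlgebraicGeometry NumberField IsDedekindDomain Filter
open IsLocalRing Topology
open Pool.Agent.Lib.MP_6a3dac_ag.DNF Pool.Agent.Lib.MP_6a3dac_ag.Bert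
open Pool.Agent.Lib.MP_6a3dac_ag.PC

/-- Smoothness where a vector field does not kill the section. -/
theorem fd2_away {k σ B : Type} [Field k] [Fintype σ] [DecidableEq σ] (U : Std k σ)
    {𝔞 : Ideal (MvPolynomial σ k)} (F : MvPolynomial σ k) (hU : IsPres 𝔞 U F) (e : σ) [CommRing B]
    [Algebra k B] (χ : MvPolynomial σ k →ₐ[k] B) (hχ : Function.Surjective χ)
    (hker : ∀ f, χ f = 0 ↔ f ∈ 𝔞) :
    Algebra.FormallySmooth k (Localization.Away (χ (U.h * U.vf e F))) := by
  classical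
  apply Algebra.FormallySmooth.of_comp_surjective
  intro R _ _ I hI g
  have hI2 : ∀ u ∈ I, ∀ v ∈ I, u * v = 0 := by
    intro u hu v hv
    have h1 : u * v ∈ I ^ 2 := by
      rw [pow_two]
      exact Ideal.mul_mem_mul hu hv
    rw [hI] at h1
    exact h1
  let L := Localization.Away (χ (U.h * U.vf e F))
  let ι : B →ₐ[k] L := IsScalarTower.toAlgHom k B L
  let p : MvPolynomial σ k →ₐ[k] R ⧸ I := g.comp (ι.comp χ)
  have hpw : IsUnit (p (U.h * U.vf e F)) := by
    have h1 : IsUnit (algebraMap B L (χ (U.h * U.vf e F))) :=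
      IsLocalization.Away.algebraMap_isUnit _
    exact h1.map g
  have hp0 : ∀ f, f ∈ 𝔞 → p f = 0 := by
    intro f hf
    change g (ι (χ f)) = 0
    rw [(hker f).2 hf, map_zero, map_zero]
  choose y hy using fun l => Ideal.Quotient.mk_surjective (p (X l))
  have hmk : ∀ (z : σ → R) (_ : ∀ l, Ideal.Quotient.mk I (z l) = p (X l))
      (q : MvPolynomial σ k), Ideal.Quotient.mk I (aeval z q) = p q := by
    intro z hz q
    have h1 : (Ideal.Quotient.mkₐ k I).comp (aeval z) = p := by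
      apply MvPolynomial.algHom_ext
      intro l
      change Ideal.Quotient.mk I (aeval z (X l)) = p (X l)
      rw [aeval_X, hz]
    exact AlgHom.congr_fun h1 q
  have hunit : ∀ q, IsUnit (p q) → ∀ (z : σ → R) (_ : ∀ l, Ideal.Quotient.mk I (z l) = p (X l)),
      IsUnit (aeval z q) := by
    intro q hq z hz
    apply f2_isUnit hI2
    rw [hmk z hz]
    exact hq
  have hps : IsUnit (p U.s) ∧ IsUnit (p U.Δ) ∧ IsUnit (p (U.vf e F)) := by
    rw [Std.h, map_mul, map_mul] at hpw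
    exact ⟨isUnit_of_mul_isUnit_left (isUnit_of_mul_isUnit_left hpw),
      isUnit_of_mul_isUnit_right (isUnit_of_mul_isUnit_left hpw),
      isUnit_of_mul_isUnit_right hpw⟩
  obtain ⟨ε, hε, hεg, hεF⟩ := exists_correction U F e (N := I) hI2 y
    (fun κ => by
      rw [← Ideal.Quotient.eq_zero_iff_mem, hmk y hy]
      exact hp0 _ (hU.mem κ))
    (by
      rw [← Ideal.Quotient.eq_zero_iff_mem, hmk y hy]
      exact hp0 _ hU.memF)
    (hunit _ hps.2.1 y hy) (hunit _ hps.2.2 y hy)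
  have hy' : ∀ l, Ideal.Quotient.mk I (y l + ε l) = p (X l) := by
    intro l
    rw [map_add, hy, Ideal.Quotient.eq_zero_iff_mem.mpr (hε l), add_zero]
  let Ψ₀ : MvPolynomial σ k →ₐ[k] R := aeval fun l => y l + ε l
  have h𝔞 : ∀ f ∈ 𝔞, Ψ₀ f = 0 := by
    intro f hf
    have h1 := hU.le f hf
    have h2 : Ideal.span (insert F (Set.range U.g)) ≤ RingHom.ker Ψ₀ := by
      rw [Ideal.span_le]
      rintro x (hx | ⟨κ, rfl⟩)
      · rw [hx]
        exact hεF
      · exact hεg κ
    have h3 : Ψ₀ (U.s * f) = 0 := h2 h1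
    rw [map_mul] at h3
    exact (hunit _ hps.1 _ hy').mul_right_eq_zero.1 h3
  have hΨ₀ : RingHom.ker χ.toRingHom ≤ RingHom.ker Ψ₀.toRingHom := by
    intro f hf
    exact h𝔞 f ((hker f).1 hf)
  let Ψ₁ : B →ₐ[k] R := AlgHom.liftOfSurjective χ hχ Ψ₀ hΨ₀
  have hΨ₁ : ∀ q, Ψ₁ (χ q) = Ψ₀ q := fun q => AlgHom.liftOfSurjective_apply χ hχ Ψ₀ hΨ₀ q
  have hw : IsUnit (Ψ₁ (χ (U.h * U.vf e F))) := by
    rw [hΨ₁]
    exact hunit _ hpw _ hy'
  let Ψ : L →ₐ[k] R := IsLocalization.Away.liftAlgHom (χ (U.h * U.vf e F)) hw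
  refine ⟨Ψ, ?_⟩
  change (Ideal.Quotient.mkₐ k I).comp Ψ = g
  apply AlgHom.coe_ringHom_injective
  apply IsLocalization.ringHom_ext (Submonoid.powers (χ (U.h * U.vf e F)))
  refine RingHom.ext fun b => ?_
  obtain ⟨q, rfl⟩ := hχ b
  have h1 : Ψ (algebraMap B L (χ q)) = Ψ₀ q := by
    rw [← hΨ₁]
    exact IsLocalization.Away.lift_eq (g := Ψ₁.toRingHom) (χ (U.h * U.vf e F)) hw (χ q)
  change Ideal.Quotient.mk I (Ψ (algebraMap B L (χ q))) = g (algebraMap B L (χ q))
  rw [h1]
  exact hmk _ hy' q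

theorem fd2_chart {k : Type} [Field k] {n m : ℕ} (J : HomIdeal k (n + 1))
    (h : ∀ (i : Fin (n + 1)) (𝔮 : Ideal (MvPolynomial {l : Fin (n + 1) // l ≠ i} k)), 𝔮.IsPrime →
      dId J i ≤ 𝔮 → SmoothPt m (dId J i) 𝔮) (i : Fin (n + 1)) :
    Algebra.Smooth k (ChartRing J.toHom i) := by
  let χ := chi J i
  have hχ : Function.Surjective χ := chi_surjective J i
  have hker : ∀ q, χ q = 0 ↔ q ∈ dId J i := fun q => chi_eq_zero_iff J i q
  have hft : Algebra.FiniteType k (ChartRing J.toHom i) :=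
    Algebra.FiniteType.of_surjective χ hχ
  refine smooth_of_span {x | ∃ (U : Std k {l : Fin (n + 1) // l ≠ i})
    (F : MvPolynomial {l : Fin (n + 1) // l ≠ i} k), IsPres (dId J i) U F ∧
      ∃ e, x = χ (U.h * U.vf e F)} ?_ ?_
  · by_contra hne
    obtain ⟨𝔫, h𝔫, hle⟩ := Ideal.exists_le_maximal _ hne
    have h𝔫p : 𝔫.IsPrime := h𝔫.isPrime
    have h𝔮 : (𝔫.comap χ.toRingHom).IsPrime := Ideal.IsPrime.comap χ.toRingHom
    have hI : dId J i ≤ 𝔫.comap χ.toRingHom := by
      intro x hx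
      have h1 : χ x = 0 := (hker x).2 hx
      change χ x ∈ 𝔫
      rw [h1]
      exact 𝔫.zero_mem
    obtain ⟨U, F, hUF, -, hh, e, -, hev⟩ := h i _ h𝔮 hI
    have h1 : U.h * U.vf e F ∈ 𝔫.comap χ.toRingHom :=
      hle (Ideal.subset_span ⟨U, F, hUF, e, rfl⟩)
    rcases h𝔮.mem_or_mem h1 with h2 | h2
    · exact hh h2
    · exact hev h2
  · rintro f ⟨U, F, hUF, e, rfl⟩
    exact fd2_away U F hUF e χ hχ hker

/-- TASK D2 -/
theorem smooth_of_smoothPt {k : Type} [Field k] {n m : ℕ} (J : HomIdeal k (n + 1))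
    (h : ∀ (i : Fin (n + 1)) (𝔮 : Ideal (MvPolynomial {l : Fin (n + 1) // l ≠ i} k)), 𝔮.IsPrime →
      dId J i ≤ 𝔮 → SmoothPt m (dId J i) 𝔮) : Smooth (hProjTo J) :=
  smooth_hProjTo J fun i => fd2_chart J h i

end Pool.Agent.Lib.MP_6a3dac_ag.Fam
end
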