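import Pool.Agent.Lib.MP_6a3dac_ag.Mg.G016
import Pool.Agent.Lib.MP_6a3dac_ag.Mg.G017
import Pool.Agent.Lib.MP_6a3dac_ag.Mg.G008
import Pool.Agent.Lib.MP_6a3dac_ag.Mg.G020
import Pool.Agent.Lib.MP_6a3dac_ag.Mg.G013
import Pool.Agent.Lib.MP_6a3dac_ag.Mg.G019

section

/-!
# The local rings of the model of a component of the section
-/

set_option autoImplicit false

namespace Pool.Agent.Lib.MP_6a3dac_ag.Bert

open MvPolynomial IsLocalRing CategoryTheory Limits AlgebraicGeometry NumberField IsDedekindDomain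
open Pool.Agent.Lib.MP_6a3dac_ag.DNF

variable {E : Type} [Field E] [NumberField E] {n d : ℕ} {I : HomIdeal (𝓞 E) (n + 1)}
  {a : Mono n d → 𝓞 E} {𝒰 : Charts (𝓞 E) n} {m₀ : 𝓞 E}
  {p : HomIdeal E (n + 1)}

/-- The equations over the local ring. -/
theorem exists_ker (hLD : ∀ i, LocDom (dId (secIdeal I E a) i))
    (hp : p.ideal ∈ (secIdeal I E a).ideal.minimalPrimes) (P : HeightOneSpectrum (𝓞 E))
    {i : Fin (n + 1)} (hi : X i ∉ p.ideal)
    {q : MvPolynomial {l : Fin (n + 1) // l ≠ i} (locRing E P)}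
    (hq : MvPolynomial.map (algebraMap (locRing E P) E) q ∈ dId p i) :
    ∃ z : MvPolynomial {l : Fin (n + 1) // l ≠ i} (locRing E P),
      MvPolynomial.map (algebraMap (locRing E P) E) z ∉ dId p i ∧
      z * q ∈ (dId I i).map (MvPolynomial.map (algebraMap (𝓞 E) (locRing E P))) ⊔
        Ideal.span {MvPolynomial.map (algebraMap (𝓞 E) (locRing E P)) (dF a i)} := by
  have hprime := isPrime_dId p hp.1.1 hi
  obtain ⟨z', hz', hzq⟩ := (hLD i).exists_mul_mem (dId_mem_minimalPrimes _ p hp hi) hprime le_rfl hq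
  have hfr : IsLocalization (nonZeroDivisors (locRing E P)) E :=
    inferInstanceAs (IsFractionRing (locRing E P) E)
  have hunit : ∀ m ∈ nonZeroDivisors (locRing E P),
      IsUnit (C (algebraMap (locRing E P) E m) : MvPolynomial {l : Fin (n + 1) // l ≠ i} E) :=
    fun m hm => (IsLocalization.map_units E (⟨m, hm⟩ : nonZeroDivisors (locRing E P))).map C
  have hnot : ∀ m ∈ nonZeroDivisors (locRing E P), ∀ w, w ∉ dId p i →
      C (algebraMap (locRing E P) E m) * w ∉ dId p i := by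
    intro m hm w hw h
    exact hw ((Ideal.unit_mul_mem_iff_mem _ (hunit m hm)).1 h)
  obtain ⟨m, hm, z₀, hz₀⟩ := exists_C_mul_eq (nonZeroDivisors (locRing E P)) z'
  rw [dId_secIdeal] at hzq
  have hmap : (dId I i).map (MvPolynomial.map (algebraMap (𝓞 E) E)) ⊔
      Ideal.span {MvPolynomial.map (algebraMap (𝓞 E) E) (dF a i)} =
      ((dId I i).map (MvPolynomial.map (algebraMap (𝓞 E) (locRing E P))) ⊔
        Ideal.span {MvPolynomial.map (algebraMap (𝓞 E) (locRing E P)) (dF a i)}).map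
          (MvPolynomial.map (algebraMap (locRing E P) E)) := by
    have hcomp : (MvPolynomial.map (σ := {l : Fin (n + 1) // l ≠ i})
        (algebraMap (locRing E P) E)).comp
        (MvPolynomial.map (algebraMap (𝓞 E) (locRing E P))) =
        MvPolynomial.map (algebraMap (𝓞 E) E) := by
      apply RingHom.ext
      intro w
      rw [RingHom.comp_apply, MvPolynomial.map_map, ← IsScalarTower.algebraMap_eq]
    rw [Ideal.map_sup, Ideal.map_map, hcomp, Ideal.map_span, Set.image_singleton,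
      ← RingHom.comp_apply, hcomp]
  have h1 : MvPolynomial.map (algebraMap (locRing E P) E) (z₀ * q) ∈
      ((dId I i).map (MvPolynomial.map (algebraMap (𝓞 E) (locRing E P))) ⊔
        Ideal.span {MvPolynomial.map (algebraMap (𝓞 E) (locRing E P)) (dF a i)}).map
          (MvPolynomial.map (algebraMap (locRing E P) E)) := by
    rw [← hmap, map_mul, hz₀, mul_assoc]
    exact Ideal.mul_mem_left _ _ hzq
  obtain ⟨m', hm', h2⟩ := exists_C_mul_mem (nonZeroDivisors (locRing E P)) _ h1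
  refine ⟨C m' * z₀, ?_, by rw [mul_assoc]; exact h2⟩
  rw [map_mul, MvPolynomial.map_C, hz₀]
  exact hnot m' hm' _ (hnot m hm _ hz')

section Point

variable (hLD : ∀ i, LocDom (dId (secIdeal I E a) i))
  (hp : p.ideal ∈ (secIdeal I E a).ideal.minimalPrimes) (P : HeightOneSpectrum (𝓞 E))
  {i : Fin (n + 1)} (hi : X i ∉ p.ideal) {D : Type} [CommRing D] [IsDomain D] [IsLocalRing D]
  (φ : MvPolynomial {l : Fin (n + 1) // l ≠ i} (locRing E P) →+* D)
  (hφ : ∀ q, φ q = 0 ↔ MvPolynomial.map (algebraMap (locRing E P) E) q ∈ dId p i)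
include hLD hp hi hφ

/-- The local ring is the local ring of the section if there is nothing to blow up. -/
theorem regular_of_top (hreg : ∀ y : hProj I, IsRegularLocalRing ((hProj I).presheaf.stalk y))
    (hns : NotSq (dId I i) (dF a i) (Ideal.comap (φ.comp
      (MvPolynomial.map (algebraMap (𝓞 E) (locRing E P)))) (maximalIdeal D)))
    (htop : locIn φ = ⊤) : IsRegularLocalRing D := by
  have hS := isRegularRing_chart I hreg i
  have hcomp : ∀ w : MvPolynomial {l : Fin (n + 1) // l ≠ i} (𝓞 E),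
      MvPolynomial.map (algebraMap (locRing E P) E)
        (MvPolynomial.map (algebraMap (𝓞 E) (locRing E P)) w) =
        MvPolynomial.map (algebraMap (𝓞 E) E) w := by
    intro w
    rw [MvPolynomial.map_map, ← IsScalarTower.algebraMap_eq]
  have hle : dId (secIdeal I E a) i ≤ dId p i := dId_mono hp.1.2
  rw [dId_secIdeal] at hle
  have hunit : ∀ m ∈ P.asIdeal.primeCompl,
      IsUnit (φ (C (algebraMap (𝓞 E) (locRing E P) m))) := fun m hm =>
    ((IsLocalization.map_units (locRing E P) (⟨m, hm⟩ : P.asIdeal.primeCompl)).map C).map φ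
  refine isRegularLocalRing_of_notSq (chi I i).toRingHom (chi_surjective I i)
    (𝔞 := dId I i) (fun x => chi_eq_zero_iff I i x) (f := dF a i)
    (φ.comp (MvPolynomial.map (algebraMap (𝓞 E) (locRing E P)))) ?_ ?_ hns ?_ ?_
  · intro x hx
    rw [RingHom.comp_apply, hφ, hcomp]
    exact hle (Ideal.mem_sup_left (Ideal.mem_map_of_mem _ hx))
  · rw [RingHom.comp_apply, hφ, hcomp]
    exact hle (Ideal.mem_sup_right (Ideal.subset_span rfl))
  · intro z
    have hz : z ∈ locIn φ := by rw [htop]; trivial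
    obtain ⟨b, s, hs, hzs⟩ := mem_locIn.1 hz
    obtain ⟨m, hm, b₀, hb₀⟩ := exists_C_mul_eq P.asIdeal.primeCompl b
    obtain ⟨m', hm', s₀, hs₀⟩ := exists_C_mul_eq P.asIdeal.primeCompl s
    refine ⟨C m' * b₀, C m * s₀, ?_, ?_⟩
    · rw [RingHom.comp_apply, map_mul, MvPolynomial.map_C, hs₀, map_mul, map_mul]
      exact (hunit m hm).mul ((hunit m' hm').mul hs)
    · simp only [RingHom.comp_apply, map_mul, MvPolynomial.map_C, hs₀, hb₀, ← hzs]
      ring
  · intro w hw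
    rw [RingHom.comp_apply, hφ] at hw
    obtain ⟨z, hz, hzw⟩ := exists_ker hLD hp P hi hw
    obtain ⟨m, hm, z₀, hz₀⟩ := exists_C_mul_eq P.asIdeal.primeCompl z
    have h1 : MvPolynomial.map (algebraMap (𝓞 E) (locRing E P)) (z₀ * w) ∈
        (dId I i ⊔ Ideal.span {dF a i}).map
          (MvPolynomial.map (algebraMap (𝓞 E) (locRing E P))) := by
      rw [map_mul, hz₀, mul_assoc, Ideal.map_sup, Ideal.map_span, Set.image_singleton]
      exact Ideal.mul_mem_left _ _ hzw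
    obtain ⟨m', hm', h2⟩ := exists_C_mul_mem P.asIdeal.primeCompl _ h1
    refine ⟨C m' * z₀, ?_, by rw [mul_assoc]; exact h2⟩
    rw [RingHom.comp_apply, map_mul, MvPolynomial.map_C, hz₀, map_mul, map_mul]
    refine mul_ne_zero (hunit m' hm').ne_zero (mul_ne_zero (hunit m hm).ne_zero ?_)
    rw [Ne, hφ]
    exact hz

/-- The points over a prime where the section is regular. -/
theorem regular_of_totReg
    (hreg : ∀ y : hProj I, IsRegularLocalRing ((hProj I).presheaf.stalk y)) (hm₀ : m₀ ≠ 0)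
    (h𝒰 : 𝒰.For I m₀) (hsm : SmoothIn 𝒰 I a) (hP : TotReg I P a) (htop : locIn φ = ⊤) :
    IsRegularLocalRing D := by
  refine regular_of_top hLD hp P hi φ hφ hreg ?_ htop
  have hcomp : ∀ w : MvPolynomial {l : Fin (n + 1) // l ≠ i} (𝓞 E),
      MvPolynomial.map (algebraMap (locRing E P) E)
        (MvPolynomial.map (algebraMap (𝓞 E) (locRing E P)) w) =
        MvPolynomial.map (algebraMap (𝓞 E) E) w := by
    intro w
    rw [MvPolynomial.map_map, ← IsScalarTower.algebraMap_eq]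
  have hle : dId (secIdeal I E a) i ≤ dId p i := dId_mono hp.1.2
  rw [dId_secIdeal] at hle
  set 𝔮 := Ideal.comap (φ.comp (MvPolynomial.map (algebraMap (𝓞 E) (locRing E P))))
    (maximalIdeal D) with h𝔮
  have hprime : 𝔮.IsPrime := Ideal.IsPrime.comap _
  have hI𝔮 : dId I i ≤ 𝔮 := by
    intro x hx
    have : (φ.comp (MvPolynomial.map (algebraMap (𝓞 E) (locRing E P)))) x = 0 := by
      rw [RingHom.comp_apply, hφ, hcomp]
      exact hle (Ideal.mem_sup_left (Ideal.mem_map_of_mem _ hx))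
    rw [h𝔮, Ideal.mem_comap, this]
    exact Submodule.zero_mem _
  have hF𝔮 : dF a i ∈ 𝔮 := by
    have : (φ.comp (MvPolynomial.map (algebraMap (𝓞 E) (locRing E P)))) (dF a i) = 0 := by
      rw [RingHom.comp_apply, hφ, hcomp]
      exact hle (Ideal.mem_sup_right (Ideal.subset_span rfl))
    rw [h𝔮, Ideal.mem_comap, this]
    exact Submodule.zero_mem _
  have hcP : ∀ c : 𝓞 E, C c ∈ 𝔮 → c ∈ P.asIdeal := by
    intro c hc
    by_contra hcP
    rw [h𝔮, Ideal.mem_comap, RingHom.comp_apply, MvPolynomial.map_C,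
      IsLocalRing.mem_maximalIdeal] at hc
    exact hc (((IsLocalization.map_units (locRing E P)
      (⟨c, hcP⟩ : P.asIdeal.primeCompl)).map C).map φ)
  by_cases h0 : ∀ c : 𝓞 E, C c ∈ 𝔮 → c = 0
  · exact notSq_of_smoothIn hm₀ h𝒰 hsm i 𝔮 hprime hI𝔮 h0 hF𝔮
  · push Not at h0
    obtain ⟨c, hc, hc0⟩ := h0
    have hcomapprime : (Ideal.comap (C : 𝓞 E →+* _) 𝔮).IsPrime := Ideal.IsPrime.comap _
    have hne : Ideal.comap (C : 𝓞 E →+* _) 𝔮 ≠ ⊥ := by
      intro h
      have : c ∈ Ideal.comap (C : 𝓞 E →+* _) 𝔮 := hc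
      rw [h] at this
      exact hc0 this
    have hmax : (Ideal.comap (C : 𝓞 E →+* _) 𝔮).IsMaximal := hcomapprime.isMaximal hne
    have heq : Ideal.comap (C : 𝓞 E →+* _) 𝔮 = P.asIdeal :=
      hmax.eq_of_le P.isPrime.ne_top hcP
    refine notSq_of_totReg hP i 𝔮 hprime hI𝔮 ?_
    rw [Ideal.map_le_iff_le_comap, heq]

omit hφ hLD hi [IsDomain D] [IsLocalRing D] in
private theorem n4_dId_mem {f : MvPolynomial {l : Fin (n + 1) // l ≠ i} (𝓞 E)}
    (hf : f ∈ dId I i ⊔ Ideal.span {dF a i}) :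
    MvPolynomial.map (algebraMap (𝓞 E) E) f ∈ dId p i := by
  have h1 : MvPolynomial.map (algebraMap (𝓞 E) E) f ∈ dId (secIdeal I E a) i := by
    rw [dId_secIdeal]
    have h2 := Ideal.mem_map_of_mem (MvPolynomial.map (algebraMap (𝓞 E) E)) hf
    rw [Ideal.map_sup, Ideal.map_span, Set.image_singleton] at h2
    exact h2
  exact dId_mono hp.1.2 h1

/-- The points over a prime where the section has nondegenerate double points. -/
theorem regular_of_nodal
    (hreg : ∀ y : hProj I, IsRegularLocalRing ((hProj I).presheaf.stalk y))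
    (hI : I.ideal.IsPrime) (hd : 1 ≤ d) (hm₀ : m₀ ∉ P.asIdeal)
    (h𝒰 : 𝒰.For I m₀) {m : 𝓞 E} (hm : ∀ (i : Fin (n + 1)) (t : 𝒰.τ i), ∃ N : ℕ,
      C m * (𝒰.U i t).h ^ N ∈ dId I i ⊔ Ideal.span (insert (dF a i)
        {x | ∃ e ∈ (𝒰.U i t).T, x = (𝒰.U i t).vf e (dF a i)}))
    (hN : NodalAt 𝒰 I P a) {ϖ : locRing E P} (hϖ : Irreducible ϖ) {r : ℕ} {u : locRing E P}
    (hu : IsUnit u) (hur : u * algebraMap (𝓞 E) (locRing E P) m = ϖ ^ r)
    {G : Finset (MvPolynomial (Fin (n + 1)) (𝓞 E))}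
    (hG1 : ∀ g ∈ G, ∃ c A k, IsTan I A k ∧ g = c * hDer A (form a))
    (hG2 : ∀ A k, IsTan I A k → ∀ i,
      dehom i (hDer A (form a)) ∈ Ideal.span ((dehom i) '' (G : Set _)))
    (b : ℕ → D)
    (hb : ∀ j, 1 ≤ j → j ≤ r → b j ≠ 0 ∧ b j ∣ φ (C ϖ) ^ j ∧
      (∀ g ∈ G, b j ∣ φ (MvPolynomial.map (algebraMap (𝓞 E) (locRing E P)) (dehom i g))) ∧
      b j ∈ Submodule.span (locIn φ) (insert (φ (C ϖ) ^ j)
        ((fun g => φ (MvPolynomial.map (algebraMap (𝓞 E) (locRing E P)) (dehom i g))) ''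
          (G : Set _))))
    (hgen : ∀ R' : Subring D, Dom R' → locIn φ ≤ R' →
      (∀ j, 1 ≤ j → j ≤ r → ∀ w, (b j * w = φ (C ϖ) ^ j ∨ ∃ g ∈ G,
        b j * w = φ (MvPolynomial.map (algebraMap (𝓞 E) (locRing E P)) (dehom i g))) →
          w ∈ R') → R' = ⊤) :
    IsRegularLocalRing D := by
  classical
  have _ := hd
  obtain ⟨θ, hθ⟩ : ∃ θ, θ = algebraMap (𝓞 E) (locRing E P) := ⟨_, rfl⟩
  obtain ⟨φ₀, hφ₀⟩ : ∃ φ₀ : MvPolynomial {l : Fin (n + 1) // l ≠ i} (𝓞 E) →+* D,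
    φ₀ = φ.comp (MvPolynomial.map (algebraMap (𝓞 E) (locRing E P))) := ⟨_, rfl⟩
  have hφ₀a : ∀ f, φ (MvPolynomial.map θ f) = φ₀ f := fun f => by rw [hφ₀, hθ]; rfl
  rw [← hθ] at hur hb hgen
  simp only [hφ₀a] at hb hgen
  have hmapE : ∀ f : MvPolynomial {l : Fin (n + 1) // l ≠ i} (𝓞 E),
      MvPolynomial.map (algebraMap (locRing E P) E) (MvPolynomial.map θ f) =
        MvPolynomial.map (algebraMap (𝓞 E) E) f := by
    intro f
    rw [hθ, MvPolynomial.map_map, ← IsScalarTower.algebraMap_eq]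
  have hprime : p.ideal.IsPrime := hp.1.1
  have hdp : (dId p i).IsPrime := isPrime_dId p hprime hi
  -- the kernel
  have hker0 : ∀ f ∈ dId I i ⊔ Ideal.span {dF a i}, φ₀ f = 0 := by
    intro f hf
    rw [← hφ₀a, hφ, hmapE]
    exact n4_dId_mem hp hf
  have hkerI : ∀ f ∈ dId I i, φ₀ f = 0 := fun f hf => hker0 f (Ideal.mem_sup_left hf)
  have hF0 : φ₀ (dF a i) = 0 := hker0 _ (Ideal.mem_sup_right (Ideal.subset_span rfl))
  have hXI : X i ∉ I.ideal := by
    intro hXi
    apply hi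
    have h1 : dehom i (X i : MvPolynomial (Fin (n + 1)) (𝓞 E)) ∈ dId I i := dehom_mem_dId I hXi
    rw [dehom_X_self] at h1
    have h2 := n4_dId_mem (a := a) hp (Ideal.mem_sup_left h1)
    rw [map_one] at h2
    exact absurd ((Ideal.eq_top_iff_one _).mpr h2) hdp.ne_top
  -- the point
  obtain ⟨𝔮, h𝔮⟩ : ∃ 𝔮, 𝔮 = Ideal.comap φ₀ (maximalIdeal D) := ⟨_, rfl⟩
  have h𝔮p : 𝔮.IsPrime := by rw [h𝔮]; exact Ideal.IsPrime.comap φ₀
  have hmem : ∀ f, f ∈ 𝔮 ↔ φ₀ f ∈ maximalIdeal D := fun f => by rw [h𝔮, Ideal.mem_comap]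
  have hun : ∀ f, f ∉ 𝔮 ↔ IsUnit (φ₀ f) := by
    intro f
    rw [hmem, IsLocalRing.mem_maximalIdeal, mem_nonunits_iff, not_not]
  have hI𝔮 : dId I i ≤ 𝔮 := fun f hf => by rw [hmem, hkerI f hf]; exact Ideal.zero_mem _
  have hF𝔮 : dF a i ∈ 𝔮 := by rw [hmem, hF0]; exact Ideal.zero_mem _
  -- the chart
  have hm₀u : C m₀ ∉ 𝔮 := by
    rw [hun, ← hφ₀a, MvPolynomial.map_C]
    have h1 : IsUnit (θ m₀) := by
      rw [hθ]
      exact IsLocalization.map_units (locRing E P) (⟨m₀, hm₀⟩ : P.asIdeal.primeCompl)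
    exact (h1.map C).map φ
  obtain ⟨t, ht⟩ : ∃ t, (𝒰.U i t).h ∉ 𝔮 := by
    by_contra hcon
    push Not at hcon
    apply hm₀u
    have h1 : dId I i ⊔ Ideal.span (Set.range fun t => (𝒰.U i t).h) ≤ 𝔮 := by
      rw [sup_le_iff, Ideal.span_le]
      refine ⟨hI𝔮, ?_⟩
      rintro _ ⟨t, rfl⟩
      exact hcon t
    exact h1 (h𝒰.cover i)
  obtain ⟨U, hU⟩ : ∃ U, U = 𝒰.U i t := ⟨_, rfl⟩
  have hUF : U.For (dId I i) := hU ▸ h𝒰.is i t
  have hUh : U.h ∉ 𝔮 := hU ▸ ht
  obtain ⟨N, hmN⟩ := hm i t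
  rw [← hU] at hmN
  have hhu : IsUnit (φ₀ U.h) := (hun _).mp hUh
  have hsu : IsUnit (φ₀ U.s) := by
    have h1 := hhu
    rw [Std.h, map_mul] at h1
    exact isUnit_of_mul_isUnit_left h1
  have hΔu : IsUnit (φ₀ U.Δ) := by
    have h1 := hhu
    rw [Std.h, map_mul] at h1
    exact isUnit_of_mul_isUnit_right h1
  have hφloc : ∀ q, φ q ∈ locIn φ := map_mem_locIn φ
  have hφ₀loc : ∀ q, φ₀ q ∈ locIn φ := fun q => by rw [← hφ₀a]; exact hφloc _
  have hdomL : Dom (locIn φ) := dom_locIn φ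
  -- comparison of the ideals
  have hc1 : ∀ g ∈ G, φ₀ (dehom i g) ∈
      Submodule.span (locIn φ) {z | ∃ e ∈ U.T, z = φ₀ (U.vf e (dF a i))} := by
    intro g hg
    obtain ⟨c, A, k, hA, rfl⟩ := hG1 g hg
    have h1 := hDer_mem_span φ₀ U hUF hkerI (isHomogeneous_form a) hF0 hsu hΔu (locIn φ) hφ₀loc
      hdomL hA
    rw [map_mul, map_mul]
    exact Submodule.smul_mem _ (⟨φ₀ (dehom i c), hφ₀loc _⟩ : locIn φ) h1
  have hc2 : ∀ e, φ₀ (U.vf e (dF a i)) ∈
      Submodule.span (locIn φ) ((fun g => φ₀ (dehom i g)) '' (G : Set _)) := fun e =>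
    vf_mem_span φ₀ U hUF hkerI (isHomogeneous_form a) hF0 hsu hΔu (locIn φ) hφ₀loc
      hdomL hI hXI (fun A k hA => hG2 A k hA i) e
  have hspan : ∀ j, Submodule.span (locIn φ) (insert (φ (C ϖ) ^ j)
      ((fun g => φ₀ (dehom i g)) '' (G : Set _))) = Submodule.span (locIn φ)
        (insert (φ (C ϖ) ^ j) {z | ∃ e ∈ U.T, z = φ₀ (U.vf e (dF a i))}) := by
    intro j
    apply le_antisymm
    · rw [Submodule.span_le, Set.insert_subset_iff]
      refine ⟨Submodule.subset_span (Set.mem_insert _ _), ?_⟩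
      rintro _ ⟨g, hg, rfl⟩
      exact Submodule.span_mono (Set.subset_insert _ _) (hc1 g hg)
    · rw [Submodule.span_le, Set.insert_subset_iff]
      refine ⟨Submodule.subset_span (Set.mem_insert _ _), ?_⟩
      rintro _ ⟨e, -, rfl⟩
      exact Submodule.span_mono (Set.subset_insert _ _) (hc2 e)
  -- divisibility of the elements of the span
  have hdvd : ∀ j, 1 ≤ j → j ≤ r → ∀ x ∈ Submodule.span (locIn φ) (insert (φ (C ϖ) ^ j)
      {z | ∃ e ∈ U.T, z = φ₀ (U.vf e (dF a i))}), b j ∣ x := by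
    intro j hj1 hj2 x hx
    rw [← hspan] at hx
    obtain ⟨-, a2, a3, -⟩ := hb j hj1 hj2
    induction hx using Submodule.span_induction with
    | mem x hx =>
      rcases hx with rfl | ⟨g, hg, rfl⟩
      · exact a2
      · exact a3 g hg
    | zero => exact dvd_zero _
    | add x y _ _ hx hy => exact dvd_add hx hy
    | smul c x _ hx => exact Dvd.dvd.mul_left hx (c : D)
  have hvfmem : ∀ j, ∀ e ∈ U.T, φ₀ (U.vf e (dF a i)) ∈ Submodule.span (locIn φ)
      (insert (φ (C ϖ) ^ j) {z | ∃ e ∈ U.T, z = φ₀ (U.vf e (dF a i))}) := fun j e he =>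
    Submodule.subset_span (Or.inr ⟨e, he, rfl⟩)
  by_cases hcase : ∃ e ∈ U.T, IsUnit (φ₀ (U.vf e (dF a i)))
  · -- the blow-up is an isomorphism
    obtain ⟨e, he, heu⟩ := hcase
    refine regular_of_top hLD hp P hi φ hφ hreg ?_ ?_
    · rw [← hφ₀, ← h𝔮]
      exact hUF.notSq h𝔮p hI𝔮 hF𝔮 ((hun _).mpr hsu) ((hun _).mpr heu)
    · refine hgen (locIn φ) hdomL le_rfl fun j hj1 hj2 w hw => ?_
      have hbu : IsUnit (b j) := isUnit_of_dvd_unit (hdvd j hj1 hj2 _ (hvfmem j e he)) heu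
      have hbL : b j ∈ locIn φ := by
        obtain ⟨-, -, -, a4⟩ := hb j hj1 hj2
        generalize b j = x at a4
        induction a4 using Submodule.span_induction with
        | mem x hx =>
          rcases hx with rfl | ⟨g, hg, rfl⟩
          · exact (locIn φ).pow_mem (hφloc _) _
          · exact hφ₀loc _
        | zero => exact (locIn φ).zero_mem
        | add x y _ _ hx hy => exact (locIn φ).add_mem hx hy
        | smul c x _ hx => exact (locIn φ).mul_mem c.2 hx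
      obtain ⟨y, hy⟩ := hbu.exists_right_inv
      have hyL : y ∈ locIn φ := hdomL _ hbL _ hy
      have hxL : b j * w ∈ locIn φ := by
        rcases hw with hw | ⟨g, hg, hw⟩
        · rw [hw]; exact (locIn φ).pow_mem (hφloc _) _
        · rw [hw]; exact hφ₀loc _
      have h6 : w = y * (b j * w) := by
        rw [← mul_assoc, mul_comm y, hy, one_mul]
      rw [h6]
      exact (locIn φ).mul_mem hyL hxL
  · -- the double point
    push Not at hcase
    have hcrit : ∀ e ∈ U.T, U.vf e (dF a i) ∈ 𝔮 := by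
      intro e he
      by_contra hcon
      exact hcase e he ((hun _).mp hcon)
    -- the constants
    have hmq : C m ∈ 𝔮 := by
      have h1 : C m * U.h ^ N ∈ 𝔮 := by
        have h2 : dId I i ⊔ Ideal.span (insert (dF a i)
            {x | ∃ e ∈ U.T, x = U.vf e (dF a i)}) ≤ 𝔮 := by
          rw [sup_le_iff, Ideal.span_le]
          refine ⟨hI𝔮, ?_⟩
          rintro _ (rfl | ⟨e, he, rfl⟩)
          · exact hF𝔮
          · exact hcrit e he
        exact h2 hmN
      exact (h𝔮p.mem_or_mem h1).resolve_right fun h3 => hUh (h𝔮p.mem_of_pow_mem _ h3)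
    have hpmr : φ (C ϖ) ^ r ∈ maximalIdeal D := by
      rw [← map_pow, ← map_pow, ← hur, map_mul, map_mul]
      refine Ideal.mul_mem_left _ _ ?_
      have h1 := (hmem _).mp hmq
      rwa [← hφ₀a, MvPolynomial.map_C] at h1
    have hpm : φ (C ϖ) ∈ maximalIdeal D :=
      (maximalIdeal.isMaximal D).isPrime.mem_of_pow_mem r hpmr
    -- the primes
    have hP𝔮 : P.asIdeal.map C ≤ 𝔮 := by
      rw [Ideal.map_le_iff_le_comap]
      intro c hc
      rw [Ideal.mem_comap, hmem, ← hφ₀a, MvPolynomial.map_C]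
      have h1 : θ c ∈ maximalIdeal (locRing E P) := by
        rw [hθ]
        exact (IsLocalization.AtPrime.to_map_mem_maximal_iff (locRing E P) P.asIdeal c).mpr hc
      rw [hϖ.maximalIdeal_eq, Ideal.mem_span_singleton] at h1
      obtain ⟨w, hw⟩ := h1
      rw [hw, map_mul, map_mul]
      exact Ideal.mul_mem_right _ _ hpm
    have hdet0 : (U.hess (dF a i)).det ∉ 𝔮 := by
      rw [hU]
      exact hN i t 𝔮 h𝔮p hI𝔮 hP𝔮 ht hF𝔮 (hU ▸ hcrit)
    have hvf : ∀ e, φ ((U.map θ).vf e (MvPolynomial.map θ (dF a i))) = φ₀ (U.vf e (dF a i)) := by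
      intro e
      rw [Std.map_vfL, hφ₀a]
    have hset : {z | ∃ e ∈ (U.map θ).T, z = φ ((U.map θ).vf e (MvPolynomial.map θ (dF a i)))} =
        {z | ∃ e ∈ U.T, z = φ₀ (U.vf e (dF a i))} := by
      simp only [hvf]
      rfl
    -- the Jacobian ideal
    have hsm : ∀ f ∈ dId I i, U.s * f ∈ Ideal.span (Set.range U.g) := hUF.le
    have hjac : U.s * (C m * U.h ^ N) ∈ Ideal.span (insert (dF a i)
        (Set.range U.g ∪ {x | ∃ e ∈ U.T, x = U.vf e (dF a i)})) := by
      obtain ⟨f, hf, w, hw, hfw⟩ := Submodule.mem_sup.mp hmN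
      rw [← hfw, mul_add]
      refine Ideal.add_mem _ ?_ ?_
      · refine Ideal.span_mono ?_ (hsm f hf)
        intro x hx
        exact Or.inr (Or.inl hx)
      · refine Ideal.mul_mem_left _ _ (Ideal.span_mono ?_ hw)
        rintro x (rfl | hx)
        · exact Or.inl rfl
        · exact Or.inr (Or.inr hx)
    refine isRegularLocalRing_std (U.map θ) (F := MvPolynomial.map θ (dF a i)) φ hϖ ?_ ?_ ?_ ?_ ?_
      hpm ?_ ?_ (t := MvPolynomial.map θ (U.s * U.h ^ N)) (r := r) ?_ ?_ b ?_ ?_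
    · intro κ
      change φ (MvPolynomial.map θ (U.g κ)) = 0
      rw [hφ₀a]
      exact hkerI _ (hUF.mem κ)
    · rw [hφ₀a]; exact hF0
    · rw [Std.map_ΔL, hφ₀a]; exact hΔu
    · intro q hq
      obtain ⟨z, hz1, hz2⟩ := exists_ker hLD hp P hi ((hφ q).mp hq)
      rw [← hθ] at hz2
      refine ⟨MvPolynomial.map θ U.s * z, ?_, ?_⟩
      · rw [map_mul, hφ₀a]
        refine mul_ne_zero hsu.ne_zero fun h0 => hz1 ((hφ z).mp h0)
      · obtain ⟨f, hf, w, hw, hfw⟩ := Submodule.mem_sup.mp hz2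
        rw [mul_assoc, ← hfw, mul_add]
        refine Ideal.add_mem _ ?_ ?_
        · refine Ideal.span_mono (Set.subset_insert _ _) ?_
          exact (hUF.mapL θ).le f hf
        · refine Ideal.mul_mem_left _ _ (Ideal.span_mono ?_ hw)
          rintro x rfl
          exact Or.inl rfl
    · intro c hc h0
      rw [hφ, MvPolynomial.map_C] at h0
      have hc0 : algebraMap (locRing E P) E c ≠ 0 := by
        intro h1
        exact hc (FaithfulSMul.algebraMap_injective (locRing E P) E (by rw [h1, map_zero]))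
      have h2 := Ideal.mul_mem_left _ (C (algebraMap (locRing E P) E c)⁻¹) h0
      rw [← C_mul, inv_mul_cancel₀ hc0, C_1] at h2
      exact hdp.ne_top ((Ideal.eq_top_iff_one _).mpr h2)
    · intro e he
      rw [hvf]
      exact (hmem _).mp (hcrit e he)
    · rw [Std.map_hessL, hφ₀a]
      exact (hun _).mp hdet0
    · rw [hφ₀a, map_mul, map_pow]
      exact hsu.mul (hhu.pow N)
    · have h1 : MvPolynomial.map θ (U.s * U.h ^ N) * C ϖ ^ r =
          C u * MvPolynomial.map θ (U.s * (C m * U.h ^ N)) := by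
        rw [← map_pow C, ← hur, map_mul, map_mul, map_mul, map_mul, MvPolynomial.map_C]
        ring
      rw [h1]
      refine Ideal.mul_mem_left _ _ ?_
      have h2 := Ideal.mem_map_of_mem (MvPolynomial.map θ) hjac
      rw [Ideal.map_span] at h2
      refine Ideal.span_mono ?_ h2
      rintro _ ⟨x, (rfl | ⟨κ, rfl⟩ | ⟨e, he, rfl⟩), rfl⟩
      · exact Or.inl rfl
      · exact Or.inr (Or.inl ⟨κ, rfl⟩)
      · exact Or.inr (Or.inr ⟨e, he, (Std.map_vfL U θ e _).symm⟩)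
    · intro j hj1 hj2
      obtain ⟨a1, a2, a3, a4⟩ := hb j hj1 hj2
      refine ⟨a1, a2, ?_, ?_⟩
      · intro e he
        rw [hvf]
        exact hdvd j hj1 hj2 _ (hvfmem j e he)
      · rw [hset, ← hspan]
        exact a4
    · intro R' hR1 hR2 hR3
      rw [hset] at hR3
      refine hgen R' hR1 hR2 fun j hj1 hj2 w hw => ?_
      refine hR3 j hj1 hj2 (b j * w) ?_ w rfl
      rw [← hspan]
      rcases hw with hw | ⟨g, hg, hw⟩
      · rw [hw]
        exact Submodule.subset_span (Set.mem_insert _ _)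
      · rw [hw]
        exact Submodule.subset_span (Or.inr ⟨g, hg, rfl⟩)

end Point

end Pool.Agent.Lib.MP_6a3dac_ag.Bert
end

section

/-!
# The generic fibre
-/

set_option autoImplicit false

namespace Pool.Agent.Lib.MP_6a3dac_ag.Fam

open MvPolynomial CategoryTheory Limits AlgebraicGeometry NumberField IsDedekindDomain Filter
open IsLocalRing Topology
open Pool.Agent.Lib.MP_6a3dac_ag.DNF Pool.Agent.Lib.MP_6a3dac_ag.Bert
open Pool.Agent.Lib.MP_6a3dac_ag.Maj

section D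

variable {E : Type} [Field E] [NumberField E] {m c : ℕ} {J : HomIdeal (𝓞 E) (m + c + 1)}

omit [NumberField E] in
/-- The generic fibre is smooth at all its points. -/
theorem GenFibreSmooth.smoothPt (h : GenFibreSmooth J) (i : Fin (m + c + 1))
    (𝔮 : Ideal (MvPolynomial {l : Fin (m + c + 1) // l ≠ i} E)) (h𝔮 : 𝔮.IsPrime)
    (hle : dId (bc (algebraMap (𝓞 E) E) J) i ≤ 𝔮) :
    SmoothPt m (dId (bc (algebraMap (𝓞 E) E) J) i) 𝔮 := by
  rw [dId_bc] at hle ⊢
  refine SmoothPt.map (algebraMap (𝓞 E) E) (h i _ (Ideal.IsPrime.comap _)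
    (Ideal.map_le_iff_le_comap.1 hle) ?_)
  intro z hz
  by_contra h0
  rw [Ideal.mem_comap, MvPolynomial.map_C] at hz
  have hne : algebraMap (𝓞 E) E z ≠ 0 := by
    rwa [Ne, FaithfulSMul.algebraMap_eq_zero_iff]
  exact h𝔮.ne_top (Ideal.eq_top_of_isUnit_mem _ hz ((isUnit_iff_ne_zero.2 hne).map C))

/-- The equations over the local ring. -/
theorem exists_ker_fam {p : HomIdeal E (m + c + 1)}
    (hLD : ∀ i, LocDom (dId (bc (algebraMap (𝓞 E) E) J) i))
    (hp : p.ideal ∈ (bc (algebraMap (𝓞 E) E) J).ideal.minimalPrimes)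
    (P : HeightOneSpectrum (𝓞 E)) {i : Fin (m + c + 1)} (hi : X i ∉ p.ideal)
    {q : MvPolynomial {l : Fin (m + c + 1) // l ≠ i} (locRing E P)}
    (hq : MvPolynomial.map (algebraMap (locRing E P) E) q ∈ dId p i) :
    ∃ z : MvPolynomial {l : Fin (m + c + 1) // l ≠ i} (locRing E P),
      MvPolynomial.map (algebraMap (locRing E P) E) z ∉ dId p i ∧
      z * q ∈ (dId J i).map (MvPolynomial.map (algebraMap (𝓞 E) (locRing E P))) := by
  have hprime := isPrime_dId p hp.1.1 hi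
  obtain ⟨z', hz', hzq⟩ := (hLD i).exists_mul_mem (dId_mem_minimalPrimes _ p hp hi) hprime le_rfl hq
  have hfr : IsLocalization (nonZeroDivisors (locRing E P)) E :=
    inferInstanceAs (IsFractionRing (locRing E P) E)
  have hunit : ∀ u ∈ nonZeroDivisors (locRing E P),
      IsUnit (C (algebraMap (locRing E P) E u) :
        MvPolynomial {l : Fin (m + c + 1) // l ≠ i} E) :=
    fun u hu => (IsLocalization.map_units E (⟨u, hu⟩ : nonZeroDivisors (locRing E P))).map C
  have hnot : ∀ u ∈ nonZeroDivisors (locRing E P), ∀ w, w ∉ dId p i →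
      C (algebraMap (locRing E P) E u) * w ∉ dId p i := by
    intro u hu w hw h
    exact hw ((Ideal.unit_mul_mem_iff_mem _ (hunit u hu)).1 h)
  obtain ⟨u, hu, z₀, hz₀⟩ := exists_C_mul_eq (nonZeroDivisors (locRing E P)) z'
  rw [dId_bc] at hzq
  have hmap : (dId J i).map (MvPolynomial.map (algebraMap (𝓞 E) E)) =
      ((dId J i).map (MvPolynomial.map (algebraMap (𝓞 E) (locRing E P)))).map
          (MvPolynomial.map (algebraMap (locRing E P) E)) := by
    have hcomp : (MvPolynomial.map (σ := {l : Fin (m + c + 1) // l ≠ i})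
        (algebraMap (locRing E P) E)).comp
        (MvPolynomial.map (algebraMap (𝓞 E) (locRing E P))) =
        MvPolynomial.map (algebraMap (𝓞 E) E) := by
      apply RingHom.ext
      intro w
      rw [RingHom.comp_apply, MvPolynomial.map_map, ← IsScalarTower.algebraMap_eq]
    rw [Ideal.map_map, hcomp]
  have h1 : MvPolynomial.map (algebraMap (locRing E P) E) (z₀ * q) ∈
      ((dId J i).map (MvPolynomial.map (algebraMap (𝓞 E) (locRing E P)))).map
          (MvPolynomial.map (algebraMap (locRing E P) E)) := by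
    rw [← hmap, map_mul, hz₀, mul_assoc]
    exact Ideal.mul_mem_left _ _ hzq
  obtain ⟨u', hu', h2⟩ := exists_C_mul_mem (nonZeroDivisors (locRing E P)) _ h1
  refine ⟨C u' * z₀, ?_, by rw [mul_assoc]; exact h2⟩
  rw [map_mul, MvPolynomial.map_C, hz₀]
  exact hnot u' hu' _ (hnot u hu _ hz')

omit [NumberField E] in
private theorem d1c_one (h : GenFibreSmooth J) (i : Fin (m + c + 1))
    (K : Ideal (MvPolynomial {l : Fin (m + c + 1) // l ≠ i} (𝓞 E))) (hJ : dId J i ≤ K)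
    (hG2 : ∀ (U : Std (𝓞 E) {l : Fin (m + c + 1) // l ≠ i})
        (F : MvPolynomial {l : Fin (m + c + 1) // l ≠ i} (𝓞 E)), IsPres (dId J i) U F →
        U.T.card = m + 1 → ∀ e ∈ U.T, ∃ k, U.h ^ k * U.vf e F ∈ K) :
    ∃ z : 𝓞 E, z ≠ 0 ∧ C z ∈ K := by
  by_contra hcon
  push Not at hcon
  have hdis : Disjoint (K : Set (MvPolynomial {l : Fin (m + c + 1) // l ≠ i} (𝓞 E)))
      (((nonZeroDivisors (𝓞 E)).map (C : 𝓞 E →+* MvPolynomial {l : Fin (m + c + 1) // l ≠ i} (𝓞 E)) :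
        Submonoid (MvPolynomial {l : Fin (m + c + 1) // l ≠ i} (𝓞 E))) :
        Set (MvPolynomial {l : Fin (m + c + 1) // l ≠ i} (𝓞 E))) := by
    rw [Set.disjoint_left]
    rintro x hx ⟨z, hz, rfl⟩
    exact hcon z (nonZeroDivisors.ne_zero hz) hx
  obtain ⟨𝔮, h𝔮, hle, hd⟩ := Ideal.exists_le_prime_disjoint _ _ hdis
  rw [Set.disjoint_left] at hd
  have hc : ∀ z : 𝓞 E, C z ∈ 𝔮 → z = 0 := by
    intro z hz
    by_contra h0
    exact hd hz (Submonoid.mem_map_of_mem _ (mem_nonZeroDivisors_of_ne_zero h0))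
  obtain ⟨U, F, hP, hT, hh, e, he, hev⟩ := h i 𝔮 h𝔮 (hJ.trans hle) hc
  obtain ⟨k, hk⟩ := hG2 U F hP hT e he
  rcases h𝔮.mem_or_mem (hle hk) with h1 | h1
  · exact hh (h𝔮.mem_of_pow_mem k h1)
  · exact hev h1

omit [NumberField E] in
/-- The Jacobian ideals contain a nonzero constant. -/
theorem exists_const (h : GenFibreSmooth J) {G : Finset (MvPolynomial (Fin (m + c + 1)) (𝓞 E))}
    (hG2 : ∀ (i : Fin (m + c + 1)) (U : Std (𝓞 E) {l : Fin (m + c + 1) // l ≠ i})
        (F : MvPolynomial {l : Fin (m + c + 1) // l ≠ i} (𝓞 E)), IsPres (dId J i) U F →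
        U.T.card = m + 1 → ∀ e ∈ U.T, ∃ k, U.h ^ k * U.vf e F ∈
          dId J i ⊔ Ideal.span (dehom i '' (G : Set (MvPolynomial (Fin (m + c + 1)) (𝓞 E))))) :
    ∃ m₁ : 𝓞 E, m₁ ≠ 0 ∧ ∀ i, C m₁ ∈
      dId J i ⊔ Ideal.span (dehom i '' (G : Set (MvPolynomial (Fin (m + c + 1)) (𝓞 E)))) := by
  classical
  choose z hz hzK using fun i => d1c_one h i
    (dId J i ⊔ Ideal.span (dehom i '' (G : Set (MvPolynomial (Fin (m + c + 1)) (𝓞 E)))))
    le_sup_left (hG2 i)
  refine ⟨∏ i, z i, Finset.prod_ne_zero_iff.2 fun i _ => hz i, fun i => ?_⟩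
  rw [← Finset.prod_erase_mul Finset.univ z (Finset.mem_univ i), C_mul]
  exact Ideal.mul_mem_left _ _ (hzK i)

end D

end Pool.Agent.Lib.MP_6a3dac_ag.Fam
end

section

/-!
# Points where nothing is blown up
-/

set_option autoImplicit false

namespace Pool.Agent.Lib.MP_6a3dac_ag.Fam

open MvPolynomial CategoryTheory Limits AlgebraicGeometry NumberField IsDedekindDomain Filter
open IsLocalRing Topology
open Pool.Agent.Lib.MP_6a3dac_ag.DNF Pool.Agent.Lib.MP_6a3dac_ag.Bert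
open Pool.Agent.Lib.MP_6a3dac_ag.Maj

section D

variable {E : Type} [Field E] [NumberField E] {m c : ℕ} {J : HomIdeal (𝓞 E) (m + c + 1)}

section Point

theorem fc3_map_map (P : HeightOneSpectrum (𝓞 E)) {σ : Type} (w : MvPolynomial σ (𝓞 E)) :
    MvPolynomial.map (algebraMap (locRing E P) E)
      (MvPolynomial.map (algebraMap (𝓞 E) (locRing E P)) w) =
      MvPolynomial.map (algebraMap (𝓞 E) E) w := by
  rw [MvPolynomial.map_map, ← IsScalarTower.algebraMap_eq]

theorem fc3_eq_zero {p : HomIdeal E (m + c + 1)}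
    (hp : p.ideal ∈ (bc (algebraMap (𝓞 E) E) J).ideal.minimalPrimes)
    (P : HeightOneSpectrum (𝓞 E)) {i : Fin (m + c + 1)} {D : Type} [CommRing D]
    (φ : MvPolynomial {l : Fin (m + c + 1) // l ≠ i} (locRing E P) →+* D)
    (hφ : ∀ q, φ q = 0 ↔ MvPolynomial.map (algebraMap (locRing E P) E) q ∈ dId p i)
    {f : MvPolynomial {l : Fin (m + c + 1) // l ≠ i} (𝓞 E)} (hf : f ∈ dId J i) :
    φ.comp (MvPolynomial.map (algebraMap (𝓞 E) (locRing E P))) f = 0 := by
  rw [RingHom.comp_apply, hφ, fc3_map_map]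
  have h1 : MvPolynomial.map (algebraMap (𝓞 E) E) f ∈ dId (bc (algebraMap (𝓞 E) E) J) i := by
    rw [dId_bc]
    exact Ideal.mem_map_of_mem _ hf
  exact dId_mono hp.1.2 h1

theorem fc3_isUnit (P : HeightOneSpectrum (𝓞 E)) {σ : Type} {D : Type} [CommRing D]
    (φ : MvPolynomial σ (locRing E P) →+* D) {z : 𝓞 E} (hz : z ∈ P.asIdeal.primeCompl) :
    IsUnit (φ (C (algebraMap (𝓞 E) (locRing E P) z))) :=
  ((IsLocalization.map_units (locRing E P) (⟨z, hz⟩ : P.asIdeal.primeCompl)).map C).map φ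

theorem fc3_ker {p : HomIdeal E (m + c + 1)}
    (hLD : ∀ i, LocDom (dId (bc (algebraMap (𝓞 E) E) J) i))
    (hp : p.ideal ∈ (bc (algebraMap (𝓞 E) E) J).ideal.minimalPrimes)
    (P : HeightOneSpectrum (𝓞 E)) {i : Fin (m + c + 1)} (hi : X i ∉ p.ideal) {D : Type}
    [CommRing D] [IsDomain D]
    (φ : MvPolynomial {l : Fin (m + c + 1) // l ≠ i} (locRing E P) →+* D)
    (hφ : ∀ q, φ q = 0 ↔ MvPolynomial.map (algebraMap (locRing E P) E) q ∈ dId p i)
    {w : MvPolynomial {l : Fin (m + c + 1) // l ≠ i} (𝓞 E)}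
    (hw : φ.comp (MvPolynomial.map (algebraMap (𝓞 E) (locRing E P))) w = 0) :
    ∃ τ, φ.comp (MvPolynomial.map (algebraMap (𝓞 E) (locRing E P))) τ ≠ 0 ∧
      τ * w ∈ dId J i := by
  rw [RingHom.comp_apply, hφ] at hw
  obtain ⟨z, hz, hzw⟩ := exists_ker_fam hLD hp P hi hw
  obtain ⟨n, hn, z₀, hz₀⟩ := exists_C_mul_eq P.asIdeal.primeCompl z
  have h1 : MvPolynomial.map (algebraMap (𝓞 E) (locRing E P)) (z₀ * w) ∈
      (dId J i).map (MvPolynomial.map (algebraMap (𝓞 E) (locRing E P))) := by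
    rw [map_mul, hz₀, mul_assoc]
    exact Ideal.mul_mem_left _ _ hzw
  obtain ⟨n', hn', h2⟩ := exists_C_mul_mem P.asIdeal.primeCompl _ h1
  refine ⟨C n' * z₀, ?_, by rw [mul_assoc]; exact h2⟩
  rw [RingHom.comp_apply, map_mul, MvPolynomial.map_C, hz₀, map_mul, map_mul]
  refine mul_ne_zero (fc3_isUnit P φ hn').ne_zero (mul_ne_zero (fc3_isUnit P φ hn).ne_zero ?_)
  rw [Ne, hφ]
  exact hz

theorem fc3_top (P : HeightOneSpectrum (𝓞 E)) {i : Fin (m + c + 1)} {D : Type}
    [CommRing D] [IsDomain D] [IsLocalRing D]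
    (φ : MvPolynomial {l : Fin (m + c + 1) // l ≠ i} (locRing E P) →+* D)
    (htop : locIn φ = ⊤) (z : D) :
    ∃ a b, IsUnit (φ.comp (MvPolynomial.map (algebraMap (𝓞 E) (locRing E P))) b) ∧
      z * φ.comp (MvPolynomial.map (algebraMap (𝓞 E) (locRing E P))) b =
        φ.comp (MvPolynomial.map (algebraMap (𝓞 E) (locRing E P))) a := by
  have hz : z ∈ locIn φ := by rw [htop]; trivial
  obtain ⟨b, s, hs, hzs⟩ := mem_locIn.1 hz
  obtain ⟨n, hn, b₀, hb₀⟩ := exists_C_mul_eq P.asIdeal.primeCompl b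
  obtain ⟨n', hn', s₀, hs₀⟩ := exists_C_mul_eq P.asIdeal.primeCompl s
  refine ⟨C n' * b₀, C n * s₀, ?_, ?_⟩
  · rw [RingHom.comp_apply, map_mul, MvPolynomial.map_C, hs₀, map_mul, map_mul]
    exact (fc3_isUnit P φ hn).mul ((fc3_isUnit P φ hn').mul hs)
  · simp only [RingHom.comp_apply, map_mul, MvPolynomial.map_C, hs₀, hb₀, ← hzs]
    ring

theorem fc3_const {p : HomIdeal E (m + c + 1)}
    (hp : p.ideal ∈ (bc (algebraMap (𝓞 E) E) J).ideal.minimalPrimes)
    (P : HeightOneSpectrum (𝓞 E)) {i : Fin (m + c + 1)} (hi : X i ∉ p.ideal) {D : Type}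
    [CommRing D]
    (φ : MvPolynomial {l : Fin (m + c + 1) // l ≠ i} (locRing E P) →+* D)
    (hφ : ∀ q, φ q = 0 ↔ MvPolynomial.map (algebraMap (locRing E P) E) q ∈ dId p i)
    (z : 𝓞 E)
    (hz : C z ∈ RingHom.ker (φ.comp (MvPolynomial.map (algebraMap (𝓞 E) (locRing E P))))) :
    z = 0 := by
  have hdp : (dId p i).IsPrime := isPrime_dId p hp.1.1 hi
  by_contra hz0
  rw [RingHom.mem_ker, RingHom.comp_apply, hφ, fc3_map_map, map_C] at hz
  have h1 : algebraMap (𝓞 E) E z ≠ 0 := by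
    rw [Ne, FaithfulSMul.algebraMap_eq_zero_iff]
    exact hz0
  exact hdp.ne_top (Ideal.eq_top_of_isUnit_mem _ hz (h1.isUnit.map C))

variable {p : HomIdeal E (m + c + 1)} (hgen : GenFibreSmooth J)
  (hLD : ∀ i, LocDom (dId (bc (algebraMap (𝓞 E) E) J) i))
  (hp : p.ideal ∈ (bc (algebraMap (𝓞 E) E) J).ideal.minimalPrimes)
  (P : HeightOneSpectrum (𝓞 E)) {i : Fin (m + c + 1)} (hi : X i ∉ p.ideal) {D : Type} [CommRing D]
  [IsDomain D] [IsLocalRing D]
  (φ : MvPolynomial {l : Fin (m + c + 1) // l ≠ i} (locRing E P) →+* D)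
  (hφ : ∀ q, φ q = 0 ↔ MvPolynomial.map (algebraMap (locRing E P) E) q ∈ dId p i)
include hgen hLD hp hi hφ

/-- TASK C3 -/
theorem regular_of_top_fam
    (hq : SmoothPt m (dId J i) (Ideal.comap (φ.comp
      (MvPolynomial.map (algebraMap (𝓞 E) (locRing E P)))) (maximalIdeal D)) ∨
      TanPt c (dId J i) (Ideal.comap (φ.comp
      (MvPolynomial.map (algebraMap (𝓞 E) (locRing E P)))) (maximalIdeal D)))
    (htop : locIn φ = ⊤) : IsRegularLocalRing D := by
  have hJ : ∀ f ∈ dId J i, φ.comp (MvPolynomial.map (algebraMap (𝓞 E) (locRing E P))) f = 0 :=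
    fun f hf => fc3_eq_zero hp P φ hφ hf
  rcases hq with hS | hT
  · exact regular_of_smoothPt (φ.comp (MvPolynomial.map (algebraMap (𝓞 E) (locRing E P)))) hJ
      (fc3_top P φ htop) (fun w hw => fc3_ker hLD hp P hi φ hφ hw) hS
  · have hker : (RingHom.ker
        (φ.comp (MvPolynomial.map (algebraMap (𝓞 E) (locRing E P))))).IsPrime :=
      RingHom.ker_isPrime _
    have hcard : Fintype.card {l : Fin (m + c + 1) // l ≠ i} = m + c := by
      rw [Fintype.card_subtype_compl, Fintype.card_fin, Fintype.card_subtype_eq]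
      rfl
    exact regular_of_tanPt hcard
      (φ.comp (MvPolynomial.map (algebraMap (𝓞 E) (locRing E P)))) hJ
      (fc3_top P φ htop) (fun w hw => fc3_ker hLD hp P hi φ hφ hw)
      (hgen i _ hker (fun f hf => RingHom.mem_ker.2 (hJ f hf))
        (fun z hz => fc3_const hp P hi φ hφ z hz)) hT

/-- TASK C3 -/
theorem regular_of_tanOver (hP : TanOver P J) (htop : locIn φ = ⊤) : IsRegularLocalRing D := by
  refine regular_of_top_fam hgen hLD hp P hi φ hφ ?_ htop
  set 𝔮 := Ideal.comap (φ.comp (MvPolynomial.map (algebraMap (𝓞 E) (locRing E P))))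
    (maximalIdeal D) with h𝔮
  have hprime : 𝔮.IsPrime := Ideal.IsPrime.comap _
  have hI𝔮 : dId J i ≤ 𝔮 := by
    intro x hx
    rw [h𝔮, Ideal.mem_comap, fc3_eq_zero hp P φ hφ hx]
    exact Submodule.zero_mem _
  have hcP : ∀ c : 𝓞 E, C c ∈ 𝔮 → c ∈ P.asIdeal := by
    intro c hc
    by_contra hcP
    rw [h𝔮, Ideal.mem_comap, RingHom.comp_apply, MvPolynomial.map_C,
      IsLocalRing.mem_maximalIdeal] at hc
    exact hc (fc3_isUnit P φ hcP)
  by_cases h0 : ∀ c : 𝓞 E, C c ∈ 𝔮 → c = 0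
  · exact Or.inl (hgen i 𝔮 hprime hI𝔮 h0)
  · push Not at h0
    obtain ⟨c, hc, hc0⟩ := h0
    have hcomapprime : (Ideal.comap (C : 𝓞 E →+* _) 𝔮).IsPrime := Ideal.IsPrime.comap _
    have hne : Ideal.comap (C : 𝓞 E →+* _) 𝔮 ≠ ⊥ := by
      intro h
      have : c ∈ Ideal.comap (C : 𝓞 E →+* _) 𝔮 := hc
      rw [h] at this
      exact hc0 this
    have hmax : (Ideal.comap (C : 𝓞 E →+* _) 𝔮).IsMaximal := hcomapprime.isMaximal hne
    have heq : Ideal.comap (C : 𝓞 E →+* _) 𝔮 = P.asIdeal :=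
      hmax.eq_of_le P.isPrime.ne_top hcP
    refine Or.inr (hP i 𝔮 hprime hI𝔮 ?_)
    rw [Ideal.map_le_iff_le_comap, heq]

end Point

end D

end Pool.Agent.Lib.MP_6a3dac_ag.Fam
end
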