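import Mathlib

section

/-!
# Smooth forms in at least three variables are irreducible
-/

set_option autoImplicit false

namespace Pool.Agent.Lib.MP_6a3dac_ag

open MvPolynomial

/-- Kill the variables with index less than `i`. -/
noncomputable def irredKill (n : ℕ) (k : Type) [Field k] (i : ℕ) :
    MvPolynomial (Fin (n + 1)) k →ₐ[k] MvPolynomial (Fin (n + 1)) k :=
  aeval fun j => if j.1 < i then 0 else X j

lemma irredKill_X {n : ℕ} {k : Type} [Field k] (i : ℕ) (j : Fin (n + 1)) :
    irredKill n k i (X j) = if j.1 < i then 0 else X j := by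
  simp [irredKill]

lemma irredKill_comp {n : ℕ} {k : Type} [Field k] (i : ℕ) :
    (irredKill n k (i + 1)).comp (irredKill n k i) = irredKill n k (i + 1) := by
  refine MvPolynomial.algHom_ext fun j => ?_
  rw [AlgHom.comp_apply, irredKill_X, irredKill_X]
  by_cases h : j.1 < i
  · rw [if_pos h, if_pos (by omega), map_zero]
  · rw [if_neg h, irredKill_X]

lemma irred_height {n : ℕ} {k : Type} [Field k] (i : ℕ) (hi : i ≤ n + 1) :
    (i : ℕ∞) ≤ (RingHom.ker (irredKill n k i)).height := by
  induction i with
  | zero => simp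
  | succ i ih =>
    have h1 := ih (by omega)
    have p1 : (RingHom.ker (irredKill n k i)).IsPrime := RingHom.ker_isPrime _
    have p2 : (RingHom.ker (irredKill n k (i + 1))).IsPrime := RingHom.ker_isPrime _
    have hlt : RingHom.ker (irredKill n k i) < RingHom.ker (irredKill n k (i + 1)) := by
      rw [SetLike.lt_iff_le_and_exists]
      refine ⟨fun p hp => ?_, X ⟨i, by omega⟩, ?_, ?_⟩
      · rw [RingHom.mem_ker] at hp ⊢
        rw [← irredKill_comp, AlgHom.comp_apply, hp, map_zero]
      · rw [RingHom.mem_ker, irredKill_X, if_pos (by simp)]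
      · rw [RingHom.mem_ker, irredKill_X, if_neg (by simp)]
        exact X_ne_zero _
    have h2 := Ideal.height_add_one_le_of_lt_of_isPrime hlt
    refine le_trans ?_ h2
    push_cast
    gcongr

/-- The substitution `X i ↦ T X i`. -/
noncomputable def irredScale (σ k : Type) [Field k] :
    MvPolynomial σ k →ₐ[k] Polynomial (MvPolynomial σ k) :=
  aeval fun i => (Polynomial.X : Polynomial (MvPolynomial σ k)) * Polynomial.C (X i)

lemma irredScale_homog {σ k : Type} [Field k] {f : MvPolynomial σ k} {d : ℕ}
    (hf : f.IsHomogeneous d) :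
    irredScale σ k f = Polynomial.X ^ d * Polynomial.C f := by
  conv_lhs => rw [f.as_sum]
  conv_rhs => rw [f.as_sum]
  rw [map_sum, map_sum, Finset.mul_sum]
  refine Finset.sum_congr rfl fun m hm => ?_
  have hd : m.sum (fun _ e => e) = d := by
    have := hf (mem_support_iff.mp hm)
    rw [← this, Finsupp.weight_apply]
    simp
  rw [irredScale, aeval_monomial, Finsupp.prod]
  simp only [mul_pow]
  rw [Finset.prod_mul_distrib, Finset.prod_pow_eq_pow_sum]
  have h1 : ∑ i ∈ m.support, m i = d := hd
  rw [h1, monomial_eq, map_mul, Finsupp.prod, map_prod]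
  simp only [map_pow]
  have h2 : (algebraMap k (Polynomial (MvPolynomial σ k))) (coeff m f) =
      Polynomial.C (C (coeff m f)) := rfl
  rw [h2]
  ring

lemma irredScale_eval_one {σ k : Type} [Field k] (f : MvPolynomial σ k) :
    (irredScale σ k f).eval 1 = f := by
  induction f using MvPolynomial.induction_on with
  | C a =>
    have : irredScale σ k (C a) = Polynomial.C (C a) := by
      rw [irredScale, aeval_C]; rfl
    rw [this, Polynomial.eval_C]
  | add p q hp hq => rw [map_add, Polynomial.eval_add, hp, hq]
  | mul_X p i hp =>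
    rw [map_mul, Polynomial.eval_mul, hp]
    simp [irredScale]

lemma irredScale_coeff_zero {σ k : Type} [Field k] (f : MvPolynomial σ k) :
    (irredScale σ k f).coeff 0 = C (constantCoeff f) := by
  rw [Polynomial.coeff_zero_eq_eval_zero]
  induction f using MvPolynomial.induction_on with
  | C a =>
    have : irredScale σ k (C a) = Polynomial.C (C a) := by
      rw [irredScale, aeval_C]; rfl
    rw [this, Polynomial.eval_C]
    simp
  | add p q hp hq => rw [map_add, Polynomial.eval_add, hp, hq, map_add, map_add]
  | mul_X p i hp =>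
    rw [map_mul, Polynomial.eval_mul, hp]
    simp [irredScale]

lemma irred_factor {σ k : Type} [Field k] {f g h : MvPolynomial σ k} {d : ℕ}
    (hf : f.IsHomogeneous d) (hf0 : f ≠ 0) (hfg : f = g * h) (hg : ¬ IsUnit g) :
    constantCoeff g = 0 := by
  by_contra hc
  have hg0 : g ≠ 0 := by rintro rfl; simp at hfg; exact hf0 hfg
  have hh0 : h ≠ 0 := by rintro rfl; simp at hfg; exact hf0 hfg
  set G := irredScale σ k g with hG
  set H := irredScale σ k h with hH
  have hG0 : G ≠ 0 := by
    intro h0
    apply hg0
    rw [← irredScale_eval_one g, ← hG, h0, Polynomial.eval_zero]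
  have hH0 : H ≠ 0 := by
    intro h0
    apply hh0
    rw [← irredScale_eval_one h, ← hH, h0, Polynomial.eval_zero]
  have hGH : G * H = Polynomial.X ^ d * Polynomial.C f := by
    rw [hG, hH, ← map_mul, ← hfg, irredScale_homog hf]
  have hCf : Polynomial.C f ≠ (0 : Polynomial (MvPolynomial σ k)) := by simpa using hf0
  have h1 : G.natDegree + H.natDegree = d := by
    rw [← Polynomial.natDegree_mul hG0 hH0, hGH,
      Polynomial.natDegree_mul (pow_ne_zero _ Polynomial.X_ne_zero) hCf]
    simp
  have h2 : G.natTrailingDegree + H.natTrailingDegree = d := by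
    rw [← Polynomial.natTrailingDegree_mul hG0 hH0, hGH,
      Polynomial.natTrailingDegree_mul (pow_ne_zero _ Polynomial.X_ne_zero) hCf]
    simp
  have h3 : G.natTrailingDegree = 0 := by
    rw [Polynomial.natTrailingDegree_eq_zero]
    right
    rw [hG, irredScale_coeff_zero]
    simpa using hc
  have h4 := Polynomial.natTrailingDegree_le_natDegree H
  have h5 : G.natDegree = 0 := by omega
  apply hg
  have h6 := Polynomial.eq_C_of_natDegree_eq_zero h5
  rw [hG, irredScale_coeff_zero] at h6
  have h7 := irredScale_eval_one g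
  rw [h6, Polynomial.eval_C] at h7
  rw [← h7]
  exact (IsUnit.mk0 _ hc).map C

/-- TASK C2 (smooth forms in at least three variables are irreducible). -/
theorem dens_irreducible {n d : ℕ} (hn : 2 ≤ n) (hd : 1 ≤ d) {k : Type} [Field k]
    {f : MvPolynomial (Fin (n + 1)) k} (hf : f.IsHomogeneous d) {K : ℕ}
    (h : ∀ i, (X i : MvPolynomial (Fin (n + 1)) k) ^ K ∈
      Ideal.span (insert f (Set.range fun l => pderiv l f))) : Irreducible f := by
  have hf0 : f ≠ 0 := by
    rintro rfl
    have h0 := h 0
    have h1 : Ideal.span (insert (0 : MvPolynomial (Fin (n + 1)) k)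
        (Set.range fun l => pderiv l (0 : MvPolynomial (Fin (n + 1)) k))) = ⊥ := by
      rw [Ideal.span_eq_bot]
      rintro x (rfl | ⟨l, rfl⟩)
      · rfl
      · exact map_zero _
    rw [h1, Ideal.mem_bot] at h0
    exact pow_ne_zero K (X_ne_zero (R := k) (0 : Fin (n + 1))) h0
  refine ⟨?_, ?_⟩
  · intro hu
    have h1 := hf.totalDegree hf0
    obtain ⟨g, hg⟩ := hu.exists_right_inv
    have hg0 : g ≠ 0 := by rintro rfl; simp at hg
    have h2 := totalDegree_mul_of_isDomain hf0 hg0
    rw [hg, totalDegree_one] at h2
    omega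
  · intro g h' hgh
    by_contra hcon
    push Not at hcon
    obtain ⟨hg, hh⟩ := hcon
    have cg := irred_factor hf hf0 hgh hg
    have ch := irred_factor hf hf0 (hgh.trans (mul_comm _ _)) hh
    set m := RingHom.ker (irredKill n k (n + 1)) with hm
    have pm : m.IsPrime := RingHom.ker_isPrime _
    have hI : Ideal.span (insert f (Set.range fun l => pderiv l f)) ≤ Ideal.span {g, h'} := by
      rw [Ideal.span_le]
      have hgI : g ∈ Ideal.span {g, h'} := Ideal.subset_span (by simp)
      have hhI : h' ∈ Ideal.span {g, h'} := Ideal.subset_span (by simp)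
      rintro x (rfl | ⟨l, rfl⟩)
      · rw [hgh]
        exact Ideal.mul_mem_right _ _ hgI
      · simp only
        rw [hgh, Derivation.leibniz, smul_eq_mul, smul_eq_mul]
        exact Ideal.add_mem _ (Ideal.mul_mem_right _ _ hgI) (Ideal.mul_mem_right _ _ hhI)
    have hkill : ∀ p : MvPolynomial (Fin (n + 1)) k, irredKill n k (n + 1) p = C (constantCoeff p) := by
      intro p
      induction p using MvPolynomial.induction_on with
      | C a => rw [irredKill, aeval_C]; simp
      | add p q hp hq => rw [map_add, hp, hq, map_add, map_add]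
      | mul_X p i hp =>
        rw [map_mul, irredKill_X, if_pos i.2, mul_zero]
        simp
    have hgm : Ideal.span {g, h'} ≤ m := by
      rw [Ideal.span_le]
      rintro x (rfl | rfl)
      · change x ∈ m
        rw [hm, RingHom.mem_ker, hkill, cg, map_zero]
      · change x ∈ m
        rw [hm, RingHom.mem_ker, hkill, ch, map_zero]
    have hmin : m ∈ (Ideal.span {g, h'}).minimalPrimes := by
      refine ⟨⟨pm, hgm⟩, ?_⟩
      rintro P ⟨hP, hIP⟩ hPm p hp
      have hX : ∀ i, (X i : MvPolynomial (Fin (n + 1)) k) ∈ P := fun i =>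
        hP.mem_of_pow_mem K (hIP (hI (h i)))
      have hcomp : (Ideal.Quotient.mkₐ k P).comp (irredKill n k (n + 1)) =
          Ideal.Quotient.mkₐ k P := by
        refine MvPolynomial.algHom_ext fun j => ?_
        rw [AlgHom.comp_apply, irredKill_X, if_pos j.2, map_zero]
        exact (Ideal.Quotient.eq_zero_iff_mem.mpr (hX j)).symm
      have h1 : Ideal.Quotient.mkₐ k P p = 0 := by
        rw [← hcomp, AlgHom.comp_apply]
        rw [hm, RingHom.mem_ker] at hp
        rw [hp, map_zero]
      exact Ideal.Quotient.eq_zero_iff_mem.mp h1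
    have h3 := Ideal.height_le_card_of_mem_minimalPrimes_span (Set.toFinite {g, h'}) hmin
    have h4 : (({g, h'} : Set (MvPolynomial (Fin (n + 1)) k)).ncard : ℕ∞) ≤ 2 := by
      exact_mod_cast (Set.ncard_insert_le g {h'}).trans (by simp)
    have h5 := irred_height (n := n) (k := k) (n + 1) le_rfl
    have h6 : ((n + 1 : ℕ) : ℕ∞) ≤ 2 := h5.trans (h3.trans h4)
    have h7 : n + 1 ≤ 2 := by exact_mod_cast h6
    omega

end Pool.Agent.Lib.MP_6a3dac_ag
end

section

/-!
# Depth and domains
-/

set_option autoImplicit false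

namespace Pool.Agent.Lib.MP_6a3dac_ag.Sys

open IsLocalRing RingTheory.Sequence

/-- There is a regular sequence of length `t` on `M` in the maximal ideal. -/
def DepthGE (R : Type) [CommRing R] [IsLocalRing R] (M : Type) [AddCommGroup M] [Module R M]
    (t : ℕ) : Prop :=
  ∃ rs : List R, rs.length = t ∧ (∀ r ∈ rs, r ∈ maximalIdeal R) ∧ IsRegular M rs

section t14

open CategoryTheory Abelian Limits

/-- Vanishing of `Ext` passes to the quotient by a regular element, with a shift. -/
theorem t14_ext {R : Type} [CommRing R] (M N : ModuleCat.{0} R) {x : R}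
    (hx : IsSMulRegular M x) (i : ℕ) (h1 : Subsingleton (Ext N M i))
    (h2 : Subsingleton (Ext N M (i + 1))) :
    Subsingleton (Ext N (ModuleCat.of R (QuotSMulTop x M)) i) := by
  have zero1 := AddCommGrpCat.isZero_of_iff_subsingleton.mpr h1
  have zero2 := AddCommGrpCat.isZero_of_iff_subsingleton.mpr h2
  exact AddCommGrpCat.subsingleton_of_isZero <| ShortComplex.Exact.isZero_of_both_zeros
    ((Ext.covariant_sequence_exact₃' N hx.smulShortComplex_shortExact) i (i + 1) rfl)
    (zero1.eq_zero_of_src _) (zero2.eq_zero_of_tgt _)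

/-- Nakayama: the maximal ideal times a nontrivial finite module is a proper submodule. -/
theorem t14_lt {R : Type} [CommRing R] [IsLocalRing R] (N : Type) [AddCommGroup N] [Module R N]
    [Module.Finite R N] [Nontrivial N] : maximalIdeal R • (⊤ : Submodule R N) < ⊤ := by
  refine lt_top_iff_ne_top.mpr fun he => ?_
  have h1 : (⊤ : Submodule R N) = ⊥ := by
    refine Submodule.eq_bot_of_le_smul_of_le_jacobson_bot (maximalIdeal R) ⊤
      Module.Finite.fg_top he.ge ?_
    exact IsLocalRing.maximalIdeal_le_jacobson _
  exact absurd h1 top_ne_bot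

/-- The Rees criterion in the form used here. -/
theorem t14_iff {R : Type} [CommRing R] [IsLocalRing R] [IsNoetherianRing R] (N : Type)
    [AddCommGroup N] [Module R N] [Module.Finite R N] [Nontrivial N] (t : ℕ) :
    DepthGE R N t ↔ ∀ i < t, Subsingleton
      (Ext (ModuleCat.of R (Shrink.{0} (R ⧸ maximalIdeal R))) (ModuleCat.of R N) i) :=
  (ModuleCat.exists_isRegular_tfae (maximalIdeal R) t (ModuleCat.of R N) (t14_lt N)).out 3 1

end t14

section

variable {R : Type} [CommRing R] [IsLocalRing R] [IsNoetherianRing R] {M : Type}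
  [AddCommGroup M] [Module R M] [Module.Finite R M]

/-- The depth drops by at most one modulo a regular element. -/
theorem depthGE_quotSMulTop {t : ℕ} (h : DepthGE R M (t + 1)) {x : R} (hx : x ∈ maximalIdeal R)
    (hxM : IsSMulRegular M x) : DepthGE R (QuotSMulTop x M) t := by
  have hM : Nontrivial M := by
    obtain ⟨rs, _, _, hreg⟩ := h
    exact hreg.nontrivial
  have hQ : Nontrivial (QuotSMulTop x M) := nontrivial_quotSMulTop_of_mem_maximalIdeal M hx
  have h2 := (t14_iff M (t + 1)).mp h
  refine (t14_iff (QuotSMulTop x M) t).mpr fun i hi => ?_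
  exact t14_ext (ModuleCat.of R M) _ hxM i (h2 i (by omega)) (h2 (i + 1) (by omega))

end

section

open scoped Pointwise

theorem t15_quot {R : Type} [CommRing R] {p q : Ideal R} [hp : p.IsPrime]
    (hpq : p ≤ q) {x : R} (hx : x ∈ q) (hxp : x ∉ p) :
    ringKrullDim (R ⧸ q) + 1 ≤ ringKrullDim (R ⧸ p) := by
  have hne : Ideal.Quotient.mk p x ≠ 0 := by
    intro h
    exact hxp (Ideal.Quotient.eq_zero_iff_mem.mp h)
  have h1 := ringKrullDim_quotient_succ_le_of_nonZeroDivisor
    (mem_nonZeroDivisors_of_ne_zero hne)
  refine le_trans ?_ h1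
  gcongr
  refine ringKrullDim_le_of_surjective
    (Ideal.Quotient.lift (Ideal.span {Ideal.Quotient.mk p x}) (Ideal.Quotient.factor hpq) ?_) ?_
  · intro a ha
    obtain ⟨b, rfl⟩ := Ideal.mem_span_singleton'.mp ha
    rw [map_mul]
    have : Ideal.Quotient.factor hpq (Ideal.Quotient.mk p x) = 0 := by
      rw [Ideal.Quotient.factor_mk]
      exact Ideal.Quotient.eq_zero_iff_mem.mpr hx
    rw [this, mul_zero]
  · exact Ideal.Quotient.lift_surjective_of_surjective _ _ (Ideal.Quotient.factor_surjective hpq)

theorem t15_aux {R : Type} [CommRing R] [IsLocalRing R] [IsNoetherianRing R] (t : ℕ) :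
    ∀ (M : Type) [AddCommGroup M] [Module R M] [Module.Finite R M], DepthGE R M t →
      ∀ p ∈ associatedPrimes R M, (t : WithBot ℕ∞) ≤ ringKrullDim (R ⧸ p) := by
  induction t with
  | zero =>
    intro M _ _ _ _ p hp
    have : p.IsPrime := IsAssociatedPrime.isPrime hp
    simpa using ringKrullDim_nonneg_of_nontrivial
  | succ t ih =>
    intro M _ _ _ h p hp
    have : p.IsPrime := IsAssociatedPrime.isPrime hp
    obtain ⟨rs, hlen, hmem, hreg⟩ := h
    cases rs with
    | nil => simp at hlen
    | cons x rs =>
      have hx : x ∈ maximalIdeal R := hmem x (by simp)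
      obtain ⟨hxM, hrs⟩ := (isRegular_cons_iff M x rs).mp hreg
      have hdepth : DepthGE R (QuotSMulTop x M) t :=
        ⟨rs, by simpa using hlen, fun r hr => hmem r (by simp [hr]), hrs⟩
      obtain ⟨hprime, v0, hv0⟩ := isAssociatedPrime_iff.mp hp
      have hv0p : ∀ a : R, a ∈ p ↔ a • v0 = 0 := by
        intro a
        rw [hv0, Submodule.mem_colon_singleton, Submodule.mem_bot]
      have hv0ne : v0 ≠ 0 := by
        rintro rfl
        apply hprime.ne_top
        rw [Ideal.eq_top_iff_one, hv0p]
        simp
      have hxp : x ∉ p := by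
        intro hxp
        apply hv0ne
        apply hxM
        simp only [smul_zero]
        exact (hv0p x).mp hxp
      obtain ⟨v, hvp, hvx⟩ : ∃ v : M, (∀ a ∈ p, a • v = 0) ∧
          v ∉ (x • ⊤ : Submodule R M) := by
        by_contra hcon
        push Not at hcon
        let N : Submodule R M := Submodule.torsionBySet R M (p : Set R)
        have hN : ∀ v, v ∈ N ↔ ∀ a ∈ p, a • v = 0 := by
          intro v
          rw [Submodule.mem_torsionBySet_iff]
          exact ⟨fun h a ha => h ⟨a, ha⟩, fun h a => h a.1 a.2⟩
        have hle : N ≤ (maximalIdeal R) • N := by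
          intro v hv
          have h1 := hcon v ((hN v).mp hv)
          obtain ⟨w, -, hw⟩ := (Submodule.mem_smul_pointwise_iff_exists v x ⊤).mp h1
          have hwN : w ∈ N := by
            rw [hN]
            intro a ha
            apply hxM
            simp only [smul_zero]
            rw [smul_comm, hw]
            exact (hN v).mp hv a ha
          rw [← hw]
          exact Submodule.smul_mem_smul hx hwN
        have hbot : N = ⊥ := Submodule.eq_bot_of_le_smul_of_le_jacobson_bot (maximalIdeal R) N
          (IsNoetherian.noetherian N) hle (IsLocalRing.maximalIdeal_le_jacobson _)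
        apply hv0ne
        have : v0 ∈ N := (hN v0).mpr fun a ha => (hv0p a).mp ha
        rw [hbot] at this
        exact this
      have hvne : (Submodule.Quotient.mk v : QuotSMulTop x M) ≠ 0 := by
        intro h0
        exact hvx ((Submodule.Quotient.mk_eq_zero _).mp h0)
      obtain ⟨q, hq, hqc⟩ := exists_le_isAssociatedPrime_of_isNoetherianRing R
        (Submodule.Quotient.mk v : QuotSMulTop x M) hvne
      have : q.IsPrime := hq.isPrime
      have hpq : p ≤ q := by
        intro a ha
        apply hqc
        rw [Submodule.mem_colon_singleton, Submodule.mem_bot, ← Submodule.Quotient.mk_smul,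
          hvp a ha, Submodule.Quotient.mk_zero]
      have hxq : x ∈ q := by
        apply hqc
        rw [Submodule.mem_colon_singleton, Submodule.mem_bot, ← Submodule.Quotient.mk_smul,
          Submodule.Quotient.mk_eq_zero]
        exact Submodule.smul_mem_pointwise_smul v x ⊤ trivial
      have h1 := ih (QuotSMulTop x M) hdepth q hq
      have h2 := t15_quot hpq hxq hxp
      refine le_trans ?_ h2
      push_cast
      gcongr

end

section

variable {R : Type} [CommRing R] [IsLocalRing R] [IsNoetherianRing R] {M : Type}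
  [AddCommGroup M] [Module R M] [Module.Finite R M]

/-- The depth is at most the dimension of the quotient by any associated prime. -/
theorem depthGE_le_ringKrullDim {t : ℕ} (h : DepthGE R M t) {p : Ideal R}
    (hp : p ∈ associatedPrimes R M) : (t : WithBot ℕ∞) ≤ ringKrullDim (R ⧸ p) :=
  t15_aux t M h p hp

end

section

open scoped Pointwise

theorem t16_krull {R : Type} [CommRing R] [IsLocalRing R] [IsNoetherianRing R] {p J : Ideal R}
    (hp : p.IsPrime) (gs : List R) (hgs : ∀ g ∈ gs, g ∈ maximalIdeal R)
    (hJ : J ≤ p ⊔ Ideal.ofList gs) :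
    ringKrullDim (R ⧸ p) ≤ ringKrullDim (R ⧸ J) + gs.length := by
  classical
  have : Nontrivial (R ⧸ p) := Ideal.Quotient.nontrivial_iff.mpr hp.ne_top
  have : IsLocalRing (R ⧸ p) :=
    IsLocalRing.of_surjective' (Ideal.Quotient.mk p) Ideal.Quotient.mk_surjective
  have h1 := ringKrullDim_le_ringKrullDim_quotient_add_card (R := R ⧸ p)
    (gs.map (Ideal.Quotient.mk p)).toFinset (by
      intro a ha
      rw [Finset.mem_coe, List.mem_toFinset, List.mem_map] at ha
      obtain ⟨g, hg, rfl⟩ := ha
      rw [SetLike.mem_coe, IsLocalRing.ringJacobson_eq_maximalIdeal, mem_maximalIdeal]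
      intro hu
      obtain ⟨b, hb⟩ := hu.exists_right_inv
      obtain ⟨c, rfl⟩ := Ideal.Quotient.mk_surjective b
      rw [← map_mul, ← map_one (Ideal.Quotient.mk p), Ideal.Quotient.eq] at hb
      have h2 : g * c - 1 ∈ maximalIdeal R := le_maximalIdeal hp.ne_top hb
      have h3 : g * c ∈ maximalIdeal R := Ideal.mul_mem_right _ _ (hgs g hg)
      have h4 : (1 : R) ∈ maximalIdeal R := by
        have := Ideal.sub_mem _ h3 h2
        rwa [sub_sub_cancel] at this
      exact (Ideal.ne_top_iff_one _).mp (maximalIdeal.isMaximal R).ne_top h4)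
  refine h1.trans ?_
  have h2 : ringKrullDim ((R ⧸ p) ⧸ Ideal.span
      ((gs.map (Ideal.Quotient.mk p)).toFinset : Set (R ⧸ p))) ≤ ringKrullDim (R ⧸ J) := by
    refine ringKrullDim_le_of_surjective (Ideal.Quotient.lift J
      ((Ideal.Quotient.mk (Ideal.span ((gs.map (Ideal.Quotient.mk p)).toFinset :
        Set (R ⧸ p)))).comp (Ideal.Quotient.mk p)) ?_) ?_
    · intro a ha
      have h3 : p ⊔ Ideal.ofList gs ≤ RingHom.ker ((Ideal.Quotient.mk (Ideal.span
          ((gs.map (Ideal.Quotient.mk p)).toFinset : Set (R ⧸ p)))).comp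
          (Ideal.Quotient.mk p)) := by
        refine sup_le ?_ ?_
        · intro b hb
          rw [RingHom.mem_ker, RingHom.comp_apply, Ideal.Quotient.eq_zero_iff_mem.mpr hb,
            map_zero]
        · rw [Ideal.span_le]
          intro b hb
          rw [SetLike.mem_coe, RingHom.mem_ker, RingHom.comp_apply,
            Ideal.Quotient.eq_zero_iff_mem]
          apply Ideal.subset_span
          rw [Finset.mem_coe, List.mem_toFinset, List.mem_map]
          exact ⟨b, hb, rfl⟩
      exact h3 (hJ ha)
    · exact Ideal.Quotient.lift_surjective_of_surjective _ _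
        (Ideal.Quotient.mk_surjective.comp Ideal.Quotient.mk_surjective)
  have h3 : (gs.map (Ideal.Quotient.mk p)).toFinset.card ≤ gs.length :=
    (List.toFinset_card_le _).trans (by simp)
  gcongr

theorem t16_cancel (a : WithBot ℕ∞) (n : ℕ) (h : a + 1 ≤ (n : WithBot ℕ∞) + 1) :
    a ≤ (n : WithBot ℕ∞) := by
  induction a using WithBot.recBotCoe with
  | bot => exact bot_le
  | coe b =>
    have h1 : b + 1 ≤ (n : ℕ∞) + 1 := by exact_mod_cast h
    have h2 : b ≤ (n : ℕ∞) := by
      induction b using ENat.recTopCoe with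
      | top =>
        rw [top_add, top_le_iff] at h1
        exact absurd h1 (by exact_mod_cast ENat.natCast_ne_top (n + 1))
      | coe m =>
        have h3 : m + 1 ≤ n + 1 := by exact_mod_cast h1
        exact_mod_cast Nat.le_of_succ_le_succ h3
    exact_mod_cast h2

theorem t16_congr {R : Type} [CommRing R] [IsLocalRing R] {M M' : Type} [AddCommGroup M]
    [Module R M] [AddCommGroup M'] [Module R M'] (e : M ≃ₗ[R] M') {t : ℕ}
    (h : DepthGE R M t) : DepthGE R M' t := by
  obtain ⟨rs, h1, h2, h3⟩ := h
  exact ⟨rs, h1, h2, (e.isRegular_congr rs).mp h3⟩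

theorem t16_aux {R : Type} [CommRing R] [IsLocalRing R] [IsNoetherianRing R] (fs : List R) :
    ∀ (M : Type) [AddCommGroup M] [Module R M] [Module.Finite R M] (I : Ideal R) (N : ℕ),
      DepthGE R M N → I ≤ Module.annihilator R M → (∀ f ∈ fs, f ∈ maximalIdeal R) →
      ringKrullDim (R ⧸ (I ⊔ Ideal.ofList fs)) + fs.length ≤ N →
      DepthGE R (M ⧸ (Ideal.ofList fs • ⊤ : Submodule R M)) (N - fs.length) := by
  induction fs with
  | nil =>
    intro M _ _ _ I N h _ _ _
    refine t16_congr (Submodule.quotEquivOfEqBot _ ?_).symm h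
    rw [Ideal.ofList_nil, Submodule.bot_smul]
  | cons f gs ih =>
    intro M _ _ _ I N h hI hmem hdim
    have hf : f ∈ maximalIdeal R := hmem f (by simp)
    have hgs : ∀ g ∈ gs, g ∈ maximalIdeal R := fun g hg => hmem g (by simp [hg])
    have hMnt : Nontrivial M := by
      obtain ⟨rs, _, _, hreg⟩ := h
      exact IsRegular.nontrivial hreg
    have hI1 : I ≠ ⊤ := by
      intro h1
      rw [h1, top_le_iff] at hI
      have h2 : (1 : R) ∈ Module.annihilator R M := by rw [hI]; trivial
      obtain ⟨m, hm⟩ := exists_ne (0 : M)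
      apply hm
      have := Module.mem_annihilator.mp h2 m
      simpa using this
    -- the dimension is nonnegative
    have hlt : I ⊔ Ideal.ofList (f :: gs) ≤ maximalIdeal R := by
      refine sup_le (le_maximalIdeal hI1) ?_
      rw [Ideal.span_le]
      intro a ha
      exact hmem a ha
    have hnt : Nontrivial (R ⧸ (I ⊔ Ideal.ofList (f :: gs))) :=
      Ideal.Quotient.nontrivial_iff.mpr
        (ne_top_of_le_ne_top (maximalIdeal.isMaximal R).ne_top hlt)
    have h0 : (0 : WithBot ℕ∞) ≤ ringKrullDim (R ⧸ (I ⊔ Ideal.ofList (f :: gs))) :=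
      ringKrullDim_nonneg_of_nontrivial
    have hN : gs.length + 1 ≤ N := by
      have h1 : (((f :: gs).length : ℕ) : WithBot ℕ∞) ≤ N := by
        refine le_trans ?_ hdim
        nth_rewrite 1 [← zero_add (((f :: gs).length : ℕ) : WithBot ℕ∞)]
        gcongr
      have h2 : (f :: gs).length ≤ N := by exact_mod_cast h1
      simpa using h2
    obtain ⟨N', rfl⟩ : ∃ N', N = N' + 1 := ⟨N - 1, by omega⟩
    -- `f` is regular on `M`
    have hreg : IsSMulRegular M f := by
      by_contra hnreg
      have h1 : f ∈ ({ r : R | IsSMulRegular M r }ᶜ : Set R) := hnreg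
      rw [← biUnion_associatedPrimes_eq_compl_regular R] at h1
      obtain ⟨p, hp, hfp⟩ := Set.mem_iUnion₂.mp h1
      have h2 := depthGE_le_ringKrullDim h hp
      have h3 := t16_krull (p := p) (J := I ⊔ Ideal.ofList (f :: gs))
        (IsAssociatedPrime.isPrime hp) gs hgs (by
          refine sup_le ?_ ?_
          · refine le_trans ?_ le_sup_left
            refine hI.trans ?_
            have := IsAssociatedPrime.annihilator_le hp
            rwa [Submodule.annihilator_top] at this
          · rw [Ideal.ofList_cons]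
            refine sup_le_sup_right ?_ _
            rw [Ideal.span_singleton_le_iff_mem]
            exact hfp)
      have h4 : ((N' + 1 : ℕ) : WithBot ℕ∞) + 1 ≤ ((N' + 1 : ℕ) : WithBot ℕ∞) := by
        calc ((N' + 1 : ℕ) : WithBot ℕ∞) + 1 ≤
            ringKrullDim (R ⧸ (I ⊔ Ideal.ofList (f :: gs))) + gs.length + 1 := by
              gcongr
              exact h2.trans h3
          _ = ringKrullDim (R ⧸ (I ⊔ Ideal.ofList (f :: gs))) + (f :: gs).length := by
              rw [List.length_cons]
              push_cast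
              rw [add_assoc]
          _ ≤ _ := hdim
      have h5 : N' + 1 + 1 ≤ N' + 1 := by exact_mod_cast h4
      omega
    have h1 := depthGE_quotSMulTop h hf hreg
    have h2 := ih (QuotSMulTop f M) (I ⊔ Ideal.span {f}) N' h1 (by
      refine sup_le ?_ ?_
      · refine hI.trans ?_
        intro a ha
        rw [Module.mem_annihilator] at ha ⊢
        intro m
        obtain ⟨m, rfl⟩ := Submodule.Quotient.mk_surjective _ m
        rw [← Submodule.Quotient.mk_smul, ha m, Submodule.Quotient.mk_zero]
      · rw [Ideal.span_singleton_le_iff_mem, Module.mem_annihilator]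
        intro m
        obtain ⟨m, rfl⟩ := Submodule.Quotient.mk_surjective _ m
        rw [← Submodule.Quotient.mk_smul, Submodule.Quotient.mk_eq_zero]
        exact Submodule.smul_mem_pointwise_smul m f ⊤ trivial) hgs (by
      have e : I ⊔ Ideal.span {f} ⊔ Ideal.ofList gs = I ⊔ Ideal.ofList (f :: gs) := by
        rw [Ideal.ofList_cons, sup_assoc]
      rw [e]
      have h3 : ringKrullDim (R ⧸ (I ⊔ Ideal.ofList (f :: gs))) + gs.length + 1 ≤
          ((N' : ℕ) : WithBot ℕ∞) + 1 := by
        rw [List.length_cons] at hdim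
        push_cast at hdim
        rw [add_assoc]
        exact hdim
      exact t16_cancel _ _ h3)
    refine t16_congr (Submodule.quotOfListConsSMulTopEquivQuotSMulTopInner M f gs).symm ?_
    have e : N' + 1 - (f :: gs).length = N' - gs.length := by
      rw [List.length_cons]; omega
    rw [e]
    exact h2

/-- Systems of parameters. -/
theorem depthGE_quotient {R : Type} [CommRing R] [IsLocalRing R] [IsNoetherianRing R]
    {N : ℕ} (h : DepthGE R R N) (fs : List R)
    (hfs : ∀ f ∈ fs, f ∈ maximalIdeal R)
    (hdim : ringKrullDim (R ⧸ Ideal.ofList fs) + fs.length ≤ N) :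
    DepthGE R (R ⧸ Ideal.ofList fs) (N - fs.length) := by
  have h1 := t16_aux fs R ⊥ N h bot_le hfs (by rw [bot_sup_eq]; exact hdim)
  have e : (Ideal.ofList fs • ⊤ : Submodule R R) = Ideal.ofList fs := by
    rw [Ideal.smul_eq_mul, Ideal.mul_top]
  exact t16_congr (Submodule.quotEquivOfEq _ _ e) h1

end

theorem t17_pow_dvd {R : Type} [CommRing R] {x y : R} (hx : IsSMulRegular R x)
    (hy : ∀ r : R, x ∣ y * r → x ∣ r) (M N : ℕ) :
    ∀ r : R, x ^ N ∣ y ^ M * r → x ^ N ∣ r := by
  have h1 : ∀ (M : ℕ) (r : R), x ∣ y ^ M * r → x ∣ r := by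
    intro M
    induction M with
    | zero => intro r h; simpa using h
    | succ M ih =>
      intro r h
      apply ih
      apply hy
      rwa [← mul_assoc, ← pow_succ']
  induction N with
  | zero => intro r _; simp
  | succ N ih =>
    rintro r ⟨s, hs⟩
    obtain ⟨r', rfl⟩ := h1 M r ⟨x ^ N * s, by rw [hs]; ring⟩
    have h2 : y ^ M * r' = x ^ N * s := by
      apply hx
      show x • (y ^ M * r') = x • (x ^ N * s)
      simp only [smul_eq_mul]
      calc x * (y ^ M * r') = y ^ M * (x * r') := by ring
        _ = x ^ (N + 1) * s := hs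
        _ = x * (x ^ N * s) := by ring
    obtain ⟨q, hq⟩ := ih r' ⟨s, h2⟩
    exact ⟨q, by rw [hq]; ring⟩

section

variable {R : Type} [CommRing R] [IsLocalRing R] [IsNoetherianRing R] {M : Type}
  [AddCommGroup M] [Module R M] [Module.Finite R M]

/-- A local ring of depth at least two is a domain if its localizations at the other primes are
domains. -/
theorem isDomain_of_depthGE (h : DepthGE R R 2)
    (hdom : ∀ (p : Ideal R) [p.IsPrime], p ≠ maximalIdeal R →
      IsDomain (Localization.AtPrime p)) : IsDomain R := by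
  obtain ⟨rs, hlen, hmem, hreg⟩ := h
  obtain ⟨x, y, rfl⟩ := List.length_eq_two.1 hlen
  have hxm : x ∈ maximalIdeal R := hmem x (by simp)
  have hym : y ∈ maximalIdeal R := hmem y (by simp)
  have hw := hreg.toIsWeaklyRegular
  rw [isWeaklyRegular_cons_iff, isWeaklyRegular_cons_iff] at hw
  obtain ⟨hx, hy, -⟩ := hw
  have hy' : ∀ r : R, x ∣ y * r → x ∣ r := by
    intro r hr
    obtain ⟨s, hs⟩ := hr
    have h1 : (Submodule.Quotient.mk r : QuotSMulTop x R) = 0 := by
      apply hy
      show y • (Submodule.Quotient.mk r : QuotSMulTop x R) = y • 0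
      rw [smul_zero, ← Submodule.Quotient.mk_smul, Submodule.Quotient.mk_eq_zero]
      rw [smul_eq_mul, hs]
      exact Submodule.smul_mem_pointwise_smul s x ⊤ trivial
    rw [Submodule.Quotient.mk_eq_zero] at h1
    obtain ⟨q, -, hq⟩ := h1
    exact ⟨q, hq.symm⟩
  have hreg' : ∀ (N : ℕ) (r : R), x ^ N * r = 0 → r = 0 := by
    intro N r hr
    have h1 := hx.pow N
    apply h1
    show x ^ N • r = x ^ N • 0
    rw [smul_zero, smul_eq_mul, hr]
  have : NoZeroDivisors R := by
    constructor
    intro a b hab
    by_contra hne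
    push Not at hne
    obtain ⟨ha, hb⟩ := hne
    -- the annihilator ideals
    let I : Ideal R := Ideal.span {a} |>.annihilator
    have hI : ∀ i, i ∈ I ↔ i * a = 0 := by
      intro i
      show i ∈ (Ideal.span {a}).annihilator ↔ _
      rw [Submodule.mem_annihilator_span_singleton, smul_eq_mul]
    let J : Ideal R := I.annihilator
    have hJ : ∀ j, j ∈ J ↔ ∀ i ∈ I, j * i = 0 := by
      intro j
      show j ∈ I.annihilator ↔ _
      rw [Submodule.mem_annihilator]
      rfl
    have hrad : ∀ z ∈ maximalIdeal R, ∃ N : ℕ, ∃ i ∈ I, ∃ j ∈ J, i + j = z ^ N := by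
      intro z hz
      have h1 : z ∈ (I ⊔ J).radical := by
        rw [Ideal.radical_eq_sInf, Submodule.mem_sInf]
        intro p' hp'
        obtain ⟨p, rfl⟩ : ∃ p : Ideal R, p = p' := ⟨p', rfl⟩
        obtain ⟨hp, hpp⟩ := hp'
        by_cases hpm : p = maximalIdeal R
        · rw [hpm]; exact hz
        exfalso
        have hd := hdom p hpm
        by_cases ha0 : algebraMap R (Localization.AtPrime p) a = 0
        · rw [IsLocalization.map_eq_zero_iff p.primeCompl] at ha0
          obtain ⟨s, hs⟩ := ha0
          exact s.2 (hp (Submodule.mem_sup_left ((hI s).2 hs)))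
        · have h2 : ∀ i ∈ I, ∃ s ∈ p.primeCompl, s * i = 0 := by
            intro i hi
            have h3 : algebraMap R (Localization.AtPrime p) i = 0 := by
              have h4 : algebraMap R (Localization.AtPrime p) i *
                  algebraMap R (Localization.AtPrime p) a = 0 := by
                rw [← map_mul, (hI i).1 hi, map_zero]
              exact (mul_eq_zero.1 h4).resolve_right ha0
            rw [IsLocalization.map_eq_zero_iff p.primeCompl] at h3
            obtain ⟨s, hs⟩ := h3
            exact ⟨s, s.2, hs⟩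
          obtain ⟨S, hS⟩ := (isNoetherianRing_iff_ideal_fg R).1 inferInstance I
          have h5 : ∃ s ∈ p.primeCompl, ∀ i ∈ S, s * i = 0 := by
            have hS' : ∀ i ∈ S, i ∈ I := fun i hi => hS ▸ Submodule.subset_span hi
            clear hS
            classical
            induction S using Finset.induction_on with
            | empty => exact ⟨1, Submonoid.one_mem _, by simp⟩
            | insert i S hiS ih =>
              obtain ⟨s, hs, hsS⟩ := ih (fun i' hi' => hS' i' (Finset.mem_insert_of_mem hi'))
              obtain ⟨t, ht, hti⟩ := h2 i (hS' i (Finset.mem_insert_self _ _))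
              refine ⟨s * t, Submonoid.mul_mem _ hs ht, ?_⟩
              intro i' hi'
              rcases Finset.mem_insert.1 hi' with rfl | hi'
              · rw [mul_assoc, hti, mul_zero]
              · rw [mul_comm s t, mul_assoc, hsS i' hi', mul_zero]
          obtain ⟨s, hs, hsS⟩ := h5
          refine hs (hp (Submodule.mem_sup_right ((hJ s).2 ?_)))
          intro i hi
          rw [← hS] at hi
          refine Submodule.span_induction (p := fun i _ => s * i = 0) (fun i hi => hsS i hi)
            (mul_zero _) (fun u v _ _ hu hv => by rw [mul_add, hu, hv, add_zero])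
            (fun r u _ hu => by rw [smul_eq_mul, mul_left_comm, hu, mul_zero]) hi
      obtain ⟨N, hN⟩ := h1
      obtain ⟨i, hi, j, hj, hij⟩ := Submodule.mem_sup.1 hN
      exact ⟨N, i, hi, j, hj, hij⟩
    obtain ⟨N, i, hi, j, hj, hij⟩ := hrad x hxm
    obtain ⟨M, i', hi', j', hj', hij'⟩ := hrad y hym
    have h1 : y ^ M * i = x ^ N * i' := by
      rw [← hij, ← hij', add_mul, add_mul, (hJ j').1 hj' i hi, (hJ j).1 hj i' hi']
      ring
    obtain ⟨e, he⟩ := t17_pow_dvd hx hy' M N i ⟨i', h1⟩
    have hje : j = x ^ N * (1 - e) := by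
      rw [mul_sub, mul_one, ← he, ← hij]; ring
    have hee : e * (1 - e) = 0 := by
      apply hreg' (N + N)
      have h2 := (hJ j).1 hj i hi
      rw [hje, he] at h2
      rw [pow_add]
      calc x ^ N * x ^ N * (e * (1 - e)) = x ^ N * (1 - e) * (x ^ N * e) := by ring
        _ = 0 := h2
    rcases IsLocalRing.isUnit_or_isUnit_of_add_one (add_sub_cancel e 1) with hu | hu
    · have h3 : 1 - e = 0 := (IsUnit.mul_right_eq_zero hu).1 hee
      have h4 : i = x ^ N := by
        rw [he]
        have : e = 1 := (sub_eq_zero.1 h3).symm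
        rw [this, mul_one]
      rw [h4] at hi
      exact ha (hreg' N a ((hI _).1 hi))
    · have h3 : e = 0 := (IsUnit.mul_left_eq_zero hu).1 hee
      rw [h3, sub_zero, mul_one] at hje
      rw [hje] at hj
      exact hb (hreg' N b ((hJ _).1 hj b ((hI b).2 (by rw [mul_comm]; exact hab))))
  exact NoZeroDivisors.to_isDomain R

end

end Pool.Agent.Lib.MP_6a3dac_ag.Sys
end
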