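import Pool.Agent.Lib.MP_6a3dac_ag.QWTensor
import Pool.Agent.Lib.MP_6a3dac_ag.QWWeilInv
import Pool.Agent.Lib.MP_6a3dac_ag.Mg.G003
import Pool.Agent.Lib.MP_6a3dac_ag.Mg.G072

section

/-!
# The chart ring around the diagonal
-/

set_option autoImplicit false
set_option linter.unusedSectionVars false
set_option linter.unusedVariables false

namespace Pool.Agent.Lib.MP_6a3dac_ag

open TensorProduct

section Regular

/-- The quotient of a smooth algebra by a maximal ideal of the base is regular. -/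
theorem isRegularRing_quotient_of_smooth {A X : Type} [CommRing A] [CommRing X] [Algebra A X]
    [Algebra.Smooth A X] (a : A) (ha : (Ideal.span {a}).IsMaximal) :
    IsRegularRing (X ⧸ Ideal.span {algebraMap A X a}) := by
  let := Ideal.Quotient.field (Ideal.span {a})
  have h1 : IsRegularRing (A ⧸ Ideal.span {a}) := inferInstance
  have h2 : IsRegularRing ((A ⧸ Ideal.span {a}) ⊗[A] X) :=
    isRegularRing_of_smooth (A ⧸ Ideal.span {a}) _
  have h3 := IsRegularRing.of_ringEquiv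
    (Algebra.TensorProduct.quotIdealMapEquivQuotTensor X (Ideal.span {a})).symm.toRingEquiv
  rw [Ideal.map_span, Set.image_singleton] at h3
  exact h3

/-- Localizations of regular rings are regular. -/
theorem isRegularRing_of_isLocalization {A S : Type} [CommRing A] [IsRegularRing A] [CommRing S]
    [Algebra A S] (M : Submonoid A) [IsLocalization M S] : IsRegularRing S := by
  have hN : IsNoetherianRing S := IsLocalization.isNoetherianRing M S inferInstance
  rw [isRegularRing_iff]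
  intro q hq
  have h2 : IsLocalization.AtPrime (Localization.AtPrime q) (q.comap (algebraMap A S)) :=
    IsLocalization.isLocalization_isLocalization_atPrime_isLocalization M
      (Localization.AtPrime q) q
  exact isRegularLocalRing_of_atPrime (q.comap (algebraMap A S))

end Regular

section Twist

variable {O : Type} [CommRing O]

/-- The ring `B` with the algebra structure twisted by `s`. -/
def Tw {O'' : Type} [CommRing O''] (_ : O →+* O'') (B : Type) : Type := B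

variable {O'' : Type} [CommRing O''] (s : O →+* O'') (B : Type) [CommRing B] [Algebra O'' B]

instance : CommRing (Tw s B) := inferInstanceAs (CommRing B)

noncomputable instance : Algebra O (Tw s B) := ((algebraMap O'' B).comp s).toAlgebra

/-- The identity map to the twist. -/
def toTw : B ≃+* Tw s B := RingEquiv.refl B

theorem algebraMap_tw (c : O) : algebraMap O (Tw s B) c = toTw s B (algebraMap O'' B (s c)) := rfl

end Twist

section Ram

variable {O' B ν : Type} [CommRing O'] [CommRing B] [Algebra O' B] (σ' : O' →+* O')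

/-- The chart ring around the diagonal. -/
abbrev GTw (σ' : O' →+* O') (B : Type) [CommRing B] [Algebra O' B] : Type := B ⊗[O'] (Tw σ' B)

variable {σ'} {ϖ : O'} {r : ℕ} (hΔ : ∀ c, ∃ y, σ' c - c = y * ϖ ^ r)

include hΔ in
/-- The map to the diagonal modulo `ϖ ^ m`. -/
theorem exists_diag {m : ℕ} (hm : m ≤ r) :
    ∃ π : GTw σ' B →+* B ⧸ Ideal.span {algebraMap O' B ϖ ^ m}, ∀ b₁ b₂ : B,
      π (b₁ ⊗ₜ toTw σ' B b₂) = Ideal.Quotient.mk _ (b₁ * b₂) := by
  let q : Tw σ' B →ₐ[O'] B ⧸ Ideal.span {algebraMap O' B ϖ ^ m} :=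
    { (Ideal.Quotient.mk (Ideal.span {algebraMap O' B ϖ ^ m})).comp
        (toTw σ' B).symm.toRingHom with
      commutes' := by
        intro c
        change Ideal.Quotient.mk _ (algebraMap O' B (σ' c)) = Ideal.Quotient.mk _ (algebraMap O' B c)
        rw [Ideal.Quotient.mk_eq_mk_iff_sub_mem, ← map_sub]
        obtain ⟨y, hy⟩ := hΔ c
        rw [hy, map_mul, map_pow, ← Nat.add_sub_cancel' hm, pow_add]
        exact Ideal.mul_mem_left _ _ (Ideal.mul_mem_right _ _ (Ideal.mem_span_singleton_self _)) }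
  have hq : ∀ b, q (toTw σ' B b) = Ideal.Quotient.mk _ b := fun b => rfl
  let π := Algebra.TensorProduct.productMap
    (Ideal.Quotient.mkₐ O' (Ideal.span {algebraMap O' B ϖ ^ m})) q
  refine ⟨π, fun b₁ b₂ => ?_⟩
  change π _ = _
  rw [Algebra.TensorProduct.productMap_apply_tmul, hq, map_mul]
  rfl

variable (ξ : ν → B) (hξ : Algebra.adjoin O' (Set.range ξ) = ⊤)

/-- The equations of the diagonal. -/
noncomputable def diagEq (σ' : O' →+* O') (ξ : ν → B) (k : ν) : GTw σ' B :=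
  1 ⊗ₜ toTw σ' B (ξ k) - ξ k ⊗ₜ 1

include hξ in
theorem exists_sub_mem (hσ' : ∀ c, σ' (σ' c) = c) (t : GTw σ' B) :
    ∃ b : B, t - b ⊗ₜ 1 ∈ Ideal.span (Set.range (diagEq σ' ξ)) := by
  obtain ⟨I, hI⟩ : ∃ I, I = Ideal.span (Set.range (diagEq σ' ξ)) := ⟨_, rfl⟩
  rw [← hI]
  let U : Subring (GTw σ' B) :=
    { carrier := {t | ∃ b : B, t - b ⊗ₜ 1 ∈ I}
      mul_mem' := by
        rintro s t ⟨b, hb⟩ ⟨c, hc⟩
        refine ⟨b * c, ?_⟩
        have h1 : s * t - (b * c) ⊗ₜ 1 = (s - b ⊗ₜ 1) * t + (b ⊗ₜ 1) * (t - c ⊗ₜ 1) := by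
          rw [show ((b * c) ⊗ₜ 1 : GTw σ' B) = (b ⊗ₜ 1) * (c ⊗ₜ 1) by
            rw [Algebra.TensorProduct.tmul_mul_tmul, mul_one]]
          ring
        rw [h1]
        exact I.add_mem (I.mul_mem_right _ hb) (I.mul_mem_left _ hc)
      one_mem' := ⟨1, by
        rw [← Algebra.TensorProduct.one_def, sub_self]
        exact I.zero_mem⟩
      add_mem' := by
        rintro s t ⟨b, hb⟩ ⟨c, hc⟩
        refine ⟨b + c, ?_⟩
        rw [TensorProduct.add_tmul, add_sub_add_comm]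
        exact I.add_mem hb hc
      zero_mem' := ⟨0, by
        rw [TensorProduct.zero_tmul, sub_self]
        exact I.zero_mem⟩
      neg_mem' := by
        rintro s ⟨b, hb⟩
        refine ⟨-b, ?_⟩
        rw [TensorProduct.neg_tmul, sub_neg_eq_add, neg_add_eq_sub, ← neg_sub]
        exact I.neg_mem hb }
  have hU : ∀ t, t ∈ U ↔ ∃ b : B, t - b ⊗ₜ 1 ∈ I := fun _ => Iff.rfl
  have h1 : ∀ b : B, (b ⊗ₜ 1 : GTw σ' B) ∈ U := fun b => ⟨b, by rw [sub_self]; exact I.zero_mem⟩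
  have h2 : ∀ b : B, (1 ⊗ₜ toTw σ' B b : GTw σ' B) ∈ U := by
    intro b
    have hb : b ∈ Algebra.adjoin O' (Set.range ξ) := by rw [hξ]; exact Algebra.mem_top
    have h3 : Algebra.adjoin O' (Set.range ξ) ≤ Algebra.adjoin O' (Set.range ξ) := le_rfl
    -- the image of `O'` under `toTw ∘ algebraMap`
    induction hb using Algebra.adjoin_induction with
    | mem c hc =>
      obtain ⟨k, rfl⟩ := hc
      refine ⟨ξ k, ?_⟩
      rw [hI]
      exact Ideal.subset_span ⟨k, rfl⟩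
    | algebraMap c =>
      have h4 : toTw σ' B (algebraMap O' B c) = algebraMap O' (Tw σ' B) (σ' c) := by
        rw [algebraMap_tw, hσ']
      have h5 : (1 ⊗ₜ algebraMap O' (Tw σ' B) (σ' c) : GTw σ' B) =
          algebraMap O' B (σ' c) ⊗ₜ 1 := by
        rw [Algebra.algebraMap_eq_smul_one, Algebra.algebraMap_eq_smul_one,
          TensorProduct.smul_tmul]
      rw [h4, h5]
      exact h1 _
    | add a b _ _ ha hb =>
      rw [map_add, TensorProduct.tmul_add]
      exact U.add_mem ha hb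
    | mul a b _ _ ha hb =>
      rw [show (1 ⊗ₜ toTw σ' B (a * b) : GTw σ' B) = (1 ⊗ₜ toTw σ' B a) * (1 ⊗ₜ toTw σ' B b) by
        rw [Algebra.TensorProduct.tmul_mul_tmul, mul_one, map_mul]]
      exact U.mul_mem ha hb
  change t ∈ U
  induction t using TensorProduct.induction_on with
  | zero => exact U.zero_mem
  | tmul b₁ b₂ =>
    rw [show (b₁ ⊗ₜ b₂ : GTw σ' B) = (b₁ ⊗ₜ 1) * (1 ⊗ₜ b₂) by
      rw [Algebra.TensorProduct.tmul_mul_tmul, mul_one, one_mul]]
    exact U.mul_mem (h1 b₁) (h2 ((toTw σ' B).symm b₂))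
  | add s t hs ht => exact U.add_mem hs ht

variable (hσ' : ∀ c, σ' (σ' c) = c)

include hΔ hξ hσ' in
/-- The kernel of the map to the diagonal. -/
theorem diag_ker {m : ℕ} (hm : m ≤ r)
    (π : GTw σ' B →+* B ⧸ Ideal.span {algebraMap O' B ϖ ^ m})
    (hπ : ∀ b₁ b₂ : B, π (b₁ ⊗ₜ toTw σ' B b₂) = Ideal.Quotient.mk _ (b₁ * b₂)) :
    RingHom.ker π = Ideal.span (insert (algebraMap O' (GTw σ' B) ϖ ^ m)
      (Set.range (diagEq σ' ξ))) := by
  have hπ1 : ∀ b, π (b ⊗ₜ 1) = Ideal.Quotient.mk _ b := by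
    intro b
    have := hπ b 1
    rwa [map_one, mul_one] at this
  have hπZ : ∀ t ∈ Ideal.span (Set.range (diagEq σ' ξ)), π t = 0 := by
    intro t ht
    have hle : Ideal.span (Set.range (diagEq σ' ξ)) ≤ RingHom.ker π := by
      rw [Ideal.span_le]
      rintro _ ⟨k, rfl⟩
      change π (diagEq σ' ξ k) = 0
      rw [diagEq, map_sub, hπ, hπ1, one_mul, sub_self]
    exact hle ht
  have halg : ∀ c : O', algebraMap O' (GTw σ' B) c = algebraMap O' B c ⊗ₜ 1 := fun c => rfl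
  apply le_antisymm
  · intro t ht
    rw [RingHom.mem_ker] at ht
    obtain ⟨b, hb⟩ := exists_sub_mem ξ hξ hσ' t
    have h1 := hπZ _ hb
    rw [map_sub, ht, zero_sub, neg_eq_zero, hπ1, Ideal.Quotient.eq_zero_iff_mem,
      Ideal.mem_span_singleton'] at h1
    obtain ⟨b', hb'⟩ := h1
    have h2 : t = (t - b ⊗ₜ 1) + (b' ⊗ₜ 1) * algebraMap O' (GTw σ' B) ϖ ^ m := by
      rw [halg, Algebra.TensorProduct.tmul_pow, Algebra.TensorProduct.tmul_mul_tmul, one_pow,
        mul_one, hb']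
      ring
    rw [h2]
    exact Ideal.add_mem _ (Ideal.span_mono (Set.subset_insert _ _) hb)
      (Ideal.mul_mem_left _ _ (Ideal.subset_span (Set.mem_insert _ _)))
  · rw [Ideal.span_le]
    rintro t (rfl | ht)
    · change π _ = 0
      rw [map_pow, halg, hπ1, ← map_pow (Ideal.Quotient.mk (Ideal.span {algebraMap O' B ϖ ^ m})),
        Ideal.Quotient.eq_zero_iff_mem]
      exact Ideal.mem_span_singleton_self _
    · exact hπZ t (Ideal.subset_span ht)

include hΔ hξ hσ' in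
/-- The quotient by the equations of the diagonal in the special fibre. -/
theorem diag_H2 (hr : 1 ≤ r) (hreg : IsRegularRing (B ⧸ Ideal.span {algebraMap O' B ϖ})) :
    IsRegularRing (GTw σ' B ⧸ Ideal.span (insert (algebraMap O' (GTw σ' B) ϖ)
      (Set.range (diagEq σ' ξ)))) := by
  obtain ⟨π, hπ⟩ := exists_diag (B := B) hΔ hr
  have hker := diag_ker hΔ ξ hξ hσ' hr π hπ
  have hsurj : Function.Surjective π := by
    intro b
    obtain ⟨b, rfl⟩ := Ideal.Quotient.mk_surjective b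
    refine ⟨b ⊗ₜ toTw σ' B 1, ?_⟩
    rw [hπ, mul_one]
  have hker' : Ideal.span (insert (algebraMap O' (GTw σ' B) ϖ)
      (Set.range (diagEq σ' ξ))) = RingHom.ker π := by
    rw [hker, pow_one]
  have hreg' : IsRegularRing (B ⧸ Ideal.span {algebraMap O' B ϖ ^ 1}) := by
    rw [pow_one]; exact hreg
  exact IsRegularRing.of_ringEquiv ((Ideal.quotEquivOfEq hker').trans
    (RingHom.quotientKerEquivOfSurjective hsurj)).symm

include hΔ hξ hσ' in
/-- Flatness of the diagonal over the thickened special fibre. -/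
theorem diag_H3 (hr : 1 ≤ r) (htf : ∀ b : B, algebraMap O' B ϖ * b = 0 → b = 0) (a : GTw σ' B)
    (ha : algebraMap O' (GTw σ' B) ϖ * a ∈ Ideal.span (insert (algebraMap O' (GTw σ' B) ϖ ^ r)
      (Set.range (diagEq σ' ξ)))) :
    a ∈ Ideal.span (insert (algebraMap O' (GTw σ' B) ϖ ^ (r - 1)) (Set.range (diagEq σ' ξ))) := by
  obtain ⟨π, hπ⟩ := exists_diag (B := B) hΔ le_rfl
  have hker := diag_ker hΔ ξ hξ hσ' le_rfl π hπ
  have hπ1 : ∀ b, π (b ⊗ₜ 1) = Ideal.Quotient.mk _ b := by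
    intro b
    have := hπ b 1
    rwa [map_one, mul_one] at this
  have halg : ∀ c : O', algebraMap O' (GTw σ' B) c = algebraMap O' B c ⊗ₜ 1 := fun c => rfl
  obtain ⟨b, hb⟩ := exists_sub_mem ξ hξ hσ' a
  have h1 : π (a - b ⊗ₜ 1) = 0 := by
    rw [← RingHom.mem_ker, hker]
    exact Ideal.span_mono (Set.subset_insert _ _) hb
  rw [map_sub, hπ1, sub_eq_zero] at h1
  rw [← hker, RingHom.mem_ker, map_mul, h1, halg, hπ1, ← map_mul,
    Ideal.Quotient.eq_zero_iff_mem, Ideal.mem_span_singleton'] at ha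
  obtain ⟨b', hb'⟩ := ha
  obtain ⟨r', rfl⟩ : ∃ r', r = r' + 1 := ⟨r - 1, by omega⟩
  have h2 : b = b' * algebraMap O' B ϖ ^ r' := by
    rw [← sub_eq_zero]
    apply htf
    rw [mul_sub, ← hb', pow_succ]
    ring
  have h3 : a = (a - b ⊗ₜ 1) + (b' ⊗ₜ 1) * algebraMap O' (GTw σ' B) ϖ ^ r' := by
    rw [halg, Algebra.TensorProduct.tmul_pow, Algebra.TensorProduct.tmul_mul_tmul, one_pow,
      mul_one, ← h2]
    ring
  rw [Nat.add_sub_cancel, h3]
  exact Ideal.add_mem _ (Ideal.span_mono (Set.subset_insert _ _) hb)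
    (Ideal.mul_mem_left _ _ (Ideal.subset_span (Set.mem_insert _ _)))

include hΔ hξ hσ' in
/-- The involution is trivial modulo the equations. -/
theorem diag_H4 {F : Type} [Field F] [Algebra O' F] (f₁ : B →ₐ[O'] F) (f₂ : Tw σ' B →ₐ[O'] F)
    (τF : F →+* F) (hτF2 : ∀ z, τF (τF z) = z) (hf : ∀ b, f₂ (toTw σ' B b) = τF (f₁ b))
    (g : GTw σ' B) : ∃ y ∈ Ideal.span (insert (algebraMap O' (GTw σ' B) ϖ ^ r)
      (Set.range (diagEq σ' ξ))), τF (prodF f₁ f₂ g) - prodF f₁ f₂ g = prodF f₁ f₂ y := by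
  obtain ⟨π, hπ⟩ := exists_diag (B := B) hΔ le_rfl
  have hker := diag_ker hΔ ξ hξ hσ' le_rfl π hπ
  have key : ∀ g : GTw σ' B, ∃ g', τF (prodF f₁ f₂ g) = prodF f₁ f₂ g' ∧ π g' = π g := by
    intro g
    induction g using TensorProduct.induction_on with
    | zero => exact ⟨0, by rw [map_zero, map_zero], rfl⟩
    | tmul b₁ b₂ =>
      obtain ⟨b₂, rfl⟩ := (toTw σ' B).surjective b₂
      refine ⟨b₂ ⊗ₜ toTw σ' B b₁, ?_, ?_⟩
      · rw [prodF_tmul, prodF_tmul, hf, hf, map_mul, hτF2, mul_comm]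
      · rw [hπ, hπ, mul_comm]
    | add s t hs ht =>
      obtain ⟨s', hs1, hs2⟩ := hs
      obtain ⟨t', ht1, ht2⟩ := ht
      exact ⟨s' + t', by rw [map_add, map_add, map_add, hs1, ht1], by
        rw [map_add, map_add, hs2, ht2]⟩
  obtain ⟨g', h1, h2⟩ := key g
  refine ⟨g' - g, ?_, by rw [h1, map_sub]⟩
  rw [← hker, RingHom.mem_ker, map_sub, h2, sub_self]

end Ram

end Pool.Agent.Lib.MP_6a3dac_ag
end

section

/-!
# Product charts
-/

set_option autoImplicit false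
set_option linter.unusedSectionVars false
set_option linter.unusedVariables false

namespace Pool.Agent.Lib.MP_6a3dac_ag

open TensorProduct MvPolynomial

attribute [local instance] MvPolynomial.gradedAlgebra

section Twist

variable {O O'' : Type} [CommRing O] [CommRing O''] (s : O →+* O'') (hs : Function.Bijective s)
  (B : Type) [CommRing B] [Algebra O'' B]

include hs

theorem smooth_tw [Algebra.Smooth O'' B] : Algebra.Smooth O (Tw s B) := by
  let := s.toAlgebra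
  have h1 : Algebra.Smooth O O'' :=
    Algebra.Smooth.of_equiv (A := O) (AlgEquiv.ofBijective (Algebra.ofId O O'') hs)
  let : Algebra O'' (Tw s B) := inferInstanceAs (Algebra O'' B)
  have : IsScalarTower O O'' (Tw s B) := IsScalarTower.of_algebraMap_eq (fun _ => rfl)
  have : Algebra.Smooth O'' (Tw s B) := inferInstanceAs (Algebra.Smooth O'' B)
  exact Algebra.Smooth.comp O O'' (Tw s B)

theorem flat_tw [Module.Flat O'' B] : Module.Flat O (Tw s B) := by
  let := s.toAlgebra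
  have h1 : Module.Flat O O'' :=
    Module.Flat.of_linearEquiv
      (AlgEquiv.ofBijective (Algebra.ofId O O'') hs).symm.toLinearEquiv
  let : Algebra O'' (Tw s B) := inferInstanceAs (Algebra O'' B)
  have : IsScalarTower O O'' (Tw s B) := IsScalarTower.of_algebraMap_eq (fun _ => rfl)
  have : Module.Flat O'' (Tw s B) := inferInstanceAs (Module.Flat O'' B)
  exact Module.Flat.trans O O'' (Tw s B)

theorem adjoin_tw {ν : Type} (ξ : ν → B) (hξ : Algebra.adjoin O'' (Set.range ξ) = ⊤) :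
    Algebra.adjoin O (Set.range fun k => toTw s B (ξ k)) = ⊤ := by
  rw [eq_top_iff]
  rintro z -
  obtain ⟨b, rfl⟩ := (toTw s B).surjective z
  have hb : b ∈ Algebra.adjoin O'' (Set.range ξ) := by rw [hξ]; exact Algebra.mem_top
  induction hb using Algebra.adjoin_induction with
  | mem b hb =>
    obtain ⟨k, rfl⟩ := hb
    exact Algebra.subset_adjoin ⟨k, rfl⟩
  | algebraMap c =>
    obtain ⟨c, rfl⟩ := hs.2 c
    rw [← algebraMap_tw]
    exact Subalgebra.algebraMap_mem _ _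
  | add a b _ _ ha hb =>
    rw [map_add]
    exact add_mem ha hb
  | mul a b _ _ ha hb =>
    rw [map_mul]
    exact mul_mem ha hb

end Twist

section Move

variable {R A B : Type} [CommRing R] [CommRing A] [CommRing B] [Algebra R A] [Algebra R B]

theorem one_tmul_algebraMap (c : R) :
    (1 ⊗ₜ algebraMap R B c : A ⊗[R] B) = algebraMap A (A ⊗[R] B) (algebraMap R A c) := by
  rw [Algebra.algebraMap_eq_smul_one (A := B), ← TensorProduct.smul_tmul,
    ← Algebra.algebraMap_eq_smul_one]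
  rfl

theorem one_tmul_algebraMap' (c : R) :
    (1 ⊗ₜ algebraMap R B c : A ⊗[R] B) = algebraMap R (A ⊗[R] B) c := by
  rw [Algebra.algebraMap_eq_smul_one (A := B), ← TensorProduct.smul_tmul,
    ← Algebra.algebraMap_eq_smul_one]
  rfl

end Move

section BaseChange

variable {O O' C ν : Type} [CommRing O] [CommRing O'] [Algebra O O'] [CommRing C] [Algebra O C]

theorem adjoin_baseChange (ξ : ν → C) (hξ : Algebra.adjoin O (Set.range ξ) = ⊤) :
    Algebra.adjoin O' (Set.range fun k => (1 ⊗ₜ ξ k : O' ⊗[O] C)) = ⊤ := by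
  rw [eq_top_iff]
  have h1 : ∀ c : C, (1 ⊗ₜ c : O' ⊗[O] C) ∈
      Algebra.adjoin O' (Set.range fun k => (1 ⊗ₜ ξ k : O' ⊗[O] C)) := by
    intro c
    have hc : c ∈ Algebra.adjoin O (Set.range ξ) := by rw [hξ]; exact Algebra.mem_top
    induction hc using Algebra.adjoin_induction with
    | mem c hc =>
      obtain ⟨k, rfl⟩ := hc
      exact Algebra.subset_adjoin ⟨k, rfl⟩
    | algebraMap c =>
      have : (1 ⊗ₜ algebraMap O C c : O' ⊗[O] C) = algebraMap O' (O' ⊗[O] C) (algebraMap O O' c) := by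
        rw [Algebra.algebraMap_eq_smul_one (A := C), ← TensorProduct.smul_tmul,
          ← Algebra.algebraMap_eq_smul_one]
        rfl
      rw [this]
      exact Subalgebra.algebraMap_mem _ _
    | add a b _ _ ha hb =>
      rw [TensorProduct.tmul_add]
      exact add_mem ha hb
    | mul a b _ _ ha hb =>
      rw [show (1 ⊗ₜ (a * b) : O' ⊗[O] C) = (1 ⊗ₜ a) * (1 ⊗ₜ b) by
        rw [Algebra.TensorProduct.tmul_mul_tmul, mul_one]]
      exact mul_mem ha hb
  rintro z -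
  induction z using TensorProduct.induction_on with
  | zero => exact zero_mem _
  | tmul c b =>
    rw [show (c ⊗ₜ b : O' ⊗[O] C) = algebraMap O' (O' ⊗[O] C) c * (1 ⊗ₜ b) by
      rw [show algebraMap O' (O' ⊗[O] C) c = c ⊗ₜ 1 from rfl,
        Algebra.TensorProduct.tmul_mul_tmul, mul_one, one_mul]]
    exact mul_mem (Subalgebra.algebraMap_mem _ _) (h1 b)
  | add s t hs ht => exact add_mem hs ht

/-- Localizations of a regular algebra over a localization of the base are regular. -/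
theorem isRegularRing_baseChange (M : Submonoid O) [IsLocalization M O'] [IsRegularRing C] :
    IsRegularRing (O' ⊗[O] C) := by
  have h1 : IsRegularRing (C ⊗[O] O') :=
    isRegularRing_of_isLocalization (A := C) (Algebra.algebraMapSubmonoid C M)
  exact IsRegularRing.of_ringEquiv (Algebra.TensorProduct.comm O C O').toRingEquiv

end BaseChange

section Charts

variable {K L O F : Type} [Field K] [Field L] [Algebra K L] [CommRing O] [Algebra O L] {n : ℕ}
  {σ : L ≃ₐ[K] L} {𝔞 : HomogeneousIdeal (homogeneousSubmodule (Fin n) O)}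

/-- Maps out of the bihomogeneous coordinate ring. -/
theorem exists_theta {C₁ C₂ T : Type} [CommRing C₁] [Algebra O C₁] [CommRing C₂] [Algebra O C₂]
    [CommRing T] [Algebra L T] {ξ₁ : Fin n → C₁} {ξ₂ : Fin n → C₂}
    (h₁ : ∀ f ∈ 𝔞.toIdeal, aeval ξ₁ f = 0) (h₂ : ∀ f ∈ 𝔞.toIdeal, aeval ξ₂ f = 0)
    (κ₁ : C₁ →+* T) (hκ₁ : ∀ c, κ₁ (algebraMap O C₁ c) = algebraMap L T (algebraMap O L c))
    (κ₂ : C₂ →+* T) (hκ₂ : ∀ c, κ₂ (algebraMap O C₂ c) = algebraMap L T (σ (algebraMap O L c))) :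
    ∃ θ : PairRing σ 𝔞 →ₐ[L] T, (∀ k, θ (xCl σ 𝔞 k) = κ₁ (ξ₁ k)) ∧
      ∀ k, θ (yCl σ 𝔞 k) = κ₂ (ξ₂ k) := by
  let θ₀ : MvPolynomial (Fin n ⊕ Fin n) L →ₐ[L] T :=
    aeval (Sum.elim (fun k => κ₁ (ξ₁ k)) (fun k => κ₂ (ξ₂ k)))
  have hX1 : ∀ i, θ₀ (X (Sum.inl i)) = κ₁ (ξ₁ i) := fun i => by
    change aeval (R := L) (Sum.elim (fun k => κ₁ (ξ₁ k)) (fun k => κ₂ (ξ₂ k))) (X (Sum.inl i)) = _
    rw [aeval_X, Sum.elim_inl]
  have hX2 : ∀ i, θ₀ (X (Sum.inr i)) = κ₂ (ξ₂ i) := fun i => by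
    change aeval (R := L) (Sum.elim (fun k => κ₁ (ξ₁ k)) (fun k => κ₂ (ξ₂ k))) (X (Sum.inr i)) = _
    rw [aeval_X, Sum.elim_inr]
  have h3 : ∀ f : MvPolynomial (Fin n) O, θ₀ (rename Sum.inl (MvPolynomial.map (algebraMap O L) f)) =
      κ₁ (aeval ξ₁ f) := by
    intro f
    induction f using MvPolynomial.induction_on with
    | C c =>
      rw [map_C, rename_C, ← algebraMap_eq, ← algebraMap_eq, AlgHom.commutes, AlgHom.commutes, hκ₁]
    | add P Q hP hQ => rw [map_add, map_add, map_add, hP, hQ, map_add, map_add]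
    | mul_X P i hP =>
      rw [map_mul, map_mul, map_mul, hP, map_X, rename_X, map_mul, map_mul, hX1, aeval_X]
  have h4 : ∀ f : MvPolynomial (Fin n) O, θ₀ (rename Sum.inr
      (MvPolynomial.map ((σ : L →+* L).comp (algebraMap O L)) f)) = κ₂ (aeval ξ₂ f) := by
    intro f
    induction f using MvPolynomial.induction_on with
    | C c =>
      rw [map_C, rename_C, ← algebraMap_eq, ← algebraMap_eq, AlgHom.commutes, AlgHom.commutes, hκ₂]
      rfl
    | add P Q hP hQ => rw [map_add, map_add, map_add, hP, hQ, map_add, map_add]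
    | mul_X P i hP =>
      rw [map_mul, map_mul, map_mul, hP, map_X, rename_X, map_mul, map_mul, hX2, aeval_X]
  have h5 : pairIdeal σ 𝔞 ≤ RingHom.ker θ₀ := by
    rw [pairIdeal_eq, Ideal.span_le]
    rintro _ (⟨f, hf, rfl⟩ | ⟨f, hf, rfl⟩)
    · change θ₀ (rename Sum.inl (MvPolynomial.map (algebraMap O L) f)) = 0
      rw [h3, h₁ f hf, map_zero]
    · change θ₀ (rename Sum.inr (MvPolynomial.map ((σ : L →+* L).comp (algebraMap O L)) f)) = 0
      rw [h4, h₂ f hf, map_zero]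
  exact ⟨Ideal.Quotient.liftₐ _ θ₀ fun g hg => h5 hg, hX1, hX2⟩

/-- Maps of the bihomogeneous coordinate ring to a tensor product. -/
theorem exists_theta_tensor {O' C₁ C₂ B₁ B₂ : Type} [CommRing O'] [Algebra O O'] [Algebra O' L]
    [IsScalarTower O O' L] [CommRing C₁] [Algebra O C₁] [CommRing C₂] [Algebra O C₂]
    [CommRing B₁] [Algebra O' B₁] [CommRing B₂] [Algebra O' B₂]
    {ξ₁ : Fin n → C₁} {ξ₂ : Fin n → C₂}
    (h₁ : ∀ f ∈ 𝔞.toIdeal, aeval ξ₁ f = 0) (h₂ : ∀ f ∈ 𝔞.toIdeal, aeval ξ₂ f = 0)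
    {σO : O →+* O} (hσO : ∀ c, algebraMap O L (σO c) = σ (algebraMap O L c))
    (j₁ : C₁ →+* B₁) (hj₁ : ∀ c, j₁ (algebraMap O C₁ c) = algebraMap O' B₁ (algebraMap O O' c))
    (j₂ : C₂ →+* B₂)
    (hj₂ : ∀ c, j₂ (algebraMap O C₂ c) = algebraMap O' B₂ (algebraMap O O' (σO c))) :
    ∃ θ : PairRing σ 𝔞 →ₐ[L] L ⊗[O'] (B₁ ⊗[O'] B₂),
      (∀ k, θ (xCl σ 𝔞 k) = 1 ⊗ₜ (j₁ (ξ₁ k) ⊗ₜ 1)) ∧
      ∀ k, θ (yCl σ 𝔞 k) = 1 ⊗ₜ (1 ⊗ₜ j₂ (ξ₂ k)) := by
  let κ₁ : C₁ →+* L ⊗[O'] (B₁ ⊗[O'] B₂) :=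
    ((Algebra.TensorProduct.includeRight : (B₁ ⊗[O'] B₂) →ₐ[O'] L ⊗[O'] (B₁ ⊗[O'] B₂)).toRingHom.comp
      (Algebra.TensorProduct.includeLeft : B₁ →ₐ[O'] B₁ ⊗[O'] B₂).toRingHom).comp j₁
  let κ₂ : C₂ →+* L ⊗[O'] (B₁ ⊗[O'] B₂) :=
    ((Algebra.TensorProduct.includeRight : (B₁ ⊗[O'] B₂) →ₐ[O'] L ⊗[O'] (B₁ ⊗[O'] B₂)).toRingHom.comp
      (Algebra.TensorProduct.includeRight : B₂ →ₐ[O'] B₁ ⊗[O'] B₂).toRingHom).comp j₂
  have hκ₁ : ∀ z, κ₁ z = 1 ⊗ₜ ((j₁ z) ⊗ₜ 1) := fun _ => rfl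
  have hκ₂ : ∀ z, κ₂ z = 1 ⊗ₜ (1 ⊗ₜ (j₂ z)) := fun _ => rfl
  have hκ₁' : ∀ c : O, κ₁ (algebraMap O C₁ c) =
      algebraMap L (L ⊗[O'] (B₁ ⊗[O'] B₂)) (algebraMap O L c) := by
    intro c
    rw [hκ₁, hj₁, IsScalarTower.algebraMap_apply O O' L, ← one_tmul_algebraMap]
    rfl
  have hκ₂' : ∀ c : O, κ₂ (algebraMap O C₂ c) =
      algebraMap L (L ⊗[O'] (B₁ ⊗[O'] B₂)) (σ (algebraMap O L c)) := by
    intro c
    rw [hκ₂, hj₂, one_tmul_algebraMap', one_tmul_algebraMap,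
      ← IsScalarTower.algebraMap_apply O O' L, hσO]
  obtain ⟨θ, hθ₁, hθ₂⟩ := exists_theta (σ := σ) (𝔞 := 𝔞) h₁ h₂ κ₁ hκ₁' κ₂ hκ₂'
  exact ⟨θ, hθ₁, hθ₂⟩

variable [Field F] [Algebra L F] [Algebra O F] [IsScalarTower O L F]
  (ιP : PairRing σ 𝔞 →ₐ[L] F)

/-- An affine chart with a map to the field. -/
structure AffChart (a : Fin n) {C : Type} [CommRing C] [Algebra O C] (ξ : Fin n → C)
    (ρ : C →ₐ[O] F) : Prop where
  one : ξ a = 1
  gen : Algebra.adjoin O (Set.range ξ) = ⊤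
  rel : ∀ f ∈ 𝔞.toIdeal, aeval ξ f = 0
  flat : Module.Flat O C
  reg : IsRegularRing C
  map : ∀ k, ρ (ξ k) * ιP (xCl σ 𝔞 a) = ιP (xCl σ 𝔞 k)

section Maps

variable {O' : Type} [CommRing O'] [Algebra O O'] [Algebra O' F] [IsScalarTower O O' F]
  {C : Type} [CommRing C] [Algebra O C] (ρ : C →ₐ[O] F)

/-- The extension of a map to the localized chart. -/
noncomputable def locMap (O' : Type) [CommRing O'] [Algebra O O'] [Algebra O' F]
    [IsScalarTower O O' F] (ρ : C →ₐ[O] F) : O' ⊗[O] C →ₐ[O'] F :=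
  Algebra.TensorProduct.productLeftAlgHom (Algebra.ofId O' F) ρ

theorem locMap_tmul (c : O') (z : C) : locMap O' ρ (c ⊗ₜ z) = algebraMap O' F c * ρ z :=
  Algebra.TensorProduct.lift_tmul _ _ (fun _ _ => Commute.all _ _) _ _

variable (τF : F →+* F) {O'' : Type} [CommRing O''] [Algebra O O''] [Algebra O'' F]
  [IsScalarTower O O'' F] (s : O' →+* O'')
  (hsF : ∀ c, τF (algebraMap O'' F (s c)) = algebraMap O' F c)

/-- The extension of a map to the twisted localized chart. -/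
noncomputable def twMap : Tw s (O'' ⊗[O] C) →ₐ[O'] F :=
  { (τF.comp (locMap O'' ρ).toRingHom).comp (toTw s (O'' ⊗[O] C)).symm.toRingHom with
    commutes' := fun c => by
      change τF (locMap O'' ρ (algebraMap O'' (O'' ⊗[O] C) (s c))) = _
      rw [AlgHom.commutes, hsF] }

theorem twMap_toTw (z : O'' ⊗[O] C) :
    twMap ρ τF s hsF (toTw s _ z) = τF (locMap O'' ρ z) := rfl

end Maps

section Mem

variable {O' B ν : Type} [CommRing O'] [CommRing B] [Algebra O' B] [Algebra O' F]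

theorem mem_of_adjoin (f : B →ₐ[O'] F) {ξ : ν → B} (hξ : Algebra.adjoin O' (Set.range ξ) = ⊤)
    {D : Subring F} (hD : ∀ c, algebraMap O' F c ∈ D) (hDξ : ∀ k, f (ξ k) ∈ D) (b : B) :
    f b ∈ D := by
  have hb : b ∈ Algebra.adjoin O' (Set.range ξ) := by rw [hξ]; exact Algebra.mem_top
  induction hb using Algebra.adjoin_induction with
  | mem b hb =>
    obtain ⟨k, rfl⟩ := hb
    exact hDξ k
  | algebraMap c =>
    rw [AlgHom.commutes]
    exact hD c
  | add a b _ _ ha hb =>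
    rw [map_add]
    exact D.add_mem ha hb
  | mul a b _ _ ha hb =>
    rw [map_mul]
    exact D.mul_mem ha hb

theorem prodF_mem {B₂ : Type} [CommRing B₂] [Algebra O' B₂] (f₁ : B →ₐ[O'] F) (f₂ : B₂ →ₐ[O'] F)
    {D : Subring F} (h₁ : ∀ b, f₁ b ∈ D) (h₂ : ∀ b, f₂ b ∈ D) (g : B ⊗[O'] B₂) :
    prodF f₁ f₂ g ∈ D := by
  induction g using TensorProduct.induction_on with
  | zero => rw [map_zero]; exact D.zero_mem
  | tmul b₁ b₂ =>
    rw [prodF_tmul]
    exact D.mul_mem (h₁ _) (h₂ _)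
  | add s t hs ht =>
    rw [map_add]
    exact D.add_mem hs ht

end Mem

section Product

variable {O' O'' : Type} [CommRing O'] [CommRing O''] [Algebra O O'] [Algebra O O'']
  [Algebra O' L] [IsScalarTower O O' L] [Algebra O' F] [IsScalarTower O O' F]
  [IsScalarTower O' L F] [Algebra O'' F] [IsScalarTower O O'' F]
  {C₁ C₂ : Type} [CommRing C₁] [Algebra O C₁] [CommRing C₂] [Algebra O C₂]
  {ξ₁ : Fin n → C₁} {ρ₁ : C₁ →ₐ[O] F} {ξ₂ : Fin n → C₂} {ρ₂ : C₂ →ₐ[O] F} {a b : Fin n}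
  {ιP} (h₁ : AffChart ιP a ξ₁ ρ₁) (h₂ : AffChart ιP b ξ₂ ρ₂)
  {τF : F →+* F} (hτx : ∀ k, τF (ιP (xCl σ 𝔞 k)) = ιP (yCl σ 𝔞 k))
  {s : O' →+* O''} (hs : Function.Bijective s)
  (hsF : ∀ c, τF (algebraMap O'' F (s c)) = algebraMap O' F c)
  {σO : O →+* O} (hσO : ∀ c, algebraMap O L (σO c) = σ (algebraMap O L c))
  (hsO : ∀ c, s (algebraMap O O' (σO c)) = algebraMap O O'' c)

include h₁ h₂ hτx hs hσO hsO in
theorem prodChart_inj (hιP : Function.Injective ιP) (ha : ιP (xCl σ 𝔞 a) ≠ 0)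
    (hb : ιP (yCl σ 𝔞 b) ≠ 0) (hO'L : Function.Injective (algebraMap O' L)) :
    Function.Injective (prodF (locMap O' ρ₁) (twMap ρ₂ τF s hsF)) := by
  have hfl₁ := h₁.flat
  have hfl₂ := h₂.flat
  have hfl₃ : Module.Flat O' (Tw s (O'' ⊗[O] C₂)) := flat_tw s hs _
  have hfl₄ : Module.Flat O' ((O' ⊗[O] C₁) ⊗[O'] (Tw s (O'' ⊗[O] C₂))) := inferInstance
  obtain ⟨θ, hθ₁, hθ₂⟩ := exists_theta_tensor (σ := σ) (𝔞 := 𝔞) h₁.rel h₂.rel hσO
    (Algebra.TensorProduct.includeRight : C₁ →ₐ[O] O' ⊗[O] C₁).toRingHom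
    (fun c => one_tmul_algebraMap c)
    ((toTw s (O'' ⊗[O] C₂)).toRingHom.comp
      (Algebra.TensorProduct.includeRight : C₂ →ₐ[O] O'' ⊗[O] C₂).toRingHom)
    (fun c => by
      change toTw s (O'' ⊗[O] C₂) (1 ⊗ₜ algebraMap O C₂ c) = _
      rw [one_tmul_algebraMap, ← hsO, ← algebraMap_tw])
  refine prodF_injective hO'L ιP hιP (locMap O' ρ₁) (twMap ρ₂ τF s hsF)
    (fun k => (1 ⊗ₜ ξ₁ k : O' ⊗[O] C₁)) (fun k => toTw s (O'' ⊗[O] C₂) (1 ⊗ₜ ξ₂ k))
    (adjoin_baseChange ξ₁ h₁.gen) (adjoin_tw s hs _ _ (adjoin_baseChange ξ₂ h₂.gen))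
    (xCl σ 𝔞) (yCl σ 𝔞) a b ?_ ?_ ha hb ?_ ?_ θ hθ₁ hθ₂
  · rw [h₁.one]
    rfl
  · rw [h₂.one]
    rfl
  · intro k
    rw [locMap_tmul, map_one, one_mul, h₁.map]
  · intro k
    rw [twMap_toTw, locMap_tmul, map_one, one_mul, ← hτx, ← map_mul, h₂.map, hτx]

variable (ιP) in
/-- The map from the Segre algebra to the field. -/
noncomputable def segMap : segreAlg σ 𝔞 →+* F :=
  (ιP : PairRing σ 𝔞 →+* F).comp (segreAlg σ 𝔞).val.toRingHom

variable (σ 𝔞) in
/-- The generators `x_i y_j` of the Segre algebra. -/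
noncomputable def xx (ij : Fin n × Fin n) : segreAlg σ 𝔞 :=
  ⟨xCl σ 𝔞 ij.1 * yCl σ 𝔞 ij.2, xy_mem_segreAlg _ _ _ _⟩

theorem segMap_xx (ij : Fin n × Fin n) :
    segMap ιP (xx σ 𝔞 ij) = ιP (xCl σ 𝔞 ij.1) * ιP (yCl σ 𝔞 ij.2) := map_mul ιP _ _

include h₁ h₂ hs in
theorem prodChart_reg (M' M'' : Submonoid O) [IsLocalization M' O'] [IsLocalization M'' O'']
    (hsm : Algebra.Smooth O' (O' ⊗[O] C₁) ∨ Algebra.Smooth O'' (O'' ⊗[O] C₂)) :
    IsRegularRing ((O' ⊗[O] C₁) ⊗[O'] (Tw s (O'' ⊗[O] C₂))) := by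
  have hr₁ := h₁.reg
  have hr₂ := h₂.reg
  have hr₃ : IsRegularRing (O' ⊗[O] C₁) := isRegularRing_baseChange M'
  have hr₄ : IsRegularRing (O'' ⊗[O] C₂) := isRegularRing_baseChange M''
  have hr₅ : IsRegularRing (Tw s (O'' ⊗[O] C₂)) :=
    IsRegularRing.of_ringEquiv (toTw s (O'' ⊗[O] C₂))
  rcases hsm with h | h
  · have h3 : IsRegularRing ((Tw s (O'' ⊗[O] C₂)) ⊗[O'] (O' ⊗[O] C₁)) :=
      isRegularRing_of_smooth (Tw s (O'' ⊗[O] C₂)) _
    exact IsRegularRing.of_ringEquiv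
      (Algebra.TensorProduct.comm O' (Tw s (O'' ⊗[O] C₂)) (O' ⊗[O] C₁)).toRingEquiv
  · have h3 : Algebra.Smooth O' (Tw s (O'' ⊗[O] C₂)) := smooth_tw s hs _
    exact isRegularRing_of_smooth (O' ⊗[O] C₁) _

include h₁ h₂ hτx hs hσO hsO in
theorem prodChart_isChart (hιP : Function.Injective ιP)
    (hO'L : Function.Injective (algebraMap O' L)) {Λ : Subring (segreAlg σ 𝔞)} {D : Subring F}
    (hΛ : ∀ m ∈ Λ, ∃ c : O', algebraMap O' F c = segMap ιP m)
    (hD : ∀ c : O', algebraMap O' F c ∈ D) (hx0 : segMap ιP (xx σ 𝔞 (a, b)) ≠ 0)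
    (hcoord : ∀ k, segMap ιP (xx σ 𝔞 k) / segMap ιP (xx σ 𝔞 (a, b)) ∈ D)
    (M' M'' : Submonoid O) [IsLocalization M' O'] [IsLocalization M'' O'']
    (hsm : Algebra.Smooth O' (O' ⊗[O] C₁) ∨ Algebra.Smooth O'' (O'' ⊗[O] C₂)) :
    IsChart (segMap ιP) (xx σ 𝔞) Λ D (a, b)
      (prodF (locMap O' ρ₁) (twMap ρ₂ τF s hsF)).toRingHom := by
  rw [segMap_xx] at hx0
  have ha : ιP (xCl σ 𝔞 a) ≠ 0 := left_ne_zero_of_mul hx0
  have hb : ιP (yCl σ 𝔞 b) ≠ 0 := right_ne_zero_of_mul hx0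
  have hρ₁ : ∀ k, ρ₁ (ξ₁ k) = ιP (xCl σ 𝔞 k) / ιP (xCl σ 𝔞 a) := fun k => by
    rw [eq_div_iff ha, h₁.map]
  have hρ₂ : ∀ k, τF (ρ₂ (ξ₂ k)) = ιP (yCl σ 𝔞 k) / ιP (yCl σ 𝔞 b) := fun k => by
    rw [eq_div_iff hb, ← hτx, ← map_mul, h₂.map, hτx]
  refine ⟨prodChart_inj h₁ h₂ hτx hs hsF hσO hsO hιP ha hb hO'L,
    prodChart_reg h₁ h₂ hs M' M'' hsm, ?_, ?_, ?_⟩
  · intro g
    refine prodF_mem _ _ ?_ ?_ g
    · refine mem_of_adjoin _ (adjoin_baseChange ξ₁ h₁.gen) hD fun k => ?_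
      rw [locMap_tmul, map_one, one_mul, hρ₁]
      have := hcoord (k, b)
      rw [segMap_xx, segMap_xx] at this
      rwa [mul_div_mul_right _ _ hb] at this
    · refine mem_of_adjoin _ (adjoin_tw s hs _ _ (adjoin_baseChange ξ₂ h₂.gen)) hD fun k => ?_
      rw [twMap_toTw, locMap_tmul, map_one, one_mul, hρ₂]
      have := hcoord (a, k)
      rw [segMap_xx, segMap_xx] at this
      rwa [mul_div_mul_left _ _ ha] at this
  · intro m hm
    obtain ⟨c, hc⟩ := hΛ m hm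
    refine ⟨algebraMap O' _ c, ?_⟩
    rw [← hc]
    exact (prodF (locMap O' ρ₁) (twMap ρ₂ τF s hsF)).commutes c
  · intro k
    refine ⟨(1 ⊗ₜ ξ₁ k.1) ⊗ₜ toTw s _ (1 ⊗ₜ ξ₂ k.2), ?_⟩
    change prodF (locMap O' ρ₁) (twMap ρ₂ τF s hsF) _ = _
    rw [prodF_tmul, locMap_tmul, twMap_toTw, locMap_tmul, map_one, map_one, one_mul, one_mul, hρ₁,
      hρ₂, segMap_xx, segMap_xx, div_mul_div_comm]

end Product

section Ram

variable {O' : Type} [CommRing O'] [Algebra O O'] [Algebra O' L] [IsScalarTower O O' L]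
  [Algebra O' F] [IsScalarTower O O' F] [IsScalarTower O' L F]
  {C : Type} [CommRing C] [Algebra O C] {ξ : Fin n → C} {ρ : C →ₐ[O] F} {a : Fin n}
  {ιP} (h : AffChart ιP a ξ ρ)
  {τF : F →+* F} (hτx : ∀ k, τF (ιP (xCl σ 𝔞 k)) = ιP (yCl σ 𝔞 k)) (hτF2 : ∀ z, τF (τF z) = z)
  {σ' : O' →+* O'} (hσ' : ∀ c, σ' (σ' c) = c)
  (hsF : ∀ c, τF (algebraMap O' F (σ' c)) = algebraMap O' F c)
  {σO : O →+* O} (hσO : ∀ c, algebraMap O L (σO c) = σ (algebraMap O L c))
  (hsO : ∀ c, σ' (algebraMap O O' (σO c)) = algebraMap O O' c)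

/-- The differences of the coordinates in the chart around the diagonal. -/
noncomputable def zz {B : Type} [CommRing B] [Algebra O' B] (σ' : O' →+* O') (ξB : Fin n → B)
    (kl : Fin n × Fin n) : GTw σ' B :=
  ξB kl.2 ⊗ₜ toTw σ' B (ξB kl.1) - ξB kl.1 ⊗ₜ toTw σ' B (ξB kl.2)

theorem span_zz {B : Type} [CommRing B] [Algebra O' B] (σ' : O' →+* O') {ξB : Fin n → B}
    (hone : ξB a = 1) :
    Ideal.span (Set.range (zz σ' ξB)) = Ideal.span (Set.range (diagEq σ' ξB)) := by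
  apply le_antisymm
  · rw [Ideal.span_le]
    rintro _ ⟨kl, rfl⟩
    have h1 : zz σ' ξB kl = (ξB kl.2 ⊗ₜ 1) * diagEq σ' ξB kl.1 -
        (ξB kl.1 ⊗ₜ 1) * diagEq σ' ξB kl.2 := by
      rw [zz, diagEq, diagEq, mul_sub, mul_sub]
      simp only [Algebra.TensorProduct.tmul_mul_tmul, mul_one, one_mul]
      rw [mul_comm (ξB kl.2) (ξB kl.1)]
      ring
    rw [h1]
    exact Ideal.sub_mem _ (Ideal.mul_mem_left _ _ (Ideal.subset_span ⟨_, rfl⟩))
      (Ideal.mul_mem_left _ _ (Ideal.subset_span ⟨_, rfl⟩))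
  · rw [Ideal.span_le]
    rintro _ ⟨k, rfl⟩
    refine Ideal.subset_span ⟨(k, a), ?_⟩
    rw [zz, diagEq, hone, map_one]

theorem span_insert_zz {B : Type} [CommRing B] [Algebra O' B] (σ' : O' →+* O') {ξB : Fin n → B}
    (hone : ξB a = 1) (w : GTw σ' B) :
    Ideal.span (insert w (Set.range (zz σ' ξB))) =
      Ideal.span (insert w (Set.range (diagEq σ' ξB))) := by
  rw [Ideal.span_insert, Ideal.span_insert, span_zz σ' hone]

include h hτx hτF2 hσ' hσO hsO in
theorem prodChart_isRamChart (hιP : Function.Injective ιP)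
    (hO'L : Function.Injective (algebraMap O' L)) {Λ : Subring (segreAlg σ 𝔞)} {D : Subring F}
    (hΛ : ∀ m ∈ Λ, ∃ c : O', algebraMap O' F c = segMap ιP m)
    (hD : ∀ c : O', algebraMap O' F c ∈ D) (hx0 : segMap ιP (xx σ 𝔞 (a, a)) ≠ 0)
    (hcoord : ∀ k, segMap ιP (xx σ 𝔞 k) / segMap ιP (xx σ 𝔞 (a, a)) ∈ D)
    (M' : Submonoid O) [IsLocalization M' O']
    (hsm : Algebra.Smooth O' (O' ⊗[O] C)) {ϖ' : O'} {ϖM : segreAlg σ 𝔞}
    (hϖM : algebraMap O' F ϖ' = segMap ιP ϖM) (hmax : (Ideal.span {ϖ'}).IsMaximal)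
    (hϖ0 : ϖ' ≠ 0) [IsDomain O'] {r : ℕ} (hr : 1 ≤ r)
    (hΔ : ∀ c, ∃ y, σ' c - c = y * ϖ' ^ r) :
    ∃ Z : Finset (GTw σ' (O' ⊗[O] C)), IsRamChart (segMap ιP) τF (xx σ 𝔞) Λ ϖM r D (a, a)
      (prodF (locMap O' ρ) (twMap ρ τF σ' hsF)).toRingHom (algebraMap O' _ ϖ') Z := by
  classical
  have hbij : Function.Bijective σ' := Function.Involutive.bijective hσ'
  have hch := prodChart_isChart h h hτx hbij hsF hσO hsO hιP hO'L hΛ hD hx0 hcoord M' M'
    (Or.inl hsm)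
  rw [segMap_xx] at hx0
  have ha : ιP (xCl σ 𝔞 a) ≠ 0 := left_ne_zero_of_mul hx0
  have hb : ιP (yCl σ 𝔞 a) ≠ 0 := right_ne_zero_of_mul hx0
  have hρ₁ : ∀ k, ρ (ξ k) = ιP (xCl σ 𝔞 k) / ιP (xCl σ 𝔞 a) := fun k => by
    rw [eq_div_iff ha, h.map]
  have hρ₂ : ∀ k, τF (ρ (ξ k)) = ιP (yCl σ 𝔞 k) / ιP (yCl σ 𝔞 a) := fun k => by
    rw [eq_div_iff hb, ← hτx, ← map_mul, h.map, hτx]
  have hfl := h.flat
  let ξB : Fin n → O' ⊗[O] C := fun k => 1 ⊗ₜ ξ k
  have hone : ξB a = 1 := by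
    change 1 ⊗ₜ ξ a = _
    rw [h.one]
    rfl
  have hξB : Algebra.adjoin O' (Set.range ξB) = ⊤ := adjoin_baseChange ξ h.gen
  have hspan : ∀ w, Ideal.span (insert w ((Finset.univ.image (zz σ' ξB) :
      Finset (GTw σ' (O' ⊗[O] C))) : Set (GTw σ' (O' ⊗[O] C)))) =
      Ideal.span (insert w (Set.range (diagEq σ' ξB))) := by
    intro w
    rw [Finset.coe_image, Finset.coe_univ, Set.image_univ, span_insert_zz σ' hone]
  have hzz : ∀ kl : Fin n × Fin n, prodF (locMap O' ρ) (twMap ρ τF σ' hsF) (zz σ' ξB kl) =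
      τF (segMap ιP (xx σ 𝔞 kl) / segMap ιP (xx σ 𝔞 (a, a))) -
        segMap ιP (xx σ 𝔞 kl) / segMap ιP (xx σ 𝔞 (a, a)) := by
    intro kl
    have hf1 : ∀ k, locMap O' ρ (ξB k) = ρ (ξ k) := fun k => by
      rw [locMap_tmul, map_one, one_mul]
    have hf2 : ∀ k, twMap ρ τF σ' hsF (toTw σ' _ (ξB k)) = τF (ρ (ξ k)) := fun k => by
      rw [twMap_toTw, hf1]
    rw [zz, map_sub, prodF_tmul, prodF_tmul, hf1, hf1, hf2, hf2, segMap_xx, segMap_xx,
      ← div_mul_div_comm, map_mul, ← hρ₁, ← hρ₂, hτF2]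
    ring
  have hB1 : IsRegularRing ((O' ⊗[O] C) ⧸ Ideal.span {algebraMap O' (O' ⊗[O] C) ϖ'}) :=
    isRegularRing_quotient_of_smooth ϖ' hmax
  have htw : Algebra.Smooth O' (Tw σ' (O' ⊗[O] C)) := smooth_tw σ' hbij _
  have hG : Algebra.Smooth O' (GTw σ' (O' ⊗[O] C)) := Algebra.Smooth.comp O' (O' ⊗[O] C) _
  refine ⟨Finset.univ.image (zz σ' ξB), hch, ?_, ?_, ?_, ?_, ?_, ?_, ?_⟩
  · rw [← hϖM]
    exact (prodF (locMap O' ρ) (twMap ρ τF σ' hsF)).commutes ϖ'
  · intro k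
    exact ⟨zz σ' ξB k, Finset.mem_image_of_mem _ (Finset.mem_univ k), hzz k⟩
  · intro z hz
    obtain ⟨k, -, rfl⟩ := Finset.mem_image.mp hz
    exact ⟨k, hzz k⟩
  · exact isRegularRing_quotient_of_smooth ϖ' hmax
  · rw [hspan]
    exact diag_H2 hΔ ξB hξB hσ' hr hB1
  · intro y hy
    rw [hspan] at hy ⊢
    refine diag_H3 hΔ ξB hξB hσ' hr ?_ y hy
    intro b hb
    have hfl' : Module.Flat O' (O' ⊗[O] C) := inferInstance
    have h1 := Module.Flat.isSMulRegular_of_nonZeroDivisors (M := O' ⊗[O] C)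
      (mem_nonZeroDivisors_of_ne_zero hϖ0)
    apply h1
    change ϖ' • b = ϖ' • 0
    rw [smul_zero, Algebra.smul_def, hb]
  · intro g
    obtain ⟨y, hy, hy2⟩ := diag_H4 hΔ ξB hξB hσ' (locMap O' ρ) (twMap ρ τF σ' hsF) τF hτF2
      (fun b => rfl) g
    refine ⟨y, ?_, hy2⟩
    rw [hspan]
    exact hy

end Ram

end Charts

end Pool.Agent.Lib.MP_6a3dac_ag
end

section

/-!
# The affine charts of a projective scheme
-/

set_option autoImplicit false
set_option linter.unusedSectionVars false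
set_option linter.unusedVariables false

namespace Pool.Agent.Lib.MP_6a3dac_ag

open CategoryTheory Limits AlgebraicGeometry HomogeneousLocalization MvPolynomial TensorProduct

attribute [local instance] MvPolynomial.gradedAlgebra

section Scaling

variable {O T : Type} [CommRing O] [CommRing T] {n : ℕ}

theorem eval₂_smul_of_isHomogeneous (f : O →+* T) (u : T) (y : Fin n → T)
    {P : MvPolynomial (Fin n) O} {d : ℕ} (hP : P.IsHomogeneous d) :
    eval₂ f (fun k => u * y k) P = u ^ d * eval₂ f y P := by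
  rw [eval₂_eq', eval₂_eq', Finset.mul_sum]
  refine Finset.sum_congr rfl fun m hm => ?_
  have h1 : ∑ i, m i = d := by
    have := hP (mem_support_iff.mp hm)
    rw [Finsupp.weight_apply, Finsupp.sum_fintype _ _ (fun _ => by simp)] at this
    simpa using this
  simp only [mul_pow]
  rw [Finset.prod_mul_distrib, Finset.prod_pow_eq_pow_sum, h1]
  ring

end Scaling

section Chart

variable {O : Type} [CommRing O] {n : ℕ} (𝔞 : HomogeneousIdeal (homogeneousSubmodule (Fin n) O))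

/-- The class of the coordinate `x_a`. -/
noncomputable def sCl (a : Fin n) : CoordQuot 𝔞 := Ideal.Quotient.mk _ (X a)

theorem sCl_mem (a : Fin n) : sCl 𝔞 a ∈ coordGr 𝔞 1 :=
  ⟨X a, isHomogeneous_X _ _, rfl⟩

/-- The coordinate ring of the chart `x_a ≠ 0`. -/
def ChartRing (a : Fin n) : Type := Away (coordGr 𝔞) (sCl 𝔞 a)

noncomputable instance (a : Fin n) : CommRing (ChartRing 𝔞 a) :=
  inferInstanceAs (CommRing (Away (coordGr 𝔞) (sCl 𝔞 a)))

noncomputable instance (a : Fin n) : Algebra O (ChartRing 𝔞 a) :=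
  (baseToAway (coordGr 𝔞) (sCl 𝔞 a)).toAlgebra

/-- The injection of the chart ring in the localization. -/
noncomputable def chartVal (a : Fin n) : ChartRing 𝔞 a →+* Localization.Away (sCl 𝔞 a) :=
  algebraMap (Away (coordGr 𝔞) (sCl 𝔞 a)) (Localization.Away (sCl 𝔞 a))

theorem chartVal_injective (a : Fin n) : Function.Injective (chartVal 𝔞 a) :=
  HomogeneousLocalization.val_injective _

theorem chartVal_algebraMap (a : Fin n) (c : O) :
    chartVal 𝔞 a (algebraMap O (ChartRing 𝔞 a) c) =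
      algebraMap (CoordQuot 𝔞) (Localization.Away (sCl 𝔞 a)) (algebraMap O (CoordQuot 𝔞) c) :=
  val_baseToAway _ _ _

/-- The coordinates `x_k / x_a`. -/
noncomputable def chartX (a k : Fin n) : ChartRing 𝔞 a :=
  Away.mk (coordGr 𝔞) (sCl_mem 𝔞 a) 1 (sCl 𝔞 k) (by rw [one_smul]; exact sCl_mem 𝔞 k)

/-- The element `x_a` as a denominator. -/
noncomputable def denS (a : Fin n) : Submonoid.powers (sCl 𝔞 a) := ⟨sCl 𝔞 a ^ 1, ⟨1, rfl⟩⟩

theorem chartVal_chartX (a k : Fin n) : chartVal 𝔞 a (chartX 𝔞 a k) =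
    Localization.mk (sCl 𝔞 k) (denS 𝔞 a) := Away.val_mk _ _ (sCl_mem 𝔞 a) _ _

/-- The inverse of `x_a`. -/
noncomputable def invS (a : Fin n) : Localization.Away (sCl 𝔞 a) :=
  Localization.mk 1 (denS 𝔞 a)

theorem invS_mul (a : Fin n) :
    invS 𝔞 a * algebraMap (CoordQuot 𝔞) (Localization.Away (sCl 𝔞 a)) (sCl 𝔞 a) = 1 := by
  rw [invS, ← Localization.mk_one_eq_algebraMap, Localization.mk_mul]
  have h : (1 : CoordQuot 𝔞) * sCl 𝔞 a = ((denS 𝔞 a * 1 : Submonoid.powers (sCl 𝔞 a)) :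
      CoordQuot 𝔞) := by
    simp [denS]
  rw [h]
  exact Localization.mk_self _

theorem chartVal_chartX' (a k : Fin n) : chartVal 𝔞 a (chartX 𝔞 a k) =
    invS 𝔞 a * algebraMap (CoordQuot 𝔞) (Localization.Away (sCl 𝔞 a)) (sCl 𝔞 k) := by
  rw [chartVal_chartX, invS, ← Localization.mk_one_eq_algebraMap, Localization.mk_mul, one_mul,
    mul_one]

theorem chartX_self (a : Fin n) : chartX 𝔞 a a = 1 := by
  apply chartVal_injective
  rw [chartVal_chartX', invS_mul, map_one]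

theorem mk_eq_eval₂ (P : MvPolynomial (Fin n) O) :
    Ideal.Quotient.mk 𝔞.toIdeal P = eval₂ (algebraMap O (CoordQuot 𝔞)) (sCl 𝔞) P := by
  induction P using MvPolynomial.induction_on with
  | C c =>
    rw [eval₂_C]
    rfl
  | add P Q hP hQ => rw [map_add, hP, hQ, eval₂_add]
  | mul_X P i hP =>
    rw [map_mul, hP, eval₂_mul, eval₂_X]
    rfl

/-- Evaluation of a homogeneous polynomial at the affine coordinates. -/
theorem chartVal_aeval (a : Fin n) {P : MvPolynomial (Fin n) O} {d : ℕ} (hP : P.IsHomogeneous d) :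
    chartVal 𝔞 a (aeval (chartX 𝔞 a) P) = invS 𝔞 a ^ d *
      algebraMap (CoordQuot 𝔞) (Localization.Away (sCl 𝔞 a)) (Ideal.Quotient.mk _ P) := by
  rw [aeval_def, eval₂_comp_left, mk_eq_eval₂, eval₂_comp_left,
    ← eval₂_smul_of_isHomogeneous _ _ _ hP]
  have h1 : (chartVal 𝔞 a).comp (algebraMap O (ChartRing 𝔞 a)) =
      (algebraMap (CoordQuot 𝔞) (Localization.Away (sCl 𝔞 a))).comp
        (algebraMap O (CoordQuot 𝔞)) := RingHom.ext fun c => chartVal_algebraMap 𝔞 a c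
  rw [h1]
  congr 1
  funext k
  exact chartVal_chartX' 𝔞 a k

/-- The relations between the affine coordinates. -/
theorem aeval_chartX (a : Fin n) {f : MvPolynomial (Fin n) O} (hf : f ∈ 𝔞.toIdeal) :
    aeval (chartX 𝔞 a) f = 0 := by
  classical
  rw [← DirectSum.sum_support_decompose (homogeneousSubmodule (Fin n) O) f, map_sum]
  refine Finset.sum_eq_zero fun i _ => ?_
  apply chartVal_injective
  rw [chartVal_aeval 𝔞 a (DirectSum.decompose (homogeneousSubmodule (Fin n) O) f i).2]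
  have h1 : Ideal.Quotient.mk 𝔞.toIdeal
      (DirectSum.decompose (homogeneousSubmodule (Fin n) O) f i : MvPolynomial (Fin n) O) = 0 := by
    rw [Ideal.Quotient.eq_zero_iff_mem]
    exact 𝔞.isHomogeneous i hf
  rw [h1, map_zero, mul_zero, map_zero]

/-- The affine coordinates generate. -/
theorem adjoin_chartX (a : Fin n) : Algebra.adjoin O (Set.range (chartX 𝔞 a)) = ⊤ := by
  rw [eq_top_iff]
  rintro z -
  obtain ⟨k, f, hf, hz⟩ := Away.mk_surjective (coordGr 𝔞) (sCl_mem 𝔞 a) z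
  have hf' := hf
  obtain ⟨P, hP, hPf⟩ := hf'
  have h1 : z = aeval (chartX 𝔞 a) P := by
    apply chartVal_injective
    rw [chartVal_aeval 𝔞 a hP]
    have h2 : chartVal 𝔞 a z = Localization.mk f
        (⟨sCl 𝔞 a ^ k, ⟨k, rfl⟩⟩ : Submonoid.powers (sCl 𝔞 a)) := by
      rw [← hz]
      exact Away.val_mk _ _ (sCl_mem 𝔞 a) _ _
    have h3 : Ideal.Quotient.mk 𝔞.toIdeal P = f := hPf
    rw [h2, h3, invS, Localization.mk_pow, ← Localization.mk_one_eq_algebraMap,
      Localization.mk_mul, Localization.mk_eq_mk_iff, Localization.r_iff_exists]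
    refine ⟨1, ?_⟩
    simp [denS]
  rw [h1, Algebra.adjoin_range_eq_range_aeval]
  exact ⟨P, rfl⟩

/-- The charts of a flat scheme are flat. -/
theorem flat_chartRing (a : Fin n) (hfl : Flat (projTo O (coordGr 𝔞))) :
    Module.Flat O (ChartRing 𝔞 a) := by
  have h1 : Flat (Proj.awayι (coordGr 𝔞) (sCl 𝔞 a) (sCl_mem 𝔞 a) one_pos ≫
    projTo O (coordGr 𝔞)) := inferInstance
  rw [awayι_projTo, Flat.SpecMap_iff] at h1
  exact h1

/-- The charts of a regular scheme are regular. -/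
theorem isRegularRing_chartRing [IsNoetherianRing O] (a : Fin n)
    (hreg : ∀ y : ProjectiveSpectrum (coordGr 𝔞),
      IsRegularLocalRing ((Proj (coordGr 𝔞)).presheaf.stalk y)) :
    IsRegularRing (ChartRing 𝔞 a) := by
  have hft : Algebra.FiniteType O (ChartRing 𝔞 a) := by
    refine ⟨⟨(Set.finite_range (chartX 𝔞 a)).toFinset, ?_⟩⟩
    rw [Set.Finite.coe_toFinset]
    exact adjoin_chartX 𝔞 a
  have hN : IsNoetherianRing (ChartRing 𝔞 a) := Algebra.FiniteType.isNoetherianRing O _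
  rw [isRegularRing_iff]
  intro q hq
  let f := Proj.awayι (coordGr 𝔞) (sCl 𝔞 a) (sCl_mem 𝔞 a) one_pos
  let x : Spec (CommRingCat.of (Away (coordGr 𝔞) (sCl 𝔞 a))) := ⟨q, hq⟩
  have h1 := hreg (f x)
  have h2 : IsIso (f.stalkMap x) := inferInstance
  have h3 : IsRegularLocalRing
      ((Spec (CommRingCat.of (Away (coordGr 𝔞) (sCl 𝔞 a)))).presheaf.stalk x) :=
    IsRegularLocalRing.of_ringEquiv (asIso (f.stalkMap x)).commRingCatIsoToRingEquiv
  exact IsRegularLocalRing.of_ringEquiv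
    (Spec.stalkIso (CommRingCat.of (Away (coordGr 𝔞) (sCl 𝔞 a))) x).commRingCatIsoToRingEquiv

/-- The charts of a smooth scheme are smooth. -/
theorem smooth_chartRing (O' : Type) [CommRing O'] [Algebra O O'] (a : Fin n)
    (hsm : Smooth (pullback.snd (projTo O (coordGr 𝔞))
      (Spec.map (CommRingCat.ofHom (algebraMap O O'))))) :
    Algebra.Smooth O' (O' ⊗[O] (ChartRing 𝔞 a)) := by
  let f := Proj.awayι (coordGr 𝔞) (sCl 𝔞 a) (sCl_mem 𝔞 a) one_pos
  have h1 : Smooth (pullback.snd (f ≫ projTo O (coordGr 𝔞))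
      (Spec.map (CommRingCat.ofHom (algebraMap O O')))) := by
    have h2 : pullback.snd (f ≫ projTo O (coordGr 𝔞))
        (Spec.map (CommRingCat.ofHom (algebraMap O O'))) =
        (pullbackRightPullbackFstIso (projTo O (coordGr 𝔞))
          (Spec.map (CommRingCat.ofHom (algebraMap O O'))) f).inv ≫
        pullback.snd f (pullback.fst _ _) ≫ pullback.snd _ _ := by
      rw [pullbackRightPullbackFstIso_inv_snd_snd]
    rw [h2]
    infer_instance
  have h2 : f ≫ projTo O (coordGr 𝔞) =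
      Spec.map (CommRingCat.ofHom (algebraMap O (ChartRing 𝔞 a))) :=
    awayι_projTo _ _ _ _
  rw [h2] at h1
  have h1' : Smooth (pullback.snd (Spec.map (CommRingCat.ofHom (algebraMap O (ChartRing 𝔞 a))))
      (Spec.map (CommRingCat.ofHom (algebraMap O O')))) := h1
  have h3 : Smooth ((pullbackSpecIso O (ChartRing 𝔞 a) O').inv ≫ pullback.snd _ _) :=
    inferInstance
  rw [pullbackSpecIso_inv_snd, HasRingHomProperty.Spec_iff (P := @Smooth)] at h3
  have h4 := RingHom.Smooth.respectsIso.1 _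
    (Algebra.TensorProduct.comm O (ChartRing 𝔞 a) O').toRingEquiv h3
  rw [← RingHom.smooth_algebraMap]
  exact h4

end Chart

section Map

variable {K L O F : Type} [Field K] [Field L] [Algebra K L] [CommRing O] [Algebra O L] {n : ℕ}
  {σ : L ≃ₐ[K] L} {𝔞 : HomogeneousIdeal (homogeneousSubmodule (Fin n) O)} [Field F] [Algebra L F]
  [Algebra O F] [IsScalarTower O L F] (ιP : PairRing σ 𝔞 →ₐ[L] F)

theorem exists_affChart [IsNoetherianRing O] (a : Fin n) (ha : ιP (xCl σ 𝔞 a) ≠ 0)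
    (hfl : Flat (projTo O (coordGr 𝔞)))
    (hreg : ∀ y : ProjectiveSpectrum (coordGr 𝔞),
      IsRegularLocalRing ((Proj (coordGr 𝔞)).presheaf.stalk y)) :
    ∃ ρ : ChartRing 𝔞 a →ₐ[O] F, AffChart ιP a (chartX 𝔞 a) ρ := by
  let g₀ : MvPolynomial (Fin n) O →+* PairRing σ 𝔞 := (Ideal.Quotient.mk (pairIdeal σ 𝔞)).comp
    ((rename Sum.inl : MvPolynomial (Fin n) L →ₐ[L] MvPolynomial (Fin n ⊕ Fin n) L).toRingHom.comp
      (MvPolynomial.map (algebraMap O L)))
  have hg₀ : ∀ f ∈ 𝔞.toIdeal, g₀ f = 0 := by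
    intro f hf
    change Ideal.Quotient.mk _ (rename Sum.inl (MvPolynomial.map (algebraMap O L) f)) = 0
    rw [Ideal.Quotient.eq_zero_iff_mem]
    exact inl_mem_pairIdeal σ 𝔞 hf
  let g : CoordQuot 𝔞 →+* F := (ιP : PairRing σ 𝔞 →+* F).comp (Ideal.Quotient.lift _ g₀ hg₀)
  have hgX : ∀ k, g (sCl 𝔞 k) = ιP (xCl σ 𝔞 k) := by
    intro k
    change ιP (Ideal.Quotient.mk _ (rename Sum.inl (MvPolynomial.map (algebraMap O L) (X k)))) = _
    rw [map_X, rename_X]
    rfl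
  have hgC : ∀ c : O, g (algebraMap O (CoordQuot 𝔞) c) = algebraMap O F c := by
    intro c
    change ιP (Ideal.Quotient.mk _ (rename Sum.inl (MvPolynomial.map (algebraMap O L) (C c)))) = _
    rw [map_C, rename_C, IsScalarTower.algebraMap_apply O L F]
    exact ιP.commutes _
  have hu : IsUnit (g (sCl 𝔞 a)) := by
    rw [hgX]
    exact ha.isUnit
  let g' : Localization.Away (sCl 𝔞 a) →+* F := IsLocalization.Away.lift (sCl 𝔞 a) hu
  have hg' : ∀ z, g' (algebraMap _ _ z) = g z := fun z => IsLocalization.Away.lift_eq _ hu z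
  let ρ : ChartRing 𝔞 a →ₐ[O] F :=
    { g'.comp (chartVal 𝔞 a) with
      commutes' := fun c => by
        change g' (chartVal 𝔞 a (algebraMap O (ChartRing 𝔞 a) c)) = _
        rw [chartVal_algebraMap, hg', hgC] }
  refine ⟨ρ, chartX_self 𝔞 a, adjoin_chartX 𝔞 a, fun f hf => aeval_chartX 𝔞 a hf,
    flat_chartRing 𝔞 a hfl, isRegularRing_chartRing 𝔞 a hreg, fun k => ?_⟩
  change g' (chartVal 𝔞 a (chartX 𝔞 a k)) * ιP (xCl σ 𝔞 a) = ιP (xCl σ 𝔞 k)
  rw [chartVal_chartX', map_mul, hg', hgX, ← hgX a, ← hg' (sCl 𝔞 a), mul_right_comm, ← map_mul,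
    invS_mul, map_one, one_mul]

end Map

end Pool.Agent.Lib.MP_6a3dac_ag
end

section

/-!
# Smoothness of projective hypersurfaces from the Jacobian criterion
-/

set_option autoImplicit false
set_option linter.unusedSectionVars false

namespace Pool.Agent.Lib.MP_6a3dac_ag

open CategoryTheory Limits AlgebraicGeometry HomogeneousLocalization MvPolynomial

attribute [local instance] MvPolynomial.gradedAlgebra

/-- The Taylor formula modulo an ideal of square zero. -/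
theorem aeval_add_of_sq_zero {k B σ : Type} [CommRing k] [CommRing B] [Algebra k B] [Fintype σ]
    {y e : σ → B} (he : ∀ l m, e l * e m = 0) (f : MvPolynomial σ k) :
    aeval (fun l => y l + e l) f = aeval y f + ∑ l, e l * aeval y (pderiv l f) := by
  classical
  induction f using MvPolynomial.induction_on with
  | C a => simp
  | add p q hp hq =>
    simp only [map_add, hp, hq, mul_add, Finset.sum_add_distrib]
    ring
  | mul_X p m hp =>
    have h1 : ∑ l, e l * aeval y (pderiv l (p * X m)) =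
        e m * aeval y p + y m * ∑ l, e l * aeval y (pderiv l p) := by
      have h2 : ∀ l, e l * aeval y (pderiv l (p * X m)) =
          (if l = m then e m * aeval y p else 0) + y m * (e l * aeval y (pderiv l p)) := by
        intro l
        rw [Derivation.leibniz, pderiv_X, map_add]
        simp only [smul_eq_mul, map_mul, aeval_X]
        by_cases hl : l = m
        · subst hl
          rw [if_pos rfl, Pi.single_eq_same, map_one]
          ring
        · rw [if_neg hl, Pi.single_eq_of_ne (fun h => hl h.symm), map_zero]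
          ring
      rw [Finset.sum_congr rfl fun l _ => h2 l, Finset.sum_add_distrib, ← Finset.mul_sum,
        Finset.sum_ite_eq' Finset.univ m, if_pos (Finset.mem_univ m)]
    have h3 : (∑ l, e l * aeval y (pderiv l p)) * e m = 0 := by
      rw [Finset.sum_mul]
      refine Finset.sum_eq_zero fun l _ => ?_
      calc e l * aeval y (pderiv l p) * e m = (e l * e m) * aeval y (pderiv l p) := by ring
        _ = 0 := by rw [he, zero_mul]
    rw [map_mul, map_mul, aeval_X, aeval_X, hp, h1]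
    linear_combination h3

section

variable {k : Type} [CommRing k] {n : ℕ} (𝔞 : HomogeneousIdeal (homogeneousSubmodule (Fin n) k))
  {f : MvPolynomial (Fin n) k} {d : ℕ} (hf : f.IsHomogeneous d)
  (h𝔞 : 𝔞.toIdeal = Ideal.span {f})

include hf h𝔞

theorem formallySmooth_chartRing (a : Fin n) {K : ℕ}
    (hK : X a ^ K ∈ Ideal.span (insert f (Set.range fun l => pderiv l f))) :
    Algebra.FormallySmooth k (ChartRing 𝔞 a) := by
  classical
  apply Algebra.FormallySmooth.of_comp_surjective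
  intro B _ _ I hI g
  have hI2 : ∀ u ∈ I, ∀ v ∈ I, u * v = 0 := by
    intro u hu v hv
    have h1 : u * v ∈ I ^ 2 := by
      rw [pow_two]
      exact Ideal.mul_mem_mul hu hv
    rw [hI] at h1
    exact h1
  obtain ⟨c, b, hb, hcb⟩ := Ideal.mem_span_insert.mp hK
  obtain ⟨cl, hcl⟩ := (Ideal.mem_span_range_iff_exists_fun).mp hb
  choose y₀ hy₀ using fun l => Ideal.Quotient.mk_surjective (g (chartX 𝔞 a l))
  obtain ⟨y, hyd⟩ : ∃ y : Fin n → B, y = fun l => if l = a then 1 else y₀ l := ⟨_, rfl⟩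
  have hya : y a = 1 := by rw [hyd]; simp
  have hy : ∀ l, Ideal.Quotient.mk I (y l) = g (chartX 𝔞 a l) := by
    intro l
    by_cases hl : l = a
    · subst hl
      rw [hya, map_one, chartX_self, map_one]
    · rw [hyd]
      simp only [if_neg hl]
      exact hy₀ l
  have hmk : ∀ q : MvPolynomial (Fin n) k, Ideal.Quotient.mk I (aeval y q) =
      g (aeval (chartX 𝔞 a) q) := by
    intro q
    have h1 : (Ideal.Quotient.mkₐ k I).comp (aeval y) = g.comp (aeval (chartX 𝔞 a)) := by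
      apply MvPolynomial.algHom_ext
      intro l
      change Ideal.Quotient.mk I (aeval y (X l)) = g (aeval (chartX 𝔞 a) (X l))
      rw [aeval_X, aeval_X, hy]
    exact AlgHom.congr_fun h1 q
  have hfy : aeval y f ∈ I := by
    rw [← Ideal.Quotient.eq_zero_iff_mem, hmk, aeval_chartX 𝔞 a (by
      rw [h𝔞]; exact Ideal.subset_span rfl), map_zero]
  have hJ : 1 = aeval y c * aeval y f + ∑ l, aeval y (cl l) * aeval y (pderiv l f) := by
    have h1 := congrArg (aeval y) hcb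
    rw [map_pow, aeval_X, hya, one_pow, map_add, map_mul, ← hcl, map_sum] at h1
    rw [h1]
    simp only [map_mul]
  have hE : ∑ l, y l * aeval y (pderiv l f) = d * aeval y f := by
    have h1 := congrArg (aeval y) hf.sum_X_mul_pderiv
    rw [map_sum, map_nsmul, nsmul_eq_mul] at h1
    rw [← h1]
    simp only [map_mul, aeval_X]
  obtain ⟨e, hed⟩ : ∃ e : Fin n → B, e = fun l =>
    -(aeval y f) * (aeval y (cl l) - aeval y (cl a) * y l) := ⟨_, rfl⟩
  have he : ∀ l, e l ∈ I := by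
    intro l
    rw [hed]
    exact I.mul_mem_right _ (I.neg_mem hfy)
  have hea : e a = 0 := by
    rw [hed]
    simp only [hya]
    ring
  have hfe : aeval (fun l => y l + e l) f = 0 := by
    rw [aeval_add_of_sq_zero fun l m => hI2 _ (he l) _ (he m)]
    have h1 : ∑ l, e l * aeval y (pderiv l f) = -(aeval y f) *
        (∑ l, aeval y (cl l) * aeval y (pderiv l f) -
          aeval y (cl a) * ∑ l, y l * aeval y (pderiv l f)) := by
      rw [Finset.mul_sum, ← Finset.sum_sub_distrib, Finset.mul_sum, hed]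
      refine Finset.sum_congr rfl fun l _ => ?_
      ring
    have h2 : aeval y f * aeval y f = 0 := hI2 _ hfy _ hfy
    rw [h1, hE]
    linear_combination (aeval y f) * hJ + (aeval y c + aeval y (cl a) * d) * h2
  have hΨ₀ : ∀ q ∈ 𝔞.toIdeal, (aeval fun l => y l + e l : MvPolynomial (Fin n) k →ₐ[k] B) q = 0 := by
    intro q hq
    rw [h𝔞, Ideal.mem_span_singleton] at hq
    obtain ⟨q', rfl⟩ := hq
    rw [map_mul, hfe, zero_mul]
  let Ψ₀ : CoordQuot 𝔞 →ₐ[k] B := Ideal.Quotient.liftₐ 𝔞.toIdeal _ hΨ₀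
  have hΨX : ∀ l, Ψ₀ (sCl 𝔞 l) = y l + e l := by
    intro l
    change (aeval fun l => y l + e l : MvPolynomial (Fin n) k →ₐ[k] B) (X l) = _
    rw [aeval_X]
  have hΨa : Ψ₀ (sCl 𝔞 a) = 1 := by rw [hΨX, hya, hea, add_zero]
  have hunit : IsUnit ((Ψ₀ : CoordQuot 𝔞 →+* B) (sCl 𝔞 a)) := by
    change IsUnit (Ψ₀ (sCl 𝔞 a))
    rw [hΨa]
    exact isUnit_one
  let Ψ : Localization.Away (sCl 𝔞 a) →+* B := IsLocalization.Away.lift (sCl 𝔞 a) hunit
  have hΨ : ∀ z, Ψ (algebraMap (CoordQuot 𝔞) (Localization.Away (sCl 𝔞 a)) z) = Ψ₀ z :=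
    fun z => IsLocalization.Away.lift_eq (sCl 𝔞 a) hunit z
  have hΨinv : Ψ (invS 𝔞 a) = 1 := by
    have h1 := congrArg Ψ (invS_mul 𝔞 a)
    rwa [map_mul, hΨ, hΨa, mul_one, map_one] at h1
  let Φ : ChartRing 𝔞 a →ₐ[k] B :=
    { Ψ.comp (chartVal 𝔞 a) with
      commutes' := by
        intro r
        change Ψ (chartVal 𝔞 a (algebraMap k (ChartRing 𝔞 a) r)) = _
        rw [chartVal_algebraMap, hΨ, Ψ₀.commutes] }
  have hΦ : ∀ l, Φ (chartX 𝔞 a l) = y l + e l := by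
    intro l
    change Ψ (chartVal 𝔞 a (chartX 𝔞 a l)) = _
    rw [chartVal_chartX', map_mul, hΨinv, one_mul, hΨ, hΨX]
  refine ⟨Φ, AlgHom.ext_of_adjoin_eq_top (adjoin_chartX 𝔞 a) ?_⟩
  rintro _ ⟨l, rfl⟩
  change Ideal.Quotient.mk I (Φ (chartX 𝔞 a l)) = g (chartX 𝔞 a l)
  rw [hΦ, map_add, hy, Ideal.Quotient.eq_zero_iff_mem.mpr (he l), add_zero]

end

section

variable {k : Type} [Field k] {n : ℕ} (𝔞 : HomogeneousIdeal (homogeneousSubmodule (Fin n) k))
  {f : MvPolynomial (Fin n) k} {d : ℕ} (hf : f.IsHomogeneous d)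
  (h𝔞 : 𝔞.toIdeal = Ideal.span {f})

include hf h𝔞

theorem smooth_projTo_of_jac {K : ℕ}
    (hK : ∀ a, X a ^ K ∈ Ideal.span (insert f (Set.range fun l => pderiv l f))) :
    Smooth (projTo k (coordGr 𝔞)) := by
  have hirr : (HomogeneousIdeal.irrelevant (coordGr 𝔞)).toIdeal ≤
      Ideal.span (Set.range (sCl 𝔞)) := by
    rw [HomogeneousIdeal.toIdeal_irrelevant_le]
    intro i hi s hs
    obtain ⟨P, hP, rfl⟩ := hs
    change Ideal.Quotient.mk 𝔞.toIdeal P ∈ _
    rw [P.as_sum, map_sum]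
    refine Ideal.sum_mem _ fun m hm => ?_
    have h1 : m ≠ 0 := by
      rintro rfl
      have := hP (mem_support_iff.mp hm)
      simp at this
      omega
    obtain ⟨l, hl⟩ : ∃ l, m l ≠ 0 := by
      by_contra hcon
      push Not at hcon
      exact h1 (Finsupp.ext hcon)
    have h2 : ∀ c : k, monomial m c = X l * monomial (m - Finsupp.single l 1) c := by
      intro c
      conv_lhs => rw [← Finsupp.sub_add_single_one_cancel hl, monomial_add_single, pow_one]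
      rw [mul_comm]
    rw [h2, map_mul]
    exact Ideal.mul_mem_right _ _ (Ideal.subset_span ⟨l, rfl⟩)
  rw [IsZariskiLocalAtSource.iff_of_openCover (P := @Smooth)
    (Proj.affineOpenCoverOfIrrelevantLESpan (coordGr 𝔞) (sCl 𝔞) (m := fun _ => 1)
      (sCl_mem 𝔞) (fun _ => one_pos) hirr).openCover]
  intro a
  change Smooth (Proj.awayι (coordGr 𝔞) (sCl 𝔞 a) (sCl_mem 𝔞 a) one_pos ≫ projTo k (coordGr 𝔞))
  rw [awayι_projTo, HasRingHomProperty.Spec_iff (P := @Smooth)]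
  change (algebraMap k (ChartRing 𝔞 a)).Smooth
  rw [RingHom.smooth_algebraMap]
  have h1 := formallySmooth_chartRing 𝔞 hf h𝔞 a (hK a)
  have hft : Algebra.FiniteType k (ChartRing 𝔞 a) := by
    refine ⟨⟨(Set.finite_range (chartX 𝔞 a)).toFinset, ?_⟩⟩
    rw [Set.Finite.coe_toFinset]
    exact adjoin_chartX 𝔞 a
  have hfp : Algebra.FinitePresentation k (ChartRing 𝔞 a) :=
    Algebra.FinitePresentation.of_finiteType.mp hft
  exact ⟨h1, hfp⟩

end

end Pool.Agent.Lib.MP_6a3dac_ag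
end
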