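import Pool.Agent.Lib.MP_6a3dac_ag.Mg.G005
import Pool.Agent.Lib.MP_6a3dac_ag.Mg.G002
import Pool.Agent.Lib.MP_6a3dac_ag.Mg.G067

section

/-!
# Homogeneous ideals with given stalks at finitely many closed points
-/

set_option autoImplicit false

namespace Pool.Agent.Lib.MP_6a3dac_ag.Maj

open MvPolynomial
open Pool.Agent.Lib.MP_6a3dac_ag.DNF

theorem z2_point {O : Type} [CommRing O] [IsDomain O] [IsDiscreteValuationRing O] {n : ℕ}
    {ϖ : O} (hϖ : Irreducible ϖ)
    (z : Σ i : Fin (n + 1), Ideal (MvPolynomial {l : Fin (n + 1) // l ≠ i} O))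
    (hq : z.2.IsMaximal) (hc : C ϖ ∈ z.2)
    (hX : ∀ (l : Fin (n + 1)) (hl : l < z.1), X ⟨l, hl.ne⟩ ∈ z.2) (j : ℕ)
    (J : Ideal (MvPolynomial {l : Fin (n + 1) // l ≠ z.1} O)) (hJ : z.2 ^ j ≤ J) :
    ∃ F : Finset (MvPolynomial (Fin (n + 1)) O), (∀ h ∈ F, ∃ N, h.IsHomogeneous N) ∧
      (∀ h ∈ F, dehom z.1 h ∈ J) ∧
      (∀ x ∈ J, x ∈ Ideal.span {w | ∃ h ∈ F, w = dehom z.1 h}) ∧
      ∀ y : Σ i : Fin (n + 1), Ideal (MvPolynomial {l : Fin (n + 1) // l ≠ i} O),
        y.2.IsPrime → C ϖ ∈ y.2 → (∀ (l : Fin (n + 1)) (hl : l < y.1), X ⟨l, hl.ne⟩ ∈ y.2) →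
        y ≠ z → ∃ h ∈ F, dehom y.1 h ∉ y.2 := by
  classical
  obtain ⟨F0, hF1, hF2, _, hF4⟩ := z1_point hϖ z hq hc hX
  obtain ⟨T, hT⟩ : ∃ T : Finset (MvPolynomial {l : Fin (n + 1) // l ≠ z.1} O),
      Ideal.span (T : Set (MvPolynomial {l : Fin (n + 1) // l ≠ z.1} O)) = J :=
    (isNoetherianRing_iff_ideal_fg _).mp inferInstance J
  choose N H hH hHi using exists_homog (O := O) z.1
  refine ⟨(T.image H) ∪ (F0.image fun h => h ^ j), ?_, ?_, ?_, ?_⟩
  · intro h hh
    rw [Finset.mem_union, Finset.mem_image, Finset.mem_image] at hh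
    rcases hh with ⟨t, _, rfl⟩ | ⟨l, hl, rfl⟩
    · exact ⟨_, hH t⟩
    · obtain ⟨N', hN'⟩ := hF1 l hl
      exact ⟨_, hN'.pow j⟩
  · intro h hh
    rw [Finset.mem_union, Finset.mem_image, Finset.mem_image] at hh
    rcases hh with ⟨t, ht, rfl⟩ | ⟨l, hl, rfl⟩
    · rw [hHi, ← hT]
      exact Ideal.subset_span ht
    · rw [map_pow]
      exact hJ (Ideal.pow_mem_pow (hF2 l hl) j)
  · intro x hx
    rw [← hT] at hx
    refine Ideal.span_mono ?_ hx
    intro t ht
    refine ⟨H t, ?_, (hHi t).symm⟩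
    rw [Finset.mem_union]
    exact Or.inl (Finset.mem_image_of_mem _ ht)
  · intro y hy1 hy2 hy3 hyz
    obtain ⟨h, hh, hhy⟩ := hF4 y hy1 hy2 hy3 hyz
    refine ⟨h ^ j, ?_, ?_⟩
    · rw [Finset.mem_union]
      exact Or.inr (Finset.mem_image_of_mem (fun h => h ^ j) hh)
    · rw [map_pow]
      exact fun h1 => hhy (hy1.mem_of_pow_mem _ h1)

theorem z2_all {O : Type} [CommRing O] [IsDomain O] [IsDiscreteValuationRing O] {n : ℕ}
    {ϖ : O} (hϖ : Irreducible ϖ)
    (S : Set (Σ i : Fin (n + 1), Ideal (MvPolynomial {l : Fin (n + 1) // l ≠ i} O)))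
    (hS : S.Finite) (hmem : ∀ z ∈ S, z.2.IsMaximal ∧ C ϖ ∈ z.2 ∧
      ∀ (l : Fin (n + 1)) (hl : l < z.1), X ⟨l, hl.ne⟩ ∈ z.2) (j : ℕ)
    (J : ∀ z : (Σ i : Fin (n + 1), Ideal (MvPolynomial {l : Fin (n + 1) // l ≠ i} O)),
      Ideal (MvPolynomial {l : Fin (n + 1) // l ≠ z.1} O))
    (hJ : ∀ z ∈ S, z.2 ^ j ≤ J z) :
    ∃ G : Finset (MvPolynomial (Fin (n + 1)) O), (∀ g ∈ G, ∃ N, g.IsHomogeneous N) ∧
      (∀ z ∈ S, ∀ g ∈ G, dehom z.1 g ∈ J z) ∧
      (∀ z ∈ S, ∀ x ∈ J z, ∃ s, s ∉ z.2 ∧
        s * x ∈ Ideal.span {w | ∃ g ∈ G, w = dehom z.1 g}) ∧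
      ∀ y : Σ i : Fin (n + 1), Ideal (MvPolynomial {l : Fin (n + 1) // l ≠ i} O),
        y.2.IsPrime → C ϖ ∈ y.2 → (∀ (l : Fin (n + 1)) (hl : l < y.1), X ⟨l, hl.ne⟩ ∈ y.2) →
        y ∉ S → ∃ g ∈ G, dehom y.1 g ∉ y.2 := by
  classical
  induction S, hS using Set.Finite.induction_on with
  | empty =>
    refine ⟨{1}, ?_, ?_, ?_, ?_⟩
    · intro g hg
      rw [Finset.mem_singleton] at hg
      subst hg
      exact ⟨0, isHomogeneous_one _ _⟩
    · intro z hz
      exact absurd hz (Set.notMem_empty z)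
    · intro z hz
      exact absurd hz (Set.notMem_empty z)
    · intro y hy _ _ _
      refine ⟨1, Finset.mem_singleton_self _, ?_⟩
      rw [map_one]
      exact fun h => hy.ne_top ((Ideal.eq_top_iff_one _).mpr h)
  | @insert z S hzS _ ih =>
    obtain ⟨G, hG1, hG2, hG3, hG4⟩ := ih (fun w hw => hmem w (Set.mem_insert_of_mem _ hw))
      fun w hw => hJ w (Set.mem_insert_of_mem _ hw)
    obtain ⟨hz1, hz2, hz3⟩ := hmem z (Set.mem_insert _ _)
    obtain ⟨F, hF1, hF2, hF3, hF4⟩ := z2_point hϖ z hz1 hz2 hz3 j (J z)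
      (hJ z (Set.mem_insert _ _))
    have hmul : ∀ (y : Σ i : Fin (n + 1), Ideal (MvPolynomial {l : Fin (n + 1) // l ≠ i} O))
        (x : MvPolynomial {l : Fin (n + 1) // l ≠ y.1} O) (h : MvPolynomial (Fin (n + 1)) O),
        h ∈ F → x ∈ Ideal.span {w | ∃ g ∈ G, w = dehom y.1 g} →
        dehom y.1 h * x ∈ Ideal.span {w | ∃ g ∈ Finset.image₂ (· * ·) G F,
          w = dehom y.1 g} := by
      intro y x h hh hx
      induction hx using Submodule.span_induction with
      | mem x hx =>
        obtain ⟨g, hg, rfl⟩ := hx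
        rw [← map_mul, mul_comm]
        exact Ideal.subset_span ⟨g * h, Finset.mem_image₂.mpr ⟨g, hg, h, hh, rfl⟩, rfl⟩
      | zero => rw [mul_zero]; exact Ideal.zero_mem _
      | add a b _ _ ha hb => rw [mul_add]; exact Ideal.add_mem _ ha hb
      | smul a b _ hb =>
        rw [smul_eq_mul, mul_left_comm]
        exact Ideal.mul_mem_left _ _ hb
    have hmul' : ∀ (y : Σ i : Fin (n + 1), Ideal (MvPolynomial {l : Fin (n + 1) // l ≠ i} O))
        (x : MvPolynomial {l : Fin (n + 1) // l ≠ y.1} O) (g : MvPolynomial (Fin (n + 1)) O),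
        g ∈ G → x ∈ Ideal.span {w | ∃ h ∈ F, w = dehom y.1 h} →
        dehom y.1 g * x ∈ Ideal.span {w | ∃ g ∈ Finset.image₂ (· * ·) G F,
          w = dehom y.1 g} := by
      intro y x g hg hx
      induction hx using Submodule.span_induction with
      | mem x hx =>
        obtain ⟨h, hh, rfl⟩ := hx
        rw [← map_mul]
        exact Ideal.subset_span ⟨g * h, Finset.mem_image₂.mpr ⟨g, hg, h, hh, rfl⟩, rfl⟩
      | zero => rw [mul_zero]; exact Ideal.zero_mem _
      | add a b _ _ ha hb => rw [mul_add]; exact Ideal.add_mem _ ha hb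
      | smul a b _ hb =>
        rw [smul_eq_mul, mul_left_comm]
        exact Ideal.mul_mem_left _ _ hb
    refine ⟨Finset.image₂ (· * ·) G F, ?_, ?_, ?_, ?_⟩
    · intro g hg
      obtain ⟨a, ha, b, hb, rfl⟩ := Finset.mem_image₂.mp hg
      obtain ⟨N, hN⟩ := hG1 a ha
      obtain ⟨N', hN'⟩ := hF1 b hb
      exact ⟨N + N', hN.mul hN'⟩
    · intro w hw g hg
      obtain ⟨a, ha, b, hb, rfl⟩ := Finset.mem_image₂.mp hg
      rw [map_mul]
      rcases Set.mem_insert_iff.mp hw with rfl | hw
      · exact Ideal.mul_mem_left _ _ (hF2 b hb)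
      · exact Ideal.mul_mem_right _ _ (hG2 w hw a ha)
    · intro w hw x hx
      rcases Set.mem_insert_iff.mp hw with rfl | hw'
      · obtain ⟨g, hg, hgw⟩ := hG4 w hz1.isPrime hz2 hz3 hzS
        exact ⟨dehom w.1 g, hgw, hmul' w x g hg (hF3 x hx)⟩
      · obtain ⟨s, hs, hsx⟩ := hG3 w hw' x hx
        obtain ⟨hw1, hw2, hw3⟩ := hmem w hw
        have hne : w ≠ z := by
          rintro rfl
          exact hzS hw'
        obtain ⟨h, hh, hhw⟩ := hF4 w hw1.isPrime hw2 hw3 hne
        refine ⟨dehom w.1 h * s, ?_, ?_⟩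
        · intro h1
          rcases hw1.isPrime.mem_or_mem h1 with h2 | h2
          · exact hhw h2
          · exact hs h2
        · rw [mul_assoc]
          exact hmul w _ h hh hsx
    · intro y hy1 hy2 hy3 hyS
      have hyz : y ≠ z := fun h => hyS (h ▸ Set.mem_insert _ _)
      have hyS' : y ∉ S := fun h => hyS (Set.mem_insert_of_mem _ h)
      obtain ⟨g, hg, hgy⟩ := hG4 y hy1 hy2 hy3 hyS'
      obtain ⟨h, hh, hhy⟩ := hF4 y hy1 hy2 hy3 hyz
      refine ⟨g * h, Finset.mem_image₂.mpr ⟨g, hg, h, hh, rfl⟩, ?_⟩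
      rw [map_mul]
      intro h1
      rcases hy1.mem_or_mem h1 with h2 | h2
      · exact hgy h2
      · exact hhy h2

/-- Generalizes `exists_centre` of Centre.lean, which is the case `I z 1 = z.2`. For each
`j` take the homogeneous ideal generated by the forms `h` such that `dehom z.1 h` lies locally in
`I z j` for all `z ∈ S`; take `δ` larger than the degrees of generators for all `1 ≤ j ≤ r`. -/
theorem exists_centre2 {O : Type} [CommRing O] [IsDomain O] [IsDiscreteValuationRing O] {n : ℕ}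
    {ϖ : O} (hϖ : Irreducible ϖ)
    (S : Set (Σ i : Fin (n + 1), Ideal (MvPolynomial {l : Fin (n + 1) // l ≠ i} O)))
    (hS : S.Finite) (hmem : ∀ z ∈ S, z.2.IsMaximal ∧ C ϖ ∈ z.2 ∧
      ∀ (l : Fin (n + 1)) (hl : l < z.1), X ⟨l, hl.ne⟩ ∈ z.2) (r : ℕ)
    (I : ∀ z : (Σ i : Fin (n + 1), Ideal (MvPolynomial {l : Fin (n + 1) // l ≠ i} O)), ℕ →
      Ideal (MvPolynomial {l : Fin (n + 1) // l ≠ z.1} O))
    (hI : ∀ z ∈ S, ∀ j, 1 ≤ j → z.2 ^ j ≤ I z j) :
    ∃ (δ : ℕ) (G : ℕ → Finset (MvPolynomial (Fin (n + 1)) O)), 1 ≤ δ ∧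
      (∀ j, ∀ g ∈ G j, g.IsHomogeneous δ) ∧
      ∀ j, 1 ≤ j → j ≤ r → ∀ (i : Fin (n + 1))
        (𝔮 : Ideal (MvPolynomial {l : Fin (n + 1) // l ≠ i} O)), 𝔮.IsPrime →
        C ϖ ∈ 𝔮 → (∀ (l : Fin (n + 1)) (hl : l < i), X ⟨l, hl.ne⟩ ∈ 𝔮) →
        ((⟨i, 𝔮⟩ ∈ S ∧ (∀ g ∈ G j, ∃ s, s ∉ 𝔮 ∧ s * dehom i g ∈ I ⟨i, 𝔮⟩ j) ∧
            ∀ z ∈ I ⟨i, 𝔮⟩ j, ∃ s, s ∉ 𝔮 ∧
              s * z ∈ Ideal.span (insert (C ϖ ^ j) {w | ∃ g ∈ G j, w = dehom i g})) ∨
          (⟨i, 𝔮⟩ ∉ S ∧ ∃ g ∈ G j, dehom i g ∉ 𝔮)) := by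
  classical
  have hex : ∀ j : ℕ, ∃ G : Finset (MvPolynomial (Fin (n + 1)) O), 1 ≤ j →
      ((∀ g ∈ G, ∃ N, g.IsHomogeneous N) ∧
      (∀ z ∈ S, ∀ g ∈ G, dehom z.1 g ∈ I z j) ∧
      (∀ z ∈ S, ∀ x ∈ I z j, ∃ s, s ∉ z.2 ∧
        s * x ∈ Ideal.span {w | ∃ g ∈ G, w = dehom z.1 g}) ∧
      ∀ y : Σ i : Fin (n + 1), Ideal (MvPolynomial {l : Fin (n + 1) // l ≠ i} O),
        y.2.IsPrime → C ϖ ∈ y.2 → (∀ (l : Fin (n + 1)) (hl : l < y.1), X ⟨l, hl.ne⟩ ∈ y.2) →
        y ∉ S → ∃ g ∈ G, dehom y.1 g ∉ y.2) := by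
    intro j
    by_cases hj : 1 ≤ j
    · obtain ⟨G, hG⟩ := z2_all hϖ S hS hmem j (fun z => I z j) fun z hz => hI z hz j hj
      exact ⟨G, fun _ => hG⟩
    · exact ⟨∅, fun h => absurd h hj⟩
  choose G0 hG0 using hex
  have hdeg : ∀ g : MvPolynomial (Fin (n + 1)) O, ∃ N, (∃ j, 1 ≤ j ∧ g ∈ G0 j) →
      g.IsHomogeneous N := by
    intro g
    by_cases hg : ∃ j, 1 ≤ j ∧ g ∈ G0 j
    · obtain ⟨j, hj, hgj⟩ := hg
      obtain ⟨N, hN⟩ := (hG0 j hj).1 g hgj
      exact ⟨N, fun _ => hN⟩
    · exact ⟨0, fun h => absurd h hg⟩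
  choose N hN using hdeg
  set δ : ℕ := ((Finset.range (r + 1)).biUnion G0).sup N + 1 with hδ
  have hle : ∀ j, j ≤ r → ∀ g ∈ G0 j, N g ≤ δ := fun j hj g hg =>
    (Finset.le_sup (f := N) (Finset.mem_biUnion.mpr
      ⟨j, Finset.mem_range.mpr (Nat.lt_succ_of_le hj), hg⟩)).trans (Nat.le_succ _)
  refine ⟨δ, fun j => if 1 ≤ j ∧ j ≤ r then
    Finset.image₂ (fun g k => g * X k ^ (δ - N g)) (G0 j) Finset.univ else ∅,
    Nat.le_add_left _ _, ?_, ?_⟩
  · intro j g hg
    by_cases hj : 1 ≤ j ∧ j ≤ r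
    · simp only [hj, and_self, if_true] at hg
      obtain ⟨a, ha, k, _, rfl⟩ := Finset.mem_image₂.mp hg
      have h1 : ((X k : MvPolynomial (Fin (n + 1)) O) ^ (δ - N a)).IsHomogeneous (δ - N a) := by
        simpa using (isHomogeneous_X O k).pow (δ - N a)
      have h2 := (hN a ⟨j, hj.1, ha⟩).mul h1
      rwa [Nat.add_sub_cancel' (hle j hj.2 a ha)] at h2
    · simp only [hj, if_false] at hg
      exact absurd hg (Finset.notMem_empty _)
  · intro j hj1 hjr i 𝔮 hq hc hX
    have hj : 1 ≤ j ∧ j ≤ r := ⟨hj1, hjr⟩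
    simp only [hj, and_self, if_true]
    obtain ⟨_, hG2, hG3, hG4⟩ := hG0 j hj1
    have hkey : ∀ g ∈ G0 j, dehom i (g * X i ^ (δ - N g)) = dehom i g := by
      intro g _
      rw [map_mul, map_pow, dehom_X_self, one_pow, mul_one]
    have hin : ∀ g ∈ G0 j, g * X i ^ (δ - N g) ∈
        Finset.image₂ (fun g k => g * X k ^ (δ - N g)) (G0 j) Finset.univ := fun g hg =>
      Finset.mem_image₂.mpr ⟨g, hg, i, Finset.mem_univ _, rfl⟩
    by_cases hmemS : (⟨i, 𝔮⟩ :
        Σ i : Fin (n + 1), Ideal (MvPolynomial {l : Fin (n + 1) // l ≠ i} O)) ∈ S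
    · left
      refine ⟨hmemS, ?_, ?_⟩
      · intro g hg
        obtain ⟨a, ha, k, _, rfl⟩ := Finset.mem_image₂.mp hg
        refine ⟨1, fun h => hq.ne_top ((Ideal.eq_top_iff_one _).mpr h), ?_⟩
        rw [one_mul, map_mul]
        exact Ideal.mul_mem_right _ _ (hG2 _ hmemS a ha)
      · intro x hx
        obtain ⟨s, hs, hsx⟩ := hG3 _ hmemS x hx
        refine ⟨s, hs, Ideal.span_mono ?_ hsx⟩
        rintro w ⟨g, hg, rfl⟩
        exact Set.mem_insert_of_mem _ ⟨_, hin g hg, (hkey g hg).symm⟩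
    · right
      obtain ⟨g, hg, hgy⟩ := hG4 ⟨i, 𝔮⟩ hq hc hX hmemS
      exact ⟨hmemS, _, hin g hg, by rw [hkey g hg]; exact hgy⟩

end Pool.Agent.Lib.MP_6a3dac_ag.Maj
end

section

/-!
# The two kinds of charts
-/

set_option autoImplicit false

namespace Pool.Agent.Lib.MP_6a3dac_ag.Maj

open IsLocalRing
open Pool.Agent.Lib.MP_6a3dac_ag

/-- As `chart_cases` of QWChart.lean; `t` is not a unit because `k` is the largest exponent
such that `a ^ k` divides all elements of `Z`. -/
theorem chart_cases2 {D : Type} [CommRing D] [IsDomain D] [IsLocalRing D] {R : Subring D} {a : D}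
    (ha : a ∈ R) (ha0 : a ≠ 0) {r : ℕ} {Z : Finset D} (b : ℕ → D)
    (hb : ∀ j, 1 ≤ j → j ≤ r → b j ≠ 0 ∧ InJ R a Z j (b j) ∧ b j ∣ a ^ j ∧ ∀ z ∈ Z, b j ∣ z)
    (hgen : ∀ R' : Subring D, Dom R' → R ≤ R' →
      (∀ j, 1 ≤ j → j ≤ r → ∀ x, InJ R a Z j x → ∀ w, b j * w = x → w ∈ R') → R' = ⊤) :
    (∃ w : D → D, (∀ z ∈ Z, a ^ r * w z = z) ∧
      ∀ R' : Subring D, Dom R' → R ≤ R' → (∀ z ∈ Z, w z ∈ R') → R' = ⊤) ∨
    ∃ k < r, ∃ u ∈ Z, ∃ (v t : D) (w : D → D), ¬ IsUnit t ∧ a ^ k * v = u ∧ v * t = a ∧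
      (∀ z ∈ Z, u * w z = z) ∧
      ∀ R' : Subring D, Dom R' → R ≤ R' → v ∈ R' → t ∈ R' → (∀ z ∈ Z, w z ∈ R') → R' = ⊤ := by
  classical
  -- reduction of the generation property
  have hred : ∀ (R' : Subring D), Dom R' → R ≤ R' → ∀ g : ℕ → D,
      (∀ j, 1 ≤ j → j ≤ r → g j ≠ 0 ∧ b j ∣ g j ∧ (∃ q ∈ R', a ^ j = g j * q) ∧
        ∀ z ∈ Z, ∃ q ∈ R', z = g j * q) → R' = ⊤ := by
    intro R' hR' hle g hg
    apply hgen R' hR' hle
    intro j h1 h2 x hx w hw
    obtain ⟨g1, ⟨γ, g2⟩, g3, g4⟩ := hg j h1 h2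
    obtain ⟨hb0, hb1, -, -⟩ := hb j h1 h2
    obtain ⟨q, hq, hxq⟩ := hx.dvd hle g3 g4
    obtain ⟨β, hβ, hbβ⟩ := hb1.dvd hle g3 g4
    have h3 : β * γ = 1 := by
      apply mul_left_cancel₀ g1
      rw [mul_one, ← mul_assoc, ← hbβ]
      exact g2.symm
    have hγ : γ ∈ R' := hR' β hβ γ h3
    have h4 : w = γ * q := by
      have h5 : q = β * w := by
        apply mul_left_cancel₀ g1
        rw [← hxq, ← mul_assoc, ← hbβ]
        exact hw.symm
      rw [h5, ← mul_assoc, mul_comm γ β, h3, one_mul]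
    rw [h4]
    exact R'.mul_mem hγ hq
  by_cases hall : ∀ z ∈ Z, a ^ r ∣ z
  · left
    choose! w hw using hall
    refine ⟨w, fun z hz => (hw z hz).symm, ?_⟩
    intro R' hR' hle hwR
    apply hred R' hR' hle fun j => a ^ j
    intro j h1 h2
    refine ⟨pow_ne_zero _ ha0, (hb j h1 h2).2.2.1, ⟨1, R'.one_mem, (mul_one _).symm⟩, ?_⟩
    intro z hz
    refine ⟨a ^ (r - j) * w z, R'.mul_mem (R'.pow_mem (hle ha) _) (hwR z hz), ?_⟩
    rw [← mul_assoc, ← pow_add, Nat.add_sub_cancel' h2]
    exact hw z hz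
  · right
    -- the largest power of `a` dividing all elements of `Z`
    let P : ℕ → Prop := fun j => ∀ z ∈ Z, a ^ j ∣ z
    have hP0 : P 0 := fun z _ => by rw [pow_zero]; exact one_dvd z
    obtain ⟨k, hk⟩ : ∃ k, k = Nat.findGreatest P r := ⟨_, rfl⟩
    have hPk : P k := hk ▸ Nat.findGreatest_spec (Nat.zero_le r) hP0
    have hkr : k ≤ r := hk ▸ Nat.findGreatest_le r
    have hkr' : k < r := by
      refine lt_of_le_of_ne hkr ?_
      rintro rfl
      exact hall hPk
    have hPk1 : ¬ P (k + 1) := by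
      intro h
      have := Nat.le_findGreatest (P := P) hkr' h
      omega
    obtain ⟨hb0, ⟨c₀, hc₀, c, hc, hbc⟩, ⟨e₀, he₀⟩, hbz⟩ := hb (k + 1) (by omega) hkr'
    choose! e he using hbz
    have h1 : c₀ * e₀ + ∑ z ∈ Z, c z * e z = 1 := by
      apply mul_left_cancel₀ hb0
      rw [mul_one, mul_add, Finset.mul_sum]
      conv_rhs => rw [hbc, he₀]
      congr 1
      · ring
      · exact Finset.sum_congr rfl fun z hz => by linear_combination (-(c z)) * he z hz
    have hu : ∃ z ∈ Z, IsUnit (e z) := by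
      by_contra hcon
      push Not at hcon
      have h2 : ∑ z ∈ Z, c z * e z ∈ maximalIdeal D := Ideal.sum_mem _ fun z hz =>
        Ideal.mul_mem_left _ _ ((IsLocalRing.mem_maximalIdeal _).mpr (hcon z hz))
      have h3 : IsUnit e₀ := by
        by_contra h3
        have h4 : c₀ * e₀ ∈ maximalIdeal D :=
          Ideal.mul_mem_left _ _ ((IsLocalRing.mem_maximalIdeal _).mpr h3)
        have h5 := Ideal.add_mem _ h4 h2
        rw [h1] at h5
        exact (maximalIdeal.isMaximal D).ne_top ((Ideal.eq_top_iff_one _).mpr h5)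
      apply hPk1
      intro z hz
      have h4 : a ^ (k + 1) ∣ b (k + 1) := by
        obtain ⟨e', he'⟩ := h3.exists_right_inv
        refine ⟨e', ?_⟩
        rw [he₀, mul_assoc, he', mul_one]
      exact h4.trans ⟨e z, he z hz⟩
    obtain ⟨u, huZ, hu⟩ := hu
    obtain ⟨u', hu'⟩ := hu.exists_right_inv
    have hub : u ∣ b (k + 1) := ⟨u', by rw [he u huZ, mul_assoc, hu', mul_one]⟩
    have hu0 : u ≠ 0 := by
      rintro h0
      rw [h0, zero_dvd_iff] at hub
      exact hb0 hub
    obtain ⟨v, hv⟩ := hPk u huZ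
    have hut : u ∣ a ^ (k + 1) := hub.trans ⟨e₀, he₀⟩
    obtain ⟨t, ht⟩ := hut
    have huz : ∀ z ∈ Z, u ∣ z := fun z hz => hub.trans ⟨e z, he z hz⟩
    choose! w hw using huz
    have hvt : v * t = a := by
      apply mul_left_cancel₀ (pow_ne_zero k ha0)
      rw [← mul_assoc, ← hv, ← ht, pow_succ]
    have htu : ¬ IsUnit t := by
      intro htu
      obtain ⟨t', ht'⟩ := htu.exists_right_inv
      apply hPk1
      intro z hz
      have h5 : a ^ (k + 1) ∣ u := by
        refine ⟨t', ?_⟩
        rw [ht, mul_assoc, ht', mul_one]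
      exact h5.trans ⟨w z, hw z hz⟩
    refine ⟨k, hkr', u, huZ, v, t, w, htu, hv.symm, hvt, fun z hz => (hw z hz).symm, ?_⟩
    intro R' hR' hle hvR htR hwR
    apply hred R' hR' hle fun j => if j ≤ k then a ^ j else u
    intro j h2 h3
    by_cases hjk : j ≤ k
    · simp only [if_pos hjk]
      refine ⟨pow_ne_zero _ ha0, (hb j h2 h3).2.2.1, ⟨1, R'.one_mem, (mul_one _).symm⟩, ?_⟩
      intro z hz
      refine ⟨a ^ (k - j) * v * w z, R'.mul_mem (R'.mul_mem (R'.pow_mem (hle ha) _) hvR)
        (hwR z hz), ?_⟩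
      have h4 : a ^ k = a ^ j * a ^ (k - j) := by rw [← pow_add, Nat.add_sub_cancel' hjk]
      conv_lhs => rw [hw z hz, hv, h4]
      ring
    · simp only [if_neg hjk]
      push Not at hjk
      refine ⟨hu0, (hb j h2 h3).2.2.2 u huZ, ?_, fun z hz => ⟨w z, hwR z hz, hw z hz⟩⟩
      refine ⟨t * a ^ (j - (k + 1)), R'.mul_mem htR (R'.pow_mem (hle ha) _), ?_⟩
      rw [← mul_assoc, ← ht, ← pow_add]
      congr 1
      omega

end Pool.Agent.Lib.MP_6a3dac_ag.Maj
end

section

/-!
# The number of nondegenerate quadratic forms over a finite field of characteristic two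
-/

set_option autoImplicit false

namespace Pool.Agent.Lib.MP_6a3dac_ag.Maj

section C2

open Matrix

variable {κ : Type} [Field κ]

/-- the polar form is nondegenerate -/
def c2_B {ι : Type} [Fintype ι] (c : ι → ι → κ) : Prop := ∀ v : ι → κ, v ≠ 0 → ∃ k, qd c v k ≠ 0

/-- substitution -/
def c2_sub {ι J : Type} [Fintype ι] (c : ι → ι → κ) (S : Matrix ι J κ) : J → J → κ :=
  (Sᵀ * (Matrix.of c) * S : Matrix J J κ)

theorem c2_qf_eq {ι : Type} [Fintype ι] (c : ι → ι → κ) (v : ι → κ) :
    qf c v = v ⬝ᵥ ((Matrix.of c) *ᵥ v) := by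
  simp only [qf, dotProduct, mulVec, Matrix.of_apply, Finset.mul_sum]
  refine Finset.sum_congr rfl (fun j _ => Finset.sum_congr rfl (fun k _ => ?_))
  ring

theorem c2_qd_eq {ι : Type} [Fintype ι] (c : ι → ι → κ) (v : ι → κ) (k : ι) :
    qd c v k = ((Matrix.of c + (Matrix.of c)ᵀ) *ᵥ v) k := by
  simp only [qd, mulVec, dotProduct, Matrix.add_apply, Matrix.transpose_apply, Matrix.of_apply]
  refine Finset.sum_congr rfl (fun j _ => ?_)
  ring

theorem c2_qf_sub {ι J : Type} [Fintype ι] [Fintype J] (c : ι → ι → κ) (S : Matrix ι J κ)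
    (w : J → κ) : qf (c2_sub c S) w = qf c (S *ᵥ w) := by
  rw [c2_qf_eq, c2_qf_eq]
  show w ⬝ᵥ ((Sᵀ * (Matrix.of c) * S) *ᵥ w) = _
  rw [← Matrix.mulVec_mulVec, ← Matrix.mulVec_mulVec, Matrix.dotProduct_mulVec,
    Matrix.vecMul_transpose]

theorem c2_qd_sub {ι J : Type} [Fintype ι] [Fintype J] (c : ι → ι → κ) (S : Matrix ι J κ)
    (w : J → κ) (k : J) :
    qd (c2_sub c S) w k = ∑ i, S i k * qd c (S *ᵥ w) i := by
  rw [c2_qd_eq]
  have h1 : (Matrix.of (c2_sub c S) + (Matrix.of (c2_sub c S))ᵀ : Matrix J J κ) =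
      Sᵀ * (Matrix.of c + (Matrix.of c)ᵀ) * S := by
    show ((Sᵀ * (Matrix.of c) * S) + (Sᵀ * (Matrix.of c) * S)ᵀ : Matrix J J κ) = _
    rw [Matrix.transpose_mul, Matrix.transpose_mul, Matrix.transpose_transpose, Matrix.mul_add,
      Matrix.add_mul]
    simp only [Matrix.mul_assoc]
  rw [h1, ← Matrix.mulVec_mulVec, ← Matrix.mulVec_mulVec]
  show (Sᵀ *ᵥ _) k = _
  rw [Matrix.mulVec, dotProduct]
  refine Finset.sum_congr rfl (fun i _ => ?_)
  rw [c2_qd_eq, Matrix.transpose_apply]

/-- the diagonal entries cancel in characteristic two -/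
theorem c2_two (h2 : (2 : κ) = 0) (x : κ) : x + x = 0 := by
  rw [← two_mul, h2, zero_mul]

/-- polar with the first vector -/
def c2_ell {I : Type} (c : Option I → Option I → κ) : I → κ := fun k => c none (some k) + c (some k) none

variable {J : Type} [Fintype J]

theorem c2_qd_none (h2 : (2 : κ) = 0) {I : Type} [Fintype I] (c : Option I → Option I → κ)
    (v : Option I → κ) : qd c v none = ∑ i, c2_ell c i * v (some i) := by
  rw [qd, Fintype.sum_option, c2_two h2, zero_mul, zero_add]
  refine Finset.sum_congr rfl (fun i _ => ?_)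
  rw [c2_ell, add_comm (c none (some i))]

/-- the substitution matrix -/
noncomputable def c2_S [DecidableEq J] (c : Option (Option J) → Option (Option J) → κ) :
    Matrix (Option (Option J)) J κ := fun o j =>
  match o with
  | none => (c (some none) (some (some j)) + c (some (some j)) (some none)) / c2_ell c none
  | some none => c2_ell c (some j) / c2_ell c none
  | some (some i) => if i = j then 1 else 0

theorem c2_S_some [DecidableEq J] (c : Option (Option J) → Option (Option J) → κ) (w : J → κ)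
    (j : J) : (c2_S c *ᵥ w) (some (some j)) = w j := by
  simp [Matrix.mulVec, dotProduct, c2_S]

theorem c2_S_e [DecidableEq J] (c : Option (Option J) → Option (Option J) → κ) (w : J → κ) :
    (c2_S c *ᵥ w) none =
      (∑ j, (c (some none) (some (some j)) + c (some (some j)) (some none)) * w j) /
        c2_ell c none := by
  simp only [Matrix.mulVec, dotProduct, c2_S]
  rw [Finset.sum_div]
  refine Finset.sum_congr rfl (fun i _ => ?_)
  ring

theorem c2_S_f [DecidableEq J] (c : Option (Option J) → Option (Option J) → κ) (w : J → κ) :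
    (c2_S c *ᵥ w) (some none) = (∑ j, c2_ell c (some j) * w j) / c2_ell c none := by
  simp only [Matrix.mulVec, dotProduct, c2_S]
  rw [Finset.sum_div]
  refine Finset.sum_congr rfl (fun i _ => ?_)
  ring

theorem c2_qd_e [DecidableEq J] (h2 : (2 : κ) = 0) (c : Option (Option J) → Option (Option J) → κ)
    (hc : c2_ell c none ≠ 0) (w : J → κ) : qd c (c2_S c *ᵥ w) none = 0 := by
  rw [c2_qd_none h2, Fintype.sum_option, c2_S_f, mul_div_cancel₀ _ hc]
  simp only [c2_S_some]
  exact c2_two h2 _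

theorem c2_qd_some_none (h2 : (2 : κ) = 0) (c : Option (Option J) → Option (Option J) → κ)
    (v : Option (Option J) → κ) :
    qd c v (some none) = c2_ell c none * v none +
      ∑ j, (c (some none) (some (some j)) + c (some (some j)) (some none)) * v (some (some j)) := by
  rw [qd, Fintype.sum_option, Fintype.sum_option, c2_two h2, zero_mul, zero_add]
  congr 1
  refine Finset.sum_congr rfl (fun i _ => ?_)
  rw [add_comm (c (some none) _)]

theorem c2_qd_f [DecidableEq J] (h2 : (2 : κ) = 0) (c : Option (Option J) → Option (Option J) → κ)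
    (hc : c2_ell c none ≠ 0) (w : J → κ) : qd c (c2_S c *ᵥ w) (some none) = 0 := by
  rw [c2_qd_some_none h2, c2_S_e, mul_div_cancel₀ _ hc]
  simp only [c2_S_some]
  exact c2_two h2 _

theorem c2_eq_S [DecidableEq J] (h2 : (2 : κ) = 0) (c : Option (Option J) → Option (Option J) → κ)
    (hc : c2_ell c none ≠ 0) (v : Option (Option J) → κ) (h0 : qd c v none = 0)
    (h1 : qd c v (some none) = 0) : v = c2_S c *ᵥ (fun j => v (some (some j))) := by
  have hneg : ∀ x y : κ, x + y = 0 → x = y := by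
    intro x y h
    have h3 := c2_two h2 y
    calc x = x + (y + y) := by rw [h3, add_zero]
      _ = (x + y) + y := by ring
      _ = y := by rw [h, zero_add]
  funext o
  match o with
  | some (some j) => rw [c2_S_some]
  | none =>
    rw [c2_S_e, eq_div_iff hc, mul_comm]
    apply hneg
    rw [← h1, c2_qd_some_none h2]
  | some none =>
    rw [c2_S_f, eq_div_iff hc, mul_comm]
    apply hneg
    rw [← h0, c2_qd_none h2, Fintype.sum_option]

theorem c2_qd_sub_S [DecidableEq J] (h2 : (2 : κ) = 0)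
    (c : Option (Option J) → Option (Option J) → κ)
    (hc : c2_ell c none ≠ 0) (w : J → κ) (k : J) :
    qd (c2_sub c (c2_S c)) w k = qd c (c2_S c *ᵥ w) (some (some k)) := by
  rw [c2_qd_sub, Fintype.sum_option, Fintype.sum_option, c2_qd_e h2 c hc, c2_qd_f h2 c hc]
  simp [c2_S]

theorem c2_B_sub [DecidableEq J] (h2 : (2 : κ) = 0)
    (c : Option (Option J) → Option (Option J) → κ) (hc : c2_ell c none ≠ 0) :
    c2_B c ↔ c2_B (c2_sub c (c2_S c)) := by
  constructor
  · intro h w hw
    have hv : c2_S c *ᵥ w ≠ 0 := by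
      intro h0
      apply hw
      funext j
      rw [← c2_S_some c w j, h0]
      rfl
    obtain ⟨k, hk⟩ := h _ hv
    match k with
    | none => exact absurd (c2_qd_e h2 c hc w) hk
    | some none => exact absurd (c2_qd_f h2 c hc w) hk
    | some (some k) => exact ⟨k, by rw [c2_qd_sub_S h2 c hc]; exact hk⟩
  · intro h v hv
    by_contra hcon
    push Not at hcon
    have h1 := c2_eq_S h2 c hc v (hcon none) (hcon (some none))
    have hw : (fun j => v (some (some j))) ≠ 0 := by
      intro h0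
      rw [h0, Matrix.mulVec_zero] at h1
      exact hv h1
    obtain ⟨k, hk⟩ := h _ hw
    rw [c2_qd_sub_S h2 c hc, ← h1] at hk
    exact hk (hcon _)

theorem c2_Q_sub [DecidableEq J] (h2 : (2 : κ) = 0)
    (c : Option (Option J) → Option (Option J) → κ) (hc : c2_ell c none ≠ 0) :
    QNondeg c ↔ QNondeg (c2_sub c (c2_S c)) := by
  constructor
  · intro h w hw hq
    have hv : c2_S c *ᵥ w ≠ 0 := by
      intro h0
      apply hw
      funext j
      rw [← c2_S_some c w j, h0]
      rfl
    rw [c2_qf_sub] at hq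
    obtain ⟨k, hk⟩ := h _ hv hq
    match k with
    | none => exact absurd (c2_qd_e h2 c hc w) hk
    | some none => exact absurd (c2_qd_f h2 c hc w) hk
    | some (some k) => exact ⟨k, by rw [c2_qd_sub_S h2 c hc]; exact hk⟩
  · intro h v hv hq
    by_contra hcon
    push Not at hcon
    have h1 := c2_eq_S h2 c hc v (hcon none) (hcon (some none))
    have hw : (fun j => v (some (some j))) ≠ 0 := by
      intro h0
      rw [h0, Matrix.mulVec_zero] at h1
      exact hv h1
    obtain ⟨k, hk⟩ := h _ hw (by rw [c2_qf_sub, ← h1]; exact hq)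
    rw [c2_qd_sub_S h2 c hc, ← h1] at hk
    exact hk (hcon _)

/-! ### counting, nonzero polar -/

/-- the free data -/
abbrev c2_D (κ J : Type) : Type := κ × (Option J → κ) × κ × (J → κ) × (J → κ)

/-- the matrix with given data -/
def c2_mk (l : Option J → κ) (D : c2_D κ J) (c' : J → J → κ) :
    Option (Option J) → Option (Option J) → κ := fun o o' =>
  match o, o' with
  | none, none => D.1
  | none, some k => D.2.1 k
  | some k, none => l k - D.2.1 k
  | some none, some none => D.2.2.1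
  | some none, some (some j) => D.2.2.2.1 j
  | some (some j), some none => D.2.2.2.2 j
  | some (some i), some (some j) => c' i j

omit [Fintype J] in
theorem c2_ell_mk (l : Option J → κ) (D : c2_D κ J) (c' : J → J → κ) :
    c2_ell (c2_mk l D c') = l := by
  funext k
  rcases k with _ | k <;> simp [c2_ell, c2_mk]

omit [Fintype J] in
theorem c2_S_mk [DecidableEq J] (l : Option J → κ) (D : c2_D κ J) (c' : J → J → κ) :
    c2_S (c2_mk l D c') = c2_S (c2_mk l D 0) := by
  funext o j
  match o with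
  | none => simp only [c2_S, c2_ell_mk]; rfl
  | some none => simp only [c2_S, c2_ell_mk]
  | some (some i) => rfl

theorem c2_sub_mk [DecidableEq J] (l : Option J → κ) (D : c2_D κ J) (c' : J → J → κ) :
    c2_sub (c2_mk l D c') (c2_S (c2_mk l D c')) =
      c2_sub (c2_mk l D 0) (c2_S (c2_mk l D 0)) + c' := by
  rw [c2_S_mk]
  set S := c2_S (c2_mk l D (0 : J → J → κ)) with hS
  funext j k
  have h1 : (Matrix.of (c2_mk l D c') : Matrix _ _ κ) =
      Matrix.of (c2_mk l D 0) + Matrix.of (fun o o' =>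
        match o, o' with
        | some (some i), some (some j) => c' i j
        | _, _ => 0) := by
    funext o o'
    rcases o with _ | _ | o <;> rcases o' with _ | _ | o' <;> simp [c2_mk]
  show (Sᵀ * Matrix.of (c2_mk l D c') * S : Matrix J J κ) j k = _
  rw [h1, Matrix.mul_add, Matrix.add_mul]
  show _ = (Sᵀ * Matrix.of (c2_mk l D 0) * S : Matrix J J κ) j k + c' j k
  rw [Matrix.add_apply]
  congr 1
  simp only [Matrix.mul_apply, Fintype.sum_option, Matrix.transpose_apply, Matrix.of_apply]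
  simp [hS, c2_S]

/-- data of a matrix -/
def c2_equiv1 (l : Option J → κ) :
    {c : Option (Option J) → Option (Option J) → κ // c2_ell c = l} ≃ c2_D κ J × (J → J → κ) where
  toFun c := ((c.1 none none, fun k => c.1 none (some k), c.1 (some none) (some none),
    fun j => c.1 (some none) (some (some j)), fun j => c.1 (some (some j)) (some none)),
    fun i j => c.1 (some (some i)) (some (some j)))
  invFun x := ⟨c2_mk l x.1 x.2, c2_ell_mk l x.1 x.2⟩
  left_inv c := by
    obtain ⟨c, hc⟩ := c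
    apply Subtype.ext
    funext o o'
    rcases o with _ | _ | o <;> rcases o' with _ | _ | o' <;> simp [c2_mk, ← hc, c2_ell]
  right_inv x := by
    obtain ⟨⟨a, r, d, x, y⟩, c'⟩ := x
    simp [c2_mk]

theorem c2_count1 [Finite κ] (l : Option J → κ) (hl : l none ≠ 0)
    (P : (Option (Option J) → Option (Option J) → κ) → Prop) (P' : (J → J → κ) → Prop)
    [DecidableEq J]
    (hP : ∀ c, c2_ell c none ≠ 0 → (P c ↔ P' (c2_sub c (c2_S c)))) :
    Nat.card {c : Option (Option J) → Option (Option J) → κ // c2_ell c = l ∧ P c} =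
      Nat.card κ ^ (3 * Fintype.card J + 3) * Nat.card {c' : J → J → κ // P' c'} := by
  let ψ : c2_D κ J → (J → J → κ) := fun D => c2_sub (c2_mk l D 0) (c2_S (c2_mk l D 0))
  have hP2 : ∀ (D : c2_D κ J) (c' : J → J → κ), P (c2_mk l D c') ↔ P' (ψ D + c') := by
    intro D c'
    rw [hP _ (by rw [c2_ell_mk]; exact hl), c2_sub_mk]
  have e1 : {c : Option (Option J) → Option (Option J) → κ // c2_ell c = l ∧ P c} ≃
      {x : {c : Option (Option J) → Option (Option J) → κ // c2_ell c = l} // P x.1} :=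
    (Equiv.subtypeSubtypeEquivSubtypeInter (fun c => c2_ell c = l) P).symm
  have e2 : {x : {c : Option (Option J) → Option (Option J) → κ // c2_ell c = l} // P x.1} ≃
      {y : c2_D κ J × (J → J → κ) // P' (ψ y.1 + y.2)} := by
    refine Equiv.subtypeEquiv (c2_equiv1 l) ?_
    intro x
    rw [← hP2]
    have : c2_mk l ((c2_equiv1 l) x).1 ((c2_equiv1 l) x).2 = x.1 :=
      congrArg Subtype.val ((c2_equiv1 l).left_inv x)
    rw [this]
  have e3 : {y : c2_D κ J × (J → J → κ) // P' (ψ y.1 + y.2)} ≃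
      c2_D κ J × {c' : J → J → κ // P' c'} :=
    { toFun := fun y => (y.1.1, ⟨ψ y.1.1 + y.1.2, y.2⟩)
      invFun := fun z => ⟨(z.1, z.2.1 - ψ z.1), by
        show P' (ψ z.1 + (z.2.1 - ψ z.1))
        rw [add_sub_cancel]
        exact z.2.2⟩
      left_inv := fun y => by
        apply Subtype.ext
        simp
      right_inv := fun z => by
        simp }
  rw [Nat.card_congr (e1.trans (e2.trans e3)), Nat.card_prod]
  congr 1
  simp only [c2_D, Nat.card_prod, Nat.card_fun, Nat.card_eq_fintype_card, Fintype.card_option]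
  ring

theorem c2_qf_reindex {ι ι' : Type} [Fintype ι] [Fintype ι'] (e : ι' ≃ ι) (c : ι → ι → κ)
    (v : ι → κ) : qf (fun i j => c (e i) (e j)) (fun i => v (e i)) = qf c v := by
  simp only [qf]
  rw [← Equiv.sum_comp e]
  refine Finset.sum_congr rfl (fun i _ => ?_)
  rw [← Equiv.sum_comp e]

theorem c2_qd_reindex {ι ι' : Type} [Fintype ι] [Fintype ι'] (e : ι' ≃ ι) (c : ι → ι → κ)
    (v : ι → κ) (k : ι') : qd (fun i j => c (e i) (e j)) (fun i => v (e i)) k = qd c v (e k) := by
  simp only [qd]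
  rw [← Equiv.sum_comp e]

theorem c2_B_reindex {ι ι' : Type} [Fintype ι] [Fintype ι'] (e : ι' ≃ ι) (c : ι → ι → κ) :
    c2_B (fun i j => c (e i) (e j)) ↔ c2_B c := by
  constructor
  · intro h v hv
    obtain ⟨k, hk⟩ := h (fun i => v (e i)) (fun h0 => hv (by
      funext i
      have := congrFun h0 (e.symm i)
      simpa using this))
    rw [c2_qd_reindex] at hk
    exact ⟨_, hk⟩
  · intro h v hv
    obtain ⟨k, hk⟩ := h (fun i => v (e.symm i)) (fun h0 => hv (by
      funext i
      have := congrFun h0 (e i)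
      simpa using this))
    refine ⟨e.symm k, ?_⟩
    have h1 : v = fun i => (fun i => v (e.symm i)) (e i) := by
      funext i
      simp
    rw [h1, c2_qd_reindex e c (fun i => v (e.symm i)), Equiv.apply_symm_apply]
    exact hk

theorem c2_Q_reindex {ι ι' : Type} [Fintype ι] [Fintype ι'] (e : ι' ≃ ι) (c : ι → ι → κ) :
    QNondeg (fun i j => c (e i) (e j)) ↔ QNondeg c := by
  constructor
  · intro h v hv hq
    obtain ⟨k, hk⟩ := h (fun i => v (e i)) (fun h0 => hv (by
      funext i
      have := congrFun h0 (e.symm i)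
      simpa using this)) (by rw [c2_qf_reindex]; exact hq)
    rw [c2_qd_reindex] at hk
    exact ⟨_, hk⟩
  · intro h v hv hq
    have h1 : v = fun i => (fun i => v (e.symm i)) (e i) := by
      funext i
      simp
    rw [h1, c2_qf_reindex e c (fun i => v (e.symm i))] at hq
    obtain ⟨k, hk⟩ := h (fun i => v (e.symm i)) (fun h0 => hv (by
      funext i
      have := congrFun h0 (e i)
      simpa using this)) hq
    refine ⟨e.symm k, ?_⟩
    rw [h1, c2_qd_reindex e c (fun i => v (e.symm i)), Equiv.apply_symm_apply]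
    exact hk

/-- reindexing of matrices -/
def c2_re {ι ι' : Type} (e : ι' ≃ ι) : (ι → ι → κ) ≃ (ι' → ι' → κ) where
  toFun c := fun i j => c (e i) (e j)
  invFun c := fun i j => c (e.symm i) (e.symm j)
  left_inv c := by funext i j; simp
  right_inv c := by funext i j; simp

theorem c2_count_perm {I : Type} (l : I → κ) (e : I ≃ I)
    (P : (Option I → Option I → κ) → Prop)
    (hP : ∀ (c : Option I → Option I → κ), P (c2_re e.optionCongr c) ↔ P c) :
    Nat.card {c : Option I → Option I → κ // c2_ell c = l ∧ P c} =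
      Nat.card {c : Option I → Option I → κ // c2_ell c = (fun i => l (e i)) ∧ P c} := by
  refine Nat.card_congr (Equiv.subtypeEquiv (c2_re e.optionCongr) ?_)
  intro c
  rw [hP]
  have h1 : c2_ell (c2_re e.optionCongr c) = fun i => c2_ell c (e i) := by
    funext i
    simp [c2_ell, c2_re]
  rw [h1]
  refine and_congr_left (fun _ => ?_)
  constructor
  · intro h
    rw [h]
  · intro h
    funext i
    have := congrFun h (e.symm i)
    simpa using this

theorem c2_count2 [Finite κ] [DecidableEq J] (l : Option J → κ) (hl : l ≠ 0)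
    (P : (Option (Option J) → Option (Option J) → κ) → Prop) (P' : (J → J → κ) → Prop)
    (hre : ∀ (e : Option J ≃ Option J) (c : Option (Option J) → Option (Option J) → κ),
      P (c2_re e.optionCongr c) ↔ P c)
    (hP : ∀ c, c2_ell c none ≠ 0 → (P c ↔ P' (c2_sub c (c2_S c)))) :
    Nat.card {c : Option (Option J) → Option (Option J) → κ // c2_ell c = l ∧ P c} =
      Nat.card κ ^ (3 * Fintype.card J + 3) * Nat.card {c' : J → J → κ // P' c'} := by
  obtain ⟨k, hk⟩ : ∃ k, l k ≠ 0 := by
    by_contra hcon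
    push Not at hcon
    exact hl (funext hcon)
  rw [c2_count_perm l (Equiv.swap none k) P (hre _)]
  apply c2_count1 _ _ P P' hP
  simpa using hk

theorem c2_card_fiber {α β : Type} [Finite α] [Fintype β] (f : α → β) (P : α → Prop) :
    Nat.card {a // P a} = ∑ b, Nat.card {a // f a = b ∧ P a} := by
  classical
  have e : {a // P a} ≃ Σ b : β, {a // f a = b ∧ P a} :=
    { toFun := fun a => ⟨f a.1, a.1, rfl, a.2⟩
      invFun := fun x => ⟨x.2.1, x.2.2.2⟩
      left_inv := fun a => rfl
      right_inv := fun x => by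
        obtain ⟨b, a, h1, h2⟩ := x
        subst h1
        rfl }
  rw [Nat.card_congr e, Nat.card_sigma]

theorem c2_total [Finite κ] [DecidableEq J]
    (P : (Option (Option J) → Option (Option J) → κ) → Prop) (P' : (J → J → κ) → Prop)
    (hre : ∀ (e : Option J ≃ Option J) (c : Option (Option J) → Option (Option J) → κ),
      P (c2_re e.optionCongr c) ↔ P c)
    (hP : ∀ c, c2_ell c none ≠ 0 → (P c ↔ P' (c2_sub c (c2_S c)))) :
    Nat.card {c : Option (Option J) → Option (Option J) → κ // P c} =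
      (Nat.card κ ^ (Fintype.card J + 1) - 1) *
        (Nat.card κ ^ (3 * Fintype.card J + 3) * Nat.card {c' : J → J → κ // P' c'}) +
      Nat.card {c : Option (Option J) → Option (Option J) → κ // c2_ell c = 0 ∧ P c} := by
  classical
  have := Fintype.ofFinite κ
  rw [c2_card_fiber (fun c => c2_ell c) P, ← Finset.sum_erase_add _ _ (Finset.mem_univ 0)]
  congr 1
  rw [Finset.sum_congr rfl (fun l hl => c2_count2 l (Finset.ne_of_mem_erase hl) P P' hre hP),
    Finset.sum_const, smul_eq_mul, Finset.card_erase_of_mem (Finset.mem_univ _), Finset.card_univ]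
  congr 2
  rw [Fintype.card_fun, Fintype.card_option, Nat.card_eq_fintype_card]

/-! ### zero polar -/

theorem c2_zero_B (h2 : (2 : κ) = 0) {I : Type} [Fintype I] :
    Nat.card {c : Option I → Option I → κ // c2_ell c = 0 ∧ c2_B c} = 0 := by
  classical
  have : IsEmpty {c : Option I → Option I → κ // c2_ell c = 0 ∧ c2_B c} := by
    refine ⟨fun x => ?_⟩
    obtain ⟨c, h0, hB⟩ := x
    obtain ⟨k, hk⟩ := hB (Pi.single none 1) (by
      intro h
      have := congrFun h none
      simp at this)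
    apply hk
    rw [qd, Finset.sum_eq_single none]
    · rcases k with _ | k
      · rw [c2_two h2, zero_mul]
      · have h3 := congrFun h0 k
        simp only [c2_ell, Pi.zero_apply] at h3
        rw [h3, zero_mul]
    · intro b _ hb
      rw [Pi.single_eq_of_ne hb, mul_zero]
    · intro h
      exact absurd (Finset.mem_univ _) h
  exact Nat.card_of_isEmpty

theorem c2_qf_opt {I : Type} [Fintype I] (c : Option I → Option I → κ) (v : Option I → κ) :
    qf c v = c none none * (v none * v none) + v none * ∑ i, c2_ell c i * v (some i) +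
      qf (fun i j => c (some i) (some j)) (fun i => v (some i)) := by
  simp only [qf, Fintype.sum_option, c2_ell, Finset.sum_add_distrib, Finset.mul_sum]
  have h1 : ∑ x, v none * ((c none (some x) + c (some x) none) * v (some x)) =
      ∑ x, c none (some x) * (v none * v (some x)) + ∑ x, c (some x) none * (v (some x) * v none) := by
    rw [← Finset.sum_add_distrib]
    exact Finset.sum_congr rfl (fun i _ => by ring)
  rw [h1]
  ring

theorem c2_qd_some {I : Type} [Fintype I] (c : Option I → Option I → κ) (v : Option I → κ) (k : I) :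
    qd c v (some k) = c2_ell c k * v none +
      qd (fun i j => c (some i) (some j)) (fun i => v (some i)) k := by
  simp only [qd, Fintype.sum_option, c2_ell]

theorem c2_sqrt [Finite κ] (h2 : (2 : κ) = 0) (a : κ) : ∃ s : κ, s * s = a := by
  have h3 : ringChar κ ∣ 2 := by
    rw [← ringChar.spec]
    exact_mod_cast h2
  have h4 : ringChar κ = 2 := by
    rcases (Nat.dvd_prime Nat.prime_two).mp h3 with h | h
    · exfalso
      have := ringChar.spec κ 1
      rw [h] at this
      have h5 := this.mpr (dvd_refl 1)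
      simp at h5
    · exact h
  obtain ⟨s, hs⟩ := FiniteField.isSquare_of_char_two h4 a
  exact ⟨s, hs.symm⟩

theorem c2_zero_iff [Finite κ] (h2 : (2 : κ) = 0) {I : Type} [Fintype I]
    (c : Option I → Option I → κ) (hc : c2_ell c = 0) :
    QNondeg c ↔ c none none ≠ 0 ∧ c2_B (fun i j => c (some i) (some j)) := by
  classical
  constructor
  · intro h
    have ha : c none none ≠ 0 := by
      intro ha
      obtain ⟨k, hk⟩ := h (Pi.single none 1) (by
        intro h
        have := congrFun h none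
        simp at this) (by
          rw [c2_qf_opt, ha, hc]
          simp [qf])
      apply hk
      rcases k with _ | k
      · rw [c2_qd_none h2, hc]
        simp
      · rw [c2_qd_some, hc]
        simp [qd]
    refine ⟨ha, fun w hw => ?_⟩
    by_contra hcon
    push Not at hcon
    obtain ⟨s, hs⟩ := c2_sqrt h2 (qf (fun i j => c (some i) (some j)) w / c none none)
    obtain ⟨k, hk⟩ := h (fun o => o.elim s w) (by
      intro h0
      apply hw
      funext i
      exact congrFun h0 (some i)) (by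
        rw [c2_qf_opt, hc]
        simp only [Option.elim_none, Option.elim_some, Pi.zero_apply, zero_mul, Finset.sum_const_zero,
          mul_zero, add_zero]
        rw [hs, mul_div_cancel₀ _ ha]
        exact c2_two h2 _)
    apply hk
    rcases k with _ | k
    · rw [c2_qd_none h2, hc]
      simp
    · rw [c2_qd_some, hc]
      simp only [Pi.zero_apply, zero_mul, zero_add, Option.elim_some]
      exact hcon k
  · rintro ⟨ha, hB⟩ v hv hq
    by_cases hw : (fun i => v (some i)) = 0
    · exfalso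
      rw [c2_qf_opt, hc, hw] at hq
      simp only [Pi.zero_apply, zero_mul, Finset.sum_const_zero, mul_zero, add_zero] at hq
      have h3 : qf (fun i j => c (some i) (some j)) (0 : I → κ) = 0 := by simp [qf]
      rw [h3, add_zero] at hq
      have h4 : v none = 0 := by
        rcases mul_eq_zero.mp hq with h | h
        · exact absurd h ha
        · exact mul_self_eq_zero.mp h
      apply hv
      funext o
      rcases o with _ | i
      · exact h4
      · exact congrFun hw i
    · obtain ⟨k, hk⟩ := hB _ hw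
      refine ⟨some k, ?_⟩
      rw [c2_qd_some, hc]
      simpa using hk

theorem c2_zero_Q [Finite κ] (h2 : (2 : κ) = 0) {I : Type} [Fintype I] :
    Nat.card {c : Option I → Option I → κ // c2_ell c = 0 ∧ QNondeg c} =
      (Nat.card κ - 1) * (Nat.card κ ^ Fintype.card I * Nat.card {c' : I → I → κ // c2_B c'}) := by
  classical
  have e : {c : Option I → Option I → κ // c2_ell c = 0 ∧ QNondeg c} ≃
      {a : κ // a ≠ 0} × ((I → κ) × {c' : I → I → κ // c2_B c'}) :=
    { toFun := fun c => (⟨c.1 none none, ((c2_zero_iff h2 c.1 c.2.1).mp c.2.2).1⟩,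
        (fun k => c.1 none (some k)),
        ⟨fun i j => c.1 (some i) (some j), ((c2_zero_iff h2 c.1 c.2.1).mp c.2.2).2⟩)
      invFun := fun x => ⟨fun o o' =>
          match o, o' with
          | none, none => x.1.1
          | none, some k => x.2.1 k
          | some k, none => - x.2.1 k
          | some i, some j => x.2.2.1 i j, by
        have h0 : c2_ell (fun o o' : Option I =>
            (match o, o' with
            | none, none => x.1.1
            | none, some k => x.2.1 k
            | some k, none => - x.2.1 k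
            | some i, some j => x.2.2.1 i j : κ)) = 0 := by
          funext k
          simp [c2_ell]
        exact ⟨h0, (c2_zero_iff h2 _ h0).mpr ⟨x.1.2, x.2.2.2⟩⟩⟩
      left_inv := fun c => by
        obtain ⟨c, hc, hc2⟩ := c
        apply Subtype.ext
        funext o o'
        rcases o with _ | o <;> rcases o' with _ | o' <;> simp
        have := congrFun hc o
        simp only [c2_ell, Pi.zero_apply] at this
        rw [neg_eq_iff_add_eq_zero]
        exact this
      right_inv := fun x => by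
        obtain ⟨⟨a, ha⟩, r, ⟨c', hc'⟩⟩ := x
        rfl }
  have := Fintype.ofFinite κ
  rw [Nat.card_congr e, Nat.card_prod, Nat.card_prod, Nat.card_fun, Nat.card_eq_fintype_card (α := I)]
  congr 1
  rw [Nat.card_eq_fintype_card, Nat.card_eq_fintype_card, Fintype.card_subtype_compl]
  simp

/-! ### the recursion on `Fin N` -/

/-- number of matrices with nondegenerate polar form -/
noncomputable def c2_gB (κ : Type) [Field κ] (N : ℕ) : ℕ :=
  Nat.card {c : Fin N → Fin N → κ // c2_B c}

/-- number of matrices with nondegenerate quadratic form -/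
noncomputable def c2_gQ (κ : Type) [Field κ] (N : ℕ) : ℕ :=
  Nat.card {c : Fin N → Fin N → κ // QNondeg c}

theorem c2_gB_card {I : Type} [Fintype I] :
    Nat.card {c : I → I → κ // c2_B c} = c2_gB κ (Fintype.card I) := by
  refine Nat.card_congr (Equiv.subtypeEquiv (c2_re (Fintype.equivFin I).symm) ?_)
  intro c
  exact (c2_B_reindex (Fintype.equivFin I).symm c).symm

theorem c2_gQ_card {I : Type} [Fintype I] :
    Nat.card {c : I → I → κ // QNondeg c} = c2_gQ κ (Fintype.card I) := by
  refine Nat.card_congr (Equiv.subtypeEquiv (c2_re (Fintype.equivFin I).symm) ?_)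
  intro c
  exact (c2_Q_reindex (Fintype.equivFin I).symm c).symm

theorem c2_gB_rec [Finite κ] (h2 : (2 : κ) = 0) (m : ℕ) :
    c2_gB κ (m + 2) =
      (Nat.card κ ^ (m + 1) - 1) * (Nat.card κ ^ (3 * m + 3) * c2_gB κ m) := by
  have h := c2_total (κ := κ) (J := Fin m) (fun c => c2_B c) (fun c => c2_B c)
    (fun e c => c2_B_reindex e.optionCongr c) (fun c hc => c2_B_sub h2 c hc)
  rw [c2_zero_B h2, add_zero, c2_gB_card, c2_gB_card] at h
  simpa using h

theorem c2_gQ_rec [Finite κ] (h2 : (2 : κ) = 0) (m : ℕ) :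
    c2_gQ κ (m + 2) =
      (Nat.card κ ^ (m + 1) - 1) * (Nat.card κ ^ (3 * m + 3) * c2_gQ κ m) +
        (Nat.card κ - 1) * (Nat.card κ ^ (m + 1) * c2_gB κ (m + 1)) := by
  have h := c2_total (κ := κ) (J := Fin m) (fun c => QNondeg c) (fun c => QNondeg c)
    (fun e c => c2_Q_reindex e.optionCongr c) (fun c hc => c2_Q_sub h2 c hc)
  rw [c2_zero_Q h2, c2_gQ_card, c2_gQ_card, c2_gB_card] at h
  simpa using h

theorem c2_gB_zero : c2_gB κ 0 = 1 := by
  have : Unique {c : Fin 0 → Fin 0 → κ // c2_B c} :=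
    { default := ⟨fun i => i.elim0, fun v hv => absurd (Subsingleton.elim v 0) hv⟩
      uniq := fun a => Subtype.ext (Subsingleton.elim _ _) }
  exact Nat.card_unique

theorem c2_gQ_zero : c2_gQ κ 0 = 1 := by
  have : Unique {c : Fin 0 → Fin 0 → κ // QNondeg c} :=
    { default := ⟨fun i => i.elim0, fun v hv => absurd (Subsingleton.elim v 0) hv⟩
      uniq := fun a => Subtype.ext (Subsingleton.elim _ _) }
  exact Nat.card_unique

theorem c2_gB_one (h2 : (2 : κ) = 0) : c2_gB κ 1 = 0 := by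
  have h := c2_zero_B (κ := κ) (I := Fin 0) h2
  have h3 : Nat.card {c : Option (Fin 0) → Option (Fin 0) → κ // c2_B c} = 0 := by
    refine Eq.trans (Nat.card_congr (Equiv.subtypeEquivRight
      (p := fun c : Option (Fin 0) → Option (Fin 0) → κ => c2_B c)
      (q := fun c : Option (Fin 0) → Option (Fin 0) → κ => c2_ell c = 0 ∧ c2_B c)
      (fun c => ⟨fun hc => ⟨funext (fun i => i.elim0), hc⟩, fun hc => hc.2⟩))) h
  rw [c2_gB_card] at h3
  simpa using h3

theorem c2_gQ_one [Finite κ] (h2 : (2 : κ) = 0) : c2_gQ κ 1 = Nat.card κ - 1 := by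
  have h := c2_zero_Q (κ := κ) (I := Fin 0) h2
  have h3 : Nat.card {c : Option (Fin 0) → Option (Fin 0) → κ // QNondeg c} = Nat.card κ - 1 := by
    have h4 : Nat.card {c' : Fin 0 → Fin 0 → κ // c2_B c'} = 1 := c2_gB_zero
    rw [h4] at h
    simp only [Fintype.card_fin, pow_zero, mul_one] at h
    rw [← h]
    refine Nat.card_congr (Equiv.subtypeEquivRight ?_)
    intro c
    exact ⟨fun hc => ⟨funext (fun i => i.elim0), hc⟩, fun hc => hc.2⟩
  rw [c2_gQ_card] at h3
  simpa using h3

theorem c2_gB_formula [Finite κ] (h2 : (2 : κ) = 0) (m : ℕ) :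
    (c2_gB κ (2 * m) : ℝ) = (Nat.card κ : ℝ) ^ ((2 * m) ^ 2) *
      ∏ j ∈ Finset.range m, (1 - 1 / (Nat.card κ : ℝ) ^ (2 * j + 1)) ∧ c2_gB κ (2 * m + 1) = 0 := by
  have hq : 1 < Nat.card κ := Finite.one_lt_card
  have hq0 : (0 : ℝ) < Nat.card κ := by exact_mod_cast (by omega : 0 < Nat.card κ)
  induction m with
  | zero => simp [c2_gB_zero, c2_gB_one h2]
  | succ m ih =>
    obtain ⟨h3, h4⟩ := ih
    constructor
    · rw [show 2 * (m + 1) = 2 * m + 2 by ring, c2_gB_rec h2, Finset.prod_range_succ]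
      rw [Nat.cast_mul, Nat.cast_mul, h3, Nat.cast_sub (Nat.one_le_pow _ _ (by omega))]
      push_cast
      set q : ℝ := (Nat.card κ : ℝ) with hqd
      have h5 : q ^ ((2 * m + 2) ^ 2) = q ^ ((2 * m) ^ 2) * q ^ (3 * (2 * m) + 3) * q ^ (2 * m + 1) := by
        rw [← pow_add, ← pow_add]
        congr 1
        ring
      have h6 : q ^ (2 * m + 1) * (1 - 1 / q ^ (2 * m + 1)) = q ^ (2 * m + 1) - 1 := by field_simp
      rw [h5, ← h6]
      ring
    · rw [show 2 * (m + 1) + 1 = (2 * m + 1) + 2 by ring, c2_gB_rec h2, h4, mul_zero, mul_zero]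

theorem c2_gQ_formula [Finite κ] (h2 : (2 : κ) = 0) (m : ℕ) :
    (c2_gQ κ (2 * m) : ℝ) = (Nat.card κ : ℝ) ^ ((2 * m) ^ 2) *
      ∏ j ∈ Finset.range m, (1 - 1 / (Nat.card κ : ℝ) ^ (2 * j + 1)) ∧
    (c2_gQ κ (2 * m + 1) : ℝ) = (Nat.card κ : ℝ) ^ ((2 * m + 1) ^ 2) *
      ∏ j ∈ Finset.range (m + 1), (1 - 1 / (Nat.card κ : ℝ) ^ (2 * j + 1)) := by
  have hq : 1 < Nat.card κ := Finite.one_lt_card
  have hq0 : (0 : ℝ) < Nat.card κ := by exact_mod_cast (by omega : 0 < Nat.card κ)
  induction m with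
  | zero =>
    constructor
    · simp [c2_gQ_zero]
    · simp only [mul_zero, zero_add, one_pow, pow_one, Finset.range_one, Finset.prod_singleton]
      rw [c2_gQ_one h2, Nat.cast_sub (by omega)]
      push_cast
      field_simp
  | succ m ih =>
    obtain ⟨h3, h4⟩ := ih
    constructor
    · rw [show 2 * (m + 1) = 2 * m + 2 by ring, c2_gQ_rec h2, (c2_gB_formula h2 m).2, mul_zero,
        mul_zero, add_zero, Finset.prod_range_succ]
      rw [Nat.cast_mul, Nat.cast_mul, h3, Nat.cast_sub (Nat.one_le_pow _ _ (by omega))]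
      push_cast
      set q : ℝ := (Nat.card κ : ℝ) with hqd
      have h5 : q ^ ((2 * m + 2) ^ 2) = q ^ ((2 * m) ^ 2) * q ^ (3 * (2 * m) + 3) * q ^ (2 * m + 1) := by
        rw [← pow_add, ← pow_add]
        congr 1
        ring
      have h6 : q ^ (2 * m + 1) * (1 - 1 / q ^ (2 * m + 1)) = q ^ (2 * m + 1) - 1 := by field_simp
      rw [h5, ← h6]
      ring
    · rw [show 2 * (m + 1) + 1 = (2 * m + 1) + 2 by ring, c2_gQ_rec h2,
        show 2 * m + 1 + 1 = 2 * (m + 1) by ring, Nat.cast_add, Nat.cast_mul, Nat.cast_mul,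
        Nat.cast_mul, Nat.cast_mul, h4, (c2_gB_formula h2 (m + 1)).1,
        Nat.cast_sub (Nat.one_le_pow _ _ (by omega)), Nat.cast_sub (by omega)]
      rw [Finset.prod_range_succ _ (m + 1)]
      push_cast
      set q : ℝ := (Nat.card κ : ℝ) with hqd
      set B := ∏ j ∈ Finset.range (m + 1), (1 - 1 / q ^ (2 * j + 1)) with hB
      have h5 : q ^ ((2 * m + 1 + 2) ^ 2) =
          q ^ ((2 * m + 1) ^ 2) * q ^ (3 * (2 * m + 1) + 3) * q ^ (2 * (m + 1)) := by
        rw [← pow_add, ← pow_add]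
        congr 1
        ring
      have h7 : q ^ ((2 * (m + 1)) ^ 2) * q ^ (2 * (m + 1)) * q =
          q ^ ((2 * m + 1) ^ 2) * q ^ (3 * (2 * m + 1) + 3) := by
        rw [← pow_add, ← pow_succ, ← pow_add]
        congr 1
        ring
      have h8 : q ^ (2 * (m + 1)) * (1 - 1 / q ^ (2 * (m + 1) + 1)) = q ^ (2 * (m + 1)) - 1 / q := by
        rw [pow_succ]
        field_simp
      have h9 : q ^ (2 * (m + 1)) * q ^ ((2 * (m + 1)) ^ 2) * (q - 1) =
          q ^ ((2 * m + 1) ^ 2) * q ^ (3 * (2 * m + 1) + 3) * (1 - 1 / q) := by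
        rw [← h7]
        field_simp
      calc (q ^ (2 * (m + 1)) - 1) * (q ^ (3 * (2 * m + 1) + 3) * (q ^ ((2 * m + 1) ^ 2) * B)) +
            (q - 1) * (q ^ (2 * (m + 1)) * (q ^ ((2 * (m + 1)) ^ 2) * B))
          = (q ^ (2 * (m + 1)) - 1) * (q ^ (3 * (2 * m + 1) + 3) * (q ^ ((2 * m + 1) ^ 2) * B)) +
            (q ^ (2 * (m + 1)) * q ^ ((2 * (m + 1)) ^ 2) * (q - 1)) * B := by ring
        _ = q ^ ((2 * m + 1) ^ 2) * q ^ (3 * (2 * m + 1) + 3) * B * (q ^ (2 * (m + 1)) - 1 / q) := by
            rw [h9]; ring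
        _ = _ := by rw [h5, ← h8]; ring

end C2

/-- Recursion: let `a` be the value at the first basis vector and `ℓ` its polar with the
others, `Q'` the restriction to the others. If `ℓ ≠ 0`, the form splits off a binary form with
nondegenerate polar form, and the rest is uniform in `N - 2` variables; if `ℓ = 0`, the form
`a * x ^ 2 + Q'` is nondegenerate if and only if `a ≠ 0` and the polar form of `Q'` is nondegenerate
(so `N` is odd and `Q'` is nondegenerate). -/
theorem card_qnondeg_even {κ : Type} [Field κ] [Finite κ] (h2 : (2 : κ) = 0) (N : ℕ) :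
    (Nat.card {c : Fin N → Fin N → κ // QNondeg c} : ℝ) =
      (Nat.card κ : ℝ) ^ (N ^ 2) *
        ∏ j ∈ Finset.range ((N + 1) / 2), (1 - 1 / (Nat.card κ : ℝ) ^ (2 * j + 1)) := by
  rcases Nat.even_or_odd' N with ⟨m, rfl | rfl⟩
  · rw [show (2 * m + 1) / 2 = m by omega]
    exact (c2_gQ_formula h2 m).1
  · rw [show (2 * m + 1 + 1) / 2 = m + 1 by omega]
    exact (c2_gQ_formula h2 m).2

end Pool.Agent.Lib.MP_6a3dac_ag.Maj
end

section

/-!
# The number of nondegenerate quadratic forms over a finite field of odd characteristic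
-/

set_option autoImplicit false

namespace Pool.Agent.Lib.MP_6a3dac_ag.Maj

section C1

variable {κ : Type} [Field κ]

/-- Trivial kernel. -/
def C1ND {ι : Type} [Fintype ι] (s : ι → ι → κ) : Prop :=
  ∀ v : ι → κ, (∀ k, ∑ j, s j k * v j = 0) → v = 0

/-- Symmetrisation. -/
def c1_sym {ι : Type} (c : ι → ι → κ) : ι → ι → κ := fun j k => c j k + c k j

theorem c1_qnondeg_iff (h2 : (2 : κ) ≠ 0) {ι : Type} [Fintype ι] (c : ι → ι → κ) :
    QNondeg c ↔ C1ND (c1_sym c) := by
  constructor
  · intro h v hv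
    by_contra hne
    have hqd : ∀ k, qd c v k = 0 := hv
    have hqf : (2 : κ) * qf c v = ∑ k, qd c v k * v k := by
      unfold qf qd
      have e1 : ∑ k, (∑ j, (c j k + c k j) * v j) * v k =
          ∑ k, ∑ j, c j k * (v j * v k) + ∑ k, ∑ j, c k j * (v k * v j) := by
        rw [← Finset.sum_add_distrib]
        refine Finset.sum_congr rfl fun k _ => ?_
        rw [Finset.sum_mul, ← Finset.sum_add_distrib]
        refine Finset.sum_congr rfl fun j _ => ?_
        ring
      rw [e1, Finset.sum_comm, two_mul]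
    have h0 : qf c v = 0 := by
      have : (2 : κ) * qf c v = 0 := by
        rw [hqf]
        exact Finset.sum_eq_zero fun k _ => by rw [hqd k, zero_mul]
      exact (mul_eq_zero.1 this).resolve_left h2
    obtain ⟨k, hk⟩ := h v hne h0
    exact hk (hqd k)
  · intro h v hv _
    by_contra hcon
    push Not at hcon
    exact hv (h v hcon)

/-- The number of matrices with nondegenerate symmetrisation. -/
noncomputable def c1_cnt (κ : Type) [Field κ] (ι : Type) [Fintype ι] : ℕ :=
  Nat.card {c : ι → ι → κ // C1ND (c1_sym c)}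

theorem c1_nd_congr {ι ι' : Type} [Fintype ι] [Fintype ι'] (e : ι ≃ ι') (s : ι' → ι' → κ) :
    C1ND (fun j k => s (e j) (e k)) ↔ C1ND s := by
  constructor
  · intro h v hv
    have h1 : (fun j => v (e j)) = 0 := by
      refine h _ fun k => ?_
      have h3 := hv (e k)
      rw [← e.sum_comp] at h3
      exact h3
    funext j
    have h4 := congrFun h1 (e.symm j)
    simpa using h4
  · intro h v hv
    have h1 : (fun j => v (e.symm j)) = 0 := by
      refine h _ fun k => ?_
      have h3 := hv (e.symm k)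
      rw [← e.symm.sum_comp] at h3
      simpa using h3
    funext j
    have h4 := congrFun h1 (e j)
    simpa using h4

theorem c1_cnt_congr {ι ι' : Type} [Fintype ι] [Fintype ι'] (e : ι ≃ ι') :
    c1_cnt κ ι = c1_cnt κ ι' := by
  refine Nat.card_congr (Equiv.subtypeEquiv ((e.arrowCongr (e.arrowCongr (Equiv.refl κ)))) ?_)
  intro c
  rw [← c1_nd_congr e]
  simp only [Equiv.arrowCongr, Equiv.coe_fn_mk, c1_sym, Function.comp_apply, Equiv.symm_apply_apply,
    Equiv.refl_apply]
  exact Iff.rfl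

/-- Bordered matrices. -/
def c1_mk {ι : Type} (a : κ) (u v : ι → κ) (C : ι → ι → κ) : Option ι → Option ι → κ
  | none, none => a
  | none, some k => u k
  | some j, none => v j
  | some j, some k => C j k

/-- The blocks of a bordered matrix. -/
def c1_equiv (κ : Type) [Field κ] (ι : Type) :
    (Option ι → Option ι → κ) ≃ (κ × (ι → κ) × (ι → κ)) × (ι → ι → κ) where
  toFun c := ((c none none, fun k => c none (some k), fun j => c (some j) none),
    fun j k => c (some j) (some k))
  invFun p := c1_mk p.1.1 p.1.2.1 p.1.2.2 p.2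
  left_inv c := by
    funext o o'
    cases o <;> cases o' <;> rfl
  right_inv p := rfl

theorem c1_nd_mk {ι : Type} [Fintype ι] (a : κ) (u v : ι → κ) (C : ι → ι → κ) :
    C1ND (c1_sym (c1_mk a u v C)) ↔ ∀ (x : κ) (y : ι → κ),
      2 * a * x + ∑ j, (u j + v j) * y j = 0 →
      (∀ k, (u k + v k) * x + ∑ j, c1_sym C j k * y j = 0) → x = 0 ∧ y = 0 := by
  constructor
  · intro h x y h0 h1
    have := h (fun o => o.elim x y) ?_
    · refine ⟨congrFun this none, ?_⟩
      funext j
      exact congrFun this (some j)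
    · intro k
      rw [Fintype.sum_option]
      cases k with
      | none =>
        simp only [c1_sym, c1_mk, Option.elim]
        rw [← h0, two_mul]
        congr 1
        exact Finset.sum_congr rfl fun j _ => by rw [add_comm (v j)]
      | some k =>
        simp only [c1_sym, c1_mk, Option.elim]
        exact h1 k
  · intro h w hw
    have h0 := hw none
    rw [Fintype.sum_option] at h0
    have := h (w none) (fun j => w (some j)) ?_ ?_
    · funext o
      cases o with
      | none => exact this.1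
      | some j => exact congrFun this.2 j
    · simp only [c1_sym, c1_mk] at h0
      rw [← h0, two_mul]
      congr 1
      exact Finset.sum_congr rfl fun j _ => by rw [add_comm (v j)]
    · intro k
      have h1 := hw (some k)
      rw [Fintype.sum_option] at h1
      simp only [c1_sym, c1_mk] at h1
      exact h1

theorem c1_case_ne (h2 : (2 : κ) ≠ 0) {ι : Type} [Fintype ι] {a : κ} (ha : a ≠ 0) (u v : ι → κ) :
    Nat.card {C : ι → ι → κ // C1ND (c1_sym (c1_mk a u v C))} = c1_cnt κ ι := by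
  have h4 : (2 : κ) * a ≠ 0 := mul_ne_zero h2 ha
  refine Nat.card_congr (Equiv.subtypeEquiv
    (Equiv.subRight (fun j k => (u j + v j) * (u k + v k) / (2 * (2 * a)))) ?_)
  intro C
  rw [c1_nd_mk]
  have hs : ∀ j k, c1_sym (C - fun j k => (u j + v j) * (u k + v k) / (2 * (2 * a))) j k =
      c1_sym C j k - (u j + v j) * (u k + v k) / (2 * a) := by
    intro j k
    simp only [c1_sym, Pi.sub_apply]
    field_simp
    ring
  have hsum : ∀ (y : ι → κ) (k : ι),
      ∑ j, (c1_sym C j k - (u j + v j) * (u k + v k) / (2 * a)) * y j =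
      (u k + v k) * (-(∑ j, (u j + v j) * y j) / (2 * a)) + ∑ j, c1_sym C j k * y j := by
    intro y k
    have e1 : (u k + v k) * (-(∑ j, (u j + v j) * y j) / (2 * a)) =
        ∑ j, -((u j + v j) * (u k + v k) / (2 * a)) * y j := by
      rw [neg_div, mul_neg, mul_div_assoc', ← neg_div, Finset.mul_sum, ← Finset.sum_neg_distrib,
        Finset.sum_div]
      refine Finset.sum_congr rfl fun j _ => ?_
      ring
    rw [e1, ← Finset.sum_add_distrib]
    refine Finset.sum_congr rfl fun j _ => ?_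
    ring
  constructor
  · intro h y hy
    refine (h (-(∑ j, (u j + v j) * y j) / (2 * a)) y ?_ ?_).2
    · field_simp
      ring
    · intro k
      rw [← hsum]
      have := hy k
      simp only [Equiv.subRight_apply, hs] at this
      exact this
  · intro h x y h0 h1
    have hx : x = -(∑ j, (u j + v j) * y j) / (2 * a) := by
      rw [eq_div_iff h4]
      linear_combination h0
    have hy : y = 0 := by
      refine h y fun k => ?_
      simp only [Equiv.subRight_apply, hs]
      rw [hsum, ← hx]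
      exact h1 k
    refine ⟨?_, hy⟩
    rw [hx, hy]
    simp

theorem c1_case_zero {ι : Type} [Fintype ι] (u v : ι → κ) (h : u + v = 0) :
    Nat.card {C : ι → ι → κ // C1ND (c1_sym (c1_mk 0 u v C))} = 0 := by
  rw [Nat.card_eq_zero]
  left
  refine ⟨fun ⟨C, hC⟩ => ?_⟩
  rw [c1_nd_mk] at hC
  have huv : ∀ k, u k + v k = 0 := fun k => congrFun h k
  have := (hC 1 0 (by simp) (by intro k; simp [huv k])).1
  exact one_ne_zero this

/-- The shear. -/
def c1_shear (κ : Type) [Field κ] {ι : Type} (m : ι → κ) :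
    (Option ι → Option ι → κ) ≃ (κ × (ι → κ) × (ι → κ)) × (ι → ι → κ) where
  toFun c := ((c none none, fun k => c none (some k), fun j => c (some j) none),
    fun j k => c (some j) (some k) - m k * c (some j) none - m j * c none (some k) +
      m j * m k * c none none)
  invFun p := c1_mk p.1.1 p.1.2.1 p.1.2.2 fun j k => p.2 j k + m k * p.1.2.2 j +
    m j * p.1.2.1 k - m j * m k * p.1.1
  left_inv c := by
    funext o o'
    cases o with
    | none => cases o' <;> rfl
    | some j =>
      cases o' with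
      | none => rfl
      | some k =>
        simp only [c1_mk]
        ring
  right_inv p := by
    refine Prod.ext rfl ?_
    funext j k
    simp only [c1_mk]
    ring

/-- The condition for `a = 0`. -/
def C1P {ι : Type} [Fintype ι] (l : ι → κ) (s : ι → ι → κ) : Prop :=
  ∀ (x : κ) (y : ι → κ), ∑ j, l j * y j = 0 →
    (∀ k, l k * x + ∑ j, s j k * y j = 0) → x = 0 ∧ y = 0

theorem c1_P_iff {ι : Type} [Fintype ι] (l : Option ι → κ) (hl : l none ≠ 0)
    (c : Option ι → Option ι → κ) :
    C1P l (c1_sym c) ↔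
      C1ND (c1_sym (c1_shear κ (fun j => l (some j) / l none) c).2) := by
  set m : ι → κ := fun j => l (some j) / l none with hm
  have hlm : ∀ j, l (some j) = m j * l none := fun j => by rw [hm]; field_simp
  have key : ∀ (x : κ) (y : Option ι → κ),
      y none = -∑ j, m j * y (some j) →
      l none * x + (c1_sym c none none * y none + ∑ j, c1_sym c (some j) none * y (some j)) = 0 →
      ∀ k, l (some k) * x + (c1_sym c none (some k) * y none +
        ∑ j, c1_sym c (some j) (some k) * y (some j)) =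
        ∑ j, c1_sym (c1_shear κ m c).2 j k * y (some j) := by
    intro x y hy hx k
    have e1 : ∑ j, c1_sym (c1_shear κ m c).2 j k * y (some j) =
        ∑ j, c1_sym c (some j) (some k) * y (some j) -
          m k * ∑ j, c1_sym c (some j) none * y (some j) -
          (c1_sym c none (some k) - m k * c1_sym c none none) * ∑ j, m j * y (some j) := by
      rw [Finset.mul_sum, Finset.mul_sum, ← Finset.sum_sub_distrib, ← Finset.sum_sub_distrib]
      refine Finset.sum_congr rfl fun j _ => ?_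
      simp only [c1_sym, c1_shear, Equiv.coe_fn_mk]
      ring
    rw [e1, hlm k]
    have hy' : ∑ j, m j * y (some j) = -y none := by rw [hy, neg_neg]
    rw [hy']
    linear_combination (m k) * hx
  constructor
  · intro h z hz
    set y : Option ι → κ := fun o => o.elim (-∑ j, m j * z j) z with hy
    set x : κ := -(c1_sym c none none * y none + ∑ j, c1_sym c (some j) none * y (some j)) / l none
      with hx
    have hx' : l none * x +
        (c1_sym c none none * y none + ∑ j, c1_sym c (some j) none * y (some j)) = 0 := by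
      rw [hx]
      field_simp
      ring
    have h3 := h x y ?_ ?_
    · funext j
      exact congrFun h3.2 (some j)
    · rw [Fintype.sum_option]
      simp only [hy, Option.elim]
      rw [mul_neg, Finset.mul_sum, ← Finset.sum_neg_distrib, ← Finset.sum_add_distrib]
      refine Finset.sum_eq_zero fun j _ => ?_
      rw [hlm j]
      ring
    · intro k
      rw [Fintype.sum_option]
      cases k with
      | none => exact hx'
      | some k =>
        rw [key x y (by simp [hy]) hx' k]
        exact hz k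
  · intro h x y h0 h1
    rw [Fintype.sum_option] at h0
    have hy0 : y none = -∑ j, m j * y (some j) := by
      have e2 : ∑ j, l (some j) * y (some j) = l none * ∑ j, m j * y (some j) := by
        rw [Finset.mul_sum]
        refine Finset.sum_congr rfl fun j _ => ?_
        rw [hlm j]
        ring
      rw [e2, ← mul_add] at h0
      have := (mul_eq_zero.1 h0).resolve_left hl
      linear_combination this
    have hx' := h1 none
    rw [Fintype.sum_option] at hx'
    have hz : (fun j => y (some j)) = 0 := by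
      refine h _ fun k => ?_
      have h3 := h1 (some k)
      rw [Fintype.sum_option, key x y hy0 hx' k] at h3
      exact h3
    have hz' : ∀ j, y (some j) = 0 := fun j => congrFun hz j
    have hyn : y none = 0 := by
      rw [hy0]
      simp [hz']
    refine ⟨?_, ?_⟩
    · rw [hyn] at hx'
      simp only [hz', mul_zero, Finset.sum_const_zero, add_zero] at hx'
      exact (mul_eq_zero.1 hx').resolve_left hl
    · funext o
      cases o with
      | none => exact hyn
      | some j => exact hz' j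

theorem c1_P_congr {ι ι' : Type} [Fintype ι] [Fintype ι'] (e : ι ≃ ι') (l : ι' → κ)
    (s : ι' → ι' → κ) :
    C1P (fun j => l (e j)) (fun j k => s (e j) (e k)) ↔ C1P l s := by
  constructor
  · intro h x y h0 h1
    have h3 := h x (fun j => y (e j)) ?_ ?_
    · refine ⟨h3.1, ?_⟩
      funext j
      have h4 := congrFun h3.2 (e.symm j)
      simpa using h4
    · rw [← h0, ← e.sum_comp]
    · intro k
      have h5 := h1 (e k)
      rw [← e.sum_comp] at h5
      exact h5
  · intro h x y h0 h1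
    have h3 := h x (fun j => y (e.symm j)) ?_ ?_
    · refine ⟨h3.1, ?_⟩
      funext j
      have h4 := congrFun h3.2 (e j)
      simpa using h4
    · rw [← h0, ← e.symm.sum_comp]
      simp
    · intro k
      have h5 := h1 (e.symm k)
      rw [← e.symm.sum_comp] at h5
      simpa using h5

theorem c1_card_P_option [Fintype κ] {ι : Type} [Fintype ι] (l : Option ι → κ)
    (hl : l none ≠ 0) :
    Nat.card {C : Option ι → Option ι → κ // C1P l (c1_sym C)} =
      Fintype.card κ ^ (2 * Fintype.card ι + 1) * c1_cnt κ ι := by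
  classical
  have e : {C : Option ι → Option ι → κ // C1P l (c1_sym C)} ≃
      (κ × (ι → κ) × (ι → κ)) × {C : ι → ι → κ // C1ND (c1_sym C)} := by
    refine (Equiv.subtypeEquiv (c1_shear κ (fun j => l (some j) / l none))
      (q := fun p => C1ND (c1_sym p.2)) (fun c => c1_P_iff l hl c)).trans ?_
    exact {
      toFun := fun p => (p.1.1, ⟨p.1.2, p.2⟩)
      invFun := fun p => ⟨(p.1, p.2.1), p.2.2⟩
      left_inv := fun _ => rfl
      right_inv := fun _ => rfl }
  rw [Nat.card_congr e, Nat.card_prod, Nat.card_prod, Nat.card_prod, c1_cnt]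
  simp only [Nat.card_eq_fintype_card, Fintype.card_fun]
  ring

theorem c1_card_P [Fintype κ] (M : ℕ) (l : Fin (M + 1) → κ) (hl : l ≠ 0) :
    Nat.card {C : Fin (M + 1) → Fin (M + 1) → κ // C1P l (c1_sym C)} =
      Fintype.card κ ^ (2 * M + 1) * c1_cnt κ (Fin M) := by
  obtain ⟨i, hi⟩ := Function.ne_iff.1 hl
  set e : Fin (M + 1) ≃ Option (Fin M) := finSuccEquiv' i with he
  have h1 := c1_card_P_option (κ := κ) (ι := Fin M) (fun o => l (e.symm o)) (by
    rw [he, finSuccEquiv'_symm_none]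
    simpa using hi)
  rw [Fintype.card_fin] at h1
  rw [← h1]
  refine Nat.card_congr (Equiv.subtypeEquiv ((e.arrowCongr (e.arrowCongr (Equiv.refl κ)))) ?_)
  intro c
  rw [← c1_P_congr e]
  simp only [Equiv.arrowCongr, Equiv.coe_fn_mk, c1_sym, Function.comp_apply, Equiv.symm_apply_apply,
    Equiv.refl_apply]
  exact Iff.rfl

theorem c1_rec (h2 : (2 : κ) ≠ 0) [Fintype κ] {ι : Type} [Fintype ι] (z : ℕ)
    (hz : ∀ l : ι → κ, l ≠ 0 → Nat.card {C : ι → ι → κ // C1P l (c1_sym C)} = z) :
    c1_cnt κ (Option ι) =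
      (Fintype.card κ - 1) * Fintype.card κ ^ (2 * Fintype.card ι) * c1_cnt κ ι +
      Fintype.card κ ^ Fintype.card ι * (Fintype.card κ ^ Fintype.card ι - 1) * z := by
  classical
  have e : {c : Option ι → Option ι → κ // C1ND (c1_sym c)} ≃
      Σ p : κ × (ι → κ) × (ι → κ), {C : ι → ι → κ // C1ND (c1_sym (c1_mk p.1 p.2.1 p.2.2 C))} := by
    refine (Equiv.subtypeEquiv (c1_equiv κ ι)
      (q := fun p => C1ND (c1_sym (c1_mk p.1.1 p.1.2.1 p.1.2.2 p.2))) (fun c => ?_)).trans ?_
    · have : c1_mk ((c1_equiv κ ι) c).1.1 ((c1_equiv κ ι) c).1.2.1 ((c1_equiv κ ι) c).1.2.2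
          ((c1_equiv κ ι) c).2 = c := (c1_equiv κ ι).left_inv c
      rw [this]
    · exact {
        toFun := fun p => ⟨p.1.1, ⟨p.1.2, p.2⟩⟩
        invFun := fun p => ⟨(p.1, p.2.1), p.2.2⟩
        left_inv := fun _ => rfl
        right_inv := fun _ => rfl }
  have hP : ∀ (u v : ι → κ) (C : ι → ι → κ),
      C1ND (c1_sym (c1_mk 0 u v C)) ↔ C1P (u + v) (c1_sym C) := by
    intro u v C
    rw [c1_nd_mk]
    simp [C1P]
  have hval : ∀ p : κ × (ι → κ) × (ι → κ),
      Nat.card {C : ι → ι → κ // C1ND (c1_sym (c1_mk p.1 p.2.1 p.2.2 C))} =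
        (if p.1 ≠ 0 then c1_cnt κ ι else 0) +
        (if p.1 = 0 then (if p.2.1 + p.2.2 ≠ 0 then z else 0) else 0) := by
    rintro ⟨a, u, v⟩
    by_cases ha : a = 0
    · subst ha
      by_cases huv : u + v = 0
      · rw [c1_case_zero u v huv]
        simp [huv]
      · simp only [ne_eq, not_true_eq_false, if_false, if_true, huv, not_false_eq_true, zero_add]
        rw [← hz (u + v) huv]
        exact Nat.card_congr (Equiv.subtypeEquivRight fun C => hP u v C)
    · rw [c1_case_ne h2 ha]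
      simp [ha]
  rw [c1_cnt, Nat.card_congr e, Nat.card_sigma]
  simp only [hval]
  rw [Finset.sum_add_distrib]
  congr 1
  · rw [Fintype.sum_prod_type]
    have hin : ∀ x : κ, ∑ _y : (ι → κ) × (ι → κ), (if x ≠ 0 then c1_cnt κ ι else 0) =
        Fintype.card κ ^ Fintype.card ι * Fintype.card κ ^ Fintype.card ι *
          (if x ≠ 0 then c1_cnt κ ι else 0) := by
      intro x
      rw [Finset.sum_const, Finset.card_univ, Fintype.card_prod, Fintype.card_fun, smul_eq_mul]
    refine (Finset.sum_congr rfl fun x _ => hin x).trans ?_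
    rw [← Finset.mul_sum, ← Finset.sum_filter, Finset.sum_const, smul_eq_mul]
    have hc : (Finset.univ.filter fun x : κ => x ≠ 0).card = Fintype.card κ - 1 := by
      rw [Finset.filter_ne' Finset.univ (0 : κ), Finset.card_erase_of_mem (Finset.mem_univ _),
        Finset.card_univ]
    rw [hc, two_mul, pow_add]
    ring
  · rw [Fintype.sum_prod_type]
    have h0 : ∀ a : κ, ∑ y : (ι → κ) × (ι → κ),
        (if a = 0 then (if y.1 + y.2 ≠ 0 then z else 0) else 0) =
        if a = 0 then ∑ y : (ι → κ) × (ι → κ), (if y.1 + y.2 ≠ 0 then z else 0) else 0 := by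
      intro a
      split_ifs <;> simp
    simp only [h0]
    rw [Finset.sum_ite_eq' Finset.univ (0 : κ)]
    simp only [Finset.mem_univ, if_true]
    rw [Fintype.sum_prod_type]
    have h1 : ∀ u : ι → κ, ∑ v : ι → κ, (if u + v ≠ 0 then z else 0) =
        (Fintype.card κ ^ Fintype.card ι - 1) * z := by
      intro u
      rw [← Equiv.sum_comp (Equiv.addLeft (-u)) (fun v => if u + v ≠ 0 then z else 0)]
      simp only [Equiv.coe_addLeft, add_neg_cancel_left]
      rw [← Finset.sum_filter, Finset.sum_const, smul_eq_mul]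
      congr 1
      rw [Finset.filter_ne' Finset.univ (0 : ι → κ), Finset.card_erase_of_mem (Finset.mem_univ _),
        Finset.card_univ, Fintype.card_fun]
    simp only [h1]
    rw [Finset.sum_const, Finset.card_univ, Fintype.card_fun, smul_eq_mul]
    ring

theorem c1_main (h2 : (2 : κ) ≠ 0) [Fintype κ] (N : ℕ) :
    (c1_cnt κ (Fin N) : ℝ) = (Fintype.card κ : ℝ) ^ (N ^ 2) *
        ∏ j ∈ Finset.range ((N + 1) / 2), (1 - 1 / (Fintype.card κ : ℝ) ^ (2 * j + 1)) := by
  have hq : 1 ≤ Fintype.card κ := Fintype.card_pos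
  have hq0 : (Fintype.card κ : ℝ) ≠ 0 := by positivity
  induction N using Nat.strong_induction_on with
  | _ N ih =>
    match N, ih with
    | 0, _ =>
      have : c1_cnt κ (Fin 0) = 1 := by
        rw [c1_cnt, Nat.card_eq_one_iff_unique]
        refine ⟨⟨fun a b => Subtype.ext (funext fun i => i.elim0)⟩, ⟨⟨fun i => i.elim0, ?_⟩⟩⟩
        intro v _
        funext i
        exact i.elim0
      rw [this]
      simp
    | 1, ih =>
      have h0 := ih 0 (by norm_num)
      have h1 := c1_rec (κ := κ) h2 (ι := Fin 0) 0 (fun l hl => absurd (Subsingleton.elim l 0) hl)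
      rw [c1_cnt_congr (finSuccEquiv 0), h1]
      simp only [Fintype.card_fin, mul_zero, pow_zero, mul_one, add_zero]
      push_cast [Nat.cast_sub hq]
      rw [h0]
      simp
      field_simp
    | M + 2, ih =>
      have h0 := ih M (by omega)
      have h1 := ih (M + 1) (by omega)
      have hr := c1_rec (κ := κ) h2 (ι := Fin (M + 1)) _ (c1_card_P M)
      rw [c1_cnt_congr (finSuccEquiv (M + 1)), hr]
      have hqM : 1 ≤ Fintype.card κ ^ Fintype.card (Fin (M + 1)) := Nat.one_le_pow _ _ hq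
      push_cast [Nat.cast_sub hq, Nat.cast_sub hqM]
      rw [h0, h1]
      simp only [Fintype.card_fin]
      set q : ℝ := (Fintype.card κ : ℝ) with hqdef
      rcases Nat.even_or_odd' M with ⟨t, rfl | rfl⟩
      · have e1 : (2 * t + 1) / 2 = t := by omega
        have e2 : (2 * t + 1 + 1) / 2 = t + 1 := by omega
        have e3 : (2 * t + 2 + 1) / 2 = t + 1 := by omega
        rw [e1, e2, e3, Finset.prod_range_succ]
        set P := ∏ j ∈ Finset.range t, (1 - 1 / q ^ (2 * j + 1))
        have e4 : q ^ ((2 * t + 2) ^ 2) = q ^ ((2 * t) ^ 2) * q ^ (8 * t + 4) := by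
          rw [← pow_add]; congr 1; ring
        have e5 : q ^ ((2 * t + 1) ^ 2) = q ^ ((2 * t) ^ 2) * q ^ (4 * t + 1) := by
          rw [← pow_add]; congr 1; ring
        rw [e4, e5]
        field_simp
        ring
      · have e1 : (2 * t + 1 + 1) / 2 = t + 1 := by omega
        have e2 : (2 * t + 1 + 1 + 1) / 2 = t + 1 := by omega
        have e3 : (2 * t + 1 + 2 + 1) / 2 = t + 2 := by omega
        rw [e1, e2, e3, Finset.prod_range_succ _ (t + 1)]
        set P := ∏ j ∈ Finset.range (t + 1), (1 - 1 / q ^ (2 * j + 1))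
        have e4 : q ^ ((2 * t + 1 + 2) ^ 2) = q ^ ((2 * t + 1) ^ 2) * q ^ (8 * t + 8) := by
          rw [← pow_add]; congr 1; ring
        have e5 : q ^ ((2 * t + 1 + 1) ^ 2) = q ^ ((2 * t + 1) ^ 2) * q ^ (4 * t + 3) := by
          rw [← pow_add]; congr 1; ring
        rw [e4, e5]
        field_simp
        ring

end C1

/-- Recursion: let `a` be the value at the first basis vector and `ℓ` its polar with the
others. If `a ≠ 0`, the form splits off `a * x ^ 2`; if `a = 0`, `ℓ ≠ 0`, it splits off a hyperbolic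
plane; so `G N = (1 - 1 / q) * G (N - 1) + (1 / q) * (1 - q ^ (1 - N)) * G (N - 2)`. -/
theorem card_qnondeg_odd {κ : Type} [Field κ] [Finite κ] (h2 : (2 : κ) ≠ 0) (N : ℕ) :
    (Nat.card {c : Fin N → Fin N → κ // QNondeg c} : ℝ) =
      (Nat.card κ : ℝ) ^ (N ^ 2) *
        ∏ j ∈ Finset.range ((N + 1) / 2), (1 - 1 / (Nat.card κ : ℝ) ^ (2 * j + 1)) := by
  classical
  have : Fintype κ := Fintype.ofFinite κ
  rw [Nat.card_congr (Equiv.subtypeEquivRight fun c => c1_qnondeg_iff h2 c),
    Nat.card_eq_fintype_card (α := κ)]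
  exact c1_main h2 N

end Pool.Agent.Lib.MP_6a3dac_ag.Maj
end

section

/-!
# Quadratic forms with one-dimensional kernel
-/

set_option autoImplicit false

namespace Pool.Agent.Lib.MP_6a3dac_ag.Maj

/-- The matrices of the quadratic forms whose kernel is the line spanned by `v`. -/
def LineKer {ι κ : Type} [Fintype ι] [CommRing κ] (c : ι → ι → κ) (v : ι → κ) : Prop :=
  v ≠ 0 ∧ ∀ w : ι → κ, (qf c w = 0 ∧ ∀ k, qd c w k = 0) ↔ ∃ t : κ, w = fun i => t * v i

section C3

open Matrix

theorem c3_qf {ι κ : Type} [Fintype ι] [CommRing κ] (c : Matrix ι ι κ) (v : ι → κ) :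
    qf c v = v ⬝ᵥ (c *ᵥ v) := by
  unfold qf dotProduct mulVec dotProduct
  refine Finset.sum_congr rfl fun j _ => ?_
  rw [Finset.mul_sum]
  refine Finset.sum_congr rfl fun k _ => ?_
  ring

theorem c3_qd {ι κ : Type} [Fintype ι] [CommRing κ] (c : Matrix ι ι κ) (v : ι → κ) :
    qd c v = (c + cᵀ) *ᵥ v := by
  funext k
  unfold qd mulVec dotProduct
  refine Finset.sum_congr rfl fun j _ => ?_
  simp only [Matrix.add_apply, Matrix.transpose_apply]
  ring

theorem c3_qf_conj {ι κ : Type} [Fintype ι] [CommRing κ] (c A : Matrix ι ι κ) (v : ι → κ) :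
    qf (Aᵀ * c * A) v = qf c (A *ᵥ v) := by
  rw [c3_qf, c3_qf, ← mulVec_mulVec, ← mulVec_mulVec, dotProduct_mulVec v Aᵀ, vecMul_transpose]

theorem c3_qd_conj {ι κ : Type} [Fintype ι] [CommRing κ] (c A : Matrix ι ι κ) (v : ι → κ) :
    qd (Aᵀ * c * A) v = Aᵀ *ᵥ qd c (A *ᵥ v) := by
  rw [c3_qd, c3_qd, mulVec_mulVec, mulVec_mulVec]
  congr 1
  rw [transpose_mul, transpose_mul, transpose_transpose, Matrix.mul_add, Matrix.add_mul,
    ← Matrix.mul_assoc]

theorem c3_lineKer_conj {ι κ : Type} [Fintype ι] [DecidableEq ι] [CommRing κ]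
    (c A B : Matrix ι ι κ) (hAB : A * B = 1) (hBA : B * A = 1) (e : ι → κ)
    (h : LineKer c (A *ᵥ e)) : LineKer (Aᵀ * c * A) e := by
  have hinj : ∀ x : ι → κ, B *ᵥ (A *ᵥ x) = x := by
    intro x
    rw [mulVec_mulVec, hBA, one_mulVec]
  have hT : ∀ x : ι → κ, Aᵀ *ᵥ x = 0 ↔ x = 0 := by
    intro x
    constructor
    · intro hx
      have h1 : Bᵀ *ᵥ (Aᵀ *ᵥ x) = x := by
        rw [mulVec_mulVec, ← transpose_mul, hAB, transpose_one, one_mulVec]
      rw [← h1, hx, mulVec_zero]
    · rintro rfl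
      exact mulVec_zero _
  refine ⟨fun he => h.1 (by rw [he, mulVec_zero]), fun w => ?_⟩
  have h2 := h.2 (A *ᵥ w)
  rw [c3_qf_conj, c3_qd_conj]
  have h3 : (∀ k, (Aᵀ *ᵥ qd c (A *ᵥ w)) k = 0) ↔ ∀ k, qd c (A *ᵥ w) k = 0 := by
    have := hT (qd c (A *ᵥ w))
    rw [funext_iff, funext_iff] at this
    exact this
  rw [h3, h2]
  constructor
  · rintro ⟨t, ht⟩
    refine ⟨t, ?_⟩
    have h4 : A *ᵥ w = t • (A *ᵥ e) := ht
    rw [← mulVec_smul] at h4
    have h5 : w = t • e := by
      rw [← hinj w, h4, hinj]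
    exact h5
  · rintro ⟨t, ht⟩
    refine ⟨t, ?_⟩
    have h4 : w = t • e := ht
    rw [h4, mulVec_smul]
    rfl

/-- The congruence transformation of a matrix. -/
def c3_conj {ι κ : Type} [Fintype ι] [CommRing κ] (A c : Matrix ι ι κ) : Matrix ι ι κ :=
  Aᵀ * c * A

theorem c3_card_conj {ι κ : Type} [Fintype ι] [DecidableEq ι] [Field κ]
    (e v : ι → κ) (he : e ≠ 0) (hv : v ≠ 0) :
    Nat.card {c : ι → ι → κ // LineKer c v} = Nat.card {c : ι → ι → κ // LineKer c e} := by
  obtain ⟨A, B, hAB, hBA, hAe⟩ : ∃ A B : Matrix ι ι κ, A * B = 1 ∧ B * A = 1 ∧ A *ᵥ e = v := by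
    let f : Submodule.span κ {e} ≃ₗ[κ] Submodule.span κ {v} :=
      (LinearEquiv.toSpanNonzeroSingleton κ (ι → κ) e he).symm ≪≫ₗ
        LinearEquiv.toSpanNonzeroSingleton κ (ι → κ) v hv
    obtain ⟨g, hg⟩ := Submodule.exists_linearEquiv_restrict_eq f
    have hge : g e = v := by
      have h1 := hg ⟨e, Submodule.mem_span_singleton_self e⟩
      rw [← h1]
      have h2 : (⟨e, Submodule.mem_span_singleton_self e⟩ : Submodule.span κ {e}) =
          LinearEquiv.toSpanNonzeroSingleton κ (ι → κ) e he 1 := by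
        rw [LinearEquiv.toSpanNonzeroSingleton_one]
      rw [h2, LinearEquiv.trans_apply, LinearEquiv.symm_apply_apply,
        LinearEquiv.toSpanNonzeroSingleton_one]
    refine ⟨LinearMap.toMatrix' (g : (ι → κ) →ₗ[κ] (ι → κ)),
      LinearMap.toMatrix' (g.symm : (ι → κ) →ₗ[κ] (ι → κ)), ?_, ?_, ?_⟩
    · rw [← LinearMap.toMatrix'_comp]
      simp
    · rw [← LinearMap.toMatrix'_comp]
      simp
    · rw [LinearMap.toMatrix'_mulVec]
      exact hge
  have hBv : B *ᵥ v = e := by
    rw [← hAe, mulVec_mulVec, hBA, one_mulVec]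
  have hinv : ∀ (A B : Matrix ι ι κ) (_ : A * B = 1) (c : Matrix ι ι κ),
      Bᵀ * (Aᵀ * c * A) * B = c := by
    intro A B hAB c
    have h1 : Bᵀ * Aᵀ = 1 := by rw [← transpose_mul, hAB, transpose_one]
    calc Bᵀ * (Aᵀ * c * A) * B
        = (Bᵀ * Aᵀ) * c * (A * B) := by simp only [Matrix.mul_assoc]
      _ = c := by rw [h1, hAB, Matrix.one_mul, Matrix.mul_one]
  refine Nat.card_congr
    { toFun := fun c => ⟨c3_conj A c.1, ?_⟩
      invFun := fun c => ⟨c3_conj B c.1, ?_⟩
      left_inv := ?_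
      right_inv := ?_ }
  · apply c3_lineKer_conj _ A B hAB hBA
    rw [hAe]
    exact c.2
  · apply c3_lineKer_conj _ B A hBA hAB
    rw [hBv]
    exact c.2
  · rintro ⟨c, hc⟩
    apply Subtype.ext
    exact hinv A B hAB c
  · rintro ⟨c, hc⟩
    apply Subtype.ext
    exact hinv B A hBA c

/-- The last basis vector. -/
def c3_e (κ : Type) [Field κ] (N : ℕ) : Fin (N + 1) → κ := Fin.snoc (fun _ : Fin N => (0 : κ)) 1

theorem c3_e_last (κ : Type) [Field κ] (N : ℕ) : c3_e κ N (Fin.last N) = 1 := by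
  simp [c3_e]

theorem c3_e_castSucc (κ : Type) [Field κ] (N : ℕ) (i : Fin N) : c3_e κ N i.castSucc = 0 := by
  simp [c3_e]

theorem c3_e_ne (κ : Type) [Field κ] (N : ℕ) : c3_e κ N ≠ 0 := by
  intro h
  have := congrFun h (Fin.last N)
  rw [c3_e_last] at this
  exact one_ne_zero this

theorem c3_char {κ : Type} [Field κ] (N : ℕ) (c : Fin (N + 1) → Fin (N + 1) → κ) :
    LineKer c (c3_e κ N) ↔
      (c (Fin.last N) (Fin.last N) = 0 ∧
        (∀ k : Fin N, c (Fin.last N) k.castSucc = - c k.castSucc (Fin.last N))) ∧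
      QNondeg fun j k : Fin N => c j.castSucc k.castSucc := by
  have key : (c (Fin.last N) (Fin.last N) = 0 ∧
        (∀ k : Fin N, c (Fin.last N) k.castSucc = - c k.castSucc (Fin.last N))) →
      ∀ w : Fin (N + 1) → κ,
        qf c w = qf (fun j k : Fin N => c j.castSucc k.castSucc) (fun i => w i.castSucc) ∧
        (∀ k : Fin N, qd c w k.castSucc =
          qd (fun j k : Fin N => c j.castSucc k.castSucc) (fun i => w i.castSucc) k) ∧
        qd c w (Fin.last N) = 0 := by
    rintro ⟨h0, h1⟩ w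
    refine ⟨?_, ?_, ?_⟩
    · unfold qf
      rw [Fin.sum_univ_castSucc]
      simp only [Fin.sum_univ_castSucc, Finset.sum_add_distrib, h0, h1, zero_mul, add_zero]
      rw [add_assoc, add_eq_left, ← Finset.sum_add_distrib]
      exact Finset.sum_eq_zero fun i _ => by ring
    · intro k
      unfold qd
      rw [Fin.sum_univ_castSucc, h1]
      simp
    · unfold qd
      rw [Fin.sum_univ_castSucc, h0]
      simp [h1]
  constructor
  · rintro ⟨_, h⟩
    have he := (h (c3_e κ N)).2 ⟨1, by funext i; simp⟩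
    have h0 : c (Fin.last N) (Fin.last N) = 0 := by
      have h2 := he.1
      unfold qf at h2
      rw [Fin.sum_univ_castSucc] at h2
      simp only [Fin.sum_univ_castSucc, c3_e_last, c3_e_castSucc] at h2
      simpa using h2
    have h1 : ∀ k : Fin N, c (Fin.last N) k.castSucc = - c k.castSucc (Fin.last N) := by
      intro k
      have h2 := he.2 k.castSucc
      unfold qd at h2
      rw [Fin.sum_univ_castSucc] at h2
      simp only [c3_e_last, c3_e_castSucc] at h2
      simp only [mul_zero, Finset.sum_const_zero, mul_one, zero_add] at h2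
      exact eq_neg_of_add_eq_zero_left h2
    refine ⟨⟨h0, h1⟩, ?_⟩
    intro w hw hqf
    by_contra hcon
    push Not at hcon
    have k1 := key ⟨h0, h1⟩ (Fin.snoc w 0)
    simp only [Fin.snoc_castSucc] at k1
    obtain ⟨t, ht⟩ := (h (Fin.snoc w 0)).1 ⟨by rw [k1.1]; exact hqf, fun k => by
      refine Fin.lastCases ?_ (fun i => ?_) k
      · exact k1.2.2
      · rw [k1.2.1 i]
        exact hcon i⟩
    apply hw
    funext i
    have h3 := congrFun ht i.castSucc
    rw [c3_e_castSucc, Fin.snoc_castSucc] at h3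
    simpa using h3
  · rintro ⟨h01, hQ⟩
    refine ⟨c3_e_ne κ N, fun w => ?_⟩
    obtain ⟨k1, k2, k3⟩ := key h01 w
    constructor
    · rintro ⟨h2, h3⟩
      refine ⟨w (Fin.last N), ?_⟩
      have h4 : (fun i : Fin N => w i.castSucc) = 0 := by
        by_contra hne
        obtain ⟨k, hk⟩ := hQ _ hne (by rw [← k1]; exact h2)
        exact hk (by rw [← k2]; exact h3 _)
      funext i
      refine Fin.lastCases ?_ (fun i => ?_) i
      · rw [c3_e_last, mul_one]
      · rw [c3_e_castSucc, mul_zero]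
        exact congrFun h4 i
    · rintro ⟨t, rfl⟩
      have h4 : (fun i : Fin N => t * c3_e κ N i.castSucc) = 0 := by
        funext i
        rw [c3_e_castSucc, mul_zero]
        rfl
      rw [h4] at k1 k2
      refine ⟨?_, fun k => ?_⟩
      · rw [k1]
        simp [qf]
      · refine Fin.lastCases ?_ (fun i => ?_) k
        · exact k3
        · rw [k2]
          simp [qd]

theorem c3_card_e {κ : Type} [Field κ] [Finite κ] (N : ℕ) :
    Nat.card {c : Fin (N + 1) → Fin (N + 1) → κ // LineKer c (c3_e κ N)} =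
      Nat.card κ ^ N * Nat.card {c : Fin N → Fin N → κ // QNondeg c} := by
  have h1 : Nat.card κ ^ N = Nat.card (Fin N → κ) := by
    rw [Nat.card_fun, Nat.card_eq_fintype_card (α := Fin N), Fintype.card_fin]
  rw [h1, ← Nat.card_prod]
  refine Nat.card_congr
    { toFun := fun c => (fun k => c.1 k.castSucc (Fin.last N),
        ⟨fun j k => c.1 j.castSucc k.castSucc, ((c3_char N c.1).1 c.2).2⟩)
      invFun := fun p => ⟨Fin.snoc (fun j => Fin.snoc (p.2.1 j) (p.1 j))
        (Fin.snoc (fun k => - p.1 k) 0), ?_⟩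
      left_inv := ?_
      right_inv := ?_ }
  · rw [c3_char]
    refine ⟨⟨by simp, fun k => by simp⟩, ?_⟩
    have := p.2.2
    simpa using this
  · rintro ⟨c, hc⟩
    apply Subtype.ext
    have h2 := ((c3_char N c).1 hc).1
    funext i j
    refine Fin.lastCases ?_ (fun i => ?_) i
    · refine Fin.lastCases ?_ (fun j => ?_) j
      · simp [h2.1]
      · simp [h2.2]
    · refine Fin.lastCases ?_ (fun j => ?_) j
      · simp
      · simp
  · rintro ⟨a, c, hc⟩
    simp

end C3

/-- The number of quadratic forms with one-dimensional kernel: `v` runs over the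
`(q ^ N - 1) / (q - 1)` lines; for `v` the last basis vector the form is a nondegenerate form in the
first `N - 1` variables, and `GL_N` acts transitively on the lines. -/
theorem card_lineKer {κ : Type} [Field κ] [Finite κ] (N : ℕ) :
    (Nat.card {c : Fin (N + 1) → Fin (N + 1) → κ // ∃ v, LineKer c v} : ℝ) *
        ((Nat.card κ : ℝ) - 1) =
      ((Nat.card κ : ℝ) ^ (N + 1) - 1) * (Nat.card κ : ℝ) ^ N *
        Nat.card {c : Fin N → Fin N → κ // QNondeg c} := by
  classical
  have : Fintype κ := Fintype.ofFinite κ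
  -- fibres over the forms
  have hP1 : Nat.card {p : (Fin (N + 1) → Fin (N + 1) → κ) × (Fin (N + 1) → κ) //
      LineKer p.1 p.2} =
      Nat.card {c : Fin (N + 1) → Fin (N + 1) → κ // ∃ v, LineKer c v} * Nat.card κˣ := by
    rw [← Nat.card_prod]
    symm
    refine Nat.card_congr (Equiv.ofBijective
      (fun x : {c : Fin (N + 1) → Fin (N + 1) → κ // ∃ v, LineKer c v} × κˣ =>
        (⟨(x.1.1, fun i => (x.2 : κ) * x.1.2.choose i), ?_⟩ :
          {p : (Fin (N + 1) → Fin (N + 1) → κ) × (Fin (N + 1) → κ) // LineKer p.1 p.2})) ?_)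
    · have h := x.1.2.choose_spec
      refine ⟨?_, ?_⟩
      · intro h0
        apply h.1
        funext i
        have := congrFun h0 i
        simpa using this
      · intro w
        rw [h.2 w]
        constructor
        · rintro ⟨t, ht⟩
          refine ⟨t * (x.2⁻¹ : κˣ), ?_⟩
          rw [ht]
          funext i
          rw [mul_assoc, ← mul_assoc ((x.2⁻¹ : κˣ) : κ), Units.inv_mul, one_mul]
        · rintro ⟨t, ht⟩
          refine ⟨t * x.2, ?_⟩
          rw [ht]
          funext i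
          ring
    · constructor
      · rintro ⟨⟨c, hc⟩, s⟩ ⟨⟨c', hc'⟩, s'⟩ h
        have h1 := congrArg Subtype.val h
        have hcc : c = c' := (Prod.ext_iff.1 h1).1
        subst hcc
        have h2 : (fun i => (s : κ) * hc.choose i) = fun i => (s' : κ) * hc.choose i :=
          (Prod.ext_iff.1 h1).2
        have h3 := hc.choose_spec.1
        obtain ⟨i, hi⟩ := Function.ne_iff.1 h3
        have h4 := congrFun h2 i
        have h5 : (s : κ) = s' := mul_right_cancel₀ hi h4
        have h6 : s = s' := Units.ext h5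
        rw [h6]
      · rintro ⟨⟨c, v⟩, hcv⟩
        have hc : ∃ v, LineKer c v := ⟨v, hcv⟩
        have h := hc.choose_spec
        have h1 : ∃ t : κ, v = fun i => t * hc.choose i := by
          rw [← h.2 v]
          rw [hcv.2 v]
          exact ⟨1, by simp⟩
        obtain ⟨t, ht⟩ := h1
        have ht0 : t ≠ 0 := by
          rintro rfl
          apply hcv.1
          change v = 0
          rw [ht]
          funext i
          simp
        refine ⟨(⟨c, hc⟩, Units.mk0 t ht0), ?_⟩
        apply Subtype.ext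
        change (c, fun i => t * hc.choose i) = (c, v)
        rw [← ht]
  -- fibres over the vectors
  have hP2 : Nat.card {p : (Fin (N + 1) → Fin (N + 1) → κ) × (Fin (N + 1) → κ) //
      LineKer p.1 p.2} =
      (Nat.card κ ^ (N + 1) - 1) *
        (Nat.card κ ^ N * Nat.card {c : Fin N → Fin N → κ // QNondeg c}) := by
    have e1 : {p : (Fin (N + 1) → Fin (N + 1) → κ) × (Fin (N + 1) → κ) // LineKer p.1 p.2} ≃
        Σ v : {v : Fin (N + 1) → κ // v ≠ 0},
          {c : Fin (N + 1) → Fin (N + 1) → κ // LineKer c v.1} :=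
      { toFun := fun p => ⟨⟨p.1.2, p.2.1⟩, ⟨p.1.1, p.2⟩⟩
        invFun := fun s => ⟨(s.2.1, s.1.1), s.2.2⟩
        left_inv := fun p => rfl
        right_inv := fun s => rfl }
    rw [Nat.card_congr e1, Nat.card_sigma]
    have h2 : ∀ v : {v : Fin (N + 1) → κ // v ≠ 0},
        Nat.card {c : Fin (N + 1) → Fin (N + 1) → κ // LineKer c v.1} =
          Nat.card κ ^ N * Nat.card {c : Fin N → Fin N → κ // QNondeg c} := by
      intro v
      rw [c3_card_conj (c3_e κ N) v.1 (c3_e_ne κ N) v.2, c3_card_e]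
    rw [Finset.sum_congr rfl fun v _ => h2 v, Finset.sum_const, Finset.card_univ, smul_eq_mul]
    congr 1
    rw [Fintype.card_subtype_compl, Fintype.card_subtype_eq, Fintype.card_fun,
      Fintype.card_fin, Nat.card_eq_fintype_card]
  rw [hP1] at hP2
  have hq : 1 ≤ Nat.card κ := Nat.card_pos
  have hq2 : 1 ≤ Nat.card κ ^ (N + 1) := Nat.one_le_pow _ _ hq
  rw [Nat.card_units] at hP2
  have h5 := congrArg (Nat.cast : ℕ → ℝ) hP2
  push_cast [Nat.cast_sub hq, Nat.cast_sub hq2] at h5
  rw [h5]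
  ring

theorem c4_prod_bound (q : ℝ) (hq : 2 ≤ q) (m : ℕ) :
    0 ≤ (1 + 1 / q) * ∏ j ∈ Finset.range (m + 1), (1 - 1 / q ^ (2 * j + 1)) ∧
    (1 + 1 / q) * ∏ j ∈ Finset.range (m + 1), (1 - 1 / q ^ (2 * j + 1)) ≤ 1 - 1 / q ^ 2 ∧
    1 - 1 / q ^ 2 - 1 / q ^ 3 + 1 / q ^ (2 * m + 3) ≤
      (1 + 1 / q) * ∏ j ∈ Finset.range (m + 1), (1 - 1 / q ^ (2 * j + 1)) := by
  have hq0 : 0 < q := by linarith
  set x : ℝ := 1 / q with hx
  have hx0 : 0 < x := by positivity
  have hx1 : x ≤ 1 / 2 := by
    rw [hx]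
    exact one_div_le_one_div_of_le (by norm_num) hq
  have hpow : ∀ n : ℕ, 1 / q ^ n = x ^ n := fun n => by rw [hx, one_div_pow]
  simp only [hpow]
  induction m with
  | zero =>
    simp only [zero_add, Finset.range_one, Finset.prod_singleton, mul_zero, pow_one]
    refine ⟨?_, ?_, ?_⟩
    · nlinarith
    · nlinarith
    · nlinarith
  | succ m ih =>
    obtain ⟨h1, h2, h3⟩ := ih
    rw [Finset.prod_range_succ, ← mul_assoc]
    set B := (1 + x) * ∏ j ∈ Finset.range (m + 1), (1 - x ^ (2 * j + 1)) with hB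
    have he : 2 * (m + 1) + 1 = 2 * m + 3 := by ring
    have he2 : x ^ (2 * (m + 1) + 3) = x ^ (2 * m + 3) * x ^ 2 := by
      rw [← pow_add]; congr 1
    rw [he, he2]
    have hy0 : 0 < x ^ (2 * m + 3) := by positivity
    have hy1 : x ^ (2 * m + 3) ≤ 1 := pow_le_one₀ hx0.le (by linarith)
    set y := x ^ (2 * m + 3) with hy
    refine ⟨mul_nonneg h1 (by linarith), ?_, ?_⟩
    · nlinarith
    · nlinarith

/-- Real analysis; uses `card_qnondeg_odd`, `card_qnondeg_even`, `card_lineKer`. -/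
theorem good_quad_bound {κ : Type} [Field κ] [Finite κ] (N : ℕ) :
    (1 - 1 / (Nat.card κ : ℝ) ^ 2 - 1 / (Nat.card κ : ℝ) ^ 3) *
        (Nat.card κ : ℝ) ^ ((N + 1) ^ 2) ≤
      (Nat.card {c : Fin (N + 1) → Fin (N + 1) → κ // QNondeg c} : ℝ) +
        (1 - 1 / (Nat.card κ : ℝ)) *
          Nat.card {c : Fin (N + 1) → Fin (N + 1) → κ // ∃ v, LineKer c v} := by
  have hcount : ∀ M : ℕ, (Nat.card {c : Fin M → Fin M → κ // QNondeg c} : ℝ) =
      (Nat.card κ : ℝ) ^ (M ^ 2) *
        ∏ j ∈ Finset.range ((M + 1) / 2), (1 - 1 / (Nat.card κ : ℝ) ^ (2 * j + 1)) := by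
    intro M
    by_cases h2 : (2 : κ) = 0
    · exact card_qnondeg_even h2 M
    · exact card_qnondeg_odd h2 M
  have hline := card_lineKer (κ := κ) N
  have hq : (2 : ℝ) ≤ (Nat.card κ : ℝ) := by
    have : 1 < Nat.card κ := Finite.one_lt_card
    exact_mod_cast this
  rw [hcount N] at hline
  rw [hcount (N + 1)]
  set q : ℝ := (Nat.card κ : ℝ) with hqdef
  set L : ℝ := (Nat.card {c : Fin (N + 1) → Fin (N + 1) → κ // ∃ v, LineKer c v} : ℝ) with hL
  have hq0 : 0 < q := by linarith
  set b : ℕ → ℝ := fun m => ∏ j ∈ Finset.range m, (1 - 1 / q ^ (2 * j + 1)) with hb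
  have hLval : (1 - 1 / q) * L = q ^ ((N + 1) ^ 2) * (b ((N + 1) / 2) * (1 - 1 / q ^ (N + 1)) / q) := by
    have h1 : (1 - 1 / q) * L = L * (q - 1) / q := by field_simp
    have h3 : q ^ ((N + 1) ^ 2) = q ^ (N ^ 2) * q ^ N * q ^ (N + 1) := by
      rw [← pow_add, ← pow_add]; congr 1; ring
    rw [h1, hline, h3]
    show _ = q ^ (N ^ 2) * q ^ N * q ^ (N + 1) *
      ((∏ j ∈ Finset.range ((N + 1) / 2), (1 - 1 / q ^ (2 * j + 1))) * (1 - 1 / q ^ (N + 1)) / q)
    have h4 : q ^ (N + 1) * (1 - 1 / q ^ (N + 1)) = q ^ (N + 1) - 1 := by field_simp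
    calc _ = q ^ (N ^ 2) * q ^ N * (q ^ (N + 1) - 1) *
        (∏ j ∈ Finset.range ((N + 1) / 2), (1 - 1 / q ^ (2 * j + 1))) / q := by ring
      _ = _ := by rw [← h4]; ring
  rw [hLval]
  have hmain : 1 - 1 / q ^ 2 - 1 / q ^ 3 ≤
      b ((N + 1 + 1) / 2) + b ((N + 1) / 2) * (1 - 1 / q ^ (N + 1)) / q := by
    have hbpos : ∀ m, 0 ≤ b m := by
      intro m
      apply Finset.prod_nonneg
      intro j _
      have : 1 / q ^ (2 * j + 1) ≤ 1 := by
        rw [div_le_one (by positivity)]
        exact one_le_pow₀ (by linarith)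
      linarith
    rcases Nat.even_or_odd' N with ⟨m, hm | hm⟩
    · -- `N = 2 m`
      have e1 : (N + 1 + 1) / 2 = m + 1 := by omega
      have e2 : (N + 1) / 2 = m := by omega
      have e3 : N + 1 = 2 * m + 1 := by omega
      obtain ⟨h1, h2, h3⟩ := c4_prod_bound q hq m
      have h4 : b (m + 1) = b m * (1 - 1 / q ^ (2 * m + 1)) := by
        simp only [hb]
        rw [Finset.prod_range_succ]
      rw [e1, e2, e3]
      have h5 : b (m + 1) + b m * (1 - 1 / q ^ (2 * m + 1)) / q = (1 + 1 / q) * b (m + 1) := by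
        rw [← h4]; ring
      rw [h5]
      have h6 : 0 < 1 / q ^ (2 * m + 3) := by positivity
      exact le_trans (by linarith) h3
    · -- `N = 2 m + 1`
      have e1 : (N + 1 + 1) / 2 = m + 1 := by omega
      have e2 : (N + 1) / 2 = m + 1 := by omega
      obtain ⟨h1, h2, h3⟩ := c4_prod_bound q hq (m + 1)
      have h4 : b (m + 1 + 1) = b (m + 1) * (1 - 1 / q ^ (2 * (m + 1) + 1)) := by
        simp only [hb]
        rw [Finset.prod_range_succ]
      rw [e1, e2]
      have h6 : 0 < 1 / q ^ (2 * (m + 1) + 3) := by positivity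
      have h7 : 1 - 1 / q ^ 2 - 1 / q ^ 3 ≤ (1 + 1 / q) * b (m + 1 + 1) := le_trans (by linarith) h3
      refine h7.trans ?_
      rw [h4]
      have h8 : (b (m + 1) + b (m + 1) * (1 - 1 / q ^ (N + 1)) / q) -
          (1 + 1 / q) * (b (m + 1) * (1 - 1 / q ^ (2 * (m + 1) + 1))) =
          b (m + 1) * ((1 + 1 / q) * (1 / q ^ (2 * (m + 1) + 1)) - 1 / q ^ (N + 1) / q) := by ring
      have h9 : 1 / q ^ (N + 1) / q = 1 / q ^ (2 * (m + 1) + 1) := by
        rw [div_div, ← pow_succ]
        congr 2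
        omega
      rw [h9] at h8
      have h10 : 0 ≤ b (m + 1) * ((1 + 1 / q) * (1 / q ^ (2 * (m + 1) + 1)) -
          1 / q ^ (2 * (m + 1) + 1)) := by
        apply mul_nonneg (hbpos _)
        have : (1 + 1 / q) * (1 / q ^ (2 * (m + 1) + 1)) - 1 / q ^ (2 * (m + 1) + 1)
          = 1 / q * (1 / q ^ (2 * (m + 1) + 1)) := by ring
        rw [this]
        positivity
      linarith
  calc (1 - 1 / q ^ 2 - 1 / q ^ 3) * q ^ ((N + 1) ^ 2)
      ≤ (b ((N + 1 + 1) / 2) + b ((N + 1) / 2) * (1 - 1 / q ^ (N + 1)) / q) * q ^ ((N + 1) ^ 2) :=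
        mul_le_mul_of_nonneg_right hmain (by positivity)
    _ = _ := by ring

end Pool.Agent.Lib.MP_6a3dac_ag.Maj
end

section

/-!
# The number of the singular points of the special fibre
-/

set_option autoImplicit false

namespace Pool.Agent.Lib.MP_6a3dac_ag.Maj

open MvPolynomial
open Pool.Agent.Lib.MP_6a3dac_ag.DNF

theorem x1_totalDegree {R S : Type} [CommRing R] [CommRing S] {σ : Type} (θ : R →+* S) (i : σ)
    (p : MvPolynomial σ R) : (map θ (pderiv i p)).totalDegree ≤ p.totalDegree := by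
  classical
  apply Finset.sup_le
  intro m hm
  rw [mem_support_iff, coeff_map, coeff_pderiv] at hm
  have h0 : coeff (m + Finsupp.single i 1) p ≠ 0 := by
    intro h
    apply hm
    rw [h, zero_mul, map_zero]
  have h1 : m + Finsupp.single i 1 ∈ p.support := by
    rw [mem_support_iff]; exact h0
  have h2 := le_totalDegree h1
  rw [Finsupp.sum_add_index' (fun _ => rfl) (fun _ _ _ => rfl), Finsupp.sum_single_index rfl] at h2
  omega

/-- Uses `card_zeros`. The zero set `V` of the derivatives of `f` over an algebraic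
closure of the residue field is finite, each of the maximal ideals is the kernel of the evaluation
at a point of `V`. -/
theorem ncard_sing_le {O : Type} [CommRing O] [IsDomain O] [IsDiscreteValuationRing O] {ϖ : O}
    (hϖ : Irreducible ϖ) (hfin : Finite (O ⧸ Ideal.span {ϖ})) {σ : Type} [Fintype σ] {d : ℕ}
    {f : MvPolynomial σ O} (hd : f.totalDegree ≤ d) (h : FinJac ϖ f) :
    {𝔮 : Ideal (MvPolynomial σ O) | 𝔮.IsMaximal ∧ C ϖ ∈ 𝔮 ∧ ∀ l, pderiv l f ∈ 𝔮}.Finite ∧
      {𝔮 : Ideal (MvPolynomial σ O) | 𝔮.IsMaximal ∧ C ϖ ∈ 𝔮 ∧ ∀ l, pderiv l f ∈ 𝔮}.ncard ≤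
        (Fintype.card σ * d + 1) ^ (Fintype.card σ ^ 2) := by
  classical
  have hmax : (Ideal.span {ϖ}).IsMaximal := PrincipalIdealRing.isMaximal_of_irreducible hϖ
  let k : Type := O ⧸ Ideal.span {ϖ}
  let _ : Field k := Ideal.Quotient.field _
  let Ω : Type := AlgebraicClosure k
  let θ : O →+* Ω := (algebraMap k Ω).comp (Ideal.Quotient.mk _)
  have hθϖ : θ ϖ = 0 := by
    change algebraMap k Ω (Ideal.Quotient.mk (Ideal.span {ϖ}) ϖ) = 0
    rw [Ideal.Quotient.eq_zero_iff_mem.mpr (Ideal.mem_span_singleton_self ϖ), map_zero]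
  set I : Ideal (MvPolynomial σ O) :=
    Ideal.span (insert (C ϖ) (Set.range fun l => pderiv l f)) with hI
  have hBI : Finite (MvPolynomial σ O ⧸ I) := h
  let V : Set (σ → Ω) := {z | ∀ l, eval z (map θ (pderiv l f)) = 0}
  have hkill : ∀ z ∈ V, ∀ p ∈ I, eval₂Hom θ z p = 0 := by
    intro z hz p hp
    have h1 : I ≤ RingHom.ker (eval₂Hom θ z) := by
      rw [hI, Ideal.span_le]
      rintro w (rfl | ⟨l, rfl⟩)
      · change eval₂Hom θ z (C ϖ) = 0
        rw [eval₂Hom_C, hθϖ]
      · change eval₂Hom θ z (pderiv l f) = 0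
        have h2 := hz l
        rw [eval_map] at h2
        exact h2
    exact h1 hp
  -- `V` is finite
  have hV : V.Finite := by
    have h1 : ∀ l : σ, ∃ a b : ℕ, a ≠ b ∧ ∀ z ∈ V, z l ^ a = z l ^ b := by
      intro l
      obtain ⟨a, b, hab, he⟩ := Finite.exists_ne_map_eq_of_infinite
        (fun m : ℕ => (Ideal.Quotient.mk I (X l)) ^ m)
      refine ⟨a, b, hab, fun z hz => ?_⟩
      have he' : Ideal.Quotient.mk I (X l) ^ a = Ideal.Quotient.mk I (X l) ^ b := he
      rw [← map_pow, ← map_pow, Ideal.Quotient.eq] at he'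
      have h2 := hkill z hz _ he'
      rw [map_sub, map_pow, map_pow, eval₂Hom_X', sub_eq_zero] at h2
      exact h2
    choose a b hab hz using h1
    have h2 : ∀ l : σ, {w : Ω | w ^ a l = w ^ b l}.Finite := by
      intro l
      have h3 : (Polynomial.X ^ a l - Polynomial.X ^ b l : Polynomial Ω) ≠ 0 := by
        intro h4
        rw [sub_eq_zero] at h4
        have h5 := congrArg Polynomial.natDegree h4
        rw [Polynomial.natDegree_X_pow, Polynomial.natDegree_X_pow] at h5
        exact hab l h5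
      refine (Polynomial.finite_setOf_isRoot h3).subset ?_
      intro w hw
      have hw' : w ^ a l = w ^ b l := hw
      change Polynomial.IsRoot _ w
      rw [Polynomial.IsRoot, Polynomial.eval_sub, Polynomial.eval_pow, Polynomial.eval_pow,
        Polynomial.eval_X, hw', sub_self]
    refine (Set.Finite.pi' h2).subset ?_
    intro z hzV l
    exact hz l z hzV
  let Φ : (σ → Ω) → Ideal (MvPolynomial σ O) := fun z => RingHom.ker (eval₂Hom θ z)
  have hsub : {𝔮 : Ideal (MvPolynomial σ O) | 𝔮.IsMaximal ∧ C ϖ ∈ 𝔮 ∧ ∀ l, pderiv l f ∈ 𝔮} ⊆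
      Φ '' V := by
    rintro 𝔮 ⟨hq, hϖq, hpd⟩
    have hIq : I ≤ 𝔮 := by
      rw [hI, Ideal.span_le]
      rintro w (rfl | ⟨l, rfl⟩)
      · exact hϖq
      · exact hpd l
    let F : Type := MvPolynomial σ O ⧸ 𝔮
    let _ : Field F := Ideal.Quotient.field 𝔮
    have hF : Finite F := Finite.of_surjective (Ideal.Quotient.factor hIq)
      (Ideal.Quotient.factor_surjective hIq)
    have hCk : ∀ r ∈ Ideal.span {ϖ}, ((Ideal.Quotient.mk 𝔮).comp C) r = 0 := by
      intro r hr
      obtain ⟨s, rfl⟩ := Ideal.mem_span_singleton'.mp hr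
      change Ideal.Quotient.mk 𝔮 (C (s * ϖ)) = 0
      rw [Ideal.Quotient.eq_zero_iff_mem, C_mul]
      exact Ideal.mul_mem_left _ _ hϖq
    let j : k →+* F := Ideal.Quotient.lift (Ideal.span {ϖ}) ((Ideal.Quotient.mk 𝔮).comp C) hCk
    let _ : Algebra k F := j.toAlgebra
    have hfd : Module.Finite k F := inferInstance
    have halg : Algebra.IsAlgebraic k F := Algebra.IsAlgebraic.of_finite k F
    let ψ : F →ₐ[k] Ω := IsAlgClosed.lift
    let z : σ → Ω := fun l => ψ (Ideal.Quotient.mk 𝔮 (X l))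
    have hz : eval₂Hom θ z = (ψ : F →+* Ω).comp (Ideal.Quotient.mk 𝔮) := by
      apply MvPolynomial.ringHom_ext
      · intro r
        rw [eval₂Hom_C]
        change algebraMap k Ω (Ideal.Quotient.mk _ r) = ψ (Ideal.Quotient.mk 𝔮 (C r))
        have h3 : (Ideal.Quotient.mk 𝔮 (C r)) = algebraMap k F (Ideal.Quotient.mk _ r) := rfl
        rw [h3, ψ.commutes]
      · intro l
        rw [eval₂Hom_X']
        rfl
    refine ⟨z, ?_, ?_⟩
    · intro l
      rw [eval_map]
      change eval₂Hom θ z (pderiv l f) = 0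
      rw [hz]
      change ψ (Ideal.Quotient.mk 𝔮 (pderiv l f)) = 0
      rw [Ideal.Quotient.eq_zero_iff_mem.mpr (hpd l), map_zero]
    · change RingHom.ker (eval₂Hom θ z) = 𝔮
      rw [hz]
      ext p
      rw [RingHom.mem_ker]
      change ψ (Ideal.Quotient.mk 𝔮 p) = 0 ↔ p ∈ 𝔮
      rw [map_eq_zero_iff ψ ψ.toRingHom.injective, Ideal.Quotient.eq_zero_iff_mem]
  refine ⟨(hV.image Φ).subset hsub, ?_⟩
  calc {𝔮 : Ideal (MvPolynomial σ O) | 𝔮.IsMaximal ∧ C ϖ ∈ 𝔮 ∧ ∀ l, pderiv l f ∈ 𝔮}.ncard
      ≤ (Φ '' V).ncard := Set.ncard_le_ncard hsub (hV.image Φ)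
    _ ≤ V.ncard := Set.ncard_image_le hV
    _ ≤ (Fintype.card σ * d + 1) ^ (Fintype.card σ ^ 2) :=
        card_zeros rfl (fun l => map θ (pderiv l f))
          (fun l => (x1_totalDegree θ l f).trans hd) hV

end Pool.Agent.Lib.MP_6a3dac_ag.Maj
end
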