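import Pool.Agent.Lib.MP_6a3dac_ag.Sys.Defs
import Pool.Agent.Lib.MP_6a3dac_ag.Mg.G072
import Pool.Agent.Lib.MP_6a3dac_ag.Mg.G028
import Pool.Agent.Lib.MP_6a3dac_ag.Mg.G001
import Pool.Agent.Lib.MP_6a3dac_ag.DNF.Dehom
import Pool.Agent.Lib.MP_6a3dac_ag.Mg.G007
import Pool.Agent.Lib.MP_6a3dac_ag.Mg.G029
import Pool.Agent.Lib.MP_6a3dac_ag.Dens.Pair

section

/-!
# Smooth complete intersections of positive dimension are integral
-/

set_option autoImplicit false

namespace Pool.Agent.Lib.MP_6a3dac_ag.Sys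

open MvPolynomial IsLocalRing RingTheory.Sequence

/-- The dimension drops by exactly one modulo an element of a regular system of parameters. -/
theorem t18_dim_quotient {O : Type} [CommRing O] [IsLocalRing O] (hO : IsRegularLocalRing O)
    {f : O} (hf : f ∈ maximalIdeal O) (hf2 : f ∉ maximalIdeal O ^ 2) :
    ringKrullDim (O ⧸ Ideal.span {f}) + 1 = ringKrullDim O := by
  have hloc := isLocalRing_quotient hf
  have hreg := isRegularLocalRing_quotient hO hf hf2
  have h1 := spanFinrank_quotient_add_one_le hf hf2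
  have h2 := (isRegularLocalRing_iff O).mp hO
  have h3 := (isRegularLocalRing_iff (O ⧸ Ideal.span {f})).mp hreg
  apply le_antisymm
  · rw [← h2, ← h3]
    exact_mod_cast h1
  · rw [← maximalIdeal_height_eq_ringKrullDim]
    exact Ideal.height_le_ringKrullDim_quotient_add_one hf

/-- The quotient of a regular local ring by elements of the maximal ideal which are linearly
independent modulo its square is regular, of the expected dimension. -/
theorem t18_quotient_range (r : ℕ) : ∀ (O : Type) [CommRing O]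
    [IsLocalRing O] (_ : IsRegularLocalRing O) (f : Fin r → O), (∀ i, f i ∈ maximalIdeal O) →
    (∀ c : Fin r → O, ∑ i, c i * f i ∈ maximalIdeal O ^ 2 → ∀ i, c i ∈ maximalIdeal O) →
    IsRegularLocalRing (O ⧸ Ideal.span (Set.range f)) ∧
      ringKrullDim (O ⧸ Ideal.span (Set.range f)) + r = ringKrullDim O := by
  induction r with
  | zero =>
    intro O _ _ hO f _ _
    have h0 : Ideal.span (Set.range f) = ⊥ := by
      rw [Set.range_eq_empty, Ideal.span_empty]
    refine ⟨IsRegularLocalRing.of_ringEquiv ((RingEquiv.quotientBot O).symm.trans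
      (Ideal.quotEquivOfEq h0.symm)), ?_⟩
    rw [Nat.cast_zero, add_zero]
    exact (ringKrullDim_eq_of_ringEquiv ((RingEquiv.quotientBot O).symm.trans
      (Ideal.quotEquivOfEq h0.symm))).symm
  | succ r ih =>
    intro O _ _ hO f hf hind
    have hf0 : f 0 ∉ maximalIdeal O ^ 2 := by
      intro h0
      have h1 := hind (Pi.single 0 1) (by simpa [Fin.sum_univ_succ] using h0) 0
      rw [Pi.single_eq_same] at h1
      exact (maximalIdeal.isMaximal O).ne_top ((Ideal.eq_top_iff_one _).mpr h1)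
    have hreg := isRegularLocalRing_quotient hO (hf 0) hf0
    have hdim0 := t18_dim_quotient hO (hf 0) hf0
    have := isLocalRing_quotient (hf 0)
    have hcomap : ∀ x : O, Ideal.Quotient.mk (Ideal.span {f 0}) x ∈
        maximalIdeal (O ⧸ Ideal.span {f 0}) ↔ x ∈ maximalIdeal O := by
      intro x
      have := IsLocalHom.of_surjective (Ideal.Quotient.mk (Ideal.span {f 0}))
        Ideal.Quotient.mk_surjective
      have h5 := ((IsLocalRing.local_hom_TFAE (Ideal.Quotient.mk (Ideal.span {f 0}))).out 0 4).mp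
        this
      rw [← Ideal.mem_comap, h5]
    have hmap : (maximalIdeal O).map (Ideal.Quotient.mk (Ideal.span {f 0})) =
        maximalIdeal (O ⧸ Ideal.span {f 0}) := by
      apply le_antisymm
      · rw [Ideal.map_le_iff_le_comap]
        intro x hx
        exact (hcomap x).mpr hx
      · intro y hy
        obtain ⟨x, rfl⟩ := Ideal.Quotient.mk_surjective y
        exact Ideal.mem_map_of_mem _ ((hcomap x).mp hy)
    obtain ⟨h2, hd2⟩ := ih (O ⧸ Ideal.span {f 0}) hreg
      (fun i => Ideal.Quotient.mk (Ideal.span {f 0}) (f i.succ))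
      (fun i => (hcomap _).mpr (hf i.succ)) (by
        intro c hc i
        choose d hd using fun i => Ideal.Quotient.mk_surjective (c i)
        have h3 : Ideal.Quotient.mk (Ideal.span {f 0}) (∑ i : Fin r, d i * f i.succ) ∈
            (maximalIdeal O ^ 2).map (Ideal.Quotient.mk (Ideal.span {f 0})) := by
          rw [Ideal.map_pow, hmap, map_sum]
          simp_rw [map_mul, hd]
          exact hc
        obtain ⟨y, hy, hy2⟩ := (Ideal.mem_map_iff_of_surjective _
          Ideal.Quotient.mk_surjective).mp h3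
        rw [← sub_eq_zero, ← map_sub, Ideal.Quotient.eq_zero_iff_mem] at hy2
        obtain ⟨e, he⟩ := Ideal.mem_span_singleton'.mp hy2
        have h4 := hind (Fin.cons e d) (by
          rw [Fin.sum_univ_succ]
          simp only [Fin.cons_zero, Fin.cons_succ]
          rw [he, sub_add_cancel]
          exact hy) i.succ
        rw [Fin.cons_succ] at h4
        rw [← hd]
        exact (hcomap _).mpr h4)
    let J : Ideal O := Ideal.span (Set.range fun i : Fin r => f i.succ)
    have e1 : Ideal.span (Set.range fun i : Fin r => Ideal.Quotient.mk (Ideal.span {f 0})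
        (f i.succ)) = J.map (Ideal.Quotient.mk (Ideal.span {f 0})) := by
      rw [Ideal.map_span, ← Set.range_comp]
      rfl
    have e2 : Ideal.span {f 0} ⊔ J = Ideal.span (Set.range f) := by
      rw [← Ideal.span_union]
      congr 1
      ext x
      constructor
      · rintro (rfl | ⟨i, rfl⟩)
        · exact ⟨0, rfl⟩
        · exact ⟨i.succ, rfl⟩
      · rintro ⟨i, rfl⟩
        rcases Fin.eq_zero_or_eq_succ i with rfl | ⟨j, rfl⟩
        · exact Or.inl rfl
        · exact Or.inr ⟨j, rfl⟩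
    let e := ((Ideal.quotEquivOfEq e1).trans
      (DoubleQuot.quotQuotEquivQuotSup (Ideal.span {f 0}) J)).trans (Ideal.quotEquivOfEq e2)
    refine ⟨IsRegularLocalRing.of_ringEquiv e, ?_⟩
    rw [← ringKrullDim_eq_of_ringEquiv e, ← hdim0, ← hd2, Nat.cast_succ, add_assoc]

section

variable {K : Type} [Field K] {n c : ℕ} {f : Fin c → MvPolynomial (Fin (n + 1)) K}
  {d : Fin c → ℕ}

/-- Independence of the equations at a point where a minor does not vanish. -/
theorem t18_indep (p : Ideal (MvPolynomial (Fin (n + 1)) K)) [hp : p.IsPrime]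
    (hfp : ∀ k, f k ∈ p) {s : Fin c → Fin (n + 1)} (hs : minor f s ∉ p)
    {s' : MvPolynomial (Fin (n + 1)) K} {a : Fin c → MvPolynomial (Fin (n + 1)) K}
    (hs' : s' ∉ p) (h : s' * ∑ k, a k * f k ∈ p ^ 2) (k : Fin c) : a k ∈ p := by
  have h1 : ∀ b, ∑ k, a k * pderiv (s b) (f k) ∈ p := by
    intro b
    have h2 := derivation_mem p (pderiv (s b)) hs' h
    rw [map_sum] at h2
    have h5 : ∑ k, pderiv (s b) (a k * f k) = ∑ k, a k * pderiv (s b) (f k) +
        ∑ k, f k * pderiv (s b) (a k) := by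
      rw [← Finset.sum_add_distrib]
      refine Finset.sum_congr rfl fun j _ => ?_
      rw [Derivation.leibniz, smul_eq_mul, smul_eq_mul]
    rw [h5] at h2
    exact (Submodule.add_mem_iff_left p (p.sum_mem fun j _ => p.mul_mem_right _ (hfp j))).mp h2
  have h2 : minor f s * a k ∈ p := by
    have h3 : (Matrix.vecMul (Matrix.vecMul a (Matrix.of fun k b => pderiv (s b) (f k)))
        (Matrix.of fun k b => pderiv (s b) (f k)).adjugate) k = minor f s * a k := by
      rw [Matrix.vecMul_vecMul, Matrix.mul_adjugate, Matrix.vecMul_smul, Matrix.vecMul_one,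
        Pi.smul_apply, smul_eq_mul]
      rfl
    rw [← h3]
    change ∑ b, Matrix.vecMul a (Matrix.of fun k b => pderiv (s b) (f k)) b *
      (Matrix.of fun k b => pderiv (s b) (f k)).adjugate b k ∈ p
    exact p.sum_mem fun b _ => p.mul_mem_right _ (h1 b)
  exact (hp.mem_or_mem h2).resolve_left hs

/-- The local rings away from the origin. -/
theorem regular_quotient_of_jac {N : ℕ}
    (hN : ∀ i, X i ^ N ∈ Ideal.span (Set.range f ∪ Set.range (minor f)))
    (p : Ideal (MvPolynomial (Fin (n + 1)) K)) [p.IsPrime] (hfp : ∀ k, f k ∈ p)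
    (hp : ∃ i, X i ∉ p) :
    IsRegularLocalRing (Localization.AtPrime p ⧸ (Ideal.span (Set.range f)).map
      (algebraMap (MvPolynomial (Fin (n + 1)) K) (Localization.AtPrime p))) ∧
    ringKrullDim (Localization.AtPrime p ⧸ (Ideal.span (Set.range f)).map
      (algebraMap (MvPolynomial (Fin (n + 1)) K) (Localization.AtPrime p))) + c = p.height := by
  have hpp : p.IsPrime := inferInstance
  obtain ⟨s, hs⟩ : ∃ s, minor f s ∉ p := by
    by_contra hcon
    push Not at hcon
    obtain ⟨i, hi⟩ := hp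
    apply hi
    have h1 : Ideal.span (Set.range f ∪ Set.range (minor f)) ≤ p := by
      rw [Ideal.span_le]
      rintro x (⟨k, rfl⟩ | ⟨s, rfl⟩)
      · exact hfp k
      · exact hcon s
    exact hpp.mem_of_pow_mem N (h1 (hN i))
  let P := MvPolynomial (Fin (n + 1)) K
  let R := Localization.AtPrime p
  have hR : IsRegularLocalRing R := inferInstance
  have h1 := t18_quotient_range c R hR (fun k => algebraMap P R (f k)) (by
    intro k
    rw [← Localization.AtPrime.map_eq_maximalIdeal]
    exact Ideal.mem_map_of_mem _ (hfp k)) (by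
    intro c' hc k
    obtain ⟨u, hu⟩ := IsLocalization.exist_integer_multiples_of_finite p.primeCompl c'
    choose a ha using hu
    have h1 : algebraMap P R (∑ k, a k * f k) ∈ maximalIdeal R ^ 2 := by
      have h2 : algebraMap P R (∑ k, a k * f k) =
          algebraMap P R u * ∑ k, c' k * algebraMap P R (f k) := by
        rw [map_sum, Finset.mul_sum]
        refine Finset.sum_congr rfl fun j _ => ?_
        rw [map_mul, ha j, Algebra.smul_def]
        change algebraMap P R u * c' j * _ = _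
        ring
      rw [h2]
      exact Ideal.mul_mem_left _ _ hc
    rw [mem_maximalIdeal_pow_iff] at h1
    obtain ⟨s', hs', hs2⟩ := h1
    have h3 := t18_indep p hfp hs hs' hs2 k
    have h6 : algebraMap P R (a k) ∈ maximalIdeal R := by
      rw [← Localization.AtPrime.map_eq_maximalIdeal]
      exact Ideal.mem_map_of_mem _ h3
    rw [ha, Algebra.smul_def] at h6
    exact (Ideal.unit_mul_mem_iff_mem _ (IsLocalization.map_units R u)).mp h6)
  have h2 : Ideal.span (Set.range fun k => algebraMap P R (f k)) =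
      (Ideal.span (Set.range f)).map (algebraMap P R) := by
    rw [Ideal.map_span, ← Set.range_comp]
    rfl
  rw [h2, IsLocalization.AtPrime.ringKrullDim_eq_height p] at h1
  exact h1

end

end Pool.Agent.Lib.MP_6a3dac_ag.Sys
end

section

set_option autoImplicit false

namespace Pool.Agent.Lib.MP_6a3dac_ag.Sys

open MvPolynomial IsLocalRing RingTheory.Sequence
open scoped Pointwise

theorem t19_depth_regular (t : ℕ) : ∀ (O : Type) [CommRing O] [IsRegularLocalRing O],
    t ≤ (maximalIdeal O).spanFinrank → DepthGE O O t := by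
  induction t with
  | zero =>
    intro O _ _ _
    exact ⟨[], rfl, by simp, IsRegular.nil O O⟩
  | succ t ih =>
    intro O _ hO h
    have hdom : IsDomain O := isDomain_aux _ O le_rfl
    have hm2 : ∃ x ∈ maximalIdeal O, x ∉ maximalIdeal O ^ 2 := by
      by_contra hcon
      push Not at hcon
      have h0 : maximalIdeal O = ⊥ := by
        apply Submodule.eq_bot_of_le_smul_of_le_jacobson_bot (maximalIdeal O) _
          (Ideal.fg_of_isNoetherianRing _) _ (IsLocalRing.maximalIdeal_le_jacobson _)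
        rw [smul_eq_mul, ← pow_two]
        exact hcon
      rw [h0] at h
      simp at h
    obtain ⟨x, hx, hx2⟩ := hm2
    have := isLocalRing_quotient hx
    have hreg := isRegularLocalRing_quotient hO hx hx2
    have hx0 : x ≠ 0 := by
      rintro rfl
      exact hx2 (Ideal.zero_mem _)
    have hdim : t ≤ (maximalIdeal (O ⧸ Ideal.span {x})).spanFinrank := by
      have h1 := (isRegularLocalRing_iff _).mp hO
      have h2 := (isRegularLocalRing_iff _).mp hreg
      have h3 : ringKrullDim O ≤ ringKrullDim (O ⧸ Ideal.span {x}) + 1 := by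
        rw [← maximalIdeal_height_eq_ringKrullDim]
        exact Ideal.height_le_ringKrullDim_quotient_add_one hx
      rw [← h1, ← h2] at h3
      have h4 : (maximalIdeal O).spanFinrank ≤
          (maximalIdeal (O ⧸ Ideal.span {x})).spanFinrank + 1 := by exact_mod_cast h3
      omega
    obtain ⟨rs, hlen, hmem, hrs⟩ := ih (O ⧸ Ideal.span {x}) hdim
    choose lift hlift using (Ideal.Quotient.mk_surjective (I := Ideal.span {x}))
    have hmemO : ∀ r ∈ x :: rs.map lift, r ∈ maximalIdeal O := by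
      intro r hr
      rw [List.mem_cons, List.mem_map] at hr
      rcases hr with rfl | ⟨s, hs, rfl⟩
      · exact hx
      · have h5 := IsLocalHom.of_surjective (Ideal.Quotient.mk (Ideal.span {x}))
          Ideal.Quotient.mk_surjective
        have h6 := ((IsLocalRing.local_hom_TFAE (Ideal.Quotient.mk (Ideal.span {x}))).out 0 4).mp
          h5
        rw [← h6, Ideal.mem_comap, hlift]
        exact hmem s hs
    refine ⟨x :: rs.map lift, by simp [hlen], hmemO, ?_⟩
    refine IsRegular.of_isWeaklyRegular_of_mem_maximalIdeal O hmemO ?_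
    rw [isWeaklyRegular_cons_iff]
    refine ⟨?_, ?_⟩
    · rw [isSMulRegular_iff_right_eq_zero_of_smul]
      intro y hy
      exact (mul_eq_zero.mp hy).resolve_left hx0
    · have hspan : (x • ⊤ : Submodule O O) = Ideal.span {x} := by
        rw [← Submodule.ideal_span_singleton_smul, smul_eq_mul, Ideal.mul_top]
      let e : QuotSMulTop x O ≃ₗ[O] (O ⧸ Ideal.span {x}) := Submodule.quotEquivOfEq _ _ hspan
      have h7 := AddEquiv.isWeaklyRegular_congr (e := e.toAddEquiv) (as := rs.map lift)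
        (bs := rs) (List.forall₂_map_left_iff.mpr (List.forall₂_same.mpr fun r _ y => by
          change e (lift r • y) = r • e y
          rw [e.map_smul]
          conv_rhs => rw [← hlift r]
          rfl))
      exact h7.mpr hrs.toIsWeaklyRegular

theorem t19_comp_mul {K : Type} [Field K] {n : ℕ} (t s : MvPolynomial (Fin (n + 1)) K) (a j : ℕ) :
    homogeneousComponent j (homogeneousComponent a t * s) =
      if a ≤ j then homogeneousComponent a t * homogeneousComponent (j - a) s else 0 := by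
  let _ := MvPolynomial.gradedAlgebra (σ := Fin (n + 1)) (R := K)
  have hd : ∀ (f : MvPolynomial (Fin (n + 1)) K) (i : ℕ),
      (DirectSum.decompose (homogeneousSubmodule (Fin (n + 1)) K) f i :
        MvPolynomial (Fin (n + 1)) K) = homogeneousComponent i f := by
    intro f i
    rw [show DirectSum.decompose (homogeneousSubmodule (Fin (n + 1)) K) f i =
      MvPolynomial.decomposition.decompose' f i from rfl,
      MvPolynomial.decomposition.decompose'_apply]
  have hmem : homogeneousComponent a t ∈ homogeneousSubmodule (Fin (n + 1)) K a :=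
    homogeneousComponent_mem a t
  rw [← hd (homogeneousComponent a t * s) j, ← hd s (j - a)]
  split_ifs with h
  · exact DirectSum.coe_decompose_mul_of_left_mem_of_le _ hmem h
  · exact DirectSum.coe_decompose_mul_of_left_mem_of_not_le _ hmem h

theorem t19_homog {K : Type} [Field K] {n : ℕ} {I : Ideal (MvPolynomial (Fin (n + 1)) K)}
    (hI : ∀ p ∈ I, ∀ j, homogeneousComponent j p ∈ I) {t s : MvPolynomial (Fin (n + 1)) K}
    (ht : constantCoeff t ≠ 0) (hts : t * s ∈ I) : s ∈ I := by
  have ht' : coeff 0 t ≠ 0 := ht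
  have hmul : ∀ j, homogeneousComponent j (t * s) =
      ∑ a ∈ Finset.range t.totalDegree, (if a + 1 ≤ j then homogeneousComponent (a + 1) t *
        homogeneousComponent (j - (a + 1)) s else 0) + C (coeff 0 t) * homogeneousComponent j s := by
    intro j
    conv_lhs => rw [← sum_homogeneousComponent t, Finset.sum_mul, map_sum]
    rw [Finset.sum_range_succ']
    simp only [t19_comp_mul]
    simp
  have key : ∀ j, homogeneousComponent j s ∈ I := by
    intro j
    induction j using Nat.strong_induction_on with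
    | _ j ih =>
      have h1 := hI _ hts j
      rw [hmul] at h1
      have h2 : ∑ a ∈ Finset.range t.totalDegree, (if a + 1 ≤ j then
          homogeneousComponent (a + 1) t * homogeneousComponent (j - (a + 1)) s else 0) ∈ I := by
        refine Ideal.sum_mem _ fun k hk => ?_
        split_ifs with h
        · exact Ideal.mul_mem_left _ _ (ih _ (by omega))
        · exact Ideal.zero_mem _
      have h3 : C (coeff 0 t) * homogeneousComponent j s ∈ I :=
        (Ideal.add_mem_iff_right _ h2).mp h1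
      have h4 : homogeneousComponent j s =
          C (coeff 0 t)⁻¹ * (C (coeff 0 t) * homogeneousComponent j s) := by
        rw [← mul_assoc, ← C_mul, inv_mul_cancel₀ ht', C_1, one_mul]
      rw [h4]
      exact Ideal.mul_mem_left _ _ h3
  rw [← sum_homogeneousComponent s]
  exact Ideal.sum_mem _ fun j _ => key j

section

variable {K : Type} [Field K] {n c : ℕ} {f : Fin c → MvPolynomial (Fin (n + 1)) K}
  {d : Fin c → ℕ}

theorem t19_mem_of_X_mem {p : Ideal (MvPolynomial (Fin (n + 1)) K)} (hp : ∀ i, X i ∈ p)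
    {s : MvPolynomial (Fin (n + 1)) K} (hs : constantCoeff s = 0) : s ∈ p := by
  have h1 : Ideal.span ((X : Fin (n + 1) → MvPolynomial (Fin (n + 1)) K) '' Set.univ) ≤ p := by
    rw [Ideal.span_le]
    rintro _ ⟨i, _, rfl⟩
    exact hp i
  apply h1
  rw [mem_ideal_span_X_image]
  intro m hm
  have hm0 : m ≠ 0 := by
    rintro rfl
    exact (mem_support_iff.mp hm) hs
  obtain ⟨i, hi⟩ := Finsupp.ne_iff.mp hm0
  exact ⟨i, Set.mem_univ i, hi⟩

theorem t19_loc {B : Type} [CommRing B] [IsNoetherianRing B]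
    (ψ : MvPolynomial (Fin (n + 1)) K →+* B)
    (hψ : Function.Surjective ψ) (hk : RingHom.ker ψ = Ideal.span (Set.range f)) {N : ℕ}
    (hN : ∀ i, X i ^ N ∈ Ideal.span (Set.range f ∪ Set.range (minor f)))
    (y : Ideal B) [y.IsPrime] (hy : ∀ s, ψ s ∈ y ↔ constantCoeff s = 0)
    (q : Ideal (Localization.AtPrime y)) [hqp : q.IsPrime] (hq : q ≠ maximalIdeal _) :
    IsDomain (Localization.AtPrime q) ∧ q.height + c ≤ n := by
  set q0 : Ideal B := q.comap (algebraMap B (Localization.AtPrime y)) with hq0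
  have hq0p : q0.IsPrime := Ideal.comap_isPrime _ _
  have hloc : IsLocalization.AtPrime (Localization.AtPrime q) q0 :=
    IsLocalization.isLocalization_isLocalization_atPrime_isLocalization y.primeCompl
      (Localization.AtPrime q) q
  let e2 : Localization.AtPrime q0 ≃+* Localization.AtPrime q :=
    (IsLocalization.algEquiv q0.primeCompl (Localization.AtPrime q0)
      (Localization.AtPrime q)).toRingEquiv
  set p : Ideal (MvPolynomial (Fin (n + 1)) K) := q0.comap ψ with hpdef
  have hpp : p.IsPrime := Ideal.comap_isPrime _ _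
  have hfp : ∀ k, f k ∈ p := by
    intro k
    rw [hpdef, Ideal.mem_comap]
    have : ψ (f k) = 0 := by
      rw [← RingHom.mem_ker, hk]
      exact Ideal.subset_span ⟨k, rfl⟩
    rw [this]
    exact q0.zero_mem
  have hp : ∃ i, X i ∉ p := by
    by_contra hcon
    push Not at hcon
    apply hq
    refine IsLocalRing.eq_maximalIdeal ?_
    have hle : maximalIdeal (Localization.AtPrime y) ≤ q := by
      rw [← Localization.AtPrime.map_eq_maximalIdeal, Ideal.map_le_iff_le_comap]
      intro a ha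
      obtain ⟨s, rfl⟩ := hψ a
      exact t19_mem_of_X_mem hcon ((hy s).mp ha)
    have heq := (maximalIdeal.isMaximal (Localization.AtPrime y)).eq_of_le hqp.ne_top hle
    rw [← heq]
    exact maximalIdeal.isMaximal _
  obtain ⟨hreg, hdim⟩ := regular_quotient_of_jac hN p hfp hp
  have hk' : RingHom.ker (Localization.localRingHom p q0 ψ rfl) =
      (Ideal.span (Set.range f)).map
        (algebraMap (MvPolynomial (Fin (n + 1)) K) (Localization.AtPrime p)) := by
    have := ker_localRingHom ψ hψ q0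
    rw [hk] at this
    exact this
  let e1 : (Localization.AtPrime p ⧸ (Ideal.span (Set.range f)).map
      (algebraMap (MvPolynomial (Fin (n + 1)) K)
      (Localization.AtPrime p))) ≃+* Localization.AtPrime q0 :=
    (Ideal.quotEquivOfEq hk'.symm).trans (RingHom.quotientKerEquivOfSurjective
      (localRingHom_surjective ψ hψ q0))
  let e := e1.trans e2
  refine ⟨?_, ?_⟩
  · have h1 : IsRegularLocalRing (Localization.AtPrime q) :=
      IsRegularLocalRing.of_ringEquiv (R := Localization.AtPrime p ⧸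
        (Ideal.span (Set.range f)).map (algebraMap (MvPolynomial (Fin (n + 1)) K)
        (Localization.AtPrime p))) e
    exact isDomain_aux _ (Localization.AtPrime q) le_rfl
  · have h1 : ringKrullDim (Localization.AtPrime q) = q.height :=
      IsLocalization.AtPrime.ringKrullDim_eq_height q (Localization.AtPrime q)
    rw [ringKrullDim_eq_of_ringEquiv e, h1] at hdim
    have h2 : q.height + c = p.height := by exact_mod_cast hdim
    rw [h2]
    -- `p` is strictly smaller than the maximal ideal of the origin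
    have hmp : (RingHom.ker (constantCoeff : MvPolynomial (Fin (n + 1)) K →+* K)).IsPrime :=
      RingHom.ker_isPrime _
    have hlt : p < RingHom.ker (constantCoeff : MvPolynomial (Fin (n + 1)) K →+* K) := by
      rw [SetLike.lt_iff_le_and_exists]
      refine ⟨?_, ?_⟩
      · intro s hs
        rw [RingHom.mem_ker, ← hy]
        have h3 : algebraMap B (Localization.AtPrime y) (ψ s) ∈
            maximalIdeal (Localization.AtPrime y) :=
          IsLocalRing.le_maximalIdeal hqp.ne_top hs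
        exact (IsLocalization.AtPrime.to_map_mem_maximal_iff (Localization.AtPrime y) y _).mp h3
      · obtain ⟨i, hi⟩ := hp
        exact ⟨X i, by rw [RingHom.mem_ker, constantCoeff_X], hi⟩
    have h3 := Ideal.height_add_one_le_of_lt_of_isPrime hlt
    have h4 : (RingHom.ker (constantCoeff : MvPolynomial (Fin (n + 1)) K →+* K)).height ≤
        ((n + 1 : ℕ) : ℕ∞) := by
      have h5 := Ideal.height_le_ringKrullDim_of_ne_top hmp.ne_top
      rw [MvPolynomial.ringKrullDim_of_isNoetherianRing, ringKrullDim_eq_zero_of_field,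
        Nat.card_eq_fintype_card, Fintype.card_fin, zero_add] at h5
      exact_mod_cast h5
    have h5 : p.height + 1 ≤ (n : ℕ∞) + 1 := by
      refine h3.trans (h4.trans ?_)
      push_cast
      rfl
    exact (ENat.add_le_add_iff_right (by simp)).mp h5

theorem t19_transfer {R A : Type} [CommRing R] [IsLocalRing R] [CommRing A] [IsLocalRing A]
    [IsNoetherianRing A] (F : R →+* A) (hF : Function.Surjective F) {J : Ideal R}
    (hJ : J = RingHom.ker F) {t : ℕ} (ht : 2 ≤ t) (h : DepthGE R (R ⧸ J) t) : DepthGE A A 2 := by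
  obtain ⟨rs, hlen, hmem, hrs⟩ := h
  let e : (R ⧸ J) ≃+* A := (Ideal.quotEquivOfEq hJ).trans (RingHom.quotientKerEquivOfSurjective hF)
  have he : ∀ r : R, e (Ideal.Quotient.mk J r) = F r := fun r => rfl
  have hweak : IsWeaklyRegular (R ⧸ J) (rs.take 2) := by
    have h1 := hrs.toIsWeaklyRegular
    rw [← List.take_append_drop 2 rs, isWeaklyRegular_append_iff] at h1
    exact h1.1
  have hmemA : ∀ r ∈ (rs.take 2).map F, r ∈ maximalIdeal A := by
    intro r hr
    rw [List.mem_map] at hr
    obtain ⟨s, hs, rfl⟩ := hr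
    have h5 := IsLocalHom.of_surjective F hF
    exact map_nonunit F s (hmem s (List.mem_of_mem_take hs))
  refine ⟨(rs.take 2).map F, ?_, hmemA, ?_⟩
  · rw [List.length_map, List.length_take]
    omega
  · refine IsRegular.of_isWeaklyRegular_of_mem_maximalIdeal A hmemA ?_
    have h7 := AddEquiv.isWeaklyRegular_congr (e := e.toAddEquiv) (as := rs.take 2)
      (bs := (rs.take 2).map F) (List.forall₂_map_right_iff.mpr
        (List.forall₂_same.mpr fun r _ z => by
          obtain ⟨z, rfl⟩ := Ideal.Quotient.mk_surjective z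
          change e (Ideal.Quotient.mk J (r * z)) = F r * e (Ideal.Quotient.mk J z)
          rw [he, he, map_mul]))
    exact h7.mp hweak

theorem t19_main {B : Type} [CommRing B] [IsNoetherianRing B]
    (ψ : MvPolynomial (Fin (n + 1)) K →+* B)
    (hψ : Function.Surjective ψ) (hk : RingHom.ker ψ = Ideal.span (Set.range f)) {N : ℕ}
    (hN : ∀ i, X i ^ N ∈ Ideal.span (Set.range f ∪ Set.range (minor f))) (hcn : c < n)
    (hf0 : ∀ k, constantCoeff (f k) = 0)
    (y : Ideal B) [y.IsPrime] (hy : ∀ s, ψ s ∈ y ↔ constantCoeff s = 0) :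
    IsDomain (Localization.AtPrime y) := by
  let F : Localization.AtPrime (y.comap ψ) →+* Localization.AtPrime y :=
    Localization.localRingHom (y.comap ψ) y ψ rfl
  have hF : Function.Surjective F := localRingHom_surjective ψ hψ y
  have hkF : RingHom.ker F = (Ideal.span (Set.range f)).map
      (algebraMap _ (Localization.AtPrime (y.comap ψ))) := by
    have h1 := ker_localRingHom ψ hψ y
    rw [hk] at h1
    exact h1
  have hheight : ((n + 1 : ℕ) : ℕ∞) ≤ (y.comap ψ).height := by
    refine (irred_height (n := n) (k := K) (n + 1) le_rfl).trans (Ideal.height_mono ?_)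
    intro s hs
    rw [Ideal.mem_comap]
    refine (hy s).mpr ?_
    have h1 : irredKill n K (n + 1) = (aeval (0 : Fin (n + 1) → MvPolynomial (Fin (n + 1)) K)) := by
      refine MvPolynomial.algHom_ext fun j => ?_
      rw [irredKill_X, if_pos j.2]
      simp
    rw [RingHom.mem_ker, h1, aeval_zero] at hs
    simpa using hs
  have hdepth : DepthGE (Localization.AtPrime (y.comap ψ)) (Localization.AtPrime (y.comap ψ))
      (n + 1) := by
    refine t19_depth_regular (n + 1) _ ?_
    have h1 := (isRegularLocalRing_iff (Localization.AtPrime (y.comap ψ))).mp inferInstance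
    rw [IsLocalization.AtPrime.ringKrullDim_eq_height (y.comap ψ)] at h1
    have h2 : (((maximalIdeal (Localization.AtPrime (y.comap ψ))).spanFinrank : ℕ) : ℕ∞) =
        (y.comap ψ).height := by exact_mod_cast h1
    rw [← h2] at hheight
    exact_mod_cast hheight
  set fs : List (Localization.AtPrime (y.comap ψ)) :=
    List.ofFn fun k => algebraMap _ (Localization.AtPrime (y.comap ψ)) (f k) with hfs
  have hlen : fs.length = c := List.length_ofFn
  have hJ : Ideal.ofList fs = RingHom.ker F := by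
    rw [hkF]
    change Ideal.span {r | r ∈ fs} = Ideal.map _ (Ideal.span (Set.range f))
    rw [Ideal.map_span]
    congr 1
    ext z
    simp [hfs, List.mem_ofFn]
  have hfsm : ∀ g ∈ fs, g ∈ maximalIdeal (Localization.AtPrime (y.comap ψ)) := by
    intro g hg
    rw [hfs, List.mem_ofFn] at hg
    obtain ⟨k, rfl⟩ := hg
    refine (IsLocalization.AtPrime.to_map_mem_maximal_iff _ (y.comap ψ) _).mpr ?_
    exact (hy (f k)).mpr (hf0 k)
  have hlocs := fun (q : Ideal (Localization.AtPrime y)) (hq : q.IsPrime)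
    (hq' : q ≠ maximalIdeal _) => t19_loc ψ hψ hk hN y hy q hq'
  have hdimA : ringKrullDim (Localization.AtPrime y) ≤ ((n + 1 - c : ℕ) : ℕ∞) := by
    rw [← maximalIdeal_height_eq_ringKrullDim]
    have h1 : (maximalIdeal (Localization.AtPrime y)).height ≤ ((n + 1 - c : ℕ) : ℕ∞) := by
      rw [Ideal.height_le_iff]
      intro q hq hlt
      have h2 := (hlocs q hq hlt.ne).2
      have h3 : q.height ≠ ⊤ := by
        intro h3
        rw [h3, top_add, top_le_iff] at h2
        exact ENat.natCast_ne_top n h2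
      obtain ⟨m, hm⟩ := ENat.ne_top_iff_exists.mp h3
      rw [← hm] at h2 ⊢
      have h4 : m + c ≤ n := by exact_mod_cast h2
      have h5 : m < n + 1 - c := by omega
      exact_mod_cast h5
    exact_mod_cast h1
  have hdim : ringKrullDim (Localization.AtPrime (y.comap ψ) ⧸ Ideal.ofList fs) + fs.length ≤
      ((n + 1 : ℕ) : WithBot ℕ∞) := by
    rw [ringKrullDim_eq_of_ringEquiv ((Ideal.quotEquivOfEq hJ).trans
      (RingHom.quotientKerEquivOfSurjective hF)), hlen]
    refine (add_le_add hdimA le_rfl).trans ?_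
    have : n + 1 - c + c = n + 1 := by omega
    exact_mod_cast this.le
  have hd1 := depthGE_quotient hdepth fs hfsm hdim
  rw [hlen] at hd1
  have hd2 := t19_transfer F hF hJ (by omega) hd1
  exact isDomain_of_depthGE hd2 fun p hp hpm => (hlocs p hp hpm).1

/-- **Smooth complete intersections of positive dimension are integral.** -/
theorem isPrime_of_jac (hf : ∀ k, (f k).IsHomogeneous (d k)) (hd : ∀ k, 1 ≤ d k) (hcn : c < n)
    {N : ℕ} (hN : ∀ i, X i ^ N ∈ Ideal.span (Set.range f ∪ Set.range (minor f))) :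
    (Ideal.span (Set.range f)).IsPrime := by
  classical
  have hf0 : ∀ k, constantCoeff (f k) = 0 := by
    intro k
    have h1 := (hf k).coeff_eq_zero (d := 0) (by
      have := hd k
      simp
      omega)
    exact h1
  obtain ⟨I, hI⟩ : ∃ I, I = Ideal.span (Set.range f) := ⟨_, rfl⟩
  have hIc : ∀ s ∈ I, constantCoeff s = 0 := by
    intro s hs
    have h1 : I ≤ RingHom.ker (constantCoeff : MvPolynomial (Fin (n + 1)) K →+* K) := by
      rw [hI, Ideal.span_le]
      rintro _ ⟨k, rfl⟩
      exact hf0 k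
    exact h1 hs
  let ε : MvPolynomial (Fin (n + 1)) K ⧸ I →+* K := Ideal.Quotient.lift I constantCoeff hIc
  let y : Ideal (MvPolynomial (Fin (n + 1)) K ⧸ I) := RingHom.ker ε
  have hyp : y.IsPrime := RingHom.ker_isPrime ε
  have hy : ∀ s, Ideal.Quotient.mk I s ∈ y ↔ constantCoeff s = 0 := fun s => Iff.rfl
  have hdom : IsDomain (Localization.AtPrime y) :=
    t19_main (Ideal.Quotient.mk I) Ideal.Quotient.mk_surjective (by rw [Ideal.mk_ker, hI]) hN hcn
      hf0 y hy
  have hhom : ∀ p ∈ I, ∀ j, homogeneousComponent j p ∈ I := by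
    intro p hp j
    let _ := MvPolynomial.gradedAlgebra (σ := Fin (n + 1)) (R := K)
    have h1 : I.IsHomogeneous (homogeneousSubmodule (Fin (n + 1)) K) := by
      rw [hI]
      apply Ideal.homogeneous_span
      rintro x ⟨k, rfl⟩
      exact ⟨d k, hf k⟩
    exact homogeneousComponent_mem_of_mem h1 hp j
  have hker : I = RingHom.ker ((algebraMap (MvPolynomial (Fin (n + 1)) K ⧸ I)
      (Localization.AtPrime y)).comp (Ideal.Quotient.mk I)) := by
    apply le_antisymm
    · intro s hs
      rw [RingHom.mem_ker, RingHom.comp_apply]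
      have : Ideal.Quotient.mk I s = 0 := Ideal.Quotient.eq_zero_iff_mem.mpr hs
      rw [this, map_zero]
    · intro s hs
      rw [RingHom.mem_ker, RingHom.comp_apply,
        IsLocalization.map_eq_zero_iff y.primeCompl] at hs
      obtain ⟨⟨t, ht⟩, hts⟩ := hs
      obtain ⟨t, rfl⟩ := Ideal.Quotient.mk_surjective t
      have ht' : constantCoeff t ≠ 0 := fun h => ht ((hy t).mpr h)
      have h1 : t * s ∈ I := by
        rw [← Ideal.Quotient.eq_zero_iff_mem]
        exact (map_mul (Ideal.Quotient.mk I) t s).trans hts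
      exact t19_homog hhom ht' h1
  rw [← hI, hker]
  exact RingHom.ker_isPrime _

end

end Pool.Agent.Lib.MP_6a3dac_ag.Sys
end

section

/-!
# Dehomogenization of the minors of the Jacobian matrix
-/

set_option autoImplicit false

namespace Pool.Agent.Lib.MP_6a3dac_ag.Sys

open MvPolynomial
open Pool.Agent.Lib.MP_6a3dac_ag.DNF

variable {O : Type} [CommRing O] {n c : ℕ} {f : Fin c → MvPolynomial (Fin (n + 1)) O}
  {d : Fin c → ℕ}

theorem isHomogeneous_minor (hf : ∀ k, (f k).IsHomogeneous (d k)) (s : Fin c → Fin (n + 1)) :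
    (minor f s).IsHomogeneous (∑ k, (d k - 1)) := by
  rw [minor, Matrix.det_apply]
  apply IsHomogeneous.sum
  intro σ _
  have h1 : (∏ b, (Matrix.of fun k b => pderiv (s b) (f k)) (σ b) b).IsHomogeneous
      (∑ b, (d (σ b) - 1)) := by
    apply IsHomogeneous.prod
    intro b _
    exact (hf (σ b)).pderiv
  rw [Equiv.sum_comp σ (fun k => d k - 1)] at h1
  rcases Int.units_eq_one_or (Equiv.Perm.sign σ) with h | h
  · rw [h, one_smul]
    exact h1
  · rw [h, Units.neg_smul, one_smul]
    exact (homogeneousSubmodule (Fin (n + 1)) O _).neg_mem h1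

theorem minor_map {σ R S : Type} [CommRing R] [CommRing S] (θ : R →+* S)
    (F : Fin c → MvPolynomial σ R) (s : Fin c → σ) :
    minor (fun k => map θ (F k)) s = map θ (minor F s) := by
  rw [minor, minor, RingHom.map_det]
  congr 1
  ext1 k b
  simp [pderiv_map]

theorem dehom_minor (i : Fin (n + 1)) (s : Fin c → {l : Fin (n + 1) // l ≠ i}) :
    dehom i (minor f fun b => (s b).1) = minor (fun k => dehom i (f k)) s := by
  rw [minor, minor, AlgHom.map_det]
  congr 1
  ext1 k b
  simp [pderiv_dehom]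

theorem dehom_minor_mem (hf : ∀ k, (f k).IsHomogeneous (d k)) (i : Fin (n + 1))
    (s : Fin c → Fin (n + 1)) : dehom i (minor f s) ∈ Ideal.span
      (Set.range (fun k => dehom i (f k)) ∪ Set.range (minor fun k => dehom i (f k))) := by
  classical
  set F : Fin c → MvPolynomial {l : Fin (n + 1) // l ≠ i} O := fun k => dehom i (f k) with hF
  set I := Ideal.span (Set.range F ∪ Set.range (minor F)) with hI
  let J : Matrix (Fin c) {l : Fin (n + 1) // l ≠ i}
    (MvPolynomial {l : Fin (n + 1) // l ≠ i} O) := Matrix.of fun k l => pderiv l (F k)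
  let T : Matrix {l : Fin (n + 1) // l ≠ i} (Fin c)
    (MvPolynomial {l : Fin (n + 1) // l ≠ i} O) := Matrix.of fun l b =>
      if h : s b = i then - X l else if l = ⟨s b, h⟩ then 1 else 0
  have h1 : (J * T).det ∈ I := by
    refine Ideal.span_le.2 ?_ (det_mul_mem J T)
    rintro _ ⟨s', rfl⟩
    exact Ideal.subset_span (Or.inr ⟨s', rfl⟩)
  rw [← Ideal.Quotient.eq_zero_iff_mem] at h1 ⊢
  rw [← h1, minor, AlgHom.map_det, RingHom.map_det, RingHom.map_det]
  congr 1
  ext1 k b
  show Ideal.Quotient.mk I (dehom i (pderiv (s b) (f k))) = Ideal.Quotient.mk I ((J * T) k b)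
  rw [Ideal.Quotient.eq, Matrix.mul_apply]
  by_cases h : s b = i
  · have h2 : ∑ l, J k l * T l b = -∑ l : {l : Fin (n + 1) // l ≠ i}, X l * pderiv l (F k) := by
      rw [← Finset.sum_neg_distrib]
      refine Finset.sum_congr rfl fun l _ => ?_
      show pderiv l (F k) * (if h : s b = i then - X l else if l = ⟨s b, h⟩ then 1 else 0) = _
      rw [dif_pos h]
      ring
    rw [h2, h, euler_dehom i (hf k)]
    have h3 : (d k : MvPolynomial {l : Fin (n + 1) // l ≠ i} O) * dehom i (f k) -
        ∑ l : {l : Fin (n + 1) // l ≠ i}, X l * pderiv l (dehom i (f k)) -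
        -∑ l : {l : Fin (n + 1) // l ≠ i}, X l * pderiv l (F k) =
        (d k : MvPolynomial {l : Fin (n + 1) // l ≠ i} O) * F k := by
      simp only [hF]
      ring
    rw [h3]
    exact Ideal.mul_mem_left _ _ (Ideal.subset_span (Or.inl ⟨k, rfl⟩))
  · have h2 : ∑ l, J k l * T l b = pderiv (⟨s b, h⟩ : {l : Fin (n + 1) // l ≠ i}) (F k) := by
      rw [Finset.sum_eq_single (⟨s b, h⟩ : {l : Fin (n + 1) // l ≠ i})]
      · show pderiv _ (F k) * (if h' : s b = i then - X _ else
          if (⟨s b, h⟩ : {l : Fin (n + 1) // l ≠ i}) = ⟨s b, h'⟩ then 1 else 0) = _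
        rw [dif_neg h, if_pos rfl, mul_one]
      · intro l _ hl
        show pderiv _ (F k) * (if h' : s b = i then - X _ else
          if l = ⟨s b, h'⟩ then 1 else 0) = _
        rw [dif_neg h, if_neg hl, mul_zero]
      · intro h'
        exact absurd (Finset.mem_univ _) h'
    rw [h2]
    have h3 : pderiv (⟨s b, h⟩ : {l : Fin (n + 1) // l ≠ i}) (F k) =
        dehom i (pderiv (s b) (f k)) := pderiv_dehom i ⟨s b, h⟩ (f k)
    rw [h3, sub_self]
    exact Ideal.zero_mem _

theorem jac_dehom_sys (hf : ∀ k, (f k).IsHomogeneous (d k)) {i : Fin (n + 1)} {m : O} {K : ℕ}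
    (h : C m * X i ^ K ∈ Ideal.span (Set.range f ∪ Set.range (minor f))) :
    C m ∈ Ideal.span
      (Set.range (fun k => dehom i (f k)) ∪ Set.range (minor fun k => dehom i (f k))) := by
  have h1 := Ideal.mem_map_of_mem (dehom i) h
  rw [map_mul, map_pow, dehom_X_self, one_pow, mul_one, dehom_C, Ideal.map_span] at h1
  refine Ideal.span_le.2 ?_ h1
  rintro _ ⟨g, hg | hg, rfl⟩
  · obtain ⟨k, rfl⟩ := hg
    exact Ideal.subset_span (Or.inl ⟨k, rfl⟩)
  · obtain ⟨s, rfl⟩ := hg
    exact dehom_minor_mem hf i s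

end Pool.Agent.Lib.MP_6a3dac_ag.Sys
end

section

/-!
# Smoothness of projective systems from the Jacobian criterion
-/

set_option autoImplicit false

namespace Pool.Agent.Lib.MP_6a3dac_ag.Sys

open CategoryTheory Limits AlgebraicGeometry HomogeneousLocalization MvPolynomial

attribute [local instance] MvPolynomial.gradedAlgebra

/-- The correction vector. -/
theorem t20_correction {k B : Type} [CommRing k] [CommRing B] [Algebra k B] {n c : ℕ}
    {f : Fin c → MvPolynomial (Fin n) k} {d : Fin c → ℕ} (hf : ∀ j, (f j).IsHomogeneous (d j))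
    (a : Fin n) {K : ℕ} (hK : X a ^ K ∈ Ideal.span (Set.range f ∪ Set.range (minor f)))
    {I : Ideal B} (hI2 : ∀ u ∈ I, ∀ v ∈ I, u * v = 0) {y : Fin n → B} (hya : y a = 1)
    (hfy : ∀ j, aeval y (f j) ∈ I) :
    ∃ e : Fin n → B, (∀ l, e l ∈ I) ∧ e a = 0 ∧ ∀ j, aeval (fun l => y l + e l) (f j) = 0 := by
  classical
  rw [Ideal.span_union] at hK
  obtain ⟨p, hp, q, hq, hpq⟩ := Submodule.mem_sup.1 hK
  obtain ⟨u, hu⟩ := (Ideal.mem_span_range_iff_exists_fun).mp hp
  obtain ⟨v, hv⟩ := (Ideal.mem_span_range_iff_exists_fun).mp hq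
  let J : (Fin c → Fin n) → Matrix (Fin c) (Fin c) B := fun s =>
    Matrix.of fun k b => aeval y (pderiv (s b) (f k))
  let F : Fin c → B := fun j => aeval y (f j)
  have hdet : ∀ s, aeval y (minor f s) = (J s).det := by
    intro s
    unfold minor
    rw [AlgHom.map_det]
    rfl
  have h1 : 1 = ∑ j, aeval y (u j) * F j + ∑ s, aeval y (v s) * (J s).det := by
    have h2 := congrArg (aeval y) hpq
    rw [map_pow, aeval_X, hya, one_pow, map_add, ← hu, ← hv, map_sum, map_sum] at h2
    rw [← h2]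
    simp only [map_mul, hdet, F]
  have hFF : ∀ j j', F j * F j' = 0 := fun j j' => hI2 _ (hfy j) _ (hfy j')
  have hE : ∀ j, ∑ l, y l * aeval y (pderiv l (f j)) = d j * F j := by
    intro j
    have h2 := congrArg (aeval y) (hf j).sum_X_mul_pderiv
    rw [map_sum, map_nsmul, nsmul_eq_mul] at h2
    rw [show F j = aeval y (f j) from rfl, ← h2]
    simp only [map_mul, aeval_X]
  obtain ⟨e0, he0⟩ : ∃ e0 : Fin n → B, e0 = fun l => -∑ s, aeval y (v s) *
    ∑ b, if s b = l then ((J s).adjugate.mulVec F) b else 0 := ⟨_, rfl⟩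
  have he0I : ∀ l, e0 l ∈ I := by
    intro l
    rw [he0]
    refine I.neg_mem (I.sum_mem fun s _ => I.mul_mem_left _ (I.sum_mem fun b _ => ?_))
    split_ifs
    · show ∑ j, (J s).adjugate b j * F j ∈ I
      exact I.sum_mem fun j _ => I.mul_mem_left _ (hfy j)
    · exact I.zero_mem
  have hsum : ∀ j, ∑ l, e0 l * aeval y (pderiv l (f j)) = -(F j) := by
    intro j
    have h2 : ∀ s, ∑ l, (∑ b, if s b = l then ((J s).adjugate.mulVec F) b else 0) *
        aeval y (pderiv l (f j)) = (J s).det * F j := by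
      intro s
      have h3 : ∀ l, (∑ b, if s b = l then ((J s).adjugate.mulVec F) b else 0) *
          aeval y (pderiv l (f j)) =
          ∑ b, if s b = l then ((J s).adjugate.mulVec F) b * aeval y (pderiv l (f j)) else 0 := by
        intro l
        rw [Finset.sum_mul]
        refine Finset.sum_congr rfl fun b _ => ?_
        rw [ite_mul, zero_mul]
      rw [Finset.sum_congr rfl fun l _ => h3 l, Finset.sum_comm]
      have h4 : ∀ b, (∑ l, if s b = l then ((J s).adjugate.mulVec F) b *
          aeval y (pderiv l (f j)) else 0) = J s j b * ((J s).adjugate.mulVec F) b := by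
        intro b
        rw [Finset.sum_ite_eq Finset.univ (s b), if_pos (Finset.mem_univ _), mul_comm]
        rfl
      rw [Finset.sum_congr rfl fun b _ => h4 b]
      have h5 : (J s).mulVec ((J s).adjugate.mulVec F) j = (J s).det * F j := by
        rw [Matrix.mulVec_mulVec, Matrix.mul_adjugate, Matrix.smul_mulVec, Matrix.one_mulVec]
        rfl
      exact h5
    have h6 : ∑ l, e0 l * aeval y (pderiv l (f j)) =
        -∑ s, aeval y (v s) * ((J s).det * F j) := by
      rw [← Finset.sum_congr rfl fun s _ => congrArg (fun z => aeval y (v s) * z) (h2 s)]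
      rw [he0]
      simp only [neg_mul, Finset.sum_neg_distrib, Finset.mul_sum, Finset.sum_mul]
      rw [Finset.sum_comm]
      simp only [mul_assoc]
    rw [h6]
    have h7 : ∑ s, aeval y (v s) * ((J s).det * F j) = F j * ∑ s, aeval y (v s) * (J s).det := by
      rw [Finset.mul_sum]
      refine Finset.sum_congr rfl fun s _ => ?_
      ring
    have h8 : F j * ∑ j', aeval y (u j') * F j' = 0 := by
      rw [Finset.mul_sum]
      refine Finset.sum_eq_zero fun j' _ => ?_
      calc F j * (aeval y (u j') * F j') = aeval y (u j') * (F j * F j') := by ring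
        _ = 0 := by rw [hFF, mul_zero]
    rw [h7]
    linear_combination (F j) * h1 + h8
  refine ⟨fun l => e0 l - e0 a * y l, fun l => I.sub_mem (he0I l) (I.mul_mem_right _ (he0I a)), ?_,
    fun j => ?_⟩
  · simp only [hya]
    ring
  · have hI' : ∀ l, e0 l - e0 a * y l ∈ I := fun l =>
      I.sub_mem (he0I l) (I.mul_mem_right _ (he0I a))
    rw [aeval_add_of_sq_zero fun l m => hI2 _ (hI' l) _ (hI' m)]
    have h2 : ∑ l, (e0 l - e0 a * y l) * aeval y (pderiv l (f j)) =
        ∑ l, e0 l * aeval y (pderiv l (f j)) - e0 a * ∑ l, y l * aeval y (pderiv l (f j)) := by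
      rw [Finset.mul_sum, ← Finset.sum_sub_distrib]
      refine Finset.sum_congr rfl fun l _ => ?_
      ring
    rw [h2, hsum, hE]
    have h3 : e0 a * F j = 0 := hI2 _ (he0I a) _ (hfy j)
    have h4 : aeval y (f j) = F j := rfl
    rw [h4]
    linear_combination (-(d j : B)) * h3

section

variable {k : Type} [CommRing k] {n c : ℕ}
  (𝔞 : HomogeneousIdeal (homogeneousSubmodule (Fin n) k))
  {f : Fin c → MvPolynomial (Fin n) k} {d : Fin c → ℕ} (hf : ∀ j, (f j).IsHomogeneous (d j))
  (h𝔞 : 𝔞.toIdeal = Ideal.span (Set.range f))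

include hf h𝔞

theorem t20_formallySmooth (a : Fin n) {K : ℕ}
    (hK : X a ^ K ∈ Ideal.span (Set.range f ∪ Set.range (minor f))) :
    Algebra.FormallySmooth k (ChartRing 𝔞 a) := by
  classical
  apply Algebra.FormallySmooth.of_comp_surjective
  intro B _ _ I hI g
  have hI2 : ∀ u ∈ I, ∀ v ∈ I, u * v = 0 := by
    intro u hu v hv
    have h1 : u * v ∈ I ^ 2 := by
      rw [pow_two]
      exact Ideal.mul_mem_mul hu hv
    rw [hI] at h1
    exact h1
  choose y₀ hy₀ using fun l => Ideal.Quotient.mk_surjective (g (chartX 𝔞 a l))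
  obtain ⟨y, hyd⟩ : ∃ y : Fin n → B, y = fun l => if l = a then 1 else y₀ l := ⟨_, rfl⟩
  have hya : y a = 1 := by rw [hyd]; simp
  have hy : ∀ l, Ideal.Quotient.mk I (y l) = g (chartX 𝔞 a l) := by
    intro l
    by_cases hl : l = a
    · subst hl
      rw [hya, map_one, chartX_self, map_one]
    · rw [hyd]
      simp only [if_neg hl]
      exact hy₀ l
  have hmk : ∀ q : MvPolynomial (Fin n) k, Ideal.Quotient.mk I (aeval y q) =
      g (aeval (chartX 𝔞 a) q) := by
    intro q
    have h1 : (Ideal.Quotient.mkₐ k I).comp (aeval y) = g.comp (aeval (chartX 𝔞 a)) := by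
      apply MvPolynomial.algHom_ext
      intro l
      change Ideal.Quotient.mk I (aeval y (X l)) = g (aeval (chartX 𝔞 a) (X l))
      rw [aeval_X, aeval_X, hy]
    exact AlgHom.congr_fun h1 q
  have hfy : ∀ j, aeval y (f j) ∈ I := by
    intro j
    rw [← Ideal.Quotient.eq_zero_iff_mem, hmk, aeval_chartX 𝔞 a (by
      rw [h𝔞]; exact Ideal.subset_span ⟨j, rfl⟩), map_zero]
  obtain ⟨e, he, hea, hfe⟩ := t20_correction hf a hK hI2 hya hfy
  have hΨ₀ : ∀ q ∈ 𝔞.toIdeal, (aeval fun l => y l + e l : MvPolynomial (Fin n) k →ₐ[k] B) q = 0 := by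
    intro q hq
    rw [h𝔞] at hq
    have h1 : Ideal.span (Set.range f) ≤
        RingHom.ker (aeval fun l => y l + e l : MvPolynomial (Fin n) k →ₐ[k] B) := by
      rw [Ideal.span_le]
      rintro _ ⟨j, rfl⟩
      exact hfe j
    exact h1 hq
  let Ψ₀ : CoordQuot 𝔞 →ₐ[k] B := Ideal.Quotient.liftₐ 𝔞.toIdeal _ hΨ₀
  have hΨX : ∀ l, Ψ₀ (sCl 𝔞 l) = y l + e l := by
    intro l
    change (aeval fun l => y l + e l : MvPolynomial (Fin n) k →ₐ[k] B) (X l) = _
    rw [aeval_X]
  have hΨa : Ψ₀ (sCl 𝔞 a) = 1 := by rw [hΨX, hya, hea, add_zero]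
  have hunit : IsUnit ((Ψ₀ : CoordQuot 𝔞 →+* B) (sCl 𝔞 a)) := by
    change IsUnit (Ψ₀ (sCl 𝔞 a))
    rw [hΨa]
    exact isUnit_one
  let Ψ : Localization.Away (sCl 𝔞 a) →+* B := IsLocalization.Away.lift (sCl 𝔞 a) hunit
  have hΨ : ∀ z, Ψ (algebraMap (CoordQuot 𝔞) (Localization.Away (sCl 𝔞 a)) z) = Ψ₀ z :=
    fun z => IsLocalization.Away.lift_eq (sCl 𝔞 a) hunit z
  have hΨinv : Ψ (invS 𝔞 a) = 1 := by
    have h1 := congrArg Ψ (invS_mul 𝔞 a)
    rwa [map_mul, hΨ, hΨa, mul_one, map_one] at h1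
  let Φ : ChartRing 𝔞 a →ₐ[k] B :=
    { Ψ.comp (chartVal 𝔞 a) with
      commutes' := by
        intro r
        change Ψ (chartVal 𝔞 a (algebraMap k (ChartRing 𝔞 a) r)) = _
        rw [chartVal_algebraMap, hΨ, Ψ₀.commutes] }
  have hΦ : ∀ l, Φ (chartX 𝔞 a l) = y l + e l := by
    intro l
    change Ψ (chartVal 𝔞 a (chartX 𝔞 a l)) = _
    rw [chartVal_chartX', map_mul, hΨinv, one_mul, hΨ, hΨX]
  refine ⟨Φ, AlgHom.ext_of_adjoin_eq_top (adjoin_chartX 𝔞 a) ?_⟩
  rintro _ ⟨l, rfl⟩
  change Ideal.Quotient.mk I (Φ (chartX 𝔞 a l)) = g (chartX 𝔞 a l)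
  rw [hΦ, map_add, hy, Ideal.Quotient.eq_zero_iff_mem.mpr (he l), add_zero]

end

theorem smooth_projTo_of_jac_sys {k : Type} [Field k] {n c : ℕ}
    (𝔞 : HomogeneousIdeal (homogeneousSubmodule (Fin n) k))
    {f : Fin c → MvPolynomial (Fin n) k} {d : Fin c → ℕ} (hf : ∀ j, (f j).IsHomogeneous (d j))
    (h𝔞 : 𝔞.toIdeal = Ideal.span (Set.range f)) {K : ℕ}
    (hK : ∀ a, X a ^ K ∈ Ideal.span (Set.range f ∪ Set.range (minor f))) :
    Smooth (projTo k (coordGr 𝔞)) := by
  have hirr : (HomogeneousIdeal.irrelevant (coordGr 𝔞)).toIdeal ≤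
      Ideal.span (Set.range (sCl 𝔞)) := by
    rw [HomogeneousIdeal.toIdeal_irrelevant_le]
    intro i hi s hs
    obtain ⟨P, hP, rfl⟩ := hs
    change Ideal.Quotient.mk 𝔞.toIdeal P ∈ _
    rw [P.as_sum, map_sum]
    refine Ideal.sum_mem _ fun m hm => ?_
    have h1 : m ≠ 0 := by
      rintro rfl
      have := hP (mem_support_iff.mp hm)
      simp at this
      omega
    obtain ⟨l, hl⟩ : ∃ l, m l ≠ 0 := by
      by_contra hcon
      push Not at hcon
      exact h1 (Finsupp.ext hcon)
    have h2 : ∀ c : k, monomial m c = X l * monomial (m - Finsupp.single l 1) c := by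
      intro c
      conv_lhs => rw [← Finsupp.sub_add_single_one_cancel hl, monomial_add_single, pow_one]
      rw [mul_comm]
    rw [h2, map_mul]
    exact Ideal.mul_mem_right _ _ (Ideal.subset_span ⟨l, rfl⟩)
  rw [IsZariskiLocalAtSource.iff_of_openCover (P := @Smooth)
    (Proj.affineOpenCoverOfIrrelevantLESpan (coordGr 𝔞) (sCl 𝔞) (m := fun _ => 1)
      (sCl_mem 𝔞) (fun _ => one_pos) hirr).openCover]
  intro a
  change Smooth (Proj.awayι (coordGr 𝔞) (sCl 𝔞 a) (sCl_mem 𝔞 a) one_pos ≫ projTo k (coordGr 𝔞))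
  rw [awayι_projTo, HasRingHomProperty.Spec_iff (P := @Smooth)]
  change (algebraMap k (ChartRing 𝔞 a)).Smooth
  rw [RingHom.smooth_algebraMap]
  have h1 := t20_formallySmooth 𝔞 hf h𝔞 a (hK a)
  have hft : Algebra.FiniteType k (ChartRing 𝔞 a) := by
    refine ⟨⟨(Set.finite_range (chartX 𝔞 a)).toFinset, ?_⟩⟩
    rw [Set.Finite.coe_toFinset]
    exact adjoin_chartX 𝔞 a
  have hfp : Algebra.FinitePresentation k (ChartRing 𝔞 a) :=
    Algebra.FinitePresentation.of_finiteType.mp hft
  exact ⟨h1, hfp⟩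

end Pool.Agent.Lib.MP_6a3dac_ag.Sys
end

section

/-!
# The coprime pairs for systems
-/

set_option autoImplicit false

namespace Pool.Agent.Lib.MP_6a3dac_ag.Sys

open MvPolynomial
open Pool.Agent.Lib.MP_6a3dac_ag.DNF
open Pool.Agent.Lib.MP_6a3dac_ag.DensPair

section T25

variable {n c : ℕ} {d : Fin c → ℕ}

/-- the variables -/
abbrev t25_J (i : Fin (n + 1)) (j : Fin c) : Type :=
  {l : Fin (n + 1) // l ≠ i} ⊕ {k : Fin c // k ≠ j}

/-- the other coefficients -/
abbrev t25_Rest (hd : ∀ k, 2 ≤ d k) (i : Fin (n + 1)) (j : Fin c) : Type :=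
  {μ : Coef n d // μ.2 ≠ cm n (d μ.1) i ∧ ∀ l, μ ≠ ⟨j, bm (hd j) i l⟩}

/-- all coefficients -/
def t25_emap (hd : ∀ k, 2 ≤ d k) (i : Fin (n + 1)) (j : Fin c) :
    Option (t25_Rest hd i j ⊕ t25_J i j) → Coef n d
  | none => ⟨j, cm n (d j) i⟩
  | some (Sum.inl ρ) => ρ.1
  | some (Sum.inr (Sum.inl l)) => ⟨j, bm (hd j) i l⟩
  | some (Sum.inr (Sum.inr k)) => ⟨k.1, cm n (d k.1) i⟩

theorem t25_emap_bij (hd : ∀ k, 2 ≤ d k) (i : Fin (n + 1)) (j : Fin c) :
    Function.Bijective (t25_emap (n := n) hd i j) := by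
  constructor
  · rintro (_ | ρ | l | k) (_ | ρ' | l' | k') h
    · rfl
    · exact absurd (by rw [← (show (⟨j, cm n (d j) i⟩ : Coef n d) = ρ'.1 from h)]) ρ'.2.1
    · have h' : (⟨j, cm n (d j) i⟩ : Coef n d) = ⟨j, bm (hd j) i l'⟩ := h
      exact absurd (eq_of_heq (Sigma.mk.inj h').2) (cm_ne_bm (hd j) i l')
    · have h' : (⟨j, cm n (d j) i⟩ : Coef n d) = ⟨k'.1, cm n (d k'.1) i⟩ := h
      exact absurd (Sigma.mk.inj h').1.symm k'.2
    · exact absurd (by rw [(show ρ.1 = (⟨j, cm n (d j) i⟩ : Coef n d) from h)]) ρ.2.1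
    · have h' : ρ.1 = ρ'.1 := h
      rw [Subtype.ext h']
    · exact absurd h (ρ.2.2 l')
    · exact absurd (by rw [(show ρ.1 = (⟨k'.1, cm n (d k'.1) i⟩ : Coef n d) from h)]) ρ.2.1
    · have h' : (⟨j, bm (hd j) i l⟩ : Coef n d) = ⟨j, cm n (d j) i⟩ := h
      exact absurd (eq_of_heq (Sigma.mk.inj h').2).symm (cm_ne_bm (hd j) i l)
    · exact absurd h.symm (ρ'.2.2 l)
    · have h' : (⟨j, bm (hd j) i l⟩ : Coef n d) = ⟨j, bm (hd j) i l'⟩ := h
      rw [bm_inj (hd j) i l l' (eq_of_heq (Sigma.mk.inj h').2)]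
    · have h' : (⟨j, bm (hd j) i l⟩ : Coef n d) = ⟨k'.1, cm n (d k'.1) i⟩ := h
      exact absurd (Sigma.mk.inj h').1.symm k'.2
    · have h' : (⟨k.1, cm n (d k.1) i⟩ : Coef n d) = ⟨j, cm n (d j) i⟩ := h
      exact absurd (Sigma.mk.inj h').1 k.2
    · exact absurd (by rw [← (show (⟨k.1, cm n (d k.1) i⟩ : Coef n d) = ρ'.1 from h)]) ρ'.2.1
    · have h' : (⟨k.1, cm n (d k.1) i⟩ : Coef n d) = ⟨j, bm (hd j) i l'⟩ := h
      exact absurd (Sigma.mk.inj h').1 k.2
    · have h' : (⟨k.1, cm n (d k.1) i⟩ : Coef n d) = ⟨k'.1, cm n (d k'.1) i⟩ := h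
      rw [Subtype.ext (Sigma.mk.inj h').1]
  · intro μ
    by_cases h1 : μ.2 = cm n (d μ.1) i
    · by_cases h2 : μ.1 = j
      · obtain ⟨k, μ⟩ := μ
        change k = j at h2
        change μ = cm n (d k) i at h1
        subst h2 h1
        exact ⟨none, rfl⟩
      · obtain ⟨k, μ⟩ := μ
        change μ = cm n (d k) i at h1
        subst h1
        exact ⟨some (Sum.inr (Sum.inr ⟨k, h2⟩)), rfl⟩
    · by_cases h2 : ∀ l, μ ≠ ⟨j, bm (hd j) i l⟩
      · exact ⟨some (Sum.inl ⟨μ, h1, h2⟩), rfl⟩
      · push Not at h2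
        obtain ⟨l, hl⟩ := h2
        exact ⟨some (Sum.inr (Sum.inl l)), hl.symm⟩

theorem t25_sum {A : Type} [AddCommMonoid A] (hd : ∀ k, 2 ≤ d k) (i : Fin (n + 1)) (j : Fin c)
    (f : Coef n d → A) :
    ∑ μ, f μ = f ⟨j, cm n (d j) i⟩ + (∑ ρ : t25_Rest hd i j, f ρ.1 +
      (∑ l, f ⟨j, bm (hd j) i l⟩ + ∑ k : {k : Fin c // k ≠ j}, f ⟨k.1, cm n (d k.1) i⟩)) := by
  rw [← (Equiv.ofBijective _ (t25_emap_bij hd i j)).sum_comp, Fintype.sum_option,
    Fintype.sum_sum_type, Fintype.sum_sum_type]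
  rfl

/-- setting `x_i = 1` -/
noncomputable def t25_sx (hd : ∀ k, 2 ≤ d k) (i : Fin (n + 1)) (j : Fin c) :
    MvPolynomial (Fin (n + 1)) ℤ →ₐ[ℤ] MvPolynomial (t25_Rest hd i j ⊕ t25_J i j) ℤ :=
  aeval fun m => if h : m = i then 1 else X (Sum.inr (Sum.inl ⟨m, h⟩))

/-- setting `y_j = 1` -/
noncomputable def t25_yy (hd : ∀ k, 2 ≤ d k) (i : Fin (n + 1)) (j : Fin c) (k : Fin c) :
    MvPolynomial (t25_Rest hd i j ⊕ t25_J i j) ℤ :=
  if h : k = j then 1 else X (Sum.inr (Sum.inr ⟨k, h⟩))

theorem t25_pd_sx_inl (hd : ∀ k, 2 ≤ d k) (i : Fin (n + 1)) (j : Fin c)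
    (l : {l : Fin (n + 1) // l ≠ i}) (f : MvPolynomial (Fin (n + 1)) ℤ) :
    pderiv (Sum.inr (Sum.inl l)) (t25_sx hd i j f) = t25_sx hd i j (pderiv l.1 f) := by
  unfold t25_sx
  rw [pd_aeval, Finset.sum_eq_single l.1]
  · rw [dif_neg l.2, pderiv_X_self, mul_one]
  · intro b _ hb
    by_cases h : b = i
    · rw [dif_pos h, pderiv_one, mul_zero]
    · rw [dif_neg h, pderiv_X_of_ne, mul_zero]
      intro h2
      apply hb
      rw [Sum.inr.injEq, Sum.inl.injEq] at h2
      rw [← h2]
  · simp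

theorem t25_pd_sx_inr (hd : ∀ k, 2 ≤ d k) (i : Fin (n + 1)) (j : Fin c)
    (k : {k : Fin c // k ≠ j}) (f : MvPolynomial (Fin (n + 1)) ℤ) :
    pderiv (Sum.inr (Sum.inr k)) (t25_sx hd i j f) = 0 := by
  unfold t25_sx
  rw [pd_aeval]
  apply Finset.sum_eq_zero
  intro b _
  by_cases h : b = i
  · rw [dif_pos h, pderiv_one, mul_zero]
  · rw [dif_neg h, pderiv_X_of_ne (by simp), mul_zero]

theorem t25_pd_yy_inl (hd : ∀ k, 2 ≤ d k) (i : Fin (n + 1)) (j : Fin c)
    (l : {l : Fin (n + 1) // l ≠ i}) (k : Fin c) :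
    pderiv (Sum.inr (Sum.inl l)) (t25_yy hd i j k) = 0 := by
  unfold t25_yy
  by_cases h : k = j
  · rw [dif_pos h, pderiv_one]
  · rw [dif_neg h, pderiv_X_of_ne (by simp)]

theorem t25_pd_yy_inr (hd : ∀ k, 2 ≤ d k) (i : Fin (n + 1)) (j : Fin c)
    (k : {k : Fin c // k ≠ j}) (k' : Fin c) :
    pderiv (Sum.inr (Sum.inr k)) (t25_yy hd i j k') = if k' = k.1 then 1 else 0 := by
  unfold t25_yy
  by_cases h : k' = j
  · rw [dif_pos h, pderiv_one, if_neg]
    rintro rfl
    exact k.2 h
  · rw [dif_neg h]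
    by_cases h2 : k' = k.1
    · subst h2
      rw [if_pos rfl, pderiv_X_self]
    · rw [if_neg h2, pderiv_X_of_ne]
      intro h3
      rw [Sum.inr.injEq, Sum.inr.injEq] at h3
      exact h2 (congrArg Subtype.val h3)

/-- the other part of the polynomial -/
noncomputable def t25_G (hd : ∀ k, 2 ≤ d k) (i : Fin (n + 1)) (j : Fin c) :
    MvPolynomial (t25_Rest hd i j ⊕ t25_J i j) ℤ :=
  ∑ ρ : t25_Rest hd i j, X (Sum.inl ρ) * t25_yy hd i j ρ.1.1 * t25_sx hd i j (mon ρ.1.2)

theorem t25_pd_inl (hd : ∀ k, 2 ≤ d k) (i : Fin (n + 1)) (j : Fin c)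
    (l : {l : Fin (n + 1) // l ≠ i}) :
    pderiv (Sum.inr (Sum.inl l)) (t25_G hd i j) = ∑ ρ : t25_Rest hd i j,
      X (Sum.inl ρ) * t25_yy hd i j ρ.1.1 * t25_sx hd i j (pderiv l.1 (mon ρ.1.2)) := by
  unfold t25_G
  rw [map_sum]
  refine Finset.sum_congr rfl fun ρ _ => ?_
  rw [pderiv_mul, pderiv_mul, pderiv_X_of_ne (by simp), t25_pd_yy_inl, t25_pd_sx_inl]
  ring

theorem t25_pd_inr (hd : ∀ k, 2 ≤ d k) (i : Fin (n + 1)) (j : Fin c)
    (k : {k : Fin c // k ≠ j}) :
    pderiv (Sum.inr (Sum.inr k)) (t25_G hd i j) = ∑ ρ : t25_Rest hd i j,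
      X (Sum.inl ρ) * (if ρ.1.1 = k.1 then 1 else 0) * t25_sx hd i j (mon ρ.1.2) := by
  unfold t25_G
  rw [map_sum]
  refine Finset.sum_congr rfl fun ρ _ => ?_
  rw [pderiv_mul, pderiv_mul, pderiv_X_of_ne (by simp), t25_pd_yy_inr, t25_pd_sx_inr]
  ring

theorem t25_pd_inl_inl (hd : ∀ k, 2 ≤ d k) (i : Fin (n + 1)) (j : Fin c)
    (l m : {l : Fin (n + 1) // l ≠ i}) :
    pderiv (Sum.inr (Sum.inl l)) (pderiv (Sum.inr (Sum.inl m)) (t25_G hd i j)) =
      ∑ ρ : t25_Rest hd i j, X (Sum.inl ρ) * t25_yy hd i j ρ.1.1 *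
        t25_sx hd i j (pderiv l.1 (pderiv m.1 (mon ρ.1.2))) := by
  rw [t25_pd_inl, map_sum]
  refine Finset.sum_congr rfl fun ρ _ => ?_
  rw [pderiv_mul, pderiv_mul, pderiv_X_of_ne (by simp), t25_pd_yy_inl, t25_pd_sx_inl]
  ring

theorem t25_pd_inr_inl (hd : ∀ k, 2 ≤ d k) (i : Fin (n + 1)) (j : Fin c)
    (k : {k : Fin c // k ≠ j}) (l : {l : Fin (n + 1) // l ≠ i}) :
    pderiv (Sum.inr (Sum.inr k)) (pderiv (Sum.inr (Sum.inl l)) (t25_G hd i j)) =
      ∑ ρ : t25_Rest hd i j, X (Sum.inl ρ) * (if ρ.1.1 = k.1 then 1 else 0) *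
        t25_sx hd i j (pderiv l.1 (mon ρ.1.2)) := by
  rw [t25_pd_inl, map_sum]
  refine Finset.sum_congr rfl fun ρ _ => ?_
  rw [pderiv_mul, pderiv_mul, pderiv_X_of_ne (by simp), t25_pd_yy_inr, t25_pd_sx_inr]
  ring

theorem t25_pd_inl_inr (hd : ∀ k, 2 ≤ d k) (i : Fin (n + 1)) (j : Fin c)
    (l : {l : Fin (n + 1) // l ≠ i}) (k : {k : Fin c // k ≠ j}) :
    pderiv (Sum.inr (Sum.inl l)) (pderiv (Sum.inr (Sum.inr k)) (t25_G hd i j)) =
      ∑ ρ : t25_Rest hd i j, X (Sum.inl ρ) * (if ρ.1.1 = k.1 then 1 else 0) *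
        t25_sx hd i j (pderiv l.1 (mon ρ.1.2)) := by
  rw [t25_pd_inr, map_sum]
  refine Finset.sum_congr rfl fun ρ _ => ?_
  have h : pderiv (Sum.inr (Sum.inl l) : t25_Rest hd i j ⊕ t25_J i j)
      (if ρ.1.1 = k.1 then (1 : MvPolynomial (t25_Rest hd i j ⊕ t25_J i j) ℤ) else 0) = 0 := by
    split_ifs
    · exact pderiv_one
    · exact map_zero _
  rw [pderiv_mul, pderiv_mul, pderiv_X_of_ne (by simp), h, t25_pd_sx_inl]
  ring

theorem t25_pd_inr_inr (hd : ∀ k, 2 ≤ d k) (i : Fin (n + 1)) (j : Fin c)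
    (k k' : {k : Fin c // k ≠ j}) :
    pderiv (Sum.inr (Sum.inr k)) (pderiv (Sum.inr (Sum.inr k')) (t25_G hd i j)) = 0 := by
  rw [t25_pd_inr, map_sum]
  apply Finset.sum_eq_zero
  intro ρ _
  have h : pderiv (Sum.inr (Sum.inr k) : t25_Rest hd i j ⊕ t25_J i j)
      (if ρ.1.1 = k'.1 then (1 : MvPolynomial (t25_Rest hd i j ⊕ t25_J i j) ℤ) else 0) = 0 := by
    split_ifs
    · exact pderiv_one
    · exact map_zero _
  rw [pderiv_mul, pderiv_mul, pderiv_X_of_ne (by simp), h, t25_pd_sx_inr]
  ring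

/-- evaluation -/
noncomputable def t25_ev (hd : ∀ k, 2 ≤ d k) (i : Fin (n + 1)) (j : Fin c) {L : Type}
    [CommRing L] (a : t25_Rest hd i j → L) (x : Fin (n + 1) → L) (y : Fin c → L) :
    MvPolynomial (t25_Rest hd i j ⊕ t25_J i j) ℤ →ₐ[ℤ] L :=
  aeval (Sum.elim a (Sum.elim (fun l => x l.1) (fun k => y k.1)))

section ev

variable (hd : ∀ k, 2 ≤ d k) (i : Fin (n + 1)) (j : Fin c) {L : Type}
    [CommRing L] (a : t25_Rest hd i j → L) (x : Fin (n + 1) → L) (y : Fin c → L)

theorem t25_ev_sx (hx : x i = 1) (f : MvPolynomial (Fin (n + 1)) ℤ) :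
    t25_ev hd i j a x y (t25_sx hd i j f) = aeval x f := by
  unfold t25_sx
  rw [← AlgHom.comp_apply, comp_aeval]
  congr 2
  funext m
  by_cases h : m = i
  · subst h; simp [hx]
  · rw [dif_neg h]; simp [t25_ev]

theorem t25_ev_yy (hy : y j = 1) (k : Fin c) :
    t25_ev hd i j a x y (t25_yy hd i j k) = y k := by
  unfold t25_yy
  by_cases h : k = j
  · subst h; simp [hy]
  · rw [dif_neg h]; simp [t25_ev]

theorem t25_ev_inl (ρ : t25_Rest hd i j) : t25_ev hd i j a x y (X (Sum.inl ρ)) = a ρ := by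
  simp [t25_ev]

theorem t25_ev_inr_inl (l : {l : Fin (n + 1) // l ≠ i}) :
    t25_ev hd i j a x y (X (Sum.inr (Sum.inl l))) = x l.1 := by
  simp [t25_ev]

theorem t25_ev_inr_inr (k : {k : Fin c // k ≠ j}) :
    t25_ev hd i j a x y (X (Sum.inr (Sum.inr k))) = y k.1 := by
  simp [t25_ev]

/-- the weighted sum over the other coefficients -/
noncomputable def t25_S (w : Fin c → L)
    (D : MvPolynomial (Fin (n + 1)) ℤ → MvPolynomial (Fin (n + 1)) ℤ) : L :=
  ∑ ρ : t25_Rest hd i j, a ρ * w ρ.1.1 * aeval x (D (mon ρ.1.2))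

theorem t25_ev0 (hx : x i = 1) (hy : y j = 1) :
    t25_ev hd i j a x y (t25_G hd i j) = t25_S hd i j a x y id := by
  simp only [t25_G, t25_S, map_sum, map_mul, t25_ev_inl, t25_ev_sx hd i j a x y hx,
    t25_ev_yy hd i j a x y hy, id]

theorem t25_ev_pd_inl (hx : x i = 1) (hy : y j = 1) (l : {l : Fin (n + 1) // l ≠ i}) :
    t25_ev hd i j a x y (pderiv (Sum.inr (Sum.inl l)) (t25_G hd i j)) =
      t25_S hd i j a x y (pderiv l.1) := by
  simp only [t25_pd_inl, t25_S, map_sum, map_mul, t25_ev_inl, t25_ev_sx hd i j a x y hx,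
    t25_ev_yy hd i j a x y hy]

theorem t25_ev_pd_inr (hx : x i = 1) (k : {k : Fin c // k ≠ j}) :
    t25_ev hd i j a x y (pderiv (Sum.inr (Sum.inr k)) (t25_G hd i j)) =
      t25_S hd i j a x (fun k' => if k' = k.1 then 1 else 0) id := by
  simp only [t25_pd_inr, t25_S, map_sum, map_mul, t25_ev_inl, t25_ev_sx hd i j a x y hx, id,
    apply_ite (t25_ev hd i j a x y), map_one, map_zero]

theorem t25_ev_inl_inl (hx : x i = 1) (hy : y j = 1) (l m : {l : Fin (n + 1) // l ≠ i}) :
    t25_ev hd i j a x y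
      (pderiv (Sum.inr (Sum.inl l)) (pderiv (Sum.inr (Sum.inl m)) (t25_G hd i j))) =
      t25_S hd i j a x y (fun f => pderiv l.1 (pderiv m.1 f)) := by
  simp only [t25_pd_inl_inl, t25_S, map_sum, map_mul, t25_ev_inl, t25_ev_sx hd i j a x y hx,
    t25_ev_yy hd i j a x y hy]

theorem t25_ev_inr_inl' (hx : x i = 1) (k : {k : Fin c // k ≠ j})
    (l : {l : Fin (n + 1) // l ≠ i}) :
    t25_ev hd i j a x y
      (pderiv (Sum.inr (Sum.inr k)) (pderiv (Sum.inr (Sum.inl l)) (t25_G hd i j))) =
      t25_S hd i j a x (fun k' => if k' = k.1 then 1 else 0) (pderiv l.1) := by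
  simp only [t25_pd_inr_inl, t25_S, map_sum, map_mul, t25_ev_inl, t25_ev_sx hd i j a x y hx,
    apply_ite (t25_ev hd i j a x y), map_one, map_zero]

theorem t25_ev_inl_inr' (hx : x i = 1) (l : {l : Fin (n + 1) // l ≠ i})
    (k : {k : Fin c // k ≠ j}) :
    t25_ev hd i j a x y
      (pderiv (Sum.inr (Sum.inl l)) (pderiv (Sum.inr (Sum.inr k)) (t25_G hd i j))) =
      t25_S hd i j a x (fun k' => if k' = k.1 then 1 else 0) (pderiv l.1) := by
  simp only [t25_pd_inl_inr, t25_S, map_sum, map_mul, t25_ev_inl, t25_ev_sx hd i j a x y hx,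
    apply_ite (t25_ev hd i j a x y), map_one, map_zero]

end ev

theorem t25_pd_one {L : Type} [CommRing L] {x : Fin (n + 1) → L}
    {i : Fin (n + 1)} (hxi : x i = 1) (e : ℕ) (l m : {l : Fin (n + 1) // l ≠ i}) :
    aeval x (pderiv m.1 (X i ^ e * X l.1 : MvPolynomial (Fin (n + 1)) ℤ)) =
      if l = m then 1 else 0 := by
  rw [pderiv_mul, pd_X_pow_ne i m.1 m.2, zero_mul, zero_add]
  by_cases h : l = m
  · subst h
    rw [if_pos rfl, pderiv_X_self]
    simp [hxi]
  · have : l.1 ≠ m.1 := fun h' => h (Subtype.ext h')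
    rw [if_neg h, pderiv_X_of_ne this]
    simp

theorem t25_pd2_one {i : Fin (n + 1)} (e : ℕ) (l m m' : {l : Fin (n + 1) // l ≠ i}) :
    pderiv m'.1 (pderiv m.1 (X i ^ e * X l.1 : MvPolynomial (Fin (n + 1)) ℤ)) = 0 := by
  rw [pderiv_mul, pd_X_pow_ne i m.1 m.2, zero_mul, zero_add, pderiv_mul,
    pd_X_pow_ne i m'.1 m'.2, zero_mul, zero_add]
  by_cases h : l.1 = m.1
  · rw [h, pderiv_X_self, pderiv_one, mul_zero]
  · rw [pderiv_X_of_ne h, map_zero, mul_zero]

/-- the full weighted sum -/
noncomputable def t25_T {L : Type} [CommRing L] (a : Coef n d → L) (x : Fin (n + 1) → L)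
    (w : Fin c → L) (D : MvPolynomial (Fin (n + 1)) ℤ → MvPolynomial (Fin (n + 1)) ℤ) : L :=
  ∑ p : Coef n d, a p * w p.1 * aeval x (D (mon p.2))

theorem t25_T_eq {L : Type} [CommRing L] (a : Coef n d → L) (x : Fin (n + 1) → L)
    (w : Fin c → L) (D : MvPolynomial (Fin (n + 1)) ℤ → MvPolynomial (Fin (n + 1)) ℤ) :
    t25_T a x w D = ∑ k, w k * ∑ μ : Mono n (d k), a ⟨k, μ⟩ * aeval x (D (mon μ)) := by
  unfold t25_T
  rw [Fintype.sum_sigma]
  refine Finset.sum_congr rfl fun k _ => ?_
  rw [Finset.mul_sum]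
  refine Finset.sum_congr rfl fun μ _ => ?_
  ring

theorem t25_T_split {L : Type} [CommRing L] (a : Coef n d → L) (x : Fin (n + 1) → L)
    (w : Fin c → L) (D : MvPolynomial (Fin (n + 1)) ℤ → MvPolynomial (Fin (n + 1)) ℤ)
    (hd : ∀ k, 2 ≤ d k) (i : Fin (n + 1)) (j : Fin c) :
    t25_T a x w D = a ⟨j, cm n (d j) i⟩ * w j * aeval x (D (X i ^ d j)) +
      (t25_S hd i j (fun ρ => a ρ.1) x w D +
      (∑ l : {l : Fin (n + 1) // l ≠ i}, a ⟨j, bm (hd j) i l⟩ * w j *
        aeval x (D (X i ^ (d j - 1) * X l.1)) +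
        ∑ k : {k : Fin c // k ≠ j}, a ⟨k.1, cm n (d k.1) i⟩ * w k.1 *
          aeval x (D (X i ^ d k.1)))) := by
  unfold t25_T t25_S
  rw [t25_sum hd i j]
  simp only [mon_cm, mon_bm]

section split

variable {L : Type} [CommRing L] (a : Coef n d → L) (x : Fin (n + 1) → L)
    (w : Fin c → L) (hd : ∀ k, 2 ≤ d k) (i : Fin (n + 1)) (j : Fin c)

theorem t25_T0 (hx : x i = 1) : t25_T a x w id = a ⟨j, cm n (d j) i⟩ * w j +
      (t25_S hd i j (fun ρ => a ρ.1) x w id +
      (∑ l : {l : Fin (n + 1) // l ≠ i}, a ⟨j, bm (hd j) i l⟩ * w j * x l.1 +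
        ∑ k : {k : Fin c // k ≠ j}, a ⟨k.1, cm n (d k.1) i⟩ * w k.1)) := by
  rw [t25_T_split a x w id hd i j]
  simp only [id, map_mul, map_pow, aeval_X, hx, one_pow, mul_one, one_mul]

theorem t25_T1 (hx : x i = 1) (m : {l : Fin (n + 1) // l ≠ i}) :
    t25_T a x w (pderiv m.1) = t25_S hd i j (fun ρ => a ρ.1) x w (pderiv m.1) +
      a ⟨j, bm (hd j) i m⟩ * w j := by
  rw [t25_T_split a x w _ hd i j]
  simp only [pd_X_pow_ne i m.1 m.2, t25_pd_one hx, map_zero, mul_zero,
    Finset.sum_const_zero, mul_ite, mul_one, Finset.sum_ite_eq', Finset.mem_univ, if_true,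
    zero_add, add_zero]

theorem t25_T2 (m m' : {l : Fin (n + 1) // l ≠ i}) :
    t25_T a x w (fun f => pderiv m'.1 (pderiv m.1 f)) =
      t25_S hd i j (fun ρ => a ρ.1) x w (fun f => pderiv m'.1 (pderiv m.1 f)) := by
  rw [t25_T_split a x w _ hd i j]
  simp only [pd_X_pow_ne i m.1 m.2, t25_pd2_one, map_zero, mul_zero,
    Finset.sum_const_zero, zero_add, add_zero]

end split

/-- the coefficients used for the Hessian determinant -/
def t25_R (hd : ∀ k, 2 ≤ d k) (i : Fin (n + 1)) (j : Fin c)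
    (e : {k : Fin c // k ≠ j} → {l : Fin (n + 1) // l ≠ i}) : t25_J i j → t25_Rest hd i j
  | Sum.inl l => ⟨⟨j, dm (hd j) i l⟩, dm_ne_cm (hd j) i l, fun l' h =>
      dm_ne_bm (hd j) i l l' (eq_of_heq (Sigma.mk.inj h).2)⟩
  | Sum.inr k => ⟨⟨k.1, bm (hd k.1) i (e k)⟩, fun h => cm_ne_bm (hd k.1) i (e k) h.symm,
      fun _ h => k.2 (Sigma.mk.inj h).1⟩

theorem t25_hess_ne (hd : ∀ k, 2 ≤ d k) (hcn : c < n) (i : Fin (n + 1)) (j : Fin c) :
    (hess (t25_G hd i j)).det ≠ 0 := by
  classical
  intro h0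
  -- the injection
  obtain ⟨e, he⟩ : ∃ e : {k : Fin c // k ≠ j} → {l : Fin (n + 1) // l ≠ i},
      Function.Injective e := by
    have h1 : Fintype.card {k : Fin c // k ≠ j} ≤ Fintype.card {l : Fin (n + 1) // l ≠ i} := by
      have h2 : Fintype.card {k : Fin c // k ≠ j} = c - 1 := by
        rw [Fintype.card_subtype_compl, Fintype.card_fin, Fintype.card_subtype_eq]
      have h3 : Fintype.card {l : Fin (n + 1) // l ≠ i} = n + 1 - 1 := by
        rw [Fintype.card_subtype_compl, Fintype.card_fin, Fintype.card_subtype_eq]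
      omega
    obtain ⟨e⟩ := Function.Embedding.nonempty_of_card_le h1
    exact ⟨e, e.injective⟩
  let cf : t25_J i j → ℤ := Sum.elim (fun l => if l ∈ Set.range e then 0 else 1) fun _ => 1
  let a : t25_Rest hd i j → ℤ := fun ρ => ∑ t, if ρ = t25_R hd i j e t then cf t else 0
  let x : Fin (n + 1) → ℤ := fun m => if m = i then 1 else 0
  let y : Fin c → ℤ := fun k => if k = j then 1 else 0
  have hx : x i = 1 := if_pos rfl
  have hy : y j = 1 := if_pos rfl
  have hS : ∀ (w : Fin c → ℤ) (D : MvPolynomial (Fin (n + 1)) ℤ → MvPolynomial (Fin (n + 1)) ℤ),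
      t25_S hd i j a x w D = ∑ l, cf (Sum.inl l) * w j *
          aeval x (D (X i ^ (d j - 2) * X l.1 ^ 2)) +
        ∑ k : {k : Fin c // k ≠ j}, w k.1 *
          aeval x (D (X i ^ (d k.1 - 1) * X (e k).1)) := by
    intro w D
    unfold t25_S
    simp only [a, Finset.sum_mul]
    rw [Finset.sum_comm]
    simp only [ite_mul, zero_mul, Finset.sum_ite_eq', Finset.mem_univ, if_true]
    rw [Fintype.sum_sum_type]
    congr 1
    · refine Finset.sum_congr rfl fun l _ => ?_
      change cf (Sum.inl l) * w j * aeval x (D (mon (dm (hd j) i l))) = _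
      rw [mon_dm]
    · refine Finset.sum_congr rfl fun k _ => ?_
      change 1 * w k.1 * aeval x (D (mon (bm (hd k.1) i (e k)))) = _
      rw [mon_bm, one_mul]
  obtain ⟨sp, hsp⟩ : ∃ sp, sp = t25_ev hd i j a x y := ⟨_, rfl⟩
  have h1 := congrArg sp h0
  rw [AlgHom.map_det, map_zero] at h1
  obtain ⟨v, hv0, hv⟩ := Matrix.exists_mulVec_eq_zero_iff.2 h1
  apply hv0
  have hyk : ∀ k : {k : Fin c // k ≠ j}, y k.1 = 0 := fun k => if_neg k.2
  -- entries
  have e11 : ∀ l m, (sp.mapMatrix (hess (t25_G hd i j))) (Sum.inl l) (Sum.inl m) =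
      if l = m then (if l ∈ Set.range e then 0 else 2) else 0 := by
    intro l m
    rw [AlgHom.mapMatrix_apply, Matrix.map_apply, hess, Matrix.of_apply, hsp,
      t25_ev_inl_inl hd i j a x y hx hy, hS]
    have h3 : ∀ m' : {l : Fin (n + 1) // l ≠ i}, aeval x
        (pderiv l.1 (pderiv m.1 (X i ^ (d j - 2) * X m'.1 ^ 2 : MvPolynomial (Fin (n + 1)) ℤ)))
        = if m' = m then (if l = m then 2 else 0) else 0 := by
      intro m'
      rw [pderiv_mul, pd_X_pow_ne i m.1 m.2, zero_mul, zero_add, pderiv_mul,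
        pd_X_pow_ne i l.1 l.2, zero_mul, zero_add, pderiv_pow]
      by_cases hml : m' = m
      · subst hml
        rw [if_pos rfl, pderiv_X_self]
        by_cases hjm : l = m'
        · subst hjm
          rw [if_pos rfl]
          simp [pd_two, hx]
        · rw [if_neg hjm]
          have : m'.1 ≠ l.1 := fun h => hjm (Subtype.ext h).symm
          simp [this, pd_two]
      · have : m'.1 ≠ m.1 := fun h => hml (Subtype.ext h)
        rw [if_neg hml, pderiv_X_of_ne this]
        simp
    simp only [h3, t25_pd2_one, map_zero, mul_zero, Finset.sum_const_zero, add_zero, hy, mul_one,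
      mul_ite, Finset.sum_ite_eq', Finset.mem_univ, if_true, cf, Sum.elim_inl]
    by_cases hlm : l = m
    · subst hlm
      simp only [if_true]
      split_ifs <;> simp
    · simp [hlm]
  have e12 : ∀ l k, (sp.mapMatrix (hess (t25_G hd i j))) (Sum.inl l) (Sum.inr k) =
      if e k = l then 1 else 0 := by
    intro l k
    rw [AlgHom.mapMatrix_apply, Matrix.map_apply, hess, Matrix.of_apply, hsp,
      t25_ev_inl_inr' hd i j a x y hx, hS]
    have hjk : ¬ j = k.1 := fun h => k.2 h.symm
    simp only [if_neg hjk, mul_zero, zero_mul, Finset.sum_const_zero, zero_add,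
      t25_pd_one hx, ite_mul, one_mul]
    rw [Finset.sum_eq_single k]
    · rw [if_pos rfl]
    · intro b _ hb
      rw [if_neg fun h => hb (Subtype.ext h)]
    · intro h; exact absurd (Finset.mem_univ _) h
  have e21 : ∀ k l, (sp.mapMatrix (hess (t25_G hd i j))) (Sum.inr k) (Sum.inl l) =
      if e k = l then 1 else 0 := by
    intro k l
    rw [AlgHom.mapMatrix_apply, Matrix.map_apply, hess, Matrix.of_apply, hsp,
      t25_ev_inr_inl' hd i j a x y hx, hS]
    have hjk : ¬ j = k.1 := fun h => k.2 h.symm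
    simp only [if_neg hjk, mul_zero, zero_mul, Finset.sum_const_zero, zero_add,
      t25_pd_one hx, ite_mul, one_mul]
    rw [Finset.sum_eq_single k]
    · rw [if_pos rfl]
    · intro b _ hb
      rw [if_neg fun h => hb (Subtype.ext h)]
    · intro h; exact absurd (Finset.mem_univ _) h
  have e22 : ∀ k k', (sp.mapMatrix (hess (t25_G hd i j))) (Sum.inr k) (Sum.inr k') = 0 := by
    intro k k'
    rw [AlgHom.mapMatrix_apply, Matrix.map_apply, hess, Matrix.of_apply, t25_pd_inr_inr, map_zero]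
  have hrow : ∀ t, ∑ s, (sp.mapMatrix (hess (t25_G hd i j))) t s * v s = 0 := fun t =>
    congrFun hv t
  have r2 : ∀ k, v (Sum.inl (e k)) = 0 := by
    intro k
    have := hrow (Sum.inr k)
    rw [Fintype.sum_sum_type] at this
    simpa only [e21, e22, ite_mul, one_mul, zero_mul, Finset.sum_ite_eq, Finset.mem_univ, if_true,
      Finset.sum_const_zero, add_zero] using this
  have r1 : ∀ l, v (Sum.inl l) = 0 := by
    intro l
    by_cases hl : l ∈ Set.range e
    · obtain ⟨k, rfl⟩ := hl
      exact r2 k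
    · have := hrow (Sum.inl l)
      rw [Fintype.sum_sum_type] at this
      have h4 : ∀ k, ¬ e k = l := fun k h => hl ⟨k, h⟩
      simp only [e11, e12, ite_mul, zero_mul, Finset.sum_ite_eq, Finset.mem_univ, if_true,
        if_neg hl, if_neg (h4 _), Finset.sum_const_zero, add_zero] at this
      omega
  have r3 : ∀ k, v (Sum.inr k) = 0 := by
    intro k
    have := hrow (Sum.inl (e k))
    rw [Fintype.sum_sum_type] at this
    simp only [r1, mul_zero, Finset.sum_const_zero, zero_add, e12, he.eq_iff, ite_mul, one_mul,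
      zero_mul] at this
    rw [Finset.sum_eq_single k] at this
    · rwa [if_pos rfl] at this
    · intro b _ hb
      rw [if_neg hb]
    · intro h; exact absurd (Finset.mem_univ _) h
  funext t
  rcases t with l | k
  · exact r1 l
  · exact r3 k

end T25

theorem exists_pair_sys {n c : ℕ} {d : Fin c → ℕ} (hd : ∀ k, 2 ≤ d k) (hcn : c < n)
    (i : Fin (n + 1)) (j : Fin c) :
    ∃ g P : MvPolynomial (Coef n d) ℤ, Irreducible g ∧ ¬ g ∣ P ∧
      ∀ (L : Type) [Field L] (a : Coef n d → L) (x : Fin (n + 1) → L) (y : Fin c → L),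
        x i = 1 → y j = 1 → IsSing (sform a) x y →
        aeval a g = 0 ∧ ((hessAt (sform a) i j x y).det = 0 → aeval a P = 0) := by
  classical
  obtain ⟨z, hz⟩ : ∃ z, z = ∑ l : {l : Fin (n + 1) // l ≠ i}, X (Sum.inr (Sum.inl l)) *
    pderiv (Sum.inr (Sum.inl l)) (t25_G hd i j) + ∑ k : {k : Fin c // k ≠ j},
      X (Sum.inr (Sum.inr k)) * pderiv (Sum.inr (Sum.inr k)) (t25_G hd i j) - t25_G hd i j :=
    ⟨_, rfl⟩
  obtain ⟨g, P, hg, hgP, h1, h2⟩ := pair_abs (t25_G hd i j) (t25_hess_ne hd hcn i j) z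
  obtain ⟨e, he⟩ : ∃ e, e = Equiv.ofBijective _ (t25_emap_bij (n := n) hd i j) := ⟨_, rfl⟩
  refine ⟨rename e g, rename e P, ?_, ?_, ?_⟩
  · exact (MulEquiv.irreducible_iff (renameEquiv ℤ e).toMulEquiv).2 hg
  · intro h
    apply hgP
    have h3 := map_dvd (renameEquiv ℤ e.symm) h
    simpa [rename_rename] using h3
  · intro L _ a x y hx hy hs
    obtain ⟨hs0, hs1⟩ := hs
    obtain ⟨ev, hev⟩ : ∃ ev, ev = t25_ev hd i j (fun ρ : t25_Rest hd i j => a ρ.1) x y := ⟨_, rfl⟩
    -- the forms
    have hF0 : ∀ w : Fin c → L, t25_T a x w id = ∑ k, w k * eval x (sform a k) := by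
      intro w
      rw [t25_T_eq]
      refine Finset.sum_congr rfl fun k _ => ?_
      rw [sform, eval_form_eq]
      rfl
    have hF1 : ∀ (w : Fin c → L) (l : Fin (n + 1)),
        t25_T a x w (pderiv l) = ∑ k, w k * eval x (pderiv l (sform a k)) := by
      intro w l
      rw [t25_T_eq]
      refine Finset.sum_congr rfl fun k _ => ?_
      rw [sform, eval_pd_form]
    have hF2 : ∀ (w : Fin c → L) (l m : Fin (n + 1)),
        t25_T a x w (fun f => pderiv l (pderiv m f)) =
          ∑ k, w k * eval x (pderiv l (pderiv m (sform a k))) := by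
      intro w l m
      rw [t25_T_eq]
      refine Finset.sum_congr rfl fun k _ => ?_
      rw [sform, eval_pd2_form]
    -- the coefficients
    have hb : ∀ l : {l : Fin (n + 1) // l ≠ i},
        a ⟨j, bm (hd j) i l⟩ = - ev (pderiv (Sum.inr (Sum.inl l)) (t25_G hd i j)) := by
      intro l
      have h3 := hF1 y l.1
      rw [hs1 l.1, t25_T1 a x y hd i j hx l, hy, mul_one] at h3
      rw [hev, t25_ev_pd_inl hd i j _ x y hx hy]
      linear_combination h3
    have hbk : ∀ k : {k : Fin c // k ≠ j},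
        a ⟨k.1, cm n (d k.1) i⟩ = - ev (pderiv (Sum.inr (Sum.inr k)) (t25_G hd i j)) := by
      intro k
      have h3 := hF0 (fun k' => if k' = k.1 then 1 else 0)
      have hjk : ¬ j = k.1 := fun h => k.2 h.symm
      have h5 : ∑ k' : {k : Fin c // k ≠ j}, a ⟨k'.1, cm n (d k'.1) i⟩ *
          (if k'.1 = k.1 then (1 : L) else 0) = a ⟨k.1, cm n (d k.1) i⟩ := by
        rw [Finset.sum_eq_single k]
        · rw [if_pos rfl, mul_one]
        · intro b _ hb
          rw [if_neg fun h => hb (Subtype.ext h), mul_zero]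
        · intro h; exact absurd (Finset.mem_univ _) h
      simp only [hs0, mul_zero, Finset.sum_const_zero] at h3
      rw [t25_T0 a x _ hd i j hx] at h3
      simp only [if_neg hjk, mul_zero, zero_mul, Finset.sum_const_zero, zero_add] at h3
      rw [h5] at h3
      rw [hev, t25_ev_pd_inr hd i j _ x y hx]
      linear_combination h3
    have hc : a ⟨j, cm n (d j) i⟩ = ev z := by
      have h3 := hF0 y
      simp only [hs0, mul_zero, Finset.sum_const_zero] at h3
      rw [t25_T0 a x y hd i j hx, hy] at h3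
      simp only [mul_one] at h3
      rw [hz, map_sub, map_add, map_sum, map_sum]
      simp only [map_mul]
      have hG0 : ev (t25_G hd i j) = t25_S hd i j (fun ρ => a ρ.1) x y id := by
        rw [hev, t25_ev0 hd i j _ x y hx hy]
      have h4 : ∑ l : {l : Fin (n + 1) // l ≠ i}, a ⟨j, bm (hd j) i l⟩ * x l.1 =
          - ∑ l : {l : Fin (n + 1) // l ≠ i}, ev (X (Sum.inr (Sum.inl l))) *
            ev (pderiv (Sum.inr (Sum.inl l)) (t25_G hd i j)) := by
        rw [← Finset.sum_neg_distrib]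
        refine Finset.sum_congr rfl fun l _ => ?_
        rw [hb l, hev, t25_ev_inr_inl]; ring
      have h5 : ∑ k : {k : Fin c // k ≠ j}, a ⟨k.1, cm n (d k.1) i⟩ * y k.1 =
          - ∑ k : {k : Fin c // k ≠ j}, ev (X (Sum.inr (Sum.inr k))) *
            ev (pderiv (Sum.inr (Sum.inr k)) (t25_G hd i j)) := by
        rw [← Finset.sum_neg_distrib]
        refine Finset.sum_congr rfl fun k _ => ?_
        rw [hbk k, hev, t25_ev_inr_inr]; ring
      rw [h4, h5] at h3
      linear_combination h3 + hG0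
    have hcomp : ∀ f : MvPolynomial (Option (t25_Rest hd i j ⊕ t25_J i j)) ℤ,
        aeval a (rename e f) =
          ev (aeval (fun o : Option (t25_Rest hd i j ⊕ t25_J i j) =>
            o.elim z (sb (t25_G hd i j))) f) := by
      intro f
      rw [aeval_rename, ← AlgHom.comp_apply, comp_aeval]
      congr 2
      funext o
      rw [he]
      rcases o with _ | ρ | l | k
      · exact hc
      · rw [hev]
        exact (t25_ev_inl hd i j (fun ρ => a ρ.1) x y ρ).symm
      · simp only [Function.comp_apply, Equiv.ofBijective_apply, t25_emap, Option.elim_some, sb,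
          Sum.elim_inr, map_neg]
        exact hb l
      · simp only [Function.comp_apply, Equiv.ofBijective_apply, t25_emap, Option.elim_some, sb,
          Sum.elim_inr, map_neg]
        exact hbk k
    refine ⟨by rw [hcomp, h1, map_zero], fun hdet => ?_⟩
    rw [hcomp]
    obtain ⟨Q, hQ⟩ := h2
    rw [hQ, map_mul, AlgHom.map_det]
    have h3 : (ev.mapMatrix (hess (t25_G hd i j))) = hessAt (sform a) i j x y := by
      have hk1 : ∀ (k : {k : Fin c // k ≠ j}) (l : {l : Fin (n + 1) // l ≠ i}),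
          t25_S hd i j (fun ρ => a ρ.1) x (fun k' => if k' = k.1 then 1 else 0) (pderiv l.1) =
            eval x (pderiv l.1 (sform a k.1)) := by
        intro k l
        have h4 := hF1 (fun k' => if k' = k.1 then 1 else 0) l.1
        have hjk : ¬ j = k.1 := fun h => k.2 h.symm
        rw [t25_T1 a x _ hd i j hx l] at h4
        simp only [if_neg hjk, mul_zero, add_zero, ite_mul, one_mul, zero_mul, Finset.sum_ite_eq',
          Finset.mem_univ, if_true] at h4
        exact h4
      ext s t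
      rw [AlgHom.mapMatrix_apply, Matrix.map_apply, hess, Matrix.of_apply, hev]
      rcases s with l | k <;> rcases t with m | k'
      · rw [t25_ev_inl_inl hd i j _ x y hx hy, ← t25_T2 a x y hd i j m l, hF2]
        rfl
      · rw [t25_ev_inl_inr' hd i j _ x y hx, hk1]
        rfl
      · rw [t25_ev_inr_inl' hd i j _ x y hx, hk1]
        rfl
      · rw [t25_pd_inr_inr, map_zero]
        rfl
    rw [h3, hdet, zero_mul]

end Pool.Agent.Lib.MP_6a3dac_ag.Sys
end
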