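import Pool.Agent.Lib.MP_6a3dac_ag.Mg.G008
import Pool.Agent.Lib.MP_6a3dac_ag.Mg.G028
import Pool.Agent.Lib.MP_6a3dac_ag.Dens.Pair
import Pool.Agent.Lib.MP_6a3dac_ag.Mg.G029
import Pool.Agent.Lib.MP_6a3dac_ag.DNF.Hyper
import Pool.Agent.Lib.MP_6a3dac_ag.Mg.G032
import Pool.Agent.Lib.MP_6a3dac_ag.Mg.G035
import Pool.Agent.Lib.MP_6a3dac_ag.Mg.G010

section

/-!
# Regular models of hypersurfaces with nondegenerate double points: the concrete form
-/

set_option autoImplicit false

namespace Pool.Agent.Lib.MP_6a3dac_ag.DNF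

open MvPolynomial IsLocalRing IsDedekindDomain CategoryTheory Limits AlgebraicGeometry

section Model

variable {R K : Type} [CommRing R] [IsDedekindDomain R] [Field K] [Algebra R K]
  [IsFractionRing R K] {n d : ℕ} {f : MvPolynomial (Fin (n + 1)) R} (hf : f.IsHomogeneous d)
  (𝔞 : HomIdeal K (n + 1)) (h𝔞 : 𝔞.ideal = Ideal.span {map (algebraMap R K) f})

omit [IsDedekindDomain R] in
/-- The Jacobian criterion over the field of fractions. -/
theorem jac_frac {m : R} (hm : m ≠ 0) {N : ℕ} {i : Fin (n + 1)}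
    (hmN : C m * X i ^ N ∈ Ideal.span (insert f (Set.range fun l => pderiv l f))) :
    (X i : MvPolynomial (Fin (n + 1)) K) ^ N ∈ Ideal.span
      (insert (map (algebraMap R K) f)
        (Set.range fun l => pderiv l (map (algebraMap R K) f))) := by
  have h1 := Ideal.mem_map_of_mem (map (algebraMap R K)) hmN
  rw [Ideal.map_span, Set.image_insert_eq, ← Set.range_comp, map_mul, map_C, map_pow, map_X] at h1
  have h2 : ((map (algebraMap R K)) ∘ fun l => pderiv l f) =
      fun l => pderiv l (map (algebraMap R K) f) := by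
    funext l
    exact (pderiv_map (φ := algebraMap R K) (f := f) (i := l)).symm
  rw [h2] at h1
  have h3 := Ideal.mul_mem_left _ (C ((algebraMap R K m)⁻¹)) h1
  have hm0 : algebraMap R K m ≠ 0 := by
    intro h0
    apply hm
    exact IsFractionRing.injective R K (by rw [h0, map_zero])
  rw [← mul_assoc, ← C_mul, inv_mul_cancel₀ hm0, C_1, one_mul] at h3
  exact h3

include hf h𝔞 in
theorem exists_model_form (hRf : ¬ IsField R) (hn : 2 ≤ n) (hd : 2 ≤ d) {m : R} (hm : m ≠ 0)
    {N : ℕ} (hmN : ∀ i, C m * X i ^ N ∈ Ideal.span (insert f (Set.range fun l => pderiv l f)))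
    (hsing : ∀ P : HeightOneSpectrum R, m ∈ P.asIdeal → (2 : R) ∉ P.asIdeal ∧
      ∀ (ϖ : locRing K P), Irreducible ϖ → ∀ i,
        NondegAt ϖ (dehom i (map (algebraMap R (locRing K P)) f))) :
    ∃ (Y : Scheme.{0}) (g : Y ⟶ Spec (CommRingCat.of R)),
      IsProper g ∧ Flat g ∧ (∀ y : Y, IsRegularLocalRing (Y.presheaf.stalk y)) ∧
      ∃ e : pullback g (Spec.map (CommRingCat.ofHom (algebraMap R K))) ≅ hProj 𝔞,
        e.hom ≫ hProjTo 𝔞 =
          pullback.snd g (Spec.map (CommRingCat.ofHom (algebraMap R K))) := by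
  have hirr : Irreducible (map (algebraMap R K) f) :=
    dens_irreducible hn (by omega) (hf.map _) fun i => jac_frac hm (hmN i)
  have hprime : 𝔞.ideal.IsPrime := by
    rw [h𝔞, Ideal.span_singleton_prime hirr.ne_zero]
    exact hirr.prime
  have : IsDomain (HCoord 𝔞) := Ideal.Quotient.isDomain 𝔞.ideal
  let _ : Algebra R (HCoord 𝔞) := ((algebraMap K (HCoord 𝔞)).comp (algebraMap R K)).toAlgebra
  have : IsScalarTower R K (HCoord 𝔞) := IsScalarTower.of_algebraMap_eq fun _ => rfl
  refine exists_model_hyp (𝒜 := hGr 𝔞) (hMk 𝔞) (fun q e hq => ⟨q, hq, rfl⟩) hf ?_ ?_ ?_ hRf hd hm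
    hmN hsing
  · change Ideal.Quotient.mk 𝔞.ideal (map (algebraMap R K) f) = 0
    rw [Ideal.Quotient.eq_zero_iff_mem, h𝔞]
    exact Ideal.subset_span rfl
  · intro g hg
    change Ideal.Quotient.mk 𝔞.ideal g = 0 at hg
    rwa [Ideal.Quotient.eq_zero_iff_mem, h𝔞, Ideal.mem_span_singleton] at hg
  · rw [eq_top_iff]
    rintro a -
    obtain ⟨q, rfl⟩ := Ideal.Quotient.mk_surjective a
    change hMk 𝔞 q ∈ _
    induction q using MvPolynomial.induction_on with
    | C c =>
      have h1 : hMk 𝔞 (C c) = algebraMap K (HCoord 𝔞) c := (hMk 𝔞).commutes c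
      rw [h1]
      exact Subalgebra.algebraMap_mem _ _
    | add a b ha hb => rw [map_add]; exact Subalgebra.add_mem _ ha hb
    | mul_X a k ha =>
      rw [map_mul]
      exact Subalgebra.mul_mem _ ha (Algebra.subset_adjoin ⟨k, rfl⟩)

end Model

section Form

variable {n d : ℕ}

theorem map_form {R S : Type} [CommRing R] [CommRing S] (θ : R →+* S) (a : Mono n d → R) :
    map θ (form a) = form fun μ => θ (a μ) := by
  simp [form, map_sum, map_prod]

/-- Evaluation at a point of the chart. -/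
theorem eval_map_dehom {O k : Type} [CommRing O] [CommRing k] (i : Fin (n + 1))
    (θ : MvPolynomial {l : Fin (n + 1) // l ≠ i} O →+* k) (q : MvPolynomial (Fin (n + 1)) O) :
    eval (fun l => θ (dehom i (X l))) (map (θ.comp C) q) = θ (dehom i q) := by
  have h1 : (eval fun l => θ (dehom i (X l))).comp (map (θ.comp C)) =
      θ.comp (dehom i : _ →ₐ[O] _).toRingHom := by
    apply MvPolynomial.ringHom_ext
    · intro c
      change eval _ (map (θ.comp C) (C c)) = θ (dehom i (C c))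
      rw [map_C, eval_C, dehom_C]
      rfl
    · intro l
      change eval _ (map (θ.comp C) (X l)) = θ (dehom i (X l))
      rw [map_X, eval_X]
  exact congrArg (fun g : MvPolynomial (Fin (n + 1)) O →+* k => g q) h1

/-- Nondegenerate double points from the coprime pair. -/
theorem nondegAt_of_pair {i : Fin (n + 1)} {g G : MvPolynomial (Mono n d) ℤ}
    (hgG : ∀ (k : Type) [Field k] (a : Mono n d → k) (x : Fin (n + 1) → k), x i = 1 →
        eval x (form a) = 0 → (∀ l, l ≠ i → eval x (pderiv l (form a)) = 0) →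
        (Matrix.of fun j l : {l : Fin (n + 1) // l ≠ i} =>
          eval x (pderiv j.1 (pderiv l.1 (form a)))).det = 0 →
        aeval a g = 0 ∧ aeval a G = 0) {R O : Type} [CommRing R] [CommRing O] [Algebra R O]
    (P : Ideal R) [P.IsPrime] [IsLocalization.AtPrime O P] (a : Mono n d → R)
    (h : ¬ (aeval a g ∈ P ∧ aeval a G ∈ P)) (ϖ : O) :
    NondegAt ϖ (dehom i (map (algebraMap R O) (form a))) := by
  intro Q hQ hpQ hFQ hdQ hdet
  apply h
  obtain ⟨k, _, θ, hθ⟩ : ∃ (k : Type) (_ : Field k)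
      (θ : MvPolynomial {l : Fin (n + 1) // l ≠ i} O →+* k), ∀ z, θ z = 0 ↔ z ∈ Q := by
    have : IsDomain (MvPolynomial {l : Fin (n + 1) // l ≠ i} O ⧸ Q) := Ideal.Quotient.isDomain Q
    refine ⟨FractionRing (MvPolynomial {l : Fin (n + 1) // l ≠ i} O ⧸ Q), inferInstance,
      (algebraMap _ _).comp (Ideal.Quotient.mk Q), fun z => ?_⟩
    rw [RingHom.comp_apply, FaithfulSMul.algebraMap_eq_zero_iff, Ideal.Quotient.eq_zero_iff_mem]
  let θR : R →+* k := (θ.comp C).comp (algebraMap R O)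
  have hmem : ∀ z : R, θR z = 0 → z ∈ P := by
    intro z hz
    by_contra hcon
    have h1 : IsUnit (algebraMap R O z) :=
      IsLocalization.map_units O (⟨z, hcon⟩ : P.primeCompl)
    exact (h1.map (θ.comp C)).ne_zero hz
  have hform : form (fun μ => θR (a μ)) = map (θ.comp C) (map (algebraMap R O) (form a)) := by
    rw [map_form, map_form]
    rfl
  have e0 : eval (fun l => θ (dehom i (X l))) (form fun μ => θR (a μ)) = 0 := by
    rw [hform, eval_map_dehom]
    exact (hθ _).mpr hFQ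
  have e1 : ∀ l, l ≠ i → eval (fun l => θ (dehom i (X l)))
      (pderiv l (form fun μ => θR (a μ))) = 0 := by
    intro l hl
    rw [hform, pderiv_map, eval_map_dehom, ← pderiv_dehom i ⟨l, hl⟩]
    exact (hθ _).mpr (hdQ _)
  have e2 : (Matrix.of fun j l : {l : Fin (n + 1) // l ≠ i} =>
        eval (fun l => θ (dehom i (X l))) (pderiv j.1 (pderiv l.1
          (form fun μ => θR (a μ))))).det = 0 := by
    have h1 : (Matrix.of fun j l : {l : Fin (n + 1) // l ≠ i} =>
        eval (fun l => θ (dehom i (X l))) (pderiv j.1 (pderiv l.1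
          (form fun μ => θR (a μ))))) =
        θ.mapMatrix (Matrix.of fun j l : {l : Fin (n + 1) // l ≠ i} =>
          pderiv j (pderiv l (dehom i (map (algebraMap R O) (form a))))) := by
      ext j l
      rw [Matrix.of_apply, RingHom.mapMatrix_apply, Matrix.map_apply, Matrix.of_apply, hform,
        pderiv_map, pderiv_map, eval_map_dehom, pderiv_dehom, pderiv_dehom]
    rw [h1, ← RingHom.map_det]
    exact (hθ _).mpr hdet
  have hae : ∀ q : MvPolynomial (Mono n d) ℤ, aeval (fun μ => θR (a μ)) q =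
      θR (aeval a q) := by
    intro q
    rw [aeval_def, aeval_def, eval₂_comp_left]
    congr 1
    exact RingHom.ext_int _ _
  obtain ⟨h1, h2⟩ := hgG k (fun μ => θR (a μ)) (fun l => θ (dehom i (X l)))
    (by rw [dehom_X_self, map_one]) e0 e1 e2
  rw [hae] at h1 h2
  exact ⟨hmem _ h1, hmem _ h2⟩

end Form

end Pool.Agent.Lib.MP_6a3dac_ag.DNF
end

section

/-!
# Double points with tangent cone of corank at most one
-/

set_option autoImplicit false

namespace Pool.Agent.Lib.MP_6a3dac_ag.Maj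

open MvPolynomial IsLocalRing
open Pool.Agent.Lib.MP_6a3dac_ag.DNF

/-- The tangent cone at `𝔮` is a quadratic form of corank at most one. -/
def TcAt {O : Type} [CommRing O] {σ : Type} [Fintype σ] (F : MvPolynomial σ O)
    (𝔮 : Ideal (MvPolynomial σ O)) : Prop :=
  ∃ (g : Option σ → MvPolynomial σ O) (c : Option σ → Option σ → MvPolynomial σ O), Par 𝔮 g ∧
    F - ∑ j, ∑ k, c j k * (g j * g k) ∈ 𝔮 ^ 3 ∧
    ((QNondeg fun j k => Ideal.Quotient.mk 𝔮 (c j k)) ∨
      ∃ v, LineKer (fun j k => Ideal.Quotient.mk 𝔮 (c j k)) v)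

/-- The special fibre of the hypersurface has finitely many singular points, and the tangent cones
at the singular points of the total space have corank at most one. A closed point is considered in
the chart of its first nonzero coordinate. -/
def TcForm {O : Type} [CommRing O] {n : ℕ} (ϖ : O) (f : MvPolynomial (Fin (n + 1)) O) : Prop :=
  ∀ i : Fin (n + 1), FinJac ϖ (dehom i f) ∧
    ∀ 𝔮 : Ideal (MvPolynomial {l : Fin (n + 1) // l ≠ i} O), 𝔮.IsMaximal → C ϖ ∈ 𝔮 →
      (∀ (l : Fin (n + 1)) (hl : l < i), X ⟨l, hl.ne⟩ ∈ 𝔮) → dehom i f ∈ 𝔮 ^ 2 →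
        TcAt (dehom i f) 𝔮

/-- The special fibre of the hypersurface `F = 0` has finitely many singular points. -/
def FinSing {O : Type} [CommRing O] {σ : Type} (ϖ : O) (F : MvPolynomial σ O) : Prop :=
  Finite (MvPolynomial σ O ⧸ Ideal.span (insert (C ϖ) (insert F (Set.range fun l => pderiv l F))))

theorem FinJac.finSing {O : Type} [CommRing O] {σ : Type} {ϖ : O} {F : MvPolynomial σ O}
    (h : FinJac ϖ F) : FinSing ϖ F := by
  have h' : Finite (MvPolynomial σ O ⧸
    Ideal.span (insert (C ϖ) (Set.range fun l => pderiv l F))) := h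
  have h1 : Ideal.span (insert (C ϖ) (Set.range fun l => pderiv l F)) ≤
      Ideal.span (insert (C ϖ) (insert F (Set.range fun l => pderiv l F))) :=
    Ideal.span_mono (Set.insert_subset_insert (Set.subset_insert _ _))
  exact Finite.of_surjective _ (Ideal.Quotient.factor_surjective h1)

/-- As `TcForm`, with the weaker finiteness condition. -/
def TcSing {O : Type} [CommRing O] {n : ℕ} (ϖ : O) (f : MvPolynomial (Fin (n + 1)) O) : Prop :=
  ∀ i : Fin (n + 1), FinSing ϖ (dehom i f) ∧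
    ∀ 𝔮 : Ideal (MvPolynomial {l : Fin (n + 1) // l ≠ i} O), 𝔮.IsMaximal → C ϖ ∈ 𝔮 →
      (∀ (l : Fin (n + 1)) (hl : l < i), X ⟨l, hl.ne⟩ ∈ 𝔮) → dehom i f ∈ 𝔮 ^ 2 →
        TcAt (dehom i f) 𝔮

theorem TcForm.tcSing {O : Type} [CommRing O] {n : ℕ} {ϖ : O}
    {f : MvPolynomial (Fin (n + 1)) O} (h : TcForm ϖ f) : TcSing ϖ f :=
  fun i => ⟨(h i).1.finSing, (h i).2⟩

/-- The data of a local ring `D` of the blow-up of the product of the ideals `I 1, ..., I r` at the
point `𝔮` of the hypersurface `F = 0`; the ideal `I j` becomes principal, generated by `b j`. -/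
structure MBlowHyp {O : Type} [CommRing O] {σ : Type} {D : Type} [CommRing D] [IsLocalRing D]
    (φ : MvPolynomial σ O →+* D) (ϖ : O) (F : MvPolynomial σ O) (𝔮 : Ideal (MvPolynomial σ O))
    (r : ℕ) (I : ℕ → Ideal (MvPolynomial σ O)) (b : ℕ → D) : Prop where
  zero : φ F = 0
  ker : ∀ g, φ g = 0 → ∃ m : O, m ≠ 0 ∧ ∃ q, C m * g = F * q
  char : ∀ m : O, m ≠ 0 → φ (C m) ≠ 0
  eq : 𝔮 = Ideal.comap φ (maximalIdeal D)
  max : 𝔮.IsMaximal
  unif : C ϖ ∈ 𝔮
  ne : ∀ j, 1 ≤ j → j ≤ r → b j ≠ 0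
  mem : ∀ j, 1 ≤ j → j ≤ r → ∃ s z, s ∉ 𝔮 ∧ z ∈ I j ∧ b j * φ s = φ z
  dvd : ∀ j, 1 ≤ j → j ≤ r → ∀ z ∈ I j, b j ∣ φ z
  gen : ∀ R' : Subring D, Dom R' → locIn φ ≤ R' →
    (∀ j, 1 ≤ j → j ≤ r → ∀ z ∈ I j, ∀ w, b j * w = φ z → w ∈ R') → R' = ⊤

/-- The blow-up of the product of the ideals `I 1, ..., I r` is regular over the point `𝔮`. -/
def GoodCentre {O : Type} [CommRing O] {σ : Type} (ϖ : O) (F : MvPolynomial σ O)
    (𝔮 : Ideal (MvPolynomial σ O)) (r : ℕ) (I : ℕ → Ideal (MvPolynomial σ O)) : Prop :=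
  ∀ (D : Type) [CommRing D] [IsDomain D] [IsLocalRing D] (φ : MvPolynomial σ O →+* D)
    (b : ℕ → D), MBlowHyp φ ϖ F 𝔮 r I b → IsRegularLocalRing D

end Pool.Agent.Lib.MP_6a3dac_ag.Maj
end

section

/-!
# The infinitesimal neighbourhoods of a closed point of the affine space
-/

set_option autoImplicit false

namespace Pool.Agent.Lib.MP_6a3dac_ag.Maj

open MvPolynomial
open Pool.Agent.Lib.MP_6a3dac_ag.DNF

/-- Elements of `𝔮 ^ k` as combinations of the products of `k` parameters. -/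
lemma f1_pow {A I : Type} [CommRing A] [Fintype I] {𝔮 : Ideal A} {g : I → A} (hg : ∀ o, g o ∈ 𝔮)
    (hg2 : 𝔮 ≤ Ideal.span (Set.range g) ⊔ 𝔮 ^ 2) (k : ℕ) :
    ∀ r ∈ 𝔮 ^ k, ∃ b : (Fin k → I) → A, r - ∑ t, b t * ∏ i, g (t i) ∈ 𝔮 ^ (k + 1) := by
  classical
  induction k with
  | zero =>
    intro r _
    refine ⟨fun _ => r, ?_⟩
    simp
  | succ k ih =>
    intro r hr
    rw [pow_succ'] at hr
    induction hr using Submodule.mul_induction_on' with
    | mem_mul_mem x hx y hy =>
      obtain ⟨b, hb⟩ := ih y hy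
      obtain ⟨x1, hx1, x2, hx2, hx12⟩ := Submodule.mem_sup.mp (hg2 hx)
      obtain ⟨a, ha⟩ := (Ideal.mem_span_range_iff_exists_fun).mp hx1
      refine ⟨fun t => a (t 0) * b (fun i => t i.succ), ?_⟩
      have h1 : ∑ t : Fin (k + 1) → I, a (t 0) * b (fun i => t i.succ) * ∏ i, g (t i) =
          (∑ o, a o * g o) * ∑ t, b t * ∏ i, g (t i) := by
        rw [← (Fin.consEquiv (fun _ : Fin (k + 1) => I)).sum_comp, Fintype.sum_prod_type,
          Finset.sum_mul]
        refine Finset.sum_congr rfl fun o _ => ?_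
        rw [Finset.mul_sum]
        refine Finset.sum_congr rfl fun t _ => ?_
        rw [Fin.prod_univ_succ]
        simp only [Fin.consEquiv_apply, Fin.cons_zero, Fin.cons_succ]
        ring
      rw [h1, ha]
      have h2 : x * y - x1 * ∑ t, b t * ∏ i, g (t i) =
          x1 * (y - ∑ t, b t * ∏ i, g (t i)) + x2 * y := by
        rw [← hx12]
        ring
      rw [h2]
      have hx1' : x1 ∈ 𝔮 := by
        refine (Ideal.span_le.mpr ?_) hx1
        rintro _ ⟨o, rfl⟩
        exact hg o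
      refine Ideal.add_mem _ ?_ ?_
      · have := Ideal.mul_mem_mul hx1' hb
        rwa [← pow_succ'] at this
      · have := Ideal.mul_mem_mul hx2 hy
        rw [← pow_add] at this
        have e : 2 + k = k + 1 + 1 := by ring
        rwa [e] at this
    | add x _ y _ hx hy =>
      obtain ⟨b, hb⟩ := hx
      obtain ⟨c, hc⟩ := hy
      refine ⟨fun t => b t + c t, ?_⟩
      have h1 : x + y - ∑ t : Fin (k + 1) → I, (b t + c t) * ∏ i, g (t i) =
          (x - ∑ t, b t * ∏ i, g (t i)) + (y - ∑ t, c t * ∏ i, g (t i)) := by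
        have h2 : ∑ t : Fin (k + 1) → I, (b t + c t) * ∏ i, g (t i) =
            ∑ t : Fin (k + 1) → I, b t * ∏ i, g (t i) +
              ∑ t : Fin (k + 1) → I, c t * ∏ i, g (t i) := by
          rw [← Finset.sum_add_distrib]
          exact Finset.sum_congr rfl fun t _ => add_mul _ _ _
        rw [h2]
        ring
      rw [h1]
      exact Ideal.add_mem _ hb hc

lemma f1_num (N : ℕ → ℕ) (Q m : ℕ) (h0 : N 0 = 1) (h : ∀ k, N (k + 1) ≤ N k * Q ^ (m ^ k)) :
    N 4 ≤ Q ^ (1 + m + m ^ 2 + m ^ 3) := by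
  have e1 := h 0
  have e2 := h 1
  have e3 := h 2
  have e4 := h 3
  rw [h0, one_mul, pow_zero, zero_add] at e1
  rw [pow_one] at e2
  calc N 4 ≤ N 3 * Q ^ (m ^ 3) := e4
    _ ≤ N 2 * Q ^ (m ^ 2) * Q ^ (m ^ 3) := Nat.mul_le_mul_right _ e3
    _ ≤ N 1 * Q ^ m * Q ^ (m ^ 2) * Q ^ (m ^ 3) := Nat.mul_le_mul_right _ (Nat.mul_le_mul_right _ e2)
    _ ≤ Q ^ 1 * Q ^ m * Q ^ (m ^ 2) * Q ^ (m ^ 3) :=
        Nat.mul_le_mul_right _ (Nat.mul_le_mul_right _ (Nat.mul_le_mul_right _ e1))
    _ = _ := by rw [← pow_add, ← pow_add, ← pow_add]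

lemma f1_card_succ {A I : Type} [CommRing A] [Fintype I] {𝔮 : Ideal A} {g : I → A}
    (hg : ∀ o, g o ∈ 𝔮) (hg2 : 𝔮 ≤ Ideal.span (Set.range g) ⊔ 𝔮 ^ 2) (k : ℕ)
    (h0 : Finite (A ⧸ 𝔮)) (hk : Finite (A ⧸ 𝔮 ^ k)) :
    Nat.card (A ⧸ 𝔮 ^ (k + 1)) ≤
      Nat.card (A ⧸ 𝔮 ^ k) * Nat.card (A ⧸ 𝔮) ^ (Fintype.card I ^ k) := by
  classical
  have hlift : ∀ (J : Ideal A) (x : A ⧸ J), Ideal.Quotient.mk J (Quotient.out x) = x := by
    intro J x
    exact Quotient.out_eq x
  let Φ : (A ⧸ 𝔮 ^ k) × ((Fin k → I) → A ⧸ 𝔮) → A ⧸ 𝔮 ^ (k + 1) := fun z =>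
    Ideal.Quotient.mk (𝔮 ^ (k + 1)) (Quotient.out z.1 + ∑ t, Quotient.out (z.2 t) * ∏ i, g (t i))
  have hΦ : Function.Surjective Φ := by
    intro x
    obtain ⟨a, rfl⟩ := Ideal.Quotient.mk_surjective x
    have h1 : a - Quotient.out (Ideal.Quotient.mk (𝔮 ^ k) a) ∈ 𝔮 ^ k := by
      rw [← Ideal.Quotient.mk_eq_mk_iff_sub_mem]
      exact (hlift _ _).symm
    obtain ⟨b, hb⟩ := f1_pow hg hg2 k _ h1
    refine ⟨(Ideal.Quotient.mk (𝔮 ^ k) a, fun t => Ideal.Quotient.mk 𝔮 (b t)), ?_⟩
    show Ideal.Quotient.mk (𝔮 ^ (k + 1)) _ = Ideal.Quotient.mk (𝔮 ^ (k + 1)) a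
    symm
    rw [Ideal.Quotient.mk_eq_mk_iff_sub_mem]
    have h2 : a - (Quotient.out (Ideal.Quotient.mk (𝔮 ^ k) a) +
        ∑ t, Quotient.out (Ideal.Quotient.mk 𝔮 (b t)) * ∏ i, g (t i)) =
        (a - Quotient.out (Ideal.Quotient.mk (𝔮 ^ k) a) - ∑ t, b t * ∏ i, g (t i)) +
          ∑ t, (b t - Quotient.out (Ideal.Quotient.mk 𝔮 (b t))) * ∏ i, g (t i) := by
      have h3 : ∑ t, (b t - Quotient.out (Ideal.Quotient.mk 𝔮 (b t))) * ∏ i, g (t i) =
          ∑ t, b t * ∏ i, g (t i) -
            ∑ t, Quotient.out (Ideal.Quotient.mk 𝔮 (b t)) * ∏ i, g (t i) := by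
        rw [← Finset.sum_sub_distrib]
        exact Finset.sum_congr rfl fun t _ => sub_mul _ _ _
      rw [h3]
      ring
    rw [h2]
    refine Ideal.add_mem _ hb (Ideal.sum_mem _ fun t _ => ?_)
    have h4 : b t - Quotient.out (Ideal.Quotient.mk 𝔮 (b t)) ∈ 𝔮 := by
      rw [← Ideal.Quotient.mk_eq_mk_iff_sub_mem]
      exact (hlift _ _).symm
    have h5 : ∏ i, g (t i) ∈ 𝔮 ^ k := by
      have := Ideal.prod_mem_prod (ι := Fin k) (s := Finset.univ) (I := fun _ => 𝔮)
        (x := fun i => g (t i)) (fun i _ => hg (t i))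
      simpa using this
    have := Ideal.mul_mem_mul h4 h5
    rwa [← pow_succ'] at this
  have h1 := Nat.card_le_card_of_surjective Φ hΦ
  refine h1.trans (le_of_eq ?_)
  rw [Nat.card_prod, Nat.card_fun, Nat.card_eq_fintype_card (α := Fin k → I), Fintype.card_fun,
    Fintype.card_fin]

variable {O : Type} [CommRing O] [IsDomain O] [IsDiscreteValuationRing O] {σ : Type} [Fintype σ]
  {ϖ : O} (hϖ : Irreducible ϖ) (hfin : Finite (O ⧸ Ideal.span {ϖ}))
  {𝔮 : Ideal (MvPolynomial σ O)} (hmax : 𝔮.IsMaximal) (h𝔮 : C ϖ ∈ 𝔮)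
include hϖ hfin hmax h𝔮

lemma f1_finite_residue : Finite (MvPolynomial σ O ⧸ 𝔮) := by
  have hmO : (Ideal.span {ϖ} : Ideal O).IsMaximal :=
    PrincipalIdealRing.isMaximal_of_irreducible hϖ
  let _ : Field (O ⧸ Ideal.span {ϖ}) := Ideal.Quotient.field _
  let _ : Field (MvPolynomial σ O ⧸ 𝔮) := Ideal.Quotient.field _
  let f0 : O →+* MvPolynomial σ O ⧸ 𝔮 := (Ideal.Quotient.mk 𝔮).comp C
  let f : (O ⧸ Ideal.span {ϖ}) →+* MvPolynomial σ O ⧸ 𝔮 := Ideal.Quotient.lift _ f0 (by
    intro a ha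
    obtain ⟨c, rfl⟩ := Ideal.mem_span_singleton'.mp ha
    show Ideal.Quotient.mk 𝔮 (C (c * ϖ)) = 0
    rw [Ideal.Quotient.eq_zero_iff_mem, map_mul]
    exact Ideal.mul_mem_left _ _ h𝔮)
  have hf0 : f0.FiniteType := by
    refine RingHom.FiniteType.comp_surjective ?_ Ideal.Quotient.mk_surjective
    have : (algebraMap O (MvPolynomial σ O)).FiniteType := by
      rw [RingHom.finiteType_algebraMap]
      infer_instance
    exact this
  have hf : f.FiniteType := by
    have h : (f.comp (Ideal.Quotient.mk (Ideal.span {ϖ}))).FiniteType := by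
      have e : f.comp (Ideal.Quotient.mk (Ideal.span {ϖ})) = f0 := by
        ext x
        rfl
      rw [e]
      exact hf0
    exact RingHom.FiniteType.of_comp_finiteType h
  algebraize [f]
  have h1 : Module.Finite (O ⧸ Ideal.span {ϖ}) (MvPolynomial σ O ⧸ 𝔮) :=
    finite_of_finite_type_of_isJacobsonRing _ _
  exact Module.finite_of_finite (O ⧸ Ideal.span {ϖ})

theorem finite_quot_pow (k : ℕ) : Finite (MvPolynomial σ O ⧸ 𝔮 ^ k) := by
  have h1 := f1_finite_residue hϖ hfin hmax h𝔮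
  exact Ideal.finite_quotient_pow (IsNoetherian.noetherian 𝔮) k

/-- `𝔮 ^ j / 𝔮 ^ (j + 1)` is spanned by the products of `j` parameters. -/
theorem card_quot_four_le : Nat.card (MvPolynomial σ O ⧸ 𝔮 ^ 4) ≤
    Nat.card (MvPolynomial σ O ⧸ 𝔮) ^ (1 + (Fintype.card σ + 1) + (Fintype.card σ + 1) ^ 2 +
      (Fintype.card σ + 1) ^ 3) := by
  classical
  obtain ⟨y, _, _, hg⟩ := exists_params hϖ hfin hmax h𝔮
  have h0 := f1_finite_residue hϖ hfin hmax h𝔮
  have hp := finite_quot_pow hϖ hfin hmax h𝔮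
  have hs : ∀ k, Nat.card (MvPolynomial σ O ⧸ 𝔮 ^ (k + 1)) ≤ Nat.card (MvPolynomial σ O ⧸ 𝔮 ^ k) *
      Nat.card (MvPolynomial σ O ⧸ 𝔮) ^ ((Fintype.card σ + 1) ^ k) := by
    intro k
    have := f1_card_succ hg.1 hg.2 k h0 (hp k)
    rwa [Fintype.card_option] at this
  have e0 : Nat.card (MvPolynomial σ O ⧸ 𝔮 ^ 0) = 1 := by
    rw [pow_zero, Ideal.one_eq_top]
    have : Subsingleton (MvPolynomial σ O ⧸ (⊤ : Ideal (MvPolynomial σ O))) :=
      Ideal.Quotient.subsingleton_iff.mpr rfl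
    exact Nat.card_unique
  exact f1_num (fun k => Nat.card (MvPolynomial σ O ⧸ 𝔮 ^ k)) _ _ e0 hs

/-- Uses `par_indep_self`. -/
theorem card_quot_two_ge : Nat.card (MvPolynomial σ O ⧸ 𝔮) ^ (Fintype.card σ + 2) ≤
    Nat.card (MvPolynomial σ O ⧸ 𝔮 ^ 2) := by
  classical
  obtain ⟨y, _, _, hg⟩ := exists_params hϖ hfin hmax h𝔮
  set g : Option σ → MvPolynomial σ O := fun o => o.elim (C ϖ) y with hgdef
  have h0 := f1_finite_residue hϖ hfin hmax h𝔮
  have hp := finite_quot_pow hϖ hfin hmax h𝔮 2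
  have hlift : ∀ (x : MvPolynomial σ O ⧸ 𝔮), Ideal.Quotient.mk 𝔮 (Quotient.out x) = x := by
    intro x
    exact Quotient.out_eq x
  let Φ : (MvPolynomial σ O ⧸ 𝔮) × (Option σ → MvPolynomial σ O ⧸ 𝔮) →
      MvPolynomial σ O ⧸ 𝔮 ^ 2 := fun z =>
    Ideal.Quotient.mk (𝔮 ^ 2) (Quotient.out z.1 + ∑ o, Quotient.out (z.2 o) * g o)
  have hΦ : Function.Injective Φ := by
    rintro ⟨a, c⟩ ⟨a', c'⟩ h
    have h1 : (Quotient.out a + ∑ o, Quotient.out (c o) * g o) -
        (Quotient.out a' + ∑ o, Quotient.out (c' o) * g o) ∈ 𝔮 ^ 2 :=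
      Ideal.Quotient.mk_eq_mk_iff_sub_mem _ _ |>.mp h
    have h2 : ∀ c : Option σ → MvPolynomial σ O ⧸ 𝔮, ∑ o, Quotient.out (c o) * g o ∈ 𝔮 :=
      fun c => Ideal.sum_mem _ fun o _ => Ideal.mul_mem_left _ _ (hg.1 o)
    have h3 : Quotient.out a - Quotient.out a' ∈ 𝔮 := by
      have h4 := Ideal.pow_le_self (two_ne_zero) h1
      have h5 : Quotient.out a - Quotient.out a' =
          ((Quotient.out a + ∑ o, Quotient.out (c o) * g o) -
        (Quotient.out a' + ∑ o, Quotient.out (c' o) * g o)) -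
          (∑ o, Quotient.out (c o) * g o - ∑ o, Quotient.out (c' o) * g o) := by ring
      rw [h5]
      exact Ideal.sub_mem _ h4 (Ideal.sub_mem _ (h2 c) (h2 c'))
    have haa : a = a' := by
      rw [← hlift a, ← hlift a']
      exact (Ideal.Quotient.mk_eq_mk_iff_sub_mem _ _).mpr h3
    subst haa
    have h6 : 1 * ∑ o, (Quotient.out (c o) - Quotient.out (c' o)) * g o ∈ 𝔮 ^ 2 := by
      have h7 : 1 * ∑ o, (Quotient.out (c o) - Quotient.out (c' o)) * g o =
          (Quotient.out a + ∑ o, Quotient.out (c o) * g o) -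
            (Quotient.out a + ∑ o, Quotient.out (c' o) * g o) := by
        have h8 : ∑ o, (Quotient.out (c o) - Quotient.out (c' o)) * g o =
            ∑ o, Quotient.out (c o) * g o - ∑ o, Quotient.out (c' o) * g o := by
          rw [← Finset.sum_sub_distrib]
          exact Finset.sum_congr rfl fun t _ => sub_mul _ _ _
        rw [h8]
        ring
      rw [h7]
      exact h1
    have h9 := par_indep_self hϖ hfin hmax h𝔮 hg (s := 1)
      (fun h => hmax.ne_top ((Ideal.eq_top_iff_one _).mpr h)) h6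
    refine Prod.ext rfl (funext fun o => ?_)
    show c o = c' o
    rw [← hlift (c o), ← hlift (c' o)]
    exact (Ideal.Quotient.mk_eq_mk_iff_sub_mem _ _).mpr (h9 o)
  have h1 := Nat.card_le_card_of_injective Φ hΦ
  refine le_trans (le_of_eq ?_) h1
  rw [Nat.card_prod, Nat.card_fun, Nat.card_eq_fintype_card (α := Option σ), Fintype.card_option,
    ← pow_succ']

end Pool.Agent.Lib.MP_6a3dac_ag.Maj
end

section

/-!
# The infinitesimal neighbourhoods of a closed point of the affine space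
-/

set_option autoImplicit false

namespace Pool.Agent.Lib.MP_6a3dac_ag.Maj

open MvPolynomial
open Pool.Agent.Lib.MP_6a3dac_ag.DNF

/-- Height of the maximal ideals with finite residue field of a polynomial ring over a principal
ideal domain. -/
theorem f2_height (O : Type) [CommRing O] [IsDomain O] [IsPrincipalIdealRing O]
    (hO : ¬ IsField O) (ι : Type) [Finite ι] : ∀ P : Ideal (MvPolynomial ι O), P.IsMaximal →
      Finite (MvPolynomial ι O ⧸ P) → P.height = ((Nat.card ι + 1 : ℕ) : ℕ∞) := by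
  induction ι using Finite.induction_empty_option with
  | @of_equiv α β e H =>
    intro P hP hfin
    let f : MvPolynomial β O ≃+* MvPolynomial α O := (renameEquiv O e.symm).toRingEquiv
    have h1 : (P.map f).IsMaximal := Ideal.map_isMaximal_of_equiv f
    have h2 : Finite (MvPolynomial α O ⧸ P.map f) :=
      Finite.of_equiv _ (Ideal.quotientEquiv P (P.map f) f rfl).toEquiv
    rw [← RingEquiv.height_map f P, H _ h1 h2, Nat.card_congr e]
  | h_empty =>
    intro P hP hfin
    let f : MvPolynomial PEmpty O ≃+* O := isEmptyRingEquiv O PEmpty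
    have h1 : (P.map f).IsMaximal := Ideal.map_isMaximal_of_equiv f
    rw [← RingEquiv.height_map f P, IsPrincipalIdealRing.height_eq_one_of_isMaximal _ hO]
    simp
  | @h_option ι _ H =>
    intro P hP hfin
    let f : MvPolynomial (Option ι) O ≃+* Polynomial (MvPolynomial ι O) :=
      (optionEquivLeft O ι).toRingEquiv
    have h1 : (P.map f).IsMaximal := Ideal.map_isMaximal_of_equiv f
    have h2 : Finite (Polynomial (MvPolynomial ι O) ⧸ P.map f) :=
      Finite.of_equiv _ (Ideal.quotientEquiv P (P.map f) f rfl).toEquiv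
    have h3 : ((P.map f).under (MvPolynomial ι O)).IsPrime := inferInstance
    have h6 : (P.map f).LiesOver ((P.map f).under (MvPolynomial ι O)) := ⟨rfl⟩
    have h4 : Finite (MvPolynomial ι O ⧸ (P.map f).under (MvPolynomial ι O)) :=
      Finite.of_injective (algebraMap (MvPolynomial ι O ⧸ (P.map f).under (MvPolynomial ι O))
        (Polynomial (MvPolynomial ι O) ⧸ P.map f))
        Ideal.algebraMap_quotient_injective
    have h5 : ((P.map f).under (MvPolynomial ι O)).IsMaximal :=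
      Ideal.Quotient.maximal_of_isField _ (Finite.isField_of_domain _)
    rw [← RingEquiv.height_map f P,
      Polynomial.height_eq_height_add_one ((P.map f).under (MvPolynomial ι O)) (P.map f),
      H _ h5 h4]
    have : Fintype ι := Fintype.ofFinite ι
    simp

theorem f2_pow_le {A : Type} [CommRing A] {𝔮 I : Ideal A} {z : A} (hz : z ∈ 𝔮)
    (h : 𝔮 ≤ Ideal.span {z} ⊔ I ⊔ 𝔮 ^ 2) (h3 : z ^ 3 ∈ I ⊔ 𝔮 ^ 4) : 𝔮 ^ 3 ≤ I ⊔ 𝔮 ^ 4 := by
  have hJ : Ideal.span {z} ≤ 𝔮 := (Ideal.span_singleton_le_iff_mem 𝔮).2 hz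
  set J : Ideal A := Ideal.span {z} with hJdef
  set K : Ideal A := I ⊔ 𝔮 ^ 2 with hK
  have hq : 𝔮 ≤ J ⊔ K := by rw [hK, ← sup_assoc]; exact h
  have hKq : 𝔮 * 𝔮 * K ≤ I ⊔ 𝔮 ^ 4 := by
    rw [hK, Ideal.mul_sup]
    refine sup_le (le_sup_of_le_left Ideal.mul_le_right) (le_sup_of_le_right ?_)
    rw [← pow_two, ← pow_add]
  have e1 : 𝔮 ^ 3 ≤ 𝔮 * 𝔮 * J ⊔ 𝔮 * 𝔮 * K := by
    rw [pow_succ, pow_two, ← Ideal.mul_sup]
    exact Ideal.mul_mono_right hq
  have e2 : 𝔮 * 𝔮 * J ≤ 𝔮 * J * J ⊔ 𝔮 * 𝔮 * K := by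
    calc 𝔮 * 𝔮 * J ≤ 𝔮 * (J ⊔ K) * J := by gcongr
      _ = 𝔮 * J * J ⊔ 𝔮 * K * J := by rw [Ideal.mul_sup, Ideal.sup_mul]
      _ ≤ 𝔮 * J * J ⊔ 𝔮 * 𝔮 * K := by
        refine sup_le_sup_left ?_ _
        calc 𝔮 * K * J ≤ 𝔮 * K * 𝔮 := by gcongr
          _ = 𝔮 * 𝔮 * K := by ring
  have e3 : 𝔮 * J * J ≤ J * J * J ⊔ 𝔮 * 𝔮 * K := by
    calc 𝔮 * J * J ≤ (J ⊔ K) * J * J := by gcongr
      _ = J * J * J ⊔ K * J * J := by rw [Ideal.sup_mul, Ideal.sup_mul]
      _ ≤ J * J * J ⊔ 𝔮 * 𝔮 * K := by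
        refine sup_le_sup_left ?_ _
        calc K * J * J ≤ K * 𝔮 * 𝔮 := by gcongr
          _ = 𝔮 * 𝔮 * K := by ring
  have e4 : J * J * J ≤ I ⊔ 𝔮 ^ 4 := by
    rw [hJdef, Ideal.span_singleton_mul_span_singleton, Ideal.span_singleton_mul_span_singleton,
      Ideal.span_singleton_le_iff_mem]
    rw [show z * z * z = z ^ 3 by ring]
    exact h3
  exact e1.trans (sup_le (e2.trans (sup_le (e3.trans (sup_le e4 hKq)) hKq)) hKq)

variable {O : Type} [CommRing O] [IsDomain O] [IsDiscreteValuationRing O] {σ : Type} [Fintype σ]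
  {ϖ : O} (hϖ : Irreducible ϖ) (hfin : Finite (O ⧸ Ideal.span {ϖ}))
  {𝔮 : Ideal (MvPolynomial σ O)} (hmax : 𝔮.IsMaximal) (h𝔮 : C ϖ ∈ 𝔮)
include hϖ hfin hmax h𝔮

theorem f2_finite : Finite (MvPolynomial σ O ⧸ 𝔮) := by
  have : (Ideal.span {ϖ} : Ideal O).IsMaximal :=
    PrincipalIdealRing.isMaximal_of_irreducible hϖ
  let _ : Field (O ⧸ Ideal.span {ϖ}) := Ideal.Quotient.field _
  let _ : Field (MvPolynomial σ O ⧸ 𝔮) := Ideal.Quotient.field _
  let f : (O ⧸ Ideal.span {ϖ}) →+* (MvPolynomial σ O ⧸ 𝔮) :=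
    Ideal.Quotient.lift _ ((Ideal.Quotient.mk 𝔮).comp C) (by
      intro a ha
      obtain ⟨b, rfl⟩ := Ideal.mem_span_singleton'.1 ha
      rw [RingHom.comp_apply, map_mul, Ideal.Quotient.eq_zero_iff_mem]
      exact Ideal.mul_mem_left _ _ h𝔮)
  have hf : (f.comp (Ideal.Quotient.mk (Ideal.span {ϖ}))) = (Ideal.Quotient.mk 𝔮).comp C := by
    ext a; rfl
  have h1 : ((Ideal.Quotient.mk 𝔮).comp C).FiniteType := by
    refine RingHom.FiniteType.comp
      (RingHom.FiniteType.of_surjective _ Ideal.Quotient.mk_surjective) ?_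
    show (algebraMap O (MvPolynomial σ O)).FiniteType
    rw [RingHom.finiteType_algebraMap]
    infer_instance
  rw [← hf] at h1
  have h2 : f.FiniteType := RingHom.FiniteType.of_comp_finiteType h1
  have h3 : f.Finite := RingHom.finite_iff_finiteType_of_isJacobsonRing.2 h2
  algebraize [f]
  exact Module.finite_of_finite (O ⧸ Ideal.span {ϖ})

/-- `Polynomial.height_eq_height_add_one` of Mathlib and `MvPolynomial.optionEquivLeft`,
by induction on `σ`. -/
theorem height_closedPoint : 𝔮.height = (Fintype.card σ + 1 : ℕ) := by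
  rw [f2_height O (IsDiscreteValuationRing.not_isField O) σ 𝔮 hmax
    (f2_finite hϖ hfin hmax h𝔮), Nat.card_eq_fintype_card]

/-- Otherwise the local ring at `𝔮` modulo the `g (some j)` would be Artinian, against
`height_closedPoint` and `Ideal.height_le_ringKrullDim_quotient_add_encard`. -/
theorem cubic_ne {g : Option σ → MvPolynomial σ O} (hg : Par 𝔮 g) :
    g none ^ 3 ∉ 𝔮 ^ 2 * Ideal.span (Set.range fun j => g (some j)) ⊔ 𝔮 ^ 4 := by
  classical
  intro hc
  set I : Ideal (MvPolynomial σ O) := Ideal.span (Set.range fun j => g (some j)) with hI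
  have hI𝔮 : I ≤ 𝔮 := by
    rw [hI, Ideal.span_le]
    rintro _ ⟨j, rfl⟩
    exact hg.1 (some j)
  have hspan : Ideal.span (Set.range g) = Ideal.span {g none} ⊔ I := by
    rw [hI, ← Ideal.span_union]
    congr 1
    ext x
    simp only [Set.mem_range, Set.mem_union, Set.mem_singleton_iff]
    constructor
    · rintro ⟨o, rfl⟩
      cases o with
      | none => exact Or.inl rfl
      | some j => exact Or.inr ⟨j, rfl⟩
    · rintro (rfl | ⟨j, rfl⟩)
      · exact ⟨none, rfl⟩
      · exact ⟨some j, rfl⟩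
  have h3 : g none ^ 3 ∈ I ⊔ 𝔮 ^ 4 := (sup_le_sup_right Ideal.mul_le_right (𝔮 ^ 4) :
    𝔮 ^ 2 * I ⊔ 𝔮 ^ 4 ≤ I ⊔ 𝔮 ^ 4) hc
  have hpow : 𝔮 ^ 3 ≤ I ⊔ 𝔮 ^ 4 :=
    f2_pow_le (hg.1 none) (by rw [← hspan]; exact hg.2) h3
  have hprime : 𝔮.IsPrime := hmax.isPrime
  obtain ⟨r, hr1, hr2⟩ := Submodule.exists_sub_one_mem_and_smul_eq_zero_of_fg_of_le_smul 𝔮
    (Submodule.map (Submodule.mkQ I) (𝔮 ^ 3))
    (Submodule.FG.map _ (IsNoetherian.noetherian _)) (by
      rw [← Submodule.map_smul'']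
      rintro _ ⟨x, hx, rfl⟩
      obtain ⟨a, ha, b, hb, hab⟩ := Submodule.mem_sup.1 (hpow hx)
      refine ⟨b, ?_, ?_⟩
      · rw [SetLike.mem_coe, smul_eq_mul, ← pow_succ']
        exact hb
      · rw [← hab, map_add]
        have : Submodule.mkQ I a = 0 := by
          rw [Submodule.mkQ_apply, Submodule.Quotient.mk_eq_zero]
          exact ha
        rw [this, zero_add])
  have hr𝔮 : r ∉ 𝔮 := by
    intro hr
    refine hmax.ne_top (Ideal.eq_top_iff_one 𝔮 |>.2 ?_)
    have := 𝔮.sub_mem hr hr1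
    simpa using this
  have hmin : 𝔮 ∈ (Ideal.span
      ((Finset.univ.image fun j => g (some j) : Finset (MvPolynomial σ O)) :
        Set (MvPolynomial σ O))).minimalPrimes := by
    rw [Finset.coe_image, Finset.coe_univ, Set.image_univ]
    refine ⟨⟨hprime, hI𝔮⟩, ?_⟩
    rintro p ⟨hp, hIp⟩ hle x hx
    have h1 : r * x ^ 3 ∈ I := by
      have := hr2 _ (Submodule.mem_map_of_mem (f := Submodule.mkQ I) (Ideal.pow_mem_pow hx 3))
      rw [← map_smul, Submodule.mkQ_apply, Submodule.Quotient.mk_eq_zero] at this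
      exact this
    rcases hp.mem_or_mem (hIp h1) with h2 | h2
    · exact absurd (hle h2) hr𝔮
    · exact hp.mem_of_pow_mem 3 h2
  have hle := Ideal.height_le_card_of_mem_minimalPrimes_span_finset hmin
  rw [height_closedPoint hϖ hfin hmax h𝔮] at hle
  have hcard : (Finset.univ.image fun j => g (some j)).card ≤ Fintype.card σ :=
    Finset.card_image_le.trans (by simp)
  have : Fintype.card σ + 1 ≤ Fintype.card σ := by
    have h5 := hle.trans (Nat.cast_le.2 hcard)
    exact_mod_cast h5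
  omega

end Pool.Agent.Lib.MP_6a3dac_ag.Maj
end

section

end

section

/-!
# The proportion of the bad double points at a closed point
-/

set_option autoImplicit false

namespace Pool.Agent.Lib.MP_6a3dac_ag.Maj

open MvPolynomial
open Pool.Agent.Lib.MP_6a3dac_ag.DNF

/-- The types of the double points only depend on the equation modulo the fourth power. -/
theorem OdpAt.congr {O : Type} [CommRing O] {σ : Type} [Fintype σ] {F F' : MvPolynomial σ O}
    {𝔮 : Ideal (MvPolynomial σ O)} (h : OdpAt F 𝔮) (hF : F' - F ∈ 𝔮 ^ 4) : OdpAt F' 𝔮 := by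
  rcases h with ⟨g, c, hg, h1, h2⟩ | ⟨g, c, u, hg, h1, h2, h3⟩
  · refine Or.inl ⟨g, c, hg, ?_, h2⟩
    have h4 : F' - ∑ j, ∑ k, c j k * (g j * g k) =
        (F' - F) + (F - ∑ j, ∑ k, c j k * (g j * g k)) := by ring
    rw [h4]
    exact Ideal.add_mem _ (Ideal.pow_le_pow_right (by norm_num) hF) h1
  · refine Or.inr ⟨g, c, u, hg, ?_, h2, h3⟩
    have h4 : F' - (∑ j, ∑ k, c j k * (g (some j) * g (some k)) + u * g none ^ 3) =
        (F' - F) + (F - (∑ j, ∑ k, c j k * (g (some j) * g (some k)) + u * g none ^ 3)) := by ring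
    rw [h4]
    exact Ideal.add_mem _ (Ideal.mem_sup_right hF) h1

private theorem f3_cube {A : Type} [CommRing A] {σ : Type} {q : Ideal A} {g : Option σ → A}
    (hmem : ∀ o, g o ∈ q) (hq : q ≤ Ideal.span (Set.range g) ⊔ q ^ 2) :
    q ^ 3 ≤ (q ^ 2 * Ideal.span (Set.range fun j => g (some j)) ⊔ q ^ 4) ⊔
      Ideal.span {g none ^ 3} := by
  set S : Ideal A := Ideal.span (Set.range fun j => g (some j)) with hS
  set n : Ideal A := Ideal.span {g none} with hn
  have hSq : S ≤ q := by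
    rw [hS, Ideal.span_le]
    rintro _ ⟨j, rfl⟩
    exact hmem _
  have hnq : n ≤ q := by
    rw [hn, Ideal.span_le]
    rintro _ rfl
    exact hmem _
  have h1 : q ≤ S ⊔ n ⊔ q ^ 2 := by
    refine hq.trans (sup_le_sup_right ?_ _)
    rw [Ideal.span_le]
    rintro _ ⟨o, rfl⟩
    cases o with
    | none => exact Ideal.mem_sup_right (Ideal.subset_span rfl)
    | some j => exact Ideal.mem_sup_left (Ideal.subset_span ⟨j, rfl⟩)
  set N : Ideal A := q ^ 2 * S ⊔ q ^ 4 with hN
  have hN1 : q ^ 2 * S ≤ N := le_sup_left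
  have hN2 : q ^ 4 ≤ N := le_sup_right
  have hn3 : n * (n * n) = Ideal.span {g none ^ 3} := by
    rw [hn, Ideal.span_singleton_mul_span_singleton, Ideal.span_singleton_mul_span_singleton]
    congr 2
    ring
  -- `q n n`
  have h2 : q * (n * n) ≤ N ⊔ Ideal.span {g none ^ 3} := by
    calc q * (n * n) ≤ (S ⊔ n ⊔ q ^ 2) * (n * n) := Ideal.mul_mono_left h1
      _ = S * (n * n) ⊔ n * (n * n) ⊔ q ^ 2 * (n * n) := by rw [Ideal.sup_mul, Ideal.sup_mul]
      _ ≤ N ⊔ Ideal.span {g none ^ 3} := by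
        refine sup_le (sup_le ?_ ?_) ?_
        · refine le_sup_of_le_left (le_trans ?_ hN1)
          rw [mul_comm, pow_two]
          exact Ideal.mul_mono_left (Ideal.mul_mono hnq hnq)
        · rw [hn3]
          exact le_sup_right
        · refine le_sup_of_le_left (le_trans ?_ hN2)
          have h5 : q ^ 4 = q ^ 2 * (q * q) := by ring
          rw [h5]
          exact Ideal.mul_mono_right (Ideal.mul_mono hnq hnq)
  have h3 : q ^ 2 * n ≤ N ⊔ Ideal.span {g none ^ 3} := by
    calc q ^ 2 * n = q * (q * n) := by ring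
      _ ≤ (S ⊔ n ⊔ q ^ 2) * (q * n) := Ideal.mul_mono_left h1
      _ = S * (q * n) ⊔ n * (q * n) ⊔ q ^ 2 * (q * n) := by rw [Ideal.sup_mul, Ideal.sup_mul]
      _ ≤ N ⊔ Ideal.span {g none ^ 3} := by
        refine sup_le (sup_le ?_ ?_) ?_
        · refine le_sup_of_le_left (le_trans ?_ hN1)
          rw [mul_comm, pow_two]
          exact Ideal.mul_mono_left (Ideal.mul_mono_right hnq)
        · have h5 : n * (q * n) = q * (n * n) := by ring
          rw [h5]
          exact h2
        · refine le_sup_of_le_left (le_trans ?_ hN2)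
          have h5 : q ^ 4 = q ^ 2 * (q * q) := by ring
          rw [h5]
          exact Ideal.mul_mono_right (Ideal.mul_mono_right hnq)
  calc q ^ 3 = q ^ 2 * q := by ring
    _ ≤ q ^ 2 * (S ⊔ n ⊔ q ^ 2) := Ideal.mul_mono_right h1
    _ = q ^ 2 * S ⊔ q ^ 2 * n ⊔ q ^ 2 * q ^ 2 := by rw [Ideal.mul_sup, Ideal.mul_sup]
    _ ≤ N ⊔ Ideal.span {g none ^ 3} := by
      refine sup_le (sup_le (le_sup_of_le_left hN1) h3) (le_sup_of_le_left (le_trans ?_ hN2))
      rw [← pow_add]

private theorem f3_expand {A : Type} [CommRing A] {σ : Type} [Fintype σ]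
    (c : Option σ → Option σ → A) (g : Option σ → A) :
    ∑ j, ∑ k, c j k * (g j * g k) = c none none * (g none * g none) +
      ∑ j, (c none (some j) + c (some j) none) * (g none * g (some j)) +
      ∑ j, ∑ k, c (some j) (some k) * (g (some j) * g (some k)) := by
  rw [Fintype.sum_option]
  simp only [Fintype.sum_option]
  rw [Finset.sum_add_distrib]
  have h1 : ∑ j, (c none (some j) + c (some j) none) * (g none * g (some j)) =
      ∑ j, c none (some j) * (g none * g (some j)) +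
        ∑ j, c (some j) none * (g (some j) * g none) := by
    rw [← Finset.sum_add_distrib]
    refine Finset.sum_congr rfl fun j _ => ?_
    ring
  rw [h1]
  ring

private theorem f3_qd_none {A : Type} [CommRing A] {σ : Type} [Fintype σ]
    (c : Option σ → Option σ → A) (v : Option σ → A) (k : Option σ) :
    qd c v k = (c none k + c k none) * v none + ∑ j, (c (some j) k + c k (some j)) * v (some j) := by
  unfold qd
  rw [Fintype.sum_option]

private theorem f3_subst {A : Type} [CommRing A] {σ : Type} [Fintype σ]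
    (c : Option σ → Option σ → A) (g V : Option σ → A) (hV : V none = 1) (h : σ → A)
    (hg : ∀ j, g (some j) = h j + V (some j) * g none) :
    ∑ j, ∑ k, c j k * (g j * g k) = ∑ j, ∑ k, c (some j) (some k) * (h j * h k) +
      ∑ j, qd c V (some j) * (g none * h j) + qf c V * (g none * g none) := by
  rw [f3_expand]
  have h0 : qf c V = c none none * (1 * 1) +
      ∑ j, (c none (some j) + c (some j) none) * (1 * V (some j)) +
      ∑ j, ∑ k, c (some j) (some k) * (V (some j) * V (some k)) := by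
    unfold qf
    rw [f3_expand, hV]
  have e1 : ∑ j, ∑ k, c (some j) (some k) * (g (some j) * g (some k)) =
      ∑ j, ∑ k, c (some j) (some k) * (h j * h k) +
      ∑ j, (∑ k, (c (some k) (some j) + c (some j) (some k)) * V (some k)) * (g none * h j) +
      (∑ j, ∑ k, c (some j) (some k) * (V (some j) * V (some k))) * (g none * g none) := by
    have e2 : ∑ j, (∑ k, (c (some k) (some j) + c (some j) (some k)) * V (some k)) *
        (g none * h j) = ∑ j, ∑ k, c (some j) (some k) * V (some j) * (g none * h k) +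
          ∑ j, ∑ k, c (some j) (some k) * V (some k) * (g none * h j) := by
      have e3 : ∑ j, ∑ k, c (some j) (some k) * V (some j) * (g none * h k) =
          ∑ j, ∑ k, c (some k) (some j) * V (some k) * (g none * h j) := Finset.sum_comm
      rw [e3, ← Finset.sum_add_distrib]
      refine Finset.sum_congr rfl fun j _ => ?_
      rw [Finset.sum_mul, ← Finset.sum_add_distrib]
      refine Finset.sum_congr rfl fun k _ => ?_
      ring
    rw [e2, Finset.sum_mul, ← Finset.sum_add_distrib, ← Finset.sum_add_distrib,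
      ← Finset.sum_add_distrib]
    refine Finset.sum_congr rfl fun j _ => ?_
    rw [Finset.sum_mul, ← Finset.sum_add_distrib, ← Finset.sum_add_distrib,
      ← Finset.sum_add_distrib]
    refine Finset.sum_congr rfl fun k _ => ?_
    rw [hg j, hg k]
    ring
  have e4 : ∑ j, qd c V (some j) * (g none * h j) =
      ∑ j, (c none (some j) + c (some j) none) * (g none * h j) +
      ∑ j, (∑ k, (c (some k) (some j) + c (some j) (some k)) * V (some k)) * (g none * h j) := by
    rw [← Finset.sum_add_distrib]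
    refine Finset.sum_congr rfl fun j _ => ?_
    rw [f3_qd_none, hV]
    ring
  have e5 : ∑ j, (c none (some j) + c (some j) none) * (g none * g (some j)) =
      ∑ j, (c none (some j) + c (some j) none) * (g none * h j) +
      (∑ j, (c none (some j) + c (some j) none) * (1 * V (some j))) * (g none * g none) := by
    rw [Finset.sum_mul, ← Finset.sum_add_distrib]
    refine Finset.sum_congr rfl fun j _ => ?_
    rw [hg j]
    ring
  rw [e1, e4, e5, h0]
  ring

private theorem f3_map_qf {A B : Type} [CommRing A] [CommRing B] {ι : Type} [Fintype ι]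
    (θ : A →+* B) (c : ι → ι → A) (v : ι → A) :
    θ (qf c v) = qf (fun j k => θ (c j k)) fun j => θ (v j) := by
  unfold qf
  rw [map_sum]
  refine Finset.sum_congr rfl fun j _ => ?_
  rw [map_sum]
  refine Finset.sum_congr rfl fun k _ => ?_
  rw [map_mul, map_mul]

private theorem f3_map_qd {A B : Type} [CommRing A] [CommRing B] {ι : Type} [Fintype ι]
    (θ : A →+* B) (c : ι → ι → A) (v : ι → A) (k : ι) :
    θ (qd c v k) = qd (fun j k => θ (c j k)) (fun j => θ (v j)) k := by
  unfold qd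
  rw [map_sum]
  refine Finset.sum_congr rfl fun j _ => ?_
  rw [map_mul, map_add]

private theorem f3_qnondeg {κ : Type} [CommRing κ] {σ : Type} [Fintype σ]
    {c : Option σ → Option σ → κ} {v : Option σ → κ} (h : LineKer c v) (hv : v none = 1) :
    QNondeg fun j k => c (some j) (some k) := by
  intro w hw hq
  by_contra hcon
  push Not at hcon
  obtain ⟨-, hd⟩ := (h.2 v).2 ⟨1, by funext i; rw [one_mul]⟩
  set w' : Option σ → κ := fun o => o.elim 0 w with hw'
  have e0 : w' none = 0 := rfl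
  have e1 : ∀ j, w' (some j) = w j := fun _ => rfl
  have h1 : qf c w' = 0 := by
    have : qf c w' = qf (fun j k => c (some j) (some k)) w := by
      unfold qf
      rw [f3_expand, e0]
      simp only [e1]
      simp
    rw [this, hq]
  have hqd : ∀ k, qd c w' k = ∑ j, (c (some j) k + c k (some j)) * w j := by
    intro k
    rw [f3_qd_none, e0, mul_zero, zero_add]
    simp only [e1]
  have h2 : ∀ k, qd c w' k = 0 := by
    intro k
    cases k with
    | some k =>
      rw [hqd]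
      exact hcon k
    | none =>
      rw [hqd]
      have h3 : ∀ j, c (some j) none + c none (some j) =
          - ∑ k, (c (some k) (some j) + c (some j) (some k)) * v (some k) := by
        intro j
        have h4 := hd (some j)
        rw [f3_qd_none, hv] at h4
        linear_combination h4
      calc ∑ j, (c (some j) none + c none (some j)) * w j
          = ∑ j, ∑ k, -((c (some k) (some j) + c (some j) (some k)) * v (some k) * w j) := by
            refine Finset.sum_congr rfl fun j _ => ?_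
            rw [h3 j, neg_mul, Finset.sum_mul, Finset.sum_neg_distrib]
        _ = ∑ k, ∑ j, -((c (some k) (some j) + c (some j) (some k)) * v (some k) * w j) :=
            Finset.sum_comm
        _ = ∑ k, -(v (some k) * qd (fun j k => c (some j) (some k)) w k) := by
            refine Finset.sum_congr rfl fun k _ => ?_
            unfold qd
            rw [Finset.mul_sum, ← Finset.sum_neg_distrib]
            refine Finset.sum_congr rfl fun j _ => ?_
            ring
        _ = 0 := by simp [hcon]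
  obtain ⟨t, ht⟩ := (h.2 w').1 ⟨h1, h2⟩
  have h3 := congrFun ht none
  rw [e0] at h3
  simp only [hv, mul_one] at h3
  apply hw
  funext j
  have h4 := congrFun ht (some j)
  rw [e1, ← h3, zero_mul] at h4
  exact h4

/-- The case that the coordinate of the kernel at `none` is one. -/
private theorem f3_none {O : Type} [CommRing O] {σ : Type} [Fintype σ]
    {𝔮 : Ideal (MvPolynomial σ O)}
    {g : Option σ → MvPolynomial σ O} (hg : Par 𝔮 g)
    (c : Option σ → Option σ → MvPolynomial σ O) {v : Option σ → MvPolynomial σ O ⧸ 𝔮}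
    (hc : LineKer (fun j k => (Ideal.Quotient.mk 𝔮 (c j k) : MvPolynomial σ O ⧸ 𝔮)) v)
    (hv : v none = 1) :
    ∃ (g' : Option σ → MvPolynomial σ O) (F₀ : MvPolynomial σ O), Par 𝔮 g' ∧
      F₀ - ∑ j, ∑ k, c j k * (g j * g k) ∈ 𝔮 ^ 3 ∧
      ∀ F, F - F₀ ∈ 𝔮 ^ 3 →
        F - F₀ ∉ 𝔮 ^ 2 * Ideal.span (Set.range fun j => g' (some j)) ⊔ 𝔮 ^ 4 → OdpAt F 𝔮 := by
  -- lift of `v`
  have hlift : ∀ o, ∃ x : MvPolynomial σ O, Ideal.Quotient.mk 𝔮 x = v o := fun o =>
    Ideal.Quotient.mk_surjective (v o)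
  choose V0 hV0 using hlift
  set V : Option σ → MvPolynomial σ O := fun o => o.elim 1 fun j => V0 (some j) with hVdef
  have hVn : V none = 1 := rfl
  have hVm : ∀ o, Ideal.Quotient.mk 𝔮 (V o) = v o := by
    intro o
    cases o with
    | none => rw [hVn, hv, map_one]
    | some j => exact hV0 (some j)
  set g' : Option σ → MvPolynomial σ O :=
    fun o => o.elim (g none) fun j => g (some j) - V (some j) * g none with hg'
  have hgn : g' none = g none := rfl
  have hgs : ∀ j, g' (some j) = g (some j) - V (some j) * g none := fun _ => rfl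
  have hmem : ∀ o, g' o ∈ 𝔮 := by
    intro o
    cases o with
    | none => exact hg.1 none
    | some j => exact Ideal.sub_mem _ (hg.1 _) (Ideal.mul_mem_left _ _ (hg.1 none))
  have hpar : Par 𝔮 g' := by
    refine ⟨hmem, hg.2.trans (sup_le_sup_right ?_ _)⟩
    rw [Ideal.span_le]
    rintro _ ⟨o, rfl⟩
    cases o with
    | none => exact Ideal.subset_span ⟨none, rfl⟩
    | some j =>
      have h1 : g (some j) = g' (some j) + V (some j) * g' none := by
        rw [hgs, hgn]
        ring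
      rw [h1]
      exact Ideal.add_mem _ (Ideal.subset_span ⟨some j, rfl⟩)
        (Ideal.mul_mem_left _ _ (Ideal.subset_span ⟨none, rfl⟩))
  obtain ⟨hqf, hqd⟩ := (hc.2 v).2 ⟨1, by funext i; rw [one_mul]⟩
  have hvV : v = fun o => Ideal.Quotient.mk 𝔮 (V o) := by
    funext o
    exact (hVm o).symm
  have hqf' : qf c V ∈ 𝔮 := by
    rw [← Ideal.Quotient.eq_zero_iff_mem, f3_map_qf, ← hvV]
    exact hqf
  have hqd' : ∀ k, qd c V k ∈ 𝔮 := by
    intro k
    rw [← Ideal.Quotient.eq_zero_iff_mem, f3_map_qd, ← hvV]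
    exact hqd k
  have hsub := f3_subst c g V hVn (fun j => g' (some j)) (fun j => by rw [hgs]; ring)
  refine ⟨g', ∑ j, ∑ k, c (some j) (some k) * (g' (some j) * g' (some k)), hpar, ?_, ?_⟩
  · rw [hsub]
    have h1 : ∑ j, ∑ k, c (some j) (some k) * (g' (some j) * g' (some k)) -
        (∑ j, ∑ k, c (some j) (some k) * (g' (some j) * g' (some k)) +
          ∑ j, qd c V (some j) * (g none * g' (some j)) + qf c V * (g none * g none)) =
        -(∑ j, qd c V (some j) * (g none * g' (some j)) + qf c V * (g none * g none)) := by ring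
    rw [h1]
    have h3 : (𝔮 : Ideal (MvPolynomial σ O)) ^ 3 = 𝔮 * (𝔮 * 𝔮) := by ring
    rw [h3]
    apply neg_mem
    apply Ideal.add_mem
    · apply Ideal.sum_mem
      intro j _
      exact Ideal.mul_mem_mul (hqd' _) (Ideal.mul_mem_mul (hg.1 none) (hmem _))
    · exact Ideal.mul_mem_mul hqf' (Ideal.mul_mem_mul (hg.1 none) (hg.1 none))
  · intro F hF hnot
    have h1 := f3_cube hpar.1 hpar.2 hF
    obtain ⟨ν, hν, y, hy, hνy⟩ := Submodule.mem_sup.1 h1
    obtain ⟨u, hu⟩ := Ideal.mem_span_singleton'.1 hy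
    refine Or.inr ⟨g', fun j k => c (some j) (some k), u, hpar, ?_, f3_qnondeg hc hv, ?_⟩
    · have h2 : F - (∑ j, ∑ k, c (some j) (some k) * (g' (some j) * g' (some k)) +
          u * g' none ^ 3) = ν := by
        rw [hu]
        linear_combination -hνy
      rw [h2]
      exact hν
    · intro huq
      apply hnot
      rw [← hνy]
      refine Ideal.add_mem _ hν (Ideal.mem_sup_right ?_)
      rw [← hu]
      have h4 : (𝔮 : Ideal (MvPolynomial σ O)) ^ 4 = 𝔮 * 𝔮 ^ 3 := by ring
      rw [h4]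
      exact Ideal.mul_mem_mul huq (Ideal.pow_mem_pow (hmem none) 3)

/-- If the kernel of the tangent cone is a line, then it is the last axis for suitable
parameters `g'`; outside of the subgroup `𝔮 ^ 2 * (g' (some j)) + 𝔮 ^ 4` the cubic term does not
vanish on it. -/
theorem odpAt_of_lineKer {O : Type} [CommRing O] {σ : Type} [Fintype σ]
    {𝔮 : Ideal (MvPolynomial σ O)} (hmax : 𝔮.IsMaximal)
    {g : Option σ → MvPolynomial σ O} (hg : Par 𝔮 g)
    (c : Option σ → Option σ → MvPolynomial σ O)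
    (hc : ∃ v, LineKer (fun j k => (Ideal.Quotient.mk 𝔮 (c j k) : MvPolynomial σ O ⧸ 𝔮)) v) :
    ∃ (g' : Option σ → MvPolynomial σ O) (F₀ : MvPolynomial σ O), Par 𝔮 g' ∧
      F₀ - ∑ j, ∑ k, c j k * (g j * g k) ∈ 𝔮 ^ 3 ∧
      ∀ F, F - F₀ ∈ 𝔮 ^ 3 →
        F - F₀ ∉ 𝔮 ^ 2 * Ideal.span (Set.range fun j => g' (some j)) ⊔ 𝔮 ^ 4 → OdpAt F 𝔮 := by
  classical
  obtain ⟨v, hv⟩ := hc
  obtain ⟨o, ho⟩ : ∃ o, v o ≠ 0 := by
    by_contra hcon
    push Not at hcon
    exact hv.1 (funext hcon)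
  obtain ⟨b, hb⟩ := Ideal.Quotient.exists_inv ho
  set e : Option σ ≃ Option σ := Equiv.swap none o with he
  have hen : e none = o := Equiv.swap_apply_left _ _
  -- the permuted data
  have hsum : ∀ (c : Option σ → Option σ → MvPolynomial σ O) (g : Option σ → MvPolynomial σ O),
      ∑ j, ∑ k, c (e j) (e k) * (g (e j) * g (e k)) = ∑ j, ∑ k, c j k * (g j * g k) := by
    intro c g
    rw [← Equiv.sum_comp e fun j => ∑ k, c j k * (g j * g k)]
    refine Finset.sum_congr rfl fun j _ => ?_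
    rw [← Equiv.sum_comp e fun k => c (e j) k * (g (e j) * g k)]
  have hqfe : ∀ (c : Option σ → Option σ → MvPolynomial σ O ⧸ 𝔮)
      (w : Option σ → MvPolynomial σ O ⧸ 𝔮),
      qf (fun j k => c (e j) (e k)) (fun j => w (e j)) = qf c w := by
    intro c w
    unfold qf
    rw [← Equiv.sum_comp e fun j => ∑ k, c j k * (w j * w k)]
    refine Finset.sum_congr rfl fun j _ => ?_
    rw [← Equiv.sum_comp e fun k => c (e j) k * (w (e j) * w k)]
  have hqde : ∀ (c : Option σ → Option σ → MvPolynomial σ O ⧸ 𝔮)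
      (w : Option σ → MvPolynomial σ O ⧸ 𝔮) (k : Option σ),
      qd (fun j k => c (e j) (e k)) (fun j => w (e j)) k = qd c w (e k) := by
    intro c w k
    unfold qd
    rw [← Equiv.sum_comp e fun j => (c j (e k) + c (e k) j) * w j]
  have hpar : Par 𝔮 fun j => g (e j) := by
    refine ⟨fun j => hg.1 _, ?_⟩
    have h1 : Set.range (fun j => g (e j)) = Set.range g := e.surjective.range_comp g
    rw [h1]
    exact hg.2
  have hline : LineKer (fun j k => (Ideal.Quotient.mk 𝔮 (c (e j) (e k)) : MvPolynomial σ O ⧸ 𝔮))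
      fun j => b * v (e j) := by
    constructor
    · intro h0
      have h1 := congrFun h0 none
      simp only [hen, Pi.zero_apply] at h1
      rw [mul_comm, hb] at h1
      have h2 : v o = 0 := by
        have h3 := congrArg (fun x => v o * x) h1
        simpa using h3
      exact ho h2
    · intro w
      have h1 : (qf (fun j k => (Ideal.Quotient.mk 𝔮 (c (e j) (e k)) : MvPolynomial σ O ⧸ 𝔮)) w = 0 ∧
          ∀ k, qd (fun j k => (Ideal.Quotient.mk 𝔮 (c (e j) (e k)) : MvPolynomial σ O ⧸ 𝔮)) w k = 0) ↔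
          (qf (fun j k => (Ideal.Quotient.mk 𝔮 (c j k) : MvPolynomial σ O ⧸ 𝔮))
            (fun j => w (e.symm j)) = 0 ∧
          ∀ k, qd (fun j k => (Ideal.Quotient.mk 𝔮 (c j k) : MvPolynomial σ O ⧸ 𝔮))
            (fun j => w (e.symm j)) k = 0) := by
        have h2 := hqfe (fun j k => (Ideal.Quotient.mk 𝔮 (c j k) : MvPolynomial σ O ⧸ 𝔮))
          (fun j => w (e.symm j))
        have h3 := hqde (fun j k => (Ideal.Quotient.mk 𝔮 (c j k) : MvPolynomial σ O ⧸ 𝔮))
          (fun j => w (e.symm j))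
        simp only [Equiv.symm_apply_apply] at h2 h3
        rw [← h2]
        refine and_congr Iff.rfl ?_
        constructor
        · intro h4 k
          have h5 := h3 (e.symm k)
          rw [h4, Equiv.apply_symm_apply] at h5
          exact h5.symm
        · intro h4 k
          rw [h3 k]
          exact h4 _
      rw [h1, hv.2]
      constructor
      · rintro ⟨t, ht⟩
        refine ⟨t * v o, ?_⟩
        funext j
        have h2 := congrFun ht (e j)
        simp only [Equiv.symm_apply_apply] at h2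
        rw [h2]
        have h3 : t * v o * (b * v (e j)) = (v o * b) * (t * v (e j)) := by ring
        rw [h3, hb, one_mul]
      · rintro ⟨t, ht⟩
        refine ⟨t * b, ?_⟩
        funext j
        have h2 := congrFun ht (e.symm j)
        simp only [Equiv.apply_symm_apply] at h2
        rw [h2, mul_assoc]
  obtain ⟨g', F₀, h1, h2, h3⟩ := f3_none hpar (fun j k => c (e j) (e k)) hline
    (by simp only [hen]; rw [mul_comm, hb])
  refine ⟨g', F₀, h1, ?_, h3⟩
  rw [hsum c g] at h2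
  exact h2

section Double

open Finset

/-- Double counting. -/
theorem f4_double {M Z : Type} [Finite M] [Finite Z] [Nonempty M] (r : M → Z → Prop)
    (bad : Z → Prop) (S1 S2 : M → Prop) (m3 K : ℕ) (Q : ℝ) (hQ : 0 < Q)
    (hM : ∀ c, Nat.card {z // r c z} = m3) (hZ : ∀ z, Nat.card {c // r c z} = K)
    (hm3 : 0 < m3) (h1 : ∀ c, S1 c → ∀ z, r c z → ¬ bad z)
    (h2 : ∀ c, S2 c → (Nat.card {z // r c z ∧ bad z} : ℝ) * Q ≤ m3)
    (h12 : ∀ c, S1 c → ¬ S2 c)
    (hb : (1 - 1 / Q ^ 2 - 1 / Q ^ 3) * Nat.card M ≤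
      (Nat.card {c // S1 c} : ℝ) + (1 - 1 / Q) * Nat.card {c // S2 c}) :
    (Nat.card {z // bad z} : ℝ) ≤ (1 / Q ^ 2 + 1 / Q ^ 3) * Nat.card Z := by
  classical
  have := Fintype.ofFinite M
  have := Fintype.ofFinite Z
  simp only [Nat.card_eq_fintype_card, Fintype.card_subtype] at hM hZ h2 hb ⊢
  -- total number of pairs
  have e1 : (m3 : ℝ) * Fintype.card M = K * Fintype.card Z := by
    have h := Finset.sum_card_bipartiteAbove_eq_sum_card_bipartiteBelow (s := (univ : Finset M))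
      (t := (univ : Finset Z)) r
    have h3 : ∀ c ∈ (univ : Finset M), #((univ : Finset Z).bipartiteAbove r c) = m3 := by
      intro c _
      exact hM c
    have h4 : ∀ z ∈ (univ : Finset Z), #((univ : Finset M).bipartiteBelow r z) = K := by
      intro z _
      exact hZ z
    rw [Finset.sum_congr rfl h3, Finset.sum_congr rfl h4] at h
    simp only [Finset.sum_const, Finset.card_univ, smul_eq_mul] at h
    have h' : ((Fintype.card M * m3 : ℕ) : ℝ) = ((Fintype.card Z * K : ℕ) : ℝ) := by rw [h]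
    push_cast at h'
    linarith
  -- the number of bad pairs
  have e2 : ∑ c : M, (#{z | r c z ∧ bad z} : ℝ) = K * (#{z | bad z} : ℝ) := by
    have h := Finset.sum_card_bipartiteAbove_eq_sum_card_bipartiteBelow (s := (univ : Finset M))
      (t := (univ.filter bad : Finset Z)) r
    have h3 : ∀ c ∈ (univ : Finset M), #((univ.filter bad : Finset Z).bipartiteAbove r c) =
        #{z | r c z ∧ bad z} := by
      intro c _
      congr 1
      ext z
      simp [Finset.bipartiteAbove, and_comm]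
    have h4 : ∀ z ∈ (univ.filter bad : Finset Z), #((univ : Finset M).bipartiteBelow r z) = K := by
      intro z _
      exact hZ z
    rw [Finset.sum_congr rfl h3, Finset.sum_congr rfl h4] at h
    simp only [Finset.sum_const, smul_eq_mul] at h
    have h' : ((∑ c : M, #{z | r c z ∧ bad z} : ℕ) : ℝ) = ((#{z | bad z} * K : ℕ) : ℝ) := by
      rw [h]
    push_cast at h'
    linarith
  -- pointwise bound
  have e3 : ∀ c : M, (#{z | r c z ∧ bad z} : ℝ) ≤
      m3 * (1 - (if S1 c then 1 else 0) - (1 - 1 / Q) * (if S2 c then 1 else 0)) := by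
    intro c
    have hle : (#{z | r c z ∧ bad z} : ℝ) ≤ m3 := by
      rw [← hM c]
      exact_mod_cast Finset.card_le_card (fun z hz => by
        simp only [Finset.mem_filter, Finset.mem_univ, true_and] at hz ⊢
        exact hz.1)
    by_cases hc1 : S1 c
    · have hc2 := h12 c hc1
      have h0 : #{z | r c z ∧ bad z} = 0 := by
        rw [Finset.card_eq_zero, Finset.filter_eq_empty_iff]
        rintro z - ⟨hz1, hz2⟩
        exact h1 c hc1 z hz1 hz2
      rw [h0]
      simp [hc1, hc2]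
    · by_cases hc2 : S2 c
      · have := h2 c hc2
        simp only [hc1, hc2, if_true, if_false]
        have h5 : (#{z | r c z ∧ bad z} : ℝ) ≤ m3 / Q := by
          rw [le_div_iff₀ hQ]
          exact this
        have h6 : (m3 : ℝ) * (1 - 0 - (1 - 1 / Q) * 1) = m3 / Q := by ring
        linarith
      · simp only [hc1, hc2, if_false]
        linarith
  have e4 : ∑ c : M, (m3 : ℝ) * (1 - (if S1 c then 1 else 0) -
      (1 - 1 / Q) * (if S2 c then 1 else 0)) =
      m3 * (Fintype.card M - #{c | S1 c} - (1 - 1 / Q) * #{c | S2 c}) := by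
    rw [← Finset.mul_sum, Finset.sum_sub_distrib, Finset.sum_sub_distrib, ← Finset.mul_sum,
      Finset.sum_boole, Finset.sum_boole]
    simp
  have e5 : (K : ℝ) * (#{z | bad z} : ℝ) ≤
      m3 * (Fintype.card M - #{c | S1 c} - (1 - 1 / Q) * #{c | S2 c}) := by
    rw [← e2, ← e4]
    exact Finset.sum_le_sum fun c _ => e3 c
  have hm3' : (0 : ℝ) < m3 := by exact_mod_cast hm3
  have hMpos : (0 : ℝ) < Fintype.card M := by exact_mod_cast Fintype.card_pos
  have hKpos : (0 : ℝ) < K := by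
    rcases Nat.eq_zero_or_pos K with h0 | h0
    · rw [h0, Nat.cast_zero, zero_mul] at e1
      have := mul_pos hm3' hMpos
      linarith
    · exact_mod_cast h0
  have e6 : (m3 : ℝ) * (Fintype.card M - #{c | S1 c} - (1 - 1 / Q) * #{c | S2 c}) ≤
      m3 * ((1 / Q ^ 2 + 1 / Q ^ 3) * Fintype.card M) := by
    apply mul_le_mul_of_nonneg_left _ hm3'.le
    linarith
  have e7 : (K : ℝ) * (#{z | bad z} : ℝ) ≤ K * ((1 / Q ^ 2 + 1 / Q ^ 3) * Fintype.card Z) := by
    calc (K : ℝ) * (#{z | bad z} : ℝ) ≤ m3 * ((1 / Q ^ 2 + 1 / Q ^ 3) * Fintype.card M) :=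
          e5.trans e6
      _ = (1 / Q ^ 2 + 1 / Q ^ 3) * (m3 * Fintype.card M) := by ring
      _ = K * ((1 / Q ^ 2 + 1 / Q ^ 3) * Fintype.card Z) := by rw [e1]; ring
  exact le_of_mul_le_mul_left e7 hKpos

end Double

section Reindex

variable {ι ι' κ : Type} [Fintype ι] [Fintype ι'] [CommRing κ] (e : ι' ≃ ι)

theorem f4_qf (c : ι → ι → κ) (v : ι → κ) :
    qf (fun j k => c (e j) (e k)) (fun j => v (e j)) = qf c v := by
  unfold qf
  rw [← e.sum_comp (fun j => ∑ k, c j k * (v j * v k))]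
  refine Finset.sum_congr rfl fun j _ => ?_
  rw [← e.sum_comp (fun k => c (e j) k * (v (e j) * v k))]

theorem f4_qd (c : ι → ι → κ) (v : ι → κ) (k : ι') :
    qd (fun j k => c (e j) (e k)) (fun j => v (e j)) k = qd c v (e k) := by
  unfold qd
  rw [← e.sum_comp (fun j => (c j (e k) + c (e k) j) * v j)]

theorem f4_qf' (c : ι → ι → κ) (w : ι' → κ) :
    qf (fun j k => c (e j) (e k)) w = qf c (fun i => w (e.symm i)) := by
  have h := f4_qf e c (fun i => w (e.symm i))
  simpa only [Equiv.symm_apply_apply] using h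

theorem f4_qd' (c : ι → ι → κ) (w : ι' → κ) (k : ι) :
    qd (fun j k => c (e j) (e k)) w (e.symm k) = qd c (fun i => w (e.symm i)) k := by
  have h := f4_qd e c (fun i => w (e.symm i)) (e.symm k)
  simpa only [Equiv.symm_apply_apply, Equiv.apply_symm_apply] using h

theorem f4_qnondeg (c : ι → ι → κ) : QNondeg (fun j k => c (e j) (e k)) ↔ QNondeg c := by
  constructor
  · intro h v hv hq
    obtain ⟨k, hk⟩ := h (fun j => v (e j)) (by
      intro h0
      apply hv
      funext i
      have := congrFun h0 (e.symm i)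
      simpa using this) (by rw [f4_qf]; exact hq)
    rw [f4_qd] at hk
    exact ⟨e k, hk⟩
  · intro h v hv hq
    obtain ⟨k, hk⟩ := h (fun i => v (e.symm i)) (by
      intro h0
      apply hv
      funext j
      have := congrFun h0 (e j)
      simpa using this) (by
        rw [← f4_qf' e]
        exact hq)
    refine ⟨e.symm k, ?_⟩
    rw [f4_qd']
    exact hk

theorem f4_lineKer (c : ι → ι → κ) :
    (∃ v, LineKer (fun j k => c (e j) (e k)) v) ↔ ∃ v, LineKer c v := by
  constructor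
  · rintro ⟨v, hv, h⟩
    refine ⟨fun i => v (e.symm i), ?_, ?_⟩
    · intro h0
      apply hv
      funext j
      have := congrFun h0 (e j)
      simpa using this
    · intro w
      have h1 := h (fun j => w (e j))
      rw [f4_qf] at h1
      simp only [f4_qd] at h1
      constructor
      · rintro ⟨hw1, hw2⟩
        obtain ⟨t, ht⟩ := h1.mp ⟨hw1, fun k => hw2 (e k)⟩
        refine ⟨t, ?_⟩
        funext i
        have := congrFun ht (e.symm i)
        simpa using this
      · rintro ⟨t, ht⟩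
        have h2 := h1.mpr ⟨t, by
          funext j
          have := congrFun ht (e j)
          simpa using this⟩
        refine ⟨h2.1, fun k => ?_⟩
        have := h2.2 (e.symm k)
        simpa using this
  · rintro ⟨v, hv, h⟩
    refine ⟨fun j => v (e j), ?_, ?_⟩
    · intro h0
      apply hv
      funext i
      have := congrFun h0 (e.symm i)
      simpa using this
    · intro w
      have h1 := h (fun i => w (e.symm i))
      rw [← f4_qf' e] at h1
      simp only [← f4_qd' e] at h1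
      constructor
      · rintro ⟨hw1, hw2⟩
        obtain ⟨t, ht⟩ := h1.mp ⟨hw1, fun k => hw2 (e.symm k)⟩
        refine ⟨t, ?_⟩
        funext j
        have := congrFun ht (e j)
        simpa using this
      · rintro ⟨t, ht⟩
        have h2 := h1.mpr ⟨t, by
          funext i
          have := congrFun ht (e.symm i)
          simpa using this⟩
        refine ⟨h2.1, fun k => ?_⟩
        have := h2.2 (e k)
        simpa using this

/-- The matrices over another index set. -/
def f4_equiv : (ι → ι → κ) ≃ (ι' → ι' → κ) where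
  toFun c := fun j k => c (e j) (e k)
  invFun c := fun j k => c (e.symm j) (e.symm k)
  left_inv c := by
    funext j k
    simp
  right_inv c := by
    funext j k
    simp

include e in
theorem f4_card_qnondeg : Nat.card {c : ι → ι → κ // QNondeg c} =
    Nat.card {c : ι' → ι' → κ // QNondeg c} :=
  Nat.card_congr ((f4_equiv e).subtypeEquiv fun c => (f4_qnondeg e c).symm)

include e in
theorem f4_card_lineKer : Nat.card {c : ι → ι → κ // ∃ v, LineKer c v} =
    Nat.card {c : ι' → ι' → κ // ∃ v, LineKer c v} :=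
  Nat.card_congr ((f4_equiv e).subtypeEquiv fun c => (f4_lineKer e c).symm)

end Reindex

section Alg

variable {O : Type} [CommRing O] {σ : Type} [Fintype σ]

theorem f4_square {𝔮 : Ideal (MvPolynomial σ O)} {g : Option σ → MvPolynomial σ O}
    (hg : Par 𝔮 g) {F : MvPolynomial σ O} (hF : F ∈ 𝔮 ^ 2) :
    ∃ a : Option σ → Option σ → MvPolynomial σ O,
      F - ∑ j, ∑ k, a j k * (g j * g k) ∈ 𝔮 ^ 3 := by
  have key : ∀ x ∈ 𝔮, ∃ b : Option σ → MvPolynomial σ O, x - ∑ j, b j * g j ∈ 𝔮 ^ 2 := by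
    intro x hx
    obtain ⟨y, hy, z, hz, rfl⟩ := Submodule.mem_sup.mp (hg.2 hx)
    obtain ⟨b, hb⟩ := Ideal.mem_span_range_iff_exists_fun.mp hy
    exact ⟨b, by rw [hb]; simpa using hz⟩
  have hsum : ∀ b : Option σ → MvPolynomial σ O, ∑ j, b j * g j ∈ 𝔮 := fun b =>
    Ideal.sum_mem _ fun j _ => Ideal.mul_mem_left _ _ (hg.1 j)
  rw [pow_two] at hF
  refine Submodule.mul_induction_on hF ?_ ?_
  · intro x hx y hy
    obtain ⟨b, hb⟩ := key x hx
    obtain ⟨c, hc⟩ := key y hy
    refine ⟨fun j k => b j * c k, ?_⟩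
    have h1 : ∑ j, ∑ k, b j * c k * (g j * g k) = (∑ j, b j * g j) * ∑ k, c k * g k := by
      rw [Finset.sum_mul_sum]
      refine Finset.sum_congr rfl fun j _ => Finset.sum_congr rfl fun k _ => ?_
      ring
    rw [h1]
    have h2 : x * y - (∑ j, b j * g j) * ∑ k, c k * g k =
        (x - ∑ j, b j * g j) * y + (∑ j, b j * g j) * (y - ∑ k, c k * g k) := by ring
    rw [h2]
    refine add_mem ?_ ?_
    · rw [pow_succ 𝔮 2]
      exact Ideal.mul_mem_mul hb hy
    · rw [pow_succ' 𝔮 2]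
      exact Ideal.mul_mem_mul (hsum b) hc
  · rintro x y ⟨a, ha⟩ ⟨b, hb⟩
    refine ⟨fun j k => a j k + b j k, ?_⟩
    have h1 : ∑ j, ∑ k, (a j k + b j k) * (g j * g k) =
        ∑ j, ∑ k, a j k * (g j * g k) + ∑ j, ∑ k, b j k * (g j * g k) := by
      simp only [add_mul, Finset.sum_add_distrib]
    rw [h1]
    have h2 := add_mem ha hb
    convert h2 using 1
    ring

theorem f4_sub {𝔮 : Ideal (MvPolynomial σ O)} {g : Option σ → MvPolynomial σ O}
    (hg : ∀ o, g o ∈ 𝔮) (a b : Option σ → Option σ → MvPolynomial σ O)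
    (hab : ∀ j k, a j k - b j k ∈ 𝔮) :
    ∑ j, ∑ k, a j k * (g j * g k) - ∑ j, ∑ k, b j k * (g j * g k) ∈ 𝔮 ^ 3 := by
  rw [← Finset.sum_sub_distrib]
  refine Ideal.sum_mem _ fun j _ => ?_
  rw [← Finset.sum_sub_distrib]
  refine Ideal.sum_mem _ fun k _ => ?_
  rw [← sub_mul, pow_succ' 𝔮 2, pow_two]
  exact Ideal.mul_mem_mul (hab j k) (Ideal.mul_mem_mul (hg j) (hg k))

theorem f4_mem_map {A : Type} [CommRing A] {I J : Ideal A} (h : I ≤ J) (x : A) :
    Ideal.Quotient.mk I x ∈ J.map (Ideal.Quotient.mk I) ↔ x ∈ J := by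
  constructor
  · intro hx
    obtain ⟨y, hy, hxy⟩ := (Ideal.mem_map_iff_of_surjective _ Ideal.Quotient.mk_surjective).mp hx
    have h1 : x - y ∈ I := (Ideal.Quotient.mk_eq_mk_iff_sub_mem _ _).mp hxy.symm
    have h2 := add_mem (h h1) hy
    simpa using h2
  · exact fun hx => Ideal.mem_map_of_mem _ hx

theorem f4_card {A : Type} [CommRing A] {I J : Ideal A} (h : I ≤ J) :
    Nat.card (A ⧸ I) = Nat.card (A ⧸ J) * Nat.card (J.map (Ideal.Quotient.mk I)) := by
  have h1 := AddSubgroup.card_eq_card_quotient_mul_card_addSubgroup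
    (J.map (Ideal.Quotient.mk I)).toAddSubgroup
  have h2 : Nat.card ((A ⧸ I) ⧸ (J.map (Ideal.Quotient.mk I)).toAddSubgroup) =
      Nat.card (A ⧸ J) := Nat.card_congr (DoubleQuot.quotQuotEquivQuotOfLE h).toEquiv
  rw [h2] at h1
  exact h1

end Alg

/-- Uses `good_quad_bound`, `exists_params`, F1, F2, F3. Let `Z_j` be the image of `𝔮 ^ j`
in the quotient by `𝔮 ^ 4`. The homomorphism `c ↦ ∑ c j k * (g j * g k)` from the matrices over the
residue field to `Z_2 / Z_3` is surjective; a class is good if it comes from a nondegenerate matrix,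
and at least `1 - 1 / Q` of its elements are good if it comes from a matrix with one-dimensional
kernel. -/
theorem bad_count {O : Type} [CommRing O] [IsDomain O] [IsDiscreteValuationRing O] {σ : Type}
    [Fintype σ] {ϖ : O} (hϖ : Irreducible ϖ) (hfin : Finite (O ⧸ Ideal.span {ϖ}))
    {𝔮 : Ideal (MvPolynomial σ O)} (hmax : 𝔮.IsMaximal) (h𝔮 : C ϖ ∈ 𝔮) :
    (Nat.card {z : MvPolynomial σ O ⧸ 𝔮 ^ 4 // ∃ F, Ideal.Quotient.mk (𝔮 ^ 4) F = z ∧ F ∈ 𝔮 ^ 2 ∧
        ¬ OdpAt F 𝔮} : ℝ) * (Nat.card (MvPolynomial σ O ⧸ 𝔮) : ℝ) ^ (Fintype.card σ + 2) ≤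
      (1 / (Nat.card (MvPolynomial σ O ⧸ 𝔮) : ℝ) ^ 2 +
        1 / (Nat.card (MvPolynomial σ O ⧸ 𝔮) : ℝ) ^ 3) *
        Nat.card (MvPolynomial σ O ⧸ 𝔮 ^ 4) := by
  classical
  obtain ⟨g, hg⟩ : ∃ g : Option σ → MvPolynomial σ O, Par 𝔮 g := by
    obtain ⟨y, -, -, hy⟩ := exists_params hϖ hfin hmax h𝔮
    exact ⟨_, hy⟩
  have hκ : Finite (MvPolynomial σ O ⧸ 𝔮) := by
    have := finite_quot_pow hϖ hfin hmax h𝔮 1
    rwa [pow_one] at this
  have hB : Finite (MvPolynomial σ O ⧸ 𝔮 ^ 4) := finite_quot_pow hϖ hfin hmax h𝔮 4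
  have h42 : 𝔮 ^ 4 ≤ 𝔮 ^ 2 := Ideal.pow_le_pow_right (by norm_num)
  have h43 : 𝔮 ^ 4 ≤ 𝔮 ^ 3 := Ideal.pow_le_pow_right (by norm_num)
  have h32 : 𝔮 ^ 3 ≤ 𝔮 ^ 2 := Ideal.pow_le_pow_right (by norm_num)
  set mk := Ideal.Quotient.mk (𝔮 ^ 4) with hmk
  set I2 := (𝔮 ^ 2).map mk with hI2
  set I3 := (𝔮 ^ 3).map mk with hI3
  have m2 : ∀ x, mk x ∈ I2 ↔ x ∈ 𝔮 ^ 2 := fun x => f4_mem_map h42 x
  have m3 : ∀ x, mk x ∈ I3 ↔ x ∈ 𝔮 ^ 3 := fun x => f4_mem_map h43 x
  have hI32 : I3 ≤ I2 := Ideal.map_mono h32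
  choose l hl using (Ideal.Quotient.mk_surjective (I := 𝔮))
  let κ := MvPolynomial σ O ⧸ 𝔮
  let Φ : (Option σ → Option σ → κ) → MvPolynomial σ O := fun c => ∑ j, ∑ k, l (c j k) * (g j * g k)
  have hΦ2 : ∀ c, Φ c ∈ 𝔮 ^ 2 := by
    intro c
    refine Ideal.sum_mem _ fun j _ => Ideal.sum_mem _ fun k _ => Ideal.mul_mem_left _ _ ?_
    rw [pow_two]
    exact Ideal.mul_mem_mul (hg.1 j) (hg.1 k)
  have hΦsub : ∀ c c', Φ (c - c') - (Φ c - Φ c') ∈ 𝔮 ^ 3 := by
    intro c c'
    have h1 : Φ c - Φ c' = ∑ j, ∑ k, (l (c j k) - l (c' j k)) * (g j * g k) := by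
      simp only [Φ, sub_mul, Finset.sum_sub_distrib]
    rw [h1]
    refine f4_sub hg.1 (fun j k => l ((c - c') j k)) _ fun j k => ?_
    rw [← Ideal.Quotient.mk_eq_mk_iff_sub_mem, map_sub, hl, hl, hl]
    rfl
  -- the pairs
  let Z := {z : MvPolynomial σ O ⧸ 𝔮 ^ 4 // z ∈ I2}
  let r : (Option σ → Option σ → κ) → Z → Prop := fun c z => z.1 - mk (Φ c) ∈ I3
  let bad : Z → Prop := fun z => ∃ F, mk F = z.1 ∧ F ∈ 𝔮 ^ 2 ∧ ¬ OdpAt F 𝔮
  have hQ1 : 1 < Nat.card κ := by
    have : Nontrivial κ := Ideal.Quotient.nontrivial_iff.mpr hmax.ne_top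
    exact Finite.one_lt_card
  have hQ : (0 : ℝ) < (Nat.card κ : ℝ) := by
    have : 0 < Nat.card κ := by omega
    exact_mod_cast this
  have hM : ∀ c, Nat.card {z : Z // r c z} = Nat.card I3 := by
    intro c
    refine Nat.card_congr ⟨fun z => ⟨z.1.1 - mk (Φ c), z.2⟩,
      fun y => ⟨⟨y.1 + mk (Φ c), add_mem (hI32 y.2) ((m2 _).mpr (hΦ2 c))⟩, ?_⟩, ?_, ?_⟩
    · change y.1 + mk (Φ c) - mk (Φ c) ∈ I3
      rw [add_sub_cancel_right]
      exact y.2
    · intro z
      apply Subtype.ext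
      apply Subtype.ext
      change z.1.1 - mk (Φ c) + mk (Φ c) = z.1.1
      rw [sub_add_cancel]
    · intro y
      apply Subtype.ext
      change y.1 + mk (Φ c) - mk (Φ c) = y.1
      rw [add_sub_cancel_right]
  have hZ : ∀ z : Z, Nat.card {c // r c z} =
      Nat.card {c : Option σ → Option σ → κ // mk (Φ c) ∈ I3} := by
    intro z
    obtain ⟨F, hF2, hFz⟩ := (Ideal.mem_map_iff_of_surjective mk
      Ideal.Quotient.mk_surjective).mp z.2
    obtain ⟨a, ha⟩ := f4_square hg hF2
    let c₀ : Option σ → Option σ → κ := fun j k => Ideal.Quotient.mk 𝔮 (a j k)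
    have hc₀ : z.1 - mk (Φ c₀) ∈ I3 := by
      rw [← hFz, ← map_sub, m3]
      have h1 := f4_sub hg.1 a (fun j k => l (c₀ j k)) fun j k => by
        rw [← Ideal.Quotient.mk_eq_mk_iff_sub_mem, hl]
      have h2 := add_mem ha h1
      convert h2 using 1
      simp only [Φ]
      ring
    refine Nat.card_congr ((Equiv.subRight c₀).subtypeEquiv fun c => ?_)
    change z.1 - mk (Φ c) ∈ I3 ↔ mk (Φ (c - c₀)) ∈ I3
    have h3 : mk (Φ (c - c₀)) - (mk (Φ c) - mk (Φ c₀)) ∈ I3 := by
      rw [← map_sub, ← map_sub, m3]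
      exact hΦsub c c₀
    constructor
    · intro h4
      have h5 := add_mem h3 (sub_mem hc₀ h4)
      convert h5 using 1
      ring
    · intro h4
      have h5 := add_mem (sub_mem h3 h4) hc₀
      convert h5 using 1
      ring
  have hm3 : 0 < Nat.card I3 := Nat.card_pos
  have h1 : ∀ c, QNondeg c → ∀ z : Z, r c z → ¬ bad z := by
    rintro c hc z hz ⟨F, hFz, hF2, hF⟩
    apply hF
    left
    refine ⟨g, fun j k => l (c j k), hg, ?_, ?_⟩
    · have : mk (F - Φ c) ∈ I3 := by rw [map_sub, hFz]; exact hz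
      exact (m3 _).mp this
    · simp only [hl]
      exact hc
  have h2 : ∀ c, (∃ v, LineKer c v) →
      (Nat.card {z : Z // r c z ∧ bad z} : ℝ) * (Nat.card κ : ℝ) ≤ Nat.card I3 := by
    intro c hc
    obtain ⟨g', F₀, hg', hF₀, hodp⟩ := odpAt_of_lineKer hmax hg (fun j k => l (c j k))
      (by simp only [hl]; exact hc)
    have hcub := cubic_ne hϖ hfin hmax h𝔮 hg'
    set L := 𝔮 ^ 2 * Ideal.span (Set.range fun j => g' (some j)) ⊔ 𝔮 ^ 4 with hL
    have h4L : 𝔮 ^ 4 ≤ L := le_sup_right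
    have hbadL : ∀ z : {z : Z // r c z ∧ bad z}, ∃ F, mk F = z.1.1 ∧ F - F₀ ∈ L := by
      rintro ⟨z, hz, F, hFz, hF2, hF⟩
      refine ⟨F, hFz, ?_⟩
      by_contra hcon
      apply hF
      apply hodp F _ hcon
      have h3 : mk (F - Φ c) ∈ I3 := by rw [map_sub, hFz]; exact hz
      have h4 := sub_mem ((m3 _).mp h3) hF₀
      convert h4 using 1
      simp only [Φ]
      ring
    have hcube : g' none ^ 3 ∈ 𝔮 ^ 3 := Ideal.pow_mem_pow (hg'.1 none) 3
    let f : κ × {z : Z // r c z ∧ bad z} → I3 := fun p =>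
      ⟨p.2.1.1 - mk F₀ + mk (l p.1 * g' none ^ 3), by
        refine add_mem ?_ ((m3 _).mpr (Ideal.mul_mem_left _ _ hcube))
        have h3 := p.2.2.1
        have h4 : mk (F₀ - Φ c) ∈ I3 := (m3 _).mpr hF₀
        rw [map_sub] at h4
        have h5 := sub_mem h3 h4
        convert h5 using 1
        ring⟩
    have hf : Function.Injective f := by
      rintro ⟨a, z⟩ ⟨a', z'⟩ h
      have h' : z.1.1 - mk F₀ + mk (l a * g' none ^ 3) =
          z'.1.1 - mk F₀ + mk (l a' * g' none ^ 3) := congrArg Subtype.val h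
      have haa : a = a' := by
        by_contra hne
        obtain ⟨F, hFz, hF⟩ := hbadL z
        obtain ⟨F', hFz', hF'⟩ := hbadL z'
        have h3 : mk ((l a - l a') * g' none ^ 3 + (F - F')) = 0 := by
          rw [map_add, map_sub, hFz, hFz', sub_mul, map_sub]
          linear_combination h'
        have h4 : (l a - l a') * g' none ^ 3 + (F - F') ∈ 𝔮 ^ 4 :=
          Ideal.Quotient.eq_zero_iff_mem.mp h3
        have h5 : (l a - l a') * g' none ^ 3 ∈ L := by
          have h6 := sub_mem (h4L h4) (sub_mem hF hF')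
          convert h6 using 1
          ring
        have h7 : l a - l a' ∉ 𝔮 := by
          intro h8
          apply hne
          rw [← hl a, ← hl a']
          exact (Ideal.Quotient.mk_eq_mk_iff_sub_mem _ _).mpr h8
        obtain ⟨t, ht⟩ := hmax.exists_inv h7
        apply hcub
        obtain ⟨m, hm, hm1⟩ := ht
        have h8 : g' none ^ 3 = t * ((l a - l a') * g' none ^ 3) + m * g' none ^ 3 := by
          linear_combination (-(g' none ^ 3)) * hm1
        rw [h8]
        refine add_mem (Ideal.mul_mem_left _ _ h5) (h4L ?_)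
        rw [pow_succ' 𝔮 3]
        exact Ideal.mul_mem_mul hm hcube
      subst haa
      have : z = z' := by
        apply Subtype.ext
        apply Subtype.ext
        linear_combination h'
      rw [this]
    have hcard := Nat.card_le_card_of_injective f hf
    rw [Nat.card_prod] at hcard
    have : ((Nat.card κ * Nat.card {z : Z // r c z ∧ bad z} : ℕ) : ℝ) ≤ (Nat.card I3 : ℝ) := by
      exact_mod_cast hcard
    rw [Nat.cast_mul] at this
    linarith
  have h12 : ∀ c : Option σ → Option σ → κ, QNondeg c → ¬ ∃ v, LineKer c v := by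
    rintro c hc ⟨v, hv, h⟩
    obtain ⟨hq, hd⟩ := (h v).mpr ⟨1, by simp⟩
    obtain ⟨k, hk⟩ := hc v hv hq
    exact hk (hd k)
  have hcardO : Fintype.card (Option σ) = Fintype.card σ + 1 := Fintype.card_option
  let e : Fin (Fintype.card σ + 1) ≃ Option σ :=
    (finCongr hcardO.symm).trans (Fintype.equivFin (Option σ)).symm
  have hb : (1 - 1 / (Nat.card κ : ℝ) ^ 2 - 1 / (Nat.card κ : ℝ) ^ 3) *
      Nat.card (Option σ → Option σ → κ) ≤
      (Nat.card {c : Option σ → Option σ → κ // QNondeg c} : ℝ) +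
        (1 - 1 / (Nat.card κ : ℝ)) *
          Nat.card {c : Option σ → Option σ → κ // ∃ v, LineKer c v} := by
    rw [f4_card_qnondeg e, f4_card_lineKer e, Nat.card_fun, Nat.card_fun]
    have h3 : Nat.card (Option σ) = Fintype.card σ + 1 := by
      rw [Nat.card_eq_fintype_card, hcardO]
    rw [h3, ← pow_mul, ← pow_two, Nat.cast_pow]
    let _ : Field κ := Ideal.Quotient.field 𝔮
    exact good_quad_bound (κ := κ) (Fintype.card σ)
  have hmain := f4_double r bad (fun c => QNondeg c) (fun c => ∃ v, LineKer c v) (Nat.card I3) _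
    (Nat.card κ : ℝ) hQ hM hZ hm3 h1 h2 h12 hb
  have hbad : Nat.card {z : MvPolynomial σ O ⧸ 𝔮 ^ 4 // ∃ F, Ideal.Quotient.mk (𝔮 ^ 4) F = z ∧
      F ∈ 𝔮 ^ 2 ∧ ¬ OdpAt F 𝔮} = Nat.card {z : Z // bad z} := by
    refine Nat.card_congr (Equiv.subtypeSubtypeEquivSubtype ?_).symm
    rintro x ⟨F, hFx, hF2, -⟩
    rw [← hFx]
    exact (m2 F).mpr hF2
  have hcard2 := card_quot_two_ge hϖ hfin hmax h𝔮
  have hcardB := f4_card h42
  rw [hbad, hcardB]
  have h5 : ((Nat.card κ ^ (Fintype.card σ + 2) : ℕ) : ℝ) ≤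
      (Nat.card (MvPolynomial σ O ⧸ 𝔮 ^ 2) : ℝ) := by exact_mod_cast hcard2
  rw [Nat.cast_pow] at h5
  rw [Nat.cast_mul]
  have h6 : (0 : ℝ) ≤ (1 / (Nat.card κ : ℝ) ^ 2 + 1 / (Nat.card κ : ℝ) ^ 3) * Nat.card Z := by
    positivity
  calc (Nat.card {z : Z // bad z} : ℝ) * (Nat.card κ : ℝ) ^ (Fintype.card σ + 2)
      ≤ ((1 / (Nat.card κ : ℝ) ^ 2 + 1 / (Nat.card κ : ℝ) ^ 3) * Nat.card Z) *
        (Nat.card (MvPolynomial σ O ⧸ 𝔮 ^ 2) : ℝ) :=
        mul_le_mul hmain h5 (by positivity) h6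
    _ = (1 / (Nat.card κ : ℝ) ^ 2 + 1 / (Nat.card κ : ℝ) ^ 3) *
        ((Nat.card (MvPolynomial σ O ⧸ 𝔮 ^ 2) : ℝ) * (Nat.card I2 : ℝ)) := by
        ring

end Pool.Agent.Lib.MP_6a3dac_ag.Maj
end

section

/-!
# From geometric points to ideals
-/

set_option autoImplicit false

namespace Pool.Agent.Lib.MP_6a3dac_ag.Sys

open MvPolynomial IsDedekindDomain
open Pool.Agent.Lib.MP_6a3dac_ag.DNF
open scoped Pointwise Matrix

variable {n c : ℕ} {d : Fin c → ℕ}

theorem t21_scale {O T : Type} [CommRing O] [CommRing T] {m : ℕ} (f : O →+* T) (u : T)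
    (y : Fin m → T) {P : MvPolynomial (Fin m) O} {e : ℕ} (hP : P.IsHomogeneous e) :
    eval₂ f (fun k => u * y k) P = u ^ e * eval₂ f y P := by
  rw [eval₂_eq', eval₂_eq', Finset.mul_sum]
  refine Finset.sum_congr rfl fun m hm => ?_
  have h1 : ∑ i, m i = e := by
    have := hP (mem_support_iff.mp hm)
    rw [Finsupp.weight_apply, Finsupp.sum_fintype _ _ (fun _ => by simp)] at this
    simpa using this
  simp only [mul_pow]
  rw [Finset.prod_mul_distrib, Finset.prod_pow_eq_pow_sum, h1]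
  ring

/-- No singular geometric points: the Jacobian ideal contains a power of the irrelevant ideal. -/
theorem jac_of_noSing {k : Type} [Field k] {f : Fin c → MvPolynomial (Fin (n + 1)) k}
    (hf : ∀ j, (f j).IsHomogeneous (d j))
    (h : ∀ (L : Type) [Field L] [Algebra k L] (i : Fin (n + 1)) (j : Fin c)
      (x : Fin (n + 1) → L) (y : Fin c → L), x i = 1 → y j = 1 →
      ¬ IsSing (fun m => map (algebraMap k L) (f m)) x y) :
    ∃ N : ℕ, ∀ i, X i ^ N ∈ Ideal.span (Set.range f ∪ Set.range (minor f)) := by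
  classical
  set J : Ideal (MvPolynomial (Fin (n + 1)) k) := Ideal.span (Set.range f ∪ Set.range (minor f))
    with hJ
  have key : ∀ i, (X i : MvPolynomial (Fin (n + 1)) k) ∈ J.radical := by
    intro i
    rw [Ideal.radical_eq_sInf, Ideal.mem_sInf]
    rintro q ⟨hJq, hq⟩
    by_contra hXi
    have : q.IsPrime := hq
    let A : Type := MvPolynomial (Fin (n + 1)) k ⧸ q
    let L : Type := FractionRing A
    let θ : MvPolynomial (Fin (n + 1)) k →+* L := (algebraMap A L).comp (Ideal.Quotient.mk q)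
    have hθ : ∀ p, θ p = 0 ↔ p ∈ q := by
      intro p
      show algebraMap A L (Ideal.Quotient.mk q p) = 0 ↔ p ∈ q
      rw [FaithfulSMul.algebraMap_eq_zero_iff, Ideal.Quotient.eq_zero_iff_mem]
    have hθC : θ.comp C = algebraMap k L := by
      ext r
      rfl
    have hu : θ (X i) ≠ 0 := fun h0 => hXi ((hθ _).1 h0)
    let x : Fin (n + 1) → L := fun l => (θ (X i))⁻¹ * θ (X l)
    have hx : x i = 1 := inv_mul_cancel₀ hu
    have hev : ∀ (e : ℕ) (p : MvPolynomial (Fin (n + 1)) k), p.IsHomogeneous e → p ∈ q →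
        eval₂ (algebraMap k L) x p = 0 := by
      intro e p hp hpq
      rw [t21_scale _ _ _ hp, ← hθC]
      have h1 : eval₂ (θ.comp C) (fun l => θ (X l)) p = θ p := by
        rw [← coe_eval₂Hom]
        have h2 : eval₂Hom (θ.comp C) (fun l => θ (X l)) = θ := by
          apply ringHom_ext
          · intro r; simp
          · intro l; simp
        rw [h2]
      rw [h1, (hθ p).2 hpq, mul_zero]
    have hmin : ∀ s : Fin c → Fin (n + 1),
        ((Matrix.of fun (m : Fin c) (l : Fin (n + 1)) =>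
          eval₂ (algebraMap k L) x (pderiv l (f m))).submatrix id s).det = 0 := by
      intro s
      have h1 := hev _ _ (isHomogeneous_minor hf s) (hJq (Ideal.subset_span (Or.inr ⟨s, rfl⟩)))
      rw [minor, ← coe_eval₂Hom, RingHom.map_det] at h1
      exact h1
    have hker : ∃ y : Fin c → L, y ᵥ* (Matrix.of fun (m : Fin c) (l : Fin (n + 1)) =>
        eval₂ (algebraMap k L) x (pderiv l (f m))) = 0 ∧ y ≠ 0 := by
      by_contra hno
      push Not at hno
      obtain ⟨s, hs⟩ := exists_minor_ne_zero _ hno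
      exact hs (hmin s)
    obtain ⟨y, hy, hy0⟩ := hker
    obtain ⟨j, hj⟩ := Function.ne_iff.1 hy0
    have hj' : y j ≠ 0 := hj
    refine h L i j x (fun m => (y j)⁻¹ * y m) hx (inv_mul_cancel₀ hj') ⟨?_, ?_⟩
    · intro m
      rw [eval_map]
      exact hev _ _ (hf m) (hJq (Ideal.subset_span (Or.inl ⟨m, rfl⟩)))
    · intro l
      have h1 := congrFun hy l
      simp only [Matrix.vecMul, dotProduct, Matrix.of_apply, Pi.zero_apply] at h1
      have h2 : ∀ m, (y j)⁻¹ * y m * eval x (pderiv l (map (algebraMap k L) (f m))) =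
          (y j)⁻¹ * (y m * eval₂ (algebraMap k L) x (pderiv l (f m))) := by
        intro m
        rw [pderiv_map, eval_map, mul_assoc]
      rw [Finset.sum_congr rfl fun m _ => h2 m, ← Finset.mul_sum, h1, mul_zero]
  choose N hN using fun i => key i
  refine ⟨∑ i, N i, fun i => ?_⟩
  have h1 : N i ≤ ∑ i, N i := Finset.single_le_sum (fun _ _ => Nat.zero_le _) (Finset.mem_univ i)
  obtain ⟨e, he⟩ := Nat.exists_eq_add_of_le h1
  rw [he, pow_add]
  exact J.mul_mem_right _ (hN i)

end Pool.Agent.Lib.MP_6a3dac_ag.Sys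
end

section

/-!
# From geometric points to ideals
-/

set_option autoImplicit false

namespace Pool.Agent.Lib.MP_6a3dac_ag.Sys

open MvPolynomial IsDedekindDomain
open Pool.Agent.Lib.MP_6a3dac_ag.DNF

variable {n c : ℕ} {d : Fin c → ℕ}

/-- Clearing denominators in the span of polynomials over `R`. -/
theorem t23_clear_span {R K σ : Type} [CommRing R] [IsDomain R] [Field K] [Algebra R K]
    [IsFractionRing R K] (S : Set (MvPolynomial σ R)) {q : MvPolynomial σ K}
    (hq : q ∈ Ideal.span ((map (algebraMap R K)) '' S)) :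
    ∃ (m : R) (Q : MvPolynomial σ R), m ≠ 0 ∧ Q ∈ Ideal.span S ∧
      map (algebraMap R K) Q = C (algebraMap R K m) * q := by
  refine Submodule.span_induction (p := fun q _ => ∃ (m : R) (Q : MvPolynomial σ R), m ≠ 0 ∧
    Q ∈ Ideal.span S ∧ map (algebraMap R K) Q = C (algebraMap R K m) * q) ?_ ?_ ?_ ?_ hq
  · rintro _ ⟨s, hs, rfl⟩
    exact ⟨1, s, one_ne_zero, Ideal.subset_span hs, by simp⟩
  · exact ⟨1, 0, one_ne_zero, Ideal.zero_mem _, by simp⟩
  · rintro x y - - ⟨m, Q, hm, hQ, hQm⟩ ⟨m', Q', hm', hQ', hQm'⟩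
    refine ⟨m * m', C m' * Q + C m * Q', mul_ne_zero hm hm',
      Ideal.add_mem _ (Ideal.mul_mem_left _ _ hQ) (Ideal.mul_mem_left _ _ hQ'), ?_⟩
    rw [map_add, map_mul, map_mul, hQm, hQm', map_C, map_C, map_mul, C_mul]
    ring
  · rintro a x - ⟨m, Q, hm, hQ, hQm⟩
    obtain ⟨m', A, hm', hA⟩ := exists_clear_frac (S := R) a
    refine ⟨m' * m, A * Q, mul_ne_zero hm' hm, Ideal.mul_mem_left _ _ hQ, ?_⟩
    rw [map_mul, hA, hQm, map_mul, C_mul, smul_eq_mul]
    ring

theorem t23_image (R S : Type) [CommRing R] [CommRing S] (θ : R →+* S)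
    (f : Fin c → MvPolynomial (Fin (n + 1)) R) :
    Set.range (fun k => map θ (f k)) ∪ Set.range (minor fun k => map θ (f k)) =
      (map θ) '' (Set.range f ∪ Set.range (minor f)) := by
  rw [Set.image_union, ← Set.range_comp, ← Set.range_comp]
  congr 1
  congr 1
  funext s
  exact minor_map θ f s

/-- Spreading out from the field of fractions. -/
theorem spread_generic {R K : Type} [CommRing R] [IsDomain R] [Field K] [Algebra R K]
    [IsFractionRing R K] {f : Fin c → MvPolynomial (Fin (n + 1)) R} {N : ℕ}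
    (h : ∀ i, X i ^ N ∈ Ideal.span
      (Set.range (fun k => map (algebraMap R K) (f k)) ∪
        Set.range (minor fun k => map (algebraMap R K) (f k)))) :
    ∃ m : R, m ≠ 0 ∧ ∀ i, C m * X i ^ N ∈ Ideal.span (Set.range f ∪ Set.range (minor f)) := by
  have h1 : ∀ i, ∃ m : R, m ≠ 0 ∧
      C m * X i ^ N ∈ Ideal.span (Set.range f ∪ Set.range (minor f)) := by
    intro i
    have h2 := h i
    rw [t23_image] at h2
    obtain ⟨m, Q, hm, hQ, hQm⟩ := t23_clear_span _ h2
    refine ⟨m, hm, ?_⟩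
    have h3 : Q = C m * X i ^ N := by
      apply map_injective (algebraMap R K) (FaithfulSMul.algebraMap_injective R K)
      rw [hQm, map_mul, map_C, map_pow, map_X]
    rw [← h3]
    exact hQ
  choose m hm hmi using h1
  refine ⟨∏ i, m i, Finset.prod_ne_zero_iff.2 fun i _ => hm i, fun i => ?_⟩
  rw [← Finset.mul_prod_erase Finset.univ m (Finset.mem_univ i), C_mul, mul_comm (C (m i)),
    mul_assoc]
  exact Ideal.mul_mem_left _ _ (hmi i)

end Pool.Agent.Lib.MP_6a3dac_ag.Sys
end
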