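import Pool.Agent.Lib.MP_6a3dac_ag.Mg.G018
import Pool.Agent.Lib.MP_6a3dac_ag.Mg.G017
import Pool.Agent.Lib.MP_6a3dac_ag.Mg.G019
import Pool.Agent.Lib.MP_6a3dac_ag.Mg.G020
import Pool.Agent.Lib.MP_6a3dac_ag.Bert.Local
import Pool.Agent.Lib.MP_6a3dac_ag.Mg.G014

section

/-!
# Nondegenerate double points
-/

set_option autoImplicit false

namespace Pool.Agent.Lib.MP_6a3dac_ag.Fam

open MvPolynomial CategoryTheory Limits AlgebraicGeometry NumberField IsDedekindDomain Filter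
open IsLocalRing Topology
open Pool.Agent.Lib.MP_6a3dac_ag.DNF Pool.Agent.Lib.MP_6a3dac_ag.Bert
open Pool.Agent.Lib.MP_6a3dac_ag.Maj

/-- The image of an ideal generated by `𝔞` and `S` if `𝔞` is mapped to zero. -/
theorem fc4_span {B D : Type} [CommRing B] [CommRing D] (φ₀ : B →+* D) (L : Subring D)
    (hL : ∀ q, φ₀ q ∈ L) {𝔞 : Ideal B} (h0 : ∀ f ∈ 𝔞, φ₀ f = 0) {S : Set B} {x : B}
    (hx : x ∈ 𝔞 ⊔ Ideal.span S) : φ₀ x ∈ Submodule.span L (φ₀ '' S) := by
  obtain ⟨f, hf, w, hw, rfl⟩ := Submodule.mem_sup.mp hx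
  rw [map_add, h0 f hf, zero_add]
  clear hx
  induction hw using Submodule.span_induction with
  | mem x hx => exact Submodule.subset_span ⟨x, hx, rfl⟩
  | zero => rw [map_zero]; exact Submodule.zero_mem _
  | add x y _ _ hx hy => rw [map_add]; exact Submodule.add_mem _ hx hy
  | smul c x _ hx =>
    rw [smul_eq_mul, map_mul]
    exact Submodule.smul_mem _ (⟨φ₀ c, hL c⟩ : L) hx

theorem fc4_unit {D : Type} [CommRing D] {L : Subring D} (hdom : Dom L) {N : Submodule L D}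
    {u z : D} (hu : IsUnit u) (huL : u ∈ L) (h : u * z ∈ N) : z ∈ N := by
  obtain ⟨y, hy⟩ := hu.exists_right_inv
  have hyL : y ∈ L := hdom _ huL _ hy
  have h1 : z = y * (u * z) := by rw [← mul_assoc, mul_comm y, hy, one_mul]
  rw [h1]
  exact N.smul_mem (⟨y, hyL⟩ : L) h

/-- The exponents for finitely many elements. -/
theorem fc4_pow {B : Type} [CommRing B] {𝔟 : Ideal B} {h : B} {S : Set B}
    (hS : ∀ x ∈ S, ∃ k : ℕ, h ^ k * x ∈ 𝔟) {w : B} (hw : w ∈ Ideal.span S) :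
    ∃ k : ℕ, h ^ k * w ∈ 𝔟 := by
  induction hw using Submodule.span_induction with
  | mem x hx => exact hS x hx
  | zero => exact ⟨0, by rw [mul_zero]; exact 𝔟.zero_mem⟩
  | add x y _ _ hx hy =>
    obtain ⟨k, hk⟩ := hx
    obtain ⟨l, hl⟩ := hy
    refine ⟨k + l, ?_⟩
    have h1 : h ^ (k + l) * (x + y) = h ^ l * (h ^ k * x) + h ^ k * (h ^ l * y) := by ring
    rw [h1]
    exact 𝔟.add_mem (𝔟.mul_mem_left _ hk) (𝔟.mul_mem_left _ hl)
  | smul c x _ hx =>
    obtain ⟨k, hk⟩ := hx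
    refine ⟨k, ?_⟩
    rw [smul_eq_mul, mul_left_comm]
    exact 𝔟.mul_mem_left _ hk

section D

variable {E : Type} [Field E] [NumberField E] {m c : ℕ} {J : HomIdeal (𝓞 E) (m + c + 1)}

section Point

variable {p : HomIdeal E (m + c + 1)} (hgen : GenFibreSmooth J)
  (hLD : ∀ i, LocDom (dId (bc (algebraMap (𝓞 E) E) J) i))
  (hp : p.ideal ∈ (bc (algebraMap (𝓞 E) E) J).ideal.minimalPrimes)
  (P : HeightOneSpectrum (𝓞 E)) {i : Fin (m + c + 1)} (hi : X i ∉ p.ideal) {D : Type} [CommRing D]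
  [IsDomain D] [IsLocalRing D]
  (φ : MvPolynomial {l : Fin (m + c + 1) // l ≠ i} (locRing E P) →+* D)
  (hφ : ∀ q, φ q = 0 ↔ MvPolynomial.map (algebraMap (locRing E P) E) q ∈ dId p i)
include hgen hLD hp hi hφ

/-- TASK C4 -/
theorem regular_of_nodal_fam (hN : NodalOver P J)
    {G : Finset (MvPolynomial (Fin (m + c + 1)) (𝓞 E))}
    (hG1 : ∀ (U : Std (𝓞 E) {l : Fin (m + c + 1) // l ≠ i})
        (F : MvPolynomial {l : Fin (m + c + 1) // l ≠ i} (𝓞 E)), IsPres (dId J i) U F →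
        U.T.card = m + 1 → ∀ g ∈ G, ∃ k, U.h ^ k * dehom i g ∈
          dId J i ⊔ Ideal.span {x | ∃ e ∈ U.T, x = U.vf e F})
    (hG2 : ∀ (U : Std (𝓞 E) {l : Fin (m + c + 1) // l ≠ i})
        (F : MvPolynomial {l : Fin (m + c + 1) // l ≠ i} (𝓞 E)), IsPres (dId J i) U F →
        U.T.card = m + 1 → ∀ e ∈ U.T, ∃ k, U.h ^ k * U.vf e F ∈
          dId J i ⊔ Ideal.span (dehom i '' (G : Set (MvPolynomial (Fin (m + c + 1)) (𝓞 E)))))
    {m₁ : 𝓞 E} (hm₁ : C m₁ ∈
      dId J i ⊔ Ideal.span (dehom i '' (G : Set (MvPolynomial (Fin (m + c + 1)) (𝓞 E)))))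
    {ϖ : locRing E P} (hϖ : Irreducible ϖ) {r : ℕ} {u : locRing E P}
    (hu : IsUnit u) (hur : u * algebraMap (𝓞 E) (locRing E P) m₁ = ϖ ^ r)
    (b : ℕ → D)
    (hb : ∀ j, 1 ≤ j → j ≤ r → b j ≠ 0 ∧ b j ∣ φ (C ϖ) ^ j ∧
      (∀ g ∈ G, b j ∣ φ (MvPolynomial.map (algebraMap (𝓞 E) (locRing E P)) (dehom i g))) ∧
      b j ∈ Submodule.span (locIn φ) (insert (φ (C ϖ) ^ j)
        ((fun g => φ (MvPolynomial.map (algebraMap (𝓞 E) (locRing E P)) (dehom i g))) ''
          (G : Set _))))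
    (hgen' : ∀ R' : Subring D, Dom R' → locIn φ ≤ R' →
      (∀ j, 1 ≤ j → j ≤ r → ∀ w, (b j * w = φ (C ϖ) ^ j ∨ ∃ g ∈ G,
        b j * w = φ (MvPolynomial.map (algebraMap (𝓞 E) (locRing E P)) (dehom i g))) →
          w ∈ R') → R' = ⊤) :
    IsRegularLocalRing D := by
  classical
  have _ := hu
  obtain ⟨θ, hθ⟩ : ∃ θ, θ = algebraMap (𝓞 E) (locRing E P) := ⟨_, rfl⟩
  obtain ⟨φ₀, hφ₀⟩ : ∃ φ₀ : MvPolynomial {l : Fin (m + c + 1) // l ≠ i} (𝓞 E) →+* D,
    φ₀ = φ.comp (MvPolynomial.map (algebraMap (𝓞 E) (locRing E P))) := ⟨_, rfl⟩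
  have hφ₀a : ∀ f, φ (MvPolynomial.map θ f) = φ₀ f := fun f => by rw [hφ₀, hθ]; rfl
  rw [← hθ] at hur hb hgen'
  simp only [hφ₀a] at hb hgen'
  have hmapE : ∀ f : MvPolynomial {l : Fin (m + c + 1) // l ≠ i} (𝓞 E),
      MvPolynomial.map (algebraMap (locRing E P) E) (MvPolynomial.map θ f) =
        MvPolynomial.map (algebraMap (𝓞 E) E) f := by
    intro f
    rw [hθ, MvPolynomial.map_map, ← IsScalarTower.algebraMap_eq]
  have hprime : p.ideal.IsPrime := hp.1.1
  have hdp : (dId p i).IsPrime := isPrime_dId p hprime hi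
  -- the kernel
  have hker0 : ∀ f ∈ dId J i, φ₀ f = 0 := by
    intro f hf
    rw [← hφ₀a, hφ, hmapE]
    have h1 : MvPolynomial.map (algebraMap (𝓞 E) E) f ∈ dId (bc (algebraMap (𝓞 E) E) J) i := by
      rw [dId_bc]
      exact Ideal.mem_map_of_mem _ hf
    exact dId_mono hp.1.2 h1
  -- the point
  obtain ⟨𝔮, h𝔮⟩ : ∃ 𝔮, 𝔮 = Ideal.comap φ₀ (maximalIdeal D) := ⟨_, rfl⟩
  have h𝔮p : 𝔮.IsPrime := by rw [h𝔮]; exact Ideal.IsPrime.comap φ₀
  have hmem : ∀ f, f ∈ 𝔮 ↔ φ₀ f ∈ maximalIdeal D := fun f => by rw [h𝔮, Ideal.mem_comap]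
  have hun : ∀ f, f ∉ 𝔮 ↔ IsUnit (φ₀ f) := by
    intro f
    rw [hmem, IsLocalRing.mem_maximalIdeal, mem_nonunits_iff, not_not]
  have hJ𝔮 : dId J i ≤ 𝔮 := fun f hf => by rw [hmem, hker0 f hf]; exact Ideal.zero_mem _
  -- the chart
  have hNod : NodalPt m (dId J i) 𝔮 := by
    by_cases h0 : ∀ z : 𝓞 E, C z ∈ 𝔮 → z = 0
    · obtain ⟨U, F, h1, h2, h3, h4⟩ := hgen i 𝔮 h𝔮p hJ𝔮 h0
      exact ⟨U, F, h1, h2, h3, Or.inl h4⟩
    · push Not at h0
      obtain ⟨z, hz, hz0⟩ := h0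
      have hcP : ∀ c : 𝓞 E, C c ∈ 𝔮 → c ∈ P.asIdeal := by
        intro c hc
        by_contra hcP
        rw [hmem, ← hφ₀a, MvPolynomial.map_C, IsLocalRing.mem_maximalIdeal] at hc
        rw [hθ] at hc
        exact hc (((IsLocalization.map_units (locRing E P)
          (⟨c, hcP⟩ : P.asIdeal.primeCompl)).map C).map φ)
      have hcomapprime : (Ideal.comap (C : 𝓞 E →+* _) 𝔮).IsPrime := Ideal.IsPrime.comap _
      have hne : Ideal.comap (C : 𝓞 E →+* _) 𝔮 ≠ ⊥ := by
        intro h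
        have : z ∈ Ideal.comap (C : 𝓞 E →+* _) 𝔮 := hz
        rw [h] at this
        exact hz0 this
      have hmax : (Ideal.comap (C : 𝓞 E →+* _) 𝔮).IsMaximal := hcomapprime.isMaximal hne
      have heq : Ideal.comap (C : 𝓞 E →+* _) 𝔮 = P.asIdeal :=
        hmax.eq_of_le P.isPrime.ne_top hcP
      refine hN i 𝔮 h𝔮p hJ𝔮 ?_
      rw [Ideal.map_le_iff_le_comap, heq]
  obtain ⟨U, F, hU, hT, hUh, hUcase⟩ := hNod
  have hF0 : φ₀ F = 0 := hker0 _ hU.memF
  have hhu : IsUnit (φ₀ U.h) := (hun _).mp hUh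
  have hsu : IsUnit (φ₀ U.s) := by
    have h1 := hhu
    rw [Std.h, map_mul] at h1
    exact isUnit_of_mul_isUnit_left h1
  have hΔu : IsUnit (φ₀ U.Δ) := by
    have h1 := hhu
    rw [Std.h, map_mul] at h1
    exact isUnit_of_mul_isUnit_right h1
  have hφloc : ∀ q, φ q ∈ locIn φ := map_mem_locIn φ
  have hφ₀loc : ∀ q, φ₀ q ∈ locIn φ := fun q => by rw [← hφ₀a]; exact hφloc _
  have hdomL : Dom (locIn φ) := dom_locIn φ
  have himage : φ₀ '' {x | ∃ e ∈ U.T, x = U.vf e F} = {z | ∃ e ∈ U.T, z = φ₀ (U.vf e F)} := by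
    ext z
    constructor
    · rintro ⟨_, ⟨e, he, rfl⟩, rfl⟩
      exact ⟨e, he, rfl⟩
    · rintro ⟨e, he, rfl⟩
      exact ⟨_, ⟨e, he, rfl⟩, rfl⟩
  have himage2 : φ₀ '' (dehom i '' (G : Set (MvPolynomial (Fin (m + c + 1)) (𝓞 E)))) =
      (fun g => φ₀ (dehom i g)) '' (G : Set _) := by
    rw [Set.image_image]
  -- comparison of the ideals
  have hc1 : ∀ g ∈ G, φ₀ (dehom i g) ∈
      Submodule.span (locIn φ) {z | ∃ e ∈ U.T, z = φ₀ (U.vf e F)} := by
    intro g hg
    obtain ⟨k, hk⟩ := hG1 U F hU hT g hg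
    have h1 := fc4_span φ₀ (locIn φ) hφ₀loc hker0 hk
    rw [himage, map_mul, map_pow] at h1
    exact fc4_unit hdomL (hhu.pow k) ((locIn φ).pow_mem (hφ₀loc _) _) h1
  have hc2 : ∀ e ∈ U.T, φ₀ (U.vf e F) ∈
      Submodule.span (locIn φ) ((fun g => φ₀ (dehom i g)) '' (G : Set _)) := by
    intro e he
    obtain ⟨k, hk⟩ := hG2 U F hU hT e he
    have h1 := fc4_span φ₀ (locIn φ) hφ₀loc hker0 hk
    rw [himage2, map_mul, map_pow] at h1
    exact fc4_unit hdomL (hhu.pow k) ((locIn φ).pow_mem (hφ₀loc _) _) h1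
  have hspan : ∀ j, Submodule.span (locIn φ) (insert (φ (C ϖ) ^ j)
      ((fun g => φ₀ (dehom i g)) '' (G : Set _))) = Submodule.span (locIn φ)
        (insert (φ (C ϖ) ^ j) {z | ∃ e ∈ U.T, z = φ₀ (U.vf e F)}) := by
    intro j
    apply le_antisymm
    · rw [Submodule.span_le, Set.insert_subset_iff]
      refine ⟨Submodule.subset_span (Set.mem_insert _ _), ?_⟩
      rintro _ ⟨g, hg, rfl⟩
      exact Submodule.span_mono (Set.subset_insert _ _) (hc1 g hg)
    · rw [Submodule.span_le, Set.insert_subset_iff]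
      refine ⟨Submodule.subset_span (Set.mem_insert _ _), ?_⟩
      rintro _ ⟨e, he, rfl⟩
      exact Submodule.span_mono (Set.subset_insert _ _) (hc2 e he)
  -- divisibility of the elements of the span
  have hdvd : ∀ j, 1 ≤ j → j ≤ r → ∀ x ∈ Submodule.span (locIn φ) (insert (φ (C ϖ) ^ j)
      {z | ∃ e ∈ U.T, z = φ₀ (U.vf e F)}), b j ∣ x := by
    intro j hj1 hj2 x hx
    rw [← hspan] at hx
    obtain ⟨-, a2, a3, -⟩ := hb j hj1 hj2
    induction hx using Submodule.span_induction with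
    | mem x hx =>
      rcases hx with rfl | ⟨g, hg, rfl⟩
      · exact a2
      · exact a3 g hg
    | zero => exact dvd_zero _
    | add x y _ _ hx hy => exact dvd_add hx hy
    | smul c x _ hx => exact Dvd.dvd.mul_left hx (c : D)
  have hvfmem : ∀ j, ∀ e ∈ U.T, φ₀ (U.vf e F) ∈ Submodule.span (locIn φ)
      (insert (φ (C ϖ) ^ j) {z | ∃ e ∈ U.T, z = φ₀ (U.vf e F)}) := fun j e he =>
    Submodule.subset_span (Or.inr ⟨e, he, rfl⟩)
  by_cases hcase : ∃ e ∈ U.T, IsUnit (φ₀ (U.vf e F))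
  · -- the blow-up is an isomorphism
    obtain ⟨e, he, heu⟩ := hcase
    refine regular_of_top_fam hgen hLD hp P hi φ hφ (Or.inl ?_) ?_
    · rw [← hφ₀, ← h𝔮]
      exact ⟨U, F, hU, hT, hUh, e, he, (hun _).mpr heu⟩
    · refine hgen' (locIn φ) hdomL le_rfl fun j hj1 hj2 w hw => ?_
      have hbu : IsUnit (b j) := isUnit_of_dvd_unit (hdvd j hj1 hj2 _ (hvfmem j e he)) heu
      have hbL : b j ∈ locIn φ := by
        obtain ⟨-, -, -, a4⟩ := hb j hj1 hj2
        generalize b j = x at a4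
        induction a4 using Submodule.span_induction with
        | mem x hx =>
          rcases hx with rfl | ⟨g, hg, rfl⟩
          · exact (locIn φ).pow_mem (hφloc _) _
          · exact hφ₀loc _
        | zero => exact (locIn φ).zero_mem
        | add x y _ _ hx hy => exact (locIn φ).add_mem hx hy
        | smul c x _ hx => exact (locIn φ).mul_mem c.2 hx
      obtain ⟨y, hy⟩ := hbu.exists_right_inv
      have hyL : y ∈ locIn φ := hdomL _ hbL _ hy
      have hxL : b j * w ∈ locIn φ := by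
        rcases hw with hw | ⟨g, hg, hw⟩
        · rw [hw]; exact (locIn φ).pow_mem (hφloc _) _
        · rw [hw]; exact hφ₀loc _
      have h6 : w = y * (b j * w) := by
        rw [← mul_assoc, mul_comm y, hy, one_mul]
      rw [h6]
      exact (locIn φ).mul_mem hyL hxL
  · -- the double point
    push Not at hcase
    have hcrit : ∀ e ∈ U.T, U.vf e F ∈ 𝔮 := by
      intro e he
      by_contra hcon
      exact hcase e he ((hun _).mp hcon)
    have hdet0 : (U.hess F).det ∉ 𝔮 := by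
      rcases hUcase with ⟨e, he, h1⟩ | h1
      · exact absurd (hcrit e he) h1
      · exact h1
    have hvf𝔮 : dId J i ⊔ Ideal.span {x | ∃ e ∈ U.T, x = U.vf e F} ≤ 𝔮 := by
      rw [sup_le_iff, Ideal.span_le]
      refine ⟨hJ𝔮, ?_⟩
      rintro _ ⟨e, he, rfl⟩
      exact hcrit e he
    -- the constants
    have hmq : C m₁ ∈ 𝔮 := by
      have h2 : dId J i ⊔ Ideal.span (dehom i '' (G : Set (MvPolynomial (Fin (m + c + 1)) (𝓞 E)))) ≤
          𝔮 := by
        rw [sup_le_iff, Ideal.span_le]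
        refine ⟨hJ𝔮, ?_⟩
        rintro _ ⟨g, hg, rfl⟩
        obtain ⟨k, hk⟩ := hG1 U F hU hT g hg
        exact (h𝔮p.mem_or_mem (hvf𝔮 hk)).resolve_left fun h3 => hUh (h𝔮p.mem_of_pow_mem _ h3)
      exact h2 hm₁
    have hpmr : φ (C ϖ) ^ r ∈ maximalIdeal D := by
      rw [← map_pow, ← map_pow, ← hur, map_mul, map_mul]
      refine Ideal.mul_mem_left _ _ ?_
      have h1 := (hmem _).mp hmq
      rwa [← hφ₀a, MvPolynomial.map_C] at h1
    have hpm : φ (C ϖ) ∈ maximalIdeal D :=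
      (maximalIdeal.isMaximal D).isPrime.mem_of_pow_mem r hpmr
    -- the Jacobian ideal
    obtain ⟨K, hK⟩ : ∃ K : ℕ, U.h ^ K * C m₁ ∈
        dId J i ⊔ Ideal.span {x | ∃ e ∈ U.T, x = U.vf e F} := by
      obtain ⟨f, hf, w, hw, hfw⟩ := Submodule.mem_sup.mp hm₁
      obtain ⟨k, hk⟩ := fc4_pow (h := U.h)
        (𝔟 := dId J i ⊔ Ideal.span {x | ∃ e ∈ U.T, x = U.vf e F}) (by
        rintro _ ⟨g, hg, rfl⟩
        exact hG1 U F hU hT g hg) hw
      refine ⟨k, ?_⟩
      rw [← hfw, mul_add]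
      exact Ideal.add_mem _ (Ideal.mul_mem_left _ _ (Ideal.mem_sup_left hf)) hk
    have hjac : U.s * (U.h ^ K * C m₁) ∈ Ideal.span (insert F
        (Set.range U.g ∪ {x | ∃ e ∈ U.T, x = U.vf e F})) := by
      obtain ⟨f, hf, w, hw, hfw⟩ := Submodule.mem_sup.mp hK
      rw [← hfw, mul_add]
      refine Ideal.add_mem _ ?_ ?_
      · refine Ideal.span_mono ?_ (hU.le f hf)
        rintro x (rfl | hx)
        · exact Or.inl rfl
        · exact Or.inr (Or.inl hx)
      · refine Ideal.mul_mem_left _ _ (Ideal.span_mono ?_ hw)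
        intro x hx
        exact Or.inr (Or.inr hx)
    have hvf : ∀ e, φ ((U.map θ).vf e (MvPolynomial.map θ F)) = φ₀ (U.vf e F) := by
      intro e
      rw [Std.map_vfL, hφ₀a]
    have hset : {z | ∃ e ∈ (U.map θ).T, z = φ ((U.map θ).vf e (MvPolynomial.map θ F))} =
        {z | ∃ e ∈ U.T, z = φ₀ (U.vf e F)} := by
      simp only [hvf]
      rfl
    refine isRegularLocalRing_std (U.map θ) (F := MvPolynomial.map θ F) φ hϖ ?_ ?_ ?_ ?_ ?_
      hpm ?_ ?_ (t := MvPolynomial.map θ (U.s * U.h ^ K)) (r := r) ?_ ?_ b ?_ ?_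
    · intro κ
      change φ (MvPolynomial.map θ (U.g κ)) = 0
      rw [hφ₀a]
      exact hker0 _ (hU.mem κ)
    · rw [hφ₀a]; exact hF0
    · rw [Std.map_ΔL, hφ₀a]; exact hΔu
    · intro q hq
      obtain ⟨z, hz1, hz2⟩ := exists_ker_fam hLD hp P hi ((hφ q).mp hq)
      rw [← hθ] at hz2
      refine ⟨MvPolynomial.map θ U.s * z, ?_, ?_⟩
      · rw [map_mul, hφ₀a]
        refine mul_ne_zero hsu.ne_zero fun h0 => hz1 ((hφ z).mp h0)
      · rw [mul_assoc]
        exact (hU.map θ).le _ hz2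
    · intro c hc h0
      rw [hφ, MvPolynomial.map_C] at h0
      have hc0 : algebraMap (locRing E P) E c ≠ 0 := by
        intro h1
        exact hc (FaithfulSMul.algebraMap_injective (locRing E P) E (by rw [h1, map_zero]))
      have h2 := Ideal.mul_mem_left _ (C (algebraMap (locRing E P) E c)⁻¹) h0
      rw [← C_mul, inv_mul_cancel₀ hc0, C_1] at h2
      exact hdp.ne_top ((Ideal.eq_top_iff_one _).mpr h2)
    · intro e he
      rw [hvf]
      exact (hmem _).mp (hcrit e he)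
    · rw [Std.map_hessL, hφ₀a]
      exact (hun _).mp hdet0
    · rw [hφ₀a, map_mul, map_pow]
      exact hsu.mul (hhu.pow K)
    · have h1 : MvPolynomial.map θ (U.s * U.h ^ K) * C ϖ ^ r =
          C u * MvPolynomial.map θ (U.s * (U.h ^ K * C m₁)) := by
        rw [← map_pow C, ← hur, map_mul, map_mul, map_mul, map_mul, MvPolynomial.map_C]
        ring
      rw [h1]
      refine Ideal.mul_mem_left _ _ ?_
      have h2 := Ideal.mem_map_of_mem (MvPolynomial.map θ) hjac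
      rw [Ideal.map_span] at h2
      refine Ideal.span_mono ?_ h2
      rintro _ ⟨x, (rfl | ⟨κ, rfl⟩ | ⟨e, he, rfl⟩), rfl⟩
      · exact Or.inl rfl
      · exact Or.inr (Or.inl ⟨κ, rfl⟩)
      · exact Or.inr (Or.inr ⟨e, he, (Std.map_vfL U θ e _).symm⟩)
    · intro j hj1 hj2
      obtain ⟨a1, a2, a3, a4⟩ := hb j hj1 hj2
      refine ⟨a1, a2, ?_, ?_⟩
      · intro e he
        rw [hvf]
        exact hdvd j hj1 hj2 _ (hvfmem j e he)
      · rw [hset, ← hspan]
        exact a4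
    · intro R' hR1 hR2 hR3
      rw [hset] at hR3
      refine hgen' R' hR1 hR2 fun j hj1 hj2 w hw => ?_
      refine hR3 j hj1 hj2 (b j * w) ?_ w rfl
      rw [← hspan]
      rcases hw with hw | ⟨g, hg, hw⟩
      · rw [hw]
        exact Submodule.subset_span (Set.mem_insert _ _)
      · rw [hw]
        exact Submodule.subset_span (Or.inr ⟨g, hg, rfl⟩)

end Point

end D

end Pool.Agent.Lib.MP_6a3dac_ag.Fam
end

section

/-!
# The local criterion, over a set of primes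
-/

set_option autoImplicit false

namespace Pool.Agent.Lib.MP_6a3dac_ag.Fam

open MvPolynomial CategoryTheory Limits AlgebraicGeometry NumberField IsDedekindDomain Filter
open IsLocalRing Topology
open Pool.Agent.Lib.MP_6a3dac_ag.DNF Pool.Agent.Lib.MP_6a3dac_ag.Bert
open Pool.Agent.Lib.MP_6a3dac_ag.Maj

section D

variable {E : Type} [Field E] [NumberField E] {m c : ℕ} {J : HomIdeal (𝓞 E) (m + c + 1)}

/-- The local criterion at the primes of a set `T`, for a component. -/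
theorem modelOn_component_fam {p : HomIdeal E (m + c + 1)}
    (hLD : ∀ i, LocDom (dId (bc (algebraMap (𝓞 E) E) J) i))
    (hp : p.ideal ∈ (bc (algebraMap (𝓞 E) E) J).ideal.minimalPrimes)
    (hgen : GenFibreSmooth J) {T : Set (HeightOneSpectrum (𝓞 E))} (hT0 : T.Nonempty)
    (hP : ∀ P ∈ T, TanOver P J ∨ NodalOver P J) :
    ModelOn E T (hProjTo p) := by
  classical
  obtain ⟨δ, G, hδ, hGδ, hG1, hG2⟩ := exists_jacForms J
  obtain ⟨m₁, hm0, hm⟩ := exists_const hgen hG2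
  have hprime : p.ideal.IsPrime := hp.1.1
  have : IsDomain (HCoord p) := Ideal.Quotient.isDomain p.ideal
  let _ : Algebra (𝓞 E) (HCoord p) := ((algebraMap E (HCoord p)).comp (algebraMap (𝓞 E) E)).toAlgebra
  have : IsScalarTower (𝓞 E) E (HCoord p) := IsScalarTower.of_algebraMap_eq fun _ => rfl
  have hRf : ¬ IsField (𝓞 E) := RingOfIntegers.not_isField E
  choose ϖ hϖ using fun P : HeightOneSpectrum (𝓞 E) => exists_unif (K := E) P
  have hϖ0 : ∀ P, ϖ P ≠ 0 := fun P h0 => (hϖ P).ne_zero (by rw [h0, map_zero])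
  choose rr u hu1 hu2 hr0 using fun P : HeightOneSpectrum (𝓞 E) => exists_exponent P hm0 (hϖ P)
  -- the exponents
  obtain ⟨r, hr⟩ : ∃ r : HeightOneSpectrum (𝓞 E) → ℕ, ∀ P, (TanOver P J → r P = 0) ∧
      (¬ TanOver P J → r P = rr P) :=
    ⟨fun P => if TanOver P J then 0 else rr P, fun P => ⟨fun h => if_pos h, fun h => if_neg h⟩⟩
  have hdeg : ∀ (S : Type) [CommRing S] [Algebra S E] (q : MvPolynomial (Fin (m + c + 1)) S) e,
      q.IsHomogeneous e → piS (hMk p) S q ∈ hGr p e := fun S _ _ q e hq =>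
    ⟨_, hq.map _, rfl⟩
  have hoA : ∀ P : HeightOneSpectrum (𝓞 E), oA E (HCoord p) (locRing E P)
      (algebraMap (𝓞 E) (locRing E P) (ϖ P)) = algebraMap (𝓞 E) (HCoord p) (ϖ P) := fun P =>
    oA_algebraMap (K := E) (O := locRing E P) (ϖ P)
  have hxP : ∀ P : HeightOneSpectrum (𝓞 E), (fun k => piS (hMk p) (locRing E P) (X k)) =
      fun k => hMk p (X k) := fun P => funext fun k => piS_X (hMk p) _ k
  -- the forms over the local rings
  obtain ⟨GP, hGP⟩ : ∃ GP : ∀ P : HeightOneSpectrum (𝓞 E),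
      Finset (MvPolynomial (Fin (m + c + 1)) (locRing E P)), ∀ P,
      GP P = G.image (MvPolynomial.map (algebraMap (𝓞 E) (locRing E P))) := ⟨_, fun _ => rfl⟩
  have hGPδ : ∀ P, ∀ g ∈ GP P, g.IsHomogeneous δ := by
    intro P g hg
    rw [hGP, Finset.mem_image] at hg
    obtain ⟨g, hg, rfl⟩ := hg
    exact (hGδ g hg).map _
  have hO := fun P : HeightOneSpectrum (𝓞 E) => orderHypB (R := 𝓞 E) (K := E) P.asIdeal
    (𝒜 := hGr p) (π := piS (hMk p) (locRing E P)) (hdeg _) (fun c => piS_C (hMk p) _ c) hδ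
    (hGPδ P) (algebraMap (𝓞 E) (locRing E P) (ϖ P)) (r P)
  have hLG : LocalGens (R := 𝓞 E) (hGr p) (fun P => DNF.WSet (fun k => hMk p (X k))
      (oset (piS (hMk p) (locRing E P)) δ (GP P) (algebraMap (𝓞 E) (HCoord p) (ϖ P))) (r P) ∪
        DNF.W1Set (fun k => hMk p (X k)) (algebraMap (𝓞 E) (HCoord p) (ϖ P)) (r P))
        (Set.range fun k => hMk p (X k)) :=
    { finite := fun P => (DNF.finite_WSet (fun j => finite_oset _ _ _ _ j) _).union
        (DNF.finite_W1Set _)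
      finite₀ := Set.finite_range _
      ae := by
        refine (finite_mem_prime hm0).subset ?_
        intro P hP'
        by_contra hdp
        apply hP'
        have h1 : r P = 0 := by
          by_cases h : TanOver P J
          · exact (hr P).1 h
          · rw [(hr P).2 h]
            exact hr0 P hdp
        change DNF.WSet (fun k => hMk p (X k)) (oset (piS (hMk p) (locRing E P)) δ (GP P)
          (algebraMap (𝓞 E) (HCoord p) (ϖ P))) (r P) ∪
          DNF.W1Set (fun k => hMk p (X k)) (algebraMap (𝓞 E) (HCoord p) (ϖ P)) (r P) = _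
        rw [h1, WSet_zero, W1Set_zero, Set.union_self]
      homog := by
        intro P w hw
        have hOP := hO P
        rw [hxP, hoA] at hOP
        rcases hw with hw | ⟨i, rfl⟩
        · exact ⟨_, Nat.succ_pos _, hOP.W_deg hw⟩
        · refine ⟨1, one_pos, ?_⟩
          have := SetLike.mul_mem_graded hOP.theta_deg (hOP.xdeg i)
          simpa using this
      full := fun P a => full_order (hMk p) (adjoin_hMk p) (hϖ0 P) (r P) a
      full₀ := fun a => by
        have := full_order (hMk p) (adjoin_hMk p) (B := fun _ => ∅) (one_ne_zero (α := 𝓞 E)) 0 a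
        rwa [WSet_zero, W1Set_zero, Set.union_self] at this }
  have hnt : Nontrivial (HCoord p) := inferInstance
  refine exists_model_on (hGr p) hLG hRf hT0 fun P hPT => ?_
  intro hS y hy hyh hirr
  let F := FractionRing (HCoord p)
  let ι : HCoord p →+* F := algebraMap (HCoord p) F
  have hι : Function.Injective ι := IsFractionRing.injective (HCoord p) F
  apply isRegularLocalRing_of_homLoc (hGr p) ι _ y hι hS
  have hOK : Function.Injective (algebraMap (locRing E P) E) :=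
    FaithfulSMul.algebraMap_injective _ E
  have hrel : ∃ k, 0 < k ∧ ∃ t : localOrder (fun P => DNF.WSet (fun k => hMk p (X k))
      (oset (piS (hMk p) (locRing E P)) δ (GP P) (algebraMap (𝓞 E) (HCoord p) (ϖ P))) (r P) ∪
        DNF.W1Set (fun k => hMk p (X k)) (algebraMap (𝓞 E) (HCoord p) (ϖ P)) (r P)) P,
      (t : HCoord p) ∈ hGr p k ∧ t ∉ y := by
    by_contra hcon
    push Not at hcon
    apply hirr
    rw [HomogeneousIdeal.toIdeal_irrelevant_le]
    intro i hi s hs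
    exact hcon i hi s hs
  have hT : localOrder (fun P => DNF.WSet (fun k => hMk p (X k))
      (oset (piS (hMk p) (locRing E P)) δ (GP P) (algebraMap (𝓞 E) (HCoord p) (ϖ P))) (r P) ∪
        DNF.W1Set (fun k => hMk p (X k)) (algebraMap (𝓞 E) (HCoord p) (ϖ P)) (r P)) P =
      locSub P.asIdeal (Algebra.adjoin (𝓞 E)
        (DNF.WSet (fun k => piS (hMk p) (locRing E P) (X k))
          (oset (piS (hMk p) (locRing E P)) δ (GP P) (oA E (HCoord p) (locRing E P)
            (algebraMap (𝓞 E) (locRing E P) (ϖ P)))) (r P) ∪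
        DNF.W1Set (fun k => piS (hMk p) (locRing E P) (X k)) (oA E (HCoord p) (locRing E P)
            (algebraMap (𝓞 E) (locRing E P) (ϖ P))) (r P))) := by
    rw [hxP, hoA]
    rfl
  have hlocD := isLocalRing_homLoc (hGr p) ι _ y hι
  obtain ⟨i, φ, b, h1, h2, h3, h4⟩ := exists_chartPoint (R := 𝓞 E) (K := E) hOK P.asIdeal
    (𝒜 := hGr p) (π := piS (hMk p) (locRing E P)) (hdeg _) (fun c => piS_C (hMk p) _ c) hδ
    (hGPδ P) ι hι (algebraMap (𝓞 E) (locRing E P) (ϖ P)) (r P) hT y hy hrel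
  have hi : X i ∉ p.ideal := by
    intro h5
    apply h1
    rw [piS_X, hMk_eq_zero]
    exact h5
  have hφ : ∀ q, φ q = 0 ↔ MvPolynomial.map (algebraMap (locRing E P) E) q ∈ dId p i := by
    intro q
    obtain ⟨N, g, hg, rfl⟩ := exists_homog i q
    rw [h2 N g hg, piS_apply, hMk_eq_zero, map_dehom', dehom_mem_iff p hprime hi (hg.map _)]
  have hpimage : ∀ w, (∃ g ∈ GP P, w = φ (dehom i g)) ↔ ∃ g ∈ G,
      w = φ (MvPolynomial.map (algebraMap (𝓞 E) (locRing E P)) (dehom i g)) := by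
    intro w
    rw [hGP]
    constructor
    · rintro ⟨g, hg, rfl⟩
      obtain ⟨g', hg', rfl⟩ := Finset.mem_image.mp hg
      exact ⟨g', hg', by rw [map_dehom']⟩
    · rintro ⟨g, hg, rfl⟩
      exact ⟨_, Finset.mem_image_of_mem _ hg, by rw [map_dehom']⟩
  by_cases hPt : TanOver P J
  · refine regular_of_tanOver hgen hLD hp P hi φ hφ hPt ?_
    have hr0' : r P = 0 := (hr P).1 hPt
    exact h4 _ (dom_locIn φ) le_rfl fun j hj1 hj2 => by omega
  · have hN := (hP P hPT).resolve_left hPt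
    have hrP : r P = rr P := (hr P).2 hPt
    refine regular_of_nodal_fam hgen hLD hp P hi φ hφ hN (hG1 i) (hG2 i) (hm i) (hϖ P) (r := r P)
      (hu1 P) (by rw [hrP]; exact hu2 P) b ?_ ?_
    · intro j hj1 hj2
      obtain ⟨a1, a2, a3, a4⟩ := h3 j hj1 hj2
      refine ⟨a1, a2, ?_, ?_⟩
      · intro g hg
        obtain ⟨g', hg', h5⟩ := (hpimage _).mpr ⟨g, hg, rfl⟩
        rw [h5]
        exact a3 g' hg'
      · have h5 : ((fun g => φ (MvPolynomial.map (algebraMap (𝓞 E) (locRing E P)) (dehom i g))) ''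
          (G : Set (MvPolynomial (Fin (m + c + 1)) (𝓞 E)))) =
            ((fun g => φ (dehom i g)) '' (GP P : Set _)) := by
          ext w
          constructor
          · rintro ⟨g, hg, rfl⟩
            obtain ⟨g', hg', h5⟩ := (hpimage _).mpr ⟨g, hg, rfl⟩
            exact ⟨g', hg', h5.symm⟩
          · rintro ⟨g, hg, rfl⟩
            obtain ⟨g', hg', h5⟩ := (hpimage _).mp ⟨g, hg, rfl⟩
            exact ⟨g', hg', h5.symm⟩
        rw [h5]
        exact a4
    · intro R' hR1 hR2 hR3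
      refine h4 R' hR1 hR2 fun j hj1 hj2 w hw => hR3 j hj1 hj2 w ?_
      rcases hw with hw | ⟨g, hg, hw⟩
      · exact Or.inl hw
      · obtain ⟨g', hg', h5⟩ := (hpimage _).mp ⟨g, hg, rfl⟩
        exact Or.inr ⟨g', hg', hw.trans h5⟩

end D

end Pool.Agent.Lib.MP_6a3dac_ag.Fam
end
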