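import Pool.Agent.Lib.MP_6a3dac_ag.Fam.Defs
import Pool.Agent.Lib.MP_6a3dac_ag.Mg.G013
import Pool.Agent.Lib.MP_6a3dac_ag.Bert.Alg
import Pool.Agent.Lib.MP_6a3dac_ag.Fam.S0
import Pool.Agent.Lib.MP_6a3dac_ag.Blow.Defs

section

/-!
# Coprime elements of ideals
-/

set_option autoImplicit false

namespace Pool.Agent.Lib.MP_6a3dac_ag.Fam

open MvPolynomial NumberField
open Pool.Agent.Lib.MP_6a3dac_ag.DNF Pool.Agent.Lib.MP_6a3dac_ag.Bert

/-- clearing denominators -/
theorem fs4_clear {E : Type} [Field E] [NumberField E] {M : Type} (q : MvPolynomial M E) :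
    ∃ c : 𝓞 E, c ≠ 0 ∧ ∃ q' : MvPolynomial M (𝓞 E),
      MvPolynomial.map (algebraMap (𝓞 E) E) q' = C (algebraMap (𝓞 E) E c) * q := by
  induction q using MvPolynomial.induction_on with
  | C a =>
    obtain ⟨x, y, hy, hxy⟩ := IsFractionRing.div_surjective (A := 𝓞 E) a
    refine ⟨y, nonZeroDivisors.ne_zero hy, C x, ?_⟩
    have hy0 : algebraMap (𝓞 E) E y ≠ 0 := by
      intro h
      exact nonZeroDivisors.ne_zero hy ((map_eq_zero_iff _
        (FaithfulSMul.algebraMap_injective (𝓞 E) E)).1 h)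
    rw [map_C, ← C_mul, ← hxy, mul_div_cancel₀ _ hy0]
  | add p q hp hq =>
    obtain ⟨c, hc, p', hp'⟩ := hp
    obtain ⟨c', hc', q', hq'⟩ := hq
    refine ⟨c * c', mul_ne_zero hc hc', C c' * p' + C c * q', ?_⟩
    rw [map_add, map_mul, map_mul, hp', hq', map_C, map_C, map_mul, C_mul]
    ring
  | mul_X p i hp =>
    obtain ⟨c, hc, p', hp'⟩ := hp
    refine ⟨c, hc, p' * X i, ?_⟩
    rw [map_mul, hp', map_X, mul_assoc]

theorem fs4_unit {E : Type} [Field E] [NumberField E] {M : Type} {c : 𝓞 E} (hc : c ≠ 0) :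
    IsUnit (C (algebraMap (𝓞 E) E c) : MvPolynomial M E) := by
  have h : algebraMap (𝓞 E) E c ≠ 0 := fun h =>
    hc ((map_eq_zero_iff _ (FaithfulSMul.algebraMap_injective (𝓞 E) E)).1 h)
  exact (IsUnit.mk0 _ h).map C

/-- TASK S4 -/
theorem exists_coprime_pair {E : Type} [Field E] [NumberField E] {ι κ : Type} [Finite ι]
    [Finite κ] (𝔞 : κ → Ideal (MvPolynomial ι (𝓞 E)))
    (h : ∀ (k : κ) (p : MvPolynomial ι (𝓞 E)),
      (p = 0 ∨ Irreducible (MvPolynomial.map (algebraMap (𝓞 E) E) p)) →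
        ∃ f ∈ 𝔞 k, ¬ MvPolynomial.map (algebraMap (𝓞 E) E) p ∣
          MvPolynomial.map (algebraMap (𝓞 E) E) f) :
    ∃ g G : MvPolynomial ι (𝓞 E), (∀ k, g ∈ 𝔞 k ∧ G ∈ 𝔞 k) ∧
      IsRelPrime (MvPolynomial.map (algebraMap (𝓞 E) E) g)
        (MvPolynomial.map (algebraMap (𝓞 E) E) G) := by
  classical
  cases nonempty_fintype κ
  set m : MvPolynomial ι (𝓞 E) →+* MvPolynomial ι E := MvPolynomial.map (algebraMap (𝓞 E) E)
    with hm
  set 𝔟 : Ideal (MvPolynomial ι (𝓞 E)) := Finset.univ.inf 𝔞 with h𝔟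
  have hb : ∀ f, f ∈ 𝔟 ↔ ∀ k, f ∈ 𝔞 k := by
    intro f
    rw [h𝔟, Submodule.mem_finsetInf]
    simp
  -- the prime ideals of the elements divisible by `q`
  have key : ∀ q : MvPolynomial ι E, (q = 0 ∨ Irreducible q) →
      ¬ 𝔟 ≤ Ideal.comap m (Ideal.span {q}) := by
    intro q hq hle
    have hqp : (Ideal.span {q}).IsPrime := by
      rcases hq with rfl | hq
      · rw [Ideal.span_singleton_zero]
        exact Ideal.isPrime_bot
      · exact (Ideal.span_singleton_prime hq.ne_zero).2 hq.prime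
    have hcp : (Ideal.comap m (Ideal.span {q})).IsPrime := hqp.comap m
    obtain ⟨k, -, hk⟩ := (Ideal.IsPrime.inf_le' hcp).1 hle
    obtain ⟨c, hc, q', hq'⟩ := fs4_clear q
    have hass : Associated q (m q') := by
      rw [hm, hq']
      exact (associated_unit_mul_left q _ (fs4_unit hc)).symm
    have hq'' : q' = 0 ∨ Irreducible (m q') := by
      rcases hq with rfl | hq
      · left
        rw [mul_zero] at hq'
        exact (map_eq_zero_iff m
          (MvPolynomial.map_injective _ (FaithfulSMul.algebraMap_injective (𝓞 E) E))).1 hq'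
      · right
        exact hass.irreducible hq
    obtain ⟨f, hf, hnd⟩ := h k q' hq''
    have h1 := hk hf
    rw [Ideal.mem_comap, Ideal.mem_span_singleton] at h1
    exact hnd (hass.symm.dvd.trans h1)
  obtain ⟨g, hg, hg0⟩ := SetLike.not_le_iff_exists.1 (key 0 (Or.inl rfl))
  have hg0' : m g ≠ 0 := by
    intro h0
    apply hg0
    rw [Ideal.mem_comap, h0]
    exact Ideal.zero_mem _
  set S : Finset (MvPolynomial ι E) := (UniqueFactorizationMonoid.factors (m g)).toFinset with hS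
  have hSi : ∀ q ∈ S, Irreducible q := fun q hq =>
    UniqueFactorizationMonoid.irreducible_of_factor q (Multiset.mem_toFinset.1 hq)
  have hex : ∃ G ∈ 𝔟, ∀ q ∈ S, ¬ q ∣ m G := by
    by_contra hcon
    push Not at hcon
    have hsub : (𝔟 : Set (MvPolynomial ι (𝓞 E))) ⊆
        ⋃ q ∈ (S : Set (MvPolynomial ι E)), (Ideal.comap m (Ideal.span {q}) : Set _) := by
      intro G hG
      obtain ⟨q, hq, hd⟩ := hcon G hG
      refine Set.mem_biUnion (Finset.mem_coe.2 hq) ?_
      rw [SetLike.mem_coe, Ideal.mem_comap, Ideal.mem_span_singleton]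
      exact hd
    rw [Ideal.subset_union_prime 0 0] at hsub
    · obtain ⟨q, hq, hle⟩ := hsub
      exact key q (Or.inr (hSi q hq)) hle
    · intro q hq _ _
      have := (Ideal.span_singleton_prime (hSi q hq).ne_zero).2 (hSi q hq).prime
      exact this.comap m
  obtain ⟨G, hG, hGS⟩ := hex
  refine ⟨g, G, fun k => ⟨(hb g).1 hg k, (hb G).1 hG k⟩, ?_⟩
  intro d hdg hdG
  by_contra hdu
  have hd0 : d ≠ 0 := fun h0 => hg0' (zero_dvd_iff.1 (h0 ▸ hdg))
  obtain ⟨q0, hq0, hq0d⟩ := WfDvdMonoid.exists_irreducible_factor hdu hd0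
  obtain ⟨q, hq, hass⟩ := UniqueFactorizationMonoid.exists_mem_factors_of_dvd hg0' hq0
    (hq0d.trans hdg)
  exact hGS q (Multiset.mem_toFinset.2 hq) (hass.symm.dvd.trans (hq0d.trans hdG))

/-- TASK S4 (b): a prime ideal below a principal prime ideal. -/
theorem exists_principal {E : Type} [Field E] [NumberField E] {ι : Type} [Finite ι]
    (𝔭 : Ideal (MvPolynomial ι (𝓞 E))) (h𝔭 : 𝔭.IsPrime) {p : MvPolynomial ι (𝓞 E)}
    (hp : p = 0 ∨ Irreducible (MvPolynomial.map (algebraMap (𝓞 E) E) p))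
    (hle : ∀ f ∈ 𝔭, MvPolynomial.map (algebraMap (𝓞 E) E) p ∣
      MvPolynomial.map (algebraMap (𝓞 E) E) f) :
    ∃ p' ∈ 𝔭, ∀ f ∈ 𝔭, ∃ z : 𝓞 E, z ≠ 0 ∧ p' ∣ C z * f := by
  classical
  have hinj : Function.Injective (MvPolynomial.map (σ := ι) (algebraMap (𝓞 E) E)) :=
    MvPolynomial.map_injective _ (FaithfulSMul.algebraMap_injective (𝓞 E) E)
  by_cases hbot : 𝔭 = ⊥
  · refine ⟨0, 𝔭.zero_mem, fun f hf => ⟨1, one_ne_zero, ?_⟩⟩
    rw [hbot, Ideal.mem_bot] at hf
    rw [hf, mul_zero]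
  obtain ⟨f, hf, hf0⟩ := Submodule.exists_mem_ne_zero_of_ne_bot hbot
  have hmf : MvPolynomial.map (algebraMap (𝓞 E) E) f ≠ 0 := fun h0 =>
    hf0 (hinj (h0.trans (map_zero _).symm))
  have hpirr : Irreducible (MvPolynomial.map (algebraMap (𝓞 E) E) p) := by
    rcases hp with rfl | hp
    · exfalso
      have := hle f hf
      rw [map_zero, zero_dvd_iff] at this
      exact hmf this
    · exact hp
  have hpp : p ∈ 𝔭 := by
    obtain ⟨a, h, hndvd, hfac⟩ := WfDvdMonoid.max_power_factor hmf hpirr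
    obtain ⟨c, hc, h', hh'⟩ := fs4_clear h
    have h1 : C c * f = p ^ a * h' := by
      apply hinj
      rw [map_mul, map_mul, map_pow, map_C, hh', hfac]
      ring
    have h2 : p ^ a * h' ∈ 𝔭 := by
      rw [← h1]
      exact Ideal.mul_mem_left _ _ hf
    rcases h𝔭.mem_or_mem h2 with h3 | h3
    · exact h𝔭.mem_of_pow_mem _ h3
    · exfalso
      have h4 := hle _ h3
      rw [hh'] at h4
      exact hndvd ((fs4_unit hc).dvd_mul_left.1 h4)
  refine ⟨p, hpp, fun f hf => ?_⟩
  obtain ⟨h, hh⟩ := hle f hf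
  obtain ⟨c, hc, h', hh'⟩ := fs4_clear h
  refine ⟨c, hc, h', ?_⟩
  apply hinj
  rw [map_mul, map_mul, map_C, hh', hh]
  ring

end Pool.Agent.Lib.MP_6a3dac_ag.Fam
end

section

/-!
# Critical points of the universal form
-/

set_option autoImplicit false

namespace Pool.Agent.Lib.MP_6a3dac_ag.Fam

open MvPolynomial NumberField
open Pool.Agent.Lib.MP_6a3dac_ag.DNF Pool.Agent.Lib.MP_6a3dac_ag.Bert

/-- The chain rule. -/
private theorem fs2_chain {R σ L : Type} [CommRing R] [Fintype σ] [DecidableEq σ] [Field L]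
    (φ : MvPolynomial σ R →+* L) (D : Derivation ℤ L L) (hD : ∀ a, D (φ (C a)) = 0)
    (p : MvPolynomial σ R) : D (φ p) = ∑ l, D (φ (X l)) * φ (pderiv l p) := by
  induction p using MvPolynomial.induction_on with
  | C a =>
    rw [hD a]
    symm
    apply Finset.sum_eq_zero
    intro l _
    rw [pderiv_C, map_zero, mul_zero]
  | add p q hp hq =>
    rw [map_add, map_add, hp, hq, ← Finset.sum_add_distrib]
    refine Finset.sum_congr rfl fun l _ => ?_
    rw [map_add, map_add, mul_add]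
  | mul_X p i hp =>
    rw [map_mul, Derivation.leibniz, smul_eq_mul, smul_eq_mul, hp]
    have h1 : ∀ l, D (φ (X l)) * φ (pderiv l (p * X i)) =
        φ (X i) * (D (φ (X l)) * φ (pderiv l p)) +
          (if l = i then φ p * D (φ (X i)) else 0) := by
      intro l
      rw [Derivation.leibniz, smul_eq_mul, smul_eq_mul, map_add, map_mul, map_mul, pderiv_X]
      split_ifs with h
      · subst h
        rw [Pi.single_eq_same, map_one]
        ring
      · rw [Pi.single_eq_of_ne (Ne.symm h), map_zero]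
        ring
    rw [Finset.sum_congr rfl fun l _ => h1 l, Finset.sum_add_distrib, ← Finset.mul_sum,
      Finset.sum_ite_eq' Finset.univ i, if_pos (Finset.mem_univ i)]
    ring

private theorem fs2_cramer {R σ L : Type} [CommRing R] [Fintype σ] [DecidableEq σ] [Field L]
    (U : Std R σ) (φ : MvPolynomial σ R →+* L) (hg : ∀ κ, φ (U.g κ) = 0)
    (D : Derivation ℤ L L) (hD : ∀ a, D (φ (C a)) = 0) (p : MvPolynomial σ R) :
    φ U.Δ * D (φ p) = ∑ e ∈ U.T, D (φ (X e)) * φ (U.vf e p) := by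
  have hw : ∀ κ, ∑ l, D (φ (X l)) * φ (pderiv l (U.g κ)) = 0 := by
    intro κ
    rw [← fs2_chain φ D hD, hg κ, map_zero]
  rw [fs2_chain φ D hD p]
  exact U.cramer φ (fun l => D (φ (X l))) hw p

/-- The derivative of a sum `∑ τ μ * φ (f μ) = 0`. -/
private theorem fs2_der {R σ L : Type} [CommRing R] [Fintype σ] [DecidableEq σ] [Field L]
    (U : Std R σ) (φ : MvPolynomial σ R →+* L) (hg : ∀ κ, φ (U.g κ) = 0)
    {M : Type} [Fintype M] (f : M → MvPolynomial σ R) (τ w : M → L)
    (D : Derivation ℤ L L) (hD : ∀ a, D (φ (C a)) = 0) (hτ : ∀ μ, D (τ μ) = w μ)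
    (hz : ∑ μ, τ μ * φ (f μ) = 0) :
    ∑ e ∈ U.T, D (φ (X e)) * (∑ μ, τ μ * φ (U.vf e (f μ))) +
      φ U.Δ * ∑ μ, w μ * φ (f μ) = 0 := by
  have h1 := congrArg D hz
  rw [map_zero, map_sum] at h1
  have h2 : ∀ μ, φ U.Δ * D (τ μ * φ (f μ)) =
      (∑ e ∈ U.T, D (φ (X e)) * (τ μ * φ (U.vf e (f μ)))) + φ U.Δ * (w μ * φ (f μ)) := by
    intro μ
    rw [Derivation.leibniz, smul_eq_mul, smul_eq_mul, hτ μ, mul_add]
    have h3 := fs2_cramer U φ hg D hD (f μ)
    have h4 : ∑ e ∈ U.T, D (φ (X e)) * (τ μ * φ (U.vf e (f μ))) =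
        τ μ * ∑ e ∈ U.T, D (φ (X e)) * φ (U.vf e (f μ)) := by
      rw [Finset.mul_sum]
      refine Finset.sum_congr rfl fun e _ => ?_
      ring
    rw [h4, ← h3]
    ring
  have h5 : ∑ μ, φ U.Δ * D (τ μ * φ (f μ)) = 0 := by
    rw [← Finset.mul_sum, h1, mul_zero]
  rw [Finset.sum_congr rfl fun μ _ => h2 μ, Finset.sum_add_distrib, Finset.sum_comm,
    ← Finset.mul_sum] at h5
  rw [← h5]
  congr 1
  refine Finset.sum_congr rfl fun e _ => ?_
  rw [Finset.mul_sum]

/-- TASK S2 -/
theorem crit_of_der {R σ L : Type} [CommRing R] [Fintype σ] [DecidableEq σ] [Field L]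
    (U : Std R σ) (φ : MvPolynomial σ R →+* L) (hg : ∀ κ, φ (U.g κ) = 0) (hΔ : φ U.Δ ≠ 0)
    {M : Type} [Fintype M] (mon : M → MvPolynomial σ R) {μ₀ : M} (h0 : mon μ₀ = 1)
    {μ₁ : U.T → M} (h1 : ∀ e, mon (μ₁ e) = X e.1) (τ ζ : M → L)
    (hder : ∀ w : M → L, ∑ μ, ζ μ * w μ = 0 → ∃ D : Derivation ℤ L L,
      (∀ a, D (φ (C a)) = 0) ∧ ∀ μ, D (τ μ) = w μ)
    (hz0 : ∑ μ, τ μ * φ (mon μ) = 0)
    (hz1 : ∀ e ∈ U.T, ∑ μ, τ μ * φ (U.vf e (mon μ)) = 0) :
    ζ ≠ 0 ∧ (Matrix.of fun e e' : U.T =>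
      ∑ μ, τ μ * φ (U.vf e.1 (U.vf e'.1 (mon μ)))).det ≠ 0 := by
  classical
  have hψ0 : φ (mon μ₀) = 1 := by rw [h0, map_one]
  -- the kernel of `ζ` is contained in the kernel of `ψ`
  have hker : ∀ w : M → L, ∑ μ, ζ μ * w μ = 0 → ∑ μ, w μ * φ (mon μ) = 0 := by
    intro w hw
    obtain ⟨D, hD, hτ⟩ := hder w hw
    have h := fs2_der U φ hg mon τ w D hD hτ hz0
    rw [Finset.sum_eq_zero fun e he => by rw [hz1 e he, mul_zero], zero_add] at h
    exact (mul_eq_zero.1 h).resolve_left hΔ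
  have hζ : ζ ≠ 0 := by
    intro hζ
    have h := hker (Pi.single μ₀ 1) (by
      apply Finset.sum_eq_zero
      intro μ _
      rw [hζ, Pi.zero_apply, zero_mul])
    rw [Finset.sum_eq_single μ₀ (fun μ _ hμ => by rw [Pi.single_eq_of_ne hμ, zero_mul])
      (fun h => absurd (Finset.mem_univ _) h), Pi.single_eq_same, one_mul, hψ0] at h
    exact one_ne_zero h
  obtain ⟨μ₂, hμ₂⟩ : ∃ μ₂, ζ μ₂ ≠ 0 := by
    by_contra hcon
    push Not at hcon
    exact hζ (funext hcon)
  -- `ψ` is a multiple of `ζ`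
  have hmul : ∀ w : M → L, ∑ μ, w μ * φ (mon μ) =
      (∑ μ, ζ μ * w μ) / ζ μ₂ * φ (mon μ₂) := by
    intro w
    set t := (∑ μ, ζ μ * w μ) / ζ μ₂ with ht
    have h := hker (fun μ => w μ - Pi.single (M := fun _ => L) μ₂ t μ) (by
      have h2 : ∑ μ, ζ μ * Pi.single (M := fun _ => L) μ₂ t μ = ζ μ₂ * t := by
        rw [Finset.sum_eq_single μ₂ (fun μ _ hμ => by rw [Pi.single_eq_of_ne hμ, mul_zero])
          (fun h => absurd (Finset.mem_univ _) h), Pi.single_eq_same]
      simp only [mul_sub, Finset.sum_sub_distrib]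
      rw [h2, ht, mul_div_cancel₀ _ hμ₂, sub_self])
    have h3 : ∑ μ, Pi.single (M := fun _ => L) μ₂ t μ * φ (mon μ) = t * φ (mon μ₂) := by
      rw [Finset.sum_eq_single μ₂ (fun μ _ hμ => by rw [Pi.single_eq_of_ne hμ, zero_mul])
        (fun h => absurd (Finset.mem_univ _) h), Pi.single_eq_same]
    simp only [sub_mul, Finset.sum_sub_distrib] at h
    rw [h3] at h
    exact sub_eq_zero.1 h
  have hψ2 : φ (mon μ₂) ≠ 0 := by
    intro h
    have h2 := hmul (Pi.single μ₀ 1)
    rw [h, mul_zero, Finset.sum_eq_single μ₀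
      (fun μ _ hμ => by rw [Pi.single_eq_of_ne hμ, zero_mul])
      (fun h => absurd (Finset.mem_univ _) h), Pi.single_eq_same, one_mul, hψ0] at h2
    exact one_ne_zero h2
  have hker' : ∀ w : M → L, ∑ μ, w μ * φ (mon μ) = 0 → ∑ μ, ζ μ * w μ = 0 := by
    intro w hw
    rw [hmul w] at hw
    have h := (mul_eq_zero.1 hw).resolve_right hψ2
    exact (div_eq_zero_iff.1 h).resolve_right hμ₂
  refine ⟨hζ, fun hdet => ?_⟩
  obtain ⟨u, hu, hu'⟩ := Matrix.exists_mulVec_eq_zero_iff.2 hdet
  have hu2 : ∀ e : U.T, ∑ e' : U.T, (∑ μ, τ μ * φ (U.vf e.1 (U.vf e'.1 (mon μ)))) * u e' = 0 := by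
    intro e
    exact congrFun hu' e
  -- the functional `χ`
  have hχ : ∀ w : M → L, ∑ μ, w μ * φ (mon μ) = 0 →
      ∑ μ, w μ * ∑ e' : U.T, u e' * φ (U.vf e'.1 (mon μ)) = 0 := by
    intro w hw
    obtain ⟨D, hD, hτ⟩ := hder w (hker' w hw)
    have h2 : ∀ e' : U.T, ∑ e : U.T, D (φ (X e.1)) *
        (∑ μ, τ μ * φ (U.vf e.1 (U.vf e'.1 (mon μ)))) +
        φ U.Δ * ∑ μ, w μ * φ (U.vf e'.1 (mon μ)) = 0 := by
      intro e'
      have h := fs2_der U φ hg (fun μ => U.vf e'.1 (mon μ)) τ w D hD hτ (hz1 e'.1 e'.2)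
      rw [← Finset.sum_coe_sort U.T] at h
      exact h
    have h3 : ∑ e' : U.T, u e' * (∑ e : U.T, D (φ (X e.1)) *
        (∑ μ, τ μ * φ (U.vf e.1 (U.vf e'.1 (mon μ)))) +
        φ U.Δ * ∑ μ, w μ * φ (U.vf e'.1 (mon μ))) = 0 :=
      Finset.sum_eq_zero fun e' _ => by rw [h2 e', mul_zero]
    simp only [mul_add, Finset.sum_add_distrib] at h3
    have h4 : ∑ e' : U.T, u e' * ∑ e : U.T, D (φ (X e.1)) *
        (∑ μ, τ μ * φ (U.vf e.1 (U.vf e'.1 (mon μ)))) = 0 := by
      simp only [Finset.mul_sum]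
      rw [Finset.sum_comm]
      apply Finset.sum_eq_zero
      intro e _
      have h5 := congrArg (fun z => D (φ (X e.1)) * z) (hu2 e)
      simp only [mul_zero] at h5
      rw [← h5, Finset.mul_sum]
      refine Finset.sum_congr rfl fun e' _ => ?_
      rw [Finset.sum_mul, Finset.mul_sum]
      refine Finset.sum_congr rfl fun μ _ => ?_
      ring
    rw [h4, zero_add] at h3
    have h6 : ∑ e' : U.T, u e' * (φ U.Δ * ∑ μ, w μ * φ (U.vf e'.1 (mon μ))) =
        φ U.Δ * ∑ μ, w μ * ∑ e' : U.T, u e' * φ (U.vf e'.1 (mon μ)) := by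
      simp only [Finset.mul_sum]
      rw [Finset.sum_comm]
      refine Finset.sum_congr rfl fun μ _ => Finset.sum_congr rfl fun e' _ => ?_
      ring
    rw [h6] at h3
    exact (mul_eq_zero.1 h3).resolve_left hΔ
  apply hu
  funext e
  rw [Pi.zero_apply]
  have h2 := hχ (fun μ => Pi.single (M := fun _ => L) (μ₁ e) 1 μ -
      Pi.single (M := fun _ => L) μ₀ (φ (mon (μ₁ e))) μ) (by
    simp only [sub_mul, Finset.sum_sub_distrib]
    rw [Finset.sum_eq_single (μ₁ e) (fun μ _ hμ => by rw [Pi.single_eq_of_ne hμ, zero_mul])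
      (fun h => absurd (Finset.mem_univ _) h), Pi.single_eq_same,
      Finset.sum_eq_single μ₀ (fun μ _ hμ => by rw [Pi.single_eq_of_ne hμ, zero_mul])
      (fun h => absurd (Finset.mem_univ _) h), Pi.single_eq_same, hψ0]
    ring)
  simp only [sub_mul, Finset.sum_sub_distrib] at h2
  rw [Finset.sum_eq_single (μ₁ e) (fun μ _ hμ => by rw [Pi.single_eq_of_ne hμ, zero_mul])
      (fun h => absurd (Finset.mem_univ _) h), Pi.single_eq_same,
      Finset.sum_eq_single μ₀ (fun μ _ hμ => by rw [Pi.single_eq_of_ne hμ, zero_mul])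
      (fun h => absurd (Finset.mem_univ _) h), Pi.single_eq_same] at h2
  have h3 : ∑ e' : U.T, u e' * φ (U.vf e'.1 (mon μ₀)) = 0 := by
    apply Finset.sum_eq_zero
    intro e' _
    rw [h0, Derivation.map_one_eq_zero, map_zero, mul_zero]
  have h4 : ∑ e' : U.T, u e' * φ (U.vf e'.1 (mon (μ₁ e))) = u e * φ U.Δ := by
    rw [Finset.sum_eq_single e]
    · rw [h1 e, Std.vf_X U e.1 e.2, if_pos rfl]
    · intro e' _ hne
      rw [h1 e, Std.vf_X U e'.1 e.2, if_neg (fun h => hne (Subtype.ext h)), map_zero, mul_zero]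
    · intro h
      exact absurd (Finset.mem_univ _) h
  rw [h3, h4, mul_zero, sub_zero, one_mul] at h2
  exact (mul_eq_zero.1 h2).resolve_right hΔ

end Pool.Agent.Lib.MP_6a3dac_ag.Fam
end

section

/-!
# Derivations of extensions of fields of characteristic zero
-/

set_option autoImplicit false

namespace Pool.Agent.Lib.MP_6a3dac_ag.Fam

open MvPolynomial NumberField
open Pool.Agent.Lib.MP_6a3dac_ag.DNF Pool.Agent.Lib.MP_6a3dac_ag.Bert

/-- All vectors `w` with `∑ ξ w = 0` are the values of a derivation of `L` at the parameters. -/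
def DerWith {R ι L : Type} [CommRing R] [Fintype ι] [Field L] (φ : MvPolynomial ι R →+* L)
    (ξ : ι → L) : Prop :=
  ∀ w : ι → L, ∑ α, ξ α * w α = 0 → ∃ D : Derivation ℤ L L,
    (∀ r, D (φ (C r)) = 0) ∧ ∀ α, D (φ (X α)) = w α

/-- Extensions of fields of characteristic zero are formally smooth. -/
theorem fs3_smooth (K L : Type) [Field K] [Field L] [Algebra K L] [CharZero K] :
    Algebra.FormallySmooth K L := by
  obtain ⟨ι, v, hv⟩ := exists_isTranscendenceBasis' K L
  have h1 : Algebra.IsAlgebraic (IntermediateField.adjoin K (Set.range v)) L :=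
    hv.isAlgebraic_field
  have h2 : CharZero (IntermediateField.adjoin K (Set.range v)) :=
    (algebraMap K (IntermediateField.adjoin K (Set.range v))).charZero_iff
      (algebraMap K (IntermediateField.adjoin K (Set.range v))).injective |>.1 inferInstance
  have h3 : Algebra.IsSeparable (IntermediateField.adjoin K (Set.range v)) L := inferInstance
  exact Algebra.FormallySmooth.of_algebraicIndependent_of_isSeparable hv.1

/-- A homomorphism from a subring of a field `L` of characteristic zero to a square zero extension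
of `L` extends to a section. -/
theorem fs3_lift {B L T : Type} [CommRing B] [IsDomain B] [Field L] [CharZero L] [CommRing T]
    (i : B →+* L) (hi : Function.Injective i) (ψ : B →+* T) (g : T →+* L)
    (hg : Function.Surjective g) (hnil : ∀ x y, g x = 0 → g y = 0 → x * y = 0)
    (hψ : ∀ b, g (ψ b) = i b) :
    ∃ σ : L →+* T, (∀ x, g (σ x) = x) ∧ ∀ b, σ (i b) = ψ b := by
  have hu : ∀ b : B, b ≠ 0 → IsUnit (ψ b) := by
    intro b hb
    have hib : i b ≠ 0 := fun h => hb (hi (h.trans (map_zero i).symm))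
    obtain ⟨t, ht⟩ := hg (i b)⁻¹
    have h1 : g (ψ b * t - 1) = 0 := by
      rw [map_sub, map_mul, hψ, ht, map_one, mul_inv_cancel₀ hib, sub_self]
    have h2 := hnil _ _ h1 h1
    refine IsUnit.of_mul_eq_one (t * (2 - ψ b * t)) ?_
    linear_combination -h2
  have hi0 : ∀ y : nonZeroDivisors B, IsUnit (i y) := fun y =>
    IsUnit.mk0 _ fun h => nonZeroDivisors.coe_ne_zero y (hi (h.trans (map_zero i).symm))
  have hψ0 : ∀ y : nonZeroDivisors B, IsUnit (ψ y) := fun y =>
    hu _ (nonZeroDivisors.coe_ne_zero y)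
  let aL : Algebra (FractionRing B) L := (IsLocalization.lift (S := FractionRing B) hi0).toAlgebra
  let aT : Algebra (FractionRing B) T := (IsLocalization.lift (S := FractionRing B) hψ0).toAlgebra
  have : CharZero (FractionRing B) := (algebraMap (FractionRing B) L).charZero
  have : Algebra.FormallySmooth (FractionRing B) L := fs3_smooth _ _
  have hcomm : ∀ x : FractionRing B, g (algebraMap (FractionRing B) T x)
      = algebraMap (FractionRing B) L x := by
    have h3 : g.comp (algebraMap (FractionRing B) T) = algebraMap (FractionRing B) L := by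
      apply IsLocalization.ringHom_ext (nonZeroDivisors B)
      ext b
      show g (IsLocalization.lift hψ0 (algebraMap B (FractionRing B) b))
        = IsLocalization.lift hi0 (algebraMap B (FractionRing B) b)
      rw [IsLocalization.lift_eq, IsLocalization.lift_eq, hψ]
    intro x
    exact congrArg (fun f : FractionRing B →+* L => f x) h3
  let gA : T →ₐ[FractionRing B] L := { g with commutes' := hcomm }
  have hnil' : IsNilpotent (RingHom.ker (gA : T →+* L)) := by
    refine ⟨2, ?_⟩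
    rw [pow_two, Submodule.zero_eq_bot, eq_bot_iff, Ideal.mul_le]
    intro x hx y hy
    rw [Ideal.mem_bot]
    exact hnil x y hx hy
  let σ := Algebra.FormallySmooth.liftOfSurjective (AlgHom.id (FractionRing B) L) gA hg hnil'
  refine ⟨σ, fun x => Algebra.FormallySmooth.liftOfSurjective_apply _ gA hg hnil' x, fun b => ?_⟩
  have h4 : i b = algebraMap (FractionRing B) L (algebraMap B (FractionRing B) b) :=
    (IsLocalization.lift_eq hi0 b).symm
  have h5 : ψ b = algebraMap (FractionRing B) T (algebraMap B (FractionRing B) b) :=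
    (IsLocalization.lift_eq hψ0 b).symm
  rw [h4, h5]
  exact σ.commutes _

/-- TASK S3 -/
theorem exists_derWith {R ι L : Type} [CommRing R] [Fintype ι] [Field L] [CharZero L]
    (φ : MvPolynomial ι R →+* L) {p : MvPolynomial ι R} (hp : φ p = 0)
    (hker : ∀ f, φ f = 0 → ∃ r : R, φ (C r) ≠ 0 ∧ p ∣ C r * f) :
    DerWith φ fun α => φ (pderiv α p) := by
  intro w hw
  -- the homomorphism to the dual numbers
  let ψ₀ : MvPolynomial ι R →+* TrivSqZeroExt L L :=
    eval₂Hom ((TrivSqZeroExt.inlHom L L).comp (φ.comp C))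
      fun α => TrivSqZeroExt.inl (φ (X α)) + TrivSqZeroExt.inr (w α)
  have hC : ∀ r, ψ₀ (C r) = TrivSqZeroExt.inl (φ (C r)) := fun r => by
    simp [ψ₀]
  have hX : ∀ α, ψ₀ (X α) = TrivSqZeroExt.inl (φ (X α)) + TrivSqZeroExt.inr (w α) := fun α => by
    simp [ψ₀]
  have hfst : ∀ f, (ψ₀ f).fst = φ f := by
    intro f
    induction f using MvPolynomial.induction_on with
    | C a => rw [hC, TrivSqZeroExt.fst_inl]
    | add f g hf hg => rw [map_add, map_add, TrivSqZeroExt.fst_add, hf, hg]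
    | mul_X f α hf =>
      rw [map_mul, map_mul, TrivSqZeroExt.fst_mul, hf, hX]
      simp
  have hsnd : ∀ f, (ψ₀ f).snd = ∑ α, w α * φ (pderiv α f) := by
    classical
    intro f
    induction f using MvPolynomial.induction_on with
    | C a => rw [hC, TrivSqZeroExt.snd_inl]; simp
    | add f g hf hg =>
      rw [map_add, TrivSqZeroExt.snd_add, hf, hg, ← Finset.sum_add_distrib]
      refine Finset.sum_congr rfl fun α _ => ?_
      rw [map_add, map_add, mul_add]
    | mul_X f β hf =>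
      rw [map_mul, TrivSqZeroExt.snd_mul, hf, hfst, hX]
      have h1 : ∀ α, w α * φ (pderiv α (f * X β))
          = φ (X β) * (w α * φ (pderiv α f)) + if α = β then φ f * w α else 0 := by
        intro α
        rw [Derivation.leibniz, pderiv_X, map_add, smul_eq_mul, smul_eq_mul, map_mul, map_mul]
        by_cases h : α = β
        · subst h
          rw [Pi.single_eq_same, map_one, if_pos rfl]
          ring
        · rw [Pi.single_eq_of_ne (Ne.symm h), map_zero, if_neg h]
          ring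
      simp only [h1, Finset.sum_add_distrib, Finset.sum_ite_eq', Finset.mem_univ, if_true,
        ← Finset.mul_sum]
      simp
      ring
  -- it kills the kernel
  have hk : ∀ f, f ∈ RingHom.ker φ → ψ₀ f = 0 := by
    intro f hf
    have hf0 : φ f = 0 := hf
    obtain ⟨r, hr, h, hrh⟩ := hker f hf0
    refine TrivSqZeroExt.ext ?_ ?_
    · rw [hfst, hf0, TrivSqZeroExt.fst_zero]
    · rw [TrivSqZeroExt.snd_zero]
      have h1 := congrArg (fun x => (ψ₀ x).snd) hrh
      have h2 : (ψ₀ p).snd = 0 := by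
        rw [hsnd, ← hw]
        exact Finset.sum_congr rfl fun α _ => mul_comm _ _
      have h3 : (ψ₀ (C r)).snd = 0 := by rw [hC, TrivSqZeroExt.snd_inl]
      simp only [map_mul, TrivSqZeroExt.snd_mul, hfst, hf0, hp, h2, h3, zero_smul, smul_zero,
        add_zero, MulOpposite.op_zero] at h1
      rw [smul_eq_mul] at h1
      exact (mul_eq_zero.1 h1).resolve_left hr
  have : IsDomain (MvPolynomial ι R ⧸ RingHom.ker φ) :=
    (Ideal.Quotient.isDomain_iff_prime _).2 (RingHom.ker_isPrime φ)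
  obtain ⟨σ, hσ1, hσ2⟩ := fs3_lift (RingHom.kerLift φ) (RingHom.kerLift_injective φ)
    (Ideal.Quotient.lift (RingHom.ker φ) ψ₀ hk) (TrivSqZeroExt.fstHom ℤ L L).toRingHom
    (fun x => ⟨TrivSqZeroExt.inl x, rfl⟩)
    (fun x y hx hy => by
      have hx' : x.fst = 0 := hx
      have hy' : y.fst = 0 := hy
      refine TrivSqZeroExt.ext ?_ ?_
      · rw [TrivSqZeroExt.fst_mul, hx', zero_mul, TrivSqZeroExt.fst_zero]
      · rw [TrivSqZeroExt.snd_mul, hx', hy', TrivSqZeroExt.snd_zero]
        simp)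
    (fun b => by
      obtain ⟨f, rfl⟩ := Ideal.Quotient.mk_surjective b
      rw [Ideal.Quotient.lift_mk, RingHom.kerLift_mk]
      exact hfst f)
  have hσ1' : ∀ x, (σ x).fst = x := hσ1
  have hσ3 : ∀ f, σ (φ f) = ψ₀ f := by
    intro f
    have := hσ2 (Ideal.Quotient.mk _ f)
    rwa [Ideal.Quotient.lift_mk, RingHom.kerLift_mk] at this
  refine ⟨Derivation.mk' (AddMonoidHom.toIntLinearMap
    { toFun := fun x => (σ x).snd
      map_zero' := by rw [map_zero, TrivSqZeroExt.snd_zero]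
      map_add' := fun x y => by rw [map_add, TrivSqZeroExt.snd_add] }) ?_, ?_, ?_⟩
  · intro x y
    show (σ (x * y)).snd = x • (σ y).snd + y • (σ x).snd
    rw [map_mul, TrivSqZeroExt.snd_mul, hσ1', hσ1']
    simp [mul_comm]
  · intro r
    show (σ (φ (C r))).snd = 0
    rw [hσ3, hC, TrivSqZeroExt.snd_inl]
  · intro α
    show (σ (φ (X α))).snd = w α
    rw [hσ3, hX]
    simp

end Pool.Agent.Lib.MP_6a3dac_ag.Fam
end

section

/-!
# Independent rows
-/

set_option autoImplicit false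

namespace Pool.Agent.Lib.MP_6a3dac_ag.Fam

open MvPolynomial NumberField
open Pool.Agent.Lib.MP_6a3dac_ag.DNF Pool.Agent.Lib.MP_6a3dac_ag.Bert

/-- The chain rule for a derivation that kills the coefficients. -/
lemma fs5a_chain {R ι σ L : Type} [CommRing R] [Field L] [Fintype σ]
    (φ : MvPolynomial σ (MvPolynomial ι R) →+* L) (D : Derivation ℤ L L)
    (hD : ∀ r, D (φ (C (C r))) = 0) (q : MvPolynomial σ R) :
    D (φ (MvPolynomial.map C q)) =
      ∑ l, D (φ (X l)) * φ (MvPolynomial.map C (pderiv l q)) := by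
  classical
  induction q using MvPolynomial.induction_on with
  | C r =>
    rw [map_C, hD]
    symm
    apply Finset.sum_eq_zero
    intro l _
    rw [pderiv_C, map_zero, map_zero, mul_zero]
  | add p q hp hq =>
    rw [map_add, map_add, map_add, hp, hq, ← Finset.sum_add_distrib]
    apply Finset.sum_congr rfl
    intro l _
    rw [map_add, map_add, map_add, mul_add]
  | mul_X p j hp =>
    have hX : ∑ l, D (φ (X l)) * (φ (MvPolynomial.map C p) *
        φ (MvPolynomial.map C (pderiv l (X j : MvPolynomial σ R)))) =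
        φ (MvPolynomial.map C p) * D (φ (X j)) := by
      rw [Finset.sum_eq_single j]
      · rw [pderiv_X_self, map_one, map_one, mul_one, mul_comm]
      · intro l _ hl
        rw [pderiv_X_of_ne (Ne.symm hl), map_zero, map_zero, mul_zero, mul_zero]
      · intro h
        exact absurd (Finset.mem_univ j) h
    rw [map_mul, map_mul, Derivation.leibniz, hp, map_X, smul_eq_mul, smul_eq_mul, ← hX,
      Finset.mul_sum, ← Finset.sum_add_distrib]
    apply Finset.sum_congr rfl
    intro l _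
    rw [Derivation.leibniz, smul_eq_mul, smul_eq_mul, map_add, map_add, map_mul, map_mul,
      map_mul, map_mul, map_X]
    ring

/-- A functional that vanishes on the kernel of another one is proportional to it. -/
lemma fs5a_cross {ι L : Type} [Fintype ι] [Field L] {ξ ψ : ι → L}
    (h : ∀ w : ι → L, ∑ α, ξ α * w α = 0 → ∑ α, ψ α * w α = 0) (α β : ι) :
    ψ α * ξ β = ψ β * ξ α := by
  classical
  have key : ∀ χ : ι → L, ∑ γ, χ γ * ((Pi.single α (ξ β) : ι → L) γ - (Pi.single β (ξ α) : ι → L) γ) =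
      χ α * ξ β - χ β * ξ α := by
    intro χ
    simp only [mul_sub, Finset.sum_sub_distrib, Pi.single_apply, mul_ite, mul_zero]
    simp
  have h1 := h (fun γ => (Pi.single α (ξ β) : ι → L) γ - (Pi.single β (ξ α) : ι → L) γ) (by rw [key ξ]; ring)
  rw [key ψ] at h1
  exact sub_eq_zero.1 h1

/-- TASK S5a -/
theorem exists_indep_rows {R L : Type} [CommRing R] [Field L] {n r : ℕ} (hr : 1 ≤ r)
    {d : Fin r → ℕ} (hd : ∀ k, 1 ≤ d k) {i : Fin (n + 1)}
    (φ : MvPolynomial {l : Fin (n + 1) // l ≠ i} (MvPolynomial (Σ k, Mono n (d k)) R) →+* L)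
    (hF : ∀ k, φ (dehom i (uForm R d k)) = 0) {ξ : (Σ k, Mono n (d k)) → L}
    (hξ : DerWith (φ.comp C) ξ) (U : Std R {l : Fin (n + 1) // l ≠ i})
    (hg : ∀ κ, φ (MvPolynomial.map C (U.g κ)) = 0) :
    ∃ k₀ : Fin r, ∀ (y : Fin r → L) (z : {l : {l : Fin (n + 1) // l ≠ i} // l ∉ U.T} → L),
      y k₀ = 0 → (∀ l, ∑ k, y k * φ (pderiv l (dehom i (uForm R d k))) +
        ∑ κ, z κ * φ (MvPolynomial.map C (pderiv l (U.g κ))) = 0) → y = 0 := by
  classical
  choose mon μ₀ μ₁ hm0 hm1 hdeh using fun k => exists_monos (hd k) i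
  -- the values of the monomials
  set m : (Σ k, Mono n (d k)) → L := fun α =>
    φ (MvPolynomial.map (Int.castRingHom (MvPolynomial (Σ k, Mono n (d k)) R)) (mon α.1 α.2))
    with hm
  have hmone : ∀ k, m ⟨k, μ₀ k⟩ = 1 := by
    intro k
    simp only [hm]
    rw [hm0, map_one, map_one]
  have hFk : ∀ k, dehom i (uForm R d k) = ∑ μ, C (X ⟨k, μ⟩) *
      MvPolynomial.map (Int.castRingHom (MvPolynomial (Σ k, Mono n (d k)) R)) (mon k μ) :=
    fun k => hdeh k _ _
  have hcast : (Int.castRingHom (MvPolynomial (Σ k, Mono n (d k)) R)) =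
      (C : R →+* MvPolynomial (Σ k, Mono n (d k)) R).comp (Int.castRingHom R) :=
    RingHom.ext_int _ _
  -- the main identity
  have hmain : ∀ (y : Fin r → L) (z : {l : {l : Fin (n + 1) // l ≠ i} // l ∉ U.T} → L),
      (∀ l, ∑ k, y k * φ (pderiv l (dehom i (uForm R d k))) +
        ∑ κ, z κ * φ (MvPolynomial.map C (pderiv l (U.g κ))) = 0) →
      ∀ w : (Σ k, Mono n (d k)) → L, ∑ α, ξ α * w α = 0 → ∑ α, (y α.1 * m α) * w α = 0 := by
    intro y z hyz w hw
    obtain ⟨D, hD0, hDX⟩ := hξ w hw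
    have hD0' : ∀ r, D (φ (C (C r))) = 0 := hD0
    have hDX' : ∀ α, D (φ (C (X α))) = w α := hDX
    have hA : ∀ k, ∑ μ, w ⟨k, μ⟩ * m ⟨k, μ⟩ +
        ∑ l, D (φ (X l)) * φ (pderiv l (dehom i (uForm R d k))) = 0 := by
      intro k
      have h1 : D (φ (dehom i (uForm R d k))) = 0 := by rw [hF k, map_zero]
      rw [← h1]
      have h2 : ∀ μ, D (m ⟨k, μ⟩) = ∑ l, D (φ (X l)) * φ (pderiv l
          (MvPolynomial.map (Int.castRingHom (MvPolynomial (Σ k, Mono n (d k)) R)) (mon k μ))) := by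
        intro μ
        simp only [hm]
        rw [hcast, ← MvPolynomial.map_map, fs5a_chain φ D hD0']
        apply Finset.sum_congr rfl
        intro l _
        simp only [pderiv_map]
      rw [hFk k]
      simp only [map_sum, map_mul, Derivation.leibniz, smul_eq_mul, pderiv_C, add_zero,
        mul_zero, hDX']
      rw [Finset.sum_add_distrib]
      rw [add_comm]
      congr 1
      · simp only [Finset.mul_sum]
        rw [Finset.sum_comm]
        apply Finset.sum_congr rfl
        intro μ _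
        have h3 := h2 μ
        simp only [hm] at h3
        rw [h3, Finset.mul_sum]
        apply Finset.sum_congr rfl
        intro l _
        ring
      · apply Finset.sum_congr rfl
        intro μ _
        simp only [hm]
        ring
    have hB : ∀ κ, ∑ l, D (φ (X l)) * φ (MvPolynomial.map C (pderiv l (U.g κ))) = 0 := by
      intro κ
      rw [← fs5a_chain φ D hD0', hg κ, map_zero]
    have h4 : ∑ k, y k * (∑ μ, w ⟨k, μ⟩ * m ⟨k, μ⟩ +
        ∑ l, D (φ (X l)) * φ (pderiv l (dehom i (uForm R d k)))) +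
        ∑ κ, z κ * ∑ l, D (φ (X l)) * φ (MvPolynomial.map C (pderiv l (U.g κ))) = 0 := by
      simp only [hA, hB, mul_zero, Finset.sum_const_zero, add_zero]
    have h5 : ∑ k, y k * ∑ l, D (φ (X l)) * φ (pderiv l (dehom i (uForm R d k))) +
        ∑ κ, z κ * ∑ l, D (φ (X l)) * φ (MvPolynomial.map C (pderiv l (U.g κ))) = 0 := by
      simp only [Finset.mul_sum]
      rw [Finset.sum_comm, Finset.sum_comm (s := Finset.univ (α := {l // l ∉ U.T})),
        ← Finset.sum_add_distrib]
      apply Finset.sum_eq_zero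
      intro l _
      have h6 := congrArg (fun t => D (φ (X l)) * t) (hyz l)
      simp only [mul_zero] at h6
      rw [← h6, mul_add, Finset.mul_sum, Finset.mul_sum]
      congr 1
      · apply Finset.sum_congr rfl
        intro k _
        ring
      · apply Finset.sum_congr rfl
        intro κ _
        ring
    simp only [mul_add, Finset.sum_add_distrib] at h4
    rw [add_assoc, h5, add_zero] at h4
    rw [← h4, Fintype.sum_sigma]
    apply Finset.sum_congr rfl
    intro k _
    rw [Finset.mul_sum]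
    apply Finset.sum_congr rfl
    intro μ _
    ring
  by_contra hcon
  push Not at hcon
  obtain ⟨y1, z1, -, hrel1, hy1⟩ := hcon ⟨0, hr⟩
  obtain ⟨k1, hk1⟩ := Function.ne_iff.1 hy1
  obtain ⟨y2, z2, hy2k1, hrel2, hy2⟩ := hcon k1
  obtain ⟨k2, hk2⟩ := Function.ne_iff.1 hy2
  simp only [Pi.zero_apply] at hk1 hk2
  have c1 := fs5a_cross (hmain y1 z1 hrel1)
  have c2 := fs5a_cross (hmain y2 z2 hrel2)
  have h7 : ξ ⟨k1, μ₀ k1⟩ = 0 := by
    have := c2 ⟨k1, μ₀ k1⟩ ⟨k2, μ₀ k2⟩
    simp only [hmone, hy2k1, mul_one, zero_mul] at this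
    exact (mul_eq_zero.1 this.symm).resolve_left hk2
  have h8 : ∀ β, ξ β = 0 := by
    intro β
    have := c1 ⟨k1, μ₀ k1⟩ β
    rw [h7] at this
    simp only [hmone, mul_one, mul_zero] at this
    exact (mul_eq_zero.1 this).resolve_left hk1
  have h9 := hmain y1 z1 hrel1 (Pi.single ⟨k1, μ₀ k1⟩ 1) (by simp [h8])
  rw [Finset.sum_eq_single (⟨k1, μ₀ k1⟩ : Σ k, Mono n (d k))] at h9
  · rw [Pi.single_eq_same] at h9
    simp only [hmone, mul_one] at h9
    exact hk1 h9
  · intro β _ hβ
    rw [Pi.single_eq_of_ne hβ, mul_zero]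
  · intro h
    exact absurd (Finset.mem_univ _) h

end Pool.Agent.Lib.MP_6a3dac_ag.Fam
end

section

/-!
# The trivial blow-up
-/

set_option autoImplicit false

namespace Pool.Agent.Lib.MP_6a3dac_ag.Blow

open MvPolynomial CategoryTheory Limits AlgebraicGeometry NumberField IsDedekindDomain
open Pool.Agent.Lib.MP_6a3dac_ag.DNF Pool.Agent.Lib.MP_6a3dac_ag.Bert
open Pool.Agent.Lib.MP_6a3dac_ag.Fam

theorem bc2_der {R B : Type} [CommRing R] [CommRing B] [Algebra R B] (D : Derivation R B B)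
    {N : Ideal B} {x : B} (hx : x ∈ N ^ 2) : D x ∈ N := by
  rw [pow_two] at hx
  induction hx using Submodule.mul_induction_on' with
  | mem_mul_mem a ha b hb =>
    rw [Derivation.leibniz, smul_eq_mul, smul_eq_mul]
    exact N.add_mem (Ideal.mul_mem_right _ _ ha) (Ideal.mul_mem_right _ _ hb)
  | add a _ b _ ha hb =>
    rw [map_add]
    exact N.add_mem ha hb

/-- The graph of the constant function `1`. -/
theorem bc2_tanPt {R σ : Type} [CommRing R] {c : ℕ} {J : Ideal (MvPolynomial σ R)}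
    {K y : Ideal (MvPolynomial (σ ⊕ Option (Fin 0)) R)}
    (hJK : ∀ f ∈ J, rename Sum.inl f ∈ K) (hzK : X (Sum.inr none) - 1 ∈ K) (hKy : K ≤ y)
    (h : TanPt c J (y.comap (rename Sum.inl : MvPolynomial σ R →ₐ[R] _))) :
    TanPt (c + (0 + 1)) K y := by
  obtain ⟨f, hf, hind⟩ := h
  obtain ⟨z, hz⟩ : ∃ z : MvPolynomial (σ ⊕ Option (Fin 0)) R, z = X (Sum.inr none) := ⟨_, rfl⟩
  rw [← hz] at hzK
  have hzy : z - 1 ∈ y := hKy hzK
  -- the substitution
  obtain ⟨ψ, hψ⟩ : ∃ ψ : MvPolynomial (σ ⊕ Option (Fin 0)) R →ₐ[R] MvPolynomial σ R,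
    ψ = aeval (Sum.elim X fun _ => 1) := ⟨_, rfl⟩
  have hψr : ∀ q : MvPolynomial σ R, ψ (rename Sum.inl q) = q := by
    intro q
    rw [hψ, aeval_rename]
    have h1 : (Sum.elim (X : σ → MvPolynomial σ R) (fun _ : Option (Fin 0) => 1)) ∘ Sum.inl = X :=
      rfl
    rw [h1, aeval_X_left, AlgHom.id_apply]
  have hker : ∀ q : MvPolynomial (σ ⊕ Option (Fin 0)) R,
      q - rename Sum.inl (ψ q) ∈ Ideal.span {z - 1} := by
    intro q
    induction q using MvPolynomial.induction_on with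
    | C a =>
      have h1 : ψ (C a) = C a := by rw [hψ, aeval_C]; rfl
      rw [h1, rename_C, sub_self]
      exact Ideal.zero_mem _
    | add p q hp hq =>
      have h1 : p + q - rename Sum.inl (ψ (p + q)) =
          (p - rename Sum.inl (ψ p)) + (q - rename Sum.inl (ψ q)) := by
        rw [map_add, map_add]
        ring
      rw [h1]
      exact Ideal.add_mem _ hp hq
    | mul_X p i hp =>
      have h1 : (X i : MvPolynomial (σ ⊕ Option (Fin 0)) R) - rename Sum.inl (ψ (X i)) ∈
          Ideal.span {z - 1} := by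
        rcases i with i | i
        · have h2 : ψ (X (Sum.inl i)) = X i := by rw [hψ, aeval_X]; rfl
          rw [h2, rename_X, sub_self]
          exact Ideal.zero_mem _
        · have h2 : ψ (X (Sum.inr i)) = 1 := by rw [hψ, aeval_X]; rfl
          have hi : i = none := by
            rcases i with _ | i
            · rfl
            · exact i.elim0
          rw [h2, map_one, hi, ← hz]
          exact Ideal.mem_span_singleton_self _
      have h2 : p * X i - rename Sum.inl (ψ (p * X i)) =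
          (p - rename Sum.inl (ψ p)) * X i +
            rename Sum.inl (ψ p) * (X i - rename Sum.inl (ψ (X i))) := by
        rw [map_mul, map_mul]
        ring
      rw [h2]
      exact Ideal.add_mem _ (Ideal.mul_mem_right _ _ hp) (Ideal.mul_mem_left _ _ h1)
  have hzle : Ideal.span {z - 1} ≤ y := (Ideal.span_singleton_le_iff_mem _).2 hzy
  obtain ⟨𝔮, h𝔮⟩ : ∃ 𝔮, 𝔮 = y.comap (rename Sum.inl : MvPolynomial σ R →ₐ[R] _) := ⟨_, rfl⟩
  have hmem : ∀ q, q ∈ y ↔ ψ q ∈ 𝔮 := by
    intro q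
    rw [h𝔮, Ideal.mem_comap]
    constructor
    · intro hq
      have h1 := y.sub_mem hq (hzle (hker q))
      rwa [sub_sub_cancel] at h1
    · intro hq
      have h1 := y.add_mem (hzle (hker q)) hq
      rwa [sub_add_cancel] at h1
  have hsq : ∀ q ∈ y ^ 2, ψ q ∈ 𝔮 ^ 2 := by
    intro q hq
    have h1 : (y ^ 2).map ψ ≤ 𝔮 ^ 2 := by
      rw [Ideal.map_pow]
      refine Ideal.pow_right_mono ?_ 2
      rw [Ideal.map_le_iff_le_comap]
      intro x hx
      exact (hmem x).1 hx
    exact h1 (Ideal.mem_map_of_mem ψ hq)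
  refine ⟨Fin.append (fun k => rename Sum.inl (f k)) fun _ => z - 1, fun k => ?_,
    fun b hb => ?_⟩
  · refine Fin.addCases (fun k => ?_) (fun k => ?_) k
    · rw [Fin.append_left]
      exact hJK _ (hf k)
    · rw [Fin.append_right]
      exact hzK
  · rw [Fin.sum_univ_add] at hb
    simp only [Fin.append_left, Fin.append_right] at hb
    have h1 : ∀ k, b (Fin.castAdd (0 + 1) k) ∈ y := by
      intro k
      rw [hmem]
      have h2 := hsq _ hb
      rw [map_add, map_sum, map_sum] at h2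
      have h3 : ψ (z - 1) = 0 := by
        rw [map_sub, map_one, hz, hψ, aeval_X]
        exact sub_self _
      simp only [map_mul, hψr, h3, mul_zero, Finset.sum_const_zero, add_zero] at h2
      rw [h𝔮] at h2 ⊢
      exact hind _ h2 k
    have h2 : ∑ k, b (Fin.castAdd (0 + 1) k) * rename Sum.inl (f k) ∈ y ^ 2 := by
      refine Ideal.sum_mem _ fun k _ => ?_
      rw [pow_two]
      exact Ideal.mul_mem_mul (h1 k) (hKy (hJK _ (hf k)))
    have h3 : b (Fin.natAdd c 0) * (z - 1) ∈ y ^ 2 := by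
      have h4 := Ideal.sub_mem _ hb h2
      rw [add_sub_cancel_left] at h4
      simpa using h4
    have h4 : b (Fin.natAdd c 0) ∈ y := by
      have h5 := bc2_der (pderiv (Sum.inr none)) h3
      rw [Derivation.leibniz, smul_eq_mul, smul_eq_mul, map_sub, hz, pderiv_X_self,
        Derivation.map_one_eq_zero, sub_zero, mul_one, ← hz] at h5
      have h6 := y.sub_mem h5 (y.mul_mem_right (pderiv (Sum.inr none) (b (Fin.natAdd c 0))) hzy)
      rwa [add_sub_cancel_right] at h6
    intro k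
    refine Fin.addCases (fun k => h1 k) (fun k => ?_) k
    have hk : k = 0 := Fin.ext (by have := k.2; show (k : ℕ) = 0; omega)
    rw [hk]
    exact h4

variable {E : Type} [Field E] [NumberField E] {m c : ℕ}

/-- TASK BLOW-C2: the trivial blow-up (`r = 0`, `Θ = 1`). -/
theorem HasBlow.of_tanOver {J : HomIdeal (𝓞 E) (m + c + 1)} {P : HeightOneSpectrum (𝓞 E)}
    (h : TanOver P J) : HasBlow P J := by
  refine ⟨1, 0, 1, fun j => j.elim0, le_rfl, one_ne_zero, fun j => j.elim0, ?_⟩
  intro i k y hy hle hP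
  have hk : k = none := by
    rcases k with _ | k
    · rfl
    · exact k.elim0
  subst hk
  have hle' : blowEqs (dId J i) (blowGens (1 : 𝓞 E) (fun j : Fin 0 => j.elim0) i) none ≤
      genClosure (blowEqs (dId J i) (blowGens (1 : 𝓞 E) (fun j : Fin 0 => j.elim0) i) none) :=
    Ideal.le_comap_map
  have hJK : ∀ f ∈ dId J i, rename Sum.inl f ∈
      genClosure (blowEqs (dId J i) (blowGens (1 : 𝓞 E) (fun j : Fin 0 => j.elim0) i) none) :=
    fun f hf => hle' (Ideal.mem_sup_left (Ideal.mem_map_of_mem _ hf))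
  refine bc2_tanPt hJK (hle' (Ideal.mem_sup_right (Ideal.subset_span ⟨none, ?_⟩))) hle ?_
  · show rename Sum.inl (C 1) * X (Sum.inr none) - rename Sum.inl (C 1) = X (Sum.inr none) - 1
    rw [C_1, map_one, one_mul]
  · refine h i _ (Ideal.IsPrime.comap _) (fun f hf => ?_) ?_
    · rw [Ideal.mem_comap]
      exact hle (hJK f hf)
    · rw [Ideal.map_le_iff_le_comap]
      intro z hz
      rw [Ideal.mem_comap, Ideal.mem_comap, rename_C]
      exact hP (Ideal.mem_map_of_mem C hz)

end Pool.Agent.Lib.MP_6a3dac_ag.Blow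
end
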