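import Pool.Agent.Lib.MP_6a3dac_ag.Fam.S0
import Pool.Agent.Lib.MP_6a3dac_ag.Mg.G013
import Pool.Agent.Lib.MP_6a3dac_ag.Mg.G041
import Pool.Agent.Lib.MP_6a3dac_ag.Fam.Defs
import Pool.Agent.Lib.MP_6a3dac_ag.Bert.Tail
import Pool.Agent.Lib.MP_6a3dac_ag.Mg.G066

section

/-!
# Points of the universal section
-/

set_option autoImplicit false

namespace Pool.Agent.Lib.MP_6a3dac_ag.Fam

open MvPolynomial NumberField
open Pool.Agent.Lib.MP_6a3dac_ag.DNF Pool.Agent.Lib.MP_6a3dac_ag.Bert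

private theorem fs5b_map_dehom {R S : Type} [CommRing R] [CommRing S] (θ : R →+* S) {n : ℕ}
    (i : Fin (n + 1)) (q : MvPolynomial (Fin (n + 1)) R) :
    MvPolynomial.map θ (dehom i q) = dehom i (MvPolynomial.map θ q) := by
  induction q using MvPolynomial.induction_on with
  | C a => rw [dehom_C, map_C, map_C, dehom_C]
  | add a b ha hb => rw [map_add, map_add, map_add, map_add, ha, hb]
  | mul_X a k ha =>
    rw [map_mul, map_mul, map_mul, map_mul, ha]
    congr 1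
    by_cases hk : k = i
    · subst hk
      rw [dehom_X_self, map_one, map_X, dehom_X_self]
    · rw [map_X, show k = (⟨k, hk⟩ : {l : Fin (n + 1) // l ≠ i}).1 from rfl, dehom_X, dehom_X,
        map_X]

private theorem fs5b_map_form {R S : Type} [CommRing R] [CommRing S] (θ : R →+* S) {n d : ℕ}
    (a : Mono n d → R) : MvPolynomial.map θ (form a) = form fun μ => θ (a μ) := by
  simp [form, map_sum, map_prod]

/-- A derivation which kills the constants and the parameters kills all polynomials in them. -/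
private theorem fs5b_kill {R ι L : Type} [CommRing R] [Field L] (ψ : MvPolynomial ι R →+* L)
    (D : Derivation ℤ L L) (h0 : ∀ r, D (ψ (C r)) = 0) (h1 : ∀ α, D (ψ (X α)) = 0)
    (p : MvPolynomial ι R) : D (ψ p) = 0 := by
  induction p using MvPolynomial.induction_on with
  | C a => exact h0 a
  | add a b ha hb => rw [map_add, map_add, ha, hb, add_zero]
  | mul_X a k ha => rw [map_mul, Derivation.leibniz, ha, h1, smul_zero, smul_zero, add_zero]

/-- The restriction of the condition on the derivations to one form. -/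
private theorem fs5b_der {R L : Type} [CommRing R] [Field L] {n r : ℕ} {d : Fin r → ℕ}
    (ψ : MvPolynomial (Σ k, Mono n (d k)) R →+* L) {ξ : (Σ k, Mono n (d k)) → L}
    (hξ : DerWith ψ ξ) (k₀ : Fin r) (w : Mono n (d k₀) → L)
    (hw : ∑ μ, ξ ⟨k₀, μ⟩ * w μ = 0) : ∃ D : Derivation ℤ L L,
      (∀ a : MvPolynomial {α : (Σ k, Mono n (d k)) // α.1 ≠ k₀} R,
        D (ψ (rename Subtype.val a)) = 0) ∧ ∀ μ, D (ψ (X ⟨k₀, μ⟩)) = w μ := by
  classical
  let w' : (Σ k, Mono n (d k)) → L := fun α =>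
    if h : α.1 = k₀ then w (h ▸ α.2) else 0
  have hw' : ∀ μ, w' ⟨k₀, μ⟩ = w μ := fun μ => dif_pos rfl
  have hw0 : ∀ α : {α : (Σ k, Mono n (d k)) // α.1 ≠ k₀}, w' α.1 = 0 := fun α => dif_neg α.2
  have hsum : ∑ α, ξ α * w' α = 0 := by
    rw [Fintype.sum_sigma, Finset.sum_eq_single k₀]
    · rw [← hw]
      exact Finset.sum_congr rfl fun μ _ => by rw [hw']
    · intro k _ hk
      exact Finset.sum_eq_zero fun μ _ => by
        rw [show w' ⟨k, μ⟩ = 0 from dif_neg hk, mul_zero]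
    · intro h
      exact absurd (Finset.mem_univ _) h
  obtain ⟨D, hD0, hD1⟩ := hξ w' hsum
  refine ⟨D, fun a => ?_, fun μ => (hD1 ⟨k₀, μ⟩).trans (hw' μ)⟩
  refine fs5b_kill (ψ.comp (rename Subtype.val :
    MvPolynomial {α : (Σ k, Mono n (d k)) // α.1 ≠ k₀} R →ₐ[R] _).toRingHom) D ?_ ?_ a
  · intro r'
    show D (ψ (rename Subtype.val (C r'))) = 0
    rw [rename_C]
    exact hD0 r'
  · intro α
    show D (ψ (rename Subtype.val (X α))) = 0
    rw [rename_X]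
    exact (hD1 α.1).trans (hw0 α)

/-- The chart given by the equations of the chart `U` and all forms but one. -/
private theorem fs5b_chart {R L : Type} [CommRing R] [Field L] {n m r : ℕ} (hr : 1 ≤ r)
    (I : HomIdeal R (n + 1)) {d : Fin r → ℕ} (hd : ∀ k, 1 ≤ d k) {i : Fin (n + 1)}
    (φ : MvPolynomial {l : Fin (n + 1) // l ≠ i} (MvPolynomial (Σ k, Mono n (d k)) R) →+* L)
    (hJ : ∀ q ∈ dId (secFam I d) i, φ q = 0)
    (U : Std R {l : Fin (n + 1) // l ≠ i}) (hU : U.For (dId I i)) (hT : U.T.card = m + r)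
    (hh : φ (MvPolynomial.map C U.h) ≠ 0) {ξ : (Σ k, Mono n (d k)) → L}
    (hξ : DerWith (φ.comp C) ξ) :
    ∃ (k₀ : Fin r) (U' : Std (MvPolynomial {α : (Σ k, Mono n (d k)) // α.1 ≠ k₀} R)
        {l : Fin (n + 1) // l ≠ i}), U'.T.card = m + 1 ∧
      IsPres (dId (secFam I d) i) (U'.map (rename Subtype.val :
        MvPolynomial {α : (Σ k, Mono n (d k)) // α.1 ≠ k₀} R →ₐ[R] _).toRingHom)
        (dehom i (uForm R d k₀)) ∧
      φ (U'.map (rename Subtype.val :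
        MvPolynomial {α : (Σ k, Mono n (d k)) // α.1 ≠ k₀} R →ₐ[R] _).toRingHom).h ≠ 0 := by
  classical
  have hdId := dId_secFam I d i
  have hFmem : ∀ k, dehom i (uForm R d k) ∈ dId (secFam I d) i := by
    intro k
    rw [hdId]
    exact Ideal.mem_sup_right (Ideal.subset_span ⟨k, rfl⟩)
  have hgmem : ∀ κ, MvPolynomial.map C (U.g κ) ∈ dId (secFam I d) i := by
    intro κ
    rw [hdId]
    exact Ideal.mem_sup_left (Ideal.mem_map_of_mem _ (hU.mem κ))
  obtain ⟨k₀, hk₀⟩ := exists_indep_rows hr hd φ (fun k => hJ _ (hFmem k)) hξ U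
    (fun κ => hJ _ (hgmem κ))
  let θ : MvPolynomial {α : (Σ k, Mono n (d k)) // α.1 ≠ k₀} R →+*
      MvPolynomial (Σ k, Mono n (d k)) R := (rename Subtype.val :
        MvPolynomial {α : (Σ k, Mono n (d k)) // α.1 ≠ k₀} R →ₐ[R] _).toRingHom
  have hθC : θ.comp C = C := by
    ext1 a
    exact rename_C _ a
  have hθX : ∀ α, θ (X α) = X α.1 := fun α => rename_X _ α
  let h : {l // l ∉ U.T} ⊕ {k : Fin r // k ≠ k₀} →
      MvPolynomial {l : Fin (n + 1) // l ≠ i}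
        (MvPolynomial {α : (Σ k, Mono n (d k)) // α.1 ≠ k₀} R) :=
    Sum.elim (fun κ => MvPolynomial.map C (U.g κ))
      fun k => dehom i (form fun μ => X ⟨⟨k.1, μ⟩, k.2⟩)
  have hmapC : ∀ q : MvPolynomial {l : Fin (n + 1) // l ≠ i} R,
      MvPolynomial.map θ (MvPolynomial.map C q) = MvPolynomial.map C q := by
    intro q
    rw [MvPolynomial.map_map, hθC]
  have hinl : ∀ κ, MvPolynomial.map θ (h (Sum.inl κ)) = MvPolynomial.map C (U.g κ) :=
    fun κ => hmapC _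
  have hinr : ∀ k : {k : Fin r // k ≠ k₀},
      MvPolynomial.map θ (h (Sum.inr k)) = dehom i (uForm R d k.1) := by
    intro k
    show MvPolynomial.map θ (dehom i (form fun μ => X ⟨⟨k.1, μ⟩, k.2⟩)) = _
    rw [fs5b_map_dehom, fs5b_map_form, uForm]
    have h1 : (fun μ : Mono n (d k.1) => θ (X ⟨⟨k.1, μ⟩, k.2⟩)) = fun μ => X ⟨k.1, μ⟩ :=
      funext fun μ => hθX _
    rw [h1]
  have hΔ : φ (MvPolynomial.map C U.Δ) ≠ 0 := by
    intro h0
    apply hh
    rw [Std.h, map_mul, map_mul, h0, mul_zero]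
  have hs : φ (MvPolynomial.map C U.s) ≠ 0 := by
    intro h0
    apply hh
    rw [Std.h, map_mul, map_mul, h0, zero_mul]
  have hind : ∀ y : {l // l ∉ U.T} ⊕ {k : Fin r // k ≠ k₀} → L,
      (∀ l, ∑ k, y k * (φ.comp (MvPolynomial.map θ)) (pderiv l (h k)) = 0) → y = 0 := by
    intro y hy
    have hy2 : ∀ l, ∑ κ : {l // l ∉ U.T}, y (Sum.inl κ) *
        φ (MvPolynomial.map C (pderiv l (U.g κ))) + ∑ k : {k : Fin r // k ≠ k₀}, y (Sum.inr k) *
          φ (pderiv l (dehom i (uForm R d k.1))) = 0 := by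
      intro l
      rw [← hy l, Fintype.sum_sum_type]
      refine congrArg₂ (· + ·) (Finset.sum_congr rfl fun κ _ => ?_)
        (Finset.sum_congr rfl fun k _ => ?_)
      · have h1 : MvPolynomial.map θ (pderiv l (h (Sum.inl κ))) =
            MvPolynomial.map C (pderiv l (U.g κ)) := by
          rw [← pderiv_map, hinl, pderiv_map]
        rw [RingHom.comp_apply, h1]
      · have h1 : MvPolynomial.map θ (pderiv l (h (Sum.inr k))) =
            pderiv l (dehom i (uForm R d k.1)) := by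
          rw [← pderiv_map, hinr]
        rw [RingHom.comp_apply, h1]
    let y' : Fin r → L := fun k => if hk : k ≠ k₀ then y (Sum.inr ⟨k, hk⟩) else 0
    have hy'0 : y' k₀ = 0 := dif_neg fun hk => hk rfl
    have hy'1 : ∀ k : {k : Fin r // k ≠ k₀}, y' k.1 = y (Sum.inr k) := fun k => dif_pos k.2
    have hsum : ∀ v : Fin r → L, ∑ k, y' k * v k =
        ∑ k : {k : Fin r // k ≠ k₀}, y (Sum.inr k) * v k.1 := by
      intro v
      rw [Fintype.sum_eq_add_sum_subtype_ne (fun k => y' k * v k) k₀, hy'0, zero_mul, zero_add]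
      exact Finset.sum_congr rfl fun k _ => by rw [hy'1]
    have hy3 : y' = 0 := by
      refine hk₀ y' (fun κ => y (Sum.inl κ)) hy'0 fun l => ?_
      rw [hsum, add_comm]
      exact hy2 l
    have hz : (fun κ => y (Sum.inl κ)) = 0 := by
      have hM : (φ.comp (MvPolynomial.map C)).mapMatrix U.J = Matrix.of fun κ l =>
          φ (MvPolynomial.map C (pderiv l.1 (U.g κ))) := rfl
      have hdet : ((φ.comp (MvPolynomial.map C)).mapMatrix U.J).det ≠ 0 := by
        rw [← RingHom.map_det]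
        exact hΔ
      refine Matrix.eq_zero_of_vecMul_eq_zero hdet ?_
      funext l
      rw [hM]
      have h1 := hy2 l.1
      rw [Finset.sum_eq_zero (s := Finset.univ) (f := fun k : {k : Fin r // k ≠ k₀} =>
        y (Sum.inr k) * φ (pderiv l.1 (dehom i (uForm R d k.1)))) fun k _ => by
          rw [← hy'1, hy3, Pi.zero_apply, zero_mul], add_zero] at h1
      exact h1
    funext k
    rcases k with κ | k
    · exact congrFun hz κ
    · rw [← hy'1, hy3]
      rfl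
  obtain ⟨U', hrange, hUs, hcard, hΔ'⟩ := exists_std (φ.comp (MvPolynomial.map θ)) h
    (MvPolynomial.map C U.s) hind
  have hg' : ∀ κ, ∃ k, h k = U'.g κ := by
    intro κ
    have h1 : U'.g κ ∈ Set.range h := hrange ▸ ⟨κ, rfl⟩
    exact h1
  have hk' : ∀ k, ∃ κ, U'.g κ = h k := by
    intro k
    have h1 : h k ∈ Set.range U'.g := hrange ▸ ⟨k, rfl⟩
    exact h1
  have hVs : (U'.map θ).s = MvPolynomial.map C U.s := by
    show MvPolynomial.map θ U'.s = _
    rw [hUs, hmapC]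
  refine ⟨k₀, U', ?_, ⟨?_, hFmem k₀, ?_⟩, ?_⟩
  · have h1 : U.T.card + Fintype.card {l // l ∉ U.T} =
        Fintype.card {l : Fin (n + 1) // l ≠ i} := by
      rw [Fintype.card_subtype_compl, Fintype.card_coe]
      have := Finset.card_le_univ U.T
      omega
    have h2 : Fintype.card {k : Fin r // k ≠ k₀} = r - 1 := by
      rw [Fintype.card_subtype_compl, Fintype.card_fin, Fintype.card_unique]
    rw [Fintype.card_sum, h2] at hcard
    omega
  · intro κ
    obtain ⟨k, hk⟩ := hg' κ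
    show MvPolynomial.map θ (U'.g κ) ∈ _
    rw [← hk]
    rcases k with κ' | k
    · rw [hinl]
      exact hgmem κ'
    · rw [hinr]
      exact hFmem k.1
  · have hsub : ∀ κ, MvPolynomial.map C (U.g κ) ∈ Ideal.span
        (insert (dehom i (uForm R d k₀)) (Set.range (U'.map θ).g)) := by
      intro κ
      obtain ⟨κ', hκ'⟩ := hk' (Sum.inl κ)
      refine Ideal.subset_span (Set.mem_insert_of_mem _ ⟨κ', ?_⟩)
      show MvPolynomial.map θ (U'.g κ') = _
      rw [hκ', hinl]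
    have hsubF : ∀ k, dehom i (uForm R d k) ∈ Ideal.span
        (insert (dehom i (uForm R d k₀)) (Set.range (U'.map θ).g)) := by
      intro k
      by_cases hk : k = k₀
      · rw [hk]
        exact Ideal.subset_span (Set.mem_insert _ _)
      · obtain ⟨κ', hκ'⟩ := hk' (Sum.inr ⟨k, hk⟩)
        refine Ideal.subset_span (Set.mem_insert_of_mem _ ⟨κ', ?_⟩)
        show MvPolynomial.map θ (U'.g κ') = _
        rw [hκ', hinr]
    have hle : (Ideal.span (Set.range U.g)).map (MvPolynomial.map C) ≤ Ideal.span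
        (insert (dehom i (uForm R d k₀)) (Set.range (U'.map θ).g)) := by
      rw [Ideal.map_span, Ideal.span_le]
      rintro _ ⟨_, ⟨κ, rfl⟩, rfl⟩
      exact hsub κ
    intro f hf
    rw [hVs]
    rw [hdId] at hf
    obtain ⟨f1, hf1, f2, hf2, rfl⟩ := Submodule.mem_sup.1 hf
    rw [mul_add]
    refine Ideal.add_mem _ ?_ (Ideal.mul_mem_left _ _ ?_)
    · refine Submodule.span_induction (p := fun f _ => MvPolynomial.map C U.s * f ∈ Ideal.span
        (insert (dehom i (uForm R d k₀)) (Set.range (U'.map θ).g))) ?_ ?_ ?_ ?_ hf1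
      · rintro _ ⟨x, hx, rfl⟩
        rw [← map_mul]
        exact hle (Ideal.mem_map_of_mem _ (hU.le x hx))
      · rw [mul_zero]
        exact Ideal.zero_mem _
      · intro x y _ _ hx hy
        rw [mul_add]
        exact Ideal.add_mem _ hx hy
      · intro a x _ hx
        rw [smul_eq_mul, mul_left_comm]
        exact Ideal.mul_mem_left _ _ hx
    · refine (Ideal.span_le.2 ?_) hf2
      rintro _ ⟨k, rfl⟩
      exact hsubF k
  · show φ ((U'.map θ).s * (U'.map θ).Δ) ≠ 0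
    rw [hVs, map_mul, Std.map_ΔL]
    exact mul_ne_zero hs hΔ'

/-- TASK S5b -/
theorem point_of_derWith {R L : Type} [CommRing R] [Field L] {n m r : ℕ} (hr : 1 ≤ r)
    (I : HomIdeal R (n + 1)) {d : Fin r → ℕ} (hd : ∀ k, 1 ≤ d k) {i : Fin (n + 1)}
    {𝔮 : Ideal (MvPolynomial {l : Fin (n + 1) // l ≠ i} (MvPolynomial (Σ k, Mono n (d k)) R))}
    (φ : MvPolynomial {l : Fin (n + 1) // l ≠ i} (MvPolynomial (Σ k, Mono n (d k)) R) →+* L)
    (hφ : ∀ q, φ q = 0 ↔ q ∈ 𝔮) (hJ : dId (secFam I d) i ≤ 𝔮)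
    (U : Std R {l : Fin (n + 1) // l ≠ i}) (hU : U.For (dId I i)) (hT : U.T.card = m + r)
    (hh : MvPolynomial.map C U.h ∉ 𝔮) {ξ : (Σ k, Mono n (d k)) → L}
    (hξ : DerWith (φ.comp C) ξ) :
    NodalPt m (dId (secFam I d) i) 𝔮 ∧ (ξ = 0 → SmoothPt m (dId (secFam I d) i) 𝔮) := by
  classical
  have hφJ : ∀ q ∈ dId (secFam I d) i, φ q = 0 := fun q hq => (hφ q).2 (hJ hq)
  obtain ⟨k₀, U', hcard, hpres, hVh⟩ := fs5b_chart (m := m) hr I hd φ hφJ U hU hT
    (fun h0 => hh ((hφ _).1 h0)) hξ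
  let θ : MvPolynomial {α : (Σ k, Mono n (d k)) // α.1 ≠ k₀} R →+*
      MvPolynomial (Σ k, Mono n (d k)) R := (rename Subtype.val :
        MvPolynomial {α : (Σ k, Mono n (d k)) // α.1 ≠ k₀} R →ₐ[R] _).toRingHom
  have hVq : (U'.map θ).h ∉ 𝔮 := fun h0 => hVh ((hφ _).2 h0)
  obtain ⟨mon, μ₀, μ₁, hm0, hm1, hform⟩ := exists_monos (hd k₀) i
  let monA : Mono n (d k₀) → MvPolynomial {l : Fin (n + 1) // l ≠ i}
      (MvPolynomial (Σ k, Mono n (d k)) R) := fun μ => MvPolynomial.map (Int.castRingHom _) (mon μ)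
  let monR : Mono n (d k₀) → MvPolynomial {l : Fin (n + 1) // l ≠ i}
      (MvPolynomial {α : (Σ k, Mono n (d k)) // α.1 ≠ k₀} R) :=
    fun μ => MvPolynomial.map (Int.castRingHom _) (mon μ)
  have hmon : ∀ μ, MvPolynomial.map θ (monR μ) = monA μ := by
    intro μ
    show MvPolynomial.map θ (MvPolynomial.map (Int.castRingHom _) (mon μ)) = _
    rw [MvPolynomial.map_map]
    exact congrArg (fun c => MvPolynomial.map c (mon μ)) (RingHom.ext_int _ _)
  have hmR : ∀ μ, monR μ = MvPolynomial.map (Int.castRingHom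
      (MvPolynomial {α : (Σ k, Mono n (d k)) // α.1 ≠ k₀} R)) (mon μ) := fun μ => rfl
  have hmR0 : monR μ₀ = 1 := by rw [hmR, hm0, map_one]
  have hmR1 : ∀ e, monR (μ₁ e) = X e := by
    intro e
    rw [hmR, hm1, map_X]
  have hF : dehom i (uForm R d k₀) = ∑ μ, C (X ⟨k₀, μ⟩) * monA μ :=
    hform (MvPolynomial (Σ k, Mono n (d k)) R) fun μ => X ⟨k₀, μ⟩
  have hD : ∀ (D : Derivation (MvPolynomial (Σ k, Mono n (d k)) R)
      (MvPolynomial {l : Fin (n + 1) // l ≠ i} (MvPolynomial (Σ k, Mono n (d k)) R))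
      (MvPolynomial {l : Fin (n + 1) // l ≠ i} (MvPolynomial (Σ k, Mono n (d k)) R)))
      (v : Mono n (d k₀) → MvPolynomial {l : Fin (n + 1) // l ≠ i}
        (MvPolynomial (Σ k, Mono n (d k)) R)),
      D (∑ μ, C (X ⟨k₀, μ⟩) * v μ) = ∑ μ, C (X ⟨k₀, μ⟩) * D (v μ) := by
    intro D v
    rw [map_sum]
    refine Finset.sum_congr rfl fun μ _ => ?_
    rw [← smul_eq_C_mul, ← smul_eq_C_mul, Derivation.map_smul]
  have hvf : ∀ e μ, (U'.map θ).vf e (monA μ) = MvPolynomial.map θ (U'.vf e (monR μ)) := by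
    intro e μ
    rw [← hmon, Std.map_vfL]
  have h1 : ∀ e, φ ((U'.map θ).vf e (dehom i (uForm R d k₀))) =
      ∑ μ, φ (C (X ⟨k₀, μ⟩)) * (φ.comp (MvPolynomial.map θ)) (U'.vf e (monR μ)) := by
    intro e
    rw [hF, hD, map_sum]
    refine Finset.sum_congr rfl fun μ _ => ?_
    rw [map_mul, hvf]
    rfl
  have h2 : ∀ e e', φ ((U'.map θ).vf e ((U'.map θ).vf e' (dehom i (uForm R d k₀)))) =
      ∑ μ, φ (C (X ⟨k₀, μ⟩)) * (φ.comp (MvPolynomial.map θ)) (U'.vf e (U'.vf e' (monR μ))) := by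
    intro e e'
    rw [hF, hD, hD, map_sum]
    refine Finset.sum_congr rfl fun μ _ => ?_
    rw [map_mul, hvf, Std.map_vfL]
    rfl
  by_cases hv : ∃ e ∈ (U'.map θ).T, (U'.map θ).vf e (dehom i (uForm R d k₀)) ∉ 𝔮
  · exact ⟨⟨U'.map θ, _, hpres, hcard, hVq, Or.inl hv⟩, fun _ => ⟨U'.map θ, _, hpres, hcard, hVq, hv⟩⟩
  · have hv' : ∀ e ∈ U'.T, φ ((U'.map θ).vf e (dehom i (uForm R d k₀))) = 0 := by
      intro e he
      by_contra h0
      exact hv ⟨e, he, fun h3 => h0 ((hφ _).2 h3)⟩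
    have hΔ : (φ.comp (MvPolynomial.map θ)) U'.Δ ≠ 0 := by
      intro h0
      apply hVh
      show φ ((U'.map θ).s * (U'.map θ).Δ) = 0
      rw [map_mul, Std.map_ΔL]
      exact mul_eq_zero_of_right _ h0
    obtain ⟨hζ, hdet⟩ := crit_of_der U' (φ.comp (MvPolynomial.map θ))
      (fun κ => hφJ _ (hpres.mem κ)) hΔ monR (μ₀ := μ₀)
      hmR0 (μ₁ := fun e => μ₁ e.1) (fun e => hmR1 e.1)
      (fun μ => φ (C (X ⟨k₀, μ⟩))) (fun μ => ξ ⟨k₀, μ⟩)
      (fun w hw => by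
        obtain ⟨D, hD0, hD1⟩ := fs5b_der (φ.comp C) hξ k₀ w hw
        refine ⟨D, fun a => ?_, hD1⟩
        show D (φ (MvPolynomial.map θ (C a))) = 0
        rw [map_C]
        exact hD0 a)
      (by
        have h3 : φ (dehom i (uForm R d k₀)) = 0 := hφJ _ hpres.memF
        rw [hF, map_sum] at h3
        rw [← h3]
        refine Finset.sum_congr rfl fun μ _ => ?_
        rw [map_mul, ← hmon]
        rfl)
      (fun e he => by rw [← h1, hv' e he])
    refine ⟨⟨U'.map θ, _, hpres, hcard, hVq, Or.inr fun h0 => hdet ?_⟩, fun h0 => absurd ?_ hζ⟩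
    · rw [← hφ, RingHom.map_det] at h0
      rw [← h0]
      refine congrArg Matrix.det ?_
      ext1 e e'
      exact (h2 e.1 e'.1).symm
    · funext μ
      rw [h0]
      rfl

end Pool.Agent.Lib.MP_6a3dac_ag.Fam
end

section

/-!
# The sieve over the integers of a number field
-/

set_option autoImplicit false

namespace Pool.Agent.Lib.MP_6a3dac_ag.Fam

open MvPolynomial CategoryTheory Limits AlgebraicGeometry NumberField IsDedekindDomain Filter
open IsLocalRing Topology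
open Pool.Agent.Lib.MP_6a3dac_ag.DNF Pool.Agent.Lib.MP_6a3dac_ag.Bert
open Pool.Agent.Lib.MP_6a3dac_ag.Maj

section Esec

variable {ι : Type} [Fintype ι] [DecidableEq ι] {E : Type} [Field E] [NumberField E] {s : ℕ}
  (b : Module.Basis (Fin s) ℤ (𝓞 E))

open Classical in
/-- TASK E1 -/
theorem sieve_O (g F : MvPolynomial ι (𝓞 E))
    (hg : Irreducible (MvPolynomial.map (algebraMap (𝓞 E) E) g))
    (hF : ¬ MvPolynomial.map (algebraMap (𝓞 E) E) g ∣ MvPolynomial.map (algebraMap (𝓞 E) E) F) :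
    ∃ (C : ℝ) (M₀ : ℕ), ∀ (M q : ℕ), M₀ ≤ M → 1 ≤ q → (∀ p : ℕ, p.Prime → p ∣ q → p ≤ M) →
      ∀ r : ι → 𝓞 E, ∃ C' : ℝ, ∀ H : ℕ,
        (((box (ι × Fin s) H).filter fun u => ∃ 𝔭 : Ideal (𝓞 E), 𝔭.IsPrime ∧
            (∃ p : ℕ, p.Prime ∧ M < p ∧ (p : 𝓞 E) ∈ 𝔭) ∧
            eval (fun i => r i + q * ∑ j, u (i, j) • b j) g ∈ 𝔭 ∧
            eval (fun i => r i + q * ∑ j, u (i, j) • b j) F ∈ 𝔭).card : ℝ) ≤
          (C / M + C' / (2 * H + 1)) * (2 * H + 1) ^ Fintype.card (ι × Fin s) := by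
  obtain ⟨G, hG1, hG2⟩ := exists_normPoly' b g
  obtain ⟨K, hK1, hK2⟩ := exists_normPoly' b F
  have hg0 : g ≠ 0 := by
    rintro rfl
    exact hg.ne_zero (map_zero _)
  have hG0 : G ≠ 0 := t4_ne_zero b hg0 hG1
  obtain ⟨f, hf, u0, hfG⟩ := WfDvdMonoid.exists_factors G hG0
  -- the nonconstant factors
  let S : Finset (MvPolynomial (ι × Fin s) ℤ) :=
    f.toFinset.filter fun Q => ¬ ∃ c : ℤ, Q = MvPolynomial.C c
  have hS : ∀ Q ∈ S, Irreducible Q ∧ ¬ Q ∣ K := by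
    intro Q hQ
    rw [Finset.mem_filter, Multiset.mem_toFinset] at hQ
    refine ⟨hf Q hQ.1, fun hQK => hQ.2 ?_⟩
    have hQG : Q ∣ G := by
      rw [← hfG]
      exact Dvd.dvd.mul_right (Multiset.dvd_prod hQ.1) _
    exact normPoly_coprime' b hg hF hG2 hK2 hQG hQK
  -- the sieve for each nonconstant factor
  have hsieve : ∀ Q : MvPolynomial (ι × Fin s) ℤ, ∃ C : ℝ, Q ∈ S → ∀ (M q : ℕ), 1 ≤ M → 1 ≤ q →
      (∀ p : ℕ, p.Prime → p ∣ q → p ≤ M) →
      ∀ r : ι × Fin s → ℤ, ∃ C' : ℝ, ∀ H : ℕ,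
        (((box (ι × Fin s) H).filter fun a => ∃ p : ℕ, p.Prime ∧ M < p ∧
            (p : ℤ) ∣ eval (fun i => r i + q * a i) Q ∧
            (p : ℤ) ∣ eval (fun i => r i + q * a i) K).card : ℝ) ≤
          (C / M + C' / (2 * H + 1)) * (2 * H + 1) ^ Fintype.card (ι × Fin s) := by
    intro Q
    by_cases hQ : Q ∈ S
    · obtain ⟨C, hC⟩ := dens_sieve Q K (hS Q hQ).1 (hS Q hQ).2
      exact ⟨C, fun _ => hC⟩
    · exact ⟨0, fun h => absurd h hQ⟩
  choose CC hCC using hsieve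
  let M₀ : ℕ := 1 + ∑ Q ∈ f.toFinset, (coeff 0 Q).natAbs
  refine ⟨∑ Q ∈ S, CC Q, M₀, fun M q hM hq hpq r => ?_⟩
  have hM1 : 1 ≤ M := le_trans (Nat.le_add_right 1 _) hM
  let r' : ι × Fin s → ℤ := fun x => b.repr (r x.1) x.2
  have hsieve' : ∀ Q : MvPolynomial (ι × Fin s) ℤ, ∃ C' : ℝ, Q ∈ S → ∀ H : ℕ,
        (((box (ι × Fin s) H).filter fun a => ∃ p : ℕ, p.Prime ∧ M < p ∧
            (p : ℤ) ∣ eval (fun i => r' i + q * a i) Q ∧
            (p : ℤ) ∣ eval (fun i => r' i + q * a i) K).card : ℝ) ≤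
          (CC Q / M + C' / (2 * H + 1)) * (2 * H + 1) ^ Fintype.card (ι × Fin s) := by
    intro Q
    by_cases hQ : Q ∈ S
    · obtain ⟨C', hC'⟩ := hCC Q hQ M q hM1 hq hpq r'
      exact ⟨C', fun _ => hC'⟩
    · exact ⟨0, fun h => absurd h hQ⟩
  choose CD hCD using hsieve'
  refine ⟨∑ Q ∈ S, CD Q, fun H => ?_⟩
  -- the inclusion
  have hsub : ((box (ι × Fin s) H).filter fun u => ∃ 𝔭 : Ideal (𝓞 E), 𝔭.IsPrime ∧
            (∃ p : ℕ, p.Prime ∧ M < p ∧ (p : 𝓞 E) ∈ 𝔭) ∧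
            eval (fun i => r i + q * ∑ j, u (i, j) • b j) g ∈ 𝔭 ∧
            eval (fun i => r i + q * ∑ j, u (i, j) • b j) F ∈ 𝔭) ⊆
      S.biUnion fun Q => (box (ι × Fin s) H).filter fun a => ∃ p : ℕ, p.Prime ∧ M < p ∧
            (p : ℤ) ∣ eval (fun i => r' i + q * a i) Q ∧
            (p : ℤ) ∣ eval (fun i => r' i + q * a i) K := by
    intro u hu
    rw [Finset.mem_filter] at hu
    obtain ⟨hbox, 𝔭, h𝔭, ⟨p, hp, hMp, hp𝔭⟩, hg𝔭, hF𝔭⟩ := hu
    have hcoord : coeffs b (fun i => r' i + q * u i) =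
        fun i => r i + q * ∑ j, u (i, j) • b j := by
      funext i
      show ∑ j, (r' (i, j) + q * u (i, j)) • b j = _
      simp only [add_smul, Finset.sum_add_distrib, mul_smul, ← Finset.smul_sum]
      congr 1
      · exact b.sum_repr (r i)
      · rw [natCast_zsmul, nsmul_eq_mul]
    have hpG : (p : ℤ) ∣ eval (fun i => r' i + q * u i) G := by
      rw [hG1]
      rw [hcoord]
      exact SieveNF.prime_dvd_norm 𝔭 h𝔭 hp hp𝔭 hg𝔭
    have hpK : (p : ℤ) ∣ eval (fun i => r' i + q * u i) K := by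
      rw [hK1]
      rw [hcoord]
      exact SieveNF.prime_dvd_norm 𝔭 h𝔭 hp hp𝔭 hF𝔭
    have hpZ : Prime (p : ℤ) := Nat.prime_iff_prime_int.1 hp
    rw [← hfG, map_mul] at hpG
    have hunit : ¬ (p : ℤ) ∣ eval (fun i => r' i + q * u i) (u0 : MvPolynomial (ι × Fin s) ℤ) := by
      intro h
      apply hpZ.not_isUnit
      exact isUnit_of_dvd_unit h (u0.isUnit.map _)
    have hprod := (hpZ.dvd_or_dvd hpG).resolve_right hunit
    rw [map_multiset_prod] at hprod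
    obtain ⟨Q, hQf, hQdvd⟩ := hpZ.exists_mem_multiset_map_dvd hprod
    rw [Finset.mem_biUnion]
    refine ⟨Q, ?_, ?_⟩
    · rw [Finset.mem_filter, Multiset.mem_toFinset]
      refine ⟨hQf, ?_⟩
      rintro ⟨c, hc⟩
      have hc0 : c ≠ 0 := by
        rintro rfl
        exact (hf Q hQf).ne_zero (by rw [hc, map_zero])
      have h1 : c.natAbs ≤ ∑ Q ∈ f.toFinset, (coeff 0 Q).natAbs := by
        have h2 : (coeff 0 Q).natAbs ≤ ∑ Q ∈ f.toFinset, (coeff 0 Q).natAbs :=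
          Finset.single_le_sum (f := fun Q : MvPolynomial (ι × Fin s) ℤ => (coeff 0 Q).natAbs)
            (fun _ _ => Nat.zero_le _) (Multiset.mem_toFinset.2 hQf)
        rw [hc, coeff_zero_C] at h2
        exact h2
      rw [hc, eval_C, Int.natCast_dvd] at hQdvd
      have h3 : p ≤ c.natAbs := Nat.le_of_dvd (Int.natAbs_pos.2 hc0) hQdvd
      have h4 : 1 + ∑ Q ∈ f.toFinset, (coeff 0 Q).natAbs ≤ M := hM
      omega
    · rw [Finset.mem_filter]
      exact ⟨hbox, p, hp, hMp, hQdvd, hpK⟩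
  calc _ ≤ ((S.biUnion fun Q => (box (ι × Fin s) H).filter fun a => ∃ p : ℕ, p.Prime ∧ M < p ∧
            (p : ℤ) ∣ eval (fun i => r' i + q * a i) Q ∧
            (p : ℤ) ∣ eval (fun i => r' i + q * a i) K).card : ℝ) := by
        exact_mod_cast Finset.card_le_card hsub
    _ ≤ ∑ Q ∈ S, (((box (ι × Fin s) H).filter fun a => ∃ p : ℕ, p.Prime ∧ M < p ∧
            (p : ℤ) ∣ eval (fun i => r' i + q * a i) Q ∧
            (p : ℤ) ∣ eval (fun i => r' i + q * a i) K).card : ℝ) := by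
        exact_mod_cast Finset.card_biUnion_le
    _ ≤ ∑ Q ∈ S, (CC Q / M + CD Q / (2 * H + 1)) * (2 * H + 1) ^ Fintype.card (ι × Fin s) :=
        Finset.sum_le_sum fun Q hQ => hCD Q hQ H
    _ = _ := by
        rw [← Finset.sum_mul, Finset.sum_add_distrib, ← Finset.sum_div, ← Finset.sum_div]

end Esec

end Pool.Agent.Lib.MP_6a3dac_ag.Fam
end

section

/-!
# Densities of sets defined by conditions modulo powers of primes
-/

set_option autoImplicit false

namespace Pool.Agent.Lib.MP_6a3dac_ag.Fam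

open MvPolynomial CategoryTheory Limits AlgebraicGeometry NumberField IsDedekindDomain Filter
open IsLocalRing Topology
open Pool.Agent.Lib.MP_6a3dac_ag.DNF Pool.Agent.Lib.MP_6a3dac_ag.Bert
open Pool.Agent.Lib.MP_6a3dac_ag.Maj

section Esec

variable {ι : Type} [Fintype ι] [DecidableEq ι] {E : Type} [Field E] [NumberField E] {s : ℕ}
  (b : Module.Basis (Fin s) ℤ (𝓞 E))

/-- The coefficients modulo `P ^ e P`. -/
noncomputable def redk (e : HeightOneSpectrum (𝓞 E) → ℕ) (P : HeightOneSpectrum (𝓞 E))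
    (u : ι × Fin s → ℤ) (i : ι) : 𝓞 E ⧸ P.asIdeal ^ e P :=
  Ideal.Quotient.mk (P.asIdeal ^ e P) (coeffs b u i)

theorem fe2k_ne_bot {E : Type} [Field E] [NumberField E] (P : HeightOneSpectrum (𝓞 E)) (n : ℕ) :
    P.asIdeal ^ n ≠ ⊥ :=
  pow_ne_zero n P.ne_bot

/-- A prime ideal which contains a positive integer contains one of its prime divisors. -/
theorem fe2k_exists_prime_mem {E : Type} [Field E] [NumberField E] (P : HeightOneSpectrum (𝓞 E))
    (n : ℕ) (hn : n ≠ 0) (h : (n : 𝓞 E) ∈ P.asIdeal) :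
    ∃ p : ℕ, p.Prime ∧ p ∣ n ∧ (p : 𝓞 E) ∈ P.asIdeal := by
  have hP : P.asIdeal.IsPrime := P.isPrime
  revert hn h
  induction n using Nat.recOnMul with
  | zero => intro h; exact absurd rfl h
  | one =>
    intro _ h
    exact absurd ((Ideal.eq_top_iff_one _).2 (by simpa using h)) hP.ne_top
  | prime p hp => intro _ h; exact ⟨p, hp, dvd_rfl, h⟩
  | mul a c ha hc =>
    intro hn h
    have ha0 : a ≠ 0 := fun h => hn (by rw [h, zero_mul])
    have hc0 : c ≠ 0 := fun h => hn (by rw [h, mul_zero])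
    rw [Nat.cast_mul] at h
    rcases hP.mem_or_mem h with h | h
    · obtain ⟨p, h1, h2, h3⟩ := ha ha0 h
      exact ⟨p, h1, h2.mul_right c, h3⟩
    · obtain ⟨p, h1, h2, h3⟩ := hc hc0 h
      exact ⟨p, h1, h2.mul_left a, h3⟩

omit [Fintype ι] [DecidableEq ι] [NumberField E] in
lemma fe2k_red_add (e : HeightOneSpectrum (𝓞 E) → ℕ) (P : HeightOneSpectrum (𝓞 E)) (u v : ι × Fin s → ℤ) :
    redk b e P (u + v) = redk b e P u + redk b e P v := by
  funext i
  simp only [redk, Pi.add_apply]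
  rw [← map_add]
  congr 1
  simp only [DNF.coeffs, Pi.add_apply, add_smul, Finset.sum_add_distrib]

omit [Fintype ι] [DecidableEq ι] [NumberField E] in
lemma fe2k_red_zero (e : HeightOneSpectrum (𝓞 E) → ℕ) (P : HeightOneSpectrum (𝓞 E)) :
    redk b e P (0 : ι × Fin s → ℤ) = 0 := by
  funext i
  simp [redk, DNF.coeffs]

/-- Reduction modulo finitely many primes. -/
noncomputable def fe2k_hom (ι : Type) {E : Type} [Field E] [NumberField E] {s : ℕ}
    (b : Module.Basis (Fin s) ℤ (𝓞 E)) (e : HeightOneSpectrum (𝓞 E) → ℕ)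
    (T : Finset (HeightOneSpectrum (𝓞 E))) :
    (ι × Fin s → ℤ) →+ (∀ P : T, ι → 𝓞 E ⧸ P.1.asIdeal ^ e P.1) where
  toFun u P := redk b e P.1 u
  map_zero' := by
    funext P
    exact fe2k_red_zero b e P.1
  map_add' u v := by
    funext P
    exact fe2k_red_add b e P.1 u v

omit [Fintype ι] [DecidableEq ι] in
lemma fe2k_surj (e : HeightOneSpectrum (𝓞 E) → ℕ) (T : Finset (HeightOneSpectrum (𝓞 E))) :
    Function.Surjective (fe2k_hom ι b e T) := by
  intro x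
  have h1 : ∀ i : ι, ∃ y : 𝓞 E, ∀ P : T, Ideal.Quotient.mk (P.1.asIdeal ^ e P.1) y = x P i := by
    intro i
    choose r hr using fun P : T => Ideal.Quotient.mk_surjective (I := P.1.asIdeal ^ e P.1) (x P i)
    obtain ⟨y, hy⟩ := IsDedekindDomain.exists_forall_sub_mem_ideal (s := T)
      (fun P : HeightOneSpectrum (𝓞 E) => P.asIdeal) e
      (fun P _ => P.prime) (fun P _ Q _ hPQ h => hPQ (HeightOneSpectrum.ext h)) r
    refine ⟨y, fun P => ?_⟩
    rw [← hr P, Ideal.Quotient.mk_eq_mk_iff_sub_mem]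
    simpa using hy P.1 P.2
  choose y hy using h1
  refine ⟨fun v => b.repr (y v.1) v.2, ?_⟩
  funext P i
  have h2 : coeffs b (fun v : ι × Fin s => b.repr (y v.1) v.2) i = y i := by
    simp only [DNF.coeffs]
    exact b.sum_repr (y i)
  change Ideal.Quotient.mk (P.1.asIdeal ^ e P.1) (coeffs b (fun v : ι × Fin s => b.repr (y v.1) v.2) i) = _
  rw [h2]
  exact hy i P

/-- **Chinese remainder theorem.** -/
theorem fe2k_tendsto_prop_red (e : HeightOneSpectrum (𝓞 E) → ℕ)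
    (T : Finset (HeightOneSpectrum (𝓞 E)))
    (Ω : ∀ P : HeightOneSpectrum (𝓞 E), Set (ι → 𝓞 E ⧸ P.asIdeal ^ e P)) :
    Tendsto (Sys.prop fun u => ∀ P ∈ T, redk b e P u ∈ Ω P) atTop
      (𝓝 (∏ P ∈ T, (Nat.card (Ω P) : ℝ) / Nat.card (ι → 𝓞 E ⧸ P.asIdeal ^ e P))) := by
  classical
  have hfin : ∀ P : HeightOneSpectrum (𝓞 E), Finite (𝓞 E ⧸ P.asIdeal ^ e P) := fun P =>
    Ideal.finiteQuotientOfFreeOfNeBot (P.asIdeal ^ e P) (fe2k_ne_bot P _)
  have h1 := Sys.tendsto_prop_hom (fe2k_hom ι b e T) (fe2k_surj b e T)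
    {x | ∀ P : T, x P ∈ Ω P.1}
  have h2 : (fun u : ι × Fin s → ℤ => ∀ P ∈ T, redk b e P u ∈ Ω P) =
      fun u => fe2k_hom ι b e T u ∈ {x : ∀ P : T, ι → 𝓞 E ⧸ P.1.asIdeal ^ e P.1 | ∀ P : T, x P ∈ Ω P.1} := by
    funext u
    refine propext ⟨fun h P => h P.1 P.2, fun h P hP => h ⟨P, hP⟩⟩
  rw [h2]
  have h3 : (Nat.card {x : ∀ P : T, ι → 𝓞 E ⧸ P.1.asIdeal ^ e P.1 | ∀ P : T, x P ∈ Ω P.1} : ℝ) /
      Nat.card (∀ P : T, ι → 𝓞 E ⧸ P.1.asIdeal ^ e P.1) =
      ∏ P ∈ T, (Nat.card (Ω P) : ℝ) / Nat.card (ι → 𝓞 E ⧸ P.asIdeal ^ e P) := by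
    have e1 : Nat.card {x : ∀ P : T, ι → 𝓞 E ⧸ P.1.asIdeal ^ e P.1 | ∀ P : T, x P ∈ Ω P.1} =
        ∏ P : T, Nat.card (Ω P.1) := by
      rw [← Nat.card_pi]
      refine Nat.card_congr
        { toFun := fun x P => ⟨x.1 P, x.2 P⟩
          invFun := fun x => ⟨fun P => (x P).1, fun P => (x P).2⟩
          left_inv := fun x => rfl
          right_inv := fun x => rfl }
    have e2 : Nat.card (∀ P : T, ι → 𝓞 E ⧸ P.1.asIdeal ^ e P.1) =
        ∏ P : T, Nat.card (ι → 𝓞 E ⧸ P.1.asIdeal ^ e P.1) := Nat.card_pi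
    rw [e1, e2]
    push_cast
    rw [← Finset.prod_div_distrib,
      ← Finset.prod_coe_sort T
        (fun P => (Nat.card (Ω P) : ℝ) / Nat.card (ι → 𝓞 E ⧸ P.asIdeal ^ e P))]
  rw [← h3]
  exact h1

omit [Fintype ι] [DecidableEq ι] [NumberField E] in
/-- Congruent vectors have the same reduction. -/
theorem fe2k_red_add_mul (e : HeightOneSpectrum (𝓞 E) → ℕ) (P : HeightOneSpectrum (𝓞 E))
    (v w : ι × Fin s → ℤ) (q : ℕ)
    (hq : (q : 𝓞 E) ∈ P.asIdeal ^ e P) : redk b e P (fun x => v x + q * w x) = redk b e P v := by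
  funext i
  rw [redk, redk, Sys.rs_coeffs_add_mul, map_add, map_mul, Ideal.Quotient.eq_zero_iff_mem.2 hq, zero_mul,
    add_zero]

/-- **The relative sieve**: among the vectors which satisfy the conditions at the small primes,
the proportion of those which violate a condition at a large prime is small. -/
theorem fe2k_relative_sieve {T : Type} [Fintype T] (g G : T → MvPolynomial ι (𝓞 E))
    (hg : ∀ t, Irreducible (MvPolynomial.map (algebraMap (𝓞 E) E) (g t)))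
    (hgG : ∀ t, ¬ MvPolynomial.map (algebraMap (𝓞 E) E) (g t) ∣
      MvPolynomial.map (algebraMap (𝓞 E) E) (G t)) {m₀ : 𝓞 E} (hm₀ : m₀ ≠ 0)
    {e : HeightOneSpectrum (𝓞 E) → ℕ} {K : ℕ} (he : ∀ P, e P ≤ K) :
    ∃ (C : ℝ) (M₀ : ℕ), 0 ≤ C ∧ ∀ Ω : ∀ P : HeightOneSpectrum (𝓞 E), Set (ι → 𝓞 E ⧸ P.asIdeal ^ e P),
      (∀ (P : HeightOneSpectrum (𝓞 E)) (a : ι → 𝓞 E), m₀ ∉ P.asIdeal →
        (fun i => Ideal.Quotient.mk (P.asIdeal ^ e P) (a i)) ∉ Ω P →
        ∃ t, eval a (g t) ∈ P.asIdeal ∧ eval a (G t) ∈ P.asIdeal) →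
      ∀ M, M₀ ≤ M → ∀ δ : ℝ,
        Tendsto (Sys.prop fun u => ∀ P : HeightOneSpectrum (𝓞 E),
          (∃ p : ℕ, p.Prime ∧ p ≤ M ∧ (p : 𝓞 E) ∈ P.asIdeal) → redk b e P u ∈ Ω P) atTop (𝓝 δ) →
        ∀ ε, 0 < ε → ∀ᶠ H in atTop, Sys.prop (fun u => (∀ P : HeightOneSpectrum (𝓞 E),
          (∃ p : ℕ, p.Prime ∧ p ≤ M ∧ (p : 𝓞 E) ∈ P.asIdeal) → redk b e P u ∈ Ω P) ∧
            ∃ P, redk b e P u ∉ Ω P) H ≤ C / M * δ + ε := by
  classical
  choose CC M0 hCC using fun t => sieve_O b (g t) (G t) (hg t) (hgG t)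
  have hN : Ideal.absNorm (Ideal.span {m₀}) ≠ 0 := by
    rw [Ne, Ideal.absNorm_eq_zero_iff, Ideal.span_singleton_eq_bot]
    exact hm₀
  refine ⟨∑ t, |CC t|, 2 + ∑ t, M0 t + Ideal.absNorm (Ideal.span {m₀}), Finset.sum_nonneg fun t _ => abs_nonneg _,
    fun Ω hΩ M hM δ hδ ε hε => ?_⟩
  have hM0 : ∀ t, M0 t ≤ M := fun t => by
    have := Finset.single_le_sum (f := M0) (fun _ _ => Nat.zero_le _) (Finset.mem_univ t)
    omega
  have hM2 : 2 ≤ M := by omega
  have hMN : Ideal.absNorm (Ideal.span {m₀}) ≤ M := by omega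
  obtain ⟨q, hq0, hpq, hqp⟩ : ∃ q : ℕ, 0 < q ∧ (∀ p : ℕ, p.Prime → p ∣ q → p ≤ M) ∧
      (∀ P : HeightOneSpectrum (𝓞 E), ∀ p : ℕ, p.Prime → p ≤ M → (p : 𝓞 E) ∈ P.asIdeal →
        (q : 𝓞 E) ∈ P.asIdeal ^ e P) := by
    refine ⟨M.factorial ^ K, pow_pos M.factorial_pos K,
      fun p hp h => (hp.dvd_factorial).1 (hp.dvd_of_dvd_pow h), fun P p hp h hpP => ?_⟩
    rw [Nat.cast_pow]
    refine Ideal.pow_le_pow_right (he P) (Ideal.pow_mem_pow ?_ K)
    obtain ⟨k, hk⟩ := (hp.dvd_factorial).2 h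
    rw [hk, Nat.cast_mul]
    exact P.asIdeal.mul_mem_right _ hpP
  have : NeZero q := ⟨hq0.ne'⟩
  let Sm : (ι × Fin s → ℤ) → Prop := fun u => ∀ P : HeightOneSpectrum (𝓞 E),
          (∃ p : ℕ, p.Prime ∧ p ≤ M ∧ (p : 𝓞 E) ∈ P.asIdeal) → redk b e P u ∈ Ω P
  change Tendsto (Sys.prop Sm) atTop (𝓝 δ) at hδ
  change ∀ᶠ H in atTop, Sys.prop (fun u => Sm u ∧ ∃ P, redk b e P u ∉ Ω P) H ≤ (∑ t, |CC t|) / M * δ + ε
  -- the condition at the small primes depends only on the class modulo `q`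
  have hSm : ∀ v w : ι × Fin s → ℤ, Sm (fun x => v x + q * w x) ↔ Sm v := by
    intro v w
    refine forall_congr' fun P => imp_congr_right ?_
    rintro ⟨p, hp, hpM, hpP⟩
    rw [fe2k_red_add_mul b e P v w q (hqp P p hp hpM hpP)]
  let ψ : (ι × Fin s → ℤ) →+ (ι × Fin s → ZMod q) :=
    (Int.castAddHom (ZMod q)).compLeft (ι × Fin s)
  have hψ : ∀ u x, ψ u x = (u x : ZMod q) := fun u x => rfl
  have hψs : Function.Surjective ψ := by
    intro a
    refine ⟨fun x => ((a x).val : ℤ), ?_⟩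
    funext x
    rw [hψ]
    simp
  -- writing a vector with its class
  have hdec : ∀ u : ι × Fin s → ℤ, ∃ w : ι × Fin s → ℤ, u = fun x => ((ψ u x).val : ℤ) + q * w x := by
    intro u
    have h1 : ∀ x, ∃ w : ℤ, u x = ((ψ u x).val : ℤ) + q * w := by
      intro x
      have h2 : ((u x : ℤ) : ZMod q) = (((ψ u x).val : ℤ) : ZMod q) := by
        rw [hψ]
        simp
      obtain ⟨w, hw⟩ := (ZMod.intCast_eq_intCast_iff_dvd_sub _ _ _).1 h2.symm
      exact ⟨w, by linarith⟩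
    choose w hw using h1
    exact ⟨w, funext hw⟩
  let S : Set (ι × Fin s → ZMod q) := {a | Sm fun x => ((a x).val : ℤ)}
  have hS : ∀ u, ψ u ∈ S ↔ Sm u := by
    intro u
    obtain ⟨w, hw⟩ := hdec u
    change (Sm fun x => ((ψ u x).val : ℤ)) ↔ Sm u
    rw [← hSm (fun x => ((ψ u x).val : ℤ)) w, ← hw]
  have hδ' : δ = (Nat.card S : ℝ) / Nat.card (ι × Fin s → ZMod q) := by
    have h1 := Sys.tendsto_prop_hom ψ hψs S
    simp only [hS] at h1
    exact tendsto_nhds_unique hδ h1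
  have hcardA : Nat.card (ι × Fin s → ZMod q) = q ^ Fintype.card (ι × Fin s) := by
    rw [Nat.card_pi]
    simp [Finset.prod_const]
  -- the sieve in each class
  have hC' : ∀ (t : T) (a : ι × Fin s → ZMod q), ∃ C' : ℝ, ∀ H : ℕ,
      (((box (ι × Fin s) H).filter fun u => ∃ 𝔭 : Ideal (𝓞 E), 𝔭.IsPrime ∧
            (∃ p : ℕ, p.Prime ∧ M < p ∧ (p : 𝓞 E) ∈ 𝔭) ∧
            eval (fun i => coeffs b (fun x => ((a x).val : ℤ)) i + q * ∑ j, u (i, j) • b j)
              (g t) ∈ 𝔭 ∧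
            eval (fun i => coeffs b (fun x => ((a x).val : ℤ)) i + q * ∑ j, u (i, j) • b j)
              (G t) ∈ 𝔭).card : ℝ) ≤
          (CC t / M + C' / (2 * H + 1)) * (2 * H + 1) ^ Fintype.card (ι × Fin s) :=
    fun t a => hCC t M q (hM0 t) hq0 hpq _
  choose C' hC'' using hC'
  let bad : T → (ι × Fin s → ZMod q) → ℕ → Finset (ι × Fin s → ℤ) := fun t a H =>
    (box (ι × Fin s) H).filter fun u => ∃ 𝔭 : Ideal (𝓞 E), 𝔭.IsPrime ∧
            (∃ p : ℕ, p.Prime ∧ M < p ∧ (p : 𝓞 E) ∈ 𝔭) ∧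
            eval (fun i => coeffs b (fun x => ((a x).val : ℤ)) i + q * ∑ j, u (i, j) • b j)
              (g t) ∈ 𝔭 ∧
            eval (fun i => coeffs b (fun x => ((a x).val : ℤ)) i + q * ∑ j, u (i, j) • b j)
              (G t) ∈ 𝔭
  have hbad : ∀ t a H, ((bad t a H).card : ℝ) ≤
      (CC t / M + C' t a / (2 * H + 1)) * (2 * H + 1) ^ Fintype.card (ι × Fin s) :=
    fun t a H => hC'' t a H
  let Sf : Finset (ι × Fin s → ZMod q) := Finset.univ.filter fun a => a ∈ S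
  have hsub : ∀ H, ((box (ι × Fin s) H).filter fun u => Sm u ∧ ∃ P, redk b e P u ∉ Ω P) ⊆
      Sf.biUnion fun a => Finset.univ.biUnion fun t => (bad t a (H / q + 1)).image
        fun w x => ((a x).val : ℤ) + q * w x := by
    intro H u hu
    rw [Finset.mem_filter] at hu
    obtain ⟨hub, hSmu, P, hP⟩ := hu
    obtain ⟨w, hw⟩ := hdec u
    obtain ⟨p, hp, hpP⟩ := Sys.rs_exists_prime_mem P
    have hMp : M < p := by
      by_contra h
      exact hP (hSmu P ⟨p, hp, not_lt.1 h, hpP⟩)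
    have h2P : m₀ ∉ P.asIdeal := by
      intro h
      have h1 : (Ideal.absNorm (Ideal.span {m₀}) : 𝓞 E) ∈ P.asIdeal :=
        (Ideal.span_singleton_le_iff_mem _).2 h (Ideal.absNorm_mem _)
      obtain ⟨p', hp', hd, hm⟩ := fe2k_exists_prime_mem P _ hN h1
      exact hP (hSmu P ⟨p', hp', (Nat.le_of_dvd (Nat.pos_of_ne_zero hN) hd).trans hMN, hm⟩)
    obtain ⟨t, ht1, ht2⟩ := hΩ P (coeffs b u) h2P hP
    have hcf : coeffs b u = fun i => coeffs b (fun x => ((ψ u x).val : ℤ)) i +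
        q * ∑ j, w (i, j) • b j := by
      funext i
      rw [← Sys.rs_coeffs_add_mul, ← hw]
    rw [hcf] at ht1 ht2
    simp only [Finset.mem_biUnion, Finset.mem_image, Finset.mem_univ, true_and]
    refine ⟨ψ u, ?_, t, w, ?_, hw.symm⟩
    · exact Finset.mem_filter.2 ⟨Finset.mem_univ _, (hS u).2 hSmu⟩
    · refine Finset.mem_filter.2 ⟨?_, P.asIdeal, P.isPrime, ⟨p, hp, hMp, hpP⟩, ht1, ht2⟩
      rw [box, Fintype.mem_piFinset] at hub ⊢
      intro x
      have h1 := Finset.mem_Icc.1 (hub x)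
      have h3 : u x = ((ψ u x).val : ℤ) + q * w x := congrFun hw x
      have h4 : (ψ u x).val < q := ZMod.val_lt _
      have h5 : (H : ℤ) = q * (H / q : ℕ) + (H % q : ℕ) := by
        exact_mod_cast (Nat.div_add_mod H q).symm
      have h6 : H % q < q := Nat.mod_lt _ hq0
      have hq' : (0 : ℤ) < q := by exact_mod_cast hq0
      rw [Finset.mem_Icc]
      zify at h4 h6
      push_cast at *
      constructor
      · by_contra h
        push Not at h
        have h7 : w x ≤ -((H : ℤ) / q) - 2 := by omega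
        nlinarith [h1.1, mul_le_mul_of_nonneg_left h7 hq'.le]
      · by_contra h
        push Not at h
        have h7 : ((H : ℤ) / q) + 1 ≤ w x := by omega
        nlinarith [h1.2, mul_le_mul_of_nonneg_left h7 hq'.le]
  have hcard : ∀ H : ℕ, (((box (ι × Fin s) H).filter fun u =>
      Sm u ∧ ∃ P, redk b e P u ∉ Ω P).card : ℝ) ≤ ∑ a ∈ Sf, ∑ t, ((bad t a (H / q + 1)).card : ℝ) := by
    intro H
    have h1 : ((box (ι × Fin s) H).filter fun u => Sm u ∧ ∃ P, redk b e P u ∉ Ω P).card ≤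
        ∑ a ∈ Sf, ∑ t, (bad t a (H / q + 1)).card := by
      refine (Finset.card_le_card (hsub H)).trans (Finset.card_biUnion_le.trans ?_)
      refine Finset.sum_le_sum fun a _ => Finset.card_biUnion_le.trans ?_
      exact Finset.sum_le_sum fun t _ => Finset.card_image_le
    exact_mod_cast h1
  set n := Fintype.card (ι × Fin s) with hn
  have hMpos : (0 : ℝ) < M := by
    have : 0 < M := by omega
    exact_mod_cast this
  have hqpos : (0 : ℝ) < q := by exact_mod_cast hq0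
  have hq1 : (1 : ℝ) ≤ q := by exact_mod_cast hq0
  -- the comparison of the two boxes
  have hest : ∀ (H : ℕ) (a : ι × Fin s → ZMod q) (t : T),
      ((bad t a (H / q + 1)).card : ℝ) / (2 * H + 1) ^ n ≤
        (|CC t| / M + |C' t a| * q * (1 / (2 * H + 1))) * (1 / q + 3 * (1 / (2 * H + 1))) ^ n := by
    intro H a t
    have hH0 : (0 : ℝ) < 2 * H + 1 := by positivity
    have h1 : (q : ℝ) * (H / q : ℕ) ≤ H := by exact_mod_cast Nat.mul_div_le H q
    have h2 : (H : ℝ) < q * (H / q : ℕ) + q := by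
      have := Nat.lt_mul_div_succ H hq0
      rw [Nat.mul_succ] at this
      exact_mod_cast this
    have hH' : (0 : ℝ) < 2 * ((H / q + 1 : ℕ) : ℝ) + 1 := by positivity
    have h3 : (2 * ((H / q + 1 : ℕ) : ℝ) + 1) / (2 * H + 1) ≤ 1 / q + 3 * (1 / (2 * H + 1)) := by
      rw [div_le_iff₀ hH0]
      have h4 : (1 / (q : ℝ) + 3 * (1 / (2 * H + 1))) * (2 * H + 1) = (2 * H + 1) / q + 3 := by
        field_simp
      rw [h4]
      have h5 : (2 * ((H / q : ℕ) : ℝ)) ≤ (2 * H + 1) / q := by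
        rw [le_div_iff₀ hqpos]
        linarith
      push_cast at *
      linarith
    have h6 : C' t a / (2 * ((H / q + 1 : ℕ) : ℝ) + 1) ≤ |C' t a| * q * (1 / (2 * H + 1)) := by
      have h7 : C' t a / (2 * ((H / q + 1 : ℕ) : ℝ) + 1) ≤
          |C' t a| / (2 * ((H / q + 1 : ℕ) : ℝ) + 1) :=
        div_le_div_of_nonneg_right (le_abs_self _) hH'.le
      refine h7.trans ?_
      rw [mul_assoc, div_eq_mul_inv]
      refine mul_le_mul_of_nonneg_left ?_ (abs_nonneg _)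
      rw [mul_one_div, inv_eq_one_div, div_le_div_iff₀ hH' hH0]
      push_cast at *
      nlinarith [hq1]
    have h8 : CC t / M ≤ |CC t| / M := div_le_div_of_nonneg_right (le_abs_self _) hMpos.le
    have h9 : 0 ≤ |CC t| / M + |C' t a| * q * (1 / (2 * H + 1)) := by positivity
    calc ((bad t a (H / q + 1)).card : ℝ) / (2 * H + 1) ^ n
        ≤ ((CC t / M + C' t a / (2 * ((H / q + 1 : ℕ) : ℝ) + 1)) *
            (2 * ((H / q + 1 : ℕ) : ℝ) + 1) ^ n) / (2 * H + 1) ^ n :=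
          div_le_div_of_nonneg_right (hbad t a (H / q + 1)) (by positivity)
      _ = (CC t / M + C' t a / (2 * ((H / q + 1 : ℕ) : ℝ) + 1)) *
            ((2 * ((H / q + 1 : ℕ) : ℝ) + 1) / (2 * H + 1)) ^ n := by
          rw [div_pow, mul_div_assoc]
      _ ≤ (|CC t| / M + |C' t a| * q * (1 / (2 * H + 1))) *
            ((2 * ((H / q + 1 : ℕ) : ℝ) + 1) / (2 * H + 1)) ^ n :=
          mul_le_mul_of_nonneg_right (add_le_add h8 h6) (by positivity)
      _ ≤ _ := mul_le_mul_of_nonneg_left (pow_le_pow_left₀ (by positivity) h3 n) h9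
  have hprop : ∀ H : ℕ, Sys.prop (fun u => Sm u ∧ ∃ P, redk b e P u ∉ Ω P) H ≤
      ∑ a ∈ Sf, ∑ t, (|CC t| / M + |C' t a| * q * (1 / (2 * H + 1))) *
        (1 / q + 3 * (1 / (2 * H + 1))) ^ n := by
    intro H
    have h1 : Sys.prop (fun u => Sm u ∧ ∃ P, redk b e P u ∉ Ω P) H ≤
        (∑ a ∈ Sf, ∑ t, ((bad t a (H / q + 1)).card : ℝ)) / (2 * H + 1) ^ n := by
      unfold Sys.prop
      rw [Sys.rs_card_box]
      refine div_le_div_of_nonneg_right ?_ (by positivity)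
      exact le_trans (le_of_eq (by congr)) (hcard H)
    refine h1.trans ?_
    rw [Finset.sum_div]
    refine Finset.sum_le_sum fun a _ => ?_
    rw [Finset.sum_div]
    exact Finset.sum_le_sum fun t _ => hest H a t
  have hy : Tendsto (fun H : ℕ => 1 / (2 * (H : ℝ) + 1)) atTop (𝓝 0) := by
    refine Tendsto.div_atTop tendsto_const_nhds ?_
    exact tendsto_atTop_add_const_right _ _
      (tendsto_natCast_atTop_atTop.const_mul_atTop (by norm_num))
  have hlim : Tendsto (fun H : ℕ => ∑ a ∈ Sf, ∑ t,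
      (|CC t| / M + |C' t a| * q * (1 / (2 * (H : ℝ) + 1))) *
        (1 / q + 3 * (1 / (2 * (H : ℝ) + 1))) ^ n) atTop
      (𝓝 (∑ a ∈ Sf, ∑ t, (|CC t| / M + |C' t a| * q * 0) * (1 / q + 3 * 0) ^ n)) := by
    refine tendsto_finsetSum _ fun a _ => tendsto_finsetSum _ fun t _ => ?_
    refine Tendsto.mul ?_ ?_
    · exact tendsto_const_nhds.add (tendsto_const_nhds.mul hy)
    · exact (tendsto_const_nhds.add (tendsto_const_nhds.mul hy)).pow n
  have hval : (∑ a ∈ Sf, ∑ t, (|CC t| / M + |C' t a| * q * 0) * (1 / q + 3 * 0) ^ n) =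
      (∑ t, |CC t|) / M * δ := by
    have h1 : (Nat.card S : ℝ) = Sf.card := by
      have : Nat.card S = Sf.card := by
        rw [Nat.card_eq_fintype_card, Fintype.card_subtype]
      rw [this]
    rw [hδ', h1, hcardA]
    simp only [mul_zero, add_zero]
    rw [Finset.sum_const, ← Finset.sum_mul, ← Finset.sum_div, nsmul_eq_mul]
    push_cast
    rw [one_div, inv_pow]
    ring
  rw [hval] at hlim
  have hev : ∀ᶠ H : ℕ in atTop, (∑ a ∈ Sf, ∑ t,
      (|CC t| / M + |C' t a| * q * (1 / (2 * (H : ℝ) + 1))) *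
        (1 / q + 3 * (1 / (2 * (H : ℝ) + 1))) ^ n) < (∑ t, |CC t|) / M * δ + ε :=
    (tendsto_order.1 hlim).2 _ (by linarith)
  filter_upwards [hev] with H hH
  exact (hprop H).trans hH.le

/-- Conditions modulo `P ^ e P` with bounded exponents `e P`. -/
theorem density_exp_le {T : Type} [Fintype T] (g G : T → MvPolynomial ι (𝓞 E))
    (hg : ∀ t, Irreducible (MvPolynomial.map (algebraMap (𝓞 E) E) (g t)))
    (hgG : ∀ t, ¬ MvPolynomial.map (algebraMap (𝓞 E) E) (g t) ∣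
      MvPolynomial.map (algebraMap (𝓞 E) E) (G t))
    {m₀ : 𝓞 E} (hm₀ : m₀ ≠ 0)
    {e : HeightOneSpectrum (𝓞 E) → ℕ} {K : ℕ} (he : ∀ P, e P ≤ K)
    (Ω : ∀ P : HeightOneSpectrum (𝓞 E), Set (ι → 𝓞 E ⧸ P.asIdeal ^ e P))
    (hΩ : ∀ (P : HeightOneSpectrum (𝓞 E)) (a : ι → 𝓞 E), m₀ ∉ P.asIdeal →
      (fun i => Ideal.Quotient.mk (P.asIdeal ^ e P) (a i)) ∉ Ω P →
        ∃ t, eval a (g t) ∈ P.asIdeal ∧ eval a (G t) ∈ P.asIdeal) :
    ∃ Δ : ℝ, HasProd (fun P => (Nat.card (Ω P) : ℝ) / Nat.card (ι → 𝓞 E ⧸ P.asIdeal ^ e P)) Δ ∧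
      Tendsto (Sys.prop fun u => ∀ P, redk b e P u ∈ Ω P) atTop (𝓝 Δ) ∧
      ((∀ P, (Ω P).Nonempty) → 0 < Δ) := by
  classical
  obtain ⟨C, M₀, hC, hsieve⟩ := fe2k_relative_sieve b g G hg hgG hm₀ he
  have hfin : ∀ P : HeightOneSpectrum (𝓞 E), Finite (ι → 𝓞 E ⧸ P.asIdeal ^ e P) := by
    intro P
    have : Finite (𝓞 E ⧸ P.asIdeal ^ e P) :=
      Ideal.finiteQuotientOfFreeOfNeBot (P.asIdeal ^ e P) (fe2k_ne_bot P _)
    infer_instance
  have hpos : ∀ P : HeightOneSpectrum (𝓞 E),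
      (0 : ℝ) < Nat.card (ι → 𝓞 E ⧸ P.asIdeal ^ e P) := by
    intro P
    have := hfin P
    have h : 0 < Nat.card (ι → 𝓞 E ⧸ P.asIdeal ^ e P) := Nat.card_pos
    exact_mod_cast h
  set TT : ℕ → Finset (HeightOneSpectrum (𝓞 E)) := fun M => (Sys.finite_small E M).toFinset
    with hTT
  have hmem : ∀ M P, P ∈ TT M ↔ ∃ p : ℕ, p.Prime ∧ p ≤ M ∧ (p : 𝓞 E) ∈ P.asIdeal := by
    intro M P
    simp [hTT]
  obtain ⟨Δ, h1, h2, h3, -⟩ := Sys.exists_density
    (fun P => (Nat.card (Ω P) : ℝ) / Nat.card (ι → 𝓞 E ⧸ P.asIdeal ^ e P))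
    (fun P => by positivity)
    (fun P => by
      have := hfin P
      rw [div_le_one (hpos P)]
      exact_mod_cast Nat.card_le_card_of_injective (Subtype.val : Ω P → _)
        Subtype.val_injective)
    TT (by
      intro M M' hMM' P hP
      rw [hmem] at hP ⊢
      obtain ⟨p, hp, hpM, hpP⟩ := hP
      exact ⟨p, hp, hpM.trans hMM', hpP⟩)
    (by
      intro P
      obtain ⟨p, hp, hpP⟩ := Sys.rs_exists_prime_mem P
      exact ⟨p, (hmem p P).mpr ⟨p, hp, le_rfl, hpP⟩⟩)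
    (Sys.prop fun u => ∀ P, redk b e P u ∈ Ω P)
    (fun M => Sys.prop fun u => ∀ P ∈ TT M, redk b e P u ∈ Ω P)
    (fun M => fe2k_tendsto_prop_red b e (TT M) Ω)
    (fun M H => Sys.t30_prop_mono (fun u hu P _ => hu P) H)
    (C := C) (M₀ := M₀)
    (by
      intro M hM ε hε
      have hlim := fe2k_tendsto_prop_red b e (TT M) Ω
      have heq : (fun u : ι × Fin s → ℤ => ∀ P ∈ TT M, redk b e P u ∈ Ω P) =
          fun u => ∀ P : HeightOneSpectrum (𝓞 E),
            (∃ p : ℕ, p.Prime ∧ p ≤ M ∧ (p : 𝓞 E) ∈ P.asIdeal) → redk b e P u ∈ Ω P := by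
        funext u
        refine propext ⟨fun h P hP => h P ((hmem M P).mpr hP),
          fun h P hP => h P ((hmem M P).mp hP)⟩
      have hs := hsieve Ω hΩ M hM _ (by rw [← heq]; exact hlim) ε hε
      filter_upwards [hs] with H hH
      have hadd := Sys.t30_prop_add (fun u : ι × Fin s → ℤ => ∀ P ∈ TT M, redk b e P u ∈ Ω P)
        (fun u => ∀ P, redk b e P u ∈ Ω P) H
      have e1 : Sys.prop (fun u : ι × Fin s → ℤ => (∀ P ∈ TT M, redk b e P u ∈ Ω P) ∧
          ∀ P, redk b e P u ∈ Ω P) H ≤ Sys.prop (fun u => ∀ P, redk b e P u ∈ Ω P) H :=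
        Sys.t30_prop_mono (fun u hu => hu.2) H
      have e2 : Sys.prop (fun u : ι × Fin s → ℤ => (∀ P ∈ TT M, redk b e P u ∈ Ω P) ∧
          ¬ ∀ P, redk b e P u ∈ Ω P) H ≤ Sys.prop (fun u => (∀ P : HeightOneSpectrum (𝓞 E),
          (∃ p : ℕ, p.Prime ∧ p ≤ M ∧ (p : 𝓞 E) ∈ P.asIdeal) → redk b e P u ∈ Ω P) ∧
            ∃ P, redk b e P u ∉ Ω P) H := by
        refine Sys.t30_prop_mono (fun u hu => ⟨fun P hP => hu.1 P ((hmem M P).mpr hP), ?_⟩) H
        have := hu.2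
        push Not at this
        exact this
      show Sys.prop (fun u : ι × Fin s → ℤ => ∀ P ∈ TT M, redk b e P u ∈ Ω P) H - _ ≤ _
      linarith)
  refine ⟨Δ, h1, h2, ?_⟩
  intro hne
  refine h3 fun P => ?_
  have := hfin P
  have : Nonempty (Ω P) := (hne P).to_subtype
  have h : 0 < Nat.card (Ω P) := Nat.card_pos
  exact div_pos (by exact_mod_cast h) (hpos P)

/-- TASK E2x: conditions modulo `P ^ e P` with `e P = 2` for all but finitely many `P`. -/
theorem density_exp {T : Type} [Fintype T] (g G : T → MvPolynomial ι (𝓞 E))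
    (hg : ∀ t, Irreducible (MvPolynomial.map (algebraMap (𝓞 E) E) (g t)))
    (hgG : ∀ t, ¬ MvPolynomial.map (algebraMap (𝓞 E) E) (g t) ∣
      MvPolynomial.map (algebraMap (𝓞 E) E) (G t))
    {m₀ : 𝓞 E} (hm₀ : m₀ ≠ 0)
    (e : HeightOneSpectrum (𝓞 E) → ℕ) (he : {P | e P ≠ 2}.Finite)
    (Ω : ∀ P : HeightOneSpectrum (𝓞 E), Set (ι → 𝓞 E ⧸ P.asIdeal ^ e P))
    (hΩ : ∀ (P : HeightOneSpectrum (𝓞 E)) (a : ι → 𝓞 E), m₀ ∉ P.asIdeal → e P = 2 →
      (fun i => Ideal.Quotient.mk (P.asIdeal ^ e P) (a i)) ∉ Ω P →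
        ∃ t, eval a (g t) ∈ P.asIdeal ∧ eval a (G t) ∈ P.asIdeal) :
    ∃ Δ : ℝ, HasProd (fun P => (Nat.card (Ω P) : ℝ) / Nat.card (ι → 𝓞 E ⧸ P.asIdeal ^ e P)) Δ ∧
      Tendsto (Sys.prop fun u => ∀ P, redk b e P u ∈ Ω P) atTop (𝓝 Δ) ∧
      ((∀ P, (Ω P).Nonempty) → 0 < Δ) := by
  classical
  have h1 : ∀ P : HeightOneSpectrum (𝓞 E), ∃ z ∈ P.asIdeal, z ≠ 0 := fun P =>
    Submodule.exists_mem_ne_zero_of_ne_bot P.ne_bot
  choose z hz hz0 using h1
  obtain ⟨K, hK⟩ : ∃ K, ∀ P, e P ≤ K := by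
    refine ⟨2 + ∑ P ∈ he.toFinset, e P, fun P => ?_⟩
    by_cases h : e P = 2
    · omega
    · have := Finset.single_le_sum (f := e) (fun _ _ => Nat.zero_le _)
        (he.mem_toFinset.2 (show P ∈ {P | e P ≠ 2} from h))
      omega
  refine density_exp_le b g G hg hgG
    (mul_ne_zero hm₀ (Finset.prod_ne_zero_iff.2 fun P (_ : P ∈ he.toFinset) => hz0 P)) hK Ω
    fun P a hP ha => hΩ P a (fun h => hP (Ideal.mul_mem_right _ _ h)) ?_ ha
  by_contra h
  refine hP (Ideal.mul_mem_left _ _ ?_)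
  exact Ideal.mem_of_dvd _ (Finset.dvd_prod_of_mem z
    (he.mem_toFinset.2 (show P ∈ {P | e P ≠ 2} from h))) (hz P)

end Esec

end Pool.Agent.Lib.MP_6a3dac_ag.Fam
end
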