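import Pool.Agent.Lib.MP_6a3dac_ag.Mg.G014
import Pool.Agent.Lib.MP_6a3dac_ag.Mg.G021
import Pool.Agent.Lib.MP_6a3dac_ag.Mg.G013

section

/-!
# The local criterion at one prime
-/

set_option autoImplicit false

namespace Pool.Agent.Lib.MP_6a3dac_ag.Fam

open MvPolynomial CategoryTheory Limits AlgebraicGeometry NumberField IsDedekindDomain
open Pool.Agent.Lib.MP_6a3dac_ag.DNF Pool.Agent.Lib.MP_6a3dac_ag.Bert

variable {E : Type} [Field E] [NumberField E] {m c : ℕ} {J : HomIdeal (𝓞 E) (m + c + 1)}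

/-- The local criterion at the primes of a nonempty set. -/
theorem modelOn_of_local_fam (hgen : GenFibreSmooth J) {T : Set (HeightOneSpectrum (𝓞 E))}
    (hT0 : T.Nonempty) (hP : ∀ P ∈ T, TanOver P J ∨ NodalOver P J) :
    ModelOn E T (hProjTo (bc (algebraMap (𝓞 E) E) J)) := by
  have hLD : ∀ i, LocDom (dId (bc (algebraMap (𝓞 E) E) J) i) := fun i =>
    locDom_of_smoothPt (hgen.smoothPt i)
  obtain ⟨τ, _, p, f, h1, h2, h3, h4, h5, h6⟩ :=
    exists_components (bc (algebraMap (𝓞 E) E) J) hLD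
  refine ModelOn.of_finite f h4 h5 h6 fun j => ?_
  rw [h3 j]
  exact modelOn_component_fam hLD (h1 j) hgen hT0 hP

/-- **The local criterion at one prime** -/
theorem hasModelAt_of_local (hgen : GenFibreSmooth J) {P : HeightOneSpectrum (𝓞 E)}
    (hP : TanOver P J ∨ NodalOver P J) :
    HasModelAt E P (hProjTo (bc (algebraMap (𝓞 E) E) J)) := by
  obtain ⟨z, hz0, hz⟩ := exists_tanOver hgen
  have h := modelOn_of_local_fam hgen (T := {Q | Q = P ∨ z ∉ Q.asIdeal}) ⟨P, Or.inl rfl⟩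
    fun Q hQ => by
      rcases hQ with rfl | hQ
      · exact hP
      · exact Or.inl (hz Q hQ)
  refine h.hasModelAt ((finite_mem_prime hz0).subset fun Q hQ => ?_) (Or.inl rfl)
  by_contra hzQ
  exact hQ (Or.inr hzQ)

end Pool.Agent.Lib.MP_6a3dac_ag.Fam
end

section

/-!
# Gluing models which are regular outside of a finite set of primes
-/

set_option autoImplicit false

namespace Pool.Agent.Lib.MP_6a3dac_ag.Fam

open MvPolynomial CategoryTheory Limits AlgebraicGeometry NumberField IsDedekindDomain Filter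
open Pool.Agent.Lib.MP_6a3dac_ag.DNF Pool.Agent.Lib.MP_6a3dac_ag.Bert
open Pool.Agent.Lib.MP_6a3dac_ag.GL

variable {E : Type} [Field E] [NumberField E]

/-- **Gluing.** If the morphism `π` has near every prime a proper flat model which is regular over
the points with the property `R`, then it has a global such model. -/
theorem exists_model_of_forall {X : Scheme.{0}} {π : X ⟶ Spec (CommRingCat.of E)}
    (R : Spec (CommRingCat.of (𝓞 E)) → Prop)
    (h : ∀ P : HeightOneSpectrum (𝓞 E), ∃ (U : (Spec (CommRingCat.of (𝓞 E))).Opens)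
      (Y : Scheme.{0}) (g : Y ⟶ Spec (CommRingCat.of (𝓞 E))),
      (⟨P.asIdeal, P.isPrime⟩ : PrimeSpectrum (𝓞 E)) ∈ U ∧ IsProper (g ∣_ U) ∧ Flat (g ∣_ U) ∧
      (∀ y : Y, g y ∈ U → R (g y) → IsRegularLocalRing (Y.presheaf.stalk y)) ∧
      ∃ e : pullback g (Spec.map (CommRingCat.ofHom (algebraMap (𝓞 E) E))) ≅ X,
        e.hom ≫ π = pullback.snd g (Spec.map (CommRingCat.ofHom (algebraMap (𝓞 E) E)))) :
    ∃ (Y : Scheme.{0}) (g : Y ⟶ Spec (CommRingCat.of (𝓞 E))),
      IsProper g ∧ Flat g ∧ (∀ y : Y, R (g y) → IsRegularLocalRing (Y.presheaf.stalk y)) ∧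
      ∃ e : pullback g (Spec.map (CommRingCat.ofHom (algebraMap (𝓞 E) E))) ≅ X,
        e.hom ≫ π = pullback.snd g (Spec.map (CommRingCat.ofHom (algebraMap (𝓞 E) E))) := by
  choose U Y g hPU hprop hflat hreg e he using h
  have hne : ∃ P : HeightOneSpectrum (𝓞 E), True := by
    obtain ⟨M, hM⟩ := Ideal.exists_maximal (𝓞 E)
    exact ⟨⟨M, hM.isPrime, Ring.ne_bot_of_isMaximal_of_not_isField hM
      (RingOfIntegers.not_isField E)⟩, trivial⟩
  obtain ⟨P₀, -⟩ := hne
  have hp : ∀ P, gpt (𝓞 E) ∈ U P := fun P => gpt_mem _ _ (hPU P)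
  obtain ⟨K, hK, x, hinj, hx0, hcov⟩ : ∃ (K : Type) (_ : Finite K)
      (x : K → Spec (CommRingCat.of (𝓞 E))), Function.Injective x ∧ (∀ k, x k ∉ U P₀) ∧
        ∀ y, y ∉ U P₀ → ∃ k, x k = y :=
    ⟨{x : Spec (CommRingCat.of (𝓞 E)) // x ∉ U P₀}, (finite_compl (U P₀) (hp P₀)).to_subtype,
      Subtype.val, Subtype.val_injective, fun k => k.2, fun y hy => ⟨⟨y, hy⟩, rfl⟩⟩
  obtain ⟨pt, hpt0, hpt⟩ : ∃ pt : Option K → HeightOneSpectrum (𝓞 E), pt none = P₀ ∧
      ∀ k, ((pt (some k)).asIdeal = (x k : PrimeSpectrum (𝓞 E)).asIdeal) :=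
    ⟨fun j => j.elim P₀ fun k => ⟨(x k : PrimeSpectrum (𝓞 E)).asIdeal,
      (x k : PrimeSpectrum (𝓞 E)).isPrime, asIdeal_ne_bot (hp P₀) (hx0 k)⟩, rfl, fun k => rfl⟩
  subst hpt0
  have hpt' : ∀ k, x k ∈ U (pt (some k)) := by
    intro k
    have h1 := hPU (pt (some k))
    have h2 : (⟨(pt (some k)).asIdeal, (pt (some k)).isPrime⟩ : PrimeSpectrum (𝓞 E)) = x k :=
      PrimeSpectrum.ext (hpt k)
    rwa [h2] at h1
  have hiso := fun k : K =>
    exists_iso_restrict (g (pt none)) (g (pt (some k))) (U (pt none)) (U (pt (some k)))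
      (hp _) (hp _) (hprop _) (hprop _) (e (pt none) ≪≫ (e (pt (some k))).symm) (by
        rw [Iso.trans_hom, Category.assoc, Iso.symm_hom, ← he (pt (some k)), Iso.inv_hom_id_assoc,
          he])
  choose W hpW hW0 hW φ hφ using hiso
  obtain ⟨V, Z, q, f, hVU, hVtop, hVn, hf1, hf2, hf3, hf4⟩ :=
    exists_star (S := Spec (CommRingCat.of (𝓞 E))) (p₀ := gpt (𝓞 E)) finite_compl
      (fun U hU x hx => isClosed_singleton hU hx) hinj (U := fun j => U (pt j))
      (fun j => hp _) hpt' hx0 hcov (fun j => g (pt j)) W hpW hW φ hφ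
  have hpr : IsProper q := of_glue (P := @IsProper) q V hVtop (fun j => g (pt j) ∣_ V j) f hf1 hf2
    hf4 fun j => morphismRestrict_of_le (P := @IsProper) _ (hVU j) (hprop (pt j))
  have := isZariskiLocalAtTarget_flat
  have hfl : Flat q := of_glue (P := @Flat) q V hVtop (fun j => g (pt j) ∣_ V j) f hf1 hf2
    hf4 fun j => morphismRestrict_of_le (P := @Flat) _ (hVU j) (hflat (pt j))
  refine ⟨Z, q, hpr, hfl, ?_, ?_⟩
  · intro z hz
    obtain ⟨j, y, rfl⟩ := hf3 z
    have := hf1 j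
    have hy : q (f j y) = g (pt j) ((g (pt j) ⁻¹ᵁ V j).ι y) := by
      rw [← Scheme.Hom.comp_apply, hf2, morphismRestrict_ι, Scheme.Hom.comp_apply]
    rw [hy] at hz
    rw [← isRegularLocalRing_stalk_of_isOpenImmersion (f j) y,
      isRegularLocalRing_stalk_of_isOpenImmersion (g (pt j) ⁻¹ᵁ V j).ι y]
    exact hreg (pt j) _ (hVU j y.2) hz
  · have hV0 : gpt (𝓞 E) ∈ V none := by
      rw [hVn]
      exact hp _
    have := hf1 none
    obtain ⟨e₁, he₁⟩ := exists_pullback_iso q ((g (pt none) ⁻¹ᵁ V none).ι ≫ g (pt none)) (f none)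
      (by rw [hf2, morphismRestrict_ι]) (Spec.map (CommRingCat.ofHom (algebraMap (𝓞 E) E)))
      (fun z hz => hf4 none z (by rwa [range_generic _ hz]))
    obtain ⟨e₂, he₂⟩ := exists_pullback_iso (g (pt none))
      ((g (pt none) ⁻¹ᵁ V none).ι ≫ g (pt none)) (g (pt none) ⁻¹ᵁ V none).ι rfl
      (Spec.map (CommRingCat.ofHom (algebraMap (𝓞 E) E))) (fun z hz => by
        rw [Scheme.Opens.range_ι]
        change g (pt none) z ∈ V none
        rwa [range_generic _ hz])
    refine ⟨e₁.symm ≪≫ e₂ ≪≫ e (pt none), ?_⟩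
    rw [Iso.trans_hom, Iso.trans_hom, Category.assoc, Category.assoc, he, he₂, Iso.symm_hom,
      Iso.inv_comp_eq, he₁]

/-- Some prime does not contain a given nonzero element. -/
theorem exists_notMem_prime {z : 𝓞 E} (hz : z ≠ 0) :
    ∃ Q : HeightOneSpectrum (𝓞 E), z ∉ Q.asIdeal := by
  have hn : Ideal.absNorm (Ideal.span {z}) ≠ 0 := by
    rw [Ne, Ideal.absNorm_eq_zero_iff, Ideal.span_singleton_eq_bot]
    exact hz
  obtain ⟨p, hpn, hp⟩ := Nat.exists_infinite_primes (Ideal.absNorm (Ideal.span {z}) + 1)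
  have hne : Ideal.span {(p : 𝓞 E)} ≠ ⊤ := by
    intro h
    have h1 := Ideal.absNorm_span_natCast (S := 𝓞 E) p
    rw [h, Ideal.absNorm_top] at h1
    have h2 := (Nat.pow_eq_one.1 h1.symm)
    rcases h2 with h2 | h2
    · exact hp.one_lt.ne' h2
    · exact (Module.finrank_pos (R := ℤ) (M := 𝓞 E)).ne' h2
  obtain ⟨M, hM, hpM⟩ := Ideal.exists_le_maximal _ hne
  refine ⟨⟨M, hM.isPrime, Ring.ne_bot_of_isMaximal_of_not_isField hM
    (RingOfIntegers.not_isField E)⟩, fun hzM => ?_⟩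
  have h1 : ((Ideal.absNorm (Ideal.span {z}) : ℕ) : 𝓞 E) ∈ M :=
    (Ideal.span_singleton_le_iff_mem M).2 hzM (Ideal.absNorm_mem _)
  have h2 : (p : 𝓞 E) ∈ M := (Ideal.span_singleton_le_iff_mem M).1 hpM
  have h3 : Nat.Coprime p (Ideal.absNorm (Ideal.span {z})) :=
    (Nat.Prime.coprime_iff_not_dvd hp).2 fun h4 => by
      have := Nat.le_of_dvd (Nat.pos_of_ne_zero hn) h4
      omega
  have h4 := (Nat.isCoprime_iff_coprime.2 h3).map (Int.castRingHom (𝓞 E))
  obtain ⟨u, v, huv⟩ := h4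
  apply hM.ne_top
  rw [Ideal.eq_top_iff_one, ← huv]
  refine M.add_mem (M.mul_mem_left _ ?_) (M.mul_mem_left _ ?_)
  · simpa using h2
  · simpa using h1

variable {m c : ℕ} {J : HomIdeal (𝓞 E) (m + c + 1)}

/-- If there is a regular model near every prime outside of `S`, then there is a proper flat model
which is regular at all points which do not lie over a prime in `S`. -/
theorem modelOn_compl_of_forall_hasModelAt (hgen : GenFibreSmooth J)
    {S : Set (HeightOneSpectrum (𝓞 E))}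
    (h : ∀ P, P ∉ S → HasModelAt E P (hProjTo (bc (algebraMap (𝓞 E) E) J))) :
    ModelOn E Sᶜ (hProjTo (bc (algebraMap (𝓞 E) E) J)) := by
  obtain ⟨z, hz0, hz⟩ := exists_tanOver hgen
  obtain ⟨Y, g, hpr, hfl, hreg, e, he⟩ := modelOn_of_local_fam hgen
    (T := {Q | z ∉ Q.asIdeal}) (exists_notMem_prime hz0) fun Q hQ => Or.inl (hz Q hQ)
  obtain ⟨Y', g', a1, a2, a3, a4⟩ := exists_model_of_forall
    (π := hProjTo (bc (algebraMap (𝓞 E) E) J))
    (fun s => ∀ P : HeightOneSpectrum (𝓞 E), s.asIdeal = P.asIdeal → P ∉ S) (fun P => by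
      by_cases hP : P ∈ S
      · have hfin : {Q : HeightOneSpectrum (𝓞 E) | z ∈ Q.asIdeal ∧ Q ≠ P}.Finite :=
          (finite_mem_prime hz0).subset fun Q hQ => hQ.1
        have hcl : IsClosed (⋃ Q ∈ {Q : HeightOneSpectrum (𝓞 E) | z ∈ Q.asIdeal ∧ Q ≠ P},
            ({⟨Q.asIdeal, Q.isPrime⟩} : Set (PrimeSpectrum (𝓞 E)))) :=
          hfin.isClosed_biUnion fun Q _ =>
            (PrimeSpectrum.isClosed_singleton_iff_isMaximal _).2 Q.isMaximal
        refine ⟨⟨_, hcl.isOpen_compl⟩, Y, g, ?_, inferInstance, inferInstance, ?_, e, he⟩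
        · intro hx
          obtain ⟨Q, hQ, hx⟩ := Set.mem_iUnion₂.1 hx
          apply hQ.2
          ext1
          exact (congrArg PrimeSpectrum.asIdeal hx).symm
        · intro y hy hR
          refine hreg y fun Q hQ hzQ => ?_
          refine hy (Set.mem_biUnion (x := Q) ⟨hzQ, ?_⟩ (PrimeSpectrum.ext hQ))
          rintro rfl
          exact hR Q hQ hP
      · obtain ⟨U, Y₁, g₁, h1, h2, h3, h4, h5⟩ := h P hP
        exact ⟨U, Y₁, g₁, h1, h2, h3, fun y hy _ => h4 y hy, h5⟩)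
  exact ⟨Y', g', a1, a2, fun y hy => a3 y hy, a4⟩

end Pool.Agent.Lib.MP_6a3dac_ag.Fam
end
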