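import Pool.Agent.Lib.MP_6a3dac_ag.Blow.A
import Pool.Agent.Lib.MP_6a3dac_ag.Mg.G021
import Pool.Agent.Lib.MP_6a3dac_ag.Blow.Open
import Pool.Agent.Lib.MP_6a3dac_ag.Mg.G041
import Pool.Agent.Lib.MP_6a3dac_ag.Mg.G022
import Pool.Agent.Lib.MP_6a3dac_ag.Fam.F3
import Pool.Agent.Lib.MP_6a3dac_ag.Fam.GLDefs

section

/-!
# The model of a component: a regular blow-up
-/

set_option autoImplicit false

namespace Pool.Agent.Lib.MP_6a3dac_ag.Blow

open MvPolynomial CategoryTheory Limits AlgebraicGeometry NumberField IsDedekindDomain Filter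
open IsLocalRing Topology
open Pool.Agent.Lib.MP_6a3dac_ag.DNF Pool.Agent.Lib.MP_6a3dac_ag.Bert
open Pool.Agent.Lib.MP_6a3dac_ag.Fam
open Pool.Agent.Lib.MP_6a3dac_ag.Maj

variable {E : Type} [Field E] [NumberField E] {m c : ℕ} {J : HomIdeal (𝓞 E) (m + c + 1)}

/-- TASK BLOW-B: the local criterion at the primes of a set `T`, for a component: a regular blow-up
over one prime. -/
theorem modelOn_component_blow {p : HomIdeal E (m + c + 1)}
    (hLD : ∀ i, LocDom (dId (bc (algebraMap (𝓞 E) E) J) i))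
    (hp : p.ideal ∈ (bc (algebraMap (𝓞 E) E) J).ideal.minimalPrimes)
    (hgen : GenFibreSmooth J) {T : Set (HeightOneSpectrum (𝓞 E))} (hT0 : T.Nonempty)
    {P : HeightOneSpectrum (𝓞 E)} (hT : ∀ Q ∈ T, Q = P ∨ TanOver Q J)
    {δ r : ℕ} (hδ : 1 ≤ δ) {Θ : 𝓞 E} (hΘ0 : Θ ≠ 0)
    {G : Fin r → MvPolynomial (Fin (m + c + 1)) (𝓞 E)} (hG : ∀ j, (G j).IsHomogeneous δ)
    (hB : BlowOver P J Θ G) : ModelOn E T (hProjTo p) := by
  classical
  obtain ⟨G₀, hG₀⟩ : ∃ G₀ : Finset (MvPolynomial (Fin (m + c + 1)) (𝓞 E)),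
    G₀ = Finset.univ.image G := ⟨_, rfl⟩
  have hG₀m : ∀ g, g ∈ G₀ ↔ ∃ j, G j = g := fun g => by rw [hG₀]; simp
  have hGδ : ∀ g ∈ G₀, g.IsHomogeneous δ := by
    intro g hg
    obtain ⟨j, rfl⟩ := (hG₀m g).1 hg
    exact hG j
  have hprime : p.ideal.IsPrime := hp.1.1
  have : IsDomain (HCoord p) := Ideal.Quotient.isDomain p.ideal
  let _ : Algebra (𝓞 E) (HCoord p) := ((algebraMap E (HCoord p)).comp (algebraMap (𝓞 E) E)).toAlgebra
  have : IsScalarTower (𝓞 E) E (HCoord p) := IsScalarTower.of_algebraMap_eq fun _ => rfl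
  have hRf : ¬ IsField (𝓞 E) := RingOfIntegers.not_isField E
  -- the exponents
  obtain ⟨rr, hr⟩ : ∃ rr : HeightOneSpectrum (𝓞 E) → ℕ, rr P = 1 ∧ ∀ Q, Q ≠ P → rr Q = 0 :=
    ⟨fun Q => if Q = P then 1 else 0, if_pos rfl, fun Q hQ => if_neg hQ⟩
  have hdeg : ∀ (S : Type) [CommRing S] [Algebra S E] (q : MvPolynomial (Fin (m + c + 1)) S) e,
      q.IsHomogeneous e → piS (hMk p) S q ∈ hGr p e := fun S _ _ q e hq =>
    ⟨_, hq.map _, rfl⟩
  have hoA : ∀ Q : HeightOneSpectrum (𝓞 E), oA E (HCoord p) (locRing E Q)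
      (algebraMap (𝓞 E) (locRing E Q) Θ) = algebraMap (𝓞 E) (HCoord p) Θ := fun Q =>
    oA_algebraMap (K := E) (O := locRing E Q) Θ
  have hxP : ∀ Q : HeightOneSpectrum (𝓞 E), (fun k => piS (hMk p) (locRing E Q) (X k)) =
      fun k => hMk p (X k) := fun Q => funext fun k => piS_X (hMk p) _ k
  -- the forms over the local rings
  obtain ⟨GP, hGP⟩ : ∃ GP : ∀ Q : HeightOneSpectrum (𝓞 E),
      Finset (MvPolynomial (Fin (m + c + 1)) (locRing E Q)), ∀ Q,
      GP Q = G₀.image (MvPolynomial.map (algebraMap (𝓞 E) (locRing E Q))) := ⟨_, fun _ => rfl⟩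
  have hGPδ : ∀ Q, ∀ g ∈ GP Q, g.IsHomogeneous δ := by
    intro Q g hg
    rw [hGP, Finset.mem_image] at hg
    obtain ⟨g, hg, rfl⟩ := hg
    exact (hGδ g hg).map _
  have hO := fun Q : HeightOneSpectrum (𝓞 E) => orderHypB (R := 𝓞 E) (K := E) Q.asIdeal
    (𝒜 := hGr p) (π := piS (hMk p) (locRing E Q)) (hdeg _) (fun c => piS_C (hMk p) _ c) hδ
    (hGPδ Q) (algebraMap (𝓞 E) (locRing E Q) Θ) (rr Q)
  have hLG : LocalGens (R := 𝓞 E) (hGr p) (fun Q => DNF.WSet (fun k => hMk p (X k))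
      (oset (piS (hMk p) (locRing E Q)) δ (GP Q) (algebraMap (𝓞 E) (HCoord p) Θ)) (rr Q) ∪
        DNF.W1Set (fun k => hMk p (X k)) (algebraMap (𝓞 E) (HCoord p) Θ) (rr Q))
        (Set.range fun k => hMk p (X k)) :=
    { finite := fun Q => (DNF.finite_WSet (fun j => finite_oset _ _ _ _ j) _).union
        (DNF.finite_W1Set _)
      finite₀ := Set.finite_range _
      ae := by
        refine (Set.finite_singleton P).subset ?_
        intro Q hQ'
        by_contra hdp
        apply hQ'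
        have h1 : rr Q = 0 := hr.2 Q fun h => hdp (Set.mem_singleton_iff.2 h)
        change DNF.WSet (fun k => hMk p (X k)) (oset (piS (hMk p) (locRing E Q)) δ (GP Q)
          (algebraMap (𝓞 E) (HCoord p) Θ)) (rr Q) ∪
          DNF.W1Set (fun k => hMk p (X k)) (algebraMap (𝓞 E) (HCoord p) Θ) (rr Q) = _
        rw [h1, WSet_zero, W1Set_zero, Set.union_self]
      homog := by
        intro Q w hw
        have hOP := hO Q
        rw [hxP, hoA] at hOP
        rcases hw with hw | ⟨i, rfl⟩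
        · exact ⟨_, Nat.succ_pos _, hOP.W_deg hw⟩
        · refine ⟨1, one_pos, ?_⟩
          have := SetLike.mul_mem_graded hOP.theta_deg (hOP.xdeg i)
          simpa using this
      full := fun Q a => full_order (hMk p) (adjoin_hMk p) hΘ0 (rr Q) a
      full₀ := fun a => by
        have := full_order (hMk p) (adjoin_hMk p) (B := fun _ => ∅) (one_ne_zero (α := 𝓞 E)) 0 a
        rwa [WSet_zero, W1Set_zero, Set.union_self] at this }
  have hnt : Nontrivial (HCoord p) := inferInstance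
  refine exists_model_on (hGr p) hLG hRf hT0 fun Q hQT => ?_
  intro hS y hy hyh hirr
  let F := FractionRing (HCoord p)
  let ι : HCoord p →+* F := algebraMap (HCoord p) F
  have hι : Function.Injective ι := IsFractionRing.injective (HCoord p) F
  apply isRegularLocalRing_of_homLoc (hGr p) ι _ y hι hS
  have hOK : Function.Injective (algebraMap (locRing E Q) E) :=
    FaithfulSMul.algebraMap_injective _ E
  have hrel : ∃ k, 0 < k ∧ ∃ t : localOrder (fun Q => DNF.WSet (fun k => hMk p (X k))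
      (oset (piS (hMk p) (locRing E Q)) δ (GP Q) (algebraMap (𝓞 E) (HCoord p) Θ)) (rr Q) ∪
        DNF.W1Set (fun k => hMk p (X k)) (algebraMap (𝓞 E) (HCoord p) Θ) (rr Q)) Q,
      (t : HCoord p) ∈ hGr p k ∧ t ∉ y := by
    by_contra hcon
    push Not at hcon
    apply hirr
    rw [HomogeneousIdeal.toIdeal_irrelevant_le]
    intro i hi s hs
    exact hcon i hi s hs
  have hT' : localOrder (fun Q => DNF.WSet (fun k => hMk p (X k))
      (oset (piS (hMk p) (locRing E Q)) δ (GP Q) (algebraMap (𝓞 E) (HCoord p) Θ)) (rr Q) ∪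
        DNF.W1Set (fun k => hMk p (X k)) (algebraMap (𝓞 E) (HCoord p) Θ) (rr Q)) Q =
      locSub Q.asIdeal (Algebra.adjoin (𝓞 E)
        (DNF.WSet (fun k => piS (hMk p) (locRing E Q) (X k))
          (oset (piS (hMk p) (locRing E Q)) δ (GP Q) (oA E (HCoord p) (locRing E Q)
            (algebraMap (𝓞 E) (locRing E Q) Θ))) (rr Q) ∪
        DNF.W1Set (fun k => piS (hMk p) (locRing E Q) (X k)) (oA E (HCoord p) (locRing E Q)
            (algebraMap (𝓞 E) (locRing E Q) Θ)) (rr Q))) := by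
    rw [hxP, hoA]
    rfl
  have hlocD := isLocalRing_homLoc (hGr p) ι _ y hι
  obtain ⟨i, φ, b, h1, h2, h3, h4⟩ := exists_chartPoint (R := 𝓞 E) (K := E) hOK Q.asIdeal
    (𝒜 := hGr p) (π := piS (hMk p) (locRing E Q)) (hdeg _) (fun c => piS_C (hMk p) _ c) hδ
    (hGPδ Q) ι hι (algebraMap (𝓞 E) (locRing E Q) Θ) (rr Q) hT' y hy hrel
  have hi : X i ∉ p.ideal := by
    intro h5
    apply h1
    rw [piS_X, hMk_eq_zero]
    exact h5
  have hφ : ∀ q, φ q = 0 ↔ MvPolynomial.map (algebraMap (locRing E Q) E) q ∈ dId p i := by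
    intro q
    obtain ⟨N, g, hg, rfl⟩ := exists_homog i q
    rw [h2 N g hg, piS_apply, hMk_eq_zero, map_dehom', dehom_mem_iff p hprime hi (hg.map _)]
  have hpimage : ∀ w, (∃ g ∈ GP Q, w = φ (dehom i g)) ↔ ∃ g ∈ G₀,
      w = φ (MvPolynomial.map (algebraMap (𝓞 E) (locRing E Q)) (dehom i g)) := by
    intro w
    rw [hGP]
    constructor
    · rintro ⟨g, hg, rfl⟩
      obtain ⟨g', hg', rfl⟩ := Finset.mem_image.mp hg
      exact ⟨g', hg', by rw [map_dehom']⟩
    · rintro ⟨g, hg, rfl⟩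
      exact ⟨_, Finset.mem_image_of_mem _ hg, by rw [map_dehom']⟩
  by_cases hQP : Q = P
  · subst hQP
    have hrP : rr Q = 1 := hr.1
    obtain ⟨a1, a2, a3, a4⟩ := h3 1 le_rfl hrP.ge
    refine regular_of_blowOver hgen hLD hp Q hi φ hφ hB hΘ0 (b 1) a1 ?_ ?_ ?_ ?_
    · rw [pow_one] at a2
      exact a2
    · intro j
      obtain ⟨g', hg', h5⟩ := (hpimage _).mpr ⟨G j, (hG₀m _).2 ⟨j, rfl⟩, rfl⟩
      rw [h5]
      exact a3 g' hg'
    · have h5 : (Set.range fun j => φ (MvPolynomial.map (algebraMap (𝓞 E) (locRing E Q))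
          (dehom i (G j)))) = ((fun g => φ (dehom i g)) '' (GP Q : Set _)) := by
        ext w
        constructor
        · rintro ⟨j, rfl⟩
          obtain ⟨g', hg', h5⟩ := (hpimage _).mpr ⟨G j, (hG₀m _).2 ⟨j, rfl⟩, rfl⟩
          exact ⟨g', hg', h5.symm⟩
        · rintro ⟨g, hg, rfl⟩
          obtain ⟨g', hg', h5⟩ := (hpimage _).mp ⟨g, hg, rfl⟩
          obtain ⟨j, rfl⟩ := (hG₀m _).1 hg'
          exact ⟨j, h5.symm⟩
      rw [h5]
      rw [pow_one] at a4
      exact a4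
    · intro R' hR1 hR2 hR3
      refine h4 R' hR1 hR2 fun j hj1 hj2 w hw => ?_
      have hj : j = 1 := by omega
      subst hj
      rw [pow_one] at hw
      refine hR3 w ?_
      rcases hw with hw | ⟨g, hg, hw⟩
      · exact Or.inl hw
      · obtain ⟨g', hg', h5⟩ := (hpimage _).mp ⟨g, hg, rfl⟩
        obtain ⟨j, rfl⟩ := (hG₀m _).1 hg'
        exact Or.inr ⟨j, hw.trans h5⟩
  · have hPt := (hT Q hQT).resolve_left hQP
    refine regular_of_tanOver hgen hLD hp Q hi φ hφ hPt ?_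
    have hr0' : rr Q = 0 := hr.2 Q hQP
    exact h4 _ (dom_locIn φ) le_rfl fun j hj1 hj2 => by omega

end Pool.Agent.Lib.MP_6a3dac_ag.Blow
end

section

/-!
# Regular models near a prime: regular blow-ups
-/

set_option autoImplicit false

namespace Pool.Agent.Lib.MP_6a3dac_ag.Blow

open MvPolynomial CategoryTheory Limits AlgebraicGeometry NumberField IsDedekindDomain
open Pool.Agent.Lib.MP_6a3dac_ag.DNF Pool.Agent.Lib.MP_6a3dac_ag.Bert
open Pool.Agent.Lib.MP_6a3dac_ag.Fam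

variable {E : Type} [Field E] [NumberField E] {m c : ℕ}

/-- TASK BLOW-C1: **a regular blow-up is a model near `P`**. -/
theorem HasBlow.hasModelAt {J : HomIdeal (𝓞 E) (m + c + 1)} (hgen : GenFibreSmooth J)
    {P : HeightOneSpectrum (𝓞 E)} (h : HasBlow P J) :
    HasModelAt E P (hProjTo (bc (algebraMap (𝓞 E) E) J)) := by
  classical
  obtain ⟨δ, r, Θ, G, hδ, hΘ0, hG, hB⟩ := h
  obtain ⟨z, hz0, hz⟩ := exists_tanOver hgen
  have hLD : ∀ i, LocDom (dId (bc (algebraMap (𝓞 E) E) J) i) := fun i =>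
    locDom_of_smoothPt (hgen.smoothPt i)
  obtain ⟨τ, _, p, f, h1, h2, h3, h4, h5, h6⟩ :=
    exists_components (bc (algebraMap (𝓞 E) E) J) hLD
  have hM : ModelOn E {Q | Q = P ∨ z ∉ Q.asIdeal} (hProjTo (bc (algebraMap (𝓞 E) E) J)) := by
    refine ModelOn.of_finite f h4 h5 h6 fun j => ?_
    rw [h3 j]
    exact modelOn_component_blow hLD (h1 j) hgen ⟨P, Or.inl rfl⟩
      (fun Q hQ => hQ.imp id (fun h => hz Q h)) hδ hΘ0 hG hB
  refine hM.hasModelAt ((finite_mem_prime hz0).subset fun Q hQ => ?_) (Or.inl rfl)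
  by_contra hzQ
  exact hQ (Or.inr hzQ)

/-- The class of a member with a regular blow-up over `P` is good. -/
theorem HasBlow.locGood {ι : Type} {J : HomIdeal (MvPolynomial ι (𝓞 E)) (m + c + 1)}
    {P : HeightOneSpectrum (𝓞 E)} {a : ι → 𝓞 E} (h : HasBlow P (fib J a)) :
    ∃ k, LocGood J P k fun i => Ideal.Quotient.mk (P.asIdeal ^ k) (a i) := by
  obtain ⟨n, hn⟩ := h.open_fib
  refine ⟨n, fun a' ha' hgen => (hn a' fun i => ?_).hasModelAt hgen⟩
  rw [← Ideal.Quotient.eq_zero_iff_mem, map_sub, ha', sub_self]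

/-- The local density is positive if one member has a regular blow-up over `P`. -/
theorem HasBlow.locDens_pos {ι : Type} [Finite ι]
    {J : HomIdeal (MvPolynomial ι (𝓞 E)) (m + c + 1)} {P : HeightOneSpectrum (𝓞 E)}
    {a : ι → 𝓞 E} (h : HasBlow P (fib J a)) : 0 < locDens J P := by
  obtain ⟨k, hk⟩ := h.locGood
  have hfin : ∀ k, Finite (𝓞 E ⧸ P.asIdeal ^ k) := fun k =>
    Ideal.finiteQuotientOfFreeOfNeBot (P.asIdeal ^ k) (pow_ne_zero k P.ne_bot)
  have h0 : 0 < (Nat.card {x : ι → 𝓞 E ⧸ P.asIdeal ^ k // LocGood J P k x} : ℝ) /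
      Nat.card (ι → 𝓞 E ⧸ P.asIdeal ^ k) := by
    have := hfin k
    have : Nonempty {x : ι → 𝓞 E ⧸ P.asIdeal ^ k // LocGood J P k x} := ⟨⟨_, hk⟩⟩
    have h1 : 0 < Nat.card {x : ι → 𝓞 E ⧸ P.asIdeal ^ k // LocGood J P k x} := Nat.card_pos
    have h2 : 0 < Nat.card (ι → 𝓞 E ⧸ P.asIdeal ^ k) := Nat.card_pos
    exact div_pos (by exact_mod_cast h1) (by exact_mod_cast h2)
  refine h0.trans_le (le_ciSup (f := fun k : ℕ =>
    (Nat.card {x : ι → 𝓞 E ⧸ P.asIdeal ^ k // LocGood J P k x} : ℝ) /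
      Nat.card (ι → 𝓞 E ⧸ P.asIdeal ^ k)) ⟨1, ?_⟩ k)
  rintro _ ⟨k, rfl⟩
  have := hfin k
  refine div_le_one_of_le₀ ?_ (by positivity)
  exact_mod_cast Nat.card_le_card_of_injective
    (Subtype.val : {x : ι → 𝓞 E ⧸ P.asIdeal ^ k // LocGood J P k x} → _) Subtype.val_injective

end Pool.Agent.Lib.MP_6a3dac_ag.Blow
end

section

/-!
# The classes which satisfy the local conditions
-/

set_option autoImplicit false

namespace Pool.Agent.Lib.MP_6a3dac_ag.Fam

open MvPolynomial CategoryTheory Limits AlgebraicGeometry NumberField IsDedekindDomain Filter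
open Pool.Agent.Lib.MP_6a3dac_ag.DNF Pool.Agent.Lib.MP_6a3dac_ag.Bert

variable {E : Type} [Field E] [NumberField E] {ι : Type} {m c : ℕ}
  {J : HomIdeal (MvPolynomial ι (𝓞 E)) (m + c + 1)} {P : HeightOneSpectrum (𝓞 E)} {a a' : ι → 𝓞 E}

/-- The fibres which satisfy the local condition at `P` have a regular model near `P`. -/
theorem LocOK.hasModelAt (h : LocOK P J a) (hgen : GenFibreSmooth (fib J a)) :
    HasModelAt E P (hProjTo (bc (algebraMap (𝓞 E) E) (fib J a))) :=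
  hasModelAt_of_local hgen (h.elim (fun h => Or.inr h.nodalOver) Or.inl)

omit [NumberField E] in
/-- The condition on the points of the family over `a` modulo `P` depends only on `a` modulo
`P`. -/
theorem NodalAbove.congr (h : NodalAbove P J a) (ha : ∀ i, a' i - a i ∈ P.asIdeal) :
    NodalAbove P J a' := by
  intro i 𝔮 h𝔮 hle hP
  refine h i 𝔮 h𝔮 hle fun p => (hP p).trans ?_
  have h1 : eval a' p - eval a p ∈ P.asIdeal := f3_eval_sub _ ha p
  exact ⟨fun h2 => by simpa using P.asIdeal.sub_mem h2 h1,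
    fun h2 => by simpa using P.asIdeal.add_mem h1 h2⟩

/-- A class modulo `P ^ 2` which satisfies the local condition is good. -/
theorem LocOK.locGood (h : LocOK P J a) :
    LocGood J P 2 (fun i => Ideal.Quotient.mk (P.asIdeal ^ 2) (a i)) := by
  intro a' ha' hgen
  exact (h.congr fun i => Ideal.Quotient.eq.1 (ha' i)).hasModelAt hgen

/-- A class modulo `P` over which the family has at most nondegenerate double points is good. -/
theorem NodalAbove.locGood (h : NodalAbove P J a) :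
    LocGood J P 1 (fun i => Ideal.Quotient.mk (P.asIdeal ^ 1) (a i)) := by
  intro a' ha' hgen
  refine LocOK.hasModelAt (Or.inl (h.congr fun i => ?_)) hgen
  simpa using Ideal.Quotient.eq.1 (ha' i)

end Pool.Agent.Lib.MP_6a3dac_ag.Fam
end
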