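import Pool.Agent.Lib.MP_6a3dac_ag.Mg.G024
import Pool.Agent.Lib.MP_6a3dac_ag.Mg.G002
import Pool.Agent.Lib.MP_6a3dac_ag.Mg.G072

section

/-!
# The kernel of the evaluation at a point of a toric chart
-/

set_option autoImplicit false

namespace Pool.Agent.Lib.MP_6a3dac_ag.Tor

open MvPolynomial
open Pool.Agent.Lib.MP_6a3dac_ag.DNF Pool.Agent.Lib.MP_6a3dac_ag.Bert
open Pool.Agent.Lib.MP_6a3dac_ag.Fam

section Mono

variable {Q : Type} [CommRing Q] {s : ℕ}

/-- The monomials in the `G i` and `P` in terms of the coordinates of the chart. -/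
theorem t3c_mono (y : Fin s → Q) (w : Q) (A : Fin s → Fin s → ℕ) (β c : Fin s → ℕ) (c₀ : ℕ)
    (G : Fin s → Q) (P : Q) (hG : ∀ i, G i = w ^ c i * ∏ ρ, y ρ ^ A ρ i)
    (hP : P = w ^ c₀ * ∏ ρ, y ρ ^ β ρ) (n : Fin s → ℕ) (n₀ : ℕ) :
    (∏ i, G i ^ n i) * P ^ n₀ =
      w ^ (∑ i, c i * n i + c₀ * n₀) * ∏ ρ, y ρ ^ (∑ i, A ρ i * n i + β ρ * n₀) := by
  have h1 : ∏ i, G i ^ n i = w ^ (∑ i, c i * n i) * ∏ ρ, y ρ ^ (∑ i, A ρ i * n i) := by
    have h2 : ∀ i, G i ^ n i = w ^ (c i * n i) * ∏ ρ, y ρ ^ (A ρ i * n i) := by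
      intro i
      rw [hG, mul_pow, ← pow_mul, ← Finset.prod_pow]
      simp only [← pow_mul]
    simp only [h2]
    rw [Finset.prod_mul_distrib, Finset.prod_pow_eq_pow_sum, Finset.prod_comm]
    simp only [Finset.prod_pow_eq_pow_sum]
  have h3 : P ^ n₀ = w ^ (c₀ * n₀) * ∏ ρ, y ρ ^ (β ρ * n₀) := by
    rw [hP, mul_pow, ← pow_mul, ← Finset.prod_pow]
    simp only [← pow_mul]
  rw [h1, h3]
  simp only [pow_add, Finset.prod_mul_distrib]
  ring

/-- The coordinate `y ρ` is a quotient of monomials in the `G i` and `P`. -/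
theorem t3c_y {t : TChart s} {e' : Fin s → ℕ} {v' : ℕ} {𝒢 : Finset ((Fin s → ℕ) × ℕ)}
    (ht : t.IsFor e' v' 𝒢) (y : Fin s → Q) (w : Q) (G : Fin s → Q) (P : Q)
    (hG : ∀ i, G i = w ^ t.c i * ∏ ρ, y ρ ^ t.A ρ i) (hP : P = w ^ t.c₀ * ∏ ρ, y ρ ^ t.β ρ)
    (ρ : Fin s) :
    ((∏ i, G i ^ (-t.B ρ i).toNat) * P ^ (-t.B₀ ρ).toNat) * y ρ =
      (∏ i, G i ^ (t.B ρ i).toNat) * P ^ (t.B₀ ρ).toNat := by
  classical
  rw [t3c_mono y w t.A t.β t.c t.c₀ G P hG hP, t3c_mono y w t.A t.β t.c t.c₀ G P hG hP]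
  have hnat : ∀ z : ℤ, ((z.toNat : ℕ) : ℤ) - (((-z).toNat : ℕ) : ℤ) = z := fun z => by omega
  have h1 : ∑ i, t.c i * (-t.B ρ i).toNat + t.c₀ * (-t.B₀ ρ).toNat =
      ∑ i, t.c i * (t.B ρ i).toNat + t.c₀ * (t.B₀ ρ).toNat := by
    have h2 := ht.dual₂ ρ
    zify
    rw [eq_comm, ← sub_eq_zero]
    rw [← h2]
    have h3 : ∑ i, (t.c i : ℤ) * (((t.B ρ i).toNat : ℕ) : ℤ) =
        ∑ i, (t.c i : ℤ) * (((-t.B ρ i).toNat : ℕ) : ℤ) + ∑ i, (t.c i : ℤ) * t.B ρ i := by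
      rw [← Finset.sum_add_distrib]
      refine Finset.sum_congr rfl fun i _ => ?_
      linear_combination (t.c i : ℤ) * hnat (t.B ρ i)
    rw [h3]
    linear_combination (t.c₀ : ℤ) * hnat (t.B₀ ρ)
  have h4 : ∀ ρ', ∑ i, t.A ρ' i * (-t.B ρ i).toNat + t.β ρ' * (-t.B₀ ρ).toNat +
      (if ρ' = ρ then 1 else 0) =
      ∑ i, t.A ρ' i * (t.B ρ i).toNat + t.β ρ' * (t.B₀ ρ).toNat := by
    intro ρ'
    have h2 := ht.dual₁ ρ' ρ
    zify
    rw [← h2]
    have h3 : ∑ i, (t.A ρ' i : ℤ) * (((t.B ρ i).toNat : ℕ) : ℤ) =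
        ∑ i, (t.A ρ' i : ℤ) * (((-t.B ρ i).toNat : ℕ) : ℤ) + ∑ i, (t.A ρ' i : ℤ) * t.B ρ i := by
      rw [← Finset.sum_add_distrib]
      refine Finset.sum_congr rfl fun i _ => ?_
      linear_combination (t.A ρ' i : ℤ) * hnat (t.B ρ i)
    rw [h3]
    linear_combination -(t.β ρ' : ℤ) * hnat (t.B₀ ρ)
  have h5 : y ρ = ∏ ρ', y ρ' ^ (if ρ' = ρ then 1 else 0) := by
    simp only [pow_ite, pow_one, pow_zero, Finset.prod_ite_eq', Finset.mem_univ, if_true]
  rw [h1, mul_assoc]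
  congr 1
  rw [h5, ← Finset.prod_mul_distrib]
  refine Finset.prod_congr rfl fun ρ' _ => ?_
  rw [← pow_add, h4]

/-- The unit coordinate is a quotient of monomials in the `G i` and `P`. -/
theorem t3c_w {t : TChart s} {e' : Fin s → ℕ} {v' : ℕ} {𝒢 : Finset ((Fin s → ℕ) × ℕ)}
    (ht : t.IsFor e' v' 𝒢) (y : Fin s → Q) (w : Q) (G : Fin s → Q) (P : Q)
    (hG : ∀ i, G i = w ^ t.c i * ∏ ρ, y ρ ^ t.A ρ i) (hP : P = w ^ t.c₀ * ∏ ρ, y ρ ^ t.β ρ)
    (k : ℕ) : P ^ (k * v') * w ^ k = ∏ i, G i ^ (k * e' i) := by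
  have h1 := t3c_mono y w t.A t.β t.c t.c₀ G P hG hP (fun _ => 0) (k * v')
  have h2 := t3c_mono y w t.A t.β t.c t.c₀ G P hG hP (fun i => k * e' i) 0
  simp only [pow_zero, Finset.prod_const_one, one_mul, mul_zero, Finset.sum_const_zero, zero_add,
    add_zero, mul_one] at h1 h2
  rw [h1, h2]
  have h3 : ∑ i, t.c i * (k * e' i) = t.c₀ * (k * v') + k := by
    have h4 : ∑ i, t.c i * (k * e' i) = k * ∑ i, e' i * t.c i := by
      rw [Finset.mul_sum]
      exact Finset.sum_congr rfl fun i _ => by ring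
    rw [h4, ht.rel_c]
    ring
  have h5 : ∀ ρ, ∑ i, t.A ρ i * (k * e' i) = t.β ρ * (k * v') := by
    intro ρ
    have h4 : ∑ i, t.A ρ i * (k * e' i) = k * ∑ i, e' i * t.A ρ i := by
      rw [Finset.mul_sum]
      exact Finset.sum_congr rfl fun i _ => by ring
    rw [h4, ht.rel]
    ring
  simp only [h3, h5, pow_add]
  ring

end Mono

variable {O σ D : Type} [CommRing O] [DecidableEq σ] [Fintype σ] [CommRing D] [IsDomain D] {s : ℕ}

/-- TASK T3c -/
theorem torEqs_ker {U : Std O σ} {g : Fin s → MvPolynomial σ O} {w u F : MvPolynomial σ O}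
    {ϖ : O} {g₀ : ℕ} {t : TChart s} {e e' : Fin s → ℕ} {v v' : ℕ}
    (hee : ∀ i, e i = g₀ * e' i) (hvv : v = g₀ * v') {𝒢 : Finset ((Fin s → ℕ) × ℕ)}
    (ht : t.IsFor e' v' 𝒢) {J : Ideal (MvPolynomial σ O)} (hpres : IsPres J U F)
    (hF : F = w * ∏ i, g i ^ e i - u * C (ϖ ^ v))
    (δ : MvPolynomial (σ ⊕ (Fin s ⊕ Unit)) O →+* D) (hδ : ∀ k, δ (torEqs U g w u ϖ g₀ t k) = 0)
    (hg : ∀ i, δ (up (g i)) ≠ 0) (hϖ : δ (C ϖ) ≠ 0) (hs : δ (up U.s) ≠ 0)
    (hker : ∀ f : MvPolynomial σ O, δ (up f) = 0 → ∃ τ, δ (up τ) ≠ 0 ∧ τ * f ∈ J)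
    (p : MvPolynomial (σ ⊕ (Fin s ⊕ Unit)) O) (hp : δ p = 0) :
    ∃ τ, δ τ ≠ 0 ∧ τ * p ∈ Ideal.span (Set.range (torEqs U g w u ϖ g₀ t)) := by
  classical
  set Ig := Ideal.span (Set.range (torEqs U g w u ϖ g₀ t)) with hIg
  have hmem : ∀ k, torEqs U g w u ϖ g₀ t k ∈ Ig := fun k => Ideal.subset_span ⟨k, rfl⟩
  let π := Ideal.Quotient.mk Ig
  have hπ : ∀ k, π (torEqs U g w u ϖ g₀ t k) = 0 := fun k => Ideal.Quotient.eq_zero_iff_mem.2
    (hmem k)
  have hG : ∀ i, π (up (g i)) = π wv ^ t.c i * ∏ ρ, π (yv ρ) ^ t.A ρ i := by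
    intro i
    have h1 := hπ (Sum.inr (Sum.inl i))
    simp only [torEqs, Sum.elim_inr, Sum.elim_inl, map_sub, map_mul, map_pow, map_prod] at h1
    exact sub_eq_zero.1 h1
  have hP : π (C ϖ) = π wv ^ t.c₀ * ∏ ρ, π (yv ρ) ^ t.β ρ := by
    have h1 := hπ (Sum.inr (Sum.inr true))
    simp only [torEqs, Sum.elim_inr, if_true, map_sub, map_mul, map_pow, map_prod] at h1
    exact sub_eq_zero.1 h1
  have hW : π (up w) * π wv ^ g₀ = π (up u) := by
    have h1 := hπ (Sum.inr (Sum.inr false))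
    simp only [torEqs, Sum.elim_inr, Bool.false_eq_true, if_false, map_sub, map_mul, map_pow] at h1
    exact sub_eq_zero.1 h1
  have hupC : ∀ a : O, (up (C a) : MvPolynomial (σ ⊕ (Fin s ⊕ Unit)) O) = C a := fun a =>
    rename_C _ _
  -- the monomials
  obtain ⟨mo, hmo⟩ : ∃ mo : (Fin s → ℕ) → ℕ → MvPolynomial σ O,
    ∀ n n₀, mo n n₀ = (∏ i, g i ^ n i) * C ϖ ^ n₀ := ⟨_, fun _ _ => rfl⟩
  have hmoπ : ∀ n n₀, π (up (mo n n₀)) = (∏ i, π (up (g i)) ^ n i) * π (C ϖ) ^ n₀ := by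
    intro n n₀
    rw [hmo]
    simp only [map_mul, map_prod, map_pow, hupC]
  have hmoadd : ∀ n n₀ n' n₀', π (up (mo (fun i => n i + n' i) (n₀ + n₀'))) =
      π (up (mo n n₀)) * π (up (mo n' n₀')) := by
    intro n n₀ n' n₀'
    rw [hmoπ, hmoπ, hmoπ]
    simp only [pow_add, Finset.prod_mul_distrib]
    ring
  -- every polynomial is a quotient modulo the equations
  have key : ∀ p : MvPolynomial (σ ⊕ (Fin s ⊕ Unit)) O, ∃ (n : Fin s → ℕ) (n₀ : ℕ)
      (f : MvPolynomial σ O), π (up (mo n n₀)) * π p = π (up f) := by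
    intro p
    induction p using MvPolynomial.induction_on with
    | C a =>
      refine ⟨0, 0, C a, ?_⟩
      rw [hmoπ, hupC]
      simp
    | add p q hp hq =>
      obtain ⟨n, n₀, f, h1⟩ := hp
      obtain ⟨n', n₀', f', h2⟩ := hq
      refine ⟨fun i => n i + n' i, n₀ + n₀', mo n' n₀' * f + mo n n₀ * f', ?_⟩
      rw [hmoadd]
      simp only [map_add, map_mul]
      linear_combination π (up (mo n' n₀')) * h1 + π (up (mo n n₀)) * h2
    | mul_X p j hp =>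
      obtain ⟨n, n₀, f, h1⟩ := hp
      rcases j with l | ρ | ⟨⟩
      · refine ⟨n, n₀, f * X l, ?_⟩
        have h2 : (up (X l) : MvPolynomial (σ ⊕ (Fin s ⊕ Unit)) O) = X (Sum.inl l) :=
          rename_X _ _
        rw [map_mul, map_mul, map_mul, h2]
        linear_combination π (X (Sum.inl l)) * h1
      · have h2 := t3c_y ht (fun ρ => π (yv ρ)) (π wv) (fun i => π (up (g i))) (π (C ϖ)) hG hP ρ
        rw [← hmoπ, ← hmoπ] at h2
        refine ⟨fun i => n i + (-t.B ρ i).toNat, n₀ + (-t.B₀ ρ).toNat,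
          f * mo (fun i => (t.B ρ i).toNat) (t.B₀ ρ).toNat, ?_⟩
        rw [hmoadd, map_mul, map_mul, map_mul, ← h2]
        change _ * (π p * π (yv ρ)) = _
        linear_combination π (up (mo (fun i => (-t.B ρ i).toNat) (-t.B₀ ρ).toNat)) *
          π (yv ρ) * h1
      · have h2 := t3c_w ht (fun ρ => π (yv ρ)) (π wv) (fun i => π (up (g i))) (π (C ϖ)) hG hP 1
        simp only [one_mul, pow_one] at h2
        refine ⟨fun i => n i + 0, n₀ + v', f * mo e' 0, ?_⟩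
        have h3 : π (up (mo (fun _ => 0) v')) = π (C ϖ) ^ v' := by
          rw [hmoπ]
          simp
        have h4 : π (up (mo e' 0)) = ∏ i, π (up (g i)) ^ e' i := by
          rw [hmoπ]
          simp
        rw [hmoadd n n₀ (fun _ => 0) v', map_mul, map_mul, map_mul, h3, h4, ← h2]
        change _ * (π p * π wv) = _
        linear_combination π (C ϖ) ^ v' * π wv * h1
  -- the equation `F`
  have hFI : π (up F) = 0 := by
    have h2 := t3c_w ht (fun ρ => π (yv ρ)) (π wv) (fun i => π (up (g i))) (π (C ϖ)) hG hP g₀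
    rw [hF, map_sub, map_mul, map_mul, map_prod, hupC, map_sub, map_mul, map_mul, map_prod, C_pow,
      map_pow, ← hW]
    simp only [map_pow, hee, hvv]
    rw [← h2]
    ring
  have hle : ∀ f ∈ J, up (U.s * f) ∈ Ig := by
    intro f hf
    have h1 := hpres.le f hf
    have h2 : Ideal.span (insert F (Set.range U.g)) ≤ Ig.comap (up : _ →ₐ[O] _) := by
      rw [Ideal.span_le]
      rintro x (rfl | ⟨κ, rfl⟩)
      · have h3 : up x ∈ Ig := Ideal.Quotient.eq_zero_iff_mem.1 hFI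
        exact h3
      · exact hmem (Sum.inl κ)
    exact h2 h1
  obtain ⟨n, n₀, f, hf⟩ := key p
  have hδI : ∀ x ∈ Ig, δ x = 0 := by
    intro x hx
    have h1 : Ig ≤ RingHom.ker δ := by
      rw [hIg, Ideal.span_le]
      rintro _ ⟨k, rfl⟩
      exact hδ k
    exact h1 hx
  have hf' : up (mo n n₀) * p - up f ∈ Ig := by
    rw [← Ideal.Quotient.eq_zero_iff_mem, map_sub, map_mul]
    exact sub_eq_zero.2 hf
  have hδf : δ (up f) = 0 := by
    have h1 := hδI _ hf'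
    rw [map_sub, map_mul, hp, mul_zero, zero_sub, neg_eq_zero] at h1
    exact h1
  obtain ⟨τ₁, hτ₁, hJ⟩ := hker f hδf
  have hδmo : δ (up (mo n n₀)) ≠ 0 := by
    rw [hmo, map_mul, map_prod, map_pow, hupC, map_mul, map_prod]
    simp only [map_pow]
    exact mul_ne_zero (Finset.prod_ne_zero_iff.2 fun i _ => pow_ne_zero _ (hg i))
      (pow_ne_zero _ hϖ)
  refine ⟨up (U.s * τ₁) * up (mo n n₀), ?_, ?_⟩
  · rw [map_mul, map_mul up, map_mul]
    exact mul_ne_zero (mul_ne_zero hs hτ₁) hδmo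
  · have h1 : up (U.s * τ₁) * up (mo n n₀) * p =
        up (U.s * τ₁) * (up (mo n n₀) * p - up f) + up (U.s * (τ₁ * f)) := by
      simp only [map_mul]
      ring
    rw [h1]
    exact Ig.add_mem (Ig.mul_mem_left _ hf') (hle _ hJ)

end Pool.Agent.Lib.MP_6a3dac_ag.Tor
end

section

/-!
# Horizontal primes
-/

set_option autoImplicit false

namespace Pool.Agent.Lib.MP_6a3dac_ag.Tor

open MvPolynomial IsLocalRing

theorem t6z1_der {R B : Type} [CommRing R] [CommRing B] [Algebra R B] (D : Derivation R B B)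
    {N : Ideal B} {x : B} (hx : x ∈ N ^ 2) : D x ∈ N := by
  rw [pow_two] at hx
  induction hx using Submodule.mul_induction_on' with
  | mem_mul_mem a ha b hb =>
    rw [Derivation.leibniz, smul_eq_mul, smul_eq_mul]
    exact N.add_mem (Ideal.mul_mem_right _ _ ha) (Ideal.mul_mem_right _ _ hb)
  | add a _ b _ ha hb =>
    rw [map_add]
    exact N.add_mem ha hb

section DVR

variable {O σ : Type} [CommRing O] [IsDomain O] [IsDiscreteValuationRing O] [Finite σ]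

/-- The independence of the `f k` and of the uniformizer. -/
theorem t6z1_indep {ϖ : O} (hϖ : Irreducible ϖ) {𝔮 : Ideal (MvPolynomial σ O)}
    (hq : 𝔮.IsPrime) (hϖq : C ϖ ∈ 𝔮) {r : ℕ} (f : Fin r → MvPolynomial σ O)
    (hf : ∀ k, f k ∈ 𝔮)
    (hind : ∀ b : Fin r → MvPolynomial σ O,
      (∀ D : Derivation O (MvPolynomial σ O) (MvPolynomial σ O), ∑ k, b k * D (f k) ∈ 𝔮) →
        ∀ k, b k ∈ 𝔮) {s a : MvPolynomial σ O} (hs : s ∉ 𝔮) (b : Fin r → MvPolynomial σ O)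
    (h : s * (a * C ϖ + ∑ k, b k * f k) ∈ 𝔮 ^ 2) : a ∈ 𝔮 ∧ ∀ k, b k ∈ 𝔮 := by
  have hX : a * C ϖ + ∑ k, b k * f k ∈ 𝔮 :=
    𝔮.add_mem (𝔮.mul_mem_left _ hϖq) (𝔮.sum_mem fun k _ => 𝔮.mul_mem_left _ (hf k))
  have hb : ∀ k, b k ∈ 𝔮 := by
    refine hind b fun D => ?_
    have h1 := t6z1_der D h
    rw [Derivation.leibniz, smul_eq_mul, smul_eq_mul] at h1
    have h2 : s * D (a * C ϖ + ∑ k, b k * f k) ∈ 𝔮 := by
      have h3 := 𝔮.sub_mem h1 (𝔮.mul_mem_right (D s) hX)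
      rwa [add_sub_cancel_right] at h3
    have h3 := (hq.mem_or_mem h2).resolve_left hs
    have h4 : D (a * C ϖ + ∑ k, b k * f k) =
        D a * C ϖ + (∑ k, b k * D (f k) + ∑ k, f k * D (b k)) := by
      have h5 : D (C ϖ) = 0 := by
        rw [← algebraMap_eq]
        exact Derivation.map_algebraMap D ϖ
      rw [map_add, Derivation.leibniz, h5, smul_zero, zero_add, smul_eq_mul, map_sum,
        ← Finset.sum_add_distrib, mul_comm (C ϖ)]
      congr 1
      refine Finset.sum_congr rfl fun k _ => ?_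
      rw [Derivation.leibniz, smul_eq_mul, smul_eq_mul]
    rw [h4] at h3
    have h6 : D a * C ϖ + ∑ k, f k * D (b k) ∈ 𝔮 :=
      𝔮.add_mem (𝔮.mul_mem_left _ hϖq) (𝔮.sum_mem fun k _ => 𝔮.mul_mem_right _ (hf k))
    have h7 := 𝔮.sub_mem h3 h6
    have h8 : D a * C ϖ + (∑ k, b k * D (f k) + ∑ k, f k * D (b k)) -
        (D a * C ϖ + ∑ k, f k * D (b k)) = ∑ k, b k * D (f k) := by ring
    rwa [h8] at h7
  refine ⟨?_, hb⟩
  have h1 : s * ∑ k, b k * f k ∈ 𝔮 ^ 2 := by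
    refine Ideal.mul_mem_left _ _ (Ideal.sum_mem _ fun k _ => ?_)
    rw [pow_two]
    exact Ideal.mul_mem_mul (hb k) (hf k)
  have h2 : s * a * C ϖ ∈ 𝔮 ^ 2 := by
    have h3 := Ideal.sub_mem _ h h1
    have h4 : s * (a * C ϖ + ∑ k, b k * f k) - s * ∑ k, b k * f k = s * a * C ϖ := by ring
    rwa [h4] at h3
  by_contra ha
  have hsa : s * a ∉ 𝔮 := fun h5 => (hq.mem_or_mem h5).elim hs ha
  exact mul_C_notMem_sq hϖ 𝔮 hϖq hsa h2

/-- TASK T6z1: a prime which contains the `f k` and is not over the closed point. -/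
theorem exists_horizontal {ϖ : O} (hϖ : Irreducible ϖ) {𝔮 : Ideal (MvPolynomial σ O)}
    (hq : 𝔮.IsPrime) (hϖq : C ϖ ∈ 𝔮) {r : ℕ} (f : Fin r → MvPolynomial σ O)
    (hf : ∀ k, f k ∈ 𝔮)
    (hind : ∀ b : Fin r → MvPolynomial σ O,
      (∀ D : Derivation O (MvPolynomial σ O) (MvPolynomial σ O), ∑ k, b k * D (f k) ∈ 𝔮) →
        ∀ k, b k ∈ 𝔮) :
    ∃ 𝔭 : Ideal (MvPolynomial σ O), 𝔭.IsPrime ∧ 𝔭 ≤ 𝔮 ∧ (∀ k, f k ∈ 𝔭) ∧ C ϖ ∉ 𝔭 := by
  classical
  let B := MvPolynomial σ O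
  let R := Localization.AtPrime 𝔮
  have hR : IsRegularLocalRing R := inferInstance
  let g : Fin r → R := fun i => algebraMap B R (f i)
  have hg : ∀ i, g i ∈ maximalIdeal R := by
    intro i
    rw [← Localization.AtPrime.map_eq_maximalIdeal]
    exact Ideal.mem_map_of_mem _ (hf i)
  have hindR : ∀ c : Fin r → R, ∑ i, c i * g i ∈ maximalIdeal R ^ 2 →
      ∀ i, c i ∈ maximalIdeal R := by
    intro c hcm i
    obtain ⟨s, hs⟩ := IsLocalization.exist_integer_multiples_of_finite 𝔮.primeCompl c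
    choose a ha using hs
    have h1 : algebraMap B R (∑ i, a i * f i) ∈ maximalIdeal R ^ 2 := by
      have h2 : algebraMap B R (∑ i, a i * f i) = algebraMap B R s * ∑ i, c i * g i := by
        rw [map_sum, Finset.mul_sum]
        refine Finset.sum_congr rfl fun i _ => ?_
        rw [map_mul, ha, Algebra.smul_def]
        ring
      rw [h2]
      exact Ideal.mul_mem_left _ _ hcm
    rw [mem_maximalIdeal_pow_iff] at h1
    obtain ⟨s', hs', hs2⟩ := h1
    have h3 := (t6z1_indep hϖ hq hϖq f hf hind (a := 0) hs' a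
      (by rw [zero_mul, zero_add]; exact hs2)).2 i
    have h4 : algebraMap B R (a i) ∈ maximalIdeal R := by
      rw [← Localization.AtPrime.map_eq_maximalIdeal]
      exact Ideal.mem_map_of_mem _ h3
    rw [ha, Algebra.smul_def] at h4
    exact (Ideal.unit_mul_mem_iff_mem _ (IsLocalization.map_units R s)).mp h4
  have hQ0 := isRegularLocalRing_quotient_range r R hR g hg hindR
  have hdom := isDomain_aux _ (R ⧸ Ideal.span (Set.range g)) le_rfl
  have hprime : (Ideal.span (Set.range g)).IsPrime :=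
    (Ideal.Quotient.isDomain_iff_prime _).1 hdom
  refine ⟨Ideal.comap (algebraMap B R) (Ideal.span (Set.range g)), Ideal.IsPrime.comap _, ?_,
    fun k => ?_, fun h => ?_⟩
  · have h1 : Ideal.span (Set.range g) ≤ maximalIdeal R := by
      rw [Ideal.span_le]
      rintro _ ⟨i, rfl⟩
      exact hg i
    have h2 := Ideal.comap_mono (f := algebraMap B R) h1
    have h3 : Ideal.comap (algebraMap B R) (maximalIdeal R) = 𝔮 :=
      Localization.AtPrime.under_maximalIdeal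
    rwa [h3] at h2
  · rw [Ideal.mem_comap]
    exact Ideal.subset_span ⟨k, rfl⟩
  · rw [Ideal.mem_comap, Ideal.mem_span_range_iff_exists_fun] at h
    obtain ⟨c, hc⟩ := h
    obtain ⟨s, hs⟩ := IsLocalization.exist_integer_multiples_of_finite 𝔮.primeCompl c
    choose a ha using hs
    have h1 : algebraMap B R (∑ i, a i * f i) = algebraMap B R ((s : B) * C ϖ) := by
      rw [map_mul, ← hc, map_sum, Finset.mul_sum]
      refine Finset.sum_congr rfl fun i _ => ?_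
      rw [map_mul, ha, Algebra.smul_def]
      ring
    have h2 : ∑ i, a i * f i = (s : B) * C ϖ := by
      have hinj : Function.Injective (algebraMap B R) :=
        IsLocalization.injective R 𝔮.primeCompl_le_nonZeroDivisors
      exact hinj h1
    have h3 := (t6z1_indep hϖ hq hϖq f hf hind (s := 1) (a := (s : B))
      (fun h => hq.ne_top ((Ideal.eq_top_iff_one _).2 h)) (fun k => -a k) (by
        have h4 : (s : B) * C ϖ + ∑ k, -a k * f k = 0 := by
          simp only [neg_mul, Finset.sum_neg_distrib]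
          rw [h2]
          ring
        rw [h4, mul_zero]
        exact Ideal.zero_mem _)).1
    exact s.2 h3

end DVR

end Pool.Agent.Lib.MP_6a3dac_ag.Tor
end
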