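import Pool.Agent.Lib.MP_6a3dac_ag.Mg.G026
import Pool.Agent.Lib.MP_6a3dac_ag.Mg.G021
import Pool.Agent.Lib.MP_6a3dac_ag.Mg.G024
import Pool.Agent.Lib.MP_6a3dac_ag.Mg.G022

section

/-!
# The model of a component: toroidal points
-/

set_option autoImplicit false

namespace Pool.Agent.Lib.MP_6a3dac_ag.Tor

open MvPolynomial CategoryTheory Limits AlgebraicGeometry NumberField IsDedekindDomain Filter
open IsLocalRing Topology
open Pool.Agent.Lib.MP_6a3dac_ag.DNF Pool.Agent.Lib.MP_6a3dac_ag.Bert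
open Pool.Agent.Lib.MP_6a3dac_ag.Fam
open Pool.Agent.Lib.MP_6a3dac_ag.Maj

variable {E : Type} [Field E] [NumberField E] {m c : ℕ} {J : HomIdeal (𝓞 E) (m + c + 1)}

/-- The local criterion at the primes of a set `T`, for a component: one toroidal prime. -/
theorem modelOn_component_tor {p : HomIdeal E (m + c + 1)}
    (hLD : ∀ i, LocDom (dId (bc (algebraMap (𝓞 E) E) J) i))
    (hp : p.ideal ∈ (bc (algebraMap (𝓞 E) E) J).ideal.minimalPrimes)
    (hgen : GenFibreSmooth J) {T : Set (HeightOneSpectrum (𝓞 E))} (hT0 : T.Nonempty)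
    {P : HeightOneSpectrum (𝓞 E)} (hT : ∀ Q ∈ T, Q = P ∨ TanOver Q J)
    {s : ℕ} {e e' : Fin s → ℕ} {v v' g₀ : ℕ} {h : 𝓞 E}
    {K : Fin s → HomIdeal (𝓞 E) (m + c + 1)} (hP : TorOver P e h J K) (he : ∀ i, 0 < e i)
    (hv : 0 < v) (hg₀ : 0 < g₀) (hee : ∀ i, e i = g₀ * e' i) (hvv : v = g₀ * v')
    {𝒢 : Finset ((Fin s → ℕ) × ℕ)} (h𝒢 : IsCharts e' v' 𝒢) (h𝒢0 : 𝒢.Nonempty) (hh0 : h ≠ 0)
    {ϖ : 𝓞 E} (hϖ : Irreducible (algebraMap (𝓞 E) (locRing E P) ϖ)) {η : locRing E P}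
    (hη : IsUnit η)
    (hh : algebraMap (𝓞 E) (locRing E P) h = η * algebraMap (𝓞 E) (locRing E P) ϖ ^ v) :
    ModelOn E T (hProjTo p) := by
  classical
  obtain ⟨δ, G, hδ, hGδ, hG⟩ := exists_torGenerators K ϖ 𝒢
  have hϖ0 : ϖ ≠ 0 := fun h0 => hϖ.ne_zero (by rw [h0, map_zero])
  obtain ⟨ν, hν⟩ := h𝒢0
  obtain ⟨Θ, hΘe⟩ : ∃ Θ : 𝓞 E, Θ = h ^ (∑ j, ν.1 j) * ϖ ^ ν.2 := ⟨_, rfl⟩
  have hΘ0 : Θ ≠ 0 := by
    rw [hΘe]
    exact mul_ne_zero (pow_ne_zero _ hh0) (pow_ne_zero _ hϖ0)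
  have hΘ : ∀ i : Fin (m + c + 1), C Θ ∈ torSpan (fun j => dId (K j) i) (C ϖ) 𝒢 := by
    intro i
    have h1 := mem_torSpan (K := fun j => dId (K j) i) (ϖ := C ϖ) hν (h := C h) (fun j => by
      have h2 : dehom i (C h) ∈ dId (K j) i := Ideal.mem_map_of_mem _ (hP.2.1 j)
      rwa [dehom_C] at h2)
    rwa [← map_pow, ← map_pow, ← map_mul, ← hΘe] at h1
  have hprime : p.ideal.IsPrime := hp.1.1
  have : IsDomain (HCoord p) := Ideal.Quotient.isDomain p.ideal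
  let _ : Algebra (𝓞 E) (HCoord p) := ((algebraMap E (HCoord p)).comp (algebraMap (𝓞 E) E)).toAlgebra
  have : IsScalarTower (𝓞 E) E (HCoord p) := IsScalarTower.of_algebraMap_eq fun _ => rfl
  have hRf : ¬ IsField (𝓞 E) := RingOfIntegers.not_isField E
  -- the exponents
  obtain ⟨r, hr⟩ : ∃ r : HeightOneSpectrum (𝓞 E) → ℕ, ∀ Q, (Q = P → r Q = 1) ∧
      (Q ≠ P → r Q = 0) :=
    ⟨fun Q => if Q = P then 1 else 0, fun Q => ⟨fun h => if_pos h, fun h => if_neg h⟩⟩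
  have hdeg : ∀ (S : Type) [CommRing S] [Algebra S E] (q : MvPolynomial (Fin (m + c + 1)) S) e,
      q.IsHomogeneous e → piS (hMk p) S q ∈ hGr p e := fun S _ _ q e hq =>
    ⟨_, hq.map _, rfl⟩
  have hoA : ∀ Q : HeightOneSpectrum (𝓞 E), oA E (HCoord p) (locRing E Q)
      (algebraMap (𝓞 E) (locRing E Q) Θ) = algebraMap (𝓞 E) (HCoord p) Θ := fun Q =>
    oA_algebraMap (K := E) (O := locRing E Q) Θ
  have hxP : ∀ Q : HeightOneSpectrum (𝓞 E), (fun k => piS (hMk p) (locRing E Q) (X k)) =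
      fun k => hMk p (X k) := fun Q => funext fun k => piS_X (hMk p) _ k
  -- the forms over the local rings
  obtain ⟨GP, hGP⟩ : ∃ GP : ∀ Q : HeightOneSpectrum (𝓞 E),
      Finset (MvPolynomial (Fin (m + c + 1)) (locRing E Q)), ∀ Q,
      GP Q = G.image (MvPolynomial.map (algebraMap (𝓞 E) (locRing E Q))) := ⟨_, fun _ => rfl⟩
  have hGPδ : ∀ Q, ∀ g ∈ GP Q, g.IsHomogeneous δ := by
    intro Q g hg
    rw [hGP, Finset.mem_image] at hg
    obtain ⟨g, hg, rfl⟩ := hg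
    exact (hGδ g hg).map _
  have hO := fun Q : HeightOneSpectrum (𝓞 E) => orderHypB (R := 𝓞 E) (K := E) Q.asIdeal
    (𝒜 := hGr p) (π := piS (hMk p) (locRing E Q)) (hdeg _) (fun c => piS_C (hMk p) _ c) hδ
    (hGPδ Q) (algebraMap (𝓞 E) (locRing E Q) Θ) (r Q)
  have hLG : LocalGens (R := 𝓞 E) (hGr p) (fun Q => DNF.WSet (fun k => hMk p (X k))
      (oset (piS (hMk p) (locRing E Q)) δ (GP Q) (algebraMap (𝓞 E) (HCoord p) Θ)) (r Q) ∪
        DNF.W1Set (fun k => hMk p (X k)) (algebraMap (𝓞 E) (HCoord p) Θ) (r Q))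
        (Set.range fun k => hMk p (X k)) :=
    { finite := fun Q => (DNF.finite_WSet (fun j => finite_oset _ _ _ _ j) _).union
        (DNF.finite_W1Set _)
      finite₀ := Set.finite_range _
      ae := by
        refine (Set.finite_singleton P).subset ?_
        intro Q hQ
        by_contra hdp
        apply hQ
        have h1 : r Q = 0 := (hr Q).2 hdp
        change DNF.WSet (fun k => hMk p (X k)) (oset (piS (hMk p) (locRing E Q)) δ (GP Q)
          (algebraMap (𝓞 E) (HCoord p) Θ)) (r Q) ∪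
          DNF.W1Set (fun k => hMk p (X k)) (algebraMap (𝓞 E) (HCoord p) Θ) (r Q) = _
        rw [h1, WSet_zero, W1Set_zero, Set.union_self]
      homog := by
        intro Q w hw
        have hOP := hO Q
        rw [hxP, hoA] at hOP
        rcases hw with hw | ⟨i, rfl⟩
        · exact ⟨_, Nat.succ_pos _, hOP.W_deg hw⟩
        · refine ⟨1, one_pos, ?_⟩
          have := SetLike.mul_mem_graded hOP.theta_deg (hOP.xdeg i)
          simpa using this
      full := fun Q a => full_order (hMk p) (adjoin_hMk p) hΘ0 (r Q) a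
      full₀ := fun a => by
        have := full_order (hMk p) (adjoin_hMk p) (B := fun _ => ∅) (one_ne_zero (α := 𝓞 E)) 0 a
        rwa [WSet_zero, W1Set_zero, Set.union_self] at this }
  have hnt : Nontrivial (HCoord p) := inferInstance
  refine exists_model_on (hGr p) hLG hRf hT0 fun Q hQT => ?_
  intro hS y hy hyh hirr
  let F := FractionRing (HCoord p)
  let ι : HCoord p →+* F := algebraMap (HCoord p) F
  have hι : Function.Injective ι := IsFractionRing.injective (HCoord p) F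
  apply isRegularLocalRing_of_homLoc (hGr p) ι _ y hι hS
  have hOK : Function.Injective (algebraMap (locRing E Q) E) :=
    FaithfulSMul.algebraMap_injective _ E
  have hrel : ∃ k, 0 < k ∧ ∃ t : localOrder (fun Q => DNF.WSet (fun k => hMk p (X k))
      (oset (piS (hMk p) (locRing E Q)) δ (GP Q) (algebraMap (𝓞 E) (HCoord p) Θ)) (r Q) ∪
        DNF.W1Set (fun k => hMk p (X k)) (algebraMap (𝓞 E) (HCoord p) Θ) (r Q)) Q,
      (t : HCoord p) ∈ hGr p k ∧ t ∉ y := by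
    by_contra hcon
    push Not at hcon
    apply hirr
    rw [HomogeneousIdeal.toIdeal_irrelevant_le]
    intro i hi s hs
    exact hcon i hi s hs
  have hTo : localOrder (fun Q => DNF.WSet (fun k => hMk p (X k))
      (oset (piS (hMk p) (locRing E Q)) δ (GP Q) (algebraMap (𝓞 E) (HCoord p) Θ)) (r Q) ∪
        DNF.W1Set (fun k => hMk p (X k)) (algebraMap (𝓞 E) (HCoord p) Θ) (r Q)) Q =
      locSub Q.asIdeal (Algebra.adjoin (𝓞 E)
        (DNF.WSet (fun k => piS (hMk p) (locRing E Q) (X k))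
          (oset (piS (hMk p) (locRing E Q)) δ (GP Q) (oA E (HCoord p) (locRing E Q)
            (algebraMap (𝓞 E) (locRing E Q) Θ))) (r Q) ∪
        DNF.W1Set (fun k => piS (hMk p) (locRing E Q) (X k)) (oA E (HCoord p) (locRing E Q)
            (algebraMap (𝓞 E) (locRing E Q) Θ)) (r Q))) := by
    rw [hxP, hoA]
    rfl
  have hlocD := isLocalRing_homLoc (hGr p) ι _ y hι
  obtain ⟨i, φ, b, h1, h2, h3, h4⟩ := exists_chartPoint (R := 𝓞 E) (K := E) hOK Q.asIdeal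
    (𝒜 := hGr p) (π := piS (hMk p) (locRing E Q)) (hdeg _) (fun c => piS_C (hMk p) _ c) hδ
    (hGPδ Q) ι hι (algebraMap (𝓞 E) (locRing E Q) Θ) (r Q) hTo y hy hrel
  have hi : X i ∉ p.ideal := by
    intro h5
    apply h1
    rw [piS_X, hMk_eq_zero]
    exact h5
  have hφ : ∀ q, φ q = 0 ↔ MvPolynomial.map (algebraMap (locRing E Q) E) q ∈ dId p i := by
    intro q
    obtain ⟨N, g, hg, rfl⟩ := exists_homog i q
    rw [h2 N g hg, piS_apply, hMk_eq_zero, map_dehom', dehom_mem_iff p hprime hi (hg.map _)]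
  have hpimage : ∀ w, (∃ g ∈ GP Q, w = φ (dehom i g)) ↔ ∃ g ∈ G,
      w = φ (MvPolynomial.map (algebraMap (𝓞 E) (locRing E Q)) (dehom i g)) := by
    intro w
    rw [hGP]
    constructor
    · rintro ⟨g, hg, rfl⟩
      obtain ⟨g', hg', rfl⟩ := Finset.mem_image.mp hg
      exact ⟨g', hg', by rw [map_dehom']⟩
    · rintro ⟨g, hg, rfl⟩
      exact ⟨_, Finset.mem_image_of_mem _ hg, by rw [map_dehom']⟩
  by_cases hQP : Q = P
  · subst hQP
    have hr1 : r Q = 1 := (hr Q).1 rfl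
    obtain ⟨a1, a2, a3, a4⟩ := h3 1 le_rfl (by rw [hr1])
    rw [pow_one] at a2 a4
    refine regular_of_torOver hgen hLD hp Q hi φ hφ hP he hv hg₀ hee hvv h𝒢 hϖ hη hh (hG i) hΘ0
      (hΘ i) (b 1) a1 a2 ?_ ?_ ?_
    · intro g hg
      obtain ⟨g', hg', h5⟩ := (hpimage _).mpr ⟨g, hg, rfl⟩
      rw [h5]
      exact a3 g' hg'
    · have h5 : ((fun g => φ (MvPolynomial.map (algebraMap (𝓞 E) (locRing E Q)) (dehom i g))) ''
          (G : Set (MvPolynomial (Fin (m + c + 1)) (𝓞 E)))) =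
            ((fun g => φ (dehom i g)) '' (GP Q : Set _)) := by
        ext w
        constructor
        · rintro ⟨g, hg, rfl⟩
          obtain ⟨g', hg', h5⟩ := (hpimage _).mpr ⟨g, hg, rfl⟩
          exact ⟨g', hg', h5.symm⟩
        · rintro ⟨g, hg, rfl⟩
          obtain ⟨g', hg', h5⟩ := (hpimage _).mp ⟨g, hg, rfl⟩
          exact ⟨g', hg', h5.symm⟩
      rw [h5]
      exact a4
    · intro R' hR1 hR2 hR3
      refine h4 R' hR1 hR2 fun j hj1 hj2 w hw => hR3 w ?_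
      have hj : j = 1 := by omega
      subst hj
      rw [pow_one] at hw
      rcases hw with hw | ⟨g, hg, hw⟩
      · exact Or.inl hw
      · obtain ⟨g', hg', h5⟩ := (hpimage _).mp ⟨g, hg, rfl⟩
        exact Or.inr ⟨g', hg', hw.trans h5⟩
  · have hPt : TanOver Q J := (hT Q hQT).resolve_left hQP
    have hr0 : r Q = 0 := (hr Q).2 hQP
    refine regular_of_tanOver hgen hLD hp Q hi φ hφ hPt ?_
    exact h4 _ (dom_locIn φ) le_rfl fun j hj1 hj2 => by omega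

end Pool.Agent.Lib.MP_6a3dac_ag.Tor
end

section

/-!
# Regular models near a prime: toroidal points
-/

set_option autoImplicit false

namespace Pool.Agent.Lib.MP_6a3dac_ag.Tor

open MvPolynomial CategoryTheory Limits AlgebraicGeometry NumberField IsDedekindDomain
open Pool.Agent.Lib.MP_6a3dac_ag.DNF Pool.Agent.Lib.MP_6a3dac_ag.Bert
open Pool.Agent.Lib.MP_6a3dac_ag.Fam

variable {E : Type} [Field E] [NumberField E] {m c s : ℕ} {J : HomIdeal (𝓞 E) (m + c + 1)}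

/-- The gcd of `v` and the `e i`. -/
theorem t6c_gcd {e : Fin s → ℕ} (he : ∀ i, 0 < e i) {v : ℕ} (hv : 0 < v) :
    ∃ (g₀ : ℕ) (e' : Fin s → ℕ) (v' : ℕ), 0 < g₀ ∧ (∀ i, e i = g₀ * e' i) ∧ v = g₀ * v' ∧
      (∀ i, 0 < e' i) ∧ 0 < v' ∧ ∀ d : ℕ, (∀ i, d ∣ e' i) → d ∣ v' → d = 1 := by
  have h1 : ∀ i, Nat.gcd v (Finset.univ.gcd e) ∣ e i := fun i =>
    (Nat.gcd_dvd_right _ _).trans (Finset.gcd_dvd (Finset.mem_univ i))
  have h2 : Nat.gcd v (Finset.univ.gcd e) ∣ v := Nat.gcd_dvd_left _ _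
  have h0 : 0 < Nat.gcd v (Finset.univ.gcd e) := Nat.gcd_pos_of_pos_left _ hv
  choose e' he' using h1
  obtain ⟨v', hv'⟩ := h2
  refine ⟨Nat.gcd v (Finset.univ.gcd e), e', v', h0, he', hv', fun i => ?_, ?_, fun d hd hdv => ?_⟩
  · rcases Nat.eq_zero_or_pos (e' i) with h | h
    · have h3 := he i
      rw [he' i, h, mul_zero] at h3
      exact absurd h3 (lt_irrefl 0)
    · exact h
  · rcases Nat.eq_zero_or_pos v' with h | h
    · rw [hv', h, mul_zero] at hv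
      exact absurd hv (lt_irrefl 0)
    · exact h
  · obtain ⟨a, ha⟩ := hdv
    have h4 : Nat.gcd v (Finset.univ.gcd e) * d ∣ Nat.gcd v (Finset.univ.gcd e) := by
      refine Nat.dvd_gcd ?_ ?_
      · exact ⟨a, by rw [mul_assoc, ← ha]; exact hv'⟩
      · refine Finset.dvd_gcd fun i _ => ?_
        obtain ⟨b, hb⟩ := hd i
        exact ⟨b, by rw [mul_assoc, ← hb]; exact he' i⟩
    have h5 : Nat.gcd v (Finset.univ.gcd e) * d ∣ Nat.gcd v (Finset.univ.gcd e) * 1 := by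
      rwa [mul_one]
    exact Nat.dvd_one.mp (Nat.dvd_of_mul_dvd_mul_left h0 h5)

/-- An element outside of `P` is not in a prime over `P`. -/
theorem t6c_notMem {σ : Type} {P : HeightOneSpectrum (𝓞 E)} {h : 𝓞 E} (hh : h ∉ P.asIdeal)
    {𝔮 : Ideal (MvPolynomial σ (𝓞 E))} (hq : 𝔮.IsPrime) (hP : P.asIdeal.map C ≤ 𝔮) :
    C h ∉ 𝔮 := by
  intro hc
  have hmax : P.asIdeal.IsMaximal := P.isMaximal
  obtain ⟨y, i, hi, hy⟩ := hmax.exists_inv hh
  apply hq.ne_top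
  rw [Ideal.eq_top_iff_one]
  have h1 : C (y * h + i) ∈ 𝔮 := by
    rw [map_add, map_mul]
    exact 𝔮.add_mem (𝔮.mul_mem_left _ hc) (hP (Ideal.mem_map_of_mem C hi))
  rwa [hy, map_one] at h1

/-- TASK T6c: **the toroidal criterion at one prime**. -/
theorem hasModelAt_of_torOver (hgen : GenFibreSmooth J) {P : HeightOneSpectrum (𝓞 E)}
    {e : Fin s → ℕ} (he : ∀ i, 0 < e i) {h : 𝓞 E} {K : Fin s → HomIdeal (𝓞 E) (m + c + 1)}
    (hP : TorOver P e h J K) : HasModelAt E P (hProjTo (bc (algebraMap (𝓞 E) E) J)) := by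
  classical
  -- the case that all points are smooth or there are no points
  have nodal : (∀ (i : Fin (m + c + 1))
      (𝔮 : Ideal (MvPolynomial {l : Fin (m + c + 1) // l ≠ i} (𝓞 E))), 𝔮.IsPrime →
        dId J i ≤ 𝔮 → P.asIdeal.map C ≤ 𝔮 → SmoothPt m (dId J i) 𝔮) →
      HasModelAt E P (hProjTo (bc (algebraMap (𝓞 E) E) J)) := by
    intro hsm
    refine hasModelAt_of_local hgen (Or.inr fun i 𝔮 h1 h2 h3 => ?_)
    obtain ⟨U, F, k1, k2, k3, k4⟩ := hsm i 𝔮 h1 h2 h3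
    exact ⟨U, F, k1, k2, k3, Or.inl k4⟩
  by_cases h0 : h = 0
  · subst h0
    refine nodal fun i 𝔮 h1 h2 h3 => ?_
    have h4 : (C (0 : 𝓞 E) : MvPolynomial {l : Fin (m + c + 1) // l ≠ i} (𝓞 E)) ∈ 𝔮 := by
      rw [C_0]
      exact 𝔮.zero_mem
    exact TorPt.smoothPt_of_zero hgen he i h1 h2 h3 ((hP.2.2.2 i 𝔮 h1 h2 h3).2 h4)
  by_cases hhP : h ∉ P.asIdeal
  · exact nodal fun i 𝔮 h1 h2 h3 => (hP.2.2.2 i 𝔮 h1 h2 h3).1 (t6c_notMem hhP h1 h3)
  rw [not_not] at hhP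
  have hCh : ∀ (i : Fin (m + c + 1))
      (𝔮 : Ideal (MvPolynomial {l : Fin (m + c + 1) // l ≠ i} (𝓞 E))),
        P.asIdeal.map C ≤ 𝔮 → C h ∈ 𝔮 := fun i 𝔮 h3 => h3 (Ideal.mem_map_of_mem C hhP)
  rcases Nat.eq_zero_or_pos s with hs | hs
  · subst hs
    refine nodal fun i 𝔮 h1 h2 h3 => ?_
    obtain ⟨U, F, w, u, g, I, κ, k1, k2, k3, k4, k5, -⟩ :=
      (hP.2.2.2 i 𝔮 h1 h2 h3).2 (hCh i 𝔮 h3)
    exfalso
    apply k5
    have h4 : F + u * C h = w := by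
      rw [k4]
      simp
    rw [← h4]
    exact 𝔮.add_mem (h2 k1.memF) (𝔮.mul_mem_left _ (hCh i 𝔮 h3))
  -- the uniformizer
  obtain ⟨ϖ, hϖ⟩ := exists_unif (K := E) P
  obtain ⟨v, u, hu1, hu2, -⟩ := exists_exponent (K := E) P h0 hϖ
  have hv : 0 < v := by
    rcases Nat.eq_zero_or_pos v with hv | hv
    · exfalso
      rw [hv, pow_zero] at hu2
      have h1 : IsUnit (algebraMap (𝓞 E) (locRing E P) h) := by
        rw [mul_comm] at hu2
        exact IsUnit.of_mul_eq_one _ hu2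
      exact ((IsLocalization.AtPrime.isUnit_to_map_iff (locRing E P) P.asIdeal h).mp h1) hhP
    · exact hv
  obtain ⟨u, rfl⟩ := hu1
  have hh : algebraMap (𝓞 E) (locRing E P) h =
      (↑u⁻¹ : locRing E P) * algebraMap (𝓞 E) (locRing E P) ϖ ^ v := by
    rw [← hu2, ← mul_assoc, Units.inv_mul, one_mul]
  obtain ⟨g₀, e', v', hg₀, hee, hvv, he', hv', hgcd⟩ := t6c_gcd he hv
  obtain ⟨𝒢, h𝒢⟩ := exists_charts hs e' v' he' hv' hgcd
  have h𝒢0 : 𝒢.Nonempty := by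
    obtain ⟨t, ht, -⟩ := h𝒢 Set.univ ⟨Set.mem_univ _, fun _ _ _ _ => Set.mem_univ _,
      fun _ => Or.inl (Set.mem_univ _)⟩ (fun _ => Set.mem_univ _) (Set.mem_univ _)
      (Set.mem_univ _) (Set.mem_univ _)
    exact ⟨_, ht.mem₀⟩
  obtain ⟨z, hz0, hz⟩ := exists_tanOver hgen
  have hLD : ∀ i, LocDom (dId (bc (algebraMap (𝓞 E) E) J) i) := fun i =>
    locDom_of_smoothPt (hgen.smoothPt i)
  obtain ⟨τ, _, p, f, h1, h2, h3, h4, h5, h6⟩ :=
    exists_components (bc (algebraMap (𝓞 E) E) J) hLD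
  have hM : ModelOn E {Q | Q = P ∨ z ∉ Q.asIdeal} (hProjTo (bc (algebraMap (𝓞 E) E) J)) := by
    refine ModelOn.of_finite f h4 h5 h6 fun j => ?_
    rw [h3 j]
    exact modelOn_component_tor hLD (h1 j) hgen ⟨P, Or.inl rfl⟩
      (fun Q hQ => hQ.imp id (fun h => hz Q h)) hP he hv hg₀ hee hvv h𝒢 h𝒢0 h0 hϖ u⁻¹.isUnit hh
  refine hM.hasModelAt ((finite_mem_prime hz0).subset fun Q hQ => ?_) (Or.inl rfl)
  by_contra hzQ
  exact hQ (Or.inr hzQ)

end Pool.Agent.Lib.MP_6a3dac_ag.Tor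
end
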