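import Pool.Agent.Lib.MP_6a3dac_ag.Mg.G059
import Pool.Agent.Lib.MP_6a3dac_ag.Mg.G023

section

/-!
# Coherent unimodular subdivisions on whose cones given forms have constant signs
-/

set_option autoImplicit false

namespace Pool.Agent.Lib.MP_6a3dac_ag.Tor.AF

open Matrix Finset Filter

variable {σ : Type} [Fintype σ] [DecidableEq σ]

/-- The form `f` has a constant sign on the cone. -/
def Sg (f : σ → ℚ) (p : Pc σ) : Prop := (∀ j, 0 ≤ p.1 j ⬝ᵥ f) ∨ ∀ j, p.1 j ⬝ᵥ f ≤ 0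

/-- The properties which are kept by the star subdivisions. -/
structure Inv (L : AddSubgroup (σ → ℚ)) (F : Set (σ → ℚ)) (S : List (Pc σ)) : Prop where
  coh : Coh S
  mem : ∀ p ∈ S, ∀ j, p.1 j ∈ L
  nonneg : ∀ p ∈ S, ∀ j i, 0 ≤ p.1 j i
  sg : ∀ f ∈ F, ∀ p ∈ S, Sg f p

theorem Inv.star {L : AddSubgroup (σ → ℚ)} {F : Set (σ → ℚ)} {S : List (Pc σ)} (h : Inv L F S)
    {x : σ → ℚ} {K : ℚ} (hK : GoodK x K S) (hxL : x ∈ L) : Inv L F (starS x K S) := by
  have hS := h.coh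
  refine ⟨hS.star hK, ?_, ?_, ?_⟩
  · intro q hq j
    obtain ⟨p, hp, hqp⟩ := mem_starS.1 hq
    rcases mem_starF.1 hqp with ⟨_, k, _, rfl⟩ | ⟨_, rfl⟩
    · by_cases hjk : j = k
      · subst hjk
        have : (starC x K p j).1 j = x := Matrix.updateRow_self
        rw [this]
        exact hxL
      · have : (starC x K p k).1 j = p.1 j := Matrix.updateRow_ne hjk
        rw [this]
        exact h.mem p hp j
    · exact h.mem p hp j
  · intro q hq j i
    obtain ⟨p, hp, hqp⟩ := mem_starS.1 hq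
    rcases mem_starF.1 hqp with ⟨hxp, k, _, rfl⟩ | ⟨_, rfl⟩
    · by_cases hjk : j = k
      · subst hjk
        have : (starC x K p j).1 j = x := Matrix.updateRow_self
        rw [this, expand (hS.det p hp) x, Finset.sum_apply]
        exact Finset.sum_nonneg fun l _ => mul_nonneg (hxp l) (h.nonneg p hp l i)
      · have : (starC x K p k).1 j = p.1 j := Matrix.updateRow_ne hjk
        rw [this]
        exact h.nonneg p hp j i
    · exact h.nonneg p hp j i
  · intro f hf q hq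
    obtain ⟨p, hp, hqp⟩ := mem_starS.1 hq
    rcases mem_starF.1 hqp with ⟨hxp, k, _, rfl⟩ | ⟨_, rfl⟩
    · rcases h.sg f hf p hp with h1 | h1
      · left
        intro j
        by_cases hjk : j = k
        · subst hjk
          have : (starC x K p j).1 j = x := Matrix.updateRow_self
          rw [this, dot_expand (hS.det p hp)]
          exact Finset.sum_nonneg fun l _ => mul_nonneg (hxp l) (h1 l)
        · have : (starC x K p k).1 j = p.1 j := Matrix.updateRow_ne hjk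
          rw [this]
          exact h1 j
      · right
        intro j
        by_cases hjk : j = k
        · subst hjk
          have : (starC x K p j).1 j = x := Matrix.updateRow_self
          rw [this, dot_expand (hS.det p hp)]
          exact Finset.sum_nonpos fun l _ => mul_nonpos_of_nonneg_of_nonpos (hxp l) (h1 l)
        · have : (starC x K p k).1 j = p.1 j := Matrix.updateRow_ne hjk
          rw [this]
          exact h1 j
    · exact h.sg f hf p hp

/-- Coherent unimodular subdivisions keep the signs. -/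
theorem exists_unimodular_inv (L : AddSubgroup (σ → ℚ)) (hL : ∀ x ∈ L, ∀ i, ∃ z : ℤ, x i = z)
    (F : Set (σ → ℚ)) : ∀ (n : ℕ) (S : List (Pc σ)), (S.map wt).sum ≤ n → Inv L F S →
      ∃ S' : List (Pc σ), Inv L F S' ∧ (∀ P : (σ → ℚ) → Prop, TotQ P → Cov P S → Cov P S') ∧
        ∀ p ∈ S', ∀ x ∈ L, ∀ j, ∃ z : ℤ, x ⬝ᵥ du p.1 j = z := by
  intro n
  induction n with
  | zero =>
    intro S hn hI
    cases S with
    | nil => exact ⟨[], hI, fun P _ h => h, fun p hp => absurd hp List.not_mem_nil⟩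
    | cons p S =>
      have : 0 < wt p := by unfold wt; positivity
      rw [List.map_cons, List.sum_cons] at hn
      omega
  | succ n ih =>
    intro S hn hI
    have hS := hI.coh
    have hSL := hI.mem
    by_cases hU : ∀ p ∈ S, ∀ x ∈ L, ∀ j, ∃ z : ℤ, x ⬝ᵥ du p.1 j = z
    · exact ⟨S, hI, fun P _ h => h, hU⟩
    · push Not at hU
      obtain ⟨p₀, hp₀, y, hy, j₀, hj₀⟩ := hU
      obtain ⟨x, hx⟩ : ∃ x : σ → ℚ, x = y - ∑ j, ⌊y ⬝ᵥ du p₀.1 j⌋ • p₀.1 j := ⟨_, rfl⟩
      have hxL : x ∈ L := by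
        rw [hx]
        exact L.sub_mem hy (L.sum_mem fun j _ => L.zsmul_mem (hSL p₀ hp₀ j) _)
      have hcx : ∀ k, x ⬝ᵥ du p₀.1 k = Int.fract (y ⬝ᵥ du p₀.1 k) := by
        intro k
        rw [hx, sub_dotProduct]
        have h1 : (∑ j, ⌊y ⬝ᵥ du p₀.1 j⌋ • p₀.1 j) =
            ∑ j, (⌊y ⬝ᵥ du p₀.1 j⌋ : ℚ) • p₀.1 j := by
          refine Finset.sum_congr rfl fun j _ => ?_
          rw [Int.cast_smul_eq_zsmul]
        rw [h1, coord_unique (hS.det p₀ hp₀)]
        exact Int.self_sub_floor _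
      have hxp : InC x p₀ := fun j => by
        rw [hcx]
        exact Int.fract_nonneg _
      have hx1 : ∀ j, x ⬝ᵥ du p₀.1 j < 1 := fun j => by
        rw [hcx]
        exact Int.fract_lt_one _
      have hx0 : x ≠ 0 := by
        rintro h0
        have h1 := hcx j₀
        rw [h0, zero_dotProduct] at h1
        have h2 : y ⬝ᵥ du p₀.1 j₀ = ⌊y ⬝ᵥ du p₀.1 j₀⌋ := by
          have := Int.floor_add_fract (y ⬝ᵥ du p₀.1 j₀)
          rw [← h1, add_zero] at this
          exact this.symm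
        exact hj₀ _ h2
      obtain ⟨K, hK⟩ := (eventually_goodK x S).exists
      have hlt := wt_starS hS (fun p hp i j => hL _ (hSL p hp i) j) (hL x hxL) K hp₀ hxp
        fun p hp hxp' => hS.lt_one hp₀ hp hxp hxp' hx1
      obtain ⟨S', h1, h2, h3⟩ := ih (starS x K S) (by omega) (hI.star hK hxL)
      exact ⟨S', h1, fun P hP h => h2 P hP (h.star hP hS hx0 K), h3⟩

/-! ### Cutting with a hyperplane -/

/-- The number of the rows with a positive value. -/
noncomputable def nP (f : σ → ℚ) (R : Matrix σ σ ℚ) : ℕ := by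
  classical
  exact (Finset.univ.filter fun j => 0 < R j ⬝ᵥ f).card

/-- The number of the rows with a negative value. -/
noncomputable def nM (f : σ → ℚ) (R : Matrix σ σ ℚ) : ℕ := by
  classical
  exact (Finset.univ.filter fun j => R j ⬝ᵥ f < 0).card

/-- The weight. -/
noncomputable def wc (f : σ → ℚ) (p : Pc σ) : ℕ := (Fintype.card σ + 1) ^ (nP f p.1 * nM f p.1)

theorem nPM_update {f x : σ → ℚ} {R : Matrix σ σ ℚ} {k : σ} (hx : x ⬝ᵥ f = 0)
    (hk : R k ⬝ᵥ f ≠ 0) (hP : 0 < nP f R) (hM : 0 < nM f R) :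
    nP f (R.updateRow k x) * nM f (R.updateRow k x) < nP f R * nM f R := by
  classical
  have hP' : (Finset.univ.filter fun j => 0 < R.updateRow k x j ⬝ᵥ f) ⊆
      (Finset.univ.filter fun j => 0 < R j ⬝ᵥ f).erase k := by
    intro j hj
    rw [Finset.mem_filter] at hj
    rw [Finset.mem_erase, Finset.mem_filter]
    by_cases hjk : j = k
    · subst hjk
      rw [Matrix.updateRow_self, hx] at hj
      exact absurd hj.2 (lt_irrefl _)
    · rw [Matrix.updateRow_ne hjk] at hj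
      exact ⟨hjk, hj⟩
  have hM' : (Finset.univ.filter fun j => R.updateRow k x j ⬝ᵥ f < 0) ⊆
      (Finset.univ.filter fun j => R j ⬝ᵥ f < 0).erase k := by
    intro j hj
    rw [Finset.mem_filter] at hj
    rw [Finset.mem_erase, Finset.mem_filter]
    by_cases hjk : j = k
    · subst hjk
      rw [Matrix.updateRow_self, hx] at hj
      exact absurd hj.2 (lt_irrefl _)
    · rw [Matrix.updateRow_ne hjk] at hj
      exact ⟨hjk, hj⟩
  have h1 : nP f (R.updateRow k x) ≤ nP f R :=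
    Finset.card_le_card (hP'.trans (Finset.erase_subset _ _))
  have h2 : nM f (R.updateRow k x) ≤ nM f R :=
    Finset.card_le_card (hM'.trans (Finset.erase_subset _ _))
  rcases lt_or_gt_of_ne hk with h | h
  · have h3 : nM f (R.updateRow k x) < nM f R := by
      refine (Finset.card_le_card hM').trans_lt (Finset.card_erase_lt_of_mem ?_)
      rw [Finset.mem_filter]
      exact ⟨Finset.mem_univ _, h⟩
    exact (Nat.mul_le_mul_right _ h1).trans_lt (Nat.mul_lt_mul_of_pos_left h3 hP)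
  · have h3 : nP f (R.updateRow k x) < nP f R := by
      refine (Finset.card_le_card hP').trans_lt (Finset.card_erase_lt_of_mem ?_)
      rw [Finset.mem_filter]
      exact ⟨Finset.mem_univ _, h⟩
    exact (Nat.mul_le_mul_left _ h2).trans_lt (Nat.mul_lt_mul_of_pos_right h3 hM)

theorem wc_starF {f x : σ → ℚ} {p : Pc σ} (K : ℚ)
    (h1 : InC x p → ∀ j, 0 < x ⬝ᵥ du p.1 j → nP f (p.1.updateRow j x) * nM f (p.1.updateRow j x) <
      nP f p.1 * nM f p.1) :
    ((starF x K p).map (wc f)).sum ≤ wc f p ∧ (InC x p → ((starF x K p).map (wc f)).sum < wc f p) := by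
  classical
  by_cases h : InC x p
  · have hlt : ((starF x K p).map (wc f)).sum < wc f p := by
      unfold starF
      rw [if_pos h]
      by_cases hne : ∃ j, 0 < x ⬝ᵥ du p.1 j
      · obtain ⟨j₀, hj₀⟩ := hne
        obtain ⟨n, hn⟩ : ∃ n, nP f p.1 * nM f p.1 = n + 1 :=
          ⟨nP f p.1 * nM f p.1 - 1, by have := h1 h j₀ hj₀; omega⟩
        have hb : ∀ y ∈ List.map (wc f) (List.map (starC x K p)
            (List.filter (fun j => decide (0 < x ⬝ᵥ du p.1 j)) univ.toList)),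
            y ≤ (Fintype.card σ + 1) ^ n := by
          intro y hy
          rw [List.mem_map] at hy
          obtain ⟨q, hq, rfl⟩ := hy
          rw [List.mem_map] at hq
          obtain ⟨j, hj, rfl⟩ := hq
          rw [List.mem_filter, decide_eq_true_eq] at hj
          have h2 := h1 h j hj.2
          unfold wc
          refine Nat.pow_le_pow_right (by omega) ?_
          show nP f (p.1.updateRow j x) * nM f (p.1.updateRow j x) ≤ n
          omega
        refine (List.sum_le_card_nsmul _ _ hb).trans_lt ?_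
        rw [List.length_map, List.length_map, smul_eq_mul]
        have h3 : (List.filter (fun j => decide (0 < x ⬝ᵥ du p.1 j)) univ.toList).length ≤
            Fintype.card σ := by
          refine (List.length_filter_le _ _).trans ?_
          rw [Finset.length_toList, Finset.card_univ]
        unfold wc
        rw [hn, pow_succ, mul_comm]
        have h4 : 0 < (Fintype.card σ + 1) ^ n := by positivity
        exact Nat.mul_lt_mul_of_pos_left (by omega) h4
      · have h2 : List.filter (fun j => decide (0 < x ⬝ᵥ du p.1 j)) univ.toList = [] := by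
          rw [List.filter_eq_nil_iff]
          intro j _
          rw [decide_eq_true_eq]
          exact fun h3 => hne ⟨j, h3⟩
        rw [h2]
        unfold wc
        rw [List.map_nil, List.map_nil, List.sum_nil]
        positivity
    exact ⟨hlt.le, fun _ => hlt⟩
  · refine ⟨?_, fun h' => absurd h' h⟩
    unfold starF
    rw [if_neg h]
    simp [wc]

theorem wc_starS {f x : σ → ℚ} {S : List (Pc σ)} (K : ℚ) {p₀ : Pc σ} (hp₀ : p₀ ∈ S)
    (hxp : InC x p₀) (h1 : ∀ p ∈ S, InC x p → ∀ j, 0 < x ⬝ᵥ du p.1 j →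
      nP f (p.1.updateRow j x) * nM f (p.1.updateRow j x) < nP f p.1 * nM f p.1) :
    ((starS x K S).map (wc f)).sum < (S.map (wc f)).sum := by
  have h2 : ∀ S' : List (Pc σ), ((starS x K S').map (wc f)).sum =
      (S'.map fun p => ((starF x K p).map (wc f)).sum).sum := by
    intro S'
    induction S' with
    | nil => rfl
    | cons p S' ih =>
      have : starS x K (p :: S') = starF x K p ++ starS x K S' := by
        unfold starS
        rw [List.flatMap_cons]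
      rw [this, List.map_append, List.sum_append, ih, List.map_cons, List.sum_cons]
  rw [h2]
  exact List.sum_lt_sum _ _ (fun p hp => (wc_starF K (h1 p hp)).1)
    ⟨p₀, hp₀, (wc_starF K (h1 p₀ hp₀)).2 hxp⟩

/-- Cutting with one hyperplane. -/
theorem exists_cut (L : AddSubgroup (σ → ℚ)) (F : Set (σ → ℚ)) (f : σ → ℚ)
    (hf : ∀ x ∈ L, ∃ z : ℤ, x ⬝ᵥ f = z) : ∀ (n : ℕ) (S : List (Pc σ)), (S.map (wc f)).sum ≤ n →
      Inv L F S → ∃ S' : List (Pc σ), Inv L (insert f F) S' ∧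
        ∀ P : (σ → ℚ) → Prop, TotQ P → Cov P S → Cov P S' := by
  intro n
  induction n with
  | zero =>
    intro S hn hI
    cases S with
    | nil =>
      exact ⟨[], ⟨hI.coh, hI.mem, hI.nonneg, fun _ _ p hp => absurd hp List.not_mem_nil⟩,
        fun P _ h => h⟩
    | cons p S =>
      have : 0 < wc f p := by unfold wc; positivity
      rw [List.map_cons, List.sum_cons] at hn
      omega
  | succ n ih =>
    intro S hn hI
    have hS := hI.coh
    by_cases hU : ∀ p ∈ S, Sg f p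
    · refine ⟨S, ⟨hI.coh, hI.mem, hI.nonneg, ?_⟩, fun P _ h => h⟩
      intro g hg p hp
      rcases Set.mem_insert_iff.1 hg with rfl | hg
      · exact hU p hp
      · exact hI.sg g hg p hp
    · push Not at hU
      obtain ⟨p₀, hp₀, hp₀f⟩ := hU
      unfold Sg at hp₀f
      push Not at hp₀f
      obtain ⟨⟨a, ha⟩, ⟨b, hb⟩⟩ := hp₀f
      obtain ⟨x, hx⟩ : ∃ x : σ → ℚ,
        x = (p₀.1 b ⬝ᵥ f) • p₀.1 a - (p₀.1 a ⬝ᵥ f) • p₀.1 b := ⟨_, rfl⟩
      have hxL : x ∈ L := by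
        obtain ⟨z, hz⟩ := hf _ (hI.mem p₀ hp₀ a)
        obtain ⟨z', hz'⟩ := hf _ (hI.mem p₀ hp₀ b)
        rw [hx, hz, hz', Int.cast_smul_eq_zsmul, Int.cast_smul_eq_zsmul]
        exact L.sub_mem (L.zsmul_mem (hI.mem p₀ hp₀ a) _) (L.zsmul_mem (hI.mem p₀ hp₀ b) _)
      have hxf : x ⬝ᵥ f = 0 := by
        rw [hx, sub_dotProduct, smul_dotProduct, smul_dotProduct, smul_eq_mul, smul_eq_mul]
        ring
      -- the coefficients in a cone with these rows
      have hcoef : ∀ p ∈ S, ∀ l l' : σ, p.1 l = p₀.1 a → p.1 l' = p₀.1 b → ∀ k,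
          x ⬝ᵥ du p.1 k = (p₀.1 b ⬝ᵥ f) * (if l = k then 1 else 0) +
            (-(p₀.1 a ⬝ᵥ f)) * (if l' = k then 1 else 0) := by
        intro p hp l l' hl hl' k
        rw [hx, ← hl, ← hl', sub_dotProduct, smul_dotProduct, smul_dotProduct,
          row_du (hS.det p hp), row_du (hS.det p hp), smul_eq_mul, smul_eq_mul]
        ring
      have hab : a ≠ b := by
        rintro rfl
        exact absurd ha (not_lt.2 hb.le)
      have hxp : InC x p₀ := fun j => by
        rw [hcoef p₀ hp₀ a b rfl rfl]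
        have h1 : 0 ≤ -(p₀.1 a ⬝ᵥ f) := by linarith
        split_ifs <;> nlinarith
      have hxa : 0 < x ⬝ᵥ du p₀.1 a := by
        rw [hcoef p₀ hp₀ a b rfl rfl, if_pos rfl, if_neg hab.symm, mul_one, mul_zero, add_zero]
        exact hb
      have hxb : 0 < x ⬝ᵥ du p₀.1 b := by
        rw [hcoef p₀ hp₀ a b rfl rfl, if_pos rfl, if_neg hab, mul_one, mul_zero, zero_add]
        linarith
      have hx0 : x ≠ 0 := by
        rintro h0
        rw [h0, zero_dotProduct] at hxa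
        exact lt_irrefl _ hxa
      obtain ⟨K, hK⟩ := (eventually_goodK x S).exists
      have hlt : ((starS x K S).map (wc f)).sum < (S.map (wc f)).sum := by
        refine wc_starS K hp₀ hxp fun p hp hxp' j hj => ?_
        have hle := hS.le_of_inC hp hp₀ hxp'
        obtain ⟨l, hl⟩ := hS.row_of_eq hp₀ hp hxp hle hxa
        obtain ⟨l', hl'⟩ := hS.row_of_eq hp₀ hp hxp hle hxb
        refine nPM_update hxf ?_ ?_ ?_
        · rw [hcoef p hp l l' hl hl'] at hj
          by_cases h1 : l = j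
          · rw [← h1, hl]
            exact ha.ne
          · by_cases h2 : l' = j
            · rw [← h2, hl']
              exact hb.ne'
            · rw [if_neg h1, if_neg h2, mul_zero, mul_zero, add_zero] at hj
              exact absurd hj (lt_irrefl _)
        · refine Finset.card_pos.2 ⟨l', ?_⟩
          rw [Finset.mem_filter, hl']
          exact ⟨Finset.mem_univ _, hb⟩
        · refine Finset.card_pos.2 ⟨l, ?_⟩
          rw [Finset.mem_filter, hl]
          exact ⟨Finset.mem_univ _, ha⟩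
      obtain ⟨S', h1, h2⟩ := ih (starS x K S) (by omega) (hI.star hK hxL)
      exact ⟨S', h1, fun P hP h => h2 P hP (h.star hP hS hx0 K)⟩

/-- Cutting with finitely many hyperplanes. -/
theorem exists_cuts (L : AddSubgroup (σ → ℚ)) (F : List (σ → ℚ))
    (hF : ∀ f ∈ F, ∀ x ∈ L, ∃ z : ℤ, x ⬝ᵥ f = z) (S : List (Pc σ)) (hS : Inv L ∅ S) :
    ∃ S' : List (Pc σ), Inv L {f | f ∈ F} S' ∧
      ∀ P : (σ → ℚ) → Prop, TotQ P → Cov P S → Cov P S' := by
  induction F with
  | nil =>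
    refine ⟨S, ?_, fun P _ h => h⟩
    exact ⟨hS.coh, hS.mem, hS.nonneg, fun f hf => absurd hf List.not_mem_nil⟩
  | cons f F ih =>
    obtain ⟨S₁, h1, h2⟩ := ih fun g hg => hF g (List.mem_cons_of_mem _ hg)
    obtain ⟨S₂, h3, h4⟩ := exists_cut L {g | g ∈ F} f (hF f List.mem_cons_self) _ S₁ le_rfl h1
    refine ⟨S₂, ⟨h3.coh, h3.mem, h3.nonneg, ?_⟩, fun P hP h => h4 P hP (h2 P hP h)⟩
    intro g hg p hp
    refine h3.sg g ?_ p hp
    rcases List.mem_cons.1 hg with rfl | hg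
    · exact Set.mem_insert _ _
    · exact Set.mem_insert_of_mem _ hg

/-- **Coherent unimodular subdivisions of the orthant with constant signs.** -/
theorem exists_signed (L : AddSubgroup (σ → ℚ)) (hL : ∀ x ∈ L, ∀ i, ∃ z : ℤ, x i = z)
    (F : List (σ → ℚ)) (hF : ∀ f ∈ F, ∀ x ∈ L, ∃ z : ℤ, x ⬝ᵥ f = z) (S : List (Pc σ))
    (hS : Inv L ∅ S) :
    ∃ S' : List (Pc σ), Inv L {f | f ∈ F} S' ∧
      (∀ P : (σ → ℚ) → Prop, TotQ P → Cov P S → Cov P S') ∧
        ∀ p ∈ S', ∀ x ∈ L, ∀ j, ∃ z : ℤ, x ⬝ᵥ du p.1 j = z := by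
  obtain ⟨S₁, h1, h2⟩ := exists_cuts L F hF S hS
  obtain ⟨S₂, h3, h4, h5⟩ := exists_unimodular_inv L hL {f | f ∈ F} _ S₁ le_rfl h1
  exact ⟨S₂, h3, fun P hP h => h4 P hP (h2 P hP h), h5⟩

end Pool.Agent.Lib.MP_6a3dac_ag.Tor.AF
end

section

/-!
# The charts of a unimodular subdivision of the orthant with constant signs
-/

set_option autoImplicit false

namespace Pool.Agent.Lib.MP_6a3dac_ag.Tor.AF

open Matrix Finset Filter

/-- The total preorder on the rational vectors. -/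
def PZ {σ : Type} (P : Set (σ → ℤ)) (x : σ → ℚ) : Prop :=
  ∃ n : ℕ, 0 < n ∧ ∃ y : σ → ℤ, (∀ i, (n : ℚ) * x i = y i) ∧ y ∈ P

theorem fan_nsmul {M : Type} [AddCommGroup M] {P : Set M} (hP : IsTotal P) (n : ℕ)
    {x : M} (hx : x ∈ P) : n • x ∈ P := by
  induction n with
  | zero => rw [zero_smul]; exact hP.zero
  | succ n ih => rw [succ_nsmul]; exact hP.add _ ih _ hx

theorem fan_of_nsmul {M : Type} [AddCommGroup M] {P : Set M} (hP : IsTotal P) {n : ℕ}
    (hn : 0 < n) {x : M} (hx : n • x ∈ P) : x ∈ P := by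
  rcases hP.total x with h | h
  · exact h
  · obtain ⟨k, rfl⟩ : ∃ k, n = k + 1 := ⟨n - 1, by omega⟩
    have h2 := hP.add _ hx _ (fan_nsmul hP k h)
    rwa [succ_nsmul, smul_neg, add_comm (k • x), add_neg_cancel_right] at h2

theorem fan_denom {α : Type} [Fintype α] (S : List (α → ℚ)) :
    ∃ N : ℕ, 0 < N ∧ ∀ x ∈ S, ∀ i, ∃ z : ℤ, (N : ℚ) * x i = z := by
  induction S with
  | nil => exact ⟨1, one_pos, fun x hx => absurd hx List.not_mem_nil⟩
  | cons y S ih =>
    obtain ⟨N, hN, h⟩ := ih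
    refine ⟨N * ∏ i, (y i).den, Nat.mul_pos hN (Finset.prod_pos fun i _ => (y i).den_pos),
      fun x hx i => ?_⟩
    rcases List.mem_cons.1 hx with rfl | hx
    · obtain ⟨k, hk⟩ := Finset.dvd_prod_of_mem (fun i => (x i).den) (mem_univ i)
      refine ⟨N * k * (x i).num, ?_⟩
      rw [hk]
      push_cast
      have := Rat.mul_den_eq_num (x i)
      linear_combination (N : ℚ) * k * this
    · obtain ⟨z, hz⟩ := h x hx i
      refine ⟨(∏ i, (y i).den : ℕ) * z, ?_⟩
      push_cast at hz ⊢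
      rw [← hz]
      ring

theorem totQ_PZ {σ : Type} [Fintype σ] {P : Set (σ → ℤ)} (hP : IsTotal P) : TotQ (PZ P) where
  add := by
    rintro x x' ⟨n, hn, y, hy, hyP⟩ ⟨n', hn', y', hy', hyP'⟩
    refine ⟨n * n', Nat.mul_pos hn hn', n' • y + n • y', fun i => ?_, ?_⟩
    · rw [Pi.add_apply, Pi.add_apply, Pi.smul_apply, Pi.smul_apply, nsmul_eq_mul, nsmul_eq_mul]
      push_cast
      rw [← hy i, ← hy' i]
      ring
    · exact hP.add _ (fan_nsmul hP n' hyP) _ (fan_nsmul hP n hyP')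
  total := by
    intro x
    obtain ⟨N, hN, h⟩ := fan_denom [x]
    choose y hy using h x (List.mem_singleton.2 rfl)
    rcases hP.total y with h1 | h1
    · exact Or.inl ⟨N, hN, y, hy, h1⟩
    · refine Or.inr ⟨N, hN, -y, fun i => ?_, h1⟩
      rw [Pi.neg_apply, Pi.neg_apply, mul_neg, hy i]
      push_cast
      ring
  smul := by
    rintro c x hc ⟨n, hn, y, hy, hyP⟩
    refine ⟨c.den * n, Nat.mul_pos c.den_pos hn, c.num.toNat • y, fun i => ?_,
      fan_nsmul hP c.num.toNat hyP⟩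
    rw [Pi.smul_apply, Pi.smul_apply, nsmul_eq_mul, smul_eq_mul]
    have h1 : ((c.num.toNat : ℤ) : ℚ) = c.num := by
      rw [Int.toNat_of_nonneg (Rat.num_nonneg.2 hc)]
    push_cast at h1 ⊢
    rw [h1, ← hy i]
    have := Rat.mul_den_eq_num c
    linear_combination (n : ℚ) * x i * this

theorem fan_evl {α : Type} (S : List α) {Q : ℕ → α → Prop}
    (h : ∀ p ∈ S, ∀ᶠ K in atTop, Q K p) : ∀ᶠ K in atTop, ∀ p ∈ S, Q K p := by
  induction S with
  | nil => simp
  | cons a S ih =>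
    have h1 := h a List.mem_cons_self
    have h2 := ih fun p hp => h p (List.mem_cons_of_mem _ hp)
    filter_upwards [h1, h2] with K h1 h2 p hp
    rcases List.mem_cons.1 hp with rfl | hp
    · exact h1
    · exact h2 p hp

theorem fan_ev (z : ℤ) : ∀ᶠ C : ℕ in atTop, 0 ≤ z + (C : ℤ) := by
  filter_upwards [eventually_ge_atTop z.natAbs] with C hC
  omega

section

variable {σ : Type} [Fintype σ] [DecidableEq σ]

/-- The lattice of the integral vectors. -/
def latZ (σ : Type) : AddSubgroup (σ → ℚ) where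
  carrier := {x | ∀ i, ∃ z : ℤ, x i = z}
  zero_mem' := fun i => ⟨0, by simp⟩
  add_mem' := fun {x y} hx hy i => by
    obtain ⟨a, ha⟩ := hx i
    obtain ⟨b, hb⟩ := hy i
    exact ⟨a + b, by rw [Pi.add_apply, ha, hb]; push_cast; ring⟩
  neg_mem' := fun {x} hx i => by
    obtain ⟨a, ha⟩ := hx i
    exact ⟨-a, by rw [Pi.neg_apply, ha]; push_cast; ring⟩

theorem fan_start : Inv (latZ σ) ∅ [((1 : Matrix σ σ ℚ), (0 : σ → ℚ))] := by
  refine ⟨⟨?_, ?_, ?_⟩, ?_, ?_, fun f hf => absurd hf (Set.notMem_empty f)⟩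
  · intro p hp
    rw [List.mem_singleton.1 hp]
    show (1 : Matrix σ σ ℚ).det ≠ 0
    rw [Matrix.det_one]
    exact one_ne_zero
  · intro p hp p' hp' j
    rw [List.mem_singleton.1 hp, List.mem_singleton.1 hp']
  · intro p hp p' hp' j _
    rw [List.mem_singleton.1 hp, List.mem_singleton.1 hp']
    exact ⟨j, rfl⟩
  · intro p hp j i
    rw [List.mem_singleton.1 hp]
    show ∃ z : ℤ, (1 : Matrix σ σ ℚ) j i = z
    rw [Matrix.one_apply]
    split_ifs
    · exact ⟨1, by simp⟩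
    · exact ⟨0, by simp⟩
  · intro p hp j i
    rw [List.mem_singleton.1 hp]
    show 0 ≤ (1 : Matrix σ σ ℚ) j i
    rw [Matrix.one_apply]
    split_ifs <;> norm_num

theorem fan_start_cov {P : Set (σ → ℤ)} (h : ∀ i, (Pi.single i 1 : σ → ℤ) ∈ P) :
    Cov (PZ P) [((1 : Matrix σ σ ℚ), (0 : σ → ℚ))] := by
  refine ⟨_, List.mem_singleton.2 rfl, fun j => ⟨1, one_pos, Pi.single j 1, fun i => ?_, h j⟩⟩
  show ((1 : ℕ) : ℚ) * (1 : Matrix σ σ ℚ)⁻¹ i j = _
  rw [inv_one, Matrix.one_apply, Nat.cast_one, one_mul, Pi.single_apply]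
  split_ifs <;> simp

/-- **The charts of the orthant with constant signs.** -/
theorem exists_signed_charts {τ : Type} [Fintype τ] (f : τ → σ → ℤ) :
    ∃ 𝒢 : Finset (σ → ℕ), ∀ P : Set (σ → ℤ), IsTotal P → (∀ i, (Pi.single i 1 : σ → ℤ) ∈ P) →
      ∃ (t : σ → σ → ℕ) (B : σ → σ → ℤ) (μ : σ → ℕ),
        (∀ ρ ρ', ∑ i, (t ρ i : ℤ) * B ρ' i = if ρ = ρ' then 1 else 0) ∧
        (∀ i j, ∑ ρ, (t ρ i : ℤ) * B ρ j = if i = j then 1 else 0) ∧
        (∀ ρ, B ρ ∈ P) ∧
        (∀ j, (∀ ρ, 0 ≤ ∑ i, f j i * (t ρ i : ℤ)) ∨ ∀ ρ, ∑ i, f j i * (t ρ i : ℤ) ≤ 0) ∧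
        μ ∈ 𝒢 ∧ (∀ ρ, ∃ ν ∈ 𝒢, ∀ i, (ν i : ℤ) = μ i + B ρ i) ∧
        ∀ ν ∈ 𝒢, ∃ k : σ → ℕ, ∀ i, (ν i : ℤ) - μ i = ∑ ρ, (k ρ : ℤ) * B ρ i := by
  classical
  obtain ⟨S, hI, hcov, huni⟩ := exists_signed (latZ σ) (fun x hx => hx)
    (Finset.univ.toList.map fun j : τ => fun i => ((f j i : ℤ) : ℚ)) (by
      intro g hg x hx
      rw [List.mem_map] at hg
      obtain ⟨j, _, rfl⟩ := hg
      choose z hz using hx
      refine ⟨∑ i, z i * f j i, ?_⟩
      unfold dotProduct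
      push_cast
      exact Finset.sum_congr rfl fun i _ => by rw [hz]) _ fan_start
  have hS := hI.coh
  -- the integral data
  obtain ⟨t, ht⟩ : ∃ t : Pc σ → σ → σ → ℕ, ∀ p ∈ S, ∀ ρ i, ((t p ρ i : ℕ) : ℚ) = p.1 ρ i := by
    refine ⟨fun p ρ i => ⌊p.1 ρ i⌋.toNat, fun p hp ρ i => ?_⟩
    obtain ⟨z, hz⟩ := hI.mem p hp ρ i
    have h0 : 0 ≤ z := by
      have := hI.nonneg p hp ρ i
      rw [hz] at this
      exact_mod_cast this
    change ((⌊p.1 ρ i⌋.toNat : ℕ) : ℚ) = p.1 ρ i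
    rw [hz, Int.floor_intCast]
    exact_mod_cast Int.toNat_of_nonneg h0
  obtain ⟨B, hB⟩ : ∃ B : Pc σ → σ → σ → ℤ, ∀ p ∈ S, ∀ ρ i, ((B p ρ i : ℤ) : ℚ) = du p.1 ρ i := by
    refine ⟨fun p ρ i => ⌊du p.1 ρ i⌋, fun p hp ρ i => ?_⟩
    obtain ⟨z, hz⟩ := huni p hp (Pi.single i 1) (fun l => by
      rw [Pi.single_apply]
      split_ifs
      · exact ⟨1, by simp⟩
      · exact ⟨0, by simp⟩) ρ
    rw [single_one_dotProduct] at hz
    change ((⌊du p.1 ρ i⌋ : ℤ) : ℚ) = du p.1 ρ i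
    rw [hz, Int.floor_intCast]
  obtain ⟨N, hN, hNS⟩ := fan_denom (S.map fun p => p.2)
  obtain ⟨M, hM⟩ : ∃ M : Pc σ → σ → ℤ, ∀ p ∈ S, ∀ i, ((M p i : ℤ) : ℚ) = N * p.2 i := by
    refine ⟨fun p i => ⌊(N : ℚ) * p.2 i⌋, fun p hp i => ?_⟩
    obtain ⟨z, hz⟩ := hNS _ (List.mem_map_of_mem hp) i
    change ((⌊(N : ℚ) * p.2 i⌋ : ℤ) : ℚ) = (N : ℚ) * p.2 i
    rw [hz, Int.floor_intCast]
  -- the identities
  have hid₁ : ∀ p ∈ S, ∀ ρ ρ', ∑ i, (t p ρ i : ℤ) * B p ρ' i = if ρ = ρ' then 1 else 0 := by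
    intro p hp ρ ρ'
    have h1 := row_du (hS.det p hp) ρ ρ'
    have h2 : ((∑ i, (t p ρ i : ℤ) * B p ρ' i : ℤ) : ℚ) = p.1 ρ ⬝ᵥ du p.1 ρ' := by
      unfold dotProduct
      push_cast
      exact Finset.sum_congr rfl fun i _ => by rw [ht p hp, hB p hp]
    rw [h1] at h2
    split_ifs at h2 ⊢ <;> exact_mod_cast h2
  have hid₂ : ∀ p ∈ S, ∀ i j, ∑ ρ, (t p ρ i : ℤ) * B p ρ j = if i = j then 1 else 0 := by
    intro p hp i j
    have h1 : (p.1⁻¹ * p.1) j i = (1 : Matrix σ σ ℚ) j i := by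
      rw [Matrix.nonsing_inv_mul _ (Ne.isUnit (hS.det p hp))]
    have h2 : ((∑ ρ, (t p ρ i : ℤ) * B p ρ j : ℤ) : ℚ) = (p.1⁻¹ * p.1) j i := by
      rw [Matrix.mul_apply]
      push_cast
      refine Finset.sum_congr rfl fun ρ _ => ?_
      rw [ht p hp, hB p hp]
      unfold du
      ring
    rw [h1, Matrix.one_apply] at h2
    by_cases hij : i = j
    · rw [if_pos hij.symm] at h2
      rw [if_pos hij]
      exact_mod_cast h2
    · rw [if_neg fun h => hij h.symm] at h2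
      rw [if_neg hij]
      exact_mod_cast h2
  -- the differences of the functionals
  have hdiff : ∀ p ∈ S, ∀ p' ∈ S, ∀ ρ, 0 ≤ ∑ i, (M p' i - M p i) * (t p ρ i : ℤ) ∧
      (∑ i, (M p' i - M p i) * (t p ρ i : ℤ) = 0 → ∃ l, t p' l = t p ρ) := by
    intro p hp p' hp' ρ
    have h1 : ((∑ i, (M p' i - M p i) * (t p ρ i : ℤ) : ℤ) : ℚ) =
        N * (p.1 ρ ⬝ᵥ p'.2 - p.1 ρ ⬝ᵥ p.2) := by
      unfold dotProduct
      rw [← Finset.sum_sub_distrib, Finset.mul_sum]
      push_cast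
      refine Finset.sum_congr rfl fun i _ => ?_
      rw [hM p hp, hM p' hp', ht p hp]
      ring
    have hN' : (0 : ℚ) < N := by exact_mod_cast hN
    have hle := hS.le p hp p' hp' ρ
    refine ⟨?_, fun h0 => ?_⟩
    · have h2 : (0 : ℚ) ≤ ((∑ i, (M p' i - M p i) * (t p ρ i : ℤ) : ℤ) : ℚ) := by
        rw [h1]
        exact mul_nonneg hN'.le (sub_nonneg.2 hle)
      exact_mod_cast h2
    · rw [h0, Int.cast_zero] at h1
      have h3 : p.1 ρ ⬝ᵥ p'.2 - p.1 ρ ⬝ᵥ p.2 = 0 := by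
        rcases mul_eq_zero.1 h1.symm with h | h
        · exact absurd h hN'.ne'
        · exact h
      obtain ⟨l, hl⟩ := hS.eq p hp p' hp' ρ (by linarith)
      refine ⟨l, funext fun i => ?_⟩
      have h4 : ((t p' l i : ℕ) : ℚ) = t p ρ i := by
        rw [ht p hp, ht p' hp', hl]
      exact_mod_cast h4
  -- the constants
  obtain ⟨K, hK⟩ : ∃ K : ℕ, ∀ p ∈ S, ∀ p' ∈ S, ∀ ρ ρ',
      0 ≤ (∑ i, B p' ρ' i * (t p ρ i : ℤ)) + (K : ℤ) := by
    have h1 : ∀ᶠ K : ℕ in atTop, ∀ p ∈ S, ∀ p' ∈ S, ∀ ρ ρ',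
        0 ≤ (∑ i, B p' ρ' i * (t p ρ i : ℤ)) + (K : ℤ) := by
      refine fan_evl S fun p _ => fan_evl S fun p' _ => ?_
      rw [eventually_all]
      intro ρ
      rw [eventually_all]
      intro ρ'
      exact fan_ev _
    exact h1.exists
  obtain ⟨C, hC₀, hC⟩ : ∃ C : ℕ, (∀ p ∈ S, ∀ i, 0 ≤ (K : ℤ) * M p i + (C : ℤ)) ∧
      ∀ p ∈ S, ∀ ρ i, 0 ≤ ((K : ℤ) * M p i + B p ρ i) + (C : ℤ) := by
    have h1 : ∀ᶠ C : ℕ in atTop, ∀ p ∈ S, ∀ i, 0 ≤ (K : ℤ) * M p i + (C : ℤ) := by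
      refine fan_evl S fun p _ => ?_
      rw [eventually_all]
      intro i
      exact fan_ev _
    have h2 : ∀ᶠ C : ℕ in atTop, ∀ p ∈ S, ∀ ρ i,
        0 ≤ ((K : ℤ) * M p i + B p ρ i) + (C : ℤ) := by
      refine fan_evl S fun p _ => ?_
      rw [eventually_all]
      intro ρ
      rw [eventually_all]
      intro i
      exact fan_ev _
    exact (h1.and h2).exists
  obtain ⟨mu, hmu⟩ : ∃ mu : Pc σ → σ → ℕ, ∀ p ∈ S, ∀ i, ((mu p i : ℕ) : ℤ) = K * M p i + C :=
    ⟨fun p i => ((K : ℤ) * M p i + C).toNat, fun p hp i => Int.toNat_of_nonneg (hC₀ p hp i)⟩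
  obtain ⟨nu, hnu⟩ : ∃ nu : Pc σ → σ → σ → ℕ, ∀ p ∈ S, ∀ ρ i,
      ((nu p ρ i : ℕ) : ℤ) = K * M p i + B p ρ i + C :=
    ⟨fun p ρ i => ((K : ℤ) * M p i + B p ρ i + C).toNat,
      fun p hp ρ i => Int.toNat_of_nonneg (hC p hp ρ i)⟩
  obtain ⟨𝒢, h𝒢⟩ : ∃ 𝒢 : Finset (σ → ℕ), ∀ x, x ∈ 𝒢 ↔ ∃ p ∈ S, x = mu p ∨ ∃ ρ, x = nu p ρ := by
    refine ⟨S.toFinset.biUnion fun p => insert (mu p) (Finset.univ.image (nu p)), fun x => ?_⟩
    rw [Finset.mem_biUnion]
    constructor
    · rintro ⟨p, hp, hx⟩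
      refine ⟨p, List.mem_toFinset.1 hp, ?_⟩
      rcases Finset.mem_insert.1 hx with h | h
      · exact Or.inl h
      · obtain ⟨ρ, _, h⟩ := Finset.mem_image.1 h
        exact Or.inr ⟨ρ, h.symm⟩
    · rintro ⟨p, hp, hx⟩
      refine ⟨p, List.mem_toFinset.2 hp, ?_⟩
      rcases hx with h | ⟨ρ, h⟩
      · rw [h]
        exact Finset.mem_insert_self _ _
      · rw [h]
        exact Finset.mem_insert_of_mem (Finset.mem_image_of_mem _ (Finset.mem_univ ρ))
  refine ⟨𝒢, fun P hP hP1 => ?_⟩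
  obtain ⟨p, hp, hpP⟩ := hcov (PZ P) (totQ_PZ hP) (fan_start_cov hP1)
  have hBP : ∀ ρ, B p ρ ∈ P := by
    intro ρ
    obtain ⟨n, hn, y, hy, hyP⟩ := hpP ρ
    refine fan_of_nsmul hP hn ?_
    have h1 : n • B p ρ = y := by
      funext i
      rw [Pi.smul_apply, nsmul_eq_mul]
      have h2 : ((((n : ℤ) * B p ρ i : ℤ)) : ℚ) = y i := by
        rw [← hy i]
        push_cast
        rw [hB p hp]
      exact_mod_cast h2
    rw [h1]
    exact hyP
  refine ⟨t p, B p, mu p, hid₁ p hp, hid₂ p hp, hBP, fun j => ?_,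
    (h𝒢 _).2 ⟨p, hp, Or.inl rfl⟩, fun ρ => ⟨nu p ρ, (h𝒢 _).2 ⟨p, hp, Or.inr ⟨ρ, rfl⟩⟩, fun i => ?_⟩,
    fun ν hν => ?_⟩
  · have h1 : ∀ ρ, ((∑ i, f j i * (t p ρ i : ℤ) : ℤ) : ℚ) =
        p.1 ρ ⬝ᵥ fun i => ((f j i : ℤ) : ℚ) := by
      intro ρ
      unfold dotProduct
      push_cast
      refine Finset.sum_congr rfl fun i _ => ?_
      rw [ht p hp]
      ring
    rcases hI.sg (fun i => ((f j i : ℤ) : ℚ)) (by
      rw [Set.mem_ofPred_eq, List.mem_map]
      exact ⟨j, Finset.mem_toList.2 (Finset.mem_univ j), rfl⟩) p hp with h | h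
    · left
      intro ρ
      have h2 := h ρ
      rw [← h1 ρ] at h2
      exact_mod_cast h2
    · right
      intro ρ
      have h2 := h ρ
      rw [← h1 ρ] at h2
      exact_mod_cast h2
  · rw [hnu p hp, hmu p hp]
    ring
  · -- the generators
    obtain ⟨p', hp', hν'⟩ := (h𝒢 ν).1 hν
    have hnn : ∀ ρ, 0 ≤ ∑ i, ((ν i : ℤ) - mu p i) * (t p ρ i : ℤ) := by
      intro ρ
      obtain ⟨h1, h2⟩ := hdiff p hp p' hp' ρ
      rcases hν' with rfl | ⟨ρ', rfl⟩
      · have h3 : ∑ i, ((mu p' i : ℤ) - mu p i) * (t p ρ i : ℤ) =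
            K * ∑ i, (M p' i - M p i) * (t p ρ i : ℤ) := by
          rw [Finset.mul_sum]
          refine Finset.sum_congr rfl fun i _ => ?_
          rw [hmu p hp, hmu p' hp']
          ring
        rw [h3]
        exact mul_nonneg (Int.natCast_nonneg K) h1
      · have h3 : ∑ i, ((nu p' ρ' i : ℤ) - mu p i) * (t p ρ i : ℤ) =
            K * (∑ i, (M p' i - M p i) * (t p ρ i : ℤ)) + ∑ i, B p' ρ' i * (t p ρ i : ℤ) := by
          rw [Finset.mul_sum, ← Finset.sum_add_distrib]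
          refine Finset.sum_congr rfl fun i _ => ?_
          rw [hmu p hp, hnu p' hp']
          ring
        rw [h3]
        rcases h1.lt_or_eq with h4 | h4
        · have h5 := hK p hp p' hp' ρ ρ'
          have h6 : (K : ℤ) * 1 ≤ K * ∑ i, (M p' i - M p i) * (t p ρ i : ℤ) :=
            mul_le_mul_of_nonneg_left (by omega) (Int.natCast_nonneg K)
          linarith
        · obtain ⟨l, hl⟩ := h2 h4.symm
          rw [← h4, mul_zero, zero_add, ← hl]
          have h5 : ∑ i, B p' ρ' i * (t p' l i : ℤ) = if l = ρ' then 1 else 0 := by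
            rw [← hid₁ p' hp' l ρ']
            exact Finset.sum_congr rfl fun i _ => mul_comm _ _
          rw [h5]
          split_ifs <;> norm_num
    refine ⟨fun ρ => (∑ i, ((ν i : ℤ) - mu p i) * (t p ρ i : ℤ)).toNat, fun i => ?_⟩
    have h7 : ∀ ρ, (((∑ i, ((ν i : ℤ) - mu p i) * (t p ρ i : ℤ)).toNat : ℕ) : ℤ) =
        ∑ i, ((ν i : ℤ) - mu p i) * (t p ρ i : ℤ) := fun ρ => Int.toNat_of_nonneg (hnn ρ)
    have h8 : ∑ ρ, (((∑ i, ((ν i : ℤ) - mu p i) * (t p ρ i : ℤ)).toNat : ℕ) : ℤ) * B p ρ i =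
        ∑ l, ((ν l : ℤ) - mu p l) * ∑ ρ, (t p ρ l : ℤ) * B p ρ i := by
      simp only [h7]
      simp only [Finset.sum_mul, Finset.mul_sum]
      rw [Finset.sum_comm]
      exact Finset.sum_congr rfl fun l _ => Finset.sum_congr rfl fun ρ _ => by ring
    rw [h8]
    simp only [hid₂ p hp, mul_ite, mul_one, mul_zero, Finset.sum_ite_eq', Finset.mem_univ, if_true]

end

end Pool.Agent.Lib.MP_6a3dac_ag.Tor.AF
end
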