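import Pool.Agent.Lib.MP_6a3dac_ag.LS.Defs
import Pool.Agent.Lib.MP_6a3dac_ag.Mg.G024
import Pool.Agent.Lib.MP_6a3dac_ag.Mg.G023
import Pool.Agent.Lib.MP_6a3dac_ag.Mg.G060

section

/-!
# The charts of the toric modification: several equations
-/

set_option autoImplicit false

namespace Pool.Agent.Lib.MP_6a3dac_ag.LS

open MvPolynomial
open Pool.Agent.Lib.MP_6a3dac_ag.DNF Pool.Agent.Lib.MP_6a3dac_ag.Bert
open Pool.Agent.Lib.MP_6a3dac_ag.Fam Pool.Agent.Lib.MP_6a3dac_ag.Tor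

/-- The exponents of a chart of a toric modification of the affine space with the coordinates
`x i`, `i < s`, and `π`. -/
structure LChart (s : ℕ) where
  /-- the exponents of the coordinates of the chart in the `x i` -/
  A : Fin (s + 1) → Fin s → ℕ
  /-- the exponents of the coordinates of the chart in `π` -/
  β : Fin (s + 1) → ℕ
  /-- the exponents of the `x i` in the coordinates of the chart -/
  B : Fin (s + 1) → Fin s → ℤ
  /-- the exponents of `π` in the coordinates of the chart -/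
  B₀ : Fin (s + 1) → ℤ
  /-- the exponents of the monomial which generates the ideal on the chart -/
  μ : Fin s → ℕ
  /-- the exponent of `π` in this monomial -/
  μ₀ : ℕ

/-- The conditions on the exponents of a chart: the matrices are inverse to each other, the cone
spanned by the rays `(A ρ, β ρ)` lies on one side of each of the hyperplanes `e j = v j`, and
on the chart the ideal generated by the monomials with the exponents in `𝒢` is generated by the
monomial with the exponents `(μ, μ₀)`. -/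
structure LChart.IsFor {s l : ℕ} (t : LChart s) (e : Fin l → Fin s → ℕ) (v : Fin l → ℕ)
    (𝒢 : Finset ((Fin s → ℕ) × ℕ)) : Prop where
  dual₁ : ∀ ρ ρ', ∑ i, (t.A ρ i : ℤ) * t.B ρ' i + t.β ρ * t.B₀ ρ' = if ρ = ρ' then 1 else 0
  inv₁ : ∀ i j, ∑ ρ, (t.A ρ i : ℤ) * t.B ρ j = if i = j then 1 else 0
  inv₂ : ∀ i, ∑ ρ, (t.A ρ i : ℤ) * t.B₀ ρ = 0
  inv₃ : ∀ j, ∑ ρ, (t.β ρ : ℤ) * t.B ρ j = 0
  inv₄ : ∑ ρ, (t.β ρ : ℤ) * t.B₀ ρ = 1
  side : ∀ j, (∀ ρ, v j * t.β ρ ≤ ∑ i, e j i * t.A ρ i) ∨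
    ∀ ρ, ∑ i, e j i * t.A ρ i ≤ v j * t.β ρ
  mem₀ : (t.μ, t.μ₀) ∈ 𝒢
  mem₁ : ∀ ρ, ∃ ν ∈ 𝒢, (∀ i, (ν.1 i : ℤ) = t.μ i + t.B ρ i) ∧ (ν.2 : ℤ) = t.μ₀ + t.B₀ ρ
  ge : ∀ ν ∈ 𝒢, ∀ ρ, ∑ i, t.A ρ i * t.μ i + t.β ρ * t.μ₀ ≤ ∑ i, t.A ρ i * ν.1 i + t.β ρ * ν.2

/-- The exponents in `𝒢` give a complete family of charts. -/
def IsLCharts {s l : ℕ} (e : Fin l → Fin s → ℕ) (v : Fin l → ℕ)
    (𝒢 : Finset ((Fin s → ℕ) × ℕ)) : Prop :=
  ∀ P : Set ((Fin s → ℤ) × ℤ), IsTotal P →
    (∀ i, ((Pi.single i 1, 0) : (Fin s → ℤ) × ℤ) ∈ P) → ((0, 1) : (Fin s → ℤ) × ℤ) ∈ P →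
    ∃ t : LChart s, t.IsFor e v 𝒢 ∧ ∀ ρ, ((t.B ρ, t.B₀ ρ) : (Fin s → ℤ) × ℤ) ∈ P

section Eqs

variable {O σ : Type} [CommRing O] [DecidableEq σ] {s l : ℕ}

/-- The variables `x l` of the ambient chart as variables of the toric chart. -/
noncomputable def lup : MvPolynomial σ O →ₐ[O] MvPolynomial (σ ⊕ Fin (s + 1)) O :=
  rename Sum.inl

/-- The coordinates `y ρ` of the toric chart. -/
noncomputable def lyv (ρ : Fin (s + 1)) : MvPolynomial (σ ⊕ Fin (s + 1)) O := X (Sum.inr ρ)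

/-- The equations of the toric chart. -/
noncomputable def logEqs (U : Std O σ) (g : Fin s → MvPolynomial σ O)
    (w u : Fin l → MvPolynomial σ O) (ϖ : O) (e : Fin l → Fin s → ℕ) (v : Fin l → ℕ)
    (t : LChart s) :
    {k : σ // k ∉ U.T} ⊕ (Fin s ⊕ (Unit ⊕ Fin l)) → MvPolynomial (σ ⊕ Fin (s + 1)) O :=
  Sum.elim (fun κ => lup (U.g κ)) (Sum.elim
    (fun i => lup (g i) - ∏ ρ, lyv ρ ^ t.A ρ i)
    (Sum.elim (fun _ => C ϖ - ∏ ρ, lyv ρ ^ t.β ρ)
      (fun j => lup (w j) * ∏ ρ, lyv ρ ^ (∑ i, e j i * t.A ρ i - v j * t.β ρ) -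
        lup (u j) * ∏ ρ, lyv ρ ^ (v j * t.β ρ - ∑ i, e j i * t.A ρ i))))

end Eqs

section Mat

variable {R σ : Type} [CommRing R] [DecidableEq σ] [Fintype σ] {l s : ℕ}

/-- The matrix of the differentials. -/
noncomputable def logMat (U : Std R σ) (e : Fin l → Fin s → ℕ) (w u : Fin l → MvPolynomial σ R)
    (g : Fin s → MvPolynomial σ R) : Matrix (Fin l ⊕ Fin s) (Fin s ⊕ U.T) (MvPolynomial σ R) :=
  Matrix.of (Sum.elim
    (fun j => Sum.elim (fun i => w j * u j * (e j i : MvPolynomial σ R))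
      (fun t => u j * U.vf t.1 (w j) - w j * U.vf t.1 (u j)))
    (fun i => Sum.elim (fun i' => if i = i' then - g i else 0) (fun t => U.vf t.1 (g i))))

end Mat

section Over

open NumberField IsDedekindDomain

variable {E : Type} [Field E] [NumberField E] {m c l s : ℕ}

/-- The points over `P` of the scheme over the local ring at `P` are logarithmically smooth. -/
def LogOver (P : HeightOneSpectrum (𝓞 E)) (e : Fin l → Fin s → ℕ) (h : Fin l → locRing E P)
    (J : HomIdeal (𝓞 E) (m + c + 1)) (K : Fin s → HomIdeal (𝓞 E) (m + c + 1)) : Prop :=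
  (∀ k, ∃ j, 0 < e j k ∧ C (h j) ∈ (bc (algebraMap (𝓞 E) (locRing E P)) (K k)).ideal) ∧
  ∀ (i : Fin (m + c + 1)) (𝔮 : Ideal (MvPolynomial {l : Fin (m + c + 1) // l ≠ i} (locRing E P))),
    𝔮.IsPrime → dId (bc (algebraMap (𝓞 E) (locRing E P)) J) i ≤ 𝔮 →
    (∀ z ∈ P.asIdeal, C (algebraMap (𝓞 E) (locRing E P) z) ∈ 𝔮) →
      LogPt m e h (dId (bc (algebraMap (𝓞 E) (locRing E P)) J) i)
        (fun k => dId (bc (algebraMap (𝓞 E) (locRing E P)) (K k)) i) 𝔮

end Over

end Pool.Agent.Lib.MP_6a3dac_ag.LS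
end

section

/-!
# Existence of the charts
-/

set_option autoImplicit false

namespace Pool.Agent.Lib.MP_6a3dac_ag.LS

open Pool.Agent.Lib.MP_6a3dac_ag.Tor

/-- The exponents of the `x i` and of `π`. -/
def l1pr {s : ℕ} {M : Type} (x : Fin (s + 1) → M) : (Fin s → M) × M := (fun i => x i.succ, x 0)

theorem l1_total {s : ℕ} {P : Set ((Fin s → ℤ) × ℤ)} (hP : IsTotal P) :
    IsTotal {x : Fin (s + 1) → ℤ | l1pr x ∈ P} where
  zero := hP.zero
  add := fun _ hx _ hy => hP.add _ hx _ hy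
  total := fun x => hP.total (l1pr x)

/-- TASK L1: **the charts.** -/
theorem exists_lcharts {s l : ℕ} (e : Fin l → Fin s → ℕ) (v : Fin l → ℕ) :
    ∃ 𝒢 : Finset ((Fin s → ℕ) × ℕ), IsLCharts e v 𝒢 := by
  classical
  obtain ⟨𝒢, h𝒢⟩ := AF.exists_signed_charts (σ := Fin (s + 1)) (τ := Fin l)
    fun j => Fin.cons (-(v j : ℤ)) fun i => (e j i : ℤ)
  refine ⟨𝒢.image l1pr, fun P hP h1 h0 => ?_⟩
  obtain ⟨t, B, μ, hd, hi, hB, hs, hμ, hν, hge⟩ := h𝒢 {x | l1pr x ∈ P} (l1_total hP) fun i => by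
    refine Fin.cases ?_ (fun i => ?_) i
    · show l1pr (Pi.single 0 1 : Fin (s + 1) → ℤ) ∈ P
      have h2 : l1pr (Pi.single 0 1 : Fin (s + 1) → ℤ) = (0, 1) := by
        refine Prod.ext (funext fun i => ?_) ?_
        · show (Pi.single 0 1 : Fin (s + 1) → ℤ) i.succ = 0
          rw [Pi.single_apply, if_neg (Fin.succ_ne_zero i)]
        · show (Pi.single 0 1 : Fin (s + 1) → ℤ) 0 = 1
          rw [Pi.single_eq_same]
      rw [h2]
      exact h0
    · show l1pr (Pi.single i.succ 1 : Fin (s + 1) → ℤ) ∈ P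
      have h2 : l1pr (Pi.single i.succ 1 : Fin (s + 1) → ℤ) = (Pi.single i 1, 0) := by
        refine Prod.ext (funext fun k => ?_) ?_
        · show (Pi.single i.succ 1 : Fin (s + 1) → ℤ) k.succ = (Pi.single i 1 : Fin s → ℤ) k
          rw [Pi.single_apply, Pi.single_apply]
          simp only [Fin.succ_inj]
        · show (Pi.single i.succ 1 : Fin (s + 1) → ℤ) 0 = 0
          rw [Pi.single_apply, if_neg (Fin.succ_ne_zero i).symm]
      rw [h2]
      exact h1 i
  refine ⟨⟨fun ρ i => t ρ i.succ, fun ρ => t ρ 0, fun ρ i => B ρ i.succ, fun ρ => B ρ 0,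
    fun i => μ i.succ, μ 0⟩, ?_, fun ρ => hB ρ⟩
  refine
    { dual₁ := fun ρ ρ' => ?_
      inv₁ := fun i j => ?_
      inv₂ := fun i => ?_
      inv₃ := fun j => ?_
      inv₄ := ?_
      side := fun j => ?_
      mem₀ := ?_
      mem₁ := fun ρ => ?_
      ge := fun ν hν' ρ => ?_ }
  · have h2 := hd ρ ρ'
    rw [Fin.sum_univ_succ, add_comm] at h2
    exact h2
  · have h2 := hi i.succ j.succ
    simp only [Fin.succ_inj] at h2
    exact h2
  · have h2 := hi i.succ 0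
    rw [if_neg (Fin.succ_ne_zero i)] at h2
    exact h2
  · have h2 := hi 0 j.succ
    rw [if_neg (Fin.succ_ne_zero j).symm] at h2
    exact h2
  · have h2 := hi 0 0
    rw [if_pos rfl] at h2
    exact h2
  · have h3 : ∀ ρ, ∑ i, (Fin.cons (-(v j : ℤ)) (fun i => (e j i : ℤ)) : Fin (s + 1) → ℤ) i *
        (t ρ i : ℤ) = ((∑ i, e j i * t ρ i.succ : ℕ) : ℤ) - ((v j * t ρ 0 : ℕ) : ℤ) := by
      intro ρ
      rw [Fin.sum_univ_succ]
      simp only [Fin.cons_zero, Fin.cons_succ]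
      push_cast
      ring
    rcases hs j with h | h
    · left
      intro ρ
      have h2 := h ρ
      rw [h3 ρ] at h2
      show v j * t ρ 0 ≤ ∑ i, e j i * t ρ i.succ
      omega
    · right
      intro ρ
      have h2 := h ρ
      rw [h3 ρ] at h2
      show ∑ i, e j i * t ρ i.succ ≤ v j * t ρ 0
      omega
  · exact Finset.mem_image_of_mem l1pr hμ
  · obtain ⟨ν, hν1, hν2⟩ := hν ρ
    exact ⟨l1pr ν, Finset.mem_image_of_mem l1pr hν1, fun i => hν2 i.succ, hν2 0⟩
  · obtain ⟨ν₀, hν₀, rfl⟩ := Finset.mem_image.1 hν'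
    obtain ⟨k, hk⟩ := hge ν₀ hν₀
    have h4 : ∑ i, (t ρ i : ℤ) * ((ν₀ i : ℤ) - μ i) = k ρ := by
      simp only [hk, Finset.mul_sum]
      rw [Finset.sum_comm]
      have h5 : ∀ ρ', ∑ i, (t ρ i : ℤ) * ((k ρ' : ℤ) * B ρ' i) =
          (k ρ' : ℤ) * ∑ i, (t ρ i : ℤ) * B ρ' i := by
        intro ρ'
        rw [Finset.mul_sum]
        exact Finset.sum_congr rfl fun i _ => by ring
      simp only [h5, hd, mul_ite, mul_one, mul_zero, Finset.sum_ite_eq, Finset.mem_univ, if_true]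
    have h6 : (0 : ℤ) ≤ ∑ i, (t ρ i : ℤ) * ((ν₀ i : ℤ) - μ i) := by
      rw [h4]
      exact Int.natCast_nonneg _
    rw [Fin.sum_univ_succ] at h6
    have h7 : ∑ i : Fin s, (t ρ i.succ : ℤ) * ((ν₀ i.succ : ℤ) - μ i.succ) =
        ((∑ i : Fin s, t ρ i.succ * ν₀ i.succ : ℕ) : ℤ) -
          ((∑ i : Fin s, t ρ i.succ * μ i.succ : ℕ) : ℤ) := by
      push_cast
      rw [← Finset.sum_sub_distrib]
      exact Finset.sum_congr rfl fun i _ => by ring
    rw [h7] at h6
    show ∑ i : Fin s, t ρ i.succ * μ i.succ + t ρ 0 * μ 0 ≤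
      ∑ i : Fin s, t ρ i.succ * ν₀ i.succ + t ρ 0 * ν₀ 0
    have h8 : (t ρ 0 : ℤ) * ((ν₀ 0 : ℤ) - μ 0) =
        ((t ρ 0 * ν₀ 0 : ℕ) : ℤ) - ((t ρ 0 * μ 0 : ℕ) : ℤ) := by
      push_cast
      ring
    rw [h8] at h6
    omega

end Pool.Agent.Lib.MP_6a3dac_ag.LS
end

section

/-!
# The coordinates of a toric chart at a point
-/

set_option autoImplicit false

namespace Pool.Agent.Lib.MP_6a3dac_ag.LS

open IsLocalRing Pool.Agent.Lib.MP_6a3dac_ag.Tor

/-- the monomials with integral exponents, as a homomorphism -/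
noncomputable def l3a_hom {K C : Type} [Field K] [Fintype C] (G : C → Kˣ) :
    (C → ℤ) →+ Additive Kˣ where
  toFun l := Additive.ofMul (∏ i, G i ^ l i)
  map_zero' := by simp
  map_add' a b := by
    rw [← ofMul_mul]
    congr 1
    simp only [Pi.add_apply, zpow_add, Finset.prod_mul_distrib]

/-- the monomials with integral exponents -/
noncomputable def l3a_chi {K C : Type} [Field K] [Fintype C] (G : C → Kˣ) (l : C → ℤ) : K :=
  ((l3a_hom G l).toMul : Kˣ)

section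

variable {K C S : Type} [Field K] [Fintype C] [Fintype S] (G : C → Kˣ)

theorem l3a_chi_def (l : C → ℤ) : l3a_chi G l = ∏ i, (G i : K) ^ l i := by
  unfold l3a_chi l3a_hom
  simp

theorem l3a_chi_zero : l3a_chi G 0 = 1 := by
  unfold l3a_chi
  rw [map_zero]
  rfl

theorem l3a_chi_add (a b : C → ℤ) : l3a_chi G (a + b) = l3a_chi G a * l3a_chi G b := by
  unfold l3a_chi
  rw [map_add]
  rfl

theorem l3a_chi_neg (a : C → ℤ) : l3a_chi G (-a) = (l3a_chi G a)⁻¹ := by
  unfold l3a_chi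
  rw [map_neg]
  simp

theorem l3a_chi_zsmul (k : ℤ) (a : C → ℤ) : l3a_chi G (k • a) = l3a_chi G a ^ k := by
  unfold l3a_chi
  rw [map_zsmul]
  simp

theorem l3a_chi_ne (a : C → ℤ) : l3a_chi G a ≠ 0 := Units.ne_zero _

theorem l3a_chi_sum (f : S → C → ℤ) : l3a_chi G (∑ ρ, f ρ) = ∏ ρ, l3a_chi G (f ρ) := by
  unfold l3a_chi
  rw [map_sum, toMul_sum, Units.coe_prod]

theorem l3a_chi_comb (B : S → C → ℤ) (n : S → ℤ) :
    l3a_chi G (fun i => ∑ ρ, n ρ * B ρ i) = ∏ ρ, l3a_chi G (B ρ) ^ n ρ := by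
  have h1 : (fun i => ∑ ρ, n ρ * B ρ i : C → ℤ) = ∑ ρ, n ρ • B ρ := by
    funext i
    simp [Finset.sum_apply]
  rw [h1, l3a_chi_sum]
  simp only [l3a_chi_zsmul]

end

/-- The negative of a summand of a nonnegative combination. -/
theorem l3a_neg {M : Type} [AddCommGroup M] {P : Set M} (hP : IsTotal P) {S : Type}
    [Fintype S] [DecidableEq S] (B : S → M) (hB : ∀ ρ, B ρ ∈ P) (k : S → ℕ)
    (h : -(∑ ρ, k ρ • B ρ) ∈ P) (ρ : S) (hk : k ρ ≠ 0) : -B ρ ∈ P := by
  have hn : ∀ (n : ℕ) (x : M), x ∈ P → n • x ∈ P := by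
    intro n x hx
    induction n with
    | zero => simpa using hP.zero
    | succ n ih =>
      rw [succ_nsmul]
      exact hP.add _ ih _ hx
  have hs : ∀ T : Finset S, ∑ ρ' ∈ T, k ρ' • B ρ' ∈ P := by
    intro T
    induction T using Finset.induction_on with
    | empty => simpa using hP.zero
    | insert a T ha ih =>
      rw [Finset.sum_insert ha]
      exact hP.add _ (hn _ _ (hB a)) _ ih
  obtain ⟨j, hj⟩ : ∃ j, k ρ = j + 1 := Nat.exists_eq_succ_of_ne_zero hk
  have h1 : -B ρ = -(∑ ρ', k ρ' • B ρ') + (∑ ρ' ∈ Finset.univ.erase ρ, k ρ' • B ρ' +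
      j • B ρ) := by
    rw [← Finset.add_sum_erase Finset.univ _ (Finset.mem_univ ρ), hj, succ_nsmul]
    abel
  rw [h1]
  exact hP.add _ h _ (hP.add _ (hs _) _ (hn _ _ (hB ρ)))

/-- **The coordinates of a chart at a point.** -/
theorem l3a_core {D : Type} [CommRing D] [IsDomain D] [IsLocalRing D] {C S : Type} [Fintype C]
    [DecidableEq C] [Fintype S] [DecidableEq S] {l : ℕ} (f : Fin l → C → ℤ)
    {𝒢 : Finset (C → ℕ)} (Φ : (S → C → ℕ) → (S → C → ℤ) → (C → ℕ) → Prop)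
    (H : ∀ P : Set (C → ℤ), IsTotal P → (∀ i, (Pi.single i 1 : C → ℤ) ∈ P) →
      ∃ (t : S → C → ℕ) (B : S → C → ℤ) (μ : C → ℕ), Φ t B μ ∧
        (∀ ρ ρ', ∑ i, (t ρ i : ℤ) * B ρ' i = if ρ = ρ' then 1 else 0) ∧
        (∀ i j, ∑ ρ, (t ρ i : ℤ) * B ρ j = if i = j then 1 else 0) ∧
        (∀ ρ, B ρ ∈ P) ∧
        (∀ j, (∀ ρ, 0 ≤ ∑ i, f j i * t ρ i) ∨ ∀ ρ, ∑ i, f j i * t ρ i ≤ 0) ∧
        μ ∈ 𝒢 ∧ (∀ ρ, ∃ ν ∈ 𝒢, ∀ i, (ν i : ℤ) = μ i + B ρ i) ∧
        ∀ ν ∈ 𝒢, ∃ k : S → ℕ, ∀ i, (ν i : ℤ) - μ i = ∑ ρ, k ρ * B ρ i)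
    (x : C → D) (hx : ∀ i, x i ≠ 0) (w u : Fin l → D) (hw : ∀ j, IsUnit (w j))
    (hu : ∀ j, IsUnit (u j)) (Ex Vx : Fin l → C → ℕ)
    (hf : ∀ j i, f j i = (Ex j i : ℤ) - Vx j i)
    (heq : ∀ j, w j * ∏ i, x i ^ Ex j i = u j * ∏ i, x i ^ Vx j i)
    (b : D) (hb0 : b ≠ 0) (hb1 : ∀ ν ∈ 𝒢, b ∣ ∏ i, x i ^ ν i)
    (hb2 : b ∈ Ideal.span {z | ∃ ν ∈ 𝒢, z = ∏ i, x i ^ ν i}) :
    ∃ (t : S → C → ℕ) (B : S → C → ℤ) (μ : C → ℕ) (y : S → D) (ω : D), Φ t B μ ∧
      (∀ ρ ρ', ∑ i, (t ρ i : ℤ) * B ρ' i = if ρ = ρ' then 1 else 0) ∧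
      (∀ i j, ∑ ρ, (t ρ i : ℤ) * B ρ j = if i = j then 1 else 0) ∧
      (∀ j, (∀ ρ, 0 ≤ ∑ i, f j i * t ρ i) ∨ ∀ ρ, ∑ i, f j i * t ρ i ≤ 0) ∧
      (∀ ν ∈ 𝒢, ∃ k : S → ℕ, ∀ i, (ν i : ℤ) - μ i = ∑ ρ, k ρ * B ρ i) ∧
      IsUnit ω ∧ (∀ i, x i = ∏ ρ, y ρ ^ t ρ i) ∧ (∏ i, x i ^ μ i) = b * ω ∧
      ∀ j ρ, ∑ i, f j i * t ρ i ≠ 0 → IsUnit (y ρ) := by
  classical
  obtain ⟨V, hV, hloc⟩ := IsLocalRing.exists_factor_valuationRing (algebraMap D (FractionRing D))
  have hinj : Function.Injective (algebraMap D (FractionRing D)) :=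
    IsFractionRing.injective D (FractionRing D)
  set φ := algebraMap D (FractionRing D) with hφ
  have hVm : ∀ x, φ x ∈ V := hV
  have hVu : ∀ x, (φ x)⁻¹ ∈ V → φ x ≠ 0 → IsUnit x := by
    intro x hx h0
    have h1 : IsUnit ((φ.codRestrict V.toSubring hV) x) := by
      refine IsUnit.of_mul_eq_one (⟨(φ x)⁻¹, hx⟩ : V.toSubring) ?_
      apply Subtype.ext
      exact mul_inv_cancel₀ h0
    exact hloc.map_nonunit x h1
  have hne : ∀ x, x ≠ 0 → φ x ≠ 0 := fun x hx h => hx (hinj (by rw [h, map_zero]))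
  set G : C → (FractionRing D)ˣ := fun i => Units.mk0 (φ (x i)) (hne _ (hx i)) with hG
  have hmono : ∀ m : C → ℕ, l3a_chi G (fun i => (m i : ℤ)) = φ (∏ i, x i ^ m i) := by
    intro m
    rw [l3a_chi_def]
    simp [hG, map_prod, map_pow]
  -- the monomials `f j` are units
  have hfu : ∀ j, l3a_chi G (f j) * φ (w j) = φ (u j) := by
    intro j
    have h1 : l3a_chi G (f j) * l3a_chi G (fun i => (Vx j i : ℤ)) =
        l3a_chi G (fun i => (Ex j i : ℤ)) := by
      rw [← l3a_chi_add]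
      congr 1
      funext i
      rw [Pi.add_apply, hf]
      ring
    rw [hmono, hmono] at h1
    have h3 : φ (w j) * φ (∏ i, x i ^ Ex j i) = φ (u j) * φ (∏ i, x i ^ Vx j i) := by
      rw [← map_mul, heq, map_mul]
    have h4 : φ (∏ i, x i ^ Vx j i) ≠ 0 :=
      hne _ (Finset.prod_ne_zero_iff.2 fun i _ => pow_ne_zero _ (hx i))
    apply mul_right_cancel₀ h4
    rw [← h3, ← h1]
    ring
  have hunit : ∀ {a c : D} {z : FractionRing D}, IsUnit a → z * φ a = φ c → z ∈ V := by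
    intro a c z ha h
    obtain ⟨a', ha'⟩ := ha.exists_right_inv
    have h1 : z = φ (c * a') := by
      have h2 : φ a * φ a' = 1 := by rw [← map_mul, ha', map_one]
      rw [map_mul, ← h, mul_assoc, h2, mul_one]
    rw [h1]
    exact hVm _
  have hfV : ∀ j, l3a_chi G (f j) ∈ V := fun j => hunit (hw j) (hfu j)
  have hfV' : ∀ j, l3a_chi G (-f j) ∈ V := fun j => by
    refine hunit (hu j) ?_ (c := w j)
    rw [l3a_chi_neg, ← hfu j, ← mul_assoc, inv_mul_cancel₀ (l3a_chi_ne G _), one_mul]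
  -- the chart
  have htot : IsTotal {l | l3a_chi G l ∈ V} :=
    { zero := by
        show l3a_chi G 0 ∈ V
        rw [l3a_chi_zero]
        exact one_mem _
      add := by
        intro x hx y hy
        show l3a_chi G (x + y) ∈ V
        rw [l3a_chi_add]
        exact mul_mem hx hy
      total := by
        intro x
        rcases V.mem_or_inv_mem (l3a_chi G x) with h | h
        · exact Or.inl h
        · right
          show l3a_chi G (-x) ∈ V
          rw [l3a_chi_neg]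
          exact h }
  obtain ⟨t, B, μ, hΦ, dual, inv, htB, hsign, hμ, hmem₁, hge⟩ := H {l | l3a_chi G l ∈ V} htot
    (by
      intro i
      show l3a_chi G (Pi.single i 1) ∈ V
      have h1 : l3a_chi G (Pi.single i 1) = φ (x i) := by
        rw [l3a_chi_def, Finset.prod_eq_single i]
        · simp [hG]
        · intro j _ hj
          simp [Pi.single_eq_of_ne hj]
        · simp
      rw [h1]
      exact hVm _)
  have htB' : ∀ ρ, l3a_chi G (B ρ) ∈ V := htB
  -- quotients of monomials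
  have hquot : ∀ (ν : C → ℕ) (n : S → ℤ), (∀ i, (ν i : ℤ) - μ i = ∑ ρ, n ρ * B ρ i) →
      φ (∏ i, x i ^ ν i) = φ (∏ i, x i ^ μ i) * ∏ ρ, l3a_chi G (B ρ) ^ n ρ := by
    intro ν n h1
    rw [← l3a_chi_comb G B n, ← hmono, ← hmono, ← l3a_chi_add]
    congr 1
    funext i
    rw [Pi.add_apply, ← h1 i]
    ring
  obtain ⟨ω, hω⟩ := hb1 _ hμ
  have hmu0 : ∏ i, x i ^ μ i ≠ 0 := Finset.prod_ne_zero_iff.mpr fun i _ => pow_ne_zero _ (hx i)
  have hω0 : ω ≠ 0 := by
    intro h0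
    rw [h0, mul_zero] at hω
    exact hmu0 hω
  have hφμ : φ (∏ i, x i ^ μ i) = φ b * φ ω := by rw [hω, map_mul]
  have hφμ0 : φ (∏ i, x i ^ μ i) ≠ 0 := hne _ hmu0
  have hφb0 : φ b ≠ 0 := hne _ hb0
  have hφω0 : φ ω ≠ 0 := hne _ hω0
  have hωu : IsUnit ω := by
    refine hVu ω ?_ hφω0
    have key : ∀ z ∈ Ideal.span {z | ∃ ν ∈ 𝒢, z = ∏ i, x i ^ ν i},
        φ z * (φ (∏ i, x i ^ μ i))⁻¹ ∈ V := by
      intro z hz
      refine Submodule.span_induction (p := fun z _ =>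
        φ z * (φ (∏ i, x i ^ μ i))⁻¹ ∈ V) ?_ ?_ ?_ ?_ hz
      · rintro _ ⟨ν, hν, rfl⟩
        obtain ⟨k, h1⟩ := hge ν hν
        rw [hquot ν (fun ρ => (k ρ : ℤ)) h1, mul_comm, ← mul_assoc, inv_mul_cancel₀ hφμ0, one_mul]
        refine prod_mem fun ρ _ => ?_
        rw [zpow_natCast]
        exact pow_mem (htB' ρ) _
      · rw [map_zero, zero_mul]; exact zero_mem _
      · intro x y _ _ hx hy
        rw [map_add, add_mul]
        exact add_mem hx hy
      · intro a x _ hx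
        rw [smul_eq_mul, map_mul, mul_assoc]
        exact mul_mem (hVm a) hx
    have h1 := key b hb2
    have h2 : φ b * (φ (∏ i, x i ^ μ i))⁻¹ = (φ ω)⁻¹ := by
      rw [hφμ, mul_inv, ← mul_assoc, mul_inv_cancel₀ hφb0, one_mul]
    rwa [h2] at h1
  obtain ⟨ω', hω'⟩ := hωu.exists_right_inv
  have hφωω' : φ ω * φ ω' = 1 := by rw [← map_mul, hω', map_one]
  have hy : ∀ ρ, ∃ y : D, φ y = l3a_chi G (B ρ) := by
    intro ρ
    obtain ⟨ν, hν, h1⟩ := hmem₁ ρ
    obtain ⟨d, hd⟩ := hb1 ν hν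
    refine ⟨d * ω', ?_⟩
    have h3 := hquot ν (Pi.single ρ 1) (by
      intro i
      rw [h1 i, Finset.sum_eq_single ρ]
      · simp
      · intro j _ hj
        simp [Pi.single_eq_of_ne hj]
      · simp)
    rw [hd, map_mul, Finset.prod_eq_single ρ (fun j _ hj => by simp [Pi.single_eq_of_ne hj])
      (by simp), Pi.single_eq_same, zpow_one, hφμ, mul_assoc] at h3
    have h4 := mul_left_cancel₀ hφb0 h3
    rw [map_mul, h4, mul_comm (φ ω), mul_assoc, hφωω', mul_one]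
  choose y hy using hy
  refine ⟨t, B, μ, y, ω, hΦ, dual, inv, hsign, hge, hωu, fun i => ?_, hω, fun j ρ hjρ => ?_⟩
  · apply hinj
    have h1 := l3a_chi_comb G B (fun ρ => (t ρ i : ℤ))
    have h2 : (fun j => ∑ ρ, (t ρ i : ℤ) * B ρ j : C → ℤ) =
        fun j => ((Pi.single i 1 : C → ℕ) j : ℤ) := by
      funext j
      rw [inv i j]
      by_cases h : i = j
      · subst h; simp
      · rw [if_neg h, Pi.single_eq_of_ne (Ne.symm h)]; simp
    rw [h2, hmono] at h1
    have h3 : ∏ j, x j ^ (Pi.single i 1 : C → ℕ) j = x i := by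
      rw [Finset.prod_eq_single i]
      · simp
      · intro j _ hj
        simp [Pi.single_eq_of_ne hj]
      · simp
    rw [h3] at h1
    rw [h1, map_prod]
    simp only [map_pow, hy, zpow_natCast]
  · -- the coordinates which do not belong to the cone are units
    have hexp : f j = fun i => ∑ ρ, (∑ i', f j i' * t ρ i') * B ρ i := by
      funext i
      simp only [Finset.sum_mul]
      rw [Finset.sum_comm]
      have h1 : ∀ i', ∑ ρ, f j i' * (t ρ i' : ℤ) * B ρ i = f j i' * (if i' = i then 1 else 0) := by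
        intro i'
        rw [← inv i' i, Finset.mul_sum]
        exact Finset.sum_congr rfl fun ρ _ => by ring
      simp only [h1, mul_ite, mul_one, mul_zero, Finset.sum_ite_eq', Finset.mem_univ, if_true]
    have hgen : ∀ (g : C → ℤ) (k : S → ℕ), (∑ ρ, k ρ • B ρ = g) → l3a_chi G (-g) ∈ V → k ρ ≠ 0 →
        l3a_chi G (-B ρ) ∈ V := by
      intro g k hk hg hkρ
      exact l3a_neg htot B htB k (by rw [hk]; exact hg) ρ hkρ
    have hneg : l3a_chi G (-B ρ) ∈ V := by
      rcases hsign j with h1 | h1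
      · refine hgen (f j) (fun ρ => (∑ i', f j i' * t ρ i').toNat) ?_ (hfV' j) ?_
        · conv_rhs => rw [hexp]
          funext i
          rw [Finset.sum_apply]
          refine Finset.sum_congr rfl fun ρ' _ => ?_
          rw [Pi.smul_apply, nsmul_eq_mul, Int.toNat_of_nonneg (h1 ρ')]
        · have h2 := h1 ρ
          omega
      · refine hgen (-f j) (fun ρ => (-∑ i', f j i' * t ρ i').toNat) ?_ ?_ ?_
        · conv_rhs => rw [hexp]
          funext i
          rw [Finset.sum_apply, Pi.neg_apply, ← Finset.sum_neg_distrib]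
          refine Finset.sum_congr rfl fun ρ' _ => ?_
          rw [Pi.smul_apply, nsmul_eq_mul, Int.toNat_of_nonneg (by have := h1 ρ'; omega)]
          ring
        · rw [neg_neg]
          exact hfV j
        · have h2 := h1 ρ
          omega
    refine hVu (y ρ) ?_ ?_
    · rw [hy, ← l3a_chi_neg]
      exact hneg
    · rw [hy]
      exact l3a_chi_ne G _

/-- TASK L3a -/
theorem exists_lchart_elements {D : Type} [CommRing D] [IsDomain D] [IsLocalRing D] {s l : ℕ}
    {e : Fin l → Fin s → ℕ} {v : Fin l → ℕ} {𝒢 : Finset ((Fin s → ℕ) × ℕ)}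
    (h𝒢 : IsLCharts e v 𝒢) (γ : Fin s → D) (hγ : ∀ i, γ i ≠ 0) (p : D) (hp : p ≠ 0)
    (w u : Fin l → D) (hw : ∀ j, IsUnit (w j)) (hu : ∀ j, IsUnit (u j))
    (heq : ∀ j, w j * ∏ i, γ i ^ e j i = u j * p ^ v j)
    (b : D) (hb0 : b ≠ 0) (hb1 : ∀ ν ∈ 𝒢, b ∣ (∏ i, γ i ^ ν.1 i) * p ^ ν.2)
    (hb2 : b ∈ Ideal.span {x | ∃ ν ∈ 𝒢, x = (∏ i, γ i ^ ν.1 i) * p ^ ν.2}) :
    ∃ (t : LChart s) (y : Fin (s + 1) → D) (ω : D), t.IsFor e v 𝒢 ∧ IsUnit ω ∧
      (∀ j, w j * ∏ ρ, y ρ ^ (∑ i, e j i * t.A ρ i - v j * t.β ρ) =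
        u j * ∏ ρ, y ρ ^ (v j * t.β ρ - ∑ i, e j i * t.A ρ i)) ∧
      (∀ i, γ i = ∏ ρ, y ρ ^ t.A ρ i) ∧ p = ∏ ρ, y ρ ^ t.β ρ ∧
      (∏ i, γ i ^ t.μ i) * p ^ t.μ₀ = b * ω := by
  classical
  -- the exponents as functions on `Option (Fin s)`
  obtain ⟨J, hJ⟩ : ∃ J : (Fin s → ℕ) × ℕ → Option (Fin s) → ℕ,
    J = fun ν o => o.elim ν.2 ν.1 := ⟨_, rfl⟩
  have hJ0 : ∀ ν, J ν none = ν.2 := fun ν => by rw [hJ]; rfl
  have hJs : ∀ ν i, J ν (some i) = ν.1 i := fun ν i => by rw [hJ]; rfl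
  obtain ⟨x, hx0, hxs⟩ : ∃ x : Option (Fin s) → D, x none = p ∧ ∀ i, x (some i) = γ i :=
    ⟨fun o => o.elim p γ, rfl, fun _ => rfl⟩
  have hmon : ∀ ν, ∏ o, x o ^ J ν o = (∏ i, γ i ^ ν.1 i) * p ^ ν.2 := by
    intro ν
    rw [Fintype.prod_option, mul_comm]
    simp only [hx0, hxs, hJ0, hJs]
  have hmain := l3a_core (D := D) (C := Option (Fin s)) (S := Fin (s + 1)) (l := l)
    (fun j o => o.elim (-(v j : ℤ)) fun i => (e j i : ℤ)) (𝒢 := 𝒢.image J)
    (fun T _ μ => ∃ t : LChart s, t.IsFor e v 𝒢 ∧ (∀ ρ, T ρ none = t.β ρ) ∧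
      (∀ ρ i, T ρ (some i) = t.A ρ i) ∧ μ = J (t.μ, t.μ₀))
    (by
      intro P hP hP1
      obtain ⟨t, ht, htP⟩ := h𝒢 {z | (fun o => o.elim z.2 z.1 : Option (Fin s) → ℤ) ∈ P}
        { zero := by
            have h1 : (fun o => o.elim ((0 : (Fin s → ℤ) × ℤ).2) ((0 : (Fin s → ℤ) × ℤ).1) :
                Option (Fin s) → ℤ) = 0 := by
              funext o
              cases o <;> rfl
            change _ ∈ P
            rw [h1]
            exact hP.zero
          add := by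
            intro a ha b hb
            have h1 : (fun o => o.elim ((a + b).2) ((a + b).1) : Option (Fin s) → ℤ) =
                (fun o => o.elim a.2 a.1) + fun o => o.elim b.2 b.1 := by
              funext o
              cases o <;> rfl
            change _ ∈ P
            rw [h1]
            exact hP.add _ ha _ hb
          total := by
            intro a
            rcases hP.total (fun o => o.elim a.2 a.1) with h | h
            · exact Or.inl h
            · right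
              have h1 : (fun o => o.elim ((-a).2) ((-a).1) : Option (Fin s) → ℤ) =
                  -fun o => o.elim a.2 a.1 := by
                funext o
                cases o <;> rfl
              change _ ∈ P
              rw [h1]
              exact h }
        (by
          intro i
          have h1 : (fun o => o.elim (((Pi.single i 1, 0) : (Fin s → ℤ) × ℤ).2)
              (((Pi.single i 1, 0) : (Fin s → ℤ) × ℤ).1) : Option (Fin s) → ℤ) =
              Pi.single (some i) 1 := by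
            funext o
            cases o with
            | none => simp
            | some k =>
              by_cases h : k = i
              · subst h
                simp
              · simp [Pi.single_eq_of_ne h, Pi.single_eq_of_ne (fun h2 => h (Option.some.inj h2))]
          change _ ∈ P
          rw [h1]
          exact hP1 _)
        (by
          have h1 : (fun o => o.elim (((0, 1) : (Fin s → ℤ) × ℤ).2)
              (((0, 1) : (Fin s → ℤ) × ℤ).1) : Option (Fin s) → ℤ) = Pi.single none 1 := by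
            funext o
            cases o with
            | none => simp
            | some k => simp
          change _ ∈ P
          rw [h1]
          exact hP1 _)
      refine ⟨fun ρ o => o.elim (t.β ρ) (t.A ρ), fun ρ o => o.elim (t.B₀ ρ) (t.B ρ),
        J (t.μ, t.μ₀), ⟨t, ht, fun _ => rfl, fun _ _ => rfl, rfl⟩, ?_, ?_, fun ρ => htP ρ, ?_,
        Finset.mem_image_of_mem _ ht.mem₀, ?_, ?_⟩
      · intro ρ ρ'
        rw [Fintype.sum_option, ← ht.dual₁ ρ ρ', add_comm]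
        rfl
      · rintro (_ | i) (_ | j)
        · exact ht.inv₄
        · exact ht.inv₃ j
        · exact ht.inv₂ i
        · have h1 := ht.inv₁ i j
          simp only [Option.some.injEq]
          exact h1
      · intro j
        have h1 : ∀ ρ, ∑ o : Option (Fin s), (o.elim (-(v j : ℤ)) fun i => (e j i : ℤ)) *
            ((o.elim (t.β ρ) (t.A ρ) : ℕ) : ℤ) =
            ((∑ i, e j i * t.A ρ i : ℕ) : ℤ) - ((v j * t.β ρ : ℕ) : ℤ) := by
          intro ρ
          rw [Fintype.sum_option]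
          push_cast
          simp only [Option.elim_none, Option.elim_some]
          ring
        simp only [h1]
        refine (ht.side j).imp (fun h2 ρ => ?_) fun h2 ρ => ?_
        · have := h2 ρ
          omega
        · have := h2 ρ
          omega
      · intro ρ
        obtain ⟨ν, hν, h1, h2⟩ := ht.mem₁ ρ
        refine ⟨J ν, Finset.mem_image_of_mem _ hν, ?_⟩
        rintro (_ | i)
        · rw [hJ0, hJ0]
          exact h2
        · rw [hJs, hJs]
          exact h1 i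
      · intro ν' hν'
        obtain ⟨ν, hν, rfl⟩ := Finset.mem_image.1 hν'
        refine ⟨fun ρ => (∑ i, t.A ρ i * ν.1 i + t.β ρ * ν.2) -
          (∑ i, t.A ρ i * t.μ i + t.β ρ * t.μ₀), ?_⟩
        have h1 : ∀ ρ, (((∑ i, t.A ρ i * ν.1 i + t.β ρ * ν.2) -
            (∑ i, t.A ρ i * t.μ i + t.β ρ * t.μ₀) : ℕ) : ℤ) =
            ∑ i, (t.A ρ i : ℤ) * ((ν.1 i : ℤ) - t.μ i) + t.β ρ * ((ν.2 : ℤ) - t.μ₀) := by
          intro ρ
          rw [Nat.cast_sub (ht.ge ν hν ρ)]
          push_cast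
          simp only [mul_sub, Finset.sum_sub_distrib]
          ring
        have h2 : ∀ (c : Fin (s + 1) → ℤ), ∑ ρ, (∑ i, (t.A ρ i : ℤ) * ((ν.1 i : ℤ) - t.μ i) +
            t.β ρ * ((ν.2 : ℤ) - t.μ₀)) * c ρ =
            ∑ i, (∑ ρ, (t.A ρ i : ℤ) * c ρ) * ((ν.1 i : ℤ) - t.μ i) +
              (∑ ρ, (t.β ρ : ℤ) * c ρ) * ((ν.2 : ℤ) - t.μ₀) := by
          intro c
          simp only [add_mul, Finset.sum_add_distrib, Finset.sum_mul]
          rw [Finset.sum_comm]
          congr 1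
          · exact Finset.sum_congr rfl fun _ _ => Finset.sum_congr rfl fun _ _ => by ring
          · exact Finset.sum_congr rfl fun _ _ => by ring
        rintro (_ | i)
        · rw [hJ0, hJ0]
          simp only [h1, Option.elim_none]
          rw [h2]
          simp only [ht.inv₂, ht.inv₄]
          simp
        · rw [hJs, hJs]
          simp only [h1, Option.elim_some]
          rw [h2]
          simp only [ht.inv₁, ht.inv₃]
          simp)
    x
    (by
      rintro (_ | i)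
      · rw [hx0]
        exact hp
      · rw [hxs]
        exact hγ i)
    w u hw hu (fun j o => o.elim 0 (e j)) (fun j o => o.elim (v j) fun _ => 0)
    (by
      rintro j (_ | i)
      · simp
      · simp)
    (by
      intro j
      rw [Fintype.prod_option, Fintype.prod_option]
      simp only [Option.elim_none, Option.elim_some, pow_zero, Finset.prod_const_one, one_mul,
        mul_one, hx0, hxs]
      exact heq j)
    b hb0
    (by
      intro ν' hν'
      obtain ⟨ν, hν, rfl⟩ := Finset.mem_image.1 hν'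
      rw [hmon]
      exact hb1 ν hν)
    (by
      refine Ideal.span_mono ?_ hb2
      rintro z ⟨ν, hν, rfl⟩
      exact ⟨J ν, Finset.mem_image_of_mem _ hν, (hmon ν).symm⟩)
  obtain ⟨T, B, μ, y, ω, ⟨t, ht, hT0, hTs, hμ⟩, -, -, -, -, hω, hxy, hmu, -⟩ := hmain
  have hγy : ∀ i, γ i = ∏ ρ, y ρ ^ t.A ρ i := by
    intro i
    rw [← hxs, hxy]
    simp only [hTs]
  have hpy : p = ∏ ρ, y ρ ^ t.β ρ := by
    rw [← hx0, hxy]
    simp only [hT0]
  refine ⟨t, y, ω, ht, hω, fun j => ?_, hγy, hpy, ?_⟩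
  · -- the equation of the units
    have h1 : w j * ∏ ρ, y ρ ^ (∑ i, e j i * t.A ρ i) = u j * ∏ ρ, y ρ ^ (v j * t.β ρ) := by
      have h2 := heq j
      have h3 : ∏ i, γ i ^ e j i = ∏ ρ, y ρ ^ (∑ i, e j i * t.A ρ i) := by
        have h4 : ∀ i, γ i ^ e j i = ∏ ρ, y ρ ^ (e j i * t.A ρ i) := by
          intro i
          rw [hγy, ← Finset.prod_pow]
          exact Finset.prod_congr rfl fun ρ _ => by rw [← pow_mul, mul_comm]
        simp only [h4]
        rw [Finset.prod_comm]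
        simp only [Finset.prod_pow_eq_pow_sum]
      have h5 : p ^ v j = ∏ ρ, y ρ ^ (v j * t.β ρ) := by
        rw [hpy, ← Finset.prod_pow]
        exact Finset.prod_congr rfl fun ρ _ => by rw [← pow_mul, mul_comm]
      rw [← h3, ← h5]
      exact h2
    have hy0 : ∀ ρ, y ρ ^ (min (∑ i, e j i * t.A ρ i) (v j * t.β ρ)) ≠ 0 := by
      intro ρ
      refine pow_ne_zero _ fun h3 => ?_
      have h4 : ∀ i, t.A ρ i = 0 := by
        intro i
        by_contra h5
        refine hγ i ?_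
        rw [hγy]
        exact Finset.prod_eq_zero (Finset.mem_univ ρ) (by rw [h3, zero_pow h5])
      have h5 : t.β ρ = 0 := by
        by_contra h5
        refine hp ?_
        rw [hpy]
        exact Finset.prod_eq_zero (Finset.mem_univ ρ) (by rw [h3, zero_pow h5])
      have h6 := ht.dual₁ ρ ρ
      simp [h4, h5] at h6
    have hsplit1 : ∏ ρ, y ρ ^ (∑ i, e j i * t.A ρ i) =
        (∏ ρ, y ρ ^ (min (∑ i, e j i * t.A ρ i) (v j * t.β ρ))) *
          ∏ ρ, y ρ ^ (∑ i, e j i * t.A ρ i - v j * t.β ρ) := by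
      rw [← Finset.prod_mul_distrib]
      refine Finset.prod_congr rfl fun ρ _ => ?_
      rw [← pow_add]
      congr 1
      omega
    have hsplit2 : ∏ ρ, y ρ ^ (v j * t.β ρ) =
        (∏ ρ, y ρ ^ (min (∑ i, e j i * t.A ρ i) (v j * t.β ρ))) *
          ∏ ρ, y ρ ^ (v j * t.β ρ - ∑ i, e j i * t.A ρ i) := by
      rw [← Finset.prod_mul_distrib]
      refine Finset.prod_congr rfl fun ρ _ => ?_
      rw [← pow_add]
      congr 1
      omega
    rw [hsplit1, hsplit2] at h1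
    apply mul_left_cancel₀ (Finset.prod_ne_zero_iff.2 fun ρ _ => hy0 ρ)
    linear_combination h1
  · rw [← hmu, hμ, hmon]

end Pool.Agent.Lib.MP_6a3dac_ag.LS
end
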