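import Pool.Agent.Lib.MP_6a3dac_ag.Mg.G058
import Pool.Agent.Lib.MP_6a3dac_ag.Mg.G007
import Pool.Agent.Lib.MP_6a3dac_ag.Mg.G024
import Pool.Agent.Lib.MP_6a3dac_ag.Mg.G013

section

/-!
# The independence of the differentials in terms of minors
-/

set_option autoImplicit false

namespace Pool.Agent.Lib.MP_6a3dac_ag.LS

open MvPolynomial
open Pool.Agent.Lib.MP_6a3dac_ag.DNF Pool.Agent.Lib.MP_6a3dac_ag.Bert

section General

variable {A : Type} [CommRing A] {τ υ : Type} [Fintype τ] [DecidableEq τ] [Fintype υ]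
  [DecidableEq υ]

/-- TASK LA1 -/
theorem exists_minor_notMem {𝔮 : Ideal A} (hq : 𝔮.IsPrime) (M : Matrix τ υ A)
    (h : ∀ y : τ → A, (∀ k, ∑ i, y i * M i k ∈ 𝔮) → ∀ i, y i ∈ 𝔮) :
    ∃ κ : τ → υ, (M.submatrix id κ).det ∉ 𝔮 := by
  let f : A →+* FractionRing (A ⧸ 𝔮) :=
    (algebraMap (A ⧸ 𝔮) (FractionRing (A ⧸ 𝔮))).comp (Ideal.Quotient.mk 𝔮)
  have hf : ∀ a, f a = 0 ↔ a ∈ 𝔮 := by
    intro a
    rw [← Ideal.Quotient.eq_zero_iff_mem]
    exact map_eq_zero_iff _ (IsFractionRing.injective (A ⧸ 𝔮) (FractionRing (A ⧸ 𝔮)))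
  obtain ⟨κ, hκ⟩ := Sys.exists_minor_ne_zero (M.map f) (by
    intro y hy
    obtain ⟨b, hb⟩ := IsLocalization.exist_integer_multiples_of_finite
      (nonZeroDivisors (A ⧸ 𝔮)) y
    choose z hz using hb
    choose x hx using fun i => Ideal.Quotient.mk_surjective (z i)
    have hfx : ∀ i, f (x i) = algebraMap (A ⧸ 𝔮) (FractionRing (A ⧸ 𝔮)) b * y i := by
      intro i
      show algebraMap (A ⧸ 𝔮) (FractionRing (A ⧸ 𝔮)) (Ideal.Quotient.mk 𝔮 (x i)) = _
      rw [hx, hz, Algebra.smul_def]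
    have h1 : ∀ k, ∑ i, x i * M i k ∈ 𝔮 := by
      intro k
      rw [← hf, map_sum]
      have h2 := congrFun hy k
      simp only [Matrix.vecMul, dotProduct, Matrix.map_apply, Pi.zero_apply] at h2
      calc ∑ i, f (x i * M i k)
          = algebraMap (A ⧸ 𝔮) (FractionRing (A ⧸ 𝔮)) b * ∑ i, y i * f (M i k) := by
            rw [Finset.mul_sum]
            refine Finset.sum_congr rfl fun i _ => ?_
            rw [map_mul, hfx]
            ring
        _ = 0 := by rw [h2, mul_zero]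
    have hb0 : algebraMap (A ⧸ 𝔮) (FractionRing (A ⧸ 𝔮)) b ≠ 0 := by
      intro h3
      exact nonZeroDivisors.coe_ne_zero b
        ((map_eq_zero_iff _ (IsFractionRing.injective (A ⧸ 𝔮) (FractionRing (A ⧸ 𝔮)))).1 h3)
    funext i
    have h4 := (hf _).2 (h x h1 i)
    rw [hfx] at h4
    exact (mul_eq_zero.1 h4).resolve_left hb0)
  refine ⟨κ, fun hmem => hκ ?_⟩
  rw [← hf, RingHom.map_det] at hmem
  exact hmem

/-- TASK LA2 -/
theorem mem_of_minor {N : Ideal A} (hN : N.IsPrime) (M : Matrix τ υ A) (κ : τ → υ)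
    (hκ : (M.submatrix id κ).det ∉ N) (y : τ → A) (hy : ∀ k, ∑ i, y i * M i k ∈ N) :
    ∀ i, y i ∈ N := by
  intro i
  have h1 : Matrix.vecMul (Matrix.vecMul y (M.submatrix id κ)) (M.submatrix id κ).adjugate =
      (M.submatrix id κ).det • y := by
    rw [Matrix.vecMul_vecMul, Matrix.mul_adjugate, Matrix.vecMul_smul, Matrix.vecMul_one]
  have h2 := congrFun h1 i
  have h3 : (M.submatrix id κ).det * y i ∈ N := by
    rw [show (M.submatrix id κ).det * y i = ((M.submatrix id κ).det • y) i from rfl, ← h2]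
    simp only [Matrix.vecMul, dotProduct]
    refine Ideal.sum_mem _ fun k _ => Ideal.mul_mem_right _ _ ?_
    exact hy (κ k)
  exact (hN.mem_or_mem h3).resolve_left hκ

end General

variable {R σ : Type} [CommRing R] [DecidableEq σ] [Fintype σ] {l s : ℕ} {U : Std R σ}
  {e : Fin l → Fin s → ℕ} {w u : Fin l → MvPolynomial σ R} {g : Fin s → MvPolynomial σ R}
  {𝔮 : Ideal (MvPolynomial σ R)}

theorem la_col_inl (y : Fin l ⊕ Fin s → MvPolynomial σ R) (i : Fin s) :
    ∑ k, y k * logMat U e w u g k (Sum.inl i) =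
      ∑ j, y (Sum.inl j) * (w j * u j * (e j i : MvPolynomial σ R)) - y (Sum.inr i) * g i := by
  rw [Fintype.sum_sum_type, sub_eq_add_neg]
  congr 1
  simp only [logMat, Matrix.of_apply, Sum.elim_inr, Sum.elim_inl, mul_ite, mul_zero,
    Finset.sum_ite_eq', Finset.mem_univ, if_true, mul_neg]

theorem la_col_inr (y : Fin l ⊕ Fin s → MvPolynomial σ R) (t : U.T) :
    ∑ k, y k * logMat U e w u g k (Sum.inr t) =
      ∑ j, y (Sum.inl j) * (u j * U.vf t.1 (w j) - w j * U.vf t.1 (u j)) +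
        ∑ i, y (Sum.inr i) * U.vf t.1 (g i) := by
  rw [Fintype.sum_sum_type]
  rfl

/-- TASK LA3 -/
theorem LogInd.exists_minor (hq : 𝔮.IsPrime) (h : LogInd U e w u g 𝔮) :
    ∃ κ : Fin l ⊕ Fin s → Fin s ⊕ U.T, ((logMat U e w u g).submatrix id κ).det ∉ 𝔮 := by
  apply exists_minor_notMem hq
  intro y hy
  obtain ⟨h1, h2⟩ := h (fun j => y (Sum.inl j)) (fun i => y (Sum.inr i))
    (fun i => by
      have := hy (Sum.inl i)
      rwa [la_col_inl] at this)
    (fun t ht => by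
      have := hy (Sum.inr ⟨t, ht⟩)
      rwa [la_col_inr] at this)
  rintro (j | i)
  · exact h1 j
  · exact h2 i

/-- TASK LA4 -/
theorem logInd_of_minor (hq : 𝔮.IsPrime) (κ : Fin l ⊕ Fin s → Fin s ⊕ U.T)
    (h : ((logMat U e w u g).submatrix id κ).det ∉ 𝔮) : LogInd U e w u g 𝔮 := by
  intro b c h1 h2
  have h3 := mem_of_minor hq (logMat U e w u g) κ h (Sum.elim b c) (by
    rintro (i | t)
    · rw [la_col_inl]
      exact h1 i
    · rw [la_col_inr]
      exact h2 t.1 t.2)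
  exact ⟨fun j => h3 (Sum.inl j), fun i => h3 (Sum.inr i)⟩

end Pool.Agent.Lib.MP_6a3dac_ag.LS
end

section

/-!
# The independence of the equations of a toric chart
-/

set_option autoImplicit false

namespace Pool.Agent.Lib.MP_6a3dac_ag.LS

open MvPolynomial IsLocalRing
open Pool.Agent.Lib.MP_6a3dac_ag.DNF Pool.Agent.Lib.MP_6a3dac_ag.Bert
open Pool.Agent.Lib.MP_6a3dac_ag.Fam Pool.Agent.Lib.MP_6a3dac_ag.Tor

section Core

variable {R B : Type} [CommRing R] [CommRing B] [Algebra R B] {s l : ℕ}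

/-- The equations of a chart are independent: general form. -/
theorem l3b_core {S : Type} [Fintype S] [DecidableEq S] (A : S → Fin s → ℕ) (β : S → ℕ)
    (Bm : S → Fin s → ℤ)
    (inv₁ : ∀ i j, ∑ ρ, (A ρ i : ℤ) * Bm ρ j = if i = j then 1 else 0)
    (inv₃ : ∀ j, ∑ ρ, (β ρ : ℤ) * Bm ρ j = 0)
    (e : Fin l → Fin s → ℕ) (v : Fin l → ℕ) (p n : Fin l → S → ℕ)
    (hpn : ∀ j ρ, (p j ρ : ℤ) - n j ρ = ∑ i, (e j i : ℤ) * A ρ i - v j * β ρ)
    (hsign : ∀ j, (∀ ρ, n j ρ = 0) ∨ ∀ ρ, p j ρ = 0)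
    {N : Ideal B} (hN : N.IsPrime) (g : Fin s → B) (Y : S → B) (ϖ : B) (w u : Fin l → B)
    (hu : ∀ j, u j ∉ N) (hϖ : ϖ ∈ N) (hsq : ∀ a, a * ϖ ∈ N ^ 2 → a ∈ N)
    (hr : ∀ i, g i - ∏ ρ, Y ρ ^ A ρ i ∈ N) (hr₀ : ϖ - ∏ ρ, Y ρ ^ β ρ ∈ N)
    (hr₁ : ∀ j, w j * ∏ ρ, Y ρ ^ p j ρ - u j * ∏ ρ, Y ρ ^ n j ρ ∈ N)
    -- the derivations with respect to the new variables
    (d : S → Derivation R B B) (dY : ∀ ρ ρ', d ρ (Y ρ') = if ρ' = ρ then 1 else 0)
    (dg : ∀ ρ i, d ρ (g i) = 0) (dϖ : ∀ ρ, d ρ ϖ = 0) (dw : ∀ ρ j, d ρ (w j) = 0)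
    (du : ∀ ρ j, d ρ (u j) = 0)
    -- the other derivations
    {K : Type} (D : K → Derivation R B B) (DY : ∀ k ρ, D k (Y ρ) = 0) (Dϖ : ∀ k, D k ϖ = 0)
    (hLI : ∀ (x : Fin s → B) (y : Fin l → B),
      (∀ k, ∑ i, x i * D k (g i) + ∑ j, y j * (u j * D k (w j) - w j * D k (u j)) ∈ N) →
      (∀ i, x i * g i - ∑ j, y j * (e j i * (u j * w j)) ∈ N) → (∀ i, x i ∈ N) ∧ ∀ j, y j ∈ N)
    -- the further equations
    {τ : Type} [Fintype τ] [DecidableEq τ] (G : τ → B) (hG : ∀ κ, G κ ∈ N)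
    (dG : ∀ ρ κ, d ρ (G κ) = 0) (DG : ∀ k κ, D k (G κ) = 0)
    (D' : τ → Derivation R B B) (DY' : ∀ l ρ, D' l (Y ρ) = 0) (Dϖ' : ∀ l, D' l ϖ = 0)
    (hD' : (Matrix.of fun l κ : τ => D' l (G κ)).det ∉ N)
    (b : τ → B) (a : Fin s → B) (a₀ : B) (c : Fin l → B)
    (h : ∑ κ, b κ * G κ + (∑ i, a i * (g i - ∏ ρ, Y ρ ^ A ρ i) +
      (a₀ * (ϖ - ∏ ρ, Y ρ ^ β ρ) +
        ∑ j, c j * (w j * ∏ ρ, Y ρ ^ p j ρ - u j * ∏ ρ, Y ρ ^ n j ρ))) ∈ N ^ 2) :
    (∀ κ, b κ ∈ N) ∧ (∀ i, a i ∈ N) ∧ a₀ ∈ N ∧ ∀ j, c j ∈ N := by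
  classical
  obtain ⟨M, hM⟩ : ∃ M : Fin s → B, ∀ i, M i = ∏ ρ, Y ρ ^ A ρ i := ⟨_, fun _ => rfl⟩
  obtain ⟨M₀, hM₀⟩ : ∃ M₀ : B, M₀ = ∏ ρ, Y ρ ^ β ρ := ⟨_, rfl⟩
  obtain ⟨Mp, hMp⟩ : ∃ Mp : Fin l → B, ∀ j, Mp j = ∏ ρ, Y ρ ^ p j ρ := ⟨_, fun _ => rfl⟩
  obtain ⟨Mn, hMn⟩ : ∃ Mn : Fin l → B, ∀ j, Mn j = ∏ ρ, Y ρ ^ n j ρ := ⟨_, fun _ => rfl⟩
  simp only [← hM, ← hM₀, ← hMp, ← hMn] at hr hr₀ hr₁ h
  have hM₀N : M₀ ∈ N := by
    have h3 := N.sub_mem hϖ hr₀
    rwa [sub_sub_cancel] at h3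
  have hMpN : ∀ j, Mp j ∉ N := by
    intro j hj
    rcases hsign j with h1 | h1
    · have h2 : Mn j = 1 := by
        rw [hMn]
        exact Finset.prod_eq_one fun ρ _ => by rw [h1, pow_zero]
      have h3 := N.sub_mem (N.mul_mem_left (w j) hj) (hr₁ j)
      rw [sub_sub_cancel, h2, mul_one] at h3
      exact hu j h3
    · have h2 : Mp j = 1 := by
        rw [hMp]
        exact Finset.prod_eq_one fun ρ _ => by rw [h1, pow_zero]
      rw [h2] at hj
      exact hN.ne_top ((Ideal.eq_top_iff_one _).2 hj)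
  -- a derivation applied to the relation
  have key : ∀ δ : Derivation R B B,
      ∑ κ, b κ * δ (G κ) + (∑ i, a i * δ (g i - M i) +
        (a₀ * δ (ϖ - M₀) + ∑ j, c j * δ (w j * Mp j - u j * Mn j))) ∈ N := by
    intro δ
    have h1 := t3b_mem δ h
    have h2 : δ (∑ κ, b κ * G κ + (∑ i, a i * (g i - M i) +
        (a₀ * (ϖ - M₀) + ∑ j, c j * (w j * Mp j - u j * Mn j)))) =
        (∑ κ, b κ * δ (G κ) + (∑ i, a i * δ (g i - M i) +
        (a₀ * δ (ϖ - M₀) + ∑ j, c j * δ (w j * Mp j - u j * Mn j)))) +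
        (∑ κ, G κ * δ (b κ) + (∑ i, (g i - M i) * δ (a i) +
        ((ϖ - M₀) * δ a₀ + ∑ j, (w j * Mp j - u j * Mn j) * δ (c j)))) := by
      rw [map_add, map_add, map_add, map_sum, map_sum, map_sum, Derivation.leibniz δ a₀,
        smul_eq_mul, smul_eq_mul]
      simp only [fun κ => Derivation.leibniz δ (b κ) (G κ),
        fun i => Derivation.leibniz δ (a i) (g i - M i),
        fun j => Derivation.leibniz δ (c j) (w j * Mp j - u j * Mn j), smul_eq_mul,
        Finset.sum_add_distrib]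
      ring
    rw [h2] at h1
    refine (Ideal.add_mem_iff_left _ ?_).1 h1
    exact N.add_mem (Ideal.sum_mem _ fun κ _ => Ideal.mul_mem_right _ _ (hG κ))
      (N.add_mem (Ideal.sum_mem _ fun i _ => Ideal.mul_mem_right _ _ (hr i))
        (N.add_mem (Ideal.mul_mem_right _ _ hr₀)
          (Ideal.sum_mem _ fun j _ => Ideal.mul_mem_right _ _ (hr₁ j))))
  -- the logarithmic derivatives with respect to the new variables
  have hA : ∀ ρ, ∑ j, c j * (w j * Mp j) * ((p j ρ : B) - n j ρ) -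
      ∑ i, a i * g i * (A ρ i : B) ∈ N := by
    intro ρ
    have h2 := N.mul_mem_left (Y ρ) (key (d ρ))
    have h3 : ∀ i, Y ρ * d ρ (g i - M i) = -(M i * (A ρ i : B)) := by
      intro i
      rw [map_sub, dg, zero_sub]
      have h4 := t3b_mono (d ρ) Y (fun ρ' => A ρ' i) ρ (dY ρ)
      rw [← hM] at h4
      linear_combination -h4
    have h5 : Y ρ * d ρ (ϖ - M₀) = -((β ρ : B) * M₀) := by
      rw [map_sub, dϖ, zero_sub]
      have h4 := t3b_mono (d ρ) Y β ρ (dY ρ)
      rw [← hM₀] at h4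
      linear_combination -h4
    have h5' : ∀ j, Y ρ * d ρ (w j * Mp j - u j * Mn j) =
        w j * Mp j * (p j ρ : B) - u j * Mn j * (n j ρ : B) := by
      intro j
      rw [map_sub, Derivation.leibniz, Derivation.leibniz, dw, du]
      simp only [smul_eq_mul, mul_zero, add_zero]
      have h4 := t3b_mono (d ρ) Y (p j) ρ (dY ρ)
      have h4' := t3b_mono (d ρ) Y (n j) ρ (dY ρ)
      rw [← hMp] at h4
      rw [← hMn] at h4'
      linear_combination w j * h4 - u j * h4'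
    have h6 : Y ρ * (∑ κ, b κ * d ρ (G κ) + (∑ i, a i * d ρ (g i - M i) +
        (a₀ * d ρ (ϖ - M₀) + ∑ j, c j * d ρ (w j * Mp j - u j * Mn j)))) =
        ∑ j, c j * (w j * Mp j) * ((p j ρ : B) - n j ρ) - ∑ i, a i * g i * (A ρ i : B) +
        (∑ j, (w j * Mp j - u j * Mn j) * (c j * (n j ρ : B)) +
          ∑ i, (g i - M i) * (a i * (A ρ i : B)) + M₀ * (-(a₀ * (β ρ : B)))) := by
      have h7 : ∑ κ, b κ * d ρ (G κ) = 0 := Finset.sum_eq_zero fun κ _ => by rw [dG, mul_zero]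
      rw [h7, zero_add, mul_add, mul_add, Finset.mul_sum, Finset.mul_sum]
      have h8 : ∀ i, Y ρ * (a i * d ρ (g i - M i)) =
          (g i - M i) * (a i * (A ρ i : B)) - a i * g i * (A ρ i : B) := fun i => by
        linear_combination a i * h3 i
      have h9 : ∀ j, Y ρ * (c j * d ρ (w j * Mp j - u j * Mn j)) =
          c j * (w j * Mp j) * ((p j ρ : B) - n j ρ) +
            (w j * Mp j - u j * Mn j) * (c j * (n j ρ : B)) := fun j => by
        linear_combination c j * h5' j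
      simp only [h8, h9, Finset.sum_add_distrib, Finset.sum_sub_distrib]
      linear_combination a₀ * h5
    rw [h6] at h2
    refine (Ideal.add_mem_iff_left _ ?_).1 h2
    exact N.add_mem (N.add_mem (Ideal.sum_mem _ fun j _ => N.mul_mem_right _ (hr₁ j))
      (Ideal.sum_mem _ fun i _ => N.mul_mem_right _ (hr i))) (N.mul_mem_right _ hM₀N)
  -- the matrix of the chart is invertible
  have hE : ∀ i, ∑ j, c j * (w j * Mp j) * (e j i : B) - a i * g i ∈ N := by
    intro i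
    have h1 : ∑ j, c j * (w j * Mp j) * (e j i : B) - a i * g i =
        ∑ ρ, ((Bm ρ i : ℤ) : B) * (∑ j, c j * (w j * Mp j) * ((p j ρ : B) - n j ρ) -
          ∑ i, a i * g i * (A ρ i : B)) := by
      have h2 : ∀ i' i, ∑ ρ, (A ρ i' : B) * ((Bm ρ i : ℤ) : B) = if i' = i then 1 else 0 := by
        intro i' i
        have h5 := congrArg (Int.cast : ℤ → B) (inv₁ i' i)
        push_cast at h5
        rw [h5]
      have h3 : ∑ ρ, (β ρ : B) * ((Bm ρ i : ℤ) : B) = 0 := by
        have h5 := congrArg (Int.cast : ℤ → B) (inv₃ i)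
        push_cast at h5
        rw [h5]
      have h4 : ∀ j ρ, (p j ρ : B) - n j ρ = ∑ i', (e j i' : B) * A ρ i' - v j * β ρ := by
        intro j ρ
        have h5 := congrArg (Int.cast : ℤ → B) (hpn j ρ)
        push_cast at h5
        rw [h5]
      have h6 : ∀ j, ∑ ρ, ((Bm ρ i : ℤ) : B) * ((p j ρ : B) - n j ρ) = (e j i : B) := by
        intro j
        simp only [h4, mul_sub, Finset.sum_sub_distrib, Finset.mul_sum]
        rw [Finset.sum_comm]
        have h7 : ∀ i', ∑ ρ, ((Bm ρ i : ℤ) : B) * ((e j i' : B) * (A ρ i' : B)) =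
            (e j i' : B) * (if i' = i then 1 else 0) := by
          intro i'
          rw [← h2, Finset.mul_sum]
          exact Finset.sum_congr rfl fun ρ _ => by ring
        have h8 : ∑ ρ, ((Bm ρ i : ℤ) : B) * ((v j : B) * (β ρ : B)) = 0 := by
          rw [← mul_zero (v j : B), ← h3, Finset.mul_sum]
          exact Finset.sum_congr rfl fun ρ _ => by ring
        simp only [h7, h8, sub_zero, mul_ite, mul_one, mul_zero, Finset.sum_ite_eq',
          Finset.mem_univ, if_true]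
      have h9 : ∑ ρ, ((Bm ρ i : ℤ) : B) * ∑ j, c j * (w j * Mp j) * ((p j ρ : B) - n j ρ) =
          ∑ j, c j * (w j * Mp j) * (e j i : B) := by
        simp only [Finset.mul_sum]
        rw [Finset.sum_comm]
        refine Finset.sum_congr rfl fun j _ => ?_
        rw [← h6 j, Finset.mul_sum]
        exact Finset.sum_congr rfl fun ρ _ => by ring
      have h10 : ∑ ρ, ((Bm ρ i : ℤ) : B) * ∑ i', a i' * g i' * (A ρ i' : B) = a i * g i := by
        simp only [Finset.mul_sum]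
        rw [Finset.sum_comm]
        have h11 : ∀ i', ∑ ρ, ((Bm ρ i : ℤ) : B) * (a i' * g i' * (A ρ i' : B)) =
            a i' * g i' * (if i' = i then 1 else 0) := by
          intro i'
          rw [← h2, Finset.mul_sum]
          exact Finset.sum_congr rfl fun ρ _ => by ring
        simp only [h11, mul_ite, mul_one, mul_zero, Finset.sum_ite_eq', Finset.mem_univ, if_true]
      simp only [mul_sub, Finset.sum_sub_distrib] at h9 h10 ⊢
      rw [h9, h10]
    rw [h1]
    exact Ideal.sum_mem _ fun ρ _ => N.mul_mem_left _ (hA ρ)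
  -- the coefficients of the equations for the `g i` and for the units
  obtain ⟨Pu, hPu⟩ : ∃ Pu : B, Pu = ∏ j, u j := ⟨_, rfl⟩
  obtain ⟨Pj, hPj⟩ : ∃ Pj : Fin l → B, ∀ j, Pj j = ∏ j' ∈ Finset.univ.erase j, u j' :=
    ⟨_, fun _ => rfl⟩
  have hPum : ∀ j, Pu = u j * Pj j := by
    intro j
    rw [hPu, hPj, Finset.mul_prod_erase Finset.univ _ (Finset.mem_univ j)]
  have hPuN : Pu ∉ N := by
    intro h1
    rw [hPu] at h1
    obtain ⟨j, -, hj⟩ := (hN.prod_mem_iff).1 h1
    exact hu j hj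
  have hPjN : ∀ j, Pj j ∉ N := fun j h1 => hPuN (by rw [hPum j]; exact N.mul_mem_left _ h1)
  have hDM : ∀ k i, D k (M i) = 0 := fun k i => by
    rw [hM]
    exact t3b_mono_zero _ _ _ _ fun ρ _ => DY k ρ
  have hDM₀ : ∀ k, D k M₀ = 0 := fun k => by
    rw [hM₀]
    exact t3b_mono_zero _ _ _ _ fun ρ _ => DY k ρ
  have hDMp : ∀ k j, D k (Mp j) = 0 := fun k j => by
    rw [hMp]
    exact t3b_mono_zero _ _ _ _ fun ρ _ => DY k ρ
  have hDMn : ∀ k j, D k (Mn j) = 0 := fun k j => by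
    rw [hMn]
    exact t3b_mono_zero _ _ _ _ fun ρ _ => DY k ρ
  obtain ⟨hx, hy⟩ := hLI (fun i => Pu * a i) (fun j => Pj j * (c j * Mp j))
    (by
      intro k
      have h1 := N.mul_mem_left Pu (key (D k))
      have h2 : ∑ κ, b κ * D k (G κ) = 0 := Finset.sum_eq_zero fun κ _ => by rw [DG, mul_zero]
      have h3 : D k (ϖ - M₀) = 0 := by rw [map_sub, Dϖ, hDM₀, sub_zero]
      have h4 : ∀ i, D k (g i - M i) = D k (g i) := fun i => by
        rw [map_sub, hDM, sub_zero]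
      have h5 : ∀ j, D k (w j * Mp j - u j * Mn j) = Mp j * D k (w j) - Mn j * D k (u j) := by
        intro j
        rw [map_sub, Derivation.leibniz, Derivation.leibniz, hDMp, hDMn]
        simp only [smul_eq_mul, mul_zero, zero_add]
      rw [h2, h3, zero_add, mul_zero, zero_add] at h1
      simp only [h4, h5] at h1
      have h6 : ∑ i, Pu * a i * D k (g i) +
          ∑ j, Pj j * (c j * Mp j) * (u j * D k (w j) - w j * D k (u j)) =
          Pu * (∑ i, a i * D k (g i) + ∑ j, c j * (Mp j * D k (w j) - Mn j * D k (u j))) -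
            ∑ j, (w j * Mp j - u j * Mn j) * (Pj j * c j * D k (u j)) := by
        rw [mul_add, Finset.mul_sum, Finset.mul_sum, add_sub_assoc, ← Finset.sum_sub_distrib]
        congr 1
        · exact Finset.sum_congr rfl fun i _ => by ring
        · refine Finset.sum_congr rfl fun j _ => ?_
          rw [hPum j]
          ring
      rw [h6]
      exact N.sub_mem h1 (Ideal.sum_mem _ fun j _ => N.mul_mem_right _ (hr₁ j)))
    (by
      intro i
      have h1 := N.mul_mem_left (-Pu) (hE i)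
      have h2 : Pu * a i * g i - ∑ j, Pj j * (c j * Mp j) * (e j i * (u j * w j)) =
          -Pu * (∑ j, c j * (w j * Mp j) * (e j i : B) - a i * g i) := by
        have h3 : ∑ j, Pj j * (c j * Mp j) * (e j i * (u j * w j)) =
            Pu * ∑ j, c j * (w j * Mp j) * (e j i : B) := by
          rw [Finset.mul_sum]
          refine Finset.sum_congr rfl fun j _ => ?_
          rw [hPum j]
          ring
        rw [h3]
        ring
      rw [h2]
      exact h1)
  have ha : ∀ i, a i ∈ N := fun i => (hN.mem_or_mem (hx i)).resolve_left hPuN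
  have hc : ∀ j, c j ∈ N := fun j =>
    (hN.mem_or_mem ((hN.mem_or_mem (hy j)).resolve_left (hPjN j))).resolve_right (hMpN j)
  -- the further equations
  have hDM' : ∀ k, D' k M₀ = 0 := fun k => by
    rw [hM₀]
    exact t3b_mono_zero _ _ _ _ fun ρ _ => DY' k ρ
  have hb : ∀ κ, b κ ∈ N := by
    refine t3b_solve hN _ hD' b fun l => ?_
    have h1 := key (D' l)
    have h3 : D' l (ϖ - M₀) = 0 := by rw [map_sub, Dϖ', hDM', sub_zero]
    have h2 : ∑ i, a i * D' l (g i - M i) +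
        (a₀ * D' l (ϖ - M₀) + ∑ j, c j * D' l (w j * Mp j - u j * Mn j)) ∈ N := by
      rw [h3, mul_zero, zero_add]
      exact N.add_mem (Ideal.sum_mem _ fun i _ => N.mul_mem_right _ (ha i))
        (Ideal.sum_mem _ fun j _ => N.mul_mem_right _ (hc j))
    exact (Ideal.add_mem_iff_left _ h2).1 h1
  refine ⟨hb, ha, ?_, hc⟩
  -- the coefficient of the last equation
  have hmul : ∀ {x y : B}, x ∈ N → y ∈ N → x * y ∈ N ^ 2 := by
    intro x y hx hy
    rw [pow_two]
    exact Ideal.mul_mem_mul hx hy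
  have h1 : a₀ * (ϖ - M₀) ∈ N ^ 2 := by
    have h2 : ∑ κ, b κ * G κ ∈ N ^ 2 := Ideal.sum_mem _ fun κ _ => hmul (hb κ) (hG κ)
    have h3 : ∑ i, a i * (g i - M i) ∈ N ^ 2 :=
      Ideal.sum_mem _ fun i _ => hmul (ha i) (hr i)
    have h4 := (Ideal.add_mem_iff_right _ h2).1 h
    have h5 := (Ideal.add_mem_iff_right _ h3).1 h4
    exact (Ideal.add_mem_iff_left _ (Ideal.sum_mem _ fun j _ => hmul (hc j) (hr₁ j))).1 h5
  by_cases hM2 : M₀ ∈ N ^ 2
  · have h2 : a₀ * ϖ ∈ N ^ 2 := by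
      have h3 := (N ^ 2).add_mem h1 ((N ^ 2).mul_mem_left a₀ hM2)
      have h4 : a₀ * (ϖ - M₀) + a₀ * M₀ = a₀ * ϖ := by ring
      rwa [h4] at h3
    exact hsq _ h2
  · obtain ⟨ρ₀, hρ₀⟩ : ∃ ρ, Y ρ ^ β ρ ∈ N := by
      rw [hM₀] at hM₀N
      obtain ⟨ρ, -, hρ⟩ := (hN.prod_mem_iff).1 hM₀N
      exact ⟨ρ, hρ⟩
    have hYρ := hN.mem_of_pow_mem _ hρ₀
    have hβ : β ρ₀ ≠ 0 := by
      intro h2
      rw [h2, pow_zero] at hρ₀
      exact hN.ne_top ((Ideal.eq_top_iff_one _).2 hρ₀)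
    obtain ⟨M', hM'⟩ : ∃ M' : B, M₀ = Y ρ₀ * M' := by
      rw [hM₀]
      exact ((dvd_pow_self _ hβ).trans (Finset.dvd_prod_of_mem _ (Finset.mem_univ ρ₀)))
    have hM'N : M' ∉ N := fun h2 => hM2 (by rw [hM']; exact hmul hYρ h2)
    have h2 := t3b_mem (d ρ₀) h1
    rw [Derivation.leibniz, map_sub, dϖ, hM', Derivation.leibniz, dY, if_pos rfl] at h2
    simp only [smul_eq_mul, zero_sub, mul_one] at h2
    have h3 := N.sub_mem h2 (N.mul_mem_right (d ρ₀ a₀) (show ϖ - Y ρ₀ * M' ∈ N by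
      rw [← hM']; exact hr₀))
    rw [add_sub_cancel_right] at h3
    have h4 := N.add_mem h3 (N.mul_mem_left (a₀ * d ρ₀ M') hYρ)
    have h5 : a₀ * -(Y ρ₀ * d ρ₀ M' + M') + a₀ * d ρ₀ M' * Y ρ₀ = -(a₀ * M') := by ring
    rw [h5, neg_mem_iff] at h4
    exact (hN.mem_or_mem h4).resolve_right hM'N

end Core

section Der

variable {O σ : Type} [CommRing O] [DecidableEq σ] {s : ℕ}

/-- The extension of a derivation to the chart. -/
noncomputable def lupDer (δ : Derivation O (MvPolynomial σ O) (MvPolynomial σ O)) :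
    Derivation O (MvPolynomial (σ ⊕ Fin (s + 1)) O) (MvPolynomial (σ ⊕ Fin (s + 1)) O) :=
  mkDerivation O (Sum.elim (fun l => lup (δ (X l))) fun _ => 0)

omit [DecidableEq σ] in
theorem lupDer_lup (δ : Derivation O (MvPolynomial σ O) (MvPolynomial σ O))
    (f : MvPolynomial σ O) : lupDer (s := s) δ (lup f) = lup (δ f) := by
  have hX : ∀ l, (lup (X l) : MvPolynomial (σ ⊕ Fin (s + 1)) O) = X (Sum.inl l) :=
    fun l => rename_X _ _
  induction f using MvPolynomial.induction_on with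
  | C a =>
    rw [show (lup (C a) : MvPolynomial (σ ⊕ Fin (s + 1)) O) = C a from rename_C _ _,
      derivation_C, derivation_C, map_zero]
  | add p q hp hq => rw [map_add, map_add, map_add, map_add, hp, hq]
  | mul_X p l hp =>
    rw [map_mul, Derivation.leibniz, hp, hX, Derivation.leibniz, map_add]
    simp only [smul_eq_mul, map_mul, hX]
    congr 2
    rw [lupDer, mkDerivation_X]
    rfl

omit [DecidableEq σ] in
theorem lupDer_inr (δ : Derivation O (MvPolynomial σ O) (MvPolynomial σ O)) (j : Fin (s + 1)) :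
    lupDer (s := s) δ (X (Sum.inr j)) = 0 := by
  rw [lupDer, mkDerivation_X]
  rfl

omit [DecidableEq σ] in
theorem pderiv_lup (j : Fin (s + 1)) (f : MvPolynomial σ O) :
    pderiv (Sum.inr j) (lup f : MvPolynomial (σ ⊕ Fin (s + 1)) O) = 0 := by
  have hX : ∀ l, (lup (X l) : MvPolynomial (σ ⊕ Fin (s + 1)) O) = X (Sum.inl l) :=
    fun l => rename_X _ _
  induction f using MvPolynomial.induction_on with
  | C a =>
    rw [show (lup (C a) : MvPolynomial (σ ⊕ Fin (s + 1)) O) = C a from rename_C _ _,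
      derivation_C]
  | add p q hp hq => rw [map_add, map_add, hp, hq, add_zero]
  | mul_X p l hp =>
    rw [map_mul, Derivation.leibniz, hp, hX, pderiv_X_of_ne (by simp)]
    simp

end Der

variable {O σ : Type} [CommRing O] [IsDomain O] [IsDiscreteValuationRing O] [DecidableEq σ]
  [Fintype σ] {s l : ℕ}

/-- TASK L3b -/
theorem logEqs_indep {U : Std O σ} {g : Fin s → MvPolynomial σ O}
    {w u : Fin l → MvPolynomial σ O} {ϖ : O} (hϖ : Irreducible ϖ) {t : LChart s}
    {e : Fin l → Fin s → ℕ} {v : Fin l → ℕ} {𝒢 : Finset ((Fin s → ℕ) × ℕ)} (ht : t.IsFor e v 𝒢)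
    {Q : Ideal (MvPolynomial (σ ⊕ Fin (s + 1)) O)} (hQ : Q.IsPrime) (hϖQ : C ϖ ∈ Q)
    (hU : lup U.h ∉ Q) (hw : ∀ j, lup (w j) ∉ Q) (hu : ∀ j, lup (u j) ∉ Q)
    (heqs : ∀ k, logEqs U g w u ϖ e v t k ∈ Q) {κ : Fin l ⊕ Fin s → Fin s ⊕ U.T}
    (hdet : lup ((logMat U e w u g).submatrix id κ).det ∉ Q)
    {z : MvPolynomial (σ ⊕ Fin (s + 1)) O} (hz : z ∉ Q)
    (b : {k : σ // k ∉ U.T} ⊕ (Fin s ⊕ (Unit ⊕ Fin l)) → MvPolynomial (σ ⊕ Fin (s + 1)) O)
    (hb : z * ∑ k, b k * logEqs U g w u ϖ e v t k ∈ Q ^ 2) : ∀ k, b k ∈ Q := by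
  classical
  have _ := hw
  have hΔ : lup U.Δ ∉ Q := fun h1 => hU (by
    rw [show U.h = U.s * U.Δ from rfl, map_mul]
    exact Q.mul_mem_left _ h1)
  have hr : ∀ i, lup (g i) - ∏ ρ, lyv ρ ^ t.A ρ i ∈ Q := fun i =>
    heqs (Sum.inr (Sum.inl i))
  have hr₀ : C ϖ - ∏ ρ, lyv ρ ^ t.β ρ ∈ Q := heqs (Sum.inr (Sum.inr (Sum.inl ())))
  have hr₁ : ∀ j, lup (w j) * ∏ ρ, lyv ρ ^ (∑ i, e j i * t.A ρ i - v j * t.β ρ) -
      lup (u j) * ∏ ρ, lyv ρ ^ (v j * t.β ρ - ∑ i, e j i * t.A ρ i) ∈ Q := fun j =>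
    heqs (Sum.inr (Sum.inr (Sum.inr j)))
  have hG : ∀ κ, lup (U.g κ) ∈ Q := fun κ => heqs (Sum.inl κ)
  have hXinr : ∀ (l : σ) (j : Fin (s + 1)), pderiv (Sum.inl l)
      (lyv j : MvPolynomial (σ ⊕ Fin (s + 1)) O) = 0 := fun l j =>
    pderiv_X_of_ne (by simp)
  have hpd : ∀ (l : σ) (f : MvPolynomial σ O), pderiv (Sum.inl l)
      (lup f : MvPolynomial (σ ⊕ Fin (s + 1)) O) = lup (pderiv l f) := fun l f =>
    pderiv_rename Sum.inl_injective _ _
  have hmain := l3b_core (R := O) (B := MvPolynomial (σ ⊕ Fin (s + 1)) O)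
    t.A t.β t.B ht.inv₁ ht.inv₃ e v
    (fun j ρ => ∑ i, e j i * t.A ρ i - v j * t.β ρ)
    (fun j ρ => v j * t.β ρ - ∑ i, e j i * t.A ρ i)
    (fun j ρ => by
      have h1 : ((∑ i, e j i * t.A ρ i : ℕ) : ℤ) = ∑ i, (e j i : ℤ) * t.A ρ i := by
        push_cast
        rfl
      have h2 : ((v j * t.β ρ : ℕ) : ℤ) = (v j : ℤ) * t.β ρ := by push_cast; rfl
      rw [← h1, ← h2]
      omega)
    (fun j => (ht.side j).imp (fun h1 ρ => Nat.sub_eq_zero_of_le (h1 ρ))
      fun h1 ρ => Nat.sub_eq_zero_of_le (h1 ρ))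
    hQ (fun i => lup (g i)) (fun ρ => lyv ρ) (C ϖ) (fun j => lup (w j))
    (fun j => lup (u j)) hu hϖQ
    (fun a ha => by
      by_contra h1
      exact mul_C_notMem_sq hϖ Q hϖQ h1 ha) hr hr₀ hr₁
    (fun ρ => pderiv (Sum.inr ρ))
    (fun ρ ρ' => by
      rw [lyv, pderiv_X, Pi.single_apply]
      simp only [Sum.inr.injEq])
    (fun ρ i => pderiv_lup _ _) (fun ρ => derivation_C _ _) (fun ρ j => pderiv_lup _ _)
    (fun ρ j => pderiv_lup _ _)
    (K := U.T) (fun κ => lupDer (U.vf κ.1)) (fun k ρ => lupDer_inr _ _)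
    (fun k => derivation_C _ _)
    (by
      intro x y hk hi
      have h1 := mem_of_minor hQ ((logMat U e w u g).map
        (lup : MvPolynomial σ O →ₐ[O] MvPolynomial (σ ⊕ Fin (s + 1)) O)) κ (by
          have h2 := AlgHom.map_det
            (lup : MvPolynomial σ O →ₐ[O] MvPolynomial (σ ⊕ Fin (s + 1)) O)
            ((logMat U e w u g).submatrix id κ)
          rw [h2] at hdet
          exact hdet) (Sum.elim y x) (by
          rintro (i | t')
          · rw [Fintype.sum_sum_type]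
            simp only [Matrix.map_apply, logMat, Matrix.of_apply, Sum.elim_inl, Sum.elim_inr]
            have h3 := hi i
            have h4 : ∑ i', x i' * (lup (if i' = i then -g i' else 0) :
                MvPolynomial (σ ⊕ Fin (s + 1)) O) = -(x i * lup (g i)) := by
              rw [Finset.sum_eq_single i]
              · rw [if_pos rfl, map_neg, mul_neg]
              · intro i' _ hii
                rw [if_neg hii, map_zero, mul_zero]
              · intro h5
                exact absurd (Finset.mem_univ _) h5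
            have h5 : ∑ j, y j * (lup (w j * u j * (e j i : MvPolynomial σ O)) :
                MvPolynomial (σ ⊕ Fin (s + 1)) O) =
                ∑ j, y j * ((e j i : MvPolynomial (σ ⊕ Fin (s + 1)) O) *
                  (lup (u j) * lup (w j))) := by
              refine Finset.sum_congr rfl fun j _ => ?_
              rw [map_mul, map_mul, map_natCast]
              ring
            rw [h4, h5, ← sub_eq_add_neg, ← neg_sub, neg_mem_iff]
            exact h3
          · rw [Fintype.sum_sum_type]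
            simp only [Matrix.map_apply, logMat, Matrix.of_apply, Sum.elim_inl, Sum.elim_inr]
            have h3 := hk t'
            simp only [lupDer_lup] at h3
            rw [add_comm (Finset.sum _ _)]
            simp only [map_sub, map_mul]
            exact h3)
      exact ⟨fun i => h1 (Sum.inr i), fun j => h1 (Sum.inl j)⟩)
    (fun κ => lup (U.g κ)) hG (fun ρ κ => pderiv_lup _ _)
    (fun k κ' => by rw [lupDer_lup, U.vf_gL, map_zero])
    (fun l => pderiv (Sum.inl l.1)) (fun l ρ => hXinr _ _) (fun l => derivation_C _ _)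
    (by
      have h1 : (Matrix.of fun l κ : {l : σ // l ∉ U.T} => pderiv (Sum.inl l.1)
          (lup (U.g κ) : MvPolynomial (σ ⊕ Fin (s + 1)) O)) =
          (U.J.transpose).map
            (lup : MvPolynomial σ O →ₐ[O] MvPolynomial (σ ⊕ Fin (s + 1)) O) := by
        ext l κ'
        simp only [Matrix.of_apply, Matrix.map_apply, hpd, Matrix.transpose_apply]
        rfl
      have h2 := AlgHom.map_det (lup : MvPolynomial σ O →ₐ[O] MvPolynomial (σ ⊕ Fin (s + 1)) O)
        U.J.transpose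
      rw [Matrix.det_transpose] at h2
      rw [h1]
      have h3 : lup U.Δ = (lup : MvPolynomial σ O →ₐ[O] MvPolynomial (σ ⊕ Fin (s + 1)) O)
        U.J.det := rfl
      rw [h3, h2] at hΔ
      exact hΔ)
    (fun κ => z * b (Sum.inl κ)) (fun i => z * b (Sum.inr (Sum.inl i)))
    (z * b (Sum.inr (Sum.inr (Sum.inl ())))) (fun j => z * b (Sum.inr (Sum.inr (Sum.inr j))))
    (by
      have h0 : ∀ f : Unit → MvPolynomial (σ ⊕ Fin (s + 1)) O, ∑ x, f x = f () := fun f =>
        Fintype.sum_unique f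
      have h1 : z * ∑ k, b k * logEqs U g w u ϖ e v t k =
          ∑ κ, z * b (Sum.inl κ) * lup (U.g κ) + (∑ i, z * b (Sum.inr (Sum.inl i)) *
            (lup (g i) - ∏ ρ, lyv ρ ^ t.A ρ i) +
            (z * b (Sum.inr (Sum.inr (Sum.inl ()))) * (C ϖ - ∏ ρ, lyv ρ ^ t.β ρ) +
              ∑ j, z * b (Sum.inr (Sum.inr (Sum.inr j))) *
                (lup (w j) * ∏ ρ, lyv ρ ^ (∑ i, e j i * t.A ρ i - v j * t.β ρ) -
                  lup (u j) * ∏ ρ, lyv ρ ^ (v j * t.β ρ - ∑ i, e j i * t.A ρ i)))) := by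
        rw [Finset.mul_sum, Fintype.sum_sum_type, Fintype.sum_sum_type, Fintype.sum_sum_type,
          h0]
        simp only [logEqs, Sum.elim_inl, Sum.elim_inr, mul_assoc]
      rw [← h1]
      exact hb)
  obtain ⟨h1, h2, h3, h4⟩ := hmain
  rintro (κ' | i | ⟨⟩ | j)
  · exact (hQ.mem_or_mem (h1 κ')).resolve_left hz
  · exact (hQ.mem_or_mem (h2 i)).resolve_left hz
  · exact (hQ.mem_or_mem h3).resolve_left hz
  · exact (hQ.mem_or_mem (h4 j)).resolve_left hz

end Pool.Agent.Lib.MP_6a3dac_ag.LS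
end

section

/-!
# Logarithmically smooth points where the divisors do not pass
-/

set_option autoImplicit false

namespace Pool.Agent.Lib.MP_6a3dac_ag.LS

open MvPolynomial
open Pool.Agent.Lib.MP_6a3dac_ag.DNF Pool.Agent.Lib.MP_6a3dac_ag.Bert
open Pool.Agent.Lib.MP_6a3dac_ag.Fam

/-- The logarithmic derivative of a monomial. -/
theorem m1_logDeriv {R B L : Type} [CommRing R] [CommRing B] [Algebra R B] [Field L]
    (D : Derivation R B B) (φ : B →+* L) {κ : Type} [DecidableEq κ] (S : Finset κ) (g : κ → B)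
    (e : κ → ℕ) (hg : ∀ i ∈ S, φ (g i) ≠ 0) :
    φ (D (∏ i ∈ S, g i ^ e i)) =
      φ (∏ i ∈ S, g i ^ e i) * ∑ i ∈ S, (e i : L) * (φ (D (g i)) / φ (g i)) := by
  induction S using Finset.induction_on with
  | empty => simp
  | insert a S ha ih =>
    rw [Finset.prod_insert ha, Finset.sum_insert ha, Derivation.leibniz, smul_eq_mul, smul_eq_mul,
      map_add, map_mul, map_mul, ih fun i hi => hg i (Finset.mem_insert_of_mem hi), map_mul]
    have h1 : φ (D (g a ^ e a)) = φ (g a ^ e a) * ((e a : L) * (φ (D (g a)) / φ (g a))) := by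
      have h2 := hg a (Finset.mem_insert_self a S)
      rcases Nat.eq_zero_or_pos (e a) with h0 | h0
      · rw [h0]
        simp
      · obtain ⟨k, hk⟩ : ∃ k, e a = k + 1 := ⟨e a - 1, by omega⟩
        rw [Derivation.leibniz_pow, hk, Nat.add_sub_cancel, map_nsmul, smul_eq_mul, map_mul,
          map_pow, map_pow, nsmul_eq_mul, pow_succ]
        field_simp
    rw [h1]
    ring

section Point

variable {R σ : Type} [CommRing R] [DecidableEq σ] [Fintype σ] {l s : ℕ} {U : Std R σ}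
  {e : Fin l → Fin s → ℕ} {F w u : Fin l → MvPolynomial σ R} {g : Fin s → MvPolynomial σ R}
  {h : Fin l → R} {𝔮 : Ideal (MvPolynomial σ R)} {L : Type} [Field L]

/-- The logarithmic differentials are independent over every field. -/
theorem m1_rows (φ : MvPolynomial σ R →+* L) (hφ : ∀ q, φ q = 0 ↔ q ∈ 𝔮) (hq : 𝔮.IsPrime)
    (hI : LogInd U e w u g 𝔮) (b : Fin l → L) (c : Fin s → L)
    (h1 : ∀ i, ∑ j, b j * (φ (w j) * φ (u j) * (e j i : L)) - c i * φ (g i) = 0)
    (h2 : ∀ t ∈ U.T, ∑ j, b j * (φ (u j) * φ (U.vf t (w j)) - φ (w j) * φ (U.vf t (u j))) +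
      ∑ i, c i * φ (U.vf t (g i)) = 0) : ∀ j, b j = 0 := by
  obtain ⟨κ, hκ⟩ := hI.exists_minor hq
  have h3 := mem_of_minor (N := (⊥ : Ideal L)) Ideal.isPrime_bot ((logMat U e w u g).map φ) κ
    (by
      rw [Ideal.mem_bot]
      intro h0
      apply hκ
      rw [← hφ, RingHom.map_det]
      exact h0) (Sum.elim b c) (by
      rintro (i | t)
      · rw [Ideal.mem_bot, Fintype.sum_sum_type, ← h1 i, sub_eq_add_neg]
        congr 1
        · refine Finset.sum_congr rfl fun j _ => ?_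
          simp [logMat]
        · rw [Finset.sum_eq_single i]
          · simp [logMat]
          · intro i' _ hi'
            simp [logMat, hi']
          · simp
      · rw [Ideal.mem_bot, Fintype.sum_sum_type, ← h2 t.1 t.2]
        congr 1
        refine Finset.sum_congr rfl fun j _ => ?_
        simp [logMat])
  intro j
  exact (Ideal.mem_bot).1 (h3 (Sum.inl j))

/-- At a point in characteristic zero, or more generally at a point where the `g i` do not vanish,
the differentials of the equations are independent. -/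
theorem m1_indep (φ : MvPolynomial σ R →+* L) (hφ : ∀ q, φ q = 0 ↔ q ∈ 𝔮) (hq : 𝔮.IsPrime)
    (hI : LogInd U e w u g 𝔮) (hU : U.Δ ∉ 𝔮)
    (hF : ∀ j, F j = w j * ∏ i, g i ^ e j i - u j * C (h j))
    (hu : ∀ j, u j ∉ 𝔮) (hF0 : ∀ j, F j ∈ 𝔮) (hg : ∀ i, g i ∉ 𝔮)
    (y : {κ : σ // κ ∉ U.T} ⊕ Fin l → L)
    (hy : ∀ t, ∑ k, y k * φ (pderiv t (Sum.elim U.g F k)) = 0) : y = 0 := by
  have hg' : ∀ i, φ (g i) ≠ 0 := fun i h0 => hg i ((hφ _).1 h0)
  have hu' : ∀ j, φ (u j) ≠ 0 := fun i h0 => hu i ((hφ _).1 h0)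
  have hM : ∀ j, φ (∏ i, g i ^ e j i) ≠ 0 := by
    intro j
    rw [map_prod]
    refine Finset.prod_ne_zero_iff.2 fun i _ => ?_
    rw [map_pow]
    exact pow_ne_zero _ (hg' i)
  -- the relation between the derivatives along the vector fields
  have h1 : ∀ t, ∑ j, y (Sum.inr j) * φ (U.vf t (F j)) = 0 := by
    intro t
    have h2 : ∑ m, φ (U.vc t m) * ∑ k, y k * φ (pderiv m (Sum.elim U.g F k)) = 0 :=
      Finset.sum_eq_zero fun m _ => by rw [hy m, mul_zero]
    have h3 : ∑ m, φ (U.vc t m) * ∑ k, y k * φ (pderiv m (Sum.elim U.g F k)) =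
        ∑ k, y k * φ (U.vf t (Sum.elim U.g F k)) := by
      simp only [Finset.mul_sum]
      rw [Finset.sum_comm]
      refine Finset.sum_congr rfl fun k _ => ?_
      rw [U.vf_eq_sum, map_sum, Finset.mul_sum]
      refine Finset.sum_congr rfl fun m _ => ?_
      rw [map_mul]
      ring
    rw [h3, Fintype.sum_sum_type] at h2
    rw [← h2]
    simp [U.vf_gL]
  have h4 : ∀ t j, φ (U.vf t (F j)) = φ (∏ i, g i ^ e j i) / φ (u j) *
      ((φ (u j) * φ (U.vf t (w j)) - φ (w j) * φ (U.vf t (u j))) +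
        ∑ i, φ (w j) * φ (u j) * (e j i : L) * (φ (U.vf t (g i)) / φ (g i))) := by
    intro t j
    have h5 : φ (u j) * φ (C (h j)) = φ (w j) * φ (∏ i, g i ^ e j i) := by
      have h6 := (hφ _).2 (hF0 j)
      rw [hF, map_sub, map_mul, map_mul, sub_eq_zero] at h6
      exact h6.symm
    have h7 : φ (C (h j)) = φ (w j) * φ (∏ i, g i ^ e j i) / φ (u j) := by
      rw [eq_div_iff (hu' j), mul_comm, h5]
    have h8 : ∑ i, φ (w j) * φ (u j) * (e j i : L) * (φ (U.vf t (g i)) / φ (g i)) =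
        φ (w j) * φ (u j) * ∑ i, (e j i : L) * (φ (U.vf t (g i)) / φ (g i)) := by
      rw [Finset.mul_sum]
      exact Finset.sum_congr rfl fun i _ => by ring
    rw [h8, hF, map_sub, Derivation.leibniz, Derivation.leibniz, smul_eq_mul, smul_eq_mul,
      smul_eq_mul, smul_eq_mul, ← algebraMap_eq, Derivation.map_algebraMap, algebraMap_eq, mul_zero,
      zero_add, map_sub, map_add, map_mul, map_mul, map_mul,
      m1_logDeriv (U.vf t) φ Finset.univ g (e j) fun i _ => hg' i, h7]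
    have := hu' j
    field_simp
    ring
  have h9 := m1_rows φ hφ hq hI (fun j => y (Sum.inr j) * (φ (∏ i, g i ^ e j i) / φ (u j)))
    (fun i => (∑ j, y (Sum.inr j) * (φ (∏ i, g i ^ e j i) / φ (u j)) *
      (φ (w j) * φ (u j) * (e j i : L))) / φ (g i)) (fun i => by
      rw [div_mul_cancel₀ _ (hg' i), sub_self]) (fun t _ => by
      rw [← h1 t]
      simp only [h4]
      have h10 : ∑ i, (∑ j, y (Sum.inr j) * (φ (∏ i, g i ^ e j i) / φ (u j)) *
          (φ (w j) * φ (u j) * (e j i : L))) / φ (g i) * φ (U.vf t (g i)) =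
          ∑ j, y (Sum.inr j) * (φ (∏ i, g i ^ e j i) / φ (u j) *
            ∑ i, φ (w j) * φ (u j) * (e j i : L) * (φ (U.vf t (g i)) / φ (g i))) := by
        simp only [Finset.mul_sum, Finset.sum_div, Finset.sum_mul]
        rw [Finset.sum_comm]
        refine Finset.sum_congr rfl fun j _ => Finset.sum_congr rfl fun i _ => ?_
        ring
      rw [h10, ← Finset.sum_add_distrib]
      refine Finset.sum_congr rfl fun j _ => ?_
      ring)
  have h11 : ∀ j, y (Sum.inr j) = 0 := fun j =>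
    (mul_eq_zero.1 (h9 j)).resolve_right (div_ne_zero (hM j) (hu' j))
  -- the remaining coefficients
  have h12 : ∀ κ, y (Sum.inl κ) = 0 := by
    have h13 := mem_of_minor (N := (⊥ : Ideal L)) Ideal.isPrime_bot (U.J.map φ) id
      (by
        rw [Ideal.mem_bot]
        intro h0
        apply hU
        rw [← hφ, Std.Δ, RingHom.map_det]
        exact h0) (fun κ => y (Sum.inl κ)) (fun k => by
        rw [Ideal.mem_bot, ← hy k.1, Fintype.sum_sum_type]
        simp [h11, Std.J])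
    exact fun κ => (Ideal.mem_bot).1 (h13 κ)
  funext k
  rcases k with κ | j
  · exact h12 κ
  · exact h11 j

end Point

end Pool.Agent.Lib.MP_6a3dac_ag.LS
end
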