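import Pool.Agent.Lib.MP_6a3dac_ag.Mg.G058
import Pool.Agent.Lib.MP_6a3dac_ag.Mg.G061
import Pool.Agent.Lib.MP_6a3dac_ag.LS.L3c
import Pool.Agent.Lib.MP_6a3dac_ag.Mg.G017
import Pool.Agent.Lib.MP_6a3dac_ag.Mg.G020

section

/-!
# Regularity of the toric modification
-/

set_option autoImplicit false

namespace Pool.Agent.Lib.MP_6a3dac_ag.LS

open MvPolynomial IsLocalRing
open Pool.Agent.Lib.MP_6a3dac_ag.DNF Pool.Agent.Lib.MP_6a3dac_ag.Bert
open Pool.Agent.Lib.MP_6a3dac_ag.Fam Pool.Agent.Lib.MP_6a3dac_ag.Tor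

section Exponents

variable {D : Type} [CommRing D] {s : ℕ}

/-- The monomials in the elements `γ i` and `p` in terms of the coordinates of the chart. -/
theorem l3d_monomial {t : LChart s} {γ : Fin s → D} {p : D} {y : Fin (s + 1) → D}
    (hγ : ∀ i, γ i = ∏ ρ, y ρ ^ t.A ρ i) (hp : p = ∏ ρ, y ρ ^ t.β ρ)
    (ν : Fin s → ℕ) (ν₀ : ℕ) :
    (∏ i, γ i ^ ν i) * p ^ ν₀ = ∏ ρ, y ρ ^ (∑ i, t.A ρ i * ν i + t.β ρ * ν₀) := by
  simp only [hγ, hp]
  have h1 : ∀ i, (∏ ρ, y ρ ^ t.A ρ i) ^ ν i = ∏ ρ, y ρ ^ (t.A ρ i * ν i) := by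
    intro i
    rw [← Finset.prod_pow]
    exact Finset.prod_congr rfl fun ρ _ => (pow_mul _ _ _).symm
  have h2 : (∏ ρ, y ρ ^ t.β ρ) ^ ν₀ = ∏ ρ, y ρ ^ (t.β ρ * ν₀) := by
    rw [← Finset.prod_pow]
    exact Finset.prod_congr rfl fun ρ _ => (pow_mul _ _ _).symm
  rw [h2, Finset.prod_congr rfl fun i _ => h1 i, Finset.prod_comm, ← Finset.prod_mul_distrib]
  refine Finset.prod_congr rfl fun ρ _ => ?_
  rw [Finset.prod_pow_eq_pow_sum, pow_add]

end Exponents

variable {O σ D : Type} [CommRing O] [IsDomain O] [IsDiscreteValuationRing O] [DecidableEq σ]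
  [Fintype σ] [CommRing D] [IsDomain D] [IsLocalRing D]

/-- TASK L3d -/
theorem regular_of_log (φ : MvPolynomial σ O →+* D) {J : Ideal (MvPolynomial σ O)} {m l s : ℕ}
    {e : Fin l → Fin s → ℕ} {v : Fin l → ℕ} (he : ∀ i, ∃ j, 0 < e j i)
    {𝒢 : Finset ((Fin s → ℕ) × ℕ)} (h𝒢 : IsLCharts e v 𝒢) {ϖ : O} (hϖ : Irreducible ϖ)
    {K : Fin s → Ideal (MvPolynomial σ O)}
    (hJ : ∀ f ∈ J, φ f = 0) (hker : ∀ f, φ f = 0 → ∃ τ, φ τ ≠ 0 ∧ τ * f ∈ J)
    (hϖm : φ (C ϖ) ∈ maximalIdeal D) (hϖ0 : φ (C ϖ) ≠ 0)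
    (hT : LogPt m e (fun j => ϖ ^ v j) J K (Ideal.comap φ (maximalIdeal D)))
    (G : Set (MvPolynomial σ O)) (hG : Ideal.span G = torSpan K (C ϖ) 𝒢)
    {Θ : MvPolynomial σ O} (hΘ : Θ ∈ torSpan K (C ϖ) 𝒢) (b : D) (hb0 : b ≠ 0) (hb1 : b ∣ φ Θ)
    (hb2 : ∀ f ∈ G, b ∣ φ f)
    (hb3 : b ∈ Submodule.span (locIn φ) (insert (φ Θ) (φ '' G)))
    (hmin : ∀ R' : Subring D, Dom R' → locIn φ ≤ R' →
      (∀ w, (b * w = φ Θ ∨ ∃ f ∈ G, b * w = φ f) → w ∈ R') → R' = ⊤) :
    IsRegularLocalRing D := by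
  classical
  have _ := hb1
  obtain ⟨U, F, w, u, g, hpres, -, hUh, hF, hgK, hind⟩ := hT
  have hmem : ∀ f, f ∈ Ideal.comap φ (maximalIdeal D) ↔ φ f ∈ maximalIdeal D := fun f =>
    Ideal.mem_comap
  have hun : ∀ f, f ∉ Ideal.comap φ (maximalIdeal D) ↔ IsUnit (φ f) := by
    intro f
    rw [hmem, IsLocalRing.mem_maximalIdeal, mem_nonunits_iff, not_not]
  have hwu : ∀ j, IsUnit (φ (w j)) := fun j => (hun _).mp (hF j).2.1
  have huu : ∀ j, IsUnit (φ (u j)) := fun j => (hun _).mp (hF j).2.2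
  have hhu : IsUnit (φ U.h) := (hun _).mp hUh
  have hsu : IsUnit (φ U.s) := by
    have h1 := hhu
    rw [Std.h, map_mul] at h1
    exact isUnit_of_mul_isUnit_left h1
  have heq : ∀ j, φ (w j) * ∏ i, φ (g i) ^ e j i = φ (u j) * φ (C ϖ) ^ v j := by
    intro j
    have h1 := hJ (F j) (hpres.memF j)
    rw [(hF j).1, map_sub, map_mul, map_mul, map_prod, sub_eq_zero] at h1
    simp only [map_pow] at h1
    exact h1
  have hγ : ∀ i, φ (g i) ≠ 0 := by
    intro i h0
    obtain ⟨j, hj⟩ := he i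
    have h1 : ∏ i, φ (g i) ^ e j i = 0 :=
      Finset.prod_eq_zero (Finset.mem_univ i) (by rw [h0, zero_pow hj.ne'])
    have h2 := heq j
    rw [h1, mul_zero] at h2
    exact mul_ne_zero (huu j).ne_zero (pow_ne_zero _ hϖ0) h2.symm
  obtain ⟨κ, hdet⟩ := LogInd.exists_minor (Ideal.IsPrime.comap φ) hind
  -- the ideals `K i`
  have hK : ∀ i, K i ≤ t3d_mulIdeal φ (φ (g i)) := by
    intro i f hf
    obtain ⟨-, a, ha, haf⟩ := hgK i
    obtain ⟨x, hx, z, hz, hxz⟩ := Submodule.mem_sup.mp (haf f hf)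
    obtain ⟨c, rfl⟩ := Ideal.mem_span_singleton'.mp hz
    obtain ⟨a', ha'⟩ := ((hun a).mp ha).exists_right_inv
    have h1 : φ a * φ f = φ c * φ (g i) := by
      rw [← map_mul, ← hxz, map_add, hJ x hx, zero_add, map_mul]
    refine ⟨a' * φ c, (locIn φ).mul_mem (dom_locIn φ _ (map_mem_locIn φ a) a' ha')
      (map_mem_locIn φ c), ?_⟩
    rw [mul_assoc, ← h1, ← mul_assoc, mul_comm a', ha', one_mul]
  have hN : ∀ f ∈ torSpan K (C ϖ) 𝒢, φ f ∈ Submodule.span (locIn φ)
      {x | ∃ ν ∈ 𝒢, x = (∏ i, φ (g i) ^ ν.1 i) * φ (C ϖ) ^ ν.2} := fun f hf =>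
    t3d_torSpan φ (fun i => φ (g i)) K (C ϖ) 𝒢 hK hf
  have hGT : ∀ f ∈ G, f ∈ torSpan K (C ϖ) 𝒢 := fun f hf => by
    rw [← hG]; exact Ideal.subset_span hf
  have hbN : b ∈ Submodule.span (locIn φ)
      {x | ∃ ν ∈ 𝒢, x = (∏ i, φ (g i) ^ ν.1 i) * φ (C ϖ) ^ ν.2} := by
    have h1 : Submodule.span (locIn φ) (insert (φ Θ) (φ '' G)) ≤ Submodule.span (locIn φ)
        {x | ∃ ν ∈ 𝒢, x = (∏ i, φ (g i) ^ ν.1 i) * φ (C ϖ) ^ ν.2} := by
      rw [Submodule.span_le, Set.insert_subset_iff]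
      refine ⟨hN Θ hΘ, ?_⟩
      rintro _ ⟨f, hf, rfl⟩
      exact hN f (hGT f hf)
    exact h1 hb3
  have hdvd : ∀ ν ∈ 𝒢, b ∣ (∏ i, φ (g i) ^ ν.1 i) * φ (C ϖ) ^ ν.2 := by
    intro ν hν
    have h1 : (∏ i, g i ^ ν.1 i) * C ϖ ^ ν.2 ∈ Ideal.span G := by
      rw [hG]
      exact t3d_mem_torSpan (fun i => (hgK i).1) hν
    have h2 : Ideal.span G ≤ Ideal.comap φ (Ideal.span {b}) := by
      rw [Ideal.span_le]
      intro f hf
      exact Ideal.mem_comap.mpr (Ideal.mem_span_singleton.mpr (hb2 f hf))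
    have h3 := Ideal.mem_span_singleton.mp (Ideal.mem_comap.mp (h2 h1))
    rw [map_mul, map_prod, map_pow] at h3
    simp only [map_pow] at h3
    exact h3
  have hbI : b ∈ Ideal.span {x | ∃ ν ∈ 𝒢, x = (∏ i, φ (g i) ^ ν.1 i) * φ (C ϖ) ^ ν.2} := by
    generalize hbx : b = x at hbN
    clear hbx
    induction hbN using Submodule.span_induction with
    | mem x hx => exact Ideal.subset_span hx
    | zero => exact Ideal.zero_mem _
    | add x y _ _ hx hy => exact Ideal.add_mem _ hx hy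
    | smul c x _ hx => exact Ideal.mul_mem_left _ (c : D) hx
  obtain ⟨t, y, ω, ht, hω, hunit, hgam, hp, hmu⟩ := exists_lchart_elements h𝒢
    (fun i => φ (g i)) hγ (φ (C ϖ)) hϖ0 (fun j => φ (w j)) (fun j => φ (u j)) hwu huu heq b hb0
    hdvd hbI
  have _ := hω
  -- the chart
  obtain ⟨δ, hδdef⟩ : ∃ δ : MvPolynomial (σ ⊕ Fin (s + 1)) O →+* D,
      δ = eval₂Hom (φ.comp C) (Sum.elim (fun k => φ (X k)) y) := ⟨_, rfl⟩
  have hδC : ∀ a, δ (C a) = φ (C a) := fun a => by
    rw [hδdef, coe_eval₂Hom, eval₂_C]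
    rfl
  have hδup : ∀ f : MvPolynomial σ O, δ (lup f) = φ f := by
    intro f
    have h1 : δ.comp ((lup (O := O) (σ := σ) (s := s)) : MvPolynomial σ O →+*
        MvPolynomial (σ ⊕ Fin (s + 1)) O) = φ := by
      apply MvPolynomial.ringHom_ext
      · intro a
        change δ (lup (C a)) = φ (C a)
        rw [lup, rename_C, hδC]
      · intro k
        change δ (lup (X k)) = φ (X k)
        rw [lup, rename_X, hδdef, coe_eval₂Hom, eval₂_X]
        rfl
    exact RingHom.congr_fun h1 f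
  have hδy : ∀ ρ, δ (lyv ρ) = y ρ := fun ρ => by
    rw [lyv, hδdef, coe_eval₂Hom, eval₂_X]
    rfl
  have hδ : ∀ k, δ (logEqs U g w u ϖ e v t k) = 0 := by
    rintro (k | i | a | j)
    · change δ (lup (U.g k)) = 0
      rw [hδup]
      exact hJ _ (hpres.mem k)
    · change δ (lup (g i) - ∏ ρ, lyv ρ ^ t.A ρ i) = 0
      rw [map_sub, map_prod, hδup, sub_eq_zero]
      simp only [map_pow, hδy]
      exact hgam i
    · change δ (C ϖ - ∏ ρ, lyv ρ ^ t.β ρ) = 0
      rw [map_sub, map_prod, hδC, sub_eq_zero]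
      simp only [map_pow, hδy]
      exact hp
    · change δ (lup (w j) * ∏ ρ, lyv ρ ^ (∑ i, e j i * t.A ρ i - v j * t.β ρ) -
        lup (u j) * ∏ ρ, lyv ρ ^ (v j * t.β ρ - ∑ i, e j i * t.A ρ i)) = 0
      rw [map_sub, map_mul, map_mul, map_prod, map_prod, hδup, hδup, sub_eq_zero]
      simp only [map_pow, hδy]
      exact hunit j
  -- the subring
  have hdom : Dom (locIn δ) := dom_locIn δ
  have hLR : locIn φ ≤ locIn δ := locIn_le hdom fun a => by
    rw [← hδup]
    exact map_mem_locIn δ _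
  have hyR : ∀ ρ, y ρ ∈ locIn δ := fun ρ => by
    rw [← hδy]
    exact map_mem_locIn δ _
  have hmon : ∀ ν ∈ 𝒢, ∃ c ∈ locIn δ,
      (∏ i, φ (g i) ^ ν.1 i) * φ (C ϖ) ^ ν.2 = b * ω * c := by
    intro ν hν
    have hge := ht.ge ν hν
    refine ⟨∏ ρ, y ρ ^ (∑ i, t.A ρ i * ν.1 i + t.β ρ * ν.2 -
      (∑ i, t.A ρ i * t.μ i + t.β ρ * t.μ₀)), (locIn δ).prod_mem fun ρ _ =>
        (locIn δ).pow_mem (hyR ρ) _, ?_⟩
    have h1 := l3d_monomial hgam hp ν.1 ν.2
    have h2 := l3d_monomial hgam hp t.μ t.μ₀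
    rw [h1, ← hmu, h2, ← Finset.prod_mul_distrib]
    refine Finset.prod_congr rfl fun ρ _ => ?_
    rw [← pow_add, Nat.add_sub_cancel' (hge ρ)]
  have hNR : ∀ x ∈ Submodule.span (locIn φ)
      {x | ∃ ν ∈ 𝒢, x = (∏ i, φ (g i) ^ ν.1 i) * φ (C ϖ) ^ ν.2},
        ∃ c ∈ locIn δ, x = b * ω * c := by
    intro x hx
    induction hx using Submodule.span_induction with
    | mem x hx =>
      obtain ⟨ν, hν, rfl⟩ := hx
      exact hmon ν hν
    | zero => exact ⟨0, (locIn δ).zero_mem, by rw [mul_zero]⟩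
    | add x y _ _ hx hy =>
      obtain ⟨c, hc, rfl⟩ := hx
      obtain ⟨c', hc', rfl⟩ := hy
      exact ⟨c + c', (locIn δ).add_mem hc hc', by rw [mul_add]⟩
    | smul a x _ hx =>
      obtain ⟨c, hc, rfl⟩ := hx
      refine ⟨(a : D) * c, (locIn δ).mul_mem (hLR a.2) hc, ?_⟩
      change (a : D) * (b * ω * c) = b * ω * ((a : D) * c)
      ring
  have hωR : ω ∈ locIn δ := by
    obtain ⟨c, hc, hbc⟩ := hNR b hbN
    refine hdom c hc ω ?_
    apply mul_left_cancel₀ hb0
    rw [mul_one, mul_comm c, ← mul_assoc]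
    exact hbc.symm
  have hdiv : ∀ f ∈ torSpan K (C ϖ) 𝒢, ∀ x, b * x = φ f → x ∈ locIn δ := by
    intro f hf x hx
    obtain ⟨c, hc, hfc⟩ := hNR _ (hN f hf)
    have h1 : x = ω * c := by
      apply mul_left_cancel₀ hb0
      rw [hx, hfc, mul_assoc]
    rw [h1]
    exact (locIn δ).mul_mem hωR hc
  have htop : locIn δ = ⊤ := by
    refine hmin (locIn δ) hdom hLR ?_
    rintro x (hx | ⟨f, hf, hx⟩)
    · exact hdiv Θ hΘ x hx
    · exact hdiv f (hGT f hf) x hx
  -- the chart lemma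
  have hQun : ∀ z, z ∉ Ideal.comap δ (maximalIdeal D) ↔ IsUnit (δ z) := by
    intro z
    rw [Ideal.mem_comap, IsLocalRing.mem_maximalIdeal, mem_nonunits_iff, not_not]
  let E := Fintype.equivFin ({k : σ // k ∉ U.T} ⊕ (Fin s ⊕ (Unit ⊕ Fin l)))
  refine isRegularLocalRing_of_chart δ (fun i => logEqs U g w u ϖ e v t (E.symm i))
    (fun i => hδ _) ?_ ?_ ?_
  · intro z hz c hc i
    have h1 : ∑ i, c i * logEqs U g w u ϖ e v t (E.symm i) =
        ∑ k, c (E k) * logEqs U g w u ϖ e v t k := by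
      rw [← Equiv.sum_comp E]
      refine Finset.sum_congr rfl fun k _ => ?_
      rw [E.symm_apply_apply]
    rw [h1] at hc
    have h2 := logEqs_indep (U := U) (g := g) (w := w) (u := u) hϖ (t := t) ht
      (Q := Ideal.comap δ (maximalIdeal D)) (Ideal.IsPrime.comap δ)
      (by rw [Ideal.mem_comap, hδC]; exact hϖm)
      (by rw [hQun, hδup]; exact hhu)
      (fun j => by rw [hQun, hδup]; exact hwu j)
      (fun j => by rw [hQun, hδup]; exact huu j)
      (fun k => by rw [Ideal.mem_comap, hδ k]; exact Ideal.zero_mem _)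
      (κ := κ)
      (by rw [hQun, hδup]; exact (hun _).mp hdet)
      ((hQun z).mpr hz) (fun k => c (E k)) hc (E.symm i)
    rwa [E.apply_symm_apply] at h2
  · intro z
    have h1 : z ∈ locIn δ := by rw [htop]; exact Subring.mem_top z
    exact h1
  · intro p hp0
    have h1 : Set.range (fun i => logEqs U g w u ϖ e v t (E.symm i)) =
        Set.range (logEqs U g w u ϖ e v t) := E.symm.surjective.range_comp _
    rw [h1]
    refine logEqs_ker ht hpres (fun j => (hF j).1) δ hδ (fun i => ?_) ?_ ?_ ?_ p hp0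
    · rw [hδup]; exact hγ i
    · rw [hδC]; exact hϖ0
    · rw [hδup]; exact hsu.ne_zero
    · intro f hf
      rw [hδup] at hf
      obtain ⟨τ, hτ, hτf⟩ := hker f hf
      exact ⟨τ, by rw [hδup]; exact hτ, hτf⟩

end Pool.Agent.Lib.MP_6a3dac_ag.LS
end

section

/-!
# Logarithmically smooth points: neighbourhoods, change of the ring, units
-/

set_option autoImplicit false

namespace Pool.Agent.Lib.MP_6a3dac_ag.LS

open MvPolynomial
open Pool.Agent.Lib.MP_6a3dac_ag.DNF Pool.Agent.Lib.MP_6a3dac_ag.Bert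
open Pool.Agent.Lib.MP_6a3dac_ag.Fam Pool.Agent.Lib.MP_6a3dac_ag.Tor

variable {R σ : Type} [CommRing R] [DecidableEq σ] [Fintype σ] {m l s : ℕ}
  {e : Fin l → Fin s → ℕ} {h : Fin l → R} {J : Ideal (MvPolynomial σ R)}
  {K : Fin s → Ideal (MvPolynomial σ R)} {𝔮 : Ideal (MvPolynomial σ R)}

/-- TASK L4a -/
theorem LogPt.exists_nbhd (hq : 𝔮.IsPrime) (hT : LogPt m e h J K 𝔮) :
    ∃ t, t ∉ 𝔮 ∧ ∀ 𝔮' : Ideal (MvPolynomial σ R), 𝔮'.IsPrime → t ∉ 𝔮' →
      LogPt m e h J K 𝔮' := by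
  obtain ⟨U, F, w, u, g, hP, hcard, hUh, hF, hK, hI⟩ := hT
  choose hgK a ha haf using hK
  obtain ⟨κ, hκ⟩ := LogInd.exists_minor hq hI
  refine ⟨U.h * (∏ j, w j) * (∏ j, u j) * (∏ i, a i) *
    ((logMat U e w u g).submatrix id κ).det, ?_, ?_⟩
  · intro hm
    rcases hq.mem_or_mem hm with hm | hm
    · rcases hq.mem_or_mem hm with hm | hm
      · rcases hq.mem_or_mem hm with hm | hm
        · rcases hq.mem_or_mem hm with hm | hm
          · exact hUh hm
          · exact t4b_prod_notMem hq _ _ (fun j _ => (hF j).2.1) hm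
        · exact t4b_prod_notMem hq _ _ (fun j _ => (hF j).2.2) hm
      · exact t4b_prod_notMem hq _ _ (fun i _ => ha i) hm
    · exact hκ hm
  · intro 𝔮' hq' ht
    have t1 : ((logMat U e w u g).submatrix id κ).det ∉ 𝔮' :=
      fun hm => ht (Ideal.mul_mem_left _ _ hm)
    have ht := fun hm => ht (Ideal.mul_mem_right _ _ hm)
    have t2 : (∏ i, a i) ∉ 𝔮' := fun hm => ht (Ideal.mul_mem_left _ _ hm)
    have ht := fun hm => ht (Ideal.mul_mem_right (∏ i, a i) _ hm)
    have t3 : (∏ j, u j) ∉ 𝔮' := fun hm => ht (Ideal.mul_mem_left _ _ hm)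
    have ht := fun hm => ht (Ideal.mul_mem_right (∏ j, u j) _ hm)
    have t4 : (∏ j, w j) ∉ 𝔮' := fun hm => ht (Ideal.mul_mem_left _ _ hm)
    have t5 : U.h ∉ 𝔮' := fun hm => ht (Ideal.mul_mem_right (∏ j, w j) _ hm)
    refine ⟨U, F, w, u, g, hP, hcard, t5, fun j => ⟨(hF j).1, fun hm => t4 ?_, fun hm => t3 ?_⟩,
      fun i => ⟨hgK i, a i, fun hm => t2 ?_, haf i⟩, logInd_of_minor hq' κ t1⟩
    · exact Ideal.mem_of_dvd _ (Finset.dvd_prod_of_mem _ (Finset.mem_univ j)) hm
    · exact Ideal.mem_of_dvd _ (Finset.dvd_prod_of_mem _ (Finset.mem_univ j)) hm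
    · exact Ideal.mem_of_dvd _ (Finset.dvd_prod_of_mem _ (Finset.mem_univ i)) hm

omit [Fintype σ] in
/-- The presentations are kept by a change of the ring. -/
theorem l4_pres_map {R' : Type} [CommRing R'] (θ : R →+* R') {U : Std R σ}
    {F : Fin l → MvPolynomial σ R} (hP : IsPresL J U F) :
    IsPresL (J.map (MvPolynomial.map θ)) (U.map θ) (fun j => MvPolynomial.map θ (F j)) := by
  refine ⟨fun κ => Ideal.mem_map_of_mem _ (hP.mem κ), fun j => Ideal.mem_map_of_mem _ (hP.memF j),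
    fun f hf => ?_⟩
  have hr : Ideal.span (Set.range (fun j => MvPolynomial.map θ (F j)) ∪ Set.range (U.map θ).g) =
      (Ideal.span (Set.range F ∪ Set.range U.g)).map (MvPolynomial.map θ) := by
    rw [Ideal.map_span, Set.image_union, ← Set.range_comp, ← Set.range_comp]
    rfl
  rw [hr]
  refine Submodule.span_induction (p := fun f _ => (U.map θ).s * f ∈
    (Ideal.span (Set.range F ∪ Set.range U.g)).map (MvPolynomial.map θ)) ?_ ?_ ?_ ?_ hf
  · rintro _ ⟨x, hx, rfl⟩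
    have h1 : (U.map θ).s * MvPolynomial.map θ x = MvPolynomial.map θ (U.s * x) := by
      rw [map_mul]
      rfl
    change (U.map θ).s * MvPolynomial.map θ x ∈ _
    rw [h1]
    exact Ideal.mem_map_of_mem _ (hP.le x hx)
  · rw [mul_zero]
    exact Ideal.zero_mem _
  · intro x y _ _ hx hy
    rw [mul_add]
    exact Ideal.add_mem _ hx hy
  · intro c x _ hx
    rw [smul_eq_mul, mul_left_comm]
    exact Ideal.mul_mem_left _ _ hx

/-- TASK L4b -/
theorem LogPt.map {R' : Type} [CommRing R'] (θ : R →+* R') {𝔮' : Ideal (MvPolynomial σ R')}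
    (hq : 𝔮'.IsPrime) (hT : LogPt m e h J K (𝔮'.comap (MvPolynomial.map θ))) :
    LogPt m e (fun j => θ (h j)) (J.map (MvPolynomial.map θ))
      (fun i => (K i).map (MvPolynomial.map θ)) 𝔮' := by
  obtain ⟨U, F, w, u, g, hP, hcard, hUh, hF, hK, hI⟩ := hT
  have hprime : (𝔮'.comap (MvPolynomial.map θ)).IsPrime := Ideal.comap_isPrime _ 𝔮'
  obtain ⟨κ, hκ⟩ := LogInd.exists_minor hprime hI
  refine ⟨U.map θ, fun j => MvPolynomial.map θ (F j), fun j => MvPolynomial.map θ (w j),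
    fun j => MvPolynomial.map θ (u j), fun i => MvPolynomial.map θ (g i), l4_pres_map θ hP,
    hcard, ?_, fun j => ⟨?_, (hF j).2.1, (hF j).2.2⟩, fun i => ?_, ?_⟩
  · rw [Std.map_hL]
    exact hUh
  · change MvPolynomial.map θ (F j) = MvPolynomial.map θ (w j) *
      ∏ i, MvPolynomial.map θ (g i) ^ e j i - MvPolynomial.map θ (u j) * C (θ (h j))
    rw [(hF j).1, map_sub, map_mul, map_mul, map_prod, map_C]
    simp only [map_pow]
  · obtain ⟨hg, a, ha, haK⟩ := hK i
    refine ⟨Ideal.mem_map_of_mem _ hg, MvPolynomial.map θ a, ha, fun f hf => ?_⟩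
    have hr : J.map (MvPolynomial.map θ) ⊔ Ideal.span {MvPolynomial.map θ (g i)} =
        (J ⊔ Ideal.span {g i}).map (MvPolynomial.map θ) := by
      rw [Ideal.map_sup, Ideal.map_span, Set.image_singleton]
    rw [hr]
    refine Submodule.span_induction (p := fun f _ => MvPolynomial.map θ a * f ∈
      (J ⊔ Ideal.span {g i}).map (MvPolynomial.map θ)) ?_ ?_ ?_ ?_ hf
    · rintro _ ⟨x, hx, rfl⟩
      rw [← map_mul]
      exact Ideal.mem_map_of_mem _ (haK x hx)
    · rw [mul_zero]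
      exact Ideal.zero_mem _
    · intro x y _ _ hx hy
      rw [mul_add]
      exact Ideal.add_mem _ hx hy
    · intro c x _ hx
      rw [smul_eq_mul, mul_left_comm]
      exact Ideal.mul_mem_left _ _ hx
  · refine logInd_of_minor hq κ ?_
    have hM : logMat (U.map θ) e (fun j => MvPolynomial.map θ (w j))
        (fun j => MvPolynomial.map θ (u j)) (fun i => MvPolynomial.map θ (g i)) =
        (logMat U e w u g).map (MvPolynomial.map θ) := by
      refine Matrix.ext fun i k => ?_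
      rw [Matrix.map_apply]
      rcases i with j | i
      · rcases k with i' | t
        · change MvPolynomial.map θ (w j) * MvPolynomial.map θ (u j) *
            (e j i' : MvPolynomial σ R') = MvPolynomial.map θ (w j * u j * (e j i' : MvPolynomial σ R))
          rw [map_mul, map_mul, map_natCast]
        · change MvPolynomial.map θ (u j) * (U.map θ).vf t.1 (MvPolynomial.map θ (w j)) -
            MvPolynomial.map θ (w j) * (U.map θ).vf t.1 (MvPolynomial.map θ (u j)) =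
            MvPolynomial.map θ (u j * U.vf t.1 (w j) - w j * U.vf t.1 (u j))
          rw [Std.map_vfL, Std.map_vfL, map_sub, map_mul, map_mul]
      · rcases k with i' | t
        · change (if i = i' then - MvPolynomial.map θ (g i) else 0) =
            MvPolynomial.map θ (if i = i' then - g i else 0)
          split_ifs
          · rw [map_neg]
          · rw [map_zero]
        · change (U.map θ).vf t.1 (MvPolynomial.map θ (g i)) = MvPolynomial.map θ (U.vf t.1 (g i))
          rw [Std.map_vfL]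
    have hd : ((logMat (U.map θ) e (fun j => MvPolynomial.map θ (w j))
        (fun j => MvPolynomial.map θ (u j)) (fun i => MvPolynomial.map θ (g i))).submatrix id κ).det =
        MvPolynomial.map θ ((logMat U e w u g).submatrix id κ).det := by
      rw [hM, RingHom.map_det]
      rfl
    intro hm
    refine hκ ?_
    rw [Ideal.mem_comap, ← hd]
    exact hm

/-- TASK L4c -/
theorem LogPt.unit_mul {η : Fin l → R} (hη : ∀ j, IsUnit (η j)) (hq : 𝔮.IsPrime)
    (hT : LogPt m e (fun j => η j * h j) J K 𝔮) : LogPt m e h J K 𝔮 := by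
  obtain ⟨U, F, w, u, g, hP, hcard, hUh, hF, hK, hI⟩ := hT
  have hC : ∀ j, IsUnit (C (η j) : MvPolynomial σ R) := fun j => (hη j).map C
  have hCq : ∀ j, (C (η j) : MvPolynomial σ R) ∉ 𝔮 := fun j hm =>
    hq.ne_top (Ideal.eq_top_of_isUnit_mem _ hm (hC j))
  refine ⟨U, F, w, fun j => u j * C (η j), g, hP, hcard, hUh, fun j => ⟨?_, (hF j).2.1, ?_⟩, hK, ?_⟩
  · rw [(hF j).1, C_mul]
    ring
  · intro hm
    rcases hq.mem_or_mem hm with h1 | h1
    · exact (hF j).2.2 h1
    · exact hCq j h1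
  · intro b c h1 h2
    have h3 := hI (fun j => b j * C (η j)) c (fun i => ?_) (fun t ht => ?_)
    · exact ⟨fun j => (hq.mem_or_mem (h3.1 j)).resolve_right (hCq j), h3.2⟩
    · have h4 := h1 i
      have h5 : ∑ j, b j * (w j * (u j * C (η j)) * (e j i : MvPolynomial σ R)) =
          ∑ j, b j * C (η j) * (w j * u j * (e j i : MvPolynomial σ R)) :=
        Finset.sum_congr rfl fun j _ => by ring
      rw [h5] at h4
      exact h4
    · have h4 := h2 t ht
      have h5 : ∑ j, b j * (u j * C (η j) * U.vf t (w j) - w j * U.vf t (u j * C (η j))) =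
          ∑ j, b j * C (η j) * (u j * U.vf t (w j) - w j * U.vf t (u j)) := by
        refine Finset.sum_congr rfl fun j _ => ?_
        have hDC : U.vf t (C (η j)) = 0 := by
          have := (U.vf t).map_algebraMap (η j)
          rwa [MvPolynomial.algebraMap_eq] at this
        rw [Derivation.leibniz, hDC]
        simp only [smul_eq_mul]
        ring
      rw [h5] at h4
      exact h4

end Pool.Agent.Lib.MP_6a3dac_ag.LS
end

section

/-!
# Contraction of homogeneous ideals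
-/

set_option autoImplicit false

namespace Pool.Agent.Lib.MP_6a3dac_ag.LS

open MvPolynomial NumberField IsDedekindDomain
open Pool.Agent.Lib.MP_6a3dac_ag.DNF Pool.Agent.Lib.MP_6a3dac_ag.Bert
open Pool.Agent.Lib.MP_6a3dac_ag.Fam

variable {E : Type} [Field E] [NumberField E] {P : HeightOneSpectrum (𝓞 E)} {n s : ℕ}

/-- Every homogeneous ideal over `locRing E P` is the extension of a homogeneous ideal over the
ring of integers. -/
theorem exists_homIdeal_over (K : HomIdeal (locRing E P) n) :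
    ∃ K' : HomIdeal (𝓞 E) n, bc (algebraMap (𝓞 E) (locRing E P)) K' = K := by
  have hcomp : ∀ (f : MvPolynomial (Fin n) (𝓞 E)) (i : ℕ),
      MvPolynomial.map (algebraMap (𝓞 E) (locRing E P)) (homogeneousComponent i f) =
        homogeneousComponent i (MvPolynomial.map (algebraMap (𝓞 E) (locRing E P)) f) := by
    intro f i
    ext d
    rw [coeff_map, coeff_homogeneousComponent, coeff_homogeneousComponent, coeff_map]
    split_ifs
    · rfl
    · rw [map_zero]
  have h2 : (K.ideal.comap (MvPolynomial.map (algebraMap (𝓞 E) (locRing E P)))).map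
      (MvPolynomial.map (algebraMap (𝓞 E) (locRing E P))) = K.ideal := by
    apply le_antisymm Ideal.map_comap_le
    intro q hq
    obtain ⟨m, hm, q₀, h⟩ := exists_C_mul_eq (O := locRing E P) P.asIdeal.primeCompl q
    have hu : IsUnit (C (algebraMap (𝓞 E) (locRing E P) m) :
        MvPolynomial (Fin n) (locRing E P)) :=
      (IsLocalization.map_units (locRing E P) (⟨m, hm⟩ : P.asIdeal.primeCompl)).map C
    rw [← Ideal.unit_mul_mem_iff_mem _ hu, ← h]
    apply Ideal.mem_map_of_mem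
    rw [Ideal.mem_comap, h]
    exact Ideal.mul_mem_left _ _ hq
  refine ⟨⟨K.ideal.comap (MvPolynomial.map (algebraMap (𝓞 E) (locRing E P))),
    fun f hf i => ?_⟩, ?_⟩
  · rw [Ideal.mem_comap] at hf ⊢
    rw [hcomp]
    exact K.homog _ hf i
  · cases K
    exact (HomIdeal.mk.injEq ..).mpr h2

/-- Homogeneous ideals which contain nonzero constants over `locRing E P` contain a common
nonzero constant. -/
theorem exists_const_mem {K : Fin s → HomIdeal (𝓞 E) n}
    (h : ∀ k, ∃ x : locRing E P, x ≠ 0 ∧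
      C x ∈ (bc (algebraMap (𝓞 E) (locRing E P)) (K k)).ideal) :
    ∃ x : 𝓞 E, x ≠ 0 ∧ ∀ k, C x ∈ (K k).ideal := by
  have h1 : ∀ k, ∃ x : 𝓞 E, x ≠ 0 ∧ C x ∈ (K k).ideal := by
    intro k
    obtain ⟨x, hx, hxK⟩ := h k
    obtain ⟨⟨a, m⟩, ham⟩ := IsLocalization.surj P.asIdeal.primeCompl x
    dsimp only at ham
    have ha : a ≠ 0 := by
      rintro rfl
      rw [map_zero] at ham
      exact hx ((IsLocalization.map_units (locRing E P) m).mul_left_eq_zero.1 ham)
    have h2 : MvPolynomial.map (algebraMap (𝓞 E) (locRing E P)) (C a) ∈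
        (K k).ideal.map (MvPolynomial.map (algebraMap (𝓞 E) (locRing E P))) := by
      rw [map_C, ← ham, C_mul, mul_comm]
      exact Ideal.mul_mem_left _ _ hxK
    obtain ⟨m', hm', h3⟩ := exists_C_mul_mem P.asIdeal.primeCompl _ h2
    refine ⟨m' * a, mul_ne_zero ?_ ha, by rw [C_mul]; exact h3⟩
    rintro rfl
    exact hm' P.asIdeal.zero_mem
  choose x hx hxK using h1
  refine ⟨∏ k, x k, Finset.prod_ne_zero_iff.2 fun k _ => hx k, fun k => ?_⟩
  rw [← Finset.mul_prod_erase _ _ (Finset.mem_univ k), C_mul]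
  exact Ideal.mul_mem_right _ _ (hxK k)

end Pool.Agent.Lib.MP_6a3dac_ag.LS
end

section

/-!
# Smooth points from equations with independent differentials
-/

set_option autoImplicit false

namespace Pool.Agent.Lib.MP_6a3dac_ag.LS

open MvPolynomial NumberField IsDedekindDomain
open Pool.Agent.Lib.MP_6a3dac_ag.DNF Pool.Agent.Lib.MP_6a3dac_ag.Bert
open Pool.Agent.Lib.MP_6a3dac_ag.Fam

/-- A scheme which is defined near a point by equations with independent differentials is smooth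
there. -/
theorem smoothPt_of_indep {R σ L : Type} [CommRing R] [Fintype σ] [DecidableEq σ] [Field L]
    {J 𝔮 : Ideal (MvPolynomial σ R)} (φ : MvPolynomial σ R →+* L) (hφ : ∀ q, φ q = 0 ↔ q ∈ 𝔮)
    {ρ : Type} [Fintype ρ] [DecidableEq ρ] {m : ℕ} (f : ρ → MvPolynomial σ R)
    (s₀ : MvPolynomial σ R) (hfJ : ∀ k, f k ∈ J) (hs : φ s₀ ≠ 0)
    (hle : ∀ q ∈ J, s₀ * q ∈ Ideal.span (Set.range f))
    (hind : ∀ y : ρ → L, (∀ t, ∑ k, y k * φ (pderiv t (f k)) = 0) → y = 0)
    (hcard : m + Fintype.card ρ = Fintype.card σ) (hρ : 0 < Fintype.card ρ) :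
    SmoothPt m J 𝔮 := by
  classical
  obtain ⟨k₀⟩ : Nonempty ρ := Fintype.card_pos_iff.1 hρ
  obtain ⟨U, hU, hUs, hUc, hUΔ⟩ := exists_std φ (fun k : {k : ρ // k ≠ k₀} => f k.1) s₀ (by
    intro y hy
    have h1 := hind (fun k => if h : k = k₀ then 0 else y ⟨k, h⟩) (fun t => by
      rw [Fintype.sum_eq_add_sum_subtype_ne _ k₀, dif_pos rfl, zero_mul, zero_add, ← hy t]
      exact Finset.sum_congr rfl fun k _ => by rw [dif_neg k.2])
    funext k
    have h2 := congrFun h1 k.1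
    rw [dif_neg k.2] at h2
    exact h2)
  have hmem : ∀ κ, ∃ k : {k : ρ // k ≠ k₀}, f k.1 = U.g κ := by
    intro κ
    have h1 : U.g κ ∈ Set.range U.g := ⟨κ, rfl⟩
    rw [hU] at h1
    exact h1
  choose kk hkk using hmem
  have hcρ : Fintype.card {k : ρ // k ≠ k₀} + 1 = Fintype.card ρ := by
    rw [Fintype.card_subtype_compl, Fintype.card_subtype_eq]
    omega
  refine ⟨U, f k₀, ⟨fun κ => ?_, hfJ k₀, fun q hq => ?_⟩, by omega, fun h0 => ?_, ?_⟩
  · rw [← hkk]
    exact hfJ _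
  · rw [hUs]
    refine Ideal.span_mono ?_ (hle q hq)
    rintro _ ⟨k, rfl⟩
    by_cases hk : k = k₀
    · rw [hk]
      exact Set.mem_insert _ _
    · refine Set.mem_insert_of_mem _ ?_
      rw [hU]
      exact ⟨⟨k, hk⟩, rfl⟩
  · have h1 := (hφ _).2 h0
    rw [Std.h, hUs, map_mul] at h1
    exact (mul_ne_zero hs hUΔ) h1
  · by_contra hcon
    push Not at hcon
    have hv : LinearIndependent L (fun (k : ρ) (t : σ) => φ (pderiv t (f k))) := by
      rw [Fintype.linearIndependent_iff]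
      intro y hy k
      have h1 := hind y (fun t => by
        have h2 := congrFun hy t
        rw [Finset.sum_apply] at h2
        exact h2)
      rw [h1, Pi.zero_apply]
    refine hv.notMem_span_image (s := {k | k ≠ k₀}) (x := k₀) (fun h => h rfl) ?_
    have h1 : (φ U.Δ) • (fun t : σ => φ (pderiv t (f k₀))) =
        ∑ κ, (∑ l : {l : σ // l ∉ U.T}, φ (U.J.adjugate l κ) * φ (pderiv l.1 (f k₀))) •
          (fun t : σ => φ (pderiv t (f (kk κ).1))) := by
      funext t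
      rw [Pi.smul_apply, smul_eq_mul, ← map_mul, U.delta_mul (pderiv t) (f k₀), map_add, map_sum,
        Finset.sum_eq_zero fun e he => by rw [map_mul, (hφ _).2 (hcon e he), mul_zero], zero_add,
        Finset.sum_apply]
      simp only [Pi.smul_apply, smul_eq_mul, Finset.sum_mul, hkk, map_sum, map_mul]
      rw [Finset.sum_comm]
      exact Finset.sum_congr rfl fun κ _ => Finset.sum_congr rfl fun l _ => by ring
    have h2 : (φ U.Δ) • (fun t : σ => φ (pderiv t (f k₀))) ∈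
        Submodule.span L ((fun (k : ρ) (t : σ) => φ (pderiv t (f k))) '' {k | k ≠ k₀}) := by
      rw [h1]
      exact Submodule.sum_mem _ fun κ _ => Submodule.smul_mem _ _
        (Submodule.subset_span ⟨(kk κ).1, (kk κ).2, rfl⟩)
    have h3 := Submodule.smul_mem _ (φ U.Δ)⁻¹ h2
    rwa [smul_smul, inv_mul_cancel₀ hUΔ, one_smul] at h3

variable {E : Type} [Field E] [NumberField E] {P : HeightOneSpectrum (𝓞 E)}

/-- Clearing denominators in the equations. -/
theorem m2_descend {σ L : Type} [Fintype σ] [DecidableEq σ] [Field L]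
    (φ : MvPolynomial σ (locRing E P) →+* L) {ρ : Type} [Fintype ρ]
    {J : Ideal (MvPolynomial σ (𝓞 E))} (f' : ρ → MvPolynomial σ (locRing E P))
    (s' : MvPolynomial σ (locRing E P))
    (hf : ∀ k, f' k ∈ J.map (MvPolynomial.map (algebraMap (𝓞 E) (locRing E P))))
    (hs : φ s' ≠ 0)
    (hle : ∀ q ∈ J.map (MvPolynomial.map (algebraMap (𝓞 E) (locRing E P))),
      s' * q ∈ Ideal.span (Set.range f'))
    (hind : ∀ y : ρ → L, (∀ t, ∑ k, y k * φ (pderiv t (f' k)) = 0) → y = 0) :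
    ∃ (f : ρ → MvPolynomial σ (𝓞 E)) (s₀ : MvPolynomial σ (𝓞 E)), (∀ k, f k ∈ J) ∧
      φ (MvPolynomial.map (algebraMap (𝓞 E) (locRing E P)) s₀) ≠ 0 ∧
      (∀ q ∈ J, s₀ * q ∈ Ideal.span (Set.range f)) ∧
      ∀ y : ρ → L, (∀ t, ∑ k, y k *
        φ (MvPolynomial.map (algebraMap (𝓞 E) (locRing E P)) (pderiv t (f k))) = 0) → y = 0 := by
  classical
  have hunit : ∀ z ∈ P.asIdeal.primeCompl,
      IsUnit (C (algebraMap (𝓞 E) (locRing E P) z) : MvPolynomial σ (locRing E P)) :=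
    fun z hz => (IsLocalization.map_units (locRing E P) (⟨z, hz⟩ : P.asIdeal.primeCompl)).map C
  have h1 : ∀ k, ∃ z ∈ P.asIdeal.primeCompl, ∃ q : MvPolynomial σ (𝓞 E), q ∈ J ∧
      MvPolynomial.map (algebraMap (𝓞 E) (locRing E P)) q =
        C (algebraMap (𝓞 E) (locRing E P) z) * f' k := by
    intro k
    obtain ⟨z, hz, q, hq⟩ := exists_C_mul_eq (O := locRing E P) P.asIdeal.primeCompl (f' k)
    obtain ⟨z', hz', hq'⟩ := exists_C_mul_mem (O := locRing E P) P.asIdeal.primeCompl J (h := q) (by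
      rw [hq]
      exact Ideal.mul_mem_left _ _ (hf k))
    refine ⟨z' * z, mul_mem hz' hz, C z' * q, hq', ?_⟩
    rw [map_mul, map_C, hq, map_mul, C_mul, mul_assoc]
  choose z hz f hfJ hfz using h1
  have hspan : Ideal.span (Set.range f') ≤
      (Ideal.span (Set.range f)).map (MvPolynomial.map (algebraMap (𝓞 E) (locRing E P))) := by
    rw [Ideal.span_le]
    rintro _ ⟨k, rfl⟩
    rw [SetLike.mem_coe, ← Ideal.unit_mul_mem_iff_mem _ (hunit (z k) (hz k)), ← hfz]
    exact Ideal.mem_map_of_mem _ (Ideal.subset_span ⟨k, rfl⟩)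
  obtain ⟨zs, hzs, s₁, hs₁⟩ := exists_C_mul_eq (O := locRing E P) P.asIdeal.primeCompl s'
  obtain ⟨G, hG⟩ := (isNoetherianRing_iff_ideal_fg _).1 inferInstance J
  have h2 : ∀ q ∈ J, ∃ w ∈ P.asIdeal.primeCompl, C w * (s₁ * q) ∈ Ideal.span (Set.range f) := by
    intro q hq
    refine exists_C_mul_mem (O := locRing E P) P.asIdeal.primeCompl _ ?_
    rw [map_mul, hs₁, mul_assoc]
    exact Ideal.mul_mem_left _ _ (hspan (hle _ (Ideal.mem_map_of_mem _ hq)))
  choose! w hw hwG using h2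
  have hGJ : ∀ q ∈ G, q ∈ J := fun q hq => hG ▸ Ideal.subset_span hq
  refine ⟨f, C (∏ q ∈ G, w q) * s₁, hfJ, ?_, ?_, ?_⟩
  · rw [map_mul, map_mul, map_C, hs₁, map_mul]
    refine mul_ne_zero ((hunit _ ?_).map φ).ne_zero (mul_ne_zero ((hunit _ hzs).map φ).ne_zero hs)
    exact Submonoid.prod_mem _ fun q hq => hw q (hGJ q hq)
  · have h3 : J ≤ (Ideal.span (Set.range f)).colon {C (∏ q ∈ G, w q) * s₁} := by
      rw [← hG, Ideal.span_le]
      intro q hq
      rw [SetLike.mem_coe, Submodule.mem_colon_singleton, smul_eq_mul]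
      rw [← Finset.mul_prod_erase _ _ hq, C_mul]
      have h4 := Ideal.mul_mem_left _ (C (∏ x ∈ G.erase q, w x)) (hwG q (hGJ q hq))
      convert h4 using 1
      ring
    intro q hq
    have h5 := h3 hq
    rw [Submodule.mem_colon_singleton, smul_eq_mul] at h5
    rw [mul_comm]
    exact h5
  · intro y hy
    have h6 := hind (fun k => y k * φ (C (algebraMap (𝓞 E) (locRing E P) (z k)))) (fun t => by
      rw [← hy t]
      refine Finset.sum_congr rfl fun k _ => ?_
      rw [← pderiv_map, hfz, Derivation.leibniz, pderiv_C, smul_zero, add_zero, smul_eq_mul, map_mul]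
      ring)
    funext k
    have h7 := congrFun h6 k
    exact (mul_eq_zero.1 h7).resolve_right ((hunit _ (hz k)).map φ).ne_zero

end Pool.Agent.Lib.MP_6a3dac_ag.LS
end
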