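import Pool.Agent.Lib.MP_6a3dac_ag.Mg.G036
import Pool.Agent.Lib.MP_6a3dac_ag.Mg.G067

section

/-!
# Smooth complete intersections of forms of the same degree over finite fields: the tame case
-/

set_option autoImplicit false

namespace Pool.Agent.Lib.MP_6a3dac_ag.Sys

open MvPolynomial Pool.Agent.Lib.MP_6a3dac_ag.DNF

/-- the multinomial theorem in terms of `form` -/
lemma a2_pow {n D : ℕ} {E : Type} [CommRing E] (b : Fin (n + 1) → E) :
    form (fun μ : Mono n D =>
      (Nat.multinomial Finset.univ (fun i => (μ.1 i : ℕ)) : E) * ∏ i, b i ^ (μ.1 i : ℕ))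
      = (∑ i, C (b i) * X i) ^ D := by
  classical
  rw [Finset.sum_pow_eq_sum_piAntidiag]
  unfold form
  refine Finset.sum_bij (fun μ _ => fun i => (μ.1 i : ℕ)) ?_ ?_ ?_ ?_
  · intro μ _
    rw [Finset.mem_piAntidiag]
    exact ⟨μ.2, fun i _ => Finset.mem_univ _⟩
  · intro μ _ ν _ h
    apply Subtype.ext
    funext i
    exact Fin.ext (congrFun h i)
  · intro f hf
    rw [Finset.mem_piAntidiag] at hf
    have hle : ∀ i, f i ≤ D := by
      intro i
      rw [← hf.1]
      exact Finset.single_le_sum (f := f) (fun _ _ => Nat.zero_le _) (Finset.mem_univ i)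
    refine ⟨⟨fun i => ⟨f i, Nat.lt_succ_of_le (hle i)⟩, hf.1⟩, Finset.mem_univ _, rfl⟩
  · intro μ _
    rw [map_mul, map_natCast, map_prod, mul_assoc, ← Finset.prod_mul_distrib]
    congr 1
    apply Finset.prod_congr rfl
    intro i _
    rw [map_pow, mul_pow]

lemma a2_form_sum {n D : ℕ} {E : Type} [CommRing E] {ι : Type} (s : Finset ι)
    (w : ι → E) (u : ι → Mono n D → E) :
    form (fun μ => ∑ i ∈ s, w i * u i μ) = ∑ i ∈ s, C (w i) * form (u i) := by
  unfold form
  simp only [map_sum, map_mul, Finset.sum_mul, Finset.mul_sum]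
  rw [Finset.sum_comm]
  simp only [mul_assoc]

/-- **The tame case**: `c` forms of the same degree `D`, `D` invertible in the finite field `k`,
without singular geometric points. With the extension `M / k` of degree `n + 1`, a generator `θ` and
a basis `e` of `M` take `f_k = Tr (θ ^ k * (∑ x_i e_i) ^ D)`. -/
theorem exists_noSing_tame {n c D : ℕ} {k : Type} [Field k] [Finite k] (h2 : 2 ≤ D)
    (hD : (D : k) ≠ 0) :
    ∃ a : Coef n (fun _ : Fin c => D) → k, NoSing a := by
  classical
  obtain ⟨p, hp⟩ := CharP.exists k
  have : Fact p.Prime := ⟨CharP.char_is_prime k p⟩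
  let M := FiniteField.Extension k p (n + 1)
  have hrank : Module.finrank k M = n + 1 := FiniteField.finrank_extension k p (n + 1)
  let bas : Module.Basis (Fin (n + 1)) k M := Module.finBasisOfFinrankEq k M hrank
  let pb : PowerBasis k M := Field.powerBasisOfFiniteOfSeparable k M
  let θ : M := pb.gen
  refine ⟨fun μ => (Nat.multinomial Finset.univ (fun i => (μ.2.1 i : ℕ)) : k) *
    Algebra.trace k M (θ ^ (μ.1 : ℕ) * ∏ i, bas i ^ (μ.2.1 i : ℕ)), ?_⟩
  intro L _ _ i₀ j₀ x y hx hy hsing
  -- pass to the algebraic closure
  let E := AlgebraicClosure L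
  have hkE : ∀ r : k, algebraMap k E r = algebraMap L E (algebraMap k L r) :=
    fun r => IsScalarTower.algebraMap_apply k L E r
  let X' : (M →ₐ[k] E) → E := fun σ => ∑ i, σ (bas i) * algebraMap L E (x i)
  have hmap : ∀ κ : Fin c, map (algebraMap L E) (sform (fun μ : Coef n (fun _ : Fin c => D) =>
      algebraMap k L ((Nat.multinomial Finset.univ (fun i => (μ.2.1 i : ℕ)) : k) *
    Algebra.trace k M (θ ^ (μ.1 : ℕ) * ∏ i, bas i ^ (μ.2.1 i : ℕ)))) κ) =
      ∑ σ : M →ₐ[k] E, C (σ θ ^ (κ : ℕ)) * (∑ i, C (σ (bas i)) * X i) ^ D := by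
    intro κ
    have h1 : map (algebraMap L E) (sform (fun μ : Coef n (fun _ : Fin c => D) =>
      algebraMap k L ((Nat.multinomial Finset.univ (fun i => (μ.2.1 i : ℕ)) : k) *
    Algebra.trace k M (θ ^ (μ.1 : ℕ) * ∏ i, bas i ^ (μ.2.1 i : ℕ)))) κ) =
      form (fun μ : Mono n D => ∑ σ : M →ₐ[k] E, σ θ ^ (κ : ℕ) *
        ((Nat.multinomial Finset.univ (fun i => (μ.1 i : ℕ)) : E) *
          ∏ i, σ (bas i) ^ (μ.1 i : ℕ))) := by
      unfold sform form
      rw [map_sum]
      apply Finset.sum_congr rfl
      intro μ _
      rw [map_mul, map_C, map_prod]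
      congr 1
      · congr 1
        rw [← hkE, map_mul, map_natCast, trace_eq_sum_embeddings E, Finset.mul_sum]
        apply Finset.sum_congr rfl
        intro σ _
        rw [map_mul, map_pow, map_prod]
        simp only [map_pow]
        ring
      · apply Finset.prod_congr rfl
        intro i _
        rw [map_pow, map_X]
    rw [h1, a2_form_sum]
    apply Finset.sum_congr rfl
    intro σ _
    rw [a2_pow]
  obtain ⟨hs1, hs2⟩ := hsing
  have hev : ∀ P : MvPolynomial (Fin (n + 1)) L, algebraMap L E (eval x P) =
      eval (fun i => algebraMap L E (x i)) (map (algebraMap L E) P) := by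
    intro P
    rw [eval_map, eval₂_eq_eval_map]
    have := eval₂_comp_left (algebraMap L E) (RingHom.id L) x P
    rw [RingHom.comp_id] at this
    rw [← eval₂_eq_eval_map]
    rw [← eval₂_id]
    exact this
  have hlin : ∀ σ : M →ₐ[k] E, eval (fun i => algebraMap L E (x i))
      (∑ i, C (σ (bas i)) * X i) = X' σ := by
    intro σ
    simp [X']
  -- the equations
  have e1 : ∀ κ : Fin c, ∑ σ : M →ₐ[k] E, σ θ ^ (κ : ℕ) * X' σ ^ D = 0 := by
    intro κ
    have h := congrArg (algebraMap L E) (hs1 κ)
    rw [map_zero, hev, hmap, map_sum] at h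
    rw [← h]
    apply Finset.sum_congr rfl
    intro σ _
    rw [map_mul, eval_C, map_pow, hlin]
  have e2 : ∀ l, ∑ σ : M →ₐ[k] E, (D * (∑ κ : Fin c, algebraMap L E (y κ) * σ θ ^ (κ : ℕ)) *
      X' σ ^ (D - 1)) * σ (bas l) = 0 := by
    intro l
    have h := congrArg (algebraMap L E) (hs2 l)
    rw [map_zero, map_sum] at h
    rw [← h]
    simp only [Finset.mul_sum, Finset.sum_mul]
    rw [Finset.sum_comm]
    apply Finset.sum_congr rfl
    intro κ _
    rw [map_mul, hev, ← pderiv_map, hmap, map_sum, map_sum, Finset.mul_sum]
    apply Finset.sum_congr rfl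
    intro σ _
    rw [pderiv_C_mul, map_mul, eval_C, Derivation.leibniz_pow]
    simp only [smul_eq_mul, nsmul_eq_mul, map_mul, map_pow, map_natCast, hlin]
    have hd : eval (fun i => algebraMap L E (x i)) (pderiv l (∑ i, C (σ (bas i)) * X i)) =
        σ (bas l) := by
      rw [map_sum, map_sum]
      simp only [pderiv_C_mul, pderiv_X, map_mul, eval_C]
      rw [Finset.sum_eq_single l]
      · simp
      · intro b _ hb
        simp [hb]
      · simp
    rw [hd]
    ring
  -- independence of the embeddings
  have hindep : ∀ v : (M →ₐ[k] E) → E, (∀ l, ∑ σ, v σ * σ (bas l) = 0) → ∀ σ, v σ = 0 := by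
    intro v hv
    have hli := linearIndependent_toLinearMap k M E
    rw [Fintype.linearIndependent_iff] at hli
    apply hli v
    apply bas.ext
    intro l
    rw [LinearMap.sum_apply]
    simp only [LinearMap.smul_apply, smul_eq_mul, LinearMap.zero_apply]
    exact hv l
  have hDE : (D : E) ≠ 0 := by
    intro h
    apply hD
    have : algebraMap k E (D : k) = 0 := by rw [map_natCast]; exact h
    exact (map_eq_zero (algebraMap k E)).1 this
  have hP : ∀ σ : M →ₐ[k] E, X' σ ≠ 0 →
      ∑ κ : Fin c, algebraMap L E (y κ) * σ θ ^ (κ : ℕ) = 0 := by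
    intro σ hσ
    have h := hindep _ e2 σ
    rcases mul_eq_zero.1 h with h | h
    · rcases mul_eq_zero.1 h with h | h
      · exact absurd h hDE
      · exact h
    · exact absurd h (pow_ne_zero _ hσ)
  let P : Polynomial E := ∑ κ : Fin c, Polynomial.C (algebraMap L E (y κ)) * Polynomial.X ^ (κ : ℕ)
  have hPcoef : P.coeff (j₀ : ℕ) = 1 := by
    simp only [P, Polynomial.finsetSum_coeff, Polynomial.coeff_C_mul, Polynomial.coeff_X_pow]
    rw [Finset.sum_eq_single j₀]
    · simp [hy]
    · intro b _ hb
      have : (j₀ : ℕ) ≠ b := fun h => hb (Fin.ext h.symm)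
      simp [this]
    · simp
  have hP0 : P ≠ 0 := by
    intro h
    rw [h] at hPcoef
    simp at hPcoef
  have hc : 0 < c := j₀.pos
  have hPdeg : P.natDegree < c := by
    have : P.natDegree ≤ c - 1 := by
      apply Polynomial.natDegree_sum_le_of_forall_le
      intro κ _
      refine (Polynomial.natDegree_C_mul_X_pow_le _ _).trans ?_
      have := κ.2
      omega
    omega
  have hθ : Function.Injective (fun σ : M →ₐ[k] E => σ θ) := by
    intro σ τ h
    exact pb.algHom_ext h
  let S : Finset (M →ₐ[k] E) := Finset.univ.filter (fun σ => X' σ ≠ 0)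
  have hScard : S.card < c := by
    have h1 : (S.image (fun σ => σ θ)).card = S.card := Finset.card_image_of_injective _ hθ
    have h2 : S.image (fun σ => σ θ) ⊆ P.roots.toFinset := by
      intro z hz
      obtain ⟨σ, hσ, rfl⟩ := Finset.mem_image.1 hz
      rw [Multiset.mem_toFinset, Polynomial.mem_roots hP0, Polynomial.IsRoot.def]
      simp only [P, Polynomial.eval_finsetSum, Polynomial.eval_mul, Polynomial.eval_C,
        Polynomial.eval_pow, Polynomial.eval_X]
      exact hP σ (Finset.mem_filter.1 hσ).2
    have h3 := Finset.card_le_card h2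
    have h4 := Multiset.toFinset_card_le P.roots
    have h5 := Polynomial.card_roots' P
    omega
  -- Vandermonde
  have hpoly : ∀ Q : Polynomial E, Q.natDegree < c → ∑ σ : M →ₐ[k] E, Q.eval (σ θ) * X' σ ^ D = 0 := by
    intro Q hQ
    have h1 : ∀ σ : M →ₐ[k] E, Q.eval (σ θ) * X' σ ^ D =
        ∑ i ∈ Finset.range c, Q.coeff i * (σ θ ^ i * X' σ ^ D) := by
      intro σ
      rw [Polynomial.eval_eq_sum_range' hQ, Finset.sum_mul]
      exact Finset.sum_congr rfl (fun i _ => mul_assoc _ _ _)
    rw [Finset.sum_congr rfl (fun σ _ => h1 σ), Finset.sum_comm]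
    apply Finset.sum_eq_zero
    intro i hi
    rw [← Finset.mul_sum, e1 ⟨i, Finset.mem_range.1 hi⟩, mul_zero]
  have hX0 : ∀ σ, X' σ = 0 := by
    intro σ₀
    by_contra hσ₀
    have hmem : σ₀ ∈ S := Finset.mem_filter.2 ⟨Finset.mem_univ _, hσ₀⟩
    let Q : Polynomial E := ∏ σ ∈ S.erase σ₀, (Polynomial.X - Polynomial.C (σ θ))
    have hQdeg : Q.natDegree < c := by
      have h1 : Q.natDegree ≤ ∑ σ ∈ S.erase σ₀, (Polynomial.X - Polynomial.C (σ θ)).natDegree :=
        Polynomial.natDegree_prod_le _ _
      have h2 : ∑ σ ∈ S.erase σ₀, (Polynomial.X - Polynomial.C (σ θ)).natDegree ≤ S.card := by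
        simp only [Polynomial.natDegree_X_sub_C, Finset.sum_const, smul_eq_mul, mul_one]
        exact Finset.card_le_card (Finset.erase_subset _ _)
      omega
    have h := hpoly Q hQdeg
    rw [Finset.sum_eq_single σ₀] at h
    · rcases mul_eq_zero.1 h with h | h
      · simp only [Q, Polynomial.eval_prod, Polynomial.eval_sub, Polynomial.eval_X,
          Polynomial.eval_C] at h
        rw [Finset.prod_eq_zero_iff] at h
        obtain ⟨σ, hσ, h⟩ := h
        exact (Finset.mem_erase.1 hσ).1 (hθ (sub_eq_zero.1 h)).symm
      · exact hσ₀ (by simpa using (pow_eq_zero_iff (by omega)).1 h)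
    · intro σ _ hσ
      by_cases h1 : X' σ = 0
      · rw [h1, zero_pow (by omega), mul_zero]
      · have : Q.eval (σ θ) = 0 := by
          simp only [Q, Polynomial.eval_prod, Polynomial.eval_sub, Polynomial.eval_X,
            Polynomial.eval_C]
          apply Finset.prod_eq_zero (i := σ)
          · exact Finset.mem_erase.2 ⟨hσ, Finset.mem_filter.2 ⟨Finset.mem_univ _, h1⟩⟩
          · exact sub_self _
        rw [this, zero_mul]
    · intro h
      exact absurd (Finset.mem_univ _) h
  -- the matrix of the embeddings is invertible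
  have hcardM : Fintype.card (M →ₐ[k] E) = n + 1 := by
    rw [AlgHom.card, hrank]
  let eqv : Fin (n + 1) ≃ (M →ₐ[k] E) := (Fintype.equivFinOfCardEq hcardM).symm
  let A : Matrix (Fin (n + 1)) (Fin (n + 1)) E := fun i j => eqv i (bas j)
  have hdet : A.det ≠ 0 := by
    intro h
    obtain ⟨v, hv, hvA⟩ := Matrix.exists_vecMul_eq_zero_iff.2 h
    apply hv
    funext i
    have := hindep (fun σ => v (eqv.symm σ)) (by
      intro l
      have h1 : ∑ i, v i * A i l = 0 := congrFun hvA l
      rw [← h1, ← eqv.sum_comp]
      simp [A]) (eqv i)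
    simpa using this
  have hx0 : (fun i => algebraMap L E (x i)) = 0 := by
    by_contra hne
    apply hdet
    apply Matrix.exists_mulVec_eq_zero_iff.1
    refine ⟨_, hne, ?_⟩
    funext i
    exact hX0 (eqv i)
  have := congrFun hx0 i₀
  simp [hx] at this

end Pool.Agent.Lib.MP_6a3dac_ag.Sys
end

section

/-!
# Smooth complete intersections over fields of positive characteristic: the wild case

If the characteristic divides all degrees, the forms
`∑_{i ≤ n - c} x_i ^ (d_k - 1) x_{i + k + 1} + x_{n - c + 1 + k} ^ d_k`, `0 ≤ k < c`, have no singular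
geometric points: the gradients have different last nonzero coordinates.
-/

set_option autoImplicit false

namespace Pool.Agent.Lib.MP_6a3dac_ag.Sys

open MvPolynomial Pool.Agent.Lib.MP_6a3dac_ag.DNF

/-- The variable with the index `j`. -/
noncomputable def wv (n : ℕ) (R : Type) [CommRing R] (j : ℕ) : MvPolynomial (Fin (n + 1)) R :=
  if h : j < n + 1 then X ⟨j, h⟩ else 0

/-- The forms of the wild system. -/
noncomputable def wildForm (n c : ℕ) (R : Type) [CommRing R] (e k : ℕ) :
    MvPolynomial (Fin (n + 1)) R :=
  ∑ i ∈ Finset.range (n - c + 1), wv n R i ^ (e - 1) * wv n R (i + k + 1) +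
    wv n R (n - c + 1 + k) ^ e

theorem wv_isHomogeneous (n : ℕ) (R : Type) [CommRing R] (j : ℕ) :
    (wv n R j).IsHomogeneous 1 := by
  rw [wv]
  split_ifs
  · exact isHomogeneous_X _ _
  · exact isHomogeneous_zero _ _ _

theorem wildForm_isHomogeneous (n c : ℕ) (R : Type) [CommRing R] {e : ℕ} (he : 1 ≤ e) (k : ℕ) :
    (wildForm n c R e k).IsHomogeneous e := by
  refine IsHomogeneous.add (IsHomogeneous.sum _ _ _ fun i _ => ?_) ?_
  · have h := ((wv_isHomogeneous n R i).pow (e - 1)).mul (wv_isHomogeneous n R (i + k + 1))
    rwa [one_mul, Nat.sub_add_cancel he] at h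
  · simpa using (wv_isHomogeneous n R (n - c + 1 + k)).pow e

theorem map_wv (n : ℕ) {R S : Type} [CommRing R] [CommRing S] (φ : R →+* S) (j : ℕ) :
    map φ (wv n R j) = wv n S j := by
  rw [wv, wv]
  split_ifs <;> simp

theorem map_wildForm (n c : ℕ) {R S : Type} [CommRing R] [CommRing S] (φ : R →+* S) (e k : ℕ) :
    map φ (wildForm n c R e k) = wildForm n c S e k := by
  simp only [wildForm, map_add, map_sum, map_mul, map_pow, map_wv]

/-- The coordinate with the index `j`. -/
def wc {n : ℕ} {L : Type} [Field L] (x : Fin (n + 1) → L) (j : ℕ) : L :=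
  if h : j < n + 1 then x ⟨j, h⟩ else 0

theorem eval_wv {n : ℕ} {L : Type} [Field L] (x : Fin (n + 1) → L) (j : ℕ) :
    eval x (wv n L j) = wc x j := by
  rw [wv, wc]
  split_ifs <;> simp

theorem eval_pderiv_wv {n : ℕ} {L : Type} [Field L] (x : Fin (n + 1) → L) (l : Fin (n + 1))
    (j : ℕ) : eval x (pderiv l (wv n L j)) = if j = l.val then 1 else 0 := by
  classical
  rw [wv]
  split_ifs with h1 h2 h2
  · have h3 : (⟨j, h1⟩ : Fin (n + 1)) = l := Fin.ext h2
    rw [h3, pderiv_X_self, map_one]
  · rw [pderiv_X_of_ne, map_zero]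
    intro h3
    exact h2 (congrArg Fin.val h3)
  · exact absurd (h2 ▸ l.isLt) h1
  · simp

theorem eval_wildForm {n c : ℕ} {L : Type} [Field L] (x : Fin (n + 1) → L) (e k : ℕ) :
    eval x (wildForm n c L e k) =
      ∑ i ∈ Finset.range (n - c + 1), wc x i ^ (e - 1) * wc x (i + k + 1) +
        wc x (n - c + 1 + k) ^ e := by
  simp only [wildForm, map_add, map_sum, map_mul, map_pow, eval_wv]

theorem eval_pderiv_wildForm {n c : ℕ} {L : Type} [Field L] (x : Fin (n + 1) → L)
    (l : Fin (n + 1)) (e k : ℕ) (he : (e : L) = 0) :
    eval x (pderiv l (wildForm n c L e k)) =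
      ∑ i ∈ Finset.range (n - c + 1), (wc x i ^ (e - 1) * (if i + k + 1 = l.val then 1 else 0) +
        wc x (i + k + 1) * ((e - 1 : ℕ) * wc x i ^ (e - 1 - 1) * if i = l.val then 1 else 0)) := by
  rw [wildForm, map_add, map_add, pderiv_pow, map_mul, map_mul, map_natCast, he, zero_mul, zero_mul,
    add_zero, map_sum, map_sum]
  refine Finset.sum_congr rfl fun i _ => ?_
  rw [Derivation.leibniz, smul_eq_mul, smul_eq_mul, pderiv_pow]
  simp only [map_add, map_mul, map_pow, map_natCast, eval_wv, eval_pderiv_wv]

/-- **The wild case.** -/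
theorem exists_noSing_wild {n c : ℕ} (hcn : c ≤ n) {d : Fin c → ℕ} (hd : ∀ k, 3 ≤ d k) {k : Type}
    [Field k] (hp : ∀ j, (d j : k) = 0) : ∃ a : Coef n d → k, NoSing a := by
  classical
  choose a ha using fun j : Fin c => SmoothAlg.form_exists
    (wildForm_isHomogeneous n c k (e := d j) (by have := hd j; omega) j.val)
  refine ⟨fun μ => a μ.1 μ.2, ?_⟩
  intro L _ _ i j x y hx hy hs
  have hform : ∀ m : Fin c, sform (fun μ : Coef n d => algebraMap k L (a μ.1 μ.2)) m =
      wildForm n c L (d m) m.val := by
    intro m
    rw [← map_wildForm n c (algebraMap k L), ← ha, SmoothAlg.form_map]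
    rfl
  have h0 : ∀ m : Fin c, eval x (wildForm n c L (d m) m.val) = 0 := fun m => by
    rw [← hform]
    exact hs.1 m
  have hpL : ∀ m, (d m : L) = 0 := fun m => by
    rw [← map_natCast (algebraMap k L), hp, map_zero]
  have h1 : ∀ l : Fin (n + 1), ∑ m : Fin c, y m * ∑ i ∈ Finset.range (n - c + 1),
      (wc x i ^ (d m - 1) * (if i + m.val + 1 = l.val then 1 else 0) +
        wc x (i + m.val + 1) * ((d m - 1 : ℕ) * wc x i ^ (d m - 1 - 1) *
          if i = l.val then 1 else 0)) = 0 := by
    intro l
    refine Eq.trans (Finset.sum_congr rfl fun m _ => ?_) (hs.2 l)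
    change _ = y m * eval x (pderiv l (sform (fun μ : Coef n d => algebraMap k L (a μ.1 μ.2)) m))
    rw [hform, eval_pderiv_wildForm _ _ _ _ (hpL m)]
  by_cases hblock : ∃ i ≤ n - c, wc x i ≠ 0
  · -- the last nonzero coordinate of the first block
    obtain ⟨I, ⟨hI1, hI2⟩, hI3⟩ : ∃ I, (I ≤ n - c ∧ wc x I ≠ 0) ∧
        ∀ i, i ≤ n - c → I < i → wc x i = 0 := by
      have h2 : ((Finset.range (n - c + 1)).filter fun i => wc x i ≠ 0).Nonempty := by
        obtain ⟨i, hi, hi0⟩ := hblock
        exact ⟨i, Finset.mem_filter.mpr ⟨Finset.mem_range.mpr (by omega), hi0⟩⟩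
      refine ⟨Finset.max' _ h2, ?_, ?_⟩
      · have h3 := Finset.max'_mem _ h2
        rw [Finset.mem_filter, Finset.mem_range] at h3
        exact ⟨by omega, h3.2⟩
      · intro i hi hlt
        by_contra hne
        have h3 := Finset.le_max' ((Finset.range (n - c + 1)).filter fun i => wc x i ≠ 0) i
          (Finset.mem_filter.mpr ⟨Finset.mem_range.mpr (by omega), hne⟩)
        omega
    have h2 : ∀ t : ℕ, t < c → ∀ m : Fin c, c - 1 - t ≤ m.val → y m = 0 := by
      intro t
      induction t with
      | zero =>
        intro ht m hm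
        have hmc := m.isLt
        have h3 := h1 ⟨I + m.val + 1, by omega⟩
        rw [Finset.sum_eq_single m, Finset.sum_eq_single I] at h3
        · rw [if_pos rfl, if_neg (by simp only; omega), mul_one, mul_zero, mul_zero, add_zero]
            at h3
          exact (mul_eq_zero.mp h3).resolve_right (pow_ne_zero _ hI2)
        · intro i hi hiI
          rw [Finset.mem_range] at hi
          rw [if_neg (by simp only; omega), mul_zero, zero_add]
          split_ifs with h4
          · have h5 : wc x i = 0 := hI3 i (by omega) (by simp only at h4; omega)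
            have := hd m
            rw [h5, zero_pow (by omega)]
            simp
          · simp
        · intro h4
          exact absurd (Finset.mem_range.mpr (by omega)) h4
        · intro m' _ hm'
          have hm'c := m'.isLt
          have hlt : m'.val < m.val := by
            rcases Nat.lt_or_ge m'.val m.val with h | h
            · exact h
            · exact absurd (Fin.ext (by omega)) hm'
          rw [Finset.sum_eq_zero, mul_zero]
          intro i hi
          rw [Finset.mem_range] at hi
          have := hd m'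
          have h6 : wc x i ^ (d m' - 1) * (if i + m'.val + 1 = I + m.val + 1 then 1 else 0) = 0 := by
            split_ifs with h4
            · rw [hI3 i (by omega) (by omega), zero_pow (by omega), zero_mul]
            · rw [mul_zero]
          have h7 : wc x (i + m'.val + 1) * ((d m' - 1 : ℕ) * wc x i ^ (d m' - 1 - 1) *
              if i = I + m.val + 1 then 1 else 0) = 0 := by
            split_ifs with h4
            · rw [hI3 i (by omega) (by omega), zero_pow (by omega)]
              simp
            · simp
          simp only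
          rw [h6, h7, add_zero]
        · intro h4
          exact absurd (Finset.mem_univ _) h4
      | succ t ih =>
        intro ht m hm
        rcases Nat.lt_or_ge m.val (c - 1 - t) with hlt | hge
        · have hmc := m.isLt
          have hih := ih (by omega)
          have h3 := h1 ⟨I + m.val + 1, by omega⟩
          rw [Finset.sum_eq_single m, Finset.sum_eq_single I] at h3
          · rw [if_pos rfl, if_neg (by simp only; omega), mul_one, mul_zero, mul_zero, add_zero]
              at h3
            exact (mul_eq_zero.mp h3).resolve_right (pow_ne_zero _ hI2)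
          · intro i hi hiI
            rw [Finset.mem_range] at hi
            rw [if_neg (by simp only; omega), mul_zero, zero_add]
            split_ifs with h4
            · have h5 : wc x i = 0 := hI3 i (by omega) (by simp only at h4; omega)
              have := hd m
              rw [h5, zero_pow (by omega)]
              simp
            · simp
          · intro h4
            exact absurd (Finset.mem_range.mpr (by omega)) h4
          · intro m' _ hm'
            rcases Nat.lt_or_ge m.val m'.val with hgt | hle
            · rw [hih m' (by omega), zero_mul]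
            · have hlt' : m'.val < m.val := by
                rcases Nat.lt_or_ge m'.val m.val with h | h
                · exact h
                · exact absurd (Fin.ext (by omega)) hm'
              rw [Finset.sum_eq_zero, mul_zero]
              intro i hi
              rw [Finset.mem_range] at hi
              have := hd m'
              have h6 : wc x i ^ (d m' - 1) *
                  (if i + m'.val + 1 = I + m.val + 1 then 1 else 0) = 0 := by
                split_ifs with h4
                · rw [hI3 i (by omega) (by omega), zero_pow (by omega), zero_mul]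
                · rw [mul_zero]
              have h7 : wc x (i + m'.val + 1) * ((d m' - 1 : ℕ) * wc x i ^ (d m' - 1 - 1) *
                  if i = I + m.val + 1 then 1 else 0) = 0 := by
                split_ifs with h4
                · rw [hI3 i (by omega) (by omega), zero_pow (by omega)]
                  simp
                · simp
              simp only
              rw [h6, h7, add_zero]
          · intro h4
            exact absurd (Finset.mem_univ _) h4
        · exact ih (by omega) m hge
    have h3 : y j = 0 := h2 (c - 1) (by have := j.isLt; omega) j (by omega)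
    rw [h3] at hy
    exact zero_ne_one hy
  · -- the first block is zero
    push Not at hblock
    have h2 : ∀ m : Fin c, wc x (n - c + 1 + m.val) = 0 := by
      intro m
      have h3 := h0 m
      rw [eval_wildForm, Finset.sum_eq_zero, zero_add] at h3
      · exact pow_eq_zero_iff (by have := hd m; omega) |>.mp h3
      · intro i hi
        rw [Finset.mem_range] at hi
        have := hd m
        rw [hblock i (by omega), zero_pow (by omega), zero_mul]
    have h3 : x i = 0 := by
      have h4 : x i = wc x i.val := by
        rw [wc, dif_pos i.isLt]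
      rw [h4]
      rcases Nat.lt_or_ge (n - c) i.val with h | h
      · have h5 := h2 ⟨i.val - (n - c + 1), by have := i.isLt; omega⟩
        have h6 : n - c + 1 + (i.val - (n - c + 1)) = i.val := by omega
        simp only [h6] at h5
        exact h5
      · exact hblock _ h
    rw [h3] at hx
    exact zero_ne_one hx

end Pool.Agent.Lib.MP_6a3dac_ag.Sys
end
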