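import Pool.Agent.Lib.MP_6a3dac_ag.Mg.G036
import Pool.Agent.Lib.MP_6a3dac_ag.Mg.G035
import Pool.Agent.Lib.MP_6a3dac_ag.Mg.G066
import Pool.Agent.Lib.MP_6a3dac_ag.Mg.G067
import Pool.Agent.Lib.MP_6a3dac_ag.Mg.G005

section

/-!
# The density of the complete intersections with regular models
-/

set_option autoImplicit false

namespace Pool.Agent.Lib.MP_6a3dac_ag.Sys

open MvPolynomial CategoryTheory Limits AlgebraicGeometry NumberField IsDedekindDomain Filter
  Topology
open Pool.Agent.Lib.MP_6a3dac_ag.DNF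

section Pairs

variable {n c : ℕ} {d : Fin c → ℕ}

theorem aeval_hom {ι A B : Type} [CommRing A] [CommRing B] (θ : A →+* B) (a : ι → A)
    (q : MvPolynomial ι ℤ) : aeval (fun μ => θ (a μ)) q = θ (aeval a q) := by
  rw [aeval_def, aeval_def, eval₂_comp_left]
  congr 1
  exact RingHom.ext_int _ _

/-- A system which is not nodal at `P` satisfies both conditions of one of the pairs. -/
theorem pair_of_not_nodal {g G : Fin (n + 1) × Fin c → MvPolynomial (Coef n d) ℤ}
    (hpair : ∀ (t : Fin (n + 1) × Fin c) (L : Type) [Field L] (a : Coef n d → L)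
      (x : Fin (n + 1) → L) (y : Fin c → L), x t.1 = 1 → y t.2 = 1 → IsSing (sform a) x y →
      aeval a (g t) = 0 ∧ ((hessAt (sform a) t.1 t.2 x y).det = 0 → aeval a (G t) = 0))
    {A : Type} [CommRing A] (P : Ideal A) [hP : P.IsMaximal] (a : Coef n d → A)
    (h : ¬ Nodal fun μ => Ideal.Quotient.mk P (a μ)) :
    ∃ t, aeval a (g t) ∈ P ∧ aeval a (G t) ∈ P := by
  rw [Nodal] at h
  push Not at h
  obtain ⟨L, _, _, i, j, x, y, hx, hy, hs, hdet⟩ := h
  let _ : Field (A ⧸ P) := Ideal.Quotient.field P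
  let θ : A →+* L := (algebraMap (A ⧸ P) L).comp (Ideal.Quotient.mk P)
  have hθ : ∀ z, θ z = 0 → z ∈ P := by
    intro z hz
    rw [← Ideal.Quotient.eq_zero_iff_mem]
    exact (algebraMap (A ⧸ P) L).injective (by rw [map_zero]; exact hz)
  obtain ⟨h1, h2⟩ := hpair (i, j) L (fun μ => θ (a μ)) x y hx hy hs
  refine ⟨(i, j), hθ _ ?_, hθ _ ?_⟩
  · rw [← aeval_hom]
    exact h1
  · rw [← aeval_hom]
    exact h2 hdet

/-- Smoothness of the generic fibre. -/
theorem noSing_of_pair {g G : Fin (n + 1) × Fin c → MvPolynomial (Coef n d) ℤ}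
    (hpair : ∀ (t : Fin (n + 1) × Fin c) (L : Type) [Field L] (a : Coef n d → L)
      (x : Fin (n + 1) → L) (y : Fin c → L), x t.1 = 1 → y t.2 = 1 → IsSing (sform a) x y →
      aeval a (g t) = 0 ∧ ((hessAt (sform a) t.1 t.2 x y).det = 0 → aeval a (G t) = 0))
    {A E : Type} [CommRing A] [Field E] [Algebra A E] [FaithfulSMul A E] (a : Coef n d → A)
    (h : ∀ t, aeval a (g t) ≠ 0) : NoSing fun μ => algebraMap A E (a μ) := by
  intro L _ _ i j x y hx hy hs
  apply h (i, j)
  have h1 := (hpair (i, j) L _ x y hx hy hs).1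
  have h2 : (fun μ => algebraMap E L (algebraMap A E (a μ))) =
      fun μ => ((algebraMap E L).comp (algebraMap A E)) (a μ) := rfl
  rw [h2, aeval_hom, RingHom.comp_apply, map_eq_zero,
    FaithfulSMul.algebraMap_eq_zero_iff] at h1
  exact h1

end Pairs

section Exists

/-- Nodal forms exist over every residue field. -/
theorem exists_nodal_one {n : ℕ} {d : Fin 1 → ℕ} (hd : 3 ≤ d 0) {E : Type} [Field E]
    [NumberField E] (P : HeightOneSpectrum (𝓞 E)) :
    ∃ a : Coef n d → 𝓞 E ⧸ P.asIdeal, Nodal a := by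
  obtain ⟨p, hp, hpP⟩ := rs_exists_prime_mem P
  obtain ⟨q, r, hq1, hq2, hsm⟩ := dens_exists_smooth_class_alg (n := n) hd (max p 2)
    (le_max_right _ _)
  have hq0 : (q : 𝓞 E ⧸ P.asIdeal) = 0 := by
    have h1 : p ∣ q := (hq2 p hp).mpr (le_max_left _ _)
    obtain ⟨w, rfl⟩ := h1
    have h2 : (p : 𝓞 E ⧸ P.asIdeal) = 0 := by
      have h3 := Ideal.Quotient.eq_zero_iff_mem.mpr hpP
      rwa [map_natCast] at h3
    rw [Nat.cast_mul, h2, zero_mul]
  let r' : ∀ k : Fin 1, Mono n (d k) → ℤ :=
    Fin.cases (motive := fun k => Mono n (d k) → ℤ) r fun i => Fin.elim0 i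
  obtain ⟨m, K, hmq, hmK⟩ := hsm (𝓞 E ⧸ P.asIdeal) fun _ => 0
  have hm1 : m = 1 := by
    rw [hq0] at hmq
    exact sub_eq_zero.mp (zero_dvd_iff.mp hmq)
  refine ⟨fun μ => (r' μ.1 μ.2 : ℤ), ?_⟩
  intro L _ _ i j x y hx hy hs
  exfalso
  have hj : j = 0 := Subsingleton.elim _ _
  subst hj
  let θ := algebraMap (𝓞 E ⧸ P.asIdeal) L
  have hform : (form fun μ => (r μ : 𝓞 E ⧸ P.asIdeal) + (q : 𝓞 E ⧸ P.asIdeal) * 0) =
      sform (fun μ : Coef n d => ((r' μ.1 μ.2 : ℤ) : 𝓞 E ⧸ P.asIdeal)) 0 := by
    rw [sform]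
    congr 1
    funext μ
    rw [mul_zero, add_zero]
    rfl
  have h1 := Ideal.mem_map_of_mem ((eval x).comp (map θ)) (hmK i)
  have h2 : (Ideal.span (insert (form fun μ => (r μ : 𝓞 E ⧸ P.asIdeal) +
      (q : 𝓞 E ⧸ P.asIdeal) * 0) (Set.range fun l => pderiv l (form fun μ =>
        (r μ : 𝓞 E ⧸ P.asIdeal) + (q : 𝓞 E ⧸ P.asIdeal) * 0)))).map
      ((eval x).comp (map θ)) ≤ ⊥ := by
    rw [Ideal.map_le_iff_le_comap, Ideal.span_le]
    have h3 : map θ (form fun μ => (r μ : 𝓞 E ⧸ P.asIdeal) + (q : 𝓞 E ⧸ P.asIdeal) * 0) =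
        sform (fun μ : Coef n d => θ ((r' μ.1 μ.2 : ℤ) : 𝓞 E ⧸ P.asIdeal)) 0 := by
      rw [hform, map_sform]
    rintro z (rfl | ⟨l, rfl⟩)
    · change (eval x) (map θ _) = 0
      rw [h3]
      exact hs.1 0
    · change (eval x) (map θ (pderiv l _)) = 0
      rw [← pderiv_map, h3]
      have h4 := hs.2 l
      rw [Fin.sum_univ_one, hy, one_mul] at h4
      exact h4
  have h3 := h2 h1
  rw [Ideal.mem_bot, RingHom.comp_apply, hm1, map_mul, map_C, map_pow, map_X, map_mul, map_pow,
    eval_C, eval_X, hx, one_pow, map_one, mul_one] at h3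
  exact one_ne_zero h3

end Exists

section Main

variable {n c : ℕ} {d : Fin c → ℕ}

theorem prop_le_add_sum {N : Type} [Fintype N] [DecidableEq N] {T : Type} [Fintype T]
    {S S' : (N → ℤ) → Prop} {Z : T → (N → ℤ) → Prop} (h : ∀ u, S u → S' u ∨ ∃ t, Z t u) (H : ℕ) :
    prop S H ≤ prop S' H + ∑ t, prop (Z t) H := by
  classical
  unfold prop
  rw [← Finset.sum_div, ← add_div]
  refine div_le_div_of_nonneg_right ?_ (Nat.cast_nonneg _)
  have h1 : (box N H).filter (fun u => S u) ⊆ (box N H).filter (fun u => S' u) ∪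
      Finset.univ.biUnion fun t => (box N H).filter fun u => Z t u := by
    intro u hu
    rw [Finset.mem_filter] at hu
    rw [Finset.mem_union, Finset.mem_filter, Finset.mem_biUnion]
    rcases h u hu.2 with h2 | ⟨t, ht⟩
    · exact Or.inl ⟨hu.1, h2⟩
    · exact Or.inr ⟨t, Finset.mem_univ _, Finset.mem_filter.mpr ⟨hu.1, ht⟩⟩
  have h2 := (Finset.card_le_card h1).trans ((Finset.card_union_le _ _).trans
    (Nat.add_le_add_left Finset.card_biUnion_le _))
  exact_mod_cast h2

open Classical in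
/-- **The density of the complete intersections with regular models.** -/
theorem ci_density (E : Type) [Field E] [NumberField E] {s : ℕ}
    (b : Module.Basis (Fin s) ℤ (𝓞 E)) (hc : 1 ≤ c) (hcn : c < n) (hd : ∀ k, 2 ≤ d k) :
    ∃ Δ : 𝓞 E → ℝ,
      (∀ m : 𝓞 E, m ≠ 0 →
        HasProd (fun P : HeightOneSpectrum (𝓞 E) =>
          if m ∈ P.asIdeal then 1 else nodalDensity E n d P) (Δ m) ∧
        ((∀ P : HeightOneSpectrum (𝓞 E), m ∉ P.asIdeal → 0 < nodalDensity E n d P) → 0 < Δ m) ∧
        ∀ ε : ℝ, 0 < ε → ∀ᶠ H : ℕ in atTop, (Δ m - ε) * (box (Coef n d × Fin s) H).card ≤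
          ((box (Coef n d × Fin s) H).filter fun u =>
            Smooth (hProjTo (sIdeal fun μ => algebraMap (𝓞 E) E (coeffs b u μ))) ∧
            ∀ (R K : Type) [CommRing R] [IsDedekindDomain R] [Field K] [Algebra R K]
              [IsFractionRing R K] (φ : 𝓞 E →+* R), Function.Injective φ → ¬ IsField R →
              IsUnit (φ m) → HasModelOver R K
                (hProjTo (sIdeal fun μ => algebraMap R K (φ (coeffs b u μ))))).card) ∧
      ∀ ε : ℝ, 0 < ε → ∃ m₀ : 𝓞 E, m₀ ≠ 0 ∧ ∀ m : 𝓞 E, m ≠ 0 → m₀ ∣ m → 1 - ε < Δ m := by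
  choose g G hg hgG hpair using fun t : Fin (n + 1) × Fin c => exists_pair_sys hd hcn t.1 t.2
  obtain ⟨C, M₀, hC⟩ := density_abs b g G hg hgG
  let Ω : 𝓞 E → ∀ P : HeightOneSpectrum (𝓞 E), Set (Coef n d → 𝓞 E ⧸ P.asIdeal) :=
    fun m P => {a | m ∈ P.asIdeal ∨ Nodal a}
  have hΩ : ∀ m (P : HeightOneSpectrum (𝓞 E)) (a : Coef n d → 𝓞 E), (2 : 𝓞 E) ∉ P.asIdeal →
      (fun i => Ideal.Quotient.mk P.asIdeal (a i)) ∉ Ω m P →
      ∃ t, aeval a (g t) ∈ P.asIdeal ∧ aeval a (G t) ∈ P.asIdeal := by
    intro m P a _ ha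
    have hPm : P.asIdeal.IsMaximal := P.isMaximal
    refine pair_of_not_nodal hpair P.asIdeal a fun h => ha (Or.inr h)
  choose Δ hΔ1 hΔ2 hΔ3 hΔ4 using fun m => hC (Ω m) (hΩ m)
  have hcard : ∀ m (P : HeightOneSpectrum (𝓞 E)), (Nat.card (Ω m P) : ℝ) /
      Nat.card (Coef n d → 𝓞 E ⧸ P.asIdeal) =
      if m ∈ P.asIdeal then 1 else nodalDensity E n d P := by
    intro m P
    split_ifs with h
    · have h1 : Ω m P = Set.univ := Set.eq_univ_of_forall fun a => Or.inl h
      have hfin : Finite (𝓞 E ⧸ P.asIdeal) := Ideal.finiteQuotientOfFreeOfNeBot _ P.ne_bot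
      rw [h1, Nat.card_congr (Equiv.Set.univ _)]
      refine div_self ?_
      exact_mod_cast Nat.card_pos.ne'
    · rw [nodalDensity]
      congr 2
      refine Nat.card_congr (Equiv.subtypeEquivRight fun a => ?_)
      change (m ∈ P.asIdeal ∨ Nodal a) ↔ _
      simp [h]
  refine ⟨Δ, fun m hm => ⟨?_, ?_, ?_⟩, ?_⟩
  · have h1 := hΔ1 m
    simp only [hcard] at h1
    exact h1
  · intro hpos
    refine hΔ3 m fun P => ?_
    by_cases h : m ∈ P.asIdeal
    · exact ⟨fun _ => 0, Or.inl h⟩
    · have h1 := hpos P h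
      rw [nodalDensity] at h1
      have h2 : Nat.card {a : Coef n d → 𝓞 E ⧸ P.asIdeal // Nodal a} ≠ 0 := by
        intro h0
        rw [h0] at h1
        simp at h1
      have h3 : Nonempty {a : Coef n d → 𝓞 E ⧸ P.asIdeal // Nodal a} := by
        by_contra hcon
        rw [not_nonempty_iff] at hcon
        exact h2 (by simp)
      obtain ⟨a, ha⟩ := h3
      exact ⟨a, Or.inr ha⟩
  · intro ε hε
    have h1 := hΔ2 m
    have h2 : ∀ t, Tendsto (prop fun u => aeval (coeffs b u) (g t) = 0) atTop (𝓝 0) := fun t =>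
      tendsto_prop_zero b (g t) (hg t).ne_zero
    have h3 := h1.sub (tendsto_finsetSum Finset.univ fun t _ => h2 t)
    rw [Finset.sum_const_zero, sub_zero] at h3
    have h4 := h3.eventually (lt_mem_nhds (show Δ m - ε < Δ m by linarith))
    filter_upwards [h4] with H hH
    have hbox : (0 : ℝ) < (box (Coef n d × Fin s) H).card := t26_card_pos H
    have h5 := prop_le_add_sum (S := fun u => ∀ P, red b P u ∈ Ω m P)
      (S' := fun u => Smooth (hProjTo (sIdeal fun μ => algebraMap (𝓞 E) E (coeffs b u μ))) ∧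
            ∀ (R K : Type) [CommRing R] [IsDedekindDomain R] [Field K] [Algebra R K]
              [IsFractionRing R K] (φ : 𝓞 E →+* R), Function.Injective φ → ¬ IsField R →
              IsUnit (φ m) → HasModelOver R K
                (hProjTo (sIdeal fun μ => algebraMap R K (φ (coeffs b u μ)))))
      (Z := fun t u => aeval (coeffs b u) (g t) = 0) ?_ H
    · have h6 := lt_of_lt_of_le hH (sub_le_iff_le_add.mpr h5)
      rw [prop, lt_div_iff₀ hbox] at h6
      refine h6.le.trans (le_of_eq ?_)
      congr 2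
      ext u
      simp only [Finset.mem_filter]
    · intro u hu
      by_cases hz : ∃ t, aeval (coeffs b u) (g t) = 0
      · exact Or.inr hz
      · left
        push Not at hz
        have hns : NoSing fun μ => algebraMap (𝓞 E) E (coeffs b u μ) := noSing_of_pair hpair _ hz
        refine ⟨smooth_of_noSing hns, fun R K _ _ _ _ _ φ hφ hRf hu' => ?_⟩
        refine model_of_nodal hc hcn hd hns (fun P hP => ?_) R K φ hφ hRf hu'
        exact (hu P).resolve_left hP
  · intro ε hε
    obtain ⟨M, hM⟩ := exists_nat_gt (max (M₀ : ℝ) (C / ε))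
    have hM0 : M₀ ≤ M := by
      have := (le_max_left _ _).trans hM.le
      exact_mod_cast this
    have hMpos : (0 : ℝ) < M := by
      have h1 : (0 : ℝ) ≤ M₀ := Nat.cast_nonneg _
      exact lt_of_le_of_lt (h1.trans (le_max_left _ _)) hM
    refine ⟨(M.factorial : 𝓞 E), by exact_mod_cast M.factorial_ne_zero, fun m hm hmd => ?_⟩
    have h1 := hΔ4 m M hM0 fun P p hp hpM hpP => Set.eq_univ_of_forall fun a => Or.inl ?_
    · have h2 : C / M < ε := by
        rw [div_lt_iff₀ hMpos]
        have h3 := (le_max_right _ _).trans_lt hM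
        rw [div_lt_iff₀ hε] at h3
        linarith
      linarith
    · obtain ⟨w, hw⟩ := (Nat.cast_dvd_cast (hp.dvd_factorial.mpr hpM) :
        (p : 𝓞 E) ∣ (M.factorial : 𝓞 E)).trans hmd
      rw [hw]
      exact P.asIdeal.mul_mem_right _ hpP

end Main

end Pool.Agent.Lib.MP_6a3dac_ag.Sys
end

section

/-!
# The pairs of polynomials in the coefficients, and smoothness of the generic fibre
-/

set_option autoImplicit false

namespace Pool.Agent.Lib.MP_6a3dac_ag.Maj

open MvPolynomial NumberField IsDedekindDomain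
open Pool.Agent.Lib.MP_6a3dac_ag.DNF Pool.Agent.Lib.MP_6a3dac_ag.Sys

/-- The coefficients of one form. -/
def g1_equiv (n d : ℕ) : Coef n (fun _ : Fin 1 => d) ≃ Mono n d where
  toFun := fun μ => μ.2
  invFun := fun μ => ⟨0, μ⟩
  left_inv := by
    rintro ⟨k, μ⟩
    obtain rfl : k = 0 := Subsingleton.elim _ _
    rfl
  right_inv := fun μ => rfl

instance g1_isEmpty (j : Fin 1) : IsEmpty {k : Fin 1 // k ≠ j} :=
  ⟨fun k => k.2 (Subsingleton.elim _ _)⟩

/-- Euler's relation at a point. -/
theorem g1_euler {n d : ℕ} {L : Type} [CommRing L] (a : Mono n d → L) (x : Fin (n + 1) → L)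
    (i : Fin (n + 1)) (hx : x i = 1) (h0 : eval x (form a) = 0)
    (h1 : ∀ l, l ≠ i → eval x (pderiv l (form a)) = 0) : eval x (pderiv i (form a)) = 0 := by
  have h2 := (isHomogeneous_form a).sum_X_mul_pderiv
  have h3 := congrArg (eval x) h2
  rw [map_sum, Finset.sum_eq_single i] at h3
  · rw [map_mul, eval_X, hx, one_mul, map_nsmul, h0, nsmul_zero] at h3
    exact h3
  · intro l _ hl
    rw [map_mul, h1 l hl, mul_zero]
  · intro h
    exact absurd (Finset.mem_univ _) h

/-- From `exists_pair_sys` of Sys/PairSys.lean with `c = 1`. -/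
theorem exists_pair_mono {n d : ℕ} (hn : 2 ≤ n) (hd : 2 ≤ d) :
    ∃ g G : Fin (n + 1) → MvPolynomial (Mono n d) ℤ, (∀ i, Irreducible (g i)) ∧
      (∀ i, ¬ g i ∣ G i) ∧
      ∀ (i : Fin (n + 1)) (L : Type) [Field L] (a : Mono n d → L) (x : Fin (n + 1) → L),
        x i = 1 → eval x (form a) = 0 → (∀ l, l ≠ i → eval x (pderiv l (form a)) = 0) →
        aeval a (g i) = 0 ∧ ((Matrix.of fun j l : {l : Fin (n + 1) // l ≠ i} =>
            eval x (pderiv j.1 (pderiv l.1 (form a)))).det = 0 → aeval a (G i) = 0) := by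
  classical
  choose g G hg hgG hpair using fun i : Fin (n + 1) =>
    exists_pair_sys (n := n) (c := 1) (d := fun _ => d) (fun _ => hd) (by omega) i 0
  refine ⟨fun i => rename (g1_equiv n d) (g i), fun i => rename (g1_equiv n d) (G i),
    fun i => (MulEquiv.irreducible_iff (renameEquiv ℤ (g1_equiv n d)).toMulEquiv).2 (hg i),
    ?_, ?_⟩
  · intro i h
    apply hgG i
    have h3 := map_dvd (renameEquiv ℤ (g1_equiv n d).symm) h
    simpa [rename_rename] using h3
  · intro i L _ a x hx h0 h1
    have hs : IsSing (sform fun μ => a (g1_equiv n d μ)) x (fun _ => 1) := by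
      refine ⟨fun _ => h0, fun l => ?_⟩
      rw [Fin.sum_univ_one, one_mul]
      by_cases hl : l = i
      · subst hl
        exact g1_euler a x l hx h0 h1
      · exact h1 l hl
    obtain ⟨h2, h3⟩ := hpair i L (fun μ => a (g1_equiv n d μ)) x (fun _ => 1) hx rfl hs
    refine ⟨?_, ?_⟩
    · rw [aeval_rename]
      exact h2
    · intro hdet
      rw [aeval_rename]
      apply h3
      rw [← hdet]
      have h4 : hessAt (sform fun μ => a (g1_equiv n d μ)) i 0 x (fun _ => 1) =
          (Matrix.of fun j l : {l : Fin (n + 1) // l ≠ i} =>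
            eval x (pderiv j.1 (pderiv l.1 (form a)))).submatrix
              (Equiv.sumEmpty _ {k : Fin 1 // k ≠ 0}) (Equiv.sumEmpty _ {k : Fin 1 // k ≠ 0}) := by
        ext u v
        rcases u with u | u
        · rcases v with v | v
          · simp only [hessAt, Matrix.fromBlocks_apply₁₁, Matrix.of_apply, Fin.sum_univ_one,
              one_mul, Matrix.submatrix_apply, Equiv.sumEmpty_apply_inl]
            rfl
          · exact absurd v.2 (by simp [Subsingleton.elim v.1 0])
        · exact absurd u.2 (by simp [Subsingleton.elim u.1 0])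
      rw [h4, Matrix.det_submatrix_equiv_self]

/-- From `NoSing.jac` of Sys/FormModelSys.lean with `c = 1`. -/
theorem exists_jac {n d : ℕ} {g : Fin (n + 1) → MvPolynomial (Mono n d) ℤ}
    (hpair : ∀ (i : Fin (n + 1)) (L : Type) [Field L] (a : Mono n d → L) (x : Fin (n + 1) → L),
      x i = 1 → eval x (form a) = 0 → (∀ l, l ≠ i → eval x (pderiv l (form a)) = 0) →
      aeval a (g i) = 0)
    {R : Type} [CommRing R] [IsDomain R] (a : Mono n d → R) (h : ∀ i, aeval a (g i) ≠ 0) :
    ∃ (m : R) (N : ℕ), m ≠ 0 ∧ ∀ i, C m * X i ^ N ∈ Ideal.span (insert (form a)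
      (Set.range fun l => pderiv l (form a))) := by
  let K : Type := FractionRing R
  obtain ⟨N, hN⟩ := jac_of_noSing (k := K) (c := 1) (d := fun _ => d)
    (f := fun _ => form fun μ => algebraMap R K (a μ)) (fun _ => isHomogeneous_form _) (by
      intro L _ _ i j x y hx hy hs
      obtain rfl : j = 0 := Subsingleton.elim _ _
      obtain ⟨h0, h1⟩ := hs
      simp only [DNF.map_form] at h0 h1
      have h3 := hpair i L (fun μ => algebraMap K L (algebraMap R K (a μ))) x hx (h0 0) (by
        intro l _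
        have h4 := h1 l
        rw [Fin.sum_univ_one, hy, one_mul] at h4
        exact h4)
      have h2 : (fun μ => algebraMap K L (algebraMap R K (a μ))) =
          fun μ => ((algebraMap K L).comp (algebraMap R K)) (a μ) := rfl
      rw [h2, aeval_hom, RingHom.comp_apply, map_eq_zero,
        FaithfulSMul.algebraMap_eq_zero_iff] at h3
      exact h i h3)
  have h1 : (fun _ : Fin 1 => form fun μ => algebraMap R K (a μ)) =
      fun k : Fin 1 => map (algebraMap R K) ((fun _ : Fin 1 => form a) k) := by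
    funext k
    exact (DNF.map_form _ _).symm
  rw [h1] at hN
  obtain ⟨m, hm, hmN⟩ := spread_generic hN
  refine ⟨m, N, hm, fun i => ?_⟩
  refine Ideal.span_mono ?_ (hmN i)
  rintro z (⟨k, rfl⟩ | ⟨s, rfl⟩)
  · exact Set.mem_insert _ _
  · refine Set.mem_insert_of_mem _ ⟨s 0, ?_⟩
    rw [minor, Matrix.det_unique]
    rfl

end Pool.Agent.Lib.MP_6a3dac_ag.Maj
end

section

/-!
# Smooth quadratic forms over all fields
-/

set_option autoImplicit false

namespace Pool.Agent.Lib.MP_6a3dac_ag.Sys

open MvPolynomial NumberField IsDedekindDomain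

/-- `x_0 x_1 + x_2 x_3 + ...`, with the square of the last variable if their number is odd. -/
noncomputable def stdQuad (n : ℕ) (R : Type) [CommRing R] : MvPolynomial (Fin (n + 1)) R :=
  ∑ i : Fin (n + 1), if i.val % 2 = 0 then
    (if h : i.val + 1 < n + 1 then X i * X ⟨i.val + 1, h⟩ else X i * X i) else 0

theorem stdQuad_isHomogeneous (n : ℕ) (R : Type) [CommRing R] :
    (stdQuad n R).IsHomogeneous 2 := by
  refine IsHomogeneous.sum _ _ _ fun i _ => ?_
  split_ifs
  · exact (isHomogeneous_X R _).mul (isHomogeneous_X R _)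
  · exact (isHomogeneous_X R _).mul (isHomogeneous_X R _)
  · exact isHomogeneous_zero _ _ _

theorem map_stdQuad (n : ℕ) {R S : Type} [CommRing R] [CommRing S] (φ : R →+* S) :
    map φ (stdQuad n R) = stdQuad n S := by
  unfold stdQuad
  rw [map_sum]
  refine Finset.sum_congr rfl fun i _ => ?_
  split_ifs <;> simp

theorem stdQuad_point {n : ℕ} {L : Type} [Field L] {x : Fin (n + 1) → L}
    (h0 : eval x (stdQuad n L) = 0) (h1 : ∀ l, eval x (pderiv l (stdQuad n L)) = 0) : x = 0 := by
  classical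
  have h2 : ∀ (l : Fin (n + 1)) (h : l.val + 1 < n + 1), l.val % 2 = 0 →
      x ⟨l.val + 1, h⟩ = 0 := by
    intro l h hl
    have h3 := h1 l
    unfold stdQuad at h3
    rw [map_sum, map_sum, Finset.sum_eq_single l] at h3
    · rw [if_pos hl, dif_pos h, Derivation.leibniz, pderiv_X_self, pderiv_X_of_ne] at h3
      · simpa using h3
      · intro h4
        have := congrArg Fin.val h4
        simp at this
    · intro i _ hi
      split_ifs with h4 h5
      · rw [Derivation.leibniz, pderiv_X_of_ne hi, pderiv_X_of_ne]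
        · simp
        · intro h6
          have := congrArg Fin.val h6
          simp at this
          omega
      · rw [Derivation.leibniz, pderiv_X_of_ne hi]
        simp
      · simp
    · intro h4
      exact absurd (Finset.mem_univ _) h4
  have h3 : ∀ (l : Fin (n + 1)) (h : l.val + 1 < n + 1), l.val % 2 = 0 → x l = 0 := by
    intro l h hl
    have h3 := h1 ⟨l.val + 1, h⟩
    unfold stdQuad at h3
    rw [map_sum, map_sum, Finset.sum_eq_single l] at h3
    · rw [if_pos hl, dif_pos h, Derivation.leibniz, pderiv_X_self, pderiv_X_of_ne] at h3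
      · simpa using h3
      · intro h4
        have := congrArg Fin.val h4
        simp at this
    · intro i _ hi
      split_ifs with h4 h5
      · rw [Derivation.leibniz, pderiv_X_of_ne, pderiv_X_of_ne]
        · simp
        · intro h6
          have := congrArg Fin.val h6
          simp at this
          omega
        · intro h6
          apply hi
          have := congrArg Fin.val h6
          simp at this
          exact Fin.ext this
      · rw [Derivation.leibniz, pderiv_X_of_ne]
        · simp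
        · intro h6
          have := congrArg Fin.val h6
          simp at this
          omega
      · simp
    · intro h4
      exact absurd (Finset.mem_univ _) h4
  have h4 : ∀ j : Fin (n + 1), j.val ≠ n → x j = 0 := by
    intro j hj
    have hjn := j.isLt
    rcases Nat.mod_two_eq_zero_or_one j.val with h | h
    · exact h3 j (by omega) h
    · have h5 := h2 ⟨j.val - 1, by omega⟩ (by simp only; omega) (by simp only; omega)
      have h6 : (⟨j.val - 1 + 1, by omega⟩ : Fin (n + 1)) = j := Fin.ext (by simp only; omega)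
      rwa [h6] at h5
  funext j
  by_cases hj : j.val = n
  · rcases Nat.mod_two_eq_zero_or_one n with h | h
    · unfold stdQuad at h0
      rw [map_sum, Finset.sum_eq_single j] at h0
      · rw [if_pos (by omega), dif_neg (by omega)] at h0
        simpa using h0
      · intro i _ hi
        have h5 : x i = 0 := h4 i fun h6 => hi (Fin.ext (h6.trans hj.symm))
        split_ifs <;> simp [h5]
      · intro h5
        exact absurd (Finset.mem_univ _) h5
    · have h5 := h2 ⟨j.val - 1, by omega⟩ (by simp only; omega) (by simp only; omega)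
      have h6 : (⟨j.val - 1 + 1, by omega⟩ : Fin (n + 1)) = j := Fin.ext (by simp only; omega)
      rwa [h6] at h5
  · exact h4 j hj

/-- Nodal quadratic forms exist over all fields. -/
theorem exists_nodal_quad {n : ℕ} {d : Fin 1 → ℕ} (hd : d 0 = 2) (k : Type) [Field k] :
    ∃ a : Coef n d → k, Nodal a := by
  have h1 : (stdQuad n k).IsHomogeneous (d 0) := by
    rw [hd]
    exact stdQuad_isHomogeneous n k
  obtain ⟨a, ha⟩ := SmoothAlg.form_exists h1
  let a' : ∀ j : Fin 1, Mono n (d j) → k :=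
    Fin.cases (motive := fun j => Mono n (d j) → k) a fun i => Fin.elim0 i
  refine ⟨fun μ => a' μ.1 μ.2, ?_⟩
  intro L _ _ i j x y hx hy hs
  exfalso
  have hj : j = 0 := Subsingleton.elim _ _
  subst hj
  have h2 : sform (fun μ : Coef n d => algebraMap k L (a' μ.1 μ.2)) 0 = stdQuad n L := by
    rw [← map_stdQuad n (algebraMap k L), ← ha, SmoothAlg.form_map]
    rfl
  have h3 : x = 0 := by
    refine stdQuad_point ?_ fun l => ?_
    · have h4 := hs.1 0
      rwa [h2] at h4
    · have h4 := hs.2 l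
      rwa [Fin.sum_univ_one, hy, one_mul, h2] at h4
  rw [h3] at hx
  exact zero_ne_one hx

/-- For one form all factors are positive. -/
theorem nodalDensity_pos {n : ℕ} {d : Fin 1 → ℕ} (hd : 2 ≤ d 0) (E : Type) [Field E]
    [NumberField E] (P : HeightOneSpectrum (𝓞 E)) : 0 < nodalDensity E n d P := by
  have h1 : ∃ a : Coef n d → 𝓞 E ⧸ P.asIdeal, Nodal a := by
    rcases hd.eq_or_lt with h | h
    · let _ : Field (𝓞 E ⧸ P.asIdeal) := Ideal.Quotient.field P.asIdeal
      exact exists_nodal_quad h.symm _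
    · exact exists_nodal_one h P
  obtain ⟨a, ha⟩ := h1
  have hfin : Finite (𝓞 E ⧸ P.asIdeal) := Ideal.finiteQuotientOfFreeOfNeBot _ P.ne_bot
  rw [nodalDensity]
  have h2 : Nonempty {a : Coef n d → 𝓞 E ⧸ P.asIdeal // Nodal a} := ⟨⟨a, ha⟩⟩
  refine div_pos ?_ ?_
  · exact_mod_cast Nat.card_pos
  · exact_mod_cast Nat.card_pos

end Pool.Agent.Lib.MP_6a3dac_ag.Sys
end
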