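import Pool.Agent.Lib.MP_6a3dac_ag.Mg.G030
import Pool.Agent.Lib.MP_6a3dac_ag.Mg.G008
import Pool.Agent.Lib.MP_6a3dac_ag.DNF.ChartD
import Pool.Agent.Lib.MP_6a3dac_ag.Mg.G009

section

/-!
# The types of the double points of corank one
-/

set_option autoImplicit false

namespace Pool.Agent.Lib.MP_6a3dac_ag.Maj

open MvPolynomial
open Pool.Agent.Lib.MP_6a3dac_ag.DNF

section Defs

variable {O : Type} [CommRing O] {σ : Type} [Fintype σ]

/-- The equation is a nondegenerate quadratic form in the `x j` up to terms divisible by the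
`m`-th power of `y`. -/
structure SplitData (F : MvPolynomial σ O) (𝔮 : Ideal (MvPolynomial σ O)) (m : ℕ)
    (x : σ → MvPolynomial σ O) (y s : MvPolynomial σ O) (c : σ → σ → MvPolynomial σ O)
    (b : σ → MvPolynomial σ O) (a : MvPolynomial σ O) : Prop where
  par : Par 𝔮 fun o => o.elim y x
  hs : s ∉ 𝔮
  eq : s * F = ∑ j, ∑ k, c j k * (x j * x k) + y ^ m * ∑ j, b j * x j + a * y ^ (2 * m)
  nd : QNondeg fun j k => Ideal.Quotient.mk 𝔮 (c j k)

/-- The matrix of the quadratic form in the `x j` and the `m`-th power of `y`. -/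
def extMat {κ : Type} [CommRing κ] (c : σ → σ → κ) (b : σ → κ) (a : κ) : Option σ → Option σ → κ
  | some j, some k => c j k
  | none, some j => b j
  | some _, none => 0
  | none, none => a

/-- Type I of level `m`. -/
def TypeI (F : MvPolynomial σ O) (𝔮 : Ideal (MvPolynomial σ O)) (m : ℕ)
    (x : σ → MvPolynomial σ O) (y : MvPolynomial σ O) : Prop :=
  ∃ s c b a, SplitData F 𝔮 m x y s c b a ∧
    QNondeg fun j k => Ideal.Quotient.mk 𝔮 (extMat c b a j k)

/-- The equation of level `m + 1 / 2`. -/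
structure HalfData (F : MvPolynomial σ O) (𝔮 : Ideal (MvPolynomial σ O)) (m : ℕ)
    (x : σ → MvPolynomial σ O) (y s : MvPolynomial σ O) (c : σ → σ → MvPolynomial σ O)
    (b : σ → MvPolynomial σ O) (u : MvPolynomial σ O) : Prop where
  par : Par 𝔮 fun o => o.elim y x
  hs : s ∉ 𝔮
  eq : s * F =
    ∑ j, ∑ k, c j k * (x j * x k) + y ^ (m + 1) * ∑ j, b j * x j + u * y ^ (2 * m + 1)
  nd : QNondeg fun j k => Ideal.Quotient.mk 𝔮 (c j k)

/-- Type II of level `m`. -/
def TypeII (F : MvPolynomial σ O) (𝔮 : Ideal (MvPolynomial σ O)) (m : ℕ)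
    (x : σ → MvPolynomial σ O) (y : MvPolynomial σ O) : Prop :=
  ∃ s c b u, HalfData F 𝔮 m x y s c b u ∧ u ∉ 𝔮

end Defs

section A1

theorem a1_expand {A : Type} [CommRing A] {σ : Type} [Fintype σ]
    (c : Option σ → Option σ → A) (g : Option σ → A) :
    ∑ j, ∑ k, c j k * (g j * g k) = c none none * (g none * g none) +
      ∑ j, (c none (some j) + c (some j) none) * (g none * g (some j)) +
      ∑ j, ∑ k, c (some j) (some k) * (g (some j) * g (some k)) := by
  rw [Fintype.sum_option]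
  simp only [Fintype.sum_option]
  rw [Finset.sum_add_distrib]
  have h1 : ∑ j, (c none (some j) + c (some j) none) * (g none * g (some j)) =
      ∑ j, c none (some j) * (g none * g (some j)) +
        ∑ j, c (some j) none * (g (some j) * g none) := by
    rw [← Finset.sum_add_distrib]
    refine Finset.sum_congr rfl fun j _ => ?_
    ring
  rw [h1]
  ring

theorem a1_qd_none {A : Type} [CommRing A] {σ : Type} [Fintype σ]
    (c : Option σ → Option σ → A) (v : Option σ → A) (k : Option σ) :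
    qd c v k = (c none k + c k none) * v none + ∑ j, (c (some j) k + c k (some j)) * v (some j) := by
  unfold qd
  rw [Fintype.sum_option]

theorem a1_subst {A : Type} [CommRing A] {σ : Type} [Fintype σ]
    (c : Option σ → Option σ → A) (g V : Option σ → A) (hV : V none = 1) (h : σ → A)
    (hg : ∀ j, g (some j) = h j + V (some j) * g none) :
    ∑ j, ∑ k, c j k * (g j * g k) = ∑ j, ∑ k, c (some j) (some k) * (h j * h k) +
      ∑ j, qd c V (some j) * (g none * h j) + qf c V * (g none * g none) := by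
  rw [a1_expand]
  have h0 : qf c V = c none none * (1 * 1) +
      ∑ j, (c none (some j) + c (some j) none) * (1 * V (some j)) +
      ∑ j, ∑ k, c (some j) (some k) * (V (some j) * V (some k)) := by
    unfold qf
    rw [a1_expand, hV]
  have e1 : ∑ j, ∑ k, c (some j) (some k) * (g (some j) * g (some k)) =
      ∑ j, ∑ k, c (some j) (some k) * (h j * h k) +
      ∑ j, (∑ k, (c (some k) (some j) + c (some j) (some k)) * V (some k)) * (g none * h j) +
      (∑ j, ∑ k, c (some j) (some k) * (V (some j) * V (some k))) * (g none * g none) := by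
    have e2 : ∑ j, (∑ k, (c (some k) (some j) + c (some j) (some k)) * V (some k)) *
        (g none * h j) = ∑ j, ∑ k, c (some j) (some k) * V (some j) * (g none * h k) +
          ∑ j, ∑ k, c (some j) (some k) * V (some k) * (g none * h j) := by
      have e3 : ∑ j, ∑ k, c (some j) (some k) * V (some j) * (g none * h k) =
          ∑ j, ∑ k, c (some k) (some j) * V (some k) * (g none * h j) := Finset.sum_comm
      rw [e3, ← Finset.sum_add_distrib]
      refine Finset.sum_congr rfl fun j _ => ?_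
      rw [Finset.sum_mul, ← Finset.sum_add_distrib]
      refine Finset.sum_congr rfl fun k _ => ?_
      ring
    rw [e2, Finset.sum_mul, ← Finset.sum_add_distrib, ← Finset.sum_add_distrib,
      ← Finset.sum_add_distrib]
    refine Finset.sum_congr rfl fun j _ => ?_
    rw [Finset.sum_mul, ← Finset.sum_add_distrib, ← Finset.sum_add_distrib,
      ← Finset.sum_add_distrib]
    refine Finset.sum_congr rfl fun k _ => ?_
    rw [hg j, hg k]
    ring
  have e4 : ∑ j, qd c V (some j) * (g none * h j) =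
      ∑ j, (c none (some j) + c (some j) none) * (g none * h j) +
      ∑ j, (∑ k, (c (some k) (some j) + c (some j) (some k)) * V (some k)) * (g none * h j) := by
    rw [← Finset.sum_add_distrib]
    refine Finset.sum_congr rfl fun j _ => ?_
    rw [a1_qd_none, hV]
    ring
  have e5 : ∑ j, (c none (some j) + c (some j) none) * (g none * g (some j)) =
      ∑ j, (c none (some j) + c (some j) none) * (g none * h j) +
      (∑ j, (c none (some j) + c (some j) none) * (1 * V (some j))) * (g none * g none) := by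
    rw [Finset.sum_mul, ← Finset.sum_add_distrib]
    refine Finset.sum_congr rfl fun j _ => ?_
    rw [hg j]
    ring
  rw [e1, e4, e5, h0]
  ring

theorem a1_map_qf {A B : Type} [CommRing A] [CommRing B] {ι : Type} [Fintype ι]
    (θ : A →+* B) (c : ι → ι → A) (v : ι → A) :
    θ (qf c v) = qf (fun j k => θ (c j k)) fun j => θ (v j) := by
  unfold qf
  rw [map_sum]
  refine Finset.sum_congr rfl fun j _ => ?_
  rw [map_sum]
  refine Finset.sum_congr rfl fun k _ => ?_
  rw [map_mul, map_mul]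

theorem a1_map_qd {A B : Type} [CommRing A] [CommRing B] {ι : Type} [Fintype ι]
    (θ : A →+* B) (c : ι → ι → A) (v : ι → A) (k : ι) :
    θ (qd c v k) = qd (fun j k => θ (c j k)) (fun j => θ (v j)) k := by
  unfold qd
  rw [map_sum]
  refine Finset.sum_congr rfl fun j _ => ?_
  rw [map_mul, map_add]

theorem a1_qnondeg {κ : Type} [CommRing κ] {σ : Type} [Fintype σ]
    {c : Option σ → Option σ → κ} {v : Option σ → κ} (h : LineKer c v) (hv : v none = 1) :
    QNondeg fun j k => c (some j) (some k) := by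
  intro w hw hq
  by_contra hcon
  push Not at hcon
  obtain ⟨-, hd⟩ := (h.2 v).2 ⟨1, by funext i; rw [one_mul]⟩
  set w' : Option σ → κ := fun o => o.elim 0 w with hw'
  have e0 : w' none = 0 := rfl
  have e1 : ∀ j, w' (some j) = w j := fun _ => rfl
  have h1 : qf c w' = 0 := by
    have : qf c w' = qf (fun j k => c (some j) (some k)) w := by
      unfold qf
      rw [a1_expand, e0]
      simp only [e1]
      simp
    rw [this, hq]
  have hqd : ∀ k, qd c w' k = ∑ j, (c (some j) k + c k (some j)) * w j := by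
    intro k
    rw [a1_qd_none, e0, mul_zero, zero_add]
    simp only [e1]
  have h2 : ∀ k, qd c w' k = 0 := by
    intro k
    cases k with
    | some k =>
      rw [hqd]
      exact hcon k
    | none =>
      rw [hqd]
      have h3 : ∀ j, c (some j) none + c none (some j) =
          - ∑ k, (c (some k) (some j) + c (some j) (some k)) * v (some k) := by
        intro j
        have h4 := hd (some j)
        rw [a1_qd_none, hv] at h4
        linear_combination h4
      calc ∑ j, (c (some j) none + c none (some j)) * w j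
          = ∑ j, ∑ k, -((c (some k) (some j) + c (some j) (some k)) * v (some k) * w j) := by
            refine Finset.sum_congr rfl fun j _ => ?_
            rw [h3 j, neg_mul, Finset.sum_mul, Finset.sum_neg_distrib]
        _ = ∑ k, ∑ j, -((c (some k) (some j) + c (some j) (some k)) * v (some k) * w j) :=
            Finset.sum_comm
        _ = ∑ k, -(v (some k) * qd (fun j k => c (some j) (some k)) w k) := by
            refine Finset.sum_congr rfl fun k _ => ?_
            unfold qd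
            rw [Finset.mul_sum, ← Finset.sum_neg_distrib]
            refine Finset.sum_congr rfl fun j _ => ?_
            ring
        _ = 0 := by simp [hcon]
  obtain ⟨t, ht⟩ := (h.2 w').1 ⟨h1, h2⟩
  have h3 := congrFun ht none
  rw [e0] at h3
  simp only [hv, mul_one] at h3
  apply hw
  funext j
  have h4 := congrFun ht (some j)
  rw [e1, ← h3, zero_mul] at h4
  exact h4


/-- The case that the coordinate of the kernel at `none` is one. -/
theorem a1_none {O : Type} [CommRing O] {σ : Type} [Fintype σ]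
    {𝔮 : Ideal (MvPolynomial σ O)}
    {g : Option σ → MvPolynomial σ O} (hg : Par 𝔮 g)
    (c : Option σ → Option σ → MvPolynomial σ O) {v : Option σ → MvPolynomial σ O ⧸ 𝔮}
    (hc : LineKer (fun j k => (Ideal.Quotient.mk 𝔮 (c j k) : MvPolynomial σ O ⧸ 𝔮)) v)
    (hv : v none = 1) :
    ∃ (g' : Option σ → MvPolynomial σ O) (c' : σ → σ → MvPolynomial σ O), Par 𝔮 g' ∧
      ∑ j, ∑ k, c' j k * (g' (some j) * g' (some k)) - ∑ j, ∑ k, c j k * (g j * g k) ∈ 𝔮 ^ 3 ∧
      QNondeg fun j k => Ideal.Quotient.mk 𝔮 (c' j k) := by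
  -- lift of `v`
  have hlift : ∀ o, ∃ x : MvPolynomial σ O, Ideal.Quotient.mk 𝔮 x = v o := fun o =>
    Ideal.Quotient.mk_surjective (v o)
  choose V0 hV0 using hlift
  set V : Option σ → MvPolynomial σ O := fun o => o.elim 1 fun j => V0 (some j) with hVdef
  have hVn : V none = 1 := rfl
  have hVm : ∀ o, Ideal.Quotient.mk 𝔮 (V o) = v o := by
    intro o
    cases o with
    | none => rw [hVn, hv, map_one]
    | some j => exact hV0 (some j)
  set g' : Option σ → MvPolynomial σ O :=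
    fun o => o.elim (g none) fun j => g (some j) - V (some j) * g none with hg'
  have hgn : g' none = g none := rfl
  have hgs : ∀ j, g' (some j) = g (some j) - V (some j) * g none := fun _ => rfl
  have hmem : ∀ o, g' o ∈ 𝔮 := by
    intro o
    cases o with
    | none => exact hg.1 none
    | some j => exact Ideal.sub_mem _ (hg.1 _) (Ideal.mul_mem_left _ _ (hg.1 none))
  have hpar : Par 𝔮 g' := by
    refine ⟨hmem, hg.2.trans (sup_le_sup_right ?_ _)⟩
    rw [Ideal.span_le]
    rintro _ ⟨o, rfl⟩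
    cases o with
    | none => exact Ideal.subset_span ⟨none, rfl⟩
    | some j =>
      have h1 : g (some j) = g' (some j) + V (some j) * g' none := by
        rw [hgs, hgn]
        ring
      rw [h1]
      exact Ideal.add_mem _ (Ideal.subset_span ⟨some j, rfl⟩)
        (Ideal.mul_mem_left _ _ (Ideal.subset_span ⟨none, rfl⟩))
  obtain ⟨hqf, hqd⟩ := (hc.2 v).2 ⟨1, by funext i; rw [one_mul]⟩
  have hvV : v = fun o => Ideal.Quotient.mk 𝔮 (V o) := by
    funext o
    exact (hVm o).symm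
  have hqf' : qf c V ∈ 𝔮 := by
    rw [← Ideal.Quotient.eq_zero_iff_mem, a1_map_qf, ← hvV]
    exact hqf
  have hqd' : ∀ k, qd c V k ∈ 𝔮 := by
    intro k
    rw [← Ideal.Quotient.eq_zero_iff_mem, a1_map_qd, ← hvV]
    exact hqd k
  have hsub := a1_subst c g V hVn (fun j => g' (some j)) (fun j => by rw [hgs]; ring)
  refine ⟨g', fun j k => c (some j) (some k), hpar, ?_, a1_qnondeg hc hv⟩
  · rw [hsub]
    have h1 : ∑ j, ∑ k, c (some j) (some k) * (g' (some j) * g' (some k)) -
        (∑ j, ∑ k, c (some j) (some k) * (g' (some j) * g' (some k)) +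
          ∑ j, qd c V (some j) * (g none * g' (some j)) + qf c V * (g none * g none)) =
        -(∑ j, qd c V (some j) * (g none * g' (some j)) + qf c V * (g none * g none)) := by ring
    rw [h1]
    have h3 : (𝔮 : Ideal (MvPolynomial σ O)) ^ 3 = 𝔮 * (𝔮 * 𝔮) := by ring
    rw [h3]
    apply neg_mem
    apply Ideal.add_mem
    · apply Ideal.sum_mem
      intro j _
      exact Ideal.mul_mem_mul (hqd' _) (Ideal.mul_mem_mul (hg.1 none) (hmem _))
    · exact Ideal.mul_mem_mul hqf' (Ideal.mul_mem_mul (hg.1 none) (hg.1 none))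

/-- If the kernel of the tangent cone is a line, then it is the last axis for suitable
parameters `g'`. -/
theorem a1_lineKer {O : Type} [CommRing O] {σ : Type} [Fintype σ]
    {𝔮 : Ideal (MvPolynomial σ O)} (hmax : 𝔮.IsMaximal)
    {g : Option σ → MvPolynomial σ O} (hg : Par 𝔮 g)
    (c : Option σ → Option σ → MvPolynomial σ O)
    (hc : ∃ v, LineKer (fun j k => (Ideal.Quotient.mk 𝔮 (c j k) : MvPolynomial σ O ⧸ 𝔮)) v) :
    ∃ (g' : Option σ → MvPolynomial σ O) (c' : σ → σ → MvPolynomial σ O), Par 𝔮 g' ∧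
      ∑ j, ∑ k, c' j k * (g' (some j) * g' (some k)) - ∑ j, ∑ k, c j k * (g j * g k) ∈ 𝔮 ^ 3 ∧
      QNondeg fun j k => Ideal.Quotient.mk 𝔮 (c' j k) := by
  classical
  obtain ⟨v, hv⟩ := hc
  obtain ⟨o, ho⟩ : ∃ o, v o ≠ 0 := by
    by_contra hcon
    push Not at hcon
    exact hv.1 (funext hcon)
  obtain ⟨b, hb⟩ := Ideal.Quotient.exists_inv ho
  set e : Option σ ≃ Option σ := Equiv.swap none o with he
  have hen : e none = o := Equiv.swap_apply_left _ _
  -- the permuted data
  have hsum : ∀ (c : Option σ → Option σ → MvPolynomial σ O) (g : Option σ → MvPolynomial σ O),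
      ∑ j, ∑ k, c (e j) (e k) * (g (e j) * g (e k)) = ∑ j, ∑ k, c j k * (g j * g k) := by
    intro c g
    rw [← Equiv.sum_comp e fun j => ∑ k, c j k * (g j * g k)]
    refine Finset.sum_congr rfl fun j _ => ?_
    rw [← Equiv.sum_comp e fun k => c (e j) k * (g (e j) * g k)]
  have hqfe : ∀ (c : Option σ → Option σ → MvPolynomial σ O ⧸ 𝔮)
      (w : Option σ → MvPolynomial σ O ⧸ 𝔮),
      qf (fun j k => c (e j) (e k)) (fun j => w (e j)) = qf c w := by
    intro c w
    unfold qf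
    rw [← Equiv.sum_comp e fun j => ∑ k, c j k * (w j * w k)]
    refine Finset.sum_congr rfl fun j _ => ?_
    rw [← Equiv.sum_comp e fun k => c (e j) k * (w (e j) * w k)]
  have hqde : ∀ (c : Option σ → Option σ → MvPolynomial σ O ⧸ 𝔮)
      (w : Option σ → MvPolynomial σ O ⧸ 𝔮) (k : Option σ),
      qd (fun j k => c (e j) (e k)) (fun j => w (e j)) k = qd c w (e k) := by
    intro c w k
    unfold qd
    rw [← Equiv.sum_comp e fun j => (c j (e k) + c (e k) j) * w j]
  have hpar : Par 𝔮 fun j => g (e j) := by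
    refine ⟨fun j => hg.1 _, ?_⟩
    have h1 : Set.range (fun j => g (e j)) = Set.range g := e.surjective.range_comp g
    rw [h1]
    exact hg.2
  have hline : LineKer (fun j k => (Ideal.Quotient.mk 𝔮 (c (e j) (e k)) : MvPolynomial σ O ⧸ 𝔮))
      fun j => b * v (e j) := by
    constructor
    · intro h0
      have h1 := congrFun h0 none
      simp only [hen, Pi.zero_apply] at h1
      rw [mul_comm, hb] at h1
      have h2 : v o = 0 := by
        have h3 := congrArg (fun x => v o * x) h1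
        simpa using h3
      exact ho h2
    · intro w
      have h1 : (qf (fun j k => (Ideal.Quotient.mk 𝔮 (c (e j) (e k)) : MvPolynomial σ O ⧸ 𝔮)) w = 0 ∧
          ∀ k, qd (fun j k => (Ideal.Quotient.mk 𝔮 (c (e j) (e k)) : MvPolynomial σ O ⧸ 𝔮)) w k = 0) ↔
          (qf (fun j k => (Ideal.Quotient.mk 𝔮 (c j k) : MvPolynomial σ O ⧸ 𝔮))
            (fun j => w (e.symm j)) = 0 ∧
          ∀ k, qd (fun j k => (Ideal.Quotient.mk 𝔮 (c j k) : MvPolynomial σ O ⧸ 𝔮))
            (fun j => w (e.symm j)) k = 0) := by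
        have h2 := hqfe (fun j k => (Ideal.Quotient.mk 𝔮 (c j k) : MvPolynomial σ O ⧸ 𝔮))
          (fun j => w (e.symm j))
        have h3 := hqde (fun j k => (Ideal.Quotient.mk 𝔮 (c j k) : MvPolynomial σ O ⧸ 𝔮))
          (fun j => w (e.symm j))
        simp only [Equiv.symm_apply_apply] at h2 h3
        rw [← h2]
        refine and_congr Iff.rfl ?_
        constructor
        · intro h4 k
          have h5 := h3 (e.symm k)
          rw [h4, Equiv.apply_symm_apply] at h5
          exact h5.symm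
        · intro h4 k
          rw [h3 k]
          exact h4 _
      rw [h1, hv.2]
      constructor
      · rintro ⟨t, ht⟩
        refine ⟨t * v o, ?_⟩
        funext j
        have h2 := congrFun ht (e j)
        simp only [Equiv.symm_apply_apply] at h2
        rw [h2]
        have h3 : t * v o * (b * v (e j)) = (v o * b) * (t * v (e j)) := by ring
        rw [h3, hb, one_mul]
      · rintro ⟨t, ht⟩
        refine ⟨t * b, ?_⟩
        funext j
        have h2 := congrFun ht (e.symm j)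
        simp only [Equiv.apply_symm_apply] at h2
        rw [h2, mul_assoc]
  obtain ⟨g', c', h1, h2, h3⟩ := a1_none hpar (fun j k => c (e j) (e k)) hline
    (by simp only [hen]; rw [mul_comm, hb])
  refine ⟨g', c', h1, ?_, h3⟩
  rw [hsum c g] at h2
  exact h2

theorem a1_span {A : Type} [CommRing A] [IsNoetherianRing A] {𝔮 N : Ideal A} (hne : 𝔮 ≠ ⊤)
    (hN : 𝔮 ≤ N ⊔ 𝔮 ^ 2) : ∃ s, s ∉ 𝔮 ∧ ∀ z ∈ 𝔮, s * z ∈ N := by
  have hfg : 𝔮.FG := IsNoetherian.noetherian 𝔮
  obtain ⟨r, hr, hle⟩ := Submodule.exists_sub_one_mem_and_smul_le_of_fg_of_le_sup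
    (I := 𝔮) (N := N) (N' := 𝔮) (P := 𝔮) hfg le_rfl (by
      rw [pow_two] at hN
      exact hN)
  refine ⟨r, ?_, ?_⟩
  · intro h
    apply hne
    rw [Ideal.eq_top_iff_one]
    have := 𝔮.sub_mem h hr
    simpa using this
  · intro z hz
    exact hle (Submodule.smul_mem_pointwise_smul _ _ _ hz)

theorem a1_pow {A : Type} [CommRing A] {𝔮 N : Ideal A} {s : A} (h : ∀ z ∈ 𝔮, s * z ∈ N) (n : ℕ)
    {z : A} (hz : z ∈ 𝔮 ^ n) : s ^ n * z ∈ N ^ n := by
  have h1 : Ideal.span {s} * 𝔮 ≤ N := by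
    rw [Ideal.span_singleton_mul_le_iff]
    exact h
  have h2 := Ideal.pow_right_mono h1 n
  rw [mul_pow, Ideal.span_singleton_pow] at h2
  exact h2 (Ideal.mul_mem_mul (Ideal.mem_span_singleton_self _) hz)

/-- The elements of the cube of the ideal `(x, y)`. -/
theorem a1_cubic {A : Type} [CommRing A] {σ : Type} [Fintype σ] {𝔮 : Ideal A} {x : σ → A} {y : A}
    (hx : ∀ j, x j ∈ 𝔮) (hy : y ∈ 𝔮) {z : A}
    (hz : z ∈ Ideal.span (Set.range fun o : Option σ => o.elim y x) ^ 3) :
    ∃ (d : σ → σ → A) (b : σ → A) (u : A), (∀ j k, d j k ∈ 𝔮) ∧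
      z = ∑ j, ∑ k, d j k * (x j * x k) + y ^ 2 * ∑ j, b j * x j + u * y ^ 3 := by
  set S : Ideal A := Ideal.span (Set.range x) with hS
  set T : Ideal A := Ideal.span {y} with hT
  have hSq : S ≤ 𝔮 := by
    rw [hS, Ideal.span_le]
    rintro _ ⟨j, rfl⟩
    exact hx _
  have hTq : T ≤ 𝔮 := by
    rw [hT, Ideal.span_le]
    rintro _ rfl
    exact hy
  have h1 : Ideal.span (Set.range fun o : Option σ => o.elim y x) ≤ S ⊔ T := by
    rw [Ideal.span_le]
    rintro _ ⟨o, rfl⟩
    cases o with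
    | none => exact Ideal.mem_sup_right (Ideal.subset_span rfl)
    | some j => exact Ideal.mem_sup_left (Ideal.subset_span ⟨j, rfl⟩)
  have h2 : (S ⊔ T) ^ 3 ≤ 𝔮 * (S * S) ⊔ (T * T * S ⊔ T * T * T) := by
    have e1 : (S ⊔ T) ^ 3 = (S ⊔ T) * ((S ⊔ T) * (S ⊔ T)) := by ring
    rw [e1]
    have e2 : (S ⊔ T) * ((S ⊔ T) * (S ⊔ T)) =
        S * (S * S) ⊔ T * (S * S) ⊔ (T * T * S ⊔ T * T * T) := by
      simp only [← Ideal.add_eq_sup]
      have e3 : S * (T * S) + S * (T * S) = S * (T * S) := add_idem _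
      have e4 : S * (T * T) + S * (T * T) = S * (T * T) := add_idem _
      have e5 : (S + T) * ((S + T) * (S + T)) = S * (S * S) + (S * (T * S) + (S * (T * S) +
        S * (T * S))) + ((S * (T * T) + (S * (T * T) + S * (T * T))) + T * T * T) := by ring
      rw [e5, e3, e3, e4, e4]
      ring
    rw [e2]
    refine sup_le_sup_right (sup_le ?_ ?_) _
    · exact Ideal.mul_mono_left hSq
    · exact Ideal.mul_mono_left hTq
  have h3 := h2 (Ideal.pow_right_mono h1 3 hz)
  obtain ⟨z1, hz1, z23, hz23, e⟩ := Submodule.mem_sup.1 h3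
  obtain ⟨z2, hz2, z3, hz3, e'⟩ := Submodule.mem_sup.1 hz23
  have k1 : S * S = Ideal.span (Set.range fun p : σ × σ => x p.1 * x p.2) := by
    rw [hS, Ideal.span_mul_span']
    congr 1
    ext w
    constructor
    · rintro ⟨_, ⟨i, rfl⟩, _, ⟨j, rfl⟩, rfl⟩
      exact ⟨(i, j), rfl⟩
    · rintro ⟨p, rfl⟩
      exact ⟨_, ⟨p.1, rfl⟩, _, ⟨p.2, rfl⟩, rfl⟩
  rw [k1] at hz1
  obtain ⟨d, hd, hd'⟩ := (Submodule.mem_ideal_smul_span_iff_exists_sum 𝔮 _ z1).1 hz1
  have k2 : T * T = Ideal.span {y ^ 2} := by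
    rw [hT, Ideal.span_singleton_mul_span_singleton, pow_two]
  rw [k2] at hz2 hz3
  obtain ⟨w, hw, hw'⟩ := Ideal.mem_span_singleton_mul.1 hz2
  obtain ⟨b, hb⟩ := Ideal.mem_span_range_iff_exists_fun.1 hw
  rw [hT, Ideal.span_singleton_mul_span_singleton] at hz3
  obtain ⟨u, hu⟩ := Ideal.mem_span_singleton'.1 hz3
  refine ⟨fun j k => d (j, k), b, u, fun j k => hd _, ?_⟩
  rw [← e, ← e', ← hd', ← hw', ← hu, ← hb, Finsupp.sum_fintype _ _ (by intro i; simp),
    Fintype.sum_prod_type]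
  simp only [smul_eq_mul]
  ring

theorem a1_scale {κ ι : Type} [CommRing κ] [IsDomain κ] [Fintype ι] {c : ι → ι → κ} {t : κ}
    (ht : t ≠ 0) (hc : QNondeg c) : QNondeg fun j k => t * c j k := by
  intro v hv hq
  have e1 : qf (fun j k => t * c j k) v = t * qf c v := by
    unfold qf
    rw [Finset.mul_sum]
    refine Finset.sum_congr rfl fun j _ => ?_
    rw [Finset.mul_sum]
    refine Finset.sum_congr rfl fun k _ => ?_
    ring
  have e2 : ∀ k, qd (fun j k => t * c j k) v k = t * qd c v k := by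
    intro k
    unfold qd
    rw [Finset.mul_sum]
    refine Finset.sum_congr rfl fun j _ => ?_
    ring
  rw [e1] at hq
  obtain ⟨k, hk⟩ := hc v hv ((mul_eq_zero.1 hq).resolve_left ht)
  exact ⟨k, by rw [e2]; exact mul_ne_zero ht hk⟩

end A1

section A2

open Finset

theorem a2_scale {ι κ : Type} [Fintype ι] [CommRing κ] [NoZeroDivisors κ] {c c' : ι → ι → κ} {r : κ}
    (hr : r ≠ 0) (hc : ∀ j k, c' j k = r * c j k) (h : QNondeg c) : QNondeg c' := by
  have h1 : ∀ v, qf c' v = r * qf c v := by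
    intro v
    unfold qf
    rw [Finset.mul_sum]
    refine Finset.sum_congr rfl fun j _ => ?_
    rw [Finset.mul_sum]
    refine Finset.sum_congr rfl fun k _ => ?_
    rw [hc]
    ring
  have h2 : ∀ v k, qd c' v k = r * qd c v k := by
    intro v k
    unfold qd
    rw [Finset.mul_sum]
    refine Finset.sum_congr rfl fun j _ => ?_
    rw [hc, hc]
    ring
  intro v hv hq
  rw [h1] at hq
  obtain ⟨k, hk⟩ := h v hv ((mul_eq_zero.1 hq).resolve_left hr)
  refine ⟨k, ?_⟩
  rw [h2]
  exact mul_ne_zero hr hk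

theorem a2_coord {O : Type} [CommRing O] [IsNoetherianRing O] {σ : Type} [Fintype σ]
    {𝔮 : Ideal (MvPolynomial σ O)} (hq : 𝔮 ≠ ⊤) {x : σ → MvPolynomial σ O} {y : MvPolynomial σ O}
    (hg : Par 𝔮 fun o => o.elim y x) :
    ∃ t, t ∉ 𝔮 ∧ ∀ z ∈ 𝔮, ∃ (μ : σ → MvPolynomial σ O) (ν : MvPolynomial σ O),
      t * z = ∑ j, μ j * x j + ν * y := by
  obtain ⟨t, ht, h⟩ := l1_nak hq hg
  refine ⟨t, ht, fun z hz => ?_⟩
  obtain ⟨a, ha⟩ := Ideal.mem_span_range_iff_exists_fun.mp (h z hz)
  refine ⟨fun j => a (some j), a none, ?_⟩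
  rw [← ha, Fintype.sum_option]
  simp only [Option.elim_none, Option.elim_some]
  ring

theorem a2_extqf {σ κ : Type} [Fintype σ] [CommRing κ] (c : σ → σ → κ) (b : σ → κ) (a : κ)
    (w : Option σ → κ) :
    qf (extMat c b a) w = qf c (fun j => w (some j)) + w none * ∑ j, b j * w (some j) +
      a * (w none * w none) := by
  unfold qf
  rw [Fintype.sum_option]
  simp only [Fintype.sum_option, extMat]
  rw [Finset.sum_add_distrib]
  simp only [zero_mul, Finset.sum_const_zero, zero_add]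
  rw [Finset.mul_sum]
  have : ∀ j, b j * (w none * w (some j)) = w none * (b j * w (some j)) := fun j => by ring
  simp only [this]
  ring

theorem a2_extqd {σ κ : Type} [Fintype σ] [CommRing κ] (c : σ → σ → κ) (b : σ → κ) (a : κ)
    (w : Option σ → κ) (k : σ) :
    qd (extMat c b a) w (some k) = qd c (fun j => w (some j)) k + b k * w none := by
  unfold qd
  rw [Fintype.sum_option]
  simp only [extMat]
  ring

theorem a2_extMat_map {σ A B : Type} [Fintype σ] [CommRing A] [CommRing B] (θ : A →+* B)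
    (c : σ → σ → A) (b : σ → A) (a : A) :
    (fun j k => θ (extMat c b a j k)) = extMat (fun j k => θ (c j k)) (fun j => θ (b j)) (θ a) := by
  funext j k
  cases j <;> cases k <;> simp [extMat]

theorem a2_map_qf {A B : Type} [CommRing A] [CommRing B] {ι : Type} [Fintype ι]
    (θ : A →+* B) (c : ι → ι → A) (v : ι → A) :
    θ (qf c v) = qf (fun j k => θ (c j k)) fun j => θ (v j) := by
  unfold qf
  rw [map_sum]
  refine Finset.sum_congr rfl fun j _ => ?_
  rw [map_sum]
  refine Finset.sum_congr rfl fun k _ => ?_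
  rw [map_mul, map_mul]

theorem a2_map_qd {A B : Type} [CommRing A] [CommRing B] {ι : Type} [Fintype ι]
    (θ : A →+* B) (c : ι → ι → A) (v : ι → A) (k : ι) :
    θ (qd c v k) = qd (fun j k => θ (c j k)) (fun j => θ (v j)) k := by
  unfold qd
  rw [map_sum]
  refine Finset.sum_congr rfl fun j _ => ?_
  rw [map_mul, map_add]

/-- Change of variables. -/
theorem a2_subst {A σ : Type} [Fintype σ] [CommRing A] (c : σ → σ → A) (ξ x x' : σ → A) (z : A)
    (hx : ∀ j, x j = x' j + ξ j * z) :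
    ∑ j, ∑ k, c j k * (x j * x k) = ∑ j, ∑ k, c j k * (x' j * x' k) +
      z * ∑ k, qd c ξ k * x' k + qf c ξ * z ^ 2 := by
  have h1 : ∀ j k, c j k * (x j * x k) = c j k * (x' j * x' k) + (c j k * ξ k * x' j * z +
      c j k * ξ j * x' k * z) + c j k * (ξ j * ξ k) * z ^ 2 := by
    intro j k
    rw [hx j, hx k]
    ring
  simp only [h1, Finset.sum_add_distrib]
  unfold qf qd
  rw [Finset.sum_mul]
  simp only [Finset.sum_mul]
  have h2 : ∑ j, ∑ k, c j k * ξ k * x' j * z + ∑ j, ∑ k, c j k * ξ j * x' k * z =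
      z * ∑ k, ∑ j, (c j k + c k j) * ξ j * x' k := by
    rw [Finset.sum_comm (f := fun j k => c j k * ξ j * x' k * z), ← Finset.sum_add_distrib,
      Finset.mul_sum]
    refine Finset.sum_congr rfl fun k _ => ?_
    rw [← Finset.sum_add_distrib, Finset.mul_sum]
    refine Finset.sum_congr rfl fun j _ => ?_
    ring
  rw [h2]

theorem a2_split {O : Type} [CommRing O] [IsNoetherianRing O] {σ : Type} [Fintype σ]
    {𝔮 : Ideal (MvPolynomial σ O)} (hmax : 𝔮.IsMaximal) {F : MvPolynomial σ O}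
    {m : ℕ} {x : σ → MvPolynomial σ O} {y s : MvPolynomial σ O}
    {c : σ → σ → MvPolynomial σ O} {b : σ → MvPolynomial σ O} {u : MvPolynomial σ O}
    (h : HalfData F 𝔮 m x y s c b u) (hu : u ∈ 𝔮) :
    ∃ s' c' b' a', SplitData F 𝔮 (m + 1) x y s' c' b' a' := by
  have := hmax
  have hp : 𝔮.IsPrime := hmax.isPrime
  obtain ⟨t, ht, hco⟩ := a2_coord hmax.ne_top h.par
  obtain ⟨μ, ν, hμ⟩ := hco u hu
  refine ⟨t * s, fun j k => t * c j k, fun j => t * b j + y ^ m * μ j, ν, h.par,
    hp.mul_notMem ht h.hs, ?_, ?_⟩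
  · rw [mul_assoc, h.eq]
    have e1 : ∑ j, ∑ k, t * c j k * (x j * x k) = t * ∑ j, ∑ k, c j k * (x j * x k) := by
      rw [Finset.mul_sum]
      refine Finset.sum_congr rfl fun j _ => ?_
      rw [Finset.mul_sum]
      refine Finset.sum_congr rfl fun k _ => ?_
      ring
    have e2 : ∑ j, (t * b j + y ^ m * μ j) * x j = t * ∑ j, b j * x j + y ^ m * ∑ j, μ j * x j := by
      rw [Finset.mul_sum, Finset.mul_sum, ← Finset.sum_add_distrib]
      refine Finset.sum_congr rfl fun j _ => ?_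
      ring
    rw [e1, e2]
    linear_combination y ^ (2 * m + 1) * hμ
  · letI : Field (MvPolynomial σ O ⧸ 𝔮) := Ideal.Quotient.field 𝔮
    refine a2_scale (r := Ideal.Quotient.mk 𝔮 t) ?_ (fun j k => ?_) h.nd
    · rwa [Ne, Ideal.Quotient.eq_zero_iff_mem]
    · rw [map_mul]

theorem a2_half {O : Type} [CommRing O] [IsNoetherianRing O] {σ : Type} [Fintype σ]
    {𝔮 : Ideal (MvPolynomial σ O)} (hmax : 𝔮.IsMaximal) {F : MvPolynomial σ O}
    {m : ℕ} (hm : 1 ≤ m) {x : σ → MvPolynomial σ O} {y s : MvPolynomial σ O}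
    {c : σ → σ → MvPolynomial σ O} {b : σ → MvPolynomial σ O} {a : MvPolynomial σ O}
    (h : SplitData F 𝔮 m x y s c b a)
    (hnd : ¬ QNondeg fun j k => Ideal.Quotient.mk 𝔮 (extMat c b a j k)) :
    ∃ x' s' c' b' u', HalfData F 𝔮 m x' y s' c' b' u' := by
  have := hmax
  have hp : 𝔮.IsPrime := hmax.isPrime
  let _ : Field (MvPolynomial σ O ⧸ 𝔮) := Ideal.Quotient.field 𝔮
  rw [a2_extMat_map] at hnd
  unfold QNondeg at hnd
  push Not at hnd
  obtain ⟨w, hw, hqf, hqd⟩ := hnd
  have hw0 : w none ≠ 0 := by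
    intro h0
    have h1 : (fun j => w (some j)) ≠ 0 := by
      intro h2
      apply hw
      funext o
      cases o with
      | none => exact h0
      | some j => exact congrFun h2 j
    have h2 := a2_extqf (fun j k => Ideal.Quotient.mk 𝔮 (c j k)) (fun j => Ideal.Quotient.mk 𝔮 (b j))
      (Ideal.Quotient.mk 𝔮 a) w
    rw [hqf, h0] at h2
    simp only [zero_mul, mul_zero, add_zero] at h2
    obtain ⟨k, hk⟩ := h.nd _ h1 h2.symm
    apply hk
    have h3 := a2_extqd (fun j k => Ideal.Quotient.mk 𝔮 (c j k)) (fun j => Ideal.Quotient.mk 𝔮 (b j))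
      (Ideal.Quotient.mk 𝔮 a) w k
    rw [hqd, h0, mul_zero, add_zero] at h3
    exact h3.symm
  -- the lift of the kernel vector
  have hlift : ∀ j, ∃ z : MvPolynomial σ O, Ideal.Quotient.mk 𝔮 z = (w none)⁻¹ * w (some j) :=
    fun j => Ideal.Quotient.mk_surjective _
  choose ξ hξ using hlift
  have hqd' : ∀ k, qd c ξ k + b k ∈ 𝔮 := by
    intro k
    rw [← Ideal.Quotient.eq_zero_iff_mem, map_add, a2_map_qd]
    have h3 := a2_extqd (fun j k => Ideal.Quotient.mk 𝔮 (c j k)) (fun j => Ideal.Quotient.mk 𝔮 (b j))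
      (Ideal.Quotient.mk 𝔮 a) w k
    rw [hqd] at h3
    have h4 : qd (fun j k => Ideal.Quotient.mk 𝔮 (c j k)) (fun j => Ideal.Quotient.mk 𝔮 (ξ j)) k =
        (w none)⁻¹ * qd (fun j k => Ideal.Quotient.mk 𝔮 (c j k)) (fun j => w (some j)) k := by
      unfold qd
      rw [Finset.mul_sum]
      refine Finset.sum_congr rfl fun j _ => ?_
      simp only [hξ]
      ring
    rw [h4]
    have h5 : (w none)⁻¹ * (qd (fun j k => Ideal.Quotient.mk 𝔮 (c j k)) (fun j => w (some j)) k +
        Ideal.Quotient.mk 𝔮 (b k) * w none) = 0 := by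
      rw [← h3, mul_zero]
    have h6 : (w none)⁻¹ * w none = 1 := inv_mul_cancel₀ hw0
    linear_combination h5 - Ideal.Quotient.mk 𝔮 (b k) * h6
  have hqf' : qf c ξ + ∑ j, b j * ξ j + a ∈ 𝔮 := by
    rw [← Ideal.Quotient.eq_zero_iff_mem, map_add, map_add, a2_map_qf, map_sum]
    have h3 := a2_extqf (fun j k => Ideal.Quotient.mk 𝔮 (c j k)) (fun j => Ideal.Quotient.mk 𝔮 (b j))
      (Ideal.Quotient.mk 𝔮 a) w
    rw [hqf] at h3
    have h4 : qf (fun j k => Ideal.Quotient.mk 𝔮 (c j k)) (fun j => Ideal.Quotient.mk 𝔮 (ξ j)) =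
        (w none)⁻¹ ^ 2 * qf (fun j k => Ideal.Quotient.mk 𝔮 (c j k)) (fun j => w (some j)) := by
      unfold qf
      rw [Finset.mul_sum]
      refine Finset.sum_congr rfl fun j _ => ?_
      rw [Finset.mul_sum]
      refine Finset.sum_congr rfl fun k _ => ?_
      simp only [hξ]
      ring
    have h5 : ∑ j, Ideal.Quotient.mk 𝔮 (b j * ξ j) =
        (w none)⁻¹ * ∑ j, Ideal.Quotient.mk 𝔮 (b j) * w (some j) := by
      rw [Finset.mul_sum]
      refine Finset.sum_congr rfl fun j _ => ?_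
      rw [map_mul, hξ]
      ring
    rw [h4, h5]
    have h6 : (w none)⁻¹ * w none = 1 := inv_mul_cancel₀ hw0
    set Q := qf (fun j k => Ideal.Quotient.mk 𝔮 (c j k)) (fun j => w (some j))
    set S := ∑ j, Ideal.Quotient.mk 𝔮 (b j) * w (some j)
    set α := Ideal.Quotient.mk 𝔮 a
    have h7 : (w none)⁻¹ ^ 2 * (Q + w none * S + α * (w none * w none)) = 0 := by
      rw [← h3, mul_zero]
    have h8 : (w none)⁻¹ ^ 2 * (Q + w none * S + α * (w none * w none)) =
        (w none)⁻¹ ^ 2 * Q + ((w none)⁻¹ * w none) * ((w none)⁻¹ * S) +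
          α * ((w none)⁻¹ * w none) ^ 2 := by ring
    rw [h8, h6] at h7
    linear_combination h7
  -- the new coordinates
  have hx : ∀ o, (fun o : Option σ => o.elim y x) o ∈ 𝔮 := h.par.1
  have hxm : ∀ j, x j ∈ 𝔮 := fun j => hx (some j)
  have hym : y ∈ 𝔮 := hx none
  obtain ⟨n, rfl⟩ : ∃ n, m = n + 1 := ⟨m - 1, by omega⟩
  have hpar : Par 𝔮 fun o => o.elim y fun j => x j - ξ j * y ^ (n + 1) := by
    refine ⟨?_, h.par.2.trans (sup_le_sup_right ?_ _)⟩
    · intro o
      cases o with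
      | none => exact hym
      | some j =>
        refine Ideal.sub_mem _ (hxm j) (Ideal.mul_mem_left _ _ ?_)
        rw [pow_succ]
        exact Ideal.mul_mem_left _ _ hym
    · rw [Ideal.span_le]
      rintro _ ⟨o, rfl⟩
      cases o with
      | none => exact Ideal.subset_span ⟨none, rfl⟩
      | some j =>
        have h1 : x j = (x j - ξ j * y ^ (n + 1)) + ξ j * y ^ n * y := by
          rw [pow_succ]
          ring
        simp only [Option.elim_some]
        rw [h1]
        exact Ideal.add_mem _ (Ideal.subset_span ⟨some j, rfl⟩)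
          (Ideal.mul_mem_left _ _ (Ideal.subset_span ⟨none, rfl⟩))
  set x' : σ → MvPolynomial σ O := fun j => x j - ξ j * y ^ (n + 1) with hx'
  obtain ⟨t, ht, hco⟩ := a2_coord hmax.ne_top hpar
  have hβ : ∀ k, ∃ (μ : σ → MvPolynomial σ O) (ν : MvPolynomial σ O),
      t * (qd c ξ k + b k) = ∑ j, μ j * x' j + ν * y := fun k => hco _ (hqd' k)
  choose β γ hβγ using hβ
  obtain ⟨α, ν, hα⟩ := hco _ hqf'
  refine ⟨x', t * s, fun j k => t * c j k + y ^ (n + 1) * β k j, fun k => γ k + y ^ n * α k, ν,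
    hpar, hp.mul_notMem ht h.hs, ?_, ?_⟩
  · have e0 := a2_subst c ξ x x' (y ^ (n + 1)) (fun j => by rw [hx']; ring)
    have e1 : ∑ j, ∑ k, (t * c j k + y ^ (n + 1) * β k j) * (x' j * x' k) =
        t * ∑ j, ∑ k, c j k * (x' j * x' k) +
          y ^ (n + 1) * ∑ k, (∑ j, β k j * x' j) * x' k := by
      have e2 : ∑ k, (∑ j, β k j * x' j) * x' k = ∑ j, ∑ k, β k j * (x' j * x' k) := by
        rw [Finset.sum_comm]
        refine Finset.sum_congr rfl fun k _ => ?_
        rw [Finset.sum_mul]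
        refine Finset.sum_congr rfl fun j _ => ?_
        ring
      rw [e2, Finset.mul_sum, Finset.mul_sum, ← Finset.sum_add_distrib]
      refine Finset.sum_congr rfl fun j _ => ?_
      rw [Finset.mul_sum, Finset.mul_sum, ← Finset.sum_add_distrib]
      refine Finset.sum_congr rfl fun k _ => ?_
      ring
    have e3 : ∑ k, (γ k + y ^ n * α k) * x' k =
        ∑ k, γ k * x' k + y ^ n * ∑ k, α k * x' k := by
      rw [Finset.mul_sum, ← Finset.sum_add_distrib]
      refine Finset.sum_congr rfl fun j _ => ?_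
      ring
    have e4 : ∑ k, (∑ j, β k j * x' j) * x' k = t * ∑ k, qd c ξ k * x' k + t * ∑ k, b k * x' k -
        y * ∑ k, γ k * x' k := by
      rw [Finset.mul_sum, Finset.mul_sum, Finset.mul_sum, ← Finset.sum_add_distrib,
        ← Finset.sum_sub_distrib]
      refine Finset.sum_congr rfl fun k _ => ?_
      linear_combination -x' k * hβγ k
    have e5 : ∑ j, b j * x j = ∑ j, b j * x' j + y ^ (n + 1) * ∑ j, b j * ξ j := by
      rw [Finset.mul_sum, ← Finset.sum_add_distrib]
      refine Finset.sum_congr rfl fun j _ => ?_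
      rw [hx']
      ring
    rw [e1, e3, e4, mul_assoc, h.eq, e0, e5]
    linear_combination y ^ (2 * (n + 1)) * hα
  · refine a2_scale (r := Ideal.Quotient.mk 𝔮 t) ?_ (fun j k => ?_) h.nd
    · rwa [Ne, Ideal.Quotient.eq_zero_iff_mem]
    · rw [map_add, map_mul, map_mul, map_pow, (Ideal.Quotient.eq_zero_iff_mem).2 hym]
      ring

end A2

section A3

/-- The elements which are locally in `J`. -/
def a3_sat {A : Type} [CommRing A] (𝔮 J : Ideal A) (hp : 𝔮.IsPrime) : Ideal A where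
  carrier := {z | ∃ t, t ∉ 𝔮 ∧ t * z ∈ J}
  zero_mem' := ⟨1, fun h => hp.ne_top ((Ideal.eq_top_iff_one _).mpr h), by
    rw [mul_zero]
    exact J.zero_mem⟩
  add_mem' := by
    rintro a b ⟨t, ht, hta⟩ ⟨t', ht', htb⟩
    refine ⟨t * t', hp.mul_notMem ht ht', ?_⟩
    have h1 : t * t' * (a + b) = t' * (t * a) + t * (t' * b) := by ring
    rw [h1]
    exact J.add_mem (J.mul_mem_left _ hta) (J.mul_mem_left _ htb)
  smul_mem' := by
    rintro c a ⟨t, ht, hta⟩
    refine ⟨t, ht, ?_⟩
    have h1 : t * (c • a) = c * (t * a) := by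
      rw [smul_eq_mul]
      ring
    rw [h1]
    exact J.mul_mem_left _ hta

theorem a3_sat_of_mul {A : Type} [CommRing A] {𝔮 J : Ideal A} {hp : 𝔮.IsPrime} {t z : A}
    (ht : t ∉ 𝔮) (h : t * z ∈ a3_sat 𝔮 J hp) : z ∈ a3_sat 𝔮 J hp := by
  obtain ⟨t', ht', h'⟩ := h
  refine ⟨t' * t, hp.mul_notMem ht' ht, ?_⟩
  rwa [mul_assoc]

theorem a3_sat_of_mem {A : Type} [CommRing A] {𝔮 J : Ideal A} {hp : 𝔮.IsPrime} {t z : A}
    (ht : t ∉ 𝔮) (h : t * z ∈ J) : z ∈ a3_sat 𝔮 J hp := ⟨t, ht, h⟩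

/-- Derivatives of elements of the square. -/
theorem a3_deriv {A P : Type} [CommRing A] [CommRing P] [Algebra A P]
    (d : Derivation A P P) (Q : Ideal P) {x : P} (hx : x ∈ Q ^ 2) : d x ∈ Q := by
  rw [pow_two] at hx
  induction hx using Submodule.mul_induction_on' with
  | mem_mul_mem a ha b hb =>
    rw [Derivation.leibniz, smul_eq_mul, smul_eq_mul]
    exact Q.add_mem (Q.mul_mem_right _ ha) (Q.mul_mem_right _ hb)
  | add a _ b _ ha hb =>
    rw [map_add]
    exact Q.add_mem ha hb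

/-- Two powers of an element of a finite ring agree. -/
theorem a3_pigeon {B : Type} [CommRing B] [Finite B] (z : B) :
    ∃ i j : ℕ, i < j ∧ i ≤ Nat.card B ∧ z ^ i = z ^ j := by
  classical
  have hB := Fintype.ofFinite B
  obtain ⟨a, b, hab, h⟩ := Fintype.exists_ne_map_eq_of_card_lt
    (fun i : Fin (Nat.card B + 1) => z ^ (i : ℕ)) (by
      rw [Fintype.card_fin, Nat.card_eq_fintype_card]
      exact Nat.lt_succ_self _)
  rcases lt_or_gt_of_ne (fun h' : (a : ℕ) = b => hab (Fin.ext h')) with h1 | h1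
  · exact ⟨a, b, h1, Nat.lt_succ_iff.mp a.2, h⟩
  · exact ⟨b, a, h1, Nat.lt_succ_iff.mp b.2, h.symm⟩

/-- A power of an element of `𝔮` lies locally in an ideal with finite quotient. -/
theorem a3_pow_mem {B : Type} [CommRing B] (J : Ideal B) (hJ : Finite (B ⧸ J)) {𝔮 : Ideal B}
    (hp : 𝔮.IsPrime) {y : B} (hy : y ∈ 𝔮) : ∃ s, s ∉ 𝔮 ∧ s * y ^ Nat.card (B ⧸ J) ∈ J := by
  obtain ⟨i, j, hij, hi, h⟩ := a3_pigeon (Ideal.Quotient.mk J y)
  refine ⟨1 - y ^ (j - i), fun h1 => hp.ne_top ((Ideal.eq_top_iff_one _).mpr ?_), ?_⟩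
  · have h2 : y ^ (j - i) ∈ 𝔮 := Ideal.pow_mem_of_mem _ hy _ (by omega)
    have h3 := 𝔮.add_mem h1 h2
    rwa [sub_add_cancel] at h3
  · rw [← Ideal.Quotient.eq_zero_iff_mem]
    have h1 : (1 - y ^ (j - i)) * y ^ Nat.card (B ⧸ J) =
        (y ^ i - y ^ j) * y ^ (Nat.card (B ⧸ J) - i) := by
      obtain ⟨k, hk⟩ := Nat.exists_eq_add_of_lt hij
      obtain ⟨l, hl⟩ := Nat.exists_eq_add_of_le hi
      have e1 : j - i = k + 1 := by omega
      have e2 : Nat.card (B ⧸ J) - i = l := by omega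
      rw [e1, e2, hl, hk]
      ring
    rw [h1, map_mul, map_sub, map_pow, map_pow, h, sub_self, zero_mul]

/-- Locally, `𝔮` is generated by parameters. -/
theorem a3_loc {O : Type} [CommRing O] [IsNoetherianRing O] {σ : Type} [Fintype σ]
    {𝔮 : Ideal (MvPolynomial σ O)} (hp : 𝔮.IsPrime) {g : Option σ → MvPolynomial σ O}
    (hg : Par 𝔮 g) : ∃ r, r ∉ 𝔮 ∧ ∀ z ∈ 𝔮, r * z ∈ Ideal.span (Set.range g) := by
  obtain ⟨r, hr1, hr2⟩ := Submodule.exists_sub_one_mem_and_smul_eq_zero_of_fg_of_le_smul 𝔮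
    (Submodule.map (Submodule.mkQ (Ideal.span (Set.range g))) 𝔮)
    (Submodule.FG.map _ (IsNoetherian.noetherian _)) (by
      rw [← Submodule.map_smul'']
      rintro _ ⟨x, hx, rfl⟩
      obtain ⟨a, ha, b, hb, hab⟩ := Submodule.mem_sup.1 (hg.2 hx)
      refine ⟨b, ?_, ?_⟩
      · rw [SetLike.mem_coe, smul_eq_mul, ← pow_two]
        exact hb
      · rw [← hab, map_add]
        have : Submodule.mkQ (Ideal.span (Set.range g)) a = 0 := by
          rw [Submodule.mkQ_apply, Submodule.Quotient.mk_eq_zero]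
          exact ha
        rw [this, zero_add])
  refine ⟨r, fun hr => hp.ne_top (Ideal.eq_top_iff_one 𝔮 |>.2 ?_), fun z hz => ?_⟩
  · have := 𝔮.sub_mem hr hr1
    simpa using this
  · have := hr2 _ (Submodule.mem_map_of_mem (f := Submodule.mkQ (Ideal.span (Set.range g))) hz)
    rw [← map_smul, Submodule.mkQ_apply, Submodule.Quotient.mk_eq_zero] at this
    exact this

end A3

variable {O : Type} [CommRing O] [IsDomain O] [IsDiscreteValuationRing O] {σ : Type} [Fintype σ]
  [DecidableEq σ] {ϖ : O} (hϖ : Irreducible ϖ) (hfin : Finite (O ⧸ Ideal.span {ϖ}))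
  {F : MvPolynomial σ O} {𝔮 : Ideal (MvPolynomial σ O)} (hmax : 𝔮.IsMaximal) (h𝔮 : C ϖ ∈ 𝔮)
include hϖ hfin hmax h𝔮

/-- As in `odpAt_of_lineKer` of Fraction.lean: in parameters `g'` whose kernel vector is
`none`, `F - ∑ c' (g' (some j)) (g' (some k)) ∈ 𝔮 ^ 3`, `x j = g' (some j)`, `y = g' none`; locally
`𝔮 = (x, y)`, so `s * (element of 𝔮 ^ 3)` is a combination of the `x x x`, `x x y` (absorbed in `c`,
with coefficients in `𝔮`), `x y y`, `y y y`; `c` becomes `s * c' + 𝔮`. -/
theorem exists_halfData (hF : ∃ (g : Option σ → MvPolynomial σ O)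
    (c : Option σ → Option σ → MvPolynomial σ O), Par 𝔮 g ∧
      F - ∑ j, ∑ k, c j k * (g j * g k) ∈ 𝔮 ^ 3 ∧
      ∃ v, LineKer (fun j k => Ideal.Quotient.mk 𝔮 (c j k)) v) :
    ∃ x y s c b u, HalfData F 𝔮 1 x y s c b u := by
  obtain ⟨g, c, hg, hc, hv⟩ := hF
  obtain ⟨g', c', hg', hc', hn⟩ := a1_lineKer hmax hg c hv
  obtain ⟨s, hs, hs'⟩ := a1_span hmax.ne_top hg'.2
  have hprime : 𝔮.IsPrime := hmax.isPrime
  have h1 : F - ∑ j, ∑ k, c' j k * (g' (some j) * g' (some k)) ∈ 𝔮 ^ 3 := by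
    have h2 : F - ∑ j, ∑ k, c' j k * (g' (some j) * g' (some k)) =
        (F - ∑ j, ∑ k, c j k * (g j * g k)) -
          (∑ j, ∑ k, c' j k * (g' (some j) * g' (some k)) - ∑ j, ∑ k, c j k * (g j * g k)) := by
      ring
    rw [h2]
    exact Ideal.sub_mem _ hc hc'
  have hfun : (fun o : Option σ => o.elim (g' none) fun j => g' (some j)) = g' := by
    funext o
    cases o <;> rfl
  have h3 : s ^ 3 * (F - ∑ j, ∑ k, c' j k * (g' (some j) * g' (some k))) ∈
      Ideal.span (Set.range fun o : Option σ => o.elim (g' none) fun j => g' (some j)) ^ 3 := by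
    rw [hfun]
    exact a1_pow hs' 3 h1
  obtain ⟨d, b, u, hd, he⟩ := a1_cubic (fun j => hg'.1 (some j)) (hg'.1 none) h3
  refine ⟨fun j => g' (some j), g' none, s ^ 3, fun j k => s ^ 3 * c' j k + d j k, b, u, ?_, ?_,
    ?_, ?_⟩
  · rw [hfun]
    exact hg'
  · exact fun h => hs (hprime.mem_of_pow_mem 3 h)
  · have h4 : ∑ j, ∑ k, (s ^ 3 * c' j k + d j k) * (g' (some j) * g' (some k)) =
        s ^ 3 * ∑ j, ∑ k, c' j k * (g' (some j) * g' (some k)) +
          ∑ j, ∑ k, d j k * (g' (some j) * g' (some k)) := by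
      rw [Finset.mul_sum, ← Finset.sum_add_distrib]
      refine Finset.sum_congr rfl fun j _ => ?_
      rw [Finset.mul_sum, ← Finset.sum_add_distrib]
      refine Finset.sum_congr rfl fun k _ => ?_
      ring
    rw [h4]
    linear_combination he
  · have h5 : (fun j k => Ideal.Quotient.mk 𝔮 (s ^ 3 * c' j k + d j k)) =
        fun j k => Ideal.Quotient.mk 𝔮 (s ^ 3) * Ideal.Quotient.mk 𝔮 (c' j k) := by
      funext j k
      rw [map_add, map_mul, Ideal.Quotient.eq_zero_iff_mem.2 (hd j k), add_zero]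
    rw [h5]
    refine a1_scale ?_ hn
    rw [Ne, Ideal.Quotient.eq_zero_iff_mem]
    exact fun h => hs (hprime.mem_of_pow_mem 3 h)

/-- `u ∈ 𝔮 = (x, y)` locally: `s * u = ∑ μ j * x j + ν * y` and
`y ^ (2 * m + 1) * μ j * x j = y ^ (m + 2) * (...) * x j` if `m ≥ 1`, or simply
`y ^ (m + 1) * (y ^ m * μ j) * x j`: so `SplitData F 𝔮 (m + 1) x y s' (s * c) (s * b + ..) ν` holds. If
the matrix `extMat` is nondegenerate modulo `𝔮`: type I. Otherwise its kernel contains a vector
`(ξ, t)`, `t ≠ 0` since `c` is nondegenerate, so `(ξ, 1)`; with `x' j = x j - ξ j * y ^ (m + 1)`,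
`s' * F = ∑ c x' x' + y ^ (m + 1) * ∑ b' x' + a' * y ^ (2 * m + 2)` with `b'`, `a'` in `𝔮` (`b'` is the
polar with the kernel vector, `a'` the value at it). Write again `b' = (x') + (y)`, `a' = (x') + (y)`
locally: the `(x')` part of `b'` is absorbed in `c` with the coefficient `y ^ (m + 1)` in `𝔮`, the
`(x')` part of `a'` in `b` with the coefficient `y ^ m` (`y ^ (2 * m + 2) = y ^ (m + 2) * y ^ m`). -/
theorem HalfData.step {m : ℕ} (hm : 1 ≤ m) {x : σ → MvPolynomial σ O} {y s : MvPolynomial σ O}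
    {c : σ → σ → MvPolynomial σ O} {b : σ → MvPolynomial σ O} {u : MvPolynomial σ O}
    (h : HalfData F 𝔮 m x y s c b u) (hu : u ∈ 𝔮) :
    TypeI F 𝔮 (m + 1) x y ∨ ∃ x' s' c' b' u', HalfData F 𝔮 (m + 1) x' y s' c' b' u' := by
  obtain ⟨s', c', b', a', h'⟩ := a2_split hmax h hu
  by_cases hnd : QNondeg fun j k => Ideal.Quotient.mk 𝔮 (extMat c' b' a' j k)
  · exact Or.inl ⟨s', c', b', a', h', hnd⟩
  · exact Or.inr (a2_half hmax (by omega) h' hnd)

omit [DecidableEq σ] in
/-- No power of the last parameter lies locally in the ideal of the other ones. -/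
theorem a3_no_pow {x : σ → MvPolynomial σ O} {y : MvPolynomial σ O}
    (hg : Par 𝔮 fun o => o.elim y x) {s : MvPolynomial σ O} (hs : s ∉ 𝔮) {k : ℕ}
    (h : s * y ^ k ∈ Ideal.span (Set.range x)) : False := by
  classical
  have hprime : 𝔮.IsPrime := hmax.isPrime
  obtain ⟨r, hr, hr2⟩ := a3_loc hprime hg
  have hI𝔮 : Ideal.span (Set.range x) ≤ 𝔮 := by
    rw [Ideal.span_le]
    rintro _ ⟨j, rfl⟩
    exact hg.1 (some j)
  have hmin : 𝔮 ∈ (Ideal.span
      ((Finset.univ.image x : Finset (MvPolynomial σ O)) :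
        Set (MvPolynomial σ O))).minimalPrimes := by
    rw [Finset.coe_image, Finset.coe_univ, Set.image_univ]
    refine ⟨⟨hprime, hI𝔮⟩, ?_⟩
    rintro p ⟨hp, hIp⟩ hle z hz
    have hyp : y ∈ p := by
      rcases hp.mem_or_mem (hIp h) with h2 | h2
      · exact absurd (hle h2) hs
      · exact hp.mem_of_pow_mem k h2
    have hspan : Ideal.span (Set.range fun o : Option σ => o.elim y x) ≤ p := by
      rw [Ideal.span_le]
      rintro _ ⟨o | j, rfl⟩
      · exact hyp
      · exact hIp (Ideal.subset_span ⟨j, rfl⟩)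
    rcases hp.mem_or_mem (hspan (hr2 z hz)) with h2 | h2
    · exact absurd (hle h2) hr
    · exact h2
  have hle := Ideal.height_le_card_of_mem_minimalPrimes_span_finset hmin
  rw [height_closedPoint hϖ hfin hmax h𝔮] at hle
  have hcard : (Finset.univ.image x).card ≤ Fintype.card σ :=
    Finset.card_image_le.trans (by simp)
  have : Fintype.card σ + 1 ≤ Fintype.card σ := by
    have h5 := hle.trans (Nat.cast_le.2 hcard)
    exact_mod_cast h5
  omega

/-- Let `N₀` be the number of elements of the finite ring `A / (ϖ, ∂F)`; for `y ∈ 𝔮` there is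
`s₁ ∉ 𝔮` with `s₁ * y ^ N₀ ∈ (ϖ, ∂F)` (two powers of `y` agree modulo the ideal). The equation gives
(multiply by `s`, differentiate) `s * F`, `s ^ 2 * ∂F ∈ (x) + (y ^ m)`. So locally
`y ^ N₀ ∈ (ϖ) + (x) + (y ^ m)` and `ϖ ^ r ∈ (x) + (y ^ m)`, `y ^ (r * N₀) ∈ (x) + (y ^ m)`; if
`m > r * N₀`, then `s₄ * y ^ (r * N₀) ∈ (x)`, `s₄ ∉ 𝔮`: impossible, since `𝔮` would be a minimal prime
of `(x)`, against `height_closedPoint` and Krull's height theorem. -/
theorem exists_level_bound (hJ : FinSing ϖ F)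
    (hsm : ∃ r : ℕ, C ϖ ^ r ∈ Ideal.span (insert F (Set.range fun l => pderiv l F))) :
    ∃ M : ℕ, ∀ (m : ℕ) (x : σ → MvPolynomial σ O) (y s : MvPolynomial σ O)
      (c : σ → σ → MvPolynomial σ O) (b : σ → MvPolynomial σ O) (u : MvPolynomial σ O),
      HalfData F 𝔮 m x y s c b u → m ≤ M := by
  obtain ⟨r, hr⟩ := hsm
  have hp : 𝔮.IsPrime := hmax.isPrime
  set Jf : Ideal (MvPolynomial σ O) :=
    Ideal.span (insert (C ϖ) (insert F (Set.range fun l => pderiv l F))) with hJf
  refine ⟨Nat.card (MvPolynomial σ O ⧸ Jf) * r, ?_⟩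
  intro m x y s c b u h
  by_contra hm
  push Not at hm
  set I : Ideal (MvPolynomial σ O) := Ideal.span (Set.range x) with hI
  set J : Ideal (MvPolynomial σ O) := I ⊔ Ideal.span {y ^ m} with hJdef
  have hIJ : I ≤ J := le_sup_left
  have hyJ : y ^ m ∈ J := (le_sup_right : Ideal.span {y ^ m} ≤ J) (Ideal.mem_span_singleton_self _)
  have hx : ∀ j, x j ∈ J := fun j => hIJ (Ideal.subset_span ⟨j, rfl⟩)
  have hsF : s * F ∈ J ^ 2 := by
    rw [h.eq, pow_two]
    refine Ideal.add_mem _ (Ideal.add_mem _ ?_ ?_) ?_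
    · exact Ideal.sum_mem _ fun j _ => Ideal.sum_mem _ fun k _ =>
        Ideal.mul_mem_left _ _ (Ideal.mul_mem_mul (hx j) (hx k))
    · refine Ideal.mul_mem_mul ?_ (Ideal.sum_mem _ fun j _ => Ideal.mul_mem_left _ _ (hx j))
      rw [pow_succ]
      exact Ideal.mul_mem_right _ _ hyJ
    · have e : u * y ^ (2 * m + 1) = (u * y) * (y ^ m * y ^ m) := by ring
      rw [e]
      exact Ideal.mul_mem_left _ _ (Ideal.mul_mem_mul hyJ hyJ)
  have hsFJ : s * F ∈ J := Ideal.pow_le_self two_ne_zero hsF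
  have hF : F ∈ a3_sat 𝔮 J hp := a3_sat_of_mem h.hs hsFJ
  have hdF : ∀ l, pderiv l F ∈ a3_sat 𝔮 J hp := by
    intro l
    refine a3_sat_of_mem (hp.mul_notMem h.hs h.hs) ?_
    have h1 : pderiv l (s * F) ∈ J := a3_deriv (pderiv l) J hsF
    rw [Derivation.leibniz, smul_eq_mul, smul_eq_mul] at h1
    have h2 : s * s * pderiv l F = s * (s * pderiv l F + F * pderiv l s) -
        pderiv l s * (s * F) := by ring
    rw [h2]
    exact J.sub_mem (J.mul_mem_left _ h1) (J.mul_mem_left _ hsFJ)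
  have hϖr : C ϖ ^ r ∈ a3_sat 𝔮 J hp := by
    refine (Ideal.span_le.mpr ?_) hr
    rintro _ (rfl | ⟨l, rfl⟩)
    · exact hF
    · exact hdF l
  have hy : y ∈ 𝔮 := h.par.1 none
  obtain ⟨s₁, hs₁, h1⟩ := a3_pow_mem Jf hJ hp hy
  have hJf2 : Jf ≤ Ideal.span {C ϖ} ⊔ a3_sat 𝔮 J hp := by
    rw [hJf, Ideal.span_le]
    rintro _ (rfl | rfl | ⟨l, rfl⟩)
    · exact (le_sup_left : Ideal.span {C ϖ} ≤ Ideal.span {C ϖ} ⊔ a3_sat 𝔮 J hp)
        (Ideal.mem_span_singleton_self _)
    · exact (le_sup_right : a3_sat 𝔮 J hp ≤ Ideal.span {C ϖ} ⊔ a3_sat 𝔮 J hp) hF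
    · exact (le_sup_right : a3_sat 𝔮 J hp ≤ Ideal.span {C ϖ} ⊔ a3_sat 𝔮 J hp) (hdF l)
  obtain ⟨α, hα, κ, hκ, hακ⟩ := Submodule.mem_sup.mp (hJf2 h1)
  obtain ⟨a, rfl⟩ := Ideal.mem_span_singleton'.mp hα
  have h2 : y ^ (Nat.card (MvPolynomial σ O ⧸ Jf) * r) ∈ a3_sat 𝔮 J hp := by
    have h3 : s₁ ^ r * y ^ (Nat.card (MvPolynomial σ O ⧸ Jf) * r) ∈ a3_sat 𝔮 J hp := by
      have h4 : s₁ ^ r * y ^ (Nat.card (MvPolynomial σ O ⧸ Jf) * r) =
          (s₁ * y ^ Nat.card (MvPolynomial σ O ⧸ Jf)) ^ r := by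
        rw [mul_pow, pow_mul]
      rw [h4]
      have h5 : (s₁ * y ^ Nat.card (MvPolynomial σ O ⧸ Jf)) ^ r - (a * C ϖ) ^ r ∈
          a3_sat 𝔮 J hp := by
        refine Ideal.mem_of_dvd _ (sub_dvd_pow_sub_pow _ _ r) ?_
        rw [← hακ, add_sub_cancel_left]
        exact hκ
      have h6 : (a * C ϖ) ^ r ∈ a3_sat 𝔮 J hp := by
        rw [mul_pow]
        exact Ideal.mul_mem_left _ _ hϖr
      have h7 := Ideal.add_mem _ h5 h6
      rwa [sub_add_cancel] at h7
    exact a3_sat_of_mul (fun hh => hs₁ (hp.mem_of_pow_mem r hh)) h3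
  obtain ⟨t, ht, h3⟩ := h2
  obtain ⟨z, hz, w, hw, hzw⟩ := Submodule.mem_sup.mp h3
  obtain ⟨a', rfl⟩ := Ideal.mem_span_singleton'.mp hw
  obtain ⟨k, hk⟩ := Nat.exists_eq_add_of_lt hm
  refine a3_no_pow hϖ hfin hmax h𝔮 h.par (s := t - a' * y ^ (k + 1))
    (k := Nat.card (MvPolynomial σ O ⧸ Jf) * r) (fun hh => ht ?_) ?_
  · have h4 : a' * y ^ (k + 1) ∈ 𝔮 :=
      𝔮.mul_mem_left _ (Ideal.pow_mem_of_mem _ hy _ (Nat.succ_pos k))
    have h5 := 𝔮.add_mem hh h4
    rwa [sub_add_cancel] at h5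
  · have h4 : (t - a' * y ^ (k + 1)) * y ^ (Nat.card (MvPolynomial σ O ⧸ Jf) * r) = z := by
      have h5 : a' * y ^ m = a' * y ^ (k + 1) * y ^ (Nat.card (MvPolynomial σ O ⧸ Jf) * r) := by
        rw [hk]
        ring
      rw [sub_mul, ← hzw, h5]
      ring
    rw [h4]
    exact hz

/-- The types. -/
theorem exists_type (hF : ∃ (g : Option σ → MvPolynomial σ O)
    (c : Option σ → Option σ → MvPolynomial σ O), Par 𝔮 g ∧
      F - ∑ j, ∑ k, c j k * (g j * g k) ∈ 𝔮 ^ 3 ∧
      ∃ v, LineKer (fun j k => Ideal.Quotient.mk 𝔮 (c j k)) v) (hJ : FinSing ϖ F)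
    (hsm : ∃ r : ℕ, C ϖ ^ r ∈ Ideal.span (insert F (Set.range fun l => pderiv l F))) :
    ∃ m x y, 1 ≤ m ∧ (TypeI F 𝔮 m x y ∨ TypeII F 𝔮 m x y) := by
  obtain ⟨M, hM⟩ := exists_level_bound hϖ hfin hmax h𝔮 hJ hsm
  by_contra hcon
  push Not at hcon
  have key : ∀ m, 1 ≤ m → ∃ x y s c b u, HalfData F 𝔮 m x y s c b u := by
    intro m hm
    induction m, hm using Nat.le_induction with
    | base => exact exists_halfData hϖ hfin hmax h𝔮 hF
    | succ m hm ih =>
      obtain ⟨x, y, s, c, b, u, h⟩ := ih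
      have hu : u ∈ 𝔮 := by
        by_contra hu
        exact (hcon m x y hm).2 ⟨s, c, b, u, h, hu⟩
      rcases h.step hϖ hfin hmax h𝔮 hm hu with h1 | ⟨x', s', c', b', u', h1⟩
      · exact absurd h1 (hcon (m + 1) x y (by omega)).1
      · exact ⟨x', y, s', c', b', u', h1⟩
  obtain ⟨x, y, s, c, b, u, h⟩ := key (M + 1) (by omega)
  have := hM _ _ _ _ _ _ _ h
  omega

end Pool.Agent.Lib.MP_6a3dac_ag.Maj
end

section

/-!
# The last chart of the blow-up of the product of the ideals `(x, y ^ j)`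
-/

set_option autoImplicit false

namespace Pool.Agent.Lib.MP_6a3dac_ag.Maj

open MvPolynomial IsLocalRing
open Pool.Agent.Lib.MP_6a3dac_ag.DNF

/-- The data of a local ring of the blow-up at a point of the hypersurface. -/
structure PointHyp {O : Type} [CommRing O] {σ : Type} {D : Type} [CommRing D] [IsLocalRing D]
    (φ : MvPolynomial σ O →+* D) (ϖ : O) (F : MvPolynomial σ O)
    (𝔮 : Ideal (MvPolynomial σ O)) : Prop where
  zero : φ F = 0
  ker : ∀ g, φ g = 0 → ∃ m : O, m ≠ 0 ∧ ∃ q, C m * g = F * q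
  char : ∀ m : O, m ≠ 0 → φ (C m) ≠ 0
  eq : 𝔮 = Ideal.comap φ (maximalIdeal D)
  max : 𝔮.IsMaximal
  unif : C ϖ ∈ 𝔮

/-- The equations of the last chart. -/
noncomputable def arel {O : Type} [CommRing O] {σ : Type} (x : σ → MvPolynomial σ O)
    (y : MvPolynomial σ O) (m : ℕ) (j : σ) : MvPolynomial (σ ⊕ σ) O :=
  rename Sum.inl (x j) - rename Sum.inl y ^ m * X (Sum.inr j)

/-- Clearing denominators in the last chart. -/
theorem b1_clear {O : Type} [CommRing O] {σ : Type} (x : σ → MvPolynomial σ O)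
    (y : MvPolynomial σ O) (m : ℕ) (p : MvPolynomial (σ ⊕ σ) O) :
    ∃ (N : ℕ) (p₀ : MvPolynomial σ O),
      rename Sum.inl y ^ N * p - rename Sum.inl p₀ ∈ Ideal.span (Set.range (arel x y m)) := by
  have hX : ∀ z : σ ⊕ σ, ∃ (N : ℕ) (p₀ : MvPolynomial σ O),
      rename Sum.inl y ^ N * X z - rename Sum.inl p₀ ∈ Ideal.span (Set.range (arel x y m)) := by
    rintro (j | j)
    · refine ⟨0, X j, ?_⟩
      rw [pow_zero, one_mul, rename_X, sub_self]
      exact Ideal.zero_mem _
    · refine ⟨m, x j, ?_⟩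
      rw [← neg_mem_iff, neg_sub]
      exact Ideal.subset_span ⟨j, rfl⟩
  induction p using MvPolynomial.induction_on with
  | C a =>
    refine ⟨0, C a, ?_⟩
    rw [pow_zero, one_mul, rename_C, sub_self]
    exact Ideal.zero_mem _
  | add a b ha hb =>
    obtain ⟨N, p, h1⟩ := ha
    obtain ⟨M, q, h2⟩ := hb
    refine ⟨N + M, y ^ M * p + y ^ N * q, ?_⟩
    have h3 : rename Sum.inl y ^ (N + M) * (a + b) -
        rename Sum.inl (y ^ M * p + y ^ N * q) =
        rename Sum.inl y ^ M * (rename Sum.inl y ^ N * a - rename Sum.inl p) +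
        rename Sum.inl y ^ N * (rename Sum.inl y ^ M * b - rename Sum.inl q) := by
      simp only [map_add, map_mul, map_pow]
      ring
    rw [h3]
    exact Ideal.add_mem _ (Ideal.mul_mem_left _ _ h1) (Ideal.mul_mem_left _ _ h2)
  | mul_X a z ha =>
    obtain ⟨N, p, h1⟩ := ha
    obtain ⟨M, q, h2⟩ := hX z
    refine ⟨N + M, p * q, ?_⟩
    have h3 : rename Sum.inl y ^ (N + M) * (a * X z) -
        rename Sum.inl (p * q) =
        rename Sum.inl y ^ M * X z * (rename Sum.inl y ^ N * a - rename Sum.inl p) +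
        rename Sum.inl p * (rename Sum.inl y ^ M * X z - rename Sum.inl q) := by
      simp only [map_mul]
      ring
    rw [h3]
    exact Ideal.add_mem _ (Ideal.mul_mem_left _ _ h1) (Ideal.mul_mem_left _ _ h2)

section B2aux

/-- The coordinates on the last chart. -/
noncomputable def b2_v (O σ : Type) [CommRing O] (o : Option σ) : MvPolynomial (σ ⊕ σ) O :=
  o.elim 1 fun j => X (Sum.inr j)

/-- The strict transform of the equation in the last chart. -/
noncomputable def b2_Fs {O : Type} [CommRing O] {σ : Type} [Fintype σ]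
    (M : Option σ → Option σ → MvPolynomial σ O) : MvPolynomial (σ ⊕ σ) O :=
  qf (fun j l => rename Sum.inl (M j l)) (b2_v O σ)

theorem b2_deriv_qf {R A ι : Type} [CommRing R] [CommRing A] [Algebra R A] [Fintype ι]
    [DecidableEq ι] (d : Derivation R A A) (M : ι → ι → A) (v : ι → A) (k₀ : ι)
    (hM : ∀ j l, d (M j l) = 0) (hv : ∀ j, d (v j) = if j = k₀ then 1 else 0) :
    d (qf M v) = qd M v k₀ := by
  unfold qf qd
  rw [map_sum]
  have h2 : ∀ j, d (∑ k, M j k * (v j * v k)) =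
      M j k₀ * v j + if j = k₀ then ∑ k, M k₀ k * v k else 0 := by
    intro j
    rw [map_sum]
    have h3 : ∀ k, d (M j k * (v j * v k)) =
      (if k = k₀ then M j k * v j else 0) + (if j = k₀ then M j k * v k else 0) := by
      intro k
      rw [Derivation.leibniz, Derivation.leibniz, hM, smul_zero, add_zero, hv, hv]
      simp only [smul_eq_mul]
      split_ifs <;> ring
    simp only [h3]
    rw [Finset.sum_add_distrib, Finset.sum_ite_eq' Finset.univ k₀, if_pos (Finset.mem_univ _)]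
    congr 1
    split_ifs with hj
    · rw [hj]
    · rw [Finset.sum_const_zero]
  simp only [h2]
  rw [Finset.sum_add_distrib, Finset.sum_ite_eq' Finset.univ k₀, if_pos (Finset.mem_univ _),
    ← Finset.sum_add_distrib]
  refine Finset.sum_congr rfl fun j _ => ?_
  ring

theorem b2_pd_Fs {O : Type} [CommRing O] {σ : Type} [Fintype σ] [DecidableEq σ]
    (M : Option σ → Option σ → MvPolynomial σ O) (k : σ) :
    pderiv (Sum.inr k) (b2_Fs M) = qd (fun j l => rename Sum.inl (M j l)) (b2_v O σ) (some k) := by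
  refine b2_deriv_qf _ _ _ _ (fun j l => l2_pd_inl k _) fun j => ?_
  cases j with
  | none => simp [b2_v]
  | some j =>
    simp only [b2_v, Option.elim_some, Option.some.injEq, pderiv_X]
    split_ifs with h
    · rw [h, Pi.single_eq_same]
    · exact Pi.single_eq_of_ne (fun hh => h (Sum.inr_injective hh)) _

theorem b2_pd_arel {O : Type} [CommRing O] {σ : Type} [DecidableEq σ]
    (x : σ → MvPolynomial σ O) (y : MvPolynomial σ O) (m : ℕ) (k j : σ) :
    pderiv (Sum.inr k) (arel x y m j) = if j = k then -rename Sum.inl y ^ m else 0 := by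
  unfold arel
  rw [map_sub, l2_pd_inl, Derivation.leibniz, ← map_pow, l2_pd_inl, smul_zero, add_zero,
    smul_eq_mul, pderiv_X]
  split_ifs with h
  · subst h
    rw [Pi.single_eq_same, mul_one, zero_sub]
  · rw [Pi.single_eq_of_ne, mul_zero, sub_zero]
    intro hh
    exact h (Sum.inr_injective hh)

theorem b2_hid {O : Type} [CommRing O] {σ : Type} [Fintype σ]
    {F : MvPolynomial σ O} {m : ℕ} {x : σ → MvPolynomial σ O} {y s : MvPolynomial σ O}
    {c : σ → σ → MvPolynomial σ O} {b : σ → MvPolynomial σ O} {a : MvPolynomial σ O}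
    (heq : s * F = ∑ j, ∑ k, c j k * (x j * x k) + y ^ m * ∑ j, b j * x j + a * y ^ (2 * m)) :
    rename Sum.inl (s * F) - rename Sum.inl y ^ (2 * m) * b2_Fs (extMat c b a) ∈
      Ideal.span (Set.range (arel x y m)) := by
  rw [← Ideal.Quotient.eq, heq]
  set π := Ideal.Quotient.mk (Ideal.span (Set.range (arel x y m))) with hπdef
  have hπ : ∀ j, π (rename Sum.inl (x j)) = π (rename Sum.inl y) ^ m * π (X (Sum.inr j)) := by
    intro j
    rw [← map_pow, ← map_mul, hπdef, Ideal.Quotient.eq]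
    exact Ideal.subset_span ⟨j, rfl⟩
  unfold b2_Fs qf
  simp only [Fintype.sum_option, extMat, b2_v, Option.elim_none, Option.elim_some, map_add,
    map_mul, map_sum, map_pow, hπ, map_zero, mul_one, one_mul, zero_mul,
    zero_add]
  rw [mul_add, mul_add, Finset.mul_sum, Finset.mul_sum, Finset.mul_sum]
  have e1 : ∀ j, ∑ k, π (rename Sum.inl (c j k)) * (π (rename Sum.inl y) ^ m *
      π (X (Sum.inr j)) * (π (rename Sum.inl y) ^ m * π (X (Sum.inr k)))) =
      π (rename Sum.inl y) ^ (2 * m) * ∑ k, π (rename Sum.inl (c j k)) *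
        (π (X (Sum.inr j)) * π (X (Sum.inr k))) := by
    intro j
    rw [Finset.mul_sum]
    refine Finset.sum_congr rfl fun k _ => ?_
    ring
  have e2 : ∀ j, π (rename Sum.inl y) ^ m * (π (rename Sum.inl (b j)) *
      (π (rename Sum.inl y) ^ m * π (X (Sum.inr j)))) =
      π (rename Sum.inl y) ^ (2 * m) * (π (rename Sum.inl (b j)) * π (X (Sum.inr j))) := by
    intro j
    ring
  simp only [e1, e2]
  ring

end B2aux

section B3aux

variable {O : Type} [CommRing O] {σ : Type}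

theorem b3_pd_arel [DecidableEq σ] (x : σ → MvPolynomial σ O) (y : MvPolynomial σ O) (m : ℕ)
    (k j : σ) : pderiv (Sum.inr k) (arel x y m j) =
      if j = k then -rename Sum.inl y ^ m else 0 := by
  unfold arel
  rw [map_sub, l2_pd_inl, ← map_pow, Derivation.leibniz, l2_pd_inl, smul_zero, add_zero,
    smul_eq_mul, pderiv_X]
  split_ifs with h
  · subst h
    rw [Pi.single_eq_same, mul_one, zero_sub]
  · rw [Pi.single_eq_of_ne, mul_zero, sub_zero]
    intro hh
    exact h (Sum.inr_injective hh)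

theorem b3_pd_X [DecidableEq σ] (k j : σ) :
    pderiv (Sum.inr k) (X (Sum.inr j) : MvPolynomial (σ ⊕ σ) O) = if j = k then 1 else 0 := by
  rw [pderiv_X]
  split_ifs with h
  · subst h
    rw [Pi.single_eq_same]
  · rw [Pi.single_eq_of_ne]
    intro hh
    exact h (Sum.inr_injective hh)

theorem b3_pd_quad [Fintype σ] [DecidableEq σ] (c : σ → σ → MvPolynomial σ O) (k₀ : σ) :
    pderiv (Sum.inr k₀) (qf (fun j l => rename Sum.inl (c j l))
      (fun j => (X (Sum.inr j) : MvPolynomial (σ ⊕ σ) O))) =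
      qd (fun j l => rename Sum.inl (c j l)) (fun j => X (Sum.inr j)) k₀ := by
  unfold qf qd
  rw [map_sum]
  have h2 : ∀ j, pderiv (Sum.inr k₀) (∑ k, rename Sum.inl (c j k) *
      (X (Sum.inr j) * X (Sum.inr k) : MvPolynomial (σ ⊕ σ) O)) =
      rename Sum.inl (c j k₀) * X (Sum.inr j) +
        if j = k₀ then ∑ k, rename Sum.inl (c k₀ k) * X (Sum.inr k) else 0 := by
    intro j
    rw [map_sum]
    have h3 : ∀ k, pderiv (Sum.inr k₀) (rename Sum.inl (c j k) *
      (X (Sum.inr j) * X (Sum.inr k) : MvPolynomial (σ ⊕ σ) O)) =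
      (if k = k₀ then rename Sum.inl (c j k) * X (Sum.inr j) else 0) +
      (if j = k₀ then rename Sum.inl (c j k) * X (Sum.inr k) else 0) := by
      intro k
      rw [Derivation.leibniz, Derivation.leibniz, l2_pd_inl, smul_zero, add_zero, b3_pd_X,
        b3_pd_X]
      simp only [smul_eq_mul]
      split_ifs <;> ring
    simp only [h3]
    rw [Finset.sum_add_distrib, Finset.sum_ite_eq' Finset.univ k₀, if_pos (Finset.mem_univ _)]
    congr 1
    split_ifs with hj
    · rw [hj]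
    · rw [Finset.sum_const_zero]
  simp only [h2]
  rw [Finset.sum_add_distrib, Finset.sum_ite_eq' Finset.univ k₀, if_pos (Finset.mem_univ _),
    ← Finset.sum_add_distrib]
  refine Finset.sum_congr rfl fun j _ => ?_
  ring

/-- The argument with a derivation. -/
theorem b3_indep [Fintype σ] [DecidableEq σ] {Q : Ideal (MvPolynomial (σ ⊕ σ) O)} [Q.IsPrime]
    {x : σ → MvPolynomial σ O} {y : MvPolynomial σ O} {m : ℕ} (hm : 1 ≤ m)
    (hrel : ∀ j, arel x y m j ∈ Q) (hy : rename Sum.inl y ∈ Q)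
    {Fs : MvPolynomial (σ ⊕ σ) O} (hFs : Fs ∈ Q) (k : σ) (hk : pderiv (Sum.inr k) Fs ∉ Q)
    {s e : MvPolynomial (σ ⊕ σ) O} {c : σ → MvPolynomial (σ ⊕ σ) O}
    (hs : s ∉ Q) (h : s * (∑ j, c j * arel x y m j + e * Fs) ∈ Q ^ 2) : e ∈ Q := by
  have h1 := derivation_mem Q (pderiv (Sum.inr k)) hs h
  rw [map_add, map_sum, Derivation.leibniz, smul_eq_mul, smul_eq_mul] at h1
  have h2 : ∑ j, pderiv (Sum.inr k) (c j * arel x y m j) ∈ Q := by
    apply Ideal.sum_mem
    intro j _
    rw [Derivation.leibniz, smul_eq_mul, smul_eq_mul, b3_pd_arel]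
    apply Ideal.add_mem
    · apply Ideal.mul_mem_left
      split_ifs
      · exact Q.neg_mem (Ideal.pow_mem_of_mem Q hy m (by omega))
      · exact Q.zero_mem
    · exact Ideal.mul_mem_right _ _ (hrel j)
  have h3 : e * pderiv (Sum.inr k) Fs ∈ Q := by
    have h4 : Fs * pderiv (Sum.inr k) e ∈ Q := Ideal.mul_mem_right _ _ hFs
    have h5 := Q.sub_mem (Q.sub_mem h1 h2) h4
    have e1 : ∑ j, pderiv (Sum.inr k) (c j * arel x y m j) +
        (e * pderiv (Sum.inr k) Fs + Fs * pderiv (Sum.inr k) e) -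
        ∑ j, pderiv (Sum.inr k) (c j * arel x y m j) - Fs * pderiv (Sum.inr k) e =
        e * pderiv (Sum.inr k) Fs := by ring
    rwa [e1] at h5
  exact (Ideal.IsPrime.mem_or_mem ‹_› h3).resolve_right hk

end B3aux

variable {O : Type} [CommRing O] [IsDomain O] [IsDiscreteValuationRing O] {σ : Type} [Fintype σ]
  [DecidableEq σ] {D : Type} [CommRing D] [IsDomain D] [IsLocalRing D]
  {φ : MvPolynomial σ O →+* D} {ϖ : O} (hϖ : Irreducible ϖ) (hfin : Finite (O ⧸ Ideal.span {ϖ}))
  {F : MvPolynomial σ O} {𝔮 : Ideal (MvPolynomial σ O)} (h : PointHyp φ ϖ F 𝔮)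
  {x : σ → MvPolynomial σ O} {y : MvPolynomial σ O} {m : ℕ} (hm : 1 ≤ m) (hy : φ y ≠ 0)
  {w : σ → D} (hw : ∀ j, φ y ^ m * w j = φ (x j))
  (hgen : ∀ R' : Subring D, Dom R' → locIn φ ≤ R' → (∀ j, w j ∈ R') → R' = ⊤)
include hϖ hfin h hm hy hw hgen

/-- Simpler version of `BlowHyp.chart` of ChartO.lean: apply `isRegularLocalRing_of_chart`
to the `card σ + 1` relations `arel x y m j`, `Fs`; the independence of the `arel x y m j` modulo the
square of the maximal ideal is `par_indep` because `y ^ m` lies in it. -/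
theorem chartA (hpar : Par 𝔮 fun o => o.elim y x) :
    ∃ ψ : MvPolynomial (σ ⊕ σ) O →+* D,
      (∀ p, ψ (rename Sum.inl p) = φ p) ∧ (∀ j, ψ (X (Sum.inr j)) = w j) ∧
      (∀ j, ψ (arel x y m j) = 0) ∧
      ∀ (Fs : MvPolynomial (σ ⊕ σ) O) (s : MvPolynomial σ O), s ∉ 𝔮 →
        rename Sum.inl (s * F) - rename Sum.inl y ^ (2 * m) * Fs ∈
          Ideal.span (Set.range (arel x y m)) →
        (∀ (s' e : MvPolynomial (σ ⊕ σ) O) (c : σ → MvPolynomial (σ ⊕ σ) O), IsUnit (ψ s') →
          s' * (∑ j, c j * arel x y m j + e * Fs) ∈ (Ideal.comap ψ (maximalIdeal D)) ^ 2 →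
          ψ e ∈ maximalIdeal D) →
        IsRegularLocalRing D := by
  classical
  have hunit : ∀ s : MvPolynomial σ O, s ∉ 𝔮 ↔ IsUnit (φ s) := by
    intro s
    rw [h.eq, Ideal.mem_comap, IsLocalRing.mem_maximalIdeal, mem_nonunits_iff, not_not]
  let ψ : MvPolynomial (σ ⊕ σ) O →+* D := eval₂Hom (φ.comp C) (Sum.elim (fun j => φ (X j)) w)
  have hψ : ∀ p, ψ (rename Sum.inl p) = φ p := by
    intro p
    have : (ψ.comp ((rename Sum.inl : MvPolynomial σ O →ₐ[O]
        MvPolynomial (σ ⊕ σ) O).toRingHom)) = φ := by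
      apply MvPolynomial.ringHom_ext
      · intro r
        change ψ (rename Sum.inl (C r)) = φ (C r)
        rw [rename_C]
        simp only [ψ, coe_eval₂Hom, eval₂_C]
        rfl
      · intro i
        change ψ (rename Sum.inl (X i)) = φ (X i)
        rw [rename_X]
        simp only [ψ, coe_eval₂Hom, eval₂_X, Sum.elim_inl]
    exact congrArg (fun f : MvPolynomial σ O →+* D => f p) this
  have hψC : ∀ m : O, ψ (C m) = φ (C m) := fun m => by
    rw [← hψ, rename_C]
  have hψX : ∀ j, ψ (X (Sum.inr j)) = w j := by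
    intro j
    simp only [ψ, coe_eval₂Hom, eval₂_X, Sum.elim_inr]
  have hrel : ∀ j, ψ (arel x y m j) = 0 := by
    intro j
    rw [arel, map_sub, map_mul, map_pow, hψ, hψ, hψX, hw, sub_self]
  have hrelI : Ideal.span (Set.range (arel x y m)) ≤ RingHom.ker ψ := by
    rw [Ideal.span_le]
    rintro _ ⟨j, rfl⟩
    exact hrel j
  refine ⟨ψ, hψ, hψX, hrel, ?_⟩
  intro Fs s₁ hs₁ hFs hind
  have hψFs : ψ Fs = 0 := by
    have h1 : ψ _ = 0 := hrelI hFs
    rw [map_sub, hψ, map_mul, h.zero, mul_zero, zero_sub, neg_eq_zero, map_mul, map_pow, hψ] at h1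
    exact (mul_eq_zero.mp h1).resolve_left (pow_ne_zero _ hy)
  set Q := Ideal.comap ψ (maximalIdeal D) with hQdef
  have hQp : Q.IsPrime := Ideal.IsPrime.comap ψ
  have hQu : ∀ x, x ∉ Q ↔ IsUnit (ψ x) := by
    intro x
    rw [hQdef, Ideal.mem_comap, IsLocalRing.mem_maximalIdeal, mem_nonunits_iff, not_not]
  have hQ0 : ∀ x, ψ x = 0 → x ∈ Q := by
    intro x hx
    rw [hQdef, Ideal.mem_comap, hx]
    exact Ideal.zero_mem _
  have hQq : ∀ p : MvPolynomial σ O, rename Sum.inl p ∈ Q ↔ p ∈ 𝔮 := by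
    intro p
    rw [hQdef, Ideal.mem_comap, hψ, h.eq, Ideal.mem_comap]
  let fr : Option σ → MvPolynomial (σ ⊕ σ) O := fun o => o.elim Fs (arel x y m)
  let E := Fintype.equivFin (Option σ)
  have hfr : ∀ o, ψ (fr o) = 0 := by
    rintro (_ | o)
    · exact hψFs
    · exact hrel o
  have hrange : Set.range (fun i => fr (E.symm i)) = Set.range fr := by
    ext x
    constructor
    · rintro ⟨i, rfl⟩
      exact ⟨E.symm i, rfl⟩
    · rintro ⟨i, rfl⟩
      exact ⟨E i, by simp⟩
  refine isRegularLocalRing_of_chart ψ (fun i => fr (E.symm i)) (fun i => hfr _) ?_ ?_ ?_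
  · -- independence
    intro z hz c hc i
    have h2 : ∑ i, c i * fr (E.symm i) =
        ∑ j, c (E (some j)) * arel x y m j + c (E none) * Fs := by
      rw [← Equiv.sum_comp E]
      simp only [Equiv.symm_apply_apply]
      rw [Fintype.sum_option, add_comm]
      rfl
    rw [h2] at hc
    have h3 := hind z (c (E none)) (fun o => c (E (some o))) hz hc
    have h4 : z * ∑ j, c (E (some j)) * arel x y m j ∈ Q ^ 2 := by
      have h5 : z * (c (E none) * Fs) ∈ Q ^ 2 := by
        refine Ideal.mul_mem_left _ _ ?_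
        rw [pow_two]
        exact Ideal.mul_mem_mul h3 (hQ0 _ hψFs)
      rw [mul_add] at hc
      exact (Submodule.add_mem_iff_left _ h5).mp hc
    let c' : Option σ → MvPolynomial (σ ⊕ σ) O := fun o =>
      o.elim (- ∑ j, c (E (some j)) * (rename Sum.inl y ^ (m - 1) * X (Sum.inr j)))
        (fun j => c (E (some j)))
    have h5 : ∑ o, c' o * rename Sum.inl ((fun o : Option σ => o.elim y x) o) =
        ∑ j, c (E (some j)) * arel x y m j := by
      rw [Fintype.sum_option]
      simp only [c', Option.elim_none, Option.elim_some]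
      rw [neg_mul, Finset.sum_mul, ← Finset.sum_neg_distrib, ← Finset.sum_add_distrib]
      refine Finset.sum_congr rfl fun j _ => ?_
      obtain ⟨m', rfl⟩ : ∃ m', m = m' + 1 := ⟨m - 1, by omega⟩
      rw [arel, Nat.add_sub_cancel]
      ring
    have h6 := par_indep hϖ hfin h.max h.unif hpar hQp hQq ((hQu z).mpr hz) (c := c')
      (by rw [h5]; exact h4)
    obtain ⟨o, rfl⟩ := E.surjective i
    rcases o with _ | j
    · exact h3
    · exact h6 (some j)
  · -- fractions
    intro z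
    have h1 : locIn ψ = ⊤ := by
      refine hgen (locIn ψ) (dom_locIn ψ) (locIn_le (dom_locIn ψ) fun a => ?_) ?_
      · rw [← hψ]
        exact map_mem_locIn ψ _
      · intro j
        rw [← hψX]
        exact map_mem_locIn ψ _
    have h2 : z ∈ locIn ψ := by rw [h1]; exact Subring.mem_top z
    obtain ⟨a, b, h3, h4⟩ := h2
    exact ⟨a, b, h3, h4⟩
  · -- the kernel
    intro p hp
    rw [hrange]
    obtain ⟨N, p₀, hp₀⟩ := b1_clear x y m p
    have hφp₀ : φ p₀ = 0 := by
      have h1 : ψ _ = 0 := hrelI hp₀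
      rw [map_sub, map_mul, hp, mul_zero, zero_sub, neg_eq_zero, hψ] at h1
      exact h1
    obtain ⟨n, hn, q, hq⟩ := h.ker p₀ hφp₀
    have hle : Ideal.span (Set.range (arel x y m)) ≤ Ideal.span (Set.range fr) := by
      rw [Ideal.span_le]
      rintro _ ⟨o, rfl⟩
      exact Ideal.subset_span ⟨some o, rfl⟩
    refine ⟨C n * rename Sum.inl s₁ * rename Sum.inl y ^ N, ?_, ?_⟩
    · rw [map_mul, map_mul, map_pow, hψC, hψ, hψ]
      exact mul_ne_zero (mul_ne_zero (h.char n hn) ((hunit s₁).mp hs₁).ne_zero)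
        (pow_ne_zero _ hy)
    · have h1 : (C n : MvPolynomial (σ ⊕ σ) O) * rename Sum.inl p₀ =
          rename Sum.inl F * rename Sum.inl q := by
        rw [← map_mul, ← hq, map_mul, rename_C]
      have h2 : C n * rename Sum.inl s₁ * rename Sum.inl y ^ N * p =
          C n * rename Sum.inl s₁ * (rename Sum.inl y ^ N * p - rename Sum.inl p₀) +
          rename Sum.inl q * (rename Sum.inl (s₁ * F) - rename Sum.inl y ^ (2 * m) * Fs) +
          rename Sum.inl q * rename Sum.inl y ^ (2 * m) * Fs := by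
        rw [map_mul]
        linear_combination (rename Sum.inl s₁) * h1
      rw [h2]
      exact Ideal.add_mem _ (Ideal.add_mem _ (Ideal.mul_mem_left _ _ (hle hp₀))
        (Ideal.mul_mem_left _ _ (hle hFs))) (Ideal.mul_mem_left _ _
        (Ideal.subset_span ⟨none, rfl⟩))

omit hm hy hw hgen [DecidableEq σ] [IsDomain D] in
/-- The extension of the residue fields. -/
theorem b2_theta {ι : Type} [Fintype ι] {c : ι → ι → MvPolynomial σ O}
    (hc : QNondeg fun j k => Ideal.Quotient.mk 𝔮 (c j k)) :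
    QNondeg fun j k => residue D (φ (c j k)) := by
  have hm := h.max
  have hfield : IsField (MvPolynomial σ O ⧸ 𝔮) :=
    (Ideal.Quotient.maximal_ideal_iff_isField_quotient 𝔮).mp hm
  have : Finite (MvPolynomial σ O ⧸ 𝔮) := by
    obtain ⟨e, he, hcard⟩ := exists_card_residue hϖ hfin h.max h.unif
    apply Nat.finite_of_card_ne_zero
    rw [hcard]
    have : Nontrivial (O ⧸ Ideal.span {ϖ}) := by
      apply Ideal.Quotient.nontrivial_iff.mpr
      rw [Ne, Ideal.span_singleton_eq_top]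
      exact hϖ.not_isUnit
    exact pow_ne_zero _ Nat.card_pos.ne'
  let θ : (MvPolynomial σ O ⧸ 𝔮) →+* ResidueField D :=
    Ideal.Quotient.lift 𝔮 ((residue D).comp φ) (fun a ha => by
      rw [h.eq, Ideal.mem_comap] at ha
      simpa [RingHom.comp_apply, residue_eq_zero_iff] using ha)
  have h1 : QNondeg fun j k => θ (Ideal.Quotient.mk 𝔮 (c j k)) := l2_ext hfield θ hc
  have e : (fun j k => θ (Ideal.Quotient.mk 𝔮 (c j k))) = fun j k => residue D (φ (c j k)) := by
    funext j k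
    exact Ideal.Quotient.lift_mk _ _ _
  rw [← e]
  exact h1

/-- Uses `chartA`, `QNondeg.ext`; `Fs = ∑ c w w + ∑ b w + a`; see Reg1.lean. -/
theorem regA_typeI (hT : TypeI F 𝔮 m x y) : IsRegularLocalRing D := by
  obtain ⟨s, c, b, a, hS, hnd⟩ := hT
  obtain ⟨ψ, hψ, hψX, hψrel, hmain⟩ := chartA hϖ hfin h hm hy hw hgen hS.par
  have hker : RingHom.ker ((residue D).comp ψ) = Ideal.comap ψ (maximalIdeal D) := by
    ext x
    rw [RingHom.mem_ker, RingHom.comp_apply, residue_eq_zero_iff, Ideal.mem_comap]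
  have hprime : (RingHom.ker ((residue D).comp ψ)).IsPrime := RingHom.ker_isPrime _
  have hid := b2_hid hS.eq
  have hψFs : ψ (b2_Fs (extMat c b a)) = 0 := by
    have h1 : Ideal.span (Set.range (arel x y m)) ≤ RingHom.ker ψ := by
      rw [Ideal.span_le]
      rintro _ ⟨o, rfl⟩
      exact hψrel o
    have h2 : ψ _ = 0 := h1 hid
    rw [map_sub, hψ, map_mul φ, h.zero, mul_zero, zero_sub, neg_eq_zero, map_mul, map_pow,
      hψ] at h2
    exact (mul_eq_zero.mp h2).resolve_left (pow_ne_zero _ hy)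
  have hFs0 : (residue D).comp ψ (b2_Fs (extMat c b a)) = 0 := by
    rw [RingHom.comp_apply, hψFs, map_zero]
  have hnd' : QNondeg (fun j l => (residue D).comp ψ (rename Sum.inl (extMat c b a j l))) := by
    simp only [RingHom.comp_apply, hψ]
    exact b2_theta hϖ hfin h hnd
  have hv0 : (residue D).comp ψ (b2_v O σ none) = 1 := by
    rw [b2_v, Option.elim_none, map_one]
  have hqf : qf (fun j l => (residue D).comp ψ (rename Sum.inl (extMat c b a j l)))
      (fun j => (residue D).comp ψ (b2_v O σ j)) = 0 := by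
    rw [← l2_map_qf]
    exact hFs0
  obtain ⟨k, hk, hqd⟩ := l2_exists hnd' (v := fun j => (residue D).comp ψ (b2_v O σ j))
    (fun h0 => one_ne_zero (hv0.symm.trans (congrFun h0 none))) hqf hv0
  cases k with
  | none => exact absurd rfl hk
  | some k =>
    refine hmain _ s hS.hs hid fun s' e c' hs' hmem => ?_
    rw [← hker] at hmem
    have hs'' : s' ∉ RingHom.ker ((residue D).comp ψ) := by
      rw [RingHom.mem_ker, RingHom.comp_apply, residue_eq_zero_iff]
      intro hh
      exact (mem_nonunits_iff.mp ((mem_maximalIdeal _).mp hh)) hs'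
    have h1 := derivation_mem _ (pderiv (Sum.inr k)) hs'' hmem
    rw [map_add, map_sum, Derivation.leibniz, smul_eq_mul, smul_eq_mul] at h1
    have hyQ : rename Sum.inl y ^ m ∈ RingHom.ker ((residue D).comp ψ) := by
      apply Ideal.pow_mem_of_mem _ _ _ hm
      rw [RingHom.mem_ker, RingHom.comp_apply, hψ, residue_eq_zero_iff, ← Ideal.mem_comap, ← h.eq]
      exact hS.par.1 none
    have h2 : ∑ j, pderiv (Sum.inr k) (c' j * arel x y m j) ∈
        RingHom.ker ((residue D).comp ψ) := by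
      apply Ideal.sum_mem
      intro o _
      rw [Derivation.leibniz, smul_eq_mul, smul_eq_mul, b2_pd_arel]
      apply Ideal.add_mem
      · apply Ideal.mul_mem_left
        split_ifs
        · exact neg_mem hyQ
        · exact zero_mem _
      · apply Ideal.mul_mem_right
        rw [RingHom.mem_ker, RingHom.comp_apply, hψrel, map_zero]
    have h4 : b2_Fs (extMat c b a) * pderiv (Sum.inr k) e ∈ RingHom.ker ((residue D).comp ψ) :=
      Ideal.mul_mem_right _ _ hFs0
    have h3 : e * pderiv (Sum.inr k) (b2_Fs (extMat c b a)) ∈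
        RingHom.ker ((residue D).comp ψ) := by
      have h5 := Ideal.sub_mem _ (Ideal.sub_mem _ h1 h2) h4
      have e1 : ∑ o, pderiv (Sum.inr k) (c' o * arel x y m o) +
          (e * pderiv (Sum.inr k) (b2_Fs (extMat c b a)) +
            b2_Fs (extMat c b a) * pderiv (Sum.inr k) e) -
          ∑ o, pderiv (Sum.inr k) (c' o * arel x y m o) -
            b2_Fs (extMat c b a) * pderiv (Sum.inr k) e =
          e * pderiv (Sum.inr k) (b2_Fs (extMat c b a)) := by ring
      rwa [e1] at h5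
    rw [← residue_eq_zero_iff]
    rcases hprime.mem_or_mem h3 with h6 | h6
    · exact h6
    · exfalso
      apply hqd
      rw [b2_pd_Fs, RingHom.mem_ker, l2_map_qd] at h6
      exact h6

omit [DecidableEq σ] [IsDomain D] hm hy hw hgen in
/-- The extension of the residue fields. -/
theorem b3_theta {ι : Type} [Fintype ι] {c : ι → ι → MvPolynomial σ O}
    (hc : QNondeg fun j k => Ideal.Quotient.mk 𝔮 (c j k)) :
    QNondeg fun j k => residue D (φ (c j k)) := by
  have hm := h.max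
  have hfield : IsField (MvPolynomial σ O ⧸ 𝔮) :=
    (Ideal.Quotient.maximal_ideal_iff_isField_quotient 𝔮).mp hm
  have : Finite (MvPolynomial σ O ⧸ 𝔮) := by
    obtain ⟨e, he, hcard⟩ := exists_card_residue hϖ hfin h.max h.unif
    apply Nat.finite_of_card_ne_zero
    rw [hcard]
    have : Nontrivial (O ⧸ Ideal.span {ϖ}) := by
      apply Ideal.Quotient.nontrivial_iff.mpr
      rw [Ne, Ideal.span_singleton_eq_top]
      exact hϖ.not_isUnit
    exact pow_ne_zero _ Nat.card_pos.ne'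
  let θ : (MvPolynomial σ O ⧸ 𝔮) →+* ResidueField D :=
    Ideal.Quotient.lift 𝔮 ((residue D).comp φ) (fun a ha => by
      rw [h.eq, Ideal.mem_comap] at ha
      simpa [RingHom.comp_apply, residue_eq_zero_iff] using ha)
  have h1 : QNondeg fun j k => θ (Ideal.Quotient.mk 𝔮 (c j k)) := l2_ext hfield θ hc
  have e : (fun j k => θ (Ideal.Quotient.mk 𝔮 (c j k))) = fun j k => residue D (φ (c j k)) := by
    funext j k
    exact Ideal.Quotient.lift_mk _ _ _
  rw [← e]
  exact h1

/-- Uses `chartA`, `QNondeg.ext`, `par_indep`; `Fs = ∑ c w w + y * ∑ b w + u * y`; see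
Reg2.lean. -/
theorem regA_typeII (hT : TypeII F 𝔮 m x y) : IsRegularLocalRing D := by
  obtain ⟨s, c, b, u, hH, hu⟩ := hT
  obtain ⟨ψ, hψ, hψX, hψrel, hmain⟩ := chartA hϖ hfin h hm hy hw hgen hH.par
  have hprime : 𝔮.IsPrime := h.max.isPrime
  have hyq : y ∈ 𝔮 := hH.par.1 none
  have hker : RingHom.ker ((residue D).comp ψ) = Ideal.comap ψ (maximalIdeal D) := by
    ext x
    rw [RingHom.mem_ker, RingHom.comp_apply, residue_eq_zero_iff, Ideal.mem_comap]
  have hres : ∀ a, (residue D).comp ψ (rename Sum.inl a) = residue D (φ a) := fun a => by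
    rw [RingHom.comp_apply, hψ]
  have hq0 : ∀ a, a ∈ 𝔮 ↔ residue D (φ a) = 0 := fun a => by
    rw [residue_eq_zero_iff, h.eq, Ideal.mem_comap]
  have hid : rename Sum.inl (s * F) - rename Sum.inl y ^ (2 * m) *
      (qf (fun j l => rename Sum.inl (c j l)) (fun j => X (Sum.inr j)) +
        rename Sum.inl y * (∑ j, rename Sum.inl (b j) * X (Sum.inr j) + rename Sum.inl u)) ∈
        Ideal.span (Set.range (arel x y m)) := by
    rw [← Ideal.Quotient.eq]
    have hπ : ∀ j, Ideal.Quotient.mk (Ideal.span (Set.range (arel x y m)))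
        (rename Sum.inl (x j)) = Ideal.Quotient.mk _ (rename Sum.inl y) ^ m *
          Ideal.Quotient.mk _ (X (Sum.inr j)) := fun j => by
      rw [← map_pow, ← map_mul, Ideal.Quotient.eq]
      exact Ideal.subset_span ⟨j, rfl⟩
    have e1 : rename Sum.inl (s * F) = qf (fun j l => rename Sum.inl (c j l))
        (fun j => (rename Sum.inl (x j) : MvPolynomial (σ ⊕ σ) O)) +
        rename Sum.inl y ^ (m + 1) * (∑ j, rename Sum.inl (b j) * rename Sum.inl (x j)) +
        rename Sum.inl u * rename Sum.inl y ^ (2 * m + 1) := by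
      rw [hH.eq]
      simp only [qf, map_add, map_mul, map_sum, map_pow]
    rw [e1, map_add, map_add, l2_map_qf, funext hπ, l2_qf_smul, map_mul, map_mul, map_sum,
      map_mul, map_add, map_mul, map_add, map_sum, l2_map_qf]
    simp only [map_mul, map_pow, hπ]
    have e2 : ∑ j, Ideal.Quotient.mk (Ideal.span (Set.range (arel x y m)))
          (rename Sum.inl (b j)) * (Ideal.Quotient.mk _ (rename Sum.inl y) ^ m *
            Ideal.Quotient.mk _ (X (Sum.inr j))) =
        Ideal.Quotient.mk _ (rename Sum.inl y) ^ m * ∑ j, Ideal.Quotient.mk _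
          (rename Sum.inl (b j)) * Ideal.Quotient.mk _ (X (Sum.inr j)) := by
      rw [Finset.mul_sum]
      exact Finset.sum_congr rfl fun j _ => by ring
    rw [e2]
    ring
  have hψFs : ψ (qf (fun j l => rename Sum.inl (c j l)) (fun j => X (Sum.inr j)) +
        rename Sum.inl y * (∑ j, rename Sum.inl (b j) * X (Sum.inr j) + rename Sum.inl u)) =
        0 := by
    have h1 : Ideal.span (Set.range (arel x y m)) ≤ RingHom.ker ψ := by
      rw [Ideal.span_le]
      rintro _ ⟨o, rfl⟩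
      exact hψrel o
    have h2 : ψ _ = 0 := h1 hid
    rw [map_sub, hψ, map_mul φ, h.zero, mul_zero, zero_sub, neg_eq_zero, map_mul, map_pow,
      hψ] at h2
    exact (mul_eq_zero.mp h2).resolve_left (pow_ne_zero _ hy)
  set Θ := (residue D).comp ψ with hΘ
  have hG : Θ (rename Sum.inl y) = 0 := by
    rw [hres, ← hq0]
    exact hyq
  have hFs0 : Θ (qf (fun j l => rename Sum.inl (c j l)) (fun j => X (Sum.inr j)) +
        rename Sum.inl y * (∑ j, rename Sum.inl (b j) * X (Sum.inr j) + rename Sum.inl u)) =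
        0 := by
    rw [hΘ, RingHom.comp_apply, hψFs, map_zero]
  have hqf : qf (fun j l => Θ (rename Sum.inl (c j l))) (fun j => Θ (X (Sum.inr j))) = 0 := by
    rw [← l2_map_qf]
    have h1 := hFs0
    rw [map_add, map_mul, hG, zero_mul, add_zero] at h1
    exact h1
  have hnd : QNondeg (fun j l => Θ (rename Sum.inl (c j l))) := by
    simp only [hres]
    exact b3_theta hϖ hfin h hH.nd
  refine hmain _ s hH.hs hid fun s' e' c' hs' hmem => ?_
  rw [← residue_eq_zero_iff]
  rw [← hker] at hmem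
  have hs'' : Θ s' ≠ 0 := by
    rw [hΘ, RingHom.comp_apply, Ne, residue_eq_zero_iff]
    intro hh
    exact (mem_nonunits_iff.mp ((mem_maximalIdeal _).mp hh)) hs'
  have hrel0 : ∀ j, Θ (arel x y m j) = 0 := fun o => by
    rw [hΘ, RingHom.comp_apply, hψrel, map_zero]
  have hQp : (RingHom.ker Θ).IsPrime := RingHom.ker_isPrime Θ
  have hQ : ∀ p : MvPolynomial σ O, rename Sum.inl p ∈ RingHom.ker Θ ↔ p ∈ 𝔮 := fun p => by
    rw [RingHom.mem_ker, hres, hq0]
  have hyQ : rename Sum.inl y ∈ RingHom.ker Θ := hG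
  by_cases hv : (fun j => Θ (X (Sum.inr j))) = 0
  · have hXQ : ∀ j, (X (Sum.inr j) : MvPolynomial (σ ⊕ σ) O) ∈ RingHom.ker Θ :=
      fun j => congrFun hv j
    have hsq : ∀ {a b : MvPolynomial (σ ⊕ σ) O}, a ∈ RingHom.ker Θ →
        b ∈ RingHom.ker Θ → a * b ∈ RingHom.ker Θ ^ 2 := fun ha hb => by
      rw [pow_two]
      exact Ideal.mul_mem_mul ha hb
    have hymQ : rename Sum.inl y ^ m ∈ RingHom.ker Θ :=
      Ideal.pow_mem_of_mem _ hyQ m (by omega)
    let c'' : Option σ → MvPolynomial (σ ⊕ σ) O := fun o =>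
      o.elim (e' * rename Sum.inl u) c'
    have hkey : s' * ∑ o, c'' o * rename Sum.inl (o.elim y x) ∈ RingHom.ker Θ ^ 2 := by
      have e1 : s' * ∑ o : Option σ, c'' o * rename Sum.inl (o.elim y x) =
          s' * (∑ j, c' j * arel x y m j + e' *
            (qf (fun j l => rename Sum.inl (c j l)) (fun j => X (Sum.inr j)) +
        rename Sum.inl y * (∑ j, rename Sum.inl (b j) * X (Sum.inr j) + rename Sum.inl u))) +
          s' * (∑ j, c' j * (rename Sum.inl y ^ m * X (Sum.inr j))) -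
          s' * (e' * (qf (fun j l => rename Sum.inl (c j l)) (fun j => X (Sum.inr j)) +
            rename Sum.inl y * ∑ j, rename Sum.inl (b j) * X (Sum.inr j))) := by
        rw [Fintype.sum_option]
        simp only [c'', Option.elim, arel, mul_sub, Finset.sum_sub_distrib]
        ring
      rw [e1]
      refine Ideal.sub_mem _ (Ideal.add_mem _ hmem (Ideal.mul_mem_left _ _ (Ideal.sum_mem _
        fun j _ => Ideal.mul_mem_left _ _ (hsq hymQ (hXQ _))))) (Ideal.mul_mem_left _ _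
        (Ideal.mul_mem_left _ _ (Ideal.add_mem _ ?_ (hsq hyQ (Ideal.sum_mem _ fun j _ =>
          Ideal.mul_mem_left _ _ (hXQ j))))))
      rw [qf]
      exact Ideal.sum_mem _ fun j _ => Ideal.sum_mem _ fun k _ => Ideal.mul_mem_left _ _
        (hsq (hXQ j) (hXQ k))
    have hfinal := par_indep hϖ hfin h.max h.unif hH.par hQp hQ (s := s')
      (fun hh => hs'' hh) (c := c'') hkey none
    have h1 : e' * rename Sum.inl u ∈ RingHom.ker Θ := hfinal
    exact (hQp.mem_or_mem h1).resolve_right (fun hh => hu ((hQ _).mp hh))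
  · obtain ⟨k, hqd⟩ := hnd _ hv hqf
    refine b3_indep (Q := RingHom.ker Θ) hm hrel0 hyQ hFs0 k ?_ hs'' hmem
    intro hd
    apply hqd
    have h1 : Θ _ = 0 := hd
    rw [map_add, b3_pd_quad, Derivation.leibniz, l2_pd_inl, smul_zero, add_zero, smul_eq_mul,
      map_add, map_mul, hG, zero_mul, add_zero, l2_map_qd] at h1
    exact h1

end Pool.Agent.Lib.MP_6a3dac_ag.Maj
end

section

/-!
# The local rings of the blow-up of a product of ideals on a hypersurface
-/

set_option autoImplicit false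
set_option linter.unusedSectionVars false

namespace Pool.Agent.Lib.MP_6a3dac_ag.Maj

open MvPolynomial IsLocalRing
open Pool.Agent.Lib.MP_6a3dac_ag.DNF

section Data

variable {A O : Type} [CommRing A] [CommRing O] {n : ℕ} (π : MvPolynomial (Fin (n + 1)) O →+* A)
  (δ : ℕ) (G : ℕ → Finset (MvPolynomial (Fin (n + 1)) O))

/-- The generators of the `j`-th ideal. -/
def pset (ϖ : A) (j : ℕ) : Set A :=
  {b | (∃ k, b = ϖ ^ j * π (X k) ^ δ) ∨ ∃ g ∈ G j, b = π g}

theorem finite_pset (ϖ : A) (j : ℕ) : (pset π δ G ϖ j).Finite := by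
  refine ((Set.finite_range fun k => ϖ ^ j * π (X k) ^ δ).union
    ((G j).finite_toSet.image π)).subset ?_
  rintro b (⟨k, rfl⟩ | ⟨g, hg, rfl⟩)
  · exact Or.inl ⟨k, rfl⟩
  · exact Or.inr ⟨g, hg, rfl⟩

end Data

section

variable {R K A O : Type} [CommRing R] [Field K] [Algebra R K] [CommRing A] [IsDomain A]
  [Algebra K A] [Algebra R A] [IsScalarTower R K A] {𝒜 : ℕ → Submodule K A} [GradedAlgebra 𝒜]
  [CommRing O] [IsDomain O] [IsDiscreteValuationRing O] [Algebra R O] [Algebra O K]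
  [IsScalarTower R O K] (hOK : Function.Injective (algebraMap O K))
  (P : Ideal R) [P.IsPrime] [IsLocalization.AtPrime O P] {n : ℕ}
  {π : MvPolynomial (Fin (n + 1)) O →+* A} {f : MvPolynomial (Fin (n + 1)) O} {d : ℕ}
  (h : HypData 𝒜 π f d) (hπC : ∀ c, π (C c) = algebraMap K A (algebraMap O K c))
  {δ : ℕ} (hδ : 1 ≤ δ) {G : ℕ → Finset (MvPolynomial (Fin (n + 1)) O)}
  (hG : ∀ j, ∀ g ∈ G j, g.IsHomogeneous δ)
include h hπC hδ hG

/-- As `orderHypO` of MainO.lean. -/
theorem orderHypP (ϖ : O) (r : ℕ) :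
    DNF.OrderHyp 𝒜 (fun k => π (X k)) (pset π δ G (oA K A O ϖ)) δ (oA K A O ϖ)
      (oA K A O).range r
      (locSub P (Algebra.adjoin R (DNF.WSet (fun k => π (X k)) (pset π δ G (oA K A O ϖ)) r ∪
        DNF.W1Set (fun k => π (X k)) (oA K A O ϖ) r))) := by
  have hdeg0 : ∀ c : O, oA K A O c ∈ 𝒜 0 := fun c => SetLike.algebraMap_mem_graded 𝒜 _
  have hpow : ∀ j, (oA K A O ϖ) ^ j ∈ 𝒜 0 := fun j => by
    simpa using SetLike.pow_mem_graded j (hdeg0 ϖ)
  have hx : ∀ k, π (X k) ∈ 𝒜 1 := fun k => h.deg _ _ (isHomogeneous_X O k)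
  have hB : ∀ j, ∀ b ∈ pset π δ G (oA K A O ϖ) j, b ∈ 𝒜 δ := by
    rintro j b (⟨k, rfl⟩ | ⟨g, hg, rfl⟩)
    · have h1 := SetLike.mul_mem_graded (hpow j) (SetLike.pow_mem_graded δ (hx k))
      simpa using h1
    · exact h.deg _ _ (hG j g hg)
  have hadj : IsHomog 𝒜 (Algebra.adjoin R (DNF.WSet (fun k => π (X k))
      (pset π δ G (oA K A O ϖ)) r ∪ DNF.W1Set (fun k => π (X k)) (oA K A O ϖ) r)) := by
    apply isHomog_adjoin 𝒜
    rintro w (⟨i, q, ⟨β, hβ, rfl⟩, rfl⟩ | ⟨i, rfl⟩)
    · exact ⟨1 + ∑ j ∈ Finset.Icc 1 r, δ, SetLike.mul_mem_graded (hx i)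
        (SetLike.prod_mem_graded (A := 𝒜) (fun _ => δ) _ fun j hj => hB j _ (hβ j hj))⟩
    · exact ⟨(∑ j ∈ Finset.Icc 1 r, 0) + 1, SetLike.mul_mem_graded
        (SetLike.prod_mem_graded (A := 𝒜) (fun _ => 0) _ fun j _ => hpow j) (hx i)⟩
  exact
    { xdeg := hx
      δpos := hδ
      B_deg := hB
      B_pow := fun j k => Or.inl ⟨k, rfl⟩
      Λdeg := by
        rintro _ ⟨c, rfl⟩
        exact hdeg0 c
      ϖΛ := ⟨ϖ, rfl⟩
      hom := isHomog_locSub 𝒜 P hadj
      Λ_le := by
        rintro _ ⟨c, rfl⟩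
        obtain ⟨s, hs, a, ha⟩ := exists_smul_oA (K := K) (A := A) P c
        refine ⟨s, hs, ?_⟩
        rw [ha]
        exact Subalgebra.algebraMap_mem _ a
      W_le := fun c hc => le_locSub _ _ (Algebra.subset_adjoin (Or.inl hc))
      W1_le := fun c hc => le_locSub _ _ (Algebra.subset_adjoin (Or.inr hc))
      gen := by
        intro N hN1 hN2 hN3 t ht
        obtain ⟨a, ha, hat⟩ := ht
        have hadjN : ∀ m ∈ Algebra.adjoin R (DNF.WSet (fun k => π (X k))
            (pset π δ G (oA K A O ϖ)) r ∪ DNF.W1Set (fun k => π (X k)) (oA K A O ϖ) r), m ∈ N := by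
          intro m hm
          induction hm using Algebra.adjoin_induction with
          | mem m hm =>
            rcases hm with hm | hm
            · exact hN2 _ hm
            · exact hN3 _ hm
          | algebraMap a => exact hN1 _ ⟨algebraMap R O a, oA_algebraMap a⟩
          | add a b _ _ ha hb => exact N.add_mem ha hb
          | mul a b _ _ ha hb => exact N.mul_mem ha hb
        obtain ⟨b, hb⟩ := (IsLocalization.map_units O (⟨a, ha⟩ : P.primeCompl)).exists_right_inv
        have hab : algebraMap R A a * oA K A O b = 1 := by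
          rw [← oA_algebraMap (K := K) (O := O), ← map_mul, hb, map_one]
        have h1 : t = oA K A O b * (a • t) := by
          rw [Algebra.smul_def, ← mul_assoc, mul_comm (oA K A O b), hab, one_mul]
        rw [h1]
        exact N.mul_mem (hN1 _ ⟨b, rfl⟩) (hadjN _ hat) }


include hOK in
/-- As `mainO` of MainO.lean; the normalization of the generator is not needed: take
`b j = ι (β j) / ι (π (X i)) ^ δ`. -/
theorem mainP {F : Type} [Field F] (ι : A →+* F)
    (hι : Function.Injective ι) {ϖ : O} (hϖ : Irreducible ϖ) {r : ℕ} (hr : 1 ≤ r)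
    {T : Subalgebra R A}
    (hT : T = locSub P (Algebra.adjoin R (DNF.WSet (fun k => π (X k))
        (pset π δ G (oA K A O ϖ)) r ∪ DNF.W1Set (fun k => π (X k)) (oA K A O ϖ) r)))
    (hsing : ∀ (i : Fin (n + 1)) (𝔮 : Ideal (MvPolynomial {l : Fin (n + 1) // l ≠ i} O)),
      𝔮.IsPrime → dehom i f ∈ 𝔮 →
      (∀ (l : Fin (n + 1)) (hl : l < i), X ⟨l, hl.ne⟩ ∈ 𝔮) →
      ((C ϖ ∉ 𝔮 ∨ ∀ j, 1 ≤ j → j ≤ r → ∃ g ∈ G j, dehom i g ∉ 𝔮) ∧
        ∀ s, s ∉ 𝔮 → s * dehom i f ∉ 𝔮 ^ 2) ∨
      (C ϖ ∈ 𝔮 ∧ 𝔮.IsMaximal ∧ ∃ I : ℕ → Ideal (MvPolynomial {l : Fin (n + 1) // l ≠ i} O),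
        (∀ j, 1 ≤ j → j ≤ r → C ϖ ^ j ∈ I j ∧ (∀ g ∈ G j, ∃ s, s ∉ 𝔮 ∧ s * dehom i g ∈ I j) ∧
          ∀ z ∈ I j, ∃ s, s ∉ 𝔮 ∧
            s * z ∈ Ideal.span (insert (C ϖ ^ j) {w | ∃ g ∈ G j, w = dehom i g})) ∧
        GoodCentre ϖ (dehom i f) 𝔮 r I))
    (Q : Ideal T) (hQ : Q.IsPrime)
    (hrel : ∃ k, 0 < k ∧ ∃ t : T, (t : A) ∈ 𝒜 k ∧ t ∉ Q) :
    IsRegularLocalRing (homLoc 𝒜 ι T Q) := by
  classical
  have hO : DNF.OrderHyp 𝒜 (fun k => π (X k)) (pset π δ G (oA K A O ϖ)) δ (oA K A O ϖ)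
      (oA K A O).range r T := by
    rw [hT]; exact orderHypP P h hπC hδ hG ϖ r
  -- the first coordinate
  obtain ⟨i, hi, himin⟩ := (wellFounded_lt (α := Fin (n + 1))).has_min
    {i | ∃ β : ℕ → A, (∀ j ∈ Finset.Icc 1 r, β j ∈ pset π δ G (oA K A O ϖ) j) ∧
      ∃ hf : π (X i) * ∏ j ∈ Finset.Icc 1 r, β j ∈ T,
        (⟨π (X i) * ∏ j ∈ Finset.Icc 1 r, β j, hf⟩ : T) ∉ Q} (hO.exists_notMem Q hrel)
  obtain ⟨β, hβ, hf, hfQ⟩ := hi
  have hloc := isLocalRing_homLoc 𝒜 ι T Q hι
  obtain ⟨D, hD⟩ : ∃ D, D = homLoc 𝒜 ι T Q := ⟨_, rfl⟩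
  have hlocD : IsLocalRing D := hD ▸ hloc
  have hΛD : ∀ c : O, ι (oA K A O c) ∈ D := fun c =>
    hD ▸ hO.const_mem ι hι Q hβ hf hfQ ⟨c, rfl⟩
  obtain ⟨hx0, hβ0⟩ := OrderHyp.chart_ne_zero (x := fun k => π (X k)) ι hι Q hf hfQ
  change ι (π (X i)) ≠ 0 at hx0
  have hcoord : ∀ k, ι (π (X k)) / ι (π (X i)) ∈ D := fun k =>
    hD ▸ hO.coord_mem ι hι Q hβ hf hfQ k
  have hratio : ∀ j ∈ Finset.Icc 1 r, ∀ b ∈ pset π δ G (oA K A O ϖ) j, ι b / ι (β j) ∈ D :=
    fun j hj b hb => hD ▸ hO.ratio_mem ι hι Q hβ hf hfQ hj hb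
  -- characteristic zero
  have hchar : ∀ a : O, a ≠ 0 → ι (oA K A O a) ≠ 0 := by
    intro a ha h0
    have h2 : oA K A O a = 0 := hι (by rw [h0, map_zero])
    rw [oA, RingHom.comp_apply, map_eq_zero] at h2
    exact ha (hOK (by rw [h2, map_zero]))
  -- the evaluation maps
  let oD : O →+* D := (ι.comp (oA K A O)).codRestrict D fun c => hΛD c
  let ψ : MvPolynomial (Fin (n + 1)) O →+* F := eval₂Hom (ι.comp (oA K A O))
    fun k => ι (π (X k)) / ι (π (X i))
  let φ : MvPolynomial {l : Fin (n + 1) // l ≠ i} O →+* D := eval₂Hom oD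
    fun l => ⟨ι (π (X l.1)) / ι (π (X i)), hcoord l.1⟩
  have hφC : ∀ c : O, ((φ (C c) : D) : F) = ι (oA K A O c) := by
    intro c
    simp only [φ, coe_eval₂Hom, eval₂_C]
    rfl
  have hφψ : ∀ q, ((φ (dehom i q) : D) : F) = ψ q := by
    intro q
    have h1 : (D.subtype.comp φ).comp (dehom i : _ →ₐ[O] _).toRingHom = ψ := by
      apply MvPolynomial.ringHom_ext
      · intro a
        change D.subtype (φ (dehom i (C a))) = ψ (C a)
        rw [dehom_C]
        change ((φ (C a) : D) : F) = _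
        rw [hφC]
        simp only [ψ, coe_eval₂Hom, eval₂_C]
        rfl
      · intro k
        change D.subtype (φ (dehom i (X k))) = ψ (X k)
        by_cases hk : k = i
        · subst hk
          rw [dehom_X_self, map_one, map_one]
          simp only [ψ, coe_eval₂Hom, eval₂_X]
          rw [div_self hx0]
        · rw [show k = (⟨k, hk⟩ : {l : Fin (n + 1) // l ≠ i}).1 from rfl, dehom_X]
          simp only [φ, ψ, coe_eval₂Hom, eval₂_X]
          rfl
    exact congrArg (fun g : MvPolynomial (Fin (n + 1)) O →+* F => g q) h1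
  have hψhom : ∀ (e : ℕ) (q : MvPolynomial (Fin (n + 1)) O), q.IsHomogeneous e →
      ι (π q) = ι (π (X i)) ^ e * ψ q := by
    intro e q hq
    have h1 : ι (π q) = eval₂ (ι.comp (oA K A O)) (fun k => ι (π (X k))) q := by
      have h2 : ι.comp π = eval₂Hom (ι.comp (oA K A O)) (fun k => ι (π (X k))) := by
        apply MvPolynomial.ringHom_ext
        · intro a
          simp only [RingHom.comp_apply, coe_eval₂Hom, eval₂_C]
          rw [hπC]
          rfl
        · intro k
          simp only [RingHom.comp_apply, coe_eval₂Hom, eval₂_X]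
      exact congrArg (fun g : MvPolynomial (Fin (n + 1)) O →+* F => g q) h2
    rw [h1]
    change _ = ι (π (X i)) ^ e * eval₂ (ι.comp (oA K A O))
      (fun k => ι (π (X k)) / ι (π (X i))) q
    rw [eval₂_eq, eval₂_eq, Finset.mul_sum]
    refine Finset.sum_congr rfl fun s hs => ?_
    have h3 : s.degree = e := by
      have := hq (mem_support_iff.mp hs)
      rw [← this, Finsupp.degree_eq_weight_one]
      rfl
    have h4 : ∏ k ∈ s.support, (ι (π (X k)) / ι (π (X i))) ^ s k =
        (∏ k ∈ s.support, ι (π (X k)) ^ s k) / ι (π (X i)) ^ e := by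
      rw [← h3, Finsupp.degree_apply, ← Finset.prod_pow_eq_pow_sum, ← Finset.prod_div_distrib]
      refine Finset.prod_congr rfl fun k _ => ?_
      rw [div_pow]
    rw [h4]
    field_simp
  have hφf : φ (dehom i f) = 0 := by
    apply Subtype.ext
    rw [hφψ]
    have h1 := hψhom d f h.hf
    rw [h.zero, map_zero] at h1
    exact (mul_eq_zero.mp h1.symm).resolve_left (pow_ne_zero _ hx0)
  have hker : ∀ g, φ g = 0 → ∃ m : O, m ≠ 0 ∧ ∃ q, C m * g = dehom i f * q := by
    intro g hg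
    obtain ⟨N, G, hG, rfl⟩ := exists_homog i g
    have h1 := hψhom N G hG
    rw [← hφψ, hg] at h1
    have h2 : π G = 0 := by
      apply hι
      rw [h1, map_zero]
      exact mul_zero _
    obtain ⟨m, hm, q, hq⟩ := h.ker G h2
    refine ⟨m, hm, dehom i q, ?_⟩
    rw [← dehom_C i, ← map_mul, hq, map_mul]
  have hpD : ((φ (C ϖ) : D) : F) = ι (oA K A O ϖ) := hφC ϖ
  have hφXi : φ (dehom i (X i)) = 1 := by rw [dehom_X_self, map_one]
  have hφloc : ∀ g, φ g ∈ locIn φ := map_mem_locIn φ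
  have hx1 : ι (π (X i)) ^ δ ≠ 0 := pow_ne_zero _ hx0
  -- the elements of the sets of generators
  have hZ : ∀ j, ∀ b ∈ pset π δ G (oA K A O ϖ) j,
      ∃ z : MvPolynomial {l : Fin (n + 1) // l ≠ i} O,
        ((φ z : D) : F) = ι b / ι (π (X i)) ^ δ ∧
        ((∃ k, b = oA K A O ϖ ^ j * π (X k) ^ δ ∧ z = C ϖ ^ j * dehom i (X k) ^ δ) ∨
          ∃ g ∈ G j, b = π g ∧ z = dehom i g) := by
    rintro j b (⟨k, rfl⟩ | ⟨g, hg, rfl⟩)
    · refine ⟨C ϖ ^ j * dehom i (X k) ^ δ, ?_, Or.inl ⟨k, rfl, rfl⟩⟩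
      rw [map_mul, map_pow, map_pow, Subring.coe_mul, Subring.coe_pow, Subring.coe_pow, hpD, hφψ]
      simp only [ψ, coe_eval₂Hom, eval₂_X]
      rw [map_mul, map_pow, map_pow, div_pow, mul_div_assoc]
    · refine ⟨dehom i g, ?_, Or.inr ⟨g, hg, rfl, rfl⟩⟩
      rw [hφψ, hψhom δ g (hG j g hg)]
      field_simp
  -- the generators of the principal ideals
  have hzex : ∀ j, ∃ z : MvPolynomial {l : Fin (n + 1) // l ≠ i} O, j ∈ Finset.Icc 1 r →
        ((φ z : D) : F) = ι (β j) / ι (π (X i)) ^ δ ∧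
        ((∃ k, β j = oA K A O ϖ ^ j * π (X k) ^ δ ∧ z = C ϖ ^ j * dehom i (X k) ^ δ) ∨
          ∃ g ∈ G j, β j = π g ∧ z = dehom i g) := by
    intro j
    by_cases hj : j ∈ Finset.Icc 1 r
    · obtain ⟨z, hz⟩ := hZ j (β j) (hβ j hj)
      exact ⟨z, fun _ => hz⟩
    · exact ⟨0, fun h => absurd h hj⟩
  choose zz hzz using hzex
  have hb0 : ∀ j ∈ Finset.Icc 1 r, φ (zz j) ≠ 0 := by
    intro j hj h0
    have h1 := congrArg (fun z : D => (z : F)) h0
    change ((φ (zz j) : D) : F) = 0 at h1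
    rw [(hzz j hj).1, div_eq_zero_iff] at h1
    rcases h1 with h1 | h1
    · exact hβ0 j hj h1
    · exact hx1 h1
  -- the ratios
  have hmulr : ∀ j (hj : j ∈ Finset.Icc 1 r), ∀ b ∈ pset π δ G (oA K A O ϖ) j, ∀ w : D,
      (w : F) = ι b / ι (β j) →
      ((φ (zz j) * w : D) : F) = ι b / ι (π (X i)) ^ δ := by
    intro j hj b hb w hw
    have h1 := hβ0 j hj
    rw [Subring.coe_mul, (hzz j hj).1, hw]
    field_simp
  have hdvd1 : ∀ j ∈ Finset.Icc 1 r, φ (zz j) ∣ φ (C ϖ ^ j) := by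
    intro j hj
    have hb : oA K A O ϖ ^ j * π (X i) ^ δ ∈ pset π δ G (oA K A O ϖ) j := Or.inl ⟨i, rfl⟩
    refine ⟨⟨_, hratio j hj _ hb⟩, Subtype.ext ?_⟩
    rw [hmulr j hj _ hb _ rfl, map_pow, Subring.coe_pow, hpD, map_mul, map_pow, map_pow]
    field_simp
  have hdvd2 : ∀ j ∈ Finset.Icc 1 r, ∀ g ∈ G j, φ (zz j) ∣ φ (dehom i g) := by
    intro j hj g hg
    have hb : π g ∈ pset π δ G (oA K A O ϖ) j := Or.inr ⟨g, hg, rfl⟩
    refine ⟨⟨_, hratio j hj _ hb⟩, Subtype.ext ?_⟩
    rw [hmulr j hj _ hb _ rfl, hφψ, hψhom δ g (hG j g hg)]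
    field_simp
  have hgen : ∀ R' : Subring D, Dom R' → locIn φ ≤ R' →
      (∀ j ∈ Finset.Icc 1 r, ∀ w, φ (zz j) * w = φ (C ϖ ^ j) → w ∈ R') →
      (∀ j ∈ Finset.Icc 1 r, ∀ g ∈ G j, ∀ w, φ (zz j) * w = φ (dehom i g) → w ∈ R') →
      R' = ⊤ := by
    subst hD
    intro R' hdom hRle hR1 hR2
    rw [eq_top_iff]
    rintro ⟨z, hz⟩ -
    have h4 := hO.eq_top ι hι Q hβ hf hfQ (R'.map (homLoc 𝒜 ι T Q).subtype) ?_ ?_ ?_ ?_ ?_ z hz
    · obtain ⟨w, hw, hwz⟩ := h4
      have : w = ⟨z, hz⟩ := Subtype.ext hwz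
      rwa [← this]
    · rintro _ ⟨w, -, rfl⟩
      exact w.2
    · rintro _ ⟨a, ha, rfl⟩ b hb hab
      exact ⟨⟨b, hb⟩, hdom a ha ⟨b, hb⟩ (Subtype.ext hab), rfl⟩
    · rintro _ ⟨c, rfl⟩
      refine ⟨φ (C c), hRle (hφloc _), ?_⟩
      exact hφC c
    · intro k
      refine ⟨φ (dehom i (X k)), hRle (hφloc _), ?_⟩
      change ((φ (dehom i (X k)) : homLoc 𝒜 ι T Q) : F) = _
      rw [hφψ]
      simp only [ψ, coe_eval₂Hom, eval₂_X]
    · intro j hj b hb
      rcases hb with ⟨k, rfl⟩ | ⟨g, hg, rfl⟩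
      · have hb' : oA K A O ϖ ^ j * π (X i) ^ δ ∈ pset π δ G (oA K A O ϖ) j :=
          Or.inl ⟨i, rfl⟩
        have h1 : (⟨_, hratio j hj _ hb'⟩ : homLoc 𝒜 ι T Q) ∈ R' := by
          refine hR1 j hj _ (Subtype.ext ?_)
          rw [hmulr j hj _ hb' _ rfl, map_pow, Subring.coe_pow, hpD, map_mul, map_pow, map_pow]
          field_simp
        refine ⟨(⟨_, hratio j hj _ hb'⟩ : homLoc 𝒜 ι T Q) * φ (dehom i (X k)) ^ δ,
          R'.mul_mem h1 (R'.pow_mem (hRle (hφloc _)) _), ?_⟩
        change (((⟨_, hratio j hj _ hb'⟩ : homLoc 𝒜 ι T Q) * φ (dehom i (X k)) ^ δ :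
          homLoc 𝒜 ι T Q) : F) = _
        rw [Subring.coe_mul, Subring.coe_pow, hφψ]
        simp only [ψ, coe_eval₂Hom, eval₂_X]
        rw [map_mul, map_mul, map_pow, map_pow, map_pow, div_pow]
        field_simp
      · refine ⟨⟨_, hratio j hj _ (Or.inr ⟨g, hg, rfl⟩)⟩, ?_, rfl⟩
        refine hR2 j hj g hg _ (Subtype.ext ?_)
        rw [hmulr j hj _ (Or.inr ⟨g, hg, rfl⟩) _ rfl, hφψ, hψhom δ g (hG j g hg)]
        field_simp
  -- the point
  have hun : ∀ x, x ∉ Ideal.comap φ (maximalIdeal D) ↔ IsUnit (φ x) := by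
    intro x
    rw [Ideal.mem_comap, IsLocalRing.mem_maximalIdeal, mem_nonunits_iff, not_not]
  have hQp : (Ideal.comap φ (maximalIdeal D)).IsPrime := Ideal.IsPrime.comap φ
  have hFQ : dehom i f ∈ Ideal.comap φ (maximalIdeal D) := by
    rw [Ideal.mem_comap, hφf]; exact Ideal.zero_mem _
  have hstr : ∀ (l : Fin (n + 1)) (hl : l < i),
      X ⟨l, hl.ne⟩ ∈ Ideal.comap φ (maximalIdeal D) := by
    intro l hl
    by_contra hcon
    have h1 := (hun _).mp hcon
    refine himin l ?_ hl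
    have hw : (fun k => π (X k)) l * ∏ j ∈ Finset.Icc 1 r, β j ∈ DNF.WSet (fun k => π (X k))
        (pset π δ G (oA K A O ϖ)) r := ⟨l, _, ⟨β, hβ, rfl⟩, rfl⟩
    refine ⟨β, hβ, hO.W_le _ hw, ?_⟩
    refine hO.change ι hι Q hβ hf hfQ l (hO.W_le _ hw) ?_
    subst hD
    have h2 : φ (X ⟨l, hl.ne⟩) = (⟨_, hO.coord_mem ι hι Q hβ hf hfQ l⟩ : homLoc 𝒜 ι T Q) := by
      simp only [φ, coe_eval₂Hom, eval₂_X]
    rw [← h2]
    exact h1
  have hcharD : ∀ m : O, m ≠ 0 → φ (C m) ≠ 0 := by
    intro a ha h0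
    apply hchar a ha
    have := congrArg (fun z : D => (z : F)) h0
    change ((φ (C a) : D) : F) = 0 at this
    rw [← hφC]
    exact this
  rcases hsing i _ hQp hFQ hstr with ⟨h1, h2⟩ | ⟨h1, h2, I, h3, h4⟩
  · -- the blow-up is an isomorphism
    have hu : ∀ j ∈ Finset.Icc 1 r, IsUnit (φ (zz j)) := by
      intro j hj
      rcases h1 with h1 | h1
      · refine isUnit_of_dvd_unit (hdvd1 j hj) ?_
        rw [map_pow]
        exact ((hun _).mp h1).pow j
      · obtain ⟨g, hg, hgu⟩ := h1 j (Finset.mem_Icc.mp hj).1 (Finset.mem_Icc.mp hj).2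
        exact isUnit_of_dvd_unit (hdvd2 j hj g hg) ((hun _).mp hgu)
    have hinv : ∀ j ∈ Finset.Icc 1 r, ∀ z w, φ (zz j) * w = φ z → w ∈ locIn φ := by
      intro j hj z w hw
      obtain ⟨y, hy⟩ := (hu j hj).exists_right_inv
      have h5 : y ∈ locIn φ := dom_locIn φ _ (hφloc _) _ hy
      have h6 : w = y * φ z := by
        rw [← hw, ← mul_assoc, mul_comm y, hy, one_mul]
      rw [h6]
      exact (locIn φ).mul_mem h5 (hφloc _)
    have htop : locIn φ = ⊤ :=
      hgen (locIn φ) (dom_locIn φ) le_rfl (fun j hj w hw => hinv j hj _ w hw)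
        (fun j hj g _ w hw => hinv j hj _ w hw)
    rw [← hD]
    refine isRegularLocalRing_of_chart φ (fun _ : Fin 1 => dehom i f) (fun _ => hφf) ?_ ?_ ?_
    · intro s hs c hc j
      have hj : j = 0 := Subsingleton.elim _ _
      rw [Fin.sum_univ_one] at hc
      rw [hj]
      by_contra hcon
      refine h2 (s * c 0) (hQp.mul_notMem ((hun s).mpr hs) hcon) ?_
      rw [mul_assoc]
      exact hc
    · intro z
      have h1 : z ∈ locIn φ := by rw [htop]; exact Subring.mem_top z
      obtain ⟨a, s, h2, h3⟩ := h1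
      exact ⟨a, s, h2, h3⟩
    · intro g hg
      obtain ⟨m, hm, q, hq⟩ := hker g hg
      refine ⟨C m, hcharD m hm, ?_⟩
      rw [hq]
      exact Ideal.mul_mem_right _ _ (Ideal.subset_span ⟨0, rfl⟩)
  · -- the blow-up of a good centre
    have hB : MBlowHyp φ ϖ (dehom i f) (Ideal.comap φ (maximalIdeal D)) r I
        (fun j => φ (zz j)) :=
      { zero := hφf
        ker := hker
        char := hcharD
        eq := rfl
        max := h2
        unif := h1
        ne := fun j hj1 hjr => hb0 j (Finset.mem_Icc.mpr ⟨hj1, hjr⟩)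
        mem := by
          intro j hj1 hjr
          have hj : j ∈ Finset.Icc 1 r := Finset.mem_Icc.mpr ⟨hj1, hjr⟩
          obtain ⟨h5, h6, h7⟩ := h3 j hj1 hjr
          rcases (hzz j hj).2 with ⟨k, -, hk⟩ | ⟨g, hg, -, hk⟩
          · refine ⟨1, zz j, hQp.one_notMem, ?_, ?_⟩
            · rw [hk]
              exact Ideal.mul_mem_right _ _ h5
            · change φ (zz j) * φ 1 = φ (zz j)
              rw [map_one, mul_one]
          · obtain ⟨s, hs, hsg⟩ := h6 g hg
            refine ⟨s, s * dehom i g, hs, hsg, ?_⟩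
            change φ (zz j) * φ s = φ (s * dehom i g)
            rw [hk, map_mul, mul_comm]
        dvd := by
          intro j hj1 hjr z hz
          have hj : j ∈ Finset.Icc 1 r := Finset.mem_Icc.mpr ⟨hj1, hjr⟩
          obtain ⟨s, hs, hsz⟩ := (h3 j hj1 hjr).2.2 z hz
          have h5 : Ideal.span (insert (C ϖ ^ j) {w | ∃ g ∈ G j, w = dehom i g}) ≤
              Ideal.comap φ (Ideal.span {φ (zz j)}) := by
            rw [Ideal.span_le]
            rintro w (rfl | ⟨g, hg, rfl⟩)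
            · exact Ideal.mem_span_singleton.mpr (hdvd1 j hj)
            · exact Ideal.mem_span_singleton.mpr (hdvd2 j hj g hg)
          have h6 := Ideal.mem_span_singleton.mp (Ideal.mem_comap.mp (h5 hsz))
          rw [map_mul] at h6
          exact ((hun s).mp hs).dvd_mul_left.mp h6
        gen := by
          intro R' hdom hRle hRI
          refine hgen R' hdom hRle ?_ ?_
          · intro j hj w hw
            exact hRI j (Finset.mem_Icc.mp hj).1 (Finset.mem_Icc.mp hj).2 _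
              (h3 j (Finset.mem_Icc.mp hj).1 (Finset.mem_Icc.mp hj).2).1 w hw
          · intro j hj g hg w hw
            obtain ⟨s, hs, hsg⟩ :=
              (h3 j (Finset.mem_Icc.mp hj).1 (Finset.mem_Icc.mp hj).2).2.1 g hg
            have h5 : w * φ s ∈ R' := by
              refine hRI j (Finset.mem_Icc.mp hj).1 (Finset.mem_Icc.mp hj).2 _ hsg _ ?_
              change φ (zz j) * (w * φ s) = _
              rw [← mul_assoc, hw, map_mul, mul_comm]
            obtain ⟨y, hy⟩ := ((hun s).mp hs).exists_right_inv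
            have h6 : y ∈ R' := hdom _ (hRle (hφloc s)) _ hy
            have h7 : w = w * φ s * y := by rw [mul_assoc, hy, mul_one]
            rw [h7]
            exact R'.mul_mem h5 h6 }
    rw [← hD]
    exact h4 D φ _ hB


end

end Pool.Agent.Lib.MP_6a3dac_ag.Maj
end
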