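import Pool.Agent.Lib.MP_6a3dac_ag.Mg.G030
import Pool.Agent.Lib.MP_6a3dac_ag.Maj.ModelO
import Pool.Agent.Lib.MP_6a3dac_ag.Mg.G033

section

/-!
# Regular models of hypersurfaces over number fields
-/

set_option autoImplicit false

namespace Pool.Agent.Lib.MP_6a3dac_ag.Maj

open MvPolynomial IsLocalRing IsDedekindDomain CategoryTheory Limits AlgebraicGeometry NumberField
open Pool.Agent.Lib.MP_6a3dac_ag.DNF

/-- The concrete form of `exists_model_hypO`. -/
theorem m3_exists_model_form {R K : Type} [CommRing R] [IsDedekindDomain R] [Field K] [Algebra R K]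
    [IsFractionRing R K] {n d : ℕ} {f : MvPolynomial (Fin (n + 1)) R} (hf : f.IsHomogeneous d)
    (𝔞 : HomIdeal K (n + 1)) (h𝔞 : 𝔞.ideal = Ideal.span {map (algebraMap R K) f})
    (hRf : ¬ IsField R) (hn : 2 ≤ n) (hd : 2 ≤ d) {m : R} (hm : m ≠ 0)
    {N : ℕ} (hmN : ∀ i, C m * X i ^ N ∈ Ideal.span (insert f (Set.range fun l => pderiv l f)))
    (hsing : ∀ P : HeightOneSpectrum R, m ∈ P.asIdeal →
      ((2 : R) ∉ P.asIdeal ∧ ∀ (ϖ : locRing K P), Irreducible ϖ → ∀ i,
        NondegAt ϖ (dehom i (map (algebraMap R (locRing K P)) f))) ∨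
      (Finite (R ⧸ P.asIdeal) ∧ ∃ ϖ : locRing K P, Irreducible ϖ ∧
        OdpForm ϖ (map (algebraMap R (locRing K P)) f))) :
    ∃ (Y : Scheme.{0}) (g : Y ⟶ Spec (CommRingCat.of R)),
      IsProper g ∧ Flat g ∧ (∀ y : Y, IsRegularLocalRing (Y.presheaf.stalk y)) ∧
      ∃ e : pullback g (Spec.map (CommRingCat.ofHom (algebraMap R K))) ≅ hProj 𝔞,
        e.hom ≫ hProjTo 𝔞 =
          pullback.snd g (Spec.map (CommRingCat.ofHom (algebraMap R K))) := by
  have hirr : Irreducible (map (algebraMap R K) f) :=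
    dens_irreducible hn (by omega) (hf.map _) fun i => jac_frac hm (hmN i)
  have hprime : 𝔞.ideal.IsPrime := by
    rw [h𝔞, Ideal.span_singleton_prime hirr.ne_zero]
    exact hirr.prime
  have : IsDomain (HCoord 𝔞) := Ideal.Quotient.isDomain 𝔞.ideal
  let _ : Algebra R (HCoord 𝔞) := ((algebraMap K (HCoord 𝔞)).comp (algebraMap R K)).toAlgebra
  have : IsScalarTower R K (HCoord 𝔞) := IsScalarTower.of_algebraMap_eq fun _ => rfl
  refine exists_model_hypO (𝒜 := hGr 𝔞) (hMk 𝔞) (fun q e hq => ⟨q, hq, rfl⟩) hf ?_ ?_ ?_ hRf hd hm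
    hmN hsing
  · change Ideal.Quotient.mk 𝔞.ideal (map (algebraMap R K) f) = 0
    rw [Ideal.Quotient.eq_zero_iff_mem, h𝔞]
    exact Ideal.subset_span rfl
  · intro g hg
    change Ideal.Quotient.mk 𝔞.ideal g = 0 at hg
    rwa [Ideal.Quotient.eq_zero_iff_mem, h𝔞, Ideal.mem_span_singleton] at hg
  · rw [eq_top_iff]
    rintro a -
    obtain ⟨q, rfl⟩ := Ideal.Quotient.mk_surjective a
    change hMk 𝔞 q ∈ _
    induction q using MvPolynomial.induction_on with
    | C c =>
      have h1 : hMk 𝔞 (C c) = algebraMap K (HCoord 𝔞) c := (hMk 𝔞).commutes c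
      rw [h1]
      exact Subalgebra.algebraMap_mem _ _
    | add a b ha hb => rw [map_add]; exact Subalgebra.add_mem _ ha hb
    | mul_X a k ha =>
      rw [map_mul]
      exact Subalgebra.mul_mem _ ha (Algebra.subset_adjoin ⟨k, rfl⟩)

/-- Uses `exists_model_hypO`. -/
theorem hasRegularModel_mixed {n d : ℕ} (hn : 2 ≤ n) (hd : 2 ≤ d)
    {g G : Fin (n + 1) → MvPolynomial (Mono n d) ℤ}
    (hpair : ∀ (i : Fin (n + 1)) (L : Type) [Field L] (a : Mono n d → L) (x : Fin (n + 1) → L),
      x i = 1 → eval x (form a) = 0 → (∀ l, l ≠ i → eval x (pderiv l (form a)) = 0) →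
      aeval a (g i) = 0 ∧ ((Matrix.of fun j l : {l : Fin (n + 1) // l ≠ i} =>
          eval x (pderiv j.1 (pderiv l.1 (form a)))).det = 0 → aeval a (G i) = 0))
    {E : Type} [Field E] [NumberField E] {a : Mono n d → 𝓞 E} {m : 𝓞 E} (hm : m ≠ 0) {N : ℕ}
    (hmN : ∀ i, C m * X i ^ N ∈ Ideal.span (insert (form a)
      (Set.range fun l => pderiv l (form a))))
    (hP : ∀ P : HeightOneSpectrum (𝓞 E), m ∈ P.asIdeal →
      ((2 : 𝓞 E) ∉ P.asIdeal ∧ ∀ i, ¬ (aeval a (g i) ∈ P.asIdeal ∧ aeval a (G i) ∈ P.asIdeal)) ∨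
      ∃ ϖ : locRing E P, Irreducible ϖ ∧
        OdpForm ϖ (form fun μ => algebraMap (𝓞 E) (locRing E P) (a μ))) :
    Smooth (hProjTo (formIdeal fun μ => algebraMap (𝓞 E) E (a μ))) ∧
      HasRegularModel E (hProjTo (formIdeal fun μ => algebraMap (𝓞 E) E (a μ))) := by
  have h1 : map (algebraMap (𝓞 E) E) (form a) = form fun μ => algebraMap (𝓞 E) E (a μ) :=
    map_form _ a
  refine ⟨?_, ?_⟩
  · exact smooth_projTo_of_jac (formIdeal fun μ => algebraMap (𝓞 E) E (a μ)).toHom
      (isHomogeneous_form fun μ => algebraMap (𝓞 E) E (a μ)) rfl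
      fun i => by
        have := jac_frac (K := E) hm (hmN i)
        rwa [h1] at this
  · refine m3_exists_model_form (R := 𝓞 E) (K := E) (isHomogeneous_form a) _ ?_
      (RingOfIntegers.not_isField E) hn hd hm hmN ?_
    · change Ideal.span {form fun μ => algebraMap (𝓞 E) E (a μ)} = _
      rw [h1]
    · intro P hmP
      rcases hP P hmP with ⟨h2, h3⟩ | ⟨ϖ, hϖ, h2⟩
      · refine Or.inl ⟨h2, fun ϖ hϖ i => ?_⟩
        exact nondegAt_of_pair (fun k _ a x hx h4 h5 h6 =>
          ⟨(hpair i k a x hx h4 h5).1, (hpair i k a x hx h4 h5).2 h6⟩) P.asIdeal a (h3 i) ϖ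
      · refine Or.inr ⟨Ideal.finiteQuotientOfFreeOfNeBot _ P.ne_bot, ϖ, hϖ, ?_⟩
        rw [map_form]
        exact h2

end Pool.Agent.Lib.MP_6a3dac_ag.Maj
end

section

/-!
# The other charts of the blow-up of the product of the ideals `(x, y ^ j)`
-/

set_option autoImplicit false

namespace Pool.Agent.Lib.MP_6a3dac_ag.Maj

open MvPolynomial IsLocalRing
open Pool.Agent.Lib.MP_6a3dac_ag.DNF

/-- The equations of the chart, in the variables `cw`, `cv`, `ct` of DNF/Indep.lean. -/
noncomputable def brel {O : Type} [CommRing O] {σ : Type} (x : σ → MvPolynomial σ O)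
    (y : MvPolynomial σ O) (k : ℕ) (j₀ : σ) (Fs : MvPolynomial (CVar σ) O) :
    σ ⊕ Fin 3 → MvPolynomial (CVar σ) O :=
  Sum.elim (fun j => emb (x j) - emb y ^ k * cv O σ * cw O j)
    ![cv O σ * ct O σ - emb y, cw O j₀ - 1, Fs]

/-- The strict transform. -/
noncomputable def bstrict {O : Type} [CommRing O] {σ : Type} [Fintype σ]
    (c : σ → σ → MvPolynomial σ O) (b : σ → MvPolynomial σ O) (a : MvPolynomial σ O) :
    MvPolynomial (CVar σ) O :=
  ∑ i, ∑ j, emb (c i j) * (cw O i * cw O j) + ct O σ * ∑ j, emb (b j) * cw O j +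
    emb a * ct O σ ^ 2

section B5Aux

variable {O : Type} [CommRing O] {σ : Type} [Fintype σ]
  {x : σ → MvPolynomial σ O} {y : MvPolynomial σ O} {k : ℕ} {j₀ : σ}
  {c : σ → σ → MvPolynomial σ O} {b : σ → MvPolynomial σ O} {a : MvPolynomial σ O}

/-- The ideal of the equations without the last one. -/
noncomputable def b5_pre (x : σ → MvPolynomial σ O) (y : MvPolynomial σ O) (k : ℕ) (j₀ : σ) :
    Ideal (MvPolynomial (CVar σ) O) :=
  Ideal.span (Set.range (fun j => emb (x j) - emb y ^ k * cv O σ * cw O j) ∪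
    {cv O σ * ct O σ - emb y, cw O j₀ - 1})

omit [Fintype σ] in
theorem b5_pre_le (Fs : MvPolynomial (CVar σ) O) :
    b5_pre x y k j₀ ≤ Ideal.span (Set.range (brel x y k j₀ Fs)) := by
  rw [b5_pre, Ideal.span_le]
  rintro p (⟨l, rfl⟩ | hx)
  · exact Ideal.subset_span ⟨Sum.inl l, rfl⟩
  · rcases hx with rfl | hx
    · exact Ideal.subset_span ⟨Sum.inr 0, rfl⟩
    · rw [Set.mem_singleton_iff] at hx
      rw [hx]
      exact Ideal.subset_span ⟨Sum.inr 1, rfl⟩

omit [Fintype σ] in
theorem b5_pre_eqs :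
    (∀ l, Ideal.Quotient.mk (b5_pre x y k j₀) (emb (x l)) =
      Ideal.Quotient.mk _ (emb y) ^ k * Ideal.Quotient.mk _ (cv O σ) *
        Ideal.Quotient.mk _ (cw O l)) ∧
    Ideal.Quotient.mk (b5_pre x y k j₀) (cv O σ) * Ideal.Quotient.mk _ (ct O σ) =
      Ideal.Quotient.mk _ (emb y) ∧
    Ideal.Quotient.mk (b5_pre x y k j₀) (cw O j₀) = 1 := by
  refine ⟨fun l => ?_, ?_, ?_⟩
  · rw [← map_pow, ← map_mul, ← map_mul, Ideal.Quotient.eq]
    exact Ideal.subset_span (Or.inl ⟨l, rfl⟩)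
  · rw [← map_mul, Ideal.Quotient.eq]
    exact Ideal.subset_span (Or.inr (Or.inl rfl))
  · rw [← map_one (Ideal.Quotient.mk (b5_pre x y k j₀)), Ideal.Quotient.eq]
    exact Ideal.subset_span (Or.inr (Or.inr rfl))

section Abstract

variable {A : Type} [CommRing A] (π : MvPolynomial (CVar σ) O →+* A)
  (h1 : ∀ l, π (emb (x l)) = π (emb y) ^ k * π (cv O σ) * π (cw O l))
  (h2 : π (cv O σ) * π (ct O σ) = π (emb y)) (h3 : π (cw O j₀) = 1)
include h1 h2 h3

theorem b5_strict_aux {F s : MvPolynomial σ O}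
    (hF : s * F = ∑ j, ∑ l, c j l * (x j * x l) + y ^ (k + 1) * ∑ j, b j * x j +
      a * y ^ (2 * (k + 1))) :
    π (emb (x j₀) ^ 2 * bstrict c b a) = π (emb s * emb F) := by
  have hF' := congrArg (fun p => π (emb p)) hF
  simp only [map_add, map_mul, map_sum, map_pow] at hF'
  simp only [h1] at hF'
  rw [map_mul π (emb s), hF', map_mul, map_pow, h1, h3, mul_one, bstrict]
  simp only [map_add, map_mul, map_sum, map_pow]
  rw [mul_add, mul_add]
  congr 1
  · congr 1
    · simp only [Finset.mul_sum]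
      refine Finset.sum_congr rfl fun i _ => Finset.sum_congr rfl fun j _ => ?_
      ring
    · simp only [Finset.mul_sum]
      refine Finset.sum_congr rfl fun j _ => ?_
      rw [pow_succ, ← h2]
      ring
  · rw [show 2 * (k + 1) = k + k + 2 by ring, pow_add, pow_add, ← h2]
    ring

omit [Fintype σ] in
theorem b5_clear_aux (g : MvPolynomial (CVar σ) O) :
    ∃ (N : ℕ) (g₀ : MvPolynomial σ O),
      π ((emb y ^ k * emb (x j₀)) ^ N * g) = π (emb g₀) := by
  have hX : ∀ z : CVar σ, ∃ (N : ℕ) (g₀ : MvPolynomial σ O),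
      π ((emb y ^ k * emb (x j₀)) ^ N * X z) = π (emb g₀) := by
    rintro (j | j | b)
    · exact ⟨0, X j, by rw [pow_zero, one_mul, emb, rename_X]⟩
    · refine ⟨1, y ^ k * x j, ?_⟩
      have e1 : (X (Sum.inr (Sum.inl j)) : MvPolynomial (CVar σ) O) = cw O j := rfl
      rw [e1, pow_one]
      simp only [map_mul, map_pow, h1, h3]
      ring
    · rcases b with _ | _
      · refine ⟨1, y ^ k * y ^ (k + 1), ?_⟩
        have e1 : (X (Sum.inr (Sum.inr false)) : MvPolynomial (CVar σ) O) = ct O σ := rfl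
        rw [e1, pow_one]
        simp only [map_mul, map_pow, h1, h3]
        rw [pow_succ, ← h2]
        ring
      · refine ⟨1, x j₀ * x j₀, ?_⟩
        have e1 : (X (Sum.inr (Sum.inr true)) : MvPolynomial (CVar σ) O) = cv O σ := rfl
        rw [e1]
        simp only [map_mul, map_pow, h1, h3, mul_one]
        ring
  induction g using MvPolynomial.induction_on with
  | C a =>
    exact ⟨0, C a, by rw [pow_zero, one_mul, emb, rename_C]⟩
  | add p q hp hq =>
    obtain ⟨N, g₀, h4⟩ := hp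
    obtain ⟨N', g₀', h5⟩ := hq
    refine ⟨N + N', (y ^ k * x j₀) ^ N' * g₀ + (y ^ k * x j₀) ^ N * g₀', ?_⟩
    simp only [map_add, map_mul, map_pow] at h4 h5 ⊢
    rw [← h4, ← h5]
    ring
  | mul_X p z hp =>
    obtain ⟨N, g₀, h4⟩ := hp
    obtain ⟨N', g₀', h5⟩ := hX z
    refine ⟨N + N', g₀ * g₀', ?_⟩
    simp only [map_mul, map_pow] at h4 h5 ⊢
    rw [← h4, ← h5]
    ring

end Abstract

/-- The equation of the strict transform. -/
theorem b5_strict {F s : MvPolynomial σ O}
    (hF : s * F = ∑ j, ∑ l, c j l * (x j * x l) + y ^ (k + 1) * ∑ j, b j * x j +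
      a * y ^ (2 * (k + 1))) :
    emb (x j₀) ^ 2 * bstrict c b a - emb s * emb F ∈ b5_pre x y k j₀ := by
  obtain ⟨h1, h2, h3⟩ := b5_pre_eqs (x := x) (y := y) (k := k) (j₀ := j₀)
  rw [← Ideal.Quotient.eq]
  exact b5_strict_aux _ h1 h2 h3 hF

omit [Fintype σ] in
/-- Clearing denominators. -/
theorem b5_clear (g : MvPolynomial (CVar σ) O) :
    ∃ (N : ℕ) (g₀ : MvPolynomial σ O),
      (emb y ^ k * emb (x j₀)) ^ N * g - emb g₀ ∈ b5_pre x y k j₀ := by
  obtain ⟨h1, h2, h3⟩ := b5_pre_eqs (x := x) (y := y) (k := k) (j₀ := j₀)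
  obtain ⟨N, g₀, h⟩ := b5_clear_aux _ h1 h2 h3 g
  exact ⟨N, g₀, Ideal.Quotient.eq.mp h⟩

end B5Aux

section B4aux

variable {O : Type} [CommRing O] {σ : Type} [Fintype σ] [DecidableEq σ]

theorem b4_dw_quad (c : σ → σ → MvPolynomial σ O) (k₀ : σ) :
    pderiv (Sum.inr (Sum.inl k₀)) (∑ i, ∑ j, emb (c i j) * (cw O i * cw O j)) =
      qd (fun j l => emb (c j l)) (fun j => cw O j) k₀ := by
  unfold qd
  rw [map_sum]
  have h2 : ∀ j, pderiv (Sum.inr (Sum.inl k₀)) (∑ k, emb (c j k) * (cw O j * cw O k)) =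
      emb (c j k₀) * cw O j +
        if j = k₀ then ∑ k, emb (c k₀ k) * cw O k else 0 := by
    intro j
    rw [map_sum]
    have h3 : ∀ k, pderiv (Sum.inr (Sum.inl k₀)) (emb (c j k) * (cw O j * cw O k)) =
      (if k = k₀ then emb (c j k) * cw O j else 0) +
      (if j = k₀ then emb (c j k) * cw O k else 0) := by
      intro k
      rw [Derivation.leibniz, Derivation.leibniz, pderiv_inr_emb, smul_zero, add_zero, dw_cw,
        dw_cw]
      simp only [smul_eq_mul, eq_comm (a := k₀)]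
      split_ifs <;> ring
    simp only [h3]
    rw [Finset.sum_add_distrib, Finset.sum_ite_eq' Finset.univ k₀, if_pos (Finset.mem_univ _)]
    congr 1
    split_ifs with hj
    · rw [hj]
    · rw [Finset.sum_const_zero]
  simp only [h2]
  rw [Finset.sum_add_distrib, Finset.sum_ite_eq' Finset.univ k₀, if_pos (Finset.mem_univ _),
    ← Finset.sum_add_distrib]
  refine Finset.sum_congr rfl fun j _ => ?_
  ring

/-- The derivative of the strict transform in the direction of `cw l`. -/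
theorem b4_dw_bstrict (c : σ → σ → MvPolynomial σ O) (b : σ → MvPolynomial σ O)
    (a : MvPolynomial σ O) (l : σ) :
    pderiv (Sum.inr (Sum.inl l)) (bstrict c b a) =
      qd (fun j l => emb (c j l)) (fun j => cw O j) l + ct O σ * emb (b l) := by
  have h1 : pderiv (Sum.inr (Sum.inl l)) (∑ j, emb (b j) * cw O j) = emb (b l) := by
    rw [map_sum]
    have h2 : ∀ j, pderiv (Sum.inr (Sum.inl l)) (emb (b j) * cw O j) =
        if j = l then emb (b l) else 0 := by
      intro j
      rw [Derivation.leibniz, pderiv_inr_emb, smul_zero, add_zero, dw_cw, smul_eq_mul]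
      by_cases hj : j = l
      · subst hj
        simp
      · rw [if_neg (Ne.symm hj), if_neg hj, mul_zero]
    simp only [h2]
    rw [Finset.sum_ite_eq' Finset.univ l, if_pos (Finset.mem_univ _)]
  have h3 : pderiv (Sum.inr (Sum.inl l)) (ct O σ ^ 2) = 0 := by
    rw [Derivation.leibniz_pow, dw_ct]
    simp
  unfold bstrict
  rw [map_add, map_add, b4_dw_quad, Derivation.leibniz, dw_ct, h1, Derivation.leibniz, h3,
    pderiv_inr_emb]
  simp only [smul_eq_mul, mul_zero, add_zero]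

end B4aux

variable {O : Type} [CommRing O] [IsDomain O] [IsDiscreteValuationRing O] {σ : Type} [Fintype σ]
  [DecidableEq σ] {ϖ : O} (hϖ : Irreducible ϖ) (hfin : Finite (O ⧸ Ideal.span {ϖ}))
include hϖ hfin

/-- Independence. Apply `pderiv (inr (inl l))`, `l ≠ j₀`: all terms lie in `Q` except
`e` times the derivative of `bstrict`, which is `qd` at the point `cw` modulo `Q` (as `ct ∈ Q`); the
point is not zero and `qf` vanishes there, so by `QNondeg.ext` and Euler's relation some `l ≠ j₀`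
has `qd ∉ Q`; so `e ∈ Q`. Note `y ∈ 𝔮`, `y ^ k * cv ∈ Q`. `pderiv (inr (inl j₀))` gives the coefficient of
`cw j₀ - 1`. There remains `s * (∑ e j * x j - y ^ k * cv * W + e₀ * cv * ct - e₀ * y) ∈ Q ^ 2` with
`W = ∑ e j * cw j`. If `cv ∉ Q` (then `k ≥ 1`): the derivative with respect to `ct` gives `e₀ ∈ Q`, and
`par_indep` for the `x j` and `y` (coefficient `- y ^ (k - 1) * cv * W`) gives the rest. If `cv ∈ Q`:
`e₀ * cv * ct ∈ Q ^ 2`; for `k ≥ 1` also `y ^ k * cv * W ∈ Q ^ 2`, for `k = 0` the derivative with respect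
to `cv` gives `W ∈ Q`; `par_indep` gives the rest. -/
theorem brel_indep {x : σ → MvPolynomial σ O} {y : MvPolynomial σ O} {k : ℕ} {j₀ : σ}
    {c : σ → σ → MvPolynomial σ O} {b : σ → MvPolynomial σ O} {a : MvPolynomial σ O}
    {𝔮 : Ideal (MvPolynomial σ O)} (hmax : 𝔮.IsMaximal) (h𝔮 : C ϖ ∈ 𝔮)
    (hpar : Par 𝔮 fun o => o.elim y x) (hnd : QNondeg fun j k => Ideal.Quotient.mk 𝔮 (c j k))
    {Q : Ideal (MvPolynomial (CVar σ) O)} (hQp : Q.IsPrime)
    (hQ : ∀ p : MvPolynomial σ O, emb p ∈ Q ↔ p ∈ 𝔮)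
    (hrel : ∀ i, brel x y k j₀ (bstrict c b a) i ∈ Q) (ht : ct O σ ∈ Q)
    {s : MvPolynomial (CVar σ) O} (hs : s ∉ Q) {e : σ ⊕ Fin 3 → MvPolynomial (CVar σ) O}
    (h : s * ∑ i, e i * brel x y k j₀ (bstrict c b a) i ∈ Q ^ 2) : ∀ i, e i ∈ Q := by
  let L := FractionRing (MvPolynomial (CVar σ) O ⧸ Q)
  let φ : MvPolynomial (CVar σ) O →+* L :=
    (algebraMap (MvPolynomial (CVar σ) O ⧸ Q) L).comp (Ideal.Quotient.mk Q)
  have hφ : ∀ x, φ x = 0 ↔ x ∈ Q := by
    intro x
    simp only [φ, RingHom.comp_apply]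
    rw [FaithfulSMul.algebraMap_eq_zero_iff, Ideal.Quotient.eq_zero_iff_mem]
  have hsq : ∀ {p r : MvPolynomial (CVar σ) O}, p ∈ Q → r ∈ Q → p * r ∈ Q ^ 2 := fun hp hr => by
    rw [pow_two]
    exact Ideal.mul_mem_mul hp hr
  have hxQ : ∀ j, emb (x j) ∈ Q := fun j => (hQ _).mpr (hpar.1 (some j))
  have hyQ : emb y ∈ Q := (hQ _).mpr (hpar.1 none)
  have hw0 : cw O j₀ - 1 ∈ Q := hrel (Sum.inr 1)
  have hFs : bstrict c b a ∈ Q := hrel (Sum.inr 2)
  have hykv : emb y ^ k * cv O σ ∈ Q := by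
    have h1 : emb (x j₀) - emb y ^ k * cv O σ * cw O j₀ ∈ Q := hrel (Sum.inl j₀)
    have h2 := Q.sub_mem (hxQ j₀) h1
    have h3 : emb y ^ k * cv O σ * (cw O j₀ - 1) ∈ Q := Q.mul_mem_left _ hw0
    have h4 := Q.sub_mem h2 h3
    have e1 : emb (x j₀) - (emb (x j₀) - emb y ^ k * cv O σ * cw O j₀) -
        emb y ^ k * cv O σ * (cw O j₀ - 1) = emb y ^ k * cv O σ := by ring
    rwa [e1] at h4
  -- the equation given by a derivation
  have hD : ∀ z : CVar σ, ∑ i, e i * pderiv z (brel x y k j₀ (bstrict c b a) i) ∈ Q := by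
    intro z
    have h1 := derivation_mem Q (pderiv z) hs h
    rw [map_sum] at h1
    have h2 : ∑ i, brel x y k j₀ (bstrict c b a) i * pderiv z (e i) ∈ Q :=
      Q.sum_mem fun i _ => Q.mul_mem_right _ (hrel i)
    have h3 := Q.sub_mem h1 h2
    rw [← Finset.sum_sub_distrib] at h3
    have e1 : ∀ i, pderiv z (e i * brel x y k j₀ (bstrict c b a) i) -
        brel x y k j₀ (bstrict c b a) i * pderiv z (e i) =
        e i * pderiv z (brel x y k j₀ (bstrict c b a) i) := by
      intro i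
      rw [Derivation.leibniz, smul_eq_mul, smul_eq_mul]
      ring
    simpa only [e1] using h3
  have hb0 : ∀ j, brel x y k j₀ (bstrict c b a) (Sum.inl j) =
      emb (x j) - emb y ^ k * cv O σ * cw O j := fun j => rfl
  have hb1 : brel x y k j₀ (bstrict c b a) (Sum.inr 0) = cv O σ * ct O σ - emb y := rfl
  have hb2 : brel x y k j₀ (bstrict c b a) (Sum.inr 1) = cw O j₀ - 1 := rfl
  have hb3 : brel x y k j₀ (bstrict c b a) (Sum.inr 2) = bstrict c b a := rfl
  simp only [Fintype.sum_sum_type, Fin.sum_univ_three, hb0, hb1, hb2, hb3] at hD h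
  have hdx : ∀ (z : σ ⊕ Bool) (j : σ), pderiv (Sum.inr z)
      (emb (x j) - emb y ^ k * cv O σ * cw O j) =
      - (emb y ^ k * pderiv (Sum.inr z) (cv O σ * cw O j)) := by
    intro z j
    rw [map_sub, pderiv_inr_emb, zero_sub, mul_assoc, ← map_pow, Derivation.leibniz,
      pderiv_inr_emb, smul_zero, add_zero, smul_eq_mul]
  -- the derivations in the directions of `cw l`
  have hdw : ∀ l, e (Sum.inr 1) * (if l = j₀ then 1 else 0) +
      e (Sum.inr 2) * pderiv (Sum.inr (Sum.inl l)) (bstrict c b a) ∈ Q := by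
    intro l
    have h1 := hD (Sum.inr (Sum.inl l))
    have e0 : pderiv (Sum.inr (Sum.inl l)) (cv O σ * ct O σ - emb y) = 0 := by
      rw [map_sub, Derivation.leibniz, dw_cv, dw_ct, pderiv_inr_emb]
      simp
    have e1 : pderiv (Sum.inr (Sum.inl l)) (cw O j₀ - 1) = if l = j₀ then 1 else 0 := by
      rw [map_sub, dw_cw, pderiv_one, sub_zero]
    have e2 : ∑ j, e (Sum.inl j) * pderiv (Sum.inr (Sum.inl l))
        (emb (x j) - emb y ^ k * cv O σ * cw O j) ∈ Q := by
      refine Q.sum_mem fun j _ => Q.mul_mem_left _ ?_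
      rw [hdx, Derivation.leibniz, dw_cv, dw_cw, smul_zero, add_zero, smul_eq_mul, ← mul_assoc]
      exact Q.neg_mem (Q.mul_mem_right _ hykv)
    rw [e0, e1, mul_zero, zero_add] at h1
    exact (Submodule.add_mem_iff_right Q e2).mp h1
  -- the nondegenerate quadric
  have hmQ : ∀ p, p ∈ 𝔮 → φ (emb p) = 0 := fun p hp => (hφ _).mpr ((hQ p).mpr hp)
  have hnd' : QNondeg fun j l => φ (emb (c j l)) := by
    have hfield : IsField (MvPolynomial σ O ⧸ 𝔮) :=
      (Ideal.Quotient.maximal_ideal_iff_isField_quotient 𝔮).mp hmax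
    have : Finite (MvPolynomial σ O ⧸ 𝔮) := by
      obtain ⟨e, he, hcard⟩ := exists_card_residue hϖ hfin hmax h𝔮
      apply Nat.finite_of_card_ne_zero
      rw [hcard]
      have : Nontrivial (O ⧸ Ideal.span {ϖ}) := by
        apply Ideal.Quotient.nontrivial_iff.mpr
        rw [Ne, Ideal.span_singleton_eq_top]
        exact hϖ.not_isUnit
      exact pow_ne_zero _ Nat.card_pos.ne'
    let θ : (MvPolynomial σ O ⧸ 𝔮) →+* L :=
      Ideal.Quotient.lift 𝔮 (φ.comp (emb : MvPolynomial σ O →ₐ[O] _).toRingHom)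
        (fun p hp => hmQ p hp)
    have h1 : QNondeg fun j l => θ (Ideal.Quotient.mk 𝔮 (c j l)) := l2_ext hfield θ hnd
    exact h1
  have hct : φ (ct O σ) = 0 := (hφ _).mpr ht
  have hqf : qf (fun j l => φ (emb (c j l))) (fun j => φ (cw O j)) = 0 := by
    have h1 := (hφ _).mpr hFs
    rw [bstrict, map_add, map_add, map_mul φ (ct O σ), hct, zero_mul, add_zero, map_mul φ (emb a),
      map_pow, hct] at h1
    have h2 : φ (∑ i, ∑ j, emb (c i j) * (cw O i * cw O j)) = 0 := by
      simpa using h1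
    rw [← h2]
    simp only [qf, map_sum, map_mul]
  have hw1 : φ (cw O j₀) = 1 := by
    have h1 := (hφ _).mpr hw0
    rw [map_sub, map_one, sub_eq_zero] at h1
    exact h1
  obtain ⟨l, hl, hqd⟩ := l2_exists hnd' (v := fun j => φ (cw O j))
    (fun h0 => one_ne_zero (hw1.symm.trans (congrFun h0 j₀))) hqf hw1
  have he2 : e (Sum.inr 2) ∈ Q := by
    have h1 := hdw l
    rw [if_neg hl, mul_zero, zero_add] at h1
    refine (hQp.mem_or_mem h1).resolve_right ?_
    intro h2
    apply hqd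
    have h3 := (hφ _).mpr h2
    rw [b4_dw_bstrict, map_add, map_mul, hct, zero_mul, add_zero, l2_map_qd] at h3
    exact h3
  have he1 : e (Sum.inr 1) ∈ Q := by
    have h1 := hdw j₀
    rw [if_pos rfl, mul_one] at h1
    exact (Submodule.add_mem_iff_left Q (Q.mul_mem_right _ he2)).mp h1
  -- the remaining equations
  have hrest : s * (∑ j, e (Sum.inl j) * (emb (x j) - emb y ^ k * cv O σ * cw O j) +
      e (Sum.inr 0) * (cv O σ * ct O σ - emb y)) ∈ Q ^ 2 := by
    have h1 : s * (e (Sum.inr 1) * (cw O j₀ - 1) + e (Sum.inr 2) * bstrict c b a) ∈ Q ^ 2 :=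
      Ideal.mul_mem_left _ _ (Ideal.add_mem _ (hsq he1 hw0) (hsq he2 hFs))
    have h2 := Ideal.sub_mem _ h h1
    have e1 : s * (∑ j, e (Sum.inl j) * (emb (x j) - emb y ^ k * cv O σ * cw O j) +
        (e (Sum.inr 0) * (cv O σ * ct O σ - emb y) + e (Sum.inr 1) * (cw O j₀ - 1) +
          e (Sum.inr 2) * bstrict c b a)) -
        s * (e (Sum.inr 1) * (cw O j₀ - 1) + e (Sum.inr 2) * bstrict c b a) =
        s * (∑ j, e (Sum.inl j) * (emb (x j) - emb y ^ k * cv O σ * cw O j) +
          e (Sum.inr 0) * (cv O σ * ct O σ - emb y)) := by ring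
    rwa [e1] at h2
  set W := ∑ j, e (Sum.inl j) * cw O j with hW
  have hsumW : ∑ j, e (Sum.inl j) * (emb (x j) - emb y ^ k * cv O σ * cw O j) =
      ∑ j, e (Sum.inl j) * emb (x j) - emb y ^ k * cv O σ * W := by
    rw [hW, Finset.mul_sum, ← Finset.sum_sub_distrib]
    exact Finset.sum_congr rfl fun j _ => by ring
  rw [hsumW] at hrest
  -- the final step
  have hfin' : ∀ (c₀ r : MvPolynomial (CVar σ) O), r ∈ Q ^ 2 →
      ∑ j, e (Sum.inl j) * emb (x j) - emb y ^ k * cv O σ * W +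
        e (Sum.inr 0) * (cv O σ * ct O σ - emb y) =
        ∑ j, e (Sum.inl j) * emb (x j) + c₀ * emb y + r →
      c₀ ∈ Q ∧ ∀ j, e (Sum.inl j) ∈ Q := by
    intro c₀ r hr hc₀
    have h1 : s * ∑ o : Option σ, (o.elim c₀ fun j => e (Sum.inl j)) *
        rename Sum.inl (o.elim y x) ∈ Q ^ 2 := by
      rw [hc₀, mul_add] at hrest
      have h2 := (Submodule.add_mem_iff_left _ (Ideal.mul_mem_left _ s hr)).mp hrest
      rw [Fintype.sum_option, add_comm]
      exact h2
    have h2 := par_indep hϖ hfin hmax h𝔮 hpar hQp hQ hs h1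
    exact ⟨h2 none, fun j => h2 (some j)⟩
  have hall : e (Sum.inr 0) ∈ Q ∧ ∀ j, e (Sum.inl j) ∈ Q := by
    by_cases hcv : cv O σ ∈ Q
    · have hcW : emb y ^ k * cv O σ * W ∈ Q ^ 2 := by
        rcases Nat.eq_zero_or_pos k with hk | hk
        · subst hk
          have h1 := hD (Sum.inr (Sum.inr true))
          have e0 : pderiv (Sum.inr (Sum.inr true)) (cv O σ * ct O σ - emb y) = ct O σ := by
            rw [map_sub, Derivation.leibniz, dv_cv, dv_ct, pderiv_inr_emb]
            simp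
          have e1 : pderiv (Sum.inr (Sum.inr true)) (cw O j₀ - 1) = 0 := by
            rw [map_sub, db_cw, pderiv_one, sub_zero]
          have e2 : ∀ j, pderiv (Sum.inr (Sum.inr true))
              (emb (x j) - emb y ^ 0 * cv O σ * cw O j) = - cw O j := by
            intro j
            rw [hdx, Derivation.leibniz, dv_cv, db_cw]
            simp
          simp only [e0, e1, e2, mul_zero, add_zero] at h1
          have h2 : e (Sum.inr 0) * ct O σ +
              e (Sum.inr 2) * pderiv (Sum.inr (Sum.inr true)) (bstrict c b a) ∈ Q :=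
            Q.add_mem (Q.mul_mem_left _ ht) (Q.mul_mem_right _ he2)
          have h3 := (Submodule.add_mem_iff_left Q h2).mp h1
          have h4 : ∑ j, e (Sum.inl j) * -cw O j = -W := by
            rw [hW, ← Finset.sum_neg_distrib]
            exact Finset.sum_congr rfl fun j _ => by ring
          rw [h4, neg_mem_iff] at h3
          rw [pow_zero, one_mul]
          exact hsq hcv h3
        · exact Ideal.mul_mem_right _ _ (hsq (Ideal.pow_mem_of_mem Q hyQ k hk) hcv)
      obtain ⟨h1, h2⟩ := hfin' (- e (Sum.inr 0)) (e (Sum.inr 0) * (cv O σ * ct O σ) -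
        emb y ^ k * cv O σ * W)
        (Ideal.sub_mem _ (Ideal.mul_mem_left _ _ (hsq hcv ht)) hcW) (by ring)
      exact ⟨neg_mem_iff.mp h1, h2⟩
    · have hyk : emb y ^ k ∈ Q := (hQp.mem_or_mem hykv).resolve_right hcv
      obtain ⟨k', rfl⟩ : ∃ k', k = k' + 1 := by
        refine ⟨k - 1, ?_⟩
        rcases Nat.eq_zero_or_pos k with hk | hk
        · exfalso
          rw [hk, pow_zero] at hyk
          exact hQp.ne_top ((Ideal.eq_top_iff_one _).mpr hyk)
        · omega
      have he0 : e (Sum.inr 0) ∈ Q := by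
        have h1 := hD (Sum.inr (Sum.inr false))
        have e0 : pderiv (Sum.inr (Sum.inr false)) (cv O σ * ct O σ - emb y) = cv O σ := by
          rw [map_sub, Derivation.leibniz, dt_cv, dt_ct, pderiv_inr_emb]
          simp
        have e1 : pderiv (Sum.inr (Sum.inr false)) (cw O j₀ - 1) = 0 := by
          rw [map_sub, db_cw, pderiv_one, sub_zero]
        have e2 : ∀ j, pderiv (Sum.inr (Sum.inr false))
            (emb (x j) - emb y ^ (k' + 1) * cv O σ * cw O j) = 0 := by
          intro j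
          rw [hdx, Derivation.leibniz, dt_cv, db_cw]
          simp
        simp only [e0, e1, e2, mul_zero, add_zero, Finset.sum_const_zero, zero_add] at h1
        have h2 := (Submodule.add_mem_iff_left Q (Q.mul_mem_right _ he2)).mp h1
        exact (hQp.mem_or_mem h2).resolve_right hcv
      obtain ⟨-, h2⟩ := hfin' (- (emb y ^ k' * cv O σ * W) - e (Sum.inr 0))
        (e (Sum.inr 0) * (cv O σ * ct O σ)) (by
          rw [← mul_assoc]
          exact hsq (Q.mul_mem_right _ he0) ht) (by ring)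
      exact ⟨he0, h2⟩
  intro i
  rcases i with j | i
  · exact hall.2 j
  · fin_cases i
    · exact hall.1
    · exact he1
    · exact he2

/-- As `isRegularLocalRing_of_double` of DNF/ChartD.lean; uses `brel_indep`. Modulo the
other relations `(y ^ k * cv) ^ 2 * bstrict c b a = s * F`. -/
theorem regB {D : Type} [CommRing D] [IsDomain D] [IsLocalRing D]
    {φ : MvPolynomial σ O →+* D} {F : MvPolynomial σ O} {𝔮 : Ideal (MvPolynomial σ O)}
    (h : PointHyp φ ϖ F 𝔮) {x : σ → MvPolynomial σ O} {y s : MvPolynomial σ O} {k : ℕ}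
    {c : σ → σ → MvPolynomial σ O} {b : σ → MvPolynomial σ O} {a : MvPolynomial σ O}
    (hF : SplitData F 𝔮 (k + 1) x y s c b a) {j₀ : σ} {v t : D} {w : σ → D}
    (hx0 : φ (x j₀) ≠ 0) (hv : φ y ^ k * v = φ (x j₀)) (ht : v * t = φ y)
    (htm : t ∈ maximalIdeal D) (hw : ∀ j, φ (x j₀) * w j = φ (x j))
    (hgen : ∀ R' : Subring D, Dom R' → locIn φ ≤ R' → v ∈ R' → t ∈ R' → (∀ j, w j ∈ R') →
      R' = ⊤) : IsRegularLocalRing D := by
  let δ : MvPolynomial (CVar σ) O →+* D := eval₂Hom (φ.comp C)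
    (Sum.elim (fun j => φ (X j)) (Sum.elim w fun b => if b then v else t))
  have hδC : ∀ m : O, δ (C m) = φ (C m) := fun m => by
    simp only [δ, coe_eval₂Hom, eval₂_C]
    rfl
  have hδemb : ∀ q, δ (emb q) = φ q := by
    intro q
    have : (δ.comp (emb : MvPolynomial σ O →ₐ[O] _).toRingHom) = φ := by
      apply MvPolynomial.ringHom_ext
      · intro r
        change δ (emb (C r)) = φ (C r)
        rw [emb, rename_C, hδC]
      · intro i
        change δ (emb (X i)) = φ (X i)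
        rw [emb, rename_X]
        simp only [δ, coe_eval₂Hom, eval₂_X, Sum.elim_inl]
    exact congrArg (fun f : MvPolynomial σ O →+* D => f q) this
  have hδw : ∀ l, δ (cw O l) = w l := fun l => by
    simp only [δ, cw, coe_eval₂Hom, eval₂_X, Sum.elim_inl, Sum.elim_inr]
  have hδv : δ (cv O σ) = v := by
    simp [δ, cv]
  have hδt : δ (ct O σ) = t := by
    simp [δ, ct]
  have hyk : φ y ^ k ≠ 0 := by
    intro h0
    rw [h0, zero_mul] at hv
    exact hx0 hv.symm
  have hw0 : w j₀ = 1 := by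
    apply mul_left_cancel₀ hx0
    rw [hw, mul_one]
  have hpre : b5_pre x y k j₀ ≤ RingHom.ker δ := by
    rw [b5_pre, Ideal.span_le]
    rintro p (⟨l, rfl⟩ | hx)
    · change δ _ = 0
      rw [map_sub, map_mul, map_mul, map_pow, hδemb, hδemb, hδv, hδw, hv, hw, sub_self]
    · rcases hx with rfl | hx
      · change δ _ = 0
        rw [map_sub, map_mul, hδv, hδt, hδemb, ht, sub_self]
      · rw [Set.mem_singleton_iff] at hx
        rw [hx]
        change δ _ = 0
        rw [map_sub, map_one, hδw, hw0, sub_self]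
  have hid := b5_strict (j₀ := j₀) hF.eq
  have hδF : δ (bstrict c b a) = 0 := by
    have h1 : δ _ = 0 := hpre hid
    rw [map_sub, map_mul, map_mul, hδemb F, h.zero, mul_zero, sub_zero, map_pow, hδemb] at h1
    exact (mul_eq_zero.mp h1).resolve_left (pow_ne_zero _ hx0)
  have hrel : ∀ i, δ (brel x y k j₀ (bstrict c b a) i) = 0 := by
    rintro (l | i)
    · exact hpre (Ideal.subset_span (Or.inl ⟨l, rfl⟩))
    · fin_cases i
      · exact hpre (Ideal.subset_span (Or.inr (Or.inl rfl)))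
      · exact hpre (Ideal.subset_span (Or.inr (Or.inr rfl)))
      · exact hδF
  have hs : IsUnit (φ s) := by
    have h1 := hF.hs
    rw [h.eq, Ideal.mem_comap, IsLocalRing.mem_maximalIdeal, mem_nonunits_iff, not_not] at h1
    exact h1
  let E := Fintype.equivFin (σ ⊕ Fin 3)
  have hrange : Set.range (fun i => brel x y k j₀ (bstrict c b a) (E.symm i)) =
      Set.range (brel x y k j₀ (bstrict c b a)) := by
    ext p
    constructor
    · rintro ⟨i, rfl⟩
      exact ⟨E.symm i, rfl⟩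
    · rintro ⟨i, rfl⟩
      exact ⟨E i, by simp⟩
  have hunit : ∀ p, p ∉ Ideal.comap δ (maximalIdeal D) ↔ IsUnit (δ p) := by
    intro p
    rw [Ideal.mem_comap, IsLocalRing.mem_maximalIdeal, mem_nonunits_iff, not_not]
  refine isRegularLocalRing_of_chart δ (fun i => brel x y k j₀ (bstrict c b a) (E.symm i))
    (fun i => hrel _) ?_ ?_ ?_
  · intro p hp e he i
    have hQ : (Ideal.comap δ (maximalIdeal D)).IsPrime := Ideal.IsPrime.comap δ
    have h1 := brel_indep hϖ hfin h.max h.unif hF.par hF.nd (k := k) (j₀ := j₀) (b := b) (a := a)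
      hQ (fun q => by rw [Ideal.mem_comap, hδemb, h.eq, Ideal.mem_comap])
      (fun i => by rw [Ideal.mem_comap, hrel]; exact Ideal.zero_mem _)
      (by rw [Ideal.mem_comap, hδt]; exact htm) ((hunit _).mpr hp) (e := fun i => e (E i)) (by
        have h2 : ∑ i, e (E i) * brel x y k j₀ (bstrict c b a) i =
            ∑ i, e i * brel x y k j₀ (bstrict c b a) (E.symm i) := by
          rw [← Equiv.sum_comp E]
          simp
        rw [h2]
        exact he) (E.symm i)
    simpa using h1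
  · intro z
    have h1 : locIn δ = ⊤ := by
      refine hgen (locIn δ) (dom_locIn δ) ?_ ?_ ?_ ?_
      · refine locIn_le (dom_locIn δ) fun g => ?_
        rw [← hδemb]
        exact map_mem_locIn δ _
      · rw [← hδv]; exact map_mem_locIn δ _
      · rw [← hδt]; exact map_mem_locIn δ _
      · intro l
        rw [← hδw]; exact map_mem_locIn δ _
    have h2 : z ∈ locIn δ := by rw [h1]; exact Subring.mem_top z
    obtain ⟨p, q, h3, h4⟩ := h2
    exact ⟨p, q, h3, h4⟩
  · intro g hg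
    rw [hrange]
    obtain ⟨N, g₀, hg₀⟩ := b5_clear (x := x) (y := y) (k := k) (j₀ := j₀) g
    have hφg₀ : φ g₀ = 0 := by
      have h1 : δ _ = 0 := hpre hg₀
      rw [map_sub, map_mul, hg, mul_zero, zero_sub, neg_eq_zero, hδemb] at h1
      exact h1
    obtain ⟨m, hm, q, hq⟩ := h.ker g₀ hφg₀
    refine ⟨C m * emb s * (emb y ^ k * emb (x j₀)) ^ N, ?_, ?_⟩
    · rw [map_mul, map_mul, map_pow, map_mul, map_pow, hδC, hδemb, hδemb, hδemb]
      exact mul_ne_zero (mul_ne_zero (h.char m hm) hs.ne_zero)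
        (pow_ne_zero _ (mul_ne_zero hyk hx0))
    · have h1 : emb (C m * g₀) = emb F * emb q := by
        rw [hq, map_mul]
      have h2 : (emb (C m) : MvPolynomial (CVar σ) O) = C m := by rw [emb, rename_C]
      rw [map_mul, h2] at h1
      have h3 : C m * emb s * (emb y ^ k * emb (x j₀)) ^ N * g =
          C m * emb s * ((emb y ^ k * emb (x j₀)) ^ N * g - emb g₀) -
          emb q * (emb (x j₀) ^ 2 * bstrict c b a - emb s * emb F) +
          emb q * emb (x j₀) ^ 2 * bstrict c b a := by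
        linear_combination (emb s) * h1
      rw [h3]
      refine Ideal.add_mem _ (Ideal.sub_mem _ (Ideal.mul_mem_left _ _ (b5_pre_le _ hg₀))
        (Ideal.mul_mem_left _ _ (b5_pre_le _ hid))) (Ideal.mul_mem_left _ _
        (Ideal.subset_span ⟨Sum.inr 2, rfl⟩))


end Pool.Agent.Lib.MP_6a3dac_ag.Maj
end
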