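import Pool.Agent.Lib.MP_6a3dac_ag.Mg.G002
import Pool.Agent.Lib.MP_6a3dac_ag.Mg.G031
import Pool.Agent.Lib.MP_6a3dac_ag.Mg.G032
import Pool.Agent.Lib.MP_6a3dac_ag.Maj.ModelO
import Pool.Agent.Lib.MP_6a3dac_ag.Mg.G033

section

/-!
# Resolution of the double points of corank at most one
-/

set_option autoImplicit false

namespace Pool.Agent.Lib.MP_6a3dac_ag.Maj

open MvPolynomial IsLocalRing
open Pool.Agent.Lib.MP_6a3dac_ag.DNF

section Stalk

variable {A : Type} [CommRing A] {𝔮 : Ideal A}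

/-- The elements which lie locally at `𝔮` in `J`. -/
def stalkI (h𝔮 : 𝔮.IsPrime) (J : Ideal A) : Ideal A where
  carrier := {z | ∃ s, s ∉ 𝔮 ∧ s * z ∈ J}
  add_mem' := by
    rintro z z' ⟨s, hs, hz⟩ ⟨s', hs', hz'⟩
    refine ⟨s * s', h𝔮.mul_notMem hs hs', ?_⟩
    have h1 : s * s' * (z + z') = s' * (s * z) + s * (s' * z') := by ring
    rw [h1]
    exact J.add_mem (J.mul_mem_left _ hz) (J.mul_mem_left _ hz')
  zero_mem' := ⟨1, fun h => h𝔮.ne_top ((Ideal.eq_top_iff_one _).mpr h), by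
    rw [mul_zero]; exact J.zero_mem⟩
  smul_mem' := by
    rintro c z ⟨s, hs, hz⟩
    refine ⟨s, hs, ?_⟩
    rw [smul_eq_mul, mul_left_comm]
    exact J.mul_mem_left _ hz

theorem mem_stalkI {h𝔮 : 𝔮.IsPrime} {J : Ideal A} {z : A} :
    z ∈ stalkI h𝔮 J ↔ ∃ s, s ∉ 𝔮 ∧ s * z ∈ J := Iff.rfl

theorem le_stalkI (h𝔮 : 𝔮.IsPrime) (J : Ideal A) : J ≤ stalkI h𝔮 J := fun z hz =>
  ⟨1, fun h => h𝔮.ne_top ((Ideal.eq_top_iff_one _).mpr h), by rwa [one_mul]⟩

end Stalk

section Par

variable {O : Type} [CommRing O] [IsNoetherianRing O] {σ : Type} [Fintype σ]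
  {𝔮 : Ideal (MvPolynomial σ O)} {x : σ → MvPolynomial σ O} {y : MvPolynomial σ O}

/-- The ideal `(x, y ^ j)`. -/
noncomputable def xyI (x : σ → MvPolynomial σ O) (y : MvPolynomial σ O) (j : ℕ) : Ideal (MvPolynomial σ O) :=
  Ideal.span (insert (y ^ j) (Set.range x))

omit [IsNoetherianRing O] [Fintype σ] in
theorem span_pow_le (j : ℕ) :
    Ideal.span (Set.range fun o : Option σ => o.elim y x) ^ j ≤ xyI x y j := by
  induction j with
  | zero =>
    rw [pow_zero, xyI]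
    intro z _
    have h1 : (1 : MvPolynomial σ O) ∈ Ideal.span (insert (y ^ 0) (Set.range x)) :=
      Ideal.subset_span (Or.inl (pow_zero y).symm)
    rw [(Ideal.eq_top_iff_one _).mpr h1]
    exact Submodule.mem_top
  | succ j ih =>
    rw [pow_succ]
    refine (Ideal.mul_mono_left ih).trans ?_
    rw [xyI, Ideal.span_mul_span', Ideal.span_le]
    rintro _ ⟨a, ha, _, ⟨o, rfl⟩, rfl⟩
    rw [SetLike.mem_coe, xyI]
    rcases o with _ | k
    · rcases ha with rfl | ⟨l, rfl⟩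
      · refine Ideal.subset_span (Or.inl ?_)
        exact (pow_succ y j).symm
      · exact Ideal.mul_mem_right _ _ (Ideal.subset_span (Or.inr ⟨l, rfl⟩))
    · exact Ideal.mul_mem_left _ _ (Ideal.subset_span (Or.inr ⟨k, rfl⟩))

theorem pow_le_stalkI (h𝔮 : 𝔮.IsPrime) (hpar : Par 𝔮 fun o => o.elim y x) (j : ℕ) :
    𝔮 ^ j ≤ stalkI h𝔮 (xyI x y j) := by
  obtain ⟨s, hs, hs2⟩ := l1_nak h𝔮.ne_top hpar
  intro z hz
  refine ⟨s ^ j, fun h => hs (h𝔮.mem_of_pow_mem _ h), span_pow_le j ?_⟩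
  have h1 : Ideal.span {s} * 𝔮 ≤ Ideal.span (Set.range fun o : Option σ => o.elim y x) := by
    rw [Ideal.span_singleton_mul_le_iff]
    exact hs2
  have h2 : (Ideal.span {s} * 𝔮) ^ j ≤ _ := Ideal.pow_right_mono h1 j
  apply h2
  rw [mul_pow, Ideal.span_singleton_pow]
  exact Ideal.mul_mem_mul (Ideal.mem_span_singleton_self _) hz

end Par

section Main

variable {O : Type} [CommRing O] [IsDomain O] [IsDiscreteValuationRing O]
    {σ : Type} [Fintype σ] [DecidableEq σ] {ϖ : O} (hϖ : Irreducible ϖ)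
    (hfin : Finite (O ⧸ Ideal.span {ϖ})) {F : MvPolynomial σ O} {𝔮 : Ideal (MvPolynomial σ O)}
include hϖ hfin

omit [DecidableEq σ] [Fintype σ] hfin in
theorem prime_C_uniformizer : Prime (C ϖ : MvPolynomial σ O) :=
  (MvPolynomial.prime_C_iff σ).mpr hϖ.prime

omit [DecidableEq σ] [Fintype σ] hfin in
/-- The equation is not divisible by the uniformizer. -/
theorem not_dvd_of_finSing {D : Type} [CommRing D] [IsDomain D] [IsLocalRing D]
    {φ : MvPolynomial σ O →+* D} (h : PointHyp φ ϖ F 𝔮) (hJ : FinSing ϖ F)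
    (hsm : ∃ r : ℕ, C ϖ ^ r ∈ Ideal.span (insert F (Set.range fun l => pderiv l F))) :
    ¬ (C ϖ : MvPolynomial σ O) ∣ F := by
  classical
  rintro ⟨F', hF'⟩
  rcases isEmpty_or_nonempty σ with hσ | hσ
  · -- no variables
    obtain ⟨m, hm⟩ : ∃ m : O, F = C m := ⟨_, MvPolynomial.eq_C_of_isEmpty F⟩
    by_cases hm0 : m = 0
    · obtain ⟨r, hr⟩ := hsm
      rw [hm, hm0, C_0, Set.range_eq_empty, insert_empty_eq, Ideal.mem_span_singleton,
        zero_dvd_iff] at hr
      exact (prime_C_uniformizer hϖ).ne_zero (eq_zero_of_pow_eq_zero hr)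
    · exact h.char m hm0 (by rw [← hm]; exact h.zero)
  · have h1 : Ideal.span (insert (C ϖ) (insert F (Set.range fun l => pderiv l F))) ≤
        Ideal.span {(C ϖ : MvPolynomial σ O)} := by
      rw [Ideal.span_le]
      rintro z (rfl | rfl | ⟨l, rfl⟩)
      · exact Ideal.mem_span_singleton_self _
      · rw [SetLike.mem_coe, Ideal.mem_span_singleton]
        exact ⟨F', hF'⟩
      · rw [SetLike.mem_coe, Ideal.mem_span_singleton]
        change _ ∣ pderiv l F
        rw [hF', Derivation.leibniz, pderiv_C, smul_zero, add_zero, smul_eq_mul]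
        exact dvd_mul_right _ _
    have hJ' : Finite (MvPolynomial σ O ⧸
      Ideal.span (insert (C ϖ) (insert F (Set.range fun l => pderiv l F)))) := hJ
    have h2 : Finite (MvPolynomial σ O ⧸ Ideal.span {(C ϖ : MvPolynomial σ O)}) :=
      Finite.of_surjective _ (Ideal.Quotient.factor_surjective h1)
    obtain ⟨l⟩ := hσ
    -- the powers of a variable are different modulo the uniformizer
    have h3 : Function.Injective fun k : ℕ => (Ideal.Quotient.mk
        (Ideal.span {(C ϖ : MvPolynomial σ O)}) (X l ^ k)) := by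
      intro k k' hkk'
      by_contra hne
      change Ideal.Quotient.mk _ _ = Ideal.Quotient.mk _ _ at hkk'
      rw [Ideal.Quotient.eq, Ideal.mem_span_singleton, MvPolynomial.C_dvd_iff_dvd_coeff] at hkk'
      have h4 := hkk' (Finsupp.single l k)
      rw [coeff_sub, coeff_X_pow, coeff_X_pow, if_pos rfl, if_neg, sub_zero] at h4
      · exact hϖ.not_isUnit (isUnit_of_dvd_one h4)
      · intro h5
        exact hne ((Finsupp.single_injective l h5).symm)
    exact not_injective_infinite_finite _ h3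

/-- The last parameter does not vanish on the hypersurface. -/
theorem y_ne_zero {D : Type} [CommRing D] [IsDomain D] [IsLocalRing D]
    {φ : MvPolynomial σ O →+* D} (h : PointHyp φ ϖ F 𝔮) (hF2 : F ∈ 𝔮 ^ 2) (hJ : FinSing ϖ F)
    (hsm : ∃ r : ℕ, C ϖ ^ r ∈ Ideal.span (insert F (Set.range fun l => pderiv l F)))
    {x : σ → MvPolynomial σ O} {y : MvPolynomial σ O} (hpar : Par 𝔮 fun o => o.elim y x) :
    φ y ≠ 0 := by
  intro h0
  have hnd := not_dvd_of_finSing hϖ h hJ hsm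
  obtain ⟨m, hm, q, hq⟩ := h.ker y h0
  have hy2 : y ∉ 𝔮 ^ 2 := by
    intro hy
    have h1 := par_indep_self hϖ hfin h.max h.unif hpar (s := 1)
      (fun h2 => h.max.ne_top ((Ideal.eq_top_iff_one _).mpr h2))
      (c := fun o => o.elim 1 fun _ => 0) (by
        rw [one_mul, Fintype.sum_option]
        simp only [Option.elim_none, Option.elim_some, one_mul, zero_mul, Finset.sum_const_zero,
          add_zero]
        exact hy) none
    exact h.max.ne_top ((Ideal.eq_top_iff_one _).mpr h1)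
  apply hy2
  obtain ⟨a, ha⟩ := IsDiscreteValuationRing.associated_pow_irreducible hm hϖ
  obtain ⟨u, hu⟩ := ha
  have key : ∀ (a : ℕ) (q : MvPolynomial σ O), C ϖ ^ a * y = F * q → F ∣ y := by
    intro a
    induction a with
    | zero => intro q hq; exact ⟨q, by rw [← hq, pow_zero, one_mul]⟩
    | succ a ih =>
      intro q hq
      have hp := prime_C_uniformizer (σ := σ) hϖ
      have h1 : (C ϖ : MvPolynomial σ O) ∣ F * q := by
        rw [← hq, pow_succ, mul_right_comm]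
        exact dvd_mul_left _ _
      obtain ⟨q', hq'⟩ := (hp.dvd_or_dvd h1).resolve_left hnd
      refine ih q' (mul_left_cancel₀ hp.ne_zero ?_)
      rw [← mul_assoc, ← pow_succ', hq, hq']
      ring
  have h2 : F ∣ y := by
    refine key a (q * C (u : O)) ?_
    have h3 : (C ϖ : MvPolynomial σ O) ^ a = C m * C (u : O) := by
      rw [← C_pow, ← C_mul, hu]
    rw [h3, mul_right_comm, hq]
    ring
  obtain ⟨q', hq'⟩ := h2
  rw [hq']
  exact Ideal.mul_mem_right _ _ hF2

/-- The blow-up of the product of the ideals `(x, y ^ j)`, `1 ≤ j ≤ m`, is regular. -/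
theorem goodCentre_of_type (h𝔮p : 𝔮.IsPrime) (hF2 : F ∈ 𝔮 ^ 2) (hJ : FinSing ϖ F)
    (hsm : ∃ r : ℕ, C ϖ ^ r ∈ Ideal.span (insert F (Set.range fun l => pderiv l F)))
    {m : ℕ} (hm : 1 ≤ m) {x : σ → MvPolynomial σ O} {y : MvPolynomial σ O}
    (hT : TypeI F 𝔮 m x y ∨ TypeII F 𝔮 m x y) {r : ℕ} (hr : m ≤ r) :
    GoodCentre ϖ F 𝔮 r fun j => if j ≤ m then stalkI h𝔮p (xyI x y j) else ⊤ := by
  classical
  intro D _ _ _ φ b h
  have hP : PointHyp φ ϖ F 𝔮 := ⟨h.zero, h.ker, h.char, h.eq, h.max, h.unif⟩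
  have hpar : Par 𝔮 fun o => o.elim y x := by
    rcases hT with ⟨s, c, b', a, h1, -⟩ | ⟨s, c, b', u, h1, -⟩
    · exact h1.par
    · exact h1.par
  have hy0 := y_ne_zero hϖ hfin hP hF2 hJ hsm hpar
  have hun : ∀ {z}, z ∉ 𝔮 ↔ IsUnit (φ z) := by
    intro z
    rw [h.eq, Ideal.mem_comap, IsLocalRing.mem_maximalIdeal, mem_nonunits_iff, not_not]
  obtain ⟨Z, hZ⟩ : ∃ Z : Finset D, Z = Finset.univ.image fun j => φ (x j) := ⟨_, rfl⟩
  have hZmem : ∀ z, z ∈ Z ↔ ∃ j, φ (x j) = z := by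
    intro z
    rw [hZ]
    simp
  have hloc : ∀ z, φ z ∈ locIn φ := map_mem_locIn φ
  -- the inverse of a unit
  have hinv : ∀ s, s ∉ 𝔮 → ∃ s' ∈ locIn φ, φ s * s' = 1 := by
    intro s hs
    obtain ⟨s', hs'⟩ := (hun.mp hs).exists_right_inv
    exact ⟨s', dom_locIn φ _ (hloc s) _ hs', hs'⟩
  -- elements of the ideals
  have hxy : ∀ (j : ℕ) (z : MvPolynomial σ O), z ∈ xyI x y j →
      InJ (locIn φ) (φ y) Z j (φ z) := by
    intro j z hz
    rw [xyI] at hz
    induction hz using Submodule.span_induction with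
    | mem z hz =>
      rcases hz with rfl | ⟨l, rfl⟩
      · rw [map_pow]
        exact inJ_pow _ _ _ _
      · exact inJ_of_mem _ _ _ ((hZmem _).mpr ⟨l, rfl⟩)
    | zero =>
      rw [map_zero]
      exact ⟨0, Subring.zero_mem _, fun _ => 0, fun _ _ => Subring.zero_mem _, by simp⟩
    | add a b _ _ ha hb =>
      rw [map_add]
      exact ha.add hb
    | smul c z _ hz =>
      rw [smul_eq_mul, map_mul]
      exact hz.mono_subset _ (hloc c)
  have hst : ∀ (j : ℕ) (z : MvPolynomial σ O), z ∈ stalkI h𝔮p (xyI x y j) →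
      InJ (locIn φ) (φ y) Z j (φ z) := by
    rintro j z ⟨s, hs, hz⟩
    obtain ⟨s', hs', hss'⟩ := hinv s hs
    have h1 := (hxy j _ hz).mono_subset s' hs'
    have h2 : s' * φ (s * z) = φ z := by
      rw [map_mul, ← mul_assoc, mul_comm s', hss', one_mul]
    rwa [h2] at h1
  have hIle : ∀ j, j ≤ m → (if j ≤ m then stalkI h𝔮p (xyI x y j) else ⊤) =
      stalkI h𝔮p (xyI x y j) := fun j hj => if_pos hj
  have hyI : ∀ j, y ^ j ∈ stalkI h𝔮p (xyI x y j) := fun j =>
    le_stalkI h𝔮p _ (Ideal.subset_span (Or.inl rfl))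
  have hxI : ∀ j l, x l ∈ stalkI h𝔮p (xyI x y j) := fun j l =>
    le_stalkI h𝔮p _ (Ideal.subset_span (Or.inr ⟨l, rfl⟩))
  have hb : ∀ j, 1 ≤ j → j ≤ m → b j ≠ 0 ∧ InJ (locIn φ) (φ y) Z j (b j) ∧ b j ∣ φ y ^ j ∧
      ∀ z ∈ Z, b j ∣ z := by
    intro j hj1 hj2
    refine ⟨h.ne j hj1 (hj2.trans hr), ?_, ?_, ?_⟩
    · obtain ⟨s, z, hs, hz, hbz⟩ := h.mem j hj1 (hj2.trans hr)
      rw [hIle j hj2] at hz
      obtain ⟨s', hs', hss'⟩ := hinv s hs
      have h1 := (hst j z hz).mono_subset s' hs'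
      have h2 : s' * φ z = b j := by
        rw [← hbz, mul_left_comm, mul_comm s', hss', mul_one]
      rwa [h2] at h1
    · rw [← map_pow]
      exact h.dvd j hj1 (hj2.trans hr) _ (by rw [hIle j hj2]; exact hyI j)
    · intro z hz
      obtain ⟨l, rfl⟩ := (hZmem z).mp hz
      exact h.dvd j hj1 (hj2.trans hr) _ (by rw [hIle j hj2]; exact hxI j l)
  have hgen : ∀ R' : Subring D, Dom R' → locIn φ ≤ R' →
      (∀ j, 1 ≤ j → j ≤ m → ∀ z, InJ (locIn φ) (φ y) Z j z → ∀ w, b j * w = z → w ∈ R') →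
        R' = ⊤ := by
    intro R' hR' hle hR
    refine h.gen R' hR' hle ?_
    intro j hj1 hj2 z hz w hw
    by_cases hjm : j ≤ m
    · rw [if_pos hjm] at hz
      exact hR j hj1 hjm _ (hst j z hz) w hw
    · -- the ideal is locally the unit ideal
      have h1 : b j ∣ 1 := by
        have := h.dvd j hj1 hj2 1 (by rw [if_neg hjm]; exact Submodule.mem_top)
        rwa [map_one] at this
      obtain ⟨t, ht⟩ := h1
      obtain ⟨s, z', hs, -, hbz⟩ := h.mem j hj1 hj2
      obtain ⟨s', hs', hss'⟩ := hinv s hs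
      have h2 : b j ∈ locIn φ := by
        have h3 : b j = φ z' * s' := by
          rw [← hbz, mul_assoc, hss', mul_one]
        rw [h3]
        exact (locIn φ).mul_mem (hloc _) hs'
      have h4 : t ∈ locIn φ := dom_locIn φ _ h2 _ ht.symm
      have h5 : w = t * φ z := by
        rw [← hw, ← mul_assoc, mul_comm t, ← ht, one_mul]
      rw [h5]
      exact hle ((locIn φ).mul_mem h4 (hloc _))
  rcases chart_cases2 (hloc y) hy0 b hb hgen with ⟨w, hw, hg⟩ |
    ⟨k, hk, u, huZ, v, t, w, htu, hv, ht, hw, hg⟩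
  · have hw' : ∀ j, φ y ^ m * w (φ (x j)) = φ (x j) := fun j => hw _ ((hZmem _).mpr ⟨j, rfl⟩)
    have hg' : ∀ R' : Subring D, Dom R' → locIn φ ≤ R' → (∀ j, w (φ (x j)) ∈ R') → R' = ⊤ := by
      intro R' h1 h2 h3
      refine hg R' h1 h2 ?_
      intro z hz
      obtain ⟨l, rfl⟩ := (hZmem z).mp hz
      exact h3 l
    rcases hT with hT | hT
    · exact regA_typeI hϖ hfin hP hm hy0 hw' hg' hT
    · exact regA_typeII hϖ hfin hP hm hy0 hw' hg' hT
  · obtain ⟨j₀, rfl⟩ := (hZmem u).mp huZ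
    have hv0 : v ≠ 0 := by
      rintro rfl
      rw [zero_mul] at ht
      exact hy0 ht.symm
    have hx0 : φ (x j₀) ≠ 0 := by
      rw [← hv]
      exact mul_ne_zero (pow_ne_zero _ hy0) hv0
    obtain ⟨s, c, b', a, hS⟩ : ∃ s c b' a, SplitData F 𝔮 (k + 1) x y s c b' a := by
      rcases hT with ⟨s, c, b', a, h1, -⟩ | ⟨s, c, b', a, h1, -⟩
      · refine ⟨s, c, fun j => y ^ (m - (k + 1)) * b' j, a * y ^ (2 * (m - (k + 1))), h1.par, h1.hs,
          ?_, h1.nd⟩
        rw [h1.eq]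
        have e1 : y ^ m = y ^ (k + 1) * y ^ (m - (k + 1)) := by
          rw [← pow_add]; congr 1; omega
        have e2 : y ^ (2 * m) = y ^ (2 * (m - (k + 1))) * y ^ (2 * (k + 1)) := by
          rw [← pow_add]; congr 1; omega
        rw [e1, e2]
        simp only [Finset.mul_sum]
        congr 1
        · congr 1
          refine Finset.sum_congr rfl fun j _ => ?_
          ring
        · ring
      · refine ⟨s, c, fun j => y ^ (m - k) * b' j, a * y ^ (2 * m + 1 - 2 * (k + 1)), h1.par, h1.hs,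
          ?_, h1.nd⟩
        rw [h1.eq]
        have e1 : y ^ (m + 1) = y ^ (k + 1) * y ^ (m - k) := by
          rw [← pow_add]; congr 1; omega
        have e2 : y ^ (2 * m + 1) = y ^ (2 * m + 1 - 2 * (k + 1)) * y ^ (2 * (k + 1)) := by
          rw [← pow_add]; congr 1; omega
        rw [e1, e2]
        simp only [Finset.mul_sum]
        congr 1
        · congr 1
          refine Finset.sum_congr rfl fun j _ => ?_
          ring
        · ring
    refine regB hϖ hfin hP hS hx0 hv ht ((IsLocalRing.mem_maximalIdeal _).mpr htu)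
      (w := fun j => w (φ (x j))) (fun j => hw _ ((hZmem _).mpr ⟨j, rfl⟩)) ?_
    intro R' h1 h2 h3 h4 h5
    refine hg R' h1 h2 h3 h4 ?_
    intro z hz
    obtain ⟨l, rfl⟩ := (hZmem z).mp hz
    exact h5 l

/-- The local theorem. -/
theorem exists_goodCentre (hmax : 𝔮.IsMaximal) (h𝔮 : C ϖ ∈ 𝔮) (hF : TcAt F 𝔮)
    (hF2 : F ∈ 𝔮 ^ 2) (hJ : FinSing ϖ F)
    (hsm : ∃ r : ℕ, C ϖ ^ r ∈ Ideal.span (insert F (Set.range fun l => pderiv l F))) :
    ∃ m : ℕ, ∀ r, m ≤ r → ∃ I : ℕ → Ideal (MvPolynomial σ O), (∀ j, 1 ≤ j → 𝔮 ^ j ≤ I j) ∧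
      GoodCentre ϖ F 𝔮 r I := by
  obtain ⟨g, c, hg, hFg, hnd | hlk⟩ := hF
  · -- a nondegenerate tangent cone
    refine ⟨1, fun r hr => ⟨fun j => if j ≤ 1 then 𝔮 else ⊤, ?_, ?_⟩⟩
    · intro j hj
      dsimp only
      split_ifs with h1
      · have h2 : j = 1 := by omega
        rw [h2, pow_one]
      · exact le_top
    · intro D _ _ _ φ b h
      have hun : ∀ {z}, z ∉ 𝔮 ↔ IsUnit (φ z) := by
        intro z
        rw [h.eq, Ideal.mem_comap, IsLocalRing.mem_maximalIdeal, mem_nonunits_iff, not_not]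
      have hloc : ∀ z, φ z ∈ locIn φ := map_mem_locIn φ
      have hinv : ∀ s, s ∉ 𝔮 → ∃ s' ∈ locIn φ, φ s * s' = 1 := by
        intro s hs
        obtain ⟨s', hs'⟩ := (hun.mp hs).exists_right_inv
        exact ⟨s', dom_locIn φ _ (hloc s) _ hs', hs'⟩
      obtain ⟨s, z₀, hs, hz₀, hbz⟩ := h.mem 1 le_rfl hr
      rw [if_pos le_rfl] at hz₀
      obtain ⟨s', hs', hss'⟩ := hinv s hs
      have hb1 : b 1 = φ z₀ * s' := by
        rw [← hbz, mul_assoc, hss', mul_one]
      have hB : BlowHyp φ ϖ F 𝔮 (𝔮 : Set (MvPolynomial σ O)) z₀ :=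
        { zero := h.zero
          ker := h.ker
          char := h.char
          eq := h.eq
          max := h.max
          unif := h.unif
          Zmem := fun z hz => hz
          Zgen := fun z hz => ⟨1, fun h1 => h.max.ne_top ((Ideal.eq_top_iff_one _).mpr h1),
            Ideal.mul_mem_left _ _ (Ideal.subset_span hz)⟩
          z₀mem := hz₀
          ne := by
            intro h0
            apply h.ne 1 le_rfl hr
            rw [hb1, h0, zero_mul]
          dvd := by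
            intro z hz
            obtain ⟨t, ht⟩ := h.dvd 1 le_rfl hr z (by rw [if_pos le_rfl]; exact hz)
            exact ⟨s' * t, by rw [ht, hb1]; ring⟩
          gen := by
            intro R' hR' hle hR
            refine h.gen R' hR' hle ?_
            intro j hj1 hj2 z hz w hw
            by_cases hj : j ≤ 1
            · have hj' : j = 1 := by omega
              subst hj'
              rw [if_pos le_rfl] at hz
              have h1 : φ z₀ * (s' * w) = φ z := by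
                rw [← mul_assoc, ← hb1, hw]
              have h2 := hR z hz _ h1
              have h3 : w = φ s * (s' * w) := by
                rw [← mul_assoc, hss', one_mul]
              rw [h3]
              exact R'.mul_mem (hle (hloc s)) h2
            · have h1 : b j ∣ 1 := by
                have := h.dvd j hj1 hj2 1 (by rw [if_neg hj]; exact Submodule.mem_top)
                rwa [map_one] at this
              obtain ⟨t, ht⟩ := h1
              obtain ⟨s₁, z', hs₁, -, hbz'⟩ := h.mem j hj1 hj2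
              obtain ⟨s₁', hs₁', hss₁'⟩ := hinv s₁ hs₁
              have h2 : b j ∈ locIn φ := by
                have h3 : b j = φ z' * s₁' := by
                  rw [← hbz', mul_assoc, hss₁', mul_one]
                rw [h3]
                exact (locIn φ).mul_mem (hloc _) hs₁'
              have h4 : t ∈ locIn φ := dom_locIn φ _ h2 _ ht.symm
              have h5 : w = t * φ z := by
                rw [← hw, ← mul_assoc, mul_comm t, ← ht, one_mul]
              rw [h5]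
              exact hle ((locIn φ).mul_mem h4 (hloc _)) }
      exact hB.reg1 hϖ hfin ⟨g, c, hg, hFg, hnd⟩
  · -- a tangent cone of corank one
    obtain ⟨m, x, y, hm, hT⟩ := exists_type hϖ hfin hmax h𝔮 ⟨g, c, hg, hFg, hlk⟩ hJ hsm
    have hpar : Par 𝔮 fun o => o.elim y x := by
      rcases hT with ⟨s, c, b', a, h1, -⟩ | ⟨s, c, b', u, h1, -⟩
      · exact h1.par
      · exact h1.par
    refine ⟨m, fun r hr => ⟨_, ?_, goodCentre_of_type hϖ hfin hmax.isPrime hF2 hJ hsm hm hT hr⟩⟩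
    intro j hj
    split_ifs with h1
    · exact pow_le_stalkI _ hpar j
    · exact le_top

end Main

end Pool.Agent.Lib.MP_6a3dac_ag.Maj
end

section

/-!
# Regular models of hypersurfaces over a Dedekind domain
-/

set_option autoImplicit false
set_option linter.unusedSectionVars false

namespace Pool.Agent.Lib.MP_6a3dac_ag.Maj

open MvPolynomial IsLocalRing IsDedekindDomain CategoryTheory Limits AlgebraicGeometry
open Pool.Agent.Lib.MP_6a3dac_ag.DNF

section Aux

theorem m5_tcSing_assoc {O : Type} [CommRing O] [IsDomain O] {n : ℕ} {ϖ ϖ' : O}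
    (h : Associated ϖ ϖ') {f : MvPolynomial (Fin (n + 1)) O} (hf : TcSing ϖ f) :
    TcSing ϖ' f := by
  have hC : ∀ i : Fin (n + 1), Associated (C ϖ : MvPolynomial {l : Fin (n + 1) // l ≠ i} O)
      (C ϖ') := fun i => h.map (C : O →+* MvPolynomial {l : Fin (n + 1) // l ≠ i} O)
  intro i
  refine ⟨?_, fun 𝔮 h𝔮 hC𝔮 hs hq => (hf i).2 𝔮 h𝔮 ?_ hs hq⟩
  · have h1 := (hf i).1
    unfold FinSing at h1 ⊢
    rwa [← m2_span_assoc (hC i)]
  · exact (𝔮.mem_iff_of_associated (hC i)).mpr hC𝔮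

theorem m5_finite_sing {O : Type} [CommRing O] {n : ℕ} {ϖ : O}
    {f : MvPolynomial (Fin (n + 1)) O} (hf : TcSing ϖ f) : (m2_sing ϖ f).Finite := by
  have h1 : (⋃ i : Fin (n + 1), (Sigma.mk i) '' {𝔮 : Ideal (MvPolynomial
      {l : Fin (n + 1) // l ≠ i} O) | Ideal.span (insert (C ϖ) (insert (dehom i f)
        (Set.range fun l => pderiv l (dehom i f)))) ≤ 𝔮}).Finite :=
    Set.finite_iUnion fun i => (m2_finite_above _ (hf i).1).image _
  refine h1.subset ?_
  rintro ⟨i, 𝔮⟩ ⟨hmax, hC, -, hsq⟩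
  refine Set.mem_iUnion.mpr ⟨i, 𝔮, ?_, rfl⟩
  change Ideal.span _ ≤ 𝔮
  rw [Ideal.span_le]
  rintro _ (rfl | rfl | ⟨l, rfl⟩)
  · exact hC
  · exact Ideal.pow_le_self two_ne_zero hsq
  · exact m2_deriv (pderiv l) 𝔮 hsq

/-- The good centres at the finitely many singular points of the total space, with a common
exponent. -/
theorem m5_exists_centres {O : Type} [CommRing O] [IsDomain O] [IsDiscreteValuationRing O]
    {n : ℕ} {ϖ : O} (hϖ : Irreducible ϖ) (hfin : Finite (O ⧸ Ideal.span {ϖ}))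
    {f : MvPolynomial (Fin (n + 1)) O} (hf : TcSing ϖ f) {r : ℕ}
    (hr : ∀ i, ∃ (c₀ : MvPolynomial {l : Fin (n + 1) // l ≠ i} O)
      (c : {l : Fin (n + 1) // l ≠ i} → MvPolynomial {l : Fin (n + 1) // l ≠ i} O),
      C ϖ ^ r = c₀ * dehom i f + ∑ l, c l * pderiv l (dehom i f)) :
    ∃ (k : ℕ) (I : ∀ z : (Σ i : Fin (n + 1), Ideal (MvPolynomial {l : Fin (n + 1) // l ≠ i} O)),
      ℕ → Ideal (MvPolynomial {l : Fin (n + 1) // l ≠ z.1} O)), 1 ≤ k ∧
      ∀ z ∈ m2_sing ϖ f, (∀ j, 1 ≤ j → z.2 ^ j ≤ I z j) ∧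
        GoodCentre ϖ (dehom z.1 f) z.2 k (I z) := by
  classical
  have h1 : ∀ z : (Σ i : Fin (n + 1), Ideal (MvPolynomial {l : Fin (n + 1) // l ≠ i} O)),
      ∃ m : ℕ, z ∈ m2_sing ϖ f → ∀ r, m ≤ r →
        ∃ I : ℕ → Ideal (MvPolynomial {l : Fin (n + 1) // l ≠ z.1} O),
          (∀ j, 1 ≤ j → z.2 ^ j ≤ I j) ∧ GoodCentre ϖ (dehom z.1 f) z.2 r I := by
    intro z
    by_cases hz : z ∈ m2_sing ϖ f
    · have hz' := hz
      obtain ⟨hmax, hC, hst, hsq⟩ := hz
      obtain ⟨m, hm⟩ := exists_goodCentre hϖ hfin hmax hC ((hf z.1).2 z.2 hmax hC hst hsq) hsq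
        (hf z.1).1 ⟨r, by
          obtain ⟨c₀, c, hc⟩ := hr z.1
          rw [hc]
          refine Ideal.add_mem _ (Ideal.mul_mem_left _ _
            (Ideal.subset_span (Set.mem_insert _ _))) (Ideal.sum_mem _ fun l _ =>
              Ideal.mul_mem_left _ _ (Ideal.subset_span (Set.mem_insert_of_mem _ ⟨l, rfl⟩)))⟩
      exact ⟨m, fun _ => hm⟩
    · exact ⟨0, fun h => absurd h hz⟩
  choose m hm using h1
  have hS := m5_finite_sing hf
  let k := max 1 (hS.toFinset.sup m)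
  have hk : ∀ z ∈ m2_sing ϖ f, m z ≤ k := fun z hz =>
    (Finset.le_sup (f := m) (hS.mem_toFinset.mpr hz)).trans (le_max_right _ _)
  have h2 : ∀ z : (Σ i : Fin (n + 1), Ideal (MvPolynomial {l : Fin (n + 1) // l ≠ i} O)),
      ∃ I : ℕ → Ideal (MvPolynomial {l : Fin (n + 1) // l ≠ z.1} O),
        z ∈ m2_sing ϖ f → (∀ j, 1 ≤ j → z.2 ^ j ≤ I j) ∧
          GoodCentre ϖ (dehom z.1 f) z.2 k I := by
    intro z
    by_cases hz : z ∈ m2_sing ϖ f
    · obtain ⟨I, hI⟩ := hm z hz k (hk z hz)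
      exact ⟨I, fun _ => hI⟩
    · exact ⟨fun _ => ⊥, fun h => absurd h hz⟩
  choose I hI using h2
  exact ⟨k, I, le_max_left _ _, hI⟩

/-- The hypotheses of `mainP` for the centres. -/
theorem m5_hsing {O : Type} [CommRing O] [IsDomain O] [IsDiscreteValuationRing O] {n : ℕ} {ϖ : O}
    {f : MvPolynomial (Fin (n + 1)) O} (hf : TcSing ϖ f) {k : ℕ}
    {I : ∀ z : (Σ i : Fin (n + 1), Ideal (MvPolynomial {l : Fin (n + 1) // l ≠ i} O)),
      ℕ → Ideal (MvPolynomial {l : Fin (n + 1) // l ≠ z.1} O)}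
    (hI : ∀ z ∈ m2_sing ϖ f, (∀ j, 1 ≤ j → z.2 ^ j ≤ I z j) ∧
        GoodCentre ϖ (dehom z.1 f) z.2 k (I z))
    {G : ℕ → Finset (MvPolynomial (Fin (n + 1)) O)}
    (hG : ∀ j, 1 ≤ j → j ≤ k → ∀ (i : Fin (n + 1))
        (𝔮 : Ideal (MvPolynomial {l : Fin (n + 1) // l ≠ i} O)), 𝔮.IsPrime →
        C ϖ ∈ 𝔮 → (∀ (l : Fin (n + 1)) (hl : l < i), X ⟨l, hl.ne⟩ ∈ 𝔮) →
        ((⟨i, 𝔮⟩ ∈ m2_sing ϖ f ∧ (∀ g ∈ G j, ∃ s, s ∉ 𝔮 ∧ s * dehom i g ∈ I ⟨i, 𝔮⟩ j) ∧
            ∀ z ∈ I ⟨i, 𝔮⟩ j, ∃ s, s ∉ 𝔮 ∧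
              s * z ∈ Ideal.span (insert (C ϖ ^ j) {w | ∃ g ∈ G j, w = dehom i g})) ∨
          (⟨i, 𝔮⟩ ∉ m2_sing ϖ f ∧ ∃ g ∈ G j, dehom i g ∉ 𝔮)))
    {r : ℕ} (hr : ∀ i, ∃ (c₀ : MvPolynomial {l : Fin (n + 1) // l ≠ i} O)
      (c : {l : Fin (n + 1) // l ≠ i} → MvPolynomial {l : Fin (n + 1) // l ≠ i} O),
      C ϖ ^ r = c₀ * dehom i f + ∑ l, c l * pderiv l (dehom i f))
    (i : Fin (n + 1)) (𝔮 : Ideal (MvPolynomial {l : Fin (n + 1) // l ≠ i} O))
    (h𝔮 : 𝔮.IsPrime) (hfq : dehom i f ∈ 𝔮)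
    (hs : ∀ (l : Fin (n + 1)) (hl : l < i), X ⟨l, hl.ne⟩ ∈ 𝔮) :
      ((C ϖ ∉ 𝔮 ∨ ∀ j, 1 ≤ j → j ≤ k → ∃ g ∈ G j, dehom i g ∉ 𝔮) ∧
        ∀ s, s ∉ 𝔮 → s * dehom i f ∉ 𝔮 ^ 2) ∨
      (C ϖ ∈ 𝔮 ∧ 𝔮.IsMaximal ∧ ∃ I : ℕ → Ideal (MvPolynomial {l : Fin (n + 1) // l ≠ i} O),
        (∀ j, 1 ≤ j → j ≤ k → C ϖ ^ j ∈ I j ∧ (∀ g ∈ G j, ∃ s, s ∉ 𝔮 ∧ s * dehom i g ∈ I j) ∧
          ∀ z ∈ I j, ∃ s, s ∉ 𝔮 ∧
            s * z ∈ Ideal.span (insert (C ϖ ^ j) {w | ∃ g ∈ G j, w = dehom i g})) ∧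
        GoodCentre ϖ (dehom i f) 𝔮 k I) := by
  by_cases hC : C ϖ ∈ 𝔮
  · by_cases hz : (⟨i, 𝔮⟩ : Σ i : Fin (n + 1), Ideal (MvPolynomial {l : Fin (n + 1) // l ≠ i} O)) ∈
        m2_sing ϖ f
    · refine Or.inr ⟨hC, hz.1, I ⟨i, 𝔮⟩, fun j hj1 hjk => ?_, (hI _ hz).2⟩
      rcases hG j hj1 hjk i 𝔮 h𝔮 hC hs with ⟨-, h1, h2⟩ | ⟨hn, -⟩
      · exact ⟨(hI _ hz).1 j hj1 (Ideal.pow_mem_pow hC j), h1, h2⟩
      · exact absurd hz hn
    · refine Or.inl ⟨Or.inr fun j hj1 hjk => ?_, fun s hsn hsf => hz ?_⟩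
      · rcases hG j hj1 hjk i 𝔮 h𝔮 hC hs with ⟨hn, -⟩ | ⟨-, hg⟩
        · exact absurd hn hz
        · exact hg
      · have h1 := m2_jac_le (s := s) hfq hsn hsf
        have h2 : Ideal.span (insert (C ϖ) (insert (dehom i f)
            (Set.range fun l => pderiv l (dehom i f)))) ≤ 𝔮 := by
          rw [Ideal.span_le]
          rintro _ (rfl | rfl | ⟨l, rfl⟩)
          · exact hC
          · exact hfq
          · exact h1 l
        have h3 := m2_maximal _ (hf i).1 h𝔮 h2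
        exact ⟨h3, hC, hs, m2_mem_sq h3 hfq hsn hsf⟩
  · refine Or.inl ⟨Or.inl hC, fun s hsn hsf => hC ?_⟩
    obtain ⟨c₀, c, hc⟩ := hr i
    have h0 : ∀ l, pderiv l (dehom i f) ∈ 𝔮 := m2_jac_le (s := s) hfq hsn hsf
    apply h𝔮.mem_of_pow_mem r
    rw [hc]
    exact 𝔮.add_mem (𝔮.mul_mem_left _ hfq)
      (𝔮.sum_mem fun l _ => 𝔮.mul_mem_left _ (h0 l))

end Aux

section

variable {R K A : Type} [CommRing R] [IsDedekindDomain R] [Field K] [Algebra R K]
  [IsFractionRing R K] [CommRing A] [IsDomain A] [Algebra K A] [Algebra R A]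
  [IsScalarTower R K A] {𝒜 : ℕ → Submodule K A} [GradedAlgebra 𝒜] {n : ℕ}
  (π : MvPolynomial (Fin (n + 1)) K →ₐ[K] A) {f : MvPolynomial (Fin (n + 1)) R} {d : ℕ}
  (hdeg : ∀ q e, q.IsHomogeneous e → π q ∈ 𝒜 e) (hf : f.IsHomogeneous d)
  (hzero : π (map (algebraMap R K) f) = 0) (hkerK : ∀ g, π g = 0 → map (algebraMap R K) f ∣ g)
  (hgen : Algebra.adjoin K (Set.range fun k => π (X k)) = ⊤)

include hdeg hf hzero hkerK in
/-- The local order at one prime. -/
theorem m5_local (hd : 2 ≤ d) {m : R} (hm : m ≠ 0) {N : ℕ}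
    (hmN : ∀ i, C m * X i ^ N ∈ Ideal.span (insert f (Set.range fun l => pderiv l f)))
    (P : HeightOneSpectrum R) {ϖ : R} (hϖ : Irreducible (algebraMap R (locRing K P) ϖ))
    (hsing : m ∈ P.asIdeal →
      ((2 : R) ∉ P.asIdeal ∧ ∀ (ϖ : locRing K P), Irreducible ϖ → ∀ i,
        NondegAt ϖ (dehom i (map (algebraMap R (locRing K P)) f))) ∨
      (Finite (R ⧸ P.asIdeal) ∧ ∃ ϖ : locRing K P, Irreducible ϖ ∧
        TcSing ϖ (map (algebraMap R (locRing K P)) f))) :
    ∃ (B : ℕ → Set A) (r : ℕ), (∀ j, (B j).Finite) ∧ (m ∉ P.asIdeal → r = 0) ∧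
      (∀ w ∈ DNF.WSet (fun k => π (X k)) B r ∪
          DNF.W1Set (fun k => π (X k)) (algebraMap R A ϖ) r, ∃ i, 0 < i ∧ w ∈ 𝒜 i) ∧
      RegAt 𝒜 (locSub P.asIdeal (Algebra.adjoin R (DNF.WSet (fun k => π (X k)) B r ∪
        DNF.W1Set (fun k => π (X k)) (algebraMap R A ϖ) r))) := by
  classical
  obtain ⟨rr, u, hu1, hu2, hr0⟩ := exists_exponent P hm hϖ
  have hH : HypData 𝒜 (piS π (locRing K P)) (map (algebraMap R (locRing K P)) f) d :=
    hypData_piS π hdeg hf hzero hkerK (locRing K P)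
  have hoA : oA K A (locRing K P) (algebraMap R (locRing K P) ϖ) = algebraMap R A ϖ :=
    oA_algebraMap (K := K) (O := locRing K P) ϖ
  have hxP : (fun k => piS π (locRing K P) (X k)) = fun k => π (X k) :=
    funext fun k => piS_X π _ k
  let F := FractionRing A
  let ι : A →+* F := algebraMap A F
  have hι : Function.Injective ι := IsFractionRing.injective A F
  -- the case of centres
  by_cases hodp : m ∈ P.asIdeal ∧ Finite (R ⧸ P.asIdeal) ∧ ∃ ϖ : locRing K P, Irreducible ϖ ∧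
        TcSing ϖ (map (algebraMap R (locRing K P)) f)
  · obtain ⟨hmP, hfinR, ϖ', hϖ', hodp⟩ := hodp
    have hodp' : TcSing (algebraMap R (locRing K P) ϖ) (map (algebraMap R (locRing K P)) f) :=
      m5_tcSing_assoc (IsDiscreteValuationRing.associated_of_irreducible _ hϖ' hϖ) hodp
    have hfin : Finite (locRing K P ⧸ Ideal.span {algebraMap R (locRing K P) ϖ}) := by
      have h1 := finite_residue_locRing (K := K) P
      rw [← hϖ.maximalIdeal_eq]
      exact h1
    obtain ⟨k, I, hk, hI⟩ := m5_exists_centres hϖ hfin hodp' (m2_hr hf hmN P hu2)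
    obtain ⟨δ, G, hδ, hG, hcen⟩ := exists_centre2 hϖ _ (m5_finite_sing hodp')
      (fun z hz => ⟨hz.1, hz.2.1, hz.2.2.1⟩) k I (fun z hz => (hI z hz).1)
    have hO := orderHypP P.asIdeal hH (fun c => piS_C π _ c) hδ hG
      (algebraMap R (locRing K P) ϖ) k (R := R)
    rw [hxP, hoA] at hO
    refine ⟨pset (piS π (locRing K P)) δ G (algebraMap R A ϖ), k,
      fun j => finite_pset _ _ _ _ _, fun hmn => absurd hmP hmn, ?_, ?_⟩
    · intro w hw
      rcases hw with hw | ⟨i, rfl⟩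
      · exact ⟨_, Nat.succ_pos _, hO.W_deg hw⟩
      · refine ⟨1, one_pos, ?_⟩
        have := SetLike.mul_mem_graded hO.theta_deg (hO.xdeg i)
        simpa using this
    · intro hS y hy hyh hirr
      apply isRegularLocalRing_of_homLoc 𝒜 ι _ y hι hS
      refine mainP (R := R) (FaithfulSMul.algebraMap_injective _ K) P.asIdeal hH
        (fun c => piS_C π _ c) hδ hG ι hι hϖ hk ?_
        (m5_hsing hodp' hI hcen (m2_hr hf hmN P hu2)) y hy ?_
      · rw [hxP, hoA]
      · by_contra hcon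
        push Not at hcon
        apply hirr
        rw [HomogeneousIdeal.toIdeal_irrelevant_le]
        intro i hi s hs
        exact hcon i hi s hs
  · have hsets : (DNF.WSet (fun k => piS π (locRing K P) (X k)) (bset (piS π (locRing K P))
          (map (algebraMap R (locRing K P)) f) d (oA K A (locRing K P)
            (algebraMap R (locRing K P) ϖ))) rr ∪
          DNF.W1Set (fun k => piS π (locRing K P) (X k)) (oA K A (locRing K P)
            (algebraMap R (locRing K P) ϖ)) rr) =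
        (DNF.WSet (fun k => π (X k)) (bset (piS π R) f d (algebraMap R A ϖ)) rr ∪
          DNF.W1Set (fun k => π (X k)) (algebraMap R A ϖ) rr) := by
      rw [hxP, hoA, bset_piS]
    have hO := hH.orderHyp (R := R) P.asIdeal
      (fun c => piS_C π _ c) hd (algebraMap R (locRing K P) ϖ) rr
    refine ⟨bset (piS π R) f d (algebraMap R A ϖ), rr, fun j => finite_bset _ f d _ j, hr0, ?_, ?_⟩
    · intro w hw
      rw [← hsets] at hw
      rcases hw with hw | ⟨i, rfl⟩
      · exact ⟨_, Nat.succ_pos _, hO.W_deg hw⟩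
      · refine ⟨1, one_pos, ?_⟩
        have := SetLike.mul_mem_graded hO.theta_deg (hO.xdeg i)
        simpa using this
    · intro hS y hy hyh hirr
      apply isRegularLocalRing_of_homLoc 𝒜 ι _ y hι hS
      refine hH.main (R := R) (FaithfulSMul.algebraMap_injective _ K) P.asIdeal
        (fun c => piS_C π _ c) hd ι hι hϖ rr (by rw [hsets]) ?_ (m2_hr hf hmN P hu2) y hy ?_
      · by_cases hp : m ∈ P.asIdeal
        · right
          rcases hsing hp with ⟨h2, hnd⟩ | h2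
          · refine ⟨?_, hnd _ hϖ⟩
            have h3 := IsLocalization.map_units (locRing K P) (⟨2, h2⟩ : P.asIdeal.primeCompl)
            change IsUnit (algebraMap R (locRing K P) 2) at h3
            rwa [map_ofNat] at h3
          · exact absurd ⟨hp, h2.1, h2.2⟩ hodp
        · exact Or.inl (hr0 hp)
      · by_contra hcon
        push Not at hcon
        apply hirr
        rw [HomogeneousIdeal.toIdeal_irrelevant_le]
        intro i hi s hs
        exact hcon i hi s hs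

include hdeg hf hzero hkerK hgen in
/-- As `exists_model_hypO` of ModelO.lean; uses `mainP`, `exists_centre2`,
`exists_goodCentre`; `r` is the maximum of the `m` of the finitely many singular closed points and
of `1`. -/
theorem exists_model_hypP (hRf : ¬ IsField R) (hd : 2 ≤ d) {m : R} (hm : m ≠ 0) {N : ℕ}
    (hmN : ∀ i, C m * X i ^ N ∈ Ideal.span (insert f (Set.range fun l => pderiv l f)))
    (hsing : ∀ P : HeightOneSpectrum R, m ∈ P.asIdeal →
      ((2 : R) ∉ P.asIdeal ∧ ∀ (ϖ : locRing K P), Irreducible ϖ → ∀ i,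
        NondegAt ϖ (dehom i (map (algebraMap R (locRing K P)) f))) ∨
      (Finite (R ⧸ P.asIdeal) ∧ ∃ ϖ : locRing K P, Irreducible ϖ ∧
        TcSing ϖ (map (algebraMap R (locRing K P)) f))) :
    ∃ (Y : Scheme.{0}) (g : Y ⟶ Spec (CommRingCat.of R)),
      IsProper g ∧ Flat g ∧ (∀ y : Y, IsRegularLocalRing (Y.presheaf.stalk y)) ∧
      ∃ e : pullback g (Spec.map (CommRingCat.ofHom (algebraMap R K))) ≅ Proj 𝒜,
        e.hom ≫ projTo K 𝒜 =
          pullback.snd g (Spec.map (CommRingCat.ofHom (algebraMap R K))) := by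
  classical
  choose ϖ hϖ using fun P : HeightOneSpectrum R => exists_unif (K := K) P
  have hϖ0 : ∀ P, ϖ P ≠ 0 := fun P h0 => (hϖ P).ne_zero (by rw [h0, map_zero])
  choose B rr hB hr0 hhom hreg using fun P : HeightOneSpectrum R =>
    m5_local π hdeg hf hzero hkerK hd hm hmN P (hϖ P) (hsing P)
  have hLG : LocalGens (R := R) 𝒜 (fun P => DNF.WSet (fun k => π (X k)) (B P) (rr P) ∪
        DNF.W1Set (fun k => π (X k)) (algebraMap R A (ϖ P)) (rr P))
        (Set.range fun k => π (X k)) :=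
    { finite := fun P => (DNF.finite_WSet (hB P) _).union (DNF.finite_W1Set _)
      finite₀ := Set.finite_range _
      ae := by
        refine (finite_mem_prime hm).subset ?_
        intro P hP
        by_contra hdp
        apply hP
        have h1 : rr P = 0 := hr0 P hdp
        change DNF.WSet (fun k => π (X k)) (B P) (rr P) ∪
          DNF.W1Set (fun k => π (X k)) (algebraMap R A (ϖ P)) (rr P) = _
        rw [h1, DNF.WSet_zero, DNF.W1Set_zero, Set.union_self]
      homog := fun P w hw => hhom P w hw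
      full := fun P a => full_order π hgen (hϖ0 P) (rr P) a
      full₀ := fun a => by
        have := full_order π hgen (B := fun _ => ∅) (one_ne_zero (α := R)) 0 a
        rwa [DNF.WSet_zero, DNF.W1Set_zero, Set.union_self] at this }
  have hnt : Nontrivial A := inferInstance
  exact Pool.Agent.Lib.MP_6a3dac_ag.exists_model 𝒜 hLG hRf fun P => hreg P

end

end Pool.Agent.Lib.MP_6a3dac_ag.Maj
end

section

/-!
# Regular models of hypersurfaces over number fields
-/

set_option autoImplicit false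

namespace Pool.Agent.Lib.MP_6a3dac_ag.Maj

open MvPolynomial IsLocalRing IsDedekindDomain CategoryTheory Limits AlgebraicGeometry NumberField
open Pool.Agent.Lib.MP_6a3dac_ag.DNF

/-- The concrete form of `exists_model_hypP`. -/
theorem m6_exists_model_form {R K : Type} [CommRing R] [IsDedekindDomain R] [Field K] [Algebra R K]
    [IsFractionRing R K] {n d : ℕ} {f : MvPolynomial (Fin (n + 1)) R} (hf : f.IsHomogeneous d)
    (𝔞 : HomIdeal K (n + 1)) (h𝔞 : 𝔞.ideal = Ideal.span {map (algebraMap R K) f})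
    (hRf : ¬ IsField R) (hn : 2 ≤ n) (hd : 2 ≤ d) {m : R} (hm : m ≠ 0)
    {N : ℕ} (hmN : ∀ i, C m * X i ^ N ∈ Ideal.span (insert f (Set.range fun l => pderiv l f)))
    (hsing : ∀ P : HeightOneSpectrum R, m ∈ P.asIdeal →
      ((2 : R) ∉ P.asIdeal ∧ ∀ (ϖ : locRing K P), Irreducible ϖ → ∀ i,
        NondegAt ϖ (dehom i (map (algebraMap R (locRing K P)) f))) ∨
      (Finite (R ⧸ P.asIdeal) ∧ ∃ ϖ : locRing K P, Irreducible ϖ ∧
        TcSing ϖ (map (algebraMap R (locRing K P)) f))) :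
    ∃ (Y : Scheme.{0}) (g : Y ⟶ Spec (CommRingCat.of R)),
      IsProper g ∧ Flat g ∧ (∀ y : Y, IsRegularLocalRing (Y.presheaf.stalk y)) ∧
      ∃ e : pullback g (Spec.map (CommRingCat.ofHom (algebraMap R K))) ≅ hProj 𝔞,
        e.hom ≫ hProjTo 𝔞 =
          pullback.snd g (Spec.map (CommRingCat.ofHom (algebraMap R K))) := by
  have hirr : Irreducible (map (algebraMap R K) f) :=
    dens_irreducible hn (by omega) (hf.map _) fun i => jac_frac hm (hmN i)
  have hprime : 𝔞.ideal.IsPrime := by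
    rw [h𝔞, Ideal.span_singleton_prime hirr.ne_zero]
    exact hirr.prime
  have : IsDomain (HCoord 𝔞) := Ideal.Quotient.isDomain 𝔞.ideal
  let _ : Algebra R (HCoord 𝔞) := ((algebraMap K (HCoord 𝔞)).comp (algebraMap R K)).toAlgebra
  have : IsScalarTower R K (HCoord 𝔞) := IsScalarTower.of_algebraMap_eq fun _ => rfl
  refine exists_model_hypP (𝒜 := hGr 𝔞) (hMk 𝔞) (fun q e hq => ⟨q, hq, rfl⟩) hf ?_ ?_ ?_ hRf hd hm
    hmN hsing
  · change Ideal.Quotient.mk 𝔞.ideal (map (algebraMap R K) f) = 0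
    rw [Ideal.Quotient.eq_zero_iff_mem, h𝔞]
    exact Ideal.subset_span rfl
  · intro g hg
    change Ideal.Quotient.mk 𝔞.ideal g = 0 at hg
    rwa [Ideal.Quotient.eq_zero_iff_mem, h𝔞, Ideal.mem_span_singleton] at hg
  · rw [eq_top_iff]
    rintro a -
    obtain ⟨q, rfl⟩ := Ideal.Quotient.mk_surjective a
    change hMk 𝔞 q ∈ _
    induction q using MvPolynomial.induction_on with
    | C c =>
      have h1 : hMk 𝔞 (C c) = algebraMap K (HCoord 𝔞) c := (hMk 𝔞).commutes c
      rw [h1]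
      exact Subalgebra.algebraMap_mem _ _
    | add a b ha hb => rw [map_add]; exact Subalgebra.add_mem _ ha hb
    | mul_X a k ha =>
      rw [map_mul]
      exact Subalgebra.mul_mem _ ha (Algebra.subset_adjoin ⟨k, rfl⟩)

/-- As `hasRegularModel_mixed` of FormModelO.lean with `exists_model_hypP`. -/
theorem hasRegularModel_tc {n d : ℕ} (hn : 2 ≤ n) (hd : 2 ≤ d)
    {g G : Fin (n + 1) → MvPolynomial (Mono n d) ℤ}
    (hpair : ∀ (i : Fin (n + 1)) (L : Type) [Field L] (a : Mono n d → L) (x : Fin (n + 1) → L),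
      x i = 1 → eval x (form a) = 0 → (∀ l, l ≠ i → eval x (pderiv l (form a)) = 0) →
      aeval a (g i) = 0 ∧ ((Matrix.of fun j l : {l : Fin (n + 1) // l ≠ i} =>
          eval x (pderiv j.1 (pderiv l.1 (form a)))).det = 0 → aeval a (G i) = 0))
    {E : Type} [Field E] [NumberField E] {a : Mono n d → 𝓞 E} {m : 𝓞 E} (hm : m ≠ 0) {N : ℕ}
    (hmN : ∀ i, C m * X i ^ N ∈ Ideal.span (insert (form a)
      (Set.range fun l => pderiv l (form a))))
    (hP : ∀ P : HeightOneSpectrum (𝓞 E), m ∈ P.asIdeal →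
      ((2 : 𝓞 E) ∉ P.asIdeal ∧ ∀ i, ¬ (aeval a (g i) ∈ P.asIdeal ∧ aeval a (G i) ∈ P.asIdeal)) ∨
      ∃ ϖ : locRing E P, Irreducible ϖ ∧
        TcSing ϖ (form fun μ => algebraMap (𝓞 E) (locRing E P) (a μ))) :
    Smooth (hProjTo (formIdeal fun μ => algebraMap (𝓞 E) E (a μ))) ∧
      HasRegularModel E (hProjTo (formIdeal fun μ => algebraMap (𝓞 E) E (a μ))) := by
  have h1 : map (algebraMap (𝓞 E) E) (form a) = form fun μ => algebraMap (𝓞 E) E (a μ) :=
    map_form _ a
  refine ⟨?_, ?_⟩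
  · exact smooth_projTo_of_jac (formIdeal fun μ => algebraMap (𝓞 E) E (a μ)).toHom
      (isHomogeneous_form fun μ => algebraMap (𝓞 E) E (a μ)) rfl
      fun i => by
        have := jac_frac (K := E) hm (hmN i)
        rwa [h1] at this
  · refine m6_exists_model_form (R := 𝓞 E) (K := E) (isHomogeneous_form a) _ ?_
      (RingOfIntegers.not_isField E) hn hd hm hmN ?_
    · change Ideal.span {form fun μ => algebraMap (𝓞 E) E (a μ)} = _
      rw [h1]
    · intro P hmP
      rcases hP P hmP with ⟨h2, h3⟩ | ⟨ϖ, hϖ, h2⟩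
      · refine Or.inl ⟨h2, fun ϖ hϖ i => ?_⟩
        exact nondegAt_of_pair (fun k _ a x hx h4 h5 h6 =>
          ⟨(hpair i k a x hx h4 h5).1, (hpair i k a x hx h4 h5).2 h6⟩) P.asIdeal a (h3 i) ϖ
      · refine Or.inr ⟨Ideal.finiteQuotientOfFreeOfNeBot _ P.ne_bot, ϖ, hϖ, ?_⟩
        rw [map_form]
        exact h2

end Pool.Agent.Lib.MP_6a3dac_ag.Maj
end
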