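import Pool.Agent.Lib.MP_6a3dac_ag.Mg.G001
import Pool.Agent.Lib.MP_6a3dac_ag.Mg.G003

section

/-!
# Independence of the equations of the charts over nondegenerate double points
-/

set_option autoImplicit false
set_option linter.unusedSectionVars false

namespace Pool.Agent.Lib.MP_6a3dac_ag.DNF

open MvPolynomial Matrix

/-- The variables of the charts. -/
abbrev CVar (σ : Type) : Type := σ ⊕ σ ⊕ Bool

section defs

variable {O : Type} [CommRing O] {σ : Type}

/-- The embedding of the polynomials in the coordinates. -/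
noncomputable def emb : MvPolynomial σ O →ₐ[O] MvPolynomial (CVar σ) O := rename Sum.inl

variable (O) in
/-- The variable `w_j`. -/
noncomputable def cw (j : σ) : MvPolynomial (CVar σ) O := X (Sum.inr (Sum.inl j))

variable (O σ) in
/-- The variable `v`. -/
noncomputable def cv : MvPolynomial (CVar σ) O := X (Sum.inr (Sum.inr true))

variable (O σ) in
/-- The variable `t`. -/
noncomputable def ct : MvPolynomial (CVar σ) O := X (Sum.inr (Sum.inr false))

theorem pderiv_emb (j : σ) (q : MvPolynomial σ O) :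
    pderiv (Sum.inl j) (emb q) = emb (pderiv j q) :=
  pderiv_rename Sum.inl_injective j q

theorem pderiv_inr_emb (z : σ ⊕ Bool) (q : MvPolynomial σ O) :
    pderiv (Sum.inr z) (emb q) = 0 := by
  classical
  apply pderiv_eq_zero_of_notMem_vars
  intro h
  have h1 := vars_rename (Sum.inl : σ → CVar σ) q h
  rw [Finset.mem_image] at h1
  obtain ⟨a, -, ha⟩ := h1
  exact absurd ha (by simp)

variable [Fintype σ] (ϖ : O) (F : MvPolynomial σ O) (l₀ : σ) (U : MvPolynomial σ O)
  (β : Matrix σ σ (MvPolynomial σ O)) (k e : ℕ)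

/-- The strict transform. -/
noncomputable def strictF : MvPolynomial (CVar σ) O :=
  emb U * cv O σ ^ (e - (2 * k + 2)) * ct O σ ^ (e - 2 * k) +
    cv O σ ^ (2 * k + 2 - e) * ct O σ ^ (2 * k - e) * ∑ i, ∑ j, emb (β i j) * (cw O i * cw O j)

/-- The equations of the chart. -/
noncomputable def crel : σ ⊕ Fin 3 → MvPolynomial (CVar σ) O :=
  Sum.elim (fun l => emb (pderiv l F) - C ϖ ^ k * cv O σ * cw O l)
    ![cv O σ * ct O σ - C ϖ, cw O l₀ - 1, strictF U β k e]

end defs

section Deriv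

variable {O : Type} [CommRing O] {σ : Type} [Fintype σ] [DecidableEq σ] (U : MvPolynomial σ O)
  (β : Matrix σ σ (MvPolynomial σ O)) (k e : ℕ) {κ : Type} [Field κ]
  (φ : MvPolynomial (CVar σ) O →+* κ)

omit [Fintype σ] [DecidableEq σ] in
theorem dw_cv (z : σ) : pderiv (Sum.inr (Sum.inl z)) (cv O σ) = 0 := by
  classical
  rw [cv, pderiv_X_of_ne (by simp)]

omit [Fintype σ] [DecidableEq σ] in
theorem dw_ct (z : σ) : pderiv (Sum.inr (Sum.inl z)) (ct O σ) = 0 := by
  classical
  rw [ct, pderiv_X_of_ne (by simp)]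

omit [Fintype σ] in
theorem dw_cw (j l : σ) : pderiv (Sum.inr (Sum.inl j)) (cw O l) = if j = l then 1 else 0 := by
  rw [cw, pderiv_X]
  by_cases hjl : j = l
  · subst hjl
    simp
  · rw [if_neg hjl, Pi.single_eq_of_ne]
    intro h4
    exact hjl (by simpa using h4.symm)

omit [Fintype σ] [DecidableEq σ] in
theorem db_cw (b : Bool) (l : σ) : pderiv (Sum.inr (Sum.inr b)) (cw O l) = 0 := by
  classical
  rw [cw, pderiv_X_of_ne (by simp)]

omit [Fintype σ] [DecidableEq σ] in
theorem dt_cv : pderiv (Sum.inr (Sum.inr false)) (cv O σ) = 0 := by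
  classical
  rw [cv, pderiv_X_of_ne (by simp)]

omit [Fintype σ] [DecidableEq σ] in
theorem dt_ct : pderiv (Sum.inr (Sum.inr false)) (ct O σ) = 1 := by
  classical
  rw [ct, pderiv_X_self]

omit [Fintype σ] [DecidableEq σ] in
theorem dv_cv : pderiv (Sum.inr (Sum.inr true)) (cv O σ) = 1 := by
  classical
  rw [cv, pderiv_X_self]

omit [Fintype σ] [DecidableEq σ] in
theorem dv_ct : pderiv (Sum.inr (Sum.inr true)) (ct O σ) = 0 := by
  classical
  rw [ct, pderiv_X_of_ne (by simp)]

/-- The quadratic part. -/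
noncomputable def qpart : MvPolynomial (CVar σ) O := ∑ i, ∑ j, emb (β i j) * (cw O i * cw O j)

omit [DecidableEq σ] in
theorem phi_qpart : φ (qpart β) =
    qval (β.map fun x => φ (emb x)) (fun j => φ (cw O j)) := by
  rw [qpart, map_sum, qval]
  refine Finset.sum_congr rfl fun i _ => ?_
  rw [map_sum]
  refine Finset.sum_congr rfl fun j _ => ?_
  rw [map_mul, map_mul]
  rfl

omit [DecidableEq σ] in
theorem db_qpart (b : Bool) : pderiv (Sum.inr (Sum.inr b)) (qpart β) = 0 := by
  rw [qpart, map_sum]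
  refine Finset.sum_eq_zero fun i _ => ?_
  rw [map_sum]
  refine Finset.sum_eq_zero fun l _ => ?_
  rw [Derivation.leibniz, Derivation.leibniz, pderiv_inr_emb, db_cw, db_cw]
  simp

theorem dw_qpart (j : σ) : pderiv (Sum.inr (Sum.inl j)) (qpart β) =
    ∑ l, emb ((β + βᵀ) j l) * cw O l := by
  have h1 : ∀ i l, pderiv (Sum.inr (Sum.inl j)) (emb (β i l) * (cw O i * cw O l)) =
      emb (β i l) * (cw O i * (if j = l then 1 else 0)) +
        emb (β i l) * (cw O l * (if j = i then 1 else 0)) := by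
    intro i l
    rw [Derivation.leibniz, Derivation.leibniz, pderiv_inr_emb, dw_cw, dw_cw, smul_zero,
      add_zero, smul_eq_mul, smul_eq_mul, smul_eq_mul]
    ring
  rw [qpart, map_sum]
  simp only [map_sum, h1, Finset.sum_add_distrib, Matrix.add_apply, Matrix.transpose_apply,
    map_add, add_mul]
  rw [add_comm]
  congr 1
  · rw [Finset.sum_comm]
    refine Finset.sum_congr rfl fun l _ => ?_
    simp
  · refine Finset.sum_congr rfl fun i _ => ?_
    simp

omit [DecidableEq σ] in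
theorem strictF_eq : strictF U β k e =
    emb U * cv O σ ^ (e - (2 * k + 2)) * ct O σ ^ (e - 2 * k) +
    cv O σ ^ (2 * k + 2 - e) * ct O σ ^ (2 * k - e) * qpart β := rfl

theorem dw_strictF (j : σ) : pderiv (Sum.inr (Sum.inl j)) (strictF U β k e) =
    cv O σ ^ (2 * k + 2 - e) * ct O σ ^ (2 * k - e) * ∑ l, emb ((β + βᵀ) j l) * cw O l := by
  have f1 : pderiv (Sum.inr (Sum.inl j)) (cv O σ ^ (2 * k + 2 - e) * ct O σ ^ (2 * k - e)) =
      0 := by
    rw [Derivation.leibniz, Derivation.leibniz_pow, Derivation.leibniz_pow, dw_cv, dw_ct]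
    simp
  have f2 : pderiv (Sum.inr (Sum.inl j)) (emb U * cv O σ ^ (e - (2 * k + 2)) *
      ct O σ ^ (e - 2 * k)) = 0 := by
    rw [Derivation.leibniz, Derivation.leibniz, Derivation.leibniz_pow,
      Derivation.leibniz_pow, dw_cv, dw_ct, pderiv_inr_emb]
    simp
  rw [strictF_eq, map_add, f2, zero_add, Derivation.leibniz, f1, smul_zero, add_zero,
    smul_eq_mul, dw_qpart]

theorem dt_strictF : pderiv (Sum.inr (Sum.inr false)) (strictF U β k e) =
    emb U * cv O σ ^ (e - (2 * k + 2)) * ((e - 2 * k : ℕ) * ct O σ ^ (e - 2 * k - 1)) +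
      cv O σ ^ (2 * k + 2 - e) * ((2 * k - e : ℕ) * ct O σ ^ (2 * k - e - 1)) * qpart β := by
  rw [strictF_eq, map_add]
  congr 1
  · rw [Derivation.leibniz, Derivation.leibniz, Derivation.leibniz_pow,
      Derivation.leibniz_pow, dt_cv, dt_ct, pderiv_inr_emb]
    simp only [smul_eq_mul, mul_one, nsmul_eq_mul]
    ring
  · rw [Derivation.leibniz, db_qpart, Derivation.leibniz, Derivation.leibniz_pow,
      Derivation.leibniz_pow, dt_cv, dt_ct]
    simp only [smul_eq_mul, mul_one, nsmul_eq_mul]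
    ring

theorem dv_strictF : pderiv (Sum.inr (Sum.inr true)) (strictF U β k e) =
    emb U * ((e - (2 * k + 2) : ℕ) * cv O σ ^ (e - (2 * k + 2) - 1)) * ct O σ ^ (e - 2 * k) +
      ((2 * k + 2 - e : ℕ) * cv O σ ^ (2 * k + 2 - e - 1)) * ct O σ ^ (2 * k - e) * qpart β := by
  rw [strictF_eq, map_add]
  congr 1
  · rw [Derivation.leibniz, Derivation.leibniz, Derivation.leibniz_pow,
      Derivation.leibniz_pow, dv_cv, dv_ct, pderiv_inr_emb]
    simp only [smul_eq_mul, mul_one, nsmul_eq_mul]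
    ring
  · rw [Derivation.leibniz, db_qpart, Derivation.leibniz, Derivation.leibniz_pow,
      Derivation.leibniz_pow, dv_cv, dv_ct]
    simp only [smul_eq_mul, mul_one, nsmul_eq_mul]
    ring

end Deriv

section Indep

variable {O : Type} [CommRing O] [IsDomain O] [IsDiscreteValuationRing O] {σ : Type}
  [Fintype σ] [DecidableEq σ] {ϖ : O} {F : MvPolynomial σ O} {l₀ : σ}
  {U : MvPolynomial σ O} {β : Matrix σ σ (MvPolynomial σ O)} {k e : ℕ}

theorem crel_indep (hϖ : Irreducible ϖ) (h2O : IsUnit (2 : O)) (he : 1 ≤ e)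
    (Q : Ideal (MvPolynomial (CVar σ) O)) [hQ : Q.IsPrime] (hpQ : C ϖ ∈ Q)
    (hrel : ∀ i, crel ϖ F l₀ U β k e i ∈ Q) (hy : ∀ l, emb (pderiv l F) ∈ Q)
    (hU : emb U ∉ Q) (hdet : emb (Matrix.of fun i j => pderiv i (pderiv j F)).det ∉ Q)
    (hβ : emb (β + βᵀ).det ∉ Q) {s : MvPolynomial (CVar σ) O} (hs : s ∉ Q)
    (c : σ ⊕ Fin 3 → MvPolynomial (CVar σ) O)
    (h : s * ∑ i, c i * crel ϖ F l₀ U β k e i ∈ Q ^ 2) : ∀ i, c i ∈ Q := by
  let κ := FractionRing (MvPolynomial (CVar σ) O ⧸ Q)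
  let φ : MvPolynomial (CVar σ) O →+* κ :=
    (algebraMap (MvPolynomial (CVar σ) O ⧸ Q) κ).comp (Ideal.Quotient.mk Q)
  have hφ : ∀ x, φ x = 0 ↔ x ∈ Q := by
    intro x
    simp only [φ, RingHom.comp_apply]
    rw [FaithfulSMul.algebraMap_eq_zero_iff, Ideal.Quotient.eq_zero_iff_mem]
  have hφp : φ (C ϖ) = 0 := (hφ _).mpr hpQ
  have hφrel : ∀ i, φ (crel ϖ F l₀ U β k e i) = 0 := fun i => (hφ _).mpr (hrel i)
  have h2 : (2 : κ) ≠ 0 := by
    intro h2
    have h3 : (φ.comp C) (2 : O) = 0 := by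
      rw [← h2]
      exact map_ofNat (φ.comp C) 2
    exact (h2O.map (φ.comp C)).ne_zero h3
  -- the equations given by the derivations
  have hD : ∀ z : CVar σ, ∑ i, φ (c i) * φ (pderiv z (crel ϖ F l₀ U β k e i)) = 0 := by
    intro z
    have h1 := (hφ _).mpr (derivation_mem Q (pderiv z) hs h)
    rw [map_sum, map_sum] at h1
    rw [← h1]
    refine Finset.sum_congr rfl fun i _ => ?_
    rw [Derivation.leibniz, smul_eq_mul, smul_eq_mul, map_add, map_mul, map_mul, hφrel, zero_mul,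
      add_zero]
  -- names
  obtain ⟨v, hv⟩ : ∃ v, v = φ (cv O σ) := ⟨_, rfl⟩
  obtain ⟨t, ht⟩ : ∃ t, t = φ (ct O σ) := ⟨_, rfl⟩
  obtain ⟨w, hw⟩ : ∃ w : σ → κ, w = fun j => φ (cw O j) := ⟨_, rfl⟩
  obtain ⟨u, hu⟩ : ∃ u, u = φ (emb U) := ⟨_, rfl⟩
  obtain ⟨B, hB⟩ : ∃ B : Matrix σ σ κ, B = β.map fun x => φ (emb x) := ⟨_, rfl⟩
  obtain ⟨H, hH⟩ : ∃ H : Matrix σ σ κ, H = (Matrix.of fun i j => pderiv i (pderiv j F)).map
    fun x => φ (emb x) := ⟨_, rfl⟩
  have hu0 : u ≠ 0 := by rw [hu]; exact (hφ _).not.mpr hU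
  have hH0 : H.det ≠ 0 := by
    have h3 := (hφ _).not.mpr hdet
    rw [hH]
    intro h4
    apply h3
    rw [← h4]
    exact RingHom.map_det (φ.comp (emb : MvPolynomial σ O →ₐ[O] _).toRingHom) _
  have hB0 : (B + Bᵀ).det ≠ 0 := by
    have h3 := (hφ _).not.mpr hβ
    rw [hB]
    intro h4
    apply h3
    rw [← h4]
    have h5 := RingHom.map_det (φ.comp (emb : MvPolynomial σ O →ₐ[O] _).toRingHom) (β + βᵀ)
    rw [RingHom.mapMatrix_apply, Matrix.map_add _ (fun a b => map_add _ a b),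
      Matrix.transpose_map] at h5
    exact h5
  have hq : φ (qpart β) = qval B w := by
    rw [phi_qpart, hB, hw]
  have r0 := hφrel (Sum.inr 0)
  have r1 := hφrel (Sum.inr 1)
  have r2 := hφrel (Sum.inr 2)
  have rl := fun l => hφrel (Sum.inl l)
  simp only [crel, Sum.elim_inr, Sum.elim_inl, Matrix.cons_val_zero, Matrix.cons_val_one,
    Matrix.cons_val] at r0 r1 r2 rl
  rw [map_sub, map_mul, hφp, sub_zero, ← hv, ← ht] at r0
  rw [map_sub, map_one, sub_eq_zero] at r1
  have hwl : w l₀ = 1 := by rw [hw]; exact r1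
  rw [strictF_eq, map_add, map_mul, map_mul, map_mul, map_mul, map_pow, map_pow, map_pow,
    map_pow, hq, ← hu, ← hv, ← ht] at r2
  have hyl : ∀ l, φ (emb (pderiv l F)) = 0 := fun l => (hφ _).mpr (hy l)
  have hpkv : φ (C ϖ) ^ k * v = 0 := by
    have h3 := rl l₀
    rw [map_sub, hyl, zero_sub, neg_eq_zero, map_mul, map_mul, map_pow, r1, mul_one, ← hv] at h3
    exact h3
  -- the derivations
  have dx : ∀ j, ∑ l, φ (c (Sum.inl l)) * H j l + φ (c (Sum.inr 2)) *
      φ (pderiv (Sum.inl j) (strictF U β k e)) = 0 := by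
    intro j
    have h3 := hD (Sum.inl j)
    rw [Fintype.sum_sum_type, Fin.sum_univ_three] at h3
    simp only [crel, Sum.elim_inr, Sum.elim_inl, Matrix.cons_val_zero, Matrix.cons_val_one,
      Matrix.cons_val] at h3
    have e0 : pderiv (Sum.inl j) (cv O σ * ct O σ - C ϖ) = 0 := by
      rw [map_sub, Derivation.leibniz, pderiv_C, cv, ct, pderiv_X_of_ne (by simp),
        pderiv_X_of_ne (by simp)]
      simp
    have e1 : pderiv (Sum.inl j) (cw O l₀ - 1) = 0 := by
      rw [map_sub, cw, pderiv_X_of_ne (by simp), pderiv_one, sub_zero]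
    have e2 : ∀ l, φ (pderiv (Sum.inl j) (emb (pderiv l F) - C ϖ ^ k * cv O σ * cw O l)) =
        H j l := by
      intro l
      have e3 : pderiv (Sum.inl j) (C ϖ ^ k * cv O σ * cw O l) = 0 := by
        rw [← map_pow, mul_assoc, pderiv_C_mul, Derivation.leibniz, cv, cw,
          pderiv_X_of_ne (by simp), pderiv_X_of_ne (by simp)]
        simp
      rw [map_sub, e3, sub_zero, pderiv_emb, hH]
      rfl
    rw [e0, e1] at h3
    simp only [e2, map_zero, mul_zero, zero_add] at h3
    exact h3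
  have dw : ∀ j, φ (c (Sum.inr 1)) * (if j = l₀ then 1 else 0) + φ (c (Sum.inr 2)) *
      (v ^ (2 * k + 2 - e) * t ^ (2 * k - e) * ((B + Bᵀ) *ᵥ w) j) = 0 := by
    intro j
    have h3 := hD (Sum.inr (Sum.inl j))
    rw [Fintype.sum_sum_type, Fin.sum_univ_three] at h3
    simp only [crel, Sum.elim_inr, Sum.elim_inl, Matrix.cons_val_zero, Matrix.cons_val_one,
      Matrix.cons_val] at h3
    have e0 : pderiv (Sum.inr (Sum.inl j)) (cv O σ * ct O σ - C ϖ) = 0 := by
      rw [map_sub, Derivation.leibniz, pderiv_C, dw_cv, dw_ct]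
      simp
    have e1 : φ (pderiv (Sum.inr (Sum.inl j)) (cw O l₀ - 1)) = if j = l₀ then 1 else 0 := by
      rw [map_sub, dw_cw, pderiv_one, sub_zero]
      split_ifs <;> simp
    have e2 : ∀ l, φ (pderiv (Sum.inr (Sum.inl j)) (emb (pderiv l F) -
        C ϖ ^ k * cv O σ * cw O l)) = 0 := by
      intro l
      rw [map_sub, pderiv_inr_emb, ← map_pow, mul_assoc, pderiv_C_mul, Derivation.leibniz, dw_cv,
        dw_cw, smul_zero, add_zero, zero_sub, map_neg, map_mul, smul_eq_mul, map_mul, map_pow, map_pow,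
        ← hv, ← mul_assoc, hpkv, zero_mul, neg_zero]
    have e3 : φ (pderiv (Sum.inr (Sum.inl j)) (strictF U β k e)) =
        v ^ (2 * k + 2 - e) * t ^ (2 * k - e) * ((B + Bᵀ) *ᵥ w) j := by
      rw [dw_strictF, map_mul, map_mul, map_pow, map_pow, ← hv, ← ht, map_sum, mulVec, dotProduct,
        hw, hB]
      congr 1
      refine Finset.sum_congr rfl fun l _ => ?_
      rw [map_mul, Matrix.add_apply, Matrix.add_apply, Matrix.transpose_apply,
        Matrix.transpose_apply, map_add, map_add]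
      rfl
    rw [e0, e1, e3] at h3
    simp only [e2, map_zero, mul_zero, zero_add, Finset.sum_const_zero] at h3
    exact h3
  have dt : φ (c (Sum.inr 0)) * v + φ (c (Sum.inr 2)) * (u * v ^ (e - (2 * k + 2)) *
      ((e - 2 * k : ℕ) * t ^ (e - 2 * k - 1)) +
      v ^ (2 * k + 2 - e) * ((2 * k - e : ℕ) * t ^ (2 * k - e - 1)) * qval B w) = 0 := by
    have h3 := hD (Sum.inr (Sum.inr false))
    rw [Fintype.sum_sum_type, Fin.sum_univ_three] at h3
    simp only [crel, Sum.elim_inr, Sum.elim_inl, Matrix.cons_val_zero, Matrix.cons_val_one,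
      Matrix.cons_val] at h3
    have e0 : pderiv (Sum.inr (Sum.inr false)) (cv O σ * ct O σ - C ϖ) = cv O σ := by
      rw [map_sub, Derivation.leibniz, pderiv_C, dt_cv, dt_ct]
      simp
    have e1 : pderiv (Sum.inr (Sum.inr false)) (cw O l₀ - 1) = 0 := by
      rw [map_sub, db_cw, pderiv_one, sub_zero]
    have e2 : ∀ l, pderiv (Sum.inr (Sum.inr false)) (emb (pderiv l F) -
        C ϖ ^ k * cv O σ * cw O l) = 0 := by
      intro l
      rw [map_sub, pderiv_inr_emb, ← map_pow, mul_assoc, pderiv_C_mul, Derivation.leibniz, dt_cv,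
        db_cw]
      simp
    have e3 : φ (pderiv (Sum.inr (Sum.inr false)) (strictF U β k e)) =
        u * v ^ (e - (2 * k + 2)) * ((e - 2 * k : ℕ) * t ^ (e - 2 * k - 1)) +
      v ^ (2 * k + 2 - e) * ((2 * k - e : ℕ) * t ^ (2 * k - e - 1)) * qval B w := by
      rw [dt_strictF]
      simp only [map_add, map_mul, map_pow, map_natCast, ← hv, ← ht, ← hu, hq]
    rw [e0, e1, e3, ← hv] at h3
    simp only [e2, map_zero, mul_zero, zero_add, add_zero, Finset.sum_const_zero] at h3
    exact h3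
  have dv : φ (c (Sum.inr 0)) * t - φ (C ϖ) ^ k * ∑ l, φ (c (Sum.inl l)) * w l +
      φ (c (Sum.inr 2)) * (u * ((e - (2 * k + 2) : ℕ) * v ^ (e - (2 * k + 2) - 1)) *
      t ^ (e - 2 * k) + ((2 * k + 2 - e : ℕ) * v ^ (2 * k + 2 - e - 1)) * t ^ (2 * k - e) *
        qval B w) = 0 := by
    have h3 := hD (Sum.inr (Sum.inr true))
    rw [Fintype.sum_sum_type, Fin.sum_univ_three] at h3
    simp only [crel, Sum.elim_inr, Sum.elim_inl, Matrix.cons_val_zero, Matrix.cons_val_one,
      Matrix.cons_val] at h3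
    have e0 : pderiv (Sum.inr (Sum.inr true)) (cv O σ * ct O σ - C ϖ) = ct O σ := by
      rw [map_sub, Derivation.leibniz, pderiv_C, dv_cv, dv_ct]
      simp
    have e1 : pderiv (Sum.inr (Sum.inr true)) (cw O l₀ - 1) = 0 := by
      rw [map_sub, db_cw, pderiv_one, sub_zero]
    have e2 : ∀ l, φ (pderiv (Sum.inr (Sum.inr true)) (emb (pderiv l F) -
        C ϖ ^ k * cv O σ * cw O l)) = - (φ (C ϖ) ^ k * w l) := by
      intro l
      rw [map_sub, pderiv_inr_emb, ← map_pow, mul_assoc, pderiv_C_mul, Derivation.leibniz, dv_cv,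
        db_cw, hw]
      simp
    have e3 : φ (pderiv (Sum.inr (Sum.inr true)) (strictF U β k e)) =
        u * ((e - (2 * k + 2) : ℕ) * v ^ (e - (2 * k + 2) - 1)) *
      t ^ (e - 2 * k) + ((2 * k + 2 - e : ℕ) * v ^ (2 * k + 2 - e - 1)) * t ^ (2 * k - e) *
        qval B w := by
      rw [dv_strictF]
      simp only [map_add, map_mul, map_pow, map_natCast, ← hv, ← ht, ← hu, hq]
    rw [e0, e1, e3, ← ht] at h3
    simp only [e2, map_zero, mul_zero, add_zero] at h3
    rw [← h3, Finset.mul_sum]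
    have f4 : ∑ l, φ (c (Sum.inl l)) * -(φ (C ϖ) ^ k * w l) =
        - ∑ l, φ (C ϖ) ^ k * (φ (c (Sum.inl l)) * w l) := by
      rw [← Finset.sum_neg_distrib]
      refine Finset.sum_congr rfl fun l _ => ?_
      ring
    rw [f4]
    ring
  -- conclusion
  have hcF : φ (c (Sum.inr 2)) = 0 := by
    refine core_eq_zero (c₀ := φ (c (Sum.inr 0))) h2 hB0 hwl hu0 r0 he r2 ?_ dt ?_
    · intro j hj
      have := dw j
      rw [if_neg hj, mul_zero, zero_add] at this
      exact this
    · intro hk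
      have h3 := dv
      rw [hφp, zero_pow (by omega), zero_mul, sub_zero] at h3
      exact h3
  have hcl : ∀ l, φ (c (Sum.inl l)) = 0 := by
    have h3 : H *ᵥ (fun l => φ (c (Sum.inl l))) = 0 := by
      funext j
      have h4 := dx j
      rw [hcF, zero_mul, add_zero] at h4
      rw [mulVec, dotProduct, Pi.zero_apply, ← h4]
      exact Finset.sum_congr rfl fun l _ => mul_comm _ _
    have h4 := Matrix.eq_zero_of_mulVec_eq_zero hH0 h3
    exact fun l => congrFun h4 l
  have hc1 : φ (c (Sum.inr 1)) = 0 := by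
    have h3 := dw l₀
    rw [hcF, zero_mul, add_zero, if_pos rfl, mul_one] at h3
    exact h3
  have hc0 : φ (c (Sum.inr 0)) = 0 := by
    by_contra hc0
    rw [hcF, zero_mul, add_zero] at dt dv
    have hv0 : v = 0 := (mul_eq_zero.mp dt).resolve_left hc0
    have ht0 : t = 0 := by
      have h3 : ∑ l, φ (c (Sum.inl l)) * w l = 0 :=
        Finset.sum_eq_zero fun l _ => by rw [hcl, zero_mul]
      rw [h3, mul_zero, sub_zero] at dv
      exact (mul_eq_zero.mp dv).resolve_left hc0
    have hvQ : cv O σ ∈ Q := (hφ _).mp (by rw [← hv, hv0])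
    have htQ : ct O σ ∈ Q := (hφ _).mp (by rw [← ht, ht0])
    have hsq : ∀ x ∈ Q, ∀ y ∈ Q, x * y ∈ Q ^ 2 := fun x hx y hy => by
      rw [pow_two]; exact Ideal.mul_mem_mul hx hy
    rw [Fintype.sum_sum_type, Fin.sum_univ_three] at h
    have h3 : s * (∑ l, c (Sum.inl l) * crel ϖ F l₀ U β k e (Sum.inl l) +
        c (Sum.inr 0) * (cv O σ * ct O σ) +
        c (Sum.inr 1) * crel ϖ F l₀ U β k e (Sum.inr 1) +
        c (Sum.inr 2) * crel ϖ F l₀ U β k e (Sum.inr 2)) ∈ Q ^ 2 := by
      apply Ideal.mul_mem_left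
      refine Ideal.add_mem _ (Ideal.add_mem _ (Ideal.add_mem _ (Ideal.sum_mem _ fun l _ => ?_)
        (Ideal.mul_mem_left _ _ (hsq _ hvQ _ htQ))) ?_) ?_
      · exact hsq _ ((hφ _).mp (hcl l)) _ (hrel _)
      · exact hsq _ ((hφ _).mp hc1) _ (hrel _)
      · exact hsq _ ((hφ _).mp hcF) _ (hrel _)
    have h4 := Ideal.sub_mem _ h3 h
    have h5 : s * (∑ l, c (Sum.inl l) * crel ϖ F l₀ U β k e (Sum.inl l) +
        c (Sum.inr 0) * (cv O σ * ct O σ) +
        c (Sum.inr 1) * crel ϖ F l₀ U β k e (Sum.inr 1) +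
        c (Sum.inr 2) * crel ϖ F l₀ U β k e (Sum.inr 2)) -
        s * (∑ l, c (Sum.inl l) * crel ϖ F l₀ U β k e (Sum.inl l) +
        (c (Sum.inr 0) * crel ϖ F l₀ U β k e (Sum.inr 0) +
        c (Sum.inr 1) * crel ϖ F l₀ U β k e (Sum.inr 1) +
        c (Sum.inr 2) * crel ϖ F l₀ U β k e (Sum.inr 2))) =
        s * c (Sum.inr 0) * C ϖ := by
      have h6 : crel ϖ F l₀ U β k e (Sum.inr 0) = cv O σ * ct O σ - C ϖ := rfl
      rw [h6]
      ring
    rw [h5] at h4
    exact mul_C_notMem_sq hϖ Q hpQ (hQ.mul_notMem hs ((hφ _).not.mp hc0)) h4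
  intro i
  rcases i with l | i
  · exact (hφ _).mp (hcl l)
  · fin_cases i
    · exact (hφ _).mp hc0
    · exact (hφ _).mp hc1
    · exact (hφ _).mp hcF

end Indep

end Pool.Agent.Lib.MP_6a3dac_ag.DNF
end

section

/-!
# The normal form near a nondegenerate double point, with the relation to the Hessian matrix
-/

set_option autoImplicit false

namespace Pool.Agent.Lib.MP_6a3dac_ag.Sys

open MvPolynomial Matrix
open Pool.Agent.Lib.MP_6a3dac_ag.DNF

theorem t3_comm {σ O : Type} [DecidableEq σ] [CommRing O] (i j : σ) (F : MvPolynomial σ O) :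
    pderiv i (pderiv j F) = pderiv j (pderiv i F) := by
  have h : ⁅(pderiv i : Derivation O (MvPolynomial σ O) (MvPolynomial σ O)),
      (pderiv j : Derivation O (MvPolynomial σ O) (MvPolynomial σ O))⁆ = 0 := by
    apply MvPolynomial.derivation_ext
    intro k
    rw [Derivation.commutator_apply, pderiv_X, pderiv_X]
    by_cases hi : i = k <;> by_cases hj : j = k <;> simp [hi, hj]
  have h2 : ⁅(pderiv i : Derivation O (MvPolynomial σ O) (MvPolynomial σ O)),
      (pderiv j : Derivation O (MvPolynomial σ O) (MvPolynomial σ O))⁆ F = 0 := by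
    rw [h]
    rfl
  rw [Derivation.commutator_apply] at h2
  simpa [sub_eq_zero] using h2

/-- The linear algebra of the normal form. -/
theorem det_submatrix_ne_zero {κ σ : Type} [Field κ] [Fintype σ] [DecidableEq σ] (M : Finset σ)
    {H B : Matrix σ σ κ} {s : κ} (hs : s ≠ 0) (hH : Hᵀ = H) (h : s • H = H * B * Hᵀ)
    (hdet : H.det ≠ 0) (hM : (H.submatrix (fun a : {a // a ∈ M} => a.1) fun a => a.1).det ≠ 0) :
    (B.submatrix (fun a : {a // a ∉ M} => a.1) fun a => a.1).det ≠ 0 := by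
  intro hdetB
  obtain ⟨v, hv, hBv⟩ := Matrix.exists_mulVec_eq_zero_iff.mpr hdetB
  have hunit : IsUnit H.det := isUnit_iff_ne_zero.mpr hdet
  -- `H * B = s`
  have hBH : B * H = s • (1 : Matrix σ σ κ) := by
    have h1 : H * (B * H) = H * (s • (1 : Matrix σ σ κ)) := by
      rw [Matrix.mul_smul, Matrix.mul_one, h, hH, Matrix.mul_assoc]
    have h2 : H⁻¹ * (H * (B * H)) = H⁻¹ * (H * (s • (1 : Matrix σ σ κ))) := by rw [h1]
    rwa [Matrix.nonsing_inv_mul_cancel_left _ _ hunit,
      Matrix.nonsing_inv_mul_cancel_left _ _ hunit] at h2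
  have hHB : H * B = s • (1 : Matrix σ σ κ) := by
    have h1 : (s⁻¹ • B) * H = 1 := by
      rw [Matrix.smul_mul, hBH, smul_smul, inv_mul_cancel₀ hs, one_smul]
    have h2 : H * (s⁻¹ • B) = 1 := mul_eq_one_comm.mp h1
    rw [Matrix.mul_smul] at h2
    have h3 : s • (s⁻¹ • (H * B)) = s • (1 : Matrix σ σ κ) := by rw [h2]
    rwa [smul_smul, mul_inv_cancel₀ hs, one_smul] at h3
  let v' : σ → κ := fun i => if hi : i ∉ M then v ⟨i, hi⟩ else 0
  have hv'M : ∀ i ∈ M, v' i = 0 := by
    intro i hi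
    simp [v', hi]
  have hv'N : ∀ i : {a // a ∉ M}, v' i.1 = v i := by
    intro i
    simp [v', i.2]
  let u : σ → κ := B *ᵥ v'
  have hsumN : ∀ f : σ → κ, (∀ i ∈ M, f i = 0) → ∑ i, f i = ∑ i : {a // a ∉ M}, f i.1 := by
    intro f hf
    rw [← Fintype.sum_subtype_add_sum_subtype (fun a => a ∈ M) f]
    rw [Finset.sum_eq_zero (fun (i : {a // a ∈ M}) _ => hf i.1 i.2), zero_add]
  have hsumM : ∀ f : σ → κ, (∀ i, i ∉ M → f i = 0) → ∑ i, f i = ∑ i : {a // a ∈ M}, f i.1 := by
    intro f hf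
    rw [← Fintype.sum_subtype_add_sum_subtype (fun a => a ∈ M) f]
    rw [Finset.sum_eq_zero (s := @Finset.univ {a // a ∉ M} _)
      (fun (i : {a // a ∉ M}) _ => hf i.1 i.2), add_zero]
    exact Finset.sum_congr (by ext; simp) (fun _ _ => rfl)
  have huN : ∀ i, i ∉ M → u i = 0 := by
    intro i hi
    have h1 := congrFun hBv ⟨i, hi⟩
    change ∑ j : {a // a ∉ M}, B i j.1 * v j = 0 at h1
    change ∑ j, B i j * v' j = 0
    rw [hsumN _ (fun j hj => by rw [hv'M j hj, mul_zero])]
    simp_rw [hv'N]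
    exact h1
  have hHu : H *ᵥ u = s • v' := by
    change H *ᵥ (B *ᵥ v') = s • v'
    rw [Matrix.mulVec_mulVec, hHB, Matrix.smul_mulVec, Matrix.one_mulVec]
  have huM : (fun i : {a // a ∈ M} => u i.1) = 0 := by
    by_contra hne
    apply hM
    apply Matrix.exists_mulVec_eq_zero_iff.mp
    refine ⟨_, hne, ?_⟩
    funext i
    change ∑ j : {a // a ∈ M}, H i.1 j.1 * u j.1 = 0
    rw [← hsumM (fun j => H i.1 j * u j) (fun j hj => by rw [huN j hj, mul_zero])]
    have h1 := congrFun hHu i.1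
    change ∑ j, H i.1 j * u j = s * v' i.1 at h1
    rw [h1, hv'M i.1 i.2, mul_zero]
  have hu0 : u = 0 := by
    funext i
    by_cases hi : i ∈ M
    · exact congrFun huM ⟨i, hi⟩
    · exact huN i hi
  rw [hu0, Matrix.mulVec_zero] at hHu
  apply hv
  funext i
  have h1 := congrFun hHu i.1
  change 0 = s * v' i.1 at h1
  rw [hv'N] at h1
  rcases mul_eq_zero.mp h1.symm with h2 | h2
  · exact absurd h2 hs
  · exact h2

/-- **Normal form.** -/
theorem exists_normal_formM {σ : Type} [Fintype σ] [DecidableEq σ] {O : Type} [CommRing O]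
    [IsDomain O] [IsDiscreteValuationRing O] {ϖ : O} (hϖ : Irreducible ϖ)
    (Q : Ideal (MvPolynomial σ O)) [hQp : Q.IsPrime] (hQ : C ϖ ∈ Q)
    {F : MvPolynomial σ O} (hF : F ∈ Q) (hy : ∀ j, pderiv j F ∈ Q)
    (hdet : (Matrix.of fun i j => pderiv i (pderiv j F)).det ∉ Q)
    {r : ℕ} {t c₀ : MvPolynomial σ O} {c : σ → MvPolynomial σ O}
    (ht : t ∉ Q) (hr : t * C ϖ ^ r = c₀ * F + ∑ j, c j * pderiv j F) :
    ∃ e, 1 ≤ e ∧ e ≤ r ∧ ∃ s U : MvPolynomial σ O, s ∉ Q ∧ U ∉ Q ∧
      ∃ β : Matrix σ σ (MvPolynomial σ O),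
        s * F = U * C ϖ ^ e + ∑ i, ∑ j, β i j * (pderiv i F * pderiv j F) ∧
        ∀ M : Finset σ, (Matrix.of fun i j : {a // a ∈ M} => pderiv i.1 (pderiv j.1 F)).det ∉ Q →
          ((β + βᵀ).submatrix (fun a : {a // a ∉ M} => a.1) fun a => a.1).det ∉ Q := by
  obtain ⟨e, he1, he2, s, U, hs, hU, c, hc⟩ := exists_linear_form hϖ Q hQ hF hy hdet ht hr
  let H : Matrix σ σ (MvPolynomial σ O) := Matrix.of fun i j => pderiv i (pderiv j F)
  obtain ⟨h, hh⟩ : ∃ h, h = H.det := ⟨_, rfl⟩
  have hh' : h ∉ Q := by rw [hh]; exact hdet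
  obtain ⟨y, hyd⟩ : ∃ y : σ → MvPolynomial σ O, y = fun j => pderiv j F := ⟨_, rfl⟩
  have hyj : ∀ j, y j = pderiv j F := fun j => by rw [hyd]
  have hyQ : ∀ j, y j ∈ Q := fun j => by rw [hyj]; exact hy j
  let I : Ideal (MvPolynomial σ O) := Ideal.span (Set.range y)
  have hyI : ∀ j, y j ∈ I := fun j => Ideal.subset_span ⟨j, rfl⟩
  have hIQ : I ≤ Q := by
    rw [Ideal.span_le]
    rintro _ ⟨j, rfl⟩
    exact hyQ j
  let D : σ → MvPolynomial σ O → MvPolynomial σ O := fun m x =>
    ∑ k, H.adjugate m k * pderiv k x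
  have hDy : ∀ m j, D m (y j) = if m = j then h else 0 := by
    intro m j
    have h1 : (H.adjugate * H) m j = (h • (1 : Matrix σ σ (MvPolynomial σ O))) m j := by
      rw [Matrix.adjugate_mul, hh]
    rw [Matrix.mul_apply, Matrix.smul_apply, Matrix.one_apply, smul_eq_mul] at h1
    change ∑ k, H.adjugate m k * pderiv k (y j) = _
    rw [hyj]
    refine h1.trans ?_
    split_ifs <;> simp
  have hDmul : ∀ m a b, D m (a * b) = a * D m b + b * D m a := by
    intro m a b
    simp only [D, Finset.mul_sum, ← Finset.sum_add_distrib]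
    refine Finset.sum_congr rfl fun k _ => ?_
    rw [Derivation.leibniz, smul_eq_mul, smul_eq_mul]
    ring
  have hDadd : ∀ m a b, D m (a + b) = D m a + D m b := by
    intro m a b
    simp only [D, ← Finset.sum_add_distrib]
    refine Finset.sum_congr rfl fun k _ => ?_
    rw [map_add]
    ring
  have hDsum : ∀ m (f : σ → MvPolynomial σ O), D m (∑ j, f j) = ∑ j, D m (f j) := by
    intro m f
    simp only [D, map_sum, Finset.mul_sum]
    rw [Finset.sum_comm]
  have hDp : ∀ m, D m (C ϖ ^ e) = 0 := by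
    intro m
    simp only [D]
    refine Finset.sum_eq_zero fun k _ => ?_
    rw [← map_pow, pderiv_C, mul_zero]
  have hDF : ∀ m, D m F ∈ I := by
    intro m
    refine I.sum_mem fun k _ => I.mul_mem_left _ ?_
    rw [← hyj]
    exact hyI k
  -- the coefficients
  have hcm : ∀ m, s * c m * h - C ϖ ^ e * (D m s * U - s * D m U) ∈ I := by
    intro m
    have h1 := congrArg (D m) hc
    rw [hDmul, hDadd, hDmul, hDp, mul_zero, zero_add, hDsum] at h1
    have h2 : ∑ j, D m (c j * pderiv j F) = ∑ j, y j * D m (c j) + c m * h := by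
      have h3 : ∀ j, D m (c j * pderiv j F) = y j * D m (c j) + c j * if m = j then h else 0 := by
        intro j
        rw [← hyj, hDmul, hDy]
        ring
      simp_rw [h3]
      rw [Finset.sum_add_distrib]
      simp
    rw [h2] at h1
    have h4 : ∑ j, y j * D m (c j) ∈ I := I.sum_mem fun j _ => I.mul_mem_right _ (hyI j)
    have h5 : ∑ j, c j * pderiv j F ∈ I := I.sum_mem fun j _ => by
      rw [← hyj]; exact I.mul_mem_left _ (hyI j)
    have h6 : s * c m * h - C ϖ ^ e * (D m s * U - s * D m U) =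
        s * s * D m F + D m s * (∑ j, c j * pderiv j F) - s * ∑ j, y j * D m (c j) := by
      linear_combination D m s * hc - s * h1
    rw [h6]
    exact I.sub_mem (I.add_mem (I.mul_mem_left _ (hDF m)) (I.mul_mem_left _ h5))
      (I.mul_mem_left _ h4)
  obtain ⟨V, hV⟩ : ∃ V : σ → MvPolynomial σ O, V = fun m => D m s * U - s * D m U := ⟨_, rfl⟩
  have hsq : s * s * h * F - (s * h * U + ∑ j, V j * y j) * C ϖ ^ e ∈ I ^ 2 := by
    have h1 : s * s * h * F - (s * h * U + ∑ j, V j * y j) * C ϖ ^ e =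
        ∑ j, (s * c j * h - C ϖ ^ e * (D j s * U - s * D j U)) * y j := by
      have h2 : ∑ j, (s * c j * h - C ϖ ^ e * (D j s * U - s * D j U)) * y j =
          s * h * (∑ j, c j * pderiv j F) - C ϖ ^ e * ∑ j, V j * y j := by
        rw [Finset.mul_sum, Finset.mul_sum, ← Finset.sum_sub_distrib]
        refine Finset.sum_congr rfl fun j _ => ?_
        rw [← hyj, hV]
        ring
      rw [h2]
      linear_combination s * h * hc
    rw [h1, pow_two]
    exact Ideal.sum_mem _ fun j _ => Ideal.mul_mem_mul (hcm j) (hyI j)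
  obtain ⟨β, hβ⟩ := mem_span_sq y hsq
  have hs' : s * s * h ∉ Q := hQp.mul_notMem (hQp.mul_notMem hs hs) hh'
  have heq : s * s * h * F = (s * h * U + ∑ j, V j * y j) * C ϖ ^ e +
      ∑ i, ∑ j, β i j * (pderiv i F * pderiv j F) := by
    have h1 : ∑ i, ∑ j, β i j * (pderiv i F * pderiv j F) =
        ∑ i, ∑ j, β i j * (y i * y j) := by
      simp_rw [hyj]
    rw [h1, ← hβ]
    ring
  refine ⟨e, he1, he2, s * s * h, s * h * U + ∑ j, V j * y j, hs', ?_, β, heq, ?_⟩
  · intro hmem
    have h1 : s * h * U ∈ Q := by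
      have h2 := Q.sub_mem hmem (Q.sum_mem (t := Finset.univ) (f := fun j => V j * y j)
        fun j _ => Q.mul_mem_left _ (hyQ j))
      rwa [add_sub_cancel_right] at h2
    exact hQp.mul_notMem (hQp.mul_notMem hs hh') hU h1
  · intro M hM hmem
    -- second derivatives
    have h1 : ∀ k l, s * s * h * H k l - (H * (β + βᵀ) * Hᵀ) k l ∈ Q := by
      intro k l
      have e1 := second_deriv_mem₁ (pderiv k) (pderiv l) Q (b := s * s * h) hF (hy k) (hy l)
      have e2 : pderiv k (pderiv l ((s * h * U + ∑ j, V j * y j) * C ϖ ^ e)) ∈ Q := by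
        have e3 : pderiv k (pderiv l ((s * h * U + ∑ j, V j * y j) * C ϖ ^ e)) =
            C ϖ ^ e * pderiv k (pderiv l (s * h * U + ∑ j, V j * y j)) := by
          rw [← map_pow, mul_comm, pderiv_C_mul, pderiv_C_mul]
        rw [e3]
        exact Q.mul_mem_right _ (Q.pow_mem_of_mem hQ _ (by omega))
      have e4 : pderiv k (pderiv l (∑ i, ∑ j, β i j * (pderiv i F * pderiv j F))) -
          ∑ i, ∑ j, β i j * (H k i * H l j + H l i * H k j) ∈ Q := by
        rw [map_sum, map_sum, ← Finset.sum_sub_distrib]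
        refine Q.sum_mem fun i _ => ?_
        rw [map_sum, map_sum, ← Finset.sum_sub_distrib]
        refine Q.sum_mem fun j _ => ?_
        exact second_deriv_mem (pderiv k) (pderiv l) Q (hy i) (hy j)
      rw [heq, map_add, map_add] at e1
      have e5 : (H * (β + βᵀ) * Hᵀ) k l =
          ∑ i, ∑ j, β i j * (H k i * H l j + H l i * H k j) := by
        have e6 : ∑ i, ∑ j, β i j * (H k i * H l j + H l i * H k j) =
            ∑ i, ∑ j, β i j * (H k i * H l j) + ∑ i, ∑ j, β i j * (H l i * H k j) := by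
          simp only [← Finset.sum_add_distrib, mul_add]
        rw [e6, Finset.sum_comm (f := fun i j => β i j * (H l i * H k j))]
        rw [Matrix.mul_add, Matrix.add_mul, Matrix.add_apply]
        congr 1
        · rw [Matrix.mul_apply, Finset.sum_comm]
          refine Finset.sum_congr rfl fun j _ => ?_
          rw [Matrix.mul_apply, Finset.sum_mul, Matrix.transpose_apply]
          refine Finset.sum_congr rfl fun i _ => ?_
          ring
        · rw [Matrix.mul_apply, Finset.sum_comm]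
          refine Finset.sum_congr rfl fun j _ => ?_
          rw [Matrix.mul_apply, Finset.sum_mul, Matrix.transpose_apply]
          refine Finset.sum_congr rfl fun i _ => ?_
          rw [Matrix.transpose_apply]
          ring
      rw [e5]
      have e7 : s * s * h * H k l - ∑ i, ∑ j, β i j * (H k i * H l j + H l i * H k j) =
          pderiv k (pderiv l ((s * h * U + ∑ j, V j * y j) * C ϖ ^ e)) +
          (pderiv k (pderiv l (∑ i, ∑ j, β i j * (pderiv i F * pderiv j F))) -
            ∑ i, ∑ j, β i j * (H k i * H l j + H l i * H k j)) -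
          (pderiv k (pderiv l ((s * h * U + ∑ j, V j * y j) * C ϖ ^ e)) +
            pderiv k (pderiv l (∑ i, ∑ j, β i j * (pderiv i F * pderiv j F))) -
            s * s * h * pderiv k (pderiv l F)) := by
        change s * s * h * pderiv k (pderiv l F) - _ = _
        ring
      rw [e7]
      exact Q.sub_mem (Q.add_mem e2 e4) e1
    let ψ : MvPolynomial σ O →+* FractionRing (MvPolynomial σ O ⧸ Q) :=
      (algebraMap (MvPolynomial σ O ⧸ Q) (FractionRing (MvPolynomial σ O ⧸ Q))).comp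
        (Ideal.Quotient.mk Q)
    have hψ : ∀ x, ψ x = 0 ↔ x ∈ Q := by
      intro x
      change algebraMap (MvPolynomial σ O ⧸ Q) (FractionRing (MvPolynomial σ O ⧸ Q))
        (Ideal.Quotient.mk Q x) = 0 ↔ x ∈ Q
      rw [FaithfulSMul.algebraMap_eq_zero_iff, Ideal.Quotient.eq_zero_iff_mem]
    have h2 : ψ (s * s * h) • H.map ψ = H.map ψ * (β + βᵀ).map ψ * (H.map ψ)ᵀ := by
      have h3 : H.map ψ * (β + βᵀ).map ψ * (H.map ψ)ᵀ = (H * (β + βᵀ) * Hᵀ).map ψ := by
        rw [Matrix.map_mul, Matrix.map_mul]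
        rfl
      rw [h3]
      ext k l
      rw [Matrix.map_apply, Matrix.smul_apply, Matrix.map_apply, smul_eq_mul, ← map_mul,
        ← sub_eq_zero, ← map_sub, hψ]
      exact h1 k l
    have hsym : (H.map ψ)ᵀ = H.map ψ := by
      ext k l
      change ψ (pderiv l (pderiv k F)) = ψ (pderiv k (pderiv l F))
      rw [t3_comm]
    have hd1 : (H.map ψ).det ≠ 0 := by
      rw [← RingHom.mapMatrix_apply, ← RingHom.map_det, Ne, hψ]
      exact hdet
    have hd2 : ((H.map ψ).submatrix (fun a : {a // a ∈ M} => a.1) fun a => a.1).det ≠ 0 := by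
      have h4 : (H.map ψ).submatrix (fun a : {a // a ∈ M} => a.1) (fun a => a.1) =
          ψ.mapMatrix (Matrix.of fun i j : {a // a ∈ M} => pderiv i.1 (pderiv j.1 F)) := rfl
      rw [h4, ← RingHom.map_det, Ne, hψ]
      exact hM
    have key := det_submatrix_ne_zero M (fun h5 => hs' ((hψ _).mp h5)) hsym h2 hd1 hd2
    apply key
    have h5 : ((β + βᵀ).map ψ).submatrix (fun a : {a // a ∉ M} => a.1) (fun a => a.1) =
        ψ.mapMatrix ((β + βᵀ).submatrix (fun a : {a // a ∉ M} => a.1) fun a => a.1) := rfl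
    rw [h5, ← RingHom.map_det, hψ]
    exact hmem

end Pool.Agent.Lib.MP_6a3dac_ag.Sys
end
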