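import Pool.Agent.Lib.MP_6a3dac_ag.Mg.G004
import Pool.Agent.Lib.MP_6a3dac_ag.Mg.G001
import Pool.Agent.Lib.MP_6a3dac_ag.DNF.ChartD
import Pool.Agent.Lib.MP_6a3dac_ag.DNF.LocalD

section

/-!
# Independence of the equations of the charts, with constraints
-/

set_option autoImplicit false

namespace Pool.Agent.Lib.MP_6a3dac_ag.Sys

open MvPolynomial Matrix
open Pool.Agent.Lib.MP_6a3dac_ag.DNF

/-- The equations of the chart, with the additional equations `w a = 0` for `a ∈ M`. -/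
noncomputable def crelM {O : Type} [CommRing O] {σ : Type} [Fintype σ] (ϖ : O)
    (F : MvPolynomial σ O) (l₀ : σ) (U : MvPolynomial σ O) (β : Matrix σ σ (MvPolynomial σ O))
    (k e : ℕ) (M : Finset σ) : σ ⊕ (Fin 3 ⊕ {a // a ∈ M}) → MvPolynomial (CVar σ) O :=
  Sum.elim (fun l => emb (pderiv l F) - C ϖ ^ k * cv O σ * cw O l)
    (Sum.elim ![cv O σ * ct O σ - C ϖ, cw O l₀ - 1, strictF U β k e] fun a => cw O a.1)

theorem crelM_sum_notMem {σ κ : Type} [Fintype σ] [DecidableEq σ] [Field κ] (M : Finset σ)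
    (f : σ → κ) (hf : ∀ a ∈ M, f a = 0) : ∑ a, f a = ∑ a : {a // a ∉ M}, f a.1 := by
  have h1 : ∑ a, f a = ∑ a ∈ Finset.univ.filter (fun a => a ∉ M), f a := by
    rw [Finset.sum_filter]
    refine Finset.sum_congr rfl fun a _ => ?_
    by_cases ha : a ∈ M
    · rw [if_neg (not_not.mpr ha), hf a ha]
    · rw [if_pos ha]
  rw [h1]
  exact (Finset.sum_subtype _ (by simp) f)

set_option maxHeartbeats 2000000 in
theorem crelM_indep {O : Type} [CommRing O] [IsDomain O] [IsDiscreteValuationRing O] {σ : Type}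
    [Fintype σ] [DecidableEq σ] {ϖ : O} {F : MvPolynomial σ O} {l₀ : σ}
    {U : MvPolynomial σ O} {β : Matrix σ σ (MvPolynomial σ O)} {k e : ℕ}
    (hϖ : Irreducible ϖ) (he : 1 ≤ e) (M : Finset σ) (hl₀ : l₀ ∉ M)
    (Q : Ideal (MvPolynomial (CVar σ) O)) [hQ : Q.IsPrime] (hpQ : C ϖ ∈ Q)
    (hrel : ∀ i, crelM ϖ F l₀ U β k e M i ∈ Q) (hy : ∀ l, emb (pderiv l F) ∈ Q)
    (hU : emb U ∉ Q) (hdet : emb (Matrix.of fun i j => pderiv i (pderiv j F)).det ∉ Q)
    (hβ : emb ((β + βᵀ).submatrix (fun a : {a // a ∉ M} => a.1) fun a => a.1).det ∉ Q)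
    {s : MvPolynomial (CVar σ) O} (hs : s ∉ Q)
    (c : σ ⊕ (Fin 3 ⊕ {a // a ∈ M}) → MvPolynomial (CVar σ) O)
    (h : s * ∑ i, c i * crelM ϖ F l₀ U β k e M i ∈ Q ^ 2) : ∀ i, c i ∈ Q := by
  let κ := FractionRing (MvPolynomial (CVar σ) O ⧸ Q)
  let φ : MvPolynomial (CVar σ) O →+* κ :=
    (algebraMap (MvPolynomial (CVar σ) O ⧸ Q) κ).comp (Ideal.Quotient.mk Q)
  have hφ : ∀ x, φ x = 0 ↔ x ∈ Q := by
    intro x
    simp only [φ, RingHom.comp_apply]
    rw [FaithfulSMul.algebraMap_eq_zero_iff, Ideal.Quotient.eq_zero_iff_mem]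
  have hφp : φ (C ϖ) = 0 := (hφ _).mpr hpQ
  have hφrel : ∀ i, φ (crelM ϖ F l₀ U β k e M i) = 0 := fun i => (hφ _).mpr (hrel i)
  -- the equations given by the derivations
  have hD : ∀ z : CVar σ, ∑ i, φ (c i) * φ (pderiv z (crelM ϖ F l₀ U β k e M i)) = 0 := by
    intro z
    have h1 := (hφ _).mpr (derivation_mem Q (pderiv z) hs h)
    rw [map_sum, map_sum] at h1
    rw [← h1]
    refine Finset.sum_congr rfl fun i _ => ?_
    rw [Derivation.leibniz, smul_eq_mul, smul_eq_mul, map_add, map_mul, map_mul, hφrel, zero_mul,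
      add_zero]
  -- names
  obtain ⟨v, hv⟩ : ∃ v, v = φ (cv O σ) := ⟨_, rfl⟩
  obtain ⟨t, ht⟩ : ∃ t, t = φ (ct O σ) := ⟨_, rfl⟩
  obtain ⟨w, hw⟩ : ∃ w : σ → κ, w = fun j => φ (cw O j) := ⟨_, rfl⟩
  obtain ⟨u, hu⟩ : ∃ u, u = φ (emb U) := ⟨_, rfl⟩
  obtain ⟨B, hB⟩ : ∃ B : Matrix σ σ κ, B = β.map fun x => φ (emb x) := ⟨_, rfl⟩
  obtain ⟨H, hH⟩ : ∃ H : Matrix σ σ κ, H = (Matrix.of fun i j => pderiv i (pderiv j F)).map
    fun x => φ (emb x) := ⟨_, rfl⟩
  have hu0 : u ≠ 0 := by rw [hu]; exact (hφ _).not.mpr hU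
  have hH0 : H.det ≠ 0 := by
    have h3 := (hφ _).not.mpr hdet
    rw [hH]
    intro h4
    apply h3
    rw [← h4]
    exact RingHom.map_det (φ.comp (emb : MvPolynomial σ O →ₐ[O] _).toRingHom) _
  obtain ⟨B', hB'⟩ : ∃ B' : Matrix {a // a ∉ M} {a // a ∉ M} κ,
      B' = B.submatrix (fun a => a.1) fun a => a.1 := ⟨_, rfl⟩
  obtain ⟨w', hw'⟩ : ∃ w' : {a // a ∉ M} → κ, w' = fun a => w a.1 := ⟨_, rfl⟩
  have hB0 : (B' + B'ᵀ).det ≠ 0 := by
    have h3 := (hφ _).not.mpr hβ
    rw [hB', hB]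
    intro h4
    apply h3
    rw [← h4]
    have h5 := RingHom.map_det (φ.comp (emb : MvPolynomial σ O →ₐ[O] _).toRingHom)
      ((β + βᵀ).submatrix (fun a : {a // a ∉ M} => a.1) fun a => a.1)
    refine h5.trans ?_
    congr 1
    ext a b
    simp only [RingHom.mapMatrix_apply, Matrix.map_apply, Matrix.submatrix_apply,
      Matrix.add_apply, Matrix.transpose_apply, map_add]
    rfl
  have hwM : ∀ a ∈ M, w a = 0 := by
    intro a ha
    rw [hw]
    exact hφrel (Sum.inr (Sum.inr ⟨a, ha⟩))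
  have hsum : ∀ f : σ → κ, (∀ a ∈ M, f a = 0) → ∑ a, f a = ∑ a : {a // a ∉ M}, f a.1 := by
    intro f hf
    exact crelM_sum_notMem M f hf
  have hqB : qval B w = qval B' w' := by
    rw [qval, qval, hsum _ fun a ha => Finset.sum_eq_zero fun j _ => by
      rw [hwM a ha, zero_mul, mul_zero]]
    refine Finset.sum_congr rfl fun a _ => ?_
    rw [hsum _ fun b hb => by rw [hwM b hb, mul_zero, mul_zero]]
    rw [hB', hw']
    rfl
  have hBw : ∀ j : {a // a ∉ M}, ((B + Bᵀ) *ᵥ w) j.1 = ((B' + B'ᵀ) *ᵥ w') j := by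
    intro j
    rw [mulVec, mulVec, dotProduct, dotProduct,
      hsum _ fun b hb => by rw [hwM b hb, mul_zero]]
    rw [hB', hw']
    rfl
  have hq : φ (qpart β) = qval B w := by
    rw [phi_qpart, hB, hw]
  have r0 := hφrel (Sum.inr (Sum.inl 0))
  have r1 := hφrel (Sum.inr (Sum.inl 1))
  have r2 := hφrel (Sum.inr (Sum.inl 2))
  have rl := fun l => hφrel (Sum.inl l)
  simp only [crelM, Sum.elim_inr, Sum.elim_inl, Matrix.cons_val_zero, Matrix.cons_val_one,
    Matrix.cons_val] at r0 r1 r2 rl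
  rw [map_sub, map_mul, hφp, sub_zero, ← hv, ← ht] at r0
  rw [map_sub, map_one, sub_eq_zero] at r1
  have hwl : w l₀ = 1 := by rw [hw]; exact r1
  rw [strictF_eq, map_add, map_mul, map_mul, map_mul, map_mul, map_pow, map_pow, map_pow,
    map_pow, hq, ← hu, ← hv, ← ht] at r2
  have hyl : ∀ l, φ (emb (pderiv l F)) = 0 := fun l => (hφ _).mpr (hy l)
  have hpkv : φ (C ϖ) ^ k * v = 0 := by
    have h3 := rl l₀
    rw [map_sub, hyl, zero_sub, neg_eq_zero, map_mul, map_mul, map_pow, r1, mul_one, ← hv] at h3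
    exact h3
  -- the derivations
  have dx : ∀ j, ∑ l, φ (c (Sum.inl l)) * H j l + φ (c (Sum.inr (Sum.inl 2))) *
      φ (pderiv (Sum.inl j) (strictF U β k e)) = 0 := by
    intro j
    have h3 := hD (Sum.inl j)
    rw [Fintype.sum_sum_type, Fintype.sum_sum_type, Fin.sum_univ_three] at h3
    simp only [crelM, Sum.elim_inr, Sum.elim_inl, Matrix.cons_val_zero, Matrix.cons_val_one,
      Matrix.cons_val] at h3
    have e0 : pderiv (Sum.inl j) (cv O σ * ct O σ - C ϖ) = 0 := by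
      rw [map_sub, Derivation.leibniz, pderiv_C, cv, ct, pderiv_X_of_ne (by simp),
        pderiv_X_of_ne (by simp)]
      simp
    have e1 : pderiv (Sum.inl j) (cw O l₀ - 1) = 0 := by
      rw [map_sub, cw, pderiv_X_of_ne (by simp), pderiv_one, sub_zero]
    have e2 : ∀ l, φ (pderiv (Sum.inl j) (emb (pderiv l F) - C ϖ ^ k * cv O σ * cw O l)) =
        H j l := by
      intro l
      have e3 : pderiv (Sum.inl j) (C ϖ ^ k * cv O σ * cw O l) = 0 := by
        rw [← map_pow, mul_assoc, pderiv_C_mul, Derivation.leibniz, cv, cw,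
          pderiv_X_of_ne (by simp), pderiv_X_of_ne (by simp)]
        simp
      rw [map_sub, e3, sub_zero, pderiv_emb, hH]
      rfl
    have e4 : ∀ a : {a // a ∈ M}, φ (pderiv (Sum.inl j) (cw O a.1)) = 0 := by
      intro a
      rw [cw, pderiv_X_of_ne (by simp), map_zero]
    rw [e0, e1] at h3
    simp only [e2, e4, map_zero, mul_zero, zero_add, add_zero, Finset.sum_const_zero] at h3
    exact h3
  have dw : ∀ j, φ (c (Sum.inr (Sum.inl 1))) * (if j = l₀ then 1 else 0) + φ (c (Sum.inr (Sum.inl 2))) *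
      (v ^ (2 * k + 2 - e) * t ^ (2 * k - e) * ((B + Bᵀ) *ᵥ w) j) +
      ∑ a : {a // a ∈ M}, φ (c (Sum.inr (Sum.inr a))) * (if j = a.1 then 1 else 0) = 0 := by
    intro j
    have h3 := hD (Sum.inr (Sum.inl j))
    rw [Fintype.sum_sum_type, Fintype.sum_sum_type, Fin.sum_univ_three] at h3
    simp only [crelM, Sum.elim_inr, Sum.elim_inl, Matrix.cons_val_zero, Matrix.cons_val_one,
      Matrix.cons_val] at h3
    have e0 : pderiv (Sum.inr (Sum.inl j)) (cv O σ * ct O σ - C ϖ) = 0 := by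
      rw [map_sub, Derivation.leibniz, pderiv_C, dw_cv, dw_ct]
      simp
    have e1 : φ (pderiv (Sum.inr (Sum.inl j)) (cw O l₀ - 1)) = if j = l₀ then 1 else 0 := by
      rw [map_sub, dw_cw, pderiv_one, sub_zero]
      split_ifs <;> simp
    have e2 : ∀ l, φ (pderiv (Sum.inr (Sum.inl j)) (emb (pderiv l F) -
        C ϖ ^ k * cv O σ * cw O l)) = 0 := by
      intro l
      rw [map_sub, pderiv_inr_emb, ← map_pow, mul_assoc, pderiv_C_mul, Derivation.leibniz, dw_cv,
        dw_cw, smul_zero, add_zero, zero_sub, map_neg, map_mul, smul_eq_mul, map_mul, map_pow, map_pow,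
        ← hv, ← mul_assoc, hpkv, zero_mul, neg_zero]
    have e3 : φ (pderiv (Sum.inr (Sum.inl j)) (strictF U β k e)) =
        v ^ (2 * k + 2 - e) * t ^ (2 * k - e) * ((B + Bᵀ) *ᵥ w) j := by
      rw [dw_strictF, map_mul, map_mul, map_pow, map_pow, ← hv, ← ht, map_sum, mulVec, dotProduct,
        hw, hB]
      congr 1
      refine Finset.sum_congr rfl fun l _ => ?_
      rw [map_mul, Matrix.add_apply, Matrix.add_apply, Matrix.transpose_apply,
        Matrix.transpose_apply, map_add, map_add]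
      rfl
    have e4 : ∀ a : {a // a ∈ M}, φ (pderiv (Sum.inr (Sum.inl j)) (cw O a.1)) =
        if j = a.1 then 1 else 0 := by
      intro a
      rw [dw_cw]
      split_ifs <;> simp
    rw [e0, e1, e3] at h3
    simp only [e2, e4, map_zero, mul_zero, zero_add, Finset.sum_const_zero] at h3
    exact h3
  have dt : φ (c (Sum.inr (Sum.inl 0))) * v + φ (c (Sum.inr (Sum.inl 2))) * (u * v ^ (e - (2 * k + 2)) *
      ((e - 2 * k : ℕ) * t ^ (e - 2 * k - 1)) +
      v ^ (2 * k + 2 - e) * ((2 * k - e : ℕ) * t ^ (2 * k - e - 1)) * qval B w) = 0 := by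
    have h3 := hD (Sum.inr (Sum.inr false))
    rw [Fintype.sum_sum_type, Fintype.sum_sum_type, Fin.sum_univ_three] at h3
    simp only [crelM, Sum.elim_inr, Sum.elim_inl, Matrix.cons_val_zero, Matrix.cons_val_one,
      Matrix.cons_val] at h3
    have e0 : pderiv (Sum.inr (Sum.inr false)) (cv O σ * ct O σ - C ϖ) = cv O σ := by
      rw [map_sub, Derivation.leibniz, pderiv_C, dt_cv, dt_ct]
      simp
    have e1 : pderiv (Sum.inr (Sum.inr false)) (cw O l₀ - 1) = 0 := by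
      rw [map_sub, db_cw, pderiv_one, sub_zero]
    have e2 : ∀ l, pderiv (Sum.inr (Sum.inr false)) (emb (pderiv l F) -
        C ϖ ^ k * cv O σ * cw O l) = 0 := by
      intro l
      rw [map_sub, pderiv_inr_emb, ← map_pow, mul_assoc, pderiv_C_mul, Derivation.leibniz, dt_cv,
        db_cw]
      simp
    have e4 : ∀ a : {a // a ∈ M}, pderiv (Sum.inr (Sum.inr false)) (cw O a.1) = 0 :=
      fun a => db_cw _ _
    have e3 : φ (pderiv (Sum.inr (Sum.inr false)) (strictF U β k e)) =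
        u * v ^ (e - (2 * k + 2)) * ((e - 2 * k : ℕ) * t ^ (e - 2 * k - 1)) +
      v ^ (2 * k + 2 - e) * ((2 * k - e : ℕ) * t ^ (2 * k - e - 1)) * qval B w := by
      rw [dt_strictF]
      simp only [map_add, map_mul, map_pow, map_natCast, ← hv, ← ht, ← hu, hq]
    rw [e0, e1, e3, ← hv] at h3
    simp only [e2, e4, map_zero, mul_zero, zero_add, add_zero, Finset.sum_const_zero] at h3
    exact h3
  have dv : φ (c (Sum.inr (Sum.inl 0))) * t - φ (C ϖ) ^ k * ∑ l, φ (c (Sum.inl l)) * w l +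
      φ (c (Sum.inr (Sum.inl 2))) * (u * ((e - (2 * k + 2) : ℕ) * v ^ (e - (2 * k + 2) - 1)) *
      t ^ (e - 2 * k) + ((2 * k + 2 - e : ℕ) * v ^ (2 * k + 2 - e - 1)) * t ^ (2 * k - e) *
        qval B w) = 0 := by
    have h3 := hD (Sum.inr (Sum.inr true))
    rw [Fintype.sum_sum_type, Fintype.sum_sum_type, Fin.sum_univ_three] at h3
    simp only [crelM, Sum.elim_inr, Sum.elim_inl, Matrix.cons_val_zero, Matrix.cons_val_one,
      Matrix.cons_val] at h3
    have e0 : pderiv (Sum.inr (Sum.inr true)) (cv O σ * ct O σ - C ϖ) = ct O σ := by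
      rw [map_sub, Derivation.leibniz, pderiv_C, dv_cv, dv_ct]
      simp
    have e1 : pderiv (Sum.inr (Sum.inr true)) (cw O l₀ - 1) = 0 := by
      rw [map_sub, db_cw, pderiv_one, sub_zero]
    have e2 : ∀ l, φ (pderiv (Sum.inr (Sum.inr true)) (emb (pderiv l F) -
        C ϖ ^ k * cv O σ * cw O l)) = - (φ (C ϖ) ^ k * w l) := by
      intro l
      rw [map_sub, pderiv_inr_emb, ← map_pow, mul_assoc, pderiv_C_mul, Derivation.leibniz, dv_cv,
        db_cw, hw]
      simp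
    have e4 : ∀ a : {a // a ∈ M}, pderiv (Sum.inr (Sum.inr true)) (cw O a.1) = 0 :=
      fun a => db_cw _ _
    have e3 : φ (pderiv (Sum.inr (Sum.inr true)) (strictF U β k e)) =
        u * ((e - (2 * k + 2) : ℕ) * v ^ (e - (2 * k + 2) - 1)) *
      t ^ (e - 2 * k) + ((2 * k + 2 - e : ℕ) * v ^ (2 * k + 2 - e - 1)) * t ^ (2 * k - e) *
        qval B w := by
      rw [dv_strictF]
      simp only [map_add, map_mul, map_pow, map_natCast, ← hv, ← ht, ← hu, hq]
    rw [e0, e1, e3, ← ht] at h3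
    simp only [e2, e4, map_zero, mul_zero, add_zero, Finset.sum_const_zero] at h3
    rw [← h3, Finset.mul_sum]
    have f4 : ∑ l, φ (c (Sum.inl l)) * -(φ (C ϖ) ^ k * w l) =
        - ∑ l, φ (C ϖ) ^ k * (φ (c (Sum.inl l)) * w l) := by
      rw [← Finset.sum_neg_distrib]
      refine Finset.sum_congr rfl fun l _ => ?_
      ring
    rw [f4]
    ring
  -- conclusion
  have hcF : φ (c (Sum.inr (Sum.inl 2))) = 0 := by
    have hwl' : w' ⟨l₀, hl₀⟩ = 1 := by rw [hw']; exact hwl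
    have r2' := r2
    have dt' := dt
    rw [hqB] at r2' dt'
    refine core_eq_zero_all (c₀ := φ (c (Sum.inr (Sum.inl 0)))) hB0 hwl' hu0 r0 he r2' ?_ dt' ?_
    · intro j hj
      have h3 := dw j.1
      have hj' : j.1 ≠ l₀ := fun h4 => hj (Subtype.ext h4)
      have h5 : ∑ a : {a // a ∈ M}, φ (c (Sum.inr (Sum.inr a))) *
          (if j.1 = a.1 then (1 : κ) else 0) = 0 := by
        refine Finset.sum_eq_zero fun a _ => ?_
        have h7 : j.1 ≠ a.1 := fun h6 => j.2 (by rw [h6]; exact a.2)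
        rw [if_neg h7, mul_zero]
      rw [if_neg hj', mul_zero, zero_add, h5, add_zero, hBw] at h3
      exact h3
    · intro hk
      have h3 := dv
      rw [hφp, zero_pow (by omega), zero_mul, sub_zero, hqB] at h3
      exact h3
  have hcM : ∀ a : {a // a ∈ M}, φ (c (Sum.inr (Sum.inr a))) = 0 := by
    intro a
    have h3 := dw a.1
    have h4 : a.1 ≠ l₀ := fun h5 => hl₀ (h5 ▸ a.2)
    rw [if_neg h4, mul_zero, hcF, zero_mul, zero_add, zero_add, Finset.sum_eq_single a, if_pos rfl,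
      mul_one] at h3
    · exact h3
    · intro b _ hb
      rw [if_neg (fun h6 => hb (Subtype.ext h6.symm)), mul_zero]
    · intro h6
      exact absurd (Finset.mem_univ a) h6
  have hcl : ∀ l, φ (c (Sum.inl l)) = 0 := by
    have h3 : H *ᵥ (fun l => φ (c (Sum.inl l))) = 0 := by
      funext j
      have h4 := dx j
      rw [hcF, zero_mul, add_zero] at h4
      rw [mulVec, dotProduct, Pi.zero_apply, ← h4]
      exact Finset.sum_congr rfl fun l _ => mul_comm _ _
    have h4 := Matrix.eq_zero_of_mulVec_eq_zero hH0 h3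
    exact fun l => congrFun h4 l
  have hc1 : φ (c (Sum.inr (Sum.inl 1))) = 0 := by
    have h3 := dw l₀
    have h5 : ∑ a : {a // a ∈ M}, φ (c (Sum.inr (Sum.inr a))) *
        (if l₀ = a.1 then (1 : κ) else 0) = 0 := by
      refine Finset.sum_eq_zero fun a _ => ?_
      rw [hcM, zero_mul]
    rw [hcF, zero_mul, add_zero, if_pos rfl, mul_one, h5, add_zero] at h3
    exact h3
  have hc0 : φ (c (Sum.inr (Sum.inl 0))) = 0 := by
    by_contra hc0
    rw [hcF, zero_mul, add_zero] at dt dv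
    have hv0 : v = 0 := (mul_eq_zero.mp dt).resolve_left hc0
    have ht0 : t = 0 := by
      have h3 : ∑ l, φ (c (Sum.inl l)) * w l = 0 :=
        Finset.sum_eq_zero fun l _ => by rw [hcl, zero_mul]
      rw [h3, mul_zero, sub_zero] at dv
      exact (mul_eq_zero.mp dv).resolve_left hc0
    have hvQ : cv O σ ∈ Q := (hφ _).mp (by rw [← hv, hv0])
    have htQ : ct O σ ∈ Q := (hφ _).mp (by rw [← ht, ht0])
    have hsq : ∀ x ∈ Q, ∀ y ∈ Q, x * y ∈ Q ^ 2 := fun x hx y hy => by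
      rw [pow_two]; exact Ideal.mul_mem_mul hx hy
    rw [Fintype.sum_sum_type, Fintype.sum_sum_type, Fin.sum_univ_three] at h
    have h3 : s * (∑ l, c (Sum.inl l) * crelM ϖ F l₀ U β k e M (Sum.inl l) +
        c (Sum.inr (Sum.inl 0)) * (cv O σ * ct O σ) +
        c (Sum.inr (Sum.inl 1)) * crelM ϖ F l₀ U β k e M (Sum.inr (Sum.inl 1)) +
        c (Sum.inr (Sum.inl 2)) * crelM ϖ F l₀ U β k e M (Sum.inr (Sum.inl 2)) +
        ∑ a : {a // a ∈ M}, c (Sum.inr (Sum.inr a)) *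
          crelM ϖ F l₀ U β k e M (Sum.inr (Sum.inr a))) ∈ Q ^ 2 := by
      apply Ideal.mul_mem_left
      refine Ideal.add_mem _ (Ideal.add_mem _ (Ideal.add_mem _ (Ideal.add_mem _
        (Ideal.sum_mem _ fun l _ => ?_)
        (Ideal.mul_mem_left _ _ (hsq _ hvQ _ htQ))) ?_) ?_) (Ideal.sum_mem _ fun a _ => ?_)
      · exact hsq _ ((hφ _).mp (hcl l)) _ (hrel _)
      · exact hsq _ ((hφ _).mp hc1) _ (hrel _)
      · exact hsq _ ((hφ _).mp hcF) _ (hrel _)
      · exact hsq _ ((hφ _).mp (hcM a)) _ (hrel _)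
    have h4 := Ideal.sub_mem _ h3 h
    have h5 : s * (∑ l, c (Sum.inl l) * crelM ϖ F l₀ U β k e M (Sum.inl l) +
        c (Sum.inr (Sum.inl 0)) * (cv O σ * ct O σ) +
        c (Sum.inr (Sum.inl 1)) * crelM ϖ F l₀ U β k e M (Sum.inr (Sum.inl 1)) +
        c (Sum.inr (Sum.inl 2)) * crelM ϖ F l₀ U β k e M (Sum.inr (Sum.inl 2)) +
        ∑ a : {a // a ∈ M}, c (Sum.inr (Sum.inr a)) *
          crelM ϖ F l₀ U β k e M (Sum.inr (Sum.inr a))) -
        s * (∑ l, c (Sum.inl l) * crelM ϖ F l₀ U β k e M (Sum.inl l) +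
        (c (Sum.inr (Sum.inl 0)) * crelM ϖ F l₀ U β k e M (Sum.inr (Sum.inl 0)) +
        c (Sum.inr (Sum.inl 1)) * crelM ϖ F l₀ U β k e M (Sum.inr (Sum.inl 1)) +
        c (Sum.inr (Sum.inl 2)) * crelM ϖ F l₀ U β k e M (Sum.inr (Sum.inl 2)) +
        ∑ a : {a // a ∈ M}, c (Sum.inr (Sum.inr a)) *
          crelM ϖ F l₀ U β k e M (Sum.inr (Sum.inr a)))) =
        s * c (Sum.inr (Sum.inl 0)) * C ϖ := by
      have h6 : crelM ϖ F l₀ U β k e M (Sum.inr (Sum.inl 0)) = cv O σ * ct O σ - C ϖ := rfl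
      rw [h6]
      ring
    rw [h5] at h4
    exact mul_C_notMem_sq hϖ Q hpQ (hQ.mul_notMem hs ((hφ _).not.mp hc0)) h4
  intro i
  rcases i with l | i | a
  · exact (hφ _).mp (hcl l)
  · fin_cases i
    · exact (hφ _).mp hc0
    · exact (hφ _).mp hc1
    · exact (hφ _).mp hcF
  · exact (hφ _).mp (hcM a)


end Pool.Agent.Lib.MP_6a3dac_ag.Sys
end

section

/-!
# Regularity of the charts over nondegenerate double points, with constraints
-/

set_option autoImplicit false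

namespace Pool.Agent.Lib.MP_6a3dac_ag.Sys

open MvPolynomial Matrix IsLocalRing
open Pool.Agent.Lib.MP_6a3dac_ag.DNF

/-- The equations of the chart without constraints lie in the ideal of the equations. -/
theorem preI_le_crelM {O : Type} [CommRing O] {σ : Type} [Fintype σ] {ϖ : O}
    {F : MvPolynomial σ O} {l₀ : σ} {U : MvPolynomial σ O} {β : Matrix σ σ (MvPolynomial σ O)}
    {k e : ℕ} (M : Finset σ) :
    preI ϖ F l₀ k ≤ Ideal.span (Set.range (crelM ϖ F l₀ U β k e M)) := by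
  rw [preI, Ideal.span_le]
  rintro x (⟨l, rfl⟩ | hx)
  · exact Ideal.subset_span ⟨Sum.inl l, rfl⟩
  · rcases hx with rfl | hx
    · exact Ideal.subset_span ⟨Sum.inr (Sum.inl 0), rfl⟩
    · rw [Set.mem_singleton_iff] at hx
      rw [hx]
      exact Ideal.subset_span ⟨Sum.inr (Sum.inl 1), rfl⟩

theorem isRegularLocalRing_of_doubleM {O : Type} [CommRing O] [IsDomain O]
    [IsDiscreteValuationRing O] {σ : Type} [Fintype σ] [DecidableEq σ] {ϖ : O}
    {F : MvPolynomial σ O} {l₀ : σ} {U s : MvPolynomial σ O} {β : Matrix σ σ (MvPolynomial σ O)}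
    {k e : ℕ} {D : Type} [CommRing D] [IsDomain D] [IsLocalRing D] (φ : MvPolynomial σ O →+* D)
    (hϖ : Irreducible ϖ) (he : 1 ≤ e) (M : Finset σ) (hl₀ : l₀ ∉ M)
    (hφF : φ F = 0) (hφM : ∀ a ∈ M, φ (pderiv a F) = 0)
    (hker : ∀ g, φ g = 0 → ∃ z, φ z ≠ 0 ∧
      z * g ∈ Ideal.span (insert F ((fun a => pderiv a F) '' (M : Set σ))))
    (hchar : ∀ m : O, m ≠ 0 → φ (C m) ≠ 0) (hpD : φ (C ϖ) ∈ maximalIdeal D)
    (hy : ∀ l, φ (pderiv l F) ∈ maximalIdeal D) (hs : IsUnit (φ s)) (hU : IsUnit (φ U))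
    (hdet : IsUnit (φ (Matrix.of fun i j => pderiv i (pderiv j F)).det))
    (hβ : IsUnit (φ ((β + βᵀ).submatrix (fun a : {a // a ∉ M} => a.1) fun a => a.1).det))
    (hF : s * F = U * C ϖ ^ e + ∑ i, ∑ j, β i j * (pderiv i F * pderiv j F))
    {v t : D} {w : σ → D} (hv : φ (C ϖ) ^ k * v = φ (pderiv l₀ F)) (ht : v * t = φ (C ϖ))
    (hw : ∀ l, φ (pderiv l₀ F) * w l = φ (pderiv l F)) (hy0 : φ (pderiv l₀ F) ≠ 0)
    (hgen : ∀ R' : Subring D, Dom R' → (∀ g, φ g ∈ R') → v ∈ R' → t ∈ R' → (∀ l, w l ∈ R') →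
      R' = ⊤) : IsRegularLocalRing D := by
  let δ : MvPolynomial (CVar σ) O →+* D := eval₂Hom (φ.comp C)
    (Sum.elim (fun j => φ (X j)) (Sum.elim w fun b => if b then v else t))
  have hδC : ∀ m : O, δ (C m) = φ (C m) := fun m => by
    simp only [δ, coe_eval₂Hom, eval₂_C]
    rfl
  have hδemb : ∀ q, δ (emb q) = φ q := by
    intro q
    have : (δ.comp (emb : MvPolynomial σ O →ₐ[O] _).toRingHom) = φ := by
      apply MvPolynomial.ringHom_ext
      · intro r
        change δ (emb (C r)) = φ (C r)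
        rw [emb, rename_C, hδC]
      · intro i
        change δ (emb (X i)) = φ (X i)
        rw [emb, rename_X]
        simp only [δ, coe_eval₂Hom, eval₂_X, Sum.elim_inl]
    exact congrArg (fun f : MvPolynomial σ O →+* D => f q) this
  have hδw : ∀ l, δ (cw O l) = w l := fun l => by
    simp only [δ, cw, coe_eval₂Hom, eval₂_X, Sum.elim_inl, Sum.elim_inr]
  have hδv : δ (cv O σ) = v := by
    simp [δ, cv]
  have hδt : δ (ct O σ) = t := by
    simp [δ, ct]
  have hδp : δ (C ϖ) = φ (C ϖ) := hδC ϖ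
  have hp0 : φ (C ϖ) ≠ 0 := hchar ϖ hϖ.ne_zero
  have hv0 : v ≠ 0 := by
    rintro rfl
    rw [zero_mul] at ht
    exact hp0 ht.symm
  have ht0 : t ≠ 0 := by
    rintro rfl
    rw [mul_zero] at ht
    exact hp0 ht.symm
  have hw0 : w l₀ = 1 := by
    apply mul_left_cancel₀ hy0
    rw [hw, mul_one]
  have hwM : ∀ a ∈ M, w a = 0 := by
    intro a ha
    apply mul_left_cancel₀ hy0
    rw [hw, mul_zero, hφM a ha]
  have hpre : preI ϖ F l₀ k ≤ RingHom.ker δ := by
    rw [preI, Ideal.span_le]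
    rintro x (⟨l, rfl⟩ | hx)
    · change δ _ = 0
      rw [map_sub, map_mul, map_mul, map_pow, hδemb, hδp, hδv, hδw, hv, hw, sub_self]
    · rcases hx with rfl | hx
      · change δ _ = 0
        rw [map_sub, map_mul, hδv, hδt, hδp, ht, sub_self]
      · rw [Set.mem_singleton_iff] at hx
        rw [hx]
        change δ _ = 0
        rw [map_sub, map_one, hδw, hw0, sub_self]
  have hid := strict_identity (l₀ := l₀) (k := k) hF
  have hδF : δ (strictF U β k e) = 0 := by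
    have h1 : δ _ = 0 := hpre hid
    rw [map_sub, map_mul, map_mul, hδemb F, hφF, mul_zero, sub_zero, map_pow, hδemb] at h1
    exact (mul_eq_zero.mp h1).resolve_left (pow_ne_zero _ hy0)
  have hrel : ∀ i, δ (crelM ϖ F l₀ U β k e M i) = 0 := by
    rintro (l | i | a)
    · exact hpre (Ideal.subset_span (Or.inl ⟨l, rfl⟩))
    · fin_cases i
      · exact hpre (Ideal.subset_span (Or.inr (Or.inl rfl)))
      · exact hpre (Ideal.subset_span (Or.inr (Or.inr rfl)))
      · exact hδF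
    · change δ (cw O a.1) = 0
      rw [hδw, hwM _ a.2]
  let E := Fintype.equivFin (σ ⊕ (Fin 3 ⊕ {a // a ∈ M}))
  have hrange : Set.range (fun i => crelM ϖ F l₀ U β k e M (E.symm i)) =
      Set.range (crelM ϖ F l₀ U β k e M) := by
    ext x
    constructor
    · rintro ⟨i, rfl⟩
      exact ⟨E.symm i, rfl⟩
    · rintro ⟨i, rfl⟩
      exact ⟨E i, by simp⟩
  have hunit : ∀ x, x ∉ Ideal.comap δ (maximalIdeal D) ↔ IsUnit (δ x) := by
    intro x
    rw [Ideal.mem_comap, IsLocalRing.mem_maximalIdeal, mem_nonunits_iff, not_not]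
  refine isRegularLocalRing_of_chart δ (fun i => crelM ϖ F l₀ U β k e M (E.symm i))
    (fun i => hrel _) ?_ ?_ ?_
  · intro x hx c hc i
    have hQ : (Ideal.comap δ (maximalIdeal D)).IsPrime := Ideal.IsPrime.comap δ
    have h1 := crelM_indep (ϖ := ϖ) (F := F) (l₀ := l₀) (U := U) (β := β) (k := k) hϖ he
      M hl₀ (Ideal.comap δ (maximalIdeal D)) (by rw [Ideal.mem_comap, hδp]; exact hpD)
      (fun i => by rw [Ideal.mem_comap, hrel]; exact Ideal.zero_mem _)
      (fun l => by rw [Ideal.mem_comap, hδemb]; exact hy l)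
      ((hunit _).mpr (by rw [hδemb]; exact hU)) ((hunit _).mpr (by rw [hδemb]; exact hdet))
      ((hunit _).mpr (by rw [hδemb]; exact hβ)) ((hunit _).mpr hx) (fun i => c (E i)) (by
        have h2 : ∑ i, c (E i) * crelM ϖ F l₀ U β k e M i =
            ∑ i, c i * crelM ϖ F l₀ U β k e M (E.symm i) := by
          rw [← Equiv.sum_comp E]
          simp
        rw [h2]
        exact hc) (E.symm i)
    simpa using h1
  · intro z
    have h1 : locIn δ = ⊤ := by
      refine hgen (locIn δ) (dom_locIn δ) ?_ ?_ ?_ ?_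
      · intro g
        rw [← hδemb]
        exact map_mem_locIn δ _
      · rw [← hδv]; exact map_mem_locIn δ _
      · rw [← hδt]; exact map_mem_locIn δ _
      · intro l
        rw [← hδw]; exact map_mem_locIn δ _
    have h2 : z ∈ locIn δ := by rw [h1]; exact Subring.mem_top z
    obtain ⟨a, b, h3, h4⟩ := h2
    exact ⟨a, b, h3, h4⟩
  · intro g hg
    rw [hrange]
    set J : Ideal (MvPolynomial (CVar σ) O) :=
      Ideal.span (Set.range (crelM ϖ F l₀ U β k e M)) with hJ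
    obtain ⟨N, g₀, hg₀⟩ := exists_clear (ϖ := ϖ) (F := F) (l₀ := l₀) (k := k) g
    have hφg₀ : φ g₀ = 0 := by
      have h1 : δ _ = 0 := hpre hg₀
      rw [map_sub, map_mul, hg, mul_zero, zero_sub, neg_eq_zero, hδemb] at h1
      exact h1
    obtain ⟨z, hz, hzg⟩ := hker g₀ hφg₀
    have hpreJ : preI ϖ F l₀ k ≤ J := preI_le_crelM M
    set m' : MvPolynomial (CVar σ) O :=
      emb s * (cv O σ ^ (2 * k + 2 - e) * ct O σ ^ (2 * k - e)) with hm'
    have hmF : m' * emb F ∈ J := by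
      have h1 := hpreJ hid
      have h2 : m' * emb F = emb (pderiv l₀ F) ^ 2 * strictF U β k e -
          (emb (pderiv l₀ F) ^ 2 * strictF U β k e - m' * emb F) := by ring
      rw [h2]
      exact Ideal.sub_mem _ (Ideal.mul_mem_left _ _
        (Ideal.subset_span ⟨Sum.inr (Sum.inl 2), rfl⟩)) h1
    have hmM : ∀ a ∈ M, emb (pderiv a F) ∈ J := by
      intro a ha
      have h1 : emb (pderiv a F) - C ϖ ^ k * cv O σ * cw O a ∈ J :=
        hpreJ (Ideal.subset_span (Or.inl ⟨a, rfl⟩))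
      have h2 : (cw O a : MvPolynomial (CVar σ) O) ∈ J :=
        Ideal.subset_span ⟨Sum.inr (Sum.inr ⟨a, ha⟩), rfl⟩
      have h3 : emb (pderiv a F) = (emb (pderiv a F) - C ϖ ^ k * cv O σ * cw O a) +
          C ϖ ^ k * cv O σ * cw O a := by ring
      rw [h3]
      exact Ideal.add_mem _ h1 (Ideal.mul_mem_left _ _ h2)
    have hspan : ∀ x ∈ Ideal.span (insert F ((fun a => pderiv a F) '' (M : Set σ))),
        m' * emb x ∈ J := by
      intro x hx
      induction hx using Submodule.span_induction with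
      | mem x hx =>
        rcases hx with rfl | ⟨a, ha, rfl⟩
        · exact hmF
        · exact Ideal.mul_mem_left _ _ (hmM a ha)
      | zero => simp
      | add x y _ _ hx hy =>
        rw [map_add, mul_add]
        exact Ideal.add_mem _ hx hy
      | smul a x _ hx =>
        rw [smul_eq_mul, map_mul]
        have : m' * (emb a * emb x) = emb a * (m' * emb x) := by ring
        rw [this]
        exact Ideal.mul_mem_left _ _ hx
    refine ⟨m' * emb z * (C ϖ * emb (pderiv l₀ F)) ^ N, ?_, ?_⟩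
    · rw [hm']
      rw [map_mul, map_mul, map_mul, map_mul, map_pow, map_pow, map_pow, map_mul, hδemb,
        hδemb, hδemb, hδv, hδt, hδp]
      exact mul_ne_zero (mul_ne_zero (mul_ne_zero hs.ne_zero
        (mul_ne_zero (pow_ne_zero _ hv0) (pow_ne_zero _ ht0))) hz) (pow_ne_zero _
        (mul_ne_zero hp0 hy0))
    · have h1 := hspan _ hzg
      rw [map_mul] at h1
      have h3 : m' * emb z * (C ϖ * emb (pderiv l₀ F)) ^ N * g =
          m' * emb z * ((C ϖ * emb (pderiv l₀ F)) ^ N * g - emb g₀) +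
            m' * (emb z * emb g₀) := by ring
      rw [h3]
      exact Ideal.add_mem _ (Ideal.mul_mem_left _ _ (hpreJ hg₀)) h1

end Pool.Agent.Lib.MP_6a3dac_ag.Sys
end

section

/-!
# The local theorem at a nondegenerate double point, with constraints
-/

set_option autoImplicit false

namespace Pool.Agent.Lib.MP_6a3dac_ag.Sys

open MvPolynomial Matrix IsLocalRing
open Pool.Agent.Lib.MP_6a3dac_ag.DNF

theorem isRegularLocalRing_constr {O : Type} [CommRing O] {σ : Type} [Fintype σ] [DecidableEq σ]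
    [IsDomain O] [IsDiscreteValuationRing O] {F : MvPolynomial σ O} {D : Type} [CommRing D]
    [IsDomain D] [IsLocalRing D] (φ : MvPolynomial σ O →+* D) {ϖ : O} (hϖ : Irreducible ϖ)
    (M : Finset σ) (hφF : φ F = 0) (hφM : ∀ a ∈ M, φ (pderiv a F) = 0)
    (hker : ∀ g, φ g = 0 → ∃ z, φ z ≠ 0 ∧
      z * g ∈ Ideal.span (insert F ((fun a => pderiv a F) '' (M : Set σ))))
    (hchar : ∀ m : O, m ≠ 0 → φ (C m) ≠ 0) (hpm : φ (C ϖ) ∈ maximalIdeal D)
    (hy : ∀ l, φ (pderiv l F) ∈ maximalIdeal D)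
    (hdet : IsUnit (φ (Matrix.of fun i j => pderiv i (pderiv j F)).det))
    (hdetM : IsUnit (φ (Matrix.of fun i j : {a // a ∈ M} => pderiv i.1 (pderiv j.1 F)).det))
    {r : ℕ} {c₀ : MvPolynomial σ O} {c : σ → MvPolynomial σ O}
    (hr : C ϖ ^ r = c₀ * F + ∑ j, c j * pderiv j F)
    {Z : Finset D} (hZ : ∀ z, z ∈ Z ↔ ∃ l, φ (pderiv l F) = z) (b : ℕ → D)
    (hb : ∀ j, 1 ≤ j → j ≤ r → b j ≠ 0 ∧ InJ (locIn φ) (φ (C ϖ)) Z j (b j) ∧ b j ∣ φ (C ϖ) ^ j ∧
      ∀ z ∈ Z, b j ∣ z)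
    (hgen : ∀ R' : Subring D, Dom R' → locIn φ ≤ R' →
      (∀ j, 1 ≤ j → j ≤ r → ∀ x, InJ (locIn φ) (φ (C ϖ)) Z j x → ∀ w, b j * w = x → w ∈ R') →
        R' = ⊤) :
    IsRegularLocalRing D := by
  have hp0 : φ (C ϖ) ≠ 0 := hchar ϖ hϖ.ne_zero
  have hpR : φ (C ϖ) ∈ locIn φ := map_mem_locIn φ _
  have hQp : (Ideal.comap φ (maximalIdeal D)).IsPrime := Ideal.IsPrime.comap φ
  have hun : ∀ x, x ∉ Ideal.comap φ (maximalIdeal D) ↔ IsUnit (φ x) := by
    intro x
    rw [Ideal.mem_comap, IsLocalRing.mem_maximalIdeal, mem_nonunits_iff, not_not]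
  have hFQ : F ∈ Ideal.comap φ (maximalIdeal D) := by
    rw [Ideal.mem_comap, hφF]; exact Ideal.zero_mem _
  have hm' : (1 : MvPolynomial σ O) ∉ Ideal.comap φ (maximalIdeal D) :=
    (hun _).mpr (by rw [map_one]; exact isUnit_one)
  obtain ⟨e, he1, he2, s, U, hs, hU, β, hF, hβ⟩ := exists_normal_formM hϖ
    (Ideal.comap φ (maximalIdeal D)) (by rw [Ideal.mem_comap]; exact hpm) hFQ hy
    ((hun _).mpr hdet) hm' (by rw [one_mul]; exact hr)
  have hβM := hβ M ((hun _).mpr hdetM)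
  rcases chart_cases hpR hp0 b hb hgen with ⟨w, hw, hg⟩ | ⟨k, hk, u, huZ, v, t, w, hv, ht, hw, hg⟩
  · exfalso
    have h2 := congrArg φ hF
    rw [map_mul, hφF, mul_zero, map_add, map_mul, map_pow, map_sum] at h2
    have h3 : ∑ i, φ (∑ j, β i j * (pderiv i F * pderiv j F)) =
        φ (C ϖ) ^ e * (φ (C ϖ) ^ (2 * r - e) * ∑ i, ∑ j, φ (β i j) *
          (w (φ (pderiv i F)) * w (φ (pderiv j F)))) := by
      rw [← mul_assoc, ← pow_add, Finset.mul_sum]
      refine Finset.sum_congr rfl fun i _ => ?_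
      rw [map_sum, Finset.mul_sum]
      refine Finset.sum_congr rfl fun j _ => ?_
      have h4 := hw _ ((hZ _).mpr ⟨i, rfl⟩)
      have h5 := hw _ ((hZ _).mpr ⟨j, rfl⟩)
      have h6 : e + (2 * r - e) = r + r := by omega
      rw [map_mul, map_mul, h6, pow_add]
      conv_lhs => rw [← h4, ← h5]
      ring
    rw [h3] at h2
    have h4 : φ (C ϖ) ^ e * (φ U + φ (C ϖ) ^ (2 * r - e) * ∑ i, ∑ j, φ (β i j) *
          (w (φ (pderiv i F)) * w (φ (pderiv j F)))) = 0 := by
      rw [mul_add, mul_comm _ (φ U)]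
      exact h2.symm
    have h5 := (mul_eq_zero.mp h4).resolve_left (pow_ne_zero _ hp0)
    have h6 : φ U ∈ maximalIdeal D := by
      rw [eq_neg_of_add_eq_zero_left h5]
      refine Ideal.neg_mem_iff _ |>.mpr (Ideal.mul_mem_right _ _
        (Ideal.pow_mem_of_mem _ hpm _ (by omega)))
    exact hU h6
  · obtain ⟨l₀, rfl⟩ := (hZ u).mp huZ
    have hv0 : v ≠ 0 := by
      rintro rfl
      rw [zero_mul] at ht
      exact hp0 ht.symm
    have hy0 : φ (pderiv l₀ F) ≠ 0 := by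
      rw [← hv]
      exact mul_ne_zero (pow_ne_zero _ hp0) hv0
    have hl₀ : l₀ ∉ M := fun h => hy0 (hφM l₀ h)
    refine isRegularLocalRing_of_doubleM φ hϖ he1 M hl₀ hφF hφM hker hchar hpm hy
      ((hun _).mp hs) ((hun _).mp hU) hdet ((hun _).mp hβM) hF hv ht
      (w := fun l => w (φ (pderiv l F))) (fun l => hw _ ((hZ _).mpr ⟨l, rfl⟩)) hy0 ?_
    intro R' hR' h1 h2 h3 h4
    refine hg R' hR' (locIn_le hR' h1) h2 h3 ?_
    intro z hz
    obtain ⟨l, rfl⟩ := (hZ z).mp hz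
    exact h4 l

end Pool.Agent.Lib.MP_6a3dac_ag.Sys
end
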