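import Pool.Agent.Lib.MP_6a3dac_ag.Mg.G017
import Pool.Agent.Lib.MP_6a3dac_ag.Mg.G018
import Pool.Agent.Lib.MP_6a3dac_ag.Tor.Defs
import Pool.Agent.Lib.MP_6a3dac_ag.Mg.G014
import Pool.Agent.Lib.MP_6a3dac_ag.QuadricModel

section

/-!
# Regularity of the toric modification at the points of the model
-/

set_option autoImplicit false

namespace Pool.Agent.Lib.MP_6a3dac_ag.Tor

open MvPolynomial NumberField IsDedekindDomain IsLocalRing
open Pool.Agent.Lib.MP_6a3dac_ag.DNF Pool.Agent.Lib.MP_6a3dac_ag.Bert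
open Pool.Agent.Lib.MP_6a3dac_ag.Fam

section Unit

variable {R σ : Type} [CommRing R] [DecidableEq σ] [Fintype σ] {m s : ℕ} {e : Fin s → ℕ} {h η : R}
  {J : Ideal (MvPolynomial σ R)} {K : Fin s → Ideal (MvPolynomial σ R)}
  {𝔮 : Ideal (MvPolynomial σ R)}

/-- TASK T6a0 -/
theorem TorPt.unit_mul (hη : IsUnit η) (hq : 𝔮.IsPrime) (hT : TorPt m e (η * h) J K 𝔮) :
    TorPt m e h J K 𝔮 := by
  obtain ⟨U, F, w, u, g, I, κ, h1, h2, h3, h4, h5, h6, h7, h8, h9, h10⟩ := hT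
  refine ⟨U, F, w, u * C η, g, I, κ, h1, h2, h3, ?_, h5, ?_, h7, h8, h9, h10⟩
  · rw [h4, C_mul]
    ring
  · intro hu
    rcases hq.mem_or_mem hu with h | h
    · exact h6 h
    · exact hq.ne_top (Ideal.eq_top_of_isUnit_mem _ h (hη.map C))

end Unit

/-- The span of elements of a subring is contained in the subring. -/
theorem t6a_mem_of_span {D : Type} [CommRing D] {L : Subring D} {S : Set D} (hS : ∀ x ∈ S, x ∈ L)
    {x : D} (hx : x ∈ Submodule.span L S) : x ∈ L := by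
  induction hx using Submodule.span_induction with
  | mem x hx => exact hS x hx
  | zero => exact L.zero_mem
  | add x y _ _ hx hy => exact L.add_mem hx hy
  | smul c x _ hx => exact L.mul_mem c.2 hx

variable {E : Type} [Field E] [NumberField E] {m c : ℕ} {J : HomIdeal (𝓞 E) (m + c + 1)}

section Point

variable {p : HomIdeal E (m + c + 1)} (hgen : GenFibreSmooth J)
  (hLD : ∀ i, LocDom (dId (bc (algebraMap (𝓞 E) E) J) i))
  (hp : p.ideal ∈ (bc (algebraMap (𝓞 E) E) J).ideal.minimalPrimes)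
  (P : HeightOneSpectrum (𝓞 E)) {i : Fin (m + c + 1)} (hi : X i ∉ p.ideal) {D : Type} [CommRing D]
  [IsDomain D] [IsLocalRing D]
  (φ : MvPolynomial {l : Fin (m + c + 1) // l ≠ i} (locRing E P) →+* D)
  (hφ : ∀ q, φ q = 0 ↔ MvPolynomial.map (algebraMap (locRing E P) E) q ∈ dId p i)
include hgen hLD hp hi hφ

/-- TASK T6a -/
theorem regular_of_torOver {s : ℕ} {e e' : Fin s → ℕ} {v v' g₀ : ℕ} {h : 𝓞 E}
    {K : Fin s → HomIdeal (𝓞 E) (m + c + 1)} (hT : TorOver P e h J K) (he : ∀ i, 0 < e i)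
    (hv : 0 < v) (hg₀ : 0 < g₀) (hee : ∀ i, e i = g₀ * e' i) (hvv : v = g₀ * v')
    {𝒢 : Finset ((Fin s → ℕ) × ℕ)} (h𝒢 : IsCharts e' v' 𝒢) {ϖ : 𝓞 E}
    (hϖ : Irreducible (algebraMap (𝓞 E) (locRing E P) ϖ)) {η : locRing E P} (hη : IsUnit η)
    (hh : algebraMap (𝓞 E) (locRing E P) h = η * algebraMap (𝓞 E) (locRing E P) ϖ ^ v)
    {G : Finset (MvPolynomial (Fin (m + c + 1)) (𝓞 E))}
    (hG : Ideal.span (dehom i '' (G : Set (MvPolynomial (Fin (m + c + 1)) (𝓞 E)))) =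
      torSpan (fun j => dId (K j) i) (C ϖ) 𝒢)
    {Θ : 𝓞 E} (hΘ0 : Θ ≠ 0) (hΘ : C Θ ∈ torSpan (fun j => dId (K j) i) (C ϖ) 𝒢)
    (b : D) (hb0 : b ≠ 0) (hb1 : b ∣ φ (C (algebraMap (𝓞 E) (locRing E P) Θ)))
    (hb2 : ∀ g ∈ G, b ∣ φ (MvPolynomial.map (algebraMap (𝓞 E) (locRing E P)) (dehom i g)))
    (hb3 : b ∈ Submodule.span (locIn φ) (insert (φ (C (algebraMap (𝓞 E) (locRing E P) Θ)))
        ((fun g => φ (MvPolynomial.map (algebraMap (𝓞 E) (locRing E P)) (dehom i g))) ''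
          (G : Set (MvPolynomial (Fin (m + c + 1)) (𝓞 E))))))
    (hmin : ∀ R' : Subring D, Dom R' → locIn φ ≤ R' →
      (∀ w, (b * w = φ (C (algebraMap (𝓞 E) (locRing E P) Θ)) ∨ ∃ g ∈ G,
        b * w = φ (MvPolynomial.map (algebraMap (𝓞 E) (locRing E P)) (dehom i g))) →
          w ∈ R') → R' = ⊤) :
    IsRegularLocalRing D := by
  classical
  have hθinj : Function.Injective (algebraMap (𝓞 E) (locRing E P)) :=
    FaithfulSMul.algebraMap_injective _ _
  have hJ0 : ∀ f ∈ dId J i,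
      φ.comp (MvPolynomial.map (algebraMap (𝓞 E) (locRing E P))) f = 0 :=
    fun f hf => fc3_eq_zero hp P φ hφ hf
  set 𝔮 := Ideal.comap (φ.comp (MvPolynomial.map (algebraMap (𝓞 E) (locRing E P))))
    (maximalIdeal D) with h𝔮
  have hprime : 𝔮.IsPrime := Ideal.IsPrime.comap _
  have hI𝔮 : dId J i ≤ 𝔮 := by
    intro x hx
    rw [h𝔮, Ideal.mem_comap, hJ0 x hx]
    exact Submodule.zero_mem _
  have hCmem : ∀ z : 𝓞 E, C z ∈ 𝔮 ↔
      φ (C (algebraMap (𝓞 E) (locRing E P) z)) ∈ maximalIdeal D := by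
    intro z
    rw [h𝔮, Ideal.mem_comap, RingHom.comp_apply, MvPolynomial.map_C]
  have hcP : ∀ z : 𝓞 E, C z ∈ 𝔮 → z ∈ P.asIdeal := by
    intro z hz
    by_contra hcP
    rw [hCmem, IsLocalRing.mem_maximalIdeal] at hz
    exact hz (fc3_isUnit P φ hcP)
  have hϖ0 : ϖ ≠ 0 := by
    rintro rfl
    rw [map_zero] at hϖ
    exact hϖ.ne_zero rfl
  by_cases hcase : φ (C (algebraMap (𝓞 E) (locRing E P) ϖ)) ∈ maximalIdeal D
  · -- a point over `P`
    have hcomapprime : (Ideal.comap (C : 𝓞 E →+* _) 𝔮).IsPrime := Ideal.IsPrime.comap _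
    have hne : Ideal.comap (C : 𝓞 E →+* _) 𝔮 ≠ ⊥ := by
      intro h
      have h1 : ϖ ∈ Ideal.comap (C : 𝓞 E →+* _) 𝔮 := (hCmem ϖ).mpr hcase
      rw [h] at h1
      exact hϖ0 h1
    have hmax : (Ideal.comap (C : 𝓞 E →+* _) 𝔮).IsMaximal := hcomapprime.isMaximal hne
    have heq : Ideal.comap (C : 𝓞 E →+* _) 𝔮 = P.asIdeal :=
      hmax.eq_of_le P.isPrime.ne_top hcP
    obtain ⟨-, -, heP, hpt⟩ := hT
    have hgood := hpt i 𝔮 hprime hI𝔮 (by rw [Ideal.map_le_iff_le_comap, heq])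
    have hhq : C h ∈ 𝔮 := by
      rw [hCmem, hh, C_mul, C_pow, map_mul, map_pow]
      exact Ideal.mul_mem_left _ _ (Ideal.pow_mem_of_mem _ hcase v hv)
    have hpt1 : TorPt m e h (dId J i) (fun j => dId (K j) i)
        ((Ideal.comap φ (maximalIdeal D)).comap
          (MvPolynomial.map (algebraMap (𝓞 E) (locRing E P)))) := hgood.2 hhq
    have hpt2 := TorPt.map (algebraMap (𝓞 E) (locRing E P)) hpt1
    rw [hh] at hpt2
    have hpt3 := TorPt.unit_mul hη (Ideal.IsPrime.comap φ) hpt2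
    have hspan : (torSpan (fun j => dId (K j) i) (C ϖ) 𝒢).map
        (MvPolynomial.map (algebraMap (𝓞 E) (locRing E P))) =
        torSpan (fun j => (dId (K j) i).map (MvPolynomial.map (algebraMap (𝓞 E) (locRing E P))))
          (C (algebraMap (𝓞 E) (locRing E P) ϖ)) 𝒢 := by
      rw [torSpan_map, MvPolynomial.map_C]
    have himage : φ '' (MvPolynomial.map (algebraMap (𝓞 E) (locRing E P)) ''
        (dehom i '' (G : Set (MvPolynomial (Fin (m + c + 1)) (𝓞 E))))) =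
        (fun g => φ (MvPolynomial.map (algebraMap (𝓞 E) (locRing E P)) (dehom i g))) ''
          (G : Set (MvPolynomial (Fin (m + c + 1)) (𝓞 E))) := by
      rw [Set.image_image, Set.image_image]
    refine regular_of_toric φ he hv hg₀ hee hvv h𝒢 hϖ ?_ ?_ hcase ?_ ?_ hpt3
      (MvPolynomial.map (algebraMap (𝓞 E) (locRing E P)) ''
        (dehom i '' (G : Set (MvPolynomial (Fin (m + c + 1)) (𝓞 E))))) ?_
      (Θ := C (algebraMap (𝓞 E) (locRing E P) Θ)) ?_ b hb0 hb1 ?_ ?_ ?_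
    · -- `φ` vanishes on `J`
      intro f hf
      have h1 : (dId J i).map (MvPolynomial.map (algebraMap (𝓞 E) (locRing E P))) ≤
          RingHom.ker φ := by
        rw [Ideal.map_le_iff_le_comap]
        intro x hx
        exact hJ0 x hx
      exact h1 hf
    · -- the kernel
      intro f hf
      obtain ⟨z, hz1, hz2⟩ := exists_ker_fam hLD hp P hi ((hφ f).mp hf)
      exact ⟨z, fun h0 => hz1 ((hφ z).mp h0), hz2⟩
    · -- `ϖ` is not mapped to zero
      intro h0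
      refine hϖ0 (fc3_const hp P hi φ hφ ϖ ?_)
      rw [RingHom.mem_ker, RingHom.comp_apply, MvPolynomial.map_C]
      exact h0
    · -- the exponents are units
      intro j
      have h1 := fc3_isUnit P φ (z := (e j : 𝓞 E)) (heP j)
      rwa [map_natCast, map_natCast, map_natCast] at h1
    · rw [← hspan, ← hG, Ideal.map_span]
    · rw [← hspan]
      have h1 := Ideal.mem_map_of_mem (MvPolynomial.map (algebraMap (𝓞 E) (locRing E P))) hΘ
      rwa [MvPolynomial.map_C] at h1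
    · rintro _ ⟨_, ⟨g, hg, rfl⟩, rfl⟩
      exact hb2 g hg
    · rw [himage]
      exact hb3
    · intro R' hR1 hR2 hR3
      refine hmin R' hR1 hR2 fun w hw => hR3 w ?_
      rcases hw with hw | ⟨g, hg, hw⟩
      · exact Or.inl hw
      · exact Or.inr ⟨_, ⟨_, ⟨g, hg, rfl⟩, rfl⟩, hw⟩
  · -- a point of the generic fibre
    have hϖu : IsUnit (φ (C (algebraMap (𝓞 E) (locRing E P) ϖ))) := by
      rw [IsLocalRing.mem_maximalIdeal, mem_nonunits_iff, not_not] at hcase
      exact hcase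
    have hconst : ∀ x : locRing E P, x ≠ 0 → IsUnit (φ (C x)) := by
      intro x hx
      obtain ⟨n, u, hu⟩ := IsDiscreteValuationRing.eq_unit_mul_pow_irreducible hx hϖ
      rw [hu, C_mul, C_pow, map_mul, map_pow]
      exact ((u.isUnit.map C).map φ).mul (hϖu.pow n)
    have h0 : ∀ z : 𝓞 E, C z ∈ 𝔮 → z = 0 := by
      intro z hz
      by_contra hz0
      rw [hCmem, IsLocalRing.mem_maximalIdeal] at hz
      exact hz (hconst _ fun h1 => hz0 (hθinj (by rw [h1, map_zero])))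
    have hΘu : IsUnit (φ (C (algebraMap (𝓞 E) (locRing E P) Θ))) :=
      hconst _ fun h1 => hΘ0 (hθinj (by rw [h1, map_zero]))
    have hbu : IsUnit b := isUnit_of_dvd_unit hb1 hΘu
    have hdom : Dom (locIn φ) := dom_locIn φ
    have hbL : b ∈ locIn φ := by
      refine t6a_mem_of_span ?_ hb3
      rintro x (rfl | ⟨g, hg, rfl⟩)
      · exact map_mem_locIn φ _
      · exact map_mem_locIn φ _
    have htop : locIn φ = ⊤ := by
      refine hmin (locIn φ) hdom le_rfl fun w hw => ?_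
      obtain ⟨y, hy⟩ := hbu.exists_right_inv
      have hyL : y ∈ locIn φ := hdom _ hbL _ hy
      have hxL : b * w ∈ locIn φ := by
        rcases hw with hw | ⟨g, hg, hw⟩
        · rw [hw]; exact map_mem_locIn φ _
        · rw [hw]; exact map_mem_locIn φ _
      have h6 : w = y * (b * w) := by
        rw [← mul_assoc, mul_comm y, hy, one_mul]
      rw [h6]
      exact (locIn φ).mul_mem hyL hxL
    exact regular_of_top_fam hgen hLD hp P hi φ hφ (Or.inl (hgen i 𝔮 hprime hI𝔮 h0)) htop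

end Point

end Pool.Agent.Lib.MP_6a3dac_ag.Tor
end

section

/-!
# Toroidal points of a family with a smooth generic fibre where `h` is zero
-/

set_option autoImplicit false

namespace Pool.Agent.Lib.MP_6a3dac_ag.Tor

open MvPolynomial NumberField IsDedekindDomain IsLocalRing
open Pool.Agent.Lib.MP_6a3dac_ag.DNF Pool.Agent.Lib.MP_6a3dac_ag.Bert
open Pool.Agent.Lib.MP_6a3dac_ag.Fam

/-- The prime ideal over the localization of the coefficient ring. -/
theorem t6z3_prime {R O σ : Type} [CommRing R] [CommRing O] [Algebra R O] (M : Submonoid R)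
    [IsLocalization M O] {𝔮 : Ideal (MvPolynomial σ R)} (hq : 𝔮.IsPrime)
    (hM : ∀ z ∈ M, C z ∉ 𝔮) :
    (𝔮.map (MvPolynomial.map (algebraMap R O))).IsPrime ∧
      (𝔮.map (MvPolynomial.map (algebraMap R O))).comap (MvPolynomial.map (algebraMap R O)) =
        𝔮 := by
  let _ := MvPolynomial.algebraMvPolynomial (R := R) (S := O) (σ := σ)
  have hdisj : Disjoint ((M.map (C (σ := σ)) : Submonoid (MvPolynomial σ R)) :
      Set (MvPolynomial σ R)) (𝔮 : Set (MvPolynomial σ R)) := by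
    rw [Set.disjoint_left]
    rintro _ ⟨z, hz, rfl⟩ h
    exact hM z hz h
  exact ⟨IsLocalization.isPrime_of_isPrime_disjoint (M.map (C (σ := σ))) (MvPolynomial σ O) 𝔮 hq
    hdisj, IsLocalization.under_map_of_isPrime_disjoint (M.map (C (σ := σ))) (MvPolynomial σ O)
      hq hdisj⟩

/-- A derivative of the function. -/
theorem t6z3_vf {R σ : Type} [CommRing R] [DecidableEq σ] [Fintype σ] {s : ℕ} {e : Fin s → ℕ}
    {𝔮 : Ideal (MvPolynomial σ R)} (hq : 𝔮.IsPrime) {U : Std R σ} {F w : MvPolynomial σ R}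
    {g : Fin s → MvPolynomial σ R} {I : Finset (Fin s)} {κ : I → σ}
    (hF : F = w * ∏ i, g i ^ e i) (hw : w ∉ 𝔮) (hI : ∀ i, i ∈ I ↔ g i ∈ 𝔮) {i₀ : Fin s}
    (hi₀ : I = {i₀}) (he : e i₀ = 1) (h0 : i₀ ∈ I)
    (hdet : (Matrix.of fun i i' : I => U.vf (κ i) (g i')).det ∉ 𝔮) :
    U.vf (κ ⟨i₀, h0⟩) F ∉ 𝔮 := by
  classical
  have hW : w * ∏ j ∈ Finset.univ.erase i₀, g j ^ e j ∉ 𝔮 := by
    intro h
    rcases hq.mem_or_mem h with h | h
    · exact hw h
    · obtain ⟨j, hj, hj'⟩ := hq.prod_mem_iff.1 h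
      have h1 : j ∈ I := (hI j).2 (hq.mem_of_pow_mem _ hj')
      rw [hi₀, Finset.mem_singleton] at h1
      exact (Finset.mem_erase.1 hj).1 h1
  have hF' : F = (w * ∏ j ∈ Finset.univ.erase i₀, g j ^ e j) * g i₀ := by
    rw [hF, ← Finset.mul_prod_erase Finset.univ _ (Finset.mem_univ i₀), he, pow_one]
    ring
  have hv : U.vf (κ ⟨i₀, h0⟩) (g i₀) ∉ 𝔮 := by
    intro hv
    apply hdet
    rw [← Ideal.Quotient.eq_zero_iff_mem, RingHom.map_det]
    have : Nonempty I := ⟨⟨i₀, h0⟩⟩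
    have h1 : (Ideal.Quotient.mk 𝔮).mapMatrix
        (Matrix.of fun i i' : I => U.vf (κ i) (g i')) = 0 := by
      ext a b
      have ha : a = ⟨i₀, h0⟩ := by
        have := a.2
        simp only [hi₀, Finset.mem_singleton] at this
        exact Subtype.ext this
      have hb : b = ⟨i₀, h0⟩ := by
        have := b.2
        simp only [hi₀, Finset.mem_singleton] at this
        exact Subtype.ext this
      rw [RingHom.mapMatrix_apply, Matrix.map_apply, Matrix.of_apply, ha, hb, Matrix.zero_apply,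
        Ideal.Quotient.eq_zero_iff_mem]
      exact hv
    rw [h1, Matrix.det_zero]
  intro h
  rw [hF', Derivation.leibniz, smul_eq_mul, smul_eq_mul] at h
  have h2 : g i₀ * U.vf (κ ⟨i₀, h0⟩) (w * ∏ j ∈ Finset.univ.erase i₀, g j ^ e j) ∈ 𝔮 :=
    Ideal.mul_mem_right _ _ ((hI i₀).1 h0)
  have h3 := (Submodule.add_mem_iff_left _ h2).1 h
  rcases hq.mem_or_mem h3 with h3 | h3
  · exact hW h3
  · exact hv h3

variable {E : Type} [Field E] [NumberField E] {m c s : ℕ}

/-- TASK T6z3 -/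
theorem TorPt.smoothPt_of_zero {J : HomIdeal (𝓞 E) (m + c + 1)} (hgen : GenFibreSmooth J)
    {P : HeightOneSpectrum (𝓞 E)} {e : Fin s → ℕ} (he : ∀ i, 0 < e i)
    {K : Fin s → HomIdeal (𝓞 E) (m + c + 1)} (i : Fin (m + c + 1))
    {𝔮 : Ideal (MvPolynomial {l : Fin (m + c + 1) // l ≠ i} (𝓞 E))} (hq : 𝔮.IsPrime)
    (hJ : dId J i ≤ 𝔮) (hP : P.asIdeal.map C ≤ 𝔮)
    (hT : TorPt m e (0 : 𝓞 E) (dId J i) (fun j => dId (K j) i) 𝔮) :
    SmoothPt m (dId J i) 𝔮 := by
  classical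
  obtain ⟨U, F, w, u, g, I, κ, hpres, hcard, hUh, hF, hw, hu, hK, hI, hκ, hdet⟩ := hT
  rw [map_zero, mul_zero, sub_zero] at hF
  have hσ : Fintype.card {l : Fin (m + c + 1) // l ≠ i} = m + c := by
    rw [Fintype.card_subtype_compl, Fintype.card_fin, Fintype.card_subtype_eq]
    rfl
  have hcomapP : ∀ z ∈ P.asIdeal.primeCompl, C z ∉ 𝔮 := by
    intro z hz hzq
    have h2 : P.asIdeal ≤ 𝔮.comap C := Ideal.map_le_iff_le_comap.1 hP
    have h3 : (𝔮.comap (C : 𝓞 E →+* MvPolynomial {l : Fin (m + c + 1) // l ≠ i} (𝓞 E))).IsPrime :=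
      hq.comap _
    have h4 : P.asIdeal = 𝔮.comap C := P.isMaximal.eq_of_le h3.ne_top h2
    apply hz
    change z ∈ P.asIdeal
    rw [h4, Ideal.mem_comap]
    exact hzq
  obtain ⟨hq', hcomap⟩ := t6z3_prime (O := locRing E P) P.asIdeal.primeCompl hq hcomapP
  set θ : 𝓞 E →+* locRing E P := algebraMap (𝓞 E) (locRing E P) with hθ
  set 𝔮' := 𝔮.map (MvPolynomial.map θ) with h𝔮'
  have hmem : ∀ x, MvPolynomial.map θ x ∈ 𝔮' ↔ x ∈ 𝔮 := by
    intro x
    rw [← Ideal.mem_comap, hcomap]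
  obtain ⟨ϖ, hϖ⟩ := exists_unif (K := E) P
  have hϖP : ϖ ∈ P.asIdeal := by
    by_contra h
    exact hϖ.not_isUnit (IsLocalization.map_units (locRing E P)
      (⟨ϖ, h⟩ : P.asIdeal.primeCompl))
  have hϖq : C (θ ϖ) ∈ 𝔮' := by
    rw [← map_C (σ := {l : Fin (m + c + 1) // l ≠ i}) θ ϖ, hmem]
    exact hP (Ideal.mem_map_of_mem _ hϖP)
  have hgen' : ∀ 𝔭 : Ideal (MvPolynomial {l : Fin (m + c + 1) // l ≠ i} (locRing E P)),
      𝔭.IsPrime → (dId J i).map (MvPolynomial.map θ) ≤ 𝔭 → C (θ ϖ) ∉ 𝔭 →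
        TanPt c ((dId J i).map (MvPolynomial.map θ)) 𝔭 := by
    intro 𝔭 hp hJp hϖp
    have h1 : ∀ z : 𝓞 E, C z ∈ 𝔭.comap (MvPolynomial.map θ) → z = 0 := by
      intro z hz
      by_contra hz0
      have hz1 : θ z ≠ 0 := by
        rw [hθ, Ne, FaithfulSMul.algebraMap_eq_zero_iff]
        exact hz0
      obtain ⟨k, v, hv⟩ := IsDiscreteValuationRing.eq_unit_mul_pow_irreducible hz1 hϖ
      rw [Ideal.mem_comap, map_C, hv, map_mul, map_pow] at hz
      rcases hp.mem_or_mem hz with h | h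
      · exact hp.ne_top (Ideal.eq_top_of_isUnit_mem _ h (v.isUnit.map C))
      · exact hϖp (hp.mem_of_pow_mem _ h)
    have h2 : SmoothPt m (dId J i) (𝔭.comap (MvPolynomial.map θ)) :=
      hgen i _ (hp.comap _) (Ideal.map_le_iff_le_comap.1 hJp) h1
    exact (h2.map θ).tanPt hσ hp hJp
  have hsum : ∑ i ∈ I, e i ≤ 1 := by
    refine sum_exponents_le_one (U := U.map θ) (F := MvPolynomial.map θ F)
      (w := MvPolynomial.map θ w) (g := fun i => MvPolynomial.map θ (g i)) (I := I) (κ := κ)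
      hϖ hσ he hq' (Ideal.map_mono hJ) hϖq hgen' (hpres.map θ) hcard ?_ ?_ ?_ hκ ?_
    · rw [Std.map_hL, hmem]
      exact hUh
    · rw [hF, map_mul, map_prod]
      simp only [map_pow]
    · intro j
      rw [hmem]
      exact hI j
    · have h1 : (Matrix.of fun i i' : I => (U.map θ).vf (κ i) (MvPolynomial.map θ (g i'))) =
          (MvPolynomial.map θ).mapMatrix (Matrix.of fun i i' : I => U.vf (κ i) (g i')) := by
        ext a b
        rw [RingHom.mapMatrix_apply, Matrix.map_apply, Matrix.of_apply, Matrix.of_apply,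
          Std.map_vfL]
      rw [h1, ← RingHom.map_det, hmem]
      exact hdet
  have hFq : F ∈ 𝔮 := hJ hpres.memF
  obtain ⟨i₀, h0⟩ : ∃ i₀, i₀ ∈ I := by
    rw [hF] at hFq
    rcases hq.mem_or_mem hFq with h | h
    · exact absurd h hw
    · obtain ⟨j, _, hj⟩ := hq.prod_mem_iff.1 h
      exact ⟨j, (hI j).2 (hq.mem_of_pow_mem _ hj)⟩
  have hone : ∀ j ∈ I, j = i₀ := by
    intro j hj
    by_contra hne
    have h1 : ∑ k ∈ {j, i₀}, e k ≤ ∑ k ∈ I, e k := by
      refine Finset.sum_le_sum_of_subset ?_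
      intro k hk
      rw [Finset.mem_insert, Finset.mem_singleton] at hk
      rcases hk with rfl | rfl
      · exact hj
      · exact h0
    rw [Finset.sum_pair hne] at h1
    have h2 := he j
    have h3 := he i₀
    omega
  have hI₀ : I = {i₀} := by
    ext j
    rw [Finset.mem_singleton]
    exact ⟨hone j, fun h => h ▸ h0⟩
  have he₀ : e i₀ = 1 := by
    have h1 := Finset.single_le_sum (f := e) (fun _ _ => Nat.zero_le _) h0
    have h2 := he i₀
    omega
  exact ⟨U, F, hpres, hcard, hUh, κ ⟨i₀, h0⟩, hκ _,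
    t6z3_vf hq hF hw hI hI₀ he₀ h0 hdet⟩

end Pool.Agent.Lib.MP_6a3dac_ag.Tor
end

section

/-!
# Toroidal points of a family with a smooth generic fibre where `h` is zero
-/
end
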