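import Pool.Agent.Lib.MP_6a3dac_ag.Mg.G030
import Pool.Agent.Lib.MP_6a3dac_ag.Mg.G035
import Pool.Agent.Lib.MP_6a3dac_ag.Mg.G010
import Pool.Agent.Lib.MP_6a3dac_ag.Mg.G032
import Pool.Agent.Lib.MP_6a3dac_ag.Mg.G008
import Pool.Agent.Lib.MP_6a3dac_ag.Mg.G068
import Pool.Agent.Lib.MP_6a3dac_ag.Mg.G066
import Pool.Agent.Lib.MP_6a3dac_ag.Mg.G005

section

/-!
# From geometric points to ideals: the singular points of the fibre in the charts
-/

set_option autoImplicit false

namespace Pool.Agent.Lib.MP_6a3dac_ag.Sys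

open MvPolynomial IsDedekindDomain
open Pool.Agent.Lib.MP_6a3dac_ag.DNF

variable {n c : ℕ} {d : Fin c → ℕ}

/-- A prime ideal is the kernel of a ring homomorphism to a field. -/
theorem t24_exists_field {S : Type} [CommRing S] (Q : Ideal S) [Q.IsPrime] :
    ∃ (L : Type) (_ : Field L) (θ : S →+* L), ∀ z, θ z = 0 ↔ z ∈ Q := by
  have : IsDomain (S ⧸ Q) := Ideal.Quotient.isDomain Q
  refine ⟨FractionRing (S ⧸ Q), inferInstance,
    (algebraMap _ _).comp (Ideal.Quotient.mk Q), fun z => ?_⟩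
  rw [RingHom.comp_apply, FaithfulSMul.algebraMap_eq_zero_iff, Ideal.Quotient.eq_zero_iff_mem]

/-- The singular points of the fibre in the charts. -/
theorem nondegSys_of_nodal {R O : Type} [CommRing R] [CommRing O] [IsDomain O]
    [IsDiscreteValuationRing O] [Algebra R O] (P : Ideal R) [P.IsPrime]
    [IsLocalization.AtPrime O P] {f : Fin c → MvPolynomial (Fin (n + 1)) R}
    (hf : ∀ j, (f j).IsHomogeneous (d j))
    (h : ∀ (L : Type) [Field L] (θ : R →+* L) (i : Fin (n + 1)) (j : Fin c)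
      (x : Fin (n + 1) → L) (y : Fin c → L), (∀ r ∈ P, θ r = 0) → x i = 1 → y j = 1 →
      IsSing (fun m => map θ (f m)) x y → (hessAt (fun m => map θ (f m)) i j x y).det ≠ 0)
    {ϖ : O} (hϖ : Irreducible ϖ) (i : Fin (n + 1)) :
    NondegSys ϖ fun k => dehom i (map (algebraMap R O) (f k)) := by
  intro j Q hQ hpQ hFQ hdQ hdet
  obtain ⟨L, _, θ, hθ⟩ := t24_exists_field Q
  set F : Fin c → MvPolynomial {l : Fin (n + 1) // l ≠ i} O :=
    fun k => dehom i (map (algebraMap R O) (f k)) with hF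
  -- the homomorphism on the coordinates of the chart
  let θ' : MvPolynomial {l : Fin (n + 1) // l ≠ i} O →+* L :=
    θ.comp (rename (Sum.inl : _ → {l : Fin (n + 1) // l ≠ i} ⊕ {k : Fin c // k ≠ j}) :
      MvPolynomial {l : Fin (n + 1) // l ≠ i} O →ₐ[O] _).toRingHom
  have hθ' : ∀ q, θ' q = θ (rename Sum.inl q) := fun q => rfl
  let θR : R →+* L := (θ'.comp C).comp (algebraMap R O)
  have hC : ∀ a : O, θ' (C a) = θ (C a) := by
    intro a
    rw [hθ', rename_C]
  have hP : ∀ r ∈ P, θR r = 0 := by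
    intro r hr
    have h1 : algebraMap R O r ∈ IsLocalRing.maximalIdeal O := by
      rw [← IsLocalization.AtPrime.to_map_mem_maximal_iff O P] at hr
      exact hr
    rw [hϖ.maximalIdeal_eq, Ideal.mem_span_singleton'] at h1
    obtain ⟨a, ha⟩ := h1
    change θ' (C (algebraMap R O r)) = 0
    rw [hC, ← ha, C_mul, map_mul, (hθ _).mpr hpQ, mul_zero]
  have hev : ∀ q : MvPolynomial (Fin (n + 1)) R,
      eval (fun l => θ' (dehom i (X l))) (map θR q) =
        θ' (dehom i (map (algebraMap R O) q)) := by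
    intro q
    rw [← eval_map_dehom i θ' (map (algebraMap R O) q), map_map]
  let y : Fin c → L := fun k => if hk : k = j then 1 else θ (X (Sum.inr ⟨k, hk⟩))
  have hyj : y j = 1 := dif_pos rfl
  have hyk : ∀ k : {k : Fin c // k ≠ j}, y k.1 = θ (X (Sum.inr k)) := by
    intro k
    exact dif_neg k.2
  have hFk : ∀ k : {k : Fin c // k ≠ j}, θ' (F k.1) = 0 := by
    intro k
    rw [hθ', ← pd_inr_lagr F j k]
    exact (hθ _).mpr (hdQ _)
  have hFj : θ' (F j) = 0 := by
    have h1 : θ (lagr F j) = 0 := (hθ _).mpr hFQ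
    rw [lagr, map_add, map_sum, Finset.sum_eq_zero, add_zero] at h1
    · exact h1
    · intro k _
      rw [map_mul, ← hθ', hFk, mul_zero]
  have hF0 : ∀ k, θ' (F k) = 0 := by
    intro k
    by_cases hk : k = j
    · rw [hk]; exact hFj
    · exact hFk ⟨k, hk⟩
  have hdl : ∀ l : {l : Fin (n + 1) // l ≠ i}, ∑ k, y k * θ' (pderiv l (F k)) = 0 := by
    intro l
    have h1 : θ (pderiv (Sum.inl l) (lagr F j)) = 0 := (hθ _).mpr (hdQ _)
    rw [pd_inl_lagr, map_add, map_sum] at h1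
    rw [sum_ne j, hyj, one_mul, ← h1, hθ']
    congr 1
    refine Finset.sum_congr rfl fun k _ => ?_
    rw [hyk, hθ', map_mul]
  have hsing : IsSing (fun m => map θR (f m)) (fun l => θ' (dehom i (X l))) y := by
    constructor
    · intro k
      rw [hev]
      exact hF0 k
    · intro l
      by_cases hl : l = i
      · subst hl
        have h1 : ∀ k, eval (fun m => θ' (dehom l (X m))) (pderiv l (map θR (f k))) =
            - ∑ m : {m : Fin (n + 1) // m ≠ l}, θ' (X m) * θ' (pderiv m (F k)) := by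
          intro k
          rw [pderiv_map, hev, ← pderiv_map, euler_dehom l ((hf k).map _), map_sub, map_mul]
          have h2 : θ' (dehom l (map (algebraMap R O) (f k))) = 0 := hF0 k
          rw [h2, mul_zero, zero_sub, map_sum]
          congr 1
          exact Finset.sum_congr rfl fun m _ => map_mul _ _ _
        have h3 : ∀ k, y k * eval (fun m => θ' (dehom l (X m))) (pderiv l (map θR (f k))) =
            - ∑ m : {m : Fin (n + 1) // m ≠ l}, θ' (X m) * (y k * θ' (pderiv m (F k))) := by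
          intro k
          rw [h1, mul_neg, Finset.mul_sum]
          congr 1
          refine Finset.sum_congr rfl fun m _ => ?_
          ring
        rw [Finset.sum_congr rfl fun k _ => h3 k, Finset.sum_neg_distrib, Finset.sum_comm,
          neg_eq_zero]
        refine Finset.sum_eq_zero fun m _ => ?_
        rw [← Finset.mul_sum, hdl, mul_zero]
      · rw [← hdl ⟨l, hl⟩]
        refine Finset.sum_congr rfl fun k _ => ?_
        rw [pderiv_map, hev, ← pderiv_map, hF, pderiv_dehom]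
  refine h L θR i j (fun l => θ' (dehom i (X l))) y hP ?_ hyj hsing ?_
  · rw [dehom_X_self, map_one]
  · have h1 : hessAt (fun m => map θR (f m)) i j (fun l => θ' (dehom i (X l))) y =
        θ.mapMatrix (Matrix.of fun a b => pderiv a (pderiv b (lagr F j))) := by
      have h2 : ∀ (l m : {l : Fin (n + 1) // l ≠ i}) (k : Fin c),
          eval (fun l => θ' (dehom i (X l))) (pderiv l.1 (pderiv m.1 (map θR (f k)))) =
            θ (rename Sum.inl (pderiv l (pderiv m (F k)))) := by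
        intro l m k
        rw [pderiv_map, pderiv_map, hev, ← hθ', hF, pderiv_dehom, pderiv_dehom, pderiv_map,
          pderiv_map]
      have h3 : ∀ (l : {l : Fin (n + 1) // l ≠ i}) (k : Fin c),
          eval (fun l => θ' (dehom i (X l))) (pderiv l.1 (map θR (f k))) =
            θ (rename Sum.inl (pderiv l (F k))) := by
        intro l k
        rw [pderiv_map, hev, ← hθ', hF, pderiv_dehom, pderiv_map]
      rw [hess_lagr]
      ext a b
      rcases a with l | k <;> rcases b with m | k'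
      · change ∑ k, y k * eval _ (pderiv l.1 (pderiv m.1 (map θR (f k)))) = θ (_ + _)
        rw [sum_ne j, hyj, one_mul, map_add, map_sum, h2]
        congr 1
        refine Finset.sum_congr rfl fun k _ => ?_
        rw [h2, hyk, map_mul]
      · exact h3 l k'.1
      · exact h3 m k.1
      · exact (map_zero θ).symm
    rw [h1, ← RingHom.map_det]
    exact (hθ _).mpr hdet

end Pool.Agent.Lib.MP_6a3dac_ag.Sys
end

section

/-!
# From geometric points to ideals
-/
end

section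

/-!
# Singular points of large degree
-/

set_option autoImplicit false

namespace Pool.Agent.Lib.MP_6a3dac_ag.Maj

open MvPolynomial NumberField IsDedekindDomain
open Pool.Agent.Lib.MP_6a3dac_ag.DNF Pool.Agent.Lib.MP_6a3dac_ag.Sys

theorem x2_form_add {R : Type} [CommRing R] {n d : ℕ} (a b : Mono n d → R) :
    form (a + b) = form a + form b := by
  unfold form
  rw [← Finset.sum_add_distrib]
  refine Finset.sum_congr rfl fun μ _ => ?_
  rw [Pi.add_apply, C_add, add_mul]

theorem x2_form_mul {R : Type} [CommRing R] {n d : ℕ} (t : R) (a : Mono n d → R) :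
    form (fun μ => t * a μ) = C t * form a := by
  unfold form
  rw [Finset.mul_sum]
  refine Finset.sum_congr rfl fun μ _ => ?_
  rw [C_mul, mul_assoc]

theorem x2_form_zero {R : Type} [CommRing R] {n d : ℕ} :
    form (0 : Mono n d → R) = 0 := by
  unfold form
  refine Finset.sum_eq_zero fun μ _ => ?_
  rw [Pi.zero_apply, C_0, zero_mul]

/-- Evaluation of forms modulo an ideal containing the uniformizer factors through the residue
field. -/
theorem x2_exists_hom {O : Type} [CommRing O] {ϖ : O} {n d : ℕ}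
    (i : Fin (n + 1)) {𝔮 : Ideal (MvPolynomial {l : Fin (n + 1) // l ≠ i} O)} (h𝔮 : C ϖ ∈ 𝔮) :
    ∃ Φ : (Mono n d → O ⧸ Ideal.span {ϖ}) →+ (MvPolynomial {l : Fin (n + 1) // l ≠ i} O ⧸ 𝔮),
      ∀ a : Mono n d → O, Φ (fun μ => Ideal.Quotient.mk _ (a μ)) =
        Ideal.Quotient.mk 𝔮 (dehom i (form a)) := by
  let Φ₀ : (Mono n d → O) →+ (MvPolynomial {l : Fin (n + 1) // l ≠ i} O ⧸ 𝔮) :=
    { toFun := fun a => Ideal.Quotient.mk 𝔮 (dehom i (form a))
      map_zero' := by simp only [x2_form_zero, map_zero]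
      map_add' := fun a b => by simp only [x2_form_add, map_add] }
  let π : (Mono n d → O) →+ (Mono n d → O ⧸ Ideal.span {ϖ}) :=
    { toFun := fun a μ => Ideal.Quotient.mk _ (a μ)
      map_zero' := by
        funext μ
        simp
      map_add' := fun a b => by
        funext μ
        simp }
  have hπ : Function.Surjective π := by
    intro c
    choose a ha using fun μ => Ideal.Quotient.mk_surjective (c μ)
    exact ⟨a, funext ha⟩
  have hker : π.ker ≤ Φ₀.ker := by
    intro a ha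
    rw [AddMonoidHom.mem_ker] at ha ⊢
    have h1 : ∀ μ, ∃ t, a μ = ϖ * t := by
      intro μ
      have h2 : Ideal.Quotient.mk (Ideal.span {ϖ}) (a μ) = 0 := congrFun ha μ
      rw [Ideal.Quotient.eq_zero_iff_mem, Ideal.mem_span_singleton] at h2
      exact h2
    choose t ht using h1
    have h3 : a = fun μ => ϖ * t μ := funext ht
    show Ideal.Quotient.mk 𝔮 (dehom i (form a)) = 0
    rw [h3, x2_form_mul, map_mul, dehom_C, Ideal.Quotient.eq_zero_iff_mem]
    exact 𝔮.mul_mem_right _ h𝔮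
  refine ⟨π.liftOfSurjective hπ ⟨Φ₀, hker⟩, fun a => ?_⟩
  exact π.liftOfRightInverse_comp_apply _ _ ⟨Φ₀, hker⟩ a

/-- Let `ϖ` lie in the maximal ideal `𝔮`, and let the residue field at `𝔮` have more than
`q ^ r` elements. For given `F`, at most one in `q ^ (r + 1)` of the `c` modulo `ϖ` satisfies
`F + ϖ * form c ∈ 𝔮 ^ 2` (the difference of two solutions lies in `𝔮`, by `par_indep_self` and
`exists_params`; and the image of the polynomials of degree at most `d` in the residue field has at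
least `q ^ (r + 1)` elements, by `deg_image`, `exists_form_dehom` and `exists_card_residue`). -/
theorem card_next_digit {O : Type} [CommRing O] [IsDomain O] [IsDiscreteValuationRing O] {ϖ : O}
    (hϖ : Irreducible ϖ) (hfin : Finite (O ⧸ Ideal.span {ϖ})) {n d r : ℕ} (hr : r ≤ d)
    (i : Fin (n + 1)) {𝔮 : Ideal (MvPolynomial {l : Fin (n + 1) // l ≠ i} O)}
    (hmax : 𝔮.IsMaximal) (h𝔮 : C ϖ ∈ 𝔮)
    (hcard : Nat.card (O ⧸ Ideal.span {ϖ}) ^ r < Nat.card (MvPolynomial _ O ⧸ 𝔮))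
    (F : MvPolynomial {l : Fin (n + 1) // l ≠ i} O) :
    Nat.card {c : Mono n d → O ⧸ Ideal.span {ϖ} // ∃ c' : Mono n d → O,
        (∀ μ, Ideal.Quotient.mk _ (c' μ) = c μ) ∧ F + C ϖ * dehom i (form c') ∈ 𝔮 ^ 2} *
          Nat.card (O ⧸ Ideal.span {ϖ}) ^ (r + 1) ≤
      Nat.card (Mono n d → O ⧸ Ideal.span {ϖ}) := by
  classical
  have hPmax : (Ideal.span {ϖ}).IsMaximal := PrincipalIdealRing.isMaximal_of_irreducible hϖ
  have hnt : Nontrivial (O ⧸ Ideal.span {ϖ}) := Ideal.Quotient.nontrivial_iff.mpr hPmax.ne_top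
  have hq1 : 1 < Nat.card (O ⧸ Ideal.span {ϖ}) := Finite.one_lt_card
  obtain ⟨e, he1, he⟩ := exists_card_residue hϖ hfin hmax h𝔮
  have hre : r + 1 ≤ e := by
    rw [he] at hcard
    exact (Nat.pow_lt_pow_iff_right hq1).mp hcard
  have hAfin : Finite (MvPolynomial {l : Fin (n + 1) // l ≠ i} O ⧸ 𝔮) := by
    refine Nat.finite_of_card_ne_zero ?_
    rw [he]
    positivity
  obtain ⟨Φ, hΦ⟩ := x2_exists_hom (d := d) i h𝔮
  -- the solutions lie in a coset of the kernel
  have hkey : ∀ c ∈ {c : Mono n d → O ⧸ Ideal.span {ϖ} | ∃ c' : Mono n d → O,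
        (∀ μ, Ideal.Quotient.mk _ (c' μ) = c μ) ∧ F + C ϖ * dehom i (form c') ∈ 𝔮 ^ 2},
      ∀ c₀ ∈ {c : Mono n d → O ⧸ Ideal.span {ϖ} | ∃ c' : Mono n d → O,
        (∀ μ, Ideal.Quotient.mk _ (c' μ) = c μ) ∧ F + C ϖ * dehom i (form c') ∈ 𝔮 ^ 2},
      Φ c = Φ c₀ := by
    rintro c ⟨c', hc', h1⟩ c₀ ⟨c₀', hc₀', h2⟩
    have h3 : Φ c = Ideal.Quotient.mk 𝔮 (dehom i (form c')) := by
      rw [← hΦ]
      congr 1
      funext μ
      exact (hc' μ).symm
    have h4 : Φ c₀ = Ideal.Quotient.mk 𝔮 (dehom i (form c₀')) := by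
      rw [← hΦ]
      congr 1
      funext μ
      exact (hc₀' μ).symm
    rw [h3, h4, Ideal.Quotient.eq]
    obtain ⟨y, -, -, hy⟩ := exists_params hϖ hfin hmax h𝔮
    have h5 : C ϖ * (dehom i (form c') - dehom i (form c₀')) ∈ 𝔮 ^ 2 := by
      have := (𝔮 ^ 2).sub_mem h1 h2
      have h6 : F + C ϖ * dehom i (form c') - (F + C ϖ * dehom i (form c₀')) =
          C ϖ * (dehom i (form c') - dehom i (form c₀')) := by ring
      rwa [h6] at this
    have h7 := par_indep_self hϖ hfin hmax h𝔮 hy (s := 1)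
      (fun h => hmax.ne_top ((Ideal.eq_top_iff_one _).mpr h))
      (c := fun o => o.elim (dehom i (form c') - dehom i (form c₀')) fun _ => 0)
      (by
        rw [Fintype.sum_option]
        simp only [Option.elim_none, Option.elim_some, zero_mul, Finset.sum_const_zero, add_zero,
          one_mul]
        rw [mul_comm]
        exact h5)
    exact h7 none
  -- the image of the forms is large
  have hrange : Nat.card (O ⧸ Ideal.span {ϖ}) ^ (r + 1) ≤ Nat.card Φ.range := by
    refine (deg_image (k := 1) (Ideal.span {ϖ}) hPmax hfin (Ideal.Quotient.mk 𝔮)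
      Ideal.Quotient.mk_surjective ?_ (m := r + 1) ?_ (d := d) (by omega)).trans ?_
    · intro x hx
      rw [pow_one, Ideal.mem_span_singleton] at hx
      obtain ⟨t, rfl⟩ := hx
      rw [C_mul, Ideal.Quotient.eq_zero_iff_mem]
      exact 𝔮.mul_mem_right _ h𝔮
    · rw [he]
      exact Nat.pow_le_pow_right hq1.le hre
    · refine Nat.card_mono (Set.toFinite _) ?_
      rintro z ⟨f, hf, rfl⟩
      obtain ⟨a, ha⟩ := exists_form_dehom i f hf
      exact ⟨fun μ => Ideal.Quotient.mk _ (a μ), by rw [hΦ, ha]⟩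
  have hcardV : Nat.card Φ.ker * Nat.card Φ.range = Nat.card (Mono n d → O ⧸ Ideal.span {ϖ}) := by
    have := Φ.ker.card_mul_index
    rwa [AddSubgroup.index_ker] at this
  rcases isEmpty_or_nonempty {c : Mono n d → O ⧸ Ideal.span {ϖ} // ∃ c' : Mono n d → O,
        (∀ μ, Ideal.Quotient.mk _ (c' μ) = c μ) ∧ F + C ϖ * dehom i (form c') ∈ 𝔮 ^ 2} with
    hemp | ⟨⟨c₀, hc₀⟩⟩
  · rw [Nat.card_of_isEmpty, zero_mul]
    exact Nat.zero_le _
  · rw [← hcardV]
    refine Nat.mul_le_mul ?_ hrange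
    refine Nat.card_le_card_of_injective (fun c => (⟨c.1 - c₀, ?_⟩ : Φ.ker)) ?_
    · rw [AddMonoidHom.mem_ker, map_sub, sub_eq_zero]
      exact hkey c.1 c.2 c₀ hc₀
    · intro c c' h
      have := congrArg Subtype.val h
      simp only [sub_left_inj] at this
      exact Subtype.ext this

theorem x3_card_sq {O : Type} [CommRing O] [IsDomain O] [IsDiscreteValuationRing O] {ϖ : O}
    (hϖ : Irreducible ϖ) : Nat.card (O ⧸ Ideal.span {ϖ} ^ 2) =
      Nat.card (O ⧸ Ideal.span {ϖ}) ^ 2 := by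
  have hPmax : (Ideal.span {ϖ}).IsMaximal := PrincipalIdealRing.isMaximal_of_irreducible hϖ
  have hprime : (Ideal.span {ϖ}).IsPrime := hPmax.isPrime
  have h := cardQuot_pow_of_prime (P := Ideal.span {ϖ}) (i := 2)
    (by rw [Ne, Ideal.span_singleton_eq_bot]; exact hϖ.ne_zero)
  rw [Submodule.cardQuot_apply, Submodule.cardQuot_apply] at h
  exact h

/-- The number of bad forms modulo the square of the uniformizer. -/
theorem x3_count {O : Type} [CommRing O] [IsDomain O] [IsDiscreteValuationRing O] {ϖ : O}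
    (hϖ : Irreducible ϖ) (hfin : Finite (O ⧸ Ideal.span {ϖ})) {n d r : ℕ} (hr : r ≤ d)
    (i : Fin (n + 1)) (G : Set (Mono n d → O ⧸ Ideal.span {ϖ} ^ 2))
    (hG : ∀ a ∈ G, ∃ c : Mono n d → O, (∀ μ, Ideal.Quotient.mk _ (c μ) = a μ) ∧
      FinJac ϖ (dehom i (form c)) ∧
      ∃ 𝔮 : Ideal (MvPolynomial {l : Fin (n + 1) // l ≠ i} O), 𝔮.IsMaximal ∧ C ϖ ∈ 𝔮 ∧
        Nat.card (O ⧸ Ideal.span {ϖ}) ^ r <
          Nat.card (MvPolynomial {l : Fin (n + 1) // l ≠ i} O ⧸ 𝔮) ∧
        dehom i (form c) ∈ 𝔮 ^ 2) :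
    Nat.card G * Nat.card (O ⧸ Ideal.span {ϖ}) ^ (r + 1) ≤
      (n * d + 1) ^ (n ^ 2) * Nat.card (Mono n d → O ⧸ Ideal.span {ϖ} ^ 2) := by
  classical
  have hPmax : (Ideal.span {ϖ}).IsMaximal := PrincipalIdealRing.isMaximal_of_irreducible hϖ
  have hnt : Nontrivial (O ⧸ Ideal.span {ϖ}) := Ideal.Quotient.nontrivial_iff.mpr hPmax.ne_top
  have hcard2 := x3_card_sq hϖ
  have hpos : 0 < Nat.card (O ⧸ Ideal.span {ϖ}) := Nat.card_pos
  have hfin2 : Finite (O ⧸ Ideal.span {ϖ} ^ 2) := by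
    refine Nat.finite_of_card_ne_zero ?_
    rw [hcard2]
    positivity
  have := Fintype.ofFinite (Mono n d → O ⧸ Ideal.span {ϖ})
  have := Fintype.ofFinite (Mono n d → O ⧸ Ideal.span {ϖ} ^ 2)
  have hle : Ideal.span {ϖ} ^ 2 ≤ Ideal.span {ϖ} := Ideal.pow_le_self two_ne_zero
  let π : (Mono n d → O ⧸ Ideal.span {ϖ} ^ 2) → (Mono n d → O ⧸ Ideal.span {ϖ}) :=
    fun a μ => Ideal.Quotient.factor hle (a μ)
  have hσ : Fintype.card {l : Fin (n + 1) // l ≠ i} = n := by simp
  -- the bound for the forms with a given reduction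
  have hv : ∀ v : Mono n d → O ⧸ Ideal.span {ϖ},
      (Finset.univ.filter fun a => a ∈ G ∧ π a = v).card *
        Nat.card (O ⧸ Ideal.span {ϖ}) ^ (r + 1) ≤
      (n * d + 1) ^ (n ^ 2) * Nat.card (Mono n d → O ⧸ Ideal.span {ϖ}) := by
    intro v
    rcases (Finset.univ.filter fun a => a ∈ G ∧ π a = v).eq_empty_or_nonempty with hemp | ⟨a₀, ha₀⟩
    · rw [hemp, Finset.card_empty, zero_mul]
      exact Nat.zero_le _
    rw [Finset.mem_filter] at ha₀
    obtain ⟨-, ha₀G, ha₀v⟩ := ha₀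
    obtain ⟨c₀, hc₀, hjac, -⟩ := hG a₀ ha₀G
    set F₀ := dehom i (form c₀) with hF₀
    obtain ⟨hQfin, hQcard⟩ := ncard_sing_le hϖ hfin (totalDegree_dehom_form i c₀) hjac
    rw [hσ] at hQcard
    set Qs := {𝔮 : Ideal (MvPolynomial {l : Fin (n + 1) // l ≠ i} O) | 𝔮.IsMaximal ∧ C ϖ ∈ 𝔮 ∧
      ∀ l, pderiv l F₀ ∈ 𝔮} with hQs
    let T : Ideal (MvPolynomial {l : Fin (n + 1) // l ≠ i} O) →
        Set (Mono n d → O ⧸ Ideal.span {ϖ}) := fun 𝔮 =>
      {c | ∃ c' : Mono n d → O,
        (∀ μ, Ideal.Quotient.mk _ (c' μ) = c μ) ∧ F₀ + C ϖ * dehom i (form c') ∈ 𝔮 ^ 2}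
    let θ : (Mono n d → O ⧸ Ideal.span {ϖ}) → (Mono n d → O ⧸ Ideal.span {ϖ} ^ 2) := fun w μ =>
      Ideal.Quotient.mk _ (c₀ μ + ϖ * Function.surjInv Ideal.Quotient.mk_surjective (w μ))
    let Qf := hQfin.toFinset.filter fun 𝔮 => Nat.card (O ⧸ Ideal.span {ϖ}) ^ r <
          Nat.card (MvPolynomial {l : Fin (n + 1) // l ≠ i} O ⧸ 𝔮)
    have hsub : (Finset.univ.filter fun a => a ∈ G ∧ π a = v) ⊆
        Qf.biUnion fun 𝔮 => (Finset.univ.filter fun w => w ∈ T 𝔮).image θ := by
      intro a ha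
      rw [Finset.mem_filter] at ha
      obtain ⟨-, haG, hav⟩ := ha
      obtain ⟨c, hc, -, 𝔮, hmax, h𝔮, hcard, hmem⟩ := hG a haG
      have h1 : ∀ μ, ∃ t, c μ = c₀ μ + ϖ * t := by
        intro μ
        have h2 : Ideal.Quotient.factor hle (a μ) = Ideal.Quotient.factor hle (a₀ μ) :=
          congrFun (hav.trans ha₀v.symm) μ
        rw [← hc μ, ← hc₀ μ, Ideal.Quotient.factor_mk, Ideal.Quotient.factor_mk,
          Ideal.Quotient.eq, Ideal.mem_span_singleton] at h2
        obtain ⟨t, ht⟩ := h2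
        exact ⟨t, by rw [← ht]; ring⟩
      choose t ht using h1
      have h3 : c = c₀ + fun μ => ϖ * t μ := funext ht
      have h4 : dehom i (form c) = F₀ + C ϖ * dehom i (form t) := by
        rw [h3, x2_form_add, x2_form_mul, map_add, map_mul, dehom_C]
      have h5 : ∀ l, pderiv l F₀ ∈ 𝔮 := by
        intro l
        have h6 : pderiv l (dehom i (form c)) ∈ 𝔮 := by
          have h7 : ∀ x ∈ 𝔮 ^ 2, pderiv l x ∈ 𝔮 := by
            intro x hx
            rw [pow_two] at hx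
            refine Submodule.mul_induction_on hx ?_ ?_
            · intro y hy z hz
              rw [Derivation.leibniz, smul_eq_mul, smul_eq_mul]
              exact 𝔮.add_mem (𝔮.mul_mem_right _ hy) (𝔮.mul_mem_right _ hz)
            · intro y z hy hz
              rw [map_add]
              exact 𝔮.add_mem hy hz
          exact h7 _ hmem
        rw [h4, map_add, pderiv_C_mul] at h6
        have h8 := 𝔮.sub_mem h6 (𝔮.mul_mem_right (pderiv l (dehom i (form t))) h𝔮)
        rwa [add_sub_cancel_right] at h8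
      rw [Finset.mem_biUnion]
      refine ⟨𝔮, ?_, ?_⟩
      · rw [Finset.mem_filter, Set.Finite.mem_toFinset]
        exact ⟨⟨hmax, h𝔮, h5⟩, hcard⟩
      · rw [Finset.mem_image]
        refine ⟨fun μ => Ideal.Quotient.mk _ (t μ), ?_, ?_⟩
        · rw [Finset.mem_filter]
          refine ⟨Finset.mem_univ _, t, fun μ => rfl, ?_⟩
          rw [← h4]
          exact hmem
        · funext μ
          show Ideal.Quotient.mk _ (c₀ μ + ϖ * Function.surjInv Ideal.Quotient.mk_surjective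
            (Ideal.Quotient.mk (Ideal.span {ϖ}) (t μ))) = a μ
          rw [← hc μ, ht μ, Ideal.Quotient.eq]
          have h9 : Function.surjInv Ideal.Quotient.mk_surjective
              (Ideal.Quotient.mk (Ideal.span {ϖ}) (t μ)) - t μ ∈ Ideal.span {ϖ} := by
            rw [← Ideal.Quotient.eq]
            exact Function.surjInv_eq _ _
          rw [Ideal.mem_span_singleton] at h9
          obtain ⟨y, hy⟩ := h9
          rw [add_sub_add_left_eq_sub, ← mul_sub, hy, pow_two]
          exact Ideal.mul_mem_mul (Ideal.mem_span_singleton_self ϖ)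
            (Ideal.mul_mem_right _ _ (Ideal.mem_span_singleton_self ϖ))
    have hT : ∀ 𝔮 ∈ Qf, (Finset.univ.filter fun w => w ∈ T 𝔮).card *
        Nat.card (O ⧸ Ideal.span {ϖ}) ^ (r + 1) ≤ Nat.card (Mono n d → O ⧸ Ideal.span {ϖ}) := by
      intro 𝔮 h𝔮
      rw [Finset.mem_filter, Set.Finite.mem_toFinset] at h𝔮
      obtain ⟨⟨hmax, h𝔮1, -⟩, hcard⟩ := h𝔮
      have h1 := card_next_digit hϖ hfin hr i hmax h𝔮1 hcard F₀
      have h2 : (Finset.univ.filter fun w => w ∈ T 𝔮).card =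
          Nat.card {c : Mono n d → O ⧸ Ideal.span {ϖ} // ∃ c' : Mono n d → O,
            (∀ μ, Ideal.Quotient.mk _ (c' μ) = c μ) ∧ F₀ + C ϖ * dehom i (form c') ∈ 𝔮 ^ 2} := by
        rw [Nat.card_eq_fintype_card, Fintype.card_subtype]
        rfl
      rw [h2]
      exact h1
    have hQf : Qf.card ≤ (n * d + 1) ^ (n ^ 2) := by
      refine (Finset.card_filter_le _ _).trans ?_
      rw [← Set.ncard_eq_toFinset_card _ hQfin]
      exact hQcard
    have hs1 : (Finset.univ.filter fun a => a ∈ G ∧ π a = v).card ≤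
        ∑ 𝔮 ∈ Qf, (Finset.univ.filter fun w => w ∈ T 𝔮).card := by
      refine (Finset.card_le_card hsub).trans (Finset.card_biUnion_le.trans ?_)
      exact Finset.sum_le_sum fun 𝔮 _ => Finset.card_image_le
    have hs2 : (∑ 𝔮 ∈ Qf, (Finset.univ.filter fun w => w ∈ T 𝔮).card) *
        Nat.card (O ⧸ Ideal.span {ϖ}) ^ (r + 1) ≤
        Qf.card * Nat.card (Mono n d → O ⧸ Ideal.span {ϖ}) := by
      rw [Finset.sum_mul, ← smul_eq_mul (a := Qf.card), ← Finset.sum_const]
      exact Finset.sum_le_sum hT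
    exact (Nat.mul_le_mul_right _ hs1).trans (hs2.trans (Nat.mul_le_mul_right _ hQf))
  have hGcard : Nat.card G = ∑ v : Mono n d → O ⧸ Ideal.span {ϖ},
      (Finset.univ.filter fun a => a ∈ G ∧ π a = v).card := by
    have h1 : Nat.card G = (Finset.univ.filter fun a => a ∈ G).card := by
      rw [Nat.card_eq_fintype_card, Fintype.card_subtype]
    rw [h1, Finset.card_eq_sum_card_fiberwise (f := π) (t := Finset.univ)
      (fun _ _ => Finset.mem_coe.mpr (Finset.mem_univ _))]
    refine Finset.sum_congr rfl fun v _ => ?_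
    rw [Finset.filter_filter]
  have hcardfun : Nat.card (Mono n d → O ⧸ Ideal.span {ϖ} ^ 2) =
      Nat.card (Mono n d → O ⧸ Ideal.span {ϖ}) * Nat.card (Mono n d → O ⧸ Ideal.span {ϖ}) := by
    rw [Nat.card_fun, Nat.card_fun, hcard2, ← pow_mul, ← pow_add]
    congr 1
    ring
  rw [hGcard, Finset.sum_mul, hcardfun]
  refine (Finset.sum_le_sum fun v _ => hv v).trans (le_of_eq ?_)
  rw [Finset.sum_const, smul_eq_mul, Finset.card_univ, ← Nat.card_eq_fintype_card]
  ring

/-- The coefficients modulo a power of the maximal ideal of the local ring. -/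
theorem x3_surj {E : Type} [Field E] [NumberField E] {s : ℕ} (b : Module.Basis (Fin s) ℤ (𝓞 E))
    {ι : Type} (P : HeightOneSpectrum (𝓞 E)) {ϖ : locRing E P} (hϖ : Irreducible ϖ) (k : ℕ) :
    ∃ ψ : (ι × Fin s → ℤ) →+ (ι → locRing E P ⧸ Ideal.span {ϖ} ^ k), Function.Surjective ψ ∧
      ∀ u μ, ψ u μ = Ideal.Quotient.mk _ (algebraMap (𝓞 E) (locRing E P) (DNF.coeffs b u μ)) := by
  refine ⟨{ toFun := fun u μ =>
              Ideal.Quotient.mk _ (algebraMap (𝓞 E) (locRing E P) (DNF.coeffs b u μ))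
            map_zero' := ?_
            map_add' := ?_ }, ?_, fun u μ => rfl⟩
  · funext μ
    simp [DNF.coeffs]
  · intro u u'
    funext μ
    simp only [DNF.coeffs, Pi.add_apply, add_smul, Finset.sum_add_distrib, map_add]
  · intro w
    have h1 : ∀ μ, ∃ x : 𝓞 E, Ideal.Quotient.mk (Ideal.span {ϖ} ^ k)
        (algebraMap (𝓞 E) (locRing E P) x) = w μ := by
      intro μ
      obtain ⟨z, hz⟩ := Ideal.Quotient.mk_surjective (w μ)
      obtain ⟨x', hx'⟩ := (IsLocalization.AtPrime.equivQuotMaximalIdealPow P.asIdeal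
        (locRing E P) k).surjective (Ideal.Quotient.mk _ z)
      obtain ⟨x, rfl⟩ := Ideal.Quotient.mk_surjective x'
      rw [IsLocalization.AtPrime.equivQuotMaximalIdealPow_apply_mk, Ideal.Quotient.eq] at hx'
      refine ⟨x, ?_⟩
      rw [← hz, Ideal.Quotient.eq, span_uniformizer P hϖ]
      exact hx'
    choose x hx using h1
    refine ⟨fun p => b.repr (x p.1) p.2, ?_⟩
    funext μ
    show Ideal.Quotient.mk _ (algebraMap (𝓞 E) (locRing E P)
      (DNF.coeffs b (fun p : ι × Fin s => b.repr (x p.1) p.2) μ)) = w μ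
    rw [← hx μ]
    congr 2
    exact b.sum_repr (x μ)

/-- Uses `card_next_digit`, `ncard_sing_le`, `totalDegree_dehom_form`, `redk_hom` with
`k = 2`, `UD.hom`. If `F ∈ 𝔮 ^ 2`, the derivatives of `F` lie in `𝔮`, so for given `F` modulo `ϖ`
there are at most `(n * d + 1) ^ (n ^ 2)` possibilities for `𝔮`. -/
theorem high_UD {E : Type} [Field E] [NumberField E] {s : ℕ} (b : Module.Basis (Fin s) ℤ (𝓞 E))
    {n d r : ℕ} (hr : r ≤ d) (i : Fin (n + 1)) (P : HeightOneSpectrum (𝓞 E))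
    {ϖ : locRing E P} (hϖ : Irreducible ϖ) :
    UD (fun u : Mono n d × Fin s → ℤ =>
        FinJac ϖ (dehom i (form fun μ => algebraMap (𝓞 E) (locRing E P) (coeffs b u μ))) ∧
        ∃ 𝔮 : Ideal (MvPolynomial {l : Fin (n + 1) // l ≠ i} (locRing E P)), 𝔮.IsMaximal ∧
          C ϖ ∈ 𝔮 ∧ Nat.card (𝓞 E ⧸ P.asIdeal) ^ r <
            Nat.card (MvPolynomial {l : Fin (n + 1) // l ≠ i} (locRing E P) ⧸ 𝔮) ∧
          dehom i (form fun μ => algebraMap (𝓞 E) (locRing E P) (coeffs b u μ)) ∈ 𝔮 ^ 2)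
      ((n * d + 1 : ℝ) ^ (n ^ 2) / (Nat.card (𝓞 E ⧸ P.asIdeal) : ℝ) ^ (r + 1)) := by
  have hfin := finite_res P hϖ
  have hcard := card_res P hϖ
  have hPmax : (Ideal.span {ϖ}).IsMaximal := PrincipalIdealRing.isMaximal_of_irreducible hϖ
  have hnt : Nontrivial (locRing E P ⧸ Ideal.span {ϖ}) :=
    Ideal.Quotient.nontrivial_iff.mpr hPmax.ne_top
  have hpos : 0 < Nat.card (locRing E P ⧸ Ideal.span {ϖ}) := Nat.card_pos
  have hfin2 : Finite (locRing E P ⧸ Ideal.span {ϖ} ^ 2) := by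
    refine Nat.finite_of_card_ne_zero ?_
    rw [x3_card_sq hϖ]
    positivity
  obtain ⟨ψ, hψ, hψu⟩ := x3_surj (ι := Mono n d) b P hϖ 2
  rw [← hcard]
  refine UD.hom ψ hψ (ψ '' {u | FinJac ϖ (dehom i (form fun μ =>
      algebraMap (𝓞 E) (locRing E P) (coeffs b u μ))) ∧
        ∃ 𝔮 : Ideal (MvPolynomial {l : Fin (n + 1) // l ≠ i} (locRing E P)), 𝔮.IsMaximal ∧
          C ϖ ∈ 𝔮 ∧ Nat.card (locRing E P ⧸ Ideal.span {ϖ}) ^ r <
            Nat.card (MvPolynomial {l : Fin (n + 1) // l ≠ i} (locRing E P) ⧸ 𝔮) ∧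
          dehom i (form fun μ => algebraMap (𝓞 E) (locRing E P) (coeffs b u μ)) ∈ 𝔮 ^ 2})
    (fun u hu => Set.mem_image_of_mem ψ hu) ?_
  have h1 := x3_count hϖ hfin hr i (ψ '' {u | FinJac ϖ (dehom i (form fun μ =>
      algebraMap (𝓞 E) (locRing E P) (coeffs b u μ))) ∧
        ∃ 𝔮 : Ideal (MvPolynomial {l : Fin (n + 1) // l ≠ i} (locRing E P)), 𝔮.IsMaximal ∧
          C ϖ ∈ 𝔮 ∧ Nat.card (locRing E P ⧸ Ideal.span {ϖ}) ^ r <
            Nat.card (MvPolynomial {l : Fin (n + 1) // l ≠ i} (locRing E P) ⧸ 𝔮) ∧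
          dehom i (form fun μ => algebraMap (𝓞 E) (locRing E P) (coeffs b u μ)) ∈ 𝔮 ^ 2})
    (by
      rintro a ⟨u, ⟨hu1, 𝔮, hu2⟩, rfl⟩
      exact ⟨fun μ => algebraMap (𝓞 E) (locRing E P) (coeffs b u μ), fun μ => (hψu u μ).symm, hu1,
        𝔮, hu2⟩)
  rw [div_mul_eq_mul_div, le_div_iff₀ (by positivity)]
  exact_mod_cast h1

end Pool.Agent.Lib.MP_6a3dac_ag.Maj
end
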