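import Pool.Agent.Lib.MP_6a3dac_ag.Mg.G011
import Pool.Agent.Lib.MP_6a3dac_ag.Mg.G010
import Pool.Agent.Lib.MP_6a3dac_ag.Mg.G008
import Pool.Agent.Lib.MP_6a3dac_ag.Mg.G035
import Pool.Agent.Lib.MP_6a3dac_ag.Mg.G037

section

/-!
# The local theorem for systems
-/

set_option autoImplicit false

namespace Pool.Agent.Lib.MP_6a3dac_ag.Sys

open MvPolynomial Matrix IsLocalRing
open Pool.Agent.Lib.MP_6a3dac_ag.DNF

/-- Equations with an invertible maximal minor are independent. -/
theorem t11_indep {O : Type} [CommRing O] {σ : Type} {c : ℕ} {F : Fin c → MvPolynomial σ O}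
    (Q : Ideal (MvPolynomial σ O)) [hQp : Q.IsPrime] (hF : ∀ k, F k ∈ Q) {s : Fin c → σ}
    (hs : minor F s ∉ Q) {s' : MvPolynomial σ O} (hs' : s' ∉ Q) {d : Fin c → MvPolynomial σ O}
    (h : s' * ∑ i, d i * F i ∈ Q ^ 2) : ∀ i, d i ∈ Q := by
  have h1 : ∀ b, ∑ i, d i * (Matrix.of fun k b => pderiv (s b) (F k)) i b ∈ Q := by
    intro b
    have h2 := derivation_mem Q (pderiv (s b)) hs' h
    rw [map_sum] at h2
    have h3 : ∑ i, pderiv (s b) (d i * F i) =
        ∑ i, d i * (Matrix.of fun k b => pderiv (s b) (F k)) i b +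
          ∑ i, F i * pderiv (s b) (d i) := by
      rw [← Finset.sum_add_distrib]
      refine Finset.sum_congr rfl fun i _ => ?_
      rw [Derivation.leibniz, smul_eq_mul, smul_eq_mul, Matrix.of_apply]
    rw [h3] at h2
    exact (Submodule.add_mem_iff_left Q (Q.sum_mem fun i _ => Q.mul_mem_right _ (hF i))).mp h2
  intro i
  have h2 : minor F s * d i ∈ Q := by
    have h3 : ((d ᵥ* (Matrix.of fun k b => pderiv (s b) (F k))) ᵥ*
        (Matrix.of fun k b => pderiv (s b) (F k)).adjugate) i = minor F s * d i := by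
      rw [Matrix.vecMul_vecMul, Matrix.mul_adjugate, Matrix.vecMul_smul, Matrix.vecMul_one,
        Pi.smul_apply, smul_eq_mul]
      rfl
    rw [← h3]
    have h4 : ∀ b, (d ᵥ* (Matrix.of fun k b => pderiv (s b) (F k))) b ∈ Q := h1
    show ∑ b, (d ᵥ* (Matrix.of fun k b => pderiv (s b) (F k))) b *
      (Matrix.of fun k b => pderiv (s b) (F k)).adjugate b i ∈ Q
    exact Q.sum_mem fun b _ => Q.mul_mem_right _ (h4 b)
  exact (hQp.mem_or_mem h2).resolve_left hs

section

variable {O : Type} [CommRing O] {σ : Type} [Fintype σ] [DecidableEq σ]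
    [IsDomain O] [IsDiscreteValuationRing O] {c : ℕ} {F : Fin c → MvPolynomial σ O} {D : Type}
    [CommRing D] [IsDomain D] [IsLocalRing D] (φ : MvPolynomial σ O →+* D) {ϖ : O}
    (hϖ : Irreducible ϖ) (hφF : ∀ k, φ (F k) = 0)
    (hker : ∀ g, φ g = 0 → ∃ z, φ z ≠ 0 ∧ z * g ∈ Ideal.span (Set.range F))
    (hchar : ∀ m : O, m ≠ 0 → φ (C m) ≠ 0) {r : ℕ}
    {Z : Finset D} (hZ : ∀ z, z ∈ Z ↔ ∃ s, φ (minor F s) = z) (b : ℕ → D)
    (hb : ∀ j, 1 ≤ j → j ≤ r → b j ≠ 0 ∧ InJ (locIn φ) (φ (C ϖ)) Z j (b j) ∧ b j ∣ φ (C ϖ) ^ j ∧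
      ∀ z ∈ Z, b j ∣ z)
    (hgen : ∀ R' : Subring D, Dom R' → locIn φ ≤ R' →
      (∀ j, 1 ≤ j → j ≤ r → ∀ x, InJ (locIn φ) (φ (C ϖ)) Z j x → ∀ w, b j * w = x → w ∈ R') →
        R' = ⊤)
include hϖ hφF hker hchar hZ hb hgen

/-- The smooth points. -/
theorem isRegularLocalRing_sys_smooth (hs : ∃ s, IsUnit (φ (minor F s))) :
    IsRegularLocalRing D := by
  have hpR : φ (C ϖ) ∈ locIn φ := map_mem_locIn φ _
  have hZR : ∀ z ∈ Z, z ∈ locIn φ := by
    intro z hz
    obtain ⟨l, rfl⟩ := (hZ z).mp hz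
    exact map_mem_locIn φ _
  have hQp : (Ideal.comap φ (maximalIdeal D)).IsPrime := Ideal.IsPrime.comap φ
  have hun : ∀ x, x ∉ Ideal.comap φ (maximalIdeal D) ↔ IsUnit (φ x) := by
    intro x
    rw [Ideal.mem_comap, IsLocalRing.mem_maximalIdeal, mem_nonunits_iff, not_not]
  have hFQ : ∀ k, F k ∈ Ideal.comap φ (maximalIdeal D) := by
    intro k
    rw [Ideal.mem_comap, hφF]; exact Ideal.zero_mem _
  obtain ⟨s, hl⟩ := hs
  have htop : locIn φ = ⊤ := by
    refine hgen (locIn φ) (dom_locIn φ) le_rfl ?_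
    intro j h1 h2 x hx w hw
    obtain ⟨-, hbj, -, hbz⟩ := hb j h1 h2
    have h3 : b j ∈ locIn φ := inJ_mem hpR hZR hbj
    have h4 : IsUnit (b j) := isUnit_of_dvd_unit (hbz _ ((hZ _).mpr ⟨s, rfl⟩)) hl
    obtain ⟨y, hy⟩ := h4.exists_right_inv
    have h5 : y ∈ locIn φ := dom_locIn φ _ h3 _ hy
    have h6 : w = y * x := by
      rw [← hw, ← mul_assoc, mul_comm y, hy, one_mul]
    rw [h6]
    exact (locIn φ).mul_mem h5 (inJ_mem hpR hZR hx)
  refine isRegularLocalRing_of_chart φ F hφF ?_ ?_ ?_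
  · intro s' hs' d hd
    exact t11_indep _ hFQ ((hun _).mpr hl) ((hun _).mpr hs') hd
  · intro z
    have h1 : z ∈ locIn φ := by rw [htop]; exact Subring.mem_top z
    obtain ⟨a, s, h2, h3⟩ := h1
    exact ⟨a, s, h2, h3⟩
  · intro g hg
    exact hker g hg

/-- **The local theorem.** -/
theorem isRegularLocalRing_sys (hsing : r = 0 ∨ NondegSys ϖ F)
    (hr : C ϖ ^ r ∈ Ideal.span (Set.range F ∪ Set.range (minor F))) :
    IsRegularLocalRing D := by
  by_cases hA : ∃ s, IsUnit (φ (minor F s))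
  · exact isRegularLocalRing_sys_smooth φ hϖ hφF hker hchar hZ b hb hgen hA
  push Not at hA
  have hmin : ∀ s, φ (minor F s) ∈ maximalIdeal D := fun s =>
    (IsLocalRing.mem_maximalIdeal _).mpr (hA s)
  have hle : Ideal.span (Set.range F ∪ Set.range (minor F)) ≤
      Ideal.comap φ (maximalIdeal D) := by
    rw [Ideal.span_le]
    rintro x (⟨k, rfl⟩ | ⟨s, rfl⟩)
    · change φ (F k) ∈ maximalIdeal D
      rw [hφF]
      exact Ideal.zero_mem _
    · exact hmin s
  have h1 : φ (C ϖ) ^ r ∈ maximalIdeal D := by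
    rw [← map_pow]
    exact hle hr
  have hr0 : r ≠ 0 := by
    rintro rfl
    rw [pow_zero] at h1
    exact (maximalIdeal.isMaximal D).ne_top ((Ideal.eq_top_iff_one _).mpr h1)
  have hpm : φ (C ϖ) ∈ maximalIdeal D :=
    (maximalIdeal.isMaximal D).isPrime.mem_of_pow_mem r h1
  have hnd := hsing.resolve_left hr0
  obtain ⟨j, s, φ', g1, g2, g3, g4, g5⟩ := exists_lift φ hφF hpm hmin hnd
  obtain ⟨M, hM⟩ : ∃ M : Finset (σ ⊕ {k : Fin c // k ≠ j}),
    M = (Finset.univ.image fun b => Sum.inl (s b)) ∪ Finset.univ.image Sum.inr := ⟨_, rfl⟩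
  obtain ⟨Z', hZ'⟩ : ∃ Z' : Finset D, ∀ z, z ∈ Z' ↔ ∃ l, φ' (pderiv l (lagr F j)) = z := by
    classical
    refine ⟨Finset.univ.image fun l => φ' (pderiv l (lagr F j)), fun z => ?_⟩
    simp
  have hC : ∀ m : O, φ' (C m) = φ (C m) := by
    intro m
    rw [← g1, rename_C]
  have hinr : ∀ k : {k : Fin c // k ≠ j}, φ' (pderiv (Sum.inr k) (lagr F j)) = 0 := by
    intro k
    rw [pd_inr_lagr, g1, hφF]
  obtain ⟨c₀, e, hce⟩ := lift_jac j hr
  rw [map_pow, rename_C] at hce
  have hloc : locIn φ' = locIn φ := lift_locIn g1 g2 g3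
  refine isRegularLocalRing_constr φ' hϖ M (F := lagr F j) ?_ ?_
    (fun g hg => lift_ker g1 g2 g3 hφF hker M hM g hg) ?_ ?_ ?_ g5
    (lift_hessM g1 g2 g3 g5 M hM) hce hZ' b ?_ ?_
  · rw [lagr, map_add, g1, hφF, zero_add, map_sum]
    refine Finset.sum_eq_zero fun k _ => ?_
    rw [map_mul, g1, hφF, mul_zero]
  · intro a ha
    rw [hM, Finset.mem_union, Finset.mem_image, Finset.mem_image] at ha
    rcases ha with ⟨b', -, rfl⟩ | ⟨k, -, rfl⟩
    · exact g3 b'
    · exact hinr k
  · intro m hm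
    rw [hC]
    exact hchar m hm
  · rw [hC]
    exact hpm
  · rintro (l | k)
    · exact g4 l
    · rw [hinr]
      exact Ideal.zero_mem _
  · intro i hi1 hi2
    obtain ⟨a1, a2, a3, a4⟩ := hb i hi1 hi2
    rw [hC, hloc]
    exact ⟨a1, (lift_inJ g1 g2 g3 hφF hZ hZ' i _).mp a2, a3, lift_dvd g1 g2 g3 hφF hZ hZ' a4⟩
  · intro R' hR' hle' hx
    rw [hloc] at hle'
    refine hgen R' hR' hle' fun i hi1 hi2 x hx' w hw => ?_
    refine hx i hi1 hi2 x ?_ w hw
    rw [hC, hloc]
    exact (lift_inJ g1 g2 g3 hφF hZ hZ' i _).mp hx'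

end

end Pool.Agent.Lib.MP_6a3dac_ag.Sys
end

section

/-!
# The local rings of the blow-up of a system
-/

set_option autoImplicit false
set_option linter.unusedSectionVars false

namespace Pool.Agent.Lib.MP_6a3dac_ag.Sys

open MvPolynomial IsLocalRing
open Pool.Agent.Lib.MP_6a3dac_ag.DNF

section Data

variable {K A O : Type} [Field K] [CommRing A] [Algebra K A] [CommRing O] (𝒜 : ℕ → Submodule K A)
  {n c : ℕ} (π : MvPolynomial (Fin (n + 1)) O →+* A) (f : Fin c → MvPolynomial (Fin (n + 1)) O)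
  (d : Fin c → ℕ)

/-- The homogeneous coordinate ring of a system. -/
structure SysData : Prop where
  deg : ∀ q e, q.IsHomogeneous e → π q ∈ 𝒜 e
  hf : ∀ k, (f k).IsHomogeneous (d k)
  zero : ∀ k, π (f k) = 0
  ker : ∀ g, π g = 0 → ∃ m : O, m ≠ 0 ∧ C m * g ∈ Ideal.span (Set.range f)

/-- The generators of the `j`-th ideal. -/
def bsetS (ϖ : A) (j : ℕ) : Set A :=
  {b | (∃ k, b = ϖ ^ j * π (X k) ^ (∑ k, (d k - 1))) ∨ ∃ s, b = π (minor f s)}

theorem finite_bsetS (ϖ : A) (j : ℕ) : (bsetS π f d ϖ j).Finite := by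
  refine ((Set.finite_range fun k => ϖ ^ j * π (X k) ^ (∑ k, (d k - 1))).union
    (Set.finite_range fun s => π (minor f s))).subset ?_
  rintro b (⟨k, rfl⟩ | ⟨l, rfl⟩)
  · exact Or.inl ⟨k, rfl⟩
  · exact Or.inr ⟨l, rfl⟩

end Data

section

variable {R K A O : Type} [CommRing R] [Field K] [Algebra R K] [CommRing A] [IsDomain A]
  [Algebra K A] [Algebra R A] [IsScalarTower R K A] {𝒜 : ℕ → Submodule K A} [GradedAlgebra 𝒜]
  [CommRing O] [IsDomain O] [IsDiscreteValuationRing O] [Algebra R O] [Algebra O K]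
  [IsScalarTower R O K] (hOK : Function.Injective (algebraMap O K))
  (P : Ideal R) [P.IsPrime] [IsLocalization.AtPrime O P] {n c : ℕ}
  {π : MvPolynomial (Fin (n + 1)) O →+* A} {f : Fin c → MvPolynomial (Fin (n + 1)) O}
  {d : Fin c → ℕ} (h : SysData 𝒜 π f d)
  (hπC : ∀ c, π (C c) = algebraMap K A (algebraMap O K c)) (hd : 1 ≤ ∑ k, (d k - 1))
include h hπC hd

theorem SysData.orderHyp (ϖ : O) (r : ℕ) :
    DNF.OrderHyp 𝒜 (fun k => π (X k)) (bsetS π f d (oA K A O ϖ)) (∑ k, (d k - 1)) (oA K A O ϖ)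
      (oA K A O).range r
      (locSub P (Algebra.adjoin R (DNF.WSet (fun k => π (X k)) (bsetS π f d (oA K A O ϖ)) r ∪
        DNF.W1Set (fun k => π (X k)) (oA K A O ϖ) r))) := by
  have hdeg0 : ∀ c : O, oA K A O c ∈ 𝒜 0 := fun c => SetLike.algebraMap_mem_graded 𝒜 _
  have hpow : ∀ j, (oA K A O ϖ) ^ j ∈ 𝒜 0 := fun j => by
    simpa using SetLike.pow_mem_graded j (hdeg0 ϖ)
  have hx : ∀ k, π (X k) ∈ 𝒜 1 := fun k => h.deg _ _ (isHomogeneous_X O k)
  have hB : ∀ j, ∀ b ∈ bsetS π f d (oA K A O ϖ) j, b ∈ 𝒜 (∑ k, (d k - 1)) := by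
    rintro j b (⟨k, rfl⟩ | ⟨l, rfl⟩)
    · have h1 := SetLike.mul_mem_graded (hpow j)
        (SetLike.pow_mem_graded (∑ k, (d k - 1)) (hx k))
      simpa using h1
    · exact h.deg _ _ (isHomogeneous_minor h.hf l)
  have hadj : IsHomog 𝒜 (Algebra.adjoin R (DNF.WSet (fun k => π (X k))
      (bsetS π f d (oA K A O ϖ)) r ∪ DNF.W1Set (fun k => π (X k)) (oA K A O ϖ) r)) := by
    apply isHomog_adjoin 𝒜
    rintro w (⟨i, q, ⟨β, hβ, rfl⟩, rfl⟩ | ⟨i, rfl⟩)
    · exact ⟨1 + ∑ j ∈ Finset.Icc 1 r, (∑ k, (d k - 1)), SetLike.mul_mem_graded (hx i)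
        (SetLike.prod_mem_graded (A := 𝒜) (fun _ => ∑ k, (d k - 1)) _
          fun j hj => hB j _ (hβ j hj))⟩
    · exact ⟨(∑ j ∈ Finset.Icc 1 r, 0) + 1, SetLike.mul_mem_graded
        (SetLike.prod_mem_graded (A := 𝒜) (fun _ => 0) _ fun j _ => hpow j) (hx i)⟩
  exact
    { xdeg := hx
      δpos := by omega
      B_deg := hB
      B_pow := fun j k => Or.inl ⟨k, rfl⟩
      Λdeg := by
        rintro _ ⟨c, rfl⟩
        exact hdeg0 c
      ϖΛ := ⟨ϖ, rfl⟩
      hom := isHomog_locSub 𝒜 P hadj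
      Λ_le := by
        rintro _ ⟨c, rfl⟩
        obtain ⟨s, hs, a, ha⟩ := exists_smul_oA (K := K) (A := A) P c
        refine ⟨s, hs, ?_⟩
        rw [ha]
        exact Subalgebra.algebraMap_mem _ a
      W_le := fun c hc => le_locSub _ _ (Algebra.subset_adjoin (Or.inl hc))
      W1_le := fun c hc => le_locSub _ _ (Algebra.subset_adjoin (Or.inr hc))
      gen := by
        intro N hN1 hN2 hN3 t ht
        obtain ⟨a, ha, hat⟩ := ht
        have hadjN : ∀ m ∈ Algebra.adjoin R (DNF.WSet (fun k => π (X k))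
            (bsetS π f d (oA K A O ϖ)) r ∪ DNF.W1Set (fun k => π (X k)) (oA K A O ϖ) r),
            m ∈ N := by
          intro m hm
          induction hm using Algebra.adjoin_induction with
          | mem m hm =>
            rcases hm with hm | hm
            · exact hN2 _ hm
            · exact hN3 _ hm
          | algebraMap a => exact hN1 _ ⟨algebraMap R O a, oA_algebraMap a⟩
          | add a b _ _ ha hb => exact N.add_mem ha hb
          | mul a b _ _ ha hb => exact N.mul_mem ha hb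
        obtain ⟨b, hb⟩ := (IsLocalization.map_units O (⟨a, ha⟩ : P.primeCompl)).exists_right_inv
        have hab : algebraMap R A a * oA K A O b = 1 := by
          rw [← oA_algebraMap (K := K) (O := O), ← map_mul, hb, map_one]
        have h1 : t = oA K A O b * (a • t) := by
          rw [Algebra.smul_def, ← mul_assoc, mul_comm (oA K A O b), hab, one_mul]
        rw [h1]
        exact N.mul_mem (hN1 _ ⟨b, rfl⟩) (hadjN _ hat) }

include hOK in
/-- **The local rings are regular.** -/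
theorem SysData.main {F : Type} [Field F] (ι : A →+* F) (hι : Function.Injective ι)
    {ϖ : O} (hϖ : Irreducible ϖ) (r : ℕ) {T : Subalgebra R A}
    (hT : T = locSub P (Algebra.adjoin R (DNF.WSet (fun k => π (X k))
        (bsetS π f d (oA K A O ϖ)) r ∪ DNF.W1Set (fun k => π (X k)) (oA K A O ϖ) r)))
    (hsing : r = 0 ∨ ∀ i, NondegSys ϖ fun k => dehom i (f k))
    (hr : ∀ i, C ϖ ^ r ∈ Ideal.span
      (Set.range (fun k => dehom i (f k)) ∪ Set.range (minor fun k => dehom i (f k))))
    (Q : Ideal T) (hQ : Q.IsPrime)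
    (hrel : ∃ k, 0 < k ∧ ∃ t : T, (t : A) ∈ 𝒜 k ∧ t ∉ Q) :
    IsRegularLocalRing (homLoc 𝒜 ι T Q) := by
  classical
  obtain ⟨δ, hδ⟩ : ∃ δ, δ = ∑ k, (d k - 1) := ⟨_, rfl⟩
  have hO : DNF.OrderHyp 𝒜 (fun k => π (X k)) (bsetS π f d (oA K A O ϖ)) δ (oA K A O ϖ)
      (oA K A O).range r T := by
    rw [hT, hδ]; exact h.orderHyp P hπC hd ϖ r
  obtain ⟨i, β, hβ, hf, hfQ⟩ := hO.exists_notMem Q hrel
  have hloc := isLocalRing_homLoc 𝒜 ι T Q hι
  obtain ⟨D, hD⟩ : ∃ D, D = homLoc 𝒜 ι T Q := ⟨_, rfl⟩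
  have hlocD : IsLocalRing D := hD ▸ hloc
  have hΛD : ∀ c : O, ι (oA K A O c) ∈ D := fun c =>
    hD ▸ hO.const_mem ι hι Q hβ hf hfQ ⟨c, rfl⟩
  obtain ⟨hx0, hβ0⟩ := DNF.OrderHyp.chart_ne_zero (x := fun k => π (X k)) ι hι Q hf hfQ
  change ι (π (X i)) ≠ 0 at hx0
  have hcoord : ∀ k, ι (π (X k)) / ι (π (X i)) ∈ D := fun k =>
    hD ▸ hO.coord_mem ι hι Q hβ hf hfQ k
  have hratio : ∀ j ∈ Finset.Icc 1 r, ∀ b ∈ bsetS π f d (oA K A O ϖ) j, ι b / ι (β j) ∈ D :=
    fun j hj b hb => hD ▸ hO.ratio_mem ι hι Q hβ hf hfQ hj hb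
  -- characteristic zero
  have hchar : ∀ a : O, a ≠ 0 → ι (oA K A O a) ≠ 0 := by
    intro a ha h0
    have h2 : oA K A O a = 0 := hι (by rw [h0, map_zero])
    rw [oA, RingHom.comp_apply, map_eq_zero] at h2
    exact ha (hOK (by rw [h2, map_zero]))
  -- the evaluation maps
  let oD : O →+* D := (ι.comp (oA K A O)).codRestrict D fun c => hΛD c
  let ψ : MvPolynomial (Fin (n + 1)) O →+* F := eval₂Hom (ι.comp (oA K A O))
    fun k => ι (π (X k)) / ι (π (X i))
  let φ : MvPolynomial {l : Fin (n + 1) // l ≠ i} O →+* D := eval₂Hom oD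
    fun l => ⟨ι (π (X l.1)) / ι (π (X i)), hcoord l.1⟩
  have hφC : ∀ c : O, ((φ (C c) : D) : F) = ι (oA K A O c) := by
    intro c
    simp only [φ, coe_eval₂Hom, eval₂_C]
    rfl
  have hφψ : ∀ q, ((φ (dehom i q) : D) : F) = ψ q := by
    intro q
    have h1 : (D.subtype.comp φ).comp (dehom i : _ →ₐ[O] _).toRingHom = ψ := by
      apply MvPolynomial.ringHom_ext
      · intro a
        change D.subtype (φ (dehom i (C a))) = ψ (C a)
        rw [dehom_C]
        change ((φ (C a) : D) : F) = _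
        rw [hφC]
        simp only [ψ, coe_eval₂Hom, eval₂_C]
        rfl
      · intro k
        change D.subtype (φ (dehom i (X k))) = ψ (X k)
        by_cases hk : k = i
        · subst hk
          rw [dehom_X_self, map_one, map_one]
          simp only [ψ, coe_eval₂Hom, eval₂_X]
          rw [div_self hx0]
        · rw [show k = (⟨k, hk⟩ : {l : Fin (n + 1) // l ≠ i}).1 from rfl, dehom_X]
          simp only [φ, ψ, coe_eval₂Hom, eval₂_X]
          rfl
    exact congrArg (fun g : MvPolynomial (Fin (n + 1)) O →+* F => g q) h1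
  have hψhom : ∀ (e : ℕ) (q : MvPolynomial (Fin (n + 1)) O), q.IsHomogeneous e →
      ι (π q) = ι (π (X i)) ^ e * ψ q := by
    intro e q hq
    have h1 : ι (π q) = eval₂ (ι.comp (oA K A O)) (fun k => ι (π (X k))) q := by
      have h2 : ι.comp π = eval₂Hom (ι.comp (oA K A O)) (fun k => ι (π (X k))) := by
        apply MvPolynomial.ringHom_ext
        · intro a
          simp only [RingHom.comp_apply, coe_eval₂Hom, eval₂_C]
          rw [hπC]
          rfl
        · intro k
          simp only [RingHom.comp_apply, coe_eval₂Hom, eval₂_X]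
      exact congrArg (fun g : MvPolynomial (Fin (n + 1)) O →+* F => g q) h2
    rw [h1]
    change _ = ι (π (X i)) ^ e * eval₂ (ι.comp (oA K A O))
      (fun k => ι (π (X k)) / ι (π (X i))) q
    rw [eval₂_eq, eval₂_eq, Finset.mul_sum]
    refine Finset.sum_congr rfl fun s hs => ?_
    have h3 : s.degree = e := by
      have := hq (mem_support_iff.mp hs)
      rw [← this, Finsupp.degree_eq_weight_one]
      rfl
    have h4 : ∏ k ∈ s.support, (ι (π (X k)) / ι (π (X i))) ^ s k =
        (∏ k ∈ s.support, ι (π (X k)) ^ s k) / ι (π (X i)) ^ e := by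
      rw [← h3, Finsupp.degree_apply, ← Finset.prod_pow_eq_pow_sum, ← Finset.prod_div_distrib]
      refine Finset.prod_congr rfl fun k _ => ?_
      rw [div_pow]
    rw [h4]
    field_simp
  have hφf : ∀ k, φ (dehom i (f k)) = 0 := by
    intro k
    apply Subtype.ext
    rw [hφψ]
    have h1 := hψhom (d k) (f k) (h.hf k)
    rw [h.zero, map_zero] at h1
    exact (mul_eq_zero.mp h1.symm).resolve_left (pow_ne_zero _ hx0)
  have hφspan : ∀ q ∈ Ideal.span (Set.range fun k => dehom i (f k)), φ q = 0 := by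
    intro q hq
    have h1 : Ideal.span (Set.range fun k => dehom i (f k)) ≤ RingHom.ker φ := by
      rw [Ideal.span_le]
      rintro _ ⟨k, rfl⟩
      exact hφf k
    exact h1 hq
  have hchar' : ∀ a : O, a ≠ 0 → φ (C a) ≠ 0 := by
    intro a ha h0
    apply hchar a ha
    rw [← hφC, h0]
    rfl
  have hker : ∀ g, φ g = 0 → ∃ z, φ z ≠ 0 ∧
      z * g ∈ Ideal.span (Set.range fun k => dehom i (f k)) := by
    intro g hg
    obtain ⟨N, G, hG, rfl⟩ := exists_homog i g
    have h1 := hψhom N G hG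
    rw [← hφψ, hg] at h1
    have h2 : π G = 0 := by
      apply hι
      rw [h1, map_zero]
      exact mul_zero _
    obtain ⟨m, hm, hq⟩ := h.ker G h2
    refine ⟨C m, hchar' m hm, ?_⟩
    have h3 := Ideal.mem_map_of_mem (dehom i : _ →ₐ[O] _).toRingHom hq
    rw [Ideal.map_span, ← Set.range_comp] at h3
    change dehom i (C m * G) ∈ _ at h3
    rw [map_mul, dehom_C] at h3
    exact h3
  have hpD : ((φ (C ϖ) : D) : F) = ι (oA K A O ϖ) := hφC ϖ
  -- the ideal
  obtain ⟨Z, hZ⟩ : ∃ Z : Finset D, Z = Finset.univ.image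
    fun s => φ (minor (fun k => dehom i (f k)) s) := ⟨_, rfl⟩
  have hZmem : ∀ z, z ∈ Z ↔ ∃ s, φ (minor (fun k => dehom i (f k)) s) = z := by
    intro z
    rw [hZ]
    simp
  have hφloc : ∀ g, φ g ∈ locIn φ := map_mem_locIn φ
  have hspanJ : ∀ j, ∀ q ∈ Ideal.span (Set.range (fun k => dehom i (f k)) ∪
      Set.range (minor fun k => dehom i (f k))), InJ (locIn φ) (φ (C ϖ)) Z j (φ q) := by
    intro j q hq
    induction hq using Submodule.span_induction with
    | mem x hx =>
      rcases hx with ⟨k, rfl⟩ | ⟨s, rfl⟩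
      · rw [hφf k]
        exact ⟨0, Subring.zero_mem _, fun _ => 0, fun _ _ => Subring.zero_mem _, by simp⟩
      · exact inJ_of_mem _ _ _ ((hZmem _).mpr ⟨s, rfl⟩)
    | zero =>
      rw [map_zero]
      exact ⟨0, Subring.zero_mem _, fun _ => 0, fun _ _ => Subring.zero_mem _, by simp⟩
    | add x y _ _ hx hy =>
      rw [map_add]
      exact InJ.add hx hy
    | smul a x _ hx =>
      rw [smul_eq_mul, map_mul]
      exact hx.mono_subset _ (hφloc a)
  have hB : ∀ j, ∀ b ∈ bsetS π f d (oA K A O ϖ) j, ∃ y : D,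
      (y : F) = ι b / ι (π (X i)) ^ δ ∧ InJ (locIn φ) (φ (C ϖ)) Z j y := by
    rintro j b (⟨k, rfl⟩ | ⟨l, rfl⟩)
    · refine ⟨φ (dehom i (X k)) ^ δ * (φ (C ϖ)) ^ j, ?_,
        (inJ_pow _ _ _ _).mono_subset _ (Subring.pow_mem _ (hφloc _) _)⟩
      rw [Subring.coe_mul, Subring.coe_pow, Subring.coe_pow, hφψ, hpD, map_mul, map_pow, map_pow,
        ← hδ]
      simp only [ψ, coe_eval₂Hom, eval₂_X]
      rw [div_pow]
      ring
    · refine ⟨φ (dehom i (minor f l)), ?_, hspanJ j _ (dehom_minor_mem h.hf i l)⟩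
      rw [hφψ, hψhom δ _ (by rw [hδ]; exact isHomogeneous_minor h.hf l)]
      field_simp
  choose! bG hbG1 hbG2 using fun j (hj : j ∈ Finset.Icc 1 r) => hB j (β j) (hβ j hj)
  have hx1 : ι (π (X i)) ^ δ ≠ 0 := pow_ne_zero _ hx0
  subst hD
  refine isRegularLocalRing_sys φ hϖ hφf hker hchar' (r := r) hZmem bG ?_ ?_
    (hsing.imp id fun h1 => h1 i) (hr i)
  · intro j hj1 hj2
    have hj : j ∈ Finset.Icc 1 r := Finset.mem_Icc.mpr ⟨hj1, hj2⟩
    have hb0 := hβ0 j hj
    refine ⟨?_, hbG2 j hj, ?_, ?_⟩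
    · intro h0
      have h1 := congrArg (fun z : homLoc 𝒜 ι T Q => (z : F)) h0
      change (bG j : F) = 0 at h1
      rw [hbG1 j hj, div_eq_zero_iff] at h1
      rcases h1 with h1 | h1
      · exact hb0 h1
      · exact hx1 h1
    · refine ⟨⟨_, hratio j hj ((oA K A O ϖ) ^ j * π (X i) ^ (∑ k, (d k - 1)))
        (Or.inl ⟨i, rfl⟩)⟩, Subtype.ext ?_⟩
      have e : ι ((oA K A O ϖ) ^ j * π (X i) ^ (∑ k, (d k - 1))) =
          ι (oA K A O ϖ) ^ j * ι (π (X i)) ^ δ := by
        rw [map_mul, map_pow, map_pow, hδ]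
      rw [Subring.coe_mul, Subring.coe_pow, hpD, hbG1 j hj]
      change ι (oA K A O ϖ) ^ j = ι (β j) / ι (π (X i)) ^ δ *
        (ι ((oA K A O ϖ) ^ j * π (X i) ^ (∑ k, (d k - 1))) / ι (β j))
      rw [e]
      field_simp
    · intro z hz
      obtain ⟨l, rfl⟩ := (hZmem z).mp hz
      refine ⟨⟨_, hratio j hj (π (minor f fun b => (l b).1)) (Or.inr ⟨_, rfl⟩)⟩,
        Subtype.ext ?_⟩
      have e := hψhom δ _ (by rw [hδ]; exact isHomogeneous_minor h.hf fun b => (l b).1)
      rw [Subring.coe_mul, hbG1 j hj, ← dehom_minor, hφψ]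
      change ψ (minor f fun b => (l b).1) = ι (β j) / ι (π (X i)) ^ δ *
        (ι (π (minor f fun b => (l b).1)) / ι (β j))
      rw [e]
      field_simp
  · intro R' hdom hRle hRJ
    rw [eq_top_iff]
    rintro ⟨z, hz⟩ -
    have h4 := hO.eq_top ι hι Q hβ hf hfQ (R'.map (homLoc 𝒜 ι T Q).subtype) ?_ ?_ ?_ ?_ ?_ z hz
    · obtain ⟨w, hw, hwz⟩ := h4
      have : w = ⟨z, hz⟩ := Subtype.ext hwz
      rwa [← this]
    · rintro _ ⟨w, -, rfl⟩
      exact w.2
    · rintro _ ⟨a, ha, rfl⟩ b hb hab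
      exact ⟨⟨b, hb⟩, hdom a ha ⟨b, hb⟩ (Subtype.ext hab), rfl⟩
    · rintro _ ⟨c, rfl⟩
      refine ⟨φ (C c), hRle (hφloc _), ?_⟩
      exact hφC c
    · intro k
      refine ⟨φ (dehom i (X k)), hRle (hφloc _), ?_⟩
      change ((φ (dehom i (X k)) : homLoc 𝒜 ι T Q) : F) = _
      rw [hφψ]
      simp only [ψ, coe_eval₂Hom, eval₂_X]
    · intro j hj b hb
      obtain ⟨y, hy1, hy2⟩ := hB j b hb
      refine ⟨⟨_, hratio j hj b hb⟩, ?_, rfl⟩
      have hj' := Finset.mem_Icc.mp hj
      refine hRJ j hj'.1 hj'.2 y hy2 _ (Subtype.ext ?_)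
      have hb0 := hβ0 j hj
      rw [Subring.coe_mul, hbG1 j hj, hy1]
      change ι (β j) / ι (π (X i)) ^ δ * (ι b / ι (β j)) = _
      field_simp

end

end Pool.Agent.Lib.MP_6a3dac_ag.Sys
end

section

/-!
# Regular models of systems with nondegenerate double points over a Dedekind domain
-/

set_option autoImplicit false
set_option linter.unusedSectionVars false

namespace Pool.Agent.Lib.MP_6a3dac_ag.Sys

open MvPolynomial IsLocalRing IsDedekindDomain CategoryTheory Limits AlgebraicGeometry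
open Pool.Agent.Lib.MP_6a3dac_ag.DNF

variable {R K A : Type} [CommRing R] [IsDedekindDomain R] [Field K] [Algebra R K]
  [IsFractionRing R K] [CommRing A] [IsDomain A] [Algebra K A] [Algebra R A]
  [IsScalarTower R K A] {𝒜 : ℕ → Submodule K A} [GradedAlgebra 𝒜] {n c : ℕ}
  (π : MvPolynomial (Fin (n + 1)) K →ₐ[K] A) {f : Fin c → MvPolynomial (Fin (n + 1)) R}
  {d : Fin c → ℕ}

section

variable (hdeg : ∀ q e, q.IsHomogeneous e → π q ∈ 𝒜 e) (hf : ∀ k, (f k).IsHomogeneous (d k))
  (hzero : ∀ k, π (map (algebraMap R K) (f k)) = 0)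
  (hkerK : ∀ g, π g = 0 → g ∈ Ideal.span (Set.range fun k => map (algebraMap R K) (f k)))

include hdeg hf hzero hkerK in
theorem sysData_piS (S : Type) [CommRing S] [IsDomain S] [Algebra S K] [IsFractionRing S K]
    [Algebra R S] [IsScalarTower R S K] :
    SysData 𝒜 (piS π S) (fun k => map (algebraMap R S) (f k)) d where
  deg q e hq := hdeg _ _ (hq.map _)
  hf k := (hf k).map _
  zero k := by
    rw [piS_apply, map_map, ← IsScalarTower.algebraMap_eq]
    exact hzero k
  ker g hg := by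
    rw [piS_apply] at hg
    obtain ⟨q, hq⟩ := (Ideal.mem_span_range_iff_exists_fun).mp (hkerK _ hg)
    choose m Q hm hQ using fun k => exists_clear_frac (S := S) (q k)
    refine ⟨∏ k, m k, Finset.prod_ne_zero_iff.mpr fun k _ => hm k, ?_⟩
    have h1 : C (∏ k, m k) * g =
        ∑ k, (C (∏ l ∈ Finset.univ.erase k, m l) * Q k) * map (algebraMap R S) (f k) := by
      apply map_injective (algebraMap S K) (FaithfulSMul.algebraMap_injective S K)
      rw [map_mul, map_C, ← hq, Finset.mul_sum, map_sum]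
      refine Finset.sum_congr rfl fun k _ => ?_
      rw [map_mul, map_mul, hQ, map_C, map_map, ← IsScalarTower.algebraMap_eq,
        ← Finset.prod_erase_mul _ _ (Finset.mem_univ k), map_mul, C_mul]
      ring
    rw [h1]
    exact Ideal.sum_mem _ fun k _ => Ideal.mul_mem_left _ _ (Ideal.subset_span ⟨k, rfl⟩)

/-- The generating sets do not depend on the ring of coefficients. -/
theorem bsetS_piS (S : Type) [CommRing S] [Algebra S K] [Algebra R S] [IsScalarTower R S K]
    (ϖ : A) : bsetS (piS π S) (fun k => map (algebraMap R S) (f k)) d ϖ =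
      bsetS (piS π R) f d ϖ := by
  funext j
  have h1 : ∀ k, piS π S (X k) = piS π R (X k) := fun k => by rw [piS_X, piS_X]
  have h2 : ∀ s, piS π S (minor (fun k => map (algebraMap R S) (f k)) s) =
      piS π R (minor f s) := fun s => by
    rw [piS_apply, piS_apply, minor_map, map_map, ← IsScalarTower.algebraMap_eq]
  simp only [bsetS, h1, h2]

end

/-- The Jacobian ideal over the local rings. -/
theorem jac_locRing {S : Type} [CommRing S] [Algebra R S] (hf : ∀ k, (f k).IsHomogeneous (d k))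
    {m : R} {N : ℕ} {i : Fin (n + 1)}
    (hmN : C m * X i ^ N ∈ Ideal.span (Set.range f ∪ Set.range (minor f))) :
    C (algebraMap R S m) ∈ Ideal.span
      (Set.range (fun k => dehom i (map (algebraMap R S) (f k))) ∪
        Set.range (minor fun k => dehom i (map (algebraMap R S) (f k)))) := by
  refine jac_dehom_sys (fun k => (hf k).map _) (K := N) ?_
  have h1 := Ideal.mem_map_of_mem (map (algebraMap R S)) hmN
  rw [Ideal.map_span, Set.image_union, ← Set.range_comp, ← Set.range_comp, map_mul, map_C,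
    map_pow, map_X] at h1
  have h2 : (map (algebraMap R S)) ∘ minor f = minor fun k => map (algebraMap R S) (f k) := by
    funext s
    exact (minor_map _ _ _).symm
  rw [h2] at h1
  exact h1

/-- **Regular models of systems.** -/
theorem exists_model_sysData (hdeg : ∀ q e, q.IsHomogeneous e → π q ∈ 𝒜 e)
    (hf : ∀ k, (f k).IsHomogeneous (d k)) (hzero : ∀ k, π (map (algebraMap R K) (f k)) = 0)
    (hkerK : ∀ g, π g = 0 → g ∈ Ideal.span (Set.range fun k => map (algebraMap R K) (f k)))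
    (hgen : Algebra.adjoin K (Set.range fun k => π (X k)) = ⊤)
    (hRf : ¬ IsField R) (hd : 1 ≤ ∑ k, (d k - 1)) {m : R} (hm : m ≠ 0) {N : ℕ}
    (hmN : ∀ i, C m * X i ^ N ∈ Ideal.span (Set.range f ∪ Set.range (minor f)))
    (hsing : ∀ (P : HeightOneSpectrum R) (ϖ : locRing K P), Irreducible ϖ → ∀ i,
      NondegSys ϖ fun k => dehom i (map (algebraMap R (locRing K P)) (f k))) :
    ∃ (Y : Scheme.{0}) (g : Y ⟶ Spec (CommRingCat.of R)),
      IsProper g ∧ Flat g ∧ (∀ y : Y, IsRegularLocalRing (Y.presheaf.stalk y)) ∧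
      ∃ e : pullback g (Spec.map (CommRingCat.ofHom (algebraMap R K))) ≅ Proj 𝒜,
        e.hom ≫ projTo K 𝒜 =
          pullback.snd g (Spec.map (CommRingCat.ofHom (algebraMap R K))) := by
  classical
  choose ϖ hϖ using fun P : HeightOneSpectrum R => exists_unif (K := K) P
  have hϖ0 : ∀ P, ϖ P ≠ 0 := fun P h0 => (hϖ P).ne_zero (by rw [h0, map_zero])
  -- the exponents
  choose rr u hu1 hu2 hr0 using fun P : HeightOneSpectrum R => exists_exponent P hm (hϖ P)
  have hrr2 : ∀ (P : HeightOneSpectrum R) (i : Fin (n + 1)),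
      C (algebraMap R (locRing K P) (ϖ P)) ^ rr P ∈ Ideal.span
        (Set.range (fun k => dehom i (map (algebraMap R (locRing K P)) (f k))) ∪
          Set.range (minor fun k => dehom i (map (algebraMap R (locRing K P)) (f k)))) := by
    intro P i
    have h1 := Ideal.mul_mem_left _ (C (u P)) (jac_locRing (S := locRing K P) hf (hmN i))
    rw [← C_mul, hu2, map_pow] at h1
    exact h1
  have hH : ∀ P : HeightOneSpectrum R, SysData 𝒜 (piS π (locRing K P))
      (fun k => map (algebraMap R (locRing K P)) (f k)) d := fun P =>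
    sysData_piS π hdeg hf hzero hkerK (locRing K P)
  have hoA : ∀ P : HeightOneSpectrum R, oA K A (locRing K P)
      (algebraMap R (locRing K P) (ϖ P)) = algebraMap R A (ϖ P) := fun P =>
    oA_algebraMap (K := K) (O := locRing K P) (ϖ P)
  have hxP : ∀ P : HeightOneSpectrum R, (fun k => piS π (locRing K P) (X k)) =
      fun k => π (X k) := fun P => funext fun k => piS_X π _ k
  have hsets : ∀ P : HeightOneSpectrum R,
      (DNF.WSet (fun k => piS π (locRing K P) (X k)) (bsetS (piS π (locRing K P))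
        (fun k => map (algebraMap R (locRing K P)) (f k)) d (oA K A (locRing K P)
          (algebraMap R (locRing K P) (ϖ P)))) (rr P) ∪
        DNF.W1Set (fun k => piS π (locRing K P) (X k)) (oA K A (locRing K P)
          (algebraMap R (locRing K P) (ϖ P))) (rr P)) =
      (DNF.WSet (fun k => π (X k)) (bsetS (piS π R) f d (algebraMap R A (ϖ P))) (rr P) ∪
        DNF.W1Set (fun k => π (X k)) (algebraMap R A (ϖ P)) (rr P)) := by
    intro P
    rw [hxP, hoA, bsetS_piS]
  have hO := fun P : HeightOneSpectrum R => (hH P).orderHyp (R := R) P.asIdeal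
    (fun c => piS_C π _ c) hd (algebraMap R (locRing K P) (ϖ P)) (rr P)
  have hLG : LocalGens (R := R) 𝒜 (fun P => DNF.WSet (fun k => π (X k))
      (bsetS (piS π R) f d (algebraMap R A (ϖ P))) (rr P) ∪
        DNF.W1Set (fun k => π (X k)) (algebraMap R A (ϖ P)) (rr P))
        (Set.range fun k => π (X k)) :=
    { finite := fun P => (DNF.finite_WSet (fun j => finite_bsetS _ f d _ j) _).union
        (DNF.finite_W1Set _)
      finite₀ := Set.finite_range _
      ae := by
        refine (finite_mem_prime hm).subset ?_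
        intro P hP
        by_contra hdp
        apply hP
        have h1 : rr P = 0 := hr0 P hdp
        change DNF.WSet (fun k => π (X k)) (bsetS (piS π R) f d (algebraMap R A (ϖ P))) (rr P) ∪
          DNF.W1Set (fun k => π (X k)) (algebraMap R A (ϖ P)) (rr P) = _
        rw [h1, WSet_zero, W1Set_zero, Set.union_self]
      homog := by
        intro P w hw
        rw [← hsets P] at hw
        rcases hw with hw | ⟨i, rfl⟩
        · exact ⟨_, Nat.succ_pos _, (hO P).W_deg hw⟩
        · refine ⟨1, one_pos, ?_⟩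
          have := SetLike.mul_mem_graded (hO P).theta_deg ((hO P).xdeg i)
          simpa using this
      full := fun P a => full_order π hgen (hϖ0 P) (rr P) a
      full₀ := fun a => by
        have := full_order π hgen (B := fun _ => ∅) (one_ne_zero (α := R)) 0 a
        rwa [WSet_zero, W1Set_zero, Set.union_self] at this }
  have hnt : Nontrivial A := inferInstance
  refine Pool.Agent.Lib.MP_6a3dac_ag.exists_model 𝒜 hLG hRf fun P => ?_
  intro hS y hy hyh hirr
  let F := FractionRing A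
  let ι : A →+* F := algebraMap A F
  have hι : Function.Injective ι := IsFractionRing.injective A F
  apply isRegularLocalRing_of_homLoc 𝒜 ι _ y hι hS
  refine (hH P).main (R := R) (FaithfulSMul.algebraMap_injective _ K) P.asIdeal
    (fun c => piS_C π _ c) hd ι hι (hϖ P) (rr P) (by rw [hsets]; rfl) (Or.inr (hsing P _ (hϖ P)))
    (hrr2 P) y hy ?_
  by_contra hcon
  push Not at hcon
  apply hirr
  rw [HomogeneousIdeal.toIdeal_irrelevant_le]
  intro i hi s hs
  exact hcon i hi s hs

end Pool.Agent.Lib.MP_6a3dac_ag.Sys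
end

section

/-!
# Regular models of complete intersections with nondegenerate double points
-/

set_option autoImplicit false

namespace Pool.Agent.Lib.MP_6a3dac_ag.Sys

open MvPolynomial IsLocalRing IsDedekindDomain CategoryTheory Limits AlgebraicGeometry NumberField
open Pool.Agent.Lib.MP_6a3dac_ag.DNF

section Model

variable {R K : Type} [CommRing R] [IsDedekindDomain R] [Field K] [Algebra R K]
  [IsFractionRing R K] {n c : ℕ} {f : Fin c → MvPolynomial (Fin (n + 1)) R} {d : Fin c → ℕ}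
  (hf : ∀ k, (f k).IsHomogeneous (d k))
  (𝔞 : HomIdeal K (n + 1))
  (h𝔞 : 𝔞.ideal = Ideal.span (Set.range fun k => map (algebraMap R K) (f k)))

omit [IsDedekindDomain R] in
/-- The Jacobian criterion over the field of fractions. -/
theorem jac_frac_sys {m : R} (hm : m ≠ 0) {N : ℕ} {i : Fin (n + 1)}
    (hmN : C m * X i ^ N ∈ Ideal.span (Set.range f ∪ Set.range (minor f))) :
    (X i : MvPolynomial (Fin (n + 1)) K) ^ N ∈ Ideal.span
      (Set.range (fun k => map (algebraMap R K) (f k)) ∪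
        Set.range (minor fun k => map (algebraMap R K) (f k))) := by
  have h1 := Ideal.mem_map_of_mem (map (algebraMap R K)) hmN
  rw [Ideal.map_span, Set.image_union, ← Set.range_comp, ← Set.range_comp, map_mul, map_C,
    map_pow, map_X] at h1
  have h2 : (map (algebraMap R K)) ∘ minor f = minor fun k => map (algebraMap R K) (f k) := by
    funext s
    exact (minor_map _ _ _).symm
  rw [h2] at h1
  have h3 := Ideal.mul_mem_left _ (C ((algebraMap R K m)⁻¹)) h1
  have hm0 : algebraMap R K m ≠ 0 := by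
    intro h0
    apply hm
    exact IsFractionRing.injective R K (by rw [h0, map_zero])
  rw [← mul_assoc, ← C_mul, inv_mul_cancel₀ hm0, C_1, one_mul] at h3
  exact h3

include hf h𝔞 in
theorem exists_model_sys (hRf : ¬ IsField R) (hc : 1 ≤ c) (hcn : c < n) (hd : ∀ k, 2 ≤ d k)
    {m : R} (hm : m ≠ 0) {N : ℕ}
    (hmN : ∀ i, C m * X i ^ N ∈ Ideal.span (Set.range f ∪ Set.range (minor f)))
    (hsing : ∀ (P : HeightOneSpectrum R) (ϖ : locRing K P), Irreducible ϖ → ∀ i,
      NondegSys ϖ fun k => dehom i (map (algebraMap R (locRing K P)) (f k))) :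
    HasModelOver R K (hProjTo 𝔞) := by
  have hprime : 𝔞.ideal.IsPrime := by
    rw [h𝔞]
    exact isPrime_of_jac (fun k => (hf k).map _) (fun k => (hd k).trans' (by omega)) hcn
      fun i => jac_frac_sys hm (hmN i)
  have : IsDomain (HCoord 𝔞) := Ideal.Quotient.isDomain 𝔞.ideal
  let _ : Algebra R (HCoord 𝔞) := ((algebraMap K (HCoord 𝔞)).comp (algebraMap R K)).toAlgebra
  have : IsScalarTower R K (HCoord 𝔞) := IsScalarTower.of_algebraMap_eq fun _ => rfl
  have hδ : 1 ≤ ∑ k, (d k - 1) := by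
    have h1 : d ⟨0, hc⟩ - 1 ≤ ∑ k, (d k - 1) :=
      Finset.single_le_sum (f := fun k => d k - 1) (fun _ _ => Nat.zero_le _) (Finset.mem_univ _)
    have h2 := hd ⟨0, hc⟩
    omega
  refine exists_model_sysData (𝒜 := hGr 𝔞) (hMk 𝔞) (fun q e hq => ⟨q, hq, rfl⟩) hf ?_ ?_ ?_ hRf hδ
    hm hmN hsing
  · intro k
    change Ideal.Quotient.mk 𝔞.ideal (map (algebraMap R K) (f k)) = 0
    rw [Ideal.Quotient.eq_zero_iff_mem, h𝔞]
    exact Ideal.subset_span ⟨k, rfl⟩
  · intro g hg
    change Ideal.Quotient.mk 𝔞.ideal g = 0 at hg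
    rwa [Ideal.Quotient.eq_zero_iff_mem, h𝔞] at hg
  · rw [eq_top_iff]
    rintro a -
    obtain ⟨q, rfl⟩ := Ideal.Quotient.mk_surjective a
    change hMk 𝔞 q ∈ _
    induction q using MvPolynomial.induction_on with
    | C c =>
      have h1 : hMk 𝔞 (C c) = algebraMap K (HCoord 𝔞) c := (hMk 𝔞).commutes c
      rw [h1]
      exact Subalgebra.algebraMap_mem _ _
    | add a b ha hb => rw [map_add]; exact Subalgebra.add_mem _ ha hb
    | mul_X a k ha =>
      rw [map_mul]
      exact Subalgebra.mul_mem _ ha (Algebra.subset_adjoin ⟨k, rfl⟩)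

end Model

section Points

variable {n c : ℕ} {d : Fin c → ℕ}

theorem map_sform {R S : Type} [CommRing R] [CommRing S] (θ : R →+* S) (a : Coef n d → R)
    (k : Fin c) : map θ (sform a k) = sform (fun μ => θ (a μ)) k :=
  map_form θ _

theorem isHomogeneous_sform {R : Type} [CommRing R] (a : Coef n d → R) (k : Fin c) :
    (sform a k).IsHomogeneous (d k) :=
  isHomogeneous_form _

/-- The system has no singular geometric points. -/
def NoSing {k : Type} [CommRing k] (a : Coef n d → k) : Prop :=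
  ∀ (L : Type) [Field L] [Algebra k L] (i : Fin (n + 1)) (j : Fin c) (x : Fin (n + 1) → L)
    (y : Fin c → L), x i = 1 → y j = 1 → ¬ IsSing (sform fun μ => algebraMap k L (a μ)) x y

theorem NoSing.hom {A F : Type} [CommRing A] [IsDomain A] [Field F] [Algebra A F]
    [IsFractionRing A F] {a : Coef n d → A} (h : NoSing fun μ => algebraMap A F (a μ))
    (L : Type) [Field L] (θ : A →+* L) (hθ : Function.Injective θ) (i : Fin (n + 1)) (j : Fin c)
    (x : Fin (n + 1) → L) (y : Fin c → L) (hx : x i = 1) (hy : y j = 1) :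
    ¬ IsSing (sform fun μ => θ (a μ)) x y := by
  let _ : Algebra F L := (IsFractionRing.lift hθ).toAlgebra
  have h1 := h L i j x y hx hy
  have h2 : (fun μ => algebraMap F L (algebraMap A F (a μ))) = fun μ => θ (a μ) := by
    funext μ
    exact IsFractionRing.lift_algebraMap hθ (a μ)
  rw [h2] at h1
  exact h1

theorem Nodal.hom {A : Type} [CommRing A] {P : Ideal A} {a : Coef n d → A}
    (h : Nodal fun μ => Ideal.Quotient.mk P (a μ)) (L : Type) [Field L] (θ : A →+* L)
    (hθ : ∀ r ∈ P, θ r = 0) (i : Fin (n + 1)) (j : Fin c)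
    (x : Fin (n + 1) → L) (y : Fin c → L) (hx : x i = 1) (hy : y j = 1)
    (hs : IsSing (sform fun μ => θ (a μ)) x y) :
    (hessAt (sform fun μ => θ (a μ)) i j x y).det ≠ 0 := by
  let _ : Algebra (A ⧸ P) L := (Ideal.Quotient.lift P θ hθ).toAlgebra
  have h2 : (fun μ => algebraMap (A ⧸ P) L (Ideal.Quotient.mk P (a μ))) = fun μ => θ (a μ) := by
    funext μ
    exact Ideal.Quotient.lift_mk P θ hθ
  have h1 := h L i j x y hx hy
  rw [h2] at h1
  exact h1 hs

theorem NoSing.jac {k : Type} [Field k] {a : Coef n d → k} (h : NoSing a) :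
    ∃ N : ℕ, ∀ i, X i ^ N ∈ Ideal.span (Set.range (sform a) ∪ Set.range (minor (sform a))) := by
  refine jac_of_noSing (isHomogeneous_sform a) ?_
  intro L _ _ i j x y hx hy hs
  refine h L i j x y hx hy ?_
  have h1 : (fun m => map (algebraMap k L) (sform a m)) = sform fun μ => algebraMap k L (a μ) := by
    funext m
    exact map_sform _ _ _
  rwa [h1] at hs

end Points

section Main

variable {n c : ℕ} {d : Fin c → ℕ} {A E : Type} [CommRing A] [IsDedekindDomain A] [Field E]
  [Algebra A E] [IsFractionRing A E]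

/-- **Regular models of nodal complete intersections.** -/
theorem model_of_nodal (hc : 1 ≤ c) (hcn : c < n) (hd : ∀ k, 2 ≤ d k) {a : Coef n d → A} {m : A}
    (hgen : NoSing fun μ => algebraMap A E (a μ))
    (hP : ∀ P : HeightOneSpectrum A, m ∉ P.asIdeal →
      Nodal fun μ => Ideal.Quotient.mk P.asIdeal (a μ))
    (R K : Type) [CommRing R] [IsDedekindDomain R] [Field K] [Algebra R K] [IsFractionRing R K]
    (φ : A →+* R) (hφ : Function.Injective φ) (hRf : ¬ IsField R) (hu : IsUnit (φ m)) :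
    HasModelOver R K (hProjTo (sIdeal fun μ => algebraMap R K (φ (a μ)))) := by
  have hKinj : Function.Injective ((algebraMap R K).comp φ) :=
    (IsFractionRing.injective R K).comp hφ
  have hK : NoSing fun μ => algebraMap R K (φ (a μ)) := by
    intro L _ _ i j x y hx hy
    exact hgen.hom L ((algebraMap K L).comp ((algebraMap R K).comp φ))
      ((algebraMap K L).injective.comp hKinj) i j x y hx hy
  obtain ⟨N, hN⟩ := hK.jac
  have h1 : (sform fun μ => algebraMap R K (φ (a μ))) =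
      fun k => map (algebraMap R K) (sform (fun μ => φ (a μ)) k) := by
    funext k
    exact (map_sform _ _ _).symm
  rw [h1] at hN
  obtain ⟨m', hm', hmN⟩ := spread_generic hN
  refine exists_model_sys (R := R) (K := K) (f := sform fun μ => φ (a μ))
    (isHomogeneous_sform _) _ ?_ hRf hc hcn hd hm' hmN ?_
  · change Ideal.span (Set.range (sform fun μ => algebraMap R K (φ (a μ)))) = _
    rw [h1]
  · intro P
    have hPm : P.asIdeal.IsMaximal := P.isMaximal
    -- the points over `P`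
    have key : ∀ (L : Type) [Field L] (θ : R →+* L) (i : Fin (n + 1)) (j : Fin c)
        (x : Fin (n + 1) → L) (y : Fin c → L), (∀ r ∈ P.asIdeal, θ r = 0) → x i = 1 → y j = 1 →
        IsSing (sform fun μ => θ (φ (a μ))) x y →
        (hessAt (sform fun μ => θ (φ (a μ))) i j x y).det ≠ 0 := by
      intro L _ θ i j x y hθ hx hy hs
      by_cases hbot : P.asIdeal.comap φ = ⊥
      · exfalso
        refine hgen.hom L (θ.comp φ) ?_ i j x y hx hy hs
        rw [injective_iff_map_eq_zero]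
        intro z hz
        have h2 : φ z ∈ P.asIdeal := by
          by_contra hcon
          obtain ⟨w, hw⟩ := Ideal.Quotient.exists_inv (I := P.asIdeal)
            (a := Ideal.Quotient.mk P.asIdeal (φ z))
            (fun h0 => hcon (Ideal.Quotient.eq_zero_iff_mem.mp h0))
          obtain ⟨w, rfl⟩ := Ideal.Quotient.mk_surjective w
          rw [← map_mul, ← map_one (Ideal.Quotient.mk P.asIdeal), Ideal.Quotient.eq] at hw
          have h3 := hθ _ hw
          rw [map_sub, map_mul, map_one] at h3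
          change θ (φ z) = 0 at hz
          rw [hz, zero_mul, zero_sub, neg_eq_zero] at h3
          exact one_ne_zero h3
        have h3 : z ∈ P.asIdeal.comap φ := h2
        rw [hbot] at h3
        exact h3
      · let P₀ : HeightOneSpectrum A := ⟨P.asIdeal.comap φ, Ideal.IsPrime.comap _, hbot⟩
        have hm0 : m ∉ P₀.asIdeal := by
          intro hmP
          exact hPm.ne_top (Ideal.eq_top_of_isUnit_mem _ hmP hu)
        exact (hP P₀ hm0).hom L (θ.comp φ) (fun r hr => hθ _ hr) i j x y hx hy hs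
    intro ϖ hϖ i
    refine nondegSys_of_nodal P.asIdeal (isHomogeneous_sform _) ?_ hϖ i
    intro L _ θ i j x y hθ hx hy hs
    have h2 : (fun k => map θ (sform (fun μ => φ (a μ)) k)) =
        sform fun μ => θ (φ (a μ)) := by
      funext k
      exact map_sform _ _ _
    rw [h2] at hs ⊢
    exact key L θ i j x y hθ hx hy hs

/-- The generic fibre is smooth. -/
theorem smooth_of_noSing {a : Coef n d → E} (h : NoSing a) : Smooth (hProjTo (sIdeal a)) := by
  obtain ⟨N, hN⟩ := h.jac
  exact smooth_projTo_of_jac_sys (sIdeal a).toHom (isHomogeneous_sform a) rfl hN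

end Main

end Pool.Agent.Lib.MP_6a3dac_ag.Sys
end
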