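import Pool.Agent.Lib.MP_6a3dac_ag.Mg.G030
import Pool.Agent.Lib.MP_6a3dac_ag.Mg.G068
import Pool.Agent.Lib.MP_6a3dac_ag.Mg.G037
import Pool.Agent.Lib.MP_6a3dac_ag.Maj.Num

section

/-!
# The proportion of the double points of corank at least two
-/

set_option autoImplicit false

namespace Pool.Agent.Lib.MP_6a3dac_ag.Maj

open MvPolynomial
open Pool.Agent.Lib.MP_6a3dac_ag.DNF

theorem c5_card {κ : Type} [Field κ] [Finite κ] (M : ℕ) :
    (Nat.card {c : Fin M → Fin M → κ // QNondeg c} : ℝ) =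
      (Nat.card κ : ℝ) ^ (M ^ 2) *
        ∏ j ∈ Finset.range ((M + 1) / 2), (1 - 1 / (Nat.card κ : ℝ) ^ (2 * j + 1)) := by
  by_cases h2 : (2 : κ) = 0
  · exact card_qnondeg_even h2 M
  · exact card_qnondeg_odd h2 M

theorem c5_shift (q : ℝ) (m : ℕ) :
    ∏ j ∈ Finset.range (m + 1), (1 - 1 / q ^ (2 * j + 1)) =
      (1 - 1 / q) * ∏ j ∈ Finset.range m, (1 - 1 / q ^ (2 * j + 3)) := by
  rw [Finset.prod_range_succ']
  rw [mul_comm]
  congr 1
  norm_num

/-- From `card_qnondeg_odd`, `card_qnondeg_even`, `card_lineKer`. The number of quadratic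
forms of corank at most one. -/
theorem card_corank_le_one {κ : Type} [Field κ] [Finite κ] (N : ℕ) :
    (Nat.card {c : Fin (N + 1) → Fin (N + 1) → κ // QNondeg c} : ℝ) +
        Nat.card {c : Fin (N + 1) → Fin (N + 1) → κ // ∃ v, LineKer c v} =
      (Nat.card κ : ℝ) ^ ((N + 1) ^ 2) *
        ∏ j ∈ Finset.range ((N + 1) / 2), (1 - 1 / (Nat.card κ : ℝ) ^ (2 * j + 3)) := by
  have hline := card_lineKer (κ := κ) N
  have hq : (2 : ℝ) ≤ (Nat.card κ : ℝ) := by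
    have : 1 < Nat.card κ := Finite.one_lt_card
    exact_mod_cast this
  rw [c5_card N] at hline
  rw [c5_card (N + 1)]
  set q : ℝ := (Nat.card κ : ℝ) with hqdef
  set L : ℝ := (Nat.card {c : Fin (N + 1) → Fin (N + 1) → κ // ∃ v, LineKer c v} : ℝ) with hL
  have hq0 : 0 < q := by linarith
  have hq1 : q - 1 ≠ 0 := by linarith
  have hs := c5_shift q ((N + 1) / 2)
  rcases Nat.even_or_odd' N with ⟨m, hm | hm⟩
  · -- `N + 1` is odd
    rw [hm] at hline hs ⊢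
    rw [show (2 * m + 1) / 2 = m by omega] at hline hs ⊢
    rw [show (2 * m + 1 + 1) / 2 = m + 1 by omega]
    have hb := Finset.prod_range_succ (fun j => (1 - 1 / q ^ (2 * j + 1))) m
    rw [hb] at hs ⊢
    generalize (∏ j ∈ Finset.range m, (1 - 1 / q ^ (2 * j + 1))) = b at hline hs hb ⊢
    generalize (∏ j ∈ Finset.range m, (1 - 1 / q ^ (2 * j + 3))) = a at hs ⊢
    have e1 : q ^ ((2 * m + 1) ^ 2) = q ^ ((2 * m) ^ 2) * q ^ (2 * m) * q ^ (2 * m + 1) := by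
      rw [← pow_add, ← pow_add]
      congr 1
      ring
    have e2 : L = (q ^ (2 * m + 1) - 1) * q ^ (2 * m) * (q ^ (2 * m) ^ 2 * b) / (q - 1) := by
      rw [← hline]
      field_simp
    have e3 : a = b * (1 - 1 / q ^ (2 * m + 1)) * (q / (q - 1)) := by
      rw [hs]
      field_simp
    rw [e1, e2, e3]
    have hp : q ^ (2 * m + 1) ≠ 0 := by positivity
    field_simp
    ring
  · -- `N + 1` is even
    rw [hm] at hline hs ⊢
    rw [show (2 * m + 1 + 1) / 2 = m + 1 by omega] at hline hs ⊢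
    rw [show (2 * m + 1 + 1 + 1) / 2 = m + 1 by omega]
    have hb := Finset.prod_range_succ (fun j => (1 - 1 / q ^ (2 * j + 1))) (m + 1)
    rw [hb] at hs
    generalize (∏ j ∈ Finset.range (m + 1), (1 - 1 / q ^ (2 * j + 1))) = b at hline hs hb ⊢
    generalize (∏ j ∈ Finset.range (m + 1), (1 - 1 / q ^ (2 * j + 3))) = a at hs ⊢
    have e1 : q ^ ((2 * m + 1 + 1) ^ 2) =
        q ^ ((2 * m + 1) ^ 2) * q ^ (2 * m + 1) * q ^ (2 * m + 1 + 1) := by
      rw [← pow_add, ← pow_add]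
      congr 1
      ring
    have e2 : L = (q ^ (2 * m + 1 + 1) - 1) * q ^ (2 * m + 1) *
        (q ^ (2 * m + 1) ^ 2 * b) / (q - 1) := by
      rw [← hline]
      field_simp
    have e3 : a = b * (1 - 1 / q ^ (2 * (m + 1) + 1)) * (q / (q - 1)) := by
      rw [hs]
      field_simp
    have e4 : q ^ (2 * (m + 1) + 1) = q ^ (2 * m + 1 + 1) * q := by
      rw [← pow_succ]
      congr 1
    rw [e1, e2, e3, e4]
    have hp : q ^ (2 * m + 1 + 1) ≠ 0 := by positivity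
    field_simp
    ring

theorem c5_prod_bound (q : ℝ) (hq : 2 ≤ q) (m : ℕ) :
    0 ≤ ∏ j ∈ Finset.range m, (1 - 1 / q ^ (2 * j + 3)) ∧
    ∏ j ∈ Finset.range m, (1 - 1 / q ^ (2 * j + 3)) ≤ 1 ∧
    1 - 1 / (q * (q ^ 2 - 1)) * (1 - 1 / q ^ (2 * m)) ≤
      ∏ j ∈ Finset.range m, (1 - 1 / q ^ (2 * j + 3)) := by
  have hq0 : 0 < q := by linarith
  have hq2 : 0 < q ^ 2 - 1 := by nlinarith
  induction m with
  | zero => simp
  | succ m ih =>
    obtain ⟨h1, h2, h3⟩ := ih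
    rw [Finset.prod_range_succ]
    set B := ∏ j ∈ Finset.range m, (1 - 1 / q ^ (2 * j + 3)) with hB
    have hy0 : 0 < 1 / q ^ (2 * m + 3) := by positivity
    have hy1 : 1 / q ^ (2 * m + 3) ≤ 1 := by
      rw [div_le_one (by positivity)]
      exact one_le_pow₀ (by linarith)
    have hy2 : 1 / (q * (q ^ 2 - 1)) * (1 - 1 / q ^ (2 * (m + 1))) =
        1 / (q * (q ^ 2 - 1)) * (1 - 1 / q ^ (2 * m)) + 1 / q ^ (2 * m + 3) := by
      have e1 : q ^ (2 * (m + 1)) = q ^ (2 * m) * q ^ 2 := by rw [← pow_add]; congr 1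
      have e2 : q ^ (2 * m + 3) = q ^ (2 * m) * q ^ 3 := by rw [← pow_add]
      rw [e1, e2]
      have hp : q ^ (2 * m) ≠ 0 := by positivity
      field_simp
      ring
    rw [hy2]
    set y := 1 / q ^ (2 * m + 3) with hy
    refine ⟨mul_nonneg h1 (by linarith), ?_, ?_⟩
    · nlinarith
    · nlinarith

theorem tc_quad_bound {κ : Type} [Field κ] [Finite κ] (N : ℕ) :
    (1 - 1 / ((Nat.card κ : ℝ) * ((Nat.card κ : ℝ) ^ 2 - 1))) *
        (Nat.card κ : ℝ) ^ ((N + 1) ^ 2) ≤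
      (Nat.card {c : Fin (N + 1) → Fin (N + 1) → κ // QNondeg c} : ℝ) +
        Nat.card {c : Fin (N + 1) → Fin (N + 1) → κ // ∃ v, LineKer c v} := by
  have hq : (2 : ℝ) ≤ (Nat.card κ : ℝ) := by
    have : 1 < Nat.card κ := Finite.one_lt_card
    exact_mod_cast this
  rw [card_corank_le_one, mul_comm]
  have h1 := (c5_prod_bound _ hq ((N + 1) / 2)).2.2
  set q : ℝ := (Nat.card κ : ℝ) with hqdef
  have hq0 : 0 < q := by linarith
  have hq2 : 0 < q ^ 2 - 1 := by nlinarith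
  apply mul_le_mul_of_nonneg_left _ (by positivity)
  refine le_trans ?_ h1
  have h2 : 0 ≤ 1 / (q * (q ^ 2 - 1)) := by positivity
  have h3 : 0 < 1 / q ^ (2 * ((N + 1) / 2)) := by positivity
  nlinarith

lemma f5_num (N : ℕ → ℕ) (Q m : ℕ) (h0 : N 0 = 1) (h : ∀ k, N (k + 1) ≤ N k * Q ^ (m ^ k)) :
    N 3 ≤ Q ^ (1 + m + m ^ 2) := by
  have e1 := h 0
  have e2 := h 1
  have e3 := h 2
  rw [h0, one_mul, pow_zero, zero_add] at e1
  rw [pow_one] at e2
  calc N 3 ≤ N 2 * Q ^ (m ^ 2) := e3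
    _ ≤ N 1 * Q ^ m * Q ^ (m ^ 2) := Nat.mul_le_mul_right _ e2
    _ ≤ Q ^ 1 * Q ^ m * Q ^ (m ^ 2) := Nat.mul_le_mul_right _ (Nat.mul_le_mul_right _ e1)
    _ = _ := by rw [← pow_add, ← pow_add]

/-- As `card_quot_four_le`. -/
theorem card_quot_three_le {O : Type} [CommRing O] [IsDomain O] [IsDiscreteValuationRing O]
    {σ : Type} [Fintype σ] {ϖ : O} (hϖ : Irreducible ϖ) (hfin : Finite (O ⧸ Ideal.span {ϖ}))
    {𝔮 : Ideal (MvPolynomial σ O)} (hmax : 𝔮.IsMaximal) (h𝔮 : C ϖ ∈ 𝔮) :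
    Nat.card (MvPolynomial σ O ⧸ 𝔮 ^ 3) ≤
      Nat.card (MvPolynomial σ O ⧸ 𝔮) ^ (1 + (Fintype.card σ + 1) + (Fintype.card σ + 1) ^ 2) := by
  classical
  obtain ⟨y, _, _, hg⟩ := exists_params hϖ hfin hmax h𝔮
  have h0 := f1_finite_residue hϖ hfin hmax h𝔮
  have hp := finite_quot_pow hϖ hfin hmax h𝔮
  have hs : ∀ k, Nat.card (MvPolynomial σ O ⧸ 𝔮 ^ (k + 1)) ≤ Nat.card (MvPolynomial σ O ⧸ 𝔮 ^ k) *
      Nat.card (MvPolynomial σ O ⧸ 𝔮) ^ ((Fintype.card σ + 1) ^ k) := by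
    intro k
    have := f1_card_succ hg.1 hg.2 k h0 (hp k)
    rwa [Fintype.card_option] at this
  have e0 : Nat.card (MvPolynomial σ O ⧸ 𝔮 ^ 0) = 1 := by
    rw [pow_zero, Ideal.one_eq_top]
    have : Subsingleton (MvPolynomial σ O ⧸ (⊤ : Ideal (MvPolynomial σ O))) :=
      Ideal.Quotient.subsingleton_iff.mpr rfl
    exact Nat.card_unique
  exact f5_num (fun k => Nat.card (MvPolynomial σ O ⧸ 𝔮 ^ k)) _ _ e0 hs

theorem TcAt.congr {O : Type} [CommRing O] {σ : Type} [Fintype σ] {F F' : MvPolynomial σ O}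
    {𝔮 : Ideal (MvPolynomial σ O)} (h : TcAt F 𝔮) (hF : F' - F ∈ 𝔮 ^ 3) : TcAt F' 𝔮 := by
  obtain ⟨g, c, hg, h1, h2⟩ := h
  refine ⟨g, c, hg, ?_, h2⟩
  have h4 : F' - ∑ j, ∑ k, c j k * (g j * g k) =
      (F' - F) + (F - ∑ j, ∑ k, c j k * (g j * g k)) := by ring
  rw [h4]
  exact Ideal.add_mem _ hF h1

lemma f5_span {O : Type} [CommRing O] {σ : Type} (ϖ : O) (F G : MvPolynomial σ O) :
    Ideal.span (insert (C ϖ) (Set.range fun l => pderiv l F)) ≤
      Ideal.span (insert (C ϖ) (Set.range fun l => pderiv l (F + C ϖ ^ 3 * G))) := by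
  rw [Ideal.span_le]
  rintro x (rfl | ⟨l, rfl⟩)
  · exact Ideal.subset_span (Set.mem_insert _ _)
  · have h0 : pderiv l (F + C ϖ ^ 3 * G) = pderiv l F + C ϖ ^ 3 * pderiv l G := by
      rw [← map_pow, map_add, pderiv_C_mul]
    have h1 : pderiv l F = pderiv l (F + C ϖ ^ 3 * G) - C ϖ ^ 2 * pderiv l G * C ϖ := by
      rw [h0]
      ring
    show pderiv l F ∈ _
    rw [h1]
    refine Ideal.sub_mem _ (Ideal.subset_span (Set.mem_insert_of_mem _ ⟨l, rfl⟩))
      (Ideal.mul_mem_left _ _ (Ideal.subset_span (Set.mem_insert _ _)))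

/-- Like `OdpForm.congr` of Congr.lean. -/
theorem TcForm.congr {O : Type} [CommRing O] {n : ℕ} {ϖ : O}
    {f f' g : MvPolynomial (Fin (n + 1)) O} (h : TcForm ϖ f) (hf : f' = f + C ϖ ^ 3 * g) :
    TcForm ϖ f' := by
  intro i
  obtain ⟨h1, h2⟩ := h i
  have he : dehom i f' = dehom i f + C ϖ ^ 3 * dehom i g := by
    rw [hf, map_add, map_mul, map_pow, dehom_C]
  have he' : dehom i f = dehom i f' + C ϖ ^ 3 * (-dehom i g) := by
    rw [he]
    ring
  constructor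
  · have h3 : Ideal.span (insert (C ϖ) (Set.range fun l => pderiv l (dehom i f'))) =
        Ideal.span (insert (C ϖ) (Set.range fun l => pderiv l (dehom i f))) := by
      apply le_antisymm
      · have := f5_span ϖ (dehom i f') (-dehom i g)
        rwa [← he'] at this
      · have := f5_span ϖ (dehom i f) (dehom i g)
        rwa [← he] at this
    unfold FinJac
    rw [h3]
    exact h1
  · intro 𝔮 hmax hϖ hl hsq
    have hp3 : (C ϖ ^ 3 * dehom i g : MvPolynomial {l : Fin (n + 1) // l ≠ i} O) ∈ 𝔮 ^ 3 :=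
      Ideal.mul_mem_right _ _ (Ideal.pow_mem_pow hϖ 3)
    have hle : 𝔮 ^ 3 ≤ 𝔮 ^ 2 := Ideal.pow_le_pow_right (by norm_num)
    have h3 : dehom i f ∈ 𝔮 ^ 2 := by
      have h4 : dehom i f = dehom i f' - C ϖ ^ 3 * dehom i g := by
        rw [he]
        ring
      rw [h4]
      exact Ideal.sub_mem _ hsq (hle hp3)
    refine (h2 𝔮 hmax hϖ hl h3).congr ?_
    have h4 : dehom i f' - dehom i f = C ϖ ^ 3 * dehom i g := by
      rw [he]
      ring
    rw [h4]
    exact hp3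

/-- Double counting. -/
theorem f6_double {M Z : Type} [Finite M] [Finite Z] [Nonempty M] (r : M → Z → Prop)
    (bad : Z → Prop) (S : M → Prop) (K : ℕ) (β : ℝ)
    (hM : ∀ c, Nat.card {z // r c z} = 1) (hZ : ∀ z, Nat.card {c // r c z} = K)
    (h1 : ∀ c, S c → ∀ z, r c z → ¬ bad z)
    (hb : (1 - β) * Nat.card M ≤ Nat.card {c // S c}) :
    (Nat.card {z // bad z} : ℝ) ≤ β * Nat.card Z := by
  classical
  -- the map
  have hf : ∀ c, ∃ z, r c z ∧ ∀ z', r c z' → z' = z := by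
    intro c
    obtain ⟨⟨z, hz⟩, huniq⟩ := (Nat.card_eq_one_iff_exists).1 (hM c)
    exact ⟨z, hz, fun z' hz' => congrArg Subtype.val (huniq ⟨z', hz'⟩)⟩
  choose f hf hfu using hf
  have hZ' : ∀ z, Nat.card {c // f c = z} = K := by
    intro z
    rw [← hZ z]
    refine Nat.card_congr (Equiv.subtypeEquivRight fun c => ?_)
    constructor
    · rintro rfl
      exact hf c
    · intro h
      exact (hfu c z h).symm
  have := Fintype.ofFinite Z
  have := Fintype.ofFinite M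
  have e1 : (Nat.card M : ℝ) = K * Nat.card Z := by
    have h2 : Nat.card M = ∑ z : Z, Nat.card {c // f c = z} := by
      rw [← Nat.card_sigma]
      exact Nat.card_congr (Equiv.sigmaFiberEquiv f).symm
    rw [h2, Finset.sum_congr rfl fun z _ => hZ' z, Finset.sum_const, Finset.card_univ,
      Nat.card_eq_fintype_card, smul_eq_mul]
    push_cast
    ring
  have e2 : (K : ℝ) * Nat.card {z // bad z} ≤ Nat.card {c // ¬ S c} := by
    have h2 : Nat.card (Σ z : {z // bad z}, {c // f c = z.1}) = K * Nat.card {z // bad z} := by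
      have := Fintype.ofFinite {z // bad z}
      rw [Nat.card_sigma, Finset.sum_congr rfl fun z _ => hZ' z.1, Finset.sum_const,
        Finset.card_univ, Nat.card_eq_fintype_card, smul_eq_mul, mul_comm]
    have h3 : Nat.card (Σ z : {z // bad z}, {c // f c = z.1}) ≤ Nat.card {c // ¬ S c} := by
      refine Nat.card_le_card_of_injective
        (fun x => (⟨x.2.1, fun hS => h1 _ hS _ (hf _) (by rw [x.2.2]; exact x.1.2)⟩ :
          {c // ¬ S c})) ?_
      rintro ⟨⟨z, hz⟩, ⟨c, hc⟩⟩ ⟨⟨z', hz'⟩, ⟨c', hc'⟩⟩ h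
      have h4 : c = c' := congrArg Subtype.val h
      subst h4
      have h5 : z = z' := hc.symm.trans hc'
      subst h5
      rfl
    rw [h2] at h3
    exact_mod_cast h3
  have e3 : (Nat.card {c // S c} : ℝ) + Nat.card {c // ¬ S c} = Nat.card M := by
    have h2 : Nat.card ({c // S c} ⊕ {c // ¬ S c}) = Nat.card M :=
      Nat.card_congr (Equiv.sumCompl S)
    rw [Nat.card_sum] at h2
    exact_mod_cast h2
  have hMpos : (0 : ℝ) < Nat.card M := by exact_mod_cast Nat.card_pos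
  have hKpos : (0 : ℝ) < K := by
    rcases Nat.eq_zero_or_pos K with h0 | h0
    · rw [h0, Nat.cast_zero, zero_mul] at e1
      linarith
    · exact_mod_cast h0
  have e7 : (K : ℝ) * (Nat.card {z // bad z} : ℝ) ≤ K * (β * Nat.card Z) := by
    calc (K : ℝ) * (Nat.card {z // bad z} : ℝ) ≤ Nat.card {c // ¬ S c} := e2
      _ ≤ β * Nat.card M := by linarith
      _ = K * (β * Nat.card Z) := by rw [e1]; ring
  exact le_of_mul_le_mul_left e7 hKpos

/-- Simpler than `bad_count` of Fraction.lean: a class in `Z_2 / Z_3 = 𝔮 ^ 2 / 𝔮 ^ 3` is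
good if it comes from a matrix of corank at most one; uses `tc_quad_bound`, `card_quot_two_ge`,
`exists_params`. -/
theorem tc_count {O : Type} [CommRing O] [IsDomain O] [IsDiscreteValuationRing O] {σ : Type}
    [Fintype σ] {ϖ : O} (hϖ : Irreducible ϖ) (hfin : Finite (O ⧸ Ideal.span {ϖ}))
    {𝔮 : Ideal (MvPolynomial σ O)} (hmax : 𝔮.IsMaximal) (h𝔮 : C ϖ ∈ 𝔮) :
    (Nat.card {z : MvPolynomial σ O ⧸ 𝔮 ^ 3 // ∃ F, Ideal.Quotient.mk (𝔮 ^ 3) F = z ∧ F ∈ 𝔮 ^ 2 ∧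
        ¬ TcAt F 𝔮} : ℝ) * (Nat.card (MvPolynomial σ O ⧸ 𝔮) : ℝ) ^ (Fintype.card σ + 2) ≤
      1 / ((Nat.card (MvPolynomial σ O ⧸ 𝔮) : ℝ) *
        ((Nat.card (MvPolynomial σ O ⧸ 𝔮) : ℝ) ^ 2 - 1)) *
        Nat.card (MvPolynomial σ O ⧸ 𝔮 ^ 3) := by
  classical
  obtain ⟨g, hg⟩ : ∃ g : Option σ → MvPolynomial σ O, Par 𝔮 g := by
    obtain ⟨y, -, -, hy⟩ := exists_params hϖ hfin hmax h𝔮
    exact ⟨_, hy⟩
  have hκ : Finite (MvPolynomial σ O ⧸ 𝔮) := by
    have := finite_quot_pow hϖ hfin hmax h𝔮 1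
    rwa [pow_one] at this
  have hB : Finite (MvPolynomial σ O ⧸ 𝔮 ^ 3) := finite_quot_pow hϖ hfin hmax h𝔮 3
  have h32 : 𝔮 ^ 3 ≤ 𝔮 ^ 2 := Ideal.pow_le_pow_right (by norm_num)
  set mk := Ideal.Quotient.mk (𝔮 ^ 3) with hmk
  set I2 := (𝔮 ^ 2).map mk with hI2
  have m2 : ∀ x, mk x ∈ I2 ↔ x ∈ 𝔮 ^ 2 := fun x => f4_mem_map h32 x
  have m3 : ∀ x, mk x = 0 ↔ x ∈ 𝔮 ^ 3 := fun x => Ideal.Quotient.eq_zero_iff_mem
  choose l hl using (Ideal.Quotient.mk_surjective (I := 𝔮))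
  let κ := MvPolynomial σ O ⧸ 𝔮
  let Φ : (Option σ → Option σ → κ) → MvPolynomial σ O := fun c => ∑ j, ∑ k, l (c j k) * (g j * g k)
  have hΦ2 : ∀ c, Φ c ∈ 𝔮 ^ 2 := by
    intro c
    refine Ideal.sum_mem _ fun j _ => Ideal.sum_mem _ fun k _ => Ideal.mul_mem_left _ _ ?_
    rw [pow_two]
    exact Ideal.mul_mem_mul (hg.1 j) (hg.1 k)
  have hΦsub : ∀ c c', Φ (c - c') - (Φ c - Φ c') ∈ 𝔮 ^ 3 := by
    intro c c'
    have h1 : Φ c - Φ c' = ∑ j, ∑ k, (l (c j k) - l (c' j k)) * (g j * g k) := by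
      simp only [Φ, sub_mul, Finset.sum_sub_distrib]
    rw [h1]
    refine f4_sub hg.1 (fun j k => l ((c - c') j k)) _ fun j k => ?_
    rw [← Ideal.Quotient.mk_eq_mk_iff_sub_mem, map_sub, hl, hl, hl]
    rfl
  -- the pairs
  let Z := {z : MvPolynomial σ O ⧸ 𝔮 ^ 3 // z ∈ I2}
  let r : (Option σ → Option σ → κ) → Z → Prop := fun c z => z.1 - mk (Φ c) = 0
  let bad : Z → Prop := fun z => ∃ F, mk F = z.1 ∧ F ∈ 𝔮 ^ 2 ∧ ¬ TcAt F 𝔮
  have hM : ∀ c, Nat.card {z : Z // r c z} = 1 := by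
    intro c
    rw [Nat.card_eq_one_iff_exists]
    refine ⟨⟨⟨mk (Φ c), (m2 _).mpr (hΦ2 c)⟩, sub_self _⟩, ?_⟩
    rintro ⟨⟨z, hz⟩, hr⟩
    apply Subtype.ext
    apply Subtype.ext
    exact sub_eq_zero.1 hr
  have hZ : ∀ z : Z, Nat.card {c // r c z} =
      Nat.card {c : Option σ → Option σ → κ // mk (Φ c) = 0} := by
    intro z
    obtain ⟨F, hF2, hFz⟩ := (Ideal.mem_map_iff_of_surjective mk
      Ideal.Quotient.mk_surjective).mp z.2
    obtain ⟨a, ha⟩ := f4_square hg hF2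
    let c₀ : Option σ → Option σ → κ := fun j k => Ideal.Quotient.mk 𝔮 (a j k)
    have hc₀ : z.1 - mk (Φ c₀) = 0 := by
      rw [← hFz, ← map_sub, m3]
      have h1 := f4_sub hg.1 a (fun j k => l (c₀ j k)) fun j k => by
        rw [← Ideal.Quotient.mk_eq_mk_iff_sub_mem, hl]
      have h2 := add_mem ha h1
      convert h2 using 1
      simp only [Φ]
      ring
    refine Nat.card_congr ((Equiv.subRight c₀).subtypeEquiv fun c => ?_)
    change z.1 - mk (Φ c) = 0 ↔ mk (Φ (c - c₀)) = 0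
    have h3 : mk (Φ (c - c₀)) - (mk (Φ c) - mk (Φ c₀)) = 0 := by
      rw [← map_sub, ← map_sub, m3]
      exact hΦsub c c₀
    constructor
    · intro h4
      linear_combination h3 + hc₀ - h4
    · intro h4
      linear_combination h3 + hc₀ - h4
  have h1 : ∀ c, (QNondeg c ∨ ∃ v, LineKer c v) → ∀ z : Z, r c z → ¬ bad z := by
    rintro c hc z hz ⟨F, hFz, hF2, hF⟩
    apply hF
    refine ⟨g, fun j k => l (c j k), hg, ?_, ?_⟩
    · have : mk (F - Φ c) = 0 := by rw [map_sub, hFz]; exact hz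
      exact (m3 _).mp this
    · simp only [hl]
      exact hc
  have h12 : ∀ c : Option σ → Option σ → κ, QNondeg c → ¬ ∃ v, LineKer c v := by
    rintro c hc ⟨v, hv, h⟩
    obtain ⟨hq, hd⟩ := (h v).mpr ⟨1, by simp⟩
    obtain ⟨k, hk⟩ := hc v hv hq
    exact hk (hd k)
  have hcardO : Fintype.card (Option σ) = Fintype.card σ + 1 := Fintype.card_option
  let e : Fin (Fintype.card σ + 1) ≃ Option σ :=
    (finCongr hcardO.symm).trans (Fintype.equivFin (Option σ)).symm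
  have hb0 : (1 - 1 / ((Nat.card κ : ℝ) * ((Nat.card κ : ℝ) ^ 2 - 1))) *
      Nat.card (Option σ → Option σ → κ) ≤
      (Nat.card {c : Option σ → Option σ → κ // QNondeg c} : ℝ) +
          Nat.card {c : Option σ → Option σ → κ // ∃ v, LineKer c v} := by
    rw [f4_card_qnondeg e, f4_card_lineKer e, Nat.card_fun, Nat.card_fun]
    have h3 : Nat.card (Option σ) = Fintype.card σ + 1 := by
      rw [Nat.card_eq_fintype_card, hcardO]
    rw [h3, ← pow_mul, ← pow_two, Nat.cast_pow]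
    let _ : Field κ := Ideal.Quotient.field 𝔮
    exact tc_quad_bound (κ := κ) (Fintype.card σ)
  have hb : (1 - 1 / ((Nat.card κ : ℝ) * ((Nat.card κ : ℝ) ^ 2 - 1))) *
      Nat.card (Option σ → Option σ → κ) ≤
      (Nat.card {c : Option σ → Option σ → κ // QNondeg c ∨ ∃ v, LineKer c v} : ℝ) := by
    refine hb0.trans (le_of_eq ?_)
    have h3 : Nat.card {c : Option σ → Option σ → κ // QNondeg c ∨ ∃ v, LineKer c v} =
        Nat.card {c : Option σ → Option σ → κ // QNondeg c} +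
          Nat.card {c : Option σ → Option σ → κ // ∃ v, LineKer c v} := by
      rw [← Nat.card_sum]
      refine Nat.card_congr (subtypeOrEquiv _ _ ?_)
      rw [Pi.disjoint_iff]
      intro c
      rw [Prop.disjoint_iff]
      exact fun h => h12 c h.1 h.2
    rw [h3]
    push_cast
    ring
  have hmain := f6_double r bad (fun c => QNondeg c ∨ ∃ v, LineKer c v) _ _ hM hZ h1 hb
  have hbad : Nat.card {z : MvPolynomial σ O ⧸ 𝔮 ^ 3 // ∃ F, Ideal.Quotient.mk (𝔮 ^ 3) F = z ∧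
      F ∈ 𝔮 ^ 2 ∧ ¬ TcAt F 𝔮} = Nat.card {z : Z // bad z} := by
    refine Nat.card_congr (Equiv.subtypeSubtypeEquivSubtype ?_).symm
    rintro x ⟨F, hFx, hF2, -⟩
    rw [← hFx]
    exact (m2 F).mpr hF2
  have hcard2 := card_quot_two_ge hϖ hfin hmax h𝔮
  have hcardB := f4_card h32
  rw [hbad, hcardB]
  have h5 : ((Nat.card κ ^ (Fintype.card σ + 2) : ℕ) : ℝ) ≤
      (Nat.card (MvPolynomial σ O ⧸ 𝔮 ^ 2) : ℝ) := by exact_mod_cast hcard2
  rw [Nat.cast_pow] at h5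
  rw [Nat.cast_mul]
  have hQ1 : 1 < Nat.card κ := by
    have : Nontrivial κ := Ideal.Quotient.nontrivial_iff.mpr hmax.ne_top
    exact Finite.one_lt_card
  have hQ : (2 : ℝ) ≤ (Nat.card κ : ℝ) := by exact_mod_cast hQ1
  have hQ2 : (0 : ℝ) < (Nat.card κ : ℝ) ^ 2 - 1 := by nlinarith
  have h6 : (0 : ℝ) ≤ 1 / ((Nat.card κ : ℝ) * ((Nat.card κ : ℝ) ^ 2 - 1)) * Nat.card Z := by
    positivity
  calc (Nat.card {z : Z // bad z} : ℝ) * (Nat.card κ : ℝ) ^ (Fintype.card σ + 2)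
      ≤ (1 / ((Nat.card κ : ℝ) * ((Nat.card κ : ℝ) ^ 2 - 1)) * Nat.card Z) *
        (Nat.card (MvPolynomial σ O ⧸ 𝔮 ^ 2) : ℝ) :=
        mul_le_mul hmain h5 (by positivity) h6
    _ = 1 / ((Nat.card κ : ℝ) * ((Nat.card κ : ℝ) ^ 2 - 1)) *
        ((Nat.card (MvPolynomial σ O ⧸ 𝔮 ^ 2) : ℝ) * (Nat.card I2 : ℝ)) := by
        ring

end Pool.Agent.Lib.MP_6a3dac_ag.Maj
end

section

/-!
# The condition at a prime only depends on the form modulo the fourth power of the prime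
-/

set_option autoImplicit false

namespace Pool.Agent.Lib.MP_6a3dac_ag.Maj

open MvPolynomial
open Pool.Agent.Lib.MP_6a3dac_ag.DNF

private theorem k1_pderiv {O : Type} [CommRing O] {σ : Type} (ϖ : O) (F G : MvPolynomial σ O)
    (l : σ) : pderiv l (F + C ϖ ^ 4 * G) = pderiv l F + C ϖ ^ 4 * pderiv l G := by
  rw [← map_pow, map_add, pderiv_C_mul]

private theorem k1_span {O : Type} [CommRing O] {σ : Type} (ϖ : O) (F G : MvPolynomial σ O) :
    Ideal.span (insert (C ϖ) (Set.range fun l => pderiv l F)) ≤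
      Ideal.span (insert (C ϖ) (Set.range fun l => pderiv l (F + C ϖ ^ 4 * G))) := by
  rw [Ideal.span_le]
  rintro x (rfl | ⟨l, rfl⟩)
  · exact Ideal.subset_span (Set.mem_insert _ _)
  · have h1 : pderiv l F = pderiv l (F + C ϖ ^ 4 * G) - C ϖ ^ 3 * pderiv l G * C ϖ := by
      rw [k1_pderiv]
      ring
    show pderiv l F ∈ _
    rw [h1]
    refine Ideal.sub_mem _ (Ideal.subset_span (Set.mem_insert_of_mem _ ⟨l, rfl⟩))
      (Ideal.mul_mem_left _ _ (Ideal.subset_span (Set.mem_insert _ _)))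

/-- Uses `OdpAt.congr`. -/
theorem OdpForm.congr {O : Type} [CommRing O] {n : ℕ} {ϖ : O}
    {f f' g : MvPolynomial (Fin (n + 1)) O} (h : OdpForm ϖ f) (hf : f' = f + C ϖ ^ 4 * g) :
    OdpForm ϖ f' := by
  intro i
  obtain ⟨h1, h2⟩ := h i
  have he : dehom i f' = dehom i f + C ϖ ^ 4 * dehom i g := by
    rw [hf, map_add, map_mul, map_pow, dehom_C]
  have he' : dehom i f = dehom i f' + C ϖ ^ 4 * (-dehom i g) := by
    rw [he]
    ring
  constructor
  · have h3 : Ideal.span (insert (C ϖ) (Set.range fun l => pderiv l (dehom i f'))) =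
        Ideal.span (insert (C ϖ) (Set.range fun l => pderiv l (dehom i f))) := by
      apply le_antisymm
      · have := k1_span ϖ (dehom i f') (-dehom i g)
        rwa [← he'] at this
      · have := k1_span ϖ (dehom i f) (dehom i g)
        rwa [← he] at this
    unfold FinJac
    rw [h3]
    exact h1
  · intro 𝔮 hmax hϖ hl hsq
    have hp4 : (C ϖ ^ 4 * dehom i g : MvPolynomial {l : Fin (n + 1) // l ≠ i} O) ∈ 𝔮 ^ 4 :=
      Ideal.mul_mem_right _ _ (Ideal.pow_mem_pow hϖ 4)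
    have hle : 𝔮 ^ 4 ≤ 𝔮 ^ 2 := Ideal.pow_le_pow_right (by norm_num)
    have h3 : dehom i f ∈ 𝔮 ^ 2 := by
      have h4 : dehom i f = dehom i f' - C ϖ ^ 4 * dehom i g := by
        rw [he]
        ring
      rw [h4]
      exact Ideal.sub_mem _ hsq (hle hp4)
    refine (h2 𝔮 hmax hϖ hl h3).congr ?_
    have h4 : dehom i f' - dehom i f = C ϖ ^ 4 * dehom i g := by
      rw [he]
      ring
    rw [h4]
    exact hp4

end Pool.Agent.Lib.MP_6a3dac_ag.Maj
end

section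

/-!
# The proportion of the bad forms at a prime
-/

set_option autoImplicit false

namespace Pool.Agent.Lib.MP_6a3dac_ag.Maj

open MvPolynomial NumberField IsDedekindDomain Filter Topology
open Pool.Agent.Lib.MP_6a3dac_ag.DNF Pool.Agent.Lib.MP_6a3dac_ag.Sys

theorem coeffs_add {ι B : Type} [CommRing B] {s : ℕ} (b : Module.Basis (Fin s) ℤ B)
    (u v : ι × Fin s → ℤ) (i : ι) : coeffs b (u + v) i = coeffs b u i + coeffs b v i := by
  simp only [DNF.coeffs, Pi.add_apply, add_smul, Finset.sum_add_distrib]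

theorem coeffs_zero {ι B : Type} [CommRing B] {s : ℕ} (b : Module.Basis (Fin s) ℤ B)
    (i : ι) : coeffs b (0 : ι × Fin s → ℤ) i = 0 := by
  simp only [DNF.coeffs, Pi.zero_apply, zero_smul, Finset.sum_const_zero]

theorem form_add {n d : ℕ} {R : Type} [CommRing R] (a a' : Mono n d → R) :
    form (fun μ => a μ + a' μ) = form a + form a' := by
  simp only [form, C_add, add_mul, Finset.sum_add_distrib]

theorem form_zero {n d : ℕ} {R : Type} [CommRing R] :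
    form (fun _ : Mono n d => (0 : R)) = 0 := by
  simp only [form, C_0, zero_mul, Finset.sum_const_zero]

section Hom

variable {E : Type} [Field E] [NumberField E] {s : ℕ} (b : Module.Basis (Fin s) ℤ (𝓞 E)) {n d : ℕ}
  (i : Fin (n + 1)) (P : HeightOneSpectrum (𝓞 E))

/-- The dehomogenization of the form with the coordinates `u`. -/
noncomputable def locForm (u : Mono n d × Fin s → ℤ) :
    MvPolynomial {l : Fin (n + 1) // l ≠ i} (locRing E P) :=
  dehom i (form fun μ => algebraMap (𝓞 E) (locRing E P) (coeffs b u μ))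

/-- The dehomogenization modulo an ideal as a homomorphism of the coordinates. -/
noncomputable def locHom (I : Ideal (MvPolynomial {l : Fin (n + 1) // l ≠ i} (locRing E P))) :
    (Mono n d × Fin s → ℤ) →+ MvPolynomial {l : Fin (n + 1) // l ≠ i} (locRing E P) ⧸ I where
  toFun u := Ideal.Quotient.mk I (locForm b i P u)
  map_zero' := by
    rw [locForm]
    simp only [coeffs_zero, map_zero, form_zero]
  map_add' u v := by
    rw [locForm]
    simp only [coeffs_add, map_add, form_add]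
    rfl

theorem locHom_apply (I : Ideal (MvPolynomial {l : Fin (n + 1) // l ≠ i} (locRing E P)))
    (u : Mono n d × Fin s → ℤ) : locHom b i P I u = Ideal.Quotient.mk I
      (dehom i (form fun μ => algebraMap (𝓞 E) (locRing E P) (coeffs b u μ))) := rfl

end Hom

/-- From `form_surj`, `bad_count`, `UD.hom`. -/
theorem point_UD {E : Type} [Field E] [NumberField E] {s : ℕ} (b : Module.Basis (Fin s) ℤ (𝓞 E))
    {n d e : ℕ} (he : (1 + (n + 1) + (n + 1) ^ 2 + (n + 1) ^ 3) * e ≤ d) (i : Fin (n + 1))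
    (P : HeightOneSpectrum (𝓞 E)) {ϖ : locRing E P} (hϖ : Irreducible ϖ)
    {𝔮 : Ideal (MvPolynomial {l : Fin (n + 1) // l ≠ i} (locRing E P))} (hmax : 𝔮.IsMaximal)
    (h𝔮 : C ϖ ∈ 𝔮) (hcard : Nat.card (MvPolynomial _ (locRing E P) ⧸ 𝔮) =
      Nat.card (𝓞 E ⧸ P.asIdeal) ^ e) :
    UD (fun u : Mono n d × Fin s → ℤ =>
        dehom i (form fun μ => algebraMap (𝓞 E) (locRing E P) (coeffs b u μ)) ∈ 𝔮 ^ 2 ∧
        ¬ OdpAt (dehom i (form fun μ => algebraMap (𝓞 E) (locRing E P) (coeffs b u μ))) 𝔮)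
      ((1 / ((Nat.card (𝓞 E ⧸ P.asIdeal) : ℝ) ^ e) ^ 2 +
          1 / ((Nat.card (𝓞 E ⧸ P.asIdeal) : ℝ) ^ e) ^ 3) /
        ((Nat.card (𝓞 E ⧸ P.asIdeal) : ℝ) ^ e) ^ (n + 2)) := by
  have hcσ : Fintype.card {l : Fin (n + 1) // l ≠ i} = n := by
    rw [Fintype.card_subtype_compl, Fintype.card_fin, Fintype.card_subtype_eq, Nat.add_sub_cancel]
  have hfin := finite_res P hϖ
  have hq4 := finite_quot_pow hϖ hfin hmax h𝔮 4
  have hq1 : 0 < Nat.card (MvPolynomial {l : Fin (n + 1) // l ≠ i} (locRing E P) ⧸ 𝔮) := by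
    have h1 := finite_quot_pow hϖ hfin hmax h𝔮 1
    rw [pow_one] at h1
    exact Nat.card_pos
  have h4 := card_quot_four_le hϖ hfin hmax h𝔮
  rw [hcσ, hcard, ← pow_mul, mul_comm e] at h4
  have hbad := bad_count hϖ hfin hmax h𝔮
  rw [hcσ, hcard, Nat.cast_pow] at hbad
  have hQ : (0 : ℝ) < (Nat.card (𝓞 E ⧸ P.asIdeal) : ℝ) ^ e := by
    rw [hcard] at hq1
    exact_mod_cast hq1
  refine UD.hom (locHom b i P (𝔮 ^ 4))
    (form_surj b i P hϖ (k := 4) (by norm_num) 𝔮 hmax h𝔮 hq4 h4 (by omega))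
    {z | ∃ F, Ideal.Quotient.mk (𝔮 ^ 4) F = z ∧ F ∈ 𝔮 ^ 2 ∧ ¬ OdpAt F 𝔮} ?_ ?_
  · rintro u ⟨h1, h2⟩
    exact ⟨_, rfl, h1, h2⟩
  · rw [div_mul_eq_mul_div, le_div_iff₀ (pow_pos hQ _)]
    exact hbad

theorem sum_points_le {Q : ℝ} (hQ : 1 < Q) {e : ℕ} (he : 1 ≤ e) (n : ℕ) :
    (∑ i : Fin (n + 1), Q ^ (n - (i : ℕ)) / e) * ((1 / Q ^ 2 + 1 / Q ^ 3) / Q ^ (n + 2)) ≤
      (Q + 1) / (e * Q ^ 4 * (Q - 1)) := by
  have h0 : (0 : ℝ) < e := by exact_mod_cast he
  have hQ0 : 0 < Q := by linarith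
  have hQ1 : 0 < Q - 1 := by linarith
  have h1 : ∑ i : Fin (n + 1), Q ^ (n - (i : ℕ)) = (Q ^ (n + 1) - 1) / (Q - 1) := by
    rw [← geom_sum_eq hQ.ne', ← Finset.sum_range_reflect, Finset.sum_range]
    refine Finset.sum_congr rfl fun i _ => ?_
    congr 1
  rw [← Finset.sum_div, h1]
  have h2 : (Q ^ (n + 1) - 1) / (Q - 1) / e * ((1 / Q ^ 2 + 1 / Q ^ 3) / Q ^ (n + 2)) =
      (Q ^ (n + 1) - 1) / Q ^ (n + 1) * ((Q + 1) / (e * Q ^ 4 * (Q - 1))) := by
    field_simp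
    ring
  rw [h2]
  have h3 : (Q ^ (n + 1) - 1) / Q ^ (n + 1) ≤ 1 := by
    rw [div_le_one (pow_pos hQ0 _)]
    linarith
  have h4 : 0 ≤ (Q + 1) / (e * Q ^ 4 * (Q - 1)) := by positivity
  nlinarith

theorem sum_lossE_le {q : ℝ} (hq : 2 ≤ q) (r : ℕ) :
    ∑ e ∈ Finset.Icc 1 r, lossE q e ≤ loss q := by
  have h1 : ∑ e ∈ Finset.Icc 1 r, lossE q e = ∑ e ∈ Finset.range r, lossE q (e + 1) := by
    rw [Finset.range_eq_Ico, Finset.sum_Ico_add' (fun e => lossE q e) 0 r 1]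
    rfl
  rw [h1]
  exact (summable_lossE hq).sum_le_tsum _ fun e _ => lossE_nonneg hq _

theorem local_UD {E : Type} [Field E] [NumberField E] {s : ℕ} (b : Module.Basis (Fin s) ℤ (𝓞 E))
    {n d : ℕ} (hn : 1 ≤ n) (hd : 1 ≤ d) (P : HeightOneSpectrum (𝓞 E)) {ϖ : locRing E P}
    (hϖ : Irreducible ϖ) :
    UD (fun u : Mono n d × Fin s → ℤ => ¬ OdpForm ϖ
        (form fun μ => algebraMap (𝓞 E) (locRing E P) (coeffs b u μ)))
      (loss (Nat.card (𝓞 E ⧸ P.asIdeal)) +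
        etaK n d / (Nat.card (𝓞 E ⧸ P.asIdeal) : ℝ) ^ (rad n d + 1)) := by
  classical
  obtain ⟨q, hq⟩ : ∃ q, q = Nat.card (𝓞 E ⧸ P.asIdeal) := ⟨_, rfl⟩
  have hfin := finite_res P hϖ
  have hres := card_res P hϖ
  have hq2 : (2 : ℝ) ≤ q := by rw [hq]; exact two_le_norm P
  have hq2' : 2 ≤ q := by exact_mod_cast hq2
  have hrd : rad n d ≤ d := Nat.div_le_self _ _
  have hL : 4 ≤ 1 + (n + 1) + (n + 1) ^ 2 + (n + 1) ^ 3 := by
    have h1 : 1 ≤ (n + 1) ^ 2 := Nat.one_le_pow _ _ (by omega)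
    have h2 : 1 ≤ (n + 1) ^ 3 := Nat.one_le_pow _ _ (by omega)
    omega
  have hrd2 : rad n d + 1 ≤ (d + 1) / 2 := by
    have h1 : rad n d ≤ d / 4 := Nat.div_le_div_left hL (by norm_num)
    omega
  have hfin1 : ∀ i : Fin (n + 1), ∀ e, 1 ≤ e → (closedPts ϖ i e).Finite := fun i e he =>
    (card_closedPts hϖ hfin i he).1
  have hA : UD (fun u : Mono n d × Fin s → ℤ => ∃ i ∈ (Finset.univ : Finset (Fin (n + 1))),
      ¬ FinJac ϖ (dehom i (form fun μ => algebraMap (𝓞 E) (locRing E P) (coeffs b u μ)))) _ :=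
    UD.exists_finset Finset.univ fun i _ => finJac_UD b hn hd i P hϖ
  have hB : UD (fun u : Mono n d × Fin s → ℤ => ∃ i ∈ (Finset.univ : Finset (Fin (n + 1))),
      FinJac ϖ (dehom i (form fun μ => algebraMap (𝓞 E) (locRing E P) (coeffs b u μ))) ∧
        ∃ 𝔮 : Ideal (MvPolynomial {l : Fin (n + 1) // l ≠ i} (locRing E P)), 𝔮.IsMaximal ∧
          C ϖ ∈ 𝔮 ∧ Nat.card (𝓞 E ⧸ P.asIdeal) ^ (rad n d) <
            Nat.card (MvPolynomial {l : Fin (n + 1) // l ≠ i} (locRing E P) ⧸ 𝔮) ∧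
          dehom i (form fun μ => algebraMap (𝓞 E) (locRing E P) (coeffs b u μ)) ∈ 𝔮 ^ 2) _ :=
    UD.exists_finset Finset.univ fun i _ => high_UD b hrd i P hϖ
  have hD : UD (fun u : Mono n d × Fin s → ℤ => ∃ i ∈ (Finset.univ : Finset (Fin (n + 1))),
      ∃ e ∈ Finset.Icc 1 (rad n d), 1 ≤ e ∧ e ≤ rad n d ∧ ∃ 𝔮 ∈ closedPts ϖ i e,
        dehom i (form fun μ => algebraMap (𝓞 E) (locRing E P) (coeffs b u μ)) ∈ 𝔮 ^ 2 ∧
        ¬ OdpAt (dehom i (form fun μ => algebraMap (𝓞 E) (locRing E P) (coeffs b u μ))) 𝔮)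
      (∑ i : Fin (n + 1), ∑ e ∈ Finset.Icc 1 (rad n d), ((closedPts ϖ i e).ncard : ℝ) *
        ((1 / ((q : ℝ) ^ e) ^ 2 + 1 / ((q : ℝ) ^ e) ^ 3) / ((q : ℝ) ^ e) ^ (n + 2))) := by
    refine UD.exists_finset Finset.univ fun i _ => UD.exists_finset _ fun e he => ?_
    rw [Finset.mem_Icc] at he
    have h1 : UD (fun u : Mono n d × Fin s → ℤ => ∃ 𝔮 ∈ (hfin1 i e he.1).toFinset,
        dehom i (form fun μ => algebraMap (𝓞 E) (locRing E P) (coeffs b u μ)) ∈ 𝔮 ^ 2 ∧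
        ¬ OdpAt (dehom i (form fun μ => algebraMap (𝓞 E) (locRing E P) (coeffs b u μ))) 𝔮)
        (∑ 𝔮 ∈ (hfin1 i e he.1).toFinset,
          ((1 / ((q : ℝ) ^ e) ^ 2 + 1 / ((q : ℝ) ^ e) ^ 3) / ((q : ℝ) ^ e) ^ (n + 2))) := by
      refine UD.exists_finset _ fun 𝔮 h𝔮 => ?_
      rw [Set.Finite.mem_toFinset] at h𝔮
      obtain ⟨h2, h3, -, h4⟩ := h𝔮
      rw [hq]
      refine point_UD b ?_ i P hϖ h2 h3 (by rw [h4, hres])
      refine (Nat.mul_le_mul_left _ he.2).trans ?_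
      exact Nat.mul_div_le _ _
    rw [Finset.sum_const, nsmul_eq_mul, ← Set.ncard_eq_toFinset_card _ (hfin1 i e he.1)] at h1
    refine h1.mono ?_ le_rfl
    rintro u ⟨-, -, 𝔮, h2, h3⟩
    exact ⟨𝔮, (Set.Finite.mem_toFinset _).mpr h2, h3⟩
  refine ((hA.or hB).or hD).mono ?_ ?_
  · intro u hu
    rw [OdpForm] at hu
    push Not at hu
    obtain ⟨i, hi⟩ := hu
    by_cases hJ : FinJac ϖ (dehom i (form fun μ => algebraMap (𝓞 E) (locRing E P) (coeffs b u μ)))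
    · obtain ⟨𝔮, h1, h2, h3, h4, h5⟩ := hi hJ
      obtain ⟨e, he, hcard⟩ := exists_card_residue hϖ hfin h1 h2
      by_cases her : e ≤ rad n d
      · exact Or.inr ⟨i, Finset.mem_univ _, e, Finset.mem_Icc.mpr ⟨he, her⟩, he, her, 𝔮,
          ⟨h1, h2, h3, hcard⟩, h4, h5⟩
      · refine Or.inl (Or.inr ⟨i, Finset.mem_univ _, hJ, 𝔮, h1, h2, ?_, h4⟩)
        rw [hcard, hres, ← hq]
        exact Nat.pow_lt_pow_right hq2' (by omega)
    · exact Or.inl (Or.inl ⟨i, Finset.mem_univ _, hJ⟩)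
  · rw [← hq]
    have hq0 : (0 : ℝ) < q := by linarith
    have e1 : ∑ i : Fin (n + 1), ∑ e ∈ Finset.Icc 1 (rad n d), ((closedPts ϖ i e).ncard : ℝ) *
        ((1 / ((q : ℝ) ^ e) ^ 2 + 1 / ((q : ℝ) ^ e) ^ 3) / ((q : ℝ) ^ e) ^ (n + 2)) ≤ loss q := by
      rw [Finset.sum_comm]
      refine (Finset.sum_le_sum fun e he => ?_).trans (sum_lossE_le hq2 (rad n d))
      rw [Finset.mem_Icc] at he
      rw [← Finset.sum_mul]
      have hQ1 : (1 : ℝ) < (q : ℝ) ^ e := one_lt_pow₀ (by linarith) (by omega)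
      have he0 : (0 : ℝ) < e := by exact_mod_cast he.1
      refine le_trans (mul_le_mul_of_nonneg_right (Finset.sum_le_sum fun i _ => ?_) (by positivity))
        (sum_points_le hQ1 he.1 n)
      rw [le_div_iff₀ he0, mul_comm]
      have h1 := (card_closedPts hϖ hfin i he.1).2
      rw [hres, ← hq, pow_mul] at h1
      exact_mod_cast h1
    have e2 : (1 : ℝ) / (q : ℝ) ^ ((d + 1) / 2) ≤ 1 / (q : ℝ) ^ (rad n d + 1) :=
      one_div_le_one_div_of_le (pow_pos hq0 _) (pow_le_pow_right₀ (by linarith) hrd2)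
    have e3 : (0 : ℝ) ≤ (n : ℝ) ^ n * (n * d + 1) ^ (n ^ 2) := by positivity
    rw [Finset.sum_const, Finset.sum_const, Finset.card_univ, Fintype.card_fin, nsmul_eq_mul,
      nsmul_eq_mul]
    have e4 : (n : ℝ) ^ n * (n * d + 1) ^ (n ^ 2) / (q : ℝ) ^ ((d + 1) / 2) ≤
        (n : ℝ) ^ n * (n * d + 1) ^ (n ^ 2) / (q : ℝ) ^ (rad n d + 1) := by
      rw [div_eq_mul_one_div, div_eq_mul_one_div _ ((q : ℝ) ^ (rad n d + 1))]
      exact mul_le_mul_of_nonneg_left e2 e3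
    have e5 : etaK n d / (q : ℝ) ^ (rad n d + 1) =
        ((n + 1 : ℕ) : ℝ) * ((n : ℝ) ^ n * (n * d + 1) ^ (n ^ 2) / (q : ℝ) ^ (rad n d + 1)) +
        ((n + 1 : ℕ) : ℝ) * ((n * d + 1 : ℝ) ^ (n ^ 2) / (q : ℝ) ^ (rad n d + 1)) := by
      rw [etaK]
      push_cast
      field_simp
    have e6 := mul_le_mul_of_nonneg_left e4 (Nat.cast_nonneg (α := ℝ) (n + 1))
    linarith

/-- The classes modulo the fourth power of `P` of the good forms. -/
def goodClass {E : Type} [Field E] [NumberField E] {n d : ℕ}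
    (ϖ : ∀ P : HeightOneSpectrum (𝓞 E), locRing E P) (P : HeightOneSpectrum (𝓞 E)) :
    Set (Mono n d → 𝓞 E ⧸ P.asIdeal ^ 4) :=
  {a | ∃ v : Mono n d → 𝓞 E, (∀ μ, Ideal.Quotient.mk (P.asIdeal ^ 4) (v μ) = a μ) ∧
    OdpForm (ϖ P) (form fun μ => algebraMap (𝓞 E) (locRing E P) (v μ))}

theorem redk_mem_goodClass {E : Type} [Field E] [NumberField E] {s : ℕ}
    (b : Module.Basis (Fin s) ℤ (𝓞 E)) {n d : ℕ}
    (ϖ : ∀ P : HeightOneSpectrum (𝓞 E), locRing E P) (hϖ : ∀ P, Irreducible (ϖ P))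
    (P : HeightOneSpectrum (𝓞 E)) (u : Mono n d × Fin s → ℤ) :
    redk b 4 P u ∈ goodClass ϖ P ↔
      OdpForm (ϖ P) (form fun μ => algebraMap (𝓞 E) (locRing E P) (coeffs b u μ)) := by
  constructor
  · rintro ⟨v, hv, hodp⟩
    have h1 : ∀ μ, ∃ w : locRing E P, algebraMap (𝓞 E) (locRing E P) (coeffs b u μ) =
        algebraMap (𝓞 E) (locRing E P) (v μ) + ϖ P ^ 4 * w := by
      intro μ
      have h2 : coeffs b u μ - v μ ∈ P.asIdeal ^ 4 := by
        rw [← Ideal.Quotient.eq, hv μ]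
        rfl
      have h3 := Ideal.mem_map_of_mem (algebraMap (𝓞 E) (locRing E P)) h2
      rw [Ideal.map_pow, IsLocalization.AtPrime.map_eq_maximalIdeal P.asIdeal (locRing E P),
        ← span_uniformizer P (hϖ P), Ideal.span_singleton_pow, Ideal.mem_span_singleton] at h3
      obtain ⟨w, hw⟩ := h3
      exact ⟨w, by rw [← hw, map_sub]; ring⟩
    choose w hw using h1
    refine hodp.congr (g := form w) ?_
    simp only [hw, form_add]
    congr 1
    simp only [form, Finset.mul_sum, C_mul, C_pow, mul_assoc]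
  · intro h
    exact ⟨coeffs b u, fun μ => rfl, h⟩

/-- From `tendsto_prop_redk`, `redk_hom`, `local_UD`, `OdpForm.congr`,
`prod_ge_of_ge`. -/
theorem small_primes {E : Type} [Field E] [NumberField E] {s : ℕ}
    (b : Module.Basis (Fin s) ℤ (𝓞 E)) {n d : ℕ} (hn : 1 ≤ n) (hd : 1 ≤ d)
    (T : Finset (HeightOneSpectrum (𝓞 E))) (ϖ : ∀ P : HeightOneSpectrum (𝓞 E), locRing E P)
    (hϖ : ∀ P, Irreducible (ϖ P)) {ε : ℝ}
    (hε : ∑ P ∈ T, etaK n d / (Nat.card (𝓞 E ⧸ P.asIdeal) : ℝ) ^ (rad n d + 1) ≤ ε) :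
    UD (fun u : Mono n d × Fin s → ℤ => ¬ ∀ P ∈ T, OdpForm (ϖ P)
        (form fun μ => algebraMap (𝓞 E) (locRing E P) (coeffs b u μ)))
      (1 - majC E + ε) := by
  classical
  have h1 := tendsto_prop_redk b (ι := Mono n d) (k := 4) (by norm_num) T (goodClass ϖ)
  have hfinq : ∀ P : HeightOneSpectrum (𝓞 E), Finite (Mono n d → 𝓞 E ⧸ P.asIdeal ^ 4) := by
    intro P
    have := (redk_hom b (ι := Mono n d) (k := 4) (by norm_num) P).1
    infer_instance
  have hpos : ∀ P : HeightOneSpectrum (𝓞 E),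
      (0 : ℝ) < Nat.card (Mono n d → 𝓞 E ⧸ P.asIdeal ^ 4) := by
    intro P
    have := hfinq P
    exact_mod_cast Nat.card_pos
  have hloc : ∀ P : HeightOneSpectrum (𝓞 E), (1 - loss (Nat.card (𝓞 E ⧸ P.asIdeal))) -
      etaK n d / (Nat.card (𝓞 E ⧸ P.asIdeal) : ℝ) ^ (rad n d + 1) ≤
      (Nat.card (goodClass (n := n) (d := d) ϖ P) : ℝ) /
        Nat.card (Mono n d → 𝓞 E ⧸ P.asIdeal ^ 4) := by
    intro P
    have h2 := tendsto_prop_redk b (ι := Mono n d) (k := 4) (by norm_num) {P} (goodClass ϖ)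
    rw [Finset.prod_singleton] at h2
    have h3 := (tendsto_const_nhds (x := (1 : ℝ))).sub h2
    have h4 := (local_UD b hn hd P (hϖ P)).le_of_tendsto (h3.congr fun H => ?_)
    · linarith
    · rw [← prop_compl]
      congr 1
      funext u
      simp only [Finset.mem_singleton, forall_eq, redk_mem_goodClass b ϖ hϖ P u]
  have hloss : ∀ P : HeightOneSpectrum (𝓞 E),
      loss (Nat.card (𝓞 E ⧸ P.asIdeal)) ≤ 1 := by
    intro P
    have h2 := two_le_norm P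
    refine (loss_le h2).trans ?_
    rw [div_le_one (by positivity)]
    have h3 : (2 : ℝ) ^ 4 ≤ (Nat.card (𝓞 E ⧸ P.asIdeal) : ℝ) ^ 4 :=
      pow_le_pow_left₀ (by norm_num) h2 4
    linarith
  have h5 := prod_ge_of_ge T (μ := fun P => (Nat.card (goodClass (n := n) (d := d) ϖ P) : ℝ) /
      Nat.card (Mono n d → 𝓞 E ⧸ P.asIdeal ^ 4))
    (a := fun P => 1 - loss (Nat.card (𝓞 E ⧸ P.asIdeal)))
    (η := fun P => etaK n d / (Nat.card (𝓞 E ⧸ P.asIdeal) : ℝ) ^ (rad n d + 1))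
    (fun P _ => by positivity)
    (fun P _ => by
      have := hfinq P
      rw [div_le_one (hpos P)]
      exact_mod_cast Nat.card_le_card_of_injective (Subtype.val : goodClass ϖ P → _)
        Subtype.val_injective)
    (fun P _ => by have := hloss P; linarith)
    (fun P _ => by have := loss_nonneg (two_le_norm P); linarith)
    (fun P _ => by
      rw [etaK]
      have := two_le_norm P
      positivity)
    (fun P _ => hloc P)
  have h6 := majC_le_prod E T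
  refine (UD.of_tendsto ((tendsto_const_nhds (x := (1 : ℝ))).sub h1 |>.congr fun H => ?_)).mono
    (fun u hu => hu) ?_
  · rw [← prop_compl]
    congr 1
    funext u
    simp only [redk_mem_goodClass b ϖ hϖ]
  · linarith

end Pool.Agent.Lib.MP_6a3dac_ag.Maj
end
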