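import Pool.Agent.Lib.MP_6a3dac_ag.Bert.Prob1
import Pool.Agent.Lib.MP_6a3dac_ag.Mg.G068
import Pool.Agent.Lib.MP_6a3dac_ag.Mg.G008
import Pool.Agent.Lib.MP_6a3dac_ag.Mg.G066
import Pool.Agent.Lib.MP_6a3dac_ag.Mg.G065
import Pool.Agent.Lib.MP_6a3dac_ag.Mg.G072

section

/-!
# The probability of singular points over a prime
-/

set_option autoImplicit false

namespace Pool.Agent.Lib.MP_6a3dac_ag.Bert

open MvPolynomial NumberField IsDedekindDomain
open Pool.Agent.Lib.MP_6a3dac_ag.DNF Pool.Agent.Lib.MP_6a3dac_ag.Maj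

/-- The reduction of polynomials modulo `P`. -/
noncomputable abbrev redP {E : Type} [Field E] [NumberField E] (σ : Type)
    (P : HeightOneSpectrum (𝓞 E)) :
    MvPolynomial σ (𝓞 E) →+* MvPolynomial σ (𝓞 E ⧸ P.asIdeal) :=
  MvPolynomial.map (Ideal.Quotient.mk P.asIdeal)

/-- The residue field. -/
noncomputable instance fieldRes {E : Type} [Field E] [NumberField E]
    (P : HeightOneSpectrum (𝓞 E)) : Field (𝓞 E ⧸ P.asIdeal) :=
  Ideal.Quotient.field P.asIdeal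

instance finiteRes {E : Type} [Field E] [NumberField E] (P : HeightOneSpectrum (𝓞 E)) :
    Finite (𝓞 E ⧸ P.asIdeal) :=
  Ideal.finiteQuotientOfFreeOfNeBot _ P.ne_bot

/-- The dehomogenization modulo an ideal as a homomorphism of the coordinates. -/
noncomputable def dHom {E : Type} [Field E] [NumberField E] {s : ℕ}
    (b : Module.Basis (Fin s) ℤ (𝓞 E)) {n d : ℕ} (i : Fin (n + 1))
    (J : Ideal (MvPolynomial {l : Fin (n + 1) // l ≠ i} (𝓞 E))) :
    (Mono n d × Fin s → ℤ) →+ MvPolynomial {l : Fin (n + 1) // l ≠ i} (𝓞 E) ⧸ J where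
  toFun u := Ideal.Quotient.mk J (dF (coeffs b u) i)
  map_zero' := by
    have h : (coeffs b (0 : Mono n d × Fin s → ℤ)) = fun _ => (0 : 𝓞 E) := by
      funext μ
      simp [DNF.coeffs]
    rw [h, dF]
    simp [form]
  map_add' u v := by
    have h : (coeffs b (u + v) : Mono n d → 𝓞 E) = fun μ => coeffs b u μ + coeffs b v μ := by
      funext μ
      simp only [DNF.coeffs, Pi.add_apply, add_smul, Finset.sum_add_distrib]
    rw [h, dF, dF, dF, ← map_add, ← map_add]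
    congr 2
    simp only [form, C_add, add_mul, Finset.sum_add_distrib]

section

variable {E : Type} [Field E] [NumberField E] {s : ℕ} (b : Module.Basis (Fin s) ℤ (𝓞 E))
  {n d : ℕ} (I : HomIdeal (𝓞 E) (n + 1)) (i : Fin (n + 1)) (P : HeightOneSpectrum (𝓞 E))

omit [NumberField E] in
private theorem d1_le {P : Ideal (𝓞 E)} {σ : Type} {𝔮 : Ideal (MvPolynomial σ (𝓞 E))}
    (hP : P.map C ≤ 𝔮) : ∀ a ∈ P, ((Ideal.Quotient.mk 𝔮).comp C) a = 0 := by
  intro a ha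
  rw [RingHom.comp_apply, Ideal.Quotient.eq_zero_iff_mem]
  exact hP (Ideal.mem_map_of_mem _ ha)

/-- the structure map from the residue field -/
private noncomputable def d1_res {P : Ideal (𝓞 E)} {σ : Type}
    {𝔮 : Ideal (MvPolynomial σ (𝓞 E))} (hP : P.map C ≤ 𝔮) :
    (𝓞 E ⧸ P) →+* (MvPolynomial σ (𝓞 E) ⧸ 𝔮) :=
  Ideal.Quotient.lift P ((Ideal.Quotient.mk 𝔮).comp C) (d1_le hP)

private theorem d1_moduleFinite {σ : Type} [Finite σ] {𝔮 : Ideal (MvPolynomial σ (𝓞 E))}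
    (hmax : 𝔮.IsMaximal) (hP : P.asIdeal.map C ≤ 𝔮) :
    let := (d1_res hP).toAlgebra
    Module.Finite (𝓞 E ⧸ P.asIdeal) (MvPolynomial σ (𝓞 E) ⧸ 𝔮) := by
  let := (d1_res hP).toAlgebra
  let := Ideal.Quotient.field 𝔮
  have hft : Algebra.FiniteType (𝓞 E ⧸ P.asIdeal) (MvPolynomial σ (𝓞 E) ⧸ 𝔮) := by
    let f : MvPolynomial σ (𝓞 E ⧸ P.asIdeal) →ₐ[𝓞 E ⧸ P.asIdeal] (MvPolynomial σ (𝓞 E) ⧸ 𝔮) :=
      aeval fun j => Ideal.Quotient.mk 𝔮 (X j)
    have hf : (f.toRingHom).comp (MvPolynomial.map (Ideal.Quotient.mk P.asIdeal)) =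
        Ideal.Quotient.mk 𝔮 := by
      apply MvPolynomial.ringHom_ext
      · intro a
        simp only [f, RingHom.comp_apply, map_C, AlgHom.toRingHom_eq_coe, RingHom.coe_coe]
        rw [aeval_C]
        rfl
      · intro j
        simp [f]
    refine Algebra.FiniteType.of_surjective f fun y => ?_
    obtain ⟨p, rfl⟩ := Ideal.Quotient.mk_surjective y
    exact ⟨MvPolynomial.map (Ideal.Quotient.mk P.asIdeal) p, by
      have := congrArg (fun g => g p) hf
      simpa using this⟩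
  exact finite_of_finite_type_of_isJacobsonRing (𝓞 E ⧸ P.asIdeal) (MvPolynomial σ (𝓞 E) ⧸ 𝔮)

/-- The quotient by a maximal ideal over `P` is a finite field extension of the
residue field; `𝔮 ^ 2 ⊔ J` has finite index (`𝔮` is finitely generated). -/
theorem exists_card_residue' {𝔮 : Ideal (MvPolynomial {l : Fin (n + 1) // l ≠ i} (𝓞 E))}
    (hmax : 𝔮.IsMaximal) (hP : P.asIdeal.map C ≤ 𝔮) :
    Finite (MvPolynomial {l : Fin (n + 1) // l ≠ i} (𝓞 E) ⧸ 𝔮) ∧
    (∀ J : Ideal (MvPolynomial {l : Fin (n + 1) // l ≠ i} (𝓞 E)),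
      Finite (MvPolynomial {l : Fin (n + 1) // l ≠ i} (𝓞 E) ⧸ 𝔮 ^ 2 ⊔ J)) ∧
    ∃ e, 1 ≤ e ∧ Nat.card (MvPolynomial {l : Fin (n + 1) // l ≠ i} (𝓞 E) ⧸ 𝔮) =
      Nat.card (𝓞 E ⧸ P.asIdeal) ^ e := by
  let := (d1_res hP).toAlgebra
  have hfin : Module.Finite (𝓞 E ⧸ P.asIdeal)
      (MvPolynomial {l : Fin (n + 1) // l ≠ i} (𝓞 E) ⧸ 𝔮) := d1_moduleFinite P hmax hP
  have h1 : Finite (MvPolynomial {l : Fin (n + 1) // l ≠ i} (𝓞 E) ⧸ 𝔮) :=
    Module.finite_of_finite (𝓞 E ⧸ P.asIdeal)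
  refine ⟨h1, fun J => ?_, ?_⟩
  · have h2 : Finite (MvPolynomial {l : Fin (n + 1) // l ≠ i} (𝓞 E) ⧸ 𝔮 ^ 2) :=
      Ideal.finite_quotient_pow (IsNoetherian.noetherian 𝔮) 2
    exact Finite.of_surjective
      (Ideal.Quotient.factor (S := 𝔮 ^ 2) (T := 𝔮 ^ 2 ⊔ J) le_sup_left)
      (Ideal.Quotient.factor_surjective le_sup_left)
  · let := Ideal.Quotient.field 𝔮
    exact ⟨Module.finrank (𝓞 E ⧸ P.asIdeal)
      (MvPolynomial {l : Fin (n + 1) // l ≠ i} (𝓞 E) ⧸ 𝔮), Module.finrank_pos,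
      Module.natCard_eq_pow_finrank⟩

/-- `dHom b i J` is surjective for every ideal `J` of finite index with
`#(A / J) ≤ q ^ ℓ`, `ℓ ≤ d + 1`, which contains a power of `P`: `deg_surj` and
`exists_form_dehom` of Maj/Surj.lean; the elements of `𝓞 E` are the integral combinations of the
basis. -/
theorem dHom_surjective {J : Ideal (MvPolynomial {l : Fin (n + 1) // l ≠ i} (𝓞 E))}
    (hJ : Finite (MvPolynomial {l : Fin (n + 1) // l ≠ i} (𝓞 E) ⧸ J)) {k ℓ : ℕ}
    (hk : ∀ x ∈ P.asIdeal ^ k, C x ∈ J)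
    (hℓ : Nat.card (MvPolynomial {l : Fin (n + 1) // l ≠ i} (𝓞 E) ⧸ J) ≤
      Nat.card (𝓞 E ⧸ P.asIdeal) ^ ℓ) (hd : ℓ ≤ d + 1) :
    Function.Surjective (dHom b (d := d) i J) := by
  intro z
  obtain ⟨f, hf, hfz⟩ := deg_surj P.asIdeal P.isMaximal (finiteRes P) (Ideal.Quotient.mk J)
    Ideal.Quotient.mk_surjective (fun x hx => Ideal.Quotient.eq_zero_iff_mem.2 (hk x hx)) hℓ hd z
  obtain ⟨a, ha⟩ := exists_form_dehom i f hf
  refine ⟨fun v => b.repr (a v.1) v.2, ?_⟩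
  have h2 : coeffs b (fun v : Mono n d × Fin s => b.repr (a v.1) v.2) = a := by
    funext μ
    exact b.sum_repr (a μ)
  change Ideal.Quotient.mk J (dF (coeffs b (fun v : Mono n d × Fin s => b.repr (a v.1) v.2)) i) = z
  rw [h2, ← hfz]
  congr 1

/-- `UD.hom` for `dHom b i (𝔮 ^ 2 ⊔ dId I i)` and the set `{0}`. -/
theorem UD_bad {m e : ℕ} {𝔮 : Ideal (MvPolynomial {l : Fin (n + 1) // l ≠ i} (𝓞 E))}
    (hmax : 𝔮.IsMaximal) (hP : P.asIdeal.map C ≤ 𝔮)
    (he : Nat.card (MvPolynomial {l : Fin (n + 1) // l ≠ i} (𝓞 E) ⧸ 𝔮) =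
      Nat.card (𝓞 E ⧸ P.asIdeal) ^ e)
    (hc : Nat.card (MvPolynomial {l : Fin (n + 1) // l ≠ i} (𝓞 E) ⧸ 𝔮 ^ 2 ⊔ dId I i) =
      Nat.card (MvPolynomial {l : Fin (n + 1) // l ≠ i} (𝓞 E) ⧸ 𝔮) ^ (m + 1))
    (hd : e * (m + 1) ≤ d + 1) :
    UD (fun u : Mono n d × Fin s → ℤ => BadAt I (coeffs b u) i 𝔮)
      (1 / (Nat.card (𝓞 E ⧸ P.asIdeal) : ℝ) ^ (e * (m + 1))) := by
  obtain ⟨-, hfin, -⟩ := exists_card_residue' i P hmax hP
  have hJ := hfin (dId I i)
  have hcard : Nat.card (MvPolynomial {l : Fin (n + 1) // l ≠ i} (𝓞 E) ⧸ 𝔮 ^ 2 ⊔ dId I i) =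
      Nat.card (𝓞 E ⧸ P.asIdeal) ^ (e * (m + 1)) := by
    rw [hc, he, pow_mul]
  have hk : ∀ x ∈ P.asIdeal ^ 2, C x ∈ 𝔮 ^ 2 ⊔ dId I i := by
    intro x hx
    have h1 : (C x : MvPolynomial {l : Fin (n + 1) // l ≠ i} (𝓞 E)) ∈
        (P.asIdeal ^ 2).map C := Ideal.mem_map_of_mem _ hx
    rw [Ideal.map_pow] at h1
    exact Ideal.mem_sup_left (Ideal.pow_right_mono hP 2 h1)
  have hsurj : Function.Surjective (dHom b (d := d) i (𝔮 ^ 2 ⊔ dId I i)) :=
    dHom_surjective b i P hJ hk hcard.le hd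
  have hq : 0 < (Nat.card (𝓞 E ⧸ P.asIdeal) : ℝ) ^ (e * (m + 1)) :=
    pow_pos (Nat.cast_pos.2 Nat.card_pos) _
  refine UD.hom (dHom b (d := d) i (𝔮 ^ 2 ⊔ dId I i)) hsurj {0} ?_ ?_
  · intro u hu
    rw [Set.mem_singleton_iff]
    exact Ideal.Quotient.eq_zero_iff_mem.2 hu
  · rw [hcard, Nat.cast_pow, one_div, inv_mul_cancel₀ hq.ne']
    simp

/-- Polynomials of degree at most `d` take at least `q ^ (min r d + 1)` values in a
residue field with more than `q ^ r` elements: `deg_image`, `exists_form_dehom`. -/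
theorem card_values {k : Type} [Field k] [Finite k]
    {𝔮 : Ideal (MvPolynomial {l : Fin (n + 1) // l ≠ i} k)} (hmax : 𝔮.IsMaximal) {r : ℕ}
    (hr : Nat.card k ^ r < Nat.card (MvPolynomial {l : Fin (n + 1) // l ≠ i} k ⧸ 𝔮)) :
    Nat.card k ^ (min r d + 1) ≤
      Nat.card (Set.range fun a : Mono n d → k => Ideal.Quotient.mk 𝔮 (dF a i)) := by
  have _ := hmax
  have hfinA : Finite (MvPolynomial {l : Fin (n + 1) // l ≠ i} k ⧸ 𝔮) :=
    (Nat.card_pos_iff.mp (lt_of_le_of_lt (Nat.zero_le _) hr)).2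
  have hq1 : 1 < Nat.card k := Finite.one_lt_card
  have hPm : (⊥ : Ideal k).IsMaximal := Ideal.bot_isMaximal
  have hcb : Nat.card (k ⧸ (⊥ : Ideal k)) = Nat.card k :=
    Nat.card_congr (RingEquiv.quotientBot k).toEquiv
  have hPfin : Finite (k ⧸ (⊥ : Ideal k)) := Finite.of_equiv k (RingEquiv.quotientBot k).symm.toEquiv
  have h1 : Nat.card (MvPolynomial {l : Fin (n + 1) // l ≠ i} k ⧸ 𝔮) =
      Nat.card k ^ Module.finrank k (MvPolynomial {l : Fin (n + 1) // l ≠ i} k ⧸ 𝔮) :=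
    Module.natCard_eq_pow_finrank
  have h2 : r < Module.finrank k (MvPolynomial {l : Fin (n + 1) // l ≠ i} k ⧸ 𝔮) := by
    rw [h1] at hr
    exact (Nat.pow_lt_pow_iff_right hq1).mp hr
  have h3 : Nat.card (k ⧸ (⊥ : Ideal k)) ^ (min r d + 1) ≤
      Nat.card (MvPolynomial {l : Fin (n + 1) // l ≠ i} k ⧸ 𝔮) := by
    rw [hcb, h1]
    exact Nat.pow_le_pow_right hq1.le (by omega)
  have h4 := deg_image (⊥ : Ideal k) hPm hPfin (k := 1) (Ideal.Quotient.mk 𝔮)
    Ideal.Quotient.mk_surjective (fun x hx => by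
      rw [pow_one, Ideal.mem_bot] at hx
      rw [hx, map_zero, map_zero]) h3 (d := d) (by omega)
  rw [hcb] at h4
  refine h4.trans ?_
  refine Nat.card_mono (Set.toFinite _) ?_
  rintro z ⟨f, hf, rfl⟩
  obtain ⟨a, ha⟩ := exists_form_dehom i f hf
  exact ⟨a, by
    show Ideal.Quotient.mk 𝔮 (dehom i (form a)) = _
    rw [ha]⟩

private theorem d5_fibre {α β : Type} [AddCommGroup α] [Finite α] [AddCommGroup β] (f : α →+ β)
    (c : β) : Nat.card {a : α // f a = c} * Nat.card (Set.range f) ≤ Nat.card α := by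
  classical
  rw [← Nat.card_prod]
  have hs : ∀ y : Set.range f, ∃ x : α, f x = y := fun y => y.2
  choose g hg using hs
  refine Nat.card_le_card_of_injective (fun x : {a : α // f a = c} × Set.range f =>
    (x.1 : α) + g x.2) ?_
  rintro ⟨⟨a, ha⟩, y⟩ ⟨⟨a', ha'⟩, y'⟩ h
  have h1 : a + g y = a' + g y' := h
  have h2 : (y : β) = y' := by
    have h3 := congrArg f h1
    rw [map_add, map_add, ha, ha', hg, hg] at h3
    exact add_left_cancel h3
  have h3 : y = y' := Subtype.ext h2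
  subst h3
  have h4 : a = a' := add_right_cancel h1
  subst h4
  rfl

/-- For one `𝔮` in `S` the forms with the value `c 𝔮` are a fibre of an additive map with at
least `q ^ (min r d + 1)` values (`card_values`); sum over the at most `M` elements of `S`. -/
theorem card_hit {k : Type} [Field k] [Finite k]
    (S : Set (Ideal (MvPolynomial {l : Fin (n + 1) // l ≠ i} k))) (hS : S.Finite)
    (hmax : ∀ 𝔮 ∈ S, 𝔮.IsMaximal) {M : ℕ} (hM : S.ncard ≤ M) {r : ℕ}
    (hr : ∀ 𝔮 ∈ S, Nat.card k ^ r < Nat.card (MvPolynomial {l : Fin (n + 1) // l ≠ i} k ⧸ 𝔮))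
    (c : ∀ 𝔮 : Ideal (MvPolynomial {l : Fin (n + 1) // l ≠ i} k),
      MvPolynomial {l : Fin (n + 1) // l ≠ i} k ⧸ 𝔮) :
    Nat.card {a : Mono n d → k // ∃ 𝔮 ∈ S, Ideal.Quotient.mk 𝔮 (dF a i) = c 𝔮} *
      Nat.card k ^ (min r d + 1) ≤ M * Nat.card (Mono n d → k) := by
  classical
  have h1 : Nat.card {a : Mono n d → k // ∃ 𝔮 ∈ S, Ideal.Quotient.mk 𝔮 (dF a i) = c 𝔮} ≤
      ∑ 𝔮 ∈ hS.toFinset, Nat.card {a : Mono n d → k // Ideal.Quotient.mk 𝔮 (dF a i) = c 𝔮} := by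
    refine i7_union _ _ _ fun a ha => ?_
    obtain ⟨𝔮, h𝔮, h⟩ := ha
    exact ⟨𝔮, hS.mem_toFinset.mpr h𝔮, h⟩
  refine (Nat.mul_le_mul_right _ h1).trans ?_
  rw [Finset.sum_mul]
  have h2 : ∀ 𝔮 ∈ hS.toFinset,
      Nat.card {a : Mono n d → k // Ideal.Quotient.mk 𝔮 (dF a i) = c 𝔮} *
        Nat.card k ^ (min r d + 1) ≤ Nat.card (Mono n d → k) := by
    intro 𝔮 h𝔮
    have h𝔮' := hS.mem_toFinset.mp h𝔮
    let f : (Mono n d → k) →+ MvPolynomial {l : Fin (n + 1) // l ≠ i} k ⧸ 𝔮 :=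
      { toFun := fun a => Ideal.Quotient.mk 𝔮 (dF a i)
        map_zero' := by
          show Ideal.Quotient.mk 𝔮 (dehom i (form (0 : Mono n d → k))) = 0
          have h0 : form (0 : Mono n d → k) = 0 := by simp [form]
          rw [h0, map_zero, map_zero]
        map_add' := fun a a' => by
          show Ideal.Quotient.mk 𝔮 (dehom i (form (a + a'))) = _
          rw [SmoothAlg.form_add, map_add, map_add]
          rfl }
    refine le_trans (Nat.mul_le_mul_left _ ?_) (d5_fibre f (c 𝔮))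
    exact card_values i (hmax 𝔮 h𝔮') (hr 𝔮 h𝔮')
  refine (Finset.sum_le_card_nsmul _ _ _ h2).trans ?_
  rw [smul_eq_mul, ← Set.ncard_eq_toFinset_card S hS]
  exact Nat.mul_le_mul_right _ hM

theorem d6_irreducible {ϖ : 𝓞 E} (h1 : ϖ ∈ P.asIdeal) (h2 : ϖ ∉ P.asIdeal ^ 2) :
    Irreducible (algebraMap (𝓞 E) (locRing E P) ϖ) := by
  have hm : IsLocalRing.maximalIdeal (locRing E P) =
      P.asIdeal.map (algebraMap (𝓞 E) (locRing E P)) :=
    (IsLocalization.AtPrime.map_eq_maximalIdeal P.asIdeal (locRing E P)).symm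
  have hmem : algebraMap (𝓞 E) (locRing E P) ϖ ∈ IsLocalRing.maximalIdeal (locRing E P) := by
    rw [hm]
    exact Ideal.mem_map_of_mem _ h1
  have hinj : Function.Injective (algebraMap (𝓞 E) (locRing E P)) :=
    IsLocalization.injective _ P.asIdeal.primeCompl_le_nonZeroDivisors
  have hnot : algebraMap (𝓞 E) (locRing E P) ϖ ∉
      IsLocalRing.maximalIdeal (locRing E P) ^ 2 := by
    intro h
    rw [hm, ← Ideal.map_pow,
      IsLocalization.mem_map_algebraMap_iff P.asIdeal.primeCompl] at h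
    obtain ⟨⟨a, s⟩, has⟩ := h
    rw [← map_mul] at has
    have h3 : ϖ * (s : 𝓞 E) = a := hinj has
    have hs : (s : 𝓞 E) ∉ P.asIdeal := s.2
    obtain ⟨t, ht⟩ := Ideal.IsMaximal.exists_inv P.isMaximal hs
    obtain ⟨u, hu, htu⟩ := ht
    apply h2
    have h4 : ϖ = t * (ϖ * (s : 𝓞 E)) + u * ϖ := by
      calc ϖ = (t * s + u) * ϖ := by rw [htu, one_mul]
        _ = _ := by ring
    rw [h4, h3]
    refine Ideal.add_mem _ (Ideal.mul_mem_left _ _ a.2) ?_
    rw [pow_two]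
    exact Ideal.mul_mem_mul hu h1
  refine ⟨fun hu => (IsLocalRing.mem_maximalIdeal _).1 hmem hu, ?_⟩
  intro a b hab
  by_contra hcon
  push Not at hcon
  apply hnot
  rw [hab, pow_two]
  exact Ideal.mul_mem_mul ((IsLocalRing.mem_maximalIdeal _).2 hcon.1)
    ((IsLocalRing.mem_maximalIdeal _).2 hcon.2)

/-- The uniformizer is not in the square of a maximal ideal over `P` (Maj/Params.lean, over
the localization of `𝓞 E` at `P`). -/
theorem not_mem_sq {σ : Type} [Fintype σ] [DecidableEq σ] {𝔮 : Ideal (MvPolynomial σ (𝓞 E))}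
    (hmax : 𝔮.IsMaximal) (hP : P.asIdeal.map C ≤ 𝔮) {ϖ : 𝓞 E} (h1 : ϖ ∈ P.asIdeal)
    (h2 : ϖ ∉ P.asIdeal ^ 2) : (C ϖ : MvPolynomial σ (𝓞 E)) ∉ 𝔮 ^ 2 := by
  intro h
  let _ : Algebra (MvPolynomial σ (𝓞 E)) (MvPolynomial σ (locRing E P)) :=
    MvPolynomial.algebraMvPolynomial
  have hloc : IsLocalization (P.asIdeal.primeCompl.map (C (σ := σ)))
      (MvPolynomial σ (locRing E P)) := MvPolynomial.isLocalization _ _
  have hpr : 𝔮.IsPrime := hmax.isPrime
  have hdisj : Disjoint ((P.asIdeal.primeCompl.map (C (σ := σ)) :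
      Submonoid (MvPolynomial σ (𝓞 E))) : Set (MvPolynomial σ (𝓞 E))) (𝔮 : Set _) := by
    rw [Set.disjoint_left]
    rintro _ ⟨x, hx, rfl⟩ hxq
    have hx' : x ∉ P.asIdeal := hx
    obtain ⟨t, ht⟩ := Ideal.IsMaximal.exists_inv P.isMaximal hx'
    obtain ⟨u, hu, htu⟩ := ht
    apply hpr.ne_top
    rw [Ideal.eq_top_iff_one]
    have h3 : (1 : MvPolynomial σ (𝓞 E)) = C t * C x + C u := by
      rw [← C_mul, ← C_add, htu, C_1]
    rw [h3]
    exact Ideal.add_mem _ (Ideal.mul_mem_left _ _ hxq) (hP (Ideal.mem_map_of_mem _ hu))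
  have hY : (𝔮.map (algebraMap (MvPolynomial σ (𝓞 E)) (MvPolynomial σ (locRing E P)))).IsPrime :=
    IsLocalization.isPrime_of_isPrime_disjoint _ _ 𝔮 hpr hdisj
  have hC : algebraMap (MvPolynomial σ (𝓞 E)) (MvPolynomial σ (locRing E P)) (C ϖ) =
      C (algebraMap (𝓞 E) (locRing E P) ϖ) := by
    rw [MvPolynomial.algebraMap_def, map_C]
  have hπY : (C (algebraMap (𝓞 E) (locRing E P) ϖ) : MvPolynomial σ (locRing E P)) ∈
      𝔮.map (algebraMap (MvPolynomial σ (𝓞 E)) (MvPolynomial σ (locRing E P))) := by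
    rw [← hC]
    exact Ideal.mem_map_of_mem _ (hP (Ideal.mem_map_of_mem _ h1))
  have key := mul_C_notMem_sq (d6_irreducible P h1 h2) _ hπY
    (s := (1 : MvPolynomial σ (locRing E P)))
    (fun h => hY.ne_top ((Ideal.eq_top_iff_one _).2 h))
  apply key
  rw [one_mul, ← hC, ← Ideal.map_pow]
  exact Ideal.mem_map_of_mem _ h

/-- The forms modulo `P ^ 2` whose reduction has many critical points. -/
theorem UD_crit (hd : 1 ≤ d) (V : Std (𝓞 E ⧸ P.asIdeal) {l : Fin (n + 1) // l ≠ i}) {D : ℕ}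
    (hD : V.deg + d ≤ D) :
    UD (fun u : Mono n d × Fin s → ℤ =>
      ¬ ((V.critIdeals (redP _ P (dF (coeffs b u) i))).Finite ∧
        (V.critIdeals (redP _ P (dF (coeffs b u) i))).ncard ≤ bnd n D))
      (n ^ n * bnd n D / (Nat.card (𝓞 E ⧸ P.asIdeal) : ℝ) ^ ((d + 1) / 2)) := by
  classical
  let ψ : (Mono n d × Fin s → ℤ) →+ (Mono n d → 𝓞 E ⧸ P.asIdeal) :=
    { toFun := fun u μ => Ideal.Quotient.mk P.asIdeal (coeffs b u μ)
      map_zero' := by
        funext μ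
        simp [DNF.coeffs]
      map_add' := by
        intro u v
        funext μ
        simp [DNF.coeffs, add_smul, Finset.sum_add_distrib] }
  have hψ : Function.Surjective ψ := by
    intro a
    choose x hx using fun μ => Ideal.Quotient.mk_surjective (a μ)
    refine ⟨fun p => b.repr (x p.1) p.2, ?_⟩
    funext μ
    rw [← hx μ]
    change Ideal.Quotient.mk P.asIdeal (∑ j, (b.repr (x μ)) j • b j) = _
    rw [b.sum_repr]
  have hred : ∀ u : Mono n d × Fin s → ℤ, redP _ P (dF (coeffs b u) i) = dF (ψ u) i := by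
    intro u
    unfold dF
    change MvPolynomial.map (Ideal.Quotient.mk P.asIdeal) (dehom i (form (coeffs b u))) = _
    rw [i8_dehom_map, SmoothAlg.form_map]
    rfl
  have hq : (0 : ℝ) < Nat.card (𝓞 E ⧸ P.asIdeal) := by exact_mod_cast Nat.card_pos
  have key := card_crit (k := 𝓞 E ⧸ P.asIdeal) (n := n) (d := d) hd i V hD
  refine UD.hom ψ hψ {a | ¬ ((V.critIdeals (dF a i)).Finite ∧
        (V.critIdeals (dF a i)).ncard ≤ bnd n D)} ?_ ?_
  · intro u hu
    rw [hred] at hu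
    exact hu
  · rw [div_mul_eq_mul_div, le_div_iff₀ (pow_pos hq _)]
    exact_mod_cast key

private theorem d8_count {α β : Type} [AddCommGroup α] [Finite α] [Finite β] [Nonempty β]
    (f : β → α) (B : Set α) (N Q : ℕ) (hQ : 0 < Q)
    (h : ∀ b : α, Nat.card {c : β // b - f c ∈ B} * Q ≤ N * Nat.card β) :
    Nat.card B * Q ≤ N * Nat.card α := by
  have h1 := i6_count f B (N * Nat.card β / Q) fun b => (Nat.le_div_iff_mul_le hQ).mpr (h b)
  have h2 : 0 < Nat.card β := Nat.card_pos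
  refine Nat.le_of_mul_le_mul_right ?_ h2
  calc Nat.card B * Q * Nat.card β = Nat.card B * Nat.card β * Q := by ring
    _ ≤ N * Nat.card β / Q * Nat.card α * Q := Nat.mul_le_mul_right _ h1
    _ = N * Nat.card β / Q * Q * Nat.card α := by ring
    _ ≤ N * Nat.card β * Nat.card α := Nat.mul_le_mul_right _ (Nat.div_mul_le_self _ _)
    _ = N * Nat.card α * Nat.card β := by ring

private theorem d8_dF_mem {R : Type} [CommRing R] {n d : ℕ} (i : Fin (n + 1)) (a : Mono n d → R)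
    (K : Ideal (MvPolynomial {l : Fin (n + 1) // l ≠ i} R)) (h : ∀ μ, C (a μ) ∈ K) :
    dF a i ∈ K := by
  unfold dF form
  rw [map_sum]
  refine Ideal.sum_mem _ fun μ _ => ?_
  rw [map_mul, dehom_C]
  exact Ideal.mul_mem_right _ _ (h μ)

private theorem d8_key {O : Type} [CommRing O] {n d : ℕ} (I : HomIdeal O (n + 1))
    (i : Fin (n + 1)) (Q : Ideal O) (U : Std O {l : Fin (n + 1) // l ≠ i}) (hU : U.For (dId I i))
    {ϖ : O} (h1 : ϖ ∈ Q)
    {𝔮 : Ideal (MvPolynomial {l : Fin (n + 1) // l ≠ i} O)} (hmax : 𝔮.IsMaximal)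
    (hI : dId I i ≤ 𝔮) (hP : Q.map C ≤ 𝔮) (h2 : (C ϖ : MvPolynomial _ O) ∉ 𝔮 ^ 2)
    (hh : U.h ∉ 𝔮) (a a' t : Mono n d → O)
    (ht : ∀ μ, a μ - a' μ - ϖ * t μ ∈ Q ^ 2) (hb : BadAt I a i 𝔮)
    (hb' : BadAt I a' i 𝔮) : dF t i ∈ 𝔮 := by
  have hC1 : (C ϖ : MvPolynomial {l : Fin (n + 1) // l ≠ i} O) ∈ 𝔮 :=
    hP (Ideal.mem_map_of_mem _ h1)
  have hw : dF (a - a' - ϖ • t) i ∈ 𝔮 ^ 2 := by
    refine d8_dF_mem i _ _ fun μ => ?_
    have h3 := Ideal.mem_map_of_mem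
      (C : O →+* MvPolynomial {l : Fin (n + 1) // l ≠ i} O) (ht μ)
    rw [Ideal.map_pow] at h3
    exact Ideal.pow_right_mono hP 2 h3
  have heq : C ϖ * dF t i = dF a i - dF a' i - dF (a - a' - ϖ • t) i := by
    unfold dF
    rw [i6_form_sub, i6_form_sub, SmoothAlg.form_smul, map_sub, map_sub, map_mul, dehom_C]
    ring
  have h3 : C ϖ * dF t i ∈ 𝔮 ^ 2 ⊔ dId I i := by
    rw [heq]
    exact Ideal.sub_mem _ (Ideal.sub_mem _ hb hb') (Ideal.mem_sup_left hw)
  by_contra hcon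
  obtain ⟨u, v, hv, huv⟩ := hmax.exists_inv hcon
  have h4 : (C ϖ : MvPolynomial {l : Fin (n + 1) // l ≠ i} O) ∈ 𝔮 ^ 2 ⊔ dId I i := by
    have h5 : (C ϖ : MvPolynomial {l : Fin (n + 1) // l ≠ i} O) =
        u * (C ϖ * dF t i) + v * C ϖ := by
      linear_combination (-(C ϖ : MvPolynomial {l : Fin (n + 1) // l ≠ i} O)) * huv
    rw [h5]
    refine Ideal.add_mem _ (Ideal.mul_mem_left _ _ h3) (Ideal.mem_sup_left ?_)
    rw [sq]
    exact Ideal.mul_mem_mul hv hC1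
  exact h2 (Std.mem_sq_of_mem U hU hmax hI hh hC1 h4)

private theorem d8_red {O k : Type} [CommRing O] [CommRing k] (φ : O →+* k) {n d : ℕ}
    (i : Fin (n + 1)) (a : Mono n d → O) :
    MvPolynomial.map φ (dF a i) = dF (fun μ => φ (a μ)) i := by
  unfold dF
  rw [i8_dehom_map, SmoothAlg.form_map]

private theorem d8_card {A B : Type} [CommRing A] [CommRing B] (f : A →+* B)
    (hf : Function.Surjective f) (𝔮 : Ideal A) (h : (𝔮.map f).comap f = 𝔮) :
    Nat.card (B ⧸ 𝔮.map f) = Nat.card (A ⧸ 𝔮) := by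
  have hg : Function.Surjective ((Ideal.Quotient.mk (𝔮.map f)).comp f) := by
    intro x
    obtain ⟨y, rfl⟩ := Ideal.Quotient.mk_surjective x
    obtain ⟨z, rfl⟩ := hf y
    exact ⟨z, rfl⟩
  have h3 : RingHom.ker ((Ideal.Quotient.mk (𝔮.map f)).comp f) = 𝔮 := by
    rw [← RingHom.comap_ker, Ideal.mk_ker, h]
  have h4 := Nat.card_congr (RingHom.quotientKerEquivOfSurjective hg).toEquiv
  rw [h3] at h4
  exact h4.symm

/-- the reduction of a bad point is critical -/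
private theorem d8_crit {O k : Type} [CommRing O] [Field k] (φ : O →+* k)
    (hφ : Function.Surjective φ) {n d : ℕ} (I : HomIdeal O (n + 1)) (i : Fin (n + 1))
    (U : Std O {l : Fin (n + 1) // l ≠ i}) (hU : U.For (dId I i)) (a : Mono n d → O)
    {𝔮 : Ideal (MvPolynomial {l : Fin (n + 1) // l ≠ i} O)} (hm : 𝔮.IsMaximal)
    (hI : dId I i ≤ 𝔮) (hPq : (RingHom.ker φ).map C ≤ 𝔮) (hh : U.h ∉ 𝔮) (hbad : BadAt I a i 𝔮) :
    𝔮.map (MvPolynomial.map φ) ∈ (U.map φ).critIdeals (MvPolynomial.map φ (dF a i)) ∧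
    (𝔮.map (MvPolynomial.map φ)).comap (MvPolynomial.map φ) = 𝔮 ∧
    Nat.card (MvPolynomial {l : Fin (n + 1) // l ≠ i} k ⧸ 𝔮.map (MvPolynomial.map φ)) =
      Nat.card (MvPolynomial {l : Fin (n + 1) // l ≠ i} O ⧸ 𝔮) := by
  have hsurj : Function.Surjective (MvPolynomial.map φ :
      MvPolynomial {l : Fin (n + 1) // l ≠ i} O →+* _) := MvPolynomial.map_surjective _ hφ
  have hcm : (𝔮.map (MvPolynomial.map φ)).comap (MvPolynomial.map φ) = 𝔮 := by
    rw [Ideal.comap_map_of_surjective _ hsurj, ← RingHom.ker_eq_comap_bot, MvPolynomial.ker_map]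
    exact sup_eq_left.mpr hPq
  have hpm : (𝔮.map (MvPolynomial.map φ)).IsMaximal := by
    rcases Ideal.map_eq_top_or_isMaximal_of_surjective _ hsurj hm with h | h
    · exfalso
      rw [h, Ideal.comap_top] at hcm
      exact hm.ne_top hcm.symm
    · exact h
  refine ⟨⟨hpm, fun κ => ?_, ?_, fun e he => ?_⟩, hcm, ?_⟩
  · exact Ideal.mem_map_of_mem _ (hI (hU.mem κ))
  · rw [Std.map_h]
    intro hcon
    apply hh
    rw [← hcm]
    exact hcon
  · rw [Std.map_vf]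
    exact Ideal.mem_map_of_mem _ (Std.vf_mem U hU hm.isPrime hI hh e hbad)
  · exact d8_card _ hsurj 𝔮 hcm

private theorem d8_main {O k : Type} [CommRing O] [Field k] [Finite k] (φ : O →+* k)
    (hφ : Function.Surjective φ) {Q : Ideal O} (hQ : RingHom.ker φ = Q) [Finite (O ⧸ Q ^ 2)]
    {n d : ℕ} (I : HomIdeal O (n + 1)) (i : Fin (n + 1))
    (U : Std O {l : Fin (n + 1) // l ≠ i}) (hU : U.For (dId I i)) {ϖ : O} (h1 : ϖ ∈ Q)
    (h2 : ∀ 𝔮 : Ideal (MvPolynomial {l : Fin (n + 1) // l ≠ i} O), 𝔮.IsMaximal →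
      Q.map C ≤ 𝔮 → C ϖ ∉ 𝔮 ^ 2) {r : ℕ} (hr : r ≤ d) (N : ℕ) :
    Nat.card {x : Mono n d → O ⧸ Q ^ 2 | ∃ a : Mono n d → O,
      (∀ μ, Ideal.Quotient.mk (Q ^ 2) (a μ) = x μ) ∧
      ((U.map φ).critIdeals (MvPolynomial.map φ (dF a i))).Finite ∧
      ((U.map φ).critIdeals (MvPolynomial.map φ (dF a i))).ncard ≤ N ∧
      ∃ 𝔮 : Ideal (MvPolynomial {l : Fin (n + 1) // l ≠ i} O), 𝔮.IsMaximal ∧
        dId I i ≤ 𝔮 ∧ Q.map C ≤ 𝔮 ∧ U.h ∉ 𝔮 ∧
        Nat.card k ^ r < Nat.card (MvPolynomial {l : Fin (n + 1) // l ≠ i} O ⧸ 𝔮) ∧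
        BadAt I a i 𝔮} * Nat.card k ^ (r + 1) ≤ N * Nat.card (Mono n d → O ⧸ Q ^ 2) := by
  classical
  choose lift hlift using hφ
  refine d8_count (β := Mono n d → k)
    (fun c μ => Ideal.Quotient.mk (Q ^ 2) (ϖ * lift (c μ))) _ _ _
    (Nat.pow_pos Nat.card_pos) fun (y : Mono n d → O ⧸ Q ^ 2) => ?_
  choose bt hbt using fun μ => Ideal.Quotient.mk_surjective (y μ)
  -- all the lifts have the same reduction
  have hred : ∀ (c : Mono n d → k) (a : Mono n d → O),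
      (∀ μ, Ideal.Quotient.mk (Q ^ 2) (a μ) =
        y μ - Ideal.Quotient.mk (Q ^ 2) (ϖ * lift (c μ))) →
      (∀ μ, a μ - bt μ + ϖ * lift (c μ) ∈ Q ^ 2) := by
    intro c a ha μ
    have h3 := ha μ
    rw [← hbt, ← map_sub] at h3
    have h4 := Ideal.Quotient.eq.mp h3
    have h5 : a μ - bt μ + ϖ * lift (c μ) = a μ - (bt μ - ϖ * lift (c μ)) := by ring
    rw [h5]
    exact h4
  have hred2 : ∀ (c : Mono n d → k) (a : Mono n d → O),
      (∀ μ, Ideal.Quotient.mk (Q ^ 2) (a μ) =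
        y μ - Ideal.Quotient.mk (Q ^ 2) (ϖ * lift (c μ))) →
      MvPolynomial.map φ (dF a i) = MvPolynomial.map φ (dF bt i) := by
    intro c a ha
    rw [d8_red, d8_red]
    congr 1
    funext μ
    have h3 := Ideal.pow_le_self two_ne_zero (hred c a ha μ)
    have h4 : ϖ * lift (c μ) ∈ Q := Ideal.mul_mem_right _ _ h1
    have h5 := Ideal.sub_mem _ h3 h4
    rw [add_sub_cancel_right, ← hQ, RingHom.mem_ker, map_sub, sub_eq_zero] at h5
    exact h5
  set F : MvPolynomial {l : Fin (n + 1) // l ≠ i} k := MvPolynomial.map φ (dF bt i) with hF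
  by_cases hcr : ((U.map φ).critIdeals F).Finite ∧ ((U.map φ).critIdeals F).ncard ≤ N
  swap
  · rw [Nat.card_eq_zero.mpr (Or.inl ⟨fun c => hcr ?_⟩), zero_mul]
    · exact Nat.zero_le _
    · obtain ⟨a, ha, h3, h4, -⟩ := c.2
      have h5 := hred2 c.1 a ha
      rw [h5] at h3 h4
      exact ⟨h3, h4⟩
  obtain ⟨hcf, hcn⟩ := hcr
  let S : Set (Ideal (MvPolynomial {l : Fin (n + 1) // l ≠ i} k)) :=
    {𝔭 | 𝔭 ∈ (U.map φ).critIdeals F ∧
      Nat.card k ^ r < Nat.card (MvPolynomial {l : Fin (n + 1) // l ≠ i} k ⧸ 𝔭)}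
  have hSs : S ⊆ (U.map φ).critIdeals F := fun 𝔭 h => h.1
  let Gd : (Mono n d → k) → Ideal (MvPolynomial {l : Fin (n + 1) // l ≠ i} k) → Prop :=
    fun c 𝔭 => ∃ a : Mono n d → O, (∀ μ, Ideal.Quotient.mk (Q ^ 2) (a μ) =
        y μ - Ideal.Quotient.mk (Q ^ 2) (ϖ * lift (c μ))) ∧
      BadAt I a i (𝔭.comap (MvPolynomial.map φ))
  have hsurj : Function.Surjective (MvPolynomial.map φ :
      MvPolynomial {l : Fin (n + 1) // l ≠ i} O →+* _) :=
    MvPolynomial.map_surjective _ fun x => ⟨lift x, hlift x⟩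
  have hgd : ∀ 𝔭 ∈ S, ∀ c c', Gd c 𝔭 → Gd c' 𝔭 →
      Ideal.Quotient.mk 𝔭 (dF c i) = Ideal.Quotient.mk 𝔭 (dF c' i) := by
    rintro 𝔭 h𝔭 c c' ⟨a, ha, hb⟩ ⟨a', ha', hb'⟩
    obtain ⟨⟨hpm, hpg, hph, -⟩, -⟩ := h𝔭
    have hqm : (𝔭.comap (MvPolynomial.map φ)).IsMaximal :=
      Ideal.comap_isMaximal_of_surjective _ hsurj
    have hqP : Q.map C ≤ 𝔭.comap (MvPolynomial.map φ) := by
      rw [← hQ, ← MvPolynomial.ker_map]
      exact Ideal.ker_le_comap _
    have hqh : U.h ∉ 𝔭.comap (MvPolynomial.map φ) := by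
      rw [Ideal.mem_comap]
      rw [Std.map_h] at hph
      exact hph
    have hqI : dId I i ≤ 𝔭.comap (MvPolynomial.map φ) :=
      Std.le_of_g_mem U hU hqm.isPrime hqh fun κ => hpg κ
    have h3 := d8_key I i Q U hU h1 hqm hqI hqP (h2 _ hqm hqP) hqh a a'
      (fun μ => lift (c' μ) - lift (c μ)) (fun μ => by
        have e1 := hred c a ha μ
        have e2 := hred c' a' ha' μ
        have e3 := Ideal.sub_mem _ e1 e2
        have e4 : a μ - a' μ - ϖ * (lift (c' μ) - lift (c μ)) =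
          a μ - bt μ + ϖ * lift (c μ) - (a' μ - bt μ + ϖ * lift (c' μ)) := by ring
        rw [e4]
        exact e3) hb hb'
    rw [Ideal.mem_comap, d8_red] at h3
    have h4 : (fun μ => φ (lift (c' μ) - lift (c μ))) = c' - c := by
      funext μ
      rw [map_sub, hlift, hlift]
      rfl
    rw [h4] at h3
    have h5 : dF (c' - c) i = dF c' i - dF c i := by
      unfold dF
      rw [i6_form_sub, map_sub]
    rw [h5] at h3
    exact (Ideal.Quotient.eq.mpr h3).symm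
  have hhit := card_hit (d := d) i S (hcf.subset hSs) (fun 𝔭 h => h.1.1)
    ((Set.ncard_le_ncard hSs hcf).trans hcn) (fun 𝔭 h => h.2)
    (fun 𝔭 => if h : ∃ c, Gd c 𝔭 then Ideal.Quotient.mk 𝔭 (dF h.choose i) else 0)
  rw [min_eq_left hr] at hhit
  refine le_trans (Nat.mul_le_mul_right _ ?_) hhit
  refine Nat.card_le_card_of_injective (fun c => ⟨c.1, ?_⟩) ?_
  · obtain ⟨a, ha, h3, h4, 𝔮, hm, hI, hPq, hh, hcard, hbad⟩ := c.2
    have hF' := hred2 c.1 a ha
    obtain ⟨h5, h6, h7⟩ := d8_crit φ (fun x => ⟨lift x, hlift x⟩) I i U hU a hm hI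
      (hQ ▸ hPq) hh hbad
    rw [hF'] at h5
    have h8 : 𝔮.map (MvPolynomial.map φ) ∈ S := ⟨h5, by rw [h7]; exact hcard⟩
    refine ⟨𝔮.map (MvPolynomial.map φ), h8, ?_⟩
    have h9 : Gd c.1 (𝔮.map (MvPolynomial.map φ)) := by
      refine ⟨a, ha, ?_⟩
      rw [h6]
      exact hbad
    have h10 : ∃ c, Gd c (𝔮.map (MvPolynomial.map φ)) := ⟨c.1, h9⟩
    rw [dif_pos h10]
    exact hgd _ h8 _ _ h9 h10.choose_spec
  · intro c c' h
    exact Subtype.ext (congrArg (fun x => x.1) h)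

/-- **The next digit.** Let `ϖ ∈ P`, `ϖ ∉ P ^ 2`. By `redk_hom` and `UD.hom` one counts
in `α = Mono n d → 𝓞 E ⧸ P ^ 2`; use `i6_count` with `β = Mono n d → 𝓞 E ⧸ P` and
`c ↦ ϖ * c`. Given `b` (a class modulo `P ^ 2`), all `b - ϖ c` have the same reduction modulo `P`,
so the same critical ideals; if there are at most `bnd n D` of them, `card_hit` bounds the number of
the `c` such that `b - ϖ c` is bad at one of them: two such `c` for the same `𝔮` differ by an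
element with `C ϖ * dF (c - c') ∈ 𝔮 ^ 2 ⊔ dId I i`, and `C ϖ ∉ 𝔮 ^ 2 ⊔ dId I i` by `mem_sq_of_mem`
and `not_mem_sq`, so `dF (c - c') ∈ 𝔮`. Bad points are critical by `vf_mem`. -/
theorem UD_high_good (U : Std (𝓞 E) {l : Fin (n + 1) // l ≠ i}) (hU : U.For (dId I i)) {r : ℕ}
    (hr : r ≤ d) {D : ℕ} (hD : U.deg + d ≤ D) :
    UD (fun u : Mono n d × Fin s → ℤ =>
      ((U.map (Ideal.Quotient.mk P.asIdeal)).critIdeals
          (redP _ P (dF (coeffs b u) i))).Finite ∧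
        ((U.map (Ideal.Quotient.mk P.asIdeal)).critIdeals
          (redP _ P (dF (coeffs b u) i))).ncard ≤ bnd n D ∧
        ∃ 𝔮 : Ideal (MvPolynomial {l : Fin (n + 1) // l ≠ i} (𝓞 E)), 𝔮.IsMaximal ∧
          dId I i ≤ 𝔮 ∧ P.asIdeal.map C ≤ 𝔮 ∧ U.h ∉ 𝔮 ∧
          Nat.card (𝓞 E ⧸ P.asIdeal) ^ r <
            Nat.card (MvPolynomial {l : Fin (n + 1) // l ≠ i} (𝓞 E) ⧸ 𝔮) ∧
          BadAt I (coeffs b u) i 𝔮)
      (bnd n D / (Nat.card (𝓞 E ⧸ P.asIdeal) : ℝ) ^ (r + 1)) := by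
  have _ := hD
  obtain ⟨ϖ, hϖ1, hϖ2⟩ := Ideal.exists_mem_pow_notMem_pow_succ P.asIdeal P.ne_bot
    P.isMaximal.ne_top 1
  rw [pow_one] at hϖ1
  obtain ⟨hfin2, ψ, hψs, hψ⟩ := redk_hom (ι := Mono n d) b (k := 2) one_le_two P
  have hq0' : (0 : ℝ) < Nat.card (𝓞 E ⧸ P.asIdeal) := by exact_mod_cast Nat.card_pos
  have key := d8_main (k := 𝓞 E ⧸ P.asIdeal) (Ideal.Quotient.mk P.asIdeal)
    Ideal.Quotient.mk_surjective (Q := P.asIdeal) Ideal.mk_ker I i U hU hϖ1
    (fun 𝔮 hm hP => not_mem_sq P hm hP hϖ1 hϖ2) hr (bnd n D)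
  refine UD.hom ψ hψs {x : Mono n d → 𝓞 E ⧸ P.asIdeal ^ 2 | ∃ a : Mono n d → 𝓞 E,
      (∀ μ, Ideal.Quotient.mk (P.asIdeal ^ 2) (a μ) = x μ) ∧
      ((U.map (Ideal.Quotient.mk P.asIdeal)).critIdeals (redP _ P (dF a i))).Finite ∧
      ((U.map (Ideal.Quotient.mk P.asIdeal)).critIdeals (redP _ P (dF a i))).ncard ≤ bnd n D ∧
      ∃ 𝔮 : Ideal (MvPolynomial {l : Fin (n + 1) // l ≠ i} (𝓞 E)), 𝔮.IsMaximal ∧
        dId I i ≤ 𝔮 ∧ P.asIdeal.map C ≤ 𝔮 ∧ U.h ∉ 𝔮 ∧
        Nat.card (𝓞 E ⧸ P.asIdeal) ^ r <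
          Nat.card (MvPolynomial {l : Fin (n + 1) // l ≠ i} (𝓞 E) ⧸ 𝔮) ∧
        BadAt I a i 𝔮} ?_ ?_
  · rintro u ⟨h1, h2, h3⟩
    refine ⟨coeffs b u, fun μ => ?_, h1, h2, h3⟩
    rw [hψ]
    rfl
  · rw [div_mul_eq_mul_div, le_div_iff₀ (pow_pos hq0' _)]
    exact_mod_cast key

private theorem d9_count {α β : Type} [AddCommGroup α] [Finite α] [Finite β] [Nonempty β]
    (f : β → α) (B : Set α) (N Q : ℕ) (hQ : 0 < Q)
    (h : ∀ b : α, Nat.card {c : β // b - f c ∈ B} * Q ≤ N * Nat.card β) :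
    Nat.card B * Q ≤ N * Nat.card α := by
  have h1 := i6_count f B (N * Nat.card β / Q) fun b => (Nat.le_div_iff_mul_le hQ).mpr (h b)
  have h2 : 0 < Nat.card β := Nat.card_pos
  refine Nat.le_of_mul_le_mul_right ?_ h2
  calc Nat.card B * Q * Nat.card β = Nat.card B * Nat.card β * Q := by ring
    _ ≤ N * Nat.card β / Q * Nat.card α * Q := Nat.mul_le_mul_right _ h1
    _ = N * Nat.card β / Q * Q * Nat.card α := by ring
    _ ≤ N * Nat.card β * Nat.card α := Nat.mul_le_mul_right _ (Nat.div_mul_le_self _ _)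
    _ = N * Nat.card α * Nat.card β := by ring

private theorem d9_der {k σ : Type} [Field k] (p : ℕ) [CharP k p]
    (D : Derivation k (MvPolynomial σ k) (MvPolynomial σ k)) (g : MvPolynomial σ k) :
    D (g ^ p) = 0 := by
  rw [Derivation.leibniz_pow, nsmul_eq_mul]
  have h : ((p : ℕ) : MvPolynomial σ k) = 0 := by
    rw [← map_natCast (C : k →+* MvPolynomial σ k), CharP.cast_eq_zero k p, map_zero]
  rw [h, zero_mul]

private theorem d9_pow {k A : Type} [Field k] [CommRing A] [IsDomain A] (f : k →+* A) (p : ℕ)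
    [CharP k p] (hp : p.Prime) {x y : A} (h : x ^ p = y ^ p) : x = y := by
  have : Fact p.Prime := ⟨hp⟩
  have h1 : CharP A p := charP_of_injective_ringHom f.injective p
  have h2 : (x - y) ^ p = 0 := by rw [sub_pow_char, h, sub_self]
  exact sub_eq_zero.mp (pow_eq_zero_iff hp.ne_zero |>.mp h2)

private theorem d9_exists {k : Type} [Field k] {n d : ℕ} (p : ℕ) (i : Fin (n + 1))
    (c : Mono n (d / p) → k) : ∃ v : Mono n d → k, dF v i = (dF c i) ^ p := by
  have hle : p * (d / p) ≤ d := Nat.mul_div_le d p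
  have h1 : ((form c) ^ p * X i ^ (d - p * (d / p)) : MvPolynomial (Fin (n + 1)) k).IsHomogeneous
      d := by
    have h2 := ((isHomogeneous_form c).pow p).mul
      (isHomogeneous_X_pow (R := k) i (d - p * (d / p)))
    have h3 : d / p * p + (d - p * (d / p)) = d := by
      rw [mul_comm (d / p) p]
      omega
    rwa [h3] at h2
  obtain ⟨v, hv⟩ := SmoothAlg.form_exists h1
  refine ⟨v, ?_⟩
  unfold dF
  rw [hv, map_mul, map_pow, map_pow, dehom_X_self, one_pow, mul_one]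

private theorem d9_main {k : Type} [Field k] [Finite k] (p : ℕ) [CharP k p] {n d : ℕ}
    (i : Fin (n + 1)) (V : Std k {l : Fin (n + 1) // l ≠ i})
    {𝔭 : Ideal (MvPolynomial {l : Fin (n + 1) // l ≠ i} k)} (hV : V.For 𝔭) (r N : ℕ) :
    Nat.card {x : Mono n d → k | (V.critIdeals (dF x i)).Finite ∧
      (V.critIdeals (dF x i)).ncard ≤ N ∧
      ∃ 𝔮 : Ideal (MvPolynomial {l : Fin (n + 1) // l ≠ i} k), 𝔮.IsMaximal ∧ 𝔭 ≤ 𝔮 ∧
        V.h ∉ 𝔮 ∧ Nat.card k ^ r < Nat.card (MvPolynomial {l : Fin (n + 1) // l ≠ i} k ⧸ 𝔮) ∧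
        dF x i ∈ 𝔮 ^ 2 ⊔ 𝔭} * Nat.card k ^ (min r (d / p) + 1) ≤
      N * Nat.card (Mono n d → k) := by
  classical
  have hp : p.Prime := by
    rcases CharP.char_is_prime_or_zero k p with h | h
    · exact h
    · exfalso
      exact CharP.char_ne_zero_of_finite k p h
  choose v hv using fun c : Mono n (d / p) → k => d9_exists (d := d) p i c
  refine d9_count (β := Mono n (d / p) → k) v _ _ _ (Nat.pow_pos Nat.card_pos)
    fun (y : Mono n d → k) => ?_
  have hsub : ∀ c, dF (y - v c) i = dF y i - (dF c i) ^ p := by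
    intro c
    rw [← hv c]
    unfold dF
    rw [i6_form_sub, map_sub]
  have hvf : ∀ c e, V.vf e (dF (y - v c) i) = V.vf e (dF y i) := by
    intro c e
    rw [hsub, map_sub, d9_der p, sub_zero]
  have hcrit : ∀ c, V.critIdeals (dF (y - v c) i) = V.critIdeals (dF y i) := by
    intro c
    unfold Std.critIdeals
    simp only [hvf]
  by_cases hcr : (V.critIdeals (dF y i)).Finite ∧ (V.critIdeals (dF y i)).ncard ≤ N
  swap
  · rw [Nat.card_eq_zero.mpr (Or.inl ⟨fun c => hcr ?_⟩), zero_mul]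
    · exact Nat.zero_le _
    · obtain ⟨h3, h4, -⟩ := c.2
      rw [hcrit] at h3 h4
      exact ⟨h3, h4⟩
  obtain ⟨hcf, hcn⟩ := hcr
  let S : Set (Ideal (MvPolynomial {l : Fin (n + 1) // l ≠ i} k)) :=
    {𝔮 | 𝔮 ∈ V.critIdeals (dF y i) ∧
      Nat.card k ^ r < Nat.card (MvPolynomial {l : Fin (n + 1) // l ≠ i} k ⧸ 𝔮)}
  have hSs : S ⊆ V.critIdeals (dF y i) := fun 𝔮 h => h.1
  let Gd : (Mono n (d / p) → k) → Ideal (MvPolynomial {l : Fin (n + 1) // l ≠ i} k) → Prop :=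
    fun c 𝔮 => (Ideal.Quotient.mk 𝔮 (dF c i)) ^ p = Ideal.Quotient.mk 𝔮 (dF y i)
  have hgd : ∀ 𝔮 ∈ S, ∀ c c', Gd c 𝔮 → Gd c' 𝔮 →
      Ideal.Quotient.mk 𝔮 (dF c i) = Ideal.Quotient.mk 𝔮 (dF c' i) := by
    intro 𝔮 h𝔮 c c' h h'
    have : 𝔮.IsMaximal := h𝔮.1.1
    have : IsDomain (MvPolynomial {l : Fin (n + 1) // l ≠ i} k ⧸ 𝔮) :=
      Ideal.Quotient.isDomain 𝔮
    exact d9_pow ((Ideal.Quotient.mk 𝔮).comp C) p hp (h.trans h'.symm)
  have hhit := card_hit (d := d / p) i S (hcf.subset hSs) (fun 𝔭 h => h.1.1)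
    ((Set.ncard_le_ncard hSs hcf).trans hcn) (fun 𝔭 h => h.2)
    (fun 𝔮 => if h : ∃ c, Gd c 𝔮 then Ideal.Quotient.mk 𝔮 (dF h.choose i) else 0)
  refine le_trans (Nat.mul_le_mul_right _ ?_) hhit
  refine Nat.card_le_card_of_injective (fun c => ⟨c.1, ?_⟩) ?_
  · obtain ⟨-, -, 𝔮, hm, hI, hh, hcard, hbad⟩ := c.2
    have h1 : 𝔮 ∈ V.critIdeals (dF (y - v c.1) i) :=
      ⟨hm, fun κ => hI (hV.mem κ), hh, fun e _ => Std.vf_mem V hV hm.isPrime hI hh e hbad⟩
    rw [hcrit] at h1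
    have h8 : 𝔮 ∈ S := ⟨h1, hcard⟩
    have h9 : Gd c.1 𝔮 := by
      have h10 : dF (y - v c.1) i ∈ 𝔮 :=
        (sup_le (Ideal.pow_le_self two_ne_zero) hI) hbad
      rw [hsub] at h10
      have h11 := Ideal.Quotient.eq.mpr h10
      rw [map_pow] at h11
      exact h11.symm
    have h10 : ∃ c, Gd c 𝔮 := ⟨c.1, h9⟩
    refine ⟨𝔮, h8, ?_⟩
    rw [dif_pos h10]
    exact hgd _ h8 _ _ h9 h10.choose_spec
  · intro c c' h
    exact Subtype.ext (congrArg (fun x => x.1) h)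

private theorem d9_bad {O k : Type} [CommRing O] [CommRing k] (φ : O →+* k) {n d : ℕ}
    (I : HomIdeal O (n + 1)) (i : Fin (n + 1)) (a : Mono n d → O)
    {𝔭 𝔮 : Ideal (MvPolynomial {l : Fin (n + 1) // l ≠ i} k)}
    (hI : (dId I i).map (MvPolynomial.map φ) ≤ 𝔭)
    (h : BadAt I a i (𝔮.comap (MvPolynomial.map φ))) :
    dF (fun μ => φ (a μ)) i ∈ 𝔮 ^ 2 ⊔ 𝔭 := by
  have h1 := Ideal.mem_map_of_mem (MvPolynomial.map φ) h
  have h2 : MvPolynomial.map φ (dF a i) = dF (fun μ => φ (a μ)) i := by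
    unfold dF
    rw [i8_dehom_map, SmoothAlg.form_map]
  rw [h2, Ideal.map_sup, Ideal.map_pow] at h1
  exact (sup_le_sup (Ideal.pow_right_mono Ideal.map_comap_le 2) hI) h1

/-- **The `p`-th powers.** Let `p` be the characteristic of `k = 𝓞 E ⧸ P`. Here one
counts in `α = Mono n d → k`; use `i6_count` with `β = Mono n (d / p) → k` and
`c ↦` the form `(form c) ^ p * X i ^ (d - p * (d / p))`. It does not change the critical ideals, as
`vf e (g ^ p) = 0`. A bad point is critical, and the form vanishes at it (`vf_mem`,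
`BadAt`), so for given `b` and critical `𝔮`, the `c` such that `b - P c` is bad at `𝔮` satisfy
`(dF c i) ^ p ≡ dF b i` modulo `𝔮`; they have the same `dF c i` modulo `𝔮`. -/
theorem UD_high_bad (p : ℕ) [CharP (𝓞 E ⧸ P.asIdeal) p]
    (V : Std (𝓞 E ⧸ P.asIdeal) {l : Fin (n + 1) // l ≠ i})
    {𝔭 : Ideal (MvPolynomial {l : Fin (n + 1) // l ≠ i} (𝓞 E ⧸ P.asIdeal))} (hV : V.For 𝔭)
    (hI : (dId I i).map (redP _ P) ≤ 𝔭) {r : ℕ} {D : ℕ} (hD : V.deg + d ≤ D) :
    UD (fun u : Mono n d × Fin s → ℤ =>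
      (V.critIdeals (redP _ P (dF (coeffs b u) i))).Finite ∧
        (V.critIdeals (redP _ P (dF (coeffs b u) i))).ncard ≤ bnd n D ∧
        ∃ 𝔮 : Ideal (MvPolynomial {l : Fin (n + 1) // l ≠ i} (𝓞 E ⧸ P.asIdeal)), 𝔮.IsMaximal ∧
          𝔭 ≤ 𝔮 ∧ V.h ∉ 𝔮 ∧
          Nat.card (𝓞 E ⧸ P.asIdeal) ^ r <
            Nat.card (MvPolynomial {l : Fin (n + 1) // l ≠ i} (𝓞 E ⧸ P.asIdeal) ⧸ 𝔮) ∧
          BadAt I (coeffs b u) i (𝔮.comap (redP _ P)))
      (bnd n D / (Nat.card (𝓞 E ⧸ P.asIdeal) : ℝ) ^ (min r (d / p) + 1)) := by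
  have _ := hD
  have hq0' : (0 : ℝ) < Nat.card (𝓞 E ⧸ P.asIdeal) := by exact_mod_cast Nat.card_pos
  have key := d9_main (k := 𝓞 E ⧸ P.asIdeal) p (d := d) i V hV r (bnd n D)
  let ψ : (Mono n d × Fin s → ℤ) →+ (Mono n d → 𝓞 E ⧸ P.asIdeal) :=
    { toFun := fun u μ => Ideal.Quotient.mk P.asIdeal (coeffs b u μ)
      map_zero' := by
        funext μ
        simp [DNF.coeffs]
      map_add' := by
        intro u v
        funext μ
        simp [DNF.coeffs, add_smul, Finset.sum_add_distrib] }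
  have hψ : Function.Surjective ψ := by
    intro a
    choose x hx using fun μ => Ideal.Quotient.mk_surjective (a μ)
    refine ⟨fun p => b.repr (x p.1) p.2, ?_⟩
    funext μ
    rw [← hx μ]
    change Ideal.Quotient.mk P.asIdeal (∑ j, (b.repr (x μ)) j • b j) = _
    rw [b.sum_repr]
  have hred : ∀ u, redP {l : Fin (n + 1) // l ≠ i} P (dF (coeffs b u) i) = dF (ψ u) i := by
    intro u
    unfold dF
    rw [i8_dehom_map, SmoothAlg.form_map]
    rfl
  refine UD.hom ψ hψ {x : Mono n d → 𝓞 E ⧸ P.asIdeal | (V.critIdeals (dF x i)).Finite ∧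
      (V.critIdeals (dF x i)).ncard ≤ bnd n D ∧
      ∃ 𝔮 : Ideal (MvPolynomial {l : Fin (n + 1) // l ≠ i} (𝓞 E ⧸ P.asIdeal)),
        𝔮.IsMaximal ∧ 𝔭 ≤ 𝔮 ∧ V.h ∉ 𝔮 ∧ Nat.card (𝓞 E ⧸ P.asIdeal) ^ r <
          Nat.card (MvPolynomial {l : Fin (n + 1) // l ≠ i} (𝓞 E ⧸ P.asIdeal) ⧸ 𝔮) ∧
        dF x i ∈ 𝔮 ^ 2 ⊔ 𝔭} ?_ ?_
  · rintro u ⟨h1, h2, 𝔮, h3, h4, h5, h6, h7⟩
    rw [hred] at h1 h2
    exact ⟨h1, h2, 𝔮, h3, h4, h5, h6, d9_bad (Ideal.Quotient.mk P.asIdeal) I i _ hI h7⟩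
  · rw [div_mul_eq_mul_div, le_div_iff₀ (pow_pos hq0' _)]
    exact_mod_cast key

end

end Pool.Agent.Lib.MP_6a3dac_ag.Bert
end

section

/-!
# Local rings of affine schemes, charts and dimensions
-/

set_option autoImplicit false

namespace Pool.Agent.Lib.MP_6a3dac_ag.Bert

open MvPolynomial NumberField IsDedekindDomain
open Pool.Agent.Lib.MP_6a3dac_ag.DNF Pool.Agent.Lib.MP_6a3dac_ag.Maj

/-- `f : A → B` is the local ring of the closed subscheme defined by `I` of the spectrum of `A` at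
the prime ideal `𝔮`. -/
structure IsLocAt {A B : Type} [CommRing A] [CommRing B] (I 𝔮 : Ideal A) (f : A →+* B) : Prop where
  unit : ∀ x, IsUnit (f x) ↔ x ∉ 𝔮
  surj : ∀ y, ∃ a z, z ∉ 𝔮 ∧ y * f z = f a
  ker : ∀ x, f x = 0 ↔ ∃ z, z ∉ 𝔮 ∧ z * x ∈ I

namespace IsLocAt

variable {A B : Type} [CommRing A] [CommRing B] {I 𝔮 : Ideal A} {f : A →+* B}

theorem e1_isUnit_iff (h : IsLocAt I 𝔮 f) {y : B} {a z : A} (hz : z ∉ 𝔮) (hy : y * f z = f a) :
    IsUnit y ↔ a ∉ 𝔮 := by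
  rw [← h.unit a, ← hy]
  constructor
  · intro hu
    exact hu.mul ((h.unit z).2 hz)
  · intro hu
    exact isUnit_of_mul_isUnit_left hu

/-- The nonunits are the `f a / f z` with `a ∈ 𝔮`. -/
theorem isLocalRing (h : IsLocAt I 𝔮 f) (h𝔮 : 𝔮.IsPrime) (hI : I ≤ 𝔮) : IsLocalRing B := by
  have hnt : Nontrivial B := by
    by_contra hc
    rw [not_nontrivial_iff_subsingleton] at hc
    obtain ⟨z, hz, hz'⟩ := (h.ker 1).1 (Subsingleton.elim _ _)
    rw [mul_one] at hz'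
    exact hz (hI hz')
  refine IsLocalRing.of_nonunits_add ?_
  intro y₁ y₂ h₁ h₂
  obtain ⟨a₁, z₁, hz₁, e₁⟩ := h.surj y₁
  obtain ⟨a₂, z₂, hz₂, e₂⟩ := h.surj y₂
  have ha₁ : a₁ ∈ 𝔮 := by
    by_contra hc
    exact h₁ ((e1_isUnit_iff h hz₁ e₁).2 hc)
  have ha₂ : a₂ ∈ 𝔮 := by
    by_contra hc
    exact h₂ ((e1_isUnit_iff h hz₂ e₂).2 hc)
  have hz : z₁ * z₂ ∉ 𝔮 := by
    intro hc
    rcases h𝔮.mem_or_mem hc with hc | hc
    · exact hz₁ hc
    · exact hz₂ hc
  have e : (y₁ + y₂) * f (z₁ * z₂) = f (a₁ * z₂ + a₂ * z₁) := by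
    rw [map_mul, map_add, map_mul, map_mul, ← e₁, ← e₂]
    ring
  intro hu
  exact (e1_isUnit_iff h hz e).1 hu (𝔮.add_mem (𝔮.mul_mem_right _ ha₁) (𝔮.mul_mem_right _ ha₂))

theorem mem_maximalIdeal (h : IsLocAt I 𝔮 f) [IsLocalRing B] (x : A) :
    f x ∈ IsLocalRing.maximalIdeal B ↔ x ∈ 𝔮 := by
  rw [IsLocalRing.mem_maximalIdeal, mem_nonunits_iff, h.unit x, not_not]

/-- The residue field at a maximal ideal. -/
theorem card_residue (h : IsLocAt I 𝔮 f) (hmax : 𝔮.IsMaximal) [IsLocalRing B] :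
    Nat.card (IsLocalRing.ResidueField B) = Nat.card (A ⧸ 𝔮) := by
  have hmem : ∀ x, f x ∈ IsLocalRing.maximalIdeal B ↔ x ∈ 𝔮 := fun x => mem_maximalIdeal h x
  have hker : RingHom.ker ((IsLocalRing.residue B).comp f) = 𝔮 := by
    ext x
    rw [RingHom.mem_ker, RingHom.comp_apply, IsLocalRing.residue_eq_zero_iff, hmem]
  have hsurj : Function.Surjective ((IsLocalRing.residue B).comp f) := by
    intro y
    obtain ⟨y, rfl⟩ := IsLocalRing.residue_surjective y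
    obtain ⟨a, z, hz, e⟩ := h.surj y
    have hm : ∃ w, z * w - 1 ∈ 𝔮 := by
      obtain ⟨w, hw⟩ := hmax.exists_inv hz
      obtain ⟨i, hi, hi'⟩ := hw
      refine ⟨w, ?_⟩
      have : z * w - 1 = -i := by rw [← hi']; ring
      rw [this]
      exact 𝔮.neg_mem hi
    obtain ⟨w, hw⟩ := hm
    refine ⟨a * w, ?_⟩
    have h1 : f (a * w) - y = y * f (z * w - 1) := by
      rw [map_mul, ← e, map_sub, map_mul, map_one]
      ring
    have h2 : f (a * w) - y ∈ IsLocalRing.maximalIdeal B := by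
      rw [h1]
      exact Ideal.mul_mem_left _ _ ((hmem _).2 hw)
    rw [RingHom.comp_apply, ← sub_eq_zero, ← map_sub, IsLocalRing.residue_eq_zero_iff]
    exact h2
  rw [← hker]
  exact (Nat.card_congr (RingHom.quotientKerEquivOfSurjective hsurj).toEquiv).symm

theorem e2_mem_map (h : IsLocAt I 𝔮 f) (h𝔮 : 𝔮.IsPrime) (K : Ideal A) (x : A) :
    f x ∈ K.map f ↔ ∃ z, z ∉ 𝔮 ∧ z * x ∈ K ⊔ I := by
  constructor
  · intro hx
    have key : ∀ b ∈ K.map f, ∃ z k, z ∉ 𝔮 ∧ k ∈ K ∧ b * f z = f k := by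
      intro b hb
      refine Submodule.span_induction (p := fun b _ => ∃ z k, z ∉ 𝔮 ∧ k ∈ K ∧ b * f z = f k)
        ?_ ?_ ?_ ?_ hb
      · rintro _ ⟨k, hk, rfl⟩
        exact ⟨1, k, fun h1 => h𝔮.ne_top ((Ideal.eq_top_iff_one _).2 h1), hk, by simp⟩
      · exact ⟨1, 0, fun h1 => h𝔮.ne_top ((Ideal.eq_top_iff_one _).2 h1), K.zero_mem, by simp⟩
      · rintro b₁ b₂ _ _ ⟨z₁, k₁, hz₁, hk₁, e₁⟩ ⟨z₂, k₂, hz₂, hk₂, e₂⟩
        refine ⟨z₁ * z₂, k₁ * z₂ + k₂ * z₁, ?_, ?_, ?_⟩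
        · intro hc
          rcases h𝔮.mem_or_mem hc with hc | hc
          · exact hz₁ hc
          · exact hz₂ hc
        · exact K.add_mem (K.mul_mem_right _ hk₁) (K.mul_mem_right _ hk₂)
        · rw [map_mul, map_add, map_mul, map_mul, ← e₁, ← e₂]
          ring
      · rintro y b _ ⟨z, k, hz, hk, e⟩
        obtain ⟨a, z', hz', e'⟩ := h.surj y
        refine ⟨z' * z, a * k, ?_, K.mul_mem_left _ hk, ?_⟩
        · intro hc
          rcases h𝔮.mem_or_mem hc with hc | hc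
          · exact hz' hc
          · exact hz hc
        · rw [map_mul, map_mul, ← e, ← e', smul_eq_mul]
          ring
    obtain ⟨z, k, hz, hk, e⟩ := key _ hx
    have h0 : f (z * x - k) = 0 := by
      rw [map_sub, map_mul, ← e]
      ring
    obtain ⟨z', hz', h1⟩ := (h.ker _).1 h0
    refine ⟨z' * z, ?_, ?_⟩
    · intro hc
      rcases h𝔮.mem_or_mem hc with hc | hc
      · exact hz' hc
      · exact hz hc
    · have : z' * z * x = z' * k + z' * (z * x - k) := by ring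
      rw [this]
      exact Ideal.add_mem _ (Ideal.mem_sup_left (K.mul_mem_left _ hk)) (Ideal.mem_sup_right h1)
  · rintro ⟨z, hz, hzx⟩
    obtain ⟨k, hk, i, hi, e⟩ := Submodule.mem_sup.1 hzx
    have hi0 : f i = 0 := (h.ker i).2 ⟨1, fun h1 => h𝔮.ne_top ((Ideal.eq_top_iff_one _).2 h1),
      by simpa using hi⟩
    have h1 : f z * f x = f k := by
      rw [← map_mul, ← e, map_add, hi0, add_zero]
    have h2 : f z * f x ∈ K.map f := by
      rw [h1]
      exact Ideal.mem_map_of_mem _ hk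
    exact (Ideal.unit_mul_mem_iff_mem _ ((h.unit z).2 hz)).1 h2

theorem e2_maximalIdeal (h : IsLocAt I 𝔮 f) [IsLocalRing B] :
    IsLocalRing.maximalIdeal B = 𝔮.map f := by
  apply le_antisymm
  · intro y hy
    obtain ⟨a, z, hz, e⟩ := h.surj y
    have ha : f a ∈ IsLocalRing.maximalIdeal B := by
      rw [← e]
      exact Ideal.mul_mem_right _ _ hy
    have h1 : y * f z ∈ 𝔮.map f := by
      rw [e]
      exact Ideal.mem_map_of_mem _ ((mem_maximalIdeal h a).1 ha)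
    exact (Ideal.mul_unit_mem_iff_mem _ ((h.unit z).2 hz)).1 h1
  · rw [Ideal.map_le_iff_le_comap]
    intro x hx
    exact (mem_maximalIdeal h x).2 hx

/-- The map `A → B ⧸ 𝔪 ^ 2` is surjective with kernel `𝔮 ^ 2 ⊔ I` (if `z ∉ 𝔮`, then `z` is
a unit modulo `𝔮 ^ 2`), and `#(B ⧸ 𝔪 ^ 2) = #(B ⧸ 𝔪) * #(𝔪 ⧸ 𝔪 ^ 2) = #κ ^ (1 + m)`, as the
cotangent space has dimension `m` (`IsRegularLocalRing.iff_finrank_cotangentSpace`). -/
theorem card_quot_sq (h : IsLocAt I 𝔮 f) (hmax : 𝔮.IsMaximal) (hI : I ≤ 𝔮)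
    (hfin : Finite (A ⧸ 𝔮)) [IsRegularLocalRing B] {m : ℕ} (hdim : ringKrullDim B = m) :
    Nat.card (A ⧸ 𝔮 ^ 2 ⊔ I) = Nat.card (A ⧸ 𝔮) ^ (m + 1) := by
  have hm := e2_maximalIdeal h
  have hinv : ∀ z, z ∉ 𝔮 → ∃ w, z * w - 1 ∈ 𝔮 ^ 2 := by
    intro z hz
    obtain ⟨w, i, hi, hw⟩ := hmax.exists_inv hz
    refine ⟨w * (1 + i), ?_⟩
    have e : z * (w * (1 + i)) - 1 = -(i * i) := by
      have : w * z = 1 - i := by rw [← hw]; ring
      calc z * (w * (1 + i)) - 1 = (w * z) * (1 + i) - 1 := by ring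
        _ = -(i * i) := by rw [this]; ring
    rw [e, pow_two]
    exact Ideal.neg_mem_iff _ |>.2 (Ideal.mul_mem_mul hi hi)
  have hmem : ∀ x, x ∈ 𝔮 ^ 2 → f x ∈ IsLocalRing.maximalIdeal B ^ 2 := by
    intro x hx
    rw [hm, ← Ideal.map_pow]
    exact Ideal.mem_map_of_mem _ hx
  have hker : RingHom.ker ((Ideal.Quotient.mk (IsLocalRing.maximalIdeal B ^ 2)).comp f) =
      𝔮 ^ 2 ⊔ I := by
    ext x
    rw [RingHom.mem_ker, RingHom.comp_apply, Ideal.Quotient.eq_zero_iff_mem, hm, ← Ideal.map_pow,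
      e2_mem_map h hmax.isPrime]
    constructor
    · rintro ⟨z, hz, hzx⟩
      obtain ⟨w, hw⟩ := hinv z hz
      have e : x = w * (z * x) - (z * w - 1) * x := by ring
      rw [e]
      exact Ideal.sub_mem _ (Ideal.mul_mem_left _ _ hzx)
        (Ideal.mem_sup_left (Ideal.mul_mem_right _ _ hw))
    · intro hx
      exact ⟨1, fun h1 => hmax.ne_top ((Ideal.eq_top_iff_one _).2 h1), by simpa using hx⟩
  have hsurj : Function.Surjective
      ((Ideal.Quotient.mk (IsLocalRing.maximalIdeal B ^ 2)).comp f) := by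
    intro y
    obtain ⟨y, rfl⟩ := Ideal.Quotient.mk_surjective y
    obtain ⟨a, z, hz, e⟩ := h.surj y
    obtain ⟨w, hw⟩ := hinv z hz
    refine ⟨a * w, ?_⟩
    rw [RingHom.comp_apply, Ideal.Quotient.eq]
    have : f (a * w) - y = y * f (z * w - 1) := by
      rw [map_mul, ← e, map_sub, map_mul, map_one]
      ring
    rw [this]
    exact Ideal.mul_mem_left _ _ (hmem _ hw)
  have h1 : Nat.card (A ⧸ 𝔮 ^ 2 ⊔ I) = Nat.card (B ⧸ IsLocalRing.maximalIdeal B ^ 2) := by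
    rw [← hker]
    exact Nat.card_congr (RingHom.quotientKerEquivOfSurjective hsurj).toEquiv
  have h2 := Submodule.card_quotient_mul_card_quotient (IsLocalRing.maximalIdeal B)
    (IsLocalRing.maximalIdeal B ^ 2) (Ideal.pow_le_self two_ne_zero)
  have h3 : Nat.card (Submodule.map (IsLocalRing.maximalIdeal B ^ 2).mkQ
      (IsLocalRing.maximalIdeal B)) = Nat.card (IsLocalRing.CotangentSpace B) := by
    have e1 : Nat.card (IsLocalRing.CotangentSpace B) =
        Nat.card (IsLocalRing.maximalIdeal B).cotangentIdeal :=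
      Nat.card_congr (IsLocalRing.maximalIdeal B).cotangentEquivIdeal.toEquiv
    rw [e1]
    refine Nat.card_congr (Equiv.subtypeEquivRight fun x => ?_)
    simp only [Ideal.cotangentIdeal, Submodule.mem_map]
    rfl
  have h4 : Nat.card (IsLocalRing.CotangentSpace B) =
      Nat.card (IsLocalRing.ResidueField B) ^ m := by
    rw [Module.natCard_eq_pow_finrank (K := IsLocalRing.ResidueField B)]
    congr 1
    have := (IsRegularLocalRing.iff_finrank_cotangentSpace B).1 inferInstance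
    rw [hdim] at this
    exact_mod_cast this
  have h5 : Nat.card (B ⧸ IsLocalRing.maximalIdeal B) = Nat.card (A ⧸ 𝔮) :=
    card_residue h hmax
  rw [h1, ← h2, h3, h4, h5, card_residue h hmax, pow_succ]

end IsLocAt

/-- By induction on the number of variables with
`Polynomial.height_eq_height_add_one` (the contraction of a maximal ideal is maximal, as the rings
are Jacobson rings). -/
theorem height_maximal {k : Type} [Field k] {σ : Type} [Finite σ]
    {𝔮 : Ideal (MvPolynomial σ k)} (h : 𝔮.IsMaximal) : 𝔮.height = Nat.card σ := by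
  revert h
  revert 𝔮
  induction σ using Finite.induction_empty_option with
  | of_equiv e H =>
    intro 𝔮 h
    have h1 : (𝔮.comap (renameEquiv k e).toRingEquiv).IsMaximal :=
      Ideal.comap_isMaximal_of_equiv (renameEquiv k e).toRingEquiv
    rw [← RingEquiv.height_comap (renameEquiv k e).toRingEquiv, H h1, Nat.card_congr e]
  | h_empty =>
    intro 𝔮 h
    have h1 := Ideal.height_le_ringKrullDim_of_ne_top h.ne_top
    rw [ringKrullDim_of_isNoetherianRing, ringKrullDim_eq_zero_of_field] at h1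
    simp only [Nat.card_eq_fintype_card, Fintype.card_pempty, Nat.cast_zero, add_zero] at h1 ⊢
    exact le_antisymm (by exact_mod_cast h1) bot_le
  | @h_option ι _ IH =>
    intro 𝔮 h
    let e' := (optionEquivLeft k ι).toRingEquiv.symm
    have h1 : (𝔮.comap e').IsMaximal := Ideal.comap_isMaximal_of_equiv e'
    have h2 : ((𝔮.comap e').under (MvPolynomial ι k)).IsMaximal :=
      Polynomial.isMaximal_comap_C_of_isJacobsonRing (𝔮.comap e')
    have h3 : (𝔮.comap e').LiesOver ((𝔮.comap e').under (MvPolynomial ι k)) := ⟨rfl⟩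
    rw [← RingEquiv.height_comap e',
      Polynomial.height_eq_height_add_one ((𝔮.comap e').under (MvPolynomial ι k)), IH h2]
    simp

/-- The local ring `R` of `k[x]` at `𝔮` has dimension `#σ`; the ideal `𝔞 R` is generated
by the `g κ` (as `s` is a unit of `R`), and there are `#σ - #T` of them. So the dimension of
`R ⧸ 𝔞 R` is at least `#T` (Krull's height theorem,
`Ideal.height_le_ringKrullDim_quotient_add_...` or `ringKrullDim_le_ringKrullDim_quotient_add_card`). -/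
theorem card_T_le_dim {k σ : Type} [Field k] [Fintype σ] [DecidableEq σ] (V : Std k σ)
    {𝔞 𝔮 : Ideal (MvPolynomial σ k)} (hV : V.For 𝔞) (hmax : 𝔮.IsMaximal) (h𝔞 : 𝔞 ≤ 𝔮)
    (hh : V.h ∉ 𝔮) {B : Type} [CommRing B] {f : MvPolynomial σ k →+* B} (hB : IsLocAt 𝔞 𝔮 f) :
    (V.T.card : WithBot ℕ∞) ≤ ringKrullDim B := by
  classical
  have hprime : 𝔮.IsPrime := hmax.isPrime
  have hs : V.s ∉ 𝔮 := fun hc => hh (𝔮.mul_mem_right _ hc)
  let φ : Localization.AtPrime 𝔮 →+* B :=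
    IsLocalization.lift (M := 𝔮.primeCompl) (S := Localization.AtPrime 𝔮) (g := f)
      (fun y => (hB.unit _).2 y.2)
  have hφ : ∀ x, φ (algebraMap _ _ x) = f x := fun x => IsLocalization.lift_eq _ _
  have hφs : Function.Surjective φ := by
    intro y
    obtain ⟨a, z, hz, e⟩ := hB.surj y
    have hz : z ∈ 𝔮.primeCompl := hz
    refine ⟨IsLocalization.mk' (Localization.AtPrime 𝔮) a ⟨z, hz⟩, ?_⟩
    have hu : IsUnit (f z) := (hB.unit z).2 hz
    apply hu.mul_left_injective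
    change φ _ * f z = y * f z
    rw [e, ← hφ z, ← map_mul]
    have h1 : IsLocalization.mk' (Localization.AtPrime 𝔮) a ⟨z, hz⟩ *
        algebraMap _ (Localization.AtPrime 𝔮) z = algebraMap _ _ a :=
      IsLocalization.mk'_spec (M := 𝔮.primeCompl) _ a ⟨z, hz⟩
    rw [h1, hφ]
  let S : Finset (Localization.AtPrime 𝔮) :=
    Finset.univ.image fun κ => algebraMap _ (Localization.AtPrime 𝔮) (V.g κ)
  have hker : RingHom.ker φ ≤ Ideal.span (S : Set (Localization.AtPrime 𝔮)) := by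
    intro x hx
    obtain ⟨a, z, rfl⟩ := IsLocalization.exists_mk'_eq 𝔮.primeCompl x
    have h1 : f a = 0 := by
      have h2 : IsLocalization.mk' (Localization.AtPrime 𝔮) a z *
          algebraMap _ (Localization.AtPrime 𝔮) (z : MvPolynomial σ k) = algebraMap _ _ a :=
        IsLocalization.mk'_spec _ a z
      rw [← hφ, ← h2, map_mul, RingHom.mem_ker.1 hx, zero_mul]
    obtain ⟨w, hw, hw'⟩ := (hB.ker a).1 h1
    have h3 := hV.le _ hw'
    have h4 : algebraMap _ (Localization.AtPrime 𝔮) (V.s * (w * a)) ∈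
        Ideal.span (S : Set (Localization.AtPrime 𝔮)) := by
      have h5 := Ideal.mem_map_of_mem (algebraMap _ (Localization.AtPrime 𝔮)) h3
      rw [Ideal.map_span] at h5
      refine Ideal.span_mono ?_ h5
      rintro _ ⟨_, ⟨κ, rfl⟩, rfl⟩
      simp [S]
    have hsw : V.s * w ∈ 𝔮.primeCompl := by
      intro hc
      rcases hprime.mem_or_mem hc with hc | hc
      · exact hs hc
      · exact hw hc
    have hu : IsUnit (algebraMap _ (Localization.AtPrime 𝔮) (V.s * w)) :=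
      IsLocalization.map_units _ ⟨V.s * w, hsw⟩
    rw [← mul_assoc, map_mul, Ideal.unit_mul_mem_iff_mem _ hu] at h4
    rw [IsLocalization.mk'_mem_iff]
    exact h4
  have hSm : (S : Set (Localization.AtPrime 𝔮)) ⊆ Ring.jacobson (Localization.AtPrime 𝔮) := by
    rw [IsLocalRing.ringJacobson_eq_maximalIdeal]
    intro x hx
    simp only [S, Finset.coe_image, Finset.coe_univ, Set.image_univ, Set.mem_range] at hx
    obtain ⟨κ, rfl⟩ := hx
    exact (IsLocalization.AtPrime.to_map_mem_maximal_iff _ 𝔮 _).2 (h𝔞 (hV.mem κ))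
  have hdim := ringKrullDim_le_ringKrullDim_quotient_add_card S hSm
  rw [IsLocalization.AtPrime.ringKrullDim_eq_height 𝔮, height_maximal hmax] at hdim
  have hle : ringKrullDim (Localization.AtPrime 𝔮 ⧸ Ideal.span (S : Set (Localization.AtPrime 𝔮))) ≤
      ringKrullDim B := by
    have e := RingHom.quotientKerEquivOfSurjective hφs
    rw [show ringKrullDim B = ringKrullDim (Localization.AtPrime 𝔮 ⧸ RingHom.ker φ) from
      (ringKrullDim_eq_of_ringEquiv e).symm]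
    exact ringKrullDim_le_of_surjective (Ideal.Quotient.factor hker)
      (Ideal.Quotient.factor_surjective hker)
  have hcard : S.card + V.T.card ≤ Fintype.card σ := by
    have h1 : S.card ≤ Fintype.card {l : σ // l ∉ V.T} := Finset.card_image_le
    have h2 : Fintype.card {l : σ // l ∉ V.T} = Fintype.card σ - V.T.card := by
      rw [Fintype.card_subtype_compl, Fintype.card_coe]
    have h3 : V.T.card ≤ Fintype.card σ := Finset.card_le_univ _
    omega
  have h6 : ((Nat.card σ : ℕ) : WithBot ℕ∞) ≤ ringKrullDim B + S.card := by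
    refine le_trans ?_ (hdim.trans (add_le_add hle le_rfl))
    exact_mod_cast le_rfl
  rw [Nat.card_eq_fintype_card] at h6
  have h7 : ((S.card + V.T.card : ℕ) : WithBot ℕ∞) ≤ ringKrullDim B + S.card :=
    le_trans (by exact_mod_cast hcard) h6
  generalize ringKrullDim B = b at h7
  induction b using WithBot.recBotCoe with
  | bot => 
    rw [WithBot.bot_add, le_bot_iff] at h7
    exact absurd h7 (WithBot.coe_ne_bot)
  | coe b =>
    have h8 : ((S.card + V.T.card : ℕ) : ℕ∞) ≤ b + S.card := by exact_mod_cast h7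
    rw [Nat.cast_add, add_comm] at h8
    have h9 := (ENat.add_le_add_iff_right (ENat.natCast_ne_top _)).1 h8
    exact_mod_cast h9

/-- `B` is a domain, as `I` is prime, and `f (C ϖ) ≠ 0` for `ϖ ∈ P`, `ϖ ≠ 0`. So the
dimension of `B ⧸ (f (C ϖ))` is at most `m - 1`
(`ringKrullDim_quotient_succ_le_of_nonZeroDivisor`). The local ring of `k[x] ⧸ 𝔞` at the image of
`𝔮` is a quotient of it, and has dimension at least `#T` by `card_T_le_dim`. -/
theorem card_T_lt {E : Type} [Field E] [NumberField E] {σ : Type} [Fintype σ] [DecidableEq σ]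
    (P : HeightOneSpectrum (𝓞 E)) {I 𝔮 : Ideal (MvPolynomial σ (𝓞 E))} (hI : I.IsPrime)
    (h0 : ∀ c : 𝓞 E, C c ∈ I → c = 0) (hmax : 𝔮.IsMaximal) (hI𝔮 : I ≤ 𝔮)
    (hP : P.asIdeal.map C ≤ 𝔮) {B : Type} [CommRing B] {f : MvPolynomial σ (𝓞 E) →+* B}
    (hB : IsLocAt I 𝔮 f) {m : ℕ} (hdim : ringKrullDim B = m) (V : Std (𝓞 E ⧸ P.asIdeal) σ)
    {𝔞 : Ideal (MvPolynomial σ (𝓞 E ⧸ P.asIdeal))} (hV : V.For 𝔞)
    (hIa : I.map (redP σ P) ≤ 𝔞) (h𝔞 : 𝔞 ≤ 𝔮.map (redP σ P)) (hh : V.h ∉ 𝔮.map (redP σ P)) :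
    V.T.card + 1 ≤ m := by
  classical
  have hs : Function.Surjective (redP σ P) :=
    MvPolynomial.map_surjective _ Ideal.Quotient.mk_surjective
  have hk : RingHom.ker (redP σ P) = P.asIdeal.map C := by
    rw [redP, MvPolynomial.ker_map, Ideal.mk_ker]
  have hq : (𝔮.map (redP σ P)).comap (redP σ P) = 𝔮 := by
    rw [Ideal.comap_map_of_surjective' _ hs, hk, sup_eq_left]
    exact hP
  have hmax' : (𝔮.map (redP σ P)).IsMaximal := by
    refine (Ideal.map_eq_top_or_isMaximal_of_surjective _ hs hmax).resolve_left ?_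
    intro htop
    rw [htop, Ideal.comap_top] at hq
    exact hmax.ne_top hq.symm
  have hIK : I ≤ 𝔞.comap (redP σ P) := Ideal.map_le_iff_le_comap.1 hIa
  have hKq : 𝔞.comap (redP σ P) ≤ 𝔮 := by
    rw [← hq]
    exact Ideal.comap_mono h𝔞
  have hkK : RingHom.ker (redP σ P) ≤ 𝔞.comap (redP σ P) := by
    intro x hx
    rw [Ideal.mem_comap, RingHom.mem_ker.1 hx]
    exact 𝔞.zero_mem
  have hloc : IsLocalRing B := hB.isLocalRing hmax.isPrime hI𝔮
  have hKm : (𝔞.comap (redP σ P)).map f ≤ IsLocalRing.maximalIdeal B := by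
    rw [Ideal.map_le_iff_le_comap]
    intro x hx
    exact (hB.mem_maximalIdeal x).2 (hKq hx)
  have hker : RingHom.ker (redP σ P) ≤
      RingHom.ker ((Ideal.Quotient.mk ((𝔞.comap (redP σ P)).map f)).comp f) := by
    intro x hx
    rw [RingHom.mem_ker, RingHom.comp_apply, Ideal.Quotient.eq_zero_iff_mem]
    exact Ideal.mem_map_of_mem _ (hkK hx)
  obtain ⟨f', hf'⟩ : ∃ f' : MvPolynomial σ (𝓞 E ⧸ P.asIdeal) →+*
      B ⧸ (𝔞.comap (redP σ P)).map f, ∀ x, f' (redP σ P x) = Ideal.Quotient.mk _ (f x) := by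
    refine ⟨RingHom.liftOfSurjective (redP σ P) hs ⟨_, hker⟩, fun x => ?_⟩
    exact RingHom.liftOfRightInverse_comp_apply _ _ _ ⟨_, hker⟩ x
  have hmemq : ∀ x, redP σ P x ∈ 𝔮.map (redP σ P) ↔ x ∈ 𝔮 := by
    intro x
    rw [← Ideal.mem_comap, hq]
  have hB' : IsLocAt 𝔞 (𝔮.map (redP σ P)) f' := by
    refine ⟨?_, ?_, ?_⟩
    · intro x
      obtain ⟨x, rfl⟩ := hs x
      rw [hf', hmemq]
      constructor
      · intro hu hx
        obtain ⟨y, hy⟩ := hu.exists_right_inv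
        obtain ⟨y, rfl⟩ := Ideal.Quotient.mk_surjective y
        rw [← map_mul, ← map_one (Ideal.Quotient.mk _), Ideal.Quotient.eq] at hy
        have h1 := hKm hy
        have h2 : f x * y ∈ IsLocalRing.maximalIdeal B :=
          Ideal.mul_mem_right _ _ ((hB.mem_maximalIdeal x).2 hx)
        have h3 : (1 : B) ∈ IsLocalRing.maximalIdeal B := by
          have := Ideal.sub_mem _ h2 h1
          rwa [sub_sub_cancel] at this
        exact (Ideal.ne_top_iff_one _).1 (IsLocalRing.maximalIdeal.isMaximal B).ne_top h3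
      · intro hx
        exact ((hB.unit x).2 hx).map _
    · intro y
      obtain ⟨y, rfl⟩ := Ideal.Quotient.mk_surjective y
      obtain ⟨a, z, hz, e⟩ := hB.surj y
      refine ⟨redP σ P a, redP σ P z, ?_, ?_⟩
      · rw [hmemq]
        exact hz
      · rw [hf', hf', ← e, map_mul]
    · intro x
      obtain ⟨x, rfl⟩ := hs x
      rw [hf', Ideal.Quotient.eq_zero_iff_mem, hB.e2_mem_map hmax.isPrime, sup_eq_left.2 hIK]
      constructor
      · rintro ⟨z, hz, hzx⟩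
        refine ⟨redP σ P z, ?_, ?_⟩
        · rw [hmemq]
          exact hz
        · rw [← map_mul]
          exact hzx
      · rintro ⟨z, hz, hzx⟩
        obtain ⟨z, rfl⟩ := hs z
        rw [hmemq] at hz
        refine ⟨z, hz, ?_⟩
        rw [Ideal.mem_comap, map_mul]
        exact hzx
  have h1 := card_T_le_dim V hV hmax' h𝔞 hh hB'
  obtain ⟨c, hc, hc0⟩ := Submodule.exists_mem_ne_zero_of_ne_bot P.ne_bot
  have hfx : ∀ x, f x = 0 → x ∈ I := by
    intro x hx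
    obtain ⟨z, hz, hzx⟩ := (hB.ker x).1 hx
    exact (hI.mem_or_mem hzx).resolve_left fun h => hz (hI𝔮 h)
  have hfI : ∀ x ∈ I, f x = 0 := by
    intro x hx
    exact (hB.ker x).2 ⟨1, fun h1 => hmax.ne_top ((Ideal.eq_top_iff_one _).2 h1), by simpa using hx⟩
  have hnz : f (C c) ∈ nonZeroDivisors B := by
    rw [mem_nonZeroDivisors_iff_right]
    intro y hy
    obtain ⟨a, z, hz, e⟩ := hB.surj y
    have h2 : f (a * C c) = 0 := by
      rw [map_mul, ← e]
      calc y * f z * f (C c) = (y * f (C c)) * f z := by ring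
        _ = 0 := by rw [hy, zero_mul]
    have h3 : a ∈ I := (hI.mem_or_mem (hfx _ h2)).resolve_right fun h => hc0 (h0 c h)
    have h4 : y * f z = 0 := by rw [e, hfI a h3]
    exact ((hB.unit z).2 hz).mul_left_eq_zero.1 h4
  have h2 := ringKrullDim_quotient_succ_le_of_nonZeroDivisor hnz
  have hle : Ideal.span {f (C c)} ≤ (𝔞.comap (redP σ P)).map f := by
    rw [Ideal.span_singleton_le_iff_mem]
    apply Ideal.mem_map_of_mem
    apply hkK
    rw [hk]
    exact Ideal.mem_map_of_mem _ hc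
  have h3 : ringKrullDim (B ⧸ (𝔞.comap (redP σ P)).map f) ≤
      ringKrullDim (B ⧸ Ideal.span {f (C c)}) :=
    ringKrullDim_le_of_surjective (Ideal.Quotient.factor hle) (Ideal.Quotient.factor_surjective hle)
  have h4 : (V.T.card : WithBot ℕ∞) + 1 ≤ (m : WithBot ℕ∞) := by
    rw [← hdim]
    exact (add_le_add (h1.trans h3) le_rfl).trans h2
  exact_mod_cast h4

theorem e6_card {A B : Type} [CommRing A] [CommRing B] (f : A →+* B)
    (hf : Function.Surjective f) (J : Ideal B) : Nat.card (A ⧸ J.comap f) = Nat.card (B ⧸ J) := by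
  have hs : Function.Surjective ((Ideal.Quotient.mk J).comp f) :=
    Ideal.Quotient.mk_surjective.comp hf
  have hk : RingHom.ker ((Ideal.Quotient.mk J).comp f) = J.comap f := by
    ext x
    rw [RingHom.mem_ker, RingHom.comp_apply, Ideal.Quotient.eq_zero_iff_mem, Ideal.mem_comap]
  rw [← hk]
  exact Nat.card_congr (RingHom.quotientKerEquivOfSurjective hs).toEquiv

theorem e6_surj {E : Type} [Field E] [NumberField E] {σ : Type} (P : HeightOneSpectrum (𝓞 E)) :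
    Function.Surjective (redP σ P) :=
  MvPolynomial.map_surjective _ Ideal.Quotient.mk_surjective

theorem e6_ker {E : Type} [Field E] [NumberField E] {σ : Type} (P : HeightOneSpectrum (𝓞 E)) :
    RingHom.ker (redP σ P) = P.asIdeal.map C := by
  rw [redP, MvPolynomial.ker_map, Ideal.mk_ker]

/-- The maximal ideals over `P` are the preimages of the maximal ideals of the polynomial
ring over the residue field. -/
theorem map_redP {E : Type} [Field E] [NumberField E] {σ : Type}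
    (P : HeightOneSpectrum (𝓞 E)) {𝔮 : Ideal (MvPolynomial σ (𝓞 E))} (hP : P.asIdeal.map C ≤ 𝔮) :
    (𝔮.map (redP σ P)).comap (redP σ P) = 𝔮 ∧ (𝔮.IsMaximal → (𝔮.map (redP σ P)).IsMaximal) ∧
      Nat.card (MvPolynomial σ (𝓞 E ⧸ P.asIdeal) ⧸ 𝔮.map (redP σ P)) =
        Nat.card (MvPolynomial σ (𝓞 E) ⧸ 𝔮) := by
  have hs := e6_surj (σ := σ) P
  have hk := e6_ker (σ := σ) P
  have h1 : (𝔮.map (redP σ P)).comap (redP σ P) = 𝔮 := by
    rw [Ideal.comap_map_of_surjective' _ hs, hk, sup_eq_left]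
    exact hP
  refine ⟨h1, fun hmax => ?_, ?_⟩
  · refine (Ideal.map_eq_top_or_isMaximal_of_surjective _ hs hmax).resolve_left ?_
    intro htop
    rw [htop, Ideal.comap_top] at h1
    exact hmax.ne_top h1.symm
  · rw [← e6_card _ hs, h1]

theorem comap_redP {E : Type} [Field E] [NumberField E] {σ : Type}
    (P : HeightOneSpectrum (𝓞 E)) (𝔮 : Ideal (MvPolynomial σ (𝓞 E ⧸ P.asIdeal))) :
    P.asIdeal.map C ≤ 𝔮.comap (redP σ P) ∧ (𝔮.comap (redP σ P)).map (redP σ P) = 𝔮 ∧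
      (𝔮.IsMaximal → (𝔮.comap (redP σ P)).IsMaximal) ∧
      Nat.card (MvPolynomial σ (𝓞 E) ⧸ 𝔮.comap (redP σ P)) =
        Nat.card (MvPolynomial σ (𝓞 E ⧸ P.asIdeal) ⧸ 𝔮) := by
  have hs := e6_surj (σ := σ) P
  have hk := e6_ker (σ := σ) P
  refine ⟨?_, Ideal.map_comap_of_surjective _ hs _, fun hmax => ?_, e6_card _ hs _⟩
  · rw [← hk, RingHom.ker_eq_comap_bot]
    exact Ideal.comap_mono bot_le
  · exact Ideal.comap_isMaximal_of_surjective _ hs

end Pool.Agent.Lib.MP_6a3dac_ag.Bert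
end
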