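import Pool.Agent.Lib.MP_6a3dac_ag.Mg.G044
import Pool.Agent.Lib.MP_6a3dac_ag.Mg.G072
import Pool.Agent.Lib.MP_6a3dac_ag.Maj.Num

section

/-!
# Existence of standard charts at regular points
-/

set_option autoImplicit false

namespace Pool.Agent.Lib.MP_6a3dac_ag.Bert

open MvPolynomial NumberField IsDedekindDomain
open Pool.Agent.Lib.MP_6a3dac_ag.DNF Pool.Agent.Lib.MP_6a3dac_ag.Maj

open TensorProduct in
/-- The universal derivation of an algebra over a polynomial ring, on the polynomials. -/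
theorem f1_D {R : Type} [CommRing R] {σ : Type} [Fintype σ] {B : Type} [CommRing B] [Algebra R B]
    [Algebra (MvPolynomial σ R) B] [IsScalarTower R (MvPolynomial σ R) B]
    (f : MvPolynomial σ R) :
    KaehlerDifferential.D R B (algebraMap (MvPolynomial σ R) B f) =
      ∑ l, (algebraMap (MvPolynomial σ R) B (pderiv l f)) •
        KaehlerDifferential.D R B (algebraMap (MvPolynomial σ R) B (X l)) := by
  classical
  have h : (KaehlerDifferential.D R B).compAlgebraMap (MvPolynomial σ R) =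
      mkDerivation R fun l => KaehlerDifferential.D R B (algebraMap (MvPolynomial σ R) B (X l)) := by
    apply MvPolynomial.derivation_ext
    intro l
    simp [mkDerivation_X]
  have h2 : ∀ g : MvPolynomial σ R,
      mkDerivation R (fun l => KaehlerDifferential.D R B (algebraMap (MvPolynomial σ R) B (X l))) g =
      ∑ l, (algebraMap (MvPolynomial σ R) B (pderiv l g)) •
        KaehlerDifferential.D R B (algebraMap (MvPolynomial σ R) B (X l)) := by
    intro g
    induction g using MvPolynomial.induction_on with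
    | C a => simp
    | add p q hp hq => simp [hp, hq, add_smul, Finset.sum_add_distrib]
    | mul_X p i hp =>
      rw [Derivation.leibniz, hp, mkDerivation_X]
      simp only [Derivation.leibniz, pderiv_X, smul_eq_mul, map_add, map_mul, add_smul,
        Finset.sum_add_distrib]
      congr 1
      · rw [Finset.sum_eq_single i]
        · simp
        · intro j _ hj
          simp [hj]
        · simp
      · rw [Finset.smul_sum]
        refine Finset.sum_congr rfl fun l _ => ?_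
        rw [mul_smul]
        simp [algebraMap_smul]
  have := congrArg (fun D => D f) h
  simp only [Derivation.compAlgebraMap_apply] at this
  rw [this, h2]

open TensorProduct in
theorem f1_tmul {B L M : Type} [CommRing B] [CommRing L] [Algebra B L] [AddCommGroup M]
    [Module B M] {b : B} (h : algebraMap B L b = 0) (m : M) : (1 : L) ⊗ₜ[B] (b • m) = 0 := by
  rw [← TensorProduct.smul_tmul, Algebra.smul_def, mul_one, h, TensorProduct.zero_tmul]

/-- Let `B` be the local ring of the polynomial ring at `𝔭` and `L` its residue field.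
`L` is formally smooth over `R` (`K` is perfect: `Algebra.FormallySmooth.of_perfectField`; `K` is
formally étale over `R`), and `B` is formally smooth over `R`. So `𝔪 ⧸ 𝔪 ^ 2 → L ⊗ Ω[B⁄R]` is
(split) injective (Mathlib, RingTheory/Smooth/Kaehler.lean: `kerCotangentToTensor`), and
`Ω[B⁄R]` is free on the `d (X l)`. -/
theorem mem_sq_of_pderiv {R K : Type} [CommRing R] [IsDomain R] [Field K] [Algebra R K]
    [IsFractionRing R K] [PerfectField K] {σ : Type} [Fintype σ]
    {𝔭 : Ideal (MvPolynomial σ R)} (hp : 𝔭.IsPrime) (h0 : ∀ c : R, C c ∈ 𝔭 → c = 0)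
    {f : MvPolynomial σ R} (hf : f ∈ 𝔭) (hd : ∀ l, pderiv l f ∈ 𝔭) :
    ∃ z, z ∉ 𝔭 ∧ z * f ∈ 𝔭 ^ 2 := by
  classical
  let B := Localization.AtPrime 𝔭
  let L := IsLocalRing.ResidueField B
  have hinj : Function.Injective (algebraMap R L) := by
    rw [injective_iff_map_eq_zero]
    intro c hc
    apply h0
    have h1 : algebraMap B L (algebraMap R B c) = 0 := by
      rw [← IsScalarTower.algebraMap_apply]; exact hc
    rw [IsLocalRing.ResidueField.algebraMap_eq, IsLocalRing.residue_eq_zero_iff,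
      IsScalarTower.algebraMap_apply R (MvPolynomial σ R) B] at h1
    exact (IsLocalization.AtPrime.to_map_mem_maximal_iff B 𝔭 _).1 h1
  let _ : Algebra K L := (IsFractionRing.lift (K := K) hinj).toAlgebra
  have : IsScalarTower R K L := .of_algebraMap_eq fun r => by
    change _ = IsFractionRing.lift (K := K) hinj (algebraMap R K r)
    rw [IsFractionRing.lift_algebraMap]
  have : Algebra.EssFiniteType R L := by
    have : Algebra.EssFiniteType R B := Algebra.EssFiniteType.comp R (MvPolynomial σ R) B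
    have : Algebra.EssFiniteType B L := inferInstance
    exact Algebra.EssFiniteType.comp R B L
  have : Algebra.EssFiniteType K L := Algebra.EssFiniteType.of_comp R K L
  have : Algebra.FormallySmooth R K := Algebra.FormallySmooth.of_isLocalization (nonZeroDivisors R)
  have : Algebra.FormallySmooth R L := Algebra.FormallySmooth.comp R K L
  have : Algebra.FormallySmooth R B := inferInstance
  have hsurj : Function.Surjective (algebraMap B L) := IsLocalRing.residue_surjective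
  obtain ⟨l, hl⟩ := (Algebra.FormallySmooth.iff_split_injection (R := R) (P := B) (A := L)
    hsurj).1 inferInstance
  have hker : RingHom.ker (algebraMap B L) = IsLocalRing.maximalIdeal B := by
    rw [IsLocalRing.ResidueField.algebraMap_eq]; exact IsLocalRing.ker_residue
  have hmem : algebraMap (MvPolynomial σ R) B f ∈ RingHom.ker (algebraMap B L) := by
    rw [hker]
    exact (IsLocalization.AtPrime.to_map_mem_maximal_iff B 𝔭 _).2 hf
  let x : RingHom.ker (algebraMap B L) := ⟨algebraMap (MvPolynomial σ R) B f, hmem⟩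
  have hx : KaehlerDifferential.kerCotangentToTensor R B L
      (Ideal.toCotangent (RingHom.ker (algebraMap B L)) x) = 0 := by
    rw [KaehlerDifferential.kerCotangentToTensor_toCotangent]
    change (1 : L) ⊗ₜ[B] KaehlerDifferential.D R B (algebraMap (MvPolynomial σ R) B f) = 0
    rw [f1_D, TensorProduct.tmul_sum]
    refine Finset.sum_eq_zero fun i _ => ?_
    have h2 : algebraMap B L (algebraMap (MvPolynomial σ R) B (pderiv i f)) = 0 := by
      rw [← RingHom.mem_ker, hker]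
      exact (IsLocalization.AtPrime.to_map_mem_maximal_iff B 𝔭 _).2 (hd i)
    exact f1_tmul h2 _
  have hx0 : Ideal.toCotangent (RingHom.ker (algebraMap B L)) x = 0 := by
    have := congrArg (fun g => g (Ideal.toCotangent (RingHom.ker (algebraMap B L)) x)) hl
    simp only [LinearMap.comp_apply, LinearMap.id_apply] at this
    rw [← this, hx, map_zero]
  rw [Ideal.toCotangent_eq_zero] at hx0
  change algebraMap (MvPolynomial σ R) B f ∈ _ at hx0
  rw [hker, ← Localization.AtPrime.map_eq_maximalIdeal, ← Ideal.map_pow,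
    IsLocalization.algebraMap_mem_map_algebraMap_iff 𝔭.primeCompl] at hx0
  obtain ⟨m, hm, hmf⟩ := hx0
  exact ⟨m, hm, hmf⟩

/-- Elements of `I` which are a basis of the image of `I` in the cotangent space of the
local ring of the polynomial ring at `𝔭`. -/
theorem exists_basis {A : Type} [CommRing A] [IsNoetherianRing A] {I 𝔭 : Ideal A} (hp : 𝔭.IsPrime)
    (hI : I ≤ 𝔭) : ∃ (c : ℕ) (g : Fin c → A), (∀ j, g j ∈ I) ∧
      (∀ (z : A) (a : Fin c → A), z ∉ 𝔭 → z * ∑ j, a j * g j ∈ 𝔭 ^ 2 → ∀ j, a j ∈ 𝔭) ∧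
      ∀ f ∈ I, ∃ (z : A) (a : Fin c → A), z ∉ 𝔭 ∧ z * f - ∑ j, a j * g j ∈ 𝔭 ^ 2 := by
  classical
  let B := Localization.AtPrime 𝔭
  have hB : IsNoetherianRing B := IsLocalization.isNoetherianRing 𝔭.primeCompl B inferInstance
  let 𝔪 := IsLocalRing.maximalIdeal B
  let L := IsLocalRing.ResidueField B
  let V := IsLocalRing.CotangentSpace B
  let ι := algebraMap A B
  have hmem : ∀ x, ι x ∈ 𝔪 ↔ x ∈ 𝔭 := fun x => IsLocalization.AtPrime.to_map_mem_maximal_iff B 𝔭 x
  have hsq : ∀ x, ι x ∈ 𝔪 ^ 2 ↔ ∃ z, z ∉ 𝔭 ∧ z * x ∈ 𝔭 ^ 2 := by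
    intro x
    change algebraMap A B x ∈ (IsLocalRing.maximalIdeal B) ^ 2 ↔ _
    rw [← Localization.AtPrime.map_eq_maximalIdeal, ← Ideal.map_pow,
      IsLocalization.algebraMap_mem_map_algebraMap_iff 𝔭.primeCompl]
    exact ⟨fun ⟨m, hm, h⟩ => ⟨m, hm, h⟩, fun ⟨m, hm, h⟩ => ⟨m, hm, h⟩⟩
  let θ : ∀ x : I, V := fun x => Ideal.toCotangent 𝔪 ⟨ι x, (hmem x).2 (hI x.2)⟩
  have : Module.Finite L (Submodule.span L (Set.range θ)) := inferInstance
  obtain ⟨f, hf, hspan, hli⟩ := Submodule.exists_fun_fin_finrank_span_eq L (Set.range θ)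
  choose g hg using hf
  have hcomb : ∀ (a : Fin (Module.finrank L (Submodule.span L (Set.range θ))) → A) (s : A)
      (x : I), ι (s * x - ∑ j, a j * (g j : A)) ∈ 𝔪 ^ 2 ↔
        ι s • θ x = ∑ j, ι (a j) • f j := by
    intro a s x
    have h1 : s * (x : A) - ∑ j, a j * (g j : A) ∈ 𝔭 :=
      𝔭.sub_mem (𝔭.mul_mem_left _ (hI x.2))
        (Ideal.sum_mem _ fun j _ => 𝔭.mul_mem_left _ (hI (g j).2))
    have h2 : Ideal.toCotangent 𝔪 ⟨ι (s * x - ∑ j, a j * (g j : A)), (hmem _).2 h1⟩ =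
        ι s • θ x - ∑ j, ι (a j) • f j := by
      have h3 : (⟨ι (s * x - ∑ j, a j * (g j : A)), (hmem _).2 h1⟩ : 𝔪) =
          ι s • (⟨ι x, (hmem x).2 (hI x.2)⟩ : 𝔪) -
            ∑ j, ι (a j) • (⟨ι (g j), (hmem (g j)).2 (hI (g j).2)⟩ : 𝔪) := by
        apply Subtype.ext
        simp
      rw [h3, map_sub, map_smul, map_sum]
      congr 1
      refine Finset.sum_congr rfl fun j _ => ?_
      rw [map_smul, ← hg j]
    rw [← sub_eq_zero, ← h2, Ideal.toCotangent_eq_zero]
  refine ⟨_, fun j => g j, fun j => (g j).2, ?_, ?_⟩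
  · intro z a hz hza j
    have h0 : (0 : A) ∈ I := I.zero_mem
    have h1 : ι (0 * ((⟨0, h0⟩ : I) : A) - ∑ j, a j * (g j : A)) ∈ 𝔪 ^ 2 := by
      rw [hsq]
      refine ⟨z, hz, ?_⟩
      have : z * (0 * ((⟨0, h0⟩ : I) : A) - ∑ j, a j * (g j : A)) =
          -(z * ∑ j, a j * (g j : A)) := by ring
      rw [this]
      exact (𝔭 ^ 2).neg_mem hza
    rw [hcomb a 0 ⟨0, h0⟩, map_zero, zero_smul] at h1
    have h2 : ∑ j, (algebraMap B L (ι (a j))) • f j = 0 := by
      rw [h1]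
      refine Finset.sum_congr rfl fun j _ => ?_
      exact (algebraMap_smul L (ι (a j)) (f j))
    have h3 := Fintype.linearIndependent_iff.1 hli _ h2 j
    rw [IsLocalRing.ResidueField.algebraMap_eq, IsLocalRing.residue_eq_zero_iff] at h3
    exact (hmem _).1 h3
  · intro x hx
    have h1 : θ ⟨x, hx⟩ ∈ Submodule.span L (Set.range f) := by
      rw [hspan]
      exact Submodule.subset_span ⟨_, rfl⟩
    rw [Submodule.mem_span_range_iff_exists_fun] at h1
    obtain ⟨b, hb⟩ := h1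
    choose β hβ using fun j => IsLocalRing.residue_surjective (b j)
    obtain ⟨s, hs⟩ := IsLocalization.exist_integer_multiples_of_finite 𝔭.primeCompl β
    choose a ha using hs
    have h2 : ι (s : A) • θ ⟨x, hx⟩ = ∑ j, ι (a j) • f j := by
      rw [← hb, Finset.smul_sum]
      refine Finset.sum_congr rfl fun j _ => ?_
      have h3 : b j • f j = β j • f j := by
        rw [← hβ j]
        exact algebraMap_smul L (β j) (f j)
      rw [h3, smul_smul]
      congr 1
      rw [show ι (a j) = _ from ha j, Algebra.smul_def]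
    rw [← hcomb a s ⟨x, hx⟩, hsq] at h2
    obtain ⟨z, hz, hzm⟩ := h2
    refine ⟨z * s, fun j => z * a j, ?_, ?_⟩
    · intro h
      rcases hp.mem_or_mem h with h | h
      · exact hz h
      · exact s.2 h
    · have : z * s * x - ∑ j, z * a j * (g j : A) = z * (s * x - ∑ j, a j * (g j : A)) := by
        rw [mul_sub, Finset.mul_sum]
        simp only [mul_assoc]
      rw [this]
      exact hzm

open IsLocalRing in
theorem f3_map_maximalIdeal {O C : Type} [CommRing O] [IsLocalRing O] [CommRing C] [IsLocalRing C]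
    (π : O →+* C) (hπ : Function.Surjective π) : (maximalIdeal O).map π = maximalIdeal C := by
  have h0 := IsLocalHom.of_surjective π hπ
  have h1 : (maximalIdeal C).comap π = maximalIdeal O :=
    ((IsLocalRing.local_hom_TFAE π).out 0 4).mp h0
  rw [← h1, Ideal.map_comap_of_surjective π hπ]

open IsLocalRing in
/-- The quotient of a regular local ring by elements which are independent modulo the square of
the maximal ideal is regular. -/
theorem f3_regular (c : ℕ) : ∀ {O C : Type} [CommRing O] [IsRegularLocalRing O] [CommRing C]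
    (g : Fin c → O) (_ : ∀ j, g j ∈ maximalIdeal O)
    (_ : ∀ a : Fin c → O, ∑ j, a j * g j ∈ maximalIdeal O ^ 2 → ∀ j, a j ∈ maximalIdeal O)
    (π : O →+* C) (_ : Function.Surjective π) (_ : RingHom.ker π = Ideal.span (Set.range g)),
    IsRegularLocalRing C := by
  induction c with
  | zero =>
    intro O C _ _ _ g hg hind π hπ hker
    have h1 : RingHom.ker π = ⊥ := by
      rw [hker]; simp
    exact IsRegularLocalRing.of_ringEquiv
      (RingEquiv.ofBijective π ⟨(RingHom.injective_iff_ker_eq_bot π).2 h1, hπ⟩)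
  | succ c ih =>
    intro O C _ _ _ g hg hind π hπ hker
    have h02 : g 0 ∉ maximalIdeal O ^ 2 := by
      intro h
      have := hind (Pi.single 0 1) (by simpa [Finset.sum_eq_single (0 : Fin (c + 1)),
        Pi.single_apply] using h) 0
      rw [Pi.single_eq_same] at this
      exact (maximalIdeal.isMaximal O).ne_top ((Ideal.eq_top_iff_one _).2 this)
    have hreg := isRegularLocalRing_quotient ‹_› (hg 0) h02
    let p := Ideal.Quotient.mk (Ideal.span {g 0})
    have hp : Function.Surjective p := Ideal.Quotient.mk_surjective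
    have hmap := f3_map_maximalIdeal p hp
    have hcomap : (maximalIdeal (O ⧸ Ideal.span {g 0})).comap p = maximalIdeal O :=
      ((IsLocalRing.local_hom_TFAE p).out 0 4).mp (IsLocalHom.of_surjective p hp)
    have hle : Ideal.span {g 0} ≤ RingHom.ker π := by
      rw [Ideal.span_le, Set.singleton_subset_iff, hker]
      exact Ideal.subset_span ⟨0, rfl⟩
    let π' : O ⧸ Ideal.span {g 0} →+* C := Ideal.Quotient.lift _ π fun a ha => hle ha
    refine ih (fun j => p (g j.succ)) (fun j => ?_) ?_ π' ?_ ?_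
    · rw [← hmap]; exact Ideal.mem_map_of_mem _ (hg _)
    · intro a ha j
      choose b hb using fun j => hp (a j)
      have h1 : p (∑ j, b j * g j.succ) ∈ (maximalIdeal O ^ 2).map p := by
        rw [Ideal.map_pow, hmap, map_sum]
        simpa only [map_mul, hb] using ha
      rw [Ideal.mem_map_iff_of_surjective p hp] at h1
      obtain ⟨y, hy, hy2⟩ := h1
      have h2 : ∑ j, b j * g j.succ - y ∈ Ideal.span {g 0} := by
        rw [← Ideal.Quotient.eq_zero_iff_mem, map_sub]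
        exact sub_eq_zero.2 hy2.symm
      rw [Ideal.mem_span_singleton'] at h2
      obtain ⟨t, ht⟩ := h2
      have h3 := hind (Fin.cons (-t) b) (by
        rw [Fin.sum_univ_succ]
        simp only [Fin.cons_zero, Fin.cons_succ]
        have : -t * g 0 + ∑ j, b j * g j.succ = y := by
          rw [neg_mul, ht]; ring
        rw [this]; exact hy) j.succ
      rw [Fin.cons_succ] at h3
      rw [← hb j, ← hmap]
      exact Ideal.mem_map_of_mem _ h3
    · exact Ideal.Quotient.lift_surjective_of_surjective _ _ hπ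
    · apply le_antisymm
      · intro x hx
        obtain ⟨y, rfl⟩ := hp x
        have h1 : y ∈ RingHom.ker π := hx
        rw [hker] at h1
        have h2 : p y ∈ (Ideal.span (Set.range g)).map p := Ideal.mem_map_of_mem _ h1
        rw [Ideal.map_span] at h2
        refine Ideal.span_le.2 ?_ h2
        rintro _ ⟨_, ⟨j, rfl⟩, rfl⟩
        refine Fin.cases ?_ (fun i => ?_) j
        · have : p (g 0) = 0 := Ideal.Quotient.eq_zero_iff_mem.2 (Ideal.mem_span_singleton_self _)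
          rw [SetLike.mem_coe, this]
          exact Ideal.zero_mem _
        · exact Ideal.subset_span ⟨i, rfl⟩
      · rw [Ideal.span_le]
        rintro _ ⟨j, rfl⟩
        change π (g j.succ) = 0
        rw [← RingHom.mem_ker, hker]
        exact Ideal.subset_span ⟨_, rfl⟩

open IsLocalRing in
theorem f3_rank {C B : Type} [CommRing C] [IsLocalRing C] [IsNoetherianRing C] [CommRing B]
    [IsLocalRing B] (ψ : C →+* B) (hψ : Function.Surjective ψ)
    (hk : RingHom.ker ψ ≤ maximalIdeal C ^ 2) :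
    (maximalIdeal C).spanFinrank ≤ (maximalIdeal B).spanFinrank := by
  classical
  have hB : IsNoetherianRing B := isNoetherianRing_of_surjective C B ψ hψ
  have hfg : (maximalIdeal B).FG := Ideal.fg_of_isNoetherianRing _
  obtain ⟨s, hs1, hs2⟩ := Submodule.FG.exists_span_finset_card_eq_spanFinrank hfg
  choose r hr using hψ
  have hcomap : (maximalIdeal B).comap ψ = maximalIdeal C :=
    ((IsLocalRing.local_hom_TFAE ψ).out 0 4).mp (IsLocalHom.of_surjective ψ fun b => ⟨_, hr b⟩)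
  have hle : Ideal.span ((s.image r : Finset C) : Set C) ≤ maximalIdeal C := by
    rw [Ideal.span_le]
    intro x hx
    rw [Finset.coe_image] at hx
    obtain ⟨y, hy, rfl⟩ := hx
    rw [← hcomap]
    change ψ (r y) ∈ maximalIdeal B
    rw [hr, ← hs2]
    exact Submodule.subset_span hy
  have h1 : maximalIdeal C ≤ Ideal.span ((s.image r : Finset C) : Set C) ⊔
      maximalIdeal C • maximalIdeal C := by
    intro x hx
    rw [← hcomap] at hx
    have h2 : ψ x ∈ (Ideal.span ((s.image r : Finset C) : Set C)).map ψ := by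
      rw [Ideal.map_span, Finset.coe_image, ← Set.image_comp]
      have : (ψ ∘ r) '' (s : Set B) = s := by
        have : ψ ∘ r = id := funext hr
        rw [this, Set.image_id]
      rw [this]
      change ψ x ∈ maximalIdeal B at hx
      rw [← hs2] at hx
      exact hx
    rw [Ideal.mem_map_iff_of_surjective ψ fun b => ⟨_, hr b⟩] at h2
    obtain ⟨y, hy, hy2⟩ := h2
    have h3 : x - y ∈ RingHom.ker ψ := by
      rw [RingHom.mem_ker, map_sub, hy2, sub_self]
    have h4 := hk h3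
    rw [pow_two] at h4
    have : x = y + (x - y) := by ring
    rw [this]
    exact Submodule.add_mem_sup hy h4
  have h2 : maximalIdeal C ≤ Ideal.span ((s.image r : Finset C) : Set C) :=
    Submodule.le_of_le_smul_of_le_jacobson_bot (Ideal.fg_of_isNoetherianRing _)
      (IsLocalRing.maximalIdeal_le_jacobson _) h1
  have h3 : maximalIdeal C = Submodule.span C ((s.image r : Finset C) : Set C) :=
    le_antisymm h2 hle
  rw [h3]
  refine (Submodule.spanFinrank_span_le_ncard_of_finite (Finset.finite_toSet _)).trans ?_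
  rw [Set.ncard_coe_finset, ← hs1]
  exact Finset.card_image_le

open IsLocalRing in
theorem f3_inj {C B : Type} [CommRing C] [IsRegularLocalRing C] [CommRing B]
    [IsRegularLocalRing B] (ψ : C →+* B) (hψ : Function.Surjective ψ)
    (hk : RingHom.ker ψ ≤ maximalIdeal C ^ 2) : RingHom.ker ψ = ⊥ := by
  have hdom : IsDomain C := isDomain_aux _ C le_rfl
  by_contra hne
  obtain ⟨x, hx, hx0⟩ := Submodule.exists_mem_ne_zero_of_ne_bot hne
  have h1 := ringKrullDim_quotient_succ_le_of_nonZeroDivisor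
    (mem_nonZeroDivisors_of_ne_zero hx0)
  have h2 : ringKrullDim B ≤ ringKrullDim (C ⧸ Ideal.span {x}) := by
    refine ringKrullDim_le_of_surjective (Ideal.Quotient.lift (Ideal.span {x}) ψ ?_)
      (Ideal.Quotient.lift_surjective_of_surjective _ _ hψ)
    intro a ha
    rw [Ideal.mem_span_singleton'] at ha
    obtain ⟨t, rfl⟩ := ha
    rw [map_mul, (RingHom.mem_ker).1 hx, mul_zero]
  have h3 := f3_rank ψ hψ hk
  have h4 := (isRegularLocalRing_iff C).1 inferInstance
  have h5 := (isRegularLocalRing_iff B).1 inferInstance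
  have h6 : (((maximalIdeal B).spanFinrank : ℕ) + 1 : WithBot ℕ∞) ≤
      ((maximalIdeal C).spanFinrank : ℕ) := by
    rw [h4, h5]
    exact (add_le_add_left h2 1).trans h1
  have h7 : (maximalIdeal B).spanFinrank + 1 ≤ (maximalIdeal C).spanFinrank := by
    exact_mod_cast h6
  omega

/-- `A` is a regular ring, `g` as in `exists_basis`, and the local ring `B` of `A ⧸ I` at
`𝔭` is regular. Let `A'` be the local ring of `A` at `𝔭`. The ring `A' ⧸ (g)` is a regular local
ring of dimension `dim A' - c` (`isRegularLocalRing_quotient` of RegLocal.lean, repeatedly), so a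
domain (RegDomain.lean); `B` is a quotient of it and regular; its cotangent space has the same
dimension `dim A' - c`. A proper quotient of a local domain of finite dimension has smaller
dimension, so `A' ⧸ (g) = B`, and `I A' = (g) A'`; `I` is finitely generated. -/
theorem exists_mul_le {A B : Type} [CommRing A] [IsRegularRing A] {I 𝔭 : Ideal A}
    (hp : 𝔭.IsPrime) (hI : I ≤ 𝔭) [CommRing B] [IsRegularLocalRing B] {f : A →+* B}
    (hB : IsLocAt I 𝔭 f) {c : ℕ} {g : Fin c → A} (hg : ∀ j, g j ∈ I)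
    (h1 : ∀ (z : A) (a : Fin c → A), z ∉ 𝔭 → z * ∑ j, a j * g j ∈ 𝔭 ^ 2 → ∀ j, a j ∈ 𝔭)
    (h2 : ∀ f ∈ I, ∃ (z : A) (a : Fin c → A), z ∉ 𝔭 ∧ z * f - ∑ j, a j * g j ∈ 𝔭 ^ 2) :
    ∃ z, z ∉ 𝔭 ∧ ∀ f ∈ I, z * f ∈ Ideal.span (Set.range g) := by
  classical
  let O := Localization.AtPrime 𝔭
  have hO : IsRegularLocalRing O := IsRegularRing.isRegularLocalRing_localization 𝔭
  let ι := algebraMap A O
  let 𝔪 := IsLocalRing.maximalIdeal O
  have hmem : ∀ x, ι x ∈ 𝔪 ↔ x ∈ 𝔭 := fun x => IsLocalization.AtPrime.to_map_mem_maximal_iff O 𝔭 x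
  have hsq : ∀ x, ι x ∈ 𝔪 ^ 2 ↔ ∃ z, z ∉ 𝔭 ∧ z * x ∈ 𝔭 ^ 2 := fun x =>
    mem_maximalIdeal_pow_iff 𝔭
  have hunit : ∀ z : A, z ∉ 𝔭 → IsUnit (ι z) := fun z hz =>
    IsLocalization.map_units O (⟨z, hz⟩ : 𝔭.primeCompl)
  let φ : O →+* B := IsLocalization.lift (M := 𝔭.primeCompl) (g := f)
    fun y => (hB.unit _).2 y.2
  have hφ : ∀ a, φ (ι a) = f a := fun a => IsLocalization.lift_eq _ a
  have hφs : Function.Surjective φ := by
    intro y
    obtain ⟨a, z, hz, h⟩ := hB.surj y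
    refine ⟨IsLocalization.mk' O a (⟨z, hz⟩ : 𝔭.primeCompl), ?_⟩
    rw [IsLocalization.lift_mk'_spec]
    rw [mul_comm]
    exact h.symm
  let G : Ideal O := Ideal.span (Set.range fun j => ι (g j))
  have hGI : ∀ x, x ∈ G → φ x = 0 := by
    intro x hx
    refine Submodule.span_induction ?_ (map_zero φ) ?_ ?_ hx
    · rintro _ ⟨j, rfl⟩
      rw [hφ, hB.ker]
      exact ⟨1, fun h => hp.ne_top ((Ideal.eq_top_iff_one _).2 h), by rw [one_mul]; exact hg j⟩
    · intro x y _ _ hx hy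
      rw [map_add, hx, hy, add_zero]
    · intro a x _ hx
      rw [smul_eq_mul, map_mul, hx, mul_zero]
  have hC : IsRegularLocalRing (O ⧸ G) := by
    refine f3_regular c (fun j => ι (g j)) (fun j => (hmem _).2 (hI (hg j))) ?_
      (Ideal.Quotient.mk G) Ideal.Quotient.mk_surjective (by rw [Ideal.mk_ker])
    intro a ha
    obtain ⟨s, hs⟩ := IsLocalization.exist_integer_multiples_of_finite 𝔭.primeCompl a
    choose b hb using hs
    have hb' : ∀ j, ι (b j) = ι s * a j := fun j => by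
      rw [show ι (b j) = _ from hb j, Algebra.smul_def]
    have h3 : ι (∑ j, b j * g j) ∈ 𝔪 ^ 2 := by
      rw [map_sum]
      have : ∑ j, ι (b j * g j) = ι s * ∑ j, a j * ι (g j) := by
        rw [Finset.mul_sum]
        refine Finset.sum_congr rfl fun j _ => ?_
        rw [map_mul, hb' j, mul_assoc]
      rw [this]
      exact Ideal.mul_mem_left _ _ ha
    rw [hsq] at h3
    obtain ⟨z, hz, hz2⟩ := h3
    intro j
    have h4 := (hmem _).2 (h1 z b hz hz2 j)
    rw [hb' j] at h4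
    exact ((IsLocalRing.maximalIdeal.isMaximal O).isPrime.mem_or_mem h4).resolve_left
      fun h => s.2 ((hmem _).1 h)
  let ψ : O ⧸ G →+* B := Ideal.Quotient.lift G φ hGI
  have hψs : Function.Surjective ψ := Ideal.Quotient.lift_surjective_of_surjective _ _ hφs
  have hmap := f3_map_maximalIdeal (Ideal.Quotient.mk G) Ideal.Quotient.mk_surjective
  have hker : RingHom.ker ψ = ⊥ := by
    apply f3_inj ψ hψs
    intro x hx
    obtain ⟨y, rfl⟩ := Ideal.Quotient.mk_surjective x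
    obtain ⟨a, s, rfl⟩ := IsLocalization.exists_mk'_eq 𝔭.primeCompl y
    have h3 : φ (IsLocalization.mk' O a s) = 0 := hx
    have h4 : f a = 0 := by
      rw [← hφ, ← IsLocalization.mk'_spec O a s, map_mul, h3, zero_mul]
    rw [hB.ker] at h4
    obtain ⟨w, hw, hwa⟩ := h4
    obtain ⟨z, b, hz, hzb⟩ := h2 _ hwa
    have h5 : ι (z * (w * a)) ∈ G ⊔ 𝔪 ^ 2 := by
      have : ι (z * (w * a)) = ι (∑ j, b j * g j) + ι (z * (w * a) - ∑ j, b j * g j) := by
        rw [← map_add]; congr 1; ring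
      rw [this]
      refine Submodule.add_mem_sup ?_ ?_
      · rw [map_sum]
        refine Ideal.sum_mem _ fun j _ => ?_
        rw [map_mul]
        exact Ideal.mul_mem_left _ _ (Ideal.subset_span ⟨j, rfl⟩)
      · rw [hsq]
        exact ⟨1, fun h => hp.ne_top ((Ideal.eq_top_iff_one _).2 h), by rw [one_mul]; exact hzb⟩
    have h6 : IsLocalization.mk' O a s ∈ G ⊔ 𝔪 ^ 2 := by
      have h7 : IsUnit (ι (z * w * s)) := by
        rw [map_mul, map_mul]
        exact ((hunit z hz).mul (hunit w hw)).mul (hunit s s.2)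
      rw [← Ideal.unit_mul_mem_iff_mem _ h7]
      have : ι (z * w * s) * IsLocalization.mk' O a s = ι (z * (w * a)) := by
        rw [map_mul ι (z * w), mul_assoc, mul_comm (ι (s : A)), IsLocalization.mk'_spec, ← map_mul,
          mul_assoc]
      rw [this]
      exact h5
    rw [Submodule.mem_sup] at h6
    obtain ⟨u, hu, v, hv, huv⟩ := h6
    rw [← huv, map_add, Ideal.Quotient.eq_zero_iff_mem.2 hu, zero_add, ← hmap, ← Ideal.map_pow]
    exact Ideal.mem_map_of_mem _ hv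
  have hloc : ∀ x ∈ I, ∃ m, m ∉ 𝔭 ∧ m * x ∈ Ideal.span (Set.range g) := by
    intro x hx
    have h3 : ι x ∈ G := by
      rw [← Ideal.Quotient.eq_zero_iff_mem]
      have : Ideal.Quotient.mk G (ι x) ∈ RingHom.ker ψ := by
        change φ (ι x) = 0
        rw [hφ, hB.ker]
        exact ⟨1, fun h => hp.ne_top ((Ideal.eq_top_iff_one _).2 h), by rw [one_mul]; exact hx⟩
      rw [hker] at this
      exact this
    have h4 : ι x ∈ (Ideal.span (Set.range g)).map ι := by
      rw [Ideal.map_span, ← Set.range_comp]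
      exact h3
    rw [IsLocalization.algebraMap_mem_map_algebraMap_iff 𝔭.primeCompl] at h4
    obtain ⟨m, hm, h⟩ := h4
    exact ⟨m, hm, h⟩
  choose! m hm hm2 using hloc
  obtain ⟨S, hS⟩ : I.FG := Ideal.fg_of_isNoetherianRing I
  have hSI : ∀ s ∈ S, s ∈ I := fun s hs => by rw [← hS]; exact Submodule.subset_span hs
  refine ⟨∏ s ∈ S, m s, ?_, ?_⟩
  · intro h
    obtain ⟨s, hs, hs2⟩ := (hp.prod_mem_iff).1 h
    exact hm s (hSI s hs) hs2
  · intro x hx
    rw [← hS] at hx
    refine Submodule.span_induction ?_ ?_ ?_ ?_ hx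
    · intro s hs
      rw [← Finset.prod_erase_mul S m (show s ∈ S from hs), mul_assoc]
      exact Ideal.mul_mem_left _ _ (hm2 s (hSI s hs))
    · rw [mul_zero]; exact Ideal.zero_mem _
    · intro x y _ _ hx hy
      rw [mul_add]; exact Ideal.add_mem _ hx hy
    · intro a x _ hx
      rw [smul_eq_mul, mul_left_comm]
      exact Ideal.mul_mem_left _ _ hx

/-- A matrix over a field with independent rows has a nonzero maximal minor. -/
theorem f4_minor {L σ : Type} [Field L] [Fintype σ] [DecidableEq σ] {c : ℕ}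
    (M : Matrix (Fin c) σ L) (h : LinearIndependent L M.row) :
    ∃ s : Fin c → σ, Function.Injective s ∧ (M.submatrix id s).det ≠ 0 := by
  classical
  have h1 : Module.finrank L (Submodule.span L (Set.range M.col)) = c := by
    rw [← Matrix.rank_eq_finrank_span_cols, h.rank_matrix, Fintype.card_fin]
  obtain ⟨f, hf, -, hfi⟩ := Submodule.exists_fun_fin_finrank_span_eq L (Set.range M.col)
  choose s0 hs0 using hf
  refine ⟨fun i => s0 (Fin.cast h1.symm i), ?_, ?_⟩
  · intro i j hij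
    have h2 : f (Fin.cast h1.symm i) = f (Fin.cast h1.symm j) := by
      rw [← hs0, ← hs0]
      exact congrArg M.col hij
    have h3 := hfi.injective h2
    simpa using h3
  · have h4 : LinearIndependent L
        (M.submatrix id fun i => s0 (Fin.cast h1.symm i)).col := by
      have h5 : (M.submatrix id fun i => s0 (Fin.cast h1.symm i)).col =
          f ∘ Fin.cast h1.symm := by
        funext i
        have := hs0 (Fin.cast h1.symm i)
        funext j
        exact congrFun this j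
      rw [h5]
      exact hfi.comp _ (Fin.cast_injective _)
    have h6 := Matrix.linearIndependent_cols_iff_isUnit.1 h4
    exact ((Matrix.isUnit_iff_isUnit_det _).1 h6).ne_zero

/-- By `mem_sq_of_pderiv` the rows of the Jacobian matrix of the `g j` are independent
modulo `𝔭`, so some maximal minor is not in `𝔭`. -/
theorem exists_minor {R K : Type} [CommRing R] [IsDomain R] [Field K] [Algebra R K]
    [IsFractionRing R K] [PerfectField K] {σ : Type} [Fintype σ] [DecidableEq σ]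
    {𝔭 : Ideal (MvPolynomial σ R)} (hp : 𝔭.IsPrime) (h0 : ∀ c : R, C c ∈ 𝔭 → c = 0) {c : ℕ}
    {g : Fin c → MvPolynomial σ R} (hg : ∀ j, g j ∈ 𝔭)
    (h1 : ∀ (z : MvPolynomial σ R) (a : Fin c → MvPolynomial σ R), z ∉ 𝔭 →
      z * ∑ j, a j * g j ∈ 𝔭 ^ 2 → ∀ j, a j ∈ 𝔭) :
    ∃ s : Fin c → σ, Function.Injective s ∧
      (Matrix.of fun j j' => pderiv (s j') (g j)).det ∉ 𝔭 := by
  classical
  have : 𝔭.IsPrime := hp
  let A := MvPolynomial σ R ⧸ 𝔭
  let L := FractionRing A
  let φ : MvPolynomial σ R →+* L := (algebraMap A L).comp (Ideal.Quotient.mk 𝔭)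
  have hφ : ∀ x, φ x = 0 ↔ x ∈ 𝔭 := by
    intro x
    change algebraMap A L (Ideal.Quotient.mk 𝔭 x) = 0 ↔ _
    rw [map_eq_zero_iff _ (IsFractionRing.injective A L), Ideal.Quotient.eq_zero_iff_mem]
  let M : Matrix (Fin c) σ L := Matrix.of fun j l => φ (pderiv l (g j))
  have hM : LinearIndependent L M.row := by
    rw [← LinearIndependent.iff_fractionRing A L, Fintype.linearIndependent_iff]
    intro b hb
    choose a ha using fun j => Ideal.Quotient.mk_surjective (b j)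
    have h2 : ∀ l, ∑ j, a j * pderiv l (g j) ∈ 𝔭 := by
      intro l
      rw [← hφ, map_sum]
      have h3 := congrFun hb l
      rw [Finset.sum_apply] at h3
      rw [Pi.zero_apply] at h3
      rw [← h3]
      refine Finset.sum_congr rfl fun j _ => ?_
      rw [map_mul, Pi.smul_apply]
      refine Eq.trans ?_ (Algebra.smul_def (A := L) (b j) (M.row j l)).symm
      rw [← ha j]
      rfl
    have h4 : ∑ j, a j * g j ∈ 𝔭 := Ideal.sum_mem _ fun j _ => 𝔭.mul_mem_left _ (hg j)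
    have h5 : ∀ l, pderiv l (∑ j, a j * g j) ∈ 𝔭 := by
      intro l
      rw [map_sum]
      have : ∑ j, pderiv l (a j * g j) = ∑ j, a j * pderiv l (g j) +
          ∑ j, g j * pderiv l (a j) := by
        rw [← Finset.sum_add_distrib]
        refine Finset.sum_congr rfl fun j _ => ?_
        rw [Derivation.leibniz, smul_eq_mul, smul_eq_mul]
      rw [this]
      exact 𝔭.add_mem (h2 l) (Ideal.sum_mem _ fun j _ => 𝔭.mul_mem_right _ (hg j))
    obtain ⟨z, hz, hz2⟩ := mem_sq_of_pderiv (K := K) hp h0 h4 h5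
    intro j
    rw [← ha j, Ideal.Quotient.eq_zero_iff_mem]
    exact h1 z a hz hz2 j
  obtain ⟨s, hs, hdet⟩ := f4_minor M hM
  refine ⟨s, hs, fun h => hdet ?_⟩
  rw [← hφ] at h
  rw [← h, RingHom.map_det]
  rfl

/-- The indices outside the complement of the range of an injective map. -/
theorem f5_equiv {σ : Type} [Fintype σ] [DecidableEq σ] {c : ℕ} {s : Fin c → σ}
    (hs : Function.Injective s) : ∃ (T : Finset σ) (e : {l : σ // l ∉ T} ≃ Fin c),
      ∀ l, s (e l) = l.1 := by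
  classical
  have hT : ∀ l : σ, l ∉ (Finset.univ.image s)ᶜ ↔ l ∈ Set.range s := by
    intro l
    simp
  refine ⟨(Finset.univ.image s)ᶜ,
    (Equiv.subtypeEquivRight hT).trans (Equiv.ofInjective s hs).symm, fun l => ?_⟩
  rw [Equiv.trans_apply, Equiv.apply_ofInjective_symm hs]
  rfl

/-- Assembly of F2 to F4: `T` is the complement of the range of `s`, and the equations
are indexed by `{l // l ∉ T}` via `s`. -/
theorem exists_std {R K : Type} [CommRing R] [IsDomain R] [IsRegularRing R] [Field K] [Algebra R K]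
    [IsFractionRing R K] [PerfectField K] {σ : Type} [Fintype σ] [DecidableEq σ]
    {I 𝔭 : Ideal (MvPolynomial σ R)} (hp : 𝔭.IsPrime) (hI : I ≤ 𝔭)
    (h0 : ∀ c : R, C c ∈ 𝔭 → c = 0) {B : Type} [CommRing B] [IsRegularLocalRing B]
    {f : MvPolynomial σ R →+* B} (hB : IsLocAt I 𝔭 f) :
    ∃ U : Std R σ, U.For I ∧ U.h ∉ 𝔭 := by
  obtain ⟨c, g, hg, h1, h2⟩ := exists_basis hp hI
  obtain ⟨z, hz, hzI⟩ := exists_mul_le hp hI hB hg h1 h2
  obtain ⟨s, hs, hdet⟩ := exists_minor (K := K) hp h0 (fun j => hI (hg j)) h1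
  obtain ⟨T, e, he⟩ := f5_equiv hs
  let U : Std R σ := ⟨T, fun l => g (e l), z⟩
  have hJ : U.J = (Matrix.of fun j j' => pderiv (s j') (g j)).submatrix e e := by
    refine Matrix.ext fun κ l => ?_
    change pderiv l.1 (g (e κ)) = pderiv (s (e l)) (g (e κ))
    rw [he l]
  have hΔ : U.Δ = (Matrix.of fun j j' => pderiv (s j') (g j)).det := by
    rw [Std.Δ, hJ, Matrix.det_submatrix_equiv_self]
  have hrange : Set.range U.g = Set.range g := by
    change Set.range (g ∘ e) = Set.range g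
    rw [e.surjective.range_comp]
  refine ⟨U, ⟨fun κ => hg (e κ), fun f hf => ?_⟩, ?_⟩
  · rw [hrange]
    exact hzI f hf
  · rw [Std.h, hΔ]
    intro h
    rcases hp.mem_or_mem h with h3 | h3
    · exact hz h3
    · exact hdet h3

/-- Let `N` be the ideal generated by `I` and the `h` of all charts for `I`. If it meets
the constants only in `0`, it lies in a prime ideal `𝔭` with the same property
(`Ideal.exists_le_prime_disjoint`), in contradiction to `exists_std`. -/
theorem exists_cover {R K : Type} [CommRing R] [IsDomain R] [IsRegularRing R] [Field K]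
    [Algebra R K] [IsFractionRing R K] [PerfectField K] {σ : Type} [Fintype σ] [DecidableEq σ]
    {I : Ideal (MvPolynomial σ R)}
    (h : ∀ 𝔭 : Ideal (MvPolynomial σ R), 𝔭.IsPrime → I ≤ 𝔭 → (∀ c : R, C c ∈ 𝔭 → c = 0) →
      ∃ (B : Type) (_ : CommRing B) (f : MvPolynomial σ R →+* B), IsLocAt I 𝔭 f ∧
        IsRegularLocalRing B) :
    ∃ (τ : Type) (_ : Fintype τ) (U : τ → Std R σ) (m₀ : R), m₀ ≠ 0 ∧ (∀ t, (U t).For I) ∧
      C m₀ ∈ I ⊔ Ideal.span (Set.range fun t => (U t).h) := by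
  classical
  let S : Set (MvPolynomial σ R) := {x | ∃ U : Std R σ, U.For I ∧ U.h = x}
  let M : Submonoid (MvPolynomial σ R) := (nonZeroDivisors R).map (C : R →+* MvPolynomial σ R)
  have key : ¬ Disjoint ((I ⊔ Ideal.span S : Ideal (MvPolynomial σ R)) : Set (MvPolynomial σ R))
      (M : Set (MvPolynomial σ R)) := by
    intro hdis
    obtain ⟨𝔭, hp, hle, hd⟩ := Ideal.exists_le_prime_disjoint (I ⊔ Ideal.span S) M hdis
    have h0 : ∀ c : R, C c ∈ 𝔭 → c = 0 := by
      intro c hc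
      by_contra hne
      exact Set.disjoint_left.1 hd hc ⟨c, mem_nonZeroDivisors_of_ne_zero hne, rfl⟩
    obtain ⟨B, _, f, hB, hreg⟩ := h 𝔭 hp (le_sup_left.trans hle) h0
    obtain ⟨U, hU, hU2⟩ := exists_std (K := K) hp (le_sup_left.trans hle) h0 hB
    exact hU2 (hle (Ideal.mem_sup_right (Ideal.subset_span ⟨U, hU, rfl⟩)))
  rw [Set.not_disjoint_iff] at key
  obtain ⟨x, hx, ⟨c, hc, rfl⟩⟩ := key
  obtain ⟨y, hy, z, hz, hyz⟩ := Submodule.mem_sup.1 hx
  obtain ⟨t, ht, hzt⟩ := Submodule.mem_span_finite_of_mem_span hz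
  choose U hU hU2 using fun s : t => ht s.2
  refine ⟨t, inferInstance, U, c, nonZeroDivisors.ne_zero hc, hU, ?_⟩
  have h1 : (Set.range fun s => (U s).h) = (t : Set (MvPolynomial σ R)) := by
    ext s
    constructor
    · rintro ⟨s, rfl⟩
      change (U s).h ∈ _
      rw [hU2 s]; exact s.2
    · intro hs
      exact ⟨⟨s, hs⟩, hU2 _⟩
  rw [h1]
  change C c ∈ _
  rw [show (C c : MvPolynomial σ R) = y + z from hyz.symm]
  exact Submodule.add_mem_sup hy hzt

/-- The local ring of an integral closed subscheme at its generic point is its function field. -/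
theorem f7_isLocAt {A : Type} [CommRing A] {I : Ideal A} (hI : I.IsPrime) :
    IsLocAt I I ((algebraMap (A ⧸ I) (FractionRing (A ⧸ I))).comp (Ideal.Quotient.mk I)) := by
  have h0 : ∀ x, (algebraMap (A ⧸ I) (FractionRing (A ⧸ I))).comp (Ideal.Quotient.mk I) x = 0 ↔
      x ∈ I := by
    intro x
    rw [RingHom.comp_apply, map_eq_zero_iff _ (IsFractionRing.injective (A ⧸ I) _),
      Ideal.Quotient.eq_zero_iff_mem]
  refine ⟨fun x => ?_, fun y => ?_, fun x => ?_⟩
  · rw [isUnit_iff_ne_zero, ne_eq, h0]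
  · obtain ⟨a, s, hs, rfl⟩ := IsFractionRing.div_surjective (A := A ⧸ I) y
    obtain ⟨a, rfl⟩ := Ideal.Quotient.mk_surjective a
    obtain ⟨s, rfl⟩ := Ideal.Quotient.mk_surjective s
    have hs0 : algebraMap (A ⧸ I) (FractionRing (A ⧸ I)) (Ideal.Quotient.mk I s) ≠ 0 := by
      rw [ne_eq, map_eq_zero_iff _ (IsFractionRing.injective (A ⧸ I) _)]
      exact nonZeroDivisors.ne_zero hs
    refine ⟨a, s, ?_, ?_⟩
    · intro h
      exact hs0 ((h0 s).2 h)
    · rw [RingHom.comp_apply, RingHom.comp_apply, div_mul_cancel₀ _ hs0]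
  · rw [h0]
    constructor
    · intro h
      exact ⟨1, fun h1 => hI.ne_top ((Ideal.eq_top_iff_one _).2 h1), by rwa [one_mul]⟩
    · rintro ⟨z, hz, h⟩
      exact (hI.mem_or_mem h).resolve_left hz

/-- **Stratification.** By Noetherian induction on `I`. If `I = ⊤`, take the empty family.
If `I ≠ ⊤` is not prime, take `a b ∉ I` with `a * b ∈ I` and the union of the families for
`I ⊔ (a)` and `I ⊔ (b)`. If `I` is prime, there is by `exists_std` (the local ring at `I` of the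
closed subscheme is a field) a chart for `I` with `h ∉ I`; add it to the family of `I ⊔ (h)`. -/
theorem exists_strat {k σ : Type} [Field k] [PerfectField k] [Fintype σ] [DecidableEq σ]
    (I : Ideal (MvPolynomial σ k)) :
    ∃ (τ : Type) (_ : Fintype τ) (V : τ → Std k σ) (𝔭 : τ → Ideal (MvPolynomial σ k)),
      (∀ t, (V t).For (𝔭 t) ∧ I ≤ 𝔭 t) ∧
      ∀ 𝔮 : Ideal (MvPolynomial σ k), 𝔮.IsPrime → I ≤ 𝔮 → ∃ t, 𝔭 t ≤ 𝔮 ∧ (V t).h ∉ 𝔮 := by
  classical
  refine IsNoetherian.induction (R := MvPolynomial σ k) (P := fun I : Ideal (MvPolynomial σ k) =>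
    ∃ (τ : Type) (_ : Fintype τ) (V : τ → Std k σ) (𝔭 : τ → Ideal (MvPolynomial σ k)),
      (∀ t, (V t).For (𝔭 t) ∧ I ≤ 𝔭 t) ∧
      ∀ 𝔮 : Ideal (MvPolynomial σ k), 𝔮.IsPrime → I ≤ 𝔮 → ∃ t, 𝔭 t ≤ 𝔮 ∧ (V t).h ∉ 𝔮) ?_ I
  clear I
  intro (I : Ideal (MvPolynomial σ k)) ih
  by_cases hp : I.IsPrime
  · have hdom : IsDomain (MvPolynomial σ k ⧸ I) := Ideal.Quotient.isDomain I
    have h0 : ∀ c : k, C c ∈ I → c = 0 := by
      intro c hc
      by_contra hne
      exact hp.ne_top (Ideal.eq_top_of_isUnit_mem _ hc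
        ((Ne.isUnit hne).map (C : k →+* MvPolynomial σ k)))
    obtain ⟨U, hU, hU2⟩ := exists_std (K := k) hp le_rfl h0 (f7_isLocAt hp)
    have hlt : I < I ⊔ Ideal.span {U.h} := by
      refine lt_of_le_of_ne le_sup_left fun h => hU2 ?_
      rw [h]
      exact Ideal.mem_sup_right (Ideal.mem_span_singleton_self _)
    obtain ⟨τ, _, V, 𝔭, hV, hcov⟩ := ih _ hlt
    refine ⟨Option τ, inferInstance, fun t => t.elim U V, fun t => t.elim I 𝔭, ?_, ?_⟩
    · rintro (_ | t)
      · exact ⟨hU, le_rfl⟩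
      · exact ⟨(hV t).1, le_sup_left.trans (hV t).2⟩
    · intro 𝔮 h𝔮 hI
      by_cases hh : U.h ∈ 𝔮
      · obtain ⟨t, ht, ht2⟩ := hcov 𝔮 h𝔮 (sup_le hI (by
          rw [Ideal.span_le, Set.singleton_subset_iff]; exact hh))
        exact ⟨some t, ht, ht2⟩
      · exact ⟨none, hI, hh⟩
  · by_cases htop : I = ⊤
    · refine ⟨Empty, inferInstance, fun t => t.elim, fun t => t.elim, fun t => t.elim, ?_⟩
      intro 𝔮 h𝔮 hI
      rw [htop, top_le_iff] at hI
      exact absurd hI h𝔮.ne_top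
    · have : ∃ a b, a ∉ I ∧ b ∉ I ∧ a * b ∈ I := by
        by_contra hcon
        push Not at hcon
        refine hp ⟨htop, fun {a b} hab => ?_⟩
        by_contra hne
        push Not at hne
        exact hcon a b hne.1 hne.2 hab
      obtain ⟨a, b, ha, hb, hab⟩ := this
      have hlt : ∀ x, x ∉ I → I < I ⊔ Ideal.span {x} := by
        intro x hx
        refine lt_of_le_of_ne le_sup_left fun h => hx ?_
        rw [h]
        exact Ideal.mem_sup_right (Ideal.mem_span_singleton_self _)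
      obtain ⟨τ₁, _, V₁, 𝔭₁, hV₁, hcov₁⟩ := ih _ (hlt a ha)
      obtain ⟨τ₂, _, V₂, 𝔭₂, hV₂, hcov₂⟩ := ih _ (hlt b hb)
      refine ⟨τ₁ ⊕ τ₂, inferInstance, Sum.elim V₁ V₂, Sum.elim 𝔭₁ 𝔭₂, ?_, ?_⟩
      · rintro (t | t)
        · exact ⟨(hV₁ t).1, le_sup_left.trans (hV₁ t).2⟩
        · exact ⟨(hV₂ t).1, le_sup_left.trans (hV₂ t).2⟩
      · intro 𝔮 h𝔮 hI
        rcases h𝔮.mem_or_mem (hI hab) with h | h
        · obtain ⟨t, ht, ht2⟩ := hcov₁ 𝔮 h𝔮 (sup_le hI (by
            rw [Ideal.span_le, Set.singleton_subset_iff]; exact h))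
          exact ⟨Sum.inl t, ht, ht2⟩
        · obtain ⟨t, ht, ht2⟩ := hcov₂ 𝔮 h𝔮 (sup_le hI (by
            rw [Ideal.span_le, Set.singleton_subset_iff]; exact h))
          exact ⟨Sum.inr t, ht, ht2⟩

end Pool.Agent.Lib.MP_6a3dac_ag.Bert
end

section

/-!
# Points of projective schemes and prime ideals of the affine charts
-/

set_option autoImplicit false

namespace Pool.Agent.Lib.MP_6a3dac_ag.Bert

open MvPolynomial CategoryTheory Limits AlgebraicGeometry NumberField IsDedekindDomain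
open Pool.Agent.Lib.MP_6a3dac_ag.DNF

/-- The homogeneous prime ideal of the polynomial ring of a point of `Proj`. -/
noncomputable def ptIdeal {O : Type} [CommRing O] {n : ℕ} (I : HomIdeal O (n + 1)) (y : hProj I) :
    Ideal (MvPolynomial (Fin (n + 1)) O) :=
  ((show ProjectiveSpectrum (hGr I) from y).asHomogeneousIdeal.toIdeal).comap (hMk I)

/-- The prime ideal `𝔮` of the affine chart corresponds to the point `y`. -/
def AtPt {O : Type} [CommRing O] {n : ℕ} (I : HomIdeal O (n + 1)) (y : hProj I) (i : Fin (n + 1))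
    (𝔮 : Ideal (MvPolynomial {l : Fin (n + 1) // l ≠ i} O)) : Prop :=
  𝔮.IsPrime ∧ dId I i ≤ 𝔮 ∧ ∀ (k : ℕ) (G : MvPolynomial (Fin (n + 1)) O), G.IsHomogeneous k →
    (dehom i G ∈ 𝔮 ↔ G ∈ ptIdeal I y)

section

variable {O : Type} [CommRing O] {n : ℕ} (I : HomIdeal O (n + 1))

theorem g1_mem_hGr {f : MvPolynomial (Fin (n + 1)) O} {k : ℕ} (hf : f.IsHomogeneous k) :
    hMk I f ∈ hGr I k :=
  Submodule.mem_map_of_mem ((mem_homogeneousSubmodule k f).2 hf)

theorem g1_decompose (f : MvPolynomial (Fin (n + 1)) O) (k : ℕ) :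
    ((DirectSum.decompose (hGr I) (hMk I f) k : hGr I k) : HCoord I) =
      hMk I (homogeneousComponent k f) := by
  classical
  have key : ∀ i : ℕ,
      ((DirectSum.decompose (hGr I) (hMk I (homogeneousComponent i f)) k : hGr I k) :
        HCoord I) = if i = k then hMk I (homogeneousComponent k f) else 0 := by
    intro i
    have hi := g1_mem_hGr I (homogeneousComponent_isHomogeneous i f)
    split_ifs with h
    · subst h
      exact DirectSum.decompose_of_mem_same _ hi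
    · exact DirectSum.decompose_of_mem_ne _ hi h
  conv_lhs => rw [← sum_homogeneousComponent f]
  rw [map_sum, DirectSum.decompose_sum, DFinsupp.finsetSum_apply,
    AddSubmonoidClass.coe_finsetSum, Finset.sum_congr rfl (fun i _ => key i),
    Finset.sum_ite_eq']
  split_ifs with h
  · rfl
  · rw [Finset.mem_range, not_lt] at h
    rw [homogeneousComponent_eq_zero _ _ (by omega), map_zero]

theorem g1_hMk_surjective : Function.Surjective (hMk I) := Ideal.Quotient.mk_surjective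

/-- `ptIdeal I y` is a prime ideal which contains `I`, contains the homogeneous components
of its elements, and does not contain all `X i`. -/
theorem ptIdeal_spec (y : hProj I) : (ptIdeal I y).IsPrime ∧ I.ideal ≤ ptIdeal I y ∧
    (∀ f ∈ ptIdeal I y, ∀ k, homogeneousComponent k f ∈ ptIdeal I y) ∧
      ∃ i, X i ∉ ptIdeal I y := by
  set z : ProjectiveSpectrum (hGr I) := y with hz
  have hpr : z.asHomogeneousIdeal.toIdeal.IsPrime := z.isPrime
  refine ⟨?_, ?_, ?_, ?_⟩
  · exact Ideal.IsPrime.comap (hMk I) (K := z.asHomogeneousIdeal.toIdeal)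
  · intro f hf
    change hMk I f ∈ z.asHomogeneousIdeal.toIdeal
    have h0 : hMk I f = 0 := Ideal.Quotient.eq_zero_iff_mem.2 hf
    rw [h0]
    exact Ideal.zero_mem _
  · intro f hf k
    change hMk I (homogeneousComponent k f) ∈ z.asHomogeneousIdeal.toIdeal
    have hf' : hMk I f ∈ z.asHomogeneousIdeal.toIdeal := hf
    rw [← g1_decompose]
    exact z.asHomogeneousIdeal.isHomogeneous k hf'
  · by_contra hcon
    push Not at hcon
    apply z.not_irrelevant_le
    change (HomogeneousIdeal.irrelevant (hGr I)).toIdeal ≤ z.asHomogeneousIdeal.toIdeal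
    rw [HomogeneousIdeal.toIdeal_irrelevant_le]
    intro k hk a ha
    obtain ⟨f, hf, rfl⟩ := ha
    have hf' : f.IsHomogeneous k := (mem_homogeneousSubmodule k f).1 hf
    change f ∈ ptIdeal I y
    rw [f.as_sum]
    refine Ideal.sum_mem _ fun m hm => ?_
    have hdeg : m.degree = k := by
      have := hf' (mem_support_iff.1 hm)
      rw [Finsupp.degree_eq_weight_one]
      exact this
    have hm0 : m ≠ 0 := by
      rintro rfl
      simp at hdeg
      omega
    obtain ⟨i, hi⟩ := Finsupp.ne_iff.1 hm0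
    have h1 : monomial m (coeff m f) =
        monomial (m - Finsupp.single i 1) (coeff m f) * X i := by
      rw [X, monomial_mul, mul_one, tsub_add_cancel_of_le]
      rw [Finsupp.single_le_iff]
      simp only [Finsupp.coe_zero, Pi.zero_apply] at hi
      omega
    rw [h1]
    exact Ideal.mul_mem_left _ _ (hcon i)

/-- Two points with the same ideal are equal. -/
theorem ptIdeal_injective : Function.Injective (ptIdeal I) := by
  intro y y' h
  have h1 := Ideal.comap_injective_of_surjective (hMk I) (g1_hMk_surjective I) h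
  apply ProjectiveSpectrum.ext
  apply HomogeneousIdeal.toIdeal_injective
  exact h1

/-- Take the homogeneous ideal generated by the homogeneous `G` with `dehom i G ∈ 𝔮`; its
homogeneous elements are the `G` with `dehom i G ∈ 𝔮`. -/
theorem exists_pt (i : Fin (n + 1)) {𝔮 : Ideal (MvPolynomial {l : Fin (n + 1) // l ≠ i} O)}
    (h𝔮 : 𝔮.IsPrime) (hI : dId I i ≤ 𝔮) : ∃ y, AtPt I y i 𝔮 := by
  have hsurj : Function.Surjective (hMk I) := Ideal.Quotient.mk_surjective
  set P : Ideal (MvPolynomial (Fin (n + 1)) O) := 𝔮.comap (dehom i) with hP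
  have hPpr : P.IsPrime := Ideal.IsPrime.comap (dehom i) (K := 𝔮)
  have hIP : I.ideal ≤ P := by
    rw [hP, ← Ideal.map_le_iff_le_comap]
    exact hI
  have hker : RingHom.ker (hMk I) ≤ P := by
    intro f hf
    refine hIP ?_
    rw [RingHom.mem_ker] at hf
    exact Ideal.Quotient.eq_zero_iff_mem.1 hf
  have hmem : ∀ G, hMk I G ∈ P.map (hMk I) ↔ G ∈ P := by
    intro G
    have h1 : (P.map (hMk I)).comap (hMk I) = P := by
      rw [Ideal.comap_map_of_surjective' (hMk I) hsurj]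
      exact sup_eq_left.2 hker
    conv_rhs => rw [← h1]
    rfl
  have hPm : (P.map (hMk I)).IsPrime := Ideal.map_isPrime_of_surjective hsurj hker
  have hhom : ∀ (k : ℕ) (G : MvPolynomial (Fin (n + 1)) O), G.IsHomogeneous k →
      hMk I G ∈ hGr I k := fun k G hG =>
    Submodule.mem_map_of_mem ((mem_homogeneousSubmodule k G).2 hG)
  let J : HomogeneousIdeal (hGr I) := (P.map (hMk I)).homogeneousCore (hGr I)
  have hJ : ∀ (k : ℕ) (G : MvPolynomial (Fin (n + 1)) O), G.IsHomogeneous k →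
      (hMk I G ∈ J.toIdeal ↔ dehom i G ∈ 𝔮) := by
    intro k G hG
    constructor
    · intro h
      exact (hmem G).1 (Ideal.toIdeal_homogeneousCore_le _ _ h)
    · intro h
      exact Ideal.mem_homogeneousCore_of_homogeneous_of_mem ⟨k, hhom k G hG⟩
        ((hmem G).2 h)
  have hirr : ¬ HomogeneousIdeal.irrelevant (hGr I) ≤ J := by
    intro hle
    have h1 : hMk I (X i) ∈ HomogeneousIdeal.irrelevant (hGr I) := by
      rw [HomogeneousIdeal.mem_irrelevant_iff, GradedRing.proj_apply]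
      rw [DirectSum.decompose_of_mem_ne (hGr I) (hhom 1 _ (isHomogeneous_X O i)) one_ne_zero]
    have h2 : dehom i (X i : MvPolynomial (Fin (n + 1)) O) ∈ 𝔮 :=
      (hJ 1 _ (isHomogeneous_X O i)).1 (hle h1)
    rw [dehom_X_self] at h2
    exact h𝔮.one_notMem h2
  let z : ProjectiveSpectrum (hGr I) := ⟨J, hPm.homogeneousCore, hirr⟩
  refine ⟨z, h𝔮, hI, fun k G hG => ?_⟩
  rw [← hJ k G hG]
  exact Iff.rfl

theorem g3_eval₂_smul {O T : Type} [CommRing O] [CommRing T] {n : ℕ} (f : O →+* T) (u : T)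
    (y : Fin n → T) {P : MvPolynomial (Fin n) O} {d : ℕ} (hP : P.IsHomogeneous d) :
    eval₂ f (fun k => u * y k) P = u ^ d * eval₂ f y P := by
  rw [eval₂_eq', eval₂_eq', Finset.mul_sum]
  refine Finset.sum_congr rfl fun m hm => ?_
  have h1 : ∑ i, m i = d := by
    have := hP (mem_support_iff.mp hm)
    rw [Finsupp.weight_apply, Finsupp.sum_fintype _ _ (fun _ => by simp)] at this
    simpa using this
  simp only [mul_pow]
  rw [Finset.prod_mul_distrib, Finset.prod_pow_eq_pow_sum, h1]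
  ring

/-- The homogenization `X l ↦ X l / X i`. -/
noncomputable def g3_theta {O : Type} [CommRing O] {n : ℕ} (i : Fin (n + 1)) :
    MvPolynomial {l : Fin (n + 1) // l ≠ i} O →+*
      Localization.Away (X i : MvPolynomial (Fin (n + 1)) O) :=
  eval₂Hom ((algebraMap (MvPolynomial (Fin (n + 1)) O)
      (Localization.Away (X i : MvPolynomial (Fin (n + 1)) O))).comp C)
    fun l => IsLocalization.Away.invSelf (X i : MvPolynomial (Fin (n + 1)) O) *
      algebraMap (MvPolynomial (Fin (n + 1)) O)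
        (Localization.Away (X i : MvPolynomial (Fin (n + 1)) O)) (X l.1)

theorem g3_theta_dehom {O : Type} [CommRing O] {n : ℕ} (i : Fin (n + 1))
    {G : MvPolynomial (Fin (n + 1)) O} {k : ℕ} (hG : G.IsHomogeneous k) :
    g3_theta i (dehom i G) =
      IsLocalization.Away.invSelf (X i : MvPolynomial (Fin (n + 1)) O) ^ k *
        algebraMap (MvPolynomial (Fin (n + 1)) O)
          (Localization.Away (X i : MvPolynomial (Fin (n + 1)) O)) G := by
  set u := IsLocalization.Away.invSelf (S := Localization.Away (X i : MvPolynomial (Fin (n + 1)) O))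
    (X i : MvPolynomial (Fin (n + 1)) O) with hu
  set ι := algebraMap (MvPolynomial (Fin (n + 1)) O)
    (Localization.Away (X i : MvPolynomial (Fin (n + 1)) O)) with hι
  have hu1 : u * ι (X i) = 1 := by
    rw [mul_comm]
    exact IsLocalization.Away.mul_invSelf _
  have h1 : (g3_theta i).comp (dehom i).toRingHom =
      eval₂Hom (ι.comp C) (fun l => u * ι (X l)) := by
    apply MvPolynomial.ringHom_ext
    · intro r
      change g3_theta i (dehom i (C r)) = _
      rw [dehom_C, g3_theta, coe_eval₂Hom, coe_eval₂Hom, eval₂_C, eval₂_C]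
    · intro l
      change g3_theta i (dehom i (X l)) = _
      rw [coe_eval₂Hom, eval₂_X]
      by_cases h : l = i
      · subst h
        rw [dehom_X_self, map_one, hu1]
      · have h2 := dehom_X (O := O) i ⟨l, h⟩
        simp only at h2
        rw [h2, g3_theta, coe_eval₂Hom, eval₂_X]
  have h2 : g3_theta i (dehom i G) = ((g3_theta i).comp (dehom i).toRingHom) G := rfl
  rw [h2, h1, coe_eval₂Hom, g3_eval₂_smul _ _ _ hG]
  congr 1
  have h3 : (eval₂Hom (ι.comp C) fun l => ι (X l)) = ι := by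
    apply MvPolynomial.ringHom_ext
    · intro r
      rw [coe_eval₂Hom, eval₂_C]
      rfl
    · intro l
      rw [coe_eval₂Hom, eval₂_X]
  exact congrArg (fun f => f G) h3

theorem g3_isUnit_inv {O : Type} [CommRing O] {n : ℕ} (i : Fin (n + 1)) :
    IsUnit (IsLocalization.Away.invSelf (S := Localization.Away (X i : MvPolynomial (Fin (n + 1)) O))
      (X i : MvPolynomial (Fin (n + 1)) O)) := by
  refine IsUnit.of_mul_eq_one (algebraMap _ _ (X i : MvPolynomial (Fin (n + 1)) O)) ?_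
  rw [mul_comm]
  exact IsLocalization.Away.mul_invSelf _

theorem g3_theta_mem_iff {O : Type} [CommRing O] {n : ℕ} (i : Fin (n + 1))
    {G : MvPolynomial (Fin (n + 1)) O} {k : ℕ} (hG : G.IsHomogeneous k)
    (J : Ideal (MvPolynomial (Fin (n + 1)) O)) :
    g3_theta i (dehom i G) ∈ J.map (algebraMap (MvPolynomial (Fin (n + 1)) O)
          (Localization.Away (X i : MvPolynomial (Fin (n + 1)) O))) ↔
      ∃ N : ℕ, X i ^ N * G ∈ J := by
  rw [g3_theta_dehom i hG, Ideal.unit_mul_mem_iff_mem _ ((g3_isUnit_inv i).pow k),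
    IsLocalization.algebraMap_mem_map_algebraMap_iff
      (Submonoid.powers (X i : MvPolynomial (Fin (n + 1)) O))]
  constructor
  · rintro ⟨_, ⟨N, rfl⟩, h⟩
    exact ⟨N, h⟩
  · rintro ⟨N, h⟩
    exact ⟨_, ⟨N, rfl⟩, h⟩

/-- Take `𝔮 = (ptIdeal I y).map (dehom i)` for some `i` with `X i ∉ ptIdeal I y`; if
`dehom i G = dehom i G'` for homogeneous `G`, `G'`, then `X i ^ k * G = X i ^ k' * G'`. -/
theorem exists_atPt (y : hProj I) : ∃ i 𝔮, AtPt I y i 𝔮 := by
  obtain ⟨hpr, hI, hhom, i, hi⟩ := ptIdeal_spec I y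
  have hdis : Disjoint (Submonoid.powers (X i : MvPolynomial (Fin (n + 1)) O) :
      Set (MvPolynomial (Fin (n + 1)) O)) (ptIdeal I y) := by
    rw [Ideal.disjoint_powers_iff_notMem_of_isPrime]
    exact hi
  have hpr' : ((ptIdeal I y).map (algebraMap (MvPolynomial (Fin (n + 1)) O)
      (Localization.Away (X i : MvPolynomial (Fin (n + 1)) O)))).IsPrime :=
    IsLocalization.isPrime_of_isPrime_disjoint
      (Submonoid.powers (X i : MvPolynomial (Fin (n + 1)) O)) _ _ hpr hdis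
  have hkey : ∀ (k : ℕ) (G : MvPolynomial (Fin (n + 1)) O), G.IsHomogeneous k →
      (dehom i G ∈ ((ptIdeal I y).map (algebraMap (MvPolynomial (Fin (n + 1)) O)
        (Localization.Away (X i : MvPolynomial (Fin (n + 1)) O)))).comap (g3_theta i) ↔
          G ∈ ptIdeal I y) := by
    intro k G hG
    rw [Ideal.mem_comap, g3_theta_mem_iff i hG]
    constructor
    · rintro ⟨N, h⟩
      exact (hpr.mem_or_mem h).resolve_left fun h' => hi (hpr.mem_of_pow_mem _ h')
    · intro h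
      exact ⟨0, by rwa [pow_zero, one_mul]⟩
  refine ⟨i, _, Ideal.comap_isPrime (g3_theta i) _, ?_, hkey⟩
  rw [dId, Ideal.map_le_iff_le_comap]
  intro f hf
  rw [Ideal.mem_comap, ← sum_homogeneousComponent f, map_sum]
  refine Ideal.sum_mem _ fun j _ => ?_
  rw [hkey j _ (homogeneousComponent_isHomogeneous j f)]
  exact hI (I.homog f hf j)

theorem AtPt.pt_unique {i : Fin (n + 1)}
    {𝔮 : Ideal (MvPolynomial {l : Fin (n + 1) // l ≠ i} O)} {y y' : hProj I}
    (h : AtPt I y i 𝔮) (h' : AtPt I y' i 𝔮) : y = y' := by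
  apply ptIdeal_injective I
  have key : ∀ (y y' : hProj I), AtPt I y i 𝔮 → AtPt I y' i 𝔮 → ptIdeal I y ≤ ptIdeal I y' := by
    intro y y' h h' f hf
    rw [← sum_homogeneousComponent f]
    refine Ideal.sum_mem _ fun j _ => ?_
    rw [← h'.2.2 j _ (homogeneousComponent_isHomogeneous j f),
      h.2.2 j _ (homogeneousComponent_isHomogeneous j f)]
    exact (ptIdeal_spec I y).2.2.1 f hf j
  exact le_antisymm (key y y' h h') (key y' y h' h)

/-- An element of the affine chart is the dehomogenization of a homogeneous polynomial. -/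
theorem AtPt.ideal_unique {i : Fin (n + 1)}
    {𝔮 𝔮' : Ideal (MvPolynomial {l : Fin (n + 1) // l ≠ i} O)} {y : hProj I}
    (h : AtPt I y i 𝔮) (h' : AtPt I y i 𝔮') : 𝔮 = 𝔮' := by
  ext g
  obtain ⟨N, G, hG, rfl⟩ := exists_homog i g
  rw [h.2.2 N G hG, h'.2.2 N G hG]

section G5aux

theorem g5_eval₂_smul {O T : Type} [CommRing O] [CommRing T] {n : ℕ} (f : O →+* T) (u : T)
    (y : Fin n → T) {P : MvPolynomial (Fin n) O} {d : ℕ} (hP : P.IsHomogeneous d) :
    eval₂ f (fun k => u * y k) P = u ^ d * eval₂ f y P := by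
  rw [eval₂_eq', eval₂_eq', Finset.mul_sum]
  refine Finset.sum_congr rfl fun m hm => ?_
  have h1 : ∑ i, m i = d := by
    have := hP (mem_support_iff.mp hm)
    rw [Finsupp.weight_apply, Finsupp.sum_fintype _ _ (fun _ => by simp)] at this
    simpa using this
  simp only [mul_pow]
  rw [Finset.prod_mul_distrib, Finset.prod_pow_eq_pow_sum, h1]
  ring

theorem g5_component_mul {O : Type} [CommRing O] {n : ℕ} (S : MvPolynomial (Fin n) O)
    {G : MvPolynomial (Fin n) O} {N : ℕ} (hG : G.IsHomogeneous N) (j : ℕ) :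
    homogeneousComponent (j + N) (S * G) = homogeneousComponent j S * G := by
  have h0 : ∀ l : ℕ, homogeneousComponent (j + N) (homogeneousComponent l S * G) =
      if l = j then homogeneousComponent l S * G else 0 := by
    intro l
    have h1 : homogeneousComponent l S * G ∈ homogeneousSubmodule (Fin n) O (l + N) :=
      (homogeneousComponent_isHomogeneous l S).mul hG
    rw [homogeneousComponent_of_mem h1]
    by_cases h : l = j
    · rw [if_pos h, if_pos (by omega)]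
    · rw [if_neg h, if_neg (by omega)]
  conv_lhs => rw [← sum_homogeneousComponent S]
  rw [Finset.sum_mul, map_sum]
  simp only [h0]
  rw [Finset.sum_ite_eq']
  split_ifs with h
  · rfl
  · rw [homogeneousComponent_eq_zero, zero_mul]
    simpa using h

variable {S : Type} [CommRing S] [Algebra O S] (𝒮 : ℕ → Submodule O S) [GradedAlgebra 𝒮]
  (π : MvPolynomial (Fin (n + 1)) O →ₐ[O] S)
  (hπ : ∀ (k : ℕ) (G : MvPolynomial (Fin (n + 1)) O), G.IsHomogeneous k → π G ∈ 𝒮 k)
  (𝔭 : Ideal S) [𝔭.IsPrime] {i : Fin (n + 1)} (hi : π (X i) ∉ 𝔭)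

/-- The fraction `x l / x i`. -/
noncomputable def g5_x (l : Fin (n + 1)) : HomogeneousLocalization.AtPrime 𝒮 𝔭 :=
  HomogeneousLocalization.mk ⟨1, ⟨π (X l), hπ 1 _ (isHomogeneous_X _ l)⟩,
    ⟨π (X i), hπ 1 _ (isHomogeneous_X _ i)⟩, hi⟩

/-- The map from the chart. -/
noncomputable def g5_f : MvPolynomial {l : Fin (n + 1) // l ≠ i} O →+*
    HomogeneousLocalization.AtPrime 𝒮 𝔭 :=
  eval₂Hom ((HomogeneousLocalization.fromZeroRingHom 𝒮 𝔭.primeCompl).comp
    (algebraMap O (𝒮 0))) fun l => g5_x 𝒮 π hπ 𝔭 hi l.1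

/-- The inverse of `x i`. -/
noncomputable def g5_u : Localization.AtPrime 𝔭 :=
  Localization.mk 1 ⟨π (X i), hi⟩

theorem g5_u_mul : g5_u π 𝔭 hi * algebraMap S (Localization.AtPrime 𝔭) (π (X i)) = 1 := by
  rw [g5_u, ← Localization.mk_one_eq_algebraMap, Localization.mk_mul]
  have h : (1 : S) * π (X i) =
      (((⟨π (X i), hi⟩ : 𝔭.primeCompl) * 1 : 𝔭.primeCompl) : S) := by
    simp
  rw [h]
  exact Localization.mk_self _

omit [GradedAlgebra 𝒮] in
theorem g5_val_x (l : Fin (n + 1)) : (g5_x 𝒮 π hπ 𝔭 hi l).val = g5_u π 𝔭 hi *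
    algebraMap S (Localization.AtPrime 𝔭) (π (X l)) := by
  rw [g5_x, HomogeneousLocalization.val_mk, g5_u, ← Localization.mk_one_eq_algebraMap,
    Localization.mk_mul, one_mul, mul_one]

theorem g5_val_C (r : O) : (HomogeneousLocalization.fromZeroRingHom 𝒮 𝔭.primeCompl
    (algebraMap O (𝒮 0) r)).val =
      algebraMap S (Localization.AtPrime 𝔭) (algebraMap O S r) := by
  change Localization.mk _ _ = _
  rw [← Localization.mk_one_eq_algebraMap]
  rfl

theorem g5_val {G : MvPolynomial (Fin (n + 1)) O} {k : ℕ} (hG : G.IsHomogeneous k) :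
    (g5_f 𝒮 π hπ 𝔭 hi (dehom i G)).val = g5_u π 𝔭 hi ^ k *
      algebraMap S (Localization.AtPrime 𝔭) (π G) := by
  have h1 : ((algebraMap (HomogeneousLocalization.AtPrime 𝒮 𝔭)
      (Localization.AtPrime 𝔭)).comp (g5_f 𝒮 π hπ 𝔭 hi)).comp (dehom i).toRingHom =
      eval₂Hom ((algebraMap S (Localization.AtPrime 𝔭)).comp
        (algebraMap O S)) (fun l => g5_u π 𝔭 hi *
          algebraMap S (Localization.AtPrime 𝔭) (π (X l))) := by
    apply MvPolynomial.ringHom_ext
    · intro r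
      rw [coe_eval₂Hom, eval₂_C]
      change ((g5_f 𝒮 π hπ 𝔭 hi (dehom i (C r)))).val = _
      rw [dehom_C, g5_f, coe_eval₂Hom, eval₂_C, RingHom.comp_apply, g5_val_C]
      rfl
    · intro l
      rw [coe_eval₂Hom, eval₂_X]
      change ((g5_f 𝒮 π hπ 𝔭 hi (dehom i (X l)))).val = _
      by_cases h : l = i
      · subst h
        rw [dehom_X_self, map_one, HomogeneousLocalization.val_one, g5_u_mul]
      · have h2 : dehom i (X l : MvPolynomial (Fin (n + 1)) O) = X ⟨l, h⟩ := dehom_X i ⟨l, h⟩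
        rw [h2, g5_f, coe_eval₂Hom, eval₂_X, g5_val_x]
  have h2 := RingHom.congr_fun h1 G
  have h3 : (g5_f 𝒮 π hπ 𝔭 hi (dehom i G)).val = _ := h2
  rw [h3, coe_eval₂Hom, g5_eval₂_smul _ _ _ hG]
  congr 1
  have h4 : (algebraMap S (Localization.AtPrime 𝔭)).comp π.toRingHom =
      eval₂Hom ((algebraMap S (Localization.AtPrime 𝔭)).comp
        (algebraMap O S)) (fun l =>
          algebraMap S (Localization.AtPrime 𝔭) (π (X l))) := by
    apply MvPolynomial.ringHom_ext
    · intro r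
      rw [coe_eval₂Hom, eval₂_C]
      change algebraMap S (Localization.AtPrime 𝔭) (π (C r)) = _
      rw [← algebraMap_eq, AlgHom.commutes]
      rfl
    · intro l
      rw [coe_eval₂Hom, eval₂_X]
      rfl
  exact (RingHom.congr_fun h4 G).symm

theorem g5_isUnit_u : IsUnit (g5_u π 𝔭 hi) :=
  IsUnit.of_mul_eq_one _ (g5_u_mul π 𝔭 hi)

theorem g5_isUnit {G : MvPolynomial (Fin (n + 1)) O} {k : ℕ} (hG : G.IsHomogeneous k) :
    IsUnit (g5_f 𝒮 π hπ 𝔭 hi (dehom i G)) ↔ π G ∉ 𝔭 := by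
  rw [← HomogeneousLocalization.isUnit_iff_isUnit_val, g5_val 𝒮 π hπ 𝔭 hi hG,
    IsUnit.mul_iff, and_iff_right ((g5_isUnit_u π 𝔭 hi).pow k),
    IsLocalization.AtPrime.isUnit_to_map_iff (Localization.AtPrime 𝔭) 𝔭]
  rfl

theorem g5_eq_zero {G : MvPolynomial (Fin (n + 1)) O} {k : ℕ} (hG : G.IsHomogeneous k) :
    g5_f 𝒮 π hπ 𝔭 hi (dehom i G) = 0 ↔
      algebraMap S (Localization.AtPrime 𝔭) (π G) = 0 := by
  rw [HomogeneousLocalization.ext_iff_val, HomogeneousLocalization.val_zero,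
    g5_val 𝒮 π hπ 𝔭 hi hG, IsUnit.mul_right_eq_zero ((g5_isUnit_u π 𝔭 hi).pow k)]

theorem g5_isLocAt {𝔮 : Ideal (MvPolynomial {l : Fin (n + 1) // l ≠ i} O)}
    (hsurj : ∀ k, ∀ s ∈ 𝒮 k, ∃ G : MvPolynomial (Fin (n + 1)) O, G.IsHomogeneous k ∧ π G = s)
    (hsurj' : Function.Surjective π)
    (hker : ∀ G, π G = 0 ↔ G ∈ I.ideal)
    (hiff : ∀ (k : ℕ) (G : MvPolynomial (Fin (n + 1)) O), G.IsHomogeneous k →
      (dehom i G ∈ 𝔮 ↔ π G ∈ 𝔭)) : IsLocAt (dId I i) 𝔮 (g5_f 𝒮 π hπ 𝔭 hi) := by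
  refine ⟨?_, ?_, ?_⟩
  · intro x
    obtain ⟨N, G, hG, rfl⟩ := exists_homog i x
    rw [g5_isUnit 𝒮 π hπ 𝔭 hi hG, hiff N G hG]
  · intro z
    obtain ⟨z, rfl⟩ := HomogeneousLocalization.mk_surjective z
    obtain ⟨k, ⟨a, ha⟩, ⟨b, hb⟩, hden⟩ := z
    obtain ⟨A, hA, rfl⟩ := hsurj k a ha
    obtain ⟨B, hB, rfl⟩ := hsurj k b hb
    refine ⟨dehom i A, dehom i B, ?_, ?_⟩
    · rw [hiff k B hB]
      exact hden
    · rw [HomogeneousLocalization.ext_iff_val, HomogeneousLocalization.val_mul,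
        g5_val 𝒮 π hπ 𝔭 hi hA, g5_val 𝒮 π hπ 𝔭 hi hB, HomogeneousLocalization.val_mk]
      rw [mul_left_comm]
      congr 1
      rw [← Localization.mk_one_eq_algebraMap, ← Localization.mk_one_eq_algebraMap,
        Localization.mk_mul, Localization.mk_eq_mk_iff, Localization.r_iff_exists]
      refine ⟨1, ?_⟩
      simp only [OneMemClass.coe_one, one_mul, mul_one]
      exact mul_comm _ _
  · intro x
    obtain ⟨N, G, hG, rfl⟩ := exists_homog i x
    constructor
    · intro h0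
      rw [g5_eq_zero 𝒮 π hπ 𝔭 hi hG] at h0
      rw [IsLocalization.map_eq_zero_iff 𝔭.primeCompl] at h0
      obtain ⟨⟨s, hs⟩, hs2⟩ := h0
      obtain ⟨S', rfl⟩ := hsurj' s
      have hSG : S' * G ∈ I.ideal := by
        rw [← hker, map_mul]
        exact hs2
      obtain ⟨j, hj⟩ : ∃ j, π (homogeneousComponent j S') ∉ 𝔭 := by
        by_contra hcon
        push Not at hcon
        apply hs
        rw [← sum_homogeneousComponent S', map_sum]
        exact Ideal.sum_mem _ fun j _ => hcon j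
      refine ⟨dehom i (homogeneousComponent j S'), ?_, ?_⟩
      · rw [hiff j _ (homogeneousComponent_isHomogeneous j S')]
        exact hj
      · rw [← map_mul]
        apply Ideal.mem_map_of_mem
        have h1 := I.homog _ hSG (j + N)
        rwa [g5_component_mul S' hG] at h1
    · rintro ⟨z, hz, hzx⟩
      have h1 : dId I i ≤ RingHom.ker (g5_f 𝒮 π hπ 𝔭 hi) := by
        rw [dId, Ideal.map_le_iff_le_comap]
        intro g hg
        rw [Ideal.mem_comap, RingHom.mem_ker]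
        rw [← sum_homogeneousComponent g, map_sum, map_sum]
        refine Finset.sum_eq_zero fun j _ => ?_
        rw [g5_eq_zero 𝒮 π hπ 𝔭 hi (homogeneousComponent_isHomogeneous j g),
          (hker _).mpr (I.homog g hg j), map_zero]
      have h2 : g5_f 𝒮 π hπ 𝔭 hi (z * dehom i G) = 0 := h1 hzx
      rw [map_mul] at h2
      obtain ⟨M, Z, hZ, rfl⟩ := exists_homog i z
      have h3 : IsUnit (g5_f 𝒮 π hπ 𝔭 hi (dehom i Z)) := by
        rw [g5_isUnit 𝒮 π hπ 𝔭 hi hZ, ← hiff M Z hZ]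
        exact hz
      exact (IsUnit.mul_right_eq_zero h3).mp h2

include hπ in
/-- The statement for a general graded ring. -/
theorem g5_generic (y : ProjectiveSpectrum 𝒮)
    {𝔮 : Ideal (MvPolynomial {l : Fin (n + 1) // l ≠ i} O)}
    (hi : π (X i) ∉ y.asHomogeneousIdeal.toIdeal)
    (hsurj : ∀ k, ∀ s ∈ 𝒮 k, ∃ G : MvPolynomial (Fin (n + 1)) O, G.IsHomogeneous k ∧ π G = s)
    (hsurj' : Function.Surjective π)
    (hker : ∀ G, π G = 0 ↔ G ∈ I.ideal)
    (hiff : ∀ (k : ℕ) (G : MvPolynomial (Fin (n + 1)) O), G.IsHomogeneous k →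
      (dehom i G ∈ 𝔮 ↔ π G ∈ y.asHomogeneousIdeal.toIdeal)) :
    ∃ f : MvPolynomial {l : Fin (n + 1) // l ≠ i} O →+* (Proj 𝒮).presheaf.stalk y,
      IsLocAt (dId I i) 𝔮 f := by
  have h1 := g5_isLocAt I 𝒮 π hπ y.asHomogeneousIdeal.toIdeal hi hsurj hsurj' hker hiff
  let e := (Proj.stalkIso 𝒮 y).symm.commRingCatIsoToRingEquiv
  refine ⟨e.toRingHom.comp (g5_f 𝒮 π hπ y.asHomogeneousIdeal.toIdeal hi), ?_, ?_, ?_⟩
  · intro x
    rw [← h1.unit x]
    exact MulEquiv.isUnit_map e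
  · intro z
    obtain ⟨a, b, hb, hab⟩ := h1.surj (e.symm z)
    refine ⟨a, b, hb, ?_⟩
    have h2 := congrArg e hab
    rw [map_mul, RingEquiv.apply_symm_apply] at h2
    exact h2
  · intro x
    rw [← h1.ker x]
    exact map_eq_zero_iff e e.injective

end G5aux

/-- The stalk is the homogeneous localization of `O[x] ⧸ I` at the point
(`Proj.stalkIso`, ProjModel.lean); map `dehom i G`, `G` homogeneous of degree `k`, to
`G / X i ^ k`. -/
theorem AtPt.exists_isLocAt {i : Fin (n + 1)}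
    {𝔮 : Ideal (MvPolynomial {l : Fin (n + 1) // l ≠ i} O)} {y : hProj I} (h : AtPt I y i 𝔮) :
    ∃ f : MvPolynomial {l : Fin (n + 1) // l ≠ i} O →+* (hProj I).presheaf.stalk y,
      IsLocAt (dId I i) 𝔮 f := by
  have hi : hMk I (X i) ∉ (show ProjectiveSpectrum (hGr I) from y).asHomogeneousIdeal.toIdeal := by
    intro h1
    have h2 : dehom i (X i) ∈ 𝔮 := (h.2.2 1 (X i) (isHomogeneous_X _ i)).mpr h1
    rw [dehom_X_self] at h2
    exact h.1.ne_top ((Ideal.eq_top_iff_one _).mpr h2)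
  exact g5_generic I (hGr I) (hMk I) (fun k G hG => ⟨G, hG, rfl⟩) y hi
    (fun k s hs => hs) Ideal.Quotient.mk_surjective
    (fun G => Ideal.Quotient.eq_zero_iff_mem) (fun k G hG => h.2.2 k G hG)

theorem g6_mul_mem {R : Type} [CommRing R] {𝔮 J : Ideal R} (hmax : 𝔮.IsMaximal) {z F : R}
    (hz : z ∉ 𝔮) (h : z * F ∈ 𝔮 ^ 2 ⊔ J) : F ∈ 𝔮 ^ 2 ⊔ J := by
  obtain ⟨w, c, hc, hwc⟩ := hmax.exists_inv hz
  have h1 : F = (1 + c) * w * (z * F) + c ^ 2 * F := by
    have h2 : w * z = 1 - c := by rw [← hwc]; ring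
    calc F = (1 + c) * (1 - c) * F + c ^ 2 * F := by ring
      _ = (1 + c) * w * (z * F) + c ^ 2 * F := by rw [← h2]; ring
  rw [h1]
  refine Ideal.add_mem _ (Ideal.mul_mem_left _ _ h) ?_
  exact Ideal.mem_sup_left (Ideal.mul_mem_right _ _ (Ideal.pow_mem_pow hc 2))

theorem g6_map_le {y : hProj I} {i : Fin (n + 1)}
    {𝔮 : Ideal (MvPolynomial {l : Fin (n + 1) // l ≠ i} O)} (h : AtPt I y i 𝔮) :
    (ptIdeal I y).map (dehom i) ≤ 𝔮 := by
  rw [Ideal.map_le_iff_le_comap]
  intro f hf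
  rw [Ideal.mem_comap, ← sum_homogeneousComponent f, map_sum]
  refine Ideal.sum_mem _ fun j _ => ?_
  rw [h.2.2 j _ (homogeneousComponent_isHomogeneous j f)]
  exact (ptIdeal_spec I y).2.2.1 f hf j

theorem g6_theta_map_le {y : hProj I} {i : Fin (n + 1)}
    {𝔮 : Ideal (MvPolynomial {l : Fin (n + 1) // l ≠ i} O)} (h : AtPt I y i 𝔮) :
    𝔮.map (g3_theta i) ≤ (ptIdeal I y).map (algebraMap (MvPolynomial (Fin (n + 1)) O)
          (Localization.Away (X i : MvPolynomial (Fin (n + 1)) O))) := by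
  rw [Ideal.map_le_iff_le_comap]
  intro g hg
  obtain ⟨N, G, hG, rfl⟩ := exists_homog i g
  rw [h.2.2 N G hG] at hg
  rw [Ideal.mem_comap, g3_theta_mem_iff i hG]
  exact ⟨0, by rwa [pow_zero, one_mul]⟩

theorem g6_theta_map_dId (i : Fin (n + 1)) :
    (dId I i).map (g3_theta i) ≤ I.ideal.map (algebraMap (MvPolynomial (Fin (n + 1)) O)
          (Localization.Away (X i : MvPolynomial (Fin (n + 1)) O))) := by
  rw [dId, Ideal.map_le_iff_le_comap, Ideal.map_le_iff_le_comap]
  intro f hf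
  rw [Ideal.mem_comap, ← sum_homogeneousComponent f, map_sum]
  refine Ideal.sum_mem _ fun j _ => ?_
  rw [Ideal.mem_comap, g3_theta_mem_iff i (homogeneousComponent_isHomogeneous j f)]
  exact ⟨0, by rw [pow_zero, one_mul]; exact I.homog f hf j⟩

theorem g6_badAt_iff {d : ℕ} {y : hProj I} {i : Fin (n + 1)}
    {𝔮 : Ideal (MvPolynomial {l : Fin (n + 1) // l ≠ i} O)} (h : AtPt I y i 𝔮)
    (hmax : 𝔮.IsMaximal) (a : Mono n d → O) :
    BadAt I a i 𝔮 ↔ ∃ (k : ℕ) (z : MvPolynomial (Fin (n + 1)) O), z.IsHomogeneous k ∧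
      z ∉ ptIdeal I y ∧ z * form a ∈ ptIdeal I y ^ 2 ⊔ I.ideal := by
  constructor
  · intro hb
    have h1 : g3_theta i (dF a i) ∈ (ptIdeal I y ^ 2 ⊔ I.ideal).map
        (algebraMap (MvPolynomial (Fin (n + 1)) O)
          (Localization.Away (X i : MvPolynomial (Fin (n + 1)) O))) := by
      have h2 : g3_theta i (dF a i) ∈ (𝔮 ^ 2 ⊔ dId I i).map (g3_theta i) :=
        Ideal.mem_map_of_mem _ hb
      rw [Ideal.map_sup, Ideal.map_pow] at h2 ⊢
      exact (sup_le_sup (Ideal.pow_right_mono (g6_theta_map_le I h) 2)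
        (g6_theta_map_dId I i)) h2
    rw [dF, g3_theta_mem_iff i (isHomogeneous_form a)] at h1
    obtain ⟨N, hN⟩ := h1
    refine ⟨N, X i ^ N, by simpa using (isHomogeneous_X O i).pow N, ?_, hN⟩
    intro hcon
    have h3 := (ptIdeal_spec I y).1.mem_of_pow_mem _ hcon
    rw [← h.2.2 1 _ (isHomogeneous_X O i), dehom_X_self] at h3
    exact h.1.one_notMem h3
  · rintro ⟨k, z, hz, hzQ, hmem⟩
    have hz' : dehom i z ∉ 𝔮 := fun hcon => hzQ ((h.2.2 k z hz).1 hcon)
    refine g6_mul_mem hmax hz' ?_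
    have h1 : dehom i (z * form a) ∈ (ptIdeal I y ^ 2 ⊔ I.ideal).map (dehom i) :=
      Ideal.mem_map_of_mem _ hmem
    rw [map_mul, Ideal.map_sup, Ideal.map_pow] at h1
    exact (sup_le_sup (Ideal.pow_right_mono (g6_map_le I h) 2) le_rfl) h1

/-- For `𝔮` maximal. If `dF a i ∈ 𝔮 ^ 2 ⊔ dId I i`, then there is a homogeneous `z` which
is not in `𝔔 = ptIdeal I y` with `z * form a ∈ 𝔔 ^ 2 ⊔ I` (write the elements of `𝔮` as
dehomogenizations of homogeneous elements of `𝔔`). Conversely this implies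
`dehom i z * dF a i ∈ 𝔮 ^ 2 ⊔ dId I i`, and `dehom i z` is a unit modulo `𝔮 ^ 2`. -/
theorem AtPt.badAt_iff {d : ℕ} {y : hProj I} {i i' : Fin (n + 1)}
    {𝔮 : Ideal (MvPolynomial {l : Fin (n + 1) // l ≠ i} O)}
    {𝔮' : Ideal (MvPolynomial {l : Fin (n + 1) // l ≠ i'} O)} (h : AtPt I y i 𝔮)
    (h' : AtPt I y i' 𝔮') (hmax : 𝔮.IsMaximal) (hmax' : 𝔮'.IsMaximal) (a : Mono n d → O) :
    BadAt I a i 𝔮 ↔ BadAt I a i' 𝔮' := by
  rw [g6_badAt_iff I h hmax, g6_badAt_iff I h' hmax']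

section g7

attribute [local irreducible] hCommRing hAlgebra

theorem g7_eval₂_smul {T : Type} [CommRing T] (f : O →+* T) (u : T) (y : Fin (n + 1) → T)
    {P : MvPolynomial (Fin (n + 1)) O} {d : ℕ} (hP : P.IsHomogeneous d) :
    eval₂ f (fun k => u * y k) P = u ^ d * eval₂ f y P := by
  rw [eval₂_eq', eval₂_eq', Finset.mul_sum]
  refine Finset.sum_congr rfl fun m hm => ?_
  have h1 : ∑ i, m i = d := by
    have := hP (mem_support_iff.mp hm)
    rw [Finsupp.weight_apply, Finsupp.sum_fintype _ _ (fun _ => by simp)] at this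
    simpa using this
  simp only [mul_pow]
  rw [Finset.prod_mul_distrib, Finset.prod_pow_eq_pow_sum, h1]
  ring

theorem g7_mem {k : ℕ} {G : MvPolynomial (Fin (n + 1)) O} (hG : G.IsHomogeneous k) :
    hMk I G ∈ hGr I k := ⟨G, hG, rfl⟩

theorem g7_X_mem (i : Fin (n + 1)) : hMk I (X i) ∈ hGr I 1 := g7_mem I (isHomogeneous_X _ _)

/-- The map from the polynomial ring to the ring of the affine chart. -/
noncomputable def g7_psi (i : Fin (n + 1)) : MvPolynomial {l : Fin (n + 1) // l ≠ i} O →+*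
    HomogeneousLocalization.Away (hGr I) (hMk I (X i)) :=
  eval₂Hom (baseToAway (hGr I) (hMk I (X i))) fun l =>
    HomogeneousLocalization.Away.mk (hGr I) (g7_X_mem I i) 1 (hMk I (X l.1))
      (by rw [one_smul]; exact g7_X_mem I l.1)

theorem g7_psi_dehom (i : Fin (n + 1)) {k : ℕ} {G : MvPolynomial (Fin (n + 1)) O}
    (hG : G.IsHomogeneous k) : g7_psi I i (dehom i G) =
      HomogeneousLocalization.Away.mk (hGr I) (g7_X_mem I i) k (hMk I G)
        (by rw [smul_eq_mul, mul_one]; exact g7_mem I hG) := by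
  apply HomogeneousLocalization.val_injective
  rw [HomogeneousLocalization.Away.val_mk]
  set u : Localization.Away (hMk I (X i)) := algebraMap _ _ (hMk I (X i)) with hu
  have hunit : IsUnit u := IsLocalization.Away.algebraMap_isUnit (hMk I (X i))
  let v : HomogeneousLocalization.Away (hGr I) (hMk I (X i)) →+*
    Localization.Away (hMk I (X i)) := algebraMap _ _
  have hv : ∀ z, v z = z.val := fun z => rfl
  let φ : MvPolynomial (Fin (n + 1)) O →+* Localization.Away (hMk I (X i)) :=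
    v.comp ((g7_psi I i).comp (dehom i : MvPolynomial (Fin (n + 1)) O →ₐ[O] _).toRingHom)
  have hφG : ∀ P, φ P = (g7_psi I i (dehom i P)).val := fun P => rfl
  let f : O →+* Localization.Away (hMk I (X i)) := φ.comp C
  have h1 : ∀ P, φ P = eval₂ f (fun l => φ (X l)) P := by
    intro P
    have := MvPolynomial.eval₂_comp_left φ (C : O →+* MvPolynomial (Fin (n + 1)) O) X P
    rw [eval₂_eta] at this
    exact this
  let θ : MvPolynomial (Fin (n + 1)) O →+* Localization.Away (hMk I (X i)) :=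
    (algebraMap (HCoord I) (Localization.Away (hMk I (X i)))).comp (hMk I).toRingHom
  have h2 : ∀ P, θ P = eval₂ (θ.comp C) (fun l => θ (X l)) P := by
    intro P
    have := MvPolynomial.eval₂_comp_left θ (C : O →+* MvPolynomial (Fin (n + 1)) O) X P
    rw [eval₂_eta] at this
    exact this
  have h3 : θ.comp C = f := by
    ext c
    change algebraMap (HCoord I) _ (hMk I (C c)) = (g7_psi I i (dehom i (C c))).val
    rw [dehom_C, g7_psi, coe_eval₂Hom, eval₂_C, val_baseToAway,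
      show hMk I (C c) = algebraMap O (HCoord I) c from (hMk I).commutes c]
  have h4 : ∀ l, θ (X l) = u * φ (X l) := by
    intro l
    change algebraMap (HCoord I) _ (hMk I (X l)) = u * (g7_psi I i (dehom i (X l))).val
    by_cases hl : l = i
    · subst hl
      rw [dehom_X_self, map_one, HomogeneousLocalization.val_one, mul_one]
    · rw [show (X l : MvPolynomial (Fin (n + 1)) O) = X (⟨l, hl⟩ : {l // l ≠ i}).1 from rfl,
        dehom_X, g7_psi, coe_eval₂Hom, eval₂_X, HomogeneousLocalization.Away.val_mk, hu,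
        ← Localization.mk_one_eq_algebraMap, ← Localization.mk_one_eq_algebraMap,
        Localization.mk_mul, Localization.mk_eq_mk_iff, Localization.r_iff_exists]
      refine ⟨1, ?_⟩
      simp
  have h5 : θ G = u ^ k * φ G := by
    rw [h2, h1 G, h3, ← g7_eval₂_smul f u _ hG]
    congr 1
    funext l
    exact h4 l
  rw [← hφG]
  apply (hunit.pow k).mul_left_cancel
  rw [← h5]
  change algebraMap (HCoord I) _ (hMk I G) = _
  rw [hu, ← Localization.mk_one_eq_algebraMap, ← Localization.mk_one_eq_algebraMap,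
    Localization.mk_pow, Localization.mk_mul, Localization.mk_eq_mk_iff,
    Localization.r_iff_exists]
  refine ⟨1, ?_⟩
  simp

theorem g7_psi_surjective (i : Fin (n + 1)) : Function.Surjective (g7_psi I i) := by
  intro z
  obtain ⟨k, a, ha, rfl⟩ := HomogeneousLocalization.Away.mk_surjective (hGr I) (g7_X_mem I i) z
  have ha' := ha
  obtain ⟨G, hG, hGa⟩ := ha'
  rw [smul_eq_mul, mul_one] at hG
  refine ⟨dehom i G, ?_⟩
  rw [g7_psi_dehom I i hG]
  have : a = hMk I G := hGa.symm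
  subst this
  rfl

/-- The closed points of a scheme of finite type over a Jacobson ring: `y` is closed in
`Proj` if and only if it is closed in the chart (`JacobsonSpace`,
`AlgebraicGeometry.LocallyOfFiniteType.jacobsonSpace`, `Topology.IsOpenEmbedding.preimage_closedPoints`),
which is the spectrum of `A ⧸ dId I i`, with `y` corresponding to `𝔮`. -/
theorem AtPt.mem_closedPoints_iff [IsNoetherianRing O] [IsJacobsonRing O] {i : Fin (n + 1)}
    {𝔮 : Ideal (MvPolynomial {l : Fin (n + 1) // l ≠ i} O)} {y : hProj I} (h : AtPt I y i 𝔮) :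
    y ∈ closedPoints (hProj I) ↔ 𝔮.IsMaximal := by
  obtain ⟨h𝔮, -, hq⟩ := h
  -- the scheme is a Jacobson space
  have hsurj0 : Function.Surjective (algebraMap O (hGr I 0)) := by
    rintro ⟨a, G, hG, rfl⟩
    have hG' : G.IsHomogeneous 0 := hG
    obtain ⟨c, rfl⟩ : ∃ c, G = C c := ⟨_, (totalDegree_eq_zero_iff_eq_C).1
      (Nat.le_zero.1 hG'.totalDegree_le)⟩
    exact ⟨c, Subtype.ext ((hMk I).commutes c).symm⟩
  have hjac0 : IsJacobsonRing (hGr I 0) := isJacobsonRing_of_surjective ⟨_, hsurj0⟩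
  have hft0 : Algebra.FiniteType (hGr I 0) (HCoord I) := by
    have h1 : Algebra.FiniteType O (HCoord I) :=
      Algebra.FiniteType.of_surjective (hMk I) Ideal.Quotient.mk_surjective
    have hst : @IsScalarTower O (hGr I 0) (HCoord I) Algebra.toSMul Algebra.toSMul
        Algebra.toSMul := IsScalarTower.of_algebraMap_eq (fun r => rfl)
    exact @Algebra.FiniteType.of_restrictScalars_finiteType O (hGr I 0) (HCoord I) _ _ _ _ _ _ hst _
  have hjac : JacobsonSpace (Proj (hGr I)) :=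
    LocallyOfFiniteType.jacobsonSpace (Proj.toSpecZero (hGr I))
  -- the point of the chart
  have hXi : hMk I (X i) ∈ hGr I 1 := g7_X_mem I i
  have hXy : (X i : MvPolynomial (Fin (n + 1)) O) ∉ ptIdeal I y := by
    rw [← hq 1 _ (isHomogeneous_X _ _), dehom_X_self]
    exact fun h1 => h𝔮.ne_top ((Ideal.eq_top_iff_one _).2 h1)
  let ι := Proj.awayι (hGr I) (hMk I (X i)) hXi one_pos
  have hyr : y ∈ Set.range ι := by
    have h1 : (y : Proj (hGr I)) ∈ ι.opensRange := by
      rw [Proj.opensRange_awayι]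
      exact hXy
    exact h1
  obtain ⟨p, hp⟩ := hyr
  have hemb : Topology.IsOpenEmbedding ι := ι.isOpenEmbedding
  have h2 := Set.ext_iff.1 (hemb.preimage_closedPoints) p
  rw [Set.mem_preimage, hp] at h2
  have h3 : p ∈ closedPoints (Spec (CommRingCat.of
      (HomogeneousLocalization.Away (hGr I) (hMk I (X i))))) ↔ p.asIdeal.IsMaximal :=
    PrimeSpectrum.isClosed_singleton_iff_isMaximal p
  have h4 : 𝔮 = p.asIdeal.comap (g7_psi I i) := by
    ext a
    obtain ⟨N, G, hG, rfl⟩ := exists_homog i a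
    have hG' : (G * X i).IsHomogeneous (N + 1) := hG.mul (isHomogeneous_X _ _)
    have h5 : dehom i G = dehom i (G * X i) := by
      rw [map_mul, dehom_X_self, mul_one]
    rw [h5, hq _ _ hG', Ideal.mem_comap, g7_psi_dehom I i hG']
    have h6 := Proj.awayι_preimage_basicOpen (hGr I) hXi one_pos (g7_mem I hG') (Nat.succ_pos N)
    have h7 : p ∈ ι ⁻¹ᵁ Proj.basicOpen (hGr I) (hMk I (G * X i)) ↔
        p ∈ PrimeSpectrum.basicOpen (HomogeneousLocalization.Away.isLocalizationElem hXi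
          (g7_mem I hG')) := by
      rw [h6]
      exact Iff.rfl
    have h8 : p ∈ ι ⁻¹ᵁ Proj.basicOpen (hGr I) (hMk I (G * X i)) ↔ G * X i ∉ ptIdeal I y := by
      rw [← hp]
      exact Iff.rfl
    have h9 : p ∈ PrimeSpectrum.basicOpen (HomogeneousLocalization.Away.isLocalizationElem hXi
          (g7_mem I hG')) ↔ HomogeneousLocalization.Away.isLocalizationElem hXi
          (g7_mem I hG') ∉ p.asIdeal := Iff.rfl
    rw [h8, h9, not_iff_not] at h7
    rw [h7]
    have h10 : HomogeneousLocalization.Away.isLocalizationElem hXi (g7_mem I hG') =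
        HomogeneousLocalization.Away.mk (hGr I) (g7_X_mem I i) (N + 1) (hMk I (G * X i))
        (by rw [smul_eq_mul, mul_one]; exact g7_mem I hG') := by
      apply HomogeneousLocalization.val_injective
      rw [HomogeneousLocalization.Away.val_mk, HomogeneousLocalization.Away.val_mk, pow_one]
    rw [h10]
  have h2' : y ∈ closedPoints (hProj I) ↔ p.asIdeal.IsMaximal := Iff.trans h2 h3
  rw [h2']
  constructor
  · intro hm
    rw [h4]
    exact Ideal.comap_isMaximal_of_surjective _ (g7_psi_surjective I i)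
  · intro hm
    have h5 : p.asIdeal = 𝔮.map (g7_psi I i) := by
      rw [h4, Ideal.map_comap_of_surjective _ (g7_psi_surjective I i)]
    rw [h5]
    refine (Ideal.map_eq_top_or_isMaximal_of_surjective _ (g7_psi_surjective I i) hm).resolve_left ?_
    rw [← h5]
    exact p.2.ne_top
end g7

/-- The residue field of a scheme at a point is the residue field of the stalk. -/
theorem AtPt.card_residueField {i : Fin (n + 1)}
    {𝔮 : Ideal (MvPolynomial {l : Fin (n + 1) // l ≠ i} O)} {y : hProj I} (h : AtPt I y i 𝔮)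
    (hmax : 𝔮.IsMaximal) :
    Nat.card ((hProj I).residueField y) =
      Nat.card (MvPolynomial {l : Fin (n + 1) // l ≠ i} O ⧸ 𝔮) := by
  obtain ⟨f, hf⟩ := h.exists_isLocAt
  exact hf.card_residue hmax

instance isJacobsonRing_int : IsJacobsonRing ℤ := by
  rw [isJacobsonRing_iff_prime_eq]
  intro P hP
  by_cases h : P = ⊥
  · subst h
    rw [eq_bot_iff]
    intro x hx
    rw [Ideal.mem_jacobson_bot] at hx
    have h1 := hx x
    rw [Int.isUnit_iff] at h1
    rw [Ideal.mem_bot]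
    nlinarith [sq_nonneg x, h1.elim (fun h => h) (fun h => by nlinarith [sq_nonneg x])]
  · have h2 : P.IsMaximal := hP.isMaximal h
    exact Ideal.jacobson_eq_self_of_isMaximal

/-- The ring of integers is a Jacobson ring. -/
instance isJacobsonRing_ringOfIntegers (E : Type) [Field E] [NumberField E] :
    IsJacobsonRing (𝓞 E) :=
  isJacobsonRing_of_isIntegral (R := ℤ)

/-- For distinct closed points `y`, `y'` there is a homogeneous polynomial in the ideal of
`y'` which is not in the ideal of `y`: otherwise `y` is in the closure of `y'`. -/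
theorem exists_separating {y y' : hProj I} (hy' : y' ∈ closedPoints (hProj I)) (hne : y ≠ y') :
    ∃ (k : ℕ) (G : MvPolynomial (Fin (n + 1)) O), G.IsHomogeneous k ∧ G ∈ ptIdeal I y' ∧
      G ∉ ptIdeal I y := by
  by_contra hcon
  push Not at hcon
  have hle : ptIdeal I y' ≤ ptIdeal I y := by
    intro f hf
    rw [← sum_homogeneousComponent f]
    exact Ideal.sum_mem _ fun j _ => hcon j _ (homogeneousComponent_isHomogeneous j f)
      ((ptIdeal_spec I y').2.2.1 f hf j)
  have hsurj : Function.Surjective (hMk I) := Ideal.Quotient.mk_surjective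
  have hle' : (show ProjectiveSpectrum (hGr I) from y') ≤
      (show ProjectiveSpectrum (hGr I) from y) := by
    change (show ProjectiveSpectrum (hGr I) from y').asHomogeneousIdeal.toIdeal ≤
      (show ProjectiveSpectrum (hGr I) from y).asHomogeneousIdeal.toIdeal
    intro x hx
    obtain ⟨f, rfl⟩ := hsurj x
    exact hle hx
  rw [ProjectiveSpectrum.le_iff_mem_closure] at hle'
  have hcl : IsClosed ({y'} : Set (hProj I)) := hy'
  have h2 : y ∈ closure ({y'} : Set (hProj I)) := hle'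
  rw [hcl.closure_eq] at h2
  exact hne h2

end

end Pool.Agent.Lib.MP_6a3dac_ag.Bert
end

section

/-!
# Counting closed points, and the probability of singular points over one prime
-/

set_option autoImplicit false

namespace Pool.Agent.Lib.MP_6a3dac_ag.Bert

open MvPolynomial CategoryTheory Limits AlgebraicGeometry NumberField IsDedekindDomain
open Pool.Agent.Lib.MP_6a3dac_ag.DNF Pool.Agent.Lib.MP_6a3dac_ag.Maj

/-- The hypotheses on the projective scheme, in terms of the affine charts. -/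
structure Hyp {E : Type} [Field E] [NumberField E] {n : ℕ} (I : HomIdeal (𝓞 E) (n + 1)) (m : ℕ)
    (𝒰 : Charts (𝓞 E) n) (m₀ : 𝓞 E) : Prop where
  prime : I.ideal.IsPrime
  inj : ∀ c : 𝓞 E, C c ∈ I.ideal → c = 0
  ne : m₀ ≠ 0
  one_le : 1 ≤ m
  charts : 𝒰.For I m₀
  loc : ∀ (i : Fin (n + 1)) (𝔮 : Ideal (MvPolynomial {l : Fin (n + 1) // l ≠ i} (𝓞 E))),
    𝔮.IsPrime → dId I i ≤ 𝔮 → ∃ (B : Type) (_ : CommRing B)
      (f : MvPolynomial {l : Fin (n + 1) // l ≠ i} (𝓞 E) →+* B), IsLocAt (dId I i) 𝔮 f ∧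
        IsRegularLocalRing B ∧ (𝔮.IsMaximal → ringKrullDim B = m)

section

variable {E : Type} [Field E] [NumberField E] {n m : ℕ} {I : HomIdeal (𝓞 E) (n + 1)}

theorem h1_dehom_monomial {O : Type} [CommRing O] {n : ℕ} (i : Fin (n + 1))
    (s : Fin (n + 1) →₀ ℕ) (c : O) :
    dehom i (monomial s c) = monomial (s.subtypeDomain (· ≠ i)) c := by
  classical
  rw [dehom, aeval_monomial, monomial_eq, Finsupp.prod_fintype _ _ (fun _ => pow_zero _),
    Finsupp.prod_fintype _ _ (fun _ => pow_zero _),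
    ← Finset.mul_prod_erase _ _ (Finset.mem_univ i), dif_pos rfl, one_pow, one_mul,
    Finset.prod_subtype (Finset.univ.erase i) (p := fun l => l ≠ i) (by simp)]
  congr 1
  refine Finset.prod_congr rfl fun l _ => ?_
  rw [dif_neg l.2]
  rfl

/-- Extension of an exponent to total degree `N`. -/
noncomputable def h1_ext {n : ℕ} (i : Fin (n + 1)) (N : ℕ) (t : {l : Fin (n + 1) // l ≠ i} →₀ ℕ) :
    Fin (n + 1) →₀ ℕ :=
  Finsupp.equivFunOnFinite.symm fun l => if h : l = i then N - ∑ l, t l else t ⟨l, h⟩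

theorem h1_ext_restrict {n : ℕ} (i : Fin (n + 1)) (s : Fin (n + 1) →₀ ℕ) :
    h1_ext i (∑ l, s l) (s.subtypeDomain (· ≠ i)) = s := by
  classical
  ext l
  simp only [h1_ext, Finsupp.equivFunOnFinite_symm_apply_apply]
  split_ifs with h
  · subst h
    rw [← Finset.add_sum_erase _ _ (Finset.mem_univ l),
      Finset.sum_subtype (Finset.univ.erase l) (p := fun j => j ≠ l) (by simp)]
    simp only [Finsupp.subtypeDomain_apply]
    omega
  · rfl

/-- Homogenization to degree `N`. -/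
noncomputable def h1_hom (O : Type) [CommRing O] {n : ℕ} (i : Fin (n + 1)) (N : ℕ) :
    MvPolynomial {l : Fin (n + 1) // l ≠ i} O →ₗ[O] MvPolynomial (Fin (n + 1)) O :=
  (basisMonomials {l : Fin (n + 1) // l ≠ i} O).constr O fun t => monomial (h1_ext i N t) 1

theorem h1_hom_monomial (O : Type) [CommRing O] {n : ℕ} (i : Fin (n + 1)) (N : ℕ)
    (t : {l : Fin (n + 1) // l ≠ i} →₀ ℕ) (c : O) :
    h1_hom O i N (monomial t c) = monomial (h1_ext i N t) c := by
  have h1 : (monomial t c : MvPolynomial {l : Fin (n + 1) // l ≠ i} O) =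
      c • basisMonomials {l : Fin (n + 1) // l ≠ i} O t := by
    rw [coe_basisMonomials, smul_monomial, smul_eq_mul, mul_one]
  rw [h1, map_smul, h1_hom, Module.Basis.constr_basis, smul_monomial, smul_eq_mul, mul_one]

theorem h1_hom_dehom {O : Type} [CommRing O] {n N : ℕ} (i : Fin (n + 1))
    {G : MvPolynomial (Fin (n + 1)) O} (hG : G.IsHomogeneous N) :
    h1_hom O i N (dehom i G) = G := by
  classical
  conv_lhs => rw [as_sum G]
  conv_rhs => rw [as_sum G]
  rw [map_sum, map_sum]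
  refine Finset.sum_congr rfl fun s hs => ?_
  have h1 : ∑ l, s l = N := by
    have h2 := hG (mem_support_iff.mp hs)
    rw [← h2, Finsupp.weight_apply, Finsupp.sum_fintype _ _ (fun _ => by simp)]
    simp
  rw [h1_dehom_monomial, h1_hom_monomial, ← h1, h1_ext_restrict]

theorem h1_dehom_inj {O : Type} [CommRing O] {n N : ℕ} (i : Fin (n + 1))
    {F G : MvPolynomial (Fin (n + 1)) O} (hF : F.IsHomogeneous N) (hG : G.IsHomogeneous N)
    (h : dehom i F = dehom i G) : F = G := by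
  rw [← h1_hom_dehom i hF, ← h1_hom_dehom i hG, h]

theorem h1_mem_dId {O : Type} [CommRing O] {n : ℕ} {I : HomIdeal O (n + 1)}
    (hI : I.ideal.IsPrime) (i : Fin (n + 1)) (hX : X i ∉ I.ideal) {k : ℕ}
    {G : MvPolynomial (Fin (n + 1)) O} (hG : G.IsHomogeneous k) (h : dehom i G ∈ dId I i) :
    G ∈ I.ideal := by
  classical
  have hsurj : Function.Surjective (dehom i : MvPolynomial (Fin (n + 1)) O →ₐ[O]
      MvPolynomial {l : Fin (n + 1) // l ≠ i} O) := fun g => by
    obtain ⟨N, F, _, hF⟩ := exists_homog i g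
    exact ⟨F, hF⟩
  rw [dId, Ideal.mem_map_iff_of_surjective _ hsurj] at h
  obtain ⟨F, hFI, hF⟩ := h
  set N := k + F.totalDegree with hN
  let F' : MvPolynomial (Fin (n + 1)) O :=
    ∑ j ∈ Finset.range (F.totalDegree + 1), X i ^ (N - j) * homogeneousComponent j F
  have h1 : F'.IsHomogeneous N := by
    refine IsHomogeneous.sum _ _ _ fun j hj => ?_
    rw [Finset.mem_range] at hj
    have h2 := (isHomogeneous_X_pow (R := O) i (N - j)).mul (homogeneousComponent_isHomogeneous j F)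
    rwa [show N - j + j = N by omega] at h2
  have h2 : F' ∈ I.ideal := Ideal.sum_mem _ fun j _ => Ideal.mul_mem_left _ _ (I.homog F hFI j)
  have h3 : dehom i F' = dehom i F := by
    conv_rhs => rw [← sum_homogeneousComponent F]
    rw [map_sum, map_sum]
    refine Finset.sum_congr rfl fun j _ => ?_
    rw [map_mul, map_pow, dehom_X_self, one_pow, one_mul]
  have h4 : (X i ^ (N - k) * G).IsHomogeneous N := by
    have h5 := (isHomogeneous_X_pow (R := O) i (N - k)).mul hG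
    rwa [show N - k + k = N by omega] at h5
  have h5 : F' = X i ^ (N - k) * G := by
    apply h1_dehom_inj i h1 h4
    rw [h3, hF, map_mul, map_pow, dehom_X_self, one_pow, one_mul]
  rw [h5] at h2
  rcases hI.mem_or_mem h2 with h6 | h6
  · exact absurd (hI.mem_of_pow_mem _ h6) hX
  · exact h6

/-- If `X i ∈ I`, then `dId I i = ⊤`. Otherwise it is prime: if
`dehom i F * dehom i G ∈ dId I i` with homogeneous `F`, `G`, then `X i ^ k * F * G ∈ I`. -/
theorem dId_prime (hI : I.ideal.IsPrime) (h0 : ∀ c : 𝓞 E, C c ∈ I.ideal → c = 0)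
    (i : Fin (n + 1)) {𝔮 : Ideal (MvPolynomial {l : Fin (n + 1) // l ≠ i} (𝓞 E))}
    (h𝔮 : 𝔮.IsPrime) (hI𝔮 : dId I i ≤ 𝔮) :
    (dId I i).IsPrime ∧ ∀ c : 𝓞 E, C c ∈ dId I i → c = 0 := by
  classical
  have hX : X i ∉ I.ideal := fun h => by
    have h1 : dehom i (X i : MvPolynomial (Fin (n + 1)) (𝓞 E)) ∈ dId I i :=
      Ideal.mem_map_of_mem _ h
    rw [dehom_X_self] at h1
    exact h𝔮.ne_top ((Ideal.eq_top_iff_one _).mpr (hI𝔮 h1))
  constructor
  · constructor
    · intro h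
      exact h𝔮.ne_top (eq_top_iff.mpr (h ▸ hI𝔮))
    · intro f g hfg
      obtain ⟨N, F, hF, rfl⟩ := exists_homog i f
      obtain ⟨N', G, hG, rfl⟩ := exists_homog i g
      rw [← map_mul] at hfg
      rcases hI.mem_or_mem (h1_mem_dId hI i hX (hF.mul hG) hfg) with h | h
      · exact Or.inl (Ideal.mem_map_of_mem _ h)
      · exact Or.inr (Ideal.mem_map_of_mem _ h)
  · intro c hc
    apply h0
    apply h1_mem_dId hI i hX (isHomogeneous_C _ c)
    rwa [dehom_C]

/-- The contraction of a maximal ideal is maximal, as `𝓞 E` is a Jacobson ring, and it is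
not zero, as `𝓞 E` is not a field. -/
theorem exists_prime_le {σ : Type} [Finite σ] {𝔮 : Ideal (MvPolynomial σ (𝓞 E))}
    (hmax : 𝔮.IsMaximal) : ∃ P : HeightOneSpectrum (𝓞 E), P.asIdeal.map C ≤ 𝔮 := by
  have h1 : (𝔮.comap (C : 𝓞 E →+* MvPolynomial σ (𝓞 E))).IsMaximal := by
    let _ := Ideal.Quotient.field 𝔮
    have h2 := MvPolynomial.comp_C_integral_of_surjective_of_isJacobsonRing
      (Ideal.Quotient.mk 𝔮) Ideal.Quotient.mk_surjective
    have h3 : (⊥ : Ideal (MvPolynomial σ (𝓞 E) ⧸ 𝔮)).IsMaximal := Ideal.bot_isMaximal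
    have h4 := Ideal.isMaximal_comap_of_isIntegral_of_isMaximal' _ h2 ⊥
    rw [← Ideal.comap_comap] at h4
    have h5 : Ideal.comap (Ideal.Quotient.mk 𝔮) ⊥ = 𝔮 := Ideal.mk_ker
    rw [h5] at h4
    exact h4
  have h2 : 𝔮.comap (C : 𝓞 E →+* MvPolynomial σ (𝓞 E)) ≠ ⊥ :=
    Ring.ne_bot_of_isMaximal_of_not_isField h1 (RingOfIntegers.not_isField E)
  exact ⟨⟨_, h1.isPrime, h2⟩, Ideal.map_comap_le⟩

/-- The closed points of the chart of degree `e` over `P`. -/
def cpts (I : HomIdeal (𝓞 E) (n + 1)) (i : Fin (n + 1)) (P : HeightOneSpectrum (𝓞 E)) (e : ℕ) :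
    Set (Ideal (MvPolynomial {l : Fin (n + 1) // l ≠ i} (𝓞 E))) :=
  {𝔮 | 𝔮.IsMaximal ∧ dId I i ≤ 𝔮 ∧ P.asIdeal.map C ≤ 𝔮 ∧
    Nat.card (MvPolynomial {l : Fin (n + 1) // l ≠ i} (𝓞 E) ⧸ 𝔮) =
      Nat.card (𝓞 E ⧸ P.asIdeal) ^ e}

theorem h3_card {n : ℕ} (i : Fin (n + 1)) : Fintype.card {l : Fin (n + 1) // l ≠ i} = n := by
  rw [Fintype.card_subtype_compl, Fintype.card_fin]
  simp

theorem h3_aux {𝒰 : Charts (𝓞 E) n} {m₀ : 𝓞 E} (h : Hyp I m 𝒰 m₀)
    (P : HeightOneSpectrum (𝓞 E)) (i : Fin (n + 1)) {τ : Type} [Fintype τ]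
    (V : τ → Std (𝓞 E ⧸ P.asIdeal) {l : Fin (n + 1) // l ≠ i})
    (𝔞 : τ → Ideal (MvPolynomial {l : Fin (n + 1) // l ≠ i} (𝓞 E ⧸ P.asIdeal)))
    (hV : ∀ t, (V t).For (𝔞 t)) (hIa : ∀ t, (dId I i).map (redP _ P) ≤ 𝔞 t) {e : ℕ} (he : 1 ≤ e)
    (hcov : ∀ 𝔮 ∈ cpts I i P e, ∃ t, 𝔞 t ≤ 𝔮.map (redP _ P) ∧ (V t).h ∉ 𝔮.map (redP _ P)) :
    (cpts I i P e).Finite ∧ (cpts I i P e).ncard ≤
      (∑ t, bnd n (V t).deg) * (Nat.card (𝓞 E ⧸ P.asIdeal) ^ e) ^ (m - 1) := by
  classical
  let S : τ → Set (Ideal (MvPolynomial {l : Fin (n + 1) // l ≠ i} (𝓞 E))) := fun t =>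
    {𝔮 | 𝔮 ∈ cpts I i P e ∧ 𝔞 t ≤ 𝔮.map (redP _ P) ∧ (V t).h ∉ 𝔮.map (redP _ P)}
  have hS : ∀ t, (S t).Finite ∧ (S t).ncard ≤
      bnd n (V t).deg * (Nat.card (𝓞 E ⧸ P.asIdeal) ^ e) ^ (m - 1) := by
    intro t
    obtain ⟨hfin, hcard⟩ := (V t).card_points he
    rw [h3_card i] at hcard
    have hinj : Set.InjOn (fun 𝔮 : Ideal (MvPolynomial {l : Fin (n + 1) // l ≠ i} (𝓞 E)) =>
        𝔮.map (redP _ P)) (S t) := by
      intro 𝔮 h1 𝔮' h2 h3
      have e1 := (map_redP P h1.1.2.2.1).1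
      have e2 := (map_redP P h2.1.2.2.1).1
      rw [← e1, ← e2]
      exact congrArg _ h3
    have hmaps : ∀ 𝔮 ∈ S t, 𝔮.map (redP _ P) ∈ {𝔮 : Ideal (MvPolynomial
        {l : Fin (n + 1) // l ≠ i} (𝓞 E ⧸ P.asIdeal)) | 𝔮.IsMaximal ∧ (∀ κ, (V t).g κ ∈ 𝔮) ∧
          (V t).h ∉ 𝔮 ∧ Nat.card (MvPolynomial {l : Fin (n + 1) // l ≠ i} (𝓞 E ⧸ P.asIdeal) ⧸ 𝔮) =
            Nat.card (𝓞 E ⧸ P.asIdeal) ^ e} := by
      rintro 𝔮 ⟨⟨h1, h2, h3, h4⟩, h5, h6⟩
      obtain ⟨-, e2, e3⟩ := map_redP P h3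
      exact ⟨e2 h1, fun κ => h5 ((hV t).mem κ), h6, e3.trans h4⟩
    have hSfin : (S t).Finite := Set.Finite.of_injOn hmaps hinj hfin
    refine ⟨hSfin, ?_⟩
    rcases (S t).eq_empty_or_nonempty with hem | ⟨𝔮, ⟨h1, h2, h3, h4⟩, h5, h6⟩
    · rw [hem, Set.ncard_empty]
      exact Nat.zero_le _
    · obtain ⟨B, _, f, hB, hreg, hdim⟩ := h.loc i 𝔮 h1.isPrime h2
      obtain ⟨hp1, hp2⟩ := dId_prime h.prime h.inj i h1.isPrime h2
      have hT : (V t).T.card + 1 ≤ m := card_T_lt P hp1 hp2 h1 h2 h3 hB (hdim h1) (V t) (hV t)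
        (hIa t) h5 h6
      refine (Set.ncard_le_ncard_of_injOn _ hmaps hinj hfin).trans (hcard.trans ?_)
      have hq : 1 ≤ Nat.card (𝓞 E ⧸ P.asIdeal) ^ e := Nat.one_le_pow _ _ Nat.card_pos
      exact Nat.mul_le_mul_left _ (Nat.pow_le_pow_right hq (by omega))
  have hsub : cpts I i P e ⊆ ⋃ t, S t := fun 𝔮 h𝔮 => by
    obtain ⟨t, h1, h2⟩ := hcov 𝔮 h𝔮
    exact Set.mem_iUnion.mpr ⟨t, h𝔮, h1, h2⟩
  have hUfin : (⋃ t, S t).Finite := Set.finite_iUnion fun t => (hS t).1
  refine ⟨hUfin.subset hsub, ?_⟩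
  have h1 : (⋃ t, S t).ncard ≤ ∑ t, (S t).ncard := Set.ncard_iUnion_le_of_fintype _
  refine (Set.ncard_le_ncard hsub hUfin).trans (h1.trans ?_)
  rw [Finset.sum_mul]
  exact Finset.sum_le_sum fun t _ => (hS t).2

/-- The points lie in the charts `(𝒰.U i t).map`, and `card_points` bounds their number;
`card T + 1 ≤ m` for the charts which contain a point by `card_T_lt` (for
`𝔞 = (dId I i).map (redP _ P)`, `For.map`). The constant is
`∑ i, ∑ t, bnd n (deg (𝒰.U i t))` (`deg_map_le`). -/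
theorem card_cpts_good {𝒰 : Charts (𝓞 E) n} {m₀ : 𝓞 E} (h : Hyp I m 𝒰 m₀) :
    ∃ c : ℕ, ∀ P : HeightOneSpectrum (𝓞 E), m₀ ∉ P.asIdeal → ∀ i, ∀ e, 1 ≤ e →
      (cpts I i P e).Finite ∧
        (cpts I i P e).ncard ≤ c * (Nat.card (𝓞 E ⧸ P.asIdeal) ^ e) ^ (m - 1) := by
  classical
  refine ⟨∑ i, ∑ t, bnd n (𝒰.U i t).deg, fun P hP i e he => ?_⟩
  have hmk : Function.Surjective (Ideal.Quotient.mk P.asIdeal) := Ideal.Quotient.mk_surjective
  have hcov : ∀ 𝔮 ∈ cpts I i P e, ∃ t : 𝒰.τ i, (dId I i).map (redP _ P) ≤ 𝔮.map (redP _ P) ∧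
      ((𝒰.U i t).map (Ideal.Quotient.mk P.asIdeal)).h ∉ 𝔮.map (redP _ P) := by
    rintro 𝔮 ⟨h1, h2, h3, h4⟩
    have hm₀ : (C m₀ : MvPolynomial {l : Fin (n + 1) // l ≠ i} (𝓞 E)) ∉ 𝔮 := by
      intro h5
      have h6 : P.asIdeal ≤ 𝔮.comap C := Ideal.map_le_iff_le_comap.mp h3
      have h7 : 𝔮.comap C ≠ ⊤ := Ideal.comap_ne_top _ h1.ne_top
      have h8 := P.isMaximal.eq_of_le h7 h6
      exact hP (h8 ▸ h5)
    have h5 := h.charts.cover i
    obtain ⟨t, ht⟩ : ∃ t, (𝒰.U i t).h ∉ 𝔮 := by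
      by_contra hcon
      push Not at hcon
      apply hm₀
      have h6 : dId I i ⊔ Ideal.span (Set.range fun t => (𝒰.U i t).h) ≤ 𝔮 := by
        refine sup_le h2 (Ideal.span_le.mpr ?_)
        rintro _ ⟨t, rfl⟩
        exact hcon t
      exact h6 h5
    refine ⟨t, Ideal.map_mono h2, fun h6 => ht ?_⟩
    rw [Std.map_h] at h6
    rw [← (map_redP P h3).1]
    exact h6
  obtain ⟨h1, h2⟩ := h3_aux h P i (fun t => (𝒰.U i t).map (Ideal.Quotient.mk P.asIdeal))
    (fun _ => (dId I i).map (redP _ P)) (fun t => Std.For.map _ _ (h.charts.is i t) hmk)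
    (fun _ => le_rfl) he hcov
  refine ⟨h1, h2.trans (Nat.mul_le_mul_right _ ?_)⟩
  calc ∑ t, bnd n ((𝒰.U i t).map (Ideal.Quotient.mk P.asIdeal)).deg
      ≤ ∑ t, bnd n (𝒰.U i t).deg := by
        refine Finset.sum_le_sum fun t _ => ?_
        unfold bnd
        gcongr
        exact (𝒰.U i t).deg_map_le _
    _ ≤ ∑ i, ∑ t, bnd n (𝒰.U i t).deg :=
        Finset.single_le_sum (f := fun i => ∑ t, bnd n (𝒰.U i t).deg) (fun _ _ => Nat.zero_le _)
          (Finset.mem_univ i)

/-- As `card_cpts_good`, with the charts of `exists_strat` for the ideal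
`(dId I i).map (redP _ P)`. -/
theorem card_cpts_bad {𝒰 : Charts (𝓞 E) n} {m₀ : 𝓞 E} (h : Hyp I m 𝒰 m₀)
    (P : HeightOneSpectrum (𝓞 E)) :
    ∃ c : ℕ, ∀ i, ∀ e, 1 ≤ e → (cpts I i P e).Finite ∧
      (cpts I i P e).ncard ≤ c * (Nat.card (𝓞 E ⧸ P.asIdeal) ^ e) ^ (m - 1) := by
  classical
  have h0 : ∀ i : Fin (n + 1), ∃ c : ℕ, ∀ e, 1 ≤ e → (cpts I i P e).Finite ∧
      (cpts I i P e).ncard ≤ c * (Nat.card (𝓞 E ⧸ P.asIdeal) ^ e) ^ (m - 1) := by
    intro i
    obtain ⟨τ, _, V, 𝔭, h1, h2⟩ := exists_strat ((dId I i).map (redP _ P))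
    refine ⟨∑ t, bnd n (V t).deg, fun e he => ?_⟩
    refine h3_aux h P i V 𝔭 (fun t => (h1 t).1) (fun t => (h1 t).2) he ?_
    rintro 𝔮 ⟨h3, h4, h5, h6⟩
    exact h2 _ ((map_redP P h5).2.1 h3).isPrime (Ideal.map_mono h4)
  choose c hc using h0
  refine ⟨∑ i, c i, fun i e he => ⟨(hc i e he).1, (hc i e he).2.trans ?_⟩⟩
  exact Nat.mul_le_mul_right _ (Finset.single_le_sum (f := c) (fun _ _ => Nat.zero_le _)
    (Finset.mem_univ i))

/-- The points with residue field of degree `e`, `e₀ ≤ e`, `e * (m + 1) ≤ d + 1`: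
by `UD_bad` (with `card_quot_sq`) and the bound for their number, the sum over `e` of
`(n + 1) * c * Q ^ (m - 1) / Q ^ (m + 1)`, `Q = q ^ e`, is at most
`(n + 1) * c * ∑ e ≥ e₀, 1 / q ^ (2 * e) ≤ 2 * (n + 1) * c / q ^ (2 * e₀)`. -/
theorem UD_medium {s : ℕ} (b : Module.Basis (Fin s) ℤ (𝓞 E)) {𝒰 : Charts (𝓞 E) n} {m₀ : 𝓞 E}
    (h : Hyp I m 𝒰 m₀) (P : HeightOneSpectrum (𝓞 E)) {c : ℕ}
    (hc : ∀ i, ∀ e, 1 ≤ e → (cpts I i P e).Finite ∧
      (cpts I i P e).ncard ≤ c * (Nat.card (𝓞 E ⧸ P.asIdeal) ^ e) ^ (m - 1)) {d : ℕ}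
    {e₀ : ℕ} (he₀ : 1 ≤ e₀) :
    UD (fun u : Mono n d × Fin s → ℤ => ∃ e, e₀ ≤ e ∧ e * (m + 1) ≤ d + 1 ∧
      ∃ i, ∃ 𝔮 ∈ cpts I i P e, BadAt I (coeffs b u) i 𝔮)
      (2 * (n + 1) * c / (Nat.card (𝓞 E ⧸ P.asIdeal) : ℝ) ^ (2 * e₀)) := by
  classical
  have hq2 := two_le_norm P
  -- one point
  have h1 : ∀ e, 1 ≤ e → e * (m + 1) ≤ d + 1 → ∀ i, ∀ 𝔮 ∈ cpts I i P e,
      UD (fun u : Mono n d × Fin s → ℤ => BadAt I (coeffs b u) i 𝔮)
        (1 / (Nat.card (𝓞 E ⧸ P.asIdeal) : ℝ) ^ (e * (m + 1))) := by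
    rintro e he hem i 𝔮 ⟨h1, h2, h3, h4⟩
    obtain ⟨B, _, f, hB, hreg, hdim⟩ := h.loc i 𝔮 h1.isPrime h2
    obtain ⟨hfin, -, -⟩ := exists_card_residue' i P h1 h3
    exact UD_bad b I i P h1 h3 h4 (hB.card_quot_sq h1 h2 hfin (hdim h1)) hem
  -- one degree
  have h2 : ∀ e, 1 ≤ e → e * (m + 1) ≤ d + 1 → UD (fun u : Mono n d × Fin s → ℤ =>
      ∃ i ∈ (Finset.univ : Finset (Fin (n + 1))), ∃ 𝔮 ∈ cpts I i P e, BadAt I (coeffs b u) i 𝔮)
        (∑ i ∈ (Finset.univ : Finset (Fin (n + 1))),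
          (c : ℝ) * (1 / (Nat.card (𝓞 E ⧸ P.asIdeal) : ℝ) ^ 2) ^ e) := by
    intro e he hem
    refine UD.exists_finset _ fun i _ => ?_
    obtain ⟨hfin, hcard⟩ := hc i e he
    have h3 := UD.exists_finset hfin.toFinset
      (S := fun 𝔮 (u : Mono n d × Fin s → ℤ) => BadAt I (coeffs b u) i 𝔮)
      (c := fun _ => 1 / (Nat.card (𝓞 E ⧸ P.asIdeal) : ℝ) ^ (e * (m + 1)))
      fun 𝔮 h𝔮 => h1 e he hem i 𝔮 (hfin.mem_toFinset.mp h𝔮)
    refine h3.mono (fun u hu => ?_) ?_
    · obtain ⟨𝔮, h4, h5⟩ := hu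
      exact ⟨𝔮, hfin.mem_toFinset.mpr h4, h5⟩
    · rw [Finset.sum_const, nsmul_eq_mul, ← Set.ncard_eq_toFinset_card _ hfin]
      have h4 : ((cpts I i P e).ncard : ℝ) ≤
          c * ((Nat.card (𝓞 E ⧸ P.asIdeal) : ℝ) ^ e) ^ (m - 1) := by exact_mod_cast hcard
      have hm : m - 1 + 2 = m + 1 := by have := h.one_le; omega
      generalize (Nat.card (𝓞 E ⧸ P.asIdeal) : ℝ) = q at hq2 h4 ⊢
      have hq0 : 0 < q := by linarith
      calc ((cpts I i P e).ncard : ℝ) * (1 / q ^ (e * (m + 1)))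
          ≤ (c * (q ^ e) ^ (m - 1)) * (1 / q ^ (e * (m + 1))) := by gcongr
        _ = c * (1 / q ^ 2) ^ e := by
            rw [← hm, mul_add, pow_add, pow_mul, pow_mul, one_div, one_div, inv_pow,
              ← pow_mul q 2 e, mul_comm 2 e, pow_mul q e 2]
            field_simp
  -- all degrees
  have h3 := UD.exists_finset ((Finset.Ico e₀ (d + 2)).filter fun e => e * (m + 1) ≤ d + 1)
    (S := fun e (u : Mono n d × Fin s → ℤ) =>
      ∃ i ∈ (Finset.univ : Finset (Fin (n + 1))), ∃ 𝔮 ∈ cpts I i P e, BadAt I (coeffs b u) i 𝔮)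
    (c := fun e => ∑ i ∈ (Finset.univ : Finset (Fin (n + 1))),
      (c : ℝ) * (1 / (Nat.card (𝓞 E ⧸ P.asIdeal) : ℝ) ^ 2) ^ e)
    fun e he => by
      rw [Finset.mem_filter, Finset.mem_Ico] at he
      exact h2 e (by omega) he.2
  refine h3.mono (fun u hu => ?_) ?_
  · obtain ⟨e, h4, h5, i, h6⟩ := hu
    refine ⟨e, Finset.mem_filter.mpr ⟨Finset.mem_Ico.mpr ⟨h4, ?_⟩, h5⟩, i, Finset.mem_univ _, h6⟩
    nlinarith
  · generalize (Nat.card (𝓞 E ⧸ P.asIdeal) : ℝ) = q at hq2 ⊢
    have hq4 : (4 : ℝ) ≤ q ^ 2 := by nlinarith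
    have h0 : 0 ≤ 1 / q ^ 2 := by positivity
    have hx : 1 / q ^ 2 ≤ 1 / 4 := one_div_le_one_div_of_le (by norm_num) hq4
    calc ∑ e ∈ (Finset.Ico e₀ (d + 2)).filter fun e => e * (m + 1) ≤ d + 1,
          ∑ i ∈ (Finset.univ : Finset (Fin (n + 1))), (c : ℝ) * (1 / q ^ 2) ^ e
        ≤ ∑ e ∈ Finset.Ico e₀ (d + 2),
          ∑ i ∈ (Finset.univ : Finset (Fin (n + 1))), (c : ℝ) * (1 / q ^ 2) ^ e :=
          Finset.sum_le_sum_of_subset_of_nonneg (Finset.filter_subset _ _)
            fun e _ _ => by positivity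
      _ = ((n : ℝ) + 1) * (c : ℝ) * ∑ e ∈ Finset.Ico e₀ (d + 2), (1 / q ^ 2) ^ e := by
          rw [Finset.mul_sum]
          refine Finset.sum_congr rfl fun e _ => ?_
          rw [Finset.sum_const, Finset.card_univ, Fintype.card_fin, nsmul_eq_mul]
          push_cast
          ring
      _ ≤ ((n : ℝ) + 1) * (c : ℝ) * ((1 / q ^ 2) ^ e₀ / (1 - 1 / q ^ 2)) := by
          gcongr
          exact geom_sum_Ico_le_of_lt_one h0 (by linarith)
      _ ≤ ((n : ℝ) + 1) * (c : ℝ) * ((1 / q ^ 2) ^ e₀ * 2) := by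
          gcongr
          rw [div_eq_mul_inv]
          gcongr
          rw [inv_le_comm₀ (by linarith) (by norm_num)]
          linarith
      _ = 2 * (n + 1) * c / q ^ (2 * e₀) := by
          rw [one_div, inv_pow, ← pow_mul]
          field_simp

theorem h6_lim (n D₀ : ℕ) {L : ℕ} (hL : 0 < L) :
    Filter.Tendsto (fun d : ℕ => (bnd n (D₀ + d) : ℝ) * (1 / 2) ^ (d / L)) Filter.atTop
      (nhds 0) := by
  set k := (n + 1) ^ 2 with hk
  set C : ℕ := (n + 1) * (D₀ + L) + 1 with hC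
  have h1 : Filter.Tendsto (fun d : ℕ => d / L) Filter.atTop Filter.atTop :=
    Filter.tendsto_atTop_atTop.mpr fun b => ⟨b * L, fun a ha => (Nat.le_div_iff_mul_le hL).mpr ha⟩
  have h2 := ((r6_lim k).comp h1).const_mul (2 * (C : ℝ) ^ k)
  rw [mul_zero] at h2
  refine squeeze_zero (fun d => by positivity) (fun d => ?_) h2
  have h3 : (bnd n (D₀ + d) : ℝ) ≤ ((C : ℝ) * ((d / L + 1 : ℕ) : ℝ)) ^ k := by
    unfold bnd
    rw [← hk]
    have h4 : (n + 1) * (D₀ + d) + 1 ≤ C * (d / L + 1) := by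
      have h5 : d ≤ L * (d / L + 1) := by
        have := Nat.div_add_mod d L
        have := Nat.mod_lt d hL
        nlinarith
      have h6 : D₀ + d ≤ (D₀ + L) * (d / L + 1) := by
        rw [Nat.add_mul]
        exact Nat.add_le_add (Nat.le_mul_of_pos_right _ (Nat.succ_pos _)) h5
      calc (n + 1) * (D₀ + d) + 1 ≤ (n + 1) * ((D₀ + L) * (d / L + 1)) + (d / L + 1) :=
            Nat.add_le_add (Nat.mul_le_mul_left (n + 1) h6) (Nat.succ_le_succ (Nat.zero_le _))
        _ = C * (d / L + 1) := by rw [hC]; ring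
    exact_mod_cast Nat.pow_le_pow_left h4 k
  calc (bnd n (D₀ + d) : ℝ) * (1 / 2) ^ (d / L)
      ≤ ((C : ℝ) * ((d / L + 1 : ℕ) : ℝ)) ^ k * (1 / 2) ^ (d / L) := by gcongr
    _ = 2 * (C : ℝ) ^ k * (((d / L + 1 : ℕ) : ℝ) ^ k * (1 / 2) ^ (d / L + 1)) := by
        rw [mul_pow, pow_succ (1 / 2 : ℝ)]
        ring

theorem h6_small (n D₀ : ℕ) {L : ℕ} (hL : 0 < L) (K : ℕ) {ε : ℝ} (hε : 0 < ε) :
    ∃ d₀ : ℕ, ∀ d, d₀ ≤ d → (K : ℝ) * (bnd n (D₀ + d) * (1 / 2) ^ (d / L)) ≤ ε := by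
  have h := (h6_lim n D₀ hL).const_mul (K : ℝ)
  rw [mul_zero] at h
  exact Filter.eventually_atTop.1 (h.eventually_le_const hε)

/-- Elementary: the error terms are uniformly at most `1 / q ^ 2`. -/
theorem eventually_small (n m D₀ K : ℕ) : ∃ d₀ : ℕ, ∀ d, d₀ ≤ d → ∀ q : ℕ, 2 ≤ q →
    (K : ℝ) * ((n : ℝ) ^ n * bnd n (D₀ + d) / (q : ℝ) ^ ((d + 1) / 2) +
      bnd n (D₀ + d) / (q : ℝ) ^ ((d + 1) / (m + 1))) ≤ 1 / (q : ℝ) ^ 2 := by
  have hL : 0 < 2 * (m + 1) := by positivity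
  obtain ⟨d₀, hd₀⟩ := h6_small n D₀ hL (4 * K * (n ^ n + 1)) (ε := 1) one_pos
  refine ⟨max d₀ (4 * (m + 1)), fun d hd q hq => ?_⟩
  have hd1 : d₀ ≤ d := le_trans (le_max_left _ _) hd
  have hd2 : 4 * (m + 1) ≤ d := le_trans (le_max_right _ _) hd
  have h1 := hd₀ d hd1
  have hq2 : (2 : ℝ) ≤ q := by exact_mod_cast hq
  have hq0 : (0 : ℝ) < q := by linarith
  set B : ℝ := ((bnd n (D₀ + d) : ℕ) : ℝ) with hB
  have hB0 : 0 ≤ B := Nat.cast_nonneg _
  have key : ∀ e : ℕ, 2 ≤ e → d / (2 * (m + 1)) ≤ e →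
      B / (q : ℝ) ^ e ≤ 4 * (B * (1 / 2) ^ (d / (2 * (m + 1)))) * (1 / (q : ℝ) ^ 2) := by
    intro e he hde
    obtain ⟨f, rfl⟩ : ∃ f, e = f + 2 := ⟨e - 2, by omega⟩
    have h3 : (2 : ℝ) ^ f * (q : ℝ) ^ 2 ≤ (q : ℝ) ^ (f + 2) := by
      rw [pow_add]
      gcongr
    have h4 : (1 / 2 : ℝ) ^ (f + 2) ≤ (1 / 2) ^ (d / (2 * (m + 1))) :=
      pow_le_pow_of_le_one (by norm_num) (by norm_num) hde
    calc B / (q : ℝ) ^ (f + 2) ≤ B / ((2 : ℝ) ^ f * (q : ℝ) ^ 2) := by gcongr
      _ = 4 * (B * (1 / 2) ^ (f + 2)) * (1 / (q : ℝ) ^ 2) := by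
          rw [one_div, one_div, inv_pow, pow_add]
          field_simp
          ring
      _ ≤ _ := by gcongr
  have hm : 0 < m + 1 := Nat.succ_pos m
  have e1 := key ((d + 1) / 2) (by omega) (by
    calc d / (2 * (m + 1)) ≤ d / 2 := Nat.div_le_div_left (by omega) (by norm_num)
      _ ≤ (d + 1) / 2 := Nat.div_le_div_right (by omega))
  have e2 := key ((d + 1) / (m + 1)) ((Nat.le_div_iff_mul_le hm).mpr (by omega)) (by
    calc d / (2 * (m + 1)) ≤ d / (m + 1) := Nat.div_le_div_left (by omega) hm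
      _ ≤ (d + 1) / (m + 1) := Nat.div_le_div_right (by omega))
  set Y : ℝ := B * (1 / 2) ^ (d / (2 * (m + 1))) with hY
  have hn0 : (0 : ℝ) ≤ (n : ℝ) ^ n := by positivity
  have hK0 : (0 : ℝ) ≤ K := Nat.cast_nonneg _
  push_cast at h1
  calc (K : ℝ) * ((n : ℝ) ^ n * B / (q : ℝ) ^ ((d + 1) / 2) + B / (q : ℝ) ^ ((d + 1) / (m + 1)))
      = K * ((n : ℝ) ^ n * (B / (q : ℝ) ^ ((d + 1) / 2)) + B / (q : ℝ) ^ ((d + 1) / (m + 1))) := by
        ring
    _ ≤ K * ((n : ℝ) ^ n * (4 * Y * (1 / (q : ℝ) ^ 2)) + 4 * Y * (1 / (q : ℝ) ^ 2)) := by gcongr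
    _ = (4 * K * ((n : ℝ) ^ n + 1) * Y) * (1 / (q : ℝ) ^ 2) := by ring
    _ ≤ 1 * (1 / (q : ℝ) ^ 2) := by gcongr
    _ = 1 / (q : ℝ) ^ 2 := one_mul _

theorem h7_chart {𝒰 : Charts (𝓞 E) n} {m₀ : 𝓞 E} (h : Hyp I m 𝒰 m₀)
    {P : HeightOneSpectrum (𝓞 E)} (hP : m₀ ∉ P.asIdeal) {i : Fin (n + 1)}
    {𝔮 : Ideal (MvPolynomial {l : Fin (n + 1) // l ≠ i} (𝓞 E))} (h1 : 𝔮.IsMaximal)
    (h2 : dId I i ≤ 𝔮) (h3 : P.asIdeal.map C ≤ 𝔮) : ∃ t, (𝒰.U i t).h ∉ 𝔮 := by
  have hm₀ : (C m₀ : MvPolynomial {l : Fin (n + 1) // l ≠ i} (𝓞 E)) ∉ 𝔮 := by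
    intro h5
    have h6 : P.asIdeal ≤ 𝔮.comap C := Ideal.map_le_iff_le_comap.mp h3
    have h7 : 𝔮.comap C ≠ ⊤ := Ideal.comap_ne_top _ h1.ne_top
    have h8 := P.isMaximal.eq_of_le h7 h6
    exact hP (h8 ▸ h5)
  by_contra hcon
  push Not at hcon
  apply hm₀
  have h6 : dId I i ⊔ Ideal.span (Set.range fun t => (𝒰.U i t).h) ≤ 𝔮 := by
    refine sup_le h2 (Ideal.span_le.mpr ?_)
    rintro _ ⟨t, rfl⟩
    exact hcon t
  exact h6 (h.charts.cover i)

/-- `UD_medium` with `e₀ = 1`, and for each chart `UD_crit` and `UD_high_good` with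
`r = (d + 1) / (m + 1) - 1` (where `r + 1 = (d + 1) / (m + 1)`; a point of degree `e > r` has
`e * (m + 1) > d + 1` or is of medium degree). -/
theorem UD_good {s : ℕ} (b : Module.Basis (Fin s) ℤ (𝓞 E)) {𝒰 : Charts (𝓞 E) n} {m₀ : 𝓞 E}
    (h : Hyp I m 𝒰 m₀) :
    ∃ (c : ℝ) (d₀ : ℕ), ∀ P : HeightOneSpectrum (𝓞 E), m₀ ∉ P.asIdeal → ∀ d, d₀ ≤ d →
      UD (fun u : Mono n d × Fin s → ℤ => ¬ TotReg I P (coeffs b u))
        (c / (Nat.card (𝓞 E ⧸ P.asIdeal) : ℝ) ^ 2) := by
  classical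
  obtain ⟨c, hc⟩ := card_cpts_good h
  let T := Σ i : Fin (n + 1), 𝒰.τ i
  set D₀ : ℕ := ∑ x : T, (𝒰.U x.1 x.2).deg with hD₀
  have hdeg : ∀ x : T, (𝒰.U x.1 x.2).deg ≤ D₀ := fun x =>
    Finset.single_le_sum (f := fun x : T => (𝒰.U x.1 x.2).deg) (fun _ _ => Nat.zero_le _)
      (Finset.mem_univ x)
  obtain ⟨d₁, hd₁⟩ := eventually_small n m D₀ (Fintype.card T)
  refine ⟨2 * (n + 1) * c + 1, max d₁ (m + 1), fun P hP d hd => ?_⟩
  have hdd1 : d₁ ≤ d := le_trans (le_max_left _ _) hd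
  have hdm : m + 1 ≤ d := le_trans (le_max_right _ _) hd
  have hq2 : 2 ≤ Nat.card (𝓞 E ⧸ P.asIdeal) := by exact_mod_cast two_le_norm P
  have hsmall := hd₁ d hdd1 _ hq2
  have hmed := UD_medium b h P (hc P hP) (d := d) (e₀ := 1) le_rfl
  set r := (d + 1) / (m + 1) - 1 with hr
  have hr1 : r + 1 = (d + 1) / (m + 1) := by
    have : 1 ≤ (d + 1) / (m + 1) := (Nat.le_div_iff_mul_le (by omega)).mpr (by omega)
    omega
  have hrd : r ≤ d := by
    have : (d + 1) / (m + 1) ≤ d + 1 := Nat.div_le_self _ _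
    omega
  -- the charts
  have hch := UD.exists_finset (Finset.univ : Finset T)
    (c := fun _ => (n : ℝ) ^ n * bnd n (D₀ + d) / (Nat.card (𝓞 E ⧸ P.asIdeal) : ℝ) ^ ((d + 1) / 2) +
      bnd n (D₀ + d) / (Nat.card (𝓞 E ⧸ P.asIdeal) : ℝ) ^ (r + 1))
    fun x _ => (UD_crit b (d := d) x.1 P (by omega)
      ((𝒰.U x.1 x.2).map (Ideal.Quotient.mk P.asIdeal)) (D := D₀ + d)
      (Nat.add_le_add_right (((𝒰.U x.1 x.2).deg_map_le _).trans (hdeg x)) d)).or
      (UD_high_good b I x.1 P (𝒰.U x.1 x.2) (h.charts.is x.1 x.2) hrd (D := D₀ + d)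
        (Nat.add_le_add_right (hdeg x) d))
  refine (hmed.or hch).mono (fun u hu => ?_) ?_
  · unfold TotReg at hu
    push Not at hu
    obtain ⟨i, 𝔮, h1, h2, h3, hbad⟩ := hu
    obtain ⟨-, -, e, he, hce⟩ := exists_card_residue' i P h1 h3
    by_cases hem : e * (m + 1) ≤ d + 1
    · exact Or.inl ⟨e, he, hem, i, 𝔮, ⟨h1, h2, h3, hce⟩, hbad⟩
    · right
      obtain ⟨t, ht⟩ := h7_chart h hP h1 h2 h3
      refine ⟨⟨i, t⟩, Finset.mem_univ _, ?_⟩
      by_cases hcrit : ((((𝒰.U i t).map (Ideal.Quotient.mk P.asIdeal)).critIdeals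
          (redP _ P (dF (coeffs b u) i))).Finite ∧
        (((𝒰.U i t).map (Ideal.Quotient.mk P.asIdeal)).critIdeals
          (redP _ P (dF (coeffs b u) i))).ncard ≤ bnd n (D₀ + d))
      · right
        refine ⟨hcrit.1, hcrit.2, 𝔮, h1, h2, h3, ht, ?_, hbad⟩
        rw [hce]
        apply Nat.pow_lt_pow_right (by omega)
        have h4 : (r + 1) * (m + 1) ≤ d + 1 := by
          rw [hr1]
          exact Nat.div_mul_le_self _ _
        by_contra h5
        push Not at h5
        have h6 : e * (m + 1) ≤ r * (m + 1) := Nat.mul_le_mul_right _ h5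
        apply hem
        nlinarith
      · exact Or.inl hcrit
  · rw [Finset.sum_const, Finset.card_univ, nsmul_eq_mul, hr1, add_div, mul_one]
    gcongr

/-- Elementary: the error terms for the `p`-th powers tend to `0`. -/
theorem tendsto_small (n m D₀ p : ℕ) (hp : 1 ≤ p) {q : ℕ} (hq : 2 ≤ q) (K : ℕ) {ε : ℝ}
    (hε : 0 < ε) : ∃ d₀ : ℕ, ∀ d, d₀ ≤ d →
    (K : ℝ) * ((n : ℝ) ^ n * bnd n (D₀ + d) / (q : ℝ) ^ ((d + 1) / 2) +
      bnd n (D₀ + d) / (q : ℝ) ^ (min ((d + 1) / (m + 1) - 1) (d / p) + 1)) ≤ ε := by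
  have hL : 0 < 2 * (m + 1) * p := by positivity
  obtain ⟨d₀, hd₀⟩ := h6_small n D₀ hL (K * (n ^ n + 1)) hε
  refine ⟨d₀, fun d hd => ?_⟩
  have h1 := hd₀ d hd
  have hq2 : (2 : ℝ) ≤ q := by exact_mod_cast hq
  have hq0 : (0 : ℝ) < q := by linarith
  set B : ℝ := ((bnd n (D₀ + d) : ℕ) : ℝ) with hB
  have hB0 : 0 ≤ B := Nat.cast_nonneg _
  have key : ∀ e : ℕ, d / (2 * (m + 1) * p) ≤ e →
      B / (q : ℝ) ^ e ≤ B * (1 / 2) ^ (d / (2 * (m + 1) * p)) := by
    intro e hde
    have h4 : (1 / 2 : ℝ) ^ e ≤ (1 / 2) ^ (d / (2 * (m + 1) * p)) :=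
      pow_le_pow_of_le_one (by norm_num) (by norm_num) hde
    calc B / (q : ℝ) ^ e ≤ B / (2 : ℝ) ^ e := by gcongr
      _ = B * (1 / 2) ^ e := by rw [one_div, inv_pow]; rfl
      _ ≤ _ := by gcongr
  have hm : 0 < m + 1 := Nat.succ_pos m
  have f1 : d / (2 * (m + 1) * p) ≤ d / 2 := Nat.div_le_div_left (by nlinarith) (by norm_num)
  have f2 : d / (2 * (m + 1) * p) ≤ d / (m + 1) := Nat.div_le_div_left (by nlinarith) hm
  have f3 : d / (2 * (m + 1) * p) ≤ d / p := Nat.div_le_div_left (by nlinarith) (by omega)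
  have g1 : d / 2 ≤ (d + 1) / 2 := Nat.div_le_div_right (by omega)
  have g2 : d / (m + 1) ≤ (d + 1) / (m + 1) := Nat.div_le_div_right (by omega)
  have e1 := key ((d + 1) / 2) (by omega)
  have e2 := key (min ((d + 1) / (m + 1) - 1) (d / p) + 1) (by omega)
  set Y : ℝ := B * (1 / 2) ^ (d / (2 * (m + 1) * p)) with hY
  have hn0 : (0 : ℝ) ≤ (n : ℝ) ^ n := by positivity
  have hK0 : (0 : ℝ) ≤ K := Nat.cast_nonneg _
  push_cast at h1
  calc (K : ℝ) * ((n : ℝ) ^ n * B / (q : ℝ) ^ ((d + 1) / 2) +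
        B / (q : ℝ) ^ (min ((d + 1) / (m + 1) - 1) (d / p) + 1))
      = K * ((n : ℝ) ^ n * (B / (q : ℝ) ^ ((d + 1) / 2)) +
        B / (q : ℝ) ^ (min ((d + 1) / (m + 1) - 1) (d / p) + 1)) := by
        ring
    _ ≤ K * ((n : ℝ) ^ n * Y + Y) := by gcongr
    _ = K * ((n : ℝ) ^ n + 1) * Y := by ring
    _ ≤ ε := h1

/-- `UD_medium`, and `UD_crit` and `UD_high_bad` for the charts of `exists_strat`, for
each `i`. -/
theorem UD_any {s : ℕ} (b : Module.Basis (Fin s) ℤ (𝓞 E)) {𝒰 : Charts (𝓞 E) n} {m₀ : 𝓞 E}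
    (h : Hyp I m 𝒰 m₀) (P : HeightOneSpectrum (𝓞 E)) {ε : ℝ} (hε : 0 < ε) :
    ∃ e₀ d₀ : ℕ, ∀ d, d₀ ≤ d → UD (fun u : Mono n d × Fin s → ℤ =>
      ∃ (i : Fin (n + 1)) (𝔮 : Ideal (MvPolynomial {l : Fin (n + 1) // l ≠ i} (𝓞 E))),
        𝔮.IsMaximal ∧ dId I i ≤ 𝔮 ∧ P.asIdeal.map C ≤ 𝔮 ∧
        Nat.card (𝓞 E ⧸ P.asIdeal) ^ e₀ ≤
          Nat.card (MvPolynomial {l : Fin (n + 1) // l ≠ i} (𝓞 E) ⧸ 𝔮) ∧
        BadAt I (coeffs b u) i 𝔮) ε := by
  classical
  obtain ⟨c, hc⟩ := card_cpts_bad h P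
  have hq2 : 2 ≤ Nat.card (𝓞 E ⧸ P.asIdeal) := by exact_mod_cast two_le_norm P
  choose τ hτ V 𝔭 hV hcov using fun i : Fin (n + 1) => exists_strat ((dId I i).map (redP _ P))
  let T := Σ i : Fin (n + 1), τ i
  set D₀ : ℕ := ∑ x : T, (V x.1 x.2).deg with hD₀
  have hdeg : ∀ x : T, (V x.1 x.2).deg ≤ D₀ := fun x =>
    Finset.single_le_sum (f := fun x : T => (V x.1 x.2).deg) (fun _ _ => Nat.zero_le _)
      (Finset.mem_univ x)
  obtain ⟨p, hp⟩ := CharP.exists (𝓞 E ⧸ P.asIdeal)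
  have hp1 : 1 ≤ p := Nat.one_le_iff_ne_zero.mpr (CharP.char_ne_zero_of_finite (𝓞 E ⧸ P.asIdeal) p)
  obtain ⟨d₁, hd₁⟩ := tendsto_small n m D₀ p hp1 hq2 (Fintype.card T) (half_pos hε)
  -- the choice of `e₀`
  obtain ⟨e₀, he₀1, he₀⟩ : ∃ e₀, 1 ≤ e₀ ∧
      2 * (n + 1) * c / (Nat.card (𝓞 E ⧸ P.asIdeal) : ℝ) ^ (2 * e₀) ≤ ε / 2 := by
    have hq2' : (2 : ℝ) ≤ Nat.card (𝓞 E ⧸ P.asIdeal) := two_le_norm P
    generalize (Nat.card (𝓞 E ⧸ P.asIdeal) : ℝ) = q at hq2' ⊢
    have hx0 : 0 ≤ 1 / q ^ 2 := by positivity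
    have hx1 : 1 / q ^ 2 < 1 := by
      rw [div_lt_one (by positivity)]
      nlinarith
    have h1 := (tendsto_pow_atTop_nhds_zero_of_lt_one hx0 hx1).const_mul (2 * ((n : ℝ) + 1) * c)
    rw [mul_zero] at h1
    obtain ⟨e₁, he₁⟩ := Filter.eventually_atTop.1 (h1.eventually_le_const (half_pos hε))
    refine ⟨e₁ + 1, by omega, ?_⟩
    have h2 := he₁ (e₁ + 1) (by omega)
    rw [one_div, inv_pow, ← pow_mul] at h2
    rwa [div_eq_mul_inv]
  refine ⟨e₀, max d₁ (m + 1), fun d hd => ?_⟩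
  have hdd1 : d₁ ≤ d := le_trans (le_max_left _ _) hd
  have hdm : m + 1 ≤ d := le_trans (le_max_right _ _) hd
  have hsmall := hd₁ d hdd1
  have hmed := UD_medium b h P hc (d := d) (e₀ := e₀) he₀1
  set r := (d + 1) / (m + 1) - 1 with hr
  have hr1 : r + 1 = (d + 1) / (m + 1) := by
    have : 1 ≤ (d + 1) / (m + 1) := (Nat.le_div_iff_mul_le (by omega)).mpr (by omega)
    omega
  have hch := UD.exists_finset (Finset.univ : Finset T)
    (c := fun _ => (n : ℝ) ^ n * bnd n (D₀ + d) / (Nat.card (𝓞 E ⧸ P.asIdeal) : ℝ) ^ ((d + 1) / 2) +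
      bnd n (D₀ + d) / (Nat.card (𝓞 E ⧸ P.asIdeal) : ℝ) ^ (min r (d / p) + 1))
    fun x _ => (UD_crit b (d := d) x.1 P (by omega) (V x.1 x.2) (D := D₀ + d)
      (Nat.add_le_add_right (hdeg x) d)).or
      (UD_high_bad b I x.1 P p (V x.1 x.2) (hV x.1 x.2).1 (hV x.1 x.2).2 (r := r) (D := D₀ + d)
        (Nat.add_le_add_right (hdeg x) d))
  refine (hmed.or hch).mono (fun u hu => ?_) ?_
  · obtain ⟨i, 𝔮, h1, h2, h3, hlarge, hbad⟩ := hu
    obtain ⟨-, -, e, he, hce⟩ := exists_card_residue' i P h1 h3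
    have hee : e₀ ≤ e := by
      rw [hce] at hlarge
      exact (Nat.pow_le_pow_iff_right (by omega)).mp hlarge
    by_cases hem : e * (m + 1) ≤ d + 1
    · exact Or.inl ⟨e, hee, hem, i, 𝔮, ⟨h1, h2, h3, hce⟩, hbad⟩
    · right
      obtain ⟨e1, e2, e3⟩ := map_redP P h3
      obtain ⟨t, ht1, ht2⟩ := hcov i _ (e2 h1).isPrime (Ideal.map_mono h2)
      refine ⟨⟨i, t⟩, Finset.mem_univ _, ?_⟩
      by_cases hcrit : (((V i t).critIdeals (redP _ P (dF (coeffs b u) i))).Finite ∧
        ((V i t).critIdeals (redP _ P (dF (coeffs b u) i))).ncard ≤ bnd n (D₀ + d))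
      · right
        refine ⟨hcrit.1, hcrit.2, 𝔮.map (redP _ P), e2 h1, ht1, ht2, ?_, ?_⟩
        · rw [e3, hce]
          apply Nat.pow_lt_pow_right (by omega)
          have h4 : (r + 1) * (m + 1) ≤ d + 1 := by
            rw [hr1]
            exact Nat.div_mul_le_self _ _
          by_contra h5
          push Not at h5
          have h6 : e * (m + 1) ≤ r * (m + 1) := Nat.mul_le_mul_right _ h5
          apply hem
          nlinarith
        · rw [e1]
          exact hbad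
      · exact Or.inl hcrit
  · rw [Finset.sum_const, Finset.card_univ, nsmul_eq_mul]
    have h1 := add_le_add he₀ hsmall
    rw [add_halves] at h1
    exact h1

theorem h10_exists_index {𝒰 : Charts (𝓞 E) n} {m₀ : 𝓞 E} (h : Hyp I m 𝒰 m₀)
    (y : closedPoints (hProj I)) : ∃ (i : Fin (n + 1)) (P : HeightOneSpectrum (𝓞 E)) (e : ℕ)
      (𝔮 : Ideal (MvPolynomial {l : Fin (n + 1) // l ≠ i} (𝓞 E))), 𝔮 ∈ cpts I i P (e + 1) ∧
        AtPt I y.1 i 𝔮 ∧ Nat.card ((hProj I).residueField y.1) =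
          Nat.card (𝓞 E ⧸ P.asIdeal) ^ (e + 1) := by
  obtain ⟨i, 𝔮, hat⟩ := exists_atPt I y.1
  have hmax : 𝔮.IsMaximal := (hat.mem_closedPoints_iff I).mp y.2
  obtain ⟨P, hP⟩ := exists_prime_le hmax
  obtain ⟨-, -, e, he, hc⟩ := exists_card_residue' i P hmax hP
  obtain ⟨e, rfl⟩ : ∃ f, e = f + 1 := ⟨e - 1, by omega⟩
  exact ⟨i, P, e, 𝔮, ⟨hmax, hat.2.1, hP, hc⟩, hat, by rw [hat.card_residueField I hmax, hc]⟩

/-- `∑ y, 1 / N(y) ^ (m + 1) ≤ ∑ i, ∑ P, ∑ e ≥ 1, c_P * q ^ (e * (m - 1)) / q ^ (e * (m + 1))`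
with `c_P = c` for `m₀ ∉ P`; `summable_norm`; finitely many `P` contain `m₀`. -/
theorem summable_points {𝒰 : Charts (𝓞 E) n} {m₀ : 𝓞 E} (h : Hyp I m 𝒰 m₀) :
    Summable fun y : closedPoints (hProj I) =>
      1 / (Nat.card ((hProj I).residueField y.1) : ℝ) ^ (m + 1) := by
  classical
  obtain ⟨c, hc⟩ := card_cpts_good h
  choose c' hc' using fun P : HeightOneSpectrum (𝓞 E) => card_cpts_bad h P
  let cc : HeightOneSpectrum (𝓞 E) → ℕ := fun P => if m₀ ∉ P.asIdeal then c else c' P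
  have hcc : ∀ (P : HeightOneSpectrum (𝓞 E)) (i : Fin (n + 1)) (e : ℕ), 1 ≤ e →
      (cpts I i P e).Finite ∧
        (cpts I i P e).ncard ≤ cc P * (Nat.card (𝓞 E ⧸ P.asIdeal) ^ e) ^ (m - 1) := by
    intro P i e he
    by_cases hP : m₀ ∉ P.asIdeal
    · simp only [cc, if_pos hP]
      exact hc P hP i e he
    · simp only [cc, if_neg hP]
      exact hc' P i e he
  -- the index type
  let ι := Σ x : Fin (n + 1) × (HeightOneSpectrum (𝓞 E) × ℕ), cpts I x.1 x.2.1 (x.2.2 + 1)
  let g : ι → ℝ := fun x => 1 / ((Nat.card (𝓞 E ⧸ x.1.2.1.asIdeal) : ℝ) ^ (x.1.2.2 + 1)) ^ (m + 1)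
  have hg : Summable g := by
    have hq : ∀ P : HeightOneSpectrum (𝓞 E), (2 : ℝ) ≤ Nat.card (𝓞 E ⧸ P.asIdeal) :=
      fun P => two_le_norm P
    refine (summable_sigma_of_nonneg (fun x => by positivity)).mpr ⟨fun x => ?_, ?_⟩
    · have := (hcc x.2.1 x.1 (x.2.2 + 1) (by omega)).1.to_subtype
      have := Fintype.ofFinite (cpts I x.1 x.2.1 (x.2.2 + 1))
      exact (hasSum_fintype _).summable
    · have hle : ∀ x : Fin (n + 1) × (HeightOneSpectrum (𝓞 E) × ℕ),
          (∑' z : cpts I x.1 x.2.1 (x.2.2 + 1), g ⟨x, z⟩) ≤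
            (cc x.2.1 : ℝ) / ((Nat.card (𝓞 E ⧸ x.2.1.asIdeal) : ℝ) ^ 2) ^ (x.2.2 + 1) := by
        rintro ⟨i, P, e⟩
        obtain ⟨h1, h2⟩ := hcc P i (e + 1) (by omega)
        have := h1.to_subtype
        have := Fintype.ofFinite (cpts I i P (e + 1))
        rw [tsum_fintype]
        simp only [g]
        rw [Finset.sum_const, nsmul_eq_mul, Finset.card_univ, ← Nat.card_eq_fintype_card,
          Nat.card_coe_set_eq]
        set q : ℝ := (Nat.card (𝓞 E ⧸ P.asIdeal) : ℝ) with hqd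
        have hq0 : 0 < q := by have := hq P; linarith
        have h3 : ((cpts I i P (e + 1)).ncard : ℝ) ≤ cc P * (q ^ (e + 1)) ^ (m - 1) := by
          rw [hqd]
          exact_mod_cast h2
        have hm : m - 1 + 2 = m + 1 := by have := h.one_le; omega
        calc ((cpts I i P (e + 1)).ncard : ℝ) * (1 / (q ^ (e + 1)) ^ (m + 1))
            ≤ (cc P * (q ^ (e + 1)) ^ (m - 1)) * (1 / (q ^ (e + 1)) ^ (m + 1)) := by gcongr
          _ = cc P / (q ^ 2) ^ (e + 1) := by
              rw [← hm, pow_add (q ^ (e + 1)), ← pow_mul q 2, ← pow_mul q (e + 1) 2,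
                mul_comm (e + 1) 2]
              field_simp
      refine Summable.of_nonneg_of_le (fun x => tsum_nonneg fun z => by positivity) hle ?_
      -- summation over `i`, `P`, `e`
      refine (summable_prod_of_nonneg (fun x => by positivity)).mpr ⟨fun i => ?_,
        (hasSum_fintype _).summable⟩
      refine (summable_prod_of_nonneg (fun x => by positivity)).mpr ⟨fun P => ?_, ?_⟩
      · have h1 : |1 / (Nat.card (𝓞 E ⧸ P.asIdeal) : ℝ) ^ 2| < 1 := by
          rw [abs_of_nonneg (by positivity), div_lt_one (by have := hq P; positivity)]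
          have := hq P
          nlinarith
        have h2 := ((summable_nat_add_iff 1).mpr (summable_geometric_of_abs_lt_one h1)).mul_left
          (cc P : ℝ)
        refine h2.congr fun e => ?_
        rw [one_div, inv_pow, div_eq_mul_inv]
      · have h1 : ∀ P : HeightOneSpectrum (𝓞 E),
            (∑' e : ℕ, (cc P : ℝ) / ((Nat.card (𝓞 E ⧸ P.asIdeal) : ℝ) ^ 2) ^ (e + 1)) ≤
              2 * ((cc P : ℝ) * (1 / (Nat.card (𝓞 E ⧸ P.asIdeal) : ℝ) ^ 2)) := by
          intro P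
          have hqP := hq P
          set q : ℝ := (Nat.card (𝓞 E ⧸ P.asIdeal) : ℝ) with hqd
          have hq4 : (4 : ℝ) ≤ q ^ 2 := by nlinarith
          have h0 : 0 ≤ 1 / q ^ 2 := by positivity
          have h2 : 1 / q ^ 2 ≤ 1 / 4 := one_div_le_one_div_of_le (by norm_num) hq4
          have h3 : (∑' e : ℕ, (cc P : ℝ) / (q ^ 2) ^ (e + 1)) =
              (cc P : ℝ) * (1 / q ^ 2) * (1 - 1 / q ^ 2)⁻¹ := by
            rw [← tsum_geometric_of_lt_one h0 (by linarith), ← tsum_mul_left]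
            refine tsum_congr fun e => ?_
            rw [pow_succ, one_div, inv_pow]
            field_simp
          rw [h3]
          have h4 : (1 - 1 / q ^ 2)⁻¹ ≤ 2 := by
            rw [inv_le_comm₀ (by linarith) (by norm_num)]
            linarith
          calc (cc P : ℝ) * (1 / q ^ 2) * (1 - 1 / q ^ 2)⁻¹ ≤ (cc P : ℝ) * (1 / q ^ 2) * 2 := by
                gcongr
            _ = _ := by ring
        refine Summable.of_nonneg_of_le (fun P => tsum_nonneg fun e => by positivity) h1 ?_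
        refine Summable.mul_left _ ?_
        have hfin : {P : HeightOneSpectrum (𝓞 E) | m₀ ∈ P.asIdeal}.Finite := by
          have h2 := Ideal.finite_factors (I := Ideal.span {m₀})
            (by rw [Ne, Ideal.zero_eq_bot, Ideal.span_singleton_eq_bot]; exact h.ne)
          refine h2.subset fun P hP => ?_
          rw [Set.mem_ofPred_eq, Ideal.dvd_span_singleton]
          exact hP
        have h2 : Summable fun P : HeightOneSpectrum (𝓞 E) =>
            (c : ℝ) * (1 / (Nat.card (𝓞 E ⧸ P.asIdeal) : ℝ) ^ 2) := (summable_norm E).mul_left _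
        refine (summable_congr_cofinite ?_).mp h2
        have h3 : ∀ᶠ P : HeightOneSpectrum (𝓞 E) in Filter.cofinite, m₀ ∉ P.asIdeal := by
          rw [Filter.eventually_cofinite]
          simpa using hfin
        filter_upwards [h3] with P hP
        simp only [cc, if_pos hP]
  -- the injection
  have hx : ∀ y : closedPoints (hProj I), ∃ x : ι, AtPt I y.1 x.1.1 x.2.1 ∧
      1 / (Nat.card ((hProj I).residueField y.1) : ℝ) ^ (m + 1) = g x := by
    intro y
    obtain ⟨i, P, e, 𝔮, h1, h2, h3⟩ := h10_exists_index h y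
    refine ⟨⟨(i, P, e), ⟨𝔮, h1⟩⟩, h2, ?_⟩
    simp only [g]
    rw [h3]
    push_cast
    rfl
  choose f hf1 hf2 using hx
  have hinj : Function.Injective f := fun y y' hyy => by
    have h1 := hf1 y
    rw [hyy] at h1
    exact Subtype.ext (h1.pt_unique I (hf1 y'))
  exact (hg.comp_injective hinj).congr fun y => (hf2 y).symm

/-- The closed points over `P` of bounded degree are finite in number. -/
theorem finite_points {𝒰 : Charts (𝓞 E) n} {m₀ : 𝓞 E} (h : Hyp I m 𝒰 m₀)
    (P : HeightOneSpectrum (𝓞 E)) (K : ℕ) :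
    {y : closedPoints (hProj I) | Nat.card ((hProj I).residueField y.1) ≤ K ∧
      ∃ i 𝔮, AtPt I y.1 i 𝔮 ∧ P.asIdeal.map C ≤ 𝔮}.Finite := by
  classical
  obtain ⟨c, hc⟩ := card_cpts_bad h P
  have hfin : (⋃ i : Fin (n + 1), ⋃ e ∈ Set.Icc 1 K, ⋃ 𝔮 ∈ cpts I i P e,
      {y : closedPoints (hProj I) | AtPt I y.1 i 𝔮}).Finite := by
    refine Set.finite_iUnion fun i => ?_
    refine (Set.finite_Icc 1 K).biUnion fun e he => ?_
    refine (hc i e he.1).1.biUnion fun 𝔮 _ => ?_
    refine Set.Subsingleton.finite fun y hy y' hy' => Subtype.ext ?_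
    exact AtPt.pt_unique I hy hy'
  refine hfin.subset ?_
  rintro y ⟨hK, i, 𝔮, hat, hP⟩
  have hmax : 𝔮.IsMaximal := (hat.mem_closedPoints_iff I).mp y.2
  obtain ⟨-, -, e, he, hce⟩ := exists_card_residue' i P hmax hP
  have hq : 2 ≤ Nat.card (𝓞 E ⧸ P.asIdeal) := by exact_mod_cast two_le_norm P
  have heK : e ≤ K := by
    rw [hat.card_residueField I hmax, hce] at hK
    exact (Nat.lt_pow_self (by omega)).le.trans hK
  simp only [Set.mem_iUnion, Set.mem_ofPred_eq]
  exact ⟨i, e, ⟨he, heK⟩, 𝔮, ⟨hmax, hat.2.1, hP, hce⟩, hat⟩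

end

end Pool.Agent.Lib.MP_6a3dac_ag.Bert
end
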