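import Pool.Agent.Lib.MP_6a3dac_ag.Fam.F6
import Pool.Agent.Lib.MP_6a3dac_ag.Mg.G017
import Pool.Agent.Lib.MP_6a3dac_ag.Mg.G027
import Pool.Agent.Lib.MP_6a3dac_ag.Mg.G043

section

/-!
# The local-global principle, abstract form
-/

set_option autoImplicit false

namespace Pool.Agent.Lib.MP_6a3dac_ag.Fam

open MvPolynomial CategoryTheory Limits AlgebraicGeometry NumberField IsDedekindDomain Filter
open IsLocalRing Topology
open Pool.Agent.Lib.MP_6a3dac_ag.DNF Pool.Agent.Lib.MP_6a3dac_ag.Bert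
open Pool.Agent.Lib.MP_6a3dac_ag.Maj

section Fsec

variable {E : Type} [Field E] [NumberField E] {ι : Type} {m c : ℕ}

/-- The lower bound if all members with a smooth generic fibre have models near `P` outside of the
locus `g = G = 0` modulo `P`, for almost all `P`. -/
theorem families_lg_abs {s : ℕ} (b : Module.Basis (Fin s) ℤ (𝓞 E)) [Fintype ι] [DecidableEq ι]
    (J : HomIdeal (MvPolynomial ι (𝓞 E)) (m + c + 1)) (h1 : GenSmooth J)
    {g G : MvPolynomial ι (𝓞 E)}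
    (hrel : IsRelPrime (MvPolynomial.map (algebraMap (𝓞 E) E) g)
      (MvPolynomial.map (algebraMap (𝓞 E) E) G)) {m₀ : 𝓞 E} (hm₀ : m₀ ≠ 0)
    (h : ∀ P : HeightOneSpectrum (𝓞 E), m₀ ∉ P.asIdeal → ∀ a : ι → 𝓞 E,
      (eval a g ∉ P.asIdeal ∨ eval a G ∉ P.asIdeal) →
        ∀ a' : ι → 𝓞 E, (∀ i, a' i - a i ∈ P.asIdeal) → GenFibreSmooth (fib J a') →
          HasModelAt E P (hProjTo (bc (algebraMap (𝓞 E) E) (fib J a')))) :
    ∃ Δ : ℝ, HasProd (locDens J) Δ ∧ ((∀ P : HeightOneSpectrum (𝓞 E), 0 < locDens J P) → 0 < Δ) ∧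
      Δ ≤ lowerDens b fun a => GenFibreSmooth (fib J a) ∧ HasModel (fib J a) := by
  classical
  obtain ⟨D, hD, hgen⟩ := exists_generic h1
  have hgood : ∀ (P : HeightOneSpectrum (𝓞 E)) (a : ι → 𝓞 E) (k : ℕ), k = 2 → m₀ ∉ P.asIdeal →
      (eval a g ∉ P.asIdeal ∨ eval a G ∉ P.asIdeal) →
        LocGood J P k fun i => Ideal.Quotient.mk (P.asIdeal ^ k) (a i) := by
    rintro P a k rfl hP ha a' ha' hgen'
    exact h P hP a ha a' (fun i => Ideal.pow_le_self two_ne_zero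
      (Ideal.Quotient.eq.1 (ha' i))) hgen'
  obtain ⟨T, hT, g', G', m₁, hm₁, hirr, hndvd, hpair⟩ := exists_irred_pairs g G hrel
  have hm : m₀ * m₁ ≠ 0 := mul_ne_zero hm₀ hm₁
  have hbad : ∀ (P : HeightOneSpectrum (𝓞 E)) (a : ι → 𝓞 E) (k : ℕ), k = 2 →
      m₀ * m₁ ∉ P.asIdeal → ¬ LocGood J P k (fun i => Ideal.Quotient.mk (P.asIdeal ^ k) (a i)) →
        ∃ t, eval a (g' t) ∈ P.asIdeal ∧ eval a (G' t) ∈ P.asIdeal := by
    intro P a k hk hP ha
    have hP0 : m₀ ∉ P.asIdeal := fun h => hP (Ideal.mul_mem_right _ _ h)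
    have hP1 : m₁ ∉ P.asIdeal := fun h => hP (Ideal.mul_mem_left _ _ h)
    have h3 : ¬ (eval a g ∉ P.asIdeal ∨ eval a G ∉ P.asIdeal) := fun h4 =>
      ha (hgood P a k hk hP0 h4)
    push Not at h3
    exact hpair P hP1 a h3.1 h3.2
  obtain ⟨β, Δ₂, B, hβ0, hβ1, hΔ₂, hβ, hB⟩ := ff5_finite_bad b g' G' hirr hndvd hm
    (fun P => {x | LocGood J P 2 x}) fun P a hP ha => hbad P a 2 rfl hP ha
  have hc := fun (k : ℕ) (P : HeightOneSpectrum (𝓞 E)) =>
    ff5_share_mem P k {x : ι → 𝓞 E ⧸ P.asIdeal ^ k | LocGood J P k x}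
  have hc0 : ∀ k P, 0 ≤ goodShare J k P := fun k P => (hc k P).1
  have hc1 : ∀ k P, goodShare J k P ≤ 1 := fun k P => (hc k P).2
  have hsup : ∀ P, locDens J P = ⨆ k, goodShare J k P := fun P => rfl
  refine ⟨⨅ S : Finset (HeightOneSpectrum (𝓞 E)), ∏ P ∈ S, locDens J P, ?_, ?_, ?_⟩
  · exact ff5_hasProd (fun P => (ff5_sup_mem hc0 hc1 P).1) fun P => (ff5_sup_mem hc0 hc1 P).2
  · exact fun h => ff5_pos hc0 hc1 hβ0 hβ1 hB hΔ₂ hβ h
  refine le_of_forall_pos_le_add fun ε hε => ?_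
  obtain ⟨F, k, hk, hlow⟩ := ff5_approx hc0 hc1 hβ0 hβ1 hB hΔ₂ hβ (half_pos hε)
  obtain ⟨Δ', hprod, hlim, -⟩ := density_exp b g' G' hirr hndvd hm k
    (F.finite_toSet.subset fun P hP => by
      by_contra h
      exact hP (hk P h))
    (fun P => {x | LocGood J P (k P) x})
    (fun P a hP hkP ha => hbad P a (k P) hkP hP ha)
  have hΔ' : (⨅ S : Finset (HeightOneSpectrum (𝓞 E)), ∏ P ∈ S, locDens J P) - ε / 2 ≤ Δ' :=
    ge_of_tendsto' (show Tendsto _ _ _ from hprod) fun S => hlow S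
  have h3 := ff4_tendsto hlim (UD_eval_eq_zero b hD)
    (S := fun u : ι × Fin s → ℤ => (∀ P, redk b k P u ∈ {x | LocGood J P (k P) x}) ∧
      eval (coeffs b u) D ≠ 0)
    (fun u hu => by
      by_cases hDu : eval (coeffs b u) D = 0
      · exact Or.inr hDu
      · exact Or.inl ⟨hu, hDu⟩)
    fun u hu => hu.1
  have hmod : ∀ u : ι × Fin s → ℤ, ((∀ P, redk b k P u ∈ {x | LocGood J P (k P) x}) ∧
      eval (coeffs b u) D ≠ 0) → GenFibreSmooth (fib J (coeffs b u)) ∧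
        HasModel (fib J (coeffs b u)) := fun u hu => ⟨hgen _ hu.2,
    hasModel_of_forall_hasModelAt (hgen _ hu.2) fun P => hu.1 P _ (fun _ => rfl) (hgen _ hu.2)⟩
  have hco : IsCoboundedUnder (· ≥ ·) atTop fun H : ℕ =>
      Bert.proportion b (fun a => GenFibreSmooth (fib J a) ∧ HasModel (fib J a)) H := by
    refine IsBoundedUnder.isCoboundedUnder_ge ⟨1, ?_⟩
    rw [eventually_map]
    refine Eventually.of_forall fun H => ?_
    rw [ff4_proportion]
    exact ff4_prop_le_one _ H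
  have h4 : Δ' - ε / 2 ≤ lowerDens b fun a => GenFibreSmooth (fib J a) ∧ HasModel (fib J a) := by
    refine le_liminf_of_le hco ?_
    filter_upwards [h3.eventually (lt_mem_nhds (show Δ' - ε / 2 < Δ' by linarith))] with H h5
    refine h5.le.trans ?_
    rw [ff4_proportion]
    exact prop_mono hmod H
  linarith

/-- The lower and the upper bound. -/
theorem families_of_locGood {s : ℕ} (b : Module.Basis (Fin s) ℤ (𝓞 E)) [Fintype ι]
    [DecidableEq ι]
    (J : HomIdeal (MvPolynomial ι (𝓞 E)) (m + c + 1)) (h1 : GenSmooth J)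
    {g G : MvPolynomial ι (𝓞 E)}
    (hrel : IsRelPrime (MvPolynomial.map (algebraMap (𝓞 E) E) g)
      (MvPolynomial.map (algebraMap (𝓞 E) E) G)) {m₀ : 𝓞 E} (hm₀ : m₀ ≠ 0)
    (h : ∀ P : HeightOneSpectrum (𝓞 E), m₀ ∉ P.asIdeal → ∀ a : ι → 𝓞 E,
      (eval a g ∉ P.asIdeal ∨ eval a G ∉ P.asIdeal) →
        ∀ a' : ι → 𝓞 E, (∀ i, a' i - a i ∈ P.asIdeal) → GenFibreSmooth (fib J a') →
          HasModelAt E P (hProjTo (bc (algebraMap (𝓞 E) E) (fib J a')))) :
    ∃ Δ Δ' : ℝ, HasProd (locDens J) Δ ∧ HasProd (outDens J) Δ' ∧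
      ((∀ P : HeightOneSpectrum (𝓞 E), 0 < locDens J P) → 0 < Δ) ∧
      Δ ≤ (lowerDens b fun a => GenFibreSmooth (fib J a) ∧ HasModel (fib J a)) ∧
      (upperDens b fun a => GenFibreSmooth (fib J a) ∧ HasModel (fib J a)) ≤ Δ' := by
  obtain ⟨Δ, e1, e2, e3⟩ := families_lg_abs b J h1 hrel hm₀ h
  obtain ⟨Δ', e4, e5⟩ := families_upper b J
  exact ⟨Δ, Δ', e1, e4, e2, e3, e5⟩

end Fsec

end Pool.Agent.Lib.MP_6a3dac_ag.Fam
end

section

/-!
# Models near all primes outside of a finite set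
-/

set_option autoImplicit false

namespace Pool.Agent.Lib.MP_6a3dac_ag.Fam

open MvPolynomial CategoryTheory Limits AlgebraicGeometry NumberField IsDedekindDomain Filter
open IsLocalRing Topology
open Pool.Agent.Lib.MP_6a3dac_ag.DNF Pool.Agent.Lib.MP_6a3dac_ag.Bert
open Pool.Agent.Lib.MP_6a3dac_ag.Maj

section Fsec

variable {E : Type} [Field E] [NumberField E] {ι : Type} {m c : ℕ}

/-- TASK F8: almost all members have models near all primes outside of a finite set of primes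
which does not depend on the member. -/
theorem families_away_abs {s : ℕ} (b : Module.Basis (Fin s) ℤ (𝓞 E)) [Fintype ι] [DecidableEq ι]
    (J : HomIdeal (MvPolynomial ι (𝓞 E)) (m + c + 1)) (h1 : GenSmooth J)
    {g G : MvPolynomial ι (𝓞 E)}
    (hrel : IsRelPrime (MvPolynomial.map (algebraMap (𝓞 E) E) g)
      (MvPolynomial.map (algebraMap (𝓞 E) E) G)) {m₀ : 𝓞 E} (hm₀ : m₀ ≠ 0)
    (h : ∀ P : HeightOneSpectrum (𝓞 E), m₀ ∉ P.asIdeal → ∀ a : ι → 𝓞 E,
      (eval a g ∉ P.asIdeal ∨ eval a G ∉ P.asIdeal) →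
        ∀ a' : ι → 𝓞 E, (∀ i, a' i - a i ∈ P.asIdeal) → GenFibreSmooth (fib J a') →
          HasModelAt E P (hProjTo (bc (algebraMap (𝓞 E) E) (fib J a'))))
    {ε : ℝ} (hε : 0 < ε) :
    ∃ S : Finset (HeightOneSpectrum (𝓞 E)), 1 - ε ≤ lowerDens b fun a =>
      GenFibreSmooth (fib J a) ∧ ∀ P, P ∉ S →
        HasModelAt E P (hProjTo (bc (algebraMap (𝓞 E) E) (fib J a))) := by
  classical
  obtain ⟨D, hD, hgen⟩ := exists_generic h1
  have hgood : ∀ (P : HeightOneSpectrum (𝓞 E)) (a : ι → 𝓞 E), m₀ ∉ P.asIdeal →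
      (eval a g ∉ P.asIdeal ∨ eval a G ∉ P.asIdeal) →
        LocGood J P 2 fun i => Ideal.Quotient.mk (P.asIdeal ^ 2) (a i) := by
    intro P a hP ha a' ha' hgen'
    exact h P hP a ha a' (fun i => Ideal.pow_le_self two_ne_zero
      (Ideal.Quotient.eq.1 (ha' i))) hgen'
  obtain ⟨T, hT, g', G', m₁, hm₁, hirr, hndvd, hpair⟩ := exists_irred_pairs g G hrel
  have hm : m₀ * m₁ ≠ 0 := mul_ne_zero hm₀ hm₁
  have hbad : ∀ (P : HeightOneSpectrum (𝓞 E)) (a : ι → 𝓞 E),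
      m₀ * m₁ ∉ P.asIdeal → ¬ LocGood J P 2 (fun i => Ideal.Quotient.mk (P.asIdeal ^ 2) (a i)) →
        ∃ t, eval a (g' t) ∈ P.asIdeal ∧ eval a (G' t) ∈ P.asIdeal := by
    intro P a hP ha
    have hP0 : m₀ ∉ P.asIdeal := fun h => hP (Ideal.mul_mem_right _ _ h)
    have hP1 : m₁ ∉ P.asIdeal := fun h => hP (Ideal.mul_mem_left _ _ h)
    have h3 : ¬ (eval a g ∉ P.asIdeal ∨ eval a G ∉ P.asIdeal) := fun h4 =>
      ha (hgood P a hP0 h4)
    push Not at h3
    exact hpair P hP1 a h3.1 h3.2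
  obtain ⟨β, Δ₂, B, hβ0, hβ1, hΔ₂, hβ, hB⟩ := ff5_finite_bad b g' G' hirr hndvd hm
    (fun P => {x | LocGood J P 2 x}) fun P a hP ha => hbad P a hP ha
  -- the finite set of primes
  obtain ⟨η, hη, hη1, hηε⟩ : ∃ η : ℝ, 0 < η ∧ η ≤ 1 ∧ η ≤ ε :=
    ⟨min ε 1, lt_min hε one_pos, min_le_right _ _, min_le_left _ _⟩
  have hd : (0 : ℝ) < 1 - η / 2 := by linarith
  have hlt : Δ₂ < Δ₂ / (1 - η / 2) := by
    rw [lt_div_iff₀ hd]
    nlinarith
  have hev : ∀ᶠ s : Finset (HeightOneSpectrum (𝓞 E)) in atTop,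
      ∏ P ∈ s, β P < Δ₂ / (1 - η / 2) := by
    have h1 : Tendsto (fun s : Finset (HeightOneSpectrum (𝓞 E)) => ∏ P ∈ s, β P) atTop
        (𝓝 Δ₂) := by
      simpa [HasProd] using hβ
    exact h1.eventually_lt_const hlt
  obtain ⟨F, hF1, hF2⟩ := (hev.and (eventually_ge_atTop B)).exists
  have hF3 : (1 - η / 2) * ∏ P ∈ F, β P ≤ Δ₂ := by
    rw [lt_div_iff₀ hd] at hF1
    linarith
  have hβF : 0 < ∏ P ∈ F, β P := Finset.prod_pos fun P _ => hβ0 P
  -- the conditions modulo the squares of the primes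
  let Ω : ∀ P : HeightOneSpectrum (𝓞 E), Set (ι → 𝓞 E ⧸ P.asIdeal ^ 2) := fun P =>
    {x | P ∈ F ∨ LocGood J P 2 x}
  obtain ⟨Δ', hprod, hlim, -⟩ := density_exp b g' G' hirr hndvd hm (fun _ => 2) (by simp) Ω
    (fun P a hP _ ha => hbad P a hP fun hg => ha (Or.inr hg))
  have hcard : ∀ P : HeightOneSpectrum (𝓞 E), (Nat.card (ι → 𝓞 E ⧸ P.asIdeal ^ 2) : ℝ) ≠ 0 := by
    intro P
    have := ff5_finite_quot P 2
    exact_mod_cast Nat.card_pos.ne'
  have hin : ∀ P, P ∈ F → (Nat.card (Ω P) : ℝ) / Nat.card (ι → 𝓞 E ⧸ P.asIdeal ^ 2) = 1 := by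
    intro P hP
    have e1 : Ω P = Set.univ := Set.eq_univ_of_forall fun x => Or.inl hP
    rw [e1, Nat.card_congr (Equiv.Set.univ _)]
    exact div_self (hcard P)
  have hout : ∀ P, P ∉ F → (Nat.card (Ω P) : ℝ) / Nat.card (ι → 𝓞 E ⧸ P.asIdeal ^ 2) = β P := by
    intro P hP
    rw [← hB P fun h => hP (hF2 h)]
    have e1 : Ω P = {x | LocGood J P 2 x} :=
      Set.ext fun x => ⟨fun hx => hx.resolve_left hP, fun hx => Or.inr hx⟩
    rw [e1]
  have hΔ' : 1 - η / 2 ≤ Δ' := by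
    refine ge_of_tendsto (show Tendsto (fun t : Finset (HeightOneSpectrum (𝓞 E)) =>
      ∏ P ∈ t, (Nat.card (Ω P) : ℝ) / Nat.card (ι → 𝓞 E ⧸ P.asIdeal ^ 2)) atTop (𝓝 Δ') from by
        simpa [HasProd] using hprod) ?_
    filter_upwards [eventually_ge_atTop F] with t ht
    have e1 : ∏ P ∈ t, (Nat.card (Ω P) : ℝ) / Nat.card (ι → 𝓞 E ⧸ P.asIdeal ^ 2) =
        ∏ P ∈ t \ F, β P := by
      rw [← Finset.prod_sdiff ht, Finset.prod_congr rfl hin, Finset.prod_const_one, mul_one]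
      exact Finset.prod_congr rfl fun P hP => hout P (Finset.mem_sdiff.1 hP).2
    rw [e1]
    have e2 := ff5_le_prod (fun P => (hβ0 P).le) hβ1 hβ t
    rw [← Finset.prod_sdiff ht] at e2
    exact le_of_mul_le_mul_right (hF3.trans e2) hβF
  have h3 := ff4_tendsto hlim (UD_eval_eq_zero b hD)
    (S := fun u : ι × Fin s → ℤ => (∀ P, redk b (fun _ => 2) P u ∈ Ω P) ∧
      eval (coeffs b u) D ≠ 0)
    (fun u hu => by
      by_cases hDu : eval (coeffs b u) D = 0
      · exact Or.inr hDu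
      · exact Or.inl ⟨hu, hDu⟩)
    fun u hu => hu.1
  have hmod : ∀ u : ι × Fin s → ℤ, ((∀ P, redk b (fun _ => 2) P u ∈ Ω P) ∧
      eval (coeffs b u) D ≠ 0) → GenFibreSmooth (fib J (coeffs b u)) ∧ ∀ P, P ∉ F →
        HasModelAt E P (hProjTo (bc (algebraMap (𝓞 E) E) (fib J (coeffs b u)))) := by
    intro u hu
    refine ⟨hgen _ hu.2, fun P hP => ?_⟩
    exact (hu.1 P).resolve_left hP _ (fun _ => rfl) (hgen _ hu.2)
  refine ⟨F, ?_⟩
  have hco : IsCoboundedUnder (· ≥ ·) atTop fun H : ℕ =>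
      Bert.proportion b (fun a => GenFibreSmooth (fib J a) ∧ ∀ P, P ∉ F →
        HasModelAt E P (hProjTo (bc (algebraMap (𝓞 E) E) (fib J a)))) H := by
    refine IsBoundedUnder.isCoboundedUnder_ge ⟨1, ?_⟩
    rw [eventually_map]
    refine Eventually.of_forall fun H => ?_
    rw [ff4_proportion]
    exact ff4_prop_le_one _ H
  refine le_trans (show 1 - ε ≤ Δ' - η / 2 by linarith) ?_
  refine le_liminf_of_le hco ?_
  filter_upwards [h3.eventually (lt_mem_nhds (show Δ' - η / 2 < Δ' by linarith))] with H h5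
  refine h5.le.trans ?_
  rw [ff4_proportion]
  exact prop_mono hmod H

end Fsec

end Pool.Agent.Lib.MP_6a3dac_ag.Fam
end

section

/-!
# The local-global principle for families which are toroidal in codimension one
-/

set_option autoImplicit false

namespace Pool.Agent.Lib.MP_6a3dac_ag.Tor

open MvPolynomial CategoryTheory Limits AlgebraicGeometry NumberField IsDedekindDomain Filter
open Pool.Agent.Lib.MP_6a3dac_ag.DNF Pool.Agent.Lib.MP_6a3dac_ag.Bert
open Pool.Agent.Lib.MP_6a3dac_ag.Fam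

variable {E : Type} [Field E] [NumberField E] {ι : Type} {m c : ℕ}

/-- The value of a polynomial modulo an ideal depends on the coordinates modulo the ideal. -/
theorem t7_eval_sub {R : Type} [CommRing R] (𝔟 : Ideal R) (f : MvPolynomial ι R) {a a' : ι → R}
    (h : ∀ i, a' i - a i ∈ 𝔟) : eval a' f - eval a f ∈ 𝔟 := by
  induction f using MvPolynomial.induction_on with
  | C z => rw [eval_C, eval_C, sub_self]; exact 𝔟.zero_mem
  | add p q hp hq =>
    rw [map_add, map_add, add_sub_add_comm]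
    exact 𝔟.add_mem hp hq
  | mul_X p i hp =>
    rw [map_mul, map_mul, eval_X, eval_X]
    have h1 : eval a' p * a' i - eval a p * a i =
        a' i * (eval a' p - eval a p) + eval a p * (a' i - a i) := by ring
    rw [h1]
    exact 𝔟.add_mem (𝔟.mul_mem_left _ hp) (𝔟.mul_mem_left _ (h i))

/-- TASK T7 -/
theorem families_tor {s : ℕ} (b : Module.Basis (Fin s) ℤ (𝓞 E)) [Fintype ι] [DecidableEq ι]
    (J : HomIdeal (MvPolynomial ι (𝓞 E)) (m + c + 1)) (h1 : GenSmooth J) (h2 : TorCodim J) :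
    ∃ Δ Δ' : ℝ, HasProd (locDens J) Δ ∧ HasProd (outDens J) Δ' ∧
      ((∀ P : HeightOneSpectrum (𝓞 E), 0 < locDens J P) → 0 < Δ) ∧
      Δ ≤ (lowerDens b fun a => GenFibreSmooth (fib J a) ∧ HasModel (fib J a)) ∧
      (upperDens b fun a => GenFibreSmooth (fib J a) ∧ HasModel (fib J a)) ≤ Δ' := by
  obtain ⟨s', e, h, K, g, G, he, _, hJK, hhK, hrel, H⟩ := h2
  obtain ⟨m₀, hm₀, hm⟩ := exists_torOver he hJK hhK H
  refine families_of_locGood b J h1 hrel hm₀ fun P hP a ha a' ha' hgen => ?_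
  refine hasModelAt_of_torOver hgen he (hm P hP a' ?_)
  refine ha.imp (fun h3 h4 => h3 ?_) (fun h3 h4 => h3 ?_)
  · have h5 := P.asIdeal.sub_mem h4 (t7_eval_sub P.asIdeal g ha')
    rwa [sub_sub_cancel] at h5
  · have h5 := P.asIdeal.sub_mem h4 (t7_eval_sub P.asIdeal G ha')
    rwa [sub_sub_cancel] at h5

end Pool.Agent.Lib.MP_6a3dac_ag.Tor
end

section

/-!
# The residue classes over which the family is toroidal
-/

set_option autoImplicit false

namespace Pool.Agent.Lib.MP_6a3dac_ag.Tor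

open MvPolynomial CategoryTheory Limits AlgebraicGeometry NumberField IsDedekindDomain Filter
open Pool.Agent.Lib.MP_6a3dac_ag.DNF Pool.Agent.Lib.MP_6a3dac_ag.Bert
open Pool.Agent.Lib.MP_6a3dac_ag.Fam

variable {E : Type} [Field E] [NumberField E] {ι : Type} {m c : ℕ}
  {J : HomIdeal (MvPolynomial ι (𝓞 E)) (m + c + 1)} {P : HeightOneSpectrum (𝓞 E)} {a a' : ι → 𝓞 E}

/-- The family is toroidal, with exponents which are prime to `P`, at the points over the point `a`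
modulo `P`. -/
def TorAbove (P : HeightOneSpectrum (𝓞 E)) (J : HomIdeal (MvPolynomial ι (𝓞 E)) (m + c + 1))
    (a : ι → 𝓞 E) : Prop :=
  ∃ (s : ℕ) (e : Fin s → ℕ) (h : MvPolynomial ι (𝓞 E))
    (K : Fin s → HomIdeal (MvPolynomial ι (𝓞 E)) (m + c + 1)),
    (∀ i, 0 < e i) ∧ (∀ i, (e i : 𝓞 E) ∉ P.asIdeal) ∧ (∀ i, J.ideal ≤ (K i).ideal) ∧
    (∀ i, C h ∈ (K i).ideal) ∧
    ∀ (i : Fin (m + c + 1))
      (𝔮 : Ideal (MvPolynomial {l : Fin (m + c + 1) // l ≠ i} (MvPolynomial ι (𝓞 E)))),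
      𝔮.IsPrime → dId J i ≤ 𝔮 → (∀ p : MvPolynomial ι (𝓞 E), C p ∈ 𝔮 ↔ eval a p ∈ P.asIdeal) →
        TorGood m e h (dId J i) (fun j => dId (K j) i) 𝔮

/-- A residue class modulo `P` over which the family is toroidal is good. -/
theorem TorAbove.hasModelAt (h : TorAbove P J a) (ha : ∀ i, a' i - a i ∈ P.asIdeal)
    (hgen : GenFibreSmooth (fib J a')) :
    HasModelAt E P (hProjTo (bc (algebraMap (𝓞 E) E) (fib J a'))) := by
  obtain ⟨s, e, h, K, he, heP, hJK, hhK, H⟩ := h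
  have hT : TorOver P e (eval a' h) (fib J a') (fun j => fib (K j) a') := by
    refine ⟨fun j => Ideal.map_mono (hJK j), fun j => ?_, heP, ?_⟩
    · have h3 := Ideal.mem_map_of_mem (MvPolynomial.map (eval a')) (hhK j)
      rw [map_C] at h3
      exact h3
    intro i 𝔮 h𝔮 hle hP
    have hgood : TorGood m e h (dId J i) (fun j => dId (K j) i)
        (𝔮.comap (MvPolynomial.map (eval a'))) := by
      refine H i _ (Ideal.IsPrime.comap _) (ff1_dId_le hle) ?_
      intro p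
      rw [Ideal.mem_comap, map_C]
      have h1 : eval a' p - eval a p ∈ P.asIdeal := t7_eval_sub P.asIdeal p ha
      have h2 : eval a' p ∈ P.asIdeal ↔ eval a p ∈ P.asIdeal :=
        ⟨fun h3 => by simpa using P.asIdeal.sub_mem h3 h1,
          fun h3 => by simpa using P.asIdeal.add_mem h1 h3⟩
      rw [← h2]
      constructor
      · intro hp
        have hcp : (Ideal.comap (C : 𝓞 E →+* MvPolynomial {l : Fin (m + c + 1) // l ≠ i} (𝓞 E))
            𝔮).IsPrime := Ideal.IsPrime.comap _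
        have heq : P.asIdeal = Ideal.comap
            (C : 𝓞 E →+* MvPolynomial {l : Fin (m + c + 1) // l ≠ i} (𝓞 E)) 𝔮 :=
          P.isMaximal.eq_of_le hcp.ne_top (Ideal.map_le_iff_le_comap.1 hP)
        rw [heq]
        exact hp
      · intro hp
        exact hP (Ideal.mem_map_of_mem _ hp)
    have h7 := TorGood.map (eval a') hgood
    have h8 : (fun j => (dId (K j) i).map (MvPolynomial.map (eval a')))
        = fun j => dId (fib (K j) a') i := funext fun j => (dId_bc (eval a') (K j) i).symm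
    rw [← dId_bc, h8] at h7
    exact h7
  exact hasModelAt_of_torOver hgen he hT

/-- A class modulo `P ^ 2` over which the family is toroidal is good. -/
theorem TorAbove.locGood (h : TorAbove P J a) :
    LocGood J P 2 (fun i => Ideal.Quotient.mk (P.asIdeal ^ 2) (a i)) := by
  intro a' ha' hgen
  exact h.hasModelAt (fun i => Ideal.pow_le_self two_ne_zero (Ideal.Quotient.eq.1 (ha' i))) hgen

/-- The two-sided local-global principle. -/
theorem families_nodal_or_tor {s : ℕ} (b : Module.Basis (Fin s) ℤ (𝓞 E)) [Fintype ι]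
    [DecidableEq ι] (J : HomIdeal (MvPolynomial ι (𝓞 E)) (m + c + 1)) (h1 : GenSmooth J)
    (h2 : NodalCodim J ∨ TorCodim J) :
    ∃ Δ Δ' : ℝ, HasProd (locDens J) Δ ∧ HasProd (outDens J) Δ' ∧
      ((∀ P : HeightOneSpectrum (𝓞 E), 0 < locDens J P) → 0 < Δ) ∧
      Δ ≤ (lowerDens b fun a => GenFibreSmooth (fib J a) ∧ HasModel (fib J a)) ∧
      (upperDens b fun a => GenFibreSmooth (fib J a) ∧ HasModel (fib J a)) ≤ Δ' :=
  h2.elim (families_two b J h1) (families_tor b J h1)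

end Pool.Agent.Lib.MP_6a3dac_ag.Tor
end
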