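import Pool.Agent.Lib.MP_6a3dac_ag.NU.Defs

section

/-!
# NU: the Rees algebra as a graded algebra
-/

set_option autoImplicit false

namespace Pool.Agent.Lib.MP_6a3dac_ag.NU

open Polynomial CategoryTheory

/-- The homogeneous components of the Rees algebra. -/
noncomputable def reesGr {R : Type} [CommRing R] (I : Ideal R) (i : ℕ) :
    Submodule R (reesAlgebra I) :=
  (LinearMap.range (Polynomial.monomial i : R →ₗ[R] R[X])).comap (reesAlgebra I).val.toLinearMap

-- BEGIN BU1a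
theorem mem_reesGr {R : Type} [CommRing R] (I : Ideal R) (i : ℕ) (x : reesAlgebra I) :
    x ∈ reesGr I i ↔ ∃ a ∈ I ^ i, (x : R[X]) = monomial i a := by
  constructor
  · rintro ⟨a, ha⟩
    have ha' : monomial i a = (x : R[X]) := ha
    have h : (x : R[X]).coeff i ∈ I ^ i := x.2 i
    rw [← ha', coeff_monomial, if_pos rfl] at h
    exact ⟨a, h, ha'.symm⟩
  · rintro ⟨a, -, ha⟩
    exact ⟨a, ha.symm⟩
-- END BU1a

-- BEGIN BU1b
theorem reesGr_gradedMonoid {R : Type} [CommRing R] (I : Ideal R) :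
    SetLike.GradedMonoid (reesGr I) where
  one_mem := (mem_reesGr I 0 1).2 ⟨1, by simp, rfl⟩
  mul_mem i j x y hx hy := by
    rw [mem_reesGr] at hx hy ⊢
    obtain ⟨a, ha, hx⟩ := hx
    obtain ⟨b, hb, hy⟩ := hy
    refine ⟨a * b, by rw [pow_add]; exact Ideal.mul_mem_mul ha hb, ?_⟩
    rw [MulMemClass.coe_mul, hx, hy, monomial_mul_monomial]
-- END BU1b

-- BEGIN BU1c
theorem bu1c_coeff {R : Type} [CommRing R] (I : Ideal R) (x : DirectSum ℕ fun i => reesGr I i)
    (i : ℕ) : ((DirectSum.coeAddMonoidHom (reesGr I) x : reesAlgebra I) : R[X]).coeff i =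
      ((x i : reesAlgebra I) : R[X]).coeff i := by
  induction x using DirectSum.induction_on with
  | zero => simp
  | of j y =>
    obtain ⟨a, -, hy⟩ := (mem_reesGr I j y).1 y.2
    rw [DirectSum.coeAddMonoidHom_of, hy]
    by_cases h : j = i
    · subst h
      rw [DirectSum.of_eq_same, hy]
    · rw [DirectSum.of_eq_of_ne _ _ _ (Ne.symm h), coeff_monomial, if_neg h]
      rfl
  | add x y hx hy =>
    rw [map_add, DirectSum.add_apply]
    exact congrArg₂ (· + ·) hx hy

theorem reesGr_isInternal {R : Type} [CommRing R] (I : Ideal R) :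
    DirectSum.IsInternal (reesGr I) := by
  constructor
  · refine fun x y e => DFinsupp.ext fun i => Subtype.ext (Subtype.ext ?_)
    obtain ⟨a, -, ha⟩ := (mem_reesGr I i _).1 (x i).2
    obtain ⟨b, -, hb⟩ := (mem_reesGr I i _).1 (y i).2
    have h1 := bu1c_coeff I x i
    rw [e, bu1c_coeff I y i, ha, hb, coeff_monomial_same, coeff_monomial_same] at h1
    rw [ha, hb, h1]
  · intro x
    have h := fun i => (reesAlgebra.monomial_mem (I := I)).2 ((mem_reesAlgebra_iff I _).1 x.2 i)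
    refine ⟨∑ i ∈ (x : R[X]).support, DirectSum.of (fun i => reesGr I i) i
      ⟨⟨monomial i ((x : R[X]).coeff i), h i⟩, (mem_reesGr I i _).2
        ⟨_, (mem_reesAlgebra_iff I _).1 x.2 i, rfl⟩⟩, Subtype.ext ?_⟩
    rw [map_sum, AddSubmonoidClass.coe_finsetSum]
    simp only [DirectSum.coeAddMonoidHom_of]
    exact (x : R[X]).as_sum_support.symm
-- END BU1c

/-- The graded algebra structure. -/
noncomputable instance reesGradedAlgebra {R : Type} [CommRing R] (I : Ideal R) :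
    GradedAlgebra (reesGr I) :=
  { (reesGr_isInternal I).chooseDecomposition, reesGr_gradedMonoid I with }

-- BEGIN BU1d
theorem reesGr_zero {R : Type} [CommRing R] (I : Ideal R) :
    Function.Bijective (algebraMap R (reesGr I 0)) := by
  have h : ∀ a, ((algebraMap R (reesGr I 0) a : reesAlgebra I) : R[X]) = C a := fun a => rfl
  refine ⟨fun a b e => C_injective (by rw [← h, ← h, e]), fun x => ?_⟩
  obtain ⟨a, -, hx⟩ := (mem_reesGr I 0 _).1 x.2
  exact ⟨a, Subtype.ext (Subtype.ext ((h a).trans hx.symm))⟩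
-- END BU1d

/-- The homomorphism of Rees algebras induced by a ring homomorphism. -/
noncomputable def reesHom {R R' : Type} [CommRing R] [CommRing R'] (f : R →+* R') {I : Ideal R}
    {I' : Ideal R'} (h : I.map f = I') : reesAlgebra I →+* reesAlgebra I' :=
  ((Polynomial.mapRingHom f).comp (reesAlgebra I).val.toRingHom).codRestrict (reesAlgebra I')
    (fun x i => by
      change ((x : R[X]).map f).coeff i ∈ I' ^ i
      rw [coeff_map, ← h, ← Ideal.map_pow]
      exact Ideal.mem_map_of_mem f (x.2 i))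

/-- The graded homomorphism of Rees algebras induced by a ring homomorphism. -/
noncomputable def reesMap {R R' : Type} [CommRing R] [CommRing R'] (f : R →+* R') {I : Ideal R}
    {I' : Ideal R'} (h : I.map f = I') : reesGr I →+*ᵍ reesGr I' where
  toRingHom := reesHom f h
  map_mem := by
    intro i x hx
    rw [mem_reesGr] at hx ⊢
    obtain ⟨a, ha, hx⟩ := hx
    refine ⟨f a, by rw [← h, ← Ideal.map_pow]; exact Ideal.mem_map_of_mem f ha, ?_⟩
    change ((x : R[X]).map f) = _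
    rw [hx, Polynomial.map_monomial]

-- BEGIN BU1e
theorem coe_reesMap {R R' : Type} [CommRing R] [CommRing R'] (f : R →+* R') {I : Ideal R}
    {I' : Ideal R'} (h : I.map f = I') (x : reesAlgebra I) :
    ((reesMap f h x : reesAlgebra I') : R'[X]) = (x : R[X]).map f := rfl
-- END BU1e

-- BEGIN BU1f
theorem irrelevant_le_reesMap {R R' : Type} [CommRing R] [CommRing R'] (f : R →+* R')
    {I : Ideal R} {I' : Ideal R'} (h : I.map f = I') :
    HomogeneousIdeal.irrelevant (reesGr I') ≤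
      (HomogeneousIdeal.irrelevant (reesGr I)).map (reesMap f h) := by
  change (HomogeneousIdeal.irrelevant (reesGr I')).toIdeal ≤
    ((HomogeneousIdeal.irrelevant (reesGr I)).map (reesMap f h)).toIdeal
  rw [HomogeneousIdeal.toIdeal_irrelevant_le]
  intro i hi x hx
  obtain ⟨a, ha, hx⟩ := (mem_reesGr I' i x).1 hx
  have hm : ∀ b ∈ (I ^ i).map f, monomial i b ∈ reesAlgebra I' := fun b hb =>
    reesAlgebra.monomial_mem.2 (by rwa [Ideal.map_pow, h] at hb)
  rw [← h, ← Ideal.map_pow] at ha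
  have key : ∀ y : reesAlgebra I', (y : R'[X]) = monomial i a →
      y ∈ ((HomogeneousIdeal.irrelevant (reesGr I)).map (reesMap f h)).toIdeal := by
    clear hx
    induction ha using Submodule.span_induction with
    | mem b hb =>
      obtain ⟨c, hc, rfl⟩ := hb
      intro y hy
      have h1 : y = reesMap f h ⟨monomial i c, reesAlgebra.monomial_mem.2 hc⟩ :=
        Subtype.ext (hy.trans (by rw [coe_reesMap, Polynomial.map_monomial]))
      rw [h1]
      exact Ideal.mem_map_of_mem _ (HomogeneousIdeal.mem_irrelevant_of_mem _ hi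
        ((mem_reesGr I i _).2 ⟨c, hc, rfl⟩))
    | zero =>
      intro y hy
      rw [map_zero] at hy
      rw [show y = 0 from Subtype.ext hy]
      exact zero_mem _
    | add b c hb hc h1 h2 =>
      intro y hy
      rw [show y = (⟨_, hm b hb⟩ + ⟨_, hm c hc⟩ : reesAlgebra I') from
        Subtype.ext (hy.trans (map_add _ _ _))]
      exact add_mem (h1 _ rfl) (h2 _ rfl)
    | smul r b hb h1 =>
      intro y hy
      rw [show y = algebraMap R' (reesAlgebra I') r * (⟨_, hm b hb⟩ : reesAlgebra I') from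
        Subtype.ext (hy.trans (by
          rw [smul_eq_mul, ← C_mul_monomial]
          rfl))]
      exact Ideal.mul_mem_left _ _ (h1 _ rfl)
  exact key x hx
-- END BU1f

end Pool.Agent.Lib.MP_6a3dac_ag.NU
end

section

/-!
# NU: existence of presentations
-/

set_option autoImplicit false

namespace Pool.Agent.Lib.MP_6a3dac_ag.NU

open MvPolynomial

-- BEGIN PR3a
/-- The smooth locus contains a basic open subset defined by a natural number.

PROOF.  `ℤ` is Noetherian so `R` is of finite presentation over `ℤ`.  The smooth locus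
`Algebra.smoothLocus ℤ R` is open (`Algebra.isOpen_smoothLocus`); let `J` be a radical ideal with
`zeroLocus J` its complement.  If no `n ≠ 0` is in `J`, then `J` is disjoint from the submonoid of
the nonzero natural numbers (in `R`), so there is a prime ideal `𝔭 ⊇ J` disjoint from it
(`Ideal.exists_le_prime_disjoint`), and `h 𝔭` says that `𝔭` is in the smooth locus
(`Algebra.IsSmoothAt` is formal smoothness of the localization, up to unfolding), a contradiction.
So `n ∈ J` for some `n ≠ 0`; take `a = n`: `a ∉ 𝔮` implies `𝔮 ∉ zeroLocus J`. -/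
theorem exists_smooth_away (R : Type) [CommRing R] [Algebra.FiniteType ℤ R]
    (h : ∀ (𝔭 : Ideal R) [𝔭.IsPrime], (∀ n : ℕ, n ≠ 0 → (n : R) ∉ 𝔭) →
      Algebra.FormallySmooth ℤ (Localization.AtPrime 𝔭)) :
    ∃ a : ℕ, a ≠ 0 ∧ ∀ 𝔮 : PrimeSpectrum R, (a : R) ∉ 𝔮.asIdeal →
      𝔮 ∈ Algebra.smoothLocus ℤ R := by
  have : Algebra.FinitePresentation ℤ R := Algebra.FinitePresentation.of_finiteType.mp inferInstance
  obtain ⟨J, hJ⟩ := (PrimeSpectrum.isClosed_iff_zeroLocus_ideal _).mp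
    (Algebra.isOpen_smoothLocus (R := ℤ) (A := R)).isClosed_compl
  by_cases hn : ∃ a : ℕ, a ≠ 0 ∧ (a : R) ∈ J
  · obtain ⟨a, ha, haJ⟩ := hn
    refine ⟨a, ha, fun 𝔮 hq => ?_⟩
    by_contra hcon
    have h1 : 𝔮 ∈ PrimeSpectrum.zeroLocus (J : Set R) := hJ ▸ hcon
    exact hq (h1 haJ)
  · push Not at hn
    obtain ⟨𝔭, hp, hJp, hd⟩ := Ideal.exists_le_prime_disjoint J
      ((nonZeroDivisors ℕ).map (Nat.castRingHom R : ℕ →* R)) (by
        rw [Set.disjoint_left]
        rintro _ h1 ⟨n, h2, rfl⟩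
        exact hn n (nonZeroDivisors.ne_zero h2) h1)
    have h1 : (⟨𝔭, hp⟩ : PrimeSpectrum R) ∈ Algebra.smoothLocus ℤ R := h 𝔭 fun n h2 h3 =>
      Set.disjoint_left.mp hd h3 ⟨n, mem_nonZeroDivisors_of_ne_zero h2, rfl⟩
    have h2 : (⟨𝔭, hp⟩ : PrimeSpectrum R) ∈ (Algebra.smoothLocus ℤ R)ᶜ := hJ ▸ hJp
    exact (h2 h1).elim
-- END PR3a

-- BEGIN PR3b
theorem pr3b_lift {B R' : Type} [CommRing B] [CommRing R'] [h0 : Algebra ℤ R']
    (h : Algebra.FormallySmooth ℤ R') (F : B →+* R') (hs : Function.Surjective F)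
    (hn : IsNilpotent (RingHom.ker F)) : ∃ σ : R' →+* B, ∀ x, F (σ x) = x := by
  obtain rfl : h0 = Ring.toIntAlgebra R' := Subsingleton.elim _ _
  exact ⟨(Algebra.FormallySmooth.liftOfSurjective (R := ℤ) (AlgHom.id ℤ R')
    F.toIntAlgHom hs hn).toRingHom, fun x => Algebra.FormallySmooth.liftOfSurjective_apply (R := ℤ)
      (AlgHom.id ℤ R') F.toIntAlgHom hs hn x⟩

theorem pr3b_loc {P R B R' : Type} [CommRing P] [CommRing R] [CommRing B] [CommRing R']
    (I : Ideal P) [Algebra (P ⧸ I ^ 2) B] [Algebra R R'] [Algebra ℤ R'] (π : P →+* R)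
    (hI : I = RingHom.ker π) (hπ : Function.Surjective π) (a : ℕ)
    [IsLocalization.Away (a : P ⧸ I ^ 2) B] [IsLocalization.Away (a : R) R']
    (hsm : Algebra.FormallySmooth ℤ R') :
    ∃ θ τ : P →+* B, (∀ g, θ g = 0 → ∃ k : ℕ, (a : P) ^ k * g ∈ I ^ 2) ∧
      (∀ g h, (θ g - τ g) * (θ h - τ h) = 0) ∧
      (∀ g, ∃ k : ℕ, ∃ h, π h = 0 ∧ (a : B) ^ k * (θ g - τ g) = θ h) ∧
      ∀ g, π g = 0 → τ g = 0 := by
  have hI' : ∀ x, x ∈ I ↔ π x = 0 := fun x => by rw [hI, RingHom.mem_ker]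
  let q := Ideal.Quotient.mk (I ^ 2)
  let θ : P →+* B := (algebraMap (P ⧸ I ^ 2) B).comp q
  let p : P ⧸ I ^ 2 →+* R :=
    Ideal.Quotient.lift (I ^ 2) π fun x hx => (hI' x).1 (Ideal.pow_le_self two_ne_zero hx)
  have hu : IsUnit (((algebraMap R R').comp p) (a : P ⧸ I ^ 2)) := by
    rw [map_natCast]
    simpa using IsLocalization.Away.algebraMap_isUnit (S := R') (a : R)
  let F : B →+* R' := IsLocalization.Away.lift (a : P ⧸ I ^ 2) hu
  have hF : ∀ g, F (θ g) = algebraMap R R' (π g) := fun g =>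
    IsLocalization.Away.lift_eq (a : P ⧸ I ^ 2) hu _
  have haB : IsUnit (a : B) := by
    simpa using IsLocalization.Away.algebraMap_isUnit (S := B) (a : P ⧸ I ^ 2)
  have hJ : ∀ y : B, F y = 0 → ∃ k : ℕ, ∃ g, π g = 0 ∧ (a : B) ^ k * y = θ g := by
    intro y hy
    obtain ⟨n, z, hz⟩ := IsLocalization.Away.surj (a : P ⧸ I ^ 2) y
    obtain ⟨g, rfl⟩ := Ideal.Quotient.mk_surjective z
    have hz' : y * (a : B) ^ n = θ g := by
      change _ = algebraMap (P ⧸ I ^ 2) B (q g)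
      rw [← hz, map_natCast]
    obtain ⟨k, hk⟩ := IsLocalization.Away.exists_of_eq (S := R') (a : R) (a := π g) (b := 0)
      (by rw [map_zero, ← hF g, ← hz', map_mul, hy, zero_mul])
    refine ⟨k + n, (a : P) ^ k * g, by rw [map_mul, map_pow, map_natCast, hk, mul_zero], ?_⟩
    rw [map_mul, map_pow, map_natCast, ← hz']
    ring
  have hJ2 : ∀ y z : B, F y = 0 → F z = 0 → y * z = 0 := by
    intro y z hy hz
    obtain ⟨k, g, hg, h1⟩ := hJ y hy
    obtain ⟨l, h, hh, h2⟩ := hJ z hz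
    refine (haB.pow (k + l)).mul_right_eq_zero.mp ?_
    rw [pow_add, mul_mul_mul_comm, h1, h2, ← map_mul]
    change algebraMap _ B (q (g * h)) = 0
    rw [show q (g * h) = 0 from Ideal.Quotient.eq_zero_iff_mem.mpr
      (by rw [pow_two]; exact Ideal.mul_mem_mul ((hI' g).2 hg) ((hI' h).2 hh)), map_zero]
  obtain ⟨σ, hσ⟩ := pr3b_lift hsm F (fun y => by
    obtain ⟨n, x, hx⟩ := IsLocalization.Away.surj (a : R) y
    obtain ⟨g, rfl⟩ := hπ x
    obtain ⟨v, hv⟩ := (haB.pow n).exists_right_inv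
    refine ⟨θ g * v, ?_⟩
    rw [map_mul, hF, ← hx, map_natCast, mul_assoc, ← map_natCast F, ← map_pow, ← map_mul, hv,
      map_one, mul_one]) ⟨2, by
      rw [pow_two, Ideal.zero_eq_bot, eq_bot_iff, Ideal.mul_le]
      exact fun y hy z hz => hJ2 y z hy hz⟩
  have hτ : ∀ g, F (θ g - σ (algebraMap R R' (π g))) = 0 := fun g => by
    rw [map_sub, hF, hσ, sub_self]
  refine ⟨θ, (σ.comp (algebraMap R R')).comp π, fun g hg => ?_,
    fun g h => hJ2 _ _ (hτ g) (hτ h), fun g => hJ _ (hτ g), fun g hg => ?_⟩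
  · obtain ⟨k, hk⟩ := IsLocalization.Away.exists_of_eq (S := B)
      (a : P ⧸ I ^ 2) (a := q g) (b := 0) (by rw [map_zero]; exact hg)
    exact ⟨k, Ideal.Quotient.eq_zero_iff_mem.mp (by rw [map_mul, map_pow, map_natCast, hk, mul_zero])⟩
  · change σ (algebraMap R R' (π g)) = 0
    rw [hg, map_zero, map_zero]

theorem pr3b_der {N : ℕ} {B : Type} [CommRing B] (θ τ : MvPolynomial (Fin N) ℤ →+* B)
    (hsq : ∀ g h, (θ g - τ g) * (θ h - τ h) = 0) (g : MvPolynomial (Fin N) ℤ) :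
    θ g - τ g = ∑ l, θ (pderiv l g) * (θ (X l) - τ (X l)) := by
  induction g using MvPolynomial.induction_on with
  | C n => simp
  | add f g hf hg =>
    simp only [map_add, add_mul, Finset.sum_add_distrib, ← hf, ← hg]; ring
  | mul_X f i hf =>
    have h1 : θ (f * X i) - τ (f * X i) = θ f * (θ (X i) - τ (X i)) + θ (X i) * (θ f - τ f) := by
      rw [map_mul, map_mul]; linear_combination -hsq f (X i)
    have h2 : θ f * (θ (X i) - τ (X i)) =
        ∑ l, θ (f * pderiv l (X i)) * (θ (X l) - τ (X l)) := by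
      rw [Finset.sum_eq_single i (fun l _ hl => by rw [pderiv_X_of_ne hl.symm]; simp) (by simp)]
      simp
    rw [h1, hf, Finset.mul_sum, h2, ← Finset.sum_add_distrib]
    refine Finset.sum_congr rfl fun l _ => ?_
    rw [Derivation.leibniz, smul_eq_mul, smul_eq_mul, map_add, map_mul θ (X i)]
    ring

theorem pr3b_fin {N : ℕ} {R B : Type} [CommRing R] [CommRing B]
    (π : MvPolynomial (Fin N) ℤ →+* R) {a : ℕ} (ha : a ≠ 0) (I : Ideal (MvPolynomial (Fin N) ℤ))
    (hI : I = RingHom.ker π) (θ τ : MvPolynomial (Fin N) ℤ →+* B)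
    (hθ : ∀ g, θ g = 0 → ∃ k : ℕ, (a : MvPolynomial (Fin N) ℤ) ^ k * g ∈ I ^ 2)
    (hsq : ∀ g h, (θ g - τ g) * (θ h - τ h) = 0)
    (hJ : ∀ g, ∃ k : ℕ, ∃ h, π h = 0 ∧ (a : B) ^ k * (θ g - τ g) = θ h)
    (hτ : ∀ g, π g = 0 → τ g = 0) :
    ∃ (b : ℕ) (γ : Fin N → MvPolynomial (Fin N) ℤ) (S : Finset (MvPolynomial (Fin N) ℤ)),
      b ≠ 0 ∧ (∀ l, π (γ l) = 0) ∧ Ideal.span (S : Set (MvPolynomial (Fin N) ℤ)) = I ∧
      ∀ g ∈ S, (b : MvPolynomial (Fin N) ℤ) * g - ∑ l, pderiv l g * γ l ∈ I ^ 2 := by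
  choose k0 γ0 hγ0 hk0 using fun l => hJ (X l)
  obtain ⟨S, hS⟩ : ∃ S : Finset (MvPolynomial (Fin N) ℤ), Ideal.span (S : Set _) = I :=
    (isNoetherianRing_iff_ideal_fg _).mp inferInstance I
  have hm : ∀ l, k0 l ≤ ∑ l, k0 l := fun l =>
    Finset.single_le_sum (fun _ _ => Nat.zero_le _) (Finset.mem_univ l)
  obtain ⟨γ1, hγ1, hγ2⟩ : ∃ γ1 : Fin N → MvPolynomial (Fin N) ℤ, (∀ l, π (γ1 l) = 0) ∧
      ∀ l, θ (γ1 l) = (a : B) ^ (∑ l, k0 l) * (θ (X l) - τ (X l)) := by
    refine ⟨fun l => (a : MvPolynomial (Fin N) ℤ) ^ ((∑ l, k0 l) - k0 l) * γ0 l, fun l => ?_,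
      fun l => ?_⟩
    · rw [map_mul, hγ0, mul_zero]
    · rw [map_mul, ← hk0, map_pow, map_natCast, ← mul_assoc, ← pow_add, Nat.sub_add_cancel (hm l)]
  generalize (∑ l, k0 l) = m at hγ2
  have hg1 : ∀ g ∈ S, ∃ k : ℕ, (a : MvPolynomial (Fin N) ℤ) ^ k *
      ((a : MvPolynomial (Fin N) ℤ) ^ m * g - ∑ l, pderiv l g * γ1 l) ∈ I ^ 2 := by
    intro g hg
    apply hθ
    have h1 : π g = 0 := by
      have : g ∈ I := hS ▸ Ideal.subset_span hg
      rwa [hI] at this
    have h2 := pr3b_der θ τ hsq g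
    rw [hτ g h1, sub_zero] at h2
    rw [map_sub, map_mul, map_pow, map_natCast, h2, map_sum, Finset.mul_sum, sub_eq_zero]
    refine Finset.sum_congr rfl fun l _ => ?_
    rw [map_mul, hγ2]; ring
  choose! k1 hk1 using hg1
  refine ⟨a ^ ((∑ g ∈ S, k1 g) + m), fun l => (a : MvPolynomial (Fin N) ℤ) ^ (∑ g ∈ S, k1 g) * γ1 l,
    S, pow_ne_zero _ ha, fun l => by rw [map_mul, hγ1, mul_zero], hS, fun g hg => ?_⟩
  have hn : k1 g ≤ ∑ g ∈ S, k1 g := Finset.single_le_sum (fun _ _ => Nat.zero_le _) hg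
  generalize (∑ g ∈ S, k1 g) = n at hn
  have h4 : ((a ^ (n + m) : ℕ) : MvPolynomial (Fin N) ℤ) * g -
      ∑ l, pderiv l g * ((a : MvPolynomial (Fin N) ℤ) ^ n * γ1 l) =
      (a : MvPolynomial (Fin N) ℤ) ^ (n - k1 g) * ((a : MvPolynomial (Fin N) ℤ) ^ k1 g *
        ((a : MvPolynomial (Fin N) ℤ) ^ m * g - ∑ l, pderiv l g * γ1 l)) := by
    rw [← mul_assoc, ← pow_add, Nat.sub_add_cancel hn, mul_sub, Finset.mul_sum]
    push_cast
    congr 1
    · ring
    · exact Finset.sum_congr rfl fun l _ => by ring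
  rw [h4]
  exact Ideal.mul_mem_left _ _ (hk1 g hg)

/-- The splitting of the conormal sequence, without denominators, for the generators of the
ideal. -/
theorem exists_split {N : ℕ} {R : Type} [CommRing R] (π : MvPolynomial (Fin N) ℤ →+* R)
    (hπ : Function.Surjective π) {a : ℕ} (ha : a ≠ 0)
    (hsm : Algebra.FormallySmooth ℤ (Localization.Away (a : R))) :
    ∃ (b : ℕ) (γ : Fin N → MvPolynomial (Fin N) ℤ) (S : Finset (MvPolynomial (Fin N) ℤ)),
      b ≠ 0 ∧ (∀ l, π (γ l) = 0) ∧ Ideal.span (S : Set (MvPolynomial (Fin N) ℤ)) = RingHom.ker π ∧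
      ∀ g ∈ S, (b : MvPolynomial (Fin N) ℤ) * g - ∑ l, pderiv l g * γ l ∈ (RingHom.ker π) ^ 2 := by
  obtain ⟨θ, τ, hθ, hsq, hJ, hτ⟩ := pr3b_loc
    (B := Localization.Away (a : MvPolynomial (Fin N) ℤ ⧸ RingHom.ker π ^ 2))
    (R' := Localization.Away (a : R)) (RingHom.ker π) π rfl hπ a hsm
  exact pr3b_fin π ha _ rfl θ τ hθ hsq hJ hτ
-- END PR3b

-- BEGIN PR3c
/-- PROOF.  `exists_smooth_away` gives `a`; then `Localization.Away (a : R)` is smooth over `ℤ`
(`Algebra.basicOpen_subset_smoothLocus_iff_smooth` or similar; only formal smoothness is needed).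
`Algebra.FiniteType ℤ R` gives a surjection `π : MvPolynomial (Fin N) ℤ → R`
(`Algebra.FiniteType.iff_quotient_mvPolynomial''`).  `exists_split` gives `b`, `γ`, `S`.  The
relation extends to all `g ∈ I = ker π = span S`: `Submodule.span_induction` on `g`; for `h * g`:
`pderiv l (h * g) = h * pderiv l g + g * pderiv l h`, so
`b * (h * g) - ∑ l, pderiv l (h * g) * γ l = h * (b * g - ∑ ..) - g * ∑ l, pderiv l h * γ l` and the
last term is in `I * I`. -/
theorem exists_pres (R : Type) [CommRing R] [Algebra.FiniteType ℤ R]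
    (h : ∀ (𝔭 : Ideal R) [𝔭.IsPrime], (∀ n : ℕ, n ≠ 0 → (n : R) ∉ 𝔭) →
      Algebra.FormallySmooth ℤ (Localization.AtPrime 𝔭)) : Nonempty (Pres R) := by
  have : Algebra.FinitePresentation ℤ R := Algebra.FinitePresentation.of_finiteType.mp inferInstance
  obtain ⟨a, ha, hsm⟩ := exists_smooth_away R h
  have h1 : Algebra.FormallySmooth ℤ (Localization.Away (a : R)) :=
    Algebra.basicOpen_subset_smoothLocus_iff.mp fun 𝔮 hq => hsm 𝔮 hq
  obtain ⟨N, π', hπ'⟩ := Algebra.FiniteType.iff_quotient_mvPolynomial''.mp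
    ‹Algebra.FiniteType ℤ R›
  obtain ⟨π, hπd⟩ : ∃ π : MvPolynomial (Fin N) ℤ →+* R, π = π'.toRingHom := ⟨_, rfl⟩
  have hπ : Function.Surjective π := by
    rw [hπd]
    exact hπ'
  obtain ⟨b, γ, S, hb, hγ, hS, hrel⟩ := exists_split π hπ ha h1
  refine ⟨⟨N, π, hπ, b, hb, γ, hγ, fun g hg => ?_⟩⟩
  have hg' : g ∈ Ideal.span (S : Set (MvPolynomial (Fin N) ℤ)) := by
    rw [hS]
    exact hg
  have key : g ∈ RingHom.ker π ∧
      (b : MvPolynomial (Fin N) ℤ) * g - ∑ l, pderiv l g * γ l ∈ (RingHom.ker π) ^ 2 := by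
    refine Submodule.span_induction (p := fun g _ => g ∈ RingHom.ker π ∧
      (b : MvPolynomial (Fin N) ℤ) * g - ∑ l, pderiv l g * γ l ∈ (RingHom.ker π) ^ 2)
      (fun x hx => ⟨?_, hrel x hx⟩) ⟨zero_mem _, by simp⟩ (fun x y _ _ hx hy => ⟨?_, ?_⟩)
      (fun r x _ hx => ⟨?_, ?_⟩) hg'
    · rw [← hS]
      exact Ideal.subset_span hx
    · exact add_mem hx.1 hy.1
    · have h2 : (b : MvPolynomial (Fin N) ℤ) * (x + y) - ∑ l, pderiv l (x + y) * γ l =
          (b * x - ∑ l, pderiv l x * γ l) + (b * y - ∑ l, pderiv l y * γ l) := by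
        simp only [map_add, add_mul, Finset.sum_add_distrib]
        ring
      rw [h2]
      exact add_mem hx.2 hy.2
    · exact Ideal.mul_mem_left _ r hx.1
    · have h2 : (b : MvPolynomial (Fin N) ℤ) * (r • x) - ∑ l, pderiv l (r • x) * γ l =
          r * (b * x - ∑ l, pderiv l x * γ l) - x * ∑ l, pderiv l r * γ l := by
        simp only [smul_eq_mul, Derivation.leibniz, add_mul, Finset.sum_add_distrib,
          Finset.mul_sum, mul_sub]
        rw [sub_sub, ← mul_assoc, ← mul_assoc, mul_comm (b : MvPolynomial (Fin N) ℤ) r]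
        congr 1
        congr 1
        · exact Finset.sum_congr rfl fun l _ => by ring
        · exact Finset.sum_congr rfl fun l _ => by ring
      rw [h2]
      refine sub_mem (Ideal.mul_mem_left _ r hx.2) ?_
      rw [pow_two]
      exact Ideal.mul_mem_mul hx.1 (Ideal.sum_mem _ fun l _ => Ideal.mul_mem_left _ _ (hγ l))
  exact key.2
-- END PR3c

end Pool.Agent.Lib.MP_6a3dac_ag.NU
end
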