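import Pool.Agent.Lib.MP_6a3dac_ag.Mg.G069
import Pool.Agent.Lib.MP_6a3dac_ag.Mg.G072

section

/-!
# NU: the affine blow-up algebra of the ambient regular local ring
-/

set_option autoImplicit false

namespace Pool.Agent.Lib.MP_6a3dac_ag.NU

open IsLocalRing

-- BEGIN AM1a
/-- Derivations extend to localizations. -/
theorem exists_derivation_localization {B S : Type} [CommRing B] [CommRing S] [Algebra B S]
    (M : Submonoid B) [IsLocalization M S] (θ : Derivation ℤ B B) :
    ∃ θ' : Derivation ℤ S S, ∀ b, θ' (algebraMap B S b) = algebraMap B S (θ b) := by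
  let F : B →+* TrivSqZeroExt S S :=
    { toFun := fun b => TrivSqZeroExt.inl (algebraMap B S b) +
        TrivSqZeroExt.inr (algebraMap B S (θ b))
      map_one' := by ext <;> simp
      map_mul' := fun x y => by
        ext <;> simp
        simp only [Algebra.smul_def]
        ring
      map_zero' := by ext <;> simp
      map_add' := fun x y => by
        ext <;> simp
        simp only [Algebra.smul_def, mul_one] }
  have hF : ∀ m : M, IsUnit (F m) := fun m => TrivSqZeroExt.isUnit_iff_isUnit_fst.2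
    (by simpa [F] using IsLocalization.map_units S m)
  let F' : S →+* TrivSqZeroExt S S := IsLocalization.lift hF
  have hF' : ∀ b, F' (algebraMap B S b) = F b := IsLocalization.lift_eq hF
  have h1 : ∀ x, (F' x).fst = x := by
    have h : ((TrivSqZeroExt.fstHom S S S : TrivSqZeroExt S S →ₐ[S] S) :
        TrivSqZeroExt S S →+* S).comp F' = RingHom.id S :=
      IsLocalization.ringHom_ext M (by ext b; simp [hF', F])
    exact fun x => RingHom.congr_fun h x
  let G : S →+ S :=
    { toFun := fun x => (F' x).snd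
      map_zero' := by simp
      map_add' := by simp }
  refine ⟨Derivation.mk' G.toIntLinearMap fun x y => ?_, fun b => ?_⟩
  · change (F' (x * y)).snd = x • (F' y).snd + y • (F' x).snd
    rw [map_mul, TrivSqZeroExt.snd_mul, h1, h1]
    simp [mul_comm]
  · change (F' (algebraMap B S b)).snd = _
    rw [hF']
    simp [F]
    simp only [Algebra.smul_def, mul_one]
-- END AM1a

-- BEGIN AM1b
theorem am1b_der {B S D : Type} [CommRing B] [CommRing S] [CommRing D] [Algebra B S] [Algebra B D]
    (i : D →+* S) (hi : Function.Injective i) (hB : ∀ b, i (algebraMap B D b) = algebraMap B S b)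
    (M : Submonoid B) [IsLocalization M S] (t : B) (J : Ideal B)
    (hgen : Subring.closure (Set.range (algebraMap B D) ∪
      {y | ∃ x ∈ J, algebraMap B D t * y = algebraMap B D x}) = ⊤) (θ : Derivation ℤ B B) :
    ∃ θ' : Derivation ℤ D D, ∀ b, θ' (algebraMap B D b) = algebraMap B D (t * θ b) := by
  obtain ⟨θS, hθS⟩ := exists_derivation_localization (S := S) M θ
  have hst : ∀ z : D, ∃ w : D, i w = algebraMap B S t * θS (i z) := fun z => by
    have hz : z ∈ Subring.closure (Set.range (algebraMap B D) ∪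
      {y | ∃ x ∈ J, algebraMap B D t * y = algebraMap B D x}) := hgen ▸ trivial
    induction hz using Subring.closure_induction with
    | mem z hz =>
      obtain ⟨r, rfl⟩ | ⟨x, -, hz⟩ := hz
      · exact ⟨algebraMap B D (t * θ r), by rw [hB, hB, hθS, map_mul]⟩
      · have h := congrArg (fun z => θS (i z)) hz
        simp only [map_mul, hB, Derivation.leibniz, hθS, smul_eq_mul] at h
        exact ⟨algebraMap B D (θ x) - z * algebraMap B D (θ t), by
          rw [map_sub, map_mul, hB, hB, ← h, add_sub_cancel_right]⟩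
    | zero => exact ⟨0, by simp⟩
    | one => exact ⟨0, by simp⟩
    | add a b _ _ ha hb =>
      obtain ⟨v, hv⟩ := ha
      obtain ⟨w, hw⟩ := hb
      exact ⟨v + w, by rw [map_add, hv, hw, map_add, map_add, mul_add]⟩
    | neg a _ ha =>
      obtain ⟨v, hv⟩ := ha
      exact ⟨-v, by rw [map_neg, hv, map_neg, map_neg, mul_neg]⟩
    | mul a b _ _ ha hb =>
      obtain ⟨v, hv⟩ := ha
      obtain ⟨w, hw⟩ := hb
      exact ⟨a * w + b * v, by
        rw [map_add, map_mul, map_mul, hv, hw, map_mul, Derivation.leibniz, smul_eq_mul,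
          smul_eq_mul]
        ring⟩
  choose w hw using hst
  let G : D →+ D :=
    { toFun := w
      map_zero' := hi (by rw [hw, map_zero, map_zero, mul_zero])
      map_add' := fun a b => hi (by rw [hw, map_add, map_add, map_add, hw, hw, mul_add]) }
  refine ⟨Derivation.mk' G.toIntLinearMap fun a b => hi ?_, fun b => hi ?_⟩
  · change i (w (a * b)) = i (a * w b + b * w a)
    rw [hw, map_add, map_mul, map_mul i, map_mul i, hw, hw, Derivation.leibniz, smul_eq_mul,
      smul_eq_mul]
    ring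
  · change i (w (algebraMap B D b)) = _
    rw [hw, hB, hθS, hB, map_mul]

/-- **The affine blow-up algebra** `B[J / t]`, inside the localization at `t`. -/
theorem exists_blowAlg {B A' : Type} [CommRing B] [IsDomain B] [CommRing A'] [IsDomain A']
    (χ : B →+* A') (J : Ideal B) {t : B} (ht : t ∈ J) (ht0 : χ t ≠ 0)
    (hdvd : ∀ x ∈ J, χ t ∣ χ x) :
    ∃ (D : Type) (_ : CommRing D) (_ : Algebra B D) (χ' : D →+* A'), IsDomain D ∧
      IsBlowAlg χ J t χ' := by
  have ht' : t ≠ 0 := fun h => ht0 (by rw [h, map_zero])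
  let S := Localization.Away t
  let L := FractionRing A'
  have hle := powers_le_nonZeroDivisors_of_noZeroDivisors ht'
  have : IsDomain S := IsLocalization.isDomain_localization hle
  have hL : Function.Injective (algebraMap A' L) := IsFractionRing.injective A' L
  have hS : Function.Injective (algebraMap B S) := IsLocalization.injective S hle
  have hu : IsUnit (((algebraMap A' L).comp χ) t) :=
    (by simpa using ht0 : ((algebraMap A' L).comp χ) t ≠ 0).isUnit
  let lam : S →+* L := IsLocalization.Away.lift t hu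
  have hlam : ∀ b, lam (algebraMap B S b) = algebraMap A' L (χ b) := fun b =>
    IsLocalization.Away.lift_eq t hu b
  let D : Subalgebra B S :=
    Algebra.adjoin B {z : S | ∃ x ∈ J, algebraMap B S t * z = algebraMap B S x}
  have hD : ∀ z ∈ D, lam z ∈ (algebraMap A' L).range := fun z hz => by
    induction hz using Algebra.adjoin_induction with
    | mem z hz =>
      obtain ⟨x, hx, hz⟩ := hz
      obtain ⟨c, hc⟩ := hdvd x hx
      refine ⟨c, mul_left_cancel₀ hu.ne_zero ?_⟩
      have := congrArg lam hz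
      rw [map_mul, hlam, hlam, hc, map_mul] at this
      exact this.symm
    | algebraMap r => exact ⟨χ r, (hlam r).symm⟩
    | add a b _ _ ha hb => rw [map_add]; exact add_mem ha hb
    | mul a b _ _ ha hb => rw [map_mul]; exact mul_mem ha hb
  let e : A' ≃+* (algebraMap A' L).range := RingEquiv.ofBijective (algebraMap A' L).rangeRestrict
    ⟨fun a b h => hL (congrArg Subtype.val h), RingHom.rangeRestrict_surjective _⟩
  let χ' : D →+* A' := (e.symm : _ →+* A').comp
    ((lam.comp (D.val : D →+* S)).codRestrict (algebraMap A' L).range fun z => hD z z.2)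
  have hχ' : ∀ z, algebraMap A' L (χ' z) = lam z := fun z =>
    congrArg Subtype.val (e.apply_symm_apply ⟨lam z, hD z z.2⟩)
  have hmem : ∀ z : S, ∀ x ∈ J, algebraMap B S t * z = algebraMap B S x → z ∈ D :=
    fun z x hx h => Algebra.subset_adjoin ⟨x, hx, h⟩
  have hgen : Subring.closure (Set.range (algebraMap B D) ∪
      {y | ∃ x ∈ J, algebraMap B D t * y = algebraMap B D x}) = ⊤ := by
    refine eq_top_iff.2 fun z _ => ?_
    obtain ⟨z, hz⟩ := z
    induction hz using Algebra.adjoin_induction with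
    | mem z hz =>
      obtain ⟨x, hx, hz⟩ := hz
      exact Subring.subset_closure (Or.inr ⟨x, hx, Subtype.ext hz⟩)
    | algebraMap r => exact Subring.subset_closure (Or.inl ⟨r, rfl⟩)
    | add a b _ _ ha hb => exact add_mem (ha trivial) (hb trivial)
    | mul a b _ _ ha hb => exact mul_mem (ha trivial) (hb trivial)
  refine ⟨D, inferInstance, inferInstance, χ', inferInstance,
    ⟨fun a b h => hS (congrArg Subtype.val h), fun b => hL ((hχ' _).trans (hlam b)), ht, ht0,
    fun x hx => ?_, hgen, fun z => ?_,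
    am1b_der (B := B) (D.val : D →+* S) Subtype.val_injective (fun _ => rfl)
      (Submonoid.powers t) t J hgen⟩⟩
  · have h := IsLocalization.mk'_spec' S x (⟨t, 1, pow_one t⟩ : Submonoid.powers t)
    exact ⟨⟨_, hmem _ x hx h⟩, Subtype.ext h.symm⟩
  · obtain ⟨⟨b, _, k, rfl⟩, h⟩ := IsLocalization.surj (Submonoid.powers t) (z : S)
    refine ⟨k, b, Subtype.ext ?_⟩
    rw [mul_comm]
    simpa using h
-- END AM1b

-- BEGIN AM1c
/-- The blow-up algebra is of finite type. -/
theorem IsBlowAlg.finiteType {B D A' : Type} [CommRing B] [CommRing D] [CommRing A'] [Algebra B D]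
    [IsNoetherianRing B] [IsDomain D] {χ : B →+* A'} {J : Ideal B} {t : B} {χ' : D →+* A'}
    (h : IsBlowAlg χ J t χ') : Algebra.FiniteType B D := by
  classical
  obtain ⟨s, rfl⟩ := IsNoetherian.noetherian J
  have ht : algebraMap B D t ≠ 0 := fun h0 => h.ne (by
    rw [h.inj (h0.trans (map_zero _).symm), map_zero])
  choose! y hy using (h.dvd : ∀ x ∈ Ideal.span (s : Set B), ∃ y,
    algebraMap B D x = algebraMap B D t * y)
  refine ⟨⟨s.image y, eq_top_iff.2 fun z _ => ?_⟩⟩
  have hz : z ∈ Subring.closure (Set.range (algebraMap B D) ∪ {y | ∃ x ∈ Ideal.span (s : Set B),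
    algebraMap B D t * y = algebraMap B D x}) := h.gen ▸ trivial
  have key : ∀ x ∈ Ideal.span (s : Set B), ∃ w ∈ Algebra.adjoin B ((s.image y : Finset D) : Set D),
      algebraMap B D t * w = algebraMap B D x := fun x hx => by
    induction hx using Submodule.span_induction with
    | mem x hx => exact ⟨y x, Algebra.subset_adjoin (Finset.mem_coe.2 (Finset.mem_image_of_mem y hx)),
        (hy x (Ideal.subset_span hx)).symm⟩
    | zero => exact ⟨0, zero_mem _, by simp⟩
    | add a b _ _ ha hb =>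
      obtain ⟨v, hv, ha⟩ := ha
      obtain ⟨w, hw, hb⟩ := hb
      exact ⟨v + w, add_mem hv hw, by rw [mul_add, ha, hb, map_add]⟩
    | smul r a _ ha =>
      obtain ⟨v, hv, ha⟩ := ha
      exact ⟨algebraMap B D r * v, mul_mem (Subalgebra.algebraMap_mem _ _) hv, by
        rw [mul_left_comm, ha, smul_eq_mul, map_mul]⟩
  refine (Subring.closure_le (t := (Algebra.adjoin B ((s.image y : Finset D) : Set D)).toSubring)).2
    ?_ hz
  rintro _ (⟨b, rfl⟩ | ⟨x, hx, hz⟩)
  · exact Subalgebra.algebraMap_mem _ _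
  · obtain ⟨w, hw, hw'⟩ := key x hx
    exact mul_left_cancel₀ ht (hz.trans hw'.symm) ▸ hw
-- END AM1c

-- BEGIN AM1g
/-- Dimension of a quotient domain plus height of the kernel. -/
theorem ringKrullDim_add_height_le {B A : Type} [CommRing B] [CommRing A] [IsDomain A]
    (ψ : B →+* A) (hψ : Function.Surjective ψ) :
    ringKrullDim A + ((RingHom.ker ψ).height : WithBot ℕ∞) ≤ ringKrullDim B := by
  let P : PrimeSpectrum B := ⟨RingHom.ker ψ, RingHom.ker_isPrime ψ⟩
  have : Nonempty (PrimeSpectrum B) := ⟨P⟩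
  have h1 : ringKrullDim A ≤ (Order.coheight P : WithBot ℕ∞) := by
    rw [Order.coheight_eq_krullDim_Ici]
    refine Order.krullDim_le_of_strictMono
      (fun q => ⟨PrimeSpectrum.comap ψ q, Ideal.comap_mono (f := ψ) bot_le⟩) ?_
    refine Monotone.strictMono_of_injective (fun p q hpq => Ideal.comap_mono hpq) fun p q hpq => ?_
    exact PrimeSpectrum.ext_iff.mpr (Ideal.comap_injective_of_surjective ψ hψ
      (congrArg PrimeSpectrum.asIdeal (congrArg Subtype.val hpq)))
  have h2 : (RingHom.ker ψ).height = Order.height P := PrimeSpectrum.height_eq_orderHeight P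
  have h3 : ringKrullDim B = _ :=
    Order.krullDim_eq_iSup_height_add_coheight_of_nonempty (α := PrimeSpectrum B)
  rw [h2, h3]
  refine (add_le_add h1 le_rfl).trans ?_
  rw [add_comm, ← WithBot.coe_add]
  exact WithBot.coe_le_coe.2 (le_iSup (fun a : PrimeSpectrum B => Order.height a + Order.coheight a) P)
-- END AM1g

-- BEGIN AM1h
/-- The local ring of the blow-up algebra at the point defined by `A'`. -/
theorem exists_local_surjection {D A' : Type} [CommRing D] [CommRing A'] [IsLocalRing A']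
    [IsDomain A'] (χ' : D →+* A')
    (hgen : ∀ z : A', ∃ p q : D, IsUnit (χ' q) ∧ χ' q * z = χ' p) :
    ∃ ψ' : Localization.AtPrime ((maximalIdeal A').comap χ') →+* A',
      (∀ x, ψ' (algebraMap D _ x) = χ' x) ∧ Function.Surjective ψ' ∧
      (RingHom.ker ψ').height = (RingHom.ker χ').height := by
  set 𝔮 := (maximalIdeal A').comap χ'
  have hu : ∀ y : 𝔮.primeCompl, IsUnit (χ' y) := fun y => by
    by_contra h
    exact y.2 h
  let ψ' : Localization.AtPrime 𝔮 →+* A' := IsLocalization.lift hu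
  have h1 : ∀ x, ψ' (algebraMap D _ x) = χ' x := fun x => IsLocalization.lift_eq hu x
  have : (RingHom.ker ψ').IsPrime := RingHom.ker_isPrime ψ'
  refine ⟨ψ', h1, fun z => ?_, ?_⟩
  · obtain ⟨p, q, hq, hz⟩ := hgen z
    have hq' : q ∈ 𝔮.primeCompl := fun h => h hq
    refine ⟨IsLocalization.mk' _ p ⟨q, hq'⟩, ?_⟩
    rw [IsLocalization.lift_mk'_spec]
    exact hz.symm
  · rw [← IsLocalization.height_under 𝔮.primeCompl (RingHom.ker ψ')]
    congr 1
    ext x
    rw [Ideal.mem_comap, RingHom.mem_ker, RingHom.mem_ker, h1]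
-- END AM1h

-- BEGIN AM1i
/-- Derivatives of the divided equations. -/
theorem IsBlowAlg.deriv_one {B D A' : Type} [CommRing B] [CommRing D] [CommRing A'] [IsDomain A']
    [Algebra B D] {χ : B →+* A'} {J : Ideal B} {t : B} {χ' : D →+* A'} (h : IsBlowAlg χ J t χ')
    (θ : Derivation ℤ B B) (θ' : Derivation ℤ D D)
    (hθ : ∀ b, θ' (algebraMap B D b) = algebraMap B D (t * θ b)) {g : B} (hg : χ g = 0) {y : D}
    (hy : algebraMap B D t * y = algebraMap B D g) :
    χ' y = 0 ∧ χ' (θ' y) = χ (θ g) := by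
  have h0 : χ' y = 0 := by
    have := congrArg χ' hy
    rw [map_mul, h.comp, h.comp, hg] at this
    exact (mul_eq_zero.1 this).resolve_left h.ne
  refine ⟨h0, mul_left_cancel₀ h.ne ?_⟩
  have := congrArg χ' (congrArg θ' hy)
  rw [Derivation.leibniz, hθ t, hθ g, map_add, smul_eq_mul, smul_eq_mul, map_mul, map_mul, h0,
    zero_mul, add_zero, h.comp, h.comp, map_mul] at this
  exact this
-- END AM1i

-- BEGIN AM1j
/-- Derivatives of the equations divided twice. -/
theorem IsBlowAlg.deriv_two {B D A' : Type} [CommRing B] [CommRing D] [CommRing A'] [IsDomain A']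
    [Algebra B D] {χ : B →+* A'} {J : Ideal B} {t : B} {χ' : D →+* A'} (h : IsBlowAlg χ J t χ')
    (θ : Derivation ℤ B B) (θ' : Derivation ℤ D D)
    (hθ : ∀ b, θ' (algebraMap B D b) = algebraMap B D (t * θ b)) {g : B} (hg : χ g = 0) {y : D}
    (hy : algebraMap B D t ^ 2 * y = algebraMap B D g) :
    χ' y = 0 ∧ χ t * χ' (θ' y) = χ (θ g) := by
  have h0 : χ' y = 0 := by
    have := congrArg χ' hy
    rw [map_mul, map_pow, h.comp, h.comp, hg] at this
    exact (mul_eq_zero.1 this).resolve_left (pow_ne_zero 2 h.ne)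
  refine ⟨h0, mul_left_cancel₀ h.ne ?_⟩
  have := congrArg χ' (congrArg θ' hy)
  rw [Derivation.leibniz, hθ, map_add, smul_eq_mul, smul_eq_mul, map_mul, map_mul, h0, zero_mul,
    add_zero, map_pow, h.comp, h.comp, map_mul, pow_two, mul_assoc] at this
  exact this
-- END AM1j

-- BEGIN AM1k
/-- **The minor of the divided equations.** -/
theorem IsBlowAlg.det {B D A' : Type} [CommRing B] [CommRing D] [CommRing A'] [IsDomain A']
    [Algebra B D] {χ : B →+* A'} {J : Ideal B} {t : B} {χ' : D →+* A'} (h : IsBlowAlg χ J t χ')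
    {c : ℕ} (θ : Fin c → Derivation ℤ B B) (θ' : Fin c → Derivation ℤ D D)
    (hθ : ∀ l b, θ' l (algebraMap B D b) = algebraMap B D (t * θ l b)) (g : Fin c → B)
    (hg : ∀ k, χ (g k) = 0) (y : Fin c → D) (k₀ : Fin c)
    (hy₀ : algebraMap B D t ^ 2 * y k₀ = algebraMap B D (g k₀))
    (hy : ∀ k, k ≠ k₀ → algebraMap B D t * y k = algebraMap B D (g k)) :
    (∀ k, χ' (y k) = 0) ∧ χ t * χ' (Matrix.of fun l k : Fin c => θ' l (y k)).det =
      χ (Matrix.of fun l k : Fin c => θ l (g k)).det := by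
  have h2 := fun l => h.deriv_two (θ l) (θ' l) (hθ l) (hg k₀) hy₀
  have h1 := fun l k hk => h.deriv_one (θ l) (θ' l) (hθ l) (hg k) (hy k hk)
  refine ⟨fun k => ?_, ?_⟩
  · by_cases hk : k = k₀
    · exact hk ▸ (h2 k₀).1
    · exact (h1 k₀ k hk).1
  · have h3 : (Matrix.of fun l k : Fin c => χ (θ l (g k))) =
        Matrix.of fun l k => (if k = k₀ then χ t else 1) * χ' (θ' l (y k)) := by
      ext l k
      by_cases hk : k = k₀
      · subst hk
        simp [(h2 l).2]
      · simp [hk, (h1 l k hk).2]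
    have h4 := Matrix.det_mul_row (fun k => if k = k₀ then χ t else 1)
      (Matrix.of fun l k : Fin c => χ' (θ' l (y k)))
    rw [Finset.prod_ite_eq' Finset.univ k₀ (fun _ => χ t), if_pos (Finset.mem_univ _)] at h4
    rw [RingHom.map_det, RingHom.map_det]
    exact h4.symm.trans (congrArg Matrix.det h3.symm)
-- END AM1k

end Pool.Agent.Lib.MP_6a3dac_ag.NU
end

section

/-!
# NU: regular quotients of regular local rings, choice of the equations
-/

set_option autoImplicit false

namespace Pool.Agent.Lib.MP_6a3dac_ag.NU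

open IsLocalRing IsDiscreteValuationRing

-- BEGIN AM2a
/-- Independent elements of the cotangent space, completed to generators of the maximal ideal. -/
theorem am2a_gens {B : Type} [CommRing B] [IsLocalRing B] [IsNoetherianRing B] {ρ : ℕ}
    (h : Fin ρ → B) (hm : ∀ j, h j ∈ maximalIdeal B)
    (hind : ∀ b : Fin ρ → B, ∑ j, b j * h j ∈ maximalIdeal B ^ 2 → ∀ j, b j ∈ maximalIdeal B) :
    ∃ s : Set B, s.Finite ∧ s.ncard + ρ ≤ (maximalIdeal B).spanFinrank ∧
      Ideal.span (Set.range h ∪ s) = maximalIdeal B := by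
  let v : Fin ρ → CotangentSpace B := fun j => (maximalIdeal B).toCotangent ⟨h j, hm j⟩
  have hv : LinearIndependent (ResidueField B) v := by
    rw [Fintype.linearIndependent_iff]
    intro g hg
    choose b hb using fun i => residue_surjective (g i)
    have h1 : (maximalIdeal B).toCotangent (∑ j, b j • ⟨h j, hm j⟩) = 0 := by
      rw [map_sum, ← hg]
      refine Finset.sum_congr rfl fun j _ => ?_
      rw [← hb j, map_smul]
      rfl
    rw [Ideal.toCotangent_eq_zero] at h1
    intro i
    rw [← hb i, residue_eq_zero_iff]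
    refine hind b ?_ i
    simpa using h1
  obtain ⟨W, hW⟩ := Submodule.exists_isCompl (Submodule.span (ResidueField B) (Set.range v))
  have hdim := Submodule.finrank_add_eq_of_isCompl hW
  rw [finrank_span_eq_card hv, Fintype.card_fin] at hdim
  let b := Module.finBasis (ResidueField B) W
  choose x hx using fun i => (maximalIdeal B).toCotangent_surjective (b i : CotangentSpace B)
  refine ⟨Set.range fun i => (x i : B), Set.finite_range _, ?_, ?_⟩
  · rw [spanFinrank_maximalIdeal_eq_finrank_cotangentSpace]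
    have h1 := Set.ncard_image_le (f := fun i => (x i : B))
      (Set.finite_univ (α := Fin (Module.finrank (ResidueField B) W)))
    rw [Set.image_univ, Set.ncard_univ, Nat.card_eq_fintype_card, Fintype.card_fin] at h1
    change _ ≤ Module.finrank (ResidueField B) (CotangentSpace B)
    omega
  · have key : Submodule.span B
        (Set.range (fun j => (⟨h j, hm j⟩ : maximalIdeal B)) ∪ Set.range x) = ⊤ := by
      rw [← CotangentSpace.span_image_eq_top_iff, Set.image_union, ← Set.range_comp,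
        ← Set.range_comp, Submodule.span_union, eq_top_iff, ← hW.sup_eq_top]
      refine sup_le_sup le_rfl fun w hw => ?_
      have h2 : w ∈ (Submodule.span _ (Set.range b)).map W.subtype :=
        ⟨⟨w, hw⟩, b.mem_span _, rfl⟩
      rw [Submodule.map_span, ← Set.range_comp] at h2
      refine Submodule.span_mono ?_ h2
      rintro _ ⟨i, rfl⟩
      exact ⟨i, hx i⟩
    have h3 := congrArg (Submodule.map (Submodule.subtype (maximalIdeal B))) key
    rw [Submodule.map_span, Submodule.map_top, Submodule.range_subtype, Set.image_union,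
      ← Set.range_comp, ← Set.range_comp] at h3
    exact h3

/-- A quotient kills independent elements of the cotangent space. -/
theorem spanFinrank_add_le {B A : Type} [CommRing B] [IsLocalRing B] [IsNoetherianRing B]
    [CommRing A] [IsLocalRing A] (ψ : B →+* A) (hψ : Function.Surjective ψ) {ρ : ℕ} (h : Fin ρ → B)
    (hm : ∀ j, h j ∈ maximalIdeal B) (h0 : ∀ j, ψ (h j) = 0)
    (hind : ∀ b : Fin ρ → B, ∑ j, b j * h j ∈ maximalIdeal B ^ 2 → ∀ j, b j ∈ maximalIdeal B) :
    (maximalIdeal A).spanFinrank + ρ ≤ (maximalIdeal B).spanFinrank := by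
  obtain ⟨s, hs, hc, he⟩ := am2a_gens h hm hind
  have h1 : maximalIdeal A = Ideal.span (ψ '' s) := by
    have hl := IsLocalHom.of_surjective ψ hψ
    have h2 : (maximalIdeal A).comap ψ = maximalIdeal B :=
      ((IsLocalRing.local_hom_TFAE ψ).out 0 4).mp hl
    rw [← Ideal.map_comap_of_surjective ψ hψ (maximalIdeal A), h2, ← he, Ideal.map_span,
      Set.image_union, Ideal.span_union, sup_eq_right, Ideal.span_le]
    rintro _ ⟨_, ⟨j, rfl⟩, rfl⟩
    rw [h0]
    exact Ideal.zero_mem _
  have h2 : (maximalIdeal A).spanFinrank ≤ s.ncard := by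
    rw [h1]
    exact (Submodule.spanFinrank_span_le_ncard_of_finite (hs.image _)).trans
      (Set.ncard_image_le hs)
  omega
-- END AM2a

-- BEGIN AM2b
theorem am2b_gens {B : Type} [CommRing B] [IsLocalRing B] [IsNoetherianRing B] (J : Ideal B)
    (hJ : J ≤ maximalIdeal B) : ∃ (r : ℕ) (s : Fin r → B), (∀ i, s i ∈ J) ∧
      J ≤ Ideal.span (Set.range s) ⊔ maximalIdeal B ^ 2 ∧
      ∀ b : Fin r → B, ∑ i, b i * s i ∈ maximalIdeal B ^ 2 → ∀ i, b i ∈ maximalIdeal B := by
  obtain ⟨f, hf, hs, hi⟩ := Submodule.exists_fun_fin_finrank_span_eq (ResidueField B)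
    {x : CotangentSpace B | ∃ y : maximalIdeal B, (y : B) ∈ J ∧ (maximalIdeal B).toCotangent y = x}
  choose s hsJ hsf using hf
  have key : ∀ b : Fin _ → B, (maximalIdeal B).toCotangent (∑ i, b i • s i) =
      ∑ i, residue B (b i) • f i := fun b => by
    rw [map_sum]
    refine Finset.sum_congr rfl fun i _ => ?_
    rw [map_smul, hsf]
    rfl
  refine ⟨_, fun i => s i, hsJ, fun x hx => ?_, fun b hb i => ?_⟩
  · have h1 : (maximalIdeal B).toCotangent ⟨x, hJ hx⟩ ∈ Submodule.span (ResidueField B)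
        (Set.range f) := by
      rw [hs]
      exact Submodule.subset_span ⟨_, hx, rfl⟩
    obtain ⟨c, hc⟩ := (Submodule.mem_span_range_iff_exists_fun _).1 h1
    choose b hb using fun i => residue_surjective (c i)
    simp_rw [← hb] at hc
    rw [← key b, ← sub_eq_zero, ← map_sub, Ideal.toCotangent_eq_zero] at hc
    have h2 : x = ∑ i, b i * (s i : B) - ((∑ i, b i • s i - ⟨x, hJ hx⟩ : maximalIdeal B) : B) := by
      simp
    rw [h2]
    exact sub_mem (Ideal.mem_sup_left (Ideal.sum_mem _ fun i _ => Ideal.mul_mem_left _ _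
      (Ideal.subset_span ⟨i, rfl⟩))) (Ideal.mem_sup_right hc)
  · have h1 := key b
    rw [(Ideal.toCotangent_eq_zero _ _).2 (by simpa using hb)] at h1
    exact (residue_eq_zero_iff _).1 (Fintype.linearIndependent_iff.1 hi _ h1.symm i)

/-- **Regular quotients of regular local rings.** -/
theorem exists_gens_of_regular_quotient {B : Type} [CommRing B] (hB : IsRegularLocalRing B)
    (J : Ideal B) (hJ : IsRegularLocalRing (B ⧸ J)) :
    ∃ (r : ℕ) (s : Fin r → B), J = Ideal.span (Set.range s) ∧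
      (r : WithBot ℕ∞) + ringKrullDim (B ⧸ J) = ringKrullDim B ∧
      ∀ b : Fin r → B, ∑ i, b i * s i ∈ maximalIdeal B ^ 2 → ∀ i, b i ∈ maximalIdeal B := by
  have hJm : J ≤ maximalIdeal B := le_maximalIdeal (Ideal.Quotient.nontrivial_iff.1 inferInstance)
  obtain ⟨r, s, hs, hJs, hi⟩ := am2b_gens J hJm
  have hsm : ∀ i, s i ∈ maximalIdeal B := fun i => hJm (hs i)
  have hR := isRegularLocalRing_quotient_range r B hB s hsm hi
  have hD := isDomain_aux _ (B ⧸ Ideal.span (Set.range s)) le_rfl
  have hsJ : Ideal.span (Set.range s) ≤ J := Ideal.span_le.2 (by rintro _ ⟨i, rfl⟩; exact hs i)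
  have h1 : (maximalIdeal (B ⧸ Ideal.span (Set.range s))).spanFinrank + r ≤
      (maximalIdeal B).spanFinrank :=
    spanFinrank_add_le _ Ideal.Quotient.mk_surjective s hsm
      (fun j => Ideal.Quotient.eq_zero_iff_mem.2 (Ideal.subset_span ⟨j, rfl⟩)) hi
  have h2 : (maximalIdeal (B ⧸ J)).spanFinrank ≤
      (maximalIdeal (B ⧸ Ideal.span (Set.range s))).spanFinrank := by
    have := ringKrullDim_le_of_surjective _ (Ideal.Quotient.factor_surjective hsJ)
    rw [← hJ.spanFinrank_maximalIdeal, ← hR.spanFinrank_maximalIdeal] at this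
    exact_mod_cast this
  have h3 : (maximalIdeal B).spanFinrank ≤ (maximalIdeal (B ⧸ J)).spanFinrank + r := by
    obtain ⟨T, hT1, hT2⟩ := Submodule.FG.exists_span_finset_card_eq_spanFinrank
      (Ideal.fg_of_isNoetherianRing (maximalIdeal (B ⧸ J)))
    choose g hg using Ideal.Quotient.mk_surjective (I := J)
    classical
    have hl := IsLocalHom.of_surjective (Ideal.Quotient.mk J) Ideal.Quotient.mk_surjective
    have hcm : (maximalIdeal (B ⧸ J)).comap (Ideal.Quotient.mk J) = maximalIdeal B :=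
      ((IsLocalRing.local_hom_TFAE (Ideal.Quotient.mk J)).out 0 4).mp hl
    have h4 : maximalIdeal B = Ideal.span (↑(T.image g) ∪ Set.range s) := by
      apply le_antisymm
      · apply Submodule.le_of_le_smul_of_le_jacobson_bot (I := maximalIdeal B)
          (Ideal.fg_of_isNoetherianRing _) (IsLocalRing.maximalIdeal_le_jacobson _)
        intro x hx
        rw [← hcm, Ideal.mem_comap, ← hT2] at hx
        have h5 : (T : Set (B ⧸ J)) = Ideal.Quotient.mk J '' ((T.image g : Finset B) : Set B) := by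
          rw [Finset.coe_image, Set.image_image]
          simp [hg]
        have h6 : x ∈ ((Ideal.span ((T.image g : Finset B) : Set B)).map
            (Ideal.Quotient.mk J)).comap (Ideal.Quotient.mk J) := by
          rw [Ideal.mem_comap, Ideal.map_span, ← h5]
          exact hx
        rw [Ideal.comap_map_of_surjective' _ Ideal.Quotient.mk_surjective, Ideal.mk_ker] at h6
        refine SetLike.le_def.1 (sup_le ?_ ?_) h6
        · exact le_sup_of_le_left (Ideal.span_mono Set.subset_union_left)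
        · rw [smul_eq_mul, ← pow_two]
          exact hJs.trans (sup_le_sup_right (Ideal.span_mono Set.subset_union_right) _)
      · rw [Ideal.span_le]
        rintro _ (hx | ⟨i, rfl⟩)
        · simp only [Finset.coe_image, Set.mem_image, Finset.mem_coe] at hx
          obtain ⟨y, hy, rfl⟩ := hx
          rw [SetLike.mem_coe, ← hcm, Ideal.mem_comap, hg, ← hT2]
          exact Submodule.subset_span hy
        · exact hsm i
    rw [← hT1, h4]
    refine (Submodule.spanFinrank_span_le_ncard_of_finite (Set.toFinite _)).trans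
      ((Set.ncard_union_le _ _).trans (add_le_add ?_ ?_))
    · rw [Set.ncard_coe_finset]
      exact Finset.card_image_le
    · rw [← Set.image_univ]
      refine (Set.ncard_image_le Set.finite_univ).trans ?_
      rw [Set.ncard_univ, Nat.card_eq_fintype_card, Fintype.card_fin]
  refine ⟨r, s, le_antisymm (fun x hx => ?_) hsJ, ?_, hi⟩
  · by_contra hx'
    have h0 : Ideal.Quotient.mk (Ideal.span (Set.range s)) x ≠ 0 := fun h =>
      hx' (Ideal.Quotient.eq_zero_iff_mem.1 h)
    have h4 := ringKrullDim_quotient_succ_le_of_nonZeroDivisor (mem_nonZeroDivisors_of_ne_zero h0)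
    have h5 := ringKrullDim_le_of_surjective (Ideal.Quotient.lift (Ideal.span
      {Ideal.Quotient.mk (Ideal.span (Set.range s)) x}) (Ideal.Quotient.factor hsJ) (by
        intro a ha
        obtain ⟨c, rfl⟩ := Ideal.mem_span_singleton'.1 ha
        rw [map_mul, Ideal.Quotient.factor_mk, Ideal.Quotient.eq_zero_iff_mem.2 hx, mul_zero]))
      (Ideal.Quotient.lift_surjective_of_surjective _ _ (Ideal.Quotient.factor_surjective hsJ))
    have h6 := (add_le_add_left h5 1).trans h4
    rw [← hJ.spanFinrank_maximalIdeal, ← hR.spanFinrank_maximalIdeal] at h6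
    have h7 : (maximalIdeal (B ⧸ J)).spanFinrank + 1 ≤
      (maximalIdeal (B ⧸ Ideal.span (Set.range s))).spanFinrank := by exact_mod_cast h6
    omega
  · rw [← hJ.spanFinrank_maximalIdeal, ← hB.spanFinrank_maximalIdeal]
    have h4 : r + (maximalIdeal (B ⧸ J)).spanFinrank = (maximalIdeal B).spanFinrank := by omega
    exact_mod_cast h4
-- END AM2b

-- BEGIN AM2c
theorem am2c_mem {B : Type} [CommRing B] {q : ℕ} (s : Fin (q + 1) → B) (i₀ : Fin (q + 1))
    (c : Fin (q + 1) → B) (hc : IsUnit (c i₀)) (I : Ideal B) (hI : ∑ i, c i * s i ∈ I)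
    (hs : ∀ j, s (i₀.succAbove j) ∈ I) (i : Fin (q + 1)) : s i ∈ I := by
  rcases eq_or_ne i i₀ with rfl | hi
  · rw [Fin.sum_univ_succAbove _ i] at hI
    have h1 := (Ideal.add_mem_iff_left I (I.sum_mem fun j _ => I.mul_mem_left (c _) (hs j))).1 hI
    exact (Ideal.unit_mul_mem_iff_mem I hc).1 h1
  · obtain ⟨j, rfl⟩ := Fin.exists_succAbove_eq hi
    exact hs j

/-- Exchange. -/
theorem exists_gens_insert {B : Type} [CommRing B] [IsLocalRing B] {J : Ideal B} {r : ℕ}
    (s : Fin r → B) (hs : J = Ideal.span (Set.range s)) {t : B} (ht : t ∈ J)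
    (ht' : t ∉ maximalIdeal B * J) :
    ∃ (q : ℕ) (s' : Fin q → B), q + 1 = r ∧ J = Ideal.span (insert t (Set.range s')) := by
  have hsJ : ∀ i, s i ∈ J := fun i => hs ▸ Ideal.subset_span ⟨i, rfl⟩
  obtain ⟨c, hc⟩ := Ideal.mem_span_range_iff_exists_fun.1 (hs ▸ ht)
  obtain ⟨i₀, hi₀⟩ : ∃ i, IsUnit (c i) := by
    by_contra! h
    exact ht' (hc ▸ Ideal.sum_mem _ fun i _ => Ideal.mul_mem_mul (h i) (hsJ i))
  obtain _ | q := r
  · exact i₀.elim0
  refine ⟨q, s ∘ i₀.succAbove, rfl, le_antisymm ?_ ?_⟩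
  · conv_lhs => rw [hs]
    rw [Ideal.span_le]
    rintro _ ⟨i, rfl⟩
    refine am2c_mem s i₀ c hi₀ _ ?_ (fun j => Ideal.subset_span (Or.inr ⟨j, rfl⟩)) i
    rw [hc]
    exact Ideal.subset_span (Or.inl rfl)
  · rw [Ideal.span_le]
    rintro _ (rfl | ⟨j, rfl⟩)
    exacts [ht, hsJ _]
-- END AM2c

-- BEGIN AM2d
/-- Relations in the ideal times the maximal ideal. -/
theorem ker_inf_le {B A : Type} [CommRing B] [CommRing A] [IsLocalRing B] (ψ : B →+* A)
    (hψ : Function.Surjective ψ) {𝔱 : Ideal A} (hfree : ConFree 𝔱) :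
    RingHom.ker ψ ⊓ maximalIdeal B * 𝔱.comap ψ ≤
      maximalIdeal B * RingHom.ker ψ ⊔ 𝔱.comap ψ ^ 2 := by
  obtain ⟨n, x, hx, hgen, hind⟩ := hfree
  choose X hX using fun i => hψ (x i)
  have hXJ : ∀ i, X i ∈ 𝔱.comap ψ := fun i => by rw [Ideal.mem_comap, hX]; exact hx i
  have hmap : Ideal.map ψ (𝔱.comap ψ ^ 2) = 𝔱 ^ 2 := by
    rw [Ideal.map_pow, Ideal.map_comap_of_surjective ψ hψ]
  have h1 : ∀ z ∈ maximalIdeal B * 𝔱.comap ψ, ∃ b : Fin n → B, (∀ i, b i ∈ maximalIdeal B) ∧
      ∃ g ∈ maximalIdeal B * RingHom.ker ψ, ∃ w ∈ 𝔱.comap ψ ^ 2, z = ∑ i, b i * X i + g + w := by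
    intro z hz
    refine Submodule.mul_induction_on hz (fun m hm y hy => ?_) fun z z' h h' => ?_
    · obtain ⟨a, ha⟩ := hgen (ψ y) hy
      rw [← hmap, Ideal.mem_map_iff_of_surjective ψ hψ] at ha
      obtain ⟨w, hw, hw'⟩ := ha
      choose a' ha' using fun i => hψ (a i)
      refine ⟨fun i => m * a' i, fun i => Ideal.mul_mem_right _ _ hm, m * (y - ∑ i, a' i * X i - w),
        Ideal.mul_mem_mul hm ?_, m * w, Ideal.mul_mem_left _ _ hw, ?_⟩
      · rw [RingHom.mem_ker, map_sub, map_sub, map_sum, hw']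
        simp [ha', hX]
      · simp only [mul_assoc, ← Finset.mul_sum]
        ring
    · obtain ⟨b, hb, g, hg, w, hw, rfl⟩ := h
      obtain ⟨b', hb', g', hg', w', hw', rfl⟩ := h'
      refine ⟨fun i => b i + b' i, fun i => Ideal.add_mem _ (hb i) (hb' i), g + g',
        Ideal.add_mem _ hg hg', w + w', Ideal.add_mem _ hw hw', ?_⟩
      simp only [add_mul, Finset.sum_add_distrib]
      ring
  rintro z ⟨hz, hz'⟩
  obtain ⟨b, -, g, hg, w, hw, rfl⟩ := h1 z hz'
  have h2 : ψ g = 0 := Ideal.mul_le_right (I := maximalIdeal B) hg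
  have h3 : ∑ i, ψ (b i) * x i ∈ 𝔱 ^ 2 := by
    have h4 : ψ w ∈ 𝔱 ^ 2 := hmap ▸ Ideal.mem_map_of_mem ψ hw
    have h5 : ∑ i, ψ (b i) * x i = -ψ w := by
      rw [SetLike.mem_coe, RingHom.mem_ker, map_add, map_add, h2, map_sum, add_zero] at hz
      simp only [map_mul, hX] at hz
      exact eq_neg_of_add_eq_zero_left hz
    rw [h5]
    exact neg_mem h4
  rw [add_right_comm, add_comm]
  refine Submodule.add_mem_sup hg (Ideal.add_mem _ (Ideal.sum_mem _ fun i _ => ?_) hw)
  rw [pow_two]
  exact Ideal.mul_mem_mul (hind _ h3 i) (hXJ i)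
-- END AM2d

-- BEGIN AM2e
/-- Minimal generators of `P` modulo `P ⊓ Q`. -/
theorem exists_min_gens {B : Type} [CommRing B] [IsLocalRing B] [IsNoetherianRing B]
    (P Q : Ideal B) : ∃ (ρ : ℕ) (h : Fin ρ → B), (∀ j, h j ∈ P) ∧
      (∀ g ∈ P, ∃ b : Fin ρ → B, g - ∑ j, b j * h j ∈ Q) ∧
      ∀ b : Fin ρ → B, ∑ j, b j * h j ∈ maximalIdeal B * P ⊔ Q → ∀ j, b j ∈ maximalIdeal B := by
  classical
  have hex : ∃ ρ, ∃ h : Fin ρ → B, (∀ j, h j ∈ P) ∧ P ≤ Ideal.span (Set.range h) ⊔ Q := by
    obtain ⟨n, s, hs⟩ := Submodule.fg_iff_exists_fin_generating_family.1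
      (IsNoetherian.noetherian P)
    exact ⟨n, s, fun j => hs ▸ Submodule.subset_span ⟨j, rfl⟩, hs ▸ le_sup_left⟩
  obtain ⟨h, hP, hle⟩ := Nat.find_spec hex
  have hmin := fun m => Nat.find_min hex (m := m)
  generalize Nat.find hex = ρ at h hP hle hmin
  refine ⟨ρ, h, hP, fun g hg => ?_, fun b hb j₀ => ?_⟩
  · obtain ⟨a, ha, q, hq, rfl⟩ := Submodule.mem_sup.1 (hle hg)
    obtain ⟨b, rfl⟩ := Ideal.mem_span_range_iff_exists_fun.1 ha
    exact ⟨b, by rwa [add_sub_cancel_left]⟩
  · by_contra hj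
    rw [mem_maximalIdeal, mem_nonunits_iff, not_not] at hj
    obtain _ | q := ρ
    · exact j₀.elim0
    refine hmin q (Nat.lt_succ_self q) ⟨h ∘ j₀.succAbove, fun j => hP _,
      Submodule.le_of_le_smul_of_le_jacobson_bot (I := maximalIdeal B)
        (IsNoetherian.noetherian P) (jacobson_eq_maximalIdeal ⊥ bot_ne_top).ge ?_⟩
    refine hle.trans (sup_le (Ideal.span_le.2 ?_) (le_sup_right.trans le_sup_left))
    rintro _ ⟨i, rfl⟩
    refine am2c_mem h j₀ b hj _ ?_
      (fun j => Submodule.mem_sup_left (Submodule.mem_sup_left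
        (Ideal.subset_span (Set.mem_range_self j)))) i
    have h1 : maximalIdeal B * P ⊔ Q ≤
        (Ideal.span (Set.range (h ∘ j₀.succAbove)) ⊔ Q) ⊔ maximalIdeal B • P :=
      sup_le le_sup_right (le_sup_right.trans le_sup_left)
    exact h1 hb
-- END AM2e

-- BEGIN AM2g
/-- Replace one row at a time. -/
theorem det_mem_span {A : Type} [CommRing A] [IsDomain A] {c ρ : ℕ} (hρ : ρ < c)
    (W U : Submodule A (Fin c → A)) (hWU : W ≤ U) (u : Fin ρ → Fin c → A) (hu : ∀ j, u j ∈ U)
    (v : Fin c → Fin c → A) (hv : ∀ k, ∃ b : Fin ρ → A, v k - ∑ j, b j • u j ∈ W) :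
    (Matrix.of v).det ∈ Ideal.span {x | ∃ v' : Fin c → Fin c → A, (∀ k, v' k ∈ U) ∧
      (∃ k, v' k ∈ W) ∧ x = (Matrix.of v').det} := by
  choose b hb using hv
  have hu' : ∀ k, ∑ j, b k j • u j ∈ U := fun k => U.sum_mem fun j _ => U.smul_mem _ (hu j)
  have hvU : ∀ k, v k ∈ U := fun k => by
    simpa using U.add_mem (hWU (hb k)) (hu' k)
  have h0 : (Matrix.of fun k => ∑ j, b k j • u j).det = 0 := by
    have h1 : (Matrix.of fun k => ∑ j, b k j • u j) = Matrix.of b * Matrix.of u := by
      ext k l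
      simp [Matrix.mul_apply]
    rw [h1]
    by_contra h2
    have h3 := card_le_of_injective A (Matrix.of b).vecMulLinear ((injective_iff_map_eq_zero _).2
      fun x hx => by
        by_contra hx0
        refine h2 (Matrix.exists_vecMul_eq_zero_iff.1 ⟨x, hx0, ?_⟩)
        rw [Matrix.vecMulLinear_apply] at hx
        rw [← Matrix.vecMul_vecMul, hx, Matrix.zero_vecMul])
    simp only [Fintype.card_fin] at h3
    omega
  have key : ∀ s : Finset (Fin c), (Matrix.of fun k => if k ∈ s then v k else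
      ∑ j, b k j • u j).det ∈ Ideal.span {x | ∃ v' : Fin c → Fin c → A, (∀ k, v' k ∈ U) ∧
      (∃ k, v' k ∈ W) ∧ x = (Matrix.of v').det} := fun s => by
    induction s using Finset.induction_on with
    | empty =>
      simp only [Finset.notMem_empty, if_false, h0]
      exact Ideal.zero_mem _
    | insert a s ha ih =>
      set M : Fin c → Fin c → A := fun k => if k ∈ s then v k else ∑ j, b k j • u j with hM
      have hMU : ∀ k, M k ∈ U := fun k => by
        simp only [hM]
        split_ifs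
        exacts [hvU k, hu' k]
      have h1 : (fun k => if k ∈ insert a s then v k else ∑ j, b k j • u j) =
          Function.update M a (M a + (v a - ∑ j, b a j • u j)) := by
        ext1 k
        rcases eq_or_ne k a with rfl | hk
        · simp [hM, ha]
        · simp [hM, hk]
      have h2 : (Matrix.of (Function.update M a (M a + (v a - ∑ j, b a j • u j)))).det =
          (Matrix.of M).det +
            (Matrix.of (Function.update M a (v a - ∑ j, b a j • u j))).det := by
        have h3 := Matrix.det_updateRow_add (Matrix.of M) a (M a) (v a - ∑ j, b a j • u j)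
        rw [show (Matrix.of M).updateRow a (M a) = Matrix.of M from
          Matrix.updateRow_eq_self _ _] at h3
        exact h3
      rw [h1, h2]
      refine Ideal.add_mem _ ih (Ideal.subset_span ⟨_, fun k => ?_, ⟨a, ?_⟩, rfl⟩)
      · rcases eq_or_ne k a with rfl | hk
        · rw [Function.update_self]
          exact hWU (hb k)
        · rw [Function.update_of_ne hk]
          exact hMU k
      · rw [Function.update_self]
        exact hb a
  simpa using key Finset.univ
-- END AM2g

-- BEGIN AM2h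
theorem exists_addVal_le {A V : Type} [CommRing A] [CommRing V] [IsDomain V]
    [IsDiscreteValuationRing V] (α : A →+* V) {S : Set A} {x : A} (hx : x ∈ Ideal.span S) {n : ℕ}
    (hn : addVal V (α x) ≤ n) : ∃ y ∈ S, addVal V (α y) ≤ n := by
  by_contra hc
  push Not at hc
  refine absurd hn (not_le.2 ?_)
  refine Submodule.span_induction (p := fun z _ => (n : ℕ∞) < addVal V (α z)) hc ?_ ?_ ?_ hx
  · rw [map_zero, addVal_zero]
    exact ENat.natCast_lt_top n
  · intro a b _ _ ha hb
    rw [map_add]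
    exact lt_of_lt_of_le (lt_min ha hb) addVal_add
  · intro a b _ hb
    rw [smul_eq_mul, map_mul, addVal_mul]
    exact lt_of_lt_of_le hb le_add_self
-- END AM2h

-- BEGIN AM2i
/-- **Choice of the equations**: one of them can be taken in the square of the center.

PROOF.  `D l = θ (σ l)`.  For `g ∈ ker ψ` put `∇ g = (ψ (D l g))_l : Fin c → A`.
`∇ (∑ b_j g_j) = ∑ ψ(b_j) • ∇ g_j` for `g_j ∈ ker ψ`.  So `U = {∇ g | ψ g = 0}` and
`W = {∇ g | ψ g = 0, g ∈ J ^ 2}`, `J = 𝔱.comap ψ`, are submodules of `Fin c → A` (`ψ` is surjective).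
By `hrel`, `v k = ∇ (g k)` satisfies the hypothesis of `det_mem_span` with `u j = ∇ (h j)`.
`(Matrix.of v).det` is the determinant of the transpose of the matrix `ψ (D l (g k))`
(`Matrix.det_transpose`, `RingHom.map_det`).  Apply `exists_addVal_le`. -/
theorem exists_equations {B A V : Type} [CommRing B] [CommRing A] [IsDomain A] [CommRing V]
    [IsDomain V] [IsDiscreteValuationRing V] (ψ : B →+* A) (hψ : Function.Surjective ψ)
    {𝔱 : Ideal A} {c ρ : ℕ} (hρ : ρ < c) (h : Fin ρ → B) (h0 : ∀ j, ψ (h j) = 0)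
    (hrel : ∀ g, ψ g = 0 → ∃ b : Fin ρ → B, g - ∑ j, b j * h j ∈ 𝔱.comap ψ ^ 2)
    (D : Fin c → Derivation ℤ B B) (g : Fin c → B) (hg : ∀ k, ψ (g k) = 0) (α : A →+* V) {n : ℕ}
    (hn : addVal V (α (ψ (Matrix.of fun l k : Fin c => D l (g k)).det)) ≤ n) :
    ∃ (g' : Fin c → B) (k₀ : Fin c), (∀ k, ψ (g' k) = 0) ∧ g' k₀ ∈ 𝔱.comap ψ ^ 2 ∧
      addVal V (α (ψ (Matrix.of fun l k : Fin c => D l (g' k)).det)) ≤ n := by
  classical
  set J := 𝔱.comap ψ with hJ
  let nb : B → Fin c → A := fun x l => ψ (D l x)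
  have nadd : ∀ x y, nb (x + y) = nb x + nb y := fun x y => by funext l; simp [nb]
  have nsm : ∀ b x, ψ x = 0 → nb (b * x) = ψ b • nb x := fun b x hx => by
    funext l; simp [nb, Derivation.leibniz, hx]
  let mk : Ideal B → Submodule A (Fin c → A) := fun I =>
    { carrier := {v | ∃ x ∈ I, ψ x = 0 ∧ v = nb x}
      add_mem' := by
        rintro _ _ ⟨x, hx, hx0, rfl⟩ ⟨y, hy, hy0, rfl⟩
        exact ⟨x + y, I.add_mem hx hy, by rw [map_add, hx0, hy0, add_zero], (nadd x y).symm⟩
      zero_mem' := ⟨0, I.zero_mem, map_zero ψ, by funext l; simp [nb]⟩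
      smul_mem' := by
        rintro a _ ⟨x, hx, hx0, rfl⟩
        obtain ⟨b, rfl⟩ := hψ a
        exact ⟨b * x, I.mul_mem_left b hx, by rw [map_mul, hx0, mul_zero], (nsm b x hx0).symm⟩ }
  have nsum : ∀ b : Fin ρ → B, nb (∑ j, b j * h j) = ∑ j, ψ (b j) • nb (h j) := fun b => by
    have h1 : ∀ s : Finset (Fin ρ), nb (∑ j ∈ s, b j * h j) = ∑ j ∈ s, ψ (b j) • nb (h j) := by
      intro s
      induction s using Finset.induction_on with
      | empty => funext l; simp [nb]
      | insert a s ha ih =>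
        rw [Finset.sum_insert ha, Finset.sum_insert ha, nadd, ih, nsm _ _ (h0 a)]
    exact h1 _
  have hdet : ∀ g : Fin c → B, ψ (Matrix.of fun l k : Fin c => D l (g k)).det =
      (Matrix.of fun k => nb (g k)).det := fun g => by
    rw [RingHom.map_det, ← Matrix.det_transpose]
    rfl
  have hmem := det_mem_span hρ (mk (J ^ 2)) (mk ⊤)
    (by rintro _ ⟨x, -, hx0, rfl⟩; exact ⟨x, trivial, hx0, rfl⟩) (fun j => nb (h j))
    (fun j => ⟨h j, trivial, h0 j, rfl⟩) (fun k => nb (g k)) (fun k => by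
      obtain ⟨b, hb⟩ := hrel (g k) (hg k)
      have hs : ψ (∑ j, b j * h j) = 0 := by simp [h0]
      refine ⟨fun j => ψ (b j), g k - ∑ j, b j * h j, hb, by rw [map_sub, hg, hs, sub_zero], ?_⟩
      have h1 := nadd (g k - ∑ j, b j * h j) (∑ j, b j * h j)
      rw [sub_add_cancel, nsum] at h1
      rw [h1, add_sub_cancel_right])
  rw [hdet g] at hn
  obtain ⟨_, ⟨v', hv', ⟨k₀, hk₀⟩, rfl⟩, hy⟩ := exists_addVal_le α hmem hn
  choose x hx1 hx2 hx3 using hv'
  obtain ⟨z, hz1, hz2, hz3⟩ := hk₀
  refine ⟨Function.update x k₀ z, k₀, fun k => ?_, by rw [Function.update_self]; exact hz1, ?_⟩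
  · rcases eq_or_ne k k₀ with rfl | hk
    · rw [Function.update_self]; exact hz2
    · rw [Function.update_of_ne hk]; exact hx2 k
  · rw [hdet]
    convert hy using 5
    funext k
    rcases eq_or_ne k k₀ with rfl | hk
    · rw [Function.update_self]; exact hz3.symm
    · rw [Function.update_of_ne hk]; exact (hx3 k).symm
-- END AM2i

-- BEGIN AM2k
/-- PROOF.  `φ f ≠ 0`, `f = ψ t`.  If `t ∈ 𝔪_B * J`, `J = 𝔱.comap ψ`, then `f ∈ 𝔪_A * 𝔱`
(`ψ (𝔪_B) ⊆ 𝔪_A`, surjective local), so `φ f ∈ span (φ '' (𝔪_A * 𝔱))`; every element of `𝔪_A * 𝔱` is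
mapped by `φ` to `φ f * (maximalIdeal A')`: (`Submodule.mul_induction_on`: `φ (m g) = φ m * φ g`,
`φ g = φ f * z`, `φ m ∈ 𝔪_{A'}`).  So `φ f = φ f * m'`, `φ f * (1 - m') = 0`, a contradiction. -/
theorem not_mem_mul {B A A' : Type} [CommRing B] [IsLocalRing B] [CommRing A] [IsLocalRing A]
    [CommRing A'] [IsLocalRing A'] (ψ : B →+* A) (hψ : Function.Surjective ψ) (φ : A →+* A')
    (hφ : IsLocalHom φ) {𝔱 : Ideal A} {t : B} (ht0 : φ (ψ t) ≠ 0)
    (hdvd : ∀ g ∈ 𝔱, φ (ψ t) ∣ φ g) : t ∉ maximalIdeal B * 𝔱.comap ψ := by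
  intro ht
  have hm : ∀ m ∈ maximalIdeal B, φ (ψ m) ∈ maximalIdeal A' := by
    intro m hm
    rw [mem_maximalIdeal, mem_nonunits_iff] at hm ⊢
    intro hu
    have hu' : IsUnit (ψ m) := hφ.map_nonunit _ hu
    obtain ⟨a, ha⟩ := hu'.exists_right_inv
    obtain ⟨b, rfl⟩ := hψ a
    rcases isUnit_or_isUnit_one_sub_self (m * b) with h | h
    · exact hm (isUnit_of_mul_isUnit_left h)
    · have h1 := h.map ψ
      rw [map_sub, map_one, map_mul, ha, sub_self] at h1
      exact not_isUnit_zero h1
  have key : ∀ s ∈ maximalIdeal B * 𝔱.comap ψ, ∃ z ∈ maximalIdeal A', φ (ψ s) = φ (ψ t) * z := by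
    intro s hs
    refine Submodule.mul_induction_on hs ?_ ?_
    · intro m hm1 j hj
      obtain ⟨z, hz⟩ := hdvd (ψ j) hj
      refine ⟨z * φ (ψ m), Ideal.mul_mem_left _ _ (hm m hm1), ?_⟩
      rw [map_mul, map_mul, hz]
      ring
    · rintro x y ⟨z, hz, hx⟩ ⟨z', hz', hy⟩
      exact ⟨z + z', Ideal.add_mem _ hz hz', by rw [map_add, map_add, hx, hy, mul_add]⟩
  obtain ⟨z, hz, h⟩ := key t ht
  have h1 : φ (ψ t) * (1 - z) = 0 := by
    rw [mul_sub, mul_one, ← h, sub_self]
  have h2 : IsUnit (1 - z) := by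
    rcases isUnit_or_isUnit_one_sub_self z with h3 | h3
    · exact absurd h3 ((mem_maximalIdeal z).1 hz)
    · exact h3
  exact ht0 ((h2.mul_left_eq_zero).1 h1)
-- END AM2k

end Pool.Agent.Lib.MP_6a3dac_ag.NU
end
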