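import Pool.Agent.Lib.MP_6a3dac_ag.NU.BU2
import Pool.Agent.Lib.MP_6a3dac_ag.NU.W1

section

/-!
# NU: the blow-up of a scheme in an ideal sheaf
-/

set_option autoImplicit false

namespace Pool.Agent.Lib.MP_6a3dac_ag.NU

open CategoryTheory Limits AlgebraicGeometry

/-- The structure morphism of the blow-up over an affine open subset. -/
noncomputable def blAff {Y : Scheme.{0}} (J : Y.IdealSheafData) (U : Y.affineOpens) :
    blProj (J.ideal U) ⟶ U.1.toScheme :=
  blTo (J.ideal U) ≫ U.2.isoSpec.inv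

/-- The restriction homomorphism. -/
noncomputable def resHom {Y : Scheme.{0}} {U V : Y.affineOpens} (h : U ≤ V) :
    Γ(Y, V) →+* Γ(Y, U) := (Y.presheaf.map (homOfLE (show U.1 ≤ V.1 from h)).op).hom

theorem resHom_ideal {Y : Scheme.{0}} (J : Y.IdealSheafData) {U V : Y.affineOpens} (h : U ≤ V) :
    (J.ideal V).map (resHom h) = J.ideal U := J.map_ideal h

/-- The maps between the blow-ups of affine open subsets. -/
noncomputable def blRes {Y : Scheme.{0}} (J : Y.IdealSheafData) {U V : Y.affineOpens}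
    (h : U ≤ V) : blProj (J.ideal U) ⟶ blProj (J.ideal V) :=
  blMap (resHom h) (resHom_ideal J h)

-- BEGIN BU4a
theorem bu4a_congr {R R' : Type} [CommRing R] [CommRing R'] {f g : R →+* R'} (e : f = g)
    {I : Ideal R} {I' : Ideal R'} (hf : I.map f = I') (hg : I.map g = I') :
    blMap f hf = blMap g hg := by
  subst e
  rfl

/-- PROOF.  `blMap_comp` and functoriality of the presheaf. -/
theorem blRes_comp {Y : Scheme.{0}} (J : Y.IdealSheafData) {U V W : Y.affineOpens} (h₁ : U ≤ V)
    (h₂ : V ≤ W) : blRes J h₁ ≫ blRes J h₂ = blRes J (h₁.trans h₂) := by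
  have h : (resHom h₁).comp (resHom h₂) = resHom (h₁.trans h₂) := by
    simp only [resHom, ← CommRingCat.hom_comp, ← Functor.map_comp]
    rfl
  rw [blRes, blRes, ← blMap_comp (resHom h₂) (resHom h₁) _ _
    (by rw [h]; exact resHom_ideal J (h₁.trans h₂))]
  exact bu4a_congr h _ _
-- END BU4a

-- BEGIN BU4b
theorem bu4b_congr {R R' : Type} [CommRing R] [CommRing R'] {f g : R →+* R'} (e : f = g)
    {I : Ideal R} {I' : Ideal R'} (hf : I.map f = I') (hg : I.map g = I') :
    blMap f hf = blMap g hg := by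
  subst e
  rfl

/-- PROOF.  `blMap_id`, `Functor.map_id`. -/
theorem blRes_refl {Y : Scheme.{0}} (J : Y.IdealSheafData) (U : Y.affineOpens) :
    blRes J (le_refl U) = 𝟙 (blProj (J.ideal U)) := by
  have h : resHom (le_refl U) = RingHom.id Γ(Y, U) :=
    congrArg CommRingCat.Hom.hom (Y.presheaf.map_id (Opposite.op U.1))
  exact (bu4b_congr h _ (Ideal.map_id _)).trans (blMap_id _)
-- END BU4b

-- BEGIN BU4c
theorem bu4c_loc {Y : Scheme.{0}} (V : Y.affineOpens) (r : Γ(Y, V)) :
    @IsLocalization _ _ (Submonoid.powers r) Γ(Y, Y.affineBasicOpen r) _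
      (resHom (show Y.affineBasicOpen r ≤ V from Y.basicOpen_le r)).toAlgebra :=
  V.2.isLocalization_basicOpen r

theorem bu4c_pb {R R' : Type} [CommRing R] [CommRing R'] (f : R →+* R') (M : Submonoid R)
    (hM : @IsLocalization _ _ M R' _ f.toAlgebra) {I : Ideal R} {I' : Ideal R'} (h : I.map f = I') :
    IsPullback (blMap f h) (blTo I') (blTo I) (Spec.map (CommRingCat.ofHom f)) := by
  let _ := f.toAlgebra
  have := hM
  exact isPullback_blMap (R := R) (R' := R') M h

theorem bu4c_sq {Y : Scheme.{0}} {U V : Y.affineOpens} (h : U ≤ V) :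
    Spec.map (CommRingCat.ofHom (resHom h)) ≫ V.2.isoSpec.inv = U.2.isoSpec.inv ≫ Y.homOfLE h := by
  rw [← cancel_mono V.1.ι, Category.assoc, Category.assoc, Scheme.homOfLE_ι,
    IsAffineOpen.isoSpec_inv_ι, IsAffineOpen.isoSpec_inv_ι]
  exact V.2.map_fromSpec U.2 (homOfLE h).op

theorem isPullback_blRes {Y : Scheme.{0}} (J : Y.IdealSheafData) (V : Y.affineOpens)
    (r : Γ(Y, V)) :
    IsPullback (blRes J (show Y.affineBasicOpen r ≤ V from Y.basicOpen_le r))
      (blAff J (Y.affineBasicOpen r)) (blAff J V) (Y.homOfLE (Y.basicOpen_le r)) := by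
  have hle : Y.affineBasicOpen r ≤ V := Y.basicOpen_le r
  have h1 := bu4c_pb (resHom hle) (Submonoid.powers r) (bu4c_loc V r) (resHom_ideal J hle)
  exact h1.paste_vert (IsPullback.of_vert_isIso ⟨bu4c_sq hle⟩)
-- END BU4c

-- BEGIN BU4d
theorem bu4d_le {Y : Scheme.{0}} {U V : Y.AffineZariskiSite} (h : U ≤ V) :
    (⟨U.1, U.2⟩ : Y.affineOpens) ≤ ⟨V.1, V.2⟩ := Scheme.AffineZariskiSite.toOpens_mono h

theorem bu4d_aux {Y : Scheme.{0}} (J : Y.IdealSheafData) {U V : Y.affineOpens} (h : U ≤ V)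
    {r : Γ(Y, V)} (hr : Y.basicOpen r = U.1) :
    IsPullback (blRes J h) (blAff J U) (blAff J V) (Y.homOfLE h) := by
  obtain ⟨U, hU⟩ := U
  subst hr
  exact isPullback_blRes J V r

theorem bu4d_pb {Y : Scheme.{0}} (J : Y.IdealSheafData) {U V : Y.AffineZariskiSite} (h : U ≤ V) :
    IsPullback (blRes J (bu4d_le h)) (blAff J ⟨U.1, U.2⟩) (blAff J ⟨V.1, V.2⟩)
      (Y.homOfLE (bu4d_le h)) :=
  bu4d_aux J (bu4d_le h) h.choose_spec

/-- The gluing data of the blow-up. -/
noncomputable def bu4d_data {Y : Scheme.{0}} (J : Y.IdealSheafData) :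
    (Scheme.AffineZariskiSite.directedCover Y).RelativeGluingData where
  functor :=
    { obj := fun U => blProj (J.ideal ⟨U.1, U.2⟩)
      map := fun f => blRes J (bu4d_le (leOfHom f))
      map_id := fun _ => blRes_refl J _
      map_comp := fun _ _ => (blRes_comp J _ _).symm }
  natTrans :=
    { app := fun U => blAff J ⟨U.1, U.2⟩
      naturality := fun _ _ f => (bu4d_pb J (leOfHom f)).w }
  equifibered := fun _ _ f => bu4d_pb J (leOfHom f)

/-- The blow-up of a scheme. -/
theorem exists_blowup (Y : Scheme.{0}) (J : Y.IdealSheafData) :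
    ∃ (B : Scheme.{0}) (b : B ⟶ Y), ∀ U : Y.affineOpens, ∃ ι : blProj (J.ideal U) ⟶ B,
      IsOpenImmersion ι ∧ IsPullback ι (blAff J U) b U.1.ι := by
  refine ⟨(bu4d_data J).glued, (bu4d_data J).toBase, fun U => ?_⟩
  have h1 := (bu4d_data J).isPullback_natTrans_ι_toBase (⟨U.1, U.2⟩ : Y.AffineZariskiSite)
  let i : (bu4d_data J).cover.I₀ := (⟨U.1, U.2⟩ : Y.AffineZariskiSite)
  exact ⟨(bu4d_data J).cover.f i, (bu4d_data J).cover.map_prop i, h1.flip⟩
-- END BU4d

end Pool.Agent.Lib.MP_6a3dac_ag.NU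
end

section

/-!
# NU: extension of Witt derivations
-/

set_option autoImplicit false

namespace Pool.Agent.Lib.MP_6a3dac_ag.NU

open IsLocalRing IsDiscreteValuationRing

-- BEGIN W2a
theorem IsWD.map_zero {p : ℕ} (hp : p.Prime) {B V : Type} [CommRing B] [CommRing V] {α : B →+* V}
    {L : V} {θ : B → V} (h : IsWD p α L θ) : θ 0 = 0 := by
  have := h.mul 0 0
  rw [mul_zero, _root_.map_zero, zero_pow hp.ne_zero] at this
  rw [this]; ring

theorem IsWD.map_one {p : ℕ} {B V : Type} [CommRing B] [CommRing V] {α : B →+* V}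
    {L : V} {θ : B → V} (h : IsWD p α L θ) : θ 1 = 0 := by
  have := h.mul 1 1
  rw [mul_one, _root_.map_one, one_pow] at this
  linear_combination -this

/-- A Witt derivation is a ring homomorphism to the twisted Witt vectors. -/
theorem IsWD.exists_hom {p : ℕ} (hp : p.Prime) {B V : Type} [CommRing B] [CommRing V] [CharP V p]
    {α : B →+* V} {L : V} {θ : B → V} (h : IsWD p α L θ) :
    letI := WE.commRing (L := L) hp
    ∃ Θ : B →+* WE p L, ∀ b, (Θ b).fst = α b ∧ (Θ b).snd = θ b :=
  letI := WE.commRing (L := L) hp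
  ⟨{ toFun := fun b => ⟨α b, θ b⟩
     map_zero' := WE.ext' (_root_.map_zero α) (h.map_zero hp)
     map_one' := WE.ext' (_root_.map_one α) h.map_one
     map_add' := fun a b => WE.ext' (_root_.map_add α a b) (h.add a b)
     map_mul' := fun a b => WE.ext' (_root_.map_mul α a b) (h.mul a b) }, fun _ => ⟨rfl, rfl⟩⟩

/-- A ring homomorphism to the twisted Witt vectors is a Witt derivation. -/
theorem IsWD.of_hom {p : ℕ} (hp : p.Prime) {B V : Type} [CommRing B] [CommRing V] [CharP V p]
    {α : B →+* V} {L : V} :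
    letI := WE.commRing (L := L) hp
    ∀ Θ : B →+* WE p L, (∀ b, (Θ b).fst = α b) → IsWD p α L fun b => (Θ b).snd :=
  letI := WE.commRing (L := L) hp
  fun Θ h => ⟨fun a b => by
    rw [_root_.map_add, ← h a, ← h b]; rfl, fun a b => by
    rw [_root_.map_mul, ← h a, ← h b]; rfl⟩

/-- Units of the twisted Witt vectors. -/
theorem WE.isUnit {p : ℕ} (hp : p.Prime) {V : Type} [CommRing V] [CharP V p] {L : V} :
    letI := WE.commRing (L := L) hp
    ∀ x : WE p L, IsUnit x.fst → IsUnit x :=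
  letI := WE.commRing (L := L) hp
  fun x hx => by
    obtain ⟨y, hy⟩ := hx.exists_right_inv
    refine isUnit_iff_exists_inv.2 ⟨⟨y, -(y ^ p * y ^ p * x.snd)⟩, WE.ext' hy ?_⟩
    have h1 : x.fst ^ p * y ^ p = 1 := by rw [← mul_pow, hy, one_pow]
    change x.fst ^ p * -(y ^ p * y ^ p * x.snd) + y ^ p * x.snd = 0
    linear_combination (-(y ^ p * x.snd)) * h1
-- END W2a

-- BEGIN W2b
/-- Extension of homomorphisms to a ring between `B` and `B[1 / t]`. -/
theorem exists_extension {B D E : Type} [CommRing B] [CommRing D] [CommRing E] [Algebra B D]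
    (hinj : Function.Injective (algebraMap B D)) (t : B)
    (hloc : ∀ z : D, ∃ (k : ℕ) (b : B), algebraMap B D t ^ k * z = algebraMap B D b)
    (Θ : B →+* E) (ht : IsUnit (Θ t)) : ∃ Θ' : D →+* E, ∀ b, Θ' (algebraMap B D b) = Θ b := by
  choose k b hkb using hloc
  obtain ⟨u, hu⟩ := ht.exists_left_inv
  have hu' : ∀ n : ℕ, u ^ n * Θ t ^ n = 1 := fun n => by rw [← mul_pow, hu, one_pow]
  have hval : ∀ (z : D) (n : ℕ) (c : B), algebraMap B D t ^ n * z = algebraMap B D c →
      u ^ k z * Θ (b z) = u ^ n * Θ c := by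
    intro z n c h
    have h1 : t ^ n * b z = t ^ k z * c := hinj (by
      rw [map_mul, map_mul, map_pow, map_pow, ← hkb, ← h]; ring)
    have h2 := congrArg Θ h1
    rw [map_mul, map_mul, map_pow, map_pow] at h2
    calc u ^ k z * Θ (b z) = u ^ k z * (u ^ n * Θ t ^ n) * Θ (b z) := by rw [hu', mul_one]
      _ = u ^ k z * u ^ n * (Θ t ^ n * Θ (b z)) := by ring
      _ = (u ^ k z * Θ t ^ k z) * u ^ n * Θ c := by rw [h2]; ring
      _ = u ^ n * Θ c := by rw [hu', one_mul]
  refine ⟨{ toFun := fun z => u ^ k z * Θ (b z), map_zero' := ?_, map_one' := ?_,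
            map_add' := fun z w => ?_, map_mul' := fun z w => ?_ }, fun c => ?_⟩
  · exact (hval 1 0 1 (by simp)).trans (by simp)
  · refine (hval (z * w) (k z + k w) (b z * b w) ?_).trans ?_
    · rw [map_mul, ← hkb z, ← hkb w]; ring
    · rw [map_mul]; ring
  · exact (hval 0 0 0 (by simp)).trans (by simp)
  · refine (hval (z + w) (k z + k w) (t ^ k w * b z + t ^ k z * b w) ?_).trans ?_
    · rw [map_add, map_mul, map_mul, map_pow, map_pow, ← hkb z, ← hkb w]; ring
    · rw [map_add, map_mul, map_mul, map_pow, map_pow]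
      calc u ^ (k z + k w) * (Θ t ^ k w * Θ (b z) + Θ t ^ k z * Θ (b w))
          = (u ^ k w * Θ t ^ k w) * (u ^ k z * Θ (b z)) +
            (u ^ k z * Θ t ^ k z) * (u ^ k w * Θ (b w)) := by ring
        _ = _ := by rw [hu', hu', one_mul, one_mul]
  · exact (hval _ 0 c (by simp)).trans (by simp)
-- END W2b

-- BEGIN W2c
/-- Witt derivations extend to localizations. -/
theorem exists_wd_localization {p : ℕ} (hp : p.Prime) {B S V : Type} [CommRing B] [CommRing S]
    [Algebra B S] [CommRing V] [CharP V p] (M : Submonoid B) [IsLocalization M S] (α : S →+* V)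
    {L : V} {θ : B → V} (hθ : IsWD p (α.comp (algebraMap B S)) L θ) :
    ∃ θ' : S → V, IsWD p α L θ' ∧ ∀ b, θ' (algebraMap B S b) = θ b := by
  let := WE.commRing (L := L) hp
  obtain ⟨Θ, hΘ⟩ := hθ.exists_hom hp
  have hu : ∀ m : M, IsUnit (Θ m) := fun m => WE.isUnit hp _ (by
    rw [(hΘ m).1]
    exact (IsLocalization.map_units S m).map α)
  let Θ' : S →+* WE p L := IsLocalization.lift hu
  have h1 : ∀ b, Θ' (algebraMap B S b) = Θ b := fun b => IsLocalization.lift_eq hu b
  have hfst : ∀ x y : WE p L, (x + y).fst = x.fst + y.fst := fun _ _ => rfl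
  let π : WE p L →+* V :=
    { toFun := WE.fst, map_zero' := rfl, map_one' := rfl, map_add' := fun _ _ => rfl,
      map_mul' := fun _ _ => rfl }
  have h2 : π.comp Θ' = α := IsLocalization.ringHom_ext M (RingHom.ext fun b => by
    rw [RingHom.comp_apply, RingHom.comp_apply, h1]
    exact (hΘ b).1)
  exact ⟨_, IsWD.of_hom hp Θ' fun s => congrArg (fun f : S →+* V => f s) h2,
    fun b => by rw [h1, (hΘ b).2]⟩
-- END W2c

-- BEGIN W2d
/-- **Witt derivations extend to the blow-up algebra** after multiplication by `t ^ p`. -/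
theorem IsBlowAlg.exists_wd {p : ℕ} (hp : p.Prime) {B D A' V : Type} [CommRing B] [CommRing D]
    [CommRing A'] [Algebra B D] {χ : B →+* A'} {J : Ideal B} {t : B} {χ' : D →+* A'}
    (h : IsBlowAlg χ J t χ') [CommRing V] [IsDomain V] [CharP V p] (α : A' →+* V)
    (h0 : α (χ t) ≠ 0) {L : V} {θ : B → V} (hθ : IsWD p (α.comp χ) L θ) :
    ∃ θ' : D → V, IsWD p (α.comp χ') (α (χ t) ^ p * L) θ' ∧
      ∀ b, θ' (algebraMap B D b) = α (χ t) ^ p * θ b := by
  let ι := algebraMap V (FractionRing V)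
  have hι : Function.Injective ι := IsFractionRing.injective V (FractionRing V)
  have : CharP (FractionRing V) p := charP_of_injective_algebraMap hι p
  let := WE.commRing (L := ι L) hp
  have hθ1 : IsWD p (ι.comp (α.comp χ)) (ι L) fun b => ι (θ b) :=
    ⟨fun a b => by
      rw [hθ.add, map_sub, map_add, map_mul, map_wP]; rfl,
    fun a b => by
      rw [hθ.mul, map_add, map_mul, map_mul, map_pow, map_pow]; rfl⟩
  obtain ⟨Θ, hΘ⟩ := hθ1.exists_hom hp
  have hne : ι (α (χ t)) ≠ 0 := fun h => h0 (hι (by rw [h, map_zero]))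
  obtain ⟨Θ', hΘ'⟩ := exists_extension h.inj t h.loc Θ (WE.isUnit hp _ (by
    rw [(hΘ t).1]
    exact isUnit_iff_ne_zero.2 hne))
  have hfst : ∀ z, (Θ' z).fst = ι (α (χ' z)) := by
    intro z
    obtain ⟨k, b, hkb⟩ := h.loc z
    have h1 : (Θ' (algebraMap B D t ^ k * z)).fst = ι (α (χ' (algebraMap B D t ^ k * z))) := by
      rw [hkb, hΘ', (hΘ b).1, h.comp]; rfl
    have h2 : ∀ x y : WE p (ι L), (x * y).fst = x.fst * y.fst := fun _ _ => rfl
    have h3 : ∀ k : ℕ, (Θ' (algebraMap B D t ^ k)).fst = ι (α (χ t)) ^ k := by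
      intro k
      induction k with
      | zero => rw [pow_zero, pow_zero, map_one]; rfl
      | succ k ih => rw [pow_succ, pow_succ, map_mul, h2, ih, hΘ', (hΘ t).1]; rfl
    rw [map_mul, h2, h3, map_mul, map_mul, map_mul, map_pow, map_pow, map_pow, h.comp] at h1
    exact mul_left_cancel₀ (pow_ne_zero k hne) h1
  have hw := IsWD.of_hom hp (α := ι.comp (α.comp χ')) Θ' hfst
  have hone := hw.map_one
  -- the elements with integral values
  let T : Subring D :=
    { carrier := {z | ∃ v : V, ι v = ι (α (χ t)) ^ p * (Θ' z).snd}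
      mul_mem' := by
        rintro x y ⟨v, hv⟩ ⟨w, hw'⟩
        refine ⟨α (χ' x) ^ p * w + α (χ' y) ^ p * v, ?_⟩
        have := hw.mul x y
        simp only [RingHom.comp_apply] at this
        rw [this, map_add, map_mul, map_mul, hv, hw', map_pow, map_pow]
        ring
      one_mem' := ⟨0, by rw [map_zero, hone, mul_zero]⟩
      add_mem' := by
        rintro x y ⟨v, hv⟩ ⟨w, hw'⟩
        refine ⟨v + w - α (χ t) ^ p * L * wP p (α (χ' x)) (α (χ' y)), ?_⟩
        have := hw.add x y
        simp only [RingHom.comp_apply] at this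
        rw [this, map_sub, map_add, hv, hw', map_mul, map_mul, map_pow, map_wP]
        ring
      zero_mem' := ⟨0, by rw [map_zero, hw.map_zero hp, mul_zero]⟩
      neg_mem' := by
        rintro x ⟨v, hv⟩
        refine ⟨-v + α (χ t) ^ p * L * wP p (α (χ' x)) (α (χ' (-x))), ?_⟩
        have h1 := hw.add x (-x)
        rw [add_neg_cancel, hw.map_zero hp] at h1
        simp only [RingHom.comp_apply] at h1
        rw [map_add, map_neg, hv, map_mul, map_mul, map_pow, map_wP]
        linear_combination (ι (α (χ t)) ^ p) * h1 }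
  have hT : T = ⊤ := by
    rw [eq_top_iff, ← h.gen, Subring.closure_le]
    rintro z (⟨b, rfl⟩ | ⟨x, hx, hz⟩)
    · exact ⟨α (χ t) ^ p * θ b, by rw [map_mul, map_pow, hΘ', (hΘ b).2]⟩
    · refine ⟨θ x - α (χ' z) ^ p * θ t, ?_⟩
      have h1 := hw.mul (algebraMap B D t) z
      rw [hz] at h1
      simp only [RingHom.comp_apply] at h1
      rw [hΘ', (hΘ x).2, hΘ', (hΘ t).2, h.comp] at h1
      rw [map_sub, map_mul, map_pow]
      linear_combination h1
  have hT' : ∀ z : D, ∃ v : V, ι v = ι (α (χ t)) ^ p * (Θ' z).snd := fun z => by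
    have : z ∈ T := hT ▸ trivial
    exact this
  choose θ' hθ' using hT'
  refine ⟨θ', ⟨fun a b => hι ?_, fun a b => hι ?_⟩, fun b => hι ?_⟩
  · have := hw.add a b
    simp only [RingHom.comp_apply] at this
    rw [hθ', this, map_sub, map_add, hθ', hθ', map_mul, map_mul, map_pow, map_wP]
    simp only [RingHom.comp_apply]
    ring
  · have := hw.mul a b
    simp only [RingHom.comp_apply] at this
    rw [hθ', this, map_add, map_mul, map_mul, hθ', hθ', map_pow, map_pow]
    simp only [RingHom.comp_apply]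
    ring
  · rw [hθ', hΘ', (hΘ b).2, map_mul, map_pow]
-- END W2d

end Pool.Agent.Lib.MP_6a3dac_ag.NU
end
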