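import Mathlib
import Pool.Agent.Lib.MP_6a3dac_ag.NU.Defs

section

/-!
# NU: arcs and their potential, modifications
-/

set_option autoImplicit false

namespace Pool.Agent.Lib.MP_6a3dac_ag.NU

open CategoryTheory Limits AlgebraicGeometry IsLocalRing IsDiscreteValuationRing

section Algebra

/-- The subring generated by the image of `A` and by the quotients `g / f` of elements `g` of the
ideal `𝔱` by `f`. -/
def blowSubI {A A' : Type} [CommRing A] [CommRing A'] (𝔱 : Ideal A) (φ : A →+* A') (f : A) :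
    Subring A' :=
  Subring.closure (Set.range φ ∪ {x | ∃ g ∈ 𝔱, φ f * x = φ g})

/-- `A'` is a local ring of the blow-up of the ideal `𝔱` of `A`. -/
structure IsQTI {A A' : Type} [CommRing A] [CommRing A'] (𝔱 : Ideal A) (φ : A →+* A') : Prop where
  ex : ∃ f ∈ 𝔱, φ f ≠ 0 ∧ (∀ g ∈ 𝔱, φ f ∣ φ g) ∧
    ∀ z : A', ∃ p ∈ blowSubI 𝔱 φ f, ∃ q ∈ blowSubI 𝔱 φ f, IsUnit q ∧ q * z = p

/-- The module `𝔱 / 𝔱 ^ 2` over `A / 𝔱` is free of finite rank. -/
def ConFree {A : Type} [CommRing A] (𝔱 : Ideal A) : Prop :=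
  ∃ (s : ℕ) (x : Fin s → A), (∀ i, x i ∈ 𝔱) ∧
    (∀ y ∈ 𝔱, ∃ a : Fin s → A, y - ∑ i, a i * x i ∈ 𝔱 ^ 2) ∧
    ∀ a : Fin s → A, ∑ i, a i * x i ∈ 𝔱 ^ 2 → ∀ i, a i ∈ 𝔱

/-- The affine blow-up algebra `D = B[J / t]`, with a homomorphism `χ'` to `A'` extending `χ`. -/
structure IsBlowAlg {B D A' : Type} [CommRing B] [CommRing D] [CommRing A'] [Algebra B D]
    (χ : B →+* A') (J : Ideal B) (t : B) (χ' : D →+* A') : Prop where
  inj : Function.Injective (algebraMap B D)
  comp : ∀ b, χ' (algebraMap B D b) = χ b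
  mem : t ∈ J
  ne : χ t ≠ 0
  dvd : ∀ x ∈ J, algebraMap B D t ∣ algebraMap B D x
  gen : Subring.closure (Set.range (algebraMap B D) ∪
    {y | ∃ x ∈ J, algebraMap B D t * y = algebraMap B D x}) = ⊤
  loc : ∀ z : D, ∃ (k : ℕ) (b : B), algebraMap B D t ^ k * z = algebraMap B D b
  der : ∀ θ : Derivation ℤ B B, ∃ θ' : Derivation ℤ D D,
    ∀ b, θ' (algebraMap B D b) = algebraMap B D (t * θ b)

/-- The arc `α` has potential at most `n`: there are a regular local ring `B` with a surjection
`ψ : B → A` whose kernel has height at most `c`, `c` derivations of `B` and `c` elements of the kernel,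
such that the determinant of the derivatives has valuation at most `n` along the arc. -/
def Pot {A V : Type} [CommRing A] [CommRing V] [IsDomain V] [IsDiscreteValuationRing V]
    (α : A →+* V) (n : ℕ) : Prop :=
  ∃ (c : ℕ) (B : Type) (_ : CommRing B) (ψ : B →+* A) (θ : Fin c → Derivation ℤ B B)
    (g : Fin c → B), IsRegularLocalRing B ∧ Function.Surjective ψ ∧
    (RingHom.ker ψ).height ≤ c ∧ (∀ k, ψ (g k) = 0) ∧
    addVal V (α (ψ (Matrix.of fun l k : Fin c => θ l (g k)).det)) ≤ n

end Algebra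

section Scheme

/-- The ideal of the set `T` in the local ring at `z`. -/
noncomputable def tIdl {Z : Scheme.{0}} (T : Set Z) (z : Z) : Ideal (Z.presheaf.stalk z) :=
  PrimeSpectrum.vanishingIdeal ((Z.fromSpecStalk z) ⁻¹' T)

/-- `β` is a modification which is an isomorphism outside of `T`. -/
structure IsMod {Y' Y : Scheme.{0}} (β : Y' ⟶ Y) (T : Set Y) : Prop where
  proper : IsProper β
  int : IsIntegral Y'
  iso : ∀ U : Y.Opens, Disjoint (U : Set Y) T → IsIso (β ∣_ U)

/-- `β` is the blow-up of the closed subset `T`. -/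
structure IsStepI {Y' Y : Scheme.{0}} (β : Y' ⟶ Y) (T : Set Y) : Prop extends IsMod β T where
  qt : ∀ y' : Y', β y' ∈ T → IsQTI (tIdl T (β y')) (β.stalkMap y').hom

/-- Arcs with center in `T` and potential at most `n` can be moved into the regular locus. -/
def ClaimAt (n : ℕ) (Z : Scheme.{0}) (T : Set Z) : Prop :=
  ∃ (Z' : Scheme.{0}) (β : Z' ⟶ Z), Nice Z' ∧ IsMod β (T ∩ (regOpen Z : Set Z)ᶜ) ∧
    ∀ z' : Z', β z' ∈ T → ∀ (V : Type) [CommRing V] [IsDomain V] [IsDiscreteValuationRing V]
      [CharZero V] (α : Z'.presheaf.stalk z' →+* V), IsLocalHom α →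
      Pot (α.comp (β.stalkMap z').hom) n → z' ∈ regOpen Z'

/-- The claim for all closed sets without points of characteristic zero. -/
def Claim (n : ℕ) : Prop :=
  ∀ Z : Scheme.{0}, Nice Z → ∀ T : Set Z, IsClosed T → (∀ z ∈ T, ¬ CharZ Z z) → ClaimAt n Z T

end Scheme

end Pool.Agent.Lib.MP_6a3dac_ag.NU
end

section

/-!
# NU: minors of matrices with `M ^ 2 = a M`
-/

set_option autoImplicit false

namespace Pool.Agent.Lib.MP_6a3dac_ag.NU

open Matrix IsDiscreteValuationRing

-- BEGIN LM1a
/-- Direct sum of the range and the kernel. -/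
theorem charpoly_of_sq {K : Type} [Field K] {N : ℕ} (M : Matrix (Fin N) (Fin N) K) {a : K}
    (ha : a ≠ 0) (hM : M * M = a • M) :
    M.charpoly = Polynomial.X ^ (N - M.rank) * (Polynomial.X - Polynomial.C a) ^ M.rank := by
  have hf : ∀ x, M.mulVecLin (M.mulVecLin x) = a • M.mulVecLin x := fun x => by
    simp [Matrix.mulVec_mulVec, hM, Matrix.smul_mulVec]
  have hc : IsCompl (LinearMap.range M.mulVecLin) (LinearMap.ker M.mulVecLin) := by
    rw [isCompl_iff]
    constructor
    · rw [Submodule.disjoint_def]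
      rintro _ ⟨y, rfl⟩ h
      rw [LinearMap.mem_ker, hf] at h
      exact (smul_eq_zero.1 h).resolve_left ha
    · rw [codisjoint_iff, eq_top_iff]
      intro x _
      have h1 : x = M.mulVecLin (a⁻¹ • x) + (x - M.mulVecLin (a⁻¹ • x)) := by abel
      rw [h1]
      refine Submodule.add_mem_sup ⟨_, rfl⟩ ?_
      rw [LinearMap.mem_ker, map_sub, hf, map_smul, smul_smul, mul_inv_cancel₀ ha, one_smul,
        sub_self]
  have he : M.mulVecLin = (Submodule.prodEquivOfIsCompl _ _ hc).conj
      ((0 - (-a) • 1 : Module.End K (LinearMap.range M.mulVecLin)).prodMap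
        (0 : Module.End K (LinearMap.ker M.mulVecLin))) := by
    refine LinearMap.ext fun x => ?_
    obtain ⟨⟨⟨_, y, rfl⟩, ⟨z, hz⟩⟩, rfl⟩ := (Submodule.prodEquivOfIsCompl _ _ hc).surjective x
    rw [LinearMap.mem_ker] at hz
    rw [LinearEquiv.conj_apply_apply, LinearEquiv.symm_apply_apply,
      Submodule.coe_prodEquivOfIsCompl', Submodule.coe_prodEquivOfIsCompl', map_add, hz, hf]
    simp
  have hr : Module.finrank K (LinearMap.range M.mulVecLin) = M.rank := rfl
  have hk : Module.finrank K (LinearMap.ker M.mulVecLin) = N - M.rank := by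
    have := LinearMap.finrank_range_add_finrank_ker M.mulVecLin
    rw [Module.finrank_fin_fun, hr] at this
    omega
  rw [← Matrix.charpoly_mulVecLin, he, LinearEquiv.charpoly_conj, LinearMap.charpoly_prodMap,
    LinearMap.charpoly_sub_smul, LinearMap.charpoly_zero, LinearMap.charpoly_zero, hr, hk,
    Polynomial.X_pow_comp, Polynomial.C_neg, ← sub_eq_add_neg, mul_comm]
-- END LM1a

-- BEGIN LM1b
/-- Compare the coefficients of `X ^ (N - 1)` in `charpoly_of_sq`. -/
theorem trace_of_sq {K : Type} [Field K] {N : ℕ} (M : Matrix (Fin N) (Fin N) K) {a : K}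
    (ha : a ≠ 0) (hM : M * M = a • M) : M.trace = M.rank * a := by
  rcases Nat.eq_zero_or_pos N with rfl | hN
  · have : M.rank = 0 := by simpa using M.rank_le_width
    simp [Matrix.trace, this]
  have : NeZero N := ⟨hN.ne'⟩
  rw [Matrix.trace_eq_neg_charpoly_nextCoeff, charpoly_of_sq M ha hM,
    (Polynomial.monic_X_pow _).nextCoeff_mul ((Polynomial.monic_X_sub_C a).pow _),
    Polynomial.monic_X.nextCoeff_pow, (Polynomial.monic_X_sub_C a).nextCoeff_pow,
    Polynomial.nextCoeff_X_sub_C, Polynomial.nextCoeff_of_natDegree_pos (by simp)]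
  simp
-- END LM1b

-- BEGIN LM1c
/-- A matrix `M` over a discrete valuation ring with `M ^ 2 = a M`, of rank `c`, has a `c × c` minor
of valuation at most `c` times the valuation of `a`. -/
theorem exists_minor {V : Type} [CommRing V] [IsDomain V] [IsDiscreteValuationRing V] {N : ℕ}
    (M : Matrix (Fin N) (Fin N) V) {a : V} (ha : a ≠ 0) (hM : M * M = a • M) {c : ℕ}
    (hc : (M.map (algebraMap V (FractionRing V))).rank = c) :
    ∃ σ : Fin c → Fin N, Function.Injective σ ∧
      addVal V (M.submatrix σ σ).det ≤ c • addVal V a := by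
  have hi := IsFractionRing.injective V (FractionRing V)
  have hcN : c ≤ N := hc ▸ Matrix.rank_le_width _
  have ha' : algebraMap V (FractionRing V) a ≠ 0 := fun h => ha (hi (by rw [h, map_zero]))
  have hM' : M.map (algebraMap V (FractionRing V)) * M.map (algebraMap V (FractionRing V)) =
      algebraMap V (FractionRing V) a • M.map (algebraMap V (FractionRing V)) := by
    rw [← Matrix.map_mul, hM]
    ext i j
    simp
  have h1 := Matrix.charpoly_coeff_eq_sum_minors (M.map (algebraMap V (FractionRing V))) c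
    (by simpa using hcN)
  have h2 := Polynomial.coeff_X_pow_mul
    ((Polynomial.X - Polynomial.C (algebraMap V (FractionRing V) a)) ^ c) (N - c) 0
  rw [zero_add] at h2
  rw [charpoly_of_sq _ ha' hM', hc, Fintype.card_fin, h2, Polynomial.coeff_zero_eq_eval_zero] at h1
  have h3 : a ^ c = ∑ s ∈ (Finset.univ : Finset (Fin N)).powersetCard c,
      (M.submatrix (Subtype.val : s → Fin N) (Subtype.val : s → Fin N)).det := by
    apply hi
    have h4 : ∀ s : Finset (Fin N), algebraMap V (FractionRing V)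
        (M.submatrix (Subtype.val : s → Fin N) (Subtype.val : s → Fin N)).det =
        ((M.map (algebraMap V (FractionRing V))).submatrix
          (Subtype.val : s → Fin N) (Subtype.val : s → Fin N)).det := fun s => by
      rw [RingHom.map_det]
      rfl
    rw [map_sum, Finset.sum_congr rfl fun s _ => h4 s, map_pow]
    simpa [neg_pow (algebraMap V (FractionRing V) a)] using h1
  by_contra! hcon
  have h5 : c • addVal V a < addVal V (a ^ c) := by
    rw [h3]
    refine AddValuation.map_lt_sum _ ?_ fun s hs => ?_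
    · rw [← addVal_pow, Ne, addVal_eq_top_iff]
      exact pow_ne_zero c ha
    · have hs' := (Finset.mem_powersetCard.1 hs).2
      have h6 := hcon (s.orderEmbOfFin hs') (s.orderEmbOfFin hs').injective
      have h7 := Matrix.det_submatrix_equiv_self (s.orderIsoOfFin hs').toEquiv
        (M.submatrix (Subtype.val : s → Fin N) (Subtype.val : s → Fin N))
      rw [← h7]
      exact h6
  rw [addVal_pow] at h5
  exact lt_irrefl _ h5
-- END LM1c

end Pool.Agent.Lib.MP_6a3dac_ag.NU
end

section

/-!
# NU: derivatives of relations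
-/

set_option autoImplicit false

namespace Pool.Agent.Lib.MP_6a3dac_ag.NU

open MvPolynomial

-- BEGIN LM2a
/-- Expansion of the determinant of a product along the middle index. -/
theorem det_mul_expand {R : Type} [CommRing R] {c N : ℕ} (A : Matrix (Fin c) (Fin N) R)
    (B : Matrix (Fin N) (Fin c) R) :
    (A * B).det = ∑ J : Fin c → Fin N, (∏ i, A i (J i)) * (B.submatrix J id).det := by
  have h : ∀ J : Fin c → Fin N, (B.submatrix J id).det = (B.submatrix J id).transpose.det :=
    fun J => (Matrix.det_transpose _).symm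
  simp only [h]
  rw [← Matrix.det_transpose]
  simp only [Matrix.det_apply', Matrix.transpose_apply, Matrix.mul_apply, Finset.prod_univ_sum,
    Finset.mul_sum, Fintype.piFinset_univ, Matrix.submatrix_apply, id_eq, Finset.prod_mul_distrib]
  rw [Finset.sum_comm]
  exact Finset.sum_congr rfl fun J _ => Finset.sum_congr rfl fun σ _ => by ring
-- END LM2a

-- BEGIN LM2b
/-- The Jacobian determinant of relations which are divisible by `t ^ n` up to the `z j`.

PROOF.  Let `𝔞 = Ideal.span ({t ^ (n - 1)} ∪ Set.range z)` and work modulo `𝔞`.  Apply the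
derivation `pderiv (σ l)` to `hrel k`:
`pderiv l (s k * g k) = n t ^ (n - 1) (pderiv l t) (b k) + t ^ n pderiv l (b k) +
∑ j, (pderiv l (z j) * C j k + z j * pderiv l (C j k)) ≡ ∑ j, pderiv l (z j) * C j k`
modulo `𝔞` (`1 ≤ n`).  So modulo `𝔞` the matrix `(pderiv (σ l) (s k * g k))_{l, k}` is the product
`A * C` with `A l j = pderiv (σ l) (z j)`, and its determinant is congruent to
`∑ J, (∏ l, A l (J l)) * det (C.submatrix J id)` by `det_mul_expand` (use
`RingHom.map_det` for `Ideal.Quotient.mk 𝔞`). -/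
theorem det_deriv {N c n : ℕ} (hn : 1 ≤ n) {t : MvPolynomial (Fin N) ℤ}
    {z : Fin N → MvPolynomial (Fin N) ℤ} (σ : Fin c → Fin N)
    {s g b : Fin c → MvPolynomial (Fin N) ℤ} {C : Matrix (Fin N) (Fin c) (MvPolynomial (Fin N) ℤ)}
    (hrel : ∀ k, s k * g k = t ^ n * b k + ∑ j, z j * C j k) :
    (Matrix.of fun l k : Fin c => pderiv (σ l) (s k * g k)).det -
      ∑ J : Fin c → Fin N, (∏ l, pderiv (σ l) (z (J l))) * (C.submatrix J id).det ∈
      Ideal.span ({t ^ (n - 1)} ∪ Set.range z) := by
  set 𝔞 := Ideal.span ({t ^ (n - 1)} ∪ Set.range z) with h𝔞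
  have h1 : (Ideal.Quotient.mk 𝔞) (t ^ (n - 1)) = 0 :=
    Ideal.Quotient.eq_zero_iff_mem.2 (Ideal.subset_span (Or.inl rfl))
  have h2 : ∀ j, (Ideal.Quotient.mk 𝔞) (z j) = 0 := fun j =>
    Ideal.Quotient.eq_zero_iff_mem.2 (Ideal.subset_span (Or.inr ⟨j, rfl⟩))
  have h3 : (Ideal.Quotient.mk 𝔞) (t ^ n) = 0 := by
    obtain ⟨m, rfl⟩ : ∃ m, n = m + 1 := ⟨n - 1, by omega⟩
    rw [pow_succ, map_mul]
    simp only [Nat.add_sub_cancel] at h1
    rw [h1, zero_mul]
  have h4 := det_mul_expand (Matrix.of fun l j => pderiv (σ l) (z j)) C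
  simp only [Matrix.of_apply] at h4
  rw [← Ideal.Quotient.eq, ← h4, RingHom.map_det, RingHom.map_det]
  congr 1
  ext l k
  simp only [RingHom.mapMatrix_apply, Matrix.map_apply, Matrix.of_apply, Matrix.mul_apply, hrel,
    map_add, map_sum, Derivation.leibniz, Derivation.leibniz_pow, smul_eq_mul, map_mul, h2, h3,
    nsmul_eq_mul, h1, mul_zero, zero_mul, add_zero, zero_add]
  exact Finset.sum_congr rfl fun j _ => mul_comm _ _
-- END LM2b

-- BEGIN LM2c
/-- The matrix of the presentation satisfies `M ^ 2 = a M`: the identity for the derivatives.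

PROOF.  Apply the derivation `pderiv l` to the relation `a * g - ∑ k, pderiv k g * γ k ∈ I ^ 2` with
`g = γ m`, `I = ker π`.  A derivation maps `I ^ 2` to `I` (Leibniz; `Submodule.span_induction` /
`Submodule.mul_induction_on`), so modulo `I`:
`a * pderiv l (γ m) ≡ ∑ k, (pderiv l (pderiv k (γ m)) * γ k + pderiv k (γ m) * pderiv l (γ k))
≡ ∑ k, pderiv k (γ m) * pderiv l (γ k)` (`γ k ∈ I`; `pderiv l (a) = 0`).  Apply `π`. -/
theorem deriv_rel {R : Type} [CommRing R] {N : ℕ} (π : MvPolynomial (Fin N) ℤ →+* R) (a : ℕ)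
    (γ : Fin N → MvPolynomial (Fin N) ℤ) (hγ : ∀ l, π (γ l) = 0)
    (hrel : ∀ g, π g = 0 → (a : MvPolynomial (Fin N) ℤ) * g - ∑ l, pderiv l g * γ l ∈
      (RingHom.ker π) ^ 2) (l m : Fin N) :
    ∑ k, π (pderiv l (γ k)) * π (pderiv k (γ m)) = (a : R) * π (pderiv l (γ m)) := by
  have h1 : ∀ x ∈ (RingHom.ker π) ^ 2, π (pderiv l x) = 0 := by
    intro x hx
    rw [pow_two] at hx
    refine Submodule.mul_induction_on hx (fun u hu v hv => ?_) (fun u v hu hv => ?_)
    · rw [RingHom.mem_ker] at hu hv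
      rw [Derivation.leibniz, map_add, smul_eq_mul, smul_eq_mul, map_mul, map_mul, hu, hv]
      simp
    · rw [map_add, map_add, hu, hv, add_zero]
  have h2 := h1 _ (hrel (γ m) (hγ m))
  simp only [map_sub, map_sum, Derivation.leibniz, smul_eq_mul, map_add, map_mul, hγ, zero_mul,
    add_zero, Derivation.map_natCast, mul_zero, map_natCast] at h2
  rw [sub_eq_zero.1 h2]
  exact Finset.sum_congr rfl fun k _ => mul_comm _ _
-- END LM2c

end Pool.Agent.Lib.MP_6a3dac_ag.NU
end

section

/-!
# NU: the rank of the matrix of a presentation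
-/

set_option autoImplicit false

namespace Pool.Agent.Lib.MP_6a3dac_ag.NU

open MvPolynomial

-- BEGIN PR1a
/-- PROOF.  Entrywise this is `deriv_rel` (`Matrix.mul_apply`, `Pres.M`). -/
theorem Pres.M_sq {R : Type} [CommRing R] (P : Pres R) : P.M * P.M = (P.a : R) • P.M := by
  ext l m
  simpa [Matrix.mul_apply, Pres.M, smul_eq_mul] using
    deriv_rel P.π P.a P.γ P.γ_mem P.rel l m
-- END PR1a

-- BEGIN PR1b
/-- PROOF.  `Matrix.rank_le_width`. -/
theorem Pres.c_le {R : Type} [CommRing R] [IsDomain R] (P : Pres R) : P.c ≤ P.N :=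
  Matrix.rank_le_width _
-- END PR1b

-- BEGIN PR1c
/-- The rank of the matrix is the same at all points of characteristic zero.

PROOF.  Let `F = FractionRing R`, a field of characteristic zero.  `trace_of_sq` for `P.M` over `F`
(`P.M_sq`; `P.a ≠ 0` in `F`): `trace = P.c * P.a` in `F`; as `R → F` is injective,
`P.M.trace = (P.c : R) * P.a` in `R`.  Apply `ψ`: `(P.M.map ψ).trace = P.c * P.a` in `K`
(`Matrix.trace_map`-like; `map_sum`).  By `trace_of_sq` for `P.M.map ψ` it is also
`rank * P.a`.  Cancel `P.a ≠ 0` and use `Nat.cast_injective` (`CharZero K`). -/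
theorem Pres.rank_eq {R : Type} [CommRing R] [IsDomain R] [CharZero R] (P : Pres R) {K : Type}
    [Field K] [CharZero K] (ψ : R →+* K) : (P.M.map ψ).rank = P.c := by
  have key : ∀ {L : Type} [Field L] [CharZero L] (φ : R →+* L),
      φ P.M.trace = ((P.M.map φ).rank : L) * (P.a : L) := by
    intro L _ _ φ
    have ha : (P.a : L) ≠ 0 := Nat.cast_ne_zero.2 P.a_ne
    have h : P.M.map φ * P.M.map φ = (P.a : L) • P.M.map φ := by
      rw [← Matrix.map_mul, P.M_sq]
      ext i j
      simp
    rw [← trace_of_sq _ ha h]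
    simp [Matrix.trace, map_sum]
  have : CharZero (FractionRing R) :=
    charZero_of_injective_algebraMap (IsFractionRing.injective R (FractionRing R))
  have h1 := key (algebraMap R (FractionRing R))
  have h2 : P.M.trace = (P.c : R) * (P.a : R) := by
    apply IsFractionRing.injective R (FractionRing R)
    rw [h1]
    simp [Pres.c]
  have h3 := key ψ
  rw [h2, map_mul, map_natCast, map_natCast] at h3
  have ha : (P.a : K) ≠ 0 := Nat.cast_ne_zero.2 P.a_ne
  exact (Nat.cast_injective (mul_right_cancel₀ ha h3)).symm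
-- END PR1c

end Pool.Agent.Lib.MP_6a3dac_ag.NU
end
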