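import Pool.Agent.Lib.MP_6a3dac_ag.Mg.G047
import Pool.Agent.Lib.MP_6a3dac_ag.Mg.G072
import Pool.Agent.Lib.MP_6a3dac_ag.Mg.G069

section

/-!
# NU: the regular points around a point of the exceptional divisor
-/

set_option autoImplicit false

namespace Pool.Agent.Lib.MP_6a3dac_ag.NU

open IsLocalRing

-- BEGIN INTa
theorem inta_reg {R S : Type} [CommRing R] [CommRing S] [Algebra R S] (M : Submonoid R)
    [IsLocalization M S] [IsRegularRing S] (q : Ideal R) [hq : q.IsPrime]
    (hM : Disjoint (M : Set R) (q : Set R)) : IsRegularLocalRing (Localization.AtPrime q) := by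
  have hqp : (q.map (algebraMap R S)).IsPrime :=
    IsLocalization.isPrime_of_isPrime_disjoint M _ _ hq hM
  have h1 : (q.map (algebraMap R S)).comap (algebraMap R S) = q :=
    IsLocalization.under_map_of_isPrime_disjoint M _ hq hM
  have h2 : IsLocalization.AtPrime (Localization.AtPrime (q.map (algebraMap R S)))
      ((q.map (algebraMap R S)).comap (algebraMap R S)) :=
    IsLocalization.isLocalization_isLocalization_atPrime_isLocalization M _ _
  have h4 : IsLocalization q.primeCompl (Localization.AtPrime (q.map (algebraMap R S))) := by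
    have h3 : ((q.map (algebraMap R S)).comap (algebraMap R S)).primeCompl = q.primeCompl := by
      ext x
      rw [Ideal.mem_primeCompl_iff, Ideal.mem_primeCompl_iff, h1]
    exact h3 ▸ h2
  exact IsRegularLocalRing.of_ringEquiv (IsLocalization.algEquiv q.primeCompl
    (Localization.AtPrime (q.map (algebraMap R S))) (Localization.AtPrime q)).toRingEquiv

/-- Points of the smooth locus are regular. -/
theorem isRegular_of_smoothLocus (R : Type) [CommRing R] [Algebra.FiniteType ℤ R]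
    (𝔮 : PrimeSpectrum R) (h : 𝔮 ∈ Algebra.smoothLocus ℤ R) :
    IsRegularLocalRing (Localization.AtPrime 𝔮.asIdeal) := by
  have hfp : Algebra.FinitePresentation ℤ R := Algebra.FinitePresentation.of_finiteType.mp ‹_›
  have hs : Algebra.IsSmoothAt ℤ 𝔮.asIdeal := h
  obtain ⟨f, hf, hst⟩ := Algebra.IsSmoothAt.exists_notMem_isStandardSmooth ℤ 𝔮.asIdeal
  have hreg := isRegularRing_of_isStandardSmooth ℤ (Localization.Away f)
  exact inta_reg (S := Localization.Away f) (Submonoid.powers f) _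
    ((Ideal.disjoint_powers_iff_notMem_of_isPrime (I := 𝔮.asIdeal) (y := f)).mpr hf)
-- END INTa

-- BEGIN INTb
theorem intb_loc {B : Type} [CommRing B] (f : B) (q : Ideal B) [hq : q.IsPrime] (hf : f ∉ q) :
    ∃ (q' : Ideal (Localization.Away f)) (_ : q'.IsPrime),
      q'.comap (algebraMap B (Localization.Away f)) = q ∧
      Nonempty (Localization.AtPrime q' ≃+* Localization.AtPrime q) := by
  have hd : Disjoint (Submonoid.powers f : Set B) (q : Set B) :=
    (Ideal.disjoint_powers_iff_notMem_of_isPrime (I := q) (y := f)).mpr hf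
  have h0 : (q.map (algebraMap B (Localization.Away f))).IsPrime :=
    IsLocalization.isPrime_of_isPrime_disjoint (Submonoid.powers f) _ _ hq hd
  have h1 : (q.map (algebraMap B (Localization.Away f))).comap
      (algebraMap B (Localization.Away f)) = q :=
    IsLocalization.under_map_of_isPrime_disjoint (Submonoid.powers f) _ hq hd
  obtain ⟨q', hq'⟩ : ∃ q', q' = q.map (algebraMap B (Localization.Away f)) := ⟨_, rfl⟩
  rw [← hq'] at h0 h1
  have h2 : IsLocalization.AtPrime (Localization.AtPrime q')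
      (q'.comap (algebraMap B (Localization.Away f))) :=
    IsLocalization.isLocalization_isLocalization_atPrime_isLocalization (Submonoid.powers f)
      (Localization.AtPrime q') q'
  have h3 : (q'.comap (algebraMap B (Localization.Away f))).primeCompl = q.primeCompl := by
    ext x
    rw [Ideal.mem_primeCompl_iff, Ideal.mem_primeCompl_iff, h1]
  have h4 : IsLocalization q.primeCompl (Localization.AtPrime q') := h3 ▸ h2
  exact ⟨q', h0, h1, ⟨(IsLocalization.algEquiv q.primeCompl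
    (Localization.AtPrime q') (Localization.AtPrime q)).toRingEquiv⟩⟩

theorem intb_sm {p n : ℕ} [Fact p.Prime] (k : Type) [Field k] [Finite k] [CharP k p]
    (𝔯 : Ideal (MvPolynomial (Fin n) k)) [𝔯.IsPrime] (L : Type) [CommRing L]
    [Algebra (ZMod p) L] (e : L ≃+* Localization.AtPrime 𝔯) : Algebra.FormallySmooth (ZMod p) L := by
  let _ : Algebra (ZMod p) k := ZMod.algebra k p
  have h1 : Algebra.FormallySmooth (ZMod p) (MvPolynomial (Fin n) k) :=
    Algebra.FormallySmooth.comp (ZMod p) k _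
  have h2 : Algebra.FormallySmooth (ZMod p) (Localization.AtPrime 𝔯) := inferInstance
  exact Algebra.FormallySmooth.of_equiv (AlgEquiv.ofRingEquiv (f := e.symm) fun r =>
    RingHom.congr_fun (Subsingleton.elim (e.symm.toRingHom.comp (algebraMap (ZMod p) _))
      (algebraMap (ZMod p) L)) r)

/-- A ring of finite type over `ℤ` one of whose local rings is a localization of a polynomial ring
over a finite field is regular around that point. -/
theorem exists_regular_nhd (D : Type) [CommRing D] [Algebra.FiniteType ℤ D] (𝔮 : Ideal D)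
    [𝔮.IsPrime] (k : Type) [Field k] [Finite k] {n : ℕ} (𝔯 : Ideal (MvPolynomial (Fin n) k))
    [𝔯.IsPrime] (e : Localization.AtPrime 𝔮 ≃+* Localization.AtPrime 𝔯) :
    ∃ h ∉ 𝔮, ∀ 𝔰 : PrimeSpectrum D, h ∉ 𝔰.asIdeal →
      IsRegularLocalRing (Localization.AtPrime 𝔰.asIdeal) := by
  obtain ⟨p, hp⟩ : ∃ p, p = ringChar k := ⟨_, rfl⟩
  have hcp : CharP k p := hp ▸ ringChar.charP k
  have hpp : p.Prime := CharP.char_is_prime k p
  have : Fact p.Prime := ⟨hpp⟩
  have h0 : (p : Localization.AtPrime 𝔮) = 0 := by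
    apply e.injective
    rw [map_natCast, map_zero, ← map_natCast (algebraMap k (Localization.AtPrime 𝔯)),
      CharP.cast_eq_zero, map_zero]
  rw [← map_natCast (algebraMap D (Localization.AtPrime 𝔮)),
    IsLocalization.map_eq_zero_iff 𝔮.primeCompl] at h0
  obtain ⟨⟨h₁, hh₁⟩, h0⟩ := h0
  obtain ⟨q₁, hq₁, hc₁, ⟨e₁⟩⟩ := intb_loc h₁ 𝔮 hh₁
  have hnt : Nontrivial (Localization.Away h₁) := ⟨0, 1, fun h => hq₁.ne_top
    ((Ideal.eq_top_iff_one _).2 (h ▸ q₁.zero_mem))⟩
  have hp0 : (p : Localization.Away h₁) = 0 := by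
    have h2 : IsUnit (algebraMap D (Localization.Away h₁) h₁) :=
      IsLocalization.Away.algebraMap_isUnit h₁
    rw [← h2.mul_right_eq_zero, ← map_natCast (algebraMap D (Localization.Away h₁)), ← map_mul]
    change algebraMap D _ (h₁ * p) = 0
    rw [h0, map_zero]
  have hch : CharP (Localization.Away h₁) p := (CharP.charP_iff_prime_eq_zero hpp).2 hp0
  let _ : Algebra (ZMod p) (Localization.Away h₁) := ZMod.algebra _ p
  have hft : Algebra.FiniteType ℤ (Localization.Away h₁) :=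
    Algebra.FiniteType.trans (S := D) inferInstance
      (IsLocalization.finiteType_of_monoid_fg (Submonoid.powers h₁) _)
  have hft2 : Algebra.FiniteType (ZMod p) (Localization.Away h₁) := by
    refine @Algebra.FiniteType.of_restrictScalars_finiteType ℤ (ZMod p) _ _ _ _ _ _ _ ?_ hft
    exact IsScalarTower.of_algebraMap_eq' (Subsingleton.elim _ _)
  have hfp : Algebra.FinitePresentation (ZMod p) (Localization.Away h₁) :=
    Algebra.FinitePresentation.of_finiteType.1 hft2
  have hsm : Algebra.IsSmoothAt (ZMod p) q₁ := intb_sm k 𝔯 _ (e₁.trans e)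
  obtain ⟨f, hf, hst⟩ := Algebra.IsSmoothAt.exists_notMem_isStandardSmooth (ZMod p) q₁
  have hreg := isRegularRing_of_isStandardSmooth (ZMod p) (Localization.Away f)
  obtain ⟨⟨a, s⟩, has⟩ := IsLocalization.surj (Submonoid.powers h₁) f
  have hsu : IsUnit (algebraMap D (Localization.Away h₁) s) := IsLocalization.map_units _ s
  have key : ∀ 𝔱 : Ideal (Localization.Away h₁), 𝔱.IsPrime →
      (a ∈ 𝔱.comap (algebraMap D (Localization.Away h₁)) ↔ f ∈ 𝔱) := by
    intro 𝔱 h𝔱
    rw [Ideal.mem_comap]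
    change algebraMap D _ (a, s).1 ∈ 𝔱 ↔ _
    rw [← has]
    exact ⟨fun h => (h𝔱.mem_or_mem h).resolve_right fun h' =>
      h𝔱.ne_top (Ideal.eq_top_of_isUnit_mem _ h' hsu), fun h => Ideal.mul_mem_right _ _ h⟩
  refine ⟨h₁ * a, fun h => ?_, fun 𝔰 h𝔰 => ?_⟩
  · rcases (‹𝔮.IsPrime›).mem_or_mem h with h | h
    · exact hh₁ h
    · rw [← hc₁, key q₁ hq₁] at h
      exact hf h
  · have h1 : h₁ ∉ 𝔰.asIdeal := fun h => h𝔰 (Ideal.mul_mem_right _ _ h)
    have h2 : a ∉ 𝔰.asIdeal := fun h => h𝔰 (Ideal.mul_mem_left _ _ h)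
    obtain ⟨s₁, hs₁, hcs, ⟨es⟩⟩ := intb_loc h₁ 𝔰.asIdeal h1
    rw [← hcs, key s₁ hs₁] at h2
    obtain ⟨s₂, hs₂, -, ⟨e₂⟩⟩ := intb_loc f s₁ h2
    have h3 : IsRegularLocalRing (Localization.AtPrime s₂) :=
      (isRegularRing_iff (R := Localization.Away f)).1 hreg s₂
    exact IsRegularLocalRing.of_ringEquiv (e₂.trans es)
-- END INTb

-- BEGIN INTc
theorem intc_iso {R : Type} [CommRing R] (I s : Ideal R) [s.IsPrime] (hI : I ≤ s) :
    ∃ (t : Ideal (R ⧸ I)) (_ : t.IsPrime), t.comap (Ideal.Quotient.mk I) = s ∧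
      Nonempty (Localization.AtPrime t ≃+*
        (Localization.AtPrime s ⧸ I.map (algebraMap R (Localization.AtPrime s)))) := by
  have hp : (s.map (Ideal.Quotient.mk I)).IsPrime :=
    Ideal.map_isPrime_of_surjective Ideal.Quotient.mk_surjective (by rwa [Ideal.mk_ker])
  have hc : (s.map (Ideal.Quotient.mk I)).comap (Ideal.Quotient.mk I) = s := by
    rw [Ideal.comap_map_of_surjective' _ Ideal.Quotient.mk_surjective, Ideal.mk_ker,
      sup_eq_left.mpr hI]
  have h2 : Algebra.algebraMapSubmonoid (R ⧸ I) s.primeCompl =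
      (s.map (Ideal.Quotient.mk I)).primeCompl := by
    ext x
    obtain ⟨x, rfl⟩ := Ideal.Quotient.mk_surjective x
    have hx : Ideal.Quotient.mk I x ∈ s.map (Ideal.Quotient.mk I) ↔ x ∈ s := by
      rw [← Ideal.mem_comap, hc]
    rw [Ideal.mem_primeCompl_iff, hx]
    constructor
    · rintro ⟨y, hy, hxy⟩ h
      have h3 : y - x ∈ s := hI (Ideal.Quotient.eq.mp hxy)
      exact hy (by simpa using s.add_mem h3 h)
    · exact fun h => ⟨x, h, rfl⟩
  have h3 : IsLocalization (s.map (Ideal.Quotient.mk I)).primeCompl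
      (Localization.AtPrime s ⧸ I.map (algebraMap R (Localization.AtPrime s))) := by
    rw [← h2]
    infer_instance
  exact ⟨_, hp, hc, ⟨(IsLocalization.algEquiv (s.map (Ideal.Quotient.mk I)).primeCompl
    (Localization.AtPrime (s.map (Ideal.Quotient.mk I))) _).toRingEquiv⟩⟩

/-- The affine criterion. -/
theorem exists_regular_affine (R : Type) [CommRing R] [IsDomain R] [Algebra.FiniteType ℤ R]
    (hsm : ∀ (𝔭 : Ideal R) [𝔭.IsPrime], (∀ n : ℕ, n ≠ 0 → (n : R) ∉ 𝔭) →
      Algebra.FormallySmooth ℤ (Localization.AtPrime 𝔭))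
    (𝔮 : Ideal R) [𝔮.IsPrime] {f u : Localization.AtPrime 𝔮}
    (hf : f ∈ maximalIdeal (Localization.AtPrime 𝔮)) (hf0 : f ≠ 0) {p : ℕ} (hp1 : p.Prime)
    {j : ℕ} (hj : j ≠ 0) (hu : IsUnit u) (hp : (p : Localization.AtPrime 𝔮) = u * f ^ j)
    (k : Type) [Field k] [Finite k] {n : ℕ} (𝔯 : Ideal (MvPolynomial (Fin n) k)) [𝔯.IsPrime]
    (e : (Localization.AtPrime 𝔮 ⧸ Ideal.span {f}) ≃+* Localization.AtPrime 𝔯) :
    ∃ h ∉ 𝔮, ∀ 𝔰 : PrimeSpectrum R, h ∉ 𝔰.asIdeal →
      IsRegularLocalRing (Localization.AtPrime 𝔰.asIdeal) := by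
  obtain ⟨a, ha, hs⟩ := exists_smooth_away R hsm
  obtain ⟨m, a', hpa, rfl⟩ := Nat.exists_eq_pow_mul_and_not_dvd ha p hp1.ne_one
  have hunit : ∀ x : R, x ∉ 𝔮 ↔ IsUnit (algebraMap R (Localization.AtPrime 𝔮) x) :=
    fun x => (IsLocalization.AtPrime.isUnit_to_map_iff _ 𝔮 x).symm
  have hfu : ¬ IsUnit f := hf
  have hinj : Function.Injective (algebraMap R (Localization.AtPrime 𝔮)) :=
    IsLocalization.injective _ 𝔮.primeCompl_le_nonZeroDivisors
  have hpq : (p : R) ∈ 𝔮 := by
    by_contra h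
    rw [hunit, map_natCast, hp, IsUnit.mul_iff, isUnit_pow_iff hj] at h
    exact hfu h.2
  have haq : (a' : R) ∉ 𝔮 := by
    intro h
    have h1 : IsCoprime (p : R) (a' : R) :=
      Nat.isCoprime_iff_coprime.mpr ((Nat.Prime.coprime_iff_not_dvd hp1).mpr hpa) |>.map
        (Int.castRingHom R) |> fun h => by simpa using h
    obtain ⟨x, y, hxy⟩ := h1
    exact (Ideal.ne_top_iff_one _).mp (Ideal.IsPrime.ne_top ‹_›)
      (hxy ▸ 𝔮.add_mem (𝔮.mul_mem_left _ hpq) (𝔮.mul_mem_left _ h))
  obtain ⟨⟨g, s⟩, hgs⟩ := IsLocalization.surj 𝔮.primeCompl f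
  obtain ⟨⟨w, t⟩, hwt⟩ := IsLocalization.surj 𝔮.primeCompl u
  simp only at hgs hwt
  have hsu := (hunit _).mp s.2
  have htu := (hunit _).mp t.2
  have hg0 : g ≠ 0 := by
    rintro rfl
    rw [map_zero] at hgs
    exact hf0 (hsu.mul_left_eq_zero.mp hgs)
  have hgq : g ∈ 𝔮 := by
    by_contra h
    rw [hunit, ← hgs, IsUnit.mul_iff] at h
    exact hfu h.1
  have hwq : w ∉ 𝔮 := by rw [hunit, ← hwt]; exact hu.mul htu
  have hrel : (p : R) * (s : R) ^ j * (t : R) = w * g ^ j := by
    apply hinj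
    rw [map_mul, map_mul, map_pow, map_natCast, hp, map_mul, map_pow, ← hgs, ← hwt]
    ring
  have hspan : Ideal.span {f} =
      (Ideal.span {g}).map (algebraMap R (Localization.AtPrime 𝔮)) := by
    rw [Ideal.map_span, Set.image_singleton, ← hgs]
    exact (Ideal.span_singleton_mul_right_unit hsu f).symm
  obtain ⟨q', hq', hqc, ⟨e'⟩⟩ := intc_iso (Ideal.span {g}) 𝔮
    ((Ideal.span_singleton_le_iff_mem _).mpr hgq)
  have hft : @Algebra.FiniteType ℤ (R ⧸ Ideal.span {g}) _ _ (Ring.toIntAlgebra _) := by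
    convert! Algebra.FiniteType.of_surjective (Ideal.Quotient.mkₐ ℤ (Ideal.span {g}))
      Ideal.Quotient.mk_surjective
  obtain ⟨h₀, hh₀, hreg⟩ := exists_regular_nhd (R ⧸ Ideal.span {g}) q' k 𝔯
    (e'.trans ((Ideal.quotEquivOfEq hspan).symm.trans e))
  obtain ⟨h₁, rfl⟩ := Ideal.Quotient.mk_surjective h₀
  refine ⟨a' * w * h₁, ?_, ?_⟩
  · rw [Ideal.IsPrime.mul_mem_iff_mem_or_mem ‹_›, Ideal.IsPrime.mul_mem_iff_mem_or_mem ‹_›]
    rintro ((h | h) | h)
    · exact haq h
    · exact hwq h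
    · rw [← hqc] at h
      exact hh₀ h
  · intro 𝔰 hh
    rw [Ideal.IsPrime.mul_mem_iff_mem_or_mem 𝔰.2,
      Ideal.IsPrime.mul_mem_iff_mem_or_mem 𝔰.2] at hh
    push Not at hh
    by_cases hg : g ∈ 𝔰.asIdeal
    · obtain ⟨s', hs', hsc, ⟨e₂⟩⟩ := intc_iso (Ideal.span {g}) 𝔰.asIdeal
        ((Ideal.span_singleton_le_iff_mem _).mpr hg)
      have h1 := hreg ⟨s', hs'⟩ (fun h => hh.2 (by rw [← hsc]; exact h))
      have h2 := IsRegularLocalRing.of_ringEquiv (e₂.trans (Ideal.quotEquivOfEq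
        (by rw [Ideal.map_span, Set.image_singleton] :
        (Ideal.span {g}).map (algebraMap R (Localization.AtPrime 𝔰.asIdeal)) =
          Ideal.span {algebraMap R (Localization.AtPrime 𝔰.asIdeal) g})))
      have hN : IsNoetherianRing R := Algebra.FiniteType.isNoetherianRing ℤ R
      have hinj' : Function.Injective (algebraMap R (Localization.AtPrime 𝔰.asIdeal)) :=
        IsLocalization.injective _ 𝔰.asIdeal.primeCompl_le_nonZeroDivisors
      have : IsNoetherianRing (Localization.AtPrime 𝔰.asIdeal) :=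
        IsLocalization.isNoetherianRing 𝔰.asIdeal.primeCompl _ hN
      refine isRegularLocalRing_of_quotient
        ((IsLocalization.AtPrime.to_map_mem_maximal_iff _ 𝔰.asIdeal g).mpr hg)
        (mem_nonZeroDivisors_of_ne_zero fun h => hg0 (hinj' (h.trans (map_zero _).symm))) h2
    · refine isRegular_of_smoothLocus R 𝔰 (hs 𝔰 fun h => ?_)
      have hp' : (p : R) ∉ 𝔰.asIdeal := fun h => by
        have h1 : w * g ^ j ∈ 𝔰.asIdeal :=
          hrel ▸ Ideal.mul_mem_right _ _ (Ideal.mul_mem_right _ _ h)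
        rcases (Ideal.IsPrime.mul_mem_iff_mem_or_mem 𝔰.2).mp h1 with h | h
        · exact hh.1.2 h
        · exact hg (𝔰.2.mem_of_pow_mem _ h)
      push_cast at h
      rcases (Ideal.IsPrime.mul_mem_iff_mem_or_mem 𝔰.2).mp h with h | h
      · exact hp' (𝔰.2.mem_of_pow_mem _ h)
      · exact hh.1.1 h
-- END INTc

end Pool.Agent.Lib.MP_6a3dac_ag.NU
end

section

/-!
# NU: Witt derivations and the potential of arcs of positive characteristic
-/

set_option autoImplicit false

namespace Pool.Agent.Lib.MP_6a3dac_ag.NU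

open CategoryTheory Limits AlgebraicGeometry IsLocalRing IsDiscreteValuationRing

/-- The polynomial `((a + b) ^ p - a ^ p - b ^ p) / p`. -/
def wP (p : ℕ) {R : Type} [CommRing R] (a b : R) : R :=
  ∑ i ∈ Finset.Ico 1 p, ((p.choose i / p : ℕ) : R) * (a ^ i * b ^ (p - i))

/-- `θ` is a Witt derivation (Frobenius-Witt derivation) along `α` with `θ p = L`. -/
structure IsWD (p : ℕ) {B V : Type} [CommRing B] [CommRing V] (α : B →+* V) (L : V)
    (θ : B → V) : Prop where
  add : ∀ a b, θ (a + b) = θ a + θ b - L * wP p (α a) (α b)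
  mul : ∀ a b, θ (a * b) = α a ^ p * θ b + α b ^ p * θ a

/-- The arc `α` of characteristic `p` has potential at most `n`. -/
def PotW (p : ℕ) {A V : Type} [CommRing A] [CommRing V] [IsDomain V] [IsDiscreteValuationRing V]
    (α : A →+* V) (n : ℕ) : Prop :=
  ∃ (c : ℕ) (B : Type) (_ : CommRing B) (ψ : B →+* A) (L : Fin c → V) (θ : Fin c → B → V)
    (g : Fin c → B), IsRegularLocalRing B ∧ Function.Surjective ψ ∧ (RingHom.ker ψ).height ≤ c ∧
    (∀ l, IsWD p (α.comp ψ) (L l) (θ l)) ∧ (∀ k, ψ (g k) = 0) ∧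
    addVal V (Matrix.of fun l k : Fin c => θ l (g k)).det ≤ n

/-- The ring `V × V` with the operations of the Witt vectors of length two, twisted by `L`. -/
structure WE (p : ℕ) {V : Type} [CommRing V] (L : V) where
  /-- the first component -/
  fst : V
  /-- the second component -/
  snd : V

/-- Arcs of characteristic `p` with center in `T` and potential at most `n` can be moved into the
regular locus. -/
def ClaimAtW (p n : ℕ) (Z : Scheme.{0}) (T : Set Z) : Prop :=
  ∃ (Z' : Scheme.{0}) (β : Z' ⟶ Z), Nice Z' ∧ IsMod β (T ∩ (regOpen Z : Set Z)ᶜ) ∧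
    ∀ z' : Z', β z' ∈ T → ∀ (V : Type) [CommRing V] [IsDomain V] [IsDiscreteValuationRing V]
      [CharP V p] (α : Z'.presheaf.stalk z' →+* V), IsLocalHom α →
      PotW p (α.comp (β.stalkMap z').hom) n → z' ∈ regOpen Z'

/-- The claim for all closed sets without points of characteristic zero. -/
def ClaimW (p n : ℕ) : Prop :=
  ∀ Z : Scheme.{0}, Nice Z → ∀ T : Set Z, IsClosed T → (∀ z ∈ T, ¬ CharZ Z z) → ClaimAtW p n Z T

end Pool.Agent.Lib.MP_6a3dac_ag.NU
end
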