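import Mathlib
import Pool.Agent.Lib.MP_6a3dac_ag.NU.Defs

section

/-!
# NU: points of schemes of finite type over the integers
-/

set_option autoImplicit false

namespace Pool.Agent.Lib.MP_6a3dac_ag.NU

open CategoryTheory Limits AlgebraicGeometry TopologicalSpace IsLocalRing

-- BEGIN SC1a
/-- A point of `regOpen Y` has a regular local ring. -/
theorem isRegular_of_mem {Y : Scheme.{0}} {y : Y} (h : y ∈ regOpen Y) :
    IsRegularLocalRing (Y.presheaf.stalk y) := by
  obtain ⟨U, hU, hy⟩ := TopologicalSpace.Opens.mem_sSup.mp h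
  exact hU y hy
-- END SC1a

-- BEGIN SC1b
/-- PROOF.  `U ≤ sSup`. -/
theorem le_regOpen {Y : Scheme.{0}} {U : Y.Opens}
    (h : ∀ y ∈ U, IsRegularLocalRing (Y.presheaf.stalk y)) : U ≤ regOpen Y :=
  le_sSup h
-- END SC1b

-- BEGIN SC1c
/-- The affine criterion. -/
theorem mem_regOpen_of_affine {Y : Scheme.{0}} (U : Y.affineOpens) {y : Y} (hy : y ∈ U.1)
    (f : Γ(Y, U)) (hf : f ∉ (U.2.primeIdealOf ⟨y, hy⟩).asIdeal)
    (h : ∀ 𝔰 : PrimeSpectrum Γ(Y, U), f ∉ 𝔰.asIdeal →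
      IsRegularLocalRing (Localization.AtPrime 𝔰.asIdeal)) : y ∈ regOpen Y := by
  have key : ∀ (z : Y) (hz : z ∈ U.1),
      z ∈ Y.basicOpen f ↔ f ∉ (U.2.primeIdealOf ⟨z, hz⟩).asIdeal := by
    intro z hz
    let _ := Y.presheaf.algebra_section_stalk ⟨z, hz⟩
    have := U.2.isLocalization_stalk ⟨z, hz⟩
    rw [Y.mem_basicOpen f z hz]
    exact IsLocalization.AtPrime.isUnit_to_map_iff (Y.presheaf.stalk z)
      (U.2.primeIdealOf ⟨z, hz⟩).asIdeal f
  refine le_regOpen (U := Y.basicOpen f) (fun z hz => ?_) ((key y hy).mpr hf)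
  have hzU : z ∈ U.1 := Y.basicOpen_le f hz
  let _ := Y.presheaf.algebra_section_stalk ⟨z, hzU⟩
  have := U.2.isLocalization_stalk ⟨z, hzU⟩
  have := h _ ((key z hzU).mp hz)
  exact IsRegularLocalRing.of_ringEquiv
    (IsLocalization.algEquiv (U.2.primeIdealOf ⟨z, hzU⟩).asIdeal.primeCompl
      (Localization.AtPrime (U.2.primeIdealOf ⟨z, hzU⟩).asIdeal)
      (Y.presheaf.stalk z)).toRingEquiv
-- END SC1c

-- BEGIN SC1d
/-- A point with finite residue field is closed. -/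
theorem isClosed_of_finite {Y : Scheme.{0}} {y : Y} (h : Finite (Y.residueField y)) :
    IsClosed ({y} : Set Y) := by
  refine isClosed_of_closure_subset fun z hz => ?_
  by_contra hne
  have hs : y ⤳ z := specializes_iff_mem_closure.mpr hz
  obtain ⟨_, ⟨U, hU, rfl⟩, hzU, -⟩ :=
    Y.isBasis_affineOpens.exists_subset_of_mem_open (Set.mem_univ z) isOpen_univ
  have hyU : y ∈ U := hs.mem_open U.2 hzU
  have h1 : ¬ z ⤳ y := fun h' => hne (h'.antisymm hs).eq
  rw [specializes_iff_forall_open] at h1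
  push Not at h1
  obtain ⟨V, hV, hyV, hzV⟩ := h1
  obtain ⟨f, hf1, hf2⟩ := hU.exists_basicOpen_le (V := ⟨V, hV⟩) ⟨y, hyV⟩ hyU
  have hf3 : z ∉ Y.basicOpen f := fun h' => hzV (hf1 h')
  have := Fintype.ofFinite (Y.residueField y)
  have h2 := FiniteField.pow_card_sub_one_eq_one _
    ((Y.evaluation_ne_zero_iff_mem_basicOpen y hyU f).mpr hf2)
  have hq : Fintype.card (Y.residueField y) - 1 ≠ 0 :=
    Nat.sub_ne_zero_of_lt Fintype.one_lt_card
  refine (Y.evaluation_eq_zero_iff_notMem_basicOpen y hyU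
    (f ^ (Fintype.card (Y.residueField y) - 1) - 1)).mp (by rw [map_sub, map_pow, h2]; simp)
    (hs.mem_open (Y.basicOpen _).2
      ((Y.evaluation_ne_zero_iff_mem_basicOpen z hzU _).mp ?_))
  rw [map_sub, map_pow, (Y.evaluation_eq_zero_iff_notMem_basicOpen z hzU f).mpr hf3,
    zero_pow hq]
  simp
-- END SC1d

-- BEGIN SC1e
theorem not_charZ_of_finite {Y : Scheme.{0}} {y : Y} (h : Finite (Y.residueField y)) :
    ¬ CharZ Y y := by
  intro hc
  have h1 := (hc _ (Nat.card_pos (α := Y.residueField y)).ne').map (Y.residue y).hom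
  rw [map_natCast, ← nsmul_one, card_nsmul_eq_zero'] at h1
  exact not_isUnit_zero h1
-- END SC1e

-- BEGIN SC1f
theorem sc1f_aux (R : Type) [CommRing R] [hR : Algebra.FiniteType ℤ R] (q : ℕ) :
    {𝔪 : PrimeSpectrum R | Finite (R ⧸ 𝔪.asIdeal) ∧ Nat.card (R ⧸ 𝔪.asIdeal) = q}.Finite := by
  rcases Set.eq_empty_or_nonempty {𝔪 : PrimeSpectrum R | Finite (R ⧸ 𝔪.asIdeal) ∧
    Nat.card (R ⧸ 𝔪.asIdeal) = q} with h | ⟨𝔫, hn, hq⟩
  · rw [h]
    exact Set.finite_empty
  have key : ∀ 𝔪 : PrimeSpectrum R, Finite (R ⧸ 𝔪.asIdeal) → 𝔪.asIdeal.IsMaximal := fun 𝔪 _ =>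
    Ideal.Quotient.maximal_of_isField _ (Finite.isField_of_domain _)
  have := key 𝔫 hn
  let _ := Ideal.Quotient.field 𝔫.asIdeal
  obtain ⟨S, hS⟩ := hR.1
  have : Finite (R →ₐ[ℤ] R ⧸ 𝔫.asIdeal) := Finite.of_injective (fun f (s : S) => f s)
    fun f g e => AlgHom.ext_of_adjoin_eq_top hS fun s hs => congrFun e ⟨s, hs⟩
  refine (Set.finite_range fun f : R →ₐ[ℤ] R ⧸ 𝔫.asIdeal =>
    (⟨RingHom.ker f, RingHom.ker_isPrime f⟩ : PrimeSpectrum R)).subset ?_
  rintro 𝔪 ⟨hm, hq'⟩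
  have := key 𝔪 hm
  let _ := Ideal.Quotient.field 𝔪.asIdeal
  have := Fintype.ofFinite (R ⧸ 𝔫.asIdeal)
  have := Fintype.ofFinite (R ⧸ 𝔪.asIdeal)
  let e : R ⧸ 𝔪.asIdeal ≃+* R ⧸ 𝔫.asIdeal := FiniteField.ringEquivOfCardEq (by
    rw [← Nat.card_eq_fintype_card, ← Nat.card_eq_fintype_card, hq, hq'])
  refine ⟨(e.toRingHom.comp (Ideal.Quotient.mk _)).toIntAlgHom, PrimeSpectrum.ext
    (Ideal.ext fun x => ?_)⟩
  change e (Ideal.Quotient.mk _ x) = 0 ↔ _
  rw [map_eq_zero_iff e e.injective, Ideal.Quotient.eq_zero_iff_mem]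

theorem finite_primes (R : Type) [CommRing R] [Algebra.FiniteType ℤ R] (i : ℕ) :
    {𝔪 : PrimeSpectrum R | Finite (R ⧸ 𝔪.asIdeal) ∧ Nat.card (R ⧸ 𝔪.asIdeal) ≤ i}.Finite :=
  ((Set.finite_Iic i).biUnion fun q _ => sc1f_aux R q).subset fun _ h =>
    Set.mem_biUnion (Set.mem_Iic.2 h.2) ⟨h.1, rfl⟩
-- END SC1f

-- BEGIN SC1g
/-- PROOF.  See `finite_primes`. -/
theorem finite_points {Y : Scheme.{0}} [CompactSpace Y]
    (hft : ∀ U : Y.affineOpens, Algebra.FiniteType ℤ Γ(Y, U)) (i : ℕ) :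
    {y : Y | Finite (Y.residueField y) ∧ Nat.card (Y.residueField y) ≤ i}.Finite := by
  obtain ⟨s, hs, e⟩ := isCompact_iff_finite_and_eq_biUnion_affineOpens.mp
    (show IsCompact (X := Y) ((⊤ : Y.Opens) : Set Y) from CompactSpace.isCompact_univ)
  refine (hs.biUnion fun U _ ↦ (@finite_primes Γ(Y, U) _ (hft U) i).image U.2.fromSpec).subset ?_
  rintro y ⟨hy, hi⟩
  have hyt : y ∈ ⨆ i ∈ s, (i : Y.Opens) := e ▸ Opens.mem_top y
  simp only [Opens.mem_iSup] at hyt
  obtain ⟨U, hU, hyU⟩ := hyt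
  have hk : RingHom.ker (Y.evaluation U y hyU).hom = (U.2.primeIdealOf ⟨y, hyU⟩).asIdeal := by
    ext f
    have h1 := SetLike.ext_iff.1 (U.2.fromSpec_preimage_basicOpen f) (U.2.primeIdealOf ⟨y, hyU⟩)
    have h2 : y ∈ Y.basicOpen f ↔ U.2.fromSpec (U.2.primeIdealOf ⟨y, hyU⟩) ∈ Y.basicOpen f := by
      rw [U.2.fromSpec_primeIdealOf]
    rw [RingHom.mem_ker]
    refine (Y.evaluation_eq_zero_iff_notMem_basicOpen y hyU f).trans ?_
    exact (not_congr (h2.trans h1)).trans not_not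
  have hinj : Function.Injective (Ideal.Quotient.lift _ (Y.evaluation U y hyU).hom
      fun a ha ↦ (hk ▸ ha : a ∈ RingHom.ker (Y.evaluation U y hyU).hom)) :=
    RingHom.lift_injective_of_ker_le_ideal _ _ hk.le
  simp only [Set.mem_iUnion]
  exact ⟨U, hU, U.2.primeIdealOf ⟨y, hyU⟩, ⟨Finite.of_injective _ hinj,
    (Nat.card_le_card_of_injective _ hinj).trans hi⟩, U.2.fromSpec_primeIdealOf ⟨y, hyU⟩⟩
-- END SC1g

end Pool.Agent.Lib.MP_6a3dac_ag.NU
end

section

/-!
# NU: closed points of the generic fibre specializing to a closed point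
-/

set_option autoImplicit false

namespace Pool.Agent.Lib.MP_6a3dac_ag.NU

-- BEGIN EXa
/-- A maximal ideal which is minimal over a prime number `p`: the fraction field is algebraic. -/
theorem isAlgebraic_of_minimal (D : Type) [CommRing D] [IsDomain D] [CharZero D]
    [Algebra.FiniteType ℤ D] (𝔪 : Ideal D) [𝔪.IsMaximal] (p : ℕ) (hp : (p : D) ∈ 𝔪)
    (hp0 : p ≠ 0) (hp1 : p.Prime)
    (hmin : ∀ 𝔮 : Ideal D, 𝔮.IsPrime → (p : D) ∈ 𝔮 → 𝔮 ≤ 𝔪 → 𝔮 = 𝔪) :
    ∀ x : D, IsAlgebraic ℤ x := by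
  classical
  have : IsNoetherianRing D := Algebra.FiniteType.isNoetherianRing ℤ D
  have hfin := (Ideal.span {(p : D)}).finite_minimalPrimes_of_isNoetherianRing D
  have hle : ¬ ((hfin.toFinset.erase 𝔪).inf id ≤ 𝔪) := fun h => by
    obtain ⟨𝔯, h1, h2⟩ := (Ideal.IsPrime.inf_le' ‹𝔪.IsMaximal›.isPrime).1 h
    obtain ⟨h1, h3⟩ := Finset.mem_erase.1 h1
    rw [Set.Finite.mem_toFinset] at h3
    exact h1 (hmin 𝔯 h3.1.1 (h3.1.2 (Ideal.mem_span_singleton_self _)) h2)
  obtain ⟨f, hf, hf𝔪⟩ := SetLike.not_le_iff_exists.1 hle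
  have key : ∀ 𝔮 : Ideal D, 𝔮.IsPrime → (p : D) ∈ 𝔮 → f ∉ 𝔮 → 𝔮 = 𝔪 := fun 𝔮 h𝔮 hp𝔮 hf𝔮 => by
    obtain ⟨𝔯, h1, h2⟩ := Ideal.exists_minimalPrimes_le (I := Ideal.span {(p : D)}) (J := 𝔮)
      (by simpa [Ideal.span_le] using hp𝔮)
    have h3 : 𝔯 = 𝔪 := by
      by_contra h3
      exact hf𝔮 (h2 ((Finset.inf_le (f := id)
        (Finset.mem_erase.2 ⟨h3, hfin.mem_toFinset.2 h1⟩) : _ ≤ 𝔯) hf))
    exact (‹𝔪.IsMaximal›.eq_of_le h𝔮.ne_top (h3 ▸ h2)).symm
  have hqf : Algebra.QuasiFiniteAt ℤ 𝔪 :=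
    Algebra.QuasiFiniteAt.of_isOpen_singleton_fiber (R := ℤ)
      (⟨𝔪, ‹𝔪.IsMaximal›.isPrime⟩ : PrimeSpectrum D) (by
      convert (PrimeSpectrum.isOpen_basicOpen (a := f)).preimage continuous_subtype_val using 1
      ext ⟨q, hq⟩
      refine ⟨fun h => ?_, fun h => ?_⟩
      · rw [Set.mem_singleton_iff, Subtype.mk.injEq] at h
        simpa [h] using hf𝔪
      · refine Subtype.ext (PrimeSpectrum.ext (key _ q.2 ?_ h))
        have h1 : ((p : ℤ) : D) ∈ q.asIdeal := by
          have h2 : (p : ℤ) ∈ (PrimeSpectrum.comap (algebraMap ℤ D) q).asIdeal := by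
            rw [Set.mem_preimage, Set.mem_singleton_iff] at hq
            rw [hq]
            simpa using hp
          simpa using h2
        simpa using h1)
  intro x
  obtain ⟨r, hr, hr1, hr2⟩ := Algebra.zariskisMainProperty_iff.1
    (Algebra.ZariskisMainProperty.of_finiteType (R := ℤ) 𝔪)
  obtain ⟨m, hm⟩ := hr2 x
  have hr0 : r ≠ 0 := fun h => hr (h ▸ 𝔪.zero_mem)
  exact IsAlgebraic.of_mul (mem_nonZeroDivisors_of_ne_zero (pow_ne_zero m hr0))
    (hr1.pow m).isAlgebraic hm.isAlgebraic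
-- END EXa

-- BEGIN EXb
/-- A Noetherian domain with a maximal ideal `𝔪 ∋ p` which is not minimal over `p` has a nonzero
prime ideal contained in `𝔪` not containing `p`. -/
theorem exists_prime_not_mem (D : Type) [CommRing D] [IsDomain D] [IsNoetherianRing D]
    (𝔪 : Ideal D) [𝔪.IsPrime] {p : D} (hp : p ∈ 𝔪) (hp0 : p ≠ 0) {𝔮 : Ideal D} (h𝔮 : 𝔮.IsPrime)
    (hp𝔮 : p ∈ 𝔮) (hlt : 𝔮 < 𝔪) :
    ∃ 𝔭 : Ideal D, 𝔭.IsPrime ∧ 𝔭 ≤ 𝔪 ∧ 𝔭 ≠ ⊥ ∧ p ∉ 𝔭 := by
  classical
  have hfin := (Ideal.span {p}).finite_minimalPrimes_of_isNoetherianRing D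
  have hsp : ∀ (x : D) (I : Ideal D), x ∈ I → Ideal.span {x} ≤ I := fun x I h => by
    simpa [Ideal.span_le] using h
  obtain ⟨f, hf𝔪, hf⟩ : ∃ f ∈ 𝔪, ∀ 𝔯 ∈ (Ideal.span {p}).minimalPrimes, f ∉ 𝔯 := by
    by_contra! h
    obtain ⟨𝔯, h1, h2⟩ := (Ideal.subset_union_prime (s := hfin.toFinset) (f := id) (I := 𝔪) ⊥ ⊥
      (fun i hi _ _ => ((hfin.mem_toFinset.1 hi).1.1 : i.IsPrime))).1 (fun x hx => by
        obtain ⟨𝔯, h1, h2⟩ := h x hx
        exact Set.mem_biUnion (by simpa using h1) h2)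
    exact not_le_of_gt hlt (h2.trans ((hfin.mem_toFinset.1 h1).2 ⟨h𝔮, hsp _ _ hp𝔮⟩
      (hlt.le.trans h2)))
  obtain ⟨𝔯, h𝔯, h𝔯𝔮⟩ := Ideal.exists_minimalPrimes_le (hsp _ _ hp𝔮)
  obtain ⟨𝔭, h𝔭, h𝔭𝔪⟩ := Ideal.exists_minimalPrimes_le (hsp _ _ hf𝔪)
  have hht := Ideal.height_le_one_of_isPrincipal_of_mem_minimalPrimes _ 𝔭 h𝔭
  have h1 : 𝔭.IsPrime := h𝔭.1.1
  have hf𝔭 : f ∈ 𝔭 := h𝔭.1.2 (Ideal.mem_span_singleton_self f)
  refine ⟨𝔭, h1, h𝔭𝔪, fun h => hf 𝔯 h𝔯 ?_, fun hp𝔭 => ?_⟩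
  · rw [h, Ideal.mem_bot] at hf𝔭
    exact hf𝔭 ▸ 𝔯.zero_mem
  obtain ⟨𝔰, h𝔰, h𝔰𝔭⟩ := Ideal.exists_minimalPrimes_le (hsp _ _ hp𝔭)
  have h2 : 𝔰.IsPrime := h𝔰.1.1
  have h3 := (Ideal.height_add_one_le_of_lt_of_isPrime
    (lt_of_le_of_ne h𝔰𝔭 (fun h => hf 𝔰 h𝔰 (h ▸ hf𝔭)))).trans hht
  have h4 : 𝔰 = ⊥ := by
    rw [← Ideal.height_eq_zero_iff_eq_bot]
    by_contra h4
    have h5 := Order.one_le_iff_pos.2 (pos_iff_ne_zero.2 h4)
    have h6 := (add_le_add_left h5 1).trans h3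
    exact absurd h6 (by norm_num)
  exact hp0 (by simpa [h4] using h𝔰.1.2 (Ideal.mem_span_singleton_self p))
-- END EXb

-- BEGIN EXc
/-- Every maximal ideal over `p` contains a prime ideal of a closed point of the generic fibre. -/
theorem exists_arc_prime (R : Type) [CommRing R] [IsDomain R] [CharZero R]
    [Algebra.FiniteType ℤ R] (𝔪 : Ideal R) [𝔪.IsMaximal] (p : ℕ) (hp : (p : R) ∈ 𝔪)
    (hp1 : p.Prime) :
    ∃ 𝔭 : Ideal R, 𝔭.IsPrime ∧ 𝔭 ≤ 𝔪 ∧ (∀ n : ℕ, n ≠ 0 → (n : R) ∉ 𝔭) ∧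
      ∀ x : R, IsAlgebraic ℤ (Ideal.Quotient.mk 𝔭 x) := by
  have hN : IsNoetherianRing R := Algebra.FiniteType.isNoetherianRing ℤ R
  obtain ⟨𝔭, ⟨h𝔭, h𝔭𝔪, hp𝔭⟩, hmax⟩ := set_has_maximal_iff_noetherian.2 hN
    {𝔭 : Ideal R | 𝔭.IsPrime ∧ 𝔭 ≤ 𝔪 ∧ (p : R) ∉ 𝔭}
    ⟨⊥, Ideal.isPrime_bot, bot_le, by simpa using hp1.ne_zero⟩
  have hn : ∀ n : ℕ, n ≠ 0 → (n : R) ∉ 𝔭 := fun n hn0 hn𝔭 => by
    obtain ⟨e, m, hm, rfl⟩ := Nat.exists_eq_pow_mul_and_not_dvd hn0 p hp1.ne_one
    rw [Nat.cast_mul, Nat.cast_pow] at hn𝔭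
    rcases h𝔭.mem_or_mem hn𝔭 with h | h
    · exact hp𝔭 (h𝔭.mem_of_pow_mem _ h)
    · obtain ⟨a, b, hab⟩ := ((Nat.Prime.coprime_iff_not_dvd hp1).2 hm).cast (R := R)
      exact ‹𝔪.IsMaximal›.ne_top ((Ideal.eq_top_iff_one _).2
        (hab ▸ 𝔪.add_mem (𝔪.mul_mem_left a hp) (𝔪.mul_mem_left b (h𝔭𝔪 h))))
  have hc : CharZero (R ⧸ 𝔭) := charZero_of_inj_zero fun n h => by
    by_contra hn0
    exact hn n hn0 (Ideal.Quotient.eq_zero_iff_mem.1 (by simpa using h))
  have hs : Function.Surjective (Ideal.Quotient.mk 𝔭) := Ideal.Quotient.mk_surjective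
  have hE : Ideal.instAlgebraQuotient ℤ 𝔭 = Ring.toIntAlgebra (R ⧸ 𝔭) := Subsingleton.elim _ _
  have hft : Algebra.FiniteType ℤ (R ⧸ 𝔭) := Algebra.FiniteType.of_surjective
    (Ideal.Quotient.mkₐ ℤ 𝔭) hs
  rw [hE] at hft
  have hcm : (𝔪.map (Ideal.Quotient.mk 𝔭)).comap (Ideal.Quotient.mk 𝔭) = 𝔪 := by
    rw [Ideal.comap_map_of_surjective _ hs, ← RingHom.ker_eq_comap_bot, Ideal.mk_ker,
      sup_eq_left.2 h𝔭𝔪]
  have hM : (𝔪.map (Ideal.Quotient.mk 𝔭)).IsMaximal :=
    (Ideal.map_eq_top_or_isMaximal_of_surjective _ hs ‹_›).resolve_left fun h =>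
      ‹𝔪.IsMaximal›.ne_top (by rw [← hcm, h, Ideal.comap_top])
  have hpm : (p : R ⧸ 𝔭) ∈ 𝔪.map (Ideal.Quotient.mk 𝔭) := by
    simpa using Ideal.mem_map_of_mem (Ideal.Quotient.mk 𝔭) hp
  refine ⟨𝔭, h𝔭, h𝔭𝔪, hn, ?_⟩
  rw [hE]
  refine fun x => isAlgebraic_of_minimal (R ⧸ 𝔭) (𝔪.map (Ideal.Quotient.mk 𝔭)) p
    hpm hp1.ne_zero hp1 (fun 𝔮 h𝔮 hp𝔮 hle => ?_) _
  by_contra hne
  obtain ⟨𝔭₁, h1, h2, h3, h4⟩ := exists_prime_not_mem (R ⧸ 𝔭) (𝔪.map (Ideal.Quotient.mk 𝔭))
    hpm (Nat.cast_ne_zero.2 hp1.ne_zero) h𝔮 hp𝔮 (lt_of_le_of_ne hle hne)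
  refine hmax (𝔭₁.comap (Ideal.Quotient.mk 𝔭)) ⟨h1.comap _, hcm ▸ Ideal.comap_mono h2,
    fun h => h4 (by simpa using h)⟩ (lt_of_le_of_ne ?_ fun h => h3 ?_)
  · intro y hy
    rw [Ideal.mem_comap, Ideal.Quotient.eq_zero_iff_mem.2 hy]
    exact 𝔭₁.zero_mem
  · rw [← Ideal.map_comap_of_surjective _ hs 𝔭₁, ← h, Ideal.map_quotient_self]
-- END EXc

end Pool.Agent.Lib.MP_6a3dac_ag.NU
end

section

/-!
# NU: integral extensions of Dedekind domains, without separability

The local rings of an integrally closed integral extension of a Dedekind domain, inside a finite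
extension of the field of fractions, are discrete valuation rings.
-/

set_option autoImplicit false

namespace Pool.Agent.Lib.MP_6a3dac_ag.NU

open IsLocalRing

-- BEGIN WKAa
/-- The `u`, `u⁻¹` theorem. -/
theorem wka_uinv {R L : Type} [CommRing R] [IsDomain R] [IsLocalRing R] [IsIntegrallyClosed R]
    [Field L] [Algebra R L] [IsFractionRing R L] (u : L) (n : ℕ) :
    ∀ f : Polynomial R, f.natDegree ≤ n → Polynomial.aeval u f = 0 → (∃ i, IsUnit (f.coeff i)) →
      (∃ r, algebraMap R L r = u) ∨ ∃ r, algebraMap R L r = u⁻¹ := by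
  induction n with
  | zero =>
    intro f hf h0 ⟨i, hi⟩
    exfalso
    rw [Polynomial.eq_C_of_natDegree_le_zero hf, Polynomial.aeval_C] at h0
    have h1 := (map_eq_zero_iff _ (IsFractionRing.injective R L)).1 h0
    rcases i with _ | i
    · rw [h1] at hi
      exact not_isUnit_zero hi
    · rw [Polynomial.coeff_eq_zero_of_natDegree_lt (by omega)] at hi
      exact not_isUnit_zero hi
  | succ n ih =>
    intro f hf h0 ⟨i, hi⟩
    rcases eq_or_ne (f.coeff (n + 1)) 0 with ha | ha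
    · refine ih f ?_ h0 ⟨i, hi⟩
      by_contra hlt
      have h1 : f.natDegree = n + 1 := by omega
      have h2 : f.leadingCoeff = 0 := by rw [Polynomial.leadingCoeff, h1, ha]
      rw [Polynomial.leadingCoeff_eq_zero] at h2
      rw [h2, Polynomial.natDegree_zero] at h1
      omega
    have hd : f.natDegree = n + 1 := le_antisymm hf (Polynomial.le_natDegree_of_ne_zero ha)
    have hint : IsIntegral R (f.leadingCoeff • u) := isIntegral_leadingCoeff_smul f u h0
    obtain ⟨b, hb⟩ := IsIntegrallyClosed.algebraMap_eq_of_integral hint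
    rw [Polynomial.leadingCoeff, hd, Algebra.smul_def] at hb
    by_cases hau : IsUnit (f.coeff (n + 1))
    · obtain ⟨v, hv⟩ := hau.exists_left_inv
      refine Or.inl ⟨v * b, ?_⟩
      rw [map_mul, hb, ← mul_assoc, ← map_mul, hv, map_one, one_mul]
    have hg0 : Polynomial.aeval u (f.eraseLead + Polynomial.monomial n b) = 0 := by
      have h1 := f.eraseLead_add_monomial_natDegree_leadingCoeff
      have h2 : Polynomial.aeval u f.eraseLead = -(algebraMap R L (f.coeff (n + 1)) * u ^ (n + 1)) := by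
        have h3 := congrArg (Polynomial.aeval u) h1
        rw [map_add, h0, Polynomial.aeval_monomial, Polynomial.leadingCoeff, hd] at h3
        exact eq_neg_of_add_eq_zero_left h3
      rw [map_add, h2, Polynomial.aeval_monomial, hb, pow_succ]
      ring
    have hgd : (f.eraseLead + Polynomial.monomial n b).natDegree ≤ n := by
      refine (Polynomial.natDegree_add_le _ _).trans (max_le ?_ (Polynomial.natDegree_monomial_le b))
      have := f.eraseLead_natDegree_le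
      omega
    have hc : ∀ j, (f.eraseLead + Polynomial.monomial n b).coeff j =
        (if j = n + 1 then 0 else f.coeff j) + if n = j then b else 0 := fun j => by
      rw [Polynomial.coeff_add, Polynomial.eraseLead_coeff, hd, Polynomial.coeff_monomial]
    have hin : i ≠ n + 1 := fun h => hau (h ▸ hi)
    by_cases hi' : i = n
    · subst hi'
      by_cases hu : IsUnit (f.coeff i + b)
      · refine ih _ hgd hg0 ⟨i, ?_⟩
        rw [hc, if_neg hin, if_pos rfl]
        exact hu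
      · have hbu : IsUnit b := by
          by_contra hbu
          have h1 : f.coeff i ∈ maximalIdeal R := by
            have := (maximalIdeal R).sub_mem (show f.coeff i + b ∈ maximalIdeal R from hu)
              (show b ∈ maximalIdeal R from hbu)
            rwa [add_sub_cancel_right] at this
          exact h1 hi
        obtain ⟨v, hv⟩ := hbu.exists_left_inv
        refine Or.inr ⟨v * f.coeff (i + 1), ?_⟩
        refine eq_inv_of_mul_eq_one_left ?_
        rw [map_mul, mul_assoc, ← hb, ← map_mul, hv, map_one]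
    · refine ih _ hgd hg0 ⟨i, ?_⟩
      rw [hc, if_neg hin, if_neg (Ne.symm hi'), add_zero]
      exact hi
-- END WKAa

-- BEGIN WKAb
/-- The coefficients of a nonzero family over a discrete valuation ring, divided by their greatest
common divisor. -/
theorem wka_content {O ι : Type} [CommRing O] [IsDomain O] [IsDiscreteValuationRing O] [Fintype ι]
    (c : ι → O) (hc : ∃ i, c i ≠ 0) :
    ∃ (d : O) (h : ι → O), d ≠ 0 ∧ (∀ i, c i = d * h i) ∧ ∃ i, IsUnit (h i) := by
  obtain ⟨d, hd⟩ := (IsPrincipalIdealRing.principal (Ideal.span (Set.range c))).principal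
  have h1 : ∀ i, ∃ h, c i = d * h := fun i => by
    have : c i ∈ Ideal.span {d} := by
      rw [← Ideal.submodule_span_eq, ← hd]
      exact Ideal.subset_span ⟨i, rfl⟩
    exact Ideal.mem_span_singleton.1 this
  choose h hh using h1
  have hd0 : d ≠ 0 := by
    rintro rfl
    obtain ⟨i, hi⟩ := hc
    exact hi (by rw [hh i, zero_mul])
  refine ⟨d, h, hd0, hh, ?_⟩
  have h2 : d ∈ Ideal.span (Set.range c) := by
    rw [hd]
    exact Ideal.mem_span_singleton_self d
  obtain ⟨a, ha⟩ := Ideal.mem_span_range_iff_exists_fun.1 h2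
  have h3 : ∑ i, a i * h i = 1 := by
    refine mul_left_cancel₀ hd0 ?_
    rw [mul_one, Finset.mul_sum]
    conv_rhs => rw [← ha]
    refine Finset.sum_congr rfl fun i _ => ?_
    rw [hh i]
    ring
  by_contra! hu
  have h4 : (1 : O) ∈ maximalIdeal O := by
    rw [← h3]
    exact Ideal.sum_mem _ fun i _ => Ideal.mul_mem_left _ _ (hu i)
  exact h4 isUnit_one
-- END WKAb

-- BEGIN WKAc
/-- An integrally closed local domain which is algebraic over a discrete valuation ring is a valuation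
ring. -/
theorem wka_valuationRing {O R : Type} [CommRing O] [IsDomain O] [IsDiscreteValuationRing O]
    [CommRing R] [IsDomain R] [IsLocalRing R] [IsIntegrallyClosed R] [Algebra O R]
    [FaithfulSMul O R] [Algebra.IsAlgebraic O R] : ValuationRing R := by
  classical
  let L := FractionRing R
  have : IsScalarTower O R L := inferInstance
  have hinj : Function.Injective (algebraMap O R) := FaithfulSMul.algebraMap_injective O R
  have halg : ∀ z : L, IsAlgebraic O z := by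
    intro z
    have : Algebra.IsAlgebraic R L := IsLocalization.isAlgebraic L (nonZeroDivisors R)
    have : Algebra.IsAlgebraic O L := Algebra.IsAlgebraic.trans O R L
    exact Algebra.IsAlgebraic.isAlgebraic z
  refine (ValuationRing.iff_isInteger_or_isInteger R L).2 fun u => ?_
  obtain ⟨P, hP, hP0⟩ := halg u
  obtain ⟨d, h, hd, hh, i₀, hi₀⟩ := wka_content (fun i : Fin (P.natDegree + 1) => P.coeff i) (by
    by_contra! hall
    refine hP (Polynomial.leadingCoeff_eq_zero.1 ?_)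
    have := hall (Fin.last _)
    simpa using this)
  let f : Polynomial R := ∑ i : Fin (P.natDegree + 1), Polynomial.monomial i (algebraMap O R (h i))
  have hfd : f.natDegree ≤ P.natDegree := Polynomial.natDegree_sum_le_of_forall_le _ _ fun i _ =>
    (Polynomial.natDegree_monomial_le _).trans (by omega)
  have hf0 : Polynomial.aeval u f = 0 := by
    have h1 : algebraMap O L d * Polynomial.aeval u f = 0 := by
      rw [← hP0, map_sum, Finset.mul_sum, Polynomial.aeval_eq_sum_range (p := P),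
        ← Fin.sum_univ_eq_sum_range fun i => P.coeff i • u ^ i]
      refine Finset.sum_congr rfl fun i _ => ?_
      rw [Polynomial.aeval_monomial, hh i, Algebra.smul_def, map_mul, mul_assoc,
        ← IsScalarTower.algebraMap_apply]
    refine (mul_eq_zero.1 h1).resolve_left fun h2 => hd ?_
    have h3 : algebraMap R L (algebraMap O R d) = 0 := by
      rw [← IsScalarTower.algebraMap_apply]
      exact h2
    exact (map_eq_zero_iff _ hinj).1 ((map_eq_zero_iff _ (IsFractionRing.injective R L)).1 h3)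
  have hfu : IsUnit (f.coeff i₀) := by
    have : f.coeff i₀ = algebraMap O R (h i₀) := by
      rw [Polynomial.finsetSum_coeff]
      simp only [Polynomial.coeff_monomial, Fin.val_inj]
      simp
    rw [this]
    exact hi₀.map _
  exact wka_uinv u _ f hfd hf0 ⟨_, hfu⟩
-- END WKAc

-- BEGIN WKAd
/-- A chain of proper divisors of a uniformizer is linearly independent. -/
theorem wka_chain {O R : Type} [CommRing O] [IsDomain O] [IsDiscreteValuationRing O]
    [CommRing R] [IsDomain R] [IsLocalRing R] [Algebra O R] [FaithfulSMul O R] {π : O}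
    (hπ : Irreducible π) {m : ℕ} (x : Fin m → R)
    (hx : ∀ i j, i < j → ∃ r ∈ maximalIdeal R, x j = r * x i)
    (hxπ : ∀ i, ∃ r ∈ maximalIdeal R, algebraMap O R π = r * x i) : LinearIndependent O x := by
  classical
  have hinj : Function.Injective (algebraMap O R) := FaithfulSMul.algebraMap_injective O R
  have hπ0 : algebraMap O R π ≠ 0 := fun h => hπ.ne_zero ((map_eq_zero_iff _ hinj).1 h)
  rw [Fintype.linearIndependent_iff]
  intro c hc
  by_contra hne
  push Not at hne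
  obtain ⟨d, h, hd, hh, hu⟩ := wka_content c hne
  have h0 : ∑ i, h i • x i = 0 := by
    have h1 : algebraMap O R d * ∑ i, h i • x i = 0 := by
      rw [← hc, Finset.mul_sum]
      refine Finset.sum_congr rfl fun i _ => ?_
      rw [hh i, Algebra.smul_def, Algebra.smul_def, map_mul, mul_assoc]
    exact (mul_eq_zero.1 h1).resolve_left fun h2 => hd ((map_eq_zero_iff _ hinj).1 h2)
  obtain ⟨i₀, hi₀, hmin⟩ : ∃ i₀, IsUnit (h i₀) ∧ ∀ i < i₀, ¬ IsUnit (h i) := by
    let s : Finset (Fin m) := Finset.univ.filter fun i => IsUnit (h i)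
    have hs : s.Nonempty := by
      obtain ⟨i, hi⟩ := hu
      exact ⟨i, Finset.mem_filter.2 ⟨Finset.mem_univ _, hi⟩⟩
    refine ⟨s.min' hs, (Finset.mem_filter.1 (s.min'_mem hs)).2, fun i hi hui => ?_⟩
    exact absurd (s.min'_le i (Finset.mem_filter.2 ⟨Finset.mem_univ _, hui⟩)) (not_le.2 hi)
  have hx0 : x i₀ ≠ 0 := by
    intro h1
    obtain ⟨r, -, hr⟩ := hxπ i₀
    rw [h1, mul_zero] at hr
    exact hπ0 hr
  have hterm : ∀ i, i ≠ i₀ → ∃ r ∈ maximalIdeal R, h i • x i = r * x i₀ := by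
    intro i hi
    rcases lt_or_gt_of_ne hi with hlt | hgt
    · have h1 : h i ∈ maximalIdeal O := hmin i hlt
      rw [hπ.maximalIdeal_eq, Ideal.mem_span_singleton] at h1
      obtain ⟨q, hq⟩ := h1
      obtain ⟨r, hr, hr'⟩ := hxπ i₀
      refine ⟨algebraMap O R q * x i * r, Ideal.mul_mem_left _ _ hr, ?_⟩
      rw [Algebra.smul_def, hq, map_mul, hr']
      ring
    · obtain ⟨r, hr, hr'⟩ := hx i₀ i hgt
      refine ⟨algebraMap O R (h i) * r, Ideal.mul_mem_left _ _ hr, ?_⟩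
      rw [Algebra.smul_def, hr', mul_assoc]
  choose! r hr hr' using hterm
  have h1 : (algebraMap O R (h i₀) + ∑ i ∈ Finset.univ.erase i₀, r i) * x i₀ = 0 := by
    rw [← h0, ← Finset.add_sum_erase _ _ (Finset.mem_univ i₀), add_mul, Finset.sum_mul,
      Algebra.smul_def]
    congr 1
    refine Finset.sum_congr rfl fun i hi => ?_
    rw [hr' i (Finset.ne_of_mem_erase hi)]
  have h2 := (mul_eq_zero.1 h1).resolve_right hx0
  have h3 : algebraMap O R (h i₀) ∈ maximalIdeal R := by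
    rw [eq_neg_of_add_eq_zero_left h2]
    exact neg_mem (Ideal.sum_mem _ fun i hi => hr i (Finset.ne_of_mem_erase hi))
  exact h3 (hi₀.map _)
-- END WKAd

-- BEGIN WKAe
/-- **A valuation ring which is finite over a discrete valuation ring** (in the sense of the
ranks) is a discrete valuation ring. -/
theorem wka_dvr {O R : Type} [CommRing O] [IsDomain O] [IsDiscreteValuationRing O]
    [CommRing R] [IsDomain R] [ValuationRing R] [Algebra O R] [FaithfulSMul O R]
    [Algebra.IsAlgebraic O R] [IsLocalHom (algebraMap O R)] (n : ℕ)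
    (hn : ∀ (m : ℕ) (x : Fin m → R), LinearIndependent O x → m ≤ n) :
    IsDiscreteValuationRing R := by
  classical
  obtain ⟨π, hπ⟩ := IsDiscreteValuationRing.exists_irreducible O
  have hinj : Function.Injective (algebraMap O R) := FaithfulSMul.algebraMap_injective O R
  have hπ0 : algebraMap O R π ≠ 0 := fun h => hπ.ne_zero ((map_eq_zero_iff _ hinj).1 h)
  have hπm : algebraMap O R π ∈ maximalIdeal R := fun h =>
    hπ.not_isUnit (isUnit_of_map_unit (algebraMap O R) π h)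
  -- a descending chain `y 0 = π, y 1, ...` has bounded length
  have hch : ∀ y : ℕ → R, y 0 = algebraMap O R π →
      (∀ k, ∃ r ∈ maximalIdeal R, y k = r * y (k + 1)) → False := by
    intro y hy0 hy
    have hy' : ∀ k l, ∃ r ∈ maximalIdeal R, y k = r * y (k + l + 1) := by
      intro k l
      induction l with
      | zero => exact hy k
      | succ l ih =>
        obtain ⟨r, hr, h1⟩ := ih
        obtain ⟨r', hr', h2⟩ := hy (k + l + 1)
        refine ⟨r * r', Ideal.mul_mem_left _ _ hr', ?_⟩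
        rw [h1, h2]
        ring_nf
    have h1 := hn (n + 1) (fun i => y (n + 1 - i.1)) (wka_chain hπ _ ?_ ?_)
    · omega
    · intro i j hij
      obtain ⟨r, hr, h2⟩ := hy' (n + 1 - j.1) (j.1 - i.1 - 1)
      refine ⟨r, hr, h2.trans ?_⟩
      have hj := j.2
      have : n + 1 - j.1 + (j.1 - i.1 - 1) + 1 = n + 1 - i.1 := by
        have : i.1 < j.1 := hij
        omega
      rw [this]
    · intro i
      obtain ⟨r, hr, h2⟩ := hy' 0 (n - i.1)
      refine ⟨r, hr, ?_⟩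
      rw [← hy0, h2]
      have hi := i.2
      have : 0 + (n - i.1) + 1 = n + 1 - i.1 := by omega
      rw [this]
  -- the maximal ideal is principal
  obtain ⟨t, htm, ht⟩ : ∃ t ∈ maximalIdeal R, ∀ x ∈ maximalIdeal R, t ∣ x := by
    by_contra! hne
    have hstep : ∀ t : maximalIdeal R, ∃ x : maximalIdeal R, ∃ r ∈ maximalIdeal R,
        (t : R) = r * x := by
      rintro ⟨t, htm⟩
      obtain ⟨x, hx, hnd⟩ := hne t htm
      obtain ⟨c, hc | hc⟩ := ValuationRing.cond t x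
      · exact absurd ⟨c, hc.symm⟩ hnd
      · refine ⟨⟨x, hx⟩, c, fun hu => hnd ?_, by rw [mul_comm]; exact hc.symm⟩
        exact hu.dvd_mul_right.1 (hc ▸ dvd_rfl)
    choose nx r hr hnx using hstep
    exact hch (fun k => ((nx^[k] ⟨algebraMap O R π, hπm⟩ : maximalIdeal R) : R)) rfl fun k =>
      ⟨r _, hr _, by
        rw [Function.iterate_succ_apply']
        exact hnx _⟩
  have ht0 : t ≠ 0 := by
    rintro rfl
    exact hπ0 (zero_dvd_iff.1 (ht _ hπm))
  -- a power of `t` is a multiple of `π`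
  obtain ⟨e, he⟩ : ∃ e, algebraMap O R π ∣ t ^ e := by
    by_contra! hne
    have hd : ∀ k, ∃ y : R, algebraMap O R π = t ^ k * y := fun k => by
      obtain ⟨c, hc | hc⟩ := ValuationRing.cond (t ^ k) (algebraMap O R π)
      · exact ⟨c, hc.symm⟩
      · exact absurd ⟨c, hc.symm⟩ (hne k)
    choose y hy using hd
    refine hch y (by rw [hy 0, pow_zero, one_mul]) fun k => ⟨t, htm, ?_⟩
    refine mul_left_cancel₀ (pow_ne_zero k ht0) ?_
    rw [← hy k, hy (k + 1), pow_succ]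
    ring
  have hpow : ∀ x : R, x ≠ 0 → ∃ M, x ∣ t ^ M := by
    intro x hx
    obtain ⟨c, hc0, hc⟩ := (Algebra.IsAlgebraic.isAlgebraic (R := O) x).exists_nonzero_dvd
      (mem_nonZeroDivisors_of_ne_zero hx)
    obtain ⟨N, u, hu⟩ := IsDiscreteValuationRing.eq_unit_mul_pow_irreducible hc0 hπ
    refine ⟨e * N, hc.trans ?_⟩
    rw [hu, map_mul, map_pow, pow_mul]
    exact (u.isUnit.map (algebraMap O R)).mul_left_dvd.2 (pow_dvd_pow_of_dvd he N)
  have htirr : Irreducible t := by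
    refine ⟨htm, fun a b hab => ?_⟩
    by_contra! hnu
    obtain ⟨c, hc⟩ := ht a hnu.1
    have : (1 : R) - c * b = 0 := by
      refine (mul_eq_zero.1 (?_ : t * (1 - c * b) = 0)).resolve_left ht0
      rw [mul_sub, mul_one, ← mul_assoc, ← hc, ← hab, sub_self]
    exact hnu.2 (isUnit_iff_exists_inv'.2 ⟨c, (sub_eq_zero.1 this).symm⟩)
  refine IsDiscreteValuationRing.ofHasUnitMulPowIrreducibleFactorization
    ⟨t, htirr, fun {x} hx => ?_⟩
  obtain ⟨M, hM⟩ := hpow x hx
  have hex : ∃ k, ¬ t ^ k ∣ x := by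
    refine ⟨M + 1, fun h => ?_⟩
    have h1 := h.trans hM
    rw [pow_dvd_pow_iff ht0 htm] at h1
    omega
  have hk := Nat.find_spec hex
  obtain ⟨k, hk'⟩ : ∃ k, Nat.find hex = k + 1 := by
    refine Nat.exists_eq_succ_of_ne_zero fun h => ?_
    rw [h, pow_zero] at hk
    exact hk (one_dvd x)
  rw [hk'] at hk
  obtain ⟨y, hy⟩ : t ^ k ∣ x := by
    by_contra h
    have := Nat.find_min' hex h
    omega
  refine ⟨k, ?_⟩
  have hyu : IsUnit y := by
    by_contra hyu
    obtain ⟨z, hz⟩ := ht y hyu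
    exact hk ⟨z, by rw [hy, hz, pow_succ, mul_assoc]⟩
  obtain ⟨u, hu⟩ := hyu
  exact ⟨u, by rw [hu, hy]⟩
-- END WKAe

-- BEGIN WKAf
/-- **Krull–Akizuki, local form**: the local rings of an integrally closed integral extension of a
Dedekind domain inside a finite extension of the field of fractions, separable or not, are discrete
valuation rings. -/
theorem wka_localization {D₀ K₀ D L : Type} [CommRing D₀] [IsDedekindDomain D₀] [Field K₀]
    [Algebra D₀ K₀] [IsFractionRing D₀ K₀] [CommRing D] [IsDomain D] [IsIntegrallyClosed D]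
    [Algebra D₀ D] [FaithfulSMul D₀ D] [Algebra.IsIntegral D₀ D] [Field L] [Algebra D L]
    [IsFractionRing D L] [Algebra D₀ L] [IsScalarTower D₀ D L] [Algebra K₀ L]
    [IsScalarTower D₀ K₀ L] [FiniteDimensional K₀ L] (𝔩 : Ideal D) [𝔩.IsPrime] (h𝔩 : 𝔩 ≠ ⊥) :
    IsDiscreteValuationRing (Localization.AtPrime 𝔩) := by
  let 𝔭 : Ideal D₀ := 𝔩.under D₀
  have h𝔭 : 𝔭 ≠ ⊥ := by
    obtain ⟨x, hx, hx0⟩ := (Submodule.ne_bot_iff _).1 h𝔩
    exact Ideal.comap_ne_bot_of_integral_mem hx0 hx (Algebra.IsIntegral.isIntegral x)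
  have : 𝔭.IsPrime := Ideal.IsPrime.under D₀ 𝔩
  have hO : IsDiscreteValuationRing (Localization.AtPrime 𝔭) :=
    IsLocalization.AtPrime.isDiscreteValuationRing_of_dedekind_domain D₀ h𝔭 _
  let φ : Localization.AtPrime 𝔭 →+* Localization.AtPrime 𝔩 :=
    Localization.localRingHom 𝔭 𝔩 (algebraMap D₀ D) rfl
  have hφ (a : D₀) : φ (algebraMap D₀ _ a) = algebraMap D _ (algebraMap D₀ D a) :=
    Localization.localRingHom_to_map _ _ _ _ a
  have hφl : IsLocalHom φ := Localization.isLocalHom_localRingHom _ _ _ _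
  let := φ.toAlgebra
  have hl : IsLocalHom (algebraMap (Localization.AtPrime 𝔭) (Localization.AtPrime 𝔩)) := hφl
  have hR : IsIntegrallyClosed (Localization.AtPrime 𝔩) :=
    isIntegrallyClosed_of_isLocalization _ 𝔩.primeCompl 𝔩.primeCompl_le_nonZeroDivisors
  have hR' : IsDomain (Localization.AtPrime 𝔩) := inferInstance
  have hin : Function.Injective (algebraMap D (Localization.AtPrime 𝔩)) :=
    IsLocalization.injective _ 𝔩.primeCompl_le_nonZeroDivisors
  have hD₀ : Function.Injective (algebraMap D₀ D) := FaithfulSMul.algebraMap_injective D₀ D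
  have hφi : Function.Injective φ := by
    refine (injective_iff_map_eq_zero φ).2 fun z hz => ?_
    obtain ⟨a, s, rfl⟩ := IsLocalization.exists_mk'_eq 𝔭.primeCompl z
    have h1 : φ (algebraMap D₀ _ a) = 0 := by
      rw [← IsLocalization.mk'_spec (Localization.AtPrime 𝔭) a s, map_mul, hz, zero_mul]
    rw [hφ] at h1
    rw [hD₀ ((hin (h1.trans (map_zero _).symm)).trans (map_zero _).symm), IsLocalization.mk'_zero]
  have : FaithfulSMul (Localization.AtPrime 𝔭) (Localization.AtPrime 𝔩) :=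
    (faithfulSMul_iff_algebraMap_injective _ _).2 hφi
  -- the algebra structures over `D₀`
  have : IsScalarTower D₀ (Localization.AtPrime 𝔭) (Localization.AtPrime 𝔩) :=
    IsScalarTower.of_algebraMap_eq fun a => (hφ a).symm ▸ rfl
  have hle : 𝔩.primeCompl ≤ nonZeroDivisors D := 𝔩.primeCompl_le_nonZeroDivisors
  have hu : ∀ y : 𝔩.primeCompl, IsUnit (algebraMap D L y) := fun y =>
    IsLocalization.map_units L (⟨y.1, hle y.2⟩ : nonZeroDivisors D)
  let ψ : Localization.AtPrime 𝔩 →+* L := IsLocalization.lift hu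
  have hψ (a : D) : ψ (algebraMap D _ a) = algebraMap D L a := IsLocalization.lift_eq hu a
  have hψi : Function.Injective ψ := by
    refine (injective_iff_map_eq_zero ψ).2 fun z hz => ?_
    obtain ⟨a, s, rfl⟩ := IsLocalization.exists_mk'_eq 𝔩.primeCompl z
    have h1 : ψ (algebraMap D _ a) = 0 := by
      rw [← IsLocalization.mk'_spec (Localization.AtPrime 𝔩) a s, map_mul, hz, zero_mul]
    rw [hψ] at h1
    rw [(IsFractionRing.injective D L) (h1.trans (map_zero _).symm), IsLocalization.mk'_zero]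
  let ψ' : Localization.AtPrime 𝔩 →ₐ[D₀] L :=
    { ψ with
      commutes' := fun a => by
        change ψ (algebraMap D₀ (Localization.AtPrime 𝔩) a) = _
        rw [IsScalarTower.algebraMap_apply D₀ D (Localization.AtPrime 𝔩), hψ,
          ← IsScalarTower.algebraMap_apply] }
  have hD₀𝔭 : Function.Injective (algebraMap D₀ (Localization.AtPrime 𝔭)) :=
    IsLocalization.injective _ 𝔭.primeCompl_le_nonZeroDivisors
  have halg : Algebra.IsAlgebraic (Localization.AtPrime 𝔭) (Localization.AtPrime 𝔩) := by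
    refine ⟨fun z => ?_⟩
    have h1 : IsAlgebraic D₀ (ψ' z) :=
      (IsFractionRing.isAlgebraic_iff D₀ K₀ L).2 (Algebra.IsAlgebraic.isAlgebraic (ψ' z))
    have h2 : IsAlgebraic D₀ z := (isAlgebraic_algHom_iff ψ' hψi).1 h1
    exact h2.extendScalars hD₀𝔭
  have hV : ValuationRing (Localization.AtPrime 𝔩) :=
    wka_valuationRing (O := Localization.AtPrime 𝔭)
  refine wka_dvr (O := Localization.AtPrime 𝔭) (Module.finrank K₀ L) fun m x hx => ?_
  have h1 : LinearIndependent D₀ x := hx.restrict_scalars (by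
    intro a b hab
    simpa [Algebra.smul_def] using hD₀𝔭 (by simpa [Algebra.smul_def] using hab))
  have h2 : LinearIndependent D₀ (ψ' ∘ x) := h1.map' ψ'.toLinearMap
    (LinearMap.ker_eq_bot.2 hψi)
  have h3 : LinearIndependent K₀ (ψ' ∘ x) := (LinearIndependent.iff_fractionRing D₀ K₀).1 h2
  simpa using h3.fintype_card_le_finrank
-- END WKAf

end Pool.Agent.Lib.MP_6a3dac_ag.NU
end
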