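import Pool.Agent.Lib.MP_6a3dac_ag.NU.BU3
import Pool.Agent.Lib.MP_6a3dac_ag.Mg.G048
import Pool.Agent.Lib.MP_6a3dac_ag.Mg.G051
import Pool.Agent.Lib.MP_6a3dac_ag.Mg.G050
import Pool.Agent.Lib.MP_6a3dac_ag.Mg.G069

section

/-!
# NU: the blow-up of a finite set of closed points
-/

set_option autoImplicit false

namespace Pool.Agent.Lib.MP_6a3dac_ag.NU

open CategoryTheory Limits AlgebraicGeometry TopologicalSpace

/-- `b` is the blow-up in the ideal sheaf `J`. -/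
def IsBl {Y B : Scheme.{0}} (J : Y.IdealSheafData) (b : B ⟶ Y) : Prop :=
  ∀ U : Y.affineOpens, ∃ ι : blProj (J.ideal U) ⟶ B,
    IsOpenImmersion ι ∧ IsPullback ι (blAff J U) b U.1.ι

-- BEGIN BU5a
theorem IsBl.isProper {Y B : Scheme.{0}} {J : Y.IdealSheafData} {b : B ⟶ Y} (h : IsBl J b)
    [IsLocallyNoetherian Y] : IsProper b := by
  refine IsZariskiLocalAtTarget.of_iSup_eq_top (P := @IsProper) _ (iSup_affineOpens_eq_top Y)
    fun U => ?_
  obtain ⟨ι, -, hι⟩ := h U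
  have : IsNoetherianRing Γ(Y, U) := IsLocallyNoetherian.component_noetherian U
  have h1 := isProper_blTo (J.ideal U)
  have h2 : IsProper (blAff J U) := MorphismProperty.comp_mem @IsProper _ _ h1 inferInstance
  have h3 := (isPullback_morphismRestrict b U.1).flip
  have h4 := h3.isoIsPullback_hom_snd _ _ hι
  rw [← h4]
  exact MorphismProperty.comp_mem @IsProper _ _ inferInstance h2
-- END BU5a

-- BEGIN BU5b
theorem bu5b_aff {Y : Scheme.{0}} (J : Y.IdealSheafData) (V : Y.affineOpens)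
    (hV : J.ideal V = ⊤) : IsIso (blAff J V) := by
  have h1 : IsIso (blTo (J.ideal V)) := by
    rw [hV]
    exact isIso_blTo_top
  unfold blAff
  infer_instance

/-- The blow-up is an isomorphism where the ideal is trivial. -/
theorem IsBl.isIso {Y B : Scheme.{0}} {J : Y.IdealSheafData} {b : B ⟶ Y} (h : IsBl J b)
    (U : Y.Opens) (hU : ∀ V : Y.affineOpens, V.1 ≤ U → J.ideal V = ⊤) : IsIso (b ∣_ U) := by
  have h1 : (MorphismProperty.isomorphisms Scheme.{0}) (b ∣_ U) := by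
    rw [IsZariskiLocalAtTarget.iff_of_iSup_eq_top (P := MorphismProperty.isomorphisms Scheme.{0})
      (fun V : {V : Y.affineOpens // V.1 ≤ U} => U.ι ⁻¹ᵁ V.1.1) ?_]
    · rintro ⟨V, hV⟩
      refine ((MorphismProperty.isomorphisms Scheme.{0}).arrow_mk_iso_iff
        (morphismRestrictRestrict b U (U.ι ⁻¹ᵁ V.1))).2 ?_
      have h2 : U.ι ''ᵁ U.ι ⁻¹ᵁ V.1 = V.1 := by
        rw [Scheme.Hom.image_preimage_eq_opensRange_inf, Scheme.Opens.opensRange_ι]
        exact inf_eq_right.2 hV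
      rw [h2]
      obtain ⟨ι, -, h3⟩ := h V
      have h5 := bu5b_aff J V (hU V hV)
      have h6 := IsPullback.isoIsPullback_hom_fst _ _ (isPullback_morphismRestrict b V.1) h3.flip
      change IsIso (b ∣_ V.1)
      rw [← h6]
      infer_instance
    · rw [eq_top_iff]
      rintro x -
      obtain ⟨V, hV, hxV, hVU⟩ := (Y.isBasis_affineOpens).exists_subset_of_mem_open x.2 U.2
      obtain ⟨V, hV, rfl⟩ := hV
      exact TopologicalSpace.Opens.mem_iSup.2 ⟨⟨⟨V, hV⟩, hVU⟩, hxV⟩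
  exact h1
-- END BU5b

-- BEGIN BU5c
theorem bu5c_qt {Y B : Scheme.{0}} {b : B ⟶ Y} {R : Type} [CommRing R] {I : Ideal R}
    (j : Spec (CommRingCat.of R) ⟶ Y) [IsOpenImmersion j] (ι : blProj I ⟶ B) [IsOpenImmersion ι]
    (h : ι ≫ b = blTo I ≫ j) (y : blProj I) (hqt : IsQT ((blTo I).stalkMap y).hom) :
    IsQT (b.stalkMap (ι y)).hom := by
  obtain ⟨e, he⟩ : ∃ e : (Y.presheaf.stalk (b (ι y))) ≅
      (Spec (CommRingCat.of R)).presheaf.stalk (blTo I y),
      b.stalkMap (ι y) ≫ ι.stalkMap y = e.hom ≫ (blTo I).stalkMap y := by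
    refine ⟨Y.presheaf.stalkCongr (.of_eq (by
      rw [← Scheme.Hom.comp_apply, h, Scheme.Hom.comp_apply])) ≪≫
      asIso (j.stalkMap (blTo I y)), ?_⟩
    rw [← Scheme.Hom.stalkMap_comp, Scheme.Hom.stalkMap_congr_hom _ _ h, Scheme.Hom.stalkMap_comp]
    simp
  refine IsQT.congr e.symm.commRingCatIsoToRingEquiv
    (asIso (ι.stalkMap y)).symm.commRingCatIsoToRingEquiv ?_ hqt
  intro a
  have h1 : (blTo I).stalkMap y ≫ inv (ι.stalkMap y) = e.inv ≫ b.stalkMap (ι y) := by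
    rw [Iso.eq_inv_comp, ← Category.assoc, ← he, Category.assoc, IsIso.hom_inv_id,
      Category.comp_id]
  exact congrArg (fun f => f.hom a) h1

/-- The local rings of the blow-up over the centre. -/
theorem IsBl.isQT {Y B : Scheme.{0}} {J : Y.IdealSheafData} {b : B ⟶ Y} (h : IsBl J b)
    [IsIntegral Y] (y' : B) (U : Y.affineOpens) (hy : b y' ∈ U.1)
    (hI : J.ideal U ≤ (U.2.primeIdealOf ⟨b y', hy⟩).asIdeal)
    (hloc : ∀ g ∈ (U.2.primeIdealOf ⟨b y', hy⟩).asIdeal,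
      ∃ s ∉ (U.2.primeIdealOf ⟨b y', hy⟩).asIdeal, s * g ∈ J.ideal U) :
    IsQT (b.stalkMap y').hom := by
  obtain ⟨ι, hι, hpb⟩ := h U
  have : Nonempty U.1 := ⟨⟨b y', hy⟩⟩
  obtain ⟨y, hyy⟩ : ∃ y, ι y = y' := by
    obtain ⟨z, hz, -⟩ := Scheme.Pullback.exists_preimage_pullback (f := b) (g := U.1.ι) y'
      ⟨b y', hy⟩ rfl
    refine ⟨hpb.isoPullback.inv z, ?_⟩
    rw [← Scheme.Hom.comp_apply, hpb.isoPullback_inv_fst, hz]
  subst hyy
  have h1 : ι ≫ b = blTo (J.ideal U) ≫ U.2.fromSpec := by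
    rw [hpb.w]
    unfold blAff
    rw [Category.assoc]
    rfl
  have h2 : blTo (J.ideal U) y = U.2.primeIdealOf ⟨b (ι y), hy⟩ := by
    apply U.2.fromSpec.isOpenEmbedding.injective
    rw [U.2.fromSpec_primeIdealOf, ← Scheme.Hom.comp_apply, ← h1, Scheme.Hom.comp_apply]
  refine bu5c_qt U.2.fromSpec ι h1 y (isQT_blTo y ?_ ?_)
  · rw [h2]
    exact hI
  · rw [h2]
    exact hloc
-- END BU5c

-- BEGIN BU5d
/-- PROOF.  By `IsBl.isIso` `b` is an isomorphism over `Ω`, which contains the generic point `ξ` of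
`Y`, so `ξ = b η` for some `η : B`.  Every `x : B` has `b x ∈ U` for an affine open `U`, which is
nonempty so contains `ξ`; the open immersion `ι : blProj (J.ideal U) ⟶ B` has range `b ⁻¹ U`
(pullback square), which contains `x` and `η`, and `blProj (J.ideal U)` is integral
(`isIntegral_blProj`, `Γ(Y, U)` is a domain: `IsIntegral` and `U` nonempty).  `isIntegral_of_cover`. -/
theorem IsBl.isIntegral {Y B : Scheme.{0}} {J : Y.IdealSheafData} {b : B ⟶ Y} (h : IsBl J b)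
    [IsIntegral Y] (hJ : ∀ U : Y.affineOpens, (U.1 : Set Y).Nonempty → J.ideal U ≠ ⊥)
    (Ω : Y.Opens) (hΩ : (Ω : Set Y).Nonempty)
    (hJΩ : ∀ V : Y.affineOpens, V.1 ≤ Ω → J.ideal V = ⊤) : IsIntegral B := by
  have hiso := h.isIso Ω hJΩ
  have hξ : ∀ U : Y.Opens, (U : Set Y).Nonempty → genericPoint Y ∈ U := fun U hU =>
    ((genericPoint_spec Y).mem_open_set_iff U.isOpen).mpr (by simpa using hU)
  obtain ⟨η, hη⟩ : ∃ η : B, b η = genericPoint Y := by
    obtain ⟨w, hw⟩ := (b ∣_ Ω).surjective ⟨genericPoint Y, hξ Ω hΩ⟩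
    refine ⟨(b ⁻¹ᵁ Ω).ι w, ?_⟩
    rw [← Scheme.Hom.comp_apply, ← morphismRestrict_ι, Scheme.Hom.comp_apply, hw]
    rfl
  refine isIntegral_of_cover η fun x => ?_
  obtain ⟨U, hU, hxU, -⟩ := exists_isAffineOpen_mem_and_subset (show b x ∈ (⊤ : Y.Opens) from trivial)
  obtain ⟨ι, hι, hp⟩ := h ⟨U, hU⟩
  have key : ∀ y : B, b y ∈ U → y ∈ Set.range ι := fun y hy =>
    (Scheme.exists_preimage_of_isPullback hp y ⟨b y, hy⟩ rfl).imp fun _ => And.left
  have hne : Nonempty U := ⟨⟨b x, hxU⟩⟩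
  exact ⟨_, ι, hι, isIntegral_blProj (hJ ⟨U, hU⟩ ⟨b x, hxU⟩), key x hxU,
    key η (hη ▸ hξ U ⟨b x, hxU⟩)⟩
-- END BU5d

-- BEGIN BU5e
/-- The ideal of a finite set of closed points on the affine open subsets.

PROOF.  `J = Scheme.IdealSheafData.vanishingIdeal ⟨T, _⟩`, `J.ideal U = vanishingIdeal (U.2.fromSpec ⁻¹' T)`
(`vanishingIdeal_ideal`): `g ∈ J.ideal U` iff `g ∈ 𝔭_y` for all `y ∈ T ∩ U`
(`PrimeSpectrum.mem_vanishingIdeal`).
(1) If `U ∩ T = ∅` this is `⊤`.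
(2) Let `y ∈ T ∩ U`.  Clearly `J.ideal U ≤ 𝔭_y`.  For `y' ∈ T ∩ U`, `y' ≠ y`: `𝔭_{y'} ⊄ 𝔭_y`,
otherwise `y` is a specialization of `y'`, but `{y'}` is closed.  As `T` is finite and `𝔭_y` is prime
there is `s ∉ 𝔭_y` in all `𝔭_{y'}` (product of elements).  For `g ∈ 𝔭_y` `s * g ∈ J.ideal U`.
(3) Let `U` be nonempty.  `Γ(Y, U)` is a domain and each `𝔭_y`, `y ∈ T ∩ U`, is nonzero (`y` is not the
generic point).  The product of nonzero elements `g_y ∈ 𝔭_y` is a nonzero element of `J.ideal U`. -/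
theorem exists_ideal_of_finite (Y : Scheme.{0}) [IsIntegral Y] (T : Set Y) (hT : T.Finite)
    (hcl : ∀ y ∈ T, IsClosed ({y} : Set Y)) (hgen : genericPoint Y ∉ T) :
    ∃ J : Y.IdealSheafData,
      (∀ U : Y.affineOpens, Disjoint (U.1 : Set Y) T → J.ideal U = ⊤) ∧
      (∀ (U : Y.affineOpens) (y : Y) (hy : y ∈ U.1), y ∈ T →
        J.ideal U ≤ (U.2.primeIdealOf ⟨y, hy⟩).asIdeal ∧
        ∀ g ∈ (U.2.primeIdealOf ⟨y, hy⟩).asIdeal,
          ∃ s ∉ (U.2.primeIdealOf ⟨y, hy⟩).asIdeal, s * g ∈ J.ideal U) ∧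
      ∀ U : Y.affineOpens, (U.1 : Set Y).Nonempty → J.ideal U ≠ ⊥ := by
  classical
  have hTc : IsClosed T := by
    rw [← Set.biUnion_of_singleton T]
    exact hT.isClosed_biUnion hcl
  have hmem : ∀ (U : Y.affineOpens) (g : Γ(Y, U)),
      g ∈ (Scheme.IdealSheafData.vanishingIdeal ⟨T, hTc⟩).ideal U ↔
        ∀ p : PrimeSpectrum Γ(Y, U), U.2.fromSpec p ∈ T → g ∈ p.asIdeal := fun U g => by
    rw [Scheme.IdealSheafData.vanishingIdeal_ideal, PrimeSpectrum.mem_vanishingIdeal]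
    rfl
  have hinj : ∀ U : Y.affineOpens, Function.Injective U.2.fromSpec := fun U =>
    U.2.fromSpec.isOpenEmbedding.injective
  have hmax : ∀ (U : Y.affineOpens) (p : PrimeSpectrum Γ(Y, U)), U.2.fromSpec p ∈ T →
      p.asIdeal.IsMaximal := fun U p hp => by
    rw [← PrimeSpectrum.isClosed_singleton_iff_isMaximal]
    have h1 := (hcl _ hp).preimage U.2.fromSpec.continuous
    have h2 : U.2.fromSpec ⁻¹' {U.2.fromSpec p} = {p} :=
      Set.ext fun z => ⟨fun h => hinj U h, fun h => congrArg U.2.fromSpec h⟩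
    rw [h2] at h1
    exact h1
  have hfin : ∀ U : Y.affineOpens, {p : PrimeSpectrum Γ(Y, U) | U.2.fromSpec p ∈ T}.Finite :=
    fun U => hT.preimage (hinj U).injOn
  refine ⟨Scheme.IdealSheafData.vanishingIdeal ⟨T, hTc⟩, fun U hU => ?_, fun U y hy hyT => ?_,
    fun U hU => ?_⟩
  · rw [Ideal.eq_top_iff_one, hmem]
    intro p hp
    exact (Set.disjoint_left.mp hU (U.2.range_fromSpec ▸ ⟨p, rfl⟩) hp).elim
  · obtain ⟨q, hq⟩ : ∃ q, q = U.2.primeIdealOf ⟨y, hy⟩ := ⟨_, rfl⟩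
    have hqT : U.2.fromSpec q ∈ T := by
      rw [hq, U.2.fromSpec_primeIdealOf]
      exact hyT
    rw [← hq]
    refine ⟨fun g hg => (hmem U g).mp hg q hqT, fun g hg => ?_⟩
    have h1 : ∀ p ∈ (hfin U).toFinset.erase q, ∃ s ∈ p.asIdeal, s ∉ q.asIdeal := fun p hp => by
      rw [Finset.mem_erase, Set.Finite.mem_toFinset] at hp
      by_contra! hcon
      exact hp.1 (PrimeSpectrum.ext ((hmax U p hp.2).eq_of_le q.2.ne_top hcon))
    choose! s hs hs' using h1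
    refine ⟨∏ p ∈ (hfin U).toFinset.erase q, s p, fun h2 => ?_, (hmem U _).mpr fun p hp => ?_⟩
    · obtain ⟨p, hp, h3⟩ := (Ideal.IsPrime.prod_mem_iff (hp := q.2)).mp h2
      exact hs' p hp h3
    · by_cases hpq : p = q
      · exact Ideal.mul_mem_left _ _ (hpq ▸ hg)
      · have h2 : p ∈ (hfin U).toFinset.erase q :=
          Finset.mem_erase.mpr ⟨hpq, (hfin U).mem_toFinset.mpr hp⟩
        exact Ideal.mul_mem_right _ _ (Ideal.mem_of_dvd _ (Finset.dvd_prod_of_mem s h2) (hs p h2))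
  · have hne : Nonempty U.1 := hU.to_subtype
    have hξ : genericPoint Y ∈ U.1 :=
      ((genericPoint_spec Y).mem_open_set_iff U.1.isOpen).mpr (by simpa using hU)
    have h1 : ∀ p ∈ (hfin U).toFinset, ∃ s ∈ p.asIdeal, s ≠ 0 := fun p hp => by
      rw [Set.Finite.mem_toFinset] at hp
      by_contra! hcon
      have h2 := (hmax U p hp).eq_of_le (U.2.primeIdealOf ⟨_, hξ⟩).2.ne_top
        (fun x hx => by rw [hcon x hx]; exact zero_mem _)
      have h3 : U.2.fromSpec p ∈ T := hp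
      rw [PrimeSpectrum.ext h2, U.2.fromSpec_primeIdealOf] at h3
      exact hgen h3
    choose! s hs hs' using h1
    intro h2
    have h3 : ∏ p ∈ (hfin U).toFinset, s p ∈
        (Scheme.IdealSheafData.vanishingIdeal ⟨T, hTc⟩).ideal U := (hmem U _).mpr fun p hp => by
      have h4 : p ∈ (hfin U).toFinset := (hfin U).mem_toFinset.mpr hp
      exact Ideal.mem_of_dvd _ (Finset.dvd_prod_of_mem s h4) (hs p h4)
    rw [h2, Ideal.mem_bot, Finset.prod_eq_zero_iff] at h3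
    obtain ⟨p, hp, h4⟩ := h3
    exact hs' p hp h4
-- END BU5e

-- BEGIN BU5f
/-- **The blow-up of a finite set of closed points.** -/
theorem exists_step (Y : Scheme.{0}) [IsIntegral Y] [IsLocallyNoetherian Y] (T : Set Y)
    (hT : T.Finite) (hcl : ∀ y ∈ T, IsClosed ({y} : Set Y)) (hgen : genericPoint Y ∉ T) :
    ∃ (Y' : Scheme.{0}) (β : Y' ⟶ Y), IsStep β T := by
  obtain ⟨J, h1, h2, h3⟩ := exists_ideal_of_finite Y T hT hcl hgen
  obtain ⟨B, b, hb⟩ := exists_blowup Y J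
  have hbl : IsBl J b := hb
  have hTc : IsClosed T := by
    rw [← Set.biUnion_of_singleton T]
    exact hT.isClosed_biUnion hcl
  refine ⟨B, b, hbl.isProper, ?_, fun U hU => hbl.isIso U fun V hV => h1 V (hU.mono_left hV), ?_⟩
  · exact hbl.isIntegral h3 ⟨Tᶜ, hTc.isOpen_compl⟩ ⟨genericPoint Y, hgen⟩
      fun V hV => h1 V (Set.disjoint_left.2 fun y hy => hV hy)
  · intro y' hy'
    obtain ⟨U, hU, hyU, -⟩ := (Y.isBasis_affineOpens).exists_subset_of_mem_open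
      (Set.mem_univ (b y')) isOpen_univ
    obtain ⟨U, hU, rfl⟩ := hU
    obtain ⟨h4, h5⟩ := h2 ⟨U, hU⟩ (b y') hyU hy'
    exact hbl.isQT y' ⟨U, hU⟩ hyU h4 h5
-- END BU5f

end Pool.Agent.Lib.MP_6a3dac_ag.NU
end

section

/-!
# NU: the tower of blow-ups
-/

set_option autoImplicit false

namespace Pool.Agent.Lib.MP_6a3dac_ag.NU

open CategoryTheory Limits AlgebraicGeometry TopologicalSpace IsLocalRing

-- BEGIN SC2a
/-- PROOF.  `morphismRestrictStalkMap`. -/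
theorem IsStep.isIso_stalkMap {Y' Y : Scheme.{0}} {β : Y' ⟶ Y} {T : Set Y} (h : IsStep β T)
    (hT : IsClosed T) {y' : Y'} (hy : β y' ∉ T) : IsIso (β.stalkMap y') := by
  let U : Y.Opens := ⟨Tᶜ, hT.isOpen_compl⟩
  have : IsIso (β ∣_ U) := h.iso U (disjoint_compl_left (a := T))
  exact ((MorphismProperty.isomorphisms CommRingCat).arrow_mk_iso_iff
    (morphismRestrictStalkMap β U ⟨y', hy⟩)).1
      (inferInstanceAs (IsIso ((β ∣_ U).stalkMap ⟨y', hy⟩)))
-- END SC2a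

-- BEGIN SC2b
/-- Points outside of `T` have a preimage. -/
theorem IsStep.exists_preimage {Y' Y : Scheme.{0}} {β : Y' ⟶ Y} {T : Set Y} (h : IsStep β T)
    (hT : IsClosed T) {y : Y} (hy : y ∉ T) : ∃ y' : Y', β y' = y := by
  let U : Y.Opens := ⟨Tᶜ, hT.isOpen_compl⟩
  have hiso : IsIso (β ∣_ U) := h.iso U (Set.disjoint_left.2 fun _ h1 h2 => h1 h2)
  obtain ⟨x, hx⟩ := (β ∣_ U).surjective ⟨y, hy⟩
  exact ⟨x.1, (morphismRestrict_base_coe β U x).symm.trans (congrArg Subtype.val hx)⟩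
-- END SC2b

-- BEGIN SC2c
/-- Points of characteristic zero go to points of characteristic zero. -/
theorem CharZ.map {Y' Y : Scheme.{0}} {β : Y' ⟶ Y} {y' : Y'} (h : CharZ Y' y') :
    CharZ Y (β y') := fun n hn => by
  have h1 := h n hn
  rw [← map_natCast (β.stalkMap y').hom n] at h1
  exact isUnit_of_map_unit (β.stalkMap y').hom _ h1
-- END SC2c

-- BEGIN SC2d
theorem CharZ.of_isIso {Y' Y : Scheme.{0}} {β : Y' ⟶ Y} {y' : Y'} (h : CharZ Y (β y'))
    (hiso : IsIso (β.stalkMap y')) : CharZ Y' y' := by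
  intro n hn
  have h1 := (h n hn).map (β.stalkMap y').hom
  rwa [map_natCast] at h1
-- END SC2d

-- BEGIN SC2e
theorem CharZ.generize {Y : Scheme.{0}} {x y : Y} (hxy : x ⤳ y) (h : CharZ Y y) : CharZ Y x := by
  intro n hn
  have h1 := (h n hn).map (Y.presheaf.stalkSpecializes hxy).hom
  rwa [map_natCast] at h1
-- END SC2e

-- BEGIN SC2f
/-- SC2f. -/
theorem ft_iff (Y : Scheme.{0}) :
    (∀ U : Y.affineOpens, Algebra.FiniteType ℤ Γ(Y, U)) ↔
      LocallyOfFiniteType (specZIsTerminal.from Y) := by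
  rw [HasRingHomProperty.iff_of_iSup_eq_top (P := @LocallyOfFiniteType)
    (fun U : Y.affineOpens => U) (iSup_affineOpens_eq_top Y)]
  refine forall_congr' fun U => ?_
  have e := (Scheme.ΓSpecIso (CommRingCat.of ℤ)).symm.commRingCatIsoToRingEquiv
  have h : algebraMap ℤ Γ(Y, U) =
      (((specZIsTerminal.from Y).appLE ⊤ U.1 le_top).hom).comp (e : ℤ →+* _) :=
    Subsingleton.elim _ _
  rw [← RingHom.finiteType_algebraMap, h]
  refine ⟨fun H => ?_, fun H => H.comp (.of_surjective _ e.surjective)⟩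
  exact RingHom.FiniteType.of_comp_finiteType H
-- END SC2f

-- BEGIN SC2g
/-- SC2g. -/
theorem Nice.isLocallyNoetherian {Y : Scheme.{0}} (hY : Nice Y) : IsLocallyNoetherian Y := by
  refine ⟨fun U => ?_⟩
  have := hY.ft U
  exact Algebra.FiniteType.isNoetherianRing ℤ _
-- END SC2g

-- BEGIN SC2h
/-- SC2h. -/
theorem Nice.step {Y' Y : Scheme.{0}} {β : Y' ⟶ Y} {T : Set Y} (hY : Nice Y) (h : IsStep β T)
    (hT : IsClosed T) (hTf : ∀ y ∈ T, Finite (Y.residueField y)) : Nice Y' := by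
  have hp := h.proper
  have hq := hY.qc
  have hn : ∀ y : Y, CharZ Y y → y ∉ T := fun y hc ht => not_charZ_of_finite (hTf y ht) hc
  refine ⟨h.int, QuasiCompact.compactSpace_of_compactSpace β, ?_, ?_, fun y' hc => ?_⟩
  · have := (ft_iff Y).1 hY.ft
    rw [ft_iff, ← specZIsTerminal.hom_ext (β ≫ specZIsTerminal.from Y) (specZIsTerminal.from Y')]
    infer_instance
  · obtain ⟨y₀, h0⟩ := hY.cz
    obtain ⟨y', rfl⟩ := h.exists_preimage hT (hn y₀ h0)
    exact ⟨y', h0.of_isIso (h.isIso_stalkMap hT (hn _ h0))⟩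
  · have hb : CharZ Y (β y') := hc.map
    have := hY.sm _ hb
    have := h.isIso_stalkMap hT (hn _ hb)
    exact Algebra.FormallySmooth.of_equiv
      ((asIso (β.stalkMap y')).commRingCatIsoToRingEquiv.toIntAlgEquiv)
-- END SC2h

-- BEGIN SC2i
/-- PROOF.  It is a subset of the finite set of `finite_points`; closed as a finite union of closed
points (`isClosed_of_finite`). -/
theorem badSet_finite {Y : Scheme.{0}} (hY : Nice Y) (i : ℕ) :
    (badSet Y i).Finite ∧ IsClosed (badSet Y i) := by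
  have := hY.qc
  have hf : (badSet Y i).Finite := (finite_points hY.ft i).subset fun y hy => hy.2
  refine ⟨hf, ?_⟩
  rw [← Set.biUnion_of_singleton (badSet Y i)]
  exact hf.isClosed_biUnion fun y hy => isClosed_of_finite hy.2.1
-- END SC2i

-- BEGIN SC2j
/-- The blow-up of the set of bad points. -/
theorem Nice.exists_step {Y : Scheme.{0}} (hY : Nice Y) (i : ℕ) :
    ∃ (Y' : Scheme.{0}) (β : Y' ⟶ Y), Nice Y' ∧ IsStep β (badSet Y i) := by
  have := hY.int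
  have := hY.isLocallyNoetherian
  obtain ⟨hf, hc⟩ := badSet_finite hY i
  have hgen : genericPoint Y ∉ badSet Y i := fun h => by
    obtain ⟨y₀, hy₀⟩ := hY.cz
    exact not_charZ_of_finite h.2.1 (hy₀.generize (genericPoint_specializes y₀))
  obtain ⟨Y', β, hβ⟩ := _root_.Pool.Agent.Lib.MP_6a3dac_ag.NU.exists_step Y _ hf
    (fun y hy => isClosed_of_finite hy.2.1) hgen
  exact ⟨Y', β, hY.step hβ hc fun y hy => hy.2.1, hβ⟩
-- END SC2j

-- BEGIN SC2k
/-- The tower exists. -/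
theorem exists_tower {Y : Scheme.{0}} (hY : Nice Y) : ∃ T : Tower, T.Z 0 = Y := by
  choose Y' β hn hs using fun (p : {Y : Scheme.{0} // Nice Y}) (i : ℕ) => p.2.exists_step i
  let F : ℕ → {Y : Scheme.{0} // Nice Y} :=
    fun i => Nat.rec ⟨Y, hY⟩ (fun i p => ⟨Y' p i, hn p i⟩) i
  exact ⟨⟨fun i => (F i).1, fun i => β (F i) i, fun i => (F i).2, fun i => hs (F i) i⟩, rfl⟩
-- END SC2k

-- BEGIN SC2l
/-- Points of characteristic zero are regular points. -/
theorem Nice.mem_regOpen {Y : Scheme.{0}} (hY : Nice Y) {y : Y} (h : CharZ Y y) :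
    y ∈ regOpen Y := by
  obtain ⟨U, hU, hy, -⟩ := exists_isAffineOpen_mem_and_subset (x := y) (U := ⊤) trivial
  have hft : Algebra.FiniteType ℤ Γ(Y, U) := hY.ft ⟨U, hU⟩
  have hfp : Algebra.FinitePresentation ℤ Γ(Y, U) :=
    Algebra.FinitePresentation.of_finiteType.mp hft
  have hs : hU.primeIdealOf ⟨y, hy⟩ ∈ Algebra.smoothLocus ℤ Γ(Y, U) := by
    have h1 := hY.sm y h
    let _ := Y.presheaf.algebra_section_stalk ⟨y, hy⟩
    have h2 : IsLocalization.AtPrime (Y.presheaf.stalk y) (hU.primeIdealOf ⟨y, hy⟩).asIdeal :=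
      hU.isLocalization_stalk ⟨y, hy⟩
    let e := (IsLocalization.algEquiv (hU.primeIdealOf ⟨y, hy⟩).asIdeal.primeCompl
      (Y.presheaf.stalk y)
      (Localization.AtPrime (hU.primeIdealOf ⟨y, hy⟩).asIdeal)).toRingEquiv
    exact Algebra.FormallySmooth.of_equiv (AlgEquiv.ofRingEquiv (f := e) (R := ℤ) fun n => by
      rw [eq_intCast, eq_intCast, map_intCast])
  obtain ⟨_, ⟨f, rfl⟩, hf, hle⟩ :=
    PrimeSpectrum.isTopologicalBasis_basic_opens.exists_subset_of_mem_open hs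
      (Algebra.isOpen_smoothLocus)
  exact mem_regOpen_of_affine ⟨U, hU⟩ hy f hf fun 𝔰 h𝔰 =>
    isRegular_of_smoothLocus Γ(Y, U) 𝔰 (hle h𝔰)
-- END SC2l

-- BEGIN SC2m
theorem sc2m_unit {Y : Scheme.{0}} (U : Y.affineOpens) (x : U.1) (n : ℕ) :
    IsUnit ((n : ℕ) : Y.presheaf.stalk x.1) ↔ (n : Γ(Y, U)) ∉ (U.2.primeIdealOf x).asIdeal := by
  have := U.2.isLocalization_stalk x
  rw [← map_natCast (algebraMap Γ(Y, U) (Y.presheaf.stalk x.1)) n]
  exact IsLocalization.AtPrime.isUnit_to_map_iff _ (U.2.primeIdealOf x).asIdeal _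

theorem sc2m_aff {Y : Scheme.{0}} (hY : Nice Y) (U : Y.affineOpens) :
    ∃ a : ℕ, a ≠ 0 ∧ ∀ y ∈ U.1, IsUnit ((a : ℕ) : Y.presheaf.stalk y) → y ∈ regOpen Y := by
  have := hY.ft U
  obtain ⟨a, ha, hs⟩ := exists_smooth_away Γ(Y, U) fun 𝔭 h𝔭 hn => by
    obtain ⟨x, hx⟩ : ∃ x : U.1, U.2.primeIdealOf x = ⟨𝔭, h𝔭⟩ :=
      ⟨⟨U.2.fromSpec ⟨𝔭, h𝔭⟩, U.2.range_fromSpec.le (Set.mem_range_self _)⟩,
        U.2.fromSpec.isOpenEmbedding.injective (U.2.fromSpec_primeIdealOf _)⟩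
    have hl := U.2.isLocalization_stalk x
    have h1 := sc2m_unit U x
    rw [hx] at hl h1
    have := hY.sm x.1 fun n h0 => (h1 n).mpr (hn n h0)
    exact Algebra.FormallySmooth.of_equiv (AlgEquiv.ofRingEquiv (f := (IsLocalization.algEquiv
      𝔭.primeCompl (Y.presheaf.stalk x.1) (Localization.AtPrime 𝔭)).toRingEquiv) fun n => by
        rw [eq_intCast, eq_intCast, map_intCast])
  exact ⟨a, ha, fun y hy hu => mem_regOpen_of_affine U hy (a : Γ(Y, U))
    ((sc2m_unit U ⟨y, hy⟩ a).mp hu) fun 𝔰 h => isRegular_of_smoothLocus _ 𝔰 (hs 𝔰 h)⟩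

/-- PROOF.  `Y` is a finite union of affine opens. -/
theorem Nice.exists_bound {Y : Scheme.{0}} (hY : Nice Y) :
    ∃ a : ℕ, a ≠ 0 ∧ ∀ y : Y, IsUnit ((a : ℕ) : Y.presheaf.stalk y) → y ∈ regOpen Y := by
  have := hY.qc
  choose a ha hr using sc2m_aff hY
  obtain ⟨t, ht⟩ := isCompact_univ.elim_finite_subcover (fun U : Y.affineOpens => (U.1 : Set Y))
    (fun U => U.1.2) fun y _ => by
      have : y ∈ ⨆ U : Y.affineOpens, U.1 := iSup_affineOpens_eq_top Y ▸ trivial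
      simpa using this
  refine ⟨∏ U ∈ t, a U, Finset.prod_ne_zero_iff.mpr fun U _ => ha U, fun y hy => ?_⟩
  obtain ⟨U, hU, hyU⟩ := Set.mem_iUnion₂.mp (ht (Set.mem_univ y))
  exact hr U y hyU (isUnit_of_dvd_unit (Nat.cast_dvd_cast (Finset.dvd_prod_of_mem a hU)) hy)
-- END SC2m

-- BEGIN SC2n
/-- The regular open subset of a blow-up contains the preimage. -/
theorem IsStep.preimage_regOpen {Y' Y : Scheme.{0}} {β : Y' ⟶ Y} {T : Set Y} (h : IsStep β T)
    (hT : IsClosed T) (hTr : Disjoint (regOpen Y : Set Y) T) :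
    β ⁻¹ᵁ regOpen Y ≤ regOpen Y' := by
  refine le_regOpen fun y' hy' => ?_
  have hy : β y' ∈ regOpen Y := hy'
  have := h.isIso_stalkMap hT (Set.disjoint_left.mp hTr hy)
  have := isRegular_of_mem hy
  exact IsRegularLocalRing.of_ringEquiv (asIso (β.stalkMap y')).commRingCatIsoToRingEquiv
-- END SC2n

end Pool.Agent.Lib.MP_6a3dac_ag.NU
end

section

/-!
# NU: the generic structure of a closed subset without points of characteristic zero
-/

set_option autoImplicit false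

namespace Pool.Agent.Lib.MP_6a3dac_ag.NU

open CategoryTheory Limits AlgebraicGeometry TopologicalSpace IsLocalRing

-- BEGIN GN1a
/-- A minimal prime, and an element in all the others. -/
theorem exists_minimal_prime (R : Type) [CommRing R] [IsNoetherianRing R] (I : Ideal R)
    (hI : I ≠ ⊤) (hrad : I.IsRadical) :
    ∃ (𝔭 : Ideal R) (h : R), 𝔭.IsPrime ∧ I ≤ 𝔭 ∧ h ∉ 𝔭 ∧ ∀ x ∈ 𝔭, h * x ∈ I := by
  obtain ⟨𝔭, h𝔭⟩ := Ideal.nonempty_minimalPrimes hI
  have hfin := Ideal.finite_minimalPrimes_of_isNoetherianRing R I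
  have h1 : ¬ (hfin.toFinset.erase 𝔭).inf id ≤ 𝔭 := by
    rw [Ideal.IsPrime.inf_le' h𝔭.1.1]
    rintro ⟨q, hq, hle⟩
    rw [Finset.mem_erase, hfin.mem_toFinset] at hq
    exact hq.1 (le_antisymm hle (h𝔭.2 hq.2.1 hle))
  obtain ⟨h, hh, hh'⟩ := SetLike.not_le_iff_exists.1 h1
  refine ⟨𝔭, h, h𝔭.1.1, h𝔭.1.2, hh', fun x hx => ?_⟩
  rw [← hrad.radical, ← Ideal.sInf_minimalPrimes, Ideal.mem_sInf]
  intro q hq
  by_cases hqp : q = 𝔭
  · exact hqp ▸ Ideal.mul_mem_left _ _ hx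
  · exact Ideal.mul_mem_right _ _ ((Finset.inf_le (f := id)
      (Finset.mem_erase.2 ⟨hqp, hfin.mem_toFinset.2 hq⟩)) hh)
-- END GN1a

-- BEGIN GN1b
/-- Generic smoothness over a finite prime field. -/
theorem exists_regular_of_charP (p : ℕ) (hp : p.Prime) (D : Type) [CommRing D] [IsDomain D]
    [CharP D p] [Algebra.FiniteType ℤ D] :
    ∃ h : D, h ≠ 0 ∧ ∀ 𝔮 : PrimeSpectrum D, h ∉ 𝔮.asIdeal →
      IsRegularLocalRing (Localization.AtPrime 𝔮.asIdeal) := by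
  have : Fact p.Prime := ⟨hp⟩
  let _ : Algebra (ZMod p) D := ZMod.algebra D p
  have hft : Algebra.FiniteType (ZMod p) D := by
    refine @Algebra.FiniteType.of_restrictScalars_finiteType ℤ (ZMod p) D _ _ _ _ _ _ ?_ ‹_›
    exact IsScalarTower.of_algebraMap_eq' (Subsingleton.elim _ _)
  have hfp : Algebra.FinitePresentation (ZMod p) D := Algebra.FinitePresentation.of_finiteType.1 hft
  have he : Algebra.EssFiniteType (ZMod p) (FractionRing D) :=
    have := Algebra.EssFiniteType.of_isLocalization (S := FractionRing D) (nonZeroDivisors D)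
    Algebra.EssFiniteType.comp (ZMod p) D (FractionRing D)
  have hs : Algebra.FormallySmooth (ZMod p) (FractionRing D) := inferInstance
  have hl : IsLocalization (⊥ : Ideal D).primeCompl (FractionRing D) := by
    rw [show (⊥ : Ideal D).primeCompl = nonZeroDivisors D by
      ext x
      rw [Ideal.mem_primeCompl_iff, Ideal.mem_bot, mem_nonZeroDivisors_iff_ne_zero]]
    infer_instance
  have hsm : Algebra.IsSmoothAt (ZMod p) (⊥ : Ideal D) :=
    Algebra.FormallySmooth.of_equiv (AlgEquiv.ofRingEquiv (f := (IsLocalization.algEquiv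
      (⊥ : Ideal D).primeCompl (FractionRing D) (Localization.AtPrime (⊥ : Ideal D))).toRingEquiv)
      fun r => RingHom.congr_fun (Subsingleton.elim (RingHom.comp (IsLocalization.algEquiv
        (⊥ : Ideal D).primeCompl (FractionRing D)
        (Localization.AtPrime (⊥ : Ideal D))).toRingEquiv.toRingHom
        (algebraMap (ZMod p) _)) (algebraMap (ZMod p) _)) r)
  obtain ⟨f, hf, hst⟩ := Algebra.IsSmoothAt.exists_notMem_isStandardSmooth (ZMod p) (⊥ : Ideal D)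
  have hreg := isRegularRing_of_isStandardSmooth (ZMod p) (Localization.Away f)
  exact ⟨f, hf, fun 𝔮 h𝔮 => inta_reg (S := Localization.Away f) (Submonoid.powers f) _
    ((Ideal.disjoint_powers_iff_notMem_of_isPrime (I := 𝔮.asIdeal) (y := f)).mpr h𝔮)⟩
-- END GN1b

-- BEGIN GN1c
theorem gn1c_basis (R : Type) [CommRing R] [IsNoetherianRing R] (I 𝔭 : Ideal R) [𝔭.IsPrime] :
    ∃ (s : ℕ) (x : Fin s → R), (∀ i, x i ∈ I) ∧
      (∃ h ∉ 𝔭, ∀ y ∈ I, h * y ∈ Ideal.span (Set.range x) ⊔ I ^ 2) ∧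
      ∀ a : Fin s → R, ∑ i, a i * x i ∈ I ^ 2 → ∀ i, a i ∈ 𝔭 := by
  classical
  let P : ℕ → Prop := fun s => ∃ x : Fin s → R, (∀ i, x i ∈ I) ∧
      ∃ h ∉ 𝔭, ∀ y ∈ I, h * y ∈ Ideal.span (Set.range x) ⊔ I ^ 2
  have hP : ∃ s, P s := by
    obtain ⟨n, x, hx⟩ := Submodule.fg_iff_exists_fin_generating_family.1 (IsNoetherian.noetherian I)
    refine ⟨n, x, fun i => ?_, 1, fun h => ?_, fun y hy => ?_⟩
    · rw [← hx]
      exact Submodule.subset_span ⟨i, rfl⟩
    · exact (inferInstance : 𝔭.IsPrime).ne_top ((Ideal.eq_top_iff_one _).2 h)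
    · rw [one_mul]
      refine Ideal.mem_sup_left ?_
      change y ∈ Submodule.span R (Set.range x)
      rw [hx]
      exact hy
  obtain ⟨x, hxI, h, hh, hy⟩ := Nat.find_spec hP
  refine ⟨Nat.find hP, x, hxI, ⟨h, hh, hy⟩, fun a ha j => ?_⟩
  by_contra haj
  generalize hs : Nat.find hP = s at x a j
  cases s with
  | zero => exact j.elim0
  | succ k =>
    refine Nat.find_min hP (m := k) (by omega) ⟨fun i => x (j.succAbove i), fun i => hxI _, a j * h,
      fun h3 => (Ideal.IsPrime.mem_or_mem inferInstance h3).elim haj hh, fun y hyI => ?_⟩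
    have hK : Ideal.span (Set.range x) ⊔ I ^ 2 ≤ Submodule.comap (LinearMap.mulLeft R (a j))
        (Ideal.span (Set.range fun i => x (j.succAbove i)) ⊔ I ^ 2) := by
      refine sup_le (Ideal.span_le.2 ?_) fun w hw => ?_
      · rintro _ ⟨i, rfl⟩
        change a j * x i ∈ Ideal.span (Set.range fun i => x (j.succAbove i)) ⊔ I ^ 2
        rcases Fin.eq_self_or_eq_succAbove j i with rfl | ⟨i', rfl⟩
        · rw [Fin.sum_univ_succAbove _ i] at ha
          have h4 : a i * x i = (a i * x i + ∑ l, a (i.succAbove l) * x (i.succAbove l)) -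
            ∑ l, a (i.succAbove l) * x (i.succAbove l) := by ring
          rw [h4]
          refine Ideal.sub_mem _ (Ideal.mem_sup_right ha) (Ideal.mem_sup_left ?_)
          exact Ideal.sum_mem _ fun l _ => Ideal.mul_mem_left _ _ (Ideal.subset_span ⟨l, rfl⟩)
        · exact Ideal.mem_sup_left (Ideal.mul_mem_left _ _ (Ideal.subset_span ⟨i', rfl⟩))
      · exact Ideal.mem_sup_right (Ideal.mul_mem_left _ _ hw)
    have h5 := hK (hy y hyI)
    rw [mul_assoc]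
    exact h5

/-- Generic freeness of the conormal module. -/
theorem exists_conFree (R : Type) [CommRing R] [IsNoetherianRing R] (I 𝔭 : Ideal R) [𝔭.IsPrime]
    (hI : I ≤ 𝔭) (h₁ : R) (hh₁ : h₁ ∉ 𝔭) (h𝔭 : ∀ x ∈ 𝔭, h₁ * x ∈ I) :
    ∃ h ∉ 𝔭, ∀ (𝔪 : Ideal R) [𝔪.IsPrime], h ∉ 𝔪 →
      ConFree (I.map (algebraMap R (Localization.AtPrime 𝔪))) := by
  obtain ⟨s, x, hx, ⟨h₂, hh₂, hy⟩, hL⟩ := gn1c_basis R I 𝔭
  refine ⟨h₁ * h₂, fun h => (Ideal.IsPrime.mem_or_mem inferInstance h).elim hh₁ hh₂,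
    fun 𝔪 _ h𝔪 => ⟨s, fun i => algebraMap _ _ (x i), fun i => Ideal.mem_map_of_mem _ (hx i),
      fun y hyI => ?_, fun a ha i => ?_⟩⟩
  · obtain ⟨⟨⟨z, hz⟩, u⟩, hu⟩ := (IsLocalization.mem_map_algebraMap_iff 𝔪.primeCompl _).1 hyI
    obtain ⟨w₁, hw₁, w, hw, e⟩ := Submodule.mem_sup.1 (hy z hz)
    obtain ⟨b, hb⟩ := (Ideal.mem_span_range_iff_exists_fun).1 hw₁
    have hv : IsUnit (algebraMap R (Localization.AtPrime 𝔪) (u * h₂)) :=
      IsLocalization.map_units (M := 𝔪.primeCompl) _ ⟨u * h₂, fun h =>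
        (Ideal.IsPrime.mem_or_mem inferInstance h).elim u.2
          fun h' => h𝔪 (Ideal.mul_mem_left _ _ h')⟩
    obtain ⟨v, hv⟩ := hv
    refine ⟨fun i => ↑v⁻¹ * algebraMap _ _ (b i), ?_⟩
    have h6 : y - ∑ i, ↑v⁻¹ * algebraMap R (Localization.AtPrime 𝔪) (b i) * algebraMap _ _ (x i) =
        ↑v⁻¹ * algebraMap _ _ w := by
      have h7 : (v : Localization.AtPrime 𝔪) * y =
          algebraMap _ _ w + ∑ i, algebraMap _ _ (b i) * algebraMap _ _ (x i) := by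
        have h8 := congrArg (algebraMap R (Localization.AtPrime 𝔪)) e
        rw [← hb, map_add, map_sum, map_mul, ← hu] at h8
        simp only [map_mul] at h8
        rw [hv, map_mul, add_comm, h8]
        ring
      rw [← Units.inv_mul_cancel_left v y, h7, mul_add, Finset.mul_sum]
      simp only [mul_assoc, add_sub_cancel_right]
    rw [h6, ← Ideal.map_pow]
    exact Ideal.mul_mem_left _ _ (Ideal.mem_map_of_mem _ hw)
  · obtain ⟨u, hu⟩ := IsLocalization.exist_integer_multiples_of_finite 𝔪.primeCompl a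
    choose b hb using hu
    have h9 : algebraMap R (Localization.AtPrime 𝔪) (∑ i, b i * x i) ∈
        (I ^ 2).map (algebraMap R (Localization.AtPrime 𝔪)) := by
      rw [Ideal.map_pow, map_sum]
      have h10 : ∑ i, algebraMap R (Localization.AtPrime 𝔪) (b i * x i) =
          algebraMap _ _ (u : R) * ∑ i, a i * algebraMap _ _ (x i) := by
        rw [Finset.mul_sum]
        refine Finset.sum_congr rfl fun i _ => ?_
        rw [map_mul, hb i, Algebra.smul_def, mul_assoc]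
      rw [h10]
      exact Ideal.mul_mem_left _ _ ha
    obtain ⟨⟨⟨z, hz⟩, u'⟩, hu'⟩ := (IsLocalization.mem_map_algebraMap_iff 𝔪.primeCompl _).1 h9
    rw [← map_mul] at hu'
    obtain ⟨c, hc⟩ := (IsLocalization.eq_iff_exists 𝔪.primeCompl _).1 hu'
    have h11 : ∑ j, (c * u' * b j : R) * x j ∈ I ^ 2 := by
      have : ∑ j, (c * u' * b j : R) * x j = c * ((∑ i, b i * x i) * u') := by
        rw [Finset.sum_mul, Finset.mul_sum]
        exact Finset.sum_congr rfl fun j _ => by ring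
      rw [this, hc]
      exact Ideal.mul_mem_left _ _ hz
    have h12 := Ideal.mem_map_of_mem (algebraMap R (Localization.AtPrime 𝔪)) (h𝔭 _ (hL _ h11 i))
    have hq : ∀ q ∉ 𝔪, IsUnit (algebraMap R (Localization.AtPrime 𝔪) q) := fun q hq =>
      IsLocalization.map_units (M := 𝔪.primeCompl) _ ⟨q, hq⟩
    have h13 : h₁ * (c * u') ∉ 𝔪 := fun h =>
      (Ideal.IsPrime.mem_or_mem inferInstance h).elim
        (fun h' => h𝔪 (Ideal.mul_mem_right _ _ h')) fun h' =>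
          (Ideal.IsPrime.mem_or_mem inferInstance h').elim c.2 u'.2
    rw [show h₁ * (c * u' * b i) = (h₁ * (c * u')) * b i by ring, map_mul, hb i, Algebra.smul_def,
      Ideal.unit_mul_mem_iff_mem _ (hq _ h13), Ideal.unit_mul_mem_iff_mem _ (hq _ u.2)] at h12
    exact h12
-- END GN1c

-- BEGIN GN1d
/-- **The generic structure** (affine form). -/
theorem exists_generic (R : Type) [CommRing R] [Algebra.FiniteType ℤ R] (I : Ideal R)
    (hI : I ≠ ⊤) (hrad : I.IsRadical) (m : ℕ) (hm : m ≠ 0) (hmI : (m : R) ∈ I) :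
    ∃ (𝔭 : Ideal R) (h : R), 𝔭.IsPrime ∧ I ≤ 𝔭 ∧ h ∉ 𝔭 ∧ ∀ (𝔪 : Ideal R) [𝔪.IsPrime], I ≤ 𝔪 →
      h ∉ 𝔪 → IsRegularLocalRing (Localization.AtPrime 𝔪 ⧸
        I.map (algebraMap R (Localization.AtPrime 𝔪))) ∧
        ConFree (I.map (algebraMap R (Localization.AtPrime 𝔪))) := by
  have hN : IsNoetherianRing R := Algebra.FiniteType.isNoetherianRing ℤ R
  obtain ⟨𝔭, h₁, hp, hIp, hh₁, h𝔭⟩ := exists_minimal_prime R I hI hrad
  obtain ⟨p, hpc⟩ := CharP.exists (R ⧸ 𝔭)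
  have hpp : p.Prime := by
    refine (CharP.char_is_prime_or_zero (R ⧸ 𝔭) p).resolve_right ?_
    rintro rfl
    have h3 : ((m : ℕ) : R ⧸ 𝔭) = 0 := by
      rw [← map_natCast (Ideal.Quotient.mk 𝔭), Ideal.Quotient.eq_zero_iff_mem]
      exact hIp hmI
    exact hm (Nat.eq_zero_of_zero_dvd ((CharP.cast_eq_zero_iff (R ⧸ 𝔭) 0 m).1 h3))
  have hft : @Algebra.FiniteType ℤ (R ⧸ 𝔭) _ _ (Ring.toIntAlgebra _) := by
    convert! Algebra.FiniteType.of_surjective (Ideal.Quotient.mkₐ ℤ 𝔭)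
      Ideal.Quotient.mk_surjective
  obtain ⟨h₀, hh₀, hreg⟩ := exists_regular_of_charP p hpp (R ⧸ 𝔭)
  obtain ⟨h₂, rfl⟩ := Ideal.Quotient.mk_surjective h₀
  obtain ⟨h₃, hh₃, hfree⟩ := exists_conFree R I 𝔭 hIp h₁ hh₁ h𝔭
  rw [Ne, Ideal.Quotient.eq_zero_iff_mem] at hh₀
  refine ⟨𝔭, h₁ * h₂ * h₃, hp, hIp, fun h => ?_, fun 𝔪 _ hIm hh => ?_⟩
  · exact (hp.mem_or_mem h).elim (fun h' => (hp.mem_or_mem h').elim hh₁ hh₀) hh₃
  · have hm₁ : h₁ ∉ 𝔪 := fun h => hh (Ideal.mul_mem_right _ _ (Ideal.mul_mem_right _ _ h))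
    have hm₂ : h₂ ∉ 𝔪 := fun h => hh (Ideal.mul_mem_right _ _ (Ideal.mul_mem_left _ _ h))
    have hm₃ : h₃ ∉ 𝔪 := fun h => hh (Ideal.mul_mem_left _ _ h)
    have hpm : 𝔭 ≤ 𝔪 := fun x hx =>
      (Ideal.IsPrime.mem_or_mem ‹_› (hIm (h𝔭 x hx))).resolve_left hm₁
    have hmap : 𝔭.map (algebraMap R (Localization.AtPrime 𝔪)) =
        I.map (algebraMap R (Localization.AtPrime 𝔪)) := by
      refine le_antisymm (Ideal.map_le_iff_le_comap.2 fun x hx => ?_) (Ideal.map_mono hIp)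
      have h4 := Ideal.mem_map_of_mem (algebraMap R (Localization.AtPrime 𝔪)) (h𝔭 x hx)
      rw [map_mul, Ideal.unit_mul_mem_iff_mem _
        (IsLocalization.map_units (M := 𝔪.primeCompl) _ ⟨h₁, hm₁⟩)] at h4
      exact h4
    obtain ⟨t, ht, htc, ⟨e⟩⟩ := intc_iso 𝔭 𝔪 hpm
    have h5 := hreg ⟨t, ht⟩ fun h => hm₂ (by rw [← htc]; exact h)
    exact ⟨IsRegularLocalRing.of_ringEquiv (e.trans (Ideal.quotEquivOfEq hmap)), hfree 𝔪 hm₃⟩
-- END GN1d

-- BEGIN GN1e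
/-- An ideal such that every prime ideal above it contains a positive integer contains one. -/
theorem exists_natCast_mem (R : Type) [CommRing R] (I : Ideal R)
    (h : ∀ 𝔭 : Ideal R, 𝔭.IsPrime → I ≤ 𝔭 → ∃ n : ℕ, n ≠ 0 ∧ (n : R) ∈ 𝔭) :
    ∃ m : ℕ, m ≠ 0 ∧ (m : R) ∈ I := by
  by_contra hc
  push Not at hc
  have hd : Disjoint (I : Set R)
      ((nonZeroDivisors ℕ).map (Nat.castRingHom R : ℕ →* R) : Submonoid R) := by
    rw [Set.disjoint_left]
    rintro x hx ⟨n, hn, rfl⟩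
    exact hc n (nonZeroDivisors.ne_zero hn) hx
  obtain ⟨𝔭, hp, hle, hdis⟩ := Ideal.exists_le_prime_disjoint I _ hd
  obtain ⟨n, hn, hmem⟩ := h 𝔭 hp hle
  exact Set.disjoint_left.mp hdis hmem ⟨n, mem_nonZeroDivisors_of_ne_zero hn, rfl⟩
-- END GN1e

-- BEGIN GN1f
theorem gn1f_alg {R S : Type} [CommRing R] [CommRing S] [Algebra R S] (M : Submonoid R)
    [IsLocalization M S] (C : Set (PrimeSpectrum R)) (hC : IsClosed C) :
    PrimeSpectrum.vanishingIdeal (PrimeSpectrum.comap (algebraMap R S) ⁻¹' C) =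
      (PrimeSpectrum.vanishingIdeal C).map (algebraMap R S) := by
  have h1 : C = PrimeSpectrum.zeroLocus (PrimeSpectrum.vanishingIdeal C : Set R) := by
    rw [PrimeSpectrum.zeroLocus_vanishingIdeal_eq_closure, hC.closure_eq]
  conv_lhs => rw [h1]
  rw [PrimeSpectrum.preimage_comap_zeroLocus, ← PrimeSpectrum.zeroLocus_span, ← Ideal.map,
    PrimeSpectrum.vanishingIdeal_zeroLocus_eq_radical, ← IsLocalization.map_radical M,
    (PrimeSpectrum.isRadical_vanishingIdeal C).radical]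

/-- The local ideal of a closed set, on an affine open. -/
theorem tIdl_eq_map {Z : Scheme.{0}} {T : Set Z} (hT : IsClosed T) (U : Z.affineOpens) {z : Z}
    (hz : z ∈ U.1) :
    tIdl T z = ((Scheme.IdealSheafData.vanishingIdeal ⟨T, hT⟩).ideal U).map
      (Z.presheaf.germ U.1 z hz).hom := by
  let := (Z.presheaf.germ U.1 z hz).hom.toAlgebra
  have := U.2.isLocalization_stalk ⟨z, hz⟩
  rw [Scheme.IdealSheafData.vanishingIdeal_ideal]
  have h := gn1f_alg (R := Γ(Z, U.1)) (S := Z.presheaf.stalk z)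
    (U.2.primeIdealOf ⟨z, hz⟩).asIdeal.primeCompl (U.2.fromSpec ⁻¹' T)
    (hT.preimage U.2.fromSpec.continuous)
  rw [tIdl, ← U.2.fromSpecStalk_eq_fromSpecStalk hz]
  exact h
-- END GN1f

-- BEGIN GN1g
theorem gn1g_con {A B : Type} [CommRing A] [CommRing B] (e : A ≃+* B) {𝔱 : Ideal A}
    (h : ConFree 𝔱) : ConFree (𝔱.map e) := by
  have hm : ∀ (J : Ideal A) (y : B), y ∈ J.map e ↔ e.symm y ∈ J := fun J y => by
    rw [← Ideal.comap_symm, Ideal.mem_comap]
  obtain ⟨s, x, hx, hg, hf⟩ := h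
  refine ⟨s, fun i => e (x i), fun i => Ideal.mem_map_of_mem _ (hx i), fun y hy => ?_,
    fun a ha i => ?_⟩
  · obtain ⟨a, ha⟩ := hg _ ((hm _ y).1 hy)
    refine ⟨fun i => e (a i), ?_⟩
    rw [← Ideal.map_pow, hm]
    simpa using ha
  · rw [← Ideal.map_pow, hm] at ha
    exact (hm _ _).2 (hf (fun i => e.symm (a i)) (by simpa using ha) i)

theorem gn1g_loc {R S : Type} [CommRing R] [CommRing S] [Algebra R S] (I 𝔪 : Ideal R) [𝔪.IsPrime]
    (_ : IsLocalization.AtPrime S 𝔪)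
    (h1 : IsRegularLocalRing (Localization.AtPrime 𝔪 ⧸
      I.map (algebraMap R (Localization.AtPrime 𝔪))))
    (h2 : ConFree (I.map (algebraMap R (Localization.AtPrime 𝔪)))) :
    IsRegularLocalRing (S ⧸ I.map (algebraMap R S)) ∧ ConFree (I.map (algebraMap R S)) := by
  let e := IsLocalization.algEquiv 𝔪.primeCompl (Localization.AtPrime 𝔪) S
  have he : I.map (algebraMap R S) =
      (I.map (algebraMap R (Localization.AtPrime 𝔪))).map e.toRingEquiv := by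
    refine Eq.symm ((Ideal.map_map (algebraMap R (Localization.AtPrime 𝔪))
      (e.toRingEquiv : Localization.AtPrime 𝔪 →+* S)).trans ?_)
    exact congrArg (fun f : R →+* S => I.map f) (RingHom.ext fun x => e.commutes x)
  rw [he]
  exact ⟨IsRegularLocalRing.of_ringEquiv (Ideal.quotientEquiv _ _ e.toRingEquiv rfl),
    gn1g_con e.toRingEquiv h2⟩

/-- **The generic structure of a closed set without points of characteristic zero.** -/
theorem Nice.exists_generic {Z : Scheme.{0}} (hZ : Nice Z) {T : Set Z} (hT : IsClosed T)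
    (hne : T.Nonempty) (hcz : ∀ z ∈ T, ¬ CharZ Z z) :
    ∃ T' : Set Z, IsClosed T' ∧ T' ⊆ T ∧ T' ≠ T ∧ ∀ z ∈ T, z ∉ T' →
      IsRegularLocalRing (Z.presheaf.stalk z ⧸ tIdl T z) ∧ ConFree (tIdl T z) := by
  obtain ⟨z₀, hz₀⟩ := hne
  obtain ⟨_, ⟨U₀, hU₀, rfl⟩, hzU, -⟩ := Z.isBasis_affineOpens.exists_subset_of_mem_open
    (Set.mem_univ z₀) isOpen_univ
  let U : Z.affineOpens := ⟨U₀, hU₀⟩
  have := hZ.ft U
  let C : Set (PrimeSpectrum Γ(Z, U)) := U.2.fromSpec ⁻¹' T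
  have hC : IsClosed C := hT.preimage U.2.fromSpec.continuous
  let I : Ideal Γ(Z, U) := PrimeSpectrum.vanishingIdeal C
  have hIC : ∀ 𝔮 : PrimeSpectrum Γ(Z, U), I ≤ 𝔮.asIdeal ↔ U.2.fromSpec 𝔮 ∈ T := fun 𝔮 => by
    change 𝔮 ∈ PrimeSpectrum.zeroLocus (PrimeSpectrum.vanishingIdeal C : Set Γ(Z, U)) ↔ 𝔮 ∈ C
    rw [PrimeSpectrum.zeroLocus_vanishingIdeal_eq_closure, hC.closure_eq]
  have hxU : ∀ 𝔮 : PrimeSpectrum Γ(Z, U), U.2.fromSpec 𝔮 ∈ U.1 := fun 𝔮 =>
    U.2.range_fromSpec.le (Set.mem_range_self _)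
  have hpr : ∀ 𝔮 : PrimeSpectrum Γ(Z, U), U.2.primeIdealOf ⟨U.2.fromSpec 𝔮, hxU 𝔮⟩ = 𝔮 := fun 𝔮 =>
    U.2.fromSpec.isOpenEmbedding.injective (U.2.fromSpec_primeIdealOf _)
  obtain ⟨m, hm, hmI⟩ := exists_natCast_mem Γ(Z, U) I fun 𝔭 h𝔭 hI => by
    have h1 := hcz _ ((hIC ⟨𝔭, h𝔭⟩).1 hI)
    unfold CharZ at h1
    push Not at h1
    obtain ⟨n, hn, h2⟩ := h1
    refine ⟨n, hn, ?_⟩
    by_contra h3
    refine h2 ((sc2m_unit U ⟨_, hxU ⟨𝔭, h𝔭⟩⟩ n).2 ?_)
    rwa [hpr]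
  have hItop : I ≠ ⊤ := fun h0 => (U.2.primeIdealOf ⟨z₀, hzU⟩).2.ne_top (top_le_iff.1 (h0 ▸
    (hIC _).2 (by rw [U.2.fromSpec_primeIdealOf]; exact hz₀)))
  obtain ⟨𝔭, h, h𝔭, hI𝔭, hh, H⟩ := NU.exists_generic Γ(Z, U) I hItop
    (PrimeSpectrum.isRadical_vanishingIdeal C) m hm hmI
  have hbas : ∀ 𝔮 : PrimeSpectrum Γ(Z, U), U.2.fromSpec 𝔮 ∈ Z.basicOpen h ↔ h ∉ 𝔮.asIdeal :=
    fun 𝔮 => by
      rw [← PrimeSpectrum.mem_basicOpen, ← U.2.fromSpec_preimage_basicOpen]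
      rfl
  refine ⟨T ∩ (Z.basicOpen h : Set Z)ᶜ, hT.inter (Z.basicOpen h).2.isClosed_compl,
    Set.inter_subset_left, fun h0 => ?_, fun z hz hz' => ?_⟩
  · have h1 : U.2.fromSpec ⟨𝔭, h𝔭⟩ ∈ T := (hIC ⟨𝔭, h𝔭⟩).1 hI𝔭
    rw [← h0] at h1
    exact h1.2 ((hbas ⟨𝔭, h𝔭⟩).2 hh)
  · have hzh : z ∈ Z.basicOpen h := by
      by_contra hc
      exact hz' ⟨hz, hc⟩
    have hzU' : z ∈ U.1 := Z.basicOpen_le h hzh
    let := (Z.presheaf.germ U.1 z hzU').hom.toAlgebra
    have hl := U.2.isLocalization_stalk ⟨z, hzU'⟩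
    have hfz : U.2.fromSpec (U.2.primeIdealOf ⟨z, hzU'⟩) = z := U.2.fromSpec_primeIdealOf _
    obtain ⟨h1, h2⟩ := H (U.2.primeIdealOf ⟨z, hzU'⟩).asIdeal ((hIC _).2 (by rw [hfz]; exact hz))
      ((hbas _).1 (by rw [hfz]; exact hzh))
    rw [tIdl_eq_map hT U hzU']
    exact gn1g_loc (R := Γ(Z, U)) (S := Z.presheaf.stalk z) I
      (U.2.primeIdealOf ⟨z, hzU'⟩).asIdeal hl h1 h2
-- END GN1g

-- BEGIN GN1h
theorem gn1h_alg {A B : Type} [CommRing A] [CommRing B] (φ : A →+* B) (hφ : Function.Bijective φ)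
    (T : Set (PrimeSpectrum A)) (T' : Set (PrimeSpectrum B))
    (h : ∀ q, q ∈ T' ↔ PrimeSpectrum.comap φ q ∈ T) :
    (PrimeSpectrum.vanishingIdeal T).map φ = PrimeSpectrum.vanishingIdeal T' := by
  ext b
  rw [Ideal.mem_map_iff_of_surjective φ hφ.2, PrimeSpectrum.mem_vanishingIdeal]
  constructor
  · rintro ⟨a, ha, rfl⟩ q hq
    exact (PrimeSpectrum.mem_vanishingIdeal _ _).1 ha _ ((h q).1 hq)
  · intro hb
    obtain ⟨a, rfl⟩ := hφ.2 b
    refine ⟨a, (PrimeSpectrum.mem_vanishingIdeal _ _).2 fun p hp => ?_, rfl⟩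
    have hq : PrimeSpectrum.comap φ
        (PrimeSpectrum.comap ((RingEquiv.ofBijective φ hφ).symm : B →+* A) p) = p := by
      ext x
      show (RingEquiv.ofBijective φ hφ).symm ((RingEquiv.ofBijective φ hφ) x) ∈ p.asIdeal ↔ _
      rw [RingEquiv.symm_apply_apply]
    have h1 := hb _ ((h _).2 (hq.symm ▸ hp))
    rw [← hq]
    exact h1

/-- The local ideals of corresponding sets under an isomorphism of local rings.

PROOF.  `Spec.map (β.stalkMap z') ≫ Z.fromSpecStalk (β z') = Z'.fromSpecStalk z' ≫ β`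
(`Scheme.SpecMap_stalkMap_fromSpecStalk`).  The points in the image of `Z'.fromSpecStalk z'` are the
generizations of `z'` (`Scheme.range_fromSpecStalk`).  So by `h` the preimage of `T'` in
`Spec (stalk z')` is the preimage under the homeomorphism `Spec (β.stalkMap z')` of the preimage of `T`,
and the vanishing ideals correspond under the isomorphism of rings. -/
theorem tIdl_of_isIso {Z' Z : Scheme.{0}} {β : Z' ⟶ Z} {z' : Z'} (hiso : IsIso (β.stalkMap z'))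
    {T' : Set Z'} {T : Set Z} (h : ∀ x', x' ⤳ z' → (x' ∈ T' ↔ β x' ∈ T)) :
    (tIdl T (β z')).map (β.stalkMap z').hom = tIdl T' z' := by
  refine gn1h_alg _ (ConcreteCategory.bijective_of_isIso (β.stalkMap z')) _ _ fun q => ?_
  have h1 : Z'.fromSpecStalk z' q ⤳ z' :=
    (Scheme.range_fromSpecStalk (X := Z') (x := z')).subset ⟨q, rfl⟩
  have h2 : Z.fromSpecStalk (β z') (Spec.map (β.stalkMap z') q) = β (Z'.fromSpecStalk z' q) := by
    rw [← Scheme.Hom.comp_apply, ← Scheme.Hom.comp_apply, Scheme.SpecMap_stalkMap_fromSpecStalk]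
  refine (h _ h1).trans ?_
  rw [← h2]
  exact Iff.rfl
-- END GN1h

-- BEGIN GN1i
/-- PROOF.  `z` itself is in `T`: the closed point of `Spec (stalk z)` is in the preimage of `T`, so the
vanishing ideal is contained in the maximal ideal. -/
theorem tIdl_le {Z : Scheme.{0}} {T : Set Z} {z : Z} (hz : z ∈ T) :
    tIdl T z ≤ maximalIdeal (Z.presheaf.stalk z) := by
  refine fun a ha => (PrimeSpectrum.mem_vanishingIdeal _ _).1 ha
    (closedPoint (Z.presheaf.stalk z)) ?_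
  rw [Set.mem_preimage, Scheme.fromSpecStalk_closedPoint]
  exact hz
-- END GN1i

end Pool.Agent.Lib.MP_6a3dac_ag.NU
end
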