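import Pool.Agent.Lib.MP_6a3dac_ag.Mg.G048
import Pool.Agent.Lib.MP_6a3dac_ag.NU.AN1

section

/-!
# NU: the potential of arcs of characteristic `p`
-/

set_option autoImplicit false

namespace Pool.Agent.Lib.MP_6a3dac_ag.NU

open IsLocalRing IsDiscreteValuationRing

theorem PotW.mono {p : ℕ} {A V : Type} [CommRing A] [CommRing V] [IsDomain V]
    [IsDiscreteValuationRing V] {α : A →+* V} {n m : ℕ} (h : PotW p α n) (hnm : n ≤ m) :
    PotW p α m := by
  obtain ⟨c, B, i, ψ, L, θ, g, h1, h2, h3, h4, h5, h6⟩ := h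
  exact ⟨c, B, i, ψ, L, θ, g, h1, h2, h3, h4, h5, h6.trans (by exact_mod_cast hnm)⟩

theorem PotW.congr {p : ℕ} {A A₁ V : Type} [CommRing A] [CommRing A₁] [CommRing V] [IsDomain V]
    [IsDiscreteValuationRing V] {α : A →+* V} {α₁ : A₁ →+* V} (e : A ≃+* A₁)
    (he : ∀ a, α₁ (e a) = α a) {n : ℕ} (h : PotW p α n) : PotW p α₁ n := by
  obtain ⟨c, B, i, ψ, L, θ, g, h1, h2, h3, h4, h5, h6⟩ := h
  refine ⟨c, B, i, (e : A →+* A₁).comp ψ, L, θ, g, h1, e.surjective.comp h2, ?_, fun l => ?_,
    fun k => ?_, h6⟩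
  · rwa [RingHom.ker_comp_of_injective ψ e.injective]
  · have h7 : α₁.comp ((e : A →+* A₁).comp ψ) = α.comp ψ := RingHom.ext fun b => he _
    rw [h7]
    exact h4 l
  · change e (ψ (g k)) = 0
    rw [h5, map_zero]

-- BEGIN W3a
/-- Witt derivations on the kernel. -/
theorem IsWD.add_of_left {p : ℕ} {B V : Type} [CommRing B] [CommRing V] {α : B →+* V} {L : V}
    {θ : B → V} (h : IsWD p α L θ) {a : B} (ha : α a = 0) (b : B) : θ (a + b) = θ a + θ b := by
  rw [h.add, ha, wP_zero_left, mul_zero, sub_zero]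

theorem IsWD.mul_of_right {p : ℕ} (hp : p.Prime) {B V : Type} [CommRing B] [CommRing V]
    {α : B →+* V} {L : V} {θ : B → V} (h : IsWD p α L θ) (b : B) {a : B} (ha : α a = 0) :
    θ (b * a) = α b ^ p * θ a := by
  rw [h.mul, ha, zero_pow hp.ne_zero, zero_mul, add_zero]

theorem IsWD.sum {p : ℕ} (hp : p.Prime) {B V : Type} [CommRing B] [CommRing V] {α : B →+* V}
    {L : V} {θ : B → V} (h : IsWD p α L θ) {c : ℕ} (b g : Fin c → B) (hg : ∀ k, α (g k) = 0) :
    θ (∑ k, b k * g k) = ∑ k, α (b k) ^ p * θ (g k) := by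
  have h1 : ∀ s : Finset (Fin c), θ (∑ k ∈ s, b k * g k) = ∑ k ∈ s, α (b k) ^ p * θ (g k) := by
    intro s
    induction s using Finset.induction_on with
    | empty => simp [h.map_zero hp]
    | insert a s ha ih =>
      rw [Finset.sum_insert ha, Finset.sum_insert ha, h.add_of_left (by
        rw [map_mul, hg, mul_zero]), ih, h.mul_of_right hp _ (hg a)]
  exact h1 _
-- END W3a

-- BEGIN W3b
/-- Values of a Witt derivation on the square of the maximal ideal. -/
theorem IsWD.mem_maximalIdeal {p : ℕ} (hp : p.Prime) {B V : Type} [CommRing B] [IsLocalRing B]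
    [CommRing V] [IsLocalRing V] {α : B →+* V} (hα : ∀ x ∈ maximalIdeal B, α x ∈ IsLocalRing.maximalIdeal V)
    {L : V} {θ : B → V} (h : IsWD p α L θ) {x : B} (hx : x ∈ maximalIdeal B ^ 2) :
    θ x ∈ IsLocalRing.maximalIdeal V := by
  rw [pow_two] at hx
  have hpow : ∀ x ∈ maximalIdeal B, α x ^ p ∈ IsLocalRing.maximalIdeal V := fun x hx =>
    Ideal.pow_mem_of_mem _ (hα x hx) p hp.pos
  suffices h1 : α x ∈ IsLocalRing.maximalIdeal V ∧ θ x ∈ IsLocalRing.maximalIdeal V from h1.2
  refine Submodule.mul_induction_on hx (fun m hm n hn => ⟨?_, ?_⟩) fun x y hx hy => ⟨?_, ?_⟩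
  · rw [map_mul]
    exact Ideal.mul_mem_right _ _ (hα m hm)
  · rw [h.mul]
    exact Ideal.add_mem _ (Ideal.mul_mem_right _ _ (hpow m hm))
      (Ideal.mul_mem_right _ _ (hpow n hn))
  · rw [map_add]
    exact Ideal.add_mem _ hx.1 hy.1
  · rw [h.add]
    refine Ideal.sub_mem _ (Ideal.add_mem _ hx.2 hy.2) (Ideal.mul_mem_left _ _
      (Ideal.sum_mem _ fun i hi => Ideal.mul_mem_left _ _ (Ideal.mul_mem_right _ _ ?_)))
    rw [Finset.mem_Ico] at hi
    exact Ideal.pow_mem_of_mem _ hx.1 i (by omega)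

/-- An arc of potential zero has a regular center. -/
theorem regular_of_potW_zero {p : ℕ} (hp : p.Prime) {A V : Type} [CommRing A] [IsDomain A]
    [IsLocalRing A] [CommRing V] [IsDomain V] [IsDiscreteValuationRing V] (α : A →+* V)
    (hα : IsLocalHom α) (h : PotW p α 0) : IsRegularLocalRing A := by
  classical
  obtain ⟨c, B, _, ψ, L, θ, g, hB, hψ, hht, hθ, hg, hv⟩ := h
  have hloc : IsLocalHom ψ := .of_surjective ψ hψ
  have hloc' : IsLocalHom (α.comp ψ) := RingHom.isLocalHom_comp α ψ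
  have hmm : ∀ x ∈ maximalIdeal B, (α.comp ψ) x ∈ IsLocalRing.maximalIdeal V := fun x hx => by
    rw [mem_maximalIdeal, mem_nonunits_iff] at hx ⊢
    exact fun h => hx (isUnit_of_map_unit (α.comp ψ) x h)
  by_cases hind : ∀ b : Fin c → B, ∑ j, b j * g j ∈ maximalIdeal B ^ 2 → ∀ j, b j ∈ maximalIdeal B
  · exact regular_of_independent hB ψ hψ hht g hg hind
  · push Not at hind
    obtain ⟨b, hb, k₀, hk₀⟩ := hind
    exfalso
    set M : Matrix (Fin c) (Fin c) V := Matrix.of fun l k : Fin c => θ l (g k) with hM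
    have hrow : ∀ l, (M.mulVec fun k => α (ψ (b k)) ^ p) l ∈ IsLocalRing.maximalIdeal V := fun l => by
      have h1 := (hθ l).mem_maximalIdeal hp hmm hb
      rw [(hθ l).sum hp b g fun k => by rw [RingHom.comp_apply, hg, map_zero]] at h1
      convert h1 using 1
      rw [Matrix.mulVec, dotProduct]
      exact Finset.sum_congr rfl fun k _ => mul_comm _ _
    have hadj : (M.adjugate.mulVec (M.mulVec fun k => α (ψ (b k)) ^ p)) k₀ =
        M.det * α (ψ (b k₀)) ^ p := by
      rw [Matrix.mulVec_mulVec, Matrix.adjugate_mul, Matrix.smul_mulVec, Matrix.one_mulVec]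
      rfl
    have h4 : M.det * α (ψ (b k₀)) ^ p ∈ IsLocalRing.maximalIdeal V := by
      rw [← hadj, Matrix.mulVec, dotProduct]
      exact Ideal.sum_mem _ fun l _ => Ideal.mul_mem_left _ _ (hrow l)
    have h5 : IsUnit (α (ψ (b k₀)) ^ p) := by
      rw [mem_maximalIdeal, mem_nonunits_iff, not_not] at hk₀
      exact (hk₀.map (α.comp ψ)).pow p
    have h6 : M.det ∈ IsLocalRing.maximalIdeal V := (Ideal.mul_unit_mem_iff_mem _ h5).1 h4
    have h7 : addVal V M.det ≤ addVal V 1 := by
      rw [addVal_one]; exact_mod_cast hv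
    rw [addVal_le_iff_dvd] at h7
    exact h6 (isUnit_of_dvd_one h7)
-- END W3b

-- BEGIN W3c
/-- **Choice of the equations**: one of them can be taken in the square of the center. -/
theorem exists_equationsW {p : ℕ} (hp : p.Prime) {B A V : Type} [CommRing B] [CommRing A]
    [CommRing V] [IsDomain V] [IsDiscreteValuationRing V] (ψ : B →+* A)
    {𝔱 : Ideal A} {c ρ : ℕ} (hρ : ρ < c) (h : Fin ρ → B) (h0 : ∀ j, ψ (h j) = 0)
    (hrel : ∀ g, ψ g = 0 → ∃ b : Fin ρ → B, g - ∑ j, b j * h j ∈ 𝔱.comap ψ ^ 2)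
    (α : A →+* V) {L : Fin c → V} {θ : Fin c → B → V} (hθ : ∀ l, IsWD p (α.comp ψ) (L l) (θ l))
    (g : Fin c → B) (hg : ∀ k, ψ (g k) = 0) {n : ℕ}
    (hn : addVal V (Matrix.of fun l k : Fin c => θ l (g k)).det ≤ n) :
    ∃ (g' : Fin c → B) (k₀ : Fin c), (∀ k, ψ (g' k) = 0) ∧ g' k₀ ∈ 𝔱.comap ψ ^ 2 ∧
      addVal V (Matrix.of fun l k : Fin c => θ l (g' k)).det ≤ n := by
  classical
  set J := 𝔱.comap ψ with hJ
  have hker : ∀ x, ψ x = 0 → (α.comp ψ) x = 0 := fun x hx => by
    rw [RingHom.comp_apply, hx, map_zero]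
  let nb : B → Fin c → V := fun x l => θ l x
  let W : Submodule V (Fin c → V) := Submodule.span V (nb '' {x | x ∈ J ^ 2 ∧ ψ x = 0})
  let U : Submodule V (Fin c → V) := Submodule.span V (nb '' {x | ψ x = 0})
  have hWU : W ≤ U := Submodule.span_mono (Set.image_mono fun x hx => hx.2)
  have hdet : ∀ g : Fin c → B, (Matrix.of fun l k : Fin c => θ l (g k)).det =
      (Matrix.of fun k => nb (g k)).det := fun g => by
    rw [← Matrix.det_transpose]
    rfl
  have hmem := det_mem_span hρ W U hWU (fun j => nb (h j))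
    (fun j => Submodule.subset_span ⟨h j, h0 j, rfl⟩) (fun k => nb (g k)) (fun k => by
      obtain ⟨b, hb⟩ := hrel (g k) (hg k)
      have hs : ψ (∑ j, b j * h j) = 0 := by simp [h0]
      refine ⟨fun j => α (ψ (b j)) ^ p, ?_⟩
      have h1 : nb (g k) - ∑ j, α (ψ (b j)) ^ p • nb (h j) = nb (g k - ∑ j, b j * h j) := by
        funext l
        have h2 := (hθ l).add_of_left (a := g k - ∑ j, b j * h j)
          (hker _ (by rw [map_sub, hg, hs, sub_zero])) (∑ j, b j * h j)
        rw [sub_add_cancel, (hθ l).sum hp b h fun j => hker _ (h0 j)] at h2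
        simp only [nb, Pi.sub_apply, Finset.sum_apply, Pi.smul_apply, smul_eq_mul]
        rw [h2]
        simp
      rw [h1]
      exact Submodule.subset_span ⟨_, ⟨hb, by rw [map_sub, hg, hs, sub_zero]⟩, rfl⟩)
  rw [hdet g] at hn
  -- the determinants of vectors in the spans are combinations of the determinants of the vectors
  have hexp : (Matrix.of fun k => nb (g k)).det ∈ Ideal.span {x : V | ∃ (z : Fin c → B) (k₀ : Fin c),
      (∀ k, ψ (z k) = 0) ∧ z k₀ ∈ J ^ 2 ∧ x = (Matrix.of fun k => nb (z k)).det} := by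
    refine Ideal.span_le.2 ?_ hmem
    rintro _ ⟨v, hvU, ⟨k₀, hk₀⟩, rfl⟩
    -- induction on the number of replaced rows
    have key : ∀ (s : Finset (Fin c)) (w : Fin c → Fin c → V),
        (∀ k ∈ s, w k ∈ if k = k₀ then W else U) →
        (∀ k ∉ s, w k ∈ nb '' (if k = k₀ then {x | x ∈ J ^ 2 ∧ ψ x = 0} else {x | ψ x = 0})) →
        (Matrix.of w).det ∈ Ideal.span {x : V | ∃ (z : Fin c → B) (k₀ : Fin c),
          (∀ k, ψ (z k) = 0) ∧ z k₀ ∈ J ^ 2 ∧ x = (Matrix.of fun k => nb (z k)).det} := by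
      intro s
      induction s using Finset.induction_on with
      | empty =>
        intro w _ hw
        choose z hz1 hz2 using fun k => hw k (Finset.notMem_empty k)
        refine Ideal.subset_span ⟨z, k₀, fun k => ?_, ?_, ?_⟩
        · have := hz1 k
          split_ifs at this
          exacts [this.2, this]
        · have := hz1 k₀
          rw [if_pos rfl] at this
          exact this.1
        · exact congrArg (fun f => (Matrix.of f).det) (funext fun k => (hz2 k).symm)
      | insert a s ha ih =>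
        intro w hw1 hw2
        have h1 : ∀ y ∈ (if a = k₀ then W else U),
            (Matrix.of (Function.update w a y)).det ∈ Ideal.span {x : V | ∃ (z : Fin c → B)
              (k₀ : Fin c), (∀ k, ψ (z k) = 0) ∧ z k₀ ∈ J ^ 2 ∧
              x = (Matrix.of fun k => nb (z k)).det} := by
          intro y hy
          have hy' : y ∈ Submodule.span V
              (nb '' (if a = k₀ then {x | x ∈ J ^ 2 ∧ ψ x = 0} else {x | ψ x = 0})) := by
            split_ifs at hy ⊢ <;> exact hy
          refine Submodule.span_induction (p := fun y _ =>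
            (Matrix.of (Function.update w a y)).det ∈ Ideal.span {x : V | ∃ (z : Fin c → B)
              (k₀ : Fin c), (∀ k, ψ (z k) = 0) ∧ z k₀ ∈ J ^ 2 ∧
              x = (Matrix.of fun k => nb (z k)).det}) ?_ ?_ ?_ ?_ hy'
          · intro y hy
            refine ih _ (fun k hk => ?_) fun k hk => ?_
            · rw [Function.update_of_ne (by rintro rfl; exact ha hk)]
              exact hw1 k (Finset.mem_insert_of_mem hk)
            · rcases eq_or_ne k a with rfl | hka
              · rw [Function.update_self]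
                exact hy
              · rw [Function.update_of_ne hka]
                exact hw2 k (by simp [hka, hk])
          · have : (Matrix.of (Function.update w a 0)).det = 0 :=
              Matrix.det_eq_zero_of_row_eq_zero a fun j => by simp
            rw [this]
            exact Ideal.zero_mem _
          · intro y z _ _ hy hz
            have : (Matrix.of (Function.update w a (y + z))).det =
                (Matrix.of (Function.update w a y)).det +
                (Matrix.of (Function.update w a z)).det :=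
              Matrix.det_updateRow_add (Matrix.of w) a y z
            rw [this]
            exact Ideal.add_mem _ hy hz
          · intro r y _ hy
            have : (Matrix.of (Function.update w a (r • y))).det =
                r * (Matrix.of (Function.update w a y)).det :=
              Matrix.det_updateRow_smul (Matrix.of w) a r y
            rw [this]
            exact Ideal.mul_mem_left _ _ hy
        have h2 := h1 (w a) (hw1 a (Finset.mem_insert_self a s))
        rwa [Function.update_eq_self] at h2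
    refine key Finset.univ v (fun k _ => ?_) fun k hk => absurd (Finset.mem_univ k) hk
    split_ifs with h
    · exact h ▸ hk₀
    · exact hvU k
  obtain ⟨_, ⟨z, k₀, hz1, hz2, rfl⟩, hy⟩ := exists_addVal_le (RingHom.id V) hexp hn
  exact ⟨z, k₀, hz1, hz2, by rw [hdet]; exact hy⟩
-- END W3c

end Pool.Agent.Lib.MP_6a3dac_ag.NU
end

section

/-!
# NU: the potential drops, arcs of characteristic `p`
-/

set_option autoImplicit false

namespace Pool.Agent.Lib.MP_6a3dac_ag.NU

open IsLocalRing IsDiscreteValuationRing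

-- BEGIN W4a
/-- The center does not contain the generic point of an arc of finite potential. -/
theorem PotW.exists_ne {p : ℕ} (hp : p.Prime) {A V : Type} [CommRing A] [IsDomain A]
    [IsNoetherianRing A] [IsLocalRing A] [CommRing V] [IsDomain V] [IsDiscreteValuationRing V]
    {𝔱 : Ideal A} (hreg : IsRegularLocalRing (A ⧸ 𝔱)) (hfree : ConFree 𝔱) {α : A →+* V}
    (hA : ¬ IsRegularLocalRing A) {n : ℕ} (h : PotW p α n) : ∃ x ∈ 𝔱, α x ≠ 0 := by
  obtain ⟨c, B, iB, ψ, L, θ, g, hB, hψ, hht, hθ, hg, hn⟩ := h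
  obtain ⟨ρ, h, hρ, h0, hrel⟩ := exists_relations hB ψ hψ hreg hfree hA hht
  by_contra hcon
  push Not at hcon
  have hJ : ∀ x ∈ 𝔱.comap ψ, (α.comp ψ) x = 0 := fun x hx => hcon _ hx
  have hker : ∀ x, ψ x = 0 → (α.comp ψ) x = 0 := fun x hx => by
    rw [RingHom.comp_apply, hx, map_zero]
  have hsq : ∀ l, ∀ x ∈ 𝔱.comap ψ ^ 2, θ l x = 0 := by
    intro l x hx
    rw [pow_two] at hx
    suffices h1 : (α.comp ψ) x = 0 ∧ θ l x = 0 from h1.2
    refine Submodule.mul_induction_on hx (fun m hm n hn => ⟨?_, ?_⟩) fun x y hx hy => ⟨?_, ?_⟩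
    · rw [map_mul, hJ m hm, zero_mul]
    · rw [(hθ l).mul, hJ m hm, hJ n hn, zero_pow hp.ne_zero]; ring
    · rw [map_add, hx.1, hy.1, add_zero]
    · rw [(hθ l).add_of_left hx.1, hx.2, hy.2, add_zero]
  choose b hb using fun k => hrel (g k) (hg k)
  have hval : ∀ l k, θ l (g k) = ∑ j, α (ψ (b k j)) ^ p * θ l (h j) := by
    intro l k
    have hs : ψ (∑ j, b k j * h j) = 0 := by simp [h0]
    have h2 := (hθ l).add_of_left (a := g k - ∑ j, b k j * h j)
      (hker _ (by rw [map_sub, hg, hs, sub_zero])) (∑ j, b k j * h j)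
    rw [sub_add_cancel, (hθ l).sum hp _ _ fun j => hker _ (h0 j), hsq l _ (hb k), zero_add] at h2
    exact h2
  have hdet : (Matrix.of fun l k : Fin c => θ l (g k)).det = 0 := by
    have h1 : (Matrix.of fun l k : Fin c => θ l (g k)) =
        (Matrix.of fun (l : Fin c) (j : Fin ρ) => θ l (h j)) *
        (Matrix.of fun (j : Fin ρ) (k : Fin c) => α (ψ (b k j)) ^ p) := by
      ext l k
      simp only [Matrix.of_apply, Matrix.mul_apply, hval l k]
      exact Finset.sum_congr rfl fun j _ => mul_comm _ _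
    rw [h1]
    by_contra h2
    have h3 := card_le_of_injective V (Matrix.of fun (l : Fin c) (j : Fin ρ) =>
      θ l (h j)).vecMulLinear ((injective_iff_map_eq_zero _).2 fun x hx => by
        by_contra hx0
        refine h2 (Matrix.exists_vecMul_eq_zero_iff.1 ⟨x, hx0, ?_⟩)
        rw [Matrix.vecMulLinear_apply] at hx
        rw [← Matrix.vecMul_vecMul, hx, Matrix.zero_vecMul])
    simp only [Fintype.card_fin] at h3
    omega
  rw [hdet, addVal_zero, top_le_iff] at hn
  exact ENat.natCast_ne_top n hn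
-- END W4a

-- BEGIN W4b
/-- **The minor of the divided equations.** -/
theorem IsBlowAlg.detW {p : ℕ} (hp : p.Prime) {B D A' V : Type} [CommRing B] [CommRing D]
    [CommRing A'] [IsDomain A'] [Algebra B D] {χ : B →+* A'} {J : Ideal B} {t : B} {χ' : D →+* A'}
    (h : IsBlowAlg χ J t χ') [CommRing V] [IsDomain V] (α : A' →+* V) (h0 : α (χ t) ≠ 0) {c : ℕ}
    {L : Fin c → V} {θ : Fin c → B → V} {θ' : Fin c → D → V}
    (hθ : ∀ l, IsWD p (α.comp χ) (L l) (θ l))
    (hθ' : ∀ l, IsWD p (α.comp χ') (α (χ t) ^ p * L l) (θ' l))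
    (hext : ∀ l b, θ' l (algebraMap B D b) = α (χ t) ^ p * θ l b) (g : Fin c → B)
    (hg : ∀ k, χ (g k) = 0) (y : Fin c → D) (k₀ : Fin c)
    (hy₀ : algebraMap B D t ^ 2 * y k₀ = algebraMap B D (g k₀))
    (hy : ∀ k, k ≠ k₀ → algebraMap B D t * y k = algebraMap B D (g k)) :
    (∀ k, χ' (y k) = 0) ∧ α (χ t) ^ p * (Matrix.of fun l k : Fin c => θ' l (y k)).det =
      (Matrix.of fun l k : Fin c => θ l (g k)).det := by
  have hne : α (χ t) ^ p ≠ 0 := pow_ne_zero p h0
  have h00 : χ' (y k₀) = 0 := by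
    have := congrArg χ' hy₀
    rw [map_mul, map_pow, h.comp, h.comp, hg] at this
    exact (mul_eq_zero.1 this).resolve_left (pow_ne_zero 2 h.ne)
  have h01 : ∀ k, k ≠ k₀ → χ' (y k) = 0 := fun k hk => by
    have := congrArg χ' (hy k hk)
    rw [map_mul, h.comp, h.comp, hg] at this
    exact (mul_eq_zero.1 this).resolve_left h.ne
  have hχ : ∀ k, χ' (y k) = 0 := fun k => by
    by_cases hk : k = k₀
    · exact hk ▸ h00
    · exact h01 k hk
  have hα : ∀ k, (α.comp χ') (y k) = 0 := fun k => by rw [RingHom.comp_apply, hχ, map_zero]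
  refine ⟨hχ, ?_⟩
  have h1 : ∀ l k, k ≠ k₀ → θ' l (y k) = θ l (g k) := fun l k hk => by
    have h2 := (hθ' l).mul_of_right hp (algebraMap B D t) (hα k)
    rw [hy k hk, hext, RingHom.comp_apply, h.comp] at h2
    exact (mul_left_cancel₀ hne h2).symm
  have h2 : ∀ l, α (χ t) ^ p * θ' l (y k₀) = θ l (g k₀) := fun l => by
    have h3 := (hθ' l).mul_of_right hp (algebraMap B D t ^ 2) (hα k₀)
    rw [hy₀, hext, RingHom.comp_apply, map_pow, h.comp, map_pow] at h3
    refine mul_left_cancel₀ hne ?_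
    rw [h3]
    ring
  have h3 : (Matrix.of fun l k : Fin c => θ l (g k)) =
      Matrix.of fun l k => (if k = k₀ then α (χ t) ^ p else 1) * θ' l (y k) := by
    ext l k
    by_cases hk : k = k₀
    · subst hk
      simp [h2 l]
    · simp [hk, h1 l k hk]
  have h4 := Matrix.det_mul_row (fun k => if k = k₀ then α (χ t) ^ p else 1)
    (Matrix.of fun l k : Fin c => θ' l (y k))
  rw [Finset.prod_ite_eq' Finset.univ k₀ (fun _ => α (χ t) ^ p), if_pos (Finset.mem_univ _)] at h4
  exact h4.symm.trans (congrArg Matrix.det h3.symm)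
-- END W4b

-- BEGIN W4c
/-- **The potential drops.** -/
theorem PotW.step {p : ℕ} (hp : p.Prime) {A A' V : Type} [CommRing A] [IsDomain A]
    [IsNoetherianRing A] [IsLocalRing A] [CommRing A'] [IsDomain A'] [IsLocalRing A']
    [CommRing V] [IsDomain V] [IsDiscreteValuationRing V] [CharP V p] {𝔱 : Ideal A}
    (hreg : IsRegularLocalRing (A ⧸ 𝔱))
    (hfree : ConFree 𝔱) {φ : A →+* A'} (hφ : Function.Injective φ) (hφl : IsLocalHom φ)
    (hqt : IsQTI 𝔱 φ) {α : A →+* V} {α' : A' →+* V} (hα' : IsLocalHom α') (hαφ : α'.comp φ = α)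
    (hA : ¬ IsRegularLocalRing A) {n : ℕ} (h : PotW p α n) : ∃ m < n, PotW p α' m := by
  obtain ⟨x₀, hx₀, hx₀'⟩ := h.exists_ne hp hreg hfree hA
  obtain ⟨f, hf, hf0, hdvd, hgenf⟩ := hqt.ex
  obtain ⟨c, B, iB, ψ, L, θ, g, hB, hψ, hht, hθ, hg, hn⟩ := h
  have hBd : IsDomain B := isDomain_aux _ B le_rfl
  obtain ⟨t, rfl⟩ := hψ f
  have ht0 : α' (φ (ψ t)) ≠ 0 := fun h => hx₀' (by
    obtain ⟨z, hz⟩ := hdvd x₀ hx₀
    rw [← hαφ, RingHom.comp_apply, hz, map_mul, h, zero_mul])
  obtain ⟨D, iD, aD, χ', hD, hb⟩ := exists_blowAlg (φ.comp ψ) (𝔱.comap ψ) (t := t) hf hf0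
    (fun x hx => hdvd (ψ x) hx)
  have hgen : ∀ z : A', ∃ p q : D, IsUnit (χ' q) ∧ χ' q * z = χ' p := by
    intro z
    obtain ⟨p, hp, q, hq, hqu, hqz⟩ := hgenf z
    have hr : blowSubI 𝔱 φ (ψ t) ≤ χ'.range := by
      rw [blowSubI, Subring.closure_le]
      rintro x (⟨a, rfl⟩ | ⟨g, hg, hx⟩)
      · obtain ⟨b, rfl⟩ := hψ a
        exact ⟨algebraMap B D b, hb.comp b⟩
      · obtain ⟨y, rfl⟩ := hψ g
        obtain ⟨w, hw⟩ := hb.dvd y hg
        refine ⟨w, mul_left_cancel₀ hf0 (Eq.trans ?_ hx.symm)⟩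
        have e := congrArg χ' hw
        rw [map_mul, hb.comp, hb.comp] at e
        exact e.symm
    obtain ⟨p', rfl⟩ := hr hp
    obtain ⟨q', rfl⟩ := hr hq
    exact ⟨p', q', hqu, hqz⟩
  have hB' : IsRegularLocalRing (Localization.AtPrime
      ((IsLocalRing.maximalIdeal A').comap χ')) := by
    have hk : 𝔱.comap ψ = RingHom.ker ((Ideal.Quotient.mk 𝔱).comp ψ) := by
      rw [← RingHom.comap_ker, Ideal.mk_ker]
    have hJr : IsRegularLocalRing (B ⧸ 𝔱.comap ψ) := IsRegularLocalRing.of_ringEquiv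
      ((Ideal.quotEquivOfEq hk).trans (RingHom.quotientKerEquivOfSurjective
        (Ideal.Quotient.mk_surjective.comp hψ))).symm
    obtain ⟨r, s, hs, -, hi⟩ := exists_gens_of_regular_quotient hB _ hJr
    obtain ⟨q, s', hq, hs'⟩ := exists_gens_insert' s hs hi hb.mem (not_mem_mul ψ hψ φ hφl hf0 hdvd)
    have hψl : IsLocalHom ψ := IsLocalHom.of_surjective ψ hψ
    refine hb.isRegular hB s' hq
      (IsLocalRing.le_maximalIdeal (Ideal.Quotient.nontrivial_iff.1 inferInstance)) hs' _ ?_
    have e : χ'.comp (algebraMap B D) = φ.comp ψ := RingHom.ext hb.comp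
    rw [Ideal.comap_comap, e, ← Ideal.comap_comap, IsLocalRing.maximalIdeal_comap,
      IsLocalRing.maximalIdeal_comap]
  obtain ⟨ψ', hψ'1, hψ'2, hψ'3⟩ := exists_local_surjection χ' hgen
  obtain ⟨ρ, h, hρ, h0, hrel⟩ := exists_relations hB ψ hψ hreg hfree hA hht
  obtain ⟨g', k₀, hg', hk₀, hn'⟩ := exists_equationsW hp ψ hρ h h0 hrel α hθ g hg hn
  have hθ1 : ∀ l, IsWD p (α'.comp (φ.comp ψ)) (L l) (θ l) := fun l => by
    rw [← RingHom.comp_assoc, hαφ]
    exact hθ l
  choose θ' hθ' hext using fun l => hb.exists_wd hp α' ht0 (hθ1 l)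
  have hy : ∀ k, ∃ y : D, (k = k₀ → algebraMap B D t ^ 2 * y = algebraMap B D (g' k)) ∧
      (k ≠ k₀ → algebraMap B D t * y = algebraMap B D (g' k)) := by
    intro k
    by_cases hk : k = k₀
    · subst hk
      have h1 : (𝔱.comap ψ).map (algebraMap B D) ≤ Ideal.span {algebraMap B D t} :=
        Ideal.map_le_iff_le_comap.2 fun x hx => Ideal.mem_span_singleton.2 (hb.dvd x hx)
      have h2 := Ideal.pow_right_mono h1 2 ((Ideal.map_pow (algebraMap B D) _ 2).le
        (Ideal.mem_map_of_mem (algebraMap B D) hk₀))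
      rw [Ideal.span_singleton_pow, Ideal.mem_span_singleton] at h2
      obtain ⟨y, hy⟩ := h2
      exact ⟨y, fun _ => hy.symm, fun h => absurd rfl h⟩
    · obtain ⟨y, hy⟩ := hb.dvd (g' k) (by rw [Ideal.mem_comap, hg']; exact 𝔱.zero_mem)
      exact ⟨y, fun h => absurd h hk, fun _ => hy.symm⟩
  choose y hy1 hy2 using hy
  obtain ⟨hy0, hdet⟩ := hb.detW hp α' ht0 hθ1 hθ' hext g'
    (fun k => by rw [RingHom.comp_apply, hg', map_zero]) y k₀ (hy1 k₀ rfl) hy2
  have hθ2 : ∀ l, IsWD p ((α'.comp ψ').comp (algebraMap D (Localization.AtPrime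
      ((IsLocalRing.maximalIdeal A').comap χ')))) (α' ((φ.comp ψ) t) ^ p * L l) (θ' l) := by
    intro l
    have e : (α'.comp ψ').comp (algebraMap D _) = α'.comp χ' :=
      RingHom.ext fun x => congrArg α' (hψ'1 x)
    rw [e]
    exact hθ' l
  choose θ'' hθ'' hθ''2 using fun l => exists_wd_localization hp
    ((IsLocalRing.maximalIdeal A').comap χ').primeCompl (α'.comp ψ') (hθ2 l)
  have hval : addVal V (α' ((φ.comp ψ) t) ^ p) +
      addVal V (Matrix.of fun l k : Fin c => θ' l (y k)).det ≤ n := by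
    rw [← addVal_mul, hdet]
    exact hn'
  have h𝔱 : 𝔱 ≤ IsLocalRing.maximalIdeal A :=
    IsLocalRing.le_maximalIdeal (Ideal.Quotient.nontrivial_iff.1 inferInstance)
  have h1 : (1 : ℕ∞) ≤ addVal V (α' ((φ.comp ψ) t) ^ p) := by
    rw [Order.one_le_iff_ne_zero, Ne, addVal_eq_zero_iff, isUnit_pow_iff hp.ne_zero,
      RingHom.comp_apply, isUnit_map_iff, isUnit_map_iff]
    exact h𝔱 hf
  obtain ⟨m, hm⟩ := ENat.ne_top_iff_exists.1
    (ne_top_of_le_ne_top (ENat.natCast_ne_top n) (le_add_self.trans hval))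
  rw [← hm] at hval
  refine ⟨m, ?_, c, _, _, ψ', _, θ'', fun k => algebraMap D _ (y k), hB', hψ'2, ?_, hθ'',
    fun k => by rw [hψ'1, hy0], ?_⟩
  · have h2 : ((1 + m : ℕ) : ℕ∞) ≤ n := by
      push_cast
      exact (add_le_add_left h1 _).trans hval
    have h3 : 1 + m ≤ n := by exact_mod_cast h2
    omega
  · rw [hψ'3]
    refine hb.height_le.trans ?_
    rwa [RingHom.ker_comp_of_injective ψ hφ]
  · refine le_of_eq ?_
    rw [hm]
    exact congrArg (fun M : Matrix (Fin c) (Fin c) V => addVal V M.det)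
      (Matrix.ext fun l k => hθ''2 l (y k))
-- END W4c

end Pool.Agent.Lib.MP_6a3dac_ag.NU
end

section

/-!
# NU: the Witt derivations of the polynomial ring and the mixed Jacobian criterion
-/

set_option autoImplicit false

namespace Pool.Agent.Lib.MP_6a3dac_ag.NU

open IsLocalRing MvPolynomial

-- BEGIN W6a
theorem w6a_delta {N p : ℕ} (hp : p.Prime) (f : MvPolynomial (Fin N) ℤ) :
    ∃ g : MvPolynomial (Fin N) ℤ, (p : MvPolynomial (Fin N) ℤ) * g = expand p f - f ^ p := by
  have : Fact p.Prime := ⟨hp⟩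
  have h1 : C (p : ℤ) ∣ expand p f - f ^ p := by
    rw [MvPolynomial.C_dvd_iff_zmod, map_sub, map_pow, map_expand, expand_zmod, sub_self]
  obtain ⟨g, hg⟩ := h1
  refine ⟨g, ?_⟩
  rw [hg]
  simp

/-- The `p`-derivation of the polynomial ring. -/
noncomputable def wDelta {N p : ℕ} (hp : p.Prime) (f : MvPolynomial (Fin N) ℤ) :
    MvPolynomial (Fin N) ℤ :=
  (w6a_delta hp f).choose

theorem wDelta_spec {N p : ℕ} (hp : p.Prime) (f : MvPolynomial (Fin N) ℤ) :
    (p : MvPolynomial (Fin N) ℤ) * wDelta hp f = expand p f - f ^ p :=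
  (w6a_delta hp f).choose_spec

/-- The components of the universal Witt derivation of the polynomial ring. -/
noncomputable def wD {N p : ℕ} (hp : p.Prime) (l : Fin (N + 1)) (f : MvPolynomial (Fin N) ℤ) :
    MvPolynomial (Fin N) ℤ :=
  Fin.cases (wDelta hp f) (fun i => (pderiv i f) ^ p) l

theorem wD_zero {N p : ℕ} (hp : p.Prime) (f : MvPolynomial (Fin N) ℤ) :
    wD hp 0 f = wDelta hp f := rfl

theorem wD_succ {N p : ℕ} (hp : p.Prime) (i : Fin N) (f : MvPolynomial (Fin N) ℤ) :
    wD hp i.succ f = (pderiv i f) ^ p := rfl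

theorem w6a_ne {N p : ℕ} (hp : p.Prime) : (p : MvPolynomial (Fin N) ℤ) ≠ 0 :=
  Nat.cast_ne_zero.2 hp.ne_zero

theorem wDelta_add {N p : ℕ} (hp : p.Prime) (f g : MvPolynomial (Fin N) ℤ) :
    wDelta hp (f + g) = wDelta hp f + wDelta hp g - wP p f g := by
  refine mul_left_cancel₀ (w6a_ne hp) ?_
  rw [mul_sub, mul_add, p_mul_wP hp, wDelta_spec, wDelta_spec, wDelta_spec, map_add]
  ring

theorem wDelta_mul {N p : ℕ} (hp : p.Prime) (f g : MvPolynomial (Fin N) ℤ) :
    wDelta hp (f * g) = f ^ p * wDelta hp g + g ^ p * wDelta hp f +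
      p * (wDelta hp f * wDelta hp g) := by
  refine mul_left_cancel₀ (w6a_ne hp) ?_
  have h1 := wDelta_spec hp f
  have h2 := wDelta_spec hp g
  have h3 := wDelta_spec hp (f * g)
  rw [map_mul] at h3
  rw [h3]
  have e1 : expand p f = f ^ p + p * wDelta hp f := by rw [h1]; ring
  have e2 : expand p g = g ^ p + p * wDelta hp g := by rw [h2]; ring
  rw [e1, e2]
  ring

theorem wDelta_X {N p : ℕ} (hp : p.Prime) (i : Fin N) : wDelta hp (X i) = 0 := by
  refine mul_left_cancel₀ (w6a_ne hp) ?_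
  rw [wDelta_spec, expand_X, sub_self, mul_zero]

theorem wDelta_p {N p : ℕ} (hp : p.Prime) :
    wDelta hp (p : MvPolynomial (Fin N) ℤ) = 1 - (p : MvPolynomial (Fin N) ℤ) ^ (p - 1) := by
  refine mul_left_cancel₀ (w6a_ne hp) ?_
  have h1 : (p : MvPolynomial (Fin N) ℤ) ^ p = p * (p : MvPolynomial (Fin N) ℤ) ^ (p - 1) := by
    rw [← pow_succ', Nat.sub_add_cancel hp.one_le]
  rw [wDelta_spec, map_natCast, h1]
  ring

/-- The components along a homomorphism to a ring of characteristic `p`. -/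
theorem isWD_wD {N p : ℕ} (hp : p.Prime) {V : Type} [CommRing V] [CharP V p]
    (α : MvPolynomial (Fin N) ℤ →+* V) (l : Fin (N + 1)) :
    IsWD p α (if l = 0 then 1 else 0) fun f => α (wD hp l f) := by
  have : Fact p.Prime := ⟨hp⟩
  refine Fin.cases ⟨fun f g => ?_, fun f g => ?_⟩ (fun i => ⟨fun f g => ?_, fun f g => ?_⟩) l
  · simp only [wD_zero, wDelta_add, map_sub, map_add, map_wP, if_true, one_mul]
  · simp only [wD_zero, wDelta_mul, map_add, map_mul, map_pow, map_natCast, CharP.cast_eq_zero,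
      zero_mul, add_zero]
  · simp only [wD_succ, map_add, map_pow, Fin.succ_ne_zero, if_false, zero_mul, sub_zero]
    exact add_pow_char _ _ p
  · simp only [wD_succ, Derivation.leibniz, smul_eq_mul, map_add, map_mul, map_pow]
    rw [add_pow_char, mul_pow, mul_pow]
-- END W6a

-- BEGIN W6b
/-- Witt derivations of powers. -/
theorem IsWD.map_pow {p : ℕ} (hp : p.Prime) {B V : Type} [CommRing B] [CommRing V] {α : B →+* V}
    {L : V} {θ : B → V} (h : IsWD p α L θ) (a : B) (n : ℕ) :
    θ (a ^ (n + 1)) = (n + 1 : ℕ) * (α a ^ (p * n) * θ a) := by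
  induction n with
  | zero => simp
  | succ n ih =>
    have e : (α a ^ (n + 1)) ^ p = α a ^ (p * n) * α a ^ p := by
      rw [← pow_mul, ← pow_add]; congr 1; ring
    rw [pow_succ a (n + 1), h.mul, ih, _root_.map_pow, e, mul_add p n 1, pow_add, mul_one]
    push_cast
    ring

/-- Combinations of Witt derivations. -/
theorem isWD_sum {p : ℕ} {B V : Type} [CommRing B] [CommRing V] {α : B →+* V} {m : ℕ}
    {L : Fin m → V} {θ : Fin m → B → V} (h : ∀ l, IsWD p α (L l) (θ l)) (μ : Fin m → V) :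
    IsWD p α (∑ l, μ l * L l) fun b => ∑ l, μ l * θ l b := by
  refine ⟨fun a b => ?_, fun a b => ?_⟩
  · simp only [(h _).add, mul_sub, mul_add, Finset.sum_sub_distrib, Finset.sum_add_distrib,
      Finset.sum_mul, mul_assoc]
  · simp only [(h _).mul, mul_add, Finset.sum_add_distrib, Finset.mul_sum]
    congr 1 <;> exact Finset.sum_congr rfl fun l _ => by ring

/-- **The functionals on the values of the Witt derivation on a maximal ideal.** -/
theorem wD_functional {N p : ℕ} (hp : p.Prime) {κ : Type} [Field κ] [CharP κ p] [Finite κ]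
    (ev : MvPolynomial (Fin N) ℤ →+* κ) (hev : Function.Surjective ev) (μ : Fin (N + 1) → κ)
    (h : ∀ f, ev f = 0 → ∑ l, μ l * ev (wD hp l f) = 0) (l : Fin (N + 1)) : μ l = 0 := by
  have : Fact p.Prime := ⟨hp⟩
  have hw := isWD_sum (fun l => isWD_wD hp ev l) μ
  set θ : MvPolynomial (Fin N) ℤ → κ := fun b => ∑ l, μ l * ev (wD hp l b) with hθ
  have hL : ∑ l : Fin (N + 1), μ l * (if l = 0 then (1 : κ) else 0) = μ 0 := by simp
  rw [hL] at hw
  have hp0 : ev (p : MvPolynomial (Fin N) ℤ) = 0 := by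
    rw [map_natCast, CharP.cast_eq_zero]
  have h0 : μ 0 = 0 := by
    have h1 := h _ hp0
    rw [Fin.sum_univ_succ] at h1
    have h2 : ∀ i : Fin N, ev (wD hp i.succ (p : MvPolynomial (Fin N) ℤ)) = 0 := fun i => by
      rw [wD_succ, Derivation.map_natCast, zero_pow hp.ne_zero, map_zero]
    have h3 : ev (wD hp 0 (p : MvPolynomial (Fin N) ℤ)) = 1 := by
      rw [wD_zero, wDelta_p, map_sub, map_one, _root_.map_pow, hp0,
        zero_pow (Nat.sub_ne_zero_of_lt hp.one_lt), sub_zero]
    simpa [h2, h3] using h1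
  have hall : ∀ f, θ f = 0 := by
    intro f
    obtain ⟨a, ha⟩ : ∃ a : κ, a ^ p = ev f := by
      have := Fintype.ofFinite κ
      have hb : Function.Bijective (frobenius κ p) :=
        Finite.injective_iff_bijective.1 (frobenius_inj κ p)
      exact hb.2 (ev f)
    obtain ⟨g, rfl⟩ := hev a
    have h1 : ev (f - g ^ p) = 0 := by rw [map_sub, _root_.map_pow, ha, sub_self]
    have h2 := hw.add_of_left h1 (g ^ p)
    rw [sub_add_cancel] at h2
    have h3 : θ (g ^ p) = 0 := by
      have := hw.map_pow hp g (p - 1)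
      rw [Nat.sub_add_cancel hp.one_le, CharP.cast_eq_zero, zero_mul] at this
      exact this
    rw [h2, h3, add_zero]
    exact h _ h1
  refine Fin.cases h0 (fun i => ?_) l
  have h1 := hall (X i)
  simp only [hθ, Fin.sum_univ_succ, h0, zero_mul, zero_add, wD_succ] at h1
  rw [Finset.sum_eq_single i (fun j _ hj => by
    rw [pderiv_X_of_ne hj.symm, zero_pow hp.ne_zero, map_zero, mul_zero]) (by simp)] at h1
  simpa using h1
-- END W6b

end Pool.Agent.Lib.MP_6a3dac_ag.NU
end

section

/-!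
# NU: the mixed Jacobian criterion
-/

set_option autoImplicit false

namespace Pool.Agent.Lib.MP_6a3dac_ag.NU

open IsLocalRing MvPolynomial

-- BEGIN W7a
/-- **Independent elements of the cotangent space have independent Witt gradients.** -/
theorem linearIndependent_wD {N p : ℕ} (hp : p.Prime) {κ : Type} [Field κ] [CharP κ p] [Finite κ]
    {B : Type} [CommRing B] [Algebra (MvPolynomial (Fin N) ℤ) B] (M : Submonoid (MvPolynomial (Fin N) ℤ))
    [IsLocalization M B] (hB : IsRegularLocalRing B)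
    (hdim : ringKrullDim B ≤ (N + 1 : ℕ)) (α : B →+* κ)
    (hα : ∀ x, α x = 0 → x ∈ maximalIdeal B)
    (hev : Function.Surjective (α.comp (algebraMap (MvPolynomial (Fin N) ℤ) B))) {c : ℕ}
    (g : Fin c → MvPolynomial (Fin N) ℤ) (hg : ∀ k, α (algebraMap _ B (g k)) = 0)
    (hind : ∀ b : Fin c → B, ∑ j, b j * algebraMap _ B (g j) ∈ maximalIdeal B ^ 2 →
      ∀ j, b j ∈ maximalIdeal B) :
    LinearIndependent κ fun k : Fin c => fun l : Fin (N + 1) =>
      α (algebraMap _ B (wD hp l (g k))) := by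
  classical
  have hαm : ∀ x ∈ maximalIdeal B, α x = 0 := fun x hx => by
    by_contra h
    obtain ⟨y, hy⟩ := (hev (α x)⁻¹)
    have h1 : α (1 - x * algebraMap _ B y) = 0 := by
      rw [RingHom.comp_apply] at hy
      rw [map_sub, map_one, map_mul, hy, mul_inv_cancel₀ h, sub_self]
    have h2 := Ideal.add_mem _ (hα _ h1) (Ideal.mul_mem_right (algebraMap _ B y) _ hx)
    rw [sub_add_cancel] at h2
    exact (Ideal.ne_top_iff_one _).1 (maximalIdeal.isMaximal B).ne_top h2
  choose θ hθ hθe using fun l => exists_wd_localization hp M α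
    (isWD_wD hp (α.comp (algebraMap (MvPolynomial (Fin N) ℤ) B)) l)
  obtain ⟨s, hs, hc, he⟩ := am2a_gens (fun k => algebraMap _ B (g k)) (fun k => hα _ (hg k)) hind
  have := hs.to_subtype
  have := Fintype.ofFinite s
  let v : Fin c ⊕ s → B := Sum.elim (fun k => algebraMap _ B (g k)) Subtype.val
  have hv0 : ∀ i, α (v i) = 0 := by
    rintro (k | ⟨x, hx⟩)
    · exact hg k
    · exact hαm x (he ▸ Ideal.subset_span (Or.inr hx))
  let w : Fin c ⊕ s → Fin (N + 1) → κ := fun i l => θ l (v i)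
  have hspan : ⊤ ≤ Submodule.span κ (Set.range w) := by
    rw [top_le_iff]
    by_contra hne
    obtain ⟨f, hf, hle⟩ := Submodule.exists_le_ker_of_lt_top _ (lt_top_iff_ne_top.2 hne)
    refine hf ?_
    obtain ⟨μ, hμd⟩ : ∃ μ : Fin (N + 1) → κ, ∀ l, μ l = f fun j => if l = j then 1 else 0 :=
      ⟨_, fun _ => rfl⟩
    have hμ : ∀ y : Fin (N + 1) → κ, f y = ∑ l, μ l * y l := fun y => by
      conv_lhs => rw [LinearMap.pi_apply_eq_sum_univ f y]
      exact Finset.sum_congr rfl fun l _ => by rw [smul_eq_mul, mul_comm, hμd]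
    have hw : ∀ i, ∑ l, μ l * θ l (v i) = 0 := fun i => by
      have := hle (Submodule.subset_span ⟨i, rfl⟩)
      rw [LinearMap.mem_ker, hμ] at this
      exact this
    have hwd := isWD_sum hθ μ
    have hzero : ∀ x ∈ maximalIdeal B, ∑ l, μ l * θ l x = 0 := by
      intro x hx
      have hr : Set.range v = Set.range (fun k => algebraMap _ B (g k)) ∪ s := by
        rw [Set.Sum.elim_range, Subtype.range_coe]
      rw [← he, ← hr] at hx
      suffices h1 : α x = 0 ∧ ∑ l, μ l * θ l x = 0 from h1.2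
      refine Submodule.span_induction (p := fun x _ => α x = 0 ∧
        ∑ l, μ l * θ l x = 0) ?_ ?_ ?_ ?_ hx
      · rintro _ ⟨i, rfl⟩
        exact ⟨hv0 i, hw i⟩
      · exact ⟨map_zero _, hwd.map_zero hp⟩
      · rintro x y _ _ ⟨h1, h2⟩ ⟨h3, h4⟩
        refine ⟨by rw [map_add, h1, h3, add_zero], ?_⟩
        have := hwd.add_of_left h1 y
        rw [h2, h4, add_zero] at this
        exact this
      · rintro a x _ ⟨h1, h2⟩
        refine ⟨by rw [smul_eq_mul, map_mul, h1, mul_zero], ?_⟩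
        have := hwd.mul_of_right hp a h1
        rw [h2, mul_zero] at this
        exact this
    have hμ0 := wD_functional hp _ hev μ fun x hx => by
      have h1 := hzero _ (hα _ hx)
      simp only [hθe] at h1
      exact h1
    refine LinearMap.ext fun y => ?_
    rw [hμ, LinearMap.zero_apply]
    exact Finset.sum_eq_zero fun l _ => by rw [hμ0, zero_mul]
  have hcard : Fintype.card (Fin c ⊕ s) ≤ Module.finrank κ (Fin (N + 1) → κ) := by
    rw [Fintype.card_sum, Fintype.card_fin, Module.finrank_fin_fun]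
    have h1 : Fintype.card s = s.ncard := by
      rw [← Nat.card_eq_fintype_card, Nat.card_coe_set_eq]
    have h2 := hB.spanFinrank_maximalIdeal
    have h3 : ((maximalIdeal B).spanFinrank : WithBot ℕ∞) ≤ ((N + 1 : ℕ) : WithBot ℕ∞) := by
      rw [h2]; exact hdim
    have h4 : (maximalIdeal B).spanFinrank ≤ N + 1 := by exact_mod_cast h3
    omega
  have hli := linearIndependent_of_top_le_span_of_card_le_finrank hspan hcard
  have h5 := hli.comp Sum.inl Sum.inl_injective
  convert h5 using 2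
  funext l
  exact (hθe l _).symm
-- END W7a

-- BEGIN W7b
/-- Independent vectors have a nonzero minor. -/
theorem exists_det_ne_zero {κ : Type} [Field κ] {c m : ℕ} {w : Fin c → Fin m → κ}
    (h : LinearIndependent κ w) : ∃ σ : Fin c → Fin m, (Matrix.of fun l k => w k (σ l)).det ≠ 0 := by
  classical
  let r : Fin m → Fin c → κ := fun l k => w k l
  obtain ⟨ι, a, ha, hsp, hli⟩ := exists_linearIndependent' κ r
  have hfin : Finite ι := Finite.of_injective a ha
  have hft := Fintype.ofFinite ι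
  have htop : Submodule.span κ (Set.range r) = ⊤ := by
    by_contra hne
    obtain ⟨f, hf, hle⟩ := Submodule.exists_le_ker_of_lt_top _ (lt_top_iff_ne_top.2 hne)
    obtain ⟨μ, hμd⟩ : ∃ μ : Fin c → κ, ∀ l, μ l = f fun j => if l = j then 1 else 0 :=
      ⟨_, fun _ => rfl⟩
    have hμ : ∀ y : Fin c → κ, f y = ∑ l, μ l * y l := fun y => by
      conv_lhs => rw [LinearMap.pi_apply_eq_sum_univ f y]
      exact Finset.sum_congr rfl fun l _ => by rw [smul_eq_mul, mul_comm, hμd]
    have h1 : ∑ k, μ k • w k = 0 := by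
      funext l
      have := hle (Submodule.subset_span ⟨l, rfl⟩)
      rw [LinearMap.mem_ker, hμ] at this
      simpa [r] using this
    have h2 := Fintype.linearIndependent_iff.1 h _ h1
    refine hf (LinearMap.ext fun y => ?_)
    rw [hμ, LinearMap.zero_apply]
    exact Finset.sum_eq_zero fun l _ => by rw [h2, zero_mul]
  have hcard : Fintype.card ι = c := by
    have h1 := finrank_span_eq_card hli
    rw [hsp, htop, finrank_top, Module.finrank_fin_fun] at h1
    exact h1.symm
  let e : Fin c ≃ ι := (finCongr hcard.symm).trans (Fintype.equivFin ι).symm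
  refine ⟨fun l => a (e l), ?_⟩
  have h3 : LinearIndependent κ (Matrix.of fun l k => w k (a (e l))).row :=
    hli.comp e e.injective
  rw [Matrix.linearIndependent_rows_iff_isUnit, Matrix.isUnit_iff_isUnit_det] at h3
  exact h3.ne_zero
-- END W7b

end Pool.Agent.Lib.MP_6a3dac_ag.NU
end
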