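import Pool.Agent.Lib.MP_6a3dac_ag.Mg.G049
import Pool.Agent.Lib.MP_6a3dac_ag.NU.AN1
import Pool.Agent.Lib.MP_6a3dac_ag.NU.OP1
import Pool.Agent.Lib.MP_6a3dac_ag.Mg.G056

section

/-!
# NU: modifications
-/

set_option autoImplicit false

namespace Pool.Agent.Lib.MP_6a3dac_ag.NU

open CategoryTheory Limits AlgebraicGeometry TopologicalSpace IsLocalRing IsDiscreteValuationRing

theorem IsMod.isIso_stalkMap {Y' Y : Scheme.{0}} {β : Y' ⟶ Y} {T : Set Y} (h : IsMod β T)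
    (hT : IsClosed T) {y' : Y'} (hy : β y' ∉ T) : IsIso (β.stalkMap y') := by
  let U : Y.Opens := ⟨Tᶜ, hT.isOpen_compl⟩
  have : IsIso (β ∣_ U) := h.iso U (disjoint_compl_left (a := T))
  exact ((MorphismProperty.isomorphisms CommRingCat).arrow_mk_iso_iff
    (morphismRestrictStalkMap β U ⟨y', hy⟩)).1
      (inferInstanceAs (IsIso ((β ∣_ U).stalkMap ⟨y', hy⟩)))

theorem IsMod.exists_preimage {Y' Y : Scheme.{0}} {β : Y' ⟶ Y} {T : Set Y} (h : IsMod β T)
    (hT : IsClosed T) {y : Y} (hy : y ∉ T) : ∃ y' : Y', β y' = y := by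
  let U : Y.Opens := ⟨Tᶜ, hT.isOpen_compl⟩
  have hiso : IsIso (β ∣_ U) := h.iso U (Set.disjoint_left.2 fun _ h1 h2 => h1 h2)
  obtain ⟨x, hx⟩ := (β ∣_ U).surjective ⟨y, hy⟩
  exact ⟨x.1, (morphismRestrict_base_coe β U x).symm.trans (congrArg Subtype.val hx)⟩

theorem IsMod.preimage_regOpen {Y' Y : Scheme.{0}} {β : Y' ⟶ Y} {T : Set Y} (h : IsMod β T)
    (hT : IsClosed T) (hTr : Disjoint (regOpen Y : Set Y) T) :
    β ⁻¹ᵁ regOpen Y ≤ regOpen Y' := by
  refine le_regOpen fun y' hy' => ?_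
  have hy : β y' ∈ regOpen Y := hy'
  have := h.isIso_stalkMap hT (Set.disjoint_left.mp hTr hy)
  have := isRegular_of_mem hy
  exact IsRegularLocalRing.of_ringEquiv (asIso (β.stalkMap y')).commRingCatIsoToRingEquiv

theorem IsMod.mono {Y' Y : Scheme.{0}} {β : Y' ⟶ Y} {T T₁ : Set Y} (h : IsMod β T) (hT : T ⊆ T₁) :
    IsMod β T₁ :=
  ⟨h.proper, h.int, fun U hU => h.iso U (hU.mono_right hT)⟩

theorem sc3h_exists {Y : Scheme.{0}} (y : Y) : ∃ U : Y.affineOpens, y ∈ U.1 := by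
  have : y ∈ ⨆ U : Y.affineOpens, U.1 := iSup_affineOpens_eq_top Y ▸ trivial
  simpa using this

theorem sc3j_ker {Y : Scheme.{0}} (U : Y.affineOpens) {y : Y} (hy : y ∈ U.1) :
    RingHom.ker (Y.evaluation U y hy).hom = (U.2.primeIdealOf ⟨y, hy⟩).asIdeal := by
  ext f
  have h1 := SetLike.ext_iff.1 (U.2.fromSpec_preimage_basicOpen f) (U.2.primeIdealOf ⟨y, hy⟩)
  have h2 : y ∈ Y.basicOpen f ↔ U.2.fromSpec (U.2.primeIdealOf ⟨y, hy⟩) ∈ Y.basicOpen f := by
    rw [U.2.fromSpec_primeIdealOf]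
  rw [RingHom.mem_ker]
  refine (Y.evaluation_eq_zero_iff_notMem_basicOpen y hy f).trans ?_
  exact (not_congr (h2.trans h1)).trans not_not

theorem sc3j_fin {Y : Scheme.{0}} (U : Y.affineOpens) {y : Y} (hy : y ∈ U.1)
    (h : Finite (Y.residueField y)) :
    (U.2.primeIdealOf ⟨y, hy⟩).asIdeal.IsMaximal ∧
      Finite (Γ(Y, U) ⧸ (U.2.primeIdealOf ⟨y, hy⟩).asIdeal) := by
  have hk := sc3j_ker U hy
  have hinj : Function.Injective (Ideal.Quotient.lift _ (Y.evaluation U y hy).hom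
      fun a ha ↦ (hk ▸ ha : a ∈ RingHom.ker (Y.evaluation U y hy).hom)) :=
    RingHom.lift_injective_of_ker_le_ideal _ _ hk.le
  have := Finite.of_injective _ hinj
  exact ⟨Ideal.Quotient.maximal_of_isField _ (Finite.isField_of_domain _), this⟩

theorem sc3j_pt {Y : Scheme.{0}} (U : Y.affineOpens) (𝔭 : PrimeSpectrum Γ(Y, U)) :
    ∃ x : U.1, U.2.primeIdealOf x = 𝔭 :=
  ⟨⟨U.2.fromSpec 𝔭, U.2.range_fromSpec.le (Set.mem_range_self _)⟩,
    U.2.fromSpec.isOpenEmbedding.injective (U.2.fromSpec_primeIdealOf _)⟩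

-- BEGIN SC3a
theorem IsMod.id (Y : Scheme.{0}) [IsIntegral Y] (T : Set Y) : IsMod (𝟙 Y) T :=
  ⟨inferInstance, inferInstance, fun _ _ => inferInstance⟩
-- END SC3a

-- BEGIN SC3b
theorem IsMod.comp {Y'' Y' Y : Scheme.{0}} {β : Y' ⟶ Y} {γ : Y'' ⟶ Y'} {T : Set Y} (h : IsMod β T)
    (h' : IsMod γ (β ⁻¹' T)) : IsMod (γ ≫ β) T := by
  have := h.proper
  have := h'.proper
  refine ⟨inferInstance, h'.int, fun U hU => ?_⟩
  have h1 := h.iso U hU
  have h2 : IsIso (γ ∣_ (β ⁻¹ᵁ U)) := h'.iso _ (hU.preimage _)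
  rw [morphismRestrict_comp]
  exact IsIso.comp_isIso' h2 h1
-- END SC3b

-- BEGIN SC3c
/-- Modifications preserve niceness. -/
theorem Nice.mod {Y' Y : Scheme.{0}} {β : Y' ⟶ Y} {T : Set Y} (hY : Nice Y) (h : IsMod β T)
    (hT : IsClosed T) (hTc : ∀ y ∈ T, ¬ CharZ Y y) : Nice Y' := by
  have hp := h.proper
  have hq := hY.qc
  have hn : ∀ y : Y, CharZ Y y → y ∉ T := fun y hc ht => hTc y ht hc
  refine ⟨h.int, QuasiCompact.compactSpace_of_compactSpace β, ?_, ?_, fun y' hc => ?_⟩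
  · have := (ft_iff Y).1 hY.ft
    rw [ft_iff, ← specZIsTerminal.hom_ext (β ≫ specZIsTerminal.from Y) (specZIsTerminal.from Y')]
    infer_instance
  · obtain ⟨y₀, h0⟩ := hY.cz
    obtain ⟨y', rfl⟩ := h.exists_preimage hT (hn y₀ h0)
    exact ⟨y', h0.of_isIso (h.isIso_stalkMap hT (hn _ h0))⟩
  · have hb : CharZ Y (β y') := hc.map
    have := hY.sm _ hb
    have := h.isIso_stalkMap hT (hn _ hb)
    exact Algebra.FormallySmooth.of_equiv
      ((asIso (β.stalkMap y')).commRingCatIsoToRingEquiv.toIntAlgEquiv)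
-- END SC3c

-- BEGIN SC3g
/-- Affine opens of nice schemes have presentations. -/
theorem Nice.pres {Y : Scheme.{0}} (hY : Nice Y) (U : Y.affineOpens) : Nonempty (Pres Γ(Y, U)) := by
  have := hY.ft U
  refine exists_pres Γ(Y, U) fun 𝔭 h𝔭 hn => ?_
  obtain ⟨x, hx⟩ : ∃ x : U.1, U.2.primeIdealOf x = ⟨𝔭, h𝔭⟩ :=
    ⟨⟨U.2.fromSpec ⟨𝔭, h𝔭⟩, U.2.range_fromSpec.le (Set.mem_range_self _)⟩,
      U.2.fromSpec.isOpenEmbedding.injective (U.2.fromSpec_primeIdealOf _)⟩
  have hl := U.2.isLocalization_stalk x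
  have h1 := sc2m_unit U x
  rw [hx] at hl h1
  have := hY.sm x.1 fun n h0 => (h1 n).mpr (hn n h0)
  exact Algebra.FormallySmooth.of_equiv (AlgEquiv.ofRingEquiv (f := (IsLocalization.algEquiv
    𝔭.primeCompl (Y.presheaf.stalk x.1) (Localization.AtPrime 𝔭)).toRingEquiv) fun n => by
      rw [eq_intCast, eq_intCast, map_intCast])
-- END SC3g

-- BEGIN SC3k
theorem sc3k_sm {Y : Scheme.{0}} (hY : Nice Y) (U : Y.affineOpens) (𝔭 : Ideal Γ(Y, U))
    [h𝔭 : 𝔭.IsPrime] (hn : ∀ n : ℕ, n ≠ 0 → (n : Γ(Y, U)) ∉ 𝔭) :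
    Algebra.FormallySmooth ℤ (Localization.AtPrime 𝔭) := by
  obtain ⟨x, hx⟩ := sc3j_pt U ⟨𝔭, h𝔭⟩
  have hl := U.2.isLocalization_stalk x
  have h1 := sc2m_unit U x
  rw [hx] at hl h1
  have := hY.sm x.1 fun n h0 => (h1 n).mpr (hn n h0)
  exact Algebra.FormallySmooth.of_equiv (AlgEquiv.ofRingEquiv (f := (IsLocalization.algEquiv
    𝔭.primeCompl (Y.presheaf.stalk x.1) (Localization.AtPrime 𝔭)).toRingEquiv) fun n => by
      rw [eq_intCast, eq_intCast, map_intCast])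

theorem sc3k_equiv {Y : Scheme.{0}} (U : Y.affineOpens) {y : Y} (hy : y ∈ U.1) :
    Nonempty (Localization.AtPrime (U.2.primeIdealOf ⟨y, hy⟩).asIdeal ≃+* Y.presheaf.stalk y) := by
  let _ := Y.presheaf.algebra_section_stalk ⟨y, hy⟩
  have := U.2.isLocalization_stalk ⟨y, hy⟩
  exact ⟨(IsLocalization.algEquiv (U.2.primeIdealOf ⟨y, hy⟩).asIdeal.primeCompl _
    (Y.presheaf.stalk y)).toRingEquiv⟩

/-- **Regular closed points are in the regular open subset.** -/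
theorem Nice.mem_regOpen_of_finite {Y : Scheme.{0}} (hY : Nice Y) {y : Y}
    (hy : Finite (Y.residueField y)) (hreg : IsRegularLocalRing (Y.presheaf.stalk y)) :
    y ∈ regOpen Y := by
  obtain ⟨U, hU⟩ := sc3h_exists y
  have hft := hY.ft U
  have hmax := (sc3j_fin U hU hy).1
  obtain ⟨e⟩ := sc3k_equiv U hU
  obtain ⟨h, hh, hr⟩ := exists_regular_nhd_closed Γ(Y, U) (fun 𝔭 _ => sc3k_sm hY U 𝔭) _
    (IsRegularLocalRing.of_ringEquiv e.symm)
  exact mem_regOpen_of_affine U hU h hh hr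
-- END SC3k

-- BEGIN SC3m
/-- Being in the regular open subset is a local property. -/
theorem IsMod.mem_regOpen_iff {Y' Y : Scheme.{0}} {β : Y' ⟶ Y} {T : Set Y} (h : IsMod β T)
    (hT : IsClosed T) {y' : Y'} (hy : β y' ∉ T) : y' ∈ regOpen Y' ↔ β y' ∈ regOpen Y := by
  let W : Y.Opens := ⟨Tᶜ, hT.isOpen_compl⟩
  have hiso : IsIso (β ∣_ W) := h.iso W (Set.disjoint_left.2 fun _ h1 h2 => h1 h2)
  constructor
  · intro hr
    refine (le_regOpen (U := ((β ∣_ W) ≫ W.ι) ''ᵁ ((β ⁻¹ᵁ W).ι ⁻¹ᵁ regOpen Y')) ?_)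
      ⟨⟨y', hy⟩, hr, morphismRestrict_base_coe β W ⟨y', hy⟩⟩
    rintro y ⟨x, hx, hxy⟩
    obtain rfl : β x.1 = y := (morphismRestrict_base_coe β W x).symm.trans hxy
    have := h.isIso_stalkMap hT (y' := x.1) x.2
    have := isRegular_of_mem (show x.1 ∈ regOpen Y' from hx)
    exact IsRegularLocalRing.of_ringEquiv (asIso (β.stalkMap x.1)).commRingCatIsoToRingEquiv.symm
  · intro hr
    refine (le_regOpen (U := β ⁻¹ᵁ (regOpen Y ⊓ W)) ?_) ⟨hr, hy⟩
    rintro x ⟨hx, hx'⟩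
    have := h.isIso_stalkMap hT (y' := x) hx'
    have := isRegular_of_mem hx
    exact IsRegularLocalRing.of_ringEquiv (asIso (β.stalkMap x)).commRingCatIsoToRingEquiv
-- END SC3m

-- BEGIN SC3n
theorem sc3n_spec {Y : Scheme.{0}} [IsIntegral Y] {x ξ : Y} (hξ : ξ = genericPoint Y)
    (hx : ξ ⤳ x) : Function.Injective (Y.presheaf.stalkSpecializes hx).hom := by
  subst hξ
  exact IsFractionRing.injective (Y.presheaf.stalk x) Y.functionField

/-- Modifications are injective on the local rings. -/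
theorem IsMod.injective_stalkMap {Y' Y : Scheme.{0}} {β : Y' ⟶ Y} {T : Set Y} (h : IsMod β T)
    [IsIntegral Y] (hT : IsClosed T) (hT' : T ≠ Set.univ) (y' : Y') :
    Function.Injective (β.stalkMap y').hom := by
  have hint := h.int
  have hξ : genericPoint Y ∉ T := fun h1 => hT' (Set.eq_univ_of_forall fun y =>
    (genericPoint_spec Y).specializes (Set.mem_univ y) |>.mem_closed hT h1)
  obtain ⟨x', hx'⟩ := h.exists_preimage hT hξ
  have hη : β (genericPoint Y') = genericPoint Y := by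
    refine (Specializes.antisymm ?_
      ((genericPoint_spec Y).specializes (Set.mem_univ (β (genericPoint Y'))))).eq
    rw [← hx']
    exact ((genericPoint_spec Y').specializes (Set.mem_univ x')).map β.continuous
  have hs : genericPoint Y' ⤳ y' := (genericPoint_spec Y').specializes (Set.mem_univ y')
  have hi := h.isIso_stalkMap hT (y' := genericPoint Y') (hη ▸ hξ)
  have h1 := Scheme.Hom.stalkSpecializes_stalkMap β (genericPoint Y') y' hs
  have h2 : Function.Injective (Y.presheaf.stalkSpecializes (hs.map β.continuous) ≫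
      β.stalkMap (genericPoint Y')).hom :=
    ((ConcreteCategory.bijective_of_isIso (β.stalkMap (genericPoint Y'))).1).comp
      (sc3n_spec hη _)
  rw [h1] at h2
  exact Function.Injective.of_comp h2
-- END SC3n

-- BEGIN SC3o
theorem sc3o_gens (R : Type) [CommRing R] [IsNoetherianRing R] (𝔭 : Ideal R) [𝔭.IsPrime]
    (hreg : IsRegularLocalRing (Localization.AtPrime 𝔭)) :
    ∃ (S : Finset R) (s : R), (∀ x ∈ S, x ∈ 𝔭) ∧ (S.card : WithBot ℕ∞) ≤ 𝔭.height ∧ s ∉ 𝔭 ∧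
      ∀ y ∈ 𝔭, s * y ∈ Ideal.span (S : Set R) := by
  classical
  set B := Localization.AtPrime 𝔭 with hB
  obtain ⟨T, hT1, hT2⟩ := Submodule.FG.exists_span_finset_card_eq_spanFinrank
    (Ideal.fg_of_isNoetherianRing (maximalIdeal B))
  have hT2' : maximalIdeal B = Ideal.span (T : Set B) := hT2.symm
  have hsu : ∀ t : B, ∃ (a : R) (u : 𝔭.primeCompl), t * algebraMap R B u = algebraMap R B a :=
    fun t => (IsLocalization.surj 𝔭.primeCompl t).elim fun x h => ⟨x.1, x.2, h⟩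
  choose a u hau using hsu
  have hmap : maximalIdeal B ≤ (Ideal.span ((T.image a : Finset R) : Set R)).map
      (algebraMap R B) := by
    rw [hT2', Ideal.span_le]
    intro t ht
    have hu : IsUnit (algebraMap R B (u t)) := IsLocalization.map_units B (u t)
    rw [SetLike.mem_coe, ← Ideal.mul_unit_mem_iff_mem _ hu, hau]
    exact Ideal.mem_map_of_mem _ (Ideal.subset_span (Finset.mem_coe.2
      (Finset.mem_image_of_mem a ht)))
  have hx : ∀ x ∈ 𝔭, ∃ f ∉ 𝔭, f * x ∈ Ideal.span ((T.image a : Finset R) : Set R) := fun x hx => by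
    have h1 : algebraMap R B x ∈ maximalIdeal B :=
      (IsLocalization.AtPrime.to_map_mem_maximal_iff B 𝔭 x).2 hx
    obtain ⟨⟨y, m⟩, h2⟩ := (IsLocalization.mem_map_algebraMap_iff 𝔭.primeCompl B).1 (hmap h1)
    rw [← map_mul, IsLocalization.eq_iff_exists 𝔭.primeCompl B] at h2
    obtain ⟨c, hc⟩ := h2
    refine ⟨c * m, (c * m).2, ?_⟩
    rw [mul_assoc, mul_comm (m : R) x, hc]
    exact Ideal.mul_mem_left _ _ y.2
  obtain ⟨G, hG⟩ := (isNoetherianRing_iff_ideal_fg R).1 inferInstance 𝔭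
  choose! F hF1 hF2 using hx
  refine ⟨T.image a, ∏ x ∈ G, F x, fun x hx => ?_, ?_, ?_, fun x hx => ?_⟩
  · obtain ⟨t, ht, rfl⟩ := Finset.mem_image.1 hx
    rw [← IsLocalization.AtPrime.to_map_mem_maximal_iff B 𝔭, ← hau]
    exact Ideal.mul_mem_right _ _ (hT2' ▸ Ideal.subset_span ht)
  · rw [← IsLocalization.AtPrime.ringKrullDim_eq_height 𝔭 B, ← hreg.spanFinrank_maximalIdeal, ← hT1]
    exact_mod_cast Finset.card_image_le
  · rw [‹𝔭.IsPrime›.prod_mem_iff]
    rintro ⟨x, hxG, hx⟩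
    exact hF1 x (hG ▸ Ideal.subset_span hxG) hx
  · rw [← hG] at hx
    refine Submodule.span_induction (fun y hy => ?_) (by rw [mul_zero]; exact Ideal.zero_mem _)
      (fun y z _ _ h1 h2 => by rw [mul_add]; exact Ideal.add_mem _ h1 h2)
      (fun a y _ h1 => by rw [smul_eq_mul, mul_left_comm]; exact Ideal.mul_mem_left _ _ h1) hx
    rw [← Finset.mul_prod_erase G F hy, mul_comm (F y), mul_assoc]
    exact Ideal.mul_mem_left _ _ (hF2 y (hG ▸ Ideal.subset_span hy))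

theorem sc3o_finrank {A : Type} [CommRing A] [IsLocalRing A] [IsNoetherianRing A] (J : Ideal A)
    [IsLocalRing (A ⧸ J)] (S : Finset A) (hS : J = Ideal.span (S : Set A)) :
    (maximalIdeal A).spanFinrank ≤ (maximalIdeal (A ⧸ J)).spanFinrank + S.card := by
  classical
  obtain ⟨T, hT1, hT2⟩ := Submodule.FG.exists_span_finset_card_eq_spanFinrank
    (Ideal.fg_of_isNoetherianRing (maximalIdeal (A ⧸ J)))
  choose g hg using Ideal.Quotient.mk_surjective (I := J)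
  have hl := IsLocalHom.of_surjective (Ideal.Quotient.mk J) Ideal.Quotient.mk_surjective
  have hcm : (maximalIdeal (A ⧸ J)).comap (Ideal.Quotient.mk J) = maximalIdeal A :=
    ((IsLocalRing.local_hom_TFAE (Ideal.Quotient.mk J)).out 0 4).mp hl
  have h5 : (T : Set (A ⧸ J)) = Ideal.Quotient.mk J '' ((T.image g : Finset A) : Set A) := by
    rw [Finset.coe_image, Set.image_image]
    simp [hg]
  have h4 : maximalIdeal A = Ideal.span ((T.image g ∪ S : Finset A) : Set A) := by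
    rw [← hcm, ← hT2]
    change (Ideal.span (T : Set (A ⧸ J))).comap (Ideal.Quotient.mk J) = _
    rw [h5, ← Ideal.map_span, Ideal.comap_map_of_surjective' _ Ideal.Quotient.mk_surjective,
      Ideal.mk_ker, Finset.coe_union, Ideal.span_union, ← hS]
  rw [← hT1, h4]
  refine (Submodule.spanFinrank_span_le_ncard_of_finite (Finset.finite_toSet _)).trans ?_
  rw [Set.ncard_coe_finset]
  exact (Finset.card_union_le _ _).trans (Nat.add_le_add_right Finset.card_image_le _)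

/-- The ring statement. -/
theorem sc3o_ring (R : Type) [CommRing R] [Algebra.FiniteType ℤ R] (𝔭 : Ideal R) [𝔭.IsPrime]
    (hreg : IsRegularLocalRing (Localization.AtPrime 𝔭)) {p : ℕ} (hp : p.Prime)
    (hp𝔭 : (p : R) ∈ 𝔭) :
    ∃ (𝔪 : Ideal R) (_ : 𝔪.IsMaximal), 𝔭 ≤ 𝔪 ∧ IsRegularLocalRing (Localization.AtPrime 𝔪) := by
  classical
  have hJ := op1h_int
  have hN : IsNoetherianRing R := Algebra.FiniteType.isNoetherianRing ℤ R
  have hJR : IsJacobsonRing R := isJacobsonRing_of_finiteType (A := ℤ)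
  obtain ⟨S, s, hS, hSc, hs, hsS⟩ := sc3o_gens R 𝔭 hreg
  have hft : @Algebra.FiniteType ℤ (R ⧸ 𝔭) _ _ (Ring.toIntAlgebra _) := by
    convert! Algebra.FiniteType.of_surjective (Ideal.Quotient.mkₐ ℤ 𝔭)
      Ideal.Quotient.mk_surjective
  have hch : CharP (R ⧸ 𝔭) p := (CharP.charP_iff_prime_eq_zero hp).2 (by
    rw [← map_natCast (Ideal.Quotient.mk 𝔭)]
    exact Ideal.Quotient.eq_zero_iff_mem.2 hp𝔭)
  obtain ⟨h', hh', hr⟩ := exists_regular_of_charP p hp (R ⧸ 𝔭)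
  obtain ⟨h₂, rfl⟩ := Ideal.Quotient.mk_surjective h'
  have hh₂ : h₂ ∉ 𝔭 := fun h => hh' (Ideal.Quotient.eq_zero_iff_mem.2 h)
  have hsh : s * h₂ ∉ 𝔭.jacobson := by
    rw [hJR.out (‹𝔭.IsPrime›.isRadical)]
    exact fun h => (‹𝔭.IsPrime›.mem_or_mem h).elim hs hh₂
  obtain ⟨𝔪, ⟨h𝔭𝔪, hmax⟩, hm⟩ : ∃ 𝔪 : Ideal R, (𝔭 ≤ 𝔪 ∧ 𝔪.IsMaximal) ∧ s * h₂ ∉ 𝔪 := by
    by_contra hcon
    push Not at hcon
    exact hsh (Ideal.mem_sInf.2 fun {𝔪} h𝔪 => hcon 𝔪 h𝔪)
  have hsm : s ∉ 𝔪 := fun h => hm (Ideal.mul_mem_right _ _ h)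
  have hhm : h₂ ∉ 𝔪 := fun h => hm (Ideal.mul_mem_left _ _ h)
  refine ⟨𝔪, hmax, h𝔭𝔪, ?_⟩
  set A := Localization.AtPrime 𝔪 with hA
  have hNA : IsNoetherianRing A := IsLocalization.isNoetherianRing 𝔪.primeCompl _ hN
  obtain ⟨t, ht, htm, ⟨e⟩⟩ := intc_iso 𝔭 𝔪 h𝔭𝔪
  have hq : IsRegularLocalRing (A ⧸ 𝔭.map (algebraMap R A)) :=
    have := hr ⟨t, ht⟩ (fun h => hhm (by rw [← htm]; exact h))
    IsRegularLocalRing.of_ringEquiv e
  have hsA : IsUnit (algebraMap R A s) := IsLocalization.map_units A (⟨s, hsm⟩ : 𝔪.primeCompl)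
  have hspan : 𝔭.map (algebraMap R A) =
      Ideal.span ((S.image (algebraMap R A) : Finset A) : Set A) := by
    rw [Finset.coe_image, ← Ideal.map_span]
    refine le_antisymm (Ideal.map_le_iff_le_comap.2 fun y hy => ?_)
      (Ideal.map_mono (Ideal.span_le.2 hS))
    rw [Ideal.mem_comap, ← Ideal.unit_mul_mem_iff_mem _ hsA, ← map_mul]
    exact Ideal.mem_map_of_mem _ (hsS y hy)
  have hD := isDomain_aux _ (A ⧸ 𝔭.map (algebraMap R A)) le_rfl
  have h1 := ringKrullDim_add_height_le (Ideal.Quotient.mk (𝔭.map (algebraMap R A)))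
    Ideal.Quotient.mk_surjective
  rw [Ideal.mk_ker, IsLocalization.height_map_of_disjoint 𝔪.primeCompl 𝔭 (by
    rw [Set.disjoint_left]
    exact fun x hx hx' => hx (h𝔭𝔪 hx'))] at h1
  refine IsRegularLocalRing.of_spanFinrank_maximalIdeal_le A (le_trans ?_ h1)
  have h2 := sc3o_finrank _ _ hspan
  have h3 : ((maximalIdeal A).spanFinrank : WithBot ℕ∞) ≤
      ((maximalIdeal (A ⧸ 𝔭.map (algebraMap R A))).spanFinrank : WithBot ℕ∞) +
        (S.card : WithBot ℕ∞) := by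
    exact_mod_cast h2.trans (Nat.add_le_add_left Finset.card_image_le _)
  refine h3.trans ?_
  rw [← hq.spanFinrank_maximalIdeal]
  exact add_le_add le_rfl hSc

theorem sc3o_prime {R : Type} [CommRing R] (𝔭 : Ideal R) [𝔭.IsPrime] {n : ℕ} (hn : n ≠ 0)
    (h : (n : R) ∈ 𝔭) : ∃ p : ℕ, p.Prime ∧ (p : R) ∈ 𝔭 := by
  obtain ⟨p, hp⟩ := CharP.exists (R ⧸ 𝔭)
  have h1 : ((n : ℕ) : R ⧸ 𝔭) = 0 := by
    rw [← map_natCast (Ideal.Quotient.mk 𝔭)]
    exact Ideal.Quotient.eq_zero_iff_mem.2 h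
  refine ⟨p, (CharP.char_is_prime_or_zero (R ⧸ 𝔭) p).resolve_right ?_, ?_⟩
  · rintro rfl
    exact hn (zero_dvd_iff.1 ((CharP.cast_eq_zero_iff (R ⧸ 𝔭) 0 n).1 h1))
  · rw [← Ideal.Quotient.eq_zero_iff_mem, map_natCast]
    exact CharP.cast_eq_zero _ p

theorem sc3o_finite (R : Type) [CommRing R] [Algebra.FiniteType ℤ R] (𝔪 : Ideal R)
    [𝔪.IsMaximal] : Finite (R ⧸ 𝔪) := by
  have := op1h_int
  obtain ⟨p, hp, hpm⟩ := op1h_char R 𝔪
  let _ := Ideal.Quotient.field 𝔪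
  have : Fact p.Prime := ⟨hp⟩
  have hfin : Module.Finite ℤ (R ⧸ 𝔪) := finite_of_finite_type_of_isJacobsonRing ℤ (R ⧸ 𝔪)
  have : CharP (R ⧸ 𝔪) p := (CharP.charP_iff_prime_eq_zero hp).2 (by
    rw [← map_natCast (Ideal.Quotient.mk 𝔪)]
    exact Ideal.Quotient.eq_zero_iff_mem.2 hpm)
  let _ : Algebra (ZMod p) (R ⧸ 𝔪) := ZMod.algebra _ p
  have : IsScalarTower ℤ (ZMod p) (R ⧸ 𝔪) :=
    IsScalarTower.of_algebraMap_eq' (Subsingleton.elim _ _)
  have : Module.Finite (ZMod p) (R ⧸ 𝔪) := Module.Finite.of_restrictScalars_finite ℤ _ _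
  exact Module.finite_of_finite (ZMod p)

/-- **Regular points are in the regular open subset.** -/
theorem Nice.mem_regOpen_of_regular {Y : Scheme.{0}} (hY : Nice Y) {y : Y}
    (hreg : IsRegularLocalRing (Y.presheaf.stalk y)) : y ∈ regOpen Y := by
  by_cases hc : CharZ Y y
  · exact hY.mem_regOpen hc
  obtain ⟨U, hU⟩ := sc3h_exists y
  have hft := hY.ft U
  unfold CharZ at hc
  push Not at hc
  obtain ⟨n, hn, hnu⟩ := hc
  rw [sc2m_unit U ⟨y, hU⟩ n, not_not] at hnu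
  obtain ⟨p, hp, hpp⟩ := sc3o_prime _ hn hnu
  obtain ⟨e⟩ := sc3k_equiv U hU
  obtain ⟨𝔪, hmax, hle, hm⟩ := sc3o_ring Γ(Y, U) _ (IsRegularLocalRing.of_ringEquiv e.symm) hp hpp
  obtain ⟨z, hz⟩ := sc3j_pt U ⟨𝔪, hmax.isPrime⟩
  have hyz : y ⤳ z.1 := by
    have h1 : U.2.primeIdealOf ⟨y, hU⟩ ⤳ U.2.primeIdealOf z :=
      (PrimeSpectrum.le_iff_specializes _ _).1 (hz ▸ hle)
    have h2 := h1.map U.2.fromSpec.continuous
    rwa [U.2.fromSpec_primeIdealOf, U.2.fromSpec_primeIdealOf] at h2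
  have hl := U.2.isLocalization_stalk z
  rw [hz] at hl
  have hz1 : IsRegularLocalRing (Y.presheaf.stalk z.1) :=
    IsRegularLocalRing.of_ringEquiv (IsLocalization.algEquiv 𝔪.primeCompl
      (Localization.AtPrime 𝔪) (Y.presheaf.stalk z.1)).toRingEquiv
  have hz2 : Finite (Y.residueField z.1) := by
    have := sc3o_finite Γ(Y, U) 𝔪
    exact Finite.of_equiv _ (IsLocalization.AtPrime.equivQuotMaximalIdeal 𝔪
      (Y.presheaf.stalk z.1)).toEquiv
  exact hyz.mem_open (regOpen Y).isOpen (hY.mem_regOpen_of_finite hz2 hz1)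
-- END SC3o

-- BEGIN SC3p
theorem sc3p_reg {Y : Scheme.{0}} (hY : Nice Y) (U : Y.affineOpens) (𝔭 : Ideal Γ(Y, U))
    [h𝔭 : 𝔭.IsPrime] (hn : ∀ n : ℕ, n ≠ 0 → (n : Γ(Y, U)) ∉ 𝔭) :
    IsRegularLocalRing (Localization.AtPrime 𝔭) := by
  obtain ⟨x, hx⟩ := sc3j_pt U ⟨𝔭, h𝔭⟩
  have := isRegular_of_mem (hY.mem_regOpen fun n h0 => (sc2m_unit U x n).mpr (hx ▸ hn n h0))
  obtain ⟨e⟩ := sc3k_equiv U x.2
  have hx' : (U.2.primeIdealOf x).asIdeal = 𝔭 := by rw [hx]
  subst hx'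
  exact IsRegularLocalRing.of_ringEquiv e.symm

theorem sc3p_cz {Y : Scheme.{0}} (hY : Nice Y) (U : Y.affineOpens) [Nonempty U.1] :
    CharZero Γ(Y, U) := by
  have := hY.int
  obtain ⟨y₀, h0⟩ := hY.cz
  have hc : CharZ Y (genericPoint Y) := h0.generize (genericPoint_specializes y₀)
  have hU : genericPoint Y ∈ U.1 :=
    ((genericPoint_spec Y).mem_open_set_iff U.1.2).2
      (by simpa using (Set.nonempty_coe_sort (s := (U.1 : Set Y))).1 ‹_›)
  refine charZero_of_inj_zero fun n hn => ?_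
  by_contra hne
  exact (sc2m_unit U ⟨_, hU⟩ n).1 (hc n hne) (hn ▸ zero_mem _)

/-- The initial bound for the potential. -/
theorem Nice.exists_pot {Y : Scheme.{0}} (hY : Nice Y) (d : ℕ) :
    ∃ n : ℕ, ∀ y : Y, ∀ (V : Type) [CommRing V] [IsDomain V] [IsDiscreteValuationRing V]
      [CharZero V] (α : Y.presheaf.stalk y →+* V),
      (∀ p : ℕ, p.Prime → addVal V (p : V) ≤ d) → Pot α n := by
  have := hY.int
  have := hY.qc
  have key : ∀ U : Y.affineOpens, ∃ n : ℕ, ∀ y ∈ U.1, ∀ (V : Type)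
      [CommRing V] [IsDomain V] [IsDiscreteValuationRing V] [CharZero V]
      (α : Y.presheaf.stalk y →+* V), (∀ p : ℕ, p.Prime → addVal V (p : V) ≤ d) →
      Pot α n := fun U => by
    obtain h | h := isEmpty_or_nonempty U.1
    · exact ⟨0, fun y hy => (h.false ⟨y, hy⟩).elim⟩
    have := sc3p_cz hY U
    obtain ⟨P⟩ := hY.pres U
    refine ⟨P.c * (P.a * d), fun y hy V _ _ _ _ α hV => ?_⟩
    obtain ⟨e⟩ := sc3k_equiv U hy
    exact (P.pot (fun 𝔭 _ => sc3p_reg hY U 𝔭) _ (α.comp (e : _ →+* Y.presheaf.stalk y)) hV).congr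
      e fun _ => rfl
  choose n hn using key
  obtain ⟨t, ht⟩ := isCompact_univ.elim_finite_subcover (fun U : Y.affineOpens => (U.1 : Set Y))
    (fun U => U.1.2) fun y _ => Set.mem_iUnion.2 (sc3h_exists y)
  refine ⟨∑ U ∈ t, n U, fun y V _ _ _ _ α hV => ?_⟩
  obtain ⟨U, hU, hyU⟩ := Set.mem_iUnion₂.mp (ht (Set.mem_univ y))
  exact (hn U y hyU V α hV).mono (Finset.single_le_sum (fun _ _ => Nat.zero_le _) hU)
-- END SC3p

end Pool.Agent.Lib.MP_6a3dac_ag.NU
end

section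

/-!
# NU: the bound for the potential of arcs of characteristic `p`
-/

set_option autoImplicit false

namespace Pool.Agent.Lib.MP_6a3dac_ag.NU

open CategoryTheory Limits AlgebraicGeometry TopologicalSpace IsLocalRing MvPolynomial
open IsDiscreteValuationRing (addVal)

/-- The ideal generated by the `c × c` minors of the mixed Jacobian matrix. -/
def wJac {N p : ℕ} (hp : p.Prime) {R : Type} [CommRing R] (π : MvPolynomial (Fin N) ℤ →+* R)
    (c : ℕ) : Ideal R :=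
  Ideal.span {y | ∃ (σ : Fin c → Fin (N + 1)) (g : Fin c → MvPolynomial (Fin N) ℤ),
    (∀ k, π (g k) = 0) ∧ y = π (Matrix.of fun l k : Fin c => wD hp (σ l) (g k)).det}

-- BEGIN W8a
/-- Equations at a regular closed point. -/
theorem exists_equations_at {N : ℕ} {R : Type} [CommRing R] [IsDomain R]
    (π : MvPolynomial (Fin N) ℤ →+* R) (hπ : Function.Surjective π) (𝔪 : Ideal R) [𝔪.IsPrime]
    (hreg : IsRegularLocalRing (Localization.AtPrime 𝔪)) {c : ℕ}
    (hc : (c : ℕ∞) ≤ (RingHom.ker π).height) :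
    ∃ g : Fin c → MvPolynomial (Fin N) ℤ, (∀ k, π (g k) = 0) ∧
      ∀ b : Fin c → Localization.AtPrime (𝔪.comap π),
        ∑ j, b j * algebraMap _ _ (g j) ∈ maximalIdeal (Localization.AtPrime (𝔪.comap π)) ^ 2 →
        ∀ j, b j ∈ maximalIdeal (Localization.AtPrime (𝔪.comap π)) := by
  have hr0 := (MvPolynomial.isRegularRing_of_isRegularRing ℤ
    (ι := Fin N)).isRegularLocalRing_localization (𝔪.comap π)
  let ψ := Localization.localRingHom (𝔪.comap π) 𝔪 π rfl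
  have hψ : Function.Surjective ψ := RingHom.surjective_localRingHom_of_surjective _ hπ _
  have hψa (x) : ψ (algebraMap _ _ x) = algebraMap R _ (π x) :=
    Localization.localRingHom_to_map _ _ _ _ x
  have hi := IsLocalization.injective (Localization.AtPrime 𝔪) 𝔪.primeCompl_le_nonZeroDivisors
  have hker : (RingHom.ker ψ).height = (RingHom.ker π).height := by
    rw [← IsLocalization.height_under (𝔪.comap π).primeCompl (RingHom.ker ψ)]
    congr 1
    ext x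
    simp only [Ideal.under, Ideal.mem_comap, RingHom.mem_ker, hψa]
    exact map_eq_zero_iff _ hi
  obtain ⟨r, s, hs, -, hind⟩ := exists_gens_of_regular_quotient hr0 (RingHom.ker ψ)
    (IsRegularLocalRing.of_ringEquiv (RingHom.quotientKerEquivOfSurjective hψ).symm)
  have hne : RingHom.ker ψ ≠ ⊤ := RingHom.ker_ne_top ψ
  have hcr : c ≤ r := by
    have h1 := Ideal.height_le_spanFinrank (RingHom.ker ψ) hne
    have h2 : (RingHom.ker ψ).spanFinrank ≤ r := by
      rw [hs]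
      refine (Submodule.spanFinrank_span_le_ncard_of_finite (Set.finite_range s)).trans ?_
      rw [← Set.image_univ]
      refine (Set.ncard_image_le Set.finite_univ).trans ?_
      rw [Set.ncard_univ, Nat.card_eq_fintype_card, Fintype.card_fin]
    rw [hker] at h1
    have h3 : ((RingHom.ker ψ).spanFinrank : ℕ∞) ≤ r := by exact_mod_cast h2
    exact_mod_cast (hc.trans h1).trans h3
  have hsk : ∀ j, s j ∈ RingHom.ker ψ := fun j => hs ▸ Ideal.subset_span ⟨j, rfl⟩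
  have hsu : ∀ j : Fin c, ∃ (a : MvPolynomial (Fin N) ℤ) (u : (𝔪.comap π).primeCompl),
      s (Fin.castLE hcr j) * algebraMap _ _ u.1 = algebraMap _ _ a := fun j =>
    (IsLocalization.surj (𝔪.comap π).primeCompl (s (Fin.castLE hcr j))).elim
      fun x h => ⟨x.1, x.2, h⟩
  choose g u hgu using hsu
  refine ⟨g, fun k => hi ?_, fun b hb j => ?_⟩
  · rw [← hψa, ← hgu, map_mul, (RingHom.mem_ker).1 (hsk _), zero_mul, map_zero]
  · have e : ∑ j, b j * algebraMap _ _ (u j).1 * s (Fin.castLE hcr j) =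
        ∑ j, b j * algebraMap _ _ (g j) := Finset.sum_congr rfl fun j _ => by rw [← hgu]; ring
    rw [← e] at hb
    have h1 := an1a_sub (Fin.castLE hcr) (Fin.castLE_injective hcr) s hind
      (fun j => b j * algebraMap _ _ (u j).1) hb j
    exact (Ideal.mul_unit_mem_iff_mem _ (IsLocalization.map_units _ (u j))).1 h1
-- END W8a

-- BEGIN W8b
/-- **The mixed Jacobian criterion** at a closed point. -/
theorem wJac_not_le {N p : ℕ} (hp : p.Prime) {R : Type} [CommRing R] [IsDomain R]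
    (π : MvPolynomial (Fin N) ℤ →+* R) (hπ : Function.Surjective π) (𝔪 : Ideal R) [𝔪.IsMaximal]
    (hfin : Finite (R ⧸ 𝔪)) (hp𝔪 : (p : R) ∈ 𝔪)
    (hreg : IsRegularLocalRing (Localization.AtPrime 𝔪)) {c : ℕ}
    (hc : (c : ℕ∞) ≤ (RingHom.ker π).height) : ¬ wJac hp π c ≤ 𝔪 := by
  intro hle
  obtain ⟨g, hg, hind⟩ := exists_equations_at π hπ 𝔪 hreg hc
  let := Ideal.Quotient.field 𝔪
  have hch : CharP (R ⧸ 𝔪) p := (CharP.charP_iff_prime_eq_zero hp).2 (by
    rw [← map_natCast (Ideal.Quotient.mk 𝔪)]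
    exact Ideal.Quotient.eq_zero_iff_mem.2 hp𝔪)
  let ev : MvPolynomial (Fin N) ℤ →+* R ⧸ 𝔪 := (Ideal.Quotient.mk 𝔪).comp π
  have hev0 : ∀ x, ev x = 0 ↔ x ∈ 𝔪.comap π := fun x => Ideal.Quotient.eq_zero_iff_mem
  let α : Localization.AtPrime (𝔪.comap π) →+* R ⧸ 𝔪 := IsLocalization.lift
    (M := (𝔪.comap π).primeCompl) (g := ev) fun s =>
      isUnit_iff_ne_zero.2 fun h => s.2 ((hev0 _).1 h)
  have hαe : ∀ x, α (algebraMap _ _ x) = ev x := fun x => IsLocalization.lift_eq _ x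
  have hr0 := (MvPolynomial.isRegularRing_of_isRegularRing ℤ
    (ι := Fin N)).isRegularLocalRing_localization (𝔪.comap π)
  have hdim : ringKrullDim (Localization.AtPrime (𝔪.comap π)) ≤ (N + 1 : ℕ) := by
    rw [IsLocalization.AtPrime.ringKrullDim_eq_height (𝔪.comap π)
      (Localization.AtPrime (𝔪.comap π))]
    refine (Ideal.height_le_ringKrullDim_of_ne_top (Ideal.IsPrime.ne_top
      (Ideal.IsPrime.comap π))).trans ?_
    rw [MvPolynomial.ringKrullDim_of_isNoetherianRing, IsPrincipalIdealRing.ringKrullDim_eq_one ℤ Int.not_isField]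
    push_cast
    rw [add_comm, Nat.card_eq_fintype_card, Fintype.card_fin]
  have hli := linearIndependent_wD hp (𝔪.comap π).primeCompl hr0 hdim α (fun x hx => by
    obtain ⟨⟨a, u⟩, h⟩ := IsLocalization.surj (𝔪.comap π).primeCompl x
    have h1 := congrArg α h
    rw [map_mul, hx, zero_mul, hαe] at h1
    have h2 : algebraMap _ (Localization.AtPrime (𝔪.comap π)) a ∈
        maximalIdeal (Localization.AtPrime (𝔪.comap π)) :=
      (IsLocalization.AtPrime.to_map_mem_maximal_iff _ (𝔪.comap π) a).2 ((hev0 a).1 h1.symm)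
    rw [← h] at h2
    exact (Ideal.mul_unit_mem_iff_mem _ (IsLocalization.map_units _ u)).1 h2) (fun y => by
    obtain ⟨y, rfl⟩ := Ideal.Quotient.mk_surjective y
    obtain ⟨x, rfl⟩ := hπ y
    exact ⟨x, hαe x⟩) g (fun k => by
    rw [hαe]
    change Ideal.Quotient.mk 𝔪 (π (g k)) = 0
    rw [hg, map_zero]) hind
  obtain ⟨σ, hσ⟩ := exists_det_ne_zero hli
  refine hσ ?_
  have h1 : π (Matrix.of fun l k : Fin c => wD hp (σ l) (g k)).det ∈ 𝔪 :=
    hle (Ideal.subset_span ⟨σ, g, hg, rfl⟩)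
  rw [← Ideal.Quotient.eq_zero_iff_mem] at h1
  refine Eq.trans ?_ h1
  change _ = ev _
  rw [RingHom.map_det]
  refine congrArg Matrix.det (Matrix.ext fun l k => ?_)
  exact hαe _
-- END W8b

-- BEGIN W8c
/-- The Nullstellensatz. -/
theorem exists_pow_le_wJac {N p : ℕ} (hp : p.Prime) {R : Type} [CommRing R] [IsDomain R]
    [Algebra.FiniteType ℤ R] (π : MvPolynomial (Fin N) ℤ →+* R) (hπ : Function.Surjective π)
    (G : Set (PrimeSpectrum R)) (hG : IsOpen G)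
    (hreg : ∀ 𝔭 ∈ G, IsRegularLocalRing (Localization.AtPrime 𝔭.asIdeal)) {c : ℕ}
    (hc : (c : ℕ∞) ≤ (RingHom.ker π).height) :
    ∃ C : ℕ, PrimeSpectrum.vanishingIdeal Gᶜ ^ C ≤ wJac hp π c ⊔ Ideal.span {(p : R)} := by
  have hN : IsNoetherianRing R := Algebra.FiniteType.isNoetherianRing ℤ R
  have := op1h_int
  have hJR : IsJacobsonRing R := isJacobsonRing_of_finiteType (A := ℤ)
  have h1 : PrimeSpectrum.vanishingIdeal Gᶜ ≤ (wJac hp π c ⊔ Ideal.span {(p : R)}).radical := by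
    rw [Ideal.radical_eq_sInf]
    refine le_sInf ?_
    rintro 𝔭 ⟨hle, h𝔭⟩
    rw [PrimeSpectrum.vanishingIdeal]
    by_cases hmem : (⟨𝔭, h𝔭⟩ : PrimeSpectrum R) ∈ G
    · exfalso
      obtain ⟨_, ⟨f, rfl⟩, hf, hfG⟩ :=
        PrimeSpectrum.isTopologicalBasis_basic_opens.exists_subset_of_mem_open hmem hG
      have hf' : f ∉ 𝔭 := hf
      have hfj : f ∉ 𝔭.jacobson := by
        rw [hJR.out h𝔭.isRadical]
        exact hf'
      obtain ⟨𝔪, ⟨h𝔭𝔪, hmax⟩, hm⟩ : ∃ 𝔪 : Ideal R, (𝔭 ≤ 𝔪 ∧ 𝔪.IsMaximal) ∧ f ∉ 𝔪 := by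
        by_contra hcon
        push Not at hcon
        exact hfj (Ideal.mem_sInf.2 fun {𝔪} h𝔪 => hcon 𝔪 h𝔪)
      refine wJac_not_le hp π hπ 𝔪 (sc3o_finite R 𝔪) ?_ (hreg ⟨𝔪, hmax.isPrime⟩ (hfG hm)) hc
        ((le_sup_left.trans hle).trans h𝔭𝔪)
      exact h𝔭𝔪 (hle (Ideal.mem_sup_right (Ideal.mem_span_singleton_self _)))
    · exact iInf₂_le (⟨𝔭, h𝔭⟩ : PrimeSpectrum R) hmem
  obtain ⟨C, hC⟩ := (wJac hp π c ⊔ Ideal.span {(p : R)}).exists_radical_pow_le_of_fg
    (IsNoetherian.noetherian _)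
  exact ⟨C, (Ideal.pow_right_mono h1 C).trans hC⟩
-- END W8c

-- BEGIN W8d
/-- The potential of arcs on an affine scheme. -/
theorem potW_of_affine {N p : ℕ} (hp : p.Prime) {R : Type} [CommRing R] [IsDomain R]
    (π : MvPolynomial (Fin N) ℤ →+* R) (hπ : Function.Surjective π) {c : ℕ}
    (hc : (RingHom.ker π).height ≤ (c : ℕ∞)) {I : Ideal R} {C : ℕ}
    (hC : I ^ C ≤ wJac hp π c ⊔ Ideal.span {(p : R)}) (𝔪 : Ideal R) [𝔪.IsPrime] {V : Type}
    [CommRing V] [IsDomain V] [IsDiscreteValuationRing V] [CharP V p]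
    (α : Localization.AtPrime 𝔪 →+* V) {x : R} (hx : x ∈ I) {s : ℕ}
    (hs : addVal V (α (algebraMap R _ x)) ≤ s) : PotW p α (C * s) := by
  have hr0 := (MvPolynomial.isRegularRing_of_isRegularRing ℤ
    (ι := Fin N)).isRegularLocalRing_localization (𝔪.comap π)
  let ψ := Localization.localRingHom (𝔪.comap π) 𝔪 π rfl
  have hψ : Function.Surjective ψ := RingHom.surjective_localRingHom_of_surjective _ hπ _
  have hψa (x) : ψ (algebraMap _ _ x) = algebraMap R _ (π x) :=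
    Localization.localRingHom_to_map _ _ _ _ x
  have hker : (RingHom.ker ψ).height = (RingHom.ker π).height := by
    rw [← IsLocalization.height_under (𝔪.comap π).primeCompl (RingHom.ker ψ)]
    congr 1
    ext x
    have hi := IsLocalization.injective (Localization.AtPrime 𝔪)
      𝔪.primeCompl_le_nonZeroDivisors
    simp only [Ideal.under, Ideal.mem_comap, RingHom.mem_ker, hψa]
    exact map_eq_zero_iff _ hi
  let β : R →+* V := α.comp (algebraMap R _)
  have h1 : β (x ^ C) ∈ (wJac hp π c).map β := by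
    have h2 := Ideal.mem_map_of_mem β (hC (Ideal.pow_mem_pow hx C))
    rw [Ideal.map_sup, Ideal.map_span, Set.image_singleton, map_natCast, CharP.cast_eq_zero,
      Ideal.span_singleton_eq_bot.2 rfl, sup_bot_eq] at h2
    exact h2
  rw [wJac, Ideal.map_span] at h1
  obtain ⟨_, ⟨_, ⟨σ, g, hg, rfl⟩, rfl⟩, hv⟩ := exists_addVal_le (RingHom.id V) h1 (n := C * s) (by
    rw [RingHom.id_apply, _root_.map_pow, IsDiscreteValuationRing.addVal_pow]
    have := nsmul_le_nsmul_right hs C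
    rw [nsmul_eq_mul, nsmul_eq_mul] at this
    rw [nsmul_eq_mul]
    push_cast
    exact this)
  have hw : ∀ l, IsWD p (((α.comp ψ).comp (algebraMap (MvPolynomial (Fin N) ℤ) _)))
      (if σ l = 0 then 1 else 0) fun f => β (π (wD hp (σ l) f)) := fun l => by
    have e : (α.comp ψ).comp (algebraMap (MvPolynomial (Fin N) ℤ) _) = β.comp π :=
      RingHom.ext fun x => congrArg α (hψa x)
    rw [e]
    exact isWD_wD hp (β.comp π) (σ l)
  choose θ hθ hθe using fun l => exists_wd_localization hp (𝔪.comap π).primeCompl _ (hw l)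
  refine ⟨c, _, inferInstance, ψ, _, θ, fun k => algebraMap _ _ (g k), hr0, hψ, hker.le.trans hc,
    hθ, fun k => by rw [hψa, hg, map_zero], ?_⟩
  have hdet : (Matrix.of fun l k : Fin c => θ l (algebraMap _ _ (g k))).det =
      β (π (Matrix.of fun l k : Fin c => wD hp (σ l) (g k)).det) := by
    rw [RingHom.map_det, RingHom.map_det]
    exact congrArg Matrix.det (Matrix.ext fun l k => hθe l (g k))
  rw [hdet]
  exact hv
-- END W8d

end Pool.Agent.Lib.MP_6a3dac_ag.NU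
end
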