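import Pool.Agent.Lib.MP_6a3dac_ag.Mg.G049
import Pool.Agent.Lib.MP_6a3dac_ag.Mg.G069
import Pool.Agent.Lib.MP_6a3dac_ag.Mg.G053

section

/-!
# NU: the blow-up of a closed subset
-/

set_option autoImplicit false

namespace Pool.Agent.Lib.MP_6a3dac_ag.NU

open CategoryTheory Limits AlgebraicGeometry TopologicalSpace

-- BEGIN BU6a
/-- Transport of `IsQTI`. -/
theorem IsQTI.congr {A A' B B' : Type} [CommRing A] [CommRing A'] [CommRing B] [CommRing B']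
    {𝔱 : Ideal A} {𝔱' : Ideal B} {φ : A →+* A'} {φ' : B →+* B'} (e : A ≃+* B) (e' : A' ≃+* B')
    (h : ∀ a, e' (φ a) = φ' (e a)) (h𝔱 : ∀ a, e a ∈ 𝔱' ↔ a ∈ 𝔱) (hφ : IsQTI 𝔱 φ) :
    IsQTI 𝔱' φ' := by
  obtain ⟨f, hf, hf0, hdvd, hgen⟩ := hφ.ex
  have hm : ∀ g ∈ 𝔱', e.symm g ∈ 𝔱 := fun g hg => by
    rw [← h𝔱, RingEquiv.apply_symm_apply]
    exact hg
  have hcl : ∀ x ∈ blowSubI 𝔱 φ f, e' x ∈ blowSubI 𝔱' φ' (e f) := by
    intro x hx
    have h1 : blowSubI 𝔱 φ f ≤ (blowSubI 𝔱' φ' (e f)).comap (e' : A' →+* B') := by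
      refine Subring.closure_le.2 ?_
      rintro x (⟨a, rfl⟩ | ⟨g, hg, hx⟩)
      · exact Subring.subset_closure (Or.inl ⟨e a, (h a).symm⟩)
      · refine Subring.subset_closure (Or.inr ⟨e g, (h𝔱 g).2 hg, ?_⟩)
        change φ' (e f) * e' x = φ' (e g)
        rw [← h, ← h, ← map_mul, hx]
    exact h1 hx
  refine ⟨e f, (h𝔱 f).2 hf, ?_, fun g hg => ?_, fun z => ?_⟩
  · rw [← h]
    exact (map_ne_zero_iff _ e'.injective).2 hf0
  · obtain ⟨c, hc⟩ := hdvd _ (hm g hg)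
    refine ⟨e' c, ?_⟩
    rw [← h, ← map_mul, ← hc, h, RingEquiv.apply_symm_apply]
  · obtain ⟨p, hp, q, hq, hqu, hpq⟩ := hgen (e'.symm z)
    refine ⟨e' p, hcl p hp, e' q, hcl q hq, hqu.map e', ?_⟩
    rw [← hpq, map_mul, RingEquiv.apply_symm_apply]
-- END BU6a

-- BEGIN BU6b
/-- The affine form: local rings of `R[I / f]`. -/
theorem isQTI_localRingHom {R C : Type} [CommRing R] [CommRing C] [IsDomain C] (ψ : R →+* C)
    {I : Ideal R} {f : R} (hf : f ∈ I) (hf0 : ψ f ≠ 0) (hdvd : ∀ g ∈ I, ψ f ∣ ψ g)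
    (hgen : Subring.closure (Set.range ψ ∪ {x | ∃ g ∈ I, ψ f * x = ψ g}) = ⊤)
    (𝔭 : Ideal R) [𝔭.IsPrime] (𝔮 : Ideal C) [𝔮.IsPrime] (h : 𝔭 = 𝔮.comap ψ) :
    IsQTI (I.map (algebraMap R (Localization.AtPrime 𝔭))) (Localization.localRingHom 𝔭 𝔮 ψ h) := by
  have hval : ∀ r, Localization.localRingHom 𝔭 𝔮 ψ h (algebraMap R _ r) =
      algebraMap C (Localization.AtPrime 𝔮) (ψ r) := fun r =>
    Localization.localRingHom_to_map 𝔭 𝔮 ψ h r
  have hinj : Function.Injective (algebraMap C (Localization.AtPrime 𝔮)) :=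
    IsLocalization.injective _ 𝔮.primeCompl_le_nonZeroDivisors
  have hcl : ∀ c : C, algebraMap C (Localization.AtPrime 𝔮) c ∈
      blowSubI (I.map (algebraMap R (Localization.AtPrime 𝔭)))
        (Localization.localRingHom 𝔭 𝔮 ψ h) (algebraMap R _ f) := by
    intro c
    have h1 : (⊤ : Subring C) ≤ (blowSubI (I.map (algebraMap R (Localization.AtPrime 𝔭)))
        (Localization.localRingHom 𝔭 𝔮 ψ h)
        (algebraMap R _ f)).comap (algebraMap C (Localization.AtPrime 𝔮)) := by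
      rw [← hgen]
      refine Subring.closure_le.2 ?_
      rintro x (⟨a, rfl⟩ | ⟨g, hg, hx⟩)
      · exact Subring.subset_closure (Or.inl ⟨algebraMap R _ a, hval a⟩)
      · refine Subring.subset_closure (Or.inr ⟨algebraMap R _ g, Ideal.mem_map_of_mem _ hg, ?_⟩)
        rw [hval, hval, ← hx, map_mul]
    exact h1 trivial
  refine ⟨algebraMap R _ f, Ideal.mem_map_of_mem _ hf, ?_, fun g' hg' => ?_, fun z => ?_⟩
  · rw [hval]
    exact (map_ne_zero_iff _ hinj).2 hf0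
  · obtain ⟨⟨⟨g, hg⟩, s⟩, hgs⟩ := (IsLocalization.mem_map_algebraMap_iff 𝔭.primeCompl _).1 hg'
    obtain ⟨c, hc⟩ := hdvd _ hg
    have hu : IsUnit (algebraMap C (Localization.AtPrime 𝔮) (ψ s)) :=
      IsLocalization.map_units (M := 𝔮.primeCompl) _
        ⟨_, fun h1 => s.2 ((SetLike.ext_iff.1 h _).2 h1)⟩
    obtain ⟨u, hu'⟩ := hu
    refine ⟨algebraMap C _ c * ↑u⁻¹, ?_⟩
    rw [← mul_assoc, Units.eq_mul_inv_iff_mul_eq, hu', hval, ← map_mul, ← hc, ← hval, ← hval,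
      ← map_mul]
    congr 1
  · obtain ⟨⟨c, d⟩, hcd⟩ := IsLocalization.surj 𝔮.primeCompl z
    refine ⟨_, hcl c, _, hcl d, IsLocalization.map_units _ d, ?_⟩
    rw [← hcd, mul_comm]
-- END BU6b

-- BEGIN BU6c
theorem bu6c_mem {R : Type} [CommRing R] (I : Ideal R) (x : PrimeSpectrum R)
    (a : Localization.AtPrime x.asIdeal) :
    (Spec.stalkIso (.of R) x).symm.commRingCatIsoToRingEquiv a ∈
      I.map ((Scheme.ΓSpecIso (CommRingCat.of R)).inv ≫
        (Spec (CommRingCat.of R)).presheaf.germ ⊤ x trivial).hom ↔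
      a ∈ I.map (algebraMap R (Localization.AtPrime x.asIdeal)) := by
  have h1 : I.map ((Scheme.ΓSpecIso (CommRingCat.of R)).inv ≫
        (Spec (CommRingCat.of R)).presheaf.germ ⊤ x trivial).hom =
      (I.map (algebraMap R (Localization.AtPrime x.asIdeal))).map
        (Spec.stalkIso (.of R) x).symm.commRingCatIsoToRingEquiv := by
    rw [← Spec.algebraMap_stalkIso_inv]
    exact (Ideal.map_map _ _).symm
  rw [h1, Ideal.mem_map_of_equiv]
  exact ⟨fun ⟨b, hb, hab⟩ => (RingEquiv.injective _ hab) ▸ hb, fun h => ⟨a, h, rfl⟩⟩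

/-- The ideal of the stalk. -/
noncomputable def bu6c_T {R : Type} [CommRing R] (I : Ideal R) (z : Spec (CommRingCat.of R)) :
    Ideal ((Spec (CommRingCat.of R)).presheaf.stalk z) :=
  I.map ((Scheme.ΓSpecIso (CommRingCat.of R)).inv ≫
    (Spec (CommRingCat.of R)).presheaf.germ ⊤ z trivial).hom

theorem bu6c_step {X Y Z : Scheme.{0}} (j : X ⟶ Y) [IsOpenImmersion j] (g : Y ⟶ Z) (x : X)
    {𝔱 : Ideal (Z.presheaf.stalk (g (j x)))} (h : IsQTI 𝔱 ((j ≫ g).stalkMap x).hom) :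
    IsQTI 𝔱 (g.stalkMap (j x)).hom := by
  have h1 : IsQTI 𝔱 (g.stalkMap (j x) ≫ j.stalkMap x).hom := by
    rw [← Scheme.Hom.stalkMap_comp]
    exact h
  refine IsQTI.congr (RingEquiv.refl _) (asIso (j.stalkMap x)).symm.commRingCatIsoToRingEquiv
    (fun a => ?_) (fun a => Iff.rfl) h1
  change (inv (j.stalkMap x)).hom ((g.stalkMap (j x) ≫ j.stalkMap x).hom a) = _
  rw [← CommRingCat.comp_apply, Category.assoc, IsIso.hom_inv_id, Category.comp_id]
  rfl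

theorem bu6c_eq {X Y : Scheme.{0}} (T : ∀ z : Y, Ideal (Y.presheaf.stalk z)) {f g : X ⟶ Y}
    (h : f = g) (x : X) (hg : IsQTI (T (g x)) (g.stalkMap x).hom) :
    IsQTI (T (f x)) (f.stalkMap x).hom := by
  subst h
  exact hg

theorem bu6c_spec {R C : Type} [CommRing R] [CommRing C] {I : Ideal R} (ψ : R →+* C)
    (p : PrimeSpectrum C) (h : IsQTI (I.map (algebraMap R _))
      (Localization.localRingHom (PrimeSpectrum.comap ψ p).asIdeal p.asIdeal ψ rfl)) :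
    IsQTI (bu6c_T I ((Spec.map (CommRingCat.ofHom ψ)) p))
      ((Spec.map (CommRingCat.ofHom ψ)).stalkMap p).hom := by
  refine IsQTI.congr
    (Spec.stalkIso (.of R) (PrimeSpectrum.comap ψ p)).symm.commRingCatIsoToRingEquiv
    (Spec.stalkIso (.of C) p).symm.commRingCatIsoToRingEquiv (fun a => ?_)
    (fun a => bu6c_mem I (PrimeSpectrum.comap ψ p) a) h
  have h1 := Scheme.localRingHom_comp_stalkIso (CommRingCat.ofHom ψ) p
  rw [← Iso.eq_inv_comp] at h1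
  exact congrArg (fun f => f.hom a) h1

/-- The local rings of the blow-up of an affine scheme. -/
theorem isQTI_blTo {R : Type} [CommRing R] [IsDomain R] {I : Ideal R} (y' : blProj I) :
    IsQTI (I.map ((Scheme.ΓSpecIso (CommRingCat.of R)).inv ≫
      (Spec (CommRingCat.of R)).presheaf.germ ⊤ (blTo I y') trivial).hom)
      ((blTo I).stalkMap y').hom := by
  obtain ⟨f, hf, hx⟩ := bu3b_cover y'
  have hf0 : f ≠ 0 := by
    rintro rfl
    refine (Proj.mem_basicOpen _ _ _).1 hx ?_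
    convert zero_mem y'.asHomogeneousIdeal
    simp
  obtain ⟨h0, h1, h2, h3⟩ := away_gen hf hf0
  rw [← Proj.opensRange_awayι (reesGr I) _ (bu3b_mem hf) Nat.one_pos] at hx
  obtain ⟨y, rfl⟩ := hx
  have hcomp : Proj.awayι (reesGr I) _ (bu3b_mem hf) Nat.one_pos ≫ blTo I = _ :=
    awayι_projTo (reesGr I) _ (bu3b_mem hf) Nat.one_pos
  exact bu6c_step (Proj.awayι (reesGr I) _ (bu3b_mem hf) Nat.one_pos) (blTo I) y
    (bu6c_eq (bu6c_T I) hcomp y (bu6c_spec _ y (isQTI_localRingHom _ hf h1 h2 h3 _ _ rfl)))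
-- END BU6c

-- BEGIN BU6d
theorem bu6d_germ {Y : Scheme.{0}} (U : Y.affineOpens) (x : Y) (hx : x ∈ U.1)
    (z : Spec Γ(Y, U)) (hz : x = U.2.fromSpec z) :
    Y.presheaf.germ U.1 x hx ≫ (Y.presheaf.stalkCongr (.of_eq hz)).hom ≫
      U.2.fromSpec.stalkMap z = (Scheme.ΓSpecIso Γ(Y, U)).inv ≫
      (Spec Γ(Y, U)).presheaf.germ ⊤ z trivial := by
  subst hz
  rw [TopCat.Presheaf.stalkCongr_hom, TopCat.Presheaf.germ_stalkSpecializes_assoc,
    Scheme.Hom.germ_stalkMap, IsAffineOpen.fromSpec_app_self, Category.assoc,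
    TopCat.Presheaf.germ_res]

/-- The local rings of a blow-up of a scheme.

PROOF.  As `IsBl.isQT` (file BU5, block BU5c, with `bu5c_qt`, to be redone for `IsQTI`): with
`ι : blProj (J.ideal U) ⟶ B`, `ι ≫ b = blTo _ ≫ U.2.fromSpec`.  The isomorphism
`e : stalk (b (ι y)) ≅ stalk of Spec` of that proof maps the germ of a section `a : Γ(Y, U)` to the
germ of the corresponding section of `Spec Γ(Y, U)` (`Scheme.Hom.germ_stalkMap`,
`IsAffineOpen.fromSpec_app_self` or `IsAffineOpen.fromSpec_appLE`...), hence it carries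
`(J.ideal U).map (germ)` to the ideal in `isQTI_blTo`. -/
theorem IsBl.isQTI {Y B : Scheme.{0}} {J : Y.IdealSheafData} {b : B ⟶ Y} (h : IsBl J b)
    [IsIntegral Y] (y' : B) (U : Y.affineOpens) (hy : b y' ∈ U.1) :
    IsQTI ((J.ideal U).map (Y.presheaf.germ U.1 (b y') hy).hom) (b.stalkMap y').hom := by
  obtain ⟨ι, hι, hpb⟩ := h U
  have : Nonempty U.1 := ⟨⟨b y', hy⟩⟩
  obtain ⟨y, hyy⟩ : ∃ y, ι y = y' := by
    obtain ⟨z, hz, -⟩ := Scheme.Pullback.exists_preimage_pullback (f := b) (g := U.1.ι) y'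
      ⟨b y', hy⟩ rfl
    refine ⟨hpb.isoPullback.inv z, ?_⟩
    rw [← Scheme.Hom.comp_apply, hpb.isoPullback_inv_fst, hz]
  subst hyy
  have h1 : ι ≫ b = blTo (J.ideal U) ≫ U.2.fromSpec := by
    rw [hpb.w]
    unfold blAff
    rw [Category.assoc]
    rfl
  have h0 : b (ι y) = U.2.fromSpec (blTo (J.ideal U) y) := by
    rw [← Scheme.Hom.comp_apply, h1, Scheme.Hom.comp_apply]
  obtain ⟨e, he, heq⟩ : ∃ e : (Y.presheaf.stalk (b (ι y))) ≅
      (Spec (CommRingCat.of Γ(Y, U))).presheaf.stalk (blTo (J.ideal U) y),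
      b.stalkMap (ι y) ≫ ι.stalkMap y = e.hom ≫ (blTo (J.ideal U)).stalkMap y ∧
      Y.presheaf.germ U.1 (b (ι y)) hy ≫ e.hom = (Scheme.ΓSpecIso (CommRingCat.of Γ(Y, U))).inv ≫
        (Spec (CommRingCat.of Γ(Y, U))).presheaf.germ ⊤ (blTo (J.ideal U) y) trivial := by
    refine ⟨Y.presheaf.stalkCongr (.of_eq h0) ≪≫
      asIso (U.2.fromSpec.stalkMap (blTo (J.ideal U) y)), ?_, ?_⟩
    · rw [← Scheme.Hom.stalkMap_comp, Scheme.Hom.stalkMap_congr_hom _ _ h1,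
        Scheme.Hom.stalkMap_comp]
      simp
    · exact bu6d_germ U _ hy _ h0
  refine IsQTI.congr e.symm.commRingCatIsoToRingEquiv
    (asIso (ι.stalkMap y)).symm.commRingCatIsoToRingEquiv ?_ ?_ (isQTI_blTo y)
  · intro a
    have h2 : (blTo (J.ideal U)).stalkMap y ≫ inv (ι.stalkMap y) =
        e.inv ≫ b.stalkMap (ι y) := by
      rw [Iso.eq_inv_comp, ← Category.assoc, ← he, Category.assoc, IsIso.hom_inv_id,
        Category.comp_id]
    exact congrArg (fun f => f.hom a) h2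
  · intro a
    rw [← heq, CommRingCat.hom_comp, ← Ideal.map_map]
    exact (Ideal.mem_map_of_equiv e.commRingCatIsoToRingEquiv a).trans
      ⟨fun ⟨x, hx, hxa⟩ => by
        rw [← hxa]
        exact (e.commRingCatIsoToRingEquiv.symm_apply_apply x).symm ▸ hx,
        fun h => ⟨_, h, e.commRingCatIsoToRingEquiv.apply_symm_apply a⟩⟩ |>.symm
-- END BU6d

-- BEGIN BU6e
theorem bu6e_bot {R : Type} [CommRing R] {C : Set (PrimeSpectrum R)} (hC : IsClosed C)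
    (h : PrimeSpectrum.vanishingIdeal C = ⊥) (x : PrimeSpectrum R) : x ∈ C := by
  rw [← hC.closure_eq, ← PrimeSpectrum.zeroLocus_vanishingIdeal_eq_closure, h]
  simp

/-- **The blow-up of a closed subset.**

PROOF.  `J = vanishingIdeal ⟨T, hT⟩`, `exists_blowup`, and as in `exists_step` (file BU5):
(1) `J.ideal U = ⊤` for an affine open `U` disjoint from `T` (see the proof of
`exists_ideal_of_finite`); (2) `J.ideal U ≠ ⊥` for nonempty `U`: `genericPoint Y ∉ T`, so the closed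
subset `T ∩ U` of `U` is not everything (`if J.ideal U = ⊥` then `T ⊇ closure` ... the zero ideal
is the vanishing ideal of the closed set `U.2.fromSpec ⁻¹' T`, which is then everything, in particular
the generic point is in `T`).  `IsMod`: `isProper`, `isIntegral` (with `Ω = Tᶜ`), `isIso`.  `qt`:
`IsBl.isQTI` and `tIdl_eq_map`. -/
theorem exists_stepI (Y : Scheme.{0}) [IsIntegral Y] [IsLocallyNoetherian Y] {T : Set Y}
    (hT : IsClosed T) (hgen : genericPoint Y ∉ T) :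
    ∃ (Y' : Scheme.{0}) (β : Y' ⟶ Y), IsStepI β T := by
  obtain ⟨J, hJ⟩ : ∃ J, J = Scheme.IdealSheafData.vanishingIdeal ⟨T, hT⟩ := ⟨_, rfl⟩
  have h1 : ∀ U : Y.affineOpens, Disjoint (U.1 : Set Y) T → J.ideal U = ⊤ := fun U hU => by
    rw [hJ, Scheme.IdealSheafData.vanishingIdeal_ideal, Ideal.eq_top_iff_one,
      PrimeSpectrum.mem_vanishingIdeal]
    intro p hp
    exact (Set.disjoint_left.mp hU (U.2.range_fromSpec ▸ ⟨p, rfl⟩) hp).elim
  have h2 : ∀ U : Y.affineOpens, (U.1 : Set Y).Nonempty → J.ideal U ≠ ⊥ := fun U hU h => by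
    have hξ : genericPoint Y ∈ U.1 :=
      ((genericPoint_spec Y).mem_open_set_iff U.1.isOpen).mpr (by simpa using hU)
    rw [hJ, Scheme.IdealSheafData.vanishingIdeal_ideal] at h
    have h4 : U.2.fromSpec (U.2.primeIdealOf ⟨_, hξ⟩) ∈ T :=
      bu6e_bot (hT.preimage U.2.fromSpec.continuous) h _
    rw [U.2.fromSpec_primeIdealOf] at h4
    exact hgen h4
  obtain ⟨B, b, hb⟩ := exists_blowup Y J
  have hbl : IsBl J b := hb
  refine ⟨B, b, ⟨⟨hbl.isProper, ?_, fun U hU => hbl.isIso U fun V hV => h1 V (hU.mono_left hV)⟩,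
    fun y' _ => ?_⟩⟩
  · exact hbl.isIntegral h2 ⟨Tᶜ, hT.isOpen_compl⟩ ⟨genericPoint Y, hgen⟩
      fun V hV => h1 V (Set.disjoint_left.2 fun y hy => hV hy)
  · obtain ⟨U, hU, hyU, -⟩ := (Y.isBasis_affineOpens).exists_subset_of_mem_open
      (Set.mem_univ (b y')) isOpen_univ
    obtain ⟨U, hU, rfl⟩ := hU
    rw [tIdl_eq_map hT ⟨U, hU⟩ hyU, ← hJ]
    exact hbl.isQTI y' ⟨U, hU⟩ hyU
-- END BU6e

end Pool.Agent.Lib.MP_6a3dac_ag.NU
end

section

/-!
# NU: moving arcs into the regular locus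
-/

set_option autoImplicit false

namespace Pool.Agent.Lib.MP_6a3dac_ag.NU

open CategoryTheory Limits AlgebraicGeometry TopologicalSpace IsLocalRing IsDiscreteValuationRing

-- BEGIN RS1a
/-- The potential drops when the closed set `T` is blown up. -/
theorem IsStepI.pot {Z' Z : Scheme.{0}} {β : Z' ⟶ Z} {T : Set Z} (h : IsStepI β T) (hZ : Nice Z)
    (hT : IsClosed T) (hcz : ∀ z ∈ T, ¬ CharZ Z z) {z' : Z'} (hzT : β z' ∈ T)
    (hreg : IsRegularLocalRing (Z.presheaf.stalk (β z') ⧸ tIdl T (β z')))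
    (hfree : ConFree (tIdl T (β z'))) (hA : β z' ∉ regOpen Z) {V : Type} [CommRing V] [IsDomain V]
    [IsDiscreteValuationRing V] (α : Z'.presheaf.stalk z' →+* V) (hα : IsLocalHom α) {n : ℕ}
    (hp : Pot (α.comp (β.stalkMap z').hom) (n + 1)) : Pot α n := by
  have := hZ.int
  have := h.int
  have := hZ.isLocallyNoetherian
  have hT' : T ≠ Set.univ := by
    obtain ⟨y, hy⟩ := hZ.cz
    intro hc
    exact hcz y (by rw [hc]; trivial) hy
  have hinj := h.toIsMod.injective_stalkMap hT hT' z'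
  obtain ⟨m, hm, hp'⟩ := Pot.step hreg hfree hinj inferInstance (h.qt z' hzT) hα rfl
    (fun hr => hA (hZ.mem_regOpen_of_regular hr)) hp
  exact hp'.mono (by omega)
-- END RS1a

-- BEGIN RS1b
theorem claim_zero : Claim 0 := by
  intro Z hZ T _ _
  have := hZ.int
  refine ⟨Z, 𝟙 Z, hZ, IsMod.id Z _, fun z' _ V _ _ _ _ α hα hp => ?_⟩
  have hl : IsLocalHom (α.comp ((𝟙 Z : Z ⟶ Z).stalkMap z').hom) :=
    RingHom.isLocalHom_comp _ _
  exact hZ.mem_regOpen_of_regular (y := z')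
    (regular_of_pot_zero (A := Z.presheaf.stalk z') (α.comp ((𝟙 Z : Z ⟶ Z).stalkMap z').hom) hl hp)
-- END RS1b

-- BEGIN RS1c
theorem claimAt_empty (n : ℕ) {Z : Scheme.{0}} (hZ : Nice Z) : ClaimAt n Z ∅ := by
  have := hZ.int
  exact ⟨Z, 𝟙 Z, hZ, IsMod.id Z _, fun _ h => h.elim⟩
-- END RS1c

-- BEGIN RS1d
/-- The closure of the centers of the arcs which are not yet good. -/
theorem claimAt_of_subset {n : ℕ} {Z : Scheme.{0}} {T T₁ : Set Z} (hT₁c : IsClosed T₁)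
    (hsub : T₁ ⊆ T)
    (hT₁ : ∀ z ∈ T, z ∉ regOpen Z → (∃ (V : Type) (_ : CommRing V) (_ : IsDomain V)
      (_ : IsDiscreteValuationRing V) (α : Z.presheaf.stalk z →+* V), CharZero V ∧ IsLocalHom α ∧
        Pot α n) → z ∈ T₁)
    (h : ClaimAt n Z T₁) : ClaimAt n Z T := by
  obtain ⟨Z', β, hZ', hβ, hp⟩ := h
  refine ⟨Z', β, hZ', hβ.mono (Set.inter_subset_inter_left _ hsub), ?_⟩
  intro z' hz V _ _ _ _ α hα hpot
  by_cases hz1 : β z' ∈ T₁
  · exact hp z' hz1 V α hα hpot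
  · refine (hβ.mem_regOpen_iff (hT₁c.inter (regOpen Z).isOpen.isClosed_compl)
      fun h => hz1 h.1).2 ?_
    by_contra hn
    exact hz1 (hT₁ _ hz hn ⟨V, _, _, _, α.comp (β.stalkMap z').hom, inferInstance,
      RingHom.isLocalHom_comp _ _, hpot⟩)
-- END RS1d

-- BEGIN RS1e
/-- The geometry of the second blow-up. -/
theorem exists_center {Z Z₂ : Scheme.{0}} {β₂ : Z₂ ⟶ Z} {T T₂ : Set Z} (hT : IsClosed T)
    (hT₂ : IsClosed T₂) (hcz : ∀ z ∈ T, ¬ CharZ Z z) (hTr : T ⊆ (regOpen Z : Set Z)ᶜ)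
    (h₂ : IsMod β₂ (T₂ ∩ (regOpen Z : Set Z)ᶜ)) :
    ∃ T₃ : Set Z₂, IsClosed T₃ ∧ (∀ z ∈ T₃, ¬ CharZ Z₂ z) ∧ T₃ ⊆ β₂ ⁻¹' T ∧
      (∀ x, β₂ x ∈ T → β₂ x ∉ T₂ → x ∈ T₃) ∧ Disjoint (regOpen Z₂ : Set Z₂) T₃ := by
  have hs : closure (β₂ ⁻¹' (T \ T₂)) ⊆ β₂ ⁻¹' T :=
    closure_minimal (Set.preimage_mono Set.sdiff_subset) (hT.preimage β₂.continuous)
  refine ⟨closure (β₂ ⁻¹' (T \ T₂)), isClosed_closure, fun z hz hc => hcz _ (hs hz) hc.map, hs,
    fun x h h' => subset_closure ⟨h, h'⟩, Disjoint.closure_right ?_ (regOpen Z₂).isOpen⟩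
  refine Set.disjoint_left.2 fun x hx hx' => hTr hx'.1 ?_
  exact (h₂.mem_regOpen_iff (hT₂.inter (regOpen Z).isOpen.isClosed_compl)
    fun h => hx'.2 h.1).1 hx
-- END RS1e

-- BEGIN RS1f
/-- The local structure of the center of the second blow-up.

PROOF.  Put `z = β₂ x`, `z ∉ T₂`.  `β₂.stalkMap x` is an isomorphism (`IsMod.isIso_stalkMap`; the set
`T₂ ∩ (regOpen Z)ᶜ` is closed and does not contain `z`).  For a generization `x' ⤳ x`:
`β₂ x' ⤳ β₂ x`, and `β₂ x' ∉ T₂` since `T₂` is closed; so `x' ∈ T₃ ↔ β₂ x' ∈ T` (`hsub`, `hmem`).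
`tIdl_of_isIso` (file GN1): `(tIdl T z).map (β₂.stalkMap x).hom = tIdl T₃ x`.  Transport
`IsRegularLocalRing (stalk ⧸ tIdl)` and `ConFree` along the isomorphism of rings. -/
theorem center_structure {Z Z₂ : Scheme.{0}} {β₂ : Z₂ ⟶ Z} {T T₂ : Set Z} {T₃ : Set Z₂}
    (hT₂ : IsClosed T₂) (h₂ : IsMod β₂ (T₂ ∩ (regOpen Z : Set Z)ᶜ)) (hsub : T₃ ⊆ β₂ ⁻¹' T)
    (hmem : ∀ x, β₂ x ∈ T → β₂ x ∉ T₂ → x ∈ T₃) {x : Z₂} (hx₂ : β₂ x ∉ T₂)
    (hreg : IsRegularLocalRing (Z.presheaf.stalk (β₂ x) ⧸ tIdl T (β₂ x)))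
    (hfree : ConFree (tIdl T (β₂ x))) :
    IsRegularLocalRing (Z₂.presheaf.stalk x ⧸ tIdl T₃ x) ∧ ConFree (tIdl T₃ x) := by
  have hiso : IsIso (β₂.stalkMap x) := h₂.isIso_stalkMap
    (hT₂.inter (regOpen Z).2.isClosed_compl) fun h => hx₂ h.1
  let e := (asIso (β₂.stalkMap x)).commRingCatIsoToRingEquiv
  have h1 : (tIdl T (β₂ x)).map (β₂.stalkMap x).hom = tIdl T₃ x := by
    refine tIdl_of_isIso hiso fun x' hx' => ⟨fun h => hsub h, fun h => hmem x' h fun h' => hx₂ ?_⟩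
    exact (hx'.map β₂.continuous).mem_closed hT₂ h'
  have h2 : (tIdl T (β₂ x)).map e = tIdl T₃ x := h1
  rw [← h2]
  exact ⟨IsRegularLocalRing.of_ringEquiv (Ideal.quotientEquiv _ _ e rfl), gn1g_con e hfree⟩
-- END RS1f

-- BEGIN RS1g
/-- **The main step.**

PROOF.  `h₂ : ClaimAt (n + 1) Z T₂` gives `β₂ : Z₂ ⟶ Z`.  `exists_center`: `T₃`.  `exists_stepI`
(file BU6; `Z₂` is integral and locally Noetherian; the generic point is not in `T₃`: otherwise, by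
`CharZ.generize` and `hZ₂.cz`, `T₃` would contain a point of characteristic zero... the generic point is
a generization of the point of characteristic zero, so of characteristic zero): `β₃ : Z₃ ⟶ Z₂`, nice by
`Nice.mod`.  `ih : Claim n` for `Z₃` and `T' = β₃ ⁻¹' T₃` (closed, without points of characteristic
zero by `CharZ.map`): `β₄ : Z₄ ⟶ Z₃`.  Let `β = β₄ ≫ β₃ ≫ β₂`.
(a) `IsMod β (T ∩ (regOpen Z)ᶜ)`: `T ∩ regOpenᶜ = T` by `hTr`; `IsMod.comp` and `IsMod.mono`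
(`T₂ ⊆ T`, `T₃ ⊆ β₂ ⁻¹' T`, `T' ⊆ β₃ ⁻¹' (β₂ ⁻¹' T)`).
(b) Let `z₄ ∈ Z₄`, `α` an arc at `z₄` with `β z₄ ∈ T` and `Pot (α.comp β_*) (n + 1)`.  Put `z₃ = β₄ z₄`,
`z₂ = β₃ z₃`, `z = β₂ z₂ = β z₄`.  The arc at `z₂` is `α₂ = α.comp ((β₄ ≫ β₃).stalkMap z₄).hom`, and
`α₂.comp (β₂.stalkMap z₂).hom = α.comp (β.stalkMap z₄).hom` (`Scheme.Hom.stalkMap_comp`).
Case A: `z₂ ∈ regOpen Z₂`.  Then `z₃ ∈ regOpen Z₃` (`IsMod.preimage_regOpen` for `β₃`, `T₃` disjoint
from `regOpen Z₂`) and `z₄ ∈ regOpen Z₄` (`IsMod.preimage_regOpen` for `β₄` and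
`T' ∩ (regOpen Z₃)ᶜ`).  If `z ∈ T₂` then by the property of `β₂`, applied to the arc `α₂`,
`z₂ ∈ regOpen Z₂`: case A.
Case B: `z₂ ∉ regOpen Z₂`, so `z ∉ T₂`.  Then `z₂ ∈ T₃`; `center_structure` with `hgen`;
`Pot α₂ (n + 1)` by `Pot.congr` with the isomorphism `β₂.stalkMap z₂`.  `IsStepI.pot` for `β₃` and the
arc `α₃ = α.comp (β₄.stalkMap z₄).hom` at `z₃`: `Pot α₃ n`.  By the property of `β₄` (`z₃ ∈ T'`),
`z₄ ∈ regOpen Z₄`. -/
theorem claimAt_main {n : ℕ} (ih : Claim n) {Z : Scheme.{0}} (hZ : Nice Z) {T T₂ : Set Z}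
    (hT : IsClosed T) (hcz : ∀ z ∈ T, ¬ CharZ Z z) (hTr : T ⊆ (regOpen Z : Set Z)ᶜ)
    (hT₂ : IsClosed T₂) (hT₂T : T₂ ⊆ T)
    (hgen : ∀ z ∈ T, z ∉ T₂ →
      IsRegularLocalRing (Z.presheaf.stalk z ⧸ tIdl T z) ∧ ConFree (tIdl T z))
    (h₂ : ClaimAt (n + 1) Z T₂) : ClaimAt (n + 1) Z T := by
  obtain ⟨Z₂, β₂, hZ₂, hm₂, hp₂⟩ := h₂
  obtain ⟨T₃, hT₃c, hT₃cz, hT₃T, hmem, hdisj⟩ := exists_center hT hT₂ hcz hTr hm₂
  have := hZ₂.int
  have := hZ₂.isLocallyNoetherian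
  have hgen₂ : genericPoint Z₂ ∉ T₃ := fun h => by
    obtain ⟨y₀, hy₀⟩ := hZ₂.cz
    exact hT₃cz _ h (hy₀.generize (genericPoint_specializes y₀))
  obtain ⟨Z₃, β₃, h₃⟩ := exists_stepI Z₂ hT₃c hgen₂
  have hZ₃ : Nice Z₃ := hZ₂.mod h₃.toIsMod hT₃c hT₃cz
  obtain ⟨Z₄, β₄, hZ₄, hm₄, hp₄⟩ := ih Z₃ hZ₃ (β₃ ⁻¹' T₃) (hT₃c.preimage β₃.continuous)
    fun z hz hc => hT₃cz _ hz hc.map
  refine ⟨Z₄, β₄ ≫ β₃ ≫ β₂, hZ₄, ?_, ?_⟩
  · have e₁ : IsMod β₂ (T ∩ (regOpen Z : Set Z)ᶜ) :=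
      hm₂.mono (Set.inter_subset_inter_left _ hT₂T)
    have e₂ : T₃ ⊆ β₂ ⁻¹' (T ∩ (regOpen Z : Set Z)ᶜ) := fun x hx => ⟨hT₃T hx, hTr (hT₃T hx)⟩
    have e₃ : IsMod (β₃ ≫ β₂) (T ∩ (regOpen Z : Set Z)ᶜ) := e₁.comp (h₃.toIsMod.mono e₂)
    exact e₃.comp (hm₄.mono fun x hx => e₂ hx.1)
  · intro z₄ hz V _ _ _ _ α hα hpot
    have caseA : β₃ (β₄ z₄) ∈ regOpen Z₂ → z₄ ∈ regOpen Z₄ := fun h => by
      have h3 : β₄ z₄ ∈ regOpen Z₃ := h₃.toIsMod.preimage_regOpen hT₃c hdisj h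
      exact hm₄.preimage_regOpen ((hT₃c.preimage β₃.continuous).inter
        (regOpen Z₃).2.isClosed_compl) (Set.disjoint_left.2 fun x hx hx' => hx'.2 hx) h3
    by_cases hz₂ : β₃ (β₄ z₄) ∈ regOpen Z₂
    · exact caseA hz₂
    have hzT : β₂ (β₃ (β₄ z₄)) ∈ T := hz
    have hl₂ : IsLocalHom (α.comp ((β₄ ≫ β₃).stalkMap z₄).hom) := RingHom.isLocalHom_comp _ _
    have hl₃ : IsLocalHom (α.comp (β₄.stalkMap z₄).hom) := RingHom.isLocalHom_comp _ _
    have hpot₂ : Pot ((α.comp ((β₄ ≫ β₃).stalkMap z₄).hom).comp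
        (β₂.stalkMap (β₃ (β₄ z₄))).hom) (n + 1) := by
      have hc : (α.comp ((β₄ ≫ β₃).stalkMap z₄).hom).comp (β₂.stalkMap (β₃ (β₄ z₄))).hom =
          α.comp ((β₄ ≫ β₃ ≫ β₂).stalkMap z₄).hom :=
        congrArg (fun f => α.comp (CommRingCat.Hom.hom f))
          (Scheme.Hom.stalkMap_comp (β₄ ≫ β₃) β₂ z₄).symm
      rw [hc]
      exact hpot
    have hz₂' : β₂ (β₃ (β₄ z₄)) ∉ T₂ := fun h => hz₂ (hp₂ _ h V _ hl₂ hpot₂)
    have hT3 : β₃ (β₄ z₄) ∈ T₃ := hmem _ hzT hz₂'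
    obtain ⟨hr, hf⟩ := hgen _ hzT hz₂'
    obtain ⟨hreg, hfree⟩ := center_structure hT₂ hm₂ hT₃T hmem hz₂' hr hf
    have hiso : IsIso (β₂.stalkMap (β₃ (β₄ z₄))) := hm₂.isIso_stalkMap
      (hT₂.inter (regOpen Z).2.isClosed_compl) fun h => hz₂' h.1
    have hpot₃ : Pot (α.comp ((β₄ ≫ β₃).stalkMap z₄).hom) (n + 1) :=
      Pot.congr (asIso (β₂.stalkMap (β₃ (β₄ z₄)))).commRingCatIsoToRingEquiv (fun a => rfl) hpot₂
    have hpot₄ : Pot ((α.comp (β₄.stalkMap z₄).hom).comp (β₃.stalkMap (β₄ z₄)).hom) (n + 1) := by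
      have hc : (α.comp (β₄.stalkMap z₄).hom).comp (β₃.stalkMap (β₄ z₄)).hom =
          α.comp ((β₄ ≫ β₃).stalkMap z₄).hom :=
        congrArg (fun f => α.comp (CommRingCat.Hom.hom f))
          (Scheme.Hom.stalkMap_comp β₄ β₃ z₄).symm
      rw [hc]
      exact hpot₃
    exact hp₄ z₄ hT3 V α hα (h₃.pot hZ₂ hT₃c hT₃cz hT3 hreg hfree hz₂ _ hl₃ hpot₄)
-- END RS1g

-- BEGIN RS1h
/-- **The induction.** -/
theorem claim_succ {n : ℕ} (ih : Claim n) : Claim (n + 1) := by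
  intro Z hZ T hT hcz
  have := hZ.isLocallyNoetherian
  have := hZ.qc
  have hN : IsNoetherian Z := {}
  suffices h : ∀ C : Closeds Z, (∀ z ∈ C, ¬ CharZ Z z) → ClaimAt (n + 1) Z C from h ⟨T, hT⟩ hcz
  intro C
  induction C using WellFoundedLT.induction with
  | ind C IH =>
    intro hC
    let S : Set Z := {z | z ∈ C ∧ z ∉ regOpen Z ∧ ∃ (V : Type) (_ : CommRing V) (_ : IsDomain V)
      (_ : IsDiscreteValuationRing V) (α : Z.presheaf.stalk z →+* V), CharZero V ∧ IsLocalHom α ∧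
        Pot α (n + 1)}
    have hSC : closure S ⊆ C := closure_minimal (fun z hz => hz.1) C.2
    by_cases hS : closure S = C
    · have hCr : (C : Set Z) ⊆ (regOpen Z : Set Z)ᶜ := hS ▸ closure_minimal
        (fun z hz => hz.2.1) (regOpen Z).2.isClosed_compl
      rcases (C : Set Z).eq_empty_or_nonempty with h0 | hne
      · rw [h0]
        exact claimAt_empty _ hZ
      · obtain ⟨T₂, h2, h2C, h2ne, hgen⟩ := hZ.exists_generic C.2 hne hC
        refine claimAt_main ih hZ C.2 hC hCr h2 h2C hgen (IH ⟨T₂, h2⟩ ?_ fun z hz => hC z (h2C hz))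
        exact lt_of_le_of_ne h2C fun h => h2ne (congrArg (fun D : Closeds Z => (D : Set Z)) h)
    · refine claimAt_of_subset isClosed_closure hSC (fun z hz hr h => subset_closure ⟨hz, hr, h⟩)
        (IH ⟨closure S, isClosed_closure⟩ ?_ fun z hz => hC z (hSC hz))
      exact lt_of_le_of_ne hSC fun h => hS (congrArg (fun D : Closeds Z => (D : Set Z)) h)
-- END RS1h

theorem claim (n : ℕ) : Claim n := by
  induction n with
  | zero => exact claim_zero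
  | succ n ih => exact claim_succ ih

-- BEGIN RS1i
/-- **All arcs of bounded ramification can be moved into the regular locus.** -/
theorem Nice.exists_res {Y : Scheme.{0}} (hY : Nice Y) (d : ℕ) :
    ∃ (Y' : Scheme.{0}) (β : Y' ⟶ Y), Nice Y' ∧ IsMod β ((regOpen Y : Set Y)ᶜ) ∧
      ∀ y' : Y', ∀ (V : Type) [CommRing V] [IsDomain V] [IsDiscreteValuationRing V] [CharZero V]
        (α : Y'.presheaf.stalk y' →+* V), IsLocalHom α →
        (∀ p : ℕ, p.Prime → addVal V (p : V) ≤ d) → y' ∈ regOpen Y' := by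
  obtain ⟨n, hn⟩ := hY.exists_pot d
  obtain ⟨a, ha, hb⟩ := hY.exists_bound
  have hT : IsClosed {y : Y | ¬ IsUnit ((a : ℕ) : Y.presheaf.stalk y)} := by
    rw [← isOpen_compl_iff]
    convert (Y.basicOpen (a : Γ(Y, ⊤))).2 using 1
    ext y
    simp only [Set.mem_compl_iff, Set.mem_ofPred_eq, not_not, Opens.carrier_eq_coe, SetLike.mem_coe]
    rw [Y.mem_basicOpen_top, map_natCast]
  obtain ⟨Y', β, h1, h2, h3⟩ := claim n Y hY _ hT fun z hz hc => hz (hc a ha)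
  have h4 : IsMod β ((regOpen Y : Set Y)ᶜ) := h2.mono Set.inter_subset_right
  refine ⟨Y', β, h1, h4, fun y' V _ _ _ _ α hα hd => ?_⟩
  by_cases hy : IsUnit ((a : ℕ) : Y.presheaf.stalk (β y'))
  · exact h4.preimage_regOpen (regOpen Y).2.isClosed_compl disjoint_compl_right (hb _ hy)
  · exact h3 y' hy V α hα (hn _ V _ hd)
-- END RS1i

end Pool.Agent.Lib.MP_6a3dac_ag.NU
end

section

/-!
# NU: the union of the regular loci of a tower of modifications
-/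

set_option autoImplicit false

namespace Pool.Agent.Lib.MP_6a3dac_ag.NU

open CategoryTheory Limits AlgebraicGeometry TopologicalSpace IsLocalRing IsDiscreteValuationRing

-- BEGIN CO1a
theorem co1a_imm {U : ℕ → Scheme.{0}} (j : ∀ i, U i ⟶ U (i + 1))
    (hj : ∀ i, IsOpenImmersion (j i)) {m n : ℕ} (g : m ⟶ n) :
    IsOpenImmersion ((Functor.ofSequence j).map g) := by
  obtain ⟨h, rfl⟩ : ∃ h : m ≤ n, g = homOfLE h := ⟨leOfHom g, rfl⟩
  induction n, h using Nat.le_induction with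
  | base =>
    have h1 : (Functor.ofSequence j).map (homOfLE (le_refl m)) = 𝟙 _ :=
      (Functor.ofSequence j).map_id m
    rw [h1]
    infer_instance
  | succ n h ih =>
    have h3 : IsOpenImmersion ((Functor.ofSequence j).map (homOfLE n.le_succ)) := by
      rw [Functor.ofSequence_map_homOfLE_succ]
      exact hj n
    have h1 : (Functor.ofSequence j).map (homOfLE (h.trans n.le_succ)) =
        (Functor.ofSequence j).map (homOfLE h) ≫ (Functor.ofSequence j).map (homOfLE n.le_succ) :=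
      (Functor.ofSequence j).map_comp (homOfLE h) (homOfLE n.le_succ)
    rw [h1]
    infer_instance

theorem co1a_nat {U : ℕ → Scheme.{0}} (j : ∀ i, U i ⟶ U (i + 1)) {S : Scheme.{0}}
    (f : ∀ i, U i ⟶ S) (hf : ∀ i, j i ≫ f (i + 1) = f i) {m n : ℕ} (g : m ⟶ n) :
    (Functor.ofSequence j).map g ≫ (show (Functor.ofSequence j).obj n ⟶ S from f n) = f m := by
  obtain ⟨h, rfl⟩ : ∃ h : m ≤ n, g = homOfLE h := ⟨leOfHom g, rfl⟩
  induction n, h using Nat.le_induction with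
  | base =>
    have h1 : (Functor.ofSequence j).map (homOfLE (le_refl m)) = 𝟙 _ :=
      (Functor.ofSequence j).map_id m
    rw [h1]
    exact Category.id_comp _
  | succ n h ih =>
    have h1 : (Functor.ofSequence j).map (homOfLE (h.trans n.le_succ)) =
        (Functor.ofSequence j).map (homOfLE h) ≫ (Functor.ofSequence j).map (homOfLE n.le_succ) :=
      (Functor.ofSequence j).map_comp (homOfLE h) (homOfLE n.le_succ)
    rw [h1, Functor.ofSequence_map_homOfLE_succ]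
    refine (Category.assoc _ _ _).trans ?_
    exact (congrArg (fun t => (Functor.ofSequence j).map (homOfLE h) ≫ t) (hf n)).trans ih

/-- The union of a sequence of open immersions. -/
theorem exists_colimit (U : ℕ → Scheme.{0}) (j : ∀ i, U i ⟶ U (i + 1))
    (hj : ∀ i, IsOpenImmersion (j i)) :
    ∃ (X : Scheme.{0}) (ι : ∀ i, U i ⟶ X), (∀ i, IsOpenImmersion (ι i)) ∧
      (∀ i, j i ≫ ι (i + 1) = ι i) ∧ (∀ x : X, ∃ i, x ∈ Set.range (ι i)) ∧
      ∀ (S : Scheme.{0}) (f : ∀ i, U i ⟶ S), (∀ i, j i ≫ f (i + 1) = f i) →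
        ∃ g : X ⟶ S, ∀ i, ι i ≫ g = f i := by
  let F : ℕ ⥤ Scheme.{0} := Functor.ofSequence j
  have hF : ∀ {m n : ℕ} (g : m ⟶ n), IsOpenImmersion (F.map g) := fun g => co1a_imm j hj g
  have hd : (F ⋙ Scheme.forget).IsLocallyDirected := by
    refine ⟨fun {m n k} fi fj xi xj h => ?_⟩
    have key : ∀ {m n k : ℕ} (fi : m ⟶ k) (fj : n ⟶ k) (h : m ≤ n) (xi : F.obj m)
        (xj : F.obj n), F.map fi xi = F.map fj xj → F.map (homOfLE h) xi = xj := by
      intro m n k fi fj h xi xj hx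
      apply (F.map fj).isOpenEmbedding.injective
      have h1 : F.map (homOfLE h) ≫ F.map fj = F.map fi := (F.map_comp _ _).symm
      rw [← hx, ← h1]
      rfl
    have hid : ∀ (m : ℕ) (x : F.obj m), F.map (𝟙 m) x = x := fun m x => by
      rw [F.map_id]
      rfl
    rcases le_total m n with h' | h'
    · exact ⟨m, 𝟙 m, homOfLE h', xi, hid m xi, key fi fj h' xi xj h⟩
    · exact ⟨n, homOfLE h', 𝟙 n, xj, key fj fi h' xj xi h.symm, hid n xj⟩
  have hι : ∀ i, IsOpenImmersion (colimit.ι F i) := fun i => inferInstance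
  refine ⟨colimit F, colimit.ι F, hι, fun i => ?_, fun x => ?_, fun S f hf => ?_⟩
  · have h1 := colimit.w F (homOfLE i.le_succ)
    rwa [Functor.ofSequence_map_homOfLE_succ] at h1
  · obtain ⟨i, xi, h⟩ := Scheme.IsLocallyDirected.ι_jointly_surjective F x
    exact ⟨i, xi, h⟩
  · have hn : ∀ ⦃m n : ℕ⦄ (g : m ⟶ n), F.map g ≫ (show F.obj n ⟶ S from f n) =
        (show F.obj m ⟶ S from f m) ≫ ((Functor.const ℕ).obj S).map g := fun m n g =>
      (co1a_nat j f hf g).trans (Category.comp_id _).symm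
    exact ⟨colimit.desc F ⟨S, ⟨f, hn⟩⟩, fun i => colimit.ι_desc _ _⟩
-- END CO1a

-- BEGIN CO1b
/-- An increasing union of separated open subschemes is separated. -/
theorem isSeparated_of_directed {X S : Scheme.{0}} (f : X ⟶ S) (U : ℕ → Scheme.{0})
    (ι : ∀ i, U i ⟶ X) (hι : ∀ i, IsOpenImmersion (ι i))
    (hmono : ∀ i, Set.range (ι i) ⊆ Set.range (ι (i + 1)))
    (hcov : ∀ x : X, ∃ i, x ∈ Set.range (ι i)) (h : ∀ i, IsSeparated (ι i ≫ f)) :
    IsSeparated f := by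
  have hm : Monotone fun i => Set.range (ι i) := monotone_nat_of_le_succ hmono
  refine ⟨IsClosedImmersion.of_isPreimmersion _ (isClosed_of_closure_subset fun z hz => ?_)⟩
  obtain ⟨i, h1, h2⟩ : ∃ i, pullback.fst f f z ∈ Set.range (ι i) ∧
      pullback.snd f f z ∈ Set.range (ι i) := by
    obtain ⟨a, ha⟩ := hcov (pullback.fst f f z)
    obtain ⟨b, hb⟩ := hcov (pullback.snd f f z)
    exact ⟨max a b, hm (le_max_left a b) ha, hm (le_max_right a b) hb⟩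
  let m := pullback.map (ι i ≫ f) (ι i ≫ f) f f (ι i) (ι i) (𝟙 S) (Category.comp_id _)
    (Category.comp_id _)
  have hmo : IsOpenImmersion m := inferInstance
  have hm1 : m ≫ pullback.fst f f = pullback.fst (ι i ≫ f) (ι i ≫ f) ≫ ι i :=
    pullback.lift_fst _ _ _
  have hm2 : m ≫ pullback.snd f f = pullback.snd (ι i ≫ f) (ι i ≫ f) ≫ ι i :=
    pullback.lift_snd _ _ _
  have hd : pullback.diagonal (ι i ≫ f) ≫ m = ι i ≫ pullback.diagonal f := by
    apply pullback.hom_ext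
    · rw [Category.assoc, hm1, ← Category.assoc, pullback.diagonal_fst, Category.id_comp,
        Category.assoc, pullback.diagonal_fst, Category.comp_id]
    · rw [Category.assoc, hm2, ← Category.assoc, pullback.diagonal_snd, Category.id_comp,
        Category.assoc, pullback.diagonal_snd, Category.comp_id]
  obtain ⟨w, rfl⟩ : z ∈ Set.range m := by
    rw [Scheme.Pullback.range_map]
    exact ⟨h1, h2⟩
  have hpre : m ⁻¹' Set.range (pullback.diagonal f) =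
      Set.range (pullback.diagonal (ι i ≫ f)) := by
    ext v
    constructor
    · rintro ⟨x, hx⟩
      have h3 : ι i (pullback.fst (ι i ≫ f) (ι i ≫ f) v) = x := by
        have h4 : (m ≫ pullback.fst f f) v = pullback.fst f f (pullback.diagonal f x) := by
          rw [Scheme.Hom.comp_apply, ← hx]
        rw [← Scheme.Hom.comp_apply (pullback.diagonal f), pullback.diagonal_fst] at h4
        rw [← Scheme.Hom.comp_apply]
        rw [hm1] at h4
        exact h4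
      refine ⟨pullback.fst (ι i ≫ f) (ι i ≫ f) v, m.isOpenEmbedding.injective ?_⟩
      rw [← Scheme.Hom.comp_apply, hd, Scheme.Hom.comp_apply, h3, hx]
    · rintro ⟨u, rfl⟩
      refine ⟨ι i u, ?_⟩
      rw [← Scheme.Hom.comp_apply, ← hd, Scheme.Hom.comp_apply]
  have hcl : IsClosed (Set.range (pullback.diagonal (ι i ≫ f))) :=
    (pullback.diagonal (ι i ≫ f)).isClosedEmbedding.isClosed_range
  have h6 : w ∈ closure (m ⁻¹' Set.range (pullback.diagonal f)) := by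
    rw [← m.isOpenEmbedding.isOpenMap.preimage_closure_eq_closure_preimage m.continuous]
    exact hz
  rw [hpre, hcl.closure_eq, ← hpre] at h6
  exact h6
-- END CO1b

/-- A tower of modifications of `Y` in which arcs of bounded ramification are good. -/
structure ResTower (Y : Scheme.{0}) where
  /-- the schemes -/
  Z : ℕ → Scheme.{0}
  /-- the projections -/
  π : ∀ i, Z i ⟶ Y
  /-- the modifications -/
  β : ∀ i, Z (i + 1) ⟶ Z i
  comm : ∀ i, β i ≫ π i = π (i + 1)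
  nice : ∀ i, Nice (Z i)
  modY : ∀ i, IsMod (π i) ((regOpen Y : Set Y)ᶜ)
  mod : ∀ i, IsMod (β i) ((regOpen (Z i) : Set (Z i))ᶜ)
  good : ∀ (i : ℕ) (z : Z i) (V : Type) [CommRing V] [IsDomain V] [IsDiscreteValuationRing V]
    [CharZero V] (α : (Z i).presheaf.stalk z →+* V), IsLocalHom α →
    (∀ p : ℕ, p.Prime → addVal V (p : V) ≤ i) → z ∈ regOpen (Z i)

-- BEGIN CO1c
/-- The tower exists. -/
theorem exists_resTower {Y : Scheme.{0}} (hY : Nice Y) : Nonempty (ResTower Y) := by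
  choose Y' β hn hm hg using fun (p : {Z : Scheme.{0} // Nice Z}) (d : ℕ) => p.2.exists_res d
  have hs : ∀ (p : {p : Σ Z : Scheme.{0}, Z ⟶ Y // Nice p.1 ∧ IsMod p.2 ((regOpen Y : Set Y)ᶜ)})
      (i : ℕ), IsMod (β ⟨p.1.1, p.2.1⟩ (i + 1) ≫ p.1.2) ((regOpen Y : Set Y)ᶜ) := fun p i =>
    p.2.2.comp ((hm ⟨p.1.1, p.2.1⟩ (i + 1)).mono fun x hx hc => hx
      (p.2.2.preimage_regOpen (regOpen Y).isOpen.isClosed_compl disjoint_compl_right hc))
  let F : ℕ → {p : Σ Z : Scheme.{0}, Z ⟶ Y // Nice p.1 ∧ IsMod p.2 ((regOpen Y : Set Y)ᶜ)} :=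
    fun i => Nat.rec ⟨⟨Y' ⟨Y, hY⟩ 0, β ⟨Y, hY⟩ 0⟩, hn _ _, hm _ _⟩ (fun i p =>
      ⟨⟨Y' ⟨p.1.1, p.2.1⟩ (i + 1), β ⟨p.1.1, p.2.1⟩ (i + 1) ≫ p.1.2⟩, hn _ _, hs p i⟩) i
  refine ⟨⟨fun i => (F i).1.1, fun i => (F i).1.2, fun i => β ⟨(F i).1.1, (F i).2.1⟩ (i + 1),
    fun i => rfl, fun i => (F i).2.1, fun i => (F i).2.2,
    fun i => hm ⟨(F i).1.1, (F i).2.1⟩ (i + 1), fun i => ?_⟩⟩
  cases i with
  | zero => exact hg ⟨Y, hY⟩ 0
  | succ i => exact hg ⟨(F i).1.1, (F i).2.1⟩ (i + 1)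
-- END CO1c

-- BEGIN CO1d
/-- The transition maps. -/
theorem IsMod.exists_lift {Y' Y : Scheme.{0}} {β : Y' ⟶ Y}
    (h : IsMod β ((regOpen Y : Set Y)ᶜ)) :
    ∃ j : (regOpen Y).toScheme ⟶ (regOpen Y').toScheme, IsOpenImmersion j ∧
      j ≫ (regOpen Y').ι ≫ β = (regOpen Y).ι := by
  have hiso : IsIso (β ∣_ regOpen Y) := h.iso _ disjoint_compl_right
  refine ⟨inv (β ∣_ regOpen Y) ≫ Y'.homOfLE
    (h.preimage_regOpen (regOpen Y).isOpen.isClosed_compl disjoint_compl_right), inferInstance, ?_⟩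
  rw [Category.assoc, Scheme.homOfLE_ι_assoc, ← morphismRestrict_ι, IsIso.inv_hom_id_assoc]
-- END CO1d

/-- `π : 𝒰 ⟶ Y` is the union of the regular loci of the tower. -/
structure IsUnion {Y : Scheme.{0}} (T : ResTower Y) {𝒰 : Scheme.{0}} (π : 𝒰 ⟶ Y)
    (ι : ∀ i, (regOpen (T.Z i)).toScheme ⟶ 𝒰) : Prop where
  imm : ∀ i, IsOpenImmersion (ι i)
  comm : ∀ i, ι i ≫ π = (regOpen (T.Z i)).ι ≫ T.π i
  mono : ∀ i, Set.range (ι i) ⊆ Set.range (ι (i + 1))
  cover : ∀ x : 𝒰, ∃ i, x ∈ Set.range (ι i)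

-- BEGIN CO1e
theorem ResTower.exists_union {Y : Scheme.{0}} (T : ResTower Y) :
    ∃ (𝒰 : Scheme.{0}) (π : 𝒰 ⟶ Y) (ι : ∀ i, (regOpen (T.Z i)).toScheme ⟶ 𝒰), IsUnion T π ι := by
  choose j hj hjc using fun i => (T.mod i).exists_lift
  obtain ⟨X, ι, hι, hcomm, hcov, hdesc⟩ :=
    exists_colimit (fun i => (regOpen (T.Z i)).toScheme) j hj
  obtain ⟨π, hπ⟩ := hdesc Y (fun i => (regOpen (T.Z i)).ι ≫ T.π i) fun i => by
    rw [← hjc i, ← T.comm i]
    simp only [Category.assoc]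
  refine ⟨X, π, ι, hι, hπ, fun i => ?_, hcov⟩
  rintro _ ⟨x, rfl⟩
  exact ⟨j i x, by rw [← hcomm i]; rfl⟩
-- END CO1e

-- BEGIN CO1f
theorem IsUnion.isRegular {Y : Scheme.{0}} {T : ResTower Y} {𝒰 : Scheme.{0}} {π : 𝒰 ⟶ Y}
    {ι : ∀ i, (regOpen (T.Z i)).toScheme ⟶ 𝒰} (h : IsUnion T π ι) (u : 𝒰) :
    IsRegularLocalRing (𝒰.presheaf.stalk u) := by
  obtain ⟨i, z, rfl⟩ := h.cover u
  have := h.imm i
  have : IsRegularLocalRing ((T.Z i).presheaf.stalk ((regOpen (T.Z i)).ι z)) :=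
    isRegular_of_mem z.2
  have := IsRegularLocalRing.of_ringEquiv
    (asIso ((regOpen (T.Z i)).ι.stalkMap z)).commRingCatIsoToRingEquiv
  exact IsRegularLocalRing.of_ringEquiv
    (asIso ((ι i).stalkMap z)).symm.commRingCatIsoToRingEquiv
-- END CO1f

-- BEGIN CO1g
/-- The union of the regular loci is separated over `Y`. -/
theorem IsUnion.isSeparated {Y : Scheme.{0}} {T : ResTower Y} {𝒰 : Scheme.{0}} {π : 𝒰 ⟶ Y}
    {ι : ∀ i, (regOpen (T.Z i)).toScheme ⟶ 𝒰} (h : IsUnion T π ι) : IsSeparated π := by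
  refine isSeparated_of_directed π _ ι h.imm h.mono h.cover fun i => ?_
  rw [h.comm]
  have := (T.modY i).proper
  infer_instance
-- END CO1g

-- BEGIN CO1h
/-- The union of the regular loci is locally of finite type over `Y`. -/
theorem IsUnion.locallyOfFiniteType {Y : Scheme.{0}} {T : ResTower Y} {𝒰 : Scheme.{0}} {π : 𝒰 ⟶ Y}
    {ι : ∀ i, (regOpen (T.Z i)).toScheme ⟶ 𝒰} (h : IsUnion T π ι) : LocallyOfFiniteType π := by
  have := h.imm
  rw [IsZariskiLocalAtSource.iff_of_iSup_eq_top (P := @LocallyOfFiniteType)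
    (fun i => (ι i).opensRange) (top_le_iff.mp fun x _ => by
      obtain ⟨i, hi⟩ := h.cover x
      exact Opens.mem_iSup.mpr ⟨i, hi⟩)]
  intro i
  have := (T.modY i).proper
  rw [← (ι i).isoOpensRange_inv_comp, Category.assoc, h.comm]
  infer_instance
-- END CO1h

-- BEGIN CO1i
/-- The union of the regular loci is integral. -/
theorem IsUnion.isIntegral {Y : Scheme.{0}} {T : ResTower Y} {𝒰 : Scheme.{0}} {π : 𝒰 ⟶ Y}
    {ι : ∀ i, (regOpen (T.Z i)).toScheme ⟶ 𝒰} (h : IsUnion T π ι) : IsIntegral 𝒰 := by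
  have hn : ∀ i, Nonempty (regOpen (T.Z i)).toScheme := fun i => by
    obtain ⟨y, hy⟩ := (T.nice i).cz
    exact ⟨⟨y, (T.nice i).mem_regOpen hy⟩⟩
  have hm : ∀ i, Set.range (ι 0) ⊆ Set.range (ι i) := fun i => by
    induction i with
    | zero => exact le_rfl
    | succ i ih => exact ih.trans (h.mono i)
  refine isIntegral_of_cover (ι 0 (hn 0).some) fun x => ?_
  obtain ⟨i, hi⟩ := h.cover x
  have := (T.nice i).int
  have := hn i
  exact ⟨_, ι i, h.imm i, isIntegral_of_isOpenImmersion (regOpen (T.Z i)).ι, hi, hm i ⟨_, rfl⟩⟩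
-- END CO1i

-- BEGIN CO1j
theorem co1j_inj {X Y : Scheme.{0}} (f : X ⟶ Y) (W : Y.Opens) (hf : IsIso (f ∣_ W)) {a b : X}
    (ha : f a ∈ W) (hab : f a = f b) : a = b := by
  have hb : f b ∈ W := hab ▸ ha
  have h1 : (f ∣_ W) (⟨a, ha⟩ : (f ⁻¹ᵁ W)) = (f ∣_ W) (⟨b, hb⟩ : (f ⁻¹ᵁ W)) := by
    refine Subtype.ext ?_
    rw [morphismRestrict_base_coe, morphismRestrict_base_coe]
    exact hab
  exact congrArg Subtype.val ((f ∣_ W).isOpenEmbedding.injective h1)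

/-- Over the regular locus of `Y` nothing is changed. -/
theorem IsUnion.isIso {Y : Scheme.{0}} {T : ResTower Y} {𝒰 : Scheme.{0}} {π : 𝒰 ⟶ Y}
    {ι : ∀ i, (regOpen (T.Z i)).toScheme ⟶ 𝒰} (h : IsUnion T π ι) : IsIso (π ∣_ regOpen Y) := by
  have hd : Disjoint (regOpen Y : Set Y) ((regOpen Y : Set Y)ᶜ) := disjoint_compl_right
  have hiso : ∀ i, IsIso (T.π i ∣_ regOpen Y) := fun i => (T.modY i).iso _ hd
  have hle : ∀ i, T.π i ⁻¹ᵁ regOpen Y ≤ regOpen (T.Z i) := fun i =>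
    (T.modY i).preimage_regOpen (regOpen Y).2.isClosed_compl hd
  have := hiso 0
  have := h.imm
  have hmono : ∀ i, Set.range (ι 0) ⊆ Set.range (ι i) := fun i => by
    induction i with
    | zero => exact subset_rfl
    | succ i ih => exact ih.trans (h.mono i)
  have hπ : ∀ i z, π (ι i z) = T.π i z.1 := fun i z => by
    rw [← Scheme.Hom.comp_apply, h.comm]
    rfl
  let s : (regOpen Y).toScheme ⟶ 𝒰 := inv (T.π 0 ∣_ regOpen Y) ≫ (T.Z 0).homOfLE (hle 0) ≫ ι 0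
  have hs : s ≫ π = (regOpen Y).ι := by
    simp only [s, Category.assoc]
    rw [h.comm, Scheme.homOfLE_ι_assoc, ← morphismRestrict_ι, IsIso.inv_hom_id_assoc]
  have hrs : ∀ w, π (s w) = w.1 := fun w => by
    rw [← Scheme.Hom.comp_apply, hs]
    rfl
  have hsub : Set.range s ⊆ Set.range (π ⁻¹ᵁ regOpen Y).ι := by
    rintro _ ⟨w, rfl⟩
    refine ⟨⟨s w, ?_⟩, rfl⟩
    change π (s w) ∈ regOpen Y
    rw [hrs]
    exact w.2
  let s' := IsOpenImmersion.lift (π ⁻¹ᵁ regOpen Y).ι s hsub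
  have hs' : s' ≫ (π ⁻¹ᵁ regOpen Y).ι = s := IsOpenImmersion.lift_fac _ _ _
  have hso : IsOpenImmersion s := inferInstance
  have hs'o : IsOpenImmersion s' := by
    rw [← hs'] at hso
    exact IsOpenImmersion.of_comp s' (π ⁻¹ᵁ regOpen Y).ι
  have htop : s'.opensRange = ⊤ := by
    refine top_le_iff.1 fun u _ => ?_
    have hu : π u.1 ∈ regOpen Y := u.2
    obtain ⟨i, z, hz⟩ := h.cover u.1
    obtain ⟨z', hz'⟩ := hmono i (show s ⟨π u.1, hu⟩ ∈ Set.range (ι 0) from ⟨_, rfl⟩)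
    have h1 : T.π i z'.1 = T.π i z.1 := by
      rw [← hπ, ← hπ, hz', hz, hrs]
    have h2 : z'.1 = z.1 := co1j_inj (T.π i) _ (hiso i) (by
      rw [← hπ, hz', hrs]
      exact hu) h1
    refine ⟨⟨π u.1, hu⟩, Subtype.ext ?_⟩
    change ((s' ≫ (π ⁻¹ᵁ regOpen Y).ι) ⟨π u.1, hu⟩) = u.1
    rw [hs', ← hz', ← hz]
    exact congrArg (ι i) (Subtype.ext h2)
  have hs'i : IsIso s' := isIso_of_isOpenImmersion_of_opensRange_eq_top s' htop
  have hfin : s' ≫ (π ∣_ regOpen Y) = 𝟙 _ := by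
    rw [← cancel_mono (regOpen Y).ι, Category.assoc, morphismRestrict_ι, ← Category.assoc, hs', hs,
      Category.id_comp]
  rw [← (IsIso.eq_inv_of_hom_inv_id hfin).symm]
  infer_instance
-- END CO1j

end Pool.Agent.Lib.MP_6a3dac_ag.NU
end
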