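import Pool.Agent.Lib.MP_6a3dac_ag.Mg.G052
import Pool.Agent.Lib.MP_6a3dac_ag.Mg.G051
import Pool.Agent.Lib.MP_6a3dac_ag.NU.Stmt

section

/-!
# NU: the valuative criterion
-/

set_option autoImplicit false

namespace Pool.Agent.Lib.MP_6a3dac_ag.NU

open CategoryTheory Limits AlgebraicGeometry TopologicalSpace IsLocalRing IsDiscreteValuationRing

-- BEGIN VC1a
/-- A morphism from a field of characteristic zero goes to a point of characteristic zero. -/
theorem charZ_of_field {Y : Scheme.{0}} {K : Type} [Field K] [CharZero K]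
    (x : Spec (CommRingCat.of K) ⟶ Y) (t : Spec (CommRingCat.of K)) : CharZ Y (x t) := by
  refine CharZ.map (β := x) fun n hn => ?_
  have h := (isUnit_iff_ne_zero.mpr (Nat.cast_ne_zero.mpr hn : (n : K) ≠ 0)).map
    (StructureSheaf.toStalk K t).hom
  rwa [map_natCast] at h
-- END VC1a

-- BEGIN VC1b
/-- A morphism from the spectrum of a local ring with the closed point in an open subset factors.

PROOF.  Every point of `Spec V` is a generization of the closed point, so the range of `a` is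
contained in `W` (`preimage_eq_top_of_closedPoint_mem` in Mathlib); `IsOpenImmersion.lift W.ι a _`. -/
theorem exists_factor {Z : Scheme.{0}} (W : Z.Opens) {V : Type} [CommRing V] [IsLocalRing V]
    (a : Spec (CommRingCat.of V) ⟶ Z) (h : a (closedPoint V) ∈ W) :
    ∃ b : Spec (CommRingCat.of V) ⟶ W.toScheme, b ≫ W.ι = a := by
  have h1 : a ⁻¹ᵁ W = ⊤ := Scheme.preimage_eq_top_of_closedPoint_mem a h
  refine ⟨IsOpenImmersion.lift W.ι a ?_, IsOpenImmersion.lift_fac _ _ _⟩
  rw [Scheme.Opens.range_ι]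
  rintro _ ⟨s, rfl⟩
  have h2 : s ∈ a ⁻¹ᵁ W := by rw [h1]; trivial
  exact h2
-- END VC1b

-- BEGIN VC1c
/-- The center of an arc of bounded ramification is good. -/
theorem ResTower.closedPoint_mem {Y : Scheme.{0}} (T : ResTower Y) (i : ℕ) {V : Type} [CommRing V]
    [IsDomain V] [IsDiscreteValuationRing V] [CharZero V] (a : Spec (CommRingCat.of V) ⟶ T.Z i)
    (hV : ∀ p : ℕ, p.Prime → addVal V (p : V) ≤ i) : a (closedPoint V) ∈ regOpen (T.Z i) :=
  T.good i _ V (Scheme.stalkClosedPointTo (R := .of V) a).hom inferInstance hV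
-- END VC1c

-- BEGIN VC1d
/-- Two morphisms from a field of characteristic zero to `𝒰` over `Y` are equal.

PROOF.  The image of `x ≫ π` is in `regOpen Y` (`charZ_of_field`, `Nice.mem_regOpen`), and `π` is an
isomorphism over `regOpen Y` (`h.isIso`), so a monomorphism: `x` and `x'` factor through
`π ⁻¹ᵁ regOpen Y` and agree after composition with `π ∣_ regOpen Y`. -/
theorem IsUnion.eq_of_field {Y : Scheme.{0}} (hY : Nice Y) {T : ResTower Y} {𝒰 : Scheme.{0}}
    {π : 𝒰 ⟶ Y} {ι : ∀ i, (regOpen (T.Z i)).toScheme ⟶ 𝒰} (h : IsUnion T π ι) {K : Type} [Field K]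
    [CharZero K] (x x' : Spec (CommRingCat.of K) ⟶ 𝒰) (hx : x ≫ π = x' ≫ π) : x = x' := by
  have hm (x : Spec (CommRingCat.of K) ⟶ 𝒰) : x (closedPoint K) ∈ π ⁻¹ᵁ regOpen Y :=
    hY.mem_regOpen (by simpa using charZ_of_field (x ≫ π) (closedPoint K))
  obtain ⟨u, rfl⟩ := exists_factor _ x (hm x)
  obtain ⟨v, rfl⟩ := exists_factor _ x' (hm x')
  have := h.isIso
  have h1 : u ≫ (π ∣_ regOpen Y) = v ≫ (π ∣_ regOpen Y) := by
    rw [← cancel_mono (regOpen Y).ι]
    simpa [Category.assoc, morphismRestrict_ι] using hx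
  rw [(cancel_mono _).1 h1]
-- END VC1d

-- BEGIN VC1e
/-- A point of `Y` over a field of characteristic zero lifts to a modification. -/
theorem IsMod.exists_field_lift {Y' Y : Scheme.{0}} (hY : Nice Y) {β : Y' ⟶ Y}
    (h : IsMod β ((regOpen Y : Set Y)ᶜ)) {K : Type} [Field K] [CharZero K]
    (x : Spec (CommRingCat.of K) ⟶ Y) : ∃ x' : Spec (CommRingCat.of K) ⟶ Y', x' ≫ β = x := by
  have hx : Set.range x ⊆ Set.range (regOpen Y).ι := by
    rintro _ ⟨t, rfl⟩
    simpa using hY.mem_regOpen (charZ_of_field x t)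
  have hi : IsIso (β ∣_ regOpen Y) := h.iso _ disjoint_compl_right
  refine ⟨IsOpenImmersion.lift (regOpen Y).ι x hx ≫ inv (β ∣_ regOpen Y) ≫
    (β ⁻¹ᵁ regOpen Y).ι, ?_⟩
  rw [Category.assoc, Category.assoc, ← morphismRestrict_ι, IsIso.inv_hom_id_assoc,
    IsOpenImmersion.lift_fac]
-- END VC1e

-- BEGIN VC1f
/-- **The valuative criterion**, with control of the ramification.

PROOF.  `x ≫ π : Spec K ⟶ Y` lifts to `x_d : Spec K ⟶ T.Z d` (`IsMod.exists_field_lift`).  `T.π d` is
proper, so by the valuative criterion (`IsProper.eq_valuativeCriterion`, `ValuativeCriterion.Existence`)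
there is `a : Spec V ⟶ T.Z d` with `a ≫ T.π d = y` and `Spec.map _ ≫ a = x_d`.
`ResTower.closedPoint_mem` and `exists_factor`: `a = b ≫ (regOpen _).ι`.  Put `l = b ≫ ι d`:
`l ≫ π = a ≫ T.π d = y` (`h.comm`), and `Spec.map _ ≫ l = x` by `IsUnion.eq_of_field`. -/
theorem IsUnion.exists_lift {Y : Scheme.{0}} (hY : Nice Y) {T : ResTower Y} {𝒰 : Scheme.{0}}
    {π : 𝒰 ⟶ Y} {ι : ∀ i, (regOpen (T.Z i)).toScheme ⟶ 𝒰} (h : IsUnion T π ι) (d : ℕ) {V K : Type}
    [CommRing V] [IsDomain V] [IsDiscreteValuationRing V] [CharZero V] [Field K] [Algebra V K]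
    [IsFractionRing V K] (hV : ∀ p : ℕ, p.Prime → addVal V (p : V) ≤ d)
    (x : Spec (CommRingCat.of K) ⟶ 𝒰) (y : Spec (CommRingCat.of V) ⟶ Y)
    (hxy : x ≫ π = Spec.map (CommRingCat.ofHom (algebraMap V K)) ≫ y) :
    ∃ b : Spec (CommRingCat.of V) ⟶ (regOpen (T.Z d)).toScheme,
      Spec.map (CommRingCat.ofHom (algebraMap V K)) ≫ b ≫ ι d = x ∧ (b ≫ ι d) ≫ π = y := by
  have : CharZero K := charZero_of_injective_algebraMap (IsFractionRing.injective V K)
  obtain ⟨xd, hxd⟩ := (T.modY d).exists_field_lift hY (x ≫ π)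
  have hp := (T.modY d).proper
  rw [IsProper.eq_valuativeCriterion] at hp
  obtain ⟨⟨a, ha1, ha2⟩⟩ := (hp.1.1.1.existence
    ⟨V, K, xd, y, ⟨by rw [hxd, hxy]⟩⟩).exists_lift
  obtain ⟨b, rfl⟩ := exists_factor _ a (T.closedPoint_mem d a hV)
  have h1 : (b ≫ ι d) ≫ π = y := by
    rw [Category.assoc, h.comm, ← Category.assoc]
    exact ha2
  refine ⟨b, h.eq_of_field hY _ _ ?_, h1⟩
  rw [Category.assoc, h1, hxy]
-- END VC1f

-- BEGIN VC1g
/-- The valuations of the prime numbers are bounded. -/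
theorem exists_ramification_bound (V : Type) [CommRing V] [IsDomain V] [IsDiscreteValuationRing V]
    [CharZero V] : ∃ d : ℕ, ∀ p : ℕ, p.Prime → addVal V (p : V) ≤ d := by
  have h0 (q d : ℕ) (hq : IsUnit (q : V)) : addVal V (q : V) ≤ d :=
    (addVal_le_iff_dvd.2 (hq.dvd (a := 1))).trans (by simp)
  by_cases h : ∃ p : ℕ, p.Prime ∧ ¬ IsUnit (p : V)
  · obtain ⟨p, hp, hu⟩ := h
    obtain ⟨d, hd⟩ := ENat.ne_top_iff_exists.1
      (mt addVal_eq_top_iff.1 (Nat.cast_ne_zero.2 hp.ne_zero : (p : V) ≠ 0))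
    refine ⟨d, fun q hq => ?_⟩
    rcases eq_or_ne p q with rfl | hne
    · exact hd.ge
    · obtain ⟨a, b, hab⟩ := ((Nat.coprime_primes hp hq).2 hne).cast (R := V)
      exact h0 q d ((isUnit_or_isUnit_of_add_one hab).elim
        (fun h => absurd (isUnit_of_mul_isUnit_right h) hu) isUnit_of_mul_isUnit_right)
  · exact ⟨0, fun q hq => h0 q 0 (by_contra fun hu => h ⟨q, hq, hu⟩)⟩
-- END VC1g

-- BEGIN VC1h
theorem vc1h_fin (R L : Type) [CommRing R] [Algebra.FiniteType ℤ R] [Field L] [CharZero L]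
    (g : R →+* L) (hg : ∀ x : L, ∃ r t : R, x = g r / g t)
    (ha : ∀ r : R, ∃ P : Polynomial ℤ, P ≠ 0 ∧ P.eval₂ (Int.castRingHom L) (g r) = 0) :
    FiniteDimensional ℚ L := by
  obtain ⟨s, hs⟩ := ‹Algebra.FiniteType ℤ R›.out
  let F := IntermediateField.adjoin ℚ (g '' (s : Set R))
  have hfin : (g '' (s : Set R)).Finite := s.finite_toSet.image g
  have : Finite (g '' (s : Set R)) := hfin
  have hF : FiniteDimensional ℚ F := IntermediateField.finiteDimensional_adjoin (by
    rintro _ ⟨r, -, rfl⟩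
    obtain ⟨P, hP, h0⟩ := ha r
    refine IsAlgebraic.isIntegral ⟨P.map (Int.castRingHom ℚ),
      (Polynomial.map_ne_zero_iff Int.cast_injective).2 hP, ?_⟩
    rw [Polynomial.aeval_def, Polynomial.eval₂_map, ← h0]
    exact congrArg (fun f => Polynomial.eval₂ f (g r) P) (Subsingleton.elim _ _))
  have h1 : ∀ r, g r ∈ F := fun r => by
    have hr : r ∈ Algebra.adjoin ℤ (s : Set R) := hs ▸ trivial
    induction hr using Algebra.adjoin_induction with
    | mem x hx => exact IntermediateField.subset_adjoin _ _ ⟨x, hx, rfl⟩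
    | algebraMap n => simp
    | add x y _ _ hx hy => rw [map_add]; exact add_mem hx hy
    | mul x y _ _ hx hy => rw [map_mul]; exact mul_mem hx hy
  have h2 : F = ⊤ := by
    rw [eq_top_iff]
    intro x _
    obtain ⟨r, t, rfl⟩ := hg x
    exact div_mem (h1 r) (h1 t)
  rw [h2] at hF
  exact Module.Finite.equiv IntermediateField.topEquiv.toLinearEquiv

open NumberField in
theorem vc1h_dvr {L : Type} [Field L] [NumberField L] (A : ValuationSubring L) {p : ℕ}
    (hp : p ≠ 0) (hpA : ¬ IsUnit (p : A)) : IsDiscreteValuationRing A := by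
  have hmem (x : 𝓞 L) : (x : L) ∈ A.toSubring := by
    obtain ⟨y, hy⟩ := IsIntegrallyClosed.algebraMap_eq_of_integral
      (R := A) (x.2.tower_top : IsIntegral A (x : L))
    have h1 : (y : L) = algebraMap (𝓞 L) L x := hy
    exact Set.mem_of_eq_of_mem h1.symm y.2
  let φ : 𝓞 L →+* A := (algebraMap (𝓞 L) L).codRestrict A.toSubring hmem
  have hφ (x : 𝓞 L) : (φ x : L) = x := rfl
  let 𝔮 := (maximalIdeal A).comap φ
  have h𝔮 : 𝔮 ≠ ⊥ := fun h => by
    have h1 : (p : 𝓞 L) ∈ 𝔮 := by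
      rw [Ideal.mem_comap, map_natCast]
      exact hpA
    rw [h, Ideal.mem_bot] at h1
    exact hp (by exact_mod_cast h1)
  let B := Localization.AtPrime 𝔮
  have hB : IsDiscreteValuationRing B :=
    IsLocalization.AtPrime.isDiscreteValuationRing_of_dedekind_domain (𝓞 L) h𝔮 B
  let ψ : B →+* A := IsLocalization.lift (M := 𝔮.primeCompl) (g := φ) fun s =>
    not_not.1 fun h => s.2 h
  have hψ (x : 𝓞 L) : ψ (algebraMap _ B x) = φ x := IsLocalization.lift_eq _ x
  have hloc (c : B) (hc : IsUnit (ψ c)) : IsUnit c := by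
    obtain ⟨⟨a, s⟩, h⟩ := IsLocalization.surj 𝔮.primeCompl c
    have h1 := congrArg ψ h
    rw [map_mul, hψ, hψ] at h1
    have hs : IsUnit (φ s) := not_not.1 fun h => s.2 h
    have ha : a ∉ 𝔮 := fun h2 => h2 (h1 ▸ hc.mul hs)
    exact isUnit_of_mul_isUnit_left (h ▸ IsLocalization.map_units B (⟨a, ha⟩ : 𝔮.primeCompl))
  have hinj : Function.Injective ψ := (injective_iff_map_eq_zero ψ).2 fun c hc => by
    obtain ⟨⟨a, s⟩, h⟩ := IsLocalization.surj 𝔮.primeCompl c
    have h1 := congrArg ψ h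
    rw [map_mul, hψ, hψ, hc, zero_mul] at h1
    have h2 : (a : L) = 0 := by rw [← hφ, ← h1]; rfl
    have h3 : a = 0 := by exact_mod_cast h2
    rw [h3, map_zero] at h
    exact (mul_eq_zero.1 h).resolve_right (IsLocalization.map_units B s).ne_zero
  have hsurj : Function.Surjective ψ := fun y => by
    obtain ⟨a, b, hb, hab⟩ := IsFractionRing.div_surjective (A := 𝓞 L) (y : L)
    have hb0 : (b : L) ≠ 0 := by
      simpa using nonZeroDivisors.ne_zero hb
    obtain ⟨c, hc | hc⟩ := ValuationRing.cond (algebraMap (𝓞 L) B a) (algebraMap (𝓞 L) B b)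
    · have h1 := congrArg ψ hc
      rw [map_mul, hψ, hψ] at h1
      have h2 : (a : L) * ψ c = b := congrArg Subtype.val h1
      have h3 : y * ψ c = 1 := Subtype.ext (by
        change (y : L) * ψ c = 1
        rw [← hab, div_mul_eq_mul_div, div_eq_one_iff_eq hb0]
        exact h2)
      obtain ⟨u, hu⟩ := hloc c (isUnit_iff_exists_inv'.2 ⟨y, h3⟩)
      refine ⟨(u⁻¹ : Bˣ), ?_⟩
      have h4 : ψ ((u⁻¹ : Bˣ) : B) * ψ c = 1 := by
        rw [← map_mul, ← hu, Units.inv_mul, map_one]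
      exact (isUnit_iff_exists_inv'.2 ⟨y, h3⟩).mul_right_cancel (h4.trans h3.symm)
    · refine ⟨c, ?_⟩
      have h1 := congrArg ψ hc
      rw [map_mul, hψ, hψ] at h1
      have h2 : (b : L) * ψ c = a := congrArg Subtype.val h1
      exact Subtype.ext (by
        rw [← hab, eq_div_iff hb0, mul_comm]
        exact h2)
  exact RingEquivClass.isDiscreteValuationRing (RingEquiv.ofBijective ψ ⟨hinj, hsurj⟩)

/-- A discrete valuation ring dominating a closed point. -/
theorem Nice.exists_arc {Z : Scheme.{0}} (hZ : Nice Z) {z : Z} (hz : Finite (Z.residueField z)) :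
    ∃ (V : Type) (_ : CommRing V) (_ : IsDomain V) (_ : IsDiscreteValuationRing V)
      (a : Spec (CommRingCat.of V) ⟶ Z), CharZero V ∧ a (closedPoint V) = z := by
  have := hZ.int
  obtain ⟨U, hU⟩ := sc3h_exists z
  have := hZ.ft U
  have : Nonempty U.1 := ⟨⟨z, hU⟩⟩
  have := sc3p_cz hZ U
  have hmax := (sc3j_fin U hU hz).1
  obtain ⟨p, hp, hpm⟩ := op1h_char Γ(Z, U) (U.2.primeIdealOf ⟨z, hU⟩).asIdeal
  obtain ⟨𝔭, h𝔭, hle, hn, halg⟩ := exists_arc_prime Γ(Z, U) _ p hpm hp
  let L := FractionRing (Γ(Z, U) ⧸ 𝔭)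
  let g : Γ(Z, U) →+* L := (algebraMap _ L).comp (Ideal.Quotient.mk 𝔭)
  have hg0 (x : Γ(Z, U)) : g x = 0 ↔ x ∈ 𝔭 := by
    rw [← Ideal.Quotient.eq_zero_iff_mem]
    exact map_eq_zero_iff _ (IsFractionRing.injective (Γ(Z, U) ⧸ 𝔭) L)
  have hch : CharZero L := charZero_of_inj_zero fun n h => by
    by_contra hn0
    exact hn n hn0 ((hg0 _).1 (by rw [map_natCast, h]))
  have hfin : FiniteDimensional ℚ L := vc1h_fin Γ(Z, U) L g (fun x => by
    obtain ⟨a, b, -, rfl⟩ := IsFractionRing.div_surjective (A := Γ(Z, U) ⧸ 𝔭) x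
    obtain ⟨a, rfl⟩ := Ideal.Quotient.mk_surjective a
    obtain ⟨b, rfl⟩ := Ideal.Quotient.mk_surjective b
    exact ⟨a, b, rfl⟩) fun r => by
      obtain ⟨P, hP, hP0⟩ := halg r
      refine ⟨P, hP, ?_⟩
      have h1 := congrArg (algebraMap (Γ(Z, U) ⧸ 𝔭) L) hP0
      rw [Polynomial.aeval_def, Polynomial.hom_eval₂, map_zero] at h1
      rw [← h1]
      exact congrArg (fun f => Polynomial.eval₂ f (g r) P) (Subsingleton.elim _ _)
  have : NumberField L := ⟨⟩
  let _ := Z.presheaf.algebra_section_stalk ⟨z, hU⟩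
  have hl := U.2.isLocalization_stalk ⟨z, hU⟩
  let f : Z.presheaf.stalk z →+* L := IsLocalization.lift
    (M := (U.2.primeIdealOf ⟨z, hU⟩).asIdeal.primeCompl) (g := g) fun s =>
      isUnit_iff_ne_zero.2 fun h => s.2 (hle ((hg0 _).1 h))
  obtain ⟨A, hA, hloc⟩ := exists_factor_valuationRing f
  let α : Z.presheaf.stalk z →+* A := f.codRestrict A.toSubring hA
  have hα : IsLocalHom α := hloc
  have hpA : ¬ IsUnit (p : A) := fun h => by
    have h1 : IsUnit (α ((p : ℕ) : Z.presheaf.stalk z)) := by rwa [map_natCast]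
    exact (sc2m_unit U ⟨z, hU⟩ p).1 (hα.map_nonunit _ h1) hpm
  refine ⟨A, inferInstance, inferInstance, vc1h_dvr A hp.ne_zero hpA,
    Spec.map (CommRingCat.ofHom α) ≫ Z.fromSpecStalk z,
    ⟨fun m n h => Nat.cast_injective (R := L) (congrArg Subtype.val h)⟩, ?_⟩
  change Z.fromSpecStalk z (Spec.map (CommRingCat.ofHom α) (closedPoint A)) = z
  have h1 : Spec.map (CommRingCat.ofHom α) (closedPoint A) = closedPoint (Z.presheaf.stalk z) :=
    IsLocalRing.comap_closedPoint α
  rw [h1, Scheme.fromSpecStalk_closedPoint]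
-- END VC1h

-- BEGIN VC1i
theorem vc1i_finite (R : Type) [CommRing R] [Algebra.FiniteType ℤ R] (𝔪 : Ideal R)
    [𝔪.IsMaximal] : Finite (R ⧸ 𝔪) := by
  have := op1h_int
  obtain ⟨p, hp, hpm⟩ := op1h_char R 𝔪
  let _ := Ideal.Quotient.field 𝔪
  have : Fact p.Prime := ⟨hp⟩
  have hfin : Module.Finite ℤ (R ⧸ 𝔪) := finite_of_finite_type_of_isJacobsonRing ℤ (R ⧸ 𝔪)
  have : CharP (R ⧸ 𝔪) p := (CharP.charP_iff_prime_eq_zero hp).2 (by
    rw [← map_natCast (Ideal.Quotient.mk 𝔪)]
    exact Ideal.Quotient.eq_zero_iff_mem.2 hpm)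
  let _ : Algebra (ZMod p) (R ⧸ 𝔪) := ZMod.algebra _ p
  have : IsScalarTower ℤ (ZMod p) (R ⧸ 𝔪) :=
    IsScalarTower.of_algebraMap_eq' (Subsingleton.elim _ _)
  have : Module.Finite (ZMod p) (R ⧸ 𝔪) := Module.Finite.of_restrictScalars_finite ℤ _ _
  exact Module.finite_of_finite (ZMod p)

theorem vc1i_equiv {R S : Type} [CommRing R] [CommRing S] [IsLocalRing S] [Algebra R S]
    (𝔪 : Ideal R) [𝔪.IsMaximal] (_ : IsLocalization.AtPrime S 𝔪) (h : Finite (R ⧸ 𝔪)) :
    Finite (ResidueField S) :=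
  Finite.of_equiv _ (IsLocalization.AtPrime.equivQuotMaximalIdeal 𝔪 S).toEquiv

/-- A nonempty closed subset of a nice scheme contains a point with a finite residue field. -/
theorem Nice.exists_finite {Z : Scheme.{0}} (hZ : Nice Z) {C : Set Z} (hC : IsClosed C)
    (hne : C.Nonempty) : ∃ z ∈ C, Finite (Z.residueField z) := by
  have := hZ.qc
  obtain ⟨z, hzC, hz⟩ := hC.exists_closed_singleton hne
  obtain ⟨U, hU⟩ := sc3h_exists z
  have := hZ.ft U
  have hmax := U.2.primeIdealOf_isMaximal_of_isClosed ⟨z, hU⟩ hz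
  let := (Z.presheaf.germ U.1 z hU).hom.toAlgebra
  have hl := U.2.isLocalization_stalk ⟨z, hU⟩
  exact ⟨z, hzC, vc1i_equiv (R := Γ(Z, U)) (S := Z.presheaf.stalk z) _ hl (vc1i_finite _ _)⟩
-- END VC1i

-- BEGIN VC1j
theorem vc1j_iso {X Y : Scheme.{0}} (f : X ⟶ Y) [IsOpenImmersion f]
    (h : Set.range f = Set.univ) : IsIso f := by
  have : Epi f.base := (TopCat.epi_iff_surjective _).2 (Set.range_eq_univ.1 h)
  exact (isIso_iff_isOpenImmersion_and_epi_base f).2 ⟨‹_›, this⟩

/-- **If the union is quasi-compact, it is proper.** -/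
theorem IsUnion.isProper {Y : Scheme.{0}} (hY : Nice Y) {T : ResTower Y} {𝒰 : Scheme.{0}} {π : 𝒰 ⟶ Y}
    {ι : ∀ i, (regOpen (T.Z i)).toScheme ⟶ 𝒰} (h : IsUnion T π ι) (hc : CompactSpace 𝒰) :
    IsProper π := by
  have him := h.imm
  obtain ⟨n, hn⟩ : ∃ n, Set.range (ι n) = Set.univ := by
    obtain ⟨n, hn⟩ := hc.isCompact_univ.elim_directed_cover (fun i => Set.range (ι i))
      (fun i => (ι i).isOpenEmbedding.isOpen_range)
      (fun x _ => Set.mem_iUnion.2 (h.cover x)) (monotone_nat_of_le_succ h.mono).directed_le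
    exact ⟨n, Set.univ_subset_iff.1 hn⟩
  have hiso : IsIso (ι n) := vc1j_iso _ hn
  have hp : IsProper (T.π n) := (T.modY n).proper
  have htop : ((regOpen (T.Z n) : (T.Z n).Opens) : Set (T.Z n)) = Set.univ := by
    by_contra hne
    obtain ⟨z, hz, hfin⟩ := (T.nice n).exists_finite (regOpen (T.Z n)).2.isClosed_compl
      (Set.nonempty_compl.2 hne)
    obtain ⟨V, _, _, _, a, hchar, haz⟩ := (T.nice n).exists_arc hfin
    obtain ⟨d, hd⟩ := exists_ramification_bound V
    let K := FractionRing V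
    have : CharZero K := charZero_of_injective_algebraMap (IsFractionRing.injective V K)
    let q : Spec (CommRingCat.of K) ⟶ Spec (CommRingCat.of V) :=
      Spec.map (CommRingCat.ofHom (algebraMap V K))
    let x₂ := IsOpenImmersion.lift (regOpen (T.Z n)).ι (q ≫ a) (by
      rw [Scheme.Opens.range_ι]
      rintro _ ⟨t, rfl⟩
      exact (T.nice n).mem_regOpen (charZ_of_field (q ≫ a) t))
    have hx₂ : x₂ ≫ (regOpen (T.Z n)).ι = q ≫ a := IsOpenImmersion.lift_fac _ _ _
    obtain ⟨b, hb1, hb2⟩ := h.exists_lift hY d hd (x₂ ≫ ι n) (a ≫ T.π n) (by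
      rw [Category.assoc, h.comm, reassoc_of% hx₂])
    have e1 : q ≫ (b ≫ ι d) ≫ inv (ι n) = x₂ := by
      rw [← cancel_mono (ι n)]
      simpa using hb1
    have e2 : a ≫ T.π n = (((b ≫ ι d) ≫ inv (ι n)) ≫ (regOpen (T.Z n)).ι) ≫ T.π n := by
      rw [Category.assoc, ← h.comm, Category.assoc, IsIso.inv_hom_id_assoc, hb2]
    have hq : IsDominant q := ⟨(PrimeSpectrum.denseRange_comap_iff_ker_le_nilRadical
      (algebraMap V K)).2 (by
        rw [(RingHom.injective_iff_ker_eq_bot _).1 (IsFractionRing.injective V K)]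
        exact bot_le)⟩
    have e3 := ext_of_isDominant_of_isSeparated (T.π n) e2 q
      (by rw [← Category.assoc q, e1, hx₂])
    refine hz ((Scheme.Opens.range_ι (regOpen (T.Z n))).le ?_)
    rw [← haz, e3]
    exact ⟨_, rfl⟩
  have : IsIso (regOpen (T.Z n)).ι := vc1j_iso _ (by rw [Scheme.Opens.range_ι, htop])
  have e : π = inv (ι n) ≫ (regOpen (T.Z n)).ι ≫ T.π n := by
    rw [← h.comm, IsIso.inv_hom_id_assoc]
  rw [e]
  infer_instance
-- END VC1j

end Pool.Agent.Lib.MP_6a3dac_ag.NU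
end

section

/-!
# NU: models over the ring of integers
-/

set_option autoImplicit false

namespace Pool.Agent.Lib.MP_6a3dac_ag.NU

open CategoryTheory Limits AlgebraicGeometry TopologicalSpace IsLocalRing NumberField

variable {E : Type} [Field E] [NumberField E]

-- BEGIN FN1a
theorem fn1a_ring {A : CommRingCat.{0}} (hA : ∀ n : ℕ, n ≠ 0 → IsUnit (n : A))
    (ψ : CommRingCat.of (𝓞 E) ⟶ A) :
    ∃ ψ' : CommRingCat.of E ⟶ A, CommRingCat.ofHom (algebraMap (𝓞 E) E) ≫ ψ' = ψ := by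
  let f : 𝓞 E →+* A := ψ.hom
  have hu : ∀ a : nonZeroDivisors (𝓞 E), IsUnit (f a) := fun a => by
    have h1 := Ideal.absNorm_mem (Ideal.span {(a : 𝓞 E)})
    have h2 := hA _ (mt Ideal.absNorm_eq_zero_iff.1
      (mt Ideal.span_singleton_eq_bot.1 (nonZeroDivisors.ne_zero a.2)))
    rw [← map_natCast f] at h2
    exact isUnit_of_dvd_unit (map_dvd f (Ideal.mem_span_singleton.1 h1)) h2
  exact ⟨CommRingCat.ofHom (IsLocalization.lift (S := E) hu),
    CommRingCat.hom_ext (IsLocalization.lift_comp hu)⟩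

theorem fn1a_lift {Y : Scheme.{0}} (g : Y ⟶ Spec (CommRingCat.of (𝓞 E))) {y : Y}
    (hy : CharZ Y y) : ∃ s : Spec (Y.presheaf.stalk y) ⟶ pullback g (genPt E),
      s ≫ pullback.fst g (genPt E) = Y.fromSpecStalk y := by
  obtain ⟨ψ, hψ⟩ := Spec.map_surjective (Y.fromSpecStalk y ≫ g)
  obtain ⟨ψ', h⟩ := fn1a_ring hy ψ
  exact ⟨pullback.lift (Y.fromSpecStalk y) (Spec.map ψ') (by rw [← hψ, ← h, Spec.map_comp]),
    pullback.lift_fst _ _ _⟩

/-- Points of characteristic zero are the points of the generic fibre. -/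
theorem charZ_iff_mem_range {Y : Scheme.{0}} (g : Y ⟶ Spec (CommRingCat.of (𝓞 E))) (y : Y) :
    CharZ Y y ↔ y ∈ Set.range (pullback.fst g (genPt E)) := by
  constructor
  · intro hy
    obtain ⟨s, hs⟩ := fn1a_lift g hy
    refine ⟨s (closedPoint _), ?_⟩
    rw [← Scheme.Hom.comp_apply, hs, Scheme.fromSpecStalk_closedPoint]
  · rintro ⟨t, rfl⟩
    refine CharZ.map fun n hn => ?_
    have h1 := (charZ_of_field (𝟙 (Spec (CommRingCat.of E)))
      (pullback.snd g (genPt E) t) n hn).map ((pullback.snd g (genPt E)).stalkMap t).hom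
    rwa [map_natCast] at h1
-- END FN1a

-- BEGIN FN1b
theorem fn1b_exists {P : Scheme.{0}} {A : CommRingCat.{0}} [IsLocalRing A] (s : Spec A ⟶ P)
    {t : P} (h : s (closedPoint A) = t) :
    ∃ ψ : P.presheaf.stalk t ⟶ A, Spec.map ψ ≫ P.fromSpecStalk t = s := by
  subst h
  exact ⟨_, Scheme.Spec_stalkClosedPointTo_fromSpecStalk s⟩

/-- The generic fibre has the same local rings. -/
theorem isIso_stalkMap_genericFibre {Y : Scheme.{0}} (g : Y ⟶ Spec (CommRingCat.of (𝓞 E)))
    (t : ↑(pullback g (genPt E))) : IsIso ((pullback.fst g (genPt E)).stalkMap t) := by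
  have h0 : Epi (CommRingCat.ofHom (algebraMap (𝓞 E) E)) :=
    IsLocalization.epi (nonZeroDivisors (𝓞 E)) E
  have h1 : Mono (genPt E) :=
    inferInstanceAs (Mono (Scheme.Spec.map (CommRingCat.ofHom (algebraMap (𝓞 E) E)).op))
  obtain ⟨s, hs⟩ := fn1a_lift g ((charZ_iff_mem_range g _).2 ⟨t, rfl⟩)
  have h2 : Spec.map ((pullback.fst g (genPt E)).stalkMap t) ≫ s =
      (pullback g (genPt E)).fromSpecStalk t := by
    rw [← cancel_mono (pullback.fst g (genPt E)), Category.assoc, hs,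
      Scheme.SpecMap_stalkMap_fromSpecStalk]
  obtain ⟨ψ, hψ⟩ := fn1b_exists (t := t) s (by
    rw [← Spec_closedPoint (f := (pullback.fst g (genPt E)).stalkMap t),
      ← Scheme.Hom.comp_apply, h2, Scheme.fromSpecStalk_closedPoint])
  suffices h : IsIso (Spec.map ((pullback.fst g (genPt E)).stalkMap t)) from
    (ConcreteCategory.isIso_iff_bijective _).2 (isIso_SpecMap_iff.1 h)
  refine ⟨Spec.map ψ, ?_, ?_⟩
  · rw [← cancel_mono ((pullback g (genPt E)).fromSpecStalk t), Category.assoc, hψ, h2,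
      Category.id_comp]
  · rw [← cancel_mono (Y.fromSpecStalk _), Category.assoc, Scheme.SpecMap_stalkMap_fromSpecStalk,
      reassoc_of% hψ, hs, Category.id_comp]
-- END FN1b

-- BEGIN FN1d
/-- Stalks of smooth schemes over a number field. -/
theorem formallySmooth_stalk {X : Scheme.{0}} (f : X ⟶ Spec (CommRingCat.of E)) (hf : Smooth f)
    (x : X) : Algebra.FormallySmooth ℤ (X.presheaf.stalk x) := by
  obtain ⟨_, ⟨V, hV, rfl⟩, hxV, -⟩ :=
    X.isBasis_affineOpens.exists_subset_of_mem_open (Set.mem_univ x) isOpen_univ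
  have h1 : Algebra.FormallySmooth ℤ ℚ := .of_isLocalization (nonZeroDivisors ℤ)
  have h2 : Algebra.FormallySmooth ℤ E := .comp ℤ ℚ E
  have h3 : Algebra.FormallySmooth ℤ Γ(Spec (CommRingCat.of E), ⊤) :=
    .of_equiv (Scheme.ΓSpecIso (CommRingCat.of E)).commRingCatIsoToRingEquiv.symm.toIntAlgEquiv
  have hs := f.smooth_appLE (isAffineOpen_top _) hV le_top
  algebraize [(f.appLE ⊤ V le_top).hom]
  have h4 : Algebra.FormallySmooth ℤ Γ(X, V) := .comp ℤ Γ(Spec (CommRingCat.of E), ⊤) Γ(X, V)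
  let := TopCat.Presheaf.algebra_section_stalk X.presheaf (⟨x, hxV⟩ : V)
  have h5 := hV.isLocalization_stalk ⟨x, hxV⟩
  have h6 : Algebra.FormallySmooth Γ(X, V) (X.presheaf.stalk x) :=
    .of_isLocalization (hV.primeIdealOf ⟨x, hxV⟩).asIdeal.primeCompl
  exact .comp ℤ Γ(X, V) _
-- END FN1d

-- BEGIN FN1e
/-- **Models of smooth proper schemes are nice.**

PROOF.  `int`: `isIntegral_of_flat`.  `qc`: `Y` is proper over an affine scheme, so quasi-compact.  `ft`:
`ft_iff` (file SC2): the composition `Y ⟶ Spec (𝓞 E) ⟶ Spec ℤ` is locally of finite type (`𝓞 E` is a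
finitely generated `ℤ`-module).  `cz`: `X` is nonempty (integral), so the generic fibre has a point `t`;
`charZ_iff_mem_range`.  `sm`: `charZ_iff_mem_range`: `y = pullback.fst t`; `isIso_stalkMap_genericFibre`,
the stalk of the pullback at `t` is isomorphic to a stalk of `X` (`e`), `formallySmooth_stalk`;
`Algebra.FormallySmooth.of_equiv`. -/
theorem nice_of_model {X Y : Scheme.{0}} [IsIntegral X] [IsIntegral Y]
    (f : X ⟶ Spec (CommRingCat.of E)) (hf : Smooth f) (g : Y ⟶ Spec (CommRingCat.of (𝓞 E)))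
    (hg : IsProper g) (h : HasGenericFibre E f g) : Nice Y := by
  obtain ⟨e, he⟩ := h
  refine ⟨inferInstance, ?_, ?_, ?_, ?_⟩
  · exact QuasiCompact.compactSpace_of_compactSpace g
  · rw [ft_iff, ← specZIsTerminal.hom_ext (g ≫ specZIsTerminal.from _) (specZIsTerminal.from Y)]
    have h1 : LocallyOfFiniteType (specZIsTerminal.from (Spec (CommRingCat.of (𝓞 E)))) := by
      have h2 : specZIsTerminal.from (Spec (CommRingCat.of (𝓞 E))) =
          Spec.map (CommRingCat.ofHom (algebraMap ℤ (𝓞 E))) := specZIsTerminal.hom_ext _ _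
      rw [h2, HasRingHomProperty.Spec_iff (P := @LocallyOfFiniteType)]
      rw [CommRingCat.hom_ofHom, RingHom.finiteType_algebraMap]
      infer_instance
    infer_instance
  · obtain ⟨x⟩ : Nonempty X := inferInstance
    exact ⟨pullback.fst g (genPt E) (e.inv x), (charZ_iff_mem_range g _).2 ⟨_, rfl⟩⟩
  · intro y hy
    obtain ⟨t, rfl⟩ := (charZ_iff_mem_range g y).1 hy
    have h1 := isIso_stalkMap_genericFibre g t
    have h2 := formallySmooth_stalk f hf (e.hom t)
    have h3 : IsIso (e.hom.stalkMap t) := inferInstance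
    have e1 := (asIso (e.hom.stalkMap t)).commRingCatIsoToRingEquiv
    have e2 := (asIso ((pullback.fst g (genPt E)).stalkMap t)).commRingCatIsoToRingEquiv
    exact Algebra.FormallySmooth.of_equiv (e1.trans e2.symm).toIntAlgEquiv
-- END FN1e

-- BEGIN FN1f
theorem fn1f_flat {A : Type} [CommRing A] (ψ : 𝓞 E →+* A)
    (h : ∀ n : ℕ, n ≠ 0 → IsSMulRegular A (n : A)) : ψ.Flat := by
  let := ψ.toAlgebra
  change Module.Flat (𝓞 E) A
  have : Module.IsTorsionFree (𝓞 E) A := ⟨fun r hr x y hxy => by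
    obtain ⟨s, hs⟩ := Ideal.mem_span_singleton.1 (Ideal.absNorm_mem (Ideal.span {r}))
    refine h (Ideal.absNorm (Ideal.span {r})) (fun h0 => hr.ne_zero ?_) ?_
    · simpa using Ideal.absNorm_eq_zero_iff.1 h0
    · change ψ r * x = ψ r * y at hxy
      change ((_ : ℕ) : A) * x = ((_ : ℕ) : A) * y
      rw [← map_natCast ψ, hs, map_mul, mul_comm (ψ r), mul_assoc, hxy, mul_assoc]⟩
  infer_instance

/-- Integral schemes with a point of characteristic zero are flat over `𝓞 E`. -/
theorem flat_of_charZ {Z : Scheme.{0}} [IsIntegral Z] (hZ : ∃ z : Z, CharZ Z z)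
    (g : Z ⟶ Spec (CommRingCat.of (𝓞 E))) : Flat g := by
  rw [HasRingHomProperty.iff_of_iSup_eq_top (P := @Flat) (fun U : Z.affineOpens => U)
    (iSup_affineOpens_eq_top Z)]
  intro U
  refine (RingHom.Flat.comp_iff_of_bijective_right (g := (Scheme.ΓSpecIso (.of (𝓞 E))).inv.hom)
    (ConcreteCategory.bijective_of_isIso (Scheme.ΓSpecIso (.of (𝓞 E))).inv)).1
    (fn1f_flat _ fun n hn x y hxy => ?_)
  rcases isEmpty_or_nonempty U.1 with hU | hU
  · have h : U.1 = ⊥ := by
      ext x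
      simpa using fun hx => hU.elim ⟨x, hx⟩
    have : Subsingleton Γ(Z, U.1) := h ▸ inferInstance
    exact Subsingleton.elim x y
  · obtain ⟨y₀, h0⟩ := hZ
    have hc : CharZ Z (genericPoint Z) := h0.generize (genericPoint_specializes y₀)
    have hU : genericPoint Z ∈ U.1 :=
      ((genericPoint_spec Z).mem_open_set_iff U.1.2).2
        (by simpa using (Set.nonempty_coe_sort (s := (U.1 : Set Z))).1 ‹_›)
    exact mul_left_cancel₀ (fun (h : (n : Γ(Z, U.1)) = 0) =>
      (sc2m_unit U ⟨_, hU⟩ n).1 (hc n hn) (h ▸ zero_mem _)) hxy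
-- END FN1f

-- BEGIN FN1g
/-- A modification outside of the generic fibre does not change the generic fibre. -/
theorem HasGenericFibre.comp {X Y Y' : Scheme.{0}} {f : X ⟶ Spec (CommRingCat.of E)}
    {g : Y ⟶ Spec (CommRingCat.of (𝓞 E))} (h : HasGenericFibre E f g) (π : Y' ⟶ Y) (W : Y.Opens)
    (hW : ∀ y, CharZ Y y → y ∈ W) (hπ : IsIso (π ∣_ W)) : HasGenericFibre E f (π ≫ g) := by
  obtain ⟨e, he⟩ := h
  let q : pullback (π ≫ g) (genPt E) ⟶ pullback g (genPt E) :=
    pullback.lift (pullback.fst _ _ ≫ π) (pullback.snd _ _) (by simp [pullback.condition])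
  have hq1 : q ≫ pullback.fst _ _ = pullback.fst _ _ ≫ π := pullback.lift_fst _ _ _
  have hq2 : q ≫ pullback.snd _ _ = pullback.snd _ _ := pullback.lift_snd _ _ _
  have s1 : IsPullback q (pullback.fst (π ≫ g) (genPt E)) (pullback.fst g (genPt E)) π := by
    refine .of_right (h₁₂ := pullback.snd g (genPt E)) (h₂₂ := g) (v₁₃ := genPt E) ?_ hq1
      (IsPullback.of_hasPullback _ _).flip
    rw [hq2]
    exact (IsPullback.of_hasPullback _ _).flip
  let k := IsOpenImmersion.lift W.ι (pullback.fst g (genPt E)) (by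
    rintro _ ⟨t, rfl⟩
    simpa using hW _ ((charZ_iff_mem_range g _).2 ⟨t, rfl⟩))
  have hk : k ≫ W.ι = pullback.fst g (genPt E) := IsOpenImmersion.lift_fac _ _ _
  have s2 := isPullback_morphismRestrict π W
  have hl : (q ≫ k) ≫ W.ι = pullback.fst (π ≫ g) (genPt E) ≫ π := by
    rw [Category.assoc, hk, hq1]
  have : IsIso q := by
    refine (IsPullback.of_bot (v₁₁ := s2.lift (q ≫ k) (pullback.fst _ _) hl) (v₁₂ := k) ?_ ?_
      s2).isIso_fst_of_isIso
    · rw [s2.lift_snd, hk]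
      exact s1
    · rw [s2.lift_fst]
  exact ⟨asIso q ≪≫ e, by simp [he, hq2]⟩
-- END FN1g

-- BEGIN FN1h
/-- The ramification index is at most the degree. -/
theorem addVal_le_finrank (L : Type) [Field L] [NumberField L] (𝔩 : Ideal (𝓞 L)) [𝔩.IsMaximal]
    [IsDiscreteValuationRing (Localization.AtPrime 𝔩)] (p : ℕ) (hp : p.Prime) :
    IsDiscreteValuationRing.addVal (Localization.AtPrime 𝔩) (p : Localization.AtPrime 𝔩) ≤
      (Module.finrank ℚ L : ℕ) := by
  obtain ⟨ϖ, hϖ⟩ := IsDiscreteValuationRing.exists_irreducible (Localization.AtPrime 𝔩)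
  by_contra hlt
  push Not at hlt
  have h1 : IsDiscreteValuationRing.addVal (Localization.AtPrime 𝔩) (ϖ ^ (Module.finrank ℚ L + 1))
      ≤ IsDiscreteValuationRing.addVal (Localization.AtPrime 𝔩) (p : Localization.AtPrime 𝔩) := by
    rw [hϖ.addVal_pow]
    exact_mod_cast Order.add_one_le_of_lt hlt
  have h4 : (p : 𝓞 L) ∈ 𝔩 ^ (Module.finrank ℚ L + 1) := by
    rw [← IsLocalization.AtPrime.under_maximalIdeal_pow 𝔩 (Localization.AtPrime 𝔩), Ideal.mem_comap,
      map_natCast]
    exact Ideal.mem_of_dvd _ (IsDiscreteValuationRing.addVal_le_iff_dvd.1 h1)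
      (Ideal.pow_mem_pow ((mem_maximalIdeal _).2 hϖ.not_isUnit) _)
  have h5 := Ideal.absNorm_dvd_absNorm_of_le ((Ideal.span_singleton_le_iff_mem _).2 h4)
  rw [map_pow, Ideal.absNorm_span_natCast, RingOfIntegers.rank] at h5
  obtain ⟨f, -, hf⟩ := (Nat.dvd_prime_pow hp).1 ((dvd_pow_self _ (Nat.succ_ne_zero _)).trans h5)
  have hf0 : f ≠ 0 := fun h => Ideal.IsMaximal.ne_top ‹_› (Ideal.absNorm_eq_one_iff.1
    (by rw [hf, h, pow_zero]))
  rw [hf, ← pow_mul, Nat.pow_dvd_pow_iff_le_right hp.one_lt] at h5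
  nlinarith [Nat.pos_of_ne_zero hf0]
-- END FN1h

end Pool.Agent.Lib.MP_6a3dac_ag.NU
end

section

/-!
# NU: models of closed subschemes of the generic fibre of a proper scheme
-/

set_option autoImplicit false

namespace Pool.Agent.Lib.MP_6a3dac_ag.NU

open CategoryTheory Limits AlgebraicGeometry TopologicalSpace IsLocalRing NumberField MvPolynomial

attribute [local instance] MvPolynomial.gradedAlgebra

-- BEGIN CLa
/-- PROOF.  `isProper_projTo` (file ProjModel): the homogeneous polynomials of degree zero are the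
constants. -/
theorem isProper_PNTo (R : Type) [CommRing R] (n : ℕ) : IsProper (PNTo R n) := by
  refine isProper_projTo (homogeneousSubmodule (Fin n) R) ⟨fun a b h => ?_, fun p => ?_⟩
  · exact C_injective (Fin n) R (congrArg Subtype.val h)
  · refine ⟨coeff 0 p.1, Subtype.ext ?_⟩
    have h := (totalDegree_zero_iff_isHomogeneous _).2 ((mem_homogeneousSubmodule 0 p.1).1 p.2)
    exact (totalDegree_eq_zero_iff_eq_C.1 h).symm
-- END CLa

variable {E : Type} [Field E] [NumberField E]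

-- BEGIN CLb
/-- The change of the ring of coefficients as a graded ring homomorphism. -/
noncomputable def clb_map (n : ℕ) :
    homogeneousSubmodule (Fin n) (𝓞 E) →+*ᵍ homogeneousSubmodule (Fin n) E where
  __ := MvPolynomial.map (algebraMap (𝓞 E) E)
  map_mem h := IsHomogeneous.map h _

attribute [local instance] MvPolynomial.algebraMvPolynomial in
theorem clb_surj (n : ℕ) (a : MvPolynomial (Fin n) E) :
    ∃ r ∈ nonZeroDivisors (𝓞 E), ∃ b : MvPolynomial (Fin n) (𝓞 E),
      clb_map (E := E) n b = algebraMap E (MvPolynomial (Fin n) E) (algebraMap (𝓞 E) E r) * a := by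
  obtain ⟨⟨b, _, r, hr, rfl⟩, e⟩ := IsLocalization.surj
    ((nonZeroDivisors (𝓞 E)).map (C : 𝓞 E →+* MvPolynomial (Fin n) (𝓞 E))) a
  refine ⟨r, hr, b, ?_⟩
  rw [mul_comm]
  refine e.symm.trans (congrArg (a * ·) ?_)
  exact map_C (algebraMap (𝓞 E) E) r

/-- PROOF.  `isPullback_proj` and `irrelevant_le_map` (file ProjModel), with `φ = MvPolynomial.map
(algebraMap (𝓞 E) E)` as a graded ring homomorphism, `M = nonZeroDivisors (𝓞 E)`; `hsurj`: common
denominator of the coefficients (`IsLocalization.exist_integer_multiples`...; compare the proof of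
`isPullback_blMap` in file BU2); `hinj`: `φ` is injective.  Then `IsPullback.isoPullback`. -/
theorem exists_iso_PN (n : ℕ) :
    ∃ e : pullback (PNTo (𝓞 E) n) (genPt E) ≅ PN E n,
      e.hom ≫ PNTo E n = pullback.snd (PNTo (𝓞 E) n) (genPt E) := by
  have H := isPullback_proj (homogeneousSubmodule (Fin n) (𝓞 E)) (homogeneousSubmodule (Fin n) E)
    (nonZeroDivisors (𝓞 E)) (clb_map n) (fun r => map_C (algebraMap (𝓞 E) E) r) (clb_surj n)
    (fun b hb => ⟨1, one_mem _, by
      rw [map_one, one_mul]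
      exact (map_eq_zero_iff _ (map_injective _
        (FaithfulSMul.algebraMap_injective (𝓞 E) E))).1 hb⟩)
    (irrelevant_le_map _ _ (nonZeroDivisors (𝓞 E)) (clb_map n) (clb_surj n))
  exact ⟨H.isoPullback.symm, H.isoPullback_inv_snd⟩
-- END CLb

-- BEGIN CLc
theorem clc_inj {Y : Scheme.{0}} (g : Y ⟶ Spec (CommRingCat.of (𝓞 E))) :
    Function.Injective (pullback.fst g (genPt E)) := by
  have h0 : Epi (CommRingCat.ofHom (algebraMap (𝓞 E) E)) :=
    IsLocalization.epi (nonZeroDivisors (𝓞 E)) E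
  have h1 : Mono (genPt E) :=
    inferInstanceAs (Mono (Scheme.Spec.map (CommRingCat.ofHom (algebraMap (𝓞 E) E)).op))
  exact (pullback.fst g (genPt E)).injective

theorem clc_spec {Y : Scheme.{0}} [IsIntegral Y] (g : Y ⟶ Spec (CommRingCat.of (𝓞 E)))
    {η : ↑(pullback g (genPt E))} (hη : pullback.fst g (genPt E) η = genericPoint Y)
    (z : ↑(pullback g (genPt E))) : η ⤳ z := by
  have h1 : genericPoint Y ∈ Set.range (Y.fromSpecStalk (pullback.fst g (genPt E) z)) := by
    rw [Scheme.range_fromSpecStalk]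
    exact genericPoint_specializes _
  obtain ⟨t, ht⟩ := h1
  have h2 := isIso_stalkMap_genericFibre g z
  obtain ⟨t', rfl⟩ : ∃ t', Spec.map ((pullback.fst g (genPt E)).stalkMap z) t' = t :=
    (Spec.map ((pullback.fst g (genPt E)).stalkMap z)).surjective t
  rw [← Scheme.Hom.comp_apply, Scheme.SpecMap_stalkMap_fromSpecStalk, Scheme.Hom.comp_apply,
    ← hη] at ht
  rw [← clc_inj g ht]
  have h3 : (pullback g (genPt E)).fromSpecStalk z t' ∈
      Set.range ((pullback g (genPt E)).fromSpecStalk z) := ⟨t', rfl⟩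
  rwa [Scheme.range_fromSpecStalk] at h3

/-- The generic fibre of an integral scheme dominating the base is integral. -/
theorem isIntegral_genericFibre {Y : Scheme.{0}} [IsIntegral Y]
    (g : Y ⟶ Spec (CommRingCat.of (𝓞 E))) (hY : ∃ y : Y, CharZ Y y) :
    IsIntegral (pullback g (genPt E)) := by
  obtain ⟨y, hy⟩ := hY
  obtain ⟨η, hη⟩ := (charZ_iff_mem_range g _).1 (hy.generize (genericPoint_specializes y))
  have h1 : ∀ z : ↑(pullback g (genPt E)),
      _root_.IsReduced ((pullback g (genPt E)).presheaf.stalk z) := fun z => by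
    have := isIso_stalkMap_genericFibre g z
    exact isReduced_of_injective (inv ((pullback.fst g (genPt E)).stalkMap z)).hom
      (ConcreteCategory.bijective_of_isIso (inv ((pullback.fst g (genPt E)).stalkMap z))).1
  have := isReduced_of_isReduced_stalk (pullback g (genPt E))
  have : IrreducibleSpace ↑(pullback g (genPt E)) :=
    { toNonempty := ⟨η⟩
      isPreirreducible_univ := by
        have h2 : (Set.univ : Set ↑(pullback g (genPt E))) = closure {η} :=
          (Set.eq_univ_of_forall fun z => (clc_spec g hη z).mem_closure).symm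
        rw [h2]
        exact isIrreducible_singleton.closure.2 }
  exact isIntegral_of_irreducibleSpace_of_isReduced _
-- END CLc

-- BEGIN CLd
/-- The scheme-theoretic image of a closed subscheme of the generic fibre is integral, proper and flat. -/
theorem image_props {X P : Scheme.{0}} [IsIntegral X] (p : P ⟶ Spec (CommRingCat.of (𝓞 E)))
    (hp : IsProper p) (i : X ⟶ pullback p (genPt E)) (hi : IsClosedImmersion i) :
    IsIntegral (i ≫ pullback.fst p (genPt E)).image ∧
      (∃ y, CharZ (i ≫ pullback.fst p (genPt E)).image y) ∧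
      IsProper ((i ≫ pullback.fst p (genPt E)).imageι ≫ p) ∧
      Flat ((i ≫ pullback.fst p (genPt E)).imageι ≫ p) := by
  obtain ⟨j, hj⟩ : ∃ j, j = i ≫ pullback.fst p (genPt E) := ⟨_, rfl⟩
  have hqc : QuasiCompact j := by rw [hj]; infer_instance
  rw [← hj]
  have h1 : IsIntegral j.image := by
    refine isIntegral_of_cover (j.toImage (genericPoint X)) fun y => ?_
    obtain ⟨_, ⟨W, hW, rfl⟩, hyW, -⟩ :=
      P.isBasis_affineOpens.exists_subset_of_mem_open (Set.mem_univ (j.imageι y)) isOpen_univ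
    have hU : IsAffineOpen (j.imageι ⁻¹ᵁ W) := hW.preimage j.imageι
    have hX : genericPoint X ∈ j.toImage ⁻¹ᵁ (j.imageι ⁻¹ᵁ W) := by
      obtain ⟨_, h2, x, rfl⟩ := j.toImage.denseRange.inter_open_nonempty
        (j.imageι ⁻¹ᵁ W : Set j.image) (j.imageι ⁻¹ᵁ W).isOpen ⟨y, hyW⟩
      exact (genericPoint_specializes x).mem_open (j.toImage ⁻¹ᵁ (j.imageι ⁻¹ᵁ W)).isOpen h2
    have h2 : Nonempty (j.imageι ⁻¹ᵁ W).toScheme := ⟨⟨y, hyW⟩⟩
    have h3 : IsAffine (j.imageι ⁻¹ᵁ W).toScheme := hU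
    have h4 : Nonempty (j.toImage ⁻¹ᵁ (j.imageι ⁻¹ᵁ W)) := ⟨⟨_, hX⟩⟩
    have h5 : IsDomain Γ(X, j.toImage ⁻¹ᵁ (j.imageι ⁻¹ᵁ W)) := inferInstance
    have h6 : IsDomain Γ(j.image, j.imageι ⁻¹ᵁ W) :=
      Function.Injective.isDomain (j.toImage.app (j.imageι ⁻¹ᵁ W)).hom
        (j.toImage_app_injective ⟨W, hW⟩)
    have h7 : IsDomain Γ((j.imageι ⁻¹ᵁ W).toScheme, ⊤) :=
      (j.imageι ⁻¹ᵁ W).topIso.commRingCatIsoToRingEquiv.toMulEquiv.isDomain
    refine ⟨(j.imageι ⁻¹ᵁ W).toScheme, (j.imageι ⁻¹ᵁ W).ι, inferInstance,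
      isIntegral_of_isAffine_of_isDomain _, ?_, ?_⟩
    · exact ⟨⟨y, hyW⟩, rfl⟩
    · exact ⟨⟨_, hX⟩, rfl⟩
  have h2 : ∃ y, CharZ j.image y := by
    refine ⟨j.toImage (genericPoint X), CharZ.map fun n hn => ?_⟩
    have h3 := (charZ_of_field (𝟙 (Spec (CommRingCat.of E)))
      ((i ≫ pullback.snd p (genPt E)) (genericPoint X)) n hn).map
        ((i ≫ pullback.snd p (genPt E)).stalkMap (genericPoint X)).hom
    rwa [map_natCast] at h3
  exact ⟨h1, h2, inferInstance, flat_of_charZ h2 _⟩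
-- END CLd

-- BEGIN CLe
/-- **The generic fibre of the closure.** -/
theorem hasGenericFibre_image {X P : Scheme.{0}} [IsIntegral X]
    (p : P ⟶ Spec (CommRingCat.of (𝓞 E))) (hp : IsProper p) (i : X ⟶ pullback p (genPt E))
    (hi : IsClosedImmersion i) :
    HasGenericFibre E (i ≫ pullback.snd p (genPt E))
      ((i ≫ pullback.fst p (genPt E)).imageι ≫ p) := by
  obtain ⟨h1, h2, -, -⟩ := image_props p hp i hi
  obtain ⟨j, hj⟩ : ∃ j, j = i ≫ pullback.fst p (genPt E) := ⟨_, rfl⟩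
  have hqc : QuasiCompact j := by rw [hj]; infer_instance
  rw [← hj] at h1 h2 ⊢
  have hc : j.toImage ≫ j.imageι ≫ p = (i ≫ pullback.snd p (genPt E)) ≫ genPt E := by
    rw [← Category.assoc, j.toImage_imageι, hj, Category.assoc, Category.assoc,
      pullback.condition]
  have hQ := isIntegral_genericFibre (j.imageι ≫ p) h2
  let i' : X ⟶ pullback (j.imageι ≫ p) (genPt E) := pullback.lift j.toImage _ hc
  let m : pullback (j.imageι ≫ p) (genPt E) ⟶ pullback p (genPt E) :=
    pullback.lift (pullback.fst _ _ ≫ j.imageι) (pullback.snd _ _)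
      (by rw [Category.assoc, pullback.condition])
  have hm : Mono m := ⟨fun a b hab => by
    have e1 := congrArg (· ≫ pullback.fst p (genPt E)) hab
    have e2 := congrArg (· ≫ pullback.snd p (genPt E)) hab
    simp only [m, Category.assoc, pullback.lift_fst, pullback.lift_snd] at e1 e2
    rw [← Category.assoc, ← Category.assoc, cancel_mono] at e1
    exact pullback.hom_ext e1 e2⟩
  have him : i' ≫ m = i := by
    apply pullback.hom_ext
    · simp only [i', m, Category.assoc, pullback.lift_fst, pullback.lift_fst_assoc,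
        j.toImage_imageι, hj]
    · simp only [i', m, Category.assoc, pullback.lift_snd]
  have h3 : IsClosedImmersion (i' ≫ m) := by rwa [him]
  have h4 : IsClosedImmersion i' := IsClosedImmersion.of_comp i' m
  have h5 : j.toImage (genericPoint X) = genericPoint j.image := by
    have h6 := (genericPoint_spec X).image j.toImage.continuous
    rw [Set.image_univ, j.toImage.denseRange.closure_eq] at h6
    exact h6.eq (genericPoint_spec j.image)
  have h6 : Surjective i' := by
    refine ⟨fun z => ?_⟩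
    have h7 : i' (genericPoint X) ⤳ z := clc_spec _ (by
      rw [← Scheme.Hom.comp_apply, pullback.lift_fst, h5]) z
    exact h7.mem_closed i'.isClosedEmbedding.isClosed_range ⟨_, rfl⟩
  have h7 : IsIso i' := isIso_of_isClosedImmersion_of_surjective i'
  exact ⟨(asIso i').symm, (Iso.inv_comp_eq _).2 (pullback.lift_snd _ _ _).symm⟩
-- END CLe

end Pool.Agent.Lib.MP_6a3dac_ag.NU
end

section

/-!
# NU: points over Dedekind domains
-/

set_option autoImplicit false

namespace Pool.Agent.Lib.MP_6a3dac_ag.NU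

open CategoryTheory Limits AlgebraicGeometry TopologicalSpace IsLocalRing

-- BEGIN DGa
/-- A morphism from an open subset of `Spec D` is determined at the generic point. -/
theorem eq_of_generic {S Z : Scheme.{0}} (g : Z ⟶ S) (hg : IsSeparated g) {D K : Type} [CommRing D]
    [IsDomain D] [Field K] [Algebra D K] [IsFractionRing D K]
    (U : (Spec (CommRingCat.of D)).Opens) (k : Spec (CommRingCat.of K) ⟶ U.toScheme)
    (hk : k ≫ U.ι = fracPt D K) (a b : U.toScheme ⟶ Z) (hab : k ≫ a = k ≫ b)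
    (hg' : a ≫ g = b ≫ g) : a = b := by
  have : IsDominant (k ≫ U.ι) := by
    rw [hk]
    exact ⟨(PrimeSpectrum.denseRange_comap_iff_ker_le_nilRadical (algebraMap D K)).2
      (((RingHom.injective_iff_ker_eq_bot _).1 (IsFractionRing.injective D K)).trans_le bot_le)⟩
  have := IsDominant.of_comp_of_isOpenImmersion k U.ι
  exact ext_of_isDominant_of_isSeparated g hg' k hab
-- END DGa

-- BEGIN DGb
/-- Spreading out a point over the local ring.

PROOF.  `spread_out_of_isGermInjective'` (Mathlib, `SpreadingOut.lean`) for `X = Spec D` (integral, so germ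
injective), `x = 𝔩`, and the morphism `Spec (stalk at 𝔩) ≅ Spec D_𝔩 ⟶ Z` (`Spec.stalkIso` or
`IsLocalization.algEquiv`; the composition `Spec (stalk) ≅ Spec D_𝔩 ⟶ Spec D` is `fromSpecStalk`).
It gives `U ∋ 𝔩` and `a : U ⟶ Z`, with `a ≫ g = U.ι ≫ s`, which restricts to `l` on `Spec D_𝔩`; precompose
with `Spec K ⟶ Spec D_𝔩`: `k ≫ a = x` where `k ≫ U.ι = fracPt D K` (the generic point is in the nonempty
open `U`). -/
theorem exists_spread {S Z : Scheme.{0}} (g : Z ⟶ S) (hg : LocallyOfFiniteType g) {D K : Type}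
    [CommRing D] [IsDomain D] [Field K] [Algebra D K] [IsFractionRing D K]
    (s : Spec (CommRingCat.of D) ⟶ S) (x : Spec (CommRingCat.of K) ⟶ Z) (𝔩 : Ideal D) [𝔩.IsPrime]
    [Algebra (Localization.AtPrime 𝔩) K] [IsScalarTower D (Localization.AtPrime 𝔩) K]
    (l : Spec (CommRingCat.of (Localization.AtPrime 𝔩)) ⟶ Z)
    (hl : Spec.map (CommRingCat.ofHom (algebraMap (Localization.AtPrime 𝔩) K)) ≫ l = x)
    (hl' : l ≫ g = Spec.map (CommRingCat.ofHom (algebraMap D (Localization.AtPrime 𝔩))) ≫ s) :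
    ∃ (U : (Spec (CommRingCat.of D)).Opens) (a : U.toScheme ⟶ Z)
      (k : Spec (CommRingCat.of K) ⟶ U.toScheme), (⟨𝔩, inferInstance⟩ : PrimeSpectrum D) ∈ U ∧
      k ≫ U.ι = fracPt D K ∧ k ≫ a = x ∧ a ≫ g = U.ι ≫ s := by
  let y : Spec (CommRingCat.of D) := (⟨𝔩, inferInstance⟩ : PrimeSpectrum D)
  let e : (Spec (CommRingCat.of D)).presheaf.stalk y ≅
      CommRingCat.of (Localization.AtPrime 𝔩) := Spec.stalkIso (CommRingCat.of D) y
  have he : (Spec (CommRingCat.of D)).fromSpecStalk y = Spec.map e.inv ≫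
      Spec.map (CommRingCat.ofHom (algebraMap D (Localization.AtPrime 𝔩))) := by
    rw [Spec.fromSpecStalk_eq, ← Spec.map_comp]
    exact congrArg Spec.map (Spec.algebraMap_stalkIso_inv (R := CommRingCat.of D) (x := y)).symm
  have h1 : ∀ {W : Scheme.{0}} (m : Spec (CommRingCat.of (Localization.AtPrime 𝔩)) ⟶ W),
      Spec.map e.hom ≫ Spec.map e.inv ≫ m = m := fun m => by
    rw [← Spec.map_comp_assoc, Iso.inv_hom_id, Spec.map_id, Category.id_comp]
  obtain ⟨U, hU, a, ha, hag⟩ := spread_out_of_isGermInjective' s g (x := y)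
    (Spec.map e.inv ≫ l) (by rw [Category.assoc, hl', he, Category.assoc])
  refine ⟨U, a, Spec.map (CommRingCat.ofHom (algebraMap (Localization.AtPrime 𝔩) K)) ≫
    Spec.map e.hom ≫ U.fromSpecStalkOfMem y hU, hU, ?_, ?_, hag⟩
  · rw [Category.assoc, Category.assoc, Scheme.Opens.fromSpecStalkOfMem_ι, he, h1,
      ← Spec.map_comp, ← CommRingCat.ofHom_comp, ← IsScalarTower.algebraMap_eq]
  · rw [Category.assoc, Category.assoc, ← ha, h1, hl]
-- END DGb

-- BEGIN DGc
/-- **Gluing local points.**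

PROOF.  For every prime `𝔩` of `D` `hloc` gives `U 𝔩`, `a 𝔩 : U 𝔩 ⟶ Z`, `k 𝔩`.  On `U 𝔩 ⊓ U 𝔩'` the two
restrictions agree: `eq_of_generic` (the intersection contains the generic point, so `fracPt D K` factors
through it).  Glue (`Scheme.Cover.glueMorphisms` for the open cover of `Spec D` by the `U 𝔩`; on the
pullbacks `pullback (U 𝔩).ι (U 𝔩').ι ≅ U 𝔩 ⊓ U 𝔩'`): `l : Spec D ⟶ Z` with `(U 𝔩).ι ≫ l = a 𝔩`.
`fracPt D K ≫ l = k ≫ a = x`, and `l ≫ g = s` (`Cover.hom_ext`).  Uniqueness: `eq_of_generic` with `U = ⊤`,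
or directly with the dominant morphism `fracPt D K`. -/
theorem exists_glue {S Z : Scheme.{0}} (g : Z ⟶ S) (hg : IsSeparated g) {D K : Type} [CommRing D]
    [IsDomain D] [Field K] [Algebra D K] [IsFractionRing D K] (s : Spec (CommRingCat.of D) ⟶ S)
    (x : Spec (CommRingCat.of K) ⟶ Z)
    (hloc : ∀ 𝔩 : PrimeSpectrum D, ∃ (U : (Spec (CommRingCat.of D)).Opens) (a : U.toScheme ⟶ Z)
      (k : Spec (CommRingCat.of K) ⟶ U.toScheme), 𝔩 ∈ U ∧ k ≫ U.ι = fracPt D K ∧ k ≫ a = x ∧
      a ≫ g = U.ι ≫ s) :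
    ∃! l : Spec (CommRingCat.of D) ⟶ Z, fracPt D K ≫ l = x ∧ l ≫ g = s := by
  choose U a k hU hk hka hag using hloc
  let C : (Spec (CommRingCat.of D)).OpenCover :=
    { I₀ := PrimeSpectrum D
      X := fun i => (U i).toScheme
      f := fun i => (U i).ι
      mem₀ := by
        rw [Scheme.presieve₀_mem_precoverage_iff]
        exact ⟨fun y => ⟨y, ⟨⟨y, hU y⟩, rfl⟩⟩, fun i => inferInstance⟩ }
  have hf : ∀ i j, pullback.fst (C.f i) (C.f j) ≫ a i = pullback.snd (C.f i) (C.f j) ≫ a j := by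
    intro i j
    have hp := isPullback_opens_inf (U i) (U j)
    rw [← cancel_epi hp.isoPullback.hom]
    change hp.isoPullback.hom ≫ pullback.fst (U i).ι (U j).ι ≫ a i =
      hp.isoPullback.hom ≫ pullback.snd (U i).ι (U j).ι ≫ a j
    rw [IsPullback.isoPullback_hom_fst_assoc, IsPullback.isoPullback_hom_snd_assoc]
    refine eq_of_generic (D := D) (K := K) g hg (U i ⊓ U j)
      (hp.lift (k i) (k j) ((hk i).trans (hk j).symm)) ?_ _ _ ?_ ?_
    · rw [← Scheme.homOfLE_ι _ inf_le_left, hp.lift_fst_assoc, hk]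
    · rw [hp.lift_fst_assoc, hp.lift_snd_assoc, hka, hka]
    · rw [Category.assoc, Category.assoc, hag, hag, Scheme.homOfLE_ι_assoc,
        Scheme.homOfLE_ι_assoc]
  have hl : ∀ i, (U i).ι ≫ C.glueMorphisms a hf = a i := fun i => C.ι_glueMorphisms a hf i
  refine ⟨C.glueMorphisms a hf, ⟨?_, ?_⟩, ?_⟩
  · rw [← hk ⊥, Category.assoc, hl, hka]
  · refine C.hom_ext _ _ fun i => ?_
    change (U i).ι ≫ C.glueMorphisms a hf ≫ g = (U i).ι ≫ s
    rw [reassoc_of% hl i, hag]
  · rintro l ⟨h1, h2⟩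
    refine C.hom_ext _ _ fun i => ?_
    change (U i).ι ≫ l = (U i).ι ≫ C.glueMorphisms a hf
    rw [hl]
    refine eq_of_generic (D := D) (K := K) g hg (U i) (k i) (hk i) _ _ ?_ ?_
    · rw [reassoc_of% hk i, h1, hka]
    · rw [Category.assoc, h2, hag]
-- END DGc

-- BEGIN DGd
/-- **Points over Dedekind domains.**

PROOF.  If `D` is a field then `D → K` is bijective and `fracPt D K` is an isomorphism.  Otherwise
`exists_glue`; for a nonzero prime `𝔩` the local ring `D_𝔩` is a discrete valuation ring of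
characteristic zero with fraction field `K` (`IsLocalization.AtPrime.isDiscreteValuationRing_of_dedekind_domain`;
the algebra structure of `K` over `D_𝔩`: `IsLocalization.lift`/`Localization.AtPrime` in `K`,
`IsFractionRing.isFractionRing_of_isDomain_of_isLocalization`), `hval` gives a point over `D_𝔩` and
`exists_spread` spreads it out.  For `𝔩 = ⊥`: use the neighbourhood of any nonzero prime (an open
nonempty subset contains the generic point). -/
theorem exists_dedekind {S Z : Scheme.{0}} (g : Z ⟶ S) (hg : IsSeparated g)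
    (hg' : LocallyOfFiniteType g)
    (hval : ∀ (V K : Type) [CommRing V] [IsDomain V] [IsDiscreteValuationRing V] [CharZero V]
      [Field K] [Algebra V K] [IsFractionRing V K] (s : Spec (CommRingCat.of V) ⟶ S)
      (x : Spec (CommRingCat.of K) ⟶ Z), x ≫ g = fracPt V K ≫ s →
      ∃ l : Spec (CommRingCat.of V) ⟶ Z, fracPt V K ≫ l = x ∧ l ≫ g = s)
    {D K : Type} [CommRing D] [IsDedekindDomain D] [CharZero D] [Field K] [Algebra D K]
    [IsFractionRing D K] (s : Spec (CommRingCat.of D) ⟶ S) (x : Spec (CommRingCat.of K) ⟶ Z)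
    (hx : x ≫ g = fracPt D K ≫ s) :
    ∃! l : Spec (CommRingCat.of D) ⟶ Z, fracPt D K ≫ l = x ∧ l ≫ g = s := by
  by_cases hD : IsField D
  · have hb : Function.Bijective (algebraMap D K) := by
      let := hD.toField
      exact ⟨IsFractionRing.injective D K, fun y => by
        obtain ⟨a, b, hb, rfl⟩ := IsFractionRing.div_surjective (A := D) y
        exact ⟨a / b, map_div₀ _ _ _⟩⟩
    have h1 : IsIso (CommRingCat.ofHom (algebraMap D K)) :=
      (ConcreteCategory.isIso_iff_bijective _).2 hb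
    have h2 : IsIso (fracPt D K) := inferInstance
    refine ⟨inv (fracPt D K) ≫ x, ⟨IsIso.hom_inv_id_assoc _ _, ?_⟩, fun l hl => ?_⟩
    · rw [Category.assoc, hx, IsIso.inv_hom_id_assoc]
    · rw [← hl.1, IsIso.inv_hom_id_assoc]
  have key : ∀ 𝔩 : Ideal D, 𝔩.IsPrime → 𝔩 ≠ ⊥ → ∃ (U : (Spec (CommRingCat.of D)).Opens)
      (a : U.toScheme ⟶ Z) (k : Spec (CommRingCat.of K) ⟶ U.toScheme),
      (∀ q : PrimeSpectrum D, q.asIdeal ≤ 𝔩 → q ∈ U) ∧ k ≫ U.ι = fracPt D K ∧ k ≫ a = x ∧
      a ≫ g = U.ι ≫ s := by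
    intro 𝔩 h𝔩 hne
    have hle : 𝔩.primeCompl ≤ nonZeroDivisors D := 𝔩.primeCompl_le_nonZeroDivisors
    have hu : ∀ y : 𝔩.primeCompl, IsUnit (algebraMap D K y) := fun y =>
      IsLocalization.map_units K (⟨y.1, hle y.2⟩ : nonZeroDivisors D)
    let : Algebra (Localization.AtPrime 𝔩) K := (IsLocalization.lift hu).toAlgebra
    have : IsScalarTower D (Localization.AtPrime 𝔩) K :=
      IsScalarTower.of_algebraMap_eq' (IsLocalization.lift_comp hu).symm
    have : IsFractionRing (Localization.AtPrime 𝔩) K :=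
      IsFractionRing.isFractionRing_of_isDomain_of_isLocalization 𝔩.primeCompl _ _
    have : IsDiscreteValuationRing (Localization.AtPrime 𝔩) :=
      IsLocalization.AtPrime.isDiscreteValuationRing_of_dedekind_domain D hne _
    have : CharZero (Localization.AtPrime 𝔩) :=
      charZero_of_injective_algebraMap (IsLocalization.injective (Localization.AtPrime 𝔩) hle)
    have h1 : fracPt (Localization.AtPrime 𝔩) K ≫
        Spec.map (CommRingCat.ofHom (algebraMap D (Localization.AtPrime 𝔩))) = fracPt D K := by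
      rw [← Spec.map_comp, ← CommRingCat.ofHom_comp, ← IsScalarTower.algebraMap_eq]
    obtain ⟨l, hl1, hl2⟩ := hval (Localization.AtPrime 𝔩) K
      (Spec.map (CommRingCat.ofHom (algebraMap D (Localization.AtPrime 𝔩))) ≫ s) x
      (by rw [hx, reassoc_of% h1])
    obtain ⟨U, a, k, hU, h2, h3, h4⟩ := exists_spread g hg' s x 𝔩 l hl1 hl2
    refine ⟨U, a, k, fun q hq => ?_, h2, h3, h4⟩
    exact ((PrimeSpectrum.le_iff_specializes q ⟨𝔩, h𝔩⟩).1 hq).mem_open U.isOpen hU
  refine exists_glue g hg s x fun 𝔩 => ?_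
  by_cases hb : 𝔩.asIdeal = ⊥
  · obtain ⟨q, hq, hqp⟩ := Ring.not_isField_iff_exists_prime.1 hD
    obtain ⟨U, a, k, hU, h⟩ := key q hqp hq
    exact ⟨U, a, k, hU 𝔩 (hb ▸ bot_le), h⟩
  · obtain ⟨U, a, k, hU, h⟩ := key 𝔩.asIdeal 𝔩.isPrime hb
    exact ⟨U, a, k, hU 𝔩 le_rfl, h⟩
-- END DGd

end Pool.Agent.Lib.MP_6a3dac_ag.NU
end
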