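import Pool.Agent.Lib.MP_6a3dac_ag.Mg.G052
import Pool.Agent.Lib.MP_6a3dac_ag.Mg.G056
import Pool.Agent.Lib.MP_6a3dac_ag.Mg.G053
import Pool.Agent.Lib.MP_6a3dac_ag.Mg.G054

section

/-!
# NU: moving arcs of characteristic `p` into the regular locus
-/

set_option autoImplicit false

namespace Pool.Agent.Lib.MP_6a3dac_ag.NU

open CategoryTheory Limits AlgebraicGeometry TopologicalSpace IsLocalRing IsDiscreteValuationRing

-- BEGIN W5a
/-- The potential drops when the closed set `T` is blown up. -/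
theorem IsStepI.potW {p : ℕ} (hprime : p.Prime) {Z' Z : Scheme.{0}} {β : Z' ⟶ Z} {T : Set Z}
    (h : IsStepI β T) (hZ : Nice Z) (hT : IsClosed T) (hcz : ∀ z ∈ T, ¬ CharZ Z z) {z' : Z'} (hzT : β z' ∈ T)
    (hreg : IsRegularLocalRing (Z.presheaf.stalk (β z') ⧸ tIdl T (β z')))
    (hfree : ConFree (tIdl T (β z'))) (hA : β z' ∉ regOpen Z) {V : Type} [CommRing V] [IsDomain V]
    [IsDiscreteValuationRing V] [CharP V p] (α : Z'.presheaf.stalk z' →+* V) (hα : IsLocalHom α)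
    {n : ℕ} (hp : PotW p (α.comp (β.stalkMap z').hom) (n + 1)) : PotW p α n := by
  have := hZ.int
  have := h.int
  have := hZ.isLocallyNoetherian
  have hT' : T ≠ Set.univ := by
    obtain ⟨y, hy⟩ := hZ.cz
    intro hc
    exact hcz y (by rw [hc]; trivial) hy
  have hinj := h.toIsMod.injective_stalkMap hT hT' z'
  obtain ⟨m, hm, hp'⟩ := PotW.step hprime hreg hfree hinj inferInstance (h.qt z' hzT) hα rfl
    (fun hr => hA (hZ.mem_regOpen_of_regular hr)) hp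
  exact hp'.mono (by omega)
-- END W5a

-- BEGIN W5b
theorem claimW_zero {p : ℕ} (hprime : p.Prime) : ClaimW p 0 := by
  intro Z hZ T _ _
  have := hZ.int
  refine ⟨Z, 𝟙 Z, hZ, IsMod.id Z _, fun z' _ V _ _ _ _ α hα hp => ?_⟩
  have hl : IsLocalHom (α.comp ((𝟙 Z : Z ⟶ Z).stalkMap z').hom) :=
    RingHom.isLocalHom_comp _ _
  exact hZ.mem_regOpen_of_regular (y := z')
    (regular_of_potW_zero hprime (A := Z.presheaf.stalk z') (α.comp ((𝟙 Z : Z ⟶ Z).stalkMap z').hom) hl hp)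
-- END W5b

-- BEGIN W5c
theorem claimAtW_empty {p : ℕ} (n : ℕ) {Z : Scheme.{0}} (hZ : Nice Z) : ClaimAtW p n Z ∅ := by
  have := hZ.int
  exact ⟨Z, 𝟙 Z, hZ, IsMod.id Z _, fun _ h => h.elim⟩
-- END W5c

-- BEGIN W5d
/-- The closure of the centers of the arcs which are not yet good. -/
theorem claimAtW_of_subset {p : ℕ} {n : ℕ} {Z : Scheme.{0}} {T T₁ : Set Z} (hT₁c : IsClosed T₁)
    (hsub : T₁ ⊆ T)
    (hT₁ : ∀ z ∈ T, z ∉ regOpen Z → (∃ (V : Type) (_ : CommRing V) (_ : IsDomain V)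
      (_ : IsDiscreteValuationRing V) (α : Z.presheaf.stalk z →+* V), CharP V p ∧ IsLocalHom α ∧
        PotW p α n) → z ∈ T₁)
    (h : ClaimAtW p n Z T₁) : ClaimAtW p n Z T := by
  obtain ⟨Z', β, hZ', hβ, hp⟩ := h
  refine ⟨Z', β, hZ', hβ.mono (Set.inter_subset_inter_left _ hsub), ?_⟩
  intro z' hz V _ _ _ _ α hα hpot
  by_cases hz1 : β z' ∈ T₁
  · exact hp z' hz1 V α hα hpot
  · refine (hβ.mem_regOpen_iff (hT₁c.inter (regOpen Z).isOpen.isClosed_compl)
      fun h => hz1 h.1).2 ?_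
    by_contra hn
    exact hz1 (hT₁ _ hz hn ⟨V, _, _, _, α.comp (β.stalkMap z').hom, inferInstance,
      RingHom.isLocalHom_comp _ _, hpot⟩)
-- END W5d

-- BEGIN W5g
/-- **The main step** (see `claimAt_main`). -/
theorem claimAtW_main {p : ℕ} (hprime : p.Prime) {n : ℕ} (ih : ClaimW p n) {Z : Scheme.{0}}
    (hZ : Nice Z) {T T₂ : Set Z} (hT : IsClosed T) (hcz : ∀ z ∈ T, ¬ CharZ Z z) (hTr : T ⊆ (regOpen Z : Set Z)ᶜ)
    (hT₂ : IsClosed T₂) (hT₂T : T₂ ⊆ T)
    (hgen : ∀ z ∈ T, z ∉ T₂ →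
      IsRegularLocalRing (Z.presheaf.stalk z ⧸ tIdl T z) ∧ ConFree (tIdl T z))
    (h₂ : ClaimAtW p (n + 1) Z T₂) : ClaimAtW p (n + 1) Z T := by
  obtain ⟨Z₂, β₂, hZ₂, hm₂, hp₂⟩ := h₂
  obtain ⟨T₃, hT₃c, hT₃cz, hT₃T, hmem, hdisj⟩ := exists_center hT hT₂ hcz hTr hm₂
  have := hZ₂.int
  have := hZ₂.isLocallyNoetherian
  have hgen₂ : genericPoint Z₂ ∉ T₃ := fun h => by
    obtain ⟨y₀, hy₀⟩ := hZ₂.cz
    exact hT₃cz _ h (hy₀.generize (genericPoint_specializes y₀))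
  obtain ⟨Z₃, β₃, h₃⟩ := exists_stepI Z₂ hT₃c hgen₂
  have hZ₃ : Nice Z₃ := hZ₂.mod h₃.toIsMod hT₃c hT₃cz
  obtain ⟨Z₄, β₄, hZ₄, hm₄, hp₄⟩ := ih Z₃ hZ₃ (β₃ ⁻¹' T₃) (hT₃c.preimage β₃.continuous)
    fun z hz hc => hT₃cz _ hz hc.map
  refine ⟨Z₄, β₄ ≫ β₃ ≫ β₂, hZ₄, ?_, ?_⟩
  · have e₁ : IsMod β₂ (T ∩ (regOpen Z : Set Z)ᶜ) :=
      hm₂.mono (Set.inter_subset_inter_left _ hT₂T)
    have e₂ : T₃ ⊆ β₂ ⁻¹' (T ∩ (regOpen Z : Set Z)ᶜ) := fun x hx => ⟨hT₃T hx, hTr (hT₃T hx)⟩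
    have e₃ : IsMod (β₃ ≫ β₂) (T ∩ (regOpen Z : Set Z)ᶜ) := e₁.comp (h₃.toIsMod.mono e₂)
    exact e₃.comp (hm₄.mono fun x hx => e₂ hx.1)
  · intro z₄ hz V _ _ _ _ α hα hpot
    have caseA : β₃ (β₄ z₄) ∈ regOpen Z₂ → z₄ ∈ regOpen Z₄ := fun h => by
      have h3 : β₄ z₄ ∈ regOpen Z₃ := h₃.toIsMod.preimage_regOpen hT₃c hdisj h
      exact hm₄.preimage_regOpen ((hT₃c.preimage β₃.continuous).inter
        (regOpen Z₃).2.isClosed_compl) (Set.disjoint_left.2 fun x hx hx' => hx'.2 hx) h3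
    by_cases hz₂ : β₃ (β₄ z₄) ∈ regOpen Z₂
    · exact caseA hz₂
    have hzT : β₂ (β₃ (β₄ z₄)) ∈ T := hz
    have hl₂ : IsLocalHom (α.comp ((β₄ ≫ β₃).stalkMap z₄).hom) := RingHom.isLocalHom_comp _ _
    have hl₃ : IsLocalHom (α.comp (β₄.stalkMap z₄).hom) := RingHom.isLocalHom_comp _ _
    have hpot₂ : PotW p ((α.comp ((β₄ ≫ β₃).stalkMap z₄).hom).comp
        (β₂.stalkMap (β₃ (β₄ z₄))).hom) (n + 1) := by
      have hc : (α.comp ((β₄ ≫ β₃).stalkMap z₄).hom).comp (β₂.stalkMap (β₃ (β₄ z₄))).hom =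
          α.comp ((β₄ ≫ β₃ ≫ β₂).stalkMap z₄).hom :=
        congrArg (fun f => α.comp (CommRingCat.Hom.hom f))
          (Scheme.Hom.stalkMap_comp (β₄ ≫ β₃) β₂ z₄).symm
      rw [hc]
      exact hpot
    have hz₂' : β₂ (β₃ (β₄ z₄)) ∉ T₂ := fun h => hz₂ (hp₂ _ h V _ hl₂ hpot₂)
    have hT3 : β₃ (β₄ z₄) ∈ T₃ := hmem _ hzT hz₂'
    obtain ⟨hr, hf⟩ := hgen _ hzT hz₂'
    obtain ⟨hreg, hfree⟩ := center_structure hT₂ hm₂ hT₃T hmem hz₂' hr hf
    have hiso : IsIso (β₂.stalkMap (β₃ (β₄ z₄))) := hm₂.isIso_stalkMap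
      (hT₂.inter (regOpen Z).2.isClosed_compl) fun h => hz₂' h.1
    have hpot₃ : PotW p (α.comp ((β₄ ≫ β₃).stalkMap z₄).hom) (n + 1) :=
      PotW.congr (asIso (β₂.stalkMap (β₃ (β₄ z₄)))).commRingCatIsoToRingEquiv (fun a => rfl) hpot₂
    have hpot₄ : PotW p ((α.comp (β₄.stalkMap z₄).hom).comp (β₃.stalkMap (β₄ z₄)).hom) (n + 1) := by
      have hc : (α.comp (β₄.stalkMap z₄).hom).comp (β₃.stalkMap (β₄ z₄)).hom =
          α.comp ((β₄ ≫ β₃).stalkMap z₄).hom :=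
        congrArg (fun f => α.comp (CommRingCat.Hom.hom f))
          (Scheme.Hom.stalkMap_comp β₄ β₃ z₄).symm
      rw [hc]
      exact hpot₃
    exact hp₄ z₄ hT3 V α hα (h₃.potW hprime hZ₂ hT₃c hT₃cz hT3 hreg hfree hz₂ _ hl₃ hpot₄)
-- END W5g

-- BEGIN W5h
/-- **The induction.** -/
theorem claimW_succ {p : ℕ} (hprime : p.Prime) {n : ℕ} (ih : ClaimW p n) : ClaimW p (n + 1) := by
  intro Z hZ T hT hcz
  have := hZ.isLocallyNoetherian
  have := hZ.qc
  have hN : IsNoetherian Z := {}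
  suffices h : ∀ C : Closeds Z, (∀ z ∈ C, ¬ CharZ Z z) → ClaimAtW p (n + 1) Z C from h ⟨T, hT⟩ hcz
  intro C
  induction C using WellFoundedLT.induction with
  | ind C IH =>
    intro hC
    let S : Set Z := {z | z ∈ C ∧ z ∉ regOpen Z ∧ ∃ (V : Type) (_ : CommRing V) (_ : IsDomain V)
      (_ : IsDiscreteValuationRing V) (α : Z.presheaf.stalk z →+* V), CharP V p ∧ IsLocalHom α ∧
        PotW p α (n + 1)}
    have hSC : closure S ⊆ C := closure_minimal (fun z hz => hz.1) C.2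
    by_cases hS : closure S = C
    · have hCr : (C : Set Z) ⊆ (regOpen Z : Set Z)ᶜ := hS ▸ closure_minimal
        (fun z hz => hz.2.1) (regOpen Z).2.isClosed_compl
      rcases (C : Set Z).eq_empty_or_nonempty with h0 | hne
      · rw [h0]
        exact claimAtW_empty _ hZ
      · obtain ⟨T₂, h2, h2C, h2ne, hgen⟩ := hZ.exists_generic C.2 hne hC
        refine claimAtW_main hprime ih hZ C.2 hC hCr h2 h2C hgen (IH ⟨T₂, h2⟩ ?_ fun z hz => hC z (h2C hz))
        exact lt_of_le_of_ne h2C fun h => h2ne (congrArg (fun D : Closeds Z => (D : Set Z)) h)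
    · refine claimAtW_of_subset isClosed_closure hSC (fun z hz hr h => subset_closure ⟨hz, hr, h⟩)
        (IH ⟨closure S, isClosed_closure⟩ ?_ fun z hz => hC z (hSC hz))
      exact lt_of_le_of_ne hSC fun h => hS (congrArg (fun D : Closeds Z => (D : Set Z)) h)
-- END W5h

theorem claimW {p : ℕ} (hprime : p.Prime) (n : ℕ) : ClaimW p n := by
  induction n with
  | zero => exact claimW_zero hprime
  | succ n ih => exact claimW_succ hprime ih

end Pool.Agent.Lib.MP_6a3dac_ag.NU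
end

section

/-!
# NU: arcs of characteristic `p` with bounded contact with the singular locus
-/

set_option autoImplicit false

namespace Pool.Agent.Lib.MP_6a3dac_ag.NU

open CategoryTheory Limits AlgebraicGeometry TopologicalSpace IsLocalRing
open IsDiscreteValuationRing (addVal)

/-- The order of contact of the arc `α` with the singular locus is at most `s`. -/
def Contact {Y : Scheme.{0}} {y : Y} {V : Type} [CommRing V] [IsDomain V]
    [IsDiscreteValuationRing V] (α : Y.presheaf.stalk y →+* V) (s : ℕ) : Prop :=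
  ∃ x ∈ tIdl ((regOpen Y : Set Y)ᶜ) y, addVal V (α x) ≤ s

-- BEGIN W9a
/-- **The bound for the potential** of arcs of characteristic `p`. -/
theorem Nice.exists_potW {Y : Scheme.{0}} (hY : Nice Y) {p : ℕ} (hp : p.Prime) :
    ∃ C : ℕ, ∀ (y : Y) (V : Type) [CommRing V] [IsDomain V] [IsDiscreteValuationRing V]
      [CharP V p] (α : Y.presheaf.stalk y →+* V) (s : ℕ), Contact α s → PotW p α (C * s) := by
  have := hY.int
  have := hY.qc
  have key : ∀ U : Y.affineOpens, ∃ C : ℕ, ∀ y ∈ U.1, ∀ (V : Type) [CommRing V] [IsDomain V]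
      [IsDiscreteValuationRing V] [CharP V p] (α : Y.presheaf.stalk y →+* V) (s : ℕ),
      Contact α s → PotW p α (C * s) := fun U => by
    obtain h | h := isEmpty_or_nonempty U.1
    · exact ⟨0, fun y hy => (h.false ⟨y, hy⟩).elim⟩
    have hft := hY.ft U
    obtain ⟨P⟩ := hY.pres U
    have hT : IsClosed ((regOpen Y : Set Y)ᶜ) := (regOpen Y).isOpen.isClosed_compl
    let G : Set (PrimeSpectrum Γ(Y, U)) := {𝔭 | U.2.fromSpec 𝔭 ∈ regOpen Y}
    have hG : IsOpen G := (regOpen Y).isOpen.preimage U.2.fromSpec.continuous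
    have hreg : ∀ 𝔭 ∈ G, IsRegularLocalRing (Localization.AtPrime 𝔭.asIdeal) := by
      intro 𝔭 h𝔭
      obtain ⟨x, hx⟩ := sc3j_pt U 𝔭
      have h1 : U.2.fromSpec (U.2.primeIdealOf x) ∈ regOpen Y := by rw [hx]; exact h𝔭
      rw [U.2.fromSpec_primeIdealOf] at h1
      have := isRegular_of_mem h1
      obtain ⟨e⟩ := sc3k_equiv U x.2
      rw [← hx]
      exact IsRegularLocalRing.of_ringEquiv e.symm
    have hkt : RingHom.ker P.π ≠ ⊤ := RingHom.ker_ne_top P.π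
    have hfh := Ideal.height_ne_top hkt
    obtain ⟨c, hc⟩ := ENat.ne_top_iff_exists.1 hfh
    obtain ⟨C, hC⟩ := exists_pow_le_wJac hp P.π P.surj G hG hreg hc.le
    refine ⟨C, fun y hy V _ _ _ _ α s hs => ?_⟩
    obtain ⟨x, hx, hxs⟩ := hs
    rw [tIdl_eq_map hT U hy, Scheme.IdealSheafData.vanishingIdeal_ideal, Ideal.map] at hx
    obtain ⟨_, ⟨x', hx', rfl⟩, hxs'⟩ := exists_addVal_le α hx hxs
    let _ := Y.presheaf.algebra_section_stalk ⟨y, hy⟩
    have := U.2.isLocalization_stalk ⟨y, hy⟩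
    let e := IsLocalization.algEquiv (U.2.primeIdealOf ⟨y, hy⟩).asIdeal.primeCompl
      (Localization.AtPrime (U.2.primeIdealOf ⟨y, hy⟩).asIdeal) (Y.presheaf.stalk y)
    have h1 := potW_of_affine hp P.π P.surj hc.ge hC (U.2.primeIdealOf ⟨y, hy⟩).asIdeal
      (α.comp (e : _ →+* Y.presheaf.stalk y)) (x := x') hx' (s := s) (by
        refine le_trans (le_of_eq ?_) hxs'
        refine congrArg (fun z => addVal V (α z)) ?_
        exact e.commutes x')
    exact h1.congr e.toRingEquiv fun a => rfl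
  choose n hn using key
  obtain ⟨t, ht⟩ := isCompact_univ.elim_finite_subcover (fun U : Y.affineOpens => (U.1 : Set Y))
    (fun U => U.1.2) fun y _ => Set.mem_iUnion.2 (sc3h_exists y)
  refine ⟨∑ U ∈ t, n U, fun y V _ _ _ _ α s hs => ?_⟩
  obtain ⟨U, hU, hyU⟩ := Set.mem_iUnion₂.mp (ht (Set.mem_univ y))
  exact (hn U y hyU V α s hs).mono (Nat.mul_le_mul_right s
    (Finset.single_le_sum (fun _ _ => Nat.zero_le _) hU))
-- END W9a

-- BEGIN W9b
theorem Contact.mono {Y : Scheme.{0}} {y : Y} {V : Type} [CommRing V] [IsDomain V]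
    [IsDiscreteValuationRing V] {α : Y.presheaf.stalk y →+* V} {s s' : ℕ} (h : Contact α s)
    (hs : s ≤ s') : Contact α s' := by
  obtain ⟨x, hx, hxs⟩ := h
  exact ⟨x, hx, hxs.trans (by exact_mod_cast hs)⟩

/-- The contact with the singular locus does not increase under modifications. -/
theorem Contact.mod {Y' Y : Scheme.{0}} {β : Y' ⟶ Y} (h : IsMod β ((regOpen Y : Set Y)ᶜ)) {y' : Y'}
    {V : Type} [CommRing V] [IsDomain V] [IsDiscreteValuationRing V]
    {α : Y'.presheaf.stalk y' →+* V} {s : ℕ} (hs : Contact (α.comp (β.stalkMap y').hom) s) :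
    Contact α s := by
  obtain ⟨x, hx, hxs⟩ := hs
  refine ⟨(β.stalkMap y').hom x, ?_, hxs⟩
  rw [tIdl, PrimeSpectrum.mem_vanishingIdeal] at hx ⊢
  intro q hq
  have h1 : (Spec.map (β.stalkMap y') ≫ Y.fromSpecStalk (β y')) q =
      (Y'.fromSpecStalk y' ≫ β) q := by
    rw [Scheme.SpecMap_stalkMap_fromSpecStalk]
  have h2 : Spec.map (β.stalkMap y') q ∈ Y.fromSpecStalk (β y') ⁻¹' ((regOpen Y : Set Y)ᶜ) := by
    change (Y.fromSpecStalk (β y')) (Spec.map (β.stalkMap y') q) ∈ ((regOpen Y : Set Y)ᶜ)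
    rw [← Scheme.Hom.comp_apply, h1, Scheme.Hom.comp_apply]
    exact fun h' => hq (h.preimage_regOpen (regOpen Y).isOpen.isClosed_compl
      disjoint_compl_right h')
  exact hx _ h2
-- END W9b

-- BEGIN W9c
/-- Arcs of characteristic `p` with bounded contact can be moved into the regular locus. -/
theorem Nice.exists_resW {Y : Scheme.{0}} (hY : Nice Y) {p : ℕ} (hp : p.Prime) (s : ℕ) :
    ∃ (Y' : Scheme.{0}) (β : Y' ⟶ Y), Nice Y' ∧ IsMod β ((regOpen Y : Set Y)ᶜ) ∧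
      ∀ y' : Y', ∀ (V : Type) [CommRing V] [IsDomain V] [IsDiscreteValuationRing V] [CharP V p]
        (α : Y'.presheaf.stalk y' →+* V), IsLocalHom α →
        Contact (α.comp (β.stalkMap y').hom) s → y' ∈ regOpen Y' := by
  obtain ⟨C, hC⟩ := hY.exists_potW hp
  obtain ⟨a, ha, hb⟩ := hY.exists_bound
  have hT : IsClosed {y : Y | ¬ IsUnit ((a : ℕ) : Y.presheaf.stalk y)} := by
    rw [← isOpen_compl_iff]
    convert (Y.basicOpen (a : Γ(Y, ⊤))).2 using 1
    ext y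
    simp only [Set.mem_compl_iff, Set.mem_ofPred_eq, not_not, Opens.carrier_eq_coe, SetLike.mem_coe]
    rw [Y.mem_basicOpen_top, map_natCast]
  obtain ⟨Y', β, h1, h2, h3⟩ := claimW hp (C * s) Y hY _ hT fun z hz hc => hz (hc a ha)
  have h4 : IsMod β ((regOpen Y : Set Y)ᶜ) := h2.mono Set.inter_subset_right
  refine ⟨Y', β, h1, h4, fun y' V _ _ _ _ α hα hd => ?_⟩
  by_cases hy : IsUnit ((a : ℕ) : Y.presheaf.stalk (β y'))
  · exact h4.preimage_regOpen (regOpen Y).2.isClosed_compl disjoint_compl_right (hb _ hy)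
  · exact h3 y' hy V α hα (hC _ V _ _ hd)
-- END W9c

-- BEGIN W9d
/-- The same for finitely many primes. -/
theorem Nice.exists_resW_finset {Y : Scheme.{0}} (hY : Nice Y) (P : Finset ℕ)
    (hP : ∀ p ∈ P, p.Prime) (s : ℕ) :
    ∃ (Y' : Scheme.{0}) (β : Y' ⟶ Y), Nice Y' ∧ IsMod β ((regOpen Y : Set Y)ᶜ) ∧
      ∀ p ∈ P, ∀ y' : Y', ∀ (V : Type) [CommRing V] [IsDomain V] [IsDiscreteValuationRing V]
        [CharP V p] (α : Y'.presheaf.stalk y' →+* V), IsLocalHom α →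
        Contact (α.comp (β.stalkMap y').hom) s → y' ∈ regOpen Y' := by
  induction P using Finset.induction_on with
  | empty =>
    have := hY.int
    exact ⟨Y, 𝟙 Y, hY, IsMod.id Y _, fun p hp => absurd hp (Finset.notMem_empty p)⟩
  | insert q P hq ih =>
    obtain ⟨Y₁, β₁, hY₁, h₁, hg₁⟩ := ih fun p hp => hP p (Finset.mem_insert_of_mem hp)
    obtain ⟨Y₂, β₂, hY₂, h₂, hg₂⟩ := hY₁.exists_resW (hP q (Finset.mem_insert_self q P)) s
    refine ⟨Y₂, β₂ ≫ β₁, hY₂, h₁.comp (h₂.mono fun x hx hc => hx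
      (h₁.preimage_regOpen (regOpen Y).isOpen.isClosed_compl disjoint_compl_right hc)), ?_⟩
    intro p hp y' V _ _ _ _ α hα hs
    have hs' : Contact ((α.comp (β₂.stalkMap y').hom).comp (β₁.stalkMap (β₂ y')).hom) s := by
      have hc : (α.comp (β₂.stalkMap y').hom).comp (β₁.stalkMap (β₂ y')).hom =
          α.comp ((β₂ ≫ β₁).stalkMap y').hom :=
        congrArg (fun f => α.comp (CommRingCat.Hom.hom f)) (Scheme.Hom.stalkMap_comp β₂ β₁ y').symm
      rw [hc]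
      exact hs
    rcases Finset.mem_insert.1 hp with rfl | hp'
    · exact hg₂ y' V α hα (Contact.mod h₁ hs')
    · have hl : IsLocalHom (α.comp (β₂.stalkMap y').hom) := RingHom.isLocalHom_comp _ _
      exact h₂.preimage_regOpen (regOpen Y₁).isOpen.isClosed_compl disjoint_compl_right
        (hg₁ p hp' (β₂ y') V _ hl hs')
-- END W9d

-- BEGIN W9e
/-- **The step of the tower.** -/
theorem Nice.exists_resA {Y : Scheme.{0}} (hY : Nice Y) (s : ℕ) :
    ∃ (Y' : Scheme.{0}) (β : Y' ⟶ Y), Nice Y' ∧ IsMod β ((regOpen Y : Set Y)ᶜ) ∧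
      (∀ y' : Y', ∀ (V : Type) [CommRing V] [IsDomain V] [IsDiscreteValuationRing V] [CharZero V]
        (α : Y'.presheaf.stalk y' →+* V), IsLocalHom α →
        (∀ p : ℕ, p.Prime → addVal V (p : V) ≤ s) → y' ∈ regOpen Y') ∧
      ∀ p : ℕ, p.Prime → ∀ y' : Y', ∀ (V : Type) [CommRing V] [IsDomain V]
        [IsDiscreteValuationRing V] [CharP V p] (α : Y'.presheaf.stalk y' →+* V), IsLocalHom α →
        Contact (α.comp (β.stalkMap y').hom) s → y' ∈ regOpen Y' := by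
  obtain ⟨a, ha, hb⟩ := hY.exists_bound
  obtain ⟨Y₁, β₁, hY₁, h₁, hg₁⟩ := hY.exists_resW_finset a.primeFactors
    (fun p hp => Nat.prime_of_mem_primeFactors hp) s
  obtain ⟨Y₂, β₂, hY₂, h₂, hg₂⟩ := hY₁.exists_res s
  have h₃ : IsMod (β₂ ≫ β₁) ((regOpen Y : Set Y)ᶜ) := h₁.comp (h₂.mono fun x hx hc => hx
    (h₁.preimage_regOpen (regOpen Y).isOpen.isClosed_compl disjoint_compl_right hc))
  refine ⟨Y₂, β₂ ≫ β₁, hY₂, h₃, hg₂, ?_⟩
  intro p hp y' V _ _ _ _ α hα hs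
  by_cases hpa : p ∣ a
  · have hs' : Contact ((α.comp (β₂.stalkMap y').hom).comp (β₁.stalkMap (β₂ y')).hom) s := by
      have hc : (α.comp (β₂.stalkMap y').hom).comp (β₁.stalkMap (β₂ y')).hom =
          α.comp ((β₂ ≫ β₁).stalkMap y').hom :=
        congrArg (fun f => α.comp (CommRingCat.Hom.hom f)) (Scheme.Hom.stalkMap_comp β₂ β₁ y').symm
      rw [hc]
      exact hs
    have hl : IsLocalHom (α.comp (β₂.stalkMap y').hom) := RingHom.isLocalHom_comp _ _
    exact h₂.preimage_regOpen (regOpen Y₁).isOpen.isClosed_compl disjoint_compl_right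
      (hg₁ p (Nat.mem_primeFactors.2 ⟨hp, hpa, ha⟩) (β₂ y') V _ hl hs')
  · refine h₃.preimage_regOpen (regOpen Y).isOpen.isClosed_compl disjoint_compl_right (hb _ ?_)
    have hl : IsLocalHom (α.comp ((β₂ ≫ β₁).stalkMap y').hom) := RingHom.isLocalHom_comp _ _
    refine hl.map_nonunit _ ?_
    rw [map_natCast]
    obtain ⟨u, v, huv⟩ := ((Nat.Prime.coprime_iff_not_dvd hp).2 hpa).cast (R := V)
    rw [CharP.cast_eq_zero, mul_zero, zero_add] at huv
    exact isUnit_iff_exists_inv'.2 ⟨v, huv⟩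
-- END W9e

end Pool.Agent.Lib.MP_6a3dac_ag.NU
end

section

/-!
# NU: the tower for arcs of all characteristics
-/

set_option autoImplicit false

namespace Pool.Agent.Lib.MP_6a3dac_ag.NU

open CategoryTheory Limits AlgebraicGeometry TopologicalSpace IsLocalRing
open IsDiscreteValuationRing (addVal)

/-- A tower of modifications in which arcs of bounded ramification are good, and arcs of
characteristic `p` with bounded contact with the singular locus become good. -/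
structure ResTowerA (Y : Scheme.{0}) extends ResTower Y where
  goodW : ∀ (i : ℕ) (p : ℕ), p.Prime → ∀ (z : Z (i + 1)) (V : Type) [CommRing V] [IsDomain V]
    [IsDiscreteValuationRing V] [CharP V p] (α : (Z (i + 1)).presheaf.stalk z →+* V),
    IsLocalHom α → Contact (α.comp ((β i).stalkMap z).hom) i → z ∈ regOpen (Z (i + 1))

-- BEGIN W10a
/-- The tower exists. -/
theorem exists_resTowerA {Y : Scheme.{0}} (hY : Nice Y) : Nonempty (ResTowerA Y) := by
  choose Y' β hn hm hg hw using fun (p : {Z : Scheme.{0} // Nice Z}) (d : ℕ) => p.2.exists_resA d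
  have hs : ∀ (p : {p : Σ Z : Scheme.{0}, Z ⟶ Y // Nice p.1 ∧ IsMod p.2 ((regOpen Y : Set Y)ᶜ)})
      (i : ℕ), IsMod (β ⟨p.1.1, p.2.1⟩ (i + 1) ≫ p.1.2) ((regOpen Y : Set Y)ᶜ) := fun p i =>
    p.2.2.comp ((hm ⟨p.1.1, p.2.1⟩ (i + 1)).mono fun x hx hc => hx
      (p.2.2.preimage_regOpen (regOpen Y).isOpen.isClosed_compl disjoint_compl_right hc))
  let F : ℕ → {p : Σ Z : Scheme.{0}, Z ⟶ Y // Nice p.1 ∧ IsMod p.2 ((regOpen Y : Set Y)ᶜ)} :=
    fun i => Nat.rec ⟨⟨Y' ⟨Y, hY⟩ 0, β ⟨Y, hY⟩ 0⟩, hn _ _, hm _ _⟩ (fun i p =>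
      ⟨⟨Y' ⟨p.1.1, p.2.1⟩ (i + 1), β ⟨p.1.1, p.2.1⟩ (i + 1) ≫ p.1.2⟩, hn _ _, hs p i⟩) i
  refine ⟨⟨⟨fun i => (F i).1.1, fun i => (F i).1.2, fun i => β ⟨(F i).1.1, (F i).2.1⟩ (i + 1),
    fun i => rfl, fun i => (F i).2.1, fun i => (F i).2.2,
    fun i => hm ⟨(F i).1.1, (F i).2.1⟩ (i + 1), fun i => ?_⟩, fun i p hp z V _ _ _ _ α hα hs =>
      hw ⟨(F i).1.1, (F i).2.1⟩ (i + 1) p hp z V α hα (hs.mono i.le_succ)⟩⟩
  cases i with
  | zero => exact hg ⟨Y, hY⟩ 0
  | succ i => exact hg ⟨(F i).1.1, (F i).2.1⟩ (i + 1)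
-- END W10a

-- BEGIN W10b
/-- The union of the regular loci, with the transition maps. -/
theorem ResTower.exists_unionA {Y : Scheme.{0}} (T : ResTower Y) :
    ∃ (𝒰 : Scheme.{0}) (π : 𝒰 ⟶ Y) (ι : ∀ i, (regOpen (T.Z i)).toScheme ⟶ 𝒰), IsUnion T π ι ∧
      ∀ i, ∃ j : (regOpen (T.Z i)).toScheme ⟶ (regOpen (T.Z (i + 1))).toScheme,
        j ≫ ι (i + 1) = ι i ∧ j ≫ (regOpen (T.Z (i + 1))).ι ≫ T.β i = (regOpen (T.Z i)).ι := by
  choose j hj hjc using fun i => (T.mod i).exists_lift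
  obtain ⟨X, ι, hι, hcomm, hcov, hdesc⟩ :=
    exists_colimit (fun i => (regOpen (T.Z i)).toScheme) j hj
  obtain ⟨π, hπ⟩ := hdesc Y (fun i => (regOpen (T.Z i)).ι ≫ T.π i) fun i => by
    rw [← hjc i, ← T.comm i]
    simp only [Category.assoc]
  refine ⟨X, π, ι, ⟨hι, hπ, fun i => ?_, hcov⟩, fun i => ⟨j i, hcomm i, hjc i⟩⟩
  rintro _ ⟨x, rfl⟩
  exact ⟨j i x, by rw [← hcomm i]; rfl⟩
-- END W10b

-- BEGIN W10c
/-- An arc with generic point in the regular locus has finite contact. -/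
theorem exists_contact {Z : Scheme.{0}} {V K : Type} [CommRing V] [IsDomain V]
    [IsDiscreteValuationRing V] [Field K] [Algebra V K] [IsFractionRing V K]
    (a : Spec (CommRingCat.of V) ⟶ Z) (x : Spec (CommRingCat.of K) ⟶ (regOpen Z).toScheme)
    (hx : Spec.map (CommRingCat.ofHom (algebraMap V K)) ≫ a = x ≫ (regOpen Z).ι) :
    ∃ N : ℕ, Contact (Scheme.stalkClosedPointTo (R := .of V) a).hom N := by
  by_contra hcon
  have h0 : ∀ y ∈ tIdl ((regOpen Z : Set Z)ᶜ) (a (closedPoint V)),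
      (Scheme.stalkClosedPointTo (R := .of V) a).hom y = 0 := by
    intro y hy
    by_contra hne
    obtain ⟨N, hN⟩ := ENat.ne_top_iff_exists.1
      (mt IsDiscreteValuationRing.addVal_eq_top_iff.1 hne)
    exact hcon ⟨N, y, hy, hN.ge⟩
  let q : PrimeSpectrum (Z.presheaf.stalk (a (closedPoint V))) :=
    ⟨RingHom.ker (Scheme.stalkClosedPointTo (R := .of V) a).hom, RingHom.ker_isPrime _⟩
  have hcl : IsClosed (Z.fromSpecStalk (a (closedPoint V)) ⁻¹' ((regOpen Z : Set Z)ᶜ)) :=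
    (regOpen Z).isOpen.isClosed_compl.preimage (Scheme.Hom.continuous _)
  have hq : q ∈ (Z.fromSpecStalk (a (closedPoint V)) ⁻¹' ((regOpen Z : Set Z)ᶜ) :
      Set (PrimeSpectrum (Z.presheaf.stalk (a (closedPoint V))))) := by
    refine hcl.closure_eq.le ?_
    have h1 := PrimeSpectrum.zeroLocus_vanishingIdeal_eq_closure
      (Z.fromSpecStalk (a (closedPoint V)) ⁻¹' ((regOpen Z : Set Z)ᶜ) :
      Set (PrimeSpectrum (Z.presheaf.stalk (a (closedPoint V)))))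
    refine h1.le ?_
    intro y hy
    exact h0 y hy
  have hq' : Z.fromSpecStalk (a (closedPoint V)) q ∉ regOpen Z := hq
  refine hq' ?_
  have h2 : Spec.map (Scheme.stalkClosedPointTo (R := .of V) a)
      (Spec.map (CommRingCat.ofHom (algebraMap V K)) (closedPoint K)) = q := by
    refine PrimeSpectrum.ext (Ideal.ext fun y => ?_)
    change algebraMap V K ((Scheme.stalkClosedPointTo (R := .of V) a).hom y) ∈
      maximalIdeal K ↔ (Scheme.stalkClosedPointTo (R := .of V) a).hom y = 0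
    rw [IsLocalRing.maximalIdeal_eq_bot, Ideal.mem_bot]
    exact map_eq_zero_iff _ (IsFractionRing.injective V K)
  rw [← h2, ← Scheme.Hom.comp_apply (Spec.map (Scheme.stalkClosedPointTo (R := .of V) a))]
  have h3 := Scheme.Spec_stalkClosedPointTo_fromSpecStalk (R := .of V) a
  have h4 : (Spec.map (Scheme.stalkClosedPointTo (R := .of V) a) ≫
      Z.fromSpecStalk (a (closedPoint V))) = a := h3
  rw [h4, ← Scheme.Hom.comp_apply, hx]
  exact (x (closedPoint K)).2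
-- END W10c

-- BEGIN W10d
/-- Two arcs which agree at the generic point are equal. -/
theorem arc_ext {S Z : Scheme.{0}} (g : Z ⟶ S) (hg : IsSeparated g) {V K : Type} [CommRing V]
    [IsDomain V] [Field K] [Algebra V K] [IsFractionRing V K] (a b : Spec (CommRingCat.of V) ⟶ Z)
    (hab : Spec.map (CommRingCat.ofHom (algebraMap V K)) ≫ a =
      Spec.map (CommRingCat.ofHom (algebraMap V K)) ≫ b) (hg' : a ≫ g = b ≫ g) : a = b := by
  have hq : IsDominant (Spec.map (CommRingCat.ofHom (algebraMap V K))) :=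
    ⟨(PrimeSpectrum.denseRange_comap_iff_ker_le_nilRadical (algebraMap V K)).2 (by
      rw [(RingHom.injective_iff_ker_eq_bot _).1 (IsFractionRing.injective V K)]
      exact bot_le)⟩
  exact ext_of_isDominant_of_isSeparated g hg' _ hab

/-- **The valuative criterion for discrete valuation rings of characteristic `p`.** -/
theorem IsUnion.exists_liftW {Y : Scheme.{0}} {T : ResTowerA Y} {𝒰 : Scheme.{0}}
    {π : 𝒰 ⟶ Y} {ι : ∀ i, (regOpen (T.Z i)).toScheme ⟶ 𝒰} (h : IsUnion T.toResTower π ι)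
    (ht : ∀ i, ∃ j : (regOpen (T.Z i)).toScheme ⟶ (regOpen (T.Z (i + 1))).toScheme,
        j ≫ ι (i + 1) = ι i ∧ j ≫ (regOpen (T.Z (i + 1))).ι ≫ T.β i = (regOpen (T.Z i)).ι)
    {p : ℕ} (hp : p.Prime) {V K : Type} [CommRing V] [IsDomain V] [IsDiscreteValuationRing V]
    [CharP V p] [Field K] [Algebra V K] [IsFractionRing V K]
    (x : Spec (CommRingCat.of K) ⟶ 𝒰) (y : Spec (CommRingCat.of V) ⟶ Y)
    (hxy : x ≫ π = Spec.map (CommRingCat.ofHom (algebraMap V K)) ≫ y) :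
    ∃ l : Spec (CommRingCat.of V) ⟶ 𝒰,
      Spec.map (CommRingCat.ofHom (algebraMap V K)) ≫ l = x ∧ l ≫ π = y := by
  have himm := h.imm
  obtain ⟨i₀, hi₀⟩ := h.cover (x (closedPoint K))
  have hfac : Set.range x ⊆ Set.range (ι i₀) := by
    rintro _ ⟨t, rfl⟩
    have : t = closedPoint K := Subsingleton.elim _ _
    rw [this]
    exact hi₀
  have hex : ∀ (i : ℕ) (xi : Spec (CommRingCat.of K) ⟶ (regOpen (T.Z i)).toScheme),
      xi ≫ ι i = x → ∃ a : Spec (CommRingCat.of V) ⟶ T.Z i,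
        Spec.map (CommRingCat.ofHom (algebraMap V K)) ≫ a = xi ≫ (regOpen (T.Z i)).ι ∧
        a ≫ T.π i = y := by
    intro i xi hxi
    have hpr := (T.modY i).proper
    rw [IsProper.eq_valuativeCriterion] at hpr
    obtain ⟨⟨a, ha1, ha2⟩⟩ := (hpr.1.1.1.existence
      ⟨V, K, xi ≫ (regOpen (T.Z i)).ι, y, ⟨by rw [← hxy, ← hxi, Category.assoc, Category.assoc,
        h.comm]⟩⟩).exists_lift
    exact ⟨a, ha1, ha2⟩
  obtain ⟨N, hN⟩ : ∃ N : ℕ, ∀ k : ℕ, ∃ (xi : Spec (CommRingCat.of K) ⟶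
      (regOpen (T.Z (i₀ + k))).toScheme) (a : Spec (CommRingCat.of V) ⟶ T.Z (i₀ + k)),
      xi ≫ ι (i₀ + k) = x ∧
      Spec.map (CommRingCat.ofHom (algebraMap V K)) ≫ a = xi ≫ (regOpen (T.Z (i₀ + k))).ι ∧
      a ≫ T.π (i₀ + k) = y ∧ Contact (Scheme.stalkClosedPointTo (R := .of V) a).hom N := by
    have hx0 : IsOpenImmersion.lift (ι i₀) x hfac ≫ ι i₀ = x := IsOpenImmersion.lift_fac _ _ _
    obtain ⟨a, ha1, ha2⟩ := hex i₀ _ hx0
    obtain ⟨N, hN⟩ := exists_contact a _ ha1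
    refine ⟨N, fun k => ?_⟩
    induction k with
    | zero => exact ⟨_, a, hx0, ha1, ha2, hN⟩
    | succ k ih =>
      obtain ⟨xi, a, hxi, ha1, ha2, hc⟩ := ih
      obtain ⟨j, hj1, hj2⟩ := ht (i₀ + k)
      have hxj : (xi ≫ j) ≫ ι (i₀ + k + 1) = x := by rw [Category.assoc, hj1, hxi]
      obtain ⟨a', ha1', ha2'⟩ := hex _ _ hxj
      have hpr := (T.modY (i₀ + k)).proper
      have e : a' ≫ T.β (i₀ + k) = a := by
        refine arc_ext (K := K) (T.π (i₀ + k)) inferInstance _ _ ?_ ?_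
        · rw [← Category.assoc, ha1', ha1, Category.assoc, Category.assoc, hj2]
        · rw [Category.assoc, T.comm, ha2', ha2]
      subst e
      refine ⟨xi ≫ j, a', hxj, ha1', ha2', ?_⟩
      rw [Scheme.stalkClosedPointTo_comp] at hc
      exact Contact.mod (T.mod _) hc
  obtain ⟨xi, a, hxi, ha1, ha2, hc⟩ := hN N
  obtain ⟨j, hj1, hj2⟩ := ht (i₀ + N)
  have hxj : (xi ≫ j) ≫ ι (i₀ + N + 1) = x := by rw [Category.assoc, hj1, hxi]
  obtain ⟨a', ha1', ha2'⟩ := hex _ _ hxj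
  have hpr := (T.modY (i₀ + N)).proper
  have e : a' ≫ T.β (i₀ + N) = a := by
    refine arc_ext (K := K) (T.π (i₀ + N)) inferInstance _ _ ?_ ?_
    · rw [← Category.assoc, ha1', ha1, Category.assoc, Category.assoc, hj2]
    · rw [Category.assoc, T.comm, ha2', ha2]
  subst e
  have hmem : a' (closedPoint V) ∈ regOpen (T.Z (i₀ + N + 1)) := by
    rw [Scheme.stalkClosedPointTo_comp] at hc
    exact T.goodW (i₀ + N) p hp _ V (Scheme.stalkClosedPointTo (R := .of V) a').hom inferInstance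
      (hc.mono (Nat.le_add_left N i₀))
  obtain ⟨b, rfl⟩ := exists_factor _ a' hmem
  refine ⟨b ≫ ι (i₀ + N + 1), ?_, ?_⟩
  · rw [← hxj, ← Category.assoc]
    refine congrArg (fun f => f ≫ ι (i₀ + N + 1)) ?_
    rw [← cancel_mono (regOpen (T.Z (i₀ + N + 1))).ι, Category.assoc]
    exact ha1'
  · rw [Category.assoc, h.comm, ← Category.assoc]
    exact ha2'
-- END W10d

end Pool.Agent.Lib.MP_6a3dac_ag.NU
end
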