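import Pool.Agent.Lib.MP_6a3dac_ag.Mg.G054
import Pool.Agent.Lib.MP_6a3dac_ag.NU.WStmt
import Pool.Agent.Lib.MP_6a3dac_ag.Mg.G057
import Pool.Agent.Lib.MP_6a3dac_ag.Mg.G051

section

/-!
# NU: points over integral extensions of Dedekind domains
-/

set_option autoImplicit false

namespace Pool.Agent.Lib.MP_6a3dac_ag.NU

open CategoryTheory Limits AlgebraicGeometry TopologicalSpace IsLocalRing NumberField

theorem intg_field (R K₀ K : Type) [CommRing R] [Algebra.FiniteType ℤ R] [Field K₀] [Field K]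
    [Algebra K₀ K] [Algebra.IsAlgebraic K₀ K] (φ : R →+* K) :
    ∃ (L : IntermediateField K₀ K) (φ' : R →+* L), FiniteDimensional K₀ L ∧
      (L.val : L →+* K).comp φ' = φ := by
  obtain ⟨s, hs⟩ := ‹Algebra.FiniteType ℤ R›.out
  let L := IntermediateField.adjoin K₀ (φ '' (s : Set R))
  have hfin : FiniteDimensional K₀ L :=
    IntermediateField.finiteDimensional_adjoin fun x _ => (Algebra.IsAlgebraic.isAlgebraic x).isIntegral
  have hmem : ∀ r : R, φ r ∈ L := by
    intro r
    have hr : r ∈ Algebra.adjoin ℤ (s : Set R) := hs ▸ trivial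
    induction hr using Algebra.adjoin_induction with
    | mem x hx => exact IntermediateField.subset_adjoin K₀ _ ⟨x, hx, rfl⟩
    | algebraMap n =>
      rw [eq_intCast, map_intCast]
      exact intCast_mem L n
    | add x y _ _ hx hy => rw [map_add]; exact add_mem hx hy
    | mul x y _ _ hx hy => rw [map_mul]; exact mul_mem hx hy
  exact ⟨L, φ.codRestrict L.toSubfield hmem, hfin, rfl⟩

/-- A point over an algebraic extension is defined over a finite extension. -/
theorem exists_finite_field {𝒰 : Scheme.{0}}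
    (hft : ∀ U : 𝒰.affineOpens, Algebra.FiniteType ℤ Γ(𝒰, U)) (K₀ : Type) {K : Type} [Field K₀]
    [Field K] [Algebra K₀ K] [Algebra.IsAlgebraic K₀ K] (x : Spec (CommRingCat.of K) ⟶ 𝒰) :
    ∃ (L : IntermediateField K₀ K) (x₀ : Spec (CommRingCat.of L) ⟶ 𝒰), FiniteDimensional K₀ L ∧
      Spec.map (CommRingCat.ofHom (L.val : L →+* K)) ≫ x₀ = x := by
  obtain ⟨U, hU⟩ := sc3h_exists (x (closedPoint K))
  obtain ⟨b, hb⟩ := exists_factor U.1 x hU
  have := hft U
  obtain ⟨φ, hφ⟩ := Spec.map_surjective (b ≫ U.2.isoSpec.hom)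
  obtain ⟨L, φ', hfin, hL⟩ := intg_field Γ(𝒰, U) K₀ K φ.hom
  refine ⟨L, Spec.map (CommRingCat.ofHom φ') ≫ U.2.isoSpec.inv ≫ U.1.ι, hfin, ?_⟩
  rw [← Spec.map_comp_assoc, ← CommRingCat.ofHom_comp, hL, CommRingCat.ofHom_hom, hφ,
    Category.assoc, Iso.hom_inv_id_assoc, hb]

/-- **Points over integral extensions of Dedekind domains.** -/
theorem exists_integral_points {E : Type} [Field E] [NumberField E] {𝒰 : Scheme.{0}}
    (g : 𝒰 ⟶ Spec (CommRingCat.of (𝓞 E))) (hg : IsSeparated g)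
    (hft : ∀ U : 𝒰.affineOpens, Algebra.FiniteType ℤ Γ(𝒰, U))
    (hded : ∀ (D K : Type) [CommRing D] [IsDedekindDomain D] [CharZero D] [Field K]
      [Algebra D K] [IsFractionRing D K]
      (s : Spec (CommRingCat.of D) ⟶ Spec (CommRingCat.of (𝓞 E)))
      (x : Spec (CommRingCat.of K) ⟶ 𝒰), x ≫ g = fracPt D K ≫ s →
      ∃ l : Spec (CommRingCat.of D) ⟶ 𝒰, fracPt D K ≫ l = x ∧ l ≫ g = s)
    {D₀ D K : Type} [CommRing D₀] [IsDedekindDomain D₀] [CharZero D₀] [CommRing D] [IsDomain D]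
    [IsIntegrallyClosed D] [Algebra D₀ D] [FaithfulSMul D₀ D] [Algebra.IsIntegral D₀ D] [Field K]
    [Algebra D K] [IsFractionRing D K]
    (s : Spec (CommRingCat.of D) ⟶ Spec (CommRingCat.of (𝓞 E)))
    (x : Spec (CommRingCat.of K) ⟶ 𝒰) (hx : x ≫ g = fracPt D K ≫ s) :
    ∃! l : Spec (CommRingCat.of D) ⟶ 𝒰, fracPt D K ≫ l = x ∧ l ≫ g = s := by
  let K₀ := FractionRing D₀
  let : Algebra D₀ K := ((algebraMap D K).comp (algebraMap D₀ D)).toAlgebra
  have : IsScalarTower D₀ D K := IsScalarTower.of_algebraMap_eq' rfl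
  have hinj : Function.Injective (algebraMap D₀ K) :=
    (IsFractionRing.injective D K).comp (FaithfulSMul.algebraMap_injective D₀ D)
  have : FaithfulSMul D₀ K := (faithfulSMul_iff_algebraMap_injective D₀ K).2 hinj
  let : Algebra K₀ K := FractionRing.liftAlgebra D₀ K
  have : IsScalarTower D₀ K₀ K := inferInstance
  have : CharZero K₀ := charZero_of_injective_algebraMap (IsFractionRing.injective D₀ K₀)
  have halg : Algebra.IsAlgebraic K₀ K := by
    refine ⟨fun z => ?_⟩
    obtain ⟨a, b, -, rfl⟩ := IsFractionRing.div_surjective (A := D) z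
    have h1 (c : D) : IsAlgebraic K₀ (algebraMap D K c) :=
      (((Algebra.IsIntegral.isIntegral (R := D₀) c).map (IsScalarTower.toAlgHom D₀ D K)).tower_top
        (A := K₀)).isAlgebraic
    rw [div_eq_mul_inv]
    exact (h1 a).mul (h1 b).inv
  obtain ⟨L, x₀, hfin, rfl⟩ := exists_finite_field hft K₀ x
  let D' := integralClosure D₀ L
  have : IsDedekindDomain D' := integralClosure.isDedekindDomain D₀ K₀ L
  have : IsFractionRing D' L := integralClosure.isFractionRing_of_finite_extension K₀ L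
  have : CharZero L := charZero_of_injective_algebraMap (algebraMap K₀ L).injective
  have : CharZero D' := ⟨fun m n hmn => by
    have := congrArg (algebraMap D' L) hmn
    rwa [map_natCast, map_natCast, Nat.cast_inj] at this⟩
  have hdom : IsDominant (fracPt D K) :=
    ⟨(PrimeSpectrum.denseRange_comap_iff_ker_le_nilRadical (algebraMap D K)).2
      (((RingHom.injective_iff_ker_eq_bot _).1 (IsFractionRing.injective D K)).trans_le bot_le)⟩
  obtain ⟨ρ, hρ⟩ := Spec.map_surjective (x₀ ≫ g)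
  obtain ⟨σ, rfl⟩ := Spec.map_surjective s
  let ρ' : 𝓞 E →+* D' := ρ.hom.codRestrict D' fun a =>
    (map_isIntegral_int ρ.hom (RingOfIntegers.isIntegral a)).tower_top
  have e1 : x₀ ≫ g = fracPt D' L ≫ Spec.map (CommRingCat.ofHom ρ') := by
    rw [← hρ, ← Spec.map_comp]
    rfl
  obtain ⟨l₀, h1, h2⟩ := hded D' L (Spec.map (CommRingCat.ofHom ρ')) x₀ e1
  have : IsScalarTower D₀ L K := IsScalarTower.of_algebraMap_eq fun _ => rfl
  have hint (a : D') : IsIntegral D ((a : L) : K) :=
    ((show IsIntegral D₀ (a : L) from a.2).map (IsScalarTower.toAlgHom D₀ L K)).tower_top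
  let τ : D' →+* D :=
    { toFun := fun a => IsIntegralClosure.mk' D ((a : L) : K) (hint a)
      map_one' := IsFractionRing.injective D K (by rw [IsIntegralClosure.algebraMap_mk', map_one]; rfl)
      map_mul' := fun a b => IsFractionRing.injective D K (by
        rw [map_mul]; simp only [IsIntegralClosure.algebraMap_mk']; rfl)
      map_zero' := IsFractionRing.injective D K (by rw [IsIntegralClosure.algebraMap_mk', map_zero]; rfl)
      map_add' := fun a b => IsFractionRing.injective D K (by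
        rw [map_add]; simp only [IsIntegralClosure.algebraMap_mk']; rfl) }
  have hτ (a : D') : algebraMap D K (τ a) = ((a : L) : K) :=
    IsIntegralClosure.algebraMap_mk' D _ (hint a)
  have e2 : fracPt D K ≫ Spec.map (CommRingCat.ofHom τ) =
      Spec.map (CommRingCat.ofHom (L.val : L →+* K)) ≫ fracPt D' L := by
    rw [← Spec.map_comp, ← Spec.map_comp]
    refine congrArg Spec.map ?_
    ext a
    exact hτ a
  have e3 : (Spec.map (CommRingCat.ofHom τ) ≫ l₀) ≫ g = Spec.map σ := by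
    rw [Category.assoc, h2, ← Spec.map_comp]
    refine congrArg Spec.map ?_
    rw [Category.assoc, e1, ← Category.assoc, ← e2, Category.assoc, ← Spec.map_comp,
      ← Spec.map_comp, ← Spec.map_comp] at hx
    have h3 := Spec.map_injective hx
    ext a
    exact IsFractionRing.injective D K
      (congrArg (fun f : CommRingCat.of (𝓞 E) ⟶ CommRingCat.of K => f.hom a) h3)
  have e4 : fracPt D K ≫ Spec.map (CommRingCat.ofHom τ) ≫ l₀ =
      Spec.map (CommRingCat.ofHom (L.val : L →+* K)) ≫ x₀ := by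
    rw [reassoc_of% e2, h1]
  exact ⟨_, ⟨e4, e3⟩, fun l hl => ext_of_isDominant_of_isSeparated g (hl.2.trans e3.symm)
    (fracPt D K) (hl.1.trans e4.symm)⟩

end Pool.Agent.Lib.MP_6a3dac_ag.NU
end

section

/-!
# NU: the valuative criterion for locally discrete valuation rings
-/

set_option autoImplicit false

namespace Pool.Agent.Lib.MP_6a3dac_ag.NU

open CategoryTheory Limits AlgebraicGeometry TopologicalSpace IsLocalRing NumberField

/-- `R ∩ L` for a subfield `L` of `K`. -/
abbrev cutRing (R : Type) {K : Type} [CommRing R] [Field K] [Algebra R K] (L : Subfield K) :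
    Subring R :=
  L.toSubring.comap (algebraMap R K)

/-- The inclusion of `R ∩ L` in `L`. -/
def cutHom (R : Type) {K : Type} [CommRing R] [Field K] [Algebra R K] (L : Subfield K) :
    cutRing R L →+* L :=
  ((algebraMap R K).comp (cutRing R L).subtype).codRestrict L fun r => r.2

theorem cutHom_subtype (R : Type) {K : Type} [CommRing R] [Field K] [Algebra R K]
    (L : Subfield K) :
    L.subtype.comp (cutHom R L) = (algebraMap R K).comp (cutRing R L).subtype := rfl

theorem cut_mem {R K : Type} [CommRing R] [IsDomain R] [ValuationRing R] [Field K] [Algebra R K]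
    [IsFractionRing R K] (L : Subfield K) (x : L) :
    (∃ r : cutRing R L, cutHom R L r = x) ∨ ∃ r : cutRing R L, r ≠ 0 ∧ cutHom R L r = x⁻¹ := by
  rcases ValuationRing.isInteger_or_isInteger R (x : K) with ⟨r, hr⟩ | ⟨r, hr⟩
  · exact .inl ⟨⟨r, by rw [Subring.mem_comap, hr]; exact x.2⟩, Subtype.ext hr⟩
  · rcases eq_or_ne x 0 with rfl | hx
    · exact .inl ⟨0, map_zero _⟩
    · refine .inr ⟨⟨r, by rw [Subring.mem_comap, hr]; exact L.inv_mem x.2⟩, fun h0 => ?_,
        Subtype.ext hr⟩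
      have h1 : r = 0 := congrArg Subtype.val h0
      rw [h1, map_zero] at hr
      exact hx (Subtype.ext (inv_eq_zero.1 hr.symm))

theorem cutHom_injective {R K : Type} [CommRing R] [IsDomain R] [Field K] [Algebra R K]
    [IsFractionRing R K] (L : Subfield K) : Function.Injective (cutHom R L) := by
  intro a b h
  exact Subtype.ext (IsFractionRing.injective R K (congrArg Subtype.val h))

theorem cut_isFractionRing {R K : Type} [CommRing R] [IsDomain R] [ValuationRing R] [Field K]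
    [Algebra R K] [IsFractionRing R K] (L : Subfield K) :
    @IsFractionRing (cutRing R L) _ L _ (cutHom R L).toAlgebra := by
  let := (cutHom R L).toAlgebra
  have hinj := cutHom_injective (R := R) L
  have : FaithfulSMul (cutRing R L) L := (faithfulSMul_iff_algebraMap_injective _ _).2 hinj
  refine IsFractionRing.of_field _ _ fun x => ?_
  rcases cut_mem (R := R) L x with ⟨r, hr⟩ | ⟨r, hr0, hr⟩
  · exact ⟨r, 1, by rw [map_one, div_one]; exact hr.symm⟩
  · exact ⟨1, r, by rw [map_one, one_div]; exact (by rw [← inv_inv x, ← hr]; rfl)⟩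

theorem cut_valuationRing {R K : Type} [CommRing R] [IsDomain R] [ValuationRing R] [Field K]
    [Algebra R K] [IsFractionRing R K] (L : Subfield K) : ValuationRing (cutRing R L) := by
  let := (cutHom R L).toAlgebra
  have := cut_isFractionRing (R := R) L
  refine (ValuationRing.iff_isInteger_or_isInteger (cutRing R L) L).2 fun x => ?_
  rcases cut_mem (R := R) L x with ⟨r, hr⟩ | ⟨r, -, hr⟩
  · exact .inl ⟨r, hr⟩
  · exact .inr ⟨r, hr⟩

theorem loc_ring (R K : Type) [CommRing R] [Algebra.FiniteType ℤ R] [Field K] (φ : R →+* K) :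
    ∃ (s : Finset K) (φ' : R →+* Subfield.closure (s : Set K)),
      (Subfield.closure (s : Set K)).subtype.comp φ' = φ := by
  classical
  obtain ⟨s, hs⟩ := ‹Algebra.FiniteType ℤ R›.out
  have hmem : ∀ r : R, φ r ∈ Subfield.closure ((s.image φ : Finset K) : Set K) := by
    intro r
    have hr : r ∈ Algebra.adjoin ℤ (s : Set R) := hs ▸ trivial
    induction hr using Algebra.adjoin_induction with
    | mem x hx => exact Subfield.subset_closure (Finset.mem_coe.2 (Finset.mem_image_of_mem φ hx))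
    | algebraMap n =>
      rw [eq_intCast, map_intCast]
      exact intCast_mem _ n
    | add x y _ _ hx hy => rw [map_add]; exact add_mem hx hy
    | mul x y _ _ hx hy => rw [map_mul]; exact mul_mem hx hy
  exact ⟨s.image φ, φ.codRestrict (Subfield.closure ((s.image φ : Finset K) : Set K)) hmem, rfl⟩

/-- The affine open subschemes of a scheme locally of finite type over `𝓞 E`. -/
theorem finiteType_of_model {E : Type} [Field E] [NumberField E] {𝒰 : Scheme.{0}}
    (g : 𝒰 ⟶ Spec (CommRingCat.of (𝓞 E))) (hg : LocallyOfFiniteType g) :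
    ∀ U : 𝒰.affineOpens, Algebra.FiniteType ℤ Γ(𝒰, U) := by
  rw [ft_iff, ← specZIsTerminal.hom_ext (g ≫ specZIsTerminal.from _) (specZIsTerminal.from 𝒰)]
  have h1 : LocallyOfFiniteType (specZIsTerminal.from (Spec (CommRingCat.of (𝓞 E)))) := by
    have h2 : specZIsTerminal.from (Spec (CommRingCat.of (𝓞 E))) =
        Spec.map (CommRingCat.ofHom (algebraMap ℤ (𝓞 E))) := specZIsTerminal.hom_ext _ _
    rw [h2, HasRingHomProperty.Spec_iff (P := @LocallyOfFiniteType)]
    rw [CommRingCat.hom_ofHom, RingHom.finiteType_algebraMap]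
    infer_instance
  infer_instance

/-- A point over a field is defined over a finitely generated subfield. -/
theorem exists_fg_field {𝒰 : Scheme.{0}} (hft : ∀ U : 𝒰.affineOpens, Algebra.FiniteType ℤ Γ(𝒰, U))
    {K : Type} [Field K] (x : Spec (CommRingCat.of K) ⟶ 𝒰) :
    ∃ (s : Finset K) (x₀ : Spec (CommRingCat.of (Subfield.closure (s : Set K))) ⟶ 𝒰),
      Spec.map (CommRingCat.ofHom (Subfield.closure (s : Set K)).subtype) ≫ x₀ = x := by
  obtain ⟨U, hU⟩ := sc3h_exists (x (closedPoint K))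
  obtain ⟨b, hb⟩ := exists_factor U.1 x hU
  have := hft U
  obtain ⟨φ, hφ⟩ := Spec.map_surjective (b ≫ U.2.isoSpec.hom)
  obtain ⟨s, φ', hL⟩ := loc_ring Γ(𝒰, U) K φ.hom
  refine ⟨s, Spec.map (CommRingCat.ofHom φ') ≫ U.2.isoSpec.inv ≫ U.1.ι, ?_⟩
  rw [← Spec.map_comp_assoc, ← CommRingCat.ofHom_comp, hL, CommRingCat.ofHom_hom, hφ,
    Category.assoc, Iso.hom_inv_id_assoc, hb]

/-- The center of a point over a local ring with a local homomorphism to a discrete valuation ring
is good. -/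
theorem ResTower.closedPoint_mem_of_local {Y : Scheme.{0}} (T : ResTower Y) (i : ℕ) {R V : Type}
    [CommRing R] [IsLocalRing R] [CommRing V] [IsDomain V] [IsDiscreteValuationRing V] [CharZero V]
    (φ : R →+* V) [IsLocalHom φ] (a : Spec (CommRingCat.of R) ⟶ T.Z i) (hV : RamLE V i) :
    a (closedPoint R) ∈ regOpen (T.Z i) := by
  have h1 := T.closedPoint_mem i (Spec.map (CommRingCat.ofHom φ) ≫ a) hV
  have h2 : Spec.map (CommRingCat.ofHom φ) (closedPoint V) = closedPoint R :=
    IsLocalRing.comap_closedPoint φ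
  rwa [Scheme.Hom.comp_apply, h2] at h1

/-- **The valuative criterion** for valuation rings with a local homomorphism to a discrete
valuation ring. -/
theorem IsUnion.exists_lift_of_local {Y : Scheme.{0}} (hY : Nice Y) {T : ResTower Y}
    {𝒰 : Scheme.{0}} {π : 𝒰 ⟶ Y} {ι : ∀ i, (regOpen (T.Z i)).toScheme ⟶ 𝒰} (h : IsUnion T π ι)
    (d : ℕ) {R K V : Type} [CommRing R] [IsDomain R] [ValuationRing R] [Field K] [Algebra R K]
    [IsFractionRing R K] [CommRing V] [IsDomain V] [IsDiscreteValuationRing V] [CharZero V]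
    (φ : R →+* V) [IsLocalHom φ] (hV : RamLE V d)
    (x : Spec (CommRingCat.of K) ⟶ 𝒰) (y : Spec (CommRingCat.of R) ⟶ Y)
    (hxy : x ≫ π = Spec.map (CommRingCat.ofHom (algebraMap R K)) ≫ y) :
    ∃ b : Spec (CommRingCat.of R) ⟶ (regOpen (T.Z d)).toScheme,
      Spec.map (CommRingCat.ofHom (algebraMap R K)) ≫ b ≫ ι d = x ∧ (b ≫ ι d) ≫ π = y := by
  have hR : CharZero R := ⟨fun m n hmn => by
    have := congrArg φ hmn
    rwa [map_natCast, map_natCast, Nat.cast_inj] at this⟩
  have : CharZero K := charZero_of_injective_algebraMap (IsFractionRing.injective R K)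
  obtain ⟨xd, hxd⟩ := (T.modY d).exists_field_lift hY (x ≫ π)
  have hp := (T.modY d).proper
  rw [IsProper.eq_valuativeCriterion] at hp
  obtain ⟨⟨a, ha1, ha2⟩⟩ := (hp.1.1.1.existence
    ⟨R, K, xd, y, ⟨by rw [hxd, hxy]⟩⟩).exists_lift
  obtain ⟨b, rfl⟩ := exists_factor _ a (T.closedPoint_mem_of_local d φ a hV)
  have h1 : (b ≫ ι d) ≫ π = y := by
    rw [Category.assoc, h.comm, ← Category.assoc]
    exact ha2
  refine ⟨b, h.eq_of_field hY _ _ ?_, h1⟩
  rw [Category.assoc, h1, hxy]

/-- The valuative criterion for points which are defined over a subfield. -/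
theorem IsUnion.valuative_cut {Y : Scheme.{0}} (hY : Nice Y) {T : ResTower Y}
    {𝒰 : Scheme.{0}} {π : 𝒰 ⟶ Y} {ι : ∀ i, (regOpen (T.Z i)).toScheme ⟶ 𝒰} (h : IsUnion T π ι)
    {O : Type} [CommRing O] (g : Y ⟶ Spec (CommRingCat.of O)) (hg : IsProper g)
    (S : ValuativeCommSq (π ≫ g)) (L : Subfield S.K) (x₀ : Spec (CommRingCat.of L) ⟶ 𝒰)
    (hx₀ : Spec.map (CommRingCat.ofHom L.subtype) ≫ x₀ = S.i₁)
    (hS : HasDiscretePoint (cutRing S.R L)) :
    Nonempty (Unique S.commSq.LiftStruct) := by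
  have := h.isSeparated
  let := (cutHom S.R L).toAlgebra
  have hfr := cut_isFractionRing (R := S.R) L
  have hvr := cut_valuationRing (R := S.R) L
  obtain ⟨V, _, _, _, φ, _, _⟩ := hS
  obtain ⟨ρ, hρ⟩ := Spec.map_surjective (x₀ ≫ π ≫ g)
  obtain ⟨σ, hσ⟩ := Spec.map_surjective S.i₂
  have e0 : ∀ o : O, algebraMap S.R S.K (σ.hom o) = (ρ.hom o : S.K) := by
    intro o
    have h1 := S.commSq.w
    rw [← hx₀, ← hσ, Category.assoc, ← hρ, ← Spec.map_comp, ← Spec.map_comp] at h1
    exact (congrArg (fun f : CommRingCat.of O ⟶ CommRingCat.of S.K => f.hom o)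
      (Spec.map_injective h1)).symm
  let σ' : O →+* cutRing S.R L := σ.hom.codRestrict (cutRing S.R L) fun o => by
    rw [Subring.mem_comap, e0]
    exact (ρ.hom o).2
  have e1 : x₀ ≫ π ≫ g = Spec.map (CommRingCat.ofHom (algebraMap (cutRing S.R L) L)) ≫
      Spec.map (CommRingCat.ofHom σ') := by
    rw [← hρ, ← Spec.map_comp]
    refine congrArg Spec.map ?_
    ext o
    exact (e0 o).symm
  have hp := hg
  rw [IsProper.eq_valuativeCriterion] at hp
  obtain ⟨⟨y, hy1, hy2⟩⟩ := (hp.1.1.1.existence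
    ⟨cutRing S.R L, L, x₀ ≫ π, Spec.map (CommRingCat.ofHom σ'),
      ⟨by rw [Category.assoc, e1]⟩⟩).exists_lift
  obtain ⟨d, hd⟩ := exists_ramification_bound V
  obtain ⟨b, hb1, hb2⟩ := h.exists_lift_of_local hY d φ hd x₀ y hy1.symm
  have := IsSeparated.valuativeCriterion (π ≫ g) S
  refine ⟨⟨⟨Spec.map (CommRingCat.ofHom (cutRing S.R L).subtype) ≫ b ≫ ι d, ?_, ?_⟩⟩,
    fun l => Subsingleton.elim _ _⟩
  · rw [← hx₀, ← hb1, ← Spec.map_comp_assoc, ← Spec.map_comp_assoc]
    rfl
  · rw [← hσ, Category.assoc, ← Category.assoc (b ≫ ι d), hb2]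
    change _ ≫ y ≫ g = _
    rw [hy2]
    change _ ≫ Spec.map (CommRingCat.ofHom σ') = _
    rw [← Spec.map_comp]
    rfl

/-- The valuative criterion for locally discrete valuation rings. -/
theorem IsUnion.valuative_locallyDiscrete {Y : Scheme.{0}} (hY : Nice Y) {T : ResTower Y}
    {𝒰 : Scheme.{0}} {π : 𝒰 ⟶ Y} {ι : ∀ i, (regOpen (T.Z i)).toScheme ⟶ 𝒰} (h : IsUnion T π ι)
    (hft : ∀ U : 𝒰.affineOpens, Algebra.FiniteType ℤ Γ(𝒰, U)) {O : Type} [CommRing O]
    (g : Y ⟶ Spec (CommRingCat.of O)) (hg : IsProper g) (S : ValuativeCommSq (π ≫ g))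
    (hS : LocallyDiscrete S.R S.K) : Nonempty (Unique S.commSq.LiftStruct) := by
  obtain ⟨s, x₀, hx₀⟩ := exists_fg_field hft S.i₁
  exact h.valuative_cut hY g hg S _ x₀ hx₀ (hS s)

end Pool.Agent.Lib.MP_6a3dac_ag.NU
end

section

/-!
# NU: the main theorem
-/

set_option autoImplicit false

namespace Pool.Agent.Lib.MP_6a3dac_ag.NU

open CategoryTheory Limits AlgebraicGeometry TopologicalSpace IsLocalRing NumberField

-- BEGIN FINa
theorem fina_inj {X Y : Scheme.{0}} (f : X ⟶ Y) (W : Y.Opens) (hf : IsIso (f ∣_ W)) {a b : X}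
    (ha : f a ∈ W) (hab : f a = f b) : a = b := by
  have hb : f b ∈ W := hab ▸ ha
  have h1 : (f ∣_ W) (⟨a, ha⟩ : (f ⁻¹ᵁ W)) = (f ∣_ W) (⟨b, hb⟩ : (f ⁻¹ᵁ W)) := by
    refine Subtype.ext ?_
    rw [morphismRestrict_base_coe, morphismRestrict_base_coe]
    exact hab
  exact congrArg Subtype.val ((f ∣_ W).isOpenEmbedding.injective h1)

/-- PROOF.  `π u` is of characteristic zero (`CharZ.map`), so in `regOpen Y` (`Nice.mem_regOpen`).  By
`IsMod.exists_preimage` `π u = T.π d z`; `z ∈ regOpen (T.Z d)` (`IsMod.preimage_regOpen`), and `ι d z` and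
`u` have the same image `π u ∈ regOpen Y` (`h.comm`), over which `π` is an isomorphism (`h.isIso`), hence
injective.  So `u = ι d z`. -/
theorem IsUnion.mem_range {Y : Scheme.{0}} (hY : Nice Y) {T : ResTower Y} {𝒰 : Scheme.{0}}
    {π : 𝒰 ⟶ Y} {ι : ∀ i, (regOpen (T.Z i)).toScheme ⟶ 𝒰} (h : IsUnion T π ι) {u : 𝒰}
    (hu : CharZ 𝒰 u) (d : ℕ) : u ∈ Set.range (ι d) := by
  have hr : π u ∈ regOpen Y := hY.mem_regOpen hu.map
  have hc := (regOpen Y).isOpen.isClosed_compl
  obtain ⟨z, hz⟩ := (T.modY d).exists_preimage hc (y := π u) fun h' => h' hr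
  have hzr : z ∈ regOpen (T.Z d) := (T.modY d).preimage_regOpen hc disjoint_compl_right
    (show T.π d z ∈ regOpen Y from hz ▸ hr)
  have hπ : π (ι d ⟨z, hzr⟩) = π u := by
    rw [← Scheme.Hom.comp_apply, h.comm]
    exact hz
  exact ⟨⟨z, hzr⟩, fina_inj π _ h.isIso (hπ ▸ hr) hπ⟩
-- END FINa

-- BEGIN FINb
/-- Arcs of bounded ramification lie in the range of `ι d`. -/
theorem IsUnion.range_subset {Y : Scheme.{0}} (hY : Nice Y) {T : ResTower Y} {𝒰 : Scheme.{0}}
    {π : 𝒰 ⟶ Y} {ι : ∀ i, (regOpen (T.Z i)).toScheme ⟶ 𝒰} (h : IsUnion T π ι) (d : ℕ) {V : Type}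
    [CommRing V] [IsDomain V] [IsDiscreteValuationRing V] [CharZero V] (hV : RamLE V d)
    (l : Spec (CommRingCat.of V) ⟶ 𝒰) : Set.range l ⊆ Set.range (ι d) := by
  obtain ⟨b, hb, hb'⟩ := h.exists_lift hY d hV (fracPt V (FractionRing V) ≫ l) (l ≫ π)
    (Category.assoc _ _ _)
  have hiso : IsIso (Scheme.Opens.ι (⊤ : (Spec (CommRingCat.of V)).Opens)) :=
    inferInstanceAs (IsIso (Scheme.topIso _).hom)
  have he : Scheme.Opens.ι (⊤ : (Spec (CommRingCat.of V)).Opens) ≫ b ≫ ι d =
      Scheme.Opens.ι ⊤ ≫ l := by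
    refine eq_of_generic π h.isSeparated (K := FractionRing V) ⊤
      (fracPt V (FractionRing V) ≫ inv (Scheme.Opens.ι ⊤)) (by simp) _ _ ?_ ?_
    · rw [Category.assoc, Category.assoc, IsIso.inv_hom_id_assoc, IsIso.inv_hom_id_assoc]
      exact hb
    · rw [Category.assoc, hb', Category.assoc]
  rw [cancel_epi] at he
  rintro _ ⟨t, rfl⟩
  exact ⟨b t, by rw [← he]; rfl⟩
-- END FINb

-- BEGIN FINc
theorem IsUnion.valuative {B Y : Scheme.{0}} (hY : Nice Y) {T : ResTower Y} {𝒰 : Scheme.{0}}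
    {π : 𝒰 ⟶ Y} {ι : ∀ i, (regOpen (T.Z i)).toScheme ⟶ 𝒰} (h : IsUnion T π ι) (g : Y ⟶ B)
    (hg : IsProper g) (S : ValuativeCommSq (π ≫ g)) (hS : IsDiscreteValuationRing S.R)
    (hS' : CharZero S.R) : Nonempty (Unique S.commSq.LiftStruct) := by
  have := h.isSeparated
  have hp := hg
  rw [IsProper.eq_valuativeCriterion] at hp
  obtain ⟨⟨y, hy1, hy2⟩⟩ := (hp.1.1.1.existence
    ⟨S.R, S.K, S.i₁ ≫ π, S.i₂, ⟨by rw [Category.assoc, S.commSq.w]⟩⟩).exists_lift
  obtain ⟨d, hd⟩ := exists_ramification_bound S.R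
  obtain ⟨b, hb1, hb2⟩ := h.exists_lift hY d hd S.i₁ y hy1.symm
  have := IsSeparated.valuativeCriterion (π ≫ g) S
  exact ⟨⟨⟨b ≫ ι d, hb1, by rw [← Category.assoc, hb2, hy2]⟩⟩, fun l => Subsingleton.elim _ _⟩
-- END FINc

-- BEGIN FINd
/-- PROOF.  For a maximal ideal `𝔩` of `𝓞 L`, `V = Localization.AtPrime 𝔩` is a discrete valuation ring
(`𝔩 ≠ ⊥`) with `RamLE V d` (`addVal_le_finrank`, file FN1).  Apply `hW` to
`Spec V ⟶ Spec (𝓞 L) ⟶ Z`: the closed point of `Spec V` goes to `𝔩` and the generic point to `⊥`.  Every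
prime of `𝓞 L` is `⊥` or maximal (and a maximal ideal exists). -/
theorem range_subset_of_numberField {Z : Scheme.{0}} (W : Set Z) (d : ℕ)
    (hW : ∀ (V : Type) [CommRing V] [IsDomain V] [IsDiscreteValuationRing V] [CharZero V],
      RamLE V d → ∀ l : Spec (CommRingCat.of V) ⟶ Z, Set.range l ⊆ W)
    (L : Type) [Field L] [NumberField L] (hL : Module.finrank ℚ L ≤ d)
    (l : Spec (CommRingCat.of (𝓞 L)) ⟶ Z) : Set.range l ⊆ W := by
  rintro _ ⟨q, rfl⟩
  obtain ⟨𝔩, hmax, hq⟩ := Ideal.exists_le_maximal q.asIdeal q.2.ne_top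
  have hbot : 𝔩 ≠ ⊥ := Ring.ne_bot_of_isMaximal_of_not_isField hmax
    (RingOfIntegers.not_isField L)
  have hdvr : IsDiscreteValuationRing (Localization.AtPrime 𝔩) :=
    IsLocalization.AtPrime.isDiscreteValuationRing_of_dedekind_domain (𝓞 L) hbot
      (Localization.AtPrime 𝔩)
  have hcz : CharZero (Localization.AtPrime 𝔩) :=
    charZero_of_injective_algebraMap (R := 𝓞 L)
      (IsLocalization.injective (Localization.AtPrime 𝔩) 𝔩.primeCompl_le_nonZeroDivisors)
  have hram : RamLE (Localization.AtPrime 𝔩) d := fun p hp =>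
    (addVal_le_finrank L 𝔩 p hp).trans (by exact_mod_cast hL)
  have h1 := hW (Localization.AtPrime 𝔩) hram
    (Spec.map (CommRingCat.ofHom (algebraMap (𝓞 L) (Localization.AtPrime 𝔩))) ≫ l)
  have h2 : q ∈ Set.range (PrimeSpectrum.comap (algebraMap (𝓞 L) (Localization.AtPrime 𝔩))) := by
    rw [PrimeSpectrum.localization_comap_range (Localization.AtPrime 𝔩) 𝔩.primeCompl]
    exact Set.disjoint_left.2 fun x hx hx' => hx (hq hx')
  obtain ⟨q', rfl⟩ := h2
  exact h1 ⟨q', rfl⟩
-- END FINd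

-- BEGIN FINe
/-- Arcs of bounded ramification are in the regular open subscheme. -/
theorem ResTower.range_subset {Y : Scheme.{0}} (T : ResTower Y) (d : ℕ) {V : Type} [CommRing V]
    [IsDomain V] [IsDiscreteValuationRing V] [CharZero V] (hV : RamLE V d)
    (a : Spec (CommRingCat.of V) ⟶ T.Z d) : Set.range a ⊆ regOpen (T.Z d) := by
  rintro _ ⟨s, rfl⟩
  have h2 : s ∈ a ⁻¹ᵁ regOpen (T.Z d) := by
    rw [Scheme.preimage_eq_top_of_closedPoint_mem a (T.closedPoint_mem d a hV)]
    trivial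
  exact h2
-- END FINe

-- BEGIN FINf
/-- The part `fin` of the main theorem.

PROOF.  `Y' = T.Z d`, `h = T.π d ≫ g`, `W = (ι d).opensRange`,
`j = (ι d).isoOpensRange.inv ≫ (regOpen (T.Z d)).ι`. -/
theorem IsUnion.fin {E : Type} [Field E] [NumberField E] {X Y : Scheme.{0}}
    {f : X ⟶ Spec (CommRingCat.of E)} {g : Y ⟶ Spec (CommRingCat.of (𝓞 E))} (hY : Nice Y)
    (hg : IsProper g) (hgen : HasGenericFibre E f g) {T : ResTower Y} {𝒰 : Scheme.{0}}
    {π : 𝒰 ⟶ Y} {ι : ∀ i, (regOpen (T.Z i)).toScheme ⟶ 𝒰} (h : IsUnion T π ι) (d : ℕ)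
    (W : 𝒰.Opens) (hW : (W : Set 𝒰) = Set.range (ι d)) :
    IsCompact (W : Set 𝒰) ∧ Set.range (pullback.fst (π ≫ g) (genPt E)) ⊆ W ∧
    ∃ (Y : Scheme.{0}) (h : Y ⟶ Spec (CommRingCat.of (𝓞 E))) (j : W.toScheme ⟶ Y),
      IsProper h ∧ Flat h ∧ HasGenericFibre E f h ∧ IsOpenImmersion j ∧ j ≫ h = W.ι ≫ π ≫ g ∧
      (∀ (V : Type) [CommRing V] [IsDomain V] [IsDiscreteValuationRing V] [CharZero V],
        RamLE V d → (∀ l : Spec (CommRingCat.of V) ⟶ 𝒰, Set.range l ⊆ W) ∧
          ∀ a : Spec (CommRingCat.of V) ⟶ Y, Set.range a ⊆ Set.range j) ∧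
      ∀ (L : Type) [Field L] [NumberField L], Module.finrank ℚ L ≤ d →
        (∀ l : Spec (CommRingCat.of (𝓞 L)) ⟶ 𝒰, Set.range l ⊆ W) ∧
          ∀ a : Spec (CommRingCat.of (𝓞 L)) ⟶ Y, Set.range a ⊆ Set.range j := by
  have hp := (T.modY d).proper
  have himm := h.imm d
  have hint := (T.nice d).int
  have hln := (T.nice d).isLocallyNoetherian
  have hqc := (T.nice d).qc
  obtain rfl : W = (ι d).opensRange := TopologicalSpace.Opens.ext hW
  have hj : Set.range ((ι d).isoOpensRange.inv ≫ (regOpen (T.Z d)).ι) =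
      (regOpen (T.Z d) : Set (T.Z d)) := by
    rw [Scheme.Hom.comp_base, TopCat.coe_comp, Set.range_comp,
      Set.range_eq_univ.2 (ι d).isoOpensRange.inv.surjective, Set.image_univ]
    exact Scheme.Opens.range_ι _
  refine ⟨?_, ?_, T.Z d, T.π d ≫ g, (ι d).isoOpensRange.inv ≫ (regOpen (T.Z d)).ι,
    inferInstance, flat_of_charZ (T.nice d).cz _,
    hgen.comp (T.π d) (regOpen Y) (fun y hy => hY.mem_regOpen hy)
      ((T.modY d).iso (regOpen Y) disjoint_compl_right), inferInstance, ?_, ?_, ?_⟩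
  · rw [hW]
    have : NoetherianSpace (T.Z d) := by
      have : IsNoetherian (T.Z d) := {}
      infer_instance
    have : CompactSpace (regOpen (T.Z d)).toScheme :=
      isCompact_iff_compactSpace.1 (NoetherianSpace.isCompact (regOpen (T.Z d) : Set (T.Z d)))
    exact isCompact_range (ι d).continuous
  · rintro _ ⟨t, rfl⟩
    exact h.mem_range hY ((charZ_iff_mem_range (π ≫ g) _).2 ⟨t, rfl⟩) d
  · rw [Category.assoc, ← Category.assoc _ (T.π d) g, ← h.comm, Category.assoc,
      ← Category.assoc (ι d).isoOpensRange.inv, Scheme.Hom.isoOpensRange_inv_comp]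
  · intro V _ _ _ _ hV
    refine ⟨fun l => h.range_subset hY d hV l, fun a => ?_⟩
    rw [hj]
    exact T.range_subset d hV a
  · intro L _ _ hL
    refine ⟨fun l => range_subset_of_numberField _ d
      (fun V _ _ _ _ hV l => h.range_subset hY d hV l) L hL l, fun a => ?_⟩
    rw [hj]
    exact range_subset_of_numberField _ d (fun V _ _ _ _ hV a => T.range_subset d hV a) L hL a
-- END FINf

/-- The main theorem for a given integral proper model. -/
theorem exists_isDiscreteModel {E : Type} [Field E] [NumberField E] {X Y : Scheme.{0}}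
    [IsIntegral X] [IsIntegral Y] (f : X ⟶ Spec (CommRingCat.of E)) (hf : Smooth f)
    (g : Y ⟶ Spec (CommRingCat.of (𝓞 E))) (hg : IsProper g) (hgen : HasGenericFibre E f g) :
    ∃ (𝒰 : Scheme.{0}) (g' : 𝒰 ⟶ Spec (CommRingCat.of (𝓞 E))), IsDiscreteModel E f g' := by
  have hY := nice_of_model f hf g hg hgen
  obtain ⟨T⟩ := exists_resTower hY
  obtain ⟨𝒰, π, ι, h⟩ := T.exists_union
  have h1 := h.isSeparated
  have h2 := h.locallyOfFiniteType
  have h3 := h.isIntegral
  have hsep : IsSeparated (π ≫ g) := inferInstance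
  have hlft : LocallyOfFiniteType (π ≫ g) := inferInstance
  have hval : ∀ S : ValuativeCommSq (π ≫ g), IsDiscreteValuationRing S.R → CharZero S.R →
      Nonempty (Unique S.commSq.LiftStruct) := fun S hS hS' => h.valuative hY g hg S hS hS'
  have hcz : ∃ u : 𝒰, CharZ 𝒰 u := by
    obtain ⟨z, hz⟩ := (T.nice 0).cz
    have hz' := (T.nice 0).mem_regOpen hz
    have := h.imm 0
    refine ⟨ι 0 ⟨z, hz'⟩, ?_⟩
    have : IsIso ((ι 0).stalkMap ⟨z, hz'⟩) := inferInstance
    refine CharZ.map (β := ι 0) (y' := ⟨z, hz'⟩) ?_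
    exact CharZ.of_isIso (β := (regOpen (T.Z 0)).ι) (y' := ⟨z, hz'⟩) hz inferInstance
  have himm := h.imm
  have hded : ∀ (D K : Type) [CommRing D] [IsDedekindDomain D] [CharZero D] [Field K]
      [Algebra D K] [IsFractionRing D K]
      (s : Spec (CommRingCat.of D) ⟶ Spec (CommRingCat.of (𝓞 E)))
      (x : Spec (CommRingCat.of K) ⟶ 𝒰), x ≫ π ≫ g = fracPt D K ≫ s →
      ∃! l : Spec (CommRingCat.of D) ⟶ 𝒰, fracPt D K ≫ l = x ∧ l ≫ π ≫ g = s := by
    intro D K _ _ _ _ _ _ s x hx
    refine exists_dedekind (π ≫ g) hsep hlft ?_ s x hx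
    intro V K _ _ _ _ _ _ _ s x hx
    obtain ⟨⟨l⟩⟩ := (hval ⟨V, K, x, s, ⟨hx⟩⟩ inferInstance inferInstance)
    exact ⟨l.default.l, l.default.fac_left, l.default.fac_right⟩
  have hft : ∀ U : 𝒰.affineOpens, Algebra.FiniteType ℤ Γ(𝒰, U) := finiteType_of_model _ hlft
  refine ⟨𝒰, π ≫ g, ⟨h.isRegular, hsep, flat_of_charZ hcz _, hlft,
    hgen.comp π (regOpen Y) (fun y hy => hY.mem_regOpen hy) h.isIso,
    fun S hS => h.valuative_locallyDiscrete hY hft g hg S hS, ?_,
    ⟨fun d => (ι d).opensRange, monotone_nat_of_le_succ fun i => h.mono i, h.cover,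
      fun d => h.fin hY hg hgen d _ rfl⟩, fun hc => ?_⟩⟩
  · intro D₀ D K _ _ _ _ _ _ _ _ _ _ _ _ s x hx
    exact exists_integral_points (D₀ := D₀) (π ≫ g) hsep hft
      (fun D K _ _ _ _ _ _ s x hx => (hded D K s x hx).exists) s x hx
  · have := h.isProper hY hc
    infer_instance

end Pool.Agent.Lib.MP_6a3dac_ag.NU
end

section

/-!
# NU: composition of valuation rings
-/

set_option autoImplicit false

namespace Pool.Agent.Lib.MP_6a3dac_ag.NU

open CategoryTheory Limits AlgebraicGeometry TopologicalSpace IsLocalRing NumberField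

/-- The existence part of the valuative criterion for the ring `R`. -/
def HasLift {𝒰 : Scheme.{0}} {O : Type} [CommRing O] (g : 𝒰 ⟶ Spec (CommRingCat.of O))
    (R : Type) [CommRing R] : Prop :=
  ∀ (K : Type) [Field K] [Algebra R K] [IsFractionRing R K]
    (s : Spec (CommRingCat.of R) ⟶ Spec (CommRingCat.of O)) (x : Spec (CommRingCat.of K) ⟶ 𝒰),
    x ≫ g = fracPt R K ≫ s → ∃ l : Spec (CommRingCat.of R) ⟶ 𝒰, fracPt R K ≫ l = x ∧ l ≫ g = s

-- BEGIN W11a
/-- Morphisms to an affine scheme are determined at the generic point. -/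
theorem affine_ext {O R K : Type} [CommRing O] [CommRing R] [Field K] [Algebra R K]
    (hinj : Function.Injective (algebraMap R K))
    (s t : Spec (CommRingCat.of R) ⟶ Spec (CommRingCat.of O))
    (h : fracPt R K ≫ s = fracPt R K ≫ t) : s = t := by
  obtain ⟨σ, rfl⟩ := Spec.map_surjective s
  obtain ⟨τ, rfl⟩ := Spec.map_surjective t
  rw [← Spec.map_comp, ← Spec.map_comp] at h
  have h1 := Spec.map_injective h
  refine congrArg Spec.map ?_
  ext o
  exact hinj (congrArg (fun f : CommRingCat.of O ⟶ CommRingCat.of K => f.hom o) h1)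

/-- Fields. -/
theorem hasLift_of_isField {𝒰 : Scheme.{0}} {O : Type} [CommRing O]
    (g : 𝒰 ⟶ Spec (CommRingCat.of O)) (R : Type) [CommRing R] (hR : IsField R) : HasLift g R := by
  intro K _ _ _ s x hx
  have hb : Function.Bijective (algebraMap R K) := by
    let := hR.toField
    exact ⟨IsFractionRing.injective R K, fun y => by
      obtain ⟨a, b, hb, rfl⟩ := IsFractionRing.div_surjective (A := R) y
      exact ⟨a / b, map_div₀ _ _ _⟩⟩
  have h1 : IsIso (CommRingCat.ofHom (algebraMap R K)) :=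
    (ConcreteCategory.isIso_iff_bijective _).2 hb
  have h2 : IsIso (fracPt R K) := inferInstance
  exact ⟨inv (fracPt R K) ≫ x, IsIso.hom_inv_id_assoc _ _, by
    rw [Category.assoc, hx, IsIso.inv_hom_id_assoc]⟩
-- END W11a

-- BEGIN W11b
/-- The elements of `R_P` with residue in `R / P` are in `R`, for a valuation ring `R`. -/
theorem mem_of_residue {R : Type} [CommRing R] [IsDomain R] [ValuationRing R] (P : Ideal R)
    [P.IsPrime] (κ : Type) [Field κ] [Algebra (R ⧸ P) κ] [IsFractionRing (R ⧸ P) κ]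
    (θ : Localization.AtPrime P →+* κ)
    (hθ : ∀ r, θ (algebraMap R _ r) = algebraMap (R ⧸ P) κ (Ideal.Quotient.mk P r))
    (z : Localization.AtPrime P) (w : R ⧸ P) (hz : θ z = algebraMap (R ⧸ P) κ w) :
    ∃ r : R, algebraMap R _ r = z := by
  obtain ⟨r, rfl⟩ := Ideal.Quotient.mk_surjective w
  obtain ⟨⟨a, b⟩, hab⟩ := IsLocalization.surj P.primeCompl (z - algebraMap R _ r)
  have h1 : θ (z - algebraMap R _ r) = 0 := by rw [map_sub, hz, hθ, sub_self]
  have ha : a ∈ P := by
    have h2 := congrArg θ hab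
    rw [map_mul, h1, zero_mul, hθ] at h2
    have h3 := (map_eq_zero_iff _ (IsFractionRing.injective (R ⧸ P) κ)).1 h2.symm
    exact Ideal.Quotient.eq_zero_iff_mem.1 h3
  obtain ⟨c, hc | hc⟩ := ValuationRing.cond a b.1
  · exact absurd (hc ▸ Ideal.mul_mem_right c P ha) b.2
  · refine ⟨c + r, ?_⟩
    have hu : IsUnit (algebraMap R (Localization.AtPrime P) b.1) := IsLocalization.map_units _ b
    have h4 : algebraMap R (Localization.AtPrime P) b.1 * algebraMap R _ c =
        algebraMap R (Localization.AtPrime P) b.1 * (z - algebraMap R _ r) := by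
      rw [← map_mul, hc, mul_comm _ (z - _)]
      exact hab.symm
    have h5 := hu.mul_left_cancel h4
    rw [map_add, h5, sub_add_cancel]
-- END W11b

-- BEGIN W11c
/-- **Composition**: the valuative criterion for `R_P` and for `R / P` gives the valuative
criterion for `R`. -/
theorem hasLift_comp {𝒰 : Scheme.{0}} {O : Type} [CommRing O] (g : 𝒰 ⟶ Spec (CommRingCat.of O))
    (R : Type) [CommRing R] [IsDomain R] [ValuationRing R] (P : Ideal R) [P.IsPrime]
    (h1 : HasLift g (Localization.AtPrime P)) (h2 : HasLift g (R ⧸ P)) : HasLift g R := by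
  intro K _ _ _ s x hx
  have hle : P.primeCompl ≤ nonZeroDivisors R := P.primeCompl_le_nonZeroDivisors
  have hu : ∀ y : P.primeCompl, IsUnit (algebraMap R K y) := fun y =>
    IsLocalization.map_units K (⟨y.1, hle y.2⟩ : nonZeroDivisors R)
  let : Algebra (Localization.AtPrime P) K := (IsLocalization.lift hu).toAlgebra
  have : IsScalarTower R (Localization.AtPrime P) K :=
    IsScalarTower.of_algebraMap_eq' (IsLocalization.lift_comp hu).symm
  have : IsFractionRing (Localization.AtPrime P) K :=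
    IsFractionRing.isFractionRing_of_isDomain_of_isLocalization P.primeCompl _ _
  let i : Spec (CommRingCat.of (Localization.AtPrime P)) ⟶ Spec (CommRingCat.of R) :=
    Spec.map (CommRingCat.ofHom (algebraMap R (Localization.AtPrime P)))
  have hi : fracPt (Localization.AtPrime P) K ≫ i = fracPt R K := by
    rw [← Spec.map_comp, ← CommRingCat.ofHom_comp, ← IsScalarTower.algebraMap_eq]
  obtain ⟨l₁, hl₁, hl₁'⟩ := h1 K (i ≫ s) x (by rw [hx, ← hi, Category.assoc])
  -- the residue field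
  let κ := FractionRing (R ⧸ P)
  have hv : ∀ y : P.primeCompl, IsUnit (((algebraMap (R ⧸ P) κ).comp (Ideal.Quotient.mk P)) y) :=
    fun y => isUnit_iff_ne_zero.2 fun h => y.2 (by
      have h3 := (map_eq_zero_iff _ (IsFractionRing.injective (R ⧸ P) κ)).1 h
      exact Ideal.Quotient.eq_zero_iff_mem.1 h3)
  let θ : Localization.AtPrime P →+* κ := IsLocalization.lift hv
  have hθ : ∀ r, θ (algebraMap R _ r) = algebraMap (R ⧸ P) κ (Ideal.Quotient.mk P r) :=
    fun r => IsLocalization.lift_eq hv r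
  let q : Spec (CommRingCat.of (R ⧸ P)) ⟶ Spec (CommRingCat.of R) :=
    Spec.map (CommRingCat.ofHom (Ideal.Quotient.mk P))
  let t : Spec (CommRingCat.of κ) ⟶ Spec (CommRingCat.of (Localization.AtPrime P)) :=
    Spec.map (CommRingCat.ofHom θ)
  have htq : t ≫ i = fracPt (R ⧸ P) κ ≫ q := by
    rw [← Spec.map_comp, ← Spec.map_comp]
    refine congrArg Spec.map ?_
    ext r
    exact hθ r
  obtain ⟨l₂, hl₂, hl₂'⟩ := h2 κ (q ≫ s) (t ≫ l₁) (by
    rw [Category.assoc, hl₁', ← Category.assoc, htq, Category.assoc])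
  have hloc : IsLocalRing (R ⧸ P) := IsLocalRing.of_surjective' _ Ideal.Quotient.mk_surjective
  obtain ⟨W, hW⟩ := sc3h_exists (l₂ (closedPoint (R ⧸ P)))
  obtain ⟨b₂, hb₂⟩ := exists_factor W.1 l₂ hW
  have hcl : l₁ (closedPoint (Localization.AtPrime P)) ∈ W.1 := by
    have e1 : t (closedPoint κ) = closedPoint (Localization.AtPrime P) := by
      refine PrimeSpectrum.ext (Ideal.ext fun y => ?_)
      change θ y ∈ maximalIdeal κ ↔ y ∈ maximalIdeal (Localization.AtPrime P)
      rw [IsLocalRing.maximalIdeal_eq_bot, Ideal.mem_bot]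
      constructor
      · intro h hy
        exact (hy.map θ).ne_zero h
      · intro h
        obtain ⟨⟨a, b⟩, hab⟩ := IsLocalization.surj P.primeCompl y
        have h3 : algebraMap R (Localization.AtPrime P) a ∈ maximalIdeal _ := by
          rw [← hab]
          exact Ideal.mul_mem_right _ _ h
        have ha : a ∈ P := (IsLocalization.AtPrime.to_map_mem_maximal_iff _ P a).1 h3
        have h4 := congrArg θ hab
        rw [map_mul, hθ, hθ, Ideal.Quotient.eq_zero_iff_mem.2 ha, map_zero] at h4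
        refine (mul_eq_zero.1 h4).resolve_right fun h5 => b.2 ?_
        have h6 := (map_eq_zero_iff _ (IsFractionRing.injective (R ⧸ P) κ)).1 h5
        exact Ideal.Quotient.eq_zero_iff_mem.1 h6
    have e2 : l₁ (closedPoint (Localization.AtPrime P)) = (t ≫ l₁) (closedPoint κ) := by
      rw [Scheme.Hom.comp_apply, e1]
    rw [e2, ← hl₂, ← hb₂]
    exact ((fracPt (R ⧸ P) κ ≫ b₂) (closedPoint κ)).2
  obtain ⟨b₁, hb₁⟩ := exists_factor W.1 l₁ hcl
  obtain ⟨φ₁, hφ₁⟩ := Spec.map_surjective (b₁ ≫ W.2.isoSpec.hom)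
  obtain ⟨φ₂, hφ₂⟩ := Spec.map_surjective (b₂ ≫ W.2.isoSpec.hom)
  have e3 : t ≫ b₁ = fracPt (R ⧸ P) κ ≫ b₂ := by
    rw [← cancel_mono W.1.ι, Category.assoc, hb₁, Category.assoc, hb₂, hl₂]
  have e4 : ∀ w, θ (φ₁.hom w) = algebraMap (R ⧸ P) κ (φ₂.hom w) := by
    intro w
    have h3 : Spec.map (φ₁ ≫ CommRingCat.ofHom θ) =
        Spec.map (φ₂ ≫ CommRingCat.ofHom (algebraMap (R ⧸ P) κ)) := by
      rw [Spec.map_comp, Spec.map_comp, hφ₁, hφ₂, ← Category.assoc, ← Category.assoc]
      exact congrArg (fun f => f ≫ W.2.isoSpec.hom) e3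
    exact congrArg (fun f : Γ(𝒰, W) ⟶ CommRingCat.of κ => f.hom w) (Spec.map_injective h3)
  have hinj : Function.Injective (algebraMap R (Localization.AtPrime P)) :=
    IsLocalization.injective _ hle
  choose φ hφ using fun w => mem_of_residue P κ θ hθ (φ₁.hom w) (φ₂.hom w) (e4 w)
  let φ' : Γ(𝒰, W) →+* R :=
    { toFun := φ
      map_zero' := hinj (by rw [hφ, map_zero, map_zero])
      map_one' := hinj (by rw [hφ, map_one, map_one])
      map_add' := fun a b => hinj (by rw [hφ, map_add, map_add, hφ, hφ])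
      map_mul' := fun a b => hinj (by rw [hφ, map_mul, map_mul, hφ, hφ]) }
  have hφ' : i ≫ Spec.map (CommRingCat.ofHom φ') = Spec.map φ₁ := by
    rw [← Spec.map_comp]
    refine congrArg Spec.map ?_
    ext w
    exact hφ w
  let l := Spec.map (CommRingCat.ofHom φ') ≫ W.2.isoSpec.inv ≫ W.1.ι
  have hl : i ≫ l = l₁ := by
    rw [← Category.assoc, hφ', hφ₁, Category.assoc, Iso.hom_inv_id_assoc, hb₁]
  have hlx : fracPt R K ≫ l = x := by
    rw [← hi, Category.assoc, hl, hl₁]
  refine ⟨l, hlx, affine_ext (IsFractionRing.injective R K) _ _ ?_⟩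
  rw [← Category.assoc, hlx, hx]
-- END W11c

-- BEGIN W11d
/-- The localization of a valuation ring at a prime ideal is a valuation ring. -/
theorem valuationRing_localization (R : Type) [CommRing R] [IsDomain R] [ValuationRing R]
    (P : Ideal R) [P.IsPrime] : ValuationRing (Localization.AtPrime P) := by
  refine { toPreValuationRing := ⟨fun a b => ?_⟩ }
  obtain ⟨⟨a', u⟩, ha⟩ := IsLocalization.surj P.primeCompl a
  obtain ⟨⟨b', v⟩, hb⟩ := IsLocalization.surj P.primeCompl b
  obtain ⟨u', hu⟩ := (IsLocalization.map_units (Localization.AtPrime P) u).exists_right_inv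
  obtain ⟨v', hv⟩ := (IsLocalization.map_units (Localization.AtPrime P) v).exists_right_inv
  dsimp only at ha hb
  have ea : a = algebraMap R _ a' * u' := by rw [← ha, mul_assoc, hu, mul_one]
  have eb : b = algebraMap R _ b' * v' := by rw [← hb, mul_assoc, hv, mul_one]
  obtain ⟨c, hc | hc⟩ := ValuationRing.cond a' b'
  · refine ⟨algebraMap R _ c * algebraMap R _ u.1 * v', Or.inl ?_⟩
    rw [ea, eb, ← hc, map_mul]
    linear_combination (algebraMap R (Localization.AtPrime P) a' * algebraMap R _ c * v') * hu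
  · refine ⟨algebraMap R _ c * algebraMap R _ v.1 * u', Or.inr ?_⟩
    rw [ea, eb, ← hc, map_mul]
    linear_combination (algebraMap R (Localization.AtPrime P) b' * algebraMap R _ c * u') * hv

/-- The valuative criterion for composed valuation rings. -/
theorem hasLift_of_isComposed {𝒰 : Scheme.{0}} {O : Type} [CommRing O]
    (g : 𝒰 ⟶ Spec (CommRingCat.of O))
    (hrat : ∀ (R : Type) [CommRing R] [IsDomain R] [ValuationRing R],
      (∀ n : ℕ, n ≠ 0 → IsUnit (n : R)) → HasLift g R)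
    (hdvr : ∀ (R : Type) [CommRing R] [IsDomain R] [IsDiscreteValuationRing R], HasLift g R)
    (R : Type) [CommRing R] [IsDomain R] [ValuationRing R] (h : IsComposed R) : HasLift g R := by
  suffices key : ∀ (R : Type) [CommRing R], IsComposed R → ∀ [IsDomain R] [ValuationRing R],
      HasLift g R from key R h
  intro R _ h
  induction h with
  | field R h => exact hasLift_of_isField g R h
  | rat R h => exact hrat R h
  | comp R P h h' ih =>
    intro _ _
    have := valuationRing_localization R P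
    exact hasLift_comp g R P ih (hdvr (R ⧸ P))
-- END W11d

end Pool.Agent.Lib.MP_6a3dac_ag.NU
end

section

/-!
# NU: points over integral extensions of Dedekind domains of any characteristic
-/

set_option autoImplicit false

namespace Pool.Agent.Lib.MP_6a3dac_ag.NU

open CategoryTheory Limits AlgebraicGeometry TopologicalSpace IsLocalRing NumberField

-- BEGIN WINTa
/-- **Points over domains whose local rings are discrete valuation rings.** -/
theorem exists_almostDedekind {Z : Scheme.{0}} {O : Type} [CommRing O]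
    (g : Z ⟶ Spec (CommRingCat.of O)) (hg : IsSeparated g) (hg' : LocallyOfFiniteType g)
    (hval : ∀ (V : Type) [CommRing V] [IsDomain V] [IsDiscreteValuationRing V], HasLift g V)
    {D K : Type} [CommRing D] [IsDomain D]
    (hDV : ∀ (𝔩 : Ideal D) [𝔩.IsPrime], 𝔩 ≠ ⊥ →
      IsDiscreteValuationRing (Localization.AtPrime 𝔩)) [Field K] [Algebra D K]
    [IsFractionRing D K] (s : Spec (CommRingCat.of D) ⟶ Spec (CommRingCat.of O))
    (x : Spec (CommRingCat.of K) ⟶ Z) (hx : x ≫ g = fracPt D K ≫ s) :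
    ∃! l : Spec (CommRingCat.of D) ⟶ Z, fracPt D K ≫ l = x ∧ l ≫ g = s := by
  by_cases hD : IsField D
  · obtain ⟨l, hl1, hl2⟩ := hasLift_of_isField g D hD K s x hx
    have hb : Function.Bijective (algebraMap D K) := by
      let := hD.toField
      exact ⟨IsFractionRing.injective D K, fun y => by
        obtain ⟨a, b, hb, rfl⟩ := IsFractionRing.div_surjective (A := D) y
        exact ⟨a / b, map_div₀ _ _ _⟩⟩
    have h1 : IsIso (CommRingCat.ofHom (algebraMap D K)) :=
      (ConcreteCategory.isIso_iff_bijective _).2 hb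
    have h2 : IsIso (fracPt D K) := inferInstance
    exact ⟨l, ⟨hl1, hl2⟩, fun m hm => by
      rw [← cancel_epi (fracPt D K), hm.1, hl1]⟩
  have key : ∀ 𝔩 : Ideal D, 𝔩.IsPrime → 𝔩 ≠ ⊥ → ∃ (U : (Spec (CommRingCat.of D)).Opens)
      (a : U.toScheme ⟶ Z) (k : Spec (CommRingCat.of K) ⟶ U.toScheme),
      (∀ q : PrimeSpectrum D, q.asIdeal ≤ 𝔩 → q ∈ U) ∧ k ≫ U.ι = fracPt D K ∧ k ≫ a = x ∧
      a ≫ g = U.ι ≫ s := by
    intro 𝔩 h𝔩 hne
    have hle : 𝔩.primeCompl ≤ nonZeroDivisors D := 𝔩.primeCompl_le_nonZeroDivisors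
    have hu : ∀ y : 𝔩.primeCompl, IsUnit (algebraMap D K y) := fun y =>
      IsLocalization.map_units K (⟨y.1, hle y.2⟩ : nonZeroDivisors D)
    let : Algebra (Localization.AtPrime 𝔩) K := (IsLocalization.lift hu).toAlgebra
    have : IsScalarTower D (Localization.AtPrime 𝔩) K :=
      IsScalarTower.of_algebraMap_eq' (IsLocalization.lift_comp hu).symm
    have : IsFractionRing (Localization.AtPrime 𝔩) K :=
      IsFractionRing.isFractionRing_of_isDomain_of_isLocalization 𝔩.primeCompl _ _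
    have : IsDiscreteValuationRing (Localization.AtPrime 𝔩) := hDV 𝔩 hne
    have h1 : fracPt (Localization.AtPrime 𝔩) K ≫
        Spec.map (CommRingCat.ofHom (algebraMap D (Localization.AtPrime 𝔩))) = fracPt D K := by
      rw [← Spec.map_comp, ← CommRingCat.ofHom_comp, ← IsScalarTower.algebraMap_eq]
    obtain ⟨l, hl1, hl2⟩ := hval (Localization.AtPrime 𝔩) K
      (Spec.map (CommRingCat.ofHom (algebraMap D (Localization.AtPrime 𝔩))) ≫ s) x
      (by rw [hx, reassoc_of% h1])
    obtain ⟨U, a, k, hU, h2, h3, h4⟩ := exists_spread g hg' s x 𝔩 l hl1 hl2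
    refine ⟨U, a, k, fun q hq => ?_, h2, h3, h4⟩
    exact ((PrimeSpectrum.le_iff_specializes q ⟨𝔩, h𝔩⟩).1 hq).mem_open U.isOpen hU
  refine exists_glue g hg s x fun 𝔩 => ?_
  by_cases hb : 𝔩.asIdeal = ⊥
  · obtain ⟨q, hq, hqp⟩ := Ring.not_isField_iff_exists_prime.1 hD
    obtain ⟨U, a, k, hU, h⟩ := key q hqp hq
    exact ⟨U, a, k, hU 𝔩 (hb ▸ bot_le), h⟩
  · obtain ⟨U, a, k, hU, h⟩ := key 𝔩.asIdeal 𝔩.isPrime hb
    exact ⟨U, a, k, hU 𝔩 le_rfl, h⟩
-- END WINTa

-- BEGIN WINTb
/-- **Points over integral extensions of Dedekind domains** of any characteristic. -/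
theorem exists_integral_pointsA {E : Type} [Field E] [NumberField E] {𝒰 : Scheme.{0}}
    (g : 𝒰 ⟶ Spec (CommRingCat.of (𝓞 E))) (hg : IsSeparated g)
    (hlft : LocallyOfFiniteType g) (hft : ∀ U : 𝒰.affineOpens, Algebra.FiniteType ℤ Γ(𝒰, U))
    (hval : ∀ (V : Type) [CommRing V] [IsDomain V] [IsDiscreteValuationRing V], HasLift g V)
    {D₀ D K : Type} [CommRing D₀] [IsDedekindDomain D₀] [CommRing D] [IsDomain D]
    [IsIntegrallyClosed D] [Algebra D₀ D] [FaithfulSMul D₀ D] [Algebra.IsIntegral D₀ D] [Field K]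
    [Algebra D K] [IsFractionRing D K]
    (s : Spec (CommRingCat.of D) ⟶ Spec (CommRingCat.of (𝓞 E)))
    (x : Spec (CommRingCat.of K) ⟶ 𝒰) (hx : x ≫ g = fracPt D K ≫ s) :
    ∃! l : Spec (CommRingCat.of D) ⟶ 𝒰, fracPt D K ≫ l = x ∧ l ≫ g = s := by
  let K₀ := FractionRing D₀
  let : Algebra D₀ K := ((algebraMap D K).comp (algebraMap D₀ D)).toAlgebra
  have : IsScalarTower D₀ D K := IsScalarTower.of_algebraMap_eq' rfl
  have hinj : Function.Injective (algebraMap D₀ K) :=
    (IsFractionRing.injective D K).comp (FaithfulSMul.algebraMap_injective D₀ D)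
  have : FaithfulSMul D₀ K := (faithfulSMul_iff_algebraMap_injective D₀ K).2 hinj
  let : Algebra K₀ K := FractionRing.liftAlgebra D₀ K
  have : IsScalarTower D₀ K₀ K := inferInstance
  have halg : Algebra.IsAlgebraic K₀ K := by
    refine ⟨fun z => ?_⟩
    obtain ⟨a, b, -, rfl⟩ := IsFractionRing.div_surjective (A := D) z
    have h1 (c : D) : IsAlgebraic K₀ (algebraMap D K c) :=
      (((Algebra.IsIntegral.isIntegral (R := D₀) c).map (IsScalarTower.toAlgHom D₀ D K)).tower_top
        (A := K₀)).isAlgebraic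
    rw [div_eq_mul_inv]
    exact (h1 a).mul (h1 b).inv
  obtain ⟨L, x₀, hfin, rfl⟩ := exists_finite_field hft K₀ x
  let D' := integralClosure D₀ L
  have : IsIntegrallyClosed D' := integralClosure.isIntegrallyClosedOfFiniteExtension K₀
  have : IsFractionRing D' L := integralClosure.isFractionRing_of_finite_extension K₀ L
  have : FaithfulSMul D₀ D' := (faithfulSMul_iff_algebraMap_injective D₀ D').2 fun a b hab => by
    have h1 : algebraMap D₀ L a = algebraMap D₀ L b := congrArg (algebraMap D' L) hab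
    rw [IsScalarTower.algebraMap_apply D₀ K₀ L, IsScalarTower.algebraMap_apply D₀ K₀ L] at h1
    exact IsFractionRing.injective D₀ K₀ ((algebraMap K₀ L).injective h1)
  have hdom : IsDominant (fracPt D K) :=
    ⟨(PrimeSpectrum.denseRange_comap_iff_ker_le_nilRadical (algebraMap D K)).2
      (((RingHom.injective_iff_ker_eq_bot _).1 (IsFractionRing.injective D K)).trans_le bot_le)⟩
  obtain ⟨ρ, hρ⟩ := Spec.map_surjective (x₀ ≫ g)
  obtain ⟨σ, rfl⟩ := Spec.map_surjective s
  let ρ' : 𝓞 E →+* D' := ρ.hom.codRestrict D' fun a =>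
    (map_isIntegral_int ρ.hom (RingOfIntegers.isIntegral a)).tower_top
  have e1 : x₀ ≫ g = fracPt D' L ≫ Spec.map (CommRingCat.ofHom ρ') := by
    rw [← hρ, ← Spec.map_comp]
    rfl
  obtain ⟨l₀, ⟨h1, h2⟩, -⟩ := exists_almostDedekind g hg hlft hval (D := D') (K := L)
    (fun 𝔩 _ h𝔩 => wka_localization (D₀ := D₀) (K₀ := K₀) (L := L) 𝔩 h𝔩)
    (Spec.map (CommRingCat.ofHom ρ')) x₀ e1
  have : IsScalarTower D₀ L K := IsScalarTower.of_algebraMap_eq fun _ => rfl
  have hint (a : D') : IsIntegral D ((a : L) : K) :=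
    ((show IsIntegral D₀ (a : L) from a.2).map (IsScalarTower.toAlgHom D₀ L K)).tower_top
  let τ : D' →+* D :=
    { toFun := fun a => IsIntegralClosure.mk' D ((a : L) : K) (hint a)
      map_one' := IsFractionRing.injective D K (by rw [IsIntegralClosure.algebraMap_mk', map_one]; rfl)
      map_mul' := fun a b => IsFractionRing.injective D K (by
        rw [map_mul]; simp only [IsIntegralClosure.algebraMap_mk']; rfl)
      map_zero' := IsFractionRing.injective D K (by rw [IsIntegralClosure.algebraMap_mk', map_zero]; rfl)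
      map_add' := fun a b => IsFractionRing.injective D K (by
        rw [map_add]; simp only [IsIntegralClosure.algebraMap_mk']; rfl) }
  have hτ (a : D') : algebraMap D K (τ a) = ((a : L) : K) :=
    IsIntegralClosure.algebraMap_mk' D _ (hint a)
  have e2 : fracPt D K ≫ Spec.map (CommRingCat.ofHom τ) =
      Spec.map (CommRingCat.ofHom (L.val : L →+* K)) ≫ fracPt D' L := by
    rw [← Spec.map_comp, ← Spec.map_comp]
    refine congrArg Spec.map ?_
    ext a
    exact hτ a
  have e3 : (Spec.map (CommRingCat.ofHom τ) ≫ l₀) ≫ g = Spec.map σ := by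
    rw [Category.assoc, h2, ← Spec.map_comp]
    refine congrArg Spec.map ?_
    rw [Category.assoc, e1, ← Category.assoc, ← e2, Category.assoc, ← Spec.map_comp,
      ← Spec.map_comp, ← Spec.map_comp] at hx
    have h3 := Spec.map_injective hx
    ext a
    exact IsFractionRing.injective D K
      (congrArg (fun f : CommRingCat.of (𝓞 E) ⟶ CommRingCat.of K => f.hom a) h3)
  have e4 : fracPt D K ≫ Spec.map (CommRingCat.ofHom τ) ≫ l₀ =
      Spec.map (CommRingCat.ofHom (L.val : L →+* K)) ≫ x₀ := by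
    rw [reassoc_of% e2, h1]
  exact ⟨_, ⟨e4, e3⟩, fun l hl => ext_of_isDominant_of_isSeparated g (hl.2.trans e3.symm)
    (fracPt D K) (hl.1.trans e4.symm)⟩
-- END WINTb

end Pool.Agent.Lib.MP_6a3dac_ag.NU
end

section

/-!
# NU: the main theorem, for arcs of all characteristics
-/

set_option autoImplicit false

namespace Pool.Agent.Lib.MP_6a3dac_ag.NU

open CategoryTheory Limits AlgebraicGeometry TopologicalSpace IsLocalRing NumberField

-- BEGIN WFINa
/-- The valuative criterion for points which are defined over a subfield. -/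
theorem valuative_of_cut {𝒰 : Scheme.{0}} {O : Type} [CommRing O]
    (g : 𝒰 ⟶ Spec (CommRingCat.of O)) (hsep : IsSeparated g) (S : ValuativeCommSq g)
    (L : Subfield S.K) (x₀ : Spec (CommRingCat.of L) ⟶ 𝒰)
    (hx₀ : Spec.map (CommRingCat.ofHom L.subtype) ≫ x₀ = S.i₁)
    (hS : HasLift g (cutRing S.R L)) : Nonempty (Unique S.commSq.LiftStruct) := by
  let := (cutHom S.R L).toAlgebra
  have hfr := cut_isFractionRing (R := S.R) L
  obtain ⟨ρ, hρ⟩ := Spec.map_surjective (x₀ ≫ g)
  obtain ⟨σ, hσ⟩ := Spec.map_surjective S.i₂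
  have e0 : ∀ o : O, algebraMap S.R S.K (σ.hom o) = (ρ.hom o : S.K) := by
    intro o
    have h1 := S.commSq.w
    rw [← hx₀, ← hσ, Category.assoc, ← hρ, ← Spec.map_comp, ← Spec.map_comp] at h1
    exact (congrArg (fun f : CommRingCat.of O ⟶ CommRingCat.of S.K => f.hom o)
      (Spec.map_injective h1)).symm
  let σ' : O →+* cutRing S.R L := σ.hom.codRestrict (cutRing S.R L) fun o => by
    rw [Subring.mem_comap, e0]
    exact (ρ.hom o).2
  have e1 : x₀ ≫ g = fracPt (cutRing S.R L) L ≫ Spec.map (CommRingCat.ofHom σ') := by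
    rw [← hρ, ← Spec.map_comp]
    refine congrArg Spec.map ?_
    ext o
    exact (e0 o).symm
  obtain ⟨l, hl1, hl2⟩ := hS L _ x₀ e1
  have := IsSeparated.valuativeCriterion g S
  refine ⟨⟨⟨Spec.map (CommRingCat.ofHom (cutRing S.R L).subtype) ≫ l, ?_, ?_⟩⟩,
    fun l => Subsingleton.elim _ _⟩
  · rw [← hx₀, ← hl1, ← Spec.map_comp_assoc, ← Spec.map_comp_assoc]
    rfl
  · rw [← hσ, Category.assoc, hl2, ← Spec.map_comp]
    rfl

/-- The valuative criterion for a ring with the lifting property. -/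
theorem valuative_of_hasLift {𝒰 : Scheme.{0}} {O : Type} [CommRing O]
    (g : 𝒰 ⟶ Spec (CommRingCat.of O)) (hsep : IsSeparated g) (S : ValuativeCommSq g)
    (hS : HasLift g S.R) : Nonempty (Unique S.commSq.LiftStruct) := by
  obtain ⟨l, hl1, hl2⟩ := hS S.K S.i₂ S.i₁ S.commSq.w
  have := IsSeparated.valuativeCriterion g S
  exact ⟨⟨⟨l, hl1, hl2⟩⟩, fun l => Subsingleton.elim _ _⟩
-- END WFINa

-- BEGIN WFINb
/-- The lifting property for all discrete valuation rings. -/
theorem IsUnion.hasLift_dvr {Y : Scheme.{0}} (hY : Nice Y) {T : ResTowerA Y} {𝒰 : Scheme.{0}}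
    {π : 𝒰 ⟶ Y} {ι : ∀ i, (regOpen (T.Z i)).toScheme ⟶ 𝒰} (h : IsUnion T.toResTower π ι)
    (ht : ∀ i, ∃ j : (regOpen (T.Z i)).toScheme ⟶ (regOpen (T.Z (i + 1))).toScheme,
        j ≫ ι (i + 1) = ι i ∧ j ≫ (regOpen (T.Z (i + 1))).ι ≫ T.β i = (regOpen (T.Z i)).ι)
    {O : Type} [CommRing O] (g : Y ⟶ Spec (CommRingCat.of O)) (hg : IsProper g) (V : Type)
    [CommRing V] [IsDomain V] [IsDiscreteValuationRing V] : HasLift (π ≫ g) V := by
  intro K _ _ _ s x hx
  have hp := hg
  rw [IsProper.eq_valuativeCriterion] at hp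
  obtain ⟨⟨y, hy1, hy2⟩⟩ := (hp.1.1.1.existence
    ⟨V, K, x ≫ π, s, ⟨by rw [Category.assoc, hx]⟩⟩).exists_lift
  obtain ⟨p, hp⟩ := CharP.exists V
  rcases CharP.char_is_prime_or_zero V p with hpp | rfl
  · obtain ⟨l, hl1, hl2⟩ := h.exists_liftW ht hpp x y hy1.symm
    exact ⟨l, hl1, by rw [← Category.assoc, hl2, hy2]⟩
  · have := CharP.charP_to_charZero V
    obtain ⟨d, hd⟩ := exists_ramification_bound V
    obtain ⟨b, hb1, hb2⟩ := h.exists_lift hY d hd x y hy1.symm
    exact ⟨b ≫ ι d, hb1, by rw [← Category.assoc, hb2, hy2]⟩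

/-- The lifting property for valuation rings containing the rational numbers. -/
theorem IsUnion.hasLift_rat {Y : Scheme.{0}} (hY : Nice Y) {T : ResTower Y} {𝒰 : Scheme.{0}}
    {π : 𝒰 ⟶ Y} {ι : ∀ i, (regOpen (T.Z i)).toScheme ⟶ 𝒰} (h : IsUnion T π ι)
    {O : Type} [CommRing O] (g : Y ⟶ Spec (CommRingCat.of O)) (hg : IsProper g) (R : Type)
    [CommRing R] [IsDomain R] [ValuationRing R] (hR : ∀ n : ℕ, n ≠ 0 → IsUnit (n : R)) :
    HasLift (π ≫ g) R := by
  intro K _ _ _ s x hx
  have hp := hg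
  rw [IsProper.eq_valuativeCriterion] at hp
  obtain ⟨⟨y, hy1, hy2⟩⟩ := (hp.1.1.1.existence
    ⟨R, K, x ≫ π, s, ⟨by rw [Category.assoc, hx]⟩⟩).exists_lift
  have hch : CharZero (ResidueField R) := charZero_of_inj_zero fun n hn => by
    by_contra hne
    have h1 := (hR n hne).map (residue R)
    rw [map_natCast, hn] at h1
    exact not_isUnit_zero h1
  let φ : R →+* PowerSeries (ResidueField R) := (PowerSeries.C).comp (residue R)
  have hφ : IsLocalHom φ := ⟨fun a ha => by
    have h1 : IsUnit (residue R a) := by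
      have h2 := ha.map (PowerSeries.constantCoeff (R := ResidueField R))
      simpa [φ] using h2
    exact (isUnit_map_iff (residue R) a).1 h1⟩
  have hcz : CharZero (PowerSeries (ResidueField R)) :=
    charZero_of_injective_ringHom (f := (PowerSeries.C (R := ResidueField R)))
      PowerSeries.C_injective
  obtain ⟨d, hd⟩ := exists_ramification_bound (PowerSeries (ResidueField R))
  obtain ⟨b, hb1, hb2⟩ := h.exists_lift_of_local hY d φ hd x y hy1.symm
  exact ⟨b ≫ ι d, hb1, by rw [← Category.assoc, hb2, hy2]⟩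
-- END WFINb

-- BEGIN WFINc
/-- A morphism which is an isomorphism over an open subscheme is an isomorphism over all smaller
open subschemes. -/
theorem isIso_restrict_of_le {X Y : Scheme.{0}} (f : X ⟶ Y) {V W : Y.Opens} (h : V ≤ W)
    (hW : IsIso (f ∣_ W)) : IsIso (f ∣_ V) := by
  have h1 := isPullback_morphismRestrict f V
  have h2 := isPullback_morphismRestrict f W
  have h3 : IsPullback (X.homOfLE (show f ⁻¹ᵁ V ≤ f ⁻¹ᵁ W from fun x hx => h hx)) (f ∣_ V) (f ∣_ W)
      (Y.homOfLE h) := by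
    refine IsPullback.of_right (h₁₂ := (f ⁻¹ᵁ W).ι) (h₂₂ := W.ι) (v₁₃ := f) ?_ ?_ ?_
    · simpa using h1.flip
    · exact (morphismRestrict_homOfLE f V W h).symm
    · exact h2.flip
  exact h3.isIso_snd_of_isIso
-- END WFINc

-- BEGIN WFINd
/-- The main theorem for a given integral proper model. -/
theorem exists_isValuativeModel {E : Type} [Field E] [NumberField E] {X Y : Scheme.{0}}
    [IsIntegral X] [IsIntegral Y] (f : X ⟶ Spec (CommRingCat.of E)) (hf : Smooth f)
    (g : Y ⟶ Spec (CommRingCat.of (𝓞 E))) (hg : IsProper g) (hgen : HasGenericFibre E f g) :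
    ∃ (𝒰 : Scheme.{0}) (π : 𝒰 ⟶ Y), IsValuativeModel E f (π ≫ g) ∧
      ∀ V : Y.Opens, (∀ y ∈ V, IsRegularLocalRing (Y.presheaf.stalk y)) → IsIso (π ∣_ V) := by
  have hY := nice_of_model f hf g hg hgen
  obtain ⟨T⟩ := exists_resTowerA hY
  obtain ⟨𝒰, π, ι, h, ht⟩ := T.toResTower.exists_unionA
  have h1 := h.isSeparated
  have h2 := h.locallyOfFiniteType
  have h3 := h.isIntegral
  have hsep : IsSeparated (π ≫ g) := inferInstance
  have hlft : LocallyOfFiniteType (π ≫ g) := inferInstance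
  have hcz : ∃ u : 𝒰, CharZ 𝒰 u := by
    obtain ⟨z, hz⟩ := (T.nice 0).cz
    have hz' := (T.nice 0).mem_regOpen hz
    have := h.imm 0
    refine ⟨ι 0 ⟨z, hz'⟩, ?_⟩
    have : IsIso ((ι 0).stalkMap ⟨z, hz'⟩) := inferInstance
    refine CharZ.map (β := ι 0) (y' := ⟨z, hz'⟩) ?_
    exact CharZ.of_isIso (β := (regOpen (T.Z 0)).ι) (y' := ⟨z, hz'⟩) hz inferInstance
  have himm := h.imm
  have hdvr : ∀ (V : Type) [CommRing V] [IsDomain V] [IsDiscreteValuationRing V],
      HasLift (π ≫ g) V := fun V _ _ _ => h.hasLift_dvr hY ht g hg V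
  have hcomp : ∀ (R : Type) [CommRing R] [IsDomain R] [ValuationRing R], IsComposed R →
      HasLift (π ≫ g) R := fun R _ _ _ hR => hasLift_of_isComposed (π ≫ g)
    (fun R _ _ _ hr => h.hasLift_rat hY g hg R hr) hdvr R hR
  have hft : ∀ U : 𝒰.affineOpens, Algebra.FiniteType ℤ Γ(𝒰, U) := finiteType_of_model _ hlft
  refine ⟨𝒰, π, ⟨h.isRegular, hsep, flat_of_charZ hcz _, hlft,
    hgen.comp π (regOpen Y) (fun y hy => hY.mem_regOpen hy) h.isIso,
    fun S hS => valuative_of_hasLift (π ≫ g) hsep S (hdvr S.R), fun S hS => ?_, ?_,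
    ⟨fun d => (ι d).opensRange, monotone_nat_of_le_succ fun i => h.mono i, h.cover,
      fun d => h.fin hY hg hgen d _ rfl⟩, fun hc => ?_⟩, fun V hV =>
        isIso_restrict_of_le π (W := regOpen Y) (le_sSup (show V ∈ {U : Y.Opens | ∀ y ∈ U,
          IsRegularLocalRing (Y.presheaf.stalk y)} from hV)) h.isIso⟩
  · obtain ⟨s, x₀, hx₀⟩ := exists_fg_field hft S.i₁
    have hvr := cut_valuationRing (R := S.R) (Subfield.closure (s : Set S.K))
    exact valuative_of_cut (π ≫ g) hsep S _ x₀ hx₀ (hcomp _ (hS s))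
  · intro D₀ D K _ _ _ _ _ _ _ _ _ _ _ s x hx
    exact exists_integral_pointsA (D₀ := D₀) (π ≫ g) hsep hlft hft hdvr s x hx
  · have := h.isProper hY hc
    infer_instance

/-- The main theorem for closed subschemes of the generic fibre of a proper scheme. -/
theorem exists_isValuativeModel_of_closed {E : Type} [Field E] [NumberField E] {X P : Scheme.{0}}
    [IsIntegral X] (p : P ⟶ Spec (CommRingCat.of (𝓞 E))) (hp : IsProper p)
    (i : X ⟶ pullback p (genPt E)) (hi : IsClosedImmersion i)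
    (hf : Smooth (i ≫ pullback.snd p (genPt E))) :
    ∃ (𝒰 : Scheme.{0}) (g' : 𝒰 ⟶ Spec (CommRingCat.of (𝓞 E))),
      IsValuativeModel E (i ≫ pullback.snd p (genPt E)) g' := by
  obtain ⟨h1, -, h2, -⟩ := image_props p hp i hi
  obtain ⟨𝒰, π, h, -⟩ := exists_isValuativeModel _ hf _ h2 (hasGenericFibre_image p hp i hi)
  exact ⟨𝒰, _, h⟩

/-- **The main theorem.** -/
theorem exists_isValuativeModel_of_hasClosure {E : Type} [Field E] [NumberField E]
    {X : Scheme.{0}} [IsIntegral X] (f : X ⟶ Spec (CommRingCat.of E)) (hf : Smooth f)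
    (h : HasClosure E f) :
    ∃ (𝒰 : Scheme.{0}) (g' : 𝒰 ⟶ Spec (CommRingCat.of (𝓞 E))), IsValuativeModel E f g' := by
  rcases h with ⟨n, i, hi, rfl⟩ | ⟨P, p, i, hp, hi, rfl⟩
  · obtain ⟨e, he⟩ := exists_iso_PN (E := E) n
    have h1 : (i ≫ e.inv) ≫ pullback.snd (PNTo (𝓞 E) n) (genPt E) = i ≫ PNTo E n := by
      rw [← he, Category.assoc, Iso.inv_hom_id_assoc]
    rw [← h1] at hf ⊢
    exact exists_isValuativeModel_of_closed _ (isProper_PNTo _ _) _ inferInstance hf
  · exact exists_isValuativeModel_of_closed p hp i hi hf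
-- END WFINd

end Pool.Agent.Lib.MP_6a3dac_ag.NU
end
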