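import Mathlib

section

/-!
# Simplicial cones and their coordinates

The rows of an invertible rational matrix `R` generate a simplicial cone; `du R j` is the `j`-th
coordinate with respect to these rows, as a linear functional.
-/

set_option autoImplicit false

namespace Pool.Agent.Lib.MP_6a3dac_ag.Tor.AF

open Matrix Finset

variable {σ : Type} [Fintype σ] [DecidableEq σ]

/-- The `j`-th coordinate with respect to the rows of `R`. -/
noncomputable def du (R : Matrix σ σ ℚ) (j : σ) : σ → ℚ := fun i => R⁻¹ i j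

theorem row_du {R : Matrix σ σ ℚ} (hR : R.det ≠ 0) (l j : σ) :
    R l ⬝ᵥ du R j = if l = j then 1 else 0 := by
  have h := congrFun (congrFun (Matrix.mul_nonsing_inv R (isUnit_iff_ne_zero.2 hR)) l) j
  rw [Matrix.one_apply, Matrix.mul_apply] at h
  exact h

theorem row_du_self {R : Matrix σ σ ℚ} (hR : R.det ≠ 0) (j : σ) : R j ⬝ᵥ du R j = 1 := by
  rw [row_du hR, if_pos rfl]

theorem row_du_ne {R : Matrix σ σ ℚ} (hR : R.det ≠ 0) {l j : σ} (h : l ≠ j) :
    R l ⬝ᵥ du R j = 0 := by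
  rw [row_du hR, if_neg h]

/-- The expansion of a vector. -/
theorem expand {R : Matrix σ σ ℚ} (hR : R.det ≠ 0) (x : σ → ℚ) :
    x = ∑ j, (x ⬝ᵥ du R j) • R j := by
  have h : (x ᵥ* R⁻¹) ᵥ* R = x := by
    rw [Matrix.vecMul_vecMul, Matrix.nonsing_inv_mul R (isUnit_iff_ne_zero.2 hR), Matrix.vecMul_one]
  conv_lhs => rw [← h]
  ext i
  simp only [Matrix.vecMul, dotProduct, Finset.sum_apply, Pi.smul_apply, smul_eq_mul, du]

/-- The value of a functional in terms of its values on the rows. -/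
theorem dot_expand {R : Matrix σ σ ℚ} (hR : R.det ≠ 0) (x m : σ → ℚ) :
    x ⬝ᵥ m = ∑ j, (x ⬝ᵥ du R j) * (R j ⬝ᵥ m) := by
  conv_lhs => rw [expand hR x]
  rw [sum_dotProduct]
  exact Finset.sum_congr rfl fun j _ => by rw [smul_dotProduct, smul_eq_mul]

/-- A functional is determined by its values on the rows. -/
theorem dual_ext {R : Matrix σ σ ℚ} (hR : R.det ≠ 0) {m m' : σ → ℚ}
    (h : ∀ j, R j ⬝ᵥ m = R j ⬝ᵥ m') : m = m' := by
  have key : ∀ x : σ → ℚ, x ⬝ᵥ m = x ⬝ᵥ m' := fun x => by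
    rw [dot_expand hR x m, dot_expand hR x m']
    exact Finset.sum_congr rfl fun j _ => by rw [h j]
  ext i
  have := key (Pi.single i 1)
  rwa [single_dotProduct, single_dotProduct, one_mul, one_mul] at this

/-- The coordinates are unique. -/
theorem coord_unique {R : Matrix σ σ ℚ} (hR : R.det ≠ 0) (c : σ → ℚ) (k : σ) :
    (∑ j, c j • R j) ⬝ᵥ du R k = c k := by
  rw [sum_dotProduct]
  simp only [smul_dotProduct, smul_eq_mul, row_du hR]
  simp

/-- The rows are distinct. -/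
theorem row_injective {R : Matrix σ σ ℚ} (hR : R.det ≠ 0) {i j : σ} (h : R i = R j) : i = j := by
  by_contra hij
  have h1 := row_du_self hR j
  rw [← h, row_du_ne hR hij] at h1
  exact zero_ne_one h1

theorem det_update {R : Matrix σ σ ℚ} (hR : R.det ≠ 0) (x : σ → ℚ) (j : σ) :
    (R.updateRow j x).det = (x ⬝ᵥ du R j) * R.det := by
  conv_lhs => rw [expand hR x]
  rw [Matrix.det_updateRow_sum, smul_eq_mul]

/-- The `j`-th coordinate after the replacement of the `j`-th row by `x`. -/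
theorem du_update_self {R : Matrix σ σ ℚ} (hR : R.det ≠ 0) {x : σ → ℚ} {j : σ}
    (hx : x ⬝ᵥ du R j ≠ 0) : du (R.updateRow j x) j = (x ⬝ᵥ du R j)⁻¹ • du R j := by
  have hR' : (R.updateRow j x).det ≠ 0 := by
    rw [det_update hR]
    exact mul_ne_zero hx hR
  refine dual_ext hR' fun l => ?_
  rw [row_du hR', dotProduct_smul, smul_eq_mul]
  by_cases hl : l = j
  · subst hl
    rw [if_pos rfl, Matrix.updateRow_self, inv_mul_cancel₀ hx]
  · rw [if_neg hl, Matrix.updateRow_ne hl, row_du_ne hR hl, mul_zero]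

/-- The other coordinates after the replacement of the `j`-th row by `x`. -/
theorem du_update_ne {R : Matrix σ σ ℚ} (hR : R.det ≠ 0) {x : σ → ℚ} {j k : σ}
    (hx : x ⬝ᵥ du R j ≠ 0) (hk : k ≠ j) : du (R.updateRow j x) k =
      du R k - ((x ⬝ᵥ du R k) * (x ⬝ᵥ du R j)⁻¹) • du R j := by
  have hR' : (R.updateRow j x).det ≠ 0 := by
    rw [det_update hR]
    exact mul_ne_zero hx hR
  refine dual_ext hR' fun l => ?_
  rw [row_du hR', dotProduct_sub, dotProduct_smul, smul_eq_mul]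
  by_cases hl : l = j
  · subst hl
    rw [if_neg (Ne.symm hk), Matrix.updateRow_self, mul_assoc, inv_mul_cancel₀ hx, mul_one,
      sub_self]
  · rw [Matrix.updateRow_ne hl, row_du_ne hR hl, mul_zero, sub_zero, row_du hR]

end Pool.Agent.Lib.MP_6a3dac_ag.Tor.AF
end

section

/-!
# Coherent families of simplicial cones and star subdivisions
-/

set_option autoImplicit false

namespace Pool.Agent.Lib.MP_6a3dac_ag.Tor.AF

open Matrix Finset Filter

variable {σ : Type} [Fintype σ] [DecidableEq σ]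

/-- A simplicial cone together with a functional. -/
abbrev Pc (σ : Type) : Type := Matrix σ σ ℚ × (σ → ℚ)

/-- The vector `x` is in the cone. -/
def InC (x : σ → ℚ) (p : Pc σ) : Prop := ∀ j, 0 ≤ x ⬝ᵥ du p.1 j

/-- A coherent family of cones: the functionals are the restrictions of a strictly concave function
to the cones. -/
structure Coh (S : List (Pc σ)) : Prop where
  det : ∀ p ∈ S, p.1.det ≠ 0
  le : ∀ p ∈ S, ∀ p' ∈ S, ∀ j, p.1 j ⬝ᵥ p.2 ≤ p.1 j ⬝ᵥ p'.2
  eq : ∀ p ∈ S, ∀ p' ∈ S, ∀ j, p.1 j ⬝ᵥ p'.2 ≤ p.1 j ⬝ᵥ p.2 → ∃ l, p'.1 l = p.1 j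

section Lemmas

variable {S : List (Pc σ)} (hS : Coh S)

include hS

theorem Coh.le_of_inC {p p' : Pc σ} (hp : p ∈ S) (hp' : p' ∈ S) {x : σ → ℚ} (hx : InC x p) :
    x ⬝ᵥ p.2 ≤ x ⬝ᵥ p'.2 := by
  rw [dot_expand (hS.det p hp) x p.2, dot_expand (hS.det p hp) x p'.2]
  exact Finset.sum_le_sum fun j _ => mul_le_mul_of_nonneg_left (hS.le p hp p' hp' j) (hx j)

/-- If the values at a point `x` of the cone agree, the rows with a positive coefficient are rows of
the other cone. -/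
theorem Coh.row_of_eq {p p' : Pc σ} (hp : p ∈ S) (hp' : p' ∈ S) {x : σ → ℚ} (hx : InC x p)
    (h : x ⬝ᵥ p'.2 ≤ x ⬝ᵥ p.2) {i : σ} (hi : 0 < x ⬝ᵥ du p.1 i) : ∃ l, p'.1 l = p.1 i := by
  refine hS.eq p hp p' hp' i ?_
  by_contra hcon
  push Not at hcon
  have h1 : x ⬝ᵥ p.2 < x ⬝ᵥ p'.2 := by
    rw [dot_expand (hS.det p hp) x p.2, dot_expand (hS.det p hp) x p'.2]
    refine Finset.sum_lt_sum (fun j _ => mul_le_mul_of_nonneg_left (hS.le p hp p' hp' j) (hx j))
      ⟨i, mem_univ i, mul_lt_mul_of_pos_left hcon hi⟩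
  exact absurd h (not_le.2 h1)

theorem Coh.inC_of_eq {p p' : Pc σ} (hp : p ∈ S) (hp' : p' ∈ S) {x : σ → ℚ} (hx : InC x p)
    (h : x ⬝ᵥ p'.2 ≤ x ⬝ᵥ p.2) : InC x p' := by
  intro k
  rw [dot_expand (hS.det p hp) x (du p'.1 k)]
  refine Finset.sum_nonneg fun j _ => ?_
  rcases (hx j).lt_or_eq with hj | hj
  · obtain ⟨l, hl⟩ := hS.row_of_eq hp hp' hx h hj
    rw [← hl, row_du (hS.det p' hp')]
    refine mul_nonneg (hx j) ?_
    split_ifs <;> norm_num
  · rw [← hj, zero_mul]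

/-- If a point lies in two cones and its coefficients in one cone are less than `1`, then those in the
other cone are also less than `1`. -/
theorem Coh.lt_one {p p' : Pc σ} (hp : p ∈ S) (hp' : p' ∈ S) {x : σ → ℚ} (hx : InC x p)
    (hx' : InC x p') (h1 : ∀ j, x ⬝ᵥ du p.1 j < 1) (k : σ) : x ⬝ᵥ du p'.1 k < 1 := by
  have heq : x ⬝ᵥ p'.2 ≤ x ⬝ᵥ p.2 := hS.le_of_inC hp' hp hx'
  rw [dot_expand (hS.det p hp) x (du p'.1 k)]
  have hterm : ∀ j, 0 < x ⬝ᵥ du p.1 j → p.1 j ⬝ᵥ du p'.1 k = if p'.1 k = p.1 j then 1 else 0 := by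
    intro j hj
    obtain ⟨l, hl⟩ := hS.row_of_eq hp hp' hx heq hj
    rw [← hl, row_du (hS.det p' hp')]
    by_cases hlk : l = k
    · subst hlk; simp
    · rw [if_neg hlk, if_neg fun h => hlk (row_injective (hS.det p' hp') h).symm]
  by_cases hex : ∃ i, 0 < x ⬝ᵥ du p.1 i ∧ p'.1 k = p.1 i
  · obtain ⟨i, hi, hik⟩ := hex
    rw [Finset.sum_eq_single i]
    · rw [hterm i hi, if_pos hik, mul_one]
      exact h1 i
    · intro j _ hji
      rcases (hx j).lt_or_eq with hj | hj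
      · rw [hterm j hj, if_neg, mul_zero]
        intro h
        exact hji (row_injective (hS.det p hp) (h.symm.trans hik))
      · rw [← hj, zero_mul]
    · intro h
      exact absurd (mem_univ i) h
  · rw [Finset.sum_eq_zero]
    · exact zero_lt_one
    · intro j _
      rcases (hx j).lt_or_eq with hj | hj
      · rw [hterm j hj, if_neg fun h => hex ⟨j, hj, h⟩, mul_zero]
      · rw [← hj, zero_mul]

end Lemmas

/-- The cone in which the `j`-th row is replaced by `x`. -/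
noncomputable def starC (x : σ → ℚ) (K : ℚ) (p : Pc σ) (j : σ) : Pc σ :=
  (p.1.updateRow j x, K • p.2 + (x ⬝ᵥ du p.1 j)⁻¹ • du p.1 j)

open Classical in
/-- The star subdivision of one cone. -/
noncomputable def starF (x : σ → ℚ) (K : ℚ) (p : Pc σ) : List (Pc σ) :=
  if InC x p then
    (Finset.univ.toList.filter fun j => decide (0 < x ⬝ᵥ du p.1 j)).map (starC x K p)
  else [(p.1, K • p.2)]

/-- The star subdivision of a family of cones. -/
noncomputable def starS (x : σ → ℚ) (K : ℚ) (S : List (Pc σ)) : List (Pc σ) :=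
  S.flatMap (starF x K)

theorem mem_starF {x : σ → ℚ} {K : ℚ} {p q : Pc σ} : q ∈ starF x K p ↔
    (InC x p ∧ ∃ j, 0 < x ⬝ᵥ du p.1 j ∧ q = starC x K p j) ∨
      (¬ InC x p ∧ q = (p.1, K • p.2)) := by
  classical
  unfold starF
  split_ifs with h
  · simp only [List.mem_map, List.mem_filter, Finset.mem_toList, mem_univ, decide_eq_true_eq,
      true_and, h, not_true_eq_false, false_and, or_false]
    exact ⟨fun ⟨j, h1, h2⟩ => ⟨j, h1, h2.symm⟩, fun ⟨j, h1, h2⟩ => ⟨j, h1, h2.symm⟩⟩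
  · simp [h]

theorem mem_starS {x : σ → ℚ} {K : ℚ} {S : List (Pc σ)} {q : Pc σ} :
    q ∈ starS x K S ↔ ∃ p ∈ S, q ∈ starF x K p := by
  unfold starS
  rw [List.mem_flatMap]

/-- The conditions on the factor `K`. -/
structure GoodK (x : σ → ℚ) (K : ℚ) (S : List (Pc σ)) : Prop where
  pos : 0 < K
  one : ∀ p ∈ S, ∀ p' ∈ S, x ⬝ᵥ p.2 < x ⬝ᵥ p'.2 → 1 < K * (x ⬝ᵥ p'.2 - x ⬝ᵥ p.2)
  row : ∀ p ∈ S, ∀ p' ∈ S, ∀ j k, p.1 j ⬝ᵥ p.2 < p.1 j ⬝ᵥ p'.2 →
    0 < K * (p.1 j ⬝ᵥ p'.2 - p.1 j ⬝ᵥ p.2) + (x ⬝ᵥ du p'.1 k)⁻¹ * (p.1 j ⬝ᵥ du p'.1 k)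

theorem eventually_lin {a : ℚ} (ha : 0 < a) (b : ℚ) : ∀ᶠ K : ℚ in atTop, b < K * a := by
  filter_upwards [eventually_gt_atTop (b / a)] with K hK
  rwa [div_lt_iff₀ ha] at hK

theorem eventually_list {α : Type} (S : List α) {Q : ℚ → α → Prop}
    (h : ∀ p ∈ S, ∀ᶠ K in atTop, Q K p) : ∀ᶠ K in atTop, ∀ p ∈ S, Q K p := by
  induction S with
  | nil => simp
  | cons a S ih =>
    have h1 := h a List.mem_cons_self
    have h2 := ih fun p hp => h p (List.mem_cons_of_mem _ hp)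
    filter_upwards [h1, h2] with K h1 h2 p hp
    rcases List.mem_cons.1 hp with rfl | hp
    · exact h1
    · exact h2 p hp

theorem eventually_goodK (x : σ → ℚ) (S : List (Pc σ)) : ∀ᶠ K in atTop, GoodK x K S := by
  have h1 : ∀ᶠ K : ℚ in atTop, ∀ p ∈ S, ∀ p' ∈ S, x ⬝ᵥ p.2 < x ⬝ᵥ p'.2 →
      1 < K * (x ⬝ᵥ p'.2 - x ⬝ᵥ p.2) := by
    refine eventually_list S fun p _ => eventually_list S fun p' _ => ?_
    by_cases h : x ⬝ᵥ p.2 < x ⬝ᵥ p'.2
    · filter_upwards [eventually_lin (sub_pos.2 h) 1] with K hK _ using hK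
    · exact Eventually.of_forall fun K h' => absurd h' h
  have h2 : ∀ᶠ K : ℚ in atTop, ∀ p ∈ S, ∀ p' ∈ S, ∀ j k, p.1 j ⬝ᵥ p.2 < p.1 j ⬝ᵥ p'.2 →
      0 < K * (p.1 j ⬝ᵥ p'.2 - p.1 j ⬝ᵥ p.2) + (x ⬝ᵥ du p'.1 k)⁻¹ * (p.1 j ⬝ᵥ du p'.1 k) := by
    refine eventually_list S fun p _ => eventually_list S fun p' _ => ?_
    rw [eventually_all]
    intro j
    rw [eventually_all]
    intro k
    by_cases h : p.1 j ⬝ᵥ p.2 < p.1 j ⬝ᵥ p'.2
    · filter_upwards [eventually_lin (sub_pos.2 h)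
        (-((x ⬝ᵥ du p'.1 k)⁻¹ * (p.1 j ⬝ᵥ du p'.1 k)))] with K hK _
      linarith
    · exact Eventually.of_forall fun K h' => absurd h' h
  filter_upwards [eventually_gt_atTop 0, h1, h2] with K h0 h1 h2 using ⟨h0, h1, h2⟩

section Step

variable {x : σ → ℚ} {K : ℚ} {S : List (Pc σ)}

theorem starC_val (p : Pc σ) (k : σ) (y : σ → ℚ) : y ⬝ᵥ (starC x K p k).2 =
    K * (y ⬝ᵥ p.2) + (x ⬝ᵥ du p.1 k)⁻¹ * (y ⬝ᵥ du p.1 k) := by
  unfold starC
  rw [dotProduct_add, dotProduct_smul, dotProduct_smul, smul_eq_mul, smul_eq_mul]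

variable (hS : Coh S) (hK : GoodK x K S)

include hS hK

/-- The values at the old rows. -/
theorem val_row {p p' q' : Pc σ} (hp : p ∈ S) (hp' : p' ∈ S) (hq' : q' ∈ starF x K p') (j : σ) :
    K * (p.1 j ⬝ᵥ p.2) ≤ p.1 j ⬝ᵥ q'.2 ∧
      (p.1 j ⬝ᵥ q'.2 ≤ K * (p.1 j ⬝ᵥ p.2) → ∃ l, q'.1 l = p.1 j) := by
  have hle := hS.le p hp p' hp' j
  have heq := hS.eq p hp p' hp' j
  rcases mem_starF.1 hq' with ⟨hx, k, hk, rfl⟩ | ⟨hx, rfl⟩
  · rw [starC_val]
    rcases hle.lt_or_eq with h | h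
    · have h1 := hK.row p hp p' hp' j k h
      have h2 : K * (p.1 j ⬝ᵥ p.2) < K * (p.1 j ⬝ᵥ p'.2) +
          (x ⬝ᵥ du p'.1 k)⁻¹ * (p.1 j ⬝ᵥ du p'.1 k) := by
        rw [mul_sub] at h1
        linarith
      exact ⟨h2.le, fun h3 => absurd h3 (not_le.2 h2)⟩
    · obtain ⟨l, hl⟩ := heq h.ge
      rw [← hl] at h ⊢
      rw [row_du (hS.det p' hp'), h]
      by_cases hlk : l = k
      · subst hlk
        rw [if_pos rfl, mul_one]
        have h4 : 0 < (x ⬝ᵥ du p'.1 l)⁻¹ := inv_pos.2 hk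
        exact ⟨by linarith, fun h3 => absurd h3 (not_le.2 (by linarith))⟩
      · rw [if_neg hlk, mul_zero, add_zero]
        refine ⟨le_rfl, fun _ => ⟨l, ?_⟩⟩
        show p'.1.updateRow k x l = p'.1 l
        rw [Matrix.updateRow_ne hlk]
  · rw [dotProduct_smul, smul_eq_mul]
    refine ⟨mul_le_mul_of_nonneg_left hle hK.pos.le, fun h => heq ?_⟩
    exact le_of_mul_le_mul_left h hK.pos

/-- The values at the new ray. -/
theorem val_new {p p' q' : Pc σ} (hp : p ∈ S) (hx : InC x p) (hp' : p' ∈ S)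
    (hq' : q' ∈ starF x K p') :
    K * (x ⬝ᵥ p.2) + 1 ≤ x ⬝ᵥ q'.2 ∧
      (x ⬝ᵥ q'.2 ≤ K * (x ⬝ᵥ p.2) + 1 → ∃ l, q'.1 l = x) := by
  have hle := hS.le_of_inC hp hp' hx
  rcases mem_starF.1 hq' with ⟨hx', k, hk, rfl⟩ | ⟨hx', rfl⟩
  · rw [starC_val, inv_mul_cancel₀ hk.ne']
    refine ⟨by linarith [mul_le_mul_of_nonneg_left hle hK.pos.le], fun _ => ⟨k, ?_⟩⟩
    show p'.1.updateRow k x k = x
    rw [Matrix.updateRow_self]
  · rw [dotProduct_smul, smul_eq_mul]
    have h : x ⬝ᵥ p.2 < x ⬝ᵥ p'.2 := by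
      refine lt_of_le_of_ne hle fun h => hx' (hS.inC_of_eq hp hp' hx h.ge)
    have h1 := hK.one p hp p' hp' h
    rw [mul_sub] at h1
    exact ⟨by linarith, fun h3 => absurd h3 (not_le.2 (by linarith))⟩

/-- **The star subdivision of a coherent family is coherent.** -/
theorem Coh.star : Coh (starS x K S) := by
  have key : ∀ q ∈ starS x K S, ∀ q' ∈ starS x K S, ∀ j,
      q.1 j ⬝ᵥ q.2 ≤ q.1 j ⬝ᵥ q'.2 ∧ (q.1 j ⬝ᵥ q'.2 ≤ q.1 j ⬝ᵥ q.2 → ∃ l, q'.1 l = q.1 j) := by
    intro q hq q' hq' j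
    obtain ⟨p, hp, hqp⟩ := mem_starS.1 hq
    obtain ⟨p', hp', hqp'⟩ := mem_starS.1 hq'
    rcases mem_starF.1 hqp with ⟨hx, k, hk, rfl⟩ | ⟨hx, rfl⟩
    · by_cases hjk : j = k
      · subst hjk
        have h1 : (starC x K p j).1 j = x := Matrix.updateRow_self
        rw [h1, starC_val, inv_mul_cancel₀ hk.ne']
        exact val_new hS hK hp hx hp' hqp'
      · have h1 : (starC x K p k).1 j = p.1 j := Matrix.updateRow_ne hjk
        rw [h1, starC_val, row_du_ne (hS.det p hp) hjk, mul_zero, add_zero]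
        exact val_row hS hK hp hp' hqp' j
    · rw [dotProduct_smul, smul_eq_mul]
      exact val_row hS hK hp hp' hqp' j
  refine ⟨fun q hq => ?_, fun q hq q' hq' j => (key q hq q' hq' j).1,
    fun q hq q' hq' j => (key q hq q' hq' j).2⟩
  obtain ⟨p, hp, hqp⟩ := mem_starS.1 hq
  rcases mem_starF.1 hqp with ⟨hx, k, hk, rfl⟩ | ⟨hx, rfl⟩
  · show (p.1.updateRow k x).det ≠ 0
    rw [det_update (hS.det p hp)]
    exact mul_ne_zero hk.ne' (hS.det p hp)
  · exact hS.det p hp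

end Step

end Pool.Agent.Lib.MP_6a3dac_ag.Tor.AF
end

section

/-!
# Unimodular coherent subdivisions
-/

set_option autoImplicit false

namespace Pool.Agent.Lib.MP_6a3dac_ag.Tor.AF

open Matrix Finset Filter

variable {σ : Type} [Fintype σ] [DecidableEq σ]

/-- The nonnegative elements for a total preorder on the space of functionals. -/
structure TotQ (P : (σ → ℚ) → Prop) : Prop where
  add : ∀ x y, P x → P y → P (x + y)
  total : ∀ x, P x ∨ P (-x)
  smul : ∀ (c : ℚ) (x : σ → ℚ), 0 ≤ c → P x → P (c • x)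

omit [Fintype σ] [DecidableEq σ] in
theorem TotQ.of_smul {P : (σ → ℚ) → Prop} (hP : TotQ P) {c : ℚ} (hc : 0 < c) {x : σ → ℚ}
    (h : P (c • x)) : P x := by
  have h1 := hP.smul c⁻¹ _ (inv_nonneg.2 hc.le) h
  rwa [smul_smul, inv_mul_cancel₀ hc.ne', one_smul] at h1

omit [Fintype σ] [DecidableEq σ] in
/-- The smallest quotient. -/
theorem TotQ.exists_min {P : (σ → ℚ) → Prop} (hP : TotQ P) (c : σ → ℚ) (a : σ → σ → ℚ)
    (s : Finset σ) (hs : s.Nonempty) (hc : ∀ j ∈ s, 0 < c j) :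
    ∃ j ∈ s, ∀ l ∈ s, P (c j • a l - c l • a j) := by
  induction hs using Finset.Nonempty.cons_induction with
  | singleton i =>
    refine ⟨i, mem_singleton_self i, fun l hl => ?_⟩
    rw [mem_singleton] at hl
    subst hl
    rw [sub_self]
    have h := hP.total 0
    rwa [neg_zero, or_self] at h
  | cons i s hi hs ih =>
    obtain ⟨j, hj, hmin⟩ := ih fun l hl => hc l (mem_cons_of_mem hl)
    have hci : 0 < c i := hc i (mem_cons_self i s)
    have hcj : 0 < c j := hc j (mem_cons_of_mem hj)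
    rcases hP.total (c j • a i - c i • a j) with h | h
    · refine ⟨j, mem_cons_of_mem hj, fun l hl => ?_⟩
      rcases mem_cons.1 hl with rfl | hl
      · exact h
      · exact hmin l hl
    · rw [neg_sub] at h
      refine ⟨i, mem_cons_self i s, fun l hl => ?_⟩
      rcases mem_cons.1 hl with rfl | hl
      · rw [sub_self]
        have h := hP.total 0
        rwa [neg_zero, or_self] at h
      · have hcl : 0 < c l := hc l (mem_cons_of_mem hl)
        refine hP.of_smul hcj ?_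
        have h1 := hP.add _ _ (hP.smul (c l) _ hcl.le h) (hP.smul (c i) _ hci.le (hmin l hl))
        convert h1 using 1
        ext k
        simp only [Pi.add_apply, Pi.sub_apply, Pi.smul_apply, smul_eq_mul]
        ring

/-- The family covers the functional preorder `P`. -/
def Cov (P : (σ → ℚ) → Prop) (S : List (Pc σ)) : Prop := ∃ p ∈ S, ∀ j, P (du p.1 j)

/-- The star subdivision still covers. -/
theorem Cov.star {P : (σ → ℚ) → Prop} (hP : TotQ P) {S : List (Pc σ)} (hS : Coh S) {x : σ → ℚ}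
    (hx : x ≠ 0) (K : ℚ) (h : Cov P S) : Cov P (starS x K S) := by
  classical
  obtain ⟨p, hp, hj⟩ := h
  by_cases hxp : InC x p
  · have hne : (Finset.univ.filter fun j => 0 < x ⬝ᵥ du p.1 j).Nonempty := by
      by_contra hcon
      rw [not_nonempty_iff_eq_empty, filter_eq_empty_iff] at hcon
      apply hx
      rw [expand (hS.det p hp) x]
      refine Finset.sum_eq_zero fun j _ => ?_
      rw [le_antisymm (not_lt.1 (hcon (mem_univ j))) (hxp j), zero_smul]
    obtain ⟨j, hj1, hmin⟩ := hP.exists_min (fun j => x ⬝ᵥ du p.1 j) (fun j => du p.1 j) _ hne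
      fun j hj => (mem_filter.1 hj).2
    have hcj : 0 < x ⬝ᵥ du p.1 j := (mem_filter.1 hj1).2
    refine ⟨starC x K p j, mem_starS.2 ⟨p, hp, mem_starF.2 (Or.inl ⟨hxp, j, hcj, rfl⟩)⟩,
      fun l => ?_⟩
    show P (du (p.1.updateRow j x) l)
    by_cases hlj : l = j
    · subst hlj
      rw [du_update_self (hS.det p hp) hcj.ne']
      exact hP.smul _ _ (inv_nonneg.2 hcj.le) (hj l)
    · rw [du_update_ne (hS.det p hp) hcj.ne' hlj]
      rcases (hxp l).lt_or_eq with hl | hl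
      · have h1 := hP.smul (x ⬝ᵥ du p.1 j)⁻¹ _ (inv_nonneg.2 hcj.le)
          (hmin l (mem_filter.2 ⟨mem_univ l, hl⟩))
        convert h1 using 1
        rw [smul_sub, smul_smul, smul_smul, inv_mul_cancel₀ hcj.ne', one_smul, mul_comm]
      · rw [← hl, zero_mul, zero_smul, sub_zero]
        exact hj l
  · exact ⟨(p.1, K • p.2), mem_starS.2 ⟨p, hp, mem_starF.2 (Or.inr ⟨hxp, rfl⟩)⟩, hj⟩

/-! ### The measure -/

/-- The absolute value of the determinant. -/
noncomputable def mult (R : Matrix σ σ ℚ) : ℕ := ⌊|R.det|⌋₊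

/-- The weight of a cone. -/
noncomputable def wt (p : Pc σ) : ℕ := (Fintype.card σ + 1) ^ mult p.1

theorem exists_int_det {R : Matrix σ σ ℚ} (h : ∀ i j, ∃ z : ℤ, R i j = z) :
    ∃ z : ℤ, R.det = z := by
  choose M hM using h
  have h1 : R = (Matrix.of M).map fun z : ℤ => (z : ℚ) := by
    ext i j
    exact hM i j
  exact ⟨(Matrix.of M).det, by rw [h1, ← Int.cast_det]⟩

theorem mult_eq {R : Matrix σ σ ℚ} (h : ∀ i j, ∃ z : ℤ, R i j = z) : (mult R : ℚ) = |R.det| := by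
  obtain ⟨z, hz⟩ := exists_int_det h
  unfold mult
  rw [hz, ← Int.cast_abs, ← Int.natCast_natAbs z, Int.cast_natCast, Nat.floor_natCast]

theorem mult_update {R : Matrix σ σ ℚ} (hR : R.det ≠ 0) (h : ∀ i j, ∃ z : ℤ, R i j = z)
    {x : σ → ℚ} (hx : ∀ i, ∃ z : ℤ, x i = z) {j : σ} (h0 : 0 < x ⬝ᵥ du R j)
    (h1 : x ⬝ᵥ du R j < 1) : mult (R.updateRow j x) < mult R := by
  have h' : ∀ i k, ∃ z : ℤ, R.updateRow j x i k = z := by
    intro i k
    by_cases hi : i = j
    · subst hi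
      rw [Matrix.updateRow_self]
      exact hx k
    · rw [Matrix.updateRow_ne hi]
      exact h i k
  have h2 : (mult (R.updateRow j x) : ℚ) < mult R := by
    rw [mult_eq h', mult_eq h, det_update hR, abs_mul, abs_of_pos h0]
    exact mul_lt_of_lt_one_left (abs_pos.2 hR) h1
  exact_mod_cast h2

theorem mult_pos {R : Matrix σ σ ℚ} (hR : R.det ≠ 0) (h : ∀ i j, ∃ z : ℤ, R i j = z) :
    0 < mult R := by
  have h1 : (0 : ℚ) < mult R := by
    rw [mult_eq h]
    exact abs_pos.2 hR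
  exact_mod_cast h1

theorem wt_starF {p : Pc σ} (hp : p.1.det ≠ 0) (hi : ∀ i j, ∃ z : ℤ, p.1 i j = z) {x : σ → ℚ}
    (hx : ∀ i, ∃ z : ℤ, x i = z) (K : ℚ) (h1 : InC x p → ∀ j, x ⬝ᵥ du p.1 j < 1) :
    ((starF x K p).map wt).sum ≤ wt p ∧ (InC x p → ((starF x K p).map wt).sum < wt p) := by
  classical
  by_cases h : InC x p
  · have hlt : ((starF x K p).map wt).sum < wt p := by
      unfold starF
      rw [if_pos h]
      obtain ⟨n, hn⟩ : ∃ n, mult p.1 = n + 1 := ⟨mult p.1 - 1, by have := mult_pos hp hi; omega⟩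
      have hb : ∀ y ∈ List.map wt (List.map (starC x K p)
          (List.filter (fun j => decide (0 < x ⬝ᵥ du p.1 j)) univ.toList)),
          y ≤ (Fintype.card σ + 1) ^ n := by
        intro y hy
        rw [List.mem_map] at hy
        obtain ⟨q, hq, rfl⟩ := hy
        rw [List.mem_map] at hq
        obtain ⟨j, hj, rfl⟩ := hq
        rw [List.mem_filter, decide_eq_true_eq] at hj
        have h2 := mult_update hp hi hx hj.2 (h1 h j)
        unfold wt
        refine Nat.pow_le_pow_right (by omega) ?_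
        show mult (p.1.updateRow j x) ≤ n
        omega
      refine (List.sum_le_card_nsmul _ _ hb).trans_lt ?_
      rw [List.length_map, List.length_map, smul_eq_mul]
      have h3 : (List.filter (fun j => decide (0 < x ⬝ᵥ du p.1 j)) univ.toList).length ≤
          Fintype.card σ := by
        refine (List.length_filter_le _ _).trans ?_
        rw [Finset.length_toList, Finset.card_univ]
      unfold wt
      rw [hn, pow_succ, mul_comm]
      have h4 : 0 < (Fintype.card σ + 1) ^ n := by positivity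
      exact Nat.mul_lt_mul_of_pos_left (by omega) h4
    exact ⟨hlt.le, fun _ => hlt⟩
  · refine ⟨?_, fun h' => absurd h' h⟩
    unfold starF
    rw [if_neg h]
    simp [wt]

theorem wt_starS {S : List (Pc σ)} (hS : Coh S) (hi : ∀ p ∈ S, ∀ i j, ∃ z : ℤ, p.1 i j = z)
    {x : σ → ℚ} (hx : ∀ i, ∃ z : ℤ, x i = z) (K : ℚ) {p₀ : Pc σ} (hp₀ : p₀ ∈ S)
    (hxp : InC x p₀) (h1 : ∀ p ∈ S, InC x p → ∀ j, x ⬝ᵥ du p.1 j < 1) :
    ((starS x K S).map wt).sum < (S.map wt).sum := by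
  have h2 : ∀ S' : List (Pc σ), ((starS x K S').map wt).sum =
      (S'.map fun p => ((starF x K p).map wt).sum).sum := by
    intro S'
    induction S' with
    | nil => rfl
    | cons p S' ih =>
      have : starS x K (p :: S') = starF x K p ++ starS x K S' := by
        unfold starS
        rw [List.flatMap_cons]
      rw [this, List.map_append, List.sum_append, ih, List.map_cons, List.sum_cons]
  rw [h2]
  exact List.sum_lt_sum _ _ (fun p hp => (wt_starF (hS.det p hp) (hi p hp) hx K (h1 p hp)).1)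
    ⟨p₀, hp₀, (wt_starF (hS.det p₀ hp₀) (hi p₀ hp₀) hx K (h1 p₀ hp₀)).2 hxp⟩

/-- **Coherent unimodular subdivisions.** -/
theorem exists_unimodular (L : AddSubgroup (σ → ℚ)) (hL : ∀ x ∈ L, ∀ i, ∃ z : ℤ, x i = z) :
    ∀ (n : ℕ) (S : List (Pc σ)), (S.map wt).sum ≤ n → Coh S → (∀ p ∈ S, ∀ j, p.1 j ∈ L) →
      (∀ p ∈ S, ∀ j i, 0 ≤ p.1 j i) →
      ∃ S' : List (Pc σ), Coh S' ∧ (∀ p ∈ S', ∀ j, p.1 j ∈ L) ∧ (∀ p ∈ S', ∀ j i, 0 ≤ p.1 j i) ∧
        (∀ P : (σ → ℚ) → Prop, TotQ P → Cov P S → Cov P S') ∧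
        ∀ p ∈ S', ∀ x ∈ L, ∀ j, ∃ z : ℤ, x ⬝ᵥ du p.1 j = z := by
  intro n
  induction n with
  | zero =>
    intro S hn hS hSL hS0
    cases S with
    | nil =>
      exact ⟨[], hS, hSL, hS0, fun P _ h => h, fun p hp => absurd hp List.not_mem_nil⟩
    | cons p S =>
      have : 0 < wt p := by unfold wt; positivity
      rw [List.map_cons, List.sum_cons] at hn
      omega
  | succ n ih =>
    intro S hn hS hSL hS0
    by_cases hU : ∀ p ∈ S, ∀ x ∈ L, ∀ j, ∃ z : ℤ, x ⬝ᵥ du p.1 j = z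
    · exact ⟨S, hS, hSL, hS0, fun P _ h => h, hU⟩
    · push Not at hU
      obtain ⟨p₀, hp₀, y, hy, j₀, hj₀⟩ := hU
      obtain ⟨x, hx⟩ : ∃ x : σ → ℚ, x = y - ∑ j, ⌊y ⬝ᵥ du p₀.1 j⌋ • p₀.1 j := ⟨_, rfl⟩
      have hxL : x ∈ L := by
        rw [hx]
        exact L.sub_mem hy (L.sum_mem fun j _ => L.zsmul_mem (hSL p₀ hp₀ j) _)
      have hcx : ∀ k, x ⬝ᵥ du p₀.1 k = Int.fract (y ⬝ᵥ du p₀.1 k) := by
        intro k
        rw [hx, sub_dotProduct]
        have h1 : (∑ j, ⌊y ⬝ᵥ du p₀.1 j⌋ • p₀.1 j) =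
            ∑ j, (⌊y ⬝ᵥ du p₀.1 j⌋ : ℚ) • p₀.1 j := by
          refine Finset.sum_congr rfl fun j _ => ?_
          rw [Int.cast_smul_eq_zsmul]
        rw [h1, coord_unique (hS.det p₀ hp₀)]
        exact Int.self_sub_floor _
      have hxp : InC x p₀ := fun j => by
        rw [hcx]
        exact Int.fract_nonneg _
      have hx1 : ∀ j, x ⬝ᵥ du p₀.1 j < 1 := fun j => by
        rw [hcx]
        exact Int.fract_lt_one _
      have hx0 : x ≠ 0 := by
        rintro h0
        have h1 := hcx j₀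
        rw [h0, zero_dotProduct] at h1
        have h2 : y ⬝ᵥ du p₀.1 j₀ = ⌊y ⬝ᵥ du p₀.1 j₀⌋ := by
          have := Int.floor_add_fract (y ⬝ᵥ du p₀.1 j₀)
          rw [← h1, add_zero] at this
          exact this.symm
        exact hj₀ _ h2
      obtain ⟨K, hK⟩ := (eventually_goodK x S).exists
      have hxnn : ∀ i, 0 ≤ x i := by
        intro i
        rw [expand (hS.det p₀ hp₀) x, Finset.sum_apply]
        exact Finset.sum_nonneg fun j _ => mul_nonneg (hxp j) (hS0 p₀ hp₀ j i)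
      have hlt := wt_starS hS (fun p hp i j => hL _ (hSL p hp i) j) (hL x hxL) K hp₀ hxp
        fun p hp hxp' => hS.lt_one hp₀ hp hxp hxp' hx1
      obtain ⟨S', h1, h2, h3, h4, h5⟩ := ih (starS x K S) (by omega) (hS.star hK) (by
        intro q hq j
        obtain ⟨p, hp, hqp⟩ := mem_starS.1 hq
        rcases mem_starF.1 hqp with ⟨_, k, _, rfl⟩ | ⟨_, rfl⟩
        · by_cases hjk : j = k
          · subst hjk
            have : (starC x K p j).1 j = x := Matrix.updateRow_self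
            rw [this]
            exact hxL
          · have : (starC x K p k).1 j = p.1 j := Matrix.updateRow_ne hjk
            rw [this]
            exact hSL p hp j
        · exact hSL p hp j) (by
        intro q hq j i
        obtain ⟨p, hp, hqp⟩ := mem_starS.1 hq
        rcases mem_starF.1 hqp with ⟨_, k, _, rfl⟩ | ⟨_, rfl⟩
        · by_cases hjk : j = k
          · subst hjk
            have : (starC x K p j).1 j = x := Matrix.updateRow_self
            rw [this]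
            exact hxnn i
          · have : (starC x K p k).1 j = p.1 j := Matrix.updateRow_ne hjk
            rw [this]
            exact hS0 p hp j i
        · exact hS0 p hp j i)
      exact ⟨S', h1, h2, h3, fun P hP h => h4 P hP (h.star hP hS hx0 K), h5⟩

end Pool.Agent.Lib.MP_6a3dac_ag.Tor.AF
end
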