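import Pool.Agent.Lib.MP_6a3dac_ag.Mg.G062
import Pool.Agent.Lib.MP_6a3dac_ag.Mg.G026
import Pool.Agent.Lib.MP_6a3dac_ag.Mg.G021

section

/-!
# Regularity of the toric modification at the points of the model
-/

set_option autoImplicit false

namespace Pool.Agent.Lib.MP_6a3dac_ag.LS

open MvPolynomial NumberField IsDedekindDomain IsLocalRing
open Pool.Agent.Lib.MP_6a3dac_ag.DNF Pool.Agent.Lib.MP_6a3dac_ag.Bert
open Pool.Agent.Lib.MP_6a3dac_ag.Fam Pool.Agent.Lib.MP_6a3dac_ag.Tor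

variable {E : Type} [Field E] [NumberField E] {m c : ℕ} {J : HomIdeal (𝓞 E) (m + c + 1)}

section Point

variable {p : HomIdeal E (m + c + 1)} (hgen : GenFibreSmooth J)
  (hLD : ∀ i, LocDom (dId (bc (algebraMap (𝓞 E) E) J) i))
  (hp : p.ideal ∈ (bc (algebraMap (𝓞 E) E) J).ideal.minimalPrimes)
  (P : HeightOneSpectrum (𝓞 E)) {i : Fin (m + c + 1)} (hi : X i ∉ p.ideal) {D : Type} [CommRing D]
  [IsDomain D] [IsLocalRing D]
  (φ : MvPolynomial {l : Fin (m + c + 1) // l ≠ i} (locRing E P) →+* D)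
  (hφ : ∀ q, φ q = 0 ↔ MvPolynomial.map (algebraMap (locRing E P) E) q ∈ dId p i)
include hgen hLD hp hi hφ

/-- TASK L6a -/
theorem regular_of_logOver {l s : ℕ} {e : Fin l → Fin s → ℕ} {v : Fin l → ℕ}
    {h : Fin l → locRing E P} {K : Fin s → HomIdeal (𝓞 E) (m + c + 1)}
    (hT : LogOver P e h J K) {𝒢 : Finset ((Fin s → ℕ) × ℕ)} (h𝒢 : IsLCharts e v 𝒢) {ϖ : 𝓞 E}
    (hϖ : Irreducible (algebraMap (𝓞 E) (locRing E P) ϖ)) {η : Fin l → locRing E P}
    (hη : ∀ j, IsUnit (η j))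
    (hh : ∀ j, h j = η j * algebraMap (𝓞 E) (locRing E P) ϖ ^ v j)
    {G : Finset (MvPolynomial (Fin (m + c + 1)) (𝓞 E))}
    (hG : Ideal.span (dehom i '' (G : Set (MvPolynomial (Fin (m + c + 1)) (𝓞 E)))) =
      torSpan (fun j => dId (K j) i) (C ϖ) 𝒢)
    {Θ : 𝓞 E} (hΘ0 : Θ ≠ 0) (hΘ : C Θ ∈ torSpan (fun j => dId (K j) i) (C ϖ) 𝒢)
    (b : D) (hb0 : b ≠ 0) (hb1 : b ∣ φ (C (algebraMap (𝓞 E) (locRing E P) Θ)))
    (hb2 : ∀ g ∈ G, b ∣ φ (MvPolynomial.map (algebraMap (𝓞 E) (locRing E P)) (dehom i g)))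
    (hb3 : b ∈ Submodule.span (locIn φ) (insert (φ (C (algebraMap (𝓞 E) (locRing E P) Θ)))
        ((fun g => φ (MvPolynomial.map (algebraMap (𝓞 E) (locRing E P)) (dehom i g))) ''
          (G : Set (MvPolynomial (Fin (m + c + 1)) (𝓞 E))))))
    (hmin : ∀ R' : Subring D, Dom R' → locIn φ ≤ R' →
      (∀ w, (b * w = φ (C (algebraMap (𝓞 E) (locRing E P) Θ)) ∨ ∃ g ∈ G,
        b * w = φ (MvPolynomial.map (algebraMap (𝓞 E) (locRing E P)) (dehom i g))) →
          w ∈ R') → R' = ⊤) :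
    IsRegularLocalRing D := by
  classical
  have hθinj : Function.Injective (algebraMap (𝓞 E) (locRing E P)) :=
    FaithfulSMul.algebraMap_injective _ _
  have hJ0 : ∀ f ∈ dId J i,
      φ.comp (MvPolynomial.map (algebraMap (𝓞 E) (locRing E P))) f = 0 :=
    fun f hf => fc3_eq_zero hp P φ hφ hf
  set 𝔮 := Ideal.comap (φ.comp (MvPolynomial.map (algebraMap (𝓞 E) (locRing E P))))
    (maximalIdeal D) with h𝔮
  have hprime : 𝔮.IsPrime := Ideal.IsPrime.comap _
  have hI𝔮 : dId J i ≤ 𝔮 := by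
    intro x hx
    rw [h𝔮, Ideal.mem_comap, hJ0 x hx]
    exact Submodule.zero_mem _
  have hCmem : ∀ z : 𝓞 E, C z ∈ 𝔮 ↔
      φ (C (algebraMap (𝓞 E) (locRing E P) z)) ∈ maximalIdeal D := by
    intro z
    rw [h𝔮, Ideal.mem_comap, RingHom.comp_apply, MvPolynomial.map_C]
  have hcP : ∀ z : 𝓞 E, C z ∈ 𝔮 → z ∈ P.asIdeal := by
    intro z hz
    by_contra hcP
    rw [hCmem, IsLocalRing.mem_maximalIdeal] at hz
    exact hz (fc3_isUnit P φ hcP)
  have hϖ0 : ϖ ≠ 0 := by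
    rintro rfl
    rw [map_zero] at hϖ
    exact hϖ.ne_zero rfl
  by_cases hcase : φ (C (algebraMap (𝓞 E) (locRing E P) ϖ)) ∈ maximalIdeal D
  · -- a point over `P`
    have hcomapprime : (Ideal.comap (C : 𝓞 E →+* _) 𝔮).IsPrime := Ideal.IsPrime.comap _
    have hne : Ideal.comap (C : 𝓞 E →+* _) 𝔮 ≠ ⊥ := by
      intro h
      have h1 : ϖ ∈ Ideal.comap (C : 𝓞 E →+* _) 𝔮 := (hCmem ϖ).mpr hcase
      rw [h] at h1
      exact hϖ0 h1
    have hmax : (Ideal.comap (C : 𝓞 E →+* _) 𝔮).IsMaximal := hcomapprime.isMaximal hne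
    have heq : Ideal.comap (C : 𝓞 E →+* _) 𝔮 = P.asIdeal :=
      hmax.eq_of_le P.isPrime.ne_top hcP
    have hle : dId (bc (algebraMap (𝓞 E) (locRing E P)) J) i ≤
        Ideal.comap φ (maximalIdeal D) := by
      rw [dId_bc, Ideal.map_le_iff_le_comap]
      exact hI𝔮
    have hpt1 := hT.2 i (Ideal.comap φ (maximalIdeal D)) (Ideal.IsPrime.comap φ) hle (by
      intro z hz
      rw [← heq] at hz
      exact (hCmem z).1 hz)
    have hK : (fun k => dId (bc (algebraMap (𝓞 E) (locRing E P)) (K k)) i) =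
        fun k => (dId (K k) i).map (MvPolynomial.map (algebraMap (𝓞 E) (locRing E P))) :=
      funext fun k => dId_bc _ _ _
    have hh' : h = fun j => η j * algebraMap (𝓞 E) (locRing E P) ϖ ^ v j := funext hh
    rw [hK, hh', dId_bc] at hpt1
    have hpt3 := LogPt.unit_mul (h := fun j => algebraMap (𝓞 E) (locRing E P) ϖ ^ v j) hη
      (Ideal.IsPrime.comap φ) hpt1
    have hspan : (torSpan (fun j => dId (K j) i) (C ϖ) 𝒢).map
        (MvPolynomial.map (algebraMap (𝓞 E) (locRing E P))) =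
        torSpan (fun j => (dId (K j) i).map (MvPolynomial.map (algebraMap (𝓞 E) (locRing E P))))
          (C (algebraMap (𝓞 E) (locRing E P) ϖ)) 𝒢 := by
      rw [torSpan_map, MvPolynomial.map_C]
    have himage : φ '' (MvPolynomial.map (algebraMap (𝓞 E) (locRing E P)) ''
        (dehom i '' (G : Set (MvPolynomial (Fin (m + c + 1)) (𝓞 E))))) =
        (fun g => φ (MvPolynomial.map (algebraMap (𝓞 E) (locRing E P)) (dehom i g))) ''
          (G : Set (MvPolynomial (Fin (m + c + 1)) (𝓞 E))) := by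
      rw [Set.image_image, Set.image_image]
    refine regular_of_log φ (fun k => (hT.1 k).imp fun _ h => h.1) h𝒢 hϖ ?_ ?_ hcase ?_ hpt3
      (MvPolynomial.map (algebraMap (𝓞 E) (locRing E P)) ''
        (dehom i '' (G : Set (MvPolynomial (Fin (m + c + 1)) (𝓞 E))))) ?_
      (Θ := C (algebraMap (𝓞 E) (locRing E P) Θ)) ?_ b hb0 hb1 ?_ ?_ ?_
    · -- `φ` vanishes on `J`
      intro f hf
      have h1 : (dId J i).map (MvPolynomial.map (algebraMap (𝓞 E) (locRing E P))) ≤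
          RingHom.ker φ := by
        rw [Ideal.map_le_iff_le_comap]
        intro x hx
        exact hJ0 x hx
      exact h1 hf
    · -- the kernel
      intro f hf
      obtain ⟨z, hz1, hz2⟩ := exists_ker_fam hLD hp P hi ((hφ f).mp hf)
      exact ⟨z, fun h0 => hz1 ((hφ z).mp h0), hz2⟩
    · -- `ϖ` is not mapped to zero
      intro h0
      refine hϖ0 (fc3_const hp P hi φ hφ ϖ ?_)
      rw [RingHom.mem_ker, RingHom.comp_apply, MvPolynomial.map_C]
      exact h0
    · rw [← hspan, ← hG, Ideal.map_span]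
    · rw [← hspan]
      have h1 := Ideal.mem_map_of_mem (MvPolynomial.map (algebraMap (𝓞 E) (locRing E P))) hΘ
      rwa [MvPolynomial.map_C] at h1
    · rintro _ ⟨_, ⟨g, hg, rfl⟩, rfl⟩
      exact hb2 g hg
    · rw [himage]
      exact hb3
    · intro R' hR1 hR2 hR3
      refine hmin R' hR1 hR2 fun w hw => hR3 w ?_
      rcases hw with hw | ⟨g, hg, hw⟩
      · exact Or.inl hw
      · exact Or.inr ⟨_, ⟨_, ⟨g, hg, rfl⟩, rfl⟩, hw⟩
  · -- a point of the generic fibre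
    have hϖu : IsUnit (φ (C (algebraMap (𝓞 E) (locRing E P) ϖ))) := by
      rw [IsLocalRing.mem_maximalIdeal, mem_nonunits_iff, not_not] at hcase
      exact hcase
    have hconst : ∀ x : locRing E P, x ≠ 0 → IsUnit (φ (C x)) := by
      intro x hx
      obtain ⟨n, u, hu⟩ := IsDiscreteValuationRing.eq_unit_mul_pow_irreducible hx hϖ
      rw [hu, C_mul, C_pow, map_mul, map_pow]
      exact ((u.isUnit.map C).map φ).mul (hϖu.pow n)
    have h0 : ∀ z : 𝓞 E, C z ∈ 𝔮 → z = 0 := by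
      intro z hz
      by_contra hz0
      rw [hCmem, IsLocalRing.mem_maximalIdeal] at hz
      exact hz (hconst _ fun h1 => hz0 (hθinj (by rw [h1, map_zero])))
    have hΘu : IsUnit (φ (C (algebraMap (𝓞 E) (locRing E P) Θ))) :=
      hconst _ fun h1 => hΘ0 (hθinj (by rw [h1, map_zero]))
    have hbu : IsUnit b := isUnit_of_dvd_unit hb1 hΘu
    have hdom : Dom (locIn φ) := dom_locIn φ
    have hbL : b ∈ locIn φ := by
      refine t6a_mem_of_span ?_ hb3
      rintro x (rfl | ⟨g, hg, rfl⟩)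
      · exact map_mem_locIn φ _
      · exact map_mem_locIn φ _
    have htop : locIn φ = ⊤ := by
      refine hmin (locIn φ) hdom le_rfl fun w hw => ?_
      obtain ⟨y, hy⟩ := hbu.exists_right_inv
      have hyL : y ∈ locIn φ := hdom _ hbL _ hy
      have hxL : b * w ∈ locIn φ := by
        rcases hw with hw | ⟨g, hg, hw⟩
        · rw [hw]; exact map_mem_locIn φ _
        · rw [hw]; exact map_mem_locIn φ _
      have h6 : w = y * (b * w) := by
        rw [← mul_assoc, mul_comm y, hy, one_mul]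
      rw [h6]
      exact (locIn φ).mul_mem hyL hxL
    exact regular_of_top_fam hgen hLD hp P hi φ hφ (Or.inl (hgen i 𝔮 hprime hI𝔮 h0)) htop

end Point

end Pool.Agent.Lib.MP_6a3dac_ag.LS
end

section

/-!
# The model of a component: logarithmically smooth points
-/

set_option autoImplicit false

namespace Pool.Agent.Lib.MP_6a3dac_ag.LS

open MvPolynomial CategoryTheory Limits AlgebraicGeometry NumberField IsDedekindDomain Filter
open IsLocalRing Topology
open Pool.Agent.Lib.MP_6a3dac_ag.DNF Pool.Agent.Lib.MP_6a3dac_ag.Bert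
open Pool.Agent.Lib.MP_6a3dac_ag.Fam Pool.Agent.Lib.MP_6a3dac_ag.Tor
open Pool.Agent.Lib.MP_6a3dac_ag.Maj

variable {E : Type} [Field E] [NumberField E] {m c : ℕ} {J : HomIdeal (𝓞 E) (m + c + 1)}

/-- The local criterion at the primes of a set `T`, for a component: one logarithmically smooth
prime. -/
theorem modelOn_component_log {p : HomIdeal E (m + c + 1)}
    (hLD : ∀ i, LocDom (dId (bc (algebraMap (𝓞 E) E) J) i))
    (hp : p.ideal ∈ (bc (algebraMap (𝓞 E) E) J).ideal.minimalPrimes)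
    (hgen : GenFibreSmooth J) {T : Set (HeightOneSpectrum (𝓞 E))} (hT0 : T.Nonempty)
    {P : HeightOneSpectrum (𝓞 E)} (hT : ∀ Q ∈ T, Q = P ∨ TanOver Q J)
    {l s : ℕ} {e : Fin l → Fin s → ℕ} {v : Fin l → ℕ} {h : Fin l → locRing E P}
    {K : Fin s → HomIdeal (𝓞 E) (m + c + 1)} (hP : LogOver P e h J K)
    {x : 𝓞 E} (hx0 : x ≠ 0) (hxK : ∀ k, C x ∈ (K k).ideal)
    {𝒢 : Finset ((Fin s → ℕ) × ℕ)} (h𝒢 : IsLCharts e v 𝒢) (h𝒢0 : 𝒢.Nonempty)
    {ϖ : 𝓞 E} (hϖ : Irreducible (algebraMap (𝓞 E) (locRing E P) ϖ)) {η : Fin l → locRing E P}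
    (hη : ∀ j, IsUnit (η j))
    (hh : ∀ j, h j = η j * algebraMap (𝓞 E) (locRing E P) ϖ ^ v j) :
    ModelOn E T (hProjTo p) := by
  classical
  obtain ⟨δ, G, hδ, hGδ, hG⟩ := exists_torGenerators K ϖ 𝒢
  have hϖ0 : ϖ ≠ 0 := fun h0 => hϖ.ne_zero (by rw [h0, map_zero])
  obtain ⟨ν, hν⟩ := h𝒢0
  obtain ⟨Θ, hΘe⟩ : ∃ Θ : 𝓞 E, Θ = x ^ (∑ j, ν.1 j) * ϖ ^ ν.2 := ⟨_, rfl⟩
  have hΘ0 : Θ ≠ 0 := by
    rw [hΘe]
    exact mul_ne_zero (pow_ne_zero _ hx0) (pow_ne_zero _ hϖ0)
  have hΘ : ∀ i : Fin (m + c + 1), C Θ ∈ torSpan (fun j => dId (K j) i) (C ϖ) 𝒢 := by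
    intro i
    have h1 := mem_torSpan (K := fun j => dId (K j) i) (ϖ := C ϖ) hν (h := C x) (fun j => by
      have h2 : dehom i (C x) ∈ dId (K j) i := Ideal.mem_map_of_mem _ (hxK j)
      rwa [dehom_C] at h2)
    rwa [← map_pow, ← map_pow, ← map_mul, ← hΘe] at h1
  have hprime : p.ideal.IsPrime := hp.1.1
  have : IsDomain (HCoord p) := Ideal.Quotient.isDomain p.ideal
  let _ : Algebra (𝓞 E) (HCoord p) := ((algebraMap E (HCoord p)).comp (algebraMap (𝓞 E) E)).toAlgebra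
  have : IsScalarTower (𝓞 E) E (HCoord p) := IsScalarTower.of_algebraMap_eq fun _ => rfl
  have hRf : ¬ IsField (𝓞 E) := RingOfIntegers.not_isField E
  -- the exponents
  obtain ⟨r, hr⟩ : ∃ r : HeightOneSpectrum (𝓞 E) → ℕ, ∀ Q, (Q = P → r Q = 1) ∧
      (Q ≠ P → r Q = 0) :=
    ⟨fun Q => if Q = P then 1 else 0, fun Q => ⟨fun h => if_pos h, fun h => if_neg h⟩⟩
  have hdeg : ∀ (S : Type) [CommRing S] [Algebra S E] (q : MvPolynomial (Fin (m + c + 1)) S) e,
      q.IsHomogeneous e → piS (hMk p) S q ∈ hGr p e := fun S _ _ q e hq =>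
    ⟨_, hq.map _, rfl⟩
  have hoA : ∀ Q : HeightOneSpectrum (𝓞 E), oA E (HCoord p) (locRing E Q)
      (algebraMap (𝓞 E) (locRing E Q) Θ) = algebraMap (𝓞 E) (HCoord p) Θ := fun Q =>
    oA_algebraMap (K := E) (O := locRing E Q) Θ
  have hxP : ∀ Q : HeightOneSpectrum (𝓞 E), (fun k => piS (hMk p) (locRing E Q) (X k)) =
      fun k => hMk p (X k) := fun Q => funext fun k => piS_X (hMk p) _ k
  -- the forms over the local rings
  obtain ⟨GP, hGP⟩ : ∃ GP : ∀ Q : HeightOneSpectrum (𝓞 E),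
      Finset (MvPolynomial (Fin (m + c + 1)) (locRing E Q)), ∀ Q,
      GP Q = G.image (MvPolynomial.map (algebraMap (𝓞 E) (locRing E Q))) := ⟨_, fun _ => rfl⟩
  have hGPδ : ∀ Q, ∀ g ∈ GP Q, g.IsHomogeneous δ := by
    intro Q g hg
    rw [hGP, Finset.mem_image] at hg
    obtain ⟨g, hg, rfl⟩ := hg
    exact (hGδ g hg).map _
  have hO := fun Q : HeightOneSpectrum (𝓞 E) => orderHypB (R := 𝓞 E) (K := E) Q.asIdeal
    (𝒜 := hGr p) (π := piS (hMk p) (locRing E Q)) (hdeg _) (fun c => piS_C (hMk p) _ c) hδ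
    (hGPδ Q) (algebraMap (𝓞 E) (locRing E Q) Θ) (r Q)
  have hLG : LocalGens (R := 𝓞 E) (hGr p) (fun Q => DNF.WSet (fun k => hMk p (X k))
      (oset (piS (hMk p) (locRing E Q)) δ (GP Q) (algebraMap (𝓞 E) (HCoord p) Θ)) (r Q) ∪
        DNF.W1Set (fun k => hMk p (X k)) (algebraMap (𝓞 E) (HCoord p) Θ) (r Q))
        (Set.range fun k => hMk p (X k)) :=
    { finite := fun Q => (DNF.finite_WSet (fun j => finite_oset _ _ _ _ j) _).union
        (DNF.finite_W1Set _)
      finite₀ := Set.finite_range _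
      ae := by
        refine (Set.finite_singleton P).subset ?_
        intro Q hQ
        by_contra hdp
        apply hQ
        have h1 : r Q = 0 := (hr Q).2 hdp
        change DNF.WSet (fun k => hMk p (X k)) (oset (piS (hMk p) (locRing E Q)) δ (GP Q)
          (algebraMap (𝓞 E) (HCoord p) Θ)) (r Q) ∪
          DNF.W1Set (fun k => hMk p (X k)) (algebraMap (𝓞 E) (HCoord p) Θ) (r Q) = _
        rw [h1, WSet_zero, W1Set_zero, Set.union_self]
      homog := by
        intro Q w hw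
        have hOP := hO Q
        rw [hxP, hoA] at hOP
        rcases hw with hw | ⟨i, rfl⟩
        · exact ⟨_, Nat.succ_pos _, hOP.W_deg hw⟩
        · refine ⟨1, one_pos, ?_⟩
          have := SetLike.mul_mem_graded hOP.theta_deg (hOP.xdeg i)
          simpa using this
      full := fun Q a => full_order (hMk p) (adjoin_hMk p) hΘ0 (r Q) a
      full₀ := fun a => by
        have := full_order (hMk p) (adjoin_hMk p) (B := fun _ => ∅) (one_ne_zero (α := 𝓞 E)) 0 a
        rwa [WSet_zero, W1Set_zero, Set.union_self] at this }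
  have hnt : Nontrivial (HCoord p) := inferInstance
  refine exists_model_on (hGr p) hLG hRf hT0 fun Q hQT => ?_
  intro hS y hy hyh hirr
  let F := FractionRing (HCoord p)
  let ι : HCoord p →+* F := algebraMap (HCoord p) F
  have hι : Function.Injective ι := IsFractionRing.injective (HCoord p) F
  apply isRegularLocalRing_of_homLoc (hGr p) ι _ y hι hS
  have hOK : Function.Injective (algebraMap (locRing E Q) E) :=
    FaithfulSMul.algebraMap_injective _ E
  have hrel : ∃ k, 0 < k ∧ ∃ t : localOrder (fun Q => DNF.WSet (fun k => hMk p (X k))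
      (oset (piS (hMk p) (locRing E Q)) δ (GP Q) (algebraMap (𝓞 E) (HCoord p) Θ)) (r Q) ∪
        DNF.W1Set (fun k => hMk p (X k)) (algebraMap (𝓞 E) (HCoord p) Θ) (r Q)) Q,
      (t : HCoord p) ∈ hGr p k ∧ t ∉ y := by
    by_contra hcon
    push Not at hcon
    apply hirr
    rw [HomogeneousIdeal.toIdeal_irrelevant_le]
    intro i hi s hs
    exact hcon i hi s hs
  have hTo : localOrder (fun Q => DNF.WSet (fun k => hMk p (X k))
      (oset (piS (hMk p) (locRing E Q)) δ (GP Q) (algebraMap (𝓞 E) (HCoord p) Θ)) (r Q) ∪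
        DNF.W1Set (fun k => hMk p (X k)) (algebraMap (𝓞 E) (HCoord p) Θ) (r Q)) Q =
      locSub Q.asIdeal (Algebra.adjoin (𝓞 E)
        (DNF.WSet (fun k => piS (hMk p) (locRing E Q) (X k))
          (oset (piS (hMk p) (locRing E Q)) δ (GP Q) (oA E (HCoord p) (locRing E Q)
            (algebraMap (𝓞 E) (locRing E Q) Θ))) (r Q) ∪
        DNF.W1Set (fun k => piS (hMk p) (locRing E Q) (X k)) (oA E (HCoord p) (locRing E Q)
            (algebraMap (𝓞 E) (locRing E Q) Θ)) (r Q))) := by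
    rw [hxP, hoA]
    rfl
  have hlocD := isLocalRing_homLoc (hGr p) ι _ y hι
  obtain ⟨i, φ, b, h1, h2, h3, h4⟩ := exists_chartPoint (R := 𝓞 E) (K := E) hOK Q.asIdeal
    (𝒜 := hGr p) (π := piS (hMk p) (locRing E Q)) (hdeg _) (fun c => piS_C (hMk p) _ c) hδ
    (hGPδ Q) ι hι (algebraMap (𝓞 E) (locRing E Q) Θ) (r Q) hTo y hy hrel
  have hi : X i ∉ p.ideal := by
    intro h5
    apply h1
    rw [piS_X, hMk_eq_zero]
    exact h5
  have hφ : ∀ q, φ q = 0 ↔ MvPolynomial.map (algebraMap (locRing E Q) E) q ∈ dId p i := by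
    intro q
    obtain ⟨N, g, hg, rfl⟩ := exists_homog i q
    rw [h2 N g hg, piS_apply, hMk_eq_zero, map_dehom', dehom_mem_iff p hprime hi (hg.map _)]
  have hpimage : ∀ w, (∃ g ∈ GP Q, w = φ (dehom i g)) ↔ ∃ g ∈ G,
      w = φ (MvPolynomial.map (algebraMap (𝓞 E) (locRing E Q)) (dehom i g)) := by
    intro w
    rw [hGP]
    constructor
    · rintro ⟨g, hg, rfl⟩
      obtain ⟨g', hg', rfl⟩ := Finset.mem_image.mp hg
      exact ⟨g', hg', by rw [map_dehom']⟩
    · rintro ⟨g, hg, rfl⟩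
      exact ⟨_, Finset.mem_image_of_mem _ hg, by rw [map_dehom']⟩
  by_cases hQP : Q = P
  · subst hQP
    have hr1 : r Q = 1 := (hr Q).1 rfl
    obtain ⟨a1, a2, a3, a4⟩ := h3 1 le_rfl (by rw [hr1])
    rw [pow_one] at a2 a4
    refine regular_of_logOver hgen hLD hp Q hi φ hφ hP h𝒢 hϖ hη hh (hG i) hΘ0
      (hΘ i) (b 1) a1 a2 ?_ ?_ ?_
    · intro g hg
      obtain ⟨g', hg', h5⟩ := (hpimage _).mpr ⟨g, hg, rfl⟩
      rw [h5]
      exact a3 g' hg'
    · have h5 : ((fun g => φ (MvPolynomial.map (algebraMap (𝓞 E) (locRing E Q)) (dehom i g))) ''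
          (G : Set (MvPolynomial (Fin (m + c + 1)) (𝓞 E)))) =
            ((fun g => φ (dehom i g)) '' (GP Q : Set _)) := by
        ext w
        constructor
        · rintro ⟨g, hg, rfl⟩
          obtain ⟨g', hg', h5⟩ := (hpimage _).mpr ⟨g, hg, rfl⟩
          exact ⟨g', hg', h5.symm⟩
        · rintro ⟨g, hg, rfl⟩
          obtain ⟨g', hg', h5⟩ := (hpimage _).mp ⟨g, hg, rfl⟩
          exact ⟨g', hg', h5.symm⟩
      rw [h5]
      exact a4
    · intro R' hR1 hR2 hR3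
      refine h4 R' hR1 hR2 fun j hj1 hj2 w hw => hR3 w ?_
      have hj : j = 1 := by omega
      subst hj
      rw [pow_one] at hw
      rcases hw with hw | ⟨g, hg, hw⟩
      · exact Or.inl hw
      · obtain ⟨g', hg', h5⟩ := (hpimage _).mp ⟨g, hg, rfl⟩
        exact Or.inr ⟨g', hg', hw.trans h5⟩
  · have hPt : TanOver Q J := (hT Q hQT).resolve_left hQP
    have hr0 : r Q = 0 := (hr Q).2 hQP
    refine regular_of_tanOver hgen hLD hp Q hi φ hφ hPt ?_
    exact h4 _ (dom_locIn φ) le_rfl fun j hj1 hj2 => by omega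

end Pool.Agent.Lib.MP_6a3dac_ag.LS
end
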