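import Pool.Agent.Lib.MP_6a3dac_ag.Mg.G062
import Pool.Agent.Lib.MP_6a3dac_ag.Mg.G017
import Pool.Agent.Lib.MP_6a3dac_ag.Mg.G020

section

/-!
# Spreading out
-/

set_option autoImplicit false

namespace Pool.Agent.Lib.MP_6a3dac_ag.LS

open MvPolynomial NumberField IsDedekindDomain
open Pool.Agent.Lib.MP_6a3dac_ag.DNF Pool.Agent.Lib.MP_6a3dac_ag.Bert
open Pool.Agent.Lib.MP_6a3dac_ag.Fam Pool.Agent.Lib.MP_6a3dac_ag.Tor

/-- The elements `t` such that the scheme is logarithmically smooth at all the points where `t`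
does not vanish. -/
def l5_set {R σ : Type} [CommRing R] [DecidableEq σ] [Fintype σ] (m : ℕ) {l s : ℕ}
    (e : Fin l → Fin s → ℕ) (h : Fin l → R) (J : Ideal (MvPolynomial σ R))
    (K : Fin s → Ideal (MvPolynomial σ R)) : Set (MvPolynomial σ R) :=
  {t | ∀ 𝔮' : Ideal (MvPolynomial σ R), 𝔮'.IsPrime → t ∉ 𝔮' → LogPt m e h J K 𝔮'}

variable {R : Type} [CommRing R]
  {m c l s : ℕ} {J : HomIdeal R (m + c + 1)} {e : Fin l → Fin s → ℕ} {h : Fin l → R}
  {K : Fin s → HomIdeal R (m + c + 1)}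

/-- A nonzero integer lies in the ideal of the bad points. -/
theorem l5_exists {T : Set ℕ} (i : Fin (m + c + 1))
    (H : ∀ (𝔮 : Ideal (MvPolynomial {l : Fin (m + c + 1) // l ≠ i} R)), 𝔮.IsPrime →
      dId J i ≤ 𝔮 →
      (∀ p ∈ T, p.Prime → (p : MvPolynomial {l : Fin (m + c + 1) // l ≠ i} R) ∉ 𝔮) →
        LogPt m e h (dId J i) (fun k => dId (K k) i) 𝔮) :
    ∃ z : ℕ, (z ≠ 0 ∧ ∀ p : ℕ, p.Prime → p ∣ z → p ∈ T) ∧
      (z : MvPolynomial {l : Fin (m + c + 1) // l ≠ i} R) ∈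
        dId J i ⊔ Ideal.span (l5_set m e h (dId J i) (fun k => dId (K k) i)) := by
  classical
  let M : Submonoid (MvPolynomial {l : Fin (m + c + 1) // l ≠ i} R) :=
    { carrier := {y | ∃ z : ℕ, (z ≠ 0 ∧ ∀ p : ℕ, p.Prime → p ∣ z → p ∈ T) ∧
        y = (z : MvPolynomial {l : Fin (m + c + 1) // l ≠ i} R)}
      one_mem' := ⟨1, ⟨one_ne_zero, fun p hp h1 => absurd (Nat.dvd_one.1 h1) hp.ne_one⟩, by simp⟩
      mul_mem' := by
        rintro _ _ ⟨z, ⟨hz, hz'⟩, rfl⟩ ⟨w, ⟨hw, hw'⟩, rfl⟩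
        exact ⟨z * w, ⟨mul_ne_zero hz hw, fun p hp hd =>
          ((hp.dvd_mul).1 hd).elim (hz' p hp) (hw' p hp)⟩, by rw [Nat.cast_mul]⟩ }
  obtain ⟨x, ⟨z, hz, rfl⟩, hx⟩ := ff1_compact (dId J i)
    (l5_set m e h (dId J i) (fun k => dId (K k) i)) M (by
      intro 𝔮 h𝔮 hle hM
      have hz : ∀ p ∈ T, p.Prime →
          (p : MvPolynomial {l : Fin (m + c + 1) // l ≠ i} R) ∉ 𝔮 := by
        intro p hpT hp
        exact hM _ ⟨p, ⟨hp.ne_zero, fun q hq hd => by
          rwa [(Nat.prime_dvd_prime_iff_eq hq hp).1 hd]⟩, rfl⟩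
      obtain ⟨t, ht, H'⟩ := LogPt.exists_nbhd h𝔮 (H 𝔮 h𝔮 hle hz)
      exact ⟨t, H', ht⟩)
  exact ⟨z, hz, hx⟩

/-- Spreading out. -/
theorem exists_log_const {T : Set ℕ} (H : LogSmooth T J e h K) :
    ∃ z : ℕ, (z ≠ 0 ∧ ∀ p : ℕ, p.Prime → p ∣ z → p ∈ T) ∧
    ∀ (i : Fin (m + c + 1)) (𝔮 : Ideal (MvPolynomial {l : Fin (m + c + 1) // l ≠ i} R)),
      𝔮.IsPrime → dId J i ≤ 𝔮 →
      (z : MvPolynomial {l : Fin (m + c + 1) // l ≠ i} R) ∉ 𝔮 →
        LogPt m e h (dId J i) (fun k => dId (K k) i) 𝔮 := by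
  classical
  choose z hz hr using fun i => l5_exists (J := J) (h := h) (K := K) (e := e) i
    fun 𝔮 a1 a2 a3 => H.2 i 𝔮 a1 a2 a3
  refine ⟨∏ i, z i, ⟨Finset.prod_ne_zero_iff.2 fun i _ => (hz i).1, fun p hp hd => ?_⟩, ?_⟩
  · obtain ⟨i, -, hi⟩ := (hp.prime.dvd_finsetProd_iff z).1 hd
    exact (hz i).2 p hp hi
  intro i 𝔮 h𝔮 hle hC
  have h3 : (z i : MvPolynomial {l : Fin (m + c + 1) // l ≠ i} R) ∉ 𝔮 := fun hm => hC
    (Ideal.mem_of_dvd _ (Nat.cast_dvd_cast (Finset.dvd_prod_of_mem _ (Finset.mem_univ i))) hm)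
  obtain ⟨t, ht, hn⟩ := ff1_exists (hr i) hle h3
  exact ht 𝔮 h𝔮 hn

end Pool.Agent.Lib.MP_6a3dac_ag.LS
end

section

/-!
# The members of a logarithmically smooth family
-/

set_option autoImplicit false

namespace Pool.Agent.Lib.MP_6a3dac_ag.LS

open MvPolynomial NumberField IsDedekindDomain
open Pool.Agent.Lib.MP_6a3dac_ag.DNF Pool.Agent.Lib.MP_6a3dac_ag.Bert
open Pool.Agent.Lib.MP_6a3dac_ag.Fam Pool.Agent.Lib.MP_6a3dac_ag.Tor

variable {R : Type} [CommRing R]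
  {m c l s : ℕ} {J : HomIdeal R (m + c + 1)} {e : Fin l → Fin s → ℕ} {h : Fin l → R}
  {K : Fin s → HomIdeal R (m + c + 1)}

/-- The members are logarithmically smooth. -/
theorem exists_logOver {T : Set ℕ} (H : LogSmooth T J e h K) :
    ∃ N : ℕ, (N ≠ 0 ∧ ∀ p : ℕ, p.Prime → p ∣ N → p ∈ T) ∧
    ∀ (E : Type) [Field E] [NumberField E] (P : HeightOneSpectrum (𝓞 E)),
      (N : 𝓞 E) ∉ P.asIdeal → ∀ (a : R →+* locRing E P)
      (J' : HomIdeal (𝓞 E) (m + c + 1)),
      bc (algebraMap (𝓞 E) (locRing E P)) J' = bc a J →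
      ∃ K' : Fin s → HomIdeal (𝓞 E) (m + c + 1), LogOver P e (fun j => a (h j)) J' K' := by
  obtain ⟨z, hz, hzH⟩ := exists_log_const H
  refine ⟨z, hz, fun E _ _ P hP a J' hJ' => ?_⟩
  choose K' hK' using fun k => exists_homIdeal_over (bc a (K k))
  refine ⟨K', fun k => ?_, fun i 𝔮 h𝔮 hle _ => ?_⟩
  · obtain ⟨j, hj, hjK⟩ := H.1 k
    refine ⟨j, hj, ?_⟩
    rw [hK']
    have h1 := Ideal.mem_map_of_mem (MvPolynomial.map a) hjK
    rw [map_C] at h1
    exact h1
  · have hprime : (𝔮.comap (MvPolynomial.map a)).IsPrime := Ideal.comap_isPrime _ 𝔮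
    rw [hJ'] at hle ⊢
    have h1 := hzH i (𝔮.comap (MvPolynomial.map a)) hprime (by
      rw [← Ideal.map_le_iff_le_comap, ← dId_bc]
      exact hle) (by
      intro hm
      rw [Ideal.mem_comap, map_natCast] at hm
      have h3 : IsUnit (algebraMap (𝓞 E) (locRing E P) (z : 𝓞 E)) :=
        IsLocalization.map_units (locRing E P) (⟨(z : 𝓞 E), hP⟩ : P.asIdeal.primeCompl)
      rw [map_natCast] at h3
      have h4 := h3.map (C : locRing E P →+* MvPolynomial {l : Fin (m + c + 1) // l ≠ i}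
        (locRing E P))
      rw [map_natCast] at h4
      exact h𝔮.ne_top (Ideal.eq_top_of_isUnit_mem _ hm h4))
    have h2 := LogPt.map a h𝔮 h1
    have h3 : (fun k => (dId (K k) i).map (MvPolynomial.map a)) =
        fun k => dId (bc (algebraMap (𝓞 E) (locRing E P)) (K' k)) i :=
      funext fun k => by rw [hK', dId_bc]
    rw [dId_bc, ← h3]
    exact h2

end Pool.Agent.Lib.MP_6a3dac_ag.LS
end

section

/-!
# The members of a logarithmically smooth family are smooth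
-/

set_option autoImplicit false

namespace Pool.Agent.Lib.MP_6a3dac_ag.LS

open MvPolynomial CategoryTheory Limits AlgebraicGeometry NumberField IsDedekindDomain
open Pool.Agent.Lib.MP_6a3dac_ag.DNF Pool.Agent.Lib.MP_6a3dac_ag.Bert
open Pool.Agent.Lib.MP_6a3dac_ag.Fam

/-- Logarithmically smooth points where the elements `h j` do not vanish. -/
theorem m3_point {R σ L : Type} [CommRing R] [DecidableEq σ] [Fintype σ] [Field L] {m l s : ℕ}
    {e : Fin l → Fin s → ℕ} {h : Fin l → R} {J : Ideal (MvPolynomial σ R)}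
    {K : Fin s → Ideal (MvPolynomial σ R)} {𝔮 : Ideal (MvPolynomial σ R)}
    (φ : MvPolynomial σ R →+* L) (hφ : ∀ q, φ q = 0 ↔ q ∈ 𝔮) (hJ : J ≤ 𝔮)
    (H : LogPt m e h J K 𝔮) (he : ∀ i, ∃ j, 0 < e j i) (hh : ∀ j, C (h j) ∉ 𝔮) :
    ∃ (U : Std R σ) (F : Fin l → MvPolynomial σ R), IsPresL J U F ∧ U.T.card = m + l ∧
      φ U.s ≠ 0 ∧ ∀ y : {κ : σ // κ ∉ U.T} ⊕ Fin l → L,
        (∀ t, ∑ k, y k * φ (pderiv t (Sum.elim U.g F k)) = 0) → y = 0 := by
  have hq : 𝔮.IsPrime := by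
    have h1 : 𝔮 = RingHom.ker φ := Ideal.ext fun q => by rw [RingHom.mem_ker, hφ]
    rw [h1]
    exact RingHom.ker_isPrime φ
  obtain ⟨U, F, w, u, g, hP, hcard, hUh, hF, hK, hI⟩ := H
  refine ⟨U, F, hP, hcard, fun h0 => hUh ?_, fun y hy => ?_⟩
  · rw [Std.h]
    exact Ideal.mul_mem_right _ _ ((hφ _).1 h0)
  · refine m1_indep φ hφ hq hI (fun h0 => hUh ?_) (fun j => (hF j).1) (fun j => (hF j).2.2)
      (fun j => hJ (hP.memF j)) (fun i hi => ?_) y hy
    · rw [Std.h]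
      exact Ideal.mul_mem_left _ _ h0
    · obtain ⟨j, hj⟩ := he i
      have h1 : F j ∈ 𝔮 := hJ (hP.memF j)
      rw [(hF j).1] at h1
      have h2 : w j * ∏ i, g i ^ e j i ∈ 𝔮 := by
        refine Ideal.mul_mem_left _ _ (Ideal.mem_of_dvd _
          (Finset.dvd_prod_of_mem _ (Finset.mem_univ i)) ?_)
        exact Ideal.pow_mem_of_mem _ hi _ hj
      rcases hq.mem_or_mem ((Submodule.sub_mem_iff_right _ h2).1 h1) with h3 | h3
      · exact (hF j).2.2 h3
      · exact hh j h3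

variable {R : Type} [CommRing R] {m c l s : ℕ} {J : HomIdeal R (m + c + 1)}
  {e : Fin l → Fin s → ℕ} {h : Fin l → R} {K : Fin s → HomIdeal R (m + c + 1)}
  {E : Type} [Field E] [NumberField E] {P : HeightOneSpectrum (𝓞 E)}

/-- The members of a logarithmically smooth family are smooth. -/
theorem genFibreSmooth_member {T : Set ℕ} (hc : 1 ≤ c) (H : LogSmooth T J e h K)
    (a : R →+* locRing E P)
    (ha : ∀ j, a (h j) ≠ 0) {J' : HomIdeal (𝓞 E) (m + c + 1)}
    (hJ' : bc (algebraMap (𝓞 E) (locRing E P)) J' = bc a J) : GenFibreSmooth J' := by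
  classical
  intro i 𝔮 h𝔮 hle hC
  obtain ⟨L, hL, φ, hφ⟩ : ∃ (L : Type) (_ : Field L)
      (φ : MvPolynomial {l : Fin (m + c + 1) // l ≠ i} (𝓞 E) →+* L), ∀ q, φ q = 0 ↔ q ∈ 𝔮 := by
    refine ⟨FractionRing (_ ⧸ 𝔮), inferInstance,
      (algebraMap (_ ⧸ 𝔮) (FractionRing (_ ⧸ 𝔮))).comp (Ideal.Quotient.mk 𝔮), fun q => ?_⟩
    rw [RingHom.comp_apply, IsFractionRing.to_map_eq_zero_iff, Ideal.Quotient.eq_zero_iff_mem]
  have hCz : ∀ z : 𝓞 E, z ≠ 0 → φ (C z) ≠ 0 := fun z hz h0 => hz (hC z ((hφ _).1 h0))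
  -- the extension to the local ring
  have hun : ∀ z : P.asIdeal.primeCompl, IsUnit ((φ.comp C) (z : 𝓞 E)) := fun z =>
    (hCz z.1 fun h0 => z.2 (h0 ▸ P.asIdeal.zero_mem)).isUnit
  let φ₀ : locRing E P →+* L := IsLocalization.lift (M := P.asIdeal.primeCompl) hun
  let φ' : MvPolynomial {l : Fin (m + c + 1) // l ≠ i} (locRing E P) →+* L :=
    eval₂Hom φ₀ fun k => φ (X k)
  have hφ' : ∀ q, φ' (MvPolynomial.map (algebraMap (𝓞 E) (locRing E P)) q) = φ q := by
    intro q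
    have h1 : φ'.comp (MvPolynomial.map (algebraMap (𝓞 E) (locRing E P))) = φ := by
      apply MvPolynomial.ringHom_ext
      · intro z
        rw [RingHom.comp_apply, map_C, eval₂Hom_C]
        exact IsLocalization.lift_eq hun z
      · intro k
        rw [RingHom.comp_apply, map_X, eval₂Hom_X']
    exact RingHom.congr_fun h1 q
  have hC' : ∀ x : locRing E P, C x ∈ RingHom.ker φ' → x = 0 := by
    intro x hx
    obtain ⟨⟨b, z⟩, hbz⟩ := IsLocalization.surj P.asIdeal.primeCompl x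
    dsimp only at hbz
    have h1 : φ (C b) = 0 := by
      rw [← hφ', map_C, ← hbz, map_mul, map_mul, (RingHom.mem_ker).1 hx, zero_mul]
    have h2 : b = 0 := by
      by_contra h0
      exact hCz b h0 h1
    rw [h2, map_zero] at hbz
    exact (IsLocalization.map_units (locRing E P) z).mul_left_eq_zero.1 hbz
  have hid : (dId J i).map (MvPolynomial.map a) =
      (dId J' i).map (MvPolynomial.map (algebraMap (𝓞 E) (locRing E P))) := by
    rw [← dId_bc, ← dId_bc, hJ']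
  have hle' : (dId J' i).map (MvPolynomial.map (algebraMap (𝓞 E) (locRing E P))) ≤
      RingHom.ker φ' := by
    rw [Ideal.map_le_iff_le_comap]
    intro q hq
    rw [Ideal.mem_comap, RingHom.mem_ker, hφ', hφ]
    exact hle hq
  have hpr : (RingHom.ker φ').IsPrime := RingHom.ker_isPrime φ'
  have h1 := H.2 i ((RingHom.ker φ').comap (MvPolynomial.map a)) (Ideal.comap_isPrime _ _) (by
    rw [← Ideal.map_le_iff_le_comap, hid]
    exact hle') (by
    intro p _ hp hm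
    rw [Ideal.mem_comap, map_natCast] at hm
    have h2 := hC' (p : locRing E P) (by
      rw [map_natCast]
      exact hm)
    exact hp.ne_zero (Nat.cast_eq_zero.1 h2))
  have h2 := LogPt.map a hpr h1
  obtain ⟨U, F, hP, hcard, hs, hind⟩ := m3_point φ' (fun q => (RingHom.mem_ker).symm)
    (by rw [hid]; exact hle') h2 (fun k => by
      obtain ⟨j, hj, -⟩ := H.1 k
      exact ⟨j, hj⟩) (fun j hj => ha j (hC' _ hj))
  rw [hid] at hP
  obtain ⟨f, s₀, hf, hs₀, hspan, hind'⟩ := m2_descend φ' (Sum.elim U.g F) U.s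
    (by
      rintro (κ | j)
      · exact hP.mem κ
      · exact hP.memF j) hs (fun q hq => by
        have h3 := hP.le q hq
        rwa [Set.Sum.elim_range, Set.union_comm]) hind
  have hσ : Fintype.card {l : Fin (m + c + 1) // l ≠ i} = m + c := by
    rw [Fintype.card_subtype_compl, Fintype.card_subtype_eq, Fintype.card_fin]
    omega
  have hρ : Fintype.card ({κ : {l : Fin (m + c + 1) // l ≠ i} // κ ∉ U.T} ⊕ Fin l) = c := by
    rw [Fintype.card_sum, Fintype.card_fin, Fintype.card_subtype_compl, hσ, Fintype.card_coe,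
      hcard]
    have h3 : U.T.card ≤ m + c := (Finset.card_le_univ _).trans_eq hσ
    omega
  refine smoothPt_of_indep φ hφ f s₀ hf (by rw [← hφ']; exact hs₀) hspan (fun y hy => hind' y ?_)
    (by rw [hρ, hσ]) (by rw [hρ]; exact hc)
  intro t
  rw [← hy t]
  exact Finset.sum_congr rfl fun k _ => by rw [hφ']

/-- The members of a logarithmically smooth family are generic fibres of schemes over the
integers. -/
theorem exists_homIdeal_member (a : R →+* locRing E P) :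
    ∃ J' : HomIdeal (𝓞 E) (m + c + 1), bc (algebraMap (𝓞 E) (locRing E P)) J' = bc a J ∧
      bc (algebraMap (𝓞 E) E) J' = bc ((algebraMap (locRing E P) E).comp a) J := by
  obtain ⟨J', hJ'⟩ := exists_homIdeal_over (bc a J)
  refine ⟨J', hJ', ?_⟩
  have h1 : algebraMap (𝓞 E) E =
      (algebraMap (locRing E P) E).comp (algebraMap (𝓞 E) (locRing E P)) := rfl
  rw [h1, ← bc_bc, hJ', bc_bc]

end Pool.Agent.Lib.MP_6a3dac_ag.LS
end
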