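import Pool.Agent.Lib.MP_6a3dac_ag.Mg.G069
import Pool.Agent.Lib.MP_6a3dac_ag.Mg.G070

section

/-!
# NU: the dimension at closed points of the generic fibre
-/

set_option autoImplicit false

namespace Pool.Agent.Lib.MP_6a3dac_ag.NU

open MvPolynomial IsLocalRing

-- BEGIN PR4a
/-- Gradients of elements of the ideal of a point with algebraic coordinates. -/
theorem exists_gradient {N : ℕ} {L : Type} [Field L] [CharZero L]
    (Ψ : MvPolynomial (Fin N) ℤ →+* L) (halg : ∀ l, IsAlgebraic ℤ (Ψ (X l))) (l : Fin N) :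
    ∃ g, Ψ g = 0 ∧ Ψ (pderiv l g) ≠ 0 ∧ ∀ m, m ≠ l → pderiv m g = 0 := by
  classical
  have hex : ∃ n, ∃ h : Polynomial ℤ, h ≠ 0 ∧ Polynomial.aeval (Ψ (X l)) h = 0 ∧
      h.natDegree = n := by
    obtain ⟨h, h0, h1⟩ := halg l
    exact ⟨_, h, h0, h1, rfl⟩
  obtain ⟨h, h0, h1, h2⟩ := Nat.find_spec hex
  have hΨ : ∀ f : Polynomial ℤ, Ψ (Polynomial.aeval (X l : MvPolynomial (Fin N) ℤ) f) =
      Polynomial.aeval (Ψ (X l)) f := fun f => by
    rw [Polynomial.aeval_def, Polynomial.aeval_def, Polynomial.hom_eval₂]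
    congr 1
    exact RingHom.ext_int _ _
  refine ⟨Polynomial.aeval (X l) h, by rw [hΨ, h1], ?_, fun m hm => ?_⟩
  · rw [Derivation.map_aeval, pderiv_X_self, smul_eq_mul, mul_one, hΨ]
    intro h3
    rcases eq_or_ne h.natDegree 0 with h4 | h4
    · rw [Polynomial.eq_C_of_natDegree_eq_zero h4, Polynomial.aeval_C] at h1
      apply h0
      rw [Polynomial.eq_C_of_natDegree_eq_zero h4, (algebraMap ℤ L).injective_int
        (h1.trans (map_zero _).symm), Polynomial.C_0]
    · refine Nat.find_min hex (m := h.derivative.natDegree) ?_ ⟨_, fun h5 => h4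
        (Polynomial.derivative_eq_zero.1 h5), h3, rfl⟩
      rw [← h2]
      exact Polynomial.natDegree_derivative_lt h4
  · rw [Derivation.map_aeval, pderiv_X_of_ne hm.symm, smul_zero]
-- END PR4a

-- BEGIN PR4b
/-- Gradients of relations. -/
theorem pr4b_rel {R : Type} [CommRing R] (P : Pres R) {g : MvPolynomial (Fin P.N) ℤ}
    (hg : P.π g = 0) (l : Fin P.N) :
    ∑ k, P.π (pderiv l (P.γ k)) * P.π (pderiv k g) = (P.a : R) * P.π (pderiv l g) := by
  have h1 : ∀ x ∈ (RingHom.ker P.π) ^ 2, P.π (pderiv l x) = 0 := by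
    intro x hx
    rw [pow_two] at hx
    refine Submodule.mul_induction_on hx (fun m hm n hn => ?_) (fun x y hx hy => ?_)
    · rw [Derivation.leibniz, map_add, smul_eq_mul, smul_eq_mul, map_mul, map_mul,
        RingHom.mem_ker.1 hm, RingHom.mem_ker.1 hn, zero_mul, zero_mul, add_zero]
    · rw [map_add, map_add, hx, hy, add_zero]
  have h2 := h1 _ (P.rel g hg)
  rw [map_sub, map_sub, sub_eq_zero, Derivation.leibniz, Derivation.map_natCast, smul_zero,
    add_zero, smul_eq_mul, map_mul, map_natCast, map_sum, map_sum] at h2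
  rw [h2]
  refine Finset.sum_congr rfl fun k _ => ?_
  rw [Derivation.leibniz, map_add, smul_eq_mul, smul_eq_mul, map_mul, map_mul, P.γ_mem,
    zero_mul, add_zero, mul_comm]

/-- The dimension of the local ring of a closed point of the generic fibre. -/
theorem pres_dim {R : Type} [CommRing R] [IsDomain R] [CharZero R] (P : Pres R) {L : Type}
    [Field L] [CharZero L] (ψ : R →+* L) (halg : ∀ x, IsAlgebraic ℤ (ψ x)) (𝔭 : Ideal R)
    [𝔭.IsPrime] (h𝔭 : 𝔭 = RingHom.ker ψ) (hreg : IsRegularLocalRing (Localization.AtPrime 𝔭)) :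
    ((P.N - P.c : ℕ) : WithBot ℕ∞) ≤ ringKrullDim (Localization.AtPrime 𝔭) := by
  classical
  rw [← hreg.spanFinrank_maximalIdeal]
  have hfg : (maximalIdeal (Localization.AtPrime 𝔭)).FG := IsNoetherian.noetherian _
  have hfin := Submodule.FG.finite_generators hfg
  have hft : Fintype (Submodule.generators (maximalIdeal (Localization.AtPrime 𝔭))) := hfin.fintype
  have hmem : ∀ r : R, r ∈ 𝔭 ↔ ψ r = 0 := fun r => by rw [h𝔭, RingHom.mem_ker]
  have hmax : ∀ r : R, algebraMap R (Localization.AtPrime 𝔭) r ∈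
      maximalIdeal (Localization.AtPrime 𝔭) ↔ ψ r = 0 := fun r => by
    rw [IsLocalization.AtPrime.to_map_mem_maximal_iff (Localization.AtPrime 𝔭) 𝔭, hmem]
  have hG : ∀ x : Submodule.generators (maximalIdeal (Localization.AtPrime 𝔭)),
      ∃ (G : MvPolynomial (Fin P.N) ℤ) (s : 𝔭.primeCompl), (x : Localization.AtPrime 𝔭) *
        algebraMap R _ s = algebraMap R _ (P.π G) ∧ ψ (P.π G) = 0 := by
    rintro ⟨x, hx⟩
    obtain ⟨⟨r, s⟩, hrs⟩ := IsLocalization.surj 𝔭.primeCompl x
    obtain ⟨G, rfl⟩ := P.surj r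
    exact ⟨G, s, hrs, (hmax _).1 (by
      rw [← hrs]; exact Ideal.mul_mem_right _ _ (Submodule.FG.generators_mem _ hx))⟩
  choose G s hGs hG0 using hG
  obtain ⟨grad, hgrad⟩ : ∃ grad : MvPolynomial (Fin P.N) ℤ → Fin P.N → L,
      grad = fun g l => ψ (P.π (pderiv l g)) := ⟨_, rfl⟩
  have hadd : ∀ g h, grad (g + h) = grad g + grad h := fun g h => by
    rw [hgrad]; ext l; simp only [map_add, Pi.add_apply]
  have hmul : ∀ g h, ψ (P.π g) = 0 → grad (h * g) = ψ (P.π h) • grad g := fun g h h0 => by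
    rw [hgrad]
    ext l
    simp only [Derivation.leibniz, smul_eq_mul, map_add, map_mul, h0, zero_mul, add_zero,
      Pi.smul_apply]
  have ha : (P.a : L) ≠ 0 := Nat.cast_ne_zero.2 P.a_ne
  obtain ⟨W, hW⟩ : ∃ W, W = LinearMap.range (P.M.map ψ).mulVecLin := ⟨_, rfl⟩
  obtain ⟨V, hV⟩ : ∃ V, V = Submodule.span L (Set.range fun x => grad (G x)) := ⟨_, rfl⟩
  have hWc : Module.finrank L W = P.c := by rw [hW]; exact P.rank_eq ψ
  have hVc : Module.finrank L V ≤
      Submodule.spanFinrank (maximalIdeal (Localization.AtPrime 𝔭)) := by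
    rw [← Submodule.FG.generators_ncard hfg, ← Nat.card_coe_set_eq, Nat.card_eq_fintype_card, hV]
    exact finrank_range_le_card _
  have hrel : ∀ g, P.π g = 0 → grad g ∈ W := fun g hg => by
    rw [hW]
    refine ⟨(P.a : L)⁻¹ • grad g, ?_⟩
    rw [map_smul]
    have h1 : (P.M.map ψ).mulVecLin (grad g) = (P.a : L) • grad g := by
      ext l
      have h2 := congrArg ψ (pr4b_rel P hg l)
      simp only [map_sum, map_mul, map_natCast] at h2
      simpa only [Matrix.mulVecLin_apply, Matrix.mulVec, dotProduct, Matrix.map_apply, Pres.M,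
        Matrix.of_apply, hgrad, Pi.smul_apply, smul_eq_mul] using h2
    rw [h1, smul_smul, inv_mul_cancel₀ ha, one_smul]
  have hle : maximalIdeal (Localization.AtPrime 𝔭) ≤
      (Ideal.span (Set.range fun x => P.π (G x))).map (algebraMap R _) := by
    conv_lhs => rw [← Submodule.span_generators (maximalIdeal (Localization.AtPrime 𝔭))]
    rw [Submodule.span_le]
    intro x hx
    rw [SetLike.mem_coe, ← Ideal.mul_unit_mem_iff_mem _
      (IsLocalization.map_units (Localization.AtPrime 𝔭) (s ⟨x, hx⟩)), hGs ⟨x, hx⟩]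
    exact Ideal.mem_map_of_mem _ (Ideal.subset_span ⟨⟨x, hx⟩, rfl⟩)
  have hspan : ∀ y ∈ Ideal.span (Set.range fun x => P.π (G x)),
      ∃ h, P.π h = y ∧ ψ y = 0 ∧ grad h ∈ W ⊔ V := by
    intro y hy
    refine Submodule.span_induction ?_ ?_ ?_ ?_ hy
    · rintro _ ⟨x, rfl⟩
      exact ⟨G x, rfl, hG0 x, (le_sup_right : V ≤ W ⊔ V) (hV ▸ Submodule.subset_span ⟨x, rfl⟩)⟩
    · refine ⟨0, map_zero _, map_zero _, ?_⟩
      rw [← zero_mul (0 : MvPolynomial (Fin P.N) ℤ), hmul _ _ (by rw [map_zero, map_zero]),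
        map_zero, map_zero, zero_smul]
      exact zero_mem _
    · rintro y y' - - ⟨h, rfl, h1, h2⟩ ⟨h', rfl, h1', h2'⟩
      exact ⟨h + h', map_add _ _ _, by rw [map_add, h1, h1', add_zero],
        by rw [hadd]; exact add_mem h2 h2'⟩
    · rintro r y - ⟨h, rfl, h1, h2⟩
      obtain ⟨B, rfl⟩ := P.surj r
      exact ⟨B * h, map_mul _ _ _, by rw [smul_eq_mul, map_mul, h1, mul_zero],
        by rw [hmul _ _ h1]; exact Submodule.smul_mem _ _ h2⟩
  have hmain : ∀ g, ψ (P.π g) = 0 → grad g ∈ W ⊔ V := by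
    intro g hg
    obtain ⟨m, hm, hmg⟩ := (IsLocalization.algebraMap_mem_map_algebraMap_iff 𝔭.primeCompl _
      _ _).1 (hle ((hmax _).2 hg))
    obtain ⟨S, rfl⟩ := P.surj m
    obtain ⟨h, h1, h2, h3⟩ := hspan _ hmg
    have h4 : ψ (P.π S) ≠ 0 := fun h0 => hm ((hmem _).2 h0)
    have h5 : grad (S * g) ∈ W ⊔ V := by
      have h6 : S * g = (S * g + (-1) * h) + h := by ring
      rw [h6, hadd]
      refine add_mem ((le_sup_left : W ≤ W ⊔ V) (hrel _ ?_)) h3
      rw [map_add, map_mul, map_mul, h1, map_neg, map_one]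
      ring
    rw [hmul _ _ hg] at h5
    exact (Submodule.smul_mem_iff _ h4).1 h5
  have htop : W ⊔ V = ⊤ := by
    rw [eq_top_iff, ← (Pi.basisFun L (Fin P.N)).span_eq, Submodule.span_le]
    rintro _ ⟨l, rfl⟩
    obtain ⟨g, h1, h2, h3⟩ := exists_gradient (ψ.comp P.π) (fun l => halg _) l
    have h4 := hmain g h1
    have h5 : grad g = ψ (P.π (pderiv l g)) • Pi.basisFun L (Fin P.N) l := by
      ext m
      rw [hgrad, Pi.smul_apply, Pi.basisFun_apply, smul_eq_mul]
      rcases eq_or_ne m l with rfl | hm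
      · rw [Pi.single_eq_same, mul_one]
      · rw [Pi.single_eq_of_ne hm, mul_zero]
        simp only [h3 m hm, map_zero]
    rw [h5] at h4
    exact (Submodule.smul_mem_iff _ h2).1 h4
  have hfinal := Submodule.finrank_add_le_finrank_add_finrank W V
  rw [htop, finrank_top, Module.finrank_fin_fun, hWc] at hfinal
  exact_mod_cast (by omega : P.N - P.c ≤
    Submodule.spanFinrank (maximalIdeal (Localization.AtPrime 𝔭)))
-- END PR4b

end Pool.Agent.Lib.MP_6a3dac_ag.NU
end

section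

/-!
# NU: the potential drops under blow-ups; the initial bound
-/

set_option autoImplicit false

namespace Pool.Agent.Lib.MP_6a3dac_ag.NU

open IsLocalRing IsDiscreteValuationRing MvPolynomial

-- BEGIN AM3f
theorem am3f_height {N : ℕ} (𝔫 : Ideal (MvPolynomial (Fin N) ℤ)) [𝔫.IsPrime]
    (h : ∀ m : ℤ, m ≠ 0 → C m ∉ 𝔫) : (𝔫.height : WithBot ℕ∞) ≤ (N : WithBot ℕ∞) := by
  let _ : Algebra (MvPolynomial (Fin N) ℤ) (MvPolynomial (Fin N) ℚ) :=
    MvPolynomial.algebraMvPolynomial
  have hd : Disjoint ((Submonoid.map (C (σ := Fin N)) (nonZeroDivisors ℤ) :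
      Submonoid (MvPolynomial (Fin N) ℤ)) : Set (MvPolynomial (Fin N) ℤ)) (𝔫 : Set _) := by
    rw [Set.disjoint_left]
    rintro _ ⟨m, hm, rfl⟩ h1
    exact h m (nonZeroDivisors.ne_zero hm) h1
  have h2 := IsLocalization.height_map_of_disjoint (S := MvPolynomial (Fin N) ℚ)
    (Submonoid.map (C (σ := Fin N)) (nonZeroDivisors ℤ)) 𝔫 hd
  have hp := IsLocalization.isPrime_of_isPrime_disjoint _ (MvPolynomial (Fin N) ℚ) 𝔫 ‹_› hd
  have h3 := Ideal.height_le_ringKrullDim_of_ne_top hp.ne_top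
  rw [h2, MvPolynomial.ringKrullDim_of_isNoetherianRing, ringKrullDim_eq_zero_of_field] at h3
  simpa using h3

-- END AM3f

-- BEGIN AM3g
/-- Valuations of natural numbers. -/
theorem addVal_natCast_le {V : Type} [CommRing V] [IsDomain V] [IsDiscreteValuationRing V] {d : ℕ}
    (hV : ∀ p : ℕ, p.Prime → addVal V (p : V) ≤ d) {a : ℕ} (ha : a ≠ 0) :
    addVal V (a : V) ≤ (a * d : ℕ) := by
  induction a using Nat.strong_induction_on with
  | _ a ih =>
    by_cases h1 : a = 1
    · subst h1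
      simp
    · obtain ⟨p, hp, b, rfl⟩ := Nat.exists_prime_and_dvd h1
      have hb : b ≠ 0 := fun h => ha (by simp [h])
      have hlt : b < p * b := by nlinarith [hp.two_le, Nat.pos_of_ne_zero hb]
      have h2 := add_le_add (hV p hp) (ih b hlt hb)
      rw [Nat.cast_mul, addVal_mul]
      refine h2.trans ?_
      have h3 : d + b * d ≤ p * b * d := by
        have : 1 + b ≤ p * b := by nlinarith [hp.two_le, Nat.pos_of_ne_zero hb]
        calc d + b * d = (1 + b) * d := by ring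
          _ ≤ p * b * d := Nat.mul_le_mul_right _ this
      exact_mod_cast h3
-- END AM3g

end Pool.Agent.Lib.MP_6a3dac_ag.NU
end
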